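import Pool.Agent.H.MP_e16c79_al.IS.BDefs

/-!
# MP_e16c79_al: basic facts about `BData`
-/

set_option autoImplicit false

namespace Pool.Agent.H.MP_e16c79_al.IS

open Finset SP

namespace BData

variable {R : Type*} [Ring R] {n : ℕ} {J N : AddSubgroup R} (h : BData n J N)
include h

theorem two_j {r : R} (hr : (2 : ℤ) • r ∈ J) : r ∈ J := by
  refine h.sj r ?_
  have e : ((2 * n.factorial : ℕ) : ℤ) = (n.factorial : ℤ) * 2 := by
    push_cast
    ring
  rw [e, mul_smul]
  exact J.zsmul_mem hr _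

theorem two_n {r : R} (hr : (2 : ℤ) • r ∈ N) : r ∈ N := by
  refine h.sn r ?_
  have e : ((2 * n.factorial : ℕ) : ℤ) = (n.factorial : ℤ) * 2 := by
    push_cast
    ring
  rw [e, mul_smul]
  exact N.zsmul_mem hr _

theorem small_j {d : ℕ} (h1 : 1 ≤ d) (h2 : d ≤ n) {r : R} (hr : (d : ℤ) • r ∈ J) : r ∈ J := by
  refine h.sj r ?_
  obtain ⟨e, he⟩ := Nat.dvd_factorial h1 h2
  have e1 : ((2 * n.factorial : ℕ) : ℤ) = (2 * e : ℤ) * d := by
    rw [he]
    push_cast
    ring
  rw [e1, mul_smul]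
  exact J.zsmul_mem hr _

theorem small_n {d : ℕ} (h1 : 1 ≤ d) (h2 : d ≤ n) {r : R} (hr : (d : ℤ) • r ∈ N) : r ∈ N := by
  refine h.sn r ?_
  obtain ⟨e, he⟩ := Nat.dvd_factorial h1 h2
  have e1 : ((2 * n.factorial : ℕ) : ℤ) = (2 * e : ℤ) * d := by
    rw [he]
    push_cast
    ring
  rw [e1, mul_smul]
  exact N.zsmul_mem hr _

theorem pow_mem {x : R} (hx : x ∈ J) (k : ℕ) : x ^ (k + 1) ∈ J := by
  induction k with
  | zero => simpa using hx
  | succ k ih =>
    refine h.two_j ?_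
    have e : (2 : ℤ) • x ^ (k + 1 + 1) = x * x ^ (k + 1) + x ^ (k + 1) * x := by
      rw [two_smul, ← pow_succ x (k + 1), ← pow_succ' x (k + 1)]
    rw [e]
    exact h.jj x hx _ ih

/-- `x y z + z y x ∈ J` -/
theorem tri_j {x y z : R} (hx : x ∈ J) (hy : y ∈ J) (hz : z ∈ J) :
    x * y * z + z * y * x ∈ J := by
  refine h.two_j ?_
  have e : (2 : ℤ) • (x * y * z + z * y * x) =
      (x * (y * z + z * y) + (y * z + z * y) * x) + (z * (x * y + y * x) + (x * y + y * x) * z) -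
        (y * (x * z + z * x) + (x * z + z * x) * y) := by
    rw [two_smul]
    noncomm_ring
  rw [e]
  exact J.sub_mem (J.add_mem (h.jj _ hx _ (h.jj _ hy _ hz)) (h.jj _ hz _ (h.jj _ hx _ hy)))
    (h.jj _ hy _ (h.jj _ hx _ hz))

/-- `x y x ∈ J` -/
theorem u_j {x y : R} (hx : x ∈ J) (hy : y ∈ J) : x * y * x ∈ J := by
  refine h.two_j ?_
  have e : (2 : ℤ) • (x * y * x) = x * y * x + x * y * x := two_smul _ _
  rw [e]
  exact h.tri_j hx hy hx

/-- `x y + y x ∈ N` for `x ∈ N` -/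
theorem nj {x y : R} (hx : x ∈ N) (hy : y ∈ J) : x * y + y * x ∈ N := by
  rw [add_comm]
  exact h.jn y hy x hx

/-- `x y z + z y x ∈ N` for `x ∈ N` -/
theorem tri_n {x y z : R} (hx : x ∈ N) (hy : y ∈ J) (hz : z ∈ J) :
    x * y * z + z * y * x ∈ N := by
  refine h.two_n ?_
  have e : (2 : ℤ) • (x * y * z + z * y * x) =
      (x * (y * z + z * y) + (y * z + z * y) * x) + (z * (x * y + y * x) + (x * y + y * x) * z) -
        (y * (x * z + z * x) + (x * z + z * x) * y) := by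
    rw [two_smul]
    noncomm_ring
  rw [e]
  exact N.sub_mem (N.add_mem (h.nj hx (h.jj _ hy _ hz)) (h.jn _ hz _ (h.nj hx hy)))
    (h.jn _ hy _ (h.nj hx hz))

/-- `x y z + z y x ∈ N` for `z ∈ N` -/
theorem tri_n' {x y z : R} (hx : x ∈ J) (hy : y ∈ J) (hz : z ∈ N) :
    x * y * z + z * y * x ∈ N := by
  rw [add_comm]
  exact h.tri_n hz hy hx

/-- `x y z + z y x ∈ N` for `y ∈ N` -/
theorem tri_m {x y z : R} (hx : x ∈ J) (hy : y ∈ N) (hz : z ∈ J) :
    x * y * z + z * y * x ∈ N := by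
  refine h.two_n ?_
  have e : (2 : ℤ) • (x * y * z + z * y * x) =
      (x * (y * z + z * y) + (y * z + z * y) * x) + (z * (x * y + y * x) + (x * y + y * x) * z) -
        (y * (x * z + z * x) + (x * z + z * x) * y) := by
    rw [two_smul]
    noncomm_ring
  rw [e]
  exact N.sub_mem (N.add_mem (h.jn _ hx _ (h.nj hy hz)) (h.jn _ hz _ (h.jn _ hx _ hy)))
    (h.nj hy (h.jj _ hx _ hz))

/-- Jordan products of elements which are constant modulo `J` -/
theorem cpair {a b : R} {k l : ℤ} (ha : Cst J a k) (hb : Cst J b l) :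
    Cst J (a * b + b * a) (2 * k * l) := by
  obtain ⟨a', rfl⟩ : ∃ a', a = a' + k • (1 : R) := ⟨a - k • (1 : R), by abel⟩
  obtain ⟨b', rfl⟩ : ∃ b', b = b' + l • (1 : R) := ⟨b - l • (1 : R), by abel⟩
  have ha' : a' ∈ J := by
    have : a' + k • (1 : R) - k • (1 : R) ∈ J := ha
    rwa [add_sub_cancel_right] at this
  have hb' : b' ∈ J := by
    have : b' + l • (1 : R) - l • (1 : R) ∈ J := hb
    rwa [add_sub_cancel_right] at this
  have e : (a' + k • (1 : R)) * (b' + l • (1 : R)) + (b' + l • (1 : R)) * (a' + k • (1 : R)) -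
      (2 * k * l) • (1 : R) =
      (a' * b' + b' * a') + ((2 * l) • a' + (2 * k) • b') := by
    simp only [add_mul, mul_add, mul_smul_comm, smul_mul_assoc, mul_one, one_mul, smul_add,
      ← mul_smul]
    module
  show _ ∈ J
  rw [e]
  exact J.add_mem (h.jj _ ha' _ hb') (J.add_mem (J.zsmul_mem ha' _) (J.zsmul_mem hb' _))

theorem ctri {a b c : R} {k l m : ℤ} (ha : Cst J a k) (hb : Cst J b l) (hc : Cst J c m) :
    Cst J (a * b * c + c * b * a) (2 * k * l * m) := by
  obtain ⟨a', rfl⟩ : ∃ a', a = a' + k • (1 : R) := ⟨a - k • (1 : R), by abel⟩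
  obtain ⟨b', rfl⟩ : ∃ b', b = b' + l • (1 : R) := ⟨b - l • (1 : R), by abel⟩
  obtain ⟨c', rfl⟩ : ∃ c', c = c' + m • (1 : R) := ⟨c - m • (1 : R), by abel⟩
  have ha' : a' ∈ J := by
    have : a' + k • (1 : R) - k • (1 : R) ∈ J := ha
    rwa [add_sub_cancel_right] at this
  have hb' : b' ∈ J := by
    have : b' + l • (1 : R) - l • (1 : R) ∈ J := hb
    rwa [add_sub_cancel_right] at this
  have hc' : c' ∈ J := by
    have : c' + m • (1 : R) - m • (1 : R) ∈ J := hc
    rwa [add_sub_cancel_right] at this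
  have e : (a' + k • (1 : R)) * (b' + l • (1 : R)) * (c' + m • (1 : R)) +
      (c' + m • (1 : R)) * (b' + l • (1 : R)) * (a' + k • (1 : R)) - (2 * k * l * m) • (1 : R) =
      (a' * b' * c' + c' * b' * a') + (m • (a' * b' + b' * a') + l • (a' * c' + c' * a') +
        k • (b' * c' + c' * b')) + ((2 * l * m) • a' + (2 * k * m) • b' + (2 * k * l) • c') := by
    simp only [add_mul, mul_add, mul_smul_comm, smul_mul_assoc, mul_one, one_mul, smul_add,
      ← mul_smul]
    module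
  show _ ∈ J
  rw [e]
  refine J.add_mem (J.add_mem (h.tri_j ha' hb' hc') (J.add_mem (J.add_mem ?_ ?_) ?_)) ?_
  · exact J.zsmul_mem (h.jj _ ha' _ hb') _
  · exact J.zsmul_mem (h.jj _ ha' _ hc') _
  · exact J.zsmul_mem (h.jj _ hb' _ hc') _
  · exact J.add_mem (J.add_mem (J.zsmul_mem ha' _) (J.zsmul_mem hb' _)) (J.zsmul_mem hc' _)

/-- `N` absorbs Jordan products with elements which are constant modulo `J` -/
theorem ntw {a b : R} {k : ℤ} (ha : Cst J a k) (hb : b ∈ N) : a * b + b * a ∈ N := by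
  obtain ⟨a', rfl⟩ : ∃ a', a = a' + k • (1 : R) := ⟨a - k • (1 : R), by abel⟩
  have ha' : a' ∈ J := by
    have : a' + k • (1 : R) - k • (1 : R) ∈ J := ha
    rwa [add_sub_cancel_right] at this
  have e : (a' + k • (1 : R)) * b + b * (a' + k • (1 : R)) =
      (a' * b + b * a') + (2 * k) • b := by
    simp only [add_mul, mul_add, mul_smul_comm, smul_mul_assoc, mul_one, one_mul]
    module
  rw [e]
  exact N.add_mem (h.jn _ ha' _ hb) (N.zsmul_mem hb _)

theorem ntw' {a b : R} {k : ℤ} (ha : a ∈ N) (hb : Cst J b k) : a * b + b * a ∈ N := by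
  rw [add_comm]
  exact h.ntw hb ha

/-- `N` absorbs triple products, the element of `N` at the left end -/
theorem ntr1 {a b c : R} {l m : ℤ} (ha : a ∈ N) (hb : Cst J b l) (hc : Cst J c m) :
    a * b * c + c * b * a ∈ N := by
  obtain ⟨b', rfl⟩ : ∃ b', b = b' + l • (1 : R) := ⟨b - l • (1 : R), by abel⟩
  obtain ⟨c', rfl⟩ : ∃ c', c = c' + m • (1 : R) := ⟨c - m • (1 : R), by abel⟩
  have hb' : b' ∈ J := by
    have : b' + l • (1 : R) - l • (1 : R) ∈ J := hb
    rwa [add_sub_cancel_right] at this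
  have hc' : c' ∈ J := by
    have : c' + m • (1 : R) - m • (1 : R) ∈ J := hc
    rwa [add_sub_cancel_right] at this
  have e : a * (b' + l • (1 : R)) * (c' + m • (1 : R)) +
      (c' + m • (1 : R)) * (b' + l • (1 : R)) * a =
      (a * b' * c' + c' * b' * a) + (m • (a * b' + b' * a) + l • (a * c' + c' * a)) +
        (2 * l * m) • a := by
    simp only [add_mul, mul_add, mul_smul_comm, smul_mul_assoc, mul_one, one_mul, smul_add,
      ← mul_smul]
    module
  rw [e]
  exact N.add_mem (N.add_mem (h.tri_n ha hb' hc') (N.add_mem (N.zsmul_mem (h.nj ha hb') _)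
    (N.zsmul_mem (h.nj ha hc') _))) (N.zsmul_mem ha _)

/-- `N` absorbs triple products, the element of `N` at the right end -/
theorem ntr3 {a b c : R} {k l : ℤ} (ha : Cst J a k) (hb : Cst J b l) (hc : c ∈ N) :
    a * b * c + c * b * a ∈ N := by
  rw [add_comm]
  exact h.ntr1 hc hb ha

/-- `N` absorbs triple products, the element of `N` in the middle -/
theorem ntr2 {a b c : R} {k m : ℤ} (ha : Cst J a k) (hb : b ∈ N) (hc : Cst J c m) :
    a * b * c + c * b * a ∈ N := by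
  obtain ⟨a', rfl⟩ : ∃ a', a = a' + k • (1 : R) := ⟨a - k • (1 : R), by abel⟩
  obtain ⟨c', rfl⟩ : ∃ c', c = c' + m • (1 : R) := ⟨c - m • (1 : R), by abel⟩
  have ha' : a' ∈ J := by
    have : a' + k • (1 : R) - k • (1 : R) ∈ J := ha
    rwa [add_sub_cancel_right] at this
  have hc' : c' ∈ J := by
    have : c' + m • (1 : R) - m • (1 : R) ∈ J := hc
    rwa [add_sub_cancel_right] at this
  have e : (a' + k • (1 : R)) * b * (c' + m • (1 : R)) +
      (c' + m • (1 : R)) * b * (a' + k • (1 : R)) =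
      (a' * b * c' + c' * b * a') + (m • (a' * b + b * a') + k • (c' * b + b * c')) +
        (2 * k * m) • b := by
    simp only [add_mul, mul_add, mul_smul_comm, smul_mul_assoc, mul_one, one_mul, smul_add,
      ← mul_smul]
    module
  rw [e]
  exact N.add_mem (N.add_mem (h.tri_m ha' hb hc') (N.add_mem (N.zsmul_mem (h.jn _ ha' _ hb) _)
    (N.zsmul_mem (h.jn _ hc' _ hb) _))) (N.zsmul_mem hb _)

/-- linearization modulo `N` -/
theorem lin_n (hn : 1 ≤ n) {x a : R} (hx : x ∈ J) (ha : a ∈ J) :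
    ∑ i : Fin n, x ^ (i : ℕ) * a * x ^ (n - 1 - (i : ℕ)) ∈ N := by
  obtain ⟨m, rfl⟩ : ∃ m, n = m + 1 := ⟨n - 1, by omega⟩
  rw [Nat.add_sub_cancel]
  have key : (QuotientAddGroup.mk (HS.cf x a (m + 1) 1) : R ⧸ N) = 0 := by
    refine HS.vand (M := R ⧸ N) (m + 1) ?_
      (fun k => (QuotientAddGroup.mk (HS.cf x a (m + 1) k) : R ⧸ N)) (fun i => ?_) 1
    · intro d h1 h2 r hr
      induction r using QuotientAddGroup.induction_on with
      | H r =>
        have hr' : (QuotientAddGroup.mk ((d : ℤ) • r) : R ⧸ N) = 0 := by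
          rw [QuotientAddGroup.mk_zsmul]
          exact hr
        rw [QuotientAddGroup.eq_zero_iff] at hr' ⊢
        exact h.small_n h1 h2 hr'
    · have e := HS.cf_sum x a (m + 1) ((i : ℕ) : ℤ)
      rw [← Fin.sum_univ_eq_sum_range (fun k => (((i : ℕ) : ℤ)) ^ k • HS.cf x a (m + 1) k)] at e
      have e1 : (QuotientAddGroup.mk ((x + ((i : ℕ) : ℤ) • a) ^ (m + 1)) : R ⧸ N) = 0 := by
        rw [QuotientAddGroup.eq_zero_iff]
        exact h.nil _ (J.add_mem hx (J.zsmul_mem ha _))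
      rw [e] at e1
      rw [← e1]
      have e2 : ∀ s : Fin (m + 1 + 1) → R,
          (QuotientAddGroup.mk (∑ j, s j) : R ⧸ N) = ∑ j, (QuotientAddGroup.mk (s j) : R ⧸ N) :=
        fun s => map_sum (QuotientAddGroup.mk' N) s _
      rw [e2]
      rfl
  rw [QuotientAddGroup.eq_zero_iff, HS.cf_one,
    Finset.Nat.sum_antidiagonal_eq_sum_range_succ_mk] at key
  rw [Fin.sum_univ_eq_sum_range (fun i => x ^ i * a * x ^ (m - i))]
  exact key

/-- the sum over the split, modulo `N` -/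
theorem dx_n (hn : 1 ≤ n) {x a : R} {k : ℤ} (hx : x ∈ J) (ha : Cst J a k) :
    ∑ i : Fin n, x ^ (i : ℕ) * a * x ^ (n - 1 - (i : ℕ)) - (k * n) • x ^ (n - 1) ∈ N := by
  have e : ∑ i : Fin n, x ^ (i : ℕ) * a * x ^ (n - 1 - (i : ℕ)) - (k * n) • x ^ (n - 1) =
      ∑ i : Fin n, x ^ (i : ℕ) * (a - k • (1 : R)) * x ^ (n - 1 - (i : ℕ)) := by
    rw [sub_eq_iff_eq_add]
    have e1 : ∀ i : Fin n, x ^ (i : ℕ) * a * x ^ (n - 1 - (i : ℕ)) =
        x ^ (i : ℕ) * (a - k • (1 : R)) * x ^ (n - 1 - (i : ℕ)) + k • x ^ (n - 1) := by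
      intro i
      have e2 : x ^ (n - 1) = x ^ (i : ℕ) * x ^ (n - 1 - (i : ℕ)) := by
        rw [← pow_add]
        congr 1
        have := i.isLt
        omega
      rw [mul_sub, sub_mul, mul_smul_comm, smul_mul_assoc, mul_one, ← e2, sub_add_cancel]
    rw [sum_congr rfl (fun i _ => e1 i), sum_add_distrib, sum_const, card_univ, Fintype.card_fin,
      mul_comm k, mul_smul, natCast_zsmul]
  rw [e]
  exact h.lin_n hn hx ha

end BData

end Pool.Agent.H.MP_e16c79_al.IS
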