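import Pool.Agent.H.MP_e16c79_al.IS.BDefs

/-!
# MP_e16c79_al: letter words and half words of the Jordan monomials
-/

set_option autoImplicit false

namespace Pool.Agent.H.MP_e16c79_al.IS

variable {M : Type*} [AddCommMonoid M]

namespace Tr

/-- the words of a monomial, the two powers and the block of `x_k` being the letter `k` -/
def lw : Tr → List (List ℕ)
  | on => [[]]
  | lf c => [[c / 4]]
  | tw a b => mulw a.lw b.lw ++ mulw b.lw a.lw
  | tr a b c => mulw a.lw (mulw b.lw c.lw) ++ mulw c.lw (mulw b.lw a.lw)
  | dx k h => mulw [[k]] (mulw h.lw [[k]])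

/-- the root is `tw` or `tr` after removing the `dx` -/
def top : Tr → Bool
  | on => false
  | lf _ => false
  | tw _ _ => true
  | tr _ _ _ => true
  | dx _ h => h.top

/-- half of the words: one of each pair of a word and its reverse -/
def hw : Tr → List (List ℕ)
  | on => []
  | lf _ => []
  | tw a b => mulw a.lw b.lw
  | tr a b c => mulw a.lw (mulw b.lw c.lw)
  | dx k h => mulw [[k]] (mulw h.hw [[k]])

end Tr

open Tr

theorem map_mulw {a b : List (List ℕ)} (f : ℕ → ℕ) :
    (mulw a b).map (List.map f) = mulw (a.map (List.map f)) (b.map (List.map f)) := by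
  unfold mulw
  rw [List.map_flatMap, List.flatMap_map]
  refine List.flatMap_congr fun u _ => ?_
  rw [List.map_map, List.map_map]
  refine List.map_congr_left fun v _ => ?_
  show (u ++ v).map f = u.map f ++ v.map f
  rw [List.map_append]

theorem Tr.lw_eq (T : Tr) : T.wd.map (List.map (fun c => c / 4)) = T.lw := by
  induction T with
  | on => rfl
  | lf c => rfl
  | tw a b iha ihb =>
    unfold Tr.wd Tr.lw
    rw [List.map_append, map_mulw, map_mulw, iha, ihb]
  | tr a b c iha ihb ihc =>
    unfold Tr.wd Tr.lw
    rw [List.map_append, map_mulw, map_mulw, map_mulw, map_mulw, iha, ihb, ihc]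
  | dx k h ih =>
    unfold Tr.wd Tr.lw
    rw [map_mulw, map_mulw, ih]
    have e1 : (4 * k + 1) / 4 = k := by omega
    have e2 : (4 * k + 2) / 4 = k := by omega
    show mulw [[(4 * k + 1) / 4]] (mulw h.lw [[(4 * k + 2) / 4]]) = _
    rw [e1, e2]

theorem mulw_map_sum (F : List ℕ → M) (a b : List (List ℕ)) :
    ((mulw a b).map F).sum = (a.map (fun u => (b.map (fun v => F (u ++ v))).sum)).sum := by
  unfold mulw
  induction a with
  | nil => rfl
  | cons u a ih =>
    rw [List.flatMap_cons, List.map_append, List.sum_append, ih, List.map_cons, List.sum_cons,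
      List.map_map]
    rfl

/-- interchange of two sums over lists -/
theorem sum_sum_comm {α β : Type*} (a : List α) (b : List β) (F : α → β → M) :
    (a.map (fun u => (b.map (fun v => F u v)).sum)).sum =
      (b.map (fun v => (a.map (fun u => F u v)).sum)).sum := by
  induction a with
  | nil => simp
  | cons u a ih =>
    rw [List.map_cons, List.sum_cons, ih, ← List.sum_map_add]
    rfl

/-- the reversed words of `a` are the words of `a'`, up to order -/
def RRel (M : Type*) [AddCommMonoid M] (a a' : List (List ℕ)) : Prop :=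
  ∀ F : List ℕ → M, (a.map (fun u => F u.reverse)).sum = (a'.map F).sum

theorem RRel.mulw {a a' b b' : List (List ℕ)} (ha : RRel M a a') (hb : RRel M b b') :
    RRel M (mulw a b) (mulw b' a') := by
  intro F
  rw [mulw_map_sum, mulw_map_sum, sum_sum_comm b' a', ← ha (fun u => (b'.map (fun v => F (v ++ u))).sum)]
  refine congrArg List.sum (List.map_congr_left fun u _ => ?_)
  rw [← hb (fun v => F (v ++ u.reverse))]
  refine congrArg List.sum (List.map_congr_left fun v _ => ?_)
  rw [List.reverse_append]

theorem mulw_assoc_sum (F : List ℕ → M) (a b c : List (List ℕ)) :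
    ((mulw (mulw a b) c).map F).sum = ((mulw a (mulw b c)).map F).sum := by
  rw [mulw_map_sum, mulw_map_sum, mulw_map_sum]
  refine congrArg List.sum (List.map_congr_left fun u _ => ?_)
  rw [mulw_map_sum]
  refine congrArg List.sum (List.map_congr_left fun v _ => ?_)
  refine congrArg List.sum (List.map_congr_left fun w _ => ?_)
  rw [List.append_assoc]

theorem RRel.mulw3 {a a' b b' c c' : List (List ℕ)} (ha : RRel M a a') (hb : RRel M b b')
    (hc : RRel M c c') : RRel M (Tr.mulw a (Tr.mulw b c)) (Tr.mulw c' (Tr.mulw b' a')) := by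
  intro F
  rw [(ha.mulw (hb.mulw hc)) F, mulw_assoc_sum]

/-- the words of a monomial are closed under reversal -/
theorem lw_rrel (M : Type*) [AddCommMonoid M] (T : Tr) : RRel M T.lw T.lw := by
  induction T with
  | on => intro F; rfl
  | lf c => intro F; rfl
  | tw a b iha ihb =>
    intro F
    unfold Tr.lw
    rw [List.map_append, List.sum_append, List.map_append, List.sum_append, (iha.mulw ihb) F,
      (ihb.mulw iha) F, add_comm]
  | tr a b c iha ihb ihc =>
    intro F
    unfold Tr.lw
    rw [List.map_append, List.sum_append, List.map_append, List.sum_append,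
      (iha.mulw3 ihb ihc) F, (ihc.mulw3 ihb iha) F, add_comm]
  | dx k h ih =>
    have hk : RRel M [[k]] [[k]] := fun F => rfl
    exact hk.mulw3 ih hk

/-- the words of a monomial are closed under reversal -/
theorem lw_rev (F : List ℕ → M) (T : Tr) :
    (T.lw.map (fun u => F u.reverse)).sum = (T.lw.map F).sum := lw_rrel M T F

/-- half of the words is enough -/
theorem hw_sum (T : Tr) : T.top = true → ∀ F : List ℕ → M, (∀ u, F u.reverse = F u) →
    (T.lw.map F).sum = 2 • (T.hw.map F).sum := by
  induction T with
  | on => intro h; cases h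
  | lf c => intro h; cases h
  | tw a b _ _ =>
    intro _ F hF
    unfold Tr.lw Tr.hw
    rw [List.map_append, List.sum_append, two_nsmul]
    congr 1
    rw [← ((lw_rrel M a).mulw (lw_rrel M b)) F]
    refine congrArg List.sum (List.map_congr_left fun u _ => hF u)
  | tr a b c _ _ _ =>
    intro _ F hF
    unfold Tr.lw Tr.hw
    rw [List.map_append, List.sum_append, two_nsmul]
    congr 1
    rw [← ((lw_rrel M a).mulw3 (lw_rrel M b) (lw_rrel M c)) F]
    refine congrArg List.sum (List.map_congr_left fun u _ => hF u)
  | dx k h ih =>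
    intro hT F hF
    unfold Tr.lw Tr.hw
    have e : ∀ x : List (List ℕ), ((mulw [[k]] (mulw x [[k]])).map F).sum =
        (x.map (fun u => F ([k] ++ (u ++ [k])))).sum := by
      intro x
      rw [mulw_map_sum]
      show ((mulw x [[k]]).map (fun v => F ([k] ++ v))).sum + 0 = _
      rw [add_zero, mulw_map_sum]
      refine congrArg List.sum (List.map_congr_left fun u _ => ?_)
      show F ([k] ++ (u ++ [k])) + 0 = _
      rw [add_zero]
    rw [e, e]
    refine ih hT (fun u => F ([k] ++ (u ++ [k]))) fun u => ?_
    show F ([k] ++ (u.reverse ++ [k])) = F ([k] ++ (u ++ [k]))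
    rw [← hF ([k] ++ (u ++ [k]))]
    congr 1
    rw [List.reverse_append, List.reverse_append]
    simp

end Pool.Agent.H.MP_e16c79_al.IS
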