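import Pool.Agent.H.MP_e16c79_al.IS.BSound
import Pool.Agent.H.MP_e16c79_al.IS.Half

/-!
# MP_e16c79_al: from strand words to letter words modulo a group
-/

set_option autoImplicit false

namespace Pool.Agent.H.MP_e16c79_al.IS

open Finset SP

/-! ### Standard words -/

/-- the marking of a letter word; `s` are the letters seen before -/
def mkw (f : ℕ → Bool) : List ℕ → List ℕ → List ℕ
  | _, [] => []
  | s, k :: u =>
    (if k ∈ s then (if f k then 4 * k + 1 else 4 * k + 2)
      else if k ∈ u then (if f k then 4 * k + 2 else 4 * k + 1) else 4 * k + 3) ::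
      mkw f (k :: s) u

/-- the standard marking -/
def std (u : List ℕ) : List ℕ := mkw (fun _ => false) [] u

/-- every letter is split once or is a block -/
structure PStd (w : List ℕ) : Prop where
  lt : ∀ c ∈ w, c < 20 ∧ c % 4 ≠ 0
  ct : ∀ k < 5, (w.count (4 * k + 1) = 1 ∧ w.count (4 * k + 2) = 1 ∧ w.count (4 * k + 3) = 0) ∨
    (w.count (4 * k + 1) = 0 ∧ w.count (4 * k + 2) = 0 ∧ w.count (4 * k + 3) = 1)

theorem mkw_congr {f g : ℕ → Bool} (u : List ℕ) : ∀ (s : List ℕ), (∀ k ∈ u, f k = g k) →
    mkw f s u = mkw g s u := by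
  induction u with
  | nil => exact fun _ _ => rfl
  | cons k u ih =>
    intro s h
    unfold mkw
    rw [h k (by simp), ih (k :: s) (fun j hj => h j (by simp [hj]))]

theorem mkw_mem (f : ℕ → Bool) (u : List ℕ) : ∀ (s s' : List ℕ), (∀ k, k ∈ s ↔ k ∈ s') →
    mkw f s u = mkw f s' u := by
  induction u with
  | nil => exact fun _ _ _ => rfl
  | cons k u ih =>
    intro s s' h
    unfold mkw
    rw [ih (k :: s) (k :: s') (fun j => by simp [h j])]
    by_cases hk : k ∈ s
    · rw [if_pos hk, if_pos ((h k).1 hk)]
    · rw [if_neg hk, if_neg (fun h' => hk ((h k).2 h'))]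

theorem sw1 (k : ℕ) : sw k (4 * k + 1) = 4 * k + 2 := by
  unfold sw
  rw [beq_t, cond_true]

theorem sw2 (k : ℕ) : sw k (4 * k + 2) = 4 * k + 1 := by
  unfold sw
  rw [beq_f (by omega), cond_false, beq_t, cond_true]

theorem sw0 {k c : ℕ} (h1 : c ≠ 4 * k + 1) (h2 : c ≠ 4 * k + 2) : sw k c = c := by
  unfold sw
  rw [beq_f h1, cond_false, beq_f h2, cond_false]

theorem sw_sw (k c : ℕ) : sw k (sw k c) = c := by
  by_cases h1 : c = 4 * k + 1
  · rw [h1, sw1, sw2]
  by_cases h2 : c = 4 * k + 2
  · rw [h2, sw2, sw1]
  rw [sw0 h1 h2, sw0 h1 h2]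

theorem sw_inj (k : ℕ) : Function.Injective (sw k) :=
  (Function.LeftInverse.injective (g := sw k) (sw_sw k))

theorem count_sw (k c : ℕ) (w : List ℕ) : (w.map (sw k)).count c = w.count (sw k c) := by
  conv_lhs => rw [← sw_sw k c]
  exact List.count_map_of_injective w (sw k) (sw_inj k) (sw k c)

theorem PStd.sw {w : List ℕ} (h : PStd w) {k : ℕ} (hk : k < 5) : PStd (w.map (SP.sw k)) where
  lt := by
    intro c hc
    obtain ⟨d, hd, rfl⟩ := List.mem_map.1 hc
    have h1 := h.lt d hd
    by_cases h2 : d = 4 * k + 1
    · rw [h2, sw1]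
      omega
    by_cases h3 : d = 4 * k + 2
    · rw [h3, sw2]
      omega
    rw [sw0 h2 h3]
    exact h1
  ct := by
    intro j hj
    rw [count_sw, count_sw, count_sw]
    by_cases hjk : j = k
    · subst hjk
      rw [sw1, sw2, sw0 (by omega) (by omega)]
      rcases h.ct j hj with h1 | h1
      · left
        omega
      · right
        omega
    · rw [sw0 (by omega) (by omega), sw0 (by omega) (by omega), sw0 (by omega) (by omega)]
      exact h.ct j hj

/-- toggling a mark -/
theorem mkw_sw (f : ℕ → Bool) (k : ℕ) (u : List ℕ) : ∀ s : List ℕ,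
    (mkw f s u).map (SP.sw k) = mkw (Function.update f k (!f k)) s u := by
  induction u with
  | nil => exact fun _ => rfl
  | cons j u ih =>
    intro s
    unfold mkw
    rw [List.map_cons, ih (j :: s)]
    congr 1
    by_cases hj : j = k
    · subst hj
      rw [Function.update_self]
      by_cases h1 : j ∈ s
      · rw [if_pos h1, if_pos h1]
        cases f j with
        | true => simpa using sw1 j
        | false => simpa using sw2 j
      · rw [if_neg h1, if_neg h1]
        by_cases h2 : j ∈ u
        · rw [if_pos h2, if_pos h2]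
          cases f j with
          | true => simpa using sw2 j
          | false => simpa using sw1 j
        · rw [if_neg h2, if_neg h2]
          exact sw0 (by omega) (by omega)
    · rw [Function.update_of_ne hj]
      have e : ∀ i, 1 ≤ i → i ≤ 3 → SP.sw k (4 * j + i) = 4 * j + i :=
        fun i h1 h2 => sw0 (by omega) (by omega)
      by_cases h1 : j ∈ s
      · rw [if_pos h1]
        cases f j with
        | true => simpa using e 1 (by omega) (by omega)
        | false => simpa using e 2 (by omega) (by omega)
      · rw [if_neg h1]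
        by_cases h2 : j ∈ u
        · rw [if_pos h2]
          cases f j with
          | true => simpa using e 2 (by omega) (by omega)
          | false => simpa using e 1 (by omega) (by omega)
        · rw [if_neg h2]
          exact e 3 (by omega) (by omega)

/-- the marks of a word -/
def fm (w : List ℕ) (k : ℕ) : Bool := decide (w.idxOf (4 * k + 2) < w.idxOf (4 * k + 1))

/-- a word is determined by its letters and its marks -/
theorem mkw_fm {full : List ℕ} (h : PStd full) (w : List ℕ) : ∀ (pre s : List ℕ),
    full = pre ++ w → (∀ k, k ∈ s ↔ k ∈ pre.map (· / 4)) →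
      mkw (fm full) s (w.map (· / 4)) = w := by
  induction w with
  | nil => exact fun _ _ _ _ => rfl
  | cons c w ih =>
    intro pre s hf hs
    have hc : c ∈ full := by
      rw [hf]
      simp
    obtain ⟨h1, h2⟩ := h.lt c hc
    have ih' := ih (pre ++ [c]) (c / 4 :: s) (by rw [hf]; simp) (by
      intro k
      rw [List.mem_cons, List.map_append, List.mem_append, hs k]
      simp [or_comm])
    set k := c / 4 with hk
    have hk5 : k < 5 := by omega
    have hct := h.ct k hk5
    have hcount : ∀ d, full.count d = pre.count d + ((if c = d then 1 else 0) + w.count d) := by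
      intro d
      rw [hf, List.count_append, List.count_cons]
      by_cases hcd : c = d
      · simp [hcd]
        omega
      · simp [hcd]
    have hpm : k ∈ pre.map (· / 4) → 4 * k + 1 ∈ pre ∨ 4 * k + 2 ∈ pre ∨ 4 * k + 3 ∈ pre := by
      intro hh
      obtain ⟨d, hd, hd2⟩ := List.mem_map.1 hh
      have h3 := h.lt d (by rw [hf]; exact List.mem_append_left _ hd)
      have h4 : d / 4 = k := hd2
      have h5 : d = 4 * k + 1 ∨ d = 4 * k + 2 ∨ d = 4 * k + 3 := by omega
      rcases h5 with rfl | rfl | rfl
      · exact Or.inl hd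
      · exact Or.inr (Or.inl hd)
      · exact Or.inr (Or.inr hd)
    have hwm : k ∈ w.map (· / 4) → 4 * k + 1 ∈ w ∨ 4 * k + 2 ∈ w ∨ 4 * k + 3 ∈ w := by
      intro hh
      obtain ⟨d, hd, hd2⟩ := List.mem_map.1 hh
      have h3 := h.lt d (by rw [hf]; exact List.mem_append_right _ (by simp [hd]))
      have h4 : d / 4 = k := hd2
      have h5 : d = 4 * k + 1 ∨ d = 4 * k + 2 ∨ d = 4 * k + 3 := by omega
      rcases h5 with rfl | rfl | rfl
      · exact Or.inl hd
      · exact Or.inr (Or.inl hd)
      · exact Or.inr (Or.inr hd)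
    have hmem : ∀ (d : ℕ) (l : List ℕ), d ∈ l → 1 ≤ l.count d := fun d l hd =>
      List.one_le_count_iff.2 hd
    have hnm : ∀ (d : ℕ) (l : List ℕ), l.count d = 0 → d ∉ l := fun d l hd =>
      List.count_eq_zero.1 hd
    have hm4 : ∀ (d : ℕ) (l : List ℕ), d ∈ l → d / 4 = k → k ∈ l.map (· / 4) :=
      fun d l hd hdk => List.mem_map.2 ⟨d, hd, hdk⟩
    rw [List.map_cons]
    unfold mkw
    rw [ih']
    congr 1
    have hc3 : c = 4 * k + 1 ∨ c = 4 * k + 2 ∨ c = 4 * k + 3 := by omega
    rcases hc3 with e | e | e
    · -- first power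
      have c1 := hcount (4 * k + 1)
      have c2 := hcount (4 * k + 2)
      have c3 := hcount (4 * k + 3)
      rw [if_pos e] at c1
      rw [if_neg (by omega)] at c2 c3
      have q : full.count (4 * k + 1) = 1 ∧ full.count (4 * k + 2) = 1 ∧
          full.count (4 * k + 3) = 0 := by
        rcases hct with hh | hh
        · exact hh
        · omega
      have n1 : 4 * k + 1 ∉ pre := hnm _ _ (by omega)
      have n3 : 4 * k + 3 ∉ pre := hnm _ _ (by omega)
      have i1 : full.idxOf (4 * k + 1) = pre.length := by
        rw [hf, List.idxOf_append_of_notMem n1, e, List.idxOf_cons_self, Nat.add_zero]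
      by_cases hp : 4 * k + 2 ∈ pre
      · rw [if_pos ((hs k).2 (hm4 _ _ hp (by omega)))]
        have i2 : full.idxOf (4 * k + 2) < pre.length := by
          rw [hf, List.idxOf_append_of_mem hp]
          exact List.idxOf_lt_length_iff.2 hp
        have e2 : fm full k = true := by
          unfold fm
          rw [decide_eq_true_iff]
          omega
        rw [e2, if_pos rfl]
        exact e.symm
      · rw [if_neg (fun hh => by
          rcases hpm ((hs k).1 hh) with hh | hh | hh
          · exact n1 hh
          · exact hp hh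
          · exact n3 hh)]
        have hw : 4 * k + 2 ∈ w := by
          by_contra hw
          have := List.count_eq_zero.2 hp
          have := List.count_eq_zero.2 hw
          omega
        rw [if_pos (hm4 _ _ hw (by omega))]
        have i2 : pre.length < full.idxOf (4 * k + 2) := by
          rw [hf, List.idxOf_append_of_notMem hp, List.idxOf_cons_ne w (by omega)]
          omega
        have e2 : fm full k = false := by
          unfold fm
          rw [decide_eq_false_iff_not]
          omega
        rw [e2]
        simpa using e.symm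
    · -- second power
      have c1 := hcount (4 * k + 1)
      have c2 := hcount (4 * k + 2)
      have c3 := hcount (4 * k + 3)
      rw [if_pos e] at c2
      rw [if_neg (by omega)] at c1 c3
      have q : full.count (4 * k + 1) = 1 ∧ full.count (4 * k + 2) = 1 ∧
          full.count (4 * k + 3) = 0 := by
        rcases hct with hh | hh
        · exact hh
        · omega
      have n1 : 4 * k + 2 ∉ pre := hnm _ _ (by omega)
      have n3 : 4 * k + 3 ∉ pre := hnm _ _ (by omega)
      have i1 : full.idxOf (4 * k + 2) = pre.length := by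
        rw [hf, List.idxOf_append_of_notMem n1, e, List.idxOf_cons_self, Nat.add_zero]
      by_cases hp : 4 * k + 1 ∈ pre
      · rw [if_pos ((hs k).2 (hm4 _ _ hp (by omega)))]
        have i2 : full.idxOf (4 * k + 1) < pre.length := by
          rw [hf, List.idxOf_append_of_mem hp]
          exact List.idxOf_lt_length_iff.2 hp
        have e2 : fm full k = false := by
          unfold fm
          rw [decide_eq_false_iff_not]
          omega
        rw [e2]
        simpa using e.symm
      · rw [if_neg (fun hh => by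
          rcases hpm ((hs k).1 hh) with hh | hh | hh
          · exact hp hh
          · exact n1 hh
          · exact n3 hh)]
        have hw : 4 * k + 1 ∈ w := by
          by_contra hw
          have := List.count_eq_zero.2 hp
          have := List.count_eq_zero.2 hw
          omega
        rw [if_pos (hm4 _ _ hw (by omega))]
        have i2 : pre.length < full.idxOf (4 * k + 1) := by
          rw [hf, List.idxOf_append_of_notMem hp, List.idxOf_cons_ne w (by omega)]
          omega
        have e2 : fm full k = true := by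
          unfold fm
          rw [decide_eq_true_iff]
          omega
        rw [e2, if_pos rfl]
        exact e.symm
    · -- block
      have c1 := hcount (4 * k + 1)
      have c2 := hcount (4 * k + 2)
      have c3 := hcount (4 * k + 3)
      rw [if_pos e] at c3
      rw [if_neg (by omega)] at c1 c2
      have q : full.count (4 * k + 1) = 0 ∧ full.count (4 * k + 2) = 0 ∧
          full.count (4 * k + 3) = 1 := by
        rcases hct with hh | hh
        · omega
        · exact hh
      rw [if_neg (fun hh => by
          rcases hpm ((hs k).1 hh) with hh | hh | hh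
          · have := hmem _ _ hh
            omega
          · have := hmem _ _ hh
            omega
          · have := hmem _ _ hh
            omega), if_neg (fun hh => by
          rcases hwm hh with hh | hh | hh
          · have := hmem _ _ hh
            omega
          · have := hmem _ _ hh
            omega
          · have := hmem _ _ hh
            omega)]
      exact e.symm

section ev

variable {R : Type*} [Ring R] {n : ℕ}

theorem ev_sw' (X : Fin 5 → R) {w : List ℕ} (h : PStd w) {k : ℕ} (hk : k < 5) :
    ev n X (w.map (SP.sw k)) = ev n X w := by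
  rcases h.ct k hk with ⟨_, _, h3⟩ | ⟨h1, h2, _⟩
  · refine ev_sw hk (fun c hc => (h.lt c hc).1) (fun c hc => (h.lt c hc).2) ?_
    rintro c hc rfl
    exact List.count_eq_zero.1 h3 hc
  · have e : w.map (SP.sw k) = w := by
      conv_rhs => rw [← List.map_id w]
      refine List.map_congr_left fun c hc => ?_
      refine sw0 ?_ ?_
      · rintro rfl
        exact List.count_eq_zero.1 h1 hc
      · rintro rfl
        exact List.count_eq_zero.1 h2 hc
    rw [e]

/-- the value of a word depends only on its letters -/
theorem ev_std (X : Fin 5 → R) {w : List ℕ} (h : PStd w) :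
    ev n X w = ev n X (std (w.map (· / 4))) := by
  set u := w.map (· / 4) with hu
  set f := fm w with hf
  have h0 : mkw f [] u = w := mkw_fm h w [] [] rfl (by simp)
  have key : ∀ j, j ≤ 5 → PStd (mkw (fun k => if k < j then false else f k) [] u) ∧
      ev n X (mkw (fun k => if k < j then false else f k) [] u) = ev n X w := by
    intro j
    induction j with
    | zero =>
      intro _
      have e : (fun k => if k < 0 then false else f k) = f := by
        funext k
        rw [if_neg (by omega)]
      rw [e, h0]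
      exact ⟨h, rfl⟩
    | succ j ih =>
      intro hj
      obtain ⟨k1, k2⟩ := ih (by omega)
      set g : ℕ → Bool := fun k => if k < j then false else f k with hg
      by_cases hfj : f j = true
      · have e : (fun k => if k < j + 1 then false else f k) =
            Function.update g j (!g j) := by
          funext k
          by_cases hk : k = j
          · subst hk
            rw [Function.update_self, if_pos (by omega), hg]
            simp [hfj]
          · rw [Function.update_of_ne hk, hg]
            by_cases hk2 : k < j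
            · simp [hk2, show k < j + 1 by omega]
            · simp [hk2, show ¬ k < j + 1 by omega]
        rw [e, ← mkw_sw]
        exact ⟨k1.sw (by omega), (ev_sw' X k1 (by omega)).trans k2⟩
      · have e : (fun k => if k < j + 1 then false else f k) = g := by
          funext k
          by_cases hk : k = j
          · subst hk
            rw [if_pos (by omega), hg]
            simp at hfj
            simp [hfj]
          · rw [hg]
            by_cases hk2 : k < j
            · simp [hk2, show k < j + 1 by omega]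
            · simp [hk2, show ¬ k < j + 1 by omega]
        rw [e]
        exact ⟨k1, k2⟩
  have h5 := (key 5 le_rfl).2
  rw [← h5]
  unfold std
  congr 1
  refine mkw_congr u [] ?_
  intro k hk
  rw [hu] at hk
  obtain ⟨c, hc, rfl⟩ := List.mem_map.1 hk
  have := (h.lt c hc).1
  rw [if_pos (by omega)]

end ev

/-! ### The check -/

/-- number of occurrences -/
def cnt (a : ℕ) : List ℕ → ℕ
  | [] => 0
  | b :: l => bif Nat.beq b a then cnt a l + 1 else cnt a l

theorem cnt_eq (a : ℕ) (l : List ℕ) : cnt a l = l.count a := by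
  induction l with
  | nil => rfl
  | cons b l ih =>
    unfold cnt
    by_cases h : b = a
    · subst h
      rw [beq_t, cond_true, ih, List.count_cons_self]
    · rw [beq_f h, cond_false, ih, List.count_cons_of_ne h]

/-- the check for one letter -/
def pk (l : List ℕ) (k : ℕ) : Bool :=
  bif Nat.beq (cnt (4 * k + 3) l) 0 then
    (bif Nat.beq (cnt (4 * k + 1) l) 1 then Nat.beq (cnt (4 * k + 2) l) 1 else false)
  else (bif Nat.beq (cnt (4 * k + 3) l) 1 then
    (bif Nat.beq (cnt (4 * k + 1) l) 0 then Nat.beq (cnt (4 * k + 2) l) 0 else false) else false)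

/-- the check -/
def pstd (l : List ℕ) : Bool :=
  bif okw 5 l then (bif pk l 0 then (bif pk l 1 then (bif pk l 2 then (bif pk l 3 then pk l 4
    else false) else false) else false) else false) else false

theorem pk_iff {l : List ℕ} {k : ℕ} (h : pk l k = true) :
    (l.count (4 * k + 1) = 1 ∧ l.count (4 * k + 2) = 1 ∧ l.count (4 * k + 3) = 0) ∨
      (l.count (4 * k + 1) = 0 ∧ l.count (4 * k + 2) = 0 ∧ l.count (4 * k + 3) = 1) := by
  unfold pk at h
  rw [cnt_eq, cnt_eq, cnt_eq] at h
  by_cases h3 : l.count (4 * k + 3) = 0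
  · rw [h3, beq_t, cond_true] at h
    by_cases h1 : l.count (4 * k + 1) = 1
    · rw [h1, beq_t, cond_true] at h
      exact Or.inl ⟨h1, Nat.eq_of_beq_eq_true h, h3⟩
    · rw [beq_f h1, cond_false] at h
      cases h
  · rw [beq_f h3, cond_false] at h
    by_cases h4 : l.count (4 * k + 3) = 1
    · rw [h4, beq_t, cond_true] at h
      by_cases h1 : l.count (4 * k + 1) = 0
      · rw [h1, beq_t, cond_true] at h
        exact Or.inr ⟨h1, Nat.eq_of_beq_eq_true h, h4⟩
      · rw [beq_f h1, cond_false] at h
        cases h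
    · rw [beq_f h4, cond_false] at h
      cases h

theorem pstd_iff {l : List ℕ} (h : pstd l = true) : PStd l := by
  unfold pstd at h
  cases h0 : okw 5 l with
  | false =>
    rw [h0, cond_false] at h
    cases h
  | true =>
  rw [h0, cond_true] at h
  cases h1 : pk l 0 with
  | false =>
    rw [h1, cond_false] at h
    cases h
  | true =>
  rw [h1, cond_true] at h
  cases h2 : pk l 1 with
  | false =>
    rw [h2, cond_false] at h
    cases h
  | true =>
  rw [h2, cond_true] at h
  cases h3 : pk l 2 with
  | false =>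
    rw [h3, cond_false] at h
    cases h
  | true =>
  rw [h3, cond_true] at h
  cases h4 : pk l 3 with
  | false =>
    rw [h4, cond_false] at h
    cases h
  | true =>
  rw [h4, cond_true] at h
  constructor
  · intro c hc
    have := okw_iff.1 h0 c hc
    exact ⟨this.1, this.2.1⟩
  · intro k hk
    have : k = 0 ∨ k = 1 ∨ k = 2 ∨ k = 3 ∨ k = 4 := by omega
    rcases this with rfl | rfl | rfl | rfl | rfl
    · exact pk_iff h1
    · exact pk_iff h2
    · exact pk_iff h3
    · exact pk_iff h4
    · exact pk_iff h

theorem PStd.of_count {l w : List ℕ} (h : PStd l) (hc : ∀ x, w.count x = l.count x) : PStd w where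
  lt := by
    intro c hc'
    refine h.lt c ?_
    have h1 := List.one_le_count_iff.2 hc'
    rw [hc] at h1
    exact List.one_le_count_iff.1 h1
  ct := by
    intro k hk
    rw [hc, hc, hc]
    exact h.ct k hk

/-! ### The letters of the words of a monomial -/

theorem mem_mulw {a b : List (List ℕ)} {w : List ℕ} :
    w ∈ Tr.mulw a b ↔ ∃ u ∈ a, ∃ v ∈ b, w = u ++ v := by
  unfold Tr.mulw
  rw [List.mem_flatMap]
  constructor
  · rintro ⟨u, hu, hw⟩
    obtain ⟨v, hv, rfl⟩ := List.mem_map.1 hw
    exact ⟨u, hu, v, hv, rfl⟩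
  · rintro ⟨u, hu, v, hv, rfl⟩
    exact ⟨u, hu, List.mem_map.2 ⟨v, hv, rfl⟩⟩

theorem pure_count {T : Tr} (h : T.pure = true) : ∀ w ∈ T.wd, ∀ x,
    w.count x = T.lts.count x := by
  induction T with
  | on =>
    intro w hw x
    simp [Tr.wd] at hw
    subst hw
    rfl
  | lf c =>
    intro w hw x
    simp [Tr.wd] at hw
    subst hw
    rfl
  | tw a b iha ihb =>
    obtain ⟨ha, hb⟩ := pure_tw h
    intro w hw x
    show _ = (a.lts ++ b.lts).count x
    rw [List.count_append]
    unfold Tr.wd at hw
    rcases List.mem_append.1 hw with hw | hw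
    · obtain ⟨u, hu, v, hv, rfl⟩ := mem_mulw.1 hw
      rw [List.count_append, iha ha u hu, ihb hb v hv]
    · obtain ⟨u, hu, v, hv, rfl⟩ := mem_mulw.1 hw
      rw [List.count_append, iha ha v hv, ihb hb u hu, add_comm]
  | tr a b c iha ihb ihc =>
    obtain ⟨ha, hb, hc⟩ := pure_tr h
    intro w hw x
    show _ = (a.lts ++ (b.lts ++ c.lts)).count x
    rw [List.count_append, List.count_append]
    unfold Tr.wd at hw
    rcases List.mem_append.1 hw with hw | hw
    · obtain ⟨u, hu, v', hv', rfl⟩ := mem_mulw.1 hw
      obtain ⟨v, hv, t, ht, rfl⟩ := mem_mulw.1 hv'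
      rw [List.count_append, List.count_append, iha ha u hu, ihb hb v hv, ihc hc t ht]
    · obtain ⟨u, hu, v', hv', rfl⟩ := mem_mulw.1 hw
      obtain ⟨v, hv, t, ht, rfl⟩ := mem_mulw.1 hv'
      rw [List.count_append, List.count_append, iha ha t ht, ihb hb v hv, ihc hc u hu]
      omega
  | dx k h' _ => cases h

theorem one_count {k : ℕ} {T : Tr} (h : T.one k = true) : ∀ w ∈ T.wd, ∀ x,
    w.count x = ((4 * k + 1) :: (4 * k + 2) :: (T.out ++ T.arg)).count x := by
  have e0 : ∀ (l : List ℕ) (x : ℕ), ((4 * k + 1) :: (4 * k + 2) :: l).count x =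
      [4 * k + 1, 4 * k + 2].count x + l.count x := by
    intro l x
    have : (4 * k + 1) :: (4 * k + 2) :: l = [4 * k + 1, 4 * k + 2] ++ l := rfl
    rw [this, List.count_append]
  induction T with
  | on => cases h
  | lf c => cases h
  | tw a b iha ihb =>
    intro w hw x
    rw [e0, List.count_append]
    show _ = _ + ((a.out ++ b.out).count x + (a.arg ++ b.arg).count x)
    rw [List.count_append, List.count_append]
    rcases one_tw h with ⟨ha, hb⟩ | ⟨_, hb, h1⟩
    · obtain ⟨a1, a2, _⟩ := pure_facts ha
      have hb' : ∀ w ∈ b.wd, ∀ x, w.count x = [4 * k + 1, 4 * k + 2].count x +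
          (b.out.count x + b.arg.count x) := fun w hw x => by
        rw [ihb hb w hw x, e0, List.count_append]
      rw [a1, a2, List.count_nil]
      unfold Tr.wd at hw
      rcases List.mem_append.1 hw with hw | hw
      · obtain ⟨u, hu, v, hv, rfl⟩ := mem_mulw.1 hw
        rw [List.count_append, pure_count ha u hu, hb' v hv]
        omega
      · obtain ⟨u, hu, v, hv, rfl⟩ := mem_mulw.1 hw
        rw [List.count_append, pure_count ha v hv, hb' u hu]
        omega
    · obtain ⟨b1, b2, _⟩ := pure_facts hb
      have ha' : ∀ w ∈ a.wd, ∀ x, w.count x = [4 * k + 1, 4 * k + 2].count x +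
          (a.out.count x + a.arg.count x) := fun w hw x => by
        rw [iha h1 w hw x, e0, List.count_append]
      rw [b1, b2, List.count_nil]
      unfold Tr.wd at hw
      rcases List.mem_append.1 hw with hw | hw
      · obtain ⟨u, hu, v, hv, rfl⟩ := mem_mulw.1 hw
        rw [List.count_append, pure_count hb v hv, ha' u hu]
        omega
      · obtain ⟨u, hu, v, hv, rfl⟩ := mem_mulw.1 hw
        rw [List.count_append, pure_count hb u hu, ha' v hv]
        omega
  | tr a b c iha ihb ihc =>
    intro w hw x
    rw [e0, List.count_append]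
    show _ = _ + ((a.out ++ (b.out ++ c.out)).count x + (a.arg ++ (b.arg ++ c.arg)).count x)
    rw [List.count_append, List.count_append, List.count_append, List.count_append]
    rcases one_tr h with ⟨ha, hb, hc⟩ | ⟨ha, _, hc, hb⟩ | ⟨_, hb, hc, ha⟩
    · obtain ⟨a1, a2, _⟩ := pure_facts ha
      obtain ⟨b1, b2, _⟩ := pure_facts hb
      have hc' : ∀ w ∈ c.wd, ∀ x, w.count x = [4 * k + 1, 4 * k + 2].count x +
          (c.out.count x + c.arg.count x) := fun w hw x => by
        rw [ihc hc w hw x, e0, List.count_append]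
      rw [a1, a2, b1, b2, List.count_nil]
      unfold Tr.wd at hw
      rcases List.mem_append.1 hw with hw | hw
      · obtain ⟨u, hu, v', hv', rfl⟩ := mem_mulw.1 hw
        obtain ⟨v, hv, t, ht, rfl⟩ := mem_mulw.1 hv'
        rw [List.count_append, List.count_append, pure_count ha u hu, pure_count hb v hv,
          hc' t ht]
        omega
      · obtain ⟨u, hu, v', hv', rfl⟩ := mem_mulw.1 hw
        obtain ⟨v, hv, t, ht, rfl⟩ := mem_mulw.1 hv'
        rw [List.count_append, List.count_append, pure_count ha t ht, pure_count hb v hv,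
          hc' u hu]
        omega
    · obtain ⟨a1, a2, _⟩ := pure_facts ha
      obtain ⟨c1, c2, _⟩ := pure_facts hc
      have hb' : ∀ w ∈ b.wd, ∀ x, w.count x = [4 * k + 1, 4 * k + 2].count x +
          (b.out.count x + b.arg.count x) := fun w hw x => by
        rw [ihb hb w hw x, e0, List.count_append]
      rw [a1, a2, c1, c2, List.count_nil]
      unfold Tr.wd at hw
      rcases List.mem_append.1 hw with hw | hw
      · obtain ⟨u, hu, v', hv', rfl⟩ := mem_mulw.1 hw
        obtain ⟨v, hv, t, ht, rfl⟩ := mem_mulw.1 hv'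
        rw [List.count_append, List.count_append, pure_count ha u hu, hb' v hv,
          pure_count hc t ht]
        omega
      · obtain ⟨u, hu, v', hv', rfl⟩ := mem_mulw.1 hw
        obtain ⟨v, hv, t, ht, rfl⟩ := mem_mulw.1 hv'
        rw [List.count_append, List.count_append, pure_count ha t ht, hb' v hv,
          pure_count hc u hu]
        omega
    · obtain ⟨b1, b2, _⟩ := pure_facts hb
      obtain ⟨c1, c2, _⟩ := pure_facts hc
      have ha' : ∀ w ∈ a.wd, ∀ x, w.count x = [4 * k + 1, 4 * k + 2].count x +
          (a.out.count x + a.arg.count x) := fun w hw x => by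
        rw [iha ha w hw x, e0, List.count_append]
      rw [b1, b2, c1, c2, List.count_nil]
      unfold Tr.wd at hw
      rcases List.mem_append.1 hw with hw | hw
      · obtain ⟨u, hu, v', hv', rfl⟩ := mem_mulw.1 hw
        obtain ⟨v, hv, t, ht, rfl⟩ := mem_mulw.1 hv'
        rw [List.count_append, List.count_append, ha' u hu, pure_count hb v hv,
          pure_count hc t ht]
        omega
      · obtain ⟨u, hu, v', hv', rfl⟩ := mem_mulw.1 hw
        obtain ⟨v, hv, t, ht, rfl⟩ := mem_mulw.1 hv'
        rw [List.count_append, List.count_append, ha' t ht, pure_count hb v hv,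
          pure_count hc u hu]
        omega
  | dx j h' _ =>
    unfold Tr.one at h
    cases hj : Nat.beq j k with
    | false =>
      rw [hj, cond_false] at h
      cases h
    | true =>
      rw [hj, cond_true] at h
      have e := Nat.eq_of_beq_eq_true hj
      subst e
      intro w hw x
      unfold Tr.wd at hw
      obtain ⟨u, hu, v', hv', rfl⟩ := mem_mulw.1 hw
      obtain ⟨v, hv, t, ht, rfl⟩ := mem_mulw.1 hv'
      simp at hu ht
      subst hu ht
      rw [e0]
      show _ = _ + ([] ++ h'.lts).count x
      rw [List.nil_append, List.count_append, List.count_append, pure_count h v hv]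
      have e1 : [4 * j + 1, 4 * j + 2].count x = [4 * j + 1].count x + [4 * j + 2].count x := by
        have : [4 * j + 1, 4 * j + 2] = [4 * j + 1] ++ [4 * j + 2] := rfl
        rw [this, List.count_append]
      rw [e1]
      omega

/-- the boundary of a monomial with one `dx` is pure -/
theorem bd_pure {k : ℕ} (u : List ℕ) (T : Tr) : (T.pure = true → (T.bd u).pure = true) ∧
    (T.one k = true → (T.bd u).pure = true) := by
  induction T with
  | on =>
    refine ⟨fun _ => rfl, fun h => ?_⟩
    cases h
  | lf c =>
    refine ⟨fun _ => rfl, fun h => ?_⟩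
    cases h
  | tw a b iha ihb =>
    have e : ∀ (ha : (a.bd u).pure = true) (hb : (b.bd u).pure = true),
        ((Tr.tw a b).bd u).pure = true := by
      intro ha hb
      show (bif (a.bd u).pure then (b.bd u).pure else false) = true
      rw [ha, cond_true, hb]
    constructor
    · intro h
      obtain ⟨ha, hb⟩ := pure_tw h
      exact e (iha.1 ha) (ihb.1 hb)
    · intro h
      rcases one_tw h with ⟨ha, hb⟩ | ⟨_, hb, h1⟩
      · exact e (iha.1 ha) (ihb.2 hb)
      · exact e (iha.2 h1) (ihb.1 hb)
  | tr a b c iha ihb ihc =>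
    have e : ∀ (ha : (a.bd u).pure = true) (hb : (b.bd u).pure = true)
        (hc : (c.bd u).pure = true), ((Tr.tr a b c).bd u).pure = true := by
      intro ha hb hc
      show (bif (a.bd u).pure then (bif (b.bd u).pure then (c.bd u).pure else false)
        else false) = true
      rw [ha, cond_true, hb, cond_true, hc]
    constructor
    · intro h
      obtain ⟨ha, hb, hc⟩ := pure_tr h
      exact e (iha.1 ha) (ihb.1 hb) (ihc.1 hc)
    · intro h
      rcases one_tr h with ⟨ha, hb, hc⟩ | ⟨ha, _, hc, hb⟩ | ⟨_, hb, hc, ha⟩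
      · exact e (iha.1 ha) (ihb.1 hb) (ihc.2 hc)
      · exact e (iha.1 ha) (ihb.2 hb) (ihc.1 hc)
      · exact e (iha.2 ha) (ihb.1 hb) (ihc.1 hc)
  | dx j h' _ =>
    refine ⟨fun h => ?_, fun _ => rfl⟩
    cases h

/-! ### Relabelling -/

/-- relabelling of a letter -/
def rl (g : Equiv.Perm (Fin 5)) (c : ℕ) : ℕ := (g ⟨c % 5, Nat.mod_lt _ (by norm_num)⟩ : Fin 5)

/-- relabelling of a strand letter -/
def rls (g : Equiv.Perm (Fin 5)) (c : ℕ) : ℕ := 4 * rl g (c / 4) + c % 4

theorem rl_lt (g : Equiv.Perm (Fin 5)) (c : ℕ) : rl g c < 5 := (g _).isLt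

theorem rl_rl (g h : Equiv.Perm (Fin 5)) (c : ℕ) : rl h (rl g c) = rl (h * g) c := by
  unfold rl
  have e : (⟨((g ⟨c % 5, Nat.mod_lt _ (by norm_num)⟩ : Fin 5) : ℕ) % 5,
      Nat.mod_lt _ (by norm_num)⟩ : Fin 5) = g ⟨c % 5, Nat.mod_lt _ (by norm_num)⟩ := by
    refine Fin.ext ?_
    show ((g ⟨c % 5, Nat.mod_lt _ (by norm_num)⟩ : Fin 5) : ℕ) % 5 = _
    exact Nat.mod_eq_of_lt (g _).isLt
  rw [e]
  rfl

theorem rl_inj {g : Equiv.Perm (Fin 5)} {a b : ℕ} (ha : a < 5) (hb : b < 5)
    (h : rl g a = rl g b) : a = b := by
  unfold rl at h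
  have h1 := g.injective (Fin.ext h)
  have h2 : a % 5 = b % 5 := congrArg Fin.val h1
  omega

section ev

variable {R : Type*} [Ring R] {n : ℕ}

theorem val_rls (X : Fin 5 → R) (g : Equiv.Perm (Fin 5)) (e : Fin 5 → Fin n) {c : ℕ}
    (hc : c < 20) : SP.val n X e (rls g c) = SP.val n (X ∘ g) (e ∘ g) c := by
  have h1 : ix (rls g c) = g (ix c) := by
    unfold ix rls
    refine Fin.ext ?_
    show (4 * rl g (c / 4) + c % 4) / 4 % 5 = (g ⟨c / 4 % 5, _⟩ : Fin 5)
    have h2 := rl_lt g (c / 4)
    have h3 : (4 * rl g (c / 4) + c % 4) / 4 % 5 = rl g (c / 4) := by omega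
    rw [h3]
    rfl
  have h4 : rls g c % 4 = c % 4 := by
    unfold rls
    omega
  unfold SP.val
  rw [h1, h4]
  rfl

theorem ev_rls (X : Fin 5 → R) (g : Equiv.Perm (Fin 5)) {w : List ℕ} (hw : ∀ c ∈ w, c < 20) :
    ev n X (w.map (rls g)) = ev n (X ∘ g) w := by
  unfold ev
  have e1 : ∀ e : Fin 5 → Fin n, pw n X e (w.map (rls g)) = pw n (X ∘ g) (e ∘ g) w := by
    intro e
    unfold pw
    rw [List.map_map]
    congr 1
    exact List.map_congr_left fun c hc => val_rls X g e (hw c hc)
  rw [sum_congr rfl (fun e _ => e1 e)]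
  exact Equiv.sum_comp (Equiv.arrowCongr g.symm (Equiv.refl (Fin n)))
    (fun e => pw n (X ∘ g) e w)

theorem mkw_rl (g : Equiv.Perm (Fin 5)) (u : List ℕ) : ∀ (s : List ℕ), (∀ k ∈ s, k < 5) →
    (∀ k ∈ u, k < 5) → mkw (fun _ => false) (s.map (rl g)) (u.map (rl g)) =
      (mkw (fun _ => false) s u).map (rls g) := by
  induction u with
  | nil => exact fun _ _ _ => rfl
  | cons k u ih =>
    intro s hs hu
    have hk := hu k (by simp)
    have hmem : ∀ l : List ℕ, (∀ j ∈ l, j < 5) → (rl g k ∈ l.map (rl g) ↔ k ∈ l) := by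
      intro l hl
      constructor
      · intro h
        obtain ⟨j, hj, e⟩ := List.mem_map.1 h
        rw [← rl_inj (hl j hj) hk e]
        exact hj
      · exact fun h => List.mem_map.2 ⟨k, h, rfl⟩
    have ih' := ih (k :: s) (by
      intro j hj
      rcases List.mem_cons.1 hj with rfl | hj
      · exact hk
      · exact hs j hj) (fun j hj => hu j (by simp [hj]))
    rw [List.map_cons] at ih'
    rw [List.map_cons]
    unfold mkw
    rw [List.map_cons, ih']
    congr 1
    have e : ∀ i, i < 4 → rls g (4 * k + i) = 4 * rl g k + i := by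
      intro i hi
      unfold rls
      have e1 : (4 * k + i) / 4 = k := by omega
      have e2 : (4 * k + i) % 4 = i := by omega
      rw [e1, e2]
    by_cases h1 : k ∈ s
    · rw [if_pos ((hmem s hs).2 h1), if_pos h1]
      simpa using (e 2 (by omega)).symm
    · rw [if_neg (fun h => h1 ((hmem s hs).1 h)), if_neg h1]
      have hu' : ∀ j ∈ u, j < 5 := fun j hj => hu j (by simp [hj])
      by_cases h2 : k ∈ u
      · rw [if_pos ((hmem u hu').2 h2), if_pos h2]
        simpa using (e 1 (by omega)).symm
      · rw [if_neg (fun h => h2 ((hmem u hu').1 h)), if_neg h2]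
        exact (e 3 (by omega)).symm

theorem mkw_lt (f : ℕ → Bool) (u : List ℕ) : ∀ (s : List ℕ), (∀ k ∈ u, k < 5) →
    ∀ c ∈ mkw f s u, c < 20 := by
  induction u with
  | nil =>
    intro s _ c hc
    cases hc
  | cons k u ih =>
    intro s hu c hc
    have hk := hu k (by simp)
    unfold mkw at hc
    rcases List.mem_cons.1 hc with rfl | hc
    · split_ifs <;> omega
    · exact ih (k :: s) (fun j hj => hu j (by simp [hj])) c hc

/-! From here on `φ` is an additive map which vanishes on `N`, for example the map to `R ⧸ N`. -/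

variable {M : Type*} [AddCommGroup M]

/-- the image of the value of a letter word -/
def E (n : ℕ) (φ : R →+ M) (X : Fin 5 → R) (u : List ℕ) : M := φ (ev n X (std u))

theorem E_rl (φ : R →+ M) (X : Fin 5 → R) (g : Equiv.Perm (Fin 5)) {u : List ℕ}
    (hu : ∀ k ∈ u, k < 5) : E n φ X (u.map (rl g)) = E n φ (X ∘ g) u := by
  unfold E
  congr 1
  have e : std (u.map (rl g)) = (std u).map (rls g) := mkw_rl g u [] (by simp) hu
  have hlt : ∀ c ∈ std u, c < 20 := mkw_lt _ u [] hu
  rw [e, ev_rls X g hlt]

/-- the image of the symmetrised value; `g i` runs through a group, with the character `χ` -/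
def F (n : ℕ) (φ : R →+ M) (X : Fin 5 → R) {ι : Type*} [Fintype ι]
    (g : ι → Equiv.Perm (Fin 5)) (χ : ι → ℤ) (u : List ℕ) : M :=
  ∑ i : ι, χ i • (E n φ X (u.map (rl (g i))) + E n φ X (u.map (rl (g i))).reverse)

variable {φ : R →+ M} {X : Fin 5 → R} {ι : Type*} [Fintype ι] {g : ι → Equiv.Perm (Fin 5)}
  {χ : ι → ℤ}

/-- (H1) -/
theorem F_rev (u : List ℕ) : F n φ X g χ u.reverse = F n φ X g χ u := by
  unfold F
  refine sum_congr rfl fun h _ => ?_
  rw [List.map_reverse, List.reverse_reverse, add_comm]

/-- (H2) -/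
theorem F_rl (s : Equiv.Perm (Fin 5)) (z : ℤ) (e : ι ≃ ι) (hg : ∀ i, g (e i) = g i * s)
    (hz : ∀ i, χ i = z * χ (e i)) (u : List ℕ) :
    F n φ X g χ (u.map (rl s)) = z • F n φ X g χ u := by
  unfold F
  rw [smul_sum, ← Equiv.sum_comp e (fun i : ι => z • χ i •
    (E n φ X (u.map (rl (g i))) + E n φ X (u.map (rl (g i))).reverse))]
  refine sum_congr rfl fun i _ => ?_
  have e1 : (u.map (rl s)).map (rl (g i)) = u.map (rl (g (e i))) := by
    rw [List.map_map]
    refine List.map_congr_left fun c _ => ?_
    show rl (g i) (rl s c) = _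
    rw [rl_rl, hg]
  rw [e1, ← mul_smul, ← hz]

/-- the sum of `F` over a list of words closed under reversal -/
theorem F_sum {L : List (List ℕ)}
    (hL : ∀ G : List ℕ → M, (L.map (fun u => G u.reverse)).sum = (L.map G).sum)
    (h5 : ∀ u ∈ L, ∀ k ∈ u, k < 5) :
    (L.map (F n φ X g χ)).sum =
      ∑ i : ι, (2 * χ i) • (L.map (E n φ (X ∘ (g i : Equiv.Perm (Fin 5))))).sum := by
  have e0 : ∀ (L : List (List ℕ)) (G : ι → List ℕ → M),
      (L.map (fun u => ∑ h : ι, G h u)).sum = ∑ h : ι, (L.map (G h)).sum := by
    intro L G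
    induction L with
    | nil => simp
    | cons a L ih =>
      rw [List.map_cons, List.sum_cons, ih, ← sum_add_distrib]
      refine sum_congr rfl fun h _ => ?_
      rw [List.map_cons, List.sum_cons]
  unfold F
  rw [e0]
  refine sum_congr rfl fun i _ => ?_
  have e1 : L.map (fun u => χ i • (E n φ X (u.map (rl (g i))) +
      E n φ X (u.map (rl (g i))).reverse)) =
      L.map (fun u => χ i • (E n φ (X ∘ (g i : Equiv.Perm (Fin 5))) u +
        E n φ (X ∘ (g i : Equiv.Perm (Fin 5))) u.reverse)) := by
    refine List.map_congr_left fun u hu => ?_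
    rw [E_rl φ X (g i) (h5 u hu), ← List.map_reverse, E_rl φ X (g i) (by
      intro k hk
      exact h5 u hu k (List.mem_reverse.1 hk))]
  rw [e1]
  have e2 : ∀ (L : List (List ℕ)) (z : ℤ) (G G' : List ℕ → M),
      (L.map (fun u => z • (G u + G' u))).sum = z • ((L.map G).sum + (L.map G').sum) := by
    intro L z G G'
    induction L with
    | nil => simp
    | cons a L ih =>
      rw [List.map_cons, List.sum_cons, ih, List.map_cons, List.sum_cons, List.map_cons,
        List.sum_cons, ← smul_add]
      congr 1
      abel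
  rw [e2]
  have e3 : (L.map (fun u => E n φ (X ∘ (g i : Equiv.Perm (Fin 5))) u.reverse)).sum =
      (L.map (E n φ (X ∘ (g i : Equiv.Perm (Fin 5))))).sum := hL _
  rw [e3, mul_comm, mul_smul, two_smul]

theorem E_wd (X : Fin 5 → R) {T : Tr} (hT : ∀ w ∈ T.wd, PStd w) :
    (T.lw.map (E n φ X)).sum = φ (T.wd.map (ev n X)).sum := by
  rw [← Tr.lw_eq, List.map_map]
  have e : T.wd.map (E n φ X ∘ List.map (fun c => c / 4)) = (T.wd.map (ev n X)).map φ := by
    rw [List.map_map]
    refine List.map_congr_left fun w hw => ?_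
    show φ (ev n X (std (w.map (· / 4)))) = φ (ev n X w)
    rw [← ev_std X (hT w hw)]
  rw [e, ← map_list_sum]

theorem lt5 {T : Tr} (hT : ∀ w ∈ T.wd, PStd w) : ∀ u ∈ T.lw, ∀ k ∈ u, k < 5 := by
  intro u hu k hk
  rw [← Tr.lw_eq] at hu
  obtain ⟨w, hw, rfl⟩ := List.mem_map.1 hu
  obtain ⟨c, hc, rfl⟩ := List.mem_map.1 hk
  have := ((hT w hw).lt c hc).1
  omega

variable {J N : AddSubgroup R}

/-- (H3), without boundary term -/
theorem F_tree0 (h : BData n J N) (hn : 2 ≤ n) (hφ : ∀ x ∈ N, φ x = 0) (hX : ∀ k, X k ∈ J)
    (T : Tr) {k : ℕ} (hk : k < 5)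
    (h1 : T.one k = true) (ho : okw k T.out = true) (ha : okw k T.arg = true)
    (hp : pstd ((4 * k + 1) :: (4 * k + 2) :: (T.out ++ T.arg)) = true)
    (hb : ∃ c ∈ T.arg, c % 4 = 3 ∨ (c % 4 = 1 ∧ c + 1 ∈ T.arg)) :
    (T.lw.map (F n φ X g χ)).sum = 0 := by
  have hw : ∀ w ∈ T.wd, PStd w := fun w hw => (pstd_iff hp).of_count (one_count h1 w hw)
  rw [F_sum (fun G => lw_rev G T) (lt5 hw)]
  refine sum_eq_zero fun i _ => ?_
  rw [E_wd _ hw]
  have k1 := bsound0 h hn (X := X ∘ (g i : Equiv.Perm (Fin 5))) (fun k => hX _) T hk h1 ho ha hb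
  rw [hφ _ k1, smul_zero]

/-- (H3), with boundary term -/
theorem F_tree1 (h : BData n J N) (hn : 2 ≤ n) (hφ : ∀ x ∈ N, φ x = 0) (hX : ∀ k, X k ∈ J)
    (T : Tr) {k : ℕ} (hk : k < 5)
    (h1 : T.one k = true) (ho : okw k T.out = true) (ha : okw k T.arg = true)
    (hp : pstd ((4 * k + 1) :: (4 * k + 2) :: (T.out ++ T.arg)) = true)
    (hq : pstd (T.bd T.arg).lts = true)
    (hb : ∀ c ∈ T.arg, c % 4 = 1 ∧ c + 1 ∈ T.out) :
    (T.lw.map (F n φ X g χ)).sum =
      (T.asz * n) • ((T.bd T.arg).lw.map (F n φ X g χ)).sum := by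
  have hw : ∀ w ∈ T.wd, PStd w := fun w hw => (pstd_iff hp).of_count (one_count h1 w hw)
  have hw' : ∀ w ∈ (T.bd T.arg).wd, PStd w := fun w hw =>
    (pstd_iff hq).of_count (pure_count ((bd_pure T.arg T).2 h1) w hw)
  rw [F_sum (fun G => lw_rev G T) (lt5 hw), F_sum (fun G => lw_rev G _) (lt5 hw'), smul_sum]
  refine sum_congr rfl fun i _ => ?_
  rw [E_wd _ hw, E_wd _ hw', smul_comm]
  congr 1
  have k1 := bsound1 h hn (X := X ∘ (g i : Equiv.Perm (Fin 5))) (fun k => hX _) T hk h1 ho ha hb
  have k2 := hφ _ k1
  rw [map_sub, sub_eq_zero] at k2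
  rw [k2, map_zsmul]

end ev

end Pool.Agent.H.MP_e16c79_al.IS
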