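import Pool.Agent.H.MP_e16c79_al.IS.BSem
import Pool.Agent.H.MP_e16c79_al.IS.BLet

/-!
# MP_e16c79_al: codes of letter words, and the numerical checker applied to a group
-/

set_option autoImplicit false

namespace Pool.Agent.H.MP_e16c79_al.IS

open Finset SP

/-! ### Codes -/

/-- the code of a letter word after `r` -/
def encr (r : ℕ) (u : List ℕ) : ℕ := u.foldl (fun r c => r * 8 + (c + 1)) r

/-- the code of a letter word -/
def enc8 (u : List ℕ) : ℕ := u.foldl (fun r c => r * 8 + (c + 1)) 0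

theorem encr_append (r : ℕ) (u v : List ℕ) : encr r (u ++ v) = encr (encr r u) v := by
  unfold encr
  rw [List.foldl_append]

theorem encr_eq (u : List ℕ) : ∀ r, encr r u = r * 8 ^ u.length + enc8 u := by
  induction u with
  | nil =>
    intro r
    show r = r * 8 ^ 0 + 0
    rw [pow_zero, mul_one, add_zero]
  | cons c u ih =>
    intro r
    have e1 : encr r (c :: u) = encr (r * 8 + (c + 1)) u := rfl
    have e2 : enc8 (c :: u) = encr (0 * 8 + (c + 1)) u := rfl
    rw [e1, e2, ih, ih, List.length_cons, pow_succ]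
    ring

theorem enc8_append (u v : List ℕ) : enc8 (u ++ v) = enc8 u * 8 ^ v.length + enc8 v := by
  have e := encr_append 0 u v
  rw [encr_eq v] at e
  exact e

theorem enc8_snoc (u : List ℕ) (c : ℕ) : enc8 (u ++ [c]) = enc8 u * 8 + (c + 1) := by
  unfold enc8
  rw [List.foldl_append]
  rfl

theorem mgc_eq (y : ℕ) (b r : List ℕ) : mgc y b r = b.map (fun z => y + z) ++ r := by
  induction b with
  | nil => rfl
  | cons z b ih =>
    unfold mgc
    rw [ih]
    rfl

theorem mulc_eq (w : ℕ) (b a r : List ℕ) :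
    mulc w b a r = a.flatMap (fun x => b.map (fun z => x * w + z)) ++ r := by
  induction a with
  | nil => rfl
  | cons x a ih =>
    unfold mulc
    rw [ih, mgc_eq, List.flatMap_cons, List.append_assoc]

theorem mulc_enc {A B : List (List ℕ)} {l : ℕ} (hB : ∀ v ∈ B, v.length = l) (r : List ℕ) :
    mulc (8 ^ l) (B.map enc8) (A.map enc8) r = (Tr.mulw A B).map enc8 ++ r := by
  rw [mulc_eq]
  congr 1
  unfold Tr.mulw
  rw [List.map_flatMap, List.flatMap_map]
  refine List.flatMap_congr fun u _ => ?_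
  rw [List.map_map, List.map_map]
  refine List.map_congr_left fun v hv => ?_
  show enc8 u * 8 ^ l + enc8 v = enc8 (u ++ v)
  rw [enc8_append, hB v hv]

/-- the length of the words -/
def Tr.len : Tr → ℕ
  | .on => 0
  | .lf _ => 1
  | .tw a b => a.len + b.len
  | .tr a b c => a.len + (b.len + c.len)
  | .dx _ h => h.len + 2

theorem wt_eq (T : Tr) : wt T = 8 ^ T.len := by
  induction T with
  | on => rfl
  | lf c => rfl
  | tw a b iha ihb =>
    unfold wt Tr.len
    rw [iha, ihb, pow_add]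
  | tr a b c iha ihb ihc =>
    unfold wt Tr.len
    rw [iha, ihb, ihc, pow_add, pow_add]
  | dx k h ih =>
    unfold wt Tr.len
    rw [ih, pow_add]
    ring

theorem mulw_len {A B : List (List ℕ)} {a b : ℕ} (hA : ∀ u ∈ A, u.length = a)
    (hB : ∀ v ∈ B, v.length = b) : ∀ w ∈ Tr.mulw A B, w.length = a + b := by
  intro w hw
  obtain ⟨u, hu, v, hv, rfl⟩ := mem_mulw.1 hw
  rw [List.length_append, hA u hu, hB v hv]

theorem sing_len (k : ℕ) : ∀ u ∈ ([[k]] : List (List ℕ)), u.length = 1 := by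
  intro u hu
  rw [List.mem_singleton] at hu
  rw [hu]
  rfl

theorem lw_len (T : Tr) : ∀ u ∈ T.lw, u.length = T.len := by
  induction T with
  | on =>
    intro u hu
    have : u = [] := by simpa [Tr.lw] using hu
    rw [this]
    rfl
  | lf c => exact sing_len _
  | tw a b iha ihb =>
    intro u hu
    unfold Tr.lw at hu
    unfold Tr.len
    rcases List.mem_append.1 hu with hu | hu
    · exact mulw_len iha ihb u hu
    · rw [add_comm]
      exact mulw_len ihb iha u hu
  | tr a b c iha ihb ihc =>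
    intro u hu
    unfold Tr.lw at hu
    unfold Tr.len
    rcases List.mem_append.1 hu with hu | hu
    · exact mulw_len iha (mulw_len ihb ihc) u hu
    · have := mulw_len ihc (mulw_len ihb iha) u hu
      omega
  | dx k h ih =>
    intro u hu
    unfold Tr.lw at hu
    unfold Tr.len
    have := mulw_len (sing_len k) (mulw_len ih (sing_len k)) u hu
    omega

theorem hw_sub (T : Tr) : ∀ u ∈ T.hw, u ∈ T.lw := by
  induction T with
  | on =>
    intro u hu
    cases hu
  | lf c =>
    intro u hu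
    cases hu
  | tw a b iha ihb =>
    intro u hu
    exact List.mem_append_left _ hu
  | tr a b c iha ihb ihc =>
    intro u hu
    exact List.mem_append_left _ hu
  | dx k h ih =>
    intro u hu
    unfold Tr.hw at hu
    unfold Tr.lw
    obtain ⟨u1, h1, u2, h2, rfl⟩ := mem_mulw.1 hu
    obtain ⟨u3, h3, u4, h4, rfl⟩ := mem_mulw.1 h2
    exact mem_mulw.2 ⟨u1, h1, _, mem_mulw.2 ⟨u3, ih u3 h3, u4, h4, rfl⟩, rfl⟩

theorem cd_eq (T : Tr) : cd T = T.lw.map enc8 := by
  induction T with
  | on => rfl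
  | lf c =>
    show [c / 4 + 1] = [0 * 8 + (c / 4 + 1)]
    rw [zero_mul, zero_add]
  | tw a b iha ihb =>
    unfold cd Tr.lw
    rw [iha, ihb, wt_eq, wt_eq, mulc_enc (lw_len a), mulc_enc (lw_len b), List.append_nil,
      List.map_append]
  | tr a b c iha ihb ihc =>
    unfold cd Tr.lw
    rw [iha, ihb, ihc, wt_eq, wt_eq, wt_eq, mulc_enc (lw_len a), mulc_enc (lw_len c),
      List.append_nil, List.append_nil, ← pow_add, ← pow_add,
      mulc_enc (mulw_len (lw_len b) (lw_len c)), mulc_enc (mulw_len (lw_len b) (lw_len a)),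
      List.append_nil, List.map_append]
  | dx k h ih =>
    unfold cd Tr.lw
    have e1 : [k + 1] = [[k]].map enc8 := by
      show [k + 1] = [0 * 8 + (k + 1)]
      rw [zero_mul, zero_add]
    have e2 : (8 : ℕ) = 8 ^ 1 := rfl
    rw [e1, ih, wt_eq]
    have e3 : mulc 8 ([[k]].map enc8) (h.lw.map enc8) [] =
        (Tr.mulw h.lw [[k]]).map enc8 := by
      have := mulc_enc (A := h.lw) (sing_len k) []
      rwa [List.append_nil] at this
    rw [e3, ← pow_succ, mulc_enc (mulw_len (lw_len h) (sing_len k)), List.append_nil]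

theorem hw_len (T : Tr) : ∀ u ∈ T.hw, u.length = T.len := fun u hu => lw_len T u (hw_sub T u hu)

theorem hcd_eq (T : Tr) : hcd T = T.hw.map enc8 := by
  induction T with
  | on => rfl
  | lf c => rfl
  | tw a b iha ihb =>
    unfold hcd Tr.hw
    rw [cd_eq, cd_eq, wt_eq, mulc_enc (lw_len b), List.append_nil]
  | tr a b c iha ihb ihc =>
    unfold hcd Tr.hw
    rw [cd_eq, cd_eq, cd_eq, wt_eq, wt_eq, mulc_enc (lw_len c), List.append_nil, ← pow_add,
      mulc_enc (mulw_len (lw_len b) (lw_len c)), List.append_nil]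
  | dx k h ih =>
    unfold hcd Tr.hw
    have e1 : [k + 1] = [[k]].map enc8 := by
      show [k + 1] = [0 * 8 + (k + 1)]
      rw [zero_mul, zero_add]
    rw [e1, ih, wt_eq]
    have e3 : mulc 8 ([[k]].map enc8) (h.hw.map enc8) [] =
        (Tr.mulw h.hw [[k]]).map enc8 := by
      have := mulc_enc (A := h.hw) (sing_len k) []
      rwa [List.append_nil] at this
    rw [e3, ← pow_succ, mulc_enc (mulw_len (hw_len h) (sing_len k)), List.append_nil]

/-- decoding -/
def dcr : ℕ → ℕ → List ℕ → List ℕ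
  | 0, _, r => r
  | f + 1, N, r => bif Nat.beq N 0 then r else dcr f (N / 8) ((N % 8 - 1) :: r)

/-- decoding words of length at most 10 -/
def dec8 (N : ℕ) : List ℕ := dcr 10 N []

theorem dcr_enc (u : List ℕ) (hu : ∀ c ∈ u, c < 7) : ∀ (f : ℕ) (r : List ℕ), u.length ≤ f →
    dcr f (enc8 u) r = u ++ r := by
  induction u using List.reverseRecOn with
  | nil =>
    intro f r _
    cases f with
    | zero => rfl
    | succ f => rfl
  | append_singleton u c ih =>
    intro f r hf
    rw [List.length_append, List.length_singleton] at hf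
    obtain ⟨f', rfl⟩ : ∃ f', f = f' + 1 := ⟨f - 1, by omega⟩
    have hc := hu c (by simp)
    unfold dcr
    rw [enc8_snoc, beq_f (by omega), cond_false]
    have e1 : (enc8 u * 8 + (c + 1)) / 8 = enc8 u := by omega
    have e2 : (enc8 u * 8 + (c + 1)) % 8 - 1 = c := by omega
    rw [e1, e2, ih (fun c hc => hu c (by simp [hc])) f' (c :: r) (by omega), List.append_assoc]
    rfl

theorem dec8_enc8 {u : List ℕ} (hu : ∀ c ∈ u, c < 7) (hl : u.length ≤ 10) :
    dec8 (enc8 u) = u := by
  unfold dec8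
  rw [dcr_enc u hu 10 [] hl, List.append_nil]

/-! ### The action -/

/-- `p` codes the permutation `s` -/
def Okp (p : ℕ) (s : Equiv.Perm (Fin 5)) : Prop :=
  p % 8 = 0 ∧ ∀ d < 5, p / 8 ^ (d + 1) % 8 = rl s d + 1

theorem rlc_zero {p : ℕ} (hp : p % 8 = 0) (f : ℕ) : rlc p f 0 = 0 := by
  induction f with
  | zero => rfl
  | succ f ih =>
    unfold rlc
    have e : p / 8 ^ (0 % 8) % 8 = 0 := by
      rw [Nat.zero_mod, pow_zero, Nat.div_one]
      exact hp
    rw [e, Nat.zero_div, ih]

theorem rlc_enc {p : ℕ} {s : Equiv.Perm (Fin 5)} (hp : Okp p s) (u : List ℕ)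
    (hu : ∀ c ∈ u, c < 5) : ∀ f, u.length ≤ f → rlc p f (enc8 u) = enc8 (u.map (rl s)) := by
  induction u using List.reverseRecOn with
  | nil =>
    intro f _
    exact rlc_zero hp.1 f
  | append_singleton u c ih =>
    intro f hf
    rw [List.length_append, List.length_singleton] at hf
    obtain ⟨f', rfl⟩ : ∃ f', f = f' + 1 := ⟨f - 1, by omega⟩
    have hc := hu c (by simp)
    unfold rlc
    rw [enc8_snoc, List.map_append, List.map_singleton, enc8_snoc]
    have e1 : (enc8 u * 8 + (c + 1)) / 8 = enc8 u := by omega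
    have e2 : (enc8 u * 8 + (c + 1)) % 8 = c + 1 := by omega
    rw [e1, e2, ih (fun c hc => hu c (by simp [hc])) f' (by omega), hp.2 c hc]

theorem rrc_enc {p : ℕ} {s : Equiv.Perm (Fin 5)} (hp : Okp p s) (u : List ℕ)
    (hu : ∀ c ∈ u, c < 5) : ∀ f r, u.length ≤ f →
      rrc p f (enc8 u) r = encr r (u.map (rl s)).reverse := by
  induction u using List.reverseRecOn with
  | nil =>
    intro f r _
    cases f with
    | zero => rfl
    | succ f => rfl
  | append_singleton u c ih =>
    intro f r hf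
    rw [List.length_append, List.length_singleton] at hf
    obtain ⟨f', rfl⟩ : ∃ f', f = f' + 1 := ⟨f - 1, by omega⟩
    have hc := hu c (by simp)
    unfold rrc
    rw [enc8_snoc, beq_f (by omega), cond_false]
    have e1 : (enc8 u * 8 + (c + 1)) / 8 = enc8 u := by omega
    have e2 : (enc8 u * 8 + (c + 1)) % 8 = c + 1 := by omega
    rw [e1, e2, hp.2 c hc, ih (fun c hc => hu c (by simp [hc])) f' _ (by omega),
      List.map_append, List.reverse_append]
    rfl

/-! ### The table and the relations -/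

variable {R : Type*} [Ring R] {n : ℕ} {M : Type*} [AddCommGroup M] {φ : R →+ M} {X : Fin 5 → R}
  {ι : Type*} [Fintype ι] {g : ι → Equiv.Perm (Fin 5)} {χ : ι → ℤ}

/-- the first `m` entries of the table are elements of the group, with the correct sign -/
def Tab (tb m : ℕ) (g : ι → Equiv.Perm (Fin 5)) (χ : ι → ℤ) : Prop :=
  ∀ i < m, ∃ s : Equiv.Perm (Fin 5), Okp (ent tb i) s ∧ ∃ e : ι ≃ ι, (∀ j, g (e j) = g j * s) ∧
    ∀ j, χ j = (if Nat.beq (ent tb i / 262144) 1 = true then (-1 : ℤ) else 1) * χ (e j)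

theorem exE (hg : Function.Injective g) {s : Equiv.Perm (Fin 5)} {z : ℤ}
    (h : ∀ j, ∃ l, g l = g j * s ∧ χ j = z * χ l) :
    ∃ e : ι ≃ ι, (∀ j, g (e j) = g j * s) ∧ ∀ j, χ j = z * χ (e j) := by
  choose f hf using h
  have inj : Function.Injective f := fun a b hab =>
    hg (mul_right_cancel ((hf a).1.symm.trans ((congrArg g hab).trans (hf b).1)))
  exact ⟨Equiv.ofBijective f (Finite.injective_iff_bijective.1 inj), fun j => (hf j).1,
    fun j => (hf j).2⟩

theorem Tab.act {tb m : ℕ} (h : Tab tb m g χ) {c : ℕ} (hc : c / 2 < m) {u : List ℕ}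
    (hu : ∀ k ∈ u, k < 5) (hl : u.length ≤ 10) :
    F n φ X g χ (dec8 (actc tb c (enc8 u))) =
      (if ngc tb c = true then (-1 : ℤ) else 1) • F n φ X g χ (dec8 (enc8 u)) := by
  obtain ⟨s, hs, e, he1, he2⟩ := h _ hc
  have hu' : ∀ k ∈ u.map (rl s), k < 7 := by
    intro k hk
    obtain ⟨j, -, rfl⟩ := List.mem_map.1 hk
    have := rl_lt s j
    omega
  have hl' : (u.map (rl s)).length ≤ 10 := by rwa [List.length_map]
  rw [dec8_enc8 (fun k hk => by have := hu k hk; omega) hl]
  have key : F n φ X g χ (u.map (rl s)) =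
      (if ngc tb c = true then (-1 : ℤ) else 1) • F n φ X g χ u := F_rl s _ e he1 he2 u
  unfold actc
  by_cases h2 : c % 2 = 0
  · rw [h2, beq_t, cond_true, rlc_enc hs u hu 10 hl, dec8_enc8 hu' hl', key]
  · rw [beq_f h2, cond_false, rrc_enc hs u hu 10 0 hl]
    have e1 : encr 0 (u.map (rl s)).reverse = enc8 (u.map (rl s)).reverse := rfl
    rw [e1, dec8_enc8 (fun k hk => hu' k (List.mem_reverse.1 hk)) (by
      rwa [List.length_reverse]), F_rev, key]

/-- a relation is correct -/
def rok (tb m : ℕ) (r : Re) : Bool :=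
  bif Nat.blt r.k 5 then (bif r.t.one r.k then (bif okw r.k r.t.out then (bif okw r.k r.t.arg then
    (bif pstd ((4 * r.k + 1) :: (4 * r.k + 2) :: (r.t.out ++ r.t.arg)) then (bif r.t.top then
      (bif Nat.ble r.t.len 10 then (bif okg tb m (hcd r.t) r.g then
        (bif hasB r.t then (bif pstd (r.t.bd r.t.arg).lts then (bif (r.t.bd r.t.arg).top then
          (bif Nat.ble (r.t.bd r.t.arg).len 10 then okg tb m (hcd (r.t.bd r.t.arg)) r.b else false)
            else false) else false)
        else noBd r.t) else false) else false) else false) else false) else false) else false)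
    else false) else false

theorem bif_and {a b : Bool} (h : (bif a then b else false) = true) : a = true ∧ b = true := by
  cases a with
  | true => exact ⟨rfl, h⟩
  | false => cases h

theorem hasB_iff {t : Tr} (h : hasB t = true) : ∀ c ∈ t.arg, c % 4 = 1 ∧ c + 1 ∈ t.out := by
  intro c hc
  have h1 := al_iff.1 h c hc
  obtain ⟨h2, h3⟩ := bif_and h1
  exact ⟨Nat.eq_of_beq_eq_true h2, mb_iff.1 h3⟩

theorem al_false {f : ℕ → Bool} {l : List ℕ} (h : al f l = false) : ∃ c ∈ l, f c = false := by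
  by_contra hh
  push_neg at hh
  have : al f l = true := al_iff.2 fun c hc => by
    have := hh c hc
    cases h' : f c with
    | true => rfl
    | false => exact absurd h' this
  rw [this] at h
  cases h

theorem noBd_iff {t : Tr} (h : noBd t = true) :
    ∃ c ∈ t.arg, c % 4 = 3 ∨ (c % 4 = 1 ∧ c + 1 ∈ t.arg) := by
  unfold noBd at h
  have h1 : al (fun c => bif Nat.beq (c % 4) 3 then false else
    (bif Nat.beq (c % 4) 1 then (bif mb (c + 1) t.arg then false else true) else true)) t.arg =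
      false := by
    cases h' : al (fun c => bif Nat.beq (c % 4) 3 then false else
      (bif Nat.beq (c % 4) 1 then (bif mb (c + 1) t.arg then false else true) else true)) t.arg with
    | true =>
      rw [h'] at h
      cases h
    | false => rfl
  obtain ⟨c, hc, h2⟩ := al_false h1
  refine ⟨c, hc, ?_⟩
  by_cases h3 : c % 4 = 3
  · exact Or.inl h3
  right
  rw [beq_f h3, cond_false] at h2
  by_cases h4 : c % 4 = 1
  · refine ⟨h4, ?_⟩
    rw [h4, beq_t, cond_true] at h2
    cases h5 : mb (c + 1) t.arg with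
    | true => exact mb_iff.1 h5
    | false =>
      rw [h5, cond_false] at h2
      cases h2
  · rw [beq_f h4, cond_false] at h2
    cases h2

theorem hsum {T : Tr} (h5 : ∀ u ∈ T.lw, ∀ k ∈ u, k < 5) (hl : T.len ≤ 10) :
    ((hcd T).map (fun N => F n φ X g χ (dec8 N))).sum = (T.hw.map (F n φ X g χ)).sum := by
  rw [hcd_eq, List.map_map]
  congr 1
  refine List.map_congr_left fun u hu => ?_
  have h1 := hw_sub T u hu
  show F n φ X g χ (dec8 (enc8 u)) = F n φ X g χ u
  rw [dec8_enc8 (fun k hk => by have := h5 u h1 k hk; omega) (by rw [lw_len T u h1]; exact hl)]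

variable {J N : AddSubgroup R}

theorem rok_sound (h : BData n J N) (hn : 2 ≤ n) (hφ : ∀ x ∈ N, φ x = 0) (hX : ∀ k, X k ∈ J)
    (htf : ∀ x : M, (2 : ℤ) • x = 0 → x = 0) {tb m : ℕ} (tab : Tab tb m g χ) {r : Re}
    (hr : rok tb m r = true) :
    asem (n : ℤ) (fun N => F n φ X g χ (dec8 N)) (rval tb r) = 0 := by
  unfold rok at hr
  obtain ⟨h1, hr⟩ := bif_and hr
  obtain ⟨h2, hr⟩ := bif_and hr
  obtain ⟨h3, hr⟩ := bif_and hr
  obtain ⟨h4, hr⟩ := bif_and hr
  obtain ⟨h5, hr⟩ := bif_and hr
  obtain ⟨h6, hr⟩ := bif_and hr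
  obtain ⟨h7, hr⟩ := bif_and hr
  obtain ⟨h8, hr⟩ := bif_and hr
  have hk : r.k < 5 := Nat.le_of_ble_eq_true h1
  have hl : r.t.len ≤ 10 := Nat.le_of_ble_eq_true h7
  have hw : ∀ w ∈ r.t.wd, PStd w := fun w hw => (pstd_iff h5).of_count (one_count h2 w hw)
  have hact : ∀ T : Tr, (∀ u ∈ T.lw, ∀ k ∈ u, k < 5) → T.len ≤ 10 → ∀ N ∈ hcd T, ∀ c, c / 2 < m →
      F n φ X g χ (dec8 (actc tb c N)) =
        (if ngc tb c = true then (-1 : ℤ) else 1) • F n φ X g χ (dec8 N) := by
    intro T hT hTl N hN c hc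
    rw [hcd_eq] at hN
    obtain ⟨u, hu, rfl⟩ := List.mem_map.1 hN
    have hu' := hw_sub T u hu
    exact tab.act hc (hT u hu') (by rw [lw_len T u hu']; exact hTl)
  have hrev : ∀ u, F n φ X g χ u.reverse = F n φ X g χ u := F_rev
  refine asem_rval htf h8 (hact r.t (lt5 hw) hl) ?_ ?_
  · intro hb
    rw [hb, cond_false] at hr
    rw [hsum (lt5 hw) hl]
    refine htf _ ?_
    have e1 := hw_sum r.t h6 (F n φ X g χ) hrev
    have e2 := F_tree0 (n := n) (φ := φ) (X := X) (g := g) (χ := χ) h hn hφ hX r.t hk h2 h3 h4 h5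
      (noBd_iff hr)
    rw [e2] at e1
    rw [two_smul]
    rw [two_nsmul] at e1
    exact e1.symm
  · intro hb
    rw [hb, cond_true] at hr
    obtain ⟨h9, hr⟩ := bif_and hr
    obtain ⟨h10, hr⟩ := bif_and hr
    obtain ⟨h11, hr⟩ := bif_and hr
    have hl' : (r.t.bd r.t.arg).len ≤ 10 := Nat.le_of_ble_eq_true h11
    have hw' : ∀ w ∈ (r.t.bd r.t.arg).wd, PStd w := fun w hw =>
      (pstd_iff h9).of_count (pure_count ((bd_pure r.t.arg r.t).2 h2) w hw)
    refine ⟨hr, hact _ (lt5 hw') hl', ?_⟩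
    rw [hsum (lt5 hw) hl, hsum (lt5 hw') hl', ← sub_eq_zero]
    refine htf _ ?_
    have e1 := hw_sum r.t h6 (F n φ X g χ) hrev
    have e2 := F_tree1 (n := n) (φ := φ) (X := X) (g := g) (χ := χ) h hn hφ hX r.t hk h2 h3 h4 h5
      h9 (hasB_iff hb)
    have e3 := hw_sum (r.t.bd r.t.arg) h10 (F n φ X g χ) hrev
    rw [e1, e3, two_nsmul, two_nsmul, smul_add] at e2
    rw [smul_sub, two_smul, two_smul, e2, sub_self]

/-- The certificate is correct. -/
theorem cert_sound (h : BData n J N) (hn : 2 ≤ n) (hφ : ∀ x ∈ N, φ x = 0) (hX : ∀ k, X k ∈ J)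
    (htf : ∀ x : M, (2 : ℤ) • x = 0 → x = 0) {tb m : ℕ} (tab : Tab tb m g χ) (T : RT)
    (hT : T.all (rok tb m) = true) (tgt : List (ℕ × List ℤ))
    (ht : aeq (fz (sumT tb T)) tgt = true) :
    (tgt.map (fun p => pev (n : ℤ) p.2 • F n φ X g χ (dec8 p.1))).sum = 0 :=
  check_sound (F := fun N => F n φ X g χ (dec8 N))
    (fun _ hr => rok_sound h hn hφ hX htf tab hr) T hT tgt ht

end Pool.Agent.H.MP_e16c79_al.IS
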