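import Pool.Agent.H.MP_e16c79_al.SP.Check

/-!
# MP_e16c79_al: relations between words with Jordan contexts (definitions)
-/

set_option autoImplicit false

namespace Pool.Agent.H.MP_e16c79_al.IS

open Finset SP

/-- The data: `N ≤ J` are groups of elements of the ring `R`, saturated for `2 n!`, `J` is closed
under `x y + y x`, `N` is an ideal of `J` for this product, `x ^ n ∈ N` for `x ∈ J`. -/
structure BData {R : Type*} [Ring R] (n : ℕ) (J N : AddSubgroup R) : Prop where
  le : N ≤ J
  jj : ∀ x ∈ J, ∀ y ∈ J, x * y + y * x ∈ J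
  jn : ∀ x ∈ J, ∀ y ∈ N, x * y + y * x ∈ N
  nil : ∀ x ∈ J, x ^ n ∈ N
  sj : ∀ r : R, ((2 * n.factorial : ℕ) : ℤ) • r ∈ J → r ∈ J
  sn : ∀ r : R, ((2 * n.factorial : ℕ) : ℤ) • r ∈ N → r ∈ N

/-- Jordan monomials in letters; `dx k h` is `D_k(h)`, the sum of the `x_k ^ i h x_k ^ (n-1-i)`.
The letters `4 k + 1`, `4 k + 2`, `4 k + 3` are the two powers of `x_k` and the block. -/
inductive Tr : Type
  | on : Tr
  | lf : ℕ → Tr
  | tw : Tr → Tr → Tr
  | tr : Tr → Tr → Tr → Tr
  | dx : ℕ → Tr → Tr

namespace Tr

/-- products of words -/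
def mulw (a b : List (List ℕ)) : List (List ℕ) := a.flatMap (fun u => b.map (fun v => u ++ v))

/-- the words of a monomial -/
def wd : Tr → List (List ℕ)
  | on => [[]]
  | lf c => [[c]]
  | tw a b => mulw a.wd b.wd ++ mulw b.wd a.wd
  | tr a b c => mulw a.wd (mulw b.wd c.wd) ++ mulw c.wd (mulw b.wd a.wd)
  | dx k h => mulw [[4 * k + 1]] (mulw h.wd [[4 * k + 2]])

/-- the letters of a monomial without `dx` -/
def lts : Tr → List ℕ
  | on => []
  | lf c => [c]
  | tw a b => a.lts ++ b.lts
  | tr a b c => a.lts ++ (b.lts ++ c.lts)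
  | dx _ h => h.lts

/-- no `dx` -/
def pure : Tr → Bool
  | on => true
  | lf _ => true
  | tw a b => bif a.pure then b.pure else false
  | tr a b c => bif a.pure then (bif b.pure then c.pure else false) else false
  | dx _ _ => false

/-- the number of words of a monomial without `dx` -/
def sz : Tr → ℤ
  | on => 1
  | lf _ => 1
  | tw a b => 2 * a.sz * b.sz
  | tr a b c => 2 * a.sz * b.sz * c.sz
  | dx _ h => h.sz

/-- exactly one `dx`, `dx k h` with `h` pure -/
def one (k : ℕ) : Tr → Bool
  | on => false
  | lf _ => false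
  | tw a b => bif a.pure then b.one k else (bif b.pure then a.one k else false)
  | tr a b c => bif a.pure then (bif b.pure then c.one k else (bif c.pure then b.one k else false))
      else (bif b.pure then (bif c.pure then a.one k else false) else false)
  | dx j h => bif Nat.beq j k then h.pure else false

/-- the argument of `dx` -/
def arg : Tr → List ℕ
  | on => []
  | lf _ => []
  | tw a b => a.arg ++ b.arg
  | tr a b c => a.arg ++ (b.arg ++ c.arg)
  | dx _ h => h.lts

/-- the letters outside `dx` -/
def out : Tr → List ℕ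
  | on => []
  | lf c => [c]
  | tw a b => a.out ++ b.out
  | tr a b c => a.out ++ (b.out ++ c.out)
  | dx _ _ => []

/-- the number of words of the argument -/
def asz : Tr → ℤ
  | on => 1
  | lf _ => 1
  | tw a b => a.asz * b.asz
  | tr a b c => a.asz * b.asz * c.asz
  | dx _ h => h.sz

/-- the boundary: `dx k h` becomes the block of `x_k`, and the partners of the letters `u` outside
become blocks -/
def bd (u : List ℕ) : Tr → Tr
  | on => on
  | lf c => lf (bl u c)
  | tw a b => tw (a.bd u) (b.bd u)
  | tr a b c => tr (a.bd u) (b.bd u) (c.bd u)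
  | dx k _ => lf (4 * k + 3)

end Tr

end Pool.Agent.H.MP_e16c79_al.IS
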