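import Pool.Agent.H.MP_e16c79_al.IS.BSem

/-!
# MP_e16c79_al: joining the parts of a certificate
-/

set_option autoImplicit false

namespace Pool.Agent.H.MP_e16c79_al.IS

/-- a list as an `AL` -/
def ofL : List (ℕ × List ℤ) → AL
  | [] => AL.nil
  | (k, q) :: l => AL.cons k q (ofL l)

/-- the sum of the parts -/
def mall : List (List (ℕ × List ℤ)) → AL
  | [] => AL.nil
  | l :: Ls => mrg (ofL l) (mall Ls)

variable {M : Type*} [AddCommGroup M] {n : ℤ} {F : ℕ → M}

theorem asem_ofL (l : List (ℕ × List ℤ)) :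
    asem n F (ofL l) = (l.map (fun p => pev n p.2 • F p.1)).sum := by
  induction l with
  | nil => rfl
  | cons a l ih =>
    obtain ⟨k, q⟩ := a
    rw [ofL, asem, ih, List.map_cons, List.sum_cons]

theorem asem_mall (Ls : List (List (ℕ × List ℤ)))
    (h : ∀ l ∈ Ls, (l.map (fun p => pev n p.2 • F p.1)).sum = 0) : asem n F (mall Ls) = 0 := by
  induction Ls with
  | nil => rfl
  | cons l Ls ih =>
    rw [mall, asem_mrg, asem_ofL, h l (by simp), ih (fun l' hl' => h l' (by simp [hl'])), add_zero]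

/-- joining the parts -/
theorem join_sound (Ls : List (List (ℕ × List ℤ)))
    (h : ∀ l ∈ Ls, (l.map (fun p => pev n p.2 • F p.1)).sum = 0) {tgt : List (ℕ × List ℤ)}
    (ht : aeq (fz (mall Ls)) tgt = true) :
    (tgt.map (fun p => pev n p.2 • F p.1)).sum = 0 := by
  rw [← aeq_iff (n := n) (F := F) ht, asem_fz, asem_mall Ls h]

end Pool.Agent.H.MP_e16c79_al.IS
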