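import Pool.Agent.H.MP_e16c79_al.IS.BSem
import Pool.Agent.H.MP_e16c79_al.IS.BLet

/-!
# MP_e16c79_al: the structural check of a relation
-/

set_option autoImplicit false

open Finset Pool.Agent.H.MP_e16c79_al.SP

namespace Pool.Agent.H.MP_e16c79_al.IS

/-- the structural check of a relation -/
def okR (tb m : ℕ) (r : Re) : Bool :=
  bif Nat.blt r.k 5 then (bif r.t.one r.k then (bif okw r.k r.t.out then (bif okw r.k r.t.arg then
  (bif pstd ((4 * r.k + 1) :: (4 * r.k + 2) :: (r.t.out ++ r.t.arg)) then (bif r.t.top then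
  (bif okg tb m (hcd r.t) r.g then
    (bif hasB r.t then (bif pstd (r.t.bd r.t.arg).lts then (bif (r.t.bd r.t.arg).top then
      okg tb m (hcd (r.t.bd r.t.arg)) r.b else false) else false)
    else noBd r.t)
  else false) else false) else false) else false) else false) else false) else false

theorem hasB_iff {t : Tr} (h : hasB t = true) : ∀ c ∈ t.arg, c % 4 = 1 ∧ c + 1 ∈ t.out := by
  unfold hasB at h
  rw [al_iff] at h
  intro c hc
  have h1 := h c hc
  by_cases h2 : c % 4 = 1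
  · rw [h2, beq_t, cond_true, mb_iff] at h1
    exact ⟨h2, h1⟩
  · rw [beq_f h2, cond_false] at h1
    cases h1

theorem noBd_iff {t : Tr} (h : noBd t = true) :
    ∃ c ∈ t.arg, c % 4 = 3 ∨ (c % 4 = 1 ∧ c + 1 ∈ t.arg) :=
  noB_iff (r := ⟨[], [], 0, t.arg, 0, [], []⟩).1 h

/-- the facts given by the check -/
structure OkR (tb m : ℕ) (r : Re) : Prop where
  k : r.k < 5
  one : r.t.one r.k = true
  out : okw r.k r.t.out = true
  arg : okw r.k r.t.arg = true
  std : pstd ((4 * r.k + 1) :: (4 * r.k + 2) :: (r.t.out ++ r.t.arg)) = true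
  top : r.t.top = true
  g : okg tb m (hcd r.t) r.g = true
  b : hasB r.t = true → pstd (r.t.bd r.t.arg).lts = true ∧ (r.t.bd r.t.arg).top = true ∧
    okg tb m (hcd (r.t.bd r.t.arg)) r.b = true
  n : hasB r.t = false → noBd r.t = true

theorem cnd {a b : Bool} (h : (bif a then b else false) = true) : a = true ∧ b = true := by
  cases a
  · cases h
  · exact ⟨rfl, h⟩

theorem okR_iff {tb m : ℕ} {r : Re} (h : okR tb m r = true) : OkR tb m r := by
  unfold okR at h
  obtain ⟨h1, h⟩ := cnd h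
  obtain ⟨h2, h⟩ := cnd h
  obtain ⟨h3, h⟩ := cnd h
  obtain ⟨h4, h⟩ := cnd h
  obtain ⟨h5, h⟩ := cnd h
  obtain ⟨h6, h⟩ := cnd h
  obtain ⟨h7, h⟩ := cnd h
  refine ⟨Nat.le_of_ble_eq_true h1, h2, h3, h4, h5, h6, h7, fun h8 => ?_, fun h8 => ?_⟩
  · rw [h8, cond_true] at h
    obtain ⟨h9, h⟩ := cnd h
    obtain ⟨h10, h⟩ := cnd h
    exact ⟨h9, h10, h⟩
  · rw [h8, cond_false] at h
    exact h

section

variable {R : Type*} [Ring R] {n : ℕ} {J N : AddSubgroup R} {M : Type*} [AddCommGroup M]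
  {φ : R →+ M} {X : Fin 5 → R} {ι : Type*} [Fintype ι] {g : ι → Equiv.Perm (Fin 5)} {χ : ι → ℤ}

/-- a checked relation has value zero; `F'` is the value on codes -/
theorem okR_sound (h : BData n J N) (hn : 2 ≤ n) (hφ : ∀ x ∈ N, φ x = 0) (hX : ∀ k, X k ∈ J)
    (htf : ∀ x : M, (2 : ℤ) • x = 0 → x = 0) {tb m : ℕ} (F' : ℕ → M)
    (hc : ∀ T : Tr, T.top = true → (∀ w ∈ T.wd, PStd w) →
      ((hcd T).map F').sum = (T.hw.map (F n φ X g χ)).sum)
    (ha : ∀ T : Tr, (∀ w ∈ T.wd, PStd w) → ∀ N ∈ hcd T, ∀ i, i / 2 < m →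
      F' (actc tb i N) = (if ngc tb i = true then (-1 : ℤ) else 1) • F' N)
    {r : Re} (hr : okR tb m r = true) : asem (n : ℤ) F' (rval tb r) = 0 := by
  have o := okR_iff hr
  have hw : ∀ w ∈ r.t.wd, PStd w :=
    fun w hw => (pstd_iff o.std).of_count (one_count o.one w hw)
  have e1 := hw_sum r.t o.top (F n φ X g χ) F_rev
  refine asem_rval htf o.g (ha r.t hw) (fun h0 => ?_) (fun h1 => ?_)
  · rw [hc r.t o.top hw]
    have e2 := F_tree0 (φ := φ) (g := g) (χ := χ) h hn hφ hX r.t o.k o.one o.out o.arg o.std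
      (noBd_iff (o.n h0))
    rw [e1] at e2
    refine htf _ ?_
    rw [← e2, two_nsmul, two_smul]
  · obtain ⟨h2, h3, h4⟩ := o.b h1
    have hw' : ∀ w ∈ (r.t.bd r.t.arg).wd, PStd w := fun w hw =>
      (pstd_iff h2).of_count (pure_count ((bd_pure r.t.arg r.t).2 o.one) w hw)
    refine ⟨h4, ha _ hw', ?_⟩
    rw [hc r.t o.top hw, hc _ h3 hw']
    have e2 := F_tree1 (φ := φ) (g := g) (χ := χ) h hn hφ hX r.t o.k o.one o.out o.arg o.std h2
      (hasB_iff h1)
    have e3 := hw_sum (r.t.bd r.t.arg) h3 (F n φ X g χ) F_rev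
    rw [e1, e3] at e2
    rw [← sub_eq_zero]
    refine htf _ ?_
    rw [smul_sub, sub_eq_zero, two_smul, two_smul, ← two_nsmul, e2, two_nsmul, smul_add]

/-- THE CERTIFICATE THEOREM: a checked tree of relations gives the vanishing of the target. -/
theorem cert_sound (h : BData n J N) (hn : 2 ≤ n) (hφ : ∀ x ∈ N, φ x = 0) (hX : ∀ k, X k ∈ J)
    (htf : ∀ x : M, (2 : ℤ) • x = 0 → x = 0) {tb m : ℕ} (F' : ℕ → M)
    (hc : ∀ T : Tr, T.top = true → (∀ w ∈ T.wd, PStd w) →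
      ((hcd T).map F').sum = (T.hw.map (F n φ X g χ)).sum)
    (ha : ∀ T : Tr, (∀ w ∈ T.wd, PStd w) → ∀ N ∈ hcd T, ∀ i, i / 2 < m →
      F' (actc tb i N) = (if ngc tb i = true then (-1 : ℤ) else 1) • F' N)
    (T : RT) (hT : T.all (okR tb m) = true) (tgt : List (ℕ × List ℤ))
    (ht : aeq (fz (sumT tb T)) tgt = true) :
    (tgt.map (fun p => pev (n : ℤ) p.2 • F' p.1)).sum = 0 :=
  check_sound (fun _ hr => okR_sound h hn hφ hX htf F' hc ha hr) T hT tgt ht

end

end Pool.Agent.H.MP_e16c79_al.IS
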