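import Pool.Agent.H.MP_e16c79_al.IS.BDefs

/-!
# MP_e16c79_al: the numerical checker
-/

set_option autoImplicit false

open Pool.Agent.H.MP_e16c79_al.SP

namespace Pool.Agent.H.MP_e16c79_al.IS

/-- sorted lists of codes of words with coefficients (polynomials in `n`) -/
inductive AL : Type
  | nil : AL
  | cons : ℕ → List ℤ → AL → AL

/-- sum of polynomials -/
def padd : List ℤ → List ℤ → List ℤ
  | [], m => m
  | a :: l, m =>
    match m with
    | [] => a :: l
    | b :: m' => (a + b) :: padd l m'

/-- multiple of a polynomial -/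
def psm (z : ℤ) : List ℤ → List ℤ
  | [] => []
  | a :: l => (z * a) :: psm z l

/-- merging, second argument -/
def mgo (k : ℕ) (q : List ℤ) (t : AL) (f : AL → AL) : AL → AL
  | AL.nil => AL.cons k q t
  | AL.cons k' q' t' =>
    bif Nat.blt k k' then AL.cons k q (f (AL.cons k' q' t'))
    else (bif Nat.beq k k' then AL.cons k (padd q q') (f t')
      else AL.cons k' q' (mgo k q t f t'))

/-- merging -/
def mrg : AL → AL → AL
  | AL.nil => fun b => b
  | AL.cons k q t => fun b => mgo k q t (mrg t) b

/-- the base-8 weight of a monomial -/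
def wt : Tr → ℕ
  | Tr.on => 1
  | Tr.lf _ => 8
  | Tr.tw a b => wt a * wt b
  | Tr.tr a b c => wt a * (wt b * wt c)
  | Tr.dx _ h => 64 * wt h

/-- the numbers `y + z`, `z ∈ b`, before `r` -/
def mgc (y : ℕ) : List ℕ → List ℕ → List ℕ
  | [], r => r
  | z :: b, r => (y + z) :: mgc y b r

/-- the numbers `x * w + z`, `x` in the last list but one, `z ∈ b`, before `r` -/
def mulc (w : ℕ) (b : List ℕ) : List ℕ → List ℕ → List ℕ
  | [], r => r
  | x :: a, r => mgc (x * w) b (mulc w b a r)

/-- the codes of the letter words (big-endian base 8, digits `letter + 1`) -/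
def cd : Tr → List ℕ
  | Tr.on => [0]
  | Tr.lf c => [c / 4 + 1]
  | Tr.tw a b => mulc (wt b) (cd b) (cd a) (mulc (wt a) (cd a) (cd b) [])
  | Tr.tr a b c => mulc (wt b * wt c) (mulc (wt c) (cd c) (cd b) []) (cd a)
      (mulc (wt b * wt a) (mulc (wt a) (cd a) (cd b) []) (cd c) [])
  | Tr.dx k h => mulc (wt h * 8) (mulc 8 [k + 1] (cd h) []) [k + 1] []

/-- the codes of half of the letter words -/
def hcd : Tr → List ℕ
  | Tr.on => []
  | Tr.lf _ => []
  | Tr.tw a b => mulc (wt b) (cd b) (cd a) []
  | Tr.tr a b c => mulc (wt b * wt c) (mulc (wt c) (cd c) (cd b) []) (cd a) []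
  | Tr.dx k h => mulc (wt h * 8) (mulc 8 [k + 1] (hcd h) []) [k + 1] []

/-- relabelling a code, `p` codes the permutation: the digit `d` becomes `p / 8 ^ d % 8` -/
def rlc (p : ℕ) : ℕ → ℕ → ℕ
  | 0, _ => 0
  | f + 1, N => rlc p f (N / 8) * 8 + (p / 8 ^ (N % 8)) % 8

/-- relabelling and reversing a code -/
def rrc (p : ℕ) : ℕ → ℕ → ℕ → ℕ
  | 0, _, r => r
  | f + 1, N, r => bif Nat.beq N 0 then r else rrc p f (N / 8) (r * 8 + (p / 8 ^ (N % 8)) % 8)

/-- the entry `i` of the table of permutations -/
def ent (tb i : ℕ) : ℕ := (tb / 2 ^ (20 * i)) % 1048576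

/-- the action of the group element `g / 2`, with reversal if `g % 2 = 1` -/
def actc (tb : ℕ) (g N : ℕ) : ℕ :=
  bif Nat.beq (g % 2) 0 then rlc (ent tb (g / 2)) 10 N else rrc (ent tb (g / 2)) 10 N 0

/-- the sign of the group element `g / 2` is `-1` -/
def ngc (tb : ℕ) (g : ℕ) : Bool := Nat.beq (ent tb (g / 2) / 262144) 1

/-- adding words to a list; the group code is `2 i + r`; `1000 + 2 i + r` for words which are
their own negatives (no contribution); `q' = - q` -/
def adw (tb : ℕ) (q q' : List ℤ) : List ℕ → List ℕ → AL → AL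
  | [], _, s => s
  | N :: Ns, gs, s =>
    match gs with
    | [] => s
    | g :: gs' =>
      bif Nat.blt g 1000 then
        adw tb q q' Ns gs' (mrg (AL.cons (actc tb g N) (bif ngc tb g then q' else q) AL.nil) s)
      else adw tb q q' Ns gs' s

/-- the group codes are correct; `m` is the order of the group -/
def okg (tb m : ℕ) : List ℕ → List ℕ → Bool
  | [], gs => match gs with
    | [] => true
    | _ :: _ => false
  | N :: Ns, gs =>
    match gs with
    | [] => false
    | g :: gs' =>
      bif Nat.blt g 1000 then (bif Nat.blt (g / 2) m then okg tb m Ns gs' else false)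
      else (bif Nat.blt ((g - 1000) / 2) m then
        (bif ngc tb (g - 1000) then
          (bif Nat.beq (actc tb (g - 1000) N) N then okg tb m Ns gs' else false)
        else false) else false)

/-- a relation: coefficients of `1, n, n^2, ...`, monomial, index of `dx`, group codes of the half
words, group codes of the half words of the boundary -/
structure Re where
  q : List ℤ
  t : Tr
  k : ℕ
  g : List ℕ
  b : List ℕ

/-- the relation has a boundary -/
def hasB (t : Tr) : Bool :=
  al (fun c => bif Nat.beq (c % 4) 1 then mb (c + 1) t.out else false) t.arg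

/-- the relation has no boundary -/
def noBd (t : Tr) : Bool :=
  bif al (fun c => bif Nat.beq (c % 4) 3 then false else
    (bif Nat.beq (c % 4) 1 then (bif mb (c + 1) t.arg then false else true) else true)) t.arg
  then false else true

/-- the value of a relation -/
def rval (tb : ℕ) (r : Re) : AL :=
  bif hasB r.t then
    adw tb r.q (psm (-1) r.q) (hcd r.t) r.g
      (adw tb (psm (-r.t.asz) (0 :: r.q)) (psm r.t.asz (0 :: r.q)) (hcd (r.t.bd r.t.arg)) r.b
        AL.nil)
  else adw tb r.q (psm (-1) r.q) (hcd r.t) r.g AL.nil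

/-- trees of relations -/
inductive RT : Type
  | lf : Re → RT
  | nd : RT → RT → RT

/-- the sum of a tree of relations -/
def sumT (tb : ℕ) : RT → AL
  | RT.lf r => rval tb r
  | RT.nd a b => mrg (sumT tb a) (sumT tb b)

/-- zero test -/
def zt : ℤ → Bool
  | Int.ofNat m => Nat.beq m 0
  | Int.negSucc _ => false

/-- zero test for polynomials -/
def pz : List ℤ → Bool
  | [] => true
  | a :: l => bif zt a then pz l else false

/-- dropping the zero entries -/
def fz : AL → AL
  | AL.nil => AL.nil
  | AL.cons k q t => bif pz q then fz t else AL.cons k q (fz t)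

/-- equality of integers -/
def zeq : ℤ → ℤ → Bool
  | Int.ofNat a, Int.ofNat b => Nat.beq a b
  | Int.negSucc a, Int.negSucc b => Nat.beq a b
  | _, _ => false

/-- equality of polynomials -/
def leq : List ℤ → List ℤ → Bool
  | [], l => pz l
  | a :: l, m =>
    match m with
    | [] => pz (a :: l)
    | b :: m' => bif zeq a b then leq l m' else false

/-- comparing with the target -/
def aeq : AL → List (ℕ × List ℤ) → Bool
  | AL.nil, [] => true
  | AL.nil, _ :: _ => false
  | AL.cons _ _ _, [] => false
  | AL.cons k q t, (k', q') :: l =>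
    bif Nat.beq k k' then (bif leq q q' then aeq t l else false) else false

end Pool.Agent.H.MP_e16c79_al.IS
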