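import Pool.Agent.H.MP_e16c79_al.IS.BRun

/-!
# MP_e16c79_al: the numerical checker is sound
-/

set_option autoImplicit false

open Pool.Agent.H.MP_e16c79_al.SP

namespace Pool.Agent.H.MP_e16c79_al.IS

variable {M : Type*} [AddCommGroup M] (n : ℤ) (F : ℕ → M)

/-- the value of a polynomial -/
def pev : List ℤ → ℤ
  | [] => 0
  | a :: l => a + n * pev l

/-- the value of a list -/
def asem : AL → M
  | AL.nil => 0
  | AL.cons k q t => pev n q • F k + asem t

variable {n F}

theorem pev_padd (l m : List ℤ) : pev n (padd l m) = pev n l + pev n m := by
  induction l generalizing m with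
  | nil => simp [padd, pev]
  | cons a l ih =>
    match m with
    | [] => simp [padd, pev]
    | b :: m' =>
      simp only [padd, pev, ih]
      ring

theorem pev_psm (z : ℤ) (l : List ℤ) : pev n (psm z l) = z * pev n l := by
  induction l with
  | nil => simp [psm, pev]
  | cons a l ih =>
    simp only [psm, pev, ih]
    ring

theorem asem_mgo (k : ℕ) (q : List ℤ) (t : AL) (f : AL → AL)
    (hf : ∀ b, asem n F (f b) = asem n F t + asem n F b) (b : AL) :
    asem n F (mgo k q t f b) = pev n q • F k + asem n F t + asem n F b := by
  induction b with
  | nil => simp [mgo, asem]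
  | cons k' q' t' ih =>
    unfold mgo
    cases Nat.blt k k' with
    | true =>
      rw [cond_true]
      simp only [asem, hf]
      abel
    | false =>
      rw [cond_false]
      cases h : Nat.beq k k' with
      | true =>
        have h2 : k = k' := Nat.eq_of_beq_eq_true h
        rw [cond_true]
        simp only [asem, hf, pev_padd, add_smul, h2]
        abel
      | false =>
        rw [cond_false]
        simp only [asem, ih]
        abel

theorem asem_mrg (a b : AL) : asem n F (mrg a b) = asem n F a + asem n F b := by
  induction a generalizing b with
  | nil => simp [mrg, asem]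
  | cons k q t ih =>
    unfold mrg
    rw [asem_mgo k q t (mrg t) ih b]
    simp only [asem]

theorem asem_adw {tb m : ℕ} (htf : ∀ x : M, (2 : ℤ) • x = 0 → x = 0) {q q' : List ℤ}
    (hq : pev n q' = -pev n q) (Ns gs : List ℕ) (hg : okg tb m Ns gs = true)
    (ha : ∀ N ∈ Ns, ∀ g, g / 2 < m →
      F (actc tb g N) = (if ngc tb g = true then (-1 : ℤ) else 1) • F N) (s : AL) :
    asem n F (adw tb q q' Ns gs s) = pev n q • (Ns.map F).sum + asem n F s := by
  induction Ns generalizing gs s with
  | nil => simp [adw]
  | cons N Ns ih =>
    match gs with
    | [] =>
      unfold okg at hg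
      cases hg
    | g :: gs' =>
      unfold okg at hg
      unfold adw
      dsimp only at hg ⊢
      have ha' : ∀ N ∈ Ns, ∀ g, g / 2 < m →
          F (actc tb g N) = (if ngc tb g = true then (-1 : ℤ) else 1) • F N :=
        fun N' hN' => ha N' (List.mem_cons_of_mem _ hN')
      cases h1 : Nat.blt g 1000 with
      | true =>
        rw [h1, cond_true] at hg
        rw [cond_true]
        cases h2 : Nat.blt (g / 2) m with
        | false =>
          rw [h2, cond_false] at hg
          cases hg
        | true =>
          rw [h2, cond_true] at hg
          rw [ih gs' hg ha', asem_mrg]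
          have h3 : g / 2 < m := Nat.le_of_ble_eq_true h2
          have h4 := ha N (by simp) g h3
          simp only [asem, List.map_cons, List.sum_cons, smul_add, h4]
          cases h5 : ngc tb g with
          | true =>
            simp only [cond_true, if_true, hq]
            simp only [neg_smul, one_smul, smul_neg]
            abel
          | false =>
            simp only [cond_false]
            simp only [Bool.false_eq_true, if_false, one_smul]
            abel
      | false =>
        rw [h1, cond_false] at hg
        rw [cond_false]
        cases h2 : Nat.blt ((g - 1000) / 2) m with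
        | false =>
          rw [h2, cond_false] at hg
          cases hg
        | true =>
          rw [h2, cond_true] at hg
          cases h5 : ngc tb (g - 1000) with
          | false =>
            rw [h5, cond_false] at hg
            cases hg
          | true =>
            rw [h5, cond_true] at hg
            cases h6 : Nat.beq (actc tb (g - 1000) N) N with
            | false =>
              rw [h6, cond_false] at hg
              cases hg
            | true =>
              rw [h6, cond_true] at hg
              rw [ih gs' hg ha']
              have h3 : (g - 1000) / 2 < m := Nat.le_of_ble_eq_true h2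
              have h4 := ha N (by simp) _ h3
              rw [Nat.eq_of_beq_eq_true h6, if_pos h5] at h4
              have h7 : F N = 0 := by
                refine htf _ ?_
                rw [two_smul]
                nth_rewrite 1 [h4]
                rw [neg_smul, one_smul]
                abel
              rw [List.map_cons, List.sum_cons, h7, zero_add]

theorem asem_rval {tb m : ℕ} (htf : ∀ x : M, (2 : ℤ) • x = 0 → x = 0) {r : Re}
    (hg : okg tb m (hcd r.t) r.g = true)
    (ha : ∀ N ∈ hcd r.t, ∀ g, g / 2 < m →
      F (actc tb g N) = (if ngc tb g = true then (-1 : ℤ) else 1) • F N)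
    (h0 : hasB r.t = false → ((hcd r.t).map F).sum = 0)
    (h1 : hasB r.t = true → okg tb m (hcd (r.t.bd r.t.arg)) r.b = true ∧
      (∀ N ∈ hcd (r.t.bd r.t.arg), ∀ g, g / 2 < m →
        F (actc tb g N) = (if ngc tb g = true then (-1 : ℤ) else 1) • F N) ∧
      ((hcd r.t).map F).sum = (r.t.asz * n) • ((hcd (r.t.bd r.t.arg)).map F).sum) :
    asem n F (rval tb r) = 0 := by
  unfold rval
  cases h : hasB r.t with
  | true =>
    obtain ⟨k1, k2, k3⟩ := h1 h
    rw [cond_true, asem_adw htf (by rw [pev_psm]; ring) _ _ hg ha,
      asem_adw htf (by rw [pev_psm, pev_psm]; ring) _ _ k1 k2, k3, pev_psm]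
    simp only [pev, asem, ← mul_smul, zero_add, add_zero]
    rw [← add_smul]
    have e : pev n r.q * (r.t.asz * n) + -r.t.asz * (n * pev n r.q) = 0 := by ring
    rw [e, zero_smul]
  | false =>
    rw [cond_false, asem_adw htf (by rw [pev_psm]; ring) _ _ hg ha, h0 h]
    simp [asem]

/-- all relations of a tree -/
def RT.all (p : Re → Bool) : RT → Bool
  | RT.lf r => p r
  | RT.nd a b => bif a.all p then b.all p else false

theorem asem_sumT {tb : ℕ} {p : Re → Bool} (hp : ∀ r, p r = true → asem n F (rval tb r) = 0)
    (T : RT) (hT : T.all p = true) : asem n F (sumT tb T) = 0 := by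
  induction T with
  | lf r => exact hp r hT
  | nd a b iha ihb =>
    unfold RT.all at hT
    cases h : a.all p with
    | false =>
      rw [h, cond_false] at hT
      cases hT
    | true =>
      rw [h, cond_true] at hT
      unfold sumT
      rw [asem_mrg, iha h, ihb hT, add_zero]

theorem zt_iff {z : ℤ} (h : zt z = true) : z = 0 := by
  match z with
  | Int.ofNat m =>
    have : m = 0 := Nat.eq_of_beq_eq_true h
    subst this
    rfl
  | Int.negSucc _ =>
    unfold zt at h
    cases h

theorem pz_iff {l : List ℤ} (h : pz l = true) : pev n l = 0 := by
  induction l with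
  | nil => rfl
  | cons a l ih =>
    unfold pz at h
    cases h1 : zt a with
    | false =>
      rw [h1, cond_false] at h
      cases h
    | true =>
      rw [h1, cond_true] at h
      rw [pev, zt_iff h1, ih h, mul_zero, add_zero]

theorem asem_fz (a : AL) : asem n F (fz a) = asem n F a := by
  induction a with
  | nil => rfl
  | cons k q t ih =>
    unfold fz
    cases h : pz q with
    | true =>
      rw [cond_true, ih, asem, pz_iff h, zero_smul, zero_add]
    | false => rw [cond_false, asem, asem, ih]

theorem zeq_iff {a b : ℤ} (h : zeq a b = true) : a = b := by
  match a, b with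
  | Int.ofNat a, Int.ofNat b =>
    have : a = b := Nat.eq_of_beq_eq_true h
    rw [this]
  | Int.negSucc a, Int.negSucc b =>
    have : a = b := Nat.eq_of_beq_eq_true h
    rw [this]
  | Int.ofNat _, Int.negSucc _ =>
    unfold zeq at h
    cases h
  | Int.negSucc _, Int.ofNat _ =>
    unfold zeq at h
    cases h

theorem leq_iff {l m : List ℤ} (h : leq l m = true) : pev n l = pev n m := by
  induction l generalizing m with
  | nil =>
    unfold leq at h
    rw [pz_iff h]
    rfl
  | cons a l ih =>
    match m with
    | [] =>
      unfold leq at h
      rw [pz_iff h]
      rfl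
    | b :: m' =>
      unfold leq at h
      dsimp only at h
      cases h1 : zeq a b with
      | false =>
        rw [h1, cond_false] at h
        cases h
      | true =>
        rw [h1, cond_true] at h
        rw [pev, pev, zeq_iff h1, ih h]

theorem aeq_iff {a : AL} {l : List (ℕ × List ℤ)} (h : aeq a l = true) :
    asem n F a = (l.map (fun p => pev n p.2 • F p.1)).sum := by
  induction a generalizing l with
  | nil =>
    match l with
    | [] => rfl
    | _ :: _ =>
      unfold aeq at h
      cases h
  | cons k q t ih =>
    match l with
    | [] =>
      unfold aeq at h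
      cases h
    | (k', q') :: l =>
      unfold aeq at h
      cases h1 : Nat.beq k k' with
      | false =>
        rw [h1, cond_false] at h
        cases h
      | true =>
        rw [h1, cond_true] at h
        cases h2 : leq q q' with
        | false =>
          rw [h2, cond_false] at h
          cases h
        | true =>
          rw [h2, cond_true] at h
          rw [asem, ih h, Nat.eq_of_beq_eq_true h1, leq_iff (n := n) h2, List.map_cons,
            List.sum_cons]

/-- THE CHECKER IS SOUND. -/
theorem check_sound {tb : ℕ} {p : Re → Bool} (hp : ∀ r, p r = true → asem n F (rval tb r) = 0)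
    (T : RT) (hT : T.all p = true) (tgt : List (ℕ × List ℤ))
    (ht : aeq (fz (sumT tb T)) tgt = true) :
    (tgt.map (fun p => pev n p.2 • F p.1)).sum = 0 := by
  rw [← aeq_iff (n := n) (F := F) ht, asem_fz, asem_sumT hp T hT]

end Pool.Agent.H.MP_e16c79_al.IS
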