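import Pool.Agent.H.MP_e16c79_al.IS.BDefs

/-!
# MP_e16c79_al: soundness of the relations with Jordan contexts
-/

set_option autoImplicit false

namespace Pool.Agent.H.MP_e16c79_al.IS

open Finset SP

variable {R : Type*} [Ring R]

section data

variable {n : ℕ} {J N : AddSubgroup R} (h : BData n J N)
include h

theorem BData.smallN {d : ℕ} (h1 : 1 ≤ d) (h2 : d ≤ n) {r : R} (hr : (d : ℤ) • r ∈ N) :
    r ∈ N := by
  refine h.sn r ?_
  obtain ⟨e, he⟩ := Nat.dvd_factorial h1 h2
  have e1 : ((2 * n.factorial : ℕ) : ℤ) = (2 * e : ℤ) * d := by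
    rw [he]
    push_cast
    ring
  rw [e1, mul_smul]
  exact N.zsmul_mem hr _

theorem BData.twoN {r : R} (hr : (2 : ℤ) • r ∈ N) : r ∈ N := by
  refine h.sn r ?_
  have e : ((2 * n.factorial : ℕ) : ℤ) = (n.factorial : ℤ) * 2 := by
    push_cast
    ring
  rw [e, mul_smul]
  exact N.zsmul_mem hr _

theorem BData.twoJ {r : R} (hr : (2 : ℤ) • r ∈ J) : r ∈ J := by
  refine h.sj r ?_
  have e : ((2 * n.factorial : ℕ) : ℤ) = (n.factorial : ℤ) * 2 := by
    push_cast
    ring
  rw [e, mul_smul]
  exact J.zsmul_mem hr _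

theorem BData.pow_mem {x : R} (hx : x ∈ J) (k : ℕ) : x ^ (k + 1) ∈ J := by
  induction k with
  | zero => simpa using hx
  | succ k ih =>
    refine h.twoJ ?_
    have e := h.jj x hx _ ih
    rw [two_smul]
    nth_rewrite 1 [pow_succ']
    rw [pow_succ x (k + 1)]
    exact e

omit h in
theorem tri_two (x y z : R) : (2 : ℤ) • (x * y * z + z * y * x) =
    (x * (y * z + z * y) + (y * z + z * y) * x) + (z * (x * y + y * x) + (x * y + y * x) * z) -
      (y * (x * z + z * x) + (x * z + z * x) * y) := by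
  noncomm_ring

theorem BData.tri_mem {x y z : R} (hx : x ∈ J) (hy : y ∈ J) (hz : z ∈ J) :
    x * y * z + z * y * x ∈ J := by
  refine h.twoJ ?_
  rw [tri_two]
  exact J.sub_mem (J.add_mem (h.jj _ hx _ (h.jj _ hy _ hz)) (h.jj _ hz _ (h.jj _ hx _ hy)))
    (h.jj _ hy _ (h.jj _ hx _ hz))

theorem BData.jn' {x y : R} (hx : x ∈ J) (hy : y ∈ N) : y * x + x * y ∈ N := by
  rw [add_comm]
  exact h.jn _ hx _ hy

/-- the marked place at the end -/
theorem BData.tri_N1 {x y z : R} (hx : x ∈ J) (hy : y ∈ J) (hz : z ∈ N) :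
    x * y * z + z * y * x ∈ N := by
  refine h.twoN ?_
  rw [tri_two]
  exact N.sub_mem (N.add_mem (h.jn _ hx _ (h.jn _ hy _ hz)) (h.jn' (h.jj _ hx _ hy) hz))
    (h.jn _ hy _ (h.jn _ hx _ hz))

/-- the marked place in the middle -/
theorem BData.tri_N2 {x y z : R} (hx : x ∈ J) (hy : y ∈ N) (hz : z ∈ J) :
    x * y * z + z * y * x ∈ N := by
  refine h.twoN ?_
  rw [tri_two]
  exact N.sub_mem (N.add_mem (h.jn _ hx _ (h.jn' hz hy)) (h.jn _ hz _ (h.jn _ hx _ hy)))
    (h.jn' (h.jj _ hx _ hz) hy)

theorem BData.pair {a b : R} {k l : ℤ} (ha : Cst J a k) (hb : Cst J b l) :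
    Cst J (a * b + b * a) (2 * k * l) := by
  obtain ⟨a', ha', rfl⟩ : ∃ a' ∈ J, a = a' + k • (1 : R) := ⟨_, ha, by abel⟩
  obtain ⟨b', hb', rfl⟩ : ∃ b' ∈ J, b = b' + l • (1 : R) := ⟨_, hb, by abel⟩
  have e : (a' + k • (1 : R)) * (b' + l • (1 : R)) + (b' + l • (1 : R)) * (a' + k • (1 : R)) -
      (2 * k * l) • (1 : R) = (a' * b' + b' * a') + ((2 * k) • b' + (2 * l) • a') := by
    simp only [add_mul, mul_add, mul_smul_comm, smul_mul_assoc, mul_one, one_mul, smul_add,
      ← mul_smul]
    module
  show _ ∈ J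
  rw [e]
  exact J.add_mem (h.jj _ ha' _ hb') (J.add_mem (J.zsmul_mem hb' _) (J.zsmul_mem ha' _))

theorem BData.tri {a b c : R} {k l m : ℤ} (ha : Cst J a k) (hb : Cst J b l) (hc : Cst J c m) :
    Cst J (a * (b * c) + c * (b * a)) (2 * k * l * m) := by
  obtain ⟨a', ha', rfl⟩ : ∃ a' ∈ J, a = a' + k • (1 : R) := ⟨_, ha, by abel⟩
  obtain ⟨b', hb', rfl⟩ : ∃ b' ∈ J, b = b' + l • (1 : R) := ⟨_, hb, by abel⟩
  obtain ⟨c', hc', rfl⟩ : ∃ c' ∈ J, c = c' + m • (1 : R) := ⟨_, hc, by abel⟩
  have e : (a' + k • (1 : R)) * ((b' + l • (1 : R)) * (c' + m • (1 : R))) +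
      (c' + m • (1 : R)) * ((b' + l • (1 : R)) * (a' + k • (1 : R))) -
        (2 * k * l * m) • (1 : R) =
      (a' * b' * c' + c' * b' * a') + (m • (a' * b' + b' * a') + l • (a' * c' + c' * a') +
        k • (b' * c' + c' * b')) + ((2 * l * m) • a' + (2 * k * m) • b' + (2 * k * l) • c') := by
    simp only [add_mul, mul_add, mul_smul_comm, smul_mul_assoc, mul_one, one_mul, smul_add,
      ← mul_smul, mul_assoc]
    module
  show _ ∈ J
  rw [e]
  refine J.add_mem (J.add_mem (h.tri_mem ha' hb' hc') (J.add_mem (J.add_mem ?_ ?_) ?_)) ?_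
  · exact J.zsmul_mem (h.jj _ ha' _ hb') _
  · exact J.zsmul_mem (h.jj _ ha' _ hc') _
  · exact J.zsmul_mem (h.jj _ hb' _ hc') _
  · exact J.add_mem (J.add_mem (J.zsmul_mem ha' _) (J.zsmul_mem hb' _)) (J.zsmul_mem hc' _)

theorem BData.cN {a r : R} {k : ℤ} (ha : Cst J a k) (hr : r ∈ N) : a * r + r * a ∈ N := by
  obtain ⟨a', ha', rfl⟩ : ∃ a' ∈ J, a = a' + k • (1 : R) := ⟨_, ha, by abel⟩
  have e : (a' + k • (1 : R)) * r + r * (a' + k • (1 : R)) =
      (a' * r + r * a') + (2 * k) • r := by
    simp only [add_mul, mul_add, mul_smul_comm, smul_mul_assoc, mul_one, one_mul]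
    module
  rw [e]
  exact N.add_mem (h.jn _ ha' _ hr) (N.zsmul_mem hr _)

theorem BData.cN1 {a b r : R} {k l : ℤ} (ha : Cst J a k) (hb : Cst J b l) (hr : r ∈ N) :
    a * (b * r) + r * (b * a) ∈ N := by
  obtain ⟨a', ha', rfl⟩ : ∃ a' ∈ J, a = a' + k • (1 : R) := ⟨_, ha, by abel⟩
  obtain ⟨b', hb', rfl⟩ : ∃ b' ∈ J, b = b' + l • (1 : R) := ⟨_, hb, by abel⟩
  have e : (a' + k • (1 : R)) * ((b' + l • (1 : R)) * r) +
      r * ((b' + l • (1 : R)) * (a' + k • (1 : R))) =
      (a' * b' * r + r * b' * a') + (l • (a' * r + r * a') + k • (b' * r + r * b')) +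
        (2 * k * l) • r := by
    simp only [add_mul, mul_add, mul_smul_comm, smul_mul_assoc, mul_one, one_mul, smul_add,
      ← mul_smul, mul_assoc]
    module
  rw [e]
  exact N.add_mem (N.add_mem (h.tri_N1 ha' hb' hr) (N.add_mem (N.zsmul_mem (h.jn _ ha' _ hr) _)
    (N.zsmul_mem (h.jn _ hb' _ hr) _))) (N.zsmul_mem hr _)

theorem BData.cN2 {a b r : R} {k l : ℤ} (ha : Cst J a k) (hb : Cst J b l) (hr : r ∈ N) :
    a * (r * b) + b * (r * a) ∈ N := by
  obtain ⟨a', ha', rfl⟩ : ∃ a' ∈ J, a = a' + k • (1 : R) := ⟨_, ha, by abel⟩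
  obtain ⟨b', hb', rfl⟩ : ∃ b' ∈ J, b = b' + l • (1 : R) := ⟨_, hb, by abel⟩
  have e : (a' + k • (1 : R)) * (r * (b' + l • (1 : R))) +
      (b' + l • (1 : R)) * (r * (a' + k • (1 : R))) =
      (a' * r * b' + b' * r * a') + (l • (a' * r + r * a') + k • (b' * r + r * b')) +
        (2 * k * l) • r := by
    simp only [add_mul, mul_add, mul_smul_comm, smul_mul_assoc, mul_one, one_mul, smul_add,
      ← mul_smul, mul_assoc]
    module
  rw [e]
  exact N.add_mem (N.add_mem (h.tri_N2 ha' hr hb') (N.add_mem (N.zsmul_mem (h.jn _ ha' _ hr) _)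
    (N.zsmul_mem (h.jn _ hb' _ hr) _))) (N.zsmul_mem hr _)

/-- linearisation of the nil identity -/
theorem BData.lin {x a : R} (hn : 1 ≤ n) (hx : x ∈ J) (ha : a ∈ J) :
    ∑ p ∈ antidiagonal (n - 1), x ^ p.1 * a * x ^ p.2 ∈ N := by
  obtain ⟨m, rfl⟩ : ∃ m, n = m + 1 := ⟨n - 1, by omega⟩
  rw [Nat.add_sub_cancel, ← HS.cf_one]
  have key := HS.vand (M := R ⧸ N) (m + 1) (by
    intro d h1 h2 r hr
    obtain ⟨w, rfl⟩ := QuotientAddGroup.mk_surjective r
    rw [← QuotientAddGroup.mk_zsmul, QuotientAddGroup.eq_zero_iff] at hr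
    rw [QuotientAddGroup.eq_zero_iff]
    exact h.smallN h1 h2 hr) (fun k => QuotientAddGroup.mk (HS.cf x a (m + 1) k)) (by
    intro i
    have e := HS.cf_sum x a (m + 1) ((i : ℕ) : ℤ)
    rw [← Fin.sum_univ_eq_sum_range (fun k => (((i : ℕ) : ℤ)) ^ k • HS.cf x a (m + 1) k)] at e
    have e2 := congrArg (QuotientAddGroup.mk' N) e
    rw [map_sum] at e2
    simp only [map_zsmul] at e2
    refine e2.symm.trans ?_
    rw [QuotientAddGroup.mk'_apply, QuotientAddGroup.eq_zero_iff]
    exact h.nil _ (J.add_mem hx (J.zsmul_mem ha _))) ⟨1, by omega⟩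
  exact (QuotientAddGroup.eq_zero_iff _).1 key

/-- the sum over the split -/
theorem BData.Dx (hn : 1 ≤ n) {x a : R} {k : ℤ} (hx : x ∈ J) (ha : Cst J a k) :
    ∑ i : Fin n, x ^ (i : ℕ) * (a * x ^ (n - 1 - (i : ℕ))) - (k * n) • x ^ (n - 1) ∈ N := by
  have h1 := h.lin hn hx ha
  obtain ⟨m, rfl⟩ : ∃ m, n = m + 1 := ⟨n - 1, by omega⟩
  rw [Nat.add_sub_cancel] at h1 ⊢
  rw [Finset.Nat.sum_antidiagonal_eq_sum_range_succ_mk] at h1
  rw [Fin.sum_univ_eq_sum_range (fun i => x ^ i * (a * x ^ (m - i)))]
  have e : ∀ i ∈ range (m + 1), x ^ i * (a * x ^ (m - i)) =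
      x ^ i * (a - k • (1 : R)) * x ^ (m - i) + k • x ^ m := by
    intro i hi
    rw [mem_range] at hi
    have e1 : x ^ m = x ^ i * x ^ (m - i) := by
      rw [← pow_add]
      congr 1
      omega
    rw [mul_sub, sub_mul, mul_smul_comm, smul_mul_assoc, mul_one, ← e1, sub_add_cancel,
      mul_assoc]
  rw [sum_congr rfl e, sum_add_distrib, sum_const, card_range]
  have e3 : (k * ((m + 1 : ℕ) : ℤ)) • x ^ m = (m + 1) • k • x ^ m := by
    rw [mul_comm k, mul_smul, natCast_zsmul]
  rw [e3, add_sub_cancel_right]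
  exact h1

end data

/-- the value of a monomial, the letters having the values `g` -/
def pg (g : ℕ → R) : Tr → R
  | .on => 1
  | .lf c => g c
  | .tw a b => pg g a * pg g b + pg g b * pg g a
  | .tr a b c => pg g a * (pg g b * pg g c) + pg g c * (pg g b * pg g a)
  | .dx k h => g (4 * k + 1) * (pg g h * g (4 * k + 2))

theorem mulw_sum (g : ℕ → R) (a b : List (List ℕ)) :
    ((Tr.mulw a b).map (fun w => (w.map g).prod)).sum =
      (a.map (fun w => (w.map g).prod)).sum * (b.map (fun w => (w.map g).prod)).sum := by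
  unfold Tr.mulw
  induction a with
  | nil => simp
  | cons u a ih =>
    rw [List.flatMap_cons, List.map_append, List.sum_append, ih, List.map_cons, List.sum_cons,
      add_mul]
    congr 1
    rw [List.map_map]
    induction b with
    | nil => simp
    | cons v b ihb =>
      rw [List.map_cons, List.sum_cons, List.map_cons, List.sum_cons, mul_add, ihb]
      · congr 1
        show ((u ++ v).map g).prod = _
        rw [List.map_append, List.prod_append]
      · clear ihb ih
        induction a with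
        | nil => simp
        | cons u a ih =>
          rw [List.flatMap_cons, List.map_append, List.sum_append, ih, List.map_cons,
            List.sum_cons, add_mul]
          congr 1
          rw [List.map_map]
          clear ih
          induction b with
          | nil => simp
          | cons v b ihb =>
            rw [List.map_cons, List.sum_cons, List.map_cons, List.sum_cons, mul_add, ihb]
            congr 1
            show ((u ++ v).map g).prod = _
            rw [List.map_append, List.prod_append]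

theorem wd_sum (g : ℕ → R) (T : Tr) : (T.wd.map (fun w => (w.map g).prod)).sum = pg g T := by
  induction T with
  | on => simp [Tr.wd, pg]
  | lf c => simp [Tr.wd, pg]
  | tw a b iha ihb =>
    unfold Tr.wd pg
    rw [List.map_append, List.sum_append, mulw_sum, mulw_sum, iha, ihb]
  | tr a b c iha ihb ihc =>
    unfold Tr.wd pg
    rw [List.map_append, List.sum_append, mulw_sum, mulw_sum, mulw_sum, mulw_sum, iha, ihb, ihc]
  | dx k h ih =>
    unfold Tr.wd pg
    rw [mulw_sum, mulw_sum, ih]
    simp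

/-- `r ↦ p r + r p` -/
def LR (p : R) (F : R →+ R) : R →+ R :=
  (AddMonoidHom.mulLeft p).comp F + (AddMonoidHom.mulRight p).comp F

/-- the value as a function of the marked place -/
def FF (g : ℕ → R) : Tr → (R →+ R)
  | .on => 0
  | .lf _ => 0
  | .tw a b => bif a.pure then LR (pg g a) (FF g b) else LR (pg g b) (FF g a)
  | .tr a b c =>
    bif a.pure then
      (bif b.pure then
        (AddMonoidHom.mulLeft (pg g a * pg g b)).comp (FF g c) +
          (AddMonoidHom.mulRight (pg g b * pg g a)).comp (FF g c)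
      else
        (AddMonoidHom.mulLeft (pg g a)).comp ((AddMonoidHom.mulRight (pg g c)).comp (FF g b)) +
          (AddMonoidHom.mulLeft (pg g c)).comp ((AddMonoidHom.mulRight (pg g a)).comp (FF g b)))
    else
      (AddMonoidHom.mulRight (pg g b * pg g c)).comp (FF g a) +
        (AddMonoidHom.mulLeft (pg g c * pg g b)).comp (FF g a)
  | .dx _ _ => AddMonoidHom.id R

/-- the argument -/
def sb : Tr → Tr
  | .on => .on
  | .lf _ => .on
  | .tw a b => bif a.pure then sb b else sb a
  | .tr a b c => bif a.pure then (bif b.pure then sb c else sb b) else sb a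
  | .dx _ h => h

theorem one_tw {k : ℕ} {a b : Tr} (h : (Tr.tw a b).one k = true) :
    (a.pure = true ∧ b.one k = true) ∨ (a.pure = false ∧ b.pure = true ∧ a.one k = true) := by
  unfold Tr.one at h
  cases ha : a.pure with
  | true =>
    rw [ha, cond_true] at h
    exact Or.inl ⟨rfl, h⟩
  | false =>
    rw [ha, cond_false] at h
    cases hb : b.pure with
    | true =>
      rw [hb, cond_true] at h
      exact Or.inr ⟨rfl, rfl, h⟩
    | false =>
      rw [hb, cond_false] at h
      cases h

theorem one_tr {k : ℕ} {a b c : Tr} (h : (Tr.tr a b c).one k = true) :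
    (a.pure = true ∧ b.pure = true ∧ c.one k = true) ∨
      (a.pure = true ∧ b.pure = false ∧ c.pure = true ∧ b.one k = true) ∨
      (a.pure = false ∧ b.pure = true ∧ c.pure = true ∧ a.one k = true) := by
  unfold Tr.one at h
  cases ha : a.pure with
  | true =>
    rw [ha, cond_true] at h
    cases hb : b.pure with
    | true =>
      rw [hb, cond_true] at h
      exact Or.inl ⟨rfl, rfl, h⟩
    | false =>
      rw [hb, cond_false] at h
      cases hc : c.pure with
      | true =>
        rw [hc, cond_true] at h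
        exact Or.inr (Or.inl ⟨rfl, rfl, rfl, h⟩)
      | false =>
        rw [hc, cond_false] at h
        cases h
  | false =>
    rw [ha, cond_false] at h
    cases hb : b.pure with
    | true =>
      rw [hb, cond_true] at h
      cases hc : c.pure with
      | true =>
        rw [hc, cond_true] at h
        exact Or.inr (Or.inr ⟨rfl, rfl, rfl, h⟩)
      | false =>
        rw [hc, cond_false] at h
        cases h
    | false =>
      rw [hb, cond_false] at h
      cases h

theorem pure_tw {a b : Tr} (h : (Tr.tw a b).pure = true) : a.pure = true ∧ b.pure = true := by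
  unfold Tr.pure at h
  cases ha : a.pure with
  | true =>
    rw [ha, cond_true] at h
    exact ⟨rfl, h⟩
  | false =>
    rw [ha, cond_false] at h
    cases h

theorem pure_tr {a b c : Tr} (h : (Tr.tr a b c).pure = true) :
    a.pure = true ∧ b.pure = true ∧ c.pure = true := by
  unfold Tr.pure at h
  cases ha : a.pure with
  | true =>
    rw [ha, cond_true] at h
    cases hb : b.pure with
    | true =>
      rw [hb, cond_true] at h
      exact ⟨rfl, rfl, h⟩
    | false =>
      rw [hb, cond_false] at h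
      cases h
  | false =>
    rw [ha, cond_false] at h
    cases h

/-- facts about pure monomials -/
theorem pure_facts {T : Tr} (h : T.pure = true) : T.out = T.lts ∧ T.arg = [] ∧ T.asz = 1 := by
  induction T with
  | on => exact ⟨rfl, rfl, rfl⟩
  | lf c => exact ⟨rfl, rfl, rfl⟩
  | tw a b iha ihb =>
    obtain ⟨ha, hb⟩ := pure_tw h
    obtain ⟨a1, a2, a3⟩ := iha ha
    obtain ⟨b1, b2, b3⟩ := ihb hb
    refine ⟨?_, ?_, ?_⟩
    · show a.out ++ b.out = a.lts ++ b.lts
      rw [a1, b1]
    · show a.arg ++ b.arg = []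
      rw [a2, b2]
      rfl
    · show a.asz * b.asz = 1
      rw [a3, b3]
      rfl
  | tr a b c iha ihb ihc =>
    obtain ⟨ha, hb, hc⟩ := pure_tr h
    obtain ⟨a1, a2, a3⟩ := iha ha
    obtain ⟨b1, b2, b3⟩ := ihb hb
    obtain ⟨c1, c2, c3⟩ := ihc hc
    refine ⟨?_, ?_, ?_⟩
    · show a.out ++ (b.out ++ c.out) = a.lts ++ (b.lts ++ c.lts)
      rw [a1, b1, c1]
    · show a.arg ++ (b.arg ++ c.arg) = []
      rw [a2, b2, c2]
      rfl
    · show a.asz * b.asz * c.asz = 1
      rw [a3, b3, c3]
      rfl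
  | dx k h' _ => cases h

/-- facts about monomials with one `dx` -/
theorem one_facts {k : ℕ} {T : Tr} (h : T.one k = true) :
    (sb T).pure = true ∧ (sb T).lts = T.arg ∧ (sb T).sz = T.asz := by
  induction T with
  | on => cases h
  | lf c => cases h
  | tw a b iha ihb =>
    rcases one_tw h with ⟨ha, hb⟩ | ⟨ha, hb, h1⟩
    · obtain ⟨b1, b2, b3⟩ := ihb hb
      obtain ⟨_, a2, a3⟩ := pure_facts ha
      have e : sb (Tr.tw a b) = sb b := by
        rw [sb, ha, cond_true]
      rw [e]
      refine ⟨b1, ?_, ?_⟩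
      · show _ = a.arg ++ b.arg
        rw [a2, b2]
        rfl
      · show _ = a.asz * b.asz
        rw [a3, b3, one_mul]
    · obtain ⟨a1, a2, a3⟩ := iha h1
      obtain ⟨_, b2, b3⟩ := pure_facts hb
      have e : sb (Tr.tw a b) = sb a := by
        rw [sb, ha, cond_false]
      rw [e]
      refine ⟨a1, ?_, ?_⟩
      · show _ = a.arg ++ b.arg
        rw [a2, b2, List.append_nil]
      · show _ = a.asz * b.asz
        rw [a3, b3, mul_one]
  | tr a b c iha ihb ihc =>
    rcases one_tr h with ⟨ha, hb, hc⟩ | ⟨ha, hb', hc, hb⟩ | ⟨ha', hb, hc, ha⟩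
    · obtain ⟨c1, c2, c3⟩ := ihc hc
      obtain ⟨_, a2, a3⟩ := pure_facts ha
      obtain ⟨_, b2, b3⟩ := pure_facts hb
      have e : sb (Tr.tr a b c) = sb c := by
        rw [sb, ha, cond_true, hb, cond_true]
      rw [e]
      refine ⟨c1, ?_, ?_⟩
      · show _ = a.arg ++ (b.arg ++ c.arg)
        rw [a2, b2, c2]
        rfl
      · show _ = a.asz * b.asz * c.asz
        rw [a3, b3, c3, one_mul, one_mul]
    · obtain ⟨b1, b2, b3⟩ := ihb hb
      obtain ⟨_, a2, a3⟩ := pure_facts ha
      obtain ⟨_, c2, c3⟩ := pure_facts hc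
      have e : sb (Tr.tr a b c) = sb b := by
        rw [sb, ha, cond_true, hb', cond_false]
      rw [e]
      refine ⟨b1, ?_, ?_⟩
      · show _ = a.arg ++ (b.arg ++ c.arg)
        rw [a2, c2, b2, List.append_nil]
        rfl
      · show _ = a.asz * b.asz * c.asz
        rw [a3, b3, c3, one_mul, mul_one]
    · obtain ⟨a1, a2, a3⟩ := iha ha
      obtain ⟨_, b2, b3⟩ := pure_facts hb
      obtain ⟨_, c2, c3⟩ := pure_facts hc
      have e : sb (Tr.tr a b c) = sb a := by
        rw [sb, ha', cond_false]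
      rw [e]
      refine ⟨a1, ?_, ?_⟩
      · show _ = a.arg ++ (b.arg ++ c.arg)
        rw [b2, c2, a2, List.append_nil, List.append_nil]
      · show _ = a.asz * b.asz * c.asz
        rw [a3, b3, c3, mul_one, mul_one]
  | dx j h' _ =>
    unfold Tr.one at h
    cases hj : Nat.beq j k with
    | true =>
      rw [hj, cond_true] at h
      exact ⟨h, rfl, rfl⟩
    | false =>
      rw [hj, cond_false] at h
      cases h

/-- pure monomials: congruence -/
theorem pg_congr {g g' : ℕ → R} {T : Tr} (h : T.pure = true) (hg : ∀ c ∈ T.lts, g c = g' c) :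
    pg g T = pg g' T := by
  induction T with
  | on => rfl
  | lf c => exact hg c (by simp [Tr.lts])
  | tw a b iha ihb =>
    obtain ⟨ha, hb⟩ := pure_tw h
    unfold pg
    rw [iha ha (fun c hc => hg c (List.mem_append_left _ hc)),
      ihb hb (fun c hc => hg c (List.mem_append_right _ hc))]
  | tr a b c iha ihb ihc =>
    obtain ⟨ha, hb, hc⟩ := pure_tr h
    unfold pg
    rw [iha ha (fun c hc => hg c (List.mem_append_left _ hc)),
      ihb hb (fun c hc => hg c (List.mem_append_right _ (List.mem_append_left _ hc))),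
      ihc hc (fun c hc => hg c (List.mem_append_right _ (List.mem_append_right _ hc)))]
  | dx k h' _ => cases h

/-- pure monomials with a zero letter -/
theorem pg_zero {g : ℕ → R} {T : Tr} {c : ℕ} (h : T.pure = true) (hc : c ∈ T.lts)
    (hg : g c = 0) : pg g T = 0 := by
  induction T with
  | on => simp [Tr.lts] at hc
  | lf d =>
    simp [Tr.lts] at hc
    subst hc
    exact hg
  | tw a b iha ihb =>
    obtain ⟨ha, hb⟩ := pure_tw h
    unfold pg
    rcases List.mem_append.1 hc with hc | hc
    · rw [iha ha hc, zero_mul, mul_zero, add_zero]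
    · rw [ihb hb hc, zero_mul, mul_zero, add_zero]
  | tr a b d iha ihb ihd =>
    obtain ⟨ha, hb, hd⟩ := pure_tr h
    unfold pg
    rcases List.mem_append.1 hc with hc | hc
    · rw [iha ha hc, zero_mul, mul_zero, mul_zero, add_zero]
    rcases List.mem_append.1 hc with hc | hc
    · rw [ihb hb hc, zero_mul, mul_zero, zero_mul, mul_zero, add_zero]
    · rw [ihd hd hc, mul_zero, mul_zero, zero_mul, add_zero]
  | dx k h' _ => cases h

/-- the marked place -/
theorem FF_val {k : ℕ} (g : ℕ → R) {T : Tr} (h : T.one k = true) :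
    pg g T = FF g T (g (4 * k + 1) * (pg g (sb T) * g (4 * k + 2))) := by
  induction T with
  | on => cases h
  | lf c => cases h
  | tw a b iha ihb =>
    rcases one_tw h with ⟨ha, hb⟩ | ⟨ha, hb, h1⟩
    · have e : sb (Tr.tw a b) = sb b := by
        rw [sb, ha, cond_true]
      have e2 : FF g (Tr.tw a b) = LR (pg g a) (FF g b) := by
        rw [FF, ha, cond_true]
      rw [e, e2]
      show pg g a * pg g b + pg g b * pg g a = pg g a * FF g b _ + FF g b _ * pg g a
      rw [← ihb hb]
    · have e : sb (Tr.tw a b) = sb a := by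
        rw [sb, ha, cond_false]
      have e2 : FF g (Tr.tw a b) = LR (pg g b) (FF g a) := by
        rw [FF, ha, cond_false]
      rw [e, e2]
      show pg g a * pg g b + pg g b * pg g a = pg g b * FF g a _ + FF g a _ * pg g b
      rw [← iha h1, add_comm]
  | tr a b c iha ihb ihc =>
    rcases one_tr h with ⟨ha, hb, hc⟩ | ⟨ha, hb', hc, hb⟩ | ⟨ha', hb, hc, ha⟩
    · have e : sb (Tr.tr a b c) = sb c := by
        rw [sb, ha, cond_true, hb, cond_true]
      have e2 : FF g (Tr.tr a b c) = (AddMonoidHom.mulLeft (pg g a * pg g b)).comp (FF g c) +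
          (AddMonoidHom.mulRight (pg g b * pg g a)).comp (FF g c) := by
        rw [FF, ha, cond_true, hb, cond_true]
      rw [e, e2]
      show pg g a * (pg g b * pg g c) + pg g c * (pg g b * pg g a) =
        pg g a * pg g b * FF g c _ + FF g c _ * (pg g b * pg g a)
      rw [← ihc hc, mul_assoc]
    · have e : sb (Tr.tr a b c) = sb b := by
        rw [sb, ha, cond_true, hb', cond_false]
      have e2 : FF g (Tr.tr a b c) = (AddMonoidHom.mulLeft (pg g a)).comp
          ((AddMonoidHom.mulRight (pg g c)).comp (FF g b)) +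
          (AddMonoidHom.mulLeft (pg g c)).comp
            ((AddMonoidHom.mulRight (pg g a)).comp (FF g b)) := by
        rw [FF, ha, cond_true, hb', cond_false]
      rw [e, e2]
      show pg g a * (pg g b * pg g c) + pg g c * (pg g b * pg g a) =
        pg g a * (FF g b _ * pg g c) + pg g c * (FF g b _ * pg g a)
      rw [← ihb hb]
    · have e : sb (Tr.tr a b c) = sb a := by
        rw [sb, ha', cond_false]
      have e2 : FF g (Tr.tr a b c) = (AddMonoidHom.mulRight (pg g b * pg g c)).comp (FF g a) +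
        (AddMonoidHom.mulLeft (pg g c * pg g b)).comp (FF g a) := by
        rw [FF, ha', cond_false]
      rw [e, e2]
      show pg g a * (pg g b * pg g c) + pg g c * (pg g b * pg g a) =
        FF g a _ * (pg g b * pg g c) + pg g c * pg g b * FF g a _
      rw [← iha ha, mul_assoc (pg g c)]
  | dx j h' _ =>
    unfold Tr.one at h
    cases hj : Nat.beq j k with
    | true =>
      have e := Nat.eq_of_beq_eq_true hj
      subst e
      rfl
    | false =>
      rw [hj, cond_false] at h
      cases h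

/-- congruence -/
theorem FF_congr {k : ℕ} {g g' : ℕ → R} {T : Tr} (h : T.one k = true)
    (hg : ∀ c ∈ T.out, g c = g' c) : FF g T = FF g' T := by
  induction T with
  | on => rfl
  | lf c => rfl
  | tw a b iha ihb =>
    have hga : ∀ c ∈ a.out, g c = g' c := fun c hc => hg c (List.mem_append_left _ hc)
    have hgb : ∀ c ∈ b.out, g c = g' c := fun c hc => hg c (List.mem_append_right _ hc)
    rcases one_tw h with ⟨ha, hb⟩ | ⟨ha, hb, h1⟩
    · rw [FF, FF, ha, cond_true, cond_true, ihb hb hgb,
        pg_congr ha (by rw [← (pure_facts ha).1]; exact hga)]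
    · rw [FF, FF, ha, cond_false, cond_false, iha h1 hga,
        pg_congr hb (by rw [← (pure_facts hb).1]; exact hgb)]
  | tr a b c iha ihb ihc =>
    have hga : ∀ c ∈ a.out, g c = g' c := fun c hc => hg c (List.mem_append_left _ hc)
    have hgb : ∀ c ∈ b.out, g c = g' c :=
      fun c hc => hg c (List.mem_append_right _ (List.mem_append_left _ hc))
    have hgc : ∀ d ∈ c.out, g d = g' d :=
      fun c hc => hg c (List.mem_append_right _ (List.mem_append_right _ hc))
    rcases one_tr h with ⟨ha, hb, hc⟩ | ⟨ha, hb', hc, hb⟩ | ⟨ha', hb, hc, ha⟩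
    · rw [FF, FF, ha, cond_true, cond_true, hb, cond_true, cond_true, ihc hc hgc,
        pg_congr ha (by rw [← (pure_facts ha).1]; exact hga),
        pg_congr hb (by rw [← (pure_facts hb).1]; exact hgb)]
    · rw [FF, FF, ha, cond_true, cond_true, hb', cond_false, cond_false, ihb hb hgb,
        pg_congr ha (by rw [← (pure_facts ha).1]; exact hga),
        pg_congr hc (by rw [← (pure_facts hc).1]; exact hgc)]
    · rw [FF, FF, ha', cond_false, cond_false, iha ha hga,
        pg_congr hb (by rw [← (pure_facts hb).1]; exact hgb),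
        pg_congr hc (by rw [← (pure_facts hc).1]; exact hgc)]
  | dx j h' _ => rfl

/-- a zero letter outside -/
theorem FF_zero {k : ℕ} {g : ℕ → R} {T : Tr} {c : ℕ} (h : T.one k = true) (hc : c ∈ T.out)
    (hg : g c = 0) : FF g T = 0 := by
  induction T with
  | on => rfl
  | lf c => rfl
  | tw a b iha ihb =>
    rcases one_tw h with ⟨ha, hb⟩ | ⟨ha, hb, h1⟩
    · rw [FF, ha, cond_true]
      rcases List.mem_append.1 hc with hc | hc
      · rw [pg_zero ha (by rw [← (pure_facts ha).1]; exact hc) hg]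
        ext r
        simp [LR]
      · rw [ihb hb hc]
        ext r
        simp [LR]
    · rw [FF, ha, cond_false]
      rcases List.mem_append.1 hc with hc | hc
      · rw [iha h1 hc]
        ext r
        simp [LR]
      · rw [pg_zero hb (by rw [← (pure_facts hb).1]; exact hc) hg]
        ext r
        simp [LR]
  | tr a b d iha ihb ihd =>
    rcases one_tr h with ⟨ha, hb, hd⟩ | ⟨ha, hb', hd, hb⟩ | ⟨ha', hb, hd, ha⟩
    · rw [FF, ha, cond_true, hb, cond_true]
      rcases List.mem_append.1 hc with hc | hc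
      · rw [pg_zero ha (by rw [← (pure_facts ha).1]; exact hc) hg]
        ext r
        simp
      rcases List.mem_append.1 hc with hc | hc
      · rw [pg_zero hb (by rw [← (pure_facts hb).1]; exact hc) hg]
        ext r
        simp
      · rw [ihd hd hc]
        ext r
        simp
    · rw [FF, ha, cond_true, hb', cond_false]
      rcases List.mem_append.1 hc with hc | hc
      · rw [pg_zero ha (by rw [← (pure_facts ha).1]; exact hc) hg]
        ext r
        simp
      rcases List.mem_append.1 hc with hc | hc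
      · rw [ihb hb hc]
        ext r
        simp
      · rw [pg_zero hd (by rw [← (pure_facts hd).1]; exact hc) hg]
        ext r
        simp
    · rw [FF, ha', cond_false]
      rcases List.mem_append.1 hc with hc | hc
      · rw [iha ha hc]
        ext r
        simp
      rcases List.mem_append.1 hc with hc | hc
      · rw [pg_zero hb (by rw [← (pure_facts hb).1]; exact hc) hg]
        ext r
        simp
      · rw [pg_zero hd (by rw [← (pure_facts hd).1]; exact hc) hg]
        ext r
        simp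
  | dx j h' _ => simp [Tr.out] at hc

/-- the boundary of a pure monomial -/
theorem pg_bd (g : ℕ → R) (u : List ℕ) {T : Tr} (h : T.pure = true) :
    pg g (T.bd u) = pg (fun c => g (bl u c)) T := by
  induction T with
  | on => rfl
  | lf c => rfl
  | tw a b iha ihb =>
    obtain ⟨ha, hb⟩ := pure_tw h
    show pg g (a.bd u) * pg g (b.bd u) + pg g (b.bd u) * pg g (a.bd u) = _
    rw [iha ha, ihb hb]
    rfl
  | tr a b c iha ihb ihc =>
    obtain ⟨ha, hb, hc⟩ := pure_tr h
    show pg g (a.bd u) * (pg g (b.bd u) * pg g (c.bd u)) +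
      pg g (c.bd u) * (pg g (b.bd u) * pg g (a.bd u)) = _
    rw [iha ha, ihb hb, ihc hc]
    rfl
  | dx k h' _ => cases h

/-- the boundary -/
theorem FF_bd {k : ℕ} (g : ℕ → R) (u : List ℕ) {T : Tr} (h : T.one k = true) :
    pg g (T.bd u) = FF (fun c => g (bl u c)) T (g (4 * k + 3)) := by
  induction T with
  | on => cases h
  | lf c => cases h
  | tw a b iha ihb =>
    rcases one_tw h with ⟨ha, hb⟩ | ⟨ha, hb, h1⟩
    · rw [FF, ha, cond_true]
      show pg g (a.bd u) * pg g (b.bd u) + pg g (b.bd u) * pg g (a.bd u) = _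
      rw [pg_bd g u ha, ihb hb]
      rfl
    · rw [FF, ha, cond_false]
      show pg g (a.bd u) * pg g (b.bd u) + pg g (b.bd u) * pg g (a.bd u) = _
      rw [pg_bd g u hb, iha h1, add_comm]
      rfl
  | tr a b c iha ihb ihc =>
    rcases one_tr h with ⟨ha, hb, hc⟩ | ⟨ha, hb', hc, hb⟩ | ⟨ha', hb, hc, ha⟩
    · rw [FF, ha, cond_true, hb, cond_true]
      show pg g (a.bd u) * (pg g (b.bd u) * pg g (c.bd u)) +
        pg g (c.bd u) * (pg g (b.bd u) * pg g (a.bd u)) = _
      rw [pg_bd g u ha, pg_bd g u hb, ihc hc, ← mul_assoc]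
      rfl
    · rw [FF, ha, cond_true, hb', cond_false]
      show pg g (a.bd u) * (pg g (b.bd u) * pg g (c.bd u)) +
        pg g (c.bd u) * (pg g (b.bd u) * pg g (a.bd u)) = _
      rw [pg_bd g u ha, pg_bd g u hc, ihb hb]
      rfl
    · rw [FF, ha', cond_false]
      show pg g (a.bd u) * (pg g (b.bd u) * pg g (c.bd u)) +
        pg g (c.bd u) * (pg g (b.bd u) * pg g (a.bd u)) = _
      rw [pg_bd g u hb, pg_bd g u hc, iha ha, ← mul_assoc (pg (fun c => g (bl u c)) c)]
      rfl
  | dx j h' _ =>
    unfold Tr.one at h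
    cases hj : Nat.beq j k with
    | true =>
      have e := Nat.eq_of_beq_eq_true hj
      subst e
      rfl
    | false =>
      rw [hj, cond_false] at h
      cases h

section main

variable {n : ℕ} {J N : AddSubgroup R} (h : BData n J N)
include h

/-- the integer of a pure monomial -/
theorem pure_cst {g : ℕ → R} {m : ℕ → ℤ} (hg : ∀ c, Cst J (g c) (m c)) {T : Tr}
    (hT : T.pure = true) : Cst J (pg g T) (T.sz * (T.lts.map m).prod) := by
  induction T with
  | on =>
    have k1 := Cst.one (R := R) J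
    simpa [pg, Tr.sz, Tr.lts] using k1
  | lf c =>
    simpa [pg, Tr.sz, Tr.lts] using hg c
  | tw a b iha ihb =>
    obtain ⟨ha, hb⟩ := pure_tw hT
    have k1 := h.pair (iha ha) (ihb hb)
    have e : (Tr.tw a b).sz * ((Tr.tw a b).lts.map m).prod =
        2 * (a.sz * (a.lts.map m).prod) * (b.sz * (b.lts.map m).prod) := by
      show 2 * a.sz * b.sz * ((a.lts ++ b.lts).map m).prod = _
      rw [List.map_append, List.prod_append]
      ring
    rw [e]
    exact k1
  | tr a b c iha ihb ihc =>
    obtain ⟨ha, hb, hc⟩ := pure_tr hT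
    have k1 := h.tri (iha ha) (ihb hb) (ihc hc)
    have e : (Tr.tr a b c).sz * ((Tr.tr a b c).lts.map m).prod =
        2 * (a.sz * (a.lts.map m).prod) * (b.sz * (b.lts.map m).prod) *
          (c.sz * (c.lts.map m).prod) := by
      show 2 * a.sz * b.sz * c.sz * ((a.lts ++ (b.lts ++ c.lts)).map m).prod = _
      rw [List.map_append, List.prod_append, List.map_append, List.prod_append]
      ring
    rw [e]
    exact k1
  | dx k h' _ => cases hT

/-- contexts preserve `N` -/
theorem FF_N {g : ℕ → R} {m : ℕ → ℤ} (hg : ∀ c, Cst J (g c) (m c)) {k : ℕ} {T : Tr}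
    (hT : T.one k = true) {r : R} (hr : r ∈ N) : FF g T r ∈ N := by
  induction T with
  | on => cases hT
  | lf c => cases hT
  | tw a b iha ihb =>
    rcases one_tw hT with ⟨ha, hb⟩ | ⟨ha, hb, h1⟩
    · rw [FF, ha, cond_true]
      exact h.cN (pure_cst h hg ha) (ihb hb)
    · rw [FF, ha, cond_false]
      exact h.cN (pure_cst h hg hb) (iha h1)
  | tr a b c iha ihb ihc =>
    rcases one_tr hT with ⟨ha, hb, hc⟩ | ⟨ha, hb', hc, hb⟩ | ⟨ha', hb, hc, ha⟩
    · rw [FF, ha, cond_true, hb, cond_true]
      have k1 := h.cN1 (pure_cst h hg ha) (pure_cst h hg hb) (ihc hc)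
      show pg g a * pg g b * FF g c r + FF g c r * (pg g b * pg g a) ∈ N
      rw [mul_assoc (pg g a)]
      exact k1
    · rw [FF, ha, cond_true, hb', cond_false]
      exact h.cN2 (pure_cst h hg ha) (pure_cst h hg hc) (ihb hb)
    · rw [FF, ha', cond_false]
      have k1 := h.cN1 (pure_cst h hg hc) (pure_cst h hg hb) (iha ha)
      show FF g a r * (pg g b * pg g c) + pg g c * pg g b * FF g a r ∈ N
      rw [mul_assoc (pg g c), add_comm]
      exact k1
  | dx j h' _ => exact hr

theorem val_cst' {X : Fin 5 → R} (hn : 2 ≤ n) (hX : ∀ k, X k ∈ J)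
    (e : Fin 5 → Fin n) (c : ℕ) : Cst J (val n X e c) (mc e c) := by
  have hp : ∀ (k : Fin 5) (i : ℕ), Cst J (X k ^ i) (if i = 0 then 1 else 0) := by
    intro k i
    by_cases hi : i = 0
    · rw [if_pos hi, hi, pow_zero]
      exact Cst.one J
    · rw [if_neg hi]
      obtain ⟨j, rfl⟩ : ∃ j, i = j + 1 := ⟨i - 1, by omega⟩
      exact Cst.mem (h.pow_mem (hX k) j)
  unfold SP.val mc
  by_cases h1 : c % 4 = 1
  · rw [if_pos h1, if_pos h1]
    exact hp _ _
  rw [if_neg h1, if_neg h1]
  by_cases h2 : c % 4 = 2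
  · rw [if_pos h2, if_pos h2]
    exact hp _ _
  rw [if_neg h2, if_neg h2]
  by_cases h3 : (e (ix c) : ℕ) = 0
  · rw [if_pos h3]
    have k1 := hp (ix c) (n - 1)
    rwa [if_neg (by omega)] at k1
  · rw [if_neg h3]
    exact Cst.mem J.zero_mem

omit h in
/-- sums over one exponent, modulo `N` -/
theorem key_N (hn : 0 < n) (k : Fin 5) (F : (Fin 5 → Fin n) → R)
    (h : ∀ e, ∑ i, F (Function.update e k i) ∈ N) : ∑ e, F e ∈ N := by
  rw [← (Fin.insertNthEquiv (fun _ => Fin n) k).sum_comp F, Fintype.sum_prod_type_right]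
  refine N.sum_mem fun e' _ => ?_
  have h1 := h (Fin.insertNth (α := fun _ => Fin n) k (⟨0, hn⟩ : Fin n) e')
  simp only [Fin.update_insertNth] at h1
  exact h1

omit h in
theorem wd_ev (X : Fin 5 → R) (T : Tr) :
    (T.wd.map (ev n X)).sum = ∑ e : Fin 5 → Fin n, pg (val n X e) T := by
  have e1 := list_sum_comm (R := R) (ι := Fin 5 → Fin n) T.wd (fun w e => pw n X e w)
  refine Eq.trans e1 (sum_congr rfl fun e _ => ?_)
  exact wd_sum (val n X e) T

/-- one relation, for fixed other exponents -/
theorem step_e {X : Fin 5 → R} (hn : 2 ≤ n) (hX : ∀ k, X k ∈ J) (T : Tr) {k : ℕ} (hk : k < 5)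
    (h1 : T.one k = true) (ho : okw k T.out = true) (ha : okw k T.arg = true)
    (e : Fin 5 → Fin n) :
    ∑ i, pg (val n X (Function.update e ⟨k, hk⟩ i)) T -
      (T.asz * (T.arg.map (mc e)).prod * n) • FF (val n X e) T (X ⟨k, hk⟩ ^ (n - 1)) ∈ N := by
  rw [okw_iff] at ho ha
  obtain ⟨p1, p2, p3⟩ := one_facts h1
  have e1 : ∀ i : Fin n, pg (val n X (Function.update e ⟨k, hk⟩ i)) T =
      FF (val n X e) T (X ⟨k, hk⟩ ^ (i : ℕ) *
        (pg (val n X e) (sb T) * X ⟨k, hk⟩ ^ (n - 1 - (i : ℕ)))) := by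
    intro i
    rw [FF_val _ h1, FF_congr (g' := val n X e) h1
      (fun c hc => val_update (ix_ne (ho c hc).1 (ho c hc).2.2)),
      pg_congr (g' := val n X e) p1 (fun c hc => by
        rw [p2] at hc
        exact val_update (ix_ne (ha c hc).1 (ha c hc).2.2))]
    have e3 : val n X (Function.update e ⟨k, hk⟩ i) (4 * k + 1) =
        X ⟨k, hk⟩ ^ (i : ℕ) := by
      unfold SP.val
      rw [if_pos (by omega), ix_eq (k := ⟨k, hk⟩) (by show (4 * k + 1) / 4 = k; omega),
        Function.update_self]
    have e4 : val n X (Function.update e ⟨k, hk⟩ i) (4 * k + 2) =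
        X ⟨k, hk⟩ ^ (n - 1 - (i : ℕ)) := by
      unfold SP.val
      rw [if_neg (by omega), if_pos (by omega),
        ix_eq (k := ⟨k, hk⟩) (by show (4 * k + 2) / 4 = k; omega),
        Function.update_self]
    rw [e3, e4]
  rw [sum_congr rfl (fun i _ => e1 i), ← map_sum]
  have hc := pure_cst h (val_cst' h hn hX e) p1
  rw [p2, p3] at hc
  have k1 := h.Dx (by omega) (hX ⟨k, hk⟩) hc
  have k2 := FF_N h (val_cst' h hn hX e) h1 k1
  rw [map_sub, map_zsmul] at k2
  exact k2

/-- RELATIONS WITHOUT BOUNDARY TERM -/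
theorem bsound0 {X : Fin 5 → R} (hn : 2 ≤ n) (hX : ∀ k, X k ∈ J) (T : Tr) {k : ℕ} (hk : k < 5)
    (h1 : T.one k = true) (ho : okw k T.out = true) (ha : okw k T.arg = true)
    (hb : ∃ c ∈ T.arg, c % 4 = 3 ∨ (c % 4 = 1 ∧ c + 1 ∈ T.arg)) :
    (T.wd.map (ev n X)).sum ∈ N := by
  rw [wd_ev]
  refine key_N (by omega) ⟨k, hk⟩ _ fun e => ?_
  have k1 := step_e h hn hX T hk h1 ho ha e
  have e1 : (T.arg.map (mc e)).prod = 0 := by
    obtain ⟨c, hc, h1 | ⟨h1, h2⟩⟩ := hb
    · refine prod_zero hc ?_
      unfold mc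
      rw [if_neg (by omega), if_neg (by omega)]
    · by_cases h3 : (e (ix c) : ℕ) = 0
      · refine prod_zero h2 ?_
        unfold mc
        have e4 : ix (c + 1) = ix c := by
          unfold ix
          refine Fin.ext ?_
          show (c + 1) / 4 % 5 = c / 4 % 5
          have : (c + 1) / 4 = c / 4 := by omega
          rw [this]
        rw [if_neg (by omega), if_pos (by omega), e4, h3, if_neg (by omega)]
      · refine prod_zero hc ?_
        unfold mc
        rw [if_pos h1, if_neg h3]
  rw [e1, mul_zero, zero_mul, zero_smul, sub_zero] at k1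
  exact k1

/-- RELATIONS WITH BOUNDARY TERM -/
theorem bsound1 {X : Fin 5 → R} (hn : 2 ≤ n) (hX : ∀ k, X k ∈ J) (T : Tr) {k : ℕ} (hk : k < 5)
    (h1 : T.one k = true) (ho : okw k T.out = true) (ha : okw k T.arg = true)
    (hb : ∀ c ∈ T.arg, c % 4 = 1 ∧ c + 1 ∈ T.out) :
    (T.wd.map (ev n X)).sum - (T.asz * n) • ((T.bd T.arg).wd.map (ev n X)).sum ∈ N := by
  rw [wd_ev, wd_ev, smul_sum, ← sum_sub_distrib]
  refine key_N (by omega) ⟨k, hk⟩ _ fun e => ?_
  have k1 := step_e h hn hX T hk h1 ho ha e
  rw [sum_sub_distrib, ← smul_sum]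
  rw [okw_iff] at ho ha
  have e1 : ∀ i : Fin n, pg (val n X (Function.update e ⟨k, hk⟩ i)) (T.bd T.arg) =
      FF (fun c => val n X e (bl T.arg c)) T
        (if i = ⟨0, by omega⟩ then X ⟨k, hk⟩ ^ (n - 1) else 0) := by
    intro i
    rw [FF_bd _ _ h1]
    have e3 : val n X (Function.update e ⟨k, hk⟩ i) (4 * k + 3) =
        (if i = ⟨0, by omega⟩ then X ⟨k, hk⟩ ^ (n - 1) else 0) := by
      unfold SP.val
      rw [if_neg (by omega), if_neg (by omega),
        ix_eq (k := ⟨k, hk⟩) (by show (4 * k + 3) / 4 = k; omega),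
        Function.update_self]
      by_cases hi : i = ⟨0, by omega⟩
      · rw [if_pos hi, if_pos (by rw [hi])]
      · rw [if_neg hi, if_neg (fun h' => hi (Fin.ext h'))]
    rw [e3]
    rw [FF_congr (g := fun c => val n X (Function.update e ⟨k, hk⟩ i) (bl T.arg c))
      (g' := fun c => val n X e (bl T.arg c)) h1 (fun c hc => ?_)]
    refine val_update ?_
    obtain ⟨q1, q2, q3⟩ := ho c hc
    unfold bl
    by_cases h4 : c % 4 = 2
    · rw [h4, beq_t, cond_true]
      cases mb (c - 1) T.arg with
      | true =>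
        rw [cond_true]
        refine ix_ne (by omega) ?_
        show (c + 1) / 4 ≠ k
        omega
      | false =>
        rw [cond_false]
        exact ix_ne q1 q3
    · rw [beq_f h4, cond_false]
      exact ix_ne q1 q3
  have e1s : ∑ i : Fin n, pg (SP.val n X (Function.update e ⟨k, hk⟩ i)) (T.bd T.arg) =
      FF (fun c => SP.val n X e (bl T.arg c)) T (X ⟨k, hk⟩ ^ (n - 1)) := by
    rw [sum_congr rfl (fun i _ => e1 i), ← map_sum, sum_ite_eq', if_pos (mem_univ _)]
  rw [e1s]
  have e2 : (T.asz * (T.arg.map (mc e)).prod * n) • FF (val n X e) T (X ⟨k, hk⟩ ^ (n - 1)) =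
      (T.asz * n) • FF (fun c => val n X e (bl T.arg c)) T (X ⟨k, hk⟩ ^ (n - 1)) := by
    by_cases hz : ∀ c ∈ T.arg, (e (ix c) : ℕ) = 0
    · have e3 : (T.arg.map (mc e)).prod = 1 := by
        have e4 : T.arg.map (mc e) = T.arg.map (fun _ => (1 : ℤ)) := by
          refine List.map_congr_left fun c hc => ?_
          unfold mc
          rw [if_pos (hb c hc).1, if_pos (hz c hc)]
        rw [e4, List.map_const', List.prod_replicate, one_pow]
      rw [e3, mul_one, FF_congr (g := val n X e) (g' := fun c => val n X e (bl T.arg c)) h1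
        (fun c _ => ?_)]
      symm
      show val n X e (bl T.arg c) = val n X e c
      unfold bl
      by_cases h4 : c % 4 = 2
      · rw [h4, beq_t, cond_true]
        cases h5 : mb (c - 1) T.arg with
        | true =>
          rw [cond_true]
          have h6 := mb_iff.1 h5
          have e6 : ix (c + 1) = ix (c - 1) := by
            unfold ix
            refine Fin.ext ?_
            show (c + 1) / 4 % 5 = (c - 1) / 4 % 5
            have : (c + 1) / 4 = (c - 1) / 4 := by omega
            rw [this]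
          have e7 : ix c = ix (c - 1) := by
            unfold ix
            refine Fin.ext ?_
            show c / 4 % 5 = (c - 1) / 4 % 5
            have : c / 4 = (c - 1) / 4 := by omega
            rw [this]
          unfold SP.val
          rw [if_neg (by omega), if_neg (by omega), e6, if_pos (hz _ h6), if_neg (by omega),
            if_pos h4, e7, hz _ h6, Nat.sub_zero]
        | false => rw [cond_false]
      · rw [beq_f h4, cond_false]
    · push_neg at hz
      obtain ⟨c, hc, hc0⟩ := hz
      have h1' := hb c hc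
      have e3 : (T.arg.map (mc e)).prod = 0 := by
        refine prod_zero hc ?_
        unfold mc
        rw [if_pos h1'.1, if_neg hc0]
      have e4 : val n X e (bl T.arg (c + 1)) = 0 := by
        unfold bl
        have h2 : (c + 1) % 4 = 2 := by omega
        rw [h2, beq_t, cond_true, Nat.add_sub_cancel, mb_iff.2 hc, cond_true]
        have e5 : ix (c + 1 + 1) = ix c := by
          unfold ix
          refine Fin.ext ?_
          show (c + 1 + 1) / 4 % 5 = c / 4 % 5
          have : (c + 1 + 1) / 4 = c / 4 := by omega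
          rw [this]
        unfold SP.val
        rw [if_neg (by omega), if_neg (by omega), e5, if_neg hc0]
      rw [e3, mul_zero, zero_mul, zero_smul,
        FF_zero (g := fun c => val n X e (bl T.arg c)) h1 h1'.2 e4]
      simp
  rw [← e2]
  exact k1

end main

end Pool.Agent.H.MP_e16c79_al.IS
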