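import Pool.Agent.H.MP_e16c79_al.IS.BCode

/-!
# MP_e16c79_al: the two groups
-/

set_option autoImplicit false

namespace Pool.Agent.H.MP_e16c79_al.IS

open Finset SP

/-- a table from a group of permutations with a character -/
theorem Tab.of {ι : Type*} [Fintype ι] {g : ι → Equiv.Perm (Fin 5)} {χ : ι → ℤ} {tb m : ℕ}
    (hg : Function.Injective g) (hm : ∀ j j0, ∃ l, g l = g j * g j0 ∧ χ l = χ j * χ j0)
    (hχ : ∀ j, χ j * χ j = 1)
    (he : ∀ i < m, ∃ j0, Okp (ent tb i) (g j0) ∧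
      (if Nat.beq (ent tb i / 262144) 1 = true then (-1 : ℤ) else 1) = χ j0) :
    Tab tb m g χ := by
  intro i hi
  obtain ⟨j0, h1, h2⟩ := he i hi
  refine ⟨g j0, h1, exE hg ?_⟩
  intro j
  obtain ⟨l, hl, hl2⟩ := hm j j0
  refine ⟨l, hl, ?_⟩
  rw [h2, hl2, mul_comm (χ j), ← mul_assoc, hχ, one_mul]

/-- decidable form of `Okp` -/
def okpB (p : ℕ) (s : Equiv.Perm (Fin 5)) : Bool :=
  Nat.beq (p % 8) 0 && (Nat.beq (p / 8 ^ 1 % 8) (s 0 + 1) && (Nat.beq (p / 8 ^ 2 % 8) (s 1 + 1) &&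
    (Nat.beq (p / 8 ^ 3 % 8) (s 2 + 1) && (Nat.beq (p / 8 ^ 4 % 8) (s 3 + 1) &&
    Nat.beq (p / 8 ^ 5 % 8) (s 4 + 1)))))

theorem okpB_iff {p : ℕ} {s : Equiv.Perm (Fin 5)} (h : okpB p s = true) : Okp p s := by
  unfold okpB at h
  rw [Bool.and_eq_true, Bool.and_eq_true, Bool.and_eq_true, Bool.and_eq_true,
    Bool.and_eq_true] at h
  obtain ⟨h0, h1, h2, h3, h4, h5⟩ := h
  refine ⟨Nat.eq_of_beq_eq_true h0, ?_⟩
  intro d hd
  have : d = 0 ∨ d = 1 ∨ d = 2 ∨ d = 3 ∨ d = 4 := by omega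
  rcases this with rfl | rfl | rfl | rfl | rfl
  · exact Nat.eq_of_beq_eq_true h1
  · exact Nat.eq_of_beq_eq_true h2
  · exact Nat.eq_of_beq_eq_true h3
  · exact Nat.eq_of_beq_eq_true h4
  · exact Nat.eq_of_beq_eq_true h5

/-- the affine permutations `k -> a k + b` modulo 5, `i = 5 (a - 1) + b` -/
def gF (i : Fin 20) : Equiv.Perm (Fin 5) where
  toFun k := ⟨(((i : ℕ) / 5 + 1) * (k : ℕ) + (i : ℕ) % 5) % 5, Nat.mod_lt _ (by norm_num)⟩
  invFun k := ⟨(((i : ℕ) / 5 + 1) ^ 3 * ((k : ℕ) + 5 - (i : ℕ) % 5)) % 5,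
    Nat.mod_lt _ (by norm_num)⟩
  left_inv := by
    revert i
    decide +kernel
  right_inv := by
    revert i
    decide +kernel

/-- the product in `gF` -/
def mF (i j : Fin 20) : Fin 20 :=
  ⟨(5 * ((((i : ℕ) / 5 + 1) * ((j : ℕ) / 5 + 1)) % 5 - 1) +
    (((i : ℕ) / 5 + 1) * ((j : ℕ) % 5) + (i : ℕ) % 5) % 5) % 20, Nat.mod_lt _ (by norm_num)⟩

theorem gF_mul (i j : Fin 20) : gF (mF i j) = gF i * gF j := by
  refine Equiv.ext ?_
  revert i j
  decide +kernel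

theorem gF_inj : Function.Injective gF := by
  have h : ∀ i j : Fin 20, gF i 0 = gF j 0 → gF i 1 = gF j 1 → i = j := by decide +kernel
  intro i j hij
  exact h i j (by rw [hij]) (by rw [hij])

/-- `S_3 x S_2`; `i = 6 e + 2 r + s`: `k -> r + k` or `r - k` modulo 3 (`e = 0, 1`) on `0, 1, 2`,
the transposition of `3, 4` if `s = 1` -/
def gSf (i k : ℕ) : ℕ :=
  bif Nat.blt k 3 then (bif Nat.beq (i / 6) 0 then (i / 2 % 3 + k) % 3 else (i / 2 % 3 + 3 - k) % 3)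
  else (bif Nat.beq (i % 2) 0 then k else 7 - k)

/-- the inverse index -/
def iS (i : ℕ) : ℕ := bif Nat.beq (i / 6) 0 then 2 * ((3 - i / 2 % 3) % 3) + i % 2 else i

/-- the group `S_3 x S_2` -/
def gS (i : Fin 12) : Equiv.Perm (Fin 5) where
  toFun k := ⟨gSf i k % 5, Nat.mod_lt _ (by norm_num)⟩
  invFun k := ⟨gSf (iS i) k % 5, Nat.mod_lt _ (by norm_num)⟩
  left_inv := by
    revert i
    decide +kernel
  right_inv := by
    revert i
    decide +kernel

/-- the character of `gS` -/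
def cS (i : Fin 12) : ℤ := bif Nat.beq ((i : ℕ) % 2) 0 then 1 else -1

theorem gS_mul (i j : Fin 12) : ∃ l, gS l = gS i * gS j ∧ cS l = cS i * cS j := by
  have h : ∀ i j : Fin 12, ∃ l : Fin 12, (∀ k, gS l k = gS i (gS j k)) ∧ cS l = cS i * cS j := by
    decide +kernel
  obtain ⟨l, h1, h2⟩ := h i j
  exact ⟨l, Equiv.ext h1, h2⟩

theorem gS_inj : Function.Injective gS := by
  have h : ∀ i j : Fin 12, gS i 0 = gS j 0 → gS i 1 = gS j 1 → gS i 3 = gS j 3 → i = j := by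
    decide +kernel
  intro i j hij
  exact h i j (by rw [hij]) (by rw [hij]) (by rw [hij])

theorem Tab.ofF {tb m : ℕ} (h : ∀ i < m, ∃ j0 : Fin 20, (okpB (ent tb i) (gF j0) &&
    !(Nat.beq (ent tb i / 262144) 1)) = true) : Tab tb m gF (fun _ => 1) := by
  refine Tab.of gF_inj (fun i j => ⟨mF i j, gF_mul i j, by norm_num⟩) (fun _ => by norm_num) ?_
  intro i hi
  obtain ⟨j0, h1⟩ := h i hi
  rw [Bool.and_eq_true, Bool.not_eq_true'] at h1
  refine ⟨j0, okpB_iff h1.1, ?_⟩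
  rw [h1.2]
  rfl

theorem Tab.ofS {tb m : ℕ} (h : ∀ i < m, ∃ j0 : Fin 12, (okpB (ent tb i) (gS j0) &&
    (Nat.beq (ent tb i / 262144) 1 == Nat.beq ((j0 : ℕ) % 2) 1)) = true) : Tab tb m gS cS := by
  refine Tab.of gS_inj gS_mul (by decide +kernel) ?_
  intro i hi
  obtain ⟨j0, h1⟩ := h i hi
  rw [Bool.and_eq_true, beq_iff_eq] at h1
  refine ⟨j0, okpB_iff h1.1, ?_⟩
  rw [h1.2]
  have : ∀ j0 : Fin 12, (if Nat.beq ((j0 : ℕ) % 2) 1 = true then (-1 : ℤ) else 1) = cS j0 := by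
    decide +kernel
  exact this j0

/-- helper3's table of the group `gF` -/
def tbF : ℕ :=
  105381062908426283897727706968408023005908215074181450641623001103249152946535016000444512832948381539831275379159647880

/-- a table of the group `gS` -/
def tbS : ℕ :=
  698195509488979108056450115530639800428032320599837937256510836378355336

theorem tabF : Tab tbF 20 gF (fun _ => 1) := by
  refine Tab.ofF fun i hi => ⟨⟨i, hi⟩, ?_⟩
  have h : ∀ i : Fin 20, (okpB (ent tbF i) (gF i) && !(Nat.beq (ent tbF i / 262144) 1)) = true := by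
    decide +kernel
  exact h ⟨i, hi⟩

theorem tabS : Tab tbS 12 gS cS := by
  refine Tab.ofS fun i hi => ?_
  have h : ∀ i : Fin 12, ∃ j0 : Fin 12, (okpB (ent tbS i) (gS j0) &&
      (Nat.beq (ent tbS i / 262144) 1 == Nat.beq ((j0 : ℕ) % 2) 1)) = true := by
    decide +kernel
  exact h ⟨i, hi⟩

end Pool.Agent.H.MP_e16c79_al.IS
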