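import Pool.Agent.H.MP_e16c79_al.IS.BTab

/-!
# MP_e16c79_al: another table of the group of order 12
-/

set_option autoImplicit false

namespace Pool.Agent.H.MP_e16c79_al.IS

/-- a table of the group `gS` (order of the certificate `E`) -/
def tbE : ℕ :=
  698195885383925048344670464741226850628947860295802811763160588002444936

theorem tabE : Tab tbE 12 gS cS := by
  refine Tab.ofS fun i hi => ?_
  have h : ∀ i : Fin 12, ∃ j0 : Fin 12, (okpB (ent tbE i) (gS j0) &&
      (Nat.beq (ent tbE i / 262144) 1 == Nat.beq ((j0 : ℕ) % 2) 1)) = true := by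
    decide +kernel
  exact h ⟨i, hi⟩

end Pool.Agent.H.MP_e16c79_al.IS
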