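import Pool.Agent.H.MP_e16c79_al.IS.PassK
import Pool.Agent.H.MP_e16c79_al.IS.BSound

/-!
# MP_e16c79_al: the span of the powers is an ideal
-/

set_option autoImplicit false

namespace Pool.Agent.H.MP_e16c79_al.IS

open Finset SP

universe u v

/-- the `(m - 1)`-th power -/
def pwr {S : Type v} [NonUnitalNonAssocCommRing S] (m : ℕ) (x : S) : S := (fun y => x * y)^[m - 2] x

variable {S : Type v} [NonUnitalNonAssocCommRing S] {R : Type u} [Ring R] {M : ℤ} {m : ℕ}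
  {K : AddSubgroup S} {ψ : S →+ R} {J N : AddSubgroup R}

theorem PD.pwr_eq (h : PD M m K ψ J N) (hm : 2 ≤ m) (x : S) : ψ (pwr m x) = ψ x ^ (m - 1) := by
  unfold pwr
  rw [h.pow]
  congr 1
  omega

theorem PD.ideal (h : PD M m K ψ J N) (hm : 2 ≤ m) (x y : S) :
    pwr m x * y ∈ sa M (K ⊔ AddSubgroup.closure (Set.range (pwr (S := S) m))) := by
  set T := sa M (K ⊔ AddSubgroup.closure (Set.range (pwr (S := S) m))) with hT
  have hTK : K ≤ T := le_sup_left.trans (le_sa M _)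
  have hTp : ∀ a, pwr m a ∈ T := fun a =>
    le_sa M _ ((le_sup_right : AddSubgroup.closure (Set.range (pwr (S := S) m)) ≤ _)
      (AddSubgroup.subset_closure ⟨a, rfl⟩))
  set W := sat M (N ⊔ T.map ψ) with hW
  have hWN : N ≤ W := le_sup_left.trans (le_sat M _)
  have hWT : ∀ t ∈ T, ψ t ∈ W := fun t ht =>
    le_sat M _ ((le_sup_right : T.map ψ ≤ _) ⟨t, ht, rfl⟩)
  have hWs : ∀ d : ℕ, 1 ≤ d → d ≤ m → ∀ r : R, (d : ℤ) • r ∈ W → r ∈ W := by
    intro d h1 h2 r hr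
    obtain ⟨e, he⟩ := Nat.dvd_factorial h1 h2
    obtain ⟨f, hf⟩ := h.dvd
    refine sat_sat 1 ?_
    have e1 : M ^ 1 • r = (f * 2 * e : ℤ) • ((d : ℤ) • r) := by
      rw [pow_one, ← mul_smul, hf, he]
      congr 1
      push_cast
      ring
    rw [e1]
    exact W.zsmul_mem hr _
  -- the linearised power
  have hcf : ∀ v : S, ∑ p ∈ antidiagonal (m - 2), ψ x ^ p.1 * ψ v * ψ x ^ p.2 ∈ W := by
    intro v
    rw [← HS.cf_one]
    have e0 : m - 2 + 1 = m - 1 := by omega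
    rw [e0]
    have key := HS.vand (M := R ⧸ W) (m - 1) (by
      intro d h1 h2 r hr
      obtain ⟨w, rfl⟩ := QuotientAddGroup.mk_surjective r
      rw [← QuotientAddGroup.mk_zsmul, QuotientAddGroup.eq_zero_iff] at hr
      rw [QuotientAddGroup.eq_zero_iff]
      exact hWs d h1 (by omega) w hr)
      (fun k => QuotientAddGroup.mk (HS.cf (ψ x) (ψ v) (m - 1) k)) (by
      intro i
      have e := HS.cf_sum (ψ x) (ψ v) (m - 1) ((i : ℕ) : ℤ)
      rw [← Fin.sum_univ_eq_sum_range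
        (fun k => (((i : ℕ) : ℤ)) ^ k • HS.cf (ψ x) (ψ v) (m - 1) k)] at e
      have e2 := congrArg (QuotientAddGroup.mk' W) e
      rw [map_sum] at e2
      simp only [map_zsmul] at e2
      refine e2.symm.trans ?_
      rw [QuotientAddGroup.mk'_apply, QuotientAddGroup.eq_zero_iff]
      have e3 : ψ x + ((i : ℕ) : ℤ) • ψ v = ψ (x + ((i : ℕ) : ℤ) • v) := by
        rw [map_add, map_zsmul]
      rw [e3, ← h.pwr_eq hm]
      exact hWT _ (hTp _)) ⟨1, by omega⟩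
    exact (QuotientAddGroup.eq_zero_iff _).1 key
  have h1 := hcf ((2 : ℤ) • (x * y))
  rw [map_zsmul, h.jor] at h1
  have h2 := hWN (h.data.lin (by omega) (h.mem x) (h.mem y))
  have h3 : ψ x ^ (m - 1) * ψ y + ψ y * ψ x ^ (m - 1) =
      (2 : ℤ) • ∑ p ∈ antidiagonal (m - 1), ψ x ^ p.1 * ψ y * ψ x ^ p.2 -
        ∑ p ∈ antidiagonal (m - 2), ψ x ^ p.1 * (ψ x * ψ y + ψ y * ψ x) * ψ x ^ p.2 := by
    obtain ⟨m', rfl⟩ : ∃ m', m = m' + 2 := ⟨m - 2, by omega⟩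
    rw [show m' + 2 - 1 = m' + 1 by omega, show m' + 2 - 2 = m' by omega]
    have e1 : ∑ p ∈ antidiagonal m', ψ x ^ p.1 * (ψ x * ψ y + ψ y * ψ x) * ψ x ^ p.2 =
        ∑ p ∈ antidiagonal m', ψ x ^ (p.1 + 1) * ψ y * ψ x ^ p.2 +
          ∑ p ∈ antidiagonal m', ψ x ^ p.1 * ψ y * ψ x ^ (p.2 + 1) := by
      rw [← sum_add_distrib]
      refine sum_congr rfl fun p _ => ?_
      rw [pow_succ (ψ x) p.1, pow_succ' (ψ x) p.2]
      noncomm_ring
    have e2 := Finset.Nat.sum_antidiagonal_succ (n := m')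
      (f := fun p => ψ x ^ p.1 * ψ y * ψ x ^ p.2)
    have e3 := Finset.Nat.sum_antidiagonal_succ' (n := m')
      (f := fun p => ψ x ^ p.1 * ψ y * ψ x ^ p.2)
    simp only [pow_zero, one_mul, mul_one] at e2 e3
    rw [two_smul]
    nth_rewrite 1 [e2]
    rw [e3, e1]
    abel
  have h4 : (2 : ℤ) • ψ (pwr m x * y) ∈ W := by
    rw [h.jor, h.pwr_eq hm, h3]
    exact W.sub_mem (W.zsmul_mem h2 _) h1
  have h5 : ψ (pwr m x * y) ∈ W := hWs 2 (by omega) hm _ h4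
  obtain ⟨k, hk⟩ := h5
  obtain ⟨a, ha, b, hb, hab⟩ := AddSubgroup.mem_sup.1 hk
  obtain ⟨t, ht, rfl⟩ := hb
  have h6 : (M ^ k) • (pwr m x * y) - t ∈ K := by
    refine h.ker _ ?_
    rw [map_sub, map_zsmul, ← hab, add_sub_cancel_right]
    exact ha
  have h7 : (M ^ k) • (pwr m x * y) ∈ T := by
    have h8 := T.add_mem (hTK h6) ht
    rwa [sub_add_cancel] at h8
  exact pow_of (fun r hr => sa_of hr) k _ h7

end Pool.Agent.H.MP_e16c79_al.IS
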