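import Pool.Agent.H.MP_e16c79_al.IS.WPol
import Pool.Agent.H.MP_e16c79_al.IS.IdealK

/-!
# MP_e16c79_al: from the relations between words to the identities on the powers
-/

set_option autoImplicit false

namespace Pool.Agent.H.MP_e16c79_al.IS

open Finset SP

universe u v

namespace Wp

section

variable {R : Type*} [Ring R] {Y : ℕ → R}

theorem vl_F0 {a b c d e : Wp} {a' b' c' d' e' : St R} (va : Vl Y a a') (vb : Vl Y b b')
    (vc : Vl Y c c') (vd : Vl Y d d') (ve : Vl Y e e') :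
    Vl Y (F0 a b c d e) (F0 a' b' c' d' e') := by
  unfold F0
  exact (((((va.mul (vb.mul (vc.mul (vd.mul ve)))).smul 130).sub
    ((va.mul (vb.mul (vd.mul (vc.mul ve)))).smul 38)).sub
    ((va.mul (vb.mul (ve.mul (vc.mul vd)))).smul 92)).sub
    ((va.mul ((vb.mul vc).mul (vd.mul ve))).smul 21)).add
    (((va.mul vb).mul (vd.mul (vc.mul ve))).smul 21)

theorem vl_asc {a b c : Wp} {a' b' c' : St R} (va : Vl Y a a') (vb : Vl Y b b')
    (vc : Vl Y c c') : Vl Y (asc a b c) (asc a' b' c') := by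
  unfold asc
  exact ((va.mul vb).mul vc).sub (va.mul (vb.mul vc))

theorem vl_U {a b c : Wp} {a' b' c' : St R} (va : Vl Y a a') (vb : Vl Y b b')
    (vc : Vl Y c c') : Vl Y (U a b c) (U a' b' c') := by
  unfold U
  exact ((va.mul (vc.mul vb)).add (vc.mul (va.mul vb))).sub ((va.mul vc).mul vb)

variable {M : Type*} [AddCommGroup M]

theorem rv_F0 {a b c d e : Wp} (va : Rv M a) (vb : Rv M b) (vc : Rv M c) (vd : Rv M d)
    (ve : Rv M e) : Rv M (F0 a b c d e) := by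
  unfold F0
  exact (((((va.mul (vb.mul (vc.mul (vd.mul ve)))).smul 130).sub
    ((va.mul (vb.mul (vd.mul (vc.mul ve)))).smul 38)).sub
    ((va.mul (vb.mul (ve.mul (vc.mul vd)))).smul 92)).sub
    ((va.mul ((vb.mul vc).mul (vd.mul ve))).smul 21)).add
    (((va.mul vb).mul (vd.mul (vc.mul ve))).smul 21)

theorem rv_asc {a b c : Wp} (va : Rv M a) (vb : Rv M b) (vc : Rv M c) : Rv M (asc a b c) := by
  unfold asc
  exact ((va.mul vb).mul vc).sub (va.mul (vb.mul vc))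

theorem rv_U {a b c : Wp} (va : Rv M a) (vb : Rv M b) (vc : Rv M c) : Rv M (U a b c) := by
  unfold U
  exact ((va.mul (vc.mul vb)).add (vc.mul (va.mul vb))).sub ((va.mul vc).mul vb)

end

/-- the words of 16 times `F0` -/
def gV : Wp := F0 (w 0) (w 1) (w 2) (w 3) (w 4)

/-- the words of 16 times one term of `E1` -/
def gE : Wp := U (w 0) (asc (w 3) (w 1) (w 4)) (w 2)

theorem five_V : gV.five = true := by decide +kernel

theorem five_E : gE.five = true := by decide +kernel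

theorem rv_V (M : Type*) [AddCommGroup M] : Rv M gV :=
  rv_F0 (Rv.var 0) (Rv.var 1) (Rv.var 2) (Rv.var 3) (Rv.var 4)

theorem rv_E (M : Type*) [AddCommGroup M] : Rv M gE :=
  rv_U (Rv.var 0) (rv_asc (Rv.var 3) (Rv.var 1) (Rv.var 4)) (Rv.var 2)

end Wp

section blk

variable {S : Type v} [NonUnitalNonAssocCommRing S] {R : Type u} [Ring R] {M : ℤ} {m : ℕ}
  {K : AddSubgroup S} {ψ : S →+ R} {J N : AddSubgroup R}

/-- a natural number as a letter -/
abbrev l5 (k : ℕ) : Fin 5 := ⟨k % 5, Nat.mod_lt _ (by norm_num)⟩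

theorem val_V (h : PD M m K ψ J N) (y : Fin 5 → S) :
    Wp.ev (fun u => (u.map (fun k => ψ (y (l5 k)))).prod) Wp.gV =
      (16 : ℤ) • ψ (F0 (y 0) (y 1) (y 2) (y 3) (y 4)) := by
  have h1 := Wp.vl_F0 (Y := fun k => ψ (y (l5 k))) (Wp.Vl.var 0) (Wp.Vl.var 1) (Wp.Vl.var 2)
    (Wp.Vl.var 3) (Wp.Vl.var 4)
  have h2 := hm_F0 h.jor (Hm.var (ψ := ψ) (y 0)) (Hm.var (y 1)) (Hm.var (y 2)) (Hm.var (y 3))
    (Hm.var (y 4))
  have h3 : (16 : ℤ) • ψ (F0 (y 0) (y 1) (y 2) (y 3) (y 4)) =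
      (F0 (⟨ψ (y 0)⟩ : St R) ⟨ψ (y 1)⟩ ⟨ψ (y 2)⟩ ⟨ψ (y 3)⟩ ⟨ψ (y 4)⟩).v := by
    rw [← h2]
    norm_num
  rw [h3]
  exact h1

theorem val_E (h : PD M m K ψ J N) (y : Fin 5 → S) :
    Wp.ev (fun u => (u.map (fun k => ψ (y (l5 k)))).prod) Wp.gE =
      (16 : ℤ) • ψ (U (y 0) (asc (y 3) (y 1) (y 4)) (y 2)) := by
  have h1 := Wp.vl_U (Y := fun k => ψ (y (l5 k))) (Wp.Vl.var 0)
    (Wp.vl_asc (Wp.Vl.var 3) (Wp.Vl.var 1) (Wp.Vl.var 4)) (Wp.Vl.var 2)
  have h2 := hm_P5 h.jor (Hm.var (ψ := ψ) (y 0)) (Hm.var (y 1)) (Hm.var (y 2)) (Hm.var (y 3))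
    (Hm.var (y 4))
  have h3 : (16 : ℤ) • ψ (U (y 0) (asc (y 3) (y 1) (y 4)) (y 2)) =
      (U (⟨ψ (y 0)⟩ : St R) (asc ⟨ψ (y 3)⟩ ⟨ψ (y 1)⟩ ⟨ψ (y 4)⟩) ⟨ψ (y 2)⟩).v := by
    rw [← h2]
    norm_num
  rw [h3]
  exact h1

/-- From a relation between the values `F` to the relation on the powers in `S`, modulo `N`. -/
theorem PD.blkN (h : PD M m K ψ J N) (hm : 2 ≤ m) (x : Fin 5 → S) {G : Wp} (hG : G.five = true)
    (hr : Wp.Rv (R ⧸ N) G) (Gs : (Fin 5 → S) → S)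
    (hV : ∀ y : Fin 5 → S, Wp.ev (fun u => (u.map (fun k => ψ (y (l5 k)))).prod) G =
      (16 : ℤ) • ψ (Gs y))
    {ι : Type*} [Fintype ι] (g : ι → Equiv.Perm (Fin 5)) (χ : ι → ℤ) (d : ℤ)
    (hd : ∃ k : ℕ, d ∣ ((2 * m.factorial : ℕ) : ℤ) ^ k)
    (hc : d • Wp.ev (F m (QuotientAddGroup.mk' N) (fun k => ψ (x k)) g χ) G = 0) :
    ψ (∑ i, χ i • Gs (fun k => pwr m (x (g i k)))) ∈ N := by
  set φ := QuotientAddGroup.mk' N with hφ
  have hlt : ∀ a ∈ G.l, ∀ k ∈ a.2, k < 5 := by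
    intro a ha k hk
    have h1 := (Wp.five_iff hG a ha).mem_iff.1 hk
    simp only [List.mem_cons, List.not_mem_nil, or_false] at h1
    omega
  have e1 : Wp.ev (F m φ (fun k => ψ (x k)) g χ) G =
      ∑ i, χ i • ((2 : ℤ) • φ ((16 : ℤ) • ψ (Gs (fun k => pwr m (x (g i k)))))) := by
    show Wp.ev (fun u => ∑ i : ι, χ i • (E m φ (fun k => ψ (x k)) (u.map (rl (g i))) +
      E m φ (fun k => ψ (x k)) (u.map (rl (g i))).reverse)) G = _
    rw [Wp.ev_sum]
    refine sum_congr rfl fun i _ => ?_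
    have e2 : Wp.ev (fun u => E m φ (fun k => ψ (x k)) (u.map (rl (g i)))) G =
        φ ((16 : ℤ) • ψ (Gs (fun k => pwr m (x (g i k))))) := by
      rw [← hV, ← Wp.ev_map]
      refine Wp.ev_congr fun a ha => ?_
      rw [E_rl φ _ (g i) (hlt a ha)]
      unfold E
      rw [ev_blocks (by omega) _ (Wp.five_iff hG a ha)]
      congr 2
      refine List.map_congr_left fun k _ => ?_
      rw [h.pwr_eq hm]
      rfl
    have e3 : Wp.ev (fun u => E m φ (fun k => ψ (x k)) (u.map (rl (g i))).reverse) G =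
        φ ((16 : ℤ) • ψ (Gs (fun k => pwr m (x (g i k))))) := by
      rw [← e2, ← hr (fun u => E m φ (fun k => ψ (x k)) (u.map (rl (g i))))]
      congr 1
      funext u
      rw [List.map_reverse]
    have e4 := Wp.ev_map (M := R ⧸ N)
      ((χ i) • AddMonoidHom.id (R ⧸ N)) (fun u => E m φ (fun k => ψ (x k)) (u.map (rl (g i))) +
      E m φ (fun k => ψ (x k)) (u.map (rl (g i))).reverse) G
    have e5 : Wp.ev (fun u => χ i • (E m φ (fun k => ψ (x k)) (u.map (rl (g i))) +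
        E m φ (fun k => ψ (x k)) (u.map (rl (g i))).reverse)) G =
        χ i • Wp.ev (fun u => E m φ (fun k => ψ (x k)) (u.map (rl (g i))) +
          E m φ (fun k => ψ (x k)) (u.map (rl (g i))).reverse) G := e4
    rw [e5, Wp.ev_fadd, e2, e3, two_zsmul]
  set s := ∑ i, χ i • Gs (fun k => pwr m (x (g i k))) with hs
  have e6 : φ ((d * 32) • ψ s) = 0 := by
    rw [e1] at hc
    rw [← hc, hs, map_sum, smul_sum, map_sum, smul_sum]
    refine sum_congr rfl fun i _ => ?_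
    rw [map_zsmul, map_zsmul, map_zsmul, map_zsmul, ← mul_smul, ← mul_smul, ← mul_smul,
      ← mul_smul]
    congr 1
    ring
  have e7 : (d * 32) • ψ s ∈ N := (QuotientAddGroup.eq_zero_iff _).1 e6
  obtain ⟨k, f, hf⟩ := hd
  have h2 : ∀ (j : ℕ) (r : R), (((2 * m.factorial : ℕ) : ℤ) ^ j) • r ∈ N → r ∈ N := by
    intro j
    induction j with
    | zero =>
      intro r hr
      simpa using hr
    | succ j ih =>
      intro r hr
      refine ih r (h.data.sn _ ?_)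
      rw [← mul_smul, ← pow_succ']
      exact hr
  refine h2 (k + 5) _ ?_
  have e8 : ((2 * m.factorial : ℕ) : ℤ) ^ (k + 5) = (f * (m.factorial : ℤ) ^ 5) * (d * 32) := by
    rw [pow_add, hf]
    push_cast
    ring
  rw [e8, mul_smul]
  exact N.zsmul_mem e7 _

/-- From a relation between the values `F` to the relation on the powers in `S`. -/
theorem PD.blk (h : PD M m K ψ J N) (hm : 2 ≤ m) (x : Fin 5 → S) {G : Wp} (hG : G.five = true)
    (hr : Wp.Rv (R ⧸ N) G) (Gs : (Fin 5 → S) → S)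
    (hV : ∀ y : Fin 5 → S, Wp.ev (fun u => (u.map (fun k => ψ (y (l5 k)))).prod) G =
      (16 : ℤ) • ψ (Gs y))
    {ι : Type*} [Fintype ι] (g : ι → Equiv.Perm (Fin 5)) (χ : ι → ℤ) (d : ℤ)
    (hd : ∃ k : ℕ, d ∣ ((2 * m.factorial : ℕ) : ℤ) ^ k)
    (hc : d • Wp.ev (F m (QuotientAddGroup.mk' N) (fun k => ψ (x k)) g χ) G = 0) :
    ∑ i, χ i • Gs (fun k => pwr m (x (g i k))) ∈ K :=
  h.ker _ (h.blkN hm x hG hr Gs hV g χ d hd hc)

end blk

end Pool.Agent.H.MP_e16c79_al.IS
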