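import Pool.Agent.H.MP_e16c79_al.IS.BCode
import Pool.Agent.H.MP_e16c79_al.IS.BlkG

/-!
# MP_e16c79_al: the target of the certificate
-/

set_option autoImplicit false

namespace Pool.Agent.H.MP_e16c79_al.IS

open Finset SP

/-- adding the words of a sum of words, times `d` -/
def gad (tb : ℕ) (d : List ℤ) : List (ℤ × List ℕ) → List ℕ → AL → AL
  | [], _, s => s
  | a :: l, gs, s =>
    match gs with
    | [] => s
    | g :: gs' => adw tb (psm a.1 d) (psm (-a.1) d) [enc8 a.2] [g] (gad tb d l gs' s)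

/-- the group codes are correct -/
def gok (tb m : ℕ) : List (ℤ × List ℕ) → List ℕ → Bool
  | [], gs => match gs with
    | [] => true
    | _ :: _ => false
  | a :: l, gs =>
    match gs with
    | [] => false
    | g :: gs' => bif okg tb m [enc8 a.2] [g] then gok tb m l gs' else false

variable {R : Type*} [Ring R] {n : ℕ} {M : Type*} [AddCommGroup M] {φ : R →+ M} {X : Fin 5 → R}
  {ι : Type*} [Fintype ι] {g : ι → Equiv.Perm (Fin 5)} {χ : ι → ℤ}

theorem asem_gad (htf : ∀ x : M, (2 : ℤ) • x = 0 → x = 0) {tb m : ℕ} (tab : Tab tb m g χ)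
    (d : List ℤ) (l : List (ℤ × List ℕ)) : ∀ (gs : List ℕ) (s : AL),
    gok tb m l gs = true → (∀ a ∈ l, (∀ k ∈ a.2, k < 5) ∧ a.2.length ≤ 10) →
    asem (n : ℤ) (fun N => F n φ X g χ (dec8 N)) (gad tb d l gs s) =
      pev (n : ℤ) d • (l.map (fun a => a.1 • F n φ X g χ a.2)).sum +
        asem (n : ℤ) (fun N => F n φ X g χ (dec8 N)) s := by
  induction l with
  | nil =>
    intro gs s _ _
    simp [gad]
  | cons a l ih =>
    intro gs s hg hl
    match gs with
    | [] =>
      unfold gok at hg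
      cases hg
    | c :: gs' =>
      unfold gok at hg
      dsimp only at hg
      obtain ⟨h1, h2⟩ := bif_and hg
      obtain ⟨h3, h4⟩ := hl a (by simp)
      unfold gad
      dsimp only
      rw [asem_adw htf (by rw [pev_psm, pev_psm]; ring) _ _ h1 (by
        intro N hN e he
        rw [List.mem_singleton] at hN
        rw [hN]
        exact tab.act he h3 h4), ih gs' s h2 (fun b hb => hl b (by simp [hb])), pev_psm,
        List.map_cons, List.map_cons, List.sum_cons, List.sum_cons, List.map_nil, List.sum_nil,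
        add_zero, dec8_enc8 (fun k hk => by have := h3 k hk; omega) h4, smul_add, ← add_assoc,
        mul_comm, mul_smul]

/-- from the target to the sum of words -/
theorem tgt_sound (htf : ∀ x : M, (2 : ℤ) • x = 0 → x = 0) {tb m : ℕ} (tab : Tab tb m g χ)
    {d : List ℤ} {G : Wp} (hG : G.five = true) {gs : List ℕ} (hok : gok tb m G.l gs = true)
    {tgt : List (ℕ × List ℤ)} (hc : aeq (fz (gad tb d G.l gs AL.nil)) tgt = true)
    (ht : (tgt.map (fun p => pev (n : ℤ) p.2 • F n φ X g χ (dec8 p.1))).sum = 0) :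
    pev (n : ℤ) d • Wp.ev (F n φ X g χ) G = 0 := by
  have h1 := aeq_iff (n := (n : ℤ)) (F := fun N => F n φ X g χ (dec8 N)) hc
  rw [asem_fz, asem_gad htf tab d G.l gs AL.nil hok (by
    intro a ha
    have hp := Wp.five_iff hG a ha
    refine ⟨fun k hk => ?_, ?_⟩
    · have h2 := hp.mem_iff.1 hk
      simp only [List.mem_cons, List.not_mem_nil, or_false] at h2
      omega
    · rw [hp.length_eq]
      decide), ht] at h1
  have h2 : pev (n : ℤ) d • (G.l.map (fun a => a.1 • F n φ X g χ a.2)).sum + (0 : M) = 0 := h1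
  rw [add_zero] at h2
  exact h2

/-- The certificate implies the relation between the words of `G`. -/
theorem cert_G {J N : AddSubgroup R} (h : BData n J N) (hn : 2 ≤ n) (hφ : ∀ x ∈ N, φ x = 0)
    (hX : ∀ k, X k ∈ J) (htf : ∀ x : M, (2 : ℤ) • x = 0 → x = 0) {tb m : ℕ}
    (tab : Tab tb m g χ) (T : RT) (hT : T.all (rok tb m) = true) {tgt : List (ℕ × List ℤ)}
    (ht : aeq (fz (sumT tb T)) tgt = true) {d : List ℤ} {G : Wp} (hG : G.five = true)
    {gs : List ℕ} (hok : gok tb m G.l gs = true)
    (hc : aeq (fz (gad tb d G.l gs AL.nil)) tgt = true) :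
    pev (n : ℤ) d • Wp.ev (F n φ X g χ) G = 0 :=
  tgt_sound htf tab hG hok hc (cert_sound h hn hφ hX htf tab T hT tgt ht)

end Pool.Agent.H.MP_e16c79_al.IS
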