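import Pool.Agent.H.MP_e16c79_al.IS.Ind
import Pool.Agent.H.MP_e16c79_al.IS.IdealK

/-!
# MP_e16c79_al: homomorphic images of special Jordan rings
-/

set_option autoImplicit false

namespace Pool.Agent.H.MP_e16c79_al.IS

universe u v w z

/-- the word part -/
def BlkStmt : Prop := ∀ {S : Type v} [NonUnitalNonAssocCommRing S] {R : Type u} [Ring R] {M : ℤ}
  {m : ℕ} {K : AddSubgroup S} {ψ : S →+ R} {J N : AddSubgroup R}, PD M m K ψ J N → 5 ≤ m →
    ∀ a b c d e : S, E1 (pwr m a) (pwr m b) (pwr m c) (pwr m d) (pwr m e) ∈ K ∧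
      V5 (pwr m a) (pwr m b) (pwr m c) (pwr m d) (pwr m e) ∈ K

theorem fac_dvd {m n : ℕ} (hm : m ≤ n) : ((2 * m.factorial : ℕ) : ℤ) ∣ MM n :=
  Int.natCast_dvd_natCast.2 (Nat.mul_dvd_mul_left 2 (Nat.factorial_dvd_factorial hm))

theorem gl_of (hB : BlkStmt.{u, v}) {S : Type v} [NonUnitalNonAssocCommRing S] {A : Type u}
    [NonUnitalRing A] (φ : S →+ A) (hmul : ∀ x y, 2 • φ (x * y) = φ x * φ y + φ y * φ x) (n : ℕ) :
    Gl (MM n) φ n where
  blk m h5 hm K h a b c d e := by
    obtain ⟨R', _, ψ, J, N, hP⟩ := passK (MM n) m (by omega) (fac_dvd hm) φ hmul K h.idl h.st h.ker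
      h.nil
    exact hB hP h5 a b c d e
  ide m h2 hm K h x y := by
    obtain ⟨R', _, ψ, J, N, hP⟩ := passK (MM n) m (by omega) (fac_dvd hm) φ hmul K h.idl h.st h.ker
      h.nil
    exact hP.ideal h2 x y
  jor m h1 hm K h a b c y := by
    obtain ⟨R', _, ψ, J, N, hP⟩ := passK (MM n) m h1 (fac_dvd hm) φ hmul K h.idl h.st h.ker h.nil
    exact hP.j4 a b c y

theorem iter_map {S : Type v} [NonUnitalNonAssocCommRing S] {J : Type w}
    [NonUnitalNonAssocCommRing J] (π : S →ₙ+* J) (k : ℕ) (a : S) :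
    π ((fun x => a * x)^[k] a) = (fun x => π a * x)^[k] (π a) := by
  induction k with
  | zero => rfl
  | succ k ih =>
    rw [Function.iterate_succ_apply', Function.iterate_succ_apply', map_mul, ih]

/-- Let `π : S → J1` be a homomorphism of commutative rings, `S` special, `f : J → J1` a
homomorphism with the same image, `x ^ n = 0` on `J`. Then the derived series of `J` is mapped by `f`
to torsion. -/
theorem fin0 (hB : BlkStmt.{u, v}) {J : Type w} [NonUnitalNonAssocCommRing J] {J1 : Type z}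
    [NonUnitalNonAssocCommRing J1] {S : Type v} [NonUnitalNonAssocCommRing S] {A : Type u}
    [NonUnitalRing A] {n : ℕ} (hn : 1 ≤ n) (hnil : ∀ a : J, (fun x => a * x)^[n - 1] a = 0)
    (φ : S →+ A) (hmul : ∀ x y, 2 • φ (x * y) = φ x * φ y + φ y * φ x) (π : S →ₙ+* J1)
    (hker : ∀ s, φ s = 0 → π s = 0) (f : J →ₙ+* J1) (h1 : ∀ s, ∃ a, f a = π s)
    (h2 : ∀ a, ∃ s, π s = f a) (D : ℕ → AddSubgroup J) (hD0 : D 0 = ⊤)
    (hD : ∀ i, D (i + 1) = AddSubgroup.closure {x : J | ∃ a ∈ D i, ∃ b ∈ D i, x = a * b}) :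
    ∀ x ∈ D (kk n), ∃ k : ℕ, ((MM n) ^ k) • f x = 0 := by
  by_cases h3 : 3 ≤ n
  · let K : AddSubgroup S := (sa (MM n) (⊥ : AddSubgroup J1)).comap (π : S →+ J1)
    have hK : Lv (MM n) φ n K := by
      refine ⟨?_, ?_, ?_, ?_⟩
      · rintro a ⟨k, hk⟩ b
        have hk' : (MM n ^ k) • π a = 0 := hk
        refine ⟨k, ?_⟩
        show (MM n ^ k) • π (a * b) = 0
        rw [map_mul, ← smul_mul_assoc, hk', zero_mul]
      · intro a ha
        have ha' : π (MM n • a) ∈ sa (MM n) (⊥ : AddSubgroup J1) := ha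
        rw [map_zsmul] at ha'
        exact sa_of ha'
      · intro s hs
        show π s ∈ sa (MM n) (⊥ : AddSubgroup J1)
        rw [hker s hs]
        exact AddSubgroup.zero_mem _
      · intro a
        obtain ⟨b, hb⟩ := h1 a
        show π ((fun x => a * x)^[n - 1] a) ∈ sa (MM n) (⊥ : AddSubgroup J1)
        rw [iter_map, ← hb, ← iter_map, hnil, map_zero]
        exact AddSubgroup.zero_mem _
    have h4 := main h3 (gl_of hB φ hmul n) n le_rfl K hK
    have h5 : ∀ i, ∀ x ∈ D i, ∃ s ∈ Dr (⊤ : AddSubgroup S) i, π s = f x := by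
      intro i
      induction i with
      | zero =>
        intro x _
        obtain ⟨s, hs⟩ := h2 x
        exact ⟨s, AddSubgroup.mem_top _, hs⟩
      | succ i ih =>
        intro x hx
        rw [hD] at hx
        refine AddSubgroup.closure_induction
          (p := fun y _ => ∃ s ∈ Dr (⊤ : AddSubgroup S) (i + 1), π s = f y) ?_ ?_ ?_ ?_ hx
        · rintro y ⟨a, ha, b, hb, rfl⟩
          obtain ⟨s, hs, e1⟩ := ih a ha
          obtain ⟨t, ht, e2⟩ := ih b hb
          exact ⟨s * t, AddSubgroup.subset_closure ⟨s, hs, t, ht, rfl⟩, by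
            rw [map_mul, map_mul, e1, e2]⟩
        · exact ⟨0, AddSubgroup.zero_mem _, by rw [map_zero, map_zero]⟩
        · rintro y y' _ _ ⟨s, hs, e1⟩ ⟨t, ht, e2⟩
          exact ⟨s + t, AddSubgroup.add_mem _ hs ht, by rw [map_add, map_add, e1, e2]⟩
        · rintro y _ ⟨s, hs, e1⟩
          exact ⟨-s, AddSubgroup.neg_mem _ hs, by rw [map_neg, map_neg, e1]⟩
    intro x hx
    obtain ⟨s, hs, e⟩ := h5 _ x hx
    obtain ⟨k, hk⟩ := h4 hs
    refine ⟨k, ?_⟩
    have hk' : (MM n ^ k) • π s = 0 := hk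
    rw [← e, hk']
  · have hsq : ∀ a : J, a * a = 0 := by
      intro a
      have h4 := hnil a
      have h5 : n = 1 ∨ n = 2 := by omega
      rcases h5 with rfl | rfl
      · have h6 : a = 0 := h4
        rw [h6, zero_mul]
      · exact h4
    have h4 : ∀ x ∈ D 1, (2 : ℤ) • x = 0 := by
      intro x hx
      rw [hD] at hx
      refine AddSubgroup.closure_induction (p := fun y _ => (2 : ℤ) • y = 0) ?_ ?_ ?_ ?_ hx
      · rintro y ⟨a, _, b, _, rfl⟩
        have h5 := hsq (a + b)
        rw [add_mul, mul_add, mul_add, hsq a, hsq b, zero_add, add_zero, mul_comm b a,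
          ← two_smul ℤ] at h5
        exact h5
      · exact smul_zero _
      · intro y y' _ _ e1 e2
        rw [smul_add, e1, e2, add_zero]
      · intro y _ e1
        rw [smul_neg, e1, neg_zero]
    have h5 : ∀ i, D (i + 1) ≤ D 1 := by
      intro i
      induction i with
      | zero => exact le_rfl
      | succ i ih =>
        rw [hD (i + 1), hD 0, hD0]
        refine AddSubgroup.closure_mono ?_
        rintro x ⟨a, _, b, _, rfl⟩
        exact ⟨a, AddSubgroup.mem_top _, b, AddSubgroup.mem_top _, rfl⟩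
    intro x hx
    have e : kk n = 26 + 1 := by
      unfold kk
      rw [show n - 4 = 0 by omega, zero_mul, add_zero]
    rw [e] at hx
    have h6 := h4 x (h5 26 hx)
    refine ⟨1, ?_⟩
    have e2 : MM n = (n.factorial : ℤ) * 2 := by
      unfold MM
      push_cast
      ring
    rw [pow_one, e2, mul_smul, ← map_zsmul, h6, map_zero, smul_zero]

end Pool.Agent.H.MP_e16c79_al.IS
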