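import Pool.Agent.H.MP_e16c79_al.IS.BTgt
import Pool.Agent.H.MP_e16c79_al.IS.BTab
import Pool.Agent.H.MP_e16c79_al.IS.Fin

/-!
# MP_e16c79_al: the two identities on the powers, from the two certificates
-/

set_option autoImplicit false

namespace Pool.Agent.H.MP_e16c79_al.IS

open Finset SP

universe u v

section sums

variable {S : Type v} [NonUnitalNonAssocCommRing S]

theorem U_comm (a w b : S) : U a w b = U b w a := by
  unfold U
  rw [mul_comm a b]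
  abel

theorem U_neg (a w b : S) : U a (-w) b = -U a w b := by
  unfold U
  rw [mul_neg, mul_neg, mul_neg, mul_neg, mul_neg]
  abel

theorem asc_swap (a b c : S) : asc c b a = -asc a b c := by
  unfold asc
  rw [mul_comm c b, mul_comm (b * c) a, mul_comm b a, mul_comm c (a * b)]
  abel

theorem sum20 (h : Fin 20 → S) : ∑ i, h i = h 0 + h 1 + h 2 + h 3 + h 4 + h 5 + h 6 + h 7 + h 8 +
    h 9 + h 10 + h 11 + h 12 + h 13 + h 14 + h 15 + h 16 + h 17 + h 18 + h 19 := by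
  simp only [Fin.sum_univ_castSucc, Fin.sum_univ_zero, zero_add]
  rfl

theorem sum12 (h : Fin 12 → S) : ∑ i, h i = h 0 + h 1 + h 2 + h 3 + h 4 + h 5 + h 6 + h 7 + h 8 +
    h 9 + h 10 + h 11 := by
  simp only [Fin.sum_univ_castSucc, Fin.sum_univ_zero, zero_add]
  rfl

theorem sum_gF (y : Fin 5 → S) : ∑ i : Fin 20, (1 : ℤ) • F0 (y (gF i 0)) (y (gF i 1))
    (y (gF i 2)) (y (gF i 3)) (y (gF i 4)) = V5 (y 0) (y 1) (y 2) (y 3) (y 4) := by
  have e : ∀ (i : Fin 20) (p : Fin 5 → Fin 5), (∀ k, gF i k = p k) →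
      (1 : ℤ) • F0 (y (gF i 0)) (y (gF i 1)) (y (gF i 2)) (y (gF i 3)) (y (gF i 4)) =
        F0 (y (p 0)) (y (p 1)) (y (p 2)) (y (p 3)) (y (p 4)) := by
    intro i p hp
    rw [one_smul, hp, hp, hp, hp, hp]
  rw [sum20, e 0 ![0, 1, 2, 3, 4] (by decide), e 1 ![1, 2, 3, 4, 0] (by decide),
    e 2 ![2, 3, 4, 0, 1] (by decide), e 3 ![3, 4, 0, 1, 2] (by decide),
    e 4 ![4, 0, 1, 2, 3] (by decide), e 5 ![0, 2, 4, 1, 3] (by decide),
    e 6 ![1, 3, 0, 2, 4] (by decide), e 7 ![2, 4, 1, 3, 0] (by decide),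
    e 8 ![3, 0, 2, 4, 1] (by decide), e 9 ![4, 1, 3, 0, 2] (by decide),
    e 10 ![0, 3, 1, 4, 2] (by decide), e 11 ![1, 4, 2, 0, 3] (by decide),
    e 12 ![2, 0, 3, 1, 4] (by decide), e 13 ![3, 1, 4, 2, 0] (by decide),
    e 14 ![4, 2, 0, 3, 1] (by decide), e 15 ![0, 4, 3, 2, 1] (by decide),
    e 16 ![1, 0, 4, 3, 2] (by decide), e 17 ![2, 1, 0, 4, 3] (by decide),
    e 18 ![3, 2, 1, 0, 4] (by decide), e 19 ![4, 3, 2, 1, 0] (by decide)]
  unfold V5 F5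
  simp only [Matrix.cons_val]
  abel

theorem sum_gS (y : Fin 5 → S) : ∑ i : Fin 12, cS i • U (y (gS i 0))
    (asc (y (gS i 3)) (y (gS i 1)) (y (gS i 4))) (y (gS i 2)) =
      (4 : ℤ) • E1 (y 0) (y 1) (y 2) (y 3) (y 4) := by
  have e : ∀ (i : Fin 12) (c : ℤ) (p : Fin 5 → Fin 5), (∀ k, gS i k = p k) → cS i = c →
      cS i • U (y (gS i 0)) (asc (y (gS i 3)) (y (gS i 1)) (y (gS i 4))) (y (gS i 2)) =
        c • U (y (p 0)) (asc (y (p 3)) (y (p 1)) (y (p 4))) (y (p 2)) := by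
    intro i c p hp hc
    rw [hc, hp, hp, hp, hp, hp]
  have e2 : ∀ a b c : S, U a (asc (y 4) b (y 3)) c = -U a (asc (y 3) b (y 4)) c := by
    intro a b c
    rw [asc_swap, U_neg]
  rw [sum12, e 0 1 ![0, 1, 2, 3, 4] (by decide) (by decide),
    e 1 (-1) ![0, 1, 2, 4, 3] (by decide) (by decide),
    e 2 1 ![1, 2, 0, 3, 4] (by decide) (by decide),
    e 3 (-1) ![1, 2, 0, 4, 3] (by decide) (by decide),
    e 4 1 ![2, 0, 1, 3, 4] (by decide) (by decide),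
    e 5 (-1) ![2, 0, 1, 4, 3] (by decide) (by decide),
    e 6 1 ![0, 2, 1, 3, 4] (by decide) (by decide),
    e 7 (-1) ![0, 2, 1, 4, 3] (by decide) (by decide),
    e 8 1 ![1, 0, 2, 3, 4] (by decide) (by decide),
    e 9 (-1) ![1, 0, 2, 4, 3] (by decide) (by decide),
    e 10 1 ![2, 1, 0, 3, 4] (by decide) (by decide),
    e 11 (-1) ![2, 1, 0, 4, 3] (by decide) (by decide)]
  simp only [Matrix.cons_val]
  rw [e2, e2, e2, e2, e2, e2]
  unfold E1
  rw [U_comm (y 1) _ (y 0), U_comm (y 2) _ (y 1), U_comm (y 2) _ (y 0)]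
  module

end sums

section fin

variable {S : Type v} [NonUnitalNonAssocCommRing S] {R : Type u} [Ring R] {M : ℤ} {m : ℕ}
  {K : AddSubgroup S} {ψ : S →+ R} {J N : AddSubgroup R}

theorem BData.qtwo (h : BData m J N) (x : R ⧸ N) (hx : (2 : ℤ) • x = 0) : x = 0 := by
  obtain ⟨r, rfl⟩ := QuotientAddGroup.mk_surjective x
  rw [← QuotientAddGroup.mk_zsmul, QuotientAddGroup.eq_zero_iff] at hx
  rw [QuotientAddGroup.eq_zero_iff]
  exact h.twoN hx

/-- The second identity from its certificate. -/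
theorem PD.v5 (h : PD M m K ψ J N) (hm : 2 ≤ m) {tb k : ℕ} (tab : Tab tb k gF (fun _ => 1))
    (T : RT) (hT : T.all (rok tb k) = true) {tgt : List (ℕ × List ℤ)}
    (ht : aeq (fz (sumT tb T)) tgt = true) {d : List ℤ} {gs : List ℕ}
    (hok : gok tb k Wp.gV.l gs = true) (hc : aeq (fz (gad tb d Wp.gV.l gs AL.nil)) tgt = true)
    (hd : ∃ k : ℕ, pev (m : ℤ) d ∣ ((2 * m.factorial : ℕ) : ℤ) ^ k) (x : Fin 5 → S) :
    V5 (pwr m (x 0)) (pwr m (x 1)) (pwr m (x 2)) (pwr m (x 3)) (pwr m (x 4)) ∈ K := by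
  have h1 := cert_G (φ := QuotientAddGroup.mk' N) (X := fun k => ψ (x k)) h.data hm
    (fun r hr => (QuotientAddGroup.eq_zero_iff r).2 hr) (fun k => h.mem _) h.data.qtwo tab T hT ht
    Wp.five_V hok hc
  have h2 := h.blk hm x Wp.five_V (Wp.rv_V _) _ (val_V h) gF (fun _ => 1) _ hd h1
  rw [sum_gF (fun k => pwr m (x k))] at h2
  exact h2

/-- The first identity from its certificate. -/
theorem PD.e1 (h : PD M m K ψ J N) (hm : 2 ≤ m) {tb k : ℕ} (tab : Tab tb k gS cS)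
    (T : RT) (hT : T.all (rok tb k) = true) {tgt : List (ℕ × List ℤ)}
    (ht : aeq (fz (sumT tb T)) tgt = true) {d : List ℤ} {gs : List ℕ}
    (hok : gok tb k Wp.gE.l gs = true) (hc : aeq (fz (gad tb d Wp.gE.l gs AL.nil)) tgt = true)
    (hd : ∃ k : ℕ, pev (m : ℤ) d ∣ ((2 * m.factorial : ℕ) : ℤ) ^ k) (x : Fin 5 → S) :
    E1 (pwr m (x 0)) (pwr m (x 1)) (pwr m (x 2)) (pwr m (x 3)) (pwr m (x 4)) ∈ K := by
  have h1 := cert_G (φ := QuotientAddGroup.mk' N) (X := fun k => ψ (x k)) h.data hm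
    (fun r hr => (QuotientAddGroup.eq_zero_iff r).2 hr) (fun k => h.mem _) h.data.qtwo tab T hT ht
    Wp.five_E hok hc
  have h2 := h.blkN hm x Wp.five_E (Wp.rv_E _) _ (val_E h) gS cS _ hd h1
  rw [sum_gS (fun k => pwr m (x k)), map_zsmul] at h2
  have e4 : (4 : ℤ) = 2 * 2 := by norm_num
  rw [e4, mul_smul] at h2
  exact h.ker _ (h.data.twoN (h.data.twoN h2))

end fin

end Pool.Agent.H.MP_e16c79_al.IS
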