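import Pool.Agent.H.MP_e16c79_al.IS.BTabE

/-!
# MP_e16c79_al: certificate E, part 0
-/

set_option autoImplicit false

namespace Pool.Agent.H.MP_e16c79_al.IS

/-- data -/
def dE0x0 : RT := (.nd (.nd (.nd (.lf ⟨[.ofNat 0, .ofNat 6656, .negSucc 36863, .ofNat 39680, .negSucc 13759, .negSucc 927, .ofNat 256, .ofNat 32], (.tr (.dx 0 .on) (.lf 15) (.tr (.lf 7) (.lf 19) (.lf 11))), 0, [0, 2], [1023, 1017]⟩)
    (.lf ⟨[.ofNat 0, .ofNat 0, .ofNat 0, .ofNat 7680, .ofNat 704, .negSucc 159], (.tr (.dx 0 (.tw (.lf 7) (.lf 11))) (.lf 15) (.lf 19)), 0, [0, 2], []⟩))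
    (.nd (.lf ⟨[.ofNat 0, .ofNat 0, .ofNat 32832, .negSucc 16671, .ofNat 1168], (.tr (.dx 0 (.lf 15)) (.tw (.lf 7) (.lf 11)) (.lf 19)), 0, [0, 2], []⟩)
    (.lf ⟨[.ofNat 0, .ofNat 0, .ofNat 0, .negSucc 35711, .negSucc 4047, .ofNat 32], (.tr (.dx 0 (.lf 15)) (.lf 19) (.tw (.lf 7) (.lf 11))), 0, [23, 21], []⟩)))
    (.nd (.nd (.lf ⟨[.ofNat 0, .ofNat 0, .ofNat 21504, .ofNat 36608, .ofNat 20512, .negSucc 383], (.tr (.dx 0 (.lf 15)) (.tw (.lf 7) (.lf 19)) (.lf 11)), 0, [0, 23], []⟩)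
    (.lf ⟨[.ofNat 0, .ofNat 0, .negSucc 14335, .negSucc 58751, .ofNat 13376, .negSucc 959], (.tr (.lf 7) (.tw (.dx 0 (.lf 15)) (.lf 19)) (.lf 11)), 0, [4, 7], []⟩))
    (.nd (.lf ⟨[.ofNat 0, .ofNat 0, .negSucc 11583, .negSucc 55743, .ofNat 24960, .negSucc 735], (.tr (.tw (.lf 7) (.lf 11)) (.dx 0 (.lf 15)) (.lf 19)), 0, [8, 10], []⟩)
    (.lf ⟨[.ofNat 0, .ofNat 0, .ofNat 36864, .ofNat 81920, .negSucc 6175, .ofNat 256], (.tr (.lf 7) (.tw (.dx 0 (.lf 15)) (.lf 11)) (.lf 19)), 0, [4, 8], []⟩))))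

/-- data -/
def dE0x1 : RT := (.nd (.nd (.nd (.lf ⟨[.ofNat 0, .ofNat 0, .negSucc 52991, .negSucc 25663, .negSucc 7871, .ofNat 320], (.tw (.dx 0 (.tr (.lf 7) (.lf 15) (.lf 11))) (.lf 19)), 0, [0, 2], []⟩)
    (.lf ⟨[.ofNat 0, .ofNat 0, .ofNat 0, .negSucc 6399, .negSucc 21375, .negSucc 6079, .ofNat 320], (.dx 0 (.tr (.tw (.lf 7) (.lf 15)) (.lf 11) (.lf 19))), 0, [0, 1015], []⟩))
    (.nd (.lf ⟨[.ofNat 0, .ofNat 0, .negSucc 4479, .ofNat 4608, .negSucc 1855, .negSucc 575, .negSucc 31], (.tr (.lf 11) (.lf 15) (.tr (.dx 0 .on) (.lf 19) (.tw (.lf 5) (.lf 6)))), 0, [17, 17, 13, 13], [17, 17, 1023, 1023]⟩)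
    (.lf ⟨[.ofNat 0, .negSucc 66559, .negSucc 7135, .ofNat 96208, .ofNat 24776], (.tr (.dx 0 (.lf 11)) (.tr (.lf 5) (.lf 19) (.lf 6)) (.lf 15)), 0, [14, 14], []⟩)))
    (.nd (.nd (.lf ⟨[.ofNat 0, .ofNat 0, .negSucc 3327, .ofNat 4992, .ofNat 288], (.tr (.lf 15) (.lf 9) (.tr (.tw (.dx 0 (.lf 5)) (.lf 6)) (.lf 10) (.lf 19))), 0, [1017, 1017, 17, 13], [1017, 1017, 17, 13]⟩)
    (.lf ⟨[.ofNat 0, .ofNat 0, .ofNat 832, .ofNat 1600, .negSucc 79], (.tr (.lf 19) (.dx 0 (.lf 15)) (.tr (.tw (.lf 5) (.lf 6)) (.lf 9) (.lf 10))), 0, [11, 11, 9, 9], []⟩))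
    (.nd (.lf ⟨[.ofNat 0, .ofNat 0, .ofNat 0, .ofNat 3328, .negSucc 7359, .negSucc 447, .ofNat 800], (.tr (.dx 3 .on) (.tr (.lf 3) (.lf 7) (.lf 11)) (.lf 19)), 3, [23, 13], [1023, 1023]⟩)
    (.lf ⟨[.ofNat 0, .ofNat 0, .negSucc 68991, .negSucc 22271, .ofNat 39424, .negSucc 3887, .ofNat 720], (.tr (.dx 3 (.lf 3)) (.tw (.lf 7) (.lf 11)) (.lf 19)), 3, [23, 21], []⟩))))

/-- data -/
def dE0x2 : RT := (.nd (.nd (.nd (.lf ⟨[.ofNat 0, .ofNat 66560, .ofNat 91456, .negSucc 80223, .negSucc 53599, .ofNat 1504, .negSucc 159], (.tr (.dx 3 (.lf 3)) (.lf 19) (.tw (.lf 7) (.lf 11))), 3, [23, 21], []⟩)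
    (.lf ⟨[.ofNat 0, .negSucc 133119, .negSucc 193407, .ofNat 199552, .ofNat 91264, .negSucc 2239, .ofNat 320], (.tr (.dx 3 (.lf 3)) (.tw (.lf 7) (.lf 19)) (.lf 11)), 3, [23, 23], []⟩))
    (.nd (.lf ⟨[.ofNat 0, .ofNat 0, .ofNat 5248, .ofNat 11232, .negSucc 29631, .ofNat 1568, .negSucc 159], (.tr (.lf 7) (.tw (.dx 3 (.lf 3)) (.lf 19)) (.lf 11)), 3, [4, 7], []⟩)
    (.lf ⟨[.ofNat 0, .ofNat 66560, .ofNat 61440, .negSucc 86751, .negSucc 32303, .ofNat 256], (.tr (.tw (.lf 7) (.lf 11)) (.dx 3 (.lf 3)) (.lf 19)), 3, [8, 10], []⟩)))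
    (.nd (.nd (.lf ⟨[.ofNat 0, .negSucc 133119, .negSucc 172415, .ofNat 238464, .ofNat 62784, .negSucc 511], (.tr (.lf 7) (.tw (.dx 3 (.lf 3)) (.lf 11)) (.lf 19)), 3, [4, 8], []⟩)
    (.lf ⟨[.ofNat 0, .negSucc 26623, .negSucc 18943, .ofNat 63168, .negSucc 2207, .negSucc 1535, .negSucc 79], (.tr (.dx 3 (.tw (.lf 3) (.lf 7))) (.lf 11) (.lf 19)), 3, [0, 4], []⟩))
    (.nd (.lf ⟨[.ofNat 0, .ofNat 0, .negSucc 6015, .negSucc 15679, .ofNat 16160, .ofNat 1184], (.tr (.dx 3 (.tw (.lf 3) (.lf 7))) (.lf 19) (.lf 11)), 3, [23, 19], []⟩)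
    (.lf ⟨[.ofNat 0, .ofNat 0, .ofNat 19840, .ofNat 17600, .ofNat 14592, .negSucc 447], (.tr (.lf 11) (.dx 3 (.tw (.lf 3) (.lf 7))) (.lf 19)), 3, [6, 10], []⟩))))

/-- data -/
def dE0x3 : RT := (.nd (.nd (.nd (.lf ⟨[.ofNat 0, .ofNat 0, .ofNat 0, .ofNat 3200, .negSucc 1599], (.tr (.dx 3 (.lf 19)) (.tw (.lf 3) (.lf 7)) (.lf 11)), 3, [11, 7], []⟩)
    (.lf ⟨[.ofNat 0, .ofNat 0, .ofNat 19264, .negSucc 24767, .negSucc 7167, .negSucc 255], (.tr (.lf 3) (.tw (.dx 3 (.lf 19)) (.lf 7)) (.lf 11)), 3, [11, 0], []⟩))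
    (.nd (.lf ⟨[.ofNat 0, .ofNat 6656, .ofNat 51072, .negSucc 144447, .negSucc 39839, .ofNat 6144, .negSucc 959], (.tr (.lf 7) (.dx 3 (.tw (.lf 3) (.lf 19))) (.lf 11)), 3, [4, 7], []⟩)
    (.lf ⟨[.ofNat 0, .ofNat 0, .negSucc 28287, .negSucc 36735, .negSucc 4479, .negSucc 1439, .ofNat 160], (.tw (.dx 3 (.tr (.lf 3) (.lf 19) (.lf 7))) (.lf 11)), 3, [11, 7], []⟩)))
    (.nd (.nd (.lf ⟨[.ofNat 0, .ofNat 0, .negSucc 6655, .ofNat 28272, .negSucc 9115, .ofNat 360], (.tr (.lf 14) (.tr (.lf 7) (.dx 0 (.lf 13)) (.lf 11)) (.lf 19)), 0, [4, 6], [1015, 1015]⟩)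
    (.lf ⟨[.ofNat 0, .negSucc 26623, .negSucc 47999, .ofNat 43200, .ofNat 19072], (.tr (.lf 14) (.dx 0 (.tr (.lf 7) (.lf 13) (.lf 11))) (.lf 19)), 0, [0, 2], []⟩))
    (.nd (.lf ⟨[.ofNat 0, .ofNat 0, .ofNat 1408, .negSucc 3967, .ofNat 416, .negSucc 63], (.tw (.dx 0 (.tr (.lf 7) (.tw (.lf 13) (.lf 14)) (.lf 11))) (.lf 19)), 0, [0, 0, 2, 2], []⟩)
    (.lf ⟨[.ofNat 0, .ofNat 0, .ofNat 0, .negSucc 191], (.tw (.dx 0 (.tr (.lf 13) (.tw (.lf 7) (.lf 11)) (.lf 14))) (.lf 19)), 0, [0, 2, 0, 2], []⟩))))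

/-- data -/
def dE0x4 : RT := (.nd (.nd (.nd (.lf ⟨[.ofNat 0, .ofNat 0, .ofNat 40160, .negSucc 6047, .negSucc 5471], (.tr (.lf 13) (.dx 0 (.lf 19)) (.tr (.lf 7) (.lf 14) (.lf 11))), 0, [11, 9], []⟩)
    (.lf ⟨[.ofNat 0, .ofNat 0, .negSucc 8287, .ofNat 7648, .ofNat 2848], (.tr (.lf 7) (.tr (.dx 0 (.lf 19)) (.lf 13) (.lf 14)) (.lf 11)), 0, [16, 19], []⟩))
    (.nd (.lf ⟨[.ofNat 0, .ofNat 0, .ofNat 22528, .ofNat 8640, .negSucc 191], (.tr (.lf 13) (.lf 14) (.tr (.lf 7) (.dx 0 (.lf 19)) (.lf 11))), 0, [19, 17], []⟩)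
    (.lf ⟨[.ofNat 0, .ofNat 0, .negSucc 10159, .ofNat 7168, .ofNat 2256], (.tw (.dx 0 (.lf 19)) (.tr (.lf 7) (.tw (.lf 13) (.lf 14)) (.lf 11))), 0, [12, 12, 14, 14], []⟩)))
    (.nd (.nd (.lf ⟨[.ofNat 0, .ofNat 0, .ofNat 80064, .negSucc 9599, .negSucc 9407], (.tr (.lf 7) (.lf 13) (.tr (.dx 0 (.lf 19)) (.lf 11) (.lf 14))), 0, [4, 15], []⟩)
    (.lf ⟨[.ofNat 0, .ofNat 0, .negSucc 1727, .negSucc 783, .ofNat 320], (.tw (.dx 0 (.lf 19)) (.tr (.lf 13) (.tw (.lf 7) (.lf 11)) (.lf 14))), 0, [12, 14, 12, 14], []⟩))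
    (.nd (.lf ⟨[.ofNat 0, .ofNat 0, .ofNat 23776, .negSucc 12767, .negSucc 5151], (.tw (.lf 7) (.tr (.lf 11) (.dx 0 (.lf 19)) (.tw (.lf 13) (.lf 14)))), 0, [20, 20, 19, 19], []⟩)
    (.lf ⟨[.ofNat 0, .ofNat 0, .ofNat 0, .ofNat 832, .negSucc 2335, .ofNat 80], (.tr (.dx 3 .on) (.tr (.lf 7) (.tw (.lf 1) (.lf 2)) (.lf 11)) (.lf 19)), 3, [19, 19, 17, 17], [1015, 1015, 1015, 1015]⟩))))

/-- data -/
def dE0x5 : RT := (.nd (.nd (.nd (.lf ⟨[.ofNat 0, .ofNat 0, .ofNat 0, .ofNat 0, .ofNat 1408, .negSucc 399], (.tr (.lf 1) (.tr (.dx 3 .on) (.tw (.lf 7) (.lf 11)) (.lf 19)) (.lf 2)), 3, [15, 13, 12, 14], [1015, 1015, 1015, 1015]⟩)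
    (.lf ⟨[.ofNat 0, .ofNat 0, .negSucc 5247, .ofNat 14976, .ofNat 5840, .negSucc 63], (.tr (.lf 2) (.lf 19) (.tr (.lf 7) (.dx 3 (.lf 1)) (.lf 11))), 3, [7, 5], [1023, 1017]⟩))
    (.nd (.lf ⟨[.ofNat 0, .ofNat 0, .negSucc 3327, .ofNat 10144, .negSucc 2183, .ofNat 400], (.tr (.dx 3 (.tw (.lf 1) (.lf 2))) (.lf 19) (.tw (.lf 7) (.lf 11))), 3, [23, 21, 23, 21], []⟩)
    (.lf ⟨[.ofNat 0, .ofNat 0, .ofNat 0, .negSucc 1855, .ofNat 720], (.tr (.dx 3 (.tw (.lf 1) (.lf 2))) (.tw (.lf 7) (.lf 19)) (.lf 11)), 3, [23, 23, 23, 23], []⟩)))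
    (.nd (.nd (.lf ⟨[.ofNat 0, .ofNat 0, .ofNat 0, .negSucc 1599, .negSucc 2335, .ofNat 80], (.tw (.dx 3 (.tr (.lf 7) (.tw (.lf 1) (.lf 2)) (.lf 11))) (.lf 19)), 3, [4, 4, 6, 6], []⟩)
    (.lf ⟨[.ofNat 0, .ofNat 0, .ofNat 0, .ofNat 2176], (.tr (.dx 0 (.lf 11)) (.lf 19) (.tr (.lf 13) (.tw (.lf 5) (.lf 6)) (.lf 14))), 0, [14, 14, 14, 14], []⟩))
    (.nd (.lf ⟨[.ofNat 0, .ofNat 0, .negSucc 6911, .negSucc 2879, .ofNat 160], (.tr (.lf 11) (.dx 0 (.tw (.lf 13) (.lf 14))) (.tr (.lf 5) (.lf 19) (.lf 6))), 0, [6, 6, 6, 6], []⟩)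
    (.lf ⟨[.ofNat 0, .ofNat 0, .negSucc 1583, .negSucc 579, .negSucc 63], (.tr (.dx 0 (.tw (.lf 5) (.lf 6))) (.tr (.lf 13) (.tw (.lf 9) (.lf 10)) (.lf 14)) (.lf 19)), 0, [0, 0, 0, 0, 0, 0, 0, 0], []⟩))))

/-- data -/
def dE0x6 : RT := (.nd (.nd (.nd (.lf ⟨[.ofNat 0, .ofNat 0, .ofNat 480, .ofNat 1128, .ofNat 16], (.tr (.dx 0 (.tr (.lf 5) (.lf 13) (.lf 6))) (.lf 19) (.tr (.lf 9) (.lf 14) (.lf 10))), 0, [0, 0, 0, 0], []⟩)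
    (.lf ⟨[.ofNat 0, .ofNat 0, .ofNat 2720, .negSucc 6055, .negSucc 1295], (.tr (.lf 6) (.lf 19) (.tr (.lf 9) (.dx 0 (.tr (.lf 13) (.lf 5) (.lf 14))) (.lf 10))), 0, [7, 7, 7, 7], []⟩))
    (.nd (.lf ⟨[.ofNat 0, .ofNat 0, .ofNat 2208, .ofNat 2584, .ofNat 88], (.tr (.dx 0 (.tr (.lf 13) (.tw (.lf 5) (.lf 6)) (.lf 14))) (.lf 19) (.tw (.lf 9) (.lf 10))), 0, [19, 19, 19, 19, 19, 19, 19, 19], []⟩)
    (.lf ⟨[.ofNat 0, .ofNat 0, .negSucc 527, .negSucc 1035, .ofNat 128], (.tw (.dx 0 (.tr (.lf 13) (.tr (.tw (.lf 5) (.lf 6)) (.lf 9) (.lf 10)) (.lf 14))) (.lf 19)), 0, [0, 0, 2, 2, 0, 0, 2, 2], []⟩)))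
    (.nd (.nd (.lf ⟨[.negSucc 831, .ofNat 2416, .negSucc 119, .ofNat 176], (.tr (.dx 3 .on) (.tr (.lf 1) (.lf 2) (.tr (.tw (.lf 5) (.lf 6)) (.lf 9) (.lf 10))) (.lf 19)), 3, [23, 23, 21, 21, 15, 15, 13, 13], [1023, 1023, 1017, 1017, 1017, 1017, 1023, 1023]⟩)
    (.lf ⟨[.ofNat 0, .ofNat 0, .ofNat 800, .negSucc 199], (.tr (.dx 3 (.tr (.tw (.lf 1) (.lf 2)) (.lf 5) (.lf 6))) (.tw (.lf 9) (.lf 10)) (.lf 19)), 3, [0, 0, 0, 0, 4, 4, 4, 4], []⟩))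
    (.nd (.lf ⟨[.ofNat 832, .negSucc 2959, .ofNat 816, .negSucc 39], (.tw (.dx 3 (.tr (.lf 1) (.lf 2) (.tr (.tw (.lf 5) (.lf 6)) (.lf 9) (.lf 10)))) (.lf 19)), 3, [0, 0, 2, 2, 8, 8, 10, 10], []⟩)
    (.lf ⟨[.ofNat 0, .ofNat 6912, .negSucc 9327, .negSucc 1027, .ofNat 2184, .ofNat 64], (.tr (.lf 3) (.dx 3 .on) (.tr (.lf 7) (.tw (.lf 17) (.lf 18)) (.lf 11))), 3, [1023, 1023, 1017, 1017], [0, 0, 2, 2]⟩))))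

/-- data -/
def dE0x7 : RT := (.nd (.nd (.nd (.lf ⟨[.ofNat 0, .ofNat 13312, .negSucc 27199, .ofNat 13344, .negSucc 4879, .negSucc 1159], (.tr (.lf 17) (.dx 3 (.lf 3)) (.tr (.lf 7) (.lf 18) (.lf 11))), 3, [23, 21], []⟩)
    (.lf ⟨[.ofNat 0, .ofNat 0, .ofNat 15360, .ofNat 17728, .negSucc 11455], (.tr (.lf 7) (.tr (.dx 3 (.lf 3)) (.lf 17) (.lf 18)) (.lf 11)), 3, [4, 7], []⟩))
    (.nd (.lf ⟨[.ofNat 0, .ofNat 0, .ofNat 2816, .negSucc 895], (.tr (.lf 17) (.lf 18) (.tr (.lf 7) (.dx 3 (.lf 3)) (.lf 11))), 3, [7, 5], []⟩)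
    (.lf ⟨[.ofNat 0, .ofNat 0, .ofNat 4864, .ofNat 1952, .negSucc 159], (.tw (.dx 3 (.lf 3)) (.tr (.lf 7) (.tw (.lf 17) (.lf 18)) (.lf 11))), 3, [23, 23, 21, 21], []⟩)))
    (.nd (.nd (.lf ⟨[.ofNat 0, .negSucc 13311, .negSucc 8943, .negSucc 7727, .ofNat 10968, .negSucc 175], (.tw (.dx 3 (.lf 3)) (.tr (.lf 17) (.tw (.lf 7) (.lf 11)) (.lf 18))), 3, [23, 21, 23, 21], []⟩)
    (.lf ⟨[.ofNat 0, .ofNat 0, .ofNat 0, .ofNat 13312, .negSucc 12415, .ofNat 2848], (.tr (.dx 3 (.lf 3)) (.tr (.lf 7) (.lf 11) (.lf 17)) (.lf 18)), 3, [0, 21], []⟩))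
    (.nd (.lf ⟨[.ofNat 0, .ofNat 0, .ofNat 32768, .ofNat 16832, .negSucc 9055], (.tr (.lf 17) (.lf 7) (.tr (.dx 3 (.lf 3)) (.lf 18) (.lf 11))), 3, [19, 20], []⟩)
    (.lf ⟨[.ofNat 0, .ofNat 6656, .negSucc 20479, .ofNat 1072, .ofNat 144, .negSucc 975], (.tr (.dx 3 (.tw (.lf 3) (.lf 7))) (.lf 11) (.tw (.lf 17) (.lf 18))), 3, [0, 0, 4, 4], []⟩))))

/-- data -/
def dE0x8 : RT := (.nd (.nd (.nd (.lf ⟨[.ofNat 0, .ofNat 0, .ofNat 14016, .negSucc 4591, .negSucc 1567, .ofNat 400], (.tr (.dx 3 (.tw (.lf 3) (.lf 7))) (.tw (.lf 17) (.lf 18)) (.lf 11)), 3, [23, 23, 19, 19], []⟩)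
    (.lf ⟨[.ofNat 0, .ofNat 0, .ofNat 0, .ofNat 0, .ofNat 384, .negSucc 799], (.tr (.dx 3 (.tr (.lf 3) (.lf 7) (.lf 11))) (.lf 17) (.lf 18)), 3, [0, 10], []⟩))
    (.nd (.lf ⟨[.ofNat 0, .negSucc 13311, .negSucc 19535, .negSucc 23247, .ofNat 8400, .ofNat 3680, .ofNat 64], (.tr (.lf 3) (.dx 3 (.lf 17)) (.tr (.lf 7) (.lf 18) (.lf 11))), 3, [23, 21], [1023, 1017]⟩)
    (.lf ⟨[.ofNat 0, .ofNat 0, .ofNat 0, .ofNat 1664, .negSucc 4799, .ofNat 160], (.tr (.dx 3 (.lf 17)) (.tr (.lf 3) (.lf 7) (.lf 11)) (.lf 18)), 3, [23, 13], [1023, 1023]⟩)))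
    (.nd (.nd (.lf ⟨[.ofNat 0, .negSucc 26623, .negSucc 43839, .negSucc 27711, .ofNat 20544, .ofNat 984, .ofNat 64], (.tr (.lf 11) (.dx 3 (.tr (.lf 3) (.lf 17) (.lf 7))) (.lf 18)), 3, [6, 10], []⟩)
    (.lf ⟨[.ofNat 0, .negSucc 26623, .negSucc 47039, .negSucc 21695, .ofNat 20064, .ofNat 4288, .ofNat 128], (.tr (.tw (.dx 3 (.tw (.lf 3) (.lf 17))) (.lf 7)) (.lf 18) (.lf 11)), 3, [23, 23, 4, 1015], []⟩))
    (.nd (.lf ⟨[.ofNat 0, .ofNat 0, .ofNat 19200, .negSucc 383, .ofNat 2336, .ofNat 960], (.tr (.lf 7) (.dx 3 (.tr (.lf 3) (.lf 17) (.lf 18))) (.lf 11)), 3, [4, 7], []⟩)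
    (.lf ⟨[.ofNat 0, .ofNat 0, .negSucc 6975, .ofNat 224, .ofNat 2304, .negSucc 1343, .negSucc 31], (.tw (.dx 3 (.tr (.lf 3) (.tw (.lf 17) (.lf 18)) (.lf 7))) (.lf 11)), 3, [11, 11, 7, 7], []⟩))))

/-- data -/
def dE0x9 : RT := (.nd (.nd (.nd (.lf ⟨[.ofNat 0, .ofNat 0, .negSucc 14015, .ofNat 4592, .ofNat 1184, .ofNat 400], (.tw (.dx 3 (.tr (.lf 17) (.tw (.lf 3) (.lf 7)) (.lf 18))) (.lf 11)), 3, [11, 7, 11, 7], []⟩)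
    (.lf ⟨[.ofNat 0, .ofNat 0, .ofNat 0, .ofNat 0, .ofNat 176], (.tr (.lf 13) (.dx 0 .on) (.tr (.lf 17) (.tr (.lf 7) (.lf 14) (.lf 11)) (.lf 18))), 0, [0, 2, 0, 2], [1023, 1017, 1023, 1017]⟩))
    (.nd (.lf ⟨[.ofNat 0, .ofNat 0, .negSucc 831, .ofNat 2400, .negSucc 79], (.tr (.dx 0 (.tw (.lf 7) (.lf 11))) (.lf 13) (.tr (.lf 17) (.lf 14) (.lf 18))), 0, [0, 0, 2, 2], []⟩)
    (.lf ⟨[.ofNat 0, .ofNat 0, .negSucc 1695, .ofNat 536, .negSucc 927], (.tr (.lf 13) (.dx 0 (.tw (.lf 7) (.lf 11))) (.tr (.lf 17) (.lf 14) (.lf 18))), 0, [0, 0, 2, 2], []⟩)))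
    (.nd (.nd (.lf ⟨[.ofNat 0, .ofNat 0, .negSucc 2047, .negSucc 4319, .ofNat 512], (.tr (.lf 13) (.lf 17) (.tr (.dx 0 (.tw (.lf 7) (.lf 11))) (.lf 14) (.lf 18))), 0, [1015, 1015, 3, 1], []⟩)
    (.lf ⟨[.ofNat 0, .ofNat 0, .ofNat 848, .ofNat 532, .ofNat 64], (.tw (.dx 0 (.tw (.lf 13) (.lf 14))) (.tr (.lf 7) (.tw (.lf 17) (.lf 18)) (.lf 11))), 0, [0, 0, 2, 2, 0, 0, 2, 2], []⟩))
    (.nd (.lf ⟨[.ofNat 0, .ofNat 0, .ofNat 0, .ofNat 1216], (.tr (.dx 0 (.tr (.lf 7) (.tw (.lf 13) (.lf 14)) (.lf 11))) (.lf 17) (.lf 18)), 0, [0, 0, 2, 2], []⟩)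
    (.lf ⟨[.ofNat 0, .ofNat 0, .ofNat 832, .negSucc 2399, .ofNat 80], (.tr (.dx 0 (.tr (.lf 13) (.lf 17) (.lf 14))) (.lf 18) (.tw (.lf 7) (.lf 11))), 0, [23, 21, 23, 21], []⟩))))

/-- data -/
def dE0x10 : RT := (.nd (.nd (.nd (.lf ⟨[.ofNat 0, .ofNat 0, .negSucc 1663, .ofNat 4800, .negSucc 159], (.tr (.dx 0 (.tr (.lf 13) (.lf 17) (.lf 14))) (.tw (.lf 7) (.lf 18)) (.lf 11)), 0, [23, 23, 23, 23], []⟩)
    (.lf ⟨[.ofNat 0, .ofNat 0, .negSucc 1663, .ofNat 3040, .ofNat 32], (.tr (.tw (.lf 7) (.lf 11)) (.dx 0 (.tr (.lf 13) (.lf 17) (.lf 14))) (.lf 18)), 0, [8, 8, 10, 10], []⟩))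
    (.nd (.lf ⟨[.ofNat 0, .ofNat 0, .ofNat 0, .negSucc 2431], (.tw (.dx 0 (.tr (.lf 7) (.tr (.lf 13) (.lf 17) (.lf 14)) (.lf 11))) (.lf 18)), 0, [0, 0, 2, 2], []⟩)
    (.lf ⟨[.ofNat 0, .ofNat 0, .ofNat 0, .ofNat 2432], (.dx 0 (.tr (.lf 7) (.lf 13) (.tr (.lf 11) (.tw (.lf 17) (.lf 18)) (.lf 14)))), 0, [0, 0, 1015, 1015], []⟩)))
    (.nd (.nd (.lf ⟨[.ofNat 0, .ofNat 0, .ofNat 0, .negSucc 1215], (.dx 0 (.tr (.lf 13) (.tr (.lf 7) (.tw (.lf 17) (.lf 18)) (.lf 11)) (.lf 14))), 0, [0, 0, 1, 1], []⟩)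
    (.lf ⟨[.ofNat 0, .ofNat 0, .ofNat 1664, .negSucc 2847, .ofNat 576], (.dx 0 (.tr (.lf 13) (.lf 14) (.tr (.lf 17) (.tw (.lf 7) (.lf 11)) (.lf 18)))), 0, [15, 13, 15, 13], []⟩))
    (.nd (.lf ⟨[.ofNat 0, .ofNat 0, .ofNat 0, .negSucc 2431], (.dx 0 (.tw (.lf 13) (.tr (.lf 7) (.tr (.lf 17) (.lf 14) (.lf 18)) (.lf 11)))), 0, [15, 15, 13, 13], []⟩)
    (.lf ⟨[.ofNat 0, .ofNat 0, .ofNat 0, .ofNat 1408, .negSucc 399], (.tr (.dx 3 .on) (.tr (.lf 7) (.tr (.lf 1) (.lf 17) (.lf 2)) (.lf 11)) (.lf 18)), 3, [19, 19, 17, 17], [19, 19, 17, 17]⟩))))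

/-- data -/
def dE0x11 : RT := (.nd (.nd (.nd (.lf ⟨[.ofNat 0, .ofNat 0, .negSucc 191, .negSucc 783, .ofNat 400], (.tr (.lf 7) (.tr (.lf 1) (.tr (.dx 3 .on) (.lf 17) (.lf 18)) (.lf 2)) (.lf 11)), 3, [1015, 1015, 1015, 1015], [19, 16, 19, 16]⟩)
    (.lf ⟨[.ofNat 0, .ofNat 0, .ofNat 0, .ofNat 0, .negSucc 175], (.tr (.dx 3 (.tw (.lf 1) (.lf 2))) (.lf 7) (.tr (.lf 17) (.lf 11) (.lf 18))), 3, [0, 0, 0, 0], []⟩))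
    (.nd (.lf ⟨[.ofNat 0, .ofNat 0, .ofNat 0, .ofNat 400, .ofNat 556], (.tr (.lf 17) (.dx 3 (.tw (.lf 1) (.lf 2))) (.tr (.lf 7) (.lf 18) (.lf 11))), 3, [23, 21, 23, 21], []⟩)
    (.lf ⟨[.ofNat 0, .ofNat 0, .negSucc 831, .negSucc 1151, .ofNat 304], (.tr (.lf 7) (.tr (.dx 3 (.tw (.lf 1) (.lf 2))) (.lf 17) (.lf 18)) (.lf 11)), 3, [4, 4, 7, 7], []⟩)))
    (.nd (.nd (.lf ⟨[.ofNat 0, .ofNat 0, .ofNat 832, .ofNat 1152, .negSucc 303], (.tw (.lf 7) (.tr (.dx 3 (.tw (.lf 1) (.lf 2))) (.tw (.lf 17) (.lf 18)) (.lf 11))), 3, [4, 4, 4, 4, 20, 20, 20, 20], []⟩)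
    (.lf ⟨[.ofNat 0, .ofNat 0, .negSucc 1663, .ofNat 2656, .negSucc 175], (.tw (.dx 3 (.tw (.lf 1) (.lf 2))) (.tr (.tw (.lf 7) (.lf 11)) (.lf 17) (.lf 18))), 3, [0, 2, 23, 21, 0, 2, 23, 21], []⟩))
    (.nd (.lf ⟨[.ofNat 0, .ofNat 0, .ofNat 0, .negSucc 383, .ofNat 800], (.tw (.dx 3 (.lf 7)) (.tr (.lf 17) (.tr (.lf 1) (.lf 11) (.lf 2)) (.lf 18))), 3, [15, 15, 15, 15], []⟩)
    (.lf ⟨[.ofNat 0, .ofNat 0, .ofNat 1664, .negSucc 2847, .ofNat 576], (.tw (.lf 1) (.tr (.dx 3 (.tw (.lf 7) (.lf 11))) (.tw (.lf 17) (.lf 18)) (.lf 2))), 3, [0, 0, 2, 2, 12, 14, 12, 14], []⟩))))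

/-- data -/
def dE0x12 : RT := (.nd (.nd (.nd (.lf ⟨[.ofNat 0, .ofNat 0, .negSucc 1663, .ofNat 2656, .negSucc 175], (.tw (.dx 3 (.tw (.lf 7) (.lf 11))) (.tr (.tw (.lf 1) (.lf 2)) (.lf 17) (.lf 18))), 3, [8, 8, 15, 15, 10, 10, 13, 13], []⟩)
    (.lf ⟨[.negSucc 6655, .ofNat 16064, .negSucc 7343, .negSucc 3063, .ofNat 848], (.tr (.lf 7) (.tr (.dx 3 (.lf 17)) (.tw (.lf 1) (.lf 2)) (.lf 18)) (.lf 11)), 3, [19, 19, 16, 16], [1015, 1015, 1015, 1015]⟩))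
    (.nd (.lf ⟨[.ofNat 0, .ofNat 0, .ofNat 0, .ofNat 384, .negSucc 799], (.tr (.lf 7) (.lf 13) (.tr (.dx 0 .on) (.tr (.lf 17) (.lf 14) (.lf 18)) (.lf 11))), 0, [4, 4, 15, 15], [4, 4, 8, 8]⟩)
    (.lf ⟨[.ofNat 0, .ofNat 0, .ofNat 3952, .negSucc 5391, .ofNat 704], (.tr (.dx 3 (.tr (.lf 1) (.lf 17) (.lf 2))) (.tw (.lf 7) (.lf 11)) (.lf 18)), 3, [23, 21, 23, 21], []⟩)))
    (.nd (.nd (.lf ⟨[.ofNat 0, .ofNat 0, .ofNat 0, .ofNat 400, .ofNat 556], (.tr (.tw (.lf 1) (.lf 2)) (.dx 3 (.tr (.lf 7) (.lf 17) (.lf 11))) (.lf 18)), 3, [0, 2, 0, 2], []⟩)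
    (.lf ⟨[.ofNat 0, .ofNat 0, .negSucc 223, .ofNat 3608, .ofNat 128], (.tw (.dx 3 (.tr (.lf 7) (.tr (.lf 1) (.lf 17) (.lf 2)) (.lf 11))) (.lf 18)), 3, [4, 4, 6, 6], []⟩))
    (.nd (.lf ⟨[.ofNat 0, .ofNat 0, .ofNat 1024, .ofNat 2160, .negSucc 255], (.tr (.lf 7) (.tr (.dx 3 (.tw (.lf 17) (.lf 18))) (.lf 1) (.lf 2)) (.lf 11)), 3, [7, 7, 4, 4], []⟩)
    (.lf ⟨[.ofNat 0, .ofNat 0, .ofNat 1792, .ofNat 1792, .negSucc 223], (.tr (.lf 7) (.tw (.dx 3 (.tr (.lf 17) (.lf 1) (.lf 18))) (.lf 2)) (.lf 11)), 3, [7, 7, 4, 4], []⟩))))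

/-- data -/
def dE0x13 : RT := (.nd (.nd (.nd (.lf ⟨[.ofNat 0, .ofNat 0, .ofNat 0, .ofNat 3584, .ofNat 2816, .ofNat 64], (.tr (.dx 3 (.tr (.lf 7) (.tw (.lf 17) (.lf 18)) (.lf 11))) (.lf 1) (.lf 2)), 3, [3, 3, 1, 1], []⟩)
    (.lf ⟨[.ofNat 0, .ofNat 0, .negSucc 607], (.tr (.lf 5) (.tr (.lf 13) (.tr (.dx 0 .on) (.tw (.lf 17) (.lf 18)) (.lf 11)) (.lf 14)) (.lf 6)), 0, [4, 4, 5, 5, 4, 4, 5, 5], [4, 4, 5, 5, 4, 4, 5, 5]⟩))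
    (.nd (.lf ⟨[.ofNat 0, .ofNat 0, .ofNat 1120, .negSucc 1031], (.tr (.dx 0 (.lf 11)) (.lf 13) (.tr (.lf 17) (.tr (.lf 5) (.lf 14) (.lf 6)) (.lf 18))), 0, [2, 2, 2, 2], []⟩)
    (.lf ⟨[.ofNat 0, .ofNat 0, .ofNat 800, .negSucc 575], (.tr (.lf 17) (.lf 11) (.tr (.dx 0 (.lf 13)) (.lf 18) (.tr (.lf 5) (.lf 14) (.lf 6)))), 0, [5, 5, 1, 1], [5, 5, 13, 13]⟩)))
    (.nd (.nd (.lf ⟨[.ofNat 0, .ofNat 0, .negSucc 4159, .ofNat 680], (.tr (.lf 14) (.lf 11) (.tr (.lf 17) (.dx 0 (.tr (.lf 5) (.lf 13) (.lf 6))) (.lf 18))), 0, [13, 13, 13, 13], []⟩)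
    (.lf ⟨[.ofNat 0, .ofNat 0, .negSucc 1951, .negSucc 31], (.tr (.dx 0 (.tr (.lf 13) (.lf 5) (.lf 14))) (.lf 11) (.tr (.lf 17) (.lf 6) (.lf 18))), 0, [0, 0, 0, 0], []⟩))
    (.nd (.lf ⟨[.ofNat 0, .ofNat 3328, .negSucc 8383, .negSucc 2479, .ofNat 160], (.tr (.dx 0 (.tr (.lf 11) (.lf 5) (.tw (.lf 13) (.lf 14)))) (.tw (.lf 17) (.lf 18)) (.lf 6)), 0, [2, 2, 2, 2, 1017, 1017, 1017, 1017], []⟩)
    (.lf ⟨[.ofNat 0, .ofNat 0, .negSucc 1663, .ofNat 128, .ofNat 608], (.tr (.lf 18) (.lf 11) (.tr (.lf 5) (.dx 0 (.tr (.lf 13) (.lf 17) (.lf 14))) (.lf 6))), 0, [5, 5, 5, 5], []⟩))))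

/-- data -/
def dE0x14 : RT := (.nd (.nd (.nd (.lf ⟨[.ofNat 0, .ofNat 0, .negSucc 1663, .ofNat 4800, .negSucc 159], (.tr (.lf 11) (.tr (.lf 5) (.dx 0 (.tr (.lf 13) (.lf 17) (.lf 14))) (.lf 6)) (.lf 18)), 0, [10, 10, 10, 10], []⟩)
    (.lf ⟨[.ofNat 0, .ofNat 0, .ofNat 2432], (.tr (.dx 0 (.tr (.lf 13) (.tr (.lf 17) (.lf 5) (.lf 18)) (.lf 14))) (.lf 11) (.lf 6)), 0, [9, 9, 9, 9], []⟩))
    (.nd (.lf ⟨[.ofNat 0, .ofNat 0, .ofNat 2432], (.tr (.lf 5) (.dx 0 (.tr (.lf 13) (.lf 11) (.tr (.lf 17) (.lf 14) (.lf 18)))) (.lf 6)), 0, [4, 4, 5, 5], []⟩)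
    (.lf ⟨[.ofNat 0, .ofNat 0, .ofNat 832, .negSucc 607], (.tr (.dx 3 (.tw (.lf 1) (.lf 2))) (.tr (.tw (.lf 5) (.lf 6)) (.lf 17) (.lf 11)) (.lf 18)), 3, [0, 0, 1017, 1017, 0, 0, 1017, 1017], []⟩)))
    (.nd (.nd (.lf ⟨[.ofNat 0, .ofNat 0, .negSucc 559, .ofNat 516], (.tw (.dx 3 (.tw (.lf 1) (.lf 2))) (.tr (.lf 17) (.tr (.lf 5) (.lf 11) (.lf 6)) (.lf 18))), 3, [0, 0, 0, 0, 0, 0, 0, 0], []⟩)
    (.lf ⟨[.ofNat 0, .ofNat 0, .negSucc 5727, .negSucc 63], (.tr (.dx 3 (.tr (.lf 1) (.lf 5) (.lf 2))) (.lf 11) (.tr (.lf 17) (.lf 6) (.lf 18))), 3, [0, 0, 0, 0], []⟩))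
    (.nd (.lf ⟨[.ofNat 0, .ofNat 0, .ofNat 192, .negSucc 575], (.tr (.dx 3 (.tr (.tw (.lf 1) (.lf 2)) (.lf 5) (.lf 6))) (.lf 11) (.tw (.lf 17) (.lf 18))), 3, [0, 0, 0, 0, 4, 4, 4, 4], []⟩)
    (.lf ⟨[.ofNat 0, .ofNat 0, .negSucc 383, .ofNat 1152], (.tr (.dx 3 (.tr (.tw (.lf 1) (.lf 2)) (.lf 5) (.lf 6))) (.tw (.lf 11) (.lf 17)) (.lf 18)), 3, [0, 0, 0, 0, 4, 4, 4, 4], []⟩))))

/-- data -/
def dE0x15 : RT := (.nd (.nd (.nd (.lf ⟨[.ofNat 0, .ofNat 0, .negSucc 1951, .negSucc 31], (.tr (.dx 3 (.tr (.lf 1) (.lf 17) (.lf 2))) (.lf 11) (.tr (.lf 5) (.lf 18) (.lf 6))), 3, [21, 21, 21, 21], []⟩)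
    (.lf ⟨[.ofNat 0, .ofNat 3328, .negSucc 10719, .ofNat 2776, .ofNat 160], (.tr (.dx 3 (.tr (.tw (.lf 1) (.lf 2)) (.lf 17) (.lf 11))) (.tw (.lf 5) (.lf 6)) (.lf 18)), 3, [1017, 1017, 1017, 1017, 17, 17, 17, 17], []⟩))
    (.nd (.lf ⟨[.ofNat 0, .ofNat 0, .ofNat 192, .ofNat 3824], (.tr (.dx 3 (.tr (.lf 1) (.tr (.lf 2) (.lf 17) (.lf 5)) (.lf 6))) (.lf 11) (.lf 18)), 3, [0, 0, 4, 4], []⟩)
    (.lf ⟨[.ofNat 0, .ofNat 0, .ofNat 608], (.tr (.lf 5) (.tw (.dx 3 (.tr (.lf 17) (.tw (.lf 1) (.lf 2)) (.lf 18))) (.lf 11)) (.lf 6)), 3, [9, 9, 9, 9, 8, 8, 8, 8], []⟩)))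
    (.nd (.nd (.lf ⟨[.ofNat 0, .ofNat 0, .ofNat 96, .negSucc 199], (.tw (.dx 3 (.tr (.lf 17) (.tr (.tw (.lf 1) (.lf 2)) (.lf 5) (.lf 6)) (.lf 18))) (.lf 11)), 3, [11, 11, 7, 7, 11, 11, 7, 7], []⟩)
    (.lf ⟨[.ofNat 0, .ofNat 5744, .negSucc 3599, .ofNat 480], (.tr (.lf 13) (.lf 9) (.tr (.lf 17) (.tr (.tw (.dx 0 (.lf 5)) (.lf 6)) (.lf 14) (.lf 10)) (.lf 18))), 0, [1017, 1017, 17, 13, 1017, 1017, 17, 13], [1017, 1017, 17, 13, 1017, 1017, 17, 13]⟩))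
    (.nd (.lf ⟨[.ofNat 0, .negSucc 639, .ofNat 5200, .negSucc 223], (.tr (.lf 17) (.lf 13) (.tr (.lf 14) (.lf 18) (.tr (.lf 9) (.tw (.dx 0 (.lf 5)) (.lf 6)) (.lf 10)))), 0, [23, 19, 23, 19, 1017, 1017, 1017, 1017], [23, 19, 23, 19, 1017, 1017, 1017, 1017]⟩)
    (.lf ⟨[.ofNat 0, .ofNat 640, .ofNat 4396, .negSucc 1799], (.tr (.dx 0 (.tw (.lf 5) (.lf 6))) (.lf 13) (.tr (.lf 9) (.tr (.lf 17) (.lf 14) (.lf 18)) (.lf 10))), 0, [0, 0, 0, 0, 0, 0, 0, 0], []⟩))))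

/-- data -/
def dE0x16 : RT := (.nd (.nd (.nd (.lf ⟨[.negSucc 6655, .ofNat 4938, .ofNat 5062, .ofNat 2613], (.tr (.lf 9) (.tr (.lf 13) (.dx 0 (.tw (.lf 5) (.lf 6))) (.tr (.lf 17) (.lf 14) (.lf 18))) (.lf 10)), 0, [6, 6, 6, 6, 7, 7, 7, 7], []⟩)
    (.lf ⟨[.ofNat 0, .negSucc 95, .ofNat 200], (.tr (.lf 13) (.tr (.lf 9) (.dx 0 (.tw (.lf 5) (.lf 6))) (.tr (.lf 17) (.lf 10) (.lf 18))) (.lf 14)), 0, [6, 6, 6, 6, 7, 7, 7, 7], []⟩))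
    (.nd (.lf ⟨[.ofNat 0, .ofNat 192, .negSucc 399], (.tr (.lf 13) (.lf 9) (.tr (.dx 0 (.tw (.lf 5) (.lf 6))) (.tr (.lf 17) (.lf 10) (.lf 18)) (.lf 14))), 0, [6, 6, 6, 6, 13, 13, 13, 13], []⟩)
    (.lf ⟨[.ofNat 0, .negSucc 1383, .negSucc 519, .negSucc 135], (.tr (.lf 13) (.tr (.dx 0 (.tr (.lf 5) (.lf 9) (.lf 6))) (.tw (.lf 17) (.lf 18)) (.lf 10)) (.lf 14)), 0, [0, 0, 0, 0, 1, 1, 1, 1], []⟩)))
    (.nd (.nd (.lf ⟨[.ofNat 0, .negSucc 415, .ofNat 1200, .negSucc 39], (.tr (.dx 0 (.tr (.lf 5) (.tw (.lf 9) (.lf 10)) (.lf 6))) (.lf 13) (.tr (.lf 17) (.lf 14) (.lf 18))), 0, [0, 0, 0, 0, 0, 0, 0, 0], []⟩)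
    (.lf ⟨[.ofNat 0, .ofNat 832, .negSucc 2399, .ofNat 80], (.tr (.dx 0 (.tr (.tw (.lf 5) (.lf 9)) (.lf 6) (.lf 10))) (.lf 13) (.tr (.lf 17) (.lf 14) (.lf 18))), 0, [0, 0, 2, 2, 2, 2, 2, 2], []⟩))
    (.nd (.lf ⟨[.ofNat 0, .negSucc 415, .ofNat 32, .ofNat 152], (.tr (.lf 13) (.dx 0 (.tr (.lf 5) (.tw (.lf 9) (.lf 10)) (.lf 6))) (.tr (.lf 17) (.lf 14) (.lf 18))), 0, [0, 0, 0, 0, 0, 0, 0, 0], []⟩)
    (.lf ⟨[.ofNat 0, .ofNat 832, .negSucc 63, .negSucc 303], (.tr (.lf 13) (.dx 0 (.tr (.tw (.lf 5) (.lf 9)) (.lf 6) (.lf 10))) (.tr (.lf 17) (.lf 14) (.lf 18))), 0, [0, 0, 2, 2, 2, 2, 2, 2], []⟩))))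

/-- data -/
def dE0x17 : RT := (.nd (.nd (.nd (.lf ⟨[.ofNat 0, .negSucc 1551, .ofNat 1160, .ofNat 824], (.tr (.dx 0 (.tr (.lf 5) (.lf 13) (.lf 6))) (.tr (.lf 17) (.tw (.lf 9) (.lf 10)) (.lf 18)) (.lf 14)), 0, [0, 0, 0, 0, 0, 0, 0, 0], []⟩)
    (.lf ⟨[.ofNat 0, .negSucc 1935, .ofNat 640, .ofNat 288], (.tr (.lf 9) (.tr (.lf 14) (.dx 0 (.tr (.lf 5) (.lf 13) (.lf 6))) (.tw (.lf 17) (.lf 18))) (.lf 10)), 0, [6, 6, 6, 6, 7, 7, 7, 7], []⟩))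
    (.nd (.lf ⟨[.ofNat 0, .ofNat 3872, .negSucc 1279, .negSucc 575], (.tr (.lf 9) (.lf 14) (.tr (.dx 0 (.tr (.lf 5) (.lf 13) (.lf 6))) (.tw (.lf 17) (.lf 18)) (.lf 10))), 0, [6, 6, 6, 6, 1, 1, 1, 1], []⟩)
    (.lf ⟨[.ofNat 0, .negSucc 1463, .ofNat 260, .ofNat 44], (.tr (.lf 17) (.tr (.tw (.lf 9) (.lf 10)) (.dx 0 (.tr (.lf 5) (.lf 13) (.lf 6))) (.lf 14)) (.lf 18)), 0, [18, 18, 18, 18, 19, 19, 19, 19], []⟩)))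
    (.nd (.nd (.lf ⟨[.ofNat 0, .ofNat 1664, .negSucc 3039, .negSucc 31], (.tw (.lf 14) (.tr (.lf 17) (.tr (.lf 9) (.dx 0 (.tr (.lf 5) (.lf 13) (.lf 6))) (.lf 10)) (.lf 18))), 0, [19, 19, 19, 19, 19, 19, 19, 19], []⟩)
    (.lf ⟨[.ofNat 6656, .ofNat 12000, .negSucc 10895, .negSucc 4863], (.tr (.lf 14) (.dx 0 (.tr (.lf 5) (.lf 13) (.lf 9))) (.tr (.lf 17) (.tw (.lf 6) (.lf 10)) (.lf 18))), 0, [1023, 0, 1023, 0, 2, 1017, 2, 1017], [23, 21, 23, 21]⟩))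
    (.nd (.lf ⟨[.ofNat 0, .ofNat 4176, .negSucc 1111, .negSucc 863], (.tr (.dx 0 (.tw (.lf 13) (.lf 14))) (.tr (.lf 17) (.tr (.lf 9) (.lf 5) (.lf 10)) (.lf 18)) (.lf 6)), 0, [21, 21, 21, 21, 21, 21, 21, 21], []⟩)
    (.lf ⟨[.negSucc 831, .negSucc 8647, .ofNat 24932, .ofNat 2000], (.tr (.dx 0 (.tw (.lf 13) (.lf 14))) (.lf 5) (.tw (.lf 6) (.tr (.lf 9) (.tw (.lf 17) (.lf 18)) (.lf 10)))), 0, [1023, 1023, 1023, 1023, 21, 21, 21, 21, 1023, 1023, 1023, 1023, 21, 21, 21, 21], []⟩))))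

/-- data -/
def dE0x18 : RT := (.nd (.nd (.nd (.lf ⟨[.negSucc 831, .negSucc 5927, .ofNat 27156, .ofNat 3364], (.tr (.lf 5) (.tr (.dx 0 (.tw (.lf 13) (.lf 14))) (.tr (.lf 9) (.lf 17) (.lf 18)) (.lf 10)) (.lf 6)), 0, [1023, 21, 1023, 21, 20, 20, 1023, 1023], []⟩)
    (.lf ⟨[.ofNat 832, .ofNat 5928, .negSucc 27155, .negSucc 3363], (.tr (.lf 5) (.tr (.lf 9) (.lf 10) (.tr (.dx 0 (.tw (.lf 13) (.lf 14))) (.lf 17) (.lf 18))) (.lf 6)), 0, [8, 8, 20, 20, 21, 21, 9, 9], []⟩))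
    (.nd (.lf ⟨[.negSucc 415, .negSucc 2323, .ofNat 12858, .ofNat 1358], (.tr (.lf 5) (.lf 6) (.tr (.lf 9) (.tr (.lf 17) (.dx 0 (.tw (.lf 13) (.lf 14))) (.lf 18)) (.lf 10))), 0, [20, 20, 20, 20, 20, 20, 20, 20], []⟩)
    (.lf ⟨[.negSucc 4991, .ofNat 4808, .negSucc 2275, .ofNat 5132], (.tr (.dx 0 (.tr (.lf 13) (.lf 5) (.lf 14))) (.lf 6) (.tr (.lf 17) (.tw (.lf 9) (.lf 10)) (.lf 18))), 0, [0, 0, 0, 0, 0, 0, 0, 0], []⟩)))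
    (.nd (.nd (.lf ⟨[.ofNat 0, .ofNat 1976, .ofNat 158, .ofNat 32], (.tw (.lf 6) (.tr (.lf 9) (.tr (.lf 17) (.dx 0 (.tr (.lf 13) (.lf 5) (.lf 14))) (.lf 18)) (.lf 10))), 0, [20, 20, 20, 20, 20, 20, 20, 20], []⟩)
    (.lf ⟨[.ofNat 19968, .ofNat 11424, .negSucc 28975, .negSucc 10447], (.tr (.lf 9) (.dx 0 (.tr (.lf 5) (.tw (.lf 13) (.lf 14)) (.lf 6))) (.tr (.lf 17) (.lf 10) (.lf 18))), 0, [6, 6, 6, 6, 6, 6, 6, 6], []⟩))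
    (.nd (.lf ⟨[.negSucc 19967, .negSucc 11423, .ofNat 28976, .ofNat 10448], (.tr (.lf 17) (.dx 0 (.tr (.lf 5) (.tw (.lf 13) (.lf 14)) (.lf 6))) (.tr (.lf 9) (.lf 18) (.lf 10))), 0, [19, 19, 19, 19, 19, 19, 19, 19], []⟩)
    (.lf ⟨[.ofNat 0, .ofNat 416, .ofNat 48], (.tw (.dx 0 (.tr (.lf 5) (.tw (.lf 13) (.lf 14)) (.lf 6))) (.tr (.lf 17) (.tw (.lf 9) (.lf 10)) (.lf 18))), 0, [0, 0, 0, 0, 0, 0, 0, 0, 0, 0, 0, 0, 0, 0, 0, 0], []⟩))))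

/-- data -/
def dE0x19 : RT := (.nd (.nd (.nd (.lf ⟨[.ofNat 0, .negSucc 3535, .ofNat 3104, .ofNat 928], (.tr (.dx 0 (.tr (.lf 5) (.tr (.lf 13) (.lf 9) (.lf 14)) (.lf 6))) (.tw (.lf 17) (.lf 18)) (.lf 10)), 0, [0, 0, 0, 0, 0, 0, 0, 0], []⟩)
    (.lf ⟨[.ofNat 0, .ofNat 96, .negSucc 551], (.tr (.lf 17) (.dx 0 (.tr (.lf 5) (.lf 6) (.tr (.lf 13) (.tw (.lf 9) (.lf 10)) (.lf 14)))) (.lf 18)), 0, [12, 12, 12, 12, 13, 13, 13, 13], []⟩))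
    (.nd (.lf ⟨[.ofNat 0, .ofNat 1280, .ofNat 9112, .negSucc 3599], (.tr (.dx 0 (.tr (.lf 13) (.lf 17) (.lf 14))) (.tr (.tw (.lf 9) (.lf 10)) (.lf 5) (.lf 18)) (.lf 6)), 0, [21, 21, 21, 21, 21, 21, 21, 21], []⟩)
    (.lf ⟨[.ofNat 0, .negSucc 415, .ofNat 1488, .negSucc 135], (.tr (.lf 18) (.dx 0 (.tr (.lf 13) (.lf 17) (.lf 14))) (.tr (.tw (.lf 5) (.lf 6)) (.lf 9) (.lf 10))), 0, [11, 11, 9, 9, 11, 11, 9, 9], []⟩)))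
    (.nd (.nd (.lf ⟨[.ofNat 0, .ofNat 832, .negSucc 2975, .ofNat 272], (.tr (.lf 18) (.dx 0 (.tr (.lf 13) (.lf 17) (.lf 14))) (.tr (.lf 5) (.tw (.lf 6) (.lf 9)) (.lf 10))), 0, [11, 11, 9, 9, 11, 11, 9, 9], []⟩)
    (.lf ⟨[.ofNat 0, .ofNat 0, .negSucc 319], (.tr (.dx 0 (.tr (.lf 13) (.lf 17) (.lf 14))) (.lf 18) (.tr (.tw (.lf 5) (.lf 9)) (.lf 6) (.lf 10))), 0, [23, 23, 23, 21, 23, 23, 23, 21], []⟩))
    (.nd (.lf ⟨[.ofNat 0, .ofNat 832, .negSucc 63, .negSucc 303], (.tr (.dx 0 (.tr (.lf 5) (.tr (.lf 13) (.lf 17) (.lf 14)) (.lf 6))) (.tw (.lf 9) (.lf 10)) (.lf 18)), 0, [0, 0, 0, 0, 0, 0, 0, 0], []⟩)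
    (.lf ⟨[.ofNat 0, .ofNat 832, .negSucc 2399, .ofNat 80], (.tr (.tw (.lf 9) (.lf 10)) (.dx 0 (.tr (.lf 5) (.tr (.lf 13) (.lf 17) (.lf 14)) (.lf 6))) (.lf 18)), 0, [6, 6, 6, 6, 6, 6, 6, 6], []⟩))))

/-- data -/
def dE0x20 : RT := (.nd (.nd (.nd (.lf ⟨[.ofNat 6656, .negSucc 1547, .negSucc 4099, .negSucc 4491], (.tr (.dx 0 (.tr (.lf 13) (.tr (.tw (.lf 5) (.lf 6)) (.lf 17) (.lf 9)) (.lf 14))) (.lf 18) (.lf 10)), 0, [0, 0, 1023, 1023, 0, 0, 1023, 1023], []⟩)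
    (.lf ⟨[.ofNat 0, .negSucc 1551, .negSucc 1559, .ofNat 100], (.tw (.dx 0 (.tr (.lf 5) (.tr (.lf 13) (.tr (.lf 9) (.lf 17) (.lf 10)) (.lf 14)) (.lf 6))) (.lf 18)), 0, [0, 0, 0, 0, 0, 0, 0, 0], []⟩))
    (.nd (.lf ⟨[.ofNat 0, .ofNat 1552, .ofNat 1876, .ofNat 1600], (.tr (.dx 0 (.tr (.lf 13) (.tr (.lf 17) (.lf 5) (.lf 18)) (.lf 14))) (.tw (.lf 9) (.lf 10)) (.lf 6)), 0, [9, 9, 9, 9, 9, 9, 9, 9], []⟩)
    (.lf ⟨[.ofNat 0, .negSucc 1439, .negSucc 799, .ofNat 80], (.dx 0 (.tr (.lf 5) (.lf 6) (.tr (.lf 13) (.tr (.lf 17) (.tw (.lf 9) (.lf 10)) (.lf 18)) (.lf 14)))), 0, [0, 0, 0, 0, 0, 0, 0, 0], []⟩)))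
    (.nd (.nd (.lf ⟨[.ofNat 3328, .negSucc 3999, .negSucc 10191, .negSucc 3351], (.tr (.dx 3 (.tw (.lf 1) (.lf 2))) (.lf 5) (.tr (.lf 17) (.tr (.lf 9) (.lf 6) (.lf 10)) (.lf 18))), 3, [0, 0, 0, 0, 0, 0, 0, 0], []⟩)
    (.lf ⟨[.ofNat 0, .ofNat 416, .negSucc 1039, .ofNat 40], (.tr (.lf 5) (.tr (.dx 3 (.tw (.lf 1) (.lf 2))) (.lf 9) (.tr (.lf 17) (.lf 10) (.lf 18))) (.lf 6)), 3, [4, 4, 4, 4, 5, 5, 5, 5], []⟩))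
    (.nd (.lf ⟨[.ofNat 0, .negSucc 95, .ofNat 552], (.tr (.lf 17) (.tw (.lf 5) (.tr (.lf 6) (.dx 3 (.tw (.lf 1) (.lf 2))) (.tw (.lf 9) (.lf 10)))) (.lf 18)), 3, [16, 16, 16, 16, 20, 20, 20, 20, 21, 21, 21, 21, 17, 17, 17, 17], []⟩)
    (.lf ⟨[.ofNat 0, .ofNat 1184, .negSucc 2831, .negSucc 943], (.tr (.dx 3 (.tw (.lf 1) (.lf 5))) (.tr (.lf 2) (.tr (.lf 9) (.lf 17) (.lf 10)) (.lf 6)) (.lf 18)), 3, [0, 0, 1015, 1015, 1023, 1023, 4, 4], [21, 21, 15, 15]⟩))))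

/-- data -/
def dE0x21 : RT := (.nd (.nd (.nd (.lf ⟨[.ofNat 0, .ofNat 0, .negSucc 815, .ofNat 272], (.tr (.lf 9) (.tw (.dx 3 (.tw (.lf 1) (.lf 5))) (.tr (.lf 17) (.tw (.lf 2) (.lf 6)) (.lf 18))) (.lf 10)), 3, [1017, 1013, 1017, 1013, 1013, 1017, 1013, 1017, 1017, 1013, 1013, 1017, 1017, 1013, 1013, 1017], [23, 19, 23, 19, 18, 22, 18, 22]⟩)
    (.lf ⟨[.ofNat 6656, .negSucc 7999, .negSucc 20383, .negSucc 6703], (.tr (.dx 3 (.tr (.lf 1) (.lf 5) (.lf 2))) (.tr (.lf 6) (.lf 17) (.tw (.lf 9) (.lf 10))) (.lf 18)), 3, [23, 23, 0, 0, 23, 23, 0, 0], []⟩))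
    (.nd (.lf ⟨[.ofNat 0, .ofNat 512, .negSucc 327], (.tr (.dx 3 (.tr (.tw (.lf 1) (.lf 2)) (.lf 5) (.lf 6))) (.lf 9) (.tr (.lf 17) (.lf 10) (.lf 18))), 3, [0, 0, 0, 0, 4, 4, 4, 4], []⟩)
    (.lf ⟨[.ofNat 0, .negSucc 7907, .negSucc 339, .negSucc 2667], (.tr (.lf 9) (.dx 3 (.tr (.lf 1) (.tw (.lf 5) (.lf 6)) (.lf 2))) (.tr (.lf 17) (.lf 10) (.lf 18))), 3, [6, 6, 6, 6, 6, 6, 6, 6], []⟩)))
    (.nd (.nd (.lf ⟨[.ofNat 0, .ofNat 15816, .ofNat 680, .ofNat 5336], (.tr (.lf 9) (.dx 3 (.tr (.tw (.lf 1) (.lf 5)) (.lf 2) (.lf 6))) (.tr (.lf 17) (.lf 10) (.lf 18))), 3, [6, 6, 10, 10, 10, 10, 10, 10], []⟩)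
    (.lf ⟨[.ofNat 0, .ofNat 15304, .negSucc 3343, .ofNat 2582], (.tr (.lf 17) (.dx 3 (.tr (.tw (.lf 1) (.lf 2)) (.lf 5) (.lf 6))) (.tr (.lf 9) (.lf 18) (.lf 10))), 3, [23, 23, 23, 23, 19, 19, 19, 19], []⟩))
    (.nd (.lf ⟨[.ofNat 0, .negSucc 30607, .ofNat 6688, .negSucc 5163], (.tr (.lf 17) (.dx 3 (.tr (.lf 1) (.tw (.lf 2) (.lf 5)) (.lf 6))) (.tr (.lf 9) (.lf 18) (.lf 10))), 3, [23, 23, 23, 23, 19, 19, 19, 19], []⟩)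
    (.lf ⟨[.ofNat 0, .negSucc 3801, .ofNat 1216, .negSucc 150], (.tw (.dx 3 (.tr (.tw (.lf 1) (.lf 2)) (.lf 5) (.lf 6))) (.tr (.lf 9) (.tw (.lf 17) (.lf 18)) (.lf 10))), 3, [23, 23, 23, 23, 23, 23, 23, 23, 19, 19, 19, 19, 19, 19, 19, 19], []⟩))))

/-- data -/
def dE0x22 : RT := (.nd (.nd (.nd (.lf ⟨[.ofNat 0, .ofNat 14792, .negSucc 7367, .negSucc 171], (.tr (.lf 9) (.lf 17) (.tr (.dx 3 (.tr (.tw (.lf 1) (.lf 2)) (.lf 5) (.lf 6))) (.lf 10) (.lf 18))), 3, [18, 18, 22, 22, 18, 18, 22, 22], []⟩)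
    (.lf ⟨[.ofNat 0, .ofNat 8244, .negSucc 3151, .negSucc 21], (.tw (.dx 3 (.tr (.lf 1) (.tw (.lf 2) (.lf 5)) (.lf 6))) (.tr (.lf 9) (.tw (.lf 17) (.lf 18)) (.lf 10))), 3, [23, 23, 23, 23, 23, 23, 23, 23, 19, 19, 19, 19, 19, 19, 19, 19], []⟩))
    (.nd (.lf ⟨[.ofNat 0, .ofNat 1696, .ofNat 1064, .ofNat 128], (.tr (.dx 0 (.tw (.lf 13) (.lf 14))) (.tr (.lf 17) (.lf 5) (.tr (.lf 9) (.lf 6) (.lf 10))) (.lf 18)), 0, [0, 0, 2, 2, 0, 0, 2, 2], []⟩)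
    (.lf ⟨[.ofNat 0, .negSucc 1695, .negSucc 1063, .negSucc 127], (.tr (.dx 0 (.tw (.lf 13) (.lf 14))) (.lf 5) (.tr (.lf 17) (.lf 18) (.tr (.lf 9) (.lf 6) (.lf 10)))), 0, [23, 23, 0, 0, 23, 23, 0, 0], []⟩)))
    (.nd (.nd (.lf ⟨[.ofNat 0, .negSucc 29583, .ofNat 14736, .ofNat 344], (.tr (.lf 9) (.lf 17) (.tr (.dx 3 (.tr (.lf 1) (.tw (.lf 2) (.lf 5)) (.lf 6))) (.lf 10) (.lf 18))), 3, [18, 18, 22, 22, 18, 18, 22, 22], []⟩)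
    (.lf ⟨[.ofNat 0, .ofNat 320, .negSucc 359, .negSucc 161], (.tw (.dx 3 (.tr (.lf 1) (.tw (.lf 5) (.lf 6)) (.lf 2))) (.tr (.lf 9) (.tw (.lf 17) (.lf 18)) (.lf 10))), 3, [19, 19, 19, 19, 19, 19, 19, 19, 19, 19, 19, 19, 19, 19, 19, 19], []⟩))
    (.nd (.lf ⟨[.ofNat 0, .ofNat 696, .negSucc 297], (.tw (.dx 3 (.tr (.tw (.lf 1) (.lf 2)) (.lf 5) (.lf 6))) (.tr (.lf 17) (.tw (.lf 9) (.lf 10)) (.lf 18))), 3, [0, 0, 0, 0, 0, 0, 0, 0, 4, 4, 4, 4, 4, 4, 4, 4], []⟩)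
    (.lf ⟨[.ofNat 0, .negSucc 2975, .ofNat 1592], (.tr (.dx 3 (.tr (.tw (.lf 1) (.lf 2)) (.lf 5) (.lf 6))) (.tr (.lf 9) (.lf 10) (.lf 17)) (.lf 18)), 3, [0, 0, 0, 0, 4, 4, 4, 4], []⟩))))

/-- data -/
def dE0x23 : RT := (.nd (.nd (.nd (.lf ⟨[.ofNat 0, .ofNat 3952, .negSucc 13631, .negSucc 4835, .ofNat 728], (.tw (.dx 3 (.tr (.lf 1) (.lf 5) (.lf 9))) (.tr (.lf 17) (.tr (.lf 2) (.lf 6) (.lf 10)) (.lf 18))), 3, [1023, 1013, 1023, 1013, 1013, 1023, 1013, 1023], [23, 13, 23, 13]⟩)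
    (.lf ⟨[.ofNat 0, .ofNat 0, .ofNat 1696, .negSucc 535, .ofNat 928], (.tw (.dx 3 (.lf 1)) (.tr (.lf 17) (.tr (.lf 7) (.lf 2) (.lf 11)) (.lf 18))), 3, [19, 17, 19, 17], [19, 17, 19, 17]⟩))
    (.nd (.lf ⟨[.ofNat 0, .negSucc 2063, .negSucc 469, .negSucc 139], (.tr (.dx 3 (.tr (.lf 1) (.tr (.lf 5) (.lf 9) (.lf 6)) (.lf 2))) (.tw (.lf 17) (.lf 18)) (.lf 10)), 3, [19, 19, 19, 19, 19, 19, 19, 19], []⟩)
    (.lf ⟨[.ofNat 0, .ofNat 2768, .ofNat 1040, .ofNat 272], (.tr (.dx 3 (.tr (.lf 1) (.tr (.lf 5) (.lf 9) (.lf 6)) (.lf 2))) (.lf 17) (.tw (.lf 10) (.lf 18))), 3, [0, 19, 0, 19, 0, 19, 0, 19], []⟩)))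
    (.nd (.nd (.lf ⟨[.ofNat 0, .negSucc 1039, .ofNat 2136, .negSucc 1225], (.tr (.dx 3 (.lf 17)) (.tr (.lf 1) (.lf 2) (.tr (.tw (.lf 5) (.lf 6)) (.lf 9) (.lf 10))) (.lf 18)), 3, [23, 23, 21, 21, 15, 15, 13, 13], [1023, 1023, 1017, 1017, 1017, 1017, 1023, 1023]⟩)
    (.lf ⟨[.ofNat 0, .ofNat 1248, .negSucc 1839, .ofNat 2292], (.tr (.dx 3 (.lf 17)) (.tr (.lf 1) (.tr (.lf 2) (.tw (.lf 9) (.lf 10)) (.lf 5)) (.lf 6)) (.lf 18)), 3, [21, 21, 17, 17, 13, 13, 15, 15], [1017, 1017, 1017, 1017, 1017, 1017, 1017, 1017]⟩))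
    (.nd (.lf ⟨[.negSucc 6655, .ofNat 9024, .ofNat 11504, .ofNat 5968], (.tr (.lf 1) (.tr (.dx 3 (.lf 17)) (.tr (.lf 2) (.tw (.lf 9) (.lf 10)) (.lf 5)) (.lf 18)) (.lf 6)), 3, [21, 21, 17, 17, 14, 14, 12, 12], [1017, 1017, 1017, 1017, 1017, 1017, 1017, 1017]⟩)
    (.lf ⟨[.negSucc 1663, .ofNat 5872, .ofNat 3664, .ofNat 1752], (.tr (.dx 3 (.tr (.lf 1) (.lf 17) (.lf 2))) (.tr (.tw (.lf 5) (.lf 6)) (.lf 9) (.lf 10)) (.lf 18)), 3, [23, 23, 21, 21, 23, 23, 21, 21], []⟩))))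

/-- data -/
def dE0x24 : RT := (.nd (.nd (.nd (.lf ⟨[.ofNat 0, .ofNat 4768, .negSucc 1551, .negSucc 39], (.tw (.lf 5) (.tr (.lf 18) (.lf 6) (.tr (.lf 9) (.dx 3 (.tr (.lf 1) (.lf 17) (.lf 2))) (.lf 10)))), 3, [20, 20, 20, 20, 8, 8, 8, 8], []⟩)
    (.lf ⟨[.ofNat 0, .negSucc 1311, .negSucc 175, .ofNat 40], (.tr (.lf 5) (.tr (.dx 3 (.tr (.lf 1) (.lf 17) (.lf 2))) (.tw (.lf 6) (.lf 9)) (.lf 18)) (.lf 10)), 3, [23, 23, 23, 23, 20, 20, 20, 20], []⟩))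
    (.nd (.lf ⟨[.ofNat 0, .negSucc 3455, .ofNat 1728], (.tr (.lf 6) (.dx 3 (.tr (.tw (.lf 1) (.lf 2)) (.lf 17) (.lf 5))) (.tr (.lf 9) (.lf 18) (.lf 10))), 3, [23, 23, 23, 23, 1015, 1015, 1015, 1015], []⟩)
    (.lf ⟨[.negSucc 1663, .negSucc 1135, .ofNat 3960, .ofNat 1248], (.tr (.dx 3 (.tr (.lf 1) (.tr (.lf 5) (.lf 17) (.lf 6)) (.lf 2))) (.tw (.lf 9) (.lf 10)) (.lf 18)), 3, [19, 19, 19, 19, 19, 19, 19, 19], []⟩)))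
    (.nd (.nd (.lf ⟨[.negSucc 9983, .ofNat 10816, .ofNat 27520, .ofNat 9024], (.tr (.dx 3 (.tr (.lf 1) (.tr (.lf 2) (.lf 17) (.lf 5)) (.lf 6))) (.tw (.lf 9) (.lf 10)) (.lf 18)), 3, [1023, 1023, 23, 23, 19, 19, 1015, 1015], []⟩)
    (.lf ⟨[.ofNat 0, .ofNat 0, .ofNat 320], (.tr (.lf 9) (.tw (.dx 3 (.tr (.lf 17) (.lf 1) (.tr (.lf 5) (.lf 2) (.lf 6)))) (.lf 18)) (.lf 10)), 3, [1017, 1017, 10, 10, 11, 11, 1017, 1017], []⟩))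
    (.nd (.lf ⟨[.negSucc 3327, .ofNat 22144, .ofNat 20112, .ofNat 5656], (.tr (.dx 3 (.tr (.lf 1) (.tr (.lf 5) (.lf 17) (.lf 9)) (.lf 2))) (.tw (.lf 6) (.lf 10)) (.lf 18)), 3, [1023, 0, 2, 1017, 1023, 0, 2, 1017], []⟩)
    (.lf ⟨[.negSucc 3327, .ofNat 10208, .ofNat 19944, .ofNat 7792], (.tr (.dx 3 (.tr (.lf 5) (.tr (.lf 1) (.lf 17) (.lf 2)) (.lf 9))) (.tw (.lf 6) (.lf 10)) (.lf 18)), 3, [23, 1023, 23, 1023, 1017, 21, 1017, 21], []⟩))))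

/-- data -/
def dE0 : RT := (.nd (.nd (.nd (.nd dE0x0 (.nd dE0x1 dE0x2)) (.nd dE0x3 (.nd dE0x4 dE0x5))) (.nd (.nd dE0x6 (.nd dE0x7 dE0x8)) (.nd dE0x9 (.nd dE0x10 dE0x11)))) (.nd (.nd (.nd dE0x12 (.nd dE0x13 dE0x14)) (.nd dE0x15 (.nd dE0x16 dE0x17))) (.nd (.nd dE0x18 (.nd dE0x19 dE0x20)) (.nd (.nd dE0x21 dE0x22) (.nd dE0x23 dE0x24)))))

/-- data -/
def lE0x0 : List (ℕ × List ℤ) := [(39083, [.ofNat 0, .ofNat 13312, .negSucc 73727, .ofNat 70400, .negSucc 18303, .negSucc 5567, .negSucc 639]),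
  (42597, [.ofNat 0, .ofNat 0, .ofNat 0, .ofNat 15360, .ofNat 1408, .negSucc 319]),
  (42781, [.ofNat 0, .ofNat 0, .ofNat 13696, .negSucc 36223, .ofNat 53728, .negSucc 639]),
  (42796, [.ofNat 0, .ofNat 0, .ofNat 0, .ofNat 6400, .negSucc 3199]),
  (43165, [.ofNat 0, .ofNat 0, .ofNat 36864, .ofNat 81920, .negSucc 6175, .ofNat 256]),
  (43179, [.ofNat 0, .ofNat 0, .negSucc 28671, .negSucc 117503, .ofNat 26752, .negSucc 1919]),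
  (43213, [.ofNat 0, .ofNat 0, .negSucc 105983, .negSucc 51327, .negSucc 15743, .ofNat 640]),
  (43237, [.ofNat 0, .ofNat 0, .negSucc 49535, .ofNat 64960, .negSucc 1823]),
  (43241, [.ofNat 0, .ofNat 0, .ofNat 0, .negSucc 6399, .negSucc 21375, .negSucc 6079, .ofNat 320]),
  (43243, [.ofNat 0, .ofNat 0, .negSucc 21503, .ofNat 34816, .negSucc 12415, .ofNat 320]),
  (43357, [.ofNat 0, .ofNat 0, .ofNat 10496, .negSucc 39103, .ofNat 15936, .negSucc 767]),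
  (43363, [.ofNat 0, .ofNat 0, .ofNat 38528, .negSucc 49535, .negSucc 14335, .negSucc 511]),
  (49821, [.ofNat 0, .ofNat 0, .ofNat 65664, .negSucc 33343, .ofNat 2336]),
  (49835, [.ofNat 0, .ofNat 0, .ofNat 21504, .ofNat 36608, .ofNat 20512, .negSucc 383]),
  (50405, [.ofNat 0, .ofNat 0, .ofNat 39680, .ofNat 35200, .ofNat 29184, .negSucc 895]),
  (50461, [.ofNat 0, .negSucc 133119, .negSucc 172415, .ofNat 238464, .ofNat 62784, .negSucc 511]),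
  (50475, [.ofNat 0, .ofNat 0, .ofNat 10496, .ofNat 22464, .negSucc 59263, .ofNat 3136, .negSucc 319]),
  (50524, [.ofNat 0, .ofNat 0, .negSucc 56575, .negSucc 73471, .negSucc 8959, .negSucc 2879, .ofNat 320]),
  (50525, [.ofNat 0, .ofNat 133120, .ofNat 193408, .negSucc 199551, .negSucc 91263, .ofNat 2240, .negSucc 319]),
  (50531, [.ofNat 0, .ofNat 13312, .ofNat 102144, .negSucc 288895, .negSucc 79679, .ofNat 12288, .negSucc 1919]),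
  (50539, [.ofNat 0, .ofNat 0, .negSucc 27647, .ofNat 37312, .ofNat 4112, .negSucc 8735, .negSucc 255]),
  (51869, [.ofNat 0, .ofNat 0, .ofNat 12032, .ofNat 31360, .negSucc 32319, .negSucc 2367]),
  (136421, [.ofNat 0, .ofNat 0, .ofNat 31616, .negSucc 102271, .negSucc 40831, .ofNat 9536]),
  (136429, [.ofNat 0, .ofNat 0, .ofNat 0, .negSucc 6655, .ofNat 14720, .ofNat 896, .negSucc 1599]),
  (136477, [.ofNat 0, .ofNat 0, .ofNat 58112, .ofNat 39168, .negSucc 43327, .negSucc 3071, .negSucc 159]),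
  (136541, [.ofNat 0, .ofNat 0, .ofNat 137984, .ofNat 44544, .negSucc 78847, .ofNat 7776, .negSucc 1439]),
  (312491, [.ofNat 0, .ofNat 0, .ofNat 17920, .negSucc 18431, .ofNat 7424, .ofNat 2304, .ofNat 128]),
  (333597, [.ofNat 0, .ofNat 133120, .ofNat 14272, .negSucc 192415, .negSucc 49551]),
  (342253, [.ofNat 0, .ofNat 0, .negSucc 47551, .ofNat 25536, .ofNat 10304]),
  (345325, [.ofNat 0, .ofNat 0, .negSucc 45055, .negSucc 17279, .ofNat 384]),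
  (345451, [.ofNat 0, .ofNat 0, .negSucc 30975, .ofNat 10240, .ofNat 4608]),
  (346317, [.ofNat 0, .ofNat 0, .ofNat 5632, .negSucc 15871, .ofNat 1664, .negSucc 255]),
  (346451, [.ofNat 0, .ofNat 0, .ofNat 0, .negSucc 767, .negSucc 3135, .ofNat 1600]),
  (346845, [.ofNat 0, .ofNat 0, .ofNat 13312, .negSucc 36863, .ofNat 7296, .negSucc 1599]),
  (398699, [.ofNat 0, .ofNat 0, .negSucc 39423, .negSucc 19071, .ofNat 384]),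
  (400029, [.ofNat 0, .ofNat 0, .ofNat 6912, .ofNat 1536, .negSucc 127]),
  (403213, [.ofNat 0, .ofNat 0, .ofNat 0, .negSucc 767]),
  (403241, [.ofNat 0, .ofNat 0, .ofNat 0, .negSucc 13055, .ofNat 4352]),
  (403292, [.ofNat 0, .ofNat 0, .ofNat 80320, .negSucc 12095, .negSucc 10943]),
  (403305, [.ofNat 0, .ofNat 0, .ofNat 0, .ofNat 0, .negSucc 5631, .ofNat 1600]),
  (403690, [.ofNat 0, .ofNat 0, .negSucc 10495, .ofNat 29952, .ofNat 11680, .negSucc 127]),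
  (403693, [.ofNat 0, .ofNat 0, .ofNat 5632, .negSucc 1791]),
  (403819, [.ofNat 0, .ofNat 0, .ofNat 30720, .ofNat 35456, .negSucc 22911]),
  (404124, [.ofNat 0, .ofNat 0, .ofNat 80064, .negSucc 7999, .negSucc 10559]),
  (404189, [.ofNat 0, .ofNat 0, .ofNat 0, .ofNat 3712, .negSucc 1439]),
  (404197, [.ofNat 0, .negSucc 26623, .negSucc 40639, .negSucc 33727, .ofNat 21024, .negSucc 2319]),
  (404204, [.ofNat 0, .negSucc 26623, .ofNat 54400, .negSucc 26687, .ofNat 9760, .ofNat 2320]),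
  (404253, [.ofNat 0, .ofNat 26624, .ofNat 47040, .ofNat 21696, .negSucc 20063, .negSucc 4287, .negSucc 127]),
  (404267, [.ofNat 0, .ofNat 0, .negSucc 7967, .ofNat 24800, .ofNat 1728, .ofNat 128]),
  (404316, [.ofNat 0, .ofNat 0, .negSucc 27903, .ofNat 896, .ofNat 9216, .negSucc 5375, .negSucc 127]),
  (404323, [.ofNat 0, .ofNat 0, .ofNat 38400, .negSucc 767, .ofNat 4672, .ofNat 1920]),
  (410973, [.ofNat 0, .ofNat 0, .negSucc 19455, .negSucc 7807, .ofNat 640]),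
  (412317, [.ofNat 0, .ofNat 0, .negSucc 56063, .ofNat 18368, .ofNat 6272, .negSucc 1599]),
  (414956, [.ofNat 0, .ofNat 0, .negSucc 56063, .ofNat 18368, .ofNat 4736, .ofNat 1600]),
  (415068, [.ofNat 0, .ofNat 0, .negSucc 32767, .negSucc 16831, .ofNat 9056]),
  (1090789, [.ofNat 0, .ofNat 0, .ofNat 0, .negSucc 6399, .negSucc 9343, .ofNat 320]),
  (1090797, [.ofNat 0, .ofNat 0, .ofNat 0, .negSucc 3327, .ofNat 9344, .negSucc 319]),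
  (1091373, [.ofNat 0, .ofNat 0, .ofNat 0, .ofNat 0, .ofNat 768, .negSucc 1599]),
  (1091429, [.ofNat 0, .ofNat 0, .ofNat 0, .negSucc 3327, .ofNat 9600, .negSucc 319]),
  (1091741, [.ofNat 0, .ofNat 0, .negSucc 3839, .ofNat 33888, .negSucc 20151, .negSucc 879]),
  (1091789, [.ofNat 0, .negSucc 53247, .negSucc 95999, .ofNat 86400, .ofNat 38144]),
  (1091821, [.ofNat 0, .ofNat 26624, .negSucc 81919, .ofNat 4288, .ofNat 576, .negSucc 3903]),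
  (1091933, [.ofNat 0, .ofNat 53248, .ofNat 3008, .ofNat 768, .negSucc 22399, .negSucc 2143]),
  (1098989, [.ofNat 0, .ofNat 0, .ofNat 0, .ofNat 13312, .negSucc 12415, .ofNat 2848]),
  (2434845, [.ofNat 0, .ofNat 0, .ofNat 3328, .ofNat 6400, .negSucc 319]),
  (2501349, [.ofNat 0, .ofNat 0, .ofNat 0, .ofNat 1600, .ofNat 2224]),
  (2501468, [.ofNat 0, .ofNat 0, .ofNat 0, .ofNat 14336, .ofNat 11264, .ofNat 256]),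
  (2509469, [.ofNat 0, .ofNat 0, .ofNat 0, .ofNat 768, .negSucc 1599]),
  (2513067, [.ofNat 0, .ofNat 0, .ofNat 0, .negSucc 767, .ofNat 1600]),
  (2664221, [.ofNat 0, .ofNat 0, .ofNat 6656, .negSucc 9983, .negSucc 575]),
  (2673373, [.ofNat 0, .ofNat 0, .ofNat 0, .negSucc 8703]),
  (2706275, [.ofNat 0, .ofNat 0, .ofNat 4096, .ofNat 8640, .negSucc 1023]),
  (2726245, [.ofNat 0, .ofNat 0, .negSucc 3327, .ofNat 9600, .negSucc 319]),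
  (2726252, [.ofNat 0, .ofNat 0, .negSucc 6655, .ofNat 12160, .ofNat 128]),
  (2738973, [.ofNat 0, .ofNat 0, .negSucc 6655, .ofNat 12160, .ofNat 128]),
  (2767713, [.ofNat 0, .ofNat 0, .ofNat 0, .ofNat 4864]),
  (2770155, [.ofNat 0, .ofNat 0, .negSucc 27647, .negSucc 11519, .ofNat 640]),
  (2770541, [.ofNat 0, .ofNat 0, .ofNat 0, .ofNat 4864]),
  (2771677, [.ofNat 0, .ofNat 0, .ofNat 3328, .negSucc 15231, .ofNat 1920]),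
  (2774371, [.ofNat 0, .ofNat 0, .ofNat 7168, .ofNat 7168, .negSucc 895]),
  (2775245, [.ofNat 0, .ofNat 0, .ofNat 0, .negSucc 9727]),
  (2775273, [.ofNat 0, .ofNat 0, .ofNat 0, .ofNat 9728]),
  (3222315, [.ofNat 26624, .negSucc 64255, .ofNat 29376, .ofNat 13024, .negSucc 4991]),
  (3226411, [.ofNat 0, .ofNat 0, .ofNat 3328, .negSucc 9599, .ofNat 320]),
  (3233516, [.ofNat 0, .ofNat 0, .ofNat 0, .negSucc 1599, .negSucc 2223]),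
  (3282283, [.ofNat 0, .ofNat 0, .ofNat 6784, .ofNat 4256, .ofNat 512]),
  (8701165, [.ofNat 0, .ofNat 0, .negSucc 6655, .ofNat 10624, .negSucc 703]),
  (8701277, [.ofNat 0, .ofNat 0, .ofNat 0, .ofNat 0, .negSucc 703]),
  (8705309, [.ofNat 0, .ofNat 0, .ofNat 0, .ofNat 0, .ofNat 704]),
  (8722781, [.ofNat 0, .ofNat 0, .ofNat 0, .ofNat 1536, .negSucc 3199]),
  (8729445, [.ofNat 0, .ofNat 0, .negSucc 6783, .ofNat 2144, .negSucc 3711]),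
  (8730965, [.ofNat 0, .ofNat 0, .negSucc 6783, .ofNat 2144, .negSucc 3711]),
  (8733933, [.ofNat 0, .ofNat 0, .ofNat 0, .negSucc 5631, .ofNat 1600]),
  (8734445, [.ofNat 0, .ofNat 0, .negSucc 6655, .ofNat 10624, .negSucc 703]),
  (8738021, [.ofNat 0, .ofNat 0, .negSucc 895, .ofNat 14432, .ofNat 512]),
  (8738589, [.ofNat 0, .ofNat 0, .ofNat 7168, .ofNat 7168, .negSucc 895]),
  (20010730, [.ofNat 0, .ofNat 0, .negSucc 17663, .negSucc 20671, .negSucc 703]),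
  (21387037, [.ofNat 0, .ofNat 0, .ofNat 4480, .negSucc 4127]),
  (21546725, [.ofNat 0, .ofNat 0, .negSucc 12671, .negSucc 4639, .negSucc 511]),
  (21906283, [.ofNat 0, .ofNat 13312, .negSucc 33535, .negSucc 9919, .ofNat 640])]

/-- data -/
def lE0x1 : List (ℕ × List ℤ) := [(21910371, [.ofNat 0, .ofNat 0, .ofNat 9728]),
  (21911765, [.ofNat 0, .ofNat 0, .negSucc 6655, .ofNat 19200, .negSucc 639]),
  (22092515, [.ofNat 0, .ofNat 0, .ofNat 1920, .ofNat 4512, .ofNat 64]),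
  (22135915, [.ofNat 0, .ofNat 0, .ofNat 10880, .negSucc 24223, .negSucc 5183]),
  (22141265, [.ofNat 0, .ofNat 0, .ofNat 9728]),
  (22198113, [.ofNat 0, .ofNat 0, .ofNat 4864]),
  (22201437, [.ofNat 0, .ofNat 0, .negSucc 6655, .ofNat 512, .ofNat 2432]),
  (25515805, [.ofNat 0, .ofNat 0, .ofNat 7808, .ofNat 128]),
  (25602205, [.ofNat 0, .ofNat 0, .ofNat 3200, .negSucc 2303]),
  (25769741, [.ofNat 0, .ofNat 0, .negSucc 4223, .negSucc 8287, .ofNat 1024]),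
  (25778913, [.ofNat 0, .ofNat 0, .negSucc 4863]),
  (25827157, [.ofNat 0, .ofNat 0, .negSucc 7807, .negSucc 127]),
  (26552044, [.ofNat 0, .ofNat 0, .ofNat 768, .negSucc 1599]),
  (69543653, [.ofNat 6656, .negSucc 23679, .ofNat 6528, .negSucc 319]),
  (69543661, [.ofNat 6656, .negSucc 19327, .ofNat 960, .negSucc 1407]),
  (69544157, [.ofNat 0, .ofNat 0, .ofNat 6400, .negSucc 1599]),
  (69544285, [.ofNat 0, .ofNat 0, .negSucc 1535, .ofNat 4608]),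
  (69608797, [.ofNat 0, .ofNat 0, .ofNat 3328, .negSucc 2431]),
  (69620949, [.ofNat 0, .ofNat 0, .negSucc 4479, .ofNat 4128]),
  (69641501, [.ofNat 0, .negSucc 13311, .ofNat 43264, .negSucc 3455, .negSucc 639]),
  (69781333, [.ofNat 0, .ofNat 0, .negSucc 22911, .negSucc 255]),
  (69899549, [.ofNat 0, .ofNat 0, .ofNat 384, .ofNat 7648]),
  (69903133, [.ofNat 0, .ofNat 0, .ofNat 16640, .negSucc 2719]),
  (156129493, [.ofNat 0, .ofNat 6656, .negSucc 19199, .ofNat 640]),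
  (156359394, [.ofNat 3328, .ofNat 18592, .negSucc 102863, .negSucc 10863]),
  (170511133, [.ofNat 0, .ofNat 3328, .negSucc 11903, .ofNat 1088]),
  (170539819, [.ofNat 0, .ofNat 0, .ofNat 1280]),
  (171059051, [.ofNat 0, .ofNat 6784, .ofNat 4256, .ofNat 512]),
  (172374365, [.ofNat 0, .negSucc 767, .ofNat 1600]),
  (172902249, [.ofNat 3328, .ofNat 23712, .negSucc 108623, .negSucc 13455]),
  (172905315, [.ofNat 0, .ofNat 12416, .ofNat 15008, .ofNat 12800]),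
  (173193057, [.ofNat 0, .negSucc 11519, .negSucc 6399, .ofNat 640]),
  (174692709, [.ofNat 0, .ofNat 3328, .negSucc 9599, .ofNat 320]),
  (174692716, [.ofNat 0, .ofNat 2560, .negSucc 20799, .ofNat 896]),
  (175256909, [.ofNat 159744, .ofNat 91392, .negSucc 231807, .negSucc 83583]),
  (176740076, [.ofNat 0, .negSucc 12415, .ofNat 9280, .ofNat 6592]),
  (176741091, [.ofNat 0, .ofNat 15488, .negSucc 5119, .negSucc 2303]),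
  (177087339, [.ofNat 0, .negSucc 28287, .ofNat 24832, .ofNat 7424]),
  (177117922, [.ofNat 0, .negSucc 15807, .negSucc 1263, .negSucc 255]),
  (177125517, [.ofNat 0, .ofNat 6656, .negSucc 18687, .ofNat 640]),
  (177280875, [.ofNat 6656, .ofNat 69184, .negSucc 199455, .negSucc 15999]),
  (177281757, [.ofNat 0, .ofNat 6656, .ofNat 768]),
  (177611485, [.ofNat 0, .ofNat 6656, .negSucc 511, .negSucc 2431]),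
  (204028715, [.ofNat 26624, .negSucc 41215, .negSucc 82463, .negSucc 9471]),
  (204069588, [.ofNat 159744, .ofNat 91392, .negSucc 231807, .negSucc 83583]),
  (204126442, [.ofNat 0, .negSucc 13823, .ofNat 6912]),
  (204813548, [.ofNat 0, .ofNat 122432, .negSucc 26751, .ofNat 20656]),
  (204818154, [.ofNat 0, .ofNat 13824, .negSucc 6911]),
  (205866859, [.ofNat 0, .negSucc 33407, .ofNat 8896, .ofNat 6912]),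
  (205961450, [.ofNat 0, .ofNat 5248, .ofNat 704, .negSucc 159]),
  (206191337, [.ofNat 0, .ofNat 3328, .negSucc 8319, .ofNat 320]),
  (206223467, [.ofNat 26624, .negSucc 6191, .negSucc 16399, .negSucc 17967]),
  (206387533, [.ofNat 0, .ofNat 63264, .ofNat 2720, .ofNat 21344]),
  (206388009, [.ofNat 0, .ofNat 0, .ofNat 1280]),
  (206412586, [.ofNat 26624, .negSucc 36095, .negSucc 46015, .negSucc 23871]),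
  (206416681, [.negSucc 53247, .ofNat 39504, .ofNat 40496, .ofNat 20904]),
  (206613213, [.negSucc 39935, .ofNat 38464, .negSucc 18207, .ofNat 41056]),
  (210150621, [.ofNat 0, .negSucc 5119, .ofNat 5760, .ofNat 2592]),
  (210151125, [.ofNat 0, .negSucc 5119, .ofNat 5760, .ofNat 2592]),
  (211104469, [.ofNat 0, .ofNat 5440, .negSucc 399, .ofNat 32]),
  (212445004, [.ofNat 0, .ofNat 59168, .negSucc 29471, .negSucc 687]),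
  (556349285, [.ofNat 0, .ofNat 3328, .negSucc 9727, .ofNat 640]),
  (556353261, [.ofNat 0, .negSucc 11903, .ofNat 6368]),
  (556353373, [.ofNat 0, .ofNat 4096, .negSucc 2623]),
  (556354269, [.ofNat 0, .negSucc 767, .ofNat 1600]),
  (556357405, [.ofNat 13312, .negSucc 46975, .negSucc 29311, .negSucc 14015]),
  (556390060, [.ofNat 0, .ofNat 11712, .negSucc 2079, .negSucc 351]),
  (557132508, [.ofNat 0, .ofNat 768, .negSucc 4415]),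
  (557136029, [.ofNat 39936, .negSucc 43263, .negSucc 110079, .negSucc 36095]),
  (557136085, [.ofNat 13312, .ofNat 9088, .negSucc 31679, .negSucc 9983]),
  (558192413, [.ofNat 0, .negSucc 22975, .ofNat 14400, .negSucc 1919]),
  (558249813, [.ofNat 26624, .negSucc 31999, .negSucc 81535, .negSucc 26815]),
  (558700893, [.ofNat 0, .ofNat 11072, .ofNat 4160, .ofNat 1088]),
  (558701404, [.ofNat 0, .negSucc 11071, .negSucc 4159, .negSucc 1087]),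
  (558707557, [.ofNat 0, .ofNat 3328, .negSucc 255, .negSucc 1215]),
  (558732645, [.ofNat 0, .negSucc 4991, .ofNat 7360, .negSucc 9167]),
  (558806117, [.ofNat 0, .negSucc 13311, .ofNat 24320, .ofNat 256]),
  (558938837, [.ofNat 0, .ofNat 4736, .negSucc 11327, .negSucc 3775]),
  (558996181, [.ofNat 26624, .ofNat 48000, .negSucc 43583, .negSucc 19455]),
  (559200469, [.ofNat 13312, .negSucc 40831, .negSucc 79775, .negSucc 31167]),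
  (559257813, [.negSucc 13311, .ofNat 88576, .ofNat 80448, .ofNat 22624])]

/-- the sum of the part -/
def lE0 : List (ℕ × List ℤ) := lE0x0 ++ (lE0x1)

theorem okE0 : dE0.all (rok tbE 12) = true := by decide +kernel

theorem sumE0 : aeq (fz (sumT tbE dE0)) lE0 = true := by decide +kernel

end Pool.Agent.H.MP_e16c79_al.IS
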