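import Pool.Agent.H.MP_e16c79_al.IS.BTabE

/-!
# MP_e16c79_al: certificate E, part 1
-/

set_option autoImplicit false

namespace Pool.Agent.H.MP_e16c79_al.IS

/-- data -/
def dE1x0 : RT := (.nd (.nd (.nd (.lf ⟨[.ofNat 0, .negSucc 895, .negSucc 895, .ofNat 112], (.tr (.dx 3 (.tr (.lf 17) (.lf 1) (.lf 18))) (.lf 2) (.tr (.tw (.lf 5) (.lf 6)) (.lf 9) (.lf 10))), 3, [11, 11, 9, 9, 11, 11, 9, 9], []⟩)
    (.lf ⟨[.negSucc 3327, .ofNat 7560, .ofNat 220, .ofNat 1606], (.tr (.dx 3 (.tr (.lf 17) (.lf 1) (.lf 18))) (.tr (.tw (.lf 5) (.lf 6)) (.lf 9) (.lf 10)) (.lf 2)), 3, [3, 3, 1, 1, 3, 3, 1, 1], []⟩))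
    (.nd (.lf ⟨[.ofNat 0, .negSucc 239, .negSucc 1575, .ofNat 156], (.tr (.dx 0 (.tr (.lf 13) (.lf 17) (.tr (.tw (.lf 5) (.lf 6)) (.lf 9) (.lf 10)))) (.lf 14) (.lf 18)), 0, [0, 0, 2, 2, 12, 12, 14, 14], []⟩)
    (.lf ⟨[.ofNat 0, .ofNat 1792, .ofNat 1792, .negSucc 223], (.tr (.dx 3 (.tr (.lf 17) (.lf 1) (.lf 18))) (.lf 2) (.tr (.lf 5) (.tw (.lf 6) (.lf 9)) (.lf 10))), 3, [11, 11, 9, 9, 11, 11, 9, 9], []⟩)))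
    (.nd (.nd (.lf ⟨[.ofNat 6656, .negSucc 15119, .negSucc 439, .negSucc 3211], (.tr (.dx 3 (.tr (.lf 17) (.lf 1) (.lf 18))) (.lf 5) (.tr (.lf 2) (.tw (.lf 9) (.lf 10)) (.lf 6))), 3, [9, 9, 3, 3, 9, 9, 3, 3], []⟩)
    (.lf ⟨[.negSucc 6655, .ofNat 15120, .ofNat 440, .ofNat 3212], (.tr (.dx 3 (.tr (.lf 17) (.lf 1) (.lf 18))) (.tr (.lf 5) (.lf 2) (.tw (.lf 9) (.lf 10))) (.lf 6)), 3, [9, 9, 5, 5, 9, 9, 5, 5], []⟩))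
    (.nd (.lf ⟨[.ofNat 6656, .negSucc 15119, .negSucc 439, .negSucc 3211], (.tr (.lf 5) (.lf 6) (.tr (.dx 3 (.tr (.lf 17) (.lf 1) (.lf 18))) (.tw (.lf 9) (.lf 10)) (.lf 2))), 3, [4, 4, 4, 4, 4, 4, 4, 4], []⟩)
    (.lf ⟨[.ofNat 0, .ofNat 1472, .ofNat 1480, .ofNat 856], (.tr (.lf 2) (.lf 5) (.tr (.lf 6) (.dx 3 (.tr (.lf 17) (.lf 1) (.lf 18))) (.tw (.lf 9) (.lf 10)))), 3, [7, 7, 7, 7, 0, 0, 0, 0], []⟩))))

/-- data -/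
def dE1x1 : RT := (.nd (.nd (.nd (.lf ⟨[.ofNat 0, .ofNat 6872, .negSucc 3343, .ofNat 1220], (.tw (.lf 2) (.tr (.lf 5) (.tr (.lf 6) (.dx 3 (.tr (.lf 17) (.lf 1) (.lf 18))) (.lf 9)) (.lf 10))), 3, [7, 7, 0, 0, 2, 2, 5, 5], []⟩)
    (.lf ⟨[.ofNat 0, .negSucc 3415, .ofNat 1616, .negSucc 1219], (.tr (.dx 0 (.tw (.lf 5) (.tr (.lf 13) (.tr (.lf 17) (.lf 9) (.lf 18)) (.lf 14)))) (.lf 6) (.lf 10)), 0, [11, 11, 11, 11, 11, 11, 11, 11], []⟩))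
    (.nd (.lf ⟨[.ofNat 0, .negSucc 1791, .negSucc 1791, .ofNat 224], (.tw (.lf 5) (.tr (.dx 3 (.tr (.lf 17) (.lf 1) (.lf 18))) (.lf 2) (.tr (.lf 9) (.lf 6) (.lf 10)))), 3, [11, 11, 11, 11, 8, 8, 8, 8], []⟩)
    (.lf ⟨[.ofNat 0, .negSucc 1879, .negSucc 4243, .negSucc 1601], (.tr (.lf 5) (.dx 3 (.tr (.lf 1) (.tw (.lf 17) (.lf 18)) (.lf 2))) (.tr (.lf 9) (.lf 6) (.lf 10))), 3, [11, 11, 11, 11, 11, 11, 11, 11], []⟩)))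
    (.nd (.nd (.lf ⟨[.negSucc 4991, .ofNat 2678, .ofNat 7146, .ofNat 3414], (.tw (.dx 3 (.tr (.lf 1) (.tw (.lf 17) (.lf 18)) (.lf 2))) (.tr (.lf 5) (.tw (.lf 9) (.lf 10)) (.lf 6))), 3, [9, 9, 9, 9, 9, 9, 9, 9, 9, 9, 9, 9, 9, 9, 9, 9], []⟩)
    (.lf ⟨[.ofNat 0, .ofNat 3760, .ofNat 8488, .ofNat 3204], (.tr (.lf 9) (.lf 5) (.tr (.lf 6) (.lf 10) (.tr (.lf 17) (.dx 0 (.tw (.lf 13) (.lf 14))) (.lf 18)))), 0, [22, 22, 22, 22, 21, 21, 21, 21], []⟩))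
    (.nd (.lf ⟨[.ofNat 0, .negSucc 13311, .ofNat 27136, .ofNat 11136, .ofNat 60352, .ofNat 576, .ofNat 544], (.tr (.lf 15) (.dx 0 .on) (.tr (.lf 7) (.lf 19) (.lf 11))), 0, [23, 21], [23, 21]⟩)
    (.lf ⟨[.ofNat 0, .ofNat 0, .negSucc 767, .negSucc 3519, .ofNat 10112, .ofNat 1472, .ofNat 128], (.tr (.dx 3 .on) (.lf 3) (.tr (.lf 7) (.lf 19) (.lf 11))), 3, [23, 21], [23, 21]⟩))))

/-- data -/
def dE1x2 : RT := (.nd (.nd (.nd (.lf ⟨[.ofNat 0, .ofNat 0, .negSucc 2047, .ofNat 3520, .negSucc 12479, .negSucc 1247, .negSucc 127], (.tw (.lf 3) (.tr (.dx 3 .on) (.tw (.lf 7) (.lf 11)) (.lf 19))), 3, [0, 2, 12, 14], [0, 2, 12, 14]⟩)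
    (.lf ⟨[.ofNat 0, .ofNat 0, .ofNat 1408, .negSucc 3967, .ofNat 416, .negSucc 63], (.tr (.lf 19) (.dx 0 .on) (.tr (.lf 7) (.tw (.lf 13) (.lf 14)) (.lf 11))), 0, [11, 11, 9, 9], [11, 11, 9, 9]⟩))
    (.nd (.lf ⟨[.ofNat 0, .negSucc 13311, .ofNat 29952, .ofNat 45536, .ofNat 10752, .negSucc 1279], (.tr (.lf 19) (.dx 0 (.lf 13)) (.tr (.lf 7) (.lf 14) (.lf 11))), 0, [11, 9], [11, 9]⟩)
    (.lf ⟨[.ofNat 0, .ofNat 13312, .negSucc 19455, .negSucc 43935, .negSucc 6591, .ofNat 1120], (.tr (.lf 19) (.lf 2) (.tr (.lf 7) (.dx 3 (.lf 1)) (.lf 11))), 3, [7, 5], [11, 9]⟩)))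
    (.nd (.nd (.lf ⟨[.ofNat 0, .negSucc 6655, .ofNat 11520, .ofNat 1216, .negSucc 383, .ofNat 800], (.tr (.dx 0 .on) (.tr (.lf 7) (.lf 19) (.lf 11)) (.lf 15)), 0, [12, 14], [12, 14]⟩)
    (.lf ⟨[.ofNat 0, .ofNat 0, .ofNat 7168, .ofNat 256, .negSucc 5503, .negSucc 127], (.tr (.lf 3) (.tr (.lf 7) (.dx 3 .on) (.lf 11)) (.lf 19)), 3, [0, 2], [0, 2]⟩))
    (.nd (.lf ⟨[.ofNat 0, .ofNat 0, .ofNat 5632, .negSucc 1791], (.tr (.lf 3) (.lf 7) (.tr (.dx 3 .on) (.lf 11) (.lf 19))), 3, [0, 12], [0, 12]⟩)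
    (.lf ⟨[.ofNat 0, .ofNat 0, .ofNat 4992, .ofNat 176, .negSucc 13115, .negSucc 279], (.tr (.dx 0 (.lf 13)) (.tr (.lf 7) (.lf 14) (.lf 11)) (.lf 19)), 0, [0, 2], [0, 2]⟩))))

/-- data -/
def dE1x3 : RT := (.nd (.nd (.nd (.lf ⟨[.ofNat 0, .ofNat 0, .ofNat 1664, .ofNat 448, .ofNat 12448, .ofNat 128], (.tr (.lf 2) (.tr (.lf 7) (.dx 3 (.lf 1)) (.lf 11)) (.lf 19)), 3, [0, 2], [0, 2]⟩)
    (.lf ⟨[.ofNat 0, .ofNat 0, .ofNat 1664, .negSucc 8191, .negSucc 191, .ofNat 2816], (.tr (.lf 3) (.tr (.lf 7) (.dx 3 (.lf 17)) (.lf 11)) (.lf 18)), 3, [0, 2], [0, 2]⟩))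
    (.nd (.lf ⟨[.ofNat 0, .ofNat 0, .ofNat 0, .ofNat 1664, .negSucc 5951, .ofNat 2560], (.tr (.dx 3 (.tw (.lf 3) (.lf 17))) (.lf 18) (.tw (.lf 7) (.lf 11))), 3, [23, 21, 23, 21], []⟩)
    (.lf ⟨[.ofNat 0, .ofNat 0, .negSucc 14591, .ofNat 20736, .negSucc 25471, .negSucc 2175], (.tr (.lf 15) (.dx 0 .on) (.tr (.lf 7) (.lf 11) (.lf 19))), 0, [0, 21], [1023, 21]⟩)))
    (.nd (.nd (.lf ⟨[.ofNat 0, .ofNat 0, .ofNat 10496, .negSucc 17407, .ofNat 8832, .ofNat 2816], (.tr (.lf 7) (.tr (.dx 0 .on) (.lf 19) (.lf 11)) (.lf 15)), 0, [16, 20], [16, 20]⟩)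
    (.lf ⟨[.ofNat 0, .ofNat 0, .negSucc 383, .ofNat 1824, .ofNat 800], (.tr (.lf 15) (.dx 0 .on) (.tr (.lf 11) (.tw (.lf 5) (.lf 6)) (.lf 19))), 0, [1017, 1017, 23, 23], [21, 21, 23, 23]⟩))
    (.nd (.lf ⟨[.ofNat 0, .ofNat 0, .ofNat 0, .negSucc 21631, .ofNat 59200, .ofNat 16528, .negSucc 1919], (.tr (.lf 7) (.tr (.dx 0 .on) (.lf 15) (.lf 19)) (.lf 11)), 0, [4, 7], [4, 7]⟩)
    (.lf ⟨[.ofNat 0, .ofNat 0, .ofNat 3712, .negSucc 29215, .ofNat 45504, .ofNat 11216, .negSucc 1599], (.tr (.lf 3) (.tr (.dx 3 .on) (.lf 19) (.lf 11)) (.lf 7)), 3, [21, 14], [21, 14]⟩))))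

/-- data -/
def dE1x4 : RT := (.nd (.nd (.nd (.lf ⟨[.ofNat 0, .ofNat 0, .ofNat 3200, .ofNat 4512, .ofNat 64], (.tr (.lf 3) (.tr (.lf 11) (.dx 3 .on) (.lf 19)) (.lf 7)), 3, [2, 9], [2, 9]⟩)
    (.lf ⟨[.ofNat 0, .ofNat 0, .ofNat 0, .negSucc 17151, .ofNat 17280, .negSucc 319], (.tr (.lf 7) (.tr (.dx 0 (.lf 13)) (.lf 14) (.lf 19)) (.lf 11)), 0, [4, 7], [4, 7]⟩))
    (.nd (.lf ⟨[.ofNat 0, .ofNat 0, .ofNat 10112, .negSucc 17759, .negSucc 5767, .ofNat 800], (.tr (.lf 7) (.tr (.dx 3 .on) (.lf 19) (.tw (.lf 1) (.lf 2))) (.lf 11)), 3, [19, 19, 16, 16], [19, 19, 16, 16]⟩)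
    (.lf ⟨[.ofNat 0, .ofNat 0, .negSucc 8319, .negSucc 2559, .ofNat 12064, .negSucc 319], (.tr (.lf 7) (.tr (.dx 3 (.lf 1)) (.lf 19) (.lf 2)) (.lf 11)), 3, [19, 16], [19, 16]⟩)))
    (.nd (.nd (.lf ⟨[.ofNat 0, .negSucc 26623, .negSucc 64639, .ofNat 18176, .ofNat 25376, .negSucc 319], (.tr (.lf 7) (.tw (.dx 0 (.tw (.lf 13) (.lf 19))) (.lf 14)) (.lf 11)), 0, [4, 16, 19, 7], []⟩)
    (.lf ⟨[.ofNat 0, .ofNat 13312, .ofNat 107264, .negSucc 20575, .negSucc 24095, .ofNat 320], (.tr (.lf 7) (.tw (.dx 3 (.tw (.lf 1) (.lf 19))) (.lf 2)) (.lf 11)), 3, [7, 7, 4, 4], []⟩))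
    (.nd (.lf ⟨[.ofNat 0, .ofNat 0, .ofNat 0, .ofNat 2112, .negSucc 12495, .ofNat 256], (.tr (.lf 3) (.tr (.dx 3 (.lf 17)) (.lf 18) (.lf 11)) (.lf 7)), 3, [21, 14], [21, 14]⟩)
    (.lf ⟨[.ofNat 0, .ofNat 0, .negSucc 191, .ofNat 176], (.tr (.lf 7) (.tr (.lf 17) (.dx 3 .on) (.tr (.lf 1) (.lf 18) (.lf 2))) (.lf 11)), 3, [19, 19, 16, 16], [19, 19, 16, 16]⟩))))

/-- data -/
def dE1x5 : RT := (.nd (.nd (.nd (.lf ⟨[.ofNat 0, .negSucc 13311, .ofNat 24576, .ofNat 21248, .negSucc 18559, .ofNat 320], (.tr (.dx 0 .on) (.tr (.lf 11) (.lf 15) (.lf 19)) (.lf 7)), 0, [2, 14], [2, 9]⟩)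
    (.lf ⟨[.ofNat 0, .negSucc 13311, .ofNat 24576, .negSucc 4863, .ofNat 13312, .ofNat 8832, .negSucc 639], (.tr (.dx 0 .on) (.lf 7) (.tr (.lf 11) (.lf 15) (.lf 19))), 0, [0, 12], [0, 12]⟩))
    (.nd (.lf ⟨[.ofNat 0, .ofNat 0, .ofNat 1536, .negSucc 10111, .ofNat 47360, .ofNat 12032, .ofNat 480], (.tr (.lf 15) (.lf 19) (.tr (.dx 0 .on) (.lf 7) (.lf 11))), 0, [23, 13], [23, 13]⟩)
    (.lf ⟨[.ofNat 0, .ofNat 0, .negSucc 3327, .ofNat 7296, .negSucc 8703, .negSucc 4927, .ofNat 320], (.tw (.lf 15) (.tr (.tw (.lf 7) (.lf 11)) (.dx 0 .on) (.lf 19))), 0, [15, 13, 23, 21], [1017, 1023, 23, 21]⟩)))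
    (.nd (.nd (.lf ⟨[.ofNat 0, .ofNat 0, .ofNat 8448, .negSucc 1919, .negSucc 27711, .negSucc 5695, .negSucc 959], (.tr (.lf 7) (.tr (.lf 11) (.dx 0 .on) (.lf 19)) (.lf 15)), 0, [20, 16], [20, 16]⟩)
    (.lf ⟨[.ofNat 0, .ofNat 0, .ofNat 0, .negSucc 4479, .negSucc 40127, .ofNat 4064, .negSucc 191], (.tr (.lf 15) (.lf 7) (.tr (.dx 0 .on) (.lf 19) (.lf 11))), 0, [19, 15], [19, 15]⟩))
    (.nd (.lf ⟨[.ofNat 0, .ofNat 0, .ofNat 7680, .negSucc 2111, .ofNat 7040, .negSucc 2815, .ofNat 800], (.tr (.lf 15) (.lf 19) (.tr (.lf 7) (.dx 0 .on) (.lf 11))), 0, [19, 17], [19, 17]⟩)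
    (.lf ⟨[.ofNat 0, .ofNat 0, .negSucc 2623, .ofNat 1984, .negSucc 687, .negSucc 31], (.tr (.lf 15) (.lf 11) (.tr (.dx 0 .on) (.lf 19) (.tw (.lf 5) (.lf 6)))), 0, [17, 17, 13, 13], [17, 17, 13, 13]⟩))))

/-- data -/
def dE1x6 : RT := (.nd (.nd (.nd (.lf ⟨[.ofNat 0, .ofNat 0, .ofNat 0, .negSucc 831, .negSucc 1599, .ofNat 80], (.tr (.lf 15) (.lf 19) (.tr (.dx 0 .on) (.lf 11) (.tw (.lf 5) (.lf 6)))), 0, [21, 21, 15, 15], [21, 21, 15, 15]⟩)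
    (.lf ⟨[.ofNat 0, .ofNat 0, .ofNat 0, .ofNat 384, .ofNat 18880, .negSucc 3391, .ofNat 1440], (.tr (.lf 19) (.dx 3 .on) (.tr (.lf 3) (.lf 7) (.lf 11))), 3, [11, 1], [11, 1]⟩))
    (.nd (.lf ⟨[.ofNat 0, .ofNat 0, .negSucc 5247, .negSucc 11647, .negSucc 1903, .ofNat 128], (.tr (.lf 14) (.lf 19) (.tr (.lf 7) (.dx 0 (.lf 13)) (.lf 11))), 0, [7, 5], [19, 17]⟩)
    (.lf ⟨[.ofNat 0, .ofNat 0, .ofNat 704, .negSucc 12383, .ofNat 848, .ofNat 160], (.tr (.lf 19) (.lf 14) (.tr (.lf 7) (.dx 0 (.lf 13)) (.lf 11))), 0, [7, 5], [7, 5]⟩)))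
    (.nd (.nd (.lf ⟨[.ofNat 0, .ofNat 0, .ofNat 0, .negSucc 2431], (.tr (.lf 19) (.dx 3 .on) (.tr (.lf 7) (.tw (.lf 1) (.lf 2)) (.lf 11))), 3, [7, 7, 5, 5], [7, 7, 5, 5]⟩)
    (.lf ⟨[.ofNat 0, .ofNat 0, .ofNat 18112, .negSucc 14879, .ofNat 432], (.tr (.lf 19) (.dx 3 (.lf 1)) (.tr (.lf 7) (.lf 2) (.lf 11))), 3, [7, 5], [7, 5]⟩))
    (.nd (.lf ⟨[.ofNat 0, .ofNat 0, .negSucc 1919, .ofNat 1328], (.tr (.lf 17) (.dx 3 .on) (.tr (.lf 7) (.tr (.lf 1) (.lf 18) (.lf 2)) (.lf 11))), 3, [19, 19, 17, 17], [19, 19, 17, 17]⟩)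
    (.lf ⟨[.ofNat 0, .ofNat 0, .ofNat 5184, .negSucc 29823, .ofNat 23424, .ofNat 5952, .negSucc 319], (.tr (.dx 0 (.lf 7)) (.tw (.lf 11) (.lf 15)) (.lf 19)), 0, [0, 0], []⟩))))

/-- data -/
def dE1x7 : RT := (.nd (.nd (.nd (.lf ⟨[.ofNat 0, .ofNat 0, .ofNat 41280, .ofNat 34944, .negSucc 41311, .ofNat 448], (.tr (.tw (.dx 0 (.lf 7)) (.lf 15)) (.lf 11) (.lf 19)), 0, [0, 0], []⟩)
    (.lf ⟨[.ofNat 0, .ofNat 0, .negSucc 43135, .negSucc 62463, .ofNat 51072, .negSucc 11647, .ofNat 1920], (.tr (.dx 0 (.lf 7)) (.lf 15) (.tw (.lf 11) (.lf 19))), 0, [0, 0], []⟩))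
    (.nd (.lf ⟨[.ofNat 0, .ofNat 0, .ofNat 46464, .ofNat 77056, .negSucc 19359, .ofNat 14208, .negSucc 2239], (.tr (.tw (.dx 0 (.lf 7)) (.lf 15)) (.lf 19) (.lf 11)), 0, [0, 19], []⟩)
    (.lf ⟨[.ofNat 0, .ofNat 0, .ofNat 28800, .negSucc 29951, .ofNat 19840, .ofNat 768], (.tr (.lf 11) (.tw (.dx 0 (.lf 7)) (.lf 15)) (.lf 19)), 0, [6, 6], []⟩)))
    (.nd (.nd (.lf ⟨[.ofNat 0, .ofNat 0, .ofNat 0, .negSucc 159], (.tw (.lf 15) (.tr (.dx 0 (.lf 5)) (.lf 19) (.tr (.lf 9) (.lf 6) (.lf 10)))), 0, [23, 23, 13, 13], [23, 23, 15, 15]⟩)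
    (.lf ⟨[.ofNat 0, .ofNat 0, .ofNat 27392, .negSucc 8191, .negSucc 6367, .negSucc 5631, .ofNat 1600], (.tr (.dx 0 (.tw (.lf 7) (.lf 15))) (.lf 11) (.lf 19)), 0, [0, 0], []⟩))
    (.nd (.lf ⟨[.ofNat 0, .ofNat 0, .ofNat 8960, .negSucc 40319, .negSucc 26559, .negSucc 5375, .negSucc 959], (.tr (.dx 0 (.tw (.lf 7) (.lf 15))) (.lf 19) (.lf 11)), 0, [0, 0], []⟩)
    (.lf ⟨[.ofNat 0, .ofNat 0, .ofNat 24960, .ofNat 46656, .ofNat 800, .negSucc 11007, .ofNat 640], (.tr (.lf 11) (.dx 0 (.tw (.lf 7) (.lf 15))) (.lf 19)), 0, [6, 6], []⟩))))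

/-- data -/
def dE1x8 : RT := (.nd (.nd (.nd (.lf ⟨[.ofNat 0, .ofNat 0, .negSucc 8703, .negSucc 23295, .ofNat 1600, .negSucc 2559, .ofNat 320], (.tw (.dx 0 (.tr (.lf 7) (.lf 11) (.lf 15))) (.lf 19)), 0, [0, 2], []⟩)
    (.lf ⟨[.ofNat 0, .ofNat 0, .negSucc 11903, .ofNat 23296, .negSucc 8223, .ofNat 384], (.tr (.dx 0 .on) (.tr (.tw (.lf 5) (.lf 6)) (.lf 11) (.lf 19)) (.lf 15)), 0, [12, 12, 14, 14], [12, 12, 14, 14]⟩))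
    (.nd (.lf ⟨[.ofNat 0, .ofNat 0, .ofNat 11904, .negSucc 29439, .ofNat 2720, .negSucc 63], (.tr (.lf 15) (.dx 0 .on) (.tr (.tw (.lf 5) (.lf 6)) (.lf 19) (.lf 11))), 0, [23, 23, 21, 21], [23, 23, 21, 21]⟩)
    (.lf ⟨[.ofNat 0, .ofNat 0, .ofNat 6656, .negSucc 23679, .negSucc 4991, .ofNat 320], (.tr (.lf 11) (.lf 15) (.tr (.dx 0 .on) (.tw (.lf 5) (.lf 6)) (.lf 19))), 0, [6, 6, 13, 13], [6, 6, 13, 13]⟩)))
    (.nd (.nd (.lf ⟨[.ofNat 0, .ofNat 0, .ofNat 5952, .negSucc 11647, .ofNat 2704, .ofNat 208], (.tr (.lf 15) (.lf 19) (.tr (.dx 0 .on) (.tw (.lf 5) (.lf 6)) (.lf 11))), 0, [23, 23, 13, 13], [23, 23, 13, 13]⟩)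
    (.lf ⟨[.ofNat 0, .negSucc 2975, .ofNat 5824, .negSucc 2759, .ofNat 296], (.tr (.lf 15) (.lf 19) (.tw (.dx 0 .on) (.tr (.tw (.lf 5) (.lf 6)) (.lf 9) (.lf 10)))), 0, [23, 23, 21, 21, 15, 15, 13, 13], [23, 23, 21, 21, 15, 15, 13, 13]⟩))
    (.nd (.lf ⟨[.ofNat 0, .ofNat 2624, .negSucc 895, .ofNat 3648, .negSucc 159], (.tr (.dx 0 .on) (.tw (.lf 19) (.tr (.tw (.lf 5) (.lf 6)) (.lf 9) (.lf 10))) (.lf 15)), 0, [12, 12, 14, 14, 12, 12, 14, 14], [12, 12, 14, 14, 12, 12, 14, 14]⟩)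
    (.lf ⟨[.ofNat 1664, .negSucc 5375, .ofNat 936, .negSucc 215], (.tr (.lf 19) (.dx 3 .on) (.tr (.lf 1) (.lf 2) (.tr (.tw (.lf 5) (.lf 6)) (.lf 9) (.lf 10)))), 3, [11, 11, 9, 9, 3, 3, 1, 1], [11, 11, 9, 9, 3, 3, 1, 1]⟩))))

/-- data -/
def dE1x9 : RT := (.nd (.nd (.nd (.lf ⟨[.ofNat 0, .ofNat 6656, .negSucc 12287, .negSucc 8575, .negSucc 1887, .negSucc 479], (.tr (.lf 15) (.lf 11) (.tr (.tw (.lf 5) (.lf 6)) (.dx 0 .on) (.lf 19))), 0, [13, 13, 17, 17], [1023, 1023, 17, 17]⟩)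
    (.lf ⟨[.ofNat 0, .ofNat 2624, .negSucc 1151, .negSucc 1743, .ofNat 192], (.tr (.lf 15) (.dx 0 .on) (.tw (.lf 19) (.tr (.tw (.lf 5) (.lf 6)) (.lf 9) (.lf 10)))), 0, [23, 23, 21, 21, 1023, 1023, 1017, 1017], [23, 23, 21, 21, 23, 23, 21, 21]⟩))
    (.nd (.lf ⟨[.ofNat 0, .negSucc 10495, .ofNat 4608, .ofNat 6976, .negSucc 767], (.tr (.lf 5) (.lf 6) (.tr (.lf 15) (.dx 0 .on) (.tr (.lf 9) (.lf 10) (.lf 19)))), 0, [4, 1015, 20, 20], [4, 1015, 20, 20]⟩)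
    (.lf ⟨[.ofNat 0, .ofNat 0, .negSucc 9343, .ofNat 5312, .ofNat 1600, .negSucc 159], (.tr (.lf 15) (.lf 5) (.tr (.lf 6) (.tw (.dx 0 .on) (.lf 11)) (.lf 19))), 0, [4, 1017, 21, 17], [4, 8, 21, 17]⟩)))
    (.nd (.nd (.lf ⟨[.ofNat 0, .ofNat 6016, .ofNat 5184, .ofNat 2304, .negSucc 159], (.tr (.lf 15) (.lf 5) (.tr (.lf 6) (.tr (.dx 0 .on) (.lf 9) (.lf 10)) (.lf 19))), 0, [1015, 1017, 21, 17], [1015, 8, 21, 17]⟩)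
    (.lf ⟨[.ofNat 0, .negSucc 13311, .ofNat 24576, .ofNat 16384, .ofNat 5376, .ofNat 960], (.tw (.lf 11) (.tr (.lf 15) (.lf 5) (.tr (.lf 6) (.dx 0 .on) (.lf 19)))), 0, [10, 17, 22, 18], [10, 17, 22, 18]⟩))
    (.nd (.lf ⟨[.ofNat 0, .ofNat 0, .ofNat 768, .ofNat 2112, .ofNat 3072, .negSucc 319], (.tr (.lf 11) (.dx 0 (.tr (.lf 5) (.lf 6) (.lf 15))) (.lf 19)), 0, [6, 6], []⟩)
    (.lf ⟨[.ofNat 0, .ofNat 0, .negSucc 3327, .ofNat 7552, .negSucc 14911, .negSucc 2687], (.tr (.lf 11) (.dx 0 (.lf 5)) (.tr (.lf 6) (.lf 15) (.lf 19))), 0, [6, 18], [6, 18]⟩))))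

/-- data -/
def dE1x10 : RT := (.nd (.nd (.nd (.lf ⟨[.ofNat 0, .ofNat 0, .ofNat 0, .negSucc 5375, .negSucc 13055, .negSucc 2687], (.tr (.lf 6) (.tr (.dx 0 (.lf 5)) (.lf 15) (.lf 19)) (.lf 11)), 0, [4, 7], [4, 7]⟩)
    (.lf ⟨[.ofNat 0, .ofNat 0, .ofNat 0, .ofNat 4608, .negSucc 1535], (.tr (.dx 0 (.lf 5)) (.tr (.lf 6) (.lf 15) (.lf 19)) (.lf 11)), 0, [0, 12], [0, 11]⟩))
    (.nd (.lf ⟨[.ofNat 0, .ofNat 0, .ofNat 4992, .negSucc 4415, .negSucc 13151, .negSucc 1183], (.tw (.lf 15) (.tr (.lf 11) (.tw (.dx 0 (.lf 5)) (.lf 6)) (.lf 19))), 0, [17, 13, 23, 19], [1015, 1023, 23, 19]⟩)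
    (.lf ⟨[.ofNat 0, .ofNat 0, .ofNat 13312, .negSucc 24319, .negSucc 255], (.tr (.lf 15) (.lf 6) (.tr (.dx 0 (.lf 5)) (.lf 11) (.lf 19))), 0, [4, 13], [1015, 15]⟩)))
    (.nd (.nd (.lf ⟨[.ofNat 0, .ofNat 0, .ofNat 4992, .negSucc 4415, .negSucc 13151, .negSucc 1183], (.tw (.lf 15) (.tr (.tw (.dx 0 (.lf 5)) (.lf 6)) (.lf 11) (.lf 19))), 0, [0, 4, 17, 13], [1023, 1015, 17, 13]⟩)
    (.lf ⟨[.ofNat 0, .ofNat 0, .ofNat 3328, .negSucc 15487, .ofNat 26048, .ofNat 2368], (.tr (.lf 6) (.tr (.dx 0 (.lf 5)) (.lf 11) (.lf 19)) (.lf 15)), 0, [16, 20], [16, 20]⟩))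
    (.nd (.lf ⟨[.ofNat 0, .ofNat 0, .ofNat 0, .ofNat 2560, .negSucc 24191, .negSucc 2367], (.tr (.lf 15) (.dx 0 (.lf 5)) (.tr (.lf 6) (.lf 19) (.lf 11))), 0, [23, 21], [23, 21]⟩)
    (.lf ⟨[.ofNat 0, .ofNat 0, .ofNat 55616, .ofNat 16832, .ofNat 26592, .ofNat 128], (.tr (.dx 0 (.lf 5)) (.lf 15) (.tr (.lf 6) (.lf 11) (.lf 19))), 0, [0, 0], [0, 21]⟩))))

/-- data -/
def dE1x11 : RT := (.nd (.nd (.nd (.lf ⟨[.ofNat 0, .ofNat 13312, .ofNat 32960, .negSucc 2815, .ofNat 23952, .negSucc 1247], (.tr (.lf 15) (.lf 11) (.tr (.dx 0 (.lf 5)) (.lf 19) (.lf 6))), 0, [17, 13], [17, 13]⟩)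
    (.lf ⟨[.ofNat 0, .ofNat 0, .negSucc 52287, .ofNat 192, .negSucc 23359, .negSucc 383], (.tr (.lf 6) (.tr (.lf 11) (.dx 0 (.lf 5)) (.lf 19)) (.lf 15)), 0, [20, 16], [20, 16]⟩))
    (.nd (.lf ⟨[.ofNat 0, .ofNat 0, .ofNat 24480, .ofNat 15712, .ofNat 13424, .ofNat 64], (.tr (.lf 15) (.lf 19) (.tr (.dx 0 (.lf 5)) (.lf 11) (.lf 6))), 0, [21, 13], [21, 15]⟩)
    (.lf ⟨[.ofNat 0, .ofNat 0, .ofNat 0, .negSucc 7999, .ofNat 2608, .ofNat 192], (.tr (.tw (.dx 0 (.tw (.lf 5) (.lf 11))) (.lf 6)) (.lf 15) (.lf 19)), 0, [0, 2, 4, 4], []⟩)))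
    (.nd (.nd (.lf ⟨[.ofNat 0, .ofNat 13312, .negSucc 19327, .negSucc 14847, .negSucc 575, .negSucc 1503], (.tr (.tw (.dx 0 (.tw (.lf 5) (.lf 15))) (.lf 6)) (.lf 11) (.lf 19)), 0, [0, 0, 4, 4], []⟩)
    (.lf ⟨[.ofNat 0, .ofNat 0, .ofNat 0, .negSucc 1087, .ofNat 9296, .ofNat 928], (.tr (.dx 0 (.lf 5)) (.lf 15) (.tr (.lf 6) (.lf 19) (.lf 11))), 0, [0, 0], [1023, 1017]⟩))
    (.nd (.lf ⟨[.ofNat 0, .ofNat 13312, .negSucc 103071, .ofNat 14912, .negSucc 25575, .ofNat 1808, .ofNat 64], (.tr (.lf 11) (.lf 15) (.tr (.dx 0 (.lf 5)) (.lf 19) (.lf 6))), 0, [17, 13], [1015, 1023]⟩)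
    (.lf ⟨[.ofNat 0, .ofNat 0, .ofNat 8960, .negSucc 13695, .ofNat 1408, .ofNat 1312, .ofNat 64], (.tr (.tw (.dx 0 (.tw (.lf 5) (.lf 15))) (.lf 6)) (.lf 19) (.lf 11)), 0, [0, 0, 4, 4], []⟩))))

/-- data -/
def dE1x12 : RT := (.nd (.nd (.nd (.lf ⟨[.ofNat 0, .ofNat 0, .negSucc 2111, .ofNat 14560, .ofNat 2008, .negSucc 15], (.tr (.lf 15) (.dx 0 (.lf 5)) (.tr (.lf 11) (.lf 6) (.lf 19))), 0, [0, 23], [1017, 23]⟩)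
    (.lf ⟨[.ofNat 0, .ofNat 0, .negSucc 2847, .negSucc 7999, .ofNat 2728, .ofNat 16], (.tr (.lf 11) (.tr (.dx 0 (.lf 5)) (.lf 19) (.lf 6)) (.lf 15)), 0, [18, 22], [18, 22]⟩))
    (.nd (.lf ⟨[.ofNat 0, .ofNat 0, .ofNat 384, .negSucc 1823, .negSucc 799], (.tr (.lf 11) (.tw (.dx 0 (.tw (.lf 5) (.lf 15))) (.lf 6)) (.lf 19)), 0, [6, 6, 10, 10], []⟩)
    (.lf ⟨[.ofNat 0, .ofNat 6656, .negSucc 12287, .negSucc 7423, .negSucc 5887, .negSucc 319], (.tr (.dx 0 (.tw (.lf 5) (.lf 6))) (.tw (.lf 11) (.lf 15)) (.lf 19)), 0, [0, 0, 0, 0], []⟩)))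
    (.nd (.nd (.lf ⟨[.ofNat 0, .ofNat 6656, .negSucc 11519, .negSucc 4991, .negSucc 1807, .negSucc 863], (.tr (.tw (.dx 0 (.tw (.lf 5) (.lf 6))) (.lf 15)) (.lf 11) (.lf 19)), 0, [0, 0, 0, 0], []⟩)
    (.lf ⟨[.ofNat 0, .ofNat 0, .ofNat 384, .ofNat 1056, .ofNat 1536, .negSucc 159], (.tr (.tw (.lf 11) (.lf 15)) (.dx 0 (.tw (.lf 5) (.lf 6))) (.lf 19)), 0, [6, 6, 13, 13], []⟩))
    (.nd (.lf ⟨[.ofNat 0, .ofNat 0, .ofNat 768, .ofNat 2112, .ofNat 3072, .negSucc 319], (.tr (.lf 15) (.lf 5) (.tr (.dx 0 .on) (.tw (.lf 6) (.lf 19)) (.lf 11))), 0, [23, 23, 13, 13], [23, 23, 13, 13]⟩)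
    (.lf ⟨[.ofNat 0, .ofNat 0, .negSucc 383, .negSucc 1055, .negSucc 1535, .ofNat 160], (.tw (.lf 15) (.tr (.dx 0 (.lf 11)) (.lf 19) (.tw (.lf 5) (.lf 6)))), 0, [17, 17, 15, 15], []⟩))))

/-- data -/
def dE1x13 : RT := (.nd (.nd (.nd (.lf ⟨[.ofNat 0, .negSucc 13311, .ofNat 6912, .ofNat 11776, .ofNat 4160, .ofNat 960], (.tr (.dx 0 (.lf 11)) (.tr (.lf 5) (.lf 6) (.lf 19)) (.lf 15)), 0, [14, 14], []⟩)
    (.lf ⟨[.ofNat 0, .ofNat 13312, .negSucc 1279, .negSucc 18431, .negSucc 1343, .negSucc 1279], (.tr (.lf 15) (.lf 5) (.tr (.dx 0 (.lf 11)) (.lf 19) (.lf 6))), 0, [17, 15], []⟩))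
    (.nd (.lf ⟨[.ofNat 0, .ofNat 0, .negSucc 10495, .ofNat 256], (.tw (.dx 0 (.lf 11)) (.tr (.tw (.lf 5) (.lf 6)) (.lf 15) (.lf 19))), 0, [2, 2, 5, 5], []⟩)
    (.lf ⟨[.ofNat 0, .negSucc 6655, .ofNat 11904, .ofNat 4704, .ofNat 1152, .ofNat 640], (.tw (.lf 15) (.tr (.lf 5) (.tw (.dx 0 (.lf 11)) (.lf 19)) (.lf 6))), 0, [17, 17, 17, 17], []⟩)))
    (.nd (.nd (.lf ⟨[.ofNat 0, .ofNat 13312, .ofNat 3200, .negSucc 7551, .negSucc 2623, .negSucc 1279], (.tr (.lf 15) (.lf 5) (.tr (.lf 6) (.dx 0 (.lf 11)) (.lf 19))), 0, [4, 17], []⟩)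
    (.lf ⟨[.ofNat 0, .ofNat 0, .ofNat 384, .ofNat 1056, .ofNat 1536, .negSucc 159], (.tr (.tw (.lf 5) (.lf 6)) (.dx 0 (.tw (.lf 11) (.lf 15))) (.lf 19)), 0, [4, 4, 4, 4], []⟩))
    (.nd (.lf ⟨[.ofNat 0, .ofNat 0, .ofNat 0, .negSucc 4863], (.tw (.lf 15) (.tr (.lf 5) (.lf 19) (.tr (.dx 0 .on) (.lf 6) (.lf 11)))), 0, [23, 13, 21, 17], [23, 13, 21, 17]⟩)
    (.lf ⟨[.ofNat 0, .ofNat 13312, .negSucc 24575, .negSucc 11903, .negSucc 3071, .negSucc 1119], (.tr (.dx 0 (.tw (.lf 11) (.lf 15))) (.tw (.lf 5) (.lf 6)) (.lf 19)), 0, [2, 2, 2, 2], []⟩))))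

/-- data -/
def dE1x14 : RT := (.nd (.nd (.nd (.lf ⟨[.ofNat 0, .negSucc 13311, .ofNat 24576, .ofNat 16384, .ofNat 5376, .ofNat 960], (.tw (.lf 5) (.tr (.lf 15) (.lf 11) (.tr (.lf 6) (.dx 0 .on) (.lf 19)))), 0, [8, 17, 16, 16], [8, 17, 16, 16]⟩)
    (.lf ⟨[.ofNat 0, .ofNat 0, .ofNat 0, .negSucc 1663, .negSucc 3199, .ofNat 160], (.dx 0 (.tw (.lf 15) (.tr (.tw (.lf 5) (.lf 6)) (.lf 19) (.lf 11)))), 0, [15, 15, 13, 13], []⟩))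
    (.nd (.lf ⟨[.ofNat 0, .ofNat 0, .ofNat 0, .negSucc 3327, .negSucc 6399, .ofNat 320], (.dx 0 (.tr (.lf 11) (.lf 15) (.tr (.lf 5) (.lf 6) (.lf 19)))), 0, [2, 13], []⟩)
    (.lf ⟨[.ofNat 0, .negSucc 13311, .ofNat 24576, .ofNat 13056, .negSucc 1023, .ofNat 1280], (.tw (.lf 5) (.tr (.dx 0 .on) (.lf 15) (.tr (.lf 6) (.lf 19) (.lf 11)))), 0, [4, 4, 1017, 1], [4, 4, 20, 20]⟩)))
    (.nd (.nd (.lf ⟨[.ofNat 0, .ofNat 0, .ofNat 0, .ofNat 4480, .ofNat 2304, .negSucc 159], (.tr (.dx 0 (.tw (.lf 11) (.lf 15))) (.lf 19) (.tw (.lf 5) (.lf 6))), 0, [17, 17, 17, 17], []⟩)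
    (.lf ⟨[.ofNat 0, .ofNat 0, .ofNat 0, .ofNat 2432], (.tr (.tw (.dx 0 (.tw (.lf 5) (.lf 11))) (.lf 15)) (.lf 6) (.lf 19)), 0, [0, 2, 1017, 17], []⟩))
    (.nd (.lf ⟨[.ofNat 0, .negSucc 1535, .negSucc 9087, .negSucc 6143, .ofNat 640], (.tr (.lf 15) (.lf 5) (.tr (.lf 19) (.lf 9) (.tr (.lf 6) (.dx 0 .on) (.lf 10)))), 0, [19, 17, 1015, 1015], [19, 17, 1015, 1015]⟩)
    (.lf ⟨[.ofNat 0, .ofNat 0, .negSucc 9471, .negSucc 5887, .ofNat 7072], (.tr (.lf 11) (.dx 0 (.lf 15)) (.tr (.lf 5) (.lf 6) (.lf 19))), 0, [6, 17], []⟩))))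

/-- data -/
def dE1x15 : RT := (.nd (.nd (.nd (.lf ⟨[.ofNat 0, .negSucc 13311, .ofNat 65536, .ofNat 7104, .negSucc 14111, .ofNat 320], (.tr (.lf 5) (.lf 6) (.tr (.lf 11) (.dx 0 (.lf 15)) (.lf 19))), 0, [8, 16], []⟩)
    (.lf ⟨[.ofNat 0, .ofNat 0, .negSucc 42495, .negSucc 7999, .ofNat 7712], (.tr (.lf 19) (.dx 0 (.lf 15)) (.tr (.lf 5) (.lf 6) (.lf 11))), 0, [11, 9], []⟩))
    (.nd (.lf ⟨[.ofNat 0, .ofNat 0, .ofNat 27136, .ofNat 12224, .negSucc 7711], (.tr (.lf 11) (.lf 5) (.tr (.lf 6) (.dx 0 (.lf 15)) (.lf 19))), 0, [10, 5], []⟩)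
    (.lf ⟨[.ofNat 0, .ofNat 0, .ofNat 23808, .negSucc 703, .negSucc 12703, .negSucc 127], (.tr (.lf 19) (.lf 5) (.tr (.lf 6) (.dx 0 (.lf 15)) (.lf 11))), 0, [7, 5], []⟩)))
    (.nd (.nd (.lf ⟨[.ofNat 0, .ofNat 0, .negSucc 6015, .negSucc 1951], (.tw (.lf 11) (.tr (.dx 0 (.lf 15)) (.tw (.lf 5) (.lf 6)) (.lf 19))), 0, [6, 6, 1, 1], []⟩)
    (.lf ⟨[.ofNat 0, .ofNat 0, .ofNat 1536, .negSucc 1407], (.tr (.dx 0 (.lf 15)) (.lf 19) (.tr (.lf 5) (.lf 6) (.lf 11))), 0, [23, 21], []⟩))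
    (.nd (.lf ⟨[.ofNat 0, .ofNat 0, .negSucc 1535, .negSucc 11391, .negSucc 4735, .negSucc 127], (.tr (.lf 5) (.lf 6) (.tr (.dx 0 (.lf 15)) (.lf 19) (.lf 11))), 0, [4, 20], []⟩)
    (.lf ⟨[.ofNat 0, .ofNat 0, .negSucc 13567, .ofNat 832, .ofNat 6400, .negSucc 319], (.tw (.lf 11) (.tr (.dx 0 (.lf 15)) (.tw (.lf 5) (.lf 19)) (.lf 6))), 0, [6, 17, 22, 22], []⟩))))

/-- data -/
def dE1x16 : RT := (.nd (.nd (.nd (.lf ⟨[.ofNat 0, .ofNat 0, .negSucc 1535, .ofNat 1408], (.tw (.lf 11) (.tr (.tw (.dx 0 (.lf 15)) (.lf 5)) (.lf 19) (.lf 6))), 0, [6, 10, 5, 22], []⟩)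
    (.lf ⟨[.ofNat 0, .ofNat 0, .negSucc 6399, .negSucc 2367, .negSucc 63], (.tr (.lf 5) (.lf 6) (.tr (.dx 0 (.lf 13)) (.lf 19) (.tr (.lf 9) (.lf 14) (.lf 10)))), 0, [4, 4, 8, 8], [16, 16, 8, 8]⟩))
    (.nd (.lf ⟨[.ofNat 0, .negSucc 6655, .negSucc 27519, .negSucc 45311, .ofNat 1600], (.tr (.dx 0 (.lf 15)) (.tr (.lf 5) (.lf 6) (.lf 11)) (.lf 19)), 0, [0, 2], []⟩)
    (.lf ⟨[.ofNat 0, .ofNat 6656, .ofNat 24192, .ofNat 56448, .negSucc 2239], (.tr (.lf 19) (.lf 5) (.tr (.dx 0 (.lf 15)) (.lf 11) (.lf 6))), 0, [9, 3], []⟩)))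
    (.nd (.nd (.lf ⟨[.ofNat 0, .negSucc 6655, .ofNat 17408, .ofNat 1984, .ofNat 3984, .negSucc 447], (.tr (.lf 5) (.lf 11) (.tr (.dx 0 (.lf 15)) (.lf 6) (.lf 19))), 0, [8, 20], []⟩)
    (.lf ⟨[.ofNat 0, .ofNat 33280, .negSucc 39935, .negSucc 49343, .negSucc 23871], (.tr (.lf 19) (.lf 11) (.tr (.dx 0 (.lf 15)) (.lf 5) (.lf 6))), 0, [5, 1], []⟩))
    (.nd (.lf ⟨[.ofNat 0, .ofNat 0, .ofNat 0, .ofNat 1664, .ofNat 3200, .negSucc 159], (.tw (.dx 0 (.tr (.tw (.lf 5) (.lf 6)) (.lf 15) (.lf 19))) (.lf 11)), 0, [0, 0, 7, 7], []⟩)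
    (.lf ⟨[.negSucc 13311, .ofNat 24576, .ofNat 18048, .ofNat 192, .ofNat 1280], (.tr (.dx 0 .on) (.lf 15) (.tr (.lf 5) (.tr (.lf 6) (.lf 19) (.lf 9)) (.lf 10))), 0, [1023, 0, 2, 1017], [23, 23, 21, 21]⟩))))

/-- data -/
def dE1x17 : RT := (.nd (.nd (.nd (.lf ⟨[.ofNat 0, .negSucc 10495, .ofNat 256, .negSucc 4863], (.tr (.lf 15) (.lf 5) (.tr (.lf 6) (.dx 0 .on) (.tr (.lf 9) (.lf 10) (.lf 19)))), 0, [1015, 19, 17, 17], [1015, 19, 17, 17]⟩)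
    (.lf ⟨[.ofNat 0, .ofNat 0, .ofNat 1664, .negSucc 4863, .ofNat 320], (.tw (.dx 0 (.tr (.lf 5) (.tr (.lf 6) (.lf 15) (.lf 9)) (.lf 10))) (.lf 19)), 0, [0, 0, 2, 2], []⟩))
    (.nd (.lf ⟨[.ofNat 26624, .negSucc 47615, .negSucc 18815, .negSucc 4607, .negSucc 2559], (.tr (.lf 15) (.lf 5) (.tr (.lf 9) (.tr (.dx 0 .on) (.lf 6) (.lf 10)) (.lf 19))), 0, [1015, 13, 23, 19], [1015, 8, 23, 19]⟩)
    (.lf ⟨[.negSucc 6655, .ofNat 11904, .ofNat 4704, .ofNat 1152, .ofNat 640], (.tr (.lf 15) (.lf 5) (.tw (.lf 19) (.tr (.dx 0 .on) (.lf 6) (.tw (.lf 9) (.lf 10))))), 0, [23, 23, 13, 13, 23, 23, 13, 13], [23, 23, 13, 13, 23, 23, 8, 8]⟩)))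
    (.nd (.nd (.lf ⟨[.negSucc 6655, .ofNat 12288, .ofNat 5760, .ofNat 2688, .ofNat 480], (.tr (.lf 5) (.tw (.lf 19) (.tr (.dx 0 .on) (.lf 6) (.tw (.lf 9) (.lf 10)))) (.lf 15)), 0, [16, 16, 20, 20, 16, 16, 20, 20], [16, 16, 20, 20, 16, 16, 20, 20]⟩)
    (.lf ⟨[.ofNat 13312, .negSucc 24575, .negSucc 11519, .negSucc 5375, .negSucc 959], (.tr (.dx 0 (.tw (.lf 5) (.lf 6))) (.tr (.lf 9) (.lf 10) (.lf 19)) (.lf 15)), 0, [12, 12, 12, 12], []⟩))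
    (.nd (.lf ⟨[.negSucc 13311, .ofNat 24576, .ofNat 11520, .ofNat 5376, .ofNat 960], (.tr (.dx 0 (.tr (.lf 5) (.lf 6) (.lf 15))) (.tw (.lf 9) (.lf 10)) (.lf 19)), 0, [0, 0, 0, 0], []⟩)
    (.lf ⟨[.ofNat 0, .ofNat 0, .negSucc 4863], (.tr (.lf 9) (.lf 5) (.tr (.lf 6) (.tr (.dx 0 .on) (.lf 19) (.lf 10)) (.lf 15))), 0, [22, 22, 1015, 17], [22, 22, 1015, 10]⟩))))

/-- data -/
def dE1x18 : RT := (.nd (.nd (.nd (.lf ⟨[.negSucc 26623, .ofNat 49152, .ofNat 27904, .ofNat 10752, .ofNat 1920], (.tr (.lf 15) (.lf 5) (.tr (.lf 9) (.dx 0 .on) (.tr (.lf 6) (.lf 10) (.lf 19)))), 0, [1015, 21, 19, 19], [1015, 21, 19, 19]⟩)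
    (.lf ⟨[.negSucc 26623, .ofNat 49152, .ofNat 27904, .ofNat 10752, .ofNat 1920], (.tr (.lf 9) (.lf 5) (.tr (.lf 15) (.dx 0 .on) (.tr (.lf 6) (.lf 10) (.lf 19)))), 0, [10, 1015, 22, 22], [10, 1015, 22, 22]⟩))
    (.nd (.lf ⟨[.ofNat 0, .ofNat 2624, .ofNat 768, .negSucc 1215, .ofNat 160], (.tw (.dx 0 (.tr (.lf 5) (.tr (.lf 9) (.lf 10) (.lf 15)) (.lf 6))) (.lf 19)), 0, [0, 0, 0, 0], []⟩)
    (.lf ⟨[.ofNat 0, .negSucc 2623, .negSucc 767, .ofNat 1216, .negSucc 159], (.tw (.dx 0 (.tw (.lf 5) (.tr (.lf 6) (.lf 15) (.tw (.lf 9) (.lf 10))))) (.lf 19)), 0, [0, 0, 0, 0, 0, 0, 2, 2], []⟩)))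
    (.nd (.nd (.lf ⟨[.ofNat 0, .ofNat 0, .ofNat 1664, .ofNat 3200, .negSucc 159], (.tr (.lf 15) (.lf 5) (.tw (.lf 19) (.tr (.lf 6) (.dx 0 .on) (.tw (.lf 9) (.lf 10))))), 0, [19, 19, 17, 17, 1015, 1015, 1023, 1023], [19, 19, 17, 17, 1015, 1015, 8, 8]⟩)
    (.lf ⟨[.ofNat 0, .ofNat 0, .ofNat 0, .ofNat 3328, .ofNat 6400, .negSucc 319], (.tw (.lf 15) (.tr (.lf 5) (.tr (.dx 0 .on) (.lf 11) (.lf 6)) (.lf 19))), 0, [4, 1017, 21, 17], [1023, 8, 21, 17]⟩))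
    (.nd (.lf ⟨[.ofNat 0, .ofNat 0, .ofNat 0, .ofNat 3328, .ofNat 6400, .negSucc 319], (.tr (.lf 5) (.dx 0 .on) (.tr (.tw (.lf 6) (.lf 11)) (.lf 15) (.lf 19))), 0, [4, 4, 16, 16], [4, 4, 16, 1023]⟩)
    (.lf ⟨[.ofNat 6656, .negSucc 12287, .negSucc 6591, .negSucc 255, .negSucc 639], (.tr (.dx 0 (.lf 5)) (.tr (.tw (.lf 9) (.lf 10)) (.lf 15) (.lf 19)) (.lf 6)), 0, [0, 0, 12, 12], [2, 2, 9, 9]⟩))))

/-- data -/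
def dE1x19 : RT := (.nd (.nd (.nd (.lf ⟨[.ofNat 13312, .negSucc 24575, .negSucc 15615, .negSucc 511, .negSucc 1279], (.tr (.lf 6) (.lf 15) (.tr (.dx 0 (.lf 5)) (.tw (.lf 9) (.lf 10)) (.lf 19))), 0, [4, 4, 13, 13], [4, 4, 15, 15]⟩)
    (.lf ⟨[.negSucc 26623, .ofNat 49152, .ofNat 27904, .ofNat 10752, .ofNat 1920], (.tr (.dx 0 (.tw (.lf 5) (.lf 15))) (.lf 6) (.tr (.lf 9) (.lf 10) (.lf 19))), 0, [0, 23, 0, 23], []⟩))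
    (.nd (.lf ⟨[.ofNat 13312, .negSucc 24575, .negSucc 18047, .negSucc 191, .negSucc 1279], (.tr (.lf 6) (.lf 15) (.tr (.dx 0 (.lf 5)) (.lf 19) (.tw (.lf 9) (.lf 10)))), 0, [19, 19, 13, 13], [19, 19, 1017, 1017]⟩)
    (.lf ⟨[.ofNat 0, .ofNat 0, .ofNat 8192, .negSucc 10367, .ofNat 640], (.tr (.dx 0 (.tw (.lf 5) (.lf 15))) (.tr (.lf 6) (.lf 19) (.lf 9)) (.lf 10)), 0, [23, 1023, 23, 23], []⟩)))
    (.nd (.nd (.lf ⟨[.ofNat 0, .ofNat 0, .negSucc 3327, .ofNat 9728, .negSucc 639], (.tr (.lf 9) (.lf 6) (.tr (.dx 0 (.tw (.lf 5) (.lf 15))) (.lf 10) (.lf 19))), 0, [10, 10, 22, 1023], []⟩)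
    (.lf ⟨[.negSucc 26623, .ofNat 49152, .ofNat 31232, .ofNat 384, .ofNat 2560], (.tw (.dx 0 (.tr (.lf 9) (.tr (.lf 5) (.lf 6) (.lf 19)) (.lf 15))) (.lf 10)), 0, [14, 1023, 19, 19], []⟩))
    (.nd (.lf ⟨[.negSucc 6655, .ofNat 12288, .ofNat 6592, .ofNat 256, .ofNat 640], (.tw (.dx 0 (.tw (.lf 9) (.tr (.tw (.lf 5) (.lf 6)) (.lf 15) (.lf 19)))) (.lf 10)), 0, [2, 2, 7, 7, 19, 19, 7, 7], []⟩)
    (.lf ⟨[.ofNat 0, .ofNat 0, .ofNat 2432], (.tw (.dx 0 (.tw (.lf 15) (.tr (.tw (.lf 5) (.lf 6)) (.lf 19) (.lf 9)))) (.lf 10)), 0, [19, 19, 19, 19, 12, 12, 1023, 1023], []⟩))))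

/-- data -/
def dE1x20 : RT := (.nd (.nd (.nd (.lf ⟨[.ofNat 0, .ofNat 0, .ofNat 2432], (.tr (.dx 0 (.tr (.lf 9) (.tw (.lf 5) (.lf 6)) (.lf 15))) (.lf 19) (.lf 10)), 0, [2, 2, 19, 19], []⟩)
    (.lf ⟨[.ofNat 0, .ofNat 0, .ofNat 4864], (.tr (.dx 0 (.tw (.lf 5) (.lf 15))) (.lf 9) (.tr (.lf 6) (.lf 19) (.lf 10))), 0, [0, 0, 1023, 0], []⟩))
    (.nd (.lf ⟨[.ofNat 0, .ofNat 0, .negSucc 2431, .ofNat 320], (.tw (.dx 0 (.tw (.lf 15) (.tr (.lf 9) (.tw (.lf 5) (.lf 6)) (.lf 19)))) (.lf 10)), 0, [19, 19, 19, 19, 14, 14, 7, 7], []⟩)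
    (.lf ⟨[.ofNat 0, .ofNat 0, .negSucc 1663, .ofNat 128, .ofNat 608], (.tr (.dx 0 (.lf 5)) (.tr (.lf 6) (.lf 19) (.tw (.lf 9) (.lf 10))) (.lf 15)), 0, [12, 12, 12, 12], [12, 12, 14, 14]⟩)))
    (.nd (.nd (.lf ⟨[.ofNat 0, .ofNat 0, .ofNat 1664, .negSucc 4799, .ofNat 160], (.tr (.lf 9) (.lf 10) (.tr (.tw (.dx 0 (.lf 5)) (.lf 6)) (.lf 15) (.lf 19))), 0, [6, 10, 18, 22], [6, 10, 18, 22]⟩)
    (.lf ⟨[.ofNat 0, .ofNat 0, .negSucc 1663, .ofNat 4160, .negSucc 159], (.tr (.lf 9) (.tr (.tw (.dx 0 (.lf 5)) (.lf 6)) (.lf 19) (.lf 10)) (.lf 15)), 0, [18, 22, 18, 22], [18, 22, 18, 22]⟩))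
    (.nd (.lf ⟨[.ofNat 0, .ofNat 0, .negSucc 1663, .ofNat 128, .ofNat 608], (.tr (.lf 15) (.lf 9) (.tr (.lf 10) (.tw (.dx 0 (.lf 5)) (.lf 6)) (.lf 19))), 0, [6, 10, 23, 19], [6, 10, 23, 19]⟩)
    (.lf ⟨[.ofNat 0, .ofNat 0, .ofNat 0, .ofNat 1280], (.tw (.lf 9) (.tr (.lf 15) (.lf 6) (.tr (.dx 0 (.lf 5)) (.lf 19) (.lf 10)))), 0, [1017, 13, 18, 18], [1017, 10, 18, 18]⟩))))

/-- data -/
def dE1x21 : RT := (.nd (.nd (.nd (.lf ⟨[.ofNat 0, .ofNat 0, .ofNat 5544, .ofNat 8304, .negSucc 1015], (.tr (.lf 6) (.tw (.dx 0 (.tr (.lf 5) (.lf 15) (.lf 9))) (.lf 19)) (.lf 10)), 0, [4, 4, 7, 7], []⟩)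
    (.lf ⟨[.ofNat 0, .ofNat 0, .ofNat 0, .ofNat 320], (.tr (.tw (.lf 6) (.lf 10)) (.dx 0 (.tr (.lf 5) (.lf 15) (.lf 9))) (.lf 19)), 0, [8, 8, 10, 10], []⟩))
    (.nd (.lf ⟨[.ofNat 0, .ofNat 0, .ofNat 0, .negSucc 639], (.tr (.lf 9) (.tr (.dx 0 (.lf 5)) (.tw (.lf 10) (.lf 19)) (.lf 6)) (.lf 15)), 0, [18, 18, 22, 22], [18, 18, 22, 22]⟩)
    (.lf ⟨[.ofNat 0, .ofNat 0, .ofNat 0, .negSucc 319], (.tr (.dx 0 (.tr (.lf 5) (.lf 9) (.lf 6))) (.lf 15) (.tw (.lf 10) (.lf 19))), 0, [0, 0, 0, 0], []⟩)))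
    (.nd (.nd (.lf ⟨[.ofNat 0, .ofNat 0, .ofNat 0, .negSucc 639], (.tr (.lf 6) (.dx 0 (.tr (.lf 9) (.lf 5) (.lf 15))) (.tw (.lf 10) (.lf 19))), 0, [4, 4, 4, 4], []⟩)
    (.lf ⟨[.ofNat 0, .ofNat 0, .ofNat 0, .ofNat 480], (.tr (.dx 0 (.tw (.lf 5) (.lf 9))) (.lf 15) (.tr (.lf 6) (.lf 19) (.lf 10))), 0, [0, 0, 2, 2], [1023, 1017]⟩))
    (.nd (.lf ⟨[.ofNat 0, .ofNat 0, .negSucc 5647, .ofNat 6064, .negSucc 1503], (.tr (.lf 9) (.lf 19) (.tr (.dx 0 (.tw (.lf 5) (.lf 15))) (.lf 10) (.lf 6))), 0, [9, 9, 1023, 1], []⟩)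
    (.lf ⟨[.ofNat 0, .ofNat 0, .ofNat 0, .ofNat 320], (.tr (.tw (.dx 0 (.tr (.lf 9) (.lf 5) (.lf 15))) (.lf 6)) (.lf 19) (.lf 10)), 0, [2, 1023, 4, 4], []⟩))))

/-- data -/
def dE1x22 : RT := (.nd (.nd (.nd (.lf ⟨[.ofNat 0, .ofNat 0, .ofNat 0, .ofNat 640], (.tw (.dx 0 (.tr (.lf 15) (.lf 5) (.tr (.lf 6) (.lf 9) (.lf 19)))) (.lf 10)), 0, [19, 19, 12, 7], []⟩)
    (.lf ⟨[.ofNat 0, .ofNat 0, .ofNat 0, .ofNat 640], (.tr (.dx 0 (.tr (.tw (.lf 5) (.lf 9)) (.lf 15) (.lf 19))) (.lf 6) (.lf 10)), 0, [1023, 2, 11, 11], []⟩))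
    (.nd (.lf ⟨[.ofNat 0, .ofNat 0, .ofNat 0, .negSucc 639], (.tr (.dx 0 (.tr (.lf 9) (.tw (.lf 5) (.lf 15)) (.lf 19))) (.lf 6) (.lf 10)), 0, [2, 23, 11, 11], []⟩)
    (.lf ⟨[.ofNat 0, .ofNat 0, .ofNat 34880, .negSucc 148095, .negSucc 22879, .negSucc 127], (.tr (.dx 3 (.tw (.lf 3) (.lf 19))) (.lf 7) (.lf 11)), 3, [11, 11], []⟩)))
    (.nd (.nd (.lf ⟨[.ofNat 0, .ofNat 0, .negSucc 98431, .negSucc 32447, .ofNat 8352, .ofNat 2240], (.tw (.dx 3 (.tr (.lf 3) (.lf 7) (.lf 19))) (.lf 11)), 3, [11, 7], []⟩)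
    (.lf ⟨[.ofNat 0, .ofNat 0, .ofNat 256, .ofNat 18688, .negSucc 895, .ofNat 640], (.tr (.dx 0 .on) (.lf 7) (.tr (.lf 11) (.tw (.lf 13) (.lf 14)) (.lf 19))), 0, [0, 0, 12, 12], [0, 0, 12, 12]⟩))
    (.nd (.lf ⟨[.ofNat 0, .ofNat 0, .ofNat 0, .negSucc 191, .negSucc 1775, .ofNat 160], (.tr (.dx 0 .on) (.tr (.lf 11) (.lf 19) (.tw (.lf 13) (.lf 14))) (.lf 7)), 0, [14, 14, 2, 2], [14, 14, 21, 21]⟩)
    (.lf ⟨[.ofNat 0, .ofNat 0, .ofNat 0, .ofNat 192, .ofNat 1776, .negSucc 159], (.tr (.dx 0 .on) (.lf 13) (.tr (.tw (.lf 7) (.lf 11)) (.lf 19) (.lf 14))), 0, [0, 2, 0, 2], [0, 2, 23, 21]⟩))))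

/-- data -/
def dE1x23 : RT := (.nd (.nd (.nd (.lf ⟨[.ofNat 0, .ofNat 0, .ofNat 0, .negSucc 191, .negSucc 1775, .ofNat 160], (.tr (.lf 13) (.lf 19) (.tr (.dx 0 .on) (.lf 14) (.tw (.lf 7) (.lf 11)))), 0, [11, 9, 3, 1], [11, 9, 3, 1]⟩)
    (.lf ⟨[.ofNat 0, .ofNat 0, .negSucc 255, .negSucc 11391, .negSucc 159, .negSucc 639], (.tr (.lf 1) (.tr (.dx 3 .on) (.tw (.lf 7) (.lf 11)) (.lf 2)) (.lf 19)), 3, [0, 2, 0, 2], [0, 2, 0, 2]⟩))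
    (.nd (.lf ⟨[.ofNat 0, .ofNat 0, .ofNat 0, .negSucc 4863, .negSucc 351], (.tw (.dx 0 (.tr (.tw (.lf 7) (.lf 11)) (.lf 13) (.lf 14))) (.lf 19)), 0, [0, 2, 0, 2], []⟩)
    (.lf ⟨[.ofNat 0, .ofNat 0, .negSucc 13823, .negSucc 3455, .ofNat 10816, .negSucc 1919], (.tr (.lf 7) (.lf 13) (.tr (.tw (.dx 0 .on) (.lf 11)) (.lf 19) (.lf 14))), 0, [4, 8, 19, 15], [4, 8, 19, 15]⟩)))
    (.nd (.nd (.lf ⟨[.ofNat 0, .ofNat 0, .negSucc 3327, .ofNat 8576, .ofNat 2736, .negSucc 239], (.tr (.lf 13) (.lf 19) (.tr (.lf 7) (.tw (.dx 0 .on) (.lf 14)) (.lf 11))), 0, [7, 7, 5, 5], [7, 7, 5, 5]⟩)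
    (.lf ⟨[.ofNat 0, .ofNat 0, .ofNat 256, .ofNat 22784, .negSucc 3391, .ofNat 800], (.tw (.dx 3 (.tr (.tw (.lf 1) (.lf 2)) (.lf 7) (.lf 19))) (.lf 11)), 3, [11, 11, 7, 7], []⟩))
    (.nd (.lf ⟨[.ofNat 0, .ofNat 0, .ofNat 0, .negSucc 7295, .ofNat 1056], (.tr (.lf 19) (.lf 13) (.tr (.dx 0 .on) (.tw (.lf 7) (.lf 11)) (.lf 14))), 0, [11, 9, 3, 1], [11, 9, 3, 1]⟩)
    (.lf ⟨[.ofNat 0, .ofNat 0, .ofNat 0, .ofNat 7296, .negSucc 1055], (.tw (.dx 3 (.tr (.tw (.lf 1) (.lf 2)) (.lf 7) (.lf 11))) (.lf 19)), 3, [0, 0, 10, 10], []⟩))))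

/-- data -/
def dE1x24 : RT := (.nd (.nd (.nd (.lf ⟨[.ofNat 0, .ofNat 0, .ofNat 0, .negSucc 383, .ofNat 800], (.tr (.lf 13) (.tr (.tw (.lf 7) (.lf 11)) (.dx 0 .on) (.lf 14)) (.lf 19)), 0, [8, 10, 23, 21], [8, 10, 23, 21]⟩)
    (.lf ⟨[.ofNat 0, .ofNat 0, .ofNat 0, .ofNat 0, .ofNat 2816, .negSucc 799], (.tw (.dx 3 .on) (.tr (.lf 17) (.lf 18) (.tr (.lf 3) (.lf 7) (.lf 11)))), 3, [23, 13, 1023, 1023], [23, 13, 0, 10]⟩))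
    (.nd (.lf ⟨[.ofNat 0, .ofNat 0, .ofNat 4032, .ofNat 1968, .negSucc 767], (.tr (.lf 13) (.lf 14) (.tr (.lf 17) (.lf 18) (.tr (.lf 7) (.dx 0 .on) (.lf 11)))), 0, [19, 17, 1015, 1015], [19, 17, 1015, 1015]⟩)
    (.lf ⟨[.ofNat 0, .ofNat 0, .ofNat 21888, .negSucc 40703, .negSucc 12495, .ofNat 1680], (.tw (.lf 13) (.tr (.lf 19) (.dx 0 .on) (.tr (.lf 7) (.lf 14) (.lf 11)))), 0, [11, 9, 15, 13], [11, 9, 15, 13]⟩)))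
    (.nd (.nd (.lf ⟨[.ofNat 0, .ofNat 26624, .negSucc 103039, .negSucc 24895, .negSucc 10895, .negSucc 1615], (.tw (.lf 19) (.tr (.dx 3 (.lf 7)) (.lf 11) (.tw (.lf 1) (.lf 2)))), 3, [3, 3, 14, 14], []⟩)
    (.lf ⟨[.ofNat 0, .negSucc 39935, .ofNat 183040, .ofNat 47360, .ofNat 21792, .ofNat 3232], (.tr (.lf 1) (.tr (.dx 3 (.lf 7)) (.lf 11) (.lf 2)) (.lf 19)), 3, [0, 2], []⟩))
    (.nd (.lf ⟨[.ofNat 0, .ofNat 46592, .negSucc 162687, .negSucc 90463, .negSucc 41007, .negSucc 1615], (.tw (.lf 19) (.tr (.lf 1) (.tw (.dx 3 (.lf 7)) (.lf 11)) (.lf 2))), 3, [3, 1, 3, 1], []⟩)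
    (.lf ⟨[.ofNat 0, .negSucc 26623, .ofNat 78080, .negSucc 19263, .negSucc 17471, .ofNat 1312], (.tr (.lf 1) (.lf 11) (.tr (.dx 3 (.lf 7)) (.lf 2) (.lf 19))), 3, [2, 14], []⟩))))

/-- data -/
def dE1 : RT := (.nd (.nd (.nd (.nd dE1x0 (.nd dE1x1 dE1x2)) (.nd dE1x3 (.nd dE1x4 dE1x5))) (.nd (.nd dE1x6 (.nd dE1x7 dE1x8)) (.nd dE1x9 (.nd dE1x10 dE1x11)))) (.nd (.nd (.nd dE1x12 (.nd dE1x13 dE1x14)) (.nd dE1x15 (.nd dE1x16 dE1x17))) (.nd (.nd dE1x18 (.nd dE1x19 dE1x20)) (.nd (.nd dE1x21 dE1x22) (.nd dE1x23 dE1x24)))))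

/-- data -/
def lE1x0 : List (ℕ × List ℤ) := [(5349, [.ofNat 0, .ofNat 0, .ofNat 13312, .negSucc 29183, .ofNat 14464, .negSucc 1919, .ofNat 832]),
  (5405, [.ofNat 0, .ofNat 0, .negSucc 13311, .ofNat 3968, .negSucc 22783, .ofNat 11360]),
  (5419, [.ofNat 0, .ofNat 0, .ofNat 13312, .ofNat 12096, .negSucc 12223, .ofNat 28352, .ofNat 896]),
  (6301, [.ofNat 0, .ofNat 0, .ofNat 0, .ofNat 1536, .negSucc 31487, .ofNat 256, .ofNat 1472]),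
  (38117, [.ofNat 0, .negSucc 13311, .ofNat 23040, .ofNat 2432]),
  (38173, [.ofNat 0, .ofNat 13312, .negSucc 23039, .negSucc 2431]),
  (38187, [.ofNat 0, .ofNat 0, .ofNat 0, .ofNat 26112, .negSucc 31871, .negSucc 8511, .ofNat 640]),
  (39069, [.ofNat 0, .ofNat 0, .ofNat 0, .ofNat 19712, .negSucc 5183, .negSucc 319]),
  (39083, [.ofNat 0, .ofNat 26624, .negSucc 62463, .negSucc 11519, .ofNat 12672, .negSucc 3583, .ofNat 1280]),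
  (39251, [.ofNat 0, .ofNat 13312, .negSucc 24575, .negSucc 17919, .ofNat 8960]),
  (41701, [.ofNat 0, .ofNat 0, .ofNat 5184, .negSucc 29823, .ofNat 20096, .negSucc 447]),
  (41757, [.ofNat 0, .ofNat 0, .ofNat 3328, .negSucc 57343, .ofNat 31584, .negSucc 5247, .ofNat 1600]),
  (41771, [.ofNat 0, .ofNat 0, .ofNat 3328, .ofNat 14592, .ofNat 31712, .ofNat 2560, .negSucc 319]),
  (42213, [.ofNat 0, .ofNat 0, .negSucc 15359, .ofNat 4224, .negSucc 4351]),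
  (42269, [.ofNat 0, .ofNat 0, .negSucc 10495, .ofNat 13312, .negSucc 4927]),
  (42283, [.ofNat 0, .ofNat 0, .ofNat 0, .ofNat 5632]),
  (42661, [.ofNat 0, .ofNat 0, .ofNat 28800, .negSucc 29951, .ofNat 19840, .ofNat 768]),
  (42725, [.ofNat 0, .ofNat 0, .negSucc 3327, .negSucc 2559, .negSucc 3903, .ofNat 320]),
  (42765, [.ofNat 0, .ofNat 0, .negSucc 8703, .negSucc 48639, .ofNat 20800, .ofNat 1536]),
  (42773, [.ofNat 0, .ofNat 0, .ofNat 11648, .ofNat 71232, .ofNat 7456, .negSucc 5631, .ofNat 1600]),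
  (42789, [.ofNat 0, .ofNat 0, .ofNat 0, .ofNat 256, .ofNat 14976, .negSucc 1471]),
  (43101, [.ofNat 0, .ofNat 0, .ofNat 27392, .negSucc 8191, .negSucc 6367, .negSucc 5631, .ofNat 1600]),
  (43115, [.ofNat 0, .ofNat 0, .negSucc 4351, .negSucc 15743, .negSucc 10175]),
  (43221, [.ofNat 0, .ofNat 0, .ofNat 24960, .ofNat 48192, .ofNat 5024, .negSucc 4863]),
  (43229, [.ofNat 0, .ofNat 0, .ofNat 4096, .negSucc 6655, .ofNat 16896, .ofNat 576]),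
  (43241, [.ofNat 0, .ofNat 0, .ofNat 0, .ofNat 0, .ofNat 3328, .ofNat 6400, .negSucc 319]),
  (43244, [.ofNat 0, .ofNat 0, .ofNat 34880, .negSucc 141439, .negSucc 39647, .negSucc 2047, .ofNat 160]),
  (43245, [.ofNat 0, .ofNat 0, .negSucc 5631, .ofNat 1792]),
  (43293, [.ofNat 0, .ofNat 0, .ofNat 19968, .negSucc 1279, .negSucc 11007, .negSucc 255]),
  (43307, [.ofNat 0, .ofNat 0, .ofNat 6400, .ofNat 9024, .ofNat 128]),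
  (43339, [.ofNat 0, .ofNat 0, .ofNat 0, .ofNat 0, .ofNat 3328, .ofNat 6400, .negSucc 319]),
  (43356, [.ofNat 0, .ofNat 0, .ofNat 34880, .negSucc 148095, .negSucc 22879, .negSucc 127]),
  (43371, [.ofNat 0, .ofNat 0, .negSucc 7423, .ofNat 31296, .negSucc 60927, .negSucc 6143, .ofNat 960]),
  (50269, [.ofNat 0, .ofNat 0, .ofNat 27392, .negSucc 8191, .negSucc 16095, .negSucc 5631, .ofNat 1600]),
  (50283, [.ofNat 0, .ofNat 0, .ofNat 8960, .negSucc 40319, .negSucc 27839, .negSucc 5375, .negSucc 959]),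
  (50333, [.ofNat 0, .ofNat 0, .ofNat 4864, .ofNat 384, .negSucc 3455, .ofNat 320]),
  (50381, [.ofNat 0, .ofNat 0, .negSucc 8703, .negSucc 22783, .ofNat 24384, .negSucc 2239, .ofNat 1600]),
  (50389, [.ofNat 0, .ofNat 0, .negSucc 17663, .negSucc 105471, .ofNat 43104, .negSucc 7295, .ofNat 1600]),
  (50397, [.ofNat 0, .ofNat 0, .negSucc 18431, .negSucc 3583, .negSucc 9343, .ofNat 320]),
  (50412, [.ofNat 0, .ofNat 0, .negSucc 98431, .negSucc 41919, .ofNat 79520, .ofNat 128, .ofNat 960]),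
  (50413, [.ofNat 0, .ofNat 0, .ofNat 5632, .ofNat 0, .ofNat 4736, .negSucc 447]),
  (51357, [.ofNat 0, .ofNat 0, .negSucc 4095, .ofNat 1408, .negSucc 9087, .negSucc 4159]),
  (51868, [.ofNat 0, .ofNat 0, .negSucc 98431, .negSucc 32447, .ofNat 8352, .ofNat 2240]),
  (135837, [.ofNat 0, .ofNat 0, .negSucc 7935, .ofNat 27392, .negSucc 18623, .negSucc 1535]),
  (136285, [.ofNat 0, .ofNat 0, .ofNat 41280, .ofNat 34944, .negSucc 41311, .ofNat 448]),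
  (136421, [.ofNat 0, .ofNat 0, .ofNat 0, .ofNat 0, .ofNat 15360, .negSucc 3711]),
  (136429, [.ofNat 0, .ofNat 0, .ofNat 0, .ofNat 0, .negSucc 767, .negSucc 4031, .ofNat 1600]),
  (136541, [.ofNat 0, .ofNat 0, .ofNat 0, .ofNat 43776, .negSucc 81407, .negSucc 24991, .ofNat 3360]),
  (304413, [.ofNat 0, .ofNat 0, .ofNat 0, .ofNat 768, .negSucc 1599]),
  (304427, [.ofNat 0, .ofNat 0, .negSucc 13311, .ofNat 47360, .ofNat 9984, .negSucc 639]),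
  (304917, [.ofNat 0, .ofNat 13312, .negSucc 23039, .negSucc 2431, .ofNat 768, .negSucc 1599]),
  (304925, [.ofNat 0, .negSucc 13311, .ofNat 23040, .ofNat 2432]),
  (305309, [.ofNat 0, .ofNat 33280, .negSucc 39935, .negSucc 49343, .negSucc 23871]),
  (305323, [.ofNat 0, .ofNat 0, .negSucc 1535, .ofNat 1408]),
  (305381, [.ofNat 0, .ofNat 13312, .negSucc 23039, .negSucc 2431]),
  (305515, [.ofNat 0, .ofNat 0, .ofNat 13312, .negSucc 33535, .negSucc 5471, .ofNat 320]),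
  (312477, [.ofNat 0, .ofNat 0, .ofNat 0, .negSucc 3327, .ofNat 9728, .negSucc 639]),
  (312491, [.ofNat 0, .negSucc 26623, .ofNat 49152, .ofNat 36096, .ofNat 384, .ofNat 2560]),
  (312541, [.ofNat 0, .ofNat 0, .ofNat 0, .ofNat 7936, .negSucc 831, .ofNat 128]),
  (312554, [.ofNat 0, .ofNat 0, .ofNat 0, .negSucc 8959, .negSucc 4607, .ofNat 320]),
  (312659, [.ofNat 0, .ofNat 13312, .negSucc 42495, .negSucc 2047, .ofNat 640]),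
  (312666, [.ofNat 0, .negSucc 13311, .ofNat 24576, .ofNat 4096, .negSucc 5631, .ofNat 1600]),
  (314010, [.ofNat 0, .ofNat 0, .negSucc 20991, .ofNat 512]),
  (333029, [.ofNat 0, .ofNat 0, .negSucc 13311, .ofNat 24320, .ofNat 256]),
  (333099, [.ofNat 0, .ofNat 0, .ofNat 0, .negSucc 767, .negSucc 14591, .negSucc 2687]),
  (333477, [.ofNat 0, .ofNat 0, .negSucc 24479, .negSucc 23711, .negSucc 10815, .ofNat 128]),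
  (333541, [.ofNat 0, .ofNat 0, .negSucc 3327, .ofNat 256, .ofNat 1216]),
  (333589, [.ofNat 0, .ofNat 0, .negSucc 13311, .ofNat 24320, .ofNat 256]),
  (333981, [.ofNat 0, .ofNat 0, .ofNat 3328, .ofNat 4800, .ofNat 2064, .negSucc 127]),
  (333995, [.ofNat 0, .negSucc 13311, .ofNat 112032, .negSucc 29695, .ofNat 36280, .ofNat 432]),
  (334045, [.ofNat 0, .ofNat 0, .negSucc 4863, .ofNat 8768, .ofNat 256]),
  (334058, [.ofNat 0, .ofNat 0, .ofNat 0, .negSucc 1087, .ofNat 9296, .ofNat 928]),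
  (334163, [.ofNat 0, .ofNat 0, .ofNat 0, .negSucc 4607, .ofNat 1536]),
  (334170, [.ofNat 0, .ofNat 0, .ofNat 55616, .ofNat 16832, .ofNat 26592, .ofNat 128]),
  (336669, [.ofNat 0, .ofNat 0, .ofNat 1536, .negSucc 1791, .negSucc 4639, .negSucc 447]),
  (337637, [.ofNat 0, .ofNat 0, .negSucc 13311, .ofNat 43008, .negSucc 1855, .ofNat 128]),
  (337677, [.ofNat 0, .ofNat 0, .ofNat 15360, .negSucc 4991, .ofNat 704]),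
  (337693, [.ofNat 0, .ofNat 0, .negSucc 15359, .ofNat 4224]),
  (337701, [.ofNat 0, .ofNat 0, .ofNat 0, .negSucc 9727]),
  (338027, [.ofNat 0, .ofNat 0, .ofNat 0, .negSucc 3327, .negSucc 6399, .ofNat 320]),
  (338141, [.ofNat 0, .ofNat 0, .ofNat 768, .negSucc 3647, .negSucc 1599]),
  (338155, [.ofNat 0, .ofNat 0, .ofNat 12032, .ofNat 576, .negSucc 6399, .ofNat 320]),
  (338156, [.ofNat 0, .ofNat 0, .negSucc 6655, .ofNat 17152, .ofNat 5472, .negSucc 479]),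
  (338283, [.ofNat 0, .ofNat 0, .negSucc 26623, .ofNat 74496, .ofNat 12256, .negSucc 1279]),
  (340645, [.ofNat 0, .ofNat 0, .ofNat 0, .negSucc 15999, .ofNat 5216, .ofNat 384]),
  (340709, [.ofNat 0, .ofNat 0, .ofNat 27808, .negSucc 23903, .ofNat 12544, .ofNat 512]),
  (340757, [.ofNat 0, .ofNat 0, .ofNat 0, .ofNat 2432]),
  (340765, [.ofNat 0, .ofNat 0, .ofNat 0, .ofNat 2432]),
  (341221, [.ofNat 0, .ofNat 0, .negSucc 13311, .ofNat 16384, .ofNat 11392, .negSucc 319]),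
  (341261, [.ofNat 0, .ofNat 0, .negSucc 27007, .negSucc 1855, .ofNat 320]),
  (341277, [.ofNat 0, .ofNat 0, .ofNat 3232, .ofNat 6176, .negSucc 3527, .negSucc 15]),
  (341291, [.ofNat 0, .ofNat 0, .ofNat 3328, .negSucc 12927, .ofNat 1856]),
  (341773, [.ofNat 0, .ofNat 0, .ofNat 3328, .negSucc 5631, .negSucc 3903, .ofNat 320]),
  (341802, [.ofNat 0, .ofNat 0, .ofNat 0, .ofNat 3328, .ofNat 6400, .negSucc 319]),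
  (342173, [.ofNat 0, .ofNat 0, .ofNat 768, .negSucc 3647, .negSucc 1599]),
  (342181, [.ofNat 0, .ofNat 0, .ofNat 36224, .negSucc 29759, .ofNat 864]),
  (342221, [.ofNat 0, .ofNat 0, .ofNat 41600, .ofNat 58432, .ofNat 1744, .negSucc 447]),
  (342250, [.ofNat 0, .ofNat 0, .negSucc 1535, .ofNat 1408]),
  (342285, [.ofNat 0, .ofNat 0, .ofNat 0, .negSucc 9727, .negSucc 703]),
  (342317, [.ofNat 0, .ofNat 0, .ofNat 0, .ofNat 8064, .negSucc 1695, .ofNat 64])]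

/-- data -/
def lE1x1 : List (ℕ × List ℤ) := [(344733, [.ofNat 0, .ofNat 0, .ofNat 10496, .negSucc 1791, .ofNat 9600, .negSucc 1087]),
  (344747, [.ofNat 0, .negSucc 26623, .ofNat 67072, .ofNat 8704, .ofNat 3200, .ofNat 5184, .ofNat 128]),
  (344797, [.ofNat 0, .ofNat 0, .ofNat 0, .ofNat 4096, .ofNat 4608, .negSucc 319]),
  (344811, [.ofNat 0, .ofNat 6656, .negSucc 17407, .negSucc 1983, .negSucc 3983, .ofNat 448]),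
  (344861, [.ofNat 0, .ofNat 0, .ofNat 3328, .ofNat 896, .ofNat 24896, .ofNat 256]),
  (344922, [.ofNat 0, .ofNat 0, .ofNat 0, .ofNat 4864]),
  (344925, [.ofNat 0, .ofNat 26624, .negSucc 78079, .ofNat 19264, .ofNat 17472, .negSucc 1311]),
  (345293, [.ofNat 0, .ofNat 0, .ofNat 23808, .negSucc 703, .negSucc 12703, .negSucc 127]),
  (345309, [.ofNat 0, .ofNat 0, .ofNat 2304, .negSucc 10495, .negSucc 5631, .negSucc 127]),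
  (345317, [.ofNat 0, .ofNat 0, .ofNat 1408, .negSucc 24767, .ofNat 1696, .ofNat 320]),
  (345324, [.ofNat 0, .ofNat 0, .negSucc 10495, .negSucc 30975, .ofNat 1504, .ofNat 256]),
  (345387, [.ofNat 0, .ofNat 0, .ofNat 0, .negSucc 34303, .ofNat 34560, .negSucc 639]),
  (345419, [.ofNat 0, .ofNat 0, .ofNat 25600, .ofNat 13632, .negSucc 7711]),
  (345443, [.ofNat 0, .ofNat 26624, .ofNat 214528, .negSucc 41919, .negSucc 47487, .ofNat 640]),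
  (345757, [.ofNat 0, .ofNat 0, .ofNat 5344, .negSucc 8383, .negSucc 5535]),
  (345805, [.ofNat 0, .ofNat 0, .negSucc 10495, .ofNat 256, .negSucc 4863]),
  (345836, [.ofNat 0, .ofNat 0, .ofNat 0, .negSucc 383, .negSucc 3551, .ofNat 320]),
  (345869, [.ofNat 0, .ofNat 66560, .negSucc 247295, .negSucc 200191, .negSucc 99487, .negSucc 1919]),
  (346787, [.ofNat 0, .negSucc 26623, .ofNat 85248, .negSucc 4799, .ofNat 2560]),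
  (346795, [.ofNat 0, .ofNat 53248, .ofNat 145920, .negSucc 31231, .negSucc 74879, .ofNat 1280]),
  (346853, [.ofNat 0, .ofNat 0, .ofNat 0, .negSucc 3327, .ofNat 11904, .negSucc 5119]),
  (346909, [.ofNat 0, .ofNat 0, .ofNat 3328, .negSucc 19711, .ofNat 11520, .ofNat 512]),
  (346923, [.ofNat 0, .ofNat 0, .ofNat 0, .negSucc 4223, .ofNat 24992, .negSucc 511]),
  (398493, [.ofNat 0, .ofNat 26624, .negSucc 67455, .negSucc 94655, .negSucc 22271]),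
  (398507, [.ofNat 0, .ofNat 0, .negSucc 12031, .negSucc 3903]),
  (398557, [.ofNat 0, .ofNat 0, .negSucc 3327, .ofNat 11136, .negSucc 639]),
  (398621, [.ofNat 0, .ofNat 0, .ofNat 9984, .ofNat 352, .negSucc 26231, .negSucc 559]),
  (402077, [.ofNat 0, .ofNat 0, .ofNat 0, .negSucc 12223, .negSucc 1167, .ofNat 128]),
  (402091, [.ofNat 0, .negSucc 13311, .ofNat 112032, .negSucc 28607, .ofNat 26984, .negSucc 495]),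
  (402141, [.ofNat 0, .ofNat 0, .ofNat 0, .ofNat 8960, .ofNat 4608, .negSucc 319]),
  (402653, [.ofNat 0, .ofNat 0, .ofNat 0, .ofNat 7936, .negSucc 831, .ofNat 128]),
  (402668, [.ofNat 0, .ofNat 0, .negSucc 19967, .ofNat 59264, .ofNat 9504, .negSucc 799]),
  (403037, [.ofNat 0, .ofNat 0, .negSucc 3327, .ofNat 12928, .negSucc 1855]),
  (403085, [.ofNat 0, .ofNat 0, .negSucc 22527, .ofNat 9024, .negSucc 959]),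
  (403101, [.ofNat 0, .ofNat 0, .ofNat 0, .negSucc 2559, .ofNat 24192, .ofNat 2368]),
  (403180, [.ofNat 0, .ofNat 0, .ofNat 29952, .negSucc 84863, .negSucc 14175, .ofNat 1440]),
  (403229, [.ofNat 0, .negSucc 26623, .ofNat 59904, .ofNat 91072, .ofNat 21504, .negSucc 2559]),
  (403661, [.ofNat 0, .ofNat 53248, .negSucc 142335, .negSucc 133567, .negSucc 60223]),
  (403669, [.ofNat 0, .ofNat 26624, .negSucc 38911, .negSucc 87871, .negSucc 13183, .ofNat 2240]),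
  (410829, [.ofNat 0, .ofNat 0, .negSucc 511, .negSucc 32511, .negSucc 1023, .negSucc 1279]),
  (410845, [.ofNat 0, .ofNat 0, .ofNat 5632, .negSucc 15871, .ofNat 1664, .negSucc 255]),
  (414940, [.ofNat 0, .ofNat 0, .ofNat 512, .ofNat 45568, .negSucc 6783, .ofNat 1600]),
  (1086621, [.ofNat 0, .negSucc 13311, .ofNat 19712, .ofNat 12672, .negSucc 3903, .ofNat 1728]),
  (1086677, [.ofNat 0, .ofNat 0, .ofNat 27008, .ofNat 1856, .negSucc 319]),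
  (1086693, [.ofNat 0, .ofNat 0, .ofNat 0, .ofNat 14592, .negSucc 2111]),
  (1086813, [.ofNat 0, .negSucc 53247, .ofNat 162304, .ofNat 131200, .ofNat 46784, .negSucc 127]),
  (1090205, [.ofNat 0, .ofNat 0, .ofNat 13312, .negSucc 24319, .negSucc 255]),
  (1090261, [.ofNat 0, .ofNat 0, .negSucc 2111, .ofNat 12128, .ofNat 2008, .negSucc 15]),
  (1090653, [.ofNat 0, .ofNat 0, .ofNat 0, .negSucc 2687, .negSucc 4383, .negSucc 127]),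
  (1091301, [.ofNat 0, .ofNat 0, .ofNat 0, .negSucc 767, .ofNat 1600]),
  (1091309, [.ofNat 0, .ofNat 0, .ofNat 0, .ofNat 768, .negSucc 1599]),
  (2434845, [.ofNat 0, .ofNat 0, .negSucc 3327, .negSucc 6399, .ofNat 320]),
  (2438373, [.ofNat 0, .ofNat 0, .ofNat 3328, .negSucc 9599, .ofNat 320]),
  (2499805, [.ofNat 0, .ofNat 0, .ofNat 3328, .negSucc 9727, .ofNat 640]),
  (2500253, [.ofNat 0, .ofNat 0, .ofNat 3328, .negSucc 9599, .ofNat 320]),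
  (2512083, [.ofNat 0, .ofNat 0, .negSucc 3327, .ofNat 9600, .negSucc 319]),
  (2664669, [.ofNat 0, .ofNat 0, .ofNat 3328, .negSucc 255, .negSucc 1215]),
  (2668309, [.ofNat 0, .ofNat 0, .ofNat 3328, .negSucc 255, .negSucc 1215]),
  (2668330, [.ofNat 0, .ofNat 0, .ofNat 4864]),
  (2672285, [.ofNat 0, .ofNat 0, .ofNat 0, .ofNat 1280]),
  (2672299, [.ofNat 0, .ofNat 0, .ofNat 11088, .ofNat 15328, .negSucc 2031]),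
  (2701613, [.ofNat 0, .ofNat 0, .negSucc 8063, .negSucc 3935, .ofNat 1536]),
  (2704093, [.ofNat 0, .ofNat 0, .negSucc 4863]),
  (2726122, [.ofNat 0, .ofNat 0, .negSucc 5647, .ofNat 6384, .negSucc 1503]),
  (2729741, [.ofNat 0, .ofNat 0, .ofNat 6656, .negSucc 8575, .negSucc 895]),
  (2730189, [.ofNat 0, .ofNat 0, .negSucc 3327, .ofNat 9728, .negSucc 639]),
  (2736811, [.ofNat 0, .ofNat 0, .ofNat 11088, .ofNat 16608, .negSucc 2031]),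
  (2736874, [.ofNat 0, .ofNat 0, .negSucc 5647, .ofNat 6384, .negSucc 1503]),
  (2758315, [.ofNat 0, .ofNat 0, .negSucc 5647, .ofNat 6384, .negSucc 1503]),
  (2762604, [.ofNat 0, .ofNat 0, .ofNat 7680, .negSucc 5311]),
  (2763619, [.ofNat 0, .ofNat 0, .ofNat 768, .negSucc 703]),
  (2766442, [.ofNat 0, .ofNat 0, .ofNat 4864]),
  (3216605, [.ofNat 0, .ofNat 0, .negSucc 3327, .ofNat 9728, .negSucc 639]),
  (8693405, [.ofNat 0, .ofNat 0, .negSucc 3327, .ofNat 256, .ofNat 1216]),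
  (19478309, [.ofNat 13312, .negSucc 43007, .ofNat 7488, .negSucc 1727]),
  (19540707, [.ofNat 0, .ofNat 0, .negSucc 25599, .negSucc 9471, .negSucc 255]),
  (160782554, [.ofNat 26624, .negSucc 27103, .negSucc 9215, .negSucc 4543]),
  (170809186, [.ofNat 0, .negSucc 7167, .negSucc 7167, .ofNat 896]),
  (171039458, [.ofNat 0, .negSucc 15039, .negSucc 33951, .negSucc 12815]),
  (172374876, [.negSucc 79871, .ofNat 27808, .ofNat 80384, .ofNat 41808]),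
  (172870252, [.ofNat 0, .ofNat 960, .ofNat 6304, .negSucc 623]),
  (174740323, [.ofNat 0, .negSucc 13663, .ofNat 6464, .negSucc 4879]),
  (175002466, [.ofNat 0, .ofNat 5888, .ofNat 5920, .ofNat 3424]),
  (175282963, [.ofNat 0, .ofNat 13824, .negSucc 6911]),
  (177133322, [.ofNat 0, .negSucc 15039, .negSucc 33951, .negSucc 12815]),
  (212416101, [.ofNat 0, .negSucc 959, .negSucc 6303, .ofNat 624])]

/-- the sum of the part -/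
def lE1 : List (ℕ × List ℤ) := lE1x0 ++ (lE1x1)

theorem okE1 : dE1.all (rok tbE 12) = true := by decide +kernel

theorem sumE1 : aeq (fz (sumT tbE dE1)) lE1 = true := by decide +kernel

end Pool.Agent.H.MP_e16c79_al.IS
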