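import Pool.Agent.H.MP_e16c79_al.IS.BTabE

/-!
# MP_e16c79_al: certificate E, part 11
-/

set_option autoImplicit false

namespace Pool.Agent.H.MP_e16c79_al.IS

/-- data -/
def dE11x0 : RT := (.nd (.nd (.nd (.lf ⟨[.ofNat 0, .ofNat 1024, .ofNat 2160, .negSucc 255], (.tr (.lf 18) (.dx 3 (.tr (.tw (.lf 1) (.lf 2)) (.lf 17) (.lf 5))) (.tr (.lf 9) (.lf 6) (.lf 10))), 3, [11, 11, 11, 11, 11, 11, 11, 11], []⟩)
    (.lf ⟨[.ofNat 0, .negSucc 415, .ofNat 1616, .negSucc 231], (.tr (.lf 18) (.dx 3 (.tr (.lf 1) (.tw (.lf 5) (.lf 17)) (.lf 2))) (.tr (.lf 9) (.lf 6) (.lf 10))), 3, [11, 11, 11, 11, 11, 11, 11, 11], []⟩))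
    (.nd (.lf ⟨[.ofNat 0, .ofNat 1456, .negSucc 3071, .ofNat 600], (.tr (.dx 3 (.tr (.lf 1) (.tw (.lf 5) (.lf 17)) (.lf 2))) (.tr (.lf 9) (.lf 6) (.lf 10)) (.lf 18)), 3, [23, 23, 23, 23, 23, 23, 23, 23], []⟩)
    (.lf ⟨[.ofNat 0, .negSucc 4311, .negSucc 2723, .negSucc 475], (.tr (.dx 3 (.tr (.lf 5) (.tw (.lf 1) (.lf 2)) (.lf 17))) (.tr (.lf 9) (.lf 6) (.lf 10)) (.lf 18)), 3, [23, 23, 23, 23, 23, 23, 23, 23], []⟩)))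
    (.nd (.nd (.lf ⟨[.ofNat 0, .ofNat 6208, .ofNat 6240, .ofNat 304], (.tr (.dx 3 (.tr (.tw (.lf 1) (.lf 5)) (.lf 2) (.lf 17))) (.tr (.lf 9) (.lf 6) (.lf 10)) (.lf 18)), 3, [1023, 1023, 23, 23, 23, 23, 23, 23], []⟩)
    (.lf ⟨[.ofNat 0, .ofNat 3104, .ofNat 3120, .ofNat 152], (.tw (.dx 3 (.tr (.lf 1) (.tr (.lf 9) (.tr (.lf 2) (.lf 17) (.lf 5)) (.lf 10)) (.lf 6))) (.lf 18)), 3, [2, 2, 2, 2, 8, 8, 8, 8], []⟩))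
    (.nd (.lf ⟨[.ofNat 0, .ofNat 192, .negSucc 751], (.tr (.dx 3 (.tr (.lf 1) (.tr (.lf 5) (.lf 6) (.lf 17)) (.lf 2))) (.tw (.lf 9) (.lf 10)) (.lf 18)), 3, [19, 19, 19, 19, 19, 19, 19, 19], []⟩)
    (.lf ⟨[.ofNat 0, .negSucc 367, .negSucc 2331, .negSucc 335], (.tr (.dx 3 (.tr (.lf 1) (.tr (.lf 5) (.lf 6) (.lf 17)) (.lf 2))) (.lf 18) (.tw (.lf 9) (.lf 10))), 3, [19, 19, 19, 19, 19, 19, 19, 19], []⟩))))

/-- data -/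
def dE11x1 : RT := (.nd (.nd (.nd (.lf ⟨[.ofNat 0, .ofNat 304, .negSucc 547, .negSucc 15], (.tr (.dx 3 (.tw (.lf 1) (.tr (.lf 2) (.lf 17) (.tw (.lf 5) (.lf 6))))) (.lf 18) (.tw (.lf 9) (.lf 10))), 3, [23, 23, 23, 23, 19, 19, 19, 19, 19, 19, 19, 19, 19, 19, 19, 19], []⟩)
    (.lf ⟨[.ofNat 23296, .ofNat 22672, .negSucc 28495, .negSucc 11547], (.tr (.dx 3 (.tr (.lf 5) (.tr (.lf 1) (.lf 17) (.lf 2)) (.lf 9))) (.lf 18) (.tw (.lf 6) (.lf 10))), 3, [23, 21, 23, 21, 23, 21, 23, 21], []⟩))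
    (.nd (.lf ⟨[.ofNat 0, .negSucc 767, .ofNat 3232, .ofNat 160], (.tr (.lf 6) (.tw (.dx 3 (.tr (.lf 1) (.tr (.lf 5) (.lf 17) (.lf 9)) (.lf 2))) (.lf 18)) (.lf 10)), 3, [4, 4, 4, 4, 7, 7, 7, 7], []⟩)
    (.lf ⟨[.ofNat 0, .negSucc 415, .ofNat 240, .negSucc 103], (.tr (.tw (.lf 6) (.lf 10)) (.dx 3 (.tr (.lf 1) (.tr (.lf 5) (.lf 17) (.lf 9)) (.lf 2))) (.lf 18)), 3, [8, 8, 8, 8, 10, 10, 10, 10], []⟩)))
    (.nd (.nd (.lf ⟨[.ofNat 0, .ofNat 384, .negSucc 1503], (.tr (.dx 3 (.tr (.lf 1) (.lf 2) (.tr (.tw (.lf 5) (.lf 6)) (.lf 17) (.lf 9)))) (.lf 10) (.lf 18)), 3, [0, 0, 2, 2, 8, 8, 1017, 1017], []⟩)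
    (.lf ⟨[.negSucc 6655, .ofNat 23104, .ofNat 16160, .ofNat 7008], (.tr (.dx 3 (.tr (.lf 1) (.tr (.lf 2) (.tw (.lf 5) (.lf 6)) (.lf 17)) (.lf 9))) (.lf 10) (.lf 18)), 3, [0, 0, 19, 19, 6, 6, 1017, 1017], []⟩))
    (.nd (.lf ⟨[.negSucc 6655, .ofNat 20480, .ofNat 16672, .ofNat 7008], (.tr (.lf 14) (.lf 9) (.tr (.lf 17) (.tw (.dx 0 (.tr (.lf 5) (.lf 6) (.lf 13))) (.lf 10)) (.lf 18))), 0, [19, 19, 6, 13, 19, 19, 6, 13], []⟩)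
    (.lf ⟨[.ofNat 0, .ofNat 2816, .negSucc 1615], (.tw (.lf 14) (.tr (.lf 17) (.dx 0 (.tr (.lf 5) (.lf 6) (.lf 13))) (.tr (.lf 9) (.lf 18) (.lf 10)))), 0, [19, 19, 19, 19, 6, 13, 6, 13], []⟩))))

/-- data -/
def dE11x2 : RT := (.nd (.nd (.nd (.lf ⟨[.ofNat 1664, .negSucc 2463, .negSucc 223], (.tr (.dx 3 (.tr (.lf 17) (.lf 9) (.tr (.tw (.lf 1) (.lf 2)) (.lf 5) (.lf 6)))) (.lf 10) (.lf 18)), 3, [23, 23, 19, 19, 0, 0, 4, 4], []⟩)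
    (.lf ⟨[.ofNat 4160, .ofNat 786, .ofNat 1692, .negSucc 420], (.tw (.dx 3 (.tr (.lf 1) (.tw (.lf 17) (.tr (.tw (.lf 5) (.lf 6)) (.lf 9) (.lf 10))) (.lf 2))) (.lf 18)), 3, [0, 0, 2, 2, 0, 0, 2, 2, 0, 0, 2, 2, 0, 0, 2, 2], []⟩))
    (.nd (.lf ⟨[.negSucc 13311, .negSucc 8071, .negSucc 7215, .ofNat 1684], (.tw (.dx 3 (.tr (.lf 1) (.tr (.lf 5) (.lf 6) (.tr (.lf 9) (.lf 10) (.lf 17))) (.lf 2))) (.lf 18)), 3, [0, 0, 2, 2, 0, 0, 2, 2], []⟩)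
    (.lf ⟨[.ofNat 6656, .ofNat 7224, .ofNat 7088, .negSucc 2627], (.tw (.dx 3 (.tr (.lf 1) (.tr (.lf 5) (.tr (.lf 6) (.lf 17) (.lf 9)) (.lf 10)) (.lf 2))) (.lf 18)), 3, [0, 0, 2, 2, 0, 0, 2, 2], []⟩)))
    (.nd (.nd (.lf ⟨[.negSucc 13311, .negSucc 1567, .ofNat 5504, .negSucc 1183], (.tr (.dx 3 (.tr (.tw (.lf 1) (.lf 2)) (.lf 5) (.lf 17))) (.tr (.lf 6) (.lf 9) (.lf 10)) (.lf 18)), 3, [1023, 0, 1023, 0, 23, 21, 23, 21], []⟩)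
    (.lf ⟨[.ofNat 0, .negSucc 127, .negSucc 5759, .negSucc 703], (.tr (.lf 18) (.lf 6) (.tr (.dx 3 (.tr (.tw (.lf 1) (.lf 2)) (.lf 5) (.lf 17))) (.lf 9) (.lf 10))), 3, [11, 11, 7, 7, 20, 20, 1, 1], []⟩))
    (.nd (.lf ⟨[.ofNat 0, .negSucc 559, .negSucc 1087, .negSucc 7335], (.tr (.dx 3 (.tr (.lf 5) (.tw (.lf 1) (.lf 2)) (.lf 17))) (.tr (.lf 6) (.lf 9) (.lf 10)) (.lf 18)), 3, [23, 1023, 23, 1023, 23, 21, 23, 21], []⟩)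
    (.lf ⟨[.negSucc 6655, .ofNat 19472, .ofNat 10192, .ofNat 12792], (.tr (.dx 3 (.tr (.lf 5) (.tw (.lf 1) (.lf 2)) (.lf 17))) (.lf 9) (.tr (.lf 10) (.lf 6) (.lf 18))), 3, [1023, 23, 1023, 23, 21, 23, 21, 23], []⟩))))

/-- data -/
def dE11x3 : RT := (.nd (.nd (.nd (.lf ⟨[.ofNat 6656, .ofNat 368, .negSucc 2719, .ofNat 744], (.tw (.dx 3 (.tr (.tw (.lf 1) (.lf 2)) (.lf 5) (.lf 17))) (.tr (.lf 6) (.tw (.lf 9) (.lf 10)) (.lf 18))), 3, [1023, 1023, 21, 21, 1023, 1023, 21, 21, 23, 23, 21, 21, 23, 23, 21, 21], []⟩)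
    (.lf ⟨[.ofNat 0, .ofNat 288, .ofNat 192], (.tw (.lf 18) (.tr (.dx 3 (.tr (.lf 5) (.tw (.lf 1) (.lf 2)) (.lf 17))) (.tw (.lf 9) (.lf 10)) (.lf 6))), 3, [9, 9, 9, 9, 9, 9, 9, 9, 20, 20, 1023, 1023, 20, 20, 1023, 1023], []⟩))
    (.nd (.lf ⟨[.negSucc 13311, .negSucc 1567, .ofNat 5504, .negSucc 1183], (.tr (.dx 3 (.tr (.tw (.lf 1) (.lf 2)) (.lf 5) (.lf 17))) (.tr (.lf 9) (.lf 10) (.lf 18)) (.lf 6)), 3, [21, 21, 21, 21, 21, 21, 21, 21], []⟩)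
    (.lf ⟨[.ofNat 0, .negSucc 575, .negSucc 383], (.tr (.lf 6) (.lf 9) (.tr (.lf 10) (.dx 3 (.tr (.lf 5) (.tw (.lf 1) (.lf 2)) (.lf 17))) (.lf 18))), 3, [8, 8, 8, 8, 20, 20, 20, 20], []⟩)))
    (.nd (.nd (.lf ⟨[.ofNat 0, .ofNat 576, .ofNat 384], (.tr (.lf 9) (.dx 3 (.tr (.lf 5) (.tw (.lf 1) (.lf 2)) (.lf 17))) (.tr (.lf 6) (.lf 10) (.lf 18))), 3, [10, 21, 10, 21, 6, 21, 6, 21], []⟩)
    (.lf ⟨[.ofNat 0, .ofNat 8, .ofNat 512, .negSucc 3747], (.tw (.dx 3 (.tr (.lf 5) (.tw (.lf 1) (.lf 2)) (.lf 17))) (.tr (.lf 9) (.tw (.lf 6) (.lf 18)) (.lf 10))), 3, [23, 23, 23, 23, 23, 23, 23, 23, 23, 23, 23, 23, 23, 23, 23, 23], []⟩))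
    (.nd (.lf ⟨[.ofNat 0, .negSucc 911, .ofNat 4528, .ofNat 7176], (.tr (.dx 3 (.tr (.lf 5) (.tw (.lf 1) (.lf 2)) (.lf 17))) (.lf 9) (.tr (.lf 6) (.lf 18) (.lf 10))), 3, [23, 21, 23, 21, 23, 21, 23, 21], []⟩)
    (.lf ⟨[.ofNat 6656, .negSucc 1839, .negSucc 3631, .ofNat 760], (.tw (.lf 6) (.tr (.dx 3 (.tr (.tw (.lf 1) (.lf 2)) (.lf 5) (.lf 17))) (.tw (.lf 9) (.lf 10)) (.lf 18))), 3, [4, 4, 4, 4, 4, 4, 4, 4, 20, 20, 20, 20, 20, 20, 20, 20], []⟩))))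

/-- data -/
def dE11x4 : RT := (.nd (.nd (.nd (.lf ⟨[.negSucc 13311, .ofNat 14816, .ofNat 6000, .ofNat 1088], (.tr (.lf 6) (.tr (.dx 3 (.tr (.tw (.lf 1) (.lf 2)) (.lf 5) (.lf 17))) (.lf 9) (.lf 10)) (.lf 18)), 3, [4, 4, 4, 4, 8, 8, 8, 8], []⟩)
    (.lf ⟨[.ofNat 0, .negSucc 831, .ofNat 4480, .negSucc 319], (.tr (.lf 18) (.lf 9) (.tr (.lf 6) (.dx 3 (.tr (.tw (.lf 1) (.lf 2)) (.lf 5) (.lf 17))) (.lf 10))), 3, [11, 11, 7, 7, 5, 5, 5, 5], []⟩))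
    (.nd (.lf ⟨[.ofNat 6656, .negSucc 6775, .negSucc 2303, .negSucc 1135], (.tw (.lf 6) (.tr (.tw (.lf 9) (.lf 10)) (.dx 3 (.tr (.tw (.lf 1) (.lf 2)) (.lf 5) (.lf 17))) (.lf 18))), 3, [8, 8, 8, 8, 8, 8, 8, 8, 11, 11, 11, 11, 7, 7, 7, 7], []⟩)
    (.lf ⟨[.ofNat 13312, .ofNat 14448, .ofNat 14176, .negSucc 5255], (.tr (.dx 3 (.tr (.lf 5) (.tw (.lf 1) (.lf 9)) (.lf 17))) (.tr (.lf 2) (.lf 6) (.lf 10)) (.lf 18)), 3, [23, 1017, 1015, 13, 23, 13, 23, 13], [1023, 1023]⟩)))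
    (.nd (.nd (.lf ⟨[.ofNat 13312, .ofNat 8896, .ofNat 7280, .negSucc 4559], (.tr (.dx 3 (.tr (.tw (.lf 1) (.lf 9)) (.lf 5) (.lf 17))) (.tr (.lf 2) (.lf 6) (.lf 10)) (.lf 18)), 3, [2, 1015, 1017, 6, 23, 13, 23, 13], [1023, 1023]⟩)
    (.lf ⟨[.ofNat 0, .negSucc 6119, .negSucc 4175, .negSucc 1391], (.tw (.lf 14) (.tr (.lf 17) (.tw (.dx 0 (.tr (.lf 5) (.tw (.lf 9) (.lf 13)) (.lf 6))) (.lf 10)) (.lf 18))), 0, [19, 19, 19, 19, 13, 13, 13, 13, 19, 19, 19, 19, 13, 13, 13, 13], []⟩))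
    (.nd (.lf ⟨[.ofNat 0, .negSucc 1727, .negSucc 319, .ofNat 816], (.tr (.lf 17) (.dx 0 (.tr (.lf 5) (.tw (.lf 9) (.lf 13)) (.lf 6))) (.tr (.lf 10) (.lf 18) (.lf 14))), 0, [12, 19, 12, 19, 12, 19, 12, 19], []⟩)
    (.lf ⟨[.ofNat 0, .ofNat 480, .ofNat 3088, .ofNat 120], (.tr (.lf 17) (.lf 10) (.tr (.dx 0 (.tr (.lf 5) (.tw (.lf 9) (.lf 13)) (.lf 6))) (.lf 18) (.lf 14))), 0, [18, 18, 18, 18, 1, 1, 1, 1], []⟩))))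

/-- data -/
def dE11x5 : RT := (.nd (.nd (.nd (.lf ⟨[.ofNat 0, .negSucc 3343, .negSucc 543, .negSucc 1279], (.tr (.lf 14) (.lf 17) (.tr (.lf 10) (.dx 0 (.tr (.lf 5) (.tw (.lf 9) (.lf 13)) (.lf 6))) (.lf 18))), 0, [13, 13, 13, 13, 7, 7, 7, 7], []⟩)
    (.lf ⟨[.ofNat 0, .ofNat 3200, .negSucc 239, .ofNat 112], (.tr (.lf 10) (.tr (.dx 0 (.tr (.lf 5) (.tw (.lf 9) (.lf 13)) (.lf 6))) (.lf 17) (.lf 18)) (.lf 14)), 0, [6, 6, 6, 6, 18, 18, 18, 18], []⟩))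
    (.nd (.lf ⟨[.ofNat 0, .negSucc 5943, .ofNat 3192, .ofNat 1288], (.tw (.lf 10) (.tr (.dx 0 (.tr (.lf 5) (.tw (.lf 9) (.lf 13)) (.lf 6))) (.tw (.lf 17) (.lf 18)) (.lf 14))), 0, [6, 6, 6, 6, 6, 6, 6, 6, 1, 1, 1, 1, 1, 1, 1, 1], []⟩)
    (.lf ⟨[.ofNat 0, .ofNat 12752, .negSucc 2919, .negSucc 2527], (.tr (.dx 0 (.tr (.lf 5) (.tw (.lf 9) (.lf 13)) (.lf 6))) (.tr (.lf 14) (.lf 17) (.lf 18)) (.lf 10)), 0, [0, 0, 0, 0, 0, 0, 0, 0], []⟩)))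
    (.nd (.nd (.lf ⟨[.ofNat 0, .negSucc 11887, .ofNat 6384, .ofNat 2576], (.tr (.dx 0 (.tr (.lf 5) (.tw (.lf 9) (.lf 13)) (.lf 6))) (.lf 14) (.tr (.lf 10) (.lf 17) (.lf 18))), 0, [0, 0, 0, 0, 0, 0, 0, 0], []⟩)
    (.lf ⟨[.ofNat 0, .negSucc 3039, .ofNat 936, .ofNat 88], (.tw (.lf 10) (.tr (.lf 17) (.tw (.dx 0 (.tr (.lf 5) (.tw (.lf 9) (.lf 13)) (.lf 6))) (.lf 14)) (.lf 18))), 0, [18, 18, 18, 18, 18, 18, 18, 18, 18, 18, 18, 18, 18, 18, 18, 18], []⟩))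
    (.nd (.lf ⟨[.ofNat 0, .ofNat 3680, .negSucc 1159, .negSucc 631], (.tr (.dx 3 (.tr (.lf 5) (.lf 1) (.lf 9))) (.lf 2) (.tr (.lf 6) (.tw (.lf 17) (.lf 18)) (.lf 10))), 3, [23, 23, 21, 21, 23, 23, 21, 21], [23, 23, 21, 21]⟩)
    (.lf ⟨[.ofNat 0, .ofNat 8160, .negSucc 1119, .ofNat 1024], (.tr (.dx 3 (.tw (.lf 1) (.tr (.lf 9) (.lf 17) (.tr (.lf 5) (.lf 2) (.lf 6))))) (.lf 10) (.lf 18)), 3, [2, 2, 0, 0, 1017, 1017, 4, 4], []⟩))))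

/-- data -/
def dE11x6 : RT := (.nd (.nd (.nd (.lf ⟨[.ofNat 0, .negSucc 5247, .negSucc 5023, .ofNat 176], (.tr (.dx 3 (.tw (.lf 1) (.tr (.lf 5) (.tr (.lf 2) (.lf 17) (.lf 9)) (.lf 6)))) (.lf 10) (.lf 18)), 3, [0, 0, 0, 0, 4, 8, 4, 8], []⟩)
    (.lf ⟨[.ofNat 0, .ofNat 3328, .negSucc 6079, .negSucc 63], (.tr (.dx 3 (.tw (.lf 9) (.tr (.lf 17) (.lf 1) (.tr (.lf 5) (.lf 2) (.lf 6))))) (.lf 10) (.lf 18)), 3, [1017, 1017, 10, 10, 23, 23, 4, 4], []⟩))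
    (.nd (.lf ⟨[.ofNat 0, .negSucc 831, .ofNat 4480, .negSucc 319], (.tr (.dx 3 (.tr (.lf 1) (.tr (.lf 2) (.lf 17) (.tw (.lf 5) (.lf 6))) (.lf 9))) (.lf 18) (.lf 10)), 3, [23, 23, 19, 19, 19, 19, 19, 19], []⟩)
    (.lf ⟨[.ofNat 0, .ofNat 9408, .negSucc 3375, .ofNat 3808], (.tr (.dx 3 (.tw (.lf 9) (.tr (.lf 1) (.tr (.lf 2) (.lf 17) (.lf 5)) (.lf 6)))) (.lf 18) (.lf 10)), 3, [23, 23, 19, 19, 23, 23, 19, 19], []⟩)))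
    (.nd (.nd (.lf ⟨[.ofNat 0, .negSucc 10303, .ofNat 112, .negSucc 3151], (.tr (.dx 3 (.tr (.lf 1) (.tr (.lf 5) (.tw (.lf 2) (.lf 17)) (.lf 6)) (.lf 9))) (.lf 18) (.lf 10)), 3, [23, 23, 23, 23, 19, 19, 19, 19], []⟩)
    (.lf ⟨[.ofNat 0, .negSucc 6111, .negSucc 895, .ofNat 72], (.tr (.dx 3 (.tw (.lf 9) (.tr (.lf 1) (.lf 17) (.tr (.lf 5) (.lf 2) (.lf 6))))) (.lf 18) (.lf 10)), 3, [23, 23, 19, 19, 23, 23, 19, 19], []⟩))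
    (.nd (.lf ⟨[.ofNat 0, .ofNat 480, .ofNat 3152, .negSucc 311], (.tr (.dx 3 (.tw (.lf 1) (.tr (.lf 9) (.tr (.lf 5) (.lf 2) (.lf 6)) (.lf 17)))) (.lf 18) (.lf 10)), 3, [23, 23, 23, 23, 19, 19, 19, 19], []⟩)
    (.lf ⟨[.ofNat 0, .negSucc 479, .negSucc 3151, .ofNat 312], (.tr (.dx 3 (.tr (.lf 17) (.lf 1) (.tr (.lf 5) (.tw (.lf 2) (.lf 9)) (.lf 6)))) (.lf 18) (.lf 10)), 3, [23, 23, 23, 23, 19, 19, 19, 19], []⟩))))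

/-- data -/
def dE11x7 : RT := (.nd (.nd (.nd (.lf ⟨[.ofNat 0, .negSucc 20719, .negSucc 1039, .negSucc 10943], (.tr (.lf 10) (.dx 3 (.tr (.lf 9) (.lf 1) (.tr (.lf 2) (.lf 17) (.tw (.lf 5) (.lf 6))))) (.lf 18)), 3, [6, 6, 6, 6, 6, 6, 10, 10], []⟩)
    (.lf ⟨[.ofNat 0, .ofNat 15792, .ofNat 6976, .ofNat 10624], (.tr (.lf 10) (.dx 3 (.tr (.lf 1) (.tr (.lf 2) (.tw (.lf 5) (.lf 6)) (.lf 17)) (.lf 9))) (.lf 18)), 3, [6, 6, 6, 6, 6, 6, 10, 10], []⟩))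
    (.nd (.lf ⟨[.ofNat 4160, .negSucc 19255, .negSucc 20863, .negSucc 10527], (.tr (.lf 10) (.dx 3 (.tr (.lf 9) (.lf 17) (.tr (.tw (.lf 1) (.lf 2)) (.lf 5) (.lf 6)))) (.lf 18)), 3, [6, 6, 10, 10, 6, 6, 10, 10], []⟩)
    (.lf ⟨[.negSucc 8319, .ofNat 22720, .ofNat 34752, .ofNat 10432], (.tr (.lf 10) (.dx 3 (.tr (.lf 1) (.lf 2) (.tr (.tw (.lf 5) (.lf 6)) (.lf 17) (.lf 9)))) (.lf 18)), 3, [6, 6, 6, 6, 10, 10, 10, 10], []⟩)))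
    (.nd (.nd (.lf ⟨[.ofNat 0, .negSucc 6655, .negSucc 6783, .negSucc 1199], (.tr (.lf 10) (.dx 3 (.tr (.lf 1) (.tr (.lf 2) (.tw (.lf 9) (.lf 17)) (.lf 5)) (.lf 6))) (.lf 18)), 3, [6, 6, 6, 6, 10, 10, 10, 10], []⟩)
    (.lf ⟨[.ofNat 0, .ofNat 896, .negSucc 5871, .ofNat 320], (.tr (.lf 10) (.dx 3 (.tr (.lf 1) (.lf 17) (.tr (.tw (.lf 5) (.lf 6)) (.lf 2) (.lf 9)))) (.lf 18)), 3, [6, 6, 6, 6, 10, 10, 6, 6], []⟩))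
    (.nd (.lf ⟨[.ofNat 0, .negSucc 895, .ofNat 5872, .negSucc 319], (.tr (.lf 10) (.dx 3 (.tr (.lf 1) (.lf 2) (.tr (.lf 5) (.tw (.lf 9) (.lf 17)) (.lf 6)))) (.lf 18)), 3, [6, 6, 6, 6, 10, 10, 10, 10], []⟩)
    (.lf ⟨[.ofNat 0, .ofNat 0, .negSucc 319], (.tr (.lf 10) (.dx 3 (.tr (.lf 1) (.tr (.tw (.lf 2) (.lf 5)) (.lf 17) (.lf 9)) (.lf 6))) (.lf 18)), 3, [6, 6, 6, 6, 10, 10, 10, 10], []⟩))))

/-- data -/
def dE11x8 : RT := (.nd (.nd (.nd (.lf ⟨[.ofNat 0, .negSucc 4927, .negSucc 7759, .negSucc 1487], (.tw (.lf 14) (.tr (.lf 17) (.dx 0 (.tr (.lf 5) (.lf 13) (.lf 9))) (.tr (.lf 6) (.lf 18) (.lf 10)))), 0, [23, 21, 23, 21, 15, 13, 15, 13], [23, 21, 15, 13]⟩)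
    (.lf ⟨[.ofNat 0, .ofNat 0, .negSucc 3583, .negSucc 3583, .ofNat 448], (.tw (.dx 3 (.lf 1)) (.tr (.lf 17) (.lf 2) (.tr (.lf 7) (.lf 18) (.lf 11)))), 3, [23, 21, 15, 13], [23, 21, 15, 13]⟩))
    (.nd (.lf ⟨[.ofNat 0, .ofNat 6336, .ofNat 2096, .ofNat 792], (.tr (.dx 0 (.tr (.lf 5) (.lf 13) (.lf 9))) (.tr (.lf 17) (.tw (.lf 6) (.lf 10)) (.lf 18)) (.lf 14)), 0, [0, 0, 0, 0, 2, 2, 2, 2], [12, 14, 12, 14]⟩)
    (.lf ⟨[.ofNat 0, .ofNat 11056, .ofNat 248, .ofNat 212], (.tr (.dx 3 (.tr (.lf 5) (.lf 1) (.lf 9))) (.tr (.lf 17) (.tw (.lf 6) (.lf 10)) (.lf 18)) (.lf 2)), 3, [15, 13, 15, 13, 15, 13, 15, 13], [15, 13, 15, 13]⟩)))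
    (.nd (.nd (.lf ⟨[.ofNat 0, .negSucc 207, .ofNat 696, .negSucc 59], (.tw (.dx 3 (.tr (.lf 1) (.tr (.lf 5) (.lf 17) (.tr (.lf 9) (.lf 6) (.lf 10))) (.lf 2))) (.lf 18)), 3, [0, 0, 2, 2, 0, 0, 2, 2], []⟩)
    (.lf ⟨[.ofNat 0, .ofNat 1664, .negSucc 4863, .ofNat 320], (.tw (.dx 3 (.tr (.lf 1) (.lf 5) (.tr (.lf 2) (.tr (.lf 9) (.lf 6) (.lf 10)) (.lf 17)))) (.lf 18)), 3, [0, 0, 0, 0, 2, 2, 1023, 1023], []⟩))
    (.nd (.lf ⟨[.ofNat 0, .ofNat 3328, .negSucc 6079, .negSucc 63], (.tw (.dx 3 (.tr (.lf 1) (.lf 5) (.tr (.lf 2) (.lf 6) (.tr (.lf 9) (.lf 17) (.lf 10))))) (.lf 18)), 3, [0, 0, 0, 0, 0, 0, 10, 10], []⟩)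
    (.lf ⟨[.ofNat 13312, .ofNat 240, .ofNat 6608, .negSucc 7711], (.tw (.dx 3 (.tr (.lf 1) (.lf 5) (.tr (.lf 9) (.tr (.lf 2) (.lf 6) (.lf 17)) (.lf 10)))) (.lf 18)), 3, [0, 0, 0, 0, 6, 10, 6, 10], []⟩))))

/-- data -/
def dE11x9 : RT := (.nd (.nd (.nd (.lf ⟨[.ofNat 0, .negSucc 10559, .negSucc 5711, .negSucc 1775], (.tw (.dx 3 (.tr (.lf 1) (.tr (.lf 9) (.lf 17) (.tr (.lf 2) (.lf 10) (.lf 5))) (.lf 6))) (.lf 18)), 3, [2, 2, 2, 0, 8, 8, 4, 8], []⟩)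
    (.lf ⟨[.ofNat 0, .negSucc 1023, .negSucc 2159, .ofNat 256], (.tr (.lf 1) (.dx 3 (.tw (.lf 17) (.lf 18))) (.tr (.lf 5) (.lf 6) (.tr (.lf 9) (.lf 2) (.lf 10)))), 3, [7, 7, 9, 9, 7, 7, 9, 9], []⟩))
    (.nd (.lf ⟨[.ofNat 0, .ofNat 1024, .ofNat 2160, .negSucc 255], (.tr (.lf 1) (.tr (.dx 3 (.tw (.lf 17) (.lf 18))) (.tr (.lf 9) (.lf 5) (.lf 10)) (.lf 2)) (.lf 6)), 3, [5, 5, 5, 5, 2, 2, 2, 2], []⟩)
    (.lf ⟨[.ofNat 0, .ofNat 2048, .ofNat 4320, .negSucc 511], (.tw (.dx 0 (.tr (.lf 17) (.lf 13) (.tr (.lf 14) (.lf 18) (.tr (.lf 5) (.lf 9) (.lf 6))))) (.lf 10)), 0, [19, 19, 7, 7, 19, 19, 12, 12], []⟩)))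
    (.nd (.nd (.lf ⟨[.ofNat 0, .ofNat 1048, .ofNat 112, .negSucc 1903], (.tr (.dx 3 (.tr (.lf 17) (.tw (.lf 1) (.lf 5)) (.lf 18))) (.lf 2) (.tr (.lf 9) (.lf 6) (.lf 10))), 3, [11, 11, 11, 11, 11, 11, 11, 11], []⟩)
    (.lf ⟨[.ofNat 0, .negSucc 8863, .ofNat 5400, .negSucc 2531], (.tr (.lf 2) (.dx 3 (.tr (.lf 1) (.tw (.lf 17) (.lf 18)) (.lf 5))) (.tr (.lf 9) (.lf 6) (.lf 10))), 3, [11, 11, 11, 11, 11, 11, 11, 11], []⟩))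
    (.nd (.lf ⟨[.ofNat 0, .ofNat 832, .negSucc 2143, .ofNat 304], (.tr (.lf 2) (.dx 3 (.tr (.lf 1) (.lf 17) (.tw (.lf 5) (.lf 18)))) (.tr (.lf 9) (.lf 6) (.lf 10))), 3, [11, 11, 11, 11, 11, 11, 11, 11], []⟩)
    (.lf ⟨[.ofNat 0, .ofNat 16896, .negSucc 8655, .ofNat 4760], (.tr (.lf 2) (.dx 3 (.tr (.tw (.lf 1) (.lf 17)) (.lf 18) (.lf 5))) (.tr (.lf 9) (.lf 6) (.lf 10))), 3, [11, 11, 11, 11, 11, 11, 11, 11], []⟩))))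

/-- data -/
def dE11x10 : RT := (.nd (.nd (.nd (.lf ⟨[.ofNat 0, .negSucc 2367, .negSucc 383, .ofNat 5064], (.tr (.lf 9) (.dx 3 (.tr (.lf 1) (.tw (.lf 17) (.lf 18)) (.lf 5))) (.tr (.lf 2) (.lf 10) (.lf 6))), 3, [9, 3, 9, 3, 9, 3, 9, 3], []⟩)
    (.lf ⟨[.ofNat 0, .ofNat 2624, .negSucc 63], (.tr (.lf 2) (.tr (.dx 3 (.tr (.lf 17) (.tw (.lf 1) (.lf 5)) (.lf 18))) (.lf 9) (.lf 10)) (.lf 6)), 3, [9, 9, 9, 9, 2, 2, 2, 2], []⟩))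
    (.nd (.lf ⟨[.negSucc 415, .negSucc 1379, .ofNat 9290, .negSucc 953], (.tw (.dx 3 (.tr (.lf 1) (.tw (.lf 17) (.lf 18)) (.lf 5))) (.tr (.lf 2) (.tw (.lf 9) (.lf 10)) (.lf 6))), 3, [9, 9, 3, 3, 9, 9, 3, 3, 9, 9, 3, 3, 9, 9, 3, 3], []⟩)
    (.lf ⟨[.ofNat 0, .ofNat 3820, .negSucc 483, .negSucc 1335], (.tw (.dx 3 (.tr (.lf 17) (.tw (.lf 1) (.lf 5)) (.lf 18))) (.tr (.lf 9) (.tw (.lf 2) (.lf 6)) (.lf 10))), 3, [11, 7, 11, 7, 11, 7, 11, 7, 11, 7, 11, 7, 11, 7, 11, 7], []⟩)))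
    (.nd (.nd (.lf ⟨[.ofNat 0, .negSucc 2623, .ofNat 64], (.tw (.lf 2) (.tr (.lf 6) (.dx 3 (.tr (.lf 17) (.tw (.lf 1) (.lf 5)) (.lf 18))) (.tw (.lf 9) (.lf 10)))), 3, [11, 11, 7, 7, 11, 11, 7, 7, 2, 2, 2, 2, 2, 2, 2, 2], []⟩)
    (.lf ⟨[.ofNat 0, .ofNat 3872, .negSucc 1279, .negSucc 575], (.tw (.lf 2) (.tr (.lf 9) (.tw (.dx 3 (.tr (.lf 1) (.tw (.lf 17) (.lf 18)) (.lf 5))) (.lf 6)) (.lf 10))), 3, [2, 2, 2, 2, 2, 2, 2, 2, 2, 2, 2, 2, 2, 2, 2, 2], []⟩))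
    (.nd (.lf ⟨[.ofNat 0, .negSucc 21143, .ofNat 25240, .negSucc 4631], (.tw (.dx 0 (.tr (.lf 13) (.lf 9) (.tr (.lf 17) (.lf 18) (.tr (.lf 5) (.lf 14) (.lf 6))))) (.lf 10)), 0, [7, 7, 19, 19, 7, 7, 7, 7], []⟩)
    (.lf ⟨[.ofNat 0, .negSucc 6847, .negSucc 6959, .ofNat 5536], (.tw (.dx 0 (.tr (.lf 13) (.lf 14) (.tr (.lf 17) (.lf 9) (.tr (.lf 5) (.lf 18) (.lf 6))))) (.lf 10)), 0, [19, 19, 19, 19, 7, 7, 12, 12], []⟩))))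

/-- data -/
def dE11x11 : RT := (.nd (.nd (.nd (.lf ⟨[.negSucc 3327, .ofNat 7520, .ofNat 8656, .negSucc 1487], (.tr (.dx 3 (.tr (.lf 17) (.lf 5) (.tr (.lf 1) (.lf 18) (.lf 2)))) (.lf 6) (.tw (.lf 9) (.lf 10))), 3, [11, 11, 11, 11, 11, 11, 11, 11], []⟩)
    (.lf ⟨[.ofNat 0, .negSucc 8383, .negSucc 15231, .ofNat 3136], (.tr (.dx 3 (.tr (.lf 17) (.lf 5) (.tr (.lf 1) (.lf 18) (.lf 2)))) (.tw (.lf 6) (.lf 9)) (.lf 10)), 3, [11, 11, 11, 11, 11, 11, 11, 11], []⟩))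
    (.nd (.lf ⟨[.ofNat 1664, .negSucc 2879, .negSucc 303], (.tr (.dx 3 (.tw (.lf 1) (.tr (.lf 17) (.tw (.lf 2) (.lf 5)) (.lf 18)))) (.lf 6) (.tw (.lf 9) (.lf 10))), 3, [11, 11, 11, 11, 11, 11, 11, 11, 11, 11, 11, 11, 11, 11, 11, 11], []⟩)
    (.lf ⟨[.ofNat 0, .negSucc 575, .ofNat 3912, .ofNat 904], (.tr (.dx 3 (.tr (.lf 1) (.lf 5) (.tr (.lf 17) (.lf 2) (.lf 18)))) (.tw (.lf 9) (.lf 10)) (.lf 6)), 3, [9, 9, 9, 9, 9, 9, 9, 9], []⟩)))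
    (.nd (.nd (.lf ⟨[.ofNat 0, .ofNat 1152, .negSucc 7823, .negSucc 1807], (.tr (.dx 3 (.tr (.lf 1) (.lf 5) (.tr (.lf 17) (.lf 2) (.lf 18)))) (.lf 9) (.tw (.lf 6) (.lf 10))), 3, [11, 9, 11, 9, 11, 9, 11, 9], []⟩)
    (.lf ⟨[.ofNat 0, .negSucc 1023, .negSucc 975, .ofNat 80], (.tr (.dx 3 (.tr (.lf 5) (.lf 1) (.tr (.lf 17) (.lf 2) (.lf 18)))) (.tw (.lf 9) (.lf 10)) (.lf 6)), 3, [9, 9, 9, 9, 9, 9, 9, 9], []⟩))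
    (.nd (.lf ⟨[.ofNat 0, .ofNat 608, .negSucc 367], (.tr (.lf 6) (.dx 3 (.tr (.lf 17) (.lf 5) (.tr (.lf 1) (.lf 18) (.lf 2)))) (.tw (.lf 9) (.lf 10))), 3, [7, 7, 7, 7, 11, 11, 11, 11], []⟩)
    (.lf ⟨[.negSucc 1663, .ofNat 5728, .ofNat 64, .negSucc 79], (.tr (.lf 6) (.dx 3 (.tw (.lf 1) (.tr (.lf 17) (.tw (.lf 2) (.lf 5)) (.lf 18)))) (.tw (.lf 9) (.lf 10))), 3, [11, 11, 7, 7, 11, 11, 7, 7, 7, 7, 7, 7, 7, 7, 7, 7], []⟩))))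

/-- data -/
def dE11x12 : RT := (.nd (.nd (.nd (.lf ⟨[.negSucc 3327, .ofNat 10624, .ofNat 512, .negSucc 159], (.tr (.lf 9) (.lf 10) (.tr (.lf 17) (.dx 3 (.tw (.lf 1) (.lf 5))) (.tr (.lf 2) (.lf 18) (.lf 6)))), 3, [18, 18, 22, 22, 18, 18, 22, 22], [18, 22, 18, 22]⟩)
    (.lf ⟨[.ofNat 0, .ofNat 1408], (.tr (.dx 3 (.tr (.lf 1) (.tr (.lf 2) (.tw (.lf 17) (.lf 18)) (.lf 5)) (.lf 6))) (.lf 9) (.lf 10)), 3, [11, 11, 11, 11, 7, 7, 7, 7], []⟩))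
    (.nd (.lf ⟨[.ofNat 0, .negSucc 3391, .negSucc 1007, .negSucc 31], (.tr (.dx 3 (.tr (.lf 1) (.lf 2) (.tr (.tw (.lf 5) (.lf 6)) (.lf 17) (.lf 18)))) (.lf 9) (.lf 10)), 3, [11, 11, 11, 11, 7, 7, 7, 7], []⟩)
    (.lf ⟨[.ofNat 0, .ofNat 1696, .ofNat 504, .ofNat 16], (.tr (.dx 3 (.tr (.lf 17) (.lf 18) (.tr (.tw (.lf 1) (.lf 2)) (.lf 5) (.lf 6)))) (.lf 9) (.lf 10)), 3, [11, 11, 7, 7, 11, 11, 7, 7], []⟩)))
    (.nd (.nd (.lf ⟨[.ofNat 0, .negSucc 927, .negSucc 1887, .ofNat 48], (.tr (.dx 3 (.tr (.lf 1) (.tr (.lf 17) (.lf 9) (.lf 18)) (.lf 5))) (.tw (.lf 2) (.lf 6)) (.lf 10)), 3, [11, 7, 11, 7, 11, 7, 11, 7], []⟩)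
    (.lf ⟨[.ofNat 0, .ofNat 4152, .ofNat 3576, .negSucc 1263], (.tr (.dx 3 (.tr (.lf 17) (.tr (.lf 1) (.lf 9) (.lf 5)) (.lf 18))) (.tw (.lf 2) (.lf 6)) (.lf 10)), 3, [11, 7, 11, 7, 11, 7, 11, 7], []⟩))
    (.nd (.lf ⟨[.ofNat 0, .ofNat 7344, .ofNat 4464, .negSucc 2527], (.tr (.tw (.dx 0 (.tr (.lf 5) (.tr (.lf 9) (.lf 17) (.lf 13)) (.lf 6))) (.lf 10)) (.lf 14) (.lf 18)), 0, [12, 0, 12, 0, 18, 6, 18, 6], []⟩)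
    (.lf ⟨[.ofNat 0, .ofNat 960, .ofNat 2688], (.tr (.dx 0 (.tr (.lf 5) (.tr (.lf 9) (.lf 17) (.lf 13)) (.lf 6))) (.tw (.lf 10) (.lf 14)) (.lf 18)), 0, [12, 12, 0, 0, 12, 12, 0, 0], []⟩))))

/-- data -/
def dE11x13 : RT := (.nd (.nd (.nd (.lf ⟨[.ofNat 0, .negSucc 9311, .negSucc 1375, .negSucc 639], (.tr (.lf 10) (.tw (.dx 0 (.tr (.lf 5) (.tr (.lf 9) (.lf 17) (.lf 13)) (.lf 6))) (.lf 14)) (.lf 18)), 0, [18, 6, 18, 6, 6, 6, 6, 6], []⟩)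
    (.lf ⟨[.ofNat 0, .negSucc 3231, .ofNat 432, .ofNat 800], (.tr (.lf 10) (.dx 0 (.tr (.lf 5) (.tr (.lf 9) (.lf 13) (.lf 17)) (.lf 6))) (.tw (.lf 14) (.lf 18))), 0, [6, 6, 18, 18, 6, 6, 18, 18], []⟩))
    (.nd (.lf ⟨[.ofNat 0, .negSucc 239, .negSucc 1575, .ofNat 156], (.tr (.dx 3 (.tr (.lf 17) (.tr (.lf 5) (.lf 1) (.lf 9)) (.lf 18))) (.lf 2) (.tw (.lf 6) (.lf 10))), 3, [11, 9, 11, 9, 11, 9, 11, 9], []⟩)
    (.lf ⟨[.ofNat 0, .ofNat 3232, .negSucc 431, .negSucc 799], (.tr (.lf 10) (.tw (.dx 0 (.tr (.lf 5) (.tr (.lf 9) (.lf 13) (.lf 17)) (.lf 6))) (.lf 14)) (.lf 18)), 0, [6, 18, 6, 18, 6, 6, 6, 6], []⟩)))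
    (.nd (.nd (.lf ⟨[.ofNat 0, .ofNat 6752, .ofNat 3504, .ofNat 1472], (.tr (.tw (.lf 10) (.lf 14)) (.dx 0 (.tr (.lf 5) (.tr (.lf 9) (.lf 17) (.lf 13)) (.lf 6))) (.lf 18)), 0, [6, 6, 6, 6, 6, 6, 6, 6], []⟩)
    (.lf ⟨[.ofNat 0, .ofNat 5552, .ofNat 3952, .ofNat 584], (.tr (.lf 14) (.tw (.dx 0 (.tr (.lf 5) (.tr (.lf 9) (.lf 13) (.lf 17)) (.lf 6))) (.lf 10)) (.lf 18)), 0, [19, 19, 19, 19, 6, 6, 6, 6], []⟩))
    (.nd (.lf ⟨[.ofNat 0, .negSucc 479, .negSucc 3151, .ofNat 312], (.tr (.dx 0 (.tr (.lf 5) (.tr (.lf 6) (.tw (.lf 13) (.lf 17)) (.lf 9)) (.lf 10))) (.lf 14) (.lf 18)), 0, [0, 12, 0, 12, 2, 14, 2, 14], []⟩)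
    (.lf ⟨[.ofNat 0, .ofNat 480, .ofNat 3152, .negSucc 311], (.tr (.dx 0 (.tr (.lf 5) (.lf 6) (.tr (.tw (.lf 9) (.lf 10)) (.lf 17) (.lf 13)))) (.lf 14) (.lf 18)), 0, [12, 12, 0, 0, 14, 14, 2, 2], []⟩))))

/-- data -/
def dE11x14 : RT := (.nd (.nd (.nd (.lf ⟨[.negSucc 3327, .ofNat 9312, .negSucc 2175, .negSucc 295], (.tr (.dx 0 (.tw (.lf 17) (.tr (.lf 13) (.tw (.lf 5) (.lf 9)) (.lf 14)))) (.tw (.lf 6) (.lf 10)) (.lf 18)), 0, [12, 12, 14, 14, 12, 12, 14, 14, 0, 0, 2, 2, 0, 0, 2, 2], []⟩)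
    (.lf ⟨[.ofNat 0, .negSucc 8031, .ofNat 8784, .ofNat 416], (.tr (.dx 0 (.tr (.lf 13) (.tr (.lf 9) (.lf 5) (.lf 17)) (.lf 14))) (.lf 6) (.tw (.lf 10) (.lf 18))), 0, [2, 2, 0, 23, 2, 2, 0, 23], []⟩))
    (.nd (.lf ⟨[.ofNat 0, .ofNat 448, .negSucc 4191, .negSucc 815], (.tr (.tw (.dx 0 (.tr (.lf 13) (.tr (.lf 9) (.lf 5) (.lf 17)) (.lf 14))) (.lf 6)) (.lf 10) (.lf 18)), 0, [2, 0, 2, 0, 4, 4, 4, 4], []⟩)
    (.lf ⟨[.ofNat 0, .negSucc 479, .negSucc 3087, .negSucc 119], (.tr (.lf 6) (.tw (.dx 0 (.tr (.lf 13) (.tr (.lf 9) (.lf 5) (.lf 17)) (.lf 14))) (.lf 10)) (.lf 18)), 0, [4, 4, 4, 4, 8, 8, 8, 8], []⟩)))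
    (.nd (.nd (.lf ⟨[.ofNat 0, .ofNat 13408, .negSucc 5775, .ofNat 64], (.tr (.tw (.dx 0 (.tr (.lf 13) (.tr (.lf 9) (.lf 5) (.lf 17)) (.lf 14))) (.lf 6)) (.lf 18) (.lf 10)), 0, [2, 23, 2, 23, 4, 4, 4, 4], []⟩)
    (.lf ⟨[.ofNat 0, .negSucc 4287, .ofNat 3168, .negSucc 79], (.tr (.dx 0 (.tr (.lf 13) (.tr (.lf 9) (.lf 5) (.lf 17)) (.lf 14))) (.tw (.lf 6) (.lf 18)) (.lf 10)), 0, [2, 23, 23, 23, 2, 23, 23, 23], []⟩))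
    (.nd (.lf ⟨[.ofNat 1664, .negSucc 12511, .ofNat 4000, .negSucc 2495], (.tr (.lf 6) (.tw (.dx 0 (.tr (.lf 13) (.tr (.lf 5) (.lf 9) (.lf 17)) (.lf 14))) (.lf 18)) (.lf 10)), 0, [4, 4, 4, 4, 7, 7, 7, 7], []⟩)
    (.lf ⟨[.ofNat 0, .ofNat 1200, .negSucc 447, .ofNat 888], (.tr (.dx 3 (.tr (.lf 1) (.lf 5) (.lf 17))) (.tr (.lf 9) (.tw (.lf 2) (.lf 6)) (.lf 10)) (.lf 18)), 3, [23, 19, 23, 19, 23, 19, 23, 19], [1017, 1017, 1017, 1017]⟩))))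

/-- data -/
def dE11x15 : RT := (.nd (.nd (.nd (.lf ⟨[.ofNat 0, .negSucc 2623, .negSucc 63, .negSucc 79], (.tr (.dx 3 (.tr (.lf 5) (.tr (.lf 17) (.lf 1) (.lf 18)) (.lf 9))) (.lf 2) (.tw (.lf 6) (.lf 10))), 3, [11, 9, 11, 9, 11, 9, 11, 9], []⟩)
    (.lf ⟨[.ofNat 0, .ofNat 3456, .ofNat 768, .negSucc 63], (.tr (.dx 3 (.tr (.lf 1) (.tr (.lf 17) (.lf 5) (.lf 18)) (.lf 9))) (.tw (.lf 2) (.lf 6)) (.lf 10)), 3, [11, 7, 11, 7, 11, 7, 11, 7], []⟩))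
    (.nd (.lf ⟨[.ofNat 16640, .ofNat 16800, .negSucc 23175, .negSucc 10351], (.tr (.tw (.lf 6) (.lf 10)) (.dx 0 (.tr (.lf 17) (.lf 5) (.tr (.lf 13) (.lf 9) (.lf 14)))) (.lf 18)), 0, [20, 20, 8, 8, 22, 22, 10, 10], []⟩)
    (.lf ⟨[.negSucc 3327, .negSucc 8575, .ofNat 14568, .ofNat 5776], (.tr (.tw (.dx 0 (.tr (.lf 17) (.lf 9) (.tr (.lf 13) (.lf 5) (.lf 14)))) (.lf 18)) (.lf 6) (.lf 10)), 0, [23, 23, 23, 23, 11, 11, 23, 23], []⟩)))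
    (.nd (.nd (.lf ⟨[.negSucc 13311, .negSucc 4767, .ofNat 9376, .ofNat 4512], (.tr (.lf 6) (.tw (.dx 0 (.tr (.lf 17) (.lf 5) (.tr (.lf 13) (.lf 9) (.lf 14)))) (.lf 10)) (.lf 18)), 0, [16, 16, 4, 4, 20, 20, 8, 8], []⟩)
    (.lf ⟨[.ofNat 0, .negSucc 5247, .negSucc 703, .ofNat 160], (.tr (.lf 6) (.dx 0 (.tr (.lf 17) (.lf 5) (.tr (.lf 13) (.lf 9) (.lf 14)))) (.tw (.lf 10) (.lf 18))), 0, [16, 16, 16, 16, 4, 4, 4, 4], []⟩))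
    (.nd (.lf ⟨[.ofNat 0, .negSucc 1311, .negSucc 175, .ofNat 40], (.tr (.lf 2) (.dx 3 (.tr (.lf 5) (.tr (.lf 17) (.lf 1) (.lf 18)) (.lf 9))) (.tw (.lf 6) (.lf 10))), 3, [11, 9, 11, 9, 11, 9, 11, 9], []⟩)
    (.lf ⟨[.ofNat 6656, .ofNat 4976, .negSucc 3823, .negSucc 2463], (.tr (.tw (.dx 0 (.tr (.lf 17) (.lf 5) (.tr (.lf 13) (.lf 9) (.lf 14)))) (.lf 6)) (.lf 10) (.lf 18)), 0, [12, 12, 2, 2, 16, 16, 4, 4], []⟩))))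

/-- data -/
def dE11x16 : RT := (.nd (.nd (.nd (.lf ⟨[.ofNat 0, .ofNat 2624, .ofNat 352, .negSucc 79], (.tr (.tw (.dx 0 (.tr (.lf 17) (.lf 5) (.tr (.lf 13) (.lf 9) (.lf 14)))) (.lf 6)) (.lf 18) (.lf 10)), 0, [23, 23, 23, 23, 16, 16, 4, 4], []⟩)
    (.lf ⟨[.negSucc 16639, .negSucc 18655, .ofNat 19400, .ofNat 10448], (.tr (.lf 6) (.tw (.dx 0 (.tr (.lf 17) (.lf 9) (.tr (.lf 13) (.lf 5) (.lf 14)))) (.lf 10)) (.lf 18)), 0, [16, 16, 4, 4, 20, 20, 8, 8], []⟩))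
    (.nd (.lf ⟨[.ofNat 16640, .ofNat 21024, .negSucc 24551, .negSucc 12495], (.tr (.lf 6) (.dx 0 (.tr (.lf 17) (.lf 9) (.tr (.lf 13) (.lf 5) (.lf 14)))) (.tw (.lf 10) (.lf 18))), 0, [16, 16, 16, 16, 4, 4, 4, 4], []⟩)
    (.lf ⟨[.ofNat 0, .ofNat 1312, .ofNat 176, .negSucc 39], (.tr (.lf 9) (.dx 3 (.tw (.lf 1) (.lf 5))) (.tr (.lf 2) (.tr (.lf 17) (.lf 10) (.lf 18)) (.lf 6))), 3, [6, 6, 6, 6, 10, 10, 10, 10], [21, 21, 15, 15]⟩)))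
    (.nd (.nd (.lf ⟨[.ofNat 0, .ofNat 0, .ofNat 7840, .ofNat 2840, .negSucc 31], (.tr (.lf 9) (.lf 19) (.tr (.dx 0 (.lf 5)) (.tr (.lf 13) (.lf 10) (.lf 14)) (.lf 6))), 0, [18, 18, 1, 1], [9, 9, 3, 3]⟩)
    (.lf ⟨[.ofNat 0, .ofNat 0, .negSucc 7839, .negSucc 2839, .ofNat 32], (.tr (.lf 2) (.tr (.dx 3 (.lf 1)) (.tr (.lf 9) (.lf 5) (.lf 10)) (.lf 19)) (.lf 6)), 3, [2, 2, 14, 14], [21, 21, 9, 9]⟩))
    (.nd (.lf ⟨[.ofNat 0, .ofNat 0, .ofNat 5424, .negSucc 1467, .negSucc 215], (.tr (.dx 0 (.lf 13)) (.lf 14) (.tr (.lf 5) (.lf 19) (.tr (.lf 9) (.lf 6) (.lf 10)))), 0, [23, 23, 2, 2], [23, 23, 21, 21]⟩)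
    (.lf ⟨[.ofNat 0, .ofNat 0, .negSucc 543, .ofNat 4648, .ofNat 464], (.tr (.lf 5) (.lf 19) (.tr (.dx 0 (.lf 13)) (.lf 14) (.tr (.lf 9) (.lf 6) (.lf 10)))), 0, [11, 11, 3, 3], [11, 11, 20, 20]⟩))))

/-- data -/
def dE11x17 : RT := (.nd (.nd (.nd (.lf ⟨[.ofNat 0, .ofNat 0, .ofNat 12800, .ofNat 4736, .ofNat 128], (.tw (.dx 0 (.tw (.lf 9) (.tr (.lf 19) (.lf 5) (.tr (.lf 13) (.lf 6) (.lf 14))))) (.lf 10)), 0, [7, 7, 2, 2, 7, 7, 19, 19], []⟩)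
    (.lf ⟨[.ofNat 0, .ofNat 0, .negSucc 12799, .negSucc 4735, .negSucc 127], (.tw (.dx 0 (.tw (.lf 13) (.tr (.lf 9) (.lf 19) (.tr (.lf 5) (.lf 14) (.lf 6))))) (.lf 10)), 0, [7, 7, 19, 19, 7, 7, 7, 7], []⟩))
    (.nd (.lf ⟨[.ofNat 0, .ofNat 0, .negSucc 12255, .negSucc 9383, .negSucc 591], (.tw (.dx 0 (.tw (.lf 19) (.tr (.lf 5) (.tr (.lf 13) (.lf 6) (.lf 14)) (.lf 9)))) (.lf 10)), 0, [7, 7, 7, 7, 19, 19, 2, 2], []⟩)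
    (.lf ⟨[.ofNat 0, .ofNat 0, .negSucc 5423, .ofNat 1468, .ofNat 216], (.tw (.lf 6) (.tr (.dx 0 (.tw (.lf 5) (.lf 19))) (.tr (.lf 13) (.lf 9) (.lf 14)) (.lf 10))), 0, [16, 16, 16, 16, 8, 13, 8, 13], []⟩)))
    (.nd (.nd (.lf ⟨[.ofNat 0, .ofNat 0, .ofNat 464, .negSucc 1987, .ofNat 72], (.tw (.dx 0 (.tw (.lf 5) (.lf 19))) (.tr (.lf 6) (.lf 9) (.tr (.lf 13) (.lf 10) (.lf 14)))), 0, [12, 12, 12, 12, 12, 12, 9, 9], []⟩)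
    (.lf ⟨[.ofNat 0, .ofNat 0, .ofNat 1008, .negSucc 6635, .negSucc 391], (.tw (.dx 0 (.tw (.lf 5) (.lf 19))) (.tr (.lf 6) (.tr (.lf 13) (.lf 9) (.lf 14)) (.lf 10))), 0, [12, 12, 12, 12, 11, 11, 12, 12], []⟩))
    (.nd (.lf ⟨[.ofNat 0, .ofNat 0, .negSucc 463, .ofNat 1988, .negSucc 71], (.tw (.lf 6) (.tr (.dx 0 (.tw (.lf 5) (.lf 19))) (.lf 9) (.tr (.lf 13) (.lf 10) (.lf 14)))), 0, [16, 16, 16, 16, 13, 13, 13, 13], []⟩)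
    (.lf ⟨[.ofNat 0, .ofNat 0, .negSucc 5151, .negSucc 1031, .ofNat 64], (.tr (.lf 14) (.dx 0 (.lf 13)) (.tr (.lf 5) (.lf 19) (.tr (.lf 9) (.lf 6) (.lf 10)))), 0, [23, 23, 21, 21], [23, 23, 21, 21]⟩))))

/-- data -/
def dE11x18 : RT := (.nd (.nd (.nd (.lf ⟨[.ofNat 0, .ofNat 0, .ofNat 1952, .ofNat 6296, .ofNat 112], (.tw (.lf 9) (.tr (.dx 0 (.tw (.lf 5) (.lf 19))) (.lf 6) (.tr (.lf 13) (.lf 10) (.lf 14)))), 0, [18, 18, 18, 18, 10, 13, 10, 13], []⟩)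
    (.lf ⟨[.ofNat 0, .ofNat 0, .negSucc 5615, .ofNat 956, .negSucc 7], (.tw (.lf 13) (.tr (.dx 0 (.tw (.lf 5) (.lf 19))) (.lf 6) (.tr (.lf 9) (.lf 14) (.lf 10)))), 0, [11, 11, 11, 11, 13, 13, 13, 13], []⟩))
    (.nd (.lf ⟨[.ofNat 0, .ofNat 0, .ofNat 5616, .negSucc 955, .ofNat 8], (.tw (.lf 13) (.tr (.lf 6) (.dx 0 (.tw (.lf 5) (.lf 19))) (.tr (.lf 9) (.lf 14) (.lf 10)))), 0, [7, 7, 7, 7, 17, 17, 17, 17], []⟩)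
    (.lf ⟨[.ofNat 0, .ofNat 0, .negSucc 5615, .ofNat 956, .negSucc 7], (.tr (.dx 0 (.lf 13)) (.lf 5) (.tr (.lf 14) (.tr (.lf 9) (.lf 6) (.lf 10)) (.lf 19))), 0, [0, 0, 0, 0], [0, 0, 12, 12]⟩)))
    (.nd (.nd (.lf ⟨[.ofNat 0, .ofNat 0, .negSucc 1951, .negSucc 6295, .negSucc 111], (.tr (.lf 2) (.lf 5) (.tr (.dx 3 (.lf 1)) (.tr (.lf 9) (.lf 6) (.lf 10)) (.lf 19))), 3, [0, 0, 12, 12], [0, 0, 12, 12]⟩)
    (.lf ⟨[.ofNat 0, .ofNat 0, .ofNat 10304, .ofNat 2064, .negSucc 127], (.tr (.dx 3 (.lf 1)) (.tr (.lf 2) (.tr (.lf 9) (.lf 5) (.lf 10)) (.lf 19)) (.lf 6)), 3, [21, 21, 17, 17], [21, 21, 17, 17]⟩))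
    (.nd (.lf ⟨[.ofNat 0, .negSucc 2623, .negSucc 351, .ofNat 80], (.tr (.dx 0 (.tw (.lf 5) (.tr (.lf 17) (.lf 6) (.tr (.lf 13) (.lf 9) (.lf 14))))) (.lf 18) (.lf 10)), 0, [12, 12, 0, 0, 19, 19, 19, 19], []⟩)
    (.lf ⟨[.ofNat 0, .negSucc 2623, .negSucc 351, .ofNat 80], (.tr (.dx 0 (.tr (.lf 13) (.tw (.lf 5) (.lf 9)) (.lf 17))) (.lf 14) (.tr (.lf 6) (.lf 18) (.lf 10))), 0, [0, 0, 2, 2, 12, 12, 14, 14], [1023, 1017]⟩))))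

/-- data -/
def dE11x19 : RT := (.nd (.nd (.nd (.lf ⟨[.ofNat 0, .negSucc 1983, .negSucc 8175, .negSucc 255], (.tr (.lf 6) (.lf 14) (.tr (.dx 0 (.tr (.tw (.lf 5) (.lf 13)) (.lf 9) (.lf 17))) (.lf 18) (.lf 10))), 0, [4, 1015, 1015, 19, 1017, 15, 1, 1], [1015, 1017]⟩)
    (.lf ⟨[.ofNat 0, .ofNat 1920, .negSucc 21247, .ofNat 3904], (.tr (.lf 6) (.lf 14) (.tr (.dx 0 (.tr (.lf 5) (.lf 13) (.tw (.lf 9) (.lf 17)))) (.lf 18) (.lf 10))), 0, [4, 1015, 1015, 19, 1017, 15, 1, 1], [1015, 1017]⟩))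
    (.nd (.lf ⟨[.ofNat 0, .negSucc 5247, .negSucc 703, .ofNat 160], (.tr (.lf 6) (.tr (.lf 14) (.dx 0 (.tr (.tw (.lf 5) (.lf 13)) (.lf 9) (.lf 17))) (.lf 18)) (.lf 10)), 0, [4, 1015, 1015, 19, 16, 1015, 1015, 7], [1015, 1015]⟩)
    (.lf ⟨[.ofNat 0, .ofNat 2912, .negSucc 2735, .negSucc 1023], (.tr (.dx 3 (.tw (.lf 1) (.lf 5))) (.tr (.lf 2) (.tr (.lf 17) (.lf 9) (.lf 18)) (.lf 6)) (.lf 10)), 3, [23, 23, 19, 19, 23, 23, 19, 19], [23, 23, 19, 19]⟩)))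
    (.nd (.nd (.lf ⟨[.ofNat 0, .ofNat 5824, .negSucc 5471, .negSucc 2047], (.tr (.lf 10) (.dx 0 (.tw (.lf 5) (.tr (.lf 17) (.lf 6) (.tr (.lf 13) (.lf 9) (.lf 14))))) (.lf 18)), 0, [18, 18, 6, 6, 18, 18, 6, 6], []⟩)
    (.lf ⟨[.ofNat 0, .negSucc 2623, .negSucc 351, .ofNat 80], (.tr (.lf 2) (.dx 3 (.tr (.lf 5) (.tw (.lf 1) (.lf 17)) (.lf 9))) (.tr (.lf 6) (.lf 18) (.lf 10))), 3, [0, 0, 1023, 0, 2, 2, 2, 1017], [1023, 1017]⟩))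
    (.nd (.lf ⟨[.negSucc 13311, .negSucc 7143, .ofNat 21832, .ofNat 7736], (.tr (.dx 0 (.tr (.lf 13) (.tr (.lf 5) (.tw (.lf 6) (.lf 17)) (.lf 9)) (.lf 14))) (.lf 18) (.lf 10)), 0, [0, 19, 2, 1023, 0, 19, 2, 1023], []⟩)
    (.lf ⟨[.ofNat 13312, .ofNat 4520, .negSucc 22183, .negSucc 7655], (.tr (.dx 0 (.tw (.lf 13) (.tr (.lf 9) (.tr (.lf 5) (.lf 17) (.lf 6)) (.lf 14)))) (.lf 18) (.lf 10)), 0, [2, 2, 19, 19, 14, 14, 19, 19], []⟩))))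

/-- data -/
def dE11x20 : RT := (.nd (.nd (.nd (.lf ⟨[.ofNat 0, .ofNat 10392, .ofNat 2376, .negSucc 663], (.tr (.dx 0 (.tw (.lf 5) (.lf 13))) (.tr (.lf 17) (.lf 18) (.tr (.lf 9) (.lf 14) (.lf 10))) (.lf 6)), 0, [0, 0, 0, 0, 9, 9, 0, 0], [9, 9, 2, 2]⟩)
    (.lf ⟨[.negSucc 6655, .negSucc 2963, .ofNat 11316, .ofNat 3828], (.tr (.lf 1) (.lf 17) (.tr (.lf 5) (.tr (.lf 2) (.dx 3 .on) (.tr (.lf 9) (.lf 18) (.lf 10))) (.lf 6))), 3, [21, 21, 5, 5, 21, 21, 5, 5], [21, 21, 5, 5, 21, 21, 5, 5]⟩))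
    (.nd (.lf ⟨[.ofNat 0, .negSucc 703, .ofNat 224], (.tr (.lf 2) (.dx 3 (.tr (.lf 5) (.lf 1) (.lf 9))) (.tr (.lf 6) (.tw (.lf 17) (.lf 18)) (.lf 10))), 3, [0, 0, 0, 0, 2, 2, 2, 2], [0, 0, 2, 2]⟩)
    (.lf ⟨[.ofNat 0, .ofNat 6912, .negSucc 3455], (.tr (.lf 2) (.lf 18) (.tr (.lf 6) (.dx 3 (.tr (.lf 5) (.tw (.lf 1) (.lf 17)) (.lf 9))) (.lf 10))), 3, [7, 7, 1023, 11, 1017, 9, 5, 5], [1023, 1017]⟩)))
    (.nd (.nd (.lf ⟨[.ofNat 0, .ofNat 6912, .negSucc 3455], (.tr (.lf 6) (.dx 3 (.tr (.lf 1) (.tw (.lf 2) (.lf 17)) (.lf 5))) (.tr (.lf 9) (.lf 18) (.lf 10))), 3, [23, 23, 23, 23, 4, 4, 1015, 1015], []⟩)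
    (.lf ⟨[.ofNat 0, .ofNat 14136, .ofNat 5328, .ofNat 3960], (.tr (.lf 6) (.dx 3 (.tw (.lf 17) (.tr (.lf 1) (.tr (.lf 5) (.lf 18) (.lf 9)) (.lf 2)))) (.lf 10)), 3, [7, 7, 7, 7, 4, 4, 4, 4], []⟩))
    (.nd (.lf ⟨[.ofNat 6656, .negSucc 16063, .ofNat 2224, .negSucc 239], (.tr (.dx 0 (.tw (.lf 17) (.tr (.lf 13) (.tw (.lf 5) (.lf 9)) (.lf 14)))) (.lf 6) (.tw (.lf 10) (.lf 18))), 0, [12, 23, 14, 23, 12, 23, 14, 23, 0, 1023, 2, 2, 0, 1023, 2, 2], []⟩)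
    (.lf ⟨[.ofNat 6656, .negSucc 39919, .negSucc 6287, .negSucc 8399], (.tr (.lf 6) (.dx 3 (.tr (.lf 1) (.lf 5) (.tr (.lf 17) (.tw (.lf 2) (.lf 9)) (.lf 18)))) (.lf 10)), 3, [4, 4, 4, 4, 7, 7, 7, 7], []⟩))))

/-- data -/
def dE11x21 : RT := (.nd (.nd (.nd (.lf ⟨[.ofNat 0, .ofNat 21936, .ofNat 3776, .ofNat 7520], (.tr (.lf 6) (.dx 3 (.tr (.lf 1) (.tr (.lf 5) (.tw (.lf 2) (.lf 17)) (.lf 9)) (.lf 18))) (.lf 10)), 3, [4, 4, 4, 4, 7, 7, 7, 7], []⟩)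
    (.lf ⟨[.ofNat 0, .negSucc 5247, .negSucc 703, .ofNat 160], (.tr (.lf 6) (.dx 3 (.tw (.lf 1) (.tr (.lf 17) (.lf 2) (.tr (.lf 5) (.lf 18) (.lf 9))))) (.lf 10)), 3, [11, 11, 4, 4, 7, 7, 8, 8], []⟩))
    (.nd (.lf ⟨[.ofNat 0, .negSucc 4479, .negSucc 943, .ofNat 160], (.tw (.dx 3 (.tr (.lf 1) (.tr (.lf 5) (.lf 6) (.tr (.lf 17) (.lf 9) (.lf 18))) (.lf 2))) (.lf 10)), 3, [7, 7, 7, 7, 7, 7, 7, 7], []⟩)
    (.lf ⟨[.ofNat 0, .negSucc 5247, .ofNat 432, .ofNat 256], (.tw (.dx 3 (.tr (.lf 1) (.lf 5) (.tr (.lf 17) (.tr (.lf 2) (.lf 6) (.lf 9)) (.lf 18)))) (.lf 10)), 3, [11, 7, 11, 7, 7, 7, 7, 7], []⟩)))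
    (.nd (.nd (.lf ⟨[.ofNat 0, .negSucc 415, .ofNat 32, .ofNat 152], (.tw (.dx 3 (.tr (.lf 17) (.tr (.lf 1) (.lf 2) (.tr (.lf 5) (.lf 9) (.lf 6))) (.lf 18))) (.lf 10)), 3, [11, 11, 7, 7, 11, 11, 7, 7], []⟩)
    (.lf ⟨[.ofNat 0, .negSucc 1279, .negSucc 187, .negSucc 695], (.tw (.dx 3 (.tr (.lf 17) (.tr (.lf 1) (.lf 9) (.tr (.lf 5) (.lf 2) (.lf 6))) (.lf 18))) (.lf 10)), 3, [11, 11, 7, 7, 11, 11, 7, 7], []⟩))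
    (.nd (.lf ⟨[.ofNat 0, .ofNat 1280, .ofNat 188, .ofNat 696], (.tw (.dx 3 (.tr (.lf 17) (.tw (.lf 1) (.tr (.lf 5) (.tw (.lf 2) (.lf 9)) (.lf 6))) (.lf 18))) (.lf 10)), 3, [11, 11, 11, 11, 7, 7, 7, 7, 11, 11, 11, 11, 7, 7, 7, 7], []⟩)
    (.lf ⟨[.ofNat 0, .ofNat 1664, .negSucc 3039, .negSucc 31], (.tw (.dx 3 (.tr (.lf 17) (.tr (.lf 9) (.lf 1) (.tr (.lf 5) (.lf 2) (.lf 6))) (.lf 18))) (.lf 10)), 3, [11, 11, 7, 7, 11, 11, 7, 7], []⟩))))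

/-- data -/
def dE11x22 : RT := (.nd (.nd (.nd (.lf ⟨[.ofNat 0, .ofNat 0, .negSucc 8575, .ofNat 8640, .negSucc 159], (.tr (.dx 0 .on) (.tr (.lf 5) (.tr (.lf 13) (.lf 6) (.lf 14)) (.lf 19)) (.lf 11)), 0, [0, 0, 12, 12], [0, 0, 11, 11]⟩)
    (.lf ⟨[.ofNat 0, .ofNat 0, .ofNat 1664, .negSucc 4671, .ofNat 160], (.tr (.lf 11) (.lf 19) (.tr (.tw (.lf 5) (.lf 6)) (.dx 0 (.lf 13)) (.lf 14))), 0, [22, 22, 5, 5], [22, 22, 5, 5]⟩))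
    (.nd (.lf ⟨[.ofNat 0, .ofNat 0, .ofNat 0, .negSucc 2431], (.tr (.lf 7) (.lf 19) (.tr (.dx 3 .on) (.lf 11) (.tw (.lf 1) (.lf 2)))), 3, [3, 3, 16, 16], [3, 3, 16, 16]⟩)
    (.lf ⟨[.ofNat 0, .ofNat 0, .negSucc 6911, .ofNat 3968], (.tr (.dx 0 (.lf 13)) (.lf 14) (.tr (.tw (.lf 5) (.lf 6)) (.lf 11) (.lf 19))), 0, [0, 0, 21, 21], [0, 0, 21, 21]⟩)))
    (.nd (.nd (.lf ⟨[.ofNat 0, .ofNat 0, .negSucc 5247, .negSucc 191, .ofNat 160], (.tr (.lf 11) (.dx 3 (.lf 1)) (.tr (.tw (.lf 5) (.lf 6)) (.lf 2) (.lf 19))), 3, [6, 6, 17, 17], [10, 10, 17, 17]⟩)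
    (.lf ⟨[.ofNat 0, .ofNat 0, .ofNat 13824, .negSucc 7935], (.tr (.lf 5) (.lf 6) (.tr (.lf 2) (.tw (.dx 3 (.lf 1)) (.lf 19)) (.lf 11))), 3, [4, 16, 8, 20], [4, 16, 8, 20]⟩))
    (.nd (.lf ⟨[.ofNat 0, .ofNat 0, .negSucc 2431, .ofNat 6272, .negSucc 159], (.tr (.lf 2) (.lf 19) (.tr (.dx 3 (.lf 1)) (.lf 11) (.tw (.lf 5) (.lf 6)))), 3, [9, 9, 12, 12], [9, 9, 12, 12]⟩)
    (.lf ⟨[.ofNat 0, .ofNat 0, .ofNat 2432], (.tr (.lf 1) (.lf 2) (.tr (.lf 7) (.tr (.dx 3 .on) (.lf 17) (.lf 18)) (.lf 11))), 3, [0, 12, 2, 14], [0, 12, 2, 14]⟩))))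

/-- data -/
def dE11x23 : RT := (.nd (.nd (.nd (.lf ⟨[.ofNat 0, .ofNat 0, .ofNat 6912, .negSucc 3967], (.tr (.lf 14) (.lf 19) (.tr (.lf 5) (.tw (.dx 0 (.lf 13)) (.lf 11)) (.lf 6))), 0, [9, 5, 9, 5], [21, 17, 21, 17]⟩)
    (.lf ⟨[.ofNat 0, .ofNat 0, .negSucc 13823, .ofNat 6208, .ofNat 160], (.tr (.lf 14) (.tr (.tw (.lf 5) (.lf 6)) (.dx 0 (.lf 13)) (.lf 11)) (.lf 19)), 0, [4, 4, 17, 17], [4, 4, 17, 17]⟩))
    (.nd (.lf ⟨[.ofNat 0, .ofNat 0, .negSucc 6911, .ofNat 3968], (.tr (.lf 19) (.dx 0 (.lf 13)) (.tr (.lf 11) (.tw (.lf 5) (.lf 6)) (.lf 14))), 0, [9, 9, 11, 11], [9, 9, 11, 11]⟩)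
    (.lf ⟨[.ofNat 0, .ofNat 0, .ofNat 13824, .negSucc 7935], (.tw (.lf 19) (.tr (.lf 2) (.tr (.dx 3 (.lf 1)) (.lf 5) (.lf 6)) (.lf 11))), 3, [11, 7, 1, 1], [11, 11, 1, 1]⟩)))
    (.nd (.nd (.lf ⟨[.ofNat 0, .ofNat 0, .ofNat 13824, .negSucc 4479, .negSucc 319], (.tr (.lf 14) (.lf 5) (.tr (.lf 6) (.tw (.dx 0 (.lf 13)) (.lf 11)) (.lf 19))), 0, [4, 8, 9, 5], [4, 8, 21, 17]⟩)
    (.lf ⟨[.ofNat 0, .ofNat 0, .negSucc 3327, .ofNat 4928, .ofNat 448], (.tr (.lf 18) (.lf 1) (.tr (.dx 3 (.lf 17)) (.tw (.lf 7) (.lf 11)) (.lf 2))), 3, [3, 1, 12, 14], [3, 1, 12, 14]⟩))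
    (.nd (.lf ⟨[.ofNat 0, .ofNat 0, .ofNat 0, .ofNat 2176], (.tr (.dx 3 (.lf 1)) (.lf 19) (.tr (.lf 2) (.tw (.lf 5) (.lf 6)) (.lf 11))), 3, [23, 23, 13, 13], [23, 23, 13, 13]⟩)
    (.lf ⟨[.ofNat 0, .ofNat 1920, .negSucc 527], (.tr (.dx 3 (.tr (.lf 1) (.lf 17) (.lf 5))) (.lf 18) (.tr (.lf 2) (.tw (.lf 9) (.lf 10)) (.lf 6))), 3, [21, 21, 15, 15, 21, 21, 15, 15], [21, 21, 15, 15]⟩))))

/-- data -/
def dE11x24 : RT := (.nd (.nd (.nd (.lf ⟨[.ofNat 0, .ofNat 0, .ofNat 1664, .negSucc 4671, .ofNat 160], (.tr (.lf 11) (.tr (.tw (.lf 5) (.lf 6)) (.dx 0 (.lf 13)) (.lf 14)) (.lf 19)), 0, [10, 10, 6, 6], [10, 10, 6, 6]⟩)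
    (.lf ⟨[.ofNat 0, .ofNat 0, .negSucc 3327, .ofNat 9344, .negSucc 319], (.tw (.lf 11) (.tr (.lf 14) (.tr (.dx 0 (.lf 13)) (.lf 5) (.lf 6)) (.lf 19))), 0, [6, 10, 18, 22], [6, 10, 18, 22]⟩))
    (.nd (.lf ⟨[.ofNat 0, .ofNat 0, .negSucc 3327, .ofNat 9344, .negSucc 319], (.tr (.lf 11) (.lf 5) (.tr (.tw (.dx 3 (.lf 1)) (.lf 19)) (.lf 2) (.lf 6))), 3, [10, 5, 10, 22], [17, 5, 10, 22]⟩)
    (.lf ⟨[.ofNat 0, .ofNat 0, .negSucc 10495, .negSucc 383, .ofNat 320], (.tr (.lf 5) (.dx 0 (.lf 13)) (.tr (.lf 11) (.lf 6) (.tw (.lf 14) (.lf 19)))), 0, [4, 4, 4, 4], [4, 16, 4, 16]⟩)))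
    (.nd (.nd (.lf ⟨[.ofNat 0, .ofNat 0, .ofNat 13824, .negSucc 8959], (.tr (.lf 5) (.tr (.dx 0 (.lf 13)) (.tw (.lf 14) (.lf 19)) (.lf 6)) (.lf 11)), 0, [4, 4, 4, 16], [4, 16, 4, 16]⟩)
    (.lf ⟨[.ofNat 0, .ofNat 0, .ofNat 3328, .negSucc 8319, .ofNat 320], (.tr (.lf 5) (.tr (.lf 2) (.tw (.dx 3 (.lf 1)) (.lf 19)) (.lf 6)) (.lf 11)), 3, [4, 11, 4, 16], [4, 16, 4, 16]⟩))
    (.nd (.lf ⟨[.ofNat 0, .ofNat 0, .negSucc 3327, .ofNat 8320, .negSucc 319], (.tr (.lf 5) (.lf 2) (.tr (.tw (.dx 3 (.lf 1)) (.lf 19)) (.lf 6) (.lf 11))), 3, [4, 11, 4, 16], [4, 16, 4, 16]⟩)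
    (.lf ⟨[.ofNat 0, .negSucc 5439, .ofNat 1120, .negSucc 2871, .ofNat 2128, .negSucc 159], (.tw (.dx 0 (.tr (.lf 5) (.lf 17) (.lf 13))) (.tr (.lf 9) (.tr (.lf 6) (.lf 14) (.lf 18)) (.lf 10))), 0, [12, 1023, 12, 1023, 1023, 11, 1023, 11], [2, 11, 2, 11]⟩))))

/-- data -/
def dE11 : RT := (.nd (.nd (.nd (.nd dE11x0 (.nd dE11x1 dE11x2)) (.nd dE11x3 (.nd dE11x4 dE11x5))) (.nd (.nd dE11x6 (.nd dE11x7 dE11x8)) (.nd dE11x9 (.nd dE11x10 dE11x11)))) (.nd (.nd (.nd dE11x12 (.nd dE11x13 dE11x14)) (.nd dE11x15 (.nd dE11x16 dE11x17))) (.nd (.nd dE11x18 (.nd dE11x19 dE11x20)) (.nd (.nd dE11x21 dE11x22) (.nd dE11x23 dE11x24)))))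

/-- data -/
def lE11x0 : List (ℕ × List ℤ) := [(38187, [.ofNat 0, .ofNat 0, .ofNat 0, .negSucc 22783, .ofNat 9216, .ofNat 320]),
  (42213, [.ofNat 0, .ofNat 0, .ofNat 15360, .negSucc 7551, .ofNat 18048, .negSucc 319]),
  (42269, [.ofNat 0, .ofNat 0, .ofNat 0, .negSucc 13823, .ofNat 7936]),
  (42597, [.ofNat 0, .ofNat 0, .ofNat 0, .ofNat 27648, .negSucc 15871]),
  (42765, [.ofNat 0, .ofNat 0, .ofNat 0, .ofNat 34304, .negSucc 18815, .negSucc 1535]),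
  (42794, [.ofNat 0, .ofNat 0, .ofNat 21760, .negSucc 4479, .ofNat 11488, .negSucc 8511, .ofNat 640]),
  (43339, [.ofNat 0, .ofNat 0, .ofNat 21760, .negSucc 4479, .ofNat 11488, .negSucc 8511, .ofNat 640]),
  (50333, [.ofNat 0, .ofNat 0, .ofNat 0, .negSucc 4863, .ofNat 6656, .negSucc 319]),
  (50397, [.ofNat 0, .ofNat 0, .ofNat 0, .negSucc 3327, .ofNat 9344, .negSucc 319]),
  (50405, [.ofNat 0, .ofNat 0, .ofNat 119424, .negSucc 19455, .negSucc 5087, .ofNat 896]),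
  (50539, [.ofNat 0, .ofNat 0, .ofNat 5632, .negSucc 1791]),
  (51357, [.ofNat 0, .ofNat 0, .ofNat 29440, .negSucc 9279, .negSucc 5055]),
  (135837, [.ofNat 0, .ofNat 0, .ofNat 0, .negSucc 20479, .ofNat 10880, .ofNat 1536]),
  (136477, [.ofNat 0, .ofNat 0, .negSucc 19711, .negSucc 38207, .negSucc 13119, .ofNat 896]),
  (305388, [.ofNat 0, .negSucc 13311, .ofNat 42496, .ofNat 2048, .negSucc 639]),
  (305515, [.ofNat 0, .ofNat 0, .ofNat 0, .negSucc 4863]),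
  (314019, [.ofNat 0, .negSucc 13311, .ofNat 42496, .ofNat 2048, .negSucc 639]),
  (333981, [.ofNat 0, .ofNat 0, .ofNat 0, .negSucc 10303, .negSucc 2063, .ofNat 128]),
  (333995, [.ofNat 0, .ofNat 0, .ofNat 0, .ofNat 10848, .negSucc 2935, .negSucc 431]),
  (334058, [.ofNat 0, .ofNat 0, .ofNat 0, .ofNat 1088, .negSucc 9295, .negSucc 927]),
  (340709, [.ofNat 0, .ofNat 0, .ofNat 0, .ofNat 20608, .ofNat 4128, .negSucc 255]),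
  (344861, [.ofNat 0, .ofNat 0, .ofNat 23296, .negSucc 21887, .negSucc 8191]),
  (345387, [.ofNat 0, .ofNat 0, .ofNat 0, .ofNat 34304, .negSucc 34559, .ofNat 640]),
  (345451, [.ofNat 0, .ofNat 0, .negSucc 83135, .negSucc 19007, .ofNat 5312]),
  (402077, [.ofNat 0, .ofNat 0, .ofNat 0, .ofNat 10304, .ofNat 2064, .negSucc 127]),
  (402091, [.ofNat 0, .ofNat 0, .ofNat 0, .ofNat 9760, .ofNat 6360, .ofNat 496]),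
  (402669, [.ofNat 0, .ofNat 0, .ofNat 0, .ofNat 4864]),
  (403690, [.ofNat 0, .ofNat 0, .ofNat 10496, .negSucc 29951, .negSucc 11679, .ofNat 128]),
  (2443051, [.ofNat 0, .ofNat 0, .ofNat 8960, .ofNat 4608, .negSucc 319]),
  (2443947, [.ofNat 0, .ofNat 0, .negSucc 3327, .ofNat 8320, .negSucc 319]),
  (2500947, [.ofNat 0, .ofNat 0, .ofNat 3328, .negSucc 8319, .ofNat 320]),
  (2512147, [.ofNat 0, .ofNat 0, .ofNat 13824, .negSucc 8959]),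
  (2701645, [.ofNat 0, .ofNat 0, .ofNat 0, .negSucc 4351]),
  (2701661, [.ofNat 0, .ofNat 0, .ofNat 3328, .negSucc 13695, .ofNat 320]),
  (2704157, [.ofNat 0, .ofNat 0, .ofNat 13824, .negSucc 7935]),
  (2726053, [.ofNat 0, .ofNat 0, .negSucc 3327, .ofNat 8320, .negSucc 319]),
  (2726229, [.ofNat 0, .ofNat 0, .ofNat 3328, .negSucc 8319, .ofNat 320]),
  (2737772, [.ofNat 0, .ofNat 0, .ofNat 13824, .negSucc 7935]),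
  (2737996, [.ofNat 0, .ofNat 0, .ofNat 13824, .negSucc 4479, .negSucc 319]),
  (2738957, [.ofNat 0, .ofNat 0, .negSucc 6655, .ofNat 9856, .ofNat 896]),
  (2762341, [.ofNat 0, .ofNat 0, .negSucc 10495, .negSucc 383, .ofNat 320]),
  (2762348, [.ofNat 0, .ofNat 0, .ofNat 3328, .negSucc 8319, .ofNat 320]),
  (2762572, [.ofNat 0, .ofNat 0, .ofNat 13824, .negSucc 4479, .negSucc 319]),
  (2763531, [.ofNat 0, .ofNat 0, .ofNat 3328, .negSucc 9343, .ofNat 320]),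
  (2767194, [.ofNat 0, .ofNat 0, .negSucc 3327, .ofNat 9344, .negSucc 319]),
  (3221277, [.ofNat 0, .ofNat 0, .negSucc 3327, .ofNat 9344, .negSucc 319]),
  (3221325, [.ofNat 0, .ofNat 0, .ofNat 4864, .negSucc 12543, .ofNat 320]),
  (3225949, [.ofNat 0, .ofNat 0, .ofNat 7168, .ofNat 7168, .negSucc 895]),
  (3229397, [.ofNat 0, .ofNat 0, .ofNat 3328, .negSucc 8319, .ofNat 320]),
  (3232989, [.ofNat 0, .ofNat 0, .ofNat 3328, .negSucc 9343, .ofNat 320]),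
  (8693533, [.ofNat 0, .ofNat 0, .ofNat 0, .ofNat 3456, .negSucc 319]),
  (8693605, [.ofNat 0, .ofNat 0, .ofNat 6656, .negSucc 9855, .negSucc 895]),
  (8693917, [.ofNat 0, .ofNat 0, .negSucc 13823, .ofNat 7936]),
  (8694429, [.ofNat 0, .ofNat 0, .ofNat 27648, .negSucc 12415, .negSucc 319]),
  (8734541, [.ofNat 0, .ofNat 0, .ofNat 7168, .ofNat 7168, .negSucc 895]),
  (21379243, [.ofNat 0, .ofNat 0, .ofNat 15680, .ofNat 5680, .negSucc 63]),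
  (21805397, [.ofNat 0, .ofNat 0, .negSucc 20607, .negSucc 4127, .ofNat 256]),
  (21899085, [.ofNat 0, .ofNat 0, .negSucc 3903, .negSucc 12591, .negSucc 223]),
  (21903466, [.ofNat 0, .ofNat 0, .negSucc 24511, .negSucc 18767, .negSucc 1183]),
  (21903970, [.ofNat 0, .ofNat 0, .negSucc 25599, .negSucc 9471, .negSucc 255]),
  (22063851, [.ofNat 0, .ofNat 0, .ofNat 4928, .negSucc 2255, .ofNat 128]),
  (22067946, [.ofNat 0, .ofNat 0, .negSucc 1087, .ofNat 9296, .ofNat 928]),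
  (22070941, [.ofNat 0, .ofNat 0, .negSucc 3903, .negSucc 12591, .negSucc 223]),
  (22075162, [.ofNat 0, .ofNat 0, .negSucc 25599, .negSucc 9471, .negSucc 255]),
  (22075226, [.ofNat 0, .ofNat 0, .ofNat 34432, .ofNat 19808, .ofNat 608]),
  (22103659, [.ofNat 0, .ofNat 0, .negSucc 9919, .negSucc 1039, .ofNat 576]),
  (22107747, [.ofNat 0, .negSucc 26623, .negSucc 11855, .ofNat 45264, .ofNat 15312]),
  (22136650, [.ofNat 0, .ofNat 0, .ofNat 1088, .negSucc 9295, .negSucc 927]),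
  (22140522, [.ofNat 0, .ofNat 26624, .ofNat 11856, .negSucc 45263, .negSucc 15311]),
  (25507164, [.ofNat 0, .ofNat 0, .negSucc 11231, .ofNat 1912, .negSucc 15]),
  (25511581, [.ofNat 0, .ofNat 0, .negSucc 11231, .ofNat 1912, .negSucc 15]),
  (25737962, [.ofNat 0, .ofNat 0, .negSucc 1087, .ofNat 9296, .ofNat 928]),
  (156357868, [.ofNat 13312, .negSucc 32767, .negSucc 2239, .ofNat 320]),
  (156358316, [.ofNat 0, .negSucc 19455, .ofNat 1920, .ofNat 640]),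
  (156411740, [.negSucc 6655, .ofNat 1792, .ofNat 2944, .ofNat 320]),
  (156415324, [.ofNat 6656, .negSucc 11519, .negSucc 1215]),
  (159988509, [.ofNat 0, .negSucc 255, .negSucc 11519, .negSucc 1407]),
  (159988523, [.ofNat 26624, .negSucc 27103, .negSucc 9215, .negSucc 4543]),
  (159996636, [.ofNat 0, .negSucc 7935, .negSucc 4031, .negSucc 127]),
  (160029340, [.ofNat 0, .ofNat 5632]),
  (160081763, [.negSucc 6655, .ofNat 25344, .negSucc 1215, .negSucc 319]),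
  (160085347, [.negSucc 6655, .ofNat 22912, .ofNat 256, .negSucc 319]),
  (160770269, [.ofNat 0, .negSucc 2431, .ofNat 4384, .ofNat 128]),
  (160773930, [.ofNat 26624, .negSucc 27103, .negSucc 9215, .negSucc 4543]),
  (160774819, [.ofNat 0, .ofNat 1664, .negSucc 767]),
  (160774882, [.ofNat 0, .ofNat 4096, .negSucc 2239]),
  (160774931, [.ofNat 0, .negSucc 10495, .ofNat 256]),
  (160774938, [.ofNat 0, .negSucc 10495, .ofNat 256]),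
  (160777941, [.ofNat 0, .ofNat 256, .ofNat 11520, .ofNat 1408]),
  (170773346, [.ofNat 0, .negSucc 4095, .negSucc 8639, .ofNat 1024]),
  (170808556, [.ofNat 0, .ofNat 4192, .ofNat 448, .negSucc 7615]),
  (170809004, [.ofNat 0, .ofNat 4192, .ofNat 448, .negSucc 7615]),
  (171005669, [.ofNat 0, .ofNat 4096, .ofNat 8640, .negSucc 1023]),
  (171005795, [.ofNat 0, .ofNat 33792, .negSucc 17311, .ofNat 9520]),
  (171027173, [.ofNat 0, .negSucc 1663, .ofNat 6464, .negSucc 927]),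
  (171027180, [.ofNat 0, .ofNat 2304, .negSucc 15647, .negSucc 3615]),
  (171031205, [.ofNat 0, .ofNat 4096, .ofNat 8640, .negSucc 1023]),
  (171037925, [.ofNat 0, .negSucc 1663, .ofNat 6464, .negSucc 927]),
  (171038051, [.ofNat 0, .ofNat 1664, .negSucc 4287, .ofNat 608]),
  (171038380, [.ofNat 0, .negSucc 16767, .negSucc 30463, .ofNat 6272])]

/-- data -/
def lE11x1 : List (ℕ × List ℤ) := [(171091804, [.ofNat 0, .negSucc 16767, .negSucc 30463, .ofNat 6272]),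
  (171092707, [.ofNat 0, .ofNat 1664, .negSucc 4287, .ofNat 608]),
  (171096732, [.ofNat 0, .ofNat 2304, .negSucc 15647, .negSucc 3615]),
  (171096739, [.ofNat 0, .ofNat 33792, .negSucc 17311, .ofNat 9520]),
  (172870252, [.ofNat 0, .negSucc 959, .negSucc 6303, .ofNat 624]),
  (172890972, [.negSucc 3327, .negSucc 11039, .ofNat 74320, .negSucc 7631]),
  (172899148, [.negSucc 3327, .negSucc 11039, .ofNat 74320, .negSucc 7631]),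
  (172905245, [.ofNat 0, .negSucc 7679, .ofNat 2112]),
  (172906253, [.ofNat 0, .negSucc 7679, .ofNat 2112]),
  (173062892, [.ofNat 0, .negSucc 4095, .negSucc 3903, .ofNat 320]),
  (173126501, [.ofNat 0, .ofNat 2528, .ofNat 2784, .negSucc 2367]),
  (173184741, [.ofNat 0, .ofNat 2528, .ofNat 2784, .negSucc 2367]),
  (173192805, [.ofNat 0, .ofNat 1664, .negSucc 127, .negSucc 607]),
  (173193932, [.ofNat 0, .negSucc 4095, .negSucc 3903, .ofNat 320]),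
  (173195997, [.ofNat 0, .ofNat 1664, .negSucc 127, .negSucc 607]),
  (174470508, [.ofNat 0, .negSucc 24063, .ofNat 11200, .ofNat 2816]),
  (174478572, [.ofNat 0, .ofNat 30560, .negSucc 3871, .negSucc 10687]),
  (174479020, [.ofNat 0, .ofNat 28032, .negSucc 9183, .negSucc 2751]),
  (174742283, [.ofNat 0, .negSucc 4095, .negSucc 8639, .ofNat 1024]),
  (175158636, [.ofNat 0, .negSucc 24063, .ofNat 11200, .ofNat 2816]),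
  (175162717, [.ofNat 0, .negSucc 3711, .negSucc 7551, .ofNat 192]),
  (175163221, [.ofNat 0, .ofNat 11648, .negSucc 10943, .negSucc 4095]),
  (175167316, [.ofNat 0, .negSucc 3583, .ofNat 1280, .negSucc 447]),
  (175168226, [.ofNat 0, .ofNat 6016, .negSucc 6655, .ofNat 17952]),
  (175184109, [.ofNat 0, .negSucc 23775, .ofNat 12768, .ofNat 5152]),
  (175184235, [.ofNat 0, .ofNat 1728, .ofNat 6928, .ofNat 96]),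
  (175184739, [.ofNat 0, .ofNat 1728, .ofNat 6928, .ofNat 96]),
  (175194973, [.ofNat 0, .ofNat 6912, .ofNat 1536, .negSucc 127]),
  (175200076, [.ofNat 0, .negSucc 3583, .ofNat 1280, .negSucc 447]),
  (175217002, [.ofNat 0, .ofNat 13696, .ofNat 13920, .negSucc 11071]),
  (175231828, [.ofNat 0, .negSucc 15359, .ofNat 3392, .ofNat 4288]),
  (175232332, [.ofNat 0, .ofNat 6912, .ofNat 1536, .negSucc 127]),
  (175233634, [.negSucc 26623, .negSucc 45311, .ofNat 88192, .ofNat 24000]),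
  (175281437, [.ofNat 0, .negSucc 959, .negSucc 6175, .negSucc 239]),
  (175281829, [.ofNat 0, .ofNat 2528, .ofNat 5312, .negSucc 7935]),
  (175281836, [.ofNat 0, .negSucc 959, .negSucc 6303, .ofNat 624]),
  (175285084, [.ofNat 0, .negSucc 1919, .negSucc 5375]),
  (175285861, [.ofNat 0, .negSucc 959, .negSucc 6303, .ofNat 624]),
  (175289004, [.ofNat 0, .ofNat 16608, .ofNat 14304, .negSucc 5055]),
  (176539498, [.ofNat 0, .negSucc 7807, .ofNat 69152, .negSucc 21663]),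
  (176543915, [.ofNat 3328, .negSucc 25023, .ofNat 8000, .negSucc 4991]),
  (176568989, [.ofNat 0, .negSucc 6911, .ofNat 640]),
  (176569003, [.ofNat 33280, .ofNat 42048, .negSucc 49103, .negSucc 24991]),
  (176596709, [.ofNat 13312, .negSucc 38975, .negSucc 22431, .negSucc 10591]),
  (176601756, [.ofNat 13312, .ofNat 10080, .negSucc 9695, .negSucc 4415]),
  (176604885, [.ofNat 13312, .negSucc 38975, .negSucc 22431, .negSucc 10591]),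
  (176609050, [.ofNat 0, .negSucc 6015, .ofNat 50112, .negSucc 12895]),
  (176802635, [.ofNat 0, .ofNat 13696, .ofNat 13920, .negSucc 11071]),
  (176871011, [.ofNat 26624, .ofNat 32640, .negSucc 40511, .negSucc 16639]),
  (177001701, [.ofNat 0, .negSucc 1663, .ofNat 960, .negSucc 415]),
  (177001708, [.ofNat 0, .ofNat 25344, .ofNat 8384, .ofNat 3168]),
  (177002156, [.ofNat 0, .ofNat 25344, .ofNat 8384, .ofNat 3168]),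
  (177002653, [.ofNat 0, .negSucc 63, .negSucc 14559, .negSucc 1871]),
  (177002667, [.ofNat 3328, .ofNat 1792, .negSucc 3551, .negSucc 4863]),
  (177019117, [.ofNat 0, .negSucc 23775, .ofNat 12768, .ofNat 5152]),
  (177019243, [.ofNat 0, .ofNat 1728, .ofNat 6928, .ofNat 96]),
  (177019677, [.ofNat 0, .ofNat 960, .ofNat 6176, .ofNat 240]),
  (177019747, [.ofNat 0, .ofNat 1728, .ofNat 6928, .ofNat 96]),
  (177033957, [.ofNat 0, .negSucc 1663, .ofNat 960, .negSucc 415]),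
  (177085085, [.negSucc 13311, .negSucc 10079, .ofNat 9696, .ofNat 4416]),
  (177085099, [.ofNat 6656, .ofNat 11904, .negSucc 29839, .negSucc 11391]),
  (177089131, [.ofNat 0, .negSucc 5247, .negSucc 703, .ofNat 160]),
  (177116459, [.ofNat 0, .ofNat 8576, .negSucc 6335, .ofNat 160]),
  (177117852, [.ofNat 0, .negSucc 4735, .ofNat 10304, .ofNat 4096]),
  (177117859, [.negSucc 33279, .negSucc 42047, .ofNat 49104, .ofNat 24992]),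
  (177117908, [.ofNat 0, .negSucc 11647, .ofNat 10944, .ofNat 4096]),
  (177117922, [.ofNat 0, .negSucc 63, .negSucc 29423, .ofNat 3648]),
  (177121891, [.ofNat 6656, .ofNat 17152, .negSucc 29135, .negSucc 11551]),
  (177128555, [.ofNat 0, .ofNat 8576, .negSucc 6335, .ofNat 160]),
  (177132314, [.ofNat 0, .ofNat 15488, .negSucc 5119, .negSucc 2303]),
  (177329770, [.negSucc 26623, .ofNat 16736, .negSucc 19135, .ofNat 35648]),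
  (177518749, [.ofNat 0, .negSucc 63, .negSucc 14559, .negSucc 1871]),
  (177518763, [.ofNat 3328, .ofNat 1792, .negSucc 3551, .negSucc 4863]),
  (177518805, [.negSucc 93183, .negSucc 90687, .ofNat 113984, .ofNat 46192]),
  (177551565, [.negSucc 93183, .negSucc 90687, .ofNat 113984, .ofNat 46192]),
  (177576107, [.ofNat 3328, .negSucc 26943, .ofNat 29248, .negSucc 8895]),
  (177576674, [.ofNat 0, .ofNat 1920, .negSucc 21247, .ofNat 3904]),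
  (177578725, [.ofNat 0, .ofNat 16608, .ofNat 14304, .negSucc 5055]),
  (177578781, [.ofNat 0, .ofNat 1920, .ofNat 5376]),
  (204035813, [.ofNat 0, .negSucc 41439, .negSucc 2079, .negSucc 21887]),
  (204061349, [.ofNat 0, .negSucc 13695, .ofNat 3360]),
  (204122347, [.ofNat 0, .ofNat 13824, .negSucc 6911]),
  (204125861, [.ofNat 0, .negSucc 5631, .ofNat 3232]),
  (204126442, [.ofNat 0, .ofNat 13824, .negSucc 6911]),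
  (204815074, [.ofNat 0, .negSucc 10495, .negSucc 1407, .ofNat 320]),
  (204818154, [.ofNat 0, .negSucc 13823, .ofNat 6912]),
  (205870947, [.ofNat 0, .ofNat 43872, .ofNat 7552, .ofNat 15040]),
  (205899115, [.ofNat 0, .negSucc 2815, .ofNat 896]),
  (205899626, [.negSucc 26623, .ofNat 8928, .ofNat 50016, .ofNat 13984]),
  (205929131, [.ofNat 0, .negSucc 5311, .negSucc 30127, .ofNat 3808]),
  (205956963, [.ofNat 13312, .negSucc 35967, .negSucc 5023, .negSucc 1759]),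
  (205960421, [.ofNat 0, .ofNat 0, .negSucc 639]),
  (205960491, [.ofNat 0, .negSucc 3071, .ofNat 12928, .ofNat 640]),
  (205960547, [.ofNat 13312, .negSucc 33791, .ofNat 7328, .negSucc 639]),
  (205961450, [.ofNat 0, .negSucc 5247, .negSucc 703, .ofNat 160]),
  (205965013, [.ofNat 0, .ofNat 1792, .negSucc 11103, .ofNat 640]),
  (206100197, [.negSucc 16639, .ofNat 32128, .ofNat 55936, .ofNat 18464]),
  (206100701, [.ofNat 0, .ofNat 20608, .ofNat 6432, .ofNat 4576]),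
  (206164709, [.ofNat 0, .negSucc 1791, .ofNat 11104, .negSucc 639]),
  (206166221, [.ofNat 0, .negSucc 1663, .ofNat 8960, .negSucc 639])]

/-- data -/
def lE11x2 : List (ℕ × List ℤ) := [(206214885, [.negSucc 16639, .ofNat 33952, .ofNat 46880, .ofNat 4112]),
  (206222949, [.ofNat 0, .negSucc 30943, .ofNat 1440, .negSucc 22559]),
  (206223467, [.negSucc 26623, .negSucc 14287, .ofNat 43664, .ofNat 15472]),
  (206226141, [.ofNat 0, .ofNat 10496, .ofNat 3520, .negSucc 671]),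
  (206227149, [.ofNat 0, .ofNat 1824, .negSucc 9055, .negSucc 14351]),
  (206359253, [.ofNat 0, .ofNat 6464, .negSucc 863, .negSucc 1599]),
  (206361829, [.ofNat 0, .negSucc 3455, .ofNat 1952, .ofNat 576]),
  (206362284, [.ofNat 0, .ofNat 12160, .negSucc 3743, .negSucc 351]),
  (206362837, [.ofNat 0, .negSucc 5119, .ofNat 4256, .ofNat 1664]),
  (206394085, [.ofNat 0, .ofNat 9856, .ofNat 14880, .ofNat 2976]),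
  (206394211, [.ofNat 0, .ofNat 43872, .ofNat 7552, .ofNat 15040]),
  (206426964, [.ofNat 0, .negSucc 17919, .negSucc 3775, .ofNat 640]),
  (206428301, [.ofNat 0, .ofNat 1152, .ofNat 768]),
  (206445227, [.ofNat 0, .negSucc 5247, .negSucc 703, .ofNat 160]),
  (206453354, [.ofNat 0, .ofNat 10496, .ofNat 1408, .negSucc 319]),
  (206459549, [.ofNat 0, .ofNat 5120, .negSucc 4255, .negSucc 1663]),
  (206459626, [.ofNat 13312, .negSucc 32127, .ofNat 4448, .negSucc 479]),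
  (206459997, [.ofNat 0, .negSucc 44223, .negSucc 991, .negSucc 847]),
  (206460501, [.ofNat 0, .negSucc 44223, .negSucc 991, .negSucc 847]),
  (206476517, [.ofNat 0, .negSucc 13311, .negSucc 13567, .negSucc 2399]),
  (206476587, [.ofNat 0, .negSucc 5247, .ofNat 576, .negSucc 159]),
  (206476643, [.ofNat 0, .negSucc 1663, .ofNat 2880, .negSucc 159]),
  (206476972, [.ofNat 0, .ofNat 1664, .negSucc 2879, .ofNat 160]),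
  (206477483, [.ofNat 0, .ofNat 15872, .ofNat 30688, .negSucc 3391]),
  (206477546, [.ofNat 0, .negSucc 5247, .negSucc 703, .ofNat 160]),
  (206478050, [.ofNat 0, .ofNat 8512, .negSucc 6767, .negSucc 575]),
  (206480227, [.ofNat 0, .negSucc 3839, .negSucc 9471, .negSucc 1279]),
  (206481004, [.ofNat 0, .negSucc 10495, .ofNat 864, .ofNat 512]),
  (206485610, [.ofNat 0, .negSucc 5247, .negSucc 703, .ofNat 160]),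
  (206488277, [.ofNat 0, .negSucc 8703, .ofNat 8320, .negSucc 2399]),
  (206488298, [.ofNat 0, .ofNat 2176, .ofNat 12352, .ofNat 800]),
  (206688981, [.ofNat 13312, .ofNat 9952, .negSucc 7647, .negSucc 4927]),
  (206879458, [.ofNat 0, .negSucc 10495, .negSucc 1407, .ofNat 320]),
  (206886612, [.ofNat 0, .negSucc 17919, .negSucc 3775, .ofNat 640]),
  (206943333, [.ofNat 0, .negSucc 8063, .ofNat 128]),
  (206951068, [.negSucc 13311, .negSucc 9951, .ofNat 7648, .ofNat 4928]),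
  (210344661, [.ofNat 0, .negSucc 6399, .ofNat 480, .negSucc 223]),
  (210358997, [.ofNat 0, .negSucc 21119, .ofNat 5120, .ofNat 2304]),
  (210359501, [.ofNat 0, .negSucc 14719, .ofNat 4640, .ofNat 2528]),
  (212150493, [.ofNat 0, .ofNat 3456, .ofNat 4224, .negSucc 2399]),
  (212153580, [.ofNat 0, .ofNat 6656, .negSucc 12159, .negSucc 127]),
  (212153629, [.ofNat 0, .ofNat 11264, .negSucc 4511, .ofNat 480]),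
  (212154525, [.ofNat 0, .ofNat 1792, .ofNat 6528, .negSucc 1311]),
  (212155036, [.ofNat 0, .negSucc 10495, .ofNat 864, .ofNat 512]),
  (212158109, [.ofNat 0, .ofNat 32832, .ofNat 1568, .ofNat 6160]),
  (212158165, [.ofNat 0, .ofNat 1664, .negSucc 8959, .ofNat 640]),
  (212379372, [.ofNat 0, .negSucc 1663, .ofNat 128, .ofNat 608]),
  (212415212, [.ofNat 0, .negSucc 1663, .ofNat 128, .ofNat 608]),
  (212416101, [.ofNat 0, .ofNat 960, .ofNat 6304, .negSucc 623]),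
  (212416717, [.ofNat 0, .ofNat 1152, .ofNat 768]),
  (212420301, [.ofNat 0, .negSucc 17151, .negSucc 2207, .negSucc 6975]),
  (212440293, [.ofNat 0, .ofNat 960, .ofNat 6304, .negSucc 623]),
  (212440300, [.ofNat 0, .ofNat 10240, .ofNat 1504, .ofNat 5568]),
  (212441812, [.ofNat 0, .ofNat 5120, .negSucc 2239, .negSucc 1471]),
  (212444780, [.ofNat 0, .ofNat 6656, .negSucc 12159, .negSucc 127]),
  (212445389, [.ofNat 0, .ofNat 32832, .ofNat 1568, .ofNat 6160]),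
  (212451997, [.ofNat 0, .negSucc 15167, .ofNat 9184, .negSucc 799]),
  (212452557, [.ofNat 0, .ofNat 1792, .ofNat 6528, .negSucc 1311]),
  (212456092, [.ofNat 0, .negSucc 5119, .ofNat 4256, .ofNat 1664]),
  (212456148, [.ofNat 0, .ofNat 10496, .ofNat 1152, .negSucc 319]),
  (212481229, [.ofNat 0, .ofNat 11264, .negSucc 4511, .ofNat 480]),
  (212939421, [.ofNat 0, .ofNat 960, .ofNat 6304, .negSucc 623]),
  (556350237, [.ofNat 6656, .negSucc 9855, .negSucc 895]),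
  (556357405, [.negSucc 13311, .ofNat 46976, .ofNat 29312, .ofNat 14016]),
  (556389605, [.ofNat 0, .negSucc 21119, .negSucc 11423, .negSucc 3551]),
  (556443365, [.ofNat 0, .ofNat 1120, .ofNat 2176, .ofNat 14672]),
  (556447397, [.ofNat 0, .ofNat 1664, .negSucc 127, .negSucc 607]),
  (556447509, [.ofNat 0, .ofNat 768, .negSucc 3007]),
  (556451541, [.negSucc 26623, .negSucc 2271, .ofNat 1664, .ofNat 10896]),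
  (557139669, [.ofNat 0, .negSucc 767, .ofNat 3008]),
  (558185189, [.ofNat 0, .ofNat 6656, .negSucc 12159, .negSucc 127]),
  (558192413, [.ofNat 0, .ofNat 22976, .negSucc 14399, .ofNat 1920]),
  (558212965, [.ofNat 0, .ofNat 3328, .negSucc 9727, .ofNat 640]),
  (558278373, [.ofNat 0, .ofNat 4832, .negSucc 1583, .ofNat 1296]),
  (558282909, [.ofNat 0, .negSucc 5823, .ofNat 12288, .negSucc 2399]),
  (558286549, [.ofNat 0, .ofNat 4832, .negSucc 1583, .ofNat 1296]),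
  (558479973, [.ofNat 6656, .negSucc 9855, .negSucc 895]),
  (558536421, [.ofNat 13312, .negSucc 38975, .negSucc 18975, .negSucc 10911]),
  (558536477, [.ofNat 13312, .negSucc 46591, .negSucc 30111, .negSucc 14015]),
  (558672613, [.ofNat 26624, .ofNat 480, .ofNat 13216, .negSucc 15423]),
  (558680789, [.ofNat 0, .ofNat 11104, .ofNat 7904, .ofNat 1168]),
  (558683365, [.ofNat 0, .negSucc 2399, .ofNat 896, .negSucc 1775]),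
  (558684317, [.ofNat 0, .negSucc 2399, .ofNat 896, .negSucc 1775]),
  (558709517, [.ofNat 0, .ofNat 6656, .negSucc 12159, .negSucc 127]),
  (558716517, [.ofNat 0, .ofNat 2496, .negSucc 6943, .ofNat 400]),
  (558748941, [.ofNat 0, .ofNat 5248, .negSucc 1023]),
  (558781141, [.ofNat 0, .ofNat 2400, .negSucc 895, .ofNat 1776]),
  (558798053, [.ofNat 0, .ofNat 12416, .ofNat 12480, .ofNat 608]),
  (558798109, [.ofNat 0, .negSucc 10495, .negSucc 10047, .ofNat 352]),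
  (558798501, [.ofNat 0, .ofNat 6208, .ofNat 9184, .negSucc 975]),
  (558801637, [.ofNat 0, .ofNat 6208, .ofNat 3296, .ofNat 1584]),
  (558805669, [.negSucc 26623, .negSucc 17791, .negSucc 14559, .ofNat 9120]),
  (558806117, [.ofNat 0, .ofNat 13312, .negSucc 24319, .negSucc 255]),
  (558809813, [.ofNat 0, .ofNat 0, .negSucc 5887, .ofNat 2560]),
  (559195877, [.ofNat 0, .negSucc 21119, .negSucc 11423, .negSucc 3551]),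
  (559256861, [.ofNat 0, .negSucc 639, .ofNat 5472, .ofNat 3328]),
  (559257365, [.ofNat 0, .ofNat 15680, .ofNat 3232, .ofNat 5376]),
  (559260389, [.ofNat 0, .ofNat 13504, .ofNat 7008, .ofNat 2944]),
  (559261285, [.ofNat 0, .ofNat 2496, .negSucc 6943, .ofNat 400]),
  (559265037, [.ofNat 13312, .negSucc 40959, .negSucc 33343, .negSucc 14015])]

/-- data -/
def lE11x3 : List (ℕ × List ℤ) := [(564475669, [.ofNat 0, .ofNat 384, .negSucc 2207]),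
  (564761829, [.ofNat 26624, .ofNat 480, .ofNat 13216, .negSucc 15423])]

/-- the sum of the part -/
def lE11 : List (ℕ × List ℤ) := lE11x0 ++ (lE11x1 ++ (lE11x2 ++ (lE11x3)))

theorem okE11 : dE11.all (rok tbE 12) = true := by decide +kernel

theorem sumE11 : aeq (fz (sumT tbE dE11)) lE11 = true := by decide +kernel

end Pool.Agent.H.MP_e16c79_al.IS
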