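import Pool.Agent.H.MP_e16c79_al.IS.BTabE

/-!
# MP_e16c79_al: certificate E, part 12
-/

set_option autoImplicit false

namespace Pool.Agent.H.MP_e16c79_al.IS

/-- data -/
def dE12x0 : RT := (.nd (.nd (.nd (.lf ⟨[.ofNat 0, .ofNat 0, .ofNat 5248, .ofNat 704, .negSucc 159], (.tw (.dx 3 (.lf 1)) (.tr (.lf 5) (.tr (.lf 2) (.lf 19) (.lf 11)) (.lf 6))), 3, [21, 17, 21, 17], [21, 17, 21, 17]⟩)
    (.lf ⟨[.ofNat 0, .ofNat 0, .negSucc 4415, .negSucc 5167, .negSucc 175], (.tr (.dx 0 (.tr (.tw (.lf 5) (.lf 13)) (.lf 6) (.lf 14))) (.lf 19) (.tw (.lf 9) (.lf 10))), 0, [19, 19, 19, 19, 19, 19, 19, 19], []⟩))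
    (.nd (.lf ⟨[.ofNat 0, .ofNat 0, .ofNat 4416, .ofNat 5168, .ofNat 176], (.tr (.lf 5) (.tr (.lf 14) (.dx 0 (.lf 13)) (.tr (.lf 6) (.lf 19) (.lf 9))) (.lf 10)), 0, [23, 23, 20, 20], [23, 23, 20, 20]⟩)
    (.lf ⟨[.ofNat 0, .ofNat 0, .ofNat 7904, .ofNat 3784, .negSucc 223], (.tr (.lf 5) (.tr (.lf 19) (.dx 0 (.lf 13)) (.tr (.lf 6) (.lf 14) (.lf 9))) (.lf 10)), 0, [11, 11, 8, 8], [11, 11, 8, 8]⟩)))
    (.nd (.nd (.lf ⟨[.ofNat 0, .ofNat 0, .negSucc 3967, .negSucc 2015, .negSucc 63], (.tr (.lf 5) (.tr (.lf 19) (.lf 2) (.tr (.lf 6) (.dx 3 (.lf 1)) (.lf 9))) (.lf 10)), 3, [7, 11, 4, 8], [11, 11, 8, 8]⟩)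
    (.lf ⟨[.ofNat 0, .ofNat 0, .negSucc 4799, .negSucc 2815, .negSucc 63], (.tr (.lf 1) (.tr (.lf 18) (.lf 11) (.tr (.lf 2) (.dx 3 (.lf 17)) (.lf 5))) (.lf 6)), 3, [5, 5, 0, 0], [5, 5, 0, 0]⟩))
    (.nd (.lf ⟨[.ofNat 0, .negSucc 2239, .negSucc 1151, .ofNat 80], (.tr (.lf 1) (.tr (.dx 3 .on) (.lf 9) (.tr (.lf 2) (.tr (.lf 17) (.lf 10) (.lf 18)) (.lf 5))) (.lf 6)), 3, [21, 21, 17, 17, 14, 14, 12, 12], [21, 21, 17, 17, 14, 14, 12, 12]⟩)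
    (.lf ⟨[.ofNat 0, .ofNat 0, .negSucc 4959, .negSucc 519, .ofNat 288], (.tw (.dx 0 (.tw (.lf 13) (.tr (.lf 19) (.lf 9) (.tr (.lf 5) (.lf 14) (.lf 6))))) (.lf 10)), 0, [7, 7, 19, 19, 7, 7, 0, 0], []⟩))))

/-- data -/
def dE12x1 : RT := (.nd (.nd (.nd (.lf ⟨[.ofNat 0, .ofNat 0, .negSucc 3871, .negSucc 7447, .ofNat 5216], (.tr (.lf 5) (.tr (.lf 14) (.lf 19) (.tr (.lf 6) (.dx 0 (.lf 13)) (.lf 9))) (.lf 10)), 0, [7, 11, 4, 8], [19, 23, 16, 20]⟩)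
    (.lf ⟨[.ofNat 0, .ofNat 0, .negSucc 3871, .negSucc 7447, .ofNat 5216], (.tr (.lf 5) (.tr (.lf 19) (.lf 14) (.tr (.lf 6) (.dx 0 (.lf 13)) (.lf 9))) (.lf 10)), 0, [7, 11, 4, 8], [7, 11, 4, 8]⟩))
    (.nd (.lf ⟨[.ofNat 0, .ofNat 0, .negSucc 7903, .negSucc 3783, .ofNat 224], (.tw (.dx 0 (.tw (.lf 19) (.tr (.lf 13) (.lf 9) (.tr (.lf 5) (.lf 14) (.lf 6))))) (.lf 10)), 0, [7, 7, 7, 7, 19, 19, 0, 0], []⟩)
    (.lf ⟨[.ofNat 0, .ofNat 0, .ofNat 2944, .ofNat 3264, .ofNat 64], (.tw (.dx 0 (.tr (.lf 5) (.tr (.lf 13) (.tw (.lf 6) (.lf 9)) (.lf 14)) (.lf 19))) (.lf 10)), 0, [0, 0, 0, 0, 7, 7, 7, 7], []⟩)))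
    (.nd (.nd (.lf ⟨[.ofNat 0, .ofNat 3392, .ofNat 3008, .negSucc 2671], (.tr (.lf 1) (.tr (.dx 3 .on) (.lf 17) (.tr (.lf 2) (.tr (.lf 9) (.lf 18) (.lf 10)) (.lf 5))) (.lf 6)), 3, [21, 21, 17, 17, 14, 14, 12, 12], [21, 21, 17, 17, 14, 14, 12, 12]⟩)
    (.lf ⟨[.ofNat 0, .ofNat 4416, .ofNat 3984, .negSucc 2751], (.tr (.lf 1) (.tr (.lf 17) (.dx 3 .on) (.tr (.lf 2) (.tr (.lf 9) (.lf 18) (.lf 10)) (.lf 5))) (.lf 6)), 3, [21, 21, 17, 17, 14, 14, 12, 12], [21, 21, 17, 17, 14, 14, 12, 12]⟩))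
    (.nd (.lf ⟨[.ofNat 0, .negSucc 8831, .negSucc 7967, .ofNat 5504], (.tr (.dx 0 (.tr (.lf 13) (.lf 14) (.lf 17))) (.lf 5) (.tr (.tw (.lf 9) (.lf 10)) (.lf 6) (.lf 18))), 0, [0, 0, 23, 23, 12, 12, 23, 23], []⟩)
    (.lf ⟨[.ofNat 0, .ofNat 0, .negSucc 1151, .ofNat 384], (.tr (.dx 0 (.tr (.lf 13) (.lf 14) (.lf 17))) (.tr (.tw (.lf 5) (.lf 9)) (.lf 6) (.lf 10)) (.lf 18)), 0, [0, 2, 2, 2, 12, 14, 14, 14], []⟩))))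

/-- data -/
def dE12x2 : RT := (.nd (.nd (.nd (.lf ⟨[.ofNat 0, .ofNat 3200, .negSucc 4927, .negSucc 1279], (.tw (.dx 0 (.tr (.lf 13) (.lf 14) (.lf 17))) (.tr (.lf 18) (.lf 5) (.tr (.lf 9) (.lf 6) (.lf 10)))), 0, [23, 23, 2, 2, 23, 23, 14, 14], []⟩)
    (.lf ⟨[.ofNat 0, .ofNat 0, .negSucc 4927, .negSucc 4271, .negSucc 95], (.tr (.dx 0 (.tr (.lf 5) (.tw (.lf 13) (.lf 19)) (.lf 9))) (.lf 14) (.tw (.lf 6) (.lf 10))), 0, [11, 9, 11, 9, 11, 9, 11, 9], []⟩))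
    (.nd (.lf ⟨[.ofNat 0, .ofNat 0, .ofNat 13904, .ofNat 2384, .ofNat 5200], (.tr (.lf 7) (.tr (.dx 0 (.tw (.lf 13) (.lf 17))) (.lf 14) (.lf 18)) (.lf 11)), 0, [4, 16, 19, 7], [4, 7]⟩)
    (.lf ⟨[.ofNat 0, .ofNat 0, .negSucc 1215], (.tr (.lf 2) (.tr (.lf 11) (.dx 3 (.tr (.lf 1) (.lf 17) (.lf 5))) (.lf 18)) (.lf 6)), 3, [2, 2, 9, 9], [2, 9]⟩)))
    (.nd (.nd (.lf ⟨[.ofNat 0, .ofNat 0, .negSucc 5887, .negSucc 6527, .negSucc 127], (.tr (.dx 0 (.tr (.lf 5) (.lf 9) (.lf 13))) (.tr (.lf 10) (.lf 14) (.lf 19)) (.lf 6)), 0, [0, 0, 2, 9], [2, 9]⟩)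
    (.lf ⟨[.ofNat 0, .ofNat 0, .ofNat 2944, .ofNat 3264, .ofNat 64], (.tr (.lf 2) (.tw (.dx 3 (.tr (.lf 5) (.tw (.lf 1) (.lf 9)) (.lf 19))) (.lf 6)) (.lf 10)), 3, [11, 11, 11, 11, 0, 0, 0, 0], []⟩))
    (.nd (.lf ⟨[.ofNat 0, .negSucc 255, .negSucc 15871, .ofNat 2048], (.tr (.lf 7) (.lf 11) (.tr (.lf 1) (.tr (.dx 3 .on) (.lf 17) (.lf 18)) (.lf 2))), 3, [8, 20, 8, 20], [8, 20, 8, 20]⟩)
    (.lf ⟨[.ofNat 0, .ofNat 0, .ofNat 1792, .ofNat 1408, .ofNat 32], (.tr (.lf 5) (.lf 6) (.tr (.lf 13) (.tr (.dx 0 .on) (.tw (.lf 17) (.lf 18)) (.lf 11)) (.lf 14))), 0, [4, 4, 8, 8, 4, 4, 8, 8], [4, 4, 8, 8, 4, 4, 8, 8]⟩))))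

/-- data -/
def dE12x3 : RT := (.nd (.nd (.nd (.lf ⟨[.ofNat 0, .ofNat 0, .negSucc 2239, .negSucc 1847, .negSucc 31], (.tr (.lf 13) (.lf 14) (.tr (.dx 0 (.tw (.lf 5) (.lf 11))) (.lf 6) (.tw (.lf 17) (.lf 18)))), 0, [1017, 1017, 17, 17, 15, 13, 15, 13], []⟩)
    (.lf ⟨[.ofNat 0, .ofNat 0, .ofNat 2240, .ofNat 1848, .ofNat 32], (.tr (.lf 13) (.lf 14) (.tr (.lf 6) (.dx 0 (.tw (.lf 5) (.lf 11))) (.tw (.lf 17) (.lf 18)))), 0, [4, 4, 1017, 1017, 17, 17, 17, 17], []⟩))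
    (.nd (.lf ⟨[.ofNat 0, .ofNat 0, .negSucc 4479, .negSucc 3695, .negSucc 63], (.tr (.lf 13) (.lf 14) (.tr (.lf 17) (.lf 18) (.tr (.dx 0 (.lf 5)) (.lf 11) (.lf 6)))), 0, [21, 13, 0, 13], [21, 15, 1017, 1017]⟩)
    (.lf ⟨[.ofNat 0, .ofNat 0, .negSucc 4799, .negSucc 2815, .negSucc 63], (.tw (.dx 0 (.tw (.lf 11) (.lf 13))) (.tr (.lf 5) (.lf 6) (.tr (.lf 17) (.lf 14) (.lf 18)))), 0, [2, 2, 17, 17, 2, 2, 17, 17], []⟩)))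
    (.nd (.nd (.lf ⟨[.ofNat 0, .ofNat 0, .negSucc 1215, .negSucc 351], (.tr (.dx 0 (.tr (.lf 13) (.tw (.lf 5) (.lf 17)) (.lf 14))) (.lf 18) (.tw (.lf 6) (.lf 11))), 0, [23, 21, 23, 21, 23, 21, 23, 21], []⟩)
    (.lf ⟨[.ofNat 0, .ofNat 0, .ofNat 11712, .negSucc 2751, .ofNat 160], (.tr (.dx 0 (.tr (.lf 13) (.tw (.lf 5) (.lf 17)) (.lf 14))) (.tw (.lf 6) (.lf 18)) (.lf 11)), 0, [23, 23, 23, 23, 23, 23, 23, 23], []⟩))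
    (.nd (.lf ⟨[.ofNat 0, .ofNat 0, .negSucc 2047, .negSucc 1151], (.tr (.dx 0 (.tr (.lf 13) (.tw (.lf 5) (.lf 17)) (.lf 14))) (.lf 6) (.tw (.lf 11) (.lf 18))), 0, [0, 23, 0, 23, 0, 23, 0, 23], []⟩)
    (.lf ⟨[.ofNat 0, .ofNat 0, .negSucc 14335, .ofNat 6144, .negSucc 159], (.tr (.tw (.dx 0 (.tr (.lf 13) (.tw (.lf 5) (.lf 17)) (.lf 14))) (.lf 6)) (.lf 18) (.lf 11)), 0, [23, 23, 23, 23, 4, 4, 4, 4], []⟩))))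

/-- data -/
def dE12x4 : RT := (.nd (.nd (.nd (.lf ⟨[.ofNat 0, .ofNat 0, .ofNat 10688, .negSucc 3327, .ofNat 160], (.tr (.lf 6) (.tw (.dx 0 (.tr (.lf 13) (.tw (.lf 5) (.lf 17)) (.lf 14))) (.lf 18)) (.lf 11)), 0, [4, 4, 4, 4, 7, 7, 7, 7], []⟩)
    (.lf ⟨[.ofNat 0, .negSucc 13311, .ofNat 19712, .ofNat 6400, .negSucc 319], (.tr (.lf 11) (.lf 14) (.tr (.dx 0 (.tr (.lf 5) (.lf 17) (.lf 13))) (.lf 18) (.lf 6))), 0, [6, 17, 10, 13], [1015, 1023]⟩))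
    (.nd (.lf ⟨[.ofNat 0, .ofNat 0, .negSucc 13823, .ofNat 3328], (.tr (.dx 0 (.tr (.lf 5) (.lf 13) (.lf 17))) (.lf 14) (.tr (.lf 6) (.lf 18) (.lf 11))), 0, [0, 0, 23, 21], [1023, 1017]⟩)
    (.lf ⟨[.ofNat 0, .ofNat 0, .ofNat 192, .negSucc 223], (.tr (.tw (.dx 0 (.tr (.lf 13) (.tw (.lf 5) (.lf 17)) (.lf 14))) (.lf 18)) (.lf 6) (.lf 11)), 0, [23, 23, 23, 23, 11, 11, 11, 11], []⟩)))
    (.nd (.nd (.lf ⟨[.ofNat 0, .ofNat 0, .negSucc 2431, .ofNat 352], (.tr (.tw (.dx 0 (.tr (.lf 13) (.tw (.lf 5) (.lf 17)) (.lf 14))) (.lf 18)) (.lf 11) (.lf 6)), 0, [21, 21, 21, 21, 9, 9, 9, 9], []⟩)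
    (.lf ⟨[.ofNat 0, .ofNat 0, .negSucc 1215], (.tr (.lf 6) (.dx 0 (.tr (.lf 13) (.tw (.lf 5) (.lf 17)) (.lf 14))) (.tw (.lf 11) (.lf 18))), 0, [4, 4, 4, 4, 4, 4, 4, 4], []⟩))
    (.nd (.lf ⟨[.ofNat 0, .ofNat 0, .ofNat 2432, .negSucc 175], (.tr (.lf 11) (.tw (.dx 0 (.tr (.lf 13) (.tw (.lf 5) (.lf 17)) (.lf 14))) (.lf 6)) (.lf 18)), 0, [6, 6, 6, 6, 10, 10, 10, 10], []⟩)
    (.lf ⟨[.ofNat 0, .ofNat 0, .ofNat 1216, .ofNat 176], (.tr (.tw (.dx 0 (.tr (.lf 13) (.tw (.lf 5) (.lf 17)) (.lf 14))) (.lf 11)) (.lf 6) (.lf 18)), 0, [0, 0, 0, 0, 6, 6, 6, 6], []⟩))))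

/-- data -/
def dE12x5 : RT := (.nd (.nd (.nd (.lf ⟨[.ofNat 0, .ofNat 13312, .negSucc 43263, .ofNat 2560, .ofNat 320], (.tr (.lf 2) (.tr (.dx 3 (.tr (.lf 1) (.lf 17) (.lf 5))) (.lf 18) (.lf 6)) (.lf 11)), 3, [23, 23, 12, 12], [23, 12]⟩)
    (.lf ⟨[.ofNat 0, .ofNat 0, .negSucc 4863], (.tr (.lf 14) (.lf 11) (.tr (.dx 0 (.tr (.lf 5) (.lf 17) (.lf 13))) (.lf 18) (.lf 6))), 0, [17, 17, 1, 13], [17, 13]⟩))
    (.nd (.lf ⟨[.ofNat 0, .ofNat 0, .negSucc 2431], (.tr (.dx 0 (.tr (.lf 5) (.lf 13) (.lf 17))) (.lf 14) (.tr (.lf 6) (.lf 11) (.lf 18))), 0, [0, 0, 12, 21], [0, 21]⟩)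
    (.lf ⟨[.ofNat 0, .ofNat 0, .negSucc 1599, .ofNat 1152], (.tr (.dx 3 (.tr (.lf 1) (.lf 17) (.lf 5))) (.lf 11) (.tr (.lf 2) (.lf 18) (.lf 6))), 3, [17, 13, 17, 13], [17, 13]⟩)))
    (.nd (.nd (.lf ⟨[.ofNat 0, .ofNat 0, .negSucc 1599, .ofNat 1152], (.tr (.lf 18) (.lf 11) (.tr (.lf 2) (.dx 3 (.tr (.lf 1) (.lf 17) (.lf 5))) (.lf 6))), 3, [5, 5, 1, 1], [5, 1]⟩)
    (.lf ⟨[.ofNat 0, .ofNat 0, .negSucc 6015, .ofNat 2400], (.tr (.lf 11) (.tr (.dx 0 (.tr (.lf 5) (.lf 17) (.lf 13))) (.lf 18) (.lf 6)) (.lf 14)), 0, [18, 6, 22, 22], [18, 22]⟩))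
    (.nd (.lf ⟨[.ofNat 0, .ofNat 0, .ofNat 13440, .negSucc 2527], (.tr (.lf 11) (.lf 6) (.tr (.lf 14) (.dx 0 (.tr (.lf 5) (.lf 13) (.lf 17))) (.lf 18))), 0, [10, 10, 22, 22], [10, 22]⟩)
    (.lf ⟨[.ofNat 0, .ofNat 0, .ofNat 21120, .negSucc 3327], (.tr (.lf 11) (.lf 2) (.tr (.dx 3 (.tr (.lf 5) (.lf 1) (.lf 17))) (.lf 6) (.lf 18))), 3, [6, 6, 18, 18], [6, 18]⟩))))

/-- data -/
def dE12x6 : RT := (.nd (.nd (.nd (.lf ⟨[.ofNat 0, .ofNat 0, .ofNat 5632, .negSucc 1599], (.tr (.dx 3 (.tr (.lf 1) (.lf 5) (.lf 17))) (.tr (.lf 2) (.lf 18) (.lf 6)) (.lf 11)), 3, [23, 19, 23, 19], [23, 19]⟩)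
    (.lf ⟨[.ofNat 0, .ofNat 0, .ofNat 7296], (.tr (.lf 11) (.lf 2) (.tr (.dx 3 (.tr (.lf 1) (.lf 5) (.lf 17))) (.lf 6) (.lf 18))), 3, [6, 6, 18, 18], [6, 18]⟩))
    (.nd (.lf ⟨[.ofNat 0, .ofNat 0, .ofNat 3648], (.tr (.dx 3 (.tr (.lf 1) (.tw (.lf 5) (.lf 17)) (.lf 2))) (.tw (.lf 6) (.lf 18)) (.lf 11)), 3, [23, 23, 23, 23, 23, 23, 23, 23], []⟩)
    (.lf ⟨[.ofNat 0, .ofNat 0, .negSucc 10751, .ofNat 2240], (.tr (.tw (.dx 3 (.tr (.lf 1) (.tw (.lf 5) (.lf 17)) (.lf 2))) (.lf 6)) (.lf 18) (.lf 11)), 3, [23, 23, 23, 23, 4, 4, 4, 4], []⟩)))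
    (.nd (.nd (.lf ⟨[.ofNat 0, .ofNat 6656, .ofNat 1344, .negSucc 2431, .ofNat 160], (.tr (.lf 6) (.tw (.dx 3 (.tr (.lf 1) (.tw (.lf 5) (.lf 17)) (.lf 2))) (.lf 18)) (.lf 11)), 3, [4, 4, 4, 4, 7, 7, 7, 7], []⟩)
    (.lf ⟨[.ofNat 0, .ofNat 13312, .negSucc 29055, .negSucc 1919, .ofNat 320], (.tr (.lf 11) (.dx 3 (.tr (.lf 1) (.lf 5) (.lf 17))) (.tr (.lf 2) (.lf 18) (.lf 6))), 3, [6, 6, 17, 13], [1015, 1023]⟩))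
    (.nd (.lf ⟨[.ofNat 0, .ofNat 0, .negSucc 14207, .ofNat 4480], (.tr (.lf 2) (.lf 18) (.tr (.lf 6) (.dx 3 (.tr (.lf 1) (.lf 5) (.lf 17))) (.lf 11))), 3, [12, 7, 14, 5], [1023, 1017]⟩)
    (.lf ⟨[.ofNat 0, .ofNat 0, .negSucc 383, .ofNat 1152], (.tr (.lf 2) (.dx 3 (.tr (.lf 5) (.lf 1) (.lf 17))) (.tr (.lf 6) (.lf 18) (.lf 11))), 3, [0, 0, 23, 21], [1023, 1017]⟩))))

/-- data -/
def dE12x7 : RT := (.nd (.nd (.nd (.lf ⟨[.ofNat 0, .negSucc 6655, .ofNat 21632, .negSucc 1279, .negSucc 159], (.tr (.dx 0 (.tw (.lf 5) (.lf 13))) (.tr (.lf 17) (.tw (.lf 6) (.lf 14)) (.lf 18)) (.lf 11)), 0, [0, 0, 0, 0, 0, 0, 0, 0], [12, 23, 12, 23]⟩)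
    (.lf ⟨[.ofNat 0, .negSucc 13311, .ofNat 42880, .negSucc 1407, .negSucc 319], (.tr (.lf 11) (.lf 14) (.tr (.dx 0 (.tr (.lf 5) (.lf 13) (.lf 17))) (.lf 18) (.lf 6))), 0, [6, 17, 10, 1], [1015, 1023]⟩))
    (.nd (.lf ⟨[.ofNat 0, .ofNat 13312, .negSucc 43263, .ofNat 2560, .ofNat 320], (.tr (.lf 2) (.tr (.lf 6) (.dx 3 (.tr (.lf 1) (.lf 17) (.lf 5))) (.lf 18)) (.lf 11)), 3, [0, 0, 11, 11], [0, 11]⟩)
    (.lf ⟨[.ofNat 0, .ofNat 0, .negSucc 1663, .negSucc 2655], (.tr (.lf 11) (.lf 18) (.tr (.dx 3 (.tr (.lf 1) (.lf 17) (.lf 5))) (.lf 2) (.lf 6))), 3, [5, 5, 22, 22], [5, 22]⟩)))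
    (.nd (.nd (.lf ⟨[.ofNat 0, .ofNat 0, .negSucc 4287, .ofNat 1616], (.tw (.lf 11) (.tr (.dx 3 (.tr (.lf 1) (.lf 17) (.lf 5))) (.tw (.lf 2) (.lf 6)) (.lf 18))), 3, [6, 6, 10, 10, 18, 18, 22, 22], [6, 10, 18, 22]⟩)
    (.lf ⟨[.ofNat 0, .ofNat 0, .ofNat 3840, .negSucc 399], (.tr (.lf 11) (.tw (.dx 3 (.tr (.lf 1) (.tw (.lf 5) (.lf 17)) (.lf 2))) (.lf 6)) (.lf 18)), 3, [6, 6, 6, 6, 10, 10, 10, 10], []⟩))
    (.nd (.lf ⟨[.ofNat 0, .ofNat 0, .ofNat 14208, .negSucc 4479], (.tr (.lf 11) (.lf 14) (.tr (.lf 6) (.dx 0 (.tr (.lf 13) (.lf 5) (.lf 17))) (.lf 18))), 0, [10, 10, 17, 5], [10, 17]⟩)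
    (.lf ⟨[.ofNat 0, .ofNat 0, .ofNat 10240, .negSucc 575], (.tr (.dx 3 (.tr (.lf 1) (.lf 17) (.lf 5))) (.lf 2) (.tr (.lf 6) (.lf 18) (.lf 11))), 3, [23, 21, 23, 21], [23, 21]⟩))))

/-- data -/
def dE12x8 : RT := (.nd (.nd (.nd (.lf ⟨[.ofNat 0, .ofNat 0, .ofNat 5120, .ofNat 64], (.tw (.dx 0 (.tr (.lf 13) (.tr (.tw (.lf 5) (.lf 11)) (.lf 17) (.lf 6)) (.lf 14))) (.lf 18)), 0, [0, 2, 0, 0, 0, 2, 0, 0], []⟩)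
    (.lf ⟨[.ofNat 0, .ofNat 0, .ofNat 8576, .negSucc 3231], (.tr (.lf 18) (.lf 2) (.tr (.lf 6) (.dx 3 (.tr (.lf 1) (.lf 17) (.lf 5))) (.lf 11))), 3, [11, 7, 5, 5], [11, 9]⟩))
    (.nd (.lf ⟨[.ofNat 0, .ofNat 0, .negSucc 1663, .negSucc 3359], (.tr (.lf 14) (.lf 6) (.tr (.dx 0 (.tr (.lf 13) (.lf 5) (.lf 17))) (.lf 18) (.lf 11))), 0, [19, 19, 13, 1], [19, 15]⟩)
    (.lf ⟨[.ofNat 0, .ofNat 0, .negSucc 10943, .ofNat 2640], (.tr (.tw (.dx 3 (.tr (.lf 1) (.tw (.lf 5) (.lf 17)) (.lf 2))) (.lf 11)) (.lf 6) (.lf 18)), 3, [0, 21, 0, 21, 6, 6, 6, 6], []⟩)))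
    (.nd (.nd (.lf ⟨[.ofNat 0, .ofNat 0, .ofNat 17664, .negSucc 3199], (.tr (.dx 3 (.tr (.lf 1) (.tw (.lf 5) (.lf 17)) (.lf 2))) (.lf 11) (.tw (.lf 6) (.lf 18))), 3, [0, 21, 21, 21, 0, 21, 21, 21], []⟩)
    (.lf ⟨[.ofNat 0, .ofNat 0, .negSucc 22783, .ofNat 3136], (.tr (.tw (.dx 3 (.tr (.lf 1) (.tw (.lf 5) (.lf 17)) (.lf 2))) (.lf 11)) (.lf 18) (.lf 6)), 3, [21, 21, 21, 21, 6, 6, 6, 6], []⟩))
    (.nd (.lf ⟨[.ofNat 0, .ofNat 0, .negSucc 12223, .ofNat 1472], (.tr (.lf 6) (.dx 3 (.tr (.lf 1) (.tw (.lf 5) (.lf 17)) (.lf 2))) (.tw (.lf 11) (.lf 18))), 3, [4, 4, 4, 4, 4, 4, 4, 4], []⟩)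
    (.lf ⟨[.ofNat 0, .ofNat 0, .ofNat 7552, .ofNat 944], (.tr (.tw (.dx 3 (.tr (.lf 1) (.tw (.lf 5) (.lf 17)) (.lf 2))) (.lf 6)) (.lf 11) (.lf 18)), 3, [0, 23, 0, 23, 4, 4, 4, 4], []⟩))))

/-- data -/
def dE12x9 : RT := (.nd (.nd (.nd (.lf ⟨[.ofNat 0, .ofNat 0, .negSucc 383, .ofNat 800], (.tr (.lf 14) (.lf 11) (.tr (.dx 0 (.tr (.lf 13) (.lf 5) (.lf 17))) (.lf 6) (.lf 18))), 0, [17, 17, 13, 1], [1015, 13]⟩)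
    (.lf ⟨[.ofNat 0, .ofNat 0, .negSucc 7103, .ofNat 2240], (.tw (.lf 11) (.tr (.lf 14) (.dx 0 (.tw (.lf 5) (.lf 13))) (.tr (.lf 17) (.lf 6) (.lf 18)))), 0, [6, 6, 6, 6, 22, 22, 22, 22], [6, 6, 22, 22]⟩))
    (.nd (.lf ⟨[.ofNat 0, .ofNat 6656, .negSucc 2303, .negSucc 2511], (.tw (.lf 14) (.tr (.dx 0 (.tw (.lf 5) (.lf 13))) (.tr (.lf 17) (.lf 6) (.lf 18)) (.lf 11))), 0, [23, 23, 23, 23, 1, 1, 1, 1], [23, 23, 13, 13]⟩)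
    (.lf ⟨[.ofNat 0, .ofNat 0, .negSucc 5311, .ofNat 336], (.tw (.dx 0 (.tw (.lf 5) (.lf 13))) (.tr (.lf 14) (.lf 11) (.tr (.lf 17) (.lf 6) (.lf 18)))), 0, [0, 0, 0, 0, 0, 0, 0, 0], [2, 2, 12, 12]⟩)))
    (.nd (.nd (.lf ⟨[.ofNat 0, .ofNat 0, .ofNat 0, .ofNat 352], (.tw (.dx 3 (.tw (.lf 1) (.lf 5))) (.tr (.lf 2) (.tr (.lf 17) (.lf 11) (.lf 18)) (.lf 6))), 3, [21, 21, 15, 15, 21, 21, 15, 15], [21, 21, 15, 15]⟩)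
    (.lf ⟨[.ofNat 0, .ofNat 0, .ofNat 15872, .negSucc 1119], (.tr (.lf 11) (.tr (.lf 6) (.dx 0 (.tr (.lf 13) (.lf 5) (.lf 17))) (.lf 18)) (.lf 14)), 0, [10, 22, 18, 18], [22, 18]⟩))
    (.nd (.lf ⟨[.ofNat 0, .ofNat 0, .ofNat 3840, .negSucc 399], (.tr (.dx 3 (.tw (.lf 1) (.lf 17))) (.tr (.lf 5) (.tw (.lf 2) (.lf 18)) (.lf 6)) (.lf 11)), 3, [23, 23, 23, 23, 23, 23, 23, 23], [23, 23, 23, 23]⟩)
    (.lf ⟨[.ofNat 0, .ofNat 0, .ofNat 20736, .negSucc 5055, .negSucc 159], (.tr (.lf 2) (.tr (.lf 5) (.tw (.dx 3 (.lf 1)) (.lf 11)) (.lf 6)) (.lf 19)), 3, [0, 0, 0, 0], [0, 0, 0, 0]⟩))))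

/-- data -/
def dE12x10 : RT := (.nd (.nd (.nd (.lf ⟨[.ofNat 0, .ofNat 0, .ofNat 15872, .negSucc 1823], (.tr (.lf 2) (.lf 6) (.tr (.dx 3 (.tr (.lf 1) (.lf 17) (.lf 5))) (.lf 18) (.lf 11))), 3, [0, 0, 12, 12], [0, 12]⟩)
    (.lf ⟨[.ofNat 0, .ofNat 0, .negSucc 6783, .ofNat 2464, .negSucc 4063, .ofNat 800], (.tr (.lf 19) (.lf 1) (.tr (.lf 7) (.tw (.dx 3 .on) (.lf 2)) (.lf 11))), 3, [7, 7, 5, 5], [7, 7, 5, 5]⟩))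
    (.nd (.lf ⟨[.ofNat 0, .ofNat 0, .negSucc 41471, .ofNat 10112, .ofNat 320], (.tr (.dx 0 (.tr (.lf 5) (.lf 11) (.lf 13))) (.lf 14) (.tw (.lf 6) (.lf 19))), 0, [0, 0, 2, 2], []⟩)
    (.lf ⟨[.ofNat 0, .ofNat 0, .ofNat 41472, .negSucc 10111, .negSucc 319], (.tr (.tw (.dx 0 (.tr (.lf 5) (.lf 11) (.lf 13))) (.lf 14)) (.lf 19) (.lf 6)), 0, [0, 2, 17, 17], []⟩)))
    (.nd (.nd (.lf ⟨[.ofNat 0, .ofNat 0, .negSucc 41471, .ofNat 10112, .ofNat 320], (.tr (.lf 6) (.tw (.dx 0 (.tr (.lf 5) (.lf 11) (.lf 13))) (.lf 19)) (.lf 14)), 0, [4, 4, 16, 16], []⟩)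
    (.lf ⟨[.ofNat 0, .ofNat 0, .negSucc 41471, .ofNat 10112, .ofNat 320], (.tr (.lf 19) (.lf 5) (.tr (.lf 2) (.tw (.dx 3 (.lf 1)) (.lf 6)) (.lf 11))), 3, [11, 7, 1, 1], [11, 11, 1, 1]⟩))
    (.nd (.lf ⟨[.ofNat 0, .ofNat 0, .ofNat 41472, .negSucc 10111, .negSucc 319], (.tr (.lf 2) (.tw (.dx 3 (.tr (.lf 1) (.lf 5) (.lf 11))) (.lf 6)) (.lf 19)), 3, [0, 2, 0, 0], []⟩)
    (.lf ⟨[.ofNat 0, .ofNat 0, .negSucc 41471, .ofNat 10112, .ofNat 320], (.tr (.tw (.lf 2) (.lf 6)) (.dx 3 (.tr (.lf 1) (.lf 5) (.lf 11))) (.lf 19)), 3, [0, 0, 4, 4], []⟩))))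

/-- data -/
def dE12x11 : RT := (.nd (.nd (.nd (.lf ⟨[.ofNat 0, .ofNat 0, .ofNat 41472, .negSucc 10111, .negSucc 319], (.tr (.tw (.dx 3 (.tr (.lf 1) (.lf 5) (.lf 11))) (.lf 19)) (.lf 2) (.lf 6)), 3, [17, 17, 5, 5], []⟩)
    (.lf ⟨[.ofNat 0, .ofNat 0, .negSucc 41471, .ofNat 10112, .ofNat 320], (.tr (.lf 6) (.dx 0 (.tr (.lf 5) (.lf 11) (.tw (.lf 13) (.lf 19)))) (.lf 14)), 0, [4, 16, 4, 16], []⟩))
    (.nd (.lf ⟨[.ofNat 0, .ofNat 0, .ofNat 3328, .negSucc 8319, .ofNat 320], (.tr (.lf 6) (.dx 0 (.tr (.tw (.lf 5) (.lf 11)) (.lf 19) (.lf 13))) (.lf 14)), 0, [16, 16, 4, 4], []⟩)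
    (.lf ⟨[.ofNat 0, .ofNat 0, .ofNat 38144, .negSucc 1791, .negSucc 639], (.tr (.lf 6) (.dx 0 (.tr (.lf 5) (.tw (.lf 11) (.lf 19)) (.lf 13))) (.lf 14)), 0, [16, 16, 4, 4], []⟩)))
    (.nd (.nd (.lf ⟨[.ofNat 0, .ofNat 0, .ofNat 13824, .negSucc 6911], (.tr (.lf 6) (.dx 0 (.tr (.tw (.lf 5) (.lf 19)) (.lf 11) (.lf 13))) (.lf 14)), 0, [16, 16, 4, 4], []⟩)
    (.lf ⟨[.ofNat 0, .ofNat 0, .negSucc 3327, .ofNat 8320, .negSucc 319], (.tr (.lf 6) (.dx 0 (.tr (.tw (.lf 11) (.lf 13)) (.lf 5) (.lf 19))) (.lf 14)), 0, [4, 4, 16, 16], []⟩))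
    (.nd (.lf ⟨[.ofNat 0, .ofNat 0, .negSucc 51967, .ofNat 8704, .ofNat 640], (.tr (.dx 3 (.tr (.lf 1) (.tw (.lf 5) (.lf 19)) (.lf 11))) (.lf 2) (.lf 6)), 3, [5, 5, 5, 5], []⟩)
    (.lf ⟨[.ofNat 0, .ofNat 0, .ofNat 41472, .negSucc 10111, .negSucc 319], (.tr (.dx 3 (.tr (.tw (.lf 1) (.lf 19)) (.lf 5) (.lf 11))) (.lf 2) (.lf 6)), 3, [5, 5, 5, 5], []⟩))))

/-- data -/
def dE12x12 : RT := (.nd (.nd (.nd (.lf ⟨[.ofNat 0, .ofNat 0, .negSucc 10495, .negSucc 1407, .ofNat 320], (.tr (.lf 5) (.lf 2) (.tr (.dx 3 (.lf 1)) (.tw (.lf 6) (.lf 11)) (.lf 19))), 3, [4, 4, 16, 16], [4, 4, 16, 16]⟩)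
    (.lf ⟨[.ofNat 0, .ofNat 0, .negSucc 3327, .ofNat 9344, .negSucc 319], (.tr (.lf 5) (.dx 0 (.lf 13)) (.tr (.lf 14) (.tw (.lf 6) (.lf 11)) (.lf 19))), 0, [4, 4, 4, 4], [4, 4, 16, 16]⟩))
    (.nd (.lf ⟨[.ofNat 0, .ofNat 0, .ofNat 13824, .negSucc 7935], (.tw (.lf 19) (.tr (.lf 5) (.dx 0 (.lf 13)) (.tr (.lf 11) (.lf 6) (.lf 14)))), 0, [9, 11, 5, 5], [1023, 11, 5, 5]⟩)
    (.lf ⟨[.ofNat 0, .ofNat 0, .negSucc 13823, .ofNat 7936], (.tw (.lf 14) (.tr (.lf 5) (.lf 11) (.tr (.dx 0 (.lf 13)) (.lf 6) (.lf 19)))), 0, [8, 1, 21, 9], [1023, 13, 21, 21]⟩)))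
    (.nd (.nd (.lf ⟨[.ofNat 0, .ofNat 0, .negSucc 10495, .negSucc 1407, .ofNat 320], (.tr (.lf 5) (.lf 11) (.tr (.dx 3 (.lf 1)) (.tw (.lf 2) (.lf 6)) (.lf 19))), 3, [8, 8, 20, 20], [8, 8, 20, 20]⟩)
    (.lf ⟨[.ofNat 0, .ofNat 0, .negSucc 3327, .ofNat 9344, .negSucc 319], (.tr (.lf 5) (.lf 11) (.tr (.lf 14) (.tw (.dx 0 (.lf 13)) (.lf 6)) (.lf 19))), 0, [8, 8, 20, 20], [8, 8, 20, 20]⟩))
    (.nd (.lf ⟨[.ofNat 0, .ofNat 0, .negSucc 3327, .ofNat 8320, .negSucc 319], (.tr (.dx 3 (.tr (.tw (.lf 1) (.lf 11)) (.lf 5) (.lf 19))) (.lf 2) (.lf 6)), 3, [5, 5, 5, 5], []⟩)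
    (.lf ⟨[.ofNat 0, .ofNat 0, .ofNat 3328, .negSucc 8319, .ofNat 320], (.tr (.dx 3 (.tr (.tw (.lf 5) (.lf 19)) (.lf 1) (.lf 11))) (.lf 2) (.lf 6)), 3, [5, 5, 5, 5], []⟩))))

/-- data -/
def dE12x13 : RT := (.nd (.nd (.nd (.lf ⟨[.ofNat 0, .ofNat 0, .ofNat 0, .negSucc 4863], (.tr (.dx 3 (.lf 17)) (.tr (.lf 7) (.tw (.lf 1) (.lf 18)) (.lf 11)) (.lf 2)), 3, [15, 15, 13, 13], [15, 15, 13, 13]⟩)
    (.lf ⟨[.ofNat 0, .ofNat 0, .ofNat 1664, .negSucc 4799, .ofNat 160], (.tr (.lf 1) (.tr (.lf 7) (.tw (.dx 3 (.lf 17)) (.lf 2)) (.lf 11)) (.lf 18)), 3, [0, 0, 2, 2], [0, 0, 2, 2]⟩))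
    (.nd (.lf ⟨[.ofNat 0, .ofNat 0, .negSucc 5247, .ofNat 800], (.tr (.lf 14) (.lf 18) (.tr (.lf 6) (.dx 0 (.tr (.lf 13) (.lf 5) (.lf 17))) (.lf 11))), 0, [19, 7, 17, 5], [19, 17]⟩)
    (.lf ⟨[.ofNat 0, .ofNat 0, .negSucc 14591, .ofNat 5632], (.tr (.dx 0 (.tr (.lf 5) (.tr (.lf 11) (.lf 17) (.lf 13)) (.lf 14))) (.lf 18) (.lf 6)), 0, [12, 0, 17, 17], []⟩)))
    (.nd (.nd (.lf ⟨[.ofNat 0, .ofNat 0, .negSucc 1663, .negSucc 3711], (.tr (.dx 0 (.tr (.lf 5) (.lf 11) (.tr (.lf 13) (.lf 14) (.lf 17)))) (.lf 18) (.lf 6)), 0, [0, 12, 17, 17], []⟩)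
    (.lf ⟨[.ofNat 0, .ofNat 0, .ofNat 3648], (.tr (.dx 0 (.tw (.lf 5) (.tr (.lf 11) (.tw (.lf 13) (.lf 14)) (.lf 17)))) (.lf 18) (.lf 6)), 0, [0, 0, 12, 12, 2, 2, 17, 17], []⟩))
    (.nd (.lf ⟨[.ofNat 0, .ofNat 0, .negSucc 7295], (.tr (.dx 0 (.tr (.lf 11) (.lf 13) (.tr (.lf 5) (.lf 17) (.lf 14)))) (.lf 18) (.lf 6)), 0, [2, 2, 12, 17], []⟩)
    (.lf ⟨[.ofNat 0, .ofNat 0, .negSucc 2815, .ofNat 1856], (.tr (.dx 0 (.tw (.lf 17) (.tr (.lf 5) (.lf 11) (.tw (.lf 13) (.lf 14))))) (.lf 18) (.lf 6)), 0, [12, 12, 17, 17, 0, 0, 17, 17], []⟩))))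

/-- data -/
def dE12x14 : RT := (.nd (.nd (.nd (.lf ⟨[.ofNat 0, .ofNat 0, .negSucc 14591, .ofNat 5632], (.tr (.lf 5) (.dx 3 (.tr (.lf 1) (.lf 17) (.lf 11))) (.tr (.lf 2) (.lf 6) (.lf 18))), 3, [4, 13, 8, 13], []⟩)
    (.lf ⟨[.ofNat 0, .ofNat 0, .negSucc 3199, .ofNat 2304], (.tr (.dx 3 (.tr (.lf 5) (.tw (.lf 1) (.lf 17)) (.lf 11))) (.lf 2) (.tw (.lf 6) (.lf 18))), 3, [1013, 17, 17, 17, 17, 17, 17, 17], []⟩))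
    (.nd (.lf ⟨[.ofNat 0, .ofNat 0, .ofNat 0, .ofNat 704], (.tw (.dx 0 (.tw (.lf 5) (.tr (.lf 17) (.lf 6) (.tr (.lf 13) (.lf 11) (.lf 14))))) (.lf 18)), 0, [12, 12, 0, 0, 12, 12, 2, 2], []⟩)
    (.lf ⟨[.ofNat 0, .ofNat 0, .negSucc 1215, .ofNat 176], (.tw (.dx 0 (.tw (.lf 13) (.tr (.lf 11) (.lf 17) (.tr (.lf 5) (.lf 14) (.lf 6))))) (.lf 18)), 0, [2, 2, 0, 0, 14, 14, 0, 0], []⟩)))
    (.nd (.nd (.lf ⟨[.ofNat 0, .ofNat 0, .ofNat 4864], (.tr (.lf 5) (.lf 14) (.tr (.lf 17) (.lf 6) (.tr (.dx 0 (.lf 13)) (.lf 18) (.lf 11)))), 0, [19, 3, 4, 8], [19, 15, 4, 8]⟩)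
    (.lf ⟨[.ofNat 0, .ofNat 0, .negSucc 7935, .ofNat 560], (.tr (.dx 3 (.lf 1)) (.tr (.lf 2) (.tr (.lf 5) (.lf 17) (.lf 6)) (.lf 11)) (.lf 18)), 3, [23, 23, 13, 13], [23, 23, 13, 13]⟩))
    (.nd (.lf ⟨[.ofNat 0, .ofNat 6656, .negSucc 4735, .negSucc 2159], (.tr (.lf 14) (.dx 0 (.lf 13)) (.tr (.lf 17) (.lf 11) (.tr (.lf 5) (.lf 18) (.lf 6)))), 0, [21, 21, 23, 23], [21, 21, 23, 23]⟩)
    (.lf ⟨[.ofNat 0, .ofNat 0, .negSucc 1023, .negSucc 399], (.tr (.dx 3 (.lf 1)) (.lf 11) (.tr (.lf 17) (.lf 2) (.tr (.lf 5) (.lf 18) (.lf 6)))), 3, [17, 17, 13, 13], [17, 17, 13, 13]⟩))))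

/-- data -/
def dE12x15 : RT := (.nd (.nd (.nd (.lf ⟨[.ofNat 0, .ofNat 0, .negSucc 7183, .negSucc 5691, .negSucc 119], (.tr (.lf 19) (.dx 0 (.lf 5)) (.tr (.lf 13) (.lf 6) (.tr (.lf 9) (.lf 14) (.lf 10)))), 0, [11, 11, 12, 12], [11, 11, 9, 9]⟩)
    (.lf ⟨[.ofNat 0, .ofNat 0, .ofNat 12800, .ofNat 4736, .ofNat 128], (.tw (.lf 2) (.tr (.dx 3 (.tw (.lf 1) (.lf 5))) (.tr (.lf 9) (.lf 6) (.lf 10)) (.lf 19))), 3, [0, 0, 0, 0, 14, 14, 14, 14], [2, 2, 14, 14]⟩))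
    (.nd (.lf ⟨[.ofNat 0, .ofNat 0, .negSucc 3391, .negSucc 1007, .negSucc 31], (.tr (.dx 3 (.tw (.lf 1) (.lf 5))) (.lf 9) (.tr (.lf 2) (.tw (.lf 10) (.lf 19)) (.lf 6))), 3, [21, 21, 15, 15, 21, 21, 15, 15], [21, 21, 15, 15]⟩)
    (.lf ⟨[.ofNat 0, .ofNat 0, .ofNat 928, .negSucc 1127, .negSucc 15], (.tw (.dx 3 (.tw (.lf 1) (.lf 5))) (.tr (.lf 2) (.lf 19) (.tr (.lf 9) (.lf 6) (.lf 10)))), 3, [23, 23, 15, 15, 23, 23, 15, 15], [23, 23, 15, 15]⟩)))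
    (.nd (.nd (.lf ⟨[.ofNat 0, .ofNat 0, .negSucc 1407], (.tr (.dx 3 (.tw (.lf 1) (.lf 5))) (.tr (.lf 2) (.tw (.lf 9) (.lf 19)) (.lf 6)) (.lf 10)), 3, [23, 23, 19, 19, 23, 23, 19, 19], [23, 23, 19, 19]⟩)
    (.lf ⟨[.ofNat 0, .ofNat 0, .ofNat 480, .ofNat 1128, .ofNat 16], (.tr (.dx 0 (.lf 5)) (.lf 19) (.tr (.lf 13) (.lf 6) (.tr (.lf 9) (.lf 14) (.lf 10)))), 0, [12, 12, 12, 12], [11, 11, 14, 14]⟩))
    (.nd (.lf ⟨[.ofNat 0, .ofNat 0, .ofNat 3584, .ofNat 2368, .ofNat 64], (.tr (.lf 13) (.lf 6) (.tr (.dx 0 (.lf 5)) (.lf 19) (.tr (.lf 9) (.lf 14) (.lf 10)))), 0, [7, 7, 13, 13], [7, 7, 15, 15]⟩)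
    (.lf ⟨[.ofNat 0, .ofNat 0, .negSucc 6623, .ofNat 1560, .negSucc 15], (.tr (.dx 0 (.lf 13)) (.lf 19) (.tr (.lf 14) (.lf 5) (.tr (.lf 9) (.lf 6) (.lf 10)))), 0, [11, 11, 2, 2], [11, 11, 14, 14]⟩))))

/-- data -/
def dE12x16 : RT := (.nd (.nd (.nd (.lf ⟨[.ofNat 0, .ofNat 0, .ofNat 6240, .negSucc 8855, .negSucc 1327], (.tr (.lf 2) (.lf 19) (.tr (.dx 3 (.lf 1)) (.lf 5) (.tr (.lf 9) (.lf 6) (.lf 10)))), 3, [11, 11, 14, 14], [11, 11, 14, 14]⟩)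
    (.lf ⟨[.ofNat 0, .ofNat 0, .ofNat 3584, .ofNat 2368, .ofNat 64], (.tr (.lf 6) (.tr (.dx 0 (.lf 5)) (.tr (.lf 13) (.lf 9) (.lf 14)) (.lf 19)) (.lf 10)), 0, [4, 4, 7, 7], [4, 4, 7, 7]⟩))
    (.nd (.lf ⟨[.ofNat 0, .ofNat 0, .negSucc 3103, .negSucc 1239, .negSucc 47], (.tr (.lf 6) (.lf 19) (.tr (.lf 9) (.dx 0 (.lf 5)) (.tr (.lf 13) (.lf 10) (.lf 14)))), 0, [20, 20, 7, 7], [20, 20, 7, 7]⟩)
    (.lf ⟨[.ofNat 0, .ofNat 0, .ofNat 1600, .ofNat 2256, .ofNat 32], (.tr (.lf 7) (.dx 3 .on) (.tr (.lf 1) (.lf 11) (.tr (.lf 17) (.lf 2) (.lf 18)))), 3, [4, 4, 15, 15], [4, 4, 15, 15]⟩)))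
    (.nd (.nd (.lf ⟨[.ofNat 0, .ofNat 0, .negSucc 3039, .ofNat 3928, .ofNat 48], (.tw (.dx 0 (.tr (.lf 13) (.tr (.tw (.lf 5) (.lf 9)) (.lf 6) (.lf 10)) (.lf 19))) (.lf 14)), 0, [0, 2, 2, 2, 12, 14, 14, 14], []⟩)
    (.lf ⟨[.ofNat 0, .ofNat 0, .ofNat 2048, .ofNat 1952, .negSucc 159], (.tw (.dx 0 (.tr (.lf 19) (.lf 5) (.tr (.tw (.lf 9) (.lf 10)) (.lf 6) (.lf 13)))) (.lf 14)), 0, [12, 12, 12, 12, 2, 2, 0, 0], []⟩))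
    (.nd (.lf ⟨[.ofNat 0, .ofNat 0, .negSucc 2047, .negSucc 1951, .ofNat 160], (.tw (.dx 0 (.tw (.lf 19) (.tr (.lf 5) (.lf 6) (.tr (.lf 9) (.lf 13) (.lf 10))))) (.lf 14)), 0, [12, 12, 14, 14, 0, 0, 2, 2], []⟩)
    (.lf ⟨[.ofNat 0, .ofNat 0, .ofNat 3040, .negSucc 3927, .negSucc 47], (.tw (.dx 3 (.tw (.lf 1) (.tr (.lf 9) (.lf 19) (.tr (.lf 5) (.lf 2) (.lf 6))))) (.lf 10)), 3, [11, 11, 11, 11, 7, 7, 7, 7], []⟩))))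

/-- data -/
def dE12x17 : RT := (.nd (.nd (.nd (.lf ⟨[.ofNat 0, .ofNat 0, .ofNat 1984, .ofNat 1008, .ofNat 32], (.tw (.lf 9) (.tr (.lf 2) (.tr (.dx 3 (.tw (.lf 1) (.lf 5))) (.lf 19) (.lf 10)) (.lf 6))), 3, [6, 6, 18, 18, 10, 10, 22, 22], [6, 18, 10, 22]⟩)
    (.lf ⟨[.ofNat 0, .ofNat 0, .negSucc 3327, .ofNat 9344, .negSucc 319], (.tr (.lf 5) (.dx 0 (.lf 13)) (.tr (.tw (.lf 6) (.lf 11)) (.lf 14) (.lf 19))), 0, [4, 4, 4, 4], [4, 4, 16, 1023]⟩))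
    (.nd (.lf ⟨[.ofNat 0, .ofNat 0, .negSucc 8351, .negSucc 8663, .negSucc 175], (.tw (.lf 2) (.tr (.dx 3 (.tw (.lf 1) (.lf 5))) (.lf 19) (.tr (.lf 9) (.lf 6) (.lf 10)))), 3, [23, 23, 23, 23, 14, 14, 14, 14], [23, 23, 14, 14]⟩)
    (.lf ⟨[.ofNat 0, .ofNat 0, .ofNat 4960, .ofNat 7656, .ofNat 144], (.tw (.dx 3 (.tw (.lf 1) (.lf 5))) (.tr (.lf 2) (.tr (.lf 9) (.lf 6) (.lf 10)) (.lf 19))), 3, [23, 23, 15, 15, 23, 23, 15, 15], [23, 23, 15, 15]⟩)))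
    (.nd (.nd (.lf ⟨[.ofNat 0, .ofNat 0, .negSucc 3391, .negSucc 1007, .negSucc 31], (.tw (.lf 19) (.tr (.dx 3 (.tw (.lf 1) (.lf 5))) (.lf 2) (.tr (.lf 9) (.lf 6) (.lf 10)))), 3, [11, 11, 11, 11, 22, 22, 22, 22], [11, 11, 22, 22]⟩)
    (.lf ⟨[.ofNat 0, .ofNat 0, .ofNat 3328, .negSucc 9727, .ofNat 640], (.tr (.lf 15) (.lf 9) (.tr (.lf 6) (.tw (.dx 0 (.lf 5)) (.lf 10)) (.lf 19))), 0, [1017, 1023, 21, 17], [1017, 10, 21, 17]⟩))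
    (.nd (.lf ⟨[.ofNat 0, .ofNat 0, .ofNat 0, .ofNat 1728, .negSucc 159], (.tw (.lf 11) (.tr (.dx 0 (.lf 13)) (.tr (.lf 5) (.lf 14) (.lf 6)) (.lf 19))), 0, [6, 6, 1, 1], [6, 6, 1, 1]⟩)
    (.lf ⟨[.ofNat 0, .ofNat 13312, .negSucc 64639, .ofNat 9216], (.tw (.lf 11) (.tr (.lf 2) (.tr (.dx 3 (.tw (.lf 1) (.lf 17))) (.lf 5) (.lf 18)) (.lf 6))), 3, [6, 6, 18, 18, 10, 10, 22, 22], [6, 18, 10, 22]⟩))))

/-- data -/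
def dE12x18 : RT := (.nd (.nd (.nd (.lf ⟨[.ofNat 0, .ofNat 0, .ofNat 8448, .negSucc 3551, .ofNat 160], (.tw (.lf 11) (.tr (.dx 0 (.tw (.lf 13) (.lf 17))) (.lf 14) (.tr (.lf 5) (.lf 18) (.lf 6)))), 0, [6, 6, 18, 18, 22, 22, 22, 22], [6, 6, 22, 22]⟩)
    (.lf ⟨[.ofNat 0, .ofNat 0, .ofNat 18240, .negSucc 3327, .negSucc 159], (.tr (.lf 11) (.dx 0 (.lf 13)) (.tr (.lf 5) (.lf 14) (.tr (.lf 17) (.lf 6) (.lf 18)))), 0, [6, 6, 6, 6], [6, 6, 18, 18]⟩))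
    (.nd (.lf ⟨[.ofNat 0, .negSucc 13311, .ofNat 26240, .ofNat 5792, .negSucc 479], (.tr (.lf 2) (.tr (.lf 17) (.dx 3 (.lf 1)) (.tr (.lf 5) (.lf 18) (.lf 6))) (.lf 11)), 3, [23, 23, 12, 12], [23, 23, 12, 12]⟩)
    (.lf ⟨[.ofNat 0, .ofNat 13312, .negSucc 23551, .negSucc 5279, .ofNat 320], (.tr (.lf 2) (.lf 17) (.tr (.dx 3 (.lf 1)) (.tr (.lf 5) (.lf 18) (.lf 6)) (.lf 11))), 3, [23, 23, 14, 14], [23, 23, 14, 14]⟩)))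
    (.nd (.nd (.lf ⟨[.ofNat 0, .ofNat 0, .ofNat 4864, .negSucc 863, .negSucc 159], (.tr (.dx 3 (.lf 1)) (.tr (.lf 17) (.lf 2) (.tr (.lf 5) (.lf 18) (.lf 6))) (.lf 11)), 3, [23, 23, 19, 19], [23, 23, 19, 19]⟩)
    (.lf ⟨[.ofNat 0, .negSucc 671, .negSucc 5887, .ofNat 832], (.tr (.lf 2) (.tr (.lf 17) (.dx 3 (.tw (.lf 1) (.lf 5))) (.tr (.lf 9) (.lf 18) (.lf 10))) (.lf 6)), 3, [21, 21, 21, 21, 14, 14, 14, 14], [21, 21, 14, 14]⟩))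
    (.nd (.lf ⟨[.ofNat 0, .ofNat 6656, .negSucc 11455, .negSucc 1599], (.tr (.lf 14) (.lf 11) (.tr (.dx 0 (.lf 13)) (.lf 5) (.tr (.lf 17) (.lf 6) (.lf 18)))), 0, [6, 6, 1, 1], [6, 6, 13, 13]⟩)
    (.lf ⟨[.ofNat 0, .negSucc 6655, .ofNat 11456, .ofNat 1600], (.tr (.dx 3 (.lf 1)) (.lf 11) (.tr (.lf 2) (.lf 5) (.tr (.lf 17) (.lf 6) (.lf 18)))), 3, [17, 17, 13, 13], [6, 6, 13, 13]⟩))))

/-- data -/
def dE12x19 : RT := (.nd (.nd (.nd (.lf ⟨[.ofNat 0, .ofNat 6656, .negSucc 12671, .negSucc 1599], (.tr (.dx 3 (.lf 1)) (.tr (.lf 11) (.lf 2) (.tr (.lf 5) (.lf 17) (.lf 6))) (.lf 18)), 3, [17, 17, 19, 19], [6, 6, 19, 19]⟩)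
    (.lf ⟨[.ofNat 0, .negSucc 6655, .ofNat 3712, .ofNat 1760], (.tr (.lf 17) (.lf 11) (.tr (.dx 3 (.lf 1)) (.tr (.lf 5) (.lf 18) (.lf 6)) (.lf 2))), 3, [13, 13, 18, 18], [13, 13, 18, 18]⟩))
    (.nd (.lf ⟨[.ofNat 0, .ofNat 0, .ofNat 1216], (.tw (.lf 14) (.tr (.dx 0 (.tw (.lf 11) (.lf 13))) (.lf 5) (.tr (.lf 17) (.lf 6) (.lf 18)))), 0, [2, 2, 17, 17, 3, 3, 3, 3], []⟩)
    (.lf ⟨[.ofNat 0, .ofNat 0, .negSucc 1215], (.tw (.dx 3 (.tw (.lf 1) (.lf 11))) (.tr (.lf 2) (.lf 5) (.tr (.lf 17) (.lf 6) (.lf 18)))), 3, [2, 2, 13, 13, 6, 6, 13, 13], []⟩)))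
    (.nd (.nd (.lf ⟨[.ofNat 0, .negSucc 6655, .ofNat 11456, .ofNat 1600], (.tw (.dx 3 (.tw (.lf 11) (.tr (.lf 5) (.lf 1) (.tr (.lf 17) (.lf 2) (.lf 18))))) (.lf 6)), 3, [5, 5, 5, 5, 9, 9, 9, 9], []⟩)
    (.lf ⟨[.ofNat 0, .ofNat 6656, .negSucc 5567, .negSucc 3663], (.tw (.dx 3 (.tw (.lf 17) (.tr (.lf 11) (.lf 5) (.tr (.lf 1) (.lf 18) (.lf 2))))) (.lf 6)), 3, [5, 5, 9, 9, 5, 5, 9, 9], []⟩))
    (.nd (.lf ⟨[.ofNat 0, .ofNat 0, .negSucc 4479, .negSucc 1151], (.tr (.dx 0 (.tw (.lf 13) (.lf 17))) (.tr (.tw (.lf 5) (.lf 14)) (.lf 6) (.lf 18)) (.lf 11)), 0, [23, 23, 11, 11, 23, 23, 11, 11], [0, 1023, 1023, 11]⟩)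
    (.lf ⟨[.ofNat 0, .negSucc 6655, .ofNat 16768, .ofNat 1536, .negSucc 159], (.tr (.lf 11) (.lf 17) (.tr (.lf 2) (.tw (.dx 3 (.tw (.lf 1) (.lf 5))) (.lf 18)) (.lf 6))), 3, [18, 18, 5, 5, 22, 22, 1, 1], [18, 18, 22, 22]⟩))))

/-- data -/
def dE12x20 : RT := (.nd (.nd (.nd (.lf ⟨[.ofNat 0, .ofNat 6656, .negSucc 19583, .ofNat 64], (.tw (.lf 11) (.tr (.lf 2) (.dx 3 (.tw (.lf 1) (.lf 5))) (.tr (.lf 17) (.lf 6) (.lf 18)))), 3, [6, 6, 6, 6, 1, 1, 1, 1], [6, 6, 22, 22]⟩)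
    (.lf ⟨[.ofNat 0, .negSucc 6655, .ofNat 9856, .ofNat 2400], (.tr (.lf 11) (.tr (.lf 2) (.tw (.dx 3 (.tw (.lf 1) (.lf 5))) (.lf 17)) (.lf 6)) (.lf 18)), 3, [6, 6, 18, 18, 10, 10, 22, 22], [6, 18, 10, 22]⟩))
    (.nd (.lf ⟨[.ofNat 0, .ofNat 0, .ofNat 0, .negSucc 2175], (.tw (.lf 11) (.tr (.dx 0 (.lf 5)) (.tr (.lf 13) (.lf 6) (.lf 14)) (.lf 19))), 0, [6, 6, 1, 1], [6, 6, 1, 1]⟩)
    (.lf ⟨[.ofNat 0, .ofNat 6656, .negSucc 18815, .negSucc 2591, .ofNat 320], (.tw (.lf 11) (.tr (.dx 0 (.tw (.lf 5) (.lf 13))) (.tr (.lf 17) (.lf 6) (.lf 18)) (.lf 14))), 0, [6, 6, 6, 6, 1, 1, 1, 1], [18, 18, 13, 13]⟩)))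
    (.nd (.nd (.lf ⟨[.ofNat 0, .negSucc 6655, .ofNat 11712, .ofNat 4832, .negSucc 319], (.tw (.lf 11) (.tr (.dx 3 (.tw (.lf 1) (.lf 5))) (.tr (.lf 17) (.lf 6) (.lf 18)) (.lf 2))), 3, [6, 6, 10, 10, 18, 18, 18, 18], [13, 13, 18, 18]⟩)
    (.lf ⟨[.ofNat 0, .ofNat 0, .negSucc 3327, .ofNat 11136, .ofNat 320], (.tr (.lf 11) (.lf 5) (.tr (.tw (.dx 3 (.lf 1)) (.lf 19)) (.lf 6) (.lf 2))), 3, [10, 1, 10, 22], [1023, 1023, 10, 22]⟩))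
    (.nd (.lf ⟨[.ofNat 0, .ofNat 0, .negSucc 27647, .ofNat 2176, .ofNat 320], (.tr (.tw (.dx 0 (.tr (.lf 5) (.lf 19) (.lf 13))) (.lf 14)) (.lf 6) (.lf 11)), 0, [11, 11, 11, 23], []⟩)
    (.lf ⟨[.ofNat 0, .ofNat 0, .negSucc 6911, .ofNat 3456], (.tr (.lf 11) (.tw (.dx 0 (.tr (.lf 5) (.lf 19) (.lf 13))) (.lf 6)) (.lf 14)), 0, [18, 6, 22, 10], []⟩))))

/-- data -/
def dE12x21 : RT := (.nd (.nd (.nd (.lf ⟨[.ofNat 0, .ofNat 0, .ofNat 6912, .negSucc 3455], (.tr (.lf 11) (.tr (.dx 0 (.lf 5)) (.tw (.lf 13) (.lf 19)) (.lf 6)) (.lf 14)), 0, [6, 18, 10, 22], [6, 18, 10, 22]⟩)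
    (.lf ⟨[.ofNat 0, .ofNat 0, .negSucc 6911, .ofNat 3456], (.tr (.lf 11) (.tw (.dx 0 (.tr (.lf 5) (.lf 13) (.lf 19))) (.lf 6)) (.lf 14)), 0, [6, 18, 10, 22], []⟩))
    (.nd (.lf ⟨[.ofNat 0, .ofNat 0, .ofNat 27648, .ofNat 384, .negSucc 959], (.tr (.lf 11) (.lf 5) (.tr (.dx 3 (.lf 1)) (.tw (.lf 6) (.lf 19)) (.lf 2))), 3, [10, 10, 22, 22], [10, 1023, 22, 22]⟩)
    (.lf ⟨[.ofNat 0, .ofNat 0, .ofNat 27648, .negSucc 2175, .negSucc 319], (.tr (.tw (.dx 3 (.tr (.lf 1) (.lf 5) (.lf 19))) (.lf 2)) (.lf 6) (.lf 11)), 3, [11, 11, 11, 11], []⟩)))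
    (.nd (.nd (.lf ⟨[.ofNat 0, .ofNat 0, .ofNat 3328, .negSucc 13695, .ofNat 320], (.tr (.lf 11) (.lf 5) (.tr (.dx 3 (.lf 1)) (.lf 19) (.tw (.lf 2) (.lf 6)))), 3, [10, 10, 22, 22], [17, 1023, 22, 22]⟩)
    (.lf ⟨[.ofNat 0, .ofNat 0, .ofNat 0, .ofNat 4352], (.tw (.lf 5) (.tr (.lf 2) (.tr (.lf 6) (.dx 3 (.lf 1)) (.lf 19)) (.lf 11))), 3, [4, 11, 8, 1], [4, 16, 8, 20]⟩))
    (.nd (.lf ⟨[.ofNat 0, .ofNat 0, .ofNat 0, .negSucc 4351], (.tr (.lf 2) (.lf 5) (.tr (.tw (.dx 3 (.lf 1)) (.lf 19)) (.lf 11) (.lf 6))), 3, [0, 9, 0, 12], [21, 9, 0, 12]⟩)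
    (.lf ⟨[.ofNat 0, .ofNat 0, .ofNat 6656, .negSucc 12159, .negSucc 127], (.tw (.lf 17) (.tr (.lf 7) (.tr (.dx 0 (.lf 13)) (.lf 18) (.lf 14)) (.lf 11))), 0, [7, 7, 5, 5], [7, 19, 5, 17]⟩))))

/-- data -/
def dE12x22 : RT := (.nd (.nd (.nd (.lf ⟨[.ofNat 0, .ofNat 3040, .ofNat 1344, .ofNat 208], (.tr (.dx 0 (.tr (.lf 5) (.lf 13) (.lf 9))) (.lf 14) (.tr (.lf 17) (.tw (.lf 6) (.lf 10)) (.lf 18))), 0, [0, 0, 0, 0, 2, 2, 2, 2], [0, 2, 0, 2]⟩)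
    (.lf ⟨[.ofNat 0, .negSucc 31, .negSucc 1503, .ofNat 24], (.tr (.lf 2) (.dx 3 (.tr (.lf 5) (.lf 1) (.lf 9))) (.tr (.lf 17) (.tw (.lf 6) (.lf 10)) (.lf 18))), 3, [0, 0, 0, 0, 2, 2, 2, 2], [0, 2, 0, 2]⟩))
    (.nd (.lf ⟨[.ofNat 0, .ofNat 0, .ofNat 4992, .negSucc 5695, .negSucc 1055], (.tr (.lf 17) (.dx 0 (.lf 13)) (.tr (.lf 7) (.tw (.lf 14) (.lf 18)) (.lf 11))), 0, [23, 11, 21, 9], [23, 11, 21, 9]⟩)
    (.lf ⟨[.ofNat 0, .ofNat 0, .ofNat 3200, .negSucc 1215], (.tr (.lf 17) (.lf 11) (.tr (.lf 2) (.tw (.dx 3 (.tw (.lf 1) (.lf 5))) (.lf 18)) (.lf 6))), 3, [17, 17, 5, 5, 13, 13, 1, 1], [17, 5, 13, 1]⟩)))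
    (.nd (.nd (.lf ⟨[.ofNat 0, .ofNat 0, .ofNat 7104, .negSucc 2063], (.tw (.lf 14) (.tr (.lf 11) (.dx 0 (.tw (.lf 13) (.lf 17))) (.tr (.lf 5) (.lf 18) (.lf 6)))), 0, [17, 17, 17, 17, 19, 7, 19, 7], [17, 17, 19, 19]⟩)
    (.lf ⟨[.ofNat 0, .ofNat 0, .ofNat 3648], (.tw (.lf 14) (.tr (.dx 0 (.tw (.lf 13) (.lf 17))) (.tr (.lf 5) (.lf 18) (.lf 6)) (.lf 11))), 0, [23, 23, 23, 23, 13, 1, 13, 1], [23, 23, 13, 13]⟩))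
    (.nd (.lf ⟨[.ofNat 0, .ofNat 0, .ofNat 1216], (.tr (.dx 3 (.tw (.lf 1) (.lf 11))) (.tr (.lf 17) (.tw (.lf 2) (.lf 5)) (.lf 18)) (.lf 6)), 3, [17, 17, 17, 17, 17, 17, 17, 17], []⟩)
    (.lf ⟨[.ofNat 0, .ofNat 0, .negSucc 6719, .ofNat 912], (.tw (.dx 3 (.tw (.lf 1) (.lf 11))) (.tr (.lf 17) (.lf 2) (.tr (.lf 5) (.lf 18) (.lf 6)))), 3, [17, 17, 13, 13, 17, 17, 13, 13], []⟩))))

/-- data -/
def dE12x23 : RT := (.nd (.nd (.nd (.lf ⟨[.ofNat 0, .negSucc 6655, .ofNat 12480, .ofNat 2000], (.tr (.dx 3 (.tw (.lf 1) (.lf 11))) (.lf 5) (.tr (.lf 17) (.tw (.lf 2) (.lf 6)) (.lf 18))), 3, [17, 13, 17, 13, 17, 13, 17, 13], []⟩)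
    (.lf ⟨[.ofNat 0, .ofNat 0, .negSucc 2047, .negSucc 799], (.tr (.dx 3 (.tw (.lf 1) (.lf 11))) (.tr (.lf 5) (.tw (.lf 2) (.lf 17)) (.lf 6)) (.lf 18)), 3, [2, 17, 2, 17, 6, 17, 6, 17], []⟩))
    (.nd (.lf ⟨[.ofNat 0, .negSucc 6655, .ofNat 18816, .ofNat 2592, .negSucc 319], (.tw (.lf 14) (.tr (.lf 11) (.dx 0 (.tw (.lf 5) (.lf 13))) (.tr (.lf 17) (.lf 6) (.lf 18)))), 0, [6, 6, 6, 6, 7, 7, 7, 7], [6, 6, 19, 19]⟩)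
    (.lf ⟨[.ofNat 0, .negSucc 6655, .ofNat 10432, .ofNat 1552], (.tr (.dx 3 (.tw (.lf 1) (.lf 5))) (.tr (.lf 2) (.tw (.lf 11) (.lf 17)) (.lf 6)) (.lf 18)), 3, [0, 0, 0, 0, 4, 4, 4, 4], [2, 21, 8, 15]⟩)))
    (.nd (.nd (.lf ⟨[.ofNat 0, .ofNat 6656, .negSucc 13055, .negSucc 447], (.tw (.dx 3 (.tw (.lf 1) (.lf 5))) (.tr (.lf 2) (.lf 11) (.tr (.lf 17) (.lf 6) (.lf 18)))), 3, [0, 0, 15, 15, 4, 4, 15, 15], [2, 2, 15, 15]⟩)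
    (.lf ⟨[.ofNat 0, .ofNat 6656, .negSucc 18431, .negSucc 3567, .ofNat 320], (.tw (.dx 3 (.tw (.lf 1) (.lf 5))) (.tr (.lf 11) (.lf 2) (.tr (.lf 17) (.lf 6) (.lf 18)))), 3, [0, 0, 19, 19, 4, 4, 19, 19], [6, 6, 19, 19]⟩))
    (.nd (.lf ⟨[.ofNat 0, .ofNat 0, .ofNat 1664, .ofNat 3360], (.tr (.dx 3 (.tw (.lf 1) (.lf 5))) (.lf 11) (.tr (.tw (.lf 2) (.lf 17)) (.lf 6) (.lf 18))), 3, [0, 1017, 1013, 13, 4, 1013, 1017, 13], [6, 17, 13, 13]⟩)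
    (.lf ⟨[.ofNat 0, .negSucc 6655, .ofNat 6784, .ofNat 496], (.tw (.dx 3 (.tw (.lf 1) (.lf 5))) (.tr (.lf 2) (.tr (.lf 17) (.lf 6) (.lf 18)) (.lf 11))), 3, [23, 23, 13, 13, 23, 23, 13, 13], [23, 23, 13, 13]⟩))))

/-- data -/
def dE12x24 : RT := (.nd (.nd (.nd (.lf ⟨[.ofNat 0, .ofNat 0, .negSucc 7551, .ofNat 1856], (.tr (.lf 11) (.tr (.dx 3 (.lf 1)) (.tr (.lf 5) (.lf 17) (.lf 6)) (.lf 2)) (.lf 18)), 3, [6, 6, 18, 18], [10, 10, 18, 18]⟩)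
    (.lf ⟨[.ofNat 0, .ofNat 0, .negSucc 1215, .ofNat 2176], (.tr (.lf 2) (.tr (.dx 3 (.lf 1)) (.tr (.lf 5) (.lf 17) (.lf 6)) (.lf 11)) (.lf 18)), 3, [0, 0, 14, 14], [0, 0, 14, 14]⟩))
    (.nd (.lf ⟨[.ofNat 0, .negSucc 6655, .ofNat 10240, .ofNat 1600], (.tw (.lf 17) (.tr (.dx 3 (.tw (.lf 1) (.lf 5))) (.tr (.lf 2) (.lf 18) (.lf 6)) (.lf 11))), 3, [23, 19, 23, 19, 5, 1, 5, 1], [23, 19, 18, 22]⟩)
    (.lf ⟨[.ofNat 0, .ofNat 0, .negSucc 2047, .negSucc 1151], (.tw (.lf 17) (.tr (.dx 3 (.tw (.lf 1) (.lf 11))) (.tr (.lf 5) (.lf 18) (.lf 6)) (.lf 2))), 3, [13, 13, 13, 13, 12, 12, 12, 12], []⟩)))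
    (.nd (.nd (.lf ⟨[.ofNat 0, .ofNat 0, .ofNat 2432], (.tw (.lf 2) (.tr (.lf 17) (.dx 3 (.tw (.lf 1) (.lf 11))) (.tr (.lf 5) (.lf 18) (.lf 6)))), 3, [21, 21, 17, 17, 12, 12, 12, 12], []⟩)
    (.lf ⟨[.ofNat 0, .ofNat 0, .ofNat 2240, .ofNat 752], (.tr (.lf 2) (.lf 5) (.tr (.lf 17) (.tw (.dx 3 (.tw (.lf 1) (.lf 11))) (.lf 6)) (.lf 18))), 3, [12, 12, 12, 12, 12, 12, 12, 12], []⟩))
    (.nd (.lf ⟨[.ofNat 0, .ofNat 0, .ofNat 5248, .negSucc 799], (.tr (.dx 3 (.tr (.lf 17) (.lf 11) (.tr (.lf 1) (.lf 18) (.lf 5)))) (.lf 2) (.lf 6)), 3, [5, 5, 5, 5], []⟩)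
    (.lf ⟨[.ofNat 0, .ofNat 0, .ofNat 4480, .ofNat 1504], (.tr (.dx 3 (.tr (.lf 17) (.lf 5) (.tr (.lf 1) (.lf 18) (.lf 11)))) (.lf 2) (.lf 6)), 3, [5, 5, 5, 5], []⟩))))

/-- data -/
def dE12 : RT := (.nd (.nd (.nd (.nd dE12x0 (.nd dE12x1 dE12x2)) (.nd dE12x3 (.nd dE12x4 dE12x5))) (.nd (.nd dE12x6 (.nd dE12x7 dE12x8)) (.nd dE12x9 (.nd dE12x10 dE12x11)))) (.nd (.nd (.nd dE12x12 (.nd dE12x13 dE12x14)) (.nd dE12x15 (.nd dE12x16 dE12x17))) (.nd (.nd dE12x18 (.nd dE12x19 dE12x20)) (.nd (.nd dE12x21 dE12x22) (.nd dE12x23 dE12x24)))))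

/-- data -/
def lE12x0 : List (ℕ × List ℤ) := [(5349, [.ofNat 0, .ofNat 0, .ofNat 0, .ofNat 42496, .negSucc 2687]),
  (5405, [.ofNat 0, .ofNat 0, .ofNat 0, .negSucc 2303, .ofNat 4800]),
  (5419, [.ofNat 0, .ofNat 0, .ofNat 0, .negSucc 32063, .ofNat 16576, .negSucc 20287]),
  (6301, [.ofNat 0, .ofNat 0, .ofNat 0, .negSucc 14591, .negSucc 1407]),
  (41701, [.ofNat 0, .ofNat 0, .ofNat 0, .ofNat 16896, .negSucc 5311, .ofNat 448]),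
  (41757, [.ofNat 0, .ofNat 0, .ofNat 0, .negSucc 5247, .negSucc 4639, .negSucc 383]),
  (41771, [.ofNat 0, .ofNat 0, .ofNat 0, .negSucc 25471, .negSucc 39327, .negSucc 575]),
  (42213, [.ofNat 0, .ofNat 0, .ofNat 0, .ofNat 3328, .negSucc 13695, .ofNat 320]),
  (42597, [.ofNat 0, .ofNat 0, .ofNat 0, .negSucc 24319, .ofNat 6528, .ofNat 320]),
  (42661, [.ofNat 0, .ofNat 0, .ofNat 0, .ofNat 17408, .negSucc 17343, .negSucc 767]),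
  (42773, [.ofNat 0, .ofNat 0, .ofNat 0, .ofNat 4864, .negSucc 831]),
  (42781, [.ofNat 0, .ofNat 0, .ofNat 0, .ofNat 31744, .negSucc 21439, .ofNat 960]),
  (43101, [.ofNat 0, .ofNat 0, .ofNat 0, .negSucc 36607, .ofNat 15744, .negSucc 319]),
  (43165, [.ofNat 0, .ofNat 0, .ofNat 0, .ofNat 29184]),
  (43179, [.ofNat 0, .ofNat 0, .ofNat 0, .ofNat 24064, .negSucc 13439, .ofNat 1920]),
  (43213, [.ofNat 0, .ofNat 0, .ofNat 0, .ofNat 20992, .ofNat 2816, .negSucc 639]),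
  (43221, [.ofNat 0, .ofNat 0, .ofNat 0, .ofNat 29184, .negSucc 4799, .ofNat 7680, .negSucc 1599]),
  (43237, [.ofNat 0, .ofNat 0, .ofNat 26624, .negSucc 79103, .ofNat 7616]),
  (43243, [.ofNat 0, .ofNat 0, .ofNat 0, .negSucc 33791, .ofNat 14208, .negSucc 639]),
  (43244, [.ofNat 0, .ofNat 0, .negSucc 26623, .ofNat 40960, .ofNat 6400]),
  (43339, [.ofNat 0, .ofNat 0, .ofNat 0, .negSucc 7935, .ofNat 320, .negSucc 127]),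
  (43356, [.ofNat 0, .ofNat 0, .negSucc 26623, .ofNat 38912, .negSucc 7807, .negSucc 255]),
  (43357, [.ofNat 0, .ofNat 0, .ofNat 0, .ofNat 52736, .negSucc 16767]),
  (49821, [.ofNat 0, .ofNat 0, .ofNat 0, .ofNat 28416, .negSucc 8255]),
  (50389, [.ofNat 0, .ofNat 0, .ofNat 0, .ofNat 86656, .negSucc 33695, .ofNat 7296, .negSucc 1599]),
  (50461, [.ofNat 0, .ofNat 0, .ofNat 0, .negSucc 10495, .ofNat 3712]),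
  (50475, [.ofNat 0, .ofNat 0, .ofNat 0, .negSucc 39679, .ofNat 19712, .negSucc 639]),
  (50525, [.ofNat 0, .ofNat 0, .ofNat 0, .ofNat 49664, .negSucc 10303]),
  (50531, [.ofNat 0, .ofNat 0, .negSucc 79871, .ofNat 240128, .negSucc 4095, .negSucc 1919]),
  (51868, [.ofNat 0, .ofNat 0, .ofNat 0, .ofNat 22784, .negSucc 16255, .negSucc 2111]),
  (51869, [.ofNat 0, .ofNat 0, .negSucc 24063, .negSucc 34815, .ofNat 38720, .ofNat 2368]),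
  (136285, [.ofNat 0, .ofNat 0, .ofNat 0, .ofNat 2944, .ofNat 36320, .negSucc 191]),
  (136477, [.ofNat 0, .ofNat 0, .negSucc 53247, .ofNat 89344, .ofNat 26048]),
  (136541, [.ofNat 0, .ofNat 0, .ofNat 0, .ofNat 5632, .negSucc 7231]),
  (312554, [.ofNat 0, .ofNat 0, .ofNat 0, .ofNat 10560, .ofNat 12432, .ofNat 1056]),
  (333099, [.ofNat 0, .ofNat 0, .ofNat 0, .ofNat 768, .ofNat 14592, .ofNat 2688]),
  (342252, [.ofNat 0, .ofNat 0, .ofNat 0, .negSucc 17535, .ofNat 8064]),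
  (342315, [.ofNat 0, .ofNat 0, .negSucc 511, .negSucc 31743, .ofNat 4096]),
  (342317, [.ofNat 0, .ofNat 0, .ofNat 0, .negSucc 8959, .negSucc 7391, .negSucc 127]),
  (342365, [.ofNat 0, .ofNat 0, .ofNat 0, .negSucc 36479, .ofNat 6656, .ofNat 320]),
  (342379, [.ofNat 0, .ofNat 0, .ofNat 512, .ofNat 31744, .negSucc 4095]),
  (344810, [.ofNat 0, .ofNat 0, .ofNat 0, .ofNat 10560, .ofNat 12432, .ofNat 1056]),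
  (344875, [.ofNat 0, .ofNat 0, .ofNat 0, .ofNat 2240, .ofNat 2256, .ofNat 32]),
  (345317, [.ofNat 0, .ofNat 0, .ofNat 0, .ofNat 9728, .negSucc 1727, .negSucc 319]),
  (345436, [.ofNat 0, .ofNat 0, .negSucc 13311, .ofNat 7424, .ofNat 3520]),
  (345443, [.ofNat 0, .ofNat 0, .negSucc 31999, .ofNat 10752, .ofNat 19264, .negSucc 1279]),
  (345899, [.ofNat 0, .ofNat 0, .ofNat 0, .ofNat 29312, .negSucc 11391, .negSucc 447]),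
  (346325, [.ofNat 0, .ofNat 0, .negSucc 13567, .ofNat 4928, .negSucc 8127, .ofNat 1600]),
  (398621, [.ofNat 0, .ofNat 0, .ofNat 13312, .ofNat 2848, .ofNat 6264, .ofNat 240]),
  (398635, [.ofNat 0, .ofNat 0, .ofNat 0, .negSucc 959, .negSucc 2255, .negSucc 31]),
  (400028, [.ofNat 0, .ofNat 0, .ofNat 0, .negSucc 7167, .negSucc 4735, .negSucc 127]),
  (403101, [.ofNat 0, .ofNat 0, .ofNat 0, .negSucc 767, .negSucc 14591, .negSucc 2687]),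
  (403229, [.ofNat 0, .ofNat 0, .ofNat 26624, .negSucc 37375, .negSucc 12287, .ofNat 320]),
  (403243, [.ofNat 0, .ofNat 0, .ofNat 0, .ofNat 9728]),
  (403285, [.ofNat 0, .ofNat 0, .ofNat 0, .negSucc 9407, .negSucc 6991, .negSucc 159]),
  (404125, [.ofNat 0, .ofNat 0, .ofNat 0, .ofNat 25664, .negSucc 1071, .ofNat 160]),
  (404173, [.ofNat 0, .ofNat 0, .ofNat 0, .negSucc 9727]),
  (410837, [.ofNat 0, .ofNat 0, .negSucc 13567, .ofNat 4928, .negSucc 8127, .ofNat 1600]),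
  (1091357, [.ofNat 0, .ofNat 0, .ofNat 0, .negSucc 17919, .ofNat 320]),
  (1091421, [.ofNat 0, .ofNat 0, .negSucc 13311, .ofNat 25344, .ofNat 3200]),
  (1091741, [.ofNat 0, .ofNat 0, .ofNat 13312, .negSucc 28895, .ofNat 8504, .ofNat 240]),
  (2501468, [.ofNat 0, .ofNat 0, .ofNat 0, .negSucc 14335, .negSucc 11263, .negSucc 255]),
  (2664221, [.ofNat 0, .ofNat 0, .negSucc 3327, .ofNat 9728, .negSucc 639]),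
  (2668716, [.ofNat 0, .ofNat 0, .negSucc 41471, .ofNat 10112, .ofNat 320]),
  (2668884, [.ofNat 0, .ofNat 0, .negSucc 41471, .ofNat 10112, .ofNat 320]),
  (2672427, [.ofNat 0, .ofNat 0, .ofNat 0, .ofNat 4352]),
  (2672469, [.ofNat 0, .ofNat 0, .negSucc 51967, .ofNat 8704, .ofNat 640]),
  (2672485, [.ofNat 0, .ofNat 0, .ofNat 0, .ofNat 9728]),
  (2673437, [.ofNat 0, .ofNat 0, .ofNat 3328, .negSucc 9599, .ofNat 320]),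
  (2701413, [.ofNat 0, .ofNat 0, .ofNat 0, .negSucc 4351]),
  (2701645, [.ofNat 0, .ofNat 0, .ofNat 0, .ofNat 4352]),
  (2701661, [.ofNat 0, .ofNat 0, .negSucc 3327, .ofNat 13696, .negSucc 319]),
  (2725653, [.ofNat 0, .ofNat 0, .negSucc 3327, .ofNat 9728, .negSucc 639]),
  (2726229, [.ofNat 0, .ofNat 0, .negSucc 3327, .ofNat 8320, .negSucc 319]),
  (2730213, [.ofNat 0, .ofNat 0, .negSucc 3327, .ofNat 6784, .ofNat 320]),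
  (2736980, [.ofNat 0, .ofNat 0, .negSucc 3327, .ofNat 8320, .negSucc 319]),
  (2737501, [.ofNat 0, .ofNat 0, .negSucc 27647, .negSucc 383, .ofNat 960]),
  (2737772, [.ofNat 0, .ofNat 0, .negSucc 13823, .ofNat 7936]),
  (2737836, [.ofNat 0, .ofNat 0, .ofNat 27648, .negSucc 2175, .negSucc 319]),
  (2738844, [.ofNat 0, .ofNat 0, .negSucc 13823, .ofNat 6912]),
  (2738845, [.ofNat 0, .ofNat 0, .ofNat 13824, .negSucc 6911]),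
  (2758429, [.ofNat 0, .ofNat 0, .negSucc 3327, .ofNat 9344, .negSucc 319]),
  (2758493, [.ofNat 0, .ofNat 0, .ofNat 27648, .negSucc 15871]),
  (2758501, [.ofNat 0, .ofNat 0, .ofNat 0, .ofNat 9728]),
  (2758995, [.ofNat 0, .ofNat 0, .negSucc 3327, .ofNat 11136, .ofNat 320]),
  (2759019, [.ofNat 0, .ofNat 0, .negSucc 3199, .negSucc 4511, .negSucc 63]),
  (2759324, [.ofNat 0, .ofNat 0, .ofNat 3328, .negSucc 8319, .ofNat 320]),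
  (2759381, [.ofNat 0, .ofNat 0, .ofNat 3328, .negSucc 8319, .ofNat 320]),
  (2761445, [.ofNat 0, .ofNat 0, .negSucc 3327, .ofNat 9344, .negSucc 319]),
  (2761564, [.ofNat 0, .ofNat 0, .negSucc 51967, .ofNat 8704, .ofNat 640]),
  (2762341, [.ofNat 0, .ofNat 0, .ofNat 10496, .ofNat 1408, .negSucc 319]),
  (2762348, [.ofNat 0, .ofNat 0, .negSucc 3327, .ofNat 8320, .negSucc 319]),
  (2762525, [.ofNat 0, .ofNat 0, .ofNat 0, .ofNat 3456, .negSucc 319]),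
  (2762957, [.ofNat 0, .ofNat 0, .negSucc 13823, .ofNat 7936]),
  (2763356, [.ofNat 0, .ofNat 0, .negSucc 13823, .ofNat 7936]),
  (2763468, [.ofNat 0, .ofNat 0, .negSucc 3327, .ofNat 9344, .negSucc 319]),
  (2763531, [.ofNat 0, .ofNat 0, .negSucc 3327, .ofNat 9344, .negSucc 319]),
  (2763545, [.ofNat 0, .ofNat 0, .negSucc 3327, .ofNat 9344, .negSucc 319]),
  (2763549, [.ofNat 0, .ofNat 0, .ofNat 13312, .negSucc 24319, .negSucc 255]),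
  (2766156, [.ofNat 0, .ofNat 0, .ofNat 3328, .negSucc 8319, .ofNat 320])]

/-- data -/
def lE12x1 : List (ℕ × List ℤ) := [(2766941, [.ofNat 0, .ofNat 0, .negSucc 10495, .negSucc 1407, .ofNat 320]),
  (2767019, [.ofNat 0, .ofNat 0, .ofNat 27648, .ofNat 384, .negSucc 959]),
  (2767053, [.ofNat 0, .ofNat 0, .negSucc 13823, .ofNat 7936]),
  (2767061, [.ofNat 0, .ofNat 0, .negSucc 27647, .ofNat 2176, .ofNat 320]),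
  (2767179, [.ofNat 0, .ofNat 0, .ofNat 0, .negSucc 4351]),
  (2767194, [.ofNat 0, .ofNat 0, .ofNat 3328, .negSucc 9343, .ofNat 320]),
  (2767565, [.ofNat 0, .ofNat 0, .ofNat 3328, .negSucc 9343, .ofNat 320]),
  (2774108, [.ofNat 0, .ofNat 0, .ofNat 41472, .negSucc 10111, .negSucc 319]),
  (2774109, [.ofNat 0, .ofNat 0, .negSucc 41471, .ofNat 10112, .ofNat 320]),
  (2774243, [.ofNat 0, .ofNat 0, .ofNat 27648, .negSucc 2175, .negSucc 319]),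
  (2774315, [.ofNat 0, .ofNat 0, .ofNat 27808, .ofNat 4768, .ofNat 10400]),
  (2774371, [.ofNat 0, .ofNat 0, .negSucc 27807, .negSucc 4767, .negSucc 10399]),
  (2775133, [.ofNat 0, .ofNat 0, .ofNat 3328, .negSucc 9599, .ofNat 320]),
  (3188501, [.ofNat 0, .ofNat 0, .ofNat 41472, .negSucc 10111, .negSucc 319]),
  (3188907, [.ofNat 0, .ofNat 0, .ofNat 0, .ofNat 3456, .negSucc 319]),
  (3189460, [.ofNat 0, .ofNat 0, .negSucc 13823, .ofNat 7936]),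
  (3196117, [.ofNat 0, .ofNat 0, .negSucc 41471, .ofNat 10112, .ofNat 320]),
  (3229341, [.ofNat 0, .ofNat 0, .negSucc 41471, .ofNat 10112, .ofNat 320]),
  (3286869, [.ofNat 0, .ofNat 0, .ofNat 3200, .ofNat 4512, .ofNat 64]),
  (3319581, [.ofNat 0, .ofNat 0, .ofNat 9984, .negSucc 11391, .negSucc 2111]),
  (3319644, [.ofNat 0, .ofNat 0, .negSucc 9983, .ofNat 11392, .ofNat 2112]),
  (3319965, [.ofNat 0, .ofNat 0, .ofNat 13312, .negSucc 24319, .negSucc 255]),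
  (19539755, [.ofNat 0, .ofNat 0, .ofNat 5824, .negSucc 2863, .negSucc 255]),
  (19539811, [.ofNat 0, .ofNat 0, .ofNat 9920, .ofNat 1040, .negSucc 575]),
  (19999580, [.ofNat 0, .ofNat 0, .ofNat 7168, .ofNat 5632, .ofNat 128]),
  (20003050, [.ofNat 0, .ofNat 0, .ofNat 15808, .ofNat 7568, .negSucc 447]),
  (20006571, [.ofNat 0, .ofNat 0, .negSucc 16895, .negSucc 8639, .ofNat 192]),
  (20010730, [.ofNat 0, .ofNat 0, .ofNat 17664, .ofNat 20672, .ofNat 704]),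
  (20010842, [.ofNat 0, .ofNat 0, .ofNat 8832, .ofNat 10336, .ofNat 352]),
  (20011740, [.ofNat 0, .ofNat 0, .ofNat 7168, .ofNat 5632, .ofNat 128]),
  (20104538, [.ofNat 0, .ofNat 0, .ofNat 9600, .ofNat 5632, .ofNat 128]),
  (21317419, [.ofNat 0, .ofNat 0, .ofNat 19648, .negSucc 12975, .negSucc 2527]),
  (21318371, [.ofNat 0, .ofNat 0, .negSucc 13247, .ofNat 3120, .negSucc 31]),
  (21349605, [.ofNat 0, .ofNat 0, .negSucc 6783, .negSucc 2015, .negSucc 63]),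
  (21350053, [.ofNat 0, .ofNat 0, .negSucc 6783, .negSucc 2015, .negSucc 63]),
  (21379741, [.ofNat 0, .ofNat 0, .ofNat 960, .ofNat 2256, .ofNat 32]),
  (21379797, [.ofNat 0, .ofNat 0, .negSucc 7167, .negSucc 4735, .negSucc 127]),
  (21386475, [.ofNat 0, .ofNat 0, .ofNat 11776, .ofNat 13056, .ofNat 256]),
  (21386923, [.ofNat 0, .ofNat 0, .ofNat 12736, .ofNat 15312, .ofNat 288]),
  (21805357, [.ofNat 0, .ofNat 0, .ofNat 8960, .ofNat 7392, .ofNat 128]),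
  (21840683, [.ofNat 0, .ofNat 0, .ofNat 960, .ofNat 2256, .ofNat 32]),
  (21842525, [.ofNat 0, .ofNat 0, .ofNat 6784, .ofNat 2016, .ofNat 64]),
  (21842637, [.ofNat 0, .ofNat 0, .ofNat 6784, .ofNat 2016, .ofNat 64]),
  (21895962, [.ofNat 0, .ofNat 0, .negSucc 5887, .negSucc 6527, .negSucc 127]),
  (21895965, [.ofNat 0, .ofNat 0, .negSucc 4863, .ofNat 704]),
  (21900005, [.ofNat 0, .ofNat 0, .negSucc 23551, .ofNat 1920]),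
  (21900012, [.ofNat 0, .ofNat 0, .ofNat 15872, .negSucc 1119]),
  (21900061, [.ofNat 0, .ofNat 0, .negSucc 2431]),
  (21902122, [.ofNat 0, .ofNat 0, .negSucc 4095, .negSucc 3903, .ofNat 320]),
  (21903980, [.ofNat 0, .ofNat 0, .ofNat 2432, .negSucc 4351]),
  (21904044, [.ofNat 0, .ofNat 0, .ofNat 15104, .negSucc 3711]),
  (21910293, [.ofNat 0, .ofNat 0, .negSucc 15871, .ofNat 1824]),
  (21910301, [.ofNat 0, .ofNat 0, .negSucc 4863, .ofNat 704]),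
  (21910797, [.ofNat 0, .ofNat 0, .negSucc 15871, .ofNat 1824]),
  (21910813, [.ofNat 0, .ofNat 0, .ofNat 11264, .negSucc 3199]),
  (21912162, [.ofNat 0, .ofNat 0, .ofNat 16256, .negSucc 1919]),
  (22067045, [.ofNat 0, .ofNat 0, .negSucc 9599, .negSucc 5631, .negSucc 127]),
  (22067869, [.ofNat 0, .ofNat 0, .ofNat 2816]),
  (22067925, [.ofNat 0, .ofNat 0, .ofNat 2816]),
  (22067946, [.ofNat 0, .ofNat 0, .ofNat 1088, .negSucc 9295, .negSucc 927]),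
  (22067948, [.ofNat 0, .ofNat 0, .ofNat 2432]),
  (22071125, [.ofNat 0, .ofNat 0, .negSucc 10623, .ofNat 672]),
  (22074597, [.ofNat 0, .ofNat 0, .ofNat 5248, .negSucc 799]),
  (22074716, [.ofNat 0, .ofNat 13312, .negSucc 15231, .negSucc 4351]),
  (22074723, [.ofNat 0, .ofNat 13312, .negSucc 23423, .negSucc 9663, .ofNat 640]),
  (22075179, [.ofNat 0, .ofNat 0, .negSucc 2431]),
  (22075549, [.ofNat 0, .ofNat 0, .negSucc 2431]),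
  (22075563, [.ofNat 0, .negSucc 13311, .ofNat 33536, .ofNat 3072, .negSucc 319]),
  (22091619, [.ofNat 0, .ofNat 0, .ofNat 5888, .ofNat 6528, .ofNat 128]),
  (22098787, [.ofNat 0, .ofNat 0, .ofNat 5888, .ofNat 6528, .ofNat 128]),
  (22099788, [.ofNat 0, .ofNat 0, .negSucc 4095, .negSucc 3903, .ofNat 320]),
  (22100299, [.ofNat 0, .ofNat 0, .negSucc 5951, .ofNat 976, .ofNat 640]),
  (22100747, [.ofNat 0, .ofNat 0, .negSucc 9919, .negSucc 1039, .ofNat 576]),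
  (22103885, [.ofNat 0, .ofNat 13312, .negSucc 22911, .negSucc 3199]),
  (22104669, [.ofNat 0, .ofNat 0, .ofNat 2432]),
  (22104781, [.ofNat 0, .ofNat 0, .ofNat 2432]),
  (22106923, [.ofNat 0, .ofNat 13312, .negSucc 29055, .negSucc 1919, .ofNat 320]),
  (22106972, [.ofNat 0, .ofNat 13312, .negSucc 7423, .negSucc 3519]),
  (22106979, [.ofNat 0, .ofNat 26624, .negSucc 52479, .negSucc 11583, .ofNat 960]),
  (22107756, [.ofNat 0, .ofNat 0, .negSucc 767, .ofNat 2304]),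
  (22107917, [.ofNat 0, .ofNat 0, .negSucc 2431, .ofNat 352]),
  (22107947, [.ofNat 0, .ofNat 0, .ofNat 0, .negSucc 703]),
  (22107980, [.ofNat 0, .ofNat 0, .ofNat 0, .negSucc 1407]),
  (22108003, [.ofNat 0, .ofNat 0, .ofNat 9728, .negSucc 1727, .negSucc 319]),
  (22124883, [.ofNat 0, .ofNat 0, .negSucc 9855, .negSucc 8543, .negSucc 191]),
  (22125331, [.ofNat 0, .ofNat 0, .negSucc 9855, .negSucc 8543, .negSucc 191]),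
  (22129245, [.ofNat 0, .ofNat 0, .ofNat 6784, .ofNat 2016, .ofNat 64]),
  (22129357, [.ofNat 0, .ofNat 0, .ofNat 6784, .ofNat 2016, .ofNat 64]),
  (22129419, [.ofNat 0, .ofNat 0, .negSucc 9855, .negSucc 8543, .negSucc 191]),
  (22135530, [.ofNat 0, .ofNat 0, .negSucc 16895, .negSucc 8639, .ofNat 192]),
  (22136141, [.ofNat 0, .ofNat 0, .ofNat 0, .ofNat 1408]),
  (22136426, [.ofNat 0, .ofNat 0, .negSucc 9919, .negSucc 1039, .ofNat 576]),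
  (22137437, [.ofNat 0, .negSucc 13311, .ofNat 26112, .ofNat 896]),
  (22137549, [.ofNat 0, .negSucc 13311, .ofNat 26112, .ofNat 896]),
  (22137557, [.ofNat 0, .ofNat 0, .ofNat 13440, .negSucc 2527]),
  (22139691, [.ofNat 0, .ofNat 0, .ofNat 4864]),
  (22140012, [.ofNat 0, .ofNat 0, .ofNat 4480, .ofNat 1504]),
  (22140140, [.ofNat 0, .ofNat 13312, .negSucc 25727, .negSucc 2399]),
  (22140522, [.ofNat 0, .ofNat 0, .ofNat 15808, .ofNat 7568, .negSucc 447]),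
  (22140581, [.ofNat 0, .ofNat 0, .negSucc 26751, .ofNat 4928])]

/-- data -/
def lE12x2 : List (ℕ × List ℤ) := [(22140588, [.ofNat 0, .ofNat 13312, .negSucc 20479, .negSucc 3199]),
  (22140748, [.ofNat 0, .ofNat 0, .ofNat 2432, .negSucc 351]),
  (22141141, [.ofNat 0, .ofNat 0, .negSucc 12927, .ofNat 1600]),
  (22189404, [.ofNat 0, .ofNat 0, .ofNat 4480, .ofNat 1504]),
  (22189731, [.ofNat 0, .ofNat 0, .ofNat 5888, .ofNat 6528, .ofNat 128]),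
  (22190314, [.ofNat 0, .ofNat 0, .ofNat 768, .negSucc 2303]),
  (22190426, [.ofNat 0, .ofNat 0, .negSucc 2431]),
  (22190755, [.ofNat 0, .negSucc 13311, .ofNat 42880, .negSucc 1407, .negSucc 319]),
  (22193949, [.ofNat 0, .ofNat 0, .ofNat 6912, .ofNat 800]),
  (22194012, [.ofNat 0, .ofNat 13312, .negSucc 5503, .negSucc 8927]),
  (22194283, [.ofNat 0, .negSucc 13311, .ofNat 43264, .negSucc 2559, .negSucc 319]),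
  (22194411, [.ofNat 0, .ofNat 0, .negSucc 4479, .negSucc 447]),
  (22194915, [.ofNat 0, .ofNat 0, .negSucc 16895, .ofNat 7104, .negSucc 319]),
  (22197076, [.ofNat 0, .ofNat 0, .ofNat 768, .negSucc 2303]),
  (22197091, [.ofNat 0, .ofNat 0, .ofNat 2432]),
  (22197580, [.ofNat 0, .ofNat 0, .ofNat 5248, .negSucc 799]),
  (22197596, [.ofNat 0, .ofNat 13312, .negSucc 25727, .negSucc 2399]),
  (22201066, [.ofNat 0, .ofNat 0, .negSucc 9599, .negSucc 5631, .negSucc 127]),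
  (25511581, [.ofNat 0, .ofNat 0, .ofNat 11232, .negSucc 1911, .ofNat 16]),
  (25511765, [.ofNat 0, .ofNat 0, .ofNat 2048, .ofNat 800]),
  (25511773, [.ofNat 0, .negSucc 13311, .ofNat 9472, .ofNat 4320]),
  (25512605, [.ofNat 0, .ofNat 0, .ofNat 3200, .negSucc 127]),
  (25512619, [.ofNat 0, .ofNat 0, .negSucc 5631, .ofNat 3200, .negSucc 319]),
  (25512661, [.ofNat 0, .ofNat 0, .ofNat 11008, .negSucc 1823]),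
  (25516189, [.ofNat 0, .ofNat 0, .negSucc 14207, .ofNat 4128]),
  (25569949, [.ofNat 0, .ofNat 0, .negSucc 2431, .ofNat 4352]),
  (25601890, [.ofNat 0, .ofNat 0, .negSucc 4863]),
  (25602205, [.ofNat 0, .ofNat 0, .negSucc 3199, .ofNat 2304]),
  (25602261, [.ofNat 0, .ofNat 0, .ofNat 8576, .negSucc 3231]),
  (25737061, [.ofNat 0, .ofNat 0, .negSucc 9599, .negSucc 5631, .negSucc 127]),
  (25737578, [.ofNat 0, .ofNat 0, .ofNat 16256, .negSucc 1919]),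
  (25737964, [.ofNat 0, .ofNat 0, .ofNat 14208, .negSucc 4127]),
  (25740957, [.ofNat 0, .ofNat 0, .ofNat 25600, .ofNat 9472, .ofNat 256]),
  (25741141, [.ofNat 0, .ofNat 0, .negSucc 10623, .ofNat 672]),
  (25741981, [.ofNat 0, .ofNat 0, .ofNat 8832, .negSucc 2431]),
  (25741995, [.ofNat 0, .ofNat 13312, .negSucc 25343, .negSucc 3199]),
  (25742037, [.ofNat 0, .ofNat 0, .negSucc 2431]),
  (25744669, [.ofNat 0, .ofNat 0, .negSucc 9343, .ofNat 4832]),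
  (25744732, [.ofNat 0, .ofNat 13312, .negSucc 15231, .negSucc 4351]),
  (25744739, [.ofNat 0, .ofNat 13312, .negSucc 37631, .negSucc 5183, .ofNat 640]),
  (25745052, [.ofNat 0, .ofNat 0, .ofNat 6080, .negSucc 7855, .negSucc 95]),
  (25770701, [.ofNat 0, .ofNat 0, .ofNat 4096, .ofNat 3904, .negSucc 319]),
  (25793835, [.ofNat 0, .ofNat 0, .negSucc 5887, .negSucc 6527, .negSucc 127]),
  (25794389, [.ofNat 0, .ofNat 0, .ofNat 6208, .ofNat 2480, .ofNat 96]),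
  (25798477, [.ofNat 0, .ofNat 0, .negSucc 6399, .ofNat 9856, .ofNat 2560]),
  (25799260, [.ofNat 0, .ofNat 0, .ofNat 6080, .negSucc 7855, .negSucc 95]),
  (25799261, [.ofNat 0, .ofNat 0, .negSucc 20671, .negSucc 5199, .negSucc 159]),
  (25799373, [.ofNat 0, .ofNat 0, .negSucc 20671, .negSucc 5199, .negSucc 159]),
  (25802060, [.ofNat 0, .ofNat 0, .negSucc 1983, .ofNat 11760, .negSucc 223]),
  (25802061, [.ofNat 0, .ofNat 0, .ofNat 1984, .negSucc 11759, .ofNat 224]),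
  (25806669, [.ofNat 0, .negSucc 26623, .ofNat 47104, .ofNat 10560, .negSucc 639]),
  (25806677, [.ofNat 0, .ofNat 0, .negSucc 9727, .ofNat 1728, .ofNat 320]),
  (25807531, [.ofNat 0, .negSucc 26623, .ofNat 66304, .ofNat 8256, .negSucc 959]),
  (25807594, [.ofNat 0, .negSucc 13311, .ofNat 23424, .ofNat 9664, .negSucc 639]),
  (25809685, [.ofNat 0, .ofNat 0, .ofNat 3200, .negSucc 2303]),
  (25809693, [.ofNat 0, .ofNat 0, .negSucc 10239, .ofNat 576]),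
  (25809706, [.ofNat 0, .ofNat 0, .ofNat 7296]),
  (25810189, [.ofNat 0, .ofNat 0, .ofNat 13440, .negSucc 2175]),
  (25810219, [.ofNat 0, .ofNat 13312, .negSucc 33535, .negSucc 3071, .ofNat 320]),
  (25810701, [.ofNat 0, .ofNat 0, .ofNat 0, .ofNat 704]),
  (25811178, [.ofNat 0, .ofNat 13312, .negSucc 43263, .ofNat 2560, .ofNat 320]),
  (25811554, [.ofNat 0, .ofNat 0, .ofNat 5632, .negSucc 3711]),
  (25827178, [.ofNat 0, .ofNat 0, .ofNat 5632, .negSucc 3711]),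
  (25832141, [.ofNat 0, .ofNat 0, .ofNat 2432, .ofNat 352]),
  (25834845, [.ofNat 0, .negSucc 13311, .ofNat 4608, .ofNat 5024]),
  (25836117, [.ofNat 0, .ofNat 13312, .negSucc 15231, .negSucc 4351]),
  (25836125, [.ofNat 0, .ofNat 0, .ofNat 0, .negSucc 1407]),
  (25836173, [.ofNat 0, .ofNat 13312, .negSucc 15231, .negSucc 4351]),
  (25836189, [.ofNat 0, .ofNat 0, .negSucc 8959, .ofNat 4032]),
  (25836245, [.ofNat 0, .ofNat 13312, .negSucc 28671, .ofNat 2720]),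
  (25859357, [.ofNat 0, .ofNat 0, .negSucc 5759, .ofNat 1728]),
  (25859420, [.ofNat 0, .ofNat 0, .negSucc 383, .ofNat 800]),
  (25859883, [.ofNat 0, .ofNat 0, .ofNat 14592, .negSucc 5631]),
  (25860309, [.ofNat 0, .ofNat 0, .ofNat 10240, .ofNat 128]),
  (25860820, [.ofNat 0, .ofNat 0, .negSucc 1663, .negSucc 3359]),
  (25862892, [.ofNat 0, .ofNat 13312, .negSucc 11135, .negSucc 7327]),
  (25862955, [.ofNat 0, .negSucc 13311, .ofNat 29056, .ofNat 1920, .negSucc 319]),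
  (25863949, [.ofNat 0, .ofNat 0, .ofNat 10240, .ofNat 128]),
  (25864035, [.ofNat 0, .ofNat 13312, .negSucc 29055, .negSucc 1919, .ofNat 320]),
  (25867037, [.ofNat 0, .ofNat 0, .ofNat 10240, .ofNat 128]),
  (25867107, [.ofNat 0, .ofNat 0, .ofNat 13824, .negSucc 3327]),
  (25867533, [.ofNat 0, .ofNat 0, .ofNat 13440, .negSucc 2175]),
  (25868381, [.ofNat 0, .ofNat 0, .ofNat 10240, .ofNat 128]),
  (25868429, [.ofNat 0, .ofNat 0, .negSucc 11391, .ofNat 3328]),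
  (25868493, [.ofNat 0, .ofNat 0, .negSucc 12159, .ofNat 5984]),
  (25868940, [.ofNat 0, .ofNat 0, .ofNat 0, .negSucc 1407]),
  (25869004, [.ofNat 0, .negSucc 13311, .ofNat 22912, .ofNat 3200]),
  (25871005, [.ofNat 0, .ofNat 0, .ofNat 768, .negSucc 2303]),
  (25871061, [.ofNat 0, .ofNat 0, .ofNat 2432, .ofNat 352]),
  (26519709, [.ofNat 0, .ofNat 0, .negSucc 7295]),
  (26520220, [.ofNat 0, .ofNat 0, .ofNat 896, .ofNat 2432]),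
  (26548060, [.ofNat 0, .ofNat 13312, .negSucc 11135, .negSucc 7327]),
  (26548892, [.ofNat 0, .ofNat 0, .negSucc 8831, .ofNat 2432]),
  (26559133, [.ofNat 0, .ofNat 0, .negSucc 4095, .negSucc 2303]),
  (26559189, [.ofNat 0, .ofNat 0, .ofNat 2432, .ofNat 352]),
  (26563676, [.ofNat 0, .ofNat 0, .ofNat 11776, .negSucc 4127]),
  (69778077, [.ofNat 0, .ofNat 0, .negSucc 3135, .negSucc 13295, .negSucc 223]),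
  (69778133, [.ofNat 0, .ofNat 0, .ofNat 11232, .negSucc 1911, .ofNat 16]),
  (69846365, [.ofNat 0, .negSucc 13311, .ofNat 37632, .ofNat 5184, .negSucc 639]),
  (69846869, [.ofNat 0, .ofNat 0, .ofNat 17920, .negSucc 319])]

/-- data -/
def lE12x3 : List (ℕ × List ℤ) := [(69867349, [.ofNat 0, .ofNat 0, .negSucc 5247, .ofNat 2208]),
  (69868245, [.ofNat 0, .ofNat 0, .ofNat 0, .ofNat 704]),
  (69871437, [.ofNat 0, .ofNat 0, .ofNat 12672, .ofNat 1888]),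
  (69872221, [.ofNat 0, .ofNat 0, .ofNat 13056, .negSucc 319]),
  (69872333, [.ofNat 0, .ofNat 0, .ofNat 13440, .negSucc 415]),
  (69874517, [.ofNat 0, .ofNat 13312, .negSucc 35199, .negSucc 3775, .ofNat 640]),
  (69874525, [.ofNat 0, .ofNat 0, .negSucc 4095, .negSucc 1599]),
  (69875021, [.ofNat 0, .ofNat 13312, .negSucc 35199, .negSucc 3775, .ofNat 640]),
  (69875037, [.ofNat 0, .negSucc 13311, .ofNat 33536, .ofNat 3584, .negSucc 639]),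
  (69899549, [.ofNat 0, .ofNat 0, .ofNat 3200, .negSucc 2303]),
  (69900445, [.ofNat 0, .ofNat 0, .ofNat 18688, .negSucc 1215]),
  (69900501, [.ofNat 0, .ofNat 0, .ofNat 13440, .negSucc 1119]),
  (69907229, [.ofNat 0, .ofNat 0, .negSucc 13439, .ofNat 1120]),
  (69907725, [.ofNat 0, .ofNat 0, .ofNat 3200, .negSucc 2303]),
  (69907741, [.ofNat 0, .ofNat 0, .negSucc 15103, .negSucc 1887]),
  (75830957, [.ofNat 0, .ofNat 0, .ofNat 8960, .ofNat 7392, .ofNat 128]),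
  (156318059, [.ofNat 0, .ofNat 4096, .ofNat 3904, .negSucc 319]),
  (160052587, [.ofNat 0, .ofNat 8960, .ofNat 4608, .negSucc 319]),
  (170539371, [.ofNat 0, .negSucc 6399, .ofNat 9856, .ofNat 2560]),
  (170539875, [.ofNat 0, .negSucc 6399, .ofNat 9856, .ofNat 2560]),
  (175217002, [.ofNat 0, .negSucc 13567, .negSucc 12031, .ofNat 10688]),
  (175217506, [.ofNat 0, .negSucc 17663, .negSucc 15935, .ofNat 11008]),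
  (176854883, [.ofNat 0, .ofNat 2688, .ofNat 23552, .negSucc 3327]),
  (176862051, [.ofNat 0, .ofNat 2688, .ofNat 23552, .negSucc 3327]),
  (176999069, [.ofNat 0, .ofNat 12160, .ofNat 5376, .ofNat 832]),
  (176999125, [.ofNat 0, .ofNat 12160, .ofNat 5376, .ofNat 832]),
  (177084266, [.ofNat 0, .ofNat 8960, .ofNat 4608, .negSucc 319]),
  (205900445, [.ofNat 0, .negSucc 127, .negSucc 6015, .ofNat 96]),
  (205900501, [.ofNat 0, .negSucc 127, .negSucc 6015, .ofNat 96]),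
  (211068573, [.ofNat 0, .ofNat 6400, .negSucc 12159, .negSucc 1791]),
  (211068629, [.ofNat 0, .negSucc 17663, .negSucc 18239, .ofNat 11776]),
  (213165724, [.ofNat 0, .negSucc 6399, .ofNat 12160, .ofNat 1792]),
  (213165780, [.ofNat 0, .ofNat 17664, .ofNat 18240, .negSucc 11775])]

/-- the sum of the part -/
def lE12 : List (ℕ × List ℤ) := lE12x0 ++ (lE12x1 ++ (lE12x2 ++ (lE12x3)))

theorem okE12 : dE12.all (rok tbE 12) = true := by decide +kernel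

theorem sumE12 : aeq (fz (sumT tbE dE12)) lE12 = true := by decide +kernel

end Pool.Agent.H.MP_e16c79_al.IS
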