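import Pool.Agent.H.MP_e16c79_al.IS.BTabE

/-!
# MP_e16c79_al: certificate E, part 13
-/

set_option autoImplicit false

namespace Pool.Agent.H.MP_e16c79_al.IS

/-- data -/
def dE13x0 : RT := (.nd (.nd (.nd (.lf ⟨[.ofNat 0, .ofNat 0, .negSucc 3455, .negSucc 399], (.tr (.dx 3 (.lf 17)) (.tw (.lf 11) (.tr (.lf 1) (.tw (.lf 5) (.lf 6)) (.lf 2))) (.lf 18)), 3, [13, 13, 13, 13, 19, 19, 19, 19], [13, 13, 13, 13, 0, 0, 0, 0]⟩)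
    (.lf ⟨[.ofNat 0, .ofNat 0, .ofNat 608], (.tr (.lf 18) (.lf 11) (.tw (.dx 3 (.lf 17)) (.tr (.lf 1) (.tw (.lf 5) (.lf 6)) (.lf 2)))), 3, [1, 1, 1, 1, 18, 18, 18, 18], [1, 1, 1, 1, 1, 1, 1, 1]⟩))
    (.nd (.lf ⟨[.ofNat 0, .ofNat 0, .ofNat 2432], (.tr (.lf 18) (.lf 11) (.tr (.lf 1) (.lf 5) (.tr (.dx 3 (.lf 17)) (.lf 2) (.lf 6)))), 3, [5, 18, 1, 1], [5, 1, 1, 1]⟩)
    (.lf ⟨[.ofNat 0, .ofNat 0, .negSucc 1663, .ofNat 4864, .negSucc 319], (.tr (.lf 18) (.lf 11) (.tr (.lf 1) (.tr (.lf 2) (.dx 3 (.lf 17)) (.lf 5)) (.lf 6))), 3, [5, 5, 1, 1], [5, 5, 1, 1]⟩)))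
    (.nd (.nd (.lf ⟨[.ofNat 0, .ofNat 832, .negSucc 2431, .ofNat 160], (.tr (.lf 13) (.dx 0 .on) (.tr (.lf 5) (.tr (.lf 6) (.tr (.lf 17) (.lf 14) (.lf 18)) (.lf 9)) (.lf 10))), 0, [23, 23, 23, 23, 21, 21, 21, 21], [23, 23, 23, 23, 21, 21, 21, 21]⟩)
    (.lf ⟨[.ofNat 0, .ofNat 832, .negSucc 2431, .ofNat 160], (.tr (.lf 1) (.lf 2) (.tr (.dx 3 (.lf 17)) (.tr (.tw (.lf 5) (.lf 6)) (.lf 9) (.lf 10)) (.lf 18))), 3, [0, 0, 2, 2, 12, 12, 14, 14], [0, 0, 2, 2, 12, 12, 14, 14]⟩))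
    (.nd (.lf ⟨[.ofNat 0, .ofNat 0, .ofNat 32, .negSucc 79], (.tr (.dx 3 (.lf 17)) (.tr (.lf 1) (.lf 18) (.tr (.tw (.lf 5) (.lf 6)) (.lf 9) (.lf 10))) (.lf 2)), 3, [15, 15, 13, 13, 15, 15, 13, 13], [15, 15, 13, 13, 15, 15, 13, 13]⟩)
    (.lf ⟨[.ofNat 0, .ofNat 832, .negSucc 2431, .ofNat 160], (.tr (.dx 3 (.lf 17)) (.lf 1) (.tr (.lf 2) (.tr (.tw (.lf 5) (.lf 6)) (.lf 9) (.lf 10)) (.lf 18))), 3, [23, 23, 21, 21, 15, 15, 13, 13], [1023, 1023, 1017, 1017, 15, 15, 13, 13]⟩))))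

/-- data -/
def dE13x1 : RT := (.nd (.nd (.nd (.lf ⟨[.ofNat 0, .ofNat 0, .negSucc 4863], (.tr (.lf 1) (.lf 5) (.tr (.lf 18) (.lf 11) (.tr (.dx 3 (.lf 17)) (.lf 2) (.lf 6)))), 3, [12, 12, 0, 0], [1017, 12, 0, 0]⟩)
    (.lf ⟨[.ofNat 0, .ofNat 0, .ofNat 384, .negSucc 1151], (.tr (.dx 3 (.tr (.lf 1) (.tw (.lf 2) (.lf 17)) (.lf 11))) (.tw (.lf 5) (.lf 6)) (.lf 18)), 3, [1017, 1017, 21, 21, 17, 17, 17, 17], []⟩))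
    (.nd (.lf ⟨[.ofNat 0, .ofNat 0, .ofNat 384, .negSucc 1503], (.tr (.dx 3 (.tr (.lf 1) (.lf 2) (.tr (.lf 5) (.lf 11) (.lf 17)))) (.lf 6) (.lf 18)), 3, [0, 2, 8, 17], []⟩)
    (.lf ⟨[.ofNat 0, .ofNat 0, .ofNat 384, .negSucc 799], (.tr (.dx 3 (.tr (.lf 1) (.tr (.lf 2) (.lf 17) (.lf 11)) (.lf 5))) (.lf 6) (.lf 18)), 3, [2, 2, 4, 8], []⟩)))
    (.nd (.nd (.lf ⟨[.ofNat 0, .ofNat 0, .negSucc 383, .ofNat 1504], (.tr (.lf 14) (.lf 17) (.tr (.lf 11) (.dx 0 (.tr (.lf 5) (.lf 6) (.lf 13))) (.lf 18))), 0, [13, 13, 7, 7], []⟩)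
    (.lf ⟨[.ofNat 0, .ofNat 0, .ofNat 192, .negSucc 751], (.tw (.lf 11) (.tr (.dx 0 (.tr (.lf 5) (.lf 6) (.lf 13))) (.tw (.lf 17) (.lf 18)) (.lf 14))), 0, [6, 6, 6, 6, 1, 1, 1, 1], []⟩))
    (.nd (.lf ⟨[.ofNat 0, .ofNat 0, .ofNat 20736, .negSucc 415], (.tr (.dx 0 (.tr (.lf 5) (.lf 6) (.lf 13))) (.lf 17) (.tr (.lf 11) (.lf 14) (.lf 18))), 0, [0, 0, 0, 0], []⟩)
    (.lf ⟨[.ofNat 0, .ofNat 0, .negSucc 4095, .negSucc 1599], (.tr (.dx 0 (.tr (.lf 5) (.lf 6) (.lf 13))) (.tr (.lf 14) (.lf 11) (.lf 17)) (.lf 18)), 0, [0, 0, 0, 0], []⟩))))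

/-- data -/
def dE13x2 : RT := (.nd (.nd (.nd (.lf ⟨[.ofNat 0, .ofNat 0, .ofNat 4864], (.tr (.dx 0 (.tr (.lf 5) (.lf 6) (.lf 13))) (.lf 14) (.tr (.lf 11) (.lf 17) (.lf 18))), 0, [0, 0, 0, 0], []⟩)
    (.lf ⟨[.ofNat 0, .ofNat 0, .negSucc 4863], (.tr (.lf 11) (.lf 14) (.tr (.dx 0 (.tr (.lf 5) (.lf 6) (.lf 13))) (.lf 17) (.lf 18))), 0, [6, 6, 1, 1], []⟩))
    (.nd (.lf ⟨[.ofNat 0, .ofNat 0, .negSucc 383, .ofNat 800], (.tw (.dx 0 (.tr (.lf 5) (.lf 6) (.lf 13))) (.tr (.lf 14) (.lf 11) (.tw (.lf 17) (.lf 18)))), 0, [0, 0, 0, 0, 0, 0, 0, 0], []⟩)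
    (.lf ⟨[.ofNat 0, .ofNat 0, .ofNat 4864], (.tr (.lf 11) (.dx 3 (.tr (.lf 1) (.lf 2) (.lf 5))) (.tr (.lf 6) (.lf 17) (.lf 18))), 3, [6, 6, 10, 10], []⟩)))
    (.nd (.nd (.lf ⟨[.ofNat 0, .ofNat 0, .negSucc 4863], (.tr (.lf 6) (.tr (.dx 3 (.tr (.lf 1) (.lf 2) (.lf 5))) (.lf 17) (.lf 18)) (.lf 11)), 3, [4, 4, 11, 7], []⟩)
    (.lf ⟨[.ofNat 0, .ofNat 0, .ofNat 384, .negSucc 799], (.tw (.lf 11) (.tr (.dx 3 (.tr (.lf 1) (.lf 2) (.lf 5))) (.tw (.lf 17) (.lf 18)) (.lf 6))), 3, [6, 6, 10, 10, 22, 22, 22, 22], []⟩))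
    (.nd (.lf ⟨[.ofNat 0, .ofNat 0, .negSucc 5631, .ofNat 1600], (.tr (.lf 11) (.lf 6) (.tr (.dx 3 (.tr (.lf 1) (.lf 2) (.lf 5))) (.lf 17) (.lf 18))), 3, [10, 10, 22, 22], []⟩)
    (.lf ⟨[.ofNat 0, .ofNat 0, .ofNat 5632, .negSucc 1599], (.tr (.lf 17) (.lf 18) (.tr (.dx 3 (.tr (.lf 1) (.lf 2) (.lf 5))) (.lf 6) (.lf 11))), 3, [11, 11, 5, 1], []⟩))))

/-- data -/
def dE13x3 : RT := (.nd (.nd (.nd (.lf ⟨[.ofNat 0, .ofNat 0, .ofNat 2432], (.tw (.dx 3 (.tr (.lf 1) (.lf 2) (.lf 5))) (.tr (.lf 11) (.lf 6) (.tw (.lf 17) (.lf 18)))), 3, [0, 0, 23, 23, 4, 4, 23, 23], []⟩)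
    (.lf ⟨[.ofNat 0, .ofNat 0, .ofNat 384, .negSucc 1151], (.tr (.dx 3 (.tr (.tw (.lf 1) (.lf 2)) (.lf 17) (.lf 5))) (.lf 11) (.tw (.lf 6) (.lf 18))), 3, [0, 21, 0, 21, 21, 21, 21, 21], []⟩))
    (.nd (.lf ⟨[.ofNat 0, .ofNat 0, .negSucc 17023, .ofNat 3520], (.tr (.lf 6) (.dx 3 (.tr (.lf 11) (.lf 17) (.tr (.lf 1) (.lf 2) (.lf 5)))) (.lf 18)), 3, [8, 8, 4, 4], []⟩)
    (.lf ⟨[.ofNat 0, .ofNat 0, .ofNat 7424, .negSucc 9151, .negSucc 127], (.tr (.lf 6) (.dx 3 (.tr (.lf 5) (.lf 1) (.tr (.lf 2) (.lf 17) (.lf 11)))) (.lf 18)), 3, [4, 4, 4, 8], []⟩)))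
    (.nd (.nd (.lf ⟨[.ofNat 0, .ofNat 0, .ofNat 4800, .ofNat 2816, .ofNat 64], (.tr (.lf 6) (.dx 3 (.tw (.lf 11) (.tr (.lf 5) (.tw (.lf 1) (.lf 2)) (.lf 17)))) (.lf 18)), 3, [8, 8, 8, 8, 4, 4, 4, 4], []⟩)
    (.lf ⟨[.ofNat 0, .ofNat 0, .ofNat 9600, .ofNat 5632, .ofNat 128], (.tr (.dx 3 (.tr (.lf 1) (.lf 2) (.tr (.lf 5) (.lf 11) (.lf 17)))) (.lf 18) (.lf 6)), 3, [21, 21, 17, 17], []⟩))
    (.nd (.lf ⟨[.ofNat 0, .ofNat 0, .negSucc 2367, .negSucc 2463, .negSucc 63], (.tr (.dx 3 (.tw (.lf 5) (.tr (.tw (.lf 1) (.lf 2)) (.lf 17) (.lf 11)))) (.lf 18) (.lf 6)), 3, [21, 21, 17, 17, 21, 21, 17, 17], []⟩)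
    (.lf ⟨[.ofNat 0, .ofNat 0, .negSucc 383, .ofNat 1152], (.tw (.dx 0 (.tr (.lf 13) (.lf 17) (.tr (.tw (.lf 5) (.lf 6)) (.lf 14) (.lf 11)))) (.lf 18)), 0, [0, 0, 2, 2, 0, 0, 2, 2], []⟩))))

/-- data -/
def dE13x4 : RT := (.nd (.nd (.nd (.lf ⟨[.ofNat 0, .ofNat 0, .ofNat 1984, .ofNat 3616, .ofNat 64], (.tr (.dx 3 (.tw (.lf 11) (.tr (.lf 5) (.tw (.lf 1) (.lf 2)) (.lf 17)))) (.lf 18) (.lf 6)), 3, [17, 17, 17, 17, 21, 21, 21, 21], []⟩)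
    (.lf ⟨[.ofNat 0, .ofNat 0, .negSucc 3967, .negSucc 7231, .negSucc 127], (.tr (.dx 3 (.tr (.lf 11) (.lf 5) (.tr (.lf 1) (.lf 2) (.lf 17)))) (.lf 18) (.lf 6)), 3, [17, 17, 21, 21], []⟩))
    (.nd (.lf ⟨[.ofNat 0, .ofNat 0, .ofNat 768, .negSucc 1599], (.tr (.dx 3 (.tr (.lf 1) (.lf 2) (.tr (.lf 11) (.lf 5) (.lf 17)))) (.lf 18) (.lf 6)), 3, [21, 21, 17, 17], []⟩)
    (.lf ⟨[.ofNat 0, .ofNat 0, .ofNat 4096, .ofNat 2304], (.tr (.dx 3 (.tr (.lf 1) (.tr (.lf 2) (.lf 17) (.lf 5)) (.lf 11))) (.lf 18) (.lf 6)), 3, [21, 21, 17, 17], []⟩)))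
    (.nd (.nd (.lf ⟨[.ofNat 0, .ofNat 0, .negSucc 2047, .negSucc 1151], (.tr (.dx 3 (.tw (.lf 11) (.tr (.lf 1) (.tw (.lf 5) (.lf 17)) (.lf 2)))) (.lf 18) (.lf 6)), 3, [17, 17, 17, 17, 21, 21, 21, 21], []⟩)
    (.lf ⟨[.ofNat 0, .ofNat 0, .negSucc 4863], (.tr (.lf 18) (.lf 5) (.tr (.dx 3 (.tr (.lf 1) (.lf 2) (.lf 17))) (.lf 11) (.lf 6))), 3, [9, 9, 20, 20], []⟩))
    (.nd (.lf ⟨[.ofNat 0, .ofNat 0, .ofNat 2816, .negSucc 447], (.tw (.dx 3 (.tr (.lf 1) (.lf 2) (.lf 17))) (.tr (.lf 11) (.tw (.lf 5) (.lf 6)) (.lf 18))), 3, [21, 21, 23, 23, 21, 21, 23, 23], []⟩)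
    (.lf ⟨[.ofNat 0, .ofNat 0, .negSucc 8063, .ofNat 896], (.tr (.dx 3 (.tr (.lf 1) (.lf 2) (.lf 17))) (.tr (.lf 5) (.lf 6) (.lf 18)) (.lf 11)), 3, [23, 23, 23, 23], []⟩))))

/-- data -/
def dE13x5 : RT := (.nd (.nd (.nd (.lf ⟨[.ofNat 0, .ofNat 0, .ofNat 4864, .ofNat 704], (.tr (.dx 3 (.tr (.lf 1) (.lf 2) (.lf 17))) (.lf 5) (.tr (.lf 6) (.lf 18) (.lf 11))), 3, [23, 21, 23, 21], []⟩)
    (.lf ⟨[.ofNat 0, .ofNat 0, .ofNat 4736, .ofNat 5632, .ofNat 128], (.tr (.lf 11) (.lf 18) (.tr (.dx 3 (.tr (.lf 1) (.lf 2) (.lf 17))) (.lf 5) (.lf 6))), 3, [5, 5, 22, 22], []⟩))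
    (.nd (.lf ⟨[.ofNat 0, .ofNat 0, .negSucc 1599, .ofNat 800], (.tw (.lf 11) (.tr (.tw (.lf 5) (.lf 6)) (.dx 3 (.tr (.lf 1) (.lf 2) (.lf 17))) (.lf 18))), 3, [10, 10, 10, 10, 5, 5, 5, 5], []⟩)
    (.lf ⟨[.ofNat 0, .ofNat 0, .negSucc 767, .negSucc 3615, .negSucc 63], (.tw (.dx 3 (.tr (.lf 1) (.lf 2) (.lf 17))) (.tr (.tw (.lf 5) (.lf 6)) (.lf 18) (.lf 11))), 3, [23, 23, 21, 21, 23, 23, 21, 21], []⟩)))
    (.nd (.nd (.lf ⟨[.ofNat 0, .ofNat 0, .ofNat 192, .negSucc 399], (.tr (.dx 0 (.tw (.lf 11) (.lf 13))) (.lf 17) (.tr (.tw (.lf 5) (.lf 6)) (.lf 14) (.lf 18))), 0, [2, 2, 5, 5, 2, 2, 5, 5], []⟩)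
    (.lf ⟨[.ofNat 0, .ofNat 0, .negSucc 191, .ofNat 400], (.tr (.dx 0 (.tw (.lf 11) (.lf 13))) (.tr (.lf 5) (.lf 14) (.tw (.lf 17) (.lf 18))) (.lf 6)), 0, [2, 2, 5, 5, 2, 2, 5, 5], []⟩))
    (.nd (.lf ⟨[.ofNat 0, .ofNat 0, .ofNat 192, .negSucc 399], (.tr (.dx 0 (.tw (.lf 11) (.lf 13))) (.lf 5) (.tr (.lf 6) (.tw (.lf 17) (.lf 18)) (.lf 14))), 0, [2, 2, 2, 2, 2, 2, 2, 2], []⟩)
    (.lf ⟨[.ofNat 0, .ofNat 0, .ofNat 96, .negSucc 199], (.tr (.lf 1) (.lf 11) (.tr (.lf 17) (.tr (.dx 3 .on) (.tw (.lf 5) (.lf 6)) (.lf 2)) (.lf 18))), 3, [14, 14, 14, 14, 14, 14, 14, 14], [14, 14, 14, 14, 14, 14, 14, 14]⟩))))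

/-- data -/
def dE13x6 : RT := (.nd (.nd (.nd (.lf ⟨[.ofNat 0, .ofNat 0, .ofNat 4096, .ofNat 3904, .negSucc 319], (.tw (.dx 0 (.tr (.lf 11) (.lf 13) (.tr (.lf 5) (.lf 6) (.lf 19)))) (.lf 14)), 0, [2, 2, 12, 12], []⟩)
    (.lf ⟨[.ofNat 0, .ofNat 0, .negSucc 2047, .negSucc 1951, .ofNat 160], (.tw (.dx 0 (.tw (.lf 11) (.tr (.tw (.lf 5) (.lf 6)) (.lf 19) (.lf 13)))) (.lf 14)), 0, [14, 14, 2, 2, 12, 12, 0, 0], []⟩))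
    (.nd (.lf ⟨[.ofNat 0, .ofNat 0, .negSucc 191, .ofNat 400], (.tw (.dx 0 (.tr (.lf 11) (.lf 17) (.tr (.tw (.lf 5) (.lf 6)) (.lf 13) (.lf 14)))) (.lf 18)), 0, [14, 14, 14, 14, 0, 0, 0, 0], []⟩)
    (.lf ⟨[.ofNat 0, .ofNat 0, .negSucc 191, .ofNat 400], (.tr (.dx 3 (.tw (.lf 1) (.lf 11))) (.lf 17) (.tr (.lf 2) (.tw (.lf 5) (.lf 6)) (.lf 18))), 3, [17, 17, 13, 13, 17, 17, 13, 13], []⟩)))
    (.nd (.nd (.lf ⟨[.ofNat 0, .ofNat 0, .ofNat 768, .ofNat 3616, .ofNat 64], (.tr (.lf 11) (.dx 3 (.lf 17)) (.tr (.lf 1) (.tr (.lf 2) (.lf 18) (.lf 5)) (.lf 6))), 3, [17, 17, 13, 13], [17, 17, 13, 13]⟩)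
    (.lf ⟨[.ofNat 0, .ofNat 8320, .negSucc 20191, .negSucc 2919, .ofNat 2224, .ofNat 64], (.tr (.lf 11) (.dx 3 .on) (.tr (.lf 1) (.tr (.lf 2) (.lf 19) (.lf 5)) (.lf 6))), 3, [17, 17, 13, 13], [17, 17, 13, 13]⟩))
    (.nd (.lf ⟨[.ofNat 0, .ofNat 8320, .negSucc 20191, .ofNat 664, .ofNat 5040, .ofNat 128], (.tr (.lf 11) (.lf 19) (.tr (.lf 1) (.tr (.lf 2) (.dx 3 .on) (.lf 5)) (.lf 6))), 3, [5, 5, 1, 1], [5, 5, 1, 1]⟩)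
    (.lf ⟨[.ofNat 0, .ofNat 0, .ofNat 2464, .negSucc 1127, .ofNat 64], (.tr (.dx 0 (.lf 13)) (.lf 14) (.tr (.lf 5) (.tr (.lf 6) (.lf 19) (.lf 9)) (.lf 10))), 0, [23, 23, 21, 21], [23, 23, 21, 21]⟩))))

/-- data -/
def dE13x7 : RT := (.nd (.nd (.nd (.lf ⟨[.ofNat 0, .ofNat 0, .ofNat 4512, .ofNat 824, .negSucc 95], (.tr (.lf 2) (.lf 19) (.tr (.lf 5) (.tr (.lf 6) (.dx 3 (.lf 1)) (.lf 9)) (.lf 10))), 3, [7, 11, 9, 5], [11, 11, 9, 9]⟩)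
    (.lf ⟨[.ofNat 0, .ofNat 0, .negSucc 1791, .negSucc 1407, .negSucc 31], (.tr (.lf 11) (.dx 3 .on) (.tr (.lf 1) (.tr (.lf 2) (.tw (.lf 17) (.lf 18)) (.lf 5)) (.lf 6))), 3, [17, 17, 17, 17, 13, 13, 13, 13], [17, 17, 17, 17, 13, 13, 13, 13]⟩))
    (.nd (.lf ⟨[.ofNat 0, .negSucc 1023, .negSucc 975, .ofNat 80], (.tr (.lf 1) (.dx 3 .on) (.tr (.lf 5) (.tr (.lf 6) (.tr (.lf 17) (.lf 2) (.lf 18)) (.lf 9)) (.lf 10))), 3, [19, 19, 23, 23, 21, 21, 17, 17], [19, 19, 23, 23, 21, 21, 17, 17]⟩)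
    (.lf ⟨[.ofNat 0, .negSucc 8319, .ofNat 20192, .ofNat 2920, .negSucc 2223, .negSucc 63], (.tr (.lf 1) (.tw (.lf 2) (.tr (.dx 3 .on) (.tw (.lf 5) (.lf 6)) (.lf 19))) (.lf 11)), 3, [0, 0, 12, 12, 19, 19, 7, 7], [0, 0, 12, 12, 19, 19, 7, 7]⟩)))
    (.nd (.nd (.lf ⟨[.ofNat 0, .ofNat 0, .negSucc 2463, .ofNat 1128, .negSucc 63], (.tr (.lf 2) (.tw (.lf 5) (.tr (.dx 3 (.lf 1)) (.tw (.lf 9) (.lf 10)) (.lf 19))) (.lf 6)), 3, [0, 0, 12, 12, 21, 21, 5, 5], [0, 0, 12, 12, 21, 21, 9, 9]⟩)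
    (.lf ⟨[.ofNat 0, .ofNat 0, .ofNat 960, .ofNat 2256, .ofNat 32], (.tr (.dx 0 (.tr (.lf 13) (.tw (.lf 5) (.lf 9)) (.lf 19))) (.lf 14) (.tw (.lf 6) (.lf 10))), 0, [11, 9, 11, 9, 11, 9, 11, 9], []⟩))
    (.nd (.lf ⟨[.ofNat 0, .ofNat 0, .negSucc 959, .negSucc 2255, .negSucc 31], (.tr (.lf 2) (.dx 3 (.tr (.lf 1) (.lf 19) (.tw (.lf 5) (.lf 9)))) (.tw (.lf 6) (.lf 10))), 3, [11, 9, 11, 9, 11, 9, 11, 9], []⟩)
    (.lf ⟨[.ofNat 0, .ofNat 0, .ofNat 1952, .ofNat 6296, .ofNat 112], (.tr (.lf 2) (.lf 5) (.tw (.lf 6) (.tr (.dx 3 (.lf 1)) (.tw (.lf 9) (.lf 10)) (.lf 19)))), 3, [0, 0, 12, 12, 0, 0, 12, 12], [0, 0, 12, 12, 0, 0, 12, 12]⟩))))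

/-- data -/
def dE13x8 : RT := (.nd (.nd (.nd (.lf ⟨[.ofNat 0, .ofNat 0, .negSucc 1951, .negSucc 6295, .negSucc 111], (.tr (.dx 3 (.lf 1)) (.tr (.lf 5) (.tr (.lf 6) (.lf 19) (.lf 9)) (.lf 10)) (.lf 2)), 3, [15, 15, 13, 13], [15, 15, 13, 13]⟩)
    (.lf ⟨[.ofNat 0, .ofNat 0, .negSucc 1599, .ofNat 800], (.tr (.dx 3 (.lf 17)) (.tr (.lf 1) (.tr (.lf 2) (.lf 18) (.lf 5)) (.lf 6)) (.lf 11)), 3, [23, 23, 19, 19], [23, 23, 19, 19]⟩))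
    (.nd (.lf ⟨[.ofNat 0, .ofNat 0, .negSucc 1215], (.tr (.lf 11) (.tr (.lf 1) (.tr (.lf 2) (.dx 3 (.lf 17)) (.lf 5)) (.lf 6)) (.lf 18)), 3, [6, 6, 10, 10], [6, 6, 10, 10]⟩)
    (.lf ⟨[.ofNat 0, .ofNat 0, .negSucc 767, .negSucc 3615, .negSucc 63], (.tr (.dx 0 .on) (.lf 13) (.tr (.lf 11) (.lf 17) (.tr (.lf 14) (.tw (.lf 5) (.lf 6)) (.lf 18)))), 0, [2, 2, 2, 2, 0, 0, 0, 0], [2, 2, 2, 2, 1023, 1023, 1023, 1023]⟩)))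
    (.nd (.nd (.lf ⟨[.ofNat 0, .ofNat 0, .negSucc 191, .ofNat 752], (.tr (.tw (.dx 3 (.tr (.tw (.lf 1) (.lf 2)) (.lf 5) (.lf 17))) (.lf 6)) (.lf 11) (.lf 18)), 3, [0, 0, 23, 23, 4, 4, 4, 4], []⟩)
    (.lf ⟨[.ofNat 0, .ofNat 0, .negSucc 191, .ofNat 752], (.tw (.dx 3 (.tr (.lf 1) (.tr (.lf 2) (.lf 17) (.tw (.lf 5) (.lf 6))) (.lf 11))) (.lf 18)), 3, [0, 0, 0, 0, 6, 6, 10, 10], []⟩))
    (.nd (.lf ⟨[.ofNat 0, .ofNat 0, .ofNat 4992, .negSucc 127], (.tw (.dx 3 (.tr (.lf 1) (.lf 2) (.tr (.lf 11) (.tw (.lf 5) (.lf 6)) (.lf 17)))) (.lf 18)), 3, [2, 2, 0, 0, 10, 10, 1017, 1017], []⟩)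
    (.lf ⟨[.ofNat 0, .ofNat 0, .ofNat 192, .negSucc 399], (.tr (.lf 14) (.lf 11) (.tr (.dx 0 (.tw (.lf 13) (.lf 17))) (.tw (.lf 5) (.lf 6)) (.lf 18))), 0, [17, 17, 17, 17, 13, 1, 13, 1], [17, 17, 13, 13]⟩))))

/-- data -/
def dE13x9 : RT := (.nd (.nd (.nd (.lf ⟨[.ofNat 0, .ofNat 0, .negSucc 191, .ofNat 400], (.tw (.dx 3 (.tr (.lf 11) (.tr (.lf 5) (.tw (.lf 1) (.lf 2)) (.lf 17)) (.lf 18))) (.lf 6)), 3, [5, 5, 5, 5, 9, 9, 9, 9], []⟩)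
    (.lf ⟨[.ofNat 0, .ofNat 0, .ofNat 0, .negSucc 351], (.tr (.dx 3 (.tw (.lf 1) (.lf 17))) (.tr (.tw (.lf 5) (.lf 6)) (.lf 18) (.lf 11)) (.lf 2)), 3, [15, 15, 13, 13, 15, 15, 13, 13], [15, 15, 13, 13]⟩))
    (.nd (.lf ⟨[.ofNat 0, .ofNat 0, .negSucc 4863], (.tw (.dx 3 (.tr (.lf 11) (.lf 1) (.tr (.tw (.lf 5) (.lf 6)) (.lf 2) (.lf 17)))) (.lf 18)), 3, [6, 6, 6, 6, 4, 4, 0, 0], []⟩)
    (.lf ⟨[.ofNat 0, .ofNat 0, .ofNat 2432], (.tw (.dx 3 (.tw (.lf 11) (.tr (.lf 1) (.lf 2) (.tr (.lf 5) (.lf 17) (.lf 6))))) (.lf 18)), 3, [6, 6, 10, 10, 0, 0, 4, 4], []⟩)))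
    (.nd (.nd (.lf ⟨[.ofNat 0, .ofNat 0, .ofNat 2816, .negSucc 799], (.tr (.lf 13) (.tw (.lf 14) (.tr (.dx 0 .on) (.tr (.lf 5) (.lf 17) (.lf 6)) (.lf 11))) (.lf 18)), 0, [23, 23, 13, 13, 0, 0, 10, 10], [23, 23, 13, 13, 0, 0, 10, 10]⟩)
    (.lf ⟨[.ofNat 0, .ofNat 0, .ofNat 2432], (.tr (.dx 3 (.tw (.lf 1) (.lf 11))) (.lf 2) (.tr (.tw (.lf 5) (.lf 6)) (.lf 17) (.lf 18))), 3, [2, 2, 17, 17, 6, 6, 17, 17], []⟩))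
    (.nd (.lf ⟨[.ofNat 0, .ofNat 0, .negSucc 2431], (.tr (.lf 5) (.lf 6) (.tr (.dx 3 (.tw (.lf 1) (.lf 11))) (.lf 2) (.tw (.lf 17) (.lf 18)))), 3, [4, 4, 8, 8, 16, 16, 16, 16], []⟩)
    (.lf ⟨[.ofNat 0, .ofNat 0, .ofNat 2432], (.tr (.lf 17) (.lf 18) (.tr (.lf 2) (.dx 3 (.tw (.lf 1) (.lf 11))) (.tw (.lf 5) (.lf 6)))), 3, [9, 9, 5, 5, 3, 3, 3, 3], []⟩))))

/-- data -/
def dE13x10 : RT := (.nd (.nd (.nd (.lf ⟨[.ofNat 0, .ofNat 0, .negSucc 2431], (.tr (.lf 2) (.tr (.dx 3 (.tw (.lf 1) (.lf 11))) (.tw (.lf 5) (.lf 6)) (.lf 17)) (.lf 18)), 3, [2, 2, 2, 2, 12, 12, 12, 12], []⟩)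
    (.lf ⟨[.ofNat 0, .ofNat 0, .negSucc 16255, .ofNat 1920], (.tr (.lf 2) (.lf 5) (.tr (.lf 6) (.dx 3 (.tr (.lf 1) (.lf 17) (.lf 18))) (.lf 11))), 3, [0, 0, 0, 0], []⟩))
    (.nd (.lf ⟨[.ofNat 0, .ofNat 0, .negSucc 2431], (.tw (.dx 3 (.tr (.lf 17) (.lf 11) (.tr (.tw (.lf 1) (.lf 2)) (.lf 18) (.lf 5)))) (.lf 6)), 3, [5, 5, 5, 5, 9, 9, 9, 9], []⟩)
    (.lf ⟨[.ofNat 0, .ofNat 0, .ofNat 2432], (.tw (.dx 3 (.tr (.lf 5) (.lf 17) (.tr (.tw (.lf 1) (.lf 2)) (.lf 11) (.lf 18)))) (.lf 6)), 3, [9, 9, 5, 5, 9, 9, 5, 5], []⟩)))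
    (.nd (.nd (.lf ⟨[.ofNat 0, .ofNat 0, .negSucc 2431], (.tw (.dx 3 (.tr (.lf 1) (.tr (.lf 2) (.lf 11) (.tw (.lf 17) (.lf 18))) (.lf 5))) (.lf 6)), 3, [9, 9, 5, 5, 5, 5, 5, 5], []⟩)
    (.lf ⟨[.ofNat 0, .ofNat 3248, .negSucc 855, .ofNat 344], (.tr (.lf 13) (.lf 14) (.tr (.dx 0 (.tr (.lf 5) (.lf 6) (.lf 9))) (.lf 10) (.tw (.lf 17) (.lf 18)))), 0, [19, 19, 1023, 1023, 15, 13, 15, 13], []⟩))
    (.nd (.lf ⟨[.ofNat 0, .negSucc 3247, .ofNat 856, .negSucc 343], (.tr (.lf 13) (.lf 14) (.tr (.lf 10) (.dx 0 (.tr (.lf 5) (.lf 6) (.lf 9))) (.tw (.lf 17) (.lf 18)))), 0, [1023, 1023, 6, 6, 19, 19, 19, 19], []⟩)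
    (.lf ⟨[.ofNat 0, .ofNat 1824, .negSucc 2647, .negSucc 31], (.tr (.lf 13) (.lf 14) (.tr (.lf 17) (.lf 18) (.tr (.dx 0 (.lf 5)) (.tw (.lf 9) (.lf 10)) (.lf 6)))), 0, [21, 21, 13, 13, 0, 0, 13, 13], [21, 21, 15, 15, 1017, 1017, 1017, 1017]⟩))))

/-- data -/
def dE13x11 : RT := (.nd (.nd (.nd (.lf ⟨[.ofNat 0, .negSucc 3087, .negSucc 1663, .ofNat 232], (.tr (.dx 0 (.tr (.lf 5) (.lf 6) (.lf 9))) (.tr (.lf 10) (.tw (.lf 17) (.lf 18)) (.lf 13)) (.lf 14)), 0, [12, 12, 0, 0, 14, 14, 2, 2], []⟩)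
    (.lf ⟨[.ofNat 0, .ofNat 3088, .ofNat 1664, .negSucc 231], (.tr (.lf 10) (.tr (.dx 0 (.tr (.lf 5) (.lf 6) (.lf 9))) (.tw (.lf 17) (.lf 18)) (.lf 13)) (.lf 14)), 0, [18, 18, 18, 18, 6, 6, 6, 6], []⟩))
    (.nd (.lf ⟨[.negSucc 39935, .negSucc 22847, .ofNat 57952, .ofNat 20896], (.tr (.lf 9) (.dx 0 (.tr (.lf 5) (.lf 13) (.tw (.lf 6) (.lf 14)))) (.tr (.lf 17) (.lf 10) (.lf 18))), 0, [6, 6, 6, 6, 6, 6, 6, 6], []⟩)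
    (.lf ⟨[.ofNat 39936, .ofNat 22848, .negSucc 57951, .negSucc 20895], (.tr (.lf 17) (.dx 0 (.tr (.lf 5) (.lf 13) (.tw (.lf 6) (.lf 14)))) (.tr (.lf 9) (.lf 18) (.lf 10))), 0, [19, 19, 19, 19, 19, 19, 19, 19], []⟩)))
    (.nd (.nd (.lf ⟨[.ofNat 0, .negSucc 831, .negSucc 8367, .ofNat 5232], (.tr (.dx 0 (.tr (.lf 13) (.lf 17) (.tr (.lf 5) (.lf 14) (.lf 9)))) (.lf 18) (.tw (.lf 6) (.lf 10))), 0, [23, 21, 23, 21, 1023, 0, 2, 1017], []⟩)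
    (.lf ⟨[.ofNat 39936, .ofNat 22848, .negSucc 57951, .negSucc 20895], (.tw (.dx 0 (.tr (.lf 5) (.lf 9) (.tr (.lf 17) (.lf 6) (.tr (.lf 13) (.lf 10) (.lf 14))))) (.lf 18)), 0, [12, 12, 0, 0, 12, 12, 2, 2], []⟩))
    (.nd (.lf ⟨[.negSucc 39935, .negSucc 28095, .ofNat 57824, .ofNat 20736], (.tw (.dx 0 (.tr (.lf 5) (.tr (.lf 9) (.tr (.lf 13) (.lf 6) (.lf 17)) (.lf 10)) (.lf 14))) (.lf 18)), 0, [0, 12, 0, 12, 2, 2, 2, 2], []⟩)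
    (.lf ⟨[.ofNat 39936, .ofNat 25824, .negSucc 60639, .negSucc 21103], (.tw (.dx 0 (.tr (.lf 5) (.lf 9) (.tr (.lf 13) (.tr (.lf 6) (.lf 17) (.lf 10)) (.lf 14)))) (.lf 18)), 0, [0, 0, 0, 0, 0, 2, 0, 2], []⟩))))

/-- data -/
def dE13x12 : RT := (.nd (.nd (.nd (.lf ⟨[.ofNat 39936, .ofNat 22848, .negSucc 57951, .negSucc 20895], (.tw (.dx 3 (.tr (.lf 1) (.lf 17) (.tr (.lf 9) (.lf 2) (.tr (.lf 5) (.lf 18) (.lf 6))))) (.lf 10)), 3, [11, 11, 7, 7, 7, 7, 7, 7], []⟩)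
    (.lf ⟨[.negSucc 6655, .negSucc 559, .ofNat 5392, .ofNat 2864], (.tw (.dx 3 (.tr (.lf 1) (.tr (.lf 17) (.tr (.lf 2) (.lf 5) (.lf 9)) (.lf 18)) (.lf 6))) (.lf 10)), 3, [11, 11, 11, 11, 7, 7, 7, 7], []⟩))
    (.nd (.lf ⟨[.ofNat 6656, .ofNat 4976, .negSucc 3823, .negSucc 2463], (.tw (.dx 3 (.tr (.lf 1) (.lf 17) (.tr (.lf 5) (.tr (.lf 2) (.lf 9) (.lf 18)) (.lf 6)))) (.lf 10)), 3, [11, 11, 11, 11, 7, 7, 7, 7], []⟩)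
    (.lf ⟨[.ofNat 33280, .ofNat 32944, .negSucc 40231, .negSucc 14867], (.tr (.dx 0 (.tr (.lf 9) (.tr (.lf 5) (.lf 13) (.lf 6)) (.lf 17))) (.tw (.lf 10) (.lf 14)) (.lf 18)), 0, [2, 2, 2, 2, 12, 12, 12, 12], []⟩)))
    (.nd (.nd (.lf ⟨[.negSucc 33279, .negSucc 13103, .ofNat 47944, .ofNat 12148], (.tr (.tw (.dx 0 (.tr (.lf 9) (.tr (.lf 5) (.lf 13) (.lf 6)) (.lf 17))) (.lf 10)) (.lf 14) (.lf 18)), 0, [2, 2, 12, 12, 6, 6, 18, 18], []⟩)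
    (.lf ⟨[.ofNat 0, .ofNat 9360, .negSucc 14327, .negSucc 5803], (.tr (.dx 0 (.tr (.lf 9) (.tr (.lf 5) (.lf 13) (.lf 6)) (.lf 17))) (.lf 14) (.tw (.lf 10) (.lf 18))), 0, [2, 2, 2, 2, 12, 12, 12, 12], []⟩))
    (.nd (.lf ⟨[.negSucc 3327, .negSucc 6951, .ofNat 11948, .negSucc 783], (.tr (.lf 5) (.tr (.lf 17) (.tr (.dx 0 (.lf 13)) (.tw (.lf 6) (.lf 9)) (.lf 14)) (.lf 18)) (.lf 10)), 0, [16, 16, 19, 19, 16, 16, 19, 19], [16, 16, 19, 19, 16, 16, 19, 19]⟩)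
    (.lf ⟨[.negSucc 6655, .negSucc 19023, .ofNat 10040, .ofNat 2024], (.tr (.lf 6) (.dx 3 (.tw (.lf 1) (.tr (.lf 17) (.tr (.lf 2) (.lf 5) (.lf 9)) (.lf 18)))) (.lf 10)), 3, [4, 4, 4, 4, 7, 7, 7, 7], []⟩))))

/-- data -/
def dE13x13 : RT := (.nd (.nd (.nd (.lf ⟨[.ofNat 6656, .ofNat 15568, .negSucc 8311, .negSucc 2343], (.tr (.lf 6) (.dx 3 (.tr (.lf 1) (.tr (.lf 2) (.tw (.lf 5) (.lf 9)) (.lf 17)) (.lf 18))) (.lf 10)), 3, [4, 4, 4, 4, 7, 7, 7, 7], []⟩)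
    (.lf ⟨[.ofNat 0, .ofNat 832, .negSucc 1439, .negSucc 239], (.tr (.dx 0 (.tr (.tw (.lf 5) (.lf 9)) (.lf 13) (.lf 17))) (.lf 14) (.tr (.lf 6) (.lf 18) (.lf 10))), 0, [0, 0, 2, 2, 23, 21, 23, 21], [1023, 1017]⟩))
    (.nd (.lf ⟨[.ofNat 6656, .ofNat 4656, .negSucc 15039, .negSucc 9279], (.tr (.lf 10) (.dx 0 (.tw (.lf 5) (.tr (.lf 13) (.tr (.lf 6) (.lf 17) (.lf 9)) (.lf 14)))) (.lf 18)), 0, [6, 6, 6, 6, 6, 6, 6, 6], []⟩)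
    (.lf ⟨[.negSucc 6655, .negSucc 8495, .ofNat 4080, .ofNat 2272], (.tr (.lf 10) (.dx 0 (.tw (.lf 13) (.tr (.lf 5) (.tr (.lf 14) (.lf 9) (.lf 17)) (.lf 6)))) (.lf 18)), 0, [6, 6, 6, 6, 6, 18, 6, 18], []⟩)))
    (.nd (.nd (.lf ⟨[.ofNat 0, .negSucc 25327, .negSucc 1199, .ofNat 2512], (.tr (.lf 10) (.dx 0 (.tw (.lf 13) (.tr (.lf 9) (.lf 17) (.tr (.lf 5) (.lf 14) (.lf 6))))) (.lf 18)), 0, [6, 6, 6, 6, 18, 18, 6, 6], []⟩)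
    (.lf ⟨[.negSucc 6655, .negSucc 50143, .ofNat 9440, .ofNat 12568], (.tw (.lf 14) (.tr (.dx 0 (.tr (.lf 5) (.lf 9) (.lf 13))) (.tr (.lf 17) (.lf 10) (.lf 18)) (.lf 6))), 0, [21, 21, 21, 21, 3, 1, 3, 1], [21, 21, 15, 15]⟩))
    (.nd (.lf ⟨[.ofNat 0, .ofNat 43440, .negSucc 5999, .negSucc 10071], (.tw (.dx 0 (.tr (.lf 5) (.lf 9) (.lf 13))) (.tr (.lf 14) (.lf 6) (.tr (.lf 17) (.lf 10) (.lf 18)))), 0, [0, 0, 0, 0, 2, 2, 2, 2], [0, 0, 14, 14]⟩)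
    (.lf ⟨[.ofNat 0, .negSucc 5247, .negSucc 127, .negSucc 159], (.tw (.lf 2) (.tr (.dx 3 (.tr (.lf 1) (.lf 5) (.lf 9))) (.lf 6) (.tr (.lf 17) (.lf 10) (.lf 18)))), 3, [0, 0, 2, 2, 14, 14, 14, 14], [0, 0, 14, 14]⟩))))

/-- data -/
def dE13x14 : RT := (.nd (.nd (.nd (.lf ⟨[.ofNat 0, .ofNat 5248, .ofNat 128, .ofNat 160], (.tw (.lf 17) (.tr (.lf 2) (.tr (.dx 3 (.tr (.lf 1) (.lf 9) (.lf 5))) (.lf 10) (.lf 18)) (.lf 6))), 3, [21, 21, 9, 5, 15, 15, 1, 3], [21, 9, 15, 3]⟩)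
    (.lf ⟨[.ofNat 0, .ofNat 4448, .ofNat 3392, .ofNat 608], (.tw (.dx 0 (.tr (.lf 5) (.lf 9) (.lf 13))) (.tr (.lf 17) (.tr (.lf 6) (.lf 14) (.lf 10)) (.lf 18))), 0, [0, 0, 0, 0, 2, 2, 2, 2], [12, 14, 12, 14]⟩))
    (.nd (.lf ⟨[.ofNat 33280, .ofNat 44832, .negSucc 61663, .negSucc 24271], (.tw (.lf 6) (.tr (.lf 14) (.lf 10) (.tr (.lf 17) (.dx 0 (.tr (.lf 5) (.lf 9) (.lf 13))) (.lf 18)))), 0, [8, 8, 8, 8, 16, 16, 16, 16], [8, 8, 16, 16]⟩)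
    (.lf ⟨[.ofNat 0, .ofNat 11328, .negSucc 3695, .negSucc 3327], (.tr (.dx 3 (.tr (.lf 1) (.tr (.lf 9) (.lf 5) (.lf 17)) (.lf 2))) (.lf 6) (.tw (.lf 10) (.lf 18))), 3, [2, 23, 23, 23, 2, 23, 23, 23], []⟩)))
    (.nd (.nd (.lf ⟨[.ofNat 0, .negSucc 13951, .negSucc 1967, .ofNat 3504], (.tr (.tw (.dx 3 (.tr (.lf 1) (.tr (.lf 9) (.lf 5) (.lf 17)) (.lf 2))) (.lf 6)) (.lf 10) (.lf 18)), 3, [2, 23, 2, 23, 4, 4, 4, 4], []⟩)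
    (.lf ⟨[.ofNat 0, .ofNat 8704, .negSucc 3055, .negSucc 3327], (.tr (.lf 6) (.tw (.dx 3 (.tr (.lf 1) (.tr (.lf 5) (.lf 9) (.lf 17)) (.lf 2))) (.lf 10)) (.lf 18)), 3, [4, 4, 4, 4, 8, 8, 8, 8], []⟩))
    (.nd (.lf ⟨[.ofNat 0, .ofNat 9056, .negSucc 623, .negSucc 4111], (.tr (.lf 6) (.dx 3 (.tr (.lf 1) (.tr (.lf 9) (.lf 5) (.lf 17)) (.lf 2))) (.tw (.lf 10) (.lf 18))), 3, [4, 4, 4, 4, 4, 4, 4, 4], []⟩)
    (.lf ⟨[.ofNat 0, .negSucc 2079, .ofNat 4128, .negSucc 3623], (.tr (.lf 6) (.tw (.dx 3 (.tr (.lf 1) (.tr (.lf 5) (.lf 9) (.lf 17)) (.lf 2))) (.lf 18)) (.lf 10)), 3, [4, 4, 4, 4, 7, 7, 7, 7], []⟩))))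

/-- data -/
def dE13x15 : RT := (.nd (.nd (.nd (.lf ⟨[.ofNat 0, .negSucc 5247, .ofNat 5232, .ofNat 3328], (.tw (.dx 0 (.tr (.lf 5) (.lf 13) (.lf 17))) (.tr (.lf 9) (.tr (.lf 14) (.lf 6) (.lf 18)) (.lf 10))), 0, [0, 0, 0, 0, 23, 11, 23, 11], [2, 14, 2, 14]⟩)
    (.lf ⟨[.ofNat 0, .ofNat 10144, .ofNat 16304, .negSucc 5239], (.tr (.dx 0 (.tr (.tw (.lf 5) (.lf 9)) (.lf 17) (.lf 13))) (.lf 14) (.tr (.lf 6) (.lf 18) (.lf 10))), 0, [12, 12, 14, 14, 23, 21, 23, 21], [1023, 1017]⟩))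
    (.nd (.lf ⟨[.ofNat 0, .ofNat 2624, .ofNat 5664, .negSucc 175], (.tr (.tw (.lf 10) (.lf 14)) (.dx 0 (.tr (.lf 5) (.tr (.lf 13) (.lf 9) (.lf 17)) (.lf 6))) (.lf 18)), 0, [6, 6, 6, 6, 6, 6, 6, 6], []⟩)
    (.lf ⟨[.ofNat 0, .ofNat 12160, .negSucc 13343, .negSucc 7135], (.tr (.dx 0 (.tr (.lf 13) (.lf 17) (.tr (.lf 5) (.lf 14) (.lf 9)))) (.tw (.lf 6) (.lf 18)) (.lf 10)), 0, [23, 23, 23, 23, 0, 1023, 2, 2], []⟩)))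
    (.nd (.nd (.lf ⟨[.negSucc 1663, .negSucc 1487, .ofNat 4984, .negSucc 5483], (.tw (.lf 6) (.tr (.lf 9) (.tr (.lf 14) (.dx 0 (.tr (.lf 5) (.lf 13) (.lf 17))) (.lf 18)) (.lf 10))), 0, [8, 8, 20, 20, 8, 8, 20, 20], [8, 20, 8, 20]⟩)
    (.lf ⟨[.ofNat 0, .negSucc 3759, .negSucc 8487, .negSucc 3203], (.tw (.dx 0 (.tr (.lf 13) (.lf 5) (.tr (.lf 9) (.lf 14) (.tr (.lf 17) (.lf 6) (.lf 18))))) (.lf 10)), 0, [19, 19, 7, 7, 7, 7, 7, 7], []⟩))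
    (.nd (.lf ⟨[.ofNat 0, .negSucc 4399, .ofNat 3896, .ofNat 8780], (.tw (.dx 0 (.tr (.lf 13) (.lf 5) (.tr (.lf 17) (.tr (.lf 6) (.lf 9) (.lf 14)) (.lf 18)))) (.lf 10)), 0, [19, 19, 19, 19, 7, 7, 7, 7], []⟩)
    (.lf ⟨[.ofNat 0, .negSucc 3567, .negSucc 8663, .negSucc 3203], (.tw (.dx 0 (.tr (.lf 13) (.lf 17) (.tr (.lf 9) (.lf 14) (.tr (.lf 5) (.lf 18) (.lf 6))))) (.lf 10)), 0, [19, 19, 7, 7, 2, 2, 12, 12], []⟩))))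

/-- data -/
def dE13x16 : RT := (.nd (.nd (.nd (.lf ⟨[.ofNat 0, .ofNat 7968, .ofNat 9168, .negSucc 2111], (.tw (.dx 0 (.tr (.lf 5) (.tr (.lf 17) (.tr (.lf 6) (.lf 13) (.lf 9)) (.lf 18)) (.lf 14))) (.lf 10)), 0, [12, 12, 12, 12, 19, 19, 19, 19], []⟩)
    (.lf ⟨[.ofNat 0, .negSucc 191, .ofNat 176], (.tw (.dx 0 (.tr (.lf 9) (.tr (.lf 13) (.lf 5) (.tr (.lf 17) (.lf 6) (.lf 18))) (.lf 14))) (.lf 10)), 0, [2, 2, 14, 14, 19, 19, 7, 7], []⟩))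
    (.nd (.lf ⟨[.ofNat 0, .negSucc 191, .ofNat 176], (.tw (.dx 0 (.tr (.lf 9) (.lf 13) (.tr (.lf 17) (.lf 18) (.tr (.lf 5) (.lf 14) (.lf 6))))) (.lf 10)), 0, [7, 7, 2, 2, 7, 7, 7, 7], []⟩)
    (.lf ⟨[.ofNat 0, .ofNat 192, .negSucc 175], (.tw (.dx 0 (.tr (.lf 17) (.lf 13) (.tr (.lf 9) (.tr (.lf 5) (.lf 18) (.lf 6)) (.lf 14)))) (.lf 10)), 0, [7, 7, 19, 19, 14, 14, 19, 19], []⟩)))
    (.nd (.nd (.lf ⟨[.ofNat 0, .ofNat 192, .negSucc 175], (.tr (.dx 0 (.lf 5)) (.tr (.lf 9) (.lf 13) (.tr (.lf 10) (.tw (.lf 17) (.lf 18)) (.lf 14))) (.lf 6)), 0, [0, 0, 0, 0, 12, 12, 0, 0], [2, 2, 1017, 1017, 1017, 1017, 9, 9]⟩)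
    (.lf ⟨[.ofNat 0, .ofNat 2464, .negSucc 16175, .ofNat 7224], (.tw (.dx 0 (.tr (.lf 13) (.lf 17) (.tr (.lf 5) (.tr (.lf 14) (.lf 9) (.lf 18)) (.lf 6)))) (.lf 10)), 0, [19, 7, 19, 7, 0, 12, 0, 12], []⟩))
    (.nd (.lf ⟨[.ofNat 0, .ofNat 3760, .ofNat 8488, .ofNat 3204], (.tw (.lf 5) (.tr (.lf 9) (.tw (.dx 3 (.tr (.lf 1) (.lf 17) (.tw (.lf 2) (.lf 18)))) (.lf 6)) (.lf 10))), 3, [8, 8, 8, 11, 8, 8, 8, 8, 8, 8, 8, 11, 8, 8, 8, 8], []⟩)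
    (.lf ⟨[.ofNat 0, .ofNat 896, .negSucc 7167, .ofNat 4872], (.tr (.dx 0 (.tr (.lf 5) (.lf 9) (.lf 13))) (.tr (.lf 17) (.tw (.lf 10) (.lf 14)) (.lf 18)) (.lf 6)), 0, [0, 0, 0, 0, 2, 2, 2, 2], [14, 21, 14, 21]⟩))))

/-- data -/
def dE13x17 : RT := (.nd (.nd (.nd (.lf ⟨[.negSucc 1663, .negSucc 1087, .ofNat 7984, .ofNat 992], (.tr (.dx 0 (.tr (.lf 5) (.lf 13) (.lf 9))) (.tr (.lf 17) (.tw (.lf 10) (.lf 14)) (.lf 18)) (.lf 6)), 0, [0, 0, 0, 0, 2, 2, 2, 2], [14, 21, 14, 21]⟩)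
    (.lf ⟨[.ofNat 0, .negSucc 4799, .ofNat 896, .ofNat 2144], (.tw (.dx 0 (.tr (.lf 5) (.lf 13) (.lf 9))) (.tr (.lf 17) (.lf 14) (.tr (.lf 6) (.lf 18) (.lf 10)))), 0, [0, 0, 0, 0, 2, 2, 2, 2], [23, 21, 12, 14]⟩))
    (.nd (.lf ⟨[.ofNat 0, .ofNat 1792, .negSucc 3503, .negSucc 3647], (.tw (.lf 2) (.tr (.lf 17) (.dx 3 (.tr (.lf 5) (.lf 1) (.lf 9))) (.tr (.lf 6) (.lf 18) (.lf 10)))), 3, [23, 21, 23, 21, 12, 12, 14, 14], [23, 21, 12, 14]⟩)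
    (.lf ⟨[.ofNat 0, .ofNat 2304, .ofNat 8400, .ofNat 1488], (.tw (.lf 17) (.tr (.dx 0 (.tr (.lf 5) (.lf 13) (.lf 9))) (.tr (.lf 6) (.lf 18) (.lf 10)) (.lf 14))), 0, [12, 12, 14, 14, 3, 1, 3, 1], [12, 14, 15, 13]⟩)))
    (.nd (.nd (.lf ⟨[.ofNat 0, .negSucc 9407, .ofNat 19488, .negSucc 879], (.tr (.dx 0 (.tw (.lf 5) (.tr (.lf 13) (.tw (.lf 9) (.lf 17)) (.lf 14)))) (.lf 18) (.tw (.lf 6) (.lf 10))), 0, [1023, 0, 23, 21, 1023, 0, 23, 21, 23, 21, 23, 21, 23, 21, 23, 21], []⟩)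
    (.lf ⟨[.ofNat 0, .ofNat 19024, .negSucc 2223, .ofNat 5040], (.tr (.dx 0 (.tw (.lf 5) (.tr (.lf 13) (.tw (.lf 9) (.lf 17)) (.lf 14)))) (.tw (.lf 6) (.lf 18)) (.lf 10)), 0, [0, 1023, 0, 23, 0, 1023, 0, 23, 23, 23, 23, 23, 23, 23, 23, 23], []⟩))
    (.nd (.lf ⟨[.ofNat 3328, .negSucc 16935, .ofNat 2552, .negSucc 2279], (.tr (.tw (.dx 0 (.tw (.lf 5) (.tr (.lf 13) (.tw (.lf 9) (.lf 17)) (.lf 14)))) (.lf 6)) (.lf 18) (.lf 10)), 0, [0, 0, 0, 0, 23, 23, 23, 23, 4, 4, 4, 4, 4, 4, 4, 4], []⟩)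
    (.lf ⟨[.ofNat 0, .ofNat 832, .negSucc 1439, .negSucc 239], (.tr (.lf 6) (.tw (.dx 0 (.tr (.lf 13) (.lf 17) (.tr (.lf 5) (.lf 14) (.lf 9)))) (.lf 18)) (.lf 10)), 0, [4, 4, 4, 4, 7, 7, 7, 7], []⟩))))

/-- data -/
def dE13x18 : RT := (.nd (.nd (.nd (.lf ⟨[.ofNat 0, .ofNat 832, .negSucc 1439, .negSucc 239], (.tr (.dx 0 (.tr (.lf 13) (.lf 5) (.tr (.lf 17) (.tw (.lf 9) (.lf 14)) (.lf 18)))) (.lf 6) (.lf 10)), 0, [23, 23, 23, 23, 11, 11, 11, 11], []⟩)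
    (.lf ⟨[.negSucc 3327, .ofNat 28008, .negSucc 4711, .ofNat 8336], (.tr (.lf 2) (.lf 18) (.tr (.lf 5) (.dx 3 (.tw (.lf 1) (.lf 17))) (.tr (.lf 9) (.lf 6) (.lf 10)))), 3, [11, 11, 11, 11, 14, 14, 14, 14], [11, 11, 9, 9]⟩))
    (.nd (.lf ⟨[.negSucc 6655, .ofNat 14016, .negSucc 1439, .negSucc 239], (.tr (.lf 2) (.lf 18) (.tr (.lf 5) (.tr (.lf 6) (.dx 3 (.tw (.lf 1) (.lf 17))) (.lf 9)) (.lf 10))), 3, [7, 7, 11, 11, 9, 9, 5, 5], [11, 11, 9, 9]⟩)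
    (.lf ⟨[.ofNat 0, .negSucc 6911, .negSucc 447, .negSucc 319], (.tr (.dx 3 (.tw (.lf 1) (.tr (.lf 17) (.tr (.lf 2) (.lf 9) (.lf 5)) (.lf 18)))) (.lf 6) (.lf 10)), 3, [11, 11, 11, 11, 11, 11, 11, 11], []⟩)))
    (.nd (.nd (.lf ⟨[.negSucc 33279, .negSucc 21439, .ofNat 65712, .ofNat 14832], (.tr (.dx 3 (.tw (.lf 17) (.tr (.lf 5) (.lf 9) (.tr (.lf 1) (.lf 18) (.lf 2))))) (.lf 6) (.lf 10)), 3, [11, 11, 11, 11, 11, 11, 11, 11], []⟩)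
    (.lf ⟨[.ofNat 0, .ofNat 1152, .negSucc 8271, .negSucc 1967], (.tr (.dx 0 (.tr (.lf 5) (.lf 13) (.lf 9))) (.lf 17) (.tr (.lf 6) (.tw (.lf 14) (.lf 18)) (.lf 10))), 0, [0, 0, 0, 0, 2, 2, 2, 2], [12, 12, 14, 14]⟩))
    (.nd (.lf ⟨[.ofNat 0, .negSucc 1151, .ofNat 8144, .ofNat 1808], (.tw (.lf 6) (.tr (.dx 0 (.tr (.lf 5) (.lf 13) (.lf 9))) (.tr (.lf 17) (.lf 10) (.lf 18)) (.lf 14))), 0, [4, 4, 4, 4, 3, 1, 3, 1], [16, 16, 15, 15]⟩)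
    (.lf ⟨[.ofNat 0, .ofNat 1792, .ofNat 3008, .ofNat 704], (.tw (.lf 6) (.tr (.lf 10) (.lf 14) (.tr (.lf 17) (.dx 0 (.tr (.lf 9) (.lf 5) (.lf 13))) (.lf 18)))), 0, [8, 8, 8, 8, 16, 16, 16, 16], [8, 8, 16, 16]⟩))))

/-- data -/
def dE13x19 : RT := (.nd (.nd (.nd (.lf ⟨[.ofNat 0, .negSucc 255, .ofNat 14288, .negSucc 2735], (.tw (.dx 0 (.tr (.lf 5) (.lf 9) (.lf 13))) (.tr (.lf 6) (.lf 14) (.tr (.lf 17) (.lf 10) (.lf 18)))), 0, [0, 0, 0, 0, 2, 2, 2, 2], [0, 0, 14, 14]⟩)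
    (.lf ⟨[.ofNat 0, .ofNat 3776, .negSucc 4303, .ofNat 784], (.tw (.lf 6) (.tr (.dx 0 (.tr (.lf 5) (.lf 13) (.lf 9))) (.lf 14) (.tr (.lf 17) (.lf 10) (.lf 18)))), 0, [4, 4, 4, 4, 3, 1, 3, 1], [4, 4, 20, 20]⟩))
    (.nd (.lf ⟨[.ofNat 0, .ofNat 3520, .ofNat 256, .ofNat 656], (.tw (.lf 17) (.tr (.lf 6) (.tr (.dx 0 (.tr (.lf 5) (.lf 13) (.lf 9))) (.lf 14) (.lf 18)) (.lf 10))), 0, [19, 19, 7, 7, 17, 17, 5, 5], [19, 7, 17, 5]⟩)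
    (.lf ⟨[.ofNat 0, .ofNat 16096, .negSucc 13103, .negSucc 1559], (.tw (.dx 3 (.tr (.lf 1) (.tr (.lf 5) (.tr (.lf 2) (.lf 17) (.lf 9)) (.lf 6)) (.lf 18))) (.lf 10)), 3, [11, 11, 11, 11, 7, 7, 7, 7], []⟩)))
    (.nd (.nd (.lf ⟨[.ofNat 0, .negSucc 10015, .ofNat 11232, .ofNat 1384], (.tw (.dx 3 (.tr (.lf 17) (.lf 1) (.tr (.lf 5) (.tr (.lf 2) (.lf 9) (.lf 18)) (.lf 6)))) (.lf 10)), 3, [11, 11, 11, 11, 7, 7, 7, 7], []⟩)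
    (.lf ⟨[.ofNat 0, .negSucc 64415, .ofNat 18304, .negSucc 9047], (.tw (.dx 3 (.tr (.lf 17) (.lf 1) (.tr (.lf 9) (.lf 18) (.tr (.lf 5) (.lf 2) (.lf 6))))) (.lf 10)), 3, [11, 11, 11, 11, 7, 7, 7, 7], []⟩))
    (.nd (.lf ⟨[.ofNat 0, .ofNat 4864, .negSucc 6207, .negSucc 1503], (.tw (.dx 3 (.tr (.lf 1) (.tr (.lf 17) (.lf 9) (.tr (.lf 5) (.lf 2) (.lf 6))) (.lf 18))) (.lf 10)), 3, [11, 11, 11, 11, 7, 7, 7, 7], []⟩)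
    (.lf ⟨[.ofNat 0, .ofNat 3200, .negSucc 4927, .negSucc 1279], (.tw (.dx 3 (.tr (.lf 9) (.lf 17) (.tr (.lf 18) (.lf 1) (.tr (.lf 5) (.lf 2) (.lf 6))))) (.lf 10)), 3, [11, 11, 7, 7, 11, 11, 7, 7], []⟩))))

/-- data -/
def dE13x20 : RT := (.nd (.nd (.nd (.lf ⟨[.ofNat 0, .negSucc 31631, .negSucc 1359, .negSucc 10671], (.tw (.dx 0 (.tr (.lf 13) (.tr (.lf 14) (.lf 5) (.tr (.lf 9) (.lf 6) (.lf 10))) (.lf 17))) (.lf 18)), 0, [0, 0, 2, 2, 12, 12, 14, 14], []⟩)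
    (.lf ⟨[.ofNat 0, .ofNat 34832, .negSucc 3567, .ofNat 9392], (.tw (.dx 0 (.tr (.lf 13) (.lf 14) (.tr (.lf 17) (.lf 5) (.tr (.lf 9) (.lf 6) (.lf 10))))) (.lf 18)), 0, [0, 0, 2, 2, 12, 12, 14, 14], []⟩))
    (.nd (.lf ⟨[.ofNat 0, .negSucc 31631, .negSucc 1359, .negSucc 10671], (.tw (.dx 0 (.tr (.lf 5) (.tr (.lf 13) (.lf 17) (.tr (.lf 9) (.lf 6) (.lf 10))) (.lf 14))) (.lf 18)), 0, [0, 0, 12, 12, 2, 2, 2, 2], []⟩)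
    (.lf ⟨[.ofNat 0, .negSucc 6655, .ofNat 12160, .ofNat 128], (.tr (.lf 9) (.lf 13) (.tr (.lf 10) (.lf 17) (.tr (.lf 14) (.tw (.dx 0 (.lf 5)) (.lf 6)) (.lf 18)))), 0, [6, 10, 6, 10, 1017, 1017, 1017, 1017], [6, 10, 6, 10, 1017, 1017, 1017, 1017]⟩)))
    (.nd (.nd (.lf ⟨[.ofNat 1664, .negSucc 5567, .negSucc 7039, .ofNat 3424], (.tr (.lf 6) (.tr (.dx 0 (.tr (.lf 13) (.tw (.lf 5) (.lf 9)) (.lf 17))) (.lf 14) (.lf 18)) (.lf 10)), 0, [4, 4, 16, 16, 19, 19, 7, 7], [4, 7]⟩)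
    (.lf ⟨[.ofNat 0, .ofNat 1344, .ofNat 12416, .negSucc 1663], (.tr (.lf 2) (.tr (.lf 10) (.dx 3 (.tr (.tw (.lf 1) (.lf 5)) (.lf 17) (.lf 9))) (.lf 18)) (.lf 6)), 3, [2, 2, 2, 2, 9, 9, 9, 9], [2, 9]⟩))
    (.nd (.lf ⟨[.ofNat 0, .ofNat 0, .ofNat 128, .ofNat 160], (.tr (.lf 6) (.tr (.lf 14) (.dx 0 (.tr (.tw (.lf 5) (.lf 9)) (.lf 13) (.lf 17))) (.lf 18)) (.lf 10)), 0, [4, 4, 19, 19, 16, 16, 7, 7], [1015, 1015]⟩)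
    (.lf ⟨[.ofNat 0, .ofNat 8128, .ofNat 14832, .negSucc 3591], (.tr (.lf 2) (.tr (.dx 3 (.tr (.lf 9) (.tw (.lf 1) (.lf 5)) (.lf 17))) (.lf 10) (.lf 18)) (.lf 6)), 3, [2, 2, 21, 21, 14, 14, 9, 9], [1017, 1017]⟩))))

/-- data -/
def dE13x21 : RT := (.nd (.nd (.nd (.lf ⟨[.ofNat 0, .negSucc 10207, .negSucc 10575, .ofNat 128], (.tr (.lf 2) (.lf 18) (.tr (.lf 6) (.dx 3 (.tr (.tw (.lf 5) (.lf 9)) (.lf 1) (.lf 17))) (.lf 10))), 3, [12, 12, 11, 11, 14, 14, 9, 9], [1023, 1017]⟩)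
    (.lf ⟨[.ofNat 0, .ofNat 24128, .negSucc 511, .negSucc 8847], (.tr (.dx 0 (.tr (.lf 13) (.lf 5) (.tr (.lf 9) (.lf 6) (.lf 17)))) (.tw (.lf 14) (.lf 18)) (.lf 10)), 0, [0, 0, 0, 0, 14, 14, 12, 12], []⟩))
    (.nd (.lf ⟨[.ofNat 0, .negSucc 18751, .ofNat 2656, .ofNat 96], (.tr (.dx 0 (.tr (.lf 9) (.tr (.lf 5) (.lf 17) (.lf 6)) (.lf 13))) (.lf 14) (.tw (.lf 10) (.lf 18))), 0, [14, 14, 14, 14, 0, 0, 0, 0], []⟩)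
    (.lf ⟨[.ofNat 0, .ofNat 9408, .ofNat 3712, .ofNat 1888], (.tr (.tw (.dx 0 (.tr (.lf 9) (.tr (.lf 5) (.lf 17) (.lf 6)) (.lf 13))) (.lf 14)) (.lf 10) (.lf 18)), 0, [14, 14, 0, 0, 2, 2, 19, 19], []⟩)))
    (.nd (.nd (.lf ⟨[.ofNat 0, .ofNat 38288, .ofNat 9184, .ofNat 12128], (.tr (.dx 0 (.tr (.lf 13) (.tr (.lf 5) (.lf 9) (.lf 6)) (.lf 17))) (.lf 14) (.tw (.lf 10) (.lf 18))), 0, [0, 0, 0, 0, 12, 12, 12, 12], []⟩)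
    (.lf ⟨[.ofNat 0, .negSucc 36559, .negSucc 8799, .negSucc 12159], (.tr (.dx 0 (.tr (.lf 13) (.tr (.lf 5) (.lf 9) (.lf 6)) (.lf 17))) (.tw (.lf 10) (.lf 14)) (.lf 18)), 0, [0, 0, 0, 0, 12, 12, 12, 12], []⟩))
    (.nd (.lf ⟨[.ofNat 0, .ofNat 12928, .negSucc 4287, .ofNat 2944], (.tr (.dx 0 (.tr (.lf 13) (.lf 5) (.tr (.lf 9) (.lf 6) (.lf 17)))) (.lf 10) (.tw (.lf 14) (.lf 18))), 0, [0, 0, 0, 0, 14, 14, 12, 12], []⟩)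
    (.lf ⟨[.ofNat 0, .negSucc 4063, .negSucc 12431, .ofNat 728], (.tr (.tw (.dx 3 (.tr (.lf 5) (.lf 9) (.tr (.lf 1) (.lf 17) (.lf 2)))) (.lf 6)) (.lf 10) (.lf 18)), 3, [8, 8, 23, 23, 8, 8, 4, 4], []⟩))))

/-- data -/
def dE13x22 : RT := (.nd (.nd (.nd (.lf ⟨[.ofNat 0, .ofNat 3264, .negSucc 10239, .ofNat 2528], (.tr (.lf 6) (.dx 3 (.tr (.lf 5) (.lf 9) (.tr (.lf 1) (.lf 17) (.lf 2)))) (.tw (.lf 10) (.lf 18))), 3, [8, 8, 8, 8, 4, 4, 4, 4], []⟩)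
    (.lf ⟨[.ofNat 0, .ofNat 5536, .negSucc 6783, .ofNat 1200], (.tr (.tw (.dx 3 (.tr (.lf 5) (.lf 17) (.tr (.lf 1) (.lf 9) (.lf 2)))) (.lf 6)) (.lf 10) (.lf 18)), 3, [23, 23, 2, 2, 4, 4, 4, 4], []⟩))
    (.nd (.lf ⟨[.ofNat 0, .negSucc 30671, .negSucc 9343, .negSucc 16783], (.tr (.lf 6) (.dx 3 (.tr (.lf 5) (.lf 17) (.tr (.lf 1) (.lf 9) (.lf 2)))) (.tw (.lf 10) (.lf 18))), 3, [4, 4, 4, 4, 4, 4, 4, 4], []⟩)
    (.lf ⟨[.ofNat 0, .negSucc 5823, .ofNat 12288, .negSucc 2399], (.tr (.lf 14) (.tw (.dx 0 (.tr (.lf 5) (.lf 13) (.tr (.lf 6) (.lf 17) (.lf 9)))) (.lf 10)) (.lf 18)), 0, [19, 19, 19, 19, 6, 6, 6, 6], []⟩)))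
    (.nd (.nd (.lf ⟨[.ofNat 0, .negSucc 16319, .ofNat 2240, .negSucc 2047], (.tr (.lf 14) (.tw (.dx 0 (.tr (.lf 13) (.lf 5) (.tr (.lf 9) (.lf 6) (.lf 17)))) (.lf 10)) (.lf 18)), 0, [19, 19, 2, 19, 6, 15, 6, 6], []⟩)
    (.lf ⟨[.ofNat 0, .negSucc 2623, .negSucc 5663, .ofNat 176], (.tr (.dx 3 (.tr (.lf 1) (.lf 5) (.lf 9))) (.lf 2) (.tr (.lf 17) (.tw (.lf 6) (.lf 10)) (.lf 18))), 3, [0, 0, 0, 0, 10, 10, 10, 10], [23, 21, 23, 21]⟩))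
    (.nd (.lf ⟨[.ofNat 6656, .ofNat 33056, .negSucc 21039, .negSucc 4791], (.tr (.dx 3 (.tr (.lf 5) (.lf 9) (.tr (.lf 1) (.lf 17) (.lf 2)))) (.lf 6) (.tw (.lf 10) (.lf 18))), 3, [8, 23, 8, 23, 23, 23, 23, 23], []⟩)
    (.lf ⟨[.negSucc 33279, .negSucc 33503, .ofNat 57968, .ofNat 20944], (.tw (.lf 9) (.tr (.dx 3 (.tr (.lf 1) (.lf 17) (.lf 5))) (.tr (.lf 2) (.lf 10) (.lf 6)) (.lf 18))), 3, [6, 6, 10, 10, 18, 18, 22, 22], [6, 10, 18, 22]⟩))))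

/-- data -/
def dE13x23 : RT := (.nd (.nd (.nd (.lf ⟨[.negSucc 33279, .negSucc 36127, .ofNat 58608, .ofNat 20944], (.tr (.lf 6) (.dx 3 (.tr (.lf 9) (.lf 5) (.tr (.lf 1) (.lf 17) (.lf 2)))) (.tw (.lf 10) (.lf 18))), 3, [8, 8, 8, 8, 4, 4, 4, 4], []⟩)
    (.lf ⟨[.ofNat 33280, .ofNat 39136, .negSucc 57631, .negSucc 20943], (.tr (.tw (.dx 3 (.tr (.lf 9) (.lf 5) (.tr (.lf 1) (.lf 17) (.lf 2)))) (.lf 6)) (.lf 18) (.lf 10)), 3, [23, 23, 23, 23, 8, 8, 4, 4], []⟩))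
    (.nd (.lf ⟨[.ofNat 0, .negSucc 2623, .ofNat 640], (.tw (.dx 3 (.tr (.lf 1) (.lf 17) (.lf 5))) (.tr (.lf 9) (.lf 18) (.tr (.lf 2) (.lf 10) (.lf 6)))), 3, [21, 15, 23, 19, 21, 15, 23, 19], [21, 15, 23, 19]⟩)
    (.lf ⟨[.negSucc 33279, .negSucc 24767, .ofNat 71792, .ofNat 14896], (.tr (.dx 3 (.tr (.lf 5) (.lf 9) (.tr (.lf 1) (.lf 17) (.lf 2)))) (.tw (.lf 6) (.lf 18)) (.lf 10)), 3, [23, 23, 23, 23, 23, 23, 23, 23], []⟩)))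
    (.nd (.nd (.lf ⟨[.ofNat 0, .ofNat 23408, .ofNat 15744, .ofNat 15616], (.tr (.lf 6) (.tw (.dx 3 (.tr (.lf 5) (.lf 17) (.tr (.lf 1) (.lf 9) (.lf 2)))) (.lf 10)) (.lf 18)), 3, [4, 4, 4, 4, 8, 8, 8, 8], []⟩)
    (.lf ⟨[.ofNat 0, .negSucc 19599, .negSucc 10495, .negSucc 14063], (.tr (.tw (.lf 6) (.lf 10)) (.dx 3 (.tr (.lf 5) (.lf 17) (.tr (.lf 1) (.lf 9) (.lf 2)))) (.lf 18)), 3, [8, 8, 8, 8, 10, 10, 10, 10], []⟩))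
    (.nd (.lf ⟨[.ofNat 0, .ofNat 22096, .ofNat 1200, .ofNat 10432], (.tr (.tw (.dx 3 (.tr (.lf 5) (.lf 17) (.tr (.lf 1) (.lf 9) (.lf 2)))) (.lf 18)) (.lf 6) (.lf 10)), 3, [23, 23, 23, 23, 11, 11, 11, 11], []⟩)
    (.lf ⟨[.ofNat 0, .negSucc 31631, .negSucc 1359, .negSucc 10671], (.tr (.dx 3 (.tr (.lf 5) (.lf 17) (.tr (.lf 1) (.lf 9) (.lf 2)))) (.lf 18) (.tw (.lf 6) (.lf 10))), 3, [23, 21, 23, 21, 23, 21, 23, 21], []⟩))))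

/-- data -/
def dE13x24 : RT := (.nd (.nd (.nd (.lf ⟨[.ofNat 0, .ofNat 25808, .negSucc 1215, .ofNat 11016], (.tr (.lf 6) (.tw (.dx 3 (.tr (.lf 5) (.lf 17) (.tr (.lf 1) (.lf 9) (.lf 2)))) (.lf 18)) (.lf 10)), 3, [4, 4, 4, 4, 7, 7, 11, 11], []⟩)
    (.lf ⟨[.ofNat 0, .ofNat 5536, .negSucc 479, .ofNat 1024], (.tr (.dx 3 (.tr (.lf 1) (.tr (.lf 9) (.tw (.lf 2) (.lf 5)) (.lf 17)) (.lf 6))) (.lf 10) (.lf 18)), 3, [2, 2, 0, 1023, 8, 8, 1015, 4], []⟩))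
    (.nd (.lf ⟨[.ofNat 39936, .ofNat 21632, .negSucc 70799, .negSucc 27439], (.tr (.dx 3 (.tr (.lf 1) (.lf 17) (.lf 5))) (.lf 9) (.tr (.tw (.lf 2) (.lf 6)) (.lf 10) (.lf 18))), 3, [23, 19, 17, 13, 23, 19, 17, 13], [1017, 1017, 17, 13]⟩)
    (.lf ⟨[.ofNat 0, .negSucc 5391, .ofNat 880, .negSucc 511], (.tr (.dx 3 (.tr (.lf 1) (.lf 9) (.tr (.lf 5) (.tw (.lf 2) (.lf 17)) (.lf 6)))) (.lf 10) (.lf 18)), 3, [2, 2, 2, 2, 4, 1015, 4, 1015], []⟩)))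
    (.nd (.nd (.lf ⟨[.ofNat 0, .ofNat 144, .ofNat 400, .ofNat 512], (.tr (.dx 3 (.tw (.lf 1) (.tr (.lf 5) (.tr (.lf 9) (.lf 2) (.lf 17)) (.lf 6)))) (.lf 10) (.lf 18)), 3, [0, 0, 0, 0, 8, 1015, 8, 1015], []⟩)
    (.lf ⟨[.ofNat 0, .negSucc 4415, .negSucc 1567, .negSucc 399], (.tr (.dx 0 (.tr (.lf 13) (.lf 5) (.lf 17))) (.tr (.lf 9) (.tw (.lf 6) (.lf 18)) (.lf 10)) (.lf 14)), 0, [0, 0, 0, 0, 12, 12, 12, 12], [14, 14, 14, 14]⟩))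
    (.nd (.lf ⟨[.ofNat 0, .negSucc 351, .ofNat 3872, .ofNat 608], (.tr (.dx 3 (.tw (.lf 9) (.tr (.lf 1) (.tw (.lf 5) (.lf 17)) (.lf 2)))) (.lf 6) (.tw (.lf 10) (.lf 18))), 3, [6, 23, 1017, 23, 6, 23, 1017, 23, 1023, 23, 23, 23, 1023, 23, 23, 23], []⟩)
    (.lf ⟨[.ofNat 0, .negSucc 4895, .negSucc 2591, .negSucc 607], (.tr (.tw (.dx 3 (.tw (.lf 9) (.tr (.lf 1) (.tw (.lf 5) (.lf 17)) (.lf 2)))) (.lf 6)) (.lf 10) (.lf 18)), 3, [6, 1017, 6, 1017, 1023, 23, 1023, 23, 8, 8, 8, 8, 4, 4, 4, 4], []⟩))))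

/-- data -/
def dE13 : RT := (.nd (.nd (.nd (.nd dE13x0 (.nd dE13x1 dE13x2)) (.nd dE13x3 (.nd dE13x4 dE13x5))) (.nd (.nd dE13x6 (.nd dE13x7 dE13x8)) (.nd dE13x9 (.nd dE13x10 dE13x11)))) (.nd (.nd (.nd dE13x12 (.nd dE13x13 dE13x14)) (.nd dE13x15 (.nd dE13x16 dE13x17))) (.nd (.nd dE13x18 (.nd dE13x19 dE13x20)) (.nd (.nd dE13x21 dE13x22) (.nd dE13x23 dE13x24)))))

/-- data -/
def lE13x0 : List (ℕ × List ℤ) := [(5419, [.ofNat 0, .negSucc 13311, .ofNat 33792, .negSucc 43007, .negSucc 14079]),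
  (42269, [.ofNat 0, .ofNat 0, .ofNat 0, .ofNat 768, .negSucc 3007]),
  (42773, [.ofNat 0, .ofNat 0, .negSucc 28159, .negSucc 3711, .negSucc 1599]),
  (42781, [.ofNat 0, .ofNat 159744, .ofNat 86528, .negSucc 283199, .negSucc 109759]),
  (43221, [.ofNat 0, .ofNat 0, .negSucc 17663, .negSucc 6271, .negSucc 1599]),
  (43229, [.ofNat 0, .ofNat 0, .ofNat 0, .ofNat 0, .negSucc 1407]),
  (43237, [.ofNat 0, .ofNat 0, .negSucc 4607, .ofNat 32576, .ofNat 7232]),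
  (43244, [.ofNat 0, .ofNat 0, .negSucc 2815, .ofNat 23168, .negSucc 63]),
  (43357, [.ofNat 0, .ofNat 0, .negSucc 35327, .negSucc 52991, .ofNat 2368]),
  (50269, [.ofNat 0, .ofNat 0, .negSucc 10495, .ofNat 2560]),
  (50461, [.ofNat 0, .ofNat 79872, .negSucc 69055, .negSucc 195647, .negSucc 37471]),
  (50475, [.ofNat 0, .ofNat 0, .ofNat 21248, .ofNat 51456, .negSucc 5631]),
  (50524, [.ofNat 0, .ofNat 0, .ofNat 56576, .ofNat 27648, .ofNat 5504]),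
  (50525, [.ofNat 0, .negSucc 133119, .negSucc 353087, .ofNat 270656, .ofNat 137376]),
  (50531, [.ofNat 0, .negSucc 13311, .negSucc 8959, .negSucc 36991, .ofNat 33024]),
  (51868, [.ofNat 0, .ofNat 0, .ofNat 14080, .ofNat 1024, .ofNat 2624]),
  (135837, [.ofNat 0, .ofNat 0, .ofNat 0, .ofNat 768, .negSucc 1599]),
  (136477, [.ofNat 0, .ofNat 0, .negSucc 11775, .negSucc 11711, .ofNat 7360]),
  (312477, [.ofNat 0, .ofNat 0, .ofNat 0, .ofNat 3328, .negSucc 9727, .ofNat 640]),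
  (312491, [.ofNat 0, .ofNat 26624, .negSucc 56063, .ofNat 3200, .negSucc 2879, .negSucc 5183, .negSucc 127]),
  (333995, [.ofNat 0, .ofNat 13312, .negSucc 112031, .ofNat 18848, .negSucc 33343]),
  (338141, [.ofNat 0, .ofNat 0, .ofNat 0, .negSucc 4671, .negSucc 10991, .negSucc 223]),
  (342173, [.ofNat 0, .ofNat 0, .ofNat 0, .negSucc 4671, .negSucc 10991, .negSucc 223]),
  (344733, [.ofNat 0, .ofNat 0, .ofNat 0, .ofNat 3328, .negSucc 9727, .ofNat 640]),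
  (344747, [.ofNat 0, .ofNat 26624, .negSucc 56063, .ofNat 3200, .negSucc 2879, .negSucc 5183, .negSucc 127]),
  (345741, [.ofNat 0, .ofNat 0, .ofNat 0, .negSucc 4863]),
  (402091, [.ofNat 0, .ofNat 13312, .negSucc 112031, .ofNat 18848, .negSucc 33343]),
  (1090653, [.ofNat 0, .ofNat 0, .ofNat 0, .negSucc 4863]),
  (2499805, [.ofNat 0, .ofNat 0, .ofNat 0, .ofNat 128, .negSucc 319]),
  (2701069, [.ofNat 0, .ofNat 0, .ofNat 3328, .negSucc 9599, .ofNat 320]),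
  (2701613, [.ofNat 0, .ofNat 0, .ofNat 7296, .negSucc 10591, .negSucc 127]),
  (2734413, [.ofNat 0, .ofNat 0, .ofNat 4096, .ofNat 3904, .negSucc 319]),
  (2757995, [.ofNat 0, .negSucc 16639, .ofNat 40384, .ofNat 5840, .negSucc 4447, .negSucc 127]),
  (2758380, [.ofNat 0, .ofNat 0, .ofNat 0, .ofNat 384, .negSucc 799]),
  (2763619, [.ofNat 0, .ofNat 0, .negSucc 767, .ofNat 704]),
  (2766668, [.ofNat 0, .ofNat 0, .ofNat 4096, .ofNat 3904, .negSucc 319]),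
  (2766698, [.ofNat 0, .ofNat 16640, .negSucc 40383, .negSucc 5839, .ofNat 4448, .ofNat 128]),
  (2769579, [.ofNat 0, .ofNat 16640, .negSucc 40383, .negSucc 5839, .ofNat 4448, .ofNat 128]),
  (2770666, [.ofNat 0, .negSucc 16639, .ofNat 40384, .ofNat 5840, .negSucc 4447, .negSucc 127]),
  (2774732, [.ofNat 0, .ofNat 0, .ofNat 0, .ofNat 384, .negSucc 799]),
  (3201181, [.ofNat 0, .ofNat 0, .ofNat 13312, .negSucc 24319, .negSucc 255]),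
  (3201692, [.ofNat 0, .ofNat 0, .ofNat 13312, .negSucc 24319, .negSucc 255]),
  (3217251, [.ofNat 0, .negSucc 13311, .negSucc 27807, .ofNat 47792, .negSucc 3135]),
  (3222221, [.ofNat 0, .ofNat 0, .negSucc 4095, .negSucc 3903, .ofNat 320]),
  (3224419, [.ofNat 0, .negSucc 13311, .negSucc 27807, .ofNat 47792, .negSucc 3135]),
  (3234013, [.ofNat 0, .ofNat 0, .ofNat 0, .ofNat 1536, .ofNat 7232, .ofNat 128]),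
  (3234524, [.ofNat 0, .ofNat 0, .ofNat 0, .ofNat 1536, .ofNat 7232, .ofNat 128]),
  (3318988, [.ofNat 0, .ofNat 0, .negSucc 4095, .negSucc 3903, .ofNat 320]),
  (8733933, [.ofNat 0, .ofNat 0, .ofNat 0, .ofNat 11264, .negSucc 3199]),
  (8738021, [.ofNat 0, .ofNat 0, .ofNat 0, .negSucc 11263, .ofNat 3200]),
  (20010725, [.ofNat 0, .ofNat 0, .ofNat 1536, .ofNat 7232, .ofNat 128]),
  (20011740, [.ofNat 0, .ofNat 0, .negSucc 1535, .negSucc 7231, .negSucc 127]),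
  (20063595, [.ofNat 0, .ofNat 0, .ofNat 5632, .negSucc 1599]),
  (21633245, [.ofNat 0, .ofNat 0, .ofNat 3904, .ofNat 12592, .ofNat 224]),
  (21633387, [.ofNat 0, .ofNat 0, .ofNat 4864]),
  (21633765, [.ofNat 0, .ofNat 0, .ofNat 16640, .negSucc 2015]),
  (21633884, [.ofNat 0, .ofNat 0, .negSucc 767, .ofNat 1600]),
  (21641829, [.ofNat 0, .ofNat 0, .ofNat 0, .ofNat 704]),
  (21641997, [.ofNat 0, .ofNat 0, .negSucc 767, .ofNat 3008]),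
  (21645917, [.ofNat 0, .ofNat 0, .ofNat 384, .negSucc 799]),
  (21649125, [.ofNat 0, .ofNat 0, .negSucc 767, .ofNat 1600]),
  (21650019, [.ofNat 0, .ofNat 0, .negSucc 16255, .ofNat 1920]),
  (21896034, [.ofNat 0, .ofNat 0, .negSucc 16255, .ofNat 1920]),
  (21899085, [.ofNat 0, .ofNat 0, .ofNat 3904, .ofNat 12592, .ofNat 224]),
  (21899109, [.ofNat 0, .ofNat 0, .ofNat 3200, .negSucc 1599]),
  (21911709, [.ofNat 0, .ofNat 0, .negSucc 2431]),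
  (21912162, [.ofNat 0, .ofNat 0, .negSucc 16255, .ofNat 1920]),
  (22063843, [.ofNat 0, .ofNat 0, .negSucc 1919, .negSucc 4511, .negSucc 63]),
  (22063851, [.ofNat 0, .ofNat 0, .negSucc 4927, .ofNat 2256, .negSucc 127]),
  (22063915, [.ofNat 0, .ofNat 0, .negSucc 1535, .negSucc 7231, .negSucc 127]),
  (22071018, [.ofNat 0, .ofNat 0, .negSucc 1023, .ofNat 14848, .ofNat 96]),
  (22075109, [.ofNat 0, .ofNat 0, .ofNat 384, .negSucc 799]),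
  (22092515, [.ofNat 0, .ofNat 0, .negSucc 1919, .negSucc 4511, .negSucc 63]),
  (22127461, [.ofNat 0, .ofNat 0, .ofNat 4864]),
  (22133349, [.ofNat 0, .ofNat 0, .ofNat 0, .ofNat 704]),
  (22133354, [.ofNat 0, .ofNat 0, .ofNat 1024, .negSucc 14847, .negSucc 95]),
  (22133517, [.ofNat 0, .ofNat 0, .negSucc 5631, .ofNat 3008]),
  (22133580, [.ofNat 0, .ofNat 0, .ofNat 384, .negSucc 799]),
  (22135467, [.ofNat 0, .ofNat 0, .ofNat 6848, .ofNat 2256, .ofNat 192]),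
  (22135915, [.ofNat 0, .ofNat 0, .ofNat 1920, .ofNat 4512, .ofNat 64]),
  (22141258, [.ofNat 0, .ofNat 0, .ofNat 4864]),
  (22156651, [.ofNat 0, .ofNat 0, .ofNat 7168, .ofNat 5632, .ofNat 128]),
  (22198029, [.ofNat 0, .ofNat 0, .negSucc 4863]),
  (25504107, [.ofNat 0, .ofNat 0, .negSucc 4863]),
  (25508517, [.ofNat 0, .ofNat 0, .ofNat 7424, .negSucc 9151, .negSucc 127]),
  (25508692, [.ofNat 0, .ofNat 0, .negSucc 4863]),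
  (25737061, [.ofNat 0, .ofNat 0, .ofNat 9600, .ofNat 5632, .ofNat 128]),
  (25745125, [.ofNat 0, .ofNat 0, .negSucc 4479, .negSucc 1503]),
  (25745629, [.ofNat 0, .ofNat 0, .negSucc 4863, .negSucc 703]),
  (25762533, [.ofNat 0, .ofNat 0, .negSucc 383, .ofNat 1504]),
  (25762589, [.ofNat 0, .ofNat 0, .negSucc 383, .ofNat 1504]),
  (25762652, [.ofNat 0, .ofNat 0, .negSucc 767, .ofNat 1600]),
  (25762659, [.ofNat 0, .ofNat 0, .ofNat 16256, .negSucc 1919]),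
  (25770221, [.ofNat 0, .ofNat 0, .ofNat 4864]),
  (25770347, [.ofNat 0, .ofNat 0, .ofNat 768, .negSucc 1599]),
  (25777772, [.ofNat 0, .ofNat 0, .ofNat 4864]),
  (25803114, [.ofNat 0, .ofNat 0, .ofNat 768, .negSucc 1599]),
  (25835181, [.ofNat 0, .ofNat 0, .negSucc 4863]),
  (25859813, [.ofNat 0, .ofNat 0, .negSucc 17023, .ofNat 3520]),
  (25860317, [.ofNat 0, .ofNat 0, .negSucc 767, .ofNat 2304])]

/-- data -/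
def lE13x1 : List (ℕ × List ℤ) := [(25867365, [.ofNat 0, .ofNat 0, .ofNat 7424, .negSucc 9151, .negSucc 127]),
  (25867884, [.ofNat 0, .ofNat 0, .negSucc 383, .ofNat 800]),
  (25868045, [.ofNat 0, .ofNat 0, .negSucc 767, .ofNat 2304]),
  (25876108, [.ofNat 0, .ofNat 0, .negSucc 4863]),
  (26290893, [.ofNat 0, .ofNat 0, .negSucc 383, .ofNat 800]),
  (26519773, [.ofNat 0, .ofNat 0, .negSucc 4863, .negSucc 703]),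
  (26548445, [.ofNat 0, .ofNat 0, .negSucc 895, .ofNat 6528, .ofNat 128]),
  (26548956, [.ofNat 0, .ofNat 0, .negSucc 4863]),
  (26551909, [.ofNat 0, .ofNat 0, .negSucc 767, .ofNat 1600]),
  (26552413, [.ofNat 0, .ofNat 0, .negSucc 895, .ofNat 6528, .ofNat 128]),
  (26552525, [.ofNat 0, .ofNat 0, .negSucc 5631, .ofNat 1600]),
  (26555165, [.ofNat 0, .ofNat 0, .ofNat 4096, .ofNat 2304]),
  (26559133, [.ofNat 0, .ofNat 0, .ofNat 4096, .ofNat 2304]),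
  (26612957, [.ofNat 0, .ofNat 0, .negSucc 767, .ofNat 1600]),
  (26616541, [.ofNat 0, .ofNat 0, .negSucc 9599, .negSucc 5631, .negSucc 127]),
  (26649692, [.ofNat 0, .ofNat 0, .negSucc 383, .ofNat 800]),
  (69547877, [.ofNat 0, .ofNat 0, .ofNat 9984, .negSucc 255]),
  (69548821, [.ofNat 0, .ofNat 0, .ofNat 384, .negSucc 1503]),
  (69551789, [.ofNat 0, .ofNat 0, .ofNat 4864]),
  (69552853, [.ofNat 0, .ofNat 0, .ofNat 384, .negSucc 799]),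
  (69555429, [.ofNat 0, .ofNat 0, .ofNat 768, .negSucc 1599]),
  (69555941, [.ofNat 0, .ofNat 0, .negSucc 767, .ofNat 896]),
  (69556381, [.ofNat 0, .ofNat 0, .negSucc 767, .ofNat 2304]),
  (69556445, [.ofNat 0, .ofNat 0, .negSucc 767, .ofNat 896]),
  (69641445, [.ofNat 0, .ofNat 0, .ofNat 9600, .ofNat 1248]),
  (69641501, [.ofNat 0, .ofNat 0, .negSucc 767, .ofNat 2304]),
  (69642397, [.ofNat 0, .ofNat 0, .negSucc 767, .ofNat 2304]),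
  (69642453, [.ofNat 0, .ofNat 0, .ofNat 768, .negSucc 2303]),
  (69801829, [.ofNat 0, .ofNat 0, .ofNat 13824, .ofNat 1600]),
  (69810917, [.ofNat 0, .ofNat 0, .ofNat 4864]),
  (69812973, [.ofNat 0, .ofNat 0, .ofNat 5632, .negSucc 1599]),
  (69813869, [.ofNat 0, .ofNat 0, .ofNat 4864]),
  (69818085, [.ofNat 0, .ofNat 0, .ofNat 9600, .ofNat 1248]),
  (69842277, [.ofNat 0, .ofNat 0, .negSucc 767, .ofNat 1600]),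
  (69867245, [.ofNat 0, .ofNat 0, .ofNat 4864]),
  (69871341, [.ofNat 0, .ofNat 0, .negSucc 767, .ofNat 1600]),
  (69900061, [.ofNat 0, .ofNat 0, .ofNat 384, .negSucc 799]),
  (69904101, [.ofNat 0, .ofNat 0, .ofNat 768, .negSucc 1599]),
  (69907725, [.ofNat 0, .ofNat 0, .ofNat 384, .negSucc 799]),
  (70558949, [.ofNat 0, .ofNat 0, .ofNat 4864]),
  (77931237, [.ofNat 0, .ofNat 0, .negSucc 9727]),
  (159987557, [.ofNat 0, .negSucc 3327, .ofNat 9600, .negSucc 319]),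
  (160053098, [.ofNat 0, .ofNat 4096, .ofNat 3904, .negSucc 319]),
  (160089834, [.negSucc 13311, .ofNat 28032, .negSucc 2879, .negSucc 479]),
  (160777962, [.negSucc 13311, .ofNat 28032, .negSucc 2879, .negSucc 479]),
  (170764589, [.ofNat 0, .negSucc 3327, .ofNat 256, .ofNat 1216]),
  (170801829, [.negSucc 66559, .negSucc 26207, .ofNat 95888, .ofNat 24296]),
  (171026781, [.ofNat 0, .ofNat 14592, .negSucc 8095, .ofNat 2880]),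
  (171027180, [.ofNat 0, .negSucc 2303, .ofNat 16288, .ofNat 3616]),
  (171038548, [.ofNat 0, .ofNat 50656, .ofNat 2400, .negSucc 5023]),
  (171038891, [.ofNat 0, .ofNat 23808, .negSucc 7199, .ofNat 11632]),
  (171039458, [.ofNat 0, .ofNat 15040, .ofNat 33952, .ofNat 12816]),
  (171096235, [.ofNat 0, .ofNat 22144, .negSucc 4319, .ofNat 12112]),
  (172800301, [.ofNat 0, .negSucc 3967, .ofNat 10336, .negSucc 1087]),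
  (172804956, [.ofNat 0, .negSucc 6175, .negSucc 3327, .ofNat 464]),
  (172868453, [.ofNat 0, .negSucc 3327, .ofNat 9600, .negSucc 319]),
  (174705484, [.ofNat 0, .negSucc 6399, .ofNat 9856, .ofNat 2560]),
  (174902100, [.ofNat 0, .negSucc 6175, .negSucc 3327, .ofNat 464]),
  (175155549, [.ofNat 0, .ofNat 14080, .ofNat 20480, .negSucc 2591]),
  (175155948, [.ofNat 0, .negSucc 2303, .ofNat 16288, .ofNat 3616]),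
  (175162717, [.ofNat 0, .ofNat 86880, .negSucc 11999, .negSucc 20143]),
  (175166749, [.ofNat 0, .ofNat 8896, .ofNat 6784, .ofNat 1216]),
  (175167253, [.ofNat 0, .ofNat 1216, .negSucc 15135, .negSucc 12799]),
  (175167274, [.ofNat 0, .negSucc 19071, .negSucc 319, .negSucc 479]),
  (175167316, [.ofNat 0, .ofNat 3584, .negSucc 1279, .ofNat 448]),
  (175167330, [.ofNat 0, .ofNat 4416, .negSucc 3775, .ofNat 8976]),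
  (175167722, [.ofNat 0, .ofNat 1792, .negSucc 14335, .ofNat 9744]),
  (175199005, [.ofNat 0, .ofNat 5248, .negSucc 1279]),
  (175199019, [.ofNat 0, .ofNat 1664, .negSucc 2879, .negSucc 479]),
  (175200013, [.ofNat 0, .ofNat 704, .negSucc 6911, .negSucc 735]),
  (175200076, [.ofNat 0, .ofNat 10496, .ofNat 256, .ofNat 320]),
  (175200363, [.ofNat 0, .ofNat 1664, .negSucc 2879, .negSucc 479]),
  (175231653, [.ofNat 0, .ofNat 26752, .ofNat 19712, .negSucc 8383]),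
  (175231660, [.ofNat 0, .negSucc 12927, .ofNat 4288, .negSucc 2943]),
  (175231786, [.ofNat 0, .negSucc 14207, .negSucc 29151, .ofNat 7872]),
  (175231828, [.ofNat 0, .ofNat 18688, .negSucc 12735, .negSucc 3967]),
  (175231842, [.ofNat 0, .ofNat 13376, .negSucc 4799, .ofNat 8656]),
  (175232269, [.ofNat 0, .ofNat 8384, .ofNat 20320, .ofNat 12672]),
  (175233802, [.ofNat 0, .negSucc 767, .ofNat 704]),
  (175256909, [.negSucc 159743, .negSucc 91391, .ofNat 231808, .ofNat 83584]),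
  (175282410, [.ofNat 0, .ofNat 1664, .negSucc 2879, .negSucc 479]),
  (175282851, [.ofNat 0, .negSucc 20287, .negSucc 32607, .ofNat 10480]),
  (175282914, [.ofNat 0, .negSucc 20287, .negSucc 32607, .ofNat 10480]),
  (176543019, [.ofNat 3328, .negSucc 8447, .ofNat 10752, .ofNat 3520]),
  (176543075, [.negSucc 3327, .ofNat 11136, .ofNat 14080, .negSucc 6847]),
  (176600293, [.ofNat 0, .ofNat 7616, .ofNat 10496, .ofNat 3104]),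
  (176601301, [.ofNat 13312, .negSucc 41343, .negSucc 32479, .negSucc 13535]),
  (176732908, [.negSucc 66559, .negSucc 42879, .ofNat 131424, .ofNat 29664]),
  (176854827, [.ofNat 0, .ofNat 2688, .ofNat 24832, .negSucc 3327]),
  (176861925, [.ofNat 0, .ofNat 4992, .negSucc 18591, .negSucc 7263]),
  (176861995, [.ofNat 0, .ofNat 2688, .ofNat 24832, .negSucc 3327]),
  (176863563, [.ofNat 0, .negSucc 8799, .negSucc 1007, .ofNat 10632]),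
  (176990949, [.ofNat 0, .ofNat 12416, .ofNat 12480, .ofNat 608]),
  (176999083, [.ofNat 0, .ofNat 7552, .negSucc 8607, .ofNat 1568]),
  (176999146, [.negSucc 3327, .negSucc 2943, .negSucc 15615, .negSucc 15807]),
  (177001771, [.ofNat 0, .ofNat 0, .ofNat 1280]),
  (177001827, [.negSucc 3327, .ofNat 11136, .ofNat 13824, .negSucc 7167]),
  (177002282, [.negSucc 3327, .ofNat 128, .negSucc 575, .negSucc 1951]),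
  (177002338, [.ofNat 0, .ofNat 0, .negSucc 255, .negSucc 319]),
  (177002667, [.negSucc 3327, .ofNat 7040, .negSucc 21215, .ofNat 8032])]

/-- data -/
def lE13x2 : List (ℕ × List ℤ) := [(177002730, [.ofNat 0, .ofNat 0, .ofNat 0, .negSucc 319]),
  (177027685, [.ofNat 0, .ofNat 7616, .ofNat 10496, .ofNat 3104]),
  (177034027, [.ofNat 0, .negSucc 29727, .negSucc 4447, .negSucc 11647]),
  (177035371, [.ofNat 0, .negSucc 19231, .negSucc 34527, .negSucc 8319]),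
  (177083755, [.ofNat 0, .ofNat 4096, .ofNat 3904, .negSucc 319]),
  (177085141, [.negSucc 13311, .negSucc 16991, .ofNat 8160, .ofNat 4544]),
  (177091917, [.negSucc 79871, .negSucc 45695, .ofNat 115904, .ofNat 41792]),
  (177093205, [.ofNat 0, .negSucc 50655, .negSucc 2399, .ofNat 5024]),
  (177099498, [.ofNat 3328, .ofNat 10496, .ofNat 7008, .ofNat 17376]),
  (177117397, [.ofNat 0, .negSucc 7679, .negSucc 21919, .negSucc 14015]),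
  (177117523, [.ofNat 0, .negSucc 19231, .negSucc 34527, .negSucc 8319]),
  (177119973, [.ofNat 0, .ofNat 17408, .negSucc 6111, .negSucc 6655]),
  (177119980, [.ofNat 0, .negSucc 17407, .ofNat 6112, .ofNat 6656]),
  (177121611, [.ofNat 0, .negSucc 2047, .negSucc 24959, .negSucc 8463]),
  (177122059, [.ofNat 0, .ofNat 4928, .negSucc 32351, .ofNat 14448]),
  (177124012, [.ofNat 0, .negSucc 34079, .ofNat 41648, .ofNat 12024]),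
  (177124138, [.ofNat 0, .negSucc 8415, .ofNat 7440, .ofNat 17560]),
  (177128107, [.ofNat 0, .ofNat 10496, .negSucc 10463, .negSucc 6655]),
  (177128170, [.negSucc 3327, .ofNat 384, .ofNat 4416, .negSucc 543]),
  (177128282, [.ofNat 0, .negSucc 8319, .ofNat 8896, .ofNat 1568]),
  (177133322, [.ofNat 0, .ofNat 15040, .ofNat 33952, .ofNat 12816]),
  (177518763, [.ofNat 0, .negSucc 10495, .ofNat 10464, .ofNat 6656]),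
  (177518826, [.ofNat 0, .ofNat 8416, .negSucc 7439, .negSucc 17559]),
  (177519267, [.ofNat 0, .negSucc 10495, .ofNat 10464, .ofNat 6656]),
  (177522333, [.ofNat 0, .ofNat 63264, .ofNat 2720, .ofNat 21344]),
  (177522347, [.ofNat 0, .ofNat 1664, .negSucc 2879, .negSucc 479]),
  (177542941, [.ofNat 66560, .ofNat 49536, .negSucc 143583, .negSucc 29791]),
  (177543004, [.negSucc 66559, .negSucc 56703, .ofNat 130528, .ofNat 29024]),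
  (177555037, [.ofNat 0, .ofNat 19072, .ofNat 320, .ofNat 480]),
  (177575260, [.ofNat 0, .negSucc 13823, .negSucc 895, .negSucc 639]),
  (177575701, [.ofNat 0, .ofNat 19072, .ofNat 320, .ofNat 480]),
  (177578781, [.ofNat 0, .ofNat 3584, .ofNat 6016, .ofNat 1408]),
  (177586845, [.ofNat 0, .ofNat 3584, .ofNat 6016, .ofNat 1408]),
  (177587797, [.ofNat 66560, .ofNat 49536, .negSucc 143583, .negSucc 29791]),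
  (177591892, [.negSucc 66559, .negSucc 42879, .ofNat 131424, .ofNat 29664]),
  (177607901, [.ofNat 0, .negSucc 3327, .ofNat 9728, .negSucc 639]),
  (204068629, [.ofNat 0, .negSucc 1599, .negSucc 45343, .ofNat 6512]),
  (204068650, [.ofNat 0, .ofNat 6528, .negSucc 20479, .ofNat 5056]),
  (204069035, [.ofNat 0, .negSucc 20415, .negSucc 21151, .ofNat 256]),
  (204069588, [.negSucc 159743, .negSucc 91391, .ofNat 231808, .ofNat 83584]),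
  (204126932, [.negSucc 79871, .negSucc 45695, .ofNat 115904, .ofNat 41792]),
  (204813548, [.ofNat 0, .negSucc 122431, .ofNat 26752, .negSucc 20655]),
  (204813597, [.ofNat 0, .negSucc 3455, .negSucc 767, .ofNat 64]),
  (204813611, [.ofNat 0, .negSucc 9727, .negSucc 21119, .negSucc 11535]),
  (204875421, [.ofNat 0, .negSucc 13311, .ofNat 24320, .ofNat 256]),
  (204908188, [.ofNat 0, .negSucc 6911, .ofNat 14464, .negSucc 2303]),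
  (205870891, [.ofNat 0, .ofNat 51616, .negSucc 2431, .ofNat 22032]),
  (205900459, [.ofNat 0, .ofNat 0, .ofNat 256, .ofNat 320]),
  (205903147, [.ofNat 0, .negSucc 4159, .ofNat 8256, .negSucc 7247]),
  (205903658, [.ofNat 0, .ofNat 6016, .ofNat 1952]),
  (205904043, [.ofNat 0, .negSucc 4159, .ofNat 8256, .negSucc 7247]),
  (205956893, [.ofNat 0, .negSucc 9791, .negSucc 5183, .negSucc 1215]),
  (206093155, [.ofNat 13312, .ofNat 31136, .negSucc 16623, .negSucc 4687]),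
  (206150499, [.ofNat 13312, .ofNat 31136, .negSucc 16623, .negSucc 4687]),
  (206354773, [.ofNat 0, .negSucc 511, .ofNat 28576, .negSucc 5471]),
  (206358357, [.ofNat 0, .ofNat 86880, .negSucc 11999, .negSucc 20143]),
  (206359211, [.ofNat 0, .ofNat 0, .ofNat 256, .ofNat 320]),
  (206361836, [.ofNat 0, .ofNat 12160, .negSucc 3743, .negSucc 351]),
  (206361885, [.ofNat 0, .negSucc 895, .ofNat 1600]),
  (206361948, [.ofNat 0, .negSucc 3455, .negSucc 767, .ofNat 64]),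
  (206361955, [.ofNat 0, .negSucc 511, .ofNat 28576, .negSucc 5471]),
  (206362389, [.ofNat 0, .negSucc 895, .ofNat 1600]),
  (206362795, [.ofNat 0, .ofNat 18048, .ofNat 15072, .ofNat 2240]),
  (206386028, [.ofNat 0, .ofNat 9728, .negSucc 12415, .negSucc 3007]),
  (206387533, [.ofNat 0, .negSucc 63263, .negSucc 2719, .negSucc 21343]),
  (206394085, [.ofNat 0, .negSucc 73119, .negSucc 17599, .negSucc 24319]),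
  (206394092, [.ofNat 0, .negSucc 23519, .ofNat 28000, .ofNat 3104]),
  (206394155, [.ofNat 0, .negSucc 5503, .ofNat 19360, .negSucc 2335]),
  (206394204, [.ofNat 0, .negSucc 3455, .negSucc 767, .ofNat 64]),
  (206394211, [.ofNat 0, .negSucc 76575, .negSucc 18367, .negSucc 24255]),
  (206395499, [.ofNat 0, .negSucc 60191, .ofNat 8768, .negSucc 22191]),
  (206395597, [.ofNat 0, .negSucc 63263, .negSucc 2719, .negSucc 21343]),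
  (206445269, [.ofNat 0, .ofNat 5248, .ofNat 11328, .negSucc 351]),
  (206477077, [.ofNat 0, .negSucc 9791, .negSucc 5183, .negSucc 1215]),
  (206477525, [.ofNat 0, .ofNat 5248, .ofNat 11328, .negSucc 351]),
  (206673245, [.ofNat 13312, .ofNat 100288, .negSucc 18879, .negSucc 25135]),
  (206688981, [.ofNat 0, .ofNat 10496, .ofNat 256, .ofNat 320]),
  (206689373, [.ofNat 13312, .ofNat 100288, .negSucc 18879, .negSucc 25135]),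
  (206874397, [.negSucc 66559, .negSucc 88063, .ofNat 110080, .ofNat 40672]),
  (206874460, [.ofNat 66560, .ofNat 34080, .negSucc 105375, .negSucc 36383]),
  (206877932, [.ofNat 0, .negSucc 10303, .ofNat 10048, .negSucc 239]),
  (206877981, [.ofNat 0, .negSucc 255, .negSucc 9791, .negSucc 1631]),
  (206877995, [.ofNat 0, .negSucc 127, .ofNat 11456, .negSucc 10223]),
  (206878877, [.ofNat 0, .ofNat 9536, .negSucc 4607, .negSucc 415]),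
  (206879388, [.ofNat 0, .negSucc 8831, .negSucc 3135, .negSucc 799]),
  (206903069, [.negSucc 13311, .negSucc 88831, .ofNat 15712, .ofNat 21680]),
  (206903083, [.ofNat 0, .negSucc 10239, .negSucc 27711, .ofNat 7184]),
  (206903139, [.ofNat 0, .negSucc 10239, .negSucc 27711, .ofNat 7184]),
  (206910181, [.ofNat 0, .ofNat 12928, .negSucc 4287, .ofNat 2944]),
  (206910188, [.ofNat 0, .negSucc 26751, .negSucc 19711, .ofNat 8384]),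
  (206910237, [.ofNat 0, .negSucc 20287, .negSucc 32607, .ofNat 10480]),
  (206910251, [.ofNat 0, .negSucc 2687, .negSucc 24191, .ofNat 3328]),
  (206910300, [.ofNat 0, .negSucc 40031, .ofNat 4000, .ofNat 5280]),
  (206910307, [.ofNat 0, .negSucc 8415, .ofNat 7440, .ofNat 17240]),
  (206935325, [.ofNat 0, .negSucc 5247, .ofNat 1280]),
  (206935339, [.ofNat 0, .negSucc 24447, .negSucc 24351, .ofNat 3232]),
  (206935395, [.ofNat 0, .negSucc 8575, .ofNat 6336, .negSucc 159]),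
  (206935850, [.ofNat 0, .ofNat 51616, .negSucc 2431, .ofNat 22032]),
  (206938923, [.ofNat 0, .ofNat 128, .negSucc 11455, .ofNat 10224]),
  (206938972, [.ofNat 0, .negSucc 1663, .ofNat 2880, .ofNat 480])]

/-- data -/
def lE13x3 : List (ℕ × List ℤ) := [(206938979, [.ofNat 0, .negSucc 1663, .ofNat 2880, .ofNat 480]),
  (206940365, [.ofNat 0, .ofNat 704, .negSucc 7743, .negSucc 1215]),
  (206947533, [.ofNat 0, .negSucc 3839, .negSucc 13375, .negSucc 1951]),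
  (206947925, [.negSucc 13311, .negSucc 83583, .ofNat 14432, .ofNat 21680]),
  (206947981, [.ofNat 13312, .negSucc 26623, .negSucc 6015, .negSucc 319]),
  (206951068, [.ofNat 13312, .ofNat 9952, .negSucc 7647, .negSucc 4927]),
  (210347853, [.ofNat 0, .ofNat 6400, .negSucc 9855, .negSucc 2559]),
  (211104973, [.ofNat 0, .ofNat 6400, .negSucc 9855, .negSucc 2559]),
  (212391580, [.ofNat 0, .negSucc 103679, .ofNat 9888, .negSucc 22527]),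
  (212443996, [.ofNat 0, .negSucc 10303, .ofNat 10048, .negSucc 239]),
  (212445004, [.ofNat 0, .negSucc 59167, .ofNat 29472, .ofNat 688]),
  (212456092, [.ofNat 0, .ofNat 5120, .negSucc 4255, .negSucc 1663]),
  (213165724, [.ofNat 0, .ofNat 9728, .negSucc 12415, .negSucc 3007]),
  (213194452, [.ofNat 0, .ofNat 6176, .ofNat 3328, .negSucc 463]),
  (213202516, [.ofNat 0, .ofNat 6176, .ofNat 3328, .negSucc 463]),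
  (556349285, [.ofNat 0, .negSucc 3327, .ofNat 9728, .negSucc 639]),
  (558221141, [.ofNat 0, .negSucc 2495, .negSucc 9663, .negSucc 1727]),
  (558225173, [.ofNat 0, .negSucc 5247, .ofNat 1280]),
  (558250709, [.ofNat 0, .ofNat 5824, .negSucc 12287, .ofNat 2400]),
  (558282965, [.ofNat 0, .ofNat 5248, .negSucc 1279]),
  (558683421, [.negSucc 79871, .negSucc 42975, .ofNat 142400, .ofNat 55904]),
  (558683925, [.negSucc 79871, .negSucc 42975, .ofNat 142400, .ofNat 55904]),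
  (558766749, [.ofNat 0, .negSucc 5247, .negSucc 11327, .ofNat 352]),
  (558774869, [.ofNat 0, .ofNat 5248, .negSucc 1279]),
  (558774925, [.ofNat 0, .negSucc 5247, .negSucc 11327, .ofNat 352]),
  (558798613, [.ofNat 0, .negSucc 10495, .ofNat 2560]),
  (558803149, [.ofNat 0, .negSucc 10495, .ofNat 2560]),
  (558807125, [.ofNat 13312, .ofNat 66304, .negSucc 69567, .negSucc 3999]),
  (559224605, [.negSucc 13311, .negSucc 57983, .ofNat 66944, .ofNat 8128]),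
  (559256861, [.ofNat 0, .ofNat 640, .negSucc 5471, .negSucc 3327]),
  (559257365, [.ofNat 0, .negSucc 15679, .negSucc 3231, .negSucc 5375]),
  (564475165, [.ofNat 0, .ofNat 11072, .negSucc 959, .ofNat 2048]),
  (606647981, [.ofNat 0, .negSucc 12991, .ofNat 3424, .negSucc 1375])]

/-- the sum of the part -/
def lE13 : List (ℕ × List ℤ) := lE13x0 ++ (lE13x1 ++ (lE13x2 ++ (lE13x3)))

theorem okE13 : dE13.all (rok tbE 12) = true := by decide +kernel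

theorem sumE13 : aeq (fz (sumT tbE dE13)) lE13 = true := by decide +kernel

end Pool.Agent.H.MP_e16c79_al.IS
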