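import Pool.Agent.H.MP_e16c79_al.IS.BTabE

/-!
# MP_e16c79_al: certificate E, part 14
-/

set_option autoImplicit false

namespace Pool.Agent.H.MP_e16c79_al.IS

/-- data -/
def dE14x0 : RT := (.nd (.nd (.nd (.lf ⟨[.ofNat 0, .negSucc 1663, .ofNat 4672, .negSucc 159], (.tw (.dx 0 (.tr (.lf 5) (.lf 13) (.tr (.lf 6) (.lf 14) (.tr (.lf 9) (.lf 17) (.lf 10))))) (.lf 18)), 0, [0, 0, 0, 0, 0, 0, 14, 14], []⟩)
    (.lf ⟨[.ofNat 0, .ofNat 192, .negSucc 1103], (.tr (.lf 17) (.lf 5) (.tw (.lf 6) (.tr (.dx 3 (.tw (.lf 1) (.lf 2))) (.tw (.lf 9) (.lf 10)) (.lf 18)))), 3, [16, 16, 16, 16, 1017, 1017, 1017, 1017, 21, 21, 21, 21, 5, 5, 5, 5], []⟩))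
    (.nd (.lf ⟨[.ofNat 0, .negSucc 2879, .negSucc 1599, .ofNat 160], (.tr (.lf 5) (.lf 17) (.tw (.lf 6) (.tr (.dx 3 (.tw (.lf 1) (.lf 2))) (.lf 18) (.tw (.lf 9) (.lf 10))))), 3, [19, 19, 19, 19, 20, 20, 20, 20, 21, 21, 21, 21, 1023, 1023, 1023, 1023], []⟩)
    (.lf ⟨[.ofNat 0, .ofNat 1312, .ofNat 176, .negSucc 39], (.tr (.lf 17) (.dx 3 (.tw (.lf 1) (.lf 5))) (.tr (.lf 2) (.tr (.lf 9) (.lf 18) (.lf 10)) (.lf 6))), 3, [21, 21, 15, 15, 21, 21, 15, 15], [21, 21, 15, 15]⟩)))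
    (.nd (.nd (.lf ⟨[.ofNat 0, .negSucc 12671, .negSucc 5183, .negSucc 1183], (.tr (.dx 0 (.tr (.lf 5) (.tr (.lf 13) (.tw (.lf 6) (.lf 9)) (.lf 17)) (.lf 10))) (.lf 14) (.lf 18)), 0, [0, 0, 12, 12, 2, 2, 14, 14], []⟩)
    (.lf ⟨[.ofNat 0, .ofNat 7552, .ofNat 11136, .ofNat 320], (.tr (.dx 0 (.tr (.lf 5) (.lf 17) (.tr (.lf 9) (.tw (.lf 6) (.lf 13)) (.lf 10)))) (.lf 14) (.lf 18)), 0, [12, 12, 12, 12, 2, 2, 2, 2], []⟩))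
    (.nd (.lf ⟨[.ofNat 39936, .ofNat 73184, .negSucc 53311, .negSucc 21999], (.tr (.dx 0 (.tw (.lf 5) (.tr (.lf 13) (.lf 6) (.tr (.lf 9) (.lf 17) (.lf 10))))) (.lf 14) (.lf 18)), 0, [0, 0, 12, 12, 0, 0, 14, 14], []⟩)
    (.lf ⟨[.ofNat 0, .negSucc 5951, .ofNat 7200, .negSucc 719], (.tr (.dx 3 (.tr (.lf 17) (.lf 9) (.tr (.lf 1) (.tw (.lf 5) (.lf 18)) (.lf 2)))) (.lf 6) (.lf 10)), 3, [11, 11, 11, 11, 11, 11, 11, 11], []⟩))))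

/-- data -/
def dE14x1 : RT := (.nd (.nd (.nd (.lf ⟨[.ofNat 0, .ofNat 832, .negSucc 1247, .negSucc 143], (.tr (.dx 3 (.tr (.lf 1) (.lf 5) (.tr (.lf 17) (.tw (.lf 2) (.lf 9)) (.lf 18)))) (.lf 6) (.lf 10)), 3, [11, 11, 11, 11, 11, 11, 11, 11], []⟩)
    (.lf ⟨[.ofNat 0, .negSucc 1807, .ofNat 16608, .ofNat 2936], (.tr (.dx 3 (.tw (.lf 1) (.tr (.lf 17) (.tr (.lf 5) (.lf 2) (.lf 9)) (.lf 18)))) (.lf 6) (.lf 10)), 3, [11, 11, 11, 11, 11, 11, 11, 11], []⟩))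
    (.nd (.lf ⟨[.ofNat 0, .negSucc 9279, .negSucc 7199, .negSucc 1695], (.tr (.dx 3 (.tr (.lf 17) (.lf 5) (.tr (.lf 1) (.tw (.lf 9) (.lf 18)) (.lf 2)))) (.lf 6) (.lf 10)), 3, [11, 11, 11, 11, 11, 11, 11, 11], []⟩)
    (.lf ⟨[.ofNat 0, .negSucc 9279, .negSucc 7199, .negSucc 1695], (.tr (.dx 0 (.tr (.lf 13) (.lf 9) (.tr (.lf 5) (.tw (.lf 14) (.lf 17)) (.lf 6)))) (.lf 10) (.lf 18)), 0, [2, 2, 2, 2, 0, 12, 0, 12], []⟩)))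
    (.nd (.nd (.lf ⟨[.ofNat 0, .ofNat 4288, .negSucc 1919, .ofNat 352], (.tr (.dx 0 (.tw (.lf 5) (.tr (.lf 13) (.tr (.lf 9) (.lf 6) (.lf 17)) (.lf 14)))) (.lf 10) (.lf 18)), 0, [0, 0, 0, 0, 2, 0, 2, 0], []⟩)
    (.lf ⟨[.ofNat 0, .ofNat 5760, .ofNat 8896, .negSucc 287], (.tr (.dx 0 (.tr (.lf 13) (.lf 17) (.tr (.lf 5) (.tw (.lf 9) (.lf 14)) (.lf 6)))) (.lf 10) (.lf 18)), 0, [0, 0, 0, 0, 0, 0, 0, 0], []⟩))
    (.nd (.lf ⟨[.ofNat 0, .negSucc 5759, .negSucc 8895, .ofNat 288], (.tr (.dx 0 (.tr (.lf 5) (.lf 9) (.tr (.lf 13) (.tw (.lf 6) (.lf 17)) (.lf 14)))) (.lf 10) (.lf 18)), 0, [0, 0, 0, 0, 0, 0, 0, 0], []⟩)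
    (.lf ⟨[.ofNat 0, .negSucc 3455, .ofNat 3712, .negSucc 1631], (.tr (.dx 3 (.tr (.lf 1) (.lf 9) (.tr (.lf 5) (.tw (.lf 2) (.lf 17)) (.lf 6)))) (.lf 18) (.lf 10)), 3, [23, 23, 23, 23, 19, 19, 19, 19], []⟩))))

/-- data -/
def dE14x2 : RT := (.nd (.nd (.nd (.lf ⟨[.ofNat 0, .ofNat 2496, .negSucc 7871, .ofNat 384], (.tr (.dx 0 (.tr (.lf 5) (.lf 13) (.lf 17))) (.tr (.lf 9) (.tw (.lf 6) (.lf 18)) (.lf 10)) (.lf 14)), 0, [0, 0, 0, 0, 12, 12, 12, 12], [14, 14, 14, 14]⟩)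
    (.lf ⟨[.ofNat 0, .ofNat 3456, .negSucc 3711, .ofNat 1632], (.tr (.dx 3 (.tr (.lf 1) (.tr (.lf 9) (.tw (.lf 2) (.lf 5)) (.lf 17)) (.lf 6))) (.lf 18) (.lf 10)), 3, [23, 23, 23, 23, 19, 19, 19, 19], []⟩))
    (.nd (.lf ⟨[.ofNat 0, .ofNat 2032, .negSucc 11879, .negSucc 3603], (.tr (.dx 3 (.tw (.lf 1) (.tr (.lf 17) (.lf 2) (.tr (.lf 5) (.lf 9) (.lf 6))))) (.lf 18) (.lf 10)), 3, [23, 23, 19, 19, 19, 19, 19, 19], []⟩)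
    (.lf ⟨[.ofNat 0, .ofNat 1792, .ofNat 3008, .ofNat 704], (.tr (.dx 3 (.tw (.lf 1) (.tr (.lf 5) (.tr (.lf 9) (.lf 2) (.lf 17)) (.lf 6)))) (.lf 18) (.lf 10)), 3, [23, 23, 23, 23, 19, 19, 19, 19], []⟩)))
    (.nd (.nd (.lf ⟨[.ofNat 0, .ofNat 1792, .ofNat 3008, .ofNat 704], (.tr (.dx 0 (.tr (.lf 13) (.lf 17) (.tr (.lf 5) (.lf 14) (.lf 9)))) (.tw (.lf 6) (.lf 10)) (.lf 18)), 0, [0, 0, 2, 2, 0, 0, 2, 2], []⟩)
    (.lf ⟨[.ofNat 0, .negSucc 5263, .ofNat 15936, .ofNat 2600], (.tr (.lf 17) (.lf 2) (.tr (.dx 3 (.tr (.lf 5) (.lf 1) (.lf 9))) (.lf 18) (.tw (.lf 6) (.lf 10)))), 3, [23, 21, 23, 21, 7, 1017, 1023, 5], [23, 21, 12, 14]⟩))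
    (.nd (.lf ⟨[.ofNat 0, .negSucc 6687, .ofNat 12832, .ofNat 4848], (.tr (.dx 3 (.tr (.lf 5) (.lf 1) (.lf 9))) (.lf 17) (.tr (.lf 2) (.tw (.lf 6) (.lf 10)) (.lf 18))), 3, [23, 1023, 15, 13, 1017, 21, 15, 13], [23, 21, 15, 13]⟩)
    (.lf ⟨[.ofNat 0, .negSucc 831, .ofNat 64, .ofNat 304], (.tr (.lf 1) (.tr (.lf 5) (.lf 18) (.tr (.lf 6) (.dx 3 (.lf 17)) (.tw (.lf 9) (.lf 10)))) (.lf 2)), 3, [3, 3, 12, 12, 13, 13, 2, 2], [3, 3, 1013, 1013, 1013, 1013, 2, 2]⟩))))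

/-- data -/
def dE14x3 : RT := (.nd (.nd (.nd (.lf ⟨[.ofNat 0, .ofNat 288, .ofNat 192], (.tr (.lf 2) (.tr (.dx 3 (.tr (.lf 1) (.lf 17) (.lf 5))) (.lf 18) (.tw (.lf 9) (.lf 10))) (.lf 6)), 3, [21, 21, 21, 21, 14, 14, 14, 14], [21, 21, 14, 14]⟩)
    (.lf ⟨[.ofNat 0, .ofNat 288, .ofNat 192], (.tr (.lf 2) (.tr (.tw (.lf 9) (.lf 10)) (.dx 3 (.tr (.lf 1) (.lf 17) (.lf 5))) (.lf 18)) (.lf 6)), 3, [2, 2, 2, 2, 9, 9, 9, 9], [2, 2, 9, 9]⟩))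
    (.nd (.lf ⟨[.ofNat 0, .negSucc 3007, .negSucc 975], (.tr (.dx 0 (.tr (.lf 5) (.lf 6) (.lf 13))) (.tr (.lf 17) (.tw (.lf 9) (.lf 14)) (.lf 18)) (.lf 10)), 0, [0, 0, 0, 0, 0, 19, 0, 19], []⟩)
    (.lf ⟨[.ofNat 0, .ofNat 3008, .ofNat 976], (.tr (.dx 0 (.tr (.lf 13) (.tw (.lf 5) (.lf 17)) (.lf 14))) (.tr (.lf 9) (.lf 10) (.lf 18)) (.lf 6)), 0, [21, 21, 21, 21, 21, 21, 21, 21], []⟩)))
    (.nd (.nd (.lf ⟨[.ofNat 0, .ofNat 3008, .ofNat 976], (.tr (.dx 0 (.tr (.lf 5) (.lf 6) (.tr (.lf 13) (.tw (.lf 9) (.lf 17)) (.lf 14)))) (.lf 18) (.lf 10)), 0, [0, 0, 0, 0, 19, 19, 19, 19], []⟩)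
    (.lf ⟨[.ofNat 0, .negSucc 2431, .negSucc 591], (.tr (.dx 0 (.tr (.lf 13) (.lf 9) (.tr (.tw (.lf 5) (.lf 6)) (.lf 14) (.lf 17)))) (.lf 18) (.lf 10)), 0, [2, 2, 19, 19, 0, 0, 19, 19], []⟩))
    (.nd (.lf ⟨[.ofNat 0, .ofNat 2432, .ofNat 592], (.tr (.dx 0 (.tr (.lf 13) (.tr (.lf 9) (.tw (.lf 5) (.lf 6)) (.lf 14)) (.lf 17))) (.lf 18) (.lf 10)), 0, [2, 2, 19, 19, 14, 14, 19, 19], []⟩)
    (.lf ⟨[.ofNat 0, .negSucc 1215, .negSucc 295], (.tr (.lf 5) (.tr (.lf 13) (.tr (.lf 17) (.dx 0 .on) (.tr (.lf 6) (.lf 18) (.lf 9))) (.lf 14)) (.lf 10)), 0, [11, 11, 8, 8, 11, 11, 8, 8], [11, 11, 8, 8, 11, 11, 8, 8]⟩))))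

/-- data -/
def dE14x4 : RT := (.nd (.nd (.nd (.lf ⟨[.ofNat 1664, .ofNat 30288, .negSucc 34615, .ofNat 2568], (.tr (.dx 0 (.tr (.lf 5) (.tr (.lf 6) (.tw (.lf 13) (.lf 14)) (.lf 9)) (.lf 17))) (.lf 18) (.lf 10)), 0, [0, 0, 0, 0, 19, 19, 19, 19], []⟩)
    (.lf ⟨[.negSucc 1663, .negSucc 40143, .ofNat 29848, .negSucc 2471], (.tr (.dx 0 (.tr (.lf 17) (.lf 5) (.tr (.lf 6) (.lf 9) (.tw (.lf 13) (.lf 14))))) (.lf 18) (.lf 10)), 0, [12, 12, 19, 19, 0, 0, 19, 19], []⟩))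
    (.nd (.lf ⟨[.ofNat 1664, .ofNat 40144, .negSucc 29847, .ofNat 2472], (.tr (.dx 0 (.tr (.lf 13) (.lf 14) (.tr (.lf 9) (.tw (.lf 5) (.lf 6)) (.lf 17)))) (.lf 18) (.lf 10)), 0, [19, 19, 19, 19, 14, 14, 12, 12], []⟩)
    (.lf ⟨[.ofNat 0, .negSucc 3711, .ofNat 5568, .negSucc 2975], (.tr (.dx 0 (.tr (.lf 9) (.lf 5) (.tr (.lf 6) (.lf 17) (.tw (.lf 13) (.lf 14))))) (.lf 18) (.lf 10)), 0, [14, 14, 2, 2, 12, 12, 19, 19], []⟩)))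
    (.nd (.nd (.lf ⟨[.ofNat 0, .ofNat 7136, .negSucc 2087, .ofNat 208], (.tr (.lf 5) (.lf 18) (.tr (.lf 9) (.tw (.dx 0 (.tr (.lf 13) (.lf 14) (.lf 17))) (.lf 6)) (.lf 10))), 0, [23, 11, 19, 7, 23, 11, 19, 7], []⟩)
    (.lf ⟨[.ofNat 0, .ofNat 3424, .ofNat 3480, .negSucc 2767], (.tr (.lf 5) (.dx 0 (.tr (.lf 13) (.lf 14) (.lf 17))) (.tr (.lf 9) (.tw (.lf 6) (.lf 18)) (.lf 10))), 0, [4, 23, 4, 23, 16, 23, 16, 23], []⟩))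
    (.nd (.lf ⟨[.ofNat 0, .negSucc 2591, .negSucc 5559, .ofNat 2848], (.tw (.lf 5) (.tr (.lf 9) (.tr (.dx 0 (.tr (.lf 13) (.lf 14) (.lf 17))) (.lf 6) (.lf 18)) (.lf 10))), 0, [8, 20, 20, 20, 8, 20, 20, 20], []⟩)
    (.lf ⟨[.ofNat 4992, .negSucc 20863, .ofNat 15968, .negSucc 1839], (.tr (.dx 0 (.tr (.lf 9) (.tr (.tw (.lf 5) (.lf 6)) (.lf 17) (.lf 13)) (.lf 14))) (.lf 18) (.lf 10)), 0, [14, 14, 2, 2, 19, 19, 19, 19], []⟩))))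

/-- data -/
def dE14x5 : RT := (.nd (.nd (.nd (.lf ⟨[.ofNat 6656, .negSucc 4247, .ofNat 1104, .negSucc 5607], (.tw (.lf 2) (.tr (.lf 9) (.tw (.dx 3 (.tr (.lf 1) (.lf 5) (.tw (.lf 17) (.lf 18)))) (.lf 6)) (.lf 10))), 3, [2, 2, 11, 11, 2, 2, 2, 2, 2, 2, 11, 11, 2, 2, 2, 2], []⟩)
    (.lf ⟨[.negSucc 13311, .ofNat 17200, .negSucc 1599, .ofNat 12320], (.tr (.lf 9) (.dx 3 (.tr (.tw (.lf 1) (.lf 5)) (.lf 17) (.lf 18))) (.tr (.lf 2) (.lf 10) (.lf 6))), 3, [9, 3, 9, 3, 9, 3, 9, 3], []⟩))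
    (.nd (.lf ⟨[.negSucc 13311, .ofNat 13488, .ofNat 3968, .ofNat 9344], (.tr (.lf 9) (.lf 2) (.tr (.dx 3 (.tr (.lf 5) (.lf 1) (.tw (.lf 17) (.lf 18)))) (.lf 10) (.lf 6))), 3, [6, 6, 9, 9, 6, 6, 6, 6], []⟩)
    (.lf ⟨[.ofNat 0, .ofNat 480, .ofNat 2768, .ofNat 120], (.tr (.dx 3 (.tr (.lf 1) (.lf 5) (.tw (.lf 17) (.lf 18)))) (.lf 9) (.tr (.lf 2) (.lf 6) (.lf 10))), 3, [11, 1, 11, 1, 11, 1, 11, 1], []⟩)))
    (.nd (.nd (.lf ⟨[.ofNat 6656, .negSucc 967, .negSucc 6167, .negSucc 5435], (.tw (.dx 3 (.tr (.tw (.lf 1) (.lf 5)) (.lf 17) (.lf 18))) (.tr (.lf 9) (.tw (.lf 2) (.lf 6)) (.lf 10))), 3, [11, 7, 11, 7, 11, 7, 11, 7, 11, 7, 11, 7, 11, 7, 11, 7], []⟩)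
    (.lf ⟨[.ofNat 0, .negSucc 2687, .ofNat 25416, .negSucc 7095], (.tr (.dx 3 (.tr (.lf 5) (.lf 1) (.tw (.lf 17) (.lf 18)))) (.lf 9) (.tr (.lf 2) (.lf 6) (.lf 10))), 3, [11, 1, 11, 1, 11, 1, 11, 1], []⟩))
    (.nd (.lf ⟨[.negSucc 13311, .ofNat 4624, .negSucc 13079, .ofNat 17968], (.tr (.lf 9) (.lf 2) (.tr (.dx 3 (.tr (.lf 1) (.lf 5) (.tw (.lf 17) (.lf 18)))) (.lf 10) (.lf 6))), 3, [6, 6, 9, 9, 6, 6, 6, 6], []⟩)
    (.lf ⟨[.negSucc 13311, .ofNat 8368, .negSucc 9567, .ofNat 17824], (.tw (.dx 0 (.tr (.lf 17) (.lf 13) (.tr (.lf 14) (.lf 9) (.tr (.lf 5) (.lf 18) (.lf 6))))) (.lf 10)), 0, [19, 19, 7, 7, 19, 19, 12, 12], []⟩))))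

/-- data -/
def dE14x6 : RT := (.nd (.nd (.nd (.lf ⟨[.ofNat 0, .ofNat 4032, .negSucc 847, .ofNat 32], (.tr (.dx 0 (.tr (.lf 5) (.tr (.lf 13) (.lf 14) (.lf 17)) (.lf 9))) (.lf 18) (.tw (.lf 6) (.lf 10))), 0, [23, 21, 23, 21, 23, 21, 23, 21], []⟩)
    (.lf ⟨[.ofNat 0, .ofNat 4288, .negSucc 2095, .negSucc 703], (.tr (.tw (.lf 6) (.lf 10)) (.dx 0 (.tr (.lf 5) (.tr (.lf 13) (.lf 14) (.lf 17)) (.lf 9))) (.lf 18)), 0, [8, 20, 8, 20, 10, 22, 10, 22], []⟩))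
    (.nd (.lf ⟨[.ofNat 0, .ofNat 15488, .negSucc 7007, .negSucc 1407], (.tr (.tw (.dx 0 (.tr (.lf 5) (.lf 13) (.tr (.lf 9) (.lf 17) (.lf 14)))) (.lf 18)) (.lf 6) (.lf 10)), 0, [1023, 23, 23, 23, 11, 23, 11, 11], []⟩)
    (.lf ⟨[.ofNat 0, .ofNat 9472, .ofNat 1088, .negSucc 1903], (.tr (.dx 0 (.tw (.lf 13) (.tr (.lf 14) (.lf 17) (.tr (.lf 5) (.lf 9) (.lf 6))))) (.lf 10) (.lf 18)), 0, [0, 0, 0, 0, 0, 0, 12, 12], []⟩)))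
    (.nd (.nd (.lf ⟨[.ofNat 0, .negSucc 5951, .ofNat 2432, .ofNat 1376], (.tr (.dx 0 (.tw (.lf 13) (.tr (.lf 14) (.tr (.lf 5) (.lf 9) (.lf 6)) (.lf 17)))) (.lf 10) (.lf 18)), 0, [0, 0, 0, 0, 0, 0, 12, 12], []⟩)
    (.lf ⟨[.negSucc 6655, .negSucc 1903, .negSucc 8151, .ofNat 4152], (.tr (.dx 3 (.tr (.lf 1) (.lf 9) (.tr (.lf 5) (.lf 2) (.lf 6)))) (.lf 17) (.tw (.lf 10) (.lf 18))), 3, [2, 23, 2, 23, 4, 19, 4, 19], []⟩))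
    (.nd (.lf ⟨[.ofNat 0, .ofNat 2432, .ofNat 592], (.tr (.lf 2) (.lf 18) (.tr (.dx 3 (.tr (.lf 1) (.lf 17) (.lf 5))) (.tw (.lf 9) (.lf 10)) (.lf 6))), 3, [9, 9, 9, 9, 12, 12, 12, 12], [9, 9, 12, 12]⟩)
    (.lf ⟨[.ofNat 0, .ofNat 2432, .ofNat 592], (.tr (.lf 6) (.lf 14) (.tr (.dx 0 (.tr (.lf 13) (.lf 5) (.lf 17))) (.tw (.lf 9) (.lf 10)) (.lf 18))), 0, [4, 4, 4, 4, 13, 1, 13, 1], [4, 4, 15, 15]⟩))))

/-- data -/
def dE14x7 : RT := (.nd (.nd (.nd (.lf ⟨[.ofNat 0, .negSucc 4959, .negSucc 6311, .negSucc 3551], (.tw (.dx 3 (.tr (.lf 1) (.lf 17) (.lf 5))) (.tr (.lf 2) (.tr (.lf 9) (.lf 18) (.lf 10)) (.lf 6))), 3, [21, 21, 15, 15, 21, 21, 15, 15], [21, 21, 15, 15]⟩)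
    (.lf ⟨[.ofNat 0, .negSucc 4959, .negSucc 6247, .negSucc 3551], (.tw (.lf 18) (.tr (.lf 2) (.tr (.lf 9) (.dx 3 (.tr (.lf 1) (.lf 17) (.lf 5))) (.lf 10)) (.lf 6))), 3, [9, 9, 9, 9, 3, 3, 3, 3], [9, 9, 3, 3]⟩))
    (.nd (.lf ⟨[.ofNat 39936, .ofNat 57184, .negSucc 57183, .negSucc 19959], (.tw (.dx 3 (.tr (.lf 1) (.lf 5) (.lf 17))) (.tr (.lf 2) (.tr (.lf 9) (.lf 18) (.lf 10)) (.lf 6))), 3, [21, 21, 15, 15, 21, 21, 15, 15], [21, 21, 15, 15]⟩)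
    (.lf ⟨[.ofNat 0, .ofNat 448, .negSucc 5087, .negSucc 1047], (.tw (.lf 2) (.tr (.dx 3 (.tr (.lf 1) (.lf 5) (.lf 17))) (.lf 6) (.tr (.lf 9) (.lf 18) (.lf 10)))), 3, [1023, 1023, 23, 23, 14, 14, 14, 14], [23, 23, 14, 14]⟩)))
    (.nd (.nd (.lf ⟨[.ofNat 0, .negSucc 3455, .ofNat 1728], (.tw (.lf 6) (.tr (.lf 14) (.dx 0 (.tr (.lf 5) (.lf 17) (.lf 13))) (.tr (.lf 9) (.lf 18) (.lf 10)))), 0, [19, 19, 19, 19, 20, 20, 20, 20], [19, 19, 20, 20]⟩)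
    (.lf ⟨[.negSucc 39935, .negSucc 57791, .ofNat 47024, .ofNat 21560], (.tw (.lf 14) (.tr (.dx 0 (.tr (.lf 5) (.lf 17) (.lf 13))) (.tr (.lf 9) (.lf 18) (.lf 10)) (.lf 6))), 0, [21, 21, 21, 21, 1, 13, 1, 13], [21, 21, 15, 15]⟩))
    (.nd (.lf ⟨[.ofNat 6656, .ofNat 12880, .negSucc 8767, .negSucc 4047], (.tr (.lf 10) (.dx 0 (.tw (.lf 5) (.tr (.lf 13) (.tr (.lf 6) (.lf 9) (.lf 17)) (.lf 14)))) (.lf 18)), 0, [6, 6, 6, 6, 6, 6, 6, 6], []⟩)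
    (.lf ⟨[.negSucc 6655, .negSucc 12783, .negSucc 9359, .ofNat 424], (.tr (.lf 10) (.dx 0 (.tw (.lf 13) (.tr (.lf 5) (.tr (.lf 9) (.lf 17) (.lf 14)) (.lf 6)))) (.lf 18)), 0, [6, 6, 6, 6, 18, 6, 18, 6], []⟩))))

/-- data -/
def dE14x8 : RT := (.nd (.nd (.nd (.lf ⟨[.ofNat 0, .negSucc 25327, .negSucc 1199, .ofNat 2512], (.tr (.lf 10) (.dx 0 (.tw (.lf 13) (.tr (.lf 17) (.lf 9) (.tr (.lf 5) (.lf 14) (.lf 6))))) (.lf 18)), 0, [6, 6, 6, 6, 18, 18, 6, 6], []⟩)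
    (.lf ⟨[.ofNat 0, .negSucc 3583, .negSucc 6015, .negSucc 1407], (.tr (.lf 6) (.lf 9) (.tr (.lf 14) (.tw (.dx 0 (.tr (.lf 5) (.lf 13) (.lf 17))) (.lf 10)) (.lf 18))), 0, [8, 8, 8, 8, 20, 20, 20, 20], [8, 8, 20, 20]⟩))
    (.nd (.lf ⟨[.ofNat 0, .negSucc 1311, .negSucc 1519, .ofNat 760], (.tw (.lf 14) (.tr (.dx 0 (.tr (.lf 5) (.lf 13) (.lf 17))) (.tr (.lf 9) (.lf 18) (.lf 10)) (.lf 6))), 0, [21, 21, 21, 21, 13, 1, 13, 1], [21, 21, 15, 15]⟩)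
    (.lf ⟨[.ofNat 0, .negSucc 2367, .ofNat 7904, .ofNat 240], (.tw (.dx 0 (.tr (.lf 5) (.lf 13) (.lf 17))) (.tr (.lf 14) (.lf 6) (.tr (.lf 9) (.lf 18) (.lf 10)))), 0, [0, 0, 0, 0, 23, 23, 12, 12], [23, 23, 14, 14]⟩)))
    (.nd (.nd (.lf ⟨[.ofNat 39936, .ofNat 63136, .negSucc 58143, .negSucc 23263], (.tr (.dx 3 (.tw (.lf 17) (.tr (.lf 5) (.tr (.lf 1) (.lf 18) (.lf 2)) (.lf 9)))) (.lf 6) (.lf 10)), 3, [11, 11, 11, 11, 11, 11, 11, 11], []⟩)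
    (.lf ⟨[.ofNat 0, .ofNat 3456, .negSucc 447], (.tr (.dx 3 (.tr (.lf 9) (.lf 1) (.tr (.lf 17) (.tw (.lf 2) (.lf 5)) (.lf 18)))) (.lf 6) (.lf 10)), 3, [11, 11, 11, 11, 11, 11, 11, 11], []⟩))
    (.nd (.lf ⟨[.negSucc 33279, .negSucc 71487, .ofNat 59760, .ofNat 22048], (.tr (.dx 3 (.tw (.lf 9) (.tr (.lf 17) (.lf 5) (.tr (.lf 1) (.lf 18) (.lf 2))))) (.lf 6) (.lf 10)), 3, [11, 11, 11, 11, 11, 11, 11, 11], []⟩)
    (.lf ⟨[.ofNat 53248, .ofNat 82176, .negSucc 86863, .negSucc 31263], (.tr (.dx 3 (.tr (.lf 1) (.tr (.lf 17) (.tw (.lf 2) (.lf 5)) (.lf 18)) (.lf 9))) (.lf 6) (.lf 10)), 3, [11, 11, 11, 11, 11, 11, 11, 11], []⟩))))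

/-- data -/
def dE14x9 : RT := (.nd (.nd (.nd (.lf ⟨[.negSucc 53247, .negSucc 82175, .ofNat 86224, .ofNat 31712], (.tr (.dx 3 (.tr (.lf 9) (.lf 17) (.tr (.lf 1) (.tw (.lf 5) (.lf 18)) (.lf 2)))) (.lf 6) (.lf 10)), 3, [11, 11, 11, 11, 11, 11, 11, 11], []⟩)
    (.lf ⟨[.ofNat 39936, .ofNat 66912, .negSucc 78319, .negSucc 26751], (.tr (.dx 3 (.tw (.lf 1) (.tr (.lf 5) (.tr (.lf 17) (.lf 2) (.lf 18)) (.lf 9)))) (.lf 6) (.lf 10)), 3, [11, 11, 11, 11, 11, 11, 11, 11], []⟩))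
    (.nd (.lf ⟨[.negSucc 6655, .negSucc 39167, .ofNat 6576, .ofNat 10840], (.tr (.dx 3 (.tr (.lf 5) (.lf 17) (.tr (.lf 1) (.tw (.lf 9) (.lf 18)) (.lf 2)))) (.lf 6) (.lf 10)), 3, [11, 11, 11, 11, 11, 11, 11, 11], []⟩)
    (.lf ⟨[.ofNat 6656, .ofNat 41792, .negSucc 7215, .negSucc 10839], (.tr (.dx 3 (.tr (.lf 1) (.tr (.lf 17) (.tw (.lf 2) (.lf 9)) (.lf 18)) (.lf 5))) (.lf 6) (.lf 10)), 3, [11, 11, 11, 11, 11, 11, 11, 11], []⟩)))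
    (.nd (.nd (.lf ⟨[.negSucc 33279, .negSucc 27743, .ofNat 71744, .ofNat 15912], (.tr (.dx 3 (.tw (.lf 5) (.tr (.lf 1) (.lf 9) (.tr (.lf 17) (.lf 2) (.lf 18))))) (.lf 6) (.lf 10)), 3, [11, 11, 11, 11, 11, 11, 11, 11], []⟩)
    (.lf ⟨[.ofNat 0, .ofNat 11280, .negSucc 8431, .ofNat 288], (.tr (.lf 10) (.dx 0 (.tr (.lf 5) (.lf 17) (.tr (.lf 13) (.tw (.lf 6) (.lf 9)) (.lf 14)))) (.lf 18)), 0, [18, 18, 18, 18, 6, 6, 6, 6], []⟩))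
    (.nd (.lf ⟨[.ofNat 0, .ofNat 4288, .negSucc 319, .negSucc 287], (.tr (.lf 10) (.dx 0 (.tr (.lf 13) (.lf 9) (.tr (.lf 5) (.tw (.lf 14) (.lf 17)) (.lf 6)))) (.lf 18)), 0, [6, 6, 6, 6, 6, 18, 6, 18], []⟩)
    (.lf ⟨[.ofNat 0, .negSucc 4159, .negSucc 14143, .negSucc 431], (.tr (.lf 10) (.dx 0 (.tw (.lf 5) (.tr (.lf 13) (.tr (.lf 9) (.lf 6) (.lf 17)) (.lf 14)))) (.lf 18)), 0, [6, 6, 6, 6, 6, 6, 6, 6], []⟩))))

/-- data -/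
def dE14x10 : RT := (.nd (.nd (.nd (.lf ⟨[.ofNat 0, .negSucc 511, .negSucc 10175, .ofNat 288], (.tr (.dx 3 (.tr (.tw (.lf 1) (.lf 9)) (.lf 17) (.lf 5))) (.lf 18) (.tr (.lf 2) (.lf 6) (.lf 10))), 3, [23, 13, 23, 13, 23, 13, 23, 13], [23, 13]⟩)
    (.lf ⟨[.ofNat 0, .negSucc 959, .negSucc 3903, .negSucc 927], (.tr (.dx 0 (.tr (.tw (.lf 5) (.lf 9)) (.lf 13) (.lf 17))) (.tr (.lf 6) (.lf 18) (.lf 10)) (.lf 14)), 0, [0, 0, 2, 2, 12, 12, 14, 14], [12, 14]⟩))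
    (.nd (.lf ⟨[.ofNat 0, .negSucc 2047, .negSucc 927, .negSucc 575], (.tr (.dx 3 (.tw (.lf 1) (.tr (.lf 2) (.lf 17) (.tr (.lf 5) (.lf 9) (.lf 6))))) (.lf 18) (.lf 10)), 3, [23, 23, 19, 19, 19, 19, 19, 19], []⟩)
    (.lf ⟨[.ofNat 0, .ofNat 832, .negSucc 1903, .negSucc 31], (.tr (.dx 3 (.tr (.lf 17) (.lf 9) (.tr (.lf 1) (.lf 18) (.lf 5)))) (.tw (.lf 2) (.lf 6)) (.lf 10)), 3, [11, 7, 11, 7, 11, 7, 11, 7], []⟩)))
    (.nd (.nd (.lf ⟨[.ofNat 0, .negSucc 3039, .negSucc 3775, .ofNat 648], (.tr (.dx 3 (.tw (.lf 1) (.tr (.lf 17) (.tw (.lf 5) (.lf 9)) (.lf 18)))) (.lf 2) (.tw (.lf 6) (.lf 10))), 3, [11, 9, 11, 9, 11, 9, 11, 9, 11, 9, 11, 9, 11, 9, 11, 9], []⟩)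
    (.lf ⟨[.ofNat 0, .negSucc 3103, .negSucc 6679, .ofNat 168], (.tr (.tw (.lf 6) (.lf 10)) (.dx 0 (.tw (.lf 17) (.tr (.lf 13) (.tw (.lf 5) (.lf 9)) (.lf 14)))) (.lf 18)), 0, [20, 20, 20, 20, 8, 8, 8, 8, 22, 22, 22, 22, 10, 10, 10, 10], []⟩))
    (.nd (.lf ⟨[.ofNat 0, .negSucc 479, .negSucc 2767, .negSucc 119], (.tr (.dx 0 (.tr (.tw (.lf 5) (.lf 9)) (.lf 17) (.lf 13))) (.tr (.lf 6) (.lf 18) (.lf 10)) (.lf 14)), 0, [12, 12, 14, 14, 0, 0, 2, 2], [12, 14]⟩)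
    (.lf ⟨[.ofNat 0, .ofNat 0, .negSucc 319], (.tr (.dx 3 (.tr (.lf 1) (.tw (.lf 5) (.lf 17)) (.lf 9))) (.lf 18) (.tr (.lf 2) (.lf 6) (.lf 10))), 3, [23, 13, 23, 13, 23, 13, 23, 13], [23, 13]⟩))))

/-- data -/
def dE14x11 : RT := (.nd (.nd (.nd (.lf ⟨[.ofNat 0, .negSucc 3455, .ofNat 448], (.tr (.lf 14) (.lf 18) (.tr (.lf 6) (.dx 0 (.tr (.lf 13) (.tw (.lf 5) (.lf 9)) (.lf 17))) (.lf 10))), 0, [19, 19, 7, 7, 17, 17, 5, 5], [19, 17]⟩)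
    (.lf ⟨[.ofNat 0, .ofNat 4032, .negSucc 847, .ofNat 32], (.tr (.dx 0 (.tr (.lf 5) (.lf 13) (.lf 9))) (.lf 17) (.tr (.tw (.lf 6) (.lf 10)) (.lf 14) (.lf 18))), 0, [0, 0, 0, 0, 2, 2, 2, 2], [12, 14, 11, 9]⟩))
    (.nd (.lf ⟨[.ofNat 0, .ofNat 9216, .ofNat 4640, .ofNat 1584], (.tr (.lf 17) (.lf 14) (.tr (.dx 0 (.tr (.lf 5) (.lf 13) (.lf 9))) (.lf 18) (.tw (.lf 6) (.lf 10)))), 0, [23, 21, 23, 21, 3, 1, 3, 1], [23, 21, 15, 13]⟩)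
    (.lf ⟨[.ofNat 0, .negSucc 15311, .ofNat 12672, .ofNat 1896], (.tr (.lf 17) (.dx 3 (.tr (.lf 1) (.lf 9) (.lf 5))) (.tr (.tw (.lf 2) (.lf 6)) (.lf 18) (.lf 10))), 3, [23, 19, 17, 13, 23, 19, 17, 13], [23, 19, 17, 13]⟩)))
    (.nd (.nd (.lf ⟨[.ofNat 39936, .ofNat 54592, .negSucc 45775, .negSucc 21559], (.tw (.dx 3 (.tr (.lf 1) (.lf 5) (.tr (.lf 17) (.tr (.lf 2) (.lf 9) (.lf 6)) (.lf 18)))) (.lf 10)), 3, [11, 7, 11, 7, 7, 7, 7, 7], []⟩)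
    (.lf ⟨[.ofNat 0, .ofNat 13248, .ofNat 3792, .ofNat 1616], (.tw (.dx 3 (.tr (.lf 1) (.lf 5) (.lf 17))) (.tr (.lf 9) (.tr (.lf 2) (.lf 18) (.lf 6)) (.lf 10))), 3, [23, 19, 23, 19, 23, 19, 23, 19], [23, 19, 23, 19]⟩))
    (.nd (.lf ⟨[.ofNat 0, .ofNat 3200, .negSucc 1247], (.tw (.dx 3 (.tr (.lf 1) (.tr (.lf 2) (.lf 9) (.tr (.lf 5) (.lf 17) (.lf 6))) (.lf 18))) (.lf 10)), 3, [11, 11, 7, 7, 7, 7, 7, 7], []⟩)
    (.lf ⟨[.negSucc 39935, .negSucc 54111, .ofNat 48544, .ofNat 21680], (.tw (.dx 3 (.tr (.lf 1) (.tr (.lf 5) (.tr (.lf 9) (.lf 2) (.lf 17)) (.lf 6)) (.lf 18))) (.lf 10)), 3, [11, 11, 11, 11, 7, 7, 7, 7], []⟩))))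

/-- data -/
def dE14x12 : RT := (.nd (.nd (.nd (.lf ⟨[.ofNat 39936, .ofNat 22848, .negSucc 57951, .negSucc 20895], (.tw (.dx 3 (.tr (.lf 1) (.lf 5) (.tr (.lf 9) (.lf 2) (.tr (.lf 17) (.lf 6) (.lf 18))))) (.lf 10)), 3, [11, 11, 7, 7, 7, 7, 7, 7], []⟩)
    (.lf ⟨[.ofNat 39936, .ofNat 22848, .negSucc 57951, .negSucc 20895], (.tw (.dx 0 (.tr (.lf 5) (.lf 13) (.tr (.lf 17) (.lf 6) (.tr (.lf 9) (.lf 14) (.lf 10))))) (.lf 18)), 0, [0, 0, 0, 0, 12, 12, 2, 2], []⟩))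
    (.nd (.lf ⟨[.ofNat 0, .ofNat 24544, .ofNat 272, .ofNat 792], (.tw (.dx 0 (.tr (.lf 5) (.tr (.lf 13) (.tr (.lf 6) (.lf 9) (.lf 17)) (.lf 14)) (.lf 10))) (.lf 18)), 0, [0, 0, 0, 0, 2, 2, 2, 2], []⟩)
    (.lf ⟨[.ofNat 0, .negSucc 26719, .negSucc 4815, .negSucc 1399], (.tw (.dx 0 (.tr (.lf 5) (.lf 13) (.tr (.lf 9) (.tr (.lf 6) (.lf 17) (.lf 14)) (.lf 10)))) (.lf 18)), 0, [0, 0, 0, 0, 14, 2, 14, 2], []⟩)))
    (.nd (.nd (.lf ⟨[.ofNat 0, .negSucc 2047, .negSucc 1951, .ofNat 160], (.tw (.dx 0 (.tr (.lf 5) (.tr (.lf 6) (.lf 17) (.tr (.lf 13) (.lf 9) (.lf 14))) (.lf 10))) (.lf 18)), 0, [12, 12, 0, 0, 14, 14, 2, 2], []⟩)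
    (.lf ⟨[.ofNat 0, .ofNat 5248, .ofNat 64, .negSucc 415], (.tr (.lf 9) (.lf 2) (.tr (.dx 3 (.tr (.lf 1) (.lf 5) (.lf 17))) (.tw (.lf 6) (.lf 10)) (.lf 18))), 3, [6, 6, 6, 6, 18, 18, 18, 18], [6, 6, 18, 18]⟩))
    (.nd (.lf ⟨[.ofNat 0, .ofNat 2048, .ofNat 1952, .negSucc 159], (.tw (.dx 0 (.tr (.lf 5) (.lf 6) (.lf 13))) (.tr (.lf 9) (.tr (.lf 17) (.lf 10) (.lf 18)) (.lf 14))), 0, [0, 0, 0, 0, 0, 0, 19, 19], []⟩)
    (.lf ⟨[.ofNat 0, .negSucc 2047, .negSucc 1951, .ofNat 160], (.tw (.lf 9) (.tr (.dx 0 (.tr (.lf 5) (.lf 6) (.lf 13))) (.lf 14) (.tr (.lf 17) (.lf 10) (.lf 18)))), 0, [6, 6, 6, 6, 18, 1, 18, 1], []⟩))))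

/-- data -/
def dE14x13 : RT := (.nd (.nd (.nd (.lf ⟨[.ofNat 0, .ofNat 2048, .ofNat 1952, .negSucc 159], (.tw (.lf 17) (.tr (.lf 9) (.tr (.dx 0 (.tr (.lf 5) (.lf 6) (.lf 13))) (.lf 14) (.lf 18)) (.lf 10))), 0, [19, 19, 7, 7, 19, 19, 7, 7], []⟩)
    (.lf ⟨[.ofNat 0, .ofNat 4160, .ofNat 14144, .ofNat 432], (.tr (.dx 0 (.tr (.lf 9) (.lf 5) (.lf 13))) (.lf 6) (.tr (.lf 17) (.tw (.lf 10) (.lf 14)) (.lf 18))), 0, [2, 2, 2, 2, 0, 0, 0, 0], [12, 12, 12, 12]⟩))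
    (.nd (.lf ⟨[.ofNat 0, .negSucc 7551, .negSucc 11135, .negSucc 319], (.tr (.lf 18) (.dx 3 (.tr (.tw (.lf 1) (.lf 9)) (.lf 17) (.lf 5))) (.tr (.lf 2) (.lf 6) (.lf 10))), 3, [11, 1, 11, 1, 11, 1, 11, 1], [11, 1]⟩)
    (.lf ⟨[.ofNat 0, .negSucc 3135, .negSucc 11935, .ofNat 464], (.tr (.dx 3 (.tr (.lf 1) (.lf 5) (.lf 17))) (.tr (.lf 9) (.tw (.lf 6) (.lf 18)) (.lf 10)) (.lf 2)), 3, [15, 15, 15, 15, 15, 15, 15, 15], [15, 15, 15, 15]⟩)))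
    (.nd (.nd (.lf ⟨[.ofNat 0, .negSucc 3327, .ofNat 14912, .negSucc 2143], (.tr (.lf 2) (.lf 9) (.tr (.dx 3 (.tr (.lf 1) (.lf 5) (.lf 17))) (.tw (.lf 6) (.lf 10)) (.lf 18))), 3, [2, 2, 2, 2, 14, 14, 14, 14], [2, 2, 14, 14]⟩)
    (.lf ⟨[.ofNat 0, .negSucc 479, .negSucc 2767, .negSucc 119], (.tr (.dx 0 (.tr (.lf 5) (.lf 17) (.lf 13))) (.tr (.lf 9) (.tw (.lf 6) (.lf 18)) (.lf 10)) (.lf 14)), 0, [12, 12, 12, 12, 0, 0, 0, 0], [14, 14, 14, 14]⟩))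
    (.nd (.lf ⟨[.ofNat 0, .negSucc 3103, .negSucc 4527, .ofNat 56], (.tr (.lf 2) (.tr (.lf 6) (.dx 3 (.tr (.tw (.lf 5) (.lf 9)) (.lf 1) (.lf 17))) (.lf 10)) (.lf 18)), 3, [0, 0, 0, 0, 2, 2, 2, 2], [0, 2]⟩)
    (.lf ⟨[.ofNat 0, .negSucc 15487, .ofNat 2560, .ofNat 1184], (.tr (.tw (.dx 0 (.tw (.lf 9) (.tr (.lf 5) (.tw (.lf 13) (.lf 17)) (.lf 6)))) (.lf 14)) (.lf 10) (.lf 18)), 0, [2, 14, 2, 14, 0, 12, 0, 12, 1023, 1023, 1023, 1023, 19, 19, 19, 19], []⟩))))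

/-- data -/
def dE14x14 : RT := (.nd (.nd (.nd (.lf ⟨[.ofNat 0, .ofNat 64, .ofNat 3008, .negSucc 47], (.tr (.tw (.lf 10) (.lf 14)) (.dx 0 (.tw (.lf 9) (.tr (.lf 5) (.tw (.lf 13) (.lf 17)) (.lf 6)))) (.lf 18)), 0, [6, 6, 6, 6, 6, 6, 6, 6, 6, 6, 6, 6, 1023, 1023, 1023, 1023], []⟩)
    (.lf ⟨[.ofNat 0, .ofNat 3456, .negSucc 223, .ofNat 336], (.tr (.dx 3 (.tr (.lf 5) (.lf 1) (.lf 17))) (.lf 2) (.tr (.lf 9) (.tw (.lf 6) (.lf 18)) (.lf 10))), 3, [23, 23, 23, 23, 23, 23, 23, 23], [23, 23, 23, 23]⟩))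
    (.nd (.lf ⟨[.ofNat 0, .negSucc 2495, .ofNat 3136, .ofNat 992], (.tr (.dx 3 (.tr (.lf 1) (.lf 17) (.tr (.lf 5) (.lf 2) (.lf 9)))) (.lf 18) (.tw (.lf 6) (.lf 10))), 3, [23, 21, 23, 21, 23, 21, 23, 21], []⟩)
    (.lf ⟨[.ofNat 0, .negSucc 351, .negSucc 7183, .negSucc 47], (.tr (.lf 10) (.dx 3 (.tw (.lf 1) (.tr (.lf 5) (.tr (.lf 9) (.lf 2) (.lf 17)) (.lf 6)))) (.lf 18)), 3, [6, 6, 6, 6, 10, 10, 10, 10], []⟩)))
    (.nd (.nd (.lf ⟨[.ofNat 0, .ofNat 3808, .ofNat 6960, .ofNat 384], (.tr (.lf 10) (.dx 3 (.tr (.lf 1) (.lf 9) (.tr (.lf 5) (.tw (.lf 2) (.lf 17)) (.lf 6)))) (.lf 18)), 3, [6, 6, 6, 6, 10, 10, 10, 10], []⟩)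
    (.lf ⟨[.ofNat 13312, .negSucc 9711, .ofNat 6768, .negSucc 6111], (.tr (.lf 10) (.dx 3 (.tr (.lf 1) (.lf 17) (.tr (.lf 5) (.tw (.lf 2) (.lf 9)) (.lf 6)))) (.lf 18)), 3, [6, 6, 6, 6, 10, 10, 10, 10], []⟩))
    (.nd (.lf ⟨[.ofNat 13312, .negSucc 5903, .ofNat 13728, .negSucc 5727], (.tr (.lf 13) (.lf 17) (.tr (.lf 6) (.tr (.lf 14) (.dx 0 (.tw (.lf 5) (.lf 9))) (.lf 18)) (.lf 10))), 0, [19, 19, 7, 7, 17, 17, 5, 5], [19, 7, 17, 5]⟩)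
    (.lf ⟨[.negSucc 13311, .ofNat 2672, .negSucc 13919, .ofNat 4000], (.tr (.lf 6) (.lf 13) (.tr (.dx 0 (.tw (.lf 5) (.lf 9))) (.tr (.lf 17) (.lf 10) (.lf 18)) (.lf 14))), 0, [4, 4, 4, 4, 15, 13, 15, 13], [4, 4, 15, 15]⟩))))

/-- data -/
def dE14x15 : RT := (.nd (.nd (.nd (.lf ⟨[.ofNat 0, .ofNat 3744, .ofNat 3512, .negSucc 143], (.tr (.lf 6) (.tr (.dx 0 (.tr (.lf 5) (.lf 9) (.lf 13))) (.lf 14) (.tw (.lf 17) (.lf 18))) (.lf 10)), 0, [4, 4, 4, 4, 7, 7, 7, 7], [4, 4, 7, 7]⟩)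
    (.lf ⟨[.ofNat 0, .negSucc 3743, .negSucc 3511, .ofNat 144], (.tr (.lf 2) (.tr (.lf 10) (.dx 3 (.tr (.lf 1) (.lf 5) (.lf 9))) (.tw (.lf 17) (.lf 18))) (.lf 6)), 3, [2, 2, 2, 2, 9, 9, 9, 9], [2, 2, 9, 9]⟩))
    (.nd (.lf ⟨[.ofNat 0, .negSucc 4415, .negSucc 1567, .negSucc 399], (.tw (.dx 0 (.tr (.lf 13) (.lf 5) (.tr (.lf 9) (.tr (.lf 14) (.lf 6) (.lf 17)) (.lf 10)))) (.lf 18)), 0, [0, 0, 0, 0, 2, 14, 2, 14], []⟩)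
    (.lf ⟨[.negSucc 13311, .ofNat 16064, .ofNat 21536, .ofNat 8896], (.tr (.lf 9) (.lf 6) (.tr (.dx 3 (.tr (.lf 1) (.tw (.lf 5) (.lf 17)) (.lf 2))) (.lf 10) (.lf 18))), 3, [10, 10, 10, 10, 22, 22, 22, 22], []⟩)))
    (.nd (.nd (.lf ⟨[.ofNat 6656, .negSucc 9055, .negSucc 15847, .negSucc 7831], (.tw (.lf 18) (.tr (.lf 9) (.tw (.dx 3 (.tr (.lf 1) (.tw (.lf 5) (.lf 17)) (.lf 2))) (.lf 6)) (.lf 10))), 3, [11, 11, 11, 11, 7, 7, 7, 7, 11, 11, 11, 11, 7, 7, 7, 7], []⟩)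
    (.lf ⟨[.negSucc 13311, .ofNat 22528, .ofNat 33264, .ofNat 16064], (.tr (.lf 18) (.lf 9) (.tr (.lf 6) (.dx 3 (.tr (.lf 1) (.tw (.lf 5) (.lf 17)) (.lf 2))) (.lf 10))), 3, [7, 7, 7, 7, 5, 5, 5, 5], []⟩))
    (.nd (.lf ⟨[.ofNat 0, .negSucc 1087, .ofNat 7808, .negSucc 2815], (.tr (.lf 6) (.dx 3 (.tr (.lf 1) (.tw (.lf 5) (.lf 17)) (.lf 2))) (.tr (.lf 9) (.lf 10) (.lf 18))), 3, [4, 19, 4, 19, 4, 19, 4, 19], []⟩)
    (.lf ⟨[.ofNat 1664, .ofNat 896, .negSucc 10015, .ofNat 3088], (.tr (.lf 6) (.tr (.dx 3 (.tr (.lf 1) (.tw (.lf 5) (.lf 17)) (.lf 2))) (.lf 18) (.lf 9)) (.lf 10)), 3, [19, 19, 19, 19, 20, 20, 20, 20], []⟩))))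

/-- data -/
def dE14x16 : RT := (.nd (.nd (.nd (.lf ⟨[.ofNat 6656, .negSucc 12991, .negSucc 17015, .negSucc 7999], (.tw (.dx 3 (.tr (.lf 1) (.tw (.lf 5) (.lf 17)) (.lf 2))) (.tr (.lf 9) (.tw (.lf 6) (.lf 18)) (.lf 10))), 3, [23, 23, 23, 23, 23, 23, 23, 23, 23, 23, 23, 23, 23, 23, 23, 23], []⟩)
    (.lf ⟨[.negSucc 14975, .ofNat 30464, .ofNat 29008, .ofNat 12976], (.tr (.dx 3 (.tr (.lf 1) (.tw (.lf 5) (.lf 17)) (.lf 2))) (.tr (.lf 9) (.lf 6) (.lf 18)) (.lf 10)), 3, [23, 23, 23, 23, 23, 23, 23, 23], []⟩))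
    (.nd (.lf ⟨[.ofNat 1664, .negSucc 2111, .negSucc 767, .ofNat 1136], (.tr (.lf 9) (.lf 18) (.tr (.dx 3 (.tr (.lf 1) (.tw (.lf 5) (.lf 17)) (.lf 2))) (.lf 10) (.lf 6))), 3, [9, 9, 9, 9, 22, 22, 22, 22], []⟩)
    (.lf ⟨[.negSucc 1663, .ofNat 4352, .negSucc 3455, .negSucc 895], (.tw (.dx 0 (.tr (.lf 13) (.lf 5) (.tr (.lf 17) (.tr (.lf 9) (.lf 6) (.lf 14)) (.lf 18)))) (.lf 10)), 0, [19, 19, 19, 19, 7, 7, 7, 7], []⟩)))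
    (.nd (.nd (.lf ⟨[.ofNat 0, .ofNat 2048, .ofNat 1056, .negSucc 159], (.tr (.lf 6) (.tr (.lf 9) (.dx 3 (.tr (.lf 1) (.tw (.lf 5) (.lf 17)) (.lf 2))) (.lf 18)) (.lf 10)), 3, [8, 8, 8, 8, 7, 7, 7, 7], []⟩)
    (.lf ⟨[.ofNat 3328, .negSucc 10239, .negSucc 8335, .negSucc 3503], (.tw (.dx 3 (.tr (.lf 1) (.tw (.lf 5) (.lf 17)) (.lf 2))) (.tr (.tw (.lf 9) (.lf 10)) (.lf 6) (.lf 18))), 3, [21, 21, 23, 23, 21, 21, 23, 23, 21, 21, 23, 23, 21, 21, 23, 23], []⟩))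
    (.nd (.lf ⟨[.ofNat 0, .negSucc 6463, .negSucc 11727, .negSucc 7167], (.tr (.dx 3 (.tr (.lf 1) (.lf 17) (.tw (.lf 5) (.lf 9)))) (.tr (.lf 6) (.lf 18) (.lf 10)) (.lf 2)), 3, [15, 13, 15, 13, 15, 13, 15, 13], [15, 13]⟩)
    (.lf ⟨[.ofNat 0, .negSucc 9919, .negSucc 12495, .negSucc 7103], (.tr (.lf 2) (.tr (.lf 6) (.dx 3 (.tr (.lf 1) (.lf 17) (.tw (.lf 5) (.lf 9)))) (.lf 10)) (.lf 18)), 3, [0, 0, 0, 0, 2, 2, 2, 2], [0, 2]⟩))))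

/-- data -/
def dE14x17 : RT := (.nd (.nd (.nd (.lf ⟨[.ofNat 0, .ofNat 2368, .negSucc 5791, .negSucc 1887], (.tr (.tw (.dx 3 (.tr (.lf 1) (.tr (.lf 5) (.lf 17) (.lf 9)) (.lf 2))) (.lf 6)) (.lf 10) (.lf 18)), 3, [1023, 2, 1023, 2, 4, 4, 4, 4], []⟩)
    (.lf ⟨[.ofNat 0, .negSucc 6911, .negSucc 671, .negSucc 239], (.tr (.dx 0 (.tr (.lf 13) (.tw (.lf 5) (.lf 9)) (.lf 17))) (.tr (.lf 6) (.lf 18) (.lf 10)) (.lf 14)), 0, [0, 0, 2, 2, 12, 12, 14, 14], [12, 14]⟩))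
    (.nd (.lf ⟨[.ofNat 0, .ofNat 13824, .ofNat 1600, .ofNat 480], (.tr (.lf 14) (.lf 6) (.tr (.dx 0 (.tr (.tw (.lf 5) (.lf 13)) (.lf 9) (.lf 17))) (.lf 10) (.lf 18))), 0, [4, 1015, 1015, 19, 15, 15, 1, 1], [1015, 15]⟩)
    (.lf ⟨[.ofNat 0, .negSucc 19071, .negSucc 319, .negSucc 479], (.tr (.lf 14) (.lf 6) (.tr (.dx 0 (.tr (.lf 5) (.lf 13) (.tw (.lf 9) (.lf 17)))) (.lf 10) (.lf 18))), 0, [4, 1015, 1015, 19, 15, 15, 1, 1], [1015, 15]⟩)))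
    (.nd (.nd (.lf ⟨[.ofNat 0, .ofNat 9536, .ofNat 160, .ofNat 240], (.tr (.dx 0 (.tr (.lf 5) (.tw (.lf 13) (.lf 17)) (.lf 9))) (.tr (.lf 6) (.lf 18) (.lf 10)) (.lf 14)), 0, [0, 0, 12, 12, 2, 2, 14, 14], [12, 14]⟩)
    (.lf ⟨[.ofNat 0, .negSucc 5823, .ofNat 12288, .negSucc 2399], (.tr (.lf 14) (.tr (.lf 6) (.dx 0 (.tr (.tw (.lf 5) (.lf 13)) (.lf 9) (.lf 17))) (.lf 10)) (.lf 18)), 0, [4, 1015, 1015, 19, 6, 1015, 1015, 17], [1015, 1015]⟩))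
    (.nd (.lf ⟨[.ofNat 0, .negSucc 26239, .negSucc 23071, .negSucc 4255], (.tr (.dx 0 (.tr (.lf 5) (.lf 13) (.tr (.lf 9) (.lf 6) (.lf 17)))) (.tw (.lf 10) (.lf 14)) (.lf 18)), 0, [0, 0, 0, 0, 14, 14, 12, 12], []⟩)
    (.lf ⟨[.ofNat 0, .ofNat 23552, .ofNat 13024, .ofNat 3456], (.tr (.dx 0 (.tr (.lf 5) (.lf 13) (.tr (.lf 9) (.lf 6) (.lf 17)))) (.lf 10) (.tw (.lf 14) (.lf 18))), 0, [0, 0, 0, 0, 14, 14, 12, 12], []⟩))))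

/-- data -/
def dE14x18 : RT := (.nd (.nd (.nd (.lf ⟨[.ofNat 0, .ofNat 4824, .ofNat 6248, .negSucc 1063], (.tr (.tw (.dx 0 (.tw (.lf 9) (.tr (.lf 5) (.tw (.lf 13) (.lf 17)) (.lf 6)))) (.lf 10)) (.lf 14) (.lf 18)), 0, [2, 14, 2, 14, 0, 12, 0, 12, 6, 18, 6, 18, 6, 18, 6, 18], []⟩)
    (.lf ⟨[.ofNat 0, .ofNat 6120, .ofNat 3016, .ofNat 2632], (.tr (.lf 14) (.lf 18) (.tr (.lf 5) (.dx 0 (.tw (.lf 13) (.lf 17))) (.tr (.lf 9) (.lf 6) (.lf 10)))), 0, [23, 23, 11, 11, 17, 5, 17, 5], [23, 23, 17, 17]⟩))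
    (.nd (.lf ⟨[.ofNat 0, .ofNat 50560, .ofNat 26400, .ofNat 4320], (.tr (.tw (.dx 0 (.tr (.lf 5) (.lf 13) (.tr (.lf 9) (.lf 6) (.lf 17)))) (.lf 14)) (.lf 10) (.lf 18)), 0, [0, 0, 14, 12, 19, 19, 1023, 19], []⟩)
    (.lf ⟨[.ofNat 0, .negSucc 29567, .negSucc 32095, .negSucc 3711], (.tr (.lf 14) (.tw (.dx 0 (.tr (.lf 5) (.lf 13) (.tr (.lf 9) (.lf 6) (.lf 17)))) (.lf 10)) (.lf 18)), 0, [19, 19, 1023, 19, 6, 1023, 6, 6], []⟩)))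
    (.nd (.nd (.lf ⟨[.ofNat 0, .ofNat 16768, .negSucc 5343, .negSucc 351], (.tr (.tw (.dx 0 (.tr (.lf 5) (.lf 17) (.tr (.lf 9) (.lf 6) (.lf 13)))) (.lf 14)) (.lf 10) (.lf 18)), 0, [12, 12, 2, 0, 19, 19, 1023, 19], []⟩)
    (.lf ⟨[.ofNat 0, .ofNat 6784, .negSucc 6015, .negSucc 223], (.tr (.lf 10) (.tw (.dx 0 (.tr (.lf 5) (.lf 13) (.tr (.lf 9) (.lf 6) (.lf 17)))) (.lf 14)) (.lf 18)), 0, [6, 6, 18, 18, 6, 6, 6, 6], []⟩))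
    (.nd (.lf ⟨[.ofNat 0, .negSucc 1663, .ofNat 1856, .ofNat 2080], (.tr (.tw (.lf 10) (.lf 14)) (.dx 0 (.tr (.lf 5) (.lf 13) (.tr (.lf 9) (.lf 6) (.lf 17)))) (.lf 18)), 0, [6, 6, 6, 6, 6, 1023, 6, 6], []⟩)
    (.lf ⟨[.ofNat 0, .ofNat 20992, .negSucc 5695, .ofNat 608], (.tr (.lf 14) (.tw (.dx 0 (.tr (.lf 13) (.lf 5) (.tr (.lf 6) (.lf 17) (.lf 9)))) (.lf 10)) (.lf 18)), 0, [19, 19, 19, 1023, 1023, 6, 6, 6], []⟩))))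

/-- data -/
def dE14x19 : RT := (.nd (.nd (.nd (.lf ⟨[.ofNat 0, .negSucc 2911, .ofNat 6256, .negSucc 5007], (.tr (.lf 6) (.tw (.dx 3 (.tr (.lf 17) (.lf 9) (.tr (.lf 1) (.lf 5) (.lf 2)))) (.lf 10)) (.lf 18)), 3, [8, 8, 4, 4, 8, 8, 8, 8], []⟩)
    (.lf ⟨[.ofNat 0, .ofNat 832, .negSucc 895, .negSucc 223], (.tr (.lf 5) (.tr (.dx 0 (.tw (.lf 13) (.lf 17))) (.tr (.lf 9) (.lf 6) (.lf 10)) (.lf 18)) (.lf 14)), 0, [4, 4, 16, 16, 20, 20, 20, 20], [16, 16, 20, 20]⟩))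
    (.nd (.lf ⟨[.ofNat 0, .ofNat 3744, .negSucc 7151, .ofNat 4784], (.tr (.tw (.dx 3 (.tr (.lf 17) (.lf 9) (.tr (.lf 1) (.lf 5) (.lf 2)))) (.lf 6)) (.lf 10) (.lf 18)), 3, [23, 23, 0, 0, 8, 8, 4, 4], []⟩)
    (.lf ⟨[.ofNat 0, .negSucc 2495, .ofNat 3680, .negSucc 4583], (.tr (.dx 3 (.tr (.lf 1) (.tr (.lf 5) (.lf 2) (.lf 9)) (.lf 17))) (.tw (.lf 6) (.lf 10)) (.lf 18)), 3, [0, 0, 2, 2, 23, 21, 23, 21], []⟩)))
    (.nd (.nd (.lf ⟨[.ofNat 0, .ofNat 1248, .negSucc 1391, .ofNat 4688], (.tr (.tw (.lf 6) (.lf 10)) (.dx 3 (.tr (.lf 1) (.tr (.lf 5) (.lf 2) (.lf 9)) (.lf 17))) (.lf 18)), 3, [8, 8, 8, 8, 10, 10, 10, 10], []⟩)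
    (.lf ⟨[.ofNat 0, .negSucc 3343, .ofNat 1168, .negSucc 879], (.tr (.lf 6) (.tw (.dx 3 (.tr (.lf 17) (.lf 5) (.tr (.lf 1) (.lf 9) (.lf 2)))) (.lf 10)) (.lf 18)), 3, [4, 4, 4, 4, 8, 8, 8, 8], []⟩))
    (.nd (.lf ⟨[.ofNat 0, .ofNat 10000, .ofNat 5104, .ofNat 1696], (.tr (.lf 6) (.dx 3 (.tr (.lf 17) (.lf 5) (.tr (.lf 1) (.lf 9) (.lf 2)))) (.tw (.lf 10) (.lf 18))), 3, [4, 4, 4, 4, 4, 4, 4, 4], []⟩)
    (.lf ⟨[.ofNat 0, .negSucc 13223, .negSucc 9039, .ofNat 120], (.tr (.lf 6) (.tw (.dx 3 (.tr (.lf 1) (.tr (.lf 5) (.lf 2) (.lf 9)) (.lf 17))) (.lf 18)) (.lf 10)), 3, [4, 4, 4, 8, 7, 11, 7, 7], []⟩))))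

/-- data -/
def dE14x20 : RT := (.nd (.nd (.nd (.lf ⟨[.ofNat 0, .ofNat 2408, .negSucc 6191, .ofNat 2056], (.tr (.lf 6) (.tw (.dx 3 (.tr (.lf 17) (.lf 1) (.tr (.lf 5) (.lf 2) (.lf 9)))) (.lf 18)) (.lf 10)), 3, [19, 23, 4, 8, 7, 11, 16, 20], []⟩)
    (.lf ⟨[.ofNat 0, .negSucc 2303, .negSucc 8495, .ofNat 464], (.tr (.tw (.dx 3 (.tr (.lf 5) (.tr (.lf 1) (.lf 9) (.lf 2)) (.lf 17))) (.lf 6)) (.lf 18) (.lf 10)), 3, [23, 23, 23, 23, 4, 4, 23, 23], []⟩))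
    (.nd (.lf ⟨[.ofNat 0, .ofNat 8768, .ofNat 6352, .ofNat 1008], (.tr (.dx 3 (.tr (.lf 5) (.tr (.lf 1) (.lf 9) (.lf 2)) (.lf 17))) (.tw (.lf 6) (.lf 18)) (.lf 10)), 3, [23, 23, 23, 23, 23, 23, 23, 23], []⟩)
    (.lf ⟨[.ofNat 0, .negSucc 5631, .ofNat 2256, .negSucc 239], (.tr (.tw (.dx 3 (.tr (.lf 9) (.tr (.lf 1) (.lf 5) (.lf 2)) (.lf 17))) (.lf 6)) (.lf 18) (.lf 10)), 3, [23, 23, 23, 23, 8, 8, 19, 19], []⟩)))
    (.nd (.nd (.lf ⟨[.ofNat 0, .negSucc 4127, .ofNat 3232, .negSucc 2023], (.tr (.lf 13) (.lf 6) (.tr (.lf 17) (.dx 0 (.lf 5)) (.tr (.lf 9) (.tw (.lf 14) (.lf 18)) (.lf 10)))), 0, [19, 7, 19, 7, 13, 13, 13, 13], [19, 7, 19, 7, 1017, 1017, 1017, 1017]⟩)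
    (.lf ⟨[.ofNat 0, .ofNat 34496, .ofNat 9600, .ofNat 944], (.tw (.lf 14) (.tr (.dx 0 (.tr (.lf 9) (.lf 5) (.lf 13))) (.lf 6) (.tr (.lf 17) (.lf 10) (.lf 18)))), 0, [2, 2, 1023, 1023, 1, 3, 1, 3], [0, 0, 13, 13]⟩))
    (.nd (.lf ⟨[.ofNat 0, .negSucc 28767, .negSucc 6767, .negSucc 1239], (.tr (.dx 3 (.tr (.lf 1) (.lf 9) (.lf 5))) (.lf 17) (.tr (.tw (.lf 2) (.lf 6)) (.lf 18) (.lf 10))), 3, [23, 19, 17, 13, 23, 19, 17, 13], [23, 19, 17, 13]⟩)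
    (.lf ⟨[.ofNat 0, .ofNat 6656, .ofNat 6272, .ofNat 816], (.tr (.lf 14) (.dx 0 (.tr (.tw (.lf 5) (.lf 9)) (.lf 13) (.lf 17))) (.tr (.lf 6) (.lf 18) (.lf 10))), 0, [23, 21, 23, 21, 23, 21, 23, 21], [23, 21]⟩))))

/-- data -/
def dE14x21 : RT := (.nd (.nd (.nd (.lf ⟨[.ofNat 0, .ofNat 10624, .ofNat 9264, .ofNat 5216], (.tr (.lf 14) (.dx 0 (.tr (.lf 13) (.tw (.lf 5) (.lf 9)) (.lf 17))) (.tr (.lf 6) (.lf 18) (.lf 10))), 0, [23, 21, 23, 21, 23, 21, 23, 21], [23, 21]⟩)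
    (.lf ⟨[.ofNat 0, .negSucc 8255, .negSucc 14543, .negSucc 7103], (.tr (.dx 3 (.tr (.lf 1) (.lf 17) (.tw (.lf 5) (.lf 9)))) (.lf 2) (.tr (.lf 6) (.lf 18) (.lf 10))), 3, [23, 21, 23, 21, 23, 21, 23, 21], [23, 21]⟩))
    (.nd (.lf ⟨[.ofNat 1664, .ofNat 16528, .negSucc 53255, .negSucc 4487], (.tw (.dx 0 (.tr (.lf 5) (.lf 13) (.tr (.lf 14) (.lf 6) (.tr (.lf 9) (.lf 17) (.lf 10))))) (.lf 18)), 0, [0, 0, 0, 0, 0, 0, 14, 14], []⟩)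
    (.lf ⟨[.negSucc 1663, .negSucc 24783, .ofNat 38072, .negSucc 2615], (.tw (.dx 0 (.tr (.lf 5) (.tr (.lf 6) (.tr (.lf 9) (.lf 17) (.lf 10)) (.lf 13)) (.lf 14))) (.lf 18)), 0, [12, 12, 0, 0, 0, 0, 2, 2], []⟩)))
    (.nd (.nd (.lf ⟨[.ofNat 0, .ofNat 12736, .ofNat 144, .negSucc 1199], (.tw (.dx 0 (.tr (.lf 5) (.lf 6) (.tr (.lf 13) (.lf 14) (.tr (.lf 9) (.lf 17) (.lf 10))))) (.lf 18)), 0, [0, 0, 12, 12, 2, 2, 14, 14], []⟩)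
    (.lf ⟨[.ofNat 0, .negSucc 6367, .negSucc 71, .ofNat 600], (.tw (.dx 0 (.tr (.lf 5) (.tw (.lf 17) (.tr (.lf 6) (.tw (.lf 13) (.lf 14)) (.lf 9))) (.lf 10))) (.lf 18)), 0, [12, 12, 12, 12, 0, 0, 0, 0, 14, 14, 14, 14, 2, 2, 2, 2], []⟩))
    (.nd (.lf ⟨[.ofNat 0, .negSucc 4927, .negSucc 6111, .negSucc 1391], (.tr (.dx 3 (.tr (.tw (.lf 5) (.lf 9)) (.lf 1) (.lf 17))) (.lf 2) (.tr (.lf 6) (.lf 18) (.lf 10))), 3, [23, 21, 23, 21, 23, 21, 23, 21], [23, 21]⟩)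
    (.lf ⟨[.ofNat 0, .ofNat 832, .negSucc 1151, .negSucc 543], (.tr (.lf 18) (.lf 2) (.tr (.lf 6) (.dx 3 (.tr (.lf 1) (.tw (.lf 5) (.lf 9)) (.lf 17))) (.lf 10))), 3, [11, 11, 7, 7, 9, 9, 5, 5], [11, 9]⟩))))

/-- data -/
def dE14x22 : RT := (.nd (.nd (.nd (.lf ⟨[.ofNat 0, .ofNat 2368, .negSucc 5791, .negSucc 1887], (.tr (.lf 18) (.lf 2) (.tr (.lf 6) (.dx 3 (.tr (.lf 1) (.lf 17) (.tw (.lf 5) (.lf 9)))) (.lf 10))), 3, [11, 11, 7, 7, 9, 9, 5, 5], [11, 9]⟩)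
    (.lf ⟨[.ofNat 0, .negSucc 8255, .negSucc 15055, .negSucc 7103], (.tr (.dx 3 (.tr (.lf 5) (.tr (.lf 1) (.lf 17) (.lf 2)) (.lf 9))) (.lf 6) (.tw (.lf 10) (.lf 18))), 3, [23, 23, 23, 23, 1017, 23, 1017, 23], []⟩))
    (.nd (.lf ⟨[.ofNat 0, .negSucc 30079, .negSucc 10399, .negSucc 159], (.tr (.dx 3 (.tr (.lf 5) (.lf 1) (.tr (.lf 17) (.lf 9) (.lf 18)))) (.lf 2) (.tw (.lf 6) (.lf 10))), 3, [11, 9, 11, 9, 11, 9, 11, 9], []⟩)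
    (.lf ⟨[.ofNat 34944, .ofNat 18016, .negSucc 77247, .negSucc 10095], (.tr (.dx 3 (.tr (.lf 1) (.lf 5) (.tr (.lf 17) (.lf 9) (.lf 18)))) (.tw (.lf 2) (.lf 6)) (.lf 10)), 3, [11, 7, 11, 7, 11, 7, 11, 7], []⟩)))
    (.nd (.nd (.lf ⟨[.negSucc 34943, .ofNat 14464, .ofNat 90448, .ofNat 8992], (.tr (.tw (.dx 3 (.tr (.lf 5) (.lf 1) (.tr (.lf 17) (.lf 9) (.lf 18)))) (.lf 2)) (.lf 6) (.lf 10)), 3, [11, 11, 11, 11, 11, 11, 11, 11], []⟩)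
    (.lf ⟨[.negSucc 34943, .negSucc 25759, .ofNat 80640, .ofNat 12216], (.tr (.dx 3 (.tr (.lf 1) (.lf 5) (.tr (.lf 17) (.lf 9) (.lf 18)))) (.lf 2) (.tw (.lf 6) (.lf 10))), 3, [11, 9, 11, 9, 11, 9, 11, 9], []⟩))
    (.nd (.lf ⟨[.ofNat 1664, .negSucc 1087, .negSucc 6783, .ofNat 3424], (.tr (.tw (.dx 3 (.tr (.lf 1) (.lf 9) (.tr (.lf 17) (.lf 5) (.lf 18)))) (.lf 2)) (.lf 6) (.lf 10)), 3, [11, 11, 11, 11, 11, 11, 11, 11], []⟩)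
    (.lf ⟨[.ofNat 26624, .negSucc 3743, .negSucc 57599, .negSucc 6311], (.tr (.lf 2) (.tw (.dx 3 (.tr (.lf 5) (.lf 1) (.tr (.lf 17) (.lf 9) (.lf 18)))) (.lf 6)) (.lf 10)), 3, [11, 11, 11, 11, 0, 0, 0, 0], []⟩))))

/-- data -/
def dE14x23 : RT := (.nd (.nd (.nd (.lf ⟨[.ofNat 8320, .negSucc 8799, .negSucc 28111, .negSucc 2359], (.tr (.lf 2) (.dx 3 (.tr (.lf 5) (.lf 1) (.tr (.lf 17) (.lf 9) (.lf 18)))) (.tw (.lf 6) (.lf 10))), 3, [11, 9, 11, 9, 11, 9, 11, 9], []⟩)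
    (.lf ⟨[.ofNat 0, .negSucc 4191, .ofNat 13424, .negSucc 2215], (.tr (.lf 2) (.dx 3 (.tr (.lf 5) (.lf 9) (.tr (.lf 17) (.lf 1) (.lf 18)))) (.tw (.lf 6) (.lf 10))), 3, [11, 9, 11, 9, 11, 9, 11, 9], []⟩))
    (.nd (.lf ⟨[.ofNat 0, .ofNat 1152, .negSucc 8143, .negSucc 1807], (.tr (.tw (.dx 3 (.tr (.lf 9) (.lf 5) (.tr (.lf 17) (.lf 1) (.lf 18)))) (.lf 2)) (.lf 6) (.lf 10)), 3, [11, 11, 11, 11, 11, 11, 11, 11], []⟩)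
    (.lf ⟨[.ofNat 0, .ofNat 7120, .negSucc 27655, .ofNat 9752], (.tr (.dx 3 (.tr (.lf 9) (.lf 1) (.tr (.lf 2) (.tw (.lf 17) (.lf 18)) (.lf 5)))) (.lf 6) (.lf 10)), 3, [11, 11, 11, 11, 11, 11, 11, 11], []⟩)))
    (.nd (.nd (.lf ⟨[.ofNat 0, .negSucc 7119, .ofNat 27656, .negSucc 9751], (.tr (.dx 3 (.tr (.lf 5) (.lf 17) (.tr (.lf 9) (.tw (.lf 1) (.lf 2)) (.lf 18)))) (.lf 6) (.lf 10)), 3, [11, 11, 11, 11, 11, 11, 11, 11], []⟩)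
    (.lf ⟨[.ofNat 0, .negSucc 5519, .ofNat 27960, .negSucc 9751], (.tr (.lf 6) (.lf 9) (.tr (.lf 17) (.tw (.dx 3 (.tr (.lf 1) (.lf 2) (.lf 5))) (.lf 10)) (.lf 18))), 3, [20, 20, 20, 20, 20, 20, 20, 20], []⟩))
    (.nd (.lf ⟨[.ofNat 0, .negSucc 1599, .negSucc 303], (.tw (.lf 17) (.tr (.dx 3 (.tr (.lf 1) (.lf 2) (.lf 5))) (.tr (.lf 9) (.lf 18) (.lf 10)) (.lf 6))), 3, [21, 21, 21, 21, 5, 1, 5, 1], []⟩)
    (.lf ⟨[.ofNat 6656, .negSucc 18047, .negSucc 16079, .negSucc 7007], (.tr (.dx 3 (.tr (.lf 1) (.lf 2) (.lf 5))) (.lf 9) (.tr (.lf 17) (.tw (.lf 6) (.lf 10)) (.lf 18))), 3, [0, 0, 0, 0, 4, 4, 4, 4], []⟩))))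

/-- data -/
def dE14x24 : RT := (.nd (.nd (.nd (.lf ⟨[.ofNat 6656, .negSucc 20095, .negSucc 18175, .negSucc 7007], (.tr (.lf 14) (.tw (.dx 0 (.tw (.lf 13) (.tr (.tw (.lf 5) (.lf 6)) (.lf 17) (.lf 9)))) (.lf 10)) (.lf 18)), 0, [19, 19, 19, 19, 0, 0, 1023, 1023, 1023, 1023, 13, 13, 6, 6, 6, 6], []⟩)
    (.lf ⟨[.ofNat 13312, .negSucc 38143, .negSucc 33551, .negSucc 14015], (.tr (.lf 17) (.lf 9) (.tr (.dx 3 (.tw (.lf 1) (.lf 5))) (.tr (.lf 2) (.lf 18) (.lf 6)) (.lf 10))), 3, [23, 19, 23, 19, 18, 18, 22, 22], [23, 19, 18, 22]⟩))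
    (.nd (.lf ⟨[.ofNat 0, .negSucc 3647, .ofNat 1328], (.tw (.dx 3 (.tr (.lf 1) (.lf 2) (.lf 5))) (.tr (.lf 17) (.lf 6) (.tr (.lf 9) (.lf 18) (.lf 10)))), 3, [23, 23, 0, 0, 23, 23, 4, 4], []⟩)
    (.lf ⟨[.ofNat 0, .negSucc 1999, .ofNat 21704, .negSucc 8887], (.tr (.dx 3 (.tr (.lf 5) (.lf 17) (.tr (.tw (.lf 1) (.lf 2)) (.lf 9) (.lf 18)))) (.lf 6) (.lf 10)), 3, [11, 11, 11, 11, 11, 11, 11, 11], []⟩)))
    (.nd (.nd (.lf ⟨[.ofNat 0, .negSucc 5119, .ofNat 5952, .negSucc 863], (.tr (.dx 3 (.tr (.lf 17) (.lf 9) (.tr (.tw (.lf 1) (.lf 2)) (.lf 18) (.lf 5)))) (.lf 6) (.lf 10)), 3, [11, 11, 11, 11, 11, 11, 11, 11], []⟩)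
    (.lf ⟨[.ofNat 0, .ofNat 2048, .ofNat 10160, .ofNat 6768], (.tr (.lf 9) (.dx 0 (.tw (.lf 5) (.lf 13))) (.tr (.lf 17) (.tr (.lf 6) (.lf 14) (.lf 10)) (.lf 18))), 0, [6, 6, 6, 6, 6, 6, 6, 6], [18, 18, 18, 18]⟩))
    (.nd (.lf ⟨[.ofNat 1664, .negSucc 1087, .negSucc 6783, .ofNat 3424], (.tr (.lf 5) (.dx 0 (.tw (.lf 13) (.lf 17))) (.tr (.lf 14) (.lf 6) (.tr (.lf 9) (.lf 18) (.lf 10)))), 0, [4, 4, 4, 4, 16, 16, 16, 16], [4, 4, 16, 16]⟩)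
    (.lf ⟨[.ofNat 0, .negSucc 3263, .ofNat 10240, .negSucc 2527], (.tr (.lf 5) (.lf 2) (.tr (.dx 3 (.tw (.lf 1) (.lf 17))) (.lf 6) (.tr (.lf 9) (.lf 18) (.lf 10)))), 3, [4, 4, 4, 4, 16, 16, 16, 16], [4, 4, 16, 16]⟩))))

/-- data -/
def dE14 : RT := (.nd (.nd (.nd (.nd dE14x0 (.nd dE14x1 dE14x2)) (.nd dE14x3 (.nd dE14x4 dE14x5))) (.nd (.nd dE14x6 (.nd dE14x7 dE14x8)) (.nd dE14x9 (.nd dE14x10 dE14x11)))) (.nd (.nd (.nd dE14x12 (.nd dE14x13 dE14x14)) (.nd dE14x15 (.nd dE14x16 dE14x17))) (.nd (.nd dE14x18 (.nd dE14x19 dE14x20)) (.nd (.nd dE14x21 dE14x22) (.nd dE14x23 dE14x24)))))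

/-- data -/
def lE14x0 : List (ℕ × List ℤ) := [(5349, [.ofNat 0, .ofNat 0, .ofNat 28672, .ofNat 8704, .ofNat 4864]),
  (5405, [.ofNat 0, .ofNat 0, .ofNat 40960, .negSucc 9983, .negSucc 9343]),
  (6301, [.ofNat 0, .ofNat 0, .ofNat 7168, .ofNat 14592, .negSucc 255]),
  (42773, [.ofNat 0, .ofNat 0, .negSucc 4479, .negSucc 90303, .ofNat 2912]),
  (42789, [.ofNat 0, .ofNat 0, .negSucc 26751, .ofNat 51328, .ofNat 19392]),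
  (43101, [.ofNat 0, .ofNat 0, .ofNat 13824, .negSucc 895, .ofNat 1344]),
  (43165, [.ofNat 0, .ofNat 0, .negSucc 36863, .negSucc 75775, .ofNat 15648]),
  (43213, [.ofNat 0, .ofNat 0, .ofNat 105984, .ofNat 30336, .ofNat 12928]),
  (43221, [.ofNat 0, .ofNat 0, .negSucc 4479, .negSucc 90303, .ofNat 2912]),
  (43237, [.ofNat 0, .ofNat 0, .ofNat 22912, .ofNat 11328, .negSucc 1183]),
  (43244, [.ofNat 0, .ofNat 0, .negSucc 7743, .ofNat 125824, .ofNat 15648]),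
  (43356, [.ofNat 0, .ofNat 0, .negSucc 4415, .ofNat 120320, .ofNat 12128]),
  (43371, [.ofNat 0, .ofNat 0, .negSucc 16127, .ofNat 3392, .negSucc 127]),
  (49835, [.ofNat 0, .ofNat 0, .negSucc 21503, .ofNat 18176, .negSucc 3231]),
  (50269, [.ofNat 0, .ofNat 0, .ofNat 13824, .negSucc 895, .ofNat 1344]),
  (50405, [.ofNat 0, .ofNat 0, .negSucc 115071, .negSucc 27071, .negSucc 4959]),
  (50412, [.ofNat 0, .ofNat 0, .negSucc 8255, .ofNat 65856, .ofNat 14048]),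
  (136421, [.ofNat 0, .ofNat 0, .negSucc 47807, .ofNat 115072, .ofNat 29792]),
  (136541, [.ofNat 0, .ofNat 0, .negSucc 137983, .negSucc 38399, .negSucc 3775]),
  (333477, [.ofNat 0, .ofNat 0, .ofNat 24480, .ofNat 12064, .ofNat 10528]),
  (340709, [.ofNat 0, .ofNat 0, .ofNat 27808, .ofNat 8480, .ofNat 9632]),
  (342221, [.ofNat 0, .ofNat 6656, .negSucc 17407, .ofNat 13824, .ofNat 3584]),
  (344811, [.ofNat 0, .negSucc 6655, .ofNat 17408, .negSucc 13823, .negSucc 3583]),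
  (344924, [.ofNat 0, .ofNat 0, .ofNat 8192, .ofNat 40640, .ofNat 27072]),
  (345324, [.ofNat 0, .ofNat 0, .ofNat 10496, .ofNat 1408, .negSucc 319]),
  (345932, [.ofNat 0, .ofNat 53248, .negSucc 144383, .negSucc 93567, .negSucc 28991]),
  (402077, [.ofNat 0, .ofNat 0, .ofNat 3328, .negSucc 3583, .negSucc 895]),
  (403819, [.ofNat 0, .negSucc 53247, .ofNat 10688, .negSucc 55679, .ofNat 16000]),
  (404197, [.ofNat 0, .ofNat 53248, .negSucc 23615, .ofNat 54912, .negSucc 22911]),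
  (404204, [.ofNat 0, .ofNat 0, .ofNat 12928, .ofNat 768, .ofNat 6912]),
  (1086749, [.ofNat 0, .ofNat 53248, .negSucc 152575, .negSucc 134207, .negSucc 56063]),
  (2705241, [.ofNat 0, .ofNat 0, .ofNat 3328, .negSucc 255, .negSucc 1215]),
  (3314973, [.ofNat 0, .ofNat 0, .negSucc 8255, .ofNat 6464, .negSucc 4047]),
  (3315036, [.ofNat 0, .ofNat 0, .ofNat 8256, .negSucc 6463, .ofNat 4048]),
  (25601890, [.ofNat 0, .ofNat 0, .ofNat 4864, .ofNat 1184]),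
  (25859938, [.ofNat 0, .ofNat 0, .ofNat 4864, .ofNat 1184]),
  (156415261, [.ofNat 16640, .negSucc 19967, .negSucc 24671, .negSucc 11935]),
  (156416157, [.ofNat 16640, .negSucc 19967, .negSucc 24671, .negSucc 11935]),
  (160027947, [.ofNat 0, .ofNat 4096, .ofNat 2112, .negSucc 319]),
  (160085291, [.ofNat 0, .ofNat 4096, .ofNat 2112, .negSucc 319]),
  (160770787, [.ofNat 0, .ofNat 11520, .ofNat 6400, .negSucc 639]),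
  (160774315, [.negSucc 3327, .ofNat 384, .ofNat 4416, .negSucc 543]),
  (160777899, [.negSucc 3327, .ofNat 384, .ofNat 4416, .negSucc 543]),
  (170797419, [.ofNat 0, .ofNat 7488, .ofNat 7024, .negSucc 287]),
  (170808997, [.ofNat 0, .negSucc 2591, .ofNat 6464, .negSucc 7391]),
  (170809004, [.ofNat 0, .negSucc 4191, .negSucc 447, .ofNat 7616]),
  (172899148, [.ofNat 3328, .ofNat 24096, .negSucc 76431, .ofNat 7632]),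
  (173062892, [.ofNat 0, .ofNat 4096, .ofNat 3904, .negSucc 319]),
  (173070571, [.ofNat 0, .negSucc 6015, .negSucc 1951]),
  (173161067, [.ofNat 3328, .ofNat 60576, .negSucc 69231, .ofNat 5136]),
  (173185259, [.ofNat 0, .negSucc 1151, .negSucc 767]),
  (173193057, [.ofNat 0, .ofNat 11520, .ofNat 6400, .negSucc 639]),
  (173193932, [.ofNat 0, .ofNat 4096, .ofNat 3904, .negSucc 319]),
  (173197145, [.ofNat 0, .negSucc 3327, .ofNat 256, .ofNat 1216]),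
  (174467435, [.ofNat 26624, .ofNat 2144, .ofNat 34864, .negSucc 8287]),
  (174470508, [.ofNat 0, .ofNat 24064, .negSucc 11199, .negSucc 2815]),
  (174471530, [.ofNat 26624, .negSucc 5343, .ofNat 27840, .negSucc 7999]),
  (174475933, [.ofNat 0, .ofNat 8576, .negSucc 4191, .negSucc 1407]),
  (174479188, [.ofNat 13312, .ofNat 25568, .ofNat 18720, .negSucc 847]),
  (174725917, [.ofNat 0, .ofNat 15488, .negSucc 7007, .negSucc 1407]),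
  (174738013, [.ofNat 0, .ofNat 24064, .negSucc 11199, .negSucc 2815]),
  (174742108, [.ofNat 0, .negSucc 27519, .ofNat 2016, .ofNat 5216]),
  (174986604, [.ofNat 0, .ofNat 960, .ofNat 5536, .ofNat 240]),
  (174990188, [.ofNat 0, .negSucc 5375, .ofNat 50832, .negSucc 14191]),
  (175004244, [.ofNat 0, .negSucc 5375, .ofNat 50832, .negSucc 14191]),
  (175004258, [.negSucc 13311, .negSucc 31135, .ofNat 16624, .ofNat 4688]),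
  (175004300, [.ofNat 0, .ofNat 960, .ofNat 5536, .ofNat 240]),
  (175155549, [.ofNat 0, .negSucc 12415, .negSucc 26719, .ofNat 672]),
  (175155948, [.ofNat 0, .ofNat 2304, .negSucc 16287, .negSucc 3615]),
  (175159980, [.ofNat 0, .ofNat 8832, .negSucc 1599, .ofNat 1568]),
  (175160162, [.ofNat 0, .ofNat 17408, .ofNat 1216, .ofNat 2208]),
  (175184221, [.ofNat 0, .negSucc 12415, .negSucc 26719, .ofNat 672]),
  (175192684, [.ofNat 0, .ofNat 4800, .ofNat 5600, .negSucc 2527]),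
  (175198949, [.ofNat 0, .negSucc 8831, .ofNat 1600, .negSucc 1567]),
  (175199005, [.ofNat 0, .ofNat 4096, .ofNat 20320, .ofNat 13536]),
  (175199852, [.ofNat 0, .ofNat 1664, .negSucc 3807, .negSucc 63]),
  (175200013, [.ofNat 0, .ofNat 4096, .ofNat 20320, .ofNat 13536]),
  (175200461, [.ofNat 0, .ofNat 6272, .ofNat 23872, .negSucc 927]),
  (175217317, [.ofNat 0, .negSucc 8575, .negSucc 42751, .ofNat 4416]),
  (175217324, [.negSucc 66559, .negSucc 53695, .ofNat 147712, .ofNat 31280]),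
  (175217429, [.ofNat 13312, .negSucc 18367, .negSucc 40415, .ofNat 1984]),
  (175217506, [.ofNat 0, .ofNat 17664, .ofNat 15936, .negSucc 11007]),
  (175221356, [.negSucc 79871, .negSucc 161855, .ofNat 113408, .ofNat 48240]),
  (175231660, [.ofNat 0, .negSucc 12159, .negSucc 15103, .ofNat 2592]),
  (175232108, [.ofNat 0, .negSucc 10495, .negSucc 18911, .ofNat 2528]),
  (175254123, [.ofNat 0, .negSucc 19711, .negSucc 9535, .ofNat 192]),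
  (175254221, [.ofNat 0, .negSucc 25471, .negSucc 287, .ofNat 2400]),
  (175264861, [.ofNat 0, .ofNat 13376, .negSucc 25663, .negSucc 9695]),
  (175265365, [.ofNat 0, .ofNat 13376, .negSucc 25663, .negSucc 9695]),
  (175265386, [.ofNat 0, .ofNat 1664, .negSucc 4159, .ofNat 160]),
  (175281437, [.ofNat 0, .ofNat 960, .ofNat 6176, .ofNat 240]),
  (175281941, [.ofNat 0, .ofNat 2176, .negSucc 10367, .negSucc 7583]),
  (175282004, [.ofNat 0, .negSucc 22815, .ofNat 5248, .negSucc 2495]),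
  (175282333, [.ofNat 0, .ofNat 15488, .negSucc 6367, .negSucc 1407]),
  (175282844, [.ofNat 0, .negSucc 15487, .ofNat 6784, .ofNat 4240]),
  (175282900, [.ofNat 0, .ofNat 4800, .ofNat 5600, .negSucc 2527]),
  (175285084, [.ofNat 0, .ofNat 256, .ofNat 11616, .ofNat 1920]),
  (175286365, [.ofNat 0, .negSucc 10495, .ofNat 2560]),
  (175286477, [.ofNat 0, .ofNat 1024, .ofNat 20352, .negSucc 575]),
  (175286876, [.negSucc 66559, .negSucc 53695, .ofNat 147712, .ofNat 31280])]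

/-- data -/
def lE14x1 : List (ℕ × List ℤ) := [(175286988, [.ofNat 0, .negSucc 2623, .negSucc 7263, .ofNat 2160]),
  (175288997, [.ofNat 0, .ofNat 2528, .ofNat 5952, .negSucc 7935]),
  (175289004, [.ofNat 0, .negSucc 16607, .negSucc 14943, .ofNat 5056]),
  (175289109, [.ofNat 0, .negSucc 12927, .negSucc 8799]),
  (175289172, [.ofNat 0, .negSucc 24479, .ofNat 9056, .negSucc 2431]),
  (175289613, [.ofNat 0, .ofNat 0, .ofNat 640]),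
  (175290509, [.ofNat 0, .ofNat 0, .ofNat 640]),
  (175291020, [.ofNat 0, .ofNat 2304, .negSucc 16287, .negSucc 3615]),
  (175297250, [.negSucc 26623, .ofNat 34400, .negSucc 3199, .ofNat 24640]),
  (175298146, [.ofNat 0, .ofNat 8320, .ofNat 16512, .negSucc 3903]),
  (176510819, [.ofNat 0, .negSucc 6079, .ofNat 10560, .negSucc 8047]),
  (176532316, [.ofNat 0, .ofNat 14240, .negSucc 55311, .ofNat 19504]),
  (176540373, [.ofNat 0, .ofNat 31136, .negSucc 17503]),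
  (176540506, [.ofNat 0, .negSucc 1663, .ofNat 4160, .negSucc 159]),
  (176542949, [.ofNat 0, .negSucc 5247, .negSucc 511, .negSucc 255]),
  (176543075, [.ofNat 16640, .negSucc 17599, .negSucc 56223, .negSucc 4719]),
  (176543404, [.ofNat 13312, .negSucc 9791, .ofNat 2336, .negSucc 2431]),
  (176543530, [.negSucc 26623, .ofNat 16736, .negSucc 19135, .ofNat 35648]),
  (176543572, [.ofNat 0, .ofNat 50656, .ofNat 2400, .negSucc 5023]),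
  (176543901, [.ofNat 0, .negSucc 3327, .ofNat 14912, .negSucc 2143]),
  (176543957, [.ofNat 0, .negSucc 15231, .negSucc 13631, .negSucc 3839]),
  (176543978, [.ofNat 3328, .negSucc 8703, .ofNat 6912, .ofNat 1792]),
  (176544538, [.ofNat 0, .ofNat 8320, .ofNat 16512, .negSucc 3903]),
  (176596765, [.ofNat 0, .negSucc 19839, .negSucc 24991, .negSucc 14207]),
  (176596828, [.ofNat 39936, .ofNat 21376, .negSucc 54207, .negSucc 18431]),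
  (176600412, [.ofNat 0, .ofNat 0, .negSucc 1279, .ofNat 896]),
  (176601756, [.negSucc 26623, .negSucc 30527, .ofNat 15808, .ofNat 9920]),
  (176732523, [.ofNat 0, .negSucc 7487, .negSucc 7023, .ofNat 288]),
  (176740195, [.ofNat 53248, .negSucc 15871, .negSucc 88351, .negSucc 17055]),
  (176789853, [.ofNat 79872, .ofNat 118912, .negSucc 103519, .negSucc 44527]),
  (176789867, [.ofNat 0, .negSucc 7487, .negSucc 7023, .ofNat 288]),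
  (176790252, [.negSucc 66559, .negSucc 55487, .ofNat 143488, .ofNat 31824]),
  (176802397, [.ofNat 0, .ofNat 6208, .ofNat 9056, .negSucc 111]),
  (176804581, [.negSucc 79871, .negSucc 111935, .ofNat 109632, .ofNat 44160]),
  (176804588, [.ofNat 0, .negSucc 5247, .negSucc 703, .ofNat 160]),
  (176804637, [.ofNat 0, .ofNat 0, .ofNat 256]),
  (176804707, [.ofNat 0, .ofNat 3840, .ofNat 9472, .ofNat 640]),
  (176805477, [.ofNat 0, .ofNat 6656, .negSucc 2623, .negSucc 6447]),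
  (176805645, [.ofNat 0, .ofNat 19840, .ofNat 25248, .ofNat 14208]),
  (176805981, [.ofNat 0, .ofNat 9792, .ofNat 10912, .negSucc 5023]),
  (176806093, [.ofNat 0, .negSucc 11903, .negSucc 5663, .ofNat 3536]),
  (176806604, [.negSucc 3327, .negSucc 33055, .ofNat 106512, .ofNat 8976]),
  (176806667, [.ofNat 0, .negSucc 7487, .negSucc 7023, .ofNat 288]),
  (176831181, [.ofNat 0, .negSucc 3327, .ofNat 9344, .negSucc 319]),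
  (176838349, [.ofNat 0, .negSucc 4095, .negSucc 3903, .ofNat 320]),
  (176854876, [.ofNat 13312, .ofNat 83584, .negSucc 14431, .negSucc 21679]),
  (176862044, [.ofNat 0, .ofNat 5248, .negSucc 1279]),
  (176863948, [.ofNat 0, .ofNat 3328, .negSucc 9343, .ofNat 320]),
  (176866027, [.ofNat 0, .negSucc 6527, .ofNat 20480, .negSucc 5055]),
  (176870108, [.ofNat 0, .negSucc 3999, .ofNat 43408, .negSucc 17775]),
  (176993637, [.ofNat 0, .negSucc 3327, .ofNat 9728, .negSucc 639]),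
  (176999125, [.ofNat 0, .ofNat 18976, .negSucc 22879, .negSucc 831]),
  (176999251, [.ofNat 0, .negSucc 23551, .ofNat 8704, .ofNat 1344]),
  (177001701, [.ofNat 0, .ofNat 1664, .negSucc 959, .ofNat 416]),
  (177001708, [.ofNat 0, .negSucc 25343, .negSucc 8383, .negSucc 3167]),
  (177001827, [.ofNat 3328, .negSucc 2175, .negSucc 13567, .ofNat 6848]),
  (177002156, [.ofNat 0, .negSucc 25343, .negSucc 8383, .negSucc 3167]),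
  (177002282, [.ofNat 3328, .negSucc 127, .ofNat 576, .ofNat 1952]),
  (177002653, [.ofNat 0, .negSucc 26495, .negSucc 7583, .negSucc 3231]),
  (177002709, [.ofNat 0, .negSucc 27967, .negSucc 37887, .negSucc 8655]),
  (177003290, [.negSucc 26623, .ofNat 17312, .negSucc 27855, .ofNat 36000]),
  (177019677, [.ofNat 0, .negSucc 6207, .negSucc 9055, .ofNat 112]),
  (177025893, [.ofNat 0, .negSucc 4191, .negSucc 447, .ofNat 7616]),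
  (177032011, [.ofNat 0, .negSucc 8063, .ofNat 1696, .negSucc 63]),
  (177033957, [.ofNat 0, .ofNat 6912, .negSucc 1087, .ofNat 416]),
  (177033964, [.ofNat 0, .ofNat 6784, .ofNat 1248]),
  (177034013, [.ofNat 0, .ofNat 8576, .negSucc 1343, .negSucc 607]),
  (177034027, [.ofNat 0, .negSucc 15487, .ofNat 7008, .ofNat 1408]),
  (177034076, [.ofNat 0, .negSucc 16767, .ofNat 5344, .ofNat 352]),
  (177034853, [.ofNat 0, .negSucc 10239, .ofNat 11904, .negSucc 1727]),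
  (177035084, [.negSucc 26623, .negSucc 30527, .ofNat 15808, .ofNat 9920]),
  (177035357, [.ofNat 0, .ofNat 20096, .ofNat 13952, .ofNat 128]),
  (177035469, [.ofNat 0, .ofNat 5248, .negSucc 127]),
  (177036043, [.ofNat 0, .negSucc 13567, .ofNat 21056, .negSucc 2399]),
  (177052500, [.ofNat 0, .negSucc 3999, .ofNat 43408, .negSucc 17775]),
  (177067116, [.ofNat 0, .negSucc 10239, .ofNat 11904, .negSucc 1727]),
  (177068369, [.ofNat 0, .ofNat 3328, .negSucc 255, .negSucc 1215]),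
  (177091413, [.ofNat 0, .negSucc 50655, .negSucc 2399, .ofNat 5024]),
  (177091917, [.ofNat 79872, .ofNat 45696, .negSucc 115903, .negSucc 41791]),
  (177099477, [.negSucc 13311, .ofNat 35552, .ofNat 832, .ofNat 4736]),
  (177116844, [.ofNat 0, .ofNat 8448, .negSucc 6527, .negSucc 1311]),
  (177116970, [.ofNat 0, .ofNat 8576, .negSucc 6335, .ofNat 160]),
  (177117341, [.ofNat 0, .negSucc 6911, .negSucc 1535, .ofNat 128]),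
  (177117397, [.ofNat 0, .ofNat 12928, .ofNat 23456, .ofNat 14336]),
  (177121100, [.negSucc 26623, .ofNat 85120, .ofNat 68960, .ofNat 29728]),
  (177124180, [.ofNat 13312, .ofNat 83584, .negSucc 14431, .negSucc 21679]),
  (177124621, [.ofNat 0, .negSucc 3583, .negSucc 6911, .ofNat 128]),
  (177124684, [.ofNat 13312, .ofNat 97664, .ofNat 12896, .ofNat 9600]),
  (177125517, [.ofNat 0, .negSucc 6655, .ofNat 18688, .negSucc 639]),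
  (177128093, [.ofNat 0, .ofNat 3584, .ofNat 6016, .ofNat 1408]),
  (177129066, [.negSucc 3327, .ofNat 8704, .negSucc 6911, .negSucc 1791]),
  (177132748, [.ofNat 0, .ofNat 39712, .negSucc 55023, .ofNat 17104]),
  (177289933, [.ofNat 3328, .ofNat 33056, .negSucc 106511, .negSucc 8975]),
  (177383019, [.ofNat 0, .ofNat 21120, .ofNat 2784, .negSucc 5119]),
  (177514269, [.ofNat 0, .negSucc 6207, .negSucc 9055, .ofNat 112]),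
  (177515228, [.ofNat 0, .negSucc 10239, .ofNat 11904, .negSucc 1727]),
  (177517797, [.ofNat 0, .negSucc 4191, .negSucc 447, .ofNat 7616]),
  (177517853, [.ofNat 0, .negSucc 255, .negSucc 9791, .negSucc 1631]),
  (177518420, [.ofNat 0, .negSucc 3199, .negSucc 607]),
  (177518749, [.ofNat 0, .ofNat 960, .ofNat 5536, .ofNat 240])]

/-- data -/
def lE14x2 : List (ℕ × List ℤ) := [(177518805, [.ofNat 93184, .ofNat 90688, .negSucc 113983, .negSucc 46191]),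
  (177519260, [.ofNat 0, .negSucc 5247, .negSucc 3839, .negSucc 959]),
  (177519316, [.ofNat 79872, .ofNat 118912, .negSucc 103519, .negSucc 44527]),
  (177521899, [.ofNat 0, .negSucc 4735, .ofNat 15808, .ofNat 480]),
  (177526435, [.ofNat 0, .ofNat 3840, .ofNat 9472, .ofNat 640]),
  (177550053, [.ofNat 0, .negSucc 27807, .negSucc 4767, .negSucc 10399]),
  (177550060, [.ofNat 0, .ofNat 27808, .ofNat 4768, .ofNat 10400]),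
  (177550109, [.ofNat 0, .negSucc 1663, .ofNat 2176, .ofNat 448]),
  (177550172, [.ofNat 0, .ofNat 2560, .negSucc 12831, .negSucc 4735]),
  (177551453, [.ofNat 0, .negSucc 9983, .negSucc 18239, .negSucc 2687]),
  (177551565, [.ofNat 76544, .ofNat 96960, .negSucc 101791, .negSucc 47055]),
  (177552076, [.ofNat 16640, .negSucc 11967, .negSucc 11231, .ofNat 4416]),
  (177554155, [.ofNat 3328, .negSucc 8703, .ofNat 6912, .ofNat 1792]),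
  (177559139, [.ofNat 16640, .negSucc 17599, .negSucc 56223, .negSucc 4719]),
  (177575260, [.ofNat 0, .ofNat 19072, .ofNat 320, .ofNat 480]),
  (177575701, [.ofNat 0, .negSucc 19071, .negSucc 319, .negSucc 479]),
  (177576093, [.ofNat 0, .negSucc 3327, .ofNat 14912, .negSucc 2143]),
  (177576149, [.ofNat 0, .negSucc 11647, .negSucc 13375, .negSucc 3007]),
  (177576170, [.ofNat 0, .negSucc 10495, .ofNat 26944, .negSucc 4383]),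
  (177576604, [.ofNat 0, .ofNat 1664, .negSucc 2495, .negSucc 287]),
  (177580125, [.ofNat 0, .ofNat 5248, .ofNat 64, .negSucc 415]),
  (177580237, [.ofNat 0, .ofNat 896, .negSucc 9023, .negSucc 1631]),
  (177580748, [.ofNat 0, .ofNat 6912, .negSucc 895]),
  (177582932, [.ofNat 0, .negSucc 3199, .negSucc 607]),
  (177584234, [.ofNat 9984, .negSucc 41727, .ofNat 31936, .negSucc 3679]),
  (177586901, [.ofNat 0, .ofNat 4992, .negSucc 6271, .negSucc 1983]),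
  (177586922, [.negSucc 3327, .negSucc 1791, .ofNat 20032, .negSucc 6175]),
  (177587405, [.ofNat 0, .ofNat 4992, .negSucc 6271, .negSucc 1983]),
  (177587818, [.ofNat 26624, .negSucc 16735, .ofNat 19136, .negSucc 35647]),
  (177590947, [.ofNat 53248, .negSucc 15871, .negSucc 88351, .negSucc 17055]),
  (177590996, [.negSucc 66559, .negSucc 55487, .ofNat 143488, .ofNat 31824]),
  (177591395, [.ofNat 0, .negSucc 6079, .ofNat 10560, .negSucc 8047]),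
  (177615573, [.ofNat 0, .negSucc 17535, .negSucc 12703, .negSucc 2015]),
  (177645155, [.ofNat 0, .negSucc 13695, .negSucc 13919, .ofNat 11072]),
  (204032733, [.ofNat 0, .ofNat 11520, .ofNat 6400, .negSucc 639]),
  (204057387, [.ofNat 0, .ofNat 208, .negSucc 29375, .ofNat 5040]),
  (204065451, [.ofNat 0, .ofNat 6912, .negSucc 3455]),
  (204100829, [.ofNat 0, .ofNat 7296, .negSucc 2655]),
  (204101333, [.ofNat 0, .ofNat 7296, .negSucc 2655]),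
  (204125483, [.ofNat 0, .negSucc 895, .ofNat 10176, .ofNat 2096]),
  (204125539, [.ofNat 0, .ofNat 4736, .negSucc 15807, .negSucc 479]),
  (204126365, [.ofNat 0, .ofNat 4736, .negSucc 11583, .negSucc 3775]),
  (204126932, [.ofNat 79872, .ofNat 45696, .negSucc 115903, .negSucc 41791]),
  (204129963, [.ofNat 0, .ofNat 6912, .negSucc 3455]),
  (204814178, [.ofNat 0, .negSucc 4863, .negSucc 1183]),
  (204875498, [.ofNat 0, .ofNat 6016, .ofNat 1952]),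
  (205863261, [.ofNat 0, .negSucc 1663, .ofNat 1792, .ofNat 448]),
  (205863723, [.ofNat 0, .negSucc 26447, .negSucc 18079, .ofNat 240]),
  (205892332, [.ofNat 0, .negSucc 6463, .negSucc 383, .negSucc 3455]),
  (205896042, [.negSucc 13311, .negSucc 31135, .ofNat 16624, .ofNat 4688]),
  (205900501, [.ofNat 0, .ofNat 128, .ofNat 6016, .negSucc 95]),
  (205957341, [.negSucc 26623, .ofNat 42880, .ofNat 82144, .ofNat 26496]),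
  (205965034, [.negSucc 9983, .ofNat 41728, .negSucc 31935, .ofNat 3680]),
  (206093036, [.ofNat 0, .ofNat 10496, .ofNat 1408, .negSucc 319]),
  (206100267, [.ofNat 0, .negSucc 6015, .negSucc 1951]),
  (206164779, [.ofNat 0, .negSucc 6015, .negSucc 1951]),
  (206166123, [.ofNat 0, .negSucc 6015, .negSucc 1951]),
  (206190413, [.ofNat 0, .ofNat 768, .negSucc 4415]),
  (206223180, [.ofNat 0, .negSucc 767, .ofNat 4416]),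
  (206351133, [.ofNat 0, .negSucc 4991, .ofNat 15744, .negSucc 767]),
  (206355242, [.ofNat 0, .negSucc 6447, .negSucc 7871, .ofNat 3632]),
  (206362837, [.ofNat 0, .ofNat 1664, .negSucc 2303, .negSucc 1087]),
  (206363362, [.ofNat 0, .ofNat 19712, .ofNat 9536, .negSucc 191]),
  (206379819, [.ofNat 0, .negSucc 6447, .negSucc 7871, .ofNat 3632]),
  (206395485, [.ofNat 0, .ofNat 7040, .ofNat 7040, .negSucc 1055]),
  (206395996, [.ofNat 0, .ofNat 11904, .negSucc 4863, .negSucc 2751]),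
  (206426901, [.ofNat 0, .negSucc 4863, .negSucc 1183]),
  (206426922, [.ofNat 0, .negSucc 6015, .negSucc 1951]),
  (206427405, [.ofNat 0, .negSucc 4863, .negSucc 1183]),
  (206428266, [.ofNat 0, .negSucc 1151, .negSucc 767]),
  (206428770, [.negSucc 3327, .negSucc 65439, .ofNat 68048, .negSucc 5135]),
  (206443869, [.ofNat 0, .negSucc 21247, .negSucc 18527, .negSucc 10431]),
  (206444373, [.ofNat 0, .ofNat 5120, .negSucc 4159, .ofNat 1856]),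
  (206447453, [.ofNat 0, .negSucc 21247, .negSucc 18527, .negSucc 10431]),
  (206449357, [.ofNat 0, .negSucc 8831, .negSucc 3135, .negSucc 799]),
  (206459549, [.ofNat 0, .negSucc 13311, .negSucc 12543, .negSucc 1631]),
  (206459997, [.ofNat 0, .ofNat 44224, .ofNat 992, .ofNat 848]),
  (206460501, [.ofNat 0, .ofNat 44224, .ofNat 992, .ofNat 848]),
  (206476517, [.ofNat 0, .ofNat 9856, .ofNat 12224, .ofNat 2784]),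
  (206476573, [.ofNat 0, .ofNat 0, .negSucc 1279]),
  (206476636, [.ofNat 0, .negSucc 13823, .negSucc 1343, .negSucc 479]),
  (206477077, [.ofNat 0, .ofNat 13824, .ofNat 1344, .ofNat 480]),
  (206477140, [.ofNat 0, .ofNat 0, .ofNat 256]),
  (206480101, [.ofNat 0, .negSucc 6783, .negSucc 1247]),
  (206480108, [.ofNat 0, .ofNat 34272, .negSucc 9759, .negSucc 2751]),
  (206480157, [.ofNat 0, .ofNat 12032, .ofNat 5216, .ofNat 3424]),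
  (206480220, [.ofNat 0, .negSucc 24319, .negSucc 3327, .negSucc 63]),
  (206484140, [.ofNat 79872, .ofNat 146208, .negSucc 119391, .negSucc 46911]),
  (206484581, [.ofNat 79872, .ofNat 146368, .negSucc 106623, .negSucc 43999]),
  (206485589, [.ofNat 0, .ofNat 16512, .ofNat 29088, .ofNat 14208]),
  (206485645, [.ofNat 0, .ofNat 0, .negSucc 1279]),
  (206489229, [.ofNat 0, .ofNat 9856, .ofNat 12224, .ofNat 2784]),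
  (206616426, [.ofNat 0, .negSucc 4863, .negSucc 1183]),
  (206623965, [.ofNat 0, .ofNat 4864, .ofNat 1184]),
  (206874845, [.negSucc 26623, .ofNat 42880, .ofNat 82144, .ofNat 26496]),
  (206877925, [.ofNat 0, .ofNat 11264, .negSucc 4511, .ofNat 480]),
  (206878506, [.ofNat 0, .negSucc 4863, .negSucc 1183]),
  (206878933, [.ofNat 0, .ofNat 21248, .ofNat 18528, .ofNat 10432]),
  (206882013, [.ofNat 0, .ofNat 4864, .ofNat 1184]),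
  (206910181, [.ofNat 0, .negSucc 12927, .ofNat 4288, .negSucc 2943])]

/-- data -/
def lE14x3 : List (ℕ × List ℤ) := [(206911693, [.ofNat 0, .ofNat 16512, .ofNat 30112, .ofNat 14208]),
  (206935269, [.ofNat 26624, .negSucc 20127, .negSucc 831, .negSucc 12319]),
  (206935325, [.ofNat 0, .ofNat 5248, .negSucc 1279]),
  (206936277, [.ofNat 0, .ofNat 9856, .negSucc 15743, .negSucc 1919]),
  (206938853, [.ofNat 26624, .negSucc 11807, .ofNat 27456, .negSucc 11455]),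
  (206940365, [.ofNat 0, .ofNat 8832, .ofNat 3136, .ofNat 800]),
  (206975701, [.ofNat 0, .negSucc 12927, .ofNat 4288, .negSucc 2943]),
  (206976093, [.ofNat 0, .negSucc 11519, .negSucc 17791, .ofNat 576]),
  (206976205, [.ofNat 0, .ofNat 11264, .negSucc 4511, .ofNat 480]),
  (210348637, [.ofNat 0, .negSucc 11903, .ofNat 4864, .ofNat 2752]),
  (210413261, [.negSucc 3327, .negSucc 24095, .ofNat 76432, .negSucc 7631]),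
  (211097245, [.ofNat 13312, .ofNat 3808, .ofNat 16304, .negSucc 8303]),
  (211104861, [.ofNat 13312, .ofNat 22752, .ofNat 18480, .negSucc 12111]),
  (212153629, [.ofNat 0, .ofNat 21568, .ofNat 6080, .ofNat 5680]),
  (212153692, [.ofNat 0, .negSucc 8255, .ofNat 6464, .negSucc 4047]),
  (212154525, [.ofNat 0, .ofNat 1664, .negSucc 2303, .negSucc 1087]),
  (212379421, [.ofNat 0, .negSucc 10975, .ofNat 31184, .ofNat 3944]),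
  (212379869, [.ofNat 0, .ofNat 4096, .ofNat 1856, .ofNat 1152]),
  (212383005, [.ofNat 0, .negSucc 4991, .ofNat 15744, .negSucc 767]),
  (212383068, [.ofNat 0, .negSucc 959, .negSucc 5535, .negSucc 239]),
  (212383957, [.ofNat 0, .ofNat 7360, .negSucc 12767, .negSucc 1999]),
  (212420189, [.ofNat 0, .ofNat 4096, .ofNat 1856, .ofNat 1152]),
  (212440349, [.ofNat 0, .negSucc 1663, .ofNat 1792, .ofNat 448]),
  (212440412, [.ofNat 0, .negSucc 959, .negSucc 5535, .negSucc 239]),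
  (212440741, [.ofNat 0, .negSucc 4063, .ofNat 23760, .ofNat 7208]),
  (212440853, [.ofNat 0, .ofNat 7680, .ofNat 7872, .ofNat 2560]),
  (212440874, [.ofNat 0, .negSucc 26655, .ofNat 11296, .negSucc 4799]),
  (212440916, [.ofNat 0, .negSucc 959, .negSucc 5535, .negSucc 239]),
  (212445277, [.ofNat 0, .ofNat 7040, .ofNat 7040, .negSucc 1055]),
  (212449932, [.ofNat 0, .negSucc 4095, .negSucc 3903, .ofNat 320]),
  (212452445, [.ofNat 0, .ofNat 23424, .ofNat 512, .ofNat 1984]),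
  (212477533, [.ofNat 0, .negSucc 10975, .ofNat 31184, .ofNat 3944]),
  (212480725, [.ofNat 0, .ofNat 7680, .ofNat 7872, .ofNat 2560]),
  (212509404, [.ofNat 0, .ofNat 6400, .negSucc 2495]),
  (212513436, [.ofNat 0, .negSucc 62527, .negSucc 18815, .ofNat 1568]),
  (212514444, [.ofNat 0, .negSucc 4095, .negSucc 3903, .ofNat 320]),
  (212939477, [.ofNat 0, .negSucc 4063, .ofNat 23760, .ofNat 7208]),
  (556415645, [.negSucc 13311, .ofNat 40192, .ofNat 34944, .ofNat 14016]),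
  (556415701, [.negSucc 13311, .ofNat 29696, .ofNat 36992, .ofNat 14016]),
  (557132508, [.ofNat 0, .negSucc 767, .ofNat 4416]),
  (558213469, [.negSucc 13311, .negSucc 3807, .negSucc 16303, .ofNat 8304]),
  (558222037, [.ofNat 0, .ofNat 18368, .ofNat 128, .ofNat 976]),
  (558225565, [.ofNat 0, .ofNat 2496, .negSucc 6943, .ofNat 400]),
  (558225621, [.ofNat 0, .negSucc 13631, .negSucc 23103, .negSucc 8863]),
  (558249813, [.negSucc 13311, .ofNat 19200, .ofNat 42048, .ofNat 13408]),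
  (558250653, [.ofNat 0, .negSucc 11071, .ofNat 13568, .negSucc 2399]),
  (558282517, [.ofNat 13312, .negSucc 19199, .negSucc 42047, .negSucc 13407]),
  (558282909, [.ofNat 0, .ofNat 5824, .negSucc 12287, .ofNat 2400]),
  (558512733, [.ofNat 0, .ofNat 4096, .ofNat 4192]),
  (558512845, [.ofNat 13312, .negSucc 46591, .negSucc 30111, .negSucc 14015]),
  (558543645, [.negSucc 13311, .ofNat 40960, .ofNat 33344, .ofNat 14016]),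
  (558544989, [.ofNat 0, .ofNat 768, .negSucc 3007]),
  (558676309, [.negSucc 13311, .negSucc 3807, .negSucc 16303, .ofNat 8304]),
  (558744405, [.negSucc 13311, .ofNat 40192, .ofNat 36352, .ofNat 14016]),
  (558748437, [.ofNat 13312, .negSucc 40191, .negSucc 36351, .negSucc 14015]),
  (558766749, [.ofNat 0, .negSucc 5823, .ofNat 12288, .negSucc 2399]),
  (558781141, [.ofNat 0, .ofNat 2848, .ofNat 6208, .negSucc 4495]),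
  (558799005, [.ofNat 0, .ofNat 11072, .negSucc 13567, .ofNat 2400]),
  (559200469, [.ofNat 0, .ofNat 16512, .ofNat 30112, .ofNat 14208]),
  (559257253, [.ofNat 0, .ofNat 4992, .negSucc 7359, .ofNat 9168]),
  (559257813, [.ofNat 0, .negSucc 64255, .negSucc 30783, .negSucc 5663]),
  (559261285, [.ofNat 0, .negSucc 2495, .ofNat 6944, .negSucc 399])]

/-- the sum of the part -/
def lE14 : List (ℕ × List ℤ) := lE14x0 ++ (lE14x1 ++ (lE14x2 ++ (lE14x3)))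

theorem okE14 : dE14.all (rok tbE 12) = true := by decide +kernel

theorem sumE14 : aeq (fz (sumT tbE dE14)) lE14 = true := by decide +kernel

end Pool.Agent.H.MP_e16c79_al.IS
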