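import Pool.Agent.H.MP_e16c79_al.IS.BTabE

/-!
# MP_e16c79_al: certificate E, part 15
-/

set_option autoImplicit false

namespace Pool.Agent.H.MP_e16c79_al.IS

/-- data -/
def dE15x0 : RT := (.nd (.nd (.nd (.lf ⟨[.negSucc 13311, .ofNat 37696, .ofNat 35344, .ofNat 15024], (.tr (.lf 9) (.lf 10) (.tr (.dx 3 (.tr (.lf 1) (.tw (.lf 5) (.lf 17)) (.lf 2))) (.lf 6) (.lf 18))), 3, [6, 6, 6, 6, 22, 22, 22, 22], []⟩)
    (.lf ⟨[.negSucc 13311, .ofNat 40096, .ofNat 42048, .ofNat 21424], (.tr (.lf 9) (.lf 10) (.tr (.dx 3 (.tr (.lf 1) (.lf 17) (.lf 5))) (.tw (.lf 2) (.lf 6)) (.lf 18))), 3, [6, 6, 10, 10, 18, 18, 22, 22], [6, 10, 18, 22]⟩))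
    (.nd (.lf ⟨[.ofNat 0, .negSucc 383, .ofNat 352], (.tr (.dx 3 (.tr (.lf 1) (.lf 17) (.lf 5))) (.lf 2) (.tr (.lf 6) (.lf 18) (.tw (.lf 9) (.lf 10)))), 3, [23, 23, 21, 21, 23, 23, 21, 21], [23, 23, 21, 21]⟩)
    (.lf ⟨[.ofNat 0, .negSucc 2015, .negSucc 7055, .negSucc 6399], (.tr (.dx 3 (.tr (.lf 1) (.lf 17) (.lf 5))) (.tr (.tw (.lf 2) (.lf 6)) (.lf 18) (.lf 9)) (.lf 10)), 3, [23, 19, 23, 19, 23, 19, 23, 19], [23, 19, 23, 19]⟩)))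
    (.nd (.nd (.lf ⟨[.ofNat 0, .negSucc 2399, .negSucc 6703, .negSucc 6399], (.tr (.lf 9) (.tr (.tw (.lf 2) (.lf 6)) (.dx 3 (.tr (.lf 1) (.lf 17) (.lf 5))) (.lf 10)) (.lf 18)), 3, [6, 6, 10, 10, 6, 6, 10, 10], [6, 10, 6, 10]⟩)
    (.lf ⟨[.ofNat 0, .ofNat 2624, .negSucc 511], (.tr (.dx 3 (.tr (.lf 1) (.lf 17) (.lf 5))) (.lf 9) (.tr (.lf 10) (.tw (.lf 2) (.lf 6)) (.lf 18))), 3, [17, 13, 23, 19, 17, 13, 23, 19], [6, 10, 23, 19]⟩))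
    (.nd (.lf ⟨[.ofNat 6656, .negSucc 20287, .negSucc 17071, .negSucc 7007], (.tr (.dx 3 (.tr (.lf 1) (.lf 17) (.lf 5))) (.tr (.tw (.lf 2) (.lf 6)) (.lf 9) (.lf 10)) (.lf 18)), 3, [23, 19, 17, 13, 23, 19, 17, 13], [23, 19, 6, 10]⟩)
    (.lf ⟨[.ofNat 0, .ofNat 96, .negSucc 551], (.tr (.lf 13) (.lf 5) (.tr (.lf 17) (.tr (.dx 0 .on) (.lf 6) (.tr (.lf 9) (.lf 14) (.lf 10))) (.lf 18))), 0, [23, 23, 13, 13, 23, 23, 13, 13], [23, 23, 13, 13, 23, 23, 13, 13]⟩))))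

/-- data -/
def dE15x1 : RT := (.nd (.nd (.nd (.lf ⟨[.ofNat 0, .ofNat 0, .negSucc 12671, .negSucc 479], (.tr (.dx 3 (.tr (.lf 1) (.lf 17) (.tr (.lf 5) (.lf 2) (.lf 11)))) (.lf 6) (.lf 18)), 3, [0, 17, 4, 6], []⟩)
    (.lf ⟨[.ofNat 0, .ofNat 0, .negSucc 2431, .negSucc 1407], (.tr (.dx 3 (.tr (.lf 1) (.tr (.lf 2) (.lf 5) (.lf 17)) (.lf 11))) (.lf 6) (.lf 18)), 3, [0, 0, 6, 17], []⟩))
    (.nd (.lf ⟨[.ofNat 0, .ofNat 0, .ofNat 7552, .ofNat 944], (.tr (.dx 3 (.tw (.lf 11) (.tr (.lf 1) (.tw (.lf 5) (.lf 17)) (.lf 2)))) (.lf 6) (.lf 18)), 3, [6, 6, 6, 6, 0, 0, 0, 0], []⟩)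
    (.lf ⟨[.ofNat 0, .ofNat 0, .ofNat 6336, .ofNat 944], (.tr (.dx 3 (.tr (.lf 1) (.tw (.lf 11) (.lf 17)) (.lf 5))) (.tw (.lf 2) (.lf 6)) (.lf 18)), 3, [17, 13, 17, 13, 17, 13, 17, 13], []⟩)))
    (.nd (.nd (.lf ⟨[.ofNat 0, .ofNat 2080, .negSucc 1215, .negSucc 15], (.tw (.lf 6) (.tr (.dx 3 (.tr (.tw (.lf 1) (.lf 2)) (.lf 17) (.lf 5))) (.tw (.lf 9) (.lf 10)) (.lf 18))), 3, [4, 4, 4, 4, 4, 4, 4, 4, 20, 20, 20, 20, 20, 20, 20, 20], []⟩)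
    (.lf ⟨[.ofNat 0, .ofNat 1728, .ofNat 384, .negSucc 31], (.tr (.dx 3 (.tr (.lf 1) (.tr (.lf 2) (.lf 17) (.lf 5)) (.lf 6))) (.lf 9) (.tw (.lf 10) (.lf 18))), 3, [1023, 23, 23, 23, 19, 19, 1015, 19], []⟩))
    (.nd (.lf ⟨[.ofNat 0, .negSucc 1663, .ofNat 4800, .negSucc 159], (.tr (.tw (.dx 3 (.tr (.lf 17) (.lf 1) (.tr (.lf 5) (.lf 2) (.lf 6)))) (.lf 18)) (.lf 9) (.lf 10)), 3, [23, 23, 19, 19, 11, 11, 7, 7], []⟩)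
    (.lf ⟨[.ofNat 0, .ofNat 0, .negSucc 4479, .negSucc 2303, .ofNat 160], (.tr (.dx 0 (.lf 5)) (.tr (.lf 9) (.tr (.lf 13) (.lf 6) (.lf 14)) (.lf 19)) (.lf 10)), 0, [0, 0, 11, 11], [2, 2, 11, 11]⟩))))

/-- data -/
def dE15x2 : RT := (.nd (.nd (.nd (.lf ⟨[.ofNat 0, .ofNat 6656, .negSucc 18815, .negSucc 2591, .ofNat 320], (.tr (.lf 5) (.tr (.dx 3 (.lf 1)) (.tr (.lf 17) (.lf 2) (.lf 18)) (.lf 6)) (.lf 11)), 3, [23, 23, 16, 16], [23, 23, 16, 16]⟩)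
    (.lf ⟨[.ofNat 0, .ofNat 0, .negSucc 3391, .negSucc 1007, .negSucc 31], (.tr (.lf 13) (.dx 0 (.lf 5)) (.tr (.lf 19) (.lf 14) (.tr (.lf 9) (.lf 6) (.lf 10)))), 0, [11, 11, 0, 0], [11, 11, 2, 2]⟩))
    (.nd (.lf ⟨[.ofNat 0, .ofNat 0, .ofNat 2304, .ofNat 7200, .negSucc 895], (.tr (.lf 1) (.tr (.lf 7) (.tr (.dx 3 .on) (.lf 17) (.lf 2)) (.lf 11)) (.lf 18)), 3, [0, 12, 2, 14], [0, 12, 2, 14]⟩)
    (.lf ⟨[.ofNat 0, .ofNat 0, .ofNat 6784, .ofNat 2016, .ofNat 64], (.tr (.lf 9) (.tr (.dx 0 (.lf 5)) (.tr (.lf 10) (.lf 13) (.lf 19)) (.lf 6)) (.lf 14)), 0, [6, 18, 10, 22], [6, 18, 10, 22]⟩)))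
    (.nd (.nd (.lf ⟨[.ofNat 0, .ofNat 0, .ofNat 7904, .ofNat 3784, .negSucc 223], (.tr (.lf 5) (.dx 0 (.lf 13)) (.tr (.lf 19) (.lf 6) (.tr (.lf 9) (.lf 14) (.lf 10)))), 0, [4, 4, 4, 4], [16, 16, 4, 4]⟩)
    (.lf ⟨[.ofNat 0, .ofNat 0, .negSucc 4959, .negSucc 5703, .negSucc 303], (.tr (.lf 5) (.tr (.dx 0 (.lf 13)) (.lf 19) (.tr (.lf 6) (.lf 14) (.lf 9))) (.lf 10)), 0, [11, 11, 8, 8], [11, 11, 8, 8]⟩))
    (.nd (.lf ⟨[.ofNat 0, .ofNat 0, .ofNat 23616, .ofNat 14832, .ofNat 672], (.tr (.lf 5) (.tr (.dx 0 (.lf 13)) (.tr (.lf 14) (.lf 9) (.lf 19)) (.lf 6)) (.lf 10)), 0, [23, 11, 8, 20], [23, 11, 8, 20]⟩)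
    (.lf ⟨[.ofNat 0, .ofNat 0, .negSucc 14783, .negSucc 4495, .negSucc 319], (.tr (.lf 5) (.tr (.lf 2) (.tr (.dx 3 (.lf 1)) (.lf 9) (.lf 19)) (.lf 6)) (.lf 10)), 3, [23, 11, 4, 20], [23, 11, 8, 20]⟩))))

/-- data -/
def dE15x3 : RT := (.nd (.nd (.nd (.lf ⟨[.ofNat 0, .ofNat 0, .negSucc 4799, .negSucc 2815, .negSucc 63], (.tr (.lf 1) (.tr (.lf 11) (.lf 18) (.tr (.lf 2) (.dx 3 (.lf 17)) (.lf 5))) (.lf 6)), 3, [5, 14, 0, 21], [5, 5, 0, 0]⟩)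
    (.lf ⟨[.ofNat 0, .ofNat 0, .ofNat 2112, .ofNat 4144, .negSucc 511], (.tr (.lf 5) (.dx 0 (.lf 13)) (.tr (.lf 9) (.lf 10) (.tr (.lf 14) (.lf 6) (.lf 19)))), 0, [4, 4, 23, 11], [4, 16, 23, 11]⟩))
    (.nd (.lf ⟨[.ofNat 0, .ofNat 0, .negSucc 2111, .negSucc 4143, .ofNat 512], (.tr (.lf 5) (.lf 2) (.tr (.lf 9) (.lf 10) (.tr (.dx 3 (.lf 1)) (.lf 6) (.lf 19)))), 3, [4, 16, 23, 7], [4, 16, 23, 11]⟩)
    (.lf ⟨[.ofNat 0, .ofNat 0, .ofNat 25600, .ofNat 9472, .ofNat 256], (.tr (.lf 5) (.lf 2) (.tr (.lf 9) (.lf 6) (.tr (.dx 3 (.lf 1)) (.lf 10) (.lf 19)))), 3, [4, 16, 23, 11], [4, 16, 23, 11]⟩)))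
    (.nd (.nd (.lf ⟨[.ofNat 0, .ofNat 0, .ofNat 4096, .ofNat 3904, .negSucc 319], (.tr (.dx 3 (.lf 1)) (.lf 5) (.tr (.lf 19) (.lf 9) (.tr (.lf 6) (.lf 2) (.lf 10)))), 3, [19, 17, 19, 23], [19, 17, 1015, 1015]⟩)
    (.lf ⟨[.ofNat 0, .ofNat 0, .ofNat 9600, .ofNat 5632, .ofNat 128], (.tr (.lf 1) (.lf 11) (.tr (.lf 5) (.lf 2) (.tr (.dx 3 (.lf 17)) (.lf 6) (.lf 18)))), 3, [2, 14, 17, 14], [2, 14, 17, 5]⟩))
    (.nd (.lf ⟨[.ofNat 0, .ofNat 0, .negSucc 7231, .negSucc 2815, .negSucc 63], (.tr (.dx 0 (.tw (.lf 5) (.lf 11))) (.lf 13) (.tr (.lf 17) (.tw (.lf 6) (.lf 14)) (.lf 18))), 0, [0, 0, 0, 0, 2, 2, 2, 2], []⟩)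
    (.lf ⟨[.ofNat 0, .ofNat 0, .negSucc 6015, .negSucc 2815, .negSucc 63], (.tr (.dx 0 (.tw (.lf 5) (.lf 11))) (.tr (.lf 17) (.tw (.lf 6) (.lf 13)) (.lf 18)) (.lf 14)), 0, [12, 12, 12, 12, 14, 14, 14, 14], []⟩))))

/-- data -/
def dE15x4 : RT := (.nd (.nd (.nd (.lf ⟨[.ofNat 0, .ofNat 0, .ofNat 768, .negSucc 703], (.tr (.lf 19) (.lf 1) (.tr (.dx 3 .on) (.lf 5) (.tr (.lf 2) (.lf 11) (.lf 6)))), 3, [9, 3, 14, 12], [9, 3, 1017, 1017]⟩)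
    (.lf ⟨[.ofNat 0, .ofNat 0, .negSucc 8703, .ofNat 1536, .negSucc 127], (.tr (.lf 19) (.lf 1) (.tr (.dx 3 .on) (.tr (.lf 5) (.lf 6) (.lf 11)) (.lf 2))), 3, [3, 1, 12, 14], [3, 1, 12, 1017]⟩))
    (.nd (.lf ⟨[.ofNat 0, .ofNat 0, .negSucc 7935, .negSucc 4031, .negSucc 127], (.tr (.lf 14) (.lf 5) (.tr (.lf 6) (.tr (.dx 0 (.lf 13)) (.lf 9) (.lf 10)) (.lf 19))), 0, [4, 8, 9, 5], [1015, 8, 21, 17]⟩)
    (.lf ⟨[.ofNat 0, .ofNat 0, .ofNat 7936, .ofNat 4032, .ofNat 128], (.tr (.lf 9) (.lf 5) (.tr (.lf 6) (.tr (.dx 0 (.lf 13)) (.lf 19) (.lf 10)) (.lf 14))), 0, [10, 22, 10, 10], [22, 22, 1015, 10]⟩)))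
    (.nd (.nd (.lf ⟨[.ofNat 0, .ofNat 0, .ofNat 7936, .negSucc 831, .ofNat 128], (.tr (.lf 5) (.lf 1) (.tr (.lf 2) (.tr (.lf 6) (.dx 3 .on) (.lf 11)) (.lf 19))), 3, [4, 4, 16, 16], [4, 4, 16, 1017]⟩)
    (.lf ⟨[.ofNat 0, .ofNat 0, .ofNat 1792, .negSucc 127, .negSucc 447], (.tr (.lf 1) (.lf 5) (.tr (.lf 19) (.lf 11) (.tr (.dx 3 .on) (.lf 2) (.lf 6)))), 3, [12, 12, 0, 0], [1017, 12, 0, 0]⟩))
    (.nd (.lf ⟨[.ofNat 0, .ofNat 0, .negSucc 1791, .negSucc 4735, .ofNat 448], (.tr (.lf 1) (.lf 5) (.tr (.dx 3 .on) (.tr (.lf 2) (.lf 6) (.lf 11)) (.lf 19))), 3, [0, 0, 12, 12], [0, 0, 12, 12]⟩)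
    (.lf ⟨[.ofNat 0, .ofNat 0, .ofNat 8960, .ofNat 4608, .negSucc 319], (.tr (.lf 19) (.lf 1) (.tr (.lf 5) (.lf 11) (.tr (.dx 3 .on) (.lf 6) (.lf 2)))), 3, [1, 12, 9, 9], [1, 1017, 9, 9]⟩))))

/-- data -/
def dE15x5 : RT := (.nd (.nd (.nd (.lf ⟨[.ofNat 0, .ofNat 0, .ofNat 2432], (.tr (.lf 5) (.lf 1) (.tr (.dx 3 .on) (.lf 11) (.tr (.lf 2) (.lf 6) (.tw (.lf 17) (.lf 18))))), 3, [4, 4, 1017, 1017, 16, 16, 16, 16], [4, 4, 4, 4, 16, 16, 16, 16]⟩)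
    (.lf ⟨[.ofNat 0, .ofNat 0, .negSucc 1215], (.tr (.dx 3 .on) (.lf 11) (.tr (.lf 5) (.lf 1) (.tr (.lf 2) (.lf 6) (.tw (.lf 17) (.lf 18))))), 3, [17, 17, 13, 13, 17, 17, 17, 17], [10, 10, 13, 13, 17, 17, 17, 17]⟩))
    (.nd (.lf ⟨[.ofNat 0, .ofNat 0, .ofNat 4864], (.tr (.dx 3 (.lf 17)) (.lf 1) (.tr (.lf 5) (.lf 11) (.tr (.lf 2) (.lf 6) (.lf 18)))), 3, [17, 13, 21, 21], [1017, 13, 21, 21]⟩)
    (.lf ⟨[.ofNat 0, .ofNat 0, .ofNat 1216], (.tr (.lf 18) (.lf 1) (.tw (.dx 3 (.lf 17)) (.tr (.lf 5) (.tw (.lf 2) (.lf 11)) (.lf 6)))), 3, [9, 5, 9, 5, 12, 12, 12, 12], [9, 5, 9, 5, 12, 1017, 12, 1017]⟩)))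
    (.nd (.nd (.lf ⟨[.ofNat 0, .ofNat 0, .ofNat 12032, .ofNat 5632, .ofNat 128], (.tr (.lf 1) (.lf 5) (.tr (.lf 11) (.lf 2) (.tr (.dx 3 (.lf 17)) (.lf 6) (.lf 18)))), 3, [0, 12, 19, 12], [0, 12, 0, 12]⟩)
    (.lf ⟨[.ofNat 0, .ofNat 0, .ofNat 6016, .ofNat 2816, .ofNat 64], (.tr (.lf 5) (.dx 0 (.lf 13)) (.tr (.lf 11) (.lf 6) (.tr (.lf 17) (.lf 14) (.lf 18)))), 0, [4, 4, 4, 4], [16, 16, 16, 16]⟩))
    (.nd (.lf ⟨[.ofNat 0, .ofNat 0, .ofNat 6016, .ofNat 2816, .ofNat 64], (.tr (.dx 3 (.lf 17)) (.lf 1) (.tr (.lf 2) (.tr (.lf 5) (.lf 18) (.lf 6)) (.lf 11))), 3, [23, 23, 13, 13], [23, 23, 13, 13]⟩)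
    (.lf ⟨[.ofNat 0, .ofNat 0, .ofNat 6016, .ofNat 2816, .ofNat 64], (.tr (.tw (.lf 6) (.lf 11)) (.dx 3 (.tr (.lf 5) (.tw (.lf 1) (.lf 2)) (.lf 17))) (.lf 18)), 3, [8, 8, 8, 8, 10, 10, 10, 10], []⟩))))

/-- data -/
def dE15x6 : RT := (.nd (.nd (.nd (.lf ⟨[.ofNat 0, .ofNat 0, .ofNat 6016, .ofNat 2816, .ofNat 64], (.tr (.dx 3 (.tr (.tw (.lf 1) (.lf 2)) (.lf 5) (.lf 17))) (.lf 18) (.tw (.lf 6) (.lf 11))), 3, [23, 21, 23, 21, 23, 21, 23, 21], []⟩)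
    (.lf ⟨[.ofNat 0, .ofNat 0, .ofNat 2432], (.tr (.lf 1) (.lf 11) (.tr (.dx 3 (.lf 17)) (.tr (.lf 2) (.lf 5) (.lf 6)) (.lf 18))), 3, [2, 2, 14, 14], [2, 2, 14, 14]⟩))
    (.nd (.lf ⟨[.ofNat 0, .ofNat 0, .ofNat 7936, .negSucc 831, .ofNat 128], (.tr (.lf 19) (.lf 1) (.tr (.lf 2) (.lf 11) (.tr (.dx 3 .on) (.lf 5) (.lf 6)))), 3, [9, 14, 3, 3], [9, 1017, 3, 3]⟩)
    (.lf ⟨[.ofNat 0, .ofNat 0, .ofNat 7936, .ofNat 4032, .ofNat 128], (.tr (.lf 14) (.lf 5) (.tr (.lf 6) (.dx 0 (.lf 13)) (.tr (.lf 9) (.lf 10) (.lf 19)))), 0, [4, 19, 5, 5], [1015, 19, 17, 17]⟩)))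
    (.nd (.nd (.lf ⟨[.ofNat 0, .ofNat 2432, .ofNat 976, .negSucc 79], (.tr (.lf 14) (.dx 0 (.lf 13)) (.tr (.lf 9) (.lf 5) (.tr (.lf 6) (.lf 10) (.tw (.lf 17) (.lf 18))))), 0, [2, 2, 21, 21, 23, 23, 23, 23], [2, 2, 21, 21, 23, 23, 23, 23]⟩)
    (.lf ⟨[.ofNat 0, .negSucc 4863, .negSucc 1951, .ofNat 160], (.tr (.lf 5) (.tr (.dx 0 (.lf 13)) (.tr (.lf 9) (.lf 6) (.tw (.lf 17) (.lf 18))) (.lf 10)) (.lf 14)), 0, [4, 4, 4, 4, 20, 20, 20, 20], [16, 16, 16, 16, 20, 20, 20, 20]⟩))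
    (.nd (.lf ⟨[.ofNat 0, .ofNat 384, .negSucc 351], (.tr (.lf 14) (.lf 5) (.tr (.lf 6) (.lf 9) (.tr (.lf 10) (.dx 0 (.lf 13)) (.tw (.lf 17) (.lf 18))))), 0, [8, 8, 7, 7, 21, 21, 9, 9], [8, 8, 19, 19, 21, 21, 21, 21]⟩)
    (.lf ⟨[.ofNat 0, .ofNat 0, .negSucc 3967, .ofNat 416, .negSucc 63], (.tr (.lf 19) (.lf 5) (.tw (.lf 6) (.tr (.dx 0 .on) (.tw (.lf 13) (.lf 14)) (.lf 11)))), 0, [7, 7, 3, 3, 9, 9, 5, 5], [7, 7, 3, 3, 9, 9, 5, 5]⟩))))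

/-- data -/
def dE15x7 : RT := (.nd (.nd (.nd (.lf ⟨[.ofNat 0, .ofNat 0, .negSucc 7935, .negSucc 4031, .negSucc 127], (.tr (.lf 5) (.lf 6) (.tr (.lf 14) (.tr (.dx 0 (.lf 13)) (.lf 9) (.lf 10)) (.lf 19))), 0, [4, 8, 16, 20], [4, 8, 16, 20]⟩)
    (.lf ⟨[.ofNat 0, .ofNat 0, .ofNat 7936, .ofNat 4032, .ofNat 128], (.tr (.lf 5) (.lf 6) (.tr (.lf 14) (.dx 0 (.lf 13)) (.tr (.lf 9) (.lf 10) (.lf 19)))), 0, [4, 4, 20, 20], [4, 1015, 20, 20]⟩))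
    (.nd (.lf ⟨[.ofNat 0, .ofNat 0, .ofNat 9728, .ofNat 3904, .negSucc 319], (.tr (.lf 5) (.lf 9) (.tr (.lf 14) (.tr (.lf 6) (.dx 0 (.lf 13)) (.lf 10)) (.lf 19))), 0, [8, 8, 20, 20], [8, 8, 20, 20]⟩)
    (.lf ⟨[.ofNat 0, .ofNat 0, .negSucc 7903, .negSucc 3783, .ofNat 224], (.tr (.lf 5) (.tw (.dx 0 (.lf 13)) (.tr (.lf 14) (.tw (.lf 6) (.lf 9)) (.lf 19))) (.lf 10)), 0, [4, 4, 4, 4, 7, 7, 7, 7], [4, 4, 16, 16, 19, 19, 7, 7]⟩)))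
    (.nd (.nd (.lf ⟨[.ofNat 0, .ofNat 0, .ofNat 3424, .ofNat 1480, .negSucc 63], (.tr (.lf 5) (.tw (.lf 2) (.tr (.dx 3 (.lf 1)) (.tw (.lf 6) (.lf 9)) (.lf 19))) (.lf 10)), 3, [4, 4, 16, 16, 19, 19, 7, 7], [4, 4, 16, 16, 19, 19, 7, 7]⟩)
    (.lf ⟨[.ofNat 0, .ofNat 0, .ofNat 4480, .negSucc 2655], (.tr (.lf 14) (.lf 19) (.tr (.lf 5) (.tr (.lf 6) (.dx 0 (.lf 13)) (.lf 9)) (.lf 10))), 0, [7, 11, 9, 5], [19, 23, 21, 17]⟩))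
    (.nd (.lf ⟨[.ofNat 0, .ofNat 0, .negSucc 4479, .ofNat 2656], (.tr (.dx 3 (.lf 1)) (.lf 19) (.tr (.lf 5) (.tr (.lf 6) (.lf 2) (.lf 9)) (.lf 10))), 3, [19, 23, 21, 17], [19, 23, 21, 17]⟩)
    (.lf ⟨[.ofNat 0, .ofNat 0, .negSucc 2431, .negSucc 975, .ofNat 80], (.tw (.lf 19) (.tr (.dx 0 (.tw (.lf 5) (.lf 13))) (.tr (.lf 9) (.lf 14) (.lf 10)) (.lf 6))), 0, [9, 9, 9, 9, 1, 1, 1, 1], [9, 9, 3, 3]⟩))))

/-- data -/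
def dE15x8 : RT := (.nd (.nd (.nd (.lf ⟨[.ofNat 0, .ofNat 0, .ofNat 8832, .ofNat 3344, .negSucc 15], (.tw (.dx 0 (.tw (.lf 5) (.lf 13))) (.tr (.lf 19) (.lf 6) (.tr (.lf 9) (.lf 14) (.lf 10)))), 0, [0, 0, 0, 0, 11, 11, 0, 0], [11, 11, 2, 2]⟩)
    (.lf ⟨[.ofNat 0, .ofNat 0, .ofNat 2432, .ofNat 976, .negSucc 79], (.tw (.lf 6) (.tr (.lf 19) (.dx 0 (.tw (.lf 5) (.lf 13))) (.tr (.lf 9) (.lf 14) (.lf 10)))), 0, [7, 7, 7, 7, 8, 8, 8, 8], [7, 7, 8, 8]⟩))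
    (.nd (.lf ⟨[.ofNat 0, .ofNat 0, .negSucc 6847, .negSucc 2959, .ofNat 128], (.tr (.dx 0 (.tr (.lf 5) (.lf 13) (.tw (.lf 9) (.lf 14)))) (.lf 19) (.tw (.lf 6) (.lf 10))), 0, [0, 0, 23, 21, 23, 21, 23, 21], []⟩)
    (.lf ⟨[.ofNat 0, .ofNat 0, .negSucc 2943, .negSucc 3263, .negSucc 63], (.tr (.dx 0 (.tr (.tw (.lf 5) (.lf 9)) (.lf 13) (.lf 19))) (.lf 14) (.tw (.lf 6) (.lf 10))), 0, [0, 0, 2, 2, 11, 9, 11, 9], []⟩)))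
    (.nd (.nd (.lf ⟨[.ofNat 0, .ofNat 0, .ofNat 2944, .ofNat 3264, .ofNat 64], (.tw (.lf 2) (.tr (.lf 5) (.tr (.lf 6) (.dx 3 (.tw (.lf 1) (.lf 19))) (.lf 9)) (.lf 10))), 3, [7, 7, 0, 0, 2, 2, 5, 5], []⟩)
    (.lf ⟨[.ofNat 0, .ofNat 0, .negSucc 2943, .negSucc 3263, .negSucc 63], (.tr (.lf 5) (.lf 6) (.tr (.dx 3 (.tw (.lf 1) (.lf 19))) (.tw (.lf 9) (.lf 10)) (.lf 2))), 3, [4, 4, 4, 4, 4, 4, 4, 4], []⟩))
    (.nd (.lf ⟨[.ofNat 0, .ofNat 0, .ofNat 2944, .ofNat 3264, .ofNat 64], (.tw (.dx 3 (.tw (.lf 1) (.lf 19))) (.tr (.lf 5) (.tr (.lf 6) (.lf 2) (.lf 9)) (.lf 10))), 3, [7, 11, 9, 5, 7, 11, 9, 5], []⟩)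
    (.lf ⟨[.ofNat 0, .ofNat 0, .negSucc 1471, .negSucc 1631, .negSucc 31], (.tr (.dx 3 (.tw (.lf 1) (.lf 19))) (.lf 5) (.tr (.lf 9) (.tw (.lf 2) (.lf 6)) (.lf 10))), 3, [11, 7, 11, 7, 11, 7, 11, 7], []⟩))))

/-- data -/
def dE15x9 : RT := (.nd (.nd (.nd (.lf ⟨[.ofNat 0, .ofNat 0, .negSucc 1471, .negSucc 1631, .negSucc 31], (.tr (.dx 3 (.tw (.lf 1) (.lf 19))) (.tr (.lf 9) (.tw (.lf 2) (.lf 5)) (.lf 10)) (.lf 6)), 3, [9, 9, 9, 9, 9, 9, 9, 9], []⟩)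
    (.lf ⟨[.ofNat 0, .ofNat 0, .ofNat 1472, .ofNat 1632, .ofNat 32], (.tw (.dx 3 (.tw (.lf 1) (.lf 19))) (.tr (.lf 5) (.lf 2) (.tr (.lf 9) (.lf 6) (.lf 10)))), 3, [11, 11, 5, 5, 11, 11, 5, 5], []⟩))
    (.nd (.lf ⟨[.ofNat 0, .ofNat 0, .ofNat 6784, .ofNat 2016, .ofNat 64], (.tr (.lf 13) (.lf 9) (.tr (.lf 19) (.lf 14) (.tr (.dx 0 (.lf 5)) (.lf 10) (.lf 6)))), 0, [9, 1, 6, 10], [9, 3, 6, 10]⟩)
    (.lf ⟨[.ofNat 0, .ofNat 0, .negSucc 3391, .negSucc 1007, .negSucc 31], (.tr (.dx 0 (.tw (.lf 5) (.lf 9))) (.tr (.lf 6) (.tw (.lf 13) (.lf 19)) (.lf 10)) (.lf 14)), 0, [0, 12, 0, 12, 2, 14, 2, 14], [0, 12, 2, 14]⟩)))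
    (.nd (.nd (.lf ⟨[.ofNat 0, .ofNat 0, .negSucc 3519, .negSucc 47, .ofNat 192], (.tw (.dx 0 (.tw (.lf 5) (.lf 9))) (.tr (.lf 6) (.lf 19) (.tr (.lf 13) (.lf 10) (.lf 14)))), 0, [12, 12, 0, 0, 14, 14, 2, 2], [12, 12, 2, 2]⟩)
    (.lf ⟨[.ofNat 0, .ofNat 0, .ofNat 4000, .negSucc 1303, .negSucc 95], (.tr (.dx 3 (.lf 1)) (.lf 19) (.tw (.lf 5) (.tr (.lf 9) (.tw (.lf 2) (.lf 6)) (.lf 10)))), 3, [23, 19, 23, 19, 21, 21, 21, 21], [23, 19, 23, 19, 21, 21, 21, 21]⟩))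
    (.nd (.lf ⟨[.ofNat 0, .ofNat 0, .ofNat 3392, .ofNat 1008, .ofNat 32], (.tw (.lf 13) (.tr (.lf 6) (.tr (.dx 0 (.tw (.lf 5) (.lf 9))) (.lf 19) (.lf 14)) (.lf 10))), 0, [7, 7, 19, 19, 5, 5, 17, 17], [7, 19, 5, 17]⟩)
    (.lf ⟨[.ofNat 0, .ofNat 0, .ofNat 2016, .ofNat 2560, .ofNat 32], (.tr (.dx 3 (.lf 1)) (.lf 17) (.tr (.lf 11) (.tr (.lf 5) (.lf 2) (.lf 6)) (.lf 18))), 3, [17, 17, 23, 23], [17, 17, 23, 23]⟩))))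

/-- data -/
def dE15x10 : RT := (.nd (.nd (.nd (.lf ⟨[.ofNat 0, .ofNat 0, .ofNat 12672, .negSucc 927], (.tr (.lf 17) (.lf 5) (.tr (.dx 3 (.lf 1)) (.lf 18) (.tr (.lf 2) (.lf 6) (.lf 11)))), 3, [23, 13, 16, 20], [23, 13, 16, 20]⟩)
    (.lf ⟨[.ofNat 0, .ofNat 400, .ofNat 564, .ofNat 8], (.tr (.lf 1) (.tr (.lf 5) (.tr (.lf 17) (.dx 3 .on) (.tr (.lf 9) (.lf 2) (.lf 10))) (.lf 6)) (.lf 18)), 3, [12, 12, 0, 0, 12, 12, 0, 0], [12, 12, 0, 0, 12, 12, 0, 0]⟩))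
    (.nd (.lf ⟨[.ofNat 0, .ofNat 960, .negSucc 663], (.tr (.lf 5) (.lf 1) (.tr (.lf 17) (.tr (.dx 3 .on) (.tr (.lf 9) (.lf 6) (.lf 10)) (.lf 2)) (.lf 18))), 3, [16, 16, 16, 16, 16, 16, 16, 16], [16, 16, 16, 16, 16, 16, 16, 16]⟩)
    (.lf ⟨[.ofNat 0, .ofNat 0, .ofNat 29696, .ofNat 15168, .negSucc 63], (.tr (.lf 5) (.lf 9) (.tr (.lf 2) (.lf 6) (.tr (.dx 3 (.lf 1)) (.lf 10) (.lf 19)))), 3, [8, 20, 8, 1], [8, 20, 8, 20]⟩)))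
    (.nd (.nd (.lf ⟨[.ofNat 0, .ofNat 0, .negSucc 6399, .negSucc 2367, .negSucc 63], (.tw (.dx 3 (.tr (.lf 9) (.lf 1) (.tr (.tw (.lf 5) (.lf 6)) (.lf 2) (.lf 19)))) (.lf 10)), 3, [7, 7, 11, 11, 7, 7, 7, 7], []⟩)
    (.lf ⟨[.ofNat 0, .ofNat 0, .ofNat 6400, .ofNat 2368, .ofNat 64], (.tw (.dx 3 (.tw (.lf 9) (.tr (.lf 1) (.lf 2) (.tr (.lf 5) (.lf 19) (.lf 6))))) (.lf 10)), 3, [11, 11, 7, 7, 11, 11, 7, 7], []⟩))
    (.nd (.lf ⟨[.ofNat 0, .ofNat 0, .ofNat 0, .negSucc 2815, .ofNat 800], (.tr (.dx 3 .on) (.tr (.lf 17) (.lf 18) (.tr (.lf 7) (.lf 1) (.lf 11))) (.lf 2)), 3, [15, 13, 15, 13], [15, 13, 15, 13]⟩)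
    (.lf ⟨[.ofNat 0, .ofNat 0, .ofNat 0, .negSucc 2815, .ofNat 800], (.tr (.lf 17) (.lf 18) (.tr (.lf 1) (.dx 3 .on) (.tr (.lf 7) (.lf 2) (.lf 11)))), 3, [7, 5, 3, 1], [7, 5, 3, 1]⟩))))

/-- data -/
def dE15x11 : RT := (.nd (.nd (.nd (.lf ⟨[.ofNat 0, .ofNat 0, .ofNat 1600, .ofNat 2256, .ofNat 32], (.tr (.lf 1) (.lf 17) (.tr (.lf 7) (.tr (.dx 3 .on) (.lf 18) (.lf 2)) (.lf 11))), 3, [19, 12, 17, 14], [19, 12, 17, 14]⟩)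
    (.lf ⟨[.ofNat 0, .ofNat 0, .negSucc 319], (.tr (.lf 9) (.lf 17) (.tr (.lf 2) (.tr (.dx 3 (.tw (.lf 1) (.lf 5))) (.lf 18) (.lf 10)) (.lf 6))), 3, [21, 21, 5, 1015, 15, 15, 1023, 1], [21, 18, 15, 22]⟩))
    (.nd (.lf ⟨[.ofNat 0, .ofNat 0, .ofNat 960, .ofNat 2256, .ofNat 32], (.tr (.lf 9) (.lf 13) (.tr (.dx 0 (.lf 5)) (.tr (.lf 10) (.lf 14) (.lf 19)) (.lf 6))), 0, [6, 9, 13, 1], [6, 9, 10, 3]⟩)
    (.lf ⟨[.ofNat 0, .ofNat 0, .negSucc 10879, .ofNat 800, .negSucc 63], (.tr (.lf 17) (.lf 1) (.tr (.lf 7) (.tr (.lf 2) (.dx 3 .on) (.lf 18)) (.lf 11))), 3, [19, 7, 17, 5], [19, 7, 17, 5]⟩)))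
    (.nd (.nd (.lf ⟨[.ofNat 0, .ofNat 0, .negSucc 1791, .ofNat 2560, .negSucc 223], (.tr (.lf 7) (.lf 11) (.tr (.lf 17) (.dx 3 .on) (.tr (.lf 1) (.lf 18) (.lf 2)))), 3, [20, 20, 20, 20], [20, 20, 20, 20]⟩)
    (.lf ⟨[.ofNat 0, .ofNat 0, .ofNat 0, .ofNat 384, .ofNat 320], (.tr (.lf 2) (.tw (.dx 3 (.tr (.lf 1) (.lf 17) (.lf 7))) (.lf 11)) (.lf 18)), 3, [0, 0, 2, 2], []⟩))
    (.nd (.lf ⟨[.ofNat 0, .ofNat 0, .negSucc 2431], (.tr (.lf 11) (.dx 0 .on) (.tr (.lf 5) (.lf 13) (.tr (.lf 6) (.tw (.lf 17) (.lf 18)) (.lf 14)))), 0, [6, 6, 6, 6, 18, 18, 6, 6], [6, 6, 6, 6, 18, 18, 6, 6]⟩)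
    (.lf ⟨[.ofNat 0, .ofNat 0, .negSucc 4479, .ofNat 4128], (.tr (.lf 13) (.lf 5) (.tr (.lf 17) (.lf 14) (.tr (.dx 0 (.lf 11)) (.lf 18) (.lf 6)))), 0, [17, 15, 4, 4], []⟩))))

/-- data -/
def dE15x12 : RT := (.nd (.nd (.nd (.lf ⟨[.ofNat 0, .ofNat 0, .ofNat 2240, .negSucc 2063], (.tr (.lf 13) (.lf 5) (.tw (.dx 0 (.lf 11)) (.tr (.lf 17) (.tw (.lf 6) (.lf 14)) (.lf 18)))), 0, [4, 4, 4, 4, 15, 15, 15, 15], []⟩)
    (.lf ⟨[.ofNat 0, .ofNat 0, .negSucc 2431], (.tr (.lf 5) (.lf 11) (.tr (.dx 0 (.lf 13)) (.tr (.lf 17) (.lf 6) (.lf 18)) (.lf 14))), 0, [8, 8, 8, 8], [20, 20, 8, 8]⟩))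
    (.nd (.lf ⟨[.ofNat 0, .ofNat 0, .ofNat 2432], (.tr (.lf 5) (.lf 11) (.tr (.dx 3 (.lf 1)) (.tr (.lf 17) (.lf 6) (.lf 18)) (.lf 2))), 3, [8, 8, 20, 20], [8, 8, 20, 20]⟩)
    (.lf ⟨[.ofNat 0, .ofNat 0, .negSucc 1215], (.tr (.dx 3 (.lf 1)) (.tr (.lf 11) (.lf 2) (.tr (.lf 17) (.lf 5) (.lf 18))) (.lf 6)), 3, [17, 17, 21, 21], [17, 17, 21, 21]⟩)))
    (.nd (.nd (.lf ⟨[.ofNat 0, .negSucc 1727, .negSucc 735], (.tr (.lf 17) (.lf 13) (.tr (.lf 5) (.tr (.dx 0 .on) (.tr (.lf 9) (.lf 18) (.lf 10)) (.lf 14)) (.lf 6))), 0, [9, 9, 17, 17, 9, 9, 17, 17], [9, 9, 17, 17, 9, 9, 17, 17]⟩)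
    (.lf ⟨[.ofNat 3328, .negSucc 3599, .negSucc 8431, .ofNat 416], (.tr (.lf 5) (.tr (.lf 17) (.tr (.lf 6) (.dx 0 .on) (.tr (.lf 9) (.lf 13) (.lf 10))) (.lf 18)) (.lf 14)), 0, [16, 16, 20, 20, 16, 16, 20, 20], [16, 16, 20, 20, 16, 16, 20, 20]⟩))
    (.nd (.lf ⟨[.ofNat 0, .ofNat 0, .negSucc 2175], (.tr (.lf 5) (.tr (.lf 17) (.lf 6) (.tr (.dx 0 .on) (.tr (.lf 9) (.lf 13) (.lf 10)) (.lf 18))) (.lf 14)), 0, [16, 16, 20, 20, 4, 4, 20, 20], [16, 16, 20, 20, 4, 4, 20, 20]⟩)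
    (.lf ⟨[.ofNat 0, .ofNat 0, .ofNat 384, .negSucc 1151], (.tr (.lf 17) (.dx 0 (.tw (.lf 11) (.lf 13))) (.tr (.lf 5) (.tw (.lf 14) (.lf 18)) (.lf 6))), 0, [17, 5, 17, 5, 17, 5, 17, 5], []⟩))))

/-- data -/
def dE15x13 : RT := (.nd (.nd (.nd (.lf ⟨[.ofNat 0, .ofNat 6656, .negSucc 16767, .negSucc 1535, .ofNat 160], (.tr (.lf 11) (.lf 14) (.tr (.dx 0 (.tw (.lf 13) (.lf 17))) (.lf 18) (.tw (.lf 5) (.lf 6)))), 0, [17, 17, 17, 17, 10, 10, 10, 10], [17, 17, 1023, 1023]⟩)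
    (.lf ⟨[.ofNat 0, .ofNat 0, .ofNat 2432], (.tr (.dx 0 (.tw (.lf 13) (.lf 17))) (.lf 14) (.tr (.tw (.lf 5) (.lf 6)) (.lf 18) (.lf 11))), 0, [23, 23, 21, 21, 23, 23, 21, 21], [1023, 1023, 21, 21]⟩))
    (.nd (.lf ⟨[.ofNat 0, .ofNat 0, .negSucc 2047, .ofNat 2016], (.tr (.lf 2) (.dx 3 (.tr (.tw (.lf 1) (.lf 17)) (.lf 18) (.lf 11))) (.tw (.lf 5) (.lf 6))), 3, [9, 9, 9, 9, 5, 5, 5, 5], []⟩)
    (.lf ⟨[.ofNat 0, .ofNat 0, .negSucc 2431], (.tw (.dx 0 (.tw (.lf 13) (.lf 17))) (.tr (.lf 14) (.lf 11) (.tr (.lf 5) (.lf 18) (.lf 6)))), 0, [21, 21, 0, 0, 21, 21, 12, 12], [21, 21, 12, 12]⟩)))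
    (.nd (.nd (.lf ⟨[.ofNat 0, .ofNat 0, .negSucc 3647], (.tr (.lf 2) (.tw (.dx 3 (.tr (.lf 1) (.tw (.lf 11) (.lf 17)) (.lf 5))) (.lf 18)) (.lf 6)), 3, [2, 2, 0, 0, 9, 9, 5, 5], []⟩)
    (.lf ⟨[.ofNat 0, .ofNat 0, .negSucc 2431], (.tr (.lf 2) (.dx 3 (.tw (.lf 17) (.tr (.lf 1) (.tw (.lf 11) (.lf 18)) (.lf 5)))) (.lf 6)), 3, [9, 9, 5, 5, 2, 2, 0, 0], []⟩))
    (.nd (.lf ⟨[.ofNat 0, .ofNat 1504, .ofNat 488], (.tr (.lf 5) (.tr (.lf 13) (.tr (.lf 6) (.dx 0 .on) (.tr (.lf 17) (.lf 9) (.lf 18))) (.lf 14)) (.lf 10)), 0, [4, 4, 11, 11, 4, 4, 11, 11], [4, 4, 11, 11, 4, 4, 11, 11]⟩)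
    (.lf ⟨[.ofNat 0, .ofNat 0, .ofNat 384, .negSucc 1151], (.tw (.dx 3 (.tr (.lf 11) (.lf 1) (.tr (.lf 17) (.tw (.lf 2) (.lf 5)) (.lf 18)))) (.lf 6)), 3, [5, 5, 5, 5, 9, 9, 9, 9], []⟩))))

/-- data -/
def dE15x14 : RT := (.nd (.nd (.nd (.lf ⟨[.ofNat 0, .ofNat 0, .negSucc 1023, .negSucc 2943, .negSucc 63], (.tr (.tw (.dx 0 (.tr (.lf 5) (.tw (.lf 13) (.lf 17)) (.lf 6))) (.lf 14)) (.lf 11) (.lf 18)), 0, [0, 12, 0, 12, 19, 19, 19, 19], []⟩)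
    (.lf ⟨[.ofNat 0, .ofNat 0, .ofNat 384, .negSucc 1151], (.tr (.tw (.lf 11) (.lf 14)) (.dx 0 (.tr (.lf 5) (.tw (.lf 13) (.lf 17)) (.lf 6))) (.lf 18)), 0, [6, 6, 6, 6, 6, 6, 6, 6], []⟩))
    (.nd (.lf ⟨[.ofNat 0, .ofNat 0, .ofNat 640, .ofNat 4096, .ofNat 64], (.tr (.lf 17) (.lf 11) (.tr (.dx 3 (.tw (.lf 1) (.lf 5))) (.lf 18) (.tw (.lf 2) (.lf 6)))), 3, [17, 13, 17, 13, 18, 18, 22, 22], [17, 13, 18, 22]⟩)
    (.lf ⟨[.ofNat 0, .ofNat 0, .negSucc 383, .ofNat 1152], (.tr (.dx 3 (.tw (.lf 11) (.tr (.lf 17) (.tw (.lf 1) (.lf 5)) (.lf 18)))) (.lf 2) (.lf 6)), 3, [5, 5, 5, 5, 5, 5, 5, 5], []⟩)))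
    (.nd (.nd (.lf ⟨[.ofNat 0, .ofNat 0, .negSucc 17407, .ofNat 10816, .ofNat 128], (.tr (.dx 3 (.tr (.lf 11) (.tr (.lf 5) (.lf 1) (.lf 17)) (.lf 18))) (.lf 2) (.lf 6)), 3, [5, 5, 5, 5], []⟩)
    (.lf ⟨[.ofNat 0, .ofNat 0, .negSucc 7167, .negSucc 5631, .negSucc 127], (.tr (.dx 3 (.tr (.lf 17) (.lf 18) (.tr (.lf 1) (.lf 5) (.lf 11)))) (.lf 2) (.lf 6)), 3, [5, 5, 5, 5], []⟩))
    (.nd (.lf ⟨[.ofNat 0, .ofNat 0, .negSucc 3583, .negSucc 2815, .negSucc 63], (.tr (.dx 3 (.tw (.lf 1) (.lf 5))) (.tr (.lf 11) (.tw (.lf 2) (.lf 6)) (.lf 17)) (.lf 18)), 3, [0, 0, 23, 19, 4, 4, 23, 19], [6, 10, 23, 19]⟩)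
    (.lf ⟨[.ofNat 0, .ofNat 0, .ofNat 2816, .ofNat 3584, .ofNat 128], (.tr (.lf 18) (.lf 11) (.tr (.dx 3 (.tr (.lf 5) (.lf 1) (.lf 17))) (.lf 2) (.lf 6))), 3, [5, 5, 22, 22], [5, 1023]⟩))))

/-- data -/
def dE15x15 : RT := (.nd (.nd (.nd (.lf ⟨[.ofNat 0, .ofNat 0, .negSucc 767, .ofNat 2304], (.tr (.lf 2) (.tr (.lf 6) (.dx 3 (.tr (.lf 1) (.lf 5) (.lf 17))) (.lf 11)) (.lf 18)), 3, [0, 0, 2, 2], [0, 2]⟩)
    (.lf ⟨[.ofNat 0, .ofNat 0, .negSucc 14207, .ofNat 4128], (.tr (.lf 6) (.dx 0 (.tr (.lf 5) (.lf 13) (.lf 17))) (.tr (.lf 14) (.lf 11) (.lf 18))), 0, [4, 4, 16, 16], [4, 16]⟩))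
    (.nd (.lf ⟨[.ofNat 0, .ofNat 0, .negSucc 24703, .ofNat 2720, .ofNat 320], (.tr (.lf 5) (.tr (.lf 2) (.tr (.dx 3 (.lf 1)) (.lf 17) (.lf 6)) (.lf 11)) (.lf 18)), 3, [4, 16, 8, 20], [4, 16, 8, 20]⟩)
    (.lf ⟨[.ofNat 0, .ofNat 0, .negSucc 14207, .ofNat 4128], (.tr (.lf 2) (.lf 6) (.tr (.dx 3 (.tr (.lf 5) (.lf 1) (.lf 17))) (.lf 11) (.lf 18))), 3, [0, 0, 12, 12], [0, 12]⟩)))
    (.nd (.nd (.lf ⟨[.ofNat 0, .ofNat 0, .negSucc 767, .ofNat 2304], (.tr (.dx 3 (.tr (.lf 5) (.lf 1) (.lf 17))) (.tr (.lf 6) (.lf 18) (.lf 11)) (.lf 2)), 3, [15, 13, 15, 13], [15, 13]⟩)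
    (.lf ⟨[.ofNat 0, .ofNat 0, .ofNat 6528, .ofNat 7392, .ofNat 128], (.tr (.dx 3 (.tr (.lf 5) (.lf 1) (.lf 17))) (.lf 11) (.tr (.lf 2) (.lf 6) (.lf 18))), 3, [17, 13, 17, 13], [1015, 13]⟩))
    (.nd (.lf ⟨[.ofNat 0, .ofNat 0, .ofNat 5568, .ofNat 864, .ofNat 64], (.tr (.dx 3 (.tr (.tw (.lf 1) (.lf 5)) (.lf 11) (.lf 17))) (.tw (.lf 2) (.lf 6)) (.lf 18)), 3, [0, 0, 4, 4, 17, 13, 17, 13], []⟩)
    (.lf ⟨[.ofNat 0, .ofNat 0, .ofNat 6208, .ofNat 2416, .ofNat 64], (.tw (.dx 3 (.tr (.lf 1) (.tr (.lf 5) (.tw (.lf 2) (.lf 17)) (.lf 6)) (.lf 11))) (.lf 18)), 3, [0, 0, 0, 0, 10, 10, 10, 10], []⟩))))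

/-- data -/
def dE15x16 : RT := (.nd (.nd (.nd (.lf ⟨[.ofNat 0, .ofNat 0, .negSucc 3807, .negSucc 1007, .negSucc 31], (.tw (.dx 3 (.tw (.lf 11) (.tr (.lf 1) (.lf 17) (.tr (.lf 5) (.lf 2) (.lf 6))))) (.lf 18)), 3, [6, 6, 10, 10, 0, 0, 4, 4], []⟩)
    (.lf ⟨[.ofNat 0, .ofNat 0, .ofNat 1728, .negSucc 1279], (.tw (.dx 3 (.tw (.lf 1) (.tr (.lf 11) (.tr (.lf 5) (.lf 2) (.lf 6)) (.lf 17)))) (.lf 18)), 3, [2, 2, 0, 0, 10, 10, 4, 4], []⟩))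
    (.nd (.lf ⟨[.ofNat 0, .ofNat 5280, .negSucc 63, .ofNat 496], (.tr (.lf 13) (.lf 5) (.tr (.lf 9) (.tr (.dx 0 .on) (.tr (.lf 17) (.lf 6) (.lf 18)) (.lf 14)) (.lf 10))), 0, [11, 11, 19, 19, 11, 11, 19, 19], [11, 11, 19, 19, 11, 11, 19, 19]⟩)
    (.lf ⟨[.ofNat 0, .ofNat 11712, .ofNat 256, .ofNat 992], (.tr (.dx 0 (.tw (.lf 17) (.tr (.lf 5) (.lf 6) (.tr (.lf 13) (.lf 9) (.lf 14))))) (.lf 10) (.lf 18)), 0, [12, 12, 14, 14, 0, 0, 2, 2], []⟩)))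
    (.nd (.nd (.lf ⟨[.ofNat 0, .negSucc 1407, .negSucc 623], (.tw (.dx 3 (.tr (.lf 1) (.lf 9) (.tr (.lf 5) (.lf 6) (.tr (.lf 17) (.lf 2) (.lf 18))))) (.lf 10)), 3, [7, 7, 11, 11, 7, 7, 7, 7], []⟩)
    (.lf ⟨[.ofNat 0, .ofNat 1408, .ofNat 624], (.tw (.dx 3 (.tr (.lf 1) (.tr (.lf 2) (.tr (.lf 17) (.lf 5) (.lf 18)) (.lf 9)) (.lf 6))) (.lf 10)), 3, [11, 11, 11, 11, 7, 7, 7, 7], []⟩))
    (.nd (.lf ⟨[.negSucc 6655, .negSucc 14863, .ofNat 2240, .ofNat 1024], (.tw (.dx 3 (.tr (.lf 5) (.lf 1) (.tr (.lf 2) (.lf 9) (.tr (.lf 17) (.lf 6) (.lf 18))))) (.lf 10)), 3, [11, 11, 7, 7, 11, 11, 11, 11], []⟩)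
    (.lf ⟨[.negSucc 3327, .negSucc 5703, .ofNat 768, .ofNat 512], (.tw (.lf 10) (.tr (.lf 17) (.tw (.dx 0 (.tr (.tw (.lf 5) (.lf 6)) (.lf 9) (.lf 13))) (.lf 14)) (.lf 18))), 0, [18, 18, 18, 18, 18, 18, 18, 18, 18, 18, 18, 18, 18, 18, 18, 18], []⟩))))

/-- data -/
def dE15x17 : RT := (.nd (.nd (.nd (.lf ⟨[.ofNat 0, .negSucc 3455, .ofNat 704], (.tr (.lf 17) (.dx 0 (.tr (.tw (.lf 5) (.lf 6)) (.lf 9) (.lf 13))) (.tr (.lf 10) (.lf 18) (.lf 14))), 0, [12, 19, 12, 19, 14, 19, 14, 19], []⟩)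
    (.lf ⟨[.ofNat 0, .negSucc 11279, .ofNat 27800, .negSucc 9783], (.tr (.lf 14) (.lf 17) (.tr (.lf 10) (.dx 0 (.tr (.tw (.lf 5) (.lf 6)) (.lf 9) (.lf 13))) (.lf 18))), 0, [15, 15, 13, 13, 7, 7, 7, 7], []⟩))
    (.nd (.lf ⟨[.negSucc 5823, .ofNat 15240, .negSucc 7779, .ofNat 7876], (.tw (.lf 14) (.tr (.lf 17) (.tw (.dx 0 (.tr (.tw (.lf 5) (.lf 6)) (.lf 9) (.lf 13))) (.lf 10)) (.lf 18))), 0, [19, 19, 19, 19, 15, 15, 13, 13, 19, 19, 19, 19, 15, 15, 13, 13], []⟩)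
    (.lf ⟨[.negSucc 1663, .negSucc 16271, .ofNat 39624, .negSucc 3815], (.tr (.lf 17) (.lf 10) (.tr (.dx 0 (.tr (.tw (.lf 5) (.lf 6)) (.lf 9) (.lf 13))) (.lf 18) (.lf 14))), 0, [18, 18, 18, 18, 3, 3, 1, 1], []⟩)))
    (.nd (.nd (.lf ⟨[.ofNat 1664, .ofNat 12432, .negSucc 38567, .ofNat 3816], (.tr (.dx 0 (.tr (.tw (.lf 5) (.lf 6)) (.lf 9) (.lf 13))) (.lf 17) (.tr (.lf 14) (.lf 10) (.lf 18))), 0, [0, 0, 0, 0, 2, 2, 2, 2], []⟩)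
    (.lf ⟨[.negSucc 6655, .ofNat 7104, .ofNat 12032, .ofNat 5968], (.tw (.dx 3 (.tr (.lf 1) (.tw (.lf 17) (.tr (.lf 2) (.tw (.lf 9) (.lf 10)) (.lf 5))) (.lf 6))) (.lf 18)), 3, [2, 2, 0, 0, 2, 2, 0, 0, 4, 4, 8, 8, 4, 4, 8, 8], []⟩))
    (.nd (.lf ⟨[.ofNat 0, .ofNat 3232, .ofNat 192, .ofNat 1728], (.tw (.dx 3 (.tr (.lf 1) (.lf 9) (.tr (.lf 5) (.lf 2) (.tr (.lf 17) (.lf 6) (.lf 18))))) (.lf 10)), 3, [11, 11, 11, 11, 7, 7, 7, 7], []⟩)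
    (.lf ⟨[.ofNat 0, .ofNat 5248, .ofNat 704, .negSucc 159], (.tr (.lf 5) (.tr (.dx 0 .on) (.tr (.lf 6) (.lf 13) (.tr (.lf 17) (.lf 9) (.lf 18))) (.lf 10)) (.lf 14)), 0, [4, 4, 16, 16, 8, 8, 20, 20], [4, 4, 16, 16, 8, 8, 20, 20]⟩))))

/-- data -/
def dE15x18 : RT := (.nd (.nd (.nd (.lf ⟨[.ofNat 0, .ofNat 1920, .negSucc 527], (.tw (.lf 18) (.tr (.dx 0 (.tr (.lf 13) (.tw (.lf 5) (.lf 17)) (.lf 14))) (.tw (.lf 9) (.lf 10)) (.lf 6))), 0, [9, 9, 9, 9, 9, 9, 9, 9, 1, 1, 1, 1, 1, 1, 1, 1], []⟩)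
    (.lf ⟨[.ofNat 0, .negSucc 3711, .ofNat 544], (.tw (.dx 3 (.tr (.lf 1) (.lf 2) (.lf 5))) (.tr (.lf 6) (.lf 9) (.tr (.lf 17) (.lf 10) (.lf 18)))), 3, [0, 0, 21, 21, 4, 4, 21, 21], []⟩))
    (.nd (.lf ⟨[.ofNat 0, .ofNat 2048, .ofNat 1952, .negSucc 159], (.tw (.lf 17) (.tr (.dx 3 (.tr (.lf 1) (.lf 2) (.lf 5))) (.lf 6) (.tr (.lf 9) (.lf 18) (.lf 10)))), 3, [23, 23, 23, 23, 5, 1, 5, 1], []⟩)
    (.lf ⟨[.ofNat 0, .negSucc 2047, .negSucc 1951, .ofNat 160], (.tw (.lf 9) (.tr (.lf 17) (.tr (.dx 3 (.tr (.lf 1) (.lf 2) (.lf 5))) (.lf 6) (.lf 10)) (.lf 18))), 3, [18, 22, 22, 22, 18, 22, 22, 22], []⟩)))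
    (.nd (.nd (.lf ⟨[.ofNat 0, .ofNat 3328, .negSucc 4991, .ofNat 320], (.tr (.dx 3 (.tr (.lf 1) (.lf 2) (.lf 5))) (.lf 6) (.tr (.lf 9) (.lf 17) (.tw (.lf 10) (.lf 18)))), 3, [0, 23, 23, 23, 4, 23, 23, 23], []⟩)
    (.lf ⟨[.ofNat 6656, .ofNat 14864, .negSucc 2239, .negSucc 1023], (.tr (.lf 6) (.lf 17) (.tr (.dx 3 (.tr (.lf 5) (.tw (.lf 1) (.lf 2)) (.lf 9))) (.lf 10) (.lf 18))), 3, [16, 16, 20, 20, 20, 20, 20, 20], []⟩))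
    (.nd (.lf ⟨[.ofNat 8320, .negSucc 9983, .negSucc 12335, .negSucc 5967], (.tr (.dx 3 (.tr (.lf 1) (.lf 5) (.lf 17))) (.tr (.lf 2) (.tw (.lf 9) (.lf 10)) (.lf 6)) (.lf 18)), 3, [21, 21, 15, 15, 21, 21, 15, 15], [1017, 1017, 1017, 1017]⟩)
    (.lf ⟨[.negSucc 8319, .ofNat 9984, .ofNat 12336, .ofNat 5968], (.tr (.lf 14) (.tr (.dx 0 (.tr (.lf 5) (.lf 13) (.lf 17))) (.tw (.lf 9) (.lf 10)) (.lf 6)) (.lf 18)), 0, [21, 21, 21, 21, 8, 8, 8, 8], [1017, 1017, 1017, 1017]⟩))))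

/-- data -/
def dE15x19 : RT := (.nd (.nd (.nd (.lf ⟨[.negSucc 1663, .negSucc 1535, .ofNat 11120, .ofNat 5968], (.tr (.dx 3 (.tr (.lf 1) (.tr (.lf 2) (.lf 9) (.tw (.lf 5) (.lf 6))) (.lf 17))) (.lf 10) (.lf 18)), 3, [2, 2, 0, 0, 19, 19, 19, 19], []⟩)
    (.lf ⟨[.ofNat 1664, .ofNat 1536, .negSucc 11119, .negSucc 5967], (.tr (.dx 3 (.tw (.lf 17) (.tr (.lf 1) (.tr (.lf 2) (.lf 9) (.lf 5)) (.lf 6)))) (.lf 10) (.lf 18)), 3, [23, 23, 19, 19, 2, 0, 4, 8], []⟩))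
    (.nd (.lf ⟨[.negSucc 831, .negSucc 3271, .ofNat 2672, .ofNat 2260], (.tr (.dx 3 (.tr (.lf 17) (.lf 1) (.tr (.lf 5) (.tw (.lf 2) (.lf 9)) (.lf 6)))) (.lf 10) (.lf 18)), 3, [23, 23, 23, 23, 4, 8, 4, 8], []⟩)
    (.lf ⟨[.ofNat 12480, .ofNat 6616, .ofNat 13528, .negSucc 3987], (.tr (.dx 3 (.tr (.lf 1) (.tr (.lf 5) (.tw (.lf 2) (.lf 9)) (.lf 6)) (.lf 17))) (.lf 10) (.lf 18)), 3, [0, 0, 0, 0, 19, 19, 19, 19], []⟩)))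
    (.nd (.nd (.lf ⟨[.ofNat 832, .negSucc 2263, .negSucc 2191, .negSucc 3283], (.tr (.dx 3 (.tw (.lf 17) (.tr (.lf 1) (.lf 9) (.tr (.lf 5) (.lf 2) (.lf 6))))) (.lf 10) (.lf 18)), 3, [23, 23, 19, 19, 2, 2, 4, 4], []⟩)
    (.lf ⟨[.ofNat 0, .ofNat 5536, .negSucc 479, .ofNat 1024], (.tr (.dx 3 (.tw (.lf 1) (.tr (.lf 9) (.tr (.lf 5) (.lf 2) (.lf 6)) (.lf 17)))) (.lf 10) (.lf 18)), 3, [2, 2, 23, 23, 10, 10, 19, 19], []⟩))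
    (.nd (.lf ⟨[.ofNat 3328, .negSucc 5759, .negSucc 607], (.tr (.lf 14) (.dx 0 (.tr (.lf 5) (.lf 13) (.lf 17))) (.tr (.tw (.lf 9) (.lf 10)) (.lf 6) (.lf 18))), 0, [21, 21, 23, 23, 21, 21, 23, 23], [1017, 1017, 23, 23]⟩)
    (.lf ⟨[.ofNat 3328, .negSucc 5759, .negSucc 607], (.tr (.lf 18) (.lf 2) (.tr (.dx 3 (.tr (.lf 1) (.lf 5) (.lf 17))) (.lf 6) (.tw (.lf 9) (.lf 10)))), 3, [11, 11, 11, 11, 14, 14, 14, 14], [11, 11, 1017, 1017]⟩))))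

/-- data -/
def dE15x20 : RT := (.nd (.nd (.nd (.lf ⟨[.negSucc 8319, .ofNat 9984, .ofNat 12336, .ofNat 5968], (.tr (.lf 14) (.dx 0 (.tr (.lf 5) (.lf 17) (.lf 13))) (.tr (.tw (.lf 9) (.lf 10)) (.lf 6) (.lf 18))), 0, [21, 21, 23, 23, 21, 21, 23, 23], [1017, 1017, 23, 23]⟩)
    (.lf ⟨[.negSucc 3327, .ofNat 5760, .ofNat 608], (.tr (.lf 14) (.lf 6) (.tr (.tw (.lf 9) (.lf 10)) (.dx 0 (.tr (.lf 5) (.lf 17) (.lf 13))) (.lf 18))), 0, [8, 8, 8, 8, 7, 7, 19, 19], [1017, 1017, 19, 19]⟩))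
    (.nd (.lf ⟨[.negSucc 8319, .ofNat 9984, .ofNat 12336, .ofNat 5968], (.tr (.lf 18) (.lf 2) (.tr (.dx 3 (.tr (.lf 5) (.lf 1) (.lf 17))) (.lf 6) (.tw (.lf 9) (.lf 10)))), 3, [11, 11, 11, 11, 14, 14, 14, 14], [11, 11, 1017, 1017]⟩)
    (.lf ⟨[.ofNat 13312, .negSucc 14911, .negSucc 11039, .negSucc 25535], (.tr (.tw (.dx 3 (.tr (.lf 9) (.lf 1) (.tr (.lf 2) (.lf 5) (.lf 17)))) (.lf 6)) (.lf 10) (.lf 18)), 3, [6, 1017, 1023, 23, 8, 8, 4, 4], []⟩)))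
    (.nd (.nd (.lf ⟨[.negSucc 13311, .ofNat 25344, .ofNat 39328, .ofNat 13088], (.tr (.tw (.dx 3 (.tr (.lf 1) (.tr (.lf 2) (.lf 17) (.lf 5)) (.lf 9))) (.lf 6)) (.lf 10) (.lf 18)), 3, [0, 1023, 1017, 1013, 4, 4, 8, 8], []⟩)
    (.lf ⟨[.ofNat 0, .negSucc 6399, .negSucc 3407, .ofNat 1928], (.tr (.dx 0 (.tw (.lf 13) (.lf 17))) (.lf 5) (.tr (.lf 6) (.tr (.lf 9) (.lf 18) (.lf 10)) (.lf 14))), 0, [0, 0, 21, 21, 12, 12, 21, 21], [12, 12, 21, 21]⟩))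
    (.nd (.lf ⟨[.negSucc 13311, .ofNat 21440, .ofNat 41072, .ofNat 13248], (.tr (.dx 3 (.tr (.tw (.lf 1) (.lf 2)) (.lf 17) (.lf 5))) (.tr (.lf 9) (.lf 6) (.lf 18)) (.lf 10)), 3, [23, 23, 23, 23, 23, 23, 23, 23], []⟩)
    (.lf ⟨[.ofNat 0, .negSucc 10751, .ofNat 3536, .ofNat 32], (.tr (.dx 3 (.tr (.tw (.lf 1) (.lf 2)) (.lf 17) (.lf 5))) (.lf 18) (.tr (.lf 6) (.lf 9) (.lf 10))), 3, [23, 21, 23, 21, 23, 21, 23, 21], []⟩))))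

/-- data -/
def dE15x21 : RT := (.nd (.nd (.nd (.lf ⟨[.ofNat 13312, .negSucc 10687, .negSucc 44607, .negSucc 13279], (.tr (.lf 9) (.lf 10) (.tr (.dx 3 (.tr (.tw (.lf 1) (.lf 2)) (.lf 17) (.lf 5))) (.lf 18) (.lf 6))), 3, [6, 6, 10, 10, 22, 22, 22, 22], []⟩)
    (.lf ⟨[.negSucc 9983, .ofNat 12352, .ofNat 21584, .ofNat 6520], (.tw (.lf 6) (.tr (.tw (.lf 9) (.lf 10)) (.dx 3 (.tr (.tw (.lf 1) (.lf 2)) (.lf 17) (.lf 5))) (.lf 18))), 3, [8, 8, 8, 8, 8, 8, 8, 8, 11, 11, 11, 11, 7, 7, 7, 7], []⟩))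
    (.nd (.lf ⟨[.ofNat 11648, .negSucc 17023, .negSucc 17407, .negSucc 7295], (.tr (.lf 6) (.lf 9) (.tr (.lf 10) (.dx 3 (.tr (.tw (.lf 1) (.lf 2)) (.lf 17) (.lf 5))) (.lf 18))), 3, [8, 8, 8, 8, 20, 20, 20, 20], []⟩)
    (.lf ⟨[.negSucc 6655, .ofNat 6400, .ofNat 19744, .ofNat 6704], (.tr (.lf 9) (.dx 3 (.tr (.tw (.lf 1) (.lf 2)) (.lf 17) (.lf 5))) (.tr (.lf 6) (.lf 10) (.lf 18))), 3, [6, 21, 6, 21, 10, 21, 10, 21], []⟩)))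
    (.nd (.nd (.lf ⟨[.ofNat 6656, .negSucc 16127, .ofNat 1024, .negSucc 159], (.tr (.dx 0 (.tr (.lf 5) (.lf 13) (.lf 17))) (.tr (.lf 14) (.tw (.lf 9) (.lf 10)) (.lf 18)) (.lf 6)), 0, [0, 0, 0, 0, 21, 21, 9, 9], [1017, 1017, 1017, 1017]⟩)
    (.lf ⟨[.negSucc 3327, .ofNat 11456, .ofNat 128, .negSucc 159], (.tr (.dx 0 (.tr (.lf 5) (.lf 13) (.lf 17))) (.lf 14) (.tr (.lf 6) (.lf 18) (.tw (.lf 9) (.lf 10)))), 0, [23, 23, 0, 0, 23, 23, 21, 21], [23, 23, 1017, 1017]⟩))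
    (.nd (.lf ⟨[.negSucc 6655, .ofNat 14720, .ofNat 480], (.tr (.lf 6) (.lf 14) (.tr (.dx 0 (.tr (.lf 5) (.lf 13) (.lf 17))) (.lf 18) (.tw (.lf 9) (.lf 10)))), 0, [19, 19, 19, 19, 8, 1, 8, 1], [19, 19, 1017, 1017]⟩)
    (.lf ⟨[.negSucc 1663, .ofNat 5952, .negSucc 1183, .ofNat 272], (.tr (.lf 6) (.lf 14) (.tr (.dx 0 (.tr (.lf 5) (.lf 17) (.lf 13))) (.lf 18) (.tw (.lf 9) (.lf 10)))), 0, [19, 19, 19, 19, 8, 13, 8, 13], [19, 19, 1017, 1017]⟩))))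

/-- data -/
def dE15x22 : RT := (.nd (.nd (.nd (.lf ⟨[.negSucc 6655, .ofNat 6400, .ofNat 19744, .ofNat 6704], (.tr (.dx 0 (.tw (.lf 5) (.lf 13))) (.tr (.lf 9) (.tr (.lf 17) (.lf 6) (.lf 18)) (.lf 14)) (.lf 10)), 0, [0, 0, 23, 23, 0, 0, 23, 23], [14, 14, 23, 23]⟩)
    (.lf ⟨[.ofNat 6656, .ofNat 512, .negSucc 23199, .negSucc 6703], (.tr (.lf 6) (.dx 3 (.tr (.lf 1) (.tr (.lf 2) (.lf 17) (.tw (.lf 5) (.lf 9))) (.lf 18))) (.lf 10)), 3, [4, 4, 4, 4, 7, 7, 7, 7], []⟩))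
    (.nd (.lf ⟨[.ofNat 0, .negSucc 6911, .ofNat 3456], (.tr (.lf 6) (.dx 3 (.tw (.lf 1) (.tr (.lf 5) (.lf 9) (.tr (.lf 17) (.lf 2) (.lf 18))))) (.lf 10)), 3, [4, 4, 11, 11, 8, 8, 7, 7], []⟩)
    (.lf ⟨[.ofNat 6656, .negSucc 6399, .negSucc 19743, .negSucc 6703], (.tr (.dx 0 (.tw (.lf 5) (.lf 13))) (.lf 14) (.tr (.lf 9) (.lf 10) (.tr (.lf 17) (.lf 6) (.lf 18)))), 0, [0, 0, 23, 23, 0, 0, 23, 23], [2, 2, 23, 23]⟩)))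
    (.nd (.nd (.lf ⟨[.ofNat 3328, .negSucc 3199, .negSucc 9871, .negSucc 3351], (.tr (.lf 5) (.tr (.lf 9) (.tr (.lf 13) (.dx 0 .on) (.tr (.lf 17) (.lf 6) (.lf 18))) (.lf 10)) (.lf 14)), 0, [8, 8, 20, 20, 8, 8, 20, 20], [8, 8, 20, 20, 8, 8, 20, 20]⟩)
    (.lf ⟨[.ofNat 0, .ofNat 0, .negSucc 15103, .negSucc 479], (.tr (.tw (.dx 0 (.tr (.lf 5) (.tw (.lf 11) (.lf 17)) (.lf 13))) (.lf 14)) (.lf 6) (.lf 18)), 0, [12, 12, 2, 2, 0, 1017, 17, 17], []⟩))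
    (.nd (.lf ⟨[.ofNat 0, .ofNat 0, .ofNat 768, .negSucc 2303], (.tr (.tw (.dx 0 (.tr (.lf 5) (.lf 17) (.tw (.lf 11) (.lf 13)))) (.lf 14)) (.lf 6) (.lf 18)), 0, [12, 12, 2, 2, 1017, 17, 17, 17], []⟩)
    (.lf ⟨[.ofNat 0, .ofNat 0, .ofNat 2368, .ofNat 2816, .ofNat 64], (.tr (.lf 14) (.tw (.dx 0 (.tr (.lf 5) (.tw (.lf 11) (.lf 13)) (.lf 17))) (.lf 6)) (.lf 18)), 0, [0, 1017, 17, 17, 4, 4, 1017, 13], []⟩))))

/-- data -/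
def dE15x23 : RT := (.nd (.nd (.nd (.lf ⟨[.ofNat 0, .ofNat 0, .negSucc 5567, .negSucc 511, .negSucc 63], (.tr (.lf 14) (.tw (.dx 0 (.tr (.lf 5) (.lf 13) (.tw (.lf 11) (.lf 17)))) (.lf 6)) (.lf 18)), 0, [1017, 17, 17, 17, 4, 4, 4, 1017], []⟩)
    (.lf ⟨[.ofNat 0, .ofNat 0, .negSucc 767, .ofNat 2304], (.tr (.lf 13) (.tr (.dx 0 (.lf 5)) (.tr (.lf 11) (.lf 14) (.lf 17)) (.lf 6)) (.lf 18)), 0, [0, 0, 13, 13], [2, 21, 8, 15]⟩))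
    (.nd (.lf ⟨[.ofNat 13312, .ofNat 4880, .ofNat 8024, .negSucc 8975], (.tr (.lf 13) (.tr (.lf 6) (.tr (.dx 0 (.tw (.lf 5) (.lf 9))) (.lf 14) (.lf 17)) (.lf 10)) (.lf 18)), 0, [4, 4, 19, 19, 6, 6, 17, 17], [4, 19, 6, 17]⟩)
    (.lf ⟨[.ofNat 0, .ofNat 0, .ofNat 3200, .negSucc 2303], (.tr (.lf 14) (.tw (.dx 0 (.tr (.tw (.lf 5) (.lf 13)) (.lf 11) (.lf 17))) (.lf 6)) (.lf 18)), 0, [1017, 17, 17, 17, 4, 4, 4, 1017], []⟩)))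
    (.nd (.nd (.lf ⟨[.ofNat 0, .ofNat 0, .ofNat 1664, .ofNat 2656], (.tr (.tw (.dx 0 (.tr (.tw (.lf 5) (.lf 17)) (.lf 11) (.lf 13))) (.lf 14)) (.lf 6) (.lf 18)), 0, [12, 12, 2, 2, 1017, 17, 17, 17], []⟩)
    (.lf ⟨[.ofNat 0, .ofNat 0, .ofNat 0, .ofNat 1408], (.tr (.lf 17) (.lf 5) (.tr (.dx 3 (.lf 1)) (.tr (.lf 6) (.lf 11) (.lf 18)) (.lf 2))), 3, [15, 13, 16, 16], [15, 13, 16, 16]⟩))
    (.nd (.lf ⟨[.ofNat 0, .ofNat 0, .negSucc 767, .ofNat 2304], (.tr (.tw (.dx 0 (.tr (.tw (.lf 5) (.lf 13)) (.lf 11) (.lf 17))) (.lf 14)) (.lf 6) (.lf 18)), 0, [0, 0, 14, 14, 1017, 17, 17, 17], []⟩)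
    (.lf ⟨[.ofNat 0, .ofNat 0, .ofNat 768, .negSucc 2303], (.tr (.tw (.dx 0 (.tr (.lf 5) (.tw (.lf 11) (.lf 13)) (.lf 17))) (.lf 14)) (.lf 6) (.lf 18)), 0, [0, 0, 14, 14, 0, 1017, 17, 17], []⟩))))

/-- data -/
def dE15x24 : RT := (.nd (.nd (.nd (.lf ⟨[.ofNat 0, .ofNat 6656, .negSucc 12671, .negSucc 1599], (.tw (.dx 3 (.tw (.lf 1) (.tr (.lf 2) (.lf 11) (.tr (.lf 17) (.lf 5) (.lf 18))))) (.lf 6)), 3, [9, 9, 5, 5, 5, 5, 5, 5], []⟩)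
    (.lf ⟨[.ofNat 0, .ofNat 0, .negSucc 1215, .negSucc 3343, .ofNat 320], (.tw (.dx 3 (.tw (.lf 1) (.tr (.lf 2) (.tr (.lf 17) (.lf 5) (.lf 18)) (.lf 11)))) (.lf 6)), 3, [9, 9, 5, 5, 5, 5, 5, 5], []⟩))
    (.nd (.lf ⟨[.ofNat 6656, .ofNat 3152, .ofNat 4296, .negSucc 3151], (.tr (.lf 13) (.dx 0 (.tw (.lf 5) (.lf 9))) (.tr (.lf 6) (.lf 14) (.tr (.lf 17) (.lf 10) (.lf 18)))), 0, [0, 0, 9, 9, 2, 2, 9, 9], [0, 0, 9, 9]⟩)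
    (.lf ⟨[.negSucc 6655, .negSucc 7279, .negSucc 7679, .ofNat 5240], (.tr (.lf 13) (.lf 6) (.tr (.dx 0 (.tw (.lf 5) (.lf 9))) (.lf 14) (.tr (.lf 17) (.lf 10) (.lf 18)))), 0, [4, 4, 4, 4, 3, 1, 3, 1], [4, 4, 3, 3]⟩)))
    (.nd (.nd (.lf ⟨[.ofNat 0, .negSucc 14399, .negSucc 5519, .ofNat 176], (.tr (.dx 0 (.tw (.lf 5) (.lf 9))) (.lf 13) (.tr (.lf 14) (.lf 6) (.tr (.lf 17) (.lf 10) (.lf 18)))), 0, [0, 0, 0, 0, 2, 2, 2, 2], [0, 0, 2, 2]⟩)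
    (.lf ⟨[.ofNat 0, .ofNat 9536, .ofNat 3568, .negSucc 15], (.tr (.lf 6) (.lf 13) (.tr (.lf 14) (.dx 0 (.tw (.lf 5) (.lf 9))) (.tr (.lf 17) (.lf 10) (.lf 18)))), 0, [4, 4, 4, 4, 8, 8, 8, 8], [4, 4, 8, 8]⟩))
    (.nd (.lf ⟨[.ofNat 0, .ofNat 800, .ofNat 1128, .ofNat 16], (.tr (.lf 6) (.tr (.dx 0 (.tw (.lf 5) (.lf 9))) (.tr (.lf 17) (.lf 10) (.lf 18)) (.lf 13)) (.lf 14)), 0, [16, 16, 16, 16, 8, 8, 8, 8], [16, 16, 8, 8]⟩)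
    (.lf ⟨[.ofNat 0, .negSucc 799, .negSucc 1127, .negSucc 15], (.tr (.lf 6) (.dx 0 (.tw (.lf 5) (.lf 9))) (.tr (.lf 13) (.lf 14) (.tr (.lf 17) (.lf 10) (.lf 18)))), 0, [4, 4, 16, 16, 4, 4, 16, 16], [4, 4, 16, 16]⟩))))

/-- data -/
def dE15 : RT := (.nd (.nd (.nd (.nd dE15x0 (.nd dE15x1 dE15x2)) (.nd dE15x3 (.nd dE15x4 dE15x5))) (.nd (.nd dE15x6 (.nd dE15x7 dE15x8)) (.nd dE15x9 (.nd dE15x10 dE15x11)))) (.nd (.nd (.nd dE15x12 (.nd dE15x13 dE15x14)) (.nd dE15x15 (.nd dE15x16 dE15x17))) (.nd (.nd dE15x18 (.nd dE15x19 dE15x20)) (.nd (.nd dE15x21 dE15x22) (.nd dE15x23 dE15x24)))))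

/-- data -/
def lE15x0 : List (ℕ × List ℤ) := [(5405, [.ofNat 0, .ofNat 0, .ofNat 0, .ofNat 7424, .ofNat 7616]),
  (38173, [.ofNat 0, .negSucc 13311, .ofNat 23040, .ofNat 2432]),
  (39083, [.ofNat 0, .negSucc 46591, .ofNat 155136, .negSucc 59647, .negSucc 5695, .ofNat 640]),
  (42765, [.ofNat 0, .ofNat 0, .ofNat 12032, .negSucc 3455]),
  (43165, [.ofNat 0, .ofNat 0, .ofNat 0, .negSucc 35327, .negSucc 9471, .negSucc 255]),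
  (43356, [.ofNat 0, .ofNat 0, .ofNat 0, .ofNat 16128, .ofNat 20416, .ofNat 384]),
  (43357, [.ofNat 0, .ofNat 0, .ofNat 0, .negSucc 14079, .negSucc 191, .ofNat 768]),
  (49835, [.ofNat 0, .ofNat 0, .ofNat 0, .negSucc 54783, .negSucc 17279, .ofNat 384]),
  (50333, [.ofNat 0, .ofNat 0, .negSucc 1535, .ofNat 1408]),
  (50475, [.ofNat 0, .ofNat 0, .ofNat 0, .ofNat 14080, .ofNat 192, .negSucc 767]),
  (51868, [.ofNat 0, .ofNat 0, .ofNat 0, .negSucc 13567, .negSucc 4031, .negSucc 127]),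
  (135837, [.ofNat 0, .ofNat 0, .negSucc 10495, .ofNat 2048]),
  (136421, [.ofNat 0, .ofNat 0, .ofNat 0, .negSucc 11775, .ofNat 5120]),
  (136429, [.ofNat 0, .ofNat 0, .ofNat 0, .ofNat 14336, .ofNat 11264, .ofNat 256]),
  (304413, [.ofNat 0, .ofNat 0, .ofNat 0, .ofNat 7936, .ofNat 4032, .ofNat 128]),
  (312477, [.ofNat 0, .ofNat 0, .ofNat 0, .ofNat 7936, .ofNat 4032, .ofNat 128]),
  (312541, [.ofNat 0, .ofNat 0, .ofNat 0, .negSucc 7935, .ofNat 832, .negSucc 127]),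
  (312619, [.ofNat 0, .ofNat 0, .ofNat 13312, .negSucc 28671, .negSucc 575, .ofNat 320]),
  (312666, [.ofNat 0, .ofNat 0, .ofNat 0, .ofNat 19520, .ofNat 17040, .ofNat 736]),
  (333477, [.ofNat 0, .ofNat 0, .ofNat 0, .ofNat 8000, .negSucc 2607, .negSucc 191]),
  (333605, [.ofNat 0, .ofNat 0, .ofNat 0, .ofNat 0, .negSucc 5631, .ofNat 1600]),
  (334172, [.ofNat 0, .ofNat 0, .ofNat 0, .negSucc 51583, .ofNat 17824, .negSucc 1215]),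
  (336669, [.ofNat 0, .ofNat 0, .ofNat 0, .negSucc 1791, .ofNat 4992, .ofNat 448]),
  (337677, [.ofNat 0, .ofNat 0, .ofNat 0, .ofNat 768, .negSucc 703]),
  (337693, [.ofNat 0, .ofNat 0, .negSucc 25599, .negSucc 13631, .ofNat 7712]),
  (340645, [.ofNat 0, .ofNat 0, .ofNat 0, .ofNat 16000, .negSucc 5215, .negSucc 383]),
  (340709, [.ofNat 0, .ofNat 0, .ofNat 0, .ofNat 8000, .negSucc 2607, .negSucc 191]),
  (340757, [.ofNat 0, .ofNat 0, .ofNat 0, .negSucc 2431]),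
  (340765, [.ofNat 0, .ofNat 0, .ofNat 0, .negSucc 3199]),
  (340780, [.ofNat 0, .ofNat 0, .ofNat 0, .ofNat 12032, .ofNat 5632, .ofNat 128]),
  (341285, [.ofNat 0, .ofNat 0, .ofNat 0, .ofNat 4032, .ofNat 5120, .ofNat 64]),
  (341773, [.ofNat 0, .ofNat 0, .ofNat 0, .ofNat 4096, .ofNat 3904, .negSucc 319]),
  (342117, [.ofNat 0, .ofNat 0, .ofNat 0, .negSucc 2431]),
  (342189, [.ofNat 0, .ofNat 0, .ofNat 0, .ofNat 0, .ofNat 5632, .negSucc 1599]),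
  (342221, [.ofNat 0, .ofNat 0, .ofNat 0, .negSucc 15807, .negSucc 7567, .ofNat 448]),
  (342252, [.ofNat 0, .ofNat 0, .ofNat 0, .negSucc 3583, .ofNat 5120, .negSucc 447]),
  (342356, [.ofNat 0, .ofNat 0, .ofNat 0, .ofNat 11776, .negSucc 4479, .negSucc 127]),
  (344733, [.ofNat 0, .ofNat 0, .ofNat 0, .negSucc 1791, .ofNat 128, .ofNat 448]),
  (344797, [.ofNat 0, .ofNat 0, .ofNat 0, .negSucc 4095, .negSucc 4607, .ofNat 320]),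
  (344811, [.ofNat 0, .ofNat 0, .ofNat 0, .ofNat 15808, .ofNat 7568, .negSucc 447]),
  (344922, [.ofNat 0, .ofNat 0, .ofNat 0, .ofNat 19520, .ofNat 12176, .ofNat 736]),
  (345293, [.ofNat 0, .ofNat 0, .ofNat 0, .ofNat 12032, .ofNat 5632, .ofNat 128]),
  (345309, [.ofNat 0, .ofNat 0, .ofNat 0, .ofNat 12032, .ofNat 5632, .ofNat 128]),
  (345419, [.ofNat 0, .ofNat 0, .negSucc 25599, .negSucc 13631, .ofNat 7712]),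
  (345741, [.ofNat 0, .ofNat 0, .ofNat 0, .negSucc 2303, .negSucc 4735, .negSucc 127]),
  (345805, [.ofNat 0, .ofNat 0, .ofNat 0, .ofNat 0, .ofNat 4864]),
  (345898, [.ofNat 0, .negSucc 26623, .ofNat 38912, .ofNat 50304, .ofNat 26240, .ofNat 320]),
  (346317, [.ofNat 0, .ofNat 0, .ofNat 0, .ofNat 15872, .negSucc 1663, .ofNat 256]),
  (346461, [.ofNat 0, .ofNat 0, .ofNat 3200, .ofNat 4512, .ofNat 64]),
  (346717, [.ofNat 0, .ofNat 0, .ofNat 0, .ofNat 58368, .negSucc 15807, .ofNat 1280]),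
  (346837, [.ofNat 0, .ofNat 0, .ofNat 0, .ofNat 21760, .negSucc 1599, .ofNat 128]),
  (346851, [.ofNat 0, .ofNat 0, .ofNat 0, .negSucc 3583, .ofNat 5120, .negSucc 447]),
  (346891, [.ofNat 0, .ofNat 0, .ofNat 0, .ofNat 12032, .ofNat 5632, .ofNat 128]),
  (399517, [.ofNat 0, .ofNat 0, .ofNat 0, .negSucc 2431]),
  (402157, [.ofNat 0, .ofNat 0, .ofNat 0, .ofNat 0, .ofNat 5632, .negSucc 1599]),
  (402781, [.ofNat 0, .negSucc 26623, .ofNat 25600, .ofNat 78976, .ofNat 26816]),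
  (403292, [.ofNat 0, .ofNat 0, .ofNat 0, .ofNat 0, .ofNat 1408]),
  (410717, [.ofNat 0, .ofNat 0, .ofNat 0, .ofNat 0, .negSucc 5631, .ofNat 1600]),
  (410845, [.ofNat 0, .ofNat 0, .ofNat 0, .ofNat 15872, .negSucc 1663, .ofNat 256]),
  (410973, [.ofNat 0, .ofNat 0, .ofNat 19456, .ofNat 7808, .negSucc 639]),
  (414932, [.ofNat 0, .ofNat 0, .ofNat 0, .negSucc 21759, .ofNat 1600, .negSucc 127]),
  (415068, [.ofNat 0, .ofNat 0, .ofNat 32768, .ofNat 16832, .negSucc 9055]),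
  (1086621, [.ofNat 0, .ofNat 0, .ofNat 0, .negSucc 767, .ofNat 5568]),
  (1090261, [.ofNat 0, .ofNat 0, .ofNat 0, .ofNat 2432]),
  (1090277, [.ofNat 0, .ofNat 0, .ofNat 0, .ofNat 15808, .ofNat 640, .negSucc 63]),
  (1091237, [.ofNat 0, .ofNat 0, .ofNat 0, .ofNat 6784, .ofNat 2016, .ofNat 64]),
  (1091789, [.ofNat 0, .ofNat 0, .ofNat 0, .ofNat 0, .ofNat 1408]),
  (1091933, [.ofNat 0, .negSucc 53247, .negSucc 3007, .negSucc 17023, .ofNat 22944]),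
  (1092381, [.ofNat 0, .ofNat 53248, .ofNat 19520, .ofNat 30560, .negSucc 31295]),
  (2668845, [.ofNat 0, .ofNat 0, .ofNat 0, .ofNat 5632, .negSucc 1599]),
  (2673500, [.ofNat 0, .ofNat 0, .negSucc 4607, .negSucc 14399, .ofNat 1792]),
  (2693405, [.ofNat 0, .ofNat 0, .ofNat 4864, .negSucc 479, .negSucc 159]),
  (2705613, [.ofNat 0, .ofNat 0, .negSucc 7935, .ofNat 832, .negSucc 127]),
  (2738028, [.ofNat 0, .ofNat 0, .ofNat 3584, .negSucc 255, .ofNat 448]),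
  (2738349, [.ofNat 0, .ofNat 0, .ofNat 0, .negSucc 5631, .ofNat 1600]),
  (2757869, [.ofNat 0, .ofNat 0, .ofNat 1792, .ofNat 4736, .negSucc 447]),
  (2759397, [.ofNat 0, .ofNat 0, .ofNat 0, .ofNat 384, .ofNat 320]),
  (2759514, [.ofNat 0, .ofNat 0, .negSucc 7935, .ofNat 832, .negSucc 127]),
  (2767461, [.ofNat 0, .ofNat 0, .ofNat 0, .ofNat 384, .ofNat 320]),
  (2767690, [.ofNat 0, .ofNat 0, .negSucc 9727, .negSucc 3903, .ofNat 320]),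
  (2769565, [.ofNat 0, .ofNat 0, .ofNat 0, .negSucc 4863]),
  (2770573, [.ofNat 0, .ofNat 0, .ofNat 7936, .negSucc 831, .ofNat 128]),
  (2771549, [.ofNat 0, .ofNat 0, .ofNat 4608, .ofNat 14400, .negSucc 1791]),
  (2771669, [.ofNat 0, .ofNat 0, .negSucc 21759, .ofNat 1600, .negSucc 127]),
  (2775778, [.ofNat 0, .ofNat 0, .negSucc 3199, .negSucc 4511, .negSucc 63]),
  (2775779, [.ofNat 0, .ofNat 0, .ofNat 3584, .negSucc 255, .ofNat 448]),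
  (3200285, [.ofNat 0, .ofNat 0, .ofNat 0, .ofNat 384, .ofNat 320]),
  (3217771, [.ofNat 0, .ofNat 0, .negSucc 3199, .negSucc 4511, .negSucc 63]),
  (3232541, [.ofNat 0, .ofNat 0, .ofNat 0, .ofNat 384, .ofNat 320]),
  (3286237, [.ofNat 0, .ofNat 0, .negSucc 7935, .ofNat 832, .negSucc 127]),
  (3331284, [.ofNat 0, .ofNat 0, .ofNat 21760, .negSucc 1599, .ofNat 128]),
  (8692973, [.ofNat 0, .ofNat 0, .ofNat 7936, .negSucc 831, .ofNat 128]),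
  (8729261, [.ofNat 0, .ofNat 0, .negSucc 9727, .negSucc 3903, .ofNat 320]),
  (8730285, [.ofNat 0, .ofNat 0, .negSucc 4863, .ofNat 480, .ofNat 160]),
  (19482461, [.ofNat 0, .ofNat 0, .negSucc 7935, .negSucc 4031, .negSucc 127]),
  (19511637, [.ofNat 0, .ofNat 0, .ofNat 8960, .negSucc 5311]),
  (19539692, [.ofNat 0, .ofNat 0, .ofNat 8960, .negSucc 5311]),
  (19998493, [.ofNat 0, .ofNat 0, .negSucc 7935, .negSucc 4031, .negSucc 127]),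
  (20006235, [.ofNat 0, .ofNat 0, .ofNat 7936, .ofNat 4032, .ofNat 128]),
  (20006739, [.ofNat 0, .ofNat 0, .negSucc 16895, .negSucc 8639, .ofNat 192])]

/-- data -/
def lE15x1 : List (ℕ × List ℤ) := [(20007595, [.ofNat 0, .negSucc 26623, .ofNat 71168, .ofNat 8256, .negSucc 959]),
  (20007635, [.ofNat 0, .ofNat 0, .negSucc 8959, .negSucc 4607, .ofNat 320]),
  (20010778, [.ofNat 0, .ofNat 0, .ofNat 15808, .ofNat 7568, .negSucc 447]),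
  (20010795, [.ofNat 0, .ofNat 0, .negSucc 4863]),
  (20010842, [.ofNat 0, .ofNat 0, .negSucc 8831, .negSucc 10335, .negSucc 351]),
  (20010851, [.ofNat 0, .ofNat 0, .negSucc 8959, .ofNat 4032]),
  (20011179, [.ofNat 0, .negSucc 13311, .ofNat 33536, .ofNat 3072, .negSucc 319]),
  (20011746, [.ofNat 0, .ofNat 0, .negSucc 4095, .ofNat 4032]),
  (20011747, [.ofNat 0, .ofNat 0, .negSucc 4095, .ofNat 4032]),
  (20097762, [.ofNat 0, .ofNat 0, .negSucc 4095, .ofNat 4032]),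
  (20104538, [.ofNat 0, .ofNat 0, .negSucc 9599, .negSucc 5631, .negSucc 127]),
  (21342556, [.ofNat 0, .ofNat 0, .ofNat 6784, .ofNat 2016, .ofNat 64]),
  (21342557, [.ofNat 0, .ofNat 0, .negSucc 14783, .ofNat 592, .ofNat 128]),
  (21349675, [.ofNat 0, .ofNat 0, .negSucc 8959, .negSucc 4607, .ofNat 320]),
  (21351075, [.ofNat 0, .ofNat 0, .ofNat 960, .ofNat 2256, .ofNat 32]),
  (21386525, [.ofNat 0, .ofNat 0, .negSucc 14207, .ofNat 4128]),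
  (21386923, [.ofNat 0, .ofNat 0, .negSucc 959, .negSucc 2255, .negSucc 31]),
  (21387037, [.ofNat 0, .ofNat 0, .negSucc 4479, .ofNat 4128]),
  (21387100, [.ofNat 0, .ofNat 0, .ofNat 14208, .negSucc 4127]),
  (21546845, [.ofNat 0, .ofNat 0, .negSucc 7935, .negSucc 4031, .negSucc 127]),
  (21547245, [.ofNat 0, .ofNat 0, .negSucc 2431]),
  (21612396, [.ofNat 0, .ofNat 0, .negSucc 4863]),
  (21650147, [.ofNat 0, .ofNat 0, .negSucc 4863]),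
  (21801308, [.ofNat 0, .ofNat 0, .negSucc 6783, .negSucc 2015, .negSucc 63]),
  (21805397, [.ofNat 0, .ofNat 0, .ofNat 4224, .ofNat 2464, .negSucc 159]),
  (21808413, [.ofNat 0, .ofNat 0, .ofNat 25600, .ofNat 9472, .ofNat 256]),
  (21808427, [.ofNat 0, .ofNat 0, .negSucc 7039, .negSucc 95, .ofNat 384]),
  (21808477, [.ofNat 0, .ofNat 0, .negSucc 29695, .negSucc 15167, .ofNat 64]),
  (21808917, [.ofNat 0, .ofNat 0, .ofNat 29696, .ofNat 15168, .negSucc 63]),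
  (21808938, [.ofNat 0, .ofNat 0, .negSucc 7039, .negSucc 95, .ofNat 384]),
  (21808981, [.ofNat 0, .ofNat 0, .negSucc 29695, .negSucc 13375, .ofNat 64]),
  (21808997, [.ofNat 0, .ofNat 0, .negSucc 2431]),
  (21809829, [.ofNat 0, .ofNat 0, .negSucc 2431]),
  (21809893, [.ofNat 0, .ofNat 0, .negSucc 2431]),
  (21809949, [.ofNat 0, .ofNat 0, .negSucc 2431]),
  (21829980, [.ofNat 0, .ofNat 0, .ofNat 6784, .ofNat 2016, .ofNat 64]),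
  (21842269, [.ofNat 0, .ofNat 0, .negSucc 4031, .negSucc 5119, .negSucc 63]),
  (21842525, [.ofNat 0, .ofNat 0, .negSucc 6783, .negSucc 2015, .negSucc 63]),
  (21873493, [.ofNat 0, .ofNat 0, .negSucc 1983, .ofNat 240, .negSucc 191]),
  (21873933, [.ofNat 0, .ofNat 0, .negSucc 2111, .negSucc 4143, .ofNat 512]),
  (21895517, [.ofNat 0, .ofNat 0, .negSucc 2431]),
  (21895955, [.ofNat 0, .ofNat 0, .ofNat 5888, .ofNat 6528, .ofNat 128]),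
  (21901996, [.ofNat 0, .ofNat 0, .ofNat 8960, .negSucc 5311]),
  (21903980, [.ofNat 0, .ofNat 0, .negSucc 11775, .ofNat 1408]),
  (21910293, [.ofNat 0, .ofNat 0, .ofNat 768, .negSucc 2303]),
  (21910298, [.ofNat 0, .ofNat 0, .negSucc 5887, .negSucc 6527, .negSucc 127]),
  (21910356, [.ofNat 0, .ofNat 0, .ofNat 2432]),
  (21911380, [.ofNat 0, .ofNat 0, .negSucc 12671, .ofNat 928]),
  (22063901, [.ofNat 0, .ofNat 0, .ofNat 2048, .ofNat 5888, .ofNat 128]),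
  (22067045, [.ofNat 0, .ofNat 0, .ofNat 4736, .ofNat 5632, .ofNat 128]),
  (22067413, [.ofNat 0, .ofNat 0, .ofNat 22528, .ofNat 8640, .negSucc 191]),
  (22067883, [.ofNat 0, .ofNat 0, .negSucc 6847, .negSucc 2959, .ofNat 128]),
  (22067925, [.ofNat 0, .ofNat 0, .negSucc 9727, .negSucc 3903, .ofNat 320]),
  (22067997, [.ofNat 0, .ofNat 0, .negSucc 767, .ofNat 2304]),
  (22071125, [.ofNat 0, .ofNat 13312, .negSucc 12799, .negSucc 39487, .negSucc 13407]),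
  (22071130, [.ofNat 0, .ofNat 0, .ofNat 29696, .ofNat 15168, .negSucc 63]),
  (22074595, [.ofNat 0, .ofNat 0, .ofNat 17664, .ofNat 6688, .negSucc 31]),
  (22075162, [.ofNat 0, .ofNat 0, .ofNat 21632, .ofNat 7456, .ofNat 192]),
  (22075226, [.ofNat 0, .ofNat 0, .negSucc 34431, .negSucc 19807, .negSucc 607]),
  (22075738, [.ofNat 0, .ofNat 0, .negSucc 9599, .negSucc 5631, .negSucc 127]),
  (22091628, [.ofNat 0, .ofNat 0, .negSucc 7167, .negSucc 5631, .negSucc 127]),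
  (22092573, [.ofNat 0, .ofNat 0, .negSucc 14207, .ofNat 4128]),
  (22098668, [.ofNat 0, .ofNat 0, .ofNat 3840, .negSucc 2655]),
  (22099725, [.ofNat 0, .ofNat 0, .ofNat 2112, .ofNat 4144, .negSucc 511]),
  (22099788, [.ofNat 0, .ofNat 0, .ofNat 2112, .ofNat 4144, .negSucc 511]),
  (22100173, [.ofNat 0, .ofNat 0, .ofNat 25536, .ofNat 11472, .negSucc 767]),
  (22100685, [.ofNat 0, .ofNat 0, .negSucc 9727, .negSucc 3903, .ofNat 320]),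
  (22102763, [.ofNat 0, .ofNat 0, .negSucc 8959, .negSucc 4607, .ofNat 320]),
  (22103659, [.ofNat 0, .ofNat 0, .negSucc 8959, .negSucc 4607, .ofNat 320]),
  (22104669, [.ofNat 0, .ofNat 0, .negSucc 14207, .ofNat 4128]),
  (22107747, [.ofNat 0, .ofNat 0, .negSucc 15807, .negSucc 7567, .ofNat 448]),
  (22107852, [.ofNat 0, .ofNat 0, .ofNat 7936, .ofNat 4032, .ofNat 128]),
  (22123819, [.ofNat 0, .ofNat 0, .negSucc 5887, .negSucc 6527, .negSucc 127]),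
  (22123884, [.ofNat 0, .ofNat 0, .negSucc 24575, .ofNat 5184]),
  (22125395, [.ofNat 0, .ofNat 0, .ofNat 13696, .ofNat 5920, .negSucc 255]),
  (22127403, [.ofNat 0, .ofNat 0, .negSucc 5887, .negSucc 6527, .negSucc 127]),
  (22127461, [.ofNat 0, .ofNat 0, .negSucc 4863]),
  (22129259, [.ofNat 0, .ofNat 0, .ofNat 6848, .ofNat 2960, .negSucc 127]),
  (22129483, [.ofNat 0, .ofNat 0, .ofNat 13696, .ofNat 5920, .negSucc 255]),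
  (22131557, [.ofNat 0, .ofNat 0, .negSucc 2431]),
  (22135635, [.ofNat 0, .ofNat 0, .negSucc 6847, .negSucc 2959, .ofNat 128]),
  (22135642, [.ofNat 0, .ofNat 0, .ofNat 3968, .ofNat 2016, .ofNat 64]),
  (22136139, [.ofNat 0, .ofNat 0, .ofNat 29696, .ofNat 15168, .negSucc 63]),
  (22136650, [.ofNat 0, .ofNat 0, .ofNat 7936, .ofNat 4032, .ofNat 128]),
  (22137437, [.ofNat 0, .ofNat 0, .ofNat 6912, .ofNat 3872, .ofNat 1984]),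
  (22137451, [.ofNat 0, .ofNat 0, .ofNat 4864]),
  (22137578, [.ofNat 0, .negSucc 13311, .ofNat 37632, .ofNat 5184, .negSucc 639]),
  (22139564, [.ofNat 0, .ofNat 0, .negSucc 767, .ofNat 2304]),
  (22139732, [.ofNat 0, .negSucc 13311, .ofNat 25472, .ofNat 39616, .ofNat 13408]),
  (22140005, [.ofNat 0, .ofNat 0, .ofNat 8448, .negSucc 13823, .negSucc 127]),
  (22140012, [.ofNat 0, .ofNat 0, .negSucc 18175, .ofNat 13120, .ofNat 128]),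
  (22140517, [.ofNat 0, .ofNat 0, .ofNat 768, .negSucc 2303]),
  (22141013, [.ofNat 0, .ofNat 0, .ofNat 8448, .negSucc 13823, .negSucc 127]),
  (22141021, [.ofNat 0, .ofNat 0, .ofNat 768, .negSucc 2303]),
  (22141274, [.ofNat 0, .ofNat 0, .negSucc 12031, .negSucc 5631, .negSucc 127]),
  (22164589, [.ofNat 0, .ofNat 0, .ofNat 4864]),
  (22189404, [.ofNat 0, .ofNat 0, .negSucc 5247, .ofNat 800]),
  (22189725, [.ofNat 0, .ofNat 0, .negSucc 6783, .negSucc 2015, .negSucc 63]),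
  (22190819, [.ofNat 0, .ofNat 0, .negSucc 4863]),
  (22196948, [.ofNat 0, .ofNat 0, .ofNat 5440, .negSucc 399, .ofNat 32])]

/-- data -/
def lE15x2 : List (ℕ × List ℤ) := [(22196962, [.ofNat 0, .ofNat 0, .ofNat 960, .ofNat 2256, .ofNat 32]),
  (22197076, [.ofNat 0, .ofNat 0, .negSucc 767, .ofNat 2304]),
  (22201053, [.ofNat 0, .ofNat 0, .negSucc 9599, .negSucc 5631, .negSucc 127]),
  (22201565, [.ofNat 0, .ofNat 0, .negSucc 12031, .negSucc 5631, .negSucc 127]),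
  (22202061, [.ofNat 0, .ofNat 0, .ofNat 2432]),
  (22205532, [.ofNat 0, .ofNat 0, .negSucc 24575, .ofNat 5184]),
  (22206036, [.ofNat 0, .ofNat 0, .negSucc 7167, .negSucc 5631, .negSucc 127]),
  (25503580, [.ofNat 0, .ofNat 0, .ofNat 12800, .ofNat 4736, .ofNat 128]),
  (25507500, [.ofNat 0, .ofNat 0, .negSucc 12799, .negSucc 4735, .negSucc 127]),
  (25508011, [.ofNat 0, .ofNat 0, .ofNat 4864, .ofNat 1952, .negSucc 159]),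
  (25508581, [.ofNat 0, .ofNat 13312, .negSucc 14399, .negSucc 38079, .ofNat 1664]),
  (25511595, [.ofNat 0, .ofNat 0, .ofNat 4864, .ofNat 1952, .negSucc 159]),
  (25515683, [.ofNat 0, .ofNat 0, .ofNat 17664, .ofNat 6688, .negSucc 31]),
  (25515819, [.ofNat 0, .ofNat 0, .negSucc 2431]),
  (25515875, [.ofNat 0, .ofNat 0, .negSucc 6015, .negSucc 1951]),
  (25569109, [.ofNat 0, .ofNat 0, .ofNat 2432]),
  (25569949, [.ofNat 0, .ofNat 0, .ofNat 0, .negSucc 4351]),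
  (25601835, [.ofNat 0, .ofNat 0, .negSucc 7295]),
  (25601891, [.ofNat 0, .ofNat 0, .negSucc 4863]),
  (25737429, [.ofNat 0, .ofNat 0, .ofNat 12800, .ofNat 4736, .ofNat 128]),
  (25770604, [.ofNat 0, .ofNat 13312, .negSucc 25343, .negSucc 3199]),
  (25776988, [.ofNat 0, .ofNat 0, .negSucc 2431, .negSucc 6687, .ofNat 640]),
  (25777963, [.ofNat 0, .ofNat 13312, .negSucc 38399, .negSucc 3071, .ofNat 320]),
  (25778019, [.ofNat 0, .ofNat 13312, .negSucc 38399, .negSucc 3071, .ofNat 320]),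
  (25797419, [.ofNat 0, .ofNat 0, .ofNat 960, .ofNat 2256, .ofNat 32]),
  (25799437, [.ofNat 0, .ofNat 0, .ofNat 4480, .negSucc 4127]),
  (25807573, [.ofNat 0, .ofNat 0, .ofNat 768, .negSucc 2303]),
  (25809644, [.ofNat 0, .ofNat 0, .ofNat 768, .negSucc 2303]),
  (25809685, [.ofNat 0, .ofNat 0, .negSucc 767, .ofNat 2304]),
  (25809693, [.ofNat 0, .ofNat 0, .ofNat 1664, .ofNat 2656]),
  (25809706, [.ofNat 0, .ofNat 0, .negSucc 7295]),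
  (25809748, [.ofNat 0, .ofNat 13312, .negSucc 29439, .negSucc 12543, .ofNat 640]),
  (25809756, [.ofNat 0, .ofNat 0, .ofNat 768, .negSucc 3711]),
  (25809762, [.ofNat 0, .ofNat 0, .negSucc 10879, .negSucc 1951]),
  (25810540, [.ofNat 0, .ofNat 0, .ofNat 768, .negSucc 2303]),
  (25811157, [.ofNat 0, .ofNat 0, .ofNat 768, .negSucc 2303]),
  (25860820, [.ofNat 0, .ofNat 13312, .negSucc 27775, .negSucc 9887, .ofNat 640]),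
  (25860828, [.ofNat 0, .ofNat 0, .negSucc 2431, .negSucc 6687, .ofNat 640]),
  (25863781, [.ofNat 0, .ofNat 13312, .negSucc 7487, .negSucc 35135, .ofNat 1664]),
  (25863884, [.ofNat 0, .ofNat 0, .ofNat 12800, .ofNat 4736, .ofNat 128]),
  (25867037, [.ofNat 0, .ofNat 0, .negSucc 12671, .negSucc 127]),
  (25867050, [.ofNat 0, .ofNat 0, .negSucc 7295]),
  (25867106, [.ofNat 0, .ofNat 0, .negSucc 4863]),
  (26519317, [.ofNat 0, .ofNat 0, .ofNat 768, .negSucc 2303]),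
  (26519380, [.ofNat 0, .ofNat 0, .negSucc 767, .ofNat 2304]),
  (26519709, [.ofNat 0, .ofNat 0, .ofNat 4864]),
  (26519765, [.ofNat 0, .ofNat 0, .ofNat 768, .negSucc 2303]),
  (26520220, [.ofNat 0, .ofNat 0, .negSucc 4095, .negSucc 2303]),
  (26520276, [.ofNat 0, .ofNat 0, .negSucc 767, .ofNat 2304]),
  (26531036, [.ofNat 0, .ofNat 13312, .negSucc 25343, .negSucc 3199]),
  (26547868, [.ofNat 0, .ofNat 0, .ofNat 6784, .ofNat 2016, .ofNat 64]),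
  (26548892, [.ofNat 0, .ofNat 0, .ofNat 768, .negSucc 2303]),
  (26555036, [.ofNat 0, .ofNat 0, .ofNat 6784, .ofNat 2016, .ofNat 64]),
  (26555165, [.ofNat 0, .ofNat 0, .negSucc 15103, .negSucc 479]),
  (26555228, [.ofNat 0, .ofNat 0, .negSucc 767, .ofNat 2304]),
  (26556044, [.ofNat 0, .ofNat 0, .negSucc 12799, .negSucc 4735, .negSucc 127]),
  (26564180, [.ofNat 0, .ofNat 0, .negSucc 21119, .ofNat 256, .negSucc 1983]),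
  (69543709, [.ofNat 0, .ofNat 0, .negSucc 7935, .negSucc 4031, .negSucc 127]),
  (69547861, [.ofNat 0, .ofNat 0, .negSucc 4095, .negSucc 3903, .ofNat 320]),
  (69555989, [.ofNat 0, .ofNat 0, .negSucc 2431, .negSucc 1407]),
  (69641893, [.ofNat 0, .ofNat 0, .negSucc 4479, .ofNat 4128]),
  (69776741, [.ofNat 0, .ofNat 0, .negSucc 2431]),
  (69777757, [.ofNat 0, .ofNat 0, .negSucc 12671, .ofNat 928]),
  (69778197, [.ofNat 0, .ofNat 0, .negSucc 2367, .negSucc 2815, .negSucc 63]),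
  (69781333, [.ofNat 0, .ofNat 0, .ofNat 12672, .ofNat 128]),
  (69782229, [.ofNat 0, .ofNat 0, .negSucc 5567, .negSucc 511, .negSucc 63]),
  (69784805, [.ofNat 0, .ofNat 0, .ofNat 4800, .ofNat 2816, .ofNat 64]),
  (69785813, [.ofNat 0, .ofNat 0, .ofNat 4800, .ofNat 2816, .ofNat 64]),
  (69834077, [.ofNat 0, .ofNat 0, .negSucc 4095, .negSucc 3903, .ofNat 320]),
  (69834085, [.ofNat 0, .ofNat 0, .negSucc 7295]),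
  (69834597, [.ofNat 0, .ofNat 0, .ofNat 3456, .negSucc 2559]),
  (69837541, [.ofNat 0, .ofNat 0, .ofNat 6784, .ofNat 2016, .ofNat 64]),
  (69839589, [.ofNat 0, .ofNat 0, .negSucc 4159, .negSucc 4575, .negSucc 63]),
  (69839629, [.ofNat 0, .ofNat 0, .ofNat 4480, .negSucc 4127]),
  (69847637, [.ofNat 0, .ofNat 0, .ofNat 8704, .ofNat 1024, .ofNat 128]),
  (69847709, [.ofNat 0, .ofNat 0, .ofNat 5888, .negSucc 2559]),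
  (69847765, [.ofNat 0, .ofNat 0, .ofNat 8704, .ofNat 1024, .ofNat 128]),
  (69849765, [.ofNat 0, .ofNat 0, .negSucc 6527, .negSucc 7391, .negSucc 127]),
  (69850341, [.ofNat 0, .ofNat 0, .ofNat 9600, .ofNat 1248]),
  (69850381, [.ofNat 0, .ofNat 0, .negSucc 12671, .negSucc 479]),
  (69850901, [.ofNat 0, .ofNat 0, .ofNat 384, .negSucc 2207]),
  (69851221, [.ofNat 0, .ofNat 0, .negSucc 12671, .ofNat 224]),
  (69851277, [.ofNat 0, .ofNat 0, .ofNat 4608, .negSucc 5663]),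
  (69867349, [.ofNat 0, .ofNat 0, .ofNat 1536, .negSucc 4959]),
  (69874349, [.ofNat 0, .ofNat 0, .negSucc 7167, .negSucc 5631, .negSucc 127]),
  (69874517, [.ofNat 0, .ofNat 0, .negSucc 2431, .negSucc 1407]),
  (69874797, [.ofNat 0, .ofNat 0, .negSucc 7167, .negSucc 5631, .negSucc 127]),
  (69899493, [.ofNat 0, .ofNat 0, .ofNat 1280, .ofNat 3104]),
  (69900501, [.ofNat 0, .ofNat 0, .negSucc 12671, .negSucc 1887]),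
  (69903077, [.ofNat 0, .ofNat 0, .negSucc 11135, .negSucc 1727, .negSucc 127]),
  (69904141, [.ofNat 0, .ofNat 0, .negSucc 12671, .negSucc 1887]),
  (69904589, [.ofNat 0, .ofNat 0, .negSucc 12671, .negSucc 1887]),
  (69907221, [.ofNat 0, .ofNat 0, .ofNat 1536, .negSucc 4959]),
  (69907685, [.ofNat 0, .ofNat 0, .ofNat 4800, .ofNat 2816, .ofNat 64]),
  (69907741, [.ofNat 0, .ofNat 0, .ofNat 15104, .ofNat 1888]),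
  (70559509, [.ofNat 0, .ofNat 0, .ofNat 13056, .negSucc 1727]),
  (70587621, [.ofNat 0, .ofNat 0, .negSucc 4159, .negSucc 4575, .negSucc 63]),
  (70591261, [.ofNat 0, .ofNat 0, .ofNat 2432, .ofNat 1408]),
  (75834093, [.ofNat 0, .ofNat 0, .ofNat 2432]),
  (77928101, [.ofNat 0, .ofNat 0, .ofNat 3456, .negSucc 2559])]

/-- data -/
def lE15x3 : List (ℕ × List ℤ) := [(156128541, [.ofNat 6656, .negSucc 11519, .negSucc 1215]),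
  (156318493, [.negSucc 16639, .ofNat 19968, .ofNat 24672, .ofNat 11936]),
  (156346717, [.ofNat 16640, .negSucc 19967, .negSucc 24671, .negSucc 11935]),
  (156355229, [.negSucc 6655, .ofNat 11520, .ofNat 1216]),
  (156358813, [.ofNat 16640, .negSucc 19967, .negSucc 24671, .negSucc 11935]),
  (156411677, [.ofNat 6656, .negSucc 11519, .negSucc 1215]),
  (156415261, [.negSucc 16639, .ofNat 19968, .ofNat 24672, .ofNat 11936]),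
  (156415324, [.negSucc 6655, .ofNat 11520, .ofNat 1216]),
  (159995691, [.negSucc 13311, .ofNat 28032, .negSucc 2879, .negSucc 479]),
  (160016229, [.ofNat 0, .negSucc 3327, .ofNat 9600, .negSucc 319]),
  (160025259, [.ofNat 3328, .negSucc 11903, .ofNat 2368, .negSucc 543]),
  (160028437, [.ofNat 26624, .negSucc 75391, .negSucc 70687, .negSucc 30047]),
  (160028843, [.ofNat 13312, .negSucc 29439, .negSucc 959]),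
  (160061099, [.ofNat 13312, .negSucc 29439, .negSucc 959]),
  (160085347, [.ofNat 6656, .negSucc 22911, .negSucc 255, .ofNat 320]),
  (160085802, [.negSucc 13311, .ofNat 28032, .negSucc 2879, .negSucc 479]),
  (160086229, [.negSucc 26623, .ofNat 75392, .ofNat 70688, .ofNat 30048]),
  (160086355, [.ofNat 6656, .negSucc 22911, .negSucc 255, .ofNat 320]),
  (160089771, [.ofNat 3328, .negSucc 11903, .ofNat 2368, .negSucc 543]),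
  (160835229, [.ofNat 0, .ofNat 3328, .negSucc 9599, .ofNat 320]),
  (170740061, [.ofNat 0, .negSucc 1599, .negSucc 2255, .negSucc 31]),
  (171092700, [.ofNat 0, .ofNat 10496, .ofNat 1408, .negSucc 319]),
  (172377949, [.ofNat 0, .ofNat 4864, .ofNat 1952, .negSucc 159]),
  (172382044, [.ofNat 0, .ofNat 10496, .ofNat 1408, .negSucc 319]),
  (172890972, [.ofNat 3328, .ofNat 24864, .negSucc 77135, .ofNat 7632]),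
  (172898924, [.ofNat 0, .ofNat 6912, .negSucc 1407]),
  (172899148, [.ofNat 0, .ofNat 768, .negSucc 703]),
  (172905245, [.ofNat 0, .ofNat 7680, .negSucc 2111]),
  (173070053, [.negSucc 16639, .ofNat 15360, .ofNat 51520, .ofNat 11488]),
  (173128293, [.negSucc 16639, .ofNat 15360, .ofNat 51520, .ofNat 11488]),
  (173132381, [.ofNat 0, .negSucc 8191, .negSucc 639, .ofNat 320]),
  (173185245, [.ofNat 0, .ofNat 21504, .negSucc 7071, .negSucc 63]),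
  (173192973, [.ofNat 0, .ofNat 21504, .negSucc 7071, .negSucc 63]),
  (174410077, [.ofNat 0, .negSucc 1599, .negSucc 2255, .negSucc 31]),
  (174442837, [.ofNat 0, .ofNat 1600, .ofNat 2256, .ofNat 32]),
  (174474589, [.ofNat 0, .negSucc 28799, .negSucc 11039, .ofNat 352]),
  (174475093, [.ofNat 0, .negSucc 28799, .negSucc 11039, .ofNat 352]),
  (174478684, [.negSucc 13311, .negSucc 43359, .negSucc 26399, .ofNat 10832]),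
  (174479188, [.negSucc 13311, .negSucc 43359, .negSucc 26399, .ofNat 10832]),
  (174900588, [.ofNat 0, .negSucc 22559, .ofNat 55600, .negSucc 19567]),
  (175166749, [.ofNat 0, .negSucc 1215, .ofNat 15136, .ofNat 12800]),
  (175167253, [.ofNat 0, .negSucc 1215, .ofNat 15136, .ofNat 12800]),
  (175200013, [.ofNat 0, .negSucc 4799, .negSucc 13407, .negSucc 12799]),
  (175232269, [.ofNat 0, .negSucc 4799, .negSucc 13407, .negSucc 12799]),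
  (176534892, [.ofNat 0, .negSucc 22559, .ofNat 55600, .negSucc 19567]),
  (176543075, [.negSucc 13311, .ofNat 12800, .ofNat 39488, .ofNat 13408]),
  (176789356, [.ofNat 0, .negSucc 3839, .ofNat 2656]),
  (176790364, [.ofNat 0, .negSucc 9727, .negSucc 3903, .ofNat 320]),
  (176837341, [.ofNat 0, .negSucc 3071, .negSucc 2495, .ofNat 320]),
  (176838349, [.ofNat 0, .ofNat 7424, .negSucc 1087]),
  (176854827, [.ofNat 0, .ofNat 12800, .ofNat 6816, .negSucc 3855]),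
  (176854883, [.ofNat 0, .ofNat 12800, .ofNat 6816, .negSucc 3855]),
  (176870108, [.ofNat 0, .negSucc 8959, .negSucc 4607, .ofNat 320]),
  (177066836, [.ofNat 13312, .negSucc 12799, .negSucc 39487, .negSucc 13407]),
  (177329805, [.ofNat 0, .negSucc 767, .ofNat 704]),
  (177519330, [.ofNat 0, .ofNat 0, .ofNat 640]),
  (177526498, [.ofNat 0, .negSucc 2815, .ofNat 3008, .negSucc 319]),
  (177576674, [.ofNat 0, .ofNat 0, .ofNat 640]),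
  (177584234, [.negSucc 9983, .ofNat 21248, .negSucc 4671, .ofNat 1184]),
  (177648340, [.ofNat 0, .negSucc 5439, .ofNat 400, .negSucc 31]),
  (204028645, [.negSucc 13311, .ofNat 14400, .ofNat 38080, .negSucc 1663]),
  (204035939, [.ofNat 0, .ofNat 6016, .ofNat 1952]),
  (204101291, [.ofNat 0, .ofNat 0, .negSucc 639]),
  (204126946, [.ofNat 0, .negSucc 13823, .ofNat 6912]),
  (204559581, [.ofNat 0, .negSucc 3327, .ofNat 9344, .negSucc 319]),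
  (204560085, [.ofNat 0, .negSucc 3327, .ofNat 4992, .negSucc 319]),
  (204810461, [.ofNat 0, .ofNat 4864, .negSucc 5631]),
  (204814493, [.ofNat 0, .negSucc 3455, .negSucc 767, .ofNat 64]),
  (205892332, [.ofNat 0, .ofNat 6464, .ofNat 384, .ofNat 3456]),
  (205896364, [.ofNat 0, .negSucc 2815, .negSucc 1247]),
  (205928277, [.ofNat 13312, .negSucc 12799, .negSucc 39487, .negSucc 13407]),
  (205956893, [.ofNat 0, .ofNat 10432, .ofNat 28288, .negSucc 12447]),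
  (205957341, [.ofNat 26624, .negSucc 42879, .negSucc 82143, .negSucc 26495]),
  (205960981, [.ofNat 13312, .negSucc 17535, .negSucc 42815, .negSucc 13407]),
  (205961884, [.negSucc 13311, .negSucc 20447, .ofNat 6112, .ofNat 5504]),
  (205961954, [.ofNat 0, .negSucc 13823, .ofNat 6912]),
  (206164765, [.ofNat 0, .ofNat 768, .negSucc 703]),
  (206165773, [.ofNat 0, .ofNat 768, .negSucc 703]),
  (206214941, [.negSucc 13311, .ofNat 25344, .ofNat 39328, .ofNat 13088]),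
  (206215011, [.ofNat 13312, .ofNat 1024, .negSucc 46399, .negSucc 13407]),
  (206222123, [.ofNat 0, .negSucc 2815, .ofNat 3008, .negSucc 319]),
  (206222179, [.ofNat 3328, .ofNat 22272, .negSucc 51071, .negSucc 12223]),
  (206223117, [.ofNat 0, .negSucc 8319, .ofNat 4864, .ofNat 64]),
  (206223565, [.negSucc 13311, .ofNat 12800, .ofNat 39488, .ofNat 13408]),
  (206223964, [.ofNat 0, .negSucc 23423, .negSucc 511, .negSucc 1983]),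
  (206361955, [.ofNat 13312, .negSucc 12799, .negSucc 39487, .negSucc 13407]),
  (206412460, [.ofNat 0, .negSucc 6911, .ofNat 1408]),
  (206412565, [.ofNat 13312, .negSucc 22591, .negSucc 8927, .negSucc 25535]),
  (206412628, [.ofNat 3328, .ofNat 24864, .negSucc 77135, .ofNat 7632]),
  (206426978, [.ofNat 0, .ofNat 6016, .ofNat 1952]),
  (206477077, [.ofNat 0, .ofNat 10432, .ofNat 28288, .negSucc 12447]),
  (206482012, [.negSucc 13311, .negSucc 20447, .ofNat 6112, .ofNat 5504]),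
  (206682709, [.ofNat 0, .ofNat 23424, .ofNat 512, .ofNat 1984]),
  (206878380, [.ofNat 13312, .ofNat 22816, .negSucc 3071, .negSucc 2047]),
  (206911077, [.negSucc 13311, .ofNat 7488, .ofNat 35136, .negSucc 1663]),
  (206944397, [.negSucc 13311, .ofNat 12800, .ofNat 39488, .ofNat 13408]),
  (206968533, [.ofNat 0, .ofNat 7680, .negSucc 2111]),
  (210064605, [.ofNat 0, .negSucc 6655, .ofNat 9984, .negSucc 639]),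
  (210065109, [.ofNat 0, .negSucc 6655, .ofNat 9984, .negSucc 639]),
  (210285917, [.ofNat 0, .ofNat 19072, .ofNat 7136, .negSucc 31])]

/-- data -/
def lE15x4 : List (ℕ × List ℤ) := [(210343261, [.ofNat 0, .ofNat 19072, .ofNat 7136, .negSucc 31]),
  (210409173, [.negSucc 13311, .negSucc 29727, .ofNat 4480, .ofNat 2048]),
  (210413261, [.negSucc 13311, .negSucc 29727, .ofNat 4480, .ofNat 2048]),
  (212150045, [.ofNat 13312, .negSucc 2111, .negSucc 4223, .negSucc 29391]),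
  (212150108, [.negSucc 13311, .negSucc 42527, .negSucc 2335, .ofNat 5904]),
  (212417228, [.ofNat 0, .ofNat 4096, .ofNat 3904, .negSucc 319]),
  (212449932, [.ofNat 0, .ofNat 4096, .ofNat 3904, .negSucc 319]),
  (212473557, [.ofNat 0, .ofNat 7680, .negSucc 2111]),
  (212513436, [.ofNat 13312, .ofNat 26976, .ofNat 17984, .negSucc 6303]),
  (212513884, [.ofNat 13312, .ofNat 33440, .ofNat 18368, .negSucc 2847]),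
  (212514388, [.ofNat 0, .negSucc 5119, .negSucc 2015]),
  (556349677, [.ofNat 0, .ofNat 768, .negSucc 703]),
  (556350181, [.negSucc 26623, .ofNat 28416, .ofNat 48128, .ofNat 23872]),
  (556389661, [.negSucc 13311, .ofNat 40576, .ofNat 34144, .ofNat 14016]),
  (556390165, [.negSucc 13311, .ofNat 40192, .ofNat 36352, .ofNat 14016]),
  (557136029, [.negSucc 13311, .ofNat 21888, .ofNat 38560, .ofNat 13152]),
  (558213469, [.ofNat 13312, .negSucc 4799, .ofNat 688, .negSucc 7471]),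
  (558213917, [.ofNat 0, .negSucc 1055, .ofNat 6624, .ofNat 3408]),
  (558484061, [.ofNat 3328, .ofNat 3072, .negSucc 22239, .negSucc 11935]),
  (558487757, [.negSucc 9983, .ofNat 16576, .ofNat 14848, .negSucc 13599]),
  (558672221, [.ofNat 26624, .ofNat 1504, .ofNat 9280, .negSucc 13775]),
  (558672669, [.ofNat 0, .ofNat 0, .negSucc 5887, .ofNat 2560]),
  (558676309, [.ofNat 13312, .ofNat 6304, .ofNat 8592, .negSucc 6303]),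
  (558716685, [.ofNat 0, .ofNat 11072, .negSucc 959, .ofNat 2048]),
  (558748437, [.negSucc 13311, .ofNat 35328, .ofNat 35168, .ofNat 14016]),
  (558748941, [.negSucc 13311, .ofNat 35328, .ofNat 35168, .ofNat 14016]),
  (559199909, [.ofNat 13312, .negSucc 13503, .negSucc 37087, .ofNat 1664]),
  (562378413, [.ofNat 0, .ofNat 4864, .ofNat 1952, .negSucc 159]),
  (564471525, [.negSucc 26623, .ofNat 28416, .ofNat 48128, .ofNat 23872]),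
  (564475165, [.ofNat 0, .negSucc 11071, .ofNat 960, .negSucc 2047]),
  (564475669, [.ofNat 0, .negSucc 383, .ofNat 2208]),
  (564761829, [.negSucc 26623, .negSucc 9759, .negSucc 10159, .ofNat 15392]),
  (564765413, [.negSucc 26623, .negSucc 8703, .negSucc 22671, .ofNat 14544])]

/-- the sum of the part -/
def lE15 : List (ℕ × List ℤ) := lE15x0 ++ (lE15x1 ++ (lE15x2 ++ (lE15x3 ++ (lE15x4))))

theorem okE15 : dE15.all (rok tbE 12) = true := by decide +kernel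

theorem sumE15 : aeq (fz (sumT tbE dE15)) lE15 = true := by decide +kernel

end Pool.Agent.H.MP_e16c79_al.IS
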