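import Pool.Agent.H.MP_e16c79_al.IS.BTabE

/-!
# MP_e16c79_al: certificate E, part 16
-/

set_option autoImplicit false

namespace Pool.Agent.H.MP_e16c79_al.IS

/-- data -/
def dE16x0 : RT := (.nd (.nd (.nd (.lf ⟨[.ofNat 0, .ofNat 0, .negSucc 2399, .negSucc 1407, .negSucc 31], (.tr (.lf 1) (.tr (.dx 3 .on) (.lf 11) (.tr (.lf 2) (.tw (.lf 17) (.lf 18)) (.lf 5))) (.lf 6)), 3, [17, 17, 17, 17, 12, 12, 12, 12], [17, 17, 17, 17, 12, 12, 12, 12]⟩)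
    (.lf ⟨[.ofNat 0, .ofNat 0, .negSucc 2399, .negSucc 1407, .negSucc 31], (.tr (.lf 1) (.tr (.lf 11) (.dx 3 .on) (.tr (.lf 2) (.tw (.lf 17) (.lf 18)) (.lf 5))) (.lf 6)), 3, [17, 17, 17, 17, 12, 12, 12, 12], [17, 17, 2, 2, 12, 12, 9, 9]⟩))
    (.nd (.lf ⟨[.ofNat 0, .ofNat 0, .ofNat 4800, .ofNat 2816, .ofNat 64], (.tr (.lf 1) (.tr (.lf 2) (.tr (.dx 3 .on) (.lf 5) (.tw (.lf 17) (.lf 18))) (.lf 11)) (.lf 6)), 3, [0, 0, 12, 12, 17, 17, 5, 5], [0, 0, 12, 12, 2, 2, 5, 5]⟩)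
    (.lf ⟨[.ofNat 0, .negSucc 6655, .ofNat 10944, .negSucc 2871, .negSucc 415], (.tr (.dx 3 (.tw (.lf 1) (.lf 11))) (.lf 5) (.tr (.lf 2) (.lf 6) (.tw (.lf 17) (.lf 18)))), 3, [2, 2, 13, 13, 6, 6, 13, 13], []⟩)))
    (.nd (.nd (.lf ⟨[.ofNat 0, .ofNat 13312, .negSucc 33535, .negSucc 3583, .ofNat 640], (.tr (.dx 3 (.tw (.lf 1) (.lf 11))) (.lf 5) (.tr (.lf 2) (.tw (.lf 6) (.lf 17)) (.lf 18))), 3, [2, 2, 13, 13, 6, 6, 13, 13], []⟩)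
    (.lf ⟨[.ofNat 0, .ofNat 0, .negSucc 1663, .ofNat 4800, .negSucc 159], (.tr (.lf 11) (.tr (.dx 3 (.lf 17)) (.lf 1) (.tr (.lf 5) (.lf 2) (.lf 6))) (.lf 18)), 3, [6, 6, 10, 10], [6, 6, 10, 10]⟩))
    (.nd (.lf ⟨[.ofNat 0, .ofNat 0, .negSucc 383, .ofNat 800], (.tr (.lf 2) (.tw (.dx 3 (.tr (.tw (.lf 1) (.lf 5)) (.lf 11) (.lf 17))) (.lf 18)) (.lf 6)), 3, [0, 0, 17, 17, 12, 12, 5, 5], []⟩)
    (.lf ⟨[.ofNat 0, .ofNat 0, .ofNat 384, .negSucc 1151], (.tr (.lf 2) (.tw (.dx 3 (.tr (.lf 11) (.tw (.lf 1) (.lf 5)) (.lf 17))) (.lf 18)) (.lf 6)), 3, [2, 2, 0, 0, 5, 5, 9, 9], []⟩))))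

/-- data -/
def dE16x1 : RT := (.nd (.nd (.nd (.lf ⟨[.ofNat 0, .ofNat 0, .ofNat 2368, .ofNat 2816, .ofNat 64], (.tw (.dx 0 (.tw (.lf 5) (.lf 13))) (.tr (.lf 6) (.tr (.lf 17) (.lf 14) (.lf 18)) (.lf 11))), 0, [0, 0, 0, 0, 0, 0, 0, 0], [12, 12, 14, 14]⟩)
    (.lf ⟨[.ofNat 0, .ofNat 0, .negSucc 1599, .ofNat 800], (.tw (.lf 11) (.tr (.lf 6) (.dx 0 (.tw (.lf 5) (.lf 13))) (.tr (.lf 17) (.lf 14) (.lf 18)))), 0, [10, 10, 10, 10, 5, 5, 5, 5], [22, 22, 17, 17]⟩))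
    (.nd (.lf ⟨[.ofNat 0, .ofNat 0, .negSucc 3263, .negSucc 3695, .negSucc 63], (.tw (.lf 11) (.tr (.lf 18) (.dx 3 (.tw (.lf 1) (.lf 17))) (.tr (.lf 5) (.lf 2) (.lf 6)))), 3, [5, 5, 5, 5, 10, 10, 10, 10], [5, 5, 10, 10]⟩)
    (.lf ⟨[.ofNat 0, .ofNat 0, .negSucc 3263, .negSucc 3695, .negSucc 63], (.tw (.dx 3 (.tw (.lf 1) (.lf 17))) (.tr (.lf 11) (.tr (.lf 5) (.lf 2) (.lf 6)) (.lf 18))), 3, [17, 17, 23, 23, 17, 17, 23, 23], [17, 17, 23, 23]⟩)))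
    (.nd (.nd (.lf ⟨[.ofNat 0, .ofNat 0, .ofNat 4864], (.tr (.dx 3 (.tr (.lf 1) (.tw (.lf 17) (.lf 18)) (.lf 5))) (.tw (.lf 2) (.lf 11)) (.lf 6)), 3, [9, 5, 9, 5, 9, 5, 9, 5], []⟩)
    (.lf ⟨[.ofNat 0, .ofNat 0, .negSucc 2431], (.tr (.dx 3 (.tr (.lf 1) (.lf 17) (.tw (.lf 5) (.lf 18)))) (.lf 11) (.tw (.lf 2) (.lf 6))), 3, [5, 1, 5, 1, 5, 1, 5, 1], []⟩))
    (.nd (.lf ⟨[.ofNat 0, .ofNat 0, .negSucc 2431], (.tw (.dx 3 (.tr (.lf 5) (.lf 1) (.tr (.lf 2) (.lf 11) (.tw (.lf 17) (.lf 18))))) (.lf 6)), 3, [9, 9, 5, 5, 5, 5, 5, 5], []⟩)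
    (.lf ⟨[.ofNat 0, .ofNat 1664, .negSucc 4799, .ofNat 160], (.tr (.dx 0 .on) (.tr (.lf 5) (.lf 9) (.tr (.lf 6) (.lf 10) (.tr (.lf 17) (.lf 13) (.lf 18)))) (.lf 14)), 0, [12, 12, 12, 12, 12, 12, 14, 14], [12, 12, 12, 12, 12, 12, 14, 14]⟩))))

/-- data -/
def dE16x2 : RT := (.nd (.nd (.nd (.lf ⟨[.ofNat 0, .negSucc 2015, .ofNat 424, .negSucc 15], (.tr (.dx 0 (.lf 5)) (.tr (.lf 13) (.lf 14) (.tr (.tw (.lf 9) (.lf 10)) (.lf 17) (.lf 18))) (.lf 6)), 0, [0, 0, 0, 0, 12, 12, 12, 12], [1017, 1017, 21, 21, 14, 14, 1017, 1017]⟩)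
    (.lf ⟨[.ofNat 0, .ofNat 5296, .ofNat 1780, .negSucc 55], (.tr (.lf 6) (.tr (.lf 13) (.tr (.dx 0 (.lf 5)) (.lf 9) (.tw (.lf 17) (.lf 18))) (.lf 14)) (.lf 10)), 0, [4, 4, 7, 7, 4, 4, 7, 7], [4, 4, 7, 7, 4, 4, 7, 7]⟩))
    (.nd (.lf ⟨[.ofNat 0, .negSucc 9855, .negSucc 4767, .ofNat 96], (.tr (.lf 6) (.dx 3 (.tw (.lf 1) (.tr (.lf 17) (.lf 18) (.tr (.lf 5) (.lf 2) (.lf 9))))) (.lf 10)), 3, [7, 11, 4, 4, 7, 7, 4, 8], []⟩)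
    (.lf ⟨[.ofNat 0, .ofNat 1360, .negSucc 99, .ofNat 8], (.tr (.lf 6) (.lf 13) (.tr (.lf 9) (.tr (.dx 0 (.lf 5)) (.lf 14) (.tw (.lf 17) (.lf 18))) (.lf 10))), 0, [8, 8, 7, 7, 8, 8, 7, 7], [8, 8, 7, 7, 8, 8, 7, 7]⟩)))
    (.nd (.nd (.lf ⟨[.ofNat 0, .ofNat 1200, .ofNat 2624, .ofNat 928], (.tr (.lf 13) (.lf 6) (.tr (.lf 17) (.tr (.dx 0 (.lf 5)) (.tw (.lf 9) (.lf 10)) (.lf 14)) (.lf 18))), 0, [4, 4, 13, 13, 4, 4, 13, 13], [4, 4, 15, 15, 4, 4, 15, 15]⟩)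
    (.lf ⟨[.ofNat 0, .negSucc 2415, .ofNat 792, .negSucc 647], (.tw (.dx 3 (.tr (.lf 1) (.lf 2) (.tr (.lf 5) (.lf 17) (.tr (.lf 9) (.lf 6) (.lf 10))))) (.lf 18)), 3, [0, 0, 2, 2, 8, 8, 10, 10], []⟩))
    (.nd (.lf ⟨[.ofNat 6656, .negSucc 2815, .ofNat 5008, .negSucc 3835], (.tw (.dx 3 (.tr (.lf 1) (.tr (.lf 2) (.tr (.lf 9) (.lf 5) (.lf 10)) (.lf 17)) (.lf 6))) (.lf 18)), 3, [2, 2, 2, 2, 4, 4, 8, 8], []⟩)
    (.lf ⟨[.ofNat 6656, .ofNat 2528, .ofNat 7856, .negSucc 3451], (.tw (.dx 3 (.tr (.lf 5) (.lf 1) (.tr (.lf 2) (.lf 17) (.tr (.lf 9) (.lf 6) (.lf 10))))) (.lf 18)), 3, [4, 4, 4, 4, 2, 2, 10, 10], []⟩))))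

/-- data -/
def dE16x3 : RT := (.nd (.nd (.nd (.lf ⟨[.negSucc 6655, .ofNat 2832, .negSucc 11047, .ofNat 2628], (.tw (.dx 3 (.tr (.lf 1) (.lf 17) (.tr (.lf 5) (.lf 6) (.tr (.lf 9) (.lf 2) (.lf 10))))) (.lf 18)), 3, [0, 0, 2, 2, 8, 8, 6, 6], []⟩)
    (.lf ⟨[.ofNat 0, .negSucc 6031, .negSucc 8839, .negSucc 2295], (.tr (.dx 3 (.tw (.lf 1) (.lf 17))) (.tr (.lf 5) (.lf 6) (.tr (.lf 9) (.lf 2) (.lf 10))) (.lf 18)), 3, [19, 19, 21, 21, 19, 19, 21, 21], [8, 8, 21, 21]⟩))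
    (.nd (.lf ⟨[.ofNat 0, .ofNat 6752, .ofNat 464, .negSucc 79], (.tr (.dx 3 (.tw (.lf 1) (.lf 17))) (.lf 5) (.tr (.lf 6) (.tr (.lf 9) (.lf 2) (.lf 10)) (.lf 18))), 3, [19, 19, 21, 21, 19, 19, 21, 21], [8, 8, 21, 21]⟩)
    (.lf ⟨[.ofNat 0, .ofNat 11904, .negSucc 3599, .ofNat 5816], (.tw (.lf 2) (.tr (.lf 18) (.dx 3 (.tr (.lf 1) (.lf 17) (.lf 5))) (.tr (.lf 9) (.lf 6) (.lf 10)))), 3, [11, 11, 11, 11, 2, 2, 2, 2], [11, 11, 2, 2]⟩)))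
    (.nd (.nd (.lf ⟨[.ofNat 0, .ofNat 96, .ofNat 640, .negSucc 5111], (.tw (.lf 18) (.tr (.dx 3 (.tr (.lf 1) (.lf 17) (.lf 5))) (.tr (.lf 9) (.lf 6) (.lf 10)) (.lf 2))), 3, [3, 3, 3, 3, 14, 14, 14, 14], [3, 3, 11, 11]⟩)
    (.lf ⟨[.ofNat 0, .ofNat 5440, .negSucc 1119, .ofNat 6136], (.tw (.dx 3 (.tr (.lf 1) (.lf 17) (.lf 5))) (.tr (.lf 18) (.lf 2) (.tr (.lf 9) (.lf 6) (.lf 10)))), 3, [23, 23, 15, 15, 23, 23, 15, 15], [23, 23, 10, 10]⟩))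
    (.nd (.lf ⟨[.ofNat 0, .ofNat 4096, .ofNat 1280, .negSucc 5895], (.tw (.lf 9) (.tr (.dx 3 (.tr (.lf 1) (.lf 17) (.lf 5))) (.lf 18) (.tr (.lf 2) (.lf 10) (.lf 6)))), 3, [21, 15, 21, 15, 18, 18, 22, 22], [21, 15, 18, 22]⟩)
    (.lf ⟨[.ofNat 0, .ofNat 4160, .negSucc 4447, .negSucc 783], (.tw (.dx 0 (.tr (.lf 5) (.lf 13) (.tr (.lf 17) (.tr (.lf 6) (.lf 14) (.lf 9)) (.lf 18)))) (.lf 10)), 0, [19, 19, 19, 19, 7, 7, 7, 7], []⟩))))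

/-- data -/
def dE16x4 : RT := (.nd (.nd (.nd (.lf ⟨[.ofNat 0, .negSucc 1023, .negSucc 2159, .ofNat 256], (.tr (.lf 6) (.tr (.lf 17) (.tr (.dx 0 (.lf 5)) (.lf 13) (.tw (.lf 9) (.lf 10))) (.lf 18)) (.lf 14)), 0, [16, 16, 20, 20, 16, 16, 20, 20], [16, 16, 20, 20, 16, 16, 20, 20]⟩)
    (.lf ⟨[.ofNat 0, .ofNat 2048, .ofNat 4320, .negSucc 511], (.tw (.dx 3 (.tr (.lf 1) (.lf 2) (.lf 17))) (.tr (.lf 5) (.lf 18) (.tr (.lf 9) (.lf 6) (.lf 10)))), 3, [23, 23, 21, 21, 23, 23, 21, 21], []⟩))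
    (.nd (.lf ⟨[.ofNat 0, .ofNat 3264, .ofNat 2128, .negSucc 575], (.tr (.dx 0 (.lf 5)) (.lf 13) (.tr (.lf 6) (.lf 17) (.tr (.lf 14) (.tw (.lf 9) (.lf 10)) (.lf 18)))), 0, [0, 0, 0, 0, 0, 0, 0, 0], [0, 0, 0, 0, 1017, 1017, 1017, 1017]⟩)
    (.lf ⟨[.ofNat 0, .negSucc 3263, .negSucc 2127, .ofNat 576], (.tr (.dx 0 (.lf 5)) (.lf 13) (.tr (.lf 14) (.lf 9) (.tr (.lf 6) (.tw (.lf 17) (.lf 18)) (.lf 10)))), 0, [0, 0, 0, 0, 0, 0, 0, 0], [23, 23, 1017, 1017, 0, 0, 2, 2]⟩)))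
    (.nd (.nd (.lf ⟨[.ofNat 0, .ofNat 0, .negSucc 2815, .ofNat 800], (.tr (.dx 0 .on) (.lf 13) (.tr (.lf 14) (.lf 5) (.tr (.lf 6) (.tw (.lf 17) (.lf 18)) (.lf 11)))), 0, [0, 0, 0, 0, 0, 0, 2, 2], [1023, 1023, 21, 21, 0, 0, 2, 2]⟩)
    (.lf ⟨[.ofNat 0, .ofNat 2048, .ofNat 4320, .negSucc 511], (.tr (.lf 6) (.lf 13) (.tr (.dx 0 (.lf 5)) (.tr (.tw (.lf 9) (.lf 10)) (.lf 14) (.lf 17)) (.lf 18))), 0, [4, 4, 4, 4, 13, 13, 1, 1], [4, 4, 4, 4, 1017, 1017, 3, 3]⟩))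
    (.nd (.lf ⟨[.ofNat 0, .ofNat 1664, .negSucc 4799, .ofNat 160], (.tr (.lf 9) (.tw (.lf 13) (.tr (.lf 17) (.lf 14) (.tr (.dx 0 (.lf 5)) (.lf 6) (.lf 18)))) (.lf 10)), 0, [23, 19, 6, 1017, 1017, 7, 18, 22], [23, 19, 6, 1017, 1017, 7, 18, 22]⟩)
    (.lf ⟨[.ofNat 0, .negSucc 735, .ofNat 1208, .ofNat 16], (.tr (.lf 9) (.lf 13) (.tr (.dx 0 (.lf 5)) (.tr (.lf 10) (.tw (.lf 17) (.lf 18)) (.lf 14)) (.lf 6))), 0, [6, 6, 21, 21, 1, 1, 13, 13], [6, 6, 21, 21, 10, 10, 15, 15]⟩))))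

/-- data -/
def dE16x5 : RT := (.nd (.nd (.nd (.lf ⟨[.ofNat 0, .negSucc 735, .ofNat 1208, .ofNat 16], (.tr (.lf 6) (.tw (.dx 0 (.tr (.lf 5) (.tr (.lf 13) (.lf 14) (.lf 17)) (.lf 9))) (.lf 18)) (.lf 10)), 0, [4, 16, 4, 16, 19, 7, 19, 7], []⟩)
    (.lf ⟨[.ofNat 0, .ofNat 864, .ofNat 6728, .negSucc 1039], (.tr (.dx 0 (.tr (.lf 13) (.lf 14) (.tr (.lf 17) (.tw (.lf 5) (.lf 9)) (.lf 18)))) (.lf 6) (.lf 10)), 0, [23, 23, 23, 23, 11, 11, 11, 11], []⟩))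
    (.nd (.lf ⟨[.ofNat 0, .negSucc 2207, .ofNat 1912, .ofNat 48], (.tr (.lf 13) (.tr (.dx 0 (.lf 5)) (.tr (.tw (.lf 9) (.lf 10)) (.lf 14) (.lf 17)) (.lf 6)) (.lf 18)), 0, [0, 0, 0, 0, 13, 13, 13, 13], [2, 2, 21, 21, 8, 8, 15, 15]⟩)
    (.lf ⟨[.ofNat 0, .negSucc 911, .ofNat 1216, .ofNat 472], (.tr (.lf 14) (.tw (.dx 0 (.tw (.lf 9) (.tr (.tw (.lf 5) (.lf 6)) (.lf 13) (.lf 17)))) (.lf 10)) (.lf 18)), 0, [2, 2, 19, 19, 19, 19, 19, 19, 6, 6, 6, 6, 6, 6, 15, 15], []⟩)))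
    (.nd (.nd (.lf ⟨[.ofNat 0, .negSucc 7743, .negSucc 17183, .negSucc 5439], (.tr (.lf 14) (.tw (.dx 0 (.tr (.lf 5) (.tr (.lf 6) (.lf 13) (.lf 17)) (.lf 9))) (.lf 10)) (.lf 18)), 0, [19, 19, 1023, 19, 6, 1023, 6, 6], []⟩)
    (.lf ⟨[.ofNat 0, .negSucc 831, .ofNat 64, .ofNat 304], (.tw (.lf 17) (.tr (.dx 3 (.tr (.lf 1) (.lf 2) (.lf 5))) (.lf 18) (.tr (.lf 9) (.lf 6) (.lf 10)))), 3, [23, 23, 23, 23, 22, 1, 22, 1], []⟩))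
    (.nd (.lf ⟨[.ofNat 0, .ofNat 0, .ofNat 768, .negSucc 1951], (.tr (.lf 13) (.tr (.dx 0 .on) (.tr (.tw (.lf 5) (.lf 6)) (.lf 14) (.lf 17)) (.lf 11)) (.lf 18)), 0, [0, 0, 0, 0, 13, 13, 13, 13], [0, 0, 23, 23, 10, 10, 13, 13]⟩)
    (.lf ⟨[.ofNat 0, .ofNat 2048, .ofNat 4320, .negSucc 511], (.tr (.lf 13) (.lf 17) (.tr (.dx 0 (.lf 5)) (.tr (.lf 14) (.tw (.lf 9) (.lf 10)) (.lf 18)) (.lf 6))), 0, [21, 21, 9, 9, 13, 13, 1, 1], [21, 21, 9, 9, 15, 15, 3, 3]⟩))))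

/-- data -/
def dE16x6 : RT := (.nd (.nd (.nd (.lf ⟨[.ofNat 0, .negSucc 2047, .negSucc 4319, .ofNat 512], (.tr (.dx 3 (.tr (.lf 1) (.lf 2) (.tr (.lf 17) (.lf 5) (.lf 18)))) (.lf 9) (.tw (.lf 6) (.lf 10))), 3, [11, 9, 11, 9, 11, 9, 11, 9], []⟩)
    (.lf ⟨[.ofNat 0, .ofNat 0, .negSucc 799, .negSucc 1111], (.tr (.lf 13) (.lf 17) (.tr (.lf 11) (.lf 14) (.tr (.dx 0 .on) (.lf 18) (.tw (.lf 5) (.lf 6))))), 0, [17, 17, 13, 13, 11, 11, 7, 7], [17, 17, 13, 13, 11, 11, 7, 7]⟩))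
    (.nd (.lf ⟨[.ofNat 0, .ofNat 1664, .negSucc 2463, .negSucc 223], (.tr (.lf 17) (.lf 13) (.tr (.lf 9) (.tr (.tw (.dx 0 (.lf 5)) (.lf 6)) (.lf 14) (.lf 18)) (.lf 10))), 0, [23, 19, 11, 7, 23, 19, 11, 7], [23, 19, 11, 7, 23, 19, 11, 7]⟩)
    (.lf ⟨[.ofNat 0, .ofNat 0, .negSucc 6655, .ofNat 9856, .ofNat 896], (.tr (.dx 3 (.tw (.lf 1) (.lf 17))) (.lf 18) (.tr (.lf 2) (.lf 7) (.lf 11))), 3, [23, 13, 23, 13], [23, 13]⟩)))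
    (.nd (.nd (.lf ⟨[.ofNat 0, .ofNat 0, .ofNat 0, .ofNat 1152, .negSucc 383], (.tw (.dx 3 (.tw (.lf 1) (.lf 17))) (.tr (.tw (.lf 7) (.lf 11)) (.lf 2) (.lf 18))), 3, [15, 13, 23, 21, 15, 13, 23, 21], [1017, 1023, 23, 21]⟩)
    (.lf ⟨[.ofNat 0, .ofNat 0, .negSucc 1567, .negSucc 6647, .negSucc 111], (.tw (.dx 3 (.tr (.lf 5) (.lf 1) (.lf 9))) (.tr (.lf 2) (.tw (.lf 6) (.lf 10)) (.lf 19))), 3, [4, 4, 15, 13, 6, 6, 15, 13], [1023, 1017, 15, 13]⟩))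
    (.nd (.lf ⟨[.ofNat 3328, .negSucc 8383, .negSucc 959, .ofNat 80], (.tr (.lf 17) (.lf 14) (.tr (.dx 0 (.lf 13)) (.lf 18) (.tr (.tw (.lf 5) (.lf 6)) (.lf 9) (.lf 10)))), 0, [23, 23, 21, 21, 3, 3, 1, 1], [23, 23, 21, 21, 15, 15, 13, 13]⟩)
    (.lf ⟨[.negSucc 3327, .ofNat 8000, .ofNat 1744, .negSucc 159], (.tr (.lf 2) (.lf 17) (.tr (.lf 18) (.dx 3 (.lf 1)) (.tr (.tw (.lf 5) (.lf 6)) (.lf 9) (.lf 10)))), 3, [11, 11, 9, 9, 12, 12, 14, 14], [11, 11, 9, 9, 12, 12, 14, 14]⟩))))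

/-- data -/
def dE16x7 : RT := (.nd (.nd (.nd (.lf ⟨[.ofNat 0, .ofNat 0, .ofNat 1536, .negSucc 3999, .ofNat 320], (.tr (.lf 11) (.lf 13) (.tr (.lf 14) (.lf 19) (.tr (.dx 0 .on) (.lf 5) (.lf 6)))), 0, [17, 13, 6, 10], [17, 13, 6, 10]⟩)
    (.lf ⟨[.ofNat 0, .negSucc 6655, .ofNat 16768, .ofNat 1920, .negSucc 159], (.tr (.lf 13) (.lf 19) (.tr (.lf 11) (.lf 14) (.tr (.dx 0 .on) (.lf 5) (.lf 6)))), 0, [5, 1, 11, 7], [5, 1, 11, 7]⟩))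
    (.nd (.lf ⟨[.ofNat 0, .ofNat 13312, .negSucc 33535, .negSucc 3839, .ofNat 320], (.tr (.lf 13) (.lf 19) (.tr (.lf 5) (.tr (.lf 6) (.dx 0 .on) (.lf 14)) (.lf 11))), 0, [7, 11, 5, 5], [7, 11, 5, 5]⟩)
    (.lf ⟨[.negSucc 6655, .ofNat 16768, .ofNat 1920, .negSucc 159], (.tr (.lf 17) (.lf 14) (.tr (.dx 0 (.lf 13)) (.tr (.lf 5) (.tw (.lf 9) (.lf 10)) (.lf 18)) (.lf 6))), 0, [21, 21, 21, 21, 3, 3, 1, 1], [21, 21, 21, 21, 15, 15, 13, 13]⟩)))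
    (.nd (.nd (.lf ⟨[.ofNat 0, .ofNat 13312, .negSucc 8831, .negSucc 6559], (.tr (.lf 17) (.dx 3 (.lf 1)) (.tr (.lf 5) (.lf 18) (.tr (.lf 2) (.lf 6) (.lf 11)))), 3, [23, 13, 21, 17], [23, 13, 21, 17]⟩)
    (.lf ⟨[.ofNat 0, .negSucc 3455, .ofNat 1408], (.tr (.dx 0 (.tr (.lf 5) (.lf 9) (.lf 13))) (.lf 6) (.tr (.lf 10) (.tw (.lf 17) (.lf 18)) (.lf 14))), 0, [0, 0, 0, 0, 2, 2, 2, 2], [12, 12, 0, 0]⟩))
    (.nd (.lf ⟨[.ofNat 0, .negSucc 1727, .ofNat 704], (.tr (.lf 17) (.dx 3 .on) (.tr (.lf 1) (.tr (.lf 9) (.tr (.lf 2) (.lf 18) (.lf 5)) (.lf 10)) (.lf 6))), 3, [21, 21, 21, 21, 15, 15, 15, 15], [21, 21, 21, 21, 15, 15, 15, 15]⟩)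
    (.lf ⟨[.ofNat 0, .negSucc 3455, .ofNat 1408], (.tr (.dx 3 (.tr (.lf 17) (.lf 18) (.tr (.lf 1) (.lf 5) (.lf 2)))) (.lf 9) (.tw (.lf 6) (.lf 10))), 3, [11, 9, 11, 9, 11, 9, 11, 9], []⟩))))

/-- data -/
def dE16x8 : RT := (.nd (.nd (.nd (.lf ⟨[.ofNat 0, .negSucc 6015, .negSucc 159, .negSucc 63], (.tr (.dx 0 (.tr (.lf 9) (.lf 5) (.lf 13))) (.lf 6) (.tr (.lf 10) (.tw (.lf 17) (.lf 18)) (.lf 14))), 0, [2, 2, 2, 2, 0, 0, 0, 0], [12, 12, 0, 0]⟩)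
    (.lf ⟨[.ofNat 0, .ofNat 4032, .negSucc 847, .ofNat 32], (.tr (.dx 0 (.tr (.lf 9) (.lf 5) (.lf 13))) (.tr (.lf 6) (.lf 10) (.tw (.lf 17) (.lf 18))) (.lf 14)), 0, [2, 2, 2, 2, 0, 0, 0, 0], [12, 12, 14, 14]⟩))
    (.nd (.lf ⟨[.ofNat 0, .negSucc 4031, .ofNat 848, .negSucc 31], (.tr (.lf 14) (.lf 6) (.tr (.dx 0 (.tr (.lf 9) (.lf 5) (.lf 13))) (.tw (.lf 17) (.lf 18)) (.lf 10))), 0, [19, 19, 19, 19, 1, 3, 1, 3], [19, 19, 15, 15]⟩)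
    (.lf ⟨[.ofNat 0, .ofNat 5440, .negSucc 399, .ofNat 32], (.tr (.lf 6) (.tr (.lf 10) (.dx 0 (.tr (.lf 5) (.lf 9) (.lf 13))) (.tw (.lf 17) (.lf 18))) (.lf 14)), 0, [8, 8, 8, 8, 16, 16, 16, 16], [20, 20, 16, 16]⟩)))
    (.nd (.nd (.lf ⟨[.ofNat 0, .ofNat 2432, .ofNat 1424, .negSucc 79], (.tr (.tw (.lf 6) (.lf 10)) (.dx 0 (.tw (.lf 17) (.tr (.lf 5) (.tw (.lf 13) (.lf 14)) (.lf 9)))) (.lf 18)), 0, [20, 20, 20, 20, 8, 8, 8, 8, 22, 22, 22, 22, 10, 10, 10, 10], []⟩)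
    (.lf ⟨[.ofNat 0, .ofNat 1728, .ofNat 1200, .negSucc 79], (.tr (.dx 3 (.tw (.lf 1) (.tr (.lf 5) (.tw (.lf 17) (.lf 18)) (.lf 9)))) (.lf 2) (.tw (.lf 6) (.lf 10))), 3, [11, 9, 11, 9, 11, 9, 11, 9, 11, 9, 11, 9, 11, 9, 11, 9], []⟩))
    (.nd (.lf ⟨[.ofNat 0, .ofNat 1920, .negSucc 1327], (.tr (.dx 3 (.tr (.lf 1) (.lf 17) (.lf 18))) (.lf 5) (.tr (.lf 9) (.tw (.lf 2) (.lf 6)) (.lf 10))), 3, [11, 7, 11, 7, 11, 7, 11, 7], []⟩)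
    (.lf ⟨[.ofNat 0, .negSucc 2719, .ofNat 200, .negSucc 15], (.tr (.dx 3 (.tr (.lf 1) (.lf 17) (.lf 18))) (.tr (.lf 9) (.tw (.lf 2) (.lf 5)) (.lf 10)) (.lf 6)), 3, [9, 9, 9, 9, 9, 9, 9, 9], []⟩))))

/-- data -/
def dE16x9 : RT := (.nd (.nd (.nd (.lf ⟨[.ofNat 0, .ofNat 2720, .negSucc 199, .ofNat 16], (.tw (.dx 3 (.tr (.lf 1) (.lf 17) (.lf 18))) (.tr (.lf 5) (.lf 2) (.tr (.lf 9) (.lf 6) (.lf 10)))), 3, [11, 11, 5, 5, 11, 11, 5, 5], []⟩)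
    (.lf ⟨[.ofNat 0, .ofNat 4640, .negSucc 1527, .ofNat 16], (.tr (.lf 17) (.lf 13) (.tr (.dx 0 (.tw (.lf 5) (.lf 9))) (.tr (.lf 6) (.lf 18) (.lf 10)) (.lf 14))), 0, [11, 9, 11, 9, 15, 13, 15, 13], [11, 9, 15, 13]⟩))
    (.nd (.lf ⟨[.ofNat 0, .ofNat 1280, .negSucc 9039, .negSucc 1679], (.tr (.lf 10) (.dx 0 (.tr (.lf 5) (.lf 9) (.tr (.lf 6) (.lf 17) (.tw (.lf 13) (.lf 14))))) (.lf 18)), 0, [18, 18, 6, 6, 18, 18, 6, 6], []⟩)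
    (.lf ⟨[.ofNat 0, .ofNat 14016, .negSucc 4591, .negSucc 1375], (.tr (.dx 3 (.tr (.lf 17) (.lf 18) (.tr (.lf 5) (.lf 1) (.lf 9)))) (.lf 2) (.tw (.lf 6) (.lf 10))), 3, [11, 9, 11, 9, 11, 9, 11, 9], []⟩)))
    (.nd (.nd (.lf ⟨[.ofNat 0, .negSucc 5439, .ofNat 400, .negSucc 31], (.tr (.dx 3 (.tr (.lf 17) (.lf 18) (.tr (.lf 1) (.lf 9) (.lf 5)))) (.tw (.lf 2) (.lf 6)) (.lf 10)), 3, [11, 7, 11, 7, 11, 7, 11, 7], []⟩)
    (.lf ⟨[.ofNat 0, .ofNat 5440, .negSucc 399, .ofNat 32], (.tr (.lf 13) (.lf 9) (.tr (.dx 0 (.lf 5)) (.tr (.lf 10) (.tw (.lf 17) (.lf 18)) (.lf 14)) (.lf 6))), 0, [9, 9, 21, 21, 1, 1, 13, 13], [9, 9, 21, 21, 3, 3, 15, 15]⟩))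
    (.nd (.lf ⟨[.ofNat 0, .ofNat 800, .ofNat 1128, .ofNat 16], (.tr (.dx 0 (.tw (.lf 5) (.lf 9))) (.tr (.lf 6) (.tr (.lf 13) (.lf 17) (.lf 18)) (.lf 10)) (.lf 14)), 0, [0, 12, 0, 12, 2, 14, 2, 14], [0, 12, 2, 14]⟩)
    (.lf ⟨[.ofNat 0, .negSucc 1983, .negSucc 1007, .negSucc 31], (.tr (.lf 17) (.lf 13) (.tr (.lf 14) (.dx 0 (.tw (.lf 5) (.lf 9))) (.tr (.lf 6) (.lf 18) (.lf 10)))), 0, [23, 21, 23, 21, 3, 1, 3, 1], [23, 21, 3, 1]⟩))))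

/-- data -/
def dE16x10 : RT := (.nd (.nd (.nd (.lf ⟨[.negSucc 13311, .ofNat 1744, .negSucc 5599, .ofNat 7744], (.tr (.lf 13) (.dx 0 (.tw (.lf 5) (.lf 9))) (.tr (.lf 17) (.lf 14) (.tr (.lf 6) (.lf 18) (.lf 10)))), 0, [23, 21, 0, 0, 23, 21, 2, 2], [23, 21, 0, 2]⟩)
    (.lf ⟨[.ofNat 0, .negSucc 5119, .ofNat 5760, .ofNat 2592], (.tr (.lf 6) (.lf 13) (.tr (.lf 10) (.lf 17) (.tr (.lf 14) (.dx 0 (.tw (.lf 5) (.lf 9))) (.lf 18)))), 0, [8, 8, 8, 8, 1015, 1015, 1015, 1015], [8, 8, 1015, 1015]⟩))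
    (.nd (.lf ⟨[.ofNat 0, .ofNat 2560, .negSucc 2879, .negSucc 1295], (.tw (.dx 3 (.tr (.lf 1) (.tr (.lf 17) (.lf 18) (.tr (.lf 2) (.lf 9) (.lf 5))) (.lf 6))) (.lf 10)), 3, [11, 11, 11, 11, 7, 7, 7, 7], []⟩)
    (.lf ⟨[.ofNat 0, .negSucc 1983, .negSucc 1007, .negSucc 31], (.tw (.dx 3 (.tr (.lf 17) (.lf 18) (.tr (.lf 1) (.lf 9) (.tr (.lf 5) (.lf 2) (.lf 6))))) (.lf 10)), 3, [11, 11, 7, 7, 11, 11, 7, 7], []⟩)))
    (.nd (.nd (.lf ⟨[.ofNat 0, .negSucc 7895, .ofNat 1776, .negSucc 1511], (.tw (.dx 3 (.tr (.lf 1) (.lf 9) (.tr (.lf 17) (.lf 18) (.tr (.lf 5) (.lf 2) (.lf 6))))) (.lf 10)), 3, [11, 11, 11, 11, 7, 7, 7, 7], []⟩)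
    (.lf ⟨[.ofNat 0, .ofNat 9880, .negSucc 767, .ofNat 1544], (.tw (.dx 3 (.tr (.lf 1) (.tr (.lf 9) (.tr (.lf 5) (.lf 2) (.lf 6)) (.lf 17)) (.lf 18))) (.lf 10)), 3, [11, 11, 11, 11, 7, 7, 7, 7], []⟩))
    (.nd (.lf ⟨[.ofNat 0, .ofNat 10584, .negSucc 1663, .ofNat 792], (.tw (.dx 3 (.tr (.lf 1) (.lf 17) (.tr (.lf 18) (.lf 9) (.tr (.lf 5) (.lf 2) (.lf 6))))) (.lf 10)), 3, [11, 11, 11, 11, 7, 7, 7, 7], []⟩)
    (.lf ⟨[.ofNat 0, .negSucc 31983, .ofNat 7968, .negSucc 3079], (.tw (.dx 3 (.tr (.lf 17) (.lf 9) (.tr (.lf 1) (.lf 18) (.tr (.lf 5) (.lf 2) (.lf 6))))) (.lf 10)), 3, [11, 11, 7, 7, 11, 11, 7, 7], []⟩))))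

/-- data -/
def dE16x11 : RT := (.nd (.nd (.nd (.lf ⟨[.ofNat 0, .ofNat 0, .negSucc 319, .ofNat 880], (.tr (.lf 13) (.lf 11) (.tr (.lf 17) (.lf 18) (.tr (.dx 0 (.lf 5)) (.lf 14) (.lf 6)))), 0, [5, 1, 6, 10], [5, 1, 6, 10]⟩)
    (.lf ⟨[.ofNat 0, .ofNat 0, .negSucc 4799, .negSucc 2815, .negSucc 63], (.tr (.lf 13) (.tr (.lf 11) (.tr (.dx 0 (.lf 5)) (.lf 17) (.lf 6)) (.lf 14)) (.lf 18)), 0, [6, 10, 23, 19], [6, 10, 23, 19]⟩))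
    (.nd (.lf ⟨[.ofNat 0, .ofNat 0, .ofNat 8960, .ofNat 7392, .ofNat 128], (.tr (.lf 13) (.tr (.lf 14) (.lf 6) (.tr (.lf 11) (.dx 0 (.lf 5)) (.lf 17))) (.lf 18)), 0, [13, 19, 6, 0], [1017, 19, 6, 1017]⟩)
    (.lf ⟨[.ofNat 0, .ofNat 0, .negSucc 6655, .ofNat 10624, .negSucc 703], (.tr (.lf 13) (.tr (.lf 14) (.dx 0 .on) (.tr (.lf 7) (.lf 11) (.lf 17))) (.lf 18)), 0, [0, 21, 8, 13], [1023, 21, 8, 1023]⟩)))
    (.nd (.nd (.lf ⟨[.ofNat 0, .ofNat 0, .ofNat 0, .negSucc 383, .ofNat 800], (.tr (.lf 13) (.tw (.lf 14) (.tr (.dx 0 .on) (.tw (.lf 7) (.lf 11)) (.lf 17))) (.lf 18)), 0, [0, 2, 15, 13, 0, 2, 15, 13], [1023, 1017, 15, 13, 0, 2, 1017, 1023]⟩)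
    (.lf ⟨[.ofNat 0, .ofNat 0, .ofNat 3584, .ofNat 2816, .ofNat 64], (.tr (.lf 14) (.lf 11) (.tr (.dx 0 (.tw (.lf 5) (.lf 13))) (.lf 6) (.tw (.lf 17) (.lf 18)))), 0, [6, 6, 6, 6, 1, 1, 1, 1], [6, 6, 13, 13]⟩))
    (.nd (.lf ⟨[.ofNat 0, .ofNat 128, .ofNat 0, .ofNat 832], (.tr (.lf 9) (.lf 13) (.tr (.lf 14) (.dx 0 (.lf 5)) (.tr (.lf 6) (.tw (.lf 17) (.lf 18)) (.lf 10)))), 0, [1017, 1017, 21, 21, 10, 10, 10, 10], [1017, 1017, 6, 6, 10, 10, 10, 10]⟩)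
    (.lf ⟨[.ofNat 0, .ofNat 0, .ofNat 0, .negSucc 5631, .ofNat 1600], (.tr (.lf 1) (.lf 17) (.tr (.lf 18) (.lf 7) (.tr (.lf 2) (.dx 3 .on) (.lf 11)))), 3, [12, 1015, 14, 14], [7, 3, 14, 14]⟩))))

/-- data -/
def dE16x12 : RT := (.nd (.nd (.nd (.lf ⟨[.ofNat 0, .ofNat 3328, .negSucc 7231, .ofNat 320], (.tr (.lf 9) (.lf 13) (.tr (.lf 10) (.tr (.tw (.dx 0 (.lf 5)) (.lf 6)) (.lf 17) (.lf 18)) (.lf 14))), 0, [6, 10, 6, 10, 1017, 1017, 23, 19], [6, 10, 6, 10, 1017, 1017, 23, 19]⟩)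
    (.lf ⟨[.ofNat 0, .ofNat 0, .ofNat 1152, .negSucc 383], (.tr (.lf 9) (.lf 13) (.tr (.lf 14) (.lf 17) (.tr (.lf 10) (.tw (.dx 0 (.lf 5)) (.lf 6)) (.lf 18)))), 0, [6, 10, 23, 19, 6, 10, 6, 10], [6, 10, 23, 19, 6, 10, 6, 10]⟩))
    (.nd (.lf ⟨[.ofNat 0, .negSucc 1663, .ofNat 4800, .negSucc 159], (.tr (.lf 9) (.lf 6) (.tr (.dx 0 (.lf 5)) (.lf 13) (.tr (.lf 10) (.tw (.lf 17) (.lf 18)) (.lf 14)))), 0, [10, 10, 10, 10, 1023, 1023, 1, 1], [10, 10, 10, 10, 22, 22, 10, 10]⟩)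
    (.lf ⟨[.ofNat 0, .ofNat 3200, .negSucc 4927, .negSucc 1279], (.tw (.lf 2) (.tr (.dx 3 (.tr (.lf 1) (.lf 17) (.lf 18))) (.lf 5) (.tr (.lf 9) (.lf 6) (.lf 10)))), 3, [11, 11, 11, 11, 2, 2, 2, 2], []⟩)))
    (.nd (.nd (.lf ⟨[.ofNat 0, .ofNat 3392, .ofNat 2128, .ofNat 256], (.tr (.dx 0 (.lf 5)) (.tr (.lf 6) (.tr (.lf 9) (.tw (.lf 17) (.lf 18)) (.lf 13)) (.lf 14)) (.lf 10)), 0, [12, 12, 0, 0, 0, 0, 1023, 1023], [12, 12, 0, 0, 11, 11, 23, 23]⟩)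
    (.lf ⟨[.ofNat 0, .negSucc 3391, .negSucc 2127, .negSucc 255], (.tr (.dx 0 (.lf 5)) (.tr (.lf 13) (.lf 14) (.tr (.lf 6) (.lf 9) (.tw (.lf 17) (.lf 18)))) (.lf 10)), 0, [0, 0, 1023, 1023, 12, 12, 12, 12], [23, 23, 23, 23, 12, 12, 11, 11]⟩))
    (.nd (.lf ⟨[.ofNat 0, .negSucc 6591, .ofNat 2800, .ofNat 1024], (.tr (.dx 0 (.lf 5)) (.tr (.lf 13) (.lf 9) (.tr (.lf 6) (.lf 14) (.tw (.lf 17) (.lf 18)))) (.lf 10)), 0, [0, 0, 0, 0, 0, 0, 12, 12], [2, 2, 11, 11, 0, 0, 11, 11]⟩)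
    (.lf ⟨[.ofNat 0, .ofNat 3328, .negSucc 6079, .negSucc 63], (.tr (.lf 17) (.lf 13) (.tr (.lf 9) (.tr (.tw (.dx 0 (.lf 5)) (.lf 6)) (.lf 10) (.lf 18)) (.lf 14))), 0, [1017, 1017, 5, 1, 23, 19, 23, 19], [1017, 1017, 5, 1, 23, 19, 23, 19]⟩))))

/-- data -/
def dE16x13 : RT := (.nd (.nd (.nd (.lf ⟨[.ofNat 0, .negSucc 1215, .negSucc 2607, .negSucc 31], (.tr (.lf 6) (.tr (.dx 0 (.tr (.lf 9) (.lf 5) (.lf 13))) (.tw (.lf 17) (.lf 18)) (.lf 10)) (.lf 14)), 0, [4, 4, 4, 4, 20, 20, 20, 20], [16, 16, 20, 20]⟩)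
    (.lf ⟨[.ofNat 0, .negSucc 1407, .ofNat 448], (.tr (.lf 6) (.dx 0 (.tr (.lf 9) (.lf 5) (.lf 13))) (.tr (.lf 14) (.lf 10) (.tw (.lf 17) (.lf 18)))), 0, [4, 4, 4, 4, 4, 4, 4, 4], [4, 4, 16, 16]⟩))
    (.nd (.lf ⟨[.ofNat 0, .negSucc 1215, .negSucc 2607, .negSucc 31], (.tw (.lf 9) (.tr (.dx 0 (.tr (.lf 5) (.lf 13) (.lf 14))) (.lf 10) (.tr (.lf 17) (.lf 6) (.lf 18)))), 0, [6, 6, 6, 6, 22, 1, 22, 1], []⟩)
    (.lf ⟨[.ofNat 0, .negSucc 10671, .ofNat 8992, .ofNat 2608], (.tr (.dx 3 (.tr (.lf 1) (.lf 5) (.lf 9))) (.tr (.lf 6) (.tw (.lf 17) (.lf 18)) (.lf 10)) (.lf 2)), 3, [15, 15, 13, 13, 15, 15, 13, 13], [15, 15, 13, 13]⟩)))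
    (.nd (.nd (.lf ⟨[.ofNat 0, .ofNat 19248, .negSucc 8703, .negSucc 3839], (.tr (.lf 2) (.lf 6) (.tr (.dx 3 (.tr (.lf 1) (.lf 9) (.lf 5))) (.lf 10) (.tw (.lf 17) (.lf 18)))), 3, [0, 0, 0, 0, 12, 12, 12, 12], [0, 0, 12, 12]⟩)
    (.lf ⟨[.ofNat 0, .ofNat 11888, .negSucc 6383, .negSucc 2575], (.tr (.lf 2) (.lf 6) (.tr (.dx 3 (.tr (.lf 1) (.lf 5) (.lf 9))) (.lf 10) (.tw (.lf 17) (.lf 18)))), 3, [0, 0, 0, 0, 12, 12, 12, 12], [0, 0, 12, 12]⟩))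
    (.nd (.lf ⟨[.ofNat 0, .negSucc 17839, .ofNat 8256, .ofNat 3840], (.tr (.lf 17) (.lf 18) (.tr (.lf 2) (.dx 3 (.tr (.lf 5) (.lf 1) (.lf 9))) (.tw (.lf 6) (.lf 10)))), 3, [11, 9, 11, 9, 3, 1, 3, 1], [11, 9, 3, 1]⟩)
    (.lf ⟨[.ofNat 0, .negSucc 9855, .negSucc 4767, .ofNat 96], (.tr (.lf 17) (.lf 18) (.tr (.dx 0 (.tw (.lf 5) (.lf 13))) (.tr (.lf 9) (.lf 14) (.lf 10)) (.lf 6))), 0, [9, 9, 9, 9, 1, 1, 1, 1], [9, 9, 3, 3]⟩))))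

/-- data -/
def dE16x14 : RT := (.nd (.nd (.nd (.lf ⟨[.ofNat 0, .ofNat 8448, .ofNat 5216, .negSucc 95], (.tr (.lf 6) (.tr (.lf 17) (.dx 0 (.tw (.lf 5) (.lf 13))) (.tr (.lf 9) (.lf 14) (.lf 10))) (.lf 18)), 0, [16, 16, 16, 16, 8, 8, 8, 8], [16, 16, 8, 8]⟩)
    (.lf ⟨[.ofNat 13312, .negSucc 4463, .negSucc 25007, .negSucc 6991], (.tr (.lf 6) (.lf 17) (.tr (.dx 0 (.tw (.lf 5) (.lf 13))) (.tr (.lf 9) (.lf 14) (.lf 10)) (.lf 18))), 0, [16, 16, 16, 16, 1, 1, 1, 1], [16, 16, 3, 3]⟩))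
    (.nd (.lf ⟨[.ofNat 0, .negSucc 703, .ofNat 224], (.tr (.lf 10) (.dx 0 (.tw (.lf 5) (.tr (.lf 13) (.tw (.lf 6) (.lf 9)) (.lf 14)))) (.tw (.lf 17) (.lf 18))), 0, [6, 6, 6, 6, 6, 6, 6, 6, 6, 6, 6, 6, 6, 6, 6, 6], []⟩)
    (.lf ⟨[.ofNat 0, .ofNat 10560, .ofNat 1392, .negSucc 2559], (.tr (.lf 2) (.dx 3 (.tr (.lf 5) (.lf 1) (.lf 9))) (.tr (.tw (.lf 6) (.lf 10)) (.lf 17) (.lf 18))), 3, [0, 0, 23, 21, 2, 2, 23, 21], [0, 2, 23, 21]⟩)))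
    (.nd (.nd (.lf ⟨[.ofNat 0, .ofNat 896, .ofNat 5632, .ofNat 2496], (.tr (.dx 0 (.tr (.lf 5) (.lf 13) (.lf 9))) (.lf 14) (.tr (.tw (.lf 6) (.lf 10)) (.lf 17) (.lf 18))), 0, [0, 0, 0, 0, 2, 2, 2, 2], [0, 2, 23, 21]⟩)
    (.lf ⟨[.ofNat 0, .negSucc 9855, .negSucc 4767, .ofNat 96], (.tr (.lf 6) (.lf 14) (.tr (.dx 0 (.tr (.lf 5) (.lf 9) (.lf 13))) (.lf 10) (.tw (.lf 17) (.lf 18)))), 0, [4, 4, 4, 4, 3, 1, 3, 1], [4, 4, 15, 15]⟩))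
    (.nd (.lf ⟨[.ofNat 0, .ofNat 17136, .negSucc 4879, .negSucc 1375], (.tr (.lf 2) (.tr (.dx 3 (.tr (.lf 5) (.lf 1) (.lf 9))) (.tw (.lf 6) (.lf 10)) (.lf 17)) (.lf 18)), 3, [0, 0, 2, 2, 12, 12, 14, 14], [0, 2, 12, 14]⟩)
    (.lf ⟨[.ofNat 0, .ofNat 2208, .ofNat 896, .ofNat 240], (.tw (.dx 3 (.tr (.lf 1) (.tw (.lf 9) (.tr (.lf 17) (.tw (.lf 2) (.lf 5)) (.lf 18))) (.lf 6))) (.lf 10)), 3, [11, 11, 11, 11, 11, 11, 11, 11, 7, 7, 7, 7, 7, 7, 7, 7], []⟩))))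

/-- data -/
def dE16x15 : RT := (.nd (.nd (.nd (.lf ⟨[.ofNat 13312, .negSucc 431, .negSucc 21583, .negSucc 7567], (.tw (.dx 3 (.tr (.lf 1) (.lf 9) (.tr (.lf 17) (.lf 2) (.tr (.lf 5) (.lf 18) (.lf 6))))) (.lf 10)), 3, [11, 11, 7, 7, 7, 7, 7, 7], []⟩)
    (.lf ⟨[.negSucc 13311, .ofNat 432, .ofNat 21584, .ofNat 7568], (.tw (.dx 3 (.tr (.lf 1) (.tr (.lf 2) (.tr (.lf 5) (.lf 17) (.lf 6)) (.lf 9)) (.lf 18))) (.lf 10)), 3, [11, 11, 7, 7, 7, 7, 7, 7], []⟩))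
    (.nd (.lf ⟨[.ofNat 6656, .negSucc 11839, .negSucc 20047, .negSucc 6543], (.tw (.dx 3 (.tr (.lf 1) (.lf 2) (.tr (.lf 17) (.lf 9) (.tr (.lf 5) (.lf 18) (.lf 6))))) (.lf 10)), 3, [11, 11, 11, 11, 7, 7, 7, 7], []⟩)
    (.lf ⟨[.ofNat 0, .negSucc 4415, .negSucc 1791, .negSucc 479], (.tw (.dx 3 (.tr (.lf 1) (.lf 17) (.tr (.lf 5) (.tr (.lf 2) (.lf 18) (.lf 9)) (.lf 6)))) (.lf 10)), 3, [11, 11, 11, 11, 7, 7, 7, 7], []⟩)))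
    (.nd (.nd (.lf ⟨[.ofNat 6656, .ofNat 11408, .negSucc 1535, .negSucc 1023], (.tw (.dx 3 (.tr (.lf 17) (.lf 9) (.tr (.lf 1) (.lf 2) (.tr (.lf 5) (.lf 18) (.lf 6))))) (.lf 10)), 3, [11, 11, 7, 7, 11, 11, 7, 7], []⟩)
    (.lf ⟨[.ofNat 0, .ofNat 832, .negSucc 1903, .negSucc 31], (.tr (.lf 17) (.dx 3 (.tw (.lf 1) (.lf 5))) (.tr (.lf 9) (.lf 18) (.tr (.lf 2) (.lf 10) (.lf 6)))), 3, [21, 15, 23, 19, 21, 15, 23, 19], [21, 15, 23, 19]⟩))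
    (.nd (.lf ⟨[.ofNat 0, .ofNat 1984, .ofNat 1008, .ofNat 32], (.tr (.lf 9) (.lf 17) (.tr (.lf 18) (.dx 3 (.tw (.lf 1) (.lf 5))) (.tr (.lf 2) (.lf 10) (.lf 6)))), 3, [9, 3, 9, 3, 18, 18, 22, 22], [9, 3, 18, 22]⟩)
    (.lf ⟨[.ofNat 0, .negSucc 2815, .ofNat 896], (.tr (.lf 9) (.tr (.dx 3 (.tw (.lf 1) (.lf 5))) (.tr (.lf 2) (.lf 10) (.lf 6)) (.lf 17)) (.lf 18)), 3, [6, 6, 10, 10, 18, 18, 22, 22], [6, 10, 18, 22]⟩))))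

/-- data -/
def dE16x16 : RT := (.nd (.nd (.nd (.lf ⟨[.ofNat 0, .ofNat 1408, .negSucc 447], (.tr (.lf 17) (.lf 18) (.tr (.lf 9) (.dx 3 (.tw (.lf 1) (.lf 5))) (.tr (.lf 2) (.lf 10) (.lf 6)))), 3, [9, 3, 9, 3, 11, 7, 11, 7], [9, 3, 11, 7]⟩)
    (.lf ⟨[.ofNat 0, .ofNat 1408, .negSucc 447], (.tr (.dx 0 (.tr (.lf 5) (.lf 13) (.tr (.lf 9) (.lf 6) (.lf 14)))) (.lf 10) (.tw (.lf 17) (.lf 18))), 0, [0, 0, 0, 0, 2, 2, 0, 0], []⟩))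
    (.nd (.lf ⟨[.ofNat 0, .ofNat 832, .negSucc 1903, .negSucc 31], (.tr (.dx 3 (.tr (.lf 17) (.lf 1) (.tr (.lf 5) (.lf 18) (.lf 9)))) (.lf 2) (.tw (.lf 6) (.lf 10))), 3, [11, 9, 11, 9, 11, 9, 11, 9], []⟩)
    (.lf ⟨[.negSucc 13311, .negSucc 24063, .ofNat 22816, .ofNat 9472], (.tr (.dx 0 (.tw (.lf 5) (.lf 13))) (.lf 17) (.tr (.lf 6) (.tr (.lf 9) (.lf 14) (.lf 10)) (.lf 18))), 0, [0, 0, 0, 0, 0, 0, 9, 9], [12, 12, 9, 9]⟩)))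
    (.nd (.nd (.lf ⟨[.ofNat 0, .ofNat 7744, .negSucc 2559, .negSucc 1151], (.tr (.lf 2) (.dx 3 (.tr (.lf 5) (.tr (.lf 1) (.lf 17) (.lf 18)) (.lf 9))) (.tw (.lf 6) (.lf 10))), 3, [11, 9, 11, 9, 11, 9, 11, 9], []⟩)
    (.lf ⟨[.ofNat 0, .negSucc 3871, .ofNat 1280, .ofNat 576], (.tr (.lf 2) (.tw (.dx 3 (.tw (.lf 5) (.tr (.lf 1) (.tw (.lf 17) (.lf 18)) (.lf 9)))) (.lf 6)) (.lf 10)), 3, [11, 11, 11, 11, 11, 11, 11, 11, 0, 0, 0, 0, 0, 0, 0, 0], []⟩))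
    (.nd (.lf ⟨[.ofNat 0, .negSucc 11887, .ofNat 6384, .ofNat 2576], (.tr (.lf 6) (.tr (.dx 0 (.tw (.lf 5) (.lf 13))) (.tr (.lf 9) (.lf 14) (.lf 10)) (.lf 17)) (.lf 18)), 0, [4, 4, 4, 4, 20, 20, 20, 20], [4, 4, 20, 20]⟩)
    (.lf ⟨[.ofNat 0, .ofNat 1728, .ofNat 384, .negSucc 31], (.tr (.lf 17) (.dx 0 (.tw (.lf 5) (.lf 13))) (.tr (.lf 6) (.lf 18) (.tr (.lf 9) (.lf 14) (.lf 10)))), 0, [11, 11, 21, 21, 11, 11, 21, 21], [11, 11, 21, 21]⟩))))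

/-- data -/
def dE16x17 : RT := (.nd (.nd (.nd (.lf ⟨[.ofNat 0, .negSucc 9855, .negSucc 4767, .ofNat 96], (.tr (.lf 6) (.lf 17) (.tr (.lf 18) (.dx 0 (.tw (.lf 5) (.lf 13))) (.tr (.lf 9) (.lf 14) (.lf 10)))), 0, [7, 7, 7, 7, 20, 20, 20, 20], [7, 7, 20, 20]⟩)
    (.lf ⟨[.ofNat 0, .negSucc 6079, .ofNat 5136, .negSucc 911], (.tr (.dx 0 (.tr (.lf 5) (.lf 9) (.lf 13))) (.tr (.lf 17) (.tw (.lf 6) (.lf 10)) (.lf 18)) (.lf 14)), 0, [0, 0, 0, 0, 2, 2, 2, 2], [12, 14, 12, 14]⟩))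
    (.nd (.lf ⟨[.ofNat 0, .ofNat 0, .ofNat 640, .negSucc 447], (.tw (.lf 17) (.tr (.lf 6) (.tr (.lf 14) (.dx 0 (.tr (.lf 5) (.lf 13) (.lf 9))) (.lf 18)) (.lf 10))), 0, [19, 19, 7, 7, 17, 17, 5, 5], [19, 7, 17, 5]⟩)
    (.lf ⟨[.ofNat 0, .negSucc 39919, .ofNat 5744, .ofNat 10264], (.tw (.lf 6) (.tr (.lf 14) (.dx 0 (.tr (.lf 5) (.lf 13) (.lf 9))) (.tr (.lf 17) (.lf 10) (.lf 18)))), 0, [4, 4, 4, 4, 20, 20, 20, 20], [4, 4, 20, 20]⟩)))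
    (.nd (.nd (.lf ⟨[.ofNat 6656, .ofNat 50144, .negSucc 9439, .negSucc 12567], (.tw (.lf 14) (.tr (.dx 0 (.tr (.lf 5) (.lf 13) (.lf 9))) (.tr (.lf 17) (.lf 10) (.lf 18)) (.lf 6))), 0, [21, 21, 21, 21, 3, 1, 3, 1], [21, 21, 15, 15]⟩)
    (.lf ⟨[.ofNat 0, .ofNat 0, .ofNat 192, .negSucc 399], (.tw (.lf 17) (.tr (.lf 2) (.tr (.dx 3 (.tw (.lf 1) (.lf 5))) (.lf 11) (.lf 18)) (.lf 6))), 3, [21, 21, 5, 5, 15, 15, 1, 1], [21, 9, 15, 3]⟩))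
    (.nd (.lf ⟨[.ofNat 0, .ofNat 36464, .negSucc 6063, .negSucc 9815], (.tr (.dx 0 (.tw (.lf 5) (.lf 13))) (.lf 14) (.tr (.lf 9) (.lf 6) (.tr (.lf 17) (.lf 10) (.lf 18)))), 0, [0, 0, 1023, 1023, 0, 0, 23, 23], [2, 2, 23, 23]⟩)
    (.lf ⟨[.ofNat 0, .negSucc 3167, .negSucc 16239, .ofNat 4984], (.tr (.dx 0 (.tw (.lf 5) (.lf 13))) (.tr (.lf 6) (.tr (.lf 17) (.lf 9) (.lf 18)) (.lf 14)) (.lf 10)), 0, [0, 0, 1023, 1023, 0, 0, 23, 23], [12, 12, 23, 23]⟩))))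

/-- data -/
def dE16x18 : RT := (.nd (.nd (.nd (.lf ⟨[.ofNat 0, .ofNat 3456, .ofNat 7664, .negSucc 1039], (.tr (.dx 0 (.tw (.lf 5) (.lf 13))) (.lf 6) (.tr (.lf 9) (.lf 14) (.tr (.lf 17) (.lf 10) (.lf 18)))), 0, [0, 0, 0, 0, 0, 0, 0, 0], [0, 0, 12, 12]⟩)
    (.lf ⟨[.ofNat 0, .ofNat 1664, .negSucc 1215, .negSucc 159], (.tr (.lf 9) (.lf 6) (.tr (.dx 0 (.tw (.lf 5) (.lf 13))) (.lf 14) (.tr (.lf 17) (.lf 10) (.lf 18)))), 0, [10, 10, 10, 10, 22, 1023, 22, 1023], [10, 10, 22, 22]⟩))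
    (.nd (.lf ⟨[.ofNat 0, .negSucc 1663, .ofNat 1216, .ofNat 160], (.tr (.lf 9) (.dx 0 (.tw (.lf 5) (.lf 13))) (.tr (.lf 6) (.lf 14) (.tr (.lf 17) (.lf 10) (.lf 18)))), 0, [6, 6, 6, 6, 6, 6, 6, 6], [6, 6, 18, 18]⟩)
    (.lf ⟨[.ofNat 0, .negSucc 43439, .ofNat 6000, .ofNat 10072], (.tr (.lf 6) (.lf 14) (.tr (.lf 9) (.dx 0 (.tw (.lf 5) (.lf 13))) (.tr (.lf 17) (.lf 10) (.lf 18)))), 0, [8, 8, 8, 8, 7, 7, 7, 7], [8, 8, 19, 19]⟩)))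
    (.nd (.nd (.lf ⟨[.ofNat 0, .negSucc 6207, .negSucc 12143, .ofNat 1264], (.tr (.lf 6) (.dx 3 (.tr (.tw (.lf 1) (.lf 5)) (.lf 2) (.lf 9))) (.tr (.lf 17) (.lf 10) (.lf 18))), 3, [4, 4, 4, 4, 8, 8, 8, 8], []⟩)
    (.lf ⟨[.ofNat 0, .ofNat 3456, .negSucc 319], (.tr (.dx 0 (.tw (.lf 5) (.lf 13))) (.lf 14) (.tw (.lf 17) (.tr (.lf 9) (.tw (.lf 6) (.lf 18)) (.lf 10)))), 0, [0, 1023, 0, 1023, 0, 0, 0, 0, 1023, 23, 1023, 23, 0, 0, 0, 0], [23, 23, 23, 23, 2, 2, 2, 2]⟩))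
    (.nd (.lf ⟨[.ofNat 0, .ofNat 0, .negSucc 3327, .ofNat 4992, .negSucc 319], (.tr (.lf 11) (.tr (.lf 5) (.tr (.dx 0 .on) (.lf 13) (.lf 6)) (.lf 19)) (.lf 14)), 0, [10, 10, 18, 22], [10, 10, 18, 22]⟩)
    (.lf ⟨[.ofNat 0, .ofNat 0, .negSucc 191, .negSucc 1775, .ofNat 160], (.tr (.lf 11) (.tw (.lf 19) (.tr (.dx 0 .on) (.lf 13) (.tw (.lf 5) (.lf 6)))) (.lf 14)), 0, [18, 18, 22, 22, 6, 6, 10, 10], [18, 18, 22, 22, 6, 6, 10, 10]⟩))))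

/-- data -/
def dE16x19 : RT := (.nd (.nd (.nd (.lf ⟨[.ofNat 0, .ofNat 1664, .negSucc 2495, .ofNat 160], (.tr (.dx 0 (.lf 13)) (.tr (.lf 5) (.tr (.lf 6) (.lf 17) (.tw (.lf 9) (.lf 10))) (.lf 14)) (.lf 18)), 0, [0, 0, 0, 0, 0, 0, 2, 2], [12, 12, 12, 12, 0, 0, 2, 2]⟩)
    (.lf ⟨[.ofNat 0, .ofNat 0, .ofNat 4096, .ofNat 2112, .negSucc 319], (.tr (.lf 11) (.lf 5) (.tr (.lf 13) (.lf 19) (.tr (.dx 0 .on) (.lf 14) (.lf 6)))), 0, [10, 1, 10, 10], [10, 10, 10, 10]⟩))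
    (.nd (.lf ⟨[.ofNat 0, .negSucc 2047, .negSucc 1055, .ofNat 160], (.tr (.dx 0 (.lf 13)) (.lf 5) (.tr (.lf 17) (.lf 14) (.tr (.lf 6) (.lf 18) (.tw (.lf 9) (.lf 10))))), 0, [23, 23, 0, 0, 0, 0, 0, 0], [23, 23, 12, 12, 12, 12, 12, 12]⟩)
    (.lf ⟨[.ofNat 0, .ofNat 2048, .ofNat 1056, .negSucc 159], (.tr (.lf 2) (.dx 3 (.tr (.lf 1) (.lf 5) (.lf 17))) (.tr (.lf 6) (.lf 18) (.tw (.lf 9) (.lf 10)))), 3, [23, 23, 0, 0, 23, 23, 21, 21], [23, 23, 1017, 1017]⟩)))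
    (.nd (.nd (.lf ⟨[.ofNat 0, .ofNat 0, .ofNat 4864], (.tr (.lf 11) (.tr (.dx 3 (.lf 1)) (.lf 5) (.tr (.lf 6) (.lf 2) (.lf 17))) (.lf 18)), 3, [6, 6, 22, 18], [10, 10, 22, 18]⟩)
    (.lf ⟨[.ofNat 0, .negSucc 26623, .ofNat 66304, .ofNat 8256, .negSucc 959], (.tr (.lf 11) (.lf 17) (.tr (.lf 2) (.lf 5) (.tr (.lf 6) (.dx 3 (.lf 1)) (.lf 18)))), 3, [18, 18, 13, 1], [18, 18, 13, 1]⟩))
    (.nd (.lf ⟨[.ofNat 0, .ofNat 16416, .ofNat 784, .ofNat 3080], (.tr (.dx 0 (.tw (.lf 13) (.lf 17))) (.tr (.lf 5) (.lf 18) (.tr (.lf 9) (.lf 6) (.lf 10))) (.lf 14)), 0, [0, 0, 2, 2, 12, 12, 14, 14], [12, 12, 14, 14]⟩)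
    (.lf ⟨[.ofNat 0, .ofNat 17752, .negSucc 1311, .ofNat 1696], (.tr (.lf 2) (.tr (.lf 5) (.dx 3 (.tw (.lf 1) (.lf 17))) (.tr (.lf 9) (.lf 6) (.lf 10))) (.lf 18)), 3, [0, 0, 0, 0, 2, 2, 2, 2], [0, 0, 2, 2]⟩))))

/-- data -/
def dE16x20 : RT := (.nd (.nd (.nd (.lf ⟨[.ofNat 0, .ofNat 3304, .ofNat 4544, .ofNat 1976], (.tr (.lf 6) (.tw (.dx 0 (.tw (.lf 9) (.tr (.lf 13) (.tw (.lf 5) (.lf 17)) (.lf 14)))) (.lf 10)) (.lf 18)), 0, [4, 4, 4, 4, 4, 4, 4, 4, 8, 8, 8, 8, 8, 8, 8, 8], []⟩)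
    (.lf ⟨[.ofNat 0, .negSucc 16415, .negSucc 783, .negSucc 3079], (.tr (.lf 2) (.lf 5) (.tr (.dx 3 (.tw (.lf 1) (.lf 17))) (.tr (.lf 9) (.lf 6) (.lf 10)) (.lf 18))), 3, [0, 0, 0, 0, 12, 12, 12, 12], [0, 0, 12, 12]⟩))
    (.nd (.lf ⟨[.ofNat 0, .negSucc 527, .ofNat 6256, .ofNat 424], (.tr (.lf 18) (.lf 5) (.tr (.dx 3 (.tw (.lf 1) (.lf 17))) (.tr (.lf 9) (.lf 6) (.lf 10)) (.lf 2))), 3, [3, 3, 3, 3, 16, 16, 16, 16], [3, 3, 11, 11]⟩)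
    (.lf ⟨[.ofNat 0, .negSucc 13775, .negSucc 8079, .negSucc 4623], (.tr (.tw (.dx 0 (.tw (.lf 5) (.tr (.lf 13) (.tw (.lf 9) (.lf 17)) (.lf 14)))) (.lf 18)) (.lf 6) (.lf 10)), 0, [1023, 23, 1023, 23, 23, 23, 23, 23, 11, 11, 11, 11, 11, 11, 11, 11], []⟩)))
    (.nd (.nd (.lf ⟨[.ofNat 0, .ofNat 6080, .negSucc 5135, .ofNat 912], (.tw (.dx 0 (.tr (.lf 9) (.lf 5) (.lf 13))) (.tr (.lf 17) (.tr (.lf 6) (.lf 10) (.lf 14)) (.lf 18))), 0, [2, 2, 2, 2, 0, 0, 0, 0], [12, 14, 12, 14]⟩)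
    (.lf ⟨[.ofNat 0, .ofNat 9824, .ofNat 10304, .ofNat 2616], (.tr (.dx 0 (.tr (.lf 5) (.lf 13) (.lf 9))) (.lf 17) (.tr (.lf 14) (.tw (.lf 6) (.lf 10)) (.lf 18))), 0, [0, 0, 0, 0, 2, 2, 2, 2], [12, 14, 12, 14]⟩))
    (.nd (.lf ⟨[.ofNat 0, .ofNat 3824, .negSucc 36487, .ofNat 4200], (.tr (.dx 3 (.tr (.lf 1) (.tr (.lf 2) (.tw (.lf 17) (.lf 18)) (.lf 9)) (.lf 5))) (.lf 6) (.lf 10)), 3, [11, 11, 11, 11, 11, 11, 11, 11], []⟩)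
    (.lf ⟨[.ofNat 0, .ofNat 1536, .ofNat 22152, .negSucc 7751], (.tr (.dx 3 (.tr (.lf 1) (.lf 2) (.tr (.lf 5) (.lf 9) (.tw (.lf 17) (.lf 18))))) (.lf 6) (.lf 10)), 3, [11, 11, 11, 11, 11, 11, 11, 11], []⟩))))

/-- data -/
def dE16x21 : RT := (.nd (.nd (.nd (.lf ⟨[.ofNat 0, .negSucc 3071, .ofNat 6880, .negSucc 287], (.tr (.lf 6) (.dx 0 (.tr (.lf 5) (.lf 13) (.lf 17))) (.tr (.lf 14) (.tw (.lf 9) (.lf 10)) (.lf 18))), 0, [4, 4, 4, 4, 16, 16, 16, 16], [4, 4, 16, 16]⟩)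
    (.lf ⟨[.ofNat 0, .ofNat 2048, .ofNat 928, .ofNat 576], (.tr (.dx 0 (.tr (.lf 5) (.lf 13) (.lf 17))) (.lf 6) (.tr (.lf 14) (.tw (.lf 9) (.lf 10)) (.lf 18))), 0, [0, 0, 0, 0, 12, 12, 12, 12], [0, 0, 12, 12]⟩))
    (.nd (.lf ⟨[.ofNat 0, .negSucc 3583, .negSucc 2815, .negSucc 63], (.tr (.lf 6) (.tr (.dx 0 (.tr (.lf 5) (.lf 13) (.lf 17))) (.lf 18) (.tw (.lf 9) (.lf 10))) (.lf 14)), 0, [4, 4, 16, 16, 20, 20, 20, 20], [16, 16, 20, 20]⟩)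
    (.lf ⟨[.ofNat 0, .ofNat 6208, .ofNat 2752, .ofNat 64], (.tr (.lf 14) (.dx 0 (.tr (.lf 5) (.lf 13) (.lf 17))) (.tr (.lf 6) (.tw (.lf 9) (.lf 10)) (.lf 18))), 0, [23, 23, 21, 21, 23, 23, 21, 21], [23, 23, 21, 21]⟩)))
    (.nd (.nd (.lf ⟨[.ofNat 0, .negSucc 175, .ofNat 6088, .ofNat 2232], (.tr (.lf 14) (.tr (.dx 0 (.tr (.lf 5) (.lf 13) (.lf 17))) (.lf 6) (.tw (.lf 9) (.lf 10))) (.lf 18)), 0, [23, 23, 23, 23, 10, 10, 10, 10], [23, 23, 10, 10]⟩)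
    (.lf ⟨[.ofNat 0, .ofNat 24768, .negSucc 2879, .negSucc 1543], (.tr (.lf 14) (.tr (.lf 6) (.dx 0 (.tr (.lf 5) (.lf 13) (.lf 17))) (.tw (.lf 9) (.lf 10))) (.lf 18)), 0, [19, 19, 19, 19, 6, 6, 6, 6], [19, 19, 6, 6]⟩))
    (.nd (.lf ⟨[.ofNat 0, .negSucc 29295, .ofNat 6008, .ofNat 2064], (.tr (.dx 3 (.tr (.lf 1) (.lf 5) (.lf 17))) (.tr (.lf 2) (.lf 6) (.tw (.lf 9) (.lf 10))) (.lf 18)), 3, [23, 23, 13, 13, 23, 23, 13, 13], [23, 23, 10, 10]⟩)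
    (.lf ⟨[.ofNat 0, .negSucc 5759, .negSucc 5087, .negSucc 1775], (.tr (.dx 3 (.tr (.lf 5) (.lf 1) (.lf 17))) (.tr (.lf 2) (.lf 6) (.tw (.lf 9) (.lf 10))) (.lf 18)), 3, [23, 23, 13, 13, 23, 23, 13, 13], [23, 23, 10, 10]⟩))))

/-- data -/
def dE16x22 : RT := (.nd (.nd (.nd (.lf ⟨[.ofNat 0, .negSucc 1215, .ofNat 2192, .ofNat 64], (.tr (.lf 18) (.lf 2) (.tr (.dx 3 (.tr (.lf 5) (.lf 1) (.lf 17))) (.tw (.lf 9) (.lf 10)) (.lf 6))), 3, [9, 9, 9, 9, 12, 12, 12, 12], [9, 9, 11, 11]⟩)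
    (.lf ⟨[.ofNat 0, .ofNat 1216, .negSucc 2191, .negSucc 63], (.tr (.lf 2) (.tr (.lf 6) (.dx 3 (.tr (.lf 1) (.lf 5) (.lf 17))) (.tw (.lf 9) (.lf 10))) (.lf 18)), 3, [0, 0, 0, 0, 2, 2, 2, 2], [0, 0, 2, 2]⟩))
    (.nd (.lf ⟨[.ofNat 0, .ofNat 1920, .negSucc 1327], (.tw (.dx 3 (.tr (.lf 1) (.tr (.lf 2) (.lf 5) (.tr (.lf 9) (.lf 17) (.lf 10))) (.lf 6))) (.lf 18)), 3, [0, 0, 2, 2, 4, 4, 8, 8], []⟩)
    (.lf ⟨[.ofNat 0, .negSucc 19455, .negSucc 12191, .negSucc 3551], (.tr (.dx 3 (.tr (.lf 5) (.lf 9) (.tr (.lf 1) (.lf 2) (.lf 17)))) (.tw (.lf 6) (.lf 10)) (.lf 18)), 3, [8, 8, 1015, 1013, 2, 2, 23, 21], []⟩)))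
    (.nd (.nd (.lf ⟨[.ofNat 0, .ofNat 0, .ofNat 2432], (.tr (.lf 14) (.dx 0 (.tw (.lf 13) (.lf 17))) (.tr (.lf 11) (.tw (.lf 5) (.lf 6)) (.lf 18))), 0, [21, 21, 23, 23, 21, 21, 23, 23], [21, 21, 23, 23]⟩)
    (.lf ⟨[.ofNat 0, .ofNat 0, .negSucc 2431], (.tr (.lf 11) (.tr (.dx 0 (.tw (.lf 13) (.lf 17))) (.lf 18) (.tw (.lf 5) (.lf 6))) (.lf 14)), 0, [6, 6, 18, 18, 22, 22, 22, 22], [18, 18, 22, 22]⟩))
    (.nd (.lf ⟨[.ofNat 0, .negSucc 1919, .ofNat 1328], (.tr (.lf 17) (.lf 13) (.tw (.lf 14) (.tr (.dx 0 (.lf 5)) (.tr (.lf 9) (.lf 18) (.lf 10)) (.lf 6)))), 0, [21, 21, 13, 13, 9, 9, 1, 1], [21, 21, 15, 15, 9, 9, 3, 3]⟩)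
    (.lf ⟨[.ofNat 0, .ofNat 192, .negSucc 399], (.tr (.dx 0 (.tr (.lf 13) (.lf 5) (.lf 17))) (.tr (.lf 6) (.lf 18) (.tw (.lf 9) (.lf 10))) (.lf 14)), 0, [0, 0, 0, 0, 12, 12, 12, 12], [12, 12, 14, 14]⟩))))

/-- data -/
def dE16x23 : RT := (.nd (.nd (.nd (.lf ⟨[.ofNat 0, .negSucc 191, .ofNat 400], (.tr (.lf 14) (.lf 6) (.tr (.dx 0 (.tr (.lf 13) (.lf 5) (.lf 17))) (.tw (.lf 9) (.lf 10)) (.lf 18))), 0, [19, 19, 19, 19, 13, 1, 13, 1], [19, 19, 15, 15]⟩)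
    (.lf ⟨[.ofNat 6656, .negSucc 20479, .negSucc 16671, .negSucc 7007], (.tr (.dx 3 (.tr (.lf 1) (.lf 2) (.tr (.lf 5) (.lf 17) (.lf 9)))) (.tw (.lf 6) (.lf 10)) (.lf 18)), 3, [0, 0, 2, 2, 23, 21, 23, 21], []⟩))
    (.nd (.lf ⟨[.negSucc 26623, .ofNat 44160, .ofNat 82176, .ofNat 26496], (.tr (.dx 3 (.tr (.lf 1) (.tr (.lf 2) (.lf 17) (.lf 5)) (.lf 9))) (.lf 6) (.tw (.lf 10) (.lf 18))), 3, [0, 23, 1023, 23, 1017, 23, 1013, 23], []⟩)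
    (.lf ⟨[.ofNat 0, .negSucc 1663, .ofNat 768], (.tr (.dx 3 (.tr (.lf 9) (.lf 5) (.tr (.lf 1) (.lf 2) (.lf 17)))) (.lf 6) (.tw (.lf 10) (.lf 18))), 3, [10, 23, 1013, 23, 0, 23, 23, 23], []⟩)))
    (.nd (.nd (.lf ⟨[.ofNat 0, .ofNat 16832, .negSucc 6943, .ofNat 4160], (.tr (.dx 3 (.tr (.lf 1) (.lf 5) (.tr (.lf 9) (.lf 2) (.lf 17)))) (.lf 6) (.tw (.lf 10) (.lf 18))), 3, [0, 23, 1023, 23, 1017, 23, 23, 23], []⟩)
    (.lf ⟨[.ofNat 0, .ofNat 5552, .ofNat 3952, .ofNat 584], (.tr (.lf 14) (.tr (.lf 6) (.dx 0 (.tr (.tw (.lf 5) (.lf 9)) (.lf 13) (.lf 17))) (.lf 10)) (.lf 18)), 0, [4, 4, 19, 19, 6, 6, 17, 17], [1015, 1015]⟩))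
    (.nd (.lf ⟨[.ofNat 0, .ofNat 416, .negSucc 1039, .ofNat 40], (.tw (.lf 14) (.tr (.dx 0 (.tr (.lf 5) (.lf 13) (.lf 17))) (.tr (.lf 9) (.lf 6) (.lf 10)) (.lf 18))), 0, [23, 23, 23, 23, 13, 1, 13, 1], [23, 23, 15, 15]⟩)
    (.lf ⟨[.ofNat 0, .negSucc 415, .ofNat 1040, .negSucc 39], (.tw (.dx 0 (.tr (.lf 5) (.lf 13) (.lf 17))) (.tr (.lf 14) (.lf 18) (.tr (.lf 9) (.lf 6) (.lf 10)))), 0, [23, 23, 0, 0, 23, 23, 12, 12], [23, 23, 14, 14]⟩))))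

/-- data -/
def dE16x24 : RT := (.nd (.nd (.nd (.lf ⟨[.ofNat 0, .negSucc 1887, .ofNat 8704, .ofNat 3328], (.tr (.lf 14) (.tr (.tw (.dx 0 (.tr (.lf 5) (.lf 13) (.lf 17))) (.lf 9)) (.lf 6) (.lf 10)) (.lf 18)), 0, [23, 23, 1017, 23, 10, 1017, 10, 10], [23, 1017, 1017, 10]⟩)
    (.lf ⟨[.ofNat 0, .negSucc 11407, .ofNat 2624, .negSucc 1247], (.tr (.lf 17) (.lf 9) (.tr (.dx 3 (.tw (.lf 1) (.lf 5))) (.lf 18) (.tr (.lf 2) (.lf 10) (.lf 6)))), 3, [21, 15, 21, 15, 18, 18, 22, 22], [21, 15, 18, 22]⟩))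
    (.nd (.lf ⟨[.ofNat 0, .ofNat 15616, .negSucc 2895, .negSucc 1455], (.tr (.dx 3 (.tw (.lf 1) (.lf 5))) (.lf 17) (.tr (.lf 2) (.tr (.lf 9) (.lf 6) (.lf 10)) (.lf 18))), 3, [23, 23, 15, 15, 23, 23, 15, 15], [23, 23, 15, 15]⟩)
    (.lf ⟨[.ofNat 0, .negSucc 1599, .negSucc 1695, .ofNat 80], (.tr (.dx 3 (.tw (.lf 1) (.lf 5))) (.tr (.lf 17) (.lf 18) (.tr (.lf 9) (.lf 6) (.lf 10))) (.lf 2)), 3, [15, 15, 15, 15, 15, 15, 15, 15], [15, 15, 15, 15]⟩)))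
    (.nd (.nd (.lf ⟨[.ofNat 0, .ofNat 3392, .ofNat 1008, .ofNat 32], (.tr (.dx 3 (.tw (.lf 1) (.lf 5))) (.lf 9) (.tr (.lf 2) (.tr (.lf 10) (.lf 17) (.lf 18)) (.lf 6))), 3, [21, 21, 15, 15, 21, 21, 15, 15], [21, 21, 15, 15]⟩)
    (.lf ⟨[.ofNat 0, .negSucc 1871, .negSucc 1295, .negSucc 783], (.tw (.dx 3 (.tr (.tw (.lf 1) (.lf 5)) (.lf 2) (.lf 9))) (.tr (.lf 17) (.tw (.lf 6) (.lf 10)) (.lf 18))), 3, [0, 0, 0, 0, 4, 4, 4, 4, 6, 6, 6, 6, 6, 6, 6, 6], []⟩))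
    (.nd (.lf ⟨[.ofNat 0, .negSucc 575, .ofNat 1616, .negSucc 95], (.tr (.dx 3 (.tw (.lf 1) (.lf 5))) (.lf 17) (.tr (.lf 18) (.lf 2) (.tr (.lf 9) (.lf 6) (.lf 10)))), 3, [23, 23, 15, 15, 23, 23, 15, 15], [23, 23, 15, 15]⟩)
    (.lf ⟨[.ofNat 0, .negSucc 4863, .negSucc 1215, .ofNat 64], (.tr (.dx 3 (.tw (.lf 1) (.lf 5))) (.tr (.lf 17) (.lf 18) (.tr (.lf 2) (.lf 9) (.lf 6))) (.lf 10)), 3, [23, 19, 23, 19, 23, 19, 23, 19], [23, 19, 23, 19]⟩))))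

/-- data -/
def dE16 : RT := (.nd (.nd (.nd (.nd dE16x0 (.nd dE16x1 dE16x2)) (.nd dE16x3 (.nd dE16x4 dE16x5))) (.nd (.nd dE16x6 (.nd dE16x7 dE16x8)) (.nd dE16x9 (.nd dE16x10 dE16x11)))) (.nd (.nd (.nd dE16x12 (.nd dE16x13 dE16x14)) (.nd dE16x15 (.nd dE16x16 dE16x17))) (.nd (.nd dE16x18 (.nd dE16x19 dE16x20)) (.nd (.nd dE16x21 dE16x22) (.nd dE16x23 dE16x24)))))

/-- data -/
def lE16x0 : List (ℕ × List ℤ) := [(5349, [.ofNat 0, .ofNat 0, .ofNat 0, .negSucc 32895, .ofNat 17440, .ofNat 1600]),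
  (39083, [.ofNat 0, .ofNat 0, .ofNat 8192, .ofNat 4224, .negSucc 639]),
  (41701, [.ofNat 0, .ofNat 0, .ofNat 38144, .ofNat 640, .ofNat 960]),
  (41771, [.ofNat 0, .ofNat 0, .negSucc 49279, .ofNat 31616, .negSucc 8639, .ofNat 256]),
  (42269, [.ofNat 0, .ofNat 0, .ofNat 10496, .negSucc 255]),
  (42661, [.ofNat 0, .ofNat 0, .negSucc 47999, .ofNat 11840, .negSucc 2815]),
  (42794, [.ofNat 0, .ofNat 0, .ofNat 16384, .ofNat 5120, .negSucc 23583]),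
  (42796, [.ofNat 0, .ofNat 0, .ofNat 0, .negSucc 6399, .ofNat 3200]),
  (43229, [.ofNat 0, .ofNat 0, .negSucc 18431, .negSucc 13823]),
  (43245, [.ofNat 0, .ofNat 0, .negSucc 47551, .ofNat 25536, .ofNat 10304]),
  (43293, [.ofNat 0, .ofNat 0, .ofNat 23808, .ofNat 6848, .ofNat 6208, .ofNat 256]),
  (43307, [.ofNat 0, .ofNat 0, .ofNat 6400, .ofNat 9024, .ofNat 128]),
  (43363, [.ofNat 0, .ofNat 0, .ofNat 0, .ofNat 12544, .ofNat 25728, .ofNat 512]),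
  (43371, [.ofNat 0, .ofNat 0, .ofNat 37888, .negSucc 4991, .ofNat 256]),
  (50405, [.ofNat 0, .ofNat 0, .negSucc 48639, .ofNat 41088, .negSucc 7295]),
  (50412, [.ofNat 0, .ofNat 0, .ofNat 92864, .negSucc 40063, .negSucc 1855]),
  (50413, [.ofNat 0, .ofNat 0, .negSucc 3583, .negSucc 22527, .negSucc 9983]),
  (50461, [.ofNat 0, .ofNat 53248, .ofNat 241472, .negSucc 52543, .negSucc 59487]),
  (50524, [.ofNat 0, .ofNat 0, .ofNat 0, .ofNat 3328, .negSucc 3391]),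
  (50525, [.ofNat 0, .ofNat 0, .ofNat 159680, .negSucc 26303, .negSucc 37663]),
  (51357, [.ofNat 0, .ofNat 0, .ofNat 44928, .ofNat 43008, .ofNat 10464]),
  (51868, [.ofNat 0, .ofNat 0, .ofNat 63616, .ofNat 20672, .ofNat 14112]),
  (135837, [.ofNat 0, .ofNat 0, .ofNat 28928, .ofNat 13568]),
  (136285, [.ofNat 0, .ofNat 0, .negSucc 20479, .negSucc 15295, .negSucc 18719, .negSucc 255]),
  (136429, [.ofNat 0, .ofNat 0, .ofNat 0, .negSucc 14335, .negSucc 11263, .negSucc 255]),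
  (305388, [.ofNat 0, .ofNat 0, .negSucc 6655, .ofNat 16768, .ofNat 1920, .negSucc 159]),
  (305515, [.ofNat 0, .ofNat 0, .ofNat 0, .ofNat 1536, .negSucc 3999, .ofNat 320]),
  (333605, [.ofNat 0, .ofNat 0, .negSucc 21759, .ofNat 1600, .negSucc 127]),
  (338156, [.ofNat 0, .ofNat 0, .ofNat 6656, .negSucc 17151, .negSucc 5471, .ofNat 480]),
  (338283, [.ofNat 0, .ofNat 0, .ofNat 26624, .negSucc 64767, .negSucc 12255, .ofNat 1280]),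
  (341221, [.ofNat 0, .ofNat 0, .ofNat 0, .ofNat 3328, .negSucc 9599, .ofNat 320]),
  (341261, [.ofNat 0, .ofNat 0, .ofNat 27008, .ofNat 1856, .negSucc 319]),
  (341277, [.ofNat 0, .ofNat 0, .negSucc 3231, .negSucc 16639, .ofNat 3840]),
  (341285, [.ofNat 0, .ofNat 0, .ofNat 56064, .negSucc 18367, .negSucc 5503]),
  (342188, [.ofNat 0, .ofNat 0, .ofNat 16640, .ofNat 12352, .negSucc 16511, .ofNat 320]),
  (342189, [.ofNat 0, .ofNat 0, .negSucc 5631, .ofNat 1792]),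
  (342253, [.ofNat 0, .ofNat 0, .ofNat 47552, .negSucc 25535, .negSucc 10303]),
  (342356, [.ofNat 0, .ofNat 0, .negSucc 45631, .ofNat 10496, .negSucc 4991]),
  (342365, [.ofNat 0, .ofNat 0, .negSucc 13823, .negSucc 30655, .ofNat 4160]),
  (342378, [.ofNat 0, .ofNat 0, .negSucc 7935, .negSucc 4031, .negSucc 127]),
  (344875, [.ofNat 0, .ofNat 0, .negSucc 26751, .negSucc 66495, .ofNat 20960]),
  (345325, [.ofNat 0, .ofNat 0, .ofNat 45056, .ofNat 17280, .negSucc 383]),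
  (345451, [.ofNat 0, .ofNat 0, .ofNat 114112, .ofNat 8768, .negSucc 9919]),
  (345757, [.ofNat 0, .ofNat 0, .negSucc 5343, .ofNat 8384, .ofNat 5536]),
  (345836, [.ofNat 0, .ofNat 0, .ofNat 0, .ofNat 384, .ofNat 3552, .negSucc 319]),
  (345899, [.ofNat 0, .ofNat 0, .ofNat 1152, .negSucc 34303, .ofNat 15776]),
  (345964, [.ofNat 0, .ofNat 0, .ofNat 18560, .negSucc 6111, .ofNat 64]),
  (346325, [.ofNat 0, .ofNat 0, .ofNat 13568, .ofNat 4032, .ofNat 128]),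
  (346461, [.ofNat 0, .ofNat 0, .ofNat 3200, .ofNat 4512, .ofNat 64]),
  (346787, [.ofNat 0, .ofNat 0, .negSucc 26623, .ofNat 62208, .ofNat 6144, .negSucc 639]),
  (346850, [.ofNat 0, .ofNat 0, .ofNat 0, .negSucc 4095, .negSucc 2111, .ofNat 320]),
  (346972, [.ofNat 0, .ofNat 0, .negSucc 3199, .negSucc 4511, .negSucc 63]),
  (398699, [.ofNat 0, .ofNat 0, .ofNat 39424, .ofNat 19072, .negSucc 383]),
  (400028, [.ofNat 0, .ofNat 0, .ofNat 0, .ofNat 0, .negSucc 5631, .ofNat 1600]),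
  (400029, [.ofNat 0, .ofNat 0, .negSucc 6911, .negSucc 1535, .ofNat 128]),
  (402156, [.ofNat 0, .ofNat 0, .ofNat 13312, .ofNat 15872, .negSucc 9279, .negSucc 319]),
  (402157, [.ofNat 0, .ofNat 0, .ofNat 5632, .negSucc 1791]),
  (402219, [.ofNat 0, .ofNat 0, .ofNat 13824, .negSucc 1279]),
  (402668, [.ofNat 0, .ofNat 0, .ofNat 6656, .negSucc 18303, .ofNat 2080, .negSucc 159]),
  (402669, [.ofNat 0, .ofNat 0, .ofNat 0, .negSucc 4863]),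
  (402781, [.ofNat 0, .ofNat 0, .ofNat 0, .negSucc 383, .negSucc 3551, .ofNat 320]),
  (403101, [.ofNat 0, .ofNat 0, .ofNat 0, .ofNat 3328, .negSucc 9599, .ofNat 320]),
  (403180, [.ofNat 0, .ofNat 0, .negSucc 33279, .ofNat 86400, .ofNat 14176, .negSucc 1439]),
  (403243, [.ofNat 0, .ofNat 0, .negSucc 26623, .ofNat 66304, .ofNat 8256, .negSucc 959]),
  (403285, [.ofNat 0, .ofNat 0, .ofNat 14080, .ofNat 1536, .negSucc 1023]),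
  (403292, [.ofNat 0, .ofNat 0, .negSucc 80319, .ofNat 12096, .ofNat 9536]),
  (403305, [.ofNat 0, .ofNat 0, .ofNat 0, .ofNat 0, .ofNat 5632, .negSucc 1599]),
  (403306, [.ofNat 0, .ofNat 0, .ofNat 0, .ofNat 0, .ofNat 5632, .negSucc 1599]),
  (403308, [.ofNat 0, .ofNat 0, .negSucc 7935, .negSucc 4031, .negSucc 127]),
  (404060, [.ofNat 0, .ofNat 0, .ofNat 0, .ofNat 0, .negSucc 5631, .ofNat 1600]),
  (404124, [.ofNat 0, .ofNat 0, .negSucc 80063, .ofNat 8000, .ofNat 10560]),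
  (404181, [.ofNat 0, .ofNat 0, .negSucc 13823, .negSucc 6911, .ofNat 4992, .negSucc 319]),
  (404189, [.ofNat 0, .ofNat 0, .ofNat 0, .negSucc 3711, .ofNat 1440]),
  (404253, [.ofNat 0, .negSucc 53247, .ofNat 17216, .negSucc 33919, .ofNat 25792]),
  (404316, [.ofNat 0, .ofNat 0, .ofNat 10240, .negSucc 10879, .negSucc 6943]),
  (410717, [.ofNat 0, .ofNat 0, .negSucc 19455, .negSucc 4863, .ofNat 256]),
  (410837, [.ofNat 0, .ofNat 0, .ofNat 7168, .negSucc 2751, .ofNat 448]),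
  (1086677, [.ofNat 0, .ofNat 0, .negSucc 27007, .negSucc 1855, .ofNat 320]),
  (1090261, [.ofNat 0, .ofNat 0, .ofNat 2112, .negSucc 25023, .negSucc 1695]),
  (1090277, [.ofNat 0, .ofNat 0, .ofNat 16832, .negSucc 1087, .negSucc 10815]),
  (1091237, [.ofNat 0, .ofNat 0, .negSucc 2303, .ofNat 6464, .negSucc 383]),
  (1091373, [.ofNat 0, .ofNat 0, .ofNat 0, .ofNat 0, .negSucc 767, .ofNat 1600]),
  (1091429, [.ofNat 0, .ofNat 0, .ofNat 0, .ofNat 0, .ofNat 768, .negSucc 1599]),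
  (1091821, [.ofNat 0, .ofNat 0, .ofNat 0, .negSucc 6655, .ofNat 10624, .negSucc 703]),
  (1092325, [.ofNat 0, .ofNat 53248, .ofNat 960, .ofNat 33728, .negSucc 43231, .ofNat 704]),
  (1103077, [.ofNat 0, .ofNat 0, .negSucc 18559, .ofNat 6112, .negSucc 63]),
  (2435435, [.ofNat 0, .ofNat 13312, .negSucc 35071, .ofNat 1024]),
  (2501349, [.ofNat 0, .ofNat 0, .ofNat 0, .negSucc 1599, .negSucc 2223]),
  (2501466, [.ofNat 0, .ofNat 0, .ofNat 0, .negSucc 9599, .negSucc 5631, .negSucc 127]),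
  (2508010, [.ofNat 0, .ofNat 0, .ofNat 0, .negSucc 9599, .negSucc 5631, .negSucc 127]),
  (2673003, [.ofNat 0, .ofNat 0, .negSucc 3327, .ofNat 9600, .negSucc 319]),
  (2705132, [.ofNat 0, .ofNat 0, .negSucc 767, .negSucc 7103, .ofNat 640]),
  (2705771, [.ofNat 0, .ofNat 0, .negSucc 8063, .ofNat 1696, .negSucc 63]),
  (2706275, [.ofNat 0, .ofNat 0, .negSucc 4095, .negSucc 8639, .ofNat 1024]),
  (2726252, [.ofNat 0, .ofNat 0, .ofNat 6656, .negSucc 12159, .negSucc 127]),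
  (2737004, [.ofNat 0, .ofNat 0, .ofNat 3328, .negSucc 9599, .ofNat 320]),
  (2738537, [.ofNat 0, .ofNat 0, .ofNat 9984, .negSucc 21759, .ofNat 192]),
  (2738917, [.ofNat 0, .ofNat 0, .ofNat 6656, .negSucc 12159, .negSucc 127]),
  (2738957, [.ofNat 0, .ofNat 0, .ofNat 6656, .negSucc 9855, .negSucc 895]),
  (2738973, [.ofNat 0, .ofNat 0, .ofNat 6656, .negSucc 12159, .negSucc 127])]

/-- data -/
def lE16x1 : List (ℕ × List ℤ) := [(2738985, [.ofNat 0, .ofNat 0, .ofNat 3328, .negSucc 9599, .ofNat 320]),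
  (2759514, [.ofNat 0, .ofNat 0, .ofNat 0, .negSucc 9599, .negSucc 5631, .negSucc 127]),
  (2762604, [.ofNat 0, .ofNat 0, .negSucc 7679, .ofNat 5312]),
  (2769642, [.ofNat 0, .ofNat 0, .ofNat 0, .negSucc 9599, .negSucc 5631, .negSucc 127]),
  (2771669, [.ofNat 0, .ofNat 0, .ofNat 21760, .negSucc 1599, .ofNat 128]),
  (2771690, [.ofNat 0, .ofNat 0, .negSucc 2943, .ofNat 4832, .ofNat 64]),
  (2775651, [.ofNat 0, .ofNat 0, .ofNat 4288, .negSucc 19055, .negSucc 2271]),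
  (2775779, [.ofNat 0, .ofNat 0, .ofNat 6400, .negSucc 9855, .negSucc 2559]),
  (3189099, [.ofNat 0, .ofNat 0, .ofNat 13184, .negSucc 5599, .negSucc 2047]),
  (3201692, [.ofNat 0, .ofNat 0, .negSucc 6911, .ofNat 20096, .negSucc 3903]),
  (3218275, [.ofNat 0, .ofNat 0, .negSucc 18239, .negSucc 11951, .ofNat 160]),
  (3221228, [.ofNat 0, .negSucc 13311, .ofNat 35072, .negSucc 1023]),
  (3222237, [.ofNat 0, .ofNat 0, .ofNat 768, .ofNat 7104, .negSucc 639]),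
  (3222245, [.ofNat 0, .ofNat 0, .ofNat 4096, .ofNat 7040, .negSucc 3247]),
  (3222252, [.ofNat 0, .ofNat 0, .negSucc 8191, .negSucc 15679, .ofNat 4272]),
  (3225389, [.ofNat 0, .ofNat 0, .negSucc 4095, .negSucc 8639, .ofNat 1024]),
  (3225962, [.ofNat 0, .ofNat 0, .ofNat 7744, .negSucc 5199, .negSucc 2079]),
  (3226467, [.ofNat 0, .ofNat 0, .negSucc 21183, .negSucc 7119, .ofNat 224]),
  (3233509, [.ofNat 0, .ofNat 0, .negSucc 4095, .negSucc 8639, .ofNat 1024]),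
  (3233516, [.ofNat 0, .ofNat 0, .ofNat 0, .ofNat 1600, .ofNat 2224]),
  (3234013, [.ofNat 0, .ofNat 0, .negSucc 10623, .negSucc 12895, .ofNat 2176]),
  (3234396, [.ofNat 0, .ofNat 0, .negSucc 255, .ofNat 5632, .negSucc 3263]),
  (3234516, [.ofNat 0, .ofNat 0, .ofNat 6528, .ofNat 9888, .negSucc 2751]),
  (3234524, [.ofNat 0, .ofNat 0, .ofNat 0, .ofNat 5632, .negSucc 1599]),
  (3282283, [.ofNat 0, .ofNat 0, .negSucc 6783, .negSucc 4255, .negSucc 511]),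
  (3297949, [.ofNat 0, .ofNat 0, .ofNat 0, .negSucc 2303, .ofNat 768]),
  (3319404, [.ofNat 0, .ofNat 0, .ofNat 6656, .negSucc 12159, .negSucc 127]),
  (3331284, [.ofNat 0, .ofNat 0, .negSucc 21759, .ofNat 1600, .negSucc 127]),
  (8693549, [.ofNat 0, .ofNat 0, .ofNat 0, .ofNat 768, .negSucc 1599]),
  (8693605, [.ofNat 0, .ofNat 0, .ofNat 0, .negSucc 767, .ofNat 1600]),
  (8726877, [.ofNat 0, .ofNat 0, .ofNat 8832, .negSucc 10719, .ofNat 7616]),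
  (8727325, [.ofNat 0, .ofNat 0, .negSucc 4031, .ofNat 21216, .negSucc 3903]),
  (8731237, [.ofNat 0, .ofNat 0, .ofNat 0, .negSucc 2303, .ofNat 768]),
  (8731365, [.ofNat 0, .ofNat 0, .negSucc 6655, .ofNat 12160, .ofNat 128]),
  (8731405, [.ofNat 0, .ofNat 0, .ofNat 0, .negSucc 2303, .ofNat 768]),
  (8734445, [.ofNat 0, .ofNat 0, .ofNat 6656, .negSucc 10623, .ofNat 704]),
  (8738021, [.ofNat 0, .ofNat 0, .ofNat 7680, .negSucc 5311]),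
  (8738533, [.ofNat 0, .ofNat 0, .negSucc 6655, .ofNat 10624, .negSucc 703]),
  (8824549, [.ofNat 0, .ofNat 0, .negSucc 4799, .negSucc 10495, .negSucc 3711]),
  (9475309, [.ofNat 0, .ofNat 0, .negSucc 6655, .ofNat 9856, .ofNat 896]),
  (9737445, [.ofNat 0, .ofNat 0, .ofNat 6656, .negSucc 9855, .negSucc 895]),
  (19999461, [.ofNat 0, .ofNat 0, .ofNat 3200, .ofNat 4448]),
  (20011732, [.ofNat 0, .ofNat 0, .negSucc 5631, .ofNat 1600]),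
  (20011740, [.ofNat 0, .ofNat 0, .negSucc 5631, .ofNat 1600]),
  (20063595, [.ofNat 0, .ofNat 0, .negSucc 5631, .ofNat 1600]),
  (20064106, [.ofNat 0, .ofNat 0, .ofNat 3968, .ofNat 7232, .ofNat 128]),
  (20065114, [.ofNat 0, .ofNat 0, .ofNat 9600, .ofNat 5632, .ofNat 128]),
  (21375787, [.ofNat 0, .ofNat 0, .negSucc 9727, .negSucc 5791, .negSucc 127]),
  (21375836, [.ofNat 0, .ofNat 0, .negSucc 319, .ofNat 880]),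
  (21378284, [.ofNat 0, .ofNat 0, .negSucc 6911, .ofNat 2816]),
  (21386539, [.ofNat 0, .ofNat 0, .negSucc 6527, .negSucc 7391, .negSucc 127]),
  (21633387, [.ofNat 0, .negSucc 26623, .ofNat 66304, .ofNat 8256, .negSucc 959]),
  (21841765, [.ofNat 0, .ofNat 0, .negSucc 9727, .negSucc 5791, .negSucc 127]),
  (21842717, [.ofNat 0, .ofNat 0, .ofNat 6528, .ofNat 7392, .ofNat 128]),
  (21894380, [.ofNat 0, .ofNat 0, .negSucc 6911, .ofNat 2816]),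
  (21895852, [.ofNat 0, .ofNat 0, .negSucc 2431]),
  (21896020, [.ofNat 0, .ofNat 0, .ofNat 4864]),
  (21896028, [.ofNat 0, .ofNat 0, .ofNat 9728]),
  (21899109, [.ofNat 0, .ofNat 0, .negSucc 3199, .ofNat 1600]),
  (21899884, [.ofNat 0, .negSucc 13311, .ofNat 6400, .ofNat 6560]),
  (21900012, [.ofNat 0, .negSucc 13311, .ofNat 3968, .ofNat 6560]),
  (21900108, [.ofNat 0, .ofNat 0, .ofNat 4864]),
  (21904204, [.ofNat 0, .ofNat 0, .ofNat 9728]),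
  (21910356, [.ofNat 0, .ofNat 0, .negSucc 2431]),
  (21910621, [.ofNat 0, .ofNat 0, .ofNat 3136, .ofNat 13296, .ofNat 224]),
  (21910860, [.ofNat 0, .ofNat 0, .negSucc 2431]),
  (21911125, [.ofNat 0, .ofNat 0, .ofNat 3136, .ofNat 13296, .ofNat 224]),
  (21911765, [.ofNat 0, .ofNat 0, .ofNat 6656, .negSucc 19199, .ofNat 640]),
  (22063915, [.ofNat 0, .ofNat 0, .ofNat 1536, .ofNat 7232, .ofNat 128]),
  (22063964, [.ofNat 0, .ofNat 0, .ofNat 7168, .ofNat 5632, .ofNat 128]),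
  (22068010, [.ofNat 0, .ofNat 0, .ofNat 4736, .ofNat 5632, .ofNat 128]),
  (22157162, [.ofNat 0, .ofNat 0, .ofNat 9600, .ofNat 5632, .ofNat 128]),
  (22158170, [.ofNat 0, .ofNat 0, .ofNat 9600, .ofNat 5632, .ofNat 128]),
  (22162013, [.ofNat 0, .ofNat 0, .ofNat 11648, .ofNat 9328, .ofNat 192]),
  (22162125, [.ofNat 0, .ofNat 0, .ofNat 11648, .ofNat 9328, .ofNat 192]),
  (22190755, [.ofNat 0, .ofNat 26624, .negSucc 66303, .negSucc 8255, .ofNat 960]),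
  (22194397, [.ofNat 0, .ofNat 0, .ofNat 4864]),
  (22194908, [.ofNat 0, .ofNat 0, .negSucc 4863]),
  (25503596, [.ofNat 0, .ofNat 0, .negSucc 4863]),
  (25508650, [.ofNat 0, .ofNat 0, .negSucc 767, .ofNat 1600]),
  (25511765, [.ofNat 0, .ofNat 0, .ofNat 384, .negSucc 799]),
  (25516756, [.ofNat 0, .ofNat 0, .negSucc 4863]),
  (25733931, [.ofNat 0, .ofNat 0, .ofNat 4736, .ofNat 5632, .ofNat 128]),
  (25733980, [.ofNat 0, .ofNat 0, .ofNat 6848, .ofNat 6512, .ofNat 128]),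
  (25737900, [.ofNat 0, .negSucc 13311, .ofNat 8832, .ofNat 6560]),
  (25737964, [.ofNat 0, .negSucc 13311, .ofNat 8832, .ofNat 6560]),
  (25738026, [.ofNat 0, .ofNat 0, .ofNat 3968, .ofNat 7232, .ofNat 128]),
  (25738027, [.ofNat 0, .ofNat 0, .ofNat 768, .negSucc 2303]),
  (25741141, [.ofNat 0, .ofNat 0, .ofNat 384, .negSucc 799]),
  (25777900, [.ofNat 0, .ofNat 0, .negSucc 3199, .negSucc 4447]),
  (25795371, [.ofNat 0, .ofNat 0, .ofNat 768, .negSucc 2303]),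
  (25803436, [.ofNat 0, .ofNat 26624, .negSucc 71167, .negSucc 8255, .ofNat 960]),
  (25807531, [.ofNat 0, .ofNat 26624, .negSucc 66303, .negSucc 8255, .ofNat 960]),
  (25811596, [.ofNat 0, .ofNat 0, .negSucc 4863]),
  (25832029, [.ofNat 0, .negSucc 13311, .ofNat 33536, .ofNat 3584, .negSucc 639]),
  (25832141, [.ofNat 0, .negSucc 13311, .ofNat 33536, .ofNat 3584, .negSucc 639]),
  (25835181, [.ofNat 0, .ofNat 0, .ofNat 4864]),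
  (25836189, [.ofNat 0, .ofNat 0, .ofNat 4864]),
  (25859932, [.ofNat 0, .ofNat 0, .negSucc 383, .ofNat 800]),
  (25867100, [.ofNat 0, .ofNat 0, .negSucc 383, .ofNat 800])]

/-- data -/
def lE16x2 : List (ℕ × List ℤ) := [(26519338, [.ofNat 0, .ofNat 0, .ofNat 1536, .negSucc 3903]),
  (26548010, [.ofNat 0, .ofNat 0, .ofNat 1536, .negSucc 3903]),
  (26650316, [.ofNat 0, .ofNat 0, .negSucc 4863]),
  (69544285, [.ofNat 0, .ofNat 0, .ofNat 1536, .negSucc 3903]),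
  (69544733, [.ofNat 0, .ofNat 0, .negSucc 1535, .ofNat 3904]),
  (69548381, [.ofNat 0, .ofNat 0, .negSucc 4863]),
  (69548829, [.ofNat 0, .ofNat 0, .negSucc 4863]),
  (69620893, [.ofNat 0, .ofNat 0, .negSucc 1535, .ofNat 3904]),
  (69649565, [.ofNat 0, .ofNat 0, .ofNat 1536, .negSucc 3903]),
  (69778085, [.ofNat 0, .ofNat 0, .ofNat 6528, .ofNat 7392, .ofNat 128]),
  (69778197, [.ofNat 0, .ofNat 0, .ofNat 6528, .ofNat 7392, .ofNat 128]),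
  (69839085, [.ofNat 0, .ofNat 0, .negSucc 4479, .negSucc 3695, .negSucc 63]),
  (69839589, [.ofNat 0, .ofNat 0, .ofNat 4160, .ofNat 4576, .ofNat 64]),
  (69846109, [.ofNat 0, .ofNat 0, .negSucc 3135, .negSucc 13295, .negSucc 223]),
  (69846221, [.ofNat 0, .ofNat 0, .negSucc 3135, .negSucc 13295, .negSucc 223]),
  (69846253, [.ofNat 0, .ofNat 0, .ofNat 7168, .ofNat 5632, .ofNat 128]),
  (69874413, [.ofNat 0, .ofNat 0, .negSucc 11647, .negSucc 9327, .negSucc 191]),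
  (69874525, [.ofNat 0, .ofNat 13312, .negSucc 33535, .negSucc 3583, .ofNat 640]),
  (69875037, [.ofNat 0, .ofNat 13312, .negSucc 33535, .negSucc 3583, .ofNat 640]),
  (69907685, [.ofNat 0, .ofNat 0, .negSucc 4799, .negSucc 2815, .negSucc 63]),
  (75830957, [.ofNat 0, .ofNat 0, .negSucc 8959, .negSucc 7391, .negSucc 127]),
  (77928101, [.ofNat 0, .ofNat 0, .ofNat 8960, .ofNat 7392, .ofNat 128]),
  (155859307, [.negSucc 13311, .ofNat 32000, .ofNat 6976, .negSucc 639]),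
  (156055909, [.ofNat 0, .negSucc 3327, .ofNat 9600, .negSucc 319]),
  (156129493, [.ofNat 0, .negSucc 6655, .ofNat 19200, .negSucc 639]),
  (160085291, [.ofNat 0, .negSucc 4095, .negSucc 2111, .ofNat 320]),
  (160835229, [.ofNat 0, .negSucc 3327, .ofNat 9600, .negSucc 319]),
  (170539875, [.ofNat 0, .ofNat 6400, .negSucc 9855, .negSucc 2559]),
  (170772842, [.ofNat 0, .ofNat 4032, .negSucc 847, .ofNat 32]),
  (170773346, [.ofNat 0, .ofNat 4096, .ofNat 8640, .negSucc 1023]),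
  (170800492, [.ofNat 0, .ofNat 3840, .negSucc 2655]),
  (170805931, [.ofNat 0, .ofNat 1472, .negSucc 2415, .negSucc 31]),
  (170805973, [.ofNat 0, .ofNat 10880, .negSucc 799, .ofNat 64]),
  (170808605, [.ofNat 0, .negSucc 19071, .negSucc 319, .negSucc 479]),
  (170809109, [.ofNat 0, .negSucc 19071, .negSucc 319, .negSucc 479]),
  (170997997, [.ofNat 0, .negSucc 23775, .ofNat 12768, .ofNat 5152]),
  (171005669, [.ofNat 0, .negSucc 4095, .negSucc 8639, .ofNat 1024]),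
  (171005739, [.ofNat 0, .ofNat 23808, .negSucc 7199, .ofNat 11632]),
  (171006173, [.ofNat 0, .ofNat 2432, .negSucc 4383, .negSucc 127]),
  (171026795, [.ofNat 0, .negSucc 13183, .ofNat 5600, .ofNat 2048]),
  (171031205, [.ofNat 0, .negSucc 4095, .negSucc 8639, .ofNat 1024]),
  (171037995, [.ofNat 0, .ofNat 23808, .negSucc 7199, .ofNat 11632]),
  (171039388, [.ofNat 0, .negSucc 6527, .negSucc 4255, .ofNat 1152]),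
  (171039507, [.ofNat 0, .negSucc 9727, .ofNat 19456, .ofNat 2240]),
  (171059051, [.ofNat 0, .negSucc 6783, .negSucc 4255, .negSucc 511]),
  (171062635, [.ofNat 0, .ofNat 256, .ofNat 0, .ofNat 1664]),
  (171070699, [.ofNat 0, .ofNat 13184, .negSucc 5599, .negSucc 2047]),
  (171071147, [.ofNat 0, .negSucc 1471, .ofNat 2416, .ofNat 32]),
  (171072218, [.ofNat 0, .negSucc 4031, .ofNat 848, .negSucc 31]),
  (171091692, [.ofNat 0, .ofNat 1664, .negSucc 127, .negSucc 607]),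
  (171092189, [.ofNat 0, .negSucc 6143, .ofNat 13760, .negSucc 575]),
  (171092700, [.ofNat 0, .negSucc 17407, .negSucc 511, .ofNat 320]),
  (171095395, [.ofNat 0, .ofNat 832, .negSucc 2079, .ofNat 80]),
  (171095724, [.ofNat 0, .ofNat 1664, .negSucc 127, .negSucc 607]),
  (171095850, [.ofNat 0, .ofNat 2432, .negSucc 4383, .negSucc 127]),
  (171096403, [.ofNat 0, .ofNat 832, .negSucc 2079, .ofNat 80]),
  (171103900, [.ofNat 0, .ofNat 3968, .ofNat 2016, .ofNat 64]),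
  (173119340, [.ofNat 0, .negSucc 6911, .ofNat 2816]),
  (173120285, [.ofNat 0, .negSucc 5247, .ofNat 128]),
  (173128300, [.ofNat 0, .negSucc 4095, .negSucc 8639, .ofNat 1024]),
  (173132381, [.ofNat 0, .negSucc 5247, .ofNat 128]),
  (173185756, [.ofNat 0, .negSucc 4095, .negSucc 8639, .ofNat 1024]),
  (173200988, [.ofNat 0, .negSucc 6911, .ofNat 2816]),
  (174410077, [.ofNat 0, .negSucc 1599, .negSucc 2255, .negSucc 31]),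
  (174442837, [.ofNat 0, .negSucc 1599, .negSucc 2255, .negSucc 31]),
  (174443348, [.ofNat 0, .ofNat 8320, .ofNat 17280, .ofNat 3424]),
  (174467309, [.ofNat 0, .negSucc 2815, .ofNat 896]),
  (174467932, [.ofNat 0, .negSucc 5247, .negSucc 4319, .negSucc 63]),
  (174474589, [.ofNat 0, .ofNat 9728, .ofNat 5696, .negSucc 319]),
  (174475989, [.ofNat 0, .ofNat 2560, .negSucc 18079, .negSucc 3359]),
  (174692716, [.ofNat 0, .negSucc 6655, .ofNat 12160, .ofNat 128]),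
  (174703468, [.ofNat 0, .ofNat 3072, .negSucc 255, .negSucc 2879]),
  (174705001, [.ofNat 0, .negSucc 9983, .ofNat 21760, .negSucc 191]),
  (174705253, [.ofNat 0, .ofNat 6656, .negSucc 9855, .negSucc 895]),
  (174705449, [.ofNat 0, .negSucc 3327, .ofNat 9600, .negSucc 319]),
  (174705484, [.ofNat 0, .ofNat 6400, .negSucc 9855, .negSucc 2559]),
  (174725861, [.ofNat 0, .ofNat 10496, .negSucc 6847, .ofNat 1568]),
  (174725917, [.ofNat 0, .ofNat 0, .ofNat 1888, .negSucc 895]),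
  (174733645, [.ofNat 0, .ofNat 3328, .negSucc 2431, .negSucc 319]),
  (174733925, [.ofNat 0, .ofNat 24000, .negSucc 5919, .ofNat 1408]),
  (174736221, [.ofNat 0, .ofNat 9728, .ofNat 5696, .negSucc 319]),
  (174738013, [.ofNat 0, .negSucc 28031, .ofNat 9184, .ofNat 2752]),
  (174738125, [.ofNat 0, .negSucc 28031, .ofNat 9184, .ofNat 2752]),
  (174740253, [.ofNat 0, .ofNat 13504, .ofNat 2816, .negSucc 1055]),
  (174742115, [.ofNat 0, .ofNat 5440, .negSucc 399, .ofNat 32]),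
  (175155563, [.ofNat 0, .negSucc 8639, .negSucc 10639, .ofNat 2080]),
  (175158636, [.ofNat 0, .ofNat 24064, .negSucc 11199, .negSucc 2815]),
  (175159658, [.ofNat 0, .negSucc 8063, .ofNat 1696, .negSucc 63]),
  (175160162, [.ofNat 0, .negSucc 19711, .negSucc 9535, .ofNat 192]),
  (175166700, [.ofNat 0, .negSucc 10495, .ofNat 6464, .negSucc 1887]),
  (175167141, [.ofNat 0, .ofNat 12160, .negSucc 10271, .ofNat 1824]),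
  (175167148, [.ofNat 0, .negSucc 12159, .ofNat 10272, .negSucc 1823]),
  (175167645, [.ofNat 0, .negSucc 2175, .negSucc 8255, .ofNat 480]),
  (175168156, [.ofNat 0, .negSucc 2815, .negSucc 895]),
  (175184235, [.ofNat 0, .negSucc 1727, .negSucc 13455, .ofNat 2080]),
  (175190892, [.ofNat 0, .ofNat 28032, .negSucc 9183, .negSucc 2751]),
  (175199075, [.ofNat 0, .negSucc 90207, .ofNat 14432, .ofNat 20464]),
  (175199852, [.ofNat 0, .negSucc 1663, .ofNat 3808, .ofNat 64]),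
  (175200860, [.ofNat 0, .negSucc 2815, .negSucc 895]),
  (175215980, [.ofNat 0, .negSucc 10879, .ofNat 800, .negSucc 63])]

/-- data -/
def lE16x3 : List (ℕ × List ℤ) := [(175217002, [.ofNat 0, .ofNat 3968, .ofNat 2016, .ofNat 64]),
  (175217492, [.ofNat 0, .ofNat 6912, .ofNat 4800, .negSucc 319]),
  (175221580, [.ofNat 0, .ofNat 6912, .ofNat 4800, .negSucc 319]),
  (175252317, [.ofNat 0, .negSucc 2431, .negSucc 5215, .negSucc 63]),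
  (175256237, [.ofNat 0, .ofNat 2816, .negSucc 895]),
  (175264427, [.ofNat 0, .ofNat 256, .ofNat 15872, .negSucc 2047]),
  (175264875, [.ofNat 0, .ofNat 1728, .ofNat 13456, .negSucc 2079]),
  (175282004, [.ofNat 0, .ofNat 22816, .negSucc 5247, .ofNat 2496]),
  (175282333, [.ofNat 0, .negSucc 14335, .ofNat 2016, .negSucc 1343]),
  (175282410, [.ofNat 0, .ofNat 128, .negSucc 11455, .ofNat 10224]),
  (175289172, [.ofNat 0, .ofNat 24480, .negSucc 9055, .ofNat 2432]),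
  (175289676, [.ofNat 0, .ofNat 1664, .negSucc 3807, .negSucc 63]),
  (175290474, [.ofNat 0, .ofNat 128, .negSucc 11455, .ofNat 10224]),
  (175297187, [.ofNat 0, .ofNat 1472, .negSucc 2415, .negSucc 31]),
  (175297236, [.ofNat 0, .ofNat 25472, .ofNat 8896, .ofNat 608]),
  (175297628, [.ofNat 0, .negSucc 10879, .ofNat 800, .negSucc 63]),
  (175297740, [.ofNat 0, .ofNat 28032, .negSucc 9183, .negSucc 2751]),
  (175298132, [.ofNat 0, .negSucc 10879, .ofNat 800, .negSucc 63]),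
  (176503133, [.ofNat 0, .ofNat 6912, .ofNat 15328, .negSucc 2079]),
  (176510819, [.ofNat 0, .ofNat 576, .negSucc 17151, .ofNat 7888]),
  (176511197, [.ofNat 0, .ofNat 2432, .negSucc 4383, .negSucc 127]),
  (176532316, [.ofNat 0, .negSucc 5247, .negSucc 4319, .negSucc 63]),
  (176539309, [.ofNat 0, .negSucc 22527, .negSucc 8639, .ofNat 192]),
  (176539498, [.ofNat 26624, .negSucc 8927, .negSucc 50015, .negSucc 13983]),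
  (176544419, [.ofNat 0, .ofNat 15488, .negSucc 5119, .negSucc 2303]),
  (176567645, [.ofNat 0, .ofNat 79840, .negSucc 12767, .negSucc 19631]),
  (176568989, [.ofNat 0, .ofNat 6912, .negSucc 639]),
  (176576171, [.ofNat 0, .negSucc 69919, .ofNat 47040, .ofNat 9984]),
  (176596765, [.negSucc 26623, .negSucc 48127, .ofNat 45632, .ofNat 18944]),
  (176601434, [.ofNat 0, .negSucc 8319, .ofNat 8896, .ofNat 1568]),
  (176604829, [.ofNat 0, .ofNat 9280, .ofNat 4896, .ofNat 1184]),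
  (176609050, [.negSucc 26623, .negSucc 48127, .ofNat 45632, .ofNat 18944]),
  (176741084, [.ofNat 0, .ofNat 10720, .negSucc 28671, .negSucc 7103]),
  (176741091, [.ofNat 0, .negSucc 15487, .ofNat 5120, .ofNat 2304]),
  (176789356, [.ofNat 0, .ofNat 3840, .negSucc 2655]),
  (176800493, [.ofNat 0, .negSucc 2815, .ofNat 896]),
  (176806492, [.ofNat 0, .ofNat 7648, .negSucc 72975, .ofNat 8400]),
  (176871011, [.negSucc 26623, .negSucc 32639, .ofNat 40512, .ofNat 16640]),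
  (176997613, [.ofNat 0, .ofNat 1792, .ofNat 11264, .ofNat 4992]),
  (176998061, [.ofNat 0, .negSucc 1023, .ofNat 12160, .ofNat 4992]),
  (176999251, [.ofNat 0, .ofNat 1792, .ofNat 11264, .ofNat 4992]),
  (176999258, [.ofNat 0, .ofNat 1792, .ofNat 11264, .ofNat 4992]),
  (177001820, [.ofNat 13312, .ofNat 100288, .negSucc 18879, .negSucc 25135]),
  (177002324, [.ofNat 13312, .ofNat 100288, .negSucc 18879, .negSucc 25135]),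
  (177002653, [.ofNat 0, .ofNat 19648, .ofNat 20608, .ofNat 5232]),
  (177002709, [.ofNat 0, .ofNat 19648, .ofNat 20608, .ofNat 5232]),
  (177003164, [.ofNat 0, .ofNat 19648, .ofNat 20608, .ofNat 5232]),
  (177003220, [.ofNat 0, .ofNat 27296, .negSucc 52367, .ofNat 13632]),
  (177019117, [.ofNat 0, .ofNat 23776, .negSucc 12767, .negSucc 5151]),
  (177027405, [.ofNat 0, .negSucc 3327, .ofNat 2432, .ofNat 320]),
  (177027685, [.ofNat 0, .ofNat 32832, .ofNat 1568, .ofNat 6160]),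
  (177027853, [.ofNat 0, .ofNat 32832, .ofNat 1568, .ofNat 6160]),
  (177029869, [.ofNat 0, .ofNat 2816, .negSucc 895]),
  (177034027, [.ofNat 0, .ofNat 27552, .ofNat 16160, .ofNat 9248]),
  (177034083, [.ofNat 0, .negSucc 90207, .ofNat 14432, .ofNat 20464]),
  (177035371, [.ofNat 0, .ofNat 27552, .ofNat 16160, .ofNat 9248]),
  (177054572, [.ofNat 0, .ofNat 3072, .ofNat 44304, .negSucc 15503]),
  (177068628, [.ofNat 0, .ofNat 10720, .negSucc 28671, .negSucc 7103]),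
  (177117523, [.ofNat 0, .ofNat 27552, .ofNat 16160, .ofNat 9248]),
  (177117530, [.ofNat 0, .negSucc 8319, .ofNat 8896, .ofNat 1568]),
  (177132195, [.ofNat 0, .negSucc 15487, .ofNat 5120, .ofNat 2304]),
  (177257131, [.ofNat 0, .negSucc 2431, .negSucc 5215, .negSucc 63]),
  (177287917, [.ofNat 0, .ofNat 2816, .negSucc 895]),
  (177318493, [.ofNat 0, .negSucc 6783, .negSucc 2015, .negSucc 63]),
  (177318605, [.ofNat 0, .negSucc 6783, .negSucc 2015, .negSucc 63]),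
  (177328853, [.ofNat 0, .negSucc 17151, .negSucc 575, .ofNat 2464]),
  (177329357, [.ofNat 0, .negSucc 17151, .negSucc 575, .ofNat 2464]),
  (177329805, [.ofNat 0, .negSucc 2431, .negSucc 5215, .negSucc 63]),
  (177378987, [.ofNat 0, .negSucc 21119, .negSucc 2783, .ofNat 5120]),
  (177383019, [.ofNat 0, .negSucc 21119, .negSucc 2783, .ofNat 5120]),
  (177386197, [.ofNat 0, .negSucc 8319, .negSucc 17279, .negSucc 3423]),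
  (177386218, [.ofNat 0, .ofNat 1472, .negSucc 2415, .negSucc 31]),
  (177514717, [.ofNat 0, .ofNat 17408, .negSucc 6271, .ofNat 1856]),
  (177515228, [.ofNat 0, .ofNat 10240, .negSucc 11903, .ofNat 1728]),
  (177522333, [.ofNat 0, .ofNat 9280, .ofNat 4896, .ofNat 1184]),
  (177543389, [.ofNat 0, .ofNat 2432, .negSucc 4383, .negSucc 127]),
  (177640668, [.ofNat 0, .ofNat 3072, .ofNat 44304, .negSucc 15503]),
  (204028253, [.ofNat 0, .negSucc 12415, .negSucc 24287, .ofNat 2528]),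
  (204035813, [.ofNat 0, .negSucc 767, .negSucc 7103, .ofNat 640]),
  (204061349, [.negSucc 13311, .ofNat 32768, .negSucc 3263, .ofNat 320]),
  (204064107, [.ofNat 0, .negSucc 19711, .negSucc 9535, .ofNat 192]),
  (204069539, [.ofNat 0, .negSucc 19711, .negSucc 9535, .ofNat 192]),
  (204092779, [.ofNat 0, .negSucc 19711, .negSucc 9535, .ofNat 192]),
  (204548829, [.ofNat 0, .ofNat 3328, .negSucc 4991, .ofNat 320]),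
  (204560085, [.ofNat 0, .ofNat 3328, .negSucc 4991, .ofNat 320]),
  (204813597, [.ofNat 0, .ofNat 3456, .ofNat 768, .negSucc 63]),
  (204814493, [.ofNat 0, .ofNat 3456, .ofNat 768, .negSucc 63]),
  (204908188, [.ofNat 0, .ofNat 6912, .negSucc 14463, .ofNat 2304]),
  (205862701, [.ofNat 0, .ofNat 4096, .ofNat 8640, .negSucc 1023]),
  (205863261, [.ofNat 0, .negSucc 5503, .negSucc 8959, .ofNat 448]),
  (205863779, [.ofNat 0, .ofNat 1472, .negSucc 2415, .negSucc 31]),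
  (205870947, [.ofNat 0, .ofNat 576, .negSucc 17151, .ofNat 7888]),
  (205899626, [.ofNat 26624, .negSucc 8927, .negSucc 50015, .negSucc 13983]),
  (205929117, [.ofNat 0, .ofNat 6912, .negSucc 639]),
  (205956893, [.negSucc 26623, .negSucc 48127, .ofNat 45632, .ofNat 18944]),
  (205960540, [.ofNat 0, .ofNat 0, .negSucc 1279, .ofNat 896]),
  (205969052, [.ofNat 0, .negSucc 15791, .ofNat 3552, .negSucc 3023]),
  (206093036, [.ofNat 13312, .negSucc 33535, .negSucc 3839, .ofNat 320]),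
  (206093148, [.ofNat 0, .ofNat 5120, .negSucc 5759, .negSucc 2591]),
  (206158444, [.ofNat 13312, .negSucc 31999, .negSucc 6975, .ofNat 640])]

/-- data -/
def lE16x4 : List (ℕ × List ℤ) := [(206215004, [.ofNat 13312, .negSucc 23679, .negSucc 40095, .negSucc 13087]),
  (206222060, [.ofNat 0, .ofNat 4096, .ofNat 8640, .negSucc 1023]),
  (206222123, [.ofNat 0, .negSucc 4095, .negSucc 2111, .ofNat 320]),
  (206350699, [.ofNat 0, .negSucc 12031, .negSucc 319, .negSucc 127]),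
  (206351196, [.ofNat 0, .ofNat 5120, .negSucc 5759, .negSucc 2591]),
  (206351203, [.ofNat 0, .negSucc 19711, .negSucc 9535, .ofNat 192]),
  (206353772, [.ofNat 0, .negSucc 6911, .ofNat 2816]),
  (206354773, [.ofNat 0, .negSucc 12415, .negSucc 24287, .ofNat 2528]),
  (206354794, [.ofNat 0, .negSucc 1471, .ofNat 2416, .ofNat 32]),
  (206358357, [.ofNat 0, .negSucc 86879, .ofNat 12000, .ofNat 20144]),
  (206361829, [.ofNat 0, .ofNat 12160, .negSucc 10271, .ofNat 1824]),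
  (206361836, [.ofNat 0, .negSucc 12159, .ofNat 10272, .negSucc 1823]),
  (206362284, [.ofNat 0, .negSucc 12159, .ofNat 10272, .negSucc 1823]),
  (206362837, [.ofNat 0, .ofNat 12160, .negSucc 10271, .ofNat 1824]),
  (206363362, [.ofNat 0, .negSucc 19711, .negSucc 9535, .ofNat 192]),
  (206379868, [.ofNat 0, .ofNat 21168, .negSucc 3327, .ofNat 1584]),
  (206394988, [.ofNat 0, .negSucc 63967, .ofNat 15936, .negSucc 6159]),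
  (206395996, [.ofNat 0, .negSucc 15791, .ofNat 3552, .negSucc 3023]),
  (206412117, [.ofNat 0, .negSucc 12415, .negSucc 24287, .ofNat 2528]),
  (206443869, [.ofNat 0, .negSucc 79839, .ofNat 12768, .ofNat 19632]),
  (206444373, [.ofNat 0, .negSucc 86879, .ofNat 12000, .ofNat 20144]),
  (206451373, [.ofNat 0, .negSucc 2815, .ofNat 896]),
  (206476636, [.ofNat 0, .negSucc 8831, .negSucc 4863, .negSucc 63]),
  (206480108, [.ofNat 0, .negSucc 34271, .ofNat 9760, .ofNat 2752]),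
  (206484140, [.ofNat 0, .negSucc 34271, .ofNat 9760, .ofNat 2752]),
  (206615915, [.ofNat 0, .ofNat 2432, .ofNat 5216, .ofNat 64]),
  (206673133, [.ofNat 0, .negSucc 19711, .negSucc 9535, .ofNat 192]),
  (206674589, [.negSucc 13311, .negSucc 20447, .ofNat 7392, .ofNat 4608]),
  (206678621, [.negSucc 13311, .negSucc 20447, .ofNat 7392, .ofNat 4608]),
  (206874341, [.ofNat 0, .ofNat 1664, .negSucc 767]),
  (206874460, [.negSucc 26623, .negSucc 7967, .ofNat 39584, .ofNat 14176]),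
  (206874845, [.ofNat 26624, .negSucc 42879, .negSucc 82143, .negSucc 26495]),
  (206875356, [.ofNat 0, .ofNat 384, .negSucc 799]),
  (206878877, [.ofNat 26624, .negSucc 60991, .negSucc 75231, .negSucc 30655]),
  (206904028, [.ofNat 13312, .negSucc 23679, .negSucc 40095, .negSucc 13087]),
  (206910300, [.ofNat 0, .ofNat 40032, .negSucc 3999, .negSucc 5279]),
  (206911084, [.ofNat 13312, .ofNat 22816, .negSucc 3071, .negSucc 2047]),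
  (206912092, [.ofNat 26624, .ofNat 48000, .negSucc 43583, .negSucc 19455]),
  (206936732, [.ofNat 0, .negSucc 8831, .negSucc 3583, .negSucc 959]),
  (206938853, [.ofNat 0, .negSucc 16831, .ofNat 6944, .negSucc 4159]),
  (206939756, [.ofNat 0, .negSucc 23039, .ofNat 11072, .negSucc 1487]),
  (206940365, [.ofNat 26624, .negSucc 60991, .negSucc 75231, .negSucc 30655]),
  (206944397, [.ofNat 26624, .negSucc 42495, .negSucc 82943, .negSucc 26495]),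
  (206975645, [.ofNat 26624, .negSucc 25439, .ofNat 23904, .negSucc 17055]),
  (206976093, [.ofNat 26624, .negSucc 8607, .ofNat 16960, .negSucc 12895]),
  (206976653, [.ofNat 0, .ofNat 1664, .negSucc 767]),
  (207001244, [.ofNat 0, .ofNat 21424, .negSucc 3327, .ofNat 3248]),
  (207004380, [.ofNat 0, .ofNat 5120, .negSucc 5759, .negSucc 2591]),
  (207008860, [.ofNat 0, .negSucc 5119, .ofNat 5760, .ofNat 2592]),
  (210287261, [.ofNat 0, .ofNat 6912, .ofNat 1536, .negSucc 127]),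
  (210287317, [.ofNat 0, .ofNat 9728, .ofNat 2432, .negSucc 127]),
  (210343786, [.ofNat 0, .negSucc 255, .ofNat 0, .negSucc 1663]),
  (210348637, [.ofNat 0, .negSucc 3583, .ofNat 1376, .negSucc 223]),
  (210348749, [.ofNat 0, .negSucc 3583, .ofNat 1376, .negSucc 223]),
  (210416285, [.ofNat 0, .negSucc 2815, .negSucc 895]),
  (211068573, [.ofNat 0, .ofNat 0, .ofNat 2304, .negSucc 767]),
  (212150108, [.ofNat 13312, .ofNat 22816, .negSucc 3071, .negSucc 2047]),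
  (212153629, [.ofNat 0, .negSucc 32831, .negSucc 1567, .negSucc 6159]),
  (212153692, [.ofNat 0, .ofNat 9792, .ofNat 12640, .ofNat 4672]),
  (212158109, [.ofNat 0, .negSucc 32831, .negSucc 1567, .negSucc 6159]),
  (212162204, [.ofNat 0, .negSucc 31135, .ofNat 17504]),
  (212379869, [.ofNat 0, .negSucc 4095, .negSucc 1855, .negSucc 1151]),
  (212380380, [.ofNat 0, .negSucc 4095, .negSucc 1855, .negSucc 1151]),
  (212444780, [.ofNat 0, .negSucc 6655, .ofNat 12160, .ofNat 128]),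
  (213194396, [.ofNat 0, .negSucc 3967, .negSucc 2015, .negSucc 63]),
  (213201620, [.ofNat 0, .ofNat 10880, .negSucc 799, .ofNat 64]),
  (556378461, [.ofNat 0, .negSucc 351, .ofNat 12176, .ofNat 4464]),
  (556378853, [.ofNat 0, .ofNat 7264, .ofNat 7184, .ofNat 880]),
  (556386973, [.ofNat 0, .ofNat 37472, .negSucc 23439, .negSucc 7679]),
  (556389605, [.ofNat 0, .ofNat 11520, .ofNat 10176, .ofNat 3552]),
  (556390053, [.ofNat 0, .ofNat 62432, .negSucc 14671, .negSucc 4127]),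
  (556390557, [.ofNat 0, .ofNat 8704, .ofNat 5920, .ofNat 3424]),
  (556390613, [.ofNat 0, .ofNat 11520, .ofNat 10176, .ofNat 3552]),
  (556415645, [.ofNat 0, .ofNat 384, .negSucc 799]),
  (556422813, [.ofNat 0, .negSucc 51199, .ofNat 5888, .ofNat 3696]),
  (556446949, [.ofNat 0, .negSucc 4831, .ofNat 1584, .negSucc 1295]),
  (556447901, [.ofNat 13312, .negSucc 40575, .negSucc 34143, .negSucc 14015]),
  (556447957, [.ofNat 13312, .negSucc 40959, .negSucc 33343, .negSucc 14015]),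
  (556451485, [.ofNat 0, .ofNat 49536, .negSucc 5759, .negSucc 3087]),
  (557136029, [.negSucc 26623, .ofNat 23040, .ofNat 70752, .ofNat 22944]),
  (557136085, [.ofNat 0, .negSucc 19455, .negSucc 12191, .negSucc 3551]),
  (558185189, [.ofNat 0, .ofNat 6656, .negSucc 12159, .negSucc 127]),
  (558213469, [.ofNat 0, .negSucc 1887, .ofNat 8704, .ofNat 3328]),
  (558213917, [.ofNat 0, .ofNat 1056, .negSucc 6623, .negSucc 3407]),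
  (558217557, [.ofNat 0, .negSucc 6239, .ofNat 6256, .ofNat 1040]),
  (558217893, [.negSucc 13311, .ofNat 4224, .negSucc 5343, .ofNat 10008]),
  (558221981, [.ofNat 0, .ofNat 0, .negSucc 767, .ofNat 1600]),
  (558222037, [.ofNat 0, .negSucc 19903, .negSucc 19231, .negSucc 1599]),
  (558225565, [.ofNat 0, .negSucc 12991, .ofNat 800, .ofNat 2160]),
  (558225621, [.ofNat 0, .ofNat 7744, .ofNat 17184, .ofNat 5440]),
  (558257877, [.ofNat 0, .ofNat 15648, .ofNat 10800, .ofNat 3792]),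
  (558278373, [.ofNat 0, .negSucc 4831, .ofNat 1584, .negSucc 1295]),
  (558282405, [.ofNat 13312, .ofNat 5056, .ofNat 15712, .negSucc 6903]),
  (558286549, [.ofNat 0, .negSucc 13983, .negSucc 10927, .negSucc 4399]),
  (558484061, [.ofNat 0, .negSucc 7487, .negSucc 5183, .negSucc 3135]),
  (558484173, [.ofNat 0, .negSucc 7487, .negSucc 5183, .negSucc 3135]),
  (558543589, [.ofNat 13312, .ofNat 5056, .ofNat 15712, .negSucc 6903]),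
  (558672613, [.negSucc 26623, .negSucc 479, .negSucc 13215, .ofNat 15424]),
  (558676757, [.ofNat 0, .ofNat 1056, .negSucc 12511, .negSucc 847]),
  (558680733, [.ofNat 0, .ofNat 11104, .ofNat 7904, .ofNat 1168])]

/-- data -/
def lE16x5 : List (ℕ × List ℤ) := [(558684317, [.ofNat 0, .ofNat 5728, .negSucc 14847, .ofNat 2992]),
  (558713437, [.ofNat 0, .negSucc 2591, .negSucc 5823, .negSucc 1375]),
  (558713549, [.ofNat 0, .negSucc 4479, .ofNat 2880, .ofNat 1952]),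
  (558715677, [.ofNat 0, .negSucc 11071, .ofNat 960, .negSucc 2047]),
  (558716685, [.ofNat 0, .negSucc 11071, .ofNat 960, .negSucc 2047]),
  (558717133, [.ofNat 0, .ofNat 1888, .negSucc 8703, .negSucc 3327]),
  (558746197, [.ofNat 0, .negSucc 11391, .negSucc 12319, .negSucc 3551]),
  (558748325, [.ofNat 0, .ofNat 58592, .negSucc 12015, .negSucc 4127]),
  (558748773, [.ofNat 0, .ofNat 13952, .ofNat 5792, .ofNat 3424]),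
  (558749781, [.ofNat 0, .ofNat 5888, .ofNat 5920, .ofNat 3424]),
  (558749837, [.ofNat 0, .ofNat 37472, .negSucc 23439, .negSucc 7679]),
  (559195877, [.ofNat 0, .ofNat 21120, .ofNat 11424, .ofNat 3552]),
  (559224549, [.ofNat 0, .ofNat 23296, .ofNat 9536, .ofNat 3552]),
  (559260389, [.ofNat 0, .negSucc 16831, .ofNat 6944, .negSucc 4159]),
  (559264533, [.negSucc 13311, .ofNat 40960, .ofNat 33344, .ofNat 14016]),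
  (559265037, [.negSucc 13311, .ofNat 40960, .ofNat 33344, .ofNat 14016]),
  (564736741, [.negSucc 13311, .ofNat 5664, .negSucc 22095, .ofNat 5256]),
  (564761829, [.ofNat 0, .ofNat 9280, .negSucc 3055, .ofNat 32]),
  (564765413, [.ofNat 26624, .ofNat 8704, .ofNat 22672, .negSucc 14543])]

/-- the sum of the part -/
def lE16 : List (ℕ × List ℤ) := lE16x0 ++ (lE16x1 ++ (lE16x2 ++ (lE16x3 ++ (lE16x4 ++ (lE16x5)))))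

theorem okE16 : dE16.all (rok tbE 12) = true := by decide +kernel

theorem sumE16 : aeq (fz (sumT tbE dE16)) lE16 = true := by decide +kernel

end Pool.Agent.H.MP_e16c79_al.IS
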