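import Pool.Agent.H.MP_e16c79_al.IS.BTabE

/-!
# MP_e16c79_al: certificate E, part 17
-/

set_option autoImplicit false

namespace Pool.Agent.H.MP_e16c79_al.IS

/-- data -/
def dE17x0 : RT := (.nd (.nd (.nd (.lf ⟨[.ofNat 0, .ofNat 7744, .negSucc 2559, .negSucc 1151], (.tr (.dx 0 (.tr (.lf 13) (.lf 14) (.tr (.lf 5) (.lf 17) (.lf 9)))) (.lf 18) (.tw (.lf 6) (.lf 10))), 0, [23, 21, 23, 21, 12, 12, 14, 14], []⟩)
    (.lf ⟨[.ofNat 0, .negSucc 703, .ofNat 224], (.tr (.dx 0 (.tw (.lf 17) (.tr (.lf 5) (.tw (.lf 13) (.lf 14)) (.lf 9)))) (.lf 18) (.tw (.lf 6) (.lf 10))), 0, [23, 21, 23, 21, 23, 21, 23, 21, 23, 21, 23, 21, 23, 21, 23, 21], []⟩))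
    (.nd (.lf ⟨[.ofNat 0, .negSucc 703, .ofNat 224], (.tr (.lf 2) (.dx 3 (.tw (.lf 1) (.tr (.lf 5) (.tw (.lf 17) (.lf 18)) (.lf 9)))) (.tw (.lf 6) (.lf 10))), 3, [11, 9, 11, 9, 11, 9, 11, 9, 11, 9, 11, 9, 11, 9, 11, 9], []⟩)
    (.lf ⟨[.negSucc 6655, .negSucc 50143, .ofNat 9440, .ofNat 12568], (.tr (.dx 0 (.tw (.lf 5) (.tr (.lf 17) (.lf 9) (.tr (.lf 13) (.lf 6) (.lf 14))))) (.lf 10) (.lf 18)), 0, [12, 12, 0, 0, 14, 14, 0, 0], []⟩)))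
    (.nd (.nd (.lf ⟨[.ofNat 6656, .ofNat 50144, .negSucc 9439, .negSucc 12567], (.tr (.dx 0 (.tw (.lf 17) (.tr (.lf 5) (.tr (.lf 13) (.lf 6) (.lf 14)) (.lf 9)))) (.lf 10) (.lf 18)), 0, [12, 12, 14, 14, 0, 0, 2, 2], []⟩)
    (.lf ⟨[.negSucc 6655, .negSucc 50143, .ofNat 9440, .ofNat 12568], (.tr (.dx 0 (.tw (.lf 9) (.tr (.lf 17) (.lf 5) (.tr (.lf 13) (.lf 6) (.lf 14))))) (.lf 10) (.lf 18)), 0, [14, 14, 2, 2, 12, 12, 0, 0], []⟩))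
    (.nd (.lf ⟨[.ofNat 6656, .ofNat 41792, .negSucc 7215, .negSucc 10839], (.tr (.dx 0 (.tw (.lf 13) (.tr (.lf 9) (.lf 17) (.tr (.lf 5) (.lf 14) (.lf 6))))) (.lf 10) (.lf 18)), 0, [2, 2, 0, 0, 14, 14, 0, 0], []⟩)
    (.lf ⟨[.ofNat 0, .negSucc 8351, .ofNat 2224, .ofNat 1728], (.tr (.dx 3 (.tw (.lf 1) (.tr (.lf 5) (.lf 9) (.tr (.lf 17) (.lf 2) (.lf 18))))) (.lf 6) (.lf 10)), 3, [11, 11, 11, 11, 11, 11, 11, 11], []⟩))))

/-- data -/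
def dE17x1 : RT := (.nd (.nd (.nd (.lf ⟨[.ofNat 0, .ofNat 8352, .negSucc 2223, .negSucc 1727], (.tr (.dx 3 (.tw (.lf 17) (.tr (.lf 1) (.tr (.lf 5) (.lf 9) (.lf 18)) (.lf 2)))) (.lf 6) (.lf 10)), 3, [11, 11, 11, 11, 11, 11, 11, 11], []⟩)
    (.lf ⟨[.ofNat 0, .negSucc 1503, .negSucc 1327, .ofNat 992], (.tr (.dx 3 (.tw (.lf 1) (.tr (.lf 17) (.tr (.lf 2) (.lf 5) (.lf 9)) (.lf 18)))) (.lf 6) (.lf 10)), 3, [11, 11, 11, 11, 11, 11, 11, 11], []⟩))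
    (.nd (.lf ⟨[.ofNat 0, .negSucc 831, .ofNat 1440, .ofNat 240], (.tr (.dx 0 (.tr (.lf 5) (.lf 9) (.tr (.lf 13) (.tw (.lf 6) (.lf 17)) (.lf 14)))) (.lf 18) (.lf 10)), 0, [0, 0, 0, 0, 19, 19, 19, 19], []⟩)
    (.lf ⟨[.ofNat 0, .ofNat 768, .ofNat 4288, .negSucc 5351], (.tr (.lf 5) (.tr (.dx 3 (.tw (.lf 1) (.lf 17))) (.tr (.lf 6) (.lf 2) (.lf 9)) (.lf 18)) (.lf 10)), 3, [19, 23, 19, 23, 16, 16, 20, 20], [1015, 1015, 1015, 1015]⟩)))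
    (.nd (.nd (.lf ⟨[.ofNat 0, .negSucc 63, .ofNat 5728, .negSucc 5111], (.tr (.lf 6) (.tw (.dx 3 (.tr (.lf 1) (.lf 17) (.tr (.lf 5) (.lf 2) (.lf 9)))) (.lf 18)) (.lf 10)), 3, [4, 4, 4, 8, 7, 11, 7, 7], []⟩)
    (.lf ⟨[.ofNat 0, .negSucc 63, .ofNat 5728, .negSucc 5111], (.tr (.lf 2) (.lf 18) (.tr (.lf 6) (.dx 3 (.tr (.lf 1) (.tw (.lf 5) (.lf 9)) (.lf 17))) (.lf 10))), 3, [12, 12, 7, 7, 14, 14, 5, 5], [1023, 1017]⟩))
    (.nd (.lf ⟨[.ofNat 0, .negSucc 2367, .ofNat 7904, .ofNat 240], (.tr (.dx 0 (.tw (.lf 5) (.tr (.lf 13) (.tr (.lf 6) (.lf 9) (.lf 17)) (.lf 14)))) (.lf 18) (.lf 10)), 0, [0, 0, 0, 0, 19, 19, 19, 19], []⟩)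
    (.lf ⟨[.ofNat 0, .negSucc 6911, .ofNat 3456], (.tr (.dx 0 (.tw (.lf 17) (.tr (.lf 5) (.tr (.lf 13) (.lf 6) (.lf 14)) (.lf 9)))) (.lf 18) (.lf 10)), 0, [19, 19, 19, 19, 0, 0, 2, 2], []⟩))))

/-- data -/
def dE17x2 : RT := (.nd (.nd (.nd (.lf ⟨[.ofNat 0, .ofNat 7744, .negSucc 3119, .negSucc 1263], (.tw (.dx 0 (.tr (.lf 13) (.lf 14) (.tr (.lf 5) (.tr (.lf 6) (.lf 17) (.lf 9)) (.lf 10)))) (.lf 18)), 0, [0, 0, 2, 2, 12, 12, 14, 14], []⟩)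
    (.lf ⟨[.ofNat 0, .ofNat 7360, .negSucc 2319, .negSucc 1263], (.tr (.dx 3 (.tr (.lf 1) (.tr (.lf 2) (.lf 17) (.lf 18)) (.lf 5))) (.tw (.lf 9) (.lf 10)) (.lf 6)), 3, [9, 9, 9, 9, 9, 9, 9, 9], []⟩))
    (.nd (.lf ⟨[.ofNat 0, .ofNat 7744, .negSucc 3119, .negSucc 1263], (.tr (.dx 3 (.tr (.lf 5) (.tr (.lf 1) (.lf 17) (.lf 18)) (.lf 9))) (.lf 2) (.tw (.lf 6) (.lf 10))), 3, [11, 9, 11, 9, 11, 9, 11, 9], []⟩)
    (.lf ⟨[.ofNat 0, .ofNat 800, .ofNat 1128, .ofNat 16], (.tr (.dx 3 (.tw (.lf 9) (.tr (.lf 1) (.tw (.lf 17) (.lf 18)) (.lf 5)))) (.tw (.lf 2) (.lf 6)) (.lf 10)), 3, [11, 7, 11, 7, 11, 7, 11, 7, 11, 7, 11, 7, 11, 7, 11, 7], []⟩)))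
    (.nd (.nd (.lf ⟨[.negSucc 6655, .negSucc 15567, .ofNat 8312, .ofNat 2344], (.tr (.dx 0 (.tw (.lf 5) (.tr (.lf 13) (.tr (.lf 6) (.lf 17) (.lf 18)) (.lf 14)))) (.lf 9) (.lf 10)), 0, [7, 7, 7, 7, 7, 7, 7, 7], []⟩)
    (.lf ⟨[.ofNat 6656, .ofNat 15568, .negSucc 8311, .negSucc 2343], (.tr (.lf 5) (.dx 3 (.tr (.lf 1) (.lf 17) (.lf 18))) (.tr (.lf 2) (.lf 6) (.tw (.lf 9) (.lf 10)))), 3, [11, 11, 1, 1, 11, 11, 1, 1], []⟩))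
    (.nd (.lf ⟨[.ofNat 6656, .ofNat 15568, .negSucc 8311, .negSucc 2343], (.tr (.lf 5) (.lf 2) (.tr (.dx 3 (.tr (.lf 1) (.lf 17) (.lf 18))) (.lf 6) (.tw (.lf 9) (.lf 10)))), 3, [11, 11, 11, 11, 4, 4, 4, 4], []⟩)
    (.lf ⟨[.negSucc 6655, .negSucc 4287, .negSucc 19487, .ofNat 12128], (.tr (.dx 3 (.tr (.lf 1) (.lf 17) (.lf 18))) (.tr (.lf 2) (.tw (.lf 9) (.lf 10)) (.lf 5)) (.lf 6)), 3, [9, 9, 5, 5, 9, 9, 5, 5], []⟩))))

/-- data -/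
def dE17x3 : RT := (.nd (.nd (.nd (.lf ⟨[.ofNat 0, .ofNat 4416, .negSucc 927, .ofNat 944], (.tw (.dx 0 (.tr (.lf 5) (.lf 13) (.tr (.lf 14) (.lf 6) (.tr (.lf 17) (.lf 9) (.lf 18))))) (.lf 10)), 0, [19, 19, 7, 7, 7, 7, 7, 7], []⟩)
    (.lf ⟨[.ofNat 0, .ofNat 704, .negSucc 223], (.tr (.lf 1) (.dx 3 .on) (.tr (.lf 5) (.tr (.lf 17) (.tr (.lf 6) (.lf 2) (.lf 9)) (.lf 18)) (.lf 10))), 3, [19, 23, 19, 23, 21, 17, 21, 17], [19, 23, 19, 23, 21, 17, 21, 17]⟩))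
    (.nd (.lf ⟨[.ofNat 0, .ofNat 1408, .negSucc 447], (.tr (.dx 0 (.tr (.lf 5) (.lf 9) (.lf 13))) (.tr (.lf 14) (.lf 10) (.tw (.lf 17) (.lf 18))) (.lf 6)), 0, [0, 0, 0, 0, 2, 2, 2, 2], [2, 2, 9, 9]⟩)
    (.lf ⟨[.ofNat 0, .ofNat 3344, .negSucc 6415, .negSucc 2423], (.tr (.lf 5) (.lf 1) (.tr (.lf 17) (.tr (.dx 3 .on) (.lf 2) (.tr (.lf 9) (.lf 6) (.lf 10))) (.lf 18))), 3, [16, 16, 16, 16, 16, 16, 16, 16], [16, 16, 16, 16, 16, 16, 16, 16]⟩)))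
    (.nd (.nd (.lf ⟨[.ofNat 0, .negSucc 895, .ofNat 344, .negSucc 55], (.tr (.lf 1) (.lf 5) (.tr (.lf 17) (.tr (.lf 2) (.dx 3 .on) (.tr (.lf 9) (.lf 6) (.lf 10))) (.lf 18))), 3, [12, 12, 12, 12, 12, 12, 12, 12], [12, 12, 12, 12, 12, 12, 12, 12]⟩)
    (.lf ⟨[.ofNat 0, .ofNat 2624, .negSucc 287, .negSucc 79], (.tr (.lf 17) (.dx 3 (.tr (.lf 1) (.lf 5) (.lf 9))) (.tr (.lf 2) (.tw (.lf 6) (.lf 18)) (.lf 10))), 3, [23, 23, 13, 13, 23, 23, 13, 13], [23, 23, 13, 13]⟩))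
    (.nd (.lf ⟨[.ofNat 0, .ofNat 4288, .negSucc 4959, .ofNat 464], (.tw (.dx 3 (.tr (.lf 5) (.lf 1) (.tr (.lf 17) (.tr (.lf 2) (.lf 6) (.lf 9)) (.lf 18)))) (.lf 10)), 3, [11, 7, 11, 7, 11, 11, 11, 11], []⟩)
    (.lf ⟨[.ofNat 0, .ofNat 832, .negSucc 3231, .ofNat 464], (.tr (.lf 17) (.lf 14) (.tr (.lf 6) (.tw (.dx 0 (.tr (.lf 5) (.lf 13) (.lf 9))) (.lf 18)) (.lf 10))), 0, [19, 19, 7, 7, 17, 17, 5, 5], [19, 19, 17, 17]⟩))))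

/-- data -/
def dE17x4 : RT := (.nd (.nd (.nd (.lf ⟨[.ofNat 0, .ofNat 0, .ofNat 384, .negSucc 1151], (.tr (.lf 17) (.dx 3 (.tw (.lf 1) (.lf 5))) (.tr (.lf 2) (.tw (.lf 11) (.lf 18)) (.lf 6))), 3, [21, 21, 15, 15, 21, 21, 15, 15], [21, 21, 15, 15]⟩)
    (.lf ⟨[.ofNat 0, .ofNat 4960, .negSucc 399, .negSucc 991], (.tr (.lf 17) (.lf 2) (.tr (.lf 6) (.tw (.dx 3 (.tr (.lf 5) (.lf 1) (.lf 9))) (.lf 18)) (.lf 10))), 3, [19, 23, 7, 11, 21, 17, 9, 5], [23, 11, 21, 9]⟩))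
    (.nd (.lf ⟨[.ofNat 0, .negSucc 3231, .ofNat 432, .ofNat 800], (.tr (.dx 0 (.tr (.lf 5) (.lf 9) (.lf 13))) (.lf 14) (.tr (.lf 17) (.tw (.lf 6) (.lf 10)) (.lf 18))), 0, [0, 0, 0, 0, 2, 2, 2, 2], [0, 2, 0, 2]⟩)
    (.lf ⟨[.ofNat 0, .negSucc 1503, .negSucc 1327, .ofNat 992], (.tr (.lf 17) (.dx 0 (.tr (.lf 5) (.lf 13) (.lf 9))) (.tr (.lf 6) (.tw (.lf 14) (.lf 18)) (.lf 10))), 0, [23, 11, 21, 9, 23, 11, 21, 9], [23, 11, 21, 9]⟩)))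
    (.nd (.nd (.lf ⟨[.ofNat 0, .ofNat 2016, .ofNat 2192, .ofNat 464], (.tr (.dx 3 (.tw (.lf 1) (.tr (.lf 5) (.tr (.lf 2) (.lf 17) (.lf 9)) (.lf 6)))) (.lf 18) (.lf 10)), 3, [23, 23, 23, 23, 19, 19, 19, 19], []⟩)
    (.lf ⟨[.ofNat 0, .negSucc 5247, .negSucc 1759, .ofNat 336], (.tr (.dx 3 (.tr (.lf 1) (.tr (.lf 2) (.tw (.lf 9) (.lf 17)) (.lf 5)) (.lf 6))) (.lf 18) (.lf 10)), 3, [23, 23, 23, 23, 19, 19, 19, 19], []⟩))
    (.nd (.lf ⟨[.ofNat 0, .negSucc 28975, .negSucc 7855, .negSucc 9823], (.tw (.dx 0 (.tr (.lf 5) (.lf 13) (.lf 17))) (.tr (.lf 14) (.tr (.lf 9) (.lf 6) (.lf 10)) (.lf 18))), 0, [0, 0, 0, 0, 12, 12, 12, 12], [2, 2, 14, 14]⟩)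
    (.lf ⟨[.ofNat 0, .ofNat 7296, .negSucc 4047, .ofNat 1440], (.tw (.lf 14) (.tr (.dx 0 (.tr (.lf 5) (.lf 17) (.lf 13))) (.lf 18) (.tr (.lf 9) (.lf 6) (.lf 10)))), 0, [23, 23, 23, 23, 1, 13, 1, 13], [23, 23, 15, 15]⟩))))

/-- data -/
def dE17x5 : RT := (.nd (.nd (.nd (.lf ⟨[.ofNat 0, .negSucc 4671, .ofNat 4304, .negSucc 1311], (.tw (.dx 3 (.tr (.lf 1) (.lf 5) (.lf 17))) (.tr (.lf 2) (.lf 18) (.tr (.lf 9) (.lf 6) (.lf 10)))), 3, [23, 23, 15, 15, 23, 23, 15, 15], [23, 23, 15, 15]⟩)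
    (.lf ⟨[.ofNat 0, .negSucc 26959, .negSucc 5663, .negSucc 9359], (.tw (.lf 2) (.tr (.dx 3 (.tr (.lf 1) (.lf 5) (.lf 17))) (.tr (.lf 9) (.lf 6) (.lf 10)) (.lf 18))), 3, [0, 0, 0, 0, 14, 14, 14, 14], [2, 2, 14, 14]⟩))
    (.nd (.lf ⟨[.ofNat 0, .ofNat 25296, .ofNat 10880, .ofNat 9024], (.tr (.dx 3 (.tw (.lf 1) (.tr (.lf 5) (.lf 2) (.tr (.lf 17) (.lf 9) (.lf 18))))) (.lf 6) (.lf 10)), 3, [11, 11, 11, 11, 11, 11, 11, 11], []⟩)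
    (.lf ⟨[.ofNat 0, .ofNat 1728, .ofNat 32, .negSucc 191], (.tr (.lf 14) (.dx 0 (.tr (.lf 5) (.tw (.lf 13) (.lf 17)) (.lf 9))) (.tr (.lf 6) (.lf 18) (.lf 10))), 0, [23, 21, 23, 21, 23, 21, 23, 21], [23, 21]⟩)))
    (.nd (.nd (.lf ⟨[.ofNat 0, .ofNat 1792, .ofNat 3488, .negSucc 335], (.tw (.dx 3 (.tr (.lf 5) (.lf 1) (.lf 17))) (.tr (.lf 2) (.lf 18) (.tr (.lf 9) (.lf 6) (.lf 10)))), 3, [23, 23, 15, 15, 23, 23, 15, 15], [23, 23, 15, 15]⟩)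
    (.lf ⟨[.ofNat 0, .negSucc 2771, .negSucc 4151, .ofNat 508], (.tr (.lf 1) (.tw (.dx 3 (.lf 17)) (.tr (.lf 9) (.tr (.lf 2) (.lf 18) (.lf 5)) (.lf 10))) (.lf 6)), 3, [21, 21, 21, 21, 14, 14, 14, 14], [21, 21, 21, 21, 14, 14, 14, 14]⟩))
    (.nd (.lf ⟨[.ofNat 0, .ofNat 728, .ofNat 12608, .negSucc 2439], (.tr (.lf 1) (.lf 5) (.tr (.lf 9) (.tr (.dx 3 (.lf 17)) (.tw (.lf 2) (.lf 6)) (.lf 18)) (.lf 10))), 3, [0, 0, 12, 12, 0, 0, 12, 12], [0, 0, 12, 12, 0, 0, 12, 12]⟩)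
    (.lf ⟨[.ofNat 0, .negSucc 10303, .ofNat 2688, .ofNat 3320], (.tr (.dx 3 (.tr (.lf 1) (.tw (.lf 5) (.lf 9)) (.lf 17))) (.lf 2) (.tr (.lf 6) (.lf 18) (.lf 10))), 3, [23, 21, 23, 21, 23, 21, 23, 21], [23, 21]⟩))))

/-- data -/
def dE17x6 : RT := (.nd (.nd (.nd (.lf ⟨[.ofNat 0, .negSucc 831, .ofNat 3232, .negSucc 463], (.tr (.lf 18) (.dx 3 (.tr (.lf 1) (.tw (.lf 5) (.lf 17)) (.lf 9))) (.tr (.lf 2) (.lf 6) (.lf 10))), 3, [11, 1, 11, 1, 11, 1, 11, 1], [11, 1]⟩)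
    (.lf ⟨[.ofNat 0, .ofNat 0, .ofNat 2432], (.tr (.dx 3 (.tr (.lf 5) (.lf 1) (.lf 17))) (.tr (.lf 11) (.lf 6) (.lf 18)) (.lf 2)), 3, [13, 15, 13, 15], [13, 15]⟩))
    (.nd (.lf ⟨[.ofNat 0, .negSucc 2095, .negSucc 223, .ofNat 3808], (.tr (.lf 14) (.lf 18) (.tr (.lf 6) (.dx 0 (.tr (.tw (.lf 5) (.lf 9)) (.lf 13) (.lf 17))) (.lf 10))), 0, [19, 19, 7, 7, 17, 17, 5, 5], [19, 17]⟩)
    (.lf ⟨[.ofNat 0, .ofNat 4152, .ofNat 3576, .negSucc 1263], (.tr (.dx 3 (.tw (.lf 17) (.tr (.lf 1) (.tw (.lf 5) (.lf 9)) (.lf 2)))) (.lf 18) (.tw (.lf 6) (.lf 10))), 3, [23, 21, 23, 21, 23, 21, 23, 21, 23, 21, 23, 21, 23, 21, 23, 21], []⟩)))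
    (.nd (.nd (.lf ⟨[.ofNat 0, .negSucc 831, .ofNat 3232, .negSucc 463], (.tw (.dx 3 (.tr (.lf 1) (.lf 5) (.lf 17))) (.tr (.lf 9) (.tr (.lf 2) (.lf 6) (.lf 18)) (.lf 10))), 3, [23, 19, 23, 19, 23, 19, 23, 19], [23, 19, 23, 19]⟩)
    (.lf ⟨[.ofNat 0, .ofNat 1792, .ofNat 1792, .ofNat 160], (.tr (.lf 9) (.dx 3 (.tr (.lf 1) (.lf 17) (.lf 5))) (.tr (.tw (.lf 2) (.lf 6)) (.lf 10) (.lf 18))), 3, [6, 6, 17, 13, 10, 10, 17, 13], [6, 10, 17, 13]⟩))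
    (.nd (.lf ⟨[.ofNat 0, .ofNat 784, .negSucc 495, .negSucc 3655], (.tr (.dx 3 (.tr (.tw (.lf 1) (.lf 9)) (.lf 5) (.lf 17))) (.lf 18) (.tr (.lf 2) (.lf 6) (.lf 10))), 3, [23, 13, 23, 13, 23, 13, 23, 13], [23, 13]⟩)
    (.lf ⟨[.ofNat 0, .ofNat 0, .negSucc 6303, .ofNat 176], (.tr (.dx 3 (.tr (.lf 1) (.tw (.lf 5) (.lf 17)) (.lf 9))) (.tr (.lf 2) (.lf 6) (.lf 10)) (.lf 18)), 3, [23, 13, 23, 13, 23, 13, 23, 13], [1023, 1023]⟩))))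

/-- data -/
def dE17x7 : RT := (.nd (.nd (.nd (.lf ⟨[.ofNat 0, .negSucc 4287, .ofNat 3168, .negSucc 79], (.tr (.lf 2) (.tr (.dx 3 (.tr (.lf 1) (.tw (.lf 9) (.lf 17)) (.lf 5))) (.lf 18) (.lf 10)) (.lf 6)), 3, [21, 21, 21, 21, 14, 14, 14, 14], [21, 14]⟩)
    (.lf ⟨[.ofNat 0, .ofNat 416, .negSucc 1039, .ofNat 40], (.tr (.lf 6) (.tr (.dx 0 (.tr (.lf 5) (.tw (.lf 13) (.lf 17)) (.lf 9))) (.lf 14) (.lf 18)) (.lf 10)), 0, [4, 16, 4, 16, 19, 7, 19, 7], [4, 7]⟩))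
    (.nd (.lf ⟨[.ofNat 1664, .negSucc 4351, .ofNat 3456, .ofNat 896], (.tr (.lf 2) (.tr (.dx 3 (.tr (.tw (.lf 1) (.lf 5)) (.lf 17) (.lf 9))) (.lf 18) (.lf 10)) (.lf 6)), 3, [21, 21, 21, 21, 14, 14, 14, 14], [21, 14]⟩)
    (.lf ⟨[.ofNat 0, .ofNat 8832, .negSucc 1599, .ofNat 1568], (.tr (.lf 6) (.lf 10) (.tr (.dx 0 (.tr (.lf 5) (.lf 17) (.tw (.lf 9) (.lf 13)))) (.lf 14) (.lf 18))), 0, [20, 20, 8, 8, 20, 1017, 13, 13], [8, 20]⟩)))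
    (.nd (.nd (.lf ⟨[.ofNat 0, .ofNat 0, .negSucc 255, .ofNat 320], (.tr (.dx 0 (.tr (.lf 5) (.lf 17) (.tw (.lf 9) (.lf 13)))) (.lf 14) (.tr (.lf 6) (.lf 10) (.lf 18))), 0, [12, 12, 12, 12, 2, 1017, 2, 21], [0, 21]⟩)
    (.lf ⟨[.negSucc 6655, .ofNat 6400, .ofNat 19744, .ofNat 6704], (.tr (.dx 3 (.tw (.lf 1) (.tr (.lf 2) (.tr (.lf 17) (.lf 9) (.lf 18)) (.lf 5)))) (.lf 6) (.lf 10)), 3, [11, 11, 11, 11, 11, 11, 11, 11], []⟩))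
    (.nd (.lf ⟨[.ofNat 0, .ofNat 0, .negSucc 447, .negSucc 159], (.tr (.dx 0 (.tr (.tw (.lf 5) (.lf 17)) (.lf 13) (.lf 9))) (.lf 14) (.tr (.lf 6) (.lf 10) (.lf 18))), 0, [12, 12, 12, 21, 2, 2, 2, 1017], [0, 21]⟩)
    (.lf ⟨[.ofNat 0, .negSucc 10495, .ofNat 6464, .negSucc 1887], (.tr (.lf 6) (.lf 10) (.tr (.dx 0 (.tr (.tw (.lf 5) (.lf 17)) (.lf 13) (.lf 9))) (.lf 14) (.lf 18))), 0, [20, 20, 8, 8, 1017, 3, 20, 13], [8, 20]⟩))))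

/-- data -/
def dE17x8 : RT := (.nd (.nd (.nd (.lf ⟨[.ofNat 0, .ofNat 0, .negSucc 191, .negSucc 159], (.tr (.lf 18) (.lf 9) (.tr (.lf 2) (.tw (.dx 3 (.tr (.lf 1) (.lf 17) (.lf 5))) (.lf 10)) (.lf 6))), 3, [9, 9, 5, 5, 3, 3, 1, 1], [9, 9, 3, 3]⟩)
    (.lf ⟨[.ofNat 0, .ofNat 1664, .negSucc 4159, .ofNat 160], (.tw (.lf 2) (.tr (.lf 9) (.dx 3 (.tr (.lf 1) (.lf 5) (.lf 17))) (.tr (.lf 6) (.lf 10) (.lf 18)))), 3, [2, 2, 2, 1017, 12, 12, 14, 1023], [2, 1017, 12, 11]⟩))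
    (.nd (.lf ⟨[.ofNat 0, .negSucc 5247, .negSucc 703, .ofNat 160], (.tw (.lf 2) (.tr (.lf 9) (.dx 3 (.tr (.lf 1) (.lf 17) (.lf 5))) (.tr (.lf 6) (.lf 10) (.lf 18)))), 3, [2, 2, 2, 2, 12, 12, 14, 14], [2, 1017, 12, 11]⟩)
    (.lf ⟨[.ofNat 0, .ofNat 0, .ofNat 0, .negSucc 8959, .ofNat 3136, .negSucc 1599], (.tw (.lf 7) (.tr (.lf 1) (.dx 3 .on) (.tr (.lf 11) (.lf 2) (.lf 19)))), 3, [4, 4, 20, 16], [4, 1015, 20, 3]⟩)))
    (.nd (.nd (.lf ⟨[.ofNat 0, .ofNat 0, .negSucc 27647, .ofNat 2176, .ofNat 320], (.tw (.dx 0 (.lf 13)) (.tr (.lf 5) (.lf 19) (.tr (.lf 11) (.lf 6) (.lf 14)))), 0, [0, 11, 2, 0], [12, 1023, 2, 21]⟩)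
    (.lf ⟨[.ofNat 0, .negSucc 6911, .ofNat 3456], (.tr (.lf 5) (.dx 3 (.lf 1)) (.tw (.lf 2) (.tr (.lf 6) (.tr (.lf 17) (.lf 9) (.lf 18)) (.lf 10)))), 3, [23, 23, 1023, 1023, 15, 15, 13, 13], [23, 23, 4, 4, 15, 15, 13, 13]⟩))
    (.nd (.lf ⟨[.ofNat 0, .negSucc 831, .ofNat 1440, .ofNat 240], (.tr (.lf 2) (.dx 3 (.tr (.lf 5) (.lf 1) (.lf 17))) (.tr (.lf 9) (.tw (.lf 6) (.lf 18)) (.lf 10))), 3, [1023, 23, 1023, 23, 23, 23, 23, 23], [23, 23, 23, 23]⟩)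
    (.lf ⟨[.ofNat 0, .negSucc 2751, .negSucc 3295, .negSucc 79], (.tr (.lf 2) (.tr (.lf 10) (.dx 3 (.tr (.lf 1) (.tw (.lf 9) (.lf 17)) (.lf 5))) (.lf 18)) (.lf 6)), 3, [2, 2, 2, 2, 9, 9, 9, 9], [2, 9]⟩))))

/-- data -/
def dE17x9 : RT := (.nd (.nd (.nd (.lf ⟨[.ofNat 0, .ofNat 1920, .ofNat 4736, .ofNat 320], (.tr (.dx 0 (.tr (.lf 5) (.lf 17) (.lf 13))) (.lf 14) (.tr (.lf 9) (.tw (.lf 6) (.lf 18)) (.lf 10))), 0, [12, 23, 12, 23, 23, 23, 23, 23], [23, 23, 23, 23]⟩)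
    (.lf ⟨[.ofNat 0, .ofNat 1920, .ofNat 4736, .ofNat 320], (.tw (.lf 2) (.tr (.lf 6) (.tw (.dx 3 (.tr (.lf 1) (.lf 17) (.tw (.lf 5) (.lf 9)))) (.lf 18)) (.lf 10))), 3, [0, 0, 0, 0, 12, 12, 12, 12, 2, 2, 2, 2, 14, 14, 14, 14], [0, 12, 2, 14]⟩))
    (.nd (.lf ⟨[.ofNat 0, .negSucc 1087, .negSucc 6175, .negSucc 559], (.tr (.dx 0 (.tw (.lf 5) (.lf 13))) (.lf 17) (.tr (.lf 9) (.tr (.lf 6) (.lf 18) (.lf 14)) (.lf 10))), 0, [0, 0, 0, 0, 0, 23, 0, 23], [14, 23, 14, 23]⟩)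
    (.lf ⟨[.ofNat 0, .ofNat 1088, .ofNat 6176, .ofNat 560], (.tr (.lf 2) (.tw (.dx 3 (.tr (.lf 17) (.lf 5) (.tr (.lf 1) (.lf 18) (.lf 9)))) (.lf 6)) (.lf 10)), 3, [11, 11, 11, 11, 0, 0, 0, 0], []⟩)))
    (.nd (.nd (.lf ⟨[.ofNat 0, .ofNat 80, .negSucc 2031, .negSucc 2251], (.tr (.lf 2) (.dx 3 (.tw (.lf 1) (.tr (.lf 17) (.tw (.lf 5) (.lf 9)) (.lf 18)))) (.tw (.lf 6) (.lf 10))), 3, [11, 9, 11, 9, 11, 9, 11, 9, 11, 9, 11, 9, 11, 9, 11, 9], []⟩)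
    (.lf ⟨[.ofNat 0, .negSucc 15487, .ofNat 5120, .ofNat 2304], (.tr (.tw (.dx 0 (.tr (.lf 5) (.tr (.lf 13) (.lf 9) (.lf 17)) (.lf 14))) (.lf 18)) (.lf 6) (.lf 10)), 0, [1023, 12, 23, 23, 11, 11, 23, 11], []⟩))
    (.nd (.lf ⟨[.ofNat 0, .negSucc 703, .negSucc 223], (.tr (.lf 6) (.tw (.dx 0 (.tw (.lf 9) (.tr (.tw (.lf 13) (.lf 14)) (.lf 5) (.lf 17)))) (.lf 10)) (.lf 18)), 0, [4, 4, 16, 16, 4, 4, 16, 16, 8, 8, 20, 20, 8, 8, 20, 20], []⟩)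
    (.lf ⟨[.ofNat 0, .negSucc 2495, .ofNat 464, .negSucc 111], (.tr (.lf 9) (.tr (.dx 0 (.lf 5)) (.tr (.lf 13) (.lf 10) (.tw (.lf 17) (.lf 18))) (.lf 6)) (.lf 14)), 0, [6, 6, 18, 18, 10, 10, 22, 22], [6, 6, 18, 18, 10, 10, 22, 22]⟩))))

/-- data -/
def dE17x10 : RT := (.nd (.nd (.nd (.lf ⟨[.ofNat 0, .ofNat 1248, .negSucc 1151, .negSucc 2855], (.tr (.lf 2) (.lf 6) (.tr (.lf 17) (.dx 3 (.tw (.lf 1) (.lf 5))) (.tr (.lf 9) (.lf 18) (.lf 10)))), 3, [12, 12, 12, 12, 12, 12, 12, 12], [12, 12, 12, 12]⟩)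
    (.lf ⟨[.ofNat 0, .negSucc 6495, .negSucc 8303, .ofNat 4120], (.tr (.lf 2) (.tr (.dx 3 (.tw (.lf 1) (.lf 5))) (.tr (.lf 9) (.lf 17) (.lf 10)) (.lf 6)) (.lf 18)), 3, [0, 0, 0, 0, 12, 12, 12, 12], [2, 2, 12, 12]⟩))
    (.nd (.lf ⟨[.ofNat 0, .negSucc 127, .negSucc 8255, .ofNat 1024], (.tr (.lf 2) (.dx 3 (.tw (.lf 1) (.lf 5))) (.tr (.lf 17) (.lf 6) (.tr (.lf 9) (.lf 18) (.lf 10)))), 3, [1023, 1023, 0, 0, 23, 23, 0, 0], [23, 23, 2, 2]⟩)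
    (.lf ⟨[.ofNat 0, .ofNat 10144, .ofNat 16304, .negSucc 5239], (.tr (.lf 6) (.lf 14) (.tr (.lf 17) (.dx 0 (.tw (.lf 5) (.lf 13))) (.tr (.lf 9) (.lf 18) (.lf 10)))), 0, [19, 19, 19, 19, 8, 8, 8, 8], [19, 19, 8, 8]⟩)))
    (.nd (.nd (.lf ⟨[.ofNat 0, .negSucc 6911, .ofNat 3456, .negSucc 319], (.tr (.lf 2) (.tr (.dx 3 (.tr (.lf 1) (.lf 5) (.lf 17))) (.tw (.lf 6) (.lf 9)) (.lf 18)) (.lf 10)), 3, [1023, 0, 23, 23, 12, 7, 14, 1023], [23, 23, 11, 11]⟩)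
    (.lf ⟨[.ofNat 0, .negSucc 12415, .negSucc 13855, .negSucc 2559], (.tr (.dx 3 (.tr (.lf 1) (.lf 9) (.tr (.lf 5) (.lf 2) (.lf 17)))) (.tw (.lf 6) (.lf 18)) (.lf 10)), 3, [23, 23, 23, 23, 23, 23, 23, 23], []⟩))
    (.nd (.lf ⟨[.ofNat 13312, .negSucc 23807, .negSucc 61023, .negSucc 28671], (.tr (.tw (.dx 3 (.tr (.lf 1) (.lf 9) (.tr (.lf 5) (.lf 2) (.lf 17)))) (.lf 6)) (.lf 18) (.lf 10)), 3, [23, 23, 23, 23, 4, 4, 4, 1015], []⟩)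
    (.lf ⟨[.negSucc 13311, .ofNat 38080, .ofNat 86912, .ofNat 15776], (.tr (.lf 6) (.tw (.dx 3 (.tr (.lf 1) (.lf 5) (.tr (.lf 9) (.lf 2) (.lf 17)))) (.lf 18)) (.lf 10)), 3, [4, 4, 8, 1015, 1015, 7, 7, 7], []⟩))))

/-- data -/
def dE17x11 : RT := (.nd (.nd (.nd (.lf ⟨[.ofNat 6656, .ofNat 5104, .ofNat 34064, .ofNat 7744], (.tr (.tw (.dx 3 (.tw (.lf 17) (.tr (.lf 1) (.tw (.lf 5) (.lf 9)) (.lf 2)))) (.lf 6)) (.lf 18) (.lf 10)), 3, [23, 23, 23, 23, 23, 23, 23, 23, 1015, 1015, 1015, 1015, 4, 4, 4, 4], []⟩)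
    (.lf ⟨[.ofNat 13312, .negSucc 38847, .negSucc 33727, .negSucc 31103], (.tr (.tw (.dx 3 (.tr (.lf 1) (.lf 5) (.tr (.lf 9) (.lf 2) (.lf 17)))) (.lf 6)) (.lf 18) (.lf 10)), 3, [23, 23, 23, 23, 4, 4, 8, 1015], []⟩))
    (.nd (.lf ⟨[.ofNat 0, .negSucc 26751, .negSucc 19711, .ofNat 8384], (.tr (.lf 10) (.dx 0 (.tr (.lf 5) (.lf 13) (.tr (.lf 6) (.lf 17) (.lf 9)))) (.tw (.lf 14) (.lf 18))), 0, [6, 6, 6, 6, 18, 18, 18, 18], []⟩)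
    (.lf ⟨[.ofNat 0, .negSucc 5823, .ofNat 6112, .ofNat 1888], (.tr (.dx 3 (.tw (.lf 1) (.lf 5))) (.lf 2) (.tr (.lf 17) (.lf 6) (.tr (.lf 9) (.lf 18) (.lf 10)))), 3, [23, 23, 0, 0, 23, 23, 1023, 1023], [23, 23, 21, 21]⟩)))
    (.nd (.nd (.lf ⟨[.ofNat 0, .negSucc 5247, .negSucc 511, .negSucc 255], (.tr (.dx 3 (.tr (.lf 1) (.lf 5) (.lf 17))) (.tr (.lf 2) (.tw (.lf 9) (.lf 18)) (.lf 6)) (.lf 10)), 3, [23, 23, 19, 19, 23, 23, 19, 19], [23, 23, 19, 19]⟩)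
    (.lf ⟨[.ofNat 0, .negSucc 7679, .ofNat 3040, .ofNat 3240], (.tr (.dx 3 (.tr (.lf 1) (.lf 5) (.lf 17))) (.lf 2) (.tr (.lf 9) (.tw (.lf 6) (.lf 18)) (.lf 10))), 3, [23, 23, 23, 23, 23, 23, 23, 23], [23, 23, 23, 23]⟩))
    (.nd (.lf ⟨[.ofNat 0, .negSucc 8575, .ofNat 928, .ofNat 3512], (.tr (.lf 18) (.lf 2) (.tr (.lf 6) (.dx 3 (.tr (.tw (.lf 5) (.lf 9)) (.lf 1) (.lf 17))) (.lf 10))), 3, [7, 7, 11, 11, 5, 5, 9, 9], [11, 9]⟩)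
    (.lf ⟨[.ofNat 0, .ofNat 576, .ofNat 384], (.tr (.dx 3 (.tw (.lf 1) (.tr (.lf 2) (.tr (.lf 5) (.lf 17) (.lf 6)) (.lf 9)))) (.lf 18) (.lf 10)), 3, [23, 23, 19, 19, 19, 19, 19, 19], []⟩))))

/-- data -/
def dE17x12 : RT := (.nd (.nd (.nd (.lf ⟨[.ofNat 0, .ofNat 0, .negSucc 3327, .ofNat 9600, .negSucc 319], (.tw (.lf 1) (.tr (.lf 7) (.dx 3 (.lf 17)) (.tr (.lf 2) (.lf 11) (.lf 18)))), 3, [0, 1015, 14, 14], [0, 1015, 14, 14]⟩)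
    (.lf ⟨[.ofNat 0, .ofNat 832, .negSucc 3231, .ofNat 464], (.tw (.dx 0 (.tr (.tw (.lf 5) (.lf 9)) (.lf 13) (.lf 17))) (.tr (.lf 14) (.tw (.lf 6) (.lf 10)) (.lf 18))), 0, [0, 0, 0, 0, 2, 2, 2, 2, 12, 12, 12, 12, 14, 14, 14, 14], [0, 2, 12, 14]⟩))
    (.nd (.lf ⟨[.ofNat 0, .ofNat 1728, .ofNat 2112, .negSucc 1199], (.tw (.lf 17) (.tr (.lf 2) (.tr (.lf 10) (.dx 3 (.tr (.lf 1) (.lf 9) (.lf 5))) (.lf 18)) (.lf 6))), 3, [21, 17, 9, 9, 13, 15, 3, 3], [21, 9, 15, 3]⟩)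
    (.lf ⟨[.ofNat 0, .negSucc 7935, .negSucc 15471, .ofNat 1536], (.tw (.lf 2) (.tr (.lf 6) (.dx 3 (.tr (.lf 1) (.lf 5) (.lf 9))) (.tr (.lf 17) (.lf 10) (.lf 18)))), 3, [0, 0, 0, 0, 9, 5, 9, 5], [0, 0, 14, 14]⟩)))
    (.nd (.nd (.lf ⟨[.ofNat 0, .negSucc 415, .ofNat 1040, .negSucc 39], (.tw (.lf 2) (.tr (.lf 18) (.dx 3 (.tr (.lf 5) (.lf 1) (.lf 17))) (.tr (.lf 9) (.lf 6) (.lf 10)))), 3, [11, 11, 11, 11, 2, 2, 2, 2], [11, 11, 2, 2]⟩)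
    (.lf ⟨[.ofNat 0, .ofNat 1248, .negSucc 3471, .ofNat 200], (.tw (.lf 18) (.tr (.dx 3 (.tr (.lf 5) (.lf 1) (.lf 17))) (.tr (.lf 9) (.lf 6) (.lf 10)) (.lf 2))), 3, [3, 3, 3, 3, 14, 14, 14, 14], [3, 3, 11, 11]⟩))
    (.nd (.lf ⟨[.ofNat 0, .ofNat 0, .negSucc 631, .ofNat 1392], (.tr (.lf 9) (.lf 6) (.tr (.dx 0 (.tw (.lf 5) (.lf 13))) (.lf 10) (.tr (.lf 17) (.lf 14) (.lf 18)))), 0, [10, 10, 10, 10, 22, 1, 22, 1], [22, 22, 22, 22]⟩)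
    (.lf ⟨[.ofNat 0, .ofNat 1264, .ofNat 2024, .negSucc 2575], (.tr (.lf 9) (.dx 0 (.tw (.lf 5) (.lf 13))) (.tr (.lf 6) (.lf 10) (.tr (.lf 17) (.lf 14) (.lf 18)))), 0, [6, 6, 6, 6, 6, 6, 6, 6], [18, 18, 18, 18]⟩))))

/-- data -/
def dE17x13 : RT := (.nd (.nd (.nd (.lf ⟨[.ofNat 0, .negSucc 1663, .ofNat 4864, .negSucc 319], (.tr (.dx 0 (.tw (.lf 5) (.lf 13))) (.tr (.lf 6) (.tr (.lf 17) (.lf 14) (.lf 18)) (.lf 9)) (.lf 10)), 0, [23, 23, 0, 0, 23, 23, 23, 23], [23, 23, 23, 23]⟩)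
    (.lf ⟨[.ofNat 0, .negSucc 5247, .ofNat 128], (.tr (.lf 6) (.tr (.dx 0 (.tw (.lf 5) (.lf 13))) (.tr (.lf 17) (.lf 14) (.lf 18)) (.lf 9)) (.lf 10)), 0, [19, 19, 19, 19, 7, 7, 7, 7], [19, 19, 19, 19]⟩))
    (.nd (.lf ⟨[.ofNat 0, .ofNat 1664, .negSucc 4863, .ofNat 320], (.tr (.dx 0 (.tw (.lf 5) (.lf 13))) (.lf 6) (.tr (.lf 9) (.lf 10) (.tr (.lf 17) (.lf 14) (.lf 18)))), 0, [0, 0, 23, 23, 0, 0, 23, 23], [12, 12, 23, 23]⟩)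
    (.lf ⟨[.ofNat 0, .ofNat 5632, .negSucc 2255, .ofNat 240], (.tw (.dx 0 (.tr (.lf 13) (.lf 5) (.lf 17))) (.tr (.lf 14) (.lf 18) (.tr (.lf 9) (.lf 6) (.lf 10)))), 0, [23, 23, 0, 0, 23, 23, 12, 12], [23, 23, 14, 14]⟩)))
    (.nd (.nd (.lf ⟨[.ofNat 0, .negSucc 831, .ofNat 64, .ofNat 304], (.tr (.lf 1) (.tw (.lf 9) (.tr (.lf 2) (.tr (.dx 3 (.lf 17)) (.lf 10) (.lf 18)) (.lf 5))) (.lf 6)), 3, [21, 9, 2, 14, 2, 14, 21, 9], [21, 9, 2, 14, 2, 14, 21, 9]⟩)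
    (.lf ⟨[.ofNat 0, .ofNat 5440, .ofNat 96, .ofNat 5816], (.tw (.lf 9) (.tr (.lf 2) (.tr (.dx 3 (.tr (.lf 1) (.lf 17) (.lf 5))) (.lf 18) (.lf 10)) (.lf 6))), 3, [6, 6, 18, 18, 10, 10, 22, 22], [6, 18, 10, 22]⟩))
    (.nd (.lf ⟨[.ofNat 0, .ofNat 4608, .ofNat 2240, .ofNat 5512], (.tw (.lf 6) (.tr (.dx 0 (.tr (.lf 5) (.lf 13) (.lf 17))) (.lf 14) (.tr (.lf 9) (.lf 18) (.lf 10)))), 0, [4, 4, 16, 16, 20, 20, 20, 20], [4, 4, 20, 20]⟩)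
    (.lf ⟨[.ofNat 0, .negSucc 2991, .ofNat 12744, .ofNat 1444], (.tw (.dx 0 (.tr (.lf 5) (.lf 13) (.lf 17))) (.tr (.lf 6) (.tr (.lf 9) (.lf 18) (.lf 10)) (.lf 14))), 0, [0, 0, 21, 21, 12, 12, 21, 21], [12, 12, 21, 21]⟩))))

/-- data -/
def dE17x14 : RT := (.nd (.nd (.nd (.lf ⟨[.ofNat 0, .negSucc 4287, .ofNat 3168, .negSucc 79], (.tw (.dx 0 (.tr (.lf 5) (.lf 13) (.lf 17))) (.tr (.lf 6) (.lf 14) (.tr (.lf 9) (.lf 18) (.lf 10)))), 0, [0, 0, 0, 0, 23, 23, 9, 9], [0, 0, 14, 14]⟩)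
    (.lf ⟨[.ofNat 0, .ofNat 5632, .ofNat 8928, .negSucc 1583], (.tw (.lf 6) (.tr (.dx 0 (.tr (.lf 5) (.lf 13) (.lf 17))) (.tr (.lf 9) (.lf 18) (.lf 10)) (.lf 14))), 0, [4, 4, 16, 16, 8, 1, 8, 1], [16, 16, 15, 15]⟩))
    (.nd (.lf ⟨[.ofNat 0, .negSucc 5695, .negSucc 8415, .negSucc 6071], (.tw (.dx 0 (.tr (.lf 5) (.lf 17) (.lf 13))) (.tr (.lf 6) (.lf 14) (.tr (.lf 9) (.lf 18) (.lf 10)))), 0, [12, 12, 12, 12, 23, 23, 9, 9], [0, 0, 14, 14]⟩)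
    (.lf ⟨[.ofNat 0, .ofNat 9904, .ofNat 4696, .negSucc 2547], (.tw (.lf 6) (.tr (.dx 0 (.tr (.lf 5) (.lf 17) (.lf 13))) (.tr (.lf 9) (.lf 18) (.lf 10)) (.lf 14))), 0, [16, 16, 4, 4, 8, 13, 8, 13], [16, 16, 15, 15]⟩)))
    (.nd (.nd (.lf ⟨[.ofNat 0, .negSucc 5567, .negSucc 32799, .ofNat 64], (.tr (.lf 14) (.lf 9) (.tr (.tw (.dx 0 (.tr (.lf 5) (.lf 17) (.lf 13))) (.lf 6)) (.lf 10) (.lf 18))), 0, [1017, 23, 10, 1017, 5, 17, 1, 13], [1017, 1017, 17, 13]⟩)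
    (.lf ⟨[.ofNat 0, .negSucc 4991, .ofNat 5696, .ofNat 1056], (.tr (.lf 13) (.lf 9) (.tr (.lf 17) (.lf 10) (.tr (.dx 0 (.lf 5)) (.tw (.lf 14) (.lf 18)) (.lf 6)))), 0, [17, 5, 13, 1, 6, 6, 19, 19], [17, 5, 13, 1, 1017, 1017, 1017, 1017]⟩))
    (.nd (.lf ⟨[.ofNat 0, .negSucc 13823, .ofNat 3616, .ofNat 2584], (.tw (.lf 14) (.tr (.dx 0 (.tr (.lf 5) (.lf 17) (.lf 13))) (.lf 6) (.tr (.lf 9) (.lf 18) (.lf 10)))), 0, [23, 23, 23, 23, 1, 13, 1, 13], [23, 23, 13, 13]⟩)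
    (.lf ⟨[.ofNat 0, .ofNat 2368, .negSucc 5791, .negSucc 1887], (.tw (.lf 14) (.tr (.lf 6) (.dx 0 (.tr (.lf 13) (.lf 5) (.lf 17))) (.tr (.lf 9) (.lf 18) (.lf 10)))), 0, [19, 19, 19, 19, 17, 5, 17, 5], [19, 19, 17, 17]⟩))))

/-- data -/
def dE17x15 : RT := (.nd (.nd (.nd (.lf ⟨[.ofNat 0, .negSucc 4959, .ofNat 2192, .ofNat 608], (.tw (.dx 3 (.tr (.lf 5) (.lf 1) (.lf 17))) (.tr (.lf 2) (.lf 6) (.tr (.lf 9) (.lf 18) (.lf 10)))), 3, [23, 23, 13, 13, 23, 23, 13, 13], [23, 23, 13, 13]⟩)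
    (.lf ⟨[.ofNat 0, .negSucc 1791, .negSucc 6527, .ofNat 1312], (.tw (.lf 9) (.tr (.dx 3 (.tr (.lf 5) (.lf 1) (.lf 17))) (.tr (.lf 2) (.lf 6) (.lf 10)) (.lf 18))), 3, [10, 10, 6, 6, 18, 18, 22, 22], [6, 10, 18, 22]⟩))
    (.nd (.lf ⟨[.ofNat 0, .negSucc 895, .negSucc 1471, .ofNat 272], (.tw (.lf 2) (.tr (.dx 3 (.tr (.lf 1) (.tw (.lf 5) (.lf 9)) (.lf 17))) (.tw (.lf 6) (.lf 10)) (.lf 18))), 3, [0, 0, 2, 2, 0, 0, 2, 2, 12, 12, 12, 12, 14, 14, 14, 14], [0, 2, 12, 14]⟩)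
    (.lf ⟨[.ofNat 0, .ofNat 1664, .negSucc 2879, .ofNat 160], (.tr (.dx 0 (.tr (.lf 13) (.tw (.lf 5) (.lf 9)) (.lf 17))) (.lf 6) (.tr (.lf 10) (.lf 14) (.lf 18))), 0, [0, 0, 2, 2, 12, 12, 14, 14], [0, 12]⟩)))
    (.nd (.nd (.lf ⟨[.ofNat 0, .ofNat 13856, .ofNat 12624, .negSucc 4071], (.tw (.dx 3 (.tr (.lf 17) (.lf 1) (.tr (.lf 9) (.lf 2) (.tr (.lf 5) (.lf 18) (.lf 6))))) (.lf 10)), 3, [11, 11, 7, 7, 7, 7, 7, 7], []⟩)
    (.lf ⟨[.ofNat 0, .ofNat 0, .ofNat 1216, .ofNat 176], (.tw (.dx 3 (.tw (.lf 1) (.lf 17))) (.tr (.lf 2) (.lf 11) (.tr (.lf 5) (.lf 18) (.lf 6)))), 3, [21, 21, 15, 15, 21, 21, 15, 15], [21, 21, 15, 15]⟩))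
    (.nd (.lf ⟨[.negSucc 39935, .negSucc 26111, .ofNat 65792, .ofNat 22208], (.tr (.lf 14) (.lf 9) (.tr (.tw (.dx 0 (.tr (.lf 13) (.lf 5) (.lf 17))) (.lf 6)) (.lf 10) (.lf 18))), 0, [23, 23, 10, 10, 17, 5, 13, 1], [1017, 1017, 17, 13]⟩)
    (.lf ⟨[.ofNat 0, .ofNat 10496, .negSucc 5375, .ofNat 1856], (.tr (.lf 14) (.lf 9) (.tr (.dx 0 (.tr (.lf 5) (.lf 17) (.lf 13))) (.lf 6) (.tw (.lf 10) (.lf 18)))), 0, [1017, 23, 23, 23, 1, 13, 1, 13], [1017, 23, 13, 13]⟩))))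

/-- data -/
def dE17x16 : RT := (.nd (.nd (.nd (.lf ⟨[.ofNat 0, .ofNat 960, .ofNat 5536, .ofNat 240], (.tr (.lf 17) (.dx 3 (.tr (.tw (.lf 1) (.lf 5)) (.lf 2) (.lf 9))) (.tr (.lf 6) (.lf 18) (.lf 10))), 3, [23, 21, 23, 21, 23, 21, 23, 21], []⟩)
    (.lf ⟨[.ofNat 0, .ofNat 480, .ofNat 2768, .ofNat 120], (.tw (.dx 3 (.tr (.lf 1) (.tr (.lf 2) (.tr (.lf 5) (.lf 9) (.lf 6)) (.lf 17)) (.lf 18))) (.lf 10)), 3, [11, 11, 7, 7, 7, 7, 7, 7], []⟩))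
    (.nd (.lf ⟨[.ofNat 0, .ofNat 0, .ofNat 0, .ofNat 320], (.tr (.lf 9) (.lf 18) (.tr (.lf 2) (.tw (.dx 3 (.tr (.lf 1) (.lf 5) (.lf 17))) (.lf 10)) (.lf 6))), 3, [9, 9, 18, 1015, 3, 3, 22, 1], [9, 18, 3, 22]⟩)
    (.lf ⟨[.ofNat 0, .ofNat 0, .ofNat 0, .ofNat 1280], (.tw (.lf 9) (.tr (.lf 6) (.tr (.dx 0 (.lf 5)) (.lf 19) (.lf 10)) (.lf 15))), 0, [22, 22, 21, 17], [22, 22, 21, 17]⟩)))
    (.nd (.nd (.lf ⟨[.ofNat 0, .ofNat 0, .ofNat 640], (.tr (.lf 1) (.dx 3 (.lf 17)) (.tw (.lf 5) (.tr (.lf 2) (.lf 18) (.tr (.lf 9) (.lf 6) (.lf 10))))), 3, [23, 23, 15, 15, 21, 21, 17, 17], [23, 23, 1015, 1015, 21, 21, 17, 17]⟩)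
    (.lf ⟨[.ofNat 0, .negSucc 1295, .ofNat 3232, .negSucc 3695], (.tw (.dx 3 (.tr (.lf 1) (.lf 5) (.lf 17))) (.tr (.lf 18) (.lf 2) (.tr (.lf 9) (.lf 6) (.lf 10)))), 3, [23, 23, 15, 15, 23, 23, 15, 15], [23, 23, 10, 10]⟩))
    (.nd (.lf ⟨[.ofNat 0, .negSucc 2495, .ofNat 3680, .negSucc 4583], (.tw (.dx 3 (.tr (.lf 5) (.lf 1) (.tr (.lf 2) (.tr (.lf 9) (.lf 6) (.lf 10)) (.lf 17)))) (.lf 18)), 3, [4, 4, 4, 4, 2, 2, 10, 10], []⟩)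
    (.lf ⟨[.ofNat 0, .negSucc 1199, .ofNat 448, .negSucc 887], (.tr (.lf 14) (.lf 17) (.tr (.dx 0 (.tr (.lf 5) (.lf 13) (.lf 9))) (.tw (.lf 6) (.lf 10)) (.lf 18))), 0, [23, 21, 23, 21, 3, 1, 3, 1], [23, 21, 15, 13]⟩))))

/-- data -/
def dE17x17 : RT := (.nd (.nd (.nd (.lf ⟨[.ofNat 0, .ofNat 5248, .negSucc 575, .negSucc 159], (.tr (.lf 17) (.lf 2) (.tr (.dx 3 (.tr (.lf 1) (.lf 5) (.lf 9))) (.lf 18) (.tw (.lf 6) (.lf 10)))), 3, [23, 21, 23, 21, 1023, 1013, 14, 1015], [23, 21, 12, 14]⟩)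
    (.lf ⟨[.ofNat 0, .negSucc 6207, .negSucc 6239, .negSucc 303], (.tr (.lf 6) (.dx 0 (.tr (.lf 5) (.lf 9) (.lf 13))) (.tr (.lf 17) (.tw (.lf 10) (.lf 14)) (.lf 18))), 0, [4, 4, 4, 4, 4, 4, 4, 4], [16, 16, 16, 16]⟩))
    (.nd (.lf ⟨[.ofNat 0, .ofNat 3328, .negSucc 6079, .negSucc 63], (.tr (.dx 3 (.tw (.lf 1) (.lf 17))) (.lf 5) (.tr (.lf 18) (.lf 2) (.tr (.lf 9) (.lf 6) (.lf 10)))), 3, [23, 23, 15, 15, 23, 23, 15, 15], [23, 23, 8, 8]⟩)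
    (.lf ⟨[.ofNat 0, .ofNat 9536, .ofNat 160, .ofNat 240], (.tw (.lf 9) (.tr (.lf 18) (.dx 3 (.tr (.lf 1) (.lf 17) (.lf 5))) (.tr (.lf 2) (.lf 10) (.lf 6)))), 3, [9, 3, 9, 3, 6, 6, 10, 10], [9, 3, 6, 10]⟩)))
    (.nd (.nd (.lf ⟨[.ofNat 0, .ofNat 5728, .ofNat 1872, .negSucc 311], (.tw (.dx 3 (.tr (.lf 9) (.tw (.lf 1) (.lf 5)) (.lf 17))) (.tr (.tw (.lf 2) (.lf 6)) (.lf 10) (.lf 18))), 3, [1017, 1013, 17, 13, 1013, 1017, 17, 13, 23, 19, 17, 13, 23, 19, 17, 13], [1023, 1015, 17, 13]⟩)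
    (.lf ⟨[.ofNat 0, .ofNat 5248, .ofNat 2880, .negSucc 351], (.tr (.lf 18) (.lf 2) (.tr (.dx 3 (.tr (.lf 1) (.tw (.lf 5) (.lf 9)) (.lf 17))) (.lf 6) (.lf 10))), 3, [11, 11, 11, 11, 14, 14, 1013, 1015], [11, 1017]⟩))
    (.nd (.lf ⟨[.ofNat 0, .ofNat 7168, .ofNat 9600, .ofNat 960], (.tr (.lf 18) (.lf 2) (.tr (.dx 3 (.tr (.tw (.lf 1) (.lf 9)) (.lf 5) (.lf 17))) (.lf 6) (.lf 10))), 3, [11, 11, 11, 11, 14, 14, 1023, 1013], [11, 1017]⟩)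
    (.lf ⟨[.ofNat 0, .negSucc 2751, .negSucc 5695, .negSucc 703], (.tr (.lf 2) (.tr (.lf 6) (.dx 3 (.tr (.lf 1) (.tw (.lf 5) (.lf 9)) (.lf 17))) (.lf 10)) (.lf 18)), 3, [0, 0, 0, 0, 2, 2, 2, 2], [0, 2]⟩))))

/-- data -/
def dE17x18 : RT := (.nd (.nd (.nd (.lf ⟨[.ofNat 0, .negSucc 479, .negSucc 3151, .ofNat 312], (.tw (.dx 3 (.tr (.tw (.lf 5) (.lf 9)) (.lf 1) (.lf 17))) (.tr (.lf 2) (.tw (.lf 6) (.lf 10)) (.lf 18))), 3, [1015, 1013, 15, 13, 1013, 1015, 15, 13, 23, 21, 15, 13, 23, 21, 15, 13], [1023, 1017, 15, 13]⟩)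
    (.lf ⟨[.ofNat 0, .negSucc 2751, .negSucc 5695, .negSucc 703], (.tr (.lf 14) (.dx 0 (.tw (.lf 13) (.lf 17))) (.tr (.lf 5) (.tr (.lf 6) (.lf 18) (.lf 9)) (.lf 10))), 0, [23, 23, 21, 21, 23, 23, 21, 21], [23, 23, 21, 21]⟩))
    (.nd (.lf ⟨[.ofNat 0, .negSucc 127, .negSucc 5759, .negSucc 703], (.tr (.lf 18) (.lf 2) (.tr (.lf 5) (.tr (.lf 6) (.dx 3 (.tw (.lf 1) (.lf 17))) (.lf 9)) (.lf 10))), 3, [7, 7, 11, 11, 9, 9, 5, 5], [11, 11, 9, 9]⟩)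
    (.lf ⟨[.ofNat 0, .negSucc 831, .ofNat 1376], (.tr (.tw (.dx 0 (.tw (.lf 5) (.tr (.lf 13) (.tw (.lf 9) (.lf 17)) (.lf 14)))) (.lf 6)) (.lf 10) (.lf 18)), 0, [0, 0, 0, 0, 2, 2, 2, 2, 4, 4, 4, 4, 4, 4, 4, 4], []⟩)))
    (.nd (.nd (.lf ⟨[.ofNat 0, .ofNat 832, .negSucc 1375], (.tr (.lf 18) (.lf 2) (.tr (.lf 5) (.dx 3 (.tw (.lf 1) (.lf 17))) (.tr (.lf 9) (.lf 6) (.lf 10)))), 3, [11, 11, 11, 11, 5, 5, 5, 5], [11, 11, 9, 9]⟩)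
    (.lf ⟨[.ofNat 0, .negSucc 10495, .ofNat 2560], (.tw (.dx 3 (.tr (.tw (.lf 1) (.lf 17)) (.lf 5) (.lf 9))) (.tr (.tw (.lf 2) (.lf 6)) (.lf 10) (.lf 18))), 3, [23, 19, 17, 13, 23, 19, 17, 13, 1013, 1017, 17, 13, 23, 19, 17, 13], [1023, 1015, 17, 13]⟩))
    (.nd (.lf ⟨[.ofNat 13312, .negSucc 13503, .negSucc 37087, .ofNat 1664], (.tr (.dx 3 (.tr (.lf 9) (.lf 1) (.tr (.lf 2) (.lf 5) (.lf 17)))) (.lf 6) (.tw (.lf 10) (.lf 18))), 3, [6, 23, 1017, 23, 1023, 23, 23, 23], []⟩)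
    (.lf ⟨[.ofNat 0, .ofNat 5888, .ofNat 5920, .ofNat 3424], (.tr (.tw (.dx 3 (.tr (.lf 1) (.tr (.lf 2) (.lf 5) (.lf 9)) (.lf 17))) (.lf 6)) (.lf 18) (.lf 10)), 3, [23, 23, 23, 23, 4, 4, 1015, 8], []⟩))))

/-- data -/
def dE17x19 : RT := (.nd (.nd (.nd (.lf ⟨[.ofNat 0, .negSucc 575, .negSucc 383], (.tr (.dx 0 (.tr (.lf 5) (.lf 17) (.lf 13))) (.tr (.tw (.lf 9) (.lf 10)) (.lf 14) (.lf 18)) (.lf 6)), 0, [12, 12, 9, 9, 0, 0, 9, 9], [2, 2, 9, 9]⟩)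
    (.lf ⟨[.ofNat 0, .negSucc 4031, .ofNat 64], (.tr (.lf 6) (.lf 14) (.tr (.dx 0 (.tr (.lf 5) (.lf 13) (.lf 17))) (.tw (.lf 9) (.lf 10)) (.lf 18))), 0, [4, 4, 4, 4, 13, 1, 13, 1], [4, 4, 15, 15]⟩))
    (.nd (.lf ⟨[.ofNat 0, .negSucc 575, .negSucc 383], (.tr (.dx 0 (.tr (.lf 5) (.lf 13) (.lf 17))) (.lf 14) (.tr (.lf 6) (.tw (.lf 9) (.lf 10)) (.lf 18))), 0, [0, 0, 21, 21, 12, 12, 21, 21], [0, 0, 21, 21]⟩)
    (.lf ⟨[.ofNat 0, .ofNat 0, .ofNat 1408], (.tr (.lf 2) (.lf 19) (.tr (.dx 3 (.tw (.lf 1) (.lf 5))) (.tw (.lf 9) (.lf 10)) (.lf 6))), 3, [9, 9, 9, 9, 12, 12, 12, 12], [9, 9, 12, 12]⟩)))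
    (.nd (.nd (.lf ⟨[.negSucc 6655, .ofNat 3744, .ofNat 17568, .negSucc 831], (.tr (.tw (.dx 3 (.tw (.lf 17) (.tr (.lf 5) (.tw (.lf 1) (.lf 2)) (.lf 9)))) (.lf 6)) (.lf 18) (.lf 10)), 3, [23, 23, 23, 23, 23, 23, 23, 23, 1015, 1015, 1015, 1015, 4, 4, 8, 8], []⟩)
    (.lf ⟨[.ofNat 0, .ofNat 19328, .ofNat 13600, .ofNat 12800], (.tr (.tw (.dx 0 (.tr (.lf 5) (.tr (.lf 6) (.lf 9) (.lf 17)) (.lf 13))) (.lf 14)) (.lf 18) (.lf 10)), 0, [12, 12, 0, 1023, 19, 19, 19, 19], []⟩))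
    (.nd (.lf ⟨[.ofNat 0, .negSucc 18815, .negSucc 6463, .negSucc 3423], (.tr (.dx 0 (.tr (.lf 5) (.tr (.lf 6) (.lf 9) (.lf 17)) (.lf 13))) (.lf 14) (.tw (.lf 10) (.lf 18))), 0, [12, 12, 12, 12, 0, 0, 2, 1023], []⟩)
    (.lf ⟨[.ofNat 0, .ofNat 5888, .ofNat 5920, .ofNat 3424], (.tr (.dx 0 (.tr (.lf 13) (.lf 17) (.tr (.lf 5) (.lf 6) (.lf 9)))) (.lf 14) (.tw (.lf 10) (.lf 18))), 0, [0, 19, 2, 1023, 12, 12, 14, 14], []⟩))))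

/-- data -/
def dE17x20 : RT := (.nd (.nd (.nd (.lf ⟨[.negSucc 6655, .ofNat 16864, .ofNat 23664, .ofNat 5568], (.tr (.lf 6) (.dx 3 (.tw (.lf 17) (.tr (.lf 5) (.tw (.lf 1) (.lf 2)) (.lf 9)))) (.tw (.lf 10) (.lf 18))), 3, [4, 1015, 4, 1015, 8, 1015, 8, 1015, 4, 4, 4, 4, 8, 8, 8, 8], []⟩)
    (.lf ⟨[.ofNat 0, .negSucc 11135, .negSucc 38399, .ofNat 14400], (.tr (.lf 6) (.dx 3 (.tr (.lf 9) (.lf 1) (.tr (.lf 2) (.lf 5) (.lf 17)))) (.tw (.lf 10) (.lf 18))), 3, [8, 8, 8, 8, 4, 4, 4, 1015], []⟩))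
    (.nd (.lf ⟨[.negSucc 13311, .negSucc 30975, .ofNat 22144, .ofNat 9232], (.tr (.lf 6) (.lf 17) (.tr (.dx 0 (.tw (.lf 5) (.lf 13))) (.tr (.lf 9) (.lf 18) (.lf 10)) (.lf 14))), 0, [16, 16, 16, 16, 1, 1, 1, 1], [16, 16, 15, 15]⟩)
    (.lf ⟨[.ofNat 0, .ofNat 6784, .ofNat 1248], (.tr (.dx 0 (.tr (.lf 5) (.tr (.lf 6) (.lf 9) (.lf 17)) (.lf 13))) (.tw (.lf 10) (.lf 14)) (.lf 18)), 0, [12, 12, 12, 12, 0, 0, 2, 2], []⟩)))
    (.nd (.nd (.lf ⟨[.ofNat 0, .negSucc 3391, .negSucc 623], (.tr (.dx 0 (.tw (.lf 13) (.tr (.tw (.lf 5) (.lf 6)) (.lf 9) (.lf 17)))) (.tw (.lf 10) (.lf 14)) (.lf 18)), 0, [0, 0, 0, 0, 2, 2, 2, 2, 12, 12, 12, 12, 14, 14, 14, 14], []⟩)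
    (.lf ⟨[.ofNat 0, .ofNat 3008, .ofNat 976], (.tr (.dx 0 (.tw (.lf 13) (.tr (.tw (.lf 5) (.lf 6)) (.lf 9) (.lf 17)))) (.lf 14) (.tw (.lf 10) (.lf 18))), 0, [0, 0, 0, 0, 2, 1023, 2, 1023, 12, 12, 12, 12, 14, 14, 14, 14], []⟩))
    (.nd (.lf ⟨[.ofNat 0, .negSucc 5887, .negSucc 5919, .negSucc 3423], (.tr (.tw (.dx 0 (.tr (.lf 9) (.lf 5) (.tr (.lf 6) (.lf 17) (.lf 13)))) (.lf 14)) (.lf 10) (.lf 18)), 0, [14, 2, 12, 0, 2, 1023, 19, 19], []⟩)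
    (.lf ⟨[.ofNat 0, .ofNat 0, .ofNat 384], (.tr (.lf 14) (.lf 5) (.tr (.lf 18) (.lf 9) (.tr (.lf 6) (.dx 0 (.tw (.lf 13) (.lf 17))) (.lf 10)))), 0, [19, 7, 17, 5, 1015, 1015, 1015, 1015], [19, 17, 1015, 1015]⟩))))

/-- data -/
def dE17x21 : RT := (.nd (.nd (.nd (.lf ⟨[.ofNat 0, .negSucc 2623, .ofNat 64], (.tr (.dx 3 (.tr (.lf 5) (.tr (.lf 1) (.lf 2) (.lf 17)) (.lf 9))) (.lf 18) (.tw (.lf 6) (.lf 10))), 3, [23, 21, 23, 21, 23, 21, 23, 21], []⟩)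
    (.lf ⟨[.ofNat 13312, .ofNat 24000, .negSucc 21791, .negSucc 9727], (.tr (.dx 3 (.tw (.lf 1) (.lf 5))) (.lf 9) (.tr (.lf 17) (.lf 10) (.tr (.lf 2) (.lf 18) (.lf 6)))), 3, [17, 13, 1023, 19, 17, 13, 23, 1015], [17, 13, 23, 19]⟩))
    (.nd (.lf ⟨[.negSucc 6655, .ofNat 21440, .ofNat 2704, .ofNat 240], (.tr (.lf 9) (.dx 3 (.tw (.lf 1) (.lf 5))) (.tr (.lf 17) (.lf 10) (.tr (.lf 2) (.lf 18) (.lf 6)))), 3, [1015, 6, 6, 6, 10, 1023, 10, 10], [17, 13, 6, 10]⟩)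
    (.lf ⟨[.ofNat 0, .ofNat 192, .negSucc 399], (.tr (.lf 17) (.lf 9) (.tr (.lf 10) (.dx 3 (.tw (.lf 1) (.lf 5))) (.tr (.lf 2) (.lf 18) (.lf 6)))), 3, [17, 13, 17, 13, 11, 7, 11, 7], [17, 13, 11, 7]⟩)))
    (.nd (.nd (.lf ⟨[.ofNat 6656, .negSucc 17215, .negSucc 735, .ofNat 160], (.tr (.lf 9) (.tr (.dx 3 (.tw (.lf 1) (.lf 5))) (.tr (.lf 2) (.lf 17) (.lf 6)) (.lf 10)) (.lf 18)), 3, [6, 6, 10, 10, 18, 18, 22, 22], [6, 10, 18, 22]⟩)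
    (.lf ⟨[.ofNat 0, .ofNat 832, .negSucc 383], (.tr (.lf 17) (.dx 3 (.tw (.lf 1) (.lf 5))) (.tr (.lf 9) (.lf 10) (.tr (.lf 2) (.lf 18) (.lf 6)))), 3, [17, 13, 23, 19, 17, 13, 23, 19], [17, 13, 23, 19]⟩))
    (.nd (.lf ⟨[.ofNat 0, .ofNat 0, .ofNat 0, .negSucc 2815], (.tr (.lf 5) (.lf 19) (.tr (.lf 13) (.lf 6) (.tr (.dx 0 .on) (.lf 14) (.lf 11)))), 0, [7, 3, 16, 20], [7, 3, 16, 20]⟩)
    (.lf ⟨[.ofNat 0, .ofNat 0, .negSucc 1407], (.tr (.lf 5) (.lf 19) (.tr (.lf 13) (.lf 6) (.tr (.dx 0 .on) (.lf 14) (.tw (.lf 9) (.lf 10))))), 0, [7, 7, 3, 3, 16, 16, 20, 20], [7, 7, 3, 3, 16, 16, 20, 20]⟩))))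

/-- data -/
def dE17x22 : RT := (.nd (.nd (.nd (.lf ⟨[.ofNat 0, .ofNat 0, .ofNat 8960, .ofNat 4608, .negSucc 319], (.tr (.lf 5) (.lf 19) (.tr (.dx 0 .on) (.lf 13) (.tr (.lf 11) (.lf 6) (.lf 14)))), 0, [16, 11, 1, 3], [16, 11, 20, 3]⟩)
    (.lf ⟨[.ofNat 0, .ofNat 0, .ofNat 11776, .ofNat 13056, .ofNat 256], (.tr (.lf 9) (.lf 19) (.tr (.lf 6) (.lf 13) (.tr (.dx 0 (.lf 5)) (.lf 10) (.lf 14)))), 0, [22, 1, 18, 5], [22, 3, 18, 5]⟩))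
    (.nd (.lf ⟨[.ofNat 13312, .negSucc 23039, .negSucc 2431], (.tr (.lf 9) (.tr (.lf 10) (.dx 0 (.tr (.tw (.lf 5) (.lf 13)) (.lf 17) (.lf 6))) (.lf 18)) (.lf 14)), 0, [6, 6, 18, 18, 18, 18, 18, 18], []⟩)
    (.lf ⟨[.ofNat 6656, .negSucc 6399, .negSucc 19743, .negSucc 6703], (.tw (.dx 0 (.tr (.tw (.lf 5) (.lf 13)) (.lf 6) (.lf 17))) (.tr (.lf 14) (.tw (.lf 9) (.lf 10)) (.lf 18))), 0, [0, 0, 0, 0, 0, 0, 0, 0, 12, 12, 12, 12, 12, 12, 12, 12], []⟩)))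
    (.nd (.nd (.lf ⟨[.ofNat 0, .ofNat 2432, .negSucc 4383, .negSucc 127], (.tr (.dx 3 (.tr (.lf 1) (.tr (.lf 2) (.lf 17) (.lf 9)) (.lf 5))) (.tw (.lf 6) (.lf 18)) (.lf 10)), 3, [23, 23, 23, 23, 23, 23, 23, 23], []⟩)
    (.lf ⟨[.ofNat 0, .negSucc 13951, .negSucc 5791, .negSucc 3423], (.tr (.dx 3 (.tr (.lf 1) (.lf 2) (.tr (.lf 5) (.lf 9) (.lf 17)))) (.lf 6) (.tw (.lf 10) (.lf 18))), 3, [0, 23, 2, 23, 1015, 23, 23, 23], []⟩))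
    (.nd (.lf ⟨[.negSucc 13311, .ofNat 24320, .ofNat 49664, .ofNat 16960], (.tr (.dx 3 (.tr (.lf 1) (.tr (.lf 2) (.lf 17) (.lf 9)) (.lf 5))) (.lf 6) (.tw (.lf 10) (.lf 18))), 3, [2, 23, 2, 23, 23, 23, 1015, 23], []⟩)
    (.lf ⟨[.negSucc 13311, .negSucc 30975, .ofNat 22144, .ofNat 9232], (.tr (.lf 5) (.tr (.dx 3 (.tw (.lf 1) (.lf 17))) (.lf 2) (.tr (.lf 6) (.lf 18) (.lf 9))) (.lf 10)), 3, [23, 23, 23, 23, 20, 20, 20, 20], [23, 23, 20, 20]⟩))))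

/-- data -/
def dE17x23 : RT := (.nd (.nd (.nd (.lf ⟨[.ofNat 14976, .ofNat 26624, .negSucc 18687, .negSucc 8175], (.tr (.lf 5) (.tr (.lf 14) (.dx 0 (.tw (.lf 13) (.lf 17))) (.tr (.lf 6) (.lf 18) (.lf 9))) (.lf 10)), 0, [23, 23, 23, 23, 20, 20, 20, 20], [23, 23, 20, 20]⟩)
    (.lf ⟨[.negSucc 11647, .ofNat 35776, .ofNat 31600, .ofNat 15328], (.tr (.lf 2) (.tr (.lf 9) (.dx 3 (.tw (.lf 1) (.lf 5))) (.tr (.lf 17) (.lf 6) (.lf 18))) (.lf 10)), 3, [2, 2, 2, 2, 11, 7, 11, 7], [2, 2, 11, 11]⟩))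
    (.nd (.lf ⟨[.ofNat 6656, .negSucc 17983, .negSucc 2511, .negSucc 879], (.tr (.lf 9) (.lf 17) (.tr (.lf 2) (.tr (.lf 10) (.dx 3 (.tw (.lf 1) (.lf 5))) (.lf 18)) (.lf 6))), 3, [18, 18, 9, 9, 22, 22, 3, 3], [18, 9, 22, 3]⟩)
    (.lf ⟨[.ofNat 6656, .negSucc 16319, .negSucc 21279, .negSucc 6543], (.tr (.lf 2) (.lf 9) (.tr (.dx 3 (.tw (.lf 1) (.lf 5))) (.tr (.lf 17) (.lf 6) (.lf 18)) (.lf 10))), 3, [2, 2, 2, 2, 14, 14, 14, 14], [2, 2, 14, 14]⟩)))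
    (.nd (.nd (.lf ⟨[.negSucc 6655, .ofNat 9600, .ofNat 21024, .ofNat 6704], (.tr (.dx 3 (.tw (.lf 1) (.lf 5))) (.tr (.lf 9) (.lf 10) (.tr (.lf 17) (.lf 6) (.lf 18))) (.lf 2)), 3, [13, 13, 15, 15, 13, 13, 15, 15], [13, 13, 15, 15]⟩)
    (.lf ⟨[.ofNat 9984, .negSucc 29823, .negSucc 32783, .negSucc 15055], (.tr (.lf 9) (.lf 10) (.tr (.dx 3 (.tw (.lf 1) (.lf 5))) (.tr (.lf 17) (.lf 6) (.lf 18)) (.lf 2))), 3, [6, 6, 10, 10, 18, 18, 18, 18], [10, 10, 18, 18]⟩))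
    (.nd (.lf ⟨[.negSucc 13311, .ofNat 35584, .ofNat 33392, .ofNat 15056], (.tr (.dx 3 (.tw (.lf 1) (.lf 5))) (.tr (.lf 9) (.lf 2) (.tr (.lf 17) (.lf 6) (.lf 18))) (.lf 10)), 3, [23, 23, 19, 19, 23, 23, 19, 19], [23, 23, 19, 19]⟩)
    (.lf ⟨[.ofNat 0, .ofNat 13312, .negSucc 37631, .negSucc 5183, .ofNat 640], (.tr (.lf 5) (.lf 17) (.tr (.lf 2) (.tr (.lf 6) (.dx 3 (.lf 1)) (.lf 18)) (.lf 11))), 3, [16, 11, 20, 1], [16, 11, 20, 1]⟩))))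

/-- data -/
def dE17x24 : RT := (.nd (.nd (.nd (.lf ⟨[.ofNat 6656, .ofNat 10224, .negSucc 3695, .negSucc 2303], (.tr (.lf 14) (.lf 9) (.tr (.dx 0 (.tw (.lf 5) (.lf 13))) (.tr (.lf 17) (.lf 10) (.lf 18)) (.lf 6))), 0, [21, 21, 21, 21, 1, 1, 1, 1], [21, 21, 15, 15]⟩)
    (.lf ⟨[.ofNat 0, .ofNat 0, .ofNat 640, .negSucc 447], (.tr (.dx 0 (.tw (.lf 5) (.lf 13))) (.lf 17) (.tw (.lf 14) (.tr (.lf 9) (.tw (.lf 6) (.lf 18)) (.lf 10)))), 0, [0, 1023, 0, 1023, 0, 0, 0, 0, 1023, 23, 1023, 23, 0, 0, 0, 0], [23, 23, 23, 23, 14, 14, 14, 14]⟩))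
    (.nd (.lf ⟨[.negSucc 6655, .ofNat 45808, .ofNat 29696, .ofNat 12752], (.tw (.dx 0 (.tr (.lf 5) (.lf 13) (.tw (.lf 9) (.lf 14)))) (.tr (.lf 17) (.tw (.lf 6) (.lf 10)) (.lf 18))), 0, [0, 0, 0, 0, 0, 0, 0, 0, 2, 2, 2, 2, 2, 2, 2, 2], []⟩)
    (.lf ⟨[.negSucc 6655, .ofNat 6400, .ofNat 19744, .ofNat 6704], (.tr (.tw (.lf 10) (.lf 14)) (.dx 0 (.tw (.lf 9) (.tr (.lf 13) (.tw (.lf 5) (.lf 6)) (.lf 17)))) (.lf 18)), 0, [6, 6, 6, 6, 6, 6, 6, 6, 6, 6, 6, 6, 1023, 1023, 1023, 1023], []⟩)))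
    (.nd (.nd (.lf ⟨[.ofNat 0, .ofNat 1536, .ofNat 1376], (.tr (.tw (.lf 10) (.lf 14)) (.dx 0 (.tr (.lf 9) (.lf 17) (.tr (.lf 5) (.lf 6) (.lf 13)))) (.lf 18)), 0, [6, 6, 6, 6, 6, 6, 6, 1023], []⟩)
    (.lf ⟨[.ofNat 0, .ofNat 2432, .ofNat 592], (.tr (.tw (.lf 10) (.lf 14)) (.dx 0 (.tw (.lf 13) (.tr (.tw (.lf 5) (.lf 6)) (.lf 17) (.lf 9)))) (.lf 18)), 0, [6, 6, 6, 6, 6, 6, 6, 6, 1023, 1023, 13, 13, 6, 6, 6, 6], []⟩))
    (.nd (.lf ⟨[.negSucc 13311, .ofNat 37312, .ofNat 33776, .ofNat 15024], (.tr (.dx 3 (.tw (.lf 1) (.lf 5))) (.tr (.lf 2) (.tr (.lf 17) (.lf 6) (.lf 18)) (.lf 9)) (.lf 10)), 3, [23, 23, 19, 19, 23, 23, 19, 19], [23, 23, 19, 19]⟩)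
    (.lf ⟨[.ofNat 13312, .negSucc 42559, .negSucc 34479, .negSucc 14863], (.tr (.lf 9) (.lf 10) (.tr (.lf 14) (.dx 0 (.tw (.lf 5) (.lf 13))) (.tr (.lf 17) (.lf 6) (.lf 18)))), 0, [6, 6, 6, 6, 22, 22, 22, 22], [6, 6, 22, 22]⟩))))

/-- data -/
def dE17 : RT := (.nd (.nd (.nd (.nd dE17x0 (.nd dE17x1 dE17x2)) (.nd dE17x3 (.nd dE17x4 dE17x5))) (.nd (.nd dE17x6 (.nd dE17x7 dE17x8)) (.nd dE17x9 (.nd dE17x10 dE17x11)))) (.nd (.nd (.nd dE17x12 (.nd dE17x13 dE17x14)) (.nd dE17x15 (.nd dE17x16 dE17x17))) (.nd (.nd dE17x18 (.nd dE17x19 dE17x20)) (.nd (.nd dE17x21 dE17x22) (.nd dE17x23 dE17x24)))))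

/-- data -/
def lE17x0 : List (ℕ × List ℤ) := [(5349, [.ofNat 0, .ofNat 0, .negSucc 45823, .negSucc 24447, .ofNat 5568]),
  (5405, [.ofNat 0, .ofNat 0, .negSucc 27647, .negSucc 4351, .ofNat 3200]),
  (5419, [.ofNat 0, .ofNat 13312, .negSucc 50431, .ofNat 92800, .ofNat 6848]),
  (6301, [.ofNat 0, .ofNat 0, .ofNat 0, .ofNat 22016, .negSucc 3711]),
  (38187, [.ofNat 0, .ofNat 0, .ofNat 0, .negSucc 3327, .ofNat 9600, .negSucc 319]),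
  (41701, [.ofNat 0, .ofNat 0, .negSucc 43327, .ofNat 12288, .negSucc 15743]),
  (41757, [.ofNat 0, .ofNat 0, .negSucc 3327, .ofNat 12928, .negSucc 575]),
  (41771, [.ofNat 0, .ofNat 0, .ofNat 45952, .negSucc 12799, .ofNat 24384]),
  (42283, [.ofNat 0, .ofNat 0, .negSucc 13823, .negSucc 3839]),
  (42661, [.ofNat 0, .ofNat 0, .ofNat 19200, .ofNat 704, .ofNat 320]),
  (42765, [.ofNat 0, .ofNat 0, .negSucc 3327, .ofNat 12928, .negSucc 575]),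
  (42781, [.ofNat 0, .negSucc 159743, .negSucc 121215, .ofNat 231616, .ofNat 87968]),
  (42789, [.ofNat 0, .ofNat 0, .negSucc 4799, .ofNat 1792, .negSucc 3551]),
  (42794, [.ofNat 0, .ofNat 0, .negSucc 38143, .negSucc 639, .negSucc 959]),
  (42795, [.ofNat 0, .ofNat 0, .ofNat 0, .ofNat 25088, .negSucc 9855, .ofNat 2816, .negSucc 1599]),
  (43101, [.ofNat 0, .ofNat 0, .negSucc 51711, .ofNat 13440, .ofNat 2336, .ofNat 320]),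
  (43115, [.ofNat 0, .ofNat 0, .ofNat 4352, .ofNat 24704, .ofNat 2240]),
  (43179, [.ofNat 0, .ofNat 0, .ofNat 28672, .ofNat 93440, .negSucc 13311]),
  (43221, [.ofNat 0, .ofNat 0, .ofNat 7168, .negSucc 17151, .ofNat 11136, .negSucc 2815, .ofNat 1600]),
  (43229, [.ofNat 0, .ofNat 0, .ofNat 20992, .negSucc 10751, .ofNat 3712]),
  (43243, [.ofNat 0, .ofNat 0, .ofNat 21504, .ofNat 12032, .ofNat 3840]),
  (43244, [.ofNat 0, .ofNat 0, .negSucc 11007, .negSucc 37503, .negSucc 4287]),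
  (43339, [.ofNat 0, .ofNat 0, .negSucc 21759, .negSucc 383, .negSucc 23263]),
  (43356, [.ofNat 0, .ofNat 0, .negSucc 3839, .negSucc 27263, .negSucc 1855]),
  (43357, [.ofNat 0, .ofNat 0, .ofNat 24832, .ofNat 53440, .negSucc 1343]),
  (49821, [.ofNat 0, .ofNat 0, .negSucc 65663, .ofNat 4928, .ofNat 5920]),
  (50269, [.ofNat 0, .ofNat 0, .negSucc 30719, .ofNat 12160, .ofNat 12960]),
  (50283, [.ofNat 0, .ofNat 0, .ofNat 11520, .ofNat 3456, .ofNat 23616, .negSucc 3135, .ofNat 1600]),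
  (50381, [.ofNat 0, .ofNat 0, .ofNat 10496, .negSucc 4991, .ofNat 1216]),
  (50389, [.ofNat 0, .ofNat 0, .ofNat 17664, .ofNat 15744, .negSucc 191]),
  (50397, [.ofNat 0, .ofNat 0, .ofNat 18432, .ofNat 6912]),
  (50412, [.ofNat 0, .ofNat 0, .ofNat 13824, .negSucc 12543, .negSucc 3071]),
  (50475, [.ofNat 0, .ofNat 0, .negSucc 31743, .negSucc 61887, .ofNat 6144]),
  (50539, [.ofNat 0, .ofNat 0, .negSucc 11263, .ofNat 3584]),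
  (51868, [.ofNat 0, .ofNat 0, .ofNat 20736, .ofNat 1536, .negSucc 4799]),
  (51869, [.ofNat 0, .ofNat 0, .ofNat 12032, .ofNat 3456, .negSucc 6399]),
  (136285, [.ofNat 0, .ofNat 0, .ofNat 192, .ofNat 960, .ofNat 13984]),
  (136421, [.ofNat 0, .ofNat 0, .ofNat 16192, .negSucc 511, .negSucc 4191]),
  (305381, [.ofNat 0, .negSucc 13311, .ofNat 23040, .ofNat 2432]),
  (305388, [.ofNat 0, .ofNat 26624, .negSucc 65535, .negSucc 4479, .ofNat 640]),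
  (312477, [.ofNat 0, .ofNat 0, .negSucc 10495, .ofNat 256]),
  (312554, [.ofNat 0, .ofNat 6656, .negSucc 17407, .ofNat 13824, .ofNat 4224]),
  (312605, [.ofNat 0, .ofNat 0, .negSucc 20991, .negSucc 2815, .ofNat 640]),
  (312669, [.ofNat 0, .negSucc 53247, .ofNat 170240, .ofNat 137920, .ofNat 59456]),
  (314027, [.ofNat 0, .ofNat 6656, .negSucc 23807, .ofNat 4736, .negSucc 1087]),
  (314131, [.ofNat 0, .ofNat 0, .negSucc 20991, .ofNat 512]),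
  (333589, [.ofNat 0, .ofNat 0, .ofNat 13312, .negSucc 24319, .negSucc 255]),
  (333981, [.ofNat 0, .ofNat 0, .negSucc 3327, .ofNat 5504]),
  (338149, [.ofNat 0, .ofNat 0, .negSucc 26879, .negSucc 1023, .ofNat 640]),
  (340765, [.ofNat 0, .ofNat 0, .ofNat 0, .ofNat 768]),
  (340780, [.ofNat 0, .ofNat 0, .ofNat 5056, .ofNat 5568, .negSucc 4735]),
  (341773, [.ofNat 0, .ofNat 0, .ofNat 0, .ofNat 768]),
  (341804, [.ofNat 0, .ofNat 0, .ofNat 6656, .negSucc 19455, .ofNat 1280]),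
  (342252, [.ofNat 0, .ofNat 0, .negSucc 20991, .negSucc 37823, .ofNat 5056]),
  (342379, [.ofNat 0, .ofNat 0, .ofNat 0, .ofNat 8960, .negSucc 3135, .ofNat 1600]),
  (344733, [.ofNat 0, .ofNat 0, .negSucc 10495, .ofNat 256]),
  (344810, [.ofNat 0, .ofNat 6656, .negSucc 17407, .ofNat 13824, .ofNat 4224]),
  (344931, [.ofNat 0, .ofNat 0, .ofNat 0, .ofNat 2560, .negSucc 1791]),
  (345443, [.ofNat 0, .negSucc 53247, .negSucc 123903, .ofNat 88576, .ofNat 36928]),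
  (345869, [.ofNat 0, .negSucc 53247, .ofNat 149248, .ofNat 135104, .ofNat 60096]),
  (346325, [.ofNat 0, .ofNat 0, .ofNat 0, .negSucc 8959, .ofNat 3136, .negSucc 1599]),
  (346346, [.ofNat 0, .ofNat 0, .ofNat 0, .negSucc 20735, .negSucc 17663, .ofNat 64]),
  (346451, [.ofNat 0, .ofNat 0, .ofNat 0, .negSucc 8959, .ofNat 3136, .negSucc 1599]),
  (346723, [.ofNat 0, .ofNat 0, .negSucc 4351, .negSucc 24703, .negSucc 2239]),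
  (346851, [.ofNat 0, .ofNat 0, .ofNat 4992, .negSucc 4607, .negSucc 11423]),
  (346858, [.ofNat 0, .negSucc 6655, .negSucc 32511, .ofNat 44032, .negSucc 21247, .negSucc 1279]),
  (346891, [.ofNat 0, .ofNat 0, .negSucc 22591, .ofNat 25536, .negSucc 6015]),
  (398621, [.ofNat 0, .ofNat 0, .negSucc 23295, .ofNat 24448, .ofNat 7552]),
  (398635, [.ofNat 0, .ofNat 0, .ofNat 40064, .ofNat 32192, .negSucc 16863]),
  (402077, [.ofNat 0, .ofNat 0, .negSucc 3327, .ofNat 5504]),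
  (402275, [.ofNat 0, .ofNat 26624, .negSucc 45311, .negSucc 82751, .negSucc 15679, .ofNat 1280]),
  (402283, [.ofNat 0, .ofNat 0, .ofNat 0, .ofNat 20736, .ofNat 17664, .negSucc 63]),
  (403180, [.ofNat 0, .ofNat 0, .ofNat 3328, .negSucc 1535]),
  (403221, [.ofNat 0, .ofNat 0, .ofNat 0, .ofNat 2560, .negSucc 1791]),
  (403229, [.ofNat 0, .ofNat 0, .negSucc 27903, .ofNat 1408, .negSucc 1983]),
  (403242, [.ofNat 0, .ofNat 0, .negSucc 4351, .negSucc 24703, .negSucc 2239]),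
  (403243, [.ofNat 0, .negSucc 26623, .ofNat 85760, .negSucc 9919, .negSucc 11071, .ofNat 64]),
  (403306, [.ofNat 0, .ofNat 0, .ofNat 0, .ofNat 8960, .negSucc 3135, .ofNat 1600]),
  (403661, [.ofNat 0, .negSucc 53247, .ofNat 142336, .ofNat 133568, .ofNat 60224]),
  (403669, [.ofNat 0, .ofNat 53248, .ofNat 81792, .negSucc 27007, .negSucc 20223]),
  (403677, [.ofNat 0, .negSucc 26623, .ofNat 38400, .ofNat 84096, .ofNat 26816]),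
  (404125, [.ofNat 0, .ofNat 0, .negSucc 14079, .ofNat 1024, .ofNat 384]),
  (404173, [.ofNat 0, .ofNat 0, .negSucc 17663, .ofNat 14464, .ofNat 10432, .negSucc 63]),
  (404188, [.ofNat 0, .ofNat 0, .ofNat 768, .negSucc 1599]),
  (1090205, [.ofNat 0, .ofNat 0, .negSucc 13311, .ofNat 24320, .ofNat 256]),
  (1091741, [.ofNat 0, .ofNat 0, .negSucc 23295, .ofNat 24448, .ofNat 7552]),
  (1091789, [.ofNat 0, .ofNat 53248, .ofNat 96000, .negSucc 87167, .negSucc 38911]),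
  (2444075, [.ofNat 0, .ofNat 0, .ofNat 3328, .negSucc 9599, .ofNat 320]),
  (2500395, [.ofNat 0, .ofNat 0, .ofNat 8960, .ofNat 4608, .negSucc 319]),
  (2508010, [.ofNat 0, .ofNat 0, .ofNat 8960, .ofNat 4608, .negSucc 319]),
  (2672285, [.ofNat 0, .ofNat 0, .ofNat 0, .negSucc 1279]),
  (2672299, [.ofNat 0, .ofNat 0, .negSucc 11087, .negSucc 15327, .ofNat 2032]),
  (2729741, [.ofNat 0, .ofNat 0, .ofNat 0, .negSucc 1279]),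
  (2736811, [.ofNat 0, .ofNat 0, .negSucc 11087, .negSucc 16607, .ofNat 2032]),
  (2759516, [.ofNat 0, .ofNat 0, .ofNat 9984, .negSucc 1855, .ofNat 448]),
  (2762987, [.ofNat 0, .ofNat 0, .negSucc 13823, .ofNat 6912]),
  (2767082, [.ofNat 0, .ofNat 0, .negSucc 13823, .ofNat 6912]),
  (2769757, [.ofNat 0, .ofNat 0, .negSucc 9983, .ofNat 1856, .negSucc 447]),
  (2770666, [.ofNat 0, .ofNat 0, .ofNat 8960, .ofNat 4608, .negSucc 319]),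
  (2774243, [.ofNat 0, .ofNat 0, .negSucc 27647, .ofNat 2176, .ofNat 320])]

/-- data -/
def lE17x1 : List (ℕ × List ℤ) := [(2775133, [.ofNat 0, .ofNat 0, .negSucc 3327, .ofNat 9600, .negSucc 319]),
  (3188523, [.ofNat 0, .ofNat 0, .negSucc 27647, .ofNat 2176, .ofNat 320]),
  (3189460, [.ofNat 0, .ofNat 0, .negSucc 27647, .ofNat 2176, .ofNat 320]),
  (3196138, [.ofNat 0, .ofNat 0, .negSucc 41471, .ofNat 9088, .ofNat 320]),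
  (3218219, [.ofNat 0, .ofNat 0, .ofNat 3328, .negSucc 9599, .ofNat 320]),
  (3222221, [.ofNat 0, .ofNat 0, .negSucc 8959, .negSucc 4607, .ofNat 320]),
  (3226345, [.ofNat 0, .ofNat 0, .ofNat 13824, .negSucc 6911]),
  (3319581, [.ofNat 0, .ofNat 0, .negSucc 9983, .ofNat 11392, .ofNat 2112]),
  (3319644, [.ofNat 0, .ofNat 0, .ofNat 9984, .negSucc 11391, .negSucc 2111]),
  (19998507, [.ofNat 0, .ofNat 0, .negSucc 5631]),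
  (21350571, [.ofNat 0, .ofNat 0, .ofNat 11776, .ofNat 13056, .ofNat 256]),
  (21632811, [.ofNat 0, .ofNat 0, .ofNat 2816]),
  (21639979, [.ofNat 0, .ofNat 0, .ofNat 2816]),
  (21903973, [.ofNat 0, .ofNat 0, .negSucc 2431, .negSucc 351]),
  (21904141, [.ofNat 0, .ofNat 0, .negSucc 2431, .negSucc 351]),
  (21911141, [.ofNat 0, .ofNat 0, .negSucc 2431]),
  (21911645, [.ofNat 0, .ofNat 0, .negSucc 2431]),
  (22072042, [.ofNat 0, .ofNat 13312, .negSucc 37631, .negSucc 5183, .ofNat 640]),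
  (22075036, [.ofNat 0, .ofNat 0, .negSucc 3583, .ofNat 1376, .negSucc 223]),
  (22124204, [.ofNat 0, .ofNat 0, .ofNat 13376, .negSucc 25663, .negSucc 9695]),
  (22128460, [.ofNat 0, .ofNat 0, .negSucc 3583, .ofNat 1376, .negSucc 223]),
  (22137578, [.ofNat 0, .ofNat 13312, .negSucc 37631, .negSucc 5183, .ofNat 640]),
  (22139628, [.ofNat 0, .ofNat 0, .negSucc 767, .ofNat 2304]),
  (22140524, [.ofNat 0, .ofNat 0, .negSucc 767, .ofNat 2304]),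
  (22193756, [.ofNat 0, .ofNat 0, .ofNat 13376, .negSucc 25663, .negSucc 9695]),
  (25508074, [.ofNat 0, .ofNat 0, .ofNat 2816, .negSucc 895]),
  (25508581, [.ofNat 0, .ofNat 0, .negSucc 2431, .negSucc 351]),
  (25508637, [.ofNat 0, .ofNat 0, .negSucc 2431, .negSucc 351]),
  (25732907, [.ofNat 0, .ofNat 0, .ofNat 11776, .ofNat 13056, .ofNat 256]),
  (25744739, [.ofNat 0, .negSucc 13311, .ofNat 37632, .ofNat 5184, .negSucc 639]),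
  (25745251, [.ofNat 0, .negSucc 13311, .ofNat 37632, .ofNat 5184, .negSucc 639]),
  (25777869, [.ofNat 0, .ofNat 0, .ofNat 5632]),
  (25794731, [.ofNat 0, .ofNat 0, .ofNat 2816, .negSucc 895]),
  (25797483, [.ofNat 0, .ofNat 0, .negSucc 11775, .negSucc 13055, .negSucc 255]),
  (25803349, [.ofNat 0, .ofNat 0, .negSucc 2815]),
  (25803405, [.ofNat 0, .ofNat 0, .negSucc 2815]),
  (25809644, [.ofNat 0, .ofNat 0, .negSucc 767, .ofNat 2304]),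
  (25810021, [.ofNat 0, .ofNat 0, .negSucc 2431]),
  (25810540, [.ofNat 0, .ofNat 0, .negSucc 767, .ofNat 2304]),
  (25811029, [.ofNat 0, .ofNat 0, .negSucc 2431]),
  (25867469, [.ofNat 0, .ofNat 0, .negSucc 11775, .negSucc 13055, .negSucc 255]),
  (155830124, [.negSucc 13311, .negSucc 8575, .negSucc 38975, .ofNat 24256]),
  (155831132, [.negSucc 13311, .negSucc 8575, .negSucc 38975, .ofNat 24256]),
  (156121765, [.negSucc 13311, .ofNat 23040, .ofNat 2432]),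
  (156128933, [.negSucc 13311, .ofNat 23040, .ofNat 2432]),
  (156128940, [.ofNat 13312, .negSucc 23039, .negSucc 2431]),
  (156355229, [.ofNat 6656, .negSucc 11519, .negSucc 1215]),
  (156355285, [.ofNat 6656, .negSucc 11519, .negSucc 1215]),
  (156357868, [.negSucc 13311, .ofNat 32768, .ofNat 2240, .negSucc 319]),
  (156358316, [.ofNat 0, .ofNat 9728, .negSucc 191, .negSucc 319]),
  (159988061, [.ofNat 0, .ofNat 5504, .ofNat 11392, .ofNat 1408]),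
  (159988509, [.ofNat 0, .ofNat 5504, .ofNat 11392, .ofNat 1408]),
  (160023901, [.ofNat 26624, .negSucc 85119, .negSucc 68959, .negSucc 29727]),
  (160025259, [.negSucc 3327, .ofNat 11904, .negSucc 2367, .ofNat 544]),
  (160025322, [.negSucc 33279, .negSucc 41343, .ofNat 35008, .ofNat 16896]),
  (160028458, [.ofNat 26624, .ofNat 61952, .negSucc 44287, .negSucc 18463]),
  (160028906, [.negSucc 3327, .ofNat 8704, .negSucc 6911, .negSucc 2111]),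
  (160053917, [.ofNat 0, .ofNat 10496, .ofNat 1408, .negSucc 319]),
  (160053973, [.ofNat 26624, .negSucc 74623, .negSucc 67551, .negSucc 30047]),
  (160089813, [.ofNat 0, .negSucc 255, .negSucc 11519, .negSucc 1407]),
  (160090835, [.ofNat 0, .ofNat 1664, .negSucc 127, .negSucc 607]),
  (160777941, [.ofNat 0, .negSucc 255, .negSucc 11519, .negSucc 1407]),
  (160835411, [.ofNat 0, .ofNat 10496, .negSucc 255]),
  (160836307, [.ofNat 0, .ofNat 8832, .negSucc 127, .ofNat 608]),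
  (170539819, [.ofNat 0, .ofNat 0, .negSucc 1279]),
  (170797853, [.ofNat 0, .negSucc 19071, .negSucc 319, .negSucc 479]),
  (170801829, [.ofNat 0, .ofNat 19072, .ofNat 320, .ofNat 480]),
  (170808556, [.ofNat 0, .negSucc 4191, .negSucc 447, .ofNat 7616]),
  (170808997, [.ofNat 0, .ofNat 2592, .negSucc 6463, .ofNat 7392]),
  (170809501, [.ofNat 0, .ofNat 2592, .negSucc 6463, .ofNat 7392]),
  (170998571, [.ofNat 0, .negSucc 831, .ofNat 2080, .negSucc 79]),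
  (171026781, [.ofNat 0, .negSucc 14591, .ofNat 8096, .negSucc 2879]),
  (171027173, [.ofNat 0, .ofNat 1664, .negSucc 6463, .ofNat 928]),
  (171027243, [.ofNat 0, .ofNat 11088, .ofNat 15328, .negSucc 2031]),
  (171037925, [.ofNat 0, .ofNat 1664, .negSucc 6463, .ofNat 928]),
  (171038373, [.ofNat 0, .ofNat 41344, .ofNat 11616, .negSucc 5503]),
  (171038380, [.ofNat 0, .ofNat 26752, .ofNat 19712, .negSucc 8383]),
  (171038933, [.ofNat 0, .ofNat 1664, .negSucc 6463, .ofNat 928]),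
  (171091741, [.ofNat 0, .negSucc 9247, .ofNat 17712, .ofNat 3976]),
  (171091804, [.ofNat 0, .ofNat 6272, .ofNat 23552, .negSucc 2111]),
  (171092203, [.ofNat 0, .negSucc 1663, .ofNat 4288, .negSucc 607]),
  (171095395, [.ofNat 0, .negSucc 831, .ofNat 2080, .negSucc 79]),
  (171096235, [.ofNat 0, .negSucc 22143, .ofNat 4320, .negSucc 12111]),
  (171096739, [.ofNat 0, .negSucc 11263, .ofNat 4512, .negSucc 479]),
  (172905308, [.ofNat 0, .ofNat 6912, .negSucc 1407]),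
  (172905315, [.ofNat 0, .negSucc 12415, .negSucc 15007, .negSucc 12799]),
  (173063004, [.ofNat 0, .ofNat 14720, .negSucc 4639, .negSucc 2527]),
  (173071068, [.ofNat 0, .ofNat 14720, .negSucc 4639, .negSucc 2527]),
  (173128524, [.ofNat 0, .negSucc 767, .ofNat 1600]),
  (173132381, [.ofNat 0, .ofNat 13440, .ofNat 512, .negSucc 319]),
  (173132493, [.ofNat 0, .ofNat 13440, .ofNat 512, .negSucc 319]),
  (173136588, [.ofNat 0, .ofNat 14720, .negSucc 4639, .negSucc 2527]),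
  (174467820, [.ofNat 0, .negSucc 8831, .ofNat 1600, .negSucc 1567]),
  (174478572, [.ofNat 0, .negSucc 2527, .negSucc 5311, .ofNat 7936]),
  (174725861, [.ofNat 0, .negSucc 10495, .ofNat 6464, .negSucc 1887]),
  (174725917, [.ofNat 0, .negSucc 15487, .ofNat 5120, .ofNat 2304]),
  (174725980, [.ofNat 0, .ofNat 11904, .negSucc 3743, .negSucc 2527]),
  (174732133, [.ofNat 0, .ofNat 1664, .negSucc 6127, .ofNat 3104]),
  (174736221, [.ofNat 0, .ofNat 3584, .negSucc 1375, .ofNat 224]),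
  (174900588, [.ofNat 0, .ofNat 22560, .negSucc 55599, .ofNat 19568])]

/-- data -/
def lE17x2 : List (ℕ × List ℤ) := [(174902100, [.ofNat 0, .ofNat 22560, .negSucc 55599, .ofNat 19568]),
  (174988130, [.ofNat 13312, .ofNat 31136, .negSucc 16623, .negSucc 4687]),
  (175002466, [.ofNat 0, .negSucc 5887, .negSucc 5919, .negSucc 3423]),
  (175004258, [.ofNat 13312, .ofNat 31136, .negSucc 16623, .negSucc 4687]),
  (175156011, [.ofNat 0, .ofNat 9632, .negSucc 8607, .ofNat 2848]),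
  (175156060, [.ofNat 0, .ofNat 3200, .ofNat 4512, .ofNat 64]),
  (175160148, [.ofNat 0, .ofNat 18688, .negSucc 1727, .negSucc 2463]),
  (175163242, [.ofNat 0, .ofNat 2816, .negSucc 895]),
  (175164061, [.ofNat 0, .negSucc 6463, .ofNat 864, .ofNat 1600]),
  (175164117, [.ofNat 0, .negSucc 6463, .ofNat 864, .ofNat 1600]),
  (175166700, [.ofNat 0, .ofNat 10496, .negSucc 6463, .ofNat 1888]),
  (175167274, [.ofNat 0, .ofNat 19072, .ofNat 320, .ofNat 480]),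
  (175167701, [.ofNat 0, .ofNat 1664, .negSucc 6463, .ofNat 928]),
  (175168156, [.ofNat 0, .ofNat 2816, .ofNat 896]),
  (175168212, [.ofNat 0, .ofNat 15488, .negSucc 6239, .negSucc 2527]),
  (175168226, [.ofNat 0, .ofNat 2816, .negSucc 895]),
  (175184683, [.ofNat 0, .negSucc 1455, .negSucc 25215, .ofNat 4880]),
  (175190885, [.ofNat 0, .ofNat 2528, .ofNat 2784, .negSucc 2367]),
  (175198949, [.ofNat 0, .ofNat 8832, .negSucc 1599, .ofNat 1568]),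
  (175200363, [.ofNat 0, .negSucc 1663, .ofNat 2880, .ofNat 480]),
  (175200587, [.ofNat 0, .negSucc 6303, .ofNat 4176, .negSucc 5759]),
  (175200972, [.ofNat 0, .ofNat 18688, .negSucc 1727, .negSucc 2463]),
  (175221349, [.ofNat 0, .negSucc 1663, .ofNat 6464, .negSucc 927]),
  (175231653, [.ofNat 0, .negSucc 26751, .negSucc 19711, .ofNat 8384]),
  (175231660, [.ofNat 0, .negSucc 16255, .negSucc 799, .ofNat 5856]),
  (175231786, [.ofNat 0, .ofNat 19072, .ofNat 320, .ofNat 480]),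
  (175232101, [.ofNat 0, .ofNat 8256, .ofNat 2080, .negSucc 2143]),
  (175232108, [.ofNat 0, .ofNat 10496, .ofNat 18912, .negSucc 2527]),
  (175233109, [.ofNat 0, .ofNat 9920, .negSucc 4383, .negSucc 1215]),
  (175233676, [.ofNat 0, .ofNat 3200, .ofNat 4512, .ofNat 64]),
  (175250077, [.ofNat 0, .negSucc 18303, .ofNat 4224, .ofNat 2304]),
  (175258218, [.ofNat 0, .ofNat 8832, .negSucc 1855, .ofNat 1888]),
  (175281451, [.ofNat 0, .negSucc 831, .ofNat 2080, .negSucc 79]),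
  (175281507, [.ofNat 0, .negSucc 831, .ofNat 2080, .negSucc 79]),
  (175281829, [.ofNat 0, .negSucc 1567, .ofNat 992, .ofNat 7312]),
  (175282333, [.ofNat 0, .negSucc 3327, .negSucc 3903, .ofNat 3232]),
  (175282347, [.ofNat 0, .ofNat 1664, .negSucc 2879, .negSucc 479]),
  (175282389, [.ofNat 0, .ofNat 1664, .negSucc 6463, .ofNat 928]),
  (175282844, [.ofNat 0, .ofNat 1664, .negSucc 6463, .ofNat 928]),
  (175282900, [.ofNat 0, .ofNat 1664, .negSucc 6463, .ofNat 928]),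
  (175282914, [.ofNat 0, .ofNat 8832, .negSucc 1855, .ofNat 1888]),
  (175285861, [.ofNat 0, .ofNat 960, .ofNat 6304, .negSucc 623]),
  (175286365, [.ofNat 0, .ofNat 10496, .negSucc 2559]),
  (175288997, [.ofNat 0, .negSucc 2527, .negSucc 5311, .ofNat 7936]),
  (175289109, [.ofNat 0, .ofNat 4608, .negSucc 8479, .negSucc 3423]),
  (175289613, [.ofNat 0, .ofNat 10496, .negSucc 2559]),
  (175293099, [.ofNat 0, .ofNat 1456, .ofNat 25216, .negSucc 4879]),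
  (175293141, [.ofNat 0, .ofNat 960, .ofNat 6304, .negSucc 623]),
  (175293533, [.ofNat 0, .negSucc 2527, .negSucc 5311, .ofNat 7936]),
  (175293547, [.ofNat 0, .negSucc 207, .ofNat 29376, .negSucc 5039]),
  (175293645, [.ofNat 0, .negSucc 1567, .ofNat 992, .ofNat 7312]),
  (175293771, [.ofNat 0, .negSucc 1663, .ofNat 128, .ofNat 608]),
  (176502629, [.ofNat 0, .ofNat 3328, .negSucc 9727, .ofNat 640]),
  (176503133, [.ofNat 0, .negSucc 6911, .negSucc 15327, .ofNat 2080]),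
  (176510763, [.ofNat 0, .negSucc 5503, .negSucc 6591, .negSucc 159]),
  (176532253, [.ofNat 0, .ofNat 1664, .negSucc 1791, .negSucc 447]),
  (176540394, [.negSucc 26623, .negSucc 50303, .ofNat 52992, .ofNat 32160]),
  (176542949, [.ofNat 0, .ofNat 5248, .ofNat 512, .ofNat 256]),
  (176543397, [.ofNat 0, .ofNat 20608, .negSucc 5567, .negSucc 6223]),
  (176543901, [.ofNat 0, .ofNat 20608, .negSucc 5567, .negSucc 6223]),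
  (176543957, [.ofNat 0, .ofNat 6912, .negSucc 3647, .ofNat 416]),
  (176543978, [.negSucc 3327, .ofNat 8704, .negSucc 6911, .negSucc 1791]),
  (176544083, [.ofNat 0, .negSucc 1663, .ofNat 4304, .ofNat 2304]),
  (176569178, [.ofNat 0, .negSucc 8831, .ofNat 1856, .negSucc 1887]),
  (176596765, [.ofNat 39936, .ofNat 21376, .negSucc 54207, .negSucc 18431]),
  (176596828, [.negSucc 39935, .negSucc 21375, .ofNat 54208, .ofNat 18432]),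
  (176600412, [.ofNat 0, .ofNat 0, .ofNat 1280, .negSucc 895]),
  (176601301, [.ofNat 0, .negSucc 5247, .negSucc 1087, .negSucc 159]),
  (176601427, [.ofNat 0, .negSucc 7423, .negSucc 13055, .negSucc 959]),
  (176601756, [.ofNat 13312, .ofNat 20448, .negSucc 6111, .negSucc 5503]),
  (176601875, [.ofNat 0, .negSucc 3839, .negSucc 9471, .negSucc 639]),
  (176604843, [.ofNat 0, .ofNat 1664, .negSucc 2879, .negSucc 479]),
  (176608483, [.ofNat 0, .negSucc 2815, .ofNat 896]),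
  (176740188, [.ofNat 0, .negSucc 16703, .ofNat 4448, .ofNat 3456]),
  (176804651, [.ofNat 0, .ofNat 3840, .ofNat 9472, .ofNat 640]),
  (176804700, [.ofNat 0, .ofNat 50592, .ofNat 21760, .ofNat 18048]),
  (176805995, [.ofNat 0, .negSucc 4735, .ofNat 15808, .ofNat 480]),
  (176855261, [.ofNat 13312, .negSucc 12799, .negSucc 39487, .negSucc 13407]),
  (176862051, [.ofNat 0, .negSucc 3231, .negSucc 29967, .negSucc 13911]),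
  (176863325, [.ofNat 13312, .ofNat 83584, .negSucc 14431, .negSucc 21679]),
  (176863563, [.ofNat 0, .ofNat 7648, .negSucc 29775, .negSucc 2279]),
  (176870115, [.ofNat 0, .negSucc 2815, .ofNat 896]),
  (176990060, [.ofNat 0, .negSucc 2399, .ofNat 896, .negSucc 1775]),
  (176990949, [.ofNat 0, .negSucc 12415, .negSucc 12479, .negSucc 607]),
  (176993644, [.ofNat 0, .negSucc 15775, .ofNat 26560, .ofNat 7920]),
  (176995114, [.ofNat 0, .ofNat 0, .negSucc 1279]),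
  (176997739, [.ofNat 0, .negSucc 15487, .ofNat 5120, .ofNat 2304]),
  (176999146, [.ofNat 3328, .ofNat 2944, .ofNat 15616, .ofNat 15808]),
  (177002730, [.ofNat 0, .ofNat 0, .ofNat 0, .ofNat 320]),
  (177019229, [.ofNat 0, .negSucc 12415, .negSucc 26719, .ofNat 672]),
  (177019677, [.ofNat 0, .ofNat 5248, .ofNat 2880, .negSucc 351]),
  (177025893, [.ofNat 0, .ofNat 2528, .ofNat 4048, .negSucc 5151]),
  (177027692, [.ofNat 0, .ofNat 50592, .ofNat 21760, .ofNat 18048]),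
  (177027916, [.ofNat 0, .ofNat 3584, .negSucc 1375, .ofNat 224]),
  (177033964, [.ofNat 0, .negSucc 6783, .negSucc 1247]),
  (177034027, [.ofNat 0, .ofNat 13824, .negSucc 2239, .negSucc 1823]),
  (177034076, [.negSucc 13311, .ofNat 24832, .ofNat 44704, .ofNat 16832]),
  (177034083, [.ofNat 0, .negSucc 511, .negSucc 7135, .negSucc 9375]),
  (177035595, [.ofNat 0, .negSucc 7967, .ofNat 4304, .negSucc 5151]),
  (177066836, [.negSucc 13311, .ofNat 12800, .ofNat 39488, .ofNat 13408])]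

/-- data -/
def lE17x3 : List (ℕ × List ℤ) := [(177085085, [.ofNat 13312, .ofNat 16992, .negSucc 8159, .negSucc 4543]),
  (177085141, [.ofNat 13312, .ofNat 16992, .negSucc 8159, .negSucc 4543]),
  (177085267, [.ofNat 0, .ofNat 2816, .negSucc 895]),
  (177089355, [.ofNat 0, .ofNat 2816, .negSucc 895]),
  (177116396, [.ofNat 0, .ofNat 8448, .negSucc 6527, .negSucc 1311]),
  (177116515, [.ofNat 0, .ofNat 2496, .ofNat 4224, .negSucc 7887]),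
  (177117397, [.ofNat 0, .negSucc 5247, .negSucc 1535, .negSucc 319]),
  (177117523, [.ofNat 0, .negSucc 15743, .ofNat 5312, .negSucc 1887]),
  (177117852, [.negSucc 13311, .ofNat 12800, .ofNat 39744, .ofNat 13088]),
  (177117908, [.ofNat 0, .ofNat 50592, .ofNat 21760, .ofNat 18048]),
  (177120043, [.ofNat 0, .negSucc 5503, .negSucc 6591, .negSucc 159]),
  (177120099, [.ofNat 0, .ofNat 320, .negSucc 8127, .negSucc 9007]),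
  (177121611, [.ofNat 0, .ofNat 10880, .ofNat 192, .ofNat 11632]),
  (177121884, [.ofNat 13312, .ofNat 100288, .negSucc 18879, .negSucc 25135]),
  (177124460, [.ofNat 0, .negSucc 8255, .negSucc 2079, .ofNat 2144]),
  (177128093, [.ofNat 0, .negSucc 3583, .negSucc 6015, .negSucc 1407]),
  (177132314, [.ofNat 0, .negSucc 15487, .ofNat 5120, .ofNat 2304]),
  (177264285, [.ofNat 0, .ofNat 3584, .negSucc 1375, .ofNat 224]),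
  (177314461, [.negSucc 26623, .ofNat 183232, .ofNat 118784, .ofNat 51008]),
  (177314517, [.negSucc 26623, .ofNat 183232, .ofNat 118784, .ofNat 51008]),
  (177514269, [.ofNat 0, .ofNat 16704, .ofNat 15968, .negSucc 4271]),
  (177514717, [.ofNat 0, .negSucc 10495, .ofNat 5376, .negSucc 1855]),
  (177515235, [.ofNat 0, .ofNat 0, .ofNat 6528, .negSucc 2175]),
  (177517797, [.ofNat 0, .ofNat 4192, .ofNat 448, .negSucc 7615]),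
  (177518357, [.ofNat 0, .ofNat 5248, .negSucc 127]),
  (177518434, [.ofNat 0, .negSucc 6911, .ofNat 896]),
  (177518763, [.negSucc 3327, .ofNat 8704, .negSucc 6911, .negSucc 1791]),
  (177518826, [.ofNat 0, .negSucc 8415, .ofNat 7440, .ofNat 17560]),
  (177519330, [.ofNat 0, .ofNat 2688, .ofNat 24192, .negSucc 3327]),
  (177521885, [.ofNat 0, .negSucc 1151, .negSucc 767]),
  (177521899, [.ofNat 0, .ofNat 4736, .negSucc 15807, .negSucc 479]),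
  (177522333, [.ofNat 0, .negSucc 72543, .negSucc 7615, .negSucc 22527]),
  (177522347, [.ofNat 0, .negSucc 1663, .ofNat 2880, .ofNat 480]),
  (177522389, [.ofNat 0, .ofNat 5248, .negSucc 127]),
  (177526428, [.ofNat 0, .negSucc 7359, .ofNat 6048, .negSucc 1599]),
  (177526435, [.ofNat 0, .negSucc 3839, .negSucc 9471, .negSucc 639]),
  (177542941, [.ofNat 0, .ofNat 12416, .ofNat 12480, .ofNat 608]),
  (177543004, [.ofNat 0, .negSucc 5247, .ofNat 576, .ofNat 160]),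
  (177543389, [.ofNat 0, .negSucc 2431, .ofNat 4384, .ofNat 128]),
  (177543907, [.ofNat 0, .ofNat 0, .ofNat 6528, .negSucc 2175]),
  (177550109, [.ofNat 0, .ofNat 1664, .negSucc 2175, .negSucc 447]),
  (177550172, [.ofNat 0, .ofNat 5888, .ofNat 6304, .ofNat 3424]),
  (177551117, [.ofNat 0, .ofNat 5248, .negSucc 511]),
  (177551180, [.ofNat 0, .ofNat 0, .ofNat 384]),
  (177551453, [.ofNat 0, .ofNat 9984, .ofNat 18240, .ofNat 2688]),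
  (177551467, [.ofNat 0, .negSucc 3839, .negSucc 9471, .negSucc 639]),
  (177551971, [.ofNat 0, .ofNat 2176, .ofNat 12352, .ofNat 1120]),
  (177554155, [.negSucc 3327, .ofNat 8704, .negSucc 6911, .negSucc 1791]),
  (177555051, [.negSucc 3327, .ofNat 8704, .negSucc 6911, .negSucc 1791]),
  (177555149, [.ofNat 0, .ofNat 5248, .negSucc 127]),
  (177575260, [.ofNat 0, .negSucc 5247, .ofNat 576, .ofNat 160]),
  (177576107, [.negSucc 3327, .negSucc 127, .negSucc 5055, .negSucc 3679]),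
  (177576149, [.ofNat 0, .ofNat 11648, .ofNat 13376, .ofNat 3008]),
  (177576170, [.ofNat 0, .ofNat 0, .ofNat 0, .ofNat 320]),
  (177576604, [.ofNat 0, .ofNat 0, .ofNat 704, .negSucc 159]),
  (177576730, [.ofNat 0, .ofNat 1664, .negSucc 4159, .ofNat 160]),
  (177578725, [.ofNat 0, .negSucc 16607, .negSucc 14303, .ofNat 5056]),
  (177578781, [.ofNat 0, .negSucc 5503, .negSucc 11391, .negSucc 1407]),
  (177578844, [.ofNat 0, .ofNat 8448, .negSucc 6527, .negSucc 1311]),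
  (177580643, [.ofNat 0, .ofNat 10496, .negSucc 6015, .ofNat 2048]),
  (177584213, [.ofNat 0, .negSucc 2431, .ofNat 4384, .ofNat 128]),
  (177586845, [.ofNat 0, .negSucc 3583, .negSucc 6015, .negSucc 1407]),
  (177587307, [.ofNat 0, .ofNat 8576, .negSucc 6335, .ofNat 160]),
  (177608363, [.ofNat 0, .ofNat 3328, .negSucc 8463, .negSucc 2143]),
  (177615517, [.ofNat 0, .negSucc 16607, .negSucc 14303, .ofNat 5056]),
  (177615965, [.ofNat 0, .negSucc 4191, .negSucc 447, .ofNat 7616]),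
  (177645148, [.ofNat 0, .negSucc 13375, .ofNat 25664, .ofNat 9696]),
  (204028701, [.negSucc 13311, .ofNat 33728, .ofNat 47328, .ofNat 11136]),
  (204028715, [.negSucc 26623, .ofNat 41216, .ofNat 82464, .ofNat 9472]),
  (204056925, [.ofNat 0, .ofNat 27648, .negSucc 7231, .negSucc 5167]),
  (204064618, [.ofNat 0, .negSucc 2815, .ofNat 896]),
  (204065493, [.ofNat 0, .ofNat 9920, .negSucc 799, .negSucc 1983]),
  (204068069, [.ofNat 0, .ofNat 11712, .ofNat 2144, .negSucc 2527]),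
  (204068139, [.ofNat 0, .negSucc 21951, .negSucc 29727, .ofNat 10960]),
  (204068524, [.ofNat 0, .ofNat 27712, .ofNat 25248, .negSucc 8143]),
  (204069021, [.ofNat 0, .ofNat 8704, .negSucc 8319, .ofNat 2400]),
  (204069035, [.ofNat 0, .negSucc 1535, .negSucc 8575, .ofNat 10704]),
  (204069077, [.ofNat 0, .ofNat 9920, .negSucc 799, .negSucc 1983]),
  (204094109, [.ofNat 0, .ofNat 6912, .negSucc 639]),
  (204094165, [.ofNat 0, .negSucc 1599, .negSucc 45343, .ofNat 6512]),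
  (204101291, [.ofNat 0, .ofNat 256, .ofNat 16512, .negSucc 2047]),
  (204125483, [.ofNat 0, .ofNat 896, .negSucc 10175, .negSucc 2095]),
  (204126365, [.ofNat 0, .negSucc 4735, .ofNat 11584, .ofNat 3776]),
  (204129949, [.ofNat 0, .negSucc 53919, .negSucc 11327, .negSucc 18719]),
  (204129963, [.ofNat 0, .negSucc 6911, .ofNat 3456]),
  (204552938, [.ofNat 0, .ofNat 13824, .negSucc 6911]),
  (204813611, [.ofNat 0, .ofNat 11392, .ofNat 16832, .ofNat 12144]),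
  (204813667, [.ofNat 0, .ofNat 8576, .negSucc 6335, .ofNat 160]),
  (204818077, [.ofNat 0, .ofNat 0, .negSucc 383, .negSucc 319]),
  (205862757, [.ofNat 0, .ofNat 3328, .negSucc 9727, .ofNat 640]),
  (205892395, [.ofNat 13312, .ofNat 9440, .ofNat 121312, .ofNat 160]),
  (205900459, [.ofNat 0, .negSucc 15871, .negSucc 30943, .ofNat 3072]),
  (205900522, [.ofNat 0, .negSucc 15871, .negSucc 30943, .ofNat 3072]),
  (205903525, [.ofNat 0, .ofNat 15360, .negSucc 6079, .negSucc 6479]),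
  (205903658, [.negSucc 26623, .negSucc 61951, .ofNat 44288, .ofNat 18464]),
  (205904029, [.ofNat 0, .negSucc 1791, .negSucc 4223, .ofNat 544]),
  (205904106, [.ofNat 0, .negSucc 127, .ofNat 11456, .negSucc 10223]),
  (205928277, [.negSucc 13311, .ofNat 12800, .ofNat 39488, .ofNat 13408]),
  (205929173, [.ofNat 0, .negSucc 13247, .negSucc 33119, .ofNat 10288]),
  (205935837, [.ofNat 0, .negSucc 8063, .ofNat 128])]

/-- data -/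
def lE17x4 : List (ℕ × List ℤ) := [(205956893, [.ofNat 26624, .ofNat 50816, .negSucc 82687, .negSucc 4063]),
  (205956907, [.ofNat 0, .negSucc 10239, .ofNat 11904, .negSucc 1727]),
  (205956963, [.negSucc 13311, .ofNat 35968, .ofNat 5024, .ofNat 1760]),
  (205960428, [.ofNat 0, .negSucc 1663, .ofNat 6464, .negSucc 927]),
  (205960491, [.ofNat 0, .ofNat 3072, .negSucc 12927, .negSucc 639]),
  (205960540, [.ofNat 0, .ofNat 0, .ofNat 1280, .negSucc 895]),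
  (205960547, [.negSucc 13311, .ofNat 33792, .negSucc 7327, .ofNat 640]),
  (205960981, [.negSucc 13311, .ofNat 19200, .ofNat 42048, .ofNat 13408]),
  (205961884, [.ofNat 13312, .ofNat 20448, .negSucc 6111, .negSucc 5503]),
  (205961954, [.ofNat 0, .ofNat 13824, .negSucc 6911]),
  (205965013, [.ofNat 0, .ofNat 1536, .ofNat 1376]),
  (206093099, [.ofNat 0, .ofNat 5888, .ofNat 5920, .ofNat 3424]),
  (206149484, [.ofNat 0, .ofNat 960, .ofNat 5536, .ofNat 240]),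
  (206164709, [.ofNat 0, .negSucc 6783, .negSucc 1247]),
  (206164765, [.ofNat 0, .negSucc 767, .ofNat 704]),
  (206164779, [.ofNat 0, .ofNat 6016, .ofNat 1952]),
  (206351147, [.ofNat 13312, .ofNat 30368, .ofNat 99936, .ofNat 6016]),
  (206359253, [.ofNat 0, .negSucc 6463, .ofNat 864, .ofNat 1600]),
  (206362277, [.ofNat 0, .ofNat 3456, .ofNat 64, .negSucc 383]),
  (206363299, [.ofNat 0, .ofNat 2816, .negSucc 895]),
  (206388009, [.ofNat 0, .ofNat 0, .negSucc 1279]),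
  (206391901, [.ofNat 0, .negSucc 3455, .negSucc 63, .ofNat 384]),
  (206392013, [.ofNat 0, .negSucc 10495, .ofNat 5376, .negSucc 1855]),
  (206394085, [.ofNat 0, .ofNat 63264, .ofNat 2720, .ofNat 21344]),
  (206394981, [.ofNat 0, .negSucc 3583, .negSucc 6975, .ofNat 672]),
  (206395485, [.ofNat 0, .negSucc 7039, .negSucc 7039, .ofNat 1056]),
  (206395597, [.ofNat 0, .ofNat 63264, .ofNat 2720, .ofNat 21344]),
  (206412117, [.ofNat 0, .negSucc 19327, .negSucc 13599, .negSucc 12799]),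
  (206412565, [.negSucc 13311, .ofNat 22592, .ofNat 8928, .ofNat 25536]),
  (206412586, [.negSucc 26623, .ofNat 30080, .ofNat 44064, .ofNat 23872]),
  (206424661, [.ofNat 0, .ofNat 1536, .ofNat 1376]),
  (206426796, [.ofNat 0, .ofNat 5120, .ofNat 2016]),
  (206426901, [.ofNat 0, .ofNat 4864, .ofNat 1184]),
  (206426964, [.ofNat 0, .ofNat 768, .negSucc 703]),
  (206426978, [.ofNat 0, .negSucc 6015, .negSucc 1951]),
  (206427244, [.ofNat 0, .negSucc 1663, .ofNat 768]),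
  (206444373, [.ofNat 0, .negSucc 19327, .negSucc 13599, .negSucc 12799]),
  (206449357, [.ofNat 0, .ofNat 8832, .ofNat 3136, .ofNat 800]),
  (206453333, [.negSucc 26623, .negSucc 47999, .ofNat 43584, .ofNat 19456]),
  (206453389, [.negSucc 39935, .negSucc 16127, .ofNat 49152, .ofNat 20256]),
  (206459626, [.negSucc 13311, .ofNat 42880, .ofNat 5408, .ofNat 480]),
  (206460557, [.negSucc 13311, .ofNat 23040, .ofNat 2432]),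
  (206476517, [.ofNat 0, .ofNat 3456, .ofNat 64, .negSucc 383]),
  (206476587, [.ofNat 0, .ofNat 5248, .negSucc 575, .ofNat 160]),
  (206476643, [.ofNat 0, .ofNat 1664, .negSucc 2879, .ofNat 160]),
  (206476965, [.ofNat 0, .ofNat 3456, .ofNat 64, .negSucc 383]),
  (206476972, [.ofNat 0, .negSucc 1663, .ofNat 2880, .negSucc 159]),
  (206477077, [.ofNat 0, .negSucc 11135, .negSucc 38399, .ofNat 14400]),
  (206477098, [.ofNat 0, .negSucc 8319, .ofNat 18368, .negSucc 927]),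
  (206477154, [.ofNat 0, .ofNat 1664, .negSucc 2879, .ofNat 160]),
  (206477546, [.ofNat 0, .ofNat 5248, .ofNat 704, .negSucc 159]),
  (206480101, [.ofNat 0, .ofNat 6784, .ofNat 1248]),
  (206480157, [.ofNat 0, .negSucc 12031, .negSucc 5215, .negSucc 3423]),
  (206480171, [.ofNat 0, .ofNat 14784, .ofNat 33024, .negSucc 3519]),
  (206484133, [.ofNat 0, .ofNat 20608, .negSucc 5375, .negSucc 6639]),
  (206484266, [.ofNat 0, .ofNat 4736, .negSucc 15807, .negSucc 479]),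
  (206484581, [.ofNat 0, .ofNat 20608, .negSucc 5375, .negSucc 6639]),
  (206484588, [.ofNat 0, .ofNat 3328, .negSucc 9343, .ofNat 1088]),
  (206485610, [.ofNat 0, .ofNat 5248, .ofNat 704, .negSucc 159]),
  (206486114, [.ofNat 0, .ofNat 13824, .negSucc 6911]),
  (206488221, [.ofNat 0, .ofNat 18816, .negSucc 11903, .negSucc 5327]),
  (206488298, [.ofNat 0, .negSucc 2175, .negSucc 12351, .negSucc 799]),
  (206488669, [.ofNat 0, .ofNat 20608, .negSucc 5375, .negSucc 6639]),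
  (206488781, [.ofNat 0, .negSucc 8703, .ofNat 8320, .negSucc 2399]),
  (206489229, [.negSucc 13311, .ofNat 23040, .negSucc 1151, .ofNat 768]),
  (206624469, [.ofNat 0, .ofNat 4864, .ofNat 1184]),
  (206657117, [.ofNat 0, .negSucc 16703, .ofNat 4448, .ofNat 3456]),
  (206674589, [.ofNat 13312, .ofNat 20448, .negSucc 7391, .negSucc 4607]),
  (206682765, [.ofNat 13312, .negSucc 19199, .negSucc 42047, .negSucc 13407]),
  (206688981, [.negSucc 13311, .negSucc 20447, .ofNat 7392, .ofNat 4608]),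
  (206689373, [.negSucc 13311, .negSucc 100287, .ofNat 18880, .ofNat 25136]),
  (206874397, [.ofNat 66560, .ofNat 88064, .negSucc 110079, .negSucc 40671]),
  (206874460, [.negSucc 39935, .negSucc 26111, .ofNat 65792, .ofNat 22208]),
  (206875356, [.ofNat 0, .negSucc 383, .ofNat 800]),
  (206877925, [.ofNat 0, .negSucc 11263, .ofNat 4512, .negSucc 479]),
  (206877932, [.ofNat 0, .ofNat 10304, .negSucc 10047, .ofNat 240]),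
  (206877995, [.ofNat 0, .ofNat 128, .negSucc 11455, .ofNat 10224]),
  (206878373, [.ofNat 0, .ofNat 6016, .ofNat 1952]),
  (206878380, [.ofNat 0, .negSucc 1919, .negSucc 11071, .negSucc 479]),
  (206878877, [.negSucc 26623, .ofNat 52352, .ofNat 70816, .ofNat 29440]),
  (206882461, [.ofNat 0, .ofNat 0, .negSucc 383, .negSucc 319]),
  (206904028, [.negSucc 13311, .ofNat 12416, .ofNat 40288, .ofNat 13408]),
  (206910188, [.ofNat 0, .ofNat 26752, .ofNat 19712, .negSucc 8383]),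
  (206910237, [.ofNat 0, .ofNat 20288, .ofNat 32608, .negSucc 10479]),
  (206910251, [.ofNat 0, .ofNat 2688, .ofNat 24192, .negSucc 3327]),
  (206910307, [.ofNat 0, .ofNat 8416, .negSucc 7439, .negSucc 17239]),
  (206911077, [.ofNat 13312, .negSucc 7487, .negSucc 35135, .ofNat 1664]),
  (206911084, [.ofNat 0, .negSucc 1919, .negSucc 11071, .negSucc 479]),
  (206911581, [.ofNat 0, .ofNat 29760, .ofNat 62208, .ofNat 3920]),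
  (206935269, [.negSucc 26623, .ofNat 20128, .ofNat 832, .ofNat 12320]),
  (206936277, [.ofNat 0, .negSucc 9855, .ofNat 15744, .ofNat 1920]),
  (206936732, [.ofNat 0, .ofNat 0, .ofNat 448, .ofNat 160]),
  (206938853, [.negSucc 26623, .ofNat 28640, .negSucc 34399, .ofNat 15616]),
  (206938923, [.ofNat 0, .negSucc 127, .ofNat 11456, .negSucc 10223]),
  (206939756, [.ofNat 0, .negSucc 959, .negSucc 5535, .negSucc 239]),
  (206940365, [.negSucc 26623, .ofNat 52352, .ofNat 70816, .ofNat 29440]),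
  (206943333, [.ofNat 0, .ofNat 8064, .negSucc 127]),
  (206947533, [.ofNat 0, .ofNat 3584, .ofNat 3584, .ofNat 320]),
  (206947925, [.ofNat 13312, .ofNat 83584, .negSucc 14431, .negSucc 21679]),
  (206947981, [.negSucc 13311, .ofNat 26624, .ofNat 6016, .ofNat 320])]

/-- data -/
def lE17x5 : List (ℕ × List ℤ) := [(206968533, [.ofNat 13312, .negSucc 26815, .negSucc 48735, .negSucc 11135]),
  (206972621, [.ofNat 0, .ofNat 6016, .ofNat 1952]),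
  (206975645, [.negSucc 26623, .ofNat 28640, .negSucc 34399, .ofNat 15616]),
  (206976093, [.negSucc 26623, .ofNat 20128, .ofNat 832, .ofNat 12320]),
  (210327245, [.ofNat 0, .ofNat 15488, .negSucc 6239, .negSucc 2527]),
  (210359501, [.ofNat 0, .ofNat 15488, .negSucc 6239, .negSucc 2527]),
  (212150045, [.negSucc 13311, .ofNat 22592, .ofNat 8928, .ofNat 25536]),
  (212155036, [.ofNat 0, .negSucc 3455, .negSucc 4223, .ofNat 2400]),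
  (212155092, [.ofNat 0, .negSucc 1343, .negSucc 9119, .ofNat 2912]),
  (212157661, [.ofNat 0, .negSucc 1151, .negSucc 767]),
  (212379421, [.ofNat 0, .ofNat 10976, .negSucc 31183, .negSucc 3943]),
  (212380380, [.ofNat 0, .ofNat 10496, .negSucc 5375, .ofNat 1856]),
  (212383530, [.ofNat 0, .ofNat 6912, .negSucc 895]),
  (212383957, [.ofNat 0, .negSucc 18303, .ofNat 1088, .ofNat 7024]),
  (212391132, [.ofNat 0, .ofNat 1152, .ofNat 768]),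
  (212391580, [.ofNat 0, .ofNat 72544, .ofNat 7616, .ofNat 22528]),
  (212408541, [.ofNat 0, .ofNat 10496, .ofNat 3520, .negSucc 671]),
  (212416717, [.ofNat 0, .negSucc 1151, .negSucc 767]),
  (212419293, [.ofNat 0, .ofNat 10496, .ofNat 3520, .negSucc 671]),
  (212440916, [.ofNat 0, .ofNat 960, .ofNat 5536, .ofNat 240]),
  (212441301, [.ofNat 0, .negSucc 20607, .ofNat 5376, .ofNat 6640]),
  (212441812, [.ofNat 0, .negSucc 5119, .ofNat 2240, .ofNat 1472]),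
  (212445277, [.ofNat 0, .negSucc 7039, .negSucc 7039, .ofNat 1056]),
  (212445788, [.ofNat 0, .ofNat 3008, .ofNat 2656, .negSucc 1983]),
  (212448021, [.negSucc 13311, .ofNat 26816, .ofNat 48736, .ofNat 11136]),
  (212451997, [.ofNat 0, .ofNat 6464, .negSucc 863, .negSucc 1599]),
  (212452053, [.ofNat 0, .negSucc 1791, .negSucc 6527, .ofNat 1312]),
  (212452557, [.ofNat 0, .negSucc 1791, .negSucc 6527, .ofNat 1312]),
  (212452949, [.ofNat 0, .negSucc 1151, .negSucc 767]),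
  (212457100, [.ofNat 0, .ofNat 27712, .ofNat 25248, .negSucc 8143]),
  (213193948, [.ofNat 0, .ofNat 960, .ofNat 5536, .ofNat 240]),
  (556390557, [.ofNat 0, .negSucc 13951, .negSucc 5791, .negSucc 3423]),
  (557136085, [.negSucc 13311, .ofNat 10368, .ofNat 43872, .ofNat 13536]),
  (558217557, [.ofNat 0, .ofNat 5888, .ofNat 5920, .ofNat 3424]),
  (558225621, [.ofNat 0, .ofNat 5888, .ofNat 5920, .ofNat 3424]),
  (558249813, [.negSucc 13311, .ofNat 12800, .ofNat 39488, .ofNat 13408]),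
  (558282517, [.negSucc 13311, .ofNat 19200, .ofNat 42048, .ofNat 13408]),
  (558286549, [.ofNat 0, .ofNat 1536, .ofNat 1376]),
  (558471013, [.ofNat 0, .negSucc 4991, .ofNat 7360, .negSucc 9167]),
  (558487757, [.ofNat 13312, .negSucc 13503, .negSucc 37087, .ofNat 1664]),
  (558512733, [.ofNat 0, .negSucc 4863, .negSucc 1183]),
  (558683365, [.ofNat 0, .ofNat 2400, .negSucc 895, .ofNat 1776]),
  (558709349, [.ofNat 0, .negSucc 6655, .ofNat 12160, .ofNat 128]),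
  (558709517, [.ofNat 0, .negSucc 6655, .ofNat 12160, .ofNat 128]),
  (558713549, [.ofNat 0, .negSucc 4927, .ofNat 38176, .negSucc 1919]),
  (558716517, [.ofNat 0, .negSucc 2495, .ofNat 6944, .negSucc 399]),
  (558717021, [.ofNat 0, .negSucc 2495, .ofNat 6944, .negSucc 399]),
  (558717133, [.ofNat 0, .negSucc 2975, .negSucc 39263, .ofNat 7456]),
  (558746197, [.ofNat 0, .ofNat 1536, .ofNat 1376]),
  (558748437, [.ofNat 0, .ofNat 4864, .ofNat 1184]),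
  (558749781, [.ofNat 0, .negSucc 5887, .negSucc 5919, .negSucc 3423]),
  (558781141, [.ofNat 0, .negSucc 5247, .ofNat 576, .ofNat 160]),
  (558798053, [.ofNat 0, .negSucc 12415, .negSucc 12479, .negSucc 607]),
  (558798109, [.ofNat 0, .ofNat 10496, .ofNat 10048, .negSucc 351]),
  (558798501, [.ofNat 0, .negSucc 6207, .negSucc 9183, .ofNat 976]),
  (558798613, [.ofNat 0, .ofNat 10496, .negSucc 2559]),
  (558799005, [.ofNat 0, .ofNat 0, .ofNat 12608, .negSucc 351]),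
  (558801637, [.ofNat 0, .negSucc 6207, .negSucc 3295, .negSucc 1583]),
  (558803149, [.ofNat 0, .ofNat 10496, .negSucc 2559]),
  (558806285, [.ofNat 0, .ofNat 0, .ofNat 12608, .negSucc 351]),
  (558807181, [.ofNat 0, .ofNat 10496, .ofNat 10048, .negSucc 351]),
  (558938837, [.ofNat 0, .negSucc 11647, .ofNat 12224, .ofNat 3776]),
  (558996181, [.negSucc 26623, .negSucc 47999, .ofNat 43584, .ofNat 19456]),
  (559199909, [.negSucc 13311, .ofNat 13504, .ofNat 37088, .negSucc 1663]),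
  (559200469, [.negSucc 13311, .ofNat 24320, .ofNat 49664, .ofNat 16960]),
  (559257253, [.ofNat 0, .negSucc 4991, .ofNat 7360, .negSucc 9167]),
  (559257813, [.ofNat 13312, .negSucc 24319, .negSucc 49663, .negSucc 16959]),
  (559264869, [.ofNat 0, .ofNat 13952, .ofNat 5792, .ofNat 3424]),
  (623425189, [.ofNat 0, .negSucc 4991, .ofNat 7360, .negSucc 9167])]

/-- the sum of the part -/
def lE17 : List (ℕ × List ℤ) := lE17x0 ++ (lE17x1 ++ (lE17x2 ++ (lE17x3 ++ (lE17x4 ++ (lE17x5)))))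

theorem okE17 : dE17.all (rok tbE 12) = true := by decide +kernel

theorem sumE17 : aeq (fz (sumT tbE dE17)) lE17 = true := by decide +kernel

end Pool.Agent.H.MP_e16c79_al.IS
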