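import Pool.Agent.H.MP_e16c79_al.IS.BTabE

/-!
# MP_e16c79_al: certificate E, part 18
-/

set_option autoImplicit false

namespace Pool.Agent.H.MP_e16c79_al.IS

/-- data -/
def dE18x0 : RT := (.nd (.nd (.nd (.lf ⟨[.ofNat 0, .ofNat 3008, .ofNat 976], (.tr (.lf 6) (.tw (.dx 3 (.tr (.lf 5) (.tr (.lf 1) (.lf 2) (.lf 17)) (.lf 9))) (.lf 18)) (.lf 10)), 3, [4, 4, 8, 8, 7, 7, 11, 11], []⟩)
    (.lf ⟨[.ofNat 0, .negSucc 2175, .ofNat 1632, .negSucc 3695], (.tr (.lf 5) (.tr (.dx 3 (.tr (.lf 1) (.lf 17) (.lf 18))) (.tw (.lf 6) (.lf 9)) (.lf 2)) (.lf 10)), 3, [7, 7, 7, 7, 4, 4, 4, 4], []⟩))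
    (.nd (.lf ⟨[.ofNat 0, .ofNat 2912, .negSucc 2839, .ofNat 3680], (.tw (.lf 5) (.tr (.dx 3 (.tr (.lf 1) (.lf 17) (.lf 18))) (.lf 6) (.tr (.lf 9) (.lf 2) (.lf 10)))), 3, [7, 7, 7, 7, 8, 8, 8, 8], []⟩)
    (.lf ⟨[.ofNat 0, .negSucc 863, .negSucc 3463, .negSucc 47], (.tr (.lf 2) (.tw (.dx 3 (.tr (.lf 17) (.lf 18) (.tr (.lf 1) (.lf 5) (.lf 9)))) (.lf 6)) (.lf 10)), 3, [11, 11, 11, 11, 0, 0, 0, 0], []⟩)))
    (.nd (.nd (.lf ⟨[.ofNat 0, .ofNat 6848, .ofNat 6960, .negSucc 5535], (.tr (.lf 2) (.dx 3 (.tr (.lf 17) (.lf 18) (.tr (.lf 5) (.lf 1) (.lf 9)))) (.tw (.lf 6) (.lf 10))), 3, [11, 9, 11, 9, 11, 9, 11, 9], []⟩)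
    (.lf ⟨[.negSucc 1663, .negSucc 12431, .ofNat 38568, .negSucc 3815], (.tw (.dx 3 (.tr (.lf 1) (.tr (.lf 5) (.tr (.lf 6) (.lf 9) (.lf 17)) (.lf 18)) (.lf 2))) (.lf 10)), 3, [7, 7, 7, 7, 7, 7, 7, 7], []⟩))
    (.nd (.lf ⟨[.ofNat 832, .ofNat 4488, .negSucc 19123, .ofNat 1908], (.tw (.dx 3 (.tr (.lf 1) (.tw (.lf 5) (.tr (.lf 17) (.tw (.lf 6) (.lf 9)) (.lf 18))) (.lf 2))) (.lf 10)), 3, [7, 7, 7, 7, 7, 7, 7, 7, 7, 7, 7, 7, 7, 7, 7, 7], []⟩)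
    (.lf ⟨[.ofNat 0, .negSucc 3455, .ofNat 320], (.tr (.lf 17) (.lf 9) (.tr (.lf 2) (.tr (.dx 3 (.tw (.lf 1) (.lf 5))) (.lf 10) (.lf 18)) (.lf 6))), 3, [21, 21, 5, 5, 15, 15, 1, 1], [21, 9, 15, 3]⟩))))

/-- data -/
def dE18x1 : RT := (.nd (.nd (.nd (.lf ⟨[.ofNat 0, .ofNat 0, .ofNat 960, .ofNat 2256, .ofNat 32], (.tr (.lf 13) (.lf 9) (.tr (.dx 0 (.lf 5)) (.tr (.lf 14) (.lf 10) (.lf 19)) (.lf 6))), 0, [21, 9, 13, 1], [21, 9, 15, 3]⟩)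
    (.lf ⟨[.ofNat 0, .negSucc 799, .negSucc 1127, .negSucc 15], (.tr (.lf 9) (.lf 13) (.tr (.dx 0 (.lf 5)) (.tr (.lf 10) (.lf 14) (.tw (.lf 17) (.lf 18))) (.lf 6))), 0, [6, 6, 9, 9, 13, 13, 1, 1], [6, 6, 9, 9, 10, 10, 3, 3]⟩))
    (.nd (.lf ⟨[.ofNat 0, .negSucc 63, .negSucc 2335, .negSucc 31], (.tr (.tw (.dx 0 (.tw (.lf 5) (.tr (.lf 9) (.lf 17) (.tw (.lf 13) (.lf 14))))) (.lf 6)) (.lf 18) (.lf 10)), 0, [12, 12, 0, 0, 14, 14, 23, 23, 16, 16, 4, 4, 16, 16, 4, 4], []⟩)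
    (.lf ⟨[.ofNat 0, .negSucc 1983, .negSucc 1007, .negSucc 31], (.tr (.lf 9) (.tr (.dx 0 (.lf 5)) (.tr (.lf 10) (.lf 13) (.tw (.lf 17) (.lf 18))) (.lf 6)) (.lf 14)), 0, [6, 6, 18, 18, 10, 10, 22, 22], [6, 6, 18, 18, 10, 10, 22, 22]⟩)))
    (.nd (.nd (.lf ⟨[.ofNat 0, .ofNat 2176, .negSucc 1631, .ofNat 3696], (.tr (.dx 0 (.tw (.lf 5) (.lf 9))) (.lf 13) (.tr (.lf 17) (.lf 18) (.tr (.lf 6) (.lf 14) (.lf 10)))), 0, [0, 0, 0, 0, 2, 2, 2, 2], [11, 9, 0, 2]⟩)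
    (.lf ⟨[.ofNat 0, .ofNat 768, .negSucc 1183, .ofNat 3696], (.tr (.dx 0 (.tw (.lf 5) (.lf 9))) (.tr (.lf 13) (.lf 6) (.tr (.lf 17) (.lf 10) (.lf 18))) (.lf 14)), 0, [0, 0, 12, 12, 2, 2, 14, 14], [0, 0, 14, 14]⟩))
    (.nd (.lf ⟨[.ofNat 0, .ofNat 3648, .ofNat 384, .negSucc 2911], (.tw (.dx 3 (.tr (.lf 1) (.lf 17) (.tw (.lf 5) (.lf 18)))) (.tr (.lf 9) (.tw (.lf 2) (.lf 6)) (.lf 10))), 3, [11, 7, 11, 7, 11, 7, 11, 7, 11, 7, 11, 7, 11, 7, 11, 7], []⟩)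
    (.lf ⟨[.ofNat 0, .negSucc 4991, .ofNat 5056, .ofNat 1056], (.tr (.dx 0 (.tw (.lf 5) (.lf 13))) (.lf 14) (.tr (.lf 17) (.lf 18) (.tr (.lf 9) (.lf 6) (.lf 10)))), 0, [23, 23, 0, 0, 23, 23, 0, 0], [23, 23, 2, 2]⟩))))

/-- data -/
def dE18x2 : RT := (.nd (.nd (.nd (.lf ⟨[.ofNat 0, .ofNat 4864, .negSucc 12991, .negSucc 31], (.tr (.lf 2) (.dx 3 (.tw (.lf 1) (.lf 5))) (.tr (.lf 17) (.lf 18) (.tr (.lf 9) (.lf 6) (.lf 10)))), 3, [23, 23, 0, 0, 23, 23, 0, 0], [23, 23, 2, 2]⟩)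
    (.lf ⟨[.ofNat 0, .ofNat 4992, .negSucc 5055, .negSucc 1055], (.tr (.dx 0 (.tw (.lf 5) (.lf 13))) (.tr (.lf 14) (.tr (.lf 9) (.lf 6) (.lf 10)) (.lf 17)) (.lf 18)), 0, [0, 0, 0, 0, 0, 0, 0, 0], [2, 2, 14, 14]⟩))
    (.nd (.lf ⟨[.ofNat 0, .negSucc 16751, .ofNat 19376, .ofNat 2608], (.tr (.lf 2) (.tr (.dx 3 (.tw (.lf 1) (.lf 5))) (.tr (.lf 9) (.lf 6) (.lf 10)) (.lf 17)) (.lf 18)), 3, [0, 0, 0, 0, 14, 14, 14, 14], [2, 2, 14, 14]⟩)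
    (.lf ⟨[.ofNat 0, .negSucc 4991, .ofNat 5376, .ofNat 1056], (.tr (.lf 17) (.lf 14) (.tr (.dx 0 (.tw (.lf 5) (.lf 13))) (.lf 18) (.tr (.lf 9) (.lf 6) (.lf 10)))), 0, [23, 23, 23, 23, 1, 1, 1, 1], [23, 23, 15, 15]⟩)))
    (.nd (.nd (.lf ⟨[.ofNat 0, .ofNat 4992, .negSucc 5375, .negSucc 1055], (.tr (.lf 17) (.dx 3 (.tw (.lf 1) (.lf 5))) (.tr (.lf 2) (.lf 18) (.tr (.lf 9) (.lf 6) (.lf 10)))), 3, [23, 23, 15, 15, 23, 23, 15, 15], [23, 23, 15, 15]⟩)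
    (.lf ⟨[.ofNat 0, .ofNat 11888, .negSucc 6383, .negSucc 2575], (.tr (.lf 17) (.lf 18) (.tr (.lf 2) (.dx 3 (.tw (.lf 1) (.lf 5))) (.tr (.lf 9) (.lf 6) (.lf 10)))), 3, [11, 11, 11, 11, 1, 1, 1, 1], [11, 11, 3, 3]⟩))
    (.nd (.lf ⟨[.ofNat 0, .negSucc 4991, .ofNat 5056, .ofNat 1056], (.tr (.dx 0 (.lf 5)) (.lf 13) (.tw (.lf 9) (.tr (.lf 6) (.tr (.lf 17) (.lf 10) (.lf 18)) (.lf 14)))), 0, [0, 0, 0, 0, 0, 0, 0, 0], [2, 2, 1017, 1017, 0, 0, 23, 23]⟩)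
    (.lf ⟨[.ofNat 0, .negSucc 11903, .ofNat 3600, .negSucc 5815], (.tr (.dx 0 (.lf 5)) (.lf 13) (.tr (.lf 6) (.lf 17) (.tr (.lf 9) (.tw (.lf 14) (.lf 18)) (.lf 10)))), 0, [0, 0, 0, 0, 0, 0, 0, 0], [0, 0, 0, 0, 1017, 1017, 1017, 1017]⟩))))

/-- data -/
def dE18x3 : RT := (.nd (.nd (.nd (.lf ⟨[.ofNat 0, .negSucc 25807, .ofNat 1216, .negSucc 11015], (.tr (.lf 6) (.lf 13) (.tr (.dx 0 (.lf 5)) (.lf 17) (.tr (.lf 9) (.tw (.lf 14) (.lf 18)) (.lf 10)))), 0, [4, 4, 4, 4, 13, 13, 13, 13], [4, 4, 4, 4, 1017, 1017, 1017, 1017]⟩)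
    (.lf ⟨[.ofNat 0, .negSucc 13311, .ofNat 35584, .ofNat 4128, .negSucc 479], (.tr (.lf 11) (.lf 13) (.tw (.lf 5) (.tr (.dx 0 .on) (.tr (.lf 17) (.lf 6) (.lf 18)) (.lf 14)))), 0, [10, 10, 13, 13, 6, 6, 17, 17], [10, 10, 1023, 1023, 6, 6, 17, 17]⟩))
    (.nd (.lf ⟨[.ofNat 0, .ofNat 3584, .ofNat 3584, .negSucc 447], (.tr (.lf 6) (.lf 13) (.tw (.dx 0 (.lf 5)) (.tr (.lf 9) (.lf 14) (.tr (.lf 17) (.lf 10) (.lf 18))))), 0, [4, 4, 4, 4, 13, 13, 1, 1], [4, 4, 4, 4, 1017, 1017, 3, 3]⟩)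
    (.lf ⟨[.ofNat 0, .ofNat 6952, .ofNat 1192, .ofNat 2600], (.tw (.dx 0 (.tr (.lf 9) (.tw (.lf 17) (.tr (.lf 5) (.tw (.lf 13) (.lf 18)) (.lf 6))) (.lf 14))) (.lf 10)), 0, [1023, 1023, 1023, 1023, 2, 14, 2, 14, 19, 7, 19, 7, 19, 19, 19, 19], []⟩)))
    (.nd (.nd (.lf ⟨[.ofNat 0, .negSucc 6951, .negSucc 1191, .negSucc 2599], (.tw (.dx 0 (.tr (.lf 9) (.lf 13) (.tw (.lf 17) (.tr (.lf 5) (.tw (.lf 14) (.lf 18)) (.lf 6))))) (.lf 10)), 0, [19, 7, 19, 7, 1023, 1023, 1023, 1023, 7, 7, 7, 7, 7, 7, 7, 7], []⟩)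
    (.lf ⟨[.ofNat 0, .negSucc 6951, .negSucc 1191, .negSucc 2599], (.tr (.dx 0 (.lf 5)) (.tr (.lf 13) (.lf 17) (.tr (.lf 9) (.tw (.lf 14) (.lf 18)) (.lf 10))) (.lf 6)), 0, [0, 0, 0, 0, 0, 12, 0, 12], [21, 9, 21, 9, 2, 14, 2, 14]⟩))
    (.nd (.lf ⟨[.ofNat 0, .negSucc 13903, .negSucc 2383, .negSucc 5199], (.tr (.lf 5) (.dx 0 (.tw (.lf 13) (.lf 17))) (.tr (.lf 14) (.lf 18) (.tr (.lf 9) (.lf 6) (.lf 10)))), 0, [23, 23, 4, 4, 23, 23, 16, 16], [23, 23, 16, 16]⟩)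
    (.lf ⟨[.ofNat 0, .ofNat 3008, .ofNat 976], (.tr (.dx 0 (.tw (.lf 13) (.lf 17))) (.lf 14) (.tr (.lf 5) (.lf 6) (.tr (.lf 9) (.lf 18) (.lf 10)))), 0, [23, 23, 21, 21, 23, 23, 21, 21], [23, 23, 21, 21]⟩))))

/-- data -/
def dE18x4 : RT := (.nd (.nd (.nd (.lf ⟨[.ofNat 0, .negSucc 2623, .negSucc 1327], (.tr (.dx 0 (.tw (.lf 13) (.lf 17))) (.tr (.lf 5) (.tr (.lf 9) (.lf 18) (.lf 10)) (.lf 14)) (.lf 6)), 0, [9, 9, 21, 21, 9, 9, 21, 21], [12, 12, 21, 21]⟩)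
    (.lf ⟨[.ofNat 0, .negSucc 7743, .negSucc 15183, .ofNat 3592], (.tw (.dx 0 (.tr (.tw (.lf 5) (.lf 13)) (.lf 6) (.lf 17))) (.tr (.lf 9) (.tw (.lf 14) (.lf 18)) (.lf 10))), 0, [0, 0, 0, 0, 0, 0, 0, 0, 12, 12, 12, 12, 12, 12, 12, 12], []⟩))
    (.nd (.lf ⟨[.ofNat 3328, .negSucc 6143, .negSucc 1023], (.tr (.lf 2) (.dx 3 (.tr (.lf 5) (.lf 1) (.lf 17))) (.tr (.lf 6) (.lf 18) (.tw (.lf 9) (.lf 10)))), 3, [23, 23, 0, 0, 23, 23, 21, 21], [23, 23, 1017, 1017]⟩)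
    (.lf ⟨[.ofNat 1664, .ofNat 640, .negSucc 2591, .ofNat 272], (.tr (.lf 2) (.lf 18) (.tr (.lf 6) (.dx 3 (.tr (.lf 1) (.lf 5) (.lf 17))) (.tw (.lf 9) (.lf 10)))), 3, [11, 11, 7, 7, 14, 5, 14, 5], [11, 11, 1017, 1017]⟩)))
    (.nd (.nd (.lf ⟨[.ofNat 3328, .negSucc 10623, .negSucc 511, .ofNat 160], (.tr (.lf 5) (.lf 6) (.tr (.dx 0 (.tw (.lf 13) (.lf 17))) (.tr (.lf 9) (.lf 18) (.lf 10)) (.lf 14))), 0, [4, 4, 16, 16, 8, 8, 8, 8], [16, 16, 8, 8]⟩)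
    (.lf ⟨[.ofNat 0, .negSucc 5375, .negSucc 2447, .ofNat 1768], (.tr (.lf 5) (.tr (.lf 6) (.dx 0 (.tw (.lf 13) (.lf 17))) (.tr (.lf 9) (.lf 18) (.lf 10))) (.lf 14)), 0, [4, 4, 16, 16, 20, 20, 20, 20], [16, 16, 20, 20]⟩))
    (.nd (.lf ⟨[.ofNat 0, .negSucc 575, .negSucc 383], (.tr (.lf 14) (.lf 5) (.tr (.dx 0 (.tw (.lf 13) (.lf 17))) (.tr (.lf 9) (.lf 18) (.lf 10)) (.lf 6))), 0, [21, 21, 21, 21, 15, 3, 15, 3], [21, 21, 15, 15]⟩)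
    (.lf ⟨[.ofNat 0, .negSucc 831, .ofNat 384], (.tr (.dx 0 (.tr (.lf 13) (.lf 5) (.lf 17))) (.lf 6) (.tr (.tw (.lf 9) (.lf 10)) (.lf 14) (.lf 18))), 0, [0, 0, 11, 11, 12, 12, 11, 11], [0, 0, 11, 11]⟩))))

/-- data -/
def dE18x5 : RT := (.nd (.nd (.nd (.lf ⟨[.ofNat 0, .ofNat 5248, .negSucc 127], (.tr (.lf 6) (.dx 0 (.tr (.lf 5) (.lf 17) (.lf 13))) (.tr (.tw (.lf 9) (.lf 10)) (.lf 14) (.lf 18))), 0, [16, 16, 7, 7, 4, 4, 7, 7], [4, 4, 7, 7]⟩)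
    (.lf ⟨[.ofNat 0, .ofNat 960, .ofNat 384, .ofNat 304], (.tr (.lf 6) (.tr (.dx 0 (.tr (.lf 5) (.lf 13) (.lf 17))) (.tw (.lf 9) (.lf 10)) (.lf 18)) (.lf 14)), 0, [4, 4, 16, 16, 20, 20, 20, 20], [16, 16, 20, 20]⟩))
    (.nd (.lf ⟨[.ofNat 0, .ofNat 832, .negSucc 63, .negSucc 303], (.tr (.dx 0 (.tr (.lf 5) (.lf 17) (.lf 13))) (.tr (.lf 6) (.tw (.lf 9) (.lf 10)) (.lf 18)) (.lf 14)), 0, [12, 12, 12, 12, 0, 0, 0, 0], [12, 12, 14, 14]⟩)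
    (.lf ⟨[.ofNat 0, .negSucc 4287, .ofNat 4928, .negSucc 319], (.tr (.dx 3 (.tr (.lf 1) (.lf 5) (.lf 17))) (.tr (.lf 6) (.tw (.lf 9) (.lf 10)) (.lf 18)) (.lf 2)), 3, [15, 15, 13, 13, 15, 15, 13, 13], [15, 15, 13, 13]⟩)))
    (.nd (.nd (.lf ⟨[.ofNat 0, .ofNat 5248, .negSucc 127], (.tr (.lf 2) (.lf 6) (.tr (.dx 3 (.tr (.lf 1) (.lf 5) (.lf 17))) (.lf 18) (.tw (.lf 9) (.lf 10)))), 3, [23, 23, 19, 19, 12, 12, 12, 12], [23, 23, 12, 12]⟩)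
    (.lf ⟨[.ofNat 0, .negSucc 1663, .ofNat 4864, .negSucc 319], (.tr (.lf 2) (.tr (.dx 3 (.tr (.lf 5) (.lf 1) (.lf 17))) (.tw (.lf 9) (.lf 10)) (.lf 6)) (.lf 18)), 3, [0, 0, 0, 0, 0, 0, 0, 0], [2, 2, 0, 0]⟩))
    (.nd (.lf ⟨[.ofNat 0, .negSucc 5503, .ofNat 19360, .negSucc 2335], (.tr (.dx 0 (.tr (.lf 5) (.lf 13) (.tr (.lf 9) (.lf 17) (.lf 14)))) (.tw (.lf 6) (.lf 18)) (.lf 10)), 0, [0, 1023, 0, 23, 14, 23, 23, 23], []⟩)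
    (.lf ⟨[.ofNat 0, .ofNat 4032, .negSucc 847, .ofNat 32], (.tw (.dx 0 (.tr (.lf 9) (.lf 5) (.tr (.lf 13) (.lf 14) (.tr (.lf 6) (.lf 17) (.lf 18))))) (.lf 10)), 0, [2, 1023, 14, 14, 19, 19, 7, 7], []⟩))))

/-- data -/
def dE18x6 : RT := (.nd (.nd (.nd (.lf ⟨[.ofNat 0, .negSucc 4031, .ofNat 848, .negSucc 31], (.tw (.dx 0 (.tr (.lf 5) (.tr (.lf 13) (.lf 14) (.tr (.lf 6) (.lf 17) (.lf 18))) (.lf 9))) (.lf 10)), 0, [19, 19, 7, 7, 19, 19, 1023, 7], []⟩)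
    (.lf ⟨[.ofNat 0, .negSucc 4031, .ofNat 848, .negSucc 31], (.tr (.lf 5) (.dx 0 .on) (.tr (.lf 13) (.lf 14) (.tr (.lf 17) (.lf 18) (.tr (.lf 9) (.lf 6) (.lf 10))))), 0, [23, 23, 4, 4, 16, 16, 16, 16], [23, 23, 4, 4, 16, 16, 16, 16]⟩))
    (.nd (.lf ⟨[.ofNat 0, .ofNat 0, .ofNat 896, .ofNat 9088, .ofNat 64], (.tr (.lf 6) (.lf 11) (.tr (.lf 13) (.lf 14) (.tr (.dx 0 (.lf 5)) (.lf 17) (.lf 18)))), 0, [8, 13, 20, 20], [8, 8, 20, 20]⟩)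
    (.lf ⟨[.ofNat 0, .ofNat 8064, .negSucc 1695, .ofNat 64], (.tw (.dx 0 (.tr (.lf 5) (.lf 13) (.tr (.lf 9) (.lf 6) (.tr (.lf 14) (.lf 17) (.lf 18))))) (.lf 10)), 0, [0, 0, 19, 7, 2, 1023, 7, 7], []⟩)))
    (.nd (.nd (.lf ⟨[.ofNat 0, .ofNat 1472, .negSucc 2415, .negSucc 31], (.tr (.lf 6) (.tr (.dx 3 (.tr (.lf 1) (.lf 5) (.tw (.lf 2) (.lf 9)))) (.lf 17) (.lf 18)) (.lf 10)), 3, [4, 4, 4, 8, 7, 7, 7, 7], []⟩)
    (.lf ⟨[.ofNat 0, .ofNat 3008, .ofNat 976], (.tr (.lf 2) (.lf 5) (.tr (.lf 6) (.dx 3 (.tw (.lf 1) (.lf 17))) (.tr (.lf 9) (.lf 18) (.lf 10)))), 3, [0, 0, 0, 0, 12, 12, 12, 12], [0, 0, 12, 12]⟩))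
    (.nd (.lf ⟨[.ofNat 26624, .ofNat 62464, .negSucc 79231, .negSucc 9951], (.tw (.dx 0 (.tr (.lf 5) (.lf 13) (.tr (.lf 6) (.lf 17) (.tr (.lf 14) (.lf 9) (.lf 18))))) (.lf 10)), 0, [19, 7, 19, 19, 7, 7, 7, 7], []⟩)
    (.lf ⟨[.ofNat 0, .ofNat 576, .ofNat 15392, .negSucc 4175], (.tw (.dx 0 (.tr (.lf 5) (.lf 13) (.tw (.lf 6) (.tr (.lf 17) (.tw (.lf 9) (.lf 14)) (.lf 18))))) (.lf 10)), 0, [0, 19, 0, 19, 19, 19, 19, 19, 7, 7, 7, 7, 7, 7, 7, 7], []⟩))))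

/-- data -/
def dE18x7 : RT := (.nd (.nd (.nd (.lf ⟨[.ofNat 0, .negSucc 8319, .negSucc 16511, .ofNat 3904], (.tw (.dx 0 (.tr (.lf 5) (.lf 13) (.tr (.lf 14) (.lf 9) (.tr (.lf 6) (.lf 17) (.lf 18))))) (.lf 10)), 0, [19, 19, 7, 7, 7, 7, 7, 7], []⟩)
    (.lf ⟨[.ofNat 0, .negSucc 1663, .ofNat 4160, .negSucc 159], (.tw (.dx 0 (.tr (.lf 5) (.lf 13) (.tr (.lf 17) (.lf 9) (.tr (.lf 6) (.lf 18) (.lf 14))))) (.lf 10)), 0, [7, 19, 19, 19, 7, 7, 7, 7], []⟩))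
    (.nd (.lf ⟨[.ofNat 0, .negSucc 831, .ofNat 64, .ofNat 304], (.tr (.lf 5) (.lf 6) (.tr (.dx 3 (.tw (.lf 1) (.lf 17))) (.lf 18) (.tr (.lf 9) (.lf 2) (.lf 10)))), 3, [4, 4, 4, 4, 20, 20, 20, 20], [8, 8, 20, 20]⟩)
    (.lf ⟨[.ofNat 0, .ofNat 4416, .negSucc 63, .ofNat 304], (.tr (.lf 5) (.lf 6) (.tr (.lf 18) (.dx 3 (.tw (.lf 1) (.lf 17))) (.tr (.lf 9) (.lf 2) (.lf 10)))), 3, [16, 16, 16, 16, 8, 8, 8, 8], [20, 20, 8, 8]⟩)))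
    (.nd (.nd (.lf ⟨[.ofNat 0, .ofNat 832, .negSucc 63, .negSucc 303], (.tr (.dx 3 (.tw (.lf 1) (.lf 17))) (.lf 18) (.tr (.lf 5) (.lf 6) (.tr (.lf 9) (.lf 2) (.lf 10)))), 3, [19, 19, 21, 21, 19, 19, 21, 21], [19, 19, 21, 21]⟩)
    (.lf ⟨[.ofNat 0, .negSucc 4415, .ofNat 64, .negSucc 303], (.tr (.lf 5) (.tr (.dx 3 (.tw (.lf 1) (.lf 17))) (.tr (.lf 9) (.lf 2) (.lf 10)) (.lf 6)) (.lf 18)), 3, [4, 4, 4, 4, 8, 8, 8, 8], [8, 8, 8, 8]⟩))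
    (.nd (.lf ⟨[.ofNat 0, .negSucc 1215, .ofNat 2192, .ofNat 64], (.tr (.lf 18) (.lf 5) (.tr (.lf 6) (.dx 3 (.tw (.lf 1) (.lf 17))) (.tr (.lf 9) (.lf 2) (.lf 10)))), 3, [7, 7, 7, 7, 5, 5, 5, 5], [7, 7, 9, 9]⟩)
    (.lf ⟨[.ofNat 0, .ofNat 0, .ofNat 5920, .ofNat 2776, .negSucc 255], (.tr (.lf 5) (.tw (.dx 0 (.lf 13)) (.tr (.lf 6) (.tw (.lf 14) (.lf 19)) (.lf 9))) (.lf 10)), 0, [23, 11, 4, 4, 8, 20, 7, 7], [23, 11, 4, 16, 8, 20, 19, 7]⟩))))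

/-- data -/
def dE18x8 : RT := (.nd (.nd (.nd (.lf ⟨[.ofNat 0, .ofNat 832, .negSucc 63, .negSucc 303], (.tr (.lf 17) (.lf 13) (.tr (.dx 0 (.lf 5)) (.tr (.tw (.lf 9) (.lf 10)) (.lf 14) (.lf 18)) (.lf 6))), 0, [21, 21, 9, 9, 13, 13, 1, 1], [21, 21, 9, 9, 15, 15, 3, 3]⟩)
    (.lf ⟨[.ofNat 0, .ofNat 0, .ofNat 384, .negSucc 799], (.tr (.lf 17) (.lf 13) (.tr (.dx 0 .on) (.tr (.tw (.lf 5) (.lf 6)) (.lf 14) (.lf 18)) (.lf 11))), 0, [23, 23, 11, 11, 13, 13, 1, 1], [23, 23, 11, 11, 13, 13, 1, 1]⟩))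
    (.nd (.lf ⟨[.ofNat 0, .ofNat 1664, .negSucc 127, .negSucc 607], (.tr (.lf 6) (.tr (.lf 13) (.lf 17) (.tr (.tw (.lf 9) (.lf 10)) (.dx 0 (.lf 5)) (.lf 18))) (.lf 14)), 0, [8, 8, 4, 4, 20, 20, 16, 16], [8, 8, 4, 4, 20, 20, 16, 16]⟩)
    (.lf ⟨[.ofNat 0, .ofNat 384, .ofNat 4448, .ofNat 96], (.tr (.lf 13) (.lf 14) (.tr (.lf 6) (.tr (.tw (.lf 9) (.lf 10)) (.dx 0 (.lf 5)) (.lf 17)) (.lf 18))), 0, [13, 13, 19, 19, 17, 17, 21, 21], [1017, 1017, 19, 19, 17, 17, 21, 21]⟩)))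
    (.nd (.nd (.lf ⟨[.ofNat 0, .negSucc 3631, .negSucc 3591, .negSucc 439], (.tr (.lf 13) (.tr (.lf 14) (.lf 6) (.tr (.tw (.lf 9) (.lf 10)) (.dx 0 (.lf 5)) (.lf 17))) (.lf 18)), 0, [13, 13, 19, 19, 6, 6, 0, 0], [1017, 1017, 19, 19, 6, 6, 1017, 1017]⟩)
    (.lf ⟨[.ofNat 0, .ofNat 3248, .negSucc 855, .ofNat 344], (.tr (.lf 13) (.tr (.lf 14) (.dx 0 (.lf 5)) (.tr (.tw (.lf 9) (.lf 10)) (.lf 6) (.lf 17))) (.lf 18)), 0, [0, 0, 23, 23, 10, 10, 13, 13], [1017, 1017, 23, 23, 10, 10, 1017, 1017]⟩))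
    (.nd (.lf ⟨[.ofNat 0, .ofNat 0, .negSucc 5951, .ofNat 3184], (.tr (.lf 13) (.tr (.lf 14) (.lf 11) (.tr (.tw (.lf 5) (.lf 6)) (.dx 0 .on) (.lf 17))) (.lf 18)), 0, [13, 13, 17, 17, 4, 4, 0, 0], [1023, 1023, 17, 17, 4, 4, 1023, 1023]⟩)
    (.lf ⟨[.ofNat 0, .negSucc 2783, .ofNat 1192], (.tr (.lf 13) (.tr (.lf 14) (.dx 0 .on) (.tw (.lf 17) (.tr (.tw (.lf 5) (.lf 6)) (.lf 9) (.lf 10)))) (.lf 18)), 0, [23, 23, 21, 21, 1023, 1023, 1017, 1017, 1017, 1017, 1023, 1023, 8, 8, 10, 10], [23, 23, 21, 21, 23, 23, 21, 21, 8, 8, 10, 10, 8, 8, 10, 10]⟩))))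

/-- data -/
def dE18x9 : RT := (.nd (.nd (.nd (.lf ⟨[.ofNat 0, .ofNat 0, .negSucc 2815, .ofNat 800], (.tr (.lf 13) (.lf 14) (.tr (.dx 0 .on) (.lf 5) (.tr (.lf 6) (.lf 11) (.tw (.lf 17) (.lf 18))))), 0, [0, 0, 21, 21, 13, 13, 13, 13], [1023, 1023, 21, 21, 13, 13, 13, 13]⟩)
    (.lf ⟨[.ofNat 0, .ofNat 1664, .negSucc 127, .negSucc 607], (.tr (.lf 13) (.lf 14) (.tr (.lf 9) (.dx 0 (.lf 5)) (.tr (.lf 6) (.lf 10) (.tw (.lf 17) (.lf 18))))), 0, [1017, 1017, 21, 21, 19, 19, 19, 19], [1017, 1017, 21, 21, 19, 19, 19, 19]⟩))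
    (.nd (.lf ⟨[.ofNat 0, .negSucc 1663, .ofNat 128, .ofNat 608], (.tr (.lf 9) (.tr (.dx 0 (.lf 5)) (.tr (.lf 6) (.lf 10) (.tw (.lf 17) (.lf 18))) (.lf 13)) (.lf 14)), 0, [18, 18, 18, 18, 10, 10, 10, 10], [18, 18, 18, 18, 10, 10, 10, 10]⟩)
    (.lf ⟨[.ofNat 0, .ofNat 0, .ofNat 384, .negSucc 799], (.tr (.lf 5) (.tr (.lf 11) (.tr (.dx 0 .on) (.lf 6) (.tw (.lf 17) (.lf 18))) (.lf 13)) (.lf 14)), 0, [20, 20, 20, 20, 4, 4, 4, 4], [20, 20, 20, 20, 4, 4, 4, 4]⟩)))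
    (.nd (.nd (.lf ⟨[.ofNat 0, .ofNat 0, .negSucc 383, .ofNat 800], (.tr (.lf 5) (.tr (.lf 11) (.dx 0 .on) (.tr (.lf 6) (.tw (.lf 17) (.lf 18)) (.lf 13))) (.lf 14)), 0, [20, 20, 8, 8, 16, 16, 4, 4], [20, 20, 8, 8, 16, 16, 4, 4]⟩)
    (.lf ⟨[.ofNat 0, .ofNat 0, .negSucc 2431], (.tr (.lf 5) (.lf 11) (.tr (.lf 13) (.lf 14) (.tr (.lf 6) (.dx 0 .on) (.tw (.lf 17) (.lf 18))))), 0, [8, 8, 17, 17, 20, 20, 20, 20], [8, 8, 1023, 1023, 20, 20, 20, 20]⟩))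
    (.nd (.lf ⟨[.ofNat 0, .ofNat 0, .ofNat 384, .negSucc 799], (.tr (.lf 13) (.lf 5) (.tr (.lf 6) (.lf 11) (.tr (.dx 0 .on) (.lf 14) (.tw (.lf 17) (.lf 18))))), 0, [8, 8, 3, 3, 21, 21, 9, 9], [8, 8, 3, 3, 21, 21, 9, 9]⟩)
    (.lf ⟨[.ofNat 0, .ofNat 0, .ofNat 2432], (.tr (.lf 13) (.lf 5) (.tr (.dx 0 .on) (.tr (.lf 11) (.tw (.lf 17) (.lf 18)) (.lf 14)) (.lf 6))), 0, [9, 9, 21, 21, 3, 3, 15, 15], [9, 9, 21, 21, 3, 3, 15, 15]⟩))))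

/-- data -/
def dE18x10 : RT := (.nd (.nd (.nd (.lf ⟨[.ofNat 0, .ofNat 0, .negSucc 3327, .ofNat 10368, .negSucc 1919], (.tr (.lf 17) (.lf 1) (.tr (.lf 2) (.tr (.lf 11) (.dx 3 .on) (.lf 18)) (.lf 7))), 3, [21, 9, 15, 3], [21, 9, 15, 3]⟩)
    (.lf ⟨[.ofNat 0, .ofNat 0, .negSucc 2815, .ofNat 800], (.tr (.lf 13) (.lf 5) (.tr (.dx 0 .on) (.lf 14) (.tr (.lf 6) (.lf 11) (.tw (.lf 17) (.lf 18))))), 0, [4, 4, 21, 21, 3, 3, 1, 1], [4, 4, 21, 21, 3, 3, 1, 1]⟩))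
    (.nd (.lf ⟨[.ofNat 0, .ofNat 13312, .negSucc 33535, .negSucc 3071, .ofNat 320], (.tr (.lf 17) (.lf 5) (.tr (.lf 2) (.tr (.lf 11) (.dx 3 (.lf 1)) (.lf 18)) (.lf 6))), 3, [17, 9, 15, 3], [21, 9, 15, 3]⟩)
    (.lf ⟨[.ofNat 0, .ofNat 0, .ofNat 4096, .negSucc 2623], (.tr (.lf 17) (.lf 5) (.tr (.lf 2) (.lf 18) (.tr (.dx 3 (.lf 1)) (.lf 11) (.lf 6)))), 3, [9, 16, 13, 15], [9, 16, 13, 15]⟩)))
    (.nd (.nd (.lf ⟨[.ofNat 0, .negSucc 6911, .ofNat 896], (.tr (.lf 17) (.lf 9) (.tr (.lf 2) (.lf 18) (.tr (.dx 3 (.tw (.lf 1) (.lf 5))) (.lf 6) (.lf 10)))), 3, [11, 11, 1015, 18, 15, 15, 13, 13], [11, 18, 15, 13]⟩)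
    (.lf ⟨[.ofNat 0, .ofNat 0, .negSucc 14591, .ofNat 2112], (.tr (.lf 17) (.lf 5) (.tr (.lf 6) (.lf 11) (.tr (.dx 3 (.lf 1)) (.lf 18) (.lf 2)))), 3, [15, 20, 21, 9], [15, 20, 21, 9]⟩))
    (.nd (.lf ⟨[.ofNat 0, .ofNat 7296, .negSucc 1759], (.tr (.lf 13) (.lf 5) (.tr (.lf 6) (.dx 0 .on) (.tr (.lf 9) (.lf 14) (.tr (.lf 17) (.lf 10) (.lf 18))))), 0, [4, 4, 7, 7, 17, 17, 5, 5], [4, 4, 7, 7, 17, 17, 5, 5]⟩)
    (.lf ⟨[.ofNat 0, .ofNat 2048, .ofNat 1952, .negSucc 159], (.tr (.lf 13) (.lf 5) (.tr (.lf 6) (.tr (.dx 0 .on) (.tr (.lf 17) (.lf 9) (.lf 18)) (.lf 14)) (.lf 10))), 0, [7, 7, 19, 19, 9, 9, 17, 17], [7, 7, 19, 19, 9, 9, 17, 17]⟩))))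

/-- data -/
def dE18x11 : RT := (.nd (.nd (.nd (.lf ⟨[.ofNat 0, .negSucc 1663, .ofNat 128, .ofNat 608], (.tr (.dx 0 (.lf 5)) (.tr (.lf 9) (.tr (.lf 10) (.lf 6) (.tw (.lf 17) (.lf 18))) (.lf 13)) (.lf 14)), 0, [12, 12, 12, 12, 0, 0, 0, 0], [14, 14, 14, 14, 2, 2, 0, 0]⟩)
    (.lf ⟨[.ofNat 0, .ofNat 0, .ofNat 384, .negSucc 1151], (.tr (.dx 3 (.tw (.lf 1) (.lf 5))) (.lf 17) (.tr (.lf 2) (.tw (.lf 11) (.lf 18)) (.lf 6))), 3, [21, 21, 15, 15, 21, 21, 15, 15], [21, 21, 15, 15]⟩))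
    (.nd (.lf ⟨[.ofNat 0, .ofNat 1152, .negSucc 7823, .negSucc 1807], (.tr (.dx 3 (.tr (.lf 1) (.lf 5) (.lf 9))) (.lf 17) (.tr (.lf 2) (.tw (.lf 6) (.lf 18)) (.lf 10))), 3, [23, 23, 13, 13, 23, 23, 13, 13], [23, 23, 13, 13]⟩)
    (.lf ⟨[.ofNat 1664, .negSucc 4191, .negSucc 271], (.tr (.lf 14) (.dx 0 (.tw (.lf 13) (.lf 17))) (.tw (.lf 18) (.tr (.tw (.lf 5) (.lf 6)) (.lf 9) (.lf 10)))), 0, [23, 23, 21, 21, 23, 23, 21, 21, 23, 23, 21, 21, 23, 23, 21, 21], [23, 23, 21, 21, 23, 23, 21, 21]⟩)))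
    (.nd (.nd (.lf ⟨[.ofNat 0, .negSucc 6911, .ofNat 512], (.tr (.lf 14) (.lf 5) (.tr (.lf 6) (.tr (.dx 0 (.tw (.lf 13) (.lf 17))) (.lf 9) (.lf 10)) (.lf 18))), 0, [1015, 1015, 8, 8, 21, 9, 17, 5], [1015, 8, 21, 17]⟩)
    (.lf ⟨[.negSucc 13311, .negSucc 30975, .ofNat 22144, .ofNat 9232], (.tr (.lf 5) (.tr (.lf 2) (.dx 3 (.tw (.lf 1) (.lf 17))) (.tr (.lf 6) (.lf 18) (.lf 9))) (.lf 10)), 3, [23, 23, 23, 23, 20, 20, 20, 20], [23, 23, 20, 20]⟩))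
    (.nd (.lf ⟨[.ofNat 13312, .ofNat 26432, .negSucc 16895, .negSucc 8447], (.tr (.lf 5) (.tr (.dx 0 (.tw (.lf 13) (.lf 17))) (.lf 14) (.tr (.lf 6) (.lf 18) (.lf 9))) (.lf 10)), 0, [23, 23, 23, 23, 20, 20, 20, 20], [23, 23, 20, 20]⟩)
    (.lf ⟨[.negSucc 6655, .ofNat 11520, .ofNat 1216], (.tr (.lf 5) (.lf 6) (.tr (.lf 9) (.tr (.dx 0 (.tw (.lf 13) (.lf 17))) (.lf 18) (.lf 10)) (.lf 14))), 0, [8, 20, 20, 20, 1015, 1015, 8, 8], [20, 20, 1015, 8]⟩))))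

/-- data -/
def dE18x12 : RT := (.nd (.nd (.nd (.lf ⟨[.ofNat 0, .negSucc 767, .ofNat 1600], (.tr (.lf 9) (.lf 5) (.tr (.lf 6) (.tr (.dx 0 (.tw (.lf 13) (.lf 17))) (.lf 18) (.lf 10)) (.lf 14))), 0, [10, 22, 22, 22, 1015, 1015, 10, 10], [22, 22, 1015, 10]⟩)
    (.lf ⟨[.ofNat 3328, .negSucc 5311, .negSucc 1407], (.tr (.lf 9) (.lf 10) (.tr (.dx 3 (.tr (.lf 1) (.lf 17) (.lf 5))) (.lf 18) (.tw (.lf 2) (.lf 6)))), 3, [6, 6, 10, 10, 18, 18, 22, 22], [6, 10, 18, 22]⟩))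
    (.nd (.lf ⟨[.ofNat 0, .negSucc 447, .ofNat 800], (.tr (.dx 3 (.tr (.lf 1) (.lf 17) (.lf 5))) (.tr (.lf 9) (.tw (.lf 2) (.lf 6)) (.lf 18)) (.lf 10)), 3, [23, 19, 23, 19, 23, 19, 23, 19], [23, 19, 23, 19]⟩)
    (.lf ⟨[.ofNat 0, .ofNat 0, .ofNat 0, .ofNat 768, .negSucc 1599], (.tr (.lf 1) (.lf 2) (.tr (.lf 5) (.tr (.lf 6) (.dx 3 .on) (.lf 11)) (.lf 19))), 3, [0, 0, 12, 14], [0, 0, 12, 1017]⟩)))
    (.nd (.nd (.lf ⟨[.ofNat 0, .ofNat 0, .negSucc 2815, .ofNat 800], (.tr (.lf 1) (.lf 2) (.tr (.dx 3 .on) (.tr (.lf 5) (.tw (.lf 17) (.lf 18)) (.lf 11)) (.lf 6))), 3, [0, 0, 1017, 1017, 12, 12, 12, 12], [0, 0, 2, 2, 12, 12, 12, 12]⟩)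
    (.lf ⟨[.ofNat 0, .ofNat 0, .ofNat 2432], (.tr (.dx 3 .on) (.tr (.lf 1) (.lf 5) (.tr (.lf 6) (.tw (.lf 17) (.lf 18)) (.lf 11))) (.lf 2)), 3, [15, 15, 13, 13, 13, 13, 13, 13], [15, 15, 13, 13, 13, 13, 13, 13]⟩))
    (.nd (.lf ⟨[.ofNat 1664, .negSucc 191, .negSucc 2207, .ofNat 272], (.tr (.lf 5) (.tr (.lf 18) (.lf 2) (.tr (.lf 6) (.dx 3 (.tw (.lf 1) (.lf 17))) (.lf 9))) (.lf 10)), 3, [7, 7, 11, 11, 4, 4, 8, 8], [11, 11, 8, 8]⟩)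
    (.lf ⟨[.ofNat 0, .negSucc 4991, .ofNat 6272, .ofNat 1984], (.tr (.dx 0 (.tr (.lf 13) (.lf 5) (.tr (.lf 9) (.lf 14) (.lf 17)))) (.lf 6) (.tw (.lf 10) (.lf 18))), 0, [0, 1023, 0, 23, 2, 2, 14, 23], []⟩))))

/-- data -/
def dE18x13 : RT := (.nd (.nd (.nd (.lf ⟨[.ofNat 0, .ofNat 15488, .negSucc 5119, .negSucc 2303], (.tr (.dx 0 (.tr (.lf 13) (.tr (.lf 5) (.lf 9) (.lf 14)) (.lf 17))) (.lf 6) (.tw (.lf 10) (.lf 18))), 0, [0, 1023, 2, 23, 12, 12, 14, 23], []⟩)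
    (.lf ⟨[.ofNat 0, .negSucc 1663, .ofNat 2880, .ofNat 480], (.tr (.tw (.dx 0 (.tr (.lf 13) (.lf 5) (.tr (.lf 9) (.lf 14) (.lf 17)))) (.lf 6)) (.lf 18) (.lf 10)), 0, [1023, 23, 2, 23, 4, 4, 4, 16], []⟩))
    (.nd (.lf ⟨[.ofNat 0, .ofNat 8832, .negSucc 24767, .ofNat 3168], (.tr (.dx 0 (.tr (.lf 13) (.lf 5) (.tr (.lf 9) (.lf 14) (.lf 17)))) (.tw (.lf 6) (.lf 18)) (.lf 10)), 0, [1023, 23, 23, 23, 2, 23, 23, 23], []⟩)
    (.lf ⟨[.ofNat 0, .negSucc 15487, .ofNat 5120, .ofNat 2304], (.tr (.dx 0 (.tr (.lf 13) (.tr (.lf 5) (.lf 9) (.lf 14)) (.lf 17))) (.tw (.lf 6) (.lf 18)) (.lf 10)), 0, [1023, 23, 23, 23, 12, 23, 23, 23], []⟩)))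
    (.nd (.nd (.lf ⟨[.ofNat 0, .ofNat 8576, .negSucc 4191, .negSucc 1407], (.tr (.lf 6) (.dx 0 (.tr (.lf 17) (.lf 13) (.tr (.lf 9) (.lf 5) (.lf 14)))) (.tw (.lf 10) (.lf 18))), 0, [16, 16, 16, 16, 4, 4, 4, 4], []⟩)
    (.lf ⟨[.ofNat 0, .ofNat 2720, .negSucc 199, .ofNat 16], (.tr (.lf 6) (.tw (.dx 0 (.tw (.lf 9) (.tr (.lf 5) (.tw (.lf 13) (.lf 14)) (.lf 17)))) (.lf 10)) (.lf 18)), 0, [4, 4, 16, 16, 4, 4, 16, 16, 8, 8, 20, 20, 8, 8, 20, 20], []⟩))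
    (.nd (.lf ⟨[.ofNat 0, .negSucc 2719, .ofNat 200, .negSucc 15], (.tr (.tw (.dx 0 (.tw (.lf 5) (.tr (.lf 9) (.lf 17) (.tw (.lf 13) (.lf 14))))) (.lf 6)) (.lf 10) (.lf 18)), 0, [12, 12, 0, 0, 14, 14, 2, 2, 16, 16, 4, 4, 16, 16, 4, 4], []⟩)
    (.lf ⟨[.ofNat 0, .negSucc 2623, .negSucc 1919, .negSucc 479], (.tr (.lf 6) (.dx 0 (.tw (.lf 17) (.tr (.lf 13) (.tw (.lf 5) (.lf 9)) (.lf 14)))) (.tw (.lf 10) (.lf 18))), 0, [16, 16, 16, 16, 16, 16, 16, 16, 4, 4, 4, 4, 4, 4, 4, 4], []⟩))))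

/-- data -/
def dE18x14 : RT := (.nd (.nd (.nd (.lf ⟨[.ofNat 0, .negSucc 7007, .ofNat 2296, .ofNat 688], (.tr (.dx 0 (.tw (.lf 5) (.lf 9))) (.lf 13) (.tw (.lf 14) (.tr (.lf 17) (.tw (.lf 6) (.lf 10)) (.lf 18)))), 0, [0, 0, 0, 0, 0, 0, 0, 0, 2, 2, 2, 2, 2, 2, 2, 2], [0, 2, 0, 2, 0, 2, 0, 2]⟩)
    (.lf ⟨[.ofNat 0, .negSucc 831, .ofNat 896, .ofNat 224], (.tr (.dx 0 (.tw (.lf 5) (.lf 13))) (.tr (.lf 9) (.tr (.lf 6) (.lf 17) (.lf 14)) (.lf 10)) (.lf 18)), 0, [0, 0, 0, 0, 0, 0, 0, 0], [14, 2, 14, 2]⟩))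
    (.nd (.lf ⟨[.ofNat 0, .negSucc 3199, .ofNat 4928, .ofNat 1280], (.tr (.lf 1) (.dx 3 .on) (.tr (.lf 5) (.lf 9) (.tr (.lf 6) (.lf 10) (.tr (.lf 17) (.lf 2) (.lf 18))))), 3, [0, 0, 21, 21, 21, 21, 21, 21], [0, 0, 21, 21, 21, 21, 21, 21]⟩)
    (.lf ⟨[.ofNat 0, .negSucc 15567, .ofNat 8752], (.tr (.lf 17) (.lf 9) (.tr (.lf 2) (.tr (.lf 10) (.dx 3 (.tw (.lf 1) (.lf 5))) (.lf 18)) (.lf 6))), 3, [17, 17, 9, 9, 13, 13, 3, 3], [21, 9, 15, 3]⟩)))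
    (.nd (.nd (.lf ⟨[.ofNat 0, .ofNat 832, .negSucc 63, .negSucc 303], (.tw (.dx 3 (.tr (.lf 1) (.tw (.lf 2) (.lf 5)) (.lf 17))) (.tr (.lf 6) (.tw (.lf 9) (.lf 10)) (.lf 18))), 3, [1023, 1023, 21, 21, 23, 23, 21, 21, 23, 23, 21, 21, 23, 23, 21, 21], []⟩)
    (.lf ⟨[.ofNat 0, .negSucc 3327, .ofNat 13952, .negSucc 1215], (.tr (.tw (.dx 3 (.tr (.lf 1) (.lf 5) (.tr (.lf 9) (.lf 2) (.lf 17)))) (.lf 6)) (.lf 10) (.lf 18)), 3, [0, 1023, 1017, 23, 4, 4, 8, 4], []⟩))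
    (.nd (.lf ⟨[.ofNat 0, .ofNat 2496, .negSucc 7871, .ofNat 384], (.tr (.lf 6) (.dx 3 (.tw (.lf 17) (.tr (.lf 1) (.tw (.lf 5) (.lf 9)) (.lf 2)))) (.tw (.lf 10) (.lf 18))), 3, [4, 1015, 4, 1015, 4, 1015, 4, 1015, 4, 4, 4, 4, 4, 4, 4, 4], []⟩)
    (.lf ⟨[.ofNat 0, .negSucc 4415, .ofNat 3776, .negSucc 8975], (.tr (.lf 9) (.dx 3 (.tr (.lf 1) (.lf 17) (.tw (.lf 5) (.lf 18)))) (.tr (.lf 2) (.lf 10) (.lf 6))), 3, [9, 3, 9, 3, 9, 3, 9, 3], []⟩))))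

/-- data -/
def dE18x15 : RT := (.nd (.nd (.nd (.lf ⟨[.ofNat 0, .negSucc 4479, .ofNat 512, .ofNat 160], (.tr (.lf 5) (.tr (.lf 14) (.lf 17) (.tr (.lf 6) (.tw (.dx 0 (.lf 13)) (.lf 18)) (.lf 9))) (.lf 10)), 0, [19, 7, 23, 11, 4, 16, 8, 20], [19, 19, 23, 23, 16, 16, 20, 20]⟩)
    (.lf ⟨[.ofNat 0, .ofNat 0, .ofNat 2816], (.tr (.lf 5) (.tr (.lf 19) (.lf 13) (.tr (.lf 6) (.tw (.dx 0 .on) (.lf 14)) (.lf 9))) (.lf 10)), 0, [7, 7, 11, 11, 4, 4, 8, 8], [7, 7, 11, 11, 4, 4, 8, 8]⟩))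
    (.nd (.lf ⟨[.ofNat 0, .ofNat 15872, .ofNat 30688, .negSucc 3391], (.tr (.lf 6) (.lf 14) (.tr (.dx 0 (.tr (.lf 5) (.tw (.lf 9) (.lf 13)) (.lf 17))) (.lf 18) (.lf 10))), 0, [4, 4, 19, 19, 8, 1017, 1, 1], [1015, 1017]⟩)
    (.lf ⟨[.ofNat 0, .negSucc 3455, .ofNat 704], (.tw (.dx 3 (.tr (.lf 1) (.lf 17) (.tw (.lf 5) (.lf 18)))) (.tr (.lf 2) (.tw (.lf 9) (.lf 10)) (.lf 6))), 3, [9, 9, 3, 3, 9, 9, 3, 3, 9, 9, 3, 3, 9, 9, 3, 3], []⟩)))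
    (.nd (.nd (.lf ⟨[.ofNat 0, .ofNat 0, .ofNat 0, .negSucc 3199, .ofNat 800], (.tr (.lf 13) (.lf 5) (.tr (.lf 6) (.tr (.dx 0 .on) (.lf 14) (.lf 11)) (.lf 19))), 0, [4, 8, 9, 5], [4, 8, 9, 5]⟩)
    (.lf ⟨[.ofNat 0, .ofNat 0, .negSucc 1599, .ofNat 400], (.tr (.lf 13) (.lf 5) (.tr (.lf 6) (.tr (.dx 0 .on) (.lf 14) (.tw (.lf 9) (.lf 10))) (.lf 19))), 0, [4, 4, 8, 8, 9, 9, 5, 5], [4, 4, 8, 8, 9, 9, 5, 5]⟩))
    (.nd (.lf ⟨[.ofNat 0, .ofNat 0, .negSucc 4095, .ofNat 2624], (.tr (.lf 13) (.tr (.lf 5) (.lf 6) (.tr (.dx 0 .on) (.lf 14) (.lf 11))) (.lf 19)), 0, [4, 8, 21, 17], [4, 8, 21, 17]⟩)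
    (.lf ⟨[.ofNat 0, .ofNat 2048, .negSucc 1311], (.tr (.dx 3 (.lf 1)) (.tr (.lf 5) (.lf 6) (.tr (.lf 2) (.lf 17) (.tw (.lf 9) (.lf 10)))) (.lf 18)), 3, [19, 19, 1015, 1015, 21, 21, 17, 17], [4, 4, 8, 8, 21, 21, 17, 17]⟩))))

/-- data -/
def dE18x16 : RT := (.nd (.nd (.nd (.lf ⟨[.ofNat 0, .ofNat 0, .negSucc 6783, .negSucc 2015, .negSucc 63], (.tr (.lf 13) (.lf 9) (.tr (.lf 10) (.tr (.dx 0 (.lf 5)) (.lf 14) (.lf 6)) (.lf 19))), 0, [6, 10, 11, 7], [6, 10, 11, 7]⟩)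
    (.lf ⟨[.ofNat 0, .ofNat 0, .ofNat 6784, .ofNat 2016, .ofNat 64], (.tr (.lf 13) (.tr (.lf 9) (.lf 10) (.tr (.dx 0 (.lf 5)) (.lf 14) (.lf 6))) (.lf 19)), 0, [6, 10, 23, 19], [6, 10, 23, 19]⟩))
    (.nd (.lf ⟨[.negSucc 13311, .ofNat 40192, .ofNat 36352, .ofNat 14016], (.tr (.lf 14) (.tr (.dx 0 (.tr (.tw (.lf 5) (.lf 13)) (.lf 6) (.lf 17))) (.lf 9) (.lf 10)) (.lf 18)), 0, [19, 19, 19, 19, 6, 6, 6, 6], []⟩)
    (.lf ⟨[.negSucc 13311, .ofNat 42560, .ofNat 34480, .ofNat 14864], (.tr (.lf 9) (.tr (.lf 10) (.dx 3 (.tw (.lf 1) (.lf 5))) (.tr (.lf 2) (.lf 17) (.lf 6))) (.lf 18)), 3, [6, 6, 10, 10, 18, 18, 22, 22], [6, 10, 18, 22]⟩)))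
    (.nd (.nd (.lf ⟨[.ofNat 0, .negSucc 3583, .negSucc 6911, .ofNat 128], (.tr (.lf 9) (.dx 0 (.tr (.tw (.lf 5) (.lf 13)) (.lf 6) (.lf 17))) (.tr (.lf 14) (.lf 10) (.lf 18))), 0, [6, 6, 6, 6, 18, 18, 18, 18], []⟩)
    (.lf ⟨[.ofNat 26624, .negSucc 75391, .negSucc 70687, .negSucc 30047], (.tr (.lf 9) (.lf 10) (.tr (.lf 14) (.dx 0 (.tr (.tw (.lf 5) (.lf 13)) (.lf 6) (.lf 17))) (.lf 18))), 0, [6, 6, 6, 6, 18, 18, 18, 18], []⟩))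
    (.nd (.lf ⟨[.ofNat 0, .ofNat 0, .negSucc 2559, .negSucc 7103, .ofNat 320], (.tr (.lf 13) (.lf 5) (.tr (.lf 11) (.lf 14) (.tr (.dx 0 .on) (.lf 19) (.lf 6)))), 0, [17, 13, 11, 7], [17, 13, 11, 7]⟩)
    (.lf ⟨[.ofNat 0, .ofNat 0, .ofNat 4096, .negSucc 4031], (.tr (.lf 17) (.lf 5) (.tr (.lf 2) (.lf 18) (.tr (.lf 6) (.dx 3 (.lf 1)) (.lf 11)))), 3, [7, 5, 15, 13], [11, 9, 15, 13]⟩))))

/-- data -/
def dE18x17 : RT := (.nd (.nd (.nd (.lf ⟨[.ofNat 0, .negSucc 5247, .negSucc 703, .ofNat 160], (.tr (.lf 17) (.lf 5) (.tr (.lf 2) (.lf 18) (.tr (.lf 6) (.dx 3 (.lf 1)) (.tw (.lf 9) (.lf 10))))), 3, [7, 7, 5, 5, 15, 15, 13, 13], [11, 11, 9, 9, 15, 15, 13, 13]⟩)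
    (.lf ⟨[.ofNat 0, .ofNat 0, .ofNat 13824, .negSucc 7935], (.tw (.lf 19) (.tr (.lf 14) (.lf 5) (.tr (.lf 6) (.dx 0 (.lf 13)) (.lf 11)))), 0, [7, 5, 9, 5], [7, 5, 1023, 5]⟩))
    (.nd (.lf ⟨[.ofNat 0, .ofNat 0, .ofNat 27648, .negSucc 2175, .negSucc 319], (.tr (.lf 11) (.lf 5) (.tr (.dx 3 (.lf 1)) (.tw (.lf 2) (.lf 6)) (.lf 19))), 3, [10, 10, 22, 22], [10, 10, 22, 22]⟩)
    (.lf ⟨[.ofNat 0, .ofNat 1664, .negSucc 3391, .negSucc 159], (.tr (.lf 2) (.lf 5) (.tw (.dx 3 (.lf 1)) (.tr (.lf 9) (.lf 6) (.tr (.lf 17) (.lf 10) (.lf 18))))), 3, [0, 0, 1023, 1023, 12, 12, 12, 12], [0, 0, 23, 23, 12, 12, 12, 12]⟩)))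
    (.nd (.nd (.lf ⟨[.ofNat 0, .ofNat 0, .negSucc 2175], (.tr (.lf 9) (.lf 5) (.tw (.lf 2) (.tr (.lf 6) (.dx 3 (.lf 1)) (.tr (.lf 17) (.lf 10) (.lf 18))))), 3, [10, 10, 22, 22, 10, 10, 1023, 1023], [10, 10, 22, 22, 10, 10, 22, 22]⟩)
    (.lf ⟨[.ofNat 0, .ofNat 0, .ofNat 2176], (.tr (.lf 9) (.lf 5) (.tw (.lf 6) (.tr (.dx 3 (.lf 1)) (.tr (.lf 17) (.lf 10) (.lf 18)) (.lf 2)))), 3, [10, 10, 22, 22, 10, 10, 22, 22], [10, 10, 22, 22, 17, 17, 22, 22]⟩))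
    (.nd (.lf ⟨[.ofNat 0, .ofNat 0, .ofNat 25600, .ofNat 9472, .ofNat 256], (.tr (.lf 5) (.tr (.lf 6) (.dx 0 (.lf 13)) (.tr (.lf 14) (.lf 9) (.lf 19))) (.lf 10)), 0, [4, 4, 11, 11], [4, 16, 23, 11]⟩)
    (.lf ⟨[.ofNat 0, .ofNat 0, .negSucc 959, .negSucc 2255, .negSucc 31], (.tr (.tw (.dx 0 (.tr (.tw (.lf 5) (.lf 9)) (.lf 6) (.lf 13))) (.lf 14)) (.lf 19) (.lf 10)), 0, [0, 2, 0, 0, 19, 19, 19, 19], []⟩))))

/-- data -/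
def dE18x18 : RT := (.nd (.nd (.nd (.lf ⟨[.ofNat 0, .ofNat 0, .negSucc 8959, .negSucc 4607, .ofNat 320], (.tr (.lf 5) (.lf 19) (.tr (.lf 2) (.lf 6) (.tr (.dx 3 (.lf 1)) (.lf 9) (.lf 10)))), 3, [7, 16, 1, 1], [11, 16, 1, 1]⟩)
    (.lf ⟨[.ofNat 0, .ofNat 0, .negSucc 767, .ofNat 2496], (.tr (.lf 2) (.tr (.lf 5) (.tr (.dx 3 (.lf 1)) (.lf 9) (.lf 10)) (.lf 19)) (.lf 6)), 3, [0, 0, 9, 5], [0, 0, 9, 9]⟩))
    (.nd (.lf ⟨[.ofNat 0, .ofNat 0, .ofNat 0, .negSucc 13055, .negSucc 8511, .ofNat 640], (.tr (.lf 5) (.tr (.lf 6) (.tw (.dx 0 .on) (.lf 15)) (.lf 19)) (.lf 11)), 0, [4, 4, 11, 11], [4, 4, 11, 11]⟩)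
    (.lf ⟨[.ofNat 0, .ofNat 4480, .ofNat 2304, .negSucc 159], (.tr (.lf 1) (.dx 3 .on) (.tr (.lf 5) (.lf 2) (.tr (.lf 9) (.lf 10) (.tr (.lf 17) (.lf 6) (.lf 18))))), 3, [0, 0, 23, 23, 17, 17, 17, 17], [0, 0, 23, 23, 17, 17, 17, 17]⟩)))
    (.nd (.nd (.lf ⟨[.ofNat 0, .negSucc 2431, .negSucc 1247], (.tr (.lf 1) (.tr (.dx 3 .on) (.tr (.lf 9) (.lf 10) (.tr (.lf 17) (.lf 5) (.lf 18))) (.lf 2)) (.lf 6)), 3, [17, 17, 17, 17, 14, 14, 12, 12], [17, 17, 17, 17, 14, 14, 12, 12]⟩)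
    (.lf ⟨[.ofNat 0, .ofNat 2816], (.tr (.lf 1) (.tr (.dx 3 .on) (.lf 9) (.tr (.lf 2) (.tr (.lf 17) (.lf 5) (.lf 18)) (.lf 10))) (.lf 6)), 3, [21, 21, 17, 17, 12, 12, 14, 14], [21, 21, 17, 17, 12, 12, 14, 14]⟩))
    (.nd (.lf ⟨[.ofNat 0, .ofNat 0, .negSucc 15679, .negSucc 5679, .ofNat 64], (.tr (.lf 6) (.tw (.dx 0 (.tr (.lf 5) (.lf 13) (.tw (.lf 9) (.lf 14)))) (.lf 19)) (.lf 10)), 0, [4, 4, 4, 4, 7, 7, 7, 7], []⟩)
    (.lf ⟨[.ofNat 0, .ofNat 992, .ofNat 680, .negSucc 63], (.tr (.lf 1) (.dx 3 .on) (.tr (.lf 9) (.lf 5) (.tr (.lf 6) (.lf 10) (.tr (.lf 17) (.lf 2) (.lf 18))))), 3, [2, 2, 21, 21, 23, 23, 23, 23], [2, 2, 21, 21, 23, 23, 23, 23]⟩))))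

/-- data -/
def dE18x19 : RT := (.nd (.nd (.nd (.lf ⟨[.ofNat 0, .negSucc 383, .ofNat 352], (.tr (.lf 5) (.lf 1) (.tr (.lf 9) (.dx 3 .on) (.tr (.lf 2) (.lf 6) (.tr (.lf 17) (.lf 10) (.lf 18))))), 3, [4, 4, 4, 4, 16, 16, 16, 16], [4, 4, 4, 4, 16, 16, 16, 16]⟩)
    (.lf ⟨[.ofNat 0, .ofNat 0, .ofNat 1664, .ofNat 3200, .negSucc 159], (.tr (.lf 1) (.tw (.dx 3 .on) (.tr (.lf 2) (.lf 19) (.tw (.lf 5) (.lf 6)))) (.lf 11)), 3, [23, 23, 19, 19, 12, 12, 12, 12], [23, 23, 19, 19, 12, 12, 12, 12]⟩))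
    (.nd (.lf ⟨[.ofNat 0, .ofNat 4864, .ofNat 1056, .negSucc 159], (.tr (.lf 2) (.tr (.lf 17) (.lf 18) (.tr (.lf 5) (.dx 3 (.lf 1)) (.tw (.lf 9) (.lf 10)))) (.lf 6)), 3, [9, 9, 5, 5, 0, 0, 2, 2], [9, 9, 9, 9, 0, 0, 2, 2]⟩)
    (.lf ⟨[.ofNat 0, .negSucc 6527, .negSucc 4255, .ofNat 320], (.tr (.lf 2) (.lf 17) (.tr (.lf 5) (.tr (.lf 6) (.dx 3 (.lf 1)) (.tw (.lf 9) (.lf 10))) (.lf 18))), 3, [12, 12, 12, 12, 9, 9, 5, 5], [12, 12, 12, 12, 9, 9, 9, 9]⟩)))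
    (.nd (.nd (.lf ⟨[.ofNat 0, .ofNat 2048, .negSucc 2015], (.tr (.lf 5) (.lf 13) (.tr (.lf 9) (.tr (.dx 0 .on) (.tr (.lf 17) (.lf 6) (.lf 18)) (.lf 10)) (.lf 14))), 0, [8, 8, 8, 8, 23, 23, 19, 19], [8, 8, 8, 8, 23, 23, 19, 19]⟩)
    (.lf ⟨[.ofNat 0, .negSucc 2047, .ofNat 2016], (.tr (.lf 5) (.lf 13) (.tr (.lf 9) (.lf 10) (.tr (.lf 14) (.dx 0 .on) (.tr (.lf 17) (.lf 6) (.lf 18))))), 0, [8, 8, 8, 8, 23, 23, 7, 7], [8, 8, 8, 8, 23, 23, 7, 7]⟩))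
    (.nd (.lf ⟨[.ofNat 0, .negSucc 2751, .negSucc 2975, .negSucc 79], (.tr (.dx 0 (.tw (.lf 13) (.lf 17))) (.lf 14) (.tr (.lf 5) (.tr (.lf 6) (.lf 18) (.lf 9)) (.lf 10))), 0, [23, 23, 21, 21, 23, 23, 21, 21], [23, 23, 21, 21]⟩)
    (.lf ⟨[.ofNat 0, .ofNat 13312, .negSucc 37631, .negSucc 5887, .ofNat 640], (.tr (.lf 2) (.lf 17) (.tr (.lf 5) (.lf 11) (.tr (.dx 3 (.lf 1)) (.lf 6) (.lf 18)))), 3, [12, 12, 21, 9], [12, 12, 21, 9]⟩))))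

/-- data -/
def dE18x20 : RT := (.nd (.nd (.nd (.lf ⟨[.ofNat 0, .ofNat 0, .ofNat 9728, .ofNat 704], (.tr (.lf 5) (.lf 11) (.tr (.lf 2) (.lf 17) (.tr (.dx 3 (.lf 1)) (.lf 6) (.lf 18)))), 3, [20, 20, 8, 20], [20, 20, 8, 20]⟩)
    (.lf ⟨[.ofNat 0, .ofNat 0, .ofNat 4864], (.tr (.lf 2) (.tw (.dx 3 (.tr (.lf 1) (.lf 17) (.tw (.lf 5) (.lf 18)))) (.lf 11)) (.lf 6)), 3, [9, 9, 9, 9, 2, 2, 2, 2], []⟩))
    (.nd (.lf ⟨[.ofNat 0, .ofNat 3712, .ofNat 1184, .negSucc 159], (.tr (.lf 5) (.lf 13) (.tr (.lf 9) (.tr (.lf 10) (.dx 0 .on) (.tr (.lf 17) (.lf 6) (.lf 18))) (.lf 14))), 0, [8, 8, 8, 8, 23, 23, 19, 19], [8, 8, 8, 8, 23, 23, 19, 19]⟩)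
    (.lf ⟨[.ofNat 0, .ofNat 13312, .negSucc 40959, .negSucc 11583, .ofNat 960], (.tr (.lf 2) (.lf 17) (.tr (.lf 5) (.tr (.dx 3 (.lf 1)) (.lf 11) (.lf 6)) (.lf 18))), 3, [12, 12, 9, 5], [12, 12, 9, 9]⟩)))
    (.nd (.nd (.lf ⟨[.ofNat 0, .ofNat 4096, .ofNat 3008, .negSucc 319], (.tr (.lf 5) (.lf 13) (.tr (.lf 9) (.lf 10) (.tr (.dx 0 .on) (.tr (.lf 17) (.lf 6) (.lf 18)) (.lf 14)))), 0, [8, 8, 13, 13, 11, 11, 19, 19], [8, 8, 8, 8, 11, 11, 19, 19]⟩)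
    (.lf ⟨[.negSucc 6655, .ofNat 10624, .ofNat 544, .ofNat 160], (.tr (.lf 5) (.tr (.lf 6) (.tr (.dx 0 .on) (.tr (.lf 17) (.lf 9) (.lf 18)) (.lf 13)) (.lf 14)) (.lf 10)), 0, [16, 16, 8, 8, 11, 11, 23, 23], [16, 16, 8, 8, 11, 11, 23, 23]⟩))
    (.nd (.lf ⟨[.ofNat 0, .ofNat 0, .ofNat 4096, .ofNat 2112, .negSucc 319], (.tr (.lf 2) (.tr (.lf 5) (.tr (.lf 11) (.dx 3 (.lf 1)) (.lf 17)) (.lf 18)) (.lf 6)), 3, [0, 12, 17, 9], [0, 12, 21, 9]⟩)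
    (.lf ⟨[.ofNat 6656, .negSucc 12671, .negSucc 1599], (.tr (.lf 5) (.lf 13) (.tr (.lf 9) (.lf 6) (.tr (.dx 0 .on) (.tr (.lf 17) (.lf 10) (.lf 18)) (.lf 14)))), 0, [8, 8, 15, 15, 11, 11, 23, 23], [8, 8, 8, 8, 11, 11, 23, 23]⟩))))

/-- data -/
def dE18x21 : RT := (.nd (.nd (.nd (.lf ⟨[.ofNat 8320, .negSucc 12031, .negSucc 11215, .negSucc 5967], (.tr (.lf 2) (.tr (.dx 3 (.tw (.lf 1) (.lf 5))) (.tr (.lf 17) (.lf 6) (.lf 18)) (.lf 9)) (.lf 10)), 3, [23, 23, 23, 23, 14, 14, 14, 14], [23, 23, 14, 14]⟩)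
    (.lf ⟨[.ofNat 0, .ofNat 10624, .ofNat 9264, .ofNat 5216], (.tr (.lf 9) (.dx 3 (.tw (.lf 1) (.lf 5))) (.tr (.lf 2) (.lf 10) (.tr (.lf 17) (.lf 6) (.lf 18)))), 3, [6, 6, 15, 15, 10, 10, 15, 15], [6, 6, 15, 15]⟩))
    (.nd (.lf ⟨[.negSucc 8319, .ofNat 9984, .ofNat 12336, .ofNat 5968], (.tr (.lf 9) (.lf 10) (.tr (.lf 2) (.dx 3 (.tw (.lf 1) (.lf 5))) (.tr (.lf 17) (.lf 6) (.lf 18)))), 3, [6, 6, 6, 6, 22, 22, 22, 22], [6, 6, 22, 22]⟩)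
    (.lf ⟨[.ofNat 0, .ofNat 4864, .negSucc 863, .negSucc 159], (.tr (.dx 0 .on) (.lf 5) (.tr (.lf 13) (.lf 6) (.tr (.lf 9) (.lf 14) (.tr (.lf 17) (.lf 10) (.lf 18))))), 0, [0, 0, 0, 0, 0, 0, 12, 12], [0, 0, 0, 0, 0, 0, 12, 12]⟩)))
    (.nd (.nd (.lf ⟨[.ofNat 0, .ofNat 4864, .negSucc 863, .negSucc 159], (.tr (.dx 0 .on) (.tr (.lf 5) (.lf 13) (.tr (.lf 17) (.lf 6) (.tr (.lf 9) (.lf 18) (.lf 10)))) (.lf 14)), 0, [0, 0, 0, 0, 12, 12, 14, 14], [0, 0, 0, 0, 12, 12, 14, 14]⟩)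
    (.lf ⟨[.ofNat 0, .ofNat 0, .negSucc 26751, .ofNat 4928], (.tr (.lf 11) (.dx 0 (.tr (.tw (.lf 5) (.lf 13)) (.lf 6) (.lf 17))) (.tw (.lf 14) (.lf 18))), 0, [6, 6, 6, 6, 18, 18, 18, 18], []⟩))
    (.nd (.lf ⟨[.ofNat 0, .negSucc 2047, .ofNat 1120], (.tr (.dx 0 .on) (.lf 13) (.tr (.lf 5) (.lf 14) (.tr (.lf 17) (.lf 6) (.tr (.lf 9) (.lf 18) (.lf 10))))), 0, [0, 0, 0, 0, 0, 0, 2, 2], [23, 23, 0, 0, 9, 9, 2, 2]⟩)
    (.lf ⟨[.ofNat 0, .negSucc 13311, .ofNat 29056, .ofNat 1920, .negSucc 319], (.tr (.dx 0 (.tr (.tw (.lf 5) (.lf 13)) (.lf 6) (.lf 17))) (.tw (.lf 14) (.lf 18)) (.lf 11)), 0, [0, 0, 0, 0, 12, 12, 12, 12], []⟩))))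

/-- data -/
def dE18x22 : RT := (.nd (.nd (.nd (.lf ⟨[.ofNat 0, .negSucc 13311, .ofNat 23424, .ofNat 9664, .negSucc 639], (.tr (.tw (.lf 2) (.lf 6)) (.dx 3 (.tr (.tw (.lf 1) (.lf 17)) (.lf 5) (.lf 18))) (.lf 11)), 3, [0, 0, 0, 0, 4, 4, 4, 4], []⟩)
    (.lf ⟨[.ofNat 0, .ofNat 9664, .ofNat 4624, .ofNat 6400], (.tr (.lf 14) (.dx 0 (.tw (.lf 13) (.lf 17))) (.tr (.lf 5) (.lf 6) (.tr (.lf 9) (.lf 18) (.lf 10)))), 0, [23, 23, 21, 21, 23, 23, 21, 21], [23, 23, 21, 21]⟩))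
    (.nd (.lf ⟨[.negSucc 6655, .ofNat 7200, .ofNat 19040, .negSucc 831], (.tr (.dx 3 (.tw (.lf 1) (.lf 17))) (.lf 2) (.tr (.lf 5) (.lf 6) (.tr (.lf 9) (.lf 18) (.lf 10)))), 3, [23, 23, 21, 21, 23, 23, 21, 21], [23, 23, 21, 21]⟩)
    (.lf ⟨[.negSucc 8319, .ofNat 320, .ofNat 7712, .negSucc 431], (.tr (.lf 5) (.tr (.dx 0 (.tw (.lf 13) (.lf 17))) (.tr (.lf 9) (.lf 18) (.lf 10)) (.lf 6)) (.lf 14)), 0, [4, 4, 16, 16, 20, 20, 20, 20], [16, 16, 20, 20]⟩)))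
    (.nd (.nd (.lf ⟨[.ofNat 6656, .negSucc 7199, .negSucc 19039, .ofNat 832], (.tr (.dx 3 (.tw (.lf 1) (.lf 17))) (.tr (.lf 2) (.tr (.lf 9) (.lf 18) (.lf 10)) (.lf 5)) (.lf 6)), 3, [21, 21, 17, 17, 21, 21, 17, 17], [21, 21, 17, 17]⟩)
    (.lf ⟨[.ofNat 0, .ofNat 2816, .negSucc 1615], (.tr (.lf 14) (.lf 5) (.tr (.lf 6) (.dx 0 (.tw (.lf 13) (.lf 17))) (.tr (.lf 9) (.lf 18) (.lf 10)))), 0, [19, 19, 19, 19, 17, 5, 17, 5], [19, 19, 17, 17]⟩))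
    (.nd (.lf ⟨[.ofNat 0, .negSucc 1983, .negSucc 1167, .ofNat 160], (.tr (.dx 3 (.tw (.lf 1) (.lf 17))) (.lf 5) (.tr (.lf 6) (.lf 2) (.tr (.lf 9) (.lf 18) (.lf 10)))), 3, [19, 19, 17, 17, 19, 19, 17, 17], [19, 19, 17, 17]⟩)
    (.lf ⟨[.ofNat 0, .negSucc 2015, .ofNat 32], (.tr (.lf 13) (.dx 0 .on) (.tr (.lf 5) (.tw (.lf 14) (.tr (.lf 17) (.tw (.lf 6) (.lf 9)) (.lf 18))) (.lf 10))), 0, [23, 23, 23, 23, 11, 11, 11, 11, 21, 21, 21, 21, 9, 9, 9, 9], [23, 23, 23, 23, 11, 11, 11, 11, 21, 21, 21, 21, 9, 9, 9, 9]⟩))))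

/-- data -/
def dE18x23 : RT := (.nd (.nd (.nd (.lf ⟨[.ofNat 0, .ofNat 3200, .ofNat 2720, .negSucc 159], (.tr (.lf 13) (.dx 0 .on) (.tr (.lf 5) (.lf 14) (.tr (.lf 17) (.lf 6) (.tr (.lf 9) (.lf 18) (.lf 10))))), 0, [23, 23, 0, 0, 9, 9, 9, 9], [23, 23, 21, 21, 9, 9, 9, 9]⟩)
    (.lf ⟨[.ofNat 0, .ofNat 0, .negSucc 1535, .negSucc 5439, .ofNat 320], (.tr (.lf 17) (.lf 11) (.tr (.lf 5) (.lf 18) (.tr (.dx 0 (.lf 13)) (.lf 6) (.lf 14)))), 0, [5, 1, 17, 17], [22, 1, 17, 17]⟩))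
    (.nd (.lf ⟨[.ofNat 0, .ofNat 0, .ofNat 4864], (.tr (.lf 17) (.dx 0 (.lf 13)) (.tr (.lf 5) (.lf 18) (.tr (.lf 11) (.lf 6) (.lf 14)))), 0, [9, 11, 21, 21], [12, 11, 21, 21]⟩)
    (.lf ⟨[.ofNat 0, .ofNat 0, .ofNat 11776, .ofNat 800], (.tr (.lf 14) (.lf 5) (.tr (.tw (.dx 0 (.tw (.lf 13) (.lf 17))) (.lf 11)) (.lf 6) (.lf 18))), 0, [21, 21, 8, 8, 19, 7, 15, 3], [1023, 1023, 19, 15]⟩)))
    (.nd (.nd (.lf ⟨[.ofNat 0, .ofNat 2432, .negSucc 2815], (.tr (.lf 13) (.dx 0 .on) (.tr (.lf 17) (.lf 5) (.tr (.lf 6) (.lf 14) (.tr (.lf 9) (.lf 18) (.lf 10))))), 0, [23, 23, 9, 9, 0, 0, 2, 2], [23, 23, 9, 9, 21, 21, 21, 21]⟩)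
    (.lf ⟨[.ofNat 0, .ofNat 0, .negSucc 4095, .negSucc 3903, .ofNat 320], (.tr (.lf 5) (.lf 13) (.tr (.lf 14) (.dx 0 .on) (.tr (.lf 11) (.lf 6) (.lf 19)))), 0, [4, 23, 8, 8], [4, 23, 8, 8]⟩))
    (.nd (.lf ⟨[.ofNat 0, .ofNat 0, .ofNat 768], (.tr (.lf 5) (.lf 17) (.tr (.lf 14) (.lf 6) (.tr (.lf 11) (.dx 0 (.lf 13)) (.lf 18)))), 0, [20, 7, 20, 16], [20, 19, 20, 16]⟩)
    (.lf ⟨[.ofNat 0, .negSucc 383, .ofNat 352], (.tr (.lf 5) (.lf 13) (.tr (.lf 17) (.lf 6) (.tr (.dx 0 .on) (.tr (.lf 9) (.lf 18) (.lf 10)) (.lf 14)))), 0, [4, 4, 15, 15, 4, 4, 8, 8], [4, 4, 15, 15, 4, 4, 8, 8]⟩))))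

/-- data -/
def dE18x24 : RT := (.nd (.nd (.nd (.lf ⟨[.ofNat 0, .ofNat 0, .negSucc 4095, .ofNat 6080, .negSucc 319], (.tr (.lf 14) (.tr (.lf 11) (.lf 5) (.tr (.lf 6) (.dx 0 (.lf 13)) (.lf 17))) (.lf 18)), 0, [10, 17, 4, 23], [10, 17, 23, 23]⟩)
    (.lf ⟨[.ofNat 0, .negSucc 383, .negSucc 223, .ofNat 160], (.tr (.lf 13) (.tr (.dx 0 .on) (.lf 5) (.tr (.lf 6) (.tr (.lf 9) (.lf 17) (.lf 10)) (.lf 14))) (.lf 18)), 0, [0, 0, 0, 0, 13, 13, 13, 13], [0, 0, 21, 21, 8, 8, 13, 13]⟩))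
    (.nd (.lf ⟨[.ofNat 0, .ofNat 0, .ofNat 0, .negSucc 4863], (.tr (.lf 13) (.tr (.dx 0 .on) (.lf 5) (.tr (.lf 6) (.lf 11) (.lf 14))) (.lf 19)), 0, [0, 0, 13, 13], [0, 0, 8, 13]⟩)
    (.lf ⟨[.ofNat 0, .ofNat 0, .ofNat 768, .negSucc 1599], (.tr (.lf 14) (.tr (.lf 11) (.tr (.dx 0 (.lf 13)) (.lf 5) (.lf 6)) (.lf 17)) (.lf 18)), 0, [6, 10, 23, 19], [6, 10, 23, 19]⟩)))
    (.nd (.nd (.lf ⟨[.ofNat 0, .ofNat 0, .ofNat 2432], (.tr (.lf 14) (.lf 17) (.tw (.lf 18) (.tr (.dx 0 (.lf 13)) (.tw (.lf 5) (.lf 6)) (.lf 11)))), 0, [11, 11, 1, 1, 23, 23, 13, 13], [23, 23, 13, 13, 23, 23, 13, 13]⟩)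
    (.lf ⟨[.ofNat 0, .ofNat 0, .negSucc 17919, .ofNat 320], (.tr (.lf 14) (.tw (.dx 0 (.tr (.tw (.lf 5) (.lf 13)) (.lf 6) (.lf 17))) (.lf 11)) (.lf 18)), 0, [0, 19, 19, 19, 6, 6, 6, 13], []⟩))
    (.nd (.lf ⟨[.ofNat 0, .ofNat 0, .ofNat 18688, .negSucc 1215], (.tr (.dx 3 (.tr (.lf 1) (.tw (.lf 5) (.lf 17)) (.lf 11))) (.tw (.lf 2) (.lf 6)) (.lf 18)), 3, [1017, 1013, 17, 13, 17, 13, 17, 13], []⟩)
    (.lf ⟨[.ofNat 0, .ofNat 0, .negSucc 6143, .ofNat 3232], (.tr (.tw (.dx 3 (.tr (.tw (.lf 1) (.lf 5)) (.lf 17) (.lf 11))) (.lf 2)) (.lf 6) (.lf 18)), 3, [1017, 1013, 17, 17, 0, 0, 2, 2], []⟩))))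

/-- data -/
def dE18 : RT := (.nd (.nd (.nd (.nd dE18x0 (.nd dE18x1 dE18x2)) (.nd dE18x3 (.nd dE18x4 dE18x5))) (.nd (.nd dE18x6 (.nd dE18x7 dE18x8)) (.nd dE18x9 (.nd dE18x10 dE18x11)))) (.nd (.nd (.nd dE18x12 (.nd dE18x13 dE18x14)) (.nd dE18x15 (.nd dE18x16 dE18x17))) (.nd (.nd dE18x18 (.nd dE18x19 dE18x20)) (.nd (.nd dE18x21 dE18x22) (.nd dE18x23 dE18x24)))))

/-- data -/
def lE18x0 : List (ℕ × List ℤ) := [(38117, [.ofNat 0, .ofNat 13312, .negSucc 23039, .negSucc 2431]),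
  (38187, [.ofNat 0, .ofNat 0, .ofNat 0, .ofNat 0, .ofNat 13056, .ofNat 8512, .negSucc 639]),
  (39083, [.ofNat 0, .ofNat 6656, .negSucc 27135, .ofNat 6272, .ofNat 11968, .ofNat 8512, .negSucc 639]),
  (39251, [.ofNat 0, .negSucc 13311, .ofNat 24576, .ofNat 4096]),
  (42597, [.ofNat 0, .ofNat 0, .ofNat 0, .negSucc 13823, .ofNat 7936]),
  (42725, [.ofNat 0, .ofNat 0, .ofNat 0, .negSucc 13823, .ofNat 7936]),
  (42781, [.ofNat 0, .ofNat 0, .ofNat 0, .ofNat 47104, .ofNat 3200]),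
  (42794, [.ofNat 0, .ofNat 0, .ofNat 0, .ofNat 0, .ofNat 13056, .ofNat 8512, .negSucc 639]),
  (43237, [.ofNat 0, .ofNat 0, .ofNat 4608, .negSucc 29759, .negSucc 11839]),
  (43242, [.ofNat 0, .ofNat 0, .ofNat 0, .ofNat 0, .ofNat 13056, .ofNat 8512, .negSucc 639]),
  (50333, [.ofNat 0, .ofNat 0, .negSucc 3327, .ofNat 1536]),
  (50381, [.ofNat 0, .ofNat 0, .negSucc 1791, .ofNat 3200]),
  (50405, [.ofNat 0, .ofNat 0, .ofNat 4608, .negSucc 29759, .negSucc 11839]),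
  (135837, [.ofNat 0, .ofNat 0, .ofNat 0, .negSucc 13823, .ofNat 7936]),
  (304413, [.ofNat 0, .ofNat 0, .negSucc 10495, .ofNat 256, .negSucc 767, .ofNat 1600]),
  (304427, [.ofNat 0, .ofNat 0, .ofNat 0, .negSucc 12287, .negSucc 11007, .ofNat 640]),
  (304917, [.ofNat 0, .negSucc 13311, .ofNat 23040, .ofNat 2432, .negSucc 767, .ofNat 1600]),
  (304925, [.ofNat 0, .ofNat 13312, .negSucc 63999, .negSucc 11839, .ofNat 7712]),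
  (305309, [.ofNat 0, .negSucc 33279, .ofNat 39936, .ofNat 49344, .ofNat 23872]),
  (305323, [.ofNat 0, .ofNat 0, .ofNat 1536, .negSucc 1407]),
  (305501, [.ofNat 0, .ofNat 33280, .negSucc 39935, .negSucc 49343, .negSucc 23871]),
  (305515, [.ofNat 0, .ofNat 0, .negSucc 13311, .ofNat 36864, .ofNat 9472, .negSucc 639]),
  (312491, [.ofNat 0, .ofNat 0, .negSucc 11007, .negSucc 20863, .negSucc 4927, .ofNat 320]),
  (312554, [.ofNat 0, .negSucc 6655, .ofNat 768, .ofNat 17792, .ofNat 3520, .negSucc 319]),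
  (312619, [.ofNat 0, .ofNat 0, .negSucc 8191, .ofNat 4480]),
  (312659, [.ofNat 0, .negSucc 13311, .ofNat 42496, .ofNat 2048, .negSucc 639]),
  (312666, [.ofNat 0, .ofNat 13312, .negSucc 41215, .ofNat 18560, .ofNat 3904, .negSucc 1599]),
  (312669, [.ofNat 0, .ofNat 53248, .negSucc 170239, .negSucc 137919, .negSucc 59455]),
  (314010, [.ofNat 0, .ofNat 0, .ofNat 20992, .negSucc 511]),
  (314019, [.ofNat 0, .ofNat 0, .ofNat 0, .ofNat 4096, .ofNat 2112, .negSucc 319]),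
  (333541, [.ofNat 0, .ofNat 0, .ofNat 3328, .negSucc 255, .negSucc 1215]),
  (334045, [.ofNat 0, .ofNat 0, .ofNat 4864, .negSucc 8767, .negSucc 255]),
  (334061, [.ofNat 0, .ofNat 0, .negSucc 47551, .ofNat 25536, .ofNat 10304]),
  (334123, [.ofNat 0, .ofNat 0, .negSucc 511, .negSucc 31743, .ofNat 4096]),
  (334170, [.ofNat 0, .ofNat 0, .negSucc 55615, .negSucc 9535, .negSucc 20799]),
  (336669, [.ofNat 0, .ofNat 0, .negSucc 1535, .ofNat 3200]),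
  (337677, [.ofNat 0, .ofNat 0, .negSucc 15359, .ofNat 4224]),
  (337701, [.ofNat 0, .ofNat 0, .ofNat 0, .ofNat 9728]),
  (338027, [.ofNat 0, .ofNat 0, .ofNat 0, .ofNat 3328, .ofNat 6400, .negSucc 319]),
  (338155, [.ofNat 0, .ofNat 0, .negSucc 12031, .negSucc 575, .ofNat 6400, .negSucc 319]),
  (340709, [.ofNat 0, .ofNat 0, .negSucc 55615, .negSucc 9535, .negSucc 20799]),
  (341773, [.ofNat 0, .ofNat 0, .negSucc 13823, .ofNat 1024]),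
  (341802, [.ofNat 0, .ofNat 0, .ofNat 0, .negSucc 3327, .negSucc 6399, .ofNat 320]),
  (342221, [.ofNat 0, .negSucc 6655, .negSucc 24191, .negSucc 56447, .ofNat 2240]),
  (342250, [.ofNat 0, .ofNat 0, .ofNat 1536, .negSucc 1407]),
  (342285, [.ofNat 0, .ofNat 0, .ofNat 0, .ofNat 9728, .ofNat 704]),
  (342317, [.ofNat 0, .ofNat 0, .ofNat 0, .ofNat 896, .ofNat 9088, .ofNat 64]),
  (342348, [.ofNat 0, .ofNat 0, .ofNat 0, .negSucc 4863, .ofNat 2816]),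
  (342356, [.ofNat 0, .ofNat 0, .negSucc 3327, .ofNat 3584, .ofNat 896]),
  (342378, [.ofNat 0, .ofNat 0, .ofNat 0, .negSucc 4095, .negSucc 2111, .ofNat 320]),
  (344747, [.ofNat 0, .ofNat 0, .negSucc 11007, .negSucc 11903, .negSucc 319]),
  (344810, [.ofNat 0, .negSucc 6655, .ofNat 768, .ofNat 8832, .negSucc 1087]),
  (344922, [.ofNat 0, .ofNat 0, .negSucc 16639, .ofNat 17792, .ofNat 3136]),
  (344931, [.ofNat 0, .ofNat 0, .ofNat 13312, .negSucc 27903, .negSucc 5183, .ofNat 640]),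
  (344939, [.ofNat 0, .ofNat 0, .negSucc 13311, .ofNat 27904, .ofNat 5184, .negSucc 639]),
  (345293, [.ofNat 0, .ofNat 0, .negSucc 23807, .negSucc 11327, .ofNat 7072]),
  (345309, [.ofNat 0, .ofNat 0, .negSucc 2303, .negSucc 1535]),
  (345898, [.ofNat 0, .ofNat 33280, .negSucc 5631, .negSucc 7807, .negSucc 3007]),
  (345932, [.ofNat 0, .negSucc 53247, .ofNat 170240, .ofNat 151488, .ofNat 69888, .negSucc 1471]),
  (345955, [.ofNat 0, .ofNat 0, .ofNat 0, .ofNat 768]),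
  (345962, [.ofNat 0, .ofNat 0, .ofNat 0, .negSucc 4095, .negSucc 3903, .ofNat 320]),
  (346475, [.ofNat 0, .ofNat 0, .ofNat 0, .negSucc 895, .negSucc 9087, .negSucc 63]),
  (346781, [.ofNat 0, .ofNat 0, .ofNat 0, .negSucc 3327, .ofNat 5440, .negSucc 319]),
  (346829, [.ofNat 0, .ofNat 0, .ofNat 512, .ofNat 45568, .negSucc 6783, .ofNat 1600]),
  (346837, [.ofNat 0, .ofNat 0, .ofNat 65600, .negSucc 38591, .negSucc 895]),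
  (346845, [.ofNat 0, .ofNat 0, .negSucc 13311, .ofNat 36864, .negSucc 7295, .ofNat 1600]),
  (346850, [.ofNat 0, .ofNat 0, .ofNat 0, .ofNat 4096, .ofNat 2112, .negSucc 319]),
  (398493, [.ofNat 0, .negSucc 26623, .ofNat 67456, .ofNat 94656, .ofNat 22272]),
  (398507, [.ofNat 0, .ofNat 0, .ofNat 12032, .ofNat 3904]),
  (398557, [.ofNat 0, .ofNat 0, .ofNat 3328, .negSucc 11135, .ofNat 640]),
  (402141, [.ofNat 0, .ofNat 0, .ofNat 0, .negSucc 8959, .negSucc 4607, .ofNat 320]),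
  (402268, [.ofNat 0, .ofNat 0, .ofNat 0, .ofNat 7424, .negSucc 1535]),
  (402269, [.ofNat 0, .ofNat 0, .negSucc 42495, .negSucc 37055, .negSucc 20863]),
  (402283, [.ofNat 0, .ofNat 0, .negSucc 13311, .ofNat 40960, .ofNat 11584, .negSucc 959]),
  (402668, [.ofNat 0, .ofNat 0, .ofNat 13312, .negSucc 40959, .negSucc 11583, .ofNat 960]),
  (403085, [.ofNat 0, .ofNat 0, .ofNat 22528, .negSucc 9023, .ofNat 960]),
  (403116, [.ofNat 0, .ofNat 0, .negSucc 47039, .ofNat 57280, .ofNat 6208]),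
  (403213, [.ofNat 0, .ofNat 0, .ofNat 0, .ofNat 768]),
  (403221, [.ofNat 0, .ofNat 0, .ofNat 13312, .negSucc 37631, .negSucc 5887, .ofNat 640]),
  (403284, [.ofNat 0, .ofNat 0, .negSucc 511, .negSucc 31743, .negSucc 8511, .ofNat 640]),
  (403693, [.ofNat 0, .ofNat 0, .negSucc 5631, .ofNat 1792]),
  (404173, [.ofNat 0, .ofNat 0, .ofNat 0, .negSucc 6655, .negSucc 3071, .ofNat 320]),
  (404180, [.ofNat 0, .ofNat 0, .negSucc 511, .negSucc 34943, .negSucc 13023, .ofNat 576]),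
  (404181, [.ofNat 0, .ofNat 0, .ofNat 13824, .negSucc 6015, .ofNat 1440, .ofNat 384]),
  (404188, [.ofNat 0, .ofNat 0, .ofNat 0, .ofNat 6656, .ofNat 3072, .negSucc 319]),
  (404204, [.ofNat 0, .ofNat 0, .negSucc 3071, .ofNat 4736, .negSucc 14783]),
  (404323, [.ofNat 0, .ofNat 0, .negSucc 8703, .ofNat 6528, .negSucc 14783]),
  (410829, [.ofNat 0, .ofNat 0, .ofNat 0, .ofNat 4864, .ofNat 3904, .negSucc 319]),
  (412317, [.ofNat 0, .ofNat 0, .ofNat 56064, .negSucc 18367, .negSucc 5503]),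
  (414364, [.ofNat 0, .ofNat 0, .ofNat 0, .ofNat 8192, .negSucc 1535]),
  (414924, [.ofNat 0, .ofNat 0, .ofNat 13312, .negSucc 36863, .ofNat 7296, .negSucc 1599]),
  (414932, [.ofNat 0, .ofNat 0, .negSucc 62271, .ofNat 35008]),
  (414940, [.ofNat 0, .ofNat 0, .negSucc 511, .negSucc 45567, .ofNat 6784, .negSucc 1599]),
  (414956, [.ofNat 0, .ofNat 0, .ofNat 56064, .negSucc 18367, .negSucc 5503]),
  (1086621, [.ofNat 0, .ofNat 13312, .negSucc 19711, .negSucc 3199]),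
  (1086693, [.ofNat 0, .ofNat 0, .ofNat 0, .negSucc 14591, .ofNat 2112]),
  (1086749, [.ofNat 0, .ofNat 0, .ofNat 0, .ofNat 8192, .ofNat 1152, .negSucc 1599]),
  (1086813, [.ofNat 0, .ofNat 0, .ofNat 0, .ofNat 5376, .ofNat 9280, .ofNat 128]),
  (1090789, [.ofNat 0, .ofNat 0, .ofNat 0, .ofNat 6400, .ofNat 9344, .negSucc 319]),
  (1090797, [.ofNat 0, .ofNat 0, .ofNat 0, .ofNat 3328, .negSucc 9343, .ofNat 320])]

/-- data -/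
def lE18x1 : List (ℕ × List ℤ) := [(1091301, [.ofNat 0, .ofNat 0, .ofNat 0, .ofNat 768, .negSucc 1599]),
  (1091309, [.ofNat 0, .ofNat 0, .ofNat 0, .negSucc 767, .ofNat 1600]),
  (1091677, [.ofNat 0, .ofNat 0, .negSucc 13823, .ofNat 1792, .ofNat 8320, .negSucc 319]),
  (1091797, [.ofNat 0, .ofNat 0, .ofNat 0, .negSucc 767, .ofNat 5504]),
  (2443051, [.ofNat 0, .ofNat 0, .negSucc 8959, .negSucc 4607, .ofNat 320]),
  (2500395, [.ofNat 0, .ofNat 0, .negSucc 8959, .negSucc 4607, .ofNat 320]),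
  (2501333, [.ofNat 0, .ofNat 0, .ofNat 13056, .ofNat 8512, .negSucc 639]),
  (2501466, [.ofNat 0, .ofNat 0, .ofNat 0, .ofNat 4864]),
  (2501467, [.ofNat 0, .ofNat 0, .ofNat 0, .ofNat 4864]),
  (2509469, [.ofNat 0, .ofNat 0, .ofNat 0, .negSucc 767, .ofNat 1600]),
  (2668845, [.ofNat 0, .ofNat 0, .ofNat 0, .negSucc 4863]),
  (2673500, [.ofNat 0, .ofNat 0, .ofNat 7936, .ofNat 4032, .ofNat 128]),
  (2701413, [.ofNat 0, .ofNat 0, .ofNat 0, .ofNat 4352]),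
  (2701613, [.ofNat 0, .ofNat 0, .ofNat 768, .ofNat 3264, .ofNat 1792]),
  (2705259, [.ofNat 0, .ofNat 0, .negSucc 13055, .negSucc 8511, .ofNat 640]),
  (2706149, [.ofNat 0, .ofNat 0, .negSucc 3327, .negSucc 1279, .ofNat 4416]),
  (2730213, [.ofNat 0, .ofNat 0, .ofNat 3328, .negSucc 6783, .negSucc 319]),
  (2730317, [.ofNat 0, .ofNat 0, .ofNat 0, .ofNat 4352]),
  (2736938, [.ofNat 0, .ofNat 0, .negSucc 8959, .negSucc 4607, .ofNat 320]),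
  (2758995, [.ofNat 0, .ofNat 0, .ofNat 3328, .negSucc 11135, .negSucc 319]),
  (2759019, [.ofNat 0, .ofNat 0, .negSucc 36607, .ofNat 81280, .ofNat 10368, .negSucc 959]),
  (2762341, [.ofNat 0, .ofNat 0, .ofNat 13824, .negSucc 7935]),
  (2762469, [.ofNat 0, .ofNat 0, .ofNat 13824, .negSucc 7935]),
  (2762589, [.ofNat 0, .ofNat 0, .negSucc 27647, .ofNat 2176, .ofNat 320]),
  (2765610, [.ofNat 0, .ofNat 0, .negSucc 8959, .negSucc 4607, .ofNat 320]),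
  (2766173, [.ofNat 0, .ofNat 0, .negSucc 30975, .ofNat 8960, .ofNat 640]),
  (2766698, [.ofNat 0, .ofNat 0, .negSucc 8959, .negSucc 4607, .ofNat 320]),
  (2767005, [.ofNat 0, .ofNat 0, .ofNat 30976, .negSucc 8959, .negSucc 639]),
  (2767061, [.ofNat 0, .ofNat 0, .ofNat 27648, .negSucc 2175, .negSucc 319]),
  (2767179, [.ofNat 0, .ofNat 0, .ofNat 0, .ofNat 4352]),
  (2770541, [.ofNat 0, .ofNat 0, .ofNat 0, .negSucc 4863]),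
  (2770573, [.ofNat 0, .ofNat 0, .ofNat 0, .ofNat 4864]),
  (2770605, [.ofNat 0, .ofNat 0, .ofNat 0, .negSucc 5631, .ofNat 1600]),
  (2770637, [.ofNat 0, .ofNat 0, .ofNat 0, .ofNat 4864]),
  (2771549, [.ofNat 0, .ofNat 0, .negSucc 7935, .negSucc 4031, .negSucc 127]),
  (2771661, [.ofNat 0, .ofNat 0, .negSucc 3327, .ofNat 10368, .negSucc 1919]),
  (2771677, [.ofNat 0, .ofNat 0, .negSucc 3327, .ofNat 15232, .negSucc 1919]),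
  (2774315, [.ofNat 0, .ofNat 0, .negSucc 27807, .negSucc 4767, .negSucc 10399]),
  (2774371, [.ofNat 0, .ofNat 0, .ofNat 20640, .negSucc 2399, .ofNat 11296]),
  (2775778, [.ofNat 0, .ofNat 0, .ofNat 3200, .ofNat 4512, .ofNat 64]),
  (3217771, [.ofNat 0, .ofNat 0, .ofNat 3200, .ofNat 4512, .ofNat 64]),
  (3218140, [.ofNat 0, .ofNat 0, .negSucc 4095, .negSucc 3903, .ofNat 320]),
  (3218268, [.ofNat 0, .ofNat 0, .ofNat 3328, .negSucc 1023, .ofNat 384]),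
  (3222221, [.ofNat 0, .ofNat 0, .ofNat 13056, .ofNat 8512, .negSucc 639]),
  (3222236, [.ofNat 0, .ofNat 0, .negSucc 26111, .negSucc 17023, .ofNat 1280]),
  (3225389, [.ofNat 0, .ofNat 0, .ofNat 4096, .ofNat 8640, .negSucc 1023]),
  (3225428, [.ofNat 0, .ofNat 0, .negSucc 13055, .negSucc 8511, .ofNat 640]),
  (3225949, [.ofNat 0, .ofNat 0, .negSucc 7167, .negSucc 7167, .ofNat 896]),
  (3226284, [.ofNat 0, .ofNat 0, .ofNat 36608, .negSucc 81279, .negSucc 10367, .ofNat 960]),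
  (3226452, [.ofNat 0, .ofNat 0, .ofNat 3328, .ofNat 5376, .negSucc 2815]),
  (3233492, [.ofNat 0, .ofNat 0, .negSucc 13055, .negSucc 8511, .ofNat 640]),
  (3233579, [.ofNat 0, .ofNat 0, .ofNat 75424, .negSucc 9631, .ofNat 33664]),
  (3233635, [.ofNat 0, .ofNat 0, .ofNat 104864, .negSucc 98079, .ofNat 24192, .ofNat 960]),
  (3286221, [.ofNat 0, .ofNat 0, .negSucc 4095, .negSucc 3903, .ofNat 320]),
  (3314908, [.ofNat 0, .ofNat 0, .negSucc 4095, .negSucc 3903, .ofNat 320]),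
  (3319020, [.ofNat 0, .ofNat 0, .ofNat 0, .ofNat 1536, .negSucc 3199]),
  (3330716, [.ofNat 0, .ofNat 0, .ofNat 3328, .negSucc 255, .negSucc 1215]),
  (3331276, [.ofNat 0, .ofNat 0, .ofNat 3328, .negSucc 15231, .ofNat 1920]),
  (3331292, [.ofNat 0, .ofNat 0, .ofNat 3328, .negSucc 10367, .ofNat 1920]),
  (8692965, [.ofNat 0, .ofNat 0, .ofNat 0, .negSucc 4863]),
  (8692973, [.ofNat 0, .ofNat 0, .ofNat 0, .ofNat 4864]),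
  (8693549, [.ofNat 0, .ofNat 0, .ofNat 0, .negSucc 767, .ofNat 1600]),
  (8693917, [.ofNat 0, .ofNat 0, .ofNat 13824, .negSucc 7935]),
  (8693973, [.ofNat 0, .ofNat 0, .ofNat 0, .negSucc 4863]),
  (8693997, [.ofNat 0, .ofNat 0, .ofNat 0, .negSucc 11903, .ofNat 6368]),
  (8694485, [.ofNat 0, .ofNat 0, .ofNat 0, .ofNat 4864]),
  (8694501, [.ofNat 0, .ofNat 0, .ofNat 768, .ofNat 20800, .negSucc 6175]),
  (8730829, [.ofNat 0, .ofNat 0, .ofNat 13824, .negSucc 7935]),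
  (8733421, [.ofNat 0, .ofNat 0, .ofNat 0, .ofNat 5632, .negSucc 1599]),
  (19478829, [.ofNat 0, .ofNat 0, .ofNat 5632, .negSucc 1599]),
  (19482861, [.ofNat 0, .ofNat 0, .ofNat 768, .negSucc 1599]),
  (19483365, [.ofNat 0, .ofNat 0, .ofNat 768, .negSucc 1599]),
  (19515565, [.ofNat 0, .ofNat 0, .ofNat 768, .negSucc 1599]),
  (19540203, [.ofNat 0, .ofNat 0, .ofNat 25600, .ofNat 9472, .ofNat 256]),
  (19540707, [.ofNat 0, .ofNat 0, .ofNat 25600, .ofNat 9472, .ofNat 256]),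
  (19547821, [.ofNat 0, .ofNat 0, .ofNat 5632, .negSucc 1599]),
  (19548893, [.ofNat 0, .ofNat 0, .negSucc 4863]),
  (19998507, [.ofNat 0, .ofNat 0, .ofNat 5632]),
  (20003668, [.ofNat 0, .ofNat 0, .negSucc 5631, .ofNat 1600]),
  (20007595, [.ofNat 0, .ofNat 26624, .negSucc 71167, .negSucc 8255, .ofNat 960]),
  (20010851, [.ofNat 0, .ofNat 0, .ofNat 4096, .negSucc 4031]),
  (20065114, [.ofNat 0, .ofNat 0, .negSucc 5631, .ofNat 1600]),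
  (20075677, [.ofNat 0, .ofNat 0, .ofNat 768, .negSucc 1599]),
  (20096236, [.ofNat 0, .ofNat 0, .negSucc 767, .ofNat 1600]),
  (20096794, [.ofNat 0, .ofNat 0, .ofNat 11840, .ofNat 5552, .negSucc 511]),
  (20096858, [.ofNat 0, .ofNat 0, .negSucc 11839, .negSucc 5551, .ofNat 512]),
  (20097762, [.ofNat 0, .ofNat 13312, .negSucc 33535, .negSucc 9215, .ofNat 640]),
  (21317419, [.ofNat 0, .ofNat 0, .negSucc 6399, .ofNat 9856, .ofNat 2560]),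
  (21346605, [.ofNat 0, .ofNat 0, .ofNat 4864]),
  (21379243, [.ofNat 0, .ofNat 0, .negSucc 15679, .negSucc 5679, .ofNat 64]),
  (21379740, [.ofNat 0, .ofNat 0, .ofNat 960, .ofNat 2256, .ofNat 32]),
  (21379741, [.ofNat 0, .ofNat 0, .negSucc 959, .negSucc 2255, .negSucc 31]),
  (21382827, [.ofNat 0, .ofNat 0, .negSucc 31359, .negSucc 11359, .ofNat 128]),
  (21384026, [.ofNat 0, .ofNat 0, .negSucc 8959, .negSucc 7391, .negSucc 127]),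
  (21546795, [.ofNat 0, .ofNat 0, .ofNat 1216, .ofNat 2064, .negSucc 127]),
  (21612396, [.ofNat 0, .ofNat 0, .ofNat 4864]),
  (21633387, [.ofNat 0, .ofNat 26624, .negSucc 71167, .negSucc 8255, .ofNat 960]),
  (21641036, [.ofNat 0, .ofNat 0, .negSucc 6399, .ofNat 1600]),
  (21646169, [.ofNat 0, .ofNat 0, .ofNat 4864]),
  (21649125, [.ofNat 0, .ofNat 0, .ofNat 768, .negSucc 1599])]

/-- data -/
def lE18x2 : List (ℕ × List ℤ) := [(21805357, [.ofNat 0, .ofNat 0, .negSucc 8959, .negSucc 7391, .negSucc 127]),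
  (21840683, [.ofNat 0, .ofNat 0, .negSucc 959, .negSucc 2255, .negSucc 31]),
  (21841740, [.ofNat 0, .ofNat 0, .negSucc 6783, .negSucc 2015, .negSucc 63]),
  (21873450, [.ofNat 0, .ofNat 0, .negSucc 959, .negSucc 2255, .negSucc 31]),
  (21895339, [.ofNat 0, .ofNat 0, .negSucc 15679, .negSucc 5679, .ofNat 64]),
  (21898077, [.ofNat 0, .ofNat 0, .ofNat 768, .negSucc 703]),
  (21903466, [.ofNat 0, .ofNat 0, .ofNat 25600, .ofNat 9472, .ofNat 256]),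
  (21903970, [.ofNat 0, .ofNat 0, .ofNat 25600, .ofNat 9472, .ofNat 256]),
  (21904037, [.ofNat 0, .ofNat 0, .negSucc 26751, .ofNat 4928]),
  (21904044, [.ofNat 0, .ofNat 0, .negSucc 26751, .ofNat 4928]),
  (21906091, [.ofNat 0, .ofNat 0, .negSucc 31359, .negSucc 11359, .ofNat 128]),
  (21906269, [.ofNat 0, .ofNat 0, .negSucc 9727, .negSucc 703]),
  (21911370, [.ofNat 0, .ofNat 0, .ofNat 768, .negSucc 703]),
  (21911372, [.ofNat 0, .ofNat 0, .negSucc 9727, .ofNat 704]),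
  (21911380, [.ofNat 0, .ofNat 0, .negSucc 9727, .ofNat 1728, .ofNat 320]),
  (22070955, [.ofNat 0, .ofNat 0, .negSucc 10047, .negSucc 5679, .ofNat 64]),
  (22072029, [.ofNat 0, .ofNat 13312, .negSucc 29439, .ofNat 832]),
  (22074723, [.ofNat 0, .negSucc 13311, .ofNat 23424, .ofNat 9664, .negSucc 639]),
  (22075235, [.ofNat 0, .negSucc 13311, .ofNat 32768, .ofNat 5184, .negSucc 639]),
  (22076131, [.ofNat 0, .ofNat 0, .ofNat 9728]),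
  (22100299, [.ofNat 0, .ofNat 0, .ofNat 11840, .ofNat 5552, .negSucc 511]),
  (22100747, [.ofNat 0, .ofNat 0, .ofNat 11840, .ofNat 5552, .negSucc 511]),
  (22106923, [.ofNat 0, .negSucc 13311, .ofNat 29056, .ofNat 1920, .negSucc 319]),
  (22106979, [.ofNat 0, .negSucc 26623, .ofNat 52480, .ofNat 11584, .negSucc 959]),
  (22107947, [.ofNat 0, .ofNat 0, .ofNat 0, .ofNat 704]),
  (22108003, [.ofNat 0, .ofNat 0, .negSucc 9727, .ofNat 1728, .ofNat 320]),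
  (22128460, [.ofNat 0, .ofNat 0, .negSucc 6783, .negSucc 2015, .negSucc 63]),
  (22131498, [.ofNat 0, .ofNat 0, .ofNat 5632]),
  (22135467, [.ofNat 0, .ofNat 0, .negSucc 6847, .negSucc 2255, .negSucc 191]),
  (22135659, [.ofNat 0, .ofNat 13312, .negSucc 23807, .negSucc 9215, .ofNat 640]),
  (22135915, [.ofNat 0, .ofNat 0, .negSucc 12799, .ofNat 19712, .ofNat 5120]),
  (22137437, [.ofNat 0, .ofNat 0, .negSucc 767, .ofNat 2304]),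
  (22137549, [.ofNat 0, .ofNat 13312, .negSucc 26111, .negSucc 895]),
  (22137557, [.ofNat 0, .ofNat 0, .ofNat 9728, .negSucc 1727, .negSucc 319]),
  (22139747, [.ofNat 0, .ofNat 0, .ofNat 4864]),
  (22140581, [.ofNat 0, .ofNat 0, .ofNat 26752, .negSucc 4927]),
  (22140588, [.ofNat 0, .ofNat 0, .ofNat 17024, .negSucc 3199, .ofNat 320]),
  (22141539, [.ofNat 0, .ofNat 0, .ofNat 9728]),
  (22164589, [.ofNat 0, .ofNat 0, .negSucc 4863]),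
  (22189411, [.ofNat 0, .negSucc 26623, .ofNat 46848, .ofNat 19328, .negSucc 1279]),
  (22190755, [.ofNat 0, .negSucc 13311, .ofNat 23424, .ofNat 9664, .negSucc 639]),
  (22190819, [.ofNat 0, .ofNat 0, .ofNat 4864]),
  (22192995, [.ofNat 0, .negSucc 26623, .ofNat 46848, .ofNat 19328, .negSucc 1279]),
  (22193949, [.ofNat 0, .ofNat 0, .negSucc 6911, .negSucc 799]),
  (22194012, [.ofNat 0, .ofNat 0, .ofNat 2048, .ofNat 2528, .ofNat 320]),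
  (22194787, [.ofNat 0, .negSucc 13311, .ofNat 23424, .ofNat 9664, .negSucc 639]),
  (22198883, [.ofNat 0, .ofNat 0, .ofNat 4864]),
  (25503596, [.ofNat 0, .ofNat 0, .ofNat 4864]),
  (25512605, [.ofNat 0, .ofNat 0, .negSucc 3199, .ofNat 128]),
  (25512619, [.ofNat 0, .ofNat 0, .negSucc 4095, .ofNat 2240]),
  (25515797, [.ofNat 0, .ofNat 0, .negSucc 6143, .ofNat 3232]),
  (25601309, [.ofNat 0, .ofNat 0, .ofNat 4864, .negSucc 5631]),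
  (25737045, [.ofNat 0, .ofNat 0, .ofNat 960, .ofNat 2256, .ofNat 32]),
  (25737900, [.ofNat 0, .negSucc 13311, .ofNat 25344, .ofNat 3200]),
  (25741981, [.ofNat 0, .ofNat 0, .negSucc 8063, .ofNat 128]),
  (25741995, [.ofNat 0, .negSucc 13311, .ofNat 25344, .ofNat 3200]),
  (25745173, [.ofNat 0, .ofNat 0, .negSucc 6143, .ofNat 3232]),
  (25745244, [.ofNat 0, .ofNat 0, .negSucc 4863]),
  (25762652, [.ofNat 0, .ofNat 0, .ofNat 768, .negSucc 1599]),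
  (25768747, [.ofNat 0, .ofNat 0, .negSucc 959, .negSucc 2255, .negSucc 31]),
  (25770604, [.ofNat 0, .negSucc 13311, .ofNat 25344, .ofNat 3200]),
  (25773901, [.ofNat 0, .ofNat 0, .ofNat 4096, .negSucc 4031]),
  (25774699, [.ofNat 0, .ofNat 0, .negSucc 8191, .negSucc 6015, .ofNat 640]),
  (25778019, [.ofNat 0, .negSucc 26623, .ofNat 71168, .ofNat 8256, .negSucc 959]),
  (25794389, [.ofNat 0, .ofNat 0, .ofNat 960, .ofNat 2256, .ofNat 32]),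
  (25797419, [.ofNat 0, .ofNat 0, .negSucc 959, .negSucc 2255, .negSucc 31]),
  (25798477, [.ofNat 0, .ofNat 0, .ofNat 6400, .negSucc 9855, .negSucc 2559]),
  (25802061, [.ofNat 0, .ofNat 0, .negSucc 1983, .negSucc 1359, .ofNat 128]),
  (25803436, [.ofNat 0, .negSucc 26623, .ofNat 71168, .ofNat 8256, .negSucc 959]),
  (25806157, [.ofNat 0, .negSucc 13311, .ofNat 37632, .ofNat 5888, .negSucc 639]),
  (25806677, [.ofNat 0, .ofNat 0, .ofNat 9728, .negSucc 1727, .negSucc 319]),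
  (25807453, [.ofNat 0, .ofNat 0, .negSucc 767, .ofNat 2304]),
  (25807565, [.ofNat 0, .ofNat 0, .negSucc 767, .ofNat 2304]),
  (25809748, [.ofNat 0, .negSucc 13311, .ofNat 29440, .ofNat 12544, .negSucc 639]),
  (25810701, [.ofNat 0, .ofNat 0, .ofNat 0, .negSucc 703]),
  (25834346, [.ofNat 0, .ofNat 13312, .negSucc 33535, .negSucc 9215, .ofNat 640]),
  (25836173, [.ofNat 0, .ofNat 0, .ofNat 4096, .negSucc 4031]),
  (25836189, [.ofNat 0, .ofNat 0, .ofNat 4096, .negSucc 4031]),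
  (25836245, [.ofNat 0, .ofNat 0, .ofNat 4096, .negSucc 2239]),
  (25859869, [.ofNat 0, .ofNat 0, .negSucc 6143, .ofNat 3232]),
  (25860820, [.ofNat 0, .negSucc 13311, .ofNat 29440, .ofNat 13248, .negSucc 639]),
  (25860828, [.ofNat 0, .ofNat 0, .negSucc 4095, .ofNat 4032]),
  (25862955, [.ofNat 0, .ofNat 13312, .negSucc 29055, .negSucc 1919, .ofNat 320]),
  (25863004, [.ofNat 0, .ofNat 0, .negSucc 9727, .ofNat 5632]),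
  (25863011, [.ofNat 0, .ofNat 13312, .negSucc 24959, .negSucc 4159, .ofNat 320]),
  (25864035, [.ofNat 0, .ofNat 0, .ofNat 4096, .negSucc 2239]),
  (25866964, [.ofNat 0, .ofNat 0, .ofNat 960, .ofNat 2256, .ofNat 32]),
  (25867037, [.ofNat 0, .ofNat 0, .negSucc 6143, .ofNat 3232]),
  (25867861, [.ofNat 0, .ofNat 0, .ofNat 960, .ofNat 2256, .ofNat 32]),
  (26301645, [.ofNat 0, .ofNat 0, .ofNat 0, .negSucc 703]),
  (26519325, [.ofNat 0, .ofNat 0, .negSucc 11775, .negSucc 799]),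
  (26519388, [.ofNat 0, .ofNat 0, .ofNat 6912, .ofNat 96]),
  (26520220, [.ofNat 0, .ofNat 0, .ofNat 3200, .negSucc 127]),
  (26531036, [.ofNat 0, .negSucc 13311, .ofNat 25344, .ofNat 3200]),
  (26548892, [.ofNat 0, .ofNat 0, .ofNat 8064, .negSucc 127]),
  (26552044, [.ofNat 0, .ofNat 0, .negSucc 767, .ofNat 1600]),
  (26564236, [.ofNat 0, .negSucc 13311, .ofNat 29440, .negSucc 831]),
  (26650316, [.ofNat 0, .ofNat 0, .ofNat 4864]),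
  (69544157, [.ofNat 0, .ofNat 0, .negSucc 6399, .ofNat 1600]),
  (69544173, [.ofNat 0, .ofNat 0, .ofNat 768, .negSucc 1599])]

/-- data -/
def lE18x3 : List (ℕ × List ℤ) := [(69544677, [.ofNat 0, .ofNat 0, .negSucc 767, .ofNat 1600]),
  (69547357, [.ofNat 0, .ofNat 0, .negSucc 6783, .negSucc 2015, .negSucc 63]),
  (69547821, [.ofNat 0, .ofNat 0, .ofNat 768, .negSucc 1599]),
  (69548381, [.ofNat 0, .ofNat 0, .ofNat 0, .ofNat 1408]),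
  (69555869, [.ofNat 0, .ofNat 0, .negSucc 6783, .negSucc 2015, .negSucc 63]),
  (69642397, [.ofNat 0, .ofNat 0, .ofNat 4864, .negSucc 5631]),
  (69810413, [.ofNat 0, .ofNat 0, .negSucc 4095, .ofNat 4032]),
  (69810917, [.ofNat 0, .ofNat 0, .negSucc 767, .negSucc 4031]),
  (69812973, [.ofNat 0, .ofNat 0, .negSucc 5631, .ofNat 1600]),
  (69846869, [.ofNat 0, .ofNat 0, .negSucc 17919, .ofNat 320]),
  (69850901, [.ofNat 0, .ofNat 0, .ofNat 17920, .negSucc 319]),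
  (69867349, [.ofNat 0, .ofNat 0, .negSucc 4095, .ofNat 2624]),
  (69871341, [.ofNat 0, .ofNat 0, .ofNat 768, .negSucc 1599]),
  (69872221, [.ofNat 0, .ofNat 0, .negSucc 13055, .ofNat 320]),
  (69899549, [.ofNat 0, .ofNat 0, .negSucc 12543, .negSucc 2015]),
  (69900061, [.ofNat 0, .ofNat 0, .ofNat 4864]),
  (69900445, [.ofNat 0, .ofNat 0, .negSucc 18687, .ofNat 1216]),
  (69903133, [.ofNat 0, .ofNat 0, .negSucc 12543, .negSucc 2015]),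
  (69904101, [.ofNat 0, .ofNat 0, .negSucc 767, .ofNat 1600]),
  (69904477, [.ofNat 0, .ofNat 0, .ofNat 4096, .negSucc 4735]),
  (69907221, [.ofNat 0, .ofNat 0, .negSucc 18687, .ofNat 1216]),
  (69907725, [.ofNat 0, .ofNat 0, .negSucc 18687, .ofNat 1216]),
  (70558949, [.ofNat 0, .ofNat 0, .negSucc 4863]),
  (75801837, [.ofNat 0, .ofNat 0, .negSucc 4863]),
  (77898981, [.ofNat 0, .ofNat 0, .negSucc 767, .ofNat 1600]),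
  (155859293, [.ofNat 0, .ofNat 5248, .negSucc 127]),
  (155859307, [.ofNat 13312, .negSucc 31999, .negSucc 6975, .ofNat 640]),
  (155859741, [.ofNat 0, .ofNat 5248, .negSucc 127]),
  (156128541, [.negSucc 6655, .ofNat 11520, .ofNat 1216]),
  (156129108, [.negSucc 6655, .ofNat 21248, .negSucc 511, .negSucc 319]),
  (156318493, [.ofNat 16640, .negSucc 19967, .negSucc 24671, .negSucc 11935]),
  (156346717, [.negSucc 16639, .ofNat 19968, .ofNat 24672, .ofNat 11936]),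
  (156355285, [.ofNat 0, .negSucc 9727, .ofNat 1728, .ofNat 320]),
  (156358316, [.ofNat 0, .ofNat 9728, .negSucc 1727, .negSucc 319]),
  (156411677, [.negSucc 6655, .ofNat 32000, .ofNat 5920, .negSucc 3855]),
  (156411740, [.ofNat 6656, .negSucc 22271, .negSucc 7647, .ofNat 3536]),
  (159995691, [.ofNat 0, .ofNat 5504, .ofNat 5952, .ofNat 160]),
  (159995747, [.ofNat 0, .ofNat 1408, .ofNat 9984, .ofNat 160]),
  (160023901, [.negSucc 26623, .ofNat 85120, .ofNat 68960, .ofNat 29728]),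
  (160028437, [.negSucc 26623, .ofNat 75392, .ofNat 70688, .ofNat 30048]),
  (160028906, [.ofNat 3328, .ofNat 1280, .negSucc 5183, .ofNat 544]),
  (160052587, [.ofNat 0, .negSucc 8959, .negSucc 4607, .ofNat 320]),
  (160053098, [.ofNat 0, .negSucc 4095, .negSucc 3903, .ofNat 320]),
  (160053917, [.ofNat 0, .negSucc 10495, .negSucc 1407, .ofNat 320]),
  (160053973, [.negSucc 26623, .ofNat 71296, .ofNat 72928, .ofNat 30048]),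
  (160061099, [.negSucc 13311, .ofNat 29440, .ofNat 960]),
  (160061162, [.ofNat 0, .negSucc 8191, .negSucc 6015, .ofNat 640]),
  (160081763, [.ofNat 6656, .negSucc 25343, .ofNat 1216, .ofNat 320]),
  (160086229, [.ofNat 26624, .negSucc 75391, .negSucc 70687, .negSucc 30047]),
  (160086355, [.ofNat 6656, .negSucc 10623, .negSucc 2815]),
  (160086362, [.ofNat 0, .ofNat 9984, .negSucc 12095, .negSucc 1567]),
  (160086810, [.negSucc 33279, .negSucc 41343, .ofNat 35008, .ofNat 16896]),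
  (160089771, [.negSucc 3327, .ofNat 11904, .negSucc 2367, .ofNat 544]),
  (160089946, [.ofNat 26624, .ofNat 61952, .negSucc 44287, .negSucc 18463]),
  (160090835, [.ofNat 0, .negSucc 1663, .ofNat 128, .ofNat 608]),
  (160774315, [.ofNat 3328, .negSucc 383, .negSucc 4415, .ofNat 544]),
  (160774490, [.ofNat 0, .negSucc 10495, .ofNat 256]),
  (160774819, [.ofNat 0, .negSucc 1663, .ofNat 768]),
  (160774882, [.ofNat 0, .negSucc 4095, .ofNat 2240]),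
  (160774931, [.ofNat 0, .ofNat 10496, .negSucc 255]),
  (160777899, [.ofNat 3328, .negSucc 383, .negSucc 4415, .ofNat 544]),
  (160782050, [.negSucc 13311, .ofNat 29440, .ofNat 7104, .negSucc 319]),
  (160835411, [.ofNat 0, .negSucc 10495, .ofNat 256]),
  (160836307, [.ofNat 0, .negSucc 8831, .ofNat 128, .negSucc 607]),
  (170539371, [.ofNat 0, .ofNat 6400, .negSucc 9855, .negSucc 2559]),
  (170764589, [.ofNat 0, .ofNat 3328, .negSucc 255, .negSucc 1215]),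
  (170772842, [.ofNat 0, .negSucc 4031, .ofNat 848, .negSucc 31]),
  (170773269, [.ofNat 0, .negSucc 1663, .ofNat 128, .ofNat 608]),
  (170797923, [.ofNat 0, .ofNat 1472, .negSucc 2415, .negSucc 31]),
  (170804461, [.ofNat 0, .ofNat 3328, .negSucc 255, .negSucc 1215]),
  (170809186, [.ofNat 0, .ofNat 7168, .ofNat 7168, .negSucc 895]),
  (170810012, [.ofNat 0, .ofNat 5440, .negSucc 399, .ofNat 32]),
  (170810138, [.ofNat 0, .ofNat 8064, .negSucc 1695, .ofNat 64]),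
  (170997997, [.ofNat 0, .ofNat 23776, .negSucc 12767, .negSucc 5151]),
  (171005739, [.ofNat 0, .negSucc 23807, .ofNat 7200, .negSucc 11631]),
  (171005795, [.ofNat 0, .negSucc 33791, .ofNat 17312, .negSucc 9519]),
  (171006173, [.ofNat 0, .negSucc 2431, .ofNat 4384, .ofNat 128]),
  (171026669, [.ofNat 0, .ofNat 23776, .negSucc 12767, .negSucc 5151]),
  (171027180, [.ofNat 0, .ofNat 0, .negSucc 639]),
  (171027292, [.ofNat 0, .negSucc 3327, .ofNat 256, .ofNat 1216]),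
  (171035370, [.ofNat 0, .negSucc 17151, .ofNat 2944, .ofNat 3008]),
  (171038380, [.ofNat 0, .negSucc 9983, .ofNat 10752, .ofNat 2112]),
  (171070699, [.ofNat 0, .negSucc 9727, .ofNat 25984, .ofNat 64]),
  (171071147, [.ofNat 0, .ofNat 1728, .ofNat 13456, .negSucc 2079]),
  (171072218, [.ofNat 0, .ofNat 4032, .negSucc 847, .ofNat 32]),
  (171091692, [.ofNat 0, .negSucc 8575, .ofNat 1024, .ofNat 608]),
  (171092189, [.ofNat 0, .negSucc 2431, .ofNat 4384, .ofNat 128]),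
  (171095724, [.ofNat 0, .negSucc 1663, .ofNat 128, .ofNat 608]),
  (171103452, [.ofNat 0, .negSucc 3327, .ofNat 256, .ofNat 1216]),
  (171103900, [.ofNat 0, .negSucc 3967, .negSucc 2015, .negSucc 63]),
  (172374365, [.ofNat 0, .ofNat 768, .negSucc 1599]),
  (172374379, [.ofNat 0, .negSucc 1215, .negSucc 2063, .ofNat 128]),
  (172374813, [.ofNat 0, .ofNat 768, .negSucc 1599]),
  (172800301, [.ofNat 0, .ofNat 3968, .negSucc 10335, .ofNat 1088]),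
  (172890461, [.ofNat 0, .ofNat 0, .negSucc 4351]),
  (172890860, [.ofNat 0, .negSucc 6911, .ofNat 1408]),
  (172890972, [.ofNat 0, .negSucc 13823, .ofNat 2816]),
  (172898924, [.ofNat 0, .negSucc 6911, .ofNat 1408]),
  (172899148, [.ofNat 0, .negSucc 13823, .ofNat 2816]),
  (172905308, [.ofNat 0, .negSucc 6911, .ofNat 1408])]

/-- data -/
def lE18x4 : List (ℕ × List ℤ) := [(172906253, [.ofNat 0, .ofNat 7680, .negSucc 2111]),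
  (173066091, [.ofNat 0, .ofNat 9728, .ofNat 2112, .negSucc 319]),
  (173066973, [.ofNat 0, .negSucc 4095, .negSucc 3903, .ofNat 320]),
  (173070571, [.ofNat 0, .ofNat 6016, .ofNat 1952]),
  (173130603, [.ofNat 0, .negSucc 7423, .negSucc 2367, .ofNat 320]),
  (173132493, [.ofNat 0, .negSucc 18687, .negSucc 383, .ofNat 320]),
  (173185259, [.ofNat 0, .ofNat 6016, .ofNat 1952]),
  (173192805, [.ofNat 0, .negSucc 1663, .ofNat 128, .ofNat 608]),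
  (173195997, [.ofNat 0, .negSucc 1663, .ofNat 128, .ofNat 608]),
  (173196893, [.ofNat 0, .negSucc 1663, .ofNat 128, .ofNat 608]),
  (174467309, [.ofNat 0, .ofNat 2816, .negSucc 895]),
  (174467820, [.ofNat 0, .ofNat 8832, .negSucc 1599, .ofNat 1568]),
  (174467932, [.ofNat 0, .ofNat 14592, .ofNat 1536, .negSucc 11647]),
  (174467939, [.ofNat 0, .negSucc 4351, .ofNat 3264, .negSucc 7391]),
  (174471341, [.ofNat 0, .ofNat 2816, .negSucc 895]),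
  (174471852, [.ofNat 0, .ofNat 8832, .negSucc 1599, .ofNat 1568]),
  (174472020, [.ofNat 0, .ofNat 14592, .ofNat 1536, .negSucc 11647]),
  (174475933, [.ofNat 0, .negSucc 8575, .ofNat 4192, .ofNat 1408]),
  (174475947, [.ofNat 0, .ofNat 8576, .negSucc 4191, .negSucc 1407]),
  (174475989, [.ofNat 0, .negSucc 28031, .ofNat 9184, .ofNat 2752]),
  (174478572, [.ofNat 0, .negSucc 28031, .ofNat 9184, .ofNat 2752]),
  (174478684, [.ofNat 0, .ofNat 7296, .ofNat 768, .negSucc 5823]),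
  (174479020, [.ofNat 0, .negSucc 28031, .ofNat 9184, .ofNat 2752]),
  (174479188, [.ofNat 0, .ofNat 7296, .ofNat 768, .negSucc 5823]),
  (174480098, [.ofNat 0, .ofNat 4352, .negSucc 3263, .ofNat 7392]),
  (174638956, [.ofNat 0, .ofNat 5824, .negSucc 5679, .ofNat 7360]),
  (174639453, [.ofNat 0, .ofNat 5440, .negSucc 399, .ofNat 32]),
  (174639964, [.ofNat 0, .ofNat 1856, .negSucc 7695, .ofNat 7296]),
  (174733645, [.ofNat 0, .negSucc 3327, .ofNat 2432, .ofNat 320]),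
  (174738013, [.ofNat 0, .ofNat 3968, .ofNat 2016, .ofNat 64]),
  (174742108, [.ofNat 0, .negSucc 5439, .ofNat 400, .negSucc 31]),
  (174990181, [.ofNat 0, .negSucc 3327, .ofNat 9728, .negSucc 639]),
  (175002277, [.ofNat 0, .negSucc 5247, .ofNat 128]),
  (175003789, [.ofNat 0, .negSucc 1919, .negSucc 9599, .ofNat 640]),
  (175159658, [.ofNat 0, .ofNat 8064, .negSucc 1695, .ofNat 64]),
  (175160162, [.ofNat 0, .ofNat 8064, .negSucc 1695, .ofNat 64]),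
  (175167330, [.ofNat 0, .negSucc 4415, .ofNat 3776, .negSucc 8975]),
  (175167834, [.ofNat 0, .negSucc 1151, .negSucc 30783, .ofNat 8352]),
  (175168226, [.ofNat 0, .negSucc 8831, .ofNat 7552, .negSucc 17951]),
  (175217317, [.negSucc 13311, .ofNat 18368, .ofNat 40416, .negSucc 1983]),
  (175217429, [.negSucc 13311, .ofNat 18368, .ofNat 40416, .negSucc 1983]),
  (175231786, [.ofNat 0, .negSucc 4863, .ofNat 28832, .negSucc 8351]),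
  (175231842, [.ofNat 0, .negSucc 13375, .ofNat 4800, .negSucc 8655]),
  (175232269, [.ofNat 0, .negSucc 3583, .negSucc 6911, .ofNat 128]),
  (175232332, [.ofNat 0, .negSucc 3583, .negSucc 6911, .ofNat 128]),
  (175233130, [.ofNat 26624, .ofNat 55936, .negSucc 46239, .negSucc 18463]),
  (175233634, [.ofNat 26624, .ofNat 45312, .negSucc 88191, .negSucc 23999]),
  (175249258, [.ofNat 0, .negSucc 8319, .negSucc 16511, .ofNat 3904]),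
  (175252317, [.ofNat 0, .negSucc 767, .ofNat 704]),
  (175265386, [.ofNat 0, .negSucc 1663, .ofNat 4160, .negSucc 159]),
  (175265610, [.ofNat 0, .negSucc 767, .ofNat 704]),
  (175282018, [.ofNat 0, .negSucc 1663, .ofNat 4160, .negSucc 159]),
  (175282347, [.ofNat 0, .negSucc 1663, .ofNat 2880, .ofNat 480]),
  (175282914, [.ofNat 0, .ofNat 11456, .ofNat 34464, .negSucc 12367]),
  (175290978, [.ofNat 0, .negSucc 4415, .ofNat 3776, .negSucc 8975]),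
  (175293274, [.ofNat 0, .ofNat 1152, .ofNat 30784, .negSucc 8351]),
  (175297187, [.ofNat 0, .ofNat 256, .ofNat 9344, .ofNat 128]),
  (175298146, [.ofNat 0, .negSucc 8319, .negSucc 16511, .ofNat 3904]),
  (175298762, [.ofNat 0, .ofNat 8064, .negSucc 1695, .ofNat 64]),
  (176503651, [.ofNat 0, .negSucc 1727, .negSucc 6927, .negSucc 95]),
  (176510763, [.ofNat 0, .ofNat 5504, .ofNat 5952, .ofNat 160]),
  (176510819, [.ofNat 0, .ofNat 5504, .ofNat 5952, .ofNat 160]),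
  (176532253, [.ofNat 0, .negSucc 1663, .ofNat 1792, .ofNat 448]),
  (176532323, [.ofNat 0, .ofNat 13696, .ofNat 13920, .negSucc 11071]),
  (176540317, [.ofNat 0, .ofNat 1664, .negSucc 6239, .negSucc 1919]),
  (176540331, [.ofNat 0, .ofNat 1664, .negSucc 5151, .negSucc 1887]),
  (176540373, [.ofNat 0, .negSucc 31135, .ofNat 17504]),
  (176540506, [.ofNat 0, .ofNat 1664, .negSucc 4159, .ofNat 160]),
  (176544538, [.ofNat 0, .negSucc 8319, .negSucc 16511, .ofNat 3904]),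
  (176567645, [.ofNat 0, .ofNat 3328, .negSucc 6783, .negSucc 319]),
  (176567659, [.ofNat 0, .negSucc 5631]),
  (176600293, [.ofNat 0, .ofNat 0, .ofNat 640]),
  (176601434, [.ofNat 0, .ofNat 8320, .negSucc 8895, .negSucc 1567]),
  (176601882, [.negSucc 26623, .negSucc 53631, .ofNat 35392, .ofNat 16896]),
  (176604843, [.ofNat 0, .negSucc 1663, .ofNat 2880, .ofNat 480]),
  (176609050, [.ofNat 26624, .ofNat 54144, .negSucc 95743, .negSucc 6047]),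
  (176790371, [.ofNat 0, .ofNat 13696, .ofNat 13920, .negSucc 11071]),
  (176802509, [.ofNat 0, .ofNat 4992, .ofNat 6560, .negSucc 3535]),
  (176806093, [.ofNat 0, .ofNat 11904, .ofNat 5664, .negSucc 3535]),
  (176854827, [.ofNat 0, .negSucc 15487, .negSucc 30367, .ofNat 7184]),
  (176854883, [.ofNat 0, .negSucc 15487, .negSucc 30367, .ofNat 7184]),
  (176863563, [.ofNat 0, .ofNat 1152, .ofNat 30784, .negSucc 8351]),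
  (176999069, [.ofNat 0, .negSucc 5247, .negSucc 3839, .negSucc 959]),
  (176999083, [.ofNat 0, .negSucc 5247, .negSucc 3839, .negSucc 959]),
  (176999125, [.ofNat 0, .negSucc 31135, .ofNat 17504]),
  (176999251, [.ofNat 0, .ofNat 5504, .negSucc 19359, .ofNat 2336]),
  (177002667, [.ofNat 0, .negSucc 8831, .ofNat 24768, .negSucc 3167]),
  (177019747, [.ofNat 0, .negSucc 1727, .negSucc 6927, .negSucc 95]),
  (177031885, [.ofNat 0, .negSucc 6911, .ofNat 896]),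
  (177032011, [.ofNat 0, .ofNat 8064, .negSucc 1695, .ofNat 64]),
  (177034027, [.ofNat 0, .ofNat 5504, .negSucc 19359, .ofNat 2336]),
  (177036043, [.ofNat 0, .ofNat 13568, .negSucc 21055, .ofNat 2400]),
  (177083755, [.ofNat 0, .negSucc 8831, .negSucc 3423, .ofNat 256]),
  (177087339, [.ofNat 0, .ofNat 28288, .negSucc 24831, .negSucc 7423]),
  (177088333, [.ofNat 0, .negSucc 3327, .ofNat 6784, .ofNat 320]),
  (177099421, [.ofNat 0, .negSucc 2303, .ofNat 15648, .ofNat 3616]),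
  (177099435, [.ofNat 0, .ofNat 6656, .ofNat 19648, .negSucc 5471]),
  (177099498, [.negSucc 16639, .ofNat 2816, .ofNat 3904, .ofNat 1504]),
  (177099610, [.ofNat 0, .ofNat 0, .ofNat 4352]),
  (177100394, [.negSucc 16639, .ofNat 2816, .ofNat 3904, .ofNat 1504])]

/-- data -/
def lE18x5 : List (ℕ × List ℤ) := [(177100429, [.ofNat 0, .negSucc 2303, .ofNat 15648, .ofNat 3616]),
  (177117922, [.ofNat 0, .ofNat 15872, .ofNat 30688, .negSucc 3391]),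
  (177120099, [.ofNat 0, .ofNat 6656, .ofNat 19648, .negSucc 5471]),
  (177121100, [.ofNat 26624, .negSucc 85119, .negSucc 68959, .negSucc 29727]),
  (177121611, [.ofNat 0, .negSucc 8831, .ofNat 24768, .negSucc 3167]),
  (177124138, [.ofNat 0, .ofNat 8960, .negSucc 1023, .negSucc 319]),
  (177124621, [.ofNat 0, .ofNat 3584, .ofNat 6912, .negSucc 127]),
  (177124684, [.ofNat 26624, .negSucc 81535, .negSucc 62047, .negSucc 29855]),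
  (177128107, [.ofNat 0, .negSucc 5503, .ofNat 19360, .negSucc 2335]),
  (177128170, [.ofNat 3328, .negSucc 383, .negSucc 4415, .ofNat 544]),
  (177132195, [.ofNat 0, .ofNat 15488, .negSucc 5119, .negSucc 2303]),
  (177313453, [.ofNat 0, .negSucc 3327, .ofNat 256, .ofNat 1216]),
  (177314650, [.ofNat 0, .ofNat 8320, .ofNat 16512, .negSucc 3903]),
  (177378973, [.ofNat 0, .ofNat 3968, .ofNat 2016, .ofNat 64]),
  (177386141, [.ofNat 0, .negSucc 10879, .ofNat 800, .negSucc 63]),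
  (177386155, [.ofNat 0, .negSucc 5759, .ofNat 10016, .negSucc 2463]),
  (177514213, [.ofNat 0, .ofNat 6912, .negSucc 895]),
  (177519260, [.ofNat 0, .ofNat 5248, .ofNat 3840, .ofNat 960]),
  (177519267, [.ofNat 0, .ofNat 5248, .ofNat 3840, .ofNat 960]),
  (177522389, [.ofNat 0, .negSucc 1663, .ofNat 128, .ofNat 608]),
  (177526498, [.ofNat 0, .negSucc 4095, .negSucc 2111, .ofNat 320]),
  (177550053, [.ofNat 0, .ofNat 27808, .ofNat 4768, .ofNat 10400]),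
  (177550060, [.ofNat 0, .negSucc 27807, .negSucc 4767, .negSucc 10399]),
  (177551117, [.ofNat 0, .ofNat 6912, .negSucc 511]),
  (177551180, [.ofNat 0, .negSucc 6911, .ofNat 512]),
  (177551565, [.ofNat 16640, .negSucc 6271, .negSucc 12191, .ofNat 864]),
  (177552076, [.negSucc 16639, .ofNat 6272, .ofNat 12192, .negSucc 863]),
  (177576604, [.ofNat 0, .negSucc 3327, .ofNat 8032, .ofNat 2368]),
  (177576611, [.ofNat 0, .negSucc 1663, .ofNat 5152, .ofNat 1888]),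
  (177576730, [.ofNat 0, .negSucc 1663, .ofNat 4160, .negSucc 159]),
  (177586901, [.ofNat 0, .negSucc 4991, .ofNat 6272, .ofNat 1984]),
  (177586922, [.ofNat 3328, .ofNat 1792, .negSucc 20031, .ofNat 6176]),
  (177640675, [.ofNat 0, .negSucc 1727, .negSucc 6927, .negSucc 95]),
  (177641116, [.ofNat 0, .negSucc 14015, .ofNat 4592, .ofNat 1376]),
  (177641123, [.ofNat 0, .ofNat 5120, .ofNat 18112, .negSucc 9663]),
  (177645155, [.ofNat 0, .ofNat 13696, .ofNat 13920, .negSucc 11071]),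
  (177648340, [.ofNat 0, .ofNat 5440, .negSucc 399, .ofNat 32]),
  (177648354, [.ofNat 0, .ofNat 4032, .negSucc 16943, .ofNat 2368]),
  (177648739, [.ofNat 0, .negSucc 1727, .negSucc 6927, .negSucc 95]),
  (204028253, [.ofNat 0, .negSucc 19327, .negSucc 9247, .negSucc 12799]),
  (204028645, [.ofNat 13312, .negSucc 14399, .negSucc 38079, .ofNat 1664]),
  (204028701, [.ofNat 13312, .negSucc 33727, .negSucc 47327, .negSucc 11135]),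
  (204035939, [.ofNat 0, .negSucc 6015, .negSucc 1951]),
  (204056939, [.ofNat 0, .ofNat 1472, .negSucc 2415, .negSucc 31]),
  (204061349, [.ofNat 0, .ofNat 3968, .ofNat 2336, .negSucc 319]),
  (204061461, [.ofNat 0, .ofNat 3968, .ofNat 2336, .negSucc 319]),
  (204094109, [.ofNat 0, .negSucc 6911, .ofNat 640]),
  (204100829, [.ofNat 0, .negSucc 3967, .negSucc 2335, .ofNat 320]),
  (204129501, [.ofNat 0, .negSucc 5631, .ofNat 3232]),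
  (204810027, [.ofNat 0, .ofNat 6016, .ofNat 1952]),
  (204810461, [.ofNat 0, .negSucc 4863, .ofNat 5632]),
  (205862701, [.ofNat 0, .negSucc 4095, .negSucc 8639, .ofNat 1024]),
  (205863261, [.ofNat 0, .ofNat 7168, .ofNat 7168, .negSucc 895]),
  (205863275, [.ofNat 0, .ofNat 1472, .negSucc 2415, .negSucc 31]),
  (205870891, [.ofNat 0, .negSucc 51615, .ofNat 2432, .negSucc 22031]),
  (205870947, [.ofNat 0, .negSucc 44447, .ofNat 9600, .negSucc 22927]),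
  (205891947, [.ofNat 0, .ofNat 2944, .negSucc 4831, .negSucc 63]),
  (205892395, [.ofNat 0, .ofNat 4992, .negSucc 15743, .ofNat 768]),
  (205896364, [.ofNat 13312, .negSucc 25343, .negSucc 3199]),
  (205900445, [.ofNat 0, .negSucc 1663, .ofNat 1792, .ofNat 448]),
  (205900459, [.ofNat 0, .ofNat 15872, .ofNat 30688, .negSucc 3391]),
  (205929117, [.ofNat 0, .negSucc 6911, .ofNat 640]),
  (205929131, [.ofNat 0, .ofNat 15872, .ofNat 30688, .negSucc 3391]),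
  (205935837, [.ofNat 0, .ofNat 8064, .negSucc 127]),
  (205956893, [.ofNat 0, .negSucc 3327, .ofNat 13952, .negSucc 1215]),
  (205960421, [.ofNat 0, .ofNat 0, .ofNat 640]),
  (205965013, [.ofNat 0, .negSucc 3327, .ofNat 9728, .negSucc 639]),
  (205965034, [.ofNat 9984, .negSucc 11007, .negSucc 7231, .ofNat 544]),
  (205969052, [.ofNat 0, .negSucc 3327, .ofNat 256, .ofNat 1216]),
  (206150429, [.ofNat 0, .negSucc 1919, .negSucc 767, .negSucc 607]),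
  (206158444, [.ofNat 0, .ofNat 15616, .ofNat 8384, .negSucc 959]),
  (206162525, [.ofNat 0, .negSucc 1919, .negSucc 767, .negSucc 607]),
  (206164709, [.ofNat 0, .ofNat 8576, .negSucc 9855, .ofNat 640]),
  (206165773, [.ofNat 0, .negSucc 767, .ofNat 704]),
  (206166221, [.ofNat 0, .ofNat 8576, .negSucc 9855, .ofNat 640]),
  (206190413, [.ofNat 0, .negSucc 4095, .ofNat 4032]),
  (206214955, [.negSucc 9983, .ofNat 11008, .ofNat 7232, .negSucc 543]),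
  (206215900, [.ofNat 0, .ofNat 23552, .ofNat 9920, .negSucc 959]),
  (206350699, [.ofNat 0, .ofNat 2944, .negSucc 4831, .negSucc 63]),
  (206351133, [.ofNat 0, .ofNat 4992, .negSucc 15743, .ofNat 768]),
  (206351147, [.ofNat 0, .ofNat 4992, .negSucc 15743, .ofNat 768]),
  (206354794, [.ofNat 0, .ofNat 1472, .negSucc 2415, .negSucc 31]),
  (206361885, [.ofNat 0, .ofNat 896, .negSucc 1599]),
  (206362389, [.ofNat 0, .ofNat 896, .negSucc 1599]),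
  (206362795, [.ofNat 0, .negSucc 18047, .negSucc 15071, .negSucc 2239]),
  (206394092, [.ofNat 0, .ofNat 23520, .negSucc 27999, .negSucc 3103]),
  (206394155, [.ofNat 0, .ofNat 5504, .negSucc 19359, .ofNat 2336]),
  (206394988, [.ofNat 0, .ofNat 23520, .negSucc 27999, .negSucc 3103]),
  (206412628, [.negSucc 3327, .negSucc 24863, .ofNat 77136, .negSucc 7631]),
  (206426922, [.ofNat 0, .ofNat 6016, .ofNat 1952]),
  (206426964, [.ofNat 0, .ofNat 17152, .ofNat 4480, .negSucc 639]),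
  (206447453, [.ofNat 0, .ofNat 21248, .ofNat 18528, .ofNat 10432]),
  (206451541, [.ofNat 0, .ofNat 21248, .ofNat 18528, .ofNat 10432]),
  (206459549, [.ofNat 0, .ofNat 8192, .ofNat 16800, .ofNat 3296]),
  (206460557, [.ofNat 0, .negSucc 2303, .ofNat 15648, .ofNat 3616]),
  (206477077, [.ofNat 0, .negSucc 3327, .ofNat 13952, .negSucc 1215]),
  (206477140, [.ofNat 0, .ofNat 0, .negSucc 255]),
  (206477483, [.ofNat 0, .negSucc 15871, .negSucc 30687, .ofNat 3392]),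
  (206480227, [.ofNat 0, .negSucc 2175, .ofNat 15616, .negSucc 5631]),
  (206484308, [.ofNat 3328, .ofNat 24864, .negSucc 77391, .ofNat 7632])]

/-- data -/
def lE18x6 : List (ℕ × List ℤ) := [(206492316, [.ofNat 0, .negSucc 15487, .ofNat 5120, .ofNat 2304]),
  (206680938, [.ofNat 0, .negSucc 7423, .negSucc 2367, .ofNat 320]),
  (206682765, [.ofNat 0, .negSucc 10495, .negSucc 1407, .ofNat 320]),
  (206874341, [.ofNat 0, .negSucc 1663, .ofNat 768]),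
  (206874348, [.ofNat 0, .ofNat 1664, .negSucc 767]),
  (206879444, [.ofNat 3328, .ofNat 24864, .negSucc 77135, .ofNat 7632]),
  (206886612, [.ofNat 0, .ofNat 17920, .ofNat 3776, .negSucc 639]),
  (206903083, [.ofNat 0, .ofNat 10240, .ofNat 27712, .negSucc 7183]),
  (206903139, [.ofNat 0, .ofNat 10240, .ofNat 27712, .negSucc 7183]),
  (206904028, [.ofNat 0, .ofNat 11264, .negSucc 191, .negSucc 319]),
  (206935339, [.ofNat 0, .ofNat 15872, .ofNat 30688, .negSucc 3391]),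
  (206943018, [.ofNat 0, .ofNat 6016, .ofNat 1952]),
  (206975645, [.ofNat 0, .negSucc 4991, .ofNat 6272, .ofNat 1984]),
  (206976205, [.ofNat 0, .negSucc 11263, .ofNat 4512, .negSucc 479]),
  (207001300, [.negSucc 3327, .negSucc 24863, .ofNat 77136, .negSucc 7631]),
  (210286421, [.ofNat 0, .ofNat 8960, .ofNat 4608, .negSucc 319]),
  (210347853, [.ofNat 0, .negSucc 6399, .ofNat 9856, .ofNat 2560]),
  (210351437, [.ofNat 0, .ofNat 1984, .ofNat 1360, .negSucc 127]),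
  (210358997, [.ofNat 0, .ofNat 15488, .negSucc 5119, .negSucc 2303]),
  (210413261, [.ofNat 0, .negSucc 767, .ofNat 704]),
  (211104469, [.ofNat 0, .negSucc 5439, .ofNat 400, .negSucc 31]),
  (212150108, [.ofNat 0, .negSucc 767, .ofNat 704]),
  (212157661, [.ofNat 0, .ofNat 1152, .ofNat 768]),
  (212158165, [.ofNat 0, .negSucc 3327, .ofNat 9728, .negSucc 639]),
  (212161756, [.ofNat 0, .ofNat 4096, .ofNat 3904, .negSucc 319]),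
  (212162204, [.ofNat 0, .ofNat 31136, .negSucc 17503]),
  (212247772, [.ofNat 0, .ofNat 18688, .ofNat 384, .negSucc 319]),
  (212379372, [.ofNat 0, .ofNat 1664, .negSucc 127, .negSucc 607]),
  (212383005, [.ofNat 0, .ofNat 4992, .negSucc 15743, .ofNat 768]),
  (212391132, [.ofNat 0, .negSucc 1151, .negSucc 767]),
  (212391580, [.ofNat 0, .ofNat 31136, .negSucc 17503]),
  (212391636, [.ofNat 0, .ofNat 1664, .negSucc 127, .negSucc 607]),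
  (212415212, [.ofNat 0, .ofNat 1664, .negSucc 127, .negSucc 607]),
  (212440349, [.ofNat 0, .ofNat 1664, .negSucc 1791, .negSucc 447]),
  (212456148, [.ofNat 0, .negSucc 10495, .negSucc 1151, .ofNat 320]),
  (212481229, [.ofNat 0, .negSucc 11263, .ofNat 4512, .negSucc 479]),
  (212514444, [.ofNat 0, .ofNat 4096, .ofNat 3904, .negSucc 319]),
  (213165724, [.ofNat 0, .negSucc 3327, .ofNat 256, .ofNat 1216]),
  (213193948, [.ofNat 0, .ofNat 3328, .negSucc 255, .negSucc 1215]),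
  (556349677, [.ofNat 0, .ofNat 768, .ofNat 448, .negSucc 319]),
  (556349789, [.negSucc 6655, .ofNat 24448, .negSucc 1919]),
  (556350181, [.ofNat 0, .negSucc 767, .negSucc 447, .ofNat 320]),
  (556350237, [.negSucc 6655, .ofNat 9856, .ofNat 1600]),
  (556353261, [.ofNat 0, .ofNat 11136, .negSucc 4767]),
  (556353373, [.ofNat 0, .negSucc 4095, .ofNat 2624]),
  (556357349, [.ofNat 0, .negSucc 11135, .ofNat 4768]),
  (556378349, [.ofNat 0, .ofNat 6496, .negSucc 1711, .ofNat 688]),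
  (556378853, [.ofNat 0, .negSucc 7263, .negSucc 7183, .negSucc 879]),
  (556386133, [.negSucc 13311, .ofNat 40192, .ofNat 36352, .ofNat 14016]),
  (556390165, [.ofNat 13312, .negSucc 40191, .negSucc 36351, .negSucc 14015]),
  (556414189, [.ofNat 0, .negSucc 6495, .ofNat 1712, .negSucc 687]),
  (556414805, [.ofNat 0, .negSucc 4095, .ofNat 2624]),
  (556415701, [.ofNat 13312, .negSucc 29695, .negSucc 36991, .negSucc 14015]),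
  (556443869, [.ofNat 0, .ofNat 4864, .negSucc 5631]),
  (556446949, [.ofNat 0, .ofNat 4832, .negSucc 1583, .ofNat 1296]),
  (556447397, [.ofNat 0, .negSucc 1663, .ofNat 128, .ofNat 608]),
  (556447957, [.negSucc 13311, .ofNat 40960, .ofNat 36800, .ofNat 13696]),
  (556451485, [.ofNat 0, .negSucc 1663, .ofNat 128, .ofNat 608]),
  (556873557, [.ofNat 0, .negSucc 4095, .ofNat 2624]),
  (558684317, [.ofNat 0, .negSucc 3327, .ofNat 13952, .negSucc 1215]),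
  (558938837, [.ofNat 0, .ofNat 6912, .negSucc 895]),
  (559260389, [.ofNat 0, .ofNat 3328, .negSucc 13951, .ofNat 1216]),
  (606647981, [.ofNat 0, .ofNat 12992, .negSucc 3423, .ofNat 1376]),
  (623425189, [.ofNat 0, .negSucc 13759, .negSucc 5471, .negSucc 1567])]

/-- the sum of the part -/
def lE18 : List (ℕ × List ℤ) := lE18x0 ++ (lE18x1 ++ (lE18x2 ++ (lE18x3 ++ (lE18x4 ++ (lE18x5 ++ (lE18x6))))))

theorem okE18 : dE18.all (rok tbE 12) = true := by decide +kernel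

theorem sumE18 : aeq (fz (sumT tbE dE18)) lE18 = true := by decide +kernel

end Pool.Agent.H.MP_e16c79_al.IS
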