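import Pool.Agent.H.MP_e16c79_al.IS.BTabE

/-!
# MP_e16c79_al: certificate E, part 19
-/

set_option autoImplicit false

namespace Pool.Agent.H.MP_e16c79_al.IS

/-- data -/
def dE19x0 : RT := (.nd (.nd (.nd (.lf ⟨[.ofNat 0, .ofNat 0, .negSucc 11999, .ofNat 2616, .negSucc 15], (.tr (.lf 1) (.lf 2) (.tr (.lf 5) (.tr (.dx 3 .on) (.tw (.lf 6) (.lf 9)) (.lf 19)) (.lf 10))), 3, [0, 0, 12, 12, 2, 2, 14, 14], [0, 0, 12, 12, 2, 2, 14, 14]⟩)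
    (.lf ⟨[.ofNat 0, .ofNat 0, .ofNat 2432], (.tr (.dx 0 (.lf 13)) (.tw (.lf 5) (.tr (.lf 6) (.lf 14) (.tw (.lf 17) (.lf 18)))) (.lf 11)), 0, [0, 0, 11, 11, 23, 23, 11, 11], [0, 0, 12, 12, 23, 23, 11, 11]⟩))
    (.nd (.lf ⟨[.ofNat 0, .ofNat 0, .negSucc 10239, .ofNat 224], (.tr (.dx 3 (.tr (.tw (.lf 1) (.lf 5)) (.lf 17) (.lf 11))) (.lf 2) (.tw (.lf 6) (.lf 18))), 3, [1017, 17, 1013, 17, 17, 17, 17, 17], []⟩)
    (.lf ⟨[.ofNat 0, .ofNat 0, .ofNat 10240, .negSucc 223], (.tr (.dx 3 (.tr (.lf 1) (.lf 5) (.tw (.lf 11) (.lf 17)))) (.lf 2) (.tw (.lf 6) (.lf 18))), 3, [0, 17, 1017, 17, 17, 17, 17, 17], []⟩)))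
    (.nd (.nd (.lf ⟨[.ofNat 0, .ofNat 0, .ofNat 4480, .ofNat 1504], (.tr (.dx 3 (.tr (.lf 5) (.lf 1) (.tw (.lf 11) (.lf 17)))) (.lf 2) (.tw (.lf 6) (.lf 18))), 3, [4, 17, 1013, 17, 17, 17, 17, 17], []⟩)
    (.lf ⟨[.ofNat 0, .ofNat 0, .negSucc 3199, .ofNat 1600], (.tr (.tw (.dx 3 (.tr (.lf 5) (.lf 1) (.tw (.lf 11) (.lf 17)))) (.lf 2)) (.lf 6) (.lf 18)), 3, [4, 1013, 17, 17, 0, 0, 2, 2], []⟩))
    (.nd (.lf ⟨[.ofNat 0, .ofNat 0, .ofNat 2432], (.tr (.tw (.lf 6) (.lf 14)) (.dx 0 (.tr (.lf 5) (.lf 13) (.tw (.lf 11) (.lf 17)))) (.lf 18)), 0, [4, 4, 4, 4, 4, 4, 4, 1017], []⟩)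
    (.lf ⟨[.ofNat 0, .ofNat 0, .ofNat 7808, .ofNat 128], (.tr (.tw (.lf 6) (.lf 14)) (.dx 0 (.tr (.tw (.lf 5) (.lf 13)) (.lf 11) (.lf 17))) (.lf 18)), 0, [4, 4, 4, 4, 4, 4, 4, 1017], []⟩))))

/-- data -/
def dE19x1 : RT := (.nd (.nd (.nd (.lf ⟨[.ofNat 0, .ofNat 0, .ofNat 4096, .negSucc 4735], (.tr (.tw (.dx 3 (.tr (.lf 1) (.tw (.lf 5) (.lf 17)) (.lf 11))) (.lf 2)) (.lf 6) (.lf 18)), 3, [1017, 17, 17, 17, 0, 0, 2, 2], []⟩)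
    (.lf ⟨[.ofNat 0, .ofNat 0, .ofNat 4480, .ofNat 1504], (.tr (.lf 2) (.tw (.dx 3 (.tr (.lf 1) (.tw (.lf 5) (.lf 17)) (.lf 11))) (.lf 6)) (.lf 18)), 3, [0, 0, 2, 2, 0, 0, 0, 0], []⟩))
    (.nd (.lf ⟨[.ofNat 0, .ofNat 0, .negSucc 10239, .ofNat 224], (.tr (.tw (.dx 3 (.tr (.lf 1) (.tw (.lf 5) (.lf 11)) (.lf 17))) (.lf 2)) (.lf 18) (.lf 6)), 3, [17, 17, 17, 17, 0, 2, 1017, 17], []⟩)
    (.lf ⟨[.ofNat 0, .ofNat 0, .ofNat 10240, .ofNat 128], (.tr (.tw (.dx 3 (.tr (.lf 1) (.lf 11) (.tw (.lf 5) (.lf 17)))) (.lf 2)) (.lf 18) (.lf 6)), 3, [17, 17, 17, 17, 2, 2, 0, 1017], []⟩)))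
    (.nd (.nd (.lf ⟨[.ofNat 0, .ofNat 0, .negSucc 7807, .negSucc 127], (.tr (.lf 2) (.dx 3 (.tr (.lf 1) (.lf 11) (.tw (.lf 5) (.lf 17)))) (.tw (.lf 6) (.lf 18))), 3, [2, 2, 2, 2, 0, 0, 0, 1017], []⟩)
    (.lf ⟨[.ofNat 0, .ofNat 0, .ofNat 11008, .negSucc 1823], (.tr (.lf 2) (.dx 3 (.tr (.lf 1) (.tw (.lf 5) (.lf 11)) (.lf 17))) (.tw (.lf 6) (.lf 18))), 3, [0, 0, 2, 2, 0, 1017, 2, 17], []⟩))
    (.nd (.lf ⟨[.ofNat 0, .ofNat 0, .negSucc 767, .ofNat 2304], (.tr (.lf 2) (.dx 3 (.tr (.tw (.lf 1) (.lf 11)) (.lf 5) (.lf 17))) (.tw (.lf 6) (.lf 18))), 3, [2, 2, 2, 2, 0, 0, 0, 1017], []⟩)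
    (.lf ⟨[.ofNat 0, .ofNat 0, .ofNat 3200, .negSucc 1599], (.tr (.lf 2) (.dx 3 (.tr (.lf 5) (.tw (.lf 1) (.lf 11)) (.lf 17))) (.tw (.lf 6) (.lf 18))), 3, [0, 0, 0, 0, 2, 1017, 2, 17], []⟩))))

/-- data -/
def dE19x2 : RT := (.nd (.nd (.nd (.lf ⟨[.ofNat 0, .ofNat 0, .negSucc 767, .ofNat 2304], (.tr (.lf 2) (.dx 3 (.tr (.tw (.lf 5) (.lf 11)) (.lf 1) (.lf 17))) (.tw (.lf 6) (.lf 18))), 3, [0, 0, 2, 2, 0, 0, 2, 1017], []⟩)
    (.lf ⟨[.ofNat 0, .ofNat 0, .ofNat 4864], (.tr (.tw (.dx 0 (.tr (.lf 11) (.lf 5) (.tw (.lf 13) (.lf 17)))) (.lf 14)) (.lf 18) (.lf 6)), 0, [2, 14, 1017, 12, 17, 17, 17, 17], []⟩))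
    (.nd (.lf ⟨[.ofNat 0, .ofNat 0, .negSucc 4863], (.tr (.dx 0 (.tr (.lf 11) (.tw (.lf 5) (.lf 13)) (.lf 17))) (.tw (.lf 14) (.lf 18)) (.lf 6)), 0, [2, 2, 2, 2, 12, 12, 12, 1017], []⟩)
    (.lf ⟨[.ofNat 0, .ofNat 0, .ofNat 2432], (.tr (.lf 6) (.tw (.dx 0 (.tr (.lf 11) (.lf 5) (.tw (.lf 13) (.lf 17)))) (.lf 14)) (.lf 18)), 0, [4, 16, 4, 16, 4, 4, 4, 4], []⟩)))
    (.nd (.nd (.lf ⟨[.ofNat 0, .ofNat 0, .negSucc 2431], (.tr (.lf 6) (.tw (.dx 0 (.tr (.lf 11) (.tw (.lf 5) (.lf 17)) (.lf 13))) (.lf 14)) (.lf 18)), 0, [16, 16, 4, 4, 4, 4, 4, 4], []⟩)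
    (.lf ⟨[.ofNat 0, .ofNat 1664, .negSucc 127, .negSucc 607], (.tr (.lf 13) (.dx 0 .on) (.tr (.lf 5) (.lf 9) (.tr (.lf 6) (.lf 10) (.tr (.lf 17) (.lf 14) (.lf 18))))), 0, [0, 0, 21, 21, 21, 21, 21, 21], [0, 0, 21, 21, 21, 21, 21, 21]⟩))
    (.nd (.lf ⟨[.ofNat 0, .ofNat 0, .negSucc 863, .ofNat 80], (.tr (.dx 0 (.lf 13)) (.tw (.lf 5) (.tr (.lf 17) (.lf 6) (.tr (.lf 9) (.lf 18) (.lf 10)))) (.lf 14)), 0, [0, 0, 0, 0, 0, 0, 2, 2], [12, 12, 12, 12, 12, 12, 14, 14]⟩)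
    (.lf ⟨[.ofNat 0, .ofNat 0, .negSucc 1727, .ofNat 160], (.tr (.lf 17) (.lf 5) (.tw (.lf 14) (.tr (.lf 6) (.dx 0 (.lf 13)) (.tr (.lf 9) (.lf 18) (.lf 10))))), 0, [19, 19, 5, 5, 16, 16, 1023, 1023], [19, 19, 17, 17, 16, 16, 5, 5]⟩))))

/-- data -/
def dE19x3 : RT := (.nd (.nd (.nd (.lf ⟨[.ofNat 0, .negSucc 1663, .ofNat 4160, .negSucc 159], (.tr (.lf 5) (.dx 0 (.lf 13)) (.tw (.lf 17) (.tr (.lf 6) (.lf 14) (.tr (.lf 9) (.lf 18) (.lf 10))))), 0, [4, 4, 4, 4, 4, 4, 4, 4], [16, 16, 16, 16, 4, 4, 16, 16]⟩)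
    (.lf ⟨[.ofNat 0, .ofNat 0, .ofNat 4864], (.tr (.lf 1) (.lf 11) (.tw (.lf 17) (.tr (.lf 2) (.dx 3 .on) (.tr (.lf 5) (.lf 18) (.lf 6))))), 3, [14, 14, 14, 14, 2, 2, 14, 14], [14, 14, 14, 14, 2, 2, 14, 14]⟩))
    (.nd (.lf ⟨[.ofNat 0, .negSucc 3583, .negSucc 3391, .ofNat 160], (.tr (.lf 2) (.tr (.lf 6) (.dx 3 (.tw (.lf 1) (.lf 5))) (.tr (.lf 9) (.lf 17) (.lf 10))) (.lf 18)), 3, [0, 0, 0, 0, 14, 14, 14, 14], [0, 0, 14, 14]⟩)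
    (.lf ⟨[.ofNat 0, .ofNat 3584, .ofNat 3392, .negSucc 159], (.tr (.lf 6) (.tr (.dx 0 (.tw (.lf 5) (.lf 13))) (.lf 14) (.tr (.lf 9) (.lf 17) (.lf 10))) (.lf 18)), 0, [4, 4, 4, 4, 20, 20, 20, 20], [4, 4, 20, 20]⟩)))
    (.nd (.nd (.lf ⟨[.ofNat 0, .ofNat 2624, .negSucc 639], (.tr (.lf 17) (.lf 2) (.tr (.dx 3 (.tw (.lf 1) (.lf 5))) (.tr (.lf 9) (.lf 18) (.lf 10)) (.lf 6))), 3, [21, 21, 21, 21, 12, 12, 12, 12], [21, 21, 12, 12]⟩)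
    (.lf ⟨[.ofNat 0, .ofNat 1664, .negSucc 2687], (.tr (.lf 5) (.tw (.lf 2) (.tr (.lf 6) (.dx 3 (.lf 1)) (.tr (.lf 9) (.lf 17) (.lf 10)))) (.lf 18)), 3, [4, 4, 16, 16, 4, 4, 20, 20], [4, 4, 16, 16, 8, 8, 20, 20]⟩))
    (.nd (.lf ⟨[.ofNat 0, .ofNat 1664, .negSucc 4671, .ofNat 160], (.tr (.lf 5) (.dx 0 (.lf 13)) (.tw (.lf 17) (.tr (.lf 6) (.tr (.lf 9) (.lf 18) (.lf 10)) (.lf 14)))), 0, [4, 4, 1023, 1023, 4, 4, 4, 4], [16, 16, 21, 21, 16, 16, 4, 4]⟩)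
    (.lf ⟨[.ofNat 0, .ofNat 5248, .ofNat 704, .negSucc 159], (.tr (.lf 5) (.tw (.dx 0 (.lf 13)) (.tr (.lf 9) (.lf 6) (.tr (.lf 17) (.lf 10) (.lf 18)))) (.lf 14)), 0, [4, 4, 4, 4, 20, 20, 20, 20], [16, 16, 16, 16, 20, 20, 20, 20]⟩))))

/-- data -/
def dE19x4 : RT := (.nd (.nd (.nd (.lf ⟨[.ofNat 0, .ofNat 3456, .negSucc 1727], (.tr (.lf 9) (.dx 0 (.tw (.lf 5) (.lf 13))) (.tr (.lf 6) (.tr (.lf 17) (.lf 10) (.lf 18)) (.lf 14))), 0, [6, 6, 6, 6, 6, 6, 6, 6], [18, 18, 6, 6]⟩)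
    (.lf ⟨[.ofNat 0, .negSucc 3455, .negSucc 767, .ofNat 64], (.tr (.lf 9) (.dx 0 (.tw (.lf 5) (.lf 13))) (.tr (.lf 14) (.lf 10) (.tr (.lf 17) (.lf 6) (.lf 18)))), 0, [6, 6, 6, 6, 6, 6, 6, 6], [6, 6, 18, 18]⟩))
    (.nd (.lf ⟨[.ofNat 0, .negSucc 3455, .negSucc 767, .ofNat 64], (.tr (.lf 17) (.dx 0 (.tr (.lf 5) (.lf 13) (.tw (.lf 9) (.lf 14)))) (.tr (.lf 6) (.lf 18) (.lf 10))), 0, [23, 21, 23, 21, 23, 21, 23, 21], []⟩)
    (.lf ⟨[.ofNat 0, .ofNat 1728, .ofNat 2112, .negSucc 1199], (.tr (.dx 0 (.tw (.lf 13) (.lf 17))) (.tr (.lf 5) (.tr (.lf 6) (.lf 18) (.lf 9)) (.lf 10)) (.lf 14)), 0, [0, 0, 2, 2, 12, 12, 14, 14], [12, 12, 14, 14]⟩)))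
    (.nd (.nd (.lf ⟨[.ofNat 0, .ofNat 1920, .ofNat 1008, .negSucc 1199], (.tr (.lf 2) (.tr (.lf 5) (.tr (.lf 6) (.dx 3 (.tw (.lf 1) (.lf 17))) (.lf 9)) (.lf 10)) (.lf 18)), 3, [0, 0, 0, 0, 2, 2, 2, 2], [0, 0, 2, 2]⟩)
    (.lf ⟨[.ofNat 0, .ofNat 0, .negSucc 5887, .ofNat 2560], (.tr (.lf 14) (.tr (.dx 0 (.tr (.tw (.lf 5) (.lf 9)) (.lf 13) (.lf 17))) (.lf 6) (.lf 10)) (.lf 18)), 0, [1023, 2, 23, 23, 10, 10, 15, 1023], [1023, 1023]⟩))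
    (.nd (.lf ⟨[.ofNat 0, .negSucc 11071, .ofNat 960, .negSucc 2047], (.tr (.lf 14) (.tr (.dx 0 (.tr (.lf 5) (.tw (.lf 9) (.lf 13)) (.lf 17))) (.lf 6) (.lf 10)) (.lf 18)), 0, [1023, 23, 23, 23, 10, 10, 10, 1023], [1023, 1023]⟩)
    (.lf ⟨[.ofNat 0, .negSucc 1663, .ofNat 6240, .ofNat 1920], (.tr (.lf 6) (.tw (.dx 0 (.tr (.lf 13) (.lf 5) (.tr (.lf 9) (.lf 14) (.lf 17)))) (.lf 10)) (.lf 18)), 0, [4, 4, 4, 16, 8, 8, 8, 20], []⟩))))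

/-- data -/
def dE19x5 : RT := (.nd (.nd (.nd (.lf ⟨[.ofNat 0, .ofNat 50656, .ofNat 2400, .negSucc 5023], (.tr (.lf 10) (.dx 0 (.tr (.lf 13) (.lf 5) (.tr (.tw (.lf 9) (.lf 17)) (.lf 6) (.lf 14)))) (.lf 18)), 0, [6, 6, 6, 6, 18, 18, 6, 6], []⟩)
    (.lf ⟨[.ofNat 26624, .negSucc 16735, .ofNat 19136, .negSucc 35647], (.tw (.dx 0 (.tr (.lf 13) (.tr (.lf 14) (.lf 5) (.tr (.lf 9) (.lf 6) (.lf 17))) (.lf 18))) (.lf 10)), 0, [19, 19, 19, 19, 7, 7, 7, 7], []⟩))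
    (.nd (.lf ⟨[.ofNat 0, .negSucc 2719, .ofNat 200, .negSucc 15], (.tr (.lf 17) (.dx 3 .on) (.tr (.lf 5) (.lf 1) (.tr (.lf 2) (.lf 6) (.tr (.lf 9) (.lf 18) (.lf 10))))), 3, [23, 23, 13, 13, 17, 17, 17, 17], [23, 23, 13, 13, 17, 17, 17, 17]⟩)
    (.lf ⟨[.ofNat 0, .negSucc 2999, .ofNat 654, .negSucc 3], (.tr (.lf 1) (.lf 5) (.tr (.lf 9) (.tw (.lf 2) (.tr (.dx 3 .on) (.lf 6) (.tw (.lf 17) (.lf 18)))) (.lf 10))), 3, [0, 0, 12, 12, 0, 0, 12, 12, 0, 0, 12, 12, 0, 0, 12, 12], [0, 0, 12, 12, 0, 0, 12, 12, 0, 0, 12, 12, 0, 0, 12, 12]⟩)))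
    (.nd (.nd (.lf ⟨[.ofNat 0, .negSucc 703], (.tr (.dx 3 (.tw (.lf 1) (.lf 5))) (.lf 9) (.tw (.lf 10) (.tr (.lf 2) (.tw (.lf 17) (.lf 18)) (.lf 6)))), 3, [17, 17, 13, 13, 23, 23, 19, 19, 17, 17, 13, 13, 23, 23, 19, 19], [17, 17, 13, 13, 23, 23, 19, 19]⟩)
    (.lf ⟨[.ofNat 0, .ofNat 3456, .ofNat 768, .negSucc 63], (.tr (.lf 9) (.lf 17) (.tr (.dx 3 (.tw (.lf 1) (.lf 5))) (.tr (.lf 2) (.lf 10) (.lf 6)) (.lf 18))), 3, [18, 18, 22, 22, 18, 18, 22, 22], [18, 22, 18, 22]⟩))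
    (.nd (.lf ⟨[.ofNat 0, .ofNat 1664, .negSucc 4863, .ofNat 320], (.tr (.lf 1) (.lf 5) (.tr (.dx 3 (.lf 17)) (.tr (.lf 2) (.lf 6) (.tw (.lf 9) (.lf 10))) (.lf 18))), 3, [0, 0, 0, 0, 12, 12, 12, 12], [0, 0, 0, 0, 12, 12, 12, 12]⟩)
    (.lf ⟨[.ofNat 0, .ofNat 2432], (.tr (.lf 5) (.lf 1) (.tr (.lf 2) (.lf 18) (.tr (.dx 3 (.lf 17)) (.tw (.lf 9) (.lf 10)) (.lf 6)))), 3, [1023, 1023, 16, 16, 4, 4, 4, 4], [1023, 1023, 16, 16, 4, 4, 4, 4]⟩))))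

/-- data -/
def dE19x6 : RT := (.nd (.nd (.nd (.lf ⟨[.ofNat 0, .ofNat 2432], (.tr (.lf 9) (.lf 5) (.tr (.lf 6) (.lf 13) (.tr (.lf 10) (.dx 0 .on) (.tr (.lf 17) (.lf 14) (.lf 18))))), 0, [10, 10, 1017, 1017, 22, 22, 22, 22], [10, 10, 10, 10, 22, 22, 22, 22]⟩)
    (.lf ⟨[.ofNat 0, .ofNat 0, .ofNat 2432], (.tr (.lf 5) (.dx 0 .on) (.tw (.lf 13) (.tr (.lf 6) (.lf 11) (.tr (.lf 17) (.lf 14) (.lf 18))))), 0, [4, 4, 4, 4, 16, 16, 16, 16], [4, 4, 1023, 1023, 16, 16, 16, 16]⟩))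
    (.nd (.lf ⟨[.ofNat 0, .ofNat 0, .ofNat 2432], (.tr (.lf 5) (.lf 11) (.tw (.lf 13) (.tr (.lf 6) (.dx 0 .on) (.tr (.lf 17) (.lf 14) (.lf 18))))), 0, [8, 8, 17, 17, 20, 20, 20, 20], [8, 8, 1023, 1023, 20, 20, 20, 20]⟩)
    (.lf ⟨[.ofNat 0, .ofNat 1664, .negSucc 127, .negSucc 607], (.tr (.lf 1) (.lf 5) (.tr (.lf 2) (.tr (.lf 6) (.dx 3 (.lf 17)) (.tw (.lf 9) (.lf 10))) (.lf 18))), 3, [0, 0, 0, 0, 3, 3, 12, 12], [0, 0, 0, 0, 3, 3, 1013, 1013]⟩)))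
    (.nd (.nd (.lf ⟨[.ofNat 0, .negSucc 103, .ofNat 14688, .negSucc 2519], (.tr (.lf 1) (.tw (.lf 9) (.tr (.dx 3 (.lf 17)) (.tr (.lf 2) (.lf 10) (.lf 5)) (.lf 18))) (.lf 6)), 3, [2, 2, 14, 14, 21, 21, 9, 9], [2, 2, 14, 14, 21, 21, 9, 9]⟩)
    (.lf ⟨[.ofNat 0, .ofNat 1664, .negSucc 127, .negSucc 607], (.tr (.lf 18) (.lf 1) (.tw (.dx 3 (.lf 17)) (.tr (.lf 2) (.lf 5) (.tr (.lf 9) (.lf 6) (.lf 10))))), 3, [11, 11, 1, 1, 12, 12, 14, 14], [11, 11, 1, 1, 12, 12, 1015, 1015]⟩))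
    (.nd (.lf ⟨[.ofNat 0, .ofNat 3328, .negSucc 6079, .negSucc 63], (.tr (.dx 3 (.tw (.lf 1) (.lf 17))) (.lf 18) (.tr (.lf 2) (.lf 5) (.tr (.lf 9) (.lf 6) (.lf 10)))), 3, [23, 23, 13, 13, 23, 23, 13, 13], [23, 23, 13, 13]⟩)
    (.lf ⟨[.ofNat 0, .negSucc 1663, .ofNat 5952, .negSucc 543], (.tr (.lf 2) (.lf 5) (.tr (.dx 3 (.tw (.lf 1) (.lf 17))) (.lf 18) (.tr (.lf 9) (.lf 6) (.lf 10)))), 3, [23, 23, 23, 23, 12, 12, 12, 12], [23, 23, 12, 12]⟩))))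

/-- data -/
def dE19x7 : RT := (.nd (.nd (.nd (.lf ⟨[.ofNat 0, .negSucc 1663, .ofNat 4800, .negSucc 159], (.tr (.lf 2) (.lf 5) (.tr (.lf 18) (.dx 3 (.tw (.lf 1) (.lf 17))) (.tr (.lf 9) (.lf 6) (.lf 10)))), 3, [11, 11, 11, 11, 0, 0, 0, 0], [11, 11, 0, 0]⟩)
    (.lf ⟨[.ofNat 0, .negSucc 1663, .ofNat 4800, .negSucc 159], (.tr (.dx 3 (.lf 17)) (.tr (.lf 1) (.lf 18) (.tr (.lf 5) (.tw (.lf 6) (.lf 9)) (.lf 10))) (.lf 2)), 3, [15, 15, 13, 13, 15, 15, 13, 13], [15, 15, 13, 13, 15, 15, 13, 13]⟩))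
    (.nd (.lf ⟨[.ofNat 0, .negSucc 831, .ofNat 3232, .negSucc 463], (.tr (.lf 5) (.dx 3 (.tw (.lf 1) (.lf 17))) (.tr (.lf 2) (.tr (.lf 9) (.lf 6) (.lf 10)) (.lf 18))), 3, [4, 4, 15, 15, 4, 4, 15, 15], [4, 4, 15, 15]⟩)
    (.lf ⟨[.ofNat 0, .ofNat 7616, .ofNat 11136, .ofNat 3104], (.tr (.dx 3 (.tr (.tw (.lf 1) (.lf 5)) (.lf 2) (.lf 17))) (.lf 9) (.tr (.lf 10) (.lf 6) (.lf 18))), 3, [0, 23, 1023, 23, 21, 23, 21, 23], []⟩)))
    (.nd (.nd (.lf ⟨[.ofNat 13312, .negSucc 46591, .negSucc 33567, .negSucc 13695], (.tr (.dx 3 (.tr (.tw (.lf 1) (.lf 17)) (.lf 2) (.lf 5))) (.lf 9) (.tr (.lf 10) (.lf 6) (.lf 18))), 3, [21, 23, 21, 23, 1023, 23, 21, 23], []⟩)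
    (.lf ⟨[.ofNat 0, .ofNat 0, .ofNat 3456, .negSucc 319], (.tr (.dx 3 (.tr (.tw (.lf 1) (.lf 17)) (.lf 2) (.lf 5))) (.tr (.lf 6) (.lf 9) (.lf 10)) (.lf 18)), 3, [23, 21, 23, 21, 23, 1023, 23, 21], []⟩))
    (.nd (.lf ⟨[.ofNat 0, .ofNat 0, .ofNat 1920, .ofNat 4512, .ofNat 64], (.tr (.lf 5) (.lf 9) (.tr (.dx 0 (.lf 13)) (.tr (.lf 6) (.lf 10) (.lf 19)) (.lf 14))), 0, [8, 8, 8, 8], [20, 20, 8, 13]⟩)
    (.lf ⟨[.ofNat 0, .ofNat 0, .ofNat 3200, .ofNat 4512, .ofNat 64], (.tr (.lf 5) (.lf 1) (.tr (.lf 11) (.tr (.dx 3 .on) (.lf 2) (.lf 6)) (.lf 19))), 3, [4, 4, 11, 16], [4, 4, 11, 16]⟩))))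

/-- data -/
def dE19x8 : RT := (.nd (.nd (.nd (.lf ⟨[.ofNat 0, .negSucc 1599, .negSucc 2255, .negSucc 31], (.tr (.lf 5) (.lf 9) (.tr (.dx 3 (.lf 1)) (.tr (.lf 6) (.lf 10) (.tw (.lf 17) (.lf 18))) (.lf 2))), 3, [8, 8, 13, 13, 20, 20, 20, 20], [8, 8, 13, 13, 20, 20, 20, 20]⟩)
    (.lf ⟨[.ofNat 0, .ofNat 3968, .ofNat 2016, .ofNat 64], (.tr (.lf 5) (.lf 9) (.tr (.dx 3 (.lf 1)) (.lf 6) (.tr (.lf 2) (.tw (.lf 17) (.lf 18)) (.lf 10)))), 3, [8, 8, 8, 8, 20, 20, 20, 20], [8, 8, 8, 8, 20, 20, 20, 20]⟩))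
    (.nd (.lf ⟨[.ofNat 0, .ofNat 3968, .ofNat 2016, .ofNat 64], (.tr (.lf 1) (.tr (.lf 5) (.tr (.lf 17) (.lf 2) (.tr (.lf 6) (.dx 3 .on) (.lf 9))) (.lf 10)) (.lf 18)), 3, [12, 12, 0, 0, 14, 14, 2, 2], [12, 12, 0, 0, 14, 14, 2, 2]⟩)
    (.lf ⟨[.ofNat 0, .negSucc 383, .ofNat 800], (.tr (.lf 17) (.lf 1) (.tr (.lf 2) (.dx 3 .on) (.tr (.lf 5) (.tr (.lf 6) (.lf 18) (.lf 9)) (.lf 10)))), 3, [23, 23, 21, 21, 3, 3, 1, 1], [23, 23, 21, 21, 3, 3, 1, 1]⟩)))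
    (.nd (.nd (.lf ⟨[.ofNat 0, .ofNat 3584, .ofNat 2816, .ofNat 64], (.tr (.lf 13) (.dx 0 .on) (.tr (.lf 17) (.lf 18) (.tr (.lf 5) (.tr (.lf 6) (.lf 14) (.lf 9)) (.lf 10)))), 0, [11, 11, 9, 9, 0, 0, 2, 2], [11, 11, 9, 9, 0, 0, 2, 2]⟩)
    (.lf ⟨[.ofNat 0, .ofNat 3584, .ofNat 2816, .ofNat 64], (.tr (.lf 13) (.tr (.dx 0 .on) (.tr (.lf 5) (.tr (.lf 6) (.lf 17) (.lf 9)) (.lf 10)) (.lf 14)) (.lf 18)), 0, [0, 0, 2, 2, 15, 15, 13, 13], [0, 0, 2, 2, 15, 15, 13, 13]⟩))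
    (.nd (.lf ⟨[.ofNat 0, .ofNat 1216, .negSucc 2191, .negSucc 63], (.tr (.lf 13) (.dx 0 .on) (.tr (.lf 17) (.lf 14) (.tr (.lf 5) (.tr (.lf 6) (.lf 18) (.lf 9)) (.lf 10)))), 0, [23, 23, 21, 21, 0, 0, 2, 2], [23, 23, 21, 21, 0, 0, 2, 2]⟩)
    (.lf ⟨[.ofNat 0, .ofNat 0, .negSucc 383, .ofNat 800], (.tr (.dx 0 .on) (.lf 13) (.tr (.lf 17) (.lf 11) (.tr (.tw (.lf 5) (.lf 6)) (.lf 18) (.lf 14)))), 0, [2, 2, 1017, 1017, 0, 0, 0, 0], [2, 2, 21, 21, 0, 0, 0, 0]⟩))))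

/-- data -/
def dE19x9 : RT := (.nd (.nd (.nd (.lf ⟨[.ofNat 0, .ofNat 2816], (.tr (.lf 17) (.lf 1) (.tr (.lf 5) (.tr (.dx 3 .on) (.lf 2) (.tr (.lf 6) (.lf 18) (.lf 9))) (.lf 10))), 3, [23, 23, 7, 7, 21, 21, 5, 5], [23, 23, 7, 7, 21, 21, 5, 5]⟩)
    (.lf ⟨[.ofNat 0, .ofNat 0, .ofNat 6784, .ofNat 2016, .ofNat 64], (.tr (.lf 9) (.lf 2) (.tr (.tw (.dx 3 (.tw (.lf 1) (.lf 5))) (.lf 19)) (.lf 6) (.lf 10))), 3, [6, 6, 11, 11, 6, 6, 18, 18], [1017, 1017, 6, 18]⟩))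
    (.nd (.lf ⟨[.ofNat 0, .ofNat 0, .negSucc 4479, .negSucc 447], (.tr (.lf 5) (.lf 14) (.tr (.tw (.dx 0 (.tw (.lf 13) (.lf 17))) (.lf 11)) (.lf 18) (.lf 6))), 0, [21, 21, 8, 8, 19, 7, 8, 8], [1023, 1023, 19, 15]⟩)
    (.lf ⟨[.ofNat 0, .ofNat 0, .ofNat 9344, .ofNat 448], (.tr (.dx 0 (.tw (.lf 13) (.lf 17))) (.lf 11) (.tr (.tw (.lf 5) (.lf 14)) (.lf 6) (.lf 18))), 0, [2, 2, 2, 9, 14, 14, 14, 9], [2, 2, 14, 14]⟩)))
    (.nd (.nd (.lf ⟨[.ofNat 0, .ofNat 0, .negSucc 2431], (.tr (.dx 3 .on) (.tr (.lf 17) (.lf 1) (.tr (.lf 2) (.lf 11) (.tw (.lf 5) (.lf 6)))) (.lf 18)), 3, [21, 21, 15, 15, 13, 13, 1017, 1017], [21, 21, 15, 15, 2, 2, 8, 8]⟩)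
    (.lf ⟨[.ofNat 0, .ofNat 0, .ofNat 2432], (.tr (.dx 3 .on) (.tr (.lf 1) (.lf 11) (.tr (.tw (.lf 5) (.lf 6)) (.lf 2) (.lf 17))) (.lf 18)), 3, [13, 13, 17, 17, 15, 15, 15, 15], [2, 2, 17, 17, 4, 4, 15, 15]⟩))
    (.nd (.lf ⟨[.ofNat 6656, .negSucc 16767, .negSucc 1535, .ofNat 160], (.tr (.dx 0 .on) (.lf 13) (.tr (.lf 5) (.tr (.lf 17) (.lf 14) (.tr (.lf 6) (.lf 18) (.lf 9))) (.lf 10))), 0, [1023, 0, 0, 0, 2, 1017, 2, 2], [23, 23, 0, 0, 21, 21, 2, 2]⟩)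
    (.lf ⟨[.ofNat 0, .ofNat 1664, .negSucc 4799, .ofNat 160], (.tr (.dx 0 (.lf 5)) (.tw (.lf 6) (.tr (.lf 9) (.lf 13) (.tr (.lf 17) (.lf 14) (.lf 18)))) (.lf 10)), 0, [0, 0, 11, 11, 0, 0, 1023, 1023], [0, 0, 11, 11, 23, 23, 11, 11]⟩))))

/-- data -/
def dE19x10 : RT := (.nd (.nd (.nd (.lf ⟨[.ofNat 0, .ofNat 1664, .negSucc 4799, .ofNat 160], (.tr (.dx 0 (.lf 5)) (.tw (.lf 13) (.tr (.lf 6) (.lf 9) (.tr (.lf 17) (.lf 14) (.lf 18)))) (.lf 10)), 0, [0, 0, 1023, 1023, 12, 12, 12, 12], [0, 0, 23, 23, 12, 12, 11, 11]⟩)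
    (.lf ⟨[.ofNat 0, .negSucc 1663, .ofNat 4800, .negSucc 159], (.tr (.lf 9) (.lf 6) (.tw (.dx 0 (.lf 5)) (.tr (.lf 10) (.lf 13) (.tr (.lf 17) (.lf 14) (.lf 18))))), 0, [10, 10, 22, 22, 1023, 1023, 1, 1], [10, 10, 22, 22, 10, 10, 22, 22]⟩))
    (.nd (.lf ⟨[.ofNat 0, .negSucc 6655, .ofNat 12160, .ofNat 128], (.tr (.lf 13) (.dx 0 (.lf 5)) (.tw (.lf 6) (.tr (.lf 17) (.lf 14) (.tr (.lf 9) (.lf 18) (.lf 10))))), 0, [23, 23, 0, 0, 21, 21, 21, 21], [23, 23, 0, 0, 21, 21, 21, 21]⟩)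
    (.lf ⟨[.ofNat 0, .ofNat 0, .negSucc 2047, .ofNat 2016], (.tr (.lf 13) (.tw (.lf 11) (.tr (.dx 0 .on) (.tr (.lf 5) (.lf 17) (.lf 6)) (.lf 14))) (.lf 18)), 0, [6, 6, 13, 13, 0, 0, 19, 19], [6, 6, 13, 13, 0, 0, 19, 19]⟩)))
    (.nd (.nd (.lf ⟨[.ofNat 0, .ofNat 0, .negSucc 4095, .ofNat 3328], (.tr (.lf 13) (.tr (.dx 0 .on) (.tr (.tw (.lf 5) (.lf 14)) (.lf 6) (.lf 17)) (.lf 11)) (.lf 18)), 0, [0, 0, 0, 0, 13, 13, 13, 13], [0, 1023, 1023, 23, 10, 1023, 1023, 13]⟩)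
    (.lf ⟨[.ofNat 0, .negSucc 5247, .ofNat 1280], (.tr (.lf 13) (.tr (.dx 0 (.lf 5)) (.tr (.tw (.lf 9) (.lf 14)) (.lf 10) (.lf 17)) (.lf 6)) (.lf 18)), 0, [0, 0, 0, 0, 13, 13, 13, 13], [2, 1017, 1017, 21, 8, 1017, 1017, 15]⟩))
    (.nd (.lf ⟨[.ofNat 0, .ofNat 0, .negSucc 767, .ofNat 2304], (.tr (.lf 17) (.lf 5) (.tr (.dx 3 (.tw (.lf 1) (.lf 11))) (.tw (.lf 2) (.lf 18)) (.lf 6))), 3, [17, 17, 17, 17, 16, 16, 16, 16], []⟩)
    (.lf ⟨[.ofNat 0, .ofNat 384, .negSucc 1503], (.tr (.lf 13) (.tr (.lf 5) (.tr (.dx 0 .on) (.lf 14) (.tr (.lf 6) (.lf 17) (.lf 9))) (.lf 10)) (.lf 18)), 0, [23, 4, 8, 19, 6, 21, 17, 10], [23, 23, 8, 8, 21, 21, 10, 10]⟩))))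

/-- data -/
def dE19x11 : RT := (.nd (.nd (.nd (.lf ⟨[.ofNat 0, .ofNat 0, .ofNat 4480, .ofNat 1504], (.tw (.lf 17) (.tr (.lf 14) (.lf 5) (.tr (.dx 0 (.tw (.lf 11) (.lf 13))) (.lf 18) (.lf 6)))), 0, [17, 17, 3, 3, 5, 5, 5, 5], []⟩)
    (.lf ⟨[.ofNat 0, .ofNat 0, .negSucc 767, .ofNat 2304], (.tw (.lf 17) (.tr (.dx 3 (.tw (.lf 1) (.lf 5))) (.tr (.lf 6) (.lf 18) (.lf 11)) (.lf 2))), 3, [15, 13, 15, 13, 1017, 1013, 5, 1], [15, 13, 12, 14]⟩))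
    (.nd (.lf ⟨[.ofNat 0, .negSucc 767, .negSucc 9551, .negSucc 311], (.tr (.lf 13) (.lf 6) (.tr (.lf 9) (.lf 14) (.tr (.lf 17) (.tw (.dx 0 (.lf 5)) (.lf 10)) (.lf 18)))), 0, [19, 13, 19, 13, 7, 7, 7, 7], [19, 1017, 19, 1017, 7, 7, 7, 7]⟩)
    (.lf ⟨[.ofNat 0, .ofNat 0, .ofNat 768, .negSucc 1599], (.tr (.lf 13) (.tw (.lf 9) (.tr (.dx 0 (.lf 5)) (.tr (.lf 10) (.lf 14) (.lf 17)) (.lf 6))) (.lf 18)), 0, [6, 6, 1023, 13, 0, 1023, 19, 19], [6, 6, 10, 10, 23, 23, 19, 19]⟩)))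
    (.nd (.nd (.lf ⟨[.ofNat 0, .negSucc 3327, .ofNat 6080, .ofNat 64], (.tr (.lf 13) (.lf 17) (.tr (.lf 9) (.lf 14) (.tr (.tw (.dx 0 (.lf 5)) (.lf 6)) (.lf 10) (.lf 18)))), 0, [23, 19, 17, 13, 11, 7, 11, 7], [23, 19, 17, 13, 11, 7, 11, 7]⟩)
    (.lf ⟨[.ofNat 0, .negSucc 6911, .ofNat 3456], (.tr (.lf 5) (.lf 17) (.tw (.dx 0 (.lf 13)) (.tr (.lf 6) (.lf 14) (.tr (.lf 9) (.lf 18) (.lf 10))))), 0, [23, 23, 1023, 1023, 3, 3, 1, 1], [23, 23, 16, 16, 15, 15, 1, 1]⟩))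
    (.nd (.lf ⟨[.ofNat 0, .negSucc 23423, .negSucc 511, .negSucc 1983], (.tr (.dx 0 (.tw (.lf 13) (.tr (.lf 17) (.lf 5) (.tr (.lf 6) (.lf 14) (.lf 9))))) (.lf 10) (.lf 18)), 0, [0, 0, 0, 2, 12, 12, 0, 2], []⟩)
    (.lf ⟨[.ofNat 0, .negSucc 6911, .negSucc 1535, .ofNat 128], (.tr (.lf 6) (.lf 10) (.tr (.lf 14) (.dx 0 (.tr (.tw (.lf 5) (.lf 13)) (.lf 17) (.lf 9))) (.lf 18))), 0, [8, 8, 8, 8, 20, 20, 20, 20], [8, 20]⟩))))

/-- data -/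
def dE19x12 : RT := (.nd (.nd (.nd (.lf ⟨[.ofNat 0, .negSucc 831, .ofNat 1440, .ofNat 240], (.tr (.dx 0 (.tw (.lf 17) (.tr (.lf 5) (.tw (.lf 9) (.lf 13)) (.lf 6)))) (.lf 14) (.tw (.lf 10) (.lf 18))), 0, [12, 12, 12, 12, 12, 12, 12, 12, 0, 0, 0, 0, 0, 0, 0, 0], []⟩)
    (.lf ⟨[.ofNat 0, .ofNat 20480, .negSucc 27263, .ofNat 2496], (.tr (.dx 0 (.tr (.lf 13) (.lf 5) (.tr (.lf 6) (.lf 17) (.tw (.lf 9) (.lf 14))))) (.lf 18) (.lf 10)), 0, [0, 19, 19, 19, 12, 12, 2, 1023], []⟩))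
    (.nd (.lf ⟨[.ofNat 0, .negSucc 10239, .ofNat 11904, .negSucc 1727], (.tw (.lf 2) (.tr (.dx 3 (.tr (.lf 5) (.lf 1) (.lf 17))) (.lf 9) (.tr (.lf 6) (.lf 18) (.lf 10)))), 3, [1023, 0, 23, 21, 12, 12, 14, 14], [23, 1017, 12, 14]⟩)
    (.lf ⟨[.ofNat 0, .ofNat 0, .ofNat 4864], (.tw (.lf 11) (.tr (.lf 14) (.lf 5) (.tr (.dx 0 (.tw (.lf 13) (.lf 17))) (.lf 18) (.lf 6)))), 0, [10, 10, 10, 10, 6, 18, 22, 22], [17, 1023, 18, 22]⟩)))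
    (.nd (.nd (.lf ⟨[.ofNat 0, .ofNat 0, .ofNat 768, .negSucc 2303], (.tr (.lf 14) (.lf 5) (.tr (.dx 0 (.tw (.lf 13) (.lf 17))) (.tw (.lf 6) (.lf 18)) (.lf 11))), 0, [23, 23, 23, 23, 13, 1, 13, 1], [23, 23, 13, 13]⟩)
    (.lf ⟨[.ofNat 0, .ofNat 8448, .ofNat 4320, .negSucc 95], (.tr (.lf 1) (.dx 3 .on) (.tr (.lf 5) (.lf 2) (.tr (.lf 9) (.lf 6) (.tr (.lf 17) (.lf 10) (.lf 18))))), 3, [0, 0, 23, 23, 17, 17, 17, 17], [0, 0, 23, 23, 17, 17, 17, 17]⟩))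
    (.nd (.lf ⟨[.ofNat 0, .ofNat 2048, .ofNat 1952, .negSucc 159], (.tr (.lf 1) (.dx 3 .on) (.tr (.lf 5) (.tr (.lf 2) (.tr (.lf 9) (.lf 17) (.lf 10)) (.lf 6)) (.lf 18))), 3, [0, 0, 0, 0, 21, 21, 17, 17], [0, 0, 0, 0, 21, 21, 17, 17]⟩)
    (.lf ⟨[.ofNat 0, .ofNat 2048, .ofNat 1952, .negSucc 159], (.tr (.lf 5) (.lf 17) (.tr (.lf 14) (.tr (.lf 6) (.dx 0 (.lf 13)) (.tw (.lf 9) (.lf 10))) (.lf 18))), 0, [16, 16, 20, 20, 16, 16, 20, 20], [16, 16, 20, 20, 16, 16, 20, 20]⟩))))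

/-- data -/
def dE19x13 : RT := (.nd (.nd (.nd (.lf ⟨[.ofNat 0, .ofNat 1664, .negSucc 4671, .ofNat 160], (.tr (.lf 17) (.lf 5) (.tw (.lf 2) (.tr (.dx 3 (.lf 1)) (.tr (.lf 9) (.lf 18) (.lf 10)) (.lf 6)))), 3, [21, 21, 16, 16, 13, 13, 3, 3], [21, 21, 16, 16, 13, 13, 3, 3]⟩)
    (.lf ⟨[.ofNat 0, .ofNat 3328, .negSucc 4991, .ofNat 320], (.tr (.dx 3 (.tr (.lf 1) (.lf 2) (.lf 5))) (.lf 17) (.tr (.lf 6) (.lf 9) (.tw (.lf 10) (.lf 18)))), 3, [1023, 23, 21, 21, 23, 23, 21, 21], []⟩))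
    (.nd (.lf ⟨[.ofNat 0, .negSucc 3199, .negSucc 607], (.tr (.lf 17) (.lf 9) (.tr (.dx 3 (.tr (.lf 1) (.lf 2) (.lf 5))) (.lf 18) (.tw (.lf 6) (.lf 10)))), 3, [23, 21, 23, 21, 22, 1, 22, 1023], []⟩)
    (.lf ⟨[.ofNat 0, .ofNat 1664, .negSucc 4863, .ofNat 320], (.tr (.dx 3 (.lf 17)) (.lf 1) (.tw (.lf 5) (.tr (.lf 2) (.tr (.lf 9) (.lf 6) (.lf 10)) (.lf 18)))), 3, [23, 23, 15, 15, 21, 21, 17, 17], [1023, 1023, 15, 15, 21, 21, 17, 17]⟩)))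
    (.nd (.nd (.lf ⟨[.ofNat 0, .negSucc 2823, .ofNat 3192, .negSucc 751], (.tr (.lf 1) (.lf 18) (.tr (.lf 5) (.lf 2) (.tr (.lf 9) (.tw (.dx 3 (.lf 17)) (.lf 6)) (.lf 10)))), 3, [11, 12, 11, 12, 5, 5, 5, 5], [11, 1023, 11, 1023, 5, 5, 5, 5]⟩)
    (.lf ⟨[.ofNat 0, .negSucc 1663, .ofNat 768], (.tr (.tw (.dx 3 (.tr (.lf 1) (.lf 2) (.tr (.lf 9) (.lf 5) (.lf 17)))) (.lf 6)) (.lf 10) (.lf 18)), 3, [2, 0, 1013, 23, 4, 4, 8, 8], []⟩))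
    (.nd (.lf ⟨[.ofNat 0, .ofNat 3008, .ofNat 976], (.tr (.tw (.dx 3 (.tw (.lf 9) (.tr (.tw (.lf 1) (.lf 2)) (.lf 5) (.lf 17)))) (.lf 6)) (.lf 18) (.lf 10)), 3, [23, 23, 23, 23, 23, 23, 23, 23, 8, 8, 8, 8, 4, 4, 1015, 1015], []⟩)
    (.lf ⟨[.ofNat 0, .negSucc 1151, .negSucc 767], (.tr (.dx 3 (.tr (.lf 1) (.tr (.lf 2) (.lf 5) (.lf 17)) (.lf 9))) (.tw (.lf 6) (.lf 18)) (.lf 10)), 3, [23, 23, 23, 23, 23, 23, 23, 23], []⟩))))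

/-- data -/
def dE19x14 : RT := (.nd (.nd (.nd (.lf ⟨[.ofNat 0, .ofNat 448, .negSucc 4511, .negSucc 815], (.tr (.dx 3 (.tw (.lf 9) (.tr (.lf 1) (.tw (.lf 5) (.lf 17)) (.lf 2)))) (.tw (.lf 6) (.lf 18)) (.lf 10)), 3, [23, 23, 23, 23, 23, 23, 23, 23, 23, 23, 23, 23, 23, 23, 23, 23], []⟩)
    (.lf ⟨[.ofNat 0, .ofNat 0, .ofNat 0, .negSucc 4863], (.tr (.lf 19) (.lf 5) (.tr (.lf 11) (.lf 13) (.tr (.dx 0 .on) (.lf 6) (.lf 14)))), 0, [5, 1, 11, 7], [5, 1, 11, 7]⟩))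
    (.nd (.lf ⟨[.ofNat 0, .ofNat 0, .ofNat 2432], (.tr (.dx 3 .on) (.lf 1) (.tr (.lf 11) (.lf 17) (.tr (.tw (.lf 5) (.lf 6)) (.lf 2) (.lf 18)))), 3, [13, 13, 17, 17, 19, 19, 23, 23], [13, 13, 17, 17, 19, 19, 23, 23]⟩)
    (.lf ⟨[.ofNat 0, .ofNat 13312, .negSucc 37631, .negSucc 5183, .ofNat 640], (.tr (.lf 5) (.lf 13) (.tr (.lf 6) (.lf 17) (.tr (.dx 0 .on) (.tw (.lf 14) (.lf 18)) (.lf 11)))), 0, [4, 4, 15, 3, 4, 4, 17, 17], [4, 4, 8, 8, 1023, 1023, 1023, 1023]⟩)))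
    (.nd (.nd (.lf ⟨[.ofNat 0, .negSucc 1663, .ofNat 4288, .negSucc 607], (.tr (.lf 9) (.lf 13) (.tr (.lf 10) (.lf 17) (.tr (.dx 0 (.lf 5)) (.tw (.lf 14) (.lf 18)) (.lf 6)))), 0, [6, 6, 13, 1, 6, 6, 19, 19], [6, 6, 10, 10, 1017, 1017, 1017, 1017]⟩)
    (.lf ⟨[.ofNat 0, .ofNat 0, .negSucc 767, .ofNat 2304], (.tw (.lf 6) (.tr (.tw (.dx 0 (.tr (.lf 5) (.lf 13) (.lf 17))) (.lf 14)) (.lf 11) (.lf 18))), 0, [4, 16, 4, 4, 20, 20, 20, 1], [4, 4, 20, 1017]⟩))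
    (.nd (.lf ⟨[.ofNat 0, .ofNat 0, .ofNat 2432], (.tr (.tw (.lf 6) (.lf 11)) (.dx 0 (.tr (.tw (.lf 5) (.lf 13)) (.lf 17) (.lf 14))) (.lf 18)), 0, [8, 8, 8, 8, 10, 10, 10, 10], []⟩)
    (.lf ⟨[.ofNat 0, .ofNat 0, .negSucc 703], (.tr (.lf 13) (.lf 5) (.tr (.lf 6) (.tw (.lf 14) (.tr (.dx 0 .on) (.lf 17) (.tw (.lf 9) (.lf 10)))) (.lf 18))), 0, [1015, 1015, 1017, 1017, 4, 4, 8, 8, 21, 21, 17, 17, 9, 9, 5, 5], [1015, 1015, 8, 8, 4, 4, 8, 8, 21, 21, 17, 17, 9, 9, 5, 5]⟩))))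

/-- data -/
def dE19x15 : RT := (.nd (.nd (.nd (.lf ⟨[.ofNat 0, .ofNat 768, .negSucc 1599], (.tr (.lf 13) (.lf 5) (.tr (.lf 6) (.tr (.lf 9) (.lf 10) (.tr (.lf 14) (.dx 0 .on) (.lf 17))) (.lf 18))), 0, [8, 8, 1015, 1015, 17, 5, 21, 9], [8, 8, 1015, 1015, 17, 5, 21, 9]⟩)
    (.lf ⟨[.negSucc 6655, .ofNat 11520, .ofNat 1216], (.tr (.lf 13) (.lf 17) (.tr (.lf 5) (.lf 14) (.tr (.dx 0 .on) (.lf 6) (.tr (.lf 9) (.lf 18) (.lf 10))))), 0, [23, 23, 13, 13, 9, 9, 5, 5], [23, 23, 13, 13, 9, 9, 5, 5]⟩))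
    (.nd (.lf ⟨[.negSucc 3327, .ofNat 4928, .ofNat 448], (.tr (.lf 13) (.tr (.lf 14) (.lf 5) (.tr (.lf 6) (.tr (.dx 0 .on) (.lf 9) (.lf 10)) (.lf 17))) (.lf 18)), 0, [1015, 1017, 21, 17, 4, 8, 1017, 1015], [1015, 8, 21, 17, 4, 8, 21, 1015]⟩)
    (.lf ⟨[.ofNat 0, .negSucc 3327, .ofNat 4928, .ofNat 448], (.tr (.lf 13) (.tr (.lf 14) (.lf 5) (.tr (.lf 6) (.tw (.dx 0 .on) (.lf 11)) (.lf 17))) (.lf 18)), 0, [4, 1017, 21, 17, 4, 8, 1017, 17], [4, 8, 21, 17, 4, 8, 21, 17]⟩)))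
    (.nd (.nd (.lf ⟨[.ofNat 0, .ofNat 0, .negSucc 191, .negSucc 159], (.tr (.lf 9) (.tw (.dx 0 (.lf 5)) (.tr (.lf 17) (.tr (.lf 6) (.lf 13) (.lf 10)) (.lf 18))) (.lf 14)), 0, [18, 18, 18, 18, 22, 22, 22, 22], [18, 18, 18, 18, 22, 22, 22, 22]⟩)
    (.lf ⟨[.negSucc 13311, .ofNat 40576, .ofNat 34144, .ofNat 14016], (.tr (.lf 14) (.tr (.lf 9) (.lf 10) (.tr (.dx 0 (.tw (.lf 5) (.lf 13))) (.lf 17) (.lf 6))) (.lf 18)), 0, [6, 6, 10, 10, 23, 23, 19, 19], [6, 10, 23, 19]⟩))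
    (.nd (.lf ⟨[.ofNat 0, .ofNat 0, .ofNat 640], (.tr (.lf 5) (.lf 9) (.tr (.dx 0 (.tw (.lf 13) (.lf 17))) (.tr (.lf 6) (.lf 10) (.lf 18)) (.lf 14))), 0, [8, 8, 20, 20, 8, 8, 8, 8], [20, 20, 8, 13]⟩)
    (.lf ⟨[.ofNat 0, .ofNat 5248, .negSucc 127], (.tr (.lf 14) (.lf 5) (.tr (.lf 6) (.dx 0 (.tw (.lf 13) (.lf 17))) (.tr (.lf 9) (.lf 10) (.lf 18)))), 0, [1015, 19, 1015, 19, 17, 5, 17, 5], [1015, 19, 17, 17]⟩))))

/-- data -/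
def dE19x16 : RT := (.nd (.nd (.nd (.lf ⟨[.ofNat 0, .ofNat 5248, .negSucc 127], (.tr (.lf 5) (.lf 6) (.tr (.lf 14) (.dx 0 (.tw (.lf 13) (.lf 17))) (.tr (.lf 9) (.lf 10) (.lf 18)))), 0, [4, 1015, 4, 1015, 20, 20, 20, 20], [4, 1015, 20, 20]⟩)
    (.lf ⟨[.ofNat 0, .ofNat 10496, .ofNat 6912, .negSucc 4159], (.tr (.lf 14) (.lf 9) (.tr (.lf 6) (.tw (.dx 0 (.tr (.lf 5) (.lf 13) (.lf 17))) (.lf 10)) (.lf 18))), 0, [10, 1017, 10, 10, 21, 9, 17, 5], [1017, 10, 21, 17]⟩))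
    (.nd (.lf ⟨[.ofNat 0, .ofNat 8320, .ofNat 17280, .ofNat 3424], (.tr (.lf 10) (.dx 0 (.tr (.lf 5) (.tr (.tw (.lf 6) (.lf 9)) (.lf 17) (.lf 13)) (.lf 14))) (.lf 18)), 0, [18, 18, 6, 6, 6, 6, 6, 6], []⟩)
    (.lf ⟨[.ofNat 0, .ofNat 1792, .ofNat 4224, .negSucc 543], (.tr (.lf 6) (.lf 14) (.tr (.dx 0 (.tr (.lf 5) (.lf 9) (.tw (.lf 13) (.lf 17)))) (.lf 10) (.lf 18))), 0, [4, 4, 4, 4, 1017, 3, 13, 1], [4, 15]⟩)))
    (.nd (.nd (.lf ⟨[.ofNat 0, .ofNat 416, .negSucc 1039, .ofNat 40], (.tw (.dx 0 (.tr (.tw (.lf 5) (.lf 9)) (.lf 13) (.lf 17))) (.tr (.lf 6) (.tw (.lf 14) (.lf 18)) (.lf 10))), 0, [0, 0, 0, 0, 2, 2, 2, 2, 12, 1023, 12, 12, 14, 14, 14, 1017], [0, 12, 2, 14]⟩)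
    (.lf ⟨[.ofNat 0, .negSucc 959, .negSucc 6303, .ofNat 624], (.tr (.dx 0 (.tr (.lf 9) (.lf 5) (.tw (.lf 13) (.lf 17)))) (.lf 6) (.tr (.lf 10) (.lf 14) (.lf 18))), 0, [2, 2, 14, 14, 0, 0, 12, 1023], [0, 12]⟩))
    (.nd (.lf ⟨[.ofNat 0, .ofNat 0, .negSucc 1279], (.tr (.lf 2) (.lf 18) (.tr (.dx 3 (.tr (.lf 1) (.lf 9) (.tw (.lf 5) (.lf 17)))) (.lf 6) (.lf 10))), 3, [11, 11, 11, 11, 14, 14, 14, 14], [11, 14]⟩)
    (.lf ⟨[.ofNat 0, .negSucc 2623, .negSucc 7263, .ofNat 2160], (.tr (.lf 9) (.lf 6) (.tr (.dx 0 (.tr (.lf 13) (.lf 5) (.tw (.lf 14) (.lf 17)))) (.lf 10) (.lf 18))), 0, [10, 10, 10, 22, 22, 22, 22, 22], []⟩))))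

/-- data -/
def dE19x17 : RT := (.nd (.nd (.nd (.lf ⟨[.ofNat 0, .ofNat 4480, .ofNat 2304, .negSucc 159], (.tr (.lf 5) (.tr (.lf 2) (.tr (.dx 3 (.lf 1)) (.tw (.lf 6) (.lf 9)) (.lf 17)) (.lf 18)) (.lf 10)), 3, [4, 4, 16, 16, 19, 19, 7, 7], [4, 4, 16, 16, 19, 19, 7, 7]⟩)
    (.lf ⟨[.ofNat 0, .ofNat 4480, .ofNat 2304, .negSucc 159], (.tr (.lf 1) (.tr (.dx 3 .on) (.tr (.lf 2) (.lf 5) (.tr (.lf 17) (.lf 9) (.lf 18))) (.lf 10)) (.lf 6)), 3, [21, 21, 21, 21, 14, 14, 14, 14], [21, 21, 21, 21, 14, 14, 14, 14]⟩))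
    (.nd (.lf ⟨[.ofNat 0, .negSucc 8447, .negSucc 5215, .ofNat 96], (.tr (.lf 1) (.lf 5) (.tr (.lf 9) (.lf 2) (.tr (.dx 3 .on) (.lf 6) (.tr (.lf 17) (.lf 10) (.lf 18))))), 3, [0, 0, 12, 12, 19, 19, 12, 12], [0, 0, 12, 12, 19, 19, 12, 12]⟩)
    (.lf ⟨[.ofNat 0, .negSucc 11263, .negSucc 4319, .ofNat 96], (.tr (.lf 1) (.lf 5) (.tr (.lf 17) (.lf 2) (.tr (.dx 3 .on) (.lf 6) (.tr (.lf 9) (.lf 18) (.lf 10))))), 3, [12, 12, 12, 12, 0, 0, 12, 12], [12, 12, 12, 12, 0, 0, 12, 12]⟩)))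
    (.nd (.nd (.lf ⟨[.ofNat 0, .negSucc 7295, .negSucc 95, .ofNat 320], (.tr (.lf 2) (.tr (.lf 5) (.lf 6) (.tr (.tw (.lf 9) (.lf 10)) (.dx 3 (.lf 1)) (.lf 17))) (.lf 18)), 3, [0, 0, 12, 12, 2, 2, 14, 14], [0, 0, 12, 12, 2, 2, 14, 14]⟩)
    (.lf ⟨[.ofNat 0, .ofNat 6912, .negSucc 3455], (.tr (.lf 2) (.tr (.lf 5) (.tr (.lf 6) (.tw (.dx 3 (.lf 1)) (.lf 17)) (.lf 9)) (.lf 10)) (.lf 18)), 3, [0, 12, 0, 12, 2, 14, 2, 14], [0, 12, 0, 12, 2, 14, 2, 14]⟩))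
    (.nd (.lf ⟨[.ofNat 0, .ofNat 6912, .negSucc 3455], (.tr (.lf 5) (.tw (.dx 3 (.lf 1)) (.tr (.lf 2) (.lf 6) (.tr (.lf 17) (.lf 9) (.lf 18)))) (.lf 10)), 3, [23, 23, 19, 19, 16, 16, 20, 20], [23, 23, 19, 19, 16, 16, 7, 7]⟩)
    (.lf ⟨[.ofNat 0, .negSucc 8447, .ofNat 6528, .ofNat 1312], (.tr (.dx 3 (.tr (.lf 1) (.tr (.tw (.lf 2) (.lf 5)) (.lf 9) (.lf 17)) (.lf 18))) (.lf 6) (.lf 10)), 3, [11, 11, 11, 11, 11, 11, 11, 11], []⟩))))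

/-- data -/
def dE19x18 : RT := (.nd (.nd (.nd (.lf ⟨[.ofNat 0, .ofNat 20480, .ofNat 4704, .negSucc 3855], (.tr (.lf 14) (.lf 5) (.tr (.lf 18) (.lf 6) (.tr (.dx 0 (.tw (.lf 13) (.lf 17))) (.lf 9) (.lf 10)))), 0, [19, 7, 15, 3, 21, 21, 8, 8], [19, 15, 21, 8]⟩)
    (.lf ⟨[.ofNat 0, .ofNat 256, .ofNat 15872, .negSucc 2047], (.tr (.lf 2) (.tr (.dx 3 (.tw (.lf 1) (.lf 5))) (.lf 17) (.tr (.lf 6) (.lf 9) (.lf 18))) (.lf 10)), 3, [1023, 23, 23, 23, 12, 12, 14, 1023], [23, 23, 12, 14]⟩))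
    (.nd (.lf ⟨[.ofNat 0, .negSucc 3327, .ofNat 9600, .negSucc 319], (.tr (.lf 1) (.lf 2) (.tw (.lf 5) (.tr (.lf 9) (.lf 6) (.tr (.dx 3 (.lf 17)) (.lf 18) (.lf 10))))), 3, [0, 12, 0, 12, 2, 14, 2, 14], [0, 12, 0, 12, 2, 14, 2, 14]⟩)
    (.lf ⟨[.ofNat 0, .ofNat 0, .ofNat 0, .ofNat 704], (.tr (.lf 13) (.tw (.lf 5) (.tr (.dx 0 .on) (.lf 14) (.tr (.lf 6) (.lf 17) (.lf 11)))) (.lf 18)), 0, [4, 4, 1017, 13, 0, 1017, 17, 17], [4, 4, 8, 8, 21, 21, 17, 17]⟩)))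
    (.nd (.nd (.lf ⟨[.ofNat 0, .ofNat 0, .ofNat 4864, .negSucc 703], (.tr (.lf 14) (.lf 5) (.tr (.tw (.lf 6) (.lf 11)) (.dx 0 (.tw (.lf 13) (.lf 17))) (.lf 18))), 0, [8, 8, 8, 8, 23, 21, 11, 9], [8, 8, 23, 21]⟩)
    (.lf ⟨[.ofNat 0, .ofNat 0, .ofNat 704], (.tr (.lf 13) (.tr (.lf 5) (.lf 6) (.tr (.dx 0 .on) (.tr (.lf 9) (.lf 14) (.lf 17)) (.lf 10))) (.lf 18)), 0, [4, 4, 8, 1017, 1017, 21, 17, 17], [4, 4, 8, 8, 21, 21, 17, 17]⟩))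
    (.nd (.lf ⟨[.ofNat 0, .ofNat 0, .ofNat 2432], (.tr (.lf 5) (.lf 11) (.tr (.lf 2) (.tw (.dx 3 (.tw (.lf 1) (.lf 17))) (.lf 6)) (.lf 18))), 3, [8, 8, 8, 8, 1, 1, 20, 20], [8, 8, 20, 20]⟩)
    (.lf ⟨[.ofNat 0, .ofNat 0, .negSucc 4863], (.tw (.lf 5) (.tr (.dx 0 (.tw (.lf 13) (.lf 17))) (.lf 14) (.tr (.lf 6) (.lf 18) (.lf 11)))), 0, [4, 4, 16, 16, 20, 20, 20, 20], [4, 4, 20, 20]⟩))))

/-- data -/
def dE19x19 : RT := (.nd (.nd (.nd (.lf ⟨[.ofNat 0, .ofNat 5248, .negSucc 127], (.tw (.dx 3 (.tr (.lf 5) (.lf 1) (.lf 17))) (.tr (.lf 9) (.lf 2) (.tr (.lf 6) (.lf 10) (.lf 18)))), 3, [23, 21, 19, 19, 23, 21, 19, 19], [1017, 21, 19, 19]⟩)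
    (.lf ⟨[.ofNat 0, .negSucc 5247, .ofNat 128], (.tw (.dx 3 (.tr (.lf 1) (.lf 5) (.lf 17))) (.tr (.lf 18) (.lf 9) (.tr (.lf 2) (.lf 6) (.lf 10)))), 3, [23, 13, 23, 19, 23, 13, 23, 19], [23, 13, 23, 1017]⟩))
    (.nd (.lf ⟨[.ofNat 0, .ofNat 6912, .negSucc 895], (.tw (.lf 6) (.tr (.dx 0 (.tr (.lf 5) (.lf 13) (.lf 17))) (.tr (.lf 9) (.lf 10) (.lf 18)) (.lf 14))), 0, [4, 4, 16, 16, 8, 1, 13, 1], [16, 16, 1017, 15]⟩)
    (.lf ⟨[.ofNat 0, .ofNat 768, .negSucc 1599], (.tr (.lf 13) (.tr (.dx 0 .on) (.lf 5) (.tr (.lf 9) (.lf 10) (.tr (.lf 6) (.lf 14) (.lf 17)))) (.lf 18)), 0, [0, 0, 0, 1023, 1023, 13, 13, 13], [0, 0, 23, 23, 10, 10, 13, 13]⟩)))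
    (.nd (.nd (.lf ⟨[.ofNat 0, .ofNat 0, .ofNat 768, .negSucc 1599], (.tr (.lf 13) (.tw (.lf 5) (.tr (.lf 14) (.lf 17) (.tr (.dx 0 .on) (.lf 6) (.lf 11)))) (.lf 18)), 0, [23, 13, 4, 8, 21, 17, 0, 10], [23, 13, 4, 8, 21, 17, 0, 10]⟩)
    (.lf ⟨[.ofNat 0, .ofNat 0, .ofNat 6528, .negSucc 2175], (.tr (.lf 9) (.lf 17) (.tr (.lf 2) (.lf 6) (.tr (.lf 10) (.dx 3 (.tw (.lf 1) (.lf 5))) (.lf 18)))), 3, [18, 18, 1017, 1013, 13, 13, 1, 1], [18, 18, 13, 1]⟩))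
    (.nd (.lf ⟨[.ofNat 0, .ofNat 8704, .negSucc 8319, .ofNat 2400], (.tw (.lf 9) (.tr (.dx 3 (.tr (.lf 1) (.lf 5) (.lf 17))) (.tr (.lf 2) (.lf 6) (.lf 10)) (.lf 18))), 3, [6, 6, 10, 10, 18, 18, 22, 22], [6, 10, 18, 22]⟩)
    (.lf ⟨[.ofNat 0, .negSucc 8575, .ofNat 6336, .negSucc 159], (.tw (.dx 0 (.tr (.tw (.lf 5) (.lf 13)) (.lf 9) (.lf 17))) (.tr (.lf 6) (.tw (.lf 14) (.lf 18)) (.lf 10))), 0, [0, 0, 0, 0, 0, 0, 0, 0, 14, 14, 14, 14, 14, 14, 14, 14], [0, 12, 2, 14]⟩))))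

/-- data -/
def dE19 : RT := (.nd (.nd (.nd (.nd dE19x0 dE19x1) (.nd dE19x2 (.nd dE19x3 dE19x4))) (.nd (.nd dE19x5 dE19x6) (.nd dE19x7 (.nd dE19x8 dE19x9)))) (.nd (.nd (.nd dE19x10 dE19x11) (.nd dE19x12 (.nd dE19x13 dE19x14))) (.nd (.nd dE19x15 dE19x16) (.nd dE19x17 (.nd dE19x18 dE19x19)))))

/-- data -/
def lE19x0 : List (ℕ × List ℤ) := [(5349, [.ofNat 0, .ofNat 0, .ofNat 3840, .ofNat 25216, .negSucc 2495]),
  (5405, [.ofNat 0, .ofNat 0, .ofNat 0, .ofNat 1536, .negSucc 4607]),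
  (5419, [.ofNat 0, .ofNat 0, .ofNat 3328, .negSucc 3199, .ofNat 320]),
  (6301, [.ofNat 0, .ofNat 0, .negSucc 7167, .negSucc 22015, .ofNat 2176]),
  (39083, [.ofNat 0, .ofNat 0, .ofNat 0, .negSucc 9727]),
  (42283, [.ofNat 0, .ofNat 0, .ofNat 13824, .negSucc 1791]),
  (42597, [.ofNat 0, .ofNat 0, .ofNat 0, .negSucc 4863]),
  (42725, [.ofNat 0, .ofNat 0, .ofNat 3328, .negSucc 1535]),
  (42765, [.ofNat 0, .ofNat 0, .ofNat 0, .ofNat 4864, .negSucc 1407]),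
  (42773, [.ofNat 0, .ofNat 0, .ofNat 20992, .ofNat 23552, .negSucc 9727]),
  (42781, [.ofNat 0, .ofNat 0, .ofNat 20992, .negSucc 4863, .negSucc 9215]),
  (43101, [.ofNat 0, .ofNat 0, .ofNat 10496, .negSucc 255]),
  (43115, [.ofNat 0, .ofNat 0, .ofNat 0, .ofNat 4864]),
  (43221, [.ofNat 0, .ofNat 0, .negSucc 9983, .ofNat 36352, .negSucc 12671]),
  (43229, [.ofNat 0, .ofNat 0, .negSucc 6655, .ofNat 31744, .negSucc 3455]),
  (43241, [.ofNat 0, .ofNat 0, .ofNat 0, .ofNat 9728]),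
  (43243, [.ofNat 0, .ofNat 0, .ofNat 0, .ofNat 768, .negSucc 895]),
  (43244, [.ofNat 0, .ofNat 0, .ofNat 0, .negSucc 3071, .ofNat 9216]),
  (43339, [.ofNat 0, .ofNat 0, .ofNat 0, .ofNat 4864]),
  (50283, [.ofNat 0, .ofNat 0, .negSucc 20479, .ofNat 33536, .negSucc 3455]),
  (50389, [.ofNat 0, .ofNat 0, .ofNat 0, .ofNat 3072, .negSucc 9215]),
  (135837, [.ofNat 0, .ofNat 0, .negSucc 10495, .negSucc 9471, .ofNat 1408]),
  (136285, [.ofNat 0, .ofNat 0, .negSucc 20991, .negSucc 23551, .ofNat 9728]),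
  (136477, [.ofNat 0, .ofNat 0, .ofNat 0, .negSucc 3071, .ofNat 9216]),
  (304413, [.ofNat 0, .ofNat 0, .ofNat 10496, .negSucc 255]),
  (304925, [.ofNat 0, .ofNat 0, .ofNat 40960, .ofNat 9408, .negSucc 7711]),
  (312477, [.ofNat 0, .ofNat 0, .ofNat 10496, .negSucc 255]),
  (333029, [.ofNat 0, .ofNat 0, .ofNat 13312, .negSucc 24319, .negSucc 255]),
  (334123, [.ofNat 0, .ofNat 0, .ofNat 512, .ofNat 31744, .negSucc 4095]),
  (334163, [.ofNat 0, .ofNat 0, .ofNat 0, .ofNat 4608, .negSucc 1535]),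
  (337693, [.ofNat 0, .ofNat 0, .ofNat 40960, .ofNat 9408, .negSucc 7711]),
  (338141, [.ofNat 0, .ofNat 0, .negSucc 767, .ofNat 4416]),
  (338283, [.ofNat 0, .ofNat 0, .ofNat 0, .negSucc 9727]),
  (341221, [.ofNat 0, .ofNat 0, .ofNat 13312, .negSucc 19711, .negSucc 1791]),
  (341291, [.ofNat 0, .ofNat 0, .negSucc 3327, .ofNat 12928, .negSucc 1855]),
  (341773, [.ofNat 0, .ofNat 0, .ofNat 10496, .negSucc 255]),
  (342117, [.ofNat 0, .ofNat 0, .ofNat 13824, .negSucc 6911]),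
  (342173, [.ofNat 0, .ofNat 0, .negSucc 767, .ofNat 4416]),
  (342315, [.ofNat 0, .ofNat 0, .ofNat 512, .ofNat 31744, .negSucc 4095]),
  (342379, [.ofNat 0, .ofNat 0, .ofNat 0, .negSucc 13055, .ofNat 4352]),
  (344925, [.ofNat 0, .ofNat 0, .ofNat 13824, .ofNat 3072, .negSucc 255]),
  (345436, [.ofNat 0, .ofNat 0, .ofNat 10496, .negSucc 2559]),
  (345805, [.ofNat 0, .ofNat 0, .ofNat 10496, .negSucc 255]),
  (345869, [.ofNat 0, .ofNat 0, .negSucc 13823, .negSucc 3071, .ofNat 256]),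
  (346317, [.ofNat 0, .ofNat 0, .negSucc 5631]),
  (346325, [.ofNat 0, .ofNat 0, .ofNat 0, .ofNat 0, .ofNat 4864]),
  (346451, [.ofNat 0, .ofNat 0, .ofNat 0, .ofNat 9728]),
  (346731, [.ofNat 0, .ofNat 0, .negSucc 13823, .ofNat 6912]),
  (346851, [.ofNat 0, .ofNat 0, .ofNat 0, .ofNat 13056, .negSucc 4351]),
  (398635, [.ofNat 0, .ofNat 0, .ofNat 512, .ofNat 31744, .negSucc 4095]),
  (403037, [.ofNat 0, .ofNat 0, .ofNat 3328, .negSucc 12927, .ofNat 1856]),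
  (403052, [.ofNat 0, .ofNat 0, .ofNat 0, .ofNat 13056, .negSucc 4351]),
  (403229, [.ofNat 0, .ofNat 0, .ofNat 0, .ofNat 0, .ofNat 4864]),
  (403241, [.ofNat 0, .ofNat 0, .ofNat 0, .ofNat 13056, .negSucc 4351]),
  (403242, [.ofNat 0, .ofNat 0, .ofNat 512, .ofNat 31744, .negSucc 4095]),
  (410717, [.ofNat 0, .ofNat 0, .ofNat 13824, .ofNat 3072, .negSucc 255]),
  (410837, [.ofNat 0, .ofNat 0, .ofNat 0, .ofNat 0, .ofNat 4864]),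
  (410845, [.ofNat 0, .ofNat 0, .negSucc 5631]),
  (414812, [.ofNat 0, .ofNat 0, .ofNat 13824, .ofNat 3072, .negSucc 255]),
  (1086749, [.ofNat 0, .negSucc 53247, .ofNat 162304, .ofNat 136576, .ofNat 56064]),
  (1086813, [.ofNat 0, .ofNat 53248, .negSucc 162303, .negSucc 136575, .negSucc 56063]),
  (1091357, [.ofNat 0, .ofNat 0, .ofNat 10496, .negSucc 2559]),
  (1091789, [.ofNat 0, .ofNat 0, .ofNat 0, .ofNat 0, .ofNat 4864]),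
  (2438373, [.ofNat 0, .ofNat 0, .negSucc 3327, .ofNat 9600, .negSucc 319]),
  (2499805, [.ofNat 0, .ofNat 0, .negSucc 3327, .ofNat 9600, .negSucc 319]),
  (2500253, [.ofNat 0, .ofNat 0, .negSucc 3327, .ofNat 9600, .negSucc 319]),
  (2501277, [.ofNat 0, .ofNat 0, .negSucc 3327, .ofNat 5376]),
  (2512083, [.ofNat 0, .ofNat 0, .ofNat 3328, .negSucc 9599, .ofNat 320]),
  (2512171, [.ofNat 0, .ofNat 0, .ofNat 0, .negSucc 767, .ofNat 1600]),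
  (2513235, [.ofNat 0, .ofNat 0, .negSucc 3327, .ofNat 9600, .negSucc 319]),
  (2664221, [.ofNat 0, .ofNat 0, .negSucc 3327, .ofNat 256, .ofNat 1216]),
  (2664669, [.ofNat 0, .ofNat 0, .negSucc 3327, .ofNat 256, .ofNat 1216]),
  (2668309, [.ofNat 0, .ofNat 0, .negSucc 3327, .ofNat 256, .ofNat 1216]),
  (2668330, [.ofNat 0, .ofNat 0, .negSucc 4863]),
  (2668780, [.ofNat 0, .ofNat 0, .ofNat 3328, .negSucc 9343, .ofNat 320]),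
  (2668901, [.ofNat 0, .ofNat 0, .ofNat 0, .ofNat 9728]),
  (2671901, [.ofNat 0, .ofNat 0, .ofNat 10496, .ofNat 1408, .negSucc 319]),
  (2672427, [.ofNat 0, .ofNat 0, .ofNat 13824, .negSucc 6911]),
  (2672477, [.ofNat 0, .ofNat 0, .ofNat 0, .negSucc 12671, .ofNat 320]),
  (2673451, [.ofNat 0, .ofNat 0, .ofNat 3328, .negSucc 9599, .ofNat 320]),
  (2701069, [.ofNat 0, .ofNat 0, .negSucc 3327, .ofNat 9600, .negSucc 319]),
  (2701101, [.ofNat 0, .ofNat 0, .ofNat 14592, .ofNat 192, .negSucc 639]),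
  (2704093, [.ofNat 0, .ofNat 0, .ofNat 4864]),
  (2705241, [.ofNat 0, .ofNat 0, .negSucc 3327, .ofNat 256, .ofNat 1216]),
  (2705613, [.ofNat 0, .ofNat 0, .ofNat 7936, .ofNat 4032, .ofNat 128]),
  (2706140, [.ofNat 0, .ofNat 0, .negSucc 767, .negSucc 7103, .ofNat 640]),
  (2706141, [.ofNat 0, .ofNat 0, .ofNat 768, .ofNat 7104, .negSucc 639]),
  (2725653, [.ofNat 0, .ofNat 0, .ofNat 3328, .negSucc 9727, .ofNat 640]),
  (2726117, [.ofNat 0, .ofNat 0, .ofNat 10496, .ofNat 1408, .negSucc 319]),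
  (2726122, [.ofNat 0, .ofNat 0, .ofNat 5648, .negSucc 6383, .ofNat 1504]),
  (2726245, [.ofNat 0, .ofNat 0, .ofNat 3328, .negSucc 9599, .ofNat 320]),
  (2729741, [.ofNat 0, .ofNat 0, .negSucc 6655, .ofNat 9856, .ofNat 896]),
  (2730189, [.ofNat 0, .ofNat 0, .ofNat 3328, .negSucc 9727, .ofNat 640]),
  (2736874, [.ofNat 0, .ofNat 0, .ofNat 5648, .negSucc 6383, .ofNat 1504]),
  (2736939, [.ofNat 0, .ofNat 0, .ofNat 13824, .negSucc 6911]),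
  (2737829, [.ofNat 0, .ofNat 0, .ofNat 0, .negSucc 1727, .ofNat 160]),
  (2737996, [.ofNat 0, .ofNat 0, .ofNat 0, .ofNat 9216]),
  (2738004, [.ofNat 0, .ofNat 0, .ofNat 3328, .negSucc 9343, .ofNat 320]),
  (2738317, [.ofNat 0, .ofNat 0, .ofNat 7936, .ofNat 4032, .ofNat 128]),
  (2738844, [.ofNat 0, .ofNat 0, .ofNat 13824, .negSucc 6911])]

/-- data -/
def lE19x1 : List (ℕ × List ℤ) := [(2738845, [.ofNat 0, .ofNat 0, .negSucc 13823, .ofNat 6912]),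
  (2738917, [.ofNat 0, .ofNat 0, .negSucc 6655, .ofNat 12160, .ofNat 128]),
  (2738985, [.ofNat 0, .ofNat 0, .negSucc 3327, .ofNat 9600, .negSucc 319]),
  (2757995, [.ofNat 0, .ofNat 0, .negSucc 7935, .negSucc 4031, .negSucc 127]),
  (2758315, [.ofNat 0, .ofNat 0, .ofNat 5648, .negSucc 6383, .ofNat 1504]),
  (2758429, [.ofNat 0, .ofNat 0, .ofNat 3328, .negSucc 9343, .ofNat 320]),
  (2758499, [.ofNat 0, .ofNat 0, .ofNat 8960, .ofNat 4608, .negSucc 319]),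
  (2758501, [.ofNat 0, .ofNat 0, .ofNat 0, .negSucc 9727]),
  (2758506, [.ofNat 0, .ofNat 0, .negSucc 7935, .negSucc 4031, .negSucc 127]),
  (2758507, [.ofNat 0, .ofNat 0, .negSucc 8959, .negSucc 4607, .ofNat 320]),
  (2759395, [.ofNat 0, .ofNat 0, .negSucc 3327, .ofNat 18048, .negSucc 319]),
  (2759397, [.ofNat 0, .ofNat 0, .ofNat 0, .negSucc 383, .negSucc 319]),
  (2762525, [.ofNat 0, .ofNat 0, .ofNat 0, .negSucc 3455, .ofNat 320]),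
  (2763356, [.ofNat 0, .ofNat 0, .ofNat 3328, .negSucc 5375]),
  (2763468, [.ofNat 0, .ofNat 0, .ofNat 3328, .negSucc 9343, .ofNat 320]),
  (2763491, [.ofNat 0, .ofNat 0, .negSucc 13823, .ofNat 6912]),
  (2763545, [.ofNat 0, .ofNat 0, .ofNat 3328, .negSucc 9343, .ofNat 320]),
  (2763549, [.ofNat 0, .ofNat 0, .negSucc 13311, .ofNat 24320, .ofNat 256]),
  (2765667, [.ofNat 0, .ofNat 0, .ofNat 8960, .ofNat 4608, .negSucc 319]),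
  (2765675, [.ofNat 0, .ofNat 0, .negSucc 8959, .negSucc 4607, .ofNat 320]),
  (2766442, [.ofNat 0, .ofNat 0, .negSucc 4863]),
  (2766941, [.ofNat 0, .ofNat 0, .ofNat 10496, .ofNat 1408, .negSucc 319]),
  (2767081, [.ofNat 0, .ofNat 0, .negSucc 3327, .ofNat 18048, .negSucc 319]),
  (2767461, [.ofNat 0, .ofNat 0, .ofNat 0, .negSucc 383, .negSucc 319]),
  (2767565, [.ofNat 0, .ofNat 0, .negSucc 3327, .ofNat 9344, .negSucc 319]),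
  (2767594, [.ofNat 0, .ofNat 0, .ofNat 13824, .negSucc 6911]),
  (2775245, [.ofNat 0, .ofNat 0, .ofNat 0, .ofNat 9728]),
  (3188572, [.ofNat 0, .ofNat 0, .ofNat 0, .negSucc 3455, .ofNat 320]),
  (3196138, [.ofNat 0, .ofNat 0, .ofNat 13824, .negSucc 6911]),
  (3200226, [.ofNat 0, .ofNat 0, .negSucc 13823, .ofNat 6912]),
  (3200285, [.ofNat 0, .ofNat 0, .ofNat 0, .negSucc 383, .negSucc 319]),
  (3200299, [.ofNat 0, .ofNat 0, .negSucc 23295, .ofNat 66688, .ofNat 11584, .negSucc 1279]),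
  (3200355, [.ofNat 0, .ofNat 0, .negSucc 23295, .ofNat 66688, .ofNat 11584, .negSucc 1279]),
  (3201181, [.ofNat 0, .ofNat 0, .negSucc 13311, .ofNat 24320, .ofNat 256]),
  (3216605, [.ofNat 0, .ofNat 0, .ofNat 3328, .negSucc 9727, .ofNat 640]),
  (3218219, [.ofNat 0, .ofNat 0, .negSucc 3327, .ofNat 9600, .negSucc 319]),
  (3222301, [.ofNat 0, .ofNat 0, .ofNat 0, .ofNat 768, .negSucc 1599]),
  (3224428, [.ofNat 0, .ofNat 0, .ofNat 6656, .negSucc 12159, .negSucc 127]),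
  (3225813, [.ofNat 0, .ofNat 0, .ofNat 0, .negSucc 1727, .ofNat 160]),
  (3225833, [.ofNat 0, .ofNat 0, .negSucc 13823, .ofNat 6912]),
  (3226219, [.ofNat 0, .ofNat 0, .negSucc 13823, .ofNat 6912]),
  (3226411, [.ofNat 0, .ofNat 0, .negSucc 3327, .ofNat 9600, .negSucc 319]),
  (3228317, [.ofNat 0, .ofNat 0, .ofNat 10496, .ofNat 1408, .negSucc 319]),
  (3232541, [.ofNat 0, .ofNat 0, .ofNat 0, .negSucc 383, .negSucc 319]),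
  (3232989, [.ofNat 0, .ofNat 0, .negSucc 3327, .ofNat 9344, .negSucc 319]),
  (3282141, [.ofNat 0, .ofNat 0, .ofNat 4096, .ofNat 3904, .negSucc 319]),
  (3286221, [.ofNat 0, .ofNat 0, .ofNat 4096, .ofNat 3904, .negSucc 319]),
  (3298461, [.ofNat 0, .ofNat 0, .ofNat 0, .ofNat 768, .negSucc 1599]),
  (3314908, [.ofNat 0, .ofNat 0, .ofNat 4096, .ofNat 3904, .negSucc 319]),
  (3314924, [.ofNat 0, .ofNat 0, .ofNat 6656, .negSucc 12159, .negSucc 127]),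
  (3315036, [.ofNat 0, .ofNat 0, .ofNat 1536, .ofNat 19104, .ofNat 624]),
  (3318620, [.ofNat 0, .ofNat 0, .ofNat 1536, .ofNat 19104, .ofNat 624]),
  (3318988, [.ofNat 0, .ofNat 0, .ofNat 4096, .ofNat 3904, .negSucc 319]),
  (3319004, [.ofNat 0, .ofNat 0, .negSucc 14591, .negSucc 191, .ofNat 640]),
  (3319532, [.ofNat 0, .ofNat 0, .ofNat 0, .ofNat 768, .negSucc 1599]),
  (3319965, [.ofNat 0, .ofNat 0, .negSucc 13311, .ofNat 24320, .ofNat 256]),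
  (8693405, [.ofNat 0, .ofNat 0, .ofNat 3328, .negSucc 255, .negSucc 1215]),
  (8693477, [.ofNat 0, .ofNat 0, .ofNat 0, .negSucc 4863]),
  (8693485, [.ofNat 0, .ofNat 0, .ofNat 0, .ofNat 4864]),
  (8693533, [.ofNat 0, .ofNat 0, .ofNat 0, .negSucc 3455, .ofNat 320]),
  (8693973, [.ofNat 0, .ofNat 0, .ofNat 0, .ofNat 4864]),
  (8694485, [.ofNat 0, .ofNat 0, .ofNat 0, .negSucc 4863]),
  (8701277, [.ofNat 0, .ofNat 0, .ofNat 0, .ofNat 0, .ofNat 704]),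
  (8705309, [.ofNat 0, .ofNat 0, .ofNat 0, .ofNat 0, .negSucc 703]),
  (8722205, [.ofNat 0, .ofNat 0, .ofNat 3328, .negSucc 9343, .ofNat 320]),
  (8722221, [.ofNat 0, .ofNat 0, .ofNat 0, .ofNat 1536, .negSucc 3199]),
  (8722277, [.ofNat 0, .ofNat 0, .ofNat 0, .negSucc 1535, .ofNat 3200]),
  (8722781, [.ofNat 0, .ofNat 0, .ofNat 0, .negSucc 1535, .ofNat 3200]),
  (8723229, [.ofNat 0, .ofNat 0, .ofNat 0, .ofNat 1536, .negSucc 3199]),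
  (8730733, [.ofNat 0, .ofNat 0, .negSucc 6655, .ofNat 9856, .ofNat 896]),
  (8730861, [.ofNat 0, .ofNat 0, .ofNat 0, .negSucc 4095, .ofNat 4032]),
  (8730965, [.ofNat 0, .ofNat 0, .ofNat 0, .ofNat 1536, .negSucc 3199]),
  (8731237, [.ofNat 0, .ofNat 0, .ofNat 0, .ofNat 2304, .negSucc 767]),
  (8731341, [.ofNat 0, .ofNat 0, .ofNat 0, .ofNat 3456, .negSucc 319]),
  (8731365, [.ofNat 0, .ofNat 0, .ofNat 13312, .negSucc 20223, .negSucc 4287]),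
  (8731413, [.ofNat 0, .ofNat 0, .ofNat 0, .negSucc 1535, .ofNat 3200]),
  (8734045, [.ofNat 0, .ofNat 0, .ofNat 10496, .ofNat 1536, .negSucc 2623]),
  (8734541, [.ofNat 0, .ofNat 0, .ofNat 0, .ofNat 0, .negSucc 703]),
  (8735325, [.ofNat 0, .ofNat 0, .negSucc 1535, .negSucc 17567, .negSucc 3823]),
  (8738077, [.ofNat 0, .ofNat 0, .negSucc 10495, .negSucc 1535, .ofNat 2624]),
  (8738573, [.ofNat 0, .ofNat 0, .ofNat 0, .ofNat 0, .ofNat 704]),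
  (8738909, [.ofNat 0, .ofNat 0, .ofNat 0, .negSucc 1535, .ofNat 3200]),
  (9475309, [.ofNat 0, .ofNat 0, .ofNat 6656, .negSucc 9855, .negSucc 895]),
  (9737445, [.ofNat 0, .ofNat 0, .negSucc 6655, .ofNat 9856, .ofNat 896]),
  (19539755, [.ofNat 0, .ofNat 0, .ofNat 4096, .ofNat 3904, .negSucc 319]),
  (19539819, [.ofNat 0, .ofNat 0, .ofNat 24000, .negSucc 5231, .ofNat 32]),
  (19543403, [.ofNat 0, .ofNat 0, .ofNat 24000, .negSucc 5231, .ofNat 32]),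
  (19547371, [.ofNat 0, .ofNat 0, .negSucc 23999, .ofNat 5232, .negSucc 31]),
  (19547819, [.ofNat 0, .ofNat 0, .negSucc 23999, .ofNat 5232, .negSucc 31]),
  (19547821, [.ofNat 0, .ofNat 0, .negSucc 4863]),
  (19999452, [.ofNat 0, .ofNat 0, .negSucc 767, .ofNat 1600]),
  (19999517, [.ofNat 0, .ofNat 0, .ofNat 1664, .negSucc 2783, .negSucc 127]),
  (19999580, [.ofNat 0, .ofNat 0, .negSucc 7167, .negSucc 5631, .negSucc 127]),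
  (20003484, [.ofNat 0, .ofNat 0, .ofNat 5632]),
  (20010795, [.ofNat 0, .ofNat 0, .ofNat 4864]),
  (20010851, [.ofNat 0, .ofNat 0, .ofNat 4864]),
  (20011179, [.ofNat 0, .ofNat 13312, .negSucc 33535, .negSucc 3071, .ofNat 320]),
  (20075677, [.ofNat 0, .ofNat 0, .negSucc 767, .ofNat 1600]),
  (20096748, [.ofNat 0, .ofNat 0, .negSucc 767, .ofNat 1600]),
  (20097259, [.ofNat 0, .negSucc 13311, .ofNat 37632, .ofNat 5184, .negSucc 639])]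

/-- data -/
def lE19x2 : List (ℕ × List ℤ) := [(20097763, [.ofNat 0, .ofNat 13312, .negSucc 37631, .negSucc 5183, .ofNat 640]),
  (21318429, [.ofNat 0, .ofNat 0, .ofNat 3328, .negSucc 255, .negSucc 1215]),
  (21346661, [.ofNat 0, .ofNat 0, .negSucc 4863]),
  (21349605, [.ofNat 0, .ofNat 0, .ofNat 6784, .ofNat 2016, .ofNat 64]),
  (21349675, [.ofNat 0, .ofNat 0, .ofNat 8960, .ofNat 4608, .negSucc 319]),
  (21350053, [.ofNat 0, .ofNat 0, .ofNat 6784, .ofNat 2016, .ofNat 64]),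
  (21351069, [.ofNat 0, .ofNat 0, .negSucc 6783, .negSucc 2015, .negSucc 63]),
  (21351125, [.ofNat 0, .ofNat 0, .negSucc 6783, .negSucc 2015, .negSucc 63]),
  (21351210, [.ofNat 0, .ofNat 0, .ofNat 4864]),
  (21383005, [.ofNat 0, .ofNat 0, .ofNat 9728]),
  (21386525, [.ofNat 0, .ofNat 0, .negSucc 767, .ofNat 2304]),
  (21543148, [.ofNat 0, .ofNat 0, .negSucc 5439, .ofNat 400, .negSucc 31]),
  (21543269, [.ofNat 0, .ofNat 0, .negSucc 4863]),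
  (21640029, [.ofNat 0, .ofNat 0, .negSucc 7935, .negSucc 4031, .negSucc 127]),
  (21641997, [.ofNat 0, .ofNat 0, .ofNat 768, .negSucc 3007]),
  (21642060, [.ofNat 0, .ofNat 0, .negSucc 767, .ofNat 1600]),
  (21649613, [.ofNat 0, .ofNat 0, .negSucc 4863]),
  (21649753, [.ofNat 0, .ofNat 0, .negSucc 4863]),
  (21650147, [.ofNat 0, .ofNat 0, .ofNat 4864]),
  (21808427, [.ofNat 0, .ofNat 0, .ofNat 8960, .ofNat 4608, .negSucc 319]),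
  (21808477, [.ofNat 0, .ofNat 0, .ofNat 16896, .ofNat 10432, .negSucc 191]),
  (21808491, [.ofNat 0, .ofNat 0, .ofNat 12000, .negSucc 2615, .ofNat 16]),
  (21808917, [.ofNat 0, .ofNat 0, .negSucc 16895, .negSucc 10431, .ofNat 192]),
  (21808938, [.ofNat 0, .ofNat 0, .ofNat 16896, .ofNat 8640, .negSucc 191]),
  (21808997, [.ofNat 0, .ofNat 0, .ofNat 2432]),
  (21809323, [.ofNat 0, .ofNat 0, .negSucc 11999, .ofNat 2616, .negSucc 15]),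
  (21809829, [.ofNat 0, .ofNat 0, .ofNat 2432]),
  (21809893, [.ofNat 0, .ofNat 0, .ofNat 2432]),
  (21809949, [.ofNat 0, .ofNat 0, .ofNat 2432]),
  (21842717, [.ofNat 0, .ofNat 0, .ofNat 2432]),
  (21895852, [.ofNat 0, .ofNat 0, .ofNat 2432]),
  (21895965, [.ofNat 0, .ofNat 0, .ofNat 2432]),
  (21898077, [.ofNat 0, .ofNat 0, .negSucc 7935, .negSucc 4031, .negSucc 127]),
  (21900061, [.ofNat 0, .ofNat 0, .ofNat 2432]),
  (21900107, [.ofNat 0, .ofNat 0, .ofNat 12000, .negSucc 2615, .ofNat 16]),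
  (21901996, [.ofNat 0, .ofNat 0, .negSucc 8959, .ofNat 5312]),
  (21902122, [.ofNat 0, .ofNat 0, .ofNat 4096, .ofNat 3904, .negSucc 319]),
  (21902668, [.ofNat 0, .ofNat 0, .negSucc 22527, .negSucc 8639, .ofNat 192]),
  (21904012, [.ofNat 0, .ofNat 0, .ofNat 1920, .ofNat 4512, .ofNat 64]),
  (21904037, [.ofNat 0, .negSucc 13311, .ofNat 23040, .ofNat 2432]),
  (21904141, [.ofNat 0, .ofNat 0, .ofNat 2432]),
  (21904204, [.ofNat 0, .ofNat 0, .negSucc 9727]),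
  (21906763, [.ofNat 0, .ofNat 0, .negSucc 11999, .ofNat 2616, .negSucc 15]),
  (21910301, [.ofNat 0, .ofNat 0, .ofNat 2432]),
  (21910371, [.ofNat 0, .ofNat 0, .negSucc 9727]),
  (21910813, [.ofNat 0, .ofNat 0, .ofNat 2432]),
  (21911309, [.ofNat 0, .ofNat 0, .negSucc 2431, .ofNat 704]),
  (21911317, [.ofNat 0, .ofNat 0, .negSucc 4863, .ofNat 704]),
  (21911372, [.ofNat 0, .ofNat 0, .ofNat 4864, .negSucc 703]),
  (21911380, [.ofNat 0, .ofNat 0, .ofNat 4864, .negSucc 703]),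
  (21911645, [.ofNat 0, .ofNat 0, .ofNat 2432]),
  (21911709, [.ofNat 0, .ofNat 0, .ofNat 2432]),
  (22063836, [.ofNat 0, .ofNat 0, .ofNat 7168, .ofNat 5632, .ofNat 128]),
  (22063843, [.ofNat 0, .ofNat 0, .ofNat 1920, .ofNat 4512, .ofNat 64]),
  (22063845, [.ofNat 0, .ofNat 0, .ofNat 4480, .ofNat 1504]),
  (22063901, [.ofNat 0, .ofNat 0, .ofNat 2432, .negSucc 4383, .negSucc 127]),
  (22063964, [.ofNat 0, .ofNat 0, .negSucc 7167, .negSucc 5631, .negSucc 127]),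
  (22067045, [.ofNat 0, .ofNat 0, .ofNat 4864]),
  (22067413, [.ofNat 0, .ofNat 0, .negSucc 22527, .negSucc 8639, .ofNat 192]),
  (22067868, [.ofNat 0, .ofNat 0, .ofNat 13568, .ofNat 4032, .ofNat 128]),
  (22070955, [.ofNat 0, .ofNat 0, .ofNat 16896, .ofNat 8640, .negSucc 191]),
  (22071130, [.ofNat 0, .ofNat 0, .negSucc 16895, .negSucc 10431, .ofNat 192]),
  (22074595, [.ofNat 0, .ofNat 0, .negSucc 22527, .negSucc 8639, .ofNat 192]),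
  (22074597, [.ofNat 0, .ofNat 0, .ofNat 4480, .ofNat 1504]),
  (22075045, [.ofNat 0, .ofNat 0, .negSucc 2431]),
  (22075109, [.ofNat 0, .ofNat 0, .ofNat 4480, .ofNat 1504]),
  (22075179, [.ofNat 0, .ofNat 0, .ofNat 2432]),
  (22075235, [.ofNat 0, .ofNat 0, .ofNat 4864]),
  (22075563, [.ofNat 0, .ofNat 13312, .negSucc 33535, .negSucc 3071, .ofNat 320]),
  (22075627, [.ofNat 0, .ofNat 0, .negSucc 2431]),
  (22075738, [.ofNat 0, .ofNat 0, .ofNat 2432]),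
  (22076131, [.ofNat 0, .ofNat 0, .negSucc 9727]),
  (22100313, [.ofNat 0, .ofNat 0, .ofNat 13568, .ofNat 4032, .ofNat 128]),
  (22100685, [.ofNat 0, .ofNat 0, .ofNat 22528, .ofNat 8640, .negSucc 191]),
  (22102763, [.ofNat 0, .ofNat 0, .ofNat 8960, .ofNat 4608, .negSucc 319]),
  (22103659, [.ofNat 0, .ofNat 0, .ofNat 8960, .ofNat 4608, .negSucc 319]),
  (22128985, [.ofNat 0, .ofNat 0, .ofNat 13568, .ofNat 4032, .ofNat 128]),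
  (22129253, [.ofNat 0, .ofNat 0, .ofNat 4480, .ofNat 1504]),
  (22133517, [.ofNat 0, .ofNat 0, .ofNat 0, .negSucc 1407]),
  (22135530, [.ofNat 0, .ofNat 0, .ofNat 16896, .ofNat 8640, .negSucc 191]),
  (22136139, [.ofNat 0, .ofNat 0, .negSucc 16895, .negSucc 10431, .ofNat 192]),
  (22136681, [.ofNat 0, .ofNat 0, .negSucc 9727]),
  (22137557, [.ofNat 0, .ofNat 0, .negSucc 5631, .ofNat 2304]),
  (22139564, [.ofNat 0, .ofNat 0, .ofNat 768, .negSucc 2303]),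
  (22139628, [.ofNat 0, .ofNat 0, .ofNat 768, .negSucc 2303]),
  (22139691, [.ofNat 0, .ofNat 0, .negSucc 4863]),
  (22139747, [.ofNat 0, .ofNat 0, .negSucc 4863]),
  (22140005, [.ofNat 0, .ofNat 0, .ofNat 4480, .ofNat 1504]),
  (22140012, [.ofNat 0, .ofNat 0, .ofNat 768, .negSucc 2303]),
  (22140524, [.ofNat 0, .ofNat 0, .ofNat 768, .negSucc 2303]),
  (22141141, [.ofNat 0, .ofNat 0, .negSucc 5631, .ofNat 2304]),
  (22172907, [.ofNat 0, .ofNat 0, .negSucc 4863]),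
  (22189404, [.ofNat 0, .ofNat 0, .ofNat 768, .negSucc 2303]),
  (22189740, [.ofNat 0, .ofNat 0, .negSucc 2431]),
  (22190314, [.ofNat 0, .ofNat 0, .negSucc 767, .ofNat 2304]),
  (22190426, [.ofNat 0, .ofNat 0, .ofNat 2432]),
  (22192867, [.ofNat 0, .ofNat 0, .ofNat 1920, .ofNat 4512, .ofNat 64]),
  (22193996, [.ofNat 0, .ofNat 0, .ofNat 768, .negSucc 2303]),
  (22194283, [.ofNat 0, .ofNat 0, .negSucc 4863]),
  (22194397, [.ofNat 0, .ofNat 0, .negSucc 4863])]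

/-- data -/
def lE19x3 : List (ℕ × List ℤ) := [(22194409, [.ofNat 0, .ofNat 0, .negSucc 4863]),
  (22194411, [.ofNat 0, .ofNat 0, .ofNat 4480, .ofNat 448]),
  (22194787, [.ofNat 0, .ofNat 0, .ofNat 4864]),
  (22194908, [.ofNat 0, .ofNat 0, .ofNat 4864]),
  (22194913, [.ofNat 0, .ofNat 0, .ofNat 4864]),
  (22194915, [.ofNat 0, .ofNat 0, .negSucc 4479, .negSucc 447]),
  (22197580, [.ofNat 0, .ofNat 0, .ofNat 768, .negSucc 2303]),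
  (22201437, [.ofNat 0, .ofNat 0, .ofNat 6656, .negSucc 511, .negSucc 2431]),
  (22201962, [.ofNat 0, .ofNat 0, .ofNat 4864]),
  (22202061, [.ofNat 0, .ofNat 0, .negSucc 4863]),
  (22205667, [.ofNat 0, .ofNat 0, .ofNat 4864]),
  (25504107, [.ofNat 0, .ofNat 0, .ofNat 4864]),
  (25507500, [.ofNat 0, .ofNat 0, .negSucc 5439, .ofNat 400, .negSucc 31]),
  (25508517, [.ofNat 0, .negSucc 13311, .ofNat 23040, .ofNat 2432]),
  (25508629, [.ofNat 0, .ofNat 0, .ofNat 11008, .negSucc 1823]),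
  (25508637, [.ofNat 0, .ofNat 0, .ofNat 2432, .ofNat 352]),
  (25508650, [.ofNat 0, .ofNat 0, .ofNat 768, .negSucc 1599]),
  (25508651, [.ofNat 0, .ofNat 0, .ofNat 2432, .ofNat 704]),
  (25515797, [.ofNat 0, .ofNat 0, .ofNat 8576, .negSucc 3231]),
  (25515805, [.ofNat 0, .ofNat 0, .negSucc 7807, .negSucc 127]),
  (25515819, [.ofNat 0, .ofNat 0, .ofNat 2432]),
  (25601323, [.ofNat 0, .ofNat 13312, .negSucc 37631, .negSucc 5183, .ofNat 640]),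
  (25601379, [.ofNat 0, .ofNat 13312, .negSucc 37631, .negSucc 5183, .ofNat 640]),
  (25601813, [.ofNat 0, .ofNat 0, .ofNat 8576, .negSucc 3231]),
  (25601835, [.ofNat 0, .ofNat 0, .ofNat 4864]),
  (25601891, [.ofNat 0, .ofNat 0, .ofNat 4864]),
  (25736541, [.ofNat 0, .ofNat 0, .negSucc 16895, .negSucc 8639, .ofNat 192]),
  (25737941, [.ofNat 0, .ofNat 0, .negSucc 4095, .negSucc 3903, .ofNat 320]),
  (25737964, [.ofNat 0, .ofNat 13312, .negSucc 23039, .negSucc 2431]),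
  (25738013, [.ofNat 0, .ofNat 0, .negSucc 767, .ofNat 2304]),
  (25738026, [.ofNat 0, .ofNat 0, .ofNat 3200, .negSucc 1599]),
  (25738027, [.ofNat 0, .ofNat 0, .negSucc 767, .ofNat 2304]),
  (25741141, [.ofNat 0, .ofNat 0, .ofNat 10240, .ofNat 128]),
  (25741981, [.ofNat 0, .ofNat 0, .negSucc 767, .ofNat 2304]),
  (25742037, [.ofNat 0, .ofNat 0, .ofNat 2432]),
  (25745109, [.ofNat 0, .ofNat 0, .negSucc 5631]),
  (25745125, [.ofNat 0, .ofNat 0, .ofNat 4480, .ofNat 1504]),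
  (25745173, [.ofNat 0, .ofNat 0, .negSucc 3199, .ofNat 1600]),
  (25770221, [.ofNat 0, .ofNat 0, .negSucc 4863]),
  (25770701, [.ofNat 0, .ofNat 0, .negSucc 4095, .negSucc 3903, .ofNat 320]),
  (25777869, [.ofNat 0, .ofNat 0, .ofNat 768, .negSucc 1599]),
  (25777963, [.ofNat 0, .negSucc 13311, .ofNat 38400, .ofNat 3072, .negSucc 319]),
  (25777996, [.ofNat 0, .ofNat 0, .ofNat 0, .ofNat 1408]),
  (25778019, [.ofNat 0, .ofNat 0, .ofNat 4864]),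
  (25794901, [.ofNat 0, .ofNat 0, .negSucc 2431]),
  (25795349, [.ofNat 0, .ofNat 0, .negSucc 2431, .ofNat 704]),
  (25795370, [.ofNat 0, .ofNat 0, .ofNat 2432, .ofNat 704]),
  (25795371, [.ofNat 0, .ofNat 0, .negSucc 767, .ofNat 2304]),
  (25807453, [.ofNat 0, .ofNat 0, .ofNat 768, .negSucc 2303]),
  (25807573, [.ofNat 0, .ofNat 0, .negSucc 767, .ofNat 2304]),
  (25807594, [.ofNat 0, .ofNat 0, .ofNat 4864]),
  (25809621, [.ofNat 0, .ofNat 0, .negSucc 5631]),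
  (25809685, [.ofNat 0, .ofNat 0, .negSucc 2431]),
  (25809693, [.ofNat 0, .ofNat 0, .ofNat 8576, .negSucc 3231]),
  (25810028, [.ofNat 0, .ofNat 0, .negSucc 4479, .negSucc 1503]),
  (25810125, [.ofNat 0, .ofNat 0, .ofNat 768, .negSucc 1599]),
  (25810219, [.ofNat 0, .negSucc 13311, .ofNat 33536, .ofNat 3072, .negSucc 319]),
  (25811029, [.ofNat 0, .ofNat 0, .ofNat 2432]),
  (25811157, [.ofNat 0, .ofNat 0, .negSucc 767, .ofNat 2304]),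
  (25811178, [.ofNat 0, .ofNat 0, .ofNat 4864]),
  (25827157, [.ofNat 0, .ofNat 0, .ofNat 7808, .ofNat 128]),
  (25828053, [.ofNat 0, .ofNat 0, .negSucc 2431]),
  (25842389, [.ofNat 0, .ofNat 0, .negSucc 4863]),
  (25859301, [.ofNat 0, .ofNat 0, .negSucc 4479, .negSucc 1503]),
  (25859357, [.ofNat 0, .ofNat 0, .ofNat 5760, .negSucc 1727]),
  (25859869, [.ofNat 0, .ofNat 0, .negSucc 3199, .ofNat 1600]),
  (25860309, [.ofNat 0, .ofNat 0, .negSucc 10239, .negSucc 127]),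
  (25862892, [.ofNat 0, .ofNat 13312, .negSucc 23039, .negSucc 2431]),
  (25863781, [.ofNat 0, .ofNat 0, .ofNat 0, .negSucc 351]),
  (25863949, [.ofNat 0, .ofNat 0, .negSucc 10239, .negSucc 127]),
  (25864012, [.ofNat 0, .ofNat 0, .ofNat 768, .negSucc 2303]),
  (25867037, [.ofNat 0, .ofNat 0, .ofNat 8576, .negSucc 3231]),
  (25867050, [.ofNat 0, .ofNat 0, .ofNat 7296]),
  (25867106, [.ofNat 0, .ofNat 0, .ofNat 4864]),
  (25867107, [.ofNat 0, .ofNat 0, .ofNat 768, .negSucc 2303]),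
  (25867372, [.ofNat 0, .ofNat 0, .negSucc 4479, .negSucc 1503]),
  (25867596, [.ofNat 0, .ofNat 0, .ofNat 768, .negSucc 2303]),
  (25868045, [.ofNat 0, .ofNat 0, .ofNat 768, .negSucc 1599]),
  (25868108, [.ofNat 0, .ofNat 0, .negSucc 767, .ofNat 3008]),
  (25868373, [.ofNat 0, .ofNat 0, .ofNat 10240, .ofNat 128]),
  (25868429, [.ofNat 0, .ofNat 0, .ofNat 5760, .negSucc 1727]),
  (25871005, [.ofNat 0, .ofNat 0, .negSucc 767, .ofNat 2304]),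
  (25871061, [.ofNat 0, .ofNat 0, .negSucc 2431, .negSucc 351]),
  (25872013, [.ofNat 0, .ofNat 0, .negSucc 4479, .negSucc 1503]),
  (26293933, [.ofNat 0, .ofNat 0, .negSucc 4863]),
  (26519317, [.ofNat 0, .ofNat 0, .negSucc 767, .ofNat 2304]),
  (26519325, [.ofNat 0, .ofNat 0, .ofNat 11776, .ofNat 1152]),
  (26519338, [.ofNat 0, .ofNat 0, .negSucc 3967, .ofNat 3904]),
  (26519388, [.ofNat 0, .ofNat 0, .negSucc 9343, .negSucc 447]),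
  (26519765, [.ofNat 0, .ofNat 0, .negSucc 767, .ofNat 2304]),
  (26520276, [.ofNat 0, .ofNat 0, .ofNat 768, .negSucc 2303]),
  (26526933, [.ofNat 0, .ofNat 0, .negSucc 767, .ofNat 2304]),
  (26531028, [.ofNat 0, .ofNat 0, .ofNat 768, .negSucc 2303]),
  (26547989, [.ofNat 0, .ofNat 0, .negSucc 767, .ofNat 2304]),
  (26548010, [.ofNat 0, .ofNat 0, .negSucc 1535, .ofNat 3904]),
  (26555157, [.ofNat 0, .ofNat 0, .ofNat 2432, .ofNat 352]),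
  (26555165, [.ofNat 0, .ofNat 0, .ofNat 11008, .negSucc 1823]),
  (69544173, [.ofNat 0, .ofNat 0, .negSucc 767, .ofNat 1600]),
  (69544285, [.ofNat 0, .ofNat 0, .ofNat 0, .negSucc 703]),
  (69544677, [.ofNat 0, .ofNat 0, .negSucc 767, .ofNat 3008])]

/-- data -/
def lE19x4 : List (ℕ × List ℤ) := [(69544733, [.ofNat 0, .ofNat 0, .ofNat 0, .ofNat 704]),
  (69547821, [.ofNat 0, .ofNat 0, .ofNat 4864]),
  (69548373, [.ofNat 0, .ofNat 0, .negSucc 767, .ofNat 1600]),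
  (69548381, [.ofNat 0, .ofNat 0, .ofNat 4864, .negSucc 1407]),
  (69548821, [.ofNat 0, .ofNat 0, .ofNat 768, .negSucc 1599]),
  (69548829, [.ofNat 0, .ofNat 0, .ofNat 4864]),
  (69551453, [.ofNat 0, .ofNat 0, .ofNat 0, .negSucc 703]),
  (69551789, [.ofNat 0, .ofNat 0, .negSucc 4863]),
  (69552853, [.ofNat 0, .ofNat 0, .ofNat 768, .negSucc 2303]),
  (69552861, [.ofNat 0, .ofNat 0, .ofNat 0, .ofNat 704]),
  (69555485, [.ofNat 0, .ofNat 0, .ofNat 0, .ofNat 704]),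
  (69555941, [.ofNat 0, .ofNat 0, .ofNat 0, .ofNat 1408]),
  (69556381, [.ofNat 0, .ofNat 0, .ofNat 768, .negSucc 2303]),
  (69556445, [.ofNat 0, .ofNat 0, .ofNat 0, .negSucc 703]),
  (69608797, [.ofNat 0, .ofNat 0, .ofNat 0, .ofNat 1408]),
  (69610141, [.ofNat 0, .ofNat 0, .ofNat 4864, .negSucc 5631]),
  (69610197, [.ofNat 0, .ofNat 0, .ofNat 1536, .negSucc 4607]),
  (69620893, [.ofNat 0, .ofNat 0, .ofNat 768, .negSucc 1599]),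
  (69642005, [.ofNat 0, .ofNat 0, .ofNat 4480, .ofNat 1504]),
  (69642397, [.ofNat 0, .ofNat 0, .negSucc 4095, .ofNat 3328]),
  (69642453, [.ofNat 0, .ofNat 0, .ofNat 3712, .ofNat 3808]),
  (69649565, [.ofNat 0, .ofNat 0, .negSucc 767, .ofNat 1600]),
  (69777197, [.ofNat 0, .ofNat 0, .negSucc 767, .ofNat 1600]),
  (69777253, [.ofNat 0, .ofNat 0, .ofNat 768, .negSucc 1599]),
  (69777757, [.ofNat 0, .ofNat 0, .ofNat 4864, .negSucc 703]),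
  (69778205, [.ofNat 0, .ofNat 0, .ofNat 4864, .negSucc 703]),
  (69781333, [.ofNat 0, .ofNat 0, .ofNat 10240, .ofNat 128]),
  (69782229, [.ofNat 0, .ofNat 0, .ofNat 2432]),
  (69801773, [.ofNat 0, .ofNat 0, .negSucc 767, .ofNat 1600]),
  (69801829, [.ofNat 0, .ofNat 0, .ofNat 768, .negSucc 1599]),
  (69810413, [.ofNat 0, .ofNat 0, .ofNat 4096, .negSucc 4031]),
  (69810917, [.ofNat 0, .ofNat 0, .negSucc 4095, .ofNat 4032]),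
  (69813085, [.ofNat 0, .ofNat 0, .ofNat 0, .ofNat 704]),
  (69813869, [.ofNat 0, .ofNat 0, .negSucc 4863]),
  (69814093, [.ofNat 0, .ofNat 0, .ofNat 0, .ofNat 704]),
  (69817117, [.ofNat 0, .ofNat 0, .ofNat 0, .negSucc 703]),
  (69818085, [.ofNat 0, .ofNat 0, .negSucc 9599, .negSucc 1247]),
  (69818125, [.ofNat 0, .ofNat 0, .ofNat 0, .negSucc 703]),
  (69838693, [.ofNat 0, .ofNat 0, .negSucc 3327, .ofNat 256, .ofNat 1216]),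
  (69842221, [.ofNat 0, .ofNat 0, .negSucc 767, .ofNat 1600]),
  (69842277, [.ofNat 0, .ofNat 0, .ofNat 768, .negSucc 1599]),
  (69846349, [.ofNat 0, .ofNat 0, .ofNat 4480, .ofNat 1504]),
  (69850341, [.ofNat 0, .ofNat 0, .negSucc 9599, .negSucc 1247]),
  (69851221, [.ofNat 0, .ofNat 0, .ofNat 12672, .negSucc 223]),
  (69851277, [.ofNat 0, .ofNat 0, .ofNat 1280, .ofNat 3104]),
  (69867245, [.ofNat 0, .ofNat 0, .negSucc 4863]),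
  (69867349, [.ofNat 0, .ofNat 0, .ofNat 7808, .ofNat 128]),
  (69868245, [.ofNat 0, .ofNat 0, .ofNat 0, .negSucc 703]),
  (69872333, [.ofNat 0, .ofNat 0, .negSucc 767, .ofNat 2304]),
  (69875021, [.ofNat 0, .ofNat 0, .ofNat 4480, .ofNat 1504]),
  (69899493, [.ofNat 0, .ofNat 0, .negSucc 1279, .negSucc 3103]),
  (69899549, [.ofNat 0, .ofNat 0, .ofNat 8960, .negSucc 3327]),
  (69900501, [.ofNat 0, .ofNat 0, .negSucc 767, .ofNat 3008]),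
  (69903077, [.ofNat 0, .ofNat 0, .negSucc 10239, .ofNat 224]),
  (69903133, [.ofNat 0, .ofNat 0, .negSucc 4095, .ofNat 4736]),
  (69904477, [.ofNat 0, .ofNat 0, .negSucc 4095, .ofNat 4736]),
  (69907221, [.ofNat 0, .ofNat 0, .ofNat 3712, .ofNat 4864]),
  (155859293, [.ofNat 0, .negSucc 5247, .ofNat 128]),
  (155859741, [.ofNat 0, .negSucc 5247, .ofNat 128]),
  (156055909, [.ofNat 0, .ofNat 3328, .negSucc 9599, .ofNat 320]),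
  (156121765, [.ofNat 13312, .negSucc 23039, .negSucc 2431]),
  (156318059, [.ofNat 0, .negSucc 4095, .negSucc 3903, .ofNat 320]),
  (156411677, [.ofNat 0, .negSucc 20479, .negSucc 4703, .ofNat 3856]),
  (156411740, [.ofNat 0, .ofNat 20480, .ofNat 4704, .negSucc 3855]),
  (159987557, [.ofNat 0, .ofNat 3328, .negSucc 9599, .ofNat 320]),
  (159988061, [.ofNat 0, .negSucc 5247, .ofNat 128]),
  (159988509, [.ofNat 0, .negSucc 5247, .ofNat 128]),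
  (159995691, [.ofNat 13312, .negSucc 33535, .negSucc 3071, .ofNat 320]),
  (159996125, [.ofNat 0, .negSucc 2431, .ofNat 4384, .ofNat 128]),
  (159996636, [.ofNat 0, .ofNat 7936, .ofNat 4032, .ofNat 128]),
  (160016229, [.ofNat 0, .ofNat 3328, .negSucc 9599, .ofNat 320]),
  (160027947, [.ofNat 13312, .negSucc 33535, .negSucc 3071, .ofNat 320]),
  (160029340, [.ofNat 0, .negSucc 5631]),
  (160053973, [.ofNat 0, .ofNat 3328, .negSucc 5375]),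
  (160089939, [.ofNat 13312, .negSucc 33535, .negSucc 3071, .ofNat 320]),
  (170511133, [.ofNat 0, .negSucc 3327, .ofNat 11904, .negSucc 1087]),
  (170773269, [.ofNat 0, .ofNat 3328, .negSucc 255, .negSucc 1215]),
  (170797419, [.ofNat 0, .negSucc 8959, .negSucc 4607, .ofNat 320]),
  (170998571, [.ofNat 0, .ofNat 3328, .negSucc 9599, .ofNat 320]),
  (171035307, [.ofNat 0, .negSucc 13823, .ofNat 6912]),
  (171038548, [.ofNat 0, .negSucc 50655, .negSucc 2399, .ofNat 5024]),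
  (171039059, [.ofNat 0, .negSucc 3327, .ofNat 9600, .negSucc 319]),
  (171070699, [.ofNat 0, .negSucc 255, .negSucc 15871, .ofNat 2048]),
  (171071147, [.ofNat 0, .negSucc 255, .negSucc 15871, .ofNat 2048]),
  (171091692, [.ofNat 0, .ofNat 6912, .negSucc 895]),
  (171091804, [.ofNat 0, .ofNat 10496, .ofNat 6912, .negSucc 4159]),
  (171092203, [.ofNat 0, .ofNat 1664, .negSucc 4287, .ofNat 608]),
  (171092700, [.ofNat 0, .ofNat 6912, .negSucc 895]),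
  (171092707, [.ofNat 0, .negSucc 1663, .ofNat 4288, .negSucc 607]),
  (171096403, [.ofNat 0, .ofNat 0, .negSucc 2303, .ofNat 768]),
  (171099819, [.ofNat 0, .negSucc 3327, .ofNat 9600, .negSucc 319]),
  (171099987, [.ofNat 0, .ofNat 3328, .negSucc 11903, .ofNat 1088]),
  (172345196, [.ofNat 0, .ofNat 5440, .negSucc 399, .ofNat 32]),
  (172868397, [.ofNat 0, .negSucc 14591, .negSucc 191, .ofNat 640]),
  (172868453, [.ofNat 0, .ofNat 3328, .negSucc 9599, .ofNat 320]),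
  (173066973, [.ofNat 0, .negSucc 767, .negSucc 7103, .ofNat 640]),
  (173070557, [.ofNat 0, .ofNat 3840, .ofNat 2016, .negSucc 2399]),
  (173128461, [.ofNat 0, .negSucc 767, .ofNat 4416]),
  (173128524, [.ofNat 0, .ofNat 768, .negSucc 1599]),
  (173167325, [.ofNat 0, .negSucc 3327, .ofNat 4992, .negSucc 319])]

/-- data -/
def lE19x5 : List (ℕ × List ℤ) := [(173168333, [.ofNat 0, .negSucc 3327, .ofNat 4992, .negSucc 319]),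
  (173185245, [.ofNat 0, .ofNat 3840, .ofNat 2016, .negSucc 2399]),
  (173185756, [.ofNat 0, .ofNat 768, .ofNat 7104, .negSucc 639]),
  (173197145, [.ofNat 0, .ofNat 3328, .negSucc 255, .negSucc 1215]),
  (174410077, [.ofNat 0, .ofNat 3200, .ofNat 4512, .ofNat 64]),
  (174441829, [.ofNat 0, .negSucc 3327, .ofNat 9728, .negSucc 639]),
  (174443348, [.ofNat 0, .negSucc 8319, .negSucc 17279, .negSucc 3423]),
  (174467435, [.ofNat 0, .negSucc 8959, .negSucc 4607, .ofNat 320]),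
  (174471341, [.ofNat 0, .ofNat 16896, .ofNat 10432, .negSucc 191]),
  (174471530, [.ofNat 0, .negSucc 16895, .negSucc 8639, .ofNat 192]),
  (174474589, [.ofNat 0, .negSucc 16895, .negSucc 10431, .ofNat 192]),
  (174479188, [.ofNat 0, .ofNat 10496, .ofNat 6912, .negSucc 4159]),
  (174479594, [.ofNat 0, .negSucc 5647, .ofNat 6384, .negSucc 1503]),
  (174692709, [.ofNat 0, .negSucc 3327, .ofNat 9600, .negSucc 319]),
  (174705253, [.ofNat 0, .negSucc 6655, .ofNat 9856, .ofNat 896]),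
  (174705449, [.ofNat 0, .ofNat 3328, .negSucc 9599, .ofNat 320]),
  (174725861, [.ofNat 0, .ofNat 0, .ofNat 384, .ofNat 320]),
  (174732133, [.ofNat 0, .negSucc 3327, .ofNat 9728, .negSucc 639]),
  (174733925, [.ofNat 0, .ofNat 0, .ofNat 384, .ofNat 320]),
  (174740253, [.ofNat 0, .negSucc 1663, .ofNat 6240, .ofNat 1920]),
  (174740267, [.ofNat 0, .ofNat 1664, .negSucc 6463, .ofNat 928]),
  (174741611, [.ofNat 0, .ofNat 1664, .negSucc 6463, .ofNat 928]),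
  (174902100, [.ofNat 0, .negSucc 8319, .negSucc 17279, .negSucc 3423]),
  (175002277, [.ofNat 0, .ofNat 5248, .negSucc 127]),
  (175003789, [.ofNat 0, .ofNat 5248, .negSucc 127]),
  (175155549, [.ofNat 0, .negSucc 1663, .ofNat 6240, .ofNat 1920]),
  (175155563, [.ofNat 0, .ofNat 0, .ofNat 6528, .negSucc 2175]),
  (175164061, [.ofNat 0, .ofNat 13824, .negSucc 6911]),
  (175164075, [.ofNat 0, .negSucc 13823, .ofNat 6912]),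
  (175167645, [.ofNat 0, .ofNat 2176, .ofNat 8256, .negSucc 479]),
  (175184235, [.ofNat 0, .ofNat 0, .ofNat 6528, .negSucc 2175]),
  (175192684, [.ofNat 0, .ofNat 6912, .negSucc 3455]),
  (175194973, [.ofNat 0, .negSucc 6911, .negSucc 1535, .ofNat 128]),
  (175196779, [.ofNat 0, .ofNat 6912, .negSucc 3455]),
  (175196877, [.ofNat 0, .negSucc 2623, .negSucc 7263, .ofNat 2160]),
  (175199005, [.ofNat 0, .negSucc 1663, .ofNat 2880, .ofNat 480]),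
  (175199019, [.ofNat 0, .negSucc 1663, .ofNat 2880, .ofNat 480]),
  (175200076, [.ofNat 0, .negSucc 6911, .negSucc 1535, .ofNat 128]),
  (175200461, [.ofNat 0, .negSucc 2623, .negSucc 7263, .ofNat 2160]),
  (175215980, [.ofNat 0, .ofNat 10880, .negSucc 799, .ofNat 64]),
  (175217002, [.ofNat 0, .negSucc 4095, .negSucc 3903, .ofNat 320]),
  (175221580, [.ofNat 0, .ofNat 22528, .ofNat 8640, .negSucc 191]),
  (175231828, [.ofNat 0, .negSucc 3327, .ofNat 9344, .negSucc 319]),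
  (175232332, [.ofNat 0, .negSucc 3327, .ofNat 5376]),
  (175252317, [.ofNat 0, .ofNat 3200, .ofNat 4512, .ofNat 64]),
  (175264427, [.ofNat 0, .negSucc 255, .negSucc 15871, .ofNat 2048]),
  (175264602, [.ofNat 0, .ofNat 3200, .ofNat 4512, .ofNat 64]),
  (175264875, [.ofNat 0, .negSucc 255, .negSucc 15871, .ofNat 2048]),
  (175281451, [.ofNat 0, .ofNat 832, .negSucc 2079, .ofNat 80]),
  (175281507, [.ofNat 0, .ofNat 832, .negSucc 2079, .ofNat 80]),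
  (175281829, [.ofNat 0, .negSucc 959, .negSucc 6303, .ofNat 624]),
  (175281836, [.ofNat 0, .ofNat 960, .ofNat 6304, .negSucc 623]),
  (175281941, [.ofNat 0, .negSucc 2175, .ofNat 10368, .ofNat 7584]),
  (175282018, [.ofNat 0, .ofNat 1664, .negSucc 4159, .ofNat 160]),
  (175282333, [.ofNat 0, .ofNat 2176, .ofNat 8256, .negSucc 479]),
  (175282844, [.ofNat 0, .negSucc 13823, .ofNat 6912]),
  (175285084, [.ofNat 0, .ofNat 1664, .negSucc 6239, .negSucc 1919]),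
  (175286477, [.ofNat 0, .negSucc 2623, .negSucc 7263, .ofNat 2160]),
  (175286988, [.ofNat 0, .ofNat 2624, .ofNat 7264, .negSucc 2159]),
  (175288997, [.ofNat 0, .ofNat 0, .negSucc 639]),
  (175289004, [.ofNat 0, .ofNat 0, .ofNat 640]),
  (175289109, [.ofNat 0, .ofNat 8320, .ofNat 17280, .ofNat 3424]),
  (175290509, [.ofNat 0, .ofNat 0, .negSucc 639]),
  (175291020, [.ofNat 0, .ofNat 0, .ofNat 640]),
  (175293162, [.ofNat 0, .negSucc 5647, .ofNat 6384, .negSucc 1503]),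
  (176502629, [.ofNat 0, .negSucc 3327, .ofNat 9728, .negSucc 639]),
  (176503595, [.ofNat 0, .ofNat 208, .negSucc 29375, .ofNat 5040]),
  (176510763, [.ofNat 0, .ofNat 0, .ofNat 640]),
  (176510819, [.ofNat 0, .ofNat 0, .ofNat 640]),
  (176511197, [.ofNat 0, .negSucc 2431, .ofNat 4384, .ofNat 128]),
  (176539309, [.ofNat 0, .ofNat 22528, .ofNat 8640, .negSucc 191]),
  (176539498, [.negSucc 26623, .ofNat 16736, .negSucc 19135, .ofNat 35648]),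
  (176540317, [.ofNat 0, .negSucc 1663, .ofNat 6240, .ofNat 1920]),
  (176540331, [.ofNat 0, .ofNat 2624, .ofNat 7264, .negSucc 2159]),
  (176543019, [.ofNat 0, .ofNat 2624, .ofNat 7264, .negSucc 2159]),
  (176543075, [.ofNat 0, .negSucc 6335, .ofNat 2656, .negSucc 1839]),
  (176543397, [.ofNat 0, .negSucc 5247, .ofNat 128]),
  (176543530, [.ofNat 26624, .negSucc 16735, .ofNat 19136, .negSucc 35647]),
  (176543572, [.ofNat 0, .negSucc 50655, .negSucc 2399, .ofNat 5024]),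
  (176543901, [.ofNat 0, .negSucc 5247, .ofNat 128]),
  (176543915, [.ofNat 0, .ofNat 2624, .ofNat 7264, .negSucc 2159]),
  (176543957, [.ofNat 0, .ofNat 8320, .ofNat 17280, .ofNat 3424]),
  (176544412, [.ofNat 0, .negSucc 13567, .negSucc 4031, .negSucc 127]),
  (176567659, [.ofNat 0, .negSucc 16895, .negSucc 8639, .ofNat 192]),
  (176569178, [.ofNat 0, .ofNat 16896, .ofNat 10432, .negSucc 191]),
  (176596709, [.negSucc 13311, .ofNat 38976, .ofNat 22432, .ofNat 10592]),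
  (176596765, [.negSucc 13311, .ofNat 46592, .ofNat 33568, .ofNat 13696]),
  (176600293, [.ofNat 0, .negSucc 7615, .negSucc 11135, .negSucc 3103]),
  (176601301, [.negSucc 13311, .ofNat 46592, .ofNat 33568, .ofNat 13696]),
  (176604829, [.ofNat 0, .negSucc 9279, .negSucc 4895, .negSucc 1183]),
  (176604885, [.negSucc 13311, .ofNat 38976, .ofNat 22432, .ofNat 10592]),
  (176608483, [.ofNat 0, .ofNat 22528, .ofNat 8640, .negSucc 191]),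
  (176732901, [.ofNat 0, .ofNat 3328, .negSucc 9343, .ofNat 320]),
  (176736093, [.ofNat 0, .negSucc 10495, .ofNat 1536]),
  (176790252, [.ofNat 0, .ofNat 10496, .ofNat 1408, .negSucc 319]),
  (176805645, [.ofNat 0, .negSucc 3327, .ofNat 4864]),
  (176831181, [.ofNat 0, .ofNat 3328, .negSucc 9343, .ofNat 320]),
  (176837341, [.ofNat 0, .negSucc 3327, .ofNat 4992, .negSucc 319]),
  (176838349, [.ofNat 0, .negSucc 3327, .ofNat 4992, .negSucc 319]),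
  (176854827, [.ofNat 0, .ofNat 0, .negSucc 1279])]

/-- data -/
def lE19x6 : List (ℕ × List ℤ) := [(176854876, [.ofNat 0, .ofNat 5248, .negSucc 1279]),
  (176855275, [.ofNat 0, .negSucc 3327, .ofNat 8320, .negSucc 319]),
  (176862044, [.ofNat 0, .negSucc 5247, .ofNat 1280]),
  (176863948, [.ofNat 0, .negSucc 3327, .ofNat 9344, .negSucc 319]),
  (176863969, [.ofNat 0, .negSucc 3327, .ofNat 8320, .negSucc 319]),
  (176866909, [.ofNat 0, .ofNat 13312, .negSucc 24319, .negSucc 255]),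
  (176991019, [.ofNat 0, .ofNat 0, .negSucc 1279]),
  (176999069, [.ofNat 0, .negSucc 6911, .negSucc 1535, .ofNat 128]),
  (177001771, [.ofNat 0, .ofNat 0, .negSucc 1279]),
  (177001827, [.ofNat 0, .negSucc 8959, .negSucc 4607, .ofNat 320]),
  (177002261, [.ofNat 0, .ofNat 101312, .ofNat 4800, .negSucc 10047]),
  (177002653, [.ofNat 0, .ofNat 6912, .ofNat 1536, .negSucc 127]),
  (177002709, [.ofNat 0, .ofNat 8320, .ofNat 17280, .ofNat 3424]),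
  (177019691, [.ofNat 0, .ofNat 208, .negSucc 29375, .ofNat 5040]),
  (177025900, [.ofNat 0, .negSucc 8447, .ofNat 6528, .ofNat 1312]),
  (177027692, [.ofNat 0, .ofNat 6912, .negSucc 3455]),
  (177031773, [.ofNat 0, .ofNat 6912, .ofNat 1536, .negSucc 127]),
  (177031787, [.ofNat 0, .ofNat 6912, .negSucc 3455]),
  (177033957, [.ofNat 0, .negSucc 5247, .ofNat 128]),
  (177034013, [.ofNat 0, .negSucc 8575, .ofNat 1344, .ofNat 608]),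
  (177034027, [.ofNat 0, .negSucc 1663, .ofNat 2880, .ofNat 480]),
  (177034853, [.ofNat 0, .ofNat 10240, .negSucc 11903, .ofNat 1728]),
  (177035084, [.ofNat 0, .negSucc 6911, .negSucc 1535, .ofNat 128]),
  (177035357, [.ofNat 0, .negSucc 20095, .negSucc 13951, .negSucc 127]),
  (177035469, [.ofNat 0, .negSucc 5247, .ofNat 128]),
  (177054565, [.ofNat 0, .negSucc 3327, .ofNat 9728, .negSucc 639]),
  (177054572, [.ofNat 0, .negSucc 8447, .ofNat 6528, .ofNat 1312]),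
  (177067109, [.ofNat 0, .ofNat 10240, .negSucc 11903, .ofNat 1728]),
  (177068117, [.ofNat 0, .negSucc 13183, .negSucc 12415, .negSucc 255]),
  (177068369, [.ofNat 0, .negSucc 3327, .ofNat 256, .ofNat 1216]),
  (177083755, [.ofNat 0, .ofNat 4736, .negSucc 479, .ofNat 64]),
  (177084266, [.ofNat 0, .negSucc 8959, .negSucc 4607, .ofNat 320]),
  (177085085, [.ofNat 0, .negSucc 6911, .negSucc 1535, .ofNat 128]),
  (177089355, [.ofNat 0, .ofNat 16896, .ofNat 10432, .negSucc 191]),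
  (177091413, [.ofNat 0, .ofNat 50656, .ofNat 2400, .negSucc 5023]),
  (177093205, [.ofNat 0, .ofNat 50656, .ofNat 2400, .negSucc 5023]),
  (177116396, [.ofNat 0, .negSucc 8447, .ofNat 6528, .ofNat 1312]),
  (177116459, [.ofNat 0, .negSucc 8575, .ofNat 6336, .negSucc 159]),
  (177116515, [.ofNat 0, .negSucc 8575, .ofNat 6336, .negSucc 159]),
  (177116844, [.ofNat 0, .negSucc 8447, .ofNat 6528, .ofNat 1312]),
  (177116949, [.ofNat 0, .ofNat 101312, .ofNat 4800, .negSucc 10047]),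
  (177116970, [.ofNat 0, .negSucc 8575, .ofNat 6336, .negSucc 159]),
  (177117026, [.ofNat 0, .negSucc 8575, .ofNat 6336, .negSucc 159]),
  (177117341, [.ofNat 0, .ofNat 6912, .ofNat 1536, .negSucc 127]),
  (177121891, [.ofNat 0, .negSucc 20479, .ofNat 27264, .negSucc 2495]),
  (177289933, [.ofNat 0, .negSucc 22527, .negSucc 8639, .ofNat 192]),
  (177314461, [.ofNat 0, .ofNat 2816]),
  (177314517, [.ofNat 0, .ofNat 2816]),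
  (177329770, [.ofNat 26624, .negSucc 16735, .ofNat 19136, .negSucc 35647]),
  (177379029, [.ofNat 0, .ofNat 8320, .ofNat 17280, .ofNat 3424]),
  (177386197, [.ofNat 0, .ofNat 8320, .ofNat 17280, .ofNat 3424]),
  (177514213, [.ofNat 0, .negSucc 6911, .ofNat 896]),
  (177514269, [.ofNat 0, .negSucc 10495, .negSucc 6911, .ofNat 4160]),
  (177514717, [.ofNat 0, .negSucc 6911, .ofNat 896]),
  (177515235, [.ofNat 0, .ofNat 0, .negSucc 6527, .ofNat 2176]),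
  (177517853, [.ofNat 0, .ofNat 256, .ofNat 9792, .ofNat 1632]),
  (177518420, [.ofNat 0, .ofNat 3200, .ofNat 608]),
  (177518434, [.ofNat 0, .ofNat 6912, .negSucc 895]),
  (177518749, [.ofNat 0, .negSucc 895, .ofNat 9024, .ofNat 1632]),
  (177521885, [.ofNat 0, .ofNat 1152, .ofNat 768]),
  (177526498, [.ofNat 0, .ofNat 6912, .negSucc 895]),
  (177542955, [.ofNat 0, .ofNat 0, .negSucc 639]),
  (177543011, [.ofNat 0, .ofNat 0, .ofNat 640]),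
  (177543907, [.ofNat 0, .ofNat 0, .negSucc 6527, .ofNat 2176]),
  (177550172, [.ofNat 0, .negSucc 8447, .ofNat 6528, .ofNat 1312]),
  (177551117, [.ofNat 0, .negSucc 5247, .ofNat 128]),
  (177551180, [.ofNat 0, .ofNat 8448, .ofNat 480]),
  (177555149, [.ofNat 0, .negSucc 5247, .ofNat 128]),
  (177559244, [.ofNat 0, .ofNat 5248, .negSucc 127]),
  (177576604, [.ofNat 0, .ofNat 1664, .negSucc 6239, .negSucc 1919]),
  (177578844, [.ofNat 0, .negSucc 8447, .ofNat 6528, .ofNat 1312]),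
  (177580237, [.ofNat 0, .negSucc 895, .ofNat 9024, .ofNat 1632]),
  (177580643, [.ofNat 0, .negSucc 20479, .ofNat 27264, .negSucc 2495]),
  (177582932, [.ofNat 0, .ofNat 3200, .ofNat 608]),
  (177583373, [.ofNat 0, .ofNat 1152, .ofNat 768]),
  (177583436, [.ofNat 0, .ofNat 3200, .ofNat 608]),
  (177584234, [.ofNat 0, .ofNat 20480, .negSucc 27263, .ofNat 2496]),
  (177587405, [.ofNat 0, .ofNat 256, .ofNat 9792, .ofNat 1632]),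
  (177587818, [.negSucc 26623, .ofNat 16736, .negSucc 19135, .ofNat 35648]),
  (177607901, [.ofNat 0, .ofNat 3328, .negSucc 9727, .ofNat 640]),
  (177607915, [.ofNat 0, .negSucc 207, .ofNat 29376, .negSucc 5039]),
  (177608363, [.ofNat 0, .negSucc 5647, .ofNat 6384, .negSucc 1503]),
  (177611485, [.ofNat 0, .negSucc 6655, .ofNat 512, .ofNat 2432]),
  (177615979, [.ofNat 0, .negSucc 207, .ofNat 29376, .negSucc 5039]),
  (177616525, [.ofNat 0, .ofNat 3328, .negSucc 9727, .ofNat 640]),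
  (177640668, [.ofNat 0, .negSucc 8447, .ofNat 6528, .ofNat 1312]),
  (177641116, [.ofNat 0, .negSucc 8447, .ofNat 6528, .ofNat 1312]),
  (204060012, [.ofNat 0, .ofNat 5440, .negSucc 399, .ofNat 32]),
  (204061349, [.ofNat 13312, .negSucc 23039, .negSucc 2431]),
  (204068517, [.ofNat 0, .negSucc 8703, .ofNat 8320, .negSucc 2399]),
  (204068524, [.ofNat 0, .ofNat 0, .negSucc 1727, .ofNat 160]),
  (204069021, [.ofNat 0, .negSucc 8703, .ofNat 8320, .negSucc 2399]),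
  (204094186, [.ofNat 0, .negSucc 13823, .ofNat 6912]),
  (204100829, [.ofNat 0, .negSucc 3327, .ofNat 4992, .negSucc 319]),
  (204101291, [.ofNat 0, .negSucc 255, .negSucc 15871, .ofNat 2048]),
  (204101333, [.ofNat 0, .negSucc 3327, .ofNat 4992, .negSucc 319]),
  (204122347, [.ofNat 0, .negSucc 13823, .ofNat 6912]),
  (204552938, [.ofNat 0, .negSucc 13823, .ofNat 6912]),
  (204559581, [.ofNat 0, .ofNat 3328, .negSucc 9343, .ofNat 320]),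
  (204813611, [.ofNat 0, .negSucc 1663, .ofNat 4288, .negSucc 607])]

/-- data -/
def lE19x7 : List (ℕ × List ℤ) := [(204813667, [.ofNat 0, .negSucc 1663, .ofNat 4288, .negSucc 607]),
  (204815060, [.ofNat 0, .ofNat 0, .negSucc 1727, .ofNat 160]),
  (204815074, [.ofNat 0, .ofNat 13824, .negSucc 6911]),
  (204818077, [.ofNat 0, .ofNat 0, .ofNat 384, .ofNat 320]),
  (204875421, [.ofNat 0, .ofNat 13312, .negSucc 24319, .negSucc 255]),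
  (205862757, [.ofNat 0, .negSucc 3327, .ofNat 9728, .negSucc 639]),
  (205892395, [.ofNat 0, .ofNat 5648, .negSucc 6383, .ofNat 1504]),
  (205900445, [.ofNat 0, .ofNat 1792, .ofNat 4224, .negSucc 543]),
  (205904029, [.ofNat 0, .ofNat 1792, .ofNat 4224, .negSucc 543]),
  (205956907, [.ofNat 0, .ofNat 10240, .negSucc 11903, .ofNat 1728]),
  (205960981, [.ofNat 0, .negSucc 1663, .ofNat 768]),
  (205965034, [.ofNat 0, .negSucc 30719, .ofNat 39168, .negSucc 4223]),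
  (206093036, [.negSucc 13311, .ofNat 23040, .ofNat 2432]),
  (206100267, [.ofNat 0, .ofNat 6016, .ofNat 1952]),
  (206150429, [.ofNat 0, .negSucc 1663, .ofNat 768]),
  (206214941, [.ofNat 0, .negSucc 1663, .ofNat 768]),
  (206214955, [.ofNat 0, .ofNat 10240, .negSucc 11903, .ofNat 1728]),
  (206222123, [.ofNat 0, .ofNat 6912, .negSucc 895]),
  (206223117, [.ofNat 0, .negSucc 767, .ofNat 1600]),
  (206223180, [.ofNat 0, .ofNat 768, .negSucc 4415]),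
  (206223467, [.ofNat 0, .ofNat 20480, .negSucc 27263, .ofNat 2496]),
  (206223964, [.ofNat 0, .ofNat 23424, .ofNat 512, .ofNat 1984]),
  (206361829, [.ofNat 0, .negSucc 8703, .ofNat 8320, .negSucc 2399]),
  (206361836, [.ofNat 0, .ofNat 0, .negSucc 6527, .ofNat 2176]),
  (206361948, [.ofNat 0, .ofNat 3456, .ofNat 768, .negSucc 63]),
  (206362284, [.ofNat 0, .ofNat 0, .negSucc 6527, .ofNat 2176]),
  (206362837, [.ofNat 0, .negSucc 8703, .ofNat 8320, .negSucc 2399]),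
  (206363292, [.ofNat 0, .ofNat 6912, .ofNat 1536, .negSucc 127]),
  (206386028, [.ofNat 0, .negSucc 6655, .ofNat 12160, .ofNat 128]),
  (206394204, [.ofNat 0, .ofNat 3456, .ofNat 768, .negSucc 63]),
  (206395996, [.ofNat 0, .ofNat 6912, .ofNat 1536, .negSucc 127]),
  (206412586, [.ofNat 0, .ofNat 6016, .ofNat 1952]),
  (206445290, [.ofNat 0, .negSucc 20479, .ofNat 27264, .negSucc 2495]),
  (206459626, [.ofNat 0, .negSucc 20735, .ofNat 11392, .negSucc 447]),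
  (206476517, [.ofNat 0, .ofNat 0, .ofNat 1280]),
  (206476573, [.ofNat 0, .ofNat 0, .ofNat 1280]),
  (206477980, [.ofNat 0, .ofNat 3456, .ofNat 768, .negSucc 63]),
  (206480220, [.ofNat 0, .ofNat 1664, .negSucc 2879, .negSucc 479]),
  (206480227, [.ofNat 0, .ofNat 1664, .negSucc 2879, .negSucc 479]),
  (206482012, [.ofNat 0, .ofNat 26880, .ofNat 1280, .ofNat 1920]),
  (206485645, [.ofNat 0, .ofNat 0, .ofNat 1280]),
  (206488277, [.ofNat 0, .ofNat 8704, .negSucc 8319, .ofNat 2400]),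
  (206488781, [.ofNat 0, .ofNat 8704, .negSucc 8319, .ofNat 2400]),
  (206489229, [.ofNat 0, .ofNat 0, .ofNat 1280]),
  (206612317, [.ofNat 0, .negSucc 10495, .negSucc 1407, .ofNat 320]),
  (206617322, [.ofNat 0, .negSucc 13823, .ofNat 6912]),
  (206678621, [.ofNat 0, .negSucc 23423, .negSucc 511, .negSucc 1983]),
  (206682709, [.ofNat 0, .negSucc 23423, .negSucc 511, .negSucc 1983]),
  (206746269, [.ofNat 0, .ofNat 1792, .ofNat 4224, .negSucc 543]),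
  (206877981, [.ofNat 0, .ofNat 256, .ofNat 9792, .ofNat 1632]),
  (206878373, [.ofNat 0, .negSucc 6015, .negSucc 1951]),
  (206878506, [.ofNat 0, .ofNat 6016, .ofNat 1952]),
  (206878877, [.ofNat 0, .negSucc 895, .ofNat 9024, .ofNat 1632]),
  (206882013, [.ofNat 0, .negSucc 4863, .negSucc 1183]),
  (206882461, [.ofNat 0, .ofNat 0, .ofNat 384, .ofNat 320]),
  (206903020, [.negSucc 13311, .ofNat 23040, .ofNat 2432]),
  (206935339, [.ofNat 0, .ofNat 8576, .negSucc 6335, .ofNat 160]),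
  (206935395, [.ofNat 0, .ofNat 8576, .negSucc 6335, .ofNat 160]),
  (206935850, [.ofNat 0, .ofNat 8576, .negSucc 6335, .ofNat 160]),
  (206935906, [.ofNat 0, .ofNat 8576, .negSucc 6335, .ofNat 160]),
  (206938972, [.ofNat 0, .ofNat 1664, .negSucc 2879, .negSucc 479]),
  (206938979, [.ofNat 0, .ofNat 1664, .negSucc 2879, .negSucc 479]),
  (206940365, [.ofNat 0, .negSucc 895, .ofNat 9024, .ofNat 1632]),
  (206943501, [.ofNat 0, .negSucc 4863, .negSucc 1183]),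
  (206947533, [.ofNat 0, .ofNat 256, .ofNat 9792, .ofNat 1632]),
  (206972509, [.ofNat 0, .negSucc 1663, .ofNat 6464, .negSucc 927]),
  (206972621, [.ofNat 0, .negSucc 6015, .negSucc 1951]),
  (206975645, [.ofNat 0, .ofNat 1792, .ofNat 4224, .negSucc 543]),
  (210064605, [.ofNat 0, .negSucc 4095, .negSucc 3903, .ofNat 320]),
  (210285917, [.ofNat 0, .ofNat 16896, .ofNat 8640, .negSucc 191]),
  (210287261, [.ofNat 0, .negSucc 6911, .negSucc 1535, .ofNat 128]),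
  (210287317, [.ofNat 0, .negSucc 2815, .ofNat 2368, .negSucc 191]),
  (210294485, [.ofNat 0, .ofNat 5632]),
  (210327245, [.ofNat 0, .negSucc 767, .ofNat 1600]),
  (210352725, [.ofNat 0, .ofNat 2816]),
  (210352781, [.ofNat 0, .ofNat 2816]),
  (210358997, [.ofNat 0, .ofNat 5632]),
  (210359501, [.ofNat 0, .negSucc 767, .ofNat 1600]),
  (212150045, [.ofNat 0, .negSucc 20479, .negSucc 4703, .ofNat 3856]),
  (212150108, [.ofNat 0, .ofNat 20480, .ofNat 4704, .negSucc 3855]),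
  (212150493, [.ofNat 0, .negSucc 3455, .negSucc 4223, .ofNat 2400]),
  (212151004, [.ofNat 0, .ofNat 3456, .ofNat 4224, .negSucc 2399]),
  (212153580, [.ofNat 0, .negSucc 6655, .ofNat 12160, .ofNat 128]),
  (212153692, [.ofNat 0, .negSucc 1535, .negSucc 19103, .negSucc 623]),
  (212154133, [.ofNat 0, .negSucc 1663, .ofNat 768]),
  (212154525, [.ofNat 0, .negSucc 3455, .negSucc 4223, .ofNat 2400]),
  (212155036, [.ofNat 0, .ofNat 3456, .ofNat 4224, .negSucc 2399]),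
  (212161756, [.ofNat 0, .negSucc 4095, .negSucc 3903, .ofNat 320]),
  (212247772, [.ofNat 0, .ofNat 14592, .ofNat 192, .negSucc 639]),
  (212383530, [.ofNat 0, .negSucc 6911, .ofNat 896]),
  (212417228, [.ofNat 0, .negSucc 4095, .negSucc 3903, .ofNat 320]),
  (212420189, [.ofNat 0, .negSucc 23423, .negSucc 511, .negSucc 1983]),
  (212440293, [.ofNat 0, .negSucc 959, .negSucc 6303, .ofNat 624]),
  (212440300, [.ofNat 0, .ofNat 960, .ofNat 6304, .negSucc 623]),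
  (212440874, [.ofNat 0, .negSucc 831, .ofNat 2080, .negSucc 79]),
  (212440930, [.ofNat 0, .negSucc 831, .ofNat 2080, .negSucc 79]),
  (212443996, [.ofNat 0, .negSucc 1535, .negSucc 19103, .negSucc 623]),
  (212451997, [.ofNat 0, .ofNat 8704, .negSucc 8319, .ofNat 2400]),
  (212452445, [.ofNat 0, .negSucc 23423, .negSucc 511, .negSucc 1983]),
  (212453005, [.ofNat 0, .ofNat 8704, .negSucc 8319, .ofNat 2400])]

/-- data -/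
def lE19x8 : List (ℕ × List ℤ) := [(212456540, [.ofNat 0, .negSucc 6911, .negSucc 1535, .ofNat 128]),
  (212457044, [.ofNat 0, .negSucc 6911, .negSucc 1535, .ofNat 128]),
  (212477533, [.ofNat 0, .ofNat 11648, .negSucc 17855, .negSucc 1183]),
  (556349789, [.ofNat 0, .ofNat 0, .ofNat 704]),
  (556350237, [.ofNat 0, .ofNat 0, .negSucc 703]),
  (556353261, [.ofNat 0, .ofNat 768, .negSucc 1599]),
  (556354269, [.ofNat 0, .ofNat 768, .negSucc 1599]),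
  (556357349, [.ofNat 0, .ofNat 10368, .negSucc 3167]),
  (556357853, [.ofNat 0, .negSucc 767, .ofNat 1600]),
  (556381485, [.ofNat 0, .ofNat 768, .negSucc 1599]),
  (556381541, [.ofNat 0, .negSucc 767, .ofNat 1600]),
  (556382549, [.ofNat 0, .negSucc 767, .ofNat 1600]),
  (556382997, [.ofNat 0, .ofNat 768, .negSucc 1599]),
  (556385629, [.negSucc 13311, .ofNat 40576, .ofNat 34144, .ofNat 14016]),
  (556389605, [.ofNat 0, .ofNat 9600, .ofNat 1248]),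
  (556389661, [.ofNat 13312, .negSucc 40575, .negSucc 34143, .negSucc 14015]),
  (556390053, [.ofNat 0, .ofNat 5248, .negSucc 127]),
  (556390557, [.ofNat 0, .ofNat 5248, .negSucc 127]),
  (556390613, [.ofNat 0, .negSucc 1663, .ofNat 768]),
  (556415645, [.ofNat 13312, .negSucc 40575, .negSucc 34143, .negSucc 14015]),
  (556422813, [.ofNat 0, .negSucc 3199, .negSucc 607]),
  (556422869, [.ofNat 0, .negSucc 127, .ofNat 5600, .negSucc 319]),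
  (556443365, [.ofNat 0, .ofNat 0, .negSucc 3455, .ofNat 320]),
  (556447901, [.negSucc 13311, .ofNat 40576, .ofNat 34144, .ofNat 14016]),
  (556447957, [.ofNat 0, .ofNat 0, .negSucc 3455, .ofNat 320]),
  (556451541, [.ofNat 0, .ofNat 0, .negSucc 3455, .ofNat 320]),
  (556881621, [.ofNat 0, .negSucc 767, .ofNat 3008]),
  (557136029, [.ofNat 0, .negSucc 1663, .ofNat 768]),
  (557139669, [.ofNat 0, .ofNat 768, .negSucc 3007]),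
  (558185189, [.ofNat 0, .negSucc 13311, .ofNat 24320, .ofNat 256]),
  (558212965, [.ofNat 0, .negSucc 3327, .ofNat 9728, .negSucc 639]),
  (558213469, [.ofNat 0, .ofNat 10496, .ofNat 6912, .negSucc 4159]),
  (558221141, [.ofNat 0, .negSucc 8575, .ofNat 10624, .negSucc 319]),
  (558221981, [.ofNat 0, .ofNat 0, .ofNat 768, .negSucc 1599]),
  (558222037, [.ofNat 0, .ofNat 1536, .ofNat 19104, .ofNat 624]),
  (558225173, [.ofNat 0, .ofNat 5248, .negSucc 1279]),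
  (558225565, [.ofNat 0, .ofNat 10496, .ofNat 6144, .negSucc 2559]),
  (558250709, [.ofNat 0, .ofNat 5248, .negSucc 1279]),
  (558257877, [.ofNat 0, .ofNat 3200, .ofNat 608]),
  (558282965, [.ofNat 0, .negSucc 5247, .ofNat 1280]),
  (558286549, [.ofNat 0, .ofNat 7616, .ofNat 11136, .ofNat 3104]),
  (558479469, [.ofNat 6656, .negSucc 9855, .negSucc 895]),
  (558479973, [.negSucc 6655, .ofNat 9856, .ofNat 896]),
  (558512733, [.ofNat 0, .ofNat 768, .negSucc 3007]),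
  (558536421, [.negSucc 13311, .ofNat 38976, .ofNat 18976, .ofNat 10912]),
  (558536477, [.negSucc 13311, .ofNat 46592, .ofNat 30112, .ofNat 14016]),
  (558543589, [.ofNat 0, .negSucc 7615, .negSucc 11135, .negSucc 3103]),
  (558544989, [.ofNat 0, .negSucc 767, .ofNat 3008]),
  (558545101, [.negSucc 13311, .ofNat 46592, .ofNat 30112, .ofNat 14016]),
  (558672221, [.ofNat 0, .ofNat 0, .negSucc 5887, .ofNat 2560]),
  (558672669, [.ofNat 0, .ofNat 0, .ofNat 5888, .negSucc 2559]),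
  (558700893, [.ofNat 0, .negSucc 11071, .negSucc 4159, .negSucc 1087]),
  (558701341, [.ofNat 0, .ofNat 11072, .ofNat 4160, .ofNat 1088]),
  (558707557, [.ofNat 0, .negSucc 3327, .ofNat 256, .ofNat 1216]),
  (558709349, [.ofNat 0, .ofNat 6656, .negSucc 12159, .negSucc 127]),
  (558711645, [.ofNat 0, .negSucc 11071, .ofNat 960, .negSucc 2047]),
  (558713437, [.ofNat 0, .ofNat 1536, .ofNat 18336, .ofNat 2224]),
  (558713549, [.ofNat 0, .ofNat 10496, .ofNat 6912, .negSucc 4159]),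
  (558715677, [.ofNat 0, .ofNat 11072, .negSucc 959, .ofNat 2048]),
  (558717021, [.ofNat 0, .ofNat 0, .ofNat 768, .negSucc 1599]),
  (558766749, [.ofNat 0, .ofNat 11072, .negSucc 959, .ofNat 2048]),
  (558774869, [.ofNat 0, .negSucc 5247, .ofNat 1280]),
  (558774925, [.ofNat 0, .negSucc 5247, .ofNat 1280]),
  (558781141, [.ofNat 0, .ofNat 0, .negSucc 5887, .ofNat 2560]),
  (558799005, [.ofNat 0, .negSucc 11071, .ofNat 960, .negSucc 2047]),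
  (558809813, [.ofNat 0, .ofNat 0, .ofNat 5888, .negSucc 2559]),
  (559264421, [.ofNat 0, .ofNat 1664, .negSucc 767])]

/-- the sum of the part -/
def lE19 : List (ℕ × List ℤ) := lE19x0 ++ (lE19x1 ++ (lE19x2 ++ (lE19x3 ++ (lE19x4 ++ (lE19x5 ++ (lE19x6 ++ (lE19x7 ++ (lE19x8))))))))

theorem okE19 : dE19.all (rok tbE 12) = true := by decide +kernel

theorem sumE19 : aeq (fz (sumT tbE dE19)) lE19 = true := by decide +kernel

end Pool.Agent.H.MP_e16c79_al.IS
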