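import Pool.Agent.H.MP_e16c79_al.IS.BTabE

/-!
# MP_e16c79_al: certificate E, part 2
-/

set_option autoImplicit false

namespace Pool.Agent.H.MP_e16c79_al.IS

/-- data -/
def dE2x0 : RT := (.nd (.nd (.nd (.lf ⟨[.ofNat 0, .ofNat 0, .negSucc 16831, .negSucc 14719, .ofNat 10176, .ofNat 64], (.tr (.lf 13) (.dx 0 (.lf 7)) (.tr (.lf 11) (.lf 14) (.lf 19))), 0, [0, 7], []⟩)
    (.lf ⟨[.ofNat 0, .ofNat 0, .ofNat 79104, .ofNat 1472, .negSucc 11775, .ofNat 64], (.tr (.lf 11) (.lf 13) (.tr (.lf 14) (.dx 0 (.lf 7)) (.lf 19))), 0, [6, 6], []⟩))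
    (.nd (.lf ⟨[.ofNat 0, .ofNat 0, .negSucc 22655, .negSucc 5311, .ofNat 7360, .negSucc 831], (.tw (.lf 11) (.tr (.tw (.lf 13) (.lf 14)) (.dx 0 (.lf 7)) (.lf 19))), 0, [6, 6, 18, 18], []⟩)
    (.lf ⟨[.ofNat 0, .ofNat 0, .negSucc 2815, .ofNat 33088, .negSucc 12095, .ofNat 1280], (.tr (.lf 11) (.tr (.lf 13) (.dx 0 (.lf 7)) (.lf 19)) (.lf 14)), 0, [6, 18], []⟩)))
    (.nd (.nd (.lf ⟨[.ofNat 0, .ofNat 0, .ofNat 48128, .negSucc 22463, .negSucc 2623, .ofNat 384], (.tr (.lf 11) (.lf 19) (.tr (.dx 0 (.lf 7)) (.lf 13) (.lf 14))), 0, [18, 1], []⟩)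
    (.lf ⟨[.ofNat 0, .ofNat 0, .ofNat 49856, .negSucc 90367, .ofNat 5888, .negSucc 1279], (.tr (.lf 13) (.lf 19) (.tr (.dx 0 (.lf 7)) (.lf 14) (.lf 11))), 0, [7, 1], []⟩))
    (.nd (.lf ⟨[.ofNat 0, .ofNat 0, .negSucc 47551, .ofNat 25536, .ofNat 10304], (.tr (.dx 0 (.lf 7)) (.tr (.lf 13) (.lf 11) (.lf 19)) (.lf 14)), 0, [0, 12], []⟩)
    (.lf ⟨[.ofNat 0, .ofNat 0, .negSucc 1151, .ofNat 32416, .negSucc 8095, .ofNat 640], (.tw (.dx 0 (.lf 7)) (.tr (.lf 13) (.tw (.lf 11) (.lf 19)) (.lf 14))), 0, [0, 0, 0, 0], []⟩))))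

/-- data -/
def dE2x1 : RT := (.nd (.nd (.nd (.lf ⟨[.ofNat 0, .ofNat 0, .ofNat 2304, .negSucc 13247, .negSucc 1631, .negSucc 63], (.tr (.lf 13) (.lf 11) (.tr (.dx 0 (.lf 7)) (.lf 14) (.lf 19))), 0, [6, 1], []⟩)
    (.lf ⟨[.ofNat 0, .ofNat 0, .negSucc 28031, .ofNat 7168, .ofNat 192, .negSucc 31], (.tw (.lf 11) (.tr (.dx 0 (.lf 7)) (.tw (.lf 13) (.lf 14)) (.lf 19))), 0, [6, 6, 1, 1], []⟩))
    (.nd (.lf ⟨[.ofNat 0, .ofNat 0, .negSucc 13695, .ofNat 3488, .negSucc 63], (.tw (.lf 19) (.tr (.dx 0 (.lf 7)) (.tw (.lf 13) (.lf 14)) (.lf 11))), 0, [7, 7, 1, 1], []⟩)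
    (.lf ⟨[.ofNat 0, .ofNat 0, .ofNat 21760, .negSucc 1599, .ofNat 5760, .negSucc 1599], (.tr (.dx 0 (.lf 7)) (.tr (.lf 11) (.lf 13) (.lf 14)) (.lf 19)), 0, [0, 0], []⟩)))
    (.nd (.nd (.lf ⟨[.ofNat 0, .ofNat 0, .negSucc 13823, .ofNat 9344], (.tr (.dx 0 (.tr (.lf 7) (.lf 11) (.lf 13))) (.lf 14) (.lf 19)), 0, [0, 2], []⟩)
    (.lf ⟨[.ofNat 0, .ofNat 0, .ofNat 13824, .negSucc 9343], (.tr (.lf 2) (.dx 3 (.tr (.lf 1) (.lf 7) (.lf 11))) (.lf 19)), 3, [0, 2], []⟩))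
    (.nd (.lf ⟨[.ofNat 0, .ofNat 0, .ofNat 3072, .ofNat 768, .negSucc 3135, .negSucc 447], (.tw (.lf 19) (.tr (.dx 0 (.lf 13)) (.tw (.lf 7) (.lf 11)) (.lf 14))), 0, [11, 9, 3, 1], [1023, 1017, 3, 1]⟩)
    (.lf ⟨[.ofNat 0, .ofNat 0, .negSucc 3071, .negSucc 767, .ofNat 3136, .ofNat 448], (.tw (.lf 14) (.tr (.tw (.lf 7) (.lf 11)) (.dx 0 (.lf 13)) (.lf 19))), 0, [8, 10, 11, 9], [1017, 1023, 23, 21]⟩))))

/-- data -/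
def dE2x2 : RT := (.nd (.nd (.nd (.lf ⟨[.ofNat 0, .ofNat 0, .ofNat 13568, .ofNat 15136, .negSucc 1759, .negSucc 959], (.tr (.dx 3 (.tw (.lf 1) (.lf 19))) (.lf 2) (.tw (.lf 7) (.lf 11))), 3, [11, 9, 11, 9], []⟩)
    (.lf ⟨[.ofNat 0, .ofNat 0, .negSucc 13567, .negSucc 15135, .ofNat 1760, .ofNat 960], (.tr (.tw (.lf 7) (.lf 11)) (.dx 0 (.tw (.lf 13) (.lf 19))) (.lf 14)), 0, [8, 20, 10, 22], []⟩))
    (.nd (.lf ⟨[.ofNat 0, .ofNat 0, .ofNat 13312, .negSucc 36863, .ofNat 7296, .negSucc 1599], (.tr (.dx 3 (.lf 1)) (.lf 19) (.tr (.lf 2) (.lf 7) (.lf 11))), 3, [23, 13], [23, 13]⟩)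
    (.lf ⟨[.ofNat 0, .ofNat 0, .negSucc 6655, .ofNat 18432, .negSucc 3647, .ofNat 800], (.tw (.dx 0 (.tr (.tw (.lf 7) (.lf 11)) (.lf 19) (.lf 13))) (.lf 14)), 0, [12, 14, 0, 2], []⟩)))
    (.nd (.nd (.lf ⟨[.ofNat 0, .negSucc 5247, .ofNat 10240, .negSucc 159], (.tr (.lf 14) (.tr (.dx 0 (.lf 13)) (.lf 11) (.tr (.lf 5) (.lf 17) (.lf 6))) (.lf 18)), 0, [1017, 1017, 1017, 1017], [2, 2, 15, 15]⟩)
    (.lf ⟨[.ofNat 0, .ofNat 0, .ofNat 0, .ofNat 30208, .negSucc 20991, .ofNat 1472], (.tr (.lf 7) (.tr (.lf 11) (.dx 0 (.lf 13)) (.lf 19)) (.lf 14)), 0, [8, 16], [20, 16]⟩))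
    (.nd (.lf ⟨[.ofNat 0, .ofNat 0, .negSucc 27391, .ofNat 47168, .ofNat 16400, .ofNat 288], (.tr (.lf 14) (.lf 7) (.tr (.dx 0 (.lf 13)) (.lf 19) (.lf 11))), 0, [19, 3], [19, 15]⟩)
    (.lf ⟨[.ofNat 0, .ofNat 0, .ofNat 13696, .negSucc 19999, .negSucc 3015, .negSucc 879], (.tw (.dx 0 (.lf 13)) (.tr (.lf 14) (.tw (.lf 7) (.lf 11)) (.lf 19))), 0, [0, 2, 0, 2], [0, 2, 12, 14]⟩))))

/-- data -/
def dE2x3 : RT := (.nd (.nd (.nd (.lf ⟨[.ofNat 0, .ofNat 0, .negSucc 13695, .ofNat 21216, .ofNat 3016, .ofNat 880], (.tw (.lf 2) (.tr (.dx 3 (.lf 1)) (.tw (.lf 7) (.lf 11)) (.lf 19))), 3, [0, 2, 12, 14], [0, 2, 12, 14]⟩)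
    (.lf ⟨[.ofNat 0, .ofNat 0, .ofNat 27392, .negSucc 42431, .negSucc 6031, .negSucc 1759], (.tr (.dx 3 (.lf 1)) (.lf 7) (.tr (.lf 2) (.lf 19) (.lf 11))), 3, [19, 15], [19, 15]⟩))
    (.nd (.lf ⟨[.ofNat 0, .ofNat 0, .negSucc 2815, .ofNat 4864, .ofNat 3520], (.tr (.lf 19) (.lf 7) (.tr (.lf 11) (.dx 0 (.lf 13)) (.lf 14))), 0, [20, 7], [1017, 7]⟩)
    (.lf ⟨[.ofNat 0, .ofNat 0, .ofNat 2816, .negSucc 4863, .negSucc 3519], (.tr (.lf 7) (.dx 0 (.lf 13)) (.tr (.lf 14) (.lf 11) (.lf 19))), 0, [4, 4], [4, 16]⟩)))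
    (.nd (.nd (.lf ⟨[.ofNat 0, .ofNat 0, .negSucc 9983, .ofNat 3904, .ofNat 3136, .ofNat 448], (.tw (.dx 0 (.lf 13)) (.tr (.tw (.lf 7) (.lf 11)) (.lf 14) (.lf 19))), 0, [0, 2, 11, 9], [0, 2, 11, 9]⟩)
    (.lf ⟨[.ofNat 0, .ofNat 0, .ofNat 13824, .negSucc 6911], (.tr (.dx 0 (.lf 13)) (.tr (.lf 11) (.lf 14) (.lf 19)) (.lf 7)), 0, [2, 9], [2, 9]⟩))
    (.nd (.lf ⟨[.ofNat 0, .ofNat 0, .negSucc 26943, .negSucc 11391, .ofNat 10616, .ofNat 816], (.tw (.dx 0 (.lf 13)) (.tr (.lf 7) (.tw (.lf 14) (.lf 19)) (.lf 11))), 0, [0, 0, 2, 2], [0, 12, 2, 14]⟩)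
    (.lf ⟨[.ofNat 0, .ofNat 0, .ofNat 576, .negSucc 2879, .ofNat 2192, .negSucc 223], (.tr (.lf 2) (.dx 3 (.tw (.lf 1) (.lf 19))) (.tw (.lf 7) (.lf 11))), 3, [11, 9, 11, 9], []⟩))))

/-- data -/
def dE2x4 : RT := (.nd (.nd (.nd (.lf ⟨[.ofNat 0, .ofNat 0, .negSucc 575, .ofNat 2496, .negSucc 2191, .ofNat 224], (.tr (.dx 0 (.tw (.lf 13) (.lf 19))) (.lf 14) (.tw (.lf 7) (.lf 11))), 0, [11, 9, 11, 9], []⟩)
    (.lf ⟨[.ofNat 0, .ofNat 0, .ofNat 53888, .ofNat 22784, .negSucc 21231, .negSucc 1631], (.tr (.lf 2) (.dx 3 (.tr (.lf 1) (.lf 7) (.lf 19))) (.lf 11)), 3, [0, 7], []⟩))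
    (.nd (.lf ⟨[.ofNat 0, .ofNat 0, .negSucc 53887, .negSucc 22783, .ofNat 21232, .ofNat 1632], (.tr (.dx 0 (.tr (.lf 7) (.lf 19) (.lf 13))) (.lf 14) (.lf 11)), 0, [12, 7], []⟩)
    (.lf ⟨[.ofNat 0, .ofNat 0, .ofNat 20032, .ofNat 14848, .negSucc 10615, .negSucc 815], (.tw (.lf 2) (.tr (.lf 7) (.tw (.dx 3 (.lf 1)) (.lf 19)) (.lf 11))), 3, [0, 12, 2, 14], [0, 12, 2, 14]⟩)))
    (.nd (.nd (.lf ⟨[.ofNat 0, .ofNat 0, .negSucc 13311, .ofNat 34560, .negSucc 1983, .ofNat 1600], (.tr (.tw (.dx 0 (.tw (.lf 7) (.lf 13))) (.lf 14)) (.lf 19) (.lf 11)), 0, [0, 0, 19, 19], []⟩)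
    (.lf ⟨[.ofNat 0, .ofNat 0, .ofNat 0, .negSucc 4863, .ofNat 2816], (.tr (.dx 0 (.tr (.lf 7) (.lf 11) (.lf 13))) (.lf 19) (.lf 14)), 0, [0, 2], []⟩))
    (.nd (.lf ⟨[.ofNat 0, .ofNat 0, .ofNat 8320, .ofNat 8608, .negSucc 9663, .ofNat 160], (.tr (.dx 3 (.tw (.lf 1) (.lf 19))) (.tw (.lf 7) (.lf 11)) (.lf 2)), 3, [3, 1, 3, 1], []⟩)
    (.lf ⟨[.ofNat 0, .ofNat 0, .ofNat 6656, .ofNat 3840, .negSucc 3871, .negSucc 159], (.tw (.dx 3 (.tr (.tw (.lf 7) (.lf 11)) (.lf 1) (.lf 19))) (.lf 2)), 3, [3, 1, 3, 1], []⟩))))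

/-- data -/
def dE2x5 : RT := (.nd (.nd (.nd (.lf ⟨[.ofNat 0, .ofNat 0, .negSucc 5631, .ofNat 5376, .ofNat 5632, .negSucc 1599], (.tr (.dx 0 (.tr (.lf 7) (.lf 13) (.lf 14))) (.lf 11) (.lf 19)), 0, [0, 0], []⟩)
    (.lf ⟨[.ofNat 0, .ofNat 0, .ofNat 0, .ofNat 8960, .ofNat 2496], (.tr (.dx 0 (.tr (.lf 7) (.lf 13) (.lf 14))) (.lf 19) (.lf 11)), 0, [0, 19], []⟩))
    (.nd (.lf ⟨[.ofNat 0, .ofNat 0, .negSucc 6655, .ofNat 18432, .ofNat 3840, .negSucc 319], (.tr (.dx 0 (.tw (.lf 7) (.lf 19))) (.tw (.lf 13) (.lf 14)) (.lf 11)), 0, [12, 12, 12, 12], []⟩)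
    (.lf ⟨[.ofNat 0, .ofNat 0, .ofNat 0, .negSucc 4479, .negSucc 1247], (.tw (.lf 1) (.tr (.lf 7) (.tr (.dx 3 .on) (.lf 2) (.lf 19)) (.lf 11))), 3, [0, 12, 2, 14], [0, 12, 2, 14]⟩)))
    (.nd (.nd (.lf ⟨[.ofNat 0, .ofNat 0, .negSucc 511, .ofNat 12800, .negSucc 9023, .negSucc 319], (.tr (.dx 0 (.tr (.lf 7) (.lf 19) (.lf 13))) (.lf 11) (.lf 14)), 0, [12, 0], []⟩)
    (.lf ⟨[.ofNat 0, .ofNat 0, .negSucc 13311, .negSucc 15871, .ofNat 9280, .ofNat 320], (.tw (.dx 3 (.tr (.lf 7) (.tw (.lf 1) (.lf 11)) (.lf 19))) (.lf 2)), 3, [3, 3, 1, 1], []⟩))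
    (.nd (.lf ⟨[.ofNat 0, .negSucc 26623, .ofNat 62976, .ofNat 82112, .ofNat 10944, .negSucc 639], (.tr (.dx 0 (.tr (.lf 7) (.lf 13) (.lf 19))) (.lf 14) (.lf 11)), 0, [0, 7], []⟩)
    (.lf ⟨[.ofNat 0, .ofNat 0, .negSucc 511, .negSucc 33279, .ofNat 1984, .negSucc 1599], (.tr (.lf 2) (.tw (.dx 3 (.tw (.lf 1) (.lf 7))) (.lf 19)) (.lf 11)), 3, [0, 0, 11, 7], []⟩))))

/-- data -/
def dE2x6 : RT := (.nd (.nd (.nd (.lf ⟨[.ofNat 0, .ofNat 0, .ofNat 65600, .negSucc 13503, .negSucc 7935, .ofNat 448], (.tr (.lf 11) (.dx 0 (.tr (.lf 7) (.lf 13) (.lf 19))) (.lf 14)), 0, [6, 18], []⟩)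
    (.lf ⟨[.ofNat 0, .ofNat 0, .negSucc 511, .negSucc 48895, .ofNat 12224, .negSucc 1919], (.tr (.dx 3 (.tw (.lf 1) (.lf 7))) (.tw (.lf 2) (.lf 19)) (.lf 11)), 3, [19, 19, 19, 19], []⟩))
    (.nd (.lf ⟨[.ofNat 0, .ofNat 0, .ofNat 512, .ofNat 45568, .negSucc 6783, .ofNat 1600], (.tr (.dx 3 (.tw (.lf 1) (.lf 7))) (.lf 19) (.tw (.lf 2) (.lf 11))), 3, [19, 15, 19, 15], []⟩)
    (.lf ⟨[.ofNat 0, .ofNat 0, .negSucc 16639, .negSucc 12351, .ofNat 16512, .negSucc 319], (.tr (.dx 3 (.tw (.lf 1) (.lf 19))) (.lf 7) (.tw (.lf 2) (.lf 11))), 3, [7, 3, 7, 3], []⟩)))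
    (.nd (.nd (.lf ⟨[.ofNat 0, .ofNat 0, .negSucc 3967, .negSucc 4063, .negSucc 1119, .ofNat 160], (.tw (.dx 0 (.tr (.lf 7) (.lf 19) (.tw (.lf 13) (.lf 14)))) (.lf 11)), 0, [7, 7, 19, 19], []⟩)
    (.lf ⟨[.ofNat 0, .ofNat 0, .ofNat 0, .negSucc 2047, .negSucc 1951, .ofNat 160], (.tw (.dx 0 (.tr (.tw (.lf 13) (.lf 14)) (.lf 7) (.lf 19))) (.lf 11)), 0, [19, 19, 7, 7], []⟩))
    (.nd (.lf ⟨[.ofNat 0, .ofNat 0, .ofNat 0, .ofNat 6528, .ofNat 4256, .negSucc 319], (.tr (.lf 1) (.lf 19) (.tr (.lf 7) (.tw (.dx 3 .on) (.lf 2)) (.lf 11))), 3, [7, 12, 5, 14], [7, 12, 5, 14]⟩)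
    (.lf ⟨[.ofNat 0, .ofNat 0, .ofNat 2816, .negSucc 2687, .negSucc 2815, .ofNat 800], (.tr (.lf 1) (.tr (.lf 7) (.tw (.dx 3 .on) (.lf 2)) (.lf 11)) (.lf 19)), 3, [0, 0, 2, 2], [0, 0, 2, 2]⟩))))

/-- data -/
def dE2x7 : RT := (.nd (.nd (.nd (.lf ⟨[.ofNat 0, .ofNat 0, .ofNat 5632, .negSucc 1791], (.tw (.lf 1) (.tr (.dx 3 .on) (.tr (.lf 7) (.lf 2) (.lf 11)) (.lf 19))), 3, [0, 2, 12, 14], [0, 2, 12, 14]⟩)
    (.lf ⟨[.ofNat 0, .ofNat 0, .negSucc 2815, .ofNat 896, .ofNat 2816, .negSucc 799], (.tw (.dx 3 .on) (.tr (.lf 1) (.lf 19) (.tr (.lf 7) (.lf 2) (.lf 11)))), 3, [19, 17, 15, 13], [19, 17, 15, 13]⟩))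
    (.nd (.lf ⟨[.ofNat 0, .ofNat 0, .ofNat 3968, .ofNat 4064, .ofNat 1120, .negSucc 159], (.tw (.lf 1) (.tr (.lf 7) (.tr (.lf 2) (.dx 3 .on) (.lf 19)) (.lf 11))), 3, [0, 7, 2, 5], [0, 12, 2, 14]⟩)
    (.lf ⟨[.ofNat 0, .ofNat 33280, .negSucc 39935, .negSucc 49343, .negSucc 23871], (.tr (.dx 3 (.lf 7)) (.tr (.lf 1) (.lf 11) (.lf 19)) (.lf 2)), 3, [15, 15], []⟩)))
    (.nd (.nd (.lf ⟨[.ofNat 0, .negSucc 26623, .ofNat 30720, .ofNat 54784, .ofNat 26240, .ofNat 320], (.tr (.dx 3 (.lf 7)) (.lf 1) (.tr (.lf 2) (.lf 19) (.lf 11))), 3, [19, 15], []⟩)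
    (.lf ⟨[.ofNat 0, .negSucc 6655, .negSucc 33279, .negSucc 42495, .negSucc 23231, .negSucc 319], (.tr (.lf 1) (.lf 19) (.tr (.dx 3 (.lf 7)) (.lf 2) (.lf 11))), 3, [7, 14], []⟩))
    (.nd (.lf ⟨[.ofNat 0, .ofNat 0, .negSucc 8447, .negSucc 9951, .ofNat 1504, .negSucc 159], (.tw (.dx 3 (.lf 7)) (.tr (.tw (.lf 1) (.lf 2)) (.lf 19) (.lf 11))), 3, [19, 19, 15, 15], []⟩)
    (.lf ⟨[.ofNat 0, .ofNat 0, .ofNat 5888, .ofNat 21856, .negSucc 2991, .ofNat 160], (.tw (.lf 11) (.tr (.dx 3 (.lf 7)) (.tw (.lf 1) (.lf 2)) (.lf 19))), 3, [10, 10, 18, 18], []⟩))))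

/-- data -/
def dE2x8 : RT := (.nd (.nd (.nd (.lf ⟨[.ofNat 0, .ofNat 6656, .negSucc 23807, .ofNat 4736, .negSucc 1087], (.tr (.lf 11) (.dx 3 (.lf 7)) (.tr (.lf 1) (.lf 2) (.lf 19))), 3, [10, 13], []⟩)
    (.lf ⟨[.ofNat 0, .ofNat 6656, .ofNat 64512, .negSucc 67199, .ofNat 20032, .ofNat 1600], (.tr (.lf 11) (.tr (.dx 3 (.lf 7)) (.lf 1) (.lf 2)) (.lf 19)), 3, [10, 6], []⟩))
    (.nd (.lf ⟨[.ofNat 0, .negSucc 6655, .negSucc 32511, .ofNat 44032, .negSucc 21247, .negSucc 1279], (.tr (.lf 11) (.lf 1) (.tr (.lf 2) (.dx 3 (.lf 7)) (.lf 19))), 3, [6, 18], []⟩)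
    (.lf ⟨[.ofNat 0, .ofNat 0, .negSucc 2559, .ofNat 12096, .ofNat 288, .negSucc 159], (.tw (.lf 11) (.tr (.tw (.lf 1) (.lf 2)) (.dx 3 (.lf 7)) (.lf 19))), 3, [6, 6, 1, 1], []⟩)))
    (.nd (.nd (.lf ⟨[.ofNat 0, .ofNat 6656, .negSucc 45439, .negSucc 32671, .negSucc 19887, .negSucc 959], (.tw (.lf 19) (.tr (.tw (.lf 1) (.lf 2)) (.dx 3 (.lf 7)) (.lf 11))), 3, [11, 11, 1, 1], []⟩)
    (.lf ⟨[.ofNat 0, .negSucc 13311, .ofNat 111872, .ofNat 68160, .ofNat 39136, .ofNat 1920], (.tr (.lf 1) (.tr (.lf 2) (.dx 3 (.lf 7)) (.lf 11)) (.lf 19)), 3, [0, 2], []⟩))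
    (.nd (.lf ⟨[.ofNat 0, .ofNat 0, .ofNat 13824, .negSucc 1791, .negSucc 8319, .ofNat 320], (.tr (.dx 3 (.tw (.lf 1) (.lf 7))) (.lf 2) (.tw (.lf 11) (.lf 19))), 3, [0, 19, 4, 19], []⟩)
    (.lf ⟨[.ofNat 0, .ofNat 26624, .negSucc 58623, .negSucc 55871, .negSucc 6591, .ofNat 2240], (.tr (.tw (.lf 2) (.lf 19)) (.dx 3 (.tw (.lf 1) (.lf 7))) (.lf 11)), 3, [11, 7, 11, 7], []⟩))))

/-- data -/
def dE2x9 : RT := (.nd (.nd (.nd (.lf ⟨[.ofNat 0, .ofNat 0, .ofNat 0, .ofNat 768, .negSucc 5503], (.tr (.tw (.dx 3 (.tw (.lf 1) (.lf 7))) (.lf 11)) (.lf 2) (.lf 19)), 3, [0, 4, 6, 10], []⟩)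
    (.lf ⟨[.ofNat 0, .ofNat 0, .negSucc 5055, .negSucc 17599, .negSucc 895, .negSucc 127], (.tr (.dx 3 (.lf 19)) (.lf 1) (.tr (.lf 2) (.lf 7) (.lf 11))), 3, [11, 1], []⟩))
    (.nd (.lf ⟨[.ofNat 0, .ofNat 0, .negSucc 1599, .ofNat 37056, .negSucc 383, .ofNat 128], (.tr (.lf 7) (.lf 11) (.tr (.dx 3 (.lf 19)) (.lf 1) (.lf 2))), 3, [3, 8], []⟩)
    (.lf ⟨[.ofNat 0, .ofNat 0, .ofNat 22592, .negSucc 37567, .ofNat 384, .negSucc 127], (.tr (.lf 1) (.tr (.lf 2) (.dx 3 (.lf 19)) (.lf 11)) (.lf 7)), 3, [2, 2], []⟩)))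
    (.nd (.nd (.lf ⟨[.ofNat 0, .negSucc 26623, .ofNat 56064, .negSucc 55551, .negSucc 40191, .negSucc 287], (.tr (.dx 3 (.tr (.lf 1) (.lf 19) (.lf 7))) (.lf 11) (.lf 2)), 3, [3, 3], []⟩)
    (.lf ⟨[.ofNat 0, .ofNat 0, .ofNat 256, .ofNat 15872, .ofNat 4256, .negSucc 319], (.tw (.dx 3 (.tr (.lf 1) (.tw (.lf 7) (.lf 19)) (.lf 2))) (.lf 11)), 3, [7, 7, 7, 7], []⟩))
    (.nd (.lf ⟨[.ofNat 0, .ofNat 0, .ofNat 0, .ofNat 0, .ofNat 2816, .negSucc 799], (.tw (.dx 3 (.tr (.lf 7) (.tw (.lf 1) (.lf 19)) (.lf 11))) (.lf 2)), 3, [3, 3, 1, 1], []⟩)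
    (.lf ⟨[.ofNat 0, .ofNat 0, .ofNat 0, .negSucc 7423, .negSucc 4095, .ofNat 1600], (.tr (.dx 0 (.tw (.lf 7) (.lf 13))) (.lf 19) (.tw (.lf 11) (.lf 14))), 0, [0, 0, 0, 0], []⟩))))

/-- data -/
def dE2x10 : RT := (.nd (.nd (.nd (.lf ⟨[.ofNat 0, .negSucc 26623, .ofNat 45312, .ofNat 90176, .ofNat 19776, .negSucc 2879], (.tr (.tw (.dx 0 (.tw (.lf 7) (.lf 13))) (.lf 19)) (.lf 14) (.lf 11)), 0, [0, 0, 7, 7], []⟩)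
    (.lf ⟨[.ofNat 0, .ofNat 26624, .negSucc 58623, .negSucc 57407, .negSucc 8703, .ofNat 640], (.tr (.tw (.lf 2) (.lf 7)) (.dx 3 (.tw (.lf 1) (.lf 19))) (.lf 11)), 3, [0, 0, 4, 4], []⟩))
    (.nd (.lf ⟨[.ofNat 0, .ofNat 0, .negSucc 1663, .ofNat 4160, .negSucc 159], (.tr (.lf 19) (.lf 5) (.tr (.dx 0 .on) (.tr (.lf 13) (.lf 6) (.lf 14)) (.lf 11))), 0, [11, 11, 1, 1], [11, 11, 1, 1]⟩)
    (.lf ⟨[.ofNat 0, .ofNat 0, .negSucc 2431, .ofNat 240, .ofNat 80], (.tr (.lf 19) (.lf 11) (.tr (.dx 0 (.tw (.lf 5) (.lf 6))) (.lf 13) (.lf 14))), 0, [18, 18, 1, 1], []⟩)))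
    (.nd (.nd (.lf ⟨[.ofNat 0, .ofNat 0, .negSucc 6911, .ofNat 1280], (.tr (.dx 0 (.lf 11)) (.lf 5) (.tr (.lf 13) (.tw (.lf 6) (.lf 19)) (.lf 14))), 0, [2, 2, 2, 2], []⟩)
    (.lf ⟨[.ofNat 0, .ofNat 0, .negSucc 1663, .ofNat 4672, .negSucc 159], (.tw (.lf 13) (.tr (.dx 0 (.lf 11)) (.tr (.lf 5) (.lf 14) (.lf 6)) (.lf 19))), 0, [2, 2, 3, 3], []⟩))
    (.nd (.lf ⟨[.ofNat 0, .ofNat 0, .ofNat 13824, .negSucc 2559], (.tr (.dx 0 (.lf 11)) (.tr (.lf 5) (.lf 13) (.tw (.lf 6) (.lf 19))) (.lf 14)), 0, [2, 2, 14, 14], []⟩)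
    (.lf ⟨[.ofNat 0, .ofNat 0, .negSucc 6911, .ofNat 1280], (.tw (.dx 0 (.lf 11)) (.tr (.lf 5) (.lf 19) (.tr (.lf 13) (.lf 6) (.lf 14)))), 0, [14, 14, 2, 2], []⟩))))

/-- data -/
def dE2x11 : RT := (.nd (.nd (.nd (.lf ⟨[.ofNat 0, .ofNat 0, .negSucc 20735, .ofNat 5056, .ofNat 160], (.tw (.dx 0 (.lf 11)) (.tr (.lf 19) (.lf 5) (.tr (.lf 13) (.lf 6) (.lf 14)))), 0, [14, 14, 2, 2], []⟩)
    (.lf ⟨[.ofNat 0, .ofNat 0, .ofNat 20736, .negSucc 5055, .negSucc 159], (.tw (.lf 19) (.tr (.dx 0 (.lf 11)) (.tr (.lf 13) (.lf 5) (.lf 14)) (.lf 6))), 0, [5, 5, 3, 3], []⟩))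
    (.nd (.lf ⟨[.ofNat 0, .ofNat 0, .ofNat 0, .negSucc 4351], (.tr (.dx 0 (.lf 11)) (.lf 19) (.tr (.tw (.lf 5) (.lf 13)) (.lf 6) (.lf 14))), 0, [14, 14, 14, 14], []⟩)
    (.lf ⟨[.ofNat 0, .ofNat 0, .ofNat 0, .ofNat 2176], (.tw (.lf 5) (.tr (.dx 0 (.lf 11)) (.lf 19) (.tr (.lf 13) (.lf 6) (.lf 14)))), 0, [16, 16, 15, 15], []⟩)))
    (.nd (.nd (.lf ⟨[.ofNat 0, .ofNat 0, .negSucc 5247, .negSucc 703, .ofNat 160], (.tr (.dx 0 (.tw (.lf 5) (.lf 11))) (.tr (.lf 13) (.lf 6) (.lf 14)) (.lf 19)), 0, [0, 0, 2, 2], []⟩)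
    (.lf ⟨[.ofNat 0, .ofNat 0, .ofNat 6912, .negSucc 3455], (.tr (.lf 5) (.tr (.lf 14) (.tw (.dx 0 (.lf 13)) (.lf 11)) (.lf 19)) (.lf 6)), 0, [21, 8, 9, 20], [1023, 1023, 1023, 1023]⟩))
    (.nd (.lf ⟨[.ofNat 0, .ofNat 0, .ofNat 1664, .negSucc 9023, .ofNat 160], (.tr (.lf 5) (.tr (.tw (.lf 11) (.lf 14)) (.dx 0 (.lf 13)) (.lf 19)) (.lf 6)), 0, [8, 8, 9, 9], [8, 1023, 1023, 9]⟩)
    (.lf ⟨[.ofNat 0, .ofNat 0, .negSucc 6911, .ofNat 3968], (.tr (.lf 14) (.tr (.lf 5) (.tw (.dx 0 (.lf 13)) (.lf 11)) (.lf 6)) (.lf 19)), 0, [21, 8, 21, 8], [1023, 1023, 1023, 1023]⟩))))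

/-- data -/
def dE2x12 : RT := (.nd (.nd (.nd (.lf ⟨[.ofNat 0, .ofNat 0, .ofNat 6912, .negSucc 3455], (.tw (.lf 11) (.tr (.lf 5) (.tr (.lf 14) (.dx 0 (.lf 13)) (.lf 19)) (.lf 6))), 0, [10, 22, 10, 22], [10, 22, 10, 22]⟩)
    (.lf ⟨[.ofNat 0, .ofNat 0, .ofNat 1664, .negSucc 4671, .ofNat 160], (.tr (.dx 0 (.tr (.lf 5) (.lf 13) (.lf 6))) (.lf 11) (.tw (.lf 14) (.lf 19))), 0, [0, 0, 0, 0], []⟩))
    (.nd (.lf ⟨[.ofNat 0, .ofNat 33280, .negSucc 1343, .negSucc 62127, .negSucc 12767], (.tr (.tw (.dx 0 (.tr (.lf 5) (.lf 13) (.lf 6))) (.lf 11)) (.lf 19) (.lf 14)), 0, [0, 0, 6, 6], []⟩)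
    (.lf ⟨[.ofNat 0, .ofNat 0, .ofNat 12160, .ofNat 3584, .negSucc 319], (.tr (.dx 0 (.tr (.lf 5) (.lf 13) (.lf 6))) (.tw (.lf 11) (.lf 19)) (.lf 14)), 0, [0, 0, 0, 0], []⟩)))
    (.nd (.nd (.lf ⟨[.ofNat 0, .ofNat 0, .ofNat 27648, .negSucc 15871], (.tr (.lf 5) (.tr (.dx 0 (.lf 13)) (.tw (.lf 6) (.lf 19)) (.lf 11)) (.lf 14)), 0, [4, 4, 20, 20], [16, 16, 20, 20]⟩)
    (.lf ⟨[.ofNat 0, .ofNat 0, .ofNat 0, .ofNat 864, .negSucc 79], (.tr (.lf 11) (.tw (.dx 0 (.tr (.lf 5) (.lf 13) (.lf 6))) (.lf 14)) (.lf 19)), 0, [6, 6, 6, 6], []⟩))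
    (.nd (.lf ⟨[.ofNat 0, .ofNat 0, .ofNat 15488, .negSucc 10111], (.tr (.dx 0 (.tw (.lf 11) (.lf 13))) (.lf 19) (.tr (.lf 5) (.lf 14) (.lf 6))), 0, [2, 2, 5, 5], []⟩)
    (.lf ⟨[.ofNat 0, .ofNat 0, .ofNat 0, .negSucc 511], (.tr (.lf 2) (.tw (.dx 3 (.tr (.lf 1) (.lf 19) (.lf 5))) (.lf 11)) (.lf 6)), 3, [9, 9, 2, 2], []⟩))))

/-- data -/
def dE2x13 : RT := (.nd (.nd (.nd (.lf ⟨[.ofNat 0, .ofNat 0, .negSucc 17151, .ofNat 13312], (.tw (.lf 5) (.tr (.lf 14) (.lf 11) (.tr (.dx 0 (.lf 13)) (.lf 19) (.lf 6)))), 0, [8, 1, 4, 16], [1023, 8, 16, 16]⟩)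
    (.lf ⟨[.ofNat 0, .ofNat 0, .ofNat 4480, .ofNat 2304, .negSucc 159], (.tr (.dx 0 (.tw (.lf 13) (.lf 14))) (.tr (.lf 5) (.lf 11) (.lf 19)) (.lf 6)), 0, [21, 21, 21, 21], []⟩))
    (.nd (.lf ⟨[.ofNat 0, .ofNat 0, .negSucc 4479, .negSucc 2303, .ofNat 160], (.tr (.dx 0 (.tw (.lf 13) (.lf 14))) (.lf 19) (.tr (.lf 5) (.lf 6) (.lf 11))), 0, [23, 21, 23, 21], []⟩)
    (.lf ⟨[.ofNat 0, .ofNat 0, .negSucc 2239, .negSucc 1151, .ofNat 80], (.tw (.dx 0 (.tw (.lf 13) (.lf 14))) (.tr (.lf 5) (.tw (.lf 11) (.lf 19)) (.lf 6))), 0, [21, 21, 21, 21, 21, 21, 21, 21], []⟩)))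
    (.nd (.nd (.lf ⟨[.ofNat 0, .ofNat 0, .negSucc 1023, .negSucc 975, .ofNat 80], (.tw (.dx 0 (.tw (.lf 13) (.lf 14))) (.tr (.lf 11) (.tw (.lf 5) (.lf 6)) (.lf 19))), 0, [2, 2, 23, 23, 2, 2, 23, 23], []⟩)
    (.lf ⟨[.ofNat 0, .ofNat 0, .negSucc 5247, .negSucc 703, .ofNat 160], (.tr (.tw (.dx 0 (.tr (.lf 13) (.lf 5) (.lf 14))) (.lf 6)) (.lf 11) (.lf 19)), 0, [0, 0, 4, 4], []⟩))
    (.nd (.lf ⟨[.ofNat 0, .ofNat 0, .ofNat 6912, .negSucc 3455], (.tr (.lf 6) (.tw (.dx 0 (.tr (.lf 13) (.lf 5) (.lf 14))) (.lf 11)) (.lf 19)), 0, [4, 4, 8, 8], []⟩)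
    (.lf ⟨[.ofNat 0, .ofNat 0, .negSucc 1663, .ofNat 4160, .negSucc 159], (.tr (.lf 6) (.dx 0 (.tr (.lf 13) (.lf 5) (.lf 14))) (.tw (.lf 11) (.lf 19))), 0, [4, 4, 4, 4], []⟩))))

/-- data -/
def dE2x14 : RT := (.nd (.nd (.nd (.lf ⟨[.ofNat 0, .ofNat 0, .ofNat 0, .negSucc 863, .ofNat 80], (.tr (.tw (.dx 0 (.tr (.lf 13) (.lf 5) (.lf 14))) (.lf 6)) (.lf 19) (.lf 11)), 0, [23, 23, 4, 4], []⟩)
    (.lf ⟨[.ofNat 0, .ofNat 0, .ofNat 0, .ofNat 1728, .negSucc 159], (.tr (.lf 11) (.lf 19) (.tr (.dx 0 (.tw (.lf 5) (.lf 13))) (.lf 14) (.lf 6))), 0, [18, 5, 1, 1], [1015, 1023]⟩))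
    (.nd (.lf ⟨[.ofNat 0, .ofNat 0, .ofNat 1664, .negSucc 4159, .ofNat 160], (.tr (.lf 6) (.tw (.dx 0 (.tr (.lf 13) (.lf 5) (.lf 14))) (.lf 19)) (.lf 11)), 0, [4, 4, 7, 7], []⟩)
    (.lf ⟨[.ofNat 0, .ofNat 0, .negSucc 8575, .ofNat 512, .ofNat 320], (.tr (.tw (.lf 6) (.lf 19)) (.dx 0 (.tr (.lf 13) (.lf 5) (.lf 14))) (.lf 11)), 0, [7, 7, 7, 7], []⟩)))
    (.nd (.nd (.lf ⟨[.ofNat 0, .ofNat 0, .negSucc 6911, .ofNat 3968], (.tr (.tw (.dx 0 (.tr (.lf 13) (.lf 5) (.lf 14))) (.lf 11)) (.lf 6) (.lf 19)), 0, [0, 0, 6, 6], []⟩)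
    (.lf ⟨[.ofNat 0, .ofNat 0, .ofNat 0, .negSucc 511], (.tr (.dx 0 (.tr (.lf 13) (.lf 5) (.lf 14))) (.lf 11) (.tw (.lf 6) (.lf 19))), 0, [0, 21, 0, 21], []⟩))
    (.nd (.lf ⟨[.ofNat 0, .ofNat 0, .ofNat 0, .negSucc 1727, .ofNat 160], (.tr (.lf 11) (.lf 19) (.tr (.lf 2) (.dx 3 (.tw (.lf 1) (.lf 5))) (.lf 6))), 3, [5, 5, 1, 1], [1015, 1023]⟩)
    (.lf ⟨[.ofNat 0, .ofNat 0, .ofNat 13824, .negSucc 6911], (.tr (.lf 6) (.tw (.dx 0 (.tr (.lf 11) (.lf 5) (.lf 13))) (.lf 14)) (.lf 19)), 0, [4, 4, 4, 4], []⟩))))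

/-- data -/
def dE2x15 : RT := (.nd (.nd (.nd (.lf ⟨[.ofNat 0, .ofNat 0, .negSucc 6911, .ofNat 3456], (.tr (.tw (.lf 2) (.lf 6)) (.dx 3 (.tr (.lf 1) (.lf 11) (.lf 5))) (.lf 19)), 3, [0, 0, 4, 4], []⟩)
    (.lf ⟨[.ofNat 0, .ofNat 0, .negSucc 13823, .ofNat 6912], (.tr (.dx 0 (.tr (.lf 11) (.lf 5) (.lf 13))) (.lf 14) (.tw (.lf 6) (.lf 19))), 0, [2, 2, 0, 0], []⟩))
    (.nd (.lf ⟨[.ofNat 0, .ofNat 0, .ofNat 6912, .negSucc 3455], (.tr (.lf 2) (.tw (.dx 3 (.tr (.lf 1) (.lf 11) (.lf 5))) (.lf 19)) (.lf 6)), 3, [2, 0, 9, 5], []⟩)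
    (.lf ⟨[.ofNat 0, .negSucc 8319, .ofNat 21088, .ofNat 5288, .negSucc 2447, .negSucc 63], (.tr (.dx 0 (.tr (.lf 11) (.lf 13) (.lf 14))) (.lf 19) (.tw (.lf 5) (.lf 6))), 0, [17, 17, 17, 17], []⟩)))
    (.nd (.nd (.lf ⟨[.ofNat 0, .ofNat 8320, .negSucc 17119, .negSucc 3271, .ofNat 2512, .ofNat 64], (.tr (.dx 0 (.tr (.lf 5) (.lf 11) (.tw (.lf 13) (.lf 14)))) (.lf 19) (.lf 6)), 0, [0, 0, 17, 17], []⟩)
    (.lf ⟨[.ofNat 0, .ofNat 0, .negSucc 3967, .ofNat 416, .negSucc 63], (.tw (.dx 0 (.tr (.lf 5) (.tr (.lf 11) (.lf 13) (.lf 14)) (.lf 6))) (.lf 19)), 0, [0, 0, 0, 0], []⟩))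
    (.nd (.lf ⟨[.ofNat 0, .ofNat 0, .ofNat 6912, .negSucc 3967], (.tw (.dx 0 (.tr (.lf 5) (.tr (.lf 13) (.lf 6) (.lf 14)) (.lf 11))) (.lf 19)), 0, [0, 0, 2, 2], []⟩)
    (.lf ⟨[.ofNat 0, .ofNat 0, .ofNat 0, .negSucc 2431], (.tw (.dx 0 (.tw (.lf 5) (.tr (.lf 6) (.tw (.lf 13) (.lf 14)) (.lf 11)))) (.lf 19)), 0, [0, 0, 0, 0, 0, 0, 2, 2], []⟩))))

/-- data -/
def dE2x16 : RT := (.nd (.nd (.nd (.lf ⟨[.ofNat 0, .ofNat 0, .ofNat 6912, .ofNat 2368, .negSucc 159], (.tr (.dx 0 (.lf 19)) (.lf 13) (.tr (.lf 11) (.tw (.lf 5) (.lf 6)) (.lf 14))), 0, [14, 14, 11, 11], []⟩)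
    (.lf ⟨[.ofNat 0, .ofNat 0, .negSucc 13823, .negSucc 4735, .ofNat 320], (.tr (.dx 0 (.lf 19)) (.lf 13) (.tr (.tw (.lf 5) (.lf 14)) (.lf 6) (.lf 11))), 0, [11, 11, 14, 9], []⟩))
    (.nd (.lf ⟨[.ofNat 0, .ofNat 0, .ofNat 6912, .negSucc 3967], (.tw (.dx 0 (.lf 19)) (.tr (.lf 11) (.lf 5) (.tr (.lf 13) (.lf 6) (.lf 14)))), 0, [14, 14, 11, 11], []⟩)
    (.lf ⟨[.ofNat 0, .ofNat 0, .negSucc 6911, .ofNat 3968], (.tw (.lf 13) (.tr (.dx 0 (.lf 19)) (.lf 11) (.tr (.lf 5) (.lf 14) (.lf 6)))), 0, [9, 9, 15, 15], []⟩)))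
    (.nd (.nd (.lf ⟨[.ofNat 0, .ofNat 0, .ofNat 13824, .ofNat 5760, .negSucc 319], (.tr (.dx 0 (.lf 19)) (.tr (.lf 5) (.lf 13) (.tw (.lf 6) (.lf 14))) (.lf 11)), 0, [12, 11, 11, 11], []⟩)
    (.lf ⟨[.ofNat 0, .ofNat 0, .ofNat 6912, .negSucc 3967], (.tw (.dx 0 (.lf 19)) (.tr (.lf 5) (.tr (.lf 13) (.lf 6) (.lf 14)) (.lf 11))), 0, [12, 12, 14, 14], []⟩))
    (.nd (.lf ⟨[.ofNat 0, .ofNat 0, .negSucc 13823, .ofNat 1088, .ofNat 160], (.tw (.lf 11) (.tr (.dx 0 (.lf 19)) (.lf 5) (.tr (.lf 13) (.lf 6) (.lf 14)))), 0, [18, 18, 13, 13], []⟩)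
    (.lf ⟨[.ofNat 0, .ofNat 0, .negSucc 15487, .ofNat 4480, .ofNat 320], (.tr (.lf 11) (.dx 0 (.tw (.lf 5) (.lf 19))) (.tr (.lf 13) (.lf 6) (.lf 14))), 0, [18, 18, 18, 18], []⟩))))

/-- data -/
def dE2x17 : RT := (.nd (.nd (.nd (.lf ⟨[.ofNat 0, .ofNat 0, .ofNat 20736, .negSucc 5055, .negSucc 159], (.tr (.dx 0 (.tw (.lf 11) (.lf 19))) (.tr (.lf 13) (.lf 5) (.lf 14)) (.lf 6)), 0, [14, 14, 5, 5], []⟩)
    (.lf ⟨[.ofNat 0, .ofNat 0, .negSucc 41471, .ofNat 10112, .ofNat 320], (.tw (.dx 0 (.lf 13)) (.tr (.lf 5) (.lf 11) (.tr (.lf 14) (.lf 6) (.lf 19)))), 0, [0, 0, 21, 9], [0, 12, 21, 9]⟩))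
    (.nd (.lf ⟨[.ofNat 0, .ofNat 0, .ofNat 20736, .negSucc 5055, .negSucc 159], (.tr (.lf 13) (.dx 0 (.tw (.lf 11) (.lf 19))) (.tr (.lf 5) (.lf 14) (.lf 6))), 0, [5, 5, 5, 5], []⟩)
    (.lf ⟨[.ofNat 0, .ofNat 0, .negSucc 4479, .negSucc 2303, .ofNat 160], (.tr (.dx 0 (.tr (.lf 5) (.lf 19) (.lf 11))) (.tw (.lf 13) (.lf 14)) (.lf 6)), 0, [12, 12, 14, 14], []⟩)))
    (.nd (.nd (.lf ⟨[.ofNat 0, .ofNat 0, .negSucc 20735, .ofNat 5056, .ofNat 160], (.tr (.lf 14) (.lf 11) (.tr (.lf 5) (.dx 0 (.tw (.lf 13) (.lf 19))) (.lf 6))), 0, [17, 5, 17, 5], []⟩)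
    (.lf ⟨[.ofNat 0, .ofNat 0, .negSucc 13823, .ofNat 6912], (.tr (.dx 0 (.tr (.lf 13) (.lf 5) (.lf 19))) (.lf 14) (.tw (.lf 6) (.lf 11))), 0, [11, 9, 11, 9], []⟩))
    (.nd (.lf ⟨[.ofNat 0, .ofNat 0, .ofNat 6912, .negSucc 3967], (.tr (.lf 2) (.lf 19) (.tr (.lf 5) (.tw (.dx 3 (.lf 1)) (.lf 11)) (.lf 6))), 3, [9, 12, 9, 12], [9, 9, 9, 9]⟩)
    (.lf ⟨[.ofNat 0, .ofNat 0, .negSucc 13823, .ofNat 7936], (.tr (.lf 2) (.tr (.dx 3 (.lf 1)) (.tw (.lf 5) (.lf 11)) (.lf 19)) (.lf 6)), 3, [0, 21, 12, 14], [21, 21, 9, 9]⟩))))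

/-- data -/
def dE2x18 : RT := (.nd (.nd (.nd (.lf ⟨[.ofNat 0, .ofNat 0, .ofNat 13824, .negSucc 6911], (.tr (.lf 2) (.dx 3 (.tr (.lf 1) (.lf 19) (.lf 5))) (.tw (.lf 6) (.lf 11))), 3, [11, 9, 11, 9], []⟩)
    (.lf ⟨[.ofNat 0, .ofNat 0, .ofNat 0, .ofNat 1024], (.tr (.tw (.dx 0 (.tr (.lf 13) (.lf 5) (.lf 19))) (.lf 14)) (.lf 11) (.lf 6)), 0, [9, 9, 21, 9], []⟩))
    (.nd (.lf ⟨[.ofNat 0, .ofNat 0, .ofNat 3328, .negSucc 9343, .ofNat 320], (.tr (.tw (.lf 6) (.lf 11)) (.dx 0 (.tr (.lf 13) (.lf 5) (.lf 19))) (.lf 14)), 0, [8, 20, 10, 22], []⟩)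
    (.lf ⟨[.ofNat 0, .ofNat 0, .negSucc 1663, .ofNat 4672, .negSucc 159], (.tr (.dx 3 (.tr (.lf 1) (.lf 19) (.lf 5))) (.tw (.lf 2) (.lf 6)) (.lf 11)), 3, [11, 7, 11, 7], []⟩)))
    (.nd (.nd (.lf ⟨[.ofNat 0, .ofNat 0, .negSucc 3327, .ofNat 8320, .negSucc 319], (.tr (.lf 6) (.tw (.dx 0 (.tr (.lf 13) (.lf 5) (.lf 19))) (.lf 11)) (.lf 14)), 0, [4, 16, 8, 20], []⟩)
    (.lf ⟨[.ofNat 0, .ofNat 0, .negSucc 6911, .ofNat 2240, .ofNat 160], (.tw (.dx 0 (.tr (.lf 19) (.lf 11) (.tr (.lf 5) (.lf 13) (.lf 6)))) (.lf 14)), 0, [14, 14, 0, 0], []⟩))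
    (.nd (.lf ⟨[.ofNat 0, .ofNat 0, .negSucc 6911, .negSucc 2367, .ofNat 160], (.tw (.dx 0 (.tr (.lf 11) (.tr (.lf 5) (.lf 13) (.lf 6)) (.lf 19))) (.lf 14)), 0, [2, 2, 12, 12], []⟩)
    (.lf ⟨[.ofNat 0, .ofNat 8320, .negSucc 24671, .negSucc 5223, .ofNat 2384, .ofNat 64], (.tw (.dx 0 (.tr (.lf 5) (.tr (.lf 13) (.lf 14) (.lf 19)) (.lf 6))) (.lf 11)), 0, [19, 7, 19, 7], []⟩))))

/-- data -/
def dE2x19 : RT := (.nd (.nd (.nd (.lf ⟨[.ofNat 0, .negSucc 8319, .ofNat 24672, .ofNat 5224, .negSucc 2383, .negSucc 63], (.tw (.dx 0 (.tw (.lf 5) (.tr (.lf 6) (.lf 19) (.tw (.lf 13) (.lf 14))))) (.lf 11)), 0, [12, 12, 19, 19, 7, 7, 19, 19], []⟩)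
    (.lf ⟨[.ofNat 0, .ofNat 16640, .negSucc 49343, .negSucc 10447, .ofNat 4768, .ofNat 128], (.tw (.dx 0 (.tr (.lf 13) (.lf 14) (.tr (.lf 5) (.lf 6) (.lf 19)))) (.lf 11)), 0, [19, 19, 12, 7], []⟩))
    (.nd (.lf ⟨[.ofNat 0, .ofNat 0, .ofNat 4480, .ofNat 2304, .negSucc 159], (.tw (.dx 0 (.tr (.lf 11) (.tr (.lf 13) (.lf 5) (.lf 14)) (.lf 19))) (.lf 6)), 0, [2, 2, 5, 5], []⟩)
    (.lf ⟨[.ofNat 0, .ofNat 0, .negSucc 4863, .negSucc 1951, .ofNat 160], (.tr (.dx 3 .on) (.tr (.lf 1) (.tr (.lf 2) (.lf 11) (.lf 5)) (.lf 6)) (.lf 19)), 3, [21, 17, 13, 15], [1017, 1017, 1017, 1017]⟩)))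
    (.nd (.nd (.lf ⟨[.ofNat 0, .ofNat 0, .ofNat 0, .ofNat 2432], (.tr (.lf 1) (.tr (.lf 2) (.tr (.dx 3 .on) (.lf 11) (.lf 19)) (.lf 5)) (.lf 6)), 3, [21, 14, 17, 12], [1017, 1017, 1017, 1017]⟩)
    (.lf ⟨[.ofNat 0, .ofNat 0, .ofNat 8960, .ofNat 4608, .negSucc 319], (.tw (.dx 0 (.tr (.lf 19) (.lf 11) (.tr (.lf 5) (.lf 13) (.lf 14)))) (.lf 6)), 0, [5, 5, 17, 17], []⟩))
    (.nd (.lf ⟨[.ofNat 0, .ofNat 4160, .negSucc 10543, .negSucc 2643, .ofNat 1224, .ofNat 32], (.tw (.dx 0 (.tw (.lf 5) (.tr (.tw (.lf 13) (.lf 14)) (.lf 11) (.lf 19)))) (.lf 6)), 0, [17, 17, 12, 12, 17, 17, 5, 5], []⟩)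
    (.lf ⟨[.ofNat 0, .negSucc 4159, .ofNat 10544, .ofNat 2644, .negSucc 1223, .negSucc 31], (.tr (.dx 0 (.lf 5)) (.tr (.tw (.lf 13) (.lf 14)) (.lf 11) (.lf 19)) (.lf 6)), 0, [0, 0, 12, 12], [21, 21, 14, 14]⟩))))

/-- data -/
def dE2x20 : RT := (.nd (.nd (.nd (.lf ⟨[.ofNat 0, .ofNat 8320, .negSucc 16223, .negSucc 903, .ofNat 2288, .ofNat 64], (.tr (.lf 6) (.lf 19) (.tr (.dx 0 (.lf 5)) (.tw (.lf 13) (.lf 14)) (.lf 11))), 0, [16, 16, 1, 1], [16, 16, 20, 20]⟩)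
    (.lf ⟨[.ofNat 0, .negSucc 8319, .ofNat 17120, .ofNat 3272, .negSucc 2511, .negSucc 63], (.tw (.dx 0 (.tw (.lf 19) (.tr (.lf 5) (.tw (.lf 13) (.lf 14)) (.lf 11)))) (.lf 6)), 0, [5, 5, 5, 5, 17, 17, 17, 17], []⟩))
    (.nd (.lf ⟨[.ofNat 0, .ofNat 4160, .negSucc 10095, .negSucc 1459, .ofNat 1112, .ofNat 32], (.tr (.lf 11) (.lf 19) (.tr (.dx 0 (.lf 5)) (.tw (.lf 13) (.lf 14)) (.lf 6))), 0, [18, 18, 1, 1], [18, 18, 22, 22]⟩)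
    (.lf ⟨[.ofNat 0, .negSucc 8319, .ofNat 20192, .ofNat 2920, .negSucc 2223, .negSucc 63], (.tr (.tw (.dx 0 (.tr (.lf 5) (.lf 13) (.lf 14))) (.lf 6)) (.lf 19) (.lf 11)), 0, [0, 23, 4, 4], []⟩)))
    (.nd (.nd (.lf ⟨[.ofNat 0, .negSucc 8319, .ofNat 16224, .ofNat 904, .negSucc 2287, .negSucc 63], (.tw (.dx 0 (.tw (.lf 5) (.lf 19))) (.tr (.lf 6) (.tw (.lf 13) (.lf 14)) (.lf 11))), 0, [12, 12, 12, 12, 12, 12, 12, 12], []⟩)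
    (.lf ⟨[.ofNat 0, .ofNat 0, .ofNat 896, .ofNat 2368, .negSucc 223], (.tw (.lf 6) (.tr (.dx 0 (.tw (.lf 5) (.lf 19))) (.lf 11) (.tw (.lf 13) (.lf 14)))), 0, [16, 16, 16, 16, 13, 13, 13, 13], []⟩))
    (.nd (.lf ⟨[.ofNat 0, .ofNat 0, .negSucc 10751, .negSucc 9343, .ofNat 768], (.tw (.dx 0 (.tr (.lf 5) (.tr (.lf 11) (.lf 13) (.lf 14)) (.lf 19))) (.lf 6)), 0, [0, 17, 5, 5], []⟩)
    (.lf ⟨[.ofNat 0, .ofNat 0, .ofNat 448, .ofNat 1184, .negSucc 111], (.tw (.dx 0 (.tw (.lf 5) (.tr (.lf 11) (.tw (.lf 13) (.lf 14)) (.lf 19)))) (.lf 6)), 0, [0, 0, 5, 5, 17, 17, 5, 5], []⟩))))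

/-- data -/
def dE2x21 : RT := (.nd (.nd (.nd (.lf ⟨[.ofNat 0, .ofNat 0, .ofNat 448, .ofNat 1184, .negSucc 111], (.tr (.dx 0 (.lf 5)) (.tr (.lf 11) (.tw (.lf 13) (.lf 14)) (.lf 19)) (.lf 6)), 0, [0, 0, 12, 12], [2, 2, 9, 9]⟩)
    (.lf ⟨[.ofNat 0, .ofNat 0, .negSucc 895, .negSucc 2367, .ofNat 224], (.tr (.dx 0 (.lf 5)) (.lf 19) (.tr (.lf 6) (.lf 11) (.tw (.lf 13) (.lf 14)))), 0, [12, 12, 12, 12], [12, 12, 9, 9]⟩))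
    (.nd (.lf ⟨[.ofNat 0, .ofNat 0, .ofNat 8960, .ofNat 4608, .negSucc 319], (.tw (.dx 0 (.tr (.lf 19) (.lf 13) (.tr (.lf 5) (.lf 11) (.lf 14)))) (.lf 6)), 0, [5, 5, 0, 17], []⟩)
    (.lf ⟨[.ofNat 0, .ofNat 0, .negSucc 8959, .negSucc 4607, .ofNat 320], (.tr (.dx 0 (.tr (.lf 5) (.lf 19) (.lf 13))) (.tw (.lf 11) (.lf 14)) (.lf 6)), 0, [12, 9, 9, 9], []⟩)))
    (.nd (.nd (.lf ⟨[.ofNat 0, .ofNat 6656, .ofNat 18384, .negSucc 30903, .negSucc 3751, .negSucc 223], (.tr (.lf 2) (.dx 3 (.tr (.lf 11) (.tw (.lf 1) (.lf 5)) (.lf 19))) (.lf 6)), 3, [2, 2, 9, 9], []⟩)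
    (.lf ⟨[.ofNat 0, .ofNat 8320, .negSucc 21087, .negSucc 5287, .ofNat 2448, .ofNat 64], (.tr (.lf 1) (.tr (.dx 3 .on) (.lf 11) (.tr (.lf 2) (.lf 19) (.lf 5))) (.lf 6)), 3, [17, 17, 12, 12], [17, 17, 12, 12]⟩))
    (.nd (.lf ⟨[.ofNat 0, .ofNat 0, .negSucc 4479, .ofNat 2496, .ofNat 2976, .ofNat 64], (.tr (.lf 1) (.tr (.lf 19) (.lf 11) (.tr (.lf 2) (.dx 3 .on) (.lf 5))) (.lf 6)), 3, [5, 5, 0, 0], [5, 5, 0, 0]⟩)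
    (.lf ⟨[.ofNat 0, .ofNat 8320, .negSucc 21087, .negSucc 7655, .negSucc 367], (.tr (.lf 1) (.tr (.lf 11) (.dx 3 .on) (.tr (.lf 2) (.lf 19) (.lf 5))) (.lf 6)), 3, [17, 17, 12, 12], [17, 17, 12, 12]⟩))))

/-- data -/
def dE2x22 : RT := (.nd (.nd (.nd (.lf ⟨[.ofNat 0, .ofNat 0, .ofNat 384, .ofNat 3552, .negSucc 319], (.tr (.dx 3 (.tw (.lf 1) (.lf 2))) (.tr (.lf 5) (.lf 6) (.lf 19)) (.lf 11)), 3, [23, 23, 23, 23], []⟩)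
    (.lf ⟨[.ofNat 0, .ofNat 0, .ofNat 3328, .negSucc 8319, .ofNat 320], (.tr (.dx 3 (.tw (.lf 1) (.lf 11))) (.tr (.lf 2) (.lf 19) (.lf 5)) (.lf 6)), 3, [17, 17, 17, 17], []⟩))
    (.nd (.lf ⟨[.ofNat 0, .ofNat 0, .ofNat 3328, .negSucc 8319, .ofNat 320], (.tr (.lf 5) (.lf 6) (.tr (.lf 14) (.dx 0 (.tw (.lf 11) (.lf 13))) (.lf 19))), 0, [4, 4, 16, 16], []⟩)
    (.lf ⟨[.ofNat 0, .ofNat 0, .ofNat 10496, .ofNat 384, .negSucc 319], (.tr (.lf 5) (.lf 6) (.tr (.dx 3 (.tw (.lf 1) (.lf 11))) (.lf 2) (.lf 19))), 3, [4, 8, 16, 16], []⟩)))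
    (.nd (.nd (.lf ⟨[.ofNat 0, .ofNat 0, .ofNat 1664, .negSucc 4159, .ofNat 160], (.tr (.lf 19) (.dx 0 (.lf 13)) (.tr (.tw (.lf 5) (.lf 6)) (.lf 14) (.lf 11))), 0, [11, 11, 9, 9], [11, 11, 9, 9]⟩)
    (.lf ⟨[.ofNat 0, .ofNat 0, .ofNat 384, .negSucc 8223, .ofNat 320], (.tr (.dx 3 (.lf 1)) (.lf 11) (.tr (.lf 2) (.lf 19) (.tw (.lf 5) (.lf 6)))), 3, [17, 17, 13, 13], [17, 17, 13, 13]⟩))
    (.nd (.lf ⟨[.ofNat 0, .ofNat 0, .ofNat 0, .negSucc 511], (.tr (.lf 11) (.tr (.dx 0 (.lf 13)) (.tw (.lf 5) (.lf 6)) (.lf 14)) (.lf 19)), 0, [6, 6, 10, 10], [6, 6, 10, 10]⟩)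
    (.lf ⟨[.ofNat 0, .ofNat 0, .ofNat 2048, .ofNat 1952, .negSucc 159], (.tr (.dx 3 (.lf 1)) (.tr (.lf 11) (.tw (.lf 5) (.lf 6)) (.lf 19)) (.lf 2)), 3, [13, 13, 15, 15], [13, 13, 15, 15]⟩))))

/-- data -/
def dE2x23 : RT := (.nd (.nd (.nd (.lf ⟨[.ofNat 0, .ofNat 0, .negSucc 6911, .ofNat 4480], (.tr (.lf 11) (.dx 0 (.lf 13)) (.tr (.tw (.lf 5) (.lf 6)) (.lf 14) (.lf 19))), 0, [6, 6, 5, 5], [6, 6, 5, 5]⟩)
    (.lf ⟨[.ofNat 0, .ofNat 0, .negSucc 3327, .ofNat 8320, .negSucc 319], (.tr (.lf 5) (.tr (.dx 0 (.tw (.lf 11) (.lf 13))) (.lf 19) (.lf 6)) (.lf 14)), 0, [4, 4, 16, 16], []⟩))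
    (.nd (.lf ⟨[.ofNat 0, .ofNat 0, .ofNat 1664, .negSucc 4159, .ofNat 160], (.tr (.dx 3 (.tr (.lf 1) (.lf 19) (.lf 5))) (.lf 11) (.tw (.lf 2) (.lf 6))), 3, [5, 1, 5, 1], []⟩)
    (.lf ⟨[.ofNat 0, .ofNat 0, .negSucc 383, .ofNat 8224, .negSucc 319], (.tw (.lf 14) (.tr (.dx 0 (.tw (.lf 11) (.lf 13))) (.lf 19) (.tw (.lf 5) (.lf 6)))), 0, [17, 17, 17, 17, 3, 3, 3, 3], []⟩)))
    (.nd (.nd (.lf ⟨[.ofNat 0, .ofNat 0, .negSucc 2047, .negSucc 1951, .ofNat 160], (.tr (.dx 3 (.tr (.tw (.lf 1) (.lf 2)) (.lf 19) (.lf 5))) (.lf 11) (.lf 6)), 3, [9, 9, 9, 9], []⟩)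
    (.lf ⟨[.ofNat 0, .ofNat 0, .negSucc 8959, .negSucc 4607, .ofNat 320], (.tr (.dx 0 (.tw (.lf 11) (.lf 13))) (.tr (.lf 5) (.lf 6) (.lf 19)) (.lf 14)), 0, [2, 2, 2, 2], []⟩))
    (.nd (.lf ⟨[.ofNat 0, .ofNat 0, .ofNat 0, .negSucc 191, .ofNat 400], (.tr (.dx 3 (.tr (.lf 5) (.tw (.lf 1) (.lf 2)) (.lf 19))) (.lf 11) (.lf 6)), 3, [9, 9, 9, 9], []⟩)
    (.lf ⟨[.ofNat 0, .ofNat 0, .ofNat 8960, .ofNat 4608, .negSucc 319], (.tr (.dx 0 (.tw (.lf 11) (.lf 13))) (.lf 5) (.tr (.lf 6) (.lf 19) (.lf 14))), 0, [2, 2, 2, 2], []⟩))))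

/-- data -/
def dE2x24 : RT := (.nd (.nd (.nd (.lf ⟨[.ofNat 0, .ofNat 0, .negSucc 4479, .negSucc 2303, .ofNat 160], (.tw (.dx 0 (.tw (.lf 11) (.lf 13))) (.tr (.lf 5) (.tw (.lf 14) (.lf 19)) (.lf 6))), 0, [2, 2, 2, 2, 2, 2, 2, 2], []⟩)
    (.lf ⟨[.ofNat 0, .ofNat 0, .ofNat 6912, .negSucc 3967], (.tw (.dx 0 (.tw (.lf 11) (.lf 13))) (.tr (.lf 14) (.tw (.lf 5) (.lf 6)) (.lf 19))), 0, [2, 2, 2, 2, 2, 2, 2, 2], []⟩))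
    (.nd (.lf ⟨[.ofNat 0, .ofNat 0, .negSucc 6911, .ofNat 3968], (.tw (.lf 19) (.tr (.lf 2) (.dx 3 (.tw (.lf 1) (.lf 11))) (.tw (.lf 5) (.lf 6)))), 3, [9, 9, 5, 5, 3, 3, 3, 3], []⟩)
    (.lf ⟨[.ofNat 0, .ofNat 0, .ofNat 13824, .negSucc 6207, .negSucc 159], (.tr (.lf 19) (.dx 0 .on) (.tr (.lf 13) (.lf 11) (.tr (.lf 5) (.lf 14) (.lf 6)))), 0, [9, 9, 12, 12], [9, 9, 11, 11]⟩)))
    (.nd (.nd (.lf ⟨[.ofNat 0, .ofNat 0, .negSucc 6911, .ofNat 3968], (.tr (.lf 5) (.tr (.dx 0 .on) (.tr (.lf 13) (.lf 6) (.lf 14)) (.lf 11)) (.lf 19)), 0, [4, 4, 8, 8], [4, 4, 8, 8]⟩)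
    (.lf ⟨[.ofNat 0, .ofNat 0, .negSucc 6911, .ofNat 2240, .ofNat 160], (.tr (.dx 0 (.lf 13)) (.lf 11) (.tr (.lf 14) (.tw (.lf 5) (.lf 6)) (.lf 19))), 0, [2, 2, 2, 2], [2, 2, 14, 14]⟩))
    (.nd (.lf ⟨[.ofNat 0, .ofNat 0, .ofNat 13824, .negSucc 4479, .negSucc 319], (.tr (.lf 14) (.lf 5) (.tr (.dx 0 (.lf 13)) (.lf 11) (.tw (.lf 6) (.lf 19)))), 0, [21, 21, 3, 3], [1023, 21, 15, 15]⟩)
    (.lf ⟨[.ofNat 0, .ofNat 0, .ofNat 13824, .ofNat 4736, .negSucc 319], (.tr (.lf 5) (.lf 19) (.tr (.dx 0 (.lf 13)) (.lf 11) (.tw (.lf 6) (.lf 14)))), 0, [16, 9, 3, 3], [16, 1023, 3, 3]⟩))))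

/-- data -/
def dE2 : RT := (.nd (.nd (.nd (.nd dE2x0 (.nd dE2x1 dE2x2)) (.nd dE2x3 (.nd dE2x4 dE2x5))) (.nd (.nd dE2x6 (.nd dE2x7 dE2x8)) (.nd dE2x9 (.nd dE2x10 dE2x11)))) (.nd (.nd (.nd dE2x12 (.nd dE2x13 dE2x14)) (.nd dE2x15 (.nd dE2x16 dE2x17))) (.nd (.nd dE2x18 (.nd dE2x19 dE2x20)) (.nd (.nd dE2x21 dE2x22) (.nd dE2x23 dE2x24)))))

/-- data -/
def lE2x0 : List (ℕ × List ℤ) := [(5349, [.ofNat 0, .ofNat 0, .ofNat 0, .ofNat 34304, .negSucc 54399, .negSucc 127, .negSucc 831]),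
  (5405, [.ofNat 0, .ofNat 0, .ofNat 0, .ofNat 2816, .negSucc 4863, .negSucc 3519]),
  (5419, [.ofNat 0, .ofNat 0, .ofNat 0, .negSucc 7679, .ofNat 6016, .negSucc 6271, .negSucc 895]),
  (6301, [.ofNat 0, .ofNat 0, .ofNat 0, .ofNat 0, .ofNat 39680, .negSucc 255, .negSucc 1471]),
  (39069, [.ofNat 0, .ofNat 0, .ofNat 0, .negSucc 19711, .ofNat 5184, .ofNat 320]),
  (39251, [.ofNat 0, .ofNat 0, .ofNat 0, .ofNat 13824, .negSucc 8959]),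
  (41757, [.ofNat 0, .ofNat 0, .ofNat 0, .ofNat 49664, .negSucc 26367, .ofNat 5632, .negSucc 1599]),
  (41771, [.ofNat 0, .ofNat 0, .ofNat 0, .negSucc 7935, .negSucc 8127, .negSucc 2239, .ofNat 320]),
  (42725, [.ofNat 0, .ofNat 0, .ofNat 0, .ofNat 17920, .negSucc 4031, .negSucc 319]),
  (42773, [.ofNat 0, .ofNat 0, .ofNat 0, .negSucc 5631, .ofNat 1792, .ofNat 5632, .negSucc 1599]),
  (42781, [.ofNat 0, .ofNat 0, .ofNat 0, .ofNat 13824, .negSucc 4479, .negSucc 319]),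
  (42795, [.ofNat 0, .ofNat 0, .ofNat 0, .negSucc 13823, .negSucc 4735, .ofNat 320]),
  (43101, [.ofNat 0, .ofNat 0, .ofNat 0, .ofNat 32512, .negSucc 13055, .ofNat 5632, .negSucc 1599]),
  (43115, [.ofNat 0, .ofNat 0, .ofNat 0, .negSucc 13823, .ofNat 7936]),
  (43229, [.ofNat 0, .ofNat 0, .ofNat 0, .ofNat 13824, .negSucc 4479, .negSucc 319]),
  (43241, [.ofNat 0, .ofNat 0, .ofNat 0, .negSucc 3327, .ofNat 18048, .negSucc 319]),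
  (43242, [.ofNat 0, .ofNat 0, .ofNat 0, .ofNat 0, .negSucc 13055, .negSucc 8511, .ofNat 640]),
  (43243, [.ofNat 0, .ofNat 0, .ofNat 0, .negSucc 13823, .negSucc 4735, .ofNat 320]),
  (43339, [.ofNat 0, .ofNat 0, .ofNat 0, .ofNat 7936, .ofNat 8128, .ofNat 2240, .negSucc 319]),
  (50269, [.ofNat 0, .ofNat 0, .ofNat 0, .negSucc 5631, .ofNat 1792, .ofNat 5632, .negSucc 1599]),
  (50283, [.ofNat 0, .ofNat 0, .ofNat 0, .ofNat 3328, .ofNat 7680, .ofNat 8512, .negSucc 639]),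
  (50333, [.ofNat 0, .ofNat 0, .ofNat 0, .ofNat 1536, .negSucc 3199]),
  (50381, [.ofNat 0, .ofNat 0, .ofNat 0, .ofNat 27648, .ofNat 256, .negSucc 639]),
  (50413, [.ofNat 0, .ofNat 0, .ofNat 0, .negSucc 1791, .negSucc 4735, .ofNat 448]),
  (50539, [.ofNat 0, .ofNat 0, .ofNat 33280, .negSucc 63103, .ofNat 1120, .ofNat 8704, .ofNat 256]),
  (305501, [.ofNat 0, .negSucc 33279, .ofNat 39936, .ofNat 49344, .ofNat 23872]),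
  (312554, [.ofNat 0, .ofNat 0, .ofNat 16640, .negSucc 33215, .negSucc 15567, .negSucc 1055]),
  (312605, [.ofNat 0, .ofNat 0, .ofNat 20992, .ofNat 2816, .negSucc 639]),
  (312619, [.ofNat 0, .ofNat 0, .negSucc 5119, .ofNat 24192, .ofNat 576, .negSucc 319]),
  (312666, [.ofNat 0, .ofNat 0, .ofNat 16640, .negSucc 42175, .negSucc 15311, .negSucc 735]),
  (312669, [.ofNat 0, .ofNat 0, .ofNat 16896, .ofNat 19904, .negSucc 3007, .ofNat 320]),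
  (314027, [.ofNat 0, .negSucc 6655, .ofNat 23808, .negSucc 4735, .ofNat 1088]),
  (314131, [.ofNat 0, .ofNat 0, .ofNat 20992, .negSucc 511]),
  (333605, [.ofNat 0, .ofNat 0, .ofNat 21760, .negSucc 1599, .ofNat 5760, .negSucc 1599]),
  (334061, [.ofNat 0, .ofNat 0, .ofNat 47552, .negSucc 25535, .negSucc 10303]),
  (334172, [.ofNat 0, .ofNat 0, .ofNat 0, .ofNat 51584, .negSucc 17823, .ofNat 1216]),
  (338149, [.ofNat 0, .ofNat 0, .ofNat 26880, .ofNat 1024, .negSucc 639]),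
  (340780, [.ofNat 0, .ofNat 0, .negSucc 5055, .negSucc 17599, .negSucc 895, .negSucc 127]),
  (341285, [.ofNat 0, .ofNat 0, .negSucc 56063, .ofNat 14336, .ofNat 384, .negSucc 63]),
  (341804, [.ofNat 0, .ofNat 0, .negSucc 6655, .ofNat 19456, .negSucc 1279]),
  (342117, [.ofNat 0, .ofNat 0, .negSucc 13823, .ofNat 9344]),
  (342188, [.ofNat 0, .ofNat 0, .negSucc 16639, .negSucc 12351, .ofNat 16512, .negSucc 319]),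
  (342189, [.ofNat 0, .ofNat 0, .ofNat 5632, .negSucc 1791, .negSucc 5631, .ofNat 1600]),
  (342252, [.ofNat 0, .ofNat 0, .ofNat 20992, .ofNat 58944, .negSucc 18239, .ofNat 448]),
  (342348, [.ofNat 0, .ofNat 0, .ofNat 0, .ofNat 4864, .negSucc 2815]),
  (342356, [.ofNat 0, .ofNat 0, .ofNat 48960, .negSucc 25855, .ofNat 8576, .ofNat 128]),
  (342365, [.ofNat 0, .ofNat 0, .ofNat 13824, .ofNat 67136, .negSucc 10815, .negSucc 319]),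
  (342378, [.ofNat 0, .ofNat 0, .ofNat 7936, .ofNat 8128, .ofNat 2240, .negSucc 319]),
  (344810, [.ofNat 0, .ofNat 0, .ofNat 16640, .negSucc 33215, .negSucc 15567, .negSucc 1055]),
  (344861, [.ofNat 0, .ofNat 0, .ofNat 0, .ofNat 27648, .negSucc 15871]),
  (344875, [.ofNat 0, .ofNat 0, .ofNat 26752, .ofNat 64256, .negSucc 23215, .negSucc 31]),
  (344922, [.ofNat 0, .ofNat 0, .ofNat 16640, .negSucc 42175, .negSucc 15311, .negSucc 735]),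
  (344924, [.ofNat 0, .negSucc 26623, .ofNat 56064, .negSucc 62975, .negSucc 44287, .ofNat 1312]),
  (344931, [.ofNat 0, .ofNat 0, .negSucc 13311, .ofNat 25344, .ofNat 6976, .negSucc 639]),
  (344939, [.ofNat 0, .ofNat 0, .ofNat 13312, .negSucc 27903, .negSucc 5183, .ofNat 640]),
  (345436, [.ofNat 0, .ofNat 0, .ofNat 2816, .negSucc 4863, .negSucc 3519]),
  (345443, [.ofNat 0, .ofNat 26624, .negSucc 58623, .negSucc 57407, .negSucc 8703, .ofNat 640]),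
  (345869, [.ofNat 0, .negSucc 13311, .ofNat 111872, .ofNat 68160, .ofNat 39136, .ofNat 1920]),
  (345898, [.ofNat 0, .negSucc 6655, .negSucc 33279, .negSucc 42495, .negSucc 23231, .negSucc 319]),
  (345899, [.ofNat 0, .ofNat 0, .negSucc 1151, .ofNat 4992, .negSucc 4383, .ofNat 448]),
  (345932, [.ofNat 0, .negSucc 26623, .ofNat 56064, .negSucc 55551, .negSucc 40191, .negSucc 287]),
  (345955, [.ofNat 0, .ofNat 0, .ofNat 0, .negSucc 767]),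
  (345962, [.ofNat 0, .ofNat 0, .ofNat 0, .ofNat 4096, .ofNat 3904, .negSucc 319]),
  (346346, [.ofNat 0, .ofNat 0, .ofNat 0, .ofNat 8960, .ofNat 4608, .negSucc 319]),
  (346717, [.ofNat 0, .ofNat 0, .ofNat 0, .negSucc 58367, .ofNat 15808, .negSucc 1279]),
  (346723, [.ofNat 0, .ofNat 0, .ofNat 4352, .ofNat 24704, .ofNat 2240]),
  (346731, [.ofNat 0, .ofNat 0, .ofNat 13824, .negSucc 6911]),
  (346781, [.ofNat 0, .ofNat 0, .ofNat 0, .ofNat 3328, .negSucc 5439, .ofNat 320]),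
  (346787, [.ofNat 0, .ofNat 26624, .negSucc 58623, .negSucc 57407, .negSucc 8703, .ofNat 640]),
  (346829, [.ofNat 0, .ofNat 0, .negSucc 511, .negSucc 45567, .ofNat 6784, .negSucc 1599]),
  (346837, [.ofNat 0, .ofNat 0, .negSucc 65599, .ofNat 16832, .ofNat 2496, .negSucc 127]),
  (346851, [.ofNat 0, .ofNat 0, .negSucc 4991, .negSucc 4863, .ofNat 10656, .ofNat 448]),
  (346858, [.ofNat 0, .ofNat 6656, .ofNat 32512, .negSucc 44031, .ofNat 21248, .ofNat 1280]),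
  (346891, [.ofNat 0, .ofNat 0, .ofNat 22592, .negSucc 37567, .ofNat 384, .negSucc 127]),
  (398621, [.ofNat 0, .ofNat 0, .ofNat 0, .negSucc 27647, .ofNat 12416, .ofNat 320]),
  (398635, [.ofNat 0, .ofNat 0, .negSucc 40575, .negSucc 62975, .ofNat 23216, .ofNat 32]),
  (399517, [.ofNat 0, .ofNat 0, .ofNat 0, .ofNat 2432]),
  (400028, [.ofNat 0, .ofNat 0, .ofNat 0, .ofNat 7168, .ofNat 10368, .negSucc 1471]),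
  (402156, [.ofNat 0, .ofNat 0, .negSucc 13311, .negSucc 15871, .ofNat 9280, .ofNat 320]),
  (402157, [.ofNat 0, .ofNat 0, .negSucc 5631, .ofNat 1792, .negSucc 5631, .ofNat 1600]),
  (402219, [.ofNat 0, .ofNat 0, .negSucc 13823, .ofNat 1280]),
  (402268, [.ofNat 0, .ofNat 0, .ofNat 0, .negSucc 7423, .ofNat 1536]),
  (402269, [.ofNat 0, .ofNat 0, .ofNat 42496, .ofNat 37056, .ofNat 20864]),
  (402275, [.ofNat 0, .negSucc 26623, .ofNat 45312, .ofNat 82752, .ofNat 15680, .negSucc 1279]),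
  (402283, [.ofNat 0, .ofNat 0, .ofNat 13312, .negSucc 49919, .negSucc 16191, .ofNat 1280]),
  (402781, [.ofNat 0, .ofNat 26624, .negSucc 25599, .negSucc 78591, .negSucc 23263, .negSucc 319]),
  (403052, [.ofNat 0, .ofNat 0, .ofNat 0, .negSucc 13055, .ofNat 4352]),
  (403116, [.ofNat 0, .ofNat 0, .ofNat 47040, .negSucc 57279, .negSucc 6207]),
  (403221, [.ofNat 0, .ofNat 0, .negSucc 13311, .ofNat 35072, .ofNat 7680, .negSucc 639]),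
  (403229, [.ofNat 0, .ofNat 26624, .negSucc 58623, .negSucc 55103, .negSucc 12095, .ofNat 2240]),
  (403242, [.ofNat 0, .ofNat 0, .ofNat 3840, .negSucc 7039, .ofNat 6336]),
  (403243, [.ofNat 0, .ofNat 26624, .negSucc 59135, .negSucc 89151, .negSucc 4607, .ofNat 640]),
  (403284, [.ofNat 0, .ofNat 0, .ofNat 512, .ofNat 31744, .ofNat 8512, .negSucc 639]),
  (403285, [.ofNat 0, .ofNat 0, .negSucc 14079, .ofNat 7872, .ofNat 8016, .ofNat 160]),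
  (403306, [.ofNat 0, .ofNat 0, .ofNat 0, .negSucc 8959, .negSucc 2495]),
  (403669, [.ofNat 0, .negSucc 26623, .ofNat 45312, .ofNat 96832, .ofNat 3136, .negSucc 2239]),
  (403677, [.ofNat 0, .ofNat 26624, .negSucc 38399, .negSucc 84095, .negSucc 26815]),
  (404060, [.ofNat 0, .ofNat 0, .ofNat 0, .ofNat 0, .ofNat 5632, .negSucc 1599]),
  (404125, [.ofNat 0, .ofNat 0, .ofNat 14080, .negSucc 26687, .ofNat 688, .negSucc 159]),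
  (404180, [.ofNat 0, .ofNat 0, .ofNat 512, .ofNat 31744, .ofNat 8512, .negSucc 639])]

/-- data -/
def lE2x1 : List (ℕ × List ℤ) := [(404181, [.ofNat 0, .ofNat 0, .ofNat 0, .ofNat 16128, .negSucc 1919]),
  (410717, [.ofNat 0, .ofNat 0, .ofNat 5632, .ofNat 1792, .ofNat 5632, .negSucc 1599]),
  (410837, [.ofNat 0, .ofNat 0, .ofNat 6400, .negSucc 2175, .ofNat 2816, .negSucc 1599]),
  (414364, [.ofNat 0, .ofNat 0, .ofNat 0, .negSucc 8191, .ofNat 1536]),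
  (414812, [.ofNat 0, .ofNat 0, .negSucc 13823, .negSucc 3071, .ofNat 256]),
  (414924, [.ofNat 0, .ofNat 0, .negSucc 13311, .ofNat 36864, .negSucc 7295, .ofNat 1600]),
  (414932, [.ofNat 0, .ofNat 0, .ofNat 62272, .negSucc 13247, .negSucc 1599, .ofNat 128]),
  (1090277, [.ofNat 0, .ofNat 0, .negSucc 16831, .negSucc 14719, .ofNat 10176, .ofNat 64]),
  (1091237, [.ofNat 0, .ofNat 0, .ofNat 2304, .negSucc 13247, .negSucc 1631, .negSucc 63]),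
  (1091357, [.ofNat 0, .ofNat 0, .negSucc 10495, .ofNat 20480, .negSucc 319]),
  (1091421, [.ofNat 0, .ofNat 0, .ofNat 13312, .negSucc 25343, .negSucc 3199]),
  (1091677, [.ofNat 0, .ofNat 0, .ofNat 13824, .negSucc 1791, .negSucc 8319, .ofNat 320]),
  (1091741, [.ofNat 0, .ofNat 0, .ofNat 13824, .negSucc 29439, .ofNat 4096, .ofNat 640]),
  (1091789, [.ofNat 0, .ofNat 0, .ofNat 0, .ofNat 768, .negSucc 5503]),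
  (1091797, [.ofNat 0, .ofNat 0, .ofNat 0, .ofNat 768, .negSucc 5503]),
  (2501277, [.ofNat 0, .ofNat 0, .ofNat 3328, .negSucc 5375]),
  (2501333, [.ofNat 0, .ofNat 0, .negSucc 13055, .negSucc 8511, .ofNat 640]),
  (2501466, [.ofNat 0, .ofNat 0, .ofNat 0, .ofNat 4736, .ofNat 5632, .ofNat 128]),
  (2501467, [.ofNat 0, .ofNat 0, .ofNat 0, .negSucc 4863]),
  (2508010, [.ofNat 0, .ofNat 0, .negSucc 8959, .ofNat 4992, .ofNat 5952, .ofNat 128]),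
  (2512147, [.ofNat 0, .ofNat 0, .negSucc 13823, .ofNat 8960]),
  (2668780, [.ofNat 0, .ofNat 0, .negSucc 3327, .ofNat 9344, .negSucc 319]),
  (2672427, [.ofNat 0, .ofNat 0, .negSucc 13823, .ofNat 2560]),
  (2672477, [.ofNat 0, .ofNat 0, .ofNat 0, .ofNat 12672, .negSucc 319]),
  (2673373, [.ofNat 0, .ofNat 0, .ofNat 0, .ofNat 8704]),
  (2693405, [.ofNat 0, .ofNat 0, .negSucc 4863, .ofNat 480, .ofNat 160]),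
  (2704157, [.ofNat 0, .ofNat 0, .negSucc 13823, .ofNat 7936]),
  (2705259, [.ofNat 0, .ofNat 0, .ofNat 13056, .ofNat 8512, .negSucc 639]),
  (2705613, [.ofNat 0, .ofNat 0, .ofNat 0, .negSucc 4863]),
  (2706141, [.ofNat 0, .ofNat 0, .negSucc 767, .negSucc 7103, .ofNat 640]),
  (2726053, [.ofNat 0, .ofNat 0, .ofNat 3328, .negSucc 8319, .ofNat 320]),
  (2726117, [.ofNat 0, .ofNat 0, .negSucc 10495, .negSucc 1407, .ofNat 320]),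
  (2730317, [.ofNat 0, .ofNat 0, .ofNat 0, .negSucc 4351]),
  (2734413, [.ofNat 0, .ofNat 0, .negSucc 4095, .negSucc 3903, .ofNat 320]),
  (2736938, [.ofNat 0, .ofNat 0, .ofNat 8960, .ofNat 4608, .negSucc 319]),
  (2736939, [.ofNat 0, .ofNat 0, .negSucc 13823, .ofNat 6912]),
  (2736980, [.ofNat 0, .ofNat 0, .ofNat 3328, .negSucc 8319, .ofNat 320]),
  (2737501, [.ofNat 0, .ofNat 0, .ofNat 27648, .ofNat 384, .negSucc 959]),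
  (2737829, [.ofNat 0, .ofNat 0, .ofNat 0, .ofNat 1728, .negSucc 159]),
  (2737836, [.ofNat 0, .ofNat 66560, .negSucc 2687, .negSucc 124255, .negSucc 25535]),
  (2737996, [.ofNat 0, .ofNat 0, .negSucc 13823, .negSucc 4735, .ofNat 320]),
  (2738004, [.ofNat 0, .ofNat 0, .negSucc 3327, .ofNat 9344, .negSucc 319]),
  (2738317, [.ofNat 0, .ofNat 0, .negSucc 7935, .negSucc 4031, .negSucc 127]),
  (2757869, [.ofNat 0, .ofNat 0, .negSucc 1791, .negSucc 4735, .ofNat 448]),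
  (2757995, [.ofNat 0, .ofNat 16640, .negSucc 32447, .negSucc 1807, .ofNat 4576, .ofNat 128]),
  (2758380, [.ofNat 0, .ofNat 0, .ofNat 0, .negSucc 383, .ofNat 800]),
  (2758493, [.ofNat 0, .ofNat 0, .negSucc 27647, .ofNat 15872]),
  (2758499, [.ofNat 0, .ofNat 0, .negSucc 8959, .negSucc 4607, .ofNat 320]),
  (2758506, [.ofNat 0, .ofNat 0, .ofNat 7936, .ofNat 4032, .ofNat 128]),
  (2758507, [.ofNat 0, .ofNat 0, .ofNat 8960, .ofNat 4608, .negSucc 319]),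
  (2759324, [.ofNat 0, .ofNat 0, .negSucc 3327, .ofNat 8320, .negSucc 319]),
  (2759381, [.ofNat 0, .ofNat 0, .negSucc 3327, .ofNat 8320, .negSucc 319]),
  (2759395, [.ofNat 0, .ofNat 0, .ofNat 3328, .negSucc 18047, .ofNat 320]),
  (2759514, [.ofNat 0, .ofNat 0, .ofNat 7936, .ofNat 8768, .ofNat 5760, .ofNat 128]),
  (2761445, [.ofNat 0, .ofNat 0, .ofNat 3328, .negSucc 9343, .ofNat 320]),
  (2761452, [.ofNat 0, .ofNat 66560, .ofNat 24960, .negSucc 126431, .negSucc 25855]),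
  (2761564, [.ofNat 0, .ofNat 0, .ofNat 51968, .negSucc 8703, .negSucc 639]),
  (2762341, [.ofNat 0, .ofNat 0, .negSucc 13823, .ofNat 6912]),
  (2762469, [.ofNat 0, .ofNat 0, .negSucc 13823, .ofNat 7936]),
  (2762572, [.ofNat 0, .ofNat 0, .negSucc 13823, .ofNat 4480, .ofNat 320]),
  (2762589, [.ofNat 0, .ofNat 0, .ofNat 27648, .negSucc 2175, .negSucc 319]),
  (2762957, [.ofNat 0, .ofNat 0, .ofNat 13824, .negSucc 7935]),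
  (2762987, [.ofNat 0, .ofNat 0, .ofNat 13824, .negSucc 6911]),
  (2763356, [.ofNat 0, .ofNat 0, .ofNat 10496, .negSucc 2559]),
  (2763491, [.ofNat 0, .ofNat 0, .ofNat 13824, .negSucc 6911]),
  (2765610, [.ofNat 0, .ofNat 0, .ofNat 8960, .ofNat 4608, .negSucc 319]),
  (2765667, [.ofNat 0, .ofNat 0, .negSucc 8959, .negSucc 4607, .ofNat 320]),
  (2765675, [.ofNat 0, .ofNat 0, .ofNat 8960, .ofNat 4608, .negSucc 319]),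
  (2766156, [.ofNat 0, .ofNat 0, .negSucc 3327, .ofNat 8320, .negSucc 319]),
  (2766173, [.ofNat 0, .ofNat 0, .ofNat 30976, .negSucc 8959, .negSucc 639]),
  (2766668, [.ofNat 0, .ofNat 0, .negSucc 4095, .negSucc 3903, .ofNat 320]),
  (2766698, [.ofNat 0, .negSucc 16639, .ofNat 49344, .ofNat 10448, .negSucc 4767, .negSucc 127]),
  (2767005, [.ofNat 0, .ofNat 0, .negSucc 30975, .ofNat 8960, .ofNat 640]),
  (2767019, [.ofNat 0, .ofNat 0, .negSucc 27647, .negSucc 383, .ofNat 960]),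
  (2767053, [.ofNat 0, .ofNat 0, .ofNat 13824, .negSucc 7935]),
  (2767081, [.ofNat 0, .ofNat 0, .ofNat 3328, .negSucc 18047, .ofNat 320]),
  (2767082, [.ofNat 0, .ofNat 0, .ofNat 13824, .negSucc 6911]),
  (2767594, [.ofNat 0, .ofNat 0, .negSucc 13823, .ofNat 6912]),
  (2767690, [.ofNat 0, .ofNat 0, .ofNat 9728, .ofNat 3904, .negSucc 319]),
  (2769579, [.ofNat 0, .negSucc 16639, .ofNat 40384, .ofNat 5840, .negSucc 4447, .negSucc 127]),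
  (2769642, [.ofNat 0, .ofNat 0, .ofNat 0, .ofNat 9600, .ofNat 5632, .ofNat 128]),
  (2770155, [.ofNat 0, .ofNat 0, .ofNat 27648, .ofNat 11520, .negSucc 639]),
  (2770573, [.ofNat 0, .ofNat 0, .negSucc 7935, .negSucc 4031, .negSucc 127]),
  (2770637, [.ofNat 0, .ofNat 0, .ofNat 0, .negSucc 4863]),
  (2770666, [.ofNat 0, .ofNat 16640, .negSucc 49343, .negSucc 10447, .ofNat 4768, .ofNat 128]),
  (2774108, [.ofNat 0, .ofNat 0, .negSucc 41471, .ofNat 10112, .ofNat 320]),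
  (2774109, [.ofNat 0, .ofNat 0, .ofNat 41472, .negSucc 10111, .negSucc 319]),
  (2774732, [.ofNat 0, .ofNat 0, .ofNat 0, .negSucc 383, .ofNat 800]),
  (3188501, [.ofNat 0, .ofNat 0, .negSucc 41471, .ofNat 10112, .ofNat 320]),
  (3188523, [.ofNat 0, .ofNat 0, .ofNat 27648, .negSucc 2175, .negSucc 319]),
  (3188572, [.ofNat 0, .ofNat 0, .ofNat 0, .ofNat 3456, .negSucc 319]),
  (3188907, [.ofNat 0, .ofNat 0, .ofNat 0, .negSucc 3455, .ofNat 320]),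
  (3189460, [.ofNat 0, .ofNat 0, .ofNat 41472, .negSucc 10111, .negSucc 319]),
  (3196117, [.ofNat 0, .ofNat 0, .ofNat 41472, .negSucc 10111, .negSucc 319]),
  (3196138, [.ofNat 0, .ofNat 0, .ofNat 27648, .negSucc 2175, .negSucc 319]),
  (3200226, [.ofNat 0, .ofNat 0, .ofNat 13824, .negSucc 6911]),
  (3217251, [.ofNat 0, .ofNat 13312, .ofNat 27808, .negSucc 66415, .negSucc 7183, .negSucc 447]),
  (3218140, [.ofNat 0, .ofNat 0, .ofNat 4096, .ofNat 3904, .negSucc 319]),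
  (3221277, [.ofNat 0, .ofNat 0, .ofNat 3328, .negSucc 9343, .ofNat 320]),
  (3221325, [.ofNat 0, .ofNat 0, .negSucc 4863, .ofNat 12544, .negSucc 319])]

/-- data -/
def lE2x2 : List (ℕ × List ℤ) := [(3222237, [.ofNat 0, .ofNat 0, .negSucc 767, .negSucc 7103, .ofNat 640]),
  (3224419, [.ofNat 0, .ofNat 13312, .ofNat 27808, .negSucc 66415, .negSucc 7183, .negSucc 447]),
  (3225813, [.ofNat 0, .ofNat 0, .ofNat 0, .ofNat 1728, .negSucc 159]),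
  (3225833, [.ofNat 0, .ofNat 0, .ofNat 13824, .negSucc 6911]),
  (3226219, [.ofNat 0, .ofNat 0, .ofNat 13824, .negSucc 6911]),
  (3226345, [.ofNat 0, .ofNat 0, .negSucc 13823, .ofNat 6912]),
  (3228317, [.ofNat 0, .ofNat 0, .negSucc 10495, .negSucc 1407, .ofNat 320]),
  (3229397, [.ofNat 0, .ofNat 0, .negSucc 3327, .ofNat 8320, .negSucc 319]),
  (3282141, [.ofNat 0, .ofNat 0, .negSucc 4095, .negSucc 3903, .ofNat 320]),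
  (8693485, [.ofNat 0, .ofNat 0, .ofNat 9728, .ofNat 3904, .negSucc 319]),
  (8694429, [.ofNat 0, .ofNat 0, .negSucc 27647, .ofNat 12416, .ofNat 320]),
  (8722205, [.ofNat 0, .ofNat 0, .negSucc 3327, .ofNat 9344, .negSucc 319]),
  (8729261, [.ofNat 0, .ofNat 0, .ofNat 9728, .ofNat 3904, .negSucc 319]),
  (8730285, [.ofNat 0, .ofNat 0, .ofNat 4864, .negSucc 479, .negSucc 159]),
  (8730829, [.ofNat 0, .ofNat 0, .negSucc 13823, .ofNat 7936]),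
  (8731341, [.ofNat 0, .ofNat 0, .ofNat 0, .negSucc 3455, .ofNat 320])]

/-- the sum of the part -/
def lE2 : List (ℕ × List ℤ) := lE2x0 ++ (lE2x1 ++ (lE2x2))

theorem okE2 : dE2.all (rok tbE 12) = true := by decide +kernel

theorem sumE2 : aeq (fz (sumT tbE dE2)) lE2 = true := by decide +kernel

end Pool.Agent.H.MP_e16c79_al.IS
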