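import Pool.Agent.H.MP_e16c79_al.IS.BTabE

/-!
# MP_e16c79_al: certificate E, part 3
-/

set_option autoImplicit false

namespace Pool.Agent.H.MP_e16c79_al.IS

/-- data -/
def dE3x0 : RT := (.nd (.nd (.nd (.lf ⟨[.ofNat 0, .ofNat 0, .ofNat 0, .ofNat 2432], (.tw (.dx 3 (.tr (.lf 1) (.tr (.lf 2) (.lf 11) (.lf 5)) (.lf 6))) (.lf 19)), 3, [2, 0, 4, 8], []⟩)
    (.lf ⟨[.ofNat 0, .ofNat 0, .ofNat 0, .negSucc 1215], (.tw (.lf 19) (.tr (.lf 13) (.tw (.dx 0 (.tw (.lf 5) (.lf 11))) (.lf 6)) (.lf 14))), 0, [5, 5, 3, 1, 5, 5, 3, 1], []⟩))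
    (.nd (.lf ⟨[.ofNat 0, .ofNat 0, .ofNat 0, .ofNat 1216], (.tw (.dx 3 (.tr (.lf 1) (.lf 11) (.tr (.lf 5) (.lf 2) (.lf 6)))) (.lf 19)), 3, [2, 2, 4, 4], []⟩)
    (.lf ⟨[.ofNat 0, .ofNat 0, .ofNat 20736, .negSucc 5055, .negSucc 159], (.tr (.dx 3 (.tw (.lf 1) (.lf 19))) (.lf 11) (.tr (.lf 5) (.lf 2) (.lf 6))), 3, [5, 5, 5, 5], []⟩)))
    (.nd (.nd (.lf ⟨[.ofNat 0, .ofNat 0, .ofNat 384, .ofNat 3552, .negSucc 319], (.tr (.dx 3 (.tr (.lf 1) (.lf 2) (.lf 19))) (.tw (.lf 5) (.lf 6)) (.lf 11)), 3, [11, 11, 11, 11], []⟩)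
    (.lf ⟨[.ofNat 0, .ofNat 0, .ofNat 6528, .ofNat 4256, .negSucc 319], (.tw (.dx 3 (.tr (.lf 1) (.tr (.lf 5) (.lf 6) (.lf 19)) (.lf 2))) (.lf 11)), 3, [7, 7, 7, 7], []⟩))
    (.nd (.lf ⟨[.ofNat 0, .ofNat 3328, .negSucc 12031, .negSucc 1871, .ofNat 160], (.tw (.dx 3 (.tw (.lf 19) (.tr (.tw (.lf 1) (.lf 2)) (.lf 5) (.lf 6)))) (.lf 11)), 3, [11, 11, 7, 7, 11, 11, 7, 7], []⟩)
    (.lf ⟨[.ofNat 0, .ofNat 0, .ofNat 13056, .ofNat 8512, .negSucc 639], (.tw (.dx 3 (.tr (.lf 1) (.lf 2) (.tr (.lf 5) (.lf 6) (.lf 19)))) (.lf 11)), 3, [11, 11, 7, 7], []⟩))))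

/-- data -/
def dE3x1 : RT := (.nd (.nd (.nd (.lf ⟨[.ofNat 0, .ofNat 0, .negSucc 951, .negSucc 1577, .negSucc 131], (.tw (.dx 0 (.tw (.lf 5) (.lf 6))) (.tr (.lf 19) (.lf 9) (.tr (.lf 13) (.lf 10) (.lf 14)))), 0, [12, 12, 0, 0, 12, 12, 0, 0], []⟩)
    (.lf ⟨[.ofNat 0, .ofNat 0, .ofNat 496, .ofNat 340, .negSucc 31], (.tw (.lf 19) (.tr (.dx 0 (.tw (.lf 5) (.lf 6))) (.tr (.lf 13) (.lf 9) (.lf 14)) (.lf 10))), 0, [7, 7, 7, 7, 1, 1, 1, 1], []⟩))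
    (.nd (.lf ⟨[.ofNat 0, .ofNat 0, .negSucc 495, .negSucc 339, .ofNat 32], (.tw (.lf 9) (.tr (.lf 19) (.dx 0 (.tw (.lf 5) (.lf 6))) (.tr (.lf 13) (.lf 10) (.lf 14)))), 0, [18, 18, 18, 18, 6, 6, 6, 6], []⟩)
    (.lf ⟨[.ofNat 0, .ofNat 0, .ofNat 3696, .negSucc 1755, .ofNat 88], (.tw (.lf 13) (.tr (.lf 9) (.tr (.lf 14) (.dx 0 (.tw (.lf 5) (.lf 6))) (.lf 19)) (.lf 10))), 0, [19, 19, 7, 7, 19, 19, 7, 7], []⟩)))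
    (.nd (.nd (.lf ⟨[.ofNat 0, .ofNat 0, .ofNat 3168, .ofNat 1160, .ofNat 128], (.tr (.dx 0 (.tw (.lf 5) (.lf 6))) (.tr (.tw (.lf 9) (.lf 13)) (.lf 10) (.lf 14)) (.lf 19)), 0, [0, 0, 0, 0, 0, 0, 0, 0], []⟩)
    (.lf ⟨[.ofNat 0, .ofNat 0, .negSucc 1583, .negSucc 579, .negSucc 63], (.tw (.lf 19) (.tr (.dx 0 (.tw (.lf 5) (.lf 6))) (.lf 9) (.tr (.lf 13) (.lf 10) (.lf 14)))), 0, [12, 12, 12, 12, 1, 1, 1, 1], []⟩))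
    (.nd (.lf ⟨[.ofNat 0, .ofNat 0, .ofNat 1360, .negSucc 99, .ofNat 8], (.tw (.lf 13) (.tr (.lf 19) (.dx 0 (.tw (.lf 5) (.lf 6))) (.tr (.lf 9) (.lf 14) (.lf 10)))), 0, [7, 7, 7, 7, 13, 13, 13, 13], []⟩)
    (.lf ⟨[.ofNat 0, .ofNat 0, .ofNat 3200, .ofNat 1184, .ofNat 32], (.tw (.lf 9) (.tr (.lf 13) (.tr (.lf 10) (.dx 0 (.tw (.lf 5) (.lf 6))) (.lf 19)) (.lf 14))), 0, [6, 6, 6, 6, 6, 6, 6, 6], []⟩))))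

/-- data -/
def dE3x2 : RT := (.nd (.nd (.nd (.lf ⟨[.ofNat 0, .ofNat 0, .negSucc 303, .negSucc 515, .ofNat 32], (.tw (.lf 9) (.tr (.dx 0 (.tw (.lf 5) (.lf 6))) (.tr (.lf 13) (.lf 10) (.lf 14)) (.lf 19))), 0, [6, 6, 6, 6, 1, 1, 1, 1], []⟩)
    (.lf ⟨[.ofNat 0, .ofNat 0, .ofNat 304, .ofNat 516, .negSucc 31], (.tw (.lf 19) (.tr (.lf 9) (.dx 0 (.tw (.lf 5) (.lf 6))) (.tr (.lf 13) (.lf 10) (.lf 14)))), 0, [18, 18, 18, 18, 7, 7, 7, 7], []⟩))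
    (.nd (.lf ⟨[.ofNat 0, .ofNat 0, .negSucc 303, .negSucc 515, .ofNat 32], (.tr (.dx 3 (.lf 1)) (.tw (.lf 2) (.tr (.lf 5) (.tw (.lf 9) (.lf 10)) (.lf 6))) (.lf 19)), 3, [21, 21, 21, 21, 13, 13, 13, 13], [21, 21, 21, 21, 8, 8, 8, 8]⟩)
    (.lf ⟨[.ofNat 0, .ofNat 0, .ofNat 920, .ofNat 2858, .ofNat 52], (.tr (.lf 14) (.tw (.dx 0 (.lf 13)) (.tr (.lf 5) (.tw (.lf 9) (.lf 10)) (.lf 6))) (.lf 19)), 0, [21, 21, 21, 21, 8, 8, 8, 8], [21, 21, 21, 21, 8, 8, 8, 8]⟩)))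
    (.nd (.nd (.lf ⟨[.ofNat 0, .ofNat 0, .ofNat 1360, .negSucc 99, .ofNat 8], (.tw (.lf 13) (.tr (.dx 0 (.tw (.lf 5) (.lf 6))) (.tr (.lf 9) (.lf 14) (.lf 10)) (.lf 19))), 0, [0, 0, 0, 0, 1, 1, 1, 1], []⟩)
    (.lf ⟨[.ofNat 0, .ofNat 0, .negSucc 1567, .negSucc 6647, .negSucc 111], (.tr (.dx 3 (.lf 1)) (.tr (.lf 5) (.lf 9) (.tr (.lf 2) (.lf 6) (.lf 10))) (.lf 19)), 3, [23, 13, 21, 21], [1015, 8, 21, 1015]⟩))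
    (.nd (.lf ⟨[.ofNat 0, .ofNat 0, .negSucc 2047, .negSucc 1951, .ofNat 160], (.tr (.dx 3 (.lf 1)) (.tr (.lf 5) (.tr (.lf 6) (.lf 2) (.lf 9)) (.lf 10)) (.lf 19)), 3, [19, 23, 21, 17], [1015, 1015, 1015, 1015]⟩)
    (.lf ⟨[.ofNat 0, .ofNat 0, .ofNat 528, .ofNat 1036, .negSucc 127], (.tw (.lf 19) (.tr (.lf 9) (.tr (.dx 0 (.tw (.lf 5) (.lf 6))) (.lf 13) (.lf 14)) (.lf 10))), 0, [7, 7, 7, 7, 7, 7, 7, 7], []⟩))))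

/-- data -/
def dE3x3 : RT := (.nd (.nd (.nd (.lf ⟨[.ofNat 0, .ofNat 0, .negSucc 3391, .negSucc 1007, .negSucc 31], (.tr (.lf 13) (.dx 0 (.tr (.lf 5) (.lf 9) (.lf 6))) (.tr (.lf 10) (.lf 14) (.lf 19))), 0, [0, 7, 0, 7], []⟩)
    (.lf ⟨[.ofNat 0, .ofNat 0, .ofNat 6784, .ofNat 2016, .ofNat 64], (.tr (.lf 10) (.lf 13) (.tr (.lf 14) (.dx 0 (.tr (.lf 5) (.lf 9) (.lf 6))) (.lf 19))), 0, [6, 6, 6, 6], []⟩))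
    (.nd (.lf ⟨[.ofNat 0, .ofNat 0, .negSucc 1891, .negSucc 1334, .negSucc 29], (.tw (.lf 19) (.tr (.dx 0 (.tr (.lf 5) (.lf 9) (.lf 6))) (.tw (.lf 13) (.lf 14)) (.lf 10))), 0, [7, 7, 7, 7, 1, 1, 1, 1], []⟩)
    (.lf ⟨[.ofNat 0, .ofNat 0, .negSucc 6783, .negSucc 2015, .negSucc 63], (.tr (.dx 0 (.tr (.lf 5) (.lf 9) (.lf 6))) (.lf 13) (.tr (.lf 14) (.lf 10) (.lf 19))), 0, [0, 0, 0, 0], []⟩)))
    (.nd (.nd (.lf ⟨[.ofNat 0, .ofNat 0, .ofNat 3784, .ofNat 2670, .ofNat 60], (.tw (.dx 0 (.tr (.lf 5) (.lf 9) (.lf 6))) (.tr (.tw (.lf 13) (.lf 14)) (.lf 10) (.lf 19))), 0, [0, 0, 12, 12, 0, 0, 12, 12], []⟩)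
    (.lf ⟨[.ofNat 0, .ofNat 0, .negSucc 5279, .ofNat 3000, .ofNat 16], (.tr (.dx 0 (.tr (.lf 5) (.lf 9) (.lf 6))) (.lf 19) (.tr (.lf 10) (.lf 13) (.lf 14))), 0, [12, 12, 12, 12], []⟩))
    (.nd (.lf ⟨[.ofNat 0, .ofNat 0, .negSucc 3783, .negSucc 2669, .negSucc 59], (.tr (.lf 13) (.lf 14) (.tr (.dx 0 (.tr (.lf 5) (.lf 9) (.lf 6))) (.lf 19) (.lf 10))), 0, [19, 19, 13, 13], []⟩)
    (.lf ⟨[.ofNat 0, .ofNat 0, .ofNat 5280, .negSucc 2999, .negSucc 15], (.tr (.lf 10) (.lf 19) (.tr (.dx 0 (.tr (.lf 5) (.lf 9) (.lf 6))) (.lf 13) (.lf 14))), 0, [18, 18, 1, 1], []⟩))))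

/-- data -/
def dE3x4 : RT := (.nd (.nd (.nd (.lf ⟨[.ofNat 0, .ofNat 0, .ofNat 2992, .negSucc 11339, .negSucc 151], (.tr (.lf 13) (.lf 14) (.tr (.dx 0 (.tr (.lf 5) (.lf 9) (.lf 19))) (.lf 6) (.lf 10))), 0, [23, 23, 15, 13], []⟩)
    (.lf ⟨[.ofNat 0, .ofNat 0, .ofNat 10560, .negSucc 5999, .negSucc 31], (.tr (.dx 0 (.tr (.lf 5) (.lf 9) (.tr (.lf 13) (.lf 14) (.lf 19)))) (.lf 6) (.lf 10)), 0, [0, 11, 23, 11], []⟩))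
    (.nd (.lf ⟨[.ofNat 0, .ofNat 0, .negSucc 4127, .ofNat 2280, .ofNat 400], (.tr (.lf 9) (.lf 5) (.tr (.lf 6) (.lf 10) (.tr (.lf 14) (.dx 0 (.lf 13)) (.lf 19)))), 0, [10, 22, 10, 9], [10, 22, 1015, 1015]⟩)
    (.lf ⟨[.ofNat 0, .ofNat 0, .negSucc 3967, .negSucc 2015, .negSucc 63], (.tr (.lf 5) (.tr (.lf 6) (.tr (.lf 14) (.dx 0 (.lf 13)) (.lf 19)) (.lf 9)) (.lf 10)), 0, [4, 7, 8, 11], [1015, 1015, 1015, 1015]⟩)))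
    (.nd (.nd (.lf ⟨[.ofNat 0, .ofNat 0, .negSucc 7551, .negSucc 4383, .negSucc 127], (.tr (.lf 19) (.dx 0 (.lf 13)) (.tr (.lf 9) (.lf 5) (.tr (.lf 6) (.lf 10) (.lf 14)))), 0, [11, 9, 11, 11], [11, 9, 11, 11]⟩)
    (.lf ⟨[.ofNat 0, .ofNat 0, .ofNat 3968, .ofNat 2016, .ofNat 64], (.tr (.lf 19) (.dx 0 (.lf 13)) (.tr (.lf 5) (.tr (.lf 6) (.lf 14) (.lf 9)) (.lf 10))), 0, [11, 11, 9, 9], [11, 11, 9, 9]⟩))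
    (.nd (.lf ⟨[.ofNat 0, .ofNat 0, .ofNat 7168, .ofNat 4736, .ofNat 128], (.tr (.lf 9) (.lf 5) (.tr (.lf 19) (.dx 0 (.lf 13)) (.tr (.lf 6) (.lf 10) (.lf 14)))), 0, [22, 9, 10, 10], [22, 1015, 10, 10]⟩)
    (.lf ⟨[.ofNat 0, .ofNat 0, .ofNat 8288, .ofNat 4808, .ofNat 224], (.tr (.dx 0 (.tr (.lf 5) (.lf 13) (.lf 6))) (.tr (.lf 9) (.lf 14) (.lf 19)) (.lf 10)), 0, [0, 7, 0, 7], []⟩))))

/-- data -/
def dE3x5 : RT := (.nd (.nd (.nd (.lf ⟨[.ofNat 0, .ofNat 0, .negSucc 8351, .negSucc 2903, .negSucc 191], (.tr (.dx 0 (.tr (.lf 5) (.lf 13) (.lf 6))) (.lf 19) (.tr (.lf 9) (.lf 10) (.lf 14))), 0, [0, 7, 0, 7], []⟩)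
    (.lf ⟨[.ofNat 0, .ofNat 0, .negSucc 6607, .negSucc 4539, .negSucc 159], (.tw (.dx 0 (.tr (.lf 5) (.lf 13) (.lf 6))) (.tr (.lf 9) (.tw (.lf 14) (.lf 19)) (.lf 10))), 0, [0, 0, 0, 0, 0, 0, 0, 0], []⟩))
    (.nd (.lf ⟨[.ofNat 0, .ofNat 0, .negSucc 5919, .negSucc 2775, .ofNat 256], (.tr (.dx 0 (.tr (.lf 5) (.lf 13) (.lf 6))) (.tr (.lf 9) (.lf 19) (.lf 14)) (.lf 10)), 0, [0, 19, 0, 19], []⟩)
    (.lf ⟨[.ofNat 0, .ofNat 0, .ofNat 11264, .ofNat 4320, .negSucc 95], (.tr (.lf 9) (.lf 14) (.tr (.dx 0 (.tr (.lf 5) (.lf 13) (.lf 6))) (.lf 10) (.lf 19))), 0, [6, 6, 1, 1], []⟩)))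
    (.nd (.nd (.lf ⟨[.ofNat 0, .ofNat 0, .negSucc 2439, .negSucc 725, .negSucc 47], (.tw (.lf 19) (.tr (.lf 9) (.tw (.dx 0 (.tr (.lf 5) (.lf 13) (.lf 6))) (.lf 14)) (.lf 10))), 0, [7, 7, 7, 7, 7, 7, 7, 7], []⟩)
    (.lf ⟨[.ofNat 0, .ofNat 0, .ofNat 11264, .ofNat 4320, .negSucc 95], (.tr (.lf 9) (.dx 0 (.tr (.lf 5) (.lf 13) (.lf 6))) (.tr (.lf 14) (.lf 10) (.lf 19))), 0, [6, 6, 6, 6], []⟩))
    (.nd (.lf ⟨[.ofNat 0, .ofNat 0, .negSucc 703], (.tw (.lf 14) (.tr (.lf 9) (.tw (.dx 0 (.tr (.lf 5) (.lf 13) (.lf 6))) (.lf 19)) (.lf 10))), 0, [19, 19, 7, 7, 19, 19, 7, 7], []⟩)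
    (.lf ⟨[.ofNat 0, .ofNat 0, .negSucc 6383, .negSucc 2867, .ofNat 192], (.tw (.dx 0 (.tw (.lf 5) (.tr (.lf 13) (.lf 6) (.tr (.lf 9) (.lf 14) (.lf 10))))) (.lf 19)), 0, [0, 0, 0, 0, 0, 0, 2, 2], []⟩))))

/-- data -/
def dE3x6 : RT := (.nd (.nd (.nd (.lf ⟨[.ofNat 0, .ofNat 0, .negSucc 12799, .negSucc 4735, .negSucc 127], (.tr (.dx 0 (.tr (.lf 5) (.lf 6) (.lf 13))) (.lf 14) (.tr (.lf 9) (.lf 19) (.lf 10))), 0, [0, 0, 19, 19], []⟩)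
    (.lf ⟨[.ofNat 0, .ofNat 0, .ofNat 12800, .ofNat 4736, .ofNat 128], (.tr (.dx 0 (.lf 19)) (.tr (.lf 13) (.tr (.lf 5) (.lf 9) (.lf 10)) (.lf 14)) (.lf 6)), 0, [12, 9, 12, 9], []⟩))
    (.nd (.lf ⟨[.ofNat 0, .ofNat 0, .negSucc 12799, .negSucc 4735, .negSucc 127], (.tr (.dx 0 (.lf 19)) (.lf 13) (.tr (.lf 5) (.lf 6) (.tr (.lf 9) (.lf 14) (.lf 10)))), 0, [11, 11, 9, 9], []⟩)
    (.lf ⟨[.ofNat 0, .ofNat 0, .ofNat 12800, .ofNat 4736, .ofNat 128], (.tr (.lf 9) (.lf 5) (.tr (.dx 0 (.lf 19)) (.tr (.lf 13) (.lf 10) (.lf 14)) (.lf 6))), 0, [22, 22, 10, 10], []⟩)))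
    (.nd (.nd (.lf ⟨[.ofNat 0, .ofNat 0, .ofNat 712, .ofNat 846, .ofNat 12], (.tr (.dx 0 (.tw (.lf 13) (.tr (.tw (.lf 5) (.lf 6)) (.lf 9) (.lf 10)))) (.lf 14) (.lf 19)), 0, [0, 0, 2, 2, 0, 0, 2, 2], []⟩)
    (.lf ⟨[.ofNat 0, .ofNat 0, .negSucc 2847, .negSucc 3383, .negSucc 47], (.tr (.dx 0 (.tr (.lf 5) (.lf 6) (.tr (.lf 9) (.lf 10) (.lf 13)))) (.lf 14) (.lf 19)), 0, [0, 0, 2, 2], []⟩))
    (.nd (.lf ⟨[.ofNat 0, .ofNat 0, .negSucc 711, .negSucc 845, .negSucc 11], (.tr (.lf 10) (.dx 3 (.tw (.lf 9) (.tr (.tw (.lf 1) (.lf 2)) (.lf 5) (.lf 6)))) (.lf 19)), 3, [6, 6, 10, 10, 6, 6, 10, 10], []⟩)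
    (.lf ⟨[.ofNat 0, .ofNat 0, .ofNat 2848, .ofNat 3384, .ofNat 48], (.tr (.lf 10) (.dx 3 (.tr (.lf 1) (.lf 2) (.tr (.lf 5) (.lf 6) (.lf 9)))) (.lf 19)), 3, [6, 6, 10, 10], []⟩))))

/-- data -/
def dE3x7 : RT := (.nd (.nd (.nd (.lf ⟨[.ofNat 0, .ofNat 0, .ofNat 1568, .ofNat 6648, .ofNat 112], (.tr (.lf 14) (.dx 0 (.tr (.lf 9) (.lf 5) (.tr (.lf 6) (.lf 10) (.lf 13)))) (.lf 19)), 0, [2, 2, 0, 15], []⟩)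
    (.lf ⟨[.ofNat 0, .ofNat 0, .negSucc 1567, .negSucc 6647, .negSucc 111], (.tr (.dx 3 (.tr (.lf 5) (.lf 1) (.tr (.lf 2) (.lf 6) (.lf 9)))) (.lf 10) (.lf 19)), 3, [4, 4, 0, 10], []⟩))
    (.nd (.lf ⟨[.ofNat 0, .ofNat 0, .ofNat 3136, .ofNat 13296, .ofNat 224], (.tr (.lf 14) (.tr (.dx 0 (.tr (.lf 9) (.lf 5) (.lf 13))) (.lf 6) (.lf 10)) (.lf 19)), 0, [2, 23, 10, 10], [1023, 1023]⟩)
    (.lf ⟨[.ofNat 0, .ofNat 0, .negSucc 1487, .negSucc 443, .negSucc 63], (.tr (.dx 0 (.tr (.lf 13) (.lf 5) (.lf 14))) (.tr (.lf 9) (.lf 10) (.lf 19)) (.lf 6)), 0, [21, 21, 21, 21], []⟩)))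
    (.nd (.nd (.lf ⟨[.ofNat 0, .ofNat 0, .ofNat 2976, .ofNat 888, .ofNat 128], (.tr (.lf 6) (.lf 9) (.tr (.dx 0 (.tr (.lf 13) (.lf 5) (.lf 14))) (.lf 19) (.lf 10))), 0, [8, 8, 20, 20], []⟩)
    (.lf ⟨[.ofNat 0, .ofNat 0, .ofNat 3424, .ofNat 1480, .negSucc 63], (.tr (.lf 9) (.lf 19) (.tr (.dx 0 (.tr (.lf 13) (.lf 5) (.lf 14))) (.lf 10) (.lf 6))), 0, [9, 9, 22, 22], []⟩))
    (.nd (.lf ⟨[.ofNat 0, .ofNat 0, .negSucc 1711, .negSucc 739, .ofNat 32], (.tw (.dx 0 (.tr (.lf 13) (.lf 5) (.lf 14))) (.tr (.lf 9) (.tw (.lf 6) (.lf 19)) (.lf 10))), 0, [23, 23, 23, 23, 23, 23, 23, 23], []⟩)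
    (.lf ⟨[.ofNat 0, .ofNat 0, .ofNat 3200, .ofNat 1184, .ofNat 32], (.tw (.lf 6) (.tr (.lf 9) (.tw (.dx 0 (.tr (.lf 13) (.lf 5) (.lf 14))) (.lf 19)) (.lf 10))), 0, [8, 8, 7, 7, 8, 8, 7, 7], []⟩))))

/-- data -/
def dE3x8 : RT := (.nd (.nd (.nd (.lf ⟨[.ofNat 0, .ofNat 0, .ofNat 2976, .ofNat 888, .ofNat 128], (.tr (.dx 0 (.tr (.lf 13) (.lf 9) (.tr (.lf 5) (.lf 6) (.lf 19)))) (.lf 14) (.lf 10)), 0, [2, 7, 12, 12], []⟩)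
    (.lf ⟨[.ofNat 0, .ofNat 0, .negSucc 12799, .negSucc 4735, .negSucc 127], (.tw (.dx 0 (.tw (.lf 5) (.tr (.lf 19) (.lf 6) (.tr (.lf 13) (.lf 9) (.lf 14))))) (.lf 10)), 0, [7, 7, 0, 0, 7, 7, 19, 19], []⟩))
    (.nd (.lf ⟨[.ofNat 0, .ofNat 0, .ofNat 6400, .ofNat 2368, .ofNat 64], (.tr (.lf 9) (.lf 5) (.tr (.lf 6) (.dx 0 (.lf 19)) (.tr (.lf 13) (.lf 10) (.lf 14)))), 0, [22, 22, 10, 10], []⟩)
    (.lf ⟨[.ofNat 0, .ofNat 0, .negSucc 6399, .negSucc 2367, .negSucc 63], (.tw (.dx 0 (.tr (.lf 13) (.lf 5) (.tr (.tw (.lf 9) (.lf 10)) (.lf 6) (.lf 19)))) (.lf 14)), 0, [0, 0, 0, 0, 14, 14, 12, 12], []⟩)))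
    (.nd (.nd (.lf ⟨[.ofNat 0, .ofNat 0, .ofNat 4176, .ofNat 4332, .ofNat 88], (.tr (.dx 0 (.tr (.lf 13) (.tw (.lf 5) (.lf 9)) (.lf 14))) (.tw (.lf 6) (.lf 10)) (.lf 19)), 0, [0, 0, 2, 2, 0, 0, 2, 2], []⟩)
    (.lf ⟨[.ofNat 0, .ofNat 0, .negSucc 1567, .negSucc 6647, .negSucc 111], (.tr (.tw (.lf 10) (.lf 14)) (.dx 0 (.tr (.lf 5) (.tw (.lf 9) (.lf 13)) (.lf 6))) (.lf 19)), 0, [6, 6, 6, 6, 6, 6, 6, 6], []⟩))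
    (.nd (.lf ⟨[.ofNat 0, .ofNat 0, .ofNat 80, .ofNat 3324, .ofNat 56], (.tr (.dx 3 (.tr (.lf 1) (.tw (.lf 5) (.lf 9)) (.lf 2))) (.tw (.lf 6) (.lf 10)) (.lf 19)), 3, [0, 0, 2, 2, 0, 0, 2, 2], []⟩)
    (.lf ⟨[.ofNat 0, .ofNat 0, .ofNat 6424, .ofNat 826, .negSucc 59], (.tr (.dx 0 (.tr (.lf 5) (.tw (.lf 13) (.lf 14)) (.lf 9))) (.lf 19) (.tw (.lf 6) (.lf 10))), 0, [23, 21, 23, 21, 23, 21, 23, 21], []⟩))))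

/-- data -/
def dE3x9 : RT := (.nd (.nd (.nd (.lf ⟨[.ofNat 0, .ofNat 0, .ofNat 7840, .ofNat 2840, .negSucc 31], (.tr (.lf 6) (.tw (.dx 0 (.tr (.lf 5) (.tw (.lf 13) (.lf 14)) (.lf 9))) (.lf 19)) (.lf 10)), 0, [4, 4, 4, 4, 7, 7, 7, 7], []⟩)
    (.lf ⟨[.ofNat 0, .ofNat 0, .negSucc 2999, .ofNat 654, .negSucc 3], (.tr (.dx 0 (.tr (.lf 5) (.lf 9) (.tw (.lf 13) (.lf 14)))) (.lf 6) (.tw (.lf 10) (.lf 19))), 0, [0, 0, 0, 0, 2, 23, 2, 23], []⟩))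
    (.nd (.lf ⟨[.ofNat 0, .ofNat 0, .ofNat 3056, .negSucc 4571, .negSucc 55], (.tr (.tw (.dx 0 (.tr (.lf 5) (.lf 9) (.tw (.lf 13) (.lf 14)))) (.lf 6)) (.lf 19) (.lf 10)), 0, [0, 0, 23, 23, 4, 4, 4, 4], []⟩)
    (.lf ⟨[.ofNat 0, .ofNat 0, .ofNat 2944, .ofNat 3264, .ofNat 64], (.tr (.tw (.dx 0 (.tr (.lf 5) (.tw (.lf 13) (.lf 14)) (.lf 9))) (.lf 6)) (.lf 19) (.lf 10)), 0, [0, 0, 2, 2, 4, 4, 4, 4], []⟩)))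
    (.nd (.nd (.lf ⟨[.ofNat 0, .ofNat 0, .negSucc 559, .ofNat 10092, .ofNat 152], (.tw (.dx 0 (.tr (.lf 5) (.lf 9) (.lf 19))) (.tr (.lf 6) (.lf 10) (.tw (.lf 13) (.lf 14)))), 0, [12, 12, 12, 12, 14, 14, 9, 9], []⟩)
    (.lf ⟨[.ofNat 0, .ofNat 0, .negSucc 5887, .negSucc 6527, .negSucc 127], (.tr (.lf 9) (.lf 19) (.tr (.dx 0 (.lf 5)) (.tr (.lf 10) (.lf 13) (.lf 14)) (.lf 6))), 0, [18, 9, 1, 1], [18, 9, 22, 3]⟩))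
    (.nd (.lf ⟨[.ofNat 0, .ofNat 0, .negSucc 2999, .ofNat 654, .negSucc 3], (.tr (.dx 0 (.tr (.lf 5) (.lf 9) (.tw (.lf 13) (.lf 14)))) (.tw (.lf 6) (.lf 19)) (.lf 10)), 0, [0, 0, 0, 0, 23, 23, 23, 23], []⟩)
    (.lf ⟨[.ofNat 0, .ofNat 0, .ofNat 3000, .negSucc 653, .ofNat 4], (.tr (.tw (.dx 0 (.tr (.lf 5) (.lf 9) (.tw (.lf 13) (.lf 14)))) (.lf 19)) (.lf 6) (.lf 10)), 0, [0, 0, 23, 23, 11, 11, 11, 11], []⟩))))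

/-- data -/
def dE3x10 : RT := (.nd (.nd (.nd (.lf ⟨[.ofNat 0, .ofNat 0, .negSucc 5999, .ofNat 1308, .negSucc 7], (.tr (.lf 6) (.tw (.dx 0 (.tr (.tw (.lf 5) (.lf 9)) (.lf 13) (.lf 14))) (.lf 19)) (.lf 10)), 0, [4, 4, 4, 4, 7, 7, 7, 7], []⟩)
    (.lf ⟨[.ofNat 0, .ofNat 0, .ofNat 6400, .ofNat 2368, .ofNat 64], (.tr (.tw (.lf 6) (.lf 10)) (.dx 0 (.tr (.lf 13) (.tw (.lf 5) (.lf 9)) (.lf 14))) (.lf 19)), 0, [8, 8, 8, 8, 10, 10, 10, 10], []⟩))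
    (.nd (.lf ⟨[.ofNat 0, .ofNat 0, .ofNat 6400, .ofNat 2368, .ofNat 64], (.tr (.dx 0 (.tr (.lf 5) (.lf 9) (.tr (.lf 13) (.lf 6) (.lf 14)))) (.lf 10) (.lf 19)), 0, [0, 0, 0, 0], []⟩)
    (.lf ⟨[.ofNat 0, .ofNat 0, .negSucc 543, .ofNat 4648, .ofNat 464], (.tr (.dx 0 (.tr (.lf 9) (.lf 5) (.tr (.lf 13) (.lf 6) (.lf 14)))) (.lf 19) (.lf 10)), 0, [2, 2, 19, 19], []⟩)))
    (.nd (.nd (.lf ⟨[.ofNat 0, .ofNat 0, .ofNat 4960, .ofNat 520, .negSucc 287], (.tr (.dx 0 (.tr (.lf 5) (.tr (.lf 13) (.lf 6) (.lf 14)) (.lf 9))) (.lf 19) (.lf 10)), 0, [0, 0, 2, 2], []⟩)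
    (.lf ⟨[.ofNat 0, .ofNat 0, .negSucc 1055, .negSucc 2071, .ofNat 256], (.tw (.dx 0 (.tr (.lf 5) (.tr (.tw (.lf 9) (.lf 10)) (.lf 6) (.lf 13)) (.lf 14))) (.lf 19)), 0, [0, 0, 0, 0, 2, 2, 0, 0], []⟩))
    (.nd (.lf ⟨[.ofNat 0, .ofNat 0, .negSucc 6399, .negSucc 2367, .negSucc 63], (.tr (.lf 13) (.dx 0 (.lf 19)) (.tr (.lf 5) (.lf 6) (.tr (.lf 9) (.lf 14) (.lf 10)))), 0, [11, 11, 9, 9], []⟩)
    (.lf ⟨[.ofNat 0, .ofNat 0, .ofNat 6400, .ofNat 2368, .ofNat 64], (.tr (.lf 5) (.tr (.dx 0 (.lf 19)) (.tr (.lf 9) (.lf 13) (.lf 10)) (.lf 6)) (.lf 14)), 0, [16, 16, 8, 8], []⟩))))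

/-- data -/
def dE3x11 : RT := (.nd (.nd (.nd (.lf ⟨[.ofNat 0, .ofNat 0, .ofNat 6000, .negSucc 1307, .ofNat 8], (.tr (.lf 5) (.lf 6) (.tw (.dx 0 (.lf 19)) (.tr (.lf 9) (.tw (.lf 13) (.lf 14)) (.lf 10)))), 0, [16, 16, 16, 16, 8, 8, 8, 8], []⟩)
    (.lf ⟨[.ofNat 0, .ofNat 0, .ofNat 2640, .ofNat 1068, .ofNat 24], (.tw (.lf 6) (.tr (.lf 13) (.tr (.lf 9) (.dx 0 (.tw (.lf 5) (.lf 19))) (.lf 10)) (.lf 14))), 0, [8, 8, 8, 8, 8, 8, 8, 8], []⟩))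
    (.nd (.lf ⟨[.ofNat 0, .ofNat 0, .ofNat 1120, .negSucc 20183, .negSucc 303], (.tr (.dx 0 (.tr (.lf 5) (.lf 9) (.lf 19))) (.tr (.lf 10) (.lf 13) (.lf 14)) (.lf 6)), 0, [12, 12, 14, 9], []⟩)
    (.lf ⟨[.ofNat 0, .ofNat 0, .negSucc 2999, .ofNat 654, .negSucc 3], (.tr (.lf 1) (.tr (.dx 3 .on) (.tr (.lf 9) (.tw (.lf 2) (.lf 5)) (.lf 10)) (.lf 19)) (.lf 6)), 3, [21, 21, 21, 21, 14, 14, 14, 14], [1017, 1017, 1017, 1017, 1017, 1017, 1017, 1017]⟩)))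
    (.nd (.nd (.lf ⟨[.ofNat 0, .ofNat 0, .negSucc 11999, .ofNat 2616, .negSucc 15], (.tr (.dx 0 (.tr (.lf 5) (.lf 13) (.lf 14))) (.lf 9) (.tr (.lf 6) (.lf 19) (.lf 10))), 0, [0, 0, 23, 21], []⟩)
    (.lf ⟨[.ofNat 0, .ofNat 0, .ofNat 24000, .negSucc 5231, .ofNat 32], (.tr (.dx 0 (.tr (.lf 5) (.lf 13) (.lf 14))) (.tr (.lf 9) (.lf 6) (.lf 19)) (.lf 10)), 0, [0, 23, 23, 23], []⟩))
    (.nd (.lf ⟨[.ofNat 0, .ofNat 0, .negSucc 5999, .ofNat 1308, .negSucc 7], (.tr (.lf 6) (.dx 0 (.tr (.tw (.lf 13) (.lf 14)) (.lf 5) (.lf 19))) (.tw (.lf 9) (.lf 10))), 0, [19, 19, 19, 19, 7, 7, 7, 7], []⟩)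
    (.lf ⟨[.ofNat 0, .ofNat 0, .ofNat 6000, .negSucc 1307, .ofNat 8], (.tw (.lf 6) (.tr (.dx 0 (.tr (.lf 5) (.lf 13) (.lf 14))) (.tw (.lf 9) (.lf 10)) (.lf 19))), 0, [4, 4, 4, 4, 20, 1, 20, 1], []⟩))))

/-- data -/
def dE3x12 : RT := (.nd (.nd (.nd (.lf ⟨[.ofNat 0, .ofNat 0, .negSucc 11999, .ofNat 2616, .negSucc 15], (.tr (.lf 6) (.tr (.dx 0 (.tr (.lf 5) (.lf 13) (.lf 14))) (.lf 9) (.lf 10)) (.lf 19)), 0, [4, 4, 8, 8], []⟩)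
    (.lf ⟨[.ofNat 0, .ofNat 0, .ofNat 12000, .negSucc 2615, .ofNat 16], (.tr (.lf 6) (.lf 9) (.tr (.lf 10) (.dx 0 (.tr (.lf 5) (.lf 13) (.lf 14))) (.lf 19))), 0, [8, 8, 20, 7], []⟩))
    (.nd (.lf ⟨[.ofNat 0, .ofNat 0, .negSucc 5999, .ofNat 1308, .negSucc 7], (.tw (.lf 6) (.tr (.lf 9) (.tr (.dx 0 (.tw (.lf 5) (.lf 19))) (.lf 13) (.lf 14)) (.lf 10))), 0, [20, 20, 19, 19, 20, 20, 19, 19], []⟩)
    (.lf ⟨[.ofNat 0, .ofNat 0, .ofNat 3000, .negSucc 653, .ofNat 4], (.tr (.dx 0 (.tw (.lf 5) (.lf 9))) (.lf 19) (.tr (.lf 6) (.tw (.lf 13) (.lf 14)) (.lf 10))), 0, [12, 12, 12, 12, 14, 14, 14, 14], [12, 12, 14, 14]⟩)))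
    (.nd (.nd (.lf ⟨[.ofNat 0, .ofNat 0, .ofNat 3584, .ofNat 2368, .ofNat 64], (.tr (.dx 0 (.tr (.lf 5) (.lf 9) (.lf 19))) (.lf 6) (.tr (.lf 13) (.lf 10) (.lf 14))), 0, [12, 12, 14, 14], []⟩)
    (.lf ⟨[.ofNat 0, .ofNat 0, .ofNat 5728, .ofNat 2840, .negSucc 31], (.tr (.dx 0 (.tr (.lf 9) (.lf 5) (.lf 19))) (.lf 6) (.tr (.lf 13) (.lf 10) (.lf 14))), 0, [14, 14, 12, 12], []⟩))
    (.nd (.lf ⟨[.ofNat 0, .ofNat 0, .ofNat 2720, .ofNat 1480, .negSucc 63], (.tr (.lf 6) (.dx 0 (.tr (.lf 9) (.lf 5) (.lf 19))) (.tr (.lf 13) (.lf 10) (.lf 14))), 0, [16, 16, 16, 16], []⟩)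
    (.lf ⟨[.ofNat 0, .ofNat 0, .negSucc 11999, .ofNat 2616, .negSucc 15], (.tr (.dx 0 (.tr (.lf 5) (.lf 19) (.lf 9))) (.lf 13) (.tr (.lf 6) (.lf 10) (.lf 14))), 0, [12, 12, 14, 14], []⟩))))

/-- data -/
def dE3x13 : RT := (.nd (.nd (.nd (.lf ⟨[.ofNat 0, .ofNat 0, .ofNat 1624, .ofNat 2730, .ofNat 52], (.tw (.dx 0 (.tr (.lf 5) (.lf 19) (.lf 9))) (.tr (.lf 13) (.tw (.lf 6) (.lf 10)) (.lf 14))), 0, [12, 12, 12, 12, 14, 14, 14, 14], []⟩)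
    (.lf ⟨[.ofNat 0, .ofNat 0, .negSucc 4863, .ofNat 2496], (.tr (.dx 0 (.tr (.lf 5) (.lf 9) (.lf 19))) (.tr (.lf 6) (.lf 10) (.lf 13)) (.lf 14)), 0, [12, 12, 14, 14], []⟩))
    (.nd (.lf ⟨[.ofNat 0, .ofNat 0, .ofNat 2432, .negSucc 1247], (.tr (.lf 6) (.tr (.lf 9) (.dx 0 (.tr (.lf 13) (.lf 5) (.lf 19))) (.lf 10)) (.lf 14)), 0, [8, 20, 8, 20], []⟩)
    (.lf ⟨[.ofNat 0, .ofNat 0, .negSucc 7295, .negSucc 6527, .negSucc 127], (.tr (.lf 14) (.dx 0 (.tr (.lf 5) (.lf 13) (.lf 9))) (.tr (.lf 6) (.lf 19) (.lf 10))), 0, [23, 21, 23, 21], [23, 21]⟩)))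
    (.nd (.nd (.lf ⟨[.ofNat 0, .ofNat 0, .negSucc 3039, .ofNat 3928, .ofNat 48], (.tr (.dx 0 (.tr (.lf 13) (.tr (.lf 5) (.lf 9) (.lf 6)) (.lf 19))) (.lf 10) (.lf 14)), 0, [0, 0, 12, 12], []⟩)
    (.lf ⟨[.ofNat 0, .ofNat 0, .negSucc 6943, .negSucc 8663, .negSucc 175], (.tr (.lf 6) (.lf 10) (.tr (.lf 13) (.dx 0 (.tr (.lf 5) (.lf 19) (.lf 9))) (.lf 14))), 0, [8, 8, 8, 8], []⟩))
    (.nd (.lf ⟨[.ofNat 0, .ofNat 0, .ofNat 10880, .ofNat 17568, .ofNat 320], (.tr (.lf 6) (.lf 13) (.tr (.dx 0 (.tr (.lf 5) (.lf 9) (.lf 19))) (.lf 10) (.lf 14))), 0, [4, 4, 15, 13], []⟩)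
    (.lf ⟨[.ofNat 0, .ofNat 0, .ofNat 2816], (.tr (.lf 13) (.lf 6) (.tr (.dx 0 (.tr (.lf 5) (.lf 19) (.lf 9))) (.lf 14) (.lf 10))), 0, [7, 7, 15, 13], []⟩))))

/-- data -/
def dE3x14 : RT := (.nd (.nd (.nd (.lf ⟨[.ofNat 0, .ofNat 0, .negSucc 3743, .negSucc 8279, .negSucc 143], (.tw (.lf 6) (.tr (.lf 13) (.tw (.dx 0 (.tr (.lf 5) (.lf 9) (.lf 19))) (.lf 10)) (.lf 14))), 0, [4, 4, 8, 8, 4, 4, 8, 8], []⟩)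
    (.lf ⟨[.ofNat 0, .ofNat 0, .ofNat 1696, .ofNat 504, .ofNat 16], (.tw (.lf 9) (.tr (.lf 13) (.tr (.dx 0 (.tw (.lf 5) (.lf 19))) (.lf 10) (.lf 6)) (.lf 14))), 0, [6, 6, 10, 10, 6, 6, 10, 10], []⟩))
    (.nd (.lf ⟨[.ofNat 0, .ofNat 0, .ofNat 7424, .ofNat 3344, .negSucc 15], (.tw (.dx 3 (.tr (.lf 1) (.lf 19) (.tr (.lf 5) (.tw (.lf 2) (.lf 9)) (.lf 6)))) (.lf 10)), 3, [11, 11, 11, 11, 7, 7, 7, 7], []⟩)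
    (.lf ⟨[.ofNat 0, .ofNat 0, .negSucc 3391, .negSucc 1007, .negSucc 31], (.tr (.lf 13) (.dx 0 (.tw (.lf 5) (.lf 19))) (.tr (.lf 9) (.tw (.lf 6) (.lf 14)) (.lf 10))), 0, [11, 11, 11, 11, 11, 11, 11, 11], []⟩)))
    (.nd (.nd (.lf ⟨[.ofNat 0, .ofNat 0, .negSucc 3391, .negSucc 1007, .negSucc 31], (.tr (.lf 9) (.lf 6) (.tr (.lf 13) (.tw (.dx 0 (.tw (.lf 5) (.lf 19))) (.lf 10)) (.lf 14))), 0, [10, 10, 10, 10, 10, 10, 10, 10], []⟩)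
    (.lf ⟨[.ofNat 0, .ofNat 0, .ofNat 1984, .ofNat 1008, .ofNat 32], (.tr (.lf 13) (.tw (.dx 0 (.tr (.tw (.lf 5) (.lf 6)) (.lf 19) (.lf 9))) (.lf 10)) (.lf 14)), 0, [7, 7, 7, 7, 6, 6, 6, 6], []⟩))
    (.nd (.lf ⟨[.ofNat 0, .ofNat 0, .negSucc 3967, .negSucc 2015, .negSucc 63], (.tr (.tw (.dx 0 (.tr (.tw (.lf 5) (.lf 6)) (.lf 19) (.lf 9))) (.lf 13)) (.lf 10) (.lf 14)), 0, [12, 12, 14, 14, 7, 7, 7, 7], []⟩)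
    (.lf ⟨[.ofNat 0, .ofNat 0, .ofNat 2608, .negSucc 779, .ofNat 8], (.tr (.dx 0 (.tw (.lf 13) (.lf 19))) (.lf 14) (.tr (.tw (.lf 5) (.lf 6)) (.lf 9) (.lf 10))), 0, [11, 11, 9, 9, 11, 11, 9, 9], []⟩))))

/-- data -/
def dE3x15 : RT := (.nd (.nd (.nd (.lf ⟨[.ofNat 0, .ofNat 0, .negSucc 3311, .ofNat 780, .negSucc 7], (.tr (.lf 2) (.dx 3 (.tw (.lf 1) (.lf 19))) (.tr (.tw (.lf 5) (.lf 6)) (.lf 9) (.lf 10))), 3, [11, 11, 9, 9, 11, 11, 9, 9], []⟩)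
    (.lf ⟨[.ofNat 0, .ofNat 0, .ofNat 1408], (.tr (.dx 0 (.tw (.lf 13) (.lf 19))) (.tr (.lf 5) (.tw (.lf 9) (.lf 10)) (.lf 14)) (.lf 6)), 0, [9, 9, 9, 9, 9, 9, 9, 9], []⟩))
    (.nd (.lf ⟨[.ofNat 0, .ofNat 0, .negSucc 1407], (.tw (.dx 0 (.tr (.lf 5) (.lf 6) (.lf 13))) (.tr (.lf 9) (.tw (.lf 14) (.lf 19)) (.lf 10))), 0, [0, 0, 0, 0, 0, 0, 0, 0], []⟩)
    (.lf ⟨[.ofNat 0, .ofNat 0, .negSucc 3903, .ofNat 1680, .ofNat 640], (.tr (.lf 9) (.lf 14) (.tr (.dx 0 (.tr (.lf 5) (.lf 6) (.lf 13))) (.lf 10) (.lf 19))), 0, [6, 6, 1, 1], []⟩)))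
    (.nd (.nd (.lf ⟨[.ofNat 0, .ofNat 0, .ofNat 1792, .negSucc 5823, .negSucc 127], (.tr (.lf 19) (.lf 9) (.tr (.dx 0 (.tr (.lf 5) (.lf 6) (.lf 13))) (.lf 14) (.lf 10))), 0, [7, 7, 1, 1], []⟩)
    (.lf ⟨[.ofNat 0, .ofNat 0, .negSucc 5695, .negSucc 6767, .negSucc 95], (.tr (.dx 0 (.tr (.lf 5) (.lf 6) (.lf 13))) (.tr (.lf 9) (.lf 10) (.lf 14)) (.lf 19)), 0, [0, 0, 0, 0], []⟩))
    (.nd (.lf ⟨[.ofNat 0, .ofNat 0, .ofNat 3904, .ofNat 12592, .ofNat 224], (.tr (.lf 6) (.tr (.dx 3 (.tr (.lf 1) (.lf 2) (.lf 5))) (.lf 9) (.lf 10)) (.lf 19)), 3, [4, 4, 8, 8], []⟩)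
    (.lf ⟨[.ofNat 0, .ofNat 0, .ofNat 1056, .ofNat 2072, .negSucc 255], (.tw (.dx 0 (.tr (.lf 13) (.lf 5) (.tr (.lf 6) (.tw (.lf 9) (.lf 10)) (.lf 14)))) (.lf 19)), 0, [0, 0, 0, 0, 0, 0, 2, 2], []⟩))))

/-- data -/
def dE3x16 : RT := (.nd (.nd (.nd (.lf ⟨[.ofNat 0, .ofNat 0, .negSucc 6623, .ofNat 1560, .negSucc 15], (.tr (.dx 0 (.tw (.lf 13) (.lf 19))) (.lf 14) (.tr (.lf 5) (.tw (.lf 6) (.lf 9)) (.lf 10))), 0, [11, 11, 9, 9, 11, 11, 9, 9], []⟩)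
    (.lf ⟨[.ofNat 0, .ofNat 0, .ofNat 6624, .negSucc 1559, .ofNat 16], (.tr (.lf 2) (.dx 3 (.tw (.lf 1) (.lf 19))) (.tr (.lf 5) (.tw (.lf 6) (.lf 9)) (.lf 10))), 3, [11, 11, 9, 9, 11, 11, 9, 9], []⟩))
    (.nd (.lf ⟨[.ofNat 0, .ofNat 0, .ofNat 4928, .ofNat 4272, .ofNat 96], (.tw (.lf 5) (.tr (.dx 0 (.tw (.lf 13) (.lf 19))) (.lf 6) (.tr (.lf 9) (.lf 14) (.lf 10)))), 0, [4, 4, 16, 16, 8, 8, 8, 8], []⟩)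
    (.lf ⟨[.ofNat 0, .ofNat 0, .negSucc 4927, .negSucc 4271, .negSucc 95], (.tr (.lf 5) (.tr (.dx 0 (.tw (.lf 13) (.lf 19))) (.tw (.lf 6) (.lf 9)) (.lf 14)) (.lf 10)), 0, [4, 4, 16, 16, 19, 7, 19, 7], []⟩)))
    (.nd (.nd (.lf ⟨[.ofNat 0, .ofNat 0, .ofNat 5888, .ofNat 6528, .ofNat 128], (.tr (.lf 6) (.dx 0 (.tr (.lf 5) (.lf 19) (.lf 13))) (.tr (.lf 9) (.lf 14) (.lf 10))), 0, [16, 16, 4, 4], []⟩)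
    (.lf ⟨[.ofNat 0, .ofNat 0, .negSucc 2943, .negSucc 3263, .negSucc 63], (.tr (.dx 0 (.tr (.lf 5) (.lf 19) (.lf 13))) (.tr (.lf 9) (.lf 14) (.lf 10)) (.lf 6)), 0, [9, 9, 9, 9], []⟩))
    (.nd (.lf ⟨[.ofNat 0, .ofNat 0, .ofNat 2944, .ofNat 3264, .ofNat 64], (.tr (.dx 0 (.tr (.lf 5) (.lf 13) (.lf 19))) (.lf 14) (.tr (.lf 9) (.lf 6) (.lf 10))), 0, [11, 11, 11, 11], []⟩)
    (.lf ⟨[.ofNat 0, .ofNat 0, .negSucc 2943, .negSucc 3263, .negSucc 63], (.tr (.lf 6) (.dx 0 (.tr (.lf 13) (.lf 19) (.tr (.lf 5) (.lf 14) (.lf 9)))) (.lf 10)), 0, [7, 7, 4, 4], []⟩))))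

/-- data -/
def dE3x17 : RT := (.nd (.nd (.nd (.lf ⟨[.ofNat 0, .ofNat 0, .negSucc 2943, .negSucc 3263, .negSucc 63], (.tr (.lf 6) (.tr (.dx 0 (.tr (.lf 5) (.lf 13) (.lf 9))) (.lf 14) (.lf 19)) (.lf 10)), 0, [4, 4, 7, 7], [4, 7]⟩)
    (.lf ⟨[.ofNat 0, .ofNat 0, .negSucc 3391, .negSucc 1007, .negSucc 31], (.tr (.lf 14) (.dx 0 (.tr (.lf 5) (.lf 13) (.lf 19))) (.tr (.lf 9) (.lf 6) (.lf 10))), 0, [23, 23, 11, 11], []⟩))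
    (.nd (.lf ⟨[.ofNat 0, .ofNat 0, .negSucc 7391, .ofNat 296, .ofNat 64], (.tr (.lf 14) (.dx 0 (.tr (.lf 5) (.lf 19) (.lf 13))) (.tr (.lf 9) (.lf 6) (.lf 10))), 0, [11, 11, 23, 23], []⟩)
    (.lf ⟨[.ofNat 0, .ofNat 0, .ofNat 7392, .negSucc 295, .negSucc 63], (.tr (.dx 3 (.tr (.lf 1) (.lf 5) (.lf 19))) (.lf 2) (.tr (.lf 9) (.lf 6) (.lf 10))), 3, [11, 11, 11, 11], []⟩)))
    (.nd (.nd (.lf ⟨[.ofNat 0, .ofNat 0, .negSucc 7391, .ofNat 296, .ofNat 64], (.tr (.lf 13) (.lf 19) (.tr (.dx 0 (.lf 5)) (.tr (.lf 9) (.lf 14) (.lf 10)) (.lf 6))), 0, [9, 9, 1, 1], [9, 9, 3, 3]⟩)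
    (.lf ⟨[.ofNat 0, .ofNat 0, .ofNat 5472, .ofNat 1032, .negSucc 63], (.tr (.dx 3 (.tr (.lf 5) (.tr (.lf 1) (.lf 9) (.lf 2)) (.lf 19))) (.lf 6) (.lf 10)), 3, [11, 11, 11, 11], []⟩))
    (.nd (.lf ⟨[.ofNat 0, .ofNat 0, .negSucc 8191, .negSucc 831, .ofNat 48], (.tr (.lf 10) (.dx 0 (.tr (.lf 13) (.lf 19) (.tr (.lf 5) (.lf 9) (.lf 6)))) (.lf 14)), 0, [6, 6, 18, 18], []⟩)
    (.lf ⟨[.ofNat 0, .ofNat 0, .negSucc 3391, .negSucc 1007, .negSucc 31], (.tr (.dx 0 (.tr (.lf 5) (.lf 19) (.lf 13))) (.tr (.lf 9) (.lf 6) (.lf 10)) (.lf 14)), 0, [12, 12, 0, 0], []⟩))))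

/-- data -/
def dE3x18 : RT := (.nd (.nd (.nd (.lf ⟨[.ofNat 0, .ofNat 0, .negSucc 1823, .ofNat 5640, .ofNat 80], (.tr (.lf 14) (.lf 6) (.tr (.lf 9) (.dx 0 (.tr (.lf 5) (.lf 19) (.lf 13))) (.lf 10))), 0, [7, 19, 7, 19], []⟩)
    (.lf ⟨[.ofNat 0, .ofNat 0, .ofNat 3392, .ofNat 1008, .ofNat 32], (.tr (.lf 6) (.tr (.lf 9) (.dx 0 (.tr (.lf 5) (.lf 13) (.lf 19))) (.lf 10)) (.lf 14)), 0, [8, 20, 8, 20], []⟩))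
    (.nd (.lf ⟨[.ofNat 0, .ofNat 0, .ofNat 3952, .ofNat 1892, .negSucc 111], (.tr (.dx 0 (.tr (.lf 13) (.tw (.lf 5) (.lf 6)) (.lf 19))) (.lf 14) (.tw (.lf 9) (.lf 10))), 0, [7, 7, 7, 7, 7, 7, 7, 7], []⟩)
    (.lf ⟨[.ofNat 0, .ofNat 0, .negSucc 7903, .negSucc 3783, .ofNat 224], (.tr (.dx 0 (.tr (.tw (.lf 5) (.lf 13)) (.lf 6) (.lf 19))) (.lf 14) (.tw (.lf 9) (.lf 10))), 0, [7, 7, 7, 7, 7, 7, 7, 7], []⟩)))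
    (.nd (.nd (.lf ⟨[.ofNat 0, .ofNat 0, .ofNat 2240, .negSucc 1327], (.tr (.tw (.lf 9) (.lf 10)) (.dx 0 (.tr (.tw (.lf 5) (.lf 6)) (.lf 19) (.lf 13))) (.lf 14)), 0, [18, 18, 6, 6, 18, 18, 6, 6], []⟩)
    (.lf ⟨[.ofNat 0, .ofNat 0, .negSucc 2239, .ofNat 1328], (.tr (.dx 3 (.tr (.lf 5) (.tw (.lf 1) (.lf 2)) (.lf 19))) (.lf 6) (.tw (.lf 9) (.lf 10))), 3, [11, 11, 11, 11, 11, 11, 11, 11], []⟩))
    (.nd (.lf ⟨[.ofNat 0, .ofNat 0, .negSucc 3391, .negSucc 1007, .negSucc 31], (.tr (.dx 0 (.tr (.tw (.lf 5) (.lf 9)) (.lf 19) (.lf 13))) (.tw (.lf 6) (.lf 10)) (.lf 14)), 0, [12, 12, 14, 14, 0, 0, 2, 2], []⟩)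
    (.lf ⟨[.ofNat 0, .ofNat 0, .ofNat 3392, .ofNat 1008, .ofNat 32], (.tr (.tw (.lf 6) (.lf 10)) (.dx 0 (.tr (.tw (.lf 5) (.lf 9)) (.lf 13) (.lf 19))) (.lf 14)), 0, [8, 8, 20, 20, 10, 10, 22, 22], []⟩))))

/-- data -/
def dE3x19 : RT := (.nd (.nd (.nd (.lf ⟨[.ofNat 0, .ofNat 0, .negSucc 1407], (.tr (.dx 0 (.tr (.lf 13) (.tw (.lf 5) (.lf 9)) (.lf 19))) (.tw (.lf 6) (.lf 10)) (.lf 14)), 0, [0, 0, 2, 2, 12, 12, 14, 14], []⟩)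
    (.lf ⟨[.ofNat 0, .ofNat 0, .ofNat 8320, .ofNat 5280, .ofNat 128], (.tr (.dx 3 (.tr (.lf 5) (.lf 1) (.lf 9))) (.lf 2) (.tr (.lf 6) (.lf 19) (.lf 10))), 3, [23, 21, 23, 21], [23, 21]⟩))
    (.nd (.lf ⟨[.ofNat 0, .ofNat 0, .negSucc 6783, .negSucc 2015, .negSucc 63], (.tw (.lf 6) (.tr (.lf 14) (.tr (.lf 9) (.dx 0 (.tw (.lf 5) (.lf 13))) (.lf 10)) (.lf 19))), 0, [8, 8, 8, 8, 20, 20, 20, 20], [8, 8, 20, 20]⟩)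
    (.lf ⟨[.ofNat 0, .ofNat 0, .negSucc 2943, .negSucc 3263, .negSucc 63], (.tr (.tw (.dx 0 (.tr (.lf 5) (.tw (.lf 9) (.lf 13)) (.lf 6))) (.lf 14)) (.lf 19) (.lf 10)), 0, [0, 0, 0, 0, 19, 19, 19, 19], []⟩)))
    (.nd (.nd (.lf ⟨[.ofNat 0, .ofNat 0, .ofNat 5888, .ofNat 6528, .ofNat 128], (.tr (.dx 0 (.tr (.lf 5) (.tw (.lf 9) (.lf 13)) (.lf 6))) (.tw (.lf 14) (.lf 19)) (.lf 10)), 0, [0, 0, 0, 0, 0, 0, 0, 0], []⟩)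
    (.lf ⟨[.ofNat 0, .ofNat 0, .negSucc 5887, .negSucc 6527, .negSucc 127], (.tr (.dx 0 (.tr (.lf 13) (.tr (.lf 5) (.lf 9) (.lf 19)) (.lf 14))) (.lf 6) (.lf 10)), 0, [11, 11, 11, 11], []⟩))
    (.nd (.lf ⟨[.ofNat 0, .ofNat 0, .negSucc 5887, .negSucc 6527, .negSucc 127], (.tr (.lf 2) (.dx 3 (.tr (.lf 1) (.tw (.lf 5) (.lf 9)) (.lf 19))) (.tw (.lf 6) (.lf 10))), 3, [11, 9, 11, 9, 11, 9, 11, 9], []⟩)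
    (.lf ⟨[.ofNat 0, .ofNat 0, .ofNat 4928, .ofNat 4272, .ofNat 96], (.tr (.lf 2) (.tw (.dx 3 (.tr (.tw (.lf 1) (.lf 9)) (.lf 5) (.lf 19))) (.lf 6)) (.lf 10)), 3, [11, 11, 11, 11, 0, 0, 0, 0], []⟩))))

/-- data -/
def dE3x20 : RT := (.nd (.nd (.nd (.lf ⟨[.ofNat 0, .ofNat 0, .ofNat 960, .ofNat 2256, .ofNat 32], (.tr (.lf 6) (.tr (.dx 0 (.tr (.lf 5) (.lf 9) (.lf 13))) (.lf 19) (.lf 14)) (.lf 10)), 0, [4, 4, 7, 7], [16, 19]⟩)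
    (.lf ⟨[.ofNat 0, .ofNat 0, .ofNat 5888, .ofNat 6528, .ofNat 128], (.tr (.lf 6) (.lf 14) (.tr (.dx 0 (.tr (.lf 5) (.lf 13) (.lf 9))) (.lf 10) (.lf 19))), 0, [4, 4, 3, 1], [4, 15]⟩))
    (.nd (.lf ⟨[.ofNat 0, .ofNat 0, .negSucc 4447, .ofNat 3928, .ofNat 48], (.tw (.dx 0 (.tw (.lf 5) (.lf 13))) (.tr (.lf 14) (.tr (.lf 9) (.lf 6) (.lf 10)) (.lf 19))), 0, [0, 0, 0, 0, 0, 0, 0, 0], [2, 2, 14, 14]⟩)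
    (.lf ⟨[.ofNat 0, .ofNat 0, .ofNat 6240, .negSucc 4615, .ofNat 64], (.tr (.dx 3 (.tr (.lf 9) (.lf 19) (.tr (.lf 1) (.lf 5) (.lf 2)))) (.lf 6) (.lf 10)), 3, [11, 11, 11, 11], []⟩)))
    (.nd (.nd (.lf ⟨[.ofNat 0, .ofNat 0, .ofNat 6400, .ofNat 2368, .ofNat 64], (.tr (.lf 9) (.tr (.dx 0 (.lf 5)) (.tr (.lf 13) (.lf 10) (.lf 14)) (.lf 6)) (.lf 19)), 0, [6, 6, 10, 10], [6, 6, 10, 10]⟩)
    (.lf ⟨[.ofNat 0, .ofNat 0, .negSucc 959, .negSucc 2255, .negSucc 31], (.tr (.dx 0 (.tr (.lf 5) (.lf 13) (.lf 9))) (.tr (.lf 10) (.lf 19) (.lf 14)) (.lf 6)), 0, [0, 0, 2, 2], [14, 21]⟩))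
    (.nd (.lf ⟨[.ofNat 0, .ofNat 0, .ofNat 2704, .ofNat 2700, .ofNat 56], (.tr (.lf 6) (.dx 0 (.tw (.lf 19) (.tr (.lf 13) (.tw (.lf 5) (.lf 9)) (.lf 14)))) (.lf 10)), 0, [7, 7, 7, 7, 4, 4, 4, 4], []⟩)
    (.lf ⟨[.ofNat 0, .ofNat 0, .negSucc 22591, .negSucc 23855, .negSucc 479], (.tr (.lf 19) (.lf 6) (.tr (.dx 0 (.tr (.lf 5) (.lf 13) (.lf 9))) (.lf 14) (.lf 10))), 0, [7, 7, 3, 1], [7, 3]⟩))))

/-- data -/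
def dE3x21 : RT := (.nd (.nd (.nd (.lf ⟨[.ofNat 0, .ofNat 0, .ofNat 6944, .ofNat 8664, .ofNat 176], (.tw (.dx 0 (.tr (.lf 5) (.lf 13) (.lf 9))) (.tr (.lf 14) (.tw (.lf 6) (.lf 10)) (.lf 19))), 0, [0, 0, 0, 0, 2, 2, 2, 2], [0, 2, 12, 14]⟩)
    (.lf ⟨[.ofNat 0, .ofNat 0, .negSucc 1983, .negSucc 1007, .negSucc 31], (.tw (.dx 0 (.tr (.lf 5) (.lf 13) (.lf 9))) (.tr (.lf 6) (.tw (.lf 14) (.lf 19)) (.lf 10))), 0, [0, 0, 0, 0, 2, 2, 2, 2], [0, 12, 2, 14]⟩))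
    (.nd (.lf ⟨[.ofNat 0, .ofNat 0, .ofNat 6784, .ofNat 2016, .ofNat 64], (.tr (.lf 6) (.lf 9) (.tr (.dx 3 (.tr (.lf 1) (.lf 5) (.lf 2))) (.lf 19) (.lf 10))), 3, [8, 8, 20, 20], []⟩)
    (.lf ⟨[.ofNat 0, .ofNat 0, .negSucc 9727, .negSucc 5279, .negSucc 127], (.tr (.lf 6) (.tr (.lf 9) (.dx 3 (.tr (.lf 1) (.lf 5) (.lf 2))) (.lf 19)) (.lf 10)), 3, [8, 8, 7, 7], []⟩)))
    (.nd (.nd (.lf ⟨[.ofNat 0, .ofNat 0, .ofNat 8352, .ofNat 2904, .ofNat 192], (.tr (.lf 6) (.lf 19) (.tr (.dx 3 (.tr (.lf 1) (.lf 5) (.lf 2))) (.lf 9) (.lf 10))), 3, [7, 7, 20, 20], []⟩)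
    (.lf ⟨[.ofNat 0, .ofNat 0, .negSucc 3391, .negSucc 1007, .negSucc 31], (.tw (.dx 3 (.tr (.lf 1) (.lf 5) (.lf 2))) (.tr (.lf 6) (.tw (.lf 9) (.lf 10)) (.lf 19))), 3, [23, 23, 21, 21, 23, 23, 21, 21], []⟩))
    (.nd (.lf ⟨[.ofNat 0, .ofNat 0, .ofNat 3392, .ofNat 1008, .ofNat 32], (.tr (.dx 3 (.tr (.lf 1) (.lf 5) (.lf 2))) (.tr (.lf 6) (.lf 9) (.lf 10)) (.lf 19)), 3, [23, 0, 23, 0], []⟩)
    (.lf ⟨[.ofNat 0, .ofNat 0, .ofNat 9856, .ofNat 8544, .ofNat 192], (.tr (.dx 0 (.tr (.lf 5) (.lf 13) (.lf 9))) (.tr (.lf 10) (.lf 14) (.lf 19)) (.lf 6)), 0, [0, 0, 2, 2], [2, 9]⟩))))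

/-- data -/
def dE3x22 : RT := (.nd (.nd (.nd (.lf ⟨[.ofNat 0, .ofNat 0, .ofNat 4352, .ofNat 3264, .ofNat 64], (.tw (.lf 19) (.tr (.dx 0 (.tr (.lf 5) (.lf 13) (.lf 9))) (.lf 14) (.tw (.lf 6) (.lf 10)))), 0, [11, 9, 11, 9, 3, 1, 3, 1], [11, 9, 3, 1]⟩)
    (.lf ⟨[.ofNat 0, .ofNat 0, .negSucc 10431, .ofNat 9264, .ofNat 96], (.tr (.lf 19) (.dx 0 (.tr (.lf 5) (.lf 13) (.lf 9))) (.tr (.lf 6) (.lf 10) (.lf 14))), 0, [11, 9, 11, 9], [1023, 9]⟩))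
    (.nd (.lf ⟨[.ofNat 0, .ofNat 0, .ofNat 1728, .negSucc 15791, .negSucc 223], (.tr (.lf 6) (.lf 10) (.tr (.lf 14) (.dx 0 (.tr (.lf 5) (.lf 13) (.lf 9))) (.lf 19))), 0, [8, 8, 20, 20], [8, 20]⟩)
    (.lf ⟨[.ofNat 0, .ofNat 0, .ofNat 960, .ofNat 2256, .ofNat 32], (.tr (.lf 6) (.tr (.dx 0 (.tr (.lf 5) (.lf 13) (.lf 9))) (.lf 19) (.lf 10)) (.lf 14)), 0, [4, 4, 20, 20], [16, 20]⟩)))
    (.nd (.nd (.lf ⟨[.ofNat 0, .ofNat 0, .ofNat 4096, .ofNat 15552, .ofNat 256], (.tr (.dx 0 (.tr (.lf 5) (.lf 9) (.lf 13))) (.tr (.lf 6) (.lf 19) (.lf 10)) (.lf 14)), 0, [0, 0, 2, 2], [12, 14]⟩)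
    (.lf ⟨[.ofNat 0, .ofNat 0, .negSucc 3135, .negSucc 13295, .negSucc 223], (.tr (.lf 14) (.lf 6) (.tr (.dx 0 (.tr (.lf 9) (.lf 5) (.lf 13))) (.lf 10) (.lf 19))), 0, [4, 19, 1, 3], [1015, 15]⟩))
    (.nd (.lf ⟨[.ofNat 0, .ofNat 0, .negSucc 3871, .negSucc 2135, .negSucc 47], (.tw (.dx 3 (.tr (.lf 1) (.tr (.lf 5) (.lf 9) (.tw (.lf 6) (.lf 19))) (.lf 2))) (.lf 10)), 3, [7, 7, 7, 7, 7, 7, 7, 7], []⟩)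
    (.lf ⟨[.ofNat 0, .ofNat 0, .negSucc 12799, .negSucc 4735, .negSucc 127], (.tr (.tw (.lf 6) (.lf 10)) (.dx 0 (.tr (.tw (.lf 5) (.lf 13)) (.lf 9) (.lf 14))) (.lf 19)), 0, [8, 8, 8, 8, 10, 10, 10, 10], []⟩))))

/-- data -/
def dE3x23 : RT := (.nd (.nd (.nd (.lf ⟨[.ofNat 0, .ofNat 0, .ofNat 12800, .ofNat 4736, .ofNat 128], (.tr (.lf 19) (.lf 6) (.tr (.dx 0 (.tr (.lf 9) (.lf 5) (.lf 13))) (.lf 14) (.lf 10))), 0, [7, 7, 1, 3], [7, 3]⟩)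
    (.lf ⟨[.ofNat 0, .ofNat 0, .negSucc 6399, .negSucc 2367, .negSucc 63], (.tw (.lf 19) (.tr (.dx 0 (.tw (.lf 5) (.lf 9))) (.tr (.lf 13) (.lf 10) (.lf 14)) (.lf 6))), 0, [9, 9, 9, 9, 3, 1, 3, 1], [9, 9, 3, 3]⟩))
    (.nd (.lf ⟨[.ofNat 0, .ofNat 0, .ofNat 20736, .negSucc 5055, .negSucc 159], (.tw (.lf 19) (.tr (.dx 0 (.lf 5)) (.tr (.lf 13) (.lf 6) (.lf 14)) (.lf 11))), 0, [11, 11, 1, 1], [11, 11, 1, 1]⟩)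
    (.lf ⟨[.ofNat 0, .ofNat 0, .negSucc 25983, .ofNat 4352, .ofNat 320], (.tw (.dx 0 (.lf 5)) (.tr (.lf 19) (.lf 11) (.tr (.lf 13) (.lf 6) (.lf 14)))), 0, [12, 12, 0, 0], [14, 14, 0, 0]⟩)))
    (.nd (.nd (.lf ⟨[.ofNat 0, .ofNat 0, .negSucc 9119, .negSucc 3847], (.tw (.lf 13) (.tr (.dx 0 (.tw (.lf 5) (.lf 9))) (.lf 19) (.tr (.lf 6) (.lf 14) (.lf 10)))), 0, [11, 9, 11, 9, 15, 13, 15, 13], [11, 9, 15, 13]⟩)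
    (.lf ⟨[.ofNat 0, .ofNat 0, .negSucc 5727, .negSucc 2839, .ofNat 32], (.tw (.lf 13) (.tr (.lf 6) (.tr (.lf 14) (.dx 0 (.tw (.lf 5) (.lf 9))) (.lf 19)) (.lf 10))), 0, [19, 19, 7, 7, 17, 17, 5, 5], [19, 7, 17, 5]⟩))
    (.nd (.lf ⟨[.ofNat 0, .ofNat 0, .ofNat 15840, .ofNat 7192, .negSucc 15], (.tr (.lf 6) (.tr (.lf 9) (.tw (.dx 0 (.tw (.lf 5) (.lf 19))) (.lf 13)) (.lf 10)) (.lf 14)), 0, [20, 20, 8, 8, 20, 20, 8, 8], []⟩)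
    (.lf ⟨[.ofNat 0, .ofNat 0, .ofNat 13568, .ofNat 4032, .ofNat 128], (.tr (.dx 3 (.tr (.lf 1) (.lf 19) (.tr (.lf 5) (.lf 2) (.lf 9)))) (.lf 6) (.lf 10)), 3, [11, 11, 11, 11], []⟩))))

/-- data -/
def dE3x24 : RT := (.nd (.nd (.nd (.lf ⟨[.ofNat 0, .ofNat 0, .negSucc 11199, .negSucc 3999, .negSucc 15], (.tr (.lf 6) (.lf 9) (.tr (.lf 13) (.tw (.dx 0 (.tw (.lf 5) (.lf 19))) (.lf 10)) (.lf 14))), 0, [8, 8, 8, 8, 8, 8, 8, 8], []⟩)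
    (.lf ⟨[.ofNat 0, .ofNat 0, .ofNat 6944, .ofNat 8664, .ofNat 176], (.tr (.dx 0 (.tr (.lf 19) (.lf 9) (.tr (.lf 5) (.lf 13) (.lf 6)))) (.lf 10) (.lf 14)), 0, [14, 14, 0, 0], []⟩))
    (.nd (.lf ⟨[.ofNat 0, .ofNat 0, .ofNat 2816], (.tr (.dx 3 (.tr (.lf 1) (.lf 5) (.lf 9))) (.lf 2) (.tr (.lf 6) (.lf 19) (.lf 10))), 3, [23, 21, 23, 21], [23, 21]⟩)
    (.lf ⟨[.ofNat 0, .ofNat 0, .negSucc 8351, .negSucc 8663, .negSucc 175], (.tw (.lf 2) (.tr (.dx 3 (.tr (.lf 5) (.lf 1) (.lf 9))) (.tw (.lf 6) (.lf 10)) (.lf 19))), 3, [0, 0, 2, 2, 12, 12, 14, 14], [0, 2, 12, 14]⟩)))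
    (.nd (.nd (.lf ⟨[.ofNat 0, .ofNat 0, .ofNat 3904, .ofNat 12592, .ofNat 224], (.tr (.lf 19) (.lf 2) (.tr (.lf 6) (.dx 3 (.tr (.lf 1) (.lf 5) (.lf 9))) (.lf 10))), 3, [11, 7, 9, 5], [11, 9]⟩)
    (.lf ⟨[.ofNat 0, .ofNat 0, .ofNat 3648, .negSucc 11279, .negSucc 159], (.tr (.dx 3 (.tr (.lf 1) (.lf 9) (.tr (.lf 5) (.lf 2) (.lf 19)))) (.lf 6) (.lf 10)), 3, [11, 11, 11, 11], []⟩))
    (.nd (.lf ⟨[.ofNat 0, .ofNat 0, .ofNat 8448, .ofNat 9952, .negSucc 1503, .ofNat 160], (.tw (.lf 13) (.tr (.dx 0 .on) (.lf 19) (.tr (.lf 7) (.lf 14) (.lf 11)))), 0, [11, 9, 15, 13], [11, 9, 15, 13]⟩)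
    (.lf ⟨[.ofNat 0, .ofNat 0, .negSucc 1951, .negSucc 6295, .negSucc 111], (.tr (.dx 0 (.lf 13)) (.tr (.lf 5) (.tr (.lf 6) (.lf 14) (.lf 9)) (.lf 10)) (.lf 19)), 0, [0, 0, 2, 2], [0, 0, 2, 2]⟩))))

/-- data -/
def dE3 : RT := (.nd (.nd (.nd (.nd dE3x0 (.nd dE3x1 dE3x2)) (.nd dE3x3 (.nd dE3x4 dE3x5))) (.nd (.nd dE3x6 (.nd dE3x7 dE3x8)) (.nd dE3x9 (.nd dE3x10 dE3x11)))) (.nd (.nd (.nd dE3x12 (.nd dE3x13 dE3x14)) (.nd dE3x15 (.nd dE3x16 dE3x17))) (.nd (.nd dE3x18 (.nd dE3x19 dE3x20)) (.nd (.nd dE3x21 dE3x22) (.nd dE3x23 dE3x24)))))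

/-- data -/
def lE3x0 : List (ℕ × List ℤ) := [(5405, [.ofNat 0, .ofNat 0, .ofNat 0, .ofNat 17408, .ofNat 13056, .ofNat 256]),
  (5419, [.ofNat 0, .ofNat 0, .ofNat 0, .negSucc 15871, .negSucc 8063, .negSucc 255]),
  (6301, [.ofNat 0, .ofNat 0, .ofNat 0, .ofNat 9728, .negSucc 4991]),
  (50461, [.ofNat 0, .ofNat 0, .ofNat 0, .ofNat 20224, .ofNat 30464, .ofNat 512]),
  (50524, [.ofNat 0, .ofNat 0, .ofNat 0, .ofNat 42496, .ofNat 6848, .ofNat 2880, .negSucc 319]),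
  (50525, [.ofNat 0, .ofNat 0, .ofNat 0, .negSucc 94463, .ofNat 1856, .negSucc 2239, .ofNat 320]),
  (50539, [.ofNat 0, .ofNat 0, .ofNat 0, .ofNat 24000, .negSucc 5231, .ofNat 32]),
  (312477, [.ofNat 0, .ofNat 0, .ofNat 0, .negSucc 7935, .negSucc 4031, .negSucc 127]),
  (312669, [.ofNat 0, .ofNat 0, .negSucc 16895, .negSucc 19903, .ofNat 3008, .negSucc 319]),
  (336669, [.ofNat 0, .ofNat 0, .ofNat 0, .ofNat 384, .negSucc 351]),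
  (338141, [.ofNat 0, .ofNat 0, .ofNat 0, .ofNat 3904, .ofNat 12592, .ofNat 224]),
  (342173, [.ofNat 0, .ofNat 0, .ofNat 0, .ofNat 3904, .ofNat 12592, .ofNat 224]),
  (344861, [.ofNat 0, .ofNat 0, .ofNat 0, .negSucc 25599, .negSucc 9471, .negSucc 255]),
  (345324, [.ofNat 0, .ofNat 0, .ofNat 0, .ofNat 29568, .negSucc 1183, .negSucc 255]),
  (345741, [.ofNat 0, .ofNat 0, .ofNat 0, .ofNat 7168, .ofNat 4736, .ofNat 128]),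
  (346346, [.ofNat 0, .ofNat 0, .ofNat 0, .ofNat 11776, .ofNat 13056, .ofNat 256]),
  (402283, [.ofNat 0, .ofNat 0, .ofNat 0, .negSucc 11775, .negSucc 13055, .negSucc 255]),
  (404188, [.ofNat 0, .ofNat 0, .ofNat 16896, .ofNat 19904, .negSucc 3007, .ofNat 320]),
  (1090653, [.ofNat 0, .ofNat 0, .ofNat 0, .ofNat 7552, .ofNat 4384, .ofNat 128]),
  (2668716, [.ofNat 0, .ofNat 0, .ofNat 41472, .negSucc 10111, .negSucc 319]),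
  (2668884, [.ofNat 0, .ofNat 0, .ofNat 41472, .negSucc 10111, .negSucc 319]),
  (2671901, [.ofNat 0, .ofNat 0, .negSucc 10495, .negSucc 1407, .ofNat 320]),
  (2672469, [.ofNat 0, .ofNat 0, .ofNat 51968, .negSucc 8703, .negSucc 639]),
  (2705132, [.ofNat 0, .ofNat 0, .ofNat 768, .ofNat 7104, .negSucc 639]),
  (2706140, [.ofNat 0, .ofNat 0, .ofNat 768, .ofNat 7104, .negSucc 639]),
  (3221228, [.ofNat 0, .ofNat 13312, .negSucc 35071, .ofNat 1024]),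
  (3222236, [.ofNat 0, .ofNat 0, .ofNat 26112, .ofNat 17024, .negSucc 1279]),
  (3225428, [.ofNat 0, .ofNat 0, .ofNat 13056, .ofNat 8512, .negSucc 639]),
  (3229341, [.ofNat 0, .ofNat 0, .ofNat 41472, .negSucc 10111, .negSucc 319]),
  (3233492, [.ofNat 0, .ofNat 0, .ofNat 13056, .ofNat 8512, .negSucc 639]),
  (3319004, [.ofNat 0, .ofNat 13312, .negSucc 35071, .ofNat 1024]),
  (8693477, [.ofNat 0, .ofNat 0, .ofNat 0, .ofNat 4864]),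
  (19511637, [.ofNat 0, .ofNat 0, .negSucc 8959, .ofNat 5312]),
  (19539692, [.ofNat 0, .ofNat 0, .negSucc 8959, .ofNat 5312]),
  (19539819, [.ofNat 0, .ofNat 0, .negSucc 23999, .ofNat 5232, .negSucc 31]),
  (19540203, [.ofNat 0, .ofNat 0, .negSucc 25599, .negSucc 9471, .negSucc 255]),
  (19543403, [.ofNat 0, .ofNat 0, .negSucc 23999, .ofNat 5232, .negSucc 31]),
  (19547371, [.ofNat 0, .ofNat 0, .ofNat 24000, .negSucc 5231, .ofNat 32]),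
  (19547987, [.ofNat 0, .ofNat 0, .negSucc 23999, .ofNat 5232, .negSucc 31]),
  (19998493, [.ofNat 0, .ofNat 0, .ofNat 7936, .ofNat 4032, .ofNat 128]),
  (20002091, [.ofNat 0, .ofNat 0, .negSucc 2751, .negSucc 4751, .ofNat 128]),
  (20003050, [.ofNat 0, .ofNat 0, .negSucc 15807, .negSucc 7567, .ofNat 448]),
  (20006235, [.ofNat 0, .ofNat 0, .negSucc 7935, .negSucc 4031, .negSucc 127]),
  (20010778, [.ofNat 0, .ofNat 0, .negSucc 15807, .negSucc 7567, .ofNat 448]),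
  (20096794, [.ofNat 0, .ofNat 0, .negSucc 127, .ofNat 3808, .ofNat 64]),
  (20096858, [.ofNat 0, .ofNat 0, .ofNat 11840, .ofNat 5552, .negSucc 511]),
  (21317419, [.ofNat 0, .ofNat 0, .negSucc 13247, .ofNat 3120, .negSucc 31]),
  (21318371, [.ofNat 0, .ofNat 0, .ofNat 13248, .negSucc 3119, .ofNat 32]),
  (21342556, [.ofNat 0, .ofNat 0, .negSucc 6783, .negSucc 2015, .negSucc 63]),
  (21342557, [.ofNat 0, .ofNat 0, .ofNat 14784, .negSucc 591, .negSucc 127]),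
  (21349731, [.ofNat 0, .ofNat 0, .ofNat 960, .ofNat 2256, .ofNat 32]),
  (21350571, [.ofNat 0, .ofNat 0, .negSucc 11775, .negSucc 13055, .negSucc 255]),
  (21351069, [.ofNat 0, .ofNat 0, .ofNat 6784, .ofNat 2016, .ofNat 64]),
  (21378396, [.ofNat 0, .ofNat 0, .ofNat 960, .ofNat 2256, .ofNat 32]),
  (21382827, [.ofNat 0, .ofNat 0, .ofNat 31360, .ofNat 11360, .negSucc 127]),
  (21386475, [.ofNat 0, .ofNat 0, .negSucc 11775, .negSucc 13055, .negSucc 255]),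
  (21543148, [.ofNat 0, .ofNat 0, .ofNat 5440, .negSucc 399, .ofNat 32]),
  (21546725, [.ofNat 0, .ofNat 0, .ofNat 12672, .ofNat 4640, .ofNat 512]),
  (21546795, [.ofNat 0, .ofNat 0, .negSucc 1215, .negSucc 2063, .ofNat 128]),
  (21546845, [.ofNat 0, .ofNat 0, .ofNat 7936, .ofNat 4032, .ofNat 128]),
  (21632741, [.ofNat 0, .ofNat 0, .negSucc 1791, .ofNat 5824, .ofNat 128]),
  (21632811, [.ofNat 0, .ofNat 0, .negSucc 2815]),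
  (21632867, [.ofNat 0, .ofNat 0, .negSucc 6719, .ofNat 1680, .ofNat 640]),
  (21633245, [.ofNat 0, .ofNat 0, .negSucc 3903, .negSucc 12591, .negSucc 223]),
  (21640029, [.ofNat 0, .ofNat 0, .ofNat 7936, .ofNat 4032, .ofNat 128]),
  (21640805, [.ofNat 0, .ofNat 0, .negSucc 1791, .ofNat 5824, .ofNat 128]),
  (21641835, [.ofNat 0, .ofNat 0, .negSucc 5951, .negSucc 1775, .negSucc 255]),
  (21801308, [.ofNat 0, .ofNat 0, .ofNat 6784, .ofNat 2016, .ofNat 64]),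
  (21805397, [.ofNat 0, .ofNat 0, .ofNat 16384, .ofNat 1664, .negSucc 95]),
  (21808413, [.ofNat 0, .ofNat 0, .negSucc 25599, .negSucc 9471, .negSucc 255]),
  (21808477, [.ofNat 0, .ofNat 0, .ofNat 12800, .ofNat 4736, .ofNat 128]),
  (21808483, [.ofNat 0, .ofNat 0, .ofNat 960, .ofNat 2256, .ofNat 32]),
  (21808491, [.ofNat 0, .ofNat 0, .negSucc 11999, .ofNat 2616, .negSucc 15]),
  (21808917, [.ofNat 0, .ofNat 0, .negSucc 12799, .negSucc 4735, .negSucc 127]),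
  (21808981, [.ofNat 0, .ofNat 0, .negSucc 13439, .negSucc 6687, .ofNat 32]),
  (21809323, [.ofNat 0, .ofNat 0, .negSucc 11999, .ofNat 2616, .negSucc 15]),
  (21809876, [.ofNat 0, .ofNat 0, .ofNat 6784, .ofNat 2016, .ofNat 64]),
  (21829931, [.ofNat 0, .ofNat 0, .ofNat 21120, .negSucc 11999, .negSucc 63]),
  (21829980, [.ofNat 0, .ofNat 0, .negSucc 6783, .negSucc 2015, .negSucc 63]),
  (21873933, [.ofNat 0, .ofNat 0, .ofNat 2112, .ofNat 4144, .negSucc 511]),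
  (21894443, [.ofNat 0, .ofNat 0, .negSucc 5887, .negSucc 6527, .negSucc 127]),
  (21894492, [.ofNat 0, .ofNat 0, .ofNat 1920, .ofNat 4512, .ofNat 64]),
  (21894493, [.ofNat 0, .ofNat 0, .negSucc 7167, .negSucc 4735, .negSucc 127]),
  (21894996, [.ofNat 0, .ofNat 0, .ofNat 4096, .ofNat 15552, .ofNat 256]),
  (21894997, [.ofNat 0, .ofNat 0, .negSucc 43135, .negSucc 20063, .ofNat 96]),
  (21895892, [.ofNat 0, .ofNat 0, .ofNat 4864, .negSucc 2495]),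
  (21895955, [.ofNat 0, .ofNat 0, .negSucc 5887, .negSucc 6527, .negSucc 127]),
  (21898027, [.ofNat 0, .ofNat 0, .ofNat 5888, .ofNat 6528, .ofNat 128]),
  (21900107, [.ofNat 0, .ofNat 0, .ofNat 12000, .negSucc 2615, .ofNat 16]),
  (21902668, [.ofNat 0, .ofNat 0, .ofNat 19712, .ofNat 8640, .negSucc 191]),
  (21903466, [.ofNat 0, .ofNat 0, .negSucc 1087, .ofNat 9296, .ofNat 928]),
  (21906091, [.ofNat 0, .ofNat 0, .ofNat 31360, .ofNat 11360, .negSucc 127]),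
  (21906763, [.ofNat 0, .ofNat 0, .ofNat 12000, .negSucc 2615, .ofNat 16]),
  (21908051, [.ofNat 0, .ofNat 0, .ofNat 21120, .negSucc 11999, .negSucc 63]),
  (21910179, [.ofNat 0, .ofNat 0, .negSucc 11775, .negSucc 13055, .negSucc 255]),
  (21910621, [.ofNat 0, .ofNat 0, .negSucc 3135, .negSucc 13295, .negSucc 223]),
  (22066525, [.ofNat 0, .ofNat 0, .negSucc 5439, .negSucc 2959, .ofNat 128]),
  (22066531, [.ofNat 0, .ofNat 0, .ofNat 10816, .ofNat 10800, .ofNat 224]),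
  (22067539, [.ofNat 0, .ofNat 0, .ofNat 10816, .ofNat 10800, .ofNat 224]),
  (22067868, [.ofNat 0, .ofNat 0, .negSucc 13567, .negSucc 4031, .negSucc 127])]

/-- data -/
def lE3x1 : List (ℕ × List ℤ) := [(22067883, [.ofNat 0, .ofNat 0, .ofNat 6848, .ofNat 2960, .negSucc 127]),
  (22070941, [.ofNat 0, .ofNat 0, .ofNat 3904, .ofNat 12592, .ofNat 224]),
  (22071130, [.ofNat 0, .ofNat 0, .negSucc 12799, .negSucc 4735, .negSucc 127]),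
  (22075036, [.ofNat 0, .ofNat 0, .ofNat 3584, .negSucc 1375, .ofNat 224]),
  (22091619, [.ofNat 0, .ofNat 0, .negSucc 5887, .negSucc 6527, .negSucc 127]),
  (22092508, [.ofNat 0, .ofNat 0, .negSucc 16703, .negSucc 5807, .negSucc 383]),
  (22098668, [.ofNat 0, .ofNat 0, .negSucc 3839, .ofNat 2656]),
  (22098780, [.ofNat 0, .ofNat 0, .negSucc 8831, .negSucc 3967, .ofNat 96]),
  (22098787, [.ofNat 0, .ofNat 0, .negSucc 5887, .negSucc 6527, .negSucc 127]),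
  (22099725, [.ofNat 0, .ofNat 0, .negSucc 2111, .negSucc 4143, .ofNat 512]),
  (22100173, [.ofNat 0, .ofNat 0, .negSucc 25535, .negSucc 11471, .ofNat 768]),
  (22100299, [.ofNat 0, .ofNat 0, .negSucc 5887, .negSucc 6527, .negSucc 127]),
  (22100572, [.ofNat 0, .ofNat 0, .negSucc 4863, .negSucc 1951, .ofNat 160]),
  (22100685, [.ofNat 0, .ofNat 0, .negSucc 12799, .negSucc 4735, .negSucc 127]),
  (22103659, [.ofNat 0, .ofNat 0, .ofNat 9920, .ofNat 1040, .negSucc 575]),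
  (22123756, [.ofNat 0, .ofNat 0, .ofNat 3648, .negSucc 11279, .negSucc 159]),
  (22123819, [.ofNat 0, .ofNat 0, .ofNat 5888, .ofNat 6528, .ofNat 128]),
  (22124386, [.ofNat 0, .ofNat 0, .ofNat 960, .ofNat 2256, .ofNat 32]),
  (22124883, [.ofNat 0, .ofNat 0, .ofNat 9856, .ofNat 8544, .ofNat 192]),
  (22124890, [.ofNat 0, .ofNat 0, .negSucc 959, .negSucc 2255, .negSucc 31]),
  (22125268, [.ofNat 0, .ofNat 0, .ofNat 26816, .ofNat 12432, .ofNat 128]),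
  (22125269, [.ofNat 0, .ofNat 0, .ofNat 2688, .negSucc 13535, .negSucc 191]),
  (22125331, [.ofNat 0, .ofNat 0, .ofNat 9856, .ofNat 8544, .ofNat 192]),
  (22125338, [.ofNat 0, .ofNat 0, .ofNat 9856, .ofNat 8544, .ofNat 192]),
  (22125395, [.ofNat 0, .ofNat 0, .negSucc 13695, .negSucc 5919, .ofNat 256]),
  (22127403, [.ofNat 0, .ofNat 0, .ofNat 5888, .ofNat 6528, .ofNat 128]),
  (22128460, [.ofNat 0, .ofNat 0, .ofNat 12480, .negSucc 9231, .ofNat 128]),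
  (22129244, [.ofNat 0, .ofNat 0, .negSucc 13887, .negSucc 17327, .negSucc 351]),
  (22129245, [.ofNat 0, .ofNat 0, .negSucc 2687, .ofNat 13536, .ofNat 192]),
  (22129356, [.ofNat 0, .ofNat 0, .negSucc 6783, .negSucc 2015, .negSucc 63]),
  (22129483, [.ofNat 0, .ofNat 0, .negSucc 13695, .negSucc 5919, .ofNat 256]),
  (22131541, [.ofNat 0, .ofNat 0, .ofNat 7936, .ofNat 4032, .ofNat 128]),
  (22136139, [.ofNat 0, .ofNat 0, .negSucc 12799, .negSucc 4735, .negSucc 127]),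
  (22136426, [.ofNat 0, .ofNat 0, .ofNat 9920, .ofNat 1040, .negSucc 575]),
  (22136650, [.ofNat 0, .ofNat 0, .negSucc 9023, .ofNat 5264, .ofNat 800]),
  (22139604, [.ofNat 0, .ofNat 0, .ofNat 22848, .ofNat 10416, .ofNat 64]),
  (22140108, [.ofNat 0, .ofNat 0, .ofNat 6784, .ofNat 2016, .ofNat 64]),
  (22140557, [.ofNat 0, .ofNat 0, .negSucc 7167, .negSucc 4735, .negSucc 127]),
  (22189725, [.ofNat 0, .ofNat 0, .ofNat 6784, .ofNat 2016, .ofNat 64]),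
  (22192867, [.ofNat 0, .ofNat 0, .negSucc 1919, .negSucc 4511, .negSucc 63]),
  (22193771, [.ofNat 0, .ofNat 0, .ofNat 9856, .ofNat 8544, .ofNat 192]),
  (22196948, [.ofNat 0, .ofNat 0, .negSucc 5439, .ofNat 400, .negSucc 31]),
  (25503580, [.ofNat 0, .ofNat 0, .negSucc 12799, .negSucc 4735, .negSucc 127]),
  (25507500, [.ofNat 0, .ofNat 0, .ofNat 18240, .ofNat 4336, .ofNat 160]),
  (25736541, [.ofNat 0, .ofNat 0, .ofNat 11456, .ofNat 5680, .negSucc 63]),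
  (25737429, [.ofNat 0, .ofNat 0, .negSucc 12799, .negSucc 4735, .negSucc 127]),
  (25737962, [.ofNat 0, .ofNat 0, .ofNat 1088, .negSucc 9295, .negSucc 927]),
  (25740957, [.ofNat 0, .ofNat 0, .negSucc 25599, .negSucc 9471, .negSucc 255]),
  (25745052, [.ofNat 0, .ofNat 0, .negSucc 6079, .ofNat 7856, .ofNat 96]),
  (25761635, [.ofNat 0, .ofNat 0, .negSucc 3903, .ofNat 1680, .ofNat 640]),
  (25769741, [.ofNat 0, .ofNat 0, .ofNat 4224, .ofNat 8288, .negSucc 1023]),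
  (25770189, [.ofNat 0, .ofNat 0, .negSucc 2111, .negSucc 4143, .ofNat 512]),
  (25777757, [.ofNat 0, .ofNat 0, .negSucc 16703, .negSucc 5807, .negSucc 383]),
  (25794388, [.ofNat 0, .ofNat 0, .negSucc 6783, .negSucc 2015, .negSucc 63]),
  (25794389, [.ofNat 0, .ofNat 0, .negSucc 7167, .negSucc 4735, .negSucc 127]),
  (25795229, [.ofNat 0, .ofNat 0, .ofNat 19456, .ofNat 10560, .ofNat 256]),
  (25795284, [.ofNat 0, .ofNat 0, .ofNat 2816]),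
  (25795285, [.ofNat 0, .ofNat 0, .ofNat 19456, .ofNat 10560, .ofNat 256]),
  (25797483, [.ofNat 0, .ofNat 0, .ofNat 11776, .ofNat 13056, .ofNat 256]),
  (25799260, [.ofNat 0, .ofNat 0, .negSucc 6079, .ofNat 7856, .ofNat 96]),
  (25799261, [.ofNat 0, .ofNat 0, .ofNat 20672, .ofNat 5200, .ofNat 160]),
  (25802060, [.ofNat 0, .ofNat 0, .ofNat 1984, .negSucc 11759, .ofNat 224]),
  (25802061, [.ofNat 0, .ofNat 0, .ofNat 0, .ofNat 13120, .negSucc 351]),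
  (25802893, [.ofNat 0, .ofNat 0, .negSucc 2111, .negSucc 4143, .ofNat 512]),
  (25803362, [.ofNat 0, .ofNat 0, .ofNat 5952, .ofNat 1776, .ofNat 256]),
  (25809621, [.ofNat 0, .ofNat 0, .ofNat 5632]),
  (25810012, [.ofNat 0, .ofNat 0, .negSucc 4095, .negSucc 15551, .negSucc 255]),
  (25810013, [.ofNat 0, .ofNat 0, .ofNat 13888, .ofNat 17328, .ofNat 352]),
  (25810125, [.ofNat 0, .ofNat 0, .negSucc 16639, .negSucc 10559, .negSucc 255]),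
  (25863884, [.ofNat 0, .ofNat 0, .negSucc 12799, .negSucc 4735, .negSucc 127]),
  (25866964, [.ofNat 0, .ofNat 0, .negSucc 7743, .negSucc 4271, .negSucc 95]),
  (26547868, [.ofNat 0, .ofNat 0, .negSucc 6783, .negSucc 2015, .negSucc 63]),
  (26555036, [.ofNat 0, .ofNat 0, .negSucc 6783, .negSucc 2015, .negSucc 63]),
  (26556044, [.ofNat 0, .ofNat 0, .ofNat 12800, .ofNat 4736, .ofNat 128]),
  (69547861, [.ofNat 0, .ofNat 0, .ofNat 4096, .ofNat 3904, .negSucc 319]),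
  (69555869, [.ofNat 0, .ofNat 0, .ofNat 6784, .ofNat 2016, .ofNat 64]),
  (69778077, [.ofNat 0, .ofNat 0, .ofNat 3136, .ofNat 13296, .ofNat 224]),
  (69781205, [.ofNat 0, .ofNat 0, .ofNat 6784, .ofNat 2016, .ofNat 64]),
  (69834077, [.ofNat 0, .ofNat 0, .ofNat 4096, .ofNat 3904, .negSucc 319]),
  (69834909, [.ofNat 0, .ofNat 0, .negSucc 13247, .ofNat 9264, .ofNat 96]),
  (69834965, [.ofNat 0, .ofNat 0, .negSucc 2815]),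
  (69837541, [.ofNat 0, .ofNat 0, .negSucc 6783, .negSucc 2015, .negSucc 63]),
  (69838941, [.ofNat 0, .ofNat 0, .negSucc 10431, .ofNat 9264, .ofNat 96]),
  (69846109, [.ofNat 0, .ofNat 0, .ofNat 3136, .ofNat 13296, .ofNat 224]),
  (69846221, [.ofNat 0, .ofNat 0, .ofNat 3136, .ofNat 13296, .ofNat 224])]

/-- the sum of the part -/
def lE3 : List (ℕ × List ℤ) := lE3x0 ++ (lE3x1)

theorem okE3 : dE3.all (rok tbE 12) = true := by decide +kernel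

theorem sumE3 : aeq (fz (sumT tbE dE3)) lE3 = true := by decide +kernel

end Pool.Agent.H.MP_e16c79_al.IS
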