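import Pool.Agent.H.MP_e16c79_al.IS.BTabE

/-!
# MP_e16c79_al: certificate E, part 4
-/

set_option autoImplicit false

namespace Pool.Agent.H.MP_e16c79_al.IS

/-- data -/
def dE4x0 : RT := (.nd (.nd (.nd (.lf ⟨[.ofNat 0, .ofNat 13312, .ofNat 13832, .negSucc 18847, .negSucc 7879], (.tr (.dx 0 (.tr (.lf 9) (.lf 19) (.tr (.lf 5) (.lf 13) (.lf 6)))) (.lf 14) (.lf 10)), 0, [14, 14, 0, 0], []⟩)
    (.lf ⟨[.ofNat 0, .ofNat 0, .negSucc 3583, .negSucc 2367, .negSucc 63], (.tr (.lf 10) (.dx 0 (.tr (.lf 9) (.lf 19) (.tr (.lf 5) (.lf 13) (.lf 6)))) (.lf 14)), 0, [18, 18, 6, 6], []⟩))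
    (.nd (.lf ⟨[.ofNat 0, .ofNat 0, .negSucc 1407], (.tr (.lf 10) (.dx 0 (.tr (.lf 19) (.lf 9) (.tr (.lf 5) (.lf 13) (.lf 6)))) (.lf 14)), 0, [18, 18, 6, 6], []⟩)
    (.lf ⟨[.ofNat 0, .ofNat 0, .negSucc 1599, .ofNat 176], (.tw (.dx 0 (.tr (.lf 5) (.tr (.lf 13) (.tw (.lf 9) (.lf 10)) (.lf 19)) (.lf 6))) (.lf 14)), 0, [0, 0, 12, 12, 0, 0, 12, 12], []⟩)))
    (.nd (.nd (.lf ⟨[.ofNat 0, .ofNat 0, .negSucc 3583, .negSucc 2367, .negSucc 63], (.tw (.dx 0 (.tr (.lf 5) (.tr (.tw (.lf 9) (.lf 13)) (.lf 10) (.lf 19)) (.lf 6))) (.lf 14)), 0, [0, 0, 12, 12, 0, 0, 12, 12], []⟩)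
    (.lf ⟨[.ofNat 0, .ofNat 0, .ofNat 7840, .ofNat 2840, .negSucc 31], (.tr (.dx 0 (.tr (.lf 19) (.lf 5) (.tr (.lf 13) (.lf 9) (.lf 14)))) (.lf 6) (.lf 10)), 0, [11, 11, 23, 23], []⟩))
    (.nd (.lf ⟨[.ofNat 0, .ofNat 0, .ofNat 3968, .ofNat 2016, .ofNat 64], (.tr (.dx 0 (.tr (.lf 9) (.tr (.lf 13) (.lf 5) (.lf 14)) (.lf 19))) (.lf 6) (.lf 10)), 0, [23, 23, 11, 11], []⟩)
    (.lf ⟨[.ofNat 0, .ofNat 0, .ofNat 3424, .ofNat 1480, .negSucc 63], (.tr (.lf 6) (.dx 0 (.tr (.lf 19) (.lf 5) (.tr (.lf 13) (.lf 9) (.lf 14)))) (.lf 10)), 0, [7, 7, 4, 4], []⟩))))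

/-- data -/
def dE4x1 : RT := (.nd (.nd (.nd (.lf ⟨[.ofNat 0, .ofNat 0, .ofNat 320, .ofNat 976, .negSucc 79], (.tw (.lf 9) (.tr (.dx 0 (.tw (.lf 5) (.lf 19))) (.tr (.lf 13) (.lf 10) (.lf 14)) (.lf 6))), 0, [18, 18, 18, 18, 10, 10, 10, 10], []⟩)
    (.lf ⟨[.ofNat 0, .ofNat 0, .negSucc 3743, .negSucc 2455, .ofNat 144], (.tw (.dx 0 (.tw (.lf 5) (.lf 19))) (.tr (.lf 9) (.lf 6) (.tr (.lf 13) (.lf 10) (.lf 14)))), 0, [12, 12, 11, 11, 12, 12, 11, 11], []⟩))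
    (.nd (.lf ⟨[.ofNat 0, .ofNat 0, .ofNat 1024, .ofNat 976, .negSucc 79], (.tr (.dx 0 (.tw (.lf 5) (.lf 19))) (.tr (.lf 9) (.tw (.lf 6) (.lf 13)) (.lf 10)) (.lf 14)), 0, [12, 12, 12, 12, 12, 12, 12, 12], []⟩)
    (.lf ⟨[.ofNat 0, .ofNat 0, .ofNat 384, .negSucc 975, .ofNat 80], (.tr (.dx 0 (.tw (.lf 5) (.lf 19))) (.lf 9) (.tr (.lf 13) (.tw (.lf 6) (.lf 10)) (.lf 14))), 0, [12, 12, 12, 12, 12, 12, 12, 12], []⟩)))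
    (.nd (.nd (.lf ⟨[.ofNat 0, .ofNat 0, .negSucc 2431, .negSucc 975, .ofNat 80], (.tw (.dx 0 (.tw (.lf 5) (.lf 19))) (.tr (.lf 13) (.lf 6) (.tr (.lf 9) (.lf 14) (.lf 10)))), 0, [12, 12, 12, 12, 11, 11, 12, 12], []⟩)
    (.lf ⟨[.ofNat 0, .ofNat 0, .ofNat 2432, .ofNat 976, .negSucc 79], (.tr (.dx 0 (.lf 13)) (.tr (.lf 9) (.tr (.lf 14) (.lf 5) (.lf 19)) (.lf 10)) (.lf 6)), 0, [21, 9, 21, 9], [21, 9, 21, 9]⟩))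
    (.nd (.lf ⟨[.ofNat 0, .ofNat 0, .negSucc 8159, .negSucc 3815, .ofNat 112], (.tw (.lf 6) (.tr (.lf 9) (.dx 0 (.tw (.lf 5) (.lf 19))) (.tr (.lf 13) (.lf 10) (.lf 14)))), 0, [20, 20, 20, 20, 19, 19, 19, 19], []⟩)
    (.lf ⟨[.ofNat 0, .ofNat 0, .ofNat 12840, .ofNat 10054, .ofNat 84], (.tw (.dx 0 (.tr (.lf 5) (.tr (.lf 13) (.tw (.lf 9) (.lf 19)) (.lf 14)) (.lf 6))) (.lf 10)), 0, [7, 7, 7, 7, 7, 7, 7, 7], []⟩))))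

/-- data -/
def dE4x2 : RT := (.nd (.nd (.nd (.lf ⟨[.ofNat 0, .ofNat 0, .negSucc 17327, .negSucc 11443, .ofNat 8], (.tw (.dx 0 (.tr (.lf 5) (.tr (.lf 13) (.lf 9) (.tw (.lf 14) (.lf 19))) (.lf 6))) (.lf 10)), 0, [19, 7, 7, 7, 19, 7, 7, 7], []⟩)
    (.lf ⟨[.ofNat 0, .ofNat 0, .negSucc 8679, .negSucc 1445, .ofNat 36], (.tw (.dx 0 (.tr (.lf 13) (.tr (.tw (.lf 5) (.lf 6)) (.lf 9) (.lf 19)) (.lf 14))) (.lf 10)), 0, [7, 7, 7, 7, 7, 7, 7, 7], []⟩))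
    (.nd (.lf ⟨[.ofNat 0, .ofNat 0, .negSucc 479, .negSucc 1127, .negSucc 15], (.tw (.dx 0 (.tr (.lf 13) (.tr (.lf 5) (.tw (.lf 6) (.lf 9)) (.lf 19)) (.lf 14))) (.lf 10)), 0, [7, 7, 7, 7, 7, 7, 7, 7], []⟩)
    (.lf ⟨[.ofNat 0, .ofNat 0, .ofNat 17328, .ofNat 11444, .negSucc 7], (.tw (.dx 0 (.tw (.lf 5) (.tr (.lf 6) (.tr (.lf 13) (.lf 9) (.lf 14)) (.lf 19)))) (.lf 10)), 0, [0, 0, 7, 7, 19, 19, 7, 7], []⟩)))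
    (.nd (.nd (.lf ⟨[.ofNat 0, .ofNat 0, .ofNat 512, .negSucc 7423, .negSucc 47], (.tw (.dx 0 (.tw (.lf 19) (.tr (.lf 5) (.lf 6) (.tr (.lf 13) (.lf 9) (.lf 14))))) (.lf 10)), 0, [7, 7, 7, 7, 0, 0, 19, 19], []⟩)
    (.lf ⟨[.ofNat 0, .ofNat 0, .negSucc 3391, .negSucc 1007, .negSucc 31], (.dx 0 (.tr (.lf 5) (.tw (.lf 19) (.tr (.lf 13) (.tw (.lf 6) (.lf 9)) (.lf 14))) (.lf 10))), 0, [3, 3, 3, 3, 0, 0, 0, 0], []⟩))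
    (.nd (.lf ⟨[.ofNat 0, .ofNat 0, .ofNat 2480, .ofNat 260, .negSucc 143], (.tr (.lf 5) (.tw (.dx 0 (.lf 13)) (.tr (.lf 9) (.tw (.lf 14) (.lf 19)) (.lf 10))) (.lf 6)), 0, [4, 4, 4, 4, 5, 5, 5, 5], [4, 16, 4, 16, 17, 5, 17, 5]⟩)
    (.lf ⟨[.ofNat 0, .ofNat 0, .negSucc 4959, .negSucc 519, .ofNat 288], (.tw (.lf 5) (.tr (.dx 0 (.tw (.lf 13) (.lf 19))) (.tr (.lf 9) (.lf 14) (.lf 10)) (.lf 6))), 0, [9, 9, 9, 9, 8, 8, 8, 8], []⟩))))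

/-- data -/
def dE4x3 : RT := (.nd (.nd (.nd (.lf ⟨[.ofNat 0, .ofNat 0, .negSucc 14831, .negSucc 2771, .negSucc 23], (.tr (.dx 3 (.tr (.lf 1) (.lf 2) (.lf 5))) (.lf 19) (.tr (.lf 9) (.lf 6) (.lf 10))), 3, [23, 23, 23, 23], []⟩)
    (.lf ⟨[.ofNat 0, .ofNat 0, .negSucc 1407, .ofNat 448], (.tr (.lf 2) (.lf 19) (.tr (.lf 6) (.dx 3 (.tr (.lf 5) (.lf 1) (.lf 9))) (.lf 10))), 3, [7, 11, 9, 5], [1023, 1017]⟩))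
    (.nd (.lf ⟨[.ofNat 0, .ofNat 0, .ofNat 1472, .ofNat 1632, .ofNat 32], (.tr (.lf 6) (.tw (.dx 3 (.tr (.lf 1) (.tw (.lf 5) (.lf 9)) (.lf 2))) (.lf 19)) (.lf 10)), 3, [4, 4, 4, 4, 7, 7, 7, 7], []⟩)
    (.lf ⟨[.ofNat 0, .ofNat 0, .negSucc 5887, .negSucc 6527, .negSucc 127], (.tr (.dx 0 (.tr (.lf 5) (.lf 13) (.lf 19))) (.lf 9) (.tr (.lf 6) (.lf 14) (.lf 10))), 0, [0, 0, 11, 9], []⟩)))
    (.nd (.nd (.lf ⟨[.ofNat 0, .ofNat 0, .negSucc 11359, .negSucc 4199, .ofNat 80], (.tr (.tw (.dx 0 (.tr (.lf 9) (.tw (.lf 5) (.lf 6)) (.lf 13))) (.lf 14)) (.lf 19) (.lf 10)), 0, [2, 2, 0, 0, 19, 19, 19, 19], []⟩)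
    (.lf ⟨[.ofNat 0, .ofNat 0, .negSucc 5999, .ofNat 1308, .negSucc 7], (.tr (.dx 0 (.tr (.lf 9) (.tw (.lf 5) (.lf 6)) (.lf 13))) (.tw (.lf 14) (.lf 19)) (.lf 10)), 0, [2, 2, 2, 2, 0, 0, 0, 0], []⟩))
    (.nd (.lf ⟨[.ofNat 0, .ofNat 0, .ofNat 6704, .negSucc 1307, .ofNat 8], (.tr (.dx 0 (.tr (.lf 9) (.tw (.lf 5) (.lf 6)) (.lf 13))) (.lf 19) (.tw (.lf 10) (.lf 14))), 0, [2, 2, 2, 2, 0, 0, 0, 0], []⟩)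
    (.lf ⟨[.ofNat 0, .ofNat 0, .ofNat 3392, .ofNat 1008, .ofNat 32], (.tr (.tw (.lf 10) (.lf 19)) (.dx 0 (.tr (.lf 9) (.tw (.lf 5) (.lf 6)) (.lf 13))) (.lf 14)), 0, [18, 18, 18, 18, 18, 18, 3, 3], []⟩))))

/-- data -/
def dE4x4 : RT := (.nd (.nd (.nd (.lf ⟨[.ofNat 0, .ofNat 0, .negSucc 35679, .negSucc 8039, .ofNat 112], (.tr (.dx 0 (.tr (.lf 5) (.lf 19) (.lf 13))) (.tr (.lf 9) (.lf 10) (.lf 14)) (.lf 6)), 0, [12, 9, 9, 9], []⟩)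
    (.lf ⟨[.ofNat 0, .ofNat 0, .ofNat 15184, .ofNat 4860, .ofNat 264], (.tw (.lf 6) (.tr (.dx 0 (.tr (.lf 5) (.lf 19) (.lf 13))) (.tw (.lf 9) (.lf 10)) (.lf 14))), 0, [16, 16, 4, 4, 8, 13, 8, 13], []⟩))
    (.nd (.lf ⟨[.ofNat 0, .ofNat 0, .ofNat 6000, .negSucc 1307, .ofNat 8], (.tr (.dx 0 (.tr (.tw (.lf 5) (.lf 6)) (.lf 13) (.lf 9))) (.tw (.lf 14) (.lf 19)) (.lf 10)), 0, [0, 0, 0, 0, 2, 2, 2, 2], []⟩)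
    (.lf ⟨[.ofNat 0, .ofNat 0, .negSucc 8111, .ofNat 1308, .negSucc 7], (.tr (.tw (.dx 0 (.tr (.tw (.lf 5) (.lf 6)) (.lf 13) (.lf 9))) (.lf 14)) (.lf 19) (.lf 10)), 0, [0, 0, 2, 2, 19, 19, 19, 19], []⟩)))
    (.nd (.nd (.lf ⟨[.ofNat 0, .ofNat 0, .ofNat 11840, .ofNat 5328, .negSucc 63], (.tr (.dx 0 (.tr (.tw (.lf 5) (.lf 6)) (.lf 13) (.lf 9))) (.lf 19) (.tw (.lf 10) (.lf 14))), 0, [0, 0, 0, 0, 2, 2, 2, 2], []⟩)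
    (.lf ⟨[.ofNat 0, .ofNat 0, .negSucc 3391, .negSucc 1007, .negSucc 31], (.tr (.tw (.dx 0 (.tr (.tw (.lf 5) (.lf 6)) (.lf 13) (.lf 9))) (.lf 19)) (.lf 10) (.lf 14)), 0, [0, 0, 2, 2, 7, 7, 7, 7], []⟩))
    (.nd (.lf ⟨[.ofNat 0, .ofNat 0, .negSucc 3983, .negSucc 1595, .ofNat 56], (.tr (.dx 3 (.tr (.lf 1) (.tw (.lf 5) (.lf 19)) (.lf 2))) (.tw (.lf 9) (.lf 10)) (.lf 6)), 3, [9, 9, 9, 9, 9, 9, 9, 9], []⟩)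
    (.lf ⟨[.ofNat 0, .ofNat 0, .ofNat 33600, .ofNat 25968, .ofNat 160], (.tr (.dx 0 (.tr (.lf 19) (.lf 9) (.tr (.lf 5) (.lf 6) (.lf 13)))) (.lf 10) (.lf 14)), 0, [14, 14, 0, 0], []⟩))))

/-- data -/
def dE4x5 : RT := (.nd (.nd (.nd (.lf ⟨[.ofNat 0, .ofNat 0, .negSucc 6703, .ofNat 1308, .negSucc 7], (.tr (.lf 13) (.dx 0 (.tw (.lf 5) (.lf 19))) (.tr (.lf 6) (.lf 14) (.tw (.lf 9) (.lf 10)))), 0, [11, 11, 9, 9, 11, 11, 9, 9], []⟩)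
    (.lf ⟨[.ofNat 0, .ofNat 0, .ofNat 5104, .negSucc 907, .ofNat 8], (.tr (.lf 9) (.lf 10) (.tr (.lf 13) (.tw (.dx 0 (.tw (.lf 5) (.lf 19))) (.lf 6)) (.lf 14))), 0, [6, 6, 10, 10, 6, 6, 10, 10], []⟩))
    (.nd (.lf ⟨[.ofNat 0, .ofNat 0, .ofNat 1600, .negSucc 399], (.tr (.dx 3 (.tr (.lf 1) (.lf 19) (.tr (.lf 5) (.lf 2) (.lf 6)))) (.lf 9) (.lf 10)), 3, [11, 11, 7, 7], []⟩)
    (.lf ⟨[.ofNat 0, .ofNat 0, .negSucc 6703, .ofNat 1308, .negSucc 7], (.tr (.lf 13) (.lf 6) (.tr (.dx 0 (.tw (.lf 5) (.lf 19))) (.lf 14) (.tw (.lf 9) (.lf 10)))), 0, [7, 7, 7, 7, 13, 13, 13, 13], []⟩)))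
    (.nd (.nd (.lf ⟨[.ofNat 0, .ofNat 0, .ofNat 384, .negSucc 799], (.tr (.dx 3 (.tr (.lf 1) (.tr (.lf 2) (.lf 19) (.lf 5)) (.lf 6))) (.lf 9) (.lf 10)), 3, [11, 11, 7, 7], []⟩)
    (.lf ⟨[.ofNat 0, .ofNat 0, .ofNat 12000, .negSucc 2615, .ofNat 16], (.tr (.dx 0 (.tw (.lf 5) (.lf 19))) (.lf 13) (.tr (.tw (.lf 9) (.lf 10)) (.lf 6) (.lf 14))), 0, [12, 12, 11, 11, 12, 12, 11, 11], []⟩))
    (.nd (.lf ⟨[.ofNat 0, .ofNat 0, .ofNat 16896, .ofNat 8640, .negSucc 191], (.tr (.lf 6) (.dx 0 (.tr (.lf 5) (.lf 19) (.lf 13))) (.tr (.lf 9) (.lf 10) (.lf 14))), 0, [16, 7, 4, 7], []⟩)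
    (.lf ⟨[.ofNat 0, .ofNat 0, .negSucc 7935, .negSucc 4031, .negSucc 127], (.tr (.lf 6) (.tr (.dx 0 (.tr (.lf 5) (.lf 19) (.lf 13))) (.lf 14) (.lf 9)) (.lf 10)), 0, [7, 7, 8, 19], []⟩))))

/-- data -/
def dE4x6 : RT := (.nd (.nd (.nd (.lf ⟨[.ofNat 0, .ofNat 0, .ofNat 20784, .ofNat 7284, .ofNat 8], (.tw (.dx 0 (.tr (.lf 5) (.lf 13) (.lf 19))) (.tr (.lf 6) (.lf 14) (.tw (.lf 9) (.lf 10)))), 0, [11, 11, 0, 0, 11, 11, 9, 9], []⟩)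
    (.lf ⟨[.ofNat 0, .ofNat 0, .negSucc 38815, .negSucc 9815, .negSucc 143], (.tr (.dx 0 (.tr (.lf 5) (.lf 13) (.lf 19))) (.lf 6) (.tr (.lf 9) (.lf 10) (.lf 14))), 0, [0, 11, 12, 11], []⟩))
    (.nd (.lf ⟨[.ofNat 0, .ofNat 0, .ofNat 704], (.tw (.dx 0 (.tr (.lf 5) (.lf 13) (.lf 19))) (.tr (.lf 6) (.tw (.lf 9) (.lf 10)) (.lf 14))), 0, [0, 0, 9, 9, 12, 12, 9, 9], []⟩)
    (.lf ⟨[.ofNat 0, .ofNat 0, .ofNat 14832, .ofNat 2772, .ofNat 24], (.tr (.dx 3 (.tr (.lf 1) (.lf 2) (.tr (.lf 5) (.lf 9) (.lf 6)))) (.lf 19) (.lf 10)), 3, [23, 23, 19, 19], []⟩)))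
    (.nd (.nd (.lf ⟨[.ofNat 0, .ofNat 0, .negSucc 10095, .negSucc 14291, .negSucc 71], (.tr (.dx 0 (.tw (.lf 19) (.tr (.lf 9) (.tw (.lf 5) (.lf 6)) (.lf 13)))) (.lf 10) (.lf 14)), 0, [14, 14, 12, 12, 2, 2, 0, 0], []⟩)
    (.lf ⟨[.ofNat 0, .ofNat 0, .ofNat 3872, .ofNat 2136, .ofNat 48], (.tw (.lf 14) (.tr (.dx 0 (.tr (.lf 5) (.lf 13) (.lf 19))) (.lf 6) (.tw (.lf 9) (.lf 10)))), 0, [23, 23, 11, 11, 13, 1, 13, 1], []⟩))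
    (.nd (.lf ⟨[.ofNat 0, .ofNat 0, .negSucc 8799, .negSucc 6407, .negSucc 143], (.tw (.lf 14) (.tr (.lf 6) (.dx 0 (.tr (.lf 5) (.lf 19) (.lf 13))) (.tw (.lf 9) (.lf 10)))), 0, [7, 7, 19, 19, 5, 17, 5, 17], []⟩)
    (.lf ⟨[.ofNat 0, .ofNat 0, .negSucc 7743, .negSucc 4271, .negSucc 95], (.tr (.lf 9) (.tr (.dx 0 (.tr (.lf 5) (.lf 13) (.lf 19))) (.lf 6) (.lf 10)) (.lf 14)), 0, [6, 18, 10, 22], []⟩))))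

/-- data -/
def dE4x7 : RT := (.nd (.nd (.nd (.lf ⟨[.ofNat 0, .ofNat 0, .ofNat 17600, .ofNat 12816, .ofNat 288], (.tr (.lf 9) (.tr (.lf 6) (.dx 0 (.tr (.lf 5) (.lf 19) (.lf 13))) (.lf 10)) (.lf 14)), 0, [22, 10, 18, 6], []⟩)
    (.lf ⟨[.ofNat 0, .ofNat 0, .ofNat 960, .ofNat 2256, .ofNat 32], (.tr (.lf 9) (.dx 0 (.tr (.lf 5) (.lf 13) (.lf 19))) (.tr (.lf 6) (.lf 10) (.lf 14))), 0, [6, 6, 18, 9], []⟩))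
    (.nd (.lf ⟨[.ofNat 0, .ofNat 0, .negSucc 10815, .negSucc 10799, .negSucc 223], (.tr (.lf 9) (.lf 6) (.tr (.dx 0 (.tr (.lf 5) (.lf 19) (.lf 13))) (.lf 10) (.lf 14))), 0, [22, 10, 10, 10], []⟩)
    (.lf ⟨[.ofNat 0, .ofNat 0, .ofNat 448, .ofNat 26832, .ofNat 416], (.tr (.dx 0 (.tr (.lf 9) (.lf 5) (.tr (.lf 6) (.lf 13) (.lf 19)))) (.lf 10) (.lf 14)), 0, [2, 14, 0, 12], []⟩)))
    (.nd (.nd (.lf ⟨[.ofNat 0, .ofNat 0, .ofNat 29664, .ofNat 5544, .ofNat 48], (.tr (.lf 10) (.dx 0 (.tr (.lf 5) (.tr (.lf 6) (.lf 13) (.lf 19)) (.lf 9))) (.lf 14)), 0, [6, 18, 6, 18], []⟩)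
    (.lf ⟨[.ofNat 0, .ofNat 0, .negSucc 26815, .negSucc 12431, .negSucc 127], (.tr (.lf 10) (.dx 0 (.tr (.lf 5) (.lf 19) (.tr (.lf 9) (.lf 6) (.lf 13)))) (.lf 14)), 0, [18, 18, 6, 6], []⟩))
    (.nd (.lf ⟨[.ofNat 0, .ofNat 0, .negSucc 4863, .ofNat 7192, .ofNat 4768], (.tr (.dx 3 (.tr (.lf 19) (.lf 5) (.tr (.lf 1) (.lf 9) (.lf 2)))) (.lf 6) (.lf 10)), 3, [11, 11, 11, 11], []⟩)
    (.lf ⟨[.ofNat 0, .ofNat 0, .ofNat 2592, .negSucc 4007, .negSucc 47], (.tr (.lf 14) (.lf 5) (.tr (.lf 9) (.tw (.dx 0 (.tw (.lf 13) (.lf 19))) (.lf 6)) (.lf 10))), 0, [23, 11, 19, 7, 23, 11, 19, 7], []⟩))))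

/-- data -/
def dE4x8 : RT := (.nd (.nd (.nd (.lf ⟨[.ofNat 0, .ofNat 0, .negSucc 2671, .ofNat 684, .negSucc 7], (.tr (.lf 5) (.tr (.lf 9) (.tw (.dx 0 (.tw (.lf 13) (.lf 19))) (.lf 6)) (.lf 10)) (.lf 14)), 0, [8, 20, 8, 20, 8, 20, 8, 20], []⟩)
    (.lf ⟨[.ofNat 0, .ofNat 0, .ofNat 1248, .ofNat 2760, .ofNat 48], (.tw (.lf 14) (.tr (.lf 5) (.dx 0 (.tw (.lf 13) (.lf 19))) (.tr (.lf 9) (.lf 6) (.lf 10)))), 0, [23, 23, 11, 11, 17, 5, 17, 5], []⟩))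
    (.nd (.lf ⟨[.ofNat 0, .ofNat 0, .negSucc 5887, .negSucc 6527, .negSucc 127], (.tw (.lf 5) (.tr (.dx 0 (.tw (.lf 13) (.lf 19))) (.tr (.lf 9) (.lf 6) (.lf 10)) (.lf 14))), 0, [4, 4, 16, 16, 8, 8, 8, 8], []⟩)
    (.lf ⟨[.ofNat 0, .ofNat 0, .ofNat 5888, .ofNat 6528, .ofNat 128], (.tw (.dx 0 (.tw (.lf 13) (.lf 19))) (.tr (.lf 5) (.lf 14) (.tr (.lf 9) (.lf 6) (.lf 10)))), 0, [11, 11, 9, 9, 11, 11, 9, 9], []⟩)))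
    (.nd (.nd (.lf ⟨[.ofNat 0, .ofNat 0, .negSucc 5887, .negSucc 6527, .negSucc 127], (.tr (.lf 2) (.dx 3 (.tr (.lf 5) (.lf 1) (.lf 19))) (.tr (.lf 9) (.lf 6) (.lf 10))), 3, [11, 11, 11, 11], []⟩)
    (.lf ⟨[.ofNat 0, .ofNat 0, .negSucc 16703, .negSucc 17327, .negSucc 351], (.tr (.dx 0 (.tr (.lf 5) (.tr (.lf 6) (.lf 13) (.lf 9)) (.lf 19))) (.lf 10) (.lf 14)), 0, [0, 0, 12, 14], []⟩))
    (.nd (.lf ⟨[.ofNat 0, .ofNat 0, .ofNat 1408], (.tr (.dx 3 (.tr (.lf 1) (.tw (.lf 9) (.lf 19)) (.lf 5))) (.tw (.lf 2) (.lf 6)) (.lf 10)), 3, [11, 7, 11, 7, 11, 7, 11, 7], []⟩)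
    (.lf ⟨[.ofNat 0, .ofNat 0, .ofNat 2176, .ofNat 2368, .ofNat 64], (.tr (.dx 3 (.tr (.lf 1) (.lf 19) (.tw (.lf 5) (.lf 9)))) (.lf 2) (.tw (.lf 6) (.lf 10))), 3, [11, 9, 11, 9, 11, 9, 11, 9], []⟩))))

/-- data -/
def dE4x9 : RT := (.nd (.nd (.nd (.lf ⟨[.ofNat 0, .ofNat 0, .negSucc 3583, .negSucc 2367, .negSucc 63], (.tr (.tw (.lf 6) (.lf 10)) (.dx 0 (.tr (.lf 13) (.tw (.lf 5) (.lf 9)) (.lf 19))) (.lf 14)), 0, [8, 8, 20, 20, 10, 10, 22, 22], []⟩)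
    (.lf ⟨[.ofNat 0, .ofNat 0, .ofNat 4096, .ofNat 15552, .ofNat 256], (.tr (.dx 0 (.tr (.lf 5) (.lf 19) (.tr (.lf 9) (.lf 6) (.lf 13)))) (.lf 10) (.lf 14)), 0, [12, 12, 2, 0], []⟩))
    (.nd (.lf ⟨[.ofNat 0, .ofNat 0, .negSucc 9919, .negSucc 3791, .negSucc 319], (.tr (.dx 0 (.tr (.lf 9) (.tr (.lf 5) (.lf 6) (.lf 13)) (.lf 19))) (.lf 10) (.lf 14)), 0, [2, 2, 12, 12], []⟩)
    (.lf ⟨[.ofNat 0, .ofNat 0, .negSucc 3391, .negSucc 1007, .negSucc 31], (.tr (.dx 0 (.tw (.lf 9) (.tr (.lf 13) (.tw (.lf 5) (.lf 6)) (.lf 19)))) (.lf 10) (.lf 14)), 0, [2, 2, 14, 14, 0, 0, 12, 12], []⟩)))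
    (.nd (.nd (.lf ⟨[.ofNat 0, .ofNat 0, .negSucc 6703, .ofNat 1308, .negSucc 7], (.tr (.lf 10) (.dx 0 (.tw (.lf 19) (.tr (.tw (.lf 5) (.lf 6)) (.lf 13) (.lf 9)))) (.lf 14)), 0, [18, 18, 18, 18, 6, 6, 6, 6], []⟩)
    (.lf ⟨[.ofNat 0, .ofNat 0, .ofNat 6944, .ofNat 8664, .ofNat 176], (.tr (.dx 0 (.tw (.lf 19) (.tr (.lf 5) (.tw (.lf 9) (.lf 13)) (.lf 6)))) (.lf 10) (.lf 14)), 0, [12, 12, 12, 12, 0, 0, 0, 0], []⟩))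
    (.nd (.lf ⟨[.ofNat 0, .ofNat 0, .negSucc 26815, .negSucc 12431, .negSucc 127], (.tr (.lf 10) (.dx 0 (.tr (.lf 13) (.lf 5) (.tr (.lf 6) (.lf 9) (.lf 19)))) (.lf 14)), 0, [6, 6, 18, 18], []⟩)
    (.lf ⟨[.ofNat 0, .ofNat 0, .ofNat 8448, .ofNat 4320, .negSucc 95], (.tw (.dx 0 (.tw (.lf 5) (.lf 19))) (.tr (.lf 9) (.lf 10) (.tr (.lf 13) (.lf 6) (.lf 14)))), 0, [12, 12, 11, 11, 12, 12, 11, 11], []⟩))))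

/-- data -/
def dE4x10 : RT := (.nd (.nd (.nd (.lf ⟨[.ofNat 0, .ofNat 0, .negSucc 3935, .negSucc 8903, .negSucc 143], (.tr (.lf 10) (.dx 0 (.tr (.lf 5) (.lf 13) (.tr (.lf 9) (.lf 6) (.lf 19)))) (.lf 14)), 0, [6, 6, 18, 18], []⟩)
    (.lf ⟨[.ofNat 0, .ofNat 0, .ofNat 6624, .negSucc 4631, .negSucc 47], (.tr (.lf 10) (.dx 0 (.tr (.lf 19) (.lf 5) (.tr (.lf 6) (.lf 13) (.lf 9)))) (.lf 14)), 0, [18, 18, 6, 6], []⟩))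
    (.nd (.lf ⟨[.ofNat 0, .ofNat 0, .ofNat 9920, .ofNat 3792, .ofNat 320], (.tr (.lf 10) (.dx 0 (.tr (.lf 13) (.tr (.lf 5) (.lf 6) (.lf 9)) (.lf 19))) (.lf 14)), 0, [6, 6, 18, 18], []⟩)
    (.lf ⟨[.ofNat 0, .ofNat 0, .negSucc 1983, .ofNat 240, .negSucc 191], (.tr (.lf 10) (.dx 0 (.tr (.lf 13) (.lf 9) (.tr (.lf 5) (.lf 6) (.lf 19)))) (.lf 14)), 0, [6, 6, 18, 18], []⟩)))
    (.nd (.nd (.lf ⟨[.ofNat 0, .ofNat 0, .negSucc 703], (.tw (.dx 0 (.tr (.lf 13) (.lf 19) (.tr (.tw (.lf 5) (.lf 6)) (.lf 14) (.lf 9)))) (.lf 10)), 0, [7, 7, 7, 7, 0, 0, 2, 2], []⟩)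
    (.lf ⟨[.ofNat 0, .ofNat 0, .ofNat 704], (.tw (.dx 0 (.tw (.lf 9) (.tr (.lf 13) (.tr (.lf 5) (.lf 6) (.lf 19)) (.lf 14)))) (.lf 10)), 0, [2, 7, 2, 7, 7, 7, 7, 7], []⟩))
    (.nd (.lf ⟨[.ofNat 0, .ofNat 0, .negSucc 703], (.tw (.dx 0 (.tr (.lf 9) (.lf 13) (.tr (.lf 14) (.tw (.lf 5) (.lf 6)) (.lf 19)))) (.lf 10)), 0, [19, 19, 7, 7, 7, 7, 7, 7], []⟩)
    (.lf ⟨[.ofNat 0, .ofNat 0, .ofNat 704], (.tw (.dx 0 (.tr (.lf 9) (.tr (.tw (.lf 5) (.lf 6)) (.lf 13) (.lf 14)) (.lf 19))) (.lf 10)), 0, [2, 2, 19, 19, 7, 7, 7, 7], []⟩))))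

/-- data -/
def dE4x11 : RT := (.nd (.nd (.nd (.lf ⟨[.ofNat 0, .ofNat 0, .negSucc 703], (.tw (.dx 0 (.tr (.lf 19) (.lf 13) (.tr (.lf 9) (.tw (.lf 5) (.lf 6)) (.lf 14)))) (.lf 10)), 0, [7, 7, 7, 7, 2, 2, 19, 19], []⟩)
    (.lf ⟨[.ofNat 0, .ofNat 0, .negSucc 3391, .negSucc 1007, .negSucc 31], (.tr (.dx 3 (.lf 1)) (.tr (.lf 5) (.lf 6) (.tr (.lf 9) (.lf 2) (.lf 10))) (.lf 19)), 3, [19, 19, 21, 21], [8, 8, 21, 21]⟩))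
    (.nd (.lf ⟨[.ofNat 0, .ofNat 0, .negSucc 5407, .negSucc 5399, .negSucc 111], (.tw (.lf 5) (.tr (.lf 2) (.lf 6) (.tr (.lf 9) (.dx 3 (.tw (.lf 1) (.lf 19))) (.lf 10)))), 3, [4, 4, 4, 4, 1, 1, 1, 1], []⟩)
    (.lf ⟨[.ofNat 0, .ofNat 0, .ofNat 4928, .ofNat 4272, .ofNat 96], (.tr (.lf 5) (.tr (.dx 3 (.tw (.lf 1) (.lf 19))) (.tw (.lf 6) (.lf 9)) (.lf 2)) (.lf 10)), 3, [7, 7, 7, 7, 4, 4, 4, 4], []⟩)))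
    (.nd (.nd (.lf ⟨[.ofNat 0, .ofNat 0, .negSucc 479, .negSucc 1127, .negSucc 15], (.tr (.dx 0 (.tw (.lf 9) (.tr (.lf 13) (.tw (.lf 5) (.lf 19)) (.lf 14)))) (.lf 6) (.lf 10)), 0, [11, 11, 11, 11, 11, 11, 11, 11], []⟩)
    (.lf ⟨[.ofNat 0, .ofNat 0, .negSucc 11775, .negSucc 13055, .negSucc 255], (.tr (.dx 0 (.tr (.lf 13) (.lf 5) (.tr (.lf 9) (.lf 14) (.lf 19)))) (.lf 6) (.lf 10)), 0, [23, 11, 11, 11], []⟩))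
    (.nd (.lf ⟨[.ofNat 0, .ofNat 0, .ofNat 5888, .ofNat 6528, .ofNat 128], (.tr (.lf 6) (.tw (.dx 0 (.tr (.lf 5) (.tw (.lf 13) (.lf 19)) (.lf 9))) (.lf 14)) (.lf 10)), 0, [4, 16, 4, 16, 19, 7, 19, 7], []⟩)
    (.lf ⟨[.ofNat 0, .ofNat 0, .ofNat 2880, .ofNat 6768, .ofNat 96], (.tr (.dx 0 (.tr (.lf 9) (.lf 13) (.tr (.lf 14) (.lf 5) (.lf 19)))) (.lf 6) (.lf 10)), 0, [23, 11, 11, 11], []⟩))))

/-- data -/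
def dE4x12 : RT := (.nd (.nd (.nd (.lf ⟨[.ofNat 0, .ofNat 0, .ofNat 10560, .negSucc 5999, .negSucc 31], (.tr (.dx 0 (.tw (.lf 19) (.tr (.lf 5) (.tw (.lf 13) (.lf 14)) (.lf 9)))) (.lf 6) (.lf 10)), 0, [11, 11, 11, 11, 23, 23, 23, 23], []⟩)
    (.lf ⟨[.ofNat 0, .ofNat 0, .negSucc 21119, .ofNat 12000, .ofNat 64], (.tr (.dx 0 (.tr (.lf 5) (.tr (.lf 9) (.lf 13) (.lf 14)) (.lf 19))) (.lf 6) (.lf 10)), 0, [0, 23, 11, 11], []⟩))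
    (.nd (.lf ⟨[.ofNat 0, .ofNat 0, .negSucc 3391, .negSucc 1007, .negSucc 31], (.tr (.dx 3 (.tr (.lf 1) (.lf 5) (.lf 19))) (.tr (.lf 9) (.lf 6) (.lf 10)) (.lf 2)), 3, [3, 3, 3, 3], []⟩)
    (.lf ⟨[.ofNat 0, .ofNat 0, .ofNat 3392, .ofNat 1008, .ofNat 32], (.tw (.dx 0 (.tr (.lf 5) (.tr (.tw (.lf 6) (.lf 9)) (.lf 13) (.lf 19)) (.lf 10))) (.lf 14)), 0, [0, 0, 12, 12, 2, 2, 14, 14], []⟩)))
    (.nd (.nd (.lf ⟨[.ofNat 0, .ofNat 0, .negSucc 3391, .negSucc 1007, .negSucc 31], (.tw (.lf 14) (.tr (.lf 5) (.tr (.dx 0 (.tw (.lf 13) (.lf 19))) (.lf 9) (.lf 10)) (.lf 6))), 0, [21, 9, 17, 5, 21, 9, 17, 5], []⟩)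
    (.lf ⟨[.ofNat 0, .ofNat 0, .ofNat 3392, .ofNat 1008, .ofNat 32], (.tw (.dx 0 (.tr (.lf 5) (.lf 13) (.tr (.tw (.lf 9) (.lf 10)) (.lf 6) (.lf 19)))) (.lf 14)), 0, [0, 0, 0, 0, 14, 14, 12, 12], []⟩))
    (.nd (.lf ⟨[.ofNat 0, .ofNat 0, .negSucc 4799, .negSucc 1007, .negSucc 31], (.tw (.dx 0 (.tr (.lf 19) (.lf 5) (.tr (.lf 6) (.lf 13) (.tw (.lf 9) (.lf 10))))) (.lf 14)), 0, [12, 12, 12, 12, 0, 0, 2, 2], []⟩)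
    (.lf ⟨[.ofNat 0, .ofNat 0, .negSucc 1695, .negSucc 503, .negSucc 15], (.tr (.dx 3 (.tr (.tw (.lf 1) (.lf 2)) (.lf 19) (.lf 5))) (.tw (.lf 9) (.lf 10)) (.lf 6)), 3, [9, 9, 9, 9, 9, 9, 9, 9], []⟩))))

/-- data -/
def dE4x13 : RT := (.nd (.nd (.nd (.lf ⟨[.ofNat 0, .ofNat 0, .ofNat 3392, .ofNat 1008, .ofNat 32], (.tr (.dx 3 (.tr (.tw (.lf 1) (.lf 2)) (.lf 19) (.lf 5))) (.lf 9) (.tw (.lf 6) (.lf 10))), 3, [11, 9, 11, 9, 11, 9, 11, 9], []⟩)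
    (.lf ⟨[.ofNat 0, .ofNat 0, .ofNat 8000, .ofNat 208, .ofNat 32], (.tw (.dx 0 (.tw (.lf 19) (.tr (.lf 5) (.tr (.lf 6) (.lf 13) (.lf 9)) (.lf 10)))) (.lf 14)), 0, [12, 12, 14, 14, 0, 0, 2, 2], []⟩))
    (.nd (.lf ⟨[.ofNat 0, .ofNat 0, .negSucc 5007, .ofNat 1236, .ofNat 8], (.tw (.dx 0 (.tr (.lf 19) (.lf 5) (.tr (.lf 9) (.tw (.lf 6) (.lf 13)) (.lf 10)))) (.lf 14)), 0, [12, 12, 12, 12, 2, 2, 2, 2], []⟩)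
    (.lf ⟨[.ofNat 0, .ofNat 0, .negSucc 559, .negSucc 2691, .negSucc 39], (.tw (.dx 0 (.tr (.lf 5) (.tr (.lf 9) (.tw (.lf 6) (.lf 13)) (.lf 10)) (.lf 19))) (.lf 14)), 0, [0, 0, 0, 0, 14, 14, 14, 14], []⟩)))
    (.nd (.nd (.lf ⟨[.ofNat 0, .ofNat 0, .ofNat 3952, .ofNat 3700, .ofNat 72], (.tw (.dx 0 (.tw (.lf 19) (.tr (.lf 5) (.lf 13) (.tr (.lf 9) (.lf 6) (.lf 10))))) (.lf 14)), 0, [12, 12, 14, 14, 0, 0, 2, 2], []⟩)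
    (.lf ⟨[.ofNat 0, .ofNat 0, .negSucc 11775, .negSucc 13055, .negSucc 255], (.tr (.lf 9) (.lf 19) (.tr (.lf 13) (.lf 10) (.tr (.dx 0 (.lf 5)) (.lf 14) (.lf 6)))), 0, [5, 1, 18, 22], [5, 1, 18, 22]⟩))
    (.nd (.lf ⟨[.ofNat 0, .ofNat 0, .ofNat 3584, .ofNat 2816, .ofNat 64], (.tr (.lf 13) (.lf 9) (.tr (.lf 10) (.lf 19) (.tr (.dx 0 (.lf 5)) (.lf 14) (.lf 6)))), 0, [5, 1, 23, 19], [5, 1, 23, 19]⟩)
    (.lf ⟨[.ofNat 0, .ofNat 0, .negSucc 11711, .negSucc 9359, .ofNat 448], (.tr (.lf 2) (.lf 6) (.tr (.dx 3 (.tr (.lf 5) (.lf 1) (.lf 19))) (.lf 9) (.lf 10))), 3, [7, 11, 0, 0], []⟩))))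

/-- data -/
def dE4x14 : RT := (.nd (.nd (.nd (.lf ⟨[.ofNat 0, .ofNat 0, .negSucc 4863, .ofNat 2496], (.tr (.dx 3 (.tr (.lf 5) (.lf 1) (.lf 19))) (.lf 9) (.tr (.lf 2) (.lf 6) (.lf 10))), 3, [11, 1, 11, 1], []⟩)
    (.lf ⟨[.ofNat 0, .ofNat 0, .negSucc 1919, .negSucc 4511, .negSucc 63], (.tr (.lf 9) (.lf 2) (.tr (.dx 3 (.tr (.lf 1) (.lf 5) (.lf 19))) (.lf 10) (.lf 6))), 3, [6, 9, 6, 6], []⟩))
    (.nd (.lf ⟨[.ofNat 0, .ofNat 0, .negSucc 3647, .ofNat 11280, .ofNat 160], (.tr (.lf 14) (.lf 19) (.tr (.dx 0 (.tr (.lf 5) (.lf 13) (.lf 9))) (.lf 6) (.lf 10))), 0, [11, 11, 3, 1], [23, 13]⟩)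
    (.lf ⟨[.ofNat 0, .ofNat 0, .ofNat 3456, .negSucc 1407], (.tr (.lf 14) (.lf 19) (.tr (.lf 6) (.dx 0 (.tr (.lf 5) (.lf 13) (.lf 9))) (.lf 10))), 0, [7, 7, 5, 5], [19, 17]⟩)))
    (.nd (.nd (.lf ⟨[.ofNat 0, .ofNat 0, .ofNat 5216, .negSucc 4631, .negSucc 47], (.tw (.lf 14) (.tr (.tw (.lf 6) (.lf 10)) (.dx 0 (.tr (.lf 5) (.lf 13) (.lf 9))) (.lf 19))), 0, [8, 8, 10, 10, 11, 9, 11, 9], [1017, 1023, 23, 21]⟩)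
    (.lf ⟨[.ofNat 0, .ofNat 0, .ofNat 1408], (.tr (.dx 3 (.tr (.lf 1) (.tw (.lf 5) (.lf 9)) (.lf 2))) (.lf 6) (.tw (.lf 10) (.lf 19))), 3, [0, 23, 2, 23, 0, 23, 2, 23], []⟩))
    (.nd (.lf ⟨[.ofNat 0, .ofNat 0, .negSucc 991, .negSucc 503, .negSucc 15], (.tw (.dx 3 (.tr (.lf 1) (.lf 19) (.lf 5))) (.tr (.lf 9) (.tw (.lf 2) (.lf 6)) (.lf 10))), 3, [11, 7, 11, 7, 11, 7, 11, 7], []⟩)
    (.lf ⟨[.ofNat 0, .ofNat 0, .ofNat 3968, .ofNat 2016, .ofNat 64], (.tr (.lf 9) (.lf 2) (.tr (.dx 3 (.tr (.lf 1) (.lf 19) (.lf 5))) (.lf 10) (.lf 6))), 3, [9, 9, 6, 6], []⟩))))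

/-- data -/
def dE4x15 : RT := (.nd (.nd (.nd (.lf ⟨[.ofNat 0, .ofNat 0, .ofNat 8288, .ofNat 3432, .negSucc 223], (.tw (.lf 2) (.tr (.dx 3 (.tr (.lf 5) (.lf 1) (.lf 19))) (.tw (.lf 9) (.lf 10)) (.lf 6))), 3, [9, 9, 9, 9, 0, 0, 0, 0], []⟩)
    (.lf ⟨[.ofNat 0, .ofNat 0, .ofNat 5952, .ofNat 1776, .ofNat 256], (.tr (.dx 0 (.tr (.lf 9) (.lf 19) (.tr (.lf 5) (.lf 6) (.lf 13)))) (.lf 14) (.lf 10)), 0, [14, 14, 0, 7], []⟩))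
    (.nd (.lf ⟨[.ofNat 0, .ofNat 0, .negSucc 12671, .negSucc 95, .ofNat 384], (.tr (.dx 0 (.tr (.lf 5) (.tr (.lf 6) (.lf 13) (.lf 19)) (.lf 9))) (.lf 14) (.lf 10)), 0, [0, 12, 2, 14], []⟩)
    (.lf ⟨[.ofNat 0, .ofNat 0, .ofNat 22528, .ofNat 8640, .negSucc 191], (.tr (.dx 0 (.tr (.lf 5) (.lf 19) (.tr (.lf 9) (.lf 6) (.lf 13)))) (.lf 14) (.lf 10)), 0, [12, 12, 2, 7], []⟩)))
    (.nd (.nd (.lf ⟨[.ofNat 0, .ofNat 0, .negSucc 9855, .negSucc 8543, .negSucc 191], (.tr (.lf 2) (.lf 9) (.tr (.lf 6) (.dx 3 (.tr (.lf 1) (.lf 5) (.lf 19))) (.lf 10))), 3, [2, 2, 2, 2], []⟩)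
    (.lf ⟨[.ofNat 0, .ofNat 0, .negSucc 2975, .negSucc 887, .negSucc 127], (.tr (.dx 0 (.tw (.lf 13) (.tr (.tw (.lf 5) (.lf 6)) (.lf 19) (.lf 9)))) (.lf 14) (.lf 10)), 0, [7, 7, 7, 7, 12, 12, 14, 14], []⟩))
    (.nd (.lf ⟨[.ofNat 0, .ofNat 0, .ofNat 4928, .ofNat 4272, .ofNat 96], (.tw (.dx 0 (.tr (.lf 13) (.lf 19) (.tr (.lf 5) (.tw (.lf 9) (.lf 14)) (.lf 6)))) (.lf 10)), 0, [7, 7, 7, 7, 0, 0, 0, 0], []⟩)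
    (.lf ⟨[.ofNat 0, .ofNat 0, .ofNat 2112, .ofNat 4144, .negSucc 511], (.tr (.lf 9) (.dx 3 (.tr (.lf 1) (.lf 2) (.lf 5))) (.tr (.lf 6) (.lf 10) (.lf 19))), 3, [6, 21, 10, 21], []⟩))))

/-- data -/
def dE4x16 : RT := (.nd (.nd (.nd (.lf ⟨[.ofNat 0, .ofNat 0, .ofNat 4608, .negSucc 5823, .negSucc 127], (.tr (.lf 6) (.lf 9) (.tr (.lf 10) (.dx 3 (.tr (.lf 1) (.lf 2) (.lf 5))) (.lf 19))), 3, [8, 8, 20, 20], []⟩)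
    (.lf ⟨[.ofNat 0, .ofNat 0, .negSucc 1407], (.tw (.lf 19) (.tr (.dx 3 (.tr (.lf 1) (.lf 2) (.lf 5))) (.tw (.lf 9) (.lf 10)) (.lf 6))), 3, [9, 9, 9, 9, 5, 1, 5, 1], []⟩))
    (.nd (.lf ⟨[.ofNat 0, .ofNat 0, .ofNat 2816], (.tr (.dx 3 (.tr (.lf 1) (.lf 2) (.lf 5))) (.lf 9) (.tr (.lf 10) (.lf 6) (.lf 19))), 3, [0, 23, 4, 23], []⟩)
    (.lf ⟨[.ofNat 0, .ofNat 0, .negSucc 479, .negSucc 1127, .negSucc 15], (.tr (.dx 3 (.tr (.lf 1) (.tw (.lf 5) (.lf 19)) (.lf 2))) (.lf 9) (.tw (.lf 6) (.lf 10))), 3, [11, 9, 11, 9, 11, 9, 11, 9], []⟩)))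
    (.nd (.nd (.lf ⟨[.ofNat 0, .ofNat 0, .negSucc 3839, .ofNat 1248], (.tr (.dx 3 (.tr (.lf 5) (.tw (.lf 1) (.lf 19)) (.lf 9))) (.lf 2) (.tw (.lf 6) (.lf 10))), 3, [11, 9, 11, 9, 11, 9, 11, 9], []⟩)
    (.lf ⟨[.ofNat 0, .ofNat 0, .ofNat 960, .ofNat 2256, .ofNat 32], (.tr (.dx 3 (.tr (.tw (.lf 1) (.lf 5)) (.lf 19) (.lf 9))) (.tw (.lf 2) (.lf 6)) (.lf 10)), 3, [11, 7, 11, 7, 11, 7, 11, 7], []⟩))
    (.nd (.lf ⟨[.ofNat 0, .ofNat 0, .ofNat 896, .negSucc 4511, .negSucc 63], (.tr (.dx 3 (.tr (.lf 1) (.tw (.lf 5) (.lf 19)) (.lf 9))) (.tw (.lf 2) (.lf 6)) (.lf 10)), 3, [11, 7, 11, 7, 11, 7, 11, 7], []⟩)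
    (.lf ⟨[.ofNat 0, .ofNat 0, .negSucc 2815], (.tr (.lf 14) (.lf 6) (.tr (.dx 0 (.tr (.lf 9) (.lf 5) (.lf 13))) (.lf 19) (.lf 10))), 0, [19, 19, 1, 3], [19, 15]⟩))))

/-- data -/
def dE4x17 : RT := (.nd (.nd (.nd (.lf ⟨[.ofNat 0, .ofNat 0, .ofNat 3968, .ofNat 2016, .ofNat 64], (.tr (.dx 3 (.tr (.lf 5) (.lf 1) (.tr (.lf 2) (.lf 19) (.lf 9)))) (.lf 6) (.lf 10)), 3, [11, 11, 11, 11], []⟩)
    (.lf ⟨[.ofNat 0, .ofNat 0, .negSucc 21503, .negSucc 8063, .negSucc 255], (.tr (.dx 3 (.tr (.lf 5) (.tr (.lf 1) (.lf 2) (.lf 19)) (.lf 9))) (.lf 6) (.lf 10)), 3, [11, 11, 11, 11], []⟩))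
    (.nd (.lf ⟨[.ofNat 0, .ofNat 0, .ofNat 2816], (.tr (.dx 3 (.tr (.lf 9) (.lf 19) (.tr (.lf 1) (.lf 2) (.lf 5)))) (.lf 6) (.lf 10)), 3, [11, 11, 11, 11], []⟩)
    (.lf ⟨[.ofNat 0, .ofNat 0, .ofNat 8352, .ofNat 2904, .ofNat 192], (.tr (.dx 3 (.tw (.lf 5) (.tr (.tw (.lf 1) (.lf 2)) (.lf 19) (.lf 9)))) (.lf 6) (.lf 10)), 3, [11, 11, 11, 11, 11, 11, 11, 11], []⟩)))
    (.nd (.nd (.lf ⟨[.ofNat 0, .ofNat 0, .ofNat 6784, .ofNat 2016, .ofNat 64], (.tr (.dx 3 (.tw (.lf 9) (.tr (.tw (.lf 1) (.lf 2)) (.lf 19) (.lf 5)))) (.lf 6) (.lf 10)), 3, [11, 11, 11, 11, 11, 11, 11, 11], []⟩)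
    (.lf ⟨[.ofNat 0, .ofNat 0, .negSucc 10367, .negSucc 4831, .negSucc 127], (.tr (.lf 14) (.lf 9) (.tr (.tw (.dx 0 (.tw (.lf 5) (.lf 13))) (.lf 6)) (.lf 19) (.lf 10))), 0, [23, 23, 19, 19, 5, 5, 1, 1], [23, 19, 17, 13]⟩))
    (.nd (.lf ⟨[.ofNat 0, .ofNat 0, .negSucc 2815], (.tr (.lf 14) (.lf 9) (.tr (.lf 6) (.dx 0 (.tr (.lf 13) (.lf 5) (.lf 19))) (.lf 10))), 0, [19, 7, 17, 5], []⟩)
    (.lf ⟨[.ofNat 0, .ofNat 0, .negSucc 3967, .negSucc 2015, .negSucc 63], (.tr (.lf 9) (.dx 0 (.tr (.lf 13) (.lf 5) (.lf 19))) (.tr (.lf 6) (.lf 10) (.lf 14))), 0, [6, 9, 18, 9], []⟩))))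

/-- data -/
def dE4x18 : RT := (.nd (.nd (.nd (.lf ⟨[.ofNat 0, .ofNat 0, .ofNat 3392, .ofNat 1008, .ofNat 32], (.tw (.dx 0 (.tr (.lf 5) (.lf 19) (.tr (.lf 9) (.tw (.lf 6) (.lf 13)) (.lf 10)))) (.lf 14)), 0, [12, 12, 12, 12, 2, 2, 2, 2], []⟩)
    (.lf ⟨[.ofNat 0, .ofNat 0, .ofNat 6784, .ofNat 2016, .ofNat 64], (.tr (.dx 3 (.tw (.lf 1) (.lf 5))) (.lf 9) (.tr (.tw (.lf 2) (.lf 6)) (.lf 19) (.lf 10))), 3, [23, 19, 17, 13, 23, 19, 17, 13], [23, 19, 17, 13]⟩))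
    (.nd (.lf ⟨[.ofNat 0, .ofNat 0, .ofNat 2944, .ofNat 3264, .ofNat 64], (.tr (.lf 9) (.lf 19) (.tr (.dx 3 (.tw (.lf 1) (.lf 5))) (.lf 10) (.tw (.lf 2) (.lf 6)))), 3, [5, 1, 5, 1, 18, 18, 22, 22], [5, 1, 18, 22]⟩)
    (.lf ⟨[.ofNat 0, .ofNat 0, .ofNat 256, .ofNat 13824, .negSucc 1439, .ofNat 800], (.tr (.lf 1) (.dx 3 .on) (.tr (.tw (.lf 7) (.lf 11)) (.lf 2) (.lf 19))), 3, [0, 2, 23, 21], [0, 2, 23, 21]⟩)))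
    (.nd (.nd (.lf ⟨[.ofNat 0, .ofNat 0, .ofNat 22528, .ofNat 8640, .negSucc 191], (.tr (.lf 6) (.dx 3 (.tr (.lf 1) (.lf 2) (.tr (.lf 5) (.lf 9) (.lf 19)))) (.lf 10)), 3, [4, 11, 8, 7], []⟩)
    (.lf ⟨[.ofNat 0, .ofNat 0, .negSucc 22527, .negSucc 8639, .ofNat 192], (.tr (.lf 6) (.dx 3 (.tr (.lf 1) (.tr (.lf 2) (.lf 19) (.lf 9)) (.lf 5))) (.lf 10)), 3, [11, 11, 4, 8], []⟩))
    (.nd (.lf ⟨[.ofNat 0, .ofNat 0, .negSucc 4655, .negSucc 2579, .negSucc 111], (.tr (.lf 5) (.tr (.lf 13) (.tr (.dx 0 .on) (.tw (.lf 6) (.lf 9)) (.lf 19)) (.lf 14)) (.lf 10)), 0, [4, 4, 7, 7, 4, 4, 7, 7], [4, 4, 7, 7, 4, 4, 7, 7]⟩)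
    (.lf ⟨[.ofNat 0, .ofNat 0, .ofNat 2432, .ofNat 976, .negSucc 79], (.tw (.lf 6) (.tr (.lf 13) (.dx 0 (.tw (.lf 5) (.lf 19))) (.tr (.lf 9) (.lf 14) (.lf 10)))), 0, [7, 7, 7, 7, 8, 8, 8, 8], []⟩))))

/-- data -/
def dE4x19 : RT := (.nd (.nd (.nd (.lf ⟨[.ofNat 0, .ofNat 0, .negSucc 2431, .negSucc 975, .ofNat 80], (.tr (.dx 0 (.lf 13)) (.lf 5) (.tr (.lf 9) (.tr (.lf 14) (.lf 6) (.lf 19)) (.lf 10))), 0, [0, 0, 0, 0], [0, 12, 0, 12]⟩)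
    (.lf ⟨[.ofNat 0, .ofNat 0, .ofNat 3392, .ofNat 1008, .ofNat 32], (.tw (.dx 3 (.tw (.lf 1) (.tr (.lf 2) (.lf 19) (.tr (.lf 5) (.lf 9) (.lf 6))))) (.lf 10)), 3, [11, 11, 7, 7, 7, 7, 7, 7], []⟩))
    (.nd (.lf ⟨[.ofNat 0, .ofNat 26624, .ofNat 480, .ofNat 16864, .negSucc 21615, .ofNat 352], (.tr (.dx 3 (.tw (.lf 3) (.lf 17))) (.tw (.lf 7) (.lf 11)) (.lf 18)), 3, [23, 21, 23, 21], []⟩)
    (.lf ⟨[.ofNat 0, .ofNat 0, .negSucc 18559, .ofNat 19424, .negSucc 12479, .ofNat 2848], (.tr (.dx 3 (.tr (.lf 3) (.lf 7) (.lf 17))) (.lf 11) (.lf 18)), 3, [0, 19], []⟩)))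
    (.nd (.nd (.lf ⟨[.ofNat 0, .ofNat 0, .ofNat 3200, .ofNat 4512, .ofNat 64], (.tr (.dx 3 (.tr (.lf 3) (.lf 17) (.lf 18))) (.lf 7) (.lf 11)), 3, [11, 11], []⟩)
    (.lf ⟨[.ofNat 0, .ofNat 0, .ofNat 0, .negSucc 1663, .ofNat 5184, .negSucc 959], (.tw (.dx 3 (.tr (.tw (.lf 3) (.lf 7)) (.lf 17) (.lf 18))) (.lf 11)), 3, [11, 7, 11, 7], []⟩))
    (.nd (.lf ⟨[.ofNat 0, .ofNat 0, .negSucc 3967, .negSucc 3679, .ofNat 5120, .negSucc 959], (.tr (.lf 17) (.dx 3 .on) (.tr (.tw (.lf 3) (.lf 7)) (.lf 18) (.lf 11))), 3, [23, 19, 17, 13], [23, 19, 17, 13]⟩)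
    (.lf ⟨[.ofNat 0, .ofNat 0, .ofNat 14848, .ofNat 2880, .negSucc 5055, .ofNat 960], (.tw (.lf 3) (.tr (.lf 17) (.dx 3 .on) (.tr (.lf 7) (.lf 18) (.lf 11)))), 3, [23, 21, 12, 14], [23, 21, 12, 14]⟩))))

/-- data -/
def dE4x20 : RT := (.nd (.nd (.nd (.lf ⟨[.ofNat 0, .ofNat 6656, .negSucc 21247, .negSucc 3071, .negSucc 735, .ofNat 160], (.tw (.dx 0 .on) (.tr (.lf 13) (.lf 19) (.tr (.lf 7) (.lf 14) (.lf 11)))), 0, [0, 2, 0, 2], [11, 9, 0, 2]⟩)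
    (.lf ⟨[.ofNat 0, .negSucc 13311, .ofNat 36096, .negSucc 4095, .negSucc 223, .negSucc 79], (.tw (.lf 13) (.tr (.dx 0 .on) (.tr (.lf 7) (.lf 14) (.lf 11)) (.lf 19))), 0, [0, 2, 3, 1], [0, 2, 3, 1]⟩))
    (.nd (.lf ⟨[.ofNat 0, .ofNat 0, .negSucc 4927, .negSucc 4271, .negSucc 95], (.tr (.dx 0 (.tw (.lf 5) (.lf 9))) (.lf 13) (.tr (.lf 6) (.tw (.lf 14) (.lf 19)) (.lf 10))), 0, [0, 0, 0, 0, 2, 2, 2, 2], [0, 0, 2, 2]⟩)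
    (.lf ⟨[.ofNat 0, .ofNat 0, .negSucc 4031, .ofNat 848, .negSucc 31], (.tr (.lf 7) (.tr (.lf 13) (.lf 14) (.tr (.dx 0 .on) (.lf 17) (.lf 18))) (.lf 11)), 0, [1015, 19, 16, 1015], [1015, 19, 16, 1015]⟩)))
    (.nd (.nd (.lf ⟨[.ofNat 0, .ofNat 0, .ofNat 0, .negSucc 767, .ofNat 1600], (.tr (.dx 0 (.lf 7)) (.lf 11) (.tr (.tw (.lf 13) (.lf 17)) (.lf 14) (.lf 18))), 0, [0, 12, 12, 12], []⟩)
    (.lf ⟨[.ofNat 0, .ofNat 0, .ofNat 0, .negSucc 767, .ofNat 1600], (.tr (.dx 0 (.lf 7)) (.tr (.lf 11) (.lf 13) (.tw (.lf 17) (.lf 18))) (.lf 14)), 0, [0, 0, 12, 12], []⟩))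
    (.nd (.lf ⟨[.ofNat 0, .ofNat 0, .ofNat 1664, .negSucc 4799, .ofNat 160], (.tw (.dx 0 (.lf 7)) (.tr (.lf 11) (.lf 13) (.tr (.lf 17) (.lf 14) (.lf 18)))), 0, [0, 0, 12, 12], []⟩)
    (.lf ⟨[.ofNat 0, .ofNat 0, .ofNat 0, .ofNat 768, .negSucc 1599], (.tw (.lf 13) (.tr (.dx 0 (.lf 7)) (.lf 11) (.tr (.lf 17) (.lf 14) (.lf 18)))), 0, [0, 0, 13, 13], []⟩))))

/-- data -/
def dE4x21 : RT := (.nd (.nd (.nd (.lf ⟨[.ofNat 0, .ofNat 0, .ofNat 0, .negSucc 767, .ofNat 1600], (.tr (.lf 13) (.dx 0 (.lf 7)) (.tr (.lf 11) (.lf 14) (.tw (.lf 17) (.lf 18)))), 0, [0, 0, 7, 7], []⟩)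
    (.lf ⟨[.ofNat 0, .ofNat 0, .negSucc 3327, .ofNat 5888, .negSucc 2719], (.tr (.dx 0 (.lf 7)) (.tr (.lf 11) (.tw (.lf 17) (.lf 18)) (.lf 13)) (.lf 14)), 0, [12, 12, 0, 0], []⟩))
    (.nd (.lf ⟨[.ofNat 0, .ofNat 0, .ofNat 3328, .negSucc 1407, .ofNat 3520], (.tr (.dx 0 (.lf 7)) (.tr (.lf 11) (.lf 17) (.tw (.lf 13) (.lf 18))) (.lf 14)), 0, [12, 12, 0, 12], []⟩)
    (.lf ⟨[.ofNat 0, .ofNat 0, .ofNat 0, .negSucc 4095, .negSucc 1599], (.tw (.dx 0 (.lf 7)) (.tr (.lf 13) (.lf 11) (.tr (.lf 17) (.lf 14) (.lf 18)))), 0, [0, 0, 12, 12], []⟩)))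
    (.nd (.nd (.lf ⟨[.ofNat 0, .ofNat 0, .ofNat 0, .ofNat 1536, .negSucc 3199], (.tw (.lf 13) (.tr (.dx 0 (.lf 7)) (.lf 17) (.tr (.lf 11) (.lf 14) (.lf 18)))), 0, [0, 7, 13, 13], []⟩)
    (.lf ⟨[.ofNat 0, .ofNat 0, .ofNat 0, .negSucc 767, .ofNat 1600], (.tr (.lf 13) (.dx 0 (.lf 7)) (.tr (.lf 17) (.tw (.lf 11) (.lf 14)) (.lf 18))), 0, [0, 0, 0, 0], []⟩))
    (.nd (.lf ⟨[.ofNat 0, .ofNat 0, .ofNat 3328, .negSucc 9599, .ofNat 320], (.tw (.dx 0 (.lf 7)) (.tr (.lf 13) (.lf 14) (.tr (.lf 11) (.lf 17) (.lf 18)))), 0, [0, 0, 12, 12], []⟩)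
    (.lf ⟨[.ofNat 0, .ofNat 0, .negSucc 3071, .ofNat 10880, .negSucc 1055, .ofNat 160], (.tr (.dx 0 (.lf 13)) (.lf 17) (.tr (.lf 7) (.tw (.lf 14) (.lf 18)) (.lf 11))), 0, [0, 0, 2, 2], [12, 12, 14, 14]⟩))))

/-- data -/
def dE4x22 : RT := (.nd (.nd (.nd (.lf ⟨[.ofNat 0, .ofNat 0, .negSucc 14719, .ofNat 44224, .ofNat 4736, .negSucc 479], (.tw (.lf 11) (.tr (.lf 17) (.dx 3 (.lf 7)) (.tr (.lf 1) (.lf 18) (.lf 2)))), 3, [13, 13, 18, 18], []⟩)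
    (.lf ⟨[.ofNat 0, .ofNat 0, .ofNat 14720, .negSucc 44223, .negSucc 4735, .ofNat 480], (.tw (.lf 17) (.tr (.dx 3 (.lf 7)) (.tr (.lf 1) (.lf 18) (.lf 2)) (.lf 11))), 3, [19, 19, 18, 18], []⟩))
    (.nd (.lf ⟨[.ofNat 0, .ofNat 0, .negSucc 18303, .ofNat 40640, .ofNat 5184, .negSucc 479], (.tr (.dx 3 (.lf 7)) (.lf 1) (.tr (.lf 17) (.tw (.lf 2) (.lf 11)) (.lf 18))), 3, [19, 15, 19, 15], []⟩)
    (.lf ⟨[.ofNat 0, .ofNat 0, .negSucc 18303, .ofNat 40640, .ofNat 5184, .negSucc 479], (.tr (.lf 14) (.dx 0 (.tw (.lf 7) (.lf 13))) (.tr (.lf 17) (.lf 11) (.lf 18))), 0, [0, 0, 0, 0], []⟩)))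
    (.nd (.nd (.lf ⟨[.ofNat 0, .ofNat 0, .negSucc 14719, .ofNat 44224, .ofNat 4736, .negSucc 479], (.tr (.lf 11) (.dx 3 (.tw (.lf 7) (.lf 17))) (.tr (.lf 1) (.lf 18) (.lf 2))), 3, [13, 13, 13, 13], []⟩)
    (.lf ⟨[.ofNat 0, .ofNat 0, .negSucc 14719, .ofNat 44224, .ofNat 4736, .negSucc 479], (.tr (.lf 2) (.dx 3 (.tw (.lf 1) (.lf 17))) (.tr (.lf 7) (.lf 18) (.lf 11))), 3, [0, 2, 23, 21], [1023, 1017]⟩))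
    (.nd (.lf ⟨[.ofNat 0, .ofNat 0, .ofNat 52432, .negSucc 49039, .ofNat 12096, .ofNat 480], (.tr (.dx 0 (.tw (.lf 13) (.lf 17))) (.lf 14) (.tr (.lf 7) (.lf 18) (.lf 11))), 0, [23, 21, 23, 21], [1023, 1017]⟩)
    (.lf ⟨[.ofNat 0, .ofNat 0, .ofNat 3584, .ofNat 3584, .negSucc 447], (.tr (.lf 14) (.lf 7) (.tr (.lf 17) (.tw (.dx 0 (.lf 13)) (.lf 11)) (.lf 18))), 0, [19, 15, 19, 15], [19, 15, 19, 15]⟩))))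

/-- data -/
def dE4x23 : RT := (.nd (.nd (.nd (.lf ⟨[.ofNat 0, .ofNat 0, .negSucc 8831, .negSucc 4351, .ofNat 1760], (.tr (.lf 14) (.tr (.lf 7) (.tw (.dx 0 (.lf 13)) (.lf 17)) (.lf 11)) (.lf 18)), 0, [4, 19, 6, 17], [4, 19, 6, 17]⟩)
    (.lf ⟨[.ofNat 0, .ofNat 0, .negSucc 1663, .ofNat 4800, .negSucc 159], (.tr (.dx 0 (.tr (.lf 7) (.lf 11) (.lf 13))) (.tw (.lf 17) (.lf 18)) (.lf 14)), 0, [0, 0, 2, 2], []⟩))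
    (.nd (.lf ⟨[.ofNat 0, .ofNat 0, .ofNat 0, .ofNat 2816, .negSucc 799], (.tr (.lf 11) (.dx 0 (.tr (.lf 7) (.lf 13) (.lf 14))) (.tw (.lf 17) (.lf 18))), 0, [6, 6, 6, 6], []⟩)
    (.lf ⟨[.ofNat 0, .ofNat 0, .negSucc 7167, .negSucc 7167, .ofNat 1600], (.tr (.lf 14) (.dx 0 (.tr (.tw (.lf 7) (.lf 13)) (.lf 11) (.lf 17))) (.lf 18)), 0, [0, 1015, 1015, 13], []⟩)))
    (.nd (.nd (.lf ⟨[.ofNat 0, .ofNat 0, .negSucc 7167, .negSucc 7167, .ofNat 896], (.tr (.dx 3 (.tr (.lf 1) (.tw (.lf 7) (.lf 17)) (.lf 11))) (.lf 2) (.lf 18)), 3, [0, 1015, 10, 13], []⟩)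
    (.lf ⟨[.ofNat 0, .ofNat 0, .ofNat 0, .ofNat 1152, .negSucc 383], (.tr (.dx 0 (.tr (.lf 13) (.lf 14) (.lf 17))) (.tw (.lf 7) (.lf 11)) (.lf 18)), 0, [0, 2, 12, 14], []⟩))
    (.nd (.lf ⟨[.ofNat 0, .ofNat 0, .ofNat 3072, .negSucc 159], (.tr (.dx 0 (.tr (.lf 13) (.lf 14) (.lf 17))) (.lf 18) (.tw (.lf 7) (.lf 11))), 0, [23, 21, 23, 21], []⟩)
    (.lf ⟨[.ofNat 0, .ofNat 0, .ofNat 1600, .ofNat 2256, .ofNat 32], (.tr (.lf 2) (.dx 3 (.tr (.lf 1) (.lf 17) (.lf 18))) (.tw (.lf 7) (.lf 11))), 3, [11, 9, 11, 9], []⟩))))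

/-- data -/
def dE4x24 : RT := (.nd (.nd (.nd (.lf ⟨[.ofNat 0, .ofNat 0, .negSucc 6591, .ofNat 2800, .ofNat 1024], (.tr (.dx 0 (.lf 13)) (.tr (.lf 11) (.lf 14) (.tw (.lf 17) (.lf 18))) (.lf 7)), 0, [2, 2, 9, 9], [2, 2, 9, 9]⟩)
    (.lf ⟨[.ofNat 0, .ofNat 0, .ofNat 19904, .negSucc 38383, .negSucc 5151, .ofNat 480], (.tr (.lf 2) (.tr (.lf 11) (.dx 3 (.lf 1)) (.tw (.lf 17) (.lf 18))) (.lf 7)), 3, [2, 2, 9, 9], [2, 2, 9, 9]⟩))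
    (.nd (.lf ⟨[.ofNat 0, .ofNat 0, .negSucc 18303, .ofNat 40640, .ofNat 5184, .negSucc 479], (.tr (.lf 2) (.lf 17) (.tr (.tw (.lf 7) (.lf 11)) (.dx 3 (.lf 1)) (.lf 18))), 3, [12, 14, 11, 9], [12, 14, 11, 9]⟩)
    (.lf ⟨[.ofNat 0, .ofNat 0, .ofNat 36608, .negSucc 81279, .negSucc 10367, .ofNat 960], (.tw (.lf 17) (.tr (.dx 3 (.lf 1)) (.lf 7) (.tr (.lf 2) (.lf 18) (.lf 11)))), 3, [19, 15, 1015, 1], [19, 15, 9, 5]⟩)))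
    (.nd (.nd (.lf ⟨[.ofNat 0, .ofNat 0, .negSucc 2943, .ofNat 4832, .ofNat 64], (.tr (.dx 0 (.tr (.lf 13) (.lf 14) (.lf 17))) (.tw (.lf 7) (.lf 18)) (.lf 11)), 0, [23, 23, 23, 23], []⟩)
    (.lf ⟨[.ofNat 0, .ofNat 0, .negSucc 255, .negSucc 9343, .negSucc 127], (.tr (.lf 1) (.dx 3 .on) (.tr (.lf 17) (.lf 2) (.tr (.lf 7) (.lf 18) (.lf 11)))), 3, [23, 21, 0, 2], [23, 21, 0, 2]⟩))
    (.nd (.lf ⟨[.ofNat 0, .ofNat 8832, .ofNat 9152, .ofNat 6560, .ofNat 64], (.tw (.dx 0 (.tr (.lf 13) (.lf 14) (.tr (.lf 7) (.lf 17) (.lf 11)))) (.lf 18)), 0, [0, 2, 12, 14], []⟩)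
    (.lf ⟨[.ofNat 0, .negSucc 8831, .negSucc 8895, .ofNat 2784, .ofNat 64], (.tr (.lf 17) (.lf 1) (.tr (.lf 2) (.dx 3 .on) (.tr (.lf 7) (.lf 18) (.lf 11)))), 3, [23, 21, 3, 1], [23, 21, 3, 1]⟩))))

/-- data -/
def dE4 : RT := (.nd (.nd (.nd (.nd dE4x0 (.nd dE4x1 dE4x2)) (.nd dE4x3 (.nd dE4x4 dE4x5))) (.nd (.nd dE4x6 (.nd dE4x7 dE4x8)) (.nd dE4x9 (.nd dE4x10 dE4x11)))) (.nd (.nd (.nd dE4x12 (.nd dE4x13 dE4x14)) (.nd dE4x15 (.nd dE4x16 dE4x17))) (.nd (.nd dE4x18 (.nd dE4x19 dE4x20)) (.nd (.nd dE4x21 dE4x22) (.nd dE4x23 dE4x24)))))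

/-- data -/
def lE4x0 : List (ℕ × List ℤ) := [(5349, [.ofNat 0, .ofNat 0, .ofNat 0, .ofNat 20096, .ofNat 20960, .ofNat 448]),
  (6301, [.ofNat 0, .ofNat 0, .ofNat 0, .negSucc 11263]),
  (42795, [.ofNat 0, .ofNat 0, .ofNat 0, .negSucc 11263, .ofNat 14592, .negSucc 3135, .ofNat 1600]),
  (43229, [.ofNat 0, .ofNat 0, .ofNat 0, .negSucc 14335, .negSucc 11263, .negSucc 255]),
  (43244, [.ofNat 0, .ofNat 0, .ofNat 13312, .negSucc 7935, .ofNat 12736, .ofNat 2048, .negSucc 159]),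
  (43371, [.ofNat 0, .ofNat 0, .ofNat 0, .negSucc 16639, .ofNat 61056, .ofNat 6144, .negSucc 959]),
  (50381, [.ofNat 0, .ofNat 0, .ofNat 0, .negSucc 3071, .negSucc 25855, .ofNat 2880, .negSucc 1599]),
  (50412, [.ofNat 0, .ofNat 0, .ofNat 0, .ofNat 28672, .negSucc 88639, .negSucc 127, .negSucc 959]),
  (50475, [.ofNat 0, .ofNat 0, .ofNat 0, .ofNat 13568, .ofNat 38848, .negSucc 1727, .ofNat 320]),
  (50531, [.ofNat 0, .ofNat 0, .negSucc 13311, .ofNat 85760, .ofNat 50752, .negSucc 10367, .ofNat 1920]),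
  (136477, [.ofNat 0, .ofNat 0, .ofNat 26624, .negSucc 75519, .ofNat 13824, .ofNat 2176, .ofNat 160]),
  (136541, [.ofNat 0, .ofNat 0, .ofNat 0, .negSucc 55551, .ofNat 171264, .ofNat 17216, .negSucc 1919]),
  (305388, [.ofNat 0, .negSucc 13311, .ofNat 29696, .negSucc 14335, .negSucc 1919, .ofNat 160]),
  (314019, [.ofNat 0, .ofNat 13312, .negSucc 42495, .negSucc 6143, .negSucc 1471, .ofNat 320]),
  (342379, [.ofNat 0, .ofNat 0, .negSucc 511, .negSucc 27647, .ofNat 2880, .negSucc 1599]),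
  (345964, [.ofNat 0, .ofNat 0, .negSucc 18559, .ofNat 6112, .negSucc 63]),
  (346475, [.ofNat 0, .ofNat 0, .ofNat 0, .negSucc 8063, .ofNat 1696, .negSucc 63]),
  (346972, [.ofNat 0, .ofNat 0, .ofNat 3200, .ofNat 4512, .ofNat 64]),
  (403243, [.ofNat 0, .ofNat 0, .ofNat 0, .ofNat 23040, .ofNat 7424, .ofNat 256]),
  (403308, [.ofNat 0, .ofNat 0, .ofNat 7936, .ofNat 4032, .ofNat 128]),
  (404173, [.ofNat 0, .ofNat 0, .ofNat 17664, .ofNat 1920, .negSucc 7359, .negSucc 255]),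
  (404188, [.ofNat 0, .ofNat 0, .negSucc 17663, .negSucc 24959, .negSucc 63]),
  (404323, [.ofNat 0, .ofNat 0, .negSucc 29695, .negSucc 5759, .ofNat 10112, .negSucc 1919]),
  (410829, [.ofNat 0, .ofNat 0, .ofNat 512, .ofNat 27648, .negSucc 2879, .ofNat 1600]),
  (416412, [.ofNat 0, .ofNat 0, .ofNat 0, .negSucc 3327, .ofNat 10368, .negSucc 1919]),
  (1086749, [.ofNat 0, .negSucc 26623, .ofNat 72192, .negSucc 8191, .negSucc 447, .negSucc 159]),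
  (1092325, [.ofNat 0, .negSucc 53247, .negSucc 959, .negSucc 33727, .ofNat 43232, .negSucc 703]),
  (1092381, [.ofNat 0, .negSucc 53247, .negSucc 19519, .negSucc 14303, .ofNat 30752, .ofNat 2144]),
  (1103077, [.ofNat 0, .ofNat 0, .ofNat 18560, .negSucc 19423, .ofNat 12480, .negSucc 2847]),
  (2668845, [.ofNat 0, .ofNat 0, .ofNat 0, .negSucc 767, .ofNat 1600]),
  (2668901, [.ofNat 0, .ofNat 0, .ofNat 0, .negSucc 9727]),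
  (2672485, [.ofNat 0, .ofNat 0, .ofNat 0, .negSucc 9727]),
  (2673003, [.ofNat 0, .ofNat 0, .ofNat 3328, .negSucc 9599, .ofNat 320]),
  (2673437, [.ofNat 0, .ofNat 0, .negSucc 3327, .ofNat 9600, .negSucc 319]),
  (2673451, [.ofNat 0, .ofNat 0, .negSucc 3327, .ofNat 9600, .negSucc 319]),
  (2673500, [.ofNat 0, .ofNat 0, .negSucc 3327, .ofNat 10368, .negSucc 1919]),
  (2705771, [.ofNat 0, .ofNat 0, .ofNat 8064, .negSucc 1695, .ofNat 64]),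
  (2737004, [.ofNat 0, .ofNat 0, .negSucc 3327, .ofNat 9600, .negSucc 319]),
  (2738349, [.ofNat 0, .ofNat 0, .ofNat 0, .ofNat 5632, .negSucc 1599]),
  (2759019, [.ofNat 0, .ofNat 0, .ofNat 39808, .negSucc 76767, .negSucc 10303, .ofNat 960]),
  (2767692, [.ofNat 0, .negSucc 17663, .negSucc 18303, .negSucc 13119, .negSucc 127]),
  (2770605, [.ofNat 0, .ofNat 0, .ofNat 0, .ofNat 5632, .negSucc 1599]),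
  (2775779, [.ofNat 0, .ofNat 0, .negSucc 9983, .ofNat 10112, .ofNat 2112]),
  (3189099, [.ofNat 0, .ofNat 0, .negSucc 13183, .ofNat 5600, .ofNat 2048]),
  (3200299, [.ofNat 0, .ofNat 0, .ofNat 23296, .negSucc 66687, .negSucc 11583, .ofNat 1280]),
  (3200355, [.ofNat 0, .ofNat 0, .ofNat 23296, .negSucc 66687, .negSucc 11583, .ofNat 1280]),
  (3217251, [.ofNat 0, .ofNat 0, .ofNat 0, .ofNat 18624, .ofNat 10320, .ofNat 448]),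
  (3224419, [.ofNat 0, .ofNat 0, .ofNat 0, .ofNat 18624, .ofNat 10320, .ofNat 448]),
  (3224428, [.ofNat 0, .ofNat 0, .negSucc 3327, .ofNat 9600, .negSucc 319]),
  (3225963, [.ofNat 0, .ofNat 0, .ofNat 3456, .ofNat 13856, .ofNat 192]),
  (3226284, [.ofNat 0, .ofNat 0, .negSucc 36607, .ofNat 81280, .ofNat 10368, .negSucc 959]),
  (3226467, [.ofNat 0, .ofNat 0, .ofNat 2944, .negSucc 4831, .negSucc 63]),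
  (3233579, [.ofNat 0, .ofNat 0, .negSucc 75423, .ofNat 9632, .negSucc 33663]),
  (3233635, [.ofNat 0, .ofNat 0, .negSucc 104863, .ofNat 98080, .negSucc 24191, .negSucc 959]),
  (3234524, [.ofNat 0, .ofNat 17664, .ofNat 17792, .negSucc 5567, .negSucc 127]),
  (3297949, [.ofNat 0, .ofNat 0, .ofNat 0, .ofNat 2304, .negSucc 767]),
  (3330716, [.ofNat 0, .ofNat 0, .ofNat 0, .negSucc 2303, .ofNat 768]),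
  (8722221, [.ofNat 0, .ofNat 0, .ofNat 0, .negSucc 1535, .ofNat 3200]),
  (8722277, [.ofNat 0, .ofNat 0, .ofNat 0, .ofNat 1536, .negSucc 3199]),
  (8723229, [.ofNat 0, .ofNat 0, .ofNat 0, .negSucc 1535, .ofNat 3200]),
  (8734045, [.ofNat 0, .ofNat 0, .negSucc 10495, .negSucc 1535, .ofNat 2624]),
  (8734541, [.ofNat 0, .ofNat 0, .negSucc 7167, .negSucc 7167, .ofNat 1600]),
  (8738077, [.ofNat 0, .ofNat 0, .ofNat 10496, .ofNat 1536, .negSucc 2623]),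
  (8738573, [.ofNat 0, .ofNat 0, .ofNat 0, .ofNat 0, .negSucc 703]),
  (8738589, [.ofNat 0, .ofNat 0, .negSucc 7167, .negSucc 7167, .ofNat 896]),
  (19539755, [.ofNat 0, .ofNat 0, .negSucc 9919, .negSucc 1039, .ofNat 576]),
  (19539811, [.ofNat 0, .ofNat 0, .negSucc 9919, .negSucc 1039, .ofNat 576]),
  (19547819, [.ofNat 0, .ofNat 0, .ofNat 24000, .negSucc 5231, .ofNat 32]),
  (19547987, [.ofNat 0, .ofNat 0, .ofNat 24000, .negSucc 5231, .ofNat 32]),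
  (19999452, [.ofNat 0, .ofNat 0, .ofNat 768, .negSucc 1599]),
  (20002091, [.ofNat 0, .ofNat 0, .ofNat 2752, .ofNat 4752, .negSucc 127]),
  (20003484, [.ofNat 0, .ofNat 0, .negSucc 5631]),
  (20006571, [.ofNat 0, .ofNat 0, .ofNat 16896, .ofNat 8640, .negSucc 191]),
  (20006739, [.ofNat 0, .ofNat 0, .ofNat 16896, .ofNat 8640, .negSucc 191]),
  (20007635, [.ofNat 0, .ofNat 0, .ofNat 8960, .ofNat 4608, .negSucc 319]),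
  (20096794, [.ofNat 0, .ofNat 0, .negSucc 11711, .negSucc 9359, .ofNat 448]),
  (21349731, [.ofNat 0, .ofNat 0, .negSucc 959, .negSucc 2255, .negSucc 31]),
  (21351075, [.ofNat 0, .ofNat 0, .negSucc 959, .negSucc 2255, .negSucc 31]),
  (21351125, [.ofNat 0, .ofNat 0, .ofNat 6784, .ofNat 2016, .ofNat 64]),
  (21378284, [.ofNat 0, .ofNat 0, .ofNat 6912, .negSucc 2815]),
  (21378396, [.ofNat 0, .ofNat 0, .negSucc 959, .negSucc 2255, .negSucc 31]),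
  (21379740, [.ofNat 0, .ofNat 0, .negSucc 959, .negSucc 2255, .negSucc 31]),
  (21379797, [.ofNat 0, .ofNat 0, .ofNat 7168, .ofNat 4736, .ofNat 128]),
  (21386923, [.ofNat 0, .ofNat 0, .negSucc 11775, .negSucc 13055, .negSucc 255]),
  (21632741, [.ofNat 0, .ofNat 0, .ofNat 1792, .negSucc 5823, .negSucc 127]),
  (21632867, [.ofNat 0, .ofNat 0, .ofNat 6720, .negSucc 1679, .negSucc 639]),
  (21639979, [.ofNat 0, .ofNat 0, .negSucc 2815]),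
  (21640805, [.ofNat 0, .ofNat 0, .ofNat 1792, .negSucc 5823, .negSucc 127]),
  (21641036, [.ofNat 0, .ofNat 0, .ofNat 6400, .negSucc 1599]),
  (21641835, [.ofNat 0, .ofNat 0, .ofNat 5952, .ofNat 1776, .ofNat 256]),
  (21808427, [.ofNat 0, .ofNat 0, .negSucc 1919, .negSucc 4511, .negSucc 63]),
  (21808483, [.ofNat 0, .ofNat 0, .negSucc 959, .negSucc 2255, .negSucc 31]),
  (21808938, [.ofNat 0, .ofNat 0, .negSucc 9855, .negSucc 8543, .negSucc 191]),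
  (21808981, [.ofNat 0, .ofNat 0, .ofNat 43136, .ofNat 20064, .negSucc 95]),
  (21809323, [.ofNat 0, .ofNat 0, .ofNat 24000, .negSucc 5231, .ofNat 32]),
  (21809876, [.ofNat 0, .ofNat 0, .negSucc 6783, .negSucc 2015, .negSucc 63]),
  (21829931, [.ofNat 0, .ofNat 0, .negSucc 21119, .ofNat 12000, .ofNat 64]),
  (21841740, [.ofNat 0, .ofNat 0, .ofNat 6784, .ofNat 2016, .ofNat 64]),
  (21842637, [.ofNat 0, .ofNat 0, .negSucc 6783, .negSucc 2015, .negSucc 63]),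
  (21873450, [.ofNat 0, .ofNat 0, .ofNat 960, .ofNat 2256, .ofNat 32])]

/-- data -/
def lE4x1 : List (ℕ × List ℤ) := [(21873493, [.ofNat 0, .ofNat 0, .ofNat 1984, .negSucc 239, .ofNat 192]),
  (21894380, [.ofNat 0, .ofNat 0, .ofNat 6912, .negSucc 2815]),
  (21894443, [.ofNat 0, .ofNat 0, .ofNat 5888, .ofNat 6528, .ofNat 128]),
  (21894492, [.ofNat 0, .ofNat 0, .negSucc 1919, .negSucc 4511, .negSucc 63]),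
  (21894493, [.ofNat 0, .ofNat 0, .ofNat 7168, .ofNat 4736, .ofNat 128]),
  (21894996, [.ofNat 0, .ofNat 0, .negSucc 4095, .negSucc 15551, .negSucc 255]),
  (21894997, [.ofNat 0, .ofNat 0, .ofNat 43136, .ofNat 20064, .negSucc 95]),
  (21895339, [.ofNat 0, .ofNat 0, .ofNat 15680, .ofNat 5680, .negSucc 63]),
  (21895892, [.ofNat 0, .ofNat 0, .negSucc 4863, .ofNat 2496]),
  (21895962, [.ofNat 0, .ofNat 0, .ofNat 5888, .ofNat 6528, .ofNat 128]),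
  (21898027, [.ofNat 0, .ofNat 0, .negSucc 5887, .negSucc 6527, .negSucc 127]),
  (21898077, [.ofNat 0, .ofNat 0, .ofNat 7168, .ofNat 4736, .ofNat 128]),
  (21900107, [.ofNat 0, .ofNat 0, .negSucc 23999, .ofNat 5232, .negSucc 31]),
  (21902668, [.ofNat 0, .ofNat 0, .ofNat 2816]),
  (21904012, [.ofNat 0, .ofNat 0, .negSucc 1919, .negSucc 4511, .negSucc 63]),
  (21908051, [.ofNat 0, .ofNat 0, .negSucc 21119, .ofNat 12000, .ofNat 64]),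
  (21910179, [.ofNat 0, .ofNat 0, .ofNat 11776, .ofNat 13056, .ofNat 256]),
  (21910298, [.ofNat 0, .ofNat 0, .ofNat 5888, .ofNat 6528, .ofNat 128]),
  (21911125, [.ofNat 0, .ofNat 0, .negSucc 3135, .negSucc 13295, .negSucc 223]),
  (22063836, [.ofNat 0, .ofNat 0, .negSucc 7167, .negSucc 5631, .negSucc 127]),
  (22066525, [.ofNat 0, .ofNat 0, .ofNat 5440, .ofNat 2960, .negSucc 127]),
  (22066531, [.ofNat 0, .ofNat 0, .negSucc 10815, .negSucc 10799, .negSucc 223]),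
  (22067539, [.ofNat 0, .ofNat 0, .negSucc 10815, .negSucc 10799, .negSucc 223]),
  (22067869, [.ofNat 0, .ofNat 0, .negSucc 2815]),
  (22067925, [.ofNat 0, .ofNat 0, .ofNat 6912, .ofNat 3904, .negSucc 319]),
  (22070955, [.ofNat 0, .ofNat 0, .negSucc 6847, .negSucc 2959, .ofNat 128]),
  (22071018, [.ofNat 0, .ofNat 0, .ofNat 1024, .negSucc 14847, .negSucc 95]),
  (22074595, [.ofNat 0, .ofNat 0, .ofNat 4864, .ofNat 1952, .negSucc 159]),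
  (22075162, [.ofNat 0, .ofNat 0, .ofNat 3968, .ofNat 2016, .ofNat 64]),
  (22092508, [.ofNat 0, .ofNat 0, .ofNat 16704, .ofNat 5808, .ofNat 384]),
  (22098780, [.ofNat 0, .ofNat 0, .ofNat 8832, .ofNat 3968, .negSucc 95]),
  (22099788, [.ofNat 0, .ofNat 0, .ofNat 1984, .negSucc 239, .ofNat 192]),
  (22100313, [.ofNat 0, .ofNat 0, .negSucc 13567, .negSucc 4031, .negSucc 127]),
  (22100572, [.ofNat 0, .ofNat 0, .ofNat 4864, .ofNat 1952, .negSucc 159]),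
  (22100747, [.ofNat 0, .ofNat 0, .negSucc 1919, .negSucc 4511, .negSucc 63]),
  (22107747, [.ofNat 0, .ofNat 26624, .ofNat 27664, .negSucc 37695, .negSucc 15759]),
  (22107852, [.ofNat 0, .ofNat 0, .negSucc 7935, .negSucc 4031, .negSucc 127]),
  (22123756, [.ofNat 0, .ofNat 0, .negSucc 3647, .ofNat 11280, .ofNat 160]),
  (22124204, [.ofNat 0, .ofNat 0, .negSucc 13375, .ofNat 25664, .ofNat 9696]),
  (22124386, [.ofNat 0, .ofNat 0, .negSucc 959, .negSucc 2255, .negSucc 31]),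
  (22124890, [.ofNat 0, .ofNat 0, .ofNat 960, .ofNat 2256, .ofNat 32]),
  (22125268, [.ofNat 0, .ofNat 0, .negSucc 26815, .negSucc 12431, .negSucc 127]),
  (22125269, [.ofNat 0, .ofNat 0, .negSucc 2687, .ofNat 13536, .ofNat 192]),
  (22125338, [.ofNat 0, .ofNat 0, .negSucc 9855, .negSucc 8543, .negSucc 191]),
  (22128460, [.ofNat 0, .ofNat 0, .negSucc 2111, .ofNat 9872, .ofNat 160]),
  (22128985, [.ofNat 0, .ofNat 0, .negSucc 13567, .negSucc 4031, .negSucc 127]),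
  (22129244, [.ofNat 0, .ofNat 0, .ofNat 13888, .ofNat 17328, .ofNat 352]),
  (22129245, [.ofNat 0, .ofNat 0, .negSucc 4095, .negSucc 15551, .negSucc 255]),
  (22129259, [.ofNat 0, .ofNat 0, .negSucc 6847, .negSucc 2959, .ofNat 128]),
  (22129356, [.ofNat 0, .ofNat 0, .ofNat 6784, .ofNat 2016, .ofNat 64]),
  (22129357, [.ofNat 0, .ofNat 0, .negSucc 6783, .negSucc 2015, .negSucc 63]),
  (22129419, [.ofNat 0, .ofNat 0, .ofNat 9856, .ofNat 8544, .ofNat 192]),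
  (22131498, [.ofNat 0, .ofNat 0, .negSucc 5631]),
  (22131541, [.ofNat 0, .ofNat 0, .negSucc 7935, .negSucc 4031, .negSucc 127]),
  (22133354, [.ofNat 0, .ofNat 0, .negSucc 1023, .ofNat 14848, .ofNat 96]),
  (22135635, [.ofNat 0, .ofNat 0, .ofNat 6848, .ofNat 2960, .negSucc 127]),
  (22135642, [.ofNat 0, .ofNat 0, .negSucc 3967, .negSucc 2015, .negSucc 63]),
  (22139604, [.ofNat 0, .ofNat 0, .negSucc 22847, .negSucc 10415, .negSucc 63]),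
  (22140108, [.ofNat 0, .ofNat 0, .negSucc 6783, .negSucc 2015, .negSucc 63]),
  (22140522, [.ofNat 0, .negSucc 26623, .negSucc 27663, .ofNat 37696, .ofNat 15760]),
  (22140557, [.ofNat 0, .ofNat 0, .ofNat 7168, .ofNat 4736, .ofNat 128]),
  (22189731, [.ofNat 0, .ofNat 0, .negSucc 5887, .negSucc 6527, .negSucc 127]),
  (22193756, [.ofNat 0, .ofNat 0, .negSucc 13375, .ofNat 25664, .ofNat 9696]),
  (22193771, [.ofNat 0, .ofNat 0, .negSucc 9855, .negSucc 8543, .negSucc 191]),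
  (22196962, [.ofNat 0, .ofNat 0, .negSucc 959, .negSucc 2255, .negSucc 31]),
  (25508011, [.ofNat 0, .ofNat 0, .negSucc 4863, .negSucc 1951, .ofNat 160]),
  (25508074, [.ofNat 0, .ofNat 0, .negSucc 2815, .ofNat 896]),
  (25511595, [.ofNat 0, .ofNat 0, .negSucc 4863, .negSucc 1951, .ofNat 160]),
  (25515683, [.ofNat 0, .ofNat 0, .negSucc 17663, .negSucc 6687, .ofNat 32]),
  (25732907, [.ofNat 0, .ofNat 0, .negSucc 11775, .negSucc 13055, .negSucc 255]),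
  (25736541, [.ofNat 0, .ofNat 0, .ofNat 5440, .ofNat 2960, .negSucc 127]),
  (25737045, [.ofNat 0, .ofNat 0, .negSucc 959, .negSucc 2255, .negSucc 31]),
  (25737941, [.ofNat 0, .ofNat 0, .ofNat 4096, .ofNat 3904, .negSucc 319]),
  (25745109, [.ofNat 0, .ofNat 0, .ofNat 5632]),
  (25761635, [.ofNat 0, .ofNat 0, .ofNat 3904, .negSucc 1679, .negSucc 639]),
  (25768747, [.ofNat 0, .ofNat 0, .ofNat 960, .ofNat 2256, .ofNat 32]),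
  (25770189, [.ofNat 0, .ofNat 0, .ofNat 2112, .ofNat 4144, .negSucc 511]),
  (25777757, [.ofNat 0, .ofNat 0, .ofNat 16704, .ofNat 5808, .ofNat 384]),
  (25777869, [.ofNat 0, .ofNat 0, .negSucc 6399, .ofNat 1600]),
  (25793835, [.ofNat 0, .ofNat 0, .ofNat 5888, .ofNat 6528, .ofNat 128]),
  (25794388, [.ofNat 0, .ofNat 0, .ofNat 6784, .ofNat 2016, .ofNat 64]),
  (25794731, [.ofNat 0, .ofNat 0, .negSucc 2815, .ofNat 896]),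
  (25795229, [.ofNat 0, .ofNat 0, .negSucc 19455, .negSucc 10559, .negSucc 255]),
  (25795284, [.ofNat 0, .ofNat 0, .negSucc 2815]),
  (25795285, [.ofNat 0, .ofNat 0, .negSucc 19455, .negSucc 10559, .negSucc 255]),
  (25799373, [.ofNat 0, .ofNat 0, .ofNat 20672, .ofNat 5200, .ofNat 160]),
  (25802893, [.ofNat 0, .ofNat 0, .ofNat 2112, .ofNat 4144, .negSucc 511]),
  (25803349, [.ofNat 0, .ofNat 0, .ofNat 2816]),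
  (25803362, [.ofNat 0, .ofNat 0, .negSucc 5951, .negSucc 1775, .negSucc 255]),
  (25803405, [.ofNat 0, .ofNat 0, .ofNat 2816]),
  (25810012, [.ofNat 0, .ofNat 0, .ofNat 4096, .ofNat 15552, .ofNat 256]),
  (25810013, [.ofNat 0, .ofNat 0, .negSucc 13887, .negSucc 17327, .negSucc 351]),
  (25810125, [.ofNat 0, .ofNat 0, .ofNat 15872, .ofNat 12160, .ofNat 256]),
  (25866964, [.ofNat 0, .ofNat 0, .ofNat 6784, .ofNat 2016, .ofNat 64]),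
  (25867469, [.ofNat 0, .ofNat 0, .ofNat 11776, .ofNat 13056, .ofNat 256]),
  (25867861, [.ofNat 0, .ofNat 0, .negSucc 959, .negSucc 2255, .negSucc 31]),
  (69547357, [.ofNat 0, .ofNat 0, .ofNat 6784, .ofNat 2016, .ofNat 64]),
  (69781205, [.ofNat 0, .ofNat 0, .negSucc 6783, .negSucc 2015, .negSucc 63]),
  (69834909, [.ofNat 0, .ofNat 0, .ofNat 13248, .negSucc 9263, .negSucc 95]),
  (69834965, [.ofNat 0, .ofNat 0, .ofNat 2816])]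

/-- data -/
def lE4x2 : List (ℕ × List ℤ) := [(69838941, [.ofNat 0, .ofNat 0, .ofNat 10432, .negSucc 9263, .negSucc 95])]

/-- the sum of the part -/
def lE4 : List (ℕ × List ℤ) := lE4x0 ++ (lE4x1 ++ (lE4x2))

theorem okE4 : dE4.all (rok tbE 12) = true := by decide +kernel

theorem sumE4 : aeq (fz (sumT tbE dE4)) lE4 = true := by decide +kernel

end Pool.Agent.H.MP_e16c79_al.IS
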