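import Pool.Agent.H.MP_e16c79_al.IS.BTabE

/-!
# MP_e16c79_al: certificate E, part 5
-/

set_option autoImplicit false

namespace Pool.Agent.H.MP_e16c79_al.IS

/-- data -/
def dE5x0 : RT := (.nd (.nd (.nd (.lf ⟨[.ofNat 0, .ofNat 0, .ofNat 2144, .negSucc 9527, .negSucc 1135], (.tr (.dx 0 (.tr (.lf 7) (.lf 17) (.tw (.lf 13) (.lf 14)))) (.lf 18) (.lf 11)), 0, [12, 12, 19, 19], []⟩)
    (.lf ⟨[.ofNat 0, .ofNat 0, .ofNat 1472, .negSucc 2415, .negSucc 31], (.tw (.dx 0 (.tr (.lf 13) (.lf 14) (.tr (.lf 17) (.lf 7) (.lf 18)))) (.lf 11)), 0, [19, 19, 7, 7], []⟩))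
    (.nd (.lf ⟨[.ofNat 0, .ofNat 0, .ofNat 1472, .negSucc 2415, .negSucc 31], (.tr (.lf 11) (.lf 1) (.tr (.dx 3 (.lf 7)) (.tw (.lf 17) (.lf 18)) (.lf 2))), 3, [6, 6, 18, 18], []⟩)
    (.lf ⟨[.ofNat 0, .ofNat 0, .negSucc 1471, .ofNat 2416, .ofNat 32], (.tr (.dx 3 (.lf 7)) (.lf 17) (.tr (.lf 11) (.tw (.lf 1) (.lf 2)) (.lf 18))), 3, [15, 15, 19, 19], []⟩)))
    (.nd (.nd (.lf ⟨[.ofNat 0, .ofNat 0, .ofNat 5184, .ofNat 2672, .negSucc 2767], (.tr (.dx 3 (.lf 7)) (.tr (.tw (.lf 1) (.lf 2)) (.lf 11) (.lf 17)) (.lf 18)), 3, [4, 4, 15, 15], []⟩)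
    (.lf ⟨[.ofNat 0, .ofNat 0, .negSucc 8511, .ofNat 2640, .ofNat 2416], (.tr (.dx 3 (.lf 7)) (.lf 1) (.tr (.lf 2) (.lf 11) (.tw (.lf 17) (.lf 18)))), 3, [4, 4, 15, 15], []⟩))
    (.nd (.lf ⟨[.ofNat 13312, .negSucc 32127, .ofNat 14688, .ofNat 6896, .negSucc 3295], (.tr (.dx 3 (.lf 7)) (.tr (.lf 1) (.tw (.lf 17) (.lf 18)) (.lf 11)) (.lf 2)), 3, [15, 15, 15, 15], []⟩)
    (.lf ⟨[.ofNat 0, .ofNat 0, .negSucc 3711, .negSucc 5087, .ofNat 2736], (.tw (.dx 3 (.lf 7)) (.tr (.lf 17) (.tr (.lf 1) (.lf 2) (.lf 11)) (.lf 18))), 3, [19, 15, 19, 15], []⟩))))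

/-- data -/
def dE5x1 : RT := (.nd (.nd (.nd (.lf ⟨[.negSucc 26623, .ofNat 64256, .negSucc 29375, .negSucc 13791, .ofNat 6592], (.tr (.lf 1) (.lf 2) (.tr (.dx 3 (.lf 7)) (.tw (.lf 11) (.lf 17)) (.lf 18))), 3, [0, 0, 14, 14], []⟩)
    (.lf ⟨[.ofNat 13312, .negSucc 32127, .ofNat 14688, .ofNat 6896, .negSucc 3295], (.tr (.lf 17) (.lf 18) (.tr (.tw (.lf 1) (.lf 2)) (.dx 3 (.lf 7)) (.lf 11))), 3, [11, 11, 1, 1], []⟩))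
    (.nd (.lf ⟨[.negSucc 13311, .ofNat 32128, .negSucc 14687, .negSucc 6895, .ofNat 3296], (.tr (.lf 11) (.tr (.dx 3 (.lf 7)) (.tw (.lf 1) (.lf 2)) (.lf 17)) (.lf 18)), 3, [10, 10, 18, 18], []⟩)
    (.lf ⟨[.ofNat 0, .ofNat 0, .ofNat 0, .ofNat 384, .negSucc 799], (.tr (.dx 3 (.tr (.lf 1) (.lf 2) (.lf 7))) (.tw (.lf 17) (.lf 18)) (.lf 11)), 3, [23, 23, 19, 19], []⟩)))
    (.nd (.nd (.lf ⟨[.ofNat 0, .ofNat 0, .ofNat 3328, .negSucc 4927, .negSucc 447], (.tr (.dx 3 (.tr (.lf 1) (.lf 7) (.lf 11))) (.lf 2) (.tw (.lf 17) (.lf 18))), 3, [0, 0, 10, 10], []⟩)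
    (.lf ⟨[.ofNat 0, .ofNat 0, .ofNat 0, .negSucc 1407, .ofNat 400], (.tr (.dx 3 (.tr (.tw (.lf 1) (.lf 2)) (.lf 7) (.lf 11))) (.lf 17) (.lf 18)), 3, [0, 0, 10, 10], []⟩))
    (.nd (.lf ⟨[.ofNat 0, .ofNat 0, .ofNat 704, .negSucc 199], (.tr (.lf 13) (.lf 14) (.tr (.lf 17) (.tr (.dx 0 .on) (.lf 11) (.tw (.lf 5) (.lf 6))) (.lf 18))), 0, [21, 21, 15, 15, 21, 21, 15, 15], [21, 21, 15, 15, 21, 21, 15, 15]⟩)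
    (.lf ⟨[.ofNat 0, .ofNat 0, .negSucc 3391, .ofNat 1072, .negSucc 1855], (.tr (.dx 3 (.tw (.lf 1) (.lf 17))) (.tr (.lf 7) (.lf 2) (.lf 11)) (.lf 18)), 3, [19, 17, 19, 17], [1015, 1015]⟩))))

/-- data -/
def dE5x2 : RT := (.nd (.nd (.nd (.lf ⟨[.ofNat 0, .ofNat 0, .negSucc 3327, .ofNat 5312, .negSucc 351], (.tr (.dx 3 (.tr (.lf 1) (.lf 2) (.lf 17))) (.tw (.lf 7) (.lf 11)) (.lf 18)), 3, [0, 2, 23, 21], []⟩)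
    (.lf ⟨[.ofNat 0, .ofNat 0, .negSucc 3327, .ofNat 5312, .negSucc 351], (.tr (.dx 3 (.tr (.lf 7) (.lf 11) (.lf 17))) (.tw (.lf 1) (.lf 2)) (.lf 18)), 3, [15, 15, 13, 13], []⟩))
    (.nd (.lf ⟨[.ofNat 0, .ofNat 0, .negSucc 2783, .negSucc 15647, .ofNat 1232], (.tr (.dx 3 (.tr (.lf 7) (.tw (.lf 1) (.lf 2)) (.lf 17))) (.lf 11) (.lf 18)), 3, [4, 4, 23, 23], []⟩)
    (.lf ⟨[.ofNat 0, .ofNat 0, .negSucc 383, .negSucc 10399, .ofNat 3088], (.tw (.dx 3 (.tr (.lf 1) (.lf 2) (.tr (.lf 7) (.lf 17) (.lf 11)))) (.lf 18)), 3, [0, 2, 8, 10], []⟩)))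
    (.nd (.nd (.lf ⟨[.ofNat 0, .ofNat 0, .negSucc 8127, .ofNat 272, .negSucc 1071], (.tr (.lf 13) (.tr (.lf 7) (.tr (.dx 0 .on) (.lf 14) (.lf 17)) (.lf 11)) (.lf 18)), 0, [4, 19, 6, 17], [4, 19, 6, 17]⟩)
    (.lf ⟨[.negSucc 13311, .ofNat 32128, .negSucc 12639, .negSucc 2191, .ofNat 1984], (.tr (.lf 11) (.dx 3 (.tr (.tw (.lf 1) (.lf 2)) (.lf 17) (.lf 7))) (.lf 18)), 3, [6, 6, 10, 10], []⟩))
    (.nd (.lf ⟨[.negSucc 13311, .ofNat 32128, .negSucc 10591, .ofNat 944, .ofNat 1160], (.tr (.lf 13) (.lf 17) (.tr (.lf 7) (.tr (.lf 14) (.dx 0 .on) (.lf 18)) (.lf 11))), 0, [19, 7, 17, 5], [19, 7, 17, 5]⟩)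
    (.lf ⟨[.negSucc 26623, .ofNat 64256, .negSucc 29375, .negSucc 13023, .ofNat 4992], (.tr (.tw (.dx 3 (.tr (.lf 1) (.lf 2) (.lf 17))) (.lf 7)) (.lf 18) (.lf 11)), 3, [23, 23, 4, 1015], []⟩))))

/-- data -/
def dE5x3 : RT := (.nd (.nd (.nd (.lf ⟨[.ofNat 0, .ofNat 0, .ofNat 0, .ofNat 1152, .negSucc 383], (.tr (.dx 3 (.tr (.lf 1) (.tw (.lf 7) (.lf 11)) (.lf 17))) (.lf 2) (.lf 18)), 3, [0, 2, 15, 13], []⟩)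
    (.lf ⟨[.ofNat 0, .ofNat 0, .negSucc 1791, .ofNat 1280, .negSucc 607], (.tw (.dx 3 (.tr (.lf 7) (.lf 11) (.tr (.lf 1) (.lf 17) (.lf 2)))) (.lf 18)), 3, [8, 8, 2, 2], []⟩))
    (.nd (.lf ⟨[.ofNat 0, .ofNat 0, .negSucc 3327, .ofNat 6976, .negSucc 1567], (.tr (.lf 14) (.tr (.tw (.lf 7) (.lf 11)) (.dx 0 (.lf 13)) (.lf 17)) (.lf 18)), 0, [8, 10, 23, 21], [8, 10, 23, 21]⟩)
    (.lf ⟨[.ofNat 0, .ofNat 0, .ofNat 4864, .negSucc 9727, .negSucc 1119], (.tr (.lf 14) (.lf 17) (.tr (.dx 0 (.lf 13)) (.tw (.lf 7) (.lf 11)) (.lf 18))), 0, [23, 21, 3, 1], [23, 21, 15, 13]⟩)))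
    (.nd (.nd (.lf ⟨[.ofNat 0, .ofNat 0, .negSucc 1791, .ofNat 128, .negSucc 223], (.tr (.lf 14) (.lf 17) (.tr (.tw (.lf 7) (.lf 11)) (.dx 0 (.lf 13)) (.lf 18))), 0, [15, 13, 11, 9], [15, 13, 23, 21]⟩)
    (.lf ⟨[.ofNat 0, .ofNat 0, .negSucc 3199, .ofNat 2112, .ofNat 2080], (.tr (.dx 0 (.lf 13)) (.tr (.tw (.lf 7) (.lf 11)) (.lf 17) (.lf 18)) (.lf 14)), 0, [0, 2, 0, 2], [12, 14, 12, 14]⟩))
    (.nd (.lf ⟨[.ofNat 0, .ofNat 0, .ofNat 0, .negSucc 1215], (.tr (.lf 19) (.lf 11) (.tr (.dx 0 (.lf 5)) (.tw (.lf 13) (.lf 14)) (.lf 6))), 0, [5, 5, 1, 1], [5, 5, 1, 1]⟩)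
    (.lf ⟨[.ofNat 0, .ofNat 0, .ofNat 0, .ofNat 2432], (.tr (.tw (.dx 0 (.tr (.lf 5) (.lf 13) (.lf 14))) (.lf 6)) (.lf 11) (.lf 19)), 0, [0, 0, 4, 4], []⟩))))

/-- data -/
def dE5x4 : RT := (.nd (.nd (.nd (.lf ⟨[.ofNat 0, .ofNat 0, .ofNat 3328, .negSucc 5311, .ofNat 352], (.tw (.dx 3 (.tr (.lf 7) (.tr (.lf 1) (.lf 2) (.lf 17)) (.lf 11))) (.lf 18)), 3, [4, 4, 6, 6], []⟩)
    (.lf ⟨[.ofNat 0, .ofNat 0, .ofNat 6656, .negSucc 10623, .ofNat 704], (.tr (.dx 3 (.tw (.lf 7) (.lf 17))) (.lf 1) (.tr (.lf 2) (.lf 11) (.lf 18))), 3, [19, 15, 19, 15], []⟩))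
    (.nd (.lf ⟨[.ofNat 0, .ofNat 0, .ofNat 6784, .negSucc 2143, .ofNat 3712], (.tr (.lf 17) (.lf 11) (.tr (.dx 0 (.tw (.lf 7) (.lf 13))) (.lf 18) (.lf 14))), 0, [18, 18, 1, 1], []⟩)
    (.lf ⟨[.ofNat 0, .ofNat 0, .ofNat 3328, .negSucc 5311, .ofNat 352], (.tw (.dx 0 (.tw (.lf 7) (.lf 13))) (.tr (.lf 17) (.tw (.lf 11) (.lf 14)) (.lf 18))), 0, [0, 0, 0, 0, 0, 0, 0, 0], []⟩)))
    (.nd (.nd (.lf ⟨[.ofNat 0, .ofNat 0, .ofNat 6656, .negSucc 10623, .ofNat 704], (.tr (.dx 3 (.tw (.lf 7) (.lf 17))) (.lf 1) (.tr (.lf 2) (.lf 18) (.lf 11))), 3, [19, 15, 19, 15], []⟩)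
    (.lf ⟨[.ofNat 0, .ofNat 0, .negSucc 6783, .ofNat 2144, .negSucc 3711], (.tr (.dx 0 (.tw (.lf 7) (.lf 13))) (.lf 17) (.tr (.lf 14) (.lf 11) (.lf 18))), 0, [0, 0, 0, 0], []⟩))
    (.nd (.lf ⟨[.ofNat 13312, .negSucc 32127, .ofNat 7968, .ofNat 6208, .ofNat 944], (.tr (.dx 3 (.tr (.lf 1) (.tw (.lf 17) (.lf 18)) (.lf 7))) (.lf 11) (.lf 2)), 3, [3, 3, 3, 3], []⟩)
    (.lf ⟨[.ofNat 0, .ofNat 0, .ofNat 128, .negSucc 2815, .ofNat 1632], (.tw (.dx 3 (.tr (.lf 7) (.tr (.lf 1) (.lf 17) (.lf 18)) (.lf 11))) (.lf 2)), 3, [3, 3, 1, 1], []⟩))))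

/-- data -/
def dE5x5 : RT := (.nd (.nd (.nd (.lf ⟨[.ofNat 0, .ofNat 0, .ofNat 1600, .ofNat 2256, .ofNat 32], (.tw (.lf 14) (.tr (.dx 0 (.tw (.lf 7) (.lf 13))) (.tw (.lf 17) (.lf 18)) (.lf 11))), 0, [19, 19, 19, 19, 1, 1, 1, 1], []⟩)
    (.lf ⟨[.ofNat 13312, .negSucc 32127, .ofNat 11168, .ofNat 8608, .negSucc 655], (.tr (.lf 1) (.tr (.lf 7) (.tr (.dx 3 .on) (.lf 2) (.lf 17)) (.lf 11)) (.lf 18)), 3, [0, 12, 2, 14], [0, 12, 2, 14]⟩))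
    (.nd (.lf ⟨[.ofNat 0, .ofNat 0, .negSucc 6655, .ofNat 11392, .negSucc 2303], (.tr (.dx 3 (.tw (.lf 7) (.lf 17))) (.tr (.lf 1) (.lf 2) (.lf 18)) (.lf 11)), 3, [19, 19, 19, 19], []⟩)
    (.lf ⟨[.ofNat 0, .ofNat 0, .ofNat 3328, .negSucc 5311, .ofNat 352], (.tr (.lf 7) (.tr (.dx 0 .on) (.tr (.lf 17) (.lf 13) (.lf 18)) (.lf 11)) (.lf 14)), 0, [16, 16, 20, 20], [16, 16, 20, 20]⟩)))
    (.nd (.nd (.lf ⟨[.ofNat 0, .ofNat 0, .negSucc 3327, .ofNat 5312, .negSucc 351], (.tr (.lf 13) (.dx 0 .on) (.tr (.lf 7) (.lf 11) (.tr (.lf 17) (.lf 14) (.lf 18)))), 0, [0, 0, 21, 21], [0, 0, 21, 21]⟩)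
    (.lf ⟨[.ofNat 0, .ofNat 0, .ofNat 0, .negSucc 383, .ofNat 800], (.tw (.lf 11) (.tr (.dx 3 (.tw (.lf 7) (.lf 17))) (.lf 18) (.tw (.lf 1) (.lf 2)))), 3, [13, 13, 13, 13, 18, 18, 18, 18], []⟩))
    (.nd (.lf ⟨[.ofNat 0, .ofNat 0, .ofNat 6784, .negSucc 2143, .ofNat 3712], (.tw (.dx 3 (.tr (.lf 1) (.lf 7) (.tr (.lf 11) (.lf 2) (.lf 17)))) (.lf 18)), 3, [0, 0, 6, 1015], []⟩)
    (.lf ⟨[.ofNat 0, .ofNat 0, .ofNat 6784, .negSucc 2143, .ofNat 3712], (.tr (.dx 3 (.tr (.lf 1) (.lf 7) (.lf 17))) (.tw (.lf 2) (.lf 11)) (.lf 18)), 3, [0, 1015, 19, 15], []⟩))))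

/-- data -/
def dE5x6 : RT := (.nd (.nd (.nd (.lf ⟨[.ofNat 0, .ofNat 0, .ofNat 6784, .negSucc 3679, .ofNat 6912], (.tr (.lf 14) (.tw (.dx 0 (.tr (.lf 7) (.lf 13) (.lf 17))) (.lf 11)) (.lf 18)), 0, [0, 19, 6, 13], []⟩)
    (.lf ⟨[.ofNat 0, .ofNat 0, .negSucc 6783, .negSucc 3487, .negSucc 2111], (.tr (.dx 3 (.tw (.lf 1) (.lf 7))) (.lf 17) (.tr (.lf 2) (.lf 11) (.lf 18))), 3, [0, 15, 1015, 15], []⟩))
    (.nd (.lf ⟨[.ofNat 0, .ofNat 0, .ofNat 0, .negSucc 5631, .ofNat 1600], (.tr (.dx 3 (.tw (.lf 1) (.lf 7))) (.tr (.lf 2) (.lf 11) (.lf 17)) (.lf 18)), 3, [0, 1015, 4, 15], []⟩)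
    (.lf ⟨[.ofNat 0, .ofNat 0, .ofNat 1536, .ofNat 19104, .ofNat 624], (.tr (.lf 17) (.lf 11) (.tr (.dx 3 (.tw (.lf 1) (.lf 7))) (.lf 18) (.lf 2))), 3, [13, 13, 1015, 1], []⟩)))
    (.nd (.nd (.lf ⟨[.ofNat 0, .ofNat 0, .negSucc 4127, .ofNat 3232, .negSucc 2023], (.tr (.dx 0 (.tw (.lf 13) (.lf 17))) (.tr (.lf 7) (.lf 18) (.lf 11)) (.lf 14)), 0, [0, 2, 12, 14], [12, 14]⟩)
    (.lf ⟨[.ofNat 0, .ofNat 0, .ofNat 1728, .ofNat 6928, .ofNat 96], (.tw (.lf 2) (.tr (.dx 3 (.tw (.lf 1) (.lf 7))) (.tw (.lf 17) (.lf 18)) (.lf 11))), 3, [0, 0, 0, 0, 14, 14, 14, 14], []⟩))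
    (.nd (.lf ⟨[.ofNat 0, .ofNat 0, .negSucc 3455, .negSucc 13855, .negSucc 191], (.tr (.lf 2) (.tr (.dx 3 (.tw (.lf 1) (.lf 7))) (.lf 17) (.lf 18)) (.lf 11)), 3, [0, 0, 11, 7], []⟩)
    (.lf ⟨[.ofNat 0, .ofNat 0, .ofNat 9120, .negSucc 2151, .ofNat 880], (.tr (.lf 2) (.dx 3 (.tr (.lf 7) (.lf 1) (.tw (.lf 17) (.lf 18)))) (.lf 11)), 3, [0, 0, 11, 11], []⟩))))

/-- data -/
def dE5x7 : RT := (.nd (.nd (.nd (.lf ⟨[.ofNat 0, .ofNat 0, .negSucc 1663, .negSucc 2687, .ofNat 1408], (.tw (.dx 3 (.tr (.lf 1) (.tr (.lf 7) (.lf 17) (.lf 18)) (.lf 2))) (.lf 11)), 3, [7, 7, 7, 7], []⟩)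
    (.lf ⟨[.ofNat 0, .ofNat 0, .ofNat 1600, .ofNat 2256, .ofNat 32], (.tr (.lf 17) (.lf 1) (.tr (.lf 7) (.tr (.dx 3 .on) (.lf 2) (.lf 18)) (.lf 11))), 3, [19, 7, 17, 5], [19, 7, 17, 5]⟩))
    (.nd (.lf ⟨[.ofNat 0, .ofNat 0, .ofNat 0, .negSucc 383, .ofNat 800], (.tw (.dx 3 (.tr (.lf 17) (.tr (.lf 1) (.lf 2) (.lf 7)) (.lf 18))) (.lf 11)), 3, [11, 7, 11, 7], []⟩)
    (.lf ⟨[.ofNat 0, .ofNat 0, .negSucc 1663, .ofNat 5952, .negSucc 2559], (.tr (.lf 17) (.lf 13) (.tr (.lf 7) (.tr (.dx 0 .on) (.lf 14) (.lf 18)) (.lf 11))), 0, [19, 7, 17, 5], [19, 7, 17, 5]⟩)))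
    (.nd (.nd (.lf ⟨[.ofNat 0, .ofNat 0, .negSucc 3327, .ofNat 11136, .negSucc 3519], (.tr (.lf 7) (.lf 13) (.tr (.lf 17) (.dx 0 .on) (.tr (.lf 11) (.lf 18) (.lf 14)))), 0, [4, 1015, 8, 8], [4, 1015, 8, 8]⟩)
    (.lf ⟨[.ofNat 0, .ofNat 0, .negSucc 1663, .ofNat 5184, .negSucc 959], (.tr (.lf 13) (.dx 0 .on) (.tr (.lf 7) (.tr (.lf 14) (.lf 17) (.lf 18)) (.lf 11))), 0, [23, 11, 21, 9], [23, 11, 21, 9]⟩))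
    (.nd (.lf ⟨[.negSucc 26623, .ofNat 64256, .negSucc 15423, .negSucc 12799, .negSucc 895, .negSucc 127], (.tr (.lf 7) (.lf 13) (.tr (.lf 11) (.lf 17) (.tr (.lf 14) (.dx 0 .on) (.lf 18)))), 0, [8, 8, 1015, 1015], [8, 8, 1015, 1015]⟩)
    (.lf ⟨[.ofNat 13312, .negSucc 40959, .negSucc 1183, .ofNat 5600, .negSucc 2303], (.tr (.lf 13) (.dx 0 .on) (.tr (.lf 17) (.lf 18) (.tr (.lf 7) (.lf 14) (.lf 11)))), 0, [11, 9, 0, 2], [11, 9, 0, 2]⟩))))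

/-- data -/
def dE5x8 : RT := (.nd (.nd (.nd (.lf ⟨[.ofNat 13312, .negSucc 40959, .negSucc 1183, .negSucc 351, .ofNat 880], (.tr (.lf 17) (.lf 1) (.tr (.dx 3 .on) (.tr (.lf 7) (.lf 18) (.lf 11)) (.lf 2))), 3, [15, 13, 12, 14], [15, 13, 12, 14]⟩)
    (.lf ⟨[.ofNat 0, .ofNat 0, .ofNat 0, .negSucc 2815, .ofNat 800], (.tw (.dx 3 (.tr (.lf 17) (.tr (.lf 1) (.lf 7) (.lf 11)) (.lf 18))) (.lf 2)), 3, [3, 1, 3, 1], []⟩))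
    (.nd (.lf ⟨[.ofNat 0, .ofNat 0, .negSucc 1663, .ofNat 7616, .negSucc 959], (.tw (.dx 3 (.tw (.lf 17) (.tr (.lf 1) (.tw (.lf 7) (.lf 11)) (.lf 18)))) (.lf 2)), 3, [3, 1, 3, 1, 3, 1, 3, 1], []⟩)
    (.lf ⟨[.ofNat 0, .ofNat 0, .negSucc 1663, .ofNat 1280, .ofNat 224], (.tw (.dx 3 (.tw (.lf 17) (.tr (.tw (.lf 7) (.lf 11)) (.lf 1) (.lf 18)))) (.lf 2)), 3, [3, 1, 3, 1, 3, 1, 3, 1], []⟩)))
    (.nd (.nd (.lf ⟨[.ofNat 0, .ofNat 0, .negSucc 4063, .ofNat 480], (.tr (.lf 5) (.tr (.lf 13) (.tr (.dx 0 .on) (.lf 6) (.tw (.lf 17) (.lf 18))) (.lf 14)) (.lf 11)), 0, [4, 4, 7, 7, 4, 4, 7, 7], [4, 4, 7, 7, 4, 4, 7, 7]⟩)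
    (.lf ⟨[.ofNat 0, .ofNat 0, .ofNat 1664, .negSucc 127, .negSucc 607], (.tr (.lf 13) (.lf 11) (.tr (.dx 0 (.lf 5)) (.lf 6) (.tr (.lf 17) (.lf 14) (.lf 18)))), 0, [6, 6, 13, 13], [6, 6, 13, 13]⟩))
    (.nd (.lf ⟨[.ofNat 0, .ofNat 0, .ofNat 608], (.tr (.dx 0 (.tw (.lf 5) (.lf 6))) (.tr (.lf 11) (.tw (.lf 17) (.lf 18)) (.lf 13)) (.lf 14)), 0, [12, 12, 0, 0, 12, 12, 0, 0], []⟩)
    (.lf ⟨[.ofNat 0, .ofNat 0, .negSucc 607], (.tr (.dx 0 (.tw (.lf 5) (.lf 6))) (.lf 13) (.tr (.lf 14) (.lf 11) (.tw (.lf 17) (.lf 18)))), 0, [0, 0, 0, 0, 0, 0, 0, 0], []⟩))))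

/-- data -/
def dE5x9 : RT := (.nd (.nd (.nd (.lf ⟨[.ofNat 0, .ofNat 0, .negSucc 607], (.tr (.lf 13) (.lf 14) (.tr (.dx 0 (.tw (.lf 5) (.lf 6))) (.lf 11) (.tw (.lf 17) (.lf 18)))), 0, [0, 0, 0, 0, 13, 13, 13, 13], []⟩)
    (.lf ⟨[.ofNat 0, .ofNat 0, .negSucc 1215], (.tr (.lf 13) (.lf 14) (.tr (.dx 0 (.tw (.lf 5) (.lf 6))) (.tw (.lf 17) (.lf 18)) (.lf 11))), 0, [19, 19, 19, 19, 13, 13, 13, 13], []⟩))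
    (.nd (.lf ⟨[.ofNat 0, .ofNat 0, .negSucc 191, .ofNat 400], (.tr (.lf 13) (.lf 14) (.tr (.lf 17) (.tw (.dx 0 (.tw (.lf 5) (.lf 6))) (.lf 11)) (.lf 18))), 0, [19, 19, 13, 13, 19, 19, 13, 13], []⟩)
    (.lf ⟨[.ofNat 0, .ofNat 0, .negSucc 1215], (.tw (.lf 13) (.tr (.dx 0 (.tw (.lf 5) (.lf 6))) (.lf 11) (.tr (.lf 17) (.lf 14) (.lf 18)))), 0, [0, 0, 0, 0, 13, 13, 13, 13], []⟩)))
    (.nd (.nd (.lf ⟨[.ofNat 0, .ofNat 0, .ofNat 3648], (.tw (.lf 13) (.tr (.lf 17) (.tr (.dx 0 (.tw (.lf 5) (.lf 6))) (.lf 11) (.lf 14)) (.lf 18))), 0, [0, 0, 13, 13, 0, 0, 13, 13], []⟩)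
    (.lf ⟨[.ofNat 0, .ofNat 0, .negSucc 2239, .ofNat 2064], (.tr (.lf 13) (.dx 0 (.lf 11)) (.tr (.lf 5) (.lf 14) (.tr (.lf 17) (.lf 6) (.lf 18)))), 0, [2, 2, 5, 5], []⟩))
    (.nd (.lf ⟨[.ofNat 0, .ofNat 0, .negSucc 4863], (.tr (.dx 0 (.lf 11)) (.lf 13) (.tr (.lf 14) (.lf 5) (.tr (.lf 17) (.lf 6) (.lf 18)))), 0, [2, 2, 2, 2], []⟩)
    (.lf ⟨[.ofNat 0, .ofNat 0, .negSucc 2239, .ofNat 2064], (.tr (.lf 13) (.lf 5) (.tr (.dx 0 (.lf 11)) (.lf 14) (.tr (.lf 17) (.lf 6) (.lf 18)))), 0, [4, 4, 3, 3], []⟩))))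

/-- data -/
def dE5x10 : RT := (.nd (.nd (.nd (.lf ⟨[.ofNat 0, .ofNat 0, .ofNat 2240, .negSucc 2063], (.tr (.lf 13) (.tr (.lf 5) (.tr (.dx 0 (.lf 11)) (.lf 14) (.lf 17)) (.lf 6)) (.lf 18)), 0, [4, 17, 4, 17], []⟩)
    (.lf ⟨[.ofNat 0, .ofNat 0, .ofNat 1856, .negSucc 911], (.tr (.lf 13) (.dx 0 (.lf 11)) (.tw (.lf 17) (.tr (.lf 5) (.tw (.lf 14) (.lf 18)) (.lf 6)))), 0, [17, 5, 17, 5, 2, 2, 2, 2], []⟩))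
    (.nd (.lf ⟨[.ofNat 0, .ofNat 0, .ofNat 2240, .negSucc 2063], (.tr (.lf 5) (.lf 13) (.tr (.lf 17) (.tr (.dx 0 (.lf 11)) (.lf 14) (.lf 6)) (.lf 18))), 0, [4, 4, 4, 4], []⟩)
    (.lf ⟨[.ofNat 0, .ofNat 0, .negSucc 2815, .ofNat 800], (.tr (.lf 13) (.lf 14) (.tr (.lf 17) (.tr (.dx 0 (.lf 11)) (.lf 5) (.lf 6)) (.lf 18))), 0, [17, 15, 17, 15], []⟩)))
    (.nd (.nd (.lf ⟨[.ofNat 0, .ofNat 0, .ofNat 2432], (.tr (.lf 13) (.lf 14) (.tw (.lf 17) (.tr (.dx 0 (.lf 11)) (.tw (.lf 5) (.lf 6)) (.lf 18)))), 0, [17, 17, 15, 15, 17, 17, 15, 15], []⟩)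
    (.lf ⟨[.ofNat 0, .ofNat 0, .ofNat 1216], (.tr (.lf 13) (.tw (.lf 17) (.tr (.dx 0 (.lf 11)) (.tw (.lf 5) (.lf 6)) (.lf 18))) (.lf 14)), 0, [5, 5, 3, 3, 2, 2, 4, 4], []⟩))
    (.nd (.lf ⟨[.ofNat 0, .ofNat 0, .ofNat 8576, .negSucc 2527], (.tr (.lf 13) (.tr (.dx 0 (.lf 11)) (.tr (.lf 5) (.lf 14) (.lf 17)) (.lf 6)) (.lf 18)), 0, [2, 17, 4, 15], []⟩)
    (.lf ⟨[.ofNat 0, .ofNat 0, .ofNat 4096, .ofNat 1600], (.tr (.lf 13) (.tr (.lf 5) (.lf 6) (.tr (.dx 0 (.lf 11)) (.lf 14) (.lf 17))) (.lf 18)), 0, [4, 4, 17, 17], []⟩))))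

/-- data -/
def dE5x11 : RT := (.nd (.nd (.nd (.lf ⟨[.ofNat 0, .ofNat 0, .negSucc 2431], (.tr (.lf 13) (.lf 17) (.tw (.lf 14) (.tr (.dx 0 (.lf 11)) (.tw (.lf 5) (.lf 6)) (.lf 18)))), 0, [17, 17, 15, 15, 5, 5, 3, 3], []⟩)
    (.lf ⟨[.ofNat 0, .ofNat 0, .ofNat 2432], (.tr (.lf 13) (.tw (.lf 14) (.tr (.tw (.lf 5) (.lf 6)) (.dx 0 (.lf 11)) (.lf 17))) (.lf 18)), 0, [4, 4, 17, 17, 4, 4, 17, 17], []⟩))
    (.nd (.lf ⟨[.ofNat 0, .ofNat 0, .ofNat 2432], (.tw (.dx 3 (.tr (.lf 1) (.tr (.tw (.lf 5) (.lf 6)) (.lf 2) (.lf 11)) (.lf 17))) (.lf 18)), 3, [0, 0, 2, 2, 4, 4, 13, 13], []⟩)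
    (.lf ⟨[.ofNat 0, .ofNat 0, .ofNat 2816, .negSucc 799], (.tr (.dx 3 (.lf 17)) (.tr (.lf 1) (.lf 2) (.tr (.lf 5) (.lf 11) (.lf 6))) (.lf 18)), 3, [21, 21, 13, 13], [0, 0, 13, 13]⟩)))
    (.nd (.nd (.lf ⟨[.ofNat 0, .ofNat 0, .negSucc 1007, .negSucc 1279, .negSucc 15], (.tr (.lf 13) (.tr (.lf 6) (.dx 0 (.tw (.lf 5) (.lf 11))) (.tw (.lf 17) (.lf 18))) (.lf 14)), 0, [4, 4, 4, 4, 5, 5, 5, 5], []⟩)
    (.lf ⟨[.ofNat 0, .ofNat 0, .ofNat 2016, .ofNat 2560, .ofNat 32], (.tr (.lf 13) (.lf 6) (.tr (.dx 0 (.tw (.lf 5) (.lf 11))) (.tw (.lf 17) (.lf 18)) (.lf 14))), 0, [4, 4, 4, 4, 15, 13, 15, 13], []⟩))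
    (.nd (.lf ⟨[.ofNat 0, .ofNat 0, .ofNat 3584, .ofNat 2816, .ofNat 64], (.tr (.dx 0 (.tr (.lf 5) (.lf 13) (.lf 6))) (.lf 11) (.tr (.lf 14) (.lf 17) (.lf 18))), 0, [0, 0, 0, 0], []⟩)
    (.lf ⟨[.ofNat 0, .ofNat 0, .ofNat 7104, .negSucc 2063], (.tr (.dx 0 (.tr (.lf 5) (.lf 13) (.lf 6))) (.tr (.lf 11) (.lf 14) (.lf 17)) (.lf 18)), 0, [0, 0, 0, 0], []⟩))))

/-- data -/
def dE5x12 : RT := (.nd (.nd (.nd (.lf ⟨[.ofNat 0, .ofNat 0, .negSucc 5343, .negSucc 375, .negSucc 31], (.tw (.dx 0 (.tr (.lf 5) (.lf 13) (.lf 6))) (.tr (.lf 11) (.lf 14) (.tw (.lf 17) (.lf 18)))), 0, [0, 0, 0, 0, 0, 0, 0, 0], []⟩)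
    (.lf ⟨[.ofNat 0, .ofNat 0, .ofNat 5344, .ofNat 376, .ofNat 32], (.tw (.lf 11) (.tr (.dx 0 (.tr (.lf 5) (.lf 13) (.lf 6))) (.tw (.lf 17) (.lf 18)) (.lf 14))), 0, [6, 6, 6, 6, 1, 1, 1, 1], []⟩))
    (.nd (.lf ⟨[.ofNat 0, .ofNat 0, .negSucc 10687, .negSucc 751, .negSucc 63], (.tr (.lf 14) (.lf 17) (.tr (.lf 11) (.dx 0 (.tr (.lf 5) (.lf 13) (.lf 6))) (.lf 18))), 0, [13, 13, 7, 7], []⟩)
    (.lf ⟨[.ofNat 0, .ofNat 0, .ofNat 1216, .ofNat 704], (.tr (.lf 14) (.lf 11) (.tr (.lf 17) (.dx 0 (.tr (.lf 5) (.lf 6) (.lf 13))) (.lf 18))), 0, [13, 13, 13, 13], []⟩)))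
    (.nd (.nd (.lf ⟨[.ofNat 0, .ofNat 0, .ofNat 2240, .ofNat 488], (.tw (.lf 14) (.tr (.lf 5) (.tr (.lf 17) (.dx 0 (.tw (.lf 11) (.lf 13))) (.lf 18)) (.lf 6))), 0, [17, 17, 17, 17, 17, 17, 17, 17], []⟩)
    (.lf ⟨[.ofNat 0, .ofNat 0, .negSucc 2239, .ofNat 2064], (.tw (.dx 0 (.tr (.lf 13) (.tr (.lf 5) (.lf 11) (.tw (.lf 6) (.lf 17))) (.lf 14))) (.lf 18)), 0, [0, 0, 0, 0, 0, 0, 0, 0], []⟩))
    (.nd (.lf ⟨[.ofNat 0, .ofNat 0, .ofNat 1216], (.tr (.dx 0 (.tr (.lf 11) (.lf 5) (.lf 13))) (.lf 14) (.tr (.lf 17) (.lf 6) (.lf 18))), 0, [2, 2, 0, 0], []⟩)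
    (.lf ⟨[.ofNat 0, .negSucc 6655, .ofNat 18816, .ofNat 2592, .negSucc 319], (.tr (.lf 14) (.dx 0 (.tr (.lf 5) (.lf 13) (.lf 11))) (.tr (.lf 17) (.lf 6) (.lf 18))), 0, [0, 0, 2, 2], []⟩))))

/-- data -/
def dE5x13 : RT := (.nd (.nd (.nd (.lf ⟨[.ofNat 0, .ofNat 0, .ofNat 384, .negSucc 1151], (.tr (.lf 6) (.lf 14) (.tr (.lf 17) (.dx 0 (.tr (.lf 5) (.lf 11) (.lf 13))) (.lf 18))), 0, [4, 4, 4, 4], []⟩)
    (.lf ⟨[.ofNat 0, .ofNat 0, .negSucc 1215, .negSucc 175], (.tr (.lf 6) (.lf 14) (.tr (.lf 17) (.dx 0 (.tr (.lf 11) (.lf 5) (.lf 13))) (.lf 18))), 0, [4, 4, 4, 4], []⟩))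
    (.nd (.lf ⟨[.ofNat 0, .ofNat 0, .negSucc 6719, .ofNat 560], (.tr (.lf 14) (.lf 6) (.tr (.lf 17) (.dx 0 (.tr (.lf 5) (.lf 13) (.lf 11))) (.lf 18))), 0, [15, 13, 15, 13], []⟩)
    (.lf ⟨[.ofNat 0, .ofNat 0, .negSucc 607], (.tr (.dx 0 (.tr (.tw (.lf 5) (.lf 6)) (.lf 13) (.lf 11))) (.tw (.lf 17) (.lf 18)) (.lf 14)), 0, [0, 0, 0, 0, 2, 2, 2, 2], []⟩)))
    (.nd (.nd (.lf ⟨[.ofNat 0, .ofNat 0, .ofNat 1216], (.tr (.dx 0 (.tr (.tw (.lf 5) (.lf 6)) (.lf 13) (.lf 11))) (.lf 17) (.tw (.lf 14) (.lf 18))), 0, [0, 0, 0, 0, 2, 2, 2, 2], []⟩)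
    (.lf ⟨[.ofNat 0, .ofNat 0, .ofNat 1792, .ofNat 1408, .ofNat 32], (.tr (.lf 14) (.dx 0 (.tr (.lf 5) (.tw (.lf 11) (.lf 13)) (.lf 6))) (.tw (.lf 17) (.lf 18))), 0, [0, 0, 0, 0, 0, 0, 0, 0], []⟩))
    (.nd (.lf ⟨[.ofNat 0, .ofNat 0, .negSucc 2911, .negSucc 2331, .negSucc 47], (.tr (.lf 5) (.dx 0 (.tw (.lf 13) (.lf 14))) (.tr (.lf 17) (.tw (.lf 6) (.lf 11)) (.lf 18))), 0, [4, 4, 4, 4, 4, 4, 4, 4], []⟩)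
    (.lf ⟨[.ofNat 0, .ofNat 0, .negSucc 415, .negSucc 927], (.tr (.dx 0 (.tr (.lf 13) (.lf 5) (.lf 14))) (.tr (.lf 11) (.lf 17) (.lf 18)) (.lf 6)), 0, [0, 21, 0, 21], []⟩))))

/-- data -/
def dE5x14 : RT := (.nd (.nd (.nd (.lf ⟨[.ofNat 0, .ofNat 0, .ofNat 224, .ofNat 1856], (.tr (.dx 0 (.tr (.lf 13) (.lf 5) (.lf 14))) (.lf 11) (.tr (.lf 6) (.lf 17) (.lf 18))), 0, [0, 0, 0, 0], []⟩)
    (.lf ⟨[.ofNat 0, .ofNat 0, .negSucc 831, .negSucc 1855], (.tr (.dx 0 (.tr (.lf 13) (.lf 5) (.lf 14))) (.tr (.lf 11) (.lf 6) (.lf 17)) (.lf 18)), 0, [0, 0, 0, 0], []⟩))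
    (.nd (.lf ⟨[.ofNat 0, .ofNat 0, .ofNat 608], (.tr (.lf 6) (.lf 11) (.tr (.dx 0 (.tr (.lf 13) (.lf 5) (.lf 14))) (.lf 17) (.lf 18))), 0, [8, 8, 20, 20], []⟩)
    (.lf ⟨[.ofNat 0, .ofNat 0, .ofNat 1216, .negSucc 703], (.tr (.lf 17) (.lf 18) (.tr (.dx 0 (.tr (.lf 11) (.lf 5) (.lf 13))) (.lf 14) (.lf 6))), 0, [5, 5, 1, 3], []⟩)))
    (.nd (.nd (.lf ⟨[.ofNat 0, .ofNat 0, .ofNat 416, .ofNat 928], (.tw (.dx 0 (.tr (.lf 13) (.lf 5) (.lf 14))) (.tr (.lf 17) (.tw (.lf 6) (.lf 11)) (.lf 18))), 0, [0, 0, 0, 0, 0, 0, 0, 0], []⟩)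
    (.lf ⟨[.ofNat 0, .ofNat 0, .ofNat 384, .negSucc 1855], (.tr (.lf 17) (.lf 6) (.tr (.dx 0 (.tr (.lf 13) (.lf 5) (.lf 14))) (.lf 18) (.lf 11))), 0, [19, 19, 1, 1], []⟩))
    (.nd (.lf ⟨[.ofNat 0, .ofNat 0, .negSucc 191, .ofNat 928], (.tw (.lf 11) (.tr (.lf 17) (.tw (.dx 0 (.tr (.lf 13) (.lf 5) (.lf 14))) (.lf 6)) (.lf 18))), 0, [18, 18, 22, 22, 18, 18, 22, 22], []⟩)
    (.lf ⟨[.ofNat 0, .ofNat 0, .ofNat 384, .negSucc 1855], (.tr (.lf 17) (.dx 0 (.tr (.lf 13) (.lf 5) (.lf 14))) (.tr (.lf 6) (.lf 18) (.lf 11))), 0, [23, 21, 23, 21], []⟩))))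

/-- data -/
def dE5x15 : RT := (.nd (.nd (.nd (.lf ⟨[.ofNat 0, .ofNat 0, .ofNat 384, .negSucc 1855], (.tr (.dx 0 (.tr (.lf 17) (.lf 5) (.tr (.lf 11) (.lf 13) (.lf 14)))) (.lf 18) (.lf 6)), 0, [12, 17, 2, 17], []⟩)
    (.lf ⟨[.ofNat 0, .ofNat 0, .negSucc 2431, .ofNat 704], (.tr (.dx 0 (.tr (.lf 11) (.lf 5) (.lf 13))) (.tr (.lf 14) (.lf 6) (.lf 17)) (.lf 18)), 0, [2, 2, 0, 0], []⟩))
    (.nd (.lf ⟨[.ofNat 0, .ofNat 0, .ofNat 2432, .ofNat 352], (.tr (.lf 6) (.tr (.lf 14) (.dx 0 (.tr (.lf 11) (.lf 5) (.lf 13))) (.lf 17)) (.lf 18)), 0, [4, 4, 16, 16], []⟩)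
    (.lf ⟨[.ofNat 0, .ofNat 0, .negSucc 1215, .negSucc 175], (.tr (.lf 17) (.dx 3 (.tr (.lf 1) (.lf 11) (.lf 5))) (.tr (.lf 2) (.lf 18) (.lf 6))), 3, [17, 13, 17, 13], []⟩)))
    (.nd (.nd (.lf ⟨[.ofNat 0, .ofNat 0, .ofNat 1216, .ofNat 176], (.tr (.dx 0 (.tr (.lf 11) (.tr (.lf 5) (.lf 13) (.lf 6)) (.lf 17))) (.lf 14) (.lf 18)), 0, [2, 2, 12, 12], []⟩)
    (.lf ⟨[.ofNat 0, .ofNat 0, .ofNat 1216, .negSucc 351], (.tw (.dx 0 (.tr (.lf 11) (.lf 5) (.lf 13))) (.tr (.lf 17) (.tw (.lf 6) (.lf 14)) (.lf 18))), 0, [2, 2, 2, 2, 0, 0, 0, 0], []⟩))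
    (.nd (.lf ⟨[.ofNat 0, .ofNat 0, .negSucc 1215, .ofNat 176], (.tw (.lf 6) (.tr (.lf 14) (.dx 0 (.tr (.lf 11) (.lf 5) (.lf 13))) (.tw (.lf 17) (.lf 18)))), 0, [4, 4, 4, 4, 16, 16, 16, 16], []⟩)
    (.lf ⟨[.ofNat 0, .ofNat 0, .ofNat 608, .negSucc 87], (.tw (.dx 3 (.tr (.lf 1) (.lf 11) (.lf 5))) (.tr (.lf 2) (.tw (.lf 17) (.lf 18)) (.lf 6))), 3, [17, 17, 13, 13, 17, 17, 13, 13], []⟩))))

/-- data -/
def dE5x16 : RT := (.nd (.nd (.nd (.lf ⟨[.ofNat 0, .ofNat 0, .ofNat 2432, .ofNat 352], (.tr (.lf 6) (.lf 17) (.tr (.lf 14) (.dx 0 (.tr (.lf 11) (.lf 5) (.lf 13))) (.lf 18))), 0, [16, 16, 16, 16], []⟩)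
    (.lf ⟨[.ofNat 0, .ofNat 0, .negSucc 2431, .negSucc 351], (.tr (.lf 2) (.lf 17) (.tr (.dx 3 (.tr (.lf 1) (.lf 11) (.lf 5))) (.lf 6) (.lf 18))), 3, [14, 12, 12, 12], []⟩))
    (.nd (.lf ⟨[.ofNat 0, .ofNat 0, .negSucc 2431], (.tr (.lf 17) (.dx 0 (.tr (.lf 11) (.lf 13) (.lf 14))) (.tr (.lf 5) (.lf 18) (.lf 6))), 0, [17, 17, 17, 17], []⟩)
    (.lf ⟨[.ofNat 0, .ofNat 0, .negSucc 2815, .ofNat 800], (.tr (.lf 5) (.lf 6) (.tr (.lf 17) (.dx 0 (.tr (.lf 11) (.lf 13) (.lf 14))) (.lf 18))), 0, [16, 16, 16, 16], []⟩)))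
    (.nd (.nd (.lf ⟨[.ofNat 0, .ofNat 0, .negSucc 1375, .negSucc 831, .negSucc 31], (.tw (.dx 0 (.tr (.lf 11) (.lf 13) (.lf 14))) (.tr (.lf 17) (.tw (.lf 5) (.lf 6)) (.lf 18))), 0, [2, 2, 2, 2, 2, 2, 2, 2], []⟩)
    (.lf ⟨[.ofNat 0, .ofNat 0, .negSucc 1407, .ofNat 576], (.tr (.dx 3 (.tw (.lf 1) (.lf 2))) (.lf 5) (.tr (.lf 6) (.lf 11) (.tw (.lf 17) (.lf 18)))), 3, [0, 0, 21, 21, 0, 0, 21, 21], []⟩))
    (.nd (.lf ⟨[.ofNat 0, .ofNat 0, .negSucc 1407, .ofNat 576], (.tr (.dx 3 (.tw (.lf 1) (.lf 2))) (.tr (.lf 5) (.lf 11) (.tw (.lf 17) (.lf 18))) (.lf 6)), 3, [21, 21, 21, 21, 21, 21, 21, 21], []⟩)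
    (.lf ⟨[.ofNat 0, .ofNat 0, .ofNat 192, .negSucc 575], (.tr (.dx 3 (.tw (.lf 1) (.lf 2))) (.lf 17) (.tr (.tw (.lf 5) (.lf 6)) (.lf 11) (.lf 18))), 3, [0, 0, 21, 21, 0, 0, 21, 21], []⟩))))

/-- data -/
def dE5x17 : RT := (.nd (.nd (.nd (.lf ⟨[.ofNat 0, .ofNat 0, .ofNat 0, .ofNat 176], (.tr (.dx 3 (.tw (.lf 1) (.lf 2))) (.tr (.tw (.lf 5) (.lf 6)) (.lf 11) (.lf 17)) (.lf 18)), 3, [0, 0, 21, 21, 0, 0, 21, 21], []⟩)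
    (.lf ⟨[.ofNat 0, .ofNat 0, .negSucc 799, .negSucc 1111], (.tr (.lf 17) (.lf 18) (.tr (.dx 3 (.tw (.lf 1) (.lf 2))) (.tw (.lf 5) (.lf 6)) (.lf 11))), 3, [11, 11, 11, 11, 1, 1, 1, 1], []⟩))
    (.nd (.lf ⟨[.ofNat 0, .ofNat 0, .ofNat 800, .ofNat 1112], (.tr (.lf 11) (.tr (.tw (.lf 5) (.lf 6)) (.dx 3 (.tw (.lf 1) (.lf 2))) (.lf 17)) (.lf 18)), 3, [10, 10, 10, 10, 18, 18, 18, 18], []⟩)
    (.lf ⟨[.ofNat 0, .ofNat 0, .negSucc 799, .negSucc 1111], (.tw (.lf 11) (.tr (.lf 17) (.tr (.dx 3 (.tw (.lf 1) (.lf 2))) (.lf 5) (.lf 6)) (.lf 18))), 3, [18, 18, 22, 22, 18, 18, 22, 22], []⟩)))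
    (.nd (.nd (.lf ⟨[.ofNat 0, .ofNat 0, .negSucc 2207, .negSucc 359], (.tr (.lf 13) (.tr (.lf 14) (.lf 11) (.tr (.dx 0 .on) (.lf 17) (.tw (.lf 5) (.lf 6)))) (.lf 18)), 0, [17, 17, 13, 13, 0, 0, 4, 4], [17, 17, 13, 13, 0, 0, 4, 4]⟩)
    (.lf ⟨[.ofNat 0, .ofNat 0, .ofNat 192, .negSucc 47], (.tr (.dx 3 (.tr (.tw (.lf 1) (.lf 2)) (.lf 11) (.lf 17))) (.tw (.lf 5) (.lf 6)) (.lf 18)), 3, [2, 2, 2, 2, 17, 17, 17, 17], []⟩))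
    (.nd (.lf ⟨[.ofNat 0, .ofNat 0, .negSucc 6655, .ofNat 6208, .negSucc 1423], (.tr (.lf 13) (.tr (.lf 14) (.lf 7) (.tr (.dx 0 .on) (.lf 17) (.lf 11))) (.lf 18)), 0, [19, 15, 2, 6], [19, 15, 2, 6]⟩)
    (.lf ⟨[.ofNat 0, .ofNat 0, .ofNat 3968, .ofNat 7232, .ofNat 128], (.tr (.dx 0 (.tr (.lf 11) (.lf 13) (.lf 14))) (.lf 17) (.tr (.lf 5) (.lf 6) (.lf 18))), 0, [2, 17, 2, 17], []⟩))))

/-- data -/
def dE5x18 : RT := (.nd (.nd (.nd (.lf ⟨[.ofNat 0, .ofNat 0, .negSucc 4095, .negSucc 1599], (.tr (.lf 17) (.lf 5) (.tr (.dx 0 (.tr (.lf 11) (.lf 13) (.lf 14))) (.lf 18) (.lf 6))), 0, [17, 17, 3, 3], []⟩)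
    (.lf ⟨[.ofNat 0, .ofNat 0, .negSucc 767, .ofNat 1600], (.tr (.lf 5) (.tr (.lf 6) (.dx 0 (.tr (.lf 11) (.lf 13) (.lf 14))) (.lf 17)) (.lf 18)), 0, [4, 4, 16, 16], []⟩))
    (.nd (.lf ⟨[.ofNat 0, .ofNat 0, .ofNat 0, .negSucc 351], (.tw (.lf 17) (.tr (.lf 5) (.tw (.dx 0 (.tr (.lf 13) (.lf 11) (.lf 14))) (.lf 18)) (.lf 6))), 0, [17, 17, 5, 5, 17, 17, 5, 5], []⟩)
    (.lf ⟨[.ofNat 0, .ofNat 0, .ofNat 0, .ofNat 352], (.tr (.dx 0 (.tr (.lf 11) (.lf 5) (.tw (.lf 13) (.lf 14)))) (.lf 17) (.tw (.lf 6) (.lf 18))), 0, [2, 2, 2, 2, 0, 1017, 0, 1017], []⟩)))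
    (.nd (.nd (.lf ⟨[.ofNat 0, .ofNat 0, .negSucc 2399, .negSucc 1407, .negSucc 31], (.tr (.dx 0 (.tr (.lf 5) (.tw (.lf 13) (.lf 14)) (.lf 11))) (.tw (.lf 17) (.lf 18)) (.lf 6)), 0, [0, 0, 0, 0, 2, 2, 2, 2], []⟩)
    (.lf ⟨[.ofNat 0, .negSucc 6655, .ofNat 16768, .ofNat 4608, .negSucc 319], (.tr (.dx 0 (.tr (.lf 11) (.tw (.lf 5) (.lf 13)) (.lf 14))) (.tw (.lf 17) (.lf 18)) (.lf 6)), 0, [2, 2, 2, 2, 0, 0, 1017, 1017], []⟩))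
    (.nd (.lf ⟨[.ofNat 0, .ofNat 0, .ofNat 5504, .negSucc 911], (.tr (.lf 14) (.dx 0 (.tr (.lf 11) (.lf 13) (.lf 17))) (.tr (.lf 5) (.lf 18) (.lf 6))), 0, [17, 17, 17, 17], []⟩)
    (.lf ⟨[.ofNat 0, .ofNat 0, .ofNat 1216], (.tr (.lf 14) (.dx 0 (.tr (.lf 13) (.lf 11) (.lf 17))) (.tr (.lf 5) (.lf 18) (.lf 6))), 0, [17, 17, 17, 17], []⟩))))

/-- data -/
def dE5x19 : RT := (.nd (.nd (.nd (.lf ⟨[.ofNat 0, .ofNat 0, .negSucc 4671, .ofNat 2416], (.tr (.dx 0 (.tr (.lf 13) (.lf 11) (.lf 17))) (.tr (.lf 5) (.lf 18) (.lf 6)) (.lf 14)), 0, [2, 2, 14, 14], []⟩)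
    (.lf ⟨[.ofNat 0, .ofNat 0, .ofNat 6464, .negSucc 6159, .negSucc 63], (.tr (.lf 14) (.lf 18) (.tr (.lf 5) (.dx 0 (.tr (.lf 13) (.lf 11) (.lf 17))) (.lf 6))), 0, [17, 5, 17, 5], []⟩))
    (.nd (.lf ⟨[.ofNat 0, .ofNat 0, .ofNat 2944, .negSucc 1279], (.tr (.lf 14) (.tr (.lf 5) (.dx 0 (.tr (.lf 11) (.lf 13) (.lf 17))) (.lf 6)) (.lf 18)), 0, [4, 17, 4, 17], []⟩)
    (.lf ⟨[.ofNat 0, .ofNat 0, .negSucc 383, .ofNat 1152], (.tr (.dx 0 (.tr (.lf 11) (.lf 13) (.tr (.lf 5) (.lf 17) (.lf 6)))) (.lf 14) (.lf 18)), 0, [2, 2, 12, 12], []⟩)))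
    (.nd (.nd (.lf ⟨[.ofNat 0, .ofNat 0, .negSucc 4671, .negSucc 1471], (.tr (.dx 0 (.tr (.lf 11) (.tr (.lf 5) (.lf 17) (.lf 6)) (.lf 13))) (.lf 14) (.lf 18)), 0, [14, 14, 0, 0], []⟩)
    (.lf ⟨[.ofNat 0, .negSucc 6655, .ofNat 8416, .ofNat 19216, .negSucc 831], (.tr (.lf 6) (.dx 3 (.tr (.lf 5) (.lf 11) (.tr (.lf 1) (.lf 17) (.lf 2)))) (.lf 18)), 3, [8, 8, 4, 4], []⟩))
    (.nd (.lf ⟨[.ofNat 0, .ofNat 0, .negSucc 12671, .negSucc 1887], (.tr (.lf 14) (.dx 0 (.tr (.lf 5) (.lf 13) (.tr (.lf 6) (.lf 17) (.lf 11)))) (.lf 18)), 0, [0, 1013, 1013, 13], []⟩)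
    (.lf ⟨[.ofNat 0, .ofNat 0, .ofNat 6336, .ofNat 944], (.tr (.lf 14) (.dx 0 (.tr (.lf 13) (.lf 11) (.tr (.lf 5) (.lf 17) (.lf 6)))) (.lf 18)), 0, [13, 13, 0, 0], []⟩))))

/-- data -/
def dE5x20 : RT := (.nd (.nd (.nd (.lf ⟨[.ofNat 0, .ofNat 0, .ofNat 2432], (.tr (.lf 11) (.dx 0 (.tr (.lf 13) (.lf 14) (.lf 17))) (.tr (.lf 5) (.lf 18) (.lf 6))), 0, [6, 6, 18, 18], []⟩)
    (.lf ⟨[.ofNat 0, .ofNat 0, .ofNat 384, .negSucc 799], (.tr (.dx 0 (.tr (.lf 13) (.lf 17) (.lf 14))) (.tr (.lf 5) (.lf 6) (.lf 11)) (.lf 18)), 0, [0, 2, 0, 2], []⟩))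
    (.nd (.lf ⟨[.ofNat 0, .ofNat 0, .negSucc 6399, .negSucc 2015, .negSucc 63], (.tr (.lf 18) (.lf 11) (.tr (.dx 0 (.tr (.lf 13) (.lf 17) (.lf 14))) (.lf 5) (.lf 6))), 0, [5, 5, 1, 1], []⟩)
    (.lf ⟨[.ofNat 0, .ofNat 0, .ofNat 3008, .ofNat 1408, .ofNat 32], (.tw (.lf 18) (.tr (.dx 0 (.tr (.lf 13) (.lf 17) (.lf 14))) (.tw (.lf 5) (.lf 6)) (.lf 11))), 0, [11, 11, 11, 11, 1, 1, 1, 1], []⟩)))
    (.nd (.nd (.lf ⟨[.ofNat 0, .ofNat 0, .negSucc 6015, .negSucc 2815, .negSucc 63], (.tr (.lf 11) (.lf 5) (.tr (.lf 6) (.dx 0 (.tr (.lf 13) (.lf 17) (.lf 14))) (.lf 18))), 0, [10, 10, 22, 22], []⟩)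
    (.lf ⟨[.ofNat 0, .ofNat 0, .ofNat 3008, .ofNat 1408, .ofNat 32], (.tw (.lf 18) (.tr (.tw (.lf 5) (.lf 6)) (.dx 0 (.tr (.lf 13) (.lf 17) (.lf 14))) (.lf 11))), 0, [7, 7, 7, 7, 5, 5, 5, 5], []⟩))
    (.nd (.lf ⟨[.ofNat 0, .ofNat 0, .negSucc 12095, .ofNat 2192], (.tr (.lf 18) (.lf 11) (.tr (.lf 5) (.dx 0 (.tr (.lf 13) (.lf 14) (.lf 17))) (.lf 6))), 0, [17, 5, 17, 5], []⟩)
    (.lf ⟨[.ofNat 0, .ofNat 0, .ofNat 4864], (.tr (.tw (.dx 0 (.tr (.tw (.lf 13) (.lf 14)) (.lf 5) (.lf 17))) (.lf 18)) (.lf 11) (.lf 6)), 0, [21, 21, 21, 21, 21, 21, 9, 9], []⟩))))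

/-- data -/
def dE5x21 : RT := (.nd (.nd (.nd (.lf ⟨[.ofNat 0, .ofNat 0, .ofNat 1216, .ofNat 176], (.tr (.dx 0 (.tr (.lf 17) (.lf 5) (.tr (.lf 13) (.lf 6) (.lf 14)))) (.lf 11) (.lf 18)), 0, [12, 12, 0, 0], []⟩)
    (.lf ⟨[.ofNat 0, .ofNat 0, .ofNat 1216, .ofNat 176], (.tw (.dx 3 (.tw (.lf 1) (.tr (.lf 11) (.lf 5) (.tr (.lf 17) (.lf 2) (.lf 18))))) (.lf 6)), 3, [5, 5, 9, 9, 5, 5, 5, 5], []⟩))
    (.nd (.lf ⟨[.ofNat 0, .ofNat 0, .ofNat 5888, .negSucc 2063], (.tr (.dx 0 (.tr (.lf 5) (.tr (.lf 13) (.lf 6) (.lf 14)) (.lf 17))) (.lf 11) (.lf 18)), 0, [0, 0, 12, 12], []⟩)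
    (.lf ⟨[.ofNat 0, .ofNat 0, .ofNat 448, .negSucc 3263, .negSucc 63], (.tr (.dx 0 (.tr (.lf 13) (.tr (.lf 5) (.lf 6) (.lf 17)) (.lf 14))) (.lf 11) (.lf 18)), 0, [0, 0, 0, 0], []⟩)))
    (.nd (.nd (.lf ⟨[.ofNat 0, .ofNat 0, .negSucc 191, .ofNat 400], (.tr (.dx 0 (.tw (.lf 5) (.tr (.lf 6) (.tw (.lf 13) (.lf 14)) (.lf 17)))) (.lf 11) (.lf 18)), 0, [0, 0, 12, 12, 0, 0, 12, 12], []⟩)
    (.lf ⟨[.ofNat 0, .negSucc 6655, .ofNat 14144, .ofNat 4832, .negSucc 319], (.tr (.dx 0 (.tr (.lf 5) (.lf 17) (.tr (.lf 13) (.lf 6) (.lf 14)))) (.lf 18) (.lf 11)), 0, [12, 12, 19, 19], []⟩))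
    (.nd (.lf ⟨[.ofNat 0, .negSucc 6655, .ofNat 14944, .ofNat 1136, .negSucc 239], (.tr (.dx 0 (.tw (.lf 17) (.tr (.lf 13) (.tw (.lf 5) (.lf 6)) (.lf 14)))) (.lf 18) (.lf 11)), 0, [19, 19, 19, 19, 0, 0, 0, 0], []⟩)
    (.lf ⟨[.ofNat 0, .ofNat 3328, .negSucc 9407, .negSucc 1295, .ofNat 160], (.tr (.lf 5) (.tr (.lf 17) (.tw (.dx 3 (.tw (.lf 1) (.lf 2))) (.lf 6)) (.lf 18)) (.lf 11)), 3, [23, 23, 16, 16, 23, 23, 16, 16], []⟩))))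

/-- data -/
def dE5x22 : RT := (.nd (.nd (.nd (.lf ⟨[.ofNat 0, .ofNat 3328, .negSucc 7359, .ofNat 208], (.tw (.lf 5) (.tr (.dx 3 (.tw (.lf 1) (.lf 2))) (.tr (.lf 17) (.lf 6) (.lf 18)) (.lf 11))), 3, [4, 4, 4, 4, 20, 20, 20, 20], []⟩)
    (.lf ⟨[.ofNat 0, .ofNat 13312, .negSucc 22143, .ofNat 640, .ofNat 320], (.tr (.dx 0 (.tr (.lf 13) (.lf 5) (.tr (.lf 6) (.lf 14) (.lf 17)))) (.lf 18) (.lf 11)), 0, [0, 19, 0, 19], []⟩))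
    (.nd (.lf ⟨[.ofNat 0, .ofNat 0, .negSucc 16255, .ofNat 1920], (.tr (.dx 0 (.tr (.lf 5) (.tr (.lf 6) (.lf 17) (.lf 13)) (.lf 14))) (.lf 18) (.lf 11)), 0, [12, 0, 19, 19], []⟩)
    (.lf ⟨[.ofNat 0, .ofNat 0, .negSucc 18047, .ofNat 2928, .ofNat 160], (.tr (.lf 11) (.dx 0 (.tr (.lf 5) (.lf 17) (.tr (.lf 13) (.lf 6) (.lf 14)))) (.lf 18)), 0, [18, 18, 6, 6], []⟩)))
    (.nd (.nd (.lf ⟨[.ofNat 0, .ofNat 0, .ofNat 9280, .negSucc 1951], (.tr (.lf 11) (.dx 0 (.tw (.lf 13) (.tr (.lf 5) (.tw (.lf 14) (.lf 17)) (.lf 6)))) (.lf 18)), 0, [6, 6, 6, 6, 6, 18, 6, 18], []⟩)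
    (.lf ⟨[.ofNat 0, .ofNat 0, .negSucc 2399, .negSucc 1407, .negSucc 31], (.tr (.dx 0 (.tr (.lf 13) (.tw (.lf 11) (.lf 17)) (.lf 14))) (.tw (.lf 5) (.lf 6)) (.lf 18)), 0, [2, 2, 2, 2, 2, 2, 2, 2], []⟩))
    (.nd (.lf ⟨[.ofNat 0, .ofNat 0, .ofNat 4800, .ofNat 2816, .ofNat 64], (.tr (.dx 0 (.tr (.tw (.lf 11) (.lf 13)) (.lf 17) (.lf 14))) (.tw (.lf 5) (.lf 6)) (.lf 18)), 0, [2, 2, 2, 2, 2, 2, 2, 2], []⟩)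
    (.lf ⟨[.ofNat 0, .ofNat 3328, .negSucc 9407, .negSucc 1295, .ofNat 160], (.tr (.dx 0 (.tr (.tw (.lf 13) (.lf 14)) (.lf 11) (.lf 17))) (.lf 18) (.tw (.lf 5) (.lf 6))), 0, [17, 17, 17, 17, 17, 17, 17, 17], []⟩))))

/-- data -/
def dE5x23 : RT := (.nd (.nd (.nd (.lf ⟨[.ofNat 0, .ofNat 3328, .negSucc 8383, .negSucc 2303, .ofNat 160], (.tr (.lf 2) (.dx 3 (.tr (.lf 1) (.tw (.lf 17) (.lf 18)) (.lf 11))) (.tw (.lf 5) (.lf 6))), 3, [9, 9, 9, 9, 5, 5, 5, 5], []⟩)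
    (.lf ⟨[.ofNat 0, .negSucc 6655, .ofNat 18816, .ofNat 2592, .negSucc 319], (.tr (.dx 0 (.tr (.lf 13) (.tw (.lf 11) (.lf 14)) (.lf 17))) (.lf 18) (.tw (.lf 5) (.lf 6))), 0, [17, 17, 17, 17, 17, 17, 17, 17], []⟩))
    (.nd (.lf ⟨[.ofNat 0, .ofNat 6656, .negSucc 18815, .negSucc 2591, .ofNat 320], (.tr (.lf 1) (.tr (.dx 3 (.lf 11)) (.tr (.lf 17) (.lf 5) (.lf 18)) (.lf 2)) (.lf 6)), 3, [17, 17, 12, 12], []⟩)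
    (.lf ⟨[.ofNat 0, .negSucc 6655, .ofNat 18816, .ofNat 2592, .negSucc 319], (.tr (.lf 2) (.dx 3 (.tr (.lf 1) (.lf 17) (.tw (.lf 11) (.lf 18)))) (.tw (.lf 5) (.lf 6))), 3, [9, 9, 9, 9, 5, 5, 5, 5], []⟩)))
    (.nd (.nd (.lf ⟨[.ofNat 0, .ofNat 0, .ofNat 2432], (.tr (.lf 5) (.tw (.dx 0 (.tr (.tw (.lf 13) (.lf 14)) (.lf 11) (.lf 17))) (.lf 18)) (.lf 6)), 0, [4, 4, 16, 16, 17, 17, 5, 5], []⟩)
    (.lf ⟨[.ofNat 0, .ofNat 0, .negSucc 2431], (.dx 0 (.tr (.lf 5) (.lf 13) (.tr (.lf 14) (.lf 11) (.tr (.lf 17) (.lf 6) (.lf 18))))), 0, [0, 0, 0, 0], []⟩))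
    (.nd (.lf ⟨[.ofNat 0, .ofNat 0, .ofNat 2432], (.tr (.lf 5) (.tw (.dx 3 (.tr (.lf 1) (.tw (.lf 17) (.lf 18)) (.lf 11))) (.lf 2)) (.lf 6)), 3, [5, 5, 5, 5, 4, 4, 4, 4], []⟩)
    (.lf ⟨[.ofNat 0, .ofNat 0, .negSucc 9727], (.dx 0 (.tr (.lf 5) (.lf 13) (.tr (.lf 6) (.lf 17) (.tr (.lf 14) (.lf 11) (.lf 18))))), 0, [0, 0, 1013, 1013], []⟩))))

/-- data -/
def dE5x24 : RT := (.nd (.nd (.nd (.lf ⟨[.ofNat 0, .ofNat 0, .ofNat 0, .ofNat 704], (.tr (.dx 0 (.tr (.lf 17) (.lf 5) (.tr (.lf 13) (.lf 11) (.lf 14)))) (.lf 6) (.lf 18)), 0, [12, 12, 2, 2], []⟩)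
    (.lf ⟨[.ofNat 0, .negSucc 6655, .ofNat 7616, .ofNat 2176], (.tr (.dx 0 (.tr (.lf 17) (.lf 11) (.tr (.lf 13) (.lf 5) (.lf 14)))) (.lf 6) (.lf 18)), 0, [14, 14, 0, 0], []⟩))
    (.nd (.lf ⟨[.ofNat 0, .ofNat 6656, .negSucc 16127, .negSucc 3535, .negSucc 991], (.tr (.dx 0 (.tr (.lf 11) (.tr (.lf 13) (.lf 5) (.lf 14)) (.lf 17))) (.lf 6) (.lf 18)), 0, [2, 2, 12, 12], []⟩)
    (.lf ⟨[.ofNat 0, .ofNat 0, .negSucc 5119, .negSucc 63], (.tr (.dx 0 (.tr (.lf 13) (.tr (.lf 5) (.lf 17) (.lf 11)) (.lf 14))) (.lf 6) (.lf 18)), 0, [0, 2, 0, 2], []⟩)))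
    (.nd (.nd (.lf ⟨[.ofNat 0, .ofNat 0, .ofNat 3584, .ofNat 2816, .ofNat 64], (.tr (.dx 0 (.tr (.lf 5) (.lf 11) (.tr (.lf 13) (.lf 17) (.lf 14)))) (.lf 18) (.lf 6)), 0, [0, 0, 17, 17], []⟩)
    (.lf ⟨[.ofNat 0, .ofNat 0, .ofNat 2432], (.tr (.dx 0 (.tr (.lf 11) (.lf 17) (.tr (.lf 13) (.lf 5) (.lf 14)))) (.lf 18) (.lf 6)), 0, [14, 14, 17, 17], []⟩))
    (.nd (.lf ⟨[.ofNat 0, .ofNat 0, .ofNat 4864], (.tr (.dx 0 (.tr (.lf 13) (.tr (.lf 5) (.lf 11) (.lf 14)) (.lf 17))) (.lf 18) (.lf 6)), 0, [0, 17, 12, 17], []⟩)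
    (.lf ⟨[.ofNat 0, .ofNat 0, .ofNat 0, .negSucc 591], (.tr (.lf 2) (.dx 3 (.tr (.lf 17) (.lf 11) (.tr (.lf 1) (.lf 18) (.lf 5)))) (.lf 6)), 3, [5, 5, 0, 0], []⟩))))

/-- data -/
def dE5 : RT := (.nd (.nd (.nd (.nd dE5x0 (.nd dE5x1 dE5x2)) (.nd dE5x3 (.nd dE5x4 dE5x5))) (.nd (.nd dE5x6 (.nd dE5x7 dE5x8)) (.nd dE5x9 (.nd dE5x10 dE5x11)))) (.nd (.nd (.nd dE5x12 (.nd dE5x13 dE5x14)) (.nd dE5x15 (.nd dE5x16 dE5x17))) (.nd (.nd dE5x18 (.nd dE5x19 dE5x20)) (.nd (.nd dE5x21 dE5x22) (.nd dE5x23 dE5x24)))))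

/-- data -/
def lE5x0 : List (ℕ × List ℤ) := [(5405, [.ofNat 0, .ofNat 0, .ofNat 0, .negSucc 16511, .ofNat 12928, .negSucc 8095]),
  (42789, [.ofNat 0, .ofNat 0, .ofNat 0, .negSucc 255, .negSucc 14975, .ofNat 1472]),
  (51357, [.ofNat 0, .ofNat 0, .ofNat 0, .negSucc 6399, .ofNat 9088, .ofNat 4160]),
  (136421, [.ofNat 0, .ofNat 0, .ofNat 0, .negSucc 511, .negSucc 5247, .negSucc 5823]),
  (136429, [.ofNat 0, .ofNat 0, .ofNat 0, .ofNat 6656, .negSucc 13951, .ofNat 3136]),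
  (344924, [.ofNat 0, .ofNat 26624, .negSucc 64255, .ofNat 22336, .ofNat 17216, .negSucc 1311]),
  (344925, [.ofNat 0, .negSucc 26623, .ofNat 64256, .negSucc 22335, .negSucc 17215, .ofNat 1312]),
  (345932, [.ofNat 0, .ofNat 26624, .negSucc 81919, .negSucc 2367, .negSucc 703, .ofNat 1760]),
  (346853, [.ofNat 0, .ofNat 0, .ofNat 0, .ofNat 3328, .negSucc 11903, .ofNat 5120]),
  (346909, [.ofNat 0, .ofNat 0, .ofNat 0, .ofNat 9984, .negSucc 10879, .negSucc 511]),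
  (404180, [.ofNat 0, .ofNat 0, .ofNat 0, .ofNat 3200, .ofNat 4512, .ofNat 64]),
  (404181, [.ofNat 0, .ofNat 0, .ofNat 0, .negSucc 3199, .negSucc 4511, .negSucc 63]),
  (404197, [.ofNat 0, .negSucc 26623, .ofNat 64256, .negSucc 21183, .ofNat 1888, .ofNat 2320]),
  (404204, [.ofNat 0, .ofNat 26624, .negSucc 64255, .ofNat 21184, .negSucc 1887, .negSucc 2319]),
  (404253, [.ofNat 0, .ofNat 26624, .negSucc 64255, .ofNat 18752, .ofNat 1664, .ofNat 4416, .ofNat 128]),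
  (404316, [.ofNat 0, .ofNat 0, .ofNat 17664, .ofNat 17792, .ofNat 1600, .ofNat 5504, .ofNat 128]),
  (412317, [.ofNat 0, .ofNat 0, .ofNat 0, .ofNat 0, .negSucc 767, .ofNat 1600]),
  (414956, [.ofNat 0, .ofNat 0, .ofNat 0, .ofNat 0, .ofNat 768, .negSucc 1599]),
  (416412, [.ofNat 0, .ofNat 0, .ofNat 0, .ofNat 3328, .negSucc 10367, .ofNat 1920]),
  (1086749, [.ofNat 0, .ofNat 26624, .negSucc 81919, .negSucc 2367, .negSucc 703, .ofNat 1760]),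
  (1091429, [.ofNat 0, .ofNat 0, .ofNat 0, .ofNat 3328, .negSucc 10367, .ofNat 1920]),
  (1091821, [.ofNat 0, .negSucc 26623, .ofNat 81920, .ofNat 2368, .negSucc 11199, .ofNat 4608]),
  (1091933, [.ofNat 0, .ofNat 0, .ofNat 0, .ofNat 16256, .negSucc 543, .ofNat 2144]),
  (1092381, [.ofNat 0, .ofNat 0, .ofNat 0, .negSucc 16255, .ofNat 544, .negSucc 2143]),
  (1098989, [.ofNat 0, .ofNat 0, .ofNat 0, .negSucc 13311, .ofNat 12416, .negSucc 2847]),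
  (1103077, [.ofNat 0, .ofNat 0, .ofNat 0, .ofNat 13312, .negSucc 12415, .ofNat 2848]),
  (2512171, [.ofNat 0, .ofNat 0, .ofNat 0, .ofNat 768, .negSucc 1599]),
  (2513067, [.ofNat 0, .ofNat 0, .ofNat 0, .ofNat 768, .negSucc 1599]),
  (2706149, [.ofNat 0, .ofNat 0, .ofNat 3328, .ofNat 1280, .negSucc 4415]),
  (2738028, [.ofNat 0, .ofNat 0, .negSucc 3583, .ofNat 256, .negSucc 447]),
  (2759516, [.ofNat 0, .ofNat 0, .negSucc 9983, .ofNat 1856, .negSucc 447]),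
  (2767692, [.ofNat 0, .ofNat 17664, .ofNat 18304, .ofNat 13120, .ofNat 128]),
  (2769565, [.ofNat 0, .ofNat 0, .ofNat 0, .ofNat 4864]),
  (2769757, [.ofNat 0, .ofNat 0, .ofNat 9984, .negSucc 1855, .ofNat 448]),
  (2771549, [.ofNat 0, .ofNat 0, .ofNat 3328, .negSucc 10367, .ofNat 1920]),
  (2771661, [.ofNat 0, .ofNat 0, .ofNat 3328, .negSucc 10367, .ofNat 1920]),
  (2771690, [.ofNat 0, .ofNat 0, .ofNat 2944, .negSucc 4831, .negSucc 63]),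
  (2775651, [.ofNat 0, .ofNat 0, .negSucc 4287, .ofNat 19056, .ofNat 2272]),
  (3201692, [.ofNat 0, .ofNat 0, .negSucc 6399, .ofNat 4224, .ofNat 4160]),
  (3218268, [.ofNat 0, .ofNat 0, .negSucc 3327, .ofNat 1024, .negSucc 383]),
  (3218275, [.ofNat 0, .ofNat 0, .ofNat 18240, .ofNat 11952, .negSucc 159]),
  (3222245, [.ofNat 0, .ofNat 0, .negSucc 4095, .negSucc 7039, .ofNat 3248]),
  (3222252, [.ofNat 0, .ofNat 0, .ofNat 8192, .ofNat 15680, .negSucc 4271]),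
  (3222301, [.ofNat 0, .ofNat 0, .ofNat 0, .negSucc 767, .ofNat 1600]),
  (3222315, [.negSucc 26623, .ofNat 64256, .negSucc 29375, .negSucc 13023, .ofNat 4992]),
  (3224428, [.ofNat 0, .ofNat 0, .negSucc 3327, .ofNat 2560, .ofNat 448]),
  (3225962, [.ofNat 0, .ofNat 0, .negSucc 7743, .ofNat 5200, .ofNat 2080]),
  (3225963, [.ofNat 0, .ofNat 0, .negSucc 3455, .negSucc 13855, .negSucc 191]),
  (3226452, [.ofNat 0, .ofNat 0, .negSucc 3327, .negSucc 5375, .ofNat 2816]),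
  (3226467, [.ofNat 0, .ofNat 0, .ofNat 18240, .ofNat 11952, .negSucc 159]),
  (3233509, [.ofNat 0, .ofNat 0, .ofNat 4096, .ofNat 8640, .negSucc 1023]),
  (3234013, [.ofNat 0, .ofNat 0, .ofNat 10624, .ofNat 11360, .negSucc 9407, .negSucc 127]),
  (3234396, [.ofNat 0, .ofNat 0, .ofNat 256, .negSucc 5631, .ofNat 3264]),
  (3234516, [.ofNat 0, .ofNat 0, .negSucc 6527, .negSucc 9887, .ofNat 2752]),
  (3234524, [.ofNat 0, .negSucc 17663, .negSucc 17791, .negSucc 1599, .negSucc 5503, .negSucc 127]),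
  (3286869, [.ofNat 0, .ofNat 0, .negSucc 3199, .negSucc 4511, .negSucc 63]),
  (3298461, [.ofNat 0, .ofNat 0, .ofNat 0, .negSucc 767, .ofNat 1600]),
  (3314924, [.ofNat 0, .ofNat 0, .negSucc 6655, .ofNat 12160, .ofNat 128]),
  (3314973, [.ofNat 0, .ofNat 0, .ofNat 8256, .negSucc 6463, .ofNat 4048]),
  (3315036, [.ofNat 0, .ofNat 0, .negSucc 9791, .negSucc 12639, .negSucc 4671]),
  (3318620, [.ofNat 0, .ofNat 0, .negSucc 1535, .negSucc 19103, .negSucc 623]),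
  (3319020, [.ofNat 0, .ofNat 0, .ofNat 0, .negSucc 1535, .ofNat 3200]),
  (3319404, [.ofNat 0, .ofNat 0, .negSucc 6655, .ofNat 12160, .ofNat 128]),
  (3319532, [.ofNat 0, .ofNat 0, .ofNat 0, .negSucc 767, .ofNat 1600]),
  (3330716, [.ofNat 0, .ofNat 0, .negSucc 3327, .ofNat 2560, .ofNat 448]),
  (3331276, [.ofNat 0, .ofNat 0, .negSucc 3327, .ofNat 15232, .negSucc 1919]),
  (3331292, [.ofNat 0, .ofNat 0, .negSucc 3327, .ofNat 10368, .negSucc 1919]),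
  (8693605, [.ofNat 0, .ofNat 0, .negSucc 6655, .ofNat 10624, .negSucc 703]),
  (8693997, [.ofNat 0, .ofNat 0, .ofNat 0, .ofNat 11904, .negSucc 6367]),
  (8694501, [.ofNat 0, .ofNat 0, .negSucc 767, .negSucc 20799, .ofNat 6176]),
  (8701165, [.ofNat 0, .ofNat 0, .ofNat 6656, .negSucc 10623, .ofNat 704]),
  (8726877, [.ofNat 0, .ofNat 0, .negSucc 8831, .ofNat 10720, .negSucc 7615]),
  (8727325, [.ofNat 0, .ofNat 0, .ofNat 4032, .negSucc 21215, .ofNat 3904]),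
  (8729445, [.ofNat 0, .ofNat 0, .ofNat 6784, .negSucc 2143, .ofNat 3712]),
  (8730733, [.ofNat 0, .ofNat 0, .ofNat 6656, .negSucc 9855, .negSucc 895]),
  (8730861, [.ofNat 0, .ofNat 0, .ofNat 0, .ofNat 4096, .negSucc 4031]),
  (8730965, [.ofNat 0, .ofNat 0, .ofNat 6784, .negSucc 3679, .ofNat 6912]),
  (8731365, [.ofNat 0, .ofNat 0, .negSucc 6655, .ofNat 8064, .ofNat 4160]),
  (8731405, [.ofNat 0, .ofNat 0, .ofNat 0, .ofNat 2304, .negSucc 767]),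
  (8731413, [.ofNat 0, .ofNat 0, .ofNat 0, .ofNat 1536, .negSucc 3199]),
  (8733421, [.ofNat 0, .ofNat 0, .ofNat 0, .negSucc 5631, .ofNat 1600]),
  (8733933, [.ofNat 0, .ofNat 0, .ofNat 0, .negSucc 5631, .ofNat 1600]),
  (8735325, [.ofNat 0, .ofNat 0, .ofNat 1536, .ofNat 17568, .ofNat 3824]),
  (8738021, [.ofNat 0, .ofNat 0, .negSucc 6783, .ofNat 2144, .negSucc 3711]),
  (8738533, [.ofNat 0, .ofNat 0, .ofNat 6656, .negSucc 10623, .ofNat 704]),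
  (8738909, [.ofNat 0, .ofNat 0, .ofNat 0, .ofNat 1536, .negSucc 3199]),
  (8824549, [.ofNat 0, .ofNat 0, .ofNat 4800, .ofNat 10496, .ofNat 3712]),
  (19515565, [.ofNat 0, .ofNat 0, .negSucc 767, .ofNat 1600]),
  (19547821, [.ofNat 0, .ofNat 0, .negSucc 767, .ofNat 1600]),
  (19548893, [.ofNat 0, .ofNat 0, .ofNat 4864]),
  (19552413, [.ofNat 0, .ofNat 0, .negSucc 767, .ofNat 1600]),
  (20003668, [.ofNat 0, .ofNat 0, .ofNat 5632, .negSucc 1599]),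
  (20011732, [.ofNat 0, .ofNat 0, .ofNat 5632, .negSucc 1599]),
  (20011746, [.ofNat 0, .ofNat 0, .ofNat 4096, .negSucc 4031]),
  (20011747, [.ofNat 0, .ofNat 0, .ofNat 4096, .negSucc 4031]),
  (20064106, [.ofNat 0, .ofNat 0, .negSucc 3967, .negSucc 7231, .negSucc 127]),
  (20065114, [.ofNat 0, .ofNat 0, .negSucc 3967, .negSucc 7231, .negSucc 127]),
  (20097763, [.ofNat 0, .negSucc 13311, .ofNat 37632, .ofNat 5184, .negSucc 639]),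
  (21318429, [.ofNat 0, .ofNat 0, .negSucc 3327, .ofNat 256, .ofNat 1216]),
  (21346605, [.ofNat 0, .ofNat 0, .negSucc 4863])]

/-- data -/
def lE5x1 : List (ℕ × List ℤ) := [(21346661, [.ofNat 0, .ofNat 0, .ofNat 4864]),
  (21383005, [.ofNat 0, .ofNat 0, .negSucc 9727]),
  (21387100, [.ofNat 0, .ofNat 0, .negSucc 14207, .ofNat 4128]),
  (21543269, [.ofNat 0, .ofNat 0, .ofNat 4864]),
  (21547245, [.ofNat 0, .ofNat 0, .ofNat 2432]),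
  (21640037, [.ofNat 0, .ofNat 0, .ofNat 2432]),
  (21645917, [.ofNat 0, .ofNat 0, .negSucc 383, .ofNat 800]),
  (21650019, [.ofNat 0, .ofNat 0, .ofNat 16256, .negSucc 1919]),
  (21809493, [.ofNat 0, .ofNat 0, .negSucc 4031, .negSucc 5119, .negSucc 63]),
  (21809501, [.ofNat 0, .ofNat 0, .negSucc 4031, .negSucc 5119, .negSucc 63]),
  (21895517, [.ofNat 0, .ofNat 0, .ofNat 2432]),
  (21895965, [.ofNat 0, .ofNat 0, .ofNat 2432, .negSucc 703]),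
  (21896028, [.ofNat 0, .ofNat 0, .negSucc 9727]),
  (21903973, [.ofNat 0, .ofNat 0, .ofNat 2432, .ofNat 352]),
  (21903980, [.ofNat 0, .ofNat 0, .ofNat 9344, .ofNat 2944]),
  (21906269, [.ofNat 0, .ofNat 0, .ofNat 9728, .ofNat 704]),
  (21906283, [.ofNat 0, .negSucc 13311, .ofNat 33536, .ofNat 9920, .negSucc 639]),
  (21911317, [.ofNat 0, .ofNat 0, .ofNat 18560, .negSucc 3903]),
  (21911380, [.ofNat 0, .ofNat 0, .ofNat 17536, .negSucc 1951, .negSucc 319]),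
  (21911658, [.ofNat 0, .ofNat 0, .ofNat 7168, .ofNat 5632, .ofNat 128]),
  (22072029, [.ofNat 0, .negSucc 13311, .ofNat 29440, .negSucc 831]),
  (22072042, [.ofNat 0, .negSucc 13311, .ofNat 37632, .ofNat 5184, .negSucc 639]),
  (22091628, [.ofNat 0, .ofNat 0, .ofNat 7168, .ofNat 5632, .ofNat 128]),
  (22092573, [.ofNat 0, .ofNat 0, .ofNat 14208, .negSucc 4127]),
  (22104669, [.ofNat 0, .ofNat 0, .ofNat 11776, .negSucc 4127]),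
  (22107756, [.ofNat 0, .ofNat 0, .ofNat 768, .negSucc 2303]),
  (22108393, [.ofNat 0, .ofNat 0, .negSucc 9727]),
  (22131557, [.ofNat 0, .ofNat 0, .ofNat 2432]),
  (22135659, [.ofNat 0, .negSucc 13311, .ofNat 23808, .ofNat 9216, .negSucc 639]),
  (22136141, [.ofNat 0, .ofNat 0, .ofNat 0, .negSucc 1407]),
  (22137437, [.ofNat 0, .ofNat 13312, .negSucc 32255, .negSucc 7071, .negSucc 1983]),
  (22137557, [.ofNat 0, .ofNat 0, .negSucc 17535, .ofNat 1952, .ofNat 320]),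
  (22140005, [.ofNat 0, .ofNat 0, .negSucc 12927, .ofNat 12320, .ofNat 128]),
  (22140012, [.ofNat 0, .ofNat 0, .ofNat 12928, .negSucc 12319, .negSucc 127]),
  (22140517, [.ofNat 0, .ofNat 0, .negSucc 767, .ofNat 2304]),
  (22141141, [.ofNat 0, .ofNat 0, .ofNat 18560, .negSucc 3903]),
  (22141274, [.ofNat 0, .ofNat 0, .ofNat 12032, .ofNat 5632, .ofNat 128]),
  (22141539, [.ofNat 0, .ofNat 0, .negSucc 9727]),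
  (22162013, [.ofNat 0, .ofNat 0, .negSucc 11647, .negSucc 9327, .negSucc 191]),
  (22162125, [.ofNat 0, .ofNat 0, .negSucc 11647, .negSucc 9327, .negSucc 191]),
  (22164330, [.ofNat 0, .ofNat 0, .negSucc 9599, .negSucc 5631, .negSucc 127]),
  (22164331, [.ofNat 0, .ofNat 0, .negSucc 9599, .negSucc 5631, .negSucc 127]),
  (22166185, [.ofNat 0, .ofNat 0, .ofNat 4864]),
  (22172765, [.ofNat 0, .ofNat 0, .negSucc 24575, .ofNat 5184]),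
  (22172907, [.ofNat 0, .ofNat 0, .ofNat 4864]),
  (22194283, [.ofNat 0, .ofNat 13312, .negSucc 38399, .ofNat 2560, .ofNat 320]),
  (22194787, [.ofNat 0, .ofNat 13312, .negSucc 28287, .negSucc 9663, .ofNat 640]),
  (22194913, [.ofNat 0, .ofNat 0, .negSucc 4863]),
  (22198883, [.ofNat 0, .ofNat 0, .negSucc 4863]),
  (22201053, [.ofNat 0, .ofNat 0, .ofNat 9600, .ofNat 5632, .ofNat 128]),
  (22201565, [.ofNat 0, .ofNat 0, .ofNat 12032, .ofNat 5632, .ofNat 128]),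
  (22205532, [.ofNat 0, .ofNat 0, .ofNat 24576, .negSucc 5183]),
  (22205667, [.ofNat 0, .ofNat 0, .negSucc 4863]),
  (25508581, [.ofNat 0, .negSucc 13311, .ofNat 16832, .ofNat 38432, .negSucc 1663]),
  (25508629, [.ofNat 0, .ofNat 0, .negSucc 11007, .ofNat 1824]),
  (25508692, [.ofNat 0, .ofNat 0, .ofNat 4864]),
  (25511765, [.ofNat 0, .ofNat 0, .negSucc 2431]),
  (25512661, [.ofNat 0, .ofNat 0, .negSucc 11007, .ofNat 1824]),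
  (25515797, [.ofNat 0, .ofNat 0, .negSucc 2431]),
  (25516756, [.ofNat 0, .ofNat 0, .ofNat 4864]),
  (25601379, [.ofNat 0, .negSucc 13311, .ofNat 37632, .ofNat 5184, .negSucc 639]),
  (25601890, [.ofNat 0, .ofNat 0, .ofNat 0, .negSucc 1183]),
  (25738026, [.ofNat 0, .ofNat 0, .negSucc 7167, .negSucc 5631, .negSucc 127]),
  (25745244, [.ofNat 0, .ofNat 0, .ofNat 2432, .ofNat 352]),
  (25762659, [.ofNat 0, .ofNat 0, .negSucc 16255, .ofNat 1920]),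
  (25770851, [.ofNat 0, .ofNat 0, .negSucc 16255, .ofNat 1920]),
  (25774699, [.ofNat 0, .ofNat 0, .ofNat 8192, .ofNat 6016, .negSucc 639]),
  (25777900, [.ofNat 0, .ofNat 0, .ofNat 3200, .ofNat 4448]),
  (25778269, [.ofNat 0, .ofNat 0, .ofNat 896, .negSucc 6527, .negSucc 127]),
  (25794901, [.ofNat 0, .ofNat 0, .ofNat 2432]),
  (25795349, [.ofNat 0, .ofNat 0, .ofNat 2432, .negSucc 703]),
  (25799437, [.ofNat 0, .ofNat 0, .negSucc 4479, .ofNat 4128]),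
  (25803114, [.ofNat 0, .ofNat 0, .ofNat 16256, .negSucc 1919]),
  (25807594, [.ofNat 0, .ofNat 13312, .negSucc 28287, .negSucc 9663, .ofNat 640]),
  (25809756, [.ofNat 0, .ofNat 0, .negSucc 767, .ofNat 3712]),
  (25810189, [.ofNat 0, .ofNat 0, .negSucc 13439, .ofNat 2176]),
  (25811178, [.ofNat 0, .negSucc 13311, .ofNat 38400, .negSucc 2559, .negSucc 319]),
  (25811554, [.ofNat 0, .ofNat 0, .negSucc 5631, .ofNat 3712]),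
  (25811596, [.ofNat 0, .ofNat 0, .ofNat 4864]),
  (25827178, [.ofNat 0, .ofNat 0, .negSucc 5631, .ofNat 3712]),
  (25828053, [.ofNat 0, .ofNat 0, .ofNat 2432]),
  (25832029, [.ofNat 0, .ofNat 0, .ofNat 2432, .ofNat 352]),
  (25834346, [.ofNat 0, .negSucc 13311, .ofNat 33536, .ofNat 9216, .negSucc 639]),
  (25836117, [.ofNat 0, .negSucc 13311, .ofNat 15232, .ofNat 4352]),
  (25836125, [.ofNat 0, .ofNat 0, .ofNat 0, .ofNat 1408]),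
  (25859869, [.ofNat 0, .ofNat 0, .ofNat 9344, .negSucc 4831]),
  (25859932, [.ofNat 0, .ofNat 0, .negSucc 9343, .ofNat 4832]),
  (25859938, [.ofNat 0, .ofNat 0, .negSucc 4863, .negSucc 1183]),
  (25863781, [.ofNat 0, .negSucc 13311, .ofNat 7488, .ofNat 35488, .negSucc 1663]),
  (25867533, [.ofNat 0, .ofNat 0, .negSucc 13439, .ofNat 2176]),
  (25868373, [.ofNat 0, .ofNat 0, .negSucc 10239, .negSucc 127]),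
  (25868381, [.ofNat 0, .ofNat 0, .negSucc 10239, .negSucc 127]),
  (25868884, [.ofNat 0, .ofNat 0, .ofNat 0, .negSucc 1407]),
  (25868892, [.ofNat 0, .ofNat 13312, .negSucc 15231, .negSucc 4351]),
  (25868940, [.ofNat 0, .ofNat 0, .ofNat 0, .ofNat 1408]),
  (25876108, [.ofNat 0, .ofNat 0, .ofNat 4864]),
  (26293933, [.ofNat 0, .ofNat 0, .ofNat 4864]),
  (26301645, [.ofNat 0, .ofNat 0, .ofNat 0, .ofNat 704]),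
  (26519388, [.ofNat 0, .ofNat 0, .ofNat 2432, .ofNat 352]),
  (26526933, [.ofNat 0, .ofNat 0, .ofNat 768, .negSucc 2303])]

/-- data -/
def lE5x2 : List (ℕ × List ℤ) := [(26531028, [.ofNat 0, .ofNat 0, .negSucc 767, .ofNat 2304]),
  (26547989, [.ofNat 0, .ofNat 0, .ofNat 768, .negSucc 2303]),
  (26552413, [.ofNat 0, .ofNat 0, .ofNat 896, .negSucc 6527, .negSucc 127]),
  (26555157, [.ofNat 0, .ofNat 0, .negSucc 2431, .negSucc 351]),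
  (26559189, [.ofNat 0, .ofNat 0, .negSucc 2431, .negSucc 351]),
  (26560085, [.ofNat 0, .ofNat 0, .ofNat 768, .negSucc 2303]),
  (26563676, [.ofNat 0, .ofNat 0, .negSucc 11775, .ofNat 4128]),
  (26564180, [.ofNat 0, .negSucc 13311, .ofNat 32256, .ofNat 7072, .ofNat 1984]),
  (26612957, [.ofNat 0, .ofNat 0, .ofNat 768, .negSucc 1599]),
  (26616541, [.ofNat 0, .ofNat 0, .ofNat 9600, .ofNat 5632, .ofNat 128]),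
  (26649692, [.ofNat 0, .ofNat 0, .ofNat 384, .negSucc 799]),
  (69547821, [.ofNat 0, .ofNat 0, .negSucc 5631, .ofNat 1600]),
  (69552861, [.ofNat 0, .ofNat 0, .ofNat 0, .negSucc 703]),
  (69556445, [.ofNat 0, .ofNat 0, .ofNat 768, .negSucc 191]),
  (69620893, [.ofNat 0, .ofNat 0, .ofNat 768, .negSucc 2303]),
  (69620949, [.ofNat 0, .ofNat 0, .ofNat 4480, .negSucc 4127]),
  (69641445, [.ofNat 0, .ofNat 0, .negSucc 9599, .negSucc 1247]),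
  (69649621, [.ofNat 0, .ofNat 0, .negSucc 4479, .ofNat 4128]),
  (69777197, [.ofNat 0, .ofNat 0, .ofNat 768, .negSucc 1599]),
  (69777253, [.ofNat 0, .ofNat 0, .negSucc 767, .ofNat 1600]),
  (69777757, [.ofNat 0, .ofNat 0, .ofNat 7808, .negSucc 223]),
  (69778205, [.ofNat 0, .ofNat 0, .negSucc 4863, .ofNat 704]),
  (69801773, [.ofNat 0, .ofNat 0, .ofNat 768, .negSucc 1599]),
  (69801829, [.ofNat 0, .ofNat 0, .negSucc 14591]),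
  (69817117, [.ofNat 0, .ofNat 0, .negSucc 2431, .negSucc 1407]),
  (69838693, [.ofNat 0, .ofNat 0, .ofNat 3328, .negSucc 255, .negSucc 1215]),
  (69839629, [.ofNat 0, .ofNat 0, .negSucc 4479, .ofNat 4128]),
  (69842221, [.ofNat 0, .ofNat 0, .ofNat 768, .negSucc 1599]),
  (69846125, [.ofNat 0, .ofNat 0, .ofNat 7168, .ofNat 5632, .ofNat 128]),
  (69847693, [.ofNat 0, .ofNat 0, .ofNat 5888, .negSucc 2559]),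
  (69851277, [.ofNat 0, .ofNat 0, .negSucc 5887, .ofNat 2560]),
  (69871437, [.ofNat 0, .ofNat 0, .negSucc 12671, .negSucc 1887]),
  (69872333, [.ofNat 0, .ofNat 0, .negSucc 12671, .negSucc 1887]),
  (69874517, [.ofNat 0, .negSucc 13311, .ofNat 37632, .ofNat 5184, .negSucc 639]),
  (69874525, [.ofNat 0, .negSucc 13311, .ofNat 37632, .ofNat 5184, .negSucc 639]),
  (69874797, [.ofNat 0, .ofNat 0, .ofNat 7168, .ofNat 5632, .ofNat 128]),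
  (69903077, [.ofNat 0, .ofNat 0, .ofNat 21376, .ofNat 1504, .ofNat 128]),
  (69904141, [.ofNat 0, .ofNat 0, .ofNat 12672, .ofNat 1888]),
  (69904589, [.ofNat 0, .ofNat 0, .ofNat 12672, .ofNat 1888]),
  (69907221, [.ofNat 0, .ofNat 0, .ofNat 13440, .negSucc 1119]),
  (69907229, [.ofNat 0, .ofNat 0, .ofNat 13440, .negSucc 1119]),
  (70591261, [.ofNat 0, .ofNat 0, .negSucc 2431, .negSucc 1407]),
  (75834093, [.ofNat 0, .ofNat 0, .negSucc 2431]),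
  (77931237, [.ofNat 0, .ofNat 0, .ofNat 9728])]

/-- the sum of the part -/
def lE5 : List (ℕ × List ℤ) := lE5x0 ++ (lE5x1 ++ (lE5x2))

theorem okE5 : dE5.all (rok tbE 12) = true := by decide +kernel

theorem sumE5 : aeq (fz (sumT tbE dE5)) lE5 = true := by decide +kernel

end Pool.Agent.H.MP_e16c79_al.IS
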