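import Pool.Agent.H.MP_e16c79_al.IS.BTabE

/-!
# MP_e16c79_al: certificate E, part 6
-/

set_option autoImplicit false

namespace Pool.Agent.H.MP_e16c79_al.IS

/-- data -/
def dE6x0 : RT := (.nd (.nd (.nd (.lf ⟨[.ofNat 0, .ofNat 0, .negSucc 2431], (.tr (.dx 0 (.tr (.lf 11) (.tr (.lf 13) (.lf 5) (.lf 14)) (.lf 17))) (.lf 18) (.lf 6)), 0, [2, 2, 17, 17], []⟩)
    (.lf ⟨[.ofNat 0, .ofNat 0, .ofNat 3008, .ofNat 976], (.tr (.lf 2) (.dx 3 (.tr (.lf 1) (.lf 11) (.tr (.lf 17) (.lf 5) (.lf 18)))) (.lf 6)), 3, [2, 2, 5, 5], []⟩))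
    (.nd (.lf ⟨[.ofNat 0, .negSucc 6655, .ofNat 11712, .ofNat 19408, .ofNat 6704], (.tr (.lf 6) (.dx 0 (.tr (.lf 17) (.lf 11) (.tr (.lf 13) (.lf 5) (.lf 14)))) (.lf 18)), 0, [16, 16, 4, 4], []⟩)
    (.lf ⟨[.ofNat 0, .ofNat 0, .negSucc 1023, .negSucc 399], (.tr (.dx 3 (.tr (.lf 1) (.tr (.lf 17) (.lf 5) (.lf 18)) (.lf 11))) (.lf 2) (.lf 6)), 3, [5, 5, 5, 5], []⟩)))
    (.nd (.nd (.lf ⟨[.ofNat 0, .negSucc 6655, .ofNat 4736, .ofNat 2160], (.tr (.lf 5) (.tr (.dx 0 (.lf 13)) (.tr (.lf 17) (.lf 6) (.lf 18)) (.lf 11)) (.lf 14)), 0, [4, 4, 20, 20], [16, 16, 20, 20]⟩)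
    (.lf ⟨[.ofNat 0, .ofNat 0, .negSucc 191, .ofNat 752], (.tw (.dx 0 (.tr (.lf 17) (.lf 11) (.tr (.lf 13) (.tw (.lf 5) (.lf 6)) (.lf 14)))) (.lf 18)), 0, [14, 14, 14, 14, 0, 0, 0, 0], []⟩))
    (.nd (.lf ⟨[.ofNat 0, .ofNat 0, .negSucc 831, .ofNat 256], (.tw (.lf 5) (.tr (.dx 3 (.tw (.lf 1) (.lf 2))) (.lf 11) (.tr (.lf 17) (.lf 6) (.lf 18)))), 3, [4, 4, 4, 4, 20, 20, 20, 20], []⟩)
    (.lf ⟨[.ofNat 0, .ofNat 0, .ofNat 1664, .negSucc 511], (.tr (.dx 3 (.tw (.lf 1) (.lf 2))) (.lf 11) (.tr (.tw (.lf 5) (.lf 17)) (.lf 6) (.lf 18))), 3, [2, 1017, 1017, 21, 2, 1017, 1017, 21], []⟩))))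

/-- data -/
def dE6x1 : RT := (.nd (.nd (.nd (.lf ⟨[.ofNat 0, .ofNat 3328, .negSucc 8799, .ofNat 376], (.tw (.lf 5) (.tr (.lf 17) (.tr (.lf 6) (.dx 3 (.tw (.lf 1) (.lf 2))) (.lf 11)) (.lf 18))), 3, [16, 16, 20, 20, 16, 16, 20, 20], []⟩)
    (.lf ⟨[.ofNat 0, .ofNat 0, .negSucc 607], (.tw (.dx 0 (.tr (.lf 11) (.tr (.lf 13) (.tw (.lf 5) (.lf 6)) (.lf 14)) (.lf 17))) (.lf 18)), 0, [2, 2, 2, 2, 12, 12, 12, 12], []⟩))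
    (.nd (.lf ⟨[.ofNat 0, .ofNat 0, .ofNat 1216], (.tw (.dx 0 (.tr (.lf 11) (.lf 13) (.tr (.tw (.lf 5) (.lf 6)) (.lf 14) (.lf 17)))) (.lf 18)), 0, [2, 2, 2, 2, 0, 0, 12, 12], []⟩)
    (.lf ⟨[.ofNat 0, .ofNat 0, .ofNat 1312, .negSucc 375], (.tw (.dx 0 (.tr (.lf 13) (.tr (.tw (.lf 5) (.lf 6)) (.lf 17) (.lf 11)) (.lf 14))) (.lf 18)), 0, [0, 0, 2, 2, 0, 0, 2, 2], []⟩)))
    (.nd (.nd (.lf ⟨[.ofNat 0, .ofNat 0, .ofNat 2432], (.dx 0 (.tr (.lf 11) (.lf 5) (.tr (.lf 6) (.lf 13) (.tr (.lf 17) (.lf 14) (.lf 18))))), 0, [2, 2, 14, 14], []⟩)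
    (.lf ⟨[.ofNat 0, .ofNat 0, .ofNat 2432], (.dx 0 (.tr (.lf 5) (.tr (.lf 6) (.lf 13) (.tr (.lf 17) (.lf 14) (.lf 18))) (.lf 11))), 0, [0, 0, 3, 3], []⟩))
    (.nd (.lf ⟨[.ofNat 0, .ofNat 0, .ofNat 2432], (.dx 0 (.tr (.lf 11) (.tr (.lf 5) (.lf 6) (.tr (.lf 17) (.lf 13) (.lf 18))) (.lf 14))), 0, [14, 14, 14, 14], []⟩)
    (.lf ⟨[.ofNat 0, .ofNat 0, .negSucc 1215], (.tr (.lf 5) (.tw (.lf 13) (.tr (.dx 0 .on) (.tr (.lf 17) (.lf 14) (.lf 18)) (.lf 11))) (.lf 6)), 0, [21, 21, 17, 17, 16, 16, 20, 20], [21, 21, 17, 17, 16, 16, 20, 20]⟩))))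

/-- data -/
def dE6x2 : RT := (.nd (.nd (.nd (.lf ⟨[.ofNat 0, .ofNat 0, .ofNat 1216], (.tr (.lf 1) (.tr (.dx 3 (.tw (.lf 11) (.lf 17))) (.lf 18) (.tw (.lf 5) (.lf 6))) (.lf 2)), 3, [13, 13, 13, 13, 12, 12, 12, 12], []⟩)
    (.lf ⟨[.ofNat 0, .ofNat 0, .ofNat 2432], (.dx 0 (.tr (.lf 5) (.lf 13) (.tr (.lf 17) (.tr (.lf 6) (.lf 14) (.lf 11)) (.lf 18)))), 0, [0, 0, 0, 0], []⟩))
    (.nd (.lf ⟨[.ofNat 0, .ofNat 0, .negSucc 4863], (.dx 0 (.tr (.lf 11) (.tr (.lf 13) (.lf 5) (.tr (.lf 17) (.lf 6) (.lf 18))) (.lf 14))), 0, [2, 2, 14, 14], []⟩)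
    (.lf ⟨[.ofNat 0, .ofNat 0, .ofNat 4864], (.dx 0 (.tr (.lf 13) (.lf 17) (.tr (.lf 11) (.lf 14) (.tr (.lf 5) (.lf 18) (.lf 6))))), 0, [13, 13, 3, 3], []⟩)))
    (.nd (.nd (.lf ⟨[.ofNat 0, .ofNat 0, .ofNat 4864], (.dx 0 (.tr (.lf 5) (.lf 13) (.tw (.lf 6) (.tr (.lf 17) (.tw (.lf 11) (.lf 14)) (.lf 18))))), 0, [0, 0, 0, 0, 1013, 13, 1013, 13], []⟩)
    (.lf ⟨[.ofNat 0, .ofNat 0, .negSucc 383, .ofNat 1152], (.tr (.dx 3 (.tw (.lf 1) (.lf 2))) (.lf 5) (.tr (.lf 17) (.tw (.lf 6) (.lf 11)) (.lf 18))), 3, [0, 0, 0, 0, 0, 0, 0, 0], []⟩))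
    (.nd (.lf ⟨[.ofNat 0, .ofNat 0, .negSucc 1663, .ofNat 512], (.tr (.dx 3 (.tw (.lf 1) (.lf 2))) (.tr (.lf 5) (.tw (.lf 6) (.lf 17)) (.lf 11)) (.lf 18)), 3, [0, 0, 2, 1017, 0, 0, 2, 1017], []⟩)
    (.lf ⟨[.ofNat 0, .ofNat 0, .ofNat 0, .negSucc 351], (.tr (.dx 3 (.tr (.lf 1) (.lf 2) (.lf 5))) (.lf 6) (.tr (.lf 17) (.lf 11) (.lf 18))), 3, [0, 0, 4, 4], []⟩))))

/-- data -/
def dE6x3 : RT := (.nd (.nd (.nd (.lf ⟨[.ofNat 0, .ofNat 0, .ofNat 0, .negSucc 703], (.tr (.lf 17) (.lf 1) (.tr (.dx 3 (.lf 11)) (.tr (.lf 5) (.lf 18) (.lf 6)) (.lf 2))), 3, [13, 13, 12, 12], []⟩)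
    (.lf ⟨[.ofNat 0, .ofNat 0, .negSucc 1215, .negSucc 1055], (.tr (.dx 3 (.tr (.lf 1) (.lf 2) (.lf 5))) (.lf 11) (.tr (.lf 17) (.lf 6) (.lf 18))), 3, [0, 0, 4, 4], []⟩))
    (.nd (.lf ⟨[.ofNat 0, .ofNat 0, .ofNat 3584, .ofNat 2816, .ofNat 64], (.tr (.dx 3 (.tr (.lf 1) (.lf 5) (.lf 2))) (.tr (.lf 6) (.lf 11) (.lf 17)) (.lf 18)), 3, [0, 0, 0, 0], []⟩)
    (.lf ⟨[.ofNat 0, .ofNat 0, .negSucc 2015, .negSucc 2559, .negSucc 31], (.tr (.dx 3 (.tr (.lf 1) (.lf 5) (.lf 2))) (.lf 17) (.tr (.lf 11) (.lf 6) (.lf 18))), 3, [0, 23, 0, 23], []⟩)))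
    (.nd (.nd (.lf ⟨[.ofNat 0, .ofNat 0, .negSucc 1791, .negSucc 1407, .negSucc 31], (.tw (.dx 3 (.tr (.lf 1) (.lf 5) (.lf 2))) (.tr (.lf 6) (.lf 11) (.tw (.lf 17) (.lf 18)))), 3, [0, 0, 21, 21, 0, 0, 21, 21], []⟩)
    (.lf ⟨[.ofNat 0, .ofNat 0, .ofNat 0, .negSucc 703], (.tr (.lf 1) (.tr (.lf 17) (.lf 18) (.tr (.lf 2) (.dx 3 (.lf 11)) (.lf 5))) (.lf 6)), 3, [9, 5, 2, 0], []⟩))
    (.nd (.lf ⟨[.ofNat 0, .ofNat 0, .ofNat 0, .ofNat 1408], (.tr (.lf 1) (.lf 17) (.tr (.lf 5) (.tr (.lf 2) (.dx 3 (.lf 11)) (.lf 6)) (.lf 18))), 3, [12, 12, 9, 5], []⟩)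
    (.lf ⟨[.ofNat 0, .ofNat 0, .negSucc 383, .ofNat 800], (.tr (.lf 5) (.lf 6) (.tr (.lf 17) (.dx 3 (.tr (.lf 1) (.lf 2) (.lf 11))) (.lf 18))), 3, [16, 20, 16, 20], []⟩))))

/-- data -/
def dE6x4 : RT := (.nd (.nd (.nd (.lf ⟨[.ofNat 0, .ofNat 6656, .negSucc 18815, .negSucc 2591, .ofNat 320], (.tr (.dx 3 (.tr (.lf 5) (.lf 1) (.lf 11))) (.lf 2) (.tr (.lf 17) (.lf 6) (.lf 18))), 3, [4, 4, 6, 6], []⟩)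
    (.lf ⟨[.ofNat 0, .ofNat 0, .negSucc 2431, .negSucc 1407], (.tr (.lf 14) (.dx 0 (.tr (.lf 5) (.tr (.lf 6) (.lf 17) (.lf 11)) (.lf 13))) (.lf 18)), 0, [0, 0, 13, 13], []⟩))
    (.nd (.lf ⟨[.ofNat 0, .ofNat 0, .negSucc 4287, .negSucc 2255], (.tr (.lf 14) (.tr (.lf 5) (.tw (.dx 0 (.tw (.lf 11) (.lf 13))) (.lf 17)) (.lf 6)) (.lf 18)), 0, [4, 4, 17, 17, 4, 4, 17, 17], []⟩)
    (.lf ⟨[.ofNat 0, .ofNat 0, .negSucc 3263, .ofNat 1312], (.tr (.lf 14) (.lf 5) (.tr (.lf 17) (.tw (.dx 0 (.tw (.lf 11) (.lf 13))) (.lf 6)) (.lf 18))), 0, [17, 17, 4, 15, 17, 17, 4, 15], []⟩)))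
    (.nd (.nd (.lf ⟨[.ofNat 0, .ofNat 0, .negSucc 9151, .ofNat 1264], (.tr (.dx 3 (.tr (.lf 11) (.lf 5) (.tr (.lf 1) (.lf 17) (.lf 2)))) (.lf 6) (.lf 18)), 3, [10, 10, 0, 0], []⟩)
    (.lf ⟨[.ofNat 0, .negSucc 6655, .ofNat 19648, .ofNat 3392, .negSucc 319], (.tw (.lf 14) (.tr (.lf 5) (.dx 0 (.tw (.lf 11) (.lf 13))) (.tr (.lf 17) (.lf 6) (.lf 18)))), 0, [4, 4, 4, 4, 5, 5, 5, 5], []⟩))
    (.nd (.lf ⟨[.ofNat 0, .ofNat 6656, .negSucc 18815, .negSucc 2591, .ofNat 320], (.tw (.lf 5) (.tr (.dx 0 (.tw (.lf 11) (.lf 13))) (.tr (.lf 17) (.lf 6) (.lf 18)) (.lf 14))), 0, [4, 4, 4, 4, 3, 3, 3, 3], []⟩)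
    (.lf ⟨[.ofNat 0, .ofNat 0, .ofNat 7488, .negSucc 2863], (.tw (.lf 14) (.tr (.lf 17) (.dx 0 (.tw (.lf 11) (.lf 13))) (.tr (.lf 5) (.lf 18) (.lf 6)))), 0, [17, 17, 17, 17, 4, 15, 4, 15], []⟩))))

/-- data -/
def dE6x5 : RT := (.nd (.nd (.nd (.lf ⟨[.ofNat 0, .ofNat 0, .negSucc 7103, .ofNat 2064], (.tr (.dx 3 (.tr (.lf 11) (.lf 1) (.lf 17))) (.lf 2) (.tr (.lf 5) (.lf 18) (.lf 6))), 3, [17, 17, 17, 17], []⟩)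
    (.lf ⟨[.ofNat 0, .ofNat 0, .ofNat 64, .negSucc 2463, .negSucc 63], (.tr (.lf 5) (.tr (.lf 17) (.tw (.dx 0 (.tw (.lf 11) (.lf 13))) (.lf 6)) (.lf 18)) (.lf 14)), 0, [16, 16, 16, 16, 16, 16, 16, 16], []⟩))
    (.nd (.lf ⟨[.ofNat 0, .ofNat 0, .negSucc 1599, .ofNat 1152], (.tw (.lf 17) (.tr (.dx 0 (.tw (.lf 11) (.lf 13))) (.tr (.lf 5) (.lf 18) (.lf 6)) (.lf 14))), 0, [14, 14, 5, 5, 3, 3, 3, 3], []⟩)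
    (.lf ⟨[.ofNat 0, .ofNat 0, .ofNat 384, .negSucc 1151], (.tr (.dx 0 (.tw (.lf 11) (.lf 13))) (.lf 5) (.tr (.lf 17) (.tw (.lf 6) (.lf 14)) (.lf 18))), 0, [2, 2, 2, 2, 2, 2, 2, 2], []⟩)))
    (.nd (.nd (.lf ⟨[.ofNat 0, .ofNat 0, .ofNat 1216], (.tw (.dx 0 (.tw (.lf 11) (.lf 13))) (.tr (.lf 17) (.lf 14) (.tr (.lf 5) (.lf 18) (.lf 6)))), 0, [2, 2, 2, 2, 17, 17, 2, 2], []⟩)
    (.lf ⟨[.ofNat 0, .ofNat 0, .negSucc 1215], (.tr (.lf 2) (.dx 3 (.tr (.lf 11) (.lf 1) (.lf 17))) (.tr (.lf 5) (.lf 18) (.lf 6))), 3, [17, 17, 21, 21], []⟩))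
    (.nd (.lf ⟨[.ofNat 0, .negSucc 13311, .ofNat 8064, .ofNat 8160], (.tr (.dx 0 (.tr (.lf 5) (.lf 11) (.tr (.lf 13) (.lf 6) (.lf 17)))) (.lf 14) (.lf 18)), 0, [0, 12, 0, 12], []⟩)
    (.lf ⟨[.ofNat 0, .ofNat 0, .ofNat 7296, .negSucc 4223], (.tr (.dx 0 (.tr (.lf 5) (.tr (.lf 6) (.lf 13) (.lf 11)) (.lf 17))) (.lf 14) (.lf 18)), 0, [0, 0, 12, 14], []⟩))))

/-- data -/
def dE6x6 : RT := (.nd (.nd (.nd (.lf ⟨[.ofNat 0, .ofNat 0, .ofNat 1664, .ofNat 1600], (.tr (.dx 0 (.tr (.lf 5) (.lf 17) (.tr (.lf 11) (.lf 6) (.lf 13)))) (.lf 14) (.lf 18)), 0, [12, 12, 2, 0], []⟩)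
    (.lf ⟨[.ofNat 0, .ofNat 0, .negSucc 1215], (.tr (.lf 2) (.lf 6) (.tr (.lf 17) (.dx 3 (.tr (.lf 1) (.lf 11) (.lf 5))) (.lf 18))), 3, [12, 12, 12, 12], []⟩))
    (.nd (.lf ⟨[.ofNat 0, .ofNat 0, .ofNat 768, .negSucc 1599], (.tr (.dx 0 (.tr (.lf 11) (.lf 5) (.tr (.lf 6) (.lf 17) (.lf 13)))) (.lf 14) (.lf 18)), 0, [14, 2, 12, 0], []⟩)
    (.lf ⟨[.ofNat 0, .ofNat 0, .ofNat 384, .negSucc 799], (.tr (.dx 3 (.tr (.lf 17) (.lf 1) (.lf 18))) (.tr (.lf 5) (.lf 6) (.lf 11)) (.lf 2)), 3, [3, 1, 3, 1], []⟩)))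
    (.nd (.nd (.lf ⟨[.ofNat 0, .ofNat 0, .negSucc 383, .ofNat 800], (.tr (.dx 3 (.tr (.lf 17) (.lf 1) (.lf 18))) (.lf 11) (.tr (.lf 2) (.lf 5) (.lf 6))), 3, [5, 1, 5, 1], []⟩)
    (.lf ⟨[.ofNat 0, .ofNat 0, .ofNat 4672, .ofNat 752], (.tr (.dx 0 (.tw (.lf 17) (.tr (.tw (.lf 5) (.lf 6)) (.lf 13) (.lf 11)))) (.lf 14) (.lf 18)), 0, [12, 12, 14, 14, 0, 0, 2, 2], []⟩))
    (.nd (.lf ⟨[.ofNat 0, .ofNat 0, .negSucc 4479, .negSucc 1503], (.tr (.dx 0 (.tr (.lf 17) (.lf 5) (.tr (.lf 6) (.lf 13) (.lf 11)))) (.lf 14) (.lf 18)), 0, [12, 12, 0, 2], []⟩)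
    (.lf ⟨[.ofNat 0, .ofNat 0, .negSucc 2431], (.tr (.dx 3 (.tr (.lf 1) (.lf 11) (.lf 5))) (.tr (.lf 17) (.lf 6) (.lf 18)) (.lf 2)), 3, [13, 13, 13, 13], []⟩))))

/-- data -/
def dE6x7 : RT := (.nd (.nd (.nd (.lf ⟨[.ofNat 0, .ofNat 0, .negSucc 1119, .negSucc 923, .negSucc 15], (.tr (.dx 3 (.tr (.lf 5) (.tw (.lf 1) (.lf 2)) (.lf 11))) (.lf 6) (.tw (.lf 17) (.lf 18))), 3, [4, 4, 4, 4, 6, 6, 6, 6], []⟩)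
    (.lf ⟨[.ofNat 0, .ofNat 0, .ofNat 2240, .ofNat 1848, .ofNat 32], (.tr (.dx 3 (.tr (.tw (.lf 1) (.lf 5)) (.lf 2) (.lf 11))) (.lf 6) (.tw (.lf 17) (.lf 18))), 3, [0, 0, 4, 4, 6, 6, 6, 6], []⟩))
    (.nd (.lf ⟨[.ofNat 0, .ofNat 0, .negSucc 1007, .negSucc 1279, .negSucc 15], (.tr (.dx 3 (.tr (.lf 1) (.tw (.lf 5) (.lf 11)) (.lf 2))) (.tw (.lf 17) (.lf 18)) (.lf 6)), 3, [17, 17, 17, 17, 17, 17, 17, 17], []⟩)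
    (.lf ⟨[.ofNat 0, .ofNat 0, .negSucc 2015, .negSucc 2559, .negSucc 31], (.tr (.tw (.dx 0 (.tr (.lf 5) (.lf 17) (.tw (.lf 13) (.lf 14)))) (.lf 11)) (.lf 6) (.lf 18)), 0, [12, 12, 0, 0, 18, 18, 6, 6], []⟩)))
    (.nd (.nd (.lf ⟨[.ofNat 0, .ofNat 0, .negSucc 2015, .negSucc 2559, .negSucc 31], (.tr (.dx 0 (.tw (.lf 11) (.tr (.lf 5) (.lf 17) (.tw (.lf 13) (.lf 14))))) (.lf 6) (.lf 18)), 0, [14, 14, 2, 2, 12, 12, 0, 0], []⟩)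
    (.lf ⟨[.ofNat 0, .ofNat 0, .ofNat 2016, .ofNat 2560, .ofNat 32], (.tr (.tw (.lf 6) (.lf 11)) (.dx 0 (.tr (.lf 5) (.tw (.lf 13) (.lf 14)) (.lf 17))) (.lf 18)), 0, [8, 8, 20, 20, 10, 10, 22, 22], []⟩))
    (.nd (.lf ⟨[.ofNat 0, .ofNat 0, .negSucc 3135, .negSucc 511, .negSucc 63], (.tr (.dx 0 (.tr (.lf 11) (.lf 13) (.tr (.lf 5) (.lf 17) (.lf 14)))) (.lf 6) (.lf 18)), 0, [2, 2, 12, 0], []⟩)
    (.lf ⟨[.ofNat 0, .ofNat 0, .ofNat 2368, .ofNat 2816, .ofNat 64], (.tr (.dx 0 (.tr (.lf 13) (.lf 17) (.tr (.lf 5) (.lf 14) (.lf 11)))) (.lf 6) (.lf 18)), 0, [0, 2, 0, 2], []⟩))))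

/-- data -/
def dE6x8 : RT := (.nd (.nd (.nd (.lf ⟨[.ofNat 0, .ofNat 0, .negSucc 10431, .negSucc 9327, .negSucc 191], (.tr (.dx 0 (.tr (.lf 5) (.lf 13) (.tr (.lf 11) (.lf 17) (.lf 14)))) (.lf 6) (.lf 18)), 0, [0, 0, 14, 2], []⟩)
    (.lf ⟨[.ofNat 0, .ofNat 0, .negSucc 5215, .negSucc 4663, .negSucc 95], (.tr (.dx 3 (.tr (.lf 17) (.lf 18) (.tr (.lf 1) (.lf 5) (.lf 2)))) (.lf 11) (.lf 6)), 3, [9, 9, 9, 9], []⟩))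
    (.nd (.lf ⟨[.ofNat 0, .ofNat 0, .ofNat 5664, .ofNat 5104, .ofNat 96], (.tr (.dx 0 (.tw (.lf 5) (.tr (.lf 13) (.tw (.lf 11) (.lf 17)) (.lf 14)))) (.lf 6) (.lf 18)), 0, [0, 0, 0, 0, 2, 2, 2, 2], []⟩)
    (.lf ⟨[.ofNat 0, .ofNat 0, .negSucc 8063, .negSucc 6511, .negSucc 127], (.tr (.dx 0 (.tr (.lf 5) (.lf 13) (.tr (.lf 14) (.lf 11) (.lf 17)))) (.lf 6) (.lf 18)), 0, [0, 0, 2, 14], []⟩)))
    (.nd (.nd (.lf ⟨[.ofNat 0, .ofNat 0, .ofNat 1216], (.tr (.dx 0 (.tr (.lf 17) (.lf 11) (.tr (.lf 5) (.lf 13) (.lf 14)))) (.lf 6) (.lf 18)), 0, [14, 14, 0, 0], []⟩)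
    (.lf ⟨[.ofNat 0, .ofNat 0, .negSucc 14143, .ofNat 14512, .ofNat 192], (.tr (.lf 6) (.dx 0 (.tr (.lf 5) (.tr (.lf 11) (.lf 17) (.lf 13)) (.lf 14))) (.lf 18)), 0, [16, 4, 4, 4], []⟩))
    (.nd (.lf ⟨[.ofNat 0, .ofNat 0, .ofNat 1216, .negSucc 2191, .negSucc 63], (.tr (.lf 6) (.dx 0 (.tw (.lf 5) (.tr (.lf 13) (.tw (.lf 11) (.lf 17)) (.lf 14)))) (.lf 18)), 0, [4, 4, 4, 4, 4, 4, 4, 4], []⟩)
    (.lf ⟨[.ofNat 0, .ofNat 0, .negSucc 1631, .negSucc 1847, .negSucc 31], (.tw (.lf 18) (.tr (.lf 1) (.dx 3 (.tw (.lf 11) (.lf 17))) (.tr (.lf 5) (.lf 2) (.lf 6)))), 3, [5, 5, 5, 5, 3, 3, 3, 3], []⟩))))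

/-- data -/
def dE6x9 : RT := (.nd (.nd (.nd (.lf ⟨[.ofNat 0, .ofNat 0, .negSucc 7487, .ofNat 3216], (.tr (.dx 3 (.tr (.lf 1) (.lf 17) (.lf 11))) (.lf 18) (.tr (.lf 5) (.lf 2) (.lf 6))), 3, [17, 17, 17, 17], []⟩)
    (.lf ⟨[.ofNat 0, .ofNat 0, .negSucc 7071, .ofNat 7256, .ofNat 96], (.tr (.dx 3 (.tr (.lf 1) (.lf 17) (.lf 18))) (.lf 11) (.tr (.lf 5) (.lf 2) (.lf 6))), 3, [5, 5, 5, 5], []⟩))
    (.nd (.lf ⟨[.ofNat 0, .ofNat 0, .negSucc 2239, .negSucc 1847, .negSucc 31], (.tw (.lf 14) (.tr (.lf 6) (.dx 0 (.tr (.lf 5) (.lf 11) (.lf 13))) (.tw (.lf 17) (.lf 18)))), 0, [4, 4, 4, 4, 5, 5, 5, 5], []⟩)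
    (.lf ⟨[.ofNat 0, .ofNat 0, .ofNat 5216, .ofNat 4664, .ofNat 96], (.tw (.lf 14) (.tr (.dx 0 (.tr (.lf 5) (.lf 13) (.lf 11))) (.lf 6) (.tw (.lf 17) (.lf 18)))), 0, [0, 0, 2, 2, 3, 1, 3, 1], []⟩)))
    (.nd (.nd (.lf ⟨[.ofNat 0, .ofNat 0, .ofNat 1216], (.tr (.lf 14) (.dx 0 (.tr (.lf 5) (.lf 13) (.lf 11))) (.tr (.lf 6) (.lf 17) (.lf 18))), 0, [0, 17, 2, 17], []⟩)
    (.lf ⟨[.ofNat 0, .ofNat 0, .ofNat 9312, .negSucc 5407, .negSucc 63], (.tw (.lf 6) (.tr (.dx 0 (.tr (.lf 5) (.lf 11) (.lf 13))) (.tw (.lf 17) (.lf 18)) (.lf 14))), 0, [4, 4, 4, 4, 3, 1, 3, 1], []⟩))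
    (.nd (.lf ⟨[.ofNat 0, .ofNat 0, .negSucc 2367, .ofNat 8896, .ofNat 128], (.tr (.dx 0 (.tr (.lf 5) (.lf 11) (.lf 13))) (.lf 17) (.tr (.lf 6) (.lf 14) (.lf 18))), 0, [0, 0, 2, 2], []⟩)
    (.lf ⟨[.ofNat 0, .ofNat 13312, .negSucc 15359, .negSucc 3935], (.tr (.lf 6) (.dx 3 (.tr (.lf 1) (.lf 17) (.tr (.lf 5) (.lf 2) (.lf 11)))) (.lf 18)), 3, [4, 4, 4, 8], []⟩))))

/-- data -/
def dE6x10 : RT := (.nd (.nd (.nd (.lf ⟨[.ofNat 0, .negSucc 13311, .ofNat 23040, .ofNat 2432], (.tr (.lf 17) (.lf 14) (.tr (.dx 0 (.tr (.lf 5) (.lf 11) (.lf 13))) (.lf 18) (.lf 6))), 0, [17, 17, 3, 1], []⟩)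
    (.lf ⟨[.ofNat 0, .ofNat 0, .negSucc 2655, .negSucc 3695, .negSucc 63], (.tw (.dx 0 (.tr (.lf 5) (.lf 11) (.lf 13))) (.tr (.lf 17) (.tw (.lf 6) (.lf 14)) (.lf 18))), 0, [0, 0, 0, 0, 2, 2, 2, 2], []⟩))
    (.nd (.lf ⟨[.ofNat 0, .ofNat 0, .negSucc 5695, .ofNat 688, .ofNat 64], (.tr (.lf 6) (.dx 0 (.tr (.lf 13) (.lf 17) (.tr (.lf 5) (.lf 14) (.lf 11)))) (.lf 18)), 0, [4, 4, 4, 4], []⟩)
    (.lf ⟨[.ofNat 0, .ofNat 0, .negSucc 1215], (.tr (.dx 0 (.tr (.lf 5) (.lf 11) (.lf 13))) (.lf 17) (.tr (.lf 14) (.lf 6) (.lf 18))), 0, [0, 0, 2, 2], []⟩)))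
    (.nd (.nd (.lf ⟨[.ofNat 0, .ofNat 0, .negSucc 8063, .negSucc 6511, .negSucc 127], (.tr (.lf 6) (.dx 0 (.tr (.lf 11) (.tr (.lf 13) (.lf 5) (.lf 17)) (.lf 14))) (.lf 18)), 0, [4, 16, 4, 4], []⟩)
    (.lf ⟨[.ofNat 0, .ofNat 0, .ofNat 6848, .ofNat 6512, .ofNat 128], (.tr (.lf 6) (.dx 0 (.tr (.lf 13) (.lf 14) (.tr (.lf 5) (.lf 17) (.lf 11)))) (.lf 18)), 0, [4, 4, 16, 16], []⟩))
    (.nd (.lf ⟨[.ofNat 0, .ofNat 0, .negSucc 1215], (.tr (.dx 3 (.tr (.lf 1) (.tw (.lf 17) (.lf 18)) (.lf 5))) (.lf 11) (.tw (.lf 2) (.lf 6))), 3, [5, 1, 5, 1, 5, 1, 5, 1], []⟩)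
    (.lf ⟨[.ofNat 0, .ofNat 0, .ofNat 6528, .ofNat 7392, .ofNat 128], (.tr (.lf 17) (.lf 6) (.tr (.dx 0 (.tr (.lf 5) (.lf 11) (.lf 13))) (.lf 18) (.lf 14))), 0, [16, 16, 3, 1], []⟩))))

/-- data -/
def dE6x11 : RT := (.nd (.nd (.nd (.lf ⟨[.ofNat 0, .negSucc 6655, .ofNat 5568, .ofNat 3664], (.tw (.lf 6) (.tr (.lf 17) (.tw (.dx 0 (.tr (.lf 5) (.lf 11) (.lf 13))) (.lf 14)) (.lf 18))), 0, [16, 16, 16, 16, 16, 16, 16, 16], []⟩)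
    (.lf ⟨[.ofNat 0, .ofNat 0, .ofNat 1216], (.tr (.dx 0 (.tr (.lf 5) (.lf 13) (.lf 14))) (.lf 17) (.tr (.lf 11) (.lf 6) (.lf 18))), 0, [0, 0, 0, 23], []⟩))
    (.nd (.lf ⟨[.ofNat 0, .ofNat 0, .negSucc 1215], (.tr (.lf 6) (.lf 17) (.tr (.lf 11) (.dx 0 (.tr (.lf 5) (.lf 13) (.lf 14))) (.lf 18))), 0, [20, 20, 7, 7], []⟩)
    (.lf ⟨[.ofNat 0, .ofNat 0, .negSucc 607], (.tw (.lf 11) (.tr (.dx 0 (.tr (.lf 5) (.lf 13) (.lf 14))) (.tw (.lf 17) (.lf 18)) (.lf 6))), 0, [6, 6, 6, 6, 22, 1, 22, 1], []⟩)))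
    (.nd (.nd (.lf ⟨[.ofNat 0, .ofNat 0, .ofNat 2432], (.tr (.lf 6) (.tr (.dx 0 (.tr (.lf 5) (.lf 13) (.lf 14))) (.lf 17) (.lf 18)) (.lf 11)), 0, [4, 4, 7, 7], []⟩)
    (.lf ⟨[.ofNat 0, .ofNat 0, .negSucc 4799, .negSucc 2815, .negSucc 63], (.tw (.lf 6) (.tr (.dx 0 (.tr (.lf 5) (.lf 13) (.lf 14))) (.tw (.lf 17) (.lf 18)) (.lf 11))), 0, [4, 4, 4, 4, 20, 1, 20, 1], []⟩))
    (.nd (.lf ⟨[.ofNat 0, .ofNat 0, .ofNat 6880, .ofNat 2912, .ofNat 32], (.tr (.lf 6) (.dx 0 (.tw (.lf 11) (.tr (.lf 13) (.tw (.lf 5) (.lf 17)) (.lf 14)))) (.lf 18)), 0, [4, 4, 4, 4, 4, 4, 4, 4], []⟩)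
    (.lf ⟨[.ofNat 0, .ofNat 0, .negSucc 4031, .negSucc 5119, .negSucc 63], (.tr (.lf 6) (.dx 0 (.tr (.lf 13) (.lf 5) (.tr (.lf 11) (.lf 14) (.lf 17)))) (.lf 18)), 0, [4, 4, 4, 16], []⟩))))

/-- data -/
def dE6x12 : RT := (.nd (.nd (.nd (.lf ⟨[.ofNat 0, .ofNat 0, .ofNat 4032, .ofNat 5120, .ofNat 64], (.tr (.lf 6) (.dx 0 (.tr (.lf 17) (.lf 13) (.tr (.lf 11) (.lf 5) (.lf 14)))) (.lf 18)), 0, [16, 16, 4, 4], []⟩)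
    (.lf ⟨[.ofNat 0, .ofNat 0, .negSucc 319, .ofNat 880], (.tw (.dx 0 (.tr (.lf 11) (.tr (.lf 13) (.lf 5) (.tw (.lf 17) (.lf 18))) (.lf 14))) (.lf 6)), 0, [2, 2, 5, 5, 17, 17, 5, 5], []⟩))
    (.nd (.lf ⟨[.ofNat 0, .ofNat 0, .ofNat 320, .negSucc 879], (.tw (.dx 0 (.tr (.lf 13) (.lf 14) (.tr (.lf 5) (.tw (.lf 17) (.lf 18)) (.lf 11)))) (.lf 6)), 0, [17, 17, 17, 17, 1017, 1017, 5, 5], []⟩)
    (.lf ⟨[.ofNat 0, .ofNat 0, .ofNat 320, .negSucc 879], (.tr (.dx 0 (.lf 5)) (.lf 13) (.tw (.lf 14) (.tr (.lf 6) (.tw (.lf 17) (.lf 18)) (.lf 11)))), 0, [0, 0, 0, 0, 0, 0, 0, 0], [1023, 1023, 1017, 1017, 0, 0, 2, 2]⟩)))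
    (.nd (.nd (.lf ⟨[.ofNat 0, .ofNat 0, .ofNat 6528, .ofNat 7392, .ofNat 128], (.tr (.dx 0 (.lf 5)) (.lf 13) (.tr (.lf 11) (.lf 17) (.tr (.lf 14) (.lf 6) (.lf 18)))), 0, [0, 0, 0, 0], [2, 2, 1023, 1023]⟩)
    (.lf ⟨[.ofNat 0, .ofNat 0, .ofNat 320, .negSucc 879], (.tw (.dx 0 (.tr (.lf 11) (.lf 13) (.tr (.lf 5) (.tw (.lf 17) (.lf 18)) (.lf 14)))) (.lf 6)), 0, [2, 2, 17, 17, 5, 5, 5, 5], []⟩))
    (.nd (.lf ⟨[.ofNat 0, .ofNat 0, .ofNat 5120, .ofNat 1936, .ofNat 64], (.tw (.dx 0 (.tw (.lf 5) (.tr (.lf 13) (.lf 14) (.tr (.lf 11) (.lf 17) (.lf 18))))) (.lf 6)), 0, [1017, 17, 12, 1017, 17, 17, 5, 5], []⟩)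
    (.lf ⟨[.ofNat 0, .ofNat 0, .ofNat 4480, .ofNat 3696, .ofNat 64], (.tr (.dx 0 (.lf 5)) (.tr (.lf 13) (.lf 14) (.tr (.lf 11) (.lf 17) (.lf 18))) (.lf 6)), 0, [0, 0, 12, 12], [1017, 21, 14, 1017]⟩))))

/-- data -/
def dE6x13 : RT := (.nd (.nd (.nd (.lf ⟨[.ofNat 0, .ofNat 0, .negSucc 4799, .negSucc 2815, .negSucc 63], (.tw (.dx 0 (.tr (.lf 13) (.lf 14) (.tr (.lf 5) (.lf 11) (.tw (.lf 17) (.lf 18))))) (.lf 6)), 0, [17, 17, 17, 17, 12, 12, 5, 5], []⟩)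
    (.lf ⟨[.ofNat 0, .ofNat 13312, .negSucc 20991, .ofNat 3456, .ofNat 128], (.tr (.lf 17) (.dx 3 (.tr (.lf 1) (.lf 5) (.lf 11))) (.tr (.lf 2) (.lf 18) (.lf 6))), 3, [17, 13, 17, 13], []⟩))
    (.nd (.lf ⟨[.ofNat 0, .ofNat 6656, .negSucc 6591, .negSucc 6607, .negSucc 63], (.tw (.lf 2) (.tr (.lf 17) (.tw (.dx 3 (.tr (.lf 5) (.lf 1) (.lf 11))) (.lf 6)) (.lf 18))), 3, [12, 14, 12, 12, 12, 14, 12, 12], []⟩)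
    (.lf ⟨[.ofNat 0, .ofNat 0, .ofNat 2048, .ofNat 5888, .ofNat 128], (.tr (.lf 17) (.lf 2) (.tr (.dx 3 (.tr (.lf 1) (.lf 5) (.lf 11))) (.lf 18) (.lf 6))), 3, [21, 17, 11, 1], []⟩)))
    (.nd (.nd (.lf ⟨[.ofNat 0, .ofNat 0, .ofNat 1152, .negSucc 8895, .negSucc 127], (.tr (.lf 2) (.lf 17) (.tr (.lf 6) (.dx 3 (.tr (.lf 1) (.lf 5) (.lf 11))) (.lf 18))), 3, [12, 12, 9, 5], []⟩)
    (.lf ⟨[.ofNat 0, .ofNat 0, .negSucc 8703, .ofNat 5408, .ofNat 64], (.tw (.lf 2) (.tr (.dx 3 (.tr (.lf 5) (.lf 1) (.lf 11))) (.tw (.lf 17) (.lf 18)) (.lf 6))), 3, [0, 0, 2, 2, 12, 12, 12, 12], []⟩))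
    (.nd (.lf ⟨[.ofNat 0, .ofNat 0, .negSucc 3583, .negSucc 2815, .negSucc 63], (.tw (.dx 3 (.tr (.lf 5) (.lf 1) (.lf 11))) (.tr (.lf 2) (.lf 6) (.tw (.lf 17) (.lf 18)))), 3, [4, 4, 13, 13, 6, 6, 13, 13], []⟩)
    (.lf ⟨[.ofNat 0, .ofNat 0, .negSucc 3967, .negSucc 1663, .negSucc 63], (.tw (.dx 3 (.tr (.lf 1) (.lf 5) (.lf 11))) (.tr (.lf 17) (.tw (.lf 2) (.lf 6)) (.lf 18))), 3, [0, 0, 0, 0, 10, 10, 10, 10], []⟩))))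

/-- data -/
def dE6x14 : RT := (.nd (.nd (.nd (.lf ⟨[.ofNat 0, .ofNat 0, .negSucc 767, .ofNat 2304], (.tr (.lf 17) (.lf 2) (.tr (.dx 3 (.tr (.lf 5) (.lf 1) (.lf 11))) (.lf 18) (.lf 6))), 3, [21, 17, 7, 5], []⟩)
    (.lf ⟨[.ofNat 0, .ofNat 0, .ofNat 4992, .negSucc 127], (.tr (.dx 3 (.lf 17)) (.tr (.lf 1) (.tr (.lf 2) (.lf 11) (.lf 5)) (.lf 6)) (.lf 18)), 3, [21, 17, 13, 15], [1017, 1017, 1017, 1017]⟩))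
    (.nd (.lf ⟨[.ofNat 0, .ofNat 0, .negSucc 6207, .negSucc 2415, .negSucc 63], (.tw (.lf 13) (.tr (.lf 17) (.tr (.lf 6) (.dx 0 (.tw (.lf 5) (.lf 11))) (.lf 14)) (.lf 18))), 0, [4, 1017, 17, 17, 4, 1017, 17, 17], []⟩)
    (.lf ⟨[.ofNat 0, .ofNat 0, .negSucc 1823, .negSucc 1447, .negSucc 31], (.tw (.lf 13) (.tr (.lf 6) (.dx 0 (.tw (.lf 5) (.lf 11))) (.tr (.lf 17) (.lf 14) (.lf 18)))), 0, [4, 4, 4, 4, 17, 17, 17, 17], []⟩)))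
    (.nd (.nd (.lf ⟨[.ofNat 0, .ofNat 0, .ofNat 1824, .ofNat 1448, .ofNat 32], (.tw (.lf 13) (.tr (.dx 0 (.tw (.lf 5) (.lf 11))) (.lf 6) (.tr (.lf 17) (.lf 14) (.lf 18)))), 0, [0, 0, 2, 2, 15, 13, 15, 13], []⟩)
    (.lf ⟨[.ofNat 0, .ofNat 0, .ofNat 9248, .ofNat 2592, .ofNat 64], (.tr (.dx 3 (.lf 17)) (.tr (.lf 1) (.lf 11) (.tr (.lf 5) (.lf 2) (.lf 6))) (.lf 18)), 3, [17, 17, 15, 15], [17, 17, 4, 4]⟩))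
    (.nd (.lf ⟨[.ofNat 0, .ofNat 0, .negSucc 1215, .ofNat 1272, .ofNat 32], (.tr (.dx 3 (.lf 17)) (.tw (.lf 1) (.tr (.lf 5) (.tw (.lf 2) (.lf 11)) (.lf 6))) (.lf 18)), 3, [21, 17, 21, 17, 13, 13, 13, 13], [0, 1017, 0, 1017, 1017, 13, 1017, 13]⟩)
    (.lf ⟨[.ofNat 0, .ofNat 0, .negSucc 4863, .negSucc 2895, .negSucc 63], (.tr (.dx 3 (.lf 17)) (.lf 1) (.tr (.lf 11) (.tr (.lf 5) (.lf 2) (.lf 6)) (.lf 18))), 3, [17, 17, 23, 23], [17, 17, 23, 23]⟩))))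

/-- data -/
def dE6x15 : RT := (.nd (.nd (.nd (.lf ⟨[.ofNat 0, .ofNat 0, .negSucc 4479, .negSucc 3695, .negSucc 63], (.tr (.lf 18) (.lf 1) (.tr (.dx 3 (.lf 17)) (.tr (.lf 5) (.lf 2) (.lf 6)) (.lf 11))), 3, [11, 11, 14, 14], [11, 11, 5, 5]⟩)
    (.lf ⟨[.ofNat 0, .ofNat 0, .ofNat 5616, .negSucc 955, .ofNat 8], (.tr (.lf 14) (.lf 5) (.tr (.dx 0 (.lf 13)) (.tr (.lf 9) (.lf 6) (.lf 10)) (.lf 19))), 0, [23, 23, 3, 3], [23, 23, 15, 15]⟩))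
    (.nd (.lf ⟨[.ofNat 0, .ofNat 0, .ofNat 1824, .ofNat 1448, .ofNat 32], (.tr (.dx 3 (.lf 17)) (.lf 18) (.tr (.lf 1) (.lf 11) (.tr (.lf 5) (.lf 2) (.lf 6)))), 3, [17, 17, 15, 15], [17, 17, 15, 15]⟩)
    (.lf ⟨[.ofNat 0, .ofNat 0, .ofNat 1216, .ofNat 352], (.tr (.lf 1) (.tr (.dx 3 (.lf 17)) (.tr (.lf 2) (.lf 11) (.lf 5)) (.lf 18)) (.lf 6)), 3, [21, 17, 14, 12], [1017, 1017, 1017, 1017]⟩)))
    (.nd (.nd (.lf ⟨[.ofNat 0, .ofNat 0, .negSucc 3647, .negSucc 2895, .negSucc 63], (.tr (.lf 1) (.lf 11) (.tr (.dx 3 (.lf 17)) (.lf 18) (.tr (.lf 5) (.lf 2) (.lf 6)))), 3, [17, 17, 14, 14], [17, 17, 14, 14]⟩)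
    (.lf ⟨[.ofNat 0, .ofNat 0, .ofNat 608, .ofNat 1448, .ofNat 32], (.tr (.dx 0 (.lf 5)) (.tr (.lf 11) (.lf 13) (.tr (.lf 17) (.lf 14) (.lf 18))) (.lf 6)), 0, [0, 0, 12, 12], [2, 2, 9, 9]⟩))
    (.nd (.lf ⟨[.ofNat 0, .ofNat 0, .negSucc 607, .negSucc 1447, .negSucc 31], (.tw (.dx 0 (.tw (.lf 5) (.tr (.lf 11) (.lf 13) (.tr (.lf 17) (.lf 14) (.lf 18))))) (.lf 6)), 0, [0, 0, 5, 5, 17, 17, 5, 5], []⟩)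
    (.lf ⟨[.ofNat 0, .ofNat 0, .negSucc 1663, .ofNat 4800, .negSucc 159], (.tr (.dx 0 .on) (.tr (.lf 11) (.lf 13) (.tr (.lf 17) (.lf 14) (.lf 18))) (.lf 7)), 0, [2, 2, 14, 14], [2, 2, 9, 9]⟩))))

/-- data -/
def dE6x16 : RT := (.nd (.nd (.nd (.lf ⟨[.ofNat 0, .ofNat 0, .ofNat 2432], (.tw (.dx 0 (.tw (.lf 13) (.tr (.lf 5) (.lf 11) (.tr (.lf 17) (.lf 14) (.lf 18))))) (.lf 6)), 0, [17, 17, 17, 17, 12, 12, 5, 5], []⟩)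
    (.lf ⟨[.ofNat 0, .ofNat 0, .ofNat 448, .negSucc 3263, .negSucc 63], (.tr (.dx 3 (.tr (.lf 1) (.lf 2) (.lf 17))) (.lf 11) (.tr (.lf 5) (.lf 18) (.lf 6))), 3, [21, 21, 21, 21], []⟩))
    (.nd (.lf ⟨[.ofNat 0, .ofNat 0, .ofNat 896, .negSucc 6527, .negSucc 127], (.tr (.lf 6) (.dx 3 (.tr (.lf 1) (.tr (.lf 2) (.lf 17) (.lf 11)) (.lf 5))) (.lf 18)), 3, [4, 4, 4, 8], []⟩)
    (.lf ⟨[.ofNat 0, .ofNat 0, .negSucc 9535, .ofNat 1712], (.tw (.lf 18) (.tr (.dx 3 (.tr (.lf 1) (.lf 17) (.lf 5))) (.lf 11) (.tw (.lf 2) (.lf 6)))), 3, [5, 1, 5, 1, 12, 12, 16, 16], [5, 1, 1023, 1015]⟩)))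
    (.nd (.nd (.lf ⟨[.ofNat 0, .ofNat 13312, .negSucc 19839, .negSucc 5439], (.tr (.lf 14) (.lf 18) (.tr (.dx 0 (.tr (.lf 13) (.lf 5) (.lf 17))) (.lf 6) (.lf 11))), 0, [23, 11, 13, 1], [23, 13]⟩)
    (.lf ⟨[.ofNat 0, .ofNat 13312, .ofNat 3712, .negSucc 7359], (.tr (.lf 18) (.dx 3 (.tr (.lf 1) (.lf 17) (.lf 5))) (.tr (.lf 2) (.lf 6) (.lf 11))), 3, [11, 1, 11, 1], [11, 1]⟩))
    (.nd (.lf ⟨[.ofNat 0, .ofNat 0, .negSucc 1215, .ofNat 352], (.tr (.dx 3 (.tr (.lf 1) (.lf 17) (.lf 5))) (.lf 18) (.tr (.lf 2) (.lf 11) (.lf 6))), 3, [21, 15, 21, 15], [21, 15]⟩)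
    (.lf ⟨[.ofNat 0, .ofNat 0, .ofNat 9536, .negSucc 1711], (.tw (.dx 3 (.tr (.lf 1) (.lf 17) (.lf 5))) (.tr (.lf 11) (.tw (.lf 2) (.lf 6)) (.lf 18))), 3, [17, 13, 23, 19, 17, 13, 23, 19], [1015, 1023, 23, 19]⟩))))

/-- data -/
def dE6x17 : RT := (.nd (.nd (.nd (.lf ⟨[.ofNat 0, .ofNat 0, .negSucc 5375, .ofNat 224], (.tr (.dx 3 (.tr (.lf 1) (.lf 17) (.lf 5))) (.lf 18) (.tr (.lf 2) (.lf 6) (.lf 11))), 3, [23, 13, 23, 13], [23, 13]⟩)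
    (.lf ⟨[.ofNat 0, .ofNat 0, .negSucc 191, .ofNat 400], (.tr (.lf 18) (.dx 3 (.tw (.lf 11) (.lf 17))) (.tr (.tw (.lf 1) (.lf 2)) (.lf 5) (.lf 6))), 3, [5, 5, 1, 1, 5, 5, 1, 1], []⟩))
    (.nd (.lf ⟨[.ofNat 0, .ofNat 0, .negSucc 383, .ofNat 1152], (.tr (.dx 3 (.tw (.lf 11) (.lf 17))) (.tr (.tw (.lf 1) (.lf 2)) (.lf 5) (.lf 6)) (.lf 18)), 3, [17, 17, 13, 13, 17, 17, 13, 13], []⟩)
    (.lf ⟨[.ofNat 0, .ofNat 0, .ofNat 1216], (.tr (.lf 1) (.tr (.dx 3 (.tw (.lf 11) (.lf 17))) (.tw (.lf 5) (.lf 6)) (.lf 18)) (.lf 2)), 3, [13, 13, 13, 13, 12, 12, 12, 12], []⟩)))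
    (.nd (.nd (.lf ⟨[.ofNat 0, .ofNat 0, .ofNat 4864], (.dx 0 (.tr (.lf 13) (.lf 5) (.tr (.lf 6) (.lf 17) (.tr (.lf 14) (.lf 11) (.lf 18))))), 0, [0, 0, 13, 13], []⟩)
    (.lf ⟨[.ofNat 0, .ofNat 0, .negSucc 4863], (.dx 0 (.tr (.lf 13) (.lf 17) (.tr (.lf 11) (.lf 14) (.tr (.lf 5) (.lf 6) (.lf 18))))), 0, [13, 13, 3, 3], []⟩))
    (.nd (.lf ⟨[.ofNat 0, .ofNat 0, .ofNat 1216], (.tr (.lf 5) (.tr (.lf 11) (.lf 13) (.tr (.dx 0 .on) (.tw (.lf 17) (.lf 18)) (.lf 14))) (.lf 6)), 0, [8, 8, 17, 17, 16, 16, 9, 9], [8, 8, 1023, 1023, 1023, 1023, 9, 9]⟩)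
    (.lf ⟨[.ofNat 0, .ofNat 0, .ofNat 2400, .ofNat 1408, .ofNat 32], (.tr (.dx 3 (.tr (.lf 1) (.lf 11) (.lf 17))) (.tr (.lf 5) (.lf 2) (.lf 6)) (.lf 18)), 3, [17, 17, 17, 17], []⟩))))

/-- data -/
def dE6x18 : RT := (.nd (.nd (.nd (.lf ⟨[.ofNat 0, .ofNat 0, .negSucc 9599, .negSucc 5631, .negSucc 127], (.tr (.lf 2) (.lf 5) (.tr (.dx 3 (.tr (.lf 1) (.lf 11) (.lf 17))) (.lf 18) (.lf 6))), 3, [0, 0, 12, 12], []⟩)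
    (.lf ⟨[.ofNat 0, .ofNat 0, .negSucc 9599, .negSucc 5631, .negSucc 127], (.tr (.lf 2) (.lf 5) (.tr (.lf 6) (.dx 3 (.tr (.lf 11) (.lf 1) (.lf 17))) (.lf 18))), 3, [0, 0, 12, 12], []⟩))
    (.nd (.lf ⟨[.ofNat 0, .ofNat 0, .ofNat 7168, .ofNat 5632, .ofNat 128], (.tr (.lf 2) (.tr (.dx 3 (.tr (.lf 11) (.lf 1) (.lf 17))) (.lf 5) (.lf 6)) (.lf 18)), 3, [2, 2, 0, 0], []⟩)
    (.lf ⟨[.ofNat 0, .ofNat 0, .negSucc 1151, .negSucc 2463, .negSucc 63], (.tw (.lf 2) (.tr (.dx 3 (.tr (.lf 11) (.lf 1) (.lf 17))) (.tw (.lf 5) (.lf 6)) (.lf 18))), 3, [2, 2, 2, 2, 12, 12, 12, 12], []⟩)))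
    (.nd (.nd (.lf ⟨[.ofNat 0, .ofNat 0, .ofNat 768, .negSucc 1599], (.tr (.dx 3 (.tr (.lf 11) (.lf 1) (.lf 17))) (.tr (.lf 5) (.lf 6) (.lf 18)) (.lf 2)), 3, [13, 13, 13, 13], []⟩)
    (.lf ⟨[.ofNat 0, .ofNat 0, .negSucc 767, .ofNat 1600], (.tr (.dx 3 (.tr (.lf 11) (.lf 1) (.lf 17))) (.lf 18) (.tr (.lf 2) (.lf 5) (.lf 6))), 3, [17, 13, 17, 13], []⟩))
    (.nd (.lf ⟨[.ofNat 0, .ofNat 0, .ofNat 1152, .negSucc 3103], (.tr (.lf 5) (.tr (.lf 6) (.dx 0 (.tr (.lf 11) (.lf 13) (.lf 17))) (.lf 18)) (.lf 14)), 0, [4, 16, 16, 16], []⟩)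
    (.lf ⟨[.ofNat 0, .ofNat 0, .negSucc 1791, .ofNat 1552], (.tw (.lf 14) (.tr (.lf 5) (.tw (.dx 0 (.tr (.lf 11) (.lf 13) (.lf 17))) (.lf 18)) (.lf 6))), 0, [17, 17, 17, 5, 17, 17, 17, 5], []⟩))))

/-- data -/
def dE6x19 : RT := (.nd (.nd (.nd (.lf ⟨[.ofNat 0, .ofNat 0, .ofNat 3584, .negSucc 3103], (.tr (.lf 5) (.dx 0 (.tr (.lf 11) (.lf 13) (.lf 17))) (.tr (.lf 14) (.lf 6) (.lf 18))), 0, [4, 4, 16, 16], []⟩)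
    (.lf ⟨[.ofNat 0, .ofNat 0, .negSucc 3455, .negSucc 751], (.tw (.lf 14) (.tr (.lf 5) (.tw (.dx 0 (.tr (.lf 11) (.lf 17) (.lf 13))) (.lf 18)) (.lf 6))), 0, [17, 17, 5, 17, 17, 17, 5, 17], []⟩))
    (.nd (.lf ⟨[.ofNat 0, .ofNat 0, .ofNat 2432], (.tr (.lf 5) (.lf 14) (.tr (.dx 0 (.tr (.lf 11) (.lf 13) (.lf 17))) (.lf 6) (.lf 18))), 0, [4, 4, 4, 3], []⟩)
    (.lf ⟨[.ofNat 0, .ofNat 0, .negSucc 607], (.tr (.lf 2) (.tw (.dx 3 (.tr (.lf 17) (.tw (.lf 1) (.lf 5)) (.lf 18))) (.lf 11)) (.lf 6)), 3, [9, 9, 9, 9, 2, 2, 2, 2], []⟩)))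
    (.nd (.nd (.lf ⟨[.ofNat 0, .ofNat 0, .ofNat 4864], (.tr (.lf 14) (.lf 5) (.tr (.dx 0 (.tr (.lf 11) (.lf 17) (.lf 13))) (.lf 18) (.lf 6))), 0, [17, 17, 3, 15], []⟩)
    (.lf ⟨[.ofNat 0, .ofNat 0, .negSucc 191, .ofNat 752], (.tw (.lf 14) (.tr (.tw (.lf 5) (.lf 6)) (.dx 0 (.tr (.lf 11) (.lf 13) (.lf 17))) (.lf 18))), 0, [4, 4, 4, 4, 17, 17, 5, 5], []⟩))
    (.nd (.lf ⟨[.ofNat 0, .ofNat 0, .ofNat 3584, .ofNat 2816, .ofNat 64], (.tw (.dx 3 (.tr (.lf 1) (.lf 11) (.lf 17))) (.tr (.lf 2) (.tw (.lf 5) (.lf 6)) (.lf 18))), 3, [17, 17, 13, 13, 17, 17, 13, 13], []⟩)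
    (.lf ⟨[.ofNat 0, .ofNat 0, .negSucc 6399, .negSucc 7231, .negSucc 127], (.tr (.lf 18) (.lf 5) (.tr (.dx 3 (.tr (.lf 1) (.lf 11) (.lf 17))) (.lf 2) (.lf 6))), 3, [5, 5, 16, 16], []⟩))))

/-- data -/
def dE6x20 : RT := (.nd (.nd (.nd (.lf ⟨[.ofNat 0, .ofNat 0, .negSucc 1663, .ofNat 3264, .ofNat 64], (.tw (.dx 0 (.tw (.lf 5) (.tr (.lf 13) (.tr (.lf 6) (.lf 11) (.lf 17)) (.lf 14)))) (.lf 18)), 0, [0, 0, 0, 0, 0, 2, 0, 2], []⟩)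
    (.lf ⟨[.ofNat 0, .ofNat 0, .ofNat 9728, .ofNat 704], (.tr (.lf 5) (.lf 2) (.tr (.dx 3 (.tr (.lf 1) (.lf 11) (.lf 17))) (.lf 6) (.lf 18))), 3, [4, 4, 16, 16], []⟩))
    (.nd (.lf ⟨[.ofNat 0, .ofNat 0, .ofNat 896, .negSucc 6527, .negSucc 127], (.tr (.lf 18) (.lf 5) (.tr (.lf 2) (.dx 3 (.tr (.lf 1) (.lf 11) (.lf 17))) (.lf 6))), 3, [9, 5, 3, 3], []⟩)
    (.lf ⟨[.ofNat 0, .ofNat 0, .negSucc 1215], (.tr (.dx 3 (.tr (.lf 5) (.tr (.lf 1) (.lf 17) (.lf 2)) (.lf 11))) (.lf 18) (.lf 6)), 3, [21, 21, 17, 17], []⟩)))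
    (.nd (.nd (.lf ⟨[.ofNat 0, .ofNat 0, .ofNat 1152, .negSucc 3103], (.tr (.lf 14) (.tr (.dx 0 (.tr (.lf 11) (.lf 13) (.lf 17))) (.lf 5) (.lf 6)) (.lf 18)), 0, [17, 17, 4, 4], []⟩)
    (.lf ⟨[.ofNat 0, .ofNat 0, .ofNat 384, .negSucc 1151], (.tw (.dx 0 (.tr (.lf 5) (.lf 17) (.tr (.lf 13) (.tw (.lf 6) (.lf 11)) (.lf 14)))) (.lf 18)), 0, [12, 12, 12, 12, 0, 2, 0, 2], []⟩))
    (.nd (.lf ⟨[.ofNat 0, .ofNat 0, .negSucc 1215], (.tw (.dx 0 (.tw (.lf 5) (.tr (.lf 11) (.lf 17) (.tr (.lf 13) (.lf 6) (.lf 14))))) (.lf 18)), 0, [12, 12, 0, 0, 14, 14, 0, 0], []⟩)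
    (.lf ⟨[.ofNat 0, .ofNat 0, .negSucc 1215], (.tr (.dx 3 (.tr (.lf 5) (.lf 1) (.tr (.lf 17) (.lf 2) (.lf 18)))) (.lf 11) (.lf 6)), 3, [9, 9, 9, 9], []⟩))))

/-- data -/
def dE6x21 : RT := (.nd (.nd (.nd (.lf ⟨[.ofNat 0, .ofNat 0, .negSucc 2431], (.tr (.tw (.dx 3 (.tr (.tw (.lf 1) (.lf 2)) (.lf 17) (.lf 5))) (.lf 18)) (.lf 11) (.lf 6)), 3, [21, 21, 21, 21, 9, 9, 9, 9], []⟩)
    (.lf ⟨[.ofNat 0, .ofNat 0, .ofNat 0, .negSucc 351], (.tr (.lf 6) (.tw (.dx 3 (.tr (.tw (.lf 1) (.lf 2)) (.lf 17) (.lf 5))) (.lf 11)) (.lf 18)), 3, [4, 4, 4, 4, 8, 8, 8, 8], []⟩))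
    (.nd (.lf ⟨[.ofNat 0, .negSucc 6655, .ofNat 18816, .ofNat 2592, .negSucc 319], (.tr (.lf 6) (.dx 3 (.tr (.tw (.lf 1) (.lf 2)) (.lf 17) (.lf 5))) (.tw (.lf 11) (.lf 18))), 3, [4, 4, 4, 4, 4, 4, 4, 4], []⟩)
    (.lf ⟨[.ofNat 0, .ofNat 6656, .negSucc 18815, .negSucc 2591, .ofNat 320], (.tr (.dx 0 (.tr (.lf 13) (.tw (.lf 5) (.lf 6)) (.lf 17))) (.lf 14) (.tw (.lf 11) (.lf 18))), 0, [0, 0, 0, 0, 12, 12, 12, 12], []⟩)))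
    (.nd (.nd (.lf ⟨[.ofNat 0, .ofNat 6656, .negSucc 18815, .negSucc 2591, .ofNat 320], (.tr (.lf 6) (.dx 3 (.tr (.lf 1) (.lf 2) (.tr (.lf 17) (.lf 5) (.lf 18)))) (.lf 11)), 3, [4, 4, 7, 7], []⟩)
    (.lf ⟨[.ofNat 0, .ofNat 6656, .negSucc 17599, .ofNat 752], (.tw (.dx 3 (.tr (.lf 11) (.lf 17) (.tr (.tw (.lf 1) (.lf 2)) (.lf 18) (.lf 5)))) (.lf 6)), 3, [5, 5, 5, 5, 9, 9, 9, 9], []⟩))
    (.nd (.lf ⟨[.ofNat 0, .ofNat 0, .negSucc 9343, .ofNat 4832], (.tr (.dx 3 (.tr (.lf 1) (.lf 17) (.lf 11))) (.lf 5) (.tr (.lf 2) (.lf 18) (.lf 6))), 3, [17, 13, 17, 13], []⟩)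
    (.lf ⟨[.ofNat 0, .ofNat 0, .ofNat 1216], (.tw (.dx 3 (.tr (.lf 11) (.lf 1) (.lf 17))) (.tr (.lf 2) (.lf 18) (.tw (.lf 5) (.lf 6)))), 3, [17, 17, 13, 13, 17, 17, 13, 13], []⟩))))

/-- data -/
def dE6x22 : RT := (.nd (.nd (.nd (.lf ⟨[.ofNat 0, .ofNat 0, .negSucc 2431], (.tr (.dx 3 (.tr (.lf 11) (.lf 1) (.lf 17))) (.tr (.lf 2) (.lf 18) (.lf 5)) (.lf 6)), 3, [17, 17, 17, 17], []⟩)
    (.lf ⟨[.ofNat 0, .ofNat 0, .ofNat 4672, .negSucc 2767], (.tw (.lf 2) (.tr (.dx 3 (.tr (.lf 1) (.lf 17) (.lf 11))) (.tw (.lf 5) (.lf 6)) (.lf 18))), 3, [2, 2, 2, 2, 12, 12, 12, 12], []⟩))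
    (.nd (.lf ⟨[.ofNat 0, .negSucc 6655, .ofNat 21248, .negSucc 575, .negSucc 319], (.tr (.dx 3 (.tr (.tw (.lf 1) (.lf 2)) (.lf 17) (.lf 11))) (.lf 5) (.tw (.lf 6) (.lf 18))), 3, [1017, 21, 1017, 21, 17, 17, 17, 17], []⟩)
    (.lf ⟨[.ofNat 0, .ofNat 13312, .negSucc 37631, .negSucc 5183, .ofNat 640], (.tr (.dx 0 (.tr (.lf 13) (.lf 11) (.lf 17))) (.lf 14) (.tr (.lf 5) (.lf 6) (.lf 18))), 0, [2, 17, 14, 17], []⟩)))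
    (.nd (.nd (.lf ⟨[.ofNat 0, .negSucc 13311, .ofNat 37632, .ofNat 5184, .negSucc 639], (.tr (.lf 2) (.dx 3 (.tr (.lf 1) (.lf 17) (.lf 11))) (.tr (.lf 5) (.lf 6) (.lf 18))), 3, [2, 21, 2, 17], []⟩)
    (.lf ⟨[.ofNat 0, .ofNat 0, .ofNat 4096, .negSucc 4031], (.tr (.lf 14) (.lf 5) (.tr (.dx 0 (.tr (.lf 13) (.lf 11) (.lf 17))) (.lf 18) (.lf 6))), 0, [17, 17, 15, 3], []⟩))
    (.nd (.lf ⟨[.ofNat 0, .ofNat 0, .negSucc 4479, .negSucc 799], (.tr (.lf 18) (.lf 5) (.tr (.lf 2) (.dx 3 (.tr (.lf 1) (.lf 17) (.lf 11))) (.lf 6))), 3, [9, 5, 3, 3], []⟩)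
    (.lf ⟨[.ofNat 0, .ofNat 0, .negSucc 2431, .ofNat 352], (.tr (.lf 5) (.lf 14) (.tr (.dx 0 (.tr (.lf 13) (.lf 11) (.lf 17))) (.lf 6) (.lf 18))), 0, [4, 4, 15, 3], []⟩))))

/-- data -/
def dE6x23 : RT := (.nd (.nd (.nd (.lf ⟨[.ofNat 0, .ofNat 0, .ofNat 416, .ofNat 928], (.tr (.lf 2) (.dx 3 (.tw (.lf 11) (.tr (.lf 17) (.tw (.lf 1) (.lf 5)) (.lf 18)))) (.lf 6)), 3, [2, 2, 2, 2, 9, 9, 9, 9], []⟩)
    (.lf ⟨[.ofNat 0, .ofNat 0, .negSucc 16255, .ofNat 1920], (.tr (.lf 2) (.dx 3 (.tr (.lf 11) (.tr (.lf 1) (.lf 5) (.lf 17)) (.lf 18))) (.lf 6)), 3, [2, 2, 9, 9], []⟩))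
    (.nd (.lf ⟨[.ofNat 0, .ofNat 0, .ofNat 17024, .negSucc 5983], (.tr (.dx 0 (.tr (.lf 13) (.lf 11) (.lf 17))) (.lf 5) (.tr (.lf 6) (.lf 14) (.lf 18))), 0, [2, 2, 14, 14], []⟩)
    (.lf ⟨[.ofNat 0, .ofNat 0, .ofNat 0, .negSucc 1231], (.tw (.lf 14) (.tr (.dx 0 (.tr (.lf 13) (.lf 11) (.lf 17))) (.tw (.lf 5) (.lf 6)) (.lf 18))), 0, [17, 17, 17, 17, 15, 3, 15, 3], []⟩)))
    (.nd (.nd (.lf ⟨[.ofNat 0, .ofNat 0, .ofNat 2432, .negSucc 351], (.tr (.lf 14) (.lf 5) (.tr (.lf 6) (.dx 0 (.tr (.lf 13) (.lf 11) (.lf 17))) (.lf 18))), 0, [4, 4, 17, 5], []⟩)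
    (.lf ⟨[.ofNat 0, .ofNat 0, .negSucc 5247, .ofNat 800], (.tw (.dx 0 (.tr (.lf 13) (.lf 5) (.tr (.lf 6) (.lf 17) (.tw (.lf 11) (.lf 14))))) (.lf 18)), 0, [0, 0, 0, 0, 12, 12, 2, 2], []⟩))
    (.nd (.lf ⟨[.ofNat 0, .ofNat 0, .ofNat 8320, .negSucc 2591], (.tw (.dx 0 (.tw (.lf 5) (.tr (.lf 13) (.tr (.lf 6) (.lf 17) (.lf 11)) (.lf 14)))) (.lf 18)), 0, [0, 0, 0, 0, 0, 2, 0, 2], []⟩)
    (.lf ⟨[.ofNat 0, .ofNat 0, .negSucc 14207, .ofNat 4832], (.tr (.lf 18) (.lf 5) (.tr (.dx 3 (.tr (.lf 1) (.lf 17) (.lf 11))) (.lf 2) (.lf 6))), 3, [5, 5, 16, 16], []⟩))))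

/-- data -/
def dE6x24 : RT := (.nd (.nd (.nd (.lf ⟨[.ofNat 0, .ofNat 0, .ofNat 14208, .negSucc 4127], (.tr (.dx 3 (.tr (.lf 1) (.lf 17) (.lf 11))) (.tr (.lf 2) (.lf 5) (.lf 6)) (.lf 18)), 3, [17, 13, 17, 13], []⟩)
    (.lf ⟨[.ofNat 0, .ofNat 0, .negSucc 8319, .ofNat 1008], (.tw (.lf 18) (.tr (.dx 3 (.tr (.lf 1) (.lf 17) (.lf 11))) (.tw (.lf 5) (.lf 6)) (.lf 2))), 3, [1, 1, 1, 1, 12, 12, 12, 12], []⟩))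
    (.nd (.lf ⟨[.ofNat 0, .negSucc 6655, .ofNat 7616, .ofNat 2176], (.tr (.dx 3 (.tr (.lf 5) (.tr (.lf 17) (.lf 1) (.lf 18)) (.lf 11))) (.lf 2) (.lf 6)), 3, [5, 5, 5, 5], []⟩)
    (.lf ⟨[.ofNat 0, .ofNat 0, .negSucc 16255, .ofNat 1920], (.tr (.dx 0 (.tr (.lf 13) (.lf 14) (.lf 17))) (.lf 5) (.tr (.lf 6) (.lf 18) (.lf 11))), 0, [23, 21, 23, 21], []⟩)))
    (.nd (.nd (.lf ⟨[.ofNat 0, .ofNat 0, .negSucc 17023, .ofNat 3520], (.tr (.lf 6) (.lf 17) (.tr (.lf 11) (.dx 3 (.tr (.lf 1) (.lf 2) (.lf 5))) (.lf 18))), 3, [20, 20, 11, 7], []⟩)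
    (.lf ⟨[.ofNat 0, .negSucc 6655, .ofNat 11456, .ofNat 1600], (.tw (.dx 0 (.tw (.lf 5) (.tr (.lf 17) (.lf 11) (.tr (.lf 13) (.lf 6) (.lf 14))))) (.lf 18)), 0, [12, 12, 0, 0, 14, 14, 0, 0], []⟩))
    (.nd (.lf ⟨[.ofNat 0, .ofNat 0, .ofNat 2624, .negSucc 399], (.tw (.dx 0 (.tw (.lf 11) (.tr (.lf 13) (.tr (.lf 5) (.lf 6) (.lf 17)) (.lf 14)))) (.lf 18)), 0, [2, 2, 2, 2, 0, 0, 0, 0], []⟩)
    (.lf ⟨[.ofNat 0, .ofNat 0, .ofNat 192, .negSucc 399], (.tw (.dx 0 (.tr (.lf 11) (.tr (.lf 13) (.tw (.lf 5) (.lf 6)) (.lf 17)) (.lf 14))) (.lf 18)), 0, [2, 2, 14, 14, 0, 0, 0, 0], []⟩))))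

/-- data -/
def dE6 : RT := (.nd (.nd (.nd (.nd dE6x0 (.nd dE6x1 dE6x2)) (.nd dE6x3 (.nd dE6x4 dE6x5))) (.nd (.nd dE6x6 (.nd dE6x7 dE6x8)) (.nd dE6x9 (.nd dE6x10 dE6x11)))) (.nd (.nd (.nd dE6x12 (.nd dE6x13 dE6x14)) (.nd dE6x15 (.nd dE6x16 dE6x17))) (.nd (.nd dE6x18 (.nd dE6x19 dE6x20)) (.nd (.nd dE6x21 dE6x22) (.nd dE6x23 dE6x24)))))

/-- data -/
def lE6x0 : List (ℕ × List ℤ) := [(5349, [.ofNat 0, .ofNat 0, .ofNat 0, .negSucc 44287, .negSucc 3711]),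
  (333477, [.ofNat 0, .ofNat 0, .ofNat 0, .ofNat 3648, .ofNat 2896, .ofNat 64]),
  (334170, [.ofNat 0, .ofNat 0, .ofNat 0, .negSucc 7295, .negSucc 5791, .negSucc 127]),
  (340709, [.ofNat 0, .ofNat 0, .ofNat 0, .negSucc 3647, .negSucc 2895, .negSucc 63]),
  (341277, [.ofNat 0, .ofNat 0, .ofNat 0, .ofNat 10464, .negSucc 311, .ofNat 16]),
  (344861, [.ofNat 0, .ofNat 0, .negSucc 26623, .ofNat 18944, .ofNat 8640]),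
  (346475, [.ofNat 0, .ofNat 0, .ofNat 0, .ofNat 8960, .ofNat 7392, .ofNat 128]),
  (346923, [.ofNat 0, .ofNat 0, .ofNat 0, .ofNat 4224, .negSucc 24991, .ofNat 512]),
  (404253, [.ofNat 0, .ofNat 0, .ofNat 0, .negSucc 6527, .negSucc 7391, .negSucc 127]),
  (404316, [.ofNat 0, .ofNat 0, .ofNat 0, .negSucc 7807, .negSucc 3871, .negSucc 127]),
  (1090261, [.ofNat 0, .ofNat 0, .ofNat 0, .ofNat 10464, .negSucc 311, .ofNat 16]),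
  (2444075, [.ofNat 0, .ofNat 0, .negSucc 3327, .ofNat 9600, .negSucc 319]),
  (2513235, [.ofNat 0, .ofNat 0, .ofNat 3328, .negSucc 9599, .ofNat 320]),
  (2767713, [.ofNat 0, .ofNat 0, .ofNat 0, .negSucc 4863]),
  (2775273, [.ofNat 0, .ofNat 0, .ofNat 0, .negSucc 9727]),
  (19482469, [.ofNat 0, .ofNat 0, .negSucc 767, .ofNat 1600]),
  (19483365, [.ofNat 0, .ofNat 0, .negSucc 767, .ofNat 1600]),
  (19552413, [.ofNat 0, .ofNat 0, .ofNat 768, .negSucc 1599]),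
  (20096236, [.ofNat 0, .ofNat 0, .ofNat 768, .negSucc 1599]),
  (20096748, [.ofNat 0, .ofNat 0, .ofNat 768, .negSucc 1599]),
  (20097259, [.ofNat 0, .ofNat 13312, .negSucc 37631, .negSucc 5183, .ofNat 640]),
  (20097762, [.ofNat 0, .negSucc 13311, .ofNat 37632, .ofNat 5184, .negSucc 639]),
  (21351210, [.ofNat 0, .ofNat 0, .negSucc 4863]),
  (21375836, [.ofNat 0, .ofNat 0, .ofNat 640, .negSucc 1759]),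
  (21379924, [.ofNat 0, .ofNat 0, .ofNat 320, .negSucc 879]),
  (21384026, [.ofNat 0, .ofNat 0, .ofNat 8960, .ofNat 7392, .ofNat 128]),
  (21386525, [.ofNat 0, .ofNat 0, .ofNat 14976, .negSucc 6431]),
  (21386539, [.ofNat 0, .ofNat 0, .ofNat 6528, .ofNat 7392, .ofNat 128]),
  (21387610, [.ofNat 0, .ofNat 0, .ofNat 7296, .ofNat 5792, .ofNat 128]),
  (21633765, [.ofNat 0, .ofNat 0, .negSucc 16639, .ofNat 2016]),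
  (21640037, [.ofNat 0, .ofNat 0, .negSucc 2431]),
  (21641829, [.ofNat 0, .ofNat 0, .ofNat 0, .negSucc 703]),
  (21646169, [.ofNat 0, .ofNat 0, .negSucc 4863]),
  (21649613, [.ofNat 0, .ofNat 0, .ofNat 4864]),
  (21649753, [.ofNat 0, .ofNat 0, .ofNat 4864]),
  (21809493, [.ofNat 0, .ofNat 0, .ofNat 4032, .ofNat 5120, .ofNat 64]),
  (21809501, [.ofNat 0, .ofNat 0, .ofNat 4032, .ofNat 5120, .ofNat 64]),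
  (21841765, [.ofNat 0, .ofNat 0, .ofNat 9728, .ofNat 5792, .ofNat 128]),
  (21842269, [.ofNat 0, .ofNat 0, .ofNat 4032, .ofNat 5120, .ofNat 64]),
  (21842717, [.ofNat 0, .ofNat 0, .negSucc 8959, .negSucc 7391, .negSucc 127]),
  (21896020, [.ofNat 0, .ofNat 0, .negSucc 4863]),
  (21896034, [.ofNat 0, .ofNat 0, .ofNat 16256, .negSucc 1919]),
  (21899884, [.ofNat 0, .ofNat 13312, .negSucc 6399, .negSucc 6559]),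
  (21900005, [.ofNat 0, .ofNat 0, .ofNat 23552, .negSucc 1919]),
  (21900012, [.ofNat 0, .ofNat 13312, .negSucc 19839, .negSucc 5439]),
  (21900108, [.ofNat 0, .ofNat 0, .negSucc 4863]),
  (21904037, [.ofNat 0, .ofNat 13312, .ofNat 3712, .negSucc 7359]),
  (21910293, [.ofNat 0, .ofNat 0, .ofNat 15104, .ofNat 480]),
  (21910301, [.ofNat 0, .ofNat 0, .ofNat 2432, .negSucc 703]),
  (21910797, [.ofNat 0, .ofNat 0, .ofNat 15872, .negSucc 1823]),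
  (21910813, [.ofNat 0, .ofNat 0, .negSucc 13695, .ofNat 3200]),
  (21910860, [.ofNat 0, .ofNat 0, .ofNat 2432]),
  (21911141, [.ofNat 0, .ofNat 0, .ofNat 2432]),
  (21911309, [.ofNat 0, .ofNat 0, .ofNat 2432, .negSucc 703]),
  (21911317, [.ofNat 0, .ofNat 0, .negSucc 13695, .ofNat 3200]),
  (21911882, [.ofNat 0, .ofNat 0, .negSucc 7295, .negSucc 5791, .negSucc 127]),
  (22067948, [.ofNat 0, .ofNat 0, .negSucc 2431]),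
  (22067997, [.ofNat 0, .ofNat 0, .ofNat 768, .negSucc 2303]),
  (22068010, [.ofNat 0, .ofNat 0, .negSucc 4735, .negSucc 5631, .negSucc 127]),
  (22071125, [.ofNat 0, .negSucc 13311, .ofNat 23424, .ofNat 38816, .ofNat 13408]),
  (22071133, [.ofNat 0, .ofNat 13312, .negSucc 9471, .negSucc 4319]),
  (22074597, [.ofNat 0, .ofNat 0, .negSucc 9727, .negSucc 703]),
  (22074716, [.ofNat 0, .negSucc 13311, .ofNat 15232, .ofNat 4352]),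
  (22075045, [.ofNat 0, .ofNat 0, .ofNat 2432]),
  (22075109, [.ofNat 0, .ofNat 0, .negSucc 4863, .negSucc 703]),
  (22075235, [.ofNat 0, .ofNat 13312, .negSucc 37631, .negSucc 5183, .ofNat 640]),
  (22075549, [.ofNat 0, .ofNat 0, .ofNat 2432]),
  (22075627, [.ofNat 0, .ofNat 0, .ofNat 2432]),
  (22103885, [.ofNat 0, .negSucc 13311, .ofNat 22912, .ofNat 3200]),
  (22104781, [.ofNat 0, .ofNat 0, .negSucc 2431]),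
  (22106972, [.ofNat 0, .negSucc 13311, .ofNat 7424, .ofNat 3520]),
  (22107917, [.ofNat 0, .ofNat 0, .ofNat 2432, .negSucc 351]),
  (22107980, [.ofNat 0, .ofNat 0, .ofNat 0, .ofNat 1408]),
  (22108393, [.ofNat 0, .ofNat 0, .ofNat 9728]),
  (22123884, [.ofNat 0, .ofNat 0, .ofNat 24576, .negSucc 5183]),
  (22129253, [.ofNat 0, .ofNat 0, .negSucc 4479, .negSucc 1503]),
  (22133349, [.ofNat 0, .ofNat 0, .ofNat 0, .negSucc 703]),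
  (22133517, [.ofNat 0, .ofNat 0, .ofNat 5632, .negSucc 1599]),
  (22133580, [.ofNat 0, .ofNat 0, .negSucc 383, .ofNat 800]),
  (22136681, [.ofNat 0, .ofNat 0, .ofNat 9728]),
  (22137451, [.ofNat 0, .ofNat 0, .negSucc 4863]),
  (22139732, [.ofNat 0, .ofNat 13312, .negSucc 25471, .negSucc 39615, .negSucc 13407]),
  (22141013, [.ofNat 0, .ofNat 0, .negSucc 8447, .ofNat 13824, .ofNat 128]),
  (22141021, [.ofNat 0, .ofNat 0, .negSucc 767, .ofNat 2304]),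
  (22141265, [.ofNat 0, .ofNat 0, .negSucc 9727]),
  (22156651, [.ofNat 0, .ofNat 0, .negSucc 7167, .negSucc 5631, .negSucc 127]),
  (22157162, [.ofNat 0, .ofNat 0, .negSucc 9599, .negSucc 5631, .negSucc 127]),
  (22158170, [.ofNat 0, .ofNat 0, .negSucc 9599, .negSucc 5631, .negSucc 127]),
  (22164330, [.ofNat 0, .ofNat 0, .ofNat 9600, .ofNat 5632, .ofNat 128]),
  (22164331, [.ofNat 0, .ofNat 0, .ofNat 9600, .ofNat 5632, .ofNat 128]),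
  (22166185, [.ofNat 0, .ofNat 0, .negSucc 4863]),
  (22172765, [.ofNat 0, .ofNat 0, .ofNat 24576, .negSucc 5183]),
  (22189740, [.ofNat 0, .ofNat 0, .ofNat 2432]),
  (22193996, [.ofNat 0, .ofNat 0, .negSucc 767, .ofNat 2304]),
  (22194409, [.ofNat 0, .ofNat 0, .ofNat 4864]),
  (22197091, [.ofNat 0, .ofNat 0, .negSucc 2431]),
  (22197580, [.ofNat 0, .ofNat 0, .negSucc 6015, .ofNat 3104]),
  (22198029, [.ofNat 0, .ofNat 0, .ofNat 4864]),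
  (22198113, [.ofNat 0, .ofNat 0, .negSucc 4863]),
  (22201066, [.ofNat 0, .ofNat 0, .ofNat 9600, .ofNat 5632, .ofNat 128])]

/-- data -/
def lE6x1 : List (ℕ × List ℤ) := [(22201962, [.ofNat 0, .ofNat 0, .negSucc 4863]),
  (22202061, [.ofNat 0, .ofNat 0, .ofNat 2432]),
  (22206036, [.ofNat 0, .ofNat 0, .ofNat 7168, .ofNat 5632, .ofNat 128]),
  (25507164, [.ofNat 0, .ofNat 0, .ofNat 11232, .negSucc 1911, .ofNat 16]),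
  (25508517, [.ofNat 0, .ofNat 13312, .negSucc 30463, .ofNat 6720, .ofNat 128]),
  (25508651, [.ofNat 0, .ofNat 0, .negSucc 2431, .negSucc 703]),
  (25515875, [.ofNat 0, .ofNat 0, .ofNat 6016, .ofNat 1952]),
  (25516189, [.ofNat 0, .ofNat 0, .ofNat 14208, .negSucc 4127]),
  (25601309, [.ofNat 0, .ofNat 0, .negSucc 4863, .ofNat 5632]),
  (25601323, [.ofNat 0, .negSucc 13311, .ofNat 37632, .ofNat 5184, .negSucc 639]),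
  (25601835, [.ofNat 0, .ofNat 0, .ofNat 2432]),
  (25737578, [.ofNat 0, .ofNat 0, .negSucc 16255, .ofNat 1920]),
  (25737900, [.ofNat 0, .ofNat 26624, .negSucc 34175, .negSucc 9759]),
  (25738013, [.ofNat 0, .ofNat 0, .ofNat 768, .negSucc 2303]),
  (25744669, [.ofNat 0, .ofNat 0, .ofNat 9344, .negSucc 4831]),
  (25745173, [.ofNat 0, .ofNat 0, .ofNat 9344, .negSucc 4831]),
  (25745236, [.ofNat 0, .ofNat 0, .ofNat 0, .negSucc 1407]),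
  (25745251, [.ofNat 0, .ofNat 13312, .negSucc 37631, .negSucc 5183, .ofNat 640]),
  (25745629, [.ofNat 0, .ofNat 0, .ofNat 4864, .ofNat 704]),
  (25770347, [.ofNat 0, .ofNat 0, .negSucc 767, .ofNat 1600]),
  (25770851, [.ofNat 0, .ofNat 0, .ofNat 16256, .negSucc 1919]),
  (25773901, [.ofNat 0, .ofNat 0, .negSucc 4095, .ofNat 4032]),
  (25776988, [.ofNat 0, .ofNat 0, .ofNat 2432, .ofNat 6688, .negSucc 639]),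
  (25777772, [.ofNat 0, .ofNat 0, .negSucc 4863]),
  (25777996, [.ofNat 0, .ofNat 0, .ofNat 0, .negSucc 1407]),
  (25778019, [.ofNat 0, .ofNat 13312, .negSucc 37631, .negSucc 5183, .ofNat 640]),
  (25778269, [.ofNat 0, .ofNat 0, .negSucc 895, .ofNat 6528, .ofNat 128]),
  (25778913, [.ofNat 0, .ofNat 0, .ofNat 4864]),
  (25795370, [.ofNat 0, .ofNat 0, .negSucc 2431, .negSucc 703]),
  (25803114, [.ofNat 0, .ofNat 0, .negSucc 17023, .ofNat 3520]),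
  (25807565, [.ofNat 0, .ofNat 0, .ofNat 768, .negSucc 2303]),
  (25809762, [.ofNat 0, .ofNat 0, .ofNat 10880, .ofNat 1952]),
  (25810021, [.ofNat 0, .ofNat 0, .ofNat 2432]),
  (25810028, [.ofNat 0, .ofNat 0, .ofNat 4480, .ofNat 1504]),
  (25836173, [.ofNat 0, .negSucc 13311, .ofNat 11136, .ofNat 8384]),
  (25842389, [.ofNat 0, .ofNat 0, .ofNat 4864]),
  (25842893, [.ofNat 0, .ofNat 0, .ofNat 4864]),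
  (25859301, [.ofNat 0, .ofNat 0, .ofNat 4480, .ofNat 1504]),
  (25859813, [.ofNat 0, .ofNat 0, .ofNat 17024, .negSucc 3519]),
  (25859883, [.ofNat 0, .ofNat 0, .negSucc 14591, .ofNat 5632]),
  (25860317, [.ofNat 0, .ofNat 0, .ofNat 768, .negSucc 2303]),
  (25860828, [.ofNat 0, .ofNat 0, .ofNat 6528, .ofNat 2656, .negSucc 639]),
  (25862892, [.ofNat 0, .negSucc 26623, .ofNat 34176, .ofNat 9760]),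
  (25867107, [.ofNat 0, .ofNat 0, .negSucc 14591, .ofNat 5632]),
  (25867365, [.ofNat 0, .ofNat 0, .negSucc 7423, .ofNat 9152, .ofNat 128]),
  (25867372, [.ofNat 0, .ofNat 0, .ofNat 4480, .ofNat 1504]),
  (25867884, [.ofNat 0, .ofNat 0, .ofNat 384, .negSucc 799]),
  (25868045, [.ofNat 0, .ofNat 0, .ofNat 0, .negSucc 703]),
  (25868108, [.ofNat 0, .ofNat 0, .ofNat 768, .negSucc 3007]),
  (25868429, [.ofNat 0, .ofNat 0, .ofNat 5632, .negSucc 1599]),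
  (25868493, [.ofNat 0, .ofNat 0, .ofNat 12160, .negSucc 5983]),
  (25869004, [.ofNat 0, .ofNat 13312, .negSucc 22911, .negSucc 3199]),
  (25872013, [.ofNat 0, .ofNat 0, .ofNat 4480, .ofNat 1504]),
  (25876060, [.ofNat 0, .ofNat 0, .ofNat 6848, .ofNat 6512, .ofNat 128]),
  (26290893, [.ofNat 0, .ofNat 0, .ofNat 384, .negSucc 799]),
  (26519338, [.ofNat 0, .ofNat 0, .ofNat 2432]),
  (26519380, [.ofNat 0, .ofNat 0, .ofNat 768, .negSucc 2303]),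
  (26519709, [.ofNat 0, .ofNat 0, .ofNat 2432]),
  (26519773, [.ofNat 0, .ofNat 0, .ofNat 4864, .ofNat 704]),
  (26548060, [.ofNat 0, .negSucc 13311, .ofNat 11136, .ofNat 7328]),
  (26548445, [.ofNat 0, .ofNat 0, .ofNat 896, .negSucc 6527, .negSucc 127]),
  (26548956, [.ofNat 0, .ofNat 0, .ofNat 4864]),
  (26551909, [.ofNat 0, .ofNat 0, .ofNat 768, .negSucc 1599]),
  (26552525, [.ofNat 0, .ofNat 0, .ofNat 5632, .negSucc 1599]),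
  (26555228, [.ofNat 0, .ofNat 0, .ofNat 768, .negSucc 2303]),
  (26560085, [.ofNat 0, .ofNat 0, .negSucc 767, .ofNat 2304]),
  (26564180, [.ofNat 0, .ofNat 13312, .negSucc 11135, .negSucc 7327]),
  (69544677, [.ofNat 0, .ofNat 0, .ofNat 1536, .negSucc 4607]),
  (69544733, [.ofNat 0, .ofNat 0, .ofNat 1536, .negSucc 4607]),
  (69547877, [.ofNat 0, .ofNat 0, .negSucc 9983, .ofNat 256]),
  (69548373, [.ofNat 0, .ofNat 0, .ofNat 768, .negSucc 1599]),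
  (69548821, [.ofNat 0, .ofNat 0, .negSucc 1151, .ofNat 3104]),
  (69551453, [.ofNat 0, .ofNat 0, .ofNat 0, .ofNat 704]),
  (69552853, [.ofNat 0, .ofNat 0, .negSucc 1151, .ofNat 3104]),
  (69555429, [.ofNat 0, .ofNat 0, .negSucc 767, .ofNat 1600]),
  (69555485, [.ofNat 0, .ofNat 0, .ofNat 0, .negSucc 703]),
  (69555989, [.ofNat 0, .ofNat 0, .ofNat 2432, .ofNat 1408]),
  (69608797, [.ofNat 0, .ofNat 0, .negSucc 3327, .ofNat 1024]),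
  (69610141, [.ofNat 0, .ofNat 0, .negSucc 4863, .ofNat 5632]),
  (69610197, [.ofNat 0, .ofNat 0, .negSucc 1535, .ofNat 4608]),
  (69641501, [.ofNat 0, .ofNat 13312, .negSucc 42495, .ofNat 1152, .ofNat 640]),
  (69776741, [.ofNat 0, .ofNat 0, .ofNat 2432]),
  (69778085, [.ofNat 0, .ofNat 0, .negSucc 6527, .negSucc 7391, .negSucc 127]),
  (69778133, [.ofNat 0, .ofNat 0, .negSucc 11231, .ofNat 1912, .negSucc 15]),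
  (69782229, [.ofNat 0, .ofNat 0, .ofNat 3136, .ofNat 512, .ofNat 64]),
  (69784805, [.ofNat 0, .ofNat 0, .negSucc 4799, .negSucc 2815, .negSucc 63]),
  (69785813, [.ofNat 0, .ofNat 0, .negSucc 4799, .negSucc 2815, .negSucc 63]),
  (69813085, [.ofNat 0, .ofNat 0, .ofNat 0, .negSucc 703]),
  (69814093, [.ofNat 0, .ofNat 0, .ofNat 0, .negSucc 703]),
  (69817117, [.ofNat 0, .ofNat 0, .ofNat 2432, .ofNat 2112]),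
  (69818125, [.ofNat 0, .ofNat 0, .ofNat 0, .ofNat 704]),
  (69834085, [.ofNat 0, .ofNat 0, .ofNat 7296]),
  (69834597, [.ofNat 0, .ofNat 0, .negSucc 3455, .ofNat 2560]),
  (69839085, [.ofNat 0, .ofNat 0, .ofNat 4480, .ofNat 3696, .ofNat 64]),
  (69846125, [.ofNat 0, .ofNat 0, .negSucc 7167, .negSucc 5631, .negSucc 127]),
  (69846253, [.ofNat 0, .ofNat 0, .negSucc 7167, .negSucc 5631, .negSucc 127]),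
  (69846349, [.ofNat 0, .ofNat 0, .negSucc 4479, .negSucc 1503]),
  (69846365, [.ofNat 0, .ofNat 13312, .negSucc 37631, .negSucc 5183, .ofNat 640]),
  (69847637, [.ofNat 0, .ofNat 0, .negSucc 8703, .negSucc 1023, .negSucc 127]),
  (69847693, [.ofNat 0, .ofNat 0, .negSucc 5887, .ofNat 2560])]

/-- data -/
def lE6x2 : List (ℕ × List ℤ) := [(69847709, [.ofNat 0, .ofNat 0, .negSucc 5887, .ofNat 2560]),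
  (69847765, [.ofNat 0, .ofNat 0, .negSucc 8703, .negSucc 1023, .negSucc 127]),
  (69850381, [.ofNat 0, .ofNat 0, .ofNat 12672, .ofNat 480]),
  (69850901, [.ofNat 0, .ofNat 0, .negSucc 18303, .ofNat 2528]),
  (69874349, [.ofNat 0, .ofNat 0, .ofNat 7168, .ofNat 5632, .ofNat 128]),
  (69874413, [.ofNat 0, .ofNat 0, .ofNat 11648, .ofNat 9328, .ofNat 192]),
  (69875021, [.ofNat 0, .negSucc 13311, .ofNat 30720, .ofNat 2272, .negSucc 639]),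
  (69900061, [.ofNat 0, .ofNat 0, .negSucc 5247, .ofNat 800]),
  (69907109, [.ofNat 0, .ofNat 0, .negSucc 6527, .negSucc 7391, .negSucc 127]),
  (69907725, [.ofNat 0, .ofNat 0, .ofNat 15104, .ofNat 1888]),
  (70559509, [.ofNat 0, .ofNat 0, .negSucc 13055, .ofNat 1728]),
  (77928101, [.ofNat 0, .ofNat 0, .negSucc 12415, .negSucc 4831, .negSucc 127])]

/-- the sum of the part -/
def lE6 : List (ℕ × List ℤ) := lE6x0 ++ (lE6x1 ++ (lE6x2))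

theorem okE6 : dE6.all (rok tbE 12) = true := by decide +kernel

theorem sumE6 : aeq (fz (sumT tbE dE6)) lE6 = true := by decide +kernel

end Pool.Agent.H.MP_e16c79_al.IS
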