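import Pool.Agent.H.MP_e16c79_al.IS.BTabE

/-!
# MP_e16c79_al: certificate E, part 7
-/

set_option autoImplicit false

namespace Pool.Agent.H.MP_e16c79_al.IS

/-- data -/
def dE7x0 : RT := (.nd (.nd (.nd (.lf ⟨[.ofNat 0, .ofNat 0, .ofNat 96, .ofNat 152], (.tr (.dx 3 (.tr (.lf 1) (.tw (.lf 11) (.lf 17)) (.lf 2))) (.tw (.lf 5) (.lf 6)) (.lf 18)), 3, [17, 17, 17, 17, 17, 17, 17, 17], []⟩)
    (.lf ⟨[.ofNat 0, .ofNat 0, .negSucc 2239, .ofNat 2064], (.tr (.dx 3 (.tr (.lf 1) (.lf 11) (.tw (.lf 2) (.lf 17)))) (.tw (.lf 5) (.lf 6)) (.lf 18)), 3, [17, 17, 17, 17, 17, 17, 17, 17], []⟩))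
    (.nd (.lf ⟨[.ofNat 0, .ofNat 0, .ofNat 192, .negSucc 575], (.tr (.dx 3 (.tr (.lf 11) (.tw (.lf 1) (.lf 2)) (.lf 17))) (.tw (.lf 5) (.lf 6)) (.lf 18)), 3, [17, 17, 17, 17, 21, 21, 21, 21], []⟩)
    (.lf ⟨[.ofNat 0, .ofNat 0, .ofNat 4288, .negSucc 1615], (.tr (.dx 3 (.tr (.lf 1) (.tw (.lf 11) (.lf 17)) (.lf 2))) (.lf 5) (.tw (.lf 6) (.lf 18))), 3, [17, 17, 17, 17, 17, 17, 17, 17], []⟩)))
    (.nd (.nd (.lf ⟨[.ofNat 0, .ofNat 0, .negSucc 383, .negSucc 1807, .negSucc 31], (.tr (.tw (.lf 5) (.lf 6)) (.dx 3 (.tr (.tw (.lf 1) (.lf 2)) (.lf 17) (.lf 11))) (.lf 18)), 3, [4, 4, 8, 8, 4, 4, 8, 8], []⟩)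
    (.lf ⟨[.ofNat 0, .ofNat 0, .negSucc 2079, .negSucc 2287, .negSucc 31], (.tr (.dx 3 (.tr (.lf 17) (.lf 11) (.tr (.lf 1) (.lf 5) (.lf 2)))) (.lf 6) (.lf 18)), 3, [17, 17, 0, 0], []⟩))
    (.nd (.lf ⟨[.ofNat 0, .ofNat 0, .ofNat 0, .ofNat 176], (.tr (.dx 3 (.tr (.lf 5) (.lf 11) (.tr (.lf 1) (.lf 17) (.lf 2)))) (.lf 18) (.lf 6)), 3, [17, 17, 21, 21], []⟩)
    (.lf ⟨[.ofNat 0, .ofNat 0, .ofNat 1248, .ofNat 2824, .ofNat 32], (.tw (.dx 3 (.tr (.lf 17) (.lf 11) (.tr (.tw (.lf 1) (.lf 2)) (.lf 5) (.lf 6)))) (.lf 18)), 3, [17, 17, 13, 13, 0, 0, 4, 4], []⟩))))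

/-- data -/
def dE7x1 : RT := (.nd (.nd (.nd (.lf ⟨[.ofNat 0, .ofNat 0, .negSucc 2879, .negSucc 4847, .negSucc 63], (.tw (.dx 3 (.tr (.lf 1) (.lf 2) (.tr (.tw (.lf 5) (.lf 6)) (.lf 11) (.lf 17)))) (.lf 18)), 3, [0, 0, 2, 2, 8, 8, 13, 13], []⟩)
    (.lf ⟨[.ofNat 0, .ofNat 0, .ofNat 3264, .ofNat 3696, .ofNat 64], (.tw (.dx 3 (.tr (.lf 1) (.tr (.lf 2) (.tw (.lf 11) (.lf 17)) (.lf 5)) (.lf 6))) (.lf 18)), 3, [2, 2, 0, 0, 4, 4, 8, 8], []⟩))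
    (.nd (.lf ⟨[.ofNat 0, .ofNat 6656, .negSucc 11711, .negSucc 4831, .ofNat 320], (.tr (.tw (.lf 2) (.lf 6)) (.dx 3 (.tr (.lf 17) (.tw (.lf 1) (.lf 5)) (.lf 18))) (.lf 11)), 3, [0, 0, 0, 0, 4, 4, 4, 4], []⟩)
    (.lf ⟨[.ofNat 0, .ofNat 0, .negSucc 11135, .ofNat 2000, .negSucc 159], (.tr (.dx 3 (.tr (.lf 17) (.lf 5) (.tr (.lf 1) (.lf 18) (.lf 2)))) (.lf 6) (.lf 11)), 3, [11, 11, 11, 11], []⟩)))
    (.nd (.nd (.lf ⟨[.ofNat 0, .negSucc 6655, .ofNat 12864, .ofNat 1200], (.tr (.dx 3 (.tw (.lf 1) (.tr (.lf 17) (.tw (.lf 2) (.lf 5)) (.lf 18)))) (.lf 6) (.lf 11)), 3, [11, 11, 11, 11, 11, 11, 11, 11], []⟩)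
    (.lf ⟨[.ofNat 0, .ofNat 0, .negSucc 1215, .ofNat 176], (.tr (.dx 3 (.tr (.lf 1) (.tr (.lf 17) (.lf 2) (.lf 18)) (.lf 5))) (.lf 11) (.lf 6)), 3, [9, 9, 9, 9], []⟩))
    (.nd (.lf ⟨[.ofNat 0, .negSucc 6655, .ofNat 12480, .ofNat 2080, .negSucc 159], (.tr (.lf 6) (.dx 3 (.tr (.lf 17) (.lf 5) (.tr (.lf 1) (.lf 18) (.lf 2)))) (.lf 11)), 3, [7, 7, 4, 4], []⟩)
    (.lf ⟨[.ofNat 0, .ofNat 0, .ofNat 272, .negSucc 619], (.tr (.dx 3 (.tr (.lf 1) (.tw (.lf 17) (.lf 18)) (.lf 11))) (.tw (.lf 5) (.lf 6)) (.lf 2)), 3, [1, 1, 1, 1, 1, 1, 1, 1], []⟩))))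

/-- data -/
def dE7x2 : RT := (.nd (.nd (.nd (.lf ⟨[.ofNat 0, .ofNat 0, .negSucc 159, .ofNat 440], (.tr (.dx 3 (.tr (.lf 1) (.tw (.lf 17) (.lf 18)) (.lf 11))) (.lf 5) (.tw (.lf 2) (.lf 6))), 3, [5, 1, 5, 1, 5, 1, 5, 1], []⟩)
    (.lf ⟨[.ofNat 0, .ofNat 0, .ofNat 1712, .ofNat 1276, .ofNat 32], (.tw (.dx 3 (.tr (.lf 1) (.tr (.lf 5) (.lf 11) (.tw (.lf 17) (.lf 18))) (.lf 2))) (.lf 6)), 3, [5, 5, 5, 5, 5, 5, 5, 5], []⟩))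
    (.nd (.lf ⟨[.ofNat 0, .ofNat 0, .ofNat 0, .ofNat 704], (.tw (.dx 3 (.tr (.lf 1) (.tr (.lf 5) (.tw (.lf 11) (.lf 17)) (.lf 18)) (.lf 2))) (.lf 6)), 3, [5, 5, 5, 5, 5, 5, 5, 5], []⟩)
    (.lf ⟨[.ofNat 0, .ofNat 0, .negSucc 3423, .negSucc 3255, .negSucc 63], (.tw (.dx 3 (.tr (.lf 1) (.lf 5) (.tr (.lf 2) (.tw (.lf 17) (.lf 18)) (.lf 11)))) (.lf 6)), 3, [9, 9, 5, 5, 5, 5, 5, 5], []⟩)))
    (.nd (.nd (.lf ⟨[.ofNat 0, .negSucc 2495, .ofNat 5440, .negSucc 47], (.tr (.lf 9) (.tr (.lf 13) (.lf 14) (.tr (.tw (.dx 0 (.lf 5)) (.lf 6)) (.lf 17) (.lf 18))) (.lf 10)), 0, [1017, 1017, 23, 19, 18, 22, 1017, 1017], [1017, 1017, 23, 19, 18, 22, 1017, 1017]⟩)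
    (.lf ⟨[.ofNat 0, .negSucc 4415, .negSucc 4559, .ofNat 2944], (.tr (.lf 13) (.dx 0 (.tw (.lf 5) (.lf 6))) (.tr (.lf 9) (.tr (.lf 14) (.lf 17) (.lf 18)) (.lf 10))), 0, [19, 7, 19, 7, 19, 7, 19, 7], []⟩))
    (.nd (.lf ⟨[.negSucc 9983, .ofNat 948, .ofNat 9496, .ofNat 5306], (.tr (.dx 0 (.tw (.lf 5) (.lf 6))) (.lf 13) (.tr (.lf 14) (.lf 9) (.tr (.lf 17) (.lf 10) (.lf 18)))), 0, [0, 0, 0, 0, 0, 0, 0, 0], []⟩)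
    (.lf ⟨[.negSucc 9983, .ofNat 2164, .ofNat 9984, .ofNat 5266], (.tr (.dx 0 (.tw (.lf 5) (.lf 6))) (.tr (.lf 17) (.lf 18) (.tr (.lf 9) (.lf 13) (.lf 10))) (.lf 14)), 0, [12, 12, 0, 0, 12, 12, 0, 0], []⟩))))

/-- data -/
def dE7x3 : RT := (.nd (.nd (.nd (.lf ⟨[.negSucc 9983, .ofNat 3524, .ofNat 9884, .ofNat 5274], (.tr (.lf 17) (.lf 13) (.tr (.dx 0 (.tw (.lf 5) (.lf 6))) (.tr (.lf 9) (.lf 18) (.lf 10)) (.lf 14))), 0, [7, 7, 7, 7, 13, 13, 13, 13], []⟩)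
    (.lf ⟨[.ofNat 0, .ofNat 1216, .ofNat 488, .negSucc 39], (.tr (.lf 13) (.tr (.lf 14) (.dx 0 (.tw (.lf 5) (.lf 6))) (.tr (.lf 9) (.lf 17) (.lf 10))) (.lf 18)), 0, [19, 19, 19, 19, 6, 6, 6, 6], []⟩))
    (.nd (.lf ⟨[.negSucc 13311, .ofNat 9876, .ofNat 10124, .ofNat 5226], (.tr (.lf 13) (.dx 0 (.tw (.lf 5) (.lf 6))) (.tr (.lf 17) (.lf 14) (.tr (.lf 9) (.lf 18) (.lf 10)))), 0, [19, 19, 0, 0, 19, 19, 0, 0], []⟩)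
    (.lf ⟨[.ofNat 0, .ofNat 1360, .negSucc 99, .ofNat 8], (.tr (.lf 17) (.lf 13) (.tr (.lf 14) (.dx 0 (.tw (.lf 5) (.lf 6))) (.tr (.lf 9) (.lf 18) (.lf 10)))), 0, [19, 19, 19, 19, 1, 1, 1, 1], []⟩)))
    (.nd (.nd (.lf ⟨[.ofNat 3328, .negSucc 6495, .ofNat 348], (.tr (.lf 13) (.tr (.dx 0 (.tw (.lf 5) (.lf 6))) (.tr (.lf 9) (.lf 17) (.lf 10)) (.lf 14)) (.lf 18)), 0, [0, 0, 0, 0, 13, 13, 13, 13], []⟩)
    (.lf ⟨[.ofNat 1664, .negSucc 3247, .ofNat 174], (.tr (.dx 3 (.tw (.lf 9) (.tr (.lf 1) (.tw (.lf 5) (.lf 6)) (.lf 2)))) (.lf 10) (.tw (.lf 17) (.lf 18))), 3, [6, 6, 6, 6, 6, 6, 6, 6, 0, 0, 0, 0, 0, 0, 0, 0], []⟩))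
    (.nd (.lf ⟨[.negSucc 1663, .ofNat 3152, .ofNat 26], (.tr (.lf 14) (.dx 0 (.tw (.lf 13) (.tr (.lf 5) (.tw (.lf 9) (.lf 10)) (.lf 6)))) (.tw (.lf 17) (.lf 18))), 0, [0, 0, 0, 0, 0, 0, 0, 0, 0, 0, 0, 0, 0, 0, 0, 0], []⟩)
    (.lf ⟨[.negSucc 3327, .ofNat 6112, .ofNat 452], (.tr (.lf 13) (.lf 14) (.tr (.lf 9) (.dx 0 (.tw (.lf 5) (.lf 6))) (.tr (.lf 17) (.lf 10) (.lf 18)))), 0, [19, 19, 19, 19, 19, 19, 19, 19], []⟩))))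

/-- data -/
def dE7x4 : RT := (.nd (.nd (.nd (.lf ⟨[.ofNat 3328, .negSucc 6111, .negSucc 451], (.tr (.lf 9) (.tr (.dx 0 (.tw (.lf 5) (.lf 6))) (.tr (.lf 17) (.lf 10) (.lf 18)) (.lf 13)) (.lf 14)), 0, [18, 18, 18, 18, 6, 6, 6, 6], []⟩)
    (.lf ⟨[.ofNat 0, .negSucc 495, .negSucc 339, .ofNat 32], (.tr (.lf 9) (.lf 13) (.tr (.lf 14) (.dx 0 (.tw (.lf 5) (.lf 6))) (.tr (.lf 17) (.lf 10) (.lf 18)))), 0, [6, 6, 6, 6, 6, 6, 6, 6], []⟩))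
    (.nd (.lf ⟨[.ofNat 19968, .negSucc 9479, .negSucc 20743, .negSucc 10467], (.tw (.dx 3 (.tr (.lf 5) (.lf 1) (.tr (.lf 2) (.lf 6) (.tr (.lf 9) (.lf 17) (.lf 10))))) (.lf 18)), 3, [4, 4, 4, 4, 0, 0, 10, 10], []⟩)
    (.lf ⟨[.negSucc 13311, .ofNat 13928, .ofNat 24384, .ofNat 8188], (.tw (.dx 3 (.tr (.lf 1) (.tr (.lf 2) (.tr (.lf 9) (.lf 17) (.lf 10)) (.lf 5)) (.lf 6))) (.lf 18)), 3, [2, 2, 0, 0, 4, 4, 8, 8], []⟩)))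
    (.nd (.nd (.lf ⟨[.ofNat 0, .negSucc 303, .negSucc 515, .ofNat 32], (.tr (.lf 9) (.lf 13) (.tr (.dx 0 (.tw (.lf 5) (.lf 6))) (.tr (.lf 17) (.lf 10) (.lf 18)) (.lf 14))), 0, [6, 6, 6, 6, 13, 13, 13, 13], []⟩)
    (.lf ⟨[.ofNat 3328, .negSucc 6303, .negSucc 275], (.tr (.lf 13) (.lf 17) (.tr (.lf 9) (.tr (.lf 14) (.dx 0 (.tw (.lf 5) (.lf 6))) (.lf 18)) (.lf 10))), 0, [19, 19, 7, 7, 19, 19, 7, 7], []⟩))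
    (.nd (.lf ⟨[.negSucc 3327, .ofNat 6304, .ofNat 276], (.tr (.lf 9) (.tr (.lf 17) (.tr (.dx 0 (.tw (.lf 5) (.lf 6))) (.lf 13) (.lf 10)) (.lf 18)) (.lf 14)), 0, [18, 18, 18, 18, 18, 18, 18, 18], []⟩)
    (.lf ⟨[.negSucc 13311, .ofNat 9876, .ofNat 10124, .ofNat 5226], (.tr (.lf 9) (.lf 13) (.tw (.lf 10) (.tr (.lf 17) (.tw (.dx 0 (.tw (.lf 5) (.lf 6))) (.lf 14)) (.lf 18)))), 0, [6, 6, 6, 6, 6, 6, 6, 6, 1013, 1013, 19, 19, 1013, 1013, 19, 19], []⟩))))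

/-- data -/
def dE7x5 : RT := (.nd (.nd (.nd (.lf ⟨[.negSucc 9983, .ofNat 3572, .ofNat 9848, .ofNat 5226], (.tr (.lf 13) (.lf 17) (.tr (.dx 0 (.tw (.lf 5) (.lf 6))) (.lf 14) (.tr (.lf 9) (.lf 18) (.lf 10)))), 0, [19, 19, 19, 19, 1, 1, 1, 1], []⟩)
    (.lf ⟨[.ofNat 9984, .negSucc 3571, .negSucc 9847, .negSucc 5225], (.tw (.dx 3 (.tr (.lf 1) (.lf 17) (.tw (.lf 2) (.lf 18)))) (.tr (.lf 5) (.tw (.lf 9) (.lf 10)) (.lf 6))), 3, [9, 9, 9, 9, 9, 9, 9, 9, 9, 9, 9, 9, 9, 9, 9, 9], []⟩))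
    (.nd (.lf ⟨[.negSucc 6655, .ofNat 13216, .ofNat 1584, .negSucc 63], (.tw (.dx 3 (.tr (.lf 5) (.lf 1) (.tr (.lf 2) (.lf 6) (.tr (.lf 17) (.lf 9) (.lf 18))))) (.lf 10)), 3, [11, 11, 7, 7, 11, 11, 11, 11], []⟩)
    (.lf ⟨[.ofNat 6656, .negSucc 14079, .negSucc 1775, .ofNat 80], (.tw (.dx 3 (.tr (.lf 1) (.tr (.lf 2) (.tr (.lf 17) (.lf 9) (.lf 18)) (.lf 5)) (.lf 6))) (.lf 10)), 3, [11, 11, 11, 11, 7, 7, 7, 7], []⟩)))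
    (.nd (.nd (.lf ⟨[.ofNat 0, .ofNat 384, .negSucc 799], (.tr (.lf 13) (.lf 9) (.tr (.dx 0 (.tw (.lf 5) (.lf 6))) (.tr (.lf 14) (.lf 10) (.lf 17)) (.lf 18))), 0, [6, 6, 6, 6, 13, 13, 1, 1], []⟩)
    (.lf ⟨[.ofNat 0, .negSucc 95, .ofNat 200], (.tw (.dx 3 (.tr (.lf 1) (.tw (.lf 17) (.tr (.lf 5) (.tw (.lf 9) (.lf 10)) (.lf 6))) (.lf 2))) (.lf 18)), 3, [0, 0, 0, 0, 0, 0, 0, 0, 0, 0, 0, 0, 0, 0, 0, 0], []⟩))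
    (.nd (.lf ⟨[.ofNat 0, .ofNat 384, .negSucc 799], (.tr (.lf 13) (.tr (.lf 9) (.tr (.lf 10) (.dx 0 (.tw (.lf 5) (.lf 6))) (.lf 17)) (.lf 14)) (.lf 18)), 0, [6, 6, 6, 6, 19, 19, 19, 19], []⟩)
    (.lf ⟨[.ofNat 19968, .ofNat 10744, .negSucc 35599, .negSucc 13975], (.tr (.lf 13) (.dx 0 (.tw (.lf 5) (.lf 9))) (.tr (.lf 17) (.tr (.lf 6) (.lf 14) (.lf 10)) (.lf 18))), 0, [0, 0, 0, 0, 2, 2, 2, 2], [1023, 1017, 1023, 1017]⟩))))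

/-- data -/
def dE7x6 : RT := (.nd (.nd (.nd (.lf ⟨[.ofNat 0, .ofNat 1360, .negSucc 99, .ofNat 8], (.tr (.dx 0 (.tr (.lf 5) (.lf 9) (.lf 6))) (.lf 10) (.tr (.tw (.lf 13) (.lf 17)) (.lf 14) (.lf 18))), 0, [0, 12, 12, 12, 0, 12, 12, 12], []⟩)
    (.lf ⟨[.ofNat 0, .ofNat 1360, .negSucc 99, .ofNat 8], (.tr (.dx 0 (.tr (.lf 5) (.lf 9) (.lf 6))) (.tr (.lf 10) (.lf 13) (.tw (.lf 17) (.lf 18))) (.lf 14)), 0, [0, 0, 12, 12, 0, 0, 12, 12], []⟩))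
    (.nd (.lf ⟨[.ofNat 0, .negSucc 991, .negSucc 503, .negSucc 15], (.tr (.dx 0 (.tr (.lf 5) (.lf 9) (.lf 6))) (.lf 13) (.tr (.lf 10) (.tw (.lf 17) (.lf 18)) (.lf 14))), 0, [0, 0, 0, 0, 0, 0, 0, 0], []⟩)
    (.lf ⟨[.ofNat 0, .ofNat 9984, .ofNat 1176, .ofNat 560], (.tr (.lf 10) (.lf 13) (.tr (.dx 0 (.tr (.lf 5) (.lf 9) (.lf 6))) (.tw (.lf 17) (.lf 18)) (.lf 14))), 0, [6, 6, 6, 6, 13, 13, 13, 13], []⟩)))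
    (.nd (.nd (.lf ⟨[.ofNat 0, .negSucc 2767, .negSucc 1039, .negSucc 271], (.tr (.lf 10) (.tr (.lf 13) (.dx 0 (.tr (.lf 5) (.lf 9) (.lf 6))) (.tw (.lf 17) (.lf 18))) (.lf 14)), 0, [6, 6, 6, 6, 18, 18, 18, 18], []⟩)
    (.lf ⟨[.ofNat 0, .negSucc 463, .ofNat 1924, .negSucc 1823], (.tw (.dx 0 (.tr (.lf 5) (.lf 9) (.lf 6))) (.tr (.lf 13) (.tr (.lf 10) (.lf 17) (.lf 18)) (.lf 14))), 0, [0, 0, 0, 0, 0, 0, 0, 0], []⟩))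
    (.nd (.lf ⟨[.ofNat 0, .negSucc 2719, .ofNat 200, .negSucc 15], (.tw (.lf 10) (.tr (.lf 13) (.tr (.dx 0 (.tr (.lf 5) (.lf 9) (.lf 6))) (.lf 17) (.lf 18)) (.lf 14))), 0, [6, 6, 6, 6, 6, 6, 6, 6], []⟩)
    (.lf ⟨[.ofNat 0, .negSucc 5535, .negSucc 2079, .negSucc 543], (.tr (.lf 10) (.lf 13) (.tr (.dx 0 (.tr (.lf 5) (.lf 9) (.lf 6))) (.lf 17) (.tw (.lf 14) (.lf 18)))), 0, [6, 6, 6, 6, 13, 13, 13, 13], []⟩))))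

/-- data -/
def dE7x7 : RT := (.nd (.nd (.nd (.lf ⟨[.ofNat 0, .negSucc 3783, .ofNat 4900, .ofNat 1530], (.tr (.lf 10) (.tr (.lf 17) (.tw (.dx 0 (.tr (.lf 5) (.lf 9) (.lf 6))) (.lf 13)) (.lf 18)) (.lf 14)), 0, [18, 18, 18, 18, 18, 18, 18, 18], []⟩)
    (.lf ⟨[.ofNat 0, .negSucc 1015, .ofNat 5940, .ofNat 1802], (.tw (.lf 10) (.tr (.lf 13) (.dx 0 (.tr (.lf 5) (.lf 9) (.lf 6))) (.tr (.lf 17) (.lf 14) (.lf 18)))), 0, [6, 6, 6, 6, 18, 18, 18, 18], []⟩))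
    (.nd (.lf ⟨[.ofNat 0, .ofNat 5536, .ofNat 2080, .ofNat 544], (.tw (.lf 13) (.tr (.lf 10) (.lf 17) (.tr (.lf 14) (.dx 0 (.tr (.lf 5) (.lf 9) (.lf 6))) (.lf 18)))), 0, [13, 13, 1, 1, 19, 19, 19, 19], []⟩)
    (.lf ⟨[.ofNat 0, .ofNat 1872, .ofNat 1756, .negSucc 71], (.tr (.dx 0 (.tr (.lf 5) (.lf 13) (.lf 6))) (.lf 9) (.tr (.lf 10) (.tw (.lf 17) (.lf 18)) (.lf 14))), 0, [0, 0, 0, 0, 0, 0, 0, 0], []⟩)))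
    (.nd (.nd (.lf ⟨[.ofNat 0, .negSucc 2679, .ofNat 7168, .ofNat 1776], (.tr (.dx 0 (.tr (.lf 5) (.lf 13) (.lf 6))) (.tr (.tw (.lf 9) (.lf 10)) (.lf 17) (.lf 18)) (.lf 14)), 0, [0, 0, 0, 0, 0, 0, 0, 0], []⟩)
    (.lf ⟨[.ofNat 0, .ofNat 808, .negSucc 8923, .negSucc 1703], (.tr (.lf 14) (.lf 17) (.tr (.dx 0 (.tr (.lf 5) (.lf 13) (.lf 6))) (.tw (.lf 9) (.lf 10)) (.lf 18))), 0, [19, 19, 19, 19, 1, 1, 1, 1], []⟩))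
    (.nd (.lf ⟨[.ofNat 0, .ofNat 7360, .ofNat 3360, .negSucc 127], (.tr (.lf 14) (.tr (.tw (.lf 9) (.lf 10)) (.dx 0 (.tr (.lf 5) (.lf 13) (.lf 6))) (.lf 17)) (.lf 18)), 0, [6, 6, 6, 6, 19, 19, 19, 19], []⟩)
    (.lf ⟨[.ofNat 0, .negSucc 7359, .negSucc 3359, .ofNat 128], (.tr (.lf 14) (.lf 9) (.tr (.lf 10) (.dx 0 (.tr (.lf 5) (.lf 13) (.lf 6))) (.tw (.lf 17) (.lf 18)))), 0, [6, 6, 6, 6, 7, 7, 7, 7], []⟩))))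

/-- data -/
def dE7x8 : RT := (.nd (.nd (.nd (.lf ⟨[.ofNat 0, .ofNat 5824, .ofNat 2384, .ofNat 888], (.tw (.lf 14) (.tr (.lf 17) (.tr (.dx 0 (.tr (.lf 5) (.lf 13) (.lf 6))) (.lf 9) (.lf 10)) (.lf 18))), 0, [19, 19, 13, 13, 19, 19, 13, 13], []⟩)
    (.lf ⟨[.ofNat 0, .negSucc 751, .negSucc 1559, .ofNat 688], (.tr (.lf 9) (.dx 0 (.tr (.lf 5) (.lf 13) (.lf 6))) (.tr (.lf 17) (.tw (.lf 10) (.lf 14)) (.lf 18))), 0, [6, 6, 6, 6, 6, 6, 6, 6], []⟩))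
    (.nd (.lf ⟨[.ofNat 0, .ofNat 1168, .negSucc 55, .negSucc 455], (.tr (.lf 17) (.lf 14) (.tr (.lf 9) (.tw (.dx 0 (.tr (.lf 5) (.lf 13) (.lf 6))) (.lf 18)) (.lf 10))), 0, [19, 19, 7, 7, 19, 19, 7, 7], []⟩)
    (.lf ⟨[.ofNat 0, .negSucc 335, .negSucc 2279, .ofNat 728], (.tw (.lf 9) (.tr (.lf 17) (.tr (.dx 0 (.tr (.lf 5) (.lf 13) (.lf 6))) (.lf 10) (.lf 14)) (.lf 18))), 0, [18, 18, 18, 18, 18, 18, 18, 18], []⟩)))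
    (.nd (.nd (.lf ⟨[.ofNat 0, .negSucc 2175, .ofNat 2080, .negSucc 599], (.tw (.lf 17) (.tr (.lf 9) (.tr (.dx 0 (.tr (.lf 5) (.lf 13) (.lf 6))) (.lf 18) (.lf 14)) (.lf 10))), 0, [7, 7, 7, 7, 7, 7, 7, 7], []⟩)
    (.lf ⟨[.ofNat 832, .ofNat 4648, .negSucc 25715, .negSucc 2715], (.tr (.dx 0 (.tr (.lf 5) (.lf 6) (.lf 13))) (.lf 14) (.tr (.lf 9) (.tw (.lf 17) (.lf 18)) (.lf 10))), 0, [0, 0, 0, 0, 0, 0, 0, 0], []⟩))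
    (.nd (.lf ⟨[.ofNat 832, .ofNat 9288, .negSucc 25651, .negSucc 2323], (.tr (.dx 0 (.tw (.lf 13) (.lf 14))) (.tr (.lf 9) (.lf 10) (.tr (.lf 17) (.lf 5) (.lf 18))) (.lf 6)), 0, [21, 21, 21, 21, 21, 21, 21, 21], []⟩)
    (.lf ⟨[.negSucc 831, .negSucc 9287, .ofNat 25652, .ofNat 2324], (.tr (.dx 0 (.tw (.lf 13) (.lf 14))) (.lf 5) (.tr (.lf 6) (.tr (.lf 17) (.lf 9) (.lf 18)) (.lf 10))), 0, [23, 23, 21, 21, 23, 23, 21, 21], []⟩))))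

/-- data -/
def dE7x9 : RT := (.nd (.nd (.nd (.lf ⟨[.ofNat 0, .negSucc 2207, .ofNat 464, .negSucc 471], (.tr (.lf 9) (.lf 5) (.tr (.dx 0 (.tw (.lf 13) (.lf 14))) (.tr (.lf 17) (.lf 10) (.lf 18)) (.lf 6))), 0, [10, 10, 10, 10, 22, 22, 22, 22], []⟩)
    (.lf ⟨[.ofNat 0, .negSucc 1279, .ofNat 1440, .ofNat 648], (.tr (.dx 0 (.tr (.lf 5) (.lf 6) (.lf 13))) (.tr (.lf 9) (.tw (.lf 17) (.lf 18)) (.lf 10)) (.lf 14)), 0, [0, 0, 0, 0, 0, 0, 0, 0], []⟩))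
    (.nd (.lf ⟨[.ofNat 0, .negSucc 1199, .negSucc 139, .negSucc 7], (.tr (.dx 3 (.tw (.lf 5) (.tr (.lf 1) (.tw (.lf 17) (.lf 18)) (.lf 2)))) (.tw (.lf 9) (.lf 10)) (.lf 6)), 3, [9, 9, 9, 9, 9, 9, 9, 9, 9, 9, 9, 9, 9, 9, 9, 9], []⟩)
    (.lf ⟨[.ofNat 0, .ofNat 2880, .ofNat 1600, .negSucc 159], (.tr (.dx 0 (.tr (.lf 5) (.lf 6) (.lf 13))) (.lf 14) (.tr (.lf 17) (.tw (.lf 9) (.lf 10)) (.lf 18))), 0, [0, 0, 0, 0, 0, 0, 0, 0], []⟩)))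
    (.nd (.nd (.lf ⟨[.ofNat 0, .ofNat 1664, .negSucc 1151, .ofNat 80], (.tr (.dx 3 (.tw (.lf 1) (.lf 2))) (.tr (.lf 9) (.lf 10) (.tr (.lf 17) (.lf 5) (.lf 18))) (.lf 6)), 3, [21, 21, 21, 21, 21, 21, 21, 21], []⟩)
    (.lf ⟨[.ofNat 0, .negSucc 831, .negSucc 95], (.tr (.dx 3 (.tw (.lf 1) (.lf 2))) (.lf 5) (.tr (.lf 6) (.tr (.lf 17) (.lf 9) (.lf 18)) (.lf 10))), 3, [23, 23, 21, 21, 23, 23, 21, 21], []⟩))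
    (.nd (.lf ⟨[.ofNat 0, .ofNat 2880, .ofNat 1600, .negSucc 159], (.tr (.dx 3 (.tw (.lf 1) (.lf 2))) (.tr (.lf 17) (.tr (.lf 5) (.lf 9) (.lf 10)) (.lf 18)) (.lf 6)), 3, [21, 21, 21, 21, 21, 21, 21, 21], []⟩)
    (.lf ⟨[.ofNat 0, .negSucc 1023, .ofNat 656], (.tr (.lf 14) (.dx 0 (.tr (.lf 5) (.lf 6) (.lf 13))) (.tr (.lf 17) (.tw (.lf 9) (.lf 10)) (.lf 18))), 0, [19, 19, 19, 19, 19, 19, 19, 19], []⟩))))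

/-- data -/
def dE7x10 : RT := (.nd (.nd (.nd (.lf ⟨[.ofNat 0, .negSucc 831, .negSucc 95], (.tr (.dx 3 (.tw (.lf 1) (.lf 2))) (.lf 5) (.tr (.lf 17) (.tr (.lf 6) (.lf 9) (.lf 10)) (.lf 18))), 3, [23, 0, 23, 0, 23, 0, 23, 0], []⟩)
    (.lf ⟨[.ofNat 0, .ofNat 832, .ofNat 96], (.tr (.dx 3 (.tw (.lf 1) (.lf 2))) (.tr (.lf 5) (.lf 6) (.tr (.lf 9) (.lf 17) (.lf 10))) (.lf 18)), 3, [0, 0, 21, 21, 0, 0, 21, 21], []⟩))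
    (.nd (.lf ⟨[.ofNat 0, .negSucc 831, .negSucc 95], (.tr (.dx 3 (.tw (.lf 1) (.lf 2))) (.lf 5) (.tr (.lf 6) (.lf 9) (.tr (.lf 17) (.lf 10) (.lf 18)))), 3, [0, 0, 21, 21, 0, 0, 21, 21], []⟩)
    (.lf ⟨[.ofNat 0, .negSucc 831, .negSucc 95], (.tw (.dx 0 (.tr (.lf 5) (.lf 13) (.tw (.lf 6) (.lf 14)))) (.tr (.lf 17) (.tw (.lf 9) (.lf 10)) (.lf 18))), 0, [0, 0, 0, 0, 0, 0, 0, 0, 0, 0, 0, 0, 0, 0, 0, 0], []⟩)))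
    (.nd (.nd (.lf ⟨[.ofNat 0, .ofNat 0, .ofNat 3152, .negSucc 87], (.tr (.lf 14) (.lf 9) (.tr (.lf 17) (.tw (.dx 0 (.tr (.lf 5) (.lf 13) (.lf 6))) (.lf 10)) (.lf 18))), 0, [19, 19, 13, 13, 19, 19, 13, 13], []⟩)
    (.lf ⟨[.negSucc 3327, .negSucc 13663, .ofNat 11248, .ofNat 2200], (.tw (.lf 14) (.tr (.lf 17) (.dx 0 (.tr (.lf 5) (.lf 13) (.lf 6))) (.tr (.lf 9) (.lf 18) (.lf 10)))), 0, [19, 19, 19, 19, 13, 13, 13, 13], []⟩))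
    (.nd (.lf ⟨[.negSucc 13311, .ofNat 5248, .ofNat 22440, .ofNat 3664], (.tr (.lf 9) (.tr (.lf 17) (.tw (.dx 0 (.tr (.lf 5) (.lf 13) (.lf 6))) (.lf 10)) (.lf 18)) (.lf 14)), 0, [18, 18, 18, 18, 18, 18, 18, 18], []⟩)
    (.lf ⟨[.ofNat 33280, .ofNat 36496, .negSucc 50439, .negSucc 16323], (.tr (.lf 14) (.lf 17) (.tr (.lf 9) (.tw (.dx 0 (.tr (.lf 5) (.lf 13) (.lf 6))) (.lf 18)) (.lf 10))), 0, [19, 19, 7, 7, 19, 19, 7, 7], []⟩))))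

/-- data -/
def dE7x11 : RT := (.nd (.nd (.nd (.lf ⟨[.negSucc 13311, .ofNat 3968, .ofNat 22088, .ofNat 4264], (.tw (.lf 9) (.tr (.dx 0 (.tr (.lf 5) (.lf 13) (.lf 6))) (.tr (.lf 17) (.lf 10) (.lf 18)) (.lf 14))), 0, [6, 6, 6, 6, 1, 1, 1, 1], []⟩)
    (.lf ⟨[.ofNat 0, .negSucc 831, .ofNat 2336, .negSucc 79], (.tw (.lf 17) (.tr (.dx 0 (.tr (.lf 5) (.lf 13) (.lf 6))) (.tr (.lf 9) (.lf 18) (.lf 10)) (.lf 14))), 0, [12, 12, 12, 12, 1, 1, 1, 1], []⟩))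
    (.nd (.lf ⟨[.ofNat 0, .ofNat 5856, .negSucc 1039, .negSucc 175], (.tr (.lf 17) (.lf 9) (.tr (.lf 10) (.dx 0 (.tr (.lf 5) (.lf 13) (.lf 6))) (.tw (.lf 14) (.lf 18)))), 0, [18, 18, 18, 18, 7, 7, 7, 7], []⟩)
    (.lf ⟨[.ofNat 0, .negSucc 2927, .ofNat 88, .ofNat 128], (.tw (.lf 9) (.tr (.dx 0 (.tr (.lf 5) (.lf 13) (.lf 6))) (.lf 14) (.tr (.lf 17) (.lf 10) (.lf 18)))), 0, [6, 6, 6, 6, 1, 1, 1, 1], []⟩)))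
    (.nd (.nd (.lf ⟨[.ofNat 0, .ofNat 2928, .negSucc 87, .negSucc 127], (.tw (.dx 0 (.tr (.lf 5) (.lf 13) (.lf 6))) (.tr (.lf 9) (.tr (.lf 17) (.lf 10) (.lf 18)) (.lf 14))), 0, [0, 0, 0, 0, 0, 0, 0, 0], []⟩)
    (.lf ⟨[.ofNat 0, .ofNat 0, .ofNat 432, .negSucc 39], (.tw (.lf 17) (.tr (.lf 9) (.tr (.dx 0 (.tr (.lf 5) (.lf 13) (.lf 6))) (.lf 14) (.lf 18)) (.lf 10))), 0, [19, 19, 7, 7, 19, 19, 7, 7], []⟩))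
    (.nd (.lf ⟨[.ofNat 0, .ofNat 6928, .ofNat 5880, .negSucc 1995], (.tw (.lf 9) (.tr (.lf 17) (.tr (.lf 10) (.dx 0 (.tr (.lf 5) (.lf 13) (.lf 6))) (.lf 14)) (.lf 18))), 0, [18, 18, 18, 18, 18, 18, 18, 18], []⟩)
    (.lf ⟨[.negSucc 16639, .negSucc 6239, .ofNat 31608, .ofNat 6464], (.tr (.lf 17) (.lf 14) (.tw (.dx 0 (.lf 13)) (.tr (.lf 5) (.tr (.lf 9) (.lf 18) (.lf 10)) (.lf 6)))), 0, [21, 21, 21, 21, 1, 1, 1, 1], [21, 21, 21, 21, 13, 13, 13, 13]⟩))))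

/-- data -/
def dE7x12 : RT := (.nd (.nd (.nd (.lf ⟨[.ofNat 0, .ofNat 3104, .negSucc 2319, .negSucc 1647], (.tr (.dx 0 (.tr (.lf 5) (.lf 13) (.lf 6))) (.tr (.tw (.lf 9) (.lf 17)) (.lf 10) (.lf 18)) (.lf 14)), 0, [0, 0, 0, 0, 0, 0, 0, 0], []⟩)
    (.lf ⟨[.ofNat 0, .ofNat 2624, .ofNat 48, .negSucc 39], (.tw (.dx 0 (.tr (.lf 5) (.lf 13) (.lf 6))) (.tr (.lf 14) (.lf 9) (.tr (.lf 17) (.lf 10) (.lf 18)))), 0, [0, 0, 0, 0, 0, 0, 0, 0], []⟩))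
    (.nd (.lf ⟨[.ofNat 0, .ofNat 0, .negSucc 431, .ofNat 40], (.tw (.lf 17) (.tr (.dx 0 (.tr (.lf 5) (.lf 13) (.lf 6))) (.lf 14) (.tr (.lf 9) (.lf 18) (.lf 10)))), 0, [19, 19, 19, 19, 1, 1, 1, 1], []⟩)
    (.lf ⟨[.ofNat 0, .ofNat 1232, .negSucc 1135, .negSucc 7], (.tw (.lf 14) (.tr (.lf 9) (.tr (.lf 17) (.dx 0 (.tr (.lf 5) (.lf 6) (.lf 13))) (.lf 18)) (.lf 10))), 0, [19, 19, 19, 19, 19, 19, 19, 19], []⟩)))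
    (.nd (.nd (.lf ⟨[.ofNat 0, .ofNat 2448, .negSucc 839, .negSucc 7], (.tw (.dx 0 (.tr (.lf 13) (.tw (.lf 5) (.tr (.lf 6) (.lf 17) (.tw (.lf 9) (.lf 10)))) (.lf 14))) (.lf 18)), 0, [0, 0, 0, 0, 0, 0, 2, 2, 0, 0, 0, 0, 0, 0, 2, 2], []⟩)
    (.lf ⟨[.ofNat 0, .ofNat 2656, .ofNat 3880, .ofNat 696], (.tw (.lf 14) (.tr (.lf 17) (.tr (.lf 9) (.dx 0 (.tr (.lf 5) (.lf 6) (.lf 13))) (.lf 10)) (.lf 18))), 0, [19, 19, 19, 19, 19, 19, 19, 19], []⟩))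
    (.nd (.lf ⟨[.ofNat 0, .ofNat 1664, .negSucc 4863, .ofNat 320], (.tw (.lf 17) (.tr (.lf 14) (.lf 18) (.tr (.lf 9) (.dx 0 (.tr (.lf 5) (.lf 6) (.lf 13))) (.lf 10)))), 0, [7, 7, 7, 7, 18, 18, 18, 18], []⟩)
    (.lf ⟨[.ofNat 0, .negSucc 831, .ofNat 2432, .negSucc 159], (.tr (.lf 10) (.dx 0 (.tr (.lf 5) (.tw (.lf 9) (.lf 13)) (.lf 6))) (.tr (.lf 17) (.lf 14) (.lf 18))), 0, [6, 6, 6, 6, 6, 6, 6, 6], []⟩))))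

/-- data -/
def dE7x13 : RT := (.nd (.nd (.nd (.lf ⟨[.ofNat 0, .ofNat 1664, .negSucc 4863, .ofNat 320], (.tr (.lf 10) (.dx 0 (.tr (.lf 5) (.lf 9) (.tw (.lf 6) (.lf 13)))) (.tr (.lf 17) (.lf 14) (.lf 18))), 0, [6, 6, 6, 6, 6, 6, 6, 6], []⟩)
    (.lf ⟨[.ofNat 0, .negSucc 5587, .ofNat 6160, .negSucc 1995], (.tr (.dx 0 (.tr (.lf 5) (.tw (.lf 9) (.lf 13)) (.lf 6))) (.tr (.lf 17) (.lf 14) (.lf 18)) (.lf 10)), 0, [0, 0, 0, 0, 0, 0, 0, 0], []⟩))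
    (.nd (.lf ⟨[.ofNat 0, .ofNat 5536, .ofNat 2080, .ofNat 544], (.tr (.dx 0 (.tw (.lf 13) (.tr (.lf 5) (.lf 9) (.tr (.lf 17) (.lf 14) (.lf 18))))) (.lf 6) (.lf 10)), 0, [23, 23, 23, 23, 1023, 1023, 11, 11], []⟩)
    (.lf ⟨[.ofNat 0, .ofNat 832, .negSucc 2399, .ofNat 80], (.tr (.lf 6) (.tw (.dx 0 (.tr (.lf 5) (.tr (.lf 13) (.lf 17) (.lf 14)) (.lf 9))) (.lf 18)) (.lf 10)), 0, [4, 4, 4, 4, 7, 7, 7, 7], []⟩)))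
    (.nd (.nd (.lf ⟨[.ofNat 0, .ofNat 6368, .negSucc 1791, .ofNat 1008], (.tr (.dx 0 (.tr (.lf 5) (.lf 9) (.tw (.lf 6) (.lf 13)))) (.tr (.lf 17) (.lf 14) (.lf 18)) (.lf 10)), 0, [0, 0, 0, 0, 0, 0, 0, 0], []⟩)
    (.lf ⟨[.ofNat 0, .ofNat 3144, .negSucc 5727, .ofNat 2824], (.tr (.dx 0 (.tr (.lf 5) (.lf 9) (.tr (.lf 13) (.lf 17) (.lf 14)))) (.tw (.lf 6) (.lf 18)) (.lf 10)), 0, [0, 0, 0, 0, 23, 23, 23, 23], []⟩))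
    (.nd (.lf ⟨[.ofNat 0, .negSucc 359, .negSucc 3155, .ofNat 1056], (.tr (.lf 6) (.dx 0 (.tw (.lf 13) (.tr (.lf 5) (.tr (.lf 17) (.lf 14) (.lf 18)) (.lf 9)))) (.lf 10)), 0, [19, 19, 19, 19, 16, 16, 16, 16], []⟩)
    (.lf ⟨[.ofNat 0, .negSucc 6911, .ofNat 2896, .ofNat 1292], (.tr (.dx 0 (.tr (.tw (.lf 5) (.lf 6)) (.lf 9) (.lf 13))) (.lf 14) (.tr (.lf 17) (.lf 10) (.lf 18))), 0, [0, 0, 0, 0, 2, 2, 2, 2], []⟩))))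

/-- data -/
def dE7x14 : RT := (.nd (.nd (.nd (.lf ⟨[.ofNat 0, .ofNat 14848, .ofNat 6576, .ofNat 1276], (.tr (.lf 6) (.dx 3 (.tr (.lf 5) (.tw (.lf 1) (.lf 2)) (.lf 9))) (.tr (.lf 17) (.lf 10) (.lf 18))), 3, [4, 4, 4, 4, 8, 8, 8, 8], []⟩)
    (.lf ⟨[.ofNat 0, .ofNat 13824, .negSucc 3615, .negSucc 2583], (.tr (.dx 0 (.tr (.lf 5) (.tw (.lf 6) (.lf 9)) (.lf 13))) (.lf 14) (.tr (.lf 17) (.lf 10) (.lf 18))), 0, [0, 0, 0, 0, 0, 0, 2, 2], []⟩))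
    (.nd (.lf ⟨[.ofNat 0, .negSucc 13823, .ofNat 3616, .ofNat 2584], (.tr (.lf 6) (.dx 3 (.tr (.tw (.lf 1) (.lf 9)) (.lf 2) (.lf 5))) (.tr (.lf 17) (.lf 10) (.lf 18))), 3, [4, 4, 8, 8, 4, 4, 4, 4], []⟩)
    (.lf ⟨[.ofNat 19968, .ofNat 32832, .negSucc 19199, .negSucc 11299], (.tr (.dx 0 (.tr (.lf 5) (.tw (.lf 9) (.lf 13)) (.lf 6))) (.lf 14) (.tr (.lf 17) (.lf 10) (.lf 18))), 0, [0, 0, 0, 0, 0, 0, 0, 0], []⟩)))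
    (.nd (.nd (.lf ⟨[.negSucc 39935, .negSucc 59455, .ofNat 51760, .ofNat 22264], (.tr (.dx 0 (.tr (.tw (.lf 5) (.lf 9)) (.lf 13) (.lf 6))) (.lf 14) (.tr (.lf 17) (.lf 10) (.lf 18))), 0, [0, 0, 2, 2, 0, 0, 0, 0], []⟩)
    (.lf ⟨[.ofNat 0, .ofNat 1728, .negSucc 351], (.tr (.dx 0 (.tr (.tw (.lf 5) (.lf 6)) (.lf 9) (.lf 13))) (.tr (.lf 17) (.lf 10) (.lf 18)) (.lf 14)), 0, [0, 0, 0, 0, 2, 2, 2, 2], []⟩))
    (.nd (.lf ⟨[.negSucc 16639, .negSucc 11247, .ofNat 36224, .ofNat 7876], (.tr (.dx 0 (.tr (.lf 9) (.tw (.lf 5) (.lf 6)) (.lf 13))) (.tr (.lf 17) (.lf 10) (.lf 18)) (.lf 14)), 0, [2, 2, 2, 2, 0, 0, 0, 0], []⟩)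
    (.lf ⟨[.ofNat 33280, .ofNat 22496, .negSucc 72447, .negSucc 15751], (.tr (.dx 0 (.tr (.tw (.lf 5) (.lf 13)) (.lf 6) (.lf 9))) (.tr (.lf 17) (.lf 10) (.lf 18)) (.lf 14)), 0, [0, 0, 0, 0, 2, 2, 2, 2], []⟩))))

/-- data -/
def dE7x15 : RT := (.nd (.nd (.nd (.lf ⟨[.ofNat 3328, .negSucc 6703, .negSucc 12183, .negSucc 2783], (.tr (.lf 10) (.lf 14) (.tr (.lf 17) (.dx 0 (.tr (.tw (.lf 5) (.lf 6)) (.lf 9) (.lf 13))) (.lf 18))), 0, [6, 6, 6, 6, 6, 6, 6, 6], []⟩)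
    (.lf ⟨[.ofNat 0, .ofNat 4336, .negSucc 2295, .ofNat 236], (.tr (.lf 10) (.lf 14) (.tr (.lf 17) (.dx 0 (.tr (.lf 5) (.tw (.lf 9) (.lf 13)) (.lf 6))) (.lf 18))), 0, [6, 6, 6, 6, 6, 6, 6, 6], []⟩))
    (.nd (.lf ⟨[.ofNat 0, .negSucc 3839, .negSucc 3935, .negSucc 1279], (.tr (.lf 10) (.lf 14) (.tr (.lf 17) (.dx 0 (.tr (.lf 5) (.lf 9) (.tw (.lf 6) (.lf 13)))) (.lf 18))), 0, [6, 6, 6, 6, 6, 6, 6, 6], []⟩)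
    (.lf ⟨[.ofNat 0, .ofNat 5472, .ofNat 5840, .negSucc 2511], (.tr (.lf 10) (.lf 14) (.tr (.lf 17) (.dx 0 (.tr (.tw (.lf 5) (.lf 9)) (.lf 13) (.lf 6))) (.lf 18))), 0, [6, 6, 6, 6, 6, 6, 6, 6], []⟩)))
    (.nd (.nd (.lf ⟨[.negSucc 3327, .ofNat 10240, .ofNat 8336, .ofNat 3504], (.tr (.lf 14) (.lf 10) (.tr (.lf 17) (.dx 0 (.tr (.tw (.lf 5) (.lf 6)) (.lf 13) (.lf 9))) (.lf 18))), 0, [15, 15, 13, 13, 15, 15, 13, 13], []⟩)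
    (.lf ⟨[.ofNat 0, .negSucc 2975, .ofNat 1536, .ofNat 1524], (.tr (.lf 10) (.tr (.lf 17) (.dx 0 (.tr (.lf 5) (.tw (.lf 9) (.lf 13)) (.lf 6))) (.lf 18)) (.lf 14)), 0, [18, 18, 18, 18, 18, 18, 18, 18], []⟩))
    (.nd (.lf ⟨[.ofNat 0, .ofNat 7680, .negSucc 3039, .negSucc 3239], (.tr (.lf 10) (.tr (.lf 17) (.dx 0 (.tr (.tw (.lf 5) (.lf 9)) (.lf 13) (.lf 6))) (.lf 18)) (.lf 14)), 0, [18, 18, 18, 18, 18, 18, 18, 18], []⟩)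
    (.lf ⟨[.ofNat 2704, .negSucc 6199, .negSucc 2675, .negSucc 709], (.tr (.dx 0 (.tw (.lf 13) (.tr (.tw (.lf 5) (.lf 6)) (.lf 9) (.lf 10)))) (.lf 14) (.tw (.lf 17) (.lf 18))), 0, [0, 0, 0, 0, 2, 2, 2, 2, 0, 0, 0, 0, 2, 2, 2, 2], []⟩))))

/-- data -/
def dE7x16 : RT := (.nd (.nd (.nd (.lf ⟨[.negSucc 4159, .ofNat 7264, .ofNat 11216, .ofNat 2840], (.tr (.dx 0 (.tr (.lf 5) (.lf 6) (.tr (.lf 9) (.lf 10) (.lf 13)))) (.lf 14) (.tw (.lf 17) (.lf 18))), 0, [0, 0, 0, 0, 2, 2, 2, 2], []⟩)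
    (.lf ⟨[.negSucc 2703, .ofNat 6200, .ofNat 2676, .ofNat 710], (.tr (.lf 10) (.dx 3 (.tw (.lf 9) (.tr (.tw (.lf 1) (.lf 2)) (.lf 5) (.lf 6)))) (.tw (.lf 17) (.lf 18))), 3, [6, 6, 6, 6, 10, 10, 10, 10, 6, 6, 6, 6, 10, 10, 10, 10], []⟩))
    (.nd (.lf ⟨[.ofNat 4160, .negSucc 7263, .negSucc 11215, .negSucc 2839], (.tr (.lf 10) (.dx 3 (.tr (.lf 1) (.lf 2) (.tr (.lf 5) (.lf 6) (.lf 9)))) (.tw (.lf 17) (.lf 18))), 3, [6, 6, 6, 6, 10, 10, 10, 10], []⟩)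
    (.lf ⟨[.ofNat 0, .negSucc 2159, .negSucc 11559, .ofNat 3892], (.tr (.dx 0 (.tr (.lf 5) (.tr (.lf 9) (.lf 10) (.lf 13)) (.lf 6))) (.tw (.lf 17) (.lf 18)) (.lf 14)), 0, [0, 0, 0, 0, 0, 0, 0, 0], []⟩)))
    (.nd (.nd (.lf ⟨[.ofNat 0, .ofNat 3504, .negSucc 1147, .negSucc 343], (.tr (.dx 0 (.tw (.lf 5) (.tr (.lf 6) (.lf 13) (.tw (.lf 9) (.lf 10))))) (.tw (.lf 17) (.lf 18)) (.lf 14)), 0, [0, 0, 0, 0, 0, 0, 0, 0, 0, 0, 0, 0, 2, 2, 2, 2], []⟩)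
    (.lf ⟨[.ofNat 0, .negSucc 6375, .ofNat 2992, .ofNat 96], (.tr (.dx 0 (.tr (.lf 5) (.tr (.lf 6) (.lf 13) (.lf 9)) (.lf 10))) (.tw (.lf 17) (.lf 18)) (.lf 14)), 0, [0, 0, 0, 0, 2, 2, 2, 2], []⟩))
    (.nd (.lf ⟨[.ofNat 0, .negSucc 1263, .negSucc 1391, .ofNat 1184], (.tr (.dx 0 (.tr (.lf 5) (.tr (.lf 6) (.lf 13) (.lf 9)) (.lf 10))) (.lf 17) (.tw (.lf 14) (.lf 18))), 0, [0, 0, 0, 0, 2, 2, 2, 2], []⟩)
    (.lf ⟨[.ofNat 0, .negSucc 8655, .ofNat 1504, .ofNat 1912], (.tr (.dx 0 (.tr (.lf 5) (.lf 13) (.tr (.lf 9) (.lf 6) (.lf 10)))) (.tw (.lf 17) (.lf 18)) (.lf 14)), 0, [0, 0, 0, 0, 2, 2, 2, 2], []⟩))))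

/-- data -/
def dE7x17 : RT := (.nd (.nd (.nd (.lf ⟨[.ofNat 0, .ofNat 8240, .negSucc 603, .negSucc 1295], (.tr (.dx 3 (.tr (.lf 5) (.lf 1) (.tw (.lf 17) (.lf 18)))) (.tr (.lf 9) (.lf 6) (.lf 10)) (.lf 2)), 3, [3, 3, 3, 3, 3, 3, 3, 3], []⟩)
    (.lf ⟨[.ofNat 0, .ofNat 832, .negSucc 1799, .negSucc 1231], (.tr (.dx 0 (.tr (.lf 5) (.lf 13) (.tr (.lf 9) (.lf 6) (.lf 10)))) (.lf 17) (.tw (.lf 14) (.lf 18))), 0, [0, 0, 0, 0, 2, 2, 2, 2], []⟩))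
    (.nd (.lf ⟨[.ofNat 0, .negSucc 767, .ofNat 64, .ofNat 720], (.tr (.dx 0 (.tr (.lf 13) (.lf 5) (.tr (.lf 9) (.lf 6) (.lf 10)))) (.tw (.lf 17) (.lf 18)) (.lf 14)), 0, [0, 0, 0, 0, 2, 2, 2, 2], []⟩)
    (.lf ⟨[.ofNat 832, .negSucc 3055, .ofNat 152], (.tr (.lf 14) (.dx 0 (.tw (.lf 13) (.tr (.tw (.lf 5) (.lf 6)) (.lf 9) (.lf 10)))) (.tw (.lf 17) (.lf 18))), 0, [0, 0, 0, 0, 2, 2, 2, 2, 0, 0, 0, 0, 2, 2, 2, 2], []⟩)))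
    (.nd (.nd (.lf ⟨[.negSucc 1663, .ofNat 4288, .negSucc 39], (.tr (.dx 3 (.tw (.lf 9) (.tr (.tw (.lf 1) (.lf 2)) (.lf 5) (.lf 6)))) (.lf 10) (.tw (.lf 17) (.lf 18))), 3, [6, 6, 6, 6, 10, 10, 10, 10, 0, 0, 0, 0, 4, 4, 4, 4], []⟩)
    (.lf ⟨[.ofNat 3328, .negSucc 8767, .ofNat 256], (.tr (.lf 17) (.lf 18) (.tr (.dx 0 (.lf 13)) (.tr (.tw (.lf 5) (.lf 6)) (.lf 9) (.lf 10)) (.lf 14))), 0, [11, 11, 9, 9, 3, 3, 1, 1], [11, 11, 9, 9, 3, 3, 1, 1]⟩))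
    (.nd (.lf ⟨[.ofNat 0, .ofNat 0, .negSucc 1215, .negSucc 1095, .ofNat 40], (.tr (.dx 3 .on) (.tw (.lf 11) (.tr (.tw (.lf 1) (.lf 2)) (.lf 5) (.lf 6))) (.lf 19)), 3, [17, 17, 13, 13, 23, 23, 19, 19], [17, 17, 13, 13, 0, 0, 4, 4]⟩)
    (.lf ⟨[.ofNat 0, .ofNat 0, .ofNat 4864, .ofNat 4384, .negSucc 159], (.tr (.dx 3 .on) (.tr (.lf 1) (.lf 2) (.tr (.lf 5) (.lf 6) (.lf 11))) (.lf 19)), 3, [23, 21, 15, 13], [0, 1017, 1017, 13]⟩))))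

/-- data -/
def dE7x18 : RT := (.nd (.nd (.nd (.lf ⟨[.ofNat 0, .ofNat 0, .ofNat 0, .negSucc 191, .ofNat 400], (.tr (.lf 19) (.lf 11) (.tw (.dx 3 .on) (.tr (.tw (.lf 1) (.lf 2)) (.lf 5) (.lf 6)))), 3, [5, 5, 1, 1, 18, 18, 22, 22], [5, 5, 1, 1, 5, 5, 1, 1]⟩)
    (.lf ⟨[.ofNat 0, .ofNat 0, .negSucc 191, .ofNat 400], (.tr (.dx 3 (.lf 17)) (.lf 11) (.tw (.lf 18) (.tr (.tw (.lf 1) (.lf 2)) (.lf 5) (.lf 6)))), 3, [17, 17, 13, 13, 17, 17, 13, 13], [17, 17, 13, 13, 17, 17, 13, 13]⟩))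
    (.nd (.lf ⟨[.ofNat 0, .ofNat 0, .negSucc 1983, .negSucc 1007, .negSucc 31], (.tr (.lf 14) (.dx 0 (.lf 13)) (.tw (.lf 19) (.tr (.tw (.lf 5) (.lf 6)) (.lf 9) (.lf 10)))), 0, [23, 23, 21, 21, 23, 23, 21, 21], [23, 23, 21, 21, 23, 23, 21, 21]⟩)
    (.lf ⟨[.ofNat 0, .ofNat 0, .ofNat 1984, .ofNat 1008, .ofNat 32], (.tr (.lf 14) (.tw (.dx 0 (.lf 13)) (.tr (.tw (.lf 5) (.lf 6)) (.lf 9) (.lf 10))) (.lf 19)), 0, [23, 23, 21, 21, 8, 8, 10, 10], [23, 23, 21, 21, 8, 8, 10, 10]⟩)))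
    (.nd (.nd (.lf ⟨[.ofNat 0, .ofNat 0, .ofNat 192, .negSucc 399], (.tr (.dx 3 .on) (.lf 11) (.tr (.lf 17) (.lf 18) (.tr (.tw (.lf 1) (.lf 2)) (.lf 5) (.lf 6)))), 3, [17, 17, 13, 13, 17, 17, 13, 13], [17, 17, 13, 13, 6, 6, 10, 10]⟩)
    (.lf ⟨[.ofNat 0, .ofNat 0, .ofNat 1408, .negSucc 399], (.tr (.lf 17) (.lf 18) (.tr (.dx 3 .on) (.tr (.tw (.lf 1) (.lf 2)) (.lf 5) (.lf 6)) (.lf 11))), 3, [11, 11, 7, 7, 5, 5, 1, 1], [11, 11, 7, 7, 5, 5, 1, 1]⟩))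
    (.nd (.lf ⟨[.ofNat 0, .ofNat 0, .ofNat 2816, .negSucc 799], (.tr (.lf 13) (.lf 14) (.tr (.lf 17) (.lf 18) (.tr (.dx 0 .on) (.tw (.lf 5) (.lf 6)) (.lf 11)))), 0, [23, 23, 13, 13, 0, 0, 13, 13], [23, 23, 13, 13, 1023, 1023, 1023, 1023]⟩)
    (.lf ⟨[.ofNat 0, .ofNat 0, .negSucc 1407, .ofNat 400], (.tr (.lf 11) (.tr (.lf 17) (.dx 3 .on) (.tr (.tw (.lf 1) (.lf 2)) (.lf 5) (.lf 6))) (.lf 18)), 3, [18, 18, 22, 22, 6, 6, 10, 10], [18, 18, 22, 22, 6, 6, 10, 10]⟩))))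

/-- data -/
def dE7x19 : RT := (.nd (.nd (.nd (.lf ⟨[.negSucc 3327, .ofNat 12416, .negSucc 207, .negSucc 159], (.tr (.lf 2) (.tr (.lf 17) (.dx 3 (.lf 1)) (.tr (.tw (.lf 5) (.lf 6)) (.lf 9) (.lf 10))) (.lf 18)), 3, [12, 12, 14, 14, 0, 0, 2, 2], [12, 12, 14, 14, 0, 0, 2, 2]⟩)
    (.lf ⟨[.negSucc 6655, .ofNat 8192, .negSucc 703, .ofNat 160], (.tw (.dx 3 (.tr (.lf 1) (.lf 2) (.tr (.lf 5) (.lf 6) (.tr (.lf 17) (.lf 9) (.lf 18))))) (.lf 10)), 3, [11, 11, 11, 11, 7, 7, 7, 7], []⟩))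
    (.nd (.lf ⟨[.ofNat 0, .ofNat 0, .ofNat 1408, .negSucc 399], (.tr (.lf 11) (.lf 17) (.tr (.dx 3 .on) (.tr (.tw (.lf 1) (.lf 2)) (.lf 5) (.lf 6)) (.lf 18))), 3, [18, 18, 22, 22, 18, 18, 22, 22], [18, 18, 22, 22, 18, 18, 22, 22]⟩)
    (.lf ⟨[.ofNat 0, .ofNat 0, .negSucc 1407, .ofNat 400], (.tr (.dx 3 .on) (.tr (.lf 17) (.lf 18) (.tr (.tw (.lf 1) (.lf 2)) (.lf 5) (.lf 6))) (.lf 11)), 3, [23, 23, 19, 19, 23, 23, 19, 19], [23, 23, 19, 19, 23, 23, 19, 19]⟩)))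
    (.nd (.nd (.lf ⟨[.ofNat 0, .negSucc 3327, .ofNat 10752, .negSucc 463, .ofNat 32], (.tr (.lf 11) (.tw (.dx 3 .on) (.tr (.tw (.lf 1) (.lf 2)) (.lf 5) (.lf 6))) (.lf 19)), 3, [6, 6, 10, 10, 6, 6, 10, 10], [6, 6, 10, 10, 6, 6, 10, 10]⟩)
    (.lf ⟨[.ofNat 0, .ofNat 3328, .negSucc 8767, .ofNat 256], (.tr (.lf 11) (.dx 3 .on) (.tw (.lf 19) (.tr (.tw (.lf 1) (.lf 2)) (.lf 5) (.lf 6)))), 3, [17, 17, 13, 13, 6, 6, 10, 10], [17, 17, 13, 13, 6, 6, 10, 10]⟩))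
    (.nd (.lf ⟨[.ofNat 0, .negSucc 191, .negSucc 111, .ofNat 80], (.tr (.lf 14) (.tr (.lf 17) (.dx 0 (.lf 13)) (.tr (.tw (.lf 5) (.lf 6)) (.lf 9) (.lf 10))) (.lf 18)), 0, [23, 23, 21, 21, 8, 8, 10, 10], [23, 23, 21, 21, 8, 8, 10, 10]⟩)
    (.lf ⟨[.negSucc 1663, .ofNat 6112, .negSucc 303], (.tr (.dx 3 (.lf 1)) (.tr (.lf 17) (.lf 2) (.tr (.tw (.lf 5) (.lf 6)) (.lf 9) (.lf 10))) (.lf 18)), 3, [23, 23, 21, 21, 0, 0, 2, 2], [23, 23, 21, 21, 8, 8, 10, 10]⟩))))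

/-- data -/
def dE7x20 : RT := (.nd (.nd (.nd (.lf ⟨[.ofNat 13312, .negSucc 14207, .negSucc 24063, .negSucc 11935], (.tw (.dx 3 (.tr (.lf 1) (.lf 2) (.tr (.lf 5) (.lf 6) (.tr (.lf 9) (.lf 17) (.lf 10))))) (.lf 18)), 3, [0, 0, 2, 2, 8, 8, 10, 10], []⟩)
    (.lf ⟨[.ofNat 1664, .negSucc 4831, .ofNat 240, .negSucc 351], (.tr (.lf 13) (.tr (.lf 14) (.dx 0 .on) (.tr (.tw (.lf 5) (.lf 6)) (.lf 9) (.lf 10))) (.lf 19)), 0, [23, 23, 21, 21, 8, 8, 10, 10], [23, 23, 21, 21, 8, 8, 10, 10]⟩))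
    (.nd (.lf ⟨[.negSucc 3327, .ofNat 10752, .negSucc 1871, .ofNat 432], (.tr (.lf 19) (.lf 13) (.tr (.dx 0 .on) (.tr (.tw (.lf 5) (.lf 6)) (.lf 9) (.lf 10)) (.lf 14))), 0, [11, 11, 9, 9, 3, 3, 1, 1], [11, 11, 9, 9, 3, 3, 1, 1]⟩)
    (.lf ⟨[.negSucc 831, .negSucc 9287, .ofNat 25652, .ofNat 2324], (.tr (.dx 0 (.tw (.lf 13) (.lf 14))) (.tr (.lf 5) (.tr (.lf 17) (.lf 9) (.lf 18)) (.lf 10)) (.lf 6)), 0, [21, 21, 21, 21, 21, 21, 21, 21], []⟩)))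
    (.nd (.nd (.lf ⟨[.ofNat 832, .ofNat 9288, .negSucc 25651, .negSucc 2323], (.tr (.lf 5) (.lf 6) (.tr (.dx 0 (.tw (.lf 13) (.lf 14))) (.lf 9) (.tr (.lf 17) (.lf 10) (.lf 18)))), 0, [4, 4, 4, 4, 20, 20, 20, 20], []⟩)
    (.lf ⟨[.negSucc 831, .negSucc 9287, .ofNat 25652, .ofNat 2324], (.tr (.lf 5) (.tr (.lf 6) (.dx 0 (.tw (.lf 13) (.lf 14))) (.tr (.lf 9) (.lf 17) (.lf 10))) (.lf 18)), 0, [4, 4, 4, 4, 20, 20, 20, 20], []⟩))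
    (.nd (.lf ⟨[.ofNat 0, .ofNat 1024, .ofNat 976, .negSucc 79], (.tr (.lf 17) (.lf 5) (.tr (.dx 0 (.tw (.lf 13) (.lf 14))) (.tr (.lf 9) (.lf 18) (.lf 10)) (.lf 6))), 0, [21, 21, 21, 21, 3, 3, 3, 3], []⟩)
    (.lf ⟨[.ofNat 0, .negSucc 5391, .ofNat 10268, .negSucc 3771], (.tr (.dx 0 (.tw (.lf 13) (.lf 14))) (.lf 5) (.tr (.lf 17) (.tr (.lf 6) (.lf 9) (.lf 10)) (.lf 18))), 0, [0, 0, 0, 0, 0, 0, 0, 0], []⟩))))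

/-- data -/
def dE7x21 : RT := (.nd (.nd (.nd (.lf ⟨[.negSucc 831, .negSucc 9287, .ofNat 25652, .ofNat 2324], (.tw (.dx 0 (.tr (.lf 5) (.lf 13) (.tw (.lf 6) (.lf 14)))) (.tr (.lf 9) (.tw (.lf 17) (.lf 18)) (.lf 10))), 0, [0, 0, 0, 0, 0, 0, 0, 0, 0, 0, 0, 0, 0, 0, 0, 0], []⟩)
    (.lf ⟨[.ofNat 0, .negSucc 2559, .ofNat 2880, .ofNat 1296], (.tr (.dx 0 (.tw (.lf 13) (.lf 14))) (.lf 5) (.tr (.lf 6) (.tr (.lf 9) (.lf 17) (.lf 18)) (.lf 10))), 0, [1023, 23, 0, 21, 1023, 23, 0, 21], []⟩))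
    (.nd (.lf ⟨[.ofNat 0, .negSucc 647, .ofNat 356, .ofNat 2336], (.tr (.dx 0 (.tw (.lf 13) (.lf 14))) (.lf 5) (.tr (.lf 9) (.tr (.lf 6) (.lf 17) (.lf 18)) (.lf 10))), 0, [0, 23, 0, 23, 0, 23, 0, 23], []⟩)
    (.lf ⟨[.ofNat 832, .ofNat 5928, .negSucc 27155, .negSucc 3363], (.tr (.lf 17) (.dx 0 (.tw (.lf 13) (.lf 14))) (.tr (.lf 5) (.lf 6) (.tr (.lf 9) (.lf 18) (.lf 10)))), 0, [23, 23, 21, 21, 23, 23, 21, 21], []⟩)))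
    (.nd (.nd (.lf ⟨[.negSucc 831, .negSucc 2631, .ofNat 28788, .ofNat 2196], (.tr (.lf 5) (.tr (.dx 0 (.tw (.lf 13) (.lf 14))) (.tr (.lf 9) (.lf 17) (.lf 10)) (.lf 6)) (.lf 18)), 0, [4, 4, 4, 4, 20, 20, 20, 20], []⟩)
    (.lf ⟨[.ofNat 0, .ofNat 1648, .ofNat 816, .negSucc 583], (.tr (.dx 3 (.tw (.lf 5) (.tr (.lf 1) (.tw (.lf 17) (.lf 18)) (.lf 2)))) (.lf 6) (.tw (.lf 9) (.lf 10))), 3, [11, 11, 11, 11, 11, 11, 11, 11, 11, 11, 11, 11, 11, 11, 11, 11], []⟩))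
    (.nd (.lf ⟨[.ofNat 0, .ofNat 1008, .ofNat 1536, .negSucc 259], (.tr (.tw (.lf 9) (.lf 10)) (.dx 0 (.tw (.lf 17) (.tr (.lf 5) (.tw (.lf 13) (.lf 14)) (.lf 6)))) (.lf 18)), 0, [18, 18, 18, 18, 6, 6, 6, 6, 18, 18, 18, 18, 6, 6, 6, 6], []⟩)
    (.lf ⟨[.ofNat 0, .negSucc 2015, .negSucc 3071, .ofNat 520], (.tr (.lf 5) (.lf 6) (.tr (.lf 9) (.dx 0 (.tw (.lf 13) (.lf 14))) (.tr (.lf 17) (.lf 10) (.lf 18)))), 0, [8, 8, 8, 8, 20, 20, 20, 20], []⟩))))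

/-- data -/
def dE7x22 : RT := (.nd (.nd (.nd (.lf ⟨[.ofNat 0, .ofNat 2016, .ofNat 3072, .negSucc 519], (.tr (.lf 5) (.tr (.dx 0 (.tw (.lf 13) (.lf 14))) (.tr (.lf 17) (.lf 9) (.lf 18)) (.lf 6)) (.lf 10)), 0, [23, 23, 23, 23, 20, 20, 20, 20], []⟩)
    (.lf ⟨[.ofNat 0, .ofNat 2560, .negSucc 2879, .negSucc 1295], (.tr (.lf 5) (.lf 6) (.tr (.dx 0 (.tw (.lf 13) (.lf 14))) (.lf 9) (.tr (.lf 10) (.lf 17) (.lf 18)))), 0, [4, 4, 4, 4, 20, 20, 20, 20], []⟩))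
    (.nd (.lf ⟨[.ofNat 0, .negSucc 1279, .ofNat 1440, .ofNat 648], (.tr (.lf 17) (.lf 18) (.tr (.lf 5) (.tr (.lf 6) (.dx 0 (.tw (.lf 13) (.lf 14))) (.lf 9)) (.lf 10))), 0, [7, 7, 11, 11, 9, 9, 5, 5], []⟩)
    (.lf ⟨[.ofNat 0, .negSucc 31, .negSucc 247, .negSucc 161], (.tr (.dx 0 (.tw (.lf 9) (.tr (.lf 5) (.tw (.lf 13) (.lf 14)) (.lf 6)))) (.lf 10) (.tw (.lf 17) (.lf 18))), 0, [2, 2, 2, 2, 2, 2, 2, 2, 0, 0, 0, 0, 0, 0, 0, 0], []⟩)))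
    (.nd (.nd (.lf ⟨[.ofNat 0, .negSucc 639, .ofNat 720, .ofNat 324], (.tr (.lf 17) (.lf 18) (.tr (.lf 5) (.dx 0 (.tw (.lf 13) (.lf 14))) (.tr (.lf 9) (.lf 6) (.lf 10)))), 0, [11, 11, 11, 11, 5, 5, 5, 5], []⟩)
    (.lf ⟨[.ofNat 0, .ofNat 320, .negSucc 359, .negSucc 161], (.tr (.lf 10) (.dx 0 (.tw (.lf 9) (.tr (.lf 5) (.tw (.lf 13) (.lf 14)) (.lf 6)))) (.tw (.lf 17) (.lf 18))), 0, [6, 6, 6, 6, 6, 6, 6, 6, 6, 6, 6, 6, 6, 6, 6, 6], []⟩))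
    (.nd (.lf ⟨[.ofNat 0, .ofNat 2560, .negSucc 2879, .negSucc 1295], (.tr (.lf 17) (.lf 5) (.tr (.dx 0 (.tw (.lf 13) (.lf 14))) (.lf 18) (.tr (.lf 6) (.lf 9) (.lf 10)))), 0, [23, 21, 23, 21, 3, 3, 1, 1], []⟩)
    (.lf ⟨[.ofNat 0, .ofNat 2560, .negSucc 2879, .negSucc 1295], (.tr (.lf 5) (.lf 17) (.tr (.dx 0 (.tw (.lf 13) (.lf 14))) (.tr (.lf 6) (.lf 9) (.lf 10)) (.lf 18))), 0, [16, 16, 16, 16, 1017, 1017, 1, 1], []⟩))))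

/-- data -/
def dE7x23 : RT := (.nd (.nd (.nd (.lf ⟨[.ofNat 832, .ofNat 4648, .negSucc 25715, .negSucc 2715], (.tr (.lf 5) (.lf 17) (.tw (.dx 0 (.tw (.lf 13) (.lf 14))) (.tr (.tw (.lf 9) (.lf 10)) (.lf 6) (.lf 18)))), 0, [16, 16, 23, 23, 16, 16, 23, 23, 20, 20, 20, 20, 1017, 1017, 1017, 1017], []⟩)
    (.lf ⟨[.negSucc 831, .negSucc 5927, .ofNat 27156, .ofNat 3364], (.tr (.lf 5) (.lf 17) (.tw (.lf 18) (.tr (.dx 0 (.tw (.lf 13) (.lf 14))) (.tw (.lf 9) (.lf 10)) (.lf 6)))), 0, [9, 9, 9, 9, 1017, 1017, 1017, 1017, 16, 16, 16, 16, 20, 20, 20, 20], []⟩))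
    (.nd (.lf ⟨[.ofNat 0, .negSucc 1295, .ofNat 712, .ofNat 4672], (.tr (.dx 0 (.tr (.lf 5) (.lf 13) (.lf 14))) (.tr (.lf 6) (.lf 9) (.tw (.lf 17) (.lf 18))) (.lf 10)), 0, [0, 0, 23, 23, 23, 23, 23, 23], []⟩)
    (.lf ⟨[.ofNat 0, .negSucc 711, .ofNat 356, .ofNat 1920], (.tr (.lf 6) (.tr (.dx 0 (.tr (.lf 5) (.tw (.lf 13) (.lf 14)) (.lf 9))) (.lf 17) (.lf 18)) (.lf 10)), 0, [4, 4, 4, 4, 7, 7, 7, 7], []⟩)))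
    (.nd (.nd (.lf ⟨[.ofNat 0, .ofNat 648, .negSucc 355, .negSucc 2335], (.tr (.lf 6) (.dx 0 (.tr (.lf 13) (.lf 14) (.tr (.lf 5) (.tw (.lf 17) (.lf 18)) (.lf 9)))) (.lf 10)), 0, [19, 19, 19, 19, 16, 16, 16, 16], []⟩)
    (.lf ⟨[.negSucc 415, .negSucc 6963, .ofNat 8802, .negSucc 641], (.tr (.dx 0 (.tr (.lf 13) (.lf 5) (.lf 14))) (.lf 9) (.tr (.lf 6) (.tw (.lf 17) (.lf 18)) (.lf 10))), 0, [0, 0, 0, 0, 0, 0, 0, 0], []⟩))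
    (.nd (.lf ⟨[.ofNat 416, .ofNat 6964, .negSucc 8801, .ofNat 642], (.tr (.dx 0 (.tr (.lf 13) (.lf 5) (.lf 14))) (.tr (.lf 9) (.lf 6) (.tw (.lf 17) (.lf 18))) (.lf 10)), 0, [0, 0, 23, 23, 0, 0, 23, 23], []⟩)
    (.lf ⟨[.ofNat 0, .negSucc 2111, .negSucc 1303, .ofNat 24], (.tr (.lf 9) (.lf 10) (.tr (.dx 0 (.tr (.lf 13) (.lf 5) (.lf 14))) (.tw (.lf 17) (.lf 18)) (.lf 6))), 0, [6, 6, 6, 6, 22, 22, 22, 22], []⟩))))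

/-- data -/
def dE7x24 : RT := (.nd (.nd (.nd (.lf ⟨[.negSucc 415, .negSucc 2739, .ofNat 11410, .negSucc 689], (.tr (.lf 6) (.tr (.lf 9) (.dx 0 (.tr (.lf 13) (.lf 5) (.lf 14))) (.tw (.lf 17) (.lf 18))) (.lf 10)), 0, [8, 8, 8, 8, 7, 7, 7, 7], []⟩)
    (.lf ⟨[.negSucc 9567, .ofNat 11460, .negSucc 7849, .ofNat 10906], (.tr (.lf 6) (.lf 9) (.tr (.dx 0 (.tr (.lf 13) (.lf 5) (.lf 14))) (.tw (.lf 17) (.lf 18)) (.lf 10))), 0, [8, 8, 8, 8, 20, 20, 20, 20], []⟩))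
    (.nd (.lf ⟨[.ofNat 0, .negSucc 607, .negSucc 1303, .negSucc 15], (.tw (.dx 0 (.tr (.lf 13) (.lf 5) (.lf 14))) (.tr (.lf 9) (.tr (.lf 6) (.lf 17) (.lf 18)) (.lf 10))), 0, [0, 23, 0, 23, 0, 23, 0, 23], []⟩)
    (.lf ⟨[.ofNat 0, .negSucc 4927, .negSucc 2383, .ofNat 48], (.tw (.lf 6) (.tr (.lf 9) (.tr (.dx 0 (.tr (.lf 13) (.lf 5) (.lf 14))) (.lf 17) (.lf 18)) (.lf 10))), 0, [8, 8, 7, 7, 8, 8, 7, 7], []⟩)))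
    (.nd (.nd (.lf ⟨[.ofNat 832, .ofNat 9704, .negSucc 20211, .ofNat 1332], (.tr (.lf 9) (.lf 10) (.tr (.dx 0 (.tr (.tw (.lf 13) (.lf 14)) (.lf 5) (.lf 17))) (.lf 18) (.lf 6))), 0, [6, 6, 18, 18, 22, 22, 22, 22], []⟩)
    (.lf ⟨[.negSucc 831, .negSucc 16359, .ofNat 17012, .negSucc 1283], (.tr (.dx 0 (.tr (.lf 17) (.lf 9) (.tr (.tw (.lf 5) (.lf 6)) (.lf 13) (.lf 14)))) (.lf 18) (.lf 10)), 0, [14, 14, 19, 19, 0, 0, 19, 19], []⟩))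
    (.nd (.lf ⟨[.ofNat 0, .ofNat 2640, .ofNat 140, .ofNat 104], (.tr (.dx 0 (.tr (.lf 13) (.lf 5) (.lf 14))) (.lf 17) (.tr (.lf 9) (.tw (.lf 6) (.lf 18)) (.lf 10))), 0, [23, 23, 23, 23, 23, 23, 23, 23], []⟩)
    (.lf ⟨[.ofNat 8320, .ofNat 7872, .negSucc 12415, .negSucc 6351], (.tw (.lf 9) (.tr (.dx 0 (.tr (.lf 13) (.lf 5) (.lf 14))) (.tr (.lf 17) (.lf 10) (.lf 18)) (.lf 6))), 0, [6, 6, 6, 6, 22, 22, 22, 22], []⟩))))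

/-- data -/
def dE7 : RT := (.nd (.nd (.nd (.nd dE7x0 (.nd dE7x1 dE7x2)) (.nd dE7x3 (.nd dE7x4 dE7x5))) (.nd (.nd dE7x6 (.nd dE7x7 dE7x8)) (.nd dE7x9 (.nd dE7x10 dE7x11)))) (.nd (.nd (.nd dE7x12 (.nd dE7x13 dE7x14)) (.nd dE7x15 (.nd dE7x16 dE7x17))) (.nd (.nd dE7x18 (.nd dE7x19 dE7x20)) (.nd (.nd dE7x21 dE7x22) (.nd dE7x23 dE7x24)))))

/-- data -/
def lE7x0 : List (ℕ × List ℤ) := [(304413, [.ofNat 0, .ofNat 0, .ofNat 0, .negSucc 8703, .negSucc 1663, .negSucc 1727]),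
  (304427, [.ofNat 0, .ofNat 0, .ofNat 13312, .negSucc 35071, .ofNat 1024]),
  (337637, [.ofNat 0, .ofNat 0, .ofNat 13312, .negSucc 43007, .ofNat 1856, .negSucc 127]),
  (402653, [.ofNat 0, .ofNat 0, .ofNat 0, .negSucc 7935, .ofNat 832, .negSucc 127]),
  (1086621, [.ofNat 0, .ofNat 0, .ofNat 0, .negSucc 8703, .negSucc 1663, .negSucc 1727]),
  (2435435, [.ofNat 0, .negSucc 13311, .ofNat 35072, .negSucc 1023]),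
  (2701101, [.ofNat 0, .ofNat 0, .negSucc 14591, .negSucc 191, .ofNat 640]),
  (2701613, [.ofNat 0, .ofNat 0, .ofNat 0, .ofNat 11264, .negSucc 3199]),
  (2737836, [.ofNat 0, .negSucc 66559, .negSucc 24959, .ofNat 126432, .ofNat 25856]),
  (2738537, [.ofNat 0, .ofNat 0, .negSucc 9983, .ofNat 21760, .negSucc 191]),
  (2761452, [.ofNat 0, .negSucc 66559, .negSucc 24959, .ofNat 126432, .ofNat 25856]),
  (3286237, [.ofNat 0, .ofNat 0, .ofNat 7936, .negSucc 831, .ofNat 128]),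
  (3319004, [.ofNat 0, .negSucc 13311, .ofNat 49664, .negSucc 831, .negSucc 639]),
  (8692965, [.ofNat 0, .ofNat 0, .ofNat 0, .ofNat 4864]),
  (8692973, [.ofNat 0, .ofNat 0, .negSucc 7935, .negSucc 4031, .negSucc 127]),
  (8693485, [.ofNat 0, .ofNat 0, .negSucc 9727, .negSucc 8767, .ofNat 320]),
  (19478309, [.negSucc 13311, .ofNat 43008, .negSucc 7487, .ofNat 1728]),
  (19478829, [.ofNat 0, .ofNat 0, .negSucc 5631, .ofNat 1600]),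
  (19482461, [.ofNat 0, .ofNat 0, .ofNat 7936, .ofNat 4032, .ofNat 128]),
  (19482469, [.ofNat 0, .ofNat 0, .ofNat 768, .negSucc 1599]),
  (19482861, [.ofNat 0, .ofNat 0, .negSucc 767, .ofNat 1600]),
  (19999461, [.ofNat 0, .ofNat 0, .negSucc 1535, .negSucc 7231, .negSucc 127]),
  (20010725, [.ofNat 0, .ofNat 0, .negSucc 1535, .negSucc 7231, .negSucc 127]),
  (21375836, [.ofNat 0, .ofNat 0, .negSucc 319, .ofNat 880]),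
  (21379924, [.ofNat 0, .ofNat 0, .negSucc 319, .ofNat 880]),
  (21633884, [.ofNat 0, .ofNat 0, .ofNat 768, .negSucc 1599]),
  (21642060, [.ofNat 0, .ofNat 0, .ofNat 768, .negSucc 1599]),
  (22075228, [.ofNat 0, .ofNat 0, .negSucc 2431, .ofNat 352]),
  (22140140, [.ofNat 0, .negSucc 13311, .ofNat 25728, .ofNat 2400]),
  (22140588, [.ofNat 0, .negSucc 13311, .ofNat 3456, .ofNat 6400, .negSucc 319]),
  (22140748, [.ofNat 0, .ofNat 0, .negSucc 2431, .ofNat 352]),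
  (22189411, [.ofNat 0, .ofNat 26624, .negSucc 46847, .negSucc 19327, .ofNat 1280]),
  (22192995, [.ofNat 0, .ofNat 26624, .negSucc 46847, .negSucc 19327, .ofNat 1280]),
  (22194012, [.ofNat 0, .negSucc 13311, .ofNat 3456, .ofNat 6400, .negSucc 319]),
  (22197596, [.ofNat 0, .negSucc 13311, .ofNat 25728, .ofNat 2400]),
  (25601813, [.ofNat 0, .ofNat 0, .negSucc 8575, .ofNat 3232]),
  (25602261, [.ofNat 0, .ofNat 0, .negSucc 8575, .ofNat 3232]),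
  (25733980, [.ofNat 0, .ofNat 0, .negSucc 6847, .negSucc 6511, .negSucc 127]),
  (25745236, [.ofNat 0, .ofNat 0, .ofNat 0, .ofNat 1408]),
  (25863011, [.ofNat 0, .negSucc 13311, .ofNat 24960, .ofNat 4160, .negSucc 319]),
  (25864035, [.ofNat 0, .negSucc 13311, .ofNat 24960, .ofNat 4160, .negSucc 319]),
  (25868884, [.ofNat 0, .ofNat 0, .ofNat 0, .ofNat 1408]),
  (25876060, [.ofNat 0, .ofNat 0, .negSucc 6847, .negSucc 6511, .negSucc 127]),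
  (26519325, [.ofNat 0, .ofNat 0, .ofNat 0, .negSucc 351]),
  (26559693, [.ofNat 0, .ofNat 0, .ofNat 0, .negSucc 351]),
  (69543653, [.negSucc 6655, .ofNat 23680, .negSucc 6527, .ofNat 320]),
  (69543661, [.negSucc 6655, .ofNat 19328, .negSucc 959, .ofNat 1408]),
  (69543709, [.ofNat 0, .ofNat 0, .ofNat 7936, .ofNat 4032, .ofNat 128]),
  (69555941, [.ofNat 0, .ofNat 0, .ofNat 768, .negSucc 2303]),
  (69641893, [.ofNat 0, .ofNat 0, .ofNat 4480, .negSucc 4127]),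
  (69642005, [.ofNat 0, .ofNat 0, .negSucc 4479, .negSucc 1503]),
  (69642453, [.ofNat 0, .ofNat 0, .negSucc 4479, .negSucc 1503]),
  (69649565, [.ofNat 0, .ofNat 0, .negSucc 767, .ofNat 2304]),
  (69649621, [.ofNat 0, .ofNat 0, .ofNat 4480, .negSucc 4127]),
  (69778197, [.ofNat 0, .ofNat 0, .negSucc 4159, .negSucc 4575, .negSucc 63]),
  (69849765, [.ofNat 0, .ofNat 0, .ofNat 6528, .ofNat 7392, .ofNat 128]),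
  (69907109, [.ofNat 0, .ofNat 0, .ofNat 6528, .ofNat 7392, .ofNat 128]),
  (70587621, [.ofNat 0, .ofNat 0, .ofNat 4160, .ofNat 4576, .ofNat 64]),
  (75801837, [.ofNat 0, .ofNat 0, .ofNat 4864]),
  (77898981, [.ofNat 0, .ofNat 0, .ofNat 768, .negSucc 1599]),
  (156353899, [.negSucc 3327, .negSucc 38815, .ofNat 80848, .negSucc 5327]),
  (156359331, [.negSucc 3327, .negSucc 38815, .ofNat 80848, .negSucc 5327]),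
  (156359394, [.negSucc 3327, .negSucc 18591, .ofNat 102864, .ofNat 10864]),
  (171062635, [.ofNat 0, .negSucc 255, .ofNat 0, .negSucc 1663]),
  (171099819, [.ofNat 0, .ofNat 3328, .negSucc 9599, .ofNat 320]),
  (171099987, [.ofNat 0, .ofNat 1440, .ofNat 12624, .negSucc 4223]),
  (172345196, [.ofNat 0, .negSucc 5439, .ofNat 400, .negSucc 31]),
  (172374379, [.ofNat 0, .ofNat 1216, .ofNat 2064, .negSucc 127]),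
  (172374813, [.ofNat 0, .negSucc 767, .ofNat 1600]),
  (172374876, [.ofNat 79872, .negSucc 27807, .negSucc 80383, .negSucc 41807]),
  (172377949, [.ofNat 0, .negSucc 4863, .negSucc 1951, .ofNat 160]),
  (172382044, [.ofNat 0, .negSucc 10495, .negSucc 1407, .ofNat 320]),
  (172868397, [.ofNat 0, .ofNat 14592, .ofNat 192, .negSucc 639]),
  (172890461, [.ofNat 0, .ofNat 0, .ofNat 4352]),
  (172890860, [.ofNat 0, .ofNat 6912, .negSucc 1407]),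
  (172902249, [.negSucc 3327, .negSucc 23711, .ofNat 108624, .ofNat 13456]),
  (173063004, [.ofNat 0, .negSucc 14719, .ofNat 4640, .ofNat 2528]),
  (173066091, [.ofNat 0, .negSucc 9727, .negSucc 2111, .ofNat 320]),
  (173066973, [.ofNat 0, .ofNat 4864, .ofNat 11008, .negSucc 959]),
  (173126445, [.negSucc 16639, .ofNat 29056, .ofNat 44864, .ofNat 11360]),
  (173126501, [.ofNat 0, .negSucc 2527, .negSucc 2783, .ofNat 2368]),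
  (173136588, [.ofNat 0, .negSucc 14719, .ofNat 4640, .ofNat 2528]),
  (173161067, [.ofNat 36608, .negSucc 78559, .ofNat 65424, .negSucc 46191]),
  (174441829, [.ofNat 0, .ofNat 3328, .negSucc 9727, .ofNat 640]),
  (174638956, [.ofNat 0, .negSucc 5823, .ofNat 5680, .negSucc 7359]),
  (174639453, [.ofNat 0, .negSucc 5439, .ofNat 400, .negSucc 31]),
  (174639467, [.ofNat 0, .negSucc 32831, .negSucc 2559, .negSucc 1215]),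
  (174639964, [.ofNat 0, .negSucc 1855, .ofNat 7696, .negSucc 7295]),
  (174703468, [.ofNat 0, .negSucc 3071, .ofNat 256, .ofNat 2880]),
  (174705001, [.ofNat 0, .ofNat 9984, .negSucc 21759, .ofNat 192]),
  (174725469, [.ofNat 0, .ofNat 27648, .negSucc 7231, .negSucc 5167]),
  (174725931, [.ofNat 0, .ofNat 12736, .negSucc 3583, .ofNat 2016]),
  (174732133, [.ofNat 0, .ofNat 1664, .negSucc 3599, .negSucc 2463]),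
  (174742108, [.ofNat 0, .ofNat 32960, .negSucc 2415, .negSucc 5183]),
  (174990181, [.ofNat 0, .ofNat 3328, .negSucc 9727, .ofNat 640]),
  (174990188, [.ofNat 0, .ofNat 5376, .negSucc 50831, .ofNat 14192]),
  (175163242, [.negSucc 39935, .ofNat 15168, .ofNat 4704, .ofNat 41056]),
  (175184221, [.ofNat 0, .ofNat 12416, .ofNat 26720, .negSucc 671]),
  (175184683, [.ofNat 0, .ofNat 1456, .ofNat 25216, .negSucc 4879]),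
  (175190885, [.ofNat 0, .negSucc 2527, .negSucc 2783, .ofNat 2368])]

/-- data -/
def lE7x1 : List (ℕ × List ℤ) := [(175190892, [.ofNat 0, .negSucc 28031, .ofNat 9184, .ofNat 2752]),
  (175216981, [.negSucc 79871, .negSucc 118911, .ofNat 103520, .ofNat 44528]),
  (175217324, [.ofNat 66560, .ofNat 44992, .negSucc 144895, .negSucc 31503]),
  (175221349, [.ofNat 0, .ofNat 1664, .negSucc 6463, .ofNat 928]),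
  (175221356, [.ofNat 79872, .ofNat 161856, .negSucc 113407, .negSucc 48239]),
  (175221580, [.ofNat 0, .negSucc 29439, .negSucc 13439, .ofNat 512]),
  (175248747, [.ofNat 0, .negSucc 2847, .ofNat 1424, .ofNat 7680]),
  (175250259, [.ofNat 0, .negSucc 2591, .ofNat 1424, .ofNat 9344]),
  (175256237, [.ofNat 0, .negSucc 2815, .ofNat 896]),
  (175258218, [.ofNat 0, .negSucc 8831, .ofNat 1856, .negSucc 1887]),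
  (175293099, [.ofNat 0, .negSucc 1455, .negSucc 25215, .ofNat 4880]),
  (175293267, [.ofNat 0, .ofNat 7728, .ofNat 1168, .ofNat 1424]),
  (176569003, [.negSucc 33279, .negSucc 42047, .ofNat 49104, .ofNat 24992]),
  (176569178, [.ofNat 0, .negSucc 8063, .negSucc 12287, .ofNat 2080]),
  (176732523, [.ofNat 0, .ofNat 7488, .ofNat 7024, .negSucc 287]),
  (176732901, [.ofNat 0, .negSucc 3327, .ofNat 9344, .negSucc 319]),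
  (176732908, [.ofNat 66560, .ofNat 42880, .negSucc 131423, .negSucc 29663]),
  (176736093, [.ofNat 0, .ofNat 10496, .negSucc 1535]),
  (176740076, [.ofNat 0, .ofNat 12416, .negSucc 9279, .negSucc 6591]),
  (176740188, [.ofNat 0, .ofNat 16704, .negSucc 4447, .negSucc 3455]),
  (176740195, [.negSucc 53247, .ofNat 15872, .ofNat 88352, .ofNat 17056]),
  (176741084, [.ofNat 0, .negSucc 10719, .ofNat 28672, .ofNat 7104]),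
  (176789853, [.negSucc 79871, .negSucc 118911, .ofNat 103520, .ofNat 44528]),
  (176790252, [.ofNat 66560, .ofNat 44992, .negSucc 144895, .negSucc 31503]),
  (176806604, [.ofNat 3328, .ofNat 33056, .negSucc 106511, .negSucc 8975]),
  (176993637, [.ofNat 0, .ofNat 3328, .negSucc 9727, .ofNat 640]),
  (177019229, [.ofNat 0, .ofNat 12416, .ofNat 26720, .negSucc 671]),
  (177019691, [.ofNat 0, .negSucc 15903, .ofNat 32512, .negSucc 11615]),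
  (177025893, [.ofNat 0, .ofNat 1664, .negSucc 3599, .negSucc 2463]),
  (177025900, [.ofNat 0, .negSucc 32959, .ofNat 2416, .ofNat 5184]),
  (177054565, [.ofNat 0, .ofNat 3328, .negSucc 9727, .ofNat 640]),
  (177054572, [.ofNat 0, .ofNat 5376, .negSucc 50831, .ofNat 14192]),
  (177089131, [.ofNat 33280, .ofNat 31488, .negSucc 49663, .negSucc 25407]),
  (177089355, [.ofNat 0, .negSucc 19711, .negSucc 9535, .ofNat 192]),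
  (177257131, [.ofNat 0, .ofNat 2432, .ofNat 5216, .ofNat 64]),
  (177280875, [.negSucc 6655, .negSucc 69183, .ofNat 199456, .ofNat 16000]),
  (177281757, [.ofNat 0, .negSucc 6655, .negSucc 767]),
  (177287917, [.ofNat 0, .negSucc 2815, .ofNat 896]),
  (177289933, [.negSucc 3327, .negSucc 10527, .ofNat 115152, .ofNat 8784]),
  (204028253, [.ofNat 0, .ofNat 31744, .ofNat 33536, .ofNat 10272]),
  (204032733, [.ofNat 0, .negSucc 11519, .negSucc 6399, .ofNat 640]),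
  (204056925, [.ofNat 0, .negSucc 27647, .ofNat 7232, .ofNat 5168]),
  (204060012, [.ofNat 0, .negSucc 5439, .ofNat 400, .negSucc 31]),
  (204068517, [.ofNat 0, .ofNat 8704, .negSucc 8319, .ofNat 2400]),
  (204068524, [.ofNat 0, .negSucc 27711, .negSucc 23519, .ofNat 7984]),
  (204548829, [.ofNat 0, .negSucc 3327, .ofNat 4992, .negSucc 319]),
  (204815060, [.ofNat 0, .ofNat 0, .ofNat 1728, .negSucc 159]),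
  (205903525, [.ofNat 0, .negSucc 15359, .ofNat 6080, .ofNat 6480]),
  (205929131, [.ofNat 0, .negSucc 10559, .negSucc 559, .negSucc 415]),
  (206092077, [.ofNat 16640, .negSucc 29055, .negSucc 44863, .negSucc 11359]),
  (206093148, [.ofNat 0, .negSucc 5119, .ofNat 5760, .ofNat 2592]),
  (206158444, [.negSucc 13311, .ofNat 16384, .negSucc 1407, .ofNat 320]),
  (206215900, [.ofNat 0, .negSucc 23551, .negSucc 9919, .ofNat 960]),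
  (206223117, [.ofNat 0, .ofNat 19584, .negSucc 6719, .negSucc 63]),
  (206353772, [.ofNat 0, .ofNat 6912, .negSucc 2815]),
  (206362277, [.ofNat 0, .negSucc 3455, .negSucc 63, .ofNat 384]),
  (206379819, [.ofNat 0, .ofNat 6448, .ofNat 7872, .negSucc 3631]),
  (206386028, [.ofNat 0, .negSucc 3071, .ofNat 256, .ofNat 2880]),
  (206412117, [.ofNat 0, .ofNat 31744, .ofNat 37888, .ofNat 10272]),
  (206412460, [.ofNat 0, .ofNat 6912, .negSucc 1407]),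
  (206416681, [.ofNat 53248, .negSucc 39503, .negSucc 40495, .negSucc 20903]),
  (206427405, [.ofNat 0, .ofNat 4864, .ofNat 1184]),
  (206428770, [.ofNat 3328, .ofNat 65440, .negSucc 68047, .ofNat 5136]),
  (206476965, [.ofNat 0, .negSucc 3455, .negSucc 63, .ofNat 384]),
  (206477980, [.ofNat 0, .negSucc 3455, .negSucc 767, .ofNat 64]),
  (206484133, [.ofNat 0, .negSucc 15359, .ofNat 6080, .ofNat 6480]),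
  (206484581, [.negSucc 79871, .negSucc 166975, .ofNat 112000, .ofNat 50640]),
  (206484588, [.ofNat 0, .negSucc 3327, .ofNat 9344, .negSucc 1087]),
  (206615915, [.ofNat 0, .negSucc 2431, .negSucc 5215, .negSucc 63]),
  (206616426, [.ofNat 0, .ofNat 4864, .ofNat 1184]),
  (206943501, [.ofNat 0, .ofNat 4864, .ofNat 1184]),
  (207004380, [.ofNat 0, .negSucc 5119, .ofNat 5760, .ofNat 2592]),
  (210064605, [.ofNat 0, .negSucc 17471, .ofNat 44976, .negSucc 15407]),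
  (210065109, [.ofNat 0, .negSucc 21567, .ofNat 41072, .negSucc 15087]),
  (210150621, [.ofNat 0, .ofNat 5120, .negSucc 5759, .negSucc 2591]),
  (210151125, [.ofNat 0, .ofNat 5120, .negSucc 5759, .negSucc 2591]),
  (210351437, [.ofNat 0, .negSucc 1983, .negSucc 1359, .ofNat 128]),
  (211068629, [.ofNat 0, .ofNat 17664, .ofNat 18240, .negSucc 11775]),
  (212155092, [.ofNat 0, .ofNat 1344, .ofNat 9120, .negSucc 2911]),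
  (212247772, [.ofNat 0, .negSucc 33279, .negSucc 575, .ofNat 960]),
  (212383957, [.ofNat 0, .ofNat 10944, .ofNat 11680, .negSucc 5023]),
  (212440741, [.ofNat 0, .ofNat 4064, .negSucc 23759, .negSucc 7207]),
  (212440853, [.ofNat 0, .negSucc 7679, .negSucc 7871, .negSucc 2559]),
  (212441301, [.ofNat 0, .ofNat 20608, .negSucc 5375, .negSucc 6639]),
  (212448021, [.ofNat 13312, .negSucc 26815, .negSucc 48735, .negSucc 11135]),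
  (212452053, [.ofNat 0, .ofNat 20608, .negSucc 5375, .negSucc 6639]),
  (212452949, [.ofNat 0, .ofNat 10944, .ofNat 11680, .negSucc 5023]),
  (212453005, [.ofNat 0, .negSucc 8703, .ofNat 8320, .negSucc 2399]),
  (212457100, [.ofNat 0, .negSucc 27711, .negSucc 25247, .ofNat 8144]),
  (212473557, [.ofNat 13312, .negSucc 26815, .negSucc 48735, .negSucc 11135]),
  (212480725, [.ofNat 0, .negSucc 7679, .negSucc 7871, .negSucc 2559]),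
  (212939477, [.ofNat 0, .ofNat 4064, .negSucc 23759, .negSucc 7207]),
  (213165780, [.ofNat 0, .negSucc 17663, .negSucc 18239, .ofNat 11776]),
  (213201620, [.ofNat 0, .negSucc 10879, .ofNat 800, .negSucc 63]),
  (556349677, [.ofNat 0, .negSucc 1535, .ofNat 256, .ofNat 320]),
  (556349789, [.ofNat 6656, .negSucc 24447, .ofNat 1216]),
  (556350181, [.ofNat 26624, .negSucc 27647, .negSucc 47679, .negSucc 24191]),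
  (556381485, [.ofNat 0, .negSucc 767, .ofNat 1600]),
  (556381541, [.ofNat 0, .ofNat 768, .negSucc 1599]),
  (556390053, [.ofNat 0, .negSucc 67679, .ofNat 14800, .ofNat 4128])]

/-- data -/
def lE7x2 : List (ℕ × List ℤ) := [(556390060, [.ofNat 0, .negSucc 11711, .ofNat 2080, .ofNat 352]),
  (556443365, [.ofNat 0, .negSucc 1119, .ofNat 1280, .negSucc 14991]),
  (556873557, [.ofNat 0, .ofNat 4096, .negSucc 2623]),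
  (556881621, [.ofNat 0, .ofNat 768, .negSucc 3007]),
  (558479469, [.negSucc 6655, .ofNat 9856, .ofNat 896]),
  (558543645, [.ofNat 13312, .negSucc 40959, .negSucc 33343, .negSucc 14015]),
  (558683421, [.ofNat 79872, .ofNat 42976, .negSucc 142399, .negSucc 55903]),
  (558683925, [.ofNat 79872, .ofNat 42976, .negSucc 142399, .negSucc 55903]),
  (558701341, [.ofNat 0, .negSucc 11071, .negSucc 4159, .negSucc 1087]),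
  (558701404, [.ofNat 0, .ofNat 11072, .ofNat 4160, .ofNat 1088]),
  (558748773, [.ofNat 0, .negSucc 13951, .negSucc 5791, .negSucc 3423]),
  (558805669, [.ofNat 26624, .ofNat 17792, .ofNat 14560, .negSucc 9119]),
  (558806285, [.ofNat 0, .ofNat 0, .negSucc 12607, .ofNat 352]),
  (559224549, [.ofNat 0, .negSucc 23295, .negSucc 9535, .negSucc 3551]),
  (559224605, [.ofNat 13312, .ofNat 57984, .negSucc 66943, .negSucc 8127]),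
  (559264533, [.ofNat 13312, .negSucc 40959, .negSucc 33343, .negSucc 14015]),
  (559264869, [.ofNat 0, .negSucc 13951, .negSucc 5791, .negSucc 3423]),
  (562378413, [.ofNat 0, .negSucc 4863, .negSucc 1951, .ofNat 160]),
  (564471525, [.ofNat 26624, .negSucc 28415, .negSucc 48127, .negSucc 23871])]

/-- the sum of the part -/
def lE7 : List (ℕ × List ℤ) := lE7x0 ++ (lE7x1 ++ (lE7x2))

theorem okE7 : dE7.all (rok tbE 12) = true := by decide +kernel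

theorem sumE7 : aeq (fz (sumT tbE dE7)) lE7 = true := by decide +kernel

end Pool.Agent.H.MP_e16c79_al.IS
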