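import Pool.Agent.H.MP_e16c79_al.IS.BTabE

/-!
# MP_e16c79_al: certificate E, part 8
-/

set_option autoImplicit false

namespace Pool.Agent.H.MP_e16c79_al.IS

/-- data -/
def dE8x0 : RT := (.nd (.nd (.nd (.lf ⟨[.negSucc 6655, .negSucc 11047, .ofNat 31048, .ofNat 6952], (.tr (.lf 6) (.lf 9) (.tr (.lf 17) (.tw (.dx 0 (.tr (.lf 13) (.lf 5) (.lf 14))) (.lf 10)) (.lf 18))), 0, [20, 20, 20, 20, 20, 20, 20, 20], []⟩)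
    (.lf ⟨[.ofNat 6656, .ofNat 20784, .negSucc 22871, .negSucc 1415], (.tr (.lf 6) (.tr (.lf 9) (.tw (.dx 0 (.tr (.lf 13) (.lf 5) (.lf 14))) (.lf 17)) (.lf 10)) (.lf 18)), 0, [8, 8, 20, 20, 8, 8, 20, 20], []⟩))
    (.nd (.lf ⟨[.negSucc 16639, .negSucc 19199, .ofNat 26560, .ofNat 12704], (.tw (.lf 6) (.tr (.lf 9) (.dx 0 (.tr (.lf 13) (.lf 5) (.lf 14))) (.tr (.lf 17) (.lf 10) (.lf 18)))), 0, [8, 8, 8, 8, 7, 7, 7, 7], []⟩)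
    (.lf ⟨[.ofNat 0, .ofNat 2128, .negSucc 1691, .negSucc 143], (.tr (.lf 6) (.lf 17) (.tr (.lf 9) (.tw (.dx 0 (.tr (.lf 13) (.lf 5) (.lf 14))) (.lf 18)) (.lf 10))), 0, [20, 20, 7, 7, 20, 20, 7, 7], []⟩)))
    (.nd (.nd (.lf ⟨[.ofNat 3328, .ofNat 11848, .negSucc 12803, .negSucc 1219], (.tw (.lf 17) (.tr (.dx 0 (.tr (.lf 13) (.lf 5) (.lf 14))) (.tr (.lf 9) (.lf 18) (.lf 10)) (.lf 6))), 0, [21, 21, 21, 21, 1, 1, 1, 1], []⟩)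
    (.lf ⟨[.negSucc 4991, .ofNat 7432, .negSucc 1923, .ofNat 5052], (.tw (.dx 0 (.tr (.lf 13) (.lf 5) (.lf 14))) (.tr (.lf 6) (.lf 9) (.tr (.lf 17) (.lf 10) (.lf 18)))), 0, [0, 0, 21, 21, 0, 0, 21, 21], []⟩))
    (.nd (.lf ⟨[.ofNat 9984, .negSucc 9615, .ofNat 4552, .negSucc 10263], (.tr (.dx 0 (.tr (.lf 13) (.lf 5) (.lf 14))) (.lf 6) (.tr (.tw (.lf 9) (.lf 17)) (.lf 10) (.lf 18))), 0, [0, 0, 0, 23, 0, 0, 0, 23], []⟩)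
    (.lf ⟨[.negSucc 4991, .ofNat 3976, .negSucc 579, .ofNat 5212], (.tw (.dx 0 (.tr (.lf 13) (.lf 5) (.lf 14))) (.tr (.lf 6) (.tr (.lf 17) (.lf 9) (.lf 18)) (.lf 10))), 0, [23, 23, 0, 0, 23, 23, 0, 0], []⟩))))

/-- data -/
def dE8x1 : RT := (.nd (.nd (.nd (.lf ⟨[.ofNat 0, .ofNat 832, .negSucc 1695, .negSucc 79], (.tw (.lf 9) (.tr (.dx 0 (.tr (.lf 13) (.lf 5) (.lf 14))) (.lf 6) (.tr (.lf 17) (.lf 10) (.lf 18)))), 0, [6, 6, 6, 6, 22, 22, 22, 22], []⟩)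
    (.lf ⟨[.ofNat 19968, .negSucc 8991, .negSucc 1903, .negSucc 20527], (.tr (.lf 6) (.lf 9) (.tr (.dx 0 (.tr (.lf 13) (.lf 5) (.lf 14))) (.lf 17) (.tw (.lf 10) (.lf 18)))), 0, [8, 8, 8, 8, 20, 20, 20, 20], []⟩))
    (.nd (.lf ⟨[.ofNat 0, .negSucc 1215, .negSucc 295], (.tw (.dx 0 (.tr (.lf 13) (.lf 5) (.lf 14))) (.tr (.lf 17) (.tr (.lf 6) (.lf 9) (.lf 10)) (.lf 18))), 0, [0, 0, 0, 0, 0, 0, 0, 0], []⟩)
    (.lf ⟨[.ofNat 0, .ofNat 736, .ofNat 1408, .negSucc 343], (.tw (.dx 0 (.tr (.lf 5) (.lf 13) (.lf 14))) (.tr (.lf 17) (.tr (.lf 9) (.lf 6) (.lf 10)) (.lf 18))), 0, [0, 0, 0, 0, 0, 0, 0, 0], []⟩)))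
    (.nd (.nd (.lf ⟨[.ofNat 0, .ofNat 1736, .negSucc 2595, .negSucc 2199], (.tr (.dx 3 (.tr (.lf 1) (.lf 5) (.lf 2))) (.lf 9) (.tr (.lf 6) (.tw (.lf 17) (.lf 18)) (.lf 10))), 3, [23, 23, 21, 21, 23, 23, 21, 21], []⟩)
    (.lf ⟨[.ofNat 0, .negSucc 5959, .ofNat 1860, .ofNat 2168], (.tr (.dx 3 (.tr (.lf 1) (.lf 5) (.lf 2))) (.tr (.lf 9) (.lf 6) (.tw (.lf 17) (.lf 18))) (.lf 10)), 3, [23, 23, 23, 23, 23, 23, 23, 23], []⟩))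
    (.nd (.lf ⟨[.ofNat 0, .ofNat 5960, .negSucc 1859, .negSucc 2167], (.tr (.dx 3 (.tr (.lf 1) (.lf 5) (.lf 2))) (.lf 17) (.tr (.tw (.lf 9) (.lf 10)) (.lf 6) (.lf 18))), 3, [0, 0, 23, 23, 0, 0, 23, 23], []⟩)
    (.lf ⟨[.ofNat 0, .ofNat 944, .negSucc 4571, .ofNat 424], (.tr (.lf 6) (.lf 17) (.tr (.dx 3 (.tr (.lf 1) (.lf 5) (.lf 2))) (.tw (.lf 9) (.lf 10)) (.lf 18))), 3, [16, 16, 16, 16, 20, 20, 20, 20], []⟩))))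

/-- data -/
def dE8x2 : RT := (.nd (.nd (.nd (.lf ⟨[.ofNat 0, .negSucc 10671, .negSucc 991, .ofNat 1220], (.tw (.dx 3 (.tr (.lf 1) (.lf 5) (.lf 2))) (.tr (.lf 17) (.tr (.lf 6) (.lf 9) (.lf 10)) (.lf 18))), 3, [23, 0, 23, 0, 23, 0, 23, 0], []⟩)
    (.lf ⟨[.ofNat 0, .ofNat 656, .ofNat 2764, .negSucc 247], (.tw (.lf 6) (.tr (.lf 17) (.tr (.dx 3 (.tr (.lf 1) (.lf 5) (.lf 2))) (.lf 9) (.lf 10)) (.lf 18))), 3, [16, 16, 20, 20, 16, 16, 20, 20], []⟩))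
    (.nd (.lf ⟨[.ofNat 0, .ofNat 368, .negSucc 603, .negSucc 7], (.tr (.lf 6) (.tr (.dx 3 (.tr (.lf 1) (.lf 5) (.lf 2))) (.tw (.lf 9) (.lf 10)) (.lf 17)) (.lf 18)), 3, [4, 4, 4, 4, 20, 20, 20, 20], []⟩)
    (.lf ⟨[.ofNat 0, .negSucc 367, .ofNat 604, .ofNat 8], (.tr (.lf 6) (.dx 3 (.tr (.lf 1) (.lf 5) (.lf 2))) (.tr (.tw (.lf 9) (.lf 10)) (.lf 17) (.lf 18))), 3, [4, 4, 19, 19, 4, 4, 19, 19], []⟩)))
    (.nd (.nd (.lf ⟨[.ofNat 0, .ofNat 368, .negSucc 603, .negSucc 7], (.tr (.lf 6) (.tr (.dx 3 (.tr (.lf 1) (.lf 5) (.lf 2))) (.tw (.lf 17) (.lf 18)) (.lf 9)) (.lf 10)), 3, [19, 19, 19, 19, 20, 20, 20, 20], []⟩)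
    (.lf ⟨[.ofNat 0, .negSucc 3263, .negSucc 2127, .ofNat 576], (.tw (.lf 17) (.tr (.dx 0 (.tr (.lf 5) (.lf 13) (.lf 14))) (.lf 18) (.tr (.lf 9) (.lf 6) (.lf 10)))), 0, [23, 23, 23, 23, 1, 1, 1, 1], []⟩))
    (.nd (.lf ⟨[.ofNat 3328, .ofNat 16976, .negSucc 7583, .negSucc 6251], (.tr (.dx 0 (.tr (.lf 9) (.lf 5) (.tw (.lf 13) (.lf 14)))) (.lf 6) (.tr (.lf 17) (.lf 10) (.lf 18))), 0, [2, 2, 2, 2, 0, 0, 0, 0], []⟩)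
    (.lf ⟨[.negSucc 6655, .negSucc 50143, .ofNat 9440, .ofNat 12568], (.tr (.dx 0 (.tr (.lf 9) (.tw (.lf 5) (.lf 13)) (.lf 14))) (.lf 6) (.tr (.lf 17) (.lf 10) (.lf 18))), 0, [2, 2, 2, 2, 0, 0, 0, 0], []⟩))))

/-- data -/
def dE8x3 : RT := (.nd (.nd (.nd (.lf ⟨[.ofNat 0, .ofNat 25272, .ofNat 1440, .negSucc 2299], (.tr (.dx 0 (.tr (.lf 13) (.tw (.lf 5) (.lf 9)) (.lf 14))) (.lf 6) (.tr (.lf 17) (.lf 10) (.lf 18))), 0, [0, 0, 2, 2, 0, 0, 2, 2], []⟩)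
    (.lf ⟨[.ofNat 0, .ofNat 29784, .negSucc 943, .negSucc 5043], (.tr (.lf 6) (.dx 0 (.tr (.lf 9) (.lf 5) (.tw (.lf 13) (.lf 14)))) (.tr (.lf 17) (.lf 10) (.lf 18))), 0, [4, 4, 4, 4, 4, 4, 4, 4], []⟩))
    (.nd (.lf ⟨[.ofNat 0, .negSucc 41583, .ofNat 9776, .ofNat 9976], (.tr (.lf 6) (.dx 0 (.tr (.lf 9) (.tw (.lf 5) (.lf 13)) (.lf 14))) (.tr (.lf 17) (.lf 10) (.lf 18))), 0, [4, 4, 4, 4, 4, 4, 4, 4], []⟩)
    (.lf ⟨[.ofNat 9984, .ofNat 14800, .negSucc 19559, .negSucc 9135], (.tr (.dx 0 (.tr (.lf 13) (.tw (.lf 5) (.lf 9)) (.lf 14))) (.tr (.lf 17) (.lf 10) (.lf 18)) (.lf 6)), 0, [0, 0, 2, 2, 0, 0, 2, 2], []⟩)))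
    (.nd (.nd (.lf ⟨[.negSucc 9983, .negSucc 13487, .ofNat 19736, .ofNat 9096], (.tr (.dx 0 (.tr (.tw (.lf 9) (.lf 13)) (.lf 5) (.lf 14))) (.tr (.lf 17) (.lf 10) (.lf 18)) (.lf 6)), 0, [2, 2, 2, 2, 0, 0, 0, 0], []⟩)
    (.lf ⟨[.ofNat 0, .ofNat 756, .ofNat 56, .negSucc 1475], (.tr (.lf 17) (.dx 0 (.tr (.lf 5) (.tw (.lf 13) (.lf 14)) (.lf 9))) (.tr (.lf 6) (.lf 18) (.lf 10))), 0, [23, 21, 23, 21, 23, 21, 23, 21], []⟩))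
    (.nd (.lf ⟨[.ofNat 0, .ofNat 2488, .negSucc 3959, .negSucc 1223], (.tr (.lf 17) (.dx 0 (.tr (.lf 13) (.tw (.lf 5) (.lf 9)) (.lf 14))) (.tr (.lf 6) (.lf 18) (.lf 10))), 0, [23, 21, 23, 21, 23, 21, 23, 21], []⟩)
    (.lf ⟨[.ofNat 0, .ofNat 3872, .negSucc 1279, .negSucc 575], (.tr (.lf 6) (.tr (.dx 0 (.tr (.lf 13) (.tw (.lf 5) (.lf 9)) (.lf 14))) (.lf 17) (.lf 18)) (.lf 10)), 0, [4, 4, 4, 4, 7, 7, 7, 7], []⟩))))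

/-- data -/
def dE8x4 : RT := (.nd (.nd (.nd (.lf ⟨[.ofNat 0, .negSucc 13407, .negSucc 8947, .ofNat 340], (.tr (.lf 6) (.lf 10) (.tr (.lf 17) (.dx 0 (.tr (.lf 5) (.tw (.lf 13) (.lf 14)) (.lf 9))) (.lf 18))), 0, [20, 20, 20, 20, 20, 20, 20, 20], []⟩)
    (.lf ⟨[.ofNat 6656, .ofNat 50144, .negSucc 9439, .negSucc 12567], (.tr (.lf 6) (.lf 10) (.tr (.lf 17) (.dx 0 (.tr (.lf 5) (.lf 13) (.tw (.lf 9) (.lf 14)))) (.lf 18))), 0, [20, 20, 20, 20, 20, 20, 20, 20], []⟩))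
    (.nd (.lf ⟨[.negSucc 6655, .ofNat 4032, .ofNat 25024, .ofNat 8592], (.tr (.lf 6) (.lf 10) (.tr (.lf 17) (.dx 0 (.tr (.tw (.lf 5) (.lf 13)) (.lf 14) (.lf 9))) (.lf 18))), 0, [20, 20, 20, 20, 20, 20, 20, 20], []⟩)
    (.lf ⟨[.ofNat 0, .ofNat 704, .negSucc 223], (.tr (.lf 6) (.tr (.lf 17) (.dx 0 (.tr (.tw (.lf 5) (.lf 9)) (.lf 13) (.lf 14))) (.lf 18)) (.lf 10)), 0, [16, 16, 19, 19, 16, 16, 19, 19], []⟩)))
    (.nd (.nd (.lf ⟨[.ofNat 3328, .negSucc 17237, .negSucc 12425, .negSucc 6565], (.tw (.dx 0 (.tr (.lf 5) (.tw (.lf 13) (.lf 14)) (.lf 9))) (.tr (.lf 17) (.tw (.lf 6) (.lf 10)) (.lf 18))), 0, [0, 0, 0, 0, 0, 0, 0, 0, 2, 2, 2, 2, 2, 2, 2, 2], []⟩)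
    (.lf ⟨[.ofNat 0, .negSucc 23855, .negSucc 10727, .ofNat 2896], (.tr (.dx 0 (.tr (.lf 5) (.tw (.lf 13) (.lf 14)) (.lf 9))) (.lf 17) (.tr (.lf 6) (.lf 10) (.lf 18))), 0, [0, 0, 0, 0, 2, 1017, 2, 1017], []⟩))
    (.nd (.lf ⟨[.ofNat 0, .negSucc 9559, .ofNat 1904, .negSucc 903], (.tr (.lf 17) (.lf 6) (.tr (.dx 0 (.tr (.lf 5) (.tw (.lf 13) (.lf 14)) (.lf 9))) (.lf 18) (.lf 10))), 0, [19, 19, 19, 19, 3, 3, 1, 1], []⟩)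
    (.lf ⟨[.ofNat 0, .negSucc 4095, .negSucc 2447, .negSucc 255], (.tw (.dx 0 (.tr (.lf 5) (.tw (.lf 13) (.lf 14)) (.lf 9))) (.tr (.tw (.lf 6) (.lf 10)) (.lf 17) (.lf 18))), 0, [0, 0, 1023, 0, 0, 0, 1023, 0, 2, 2, 2, 1017, 2, 2, 2, 1017], []⟩))))

/-- data -/
def dE8x5 : RT := (.nd (.nd (.nd (.lf ⟨[.ofNat 0, .negSucc 831, .ofNat 64, .ofNat 304], (.tw (.lf 6) (.tr (.dx 0 (.tr (.lf 5) (.lf 9) (.tw (.lf 13) (.lf 14)))) (.lf 10) (.tw (.lf 17) (.lf 18)))), 0, [4, 4, 4, 4, 4, 4, 4, 4, 1017, 1017, 1, 1, 1017, 1017, 1, 1], []⟩)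
    (.lf ⟨[.ofNat 0, .ofNat 2912, .ofNat 4064, .negSucc 1279], (.tw (.dx 0 (.tr (.tw (.lf 5) (.lf 9)) (.lf 13) (.lf 14))) (.tr (.lf 6) (.tw (.lf 17) (.lf 18)) (.lf 10))), 0, [0, 0, 0, 0, 2, 2, 2, 2, 1023, 1023, 0, 0, 2, 2, 1017, 1017], []⟩))
    (.nd (.lf ⟨[.ofNat 0, .negSucc 4399, .negSucc 8839, .negSucc 1279], (.tr (.lf 6) (.lf 17) (.tr (.dx 0 (.tr (.lf 9) (.lf 5) (.tw (.lf 13) (.lf 14)))) (.lf 10) (.lf 18))), 0, [16, 16, 16, 16, 1, 1, 3, 3], []⟩)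
    (.lf ⟨[.ofNat 0, .ofNat 12324, .ofNat 1908, .ofNat 876], (.tw (.lf 6) (.tr (.lf 17) (.tw (.dx 0 (.tr (.lf 9) (.lf 5) (.tw (.lf 13) (.lf 14)))) (.lf 10)) (.lf 18))), 0, [16, 16, 16, 16, 20, 20, 20, 20, 16, 16, 16, 16, 20, 20, 20, 20], []⟩)))
    (.nd (.nd (.lf ⟨[.ofNat 0, .ofNat 3976, .ofNat 724, .negSucc 2359], (.tr (.dx 0 (.tr (.lf 13) (.lf 14) (.tr (.lf 5) (.lf 9) (.lf 6)))) (.tw (.lf 17) (.lf 18)) (.lf 10)), 0, [19, 19, 19, 19, 0, 0, 0, 0], []⟩)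
    (.lf ⟨[.ofNat 0, .negSucc 15471, .negSucc 5479, .negSucc 959], (.tr (.lf 17) (.dx 0 (.tr (.tw (.lf 5) (.lf 9)) (.lf 13) (.lf 14))) (.tr (.lf 6) (.lf 18) (.lf 10))), 0, [23, 21, 23, 21, 23, 21, 23, 21], []⟩))
    (.nd (.lf ⟨[.ofNat 0, .negSucc 10943, .ofNat 3360, .ofNat 1152], (.tr (.lf 17) (.lf 6) (.tr (.dx 0 (.tr (.lf 5) (.lf 9) (.tw (.lf 13) (.lf 14)))) (.lf 18) (.lf 10))), 0, [19, 19, 19, 19, 3, 3, 1, 1], []⟩)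
    (.lf ⟨[.ofNat 0, .ofNat 3872, .negSucc 1559, .negSucc 631], (.tr (.lf 6) (.tr (.lf 9) (.dx 0 (.tr (.tw (.lf 13) (.lf 14)) (.lf 5) (.lf 17))) (.lf 10)) (.lf 18)), 0, [8, 8, 20, 20, 8, 8, 20, 20], []⟩))))

/-- data -/
def dE8x6 : RT := (.nd (.nd (.nd (.lf ⟨[.ofNat 0, .negSucc 3871, .ofNat 1560, .ofNat 632], (.tr (.lf 14) (.dx 0 (.tr (.lf 5) (.lf 13) (.lf 9))) (.tr (.lf 6) (.tw (.lf 17) (.lf 18)) (.lf 10))), 0, [23, 23, 21, 21, 23, 23, 21, 21], [23, 23, 21, 21]⟩)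
    (.lf ⟨[.ofNat 0, .negSucc 11055, .ofNat 5136, .ofNat 1296], (.tr (.lf 14) (.lf 6) (.tr (.dx 0 (.tr (.lf 5) (.lf 13) (.lf 9))) (.tw (.lf 17) (.lf 18)) (.lf 10))), 0, [19, 19, 19, 19, 3, 1, 3, 1], [19, 19, 15, 15]⟩))
    (.nd (.lf ⟨[.ofNat 0, .negSucc 6655, .negSucc 2159, .ofNat 48], (.tr (.lf 14) (.dx 0 (.tr (.lf 5) (.lf 9) (.lf 13))) (.tr (.lf 6) (.tw (.lf 17) (.lf 18)) (.lf 10))), 0, [23, 23, 21, 21, 23, 23, 21, 21], [23, 23, 21, 21]⟩)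
    (.lf ⟨[.ofNat 0, .negSucc 6655, .negSucc 2159, .ofNat 48], (.tr (.dx 0 (.tr (.lf 13) (.lf 14) (.tr (.lf 5) (.lf 9) (.lf 6)))) (.lf 17) (.tw (.lf 10) (.lf 18))), 0, [0, 19, 0, 19, 0, 0, 0, 0], []⟩)))
    (.nd (.nd (.lf ⟨[.ofNat 0, .ofNat 17712, .negSucc 2975, .negSucc 1343], (.tw (.lf 14) (.tr (.lf 6) (.tr (.dx 0 (.tr (.lf 5) (.lf 13) (.lf 9))) (.lf 17) (.lf 18)) (.lf 10))), 0, [19, 19, 7, 7, 17, 17, 5, 5], [19, 19, 17, 17]⟩)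
    (.lf ⟨[.ofNat 0, .negSucc 7423, .negSucc 5663, .negSucc 1263], (.tr (.lf 6) (.tr (.dx 0 (.tr (.lf 5) (.lf 13) (.lf 9))) (.tw (.lf 17) (.lf 18)) (.lf 10)) (.lf 14)), 0, [4, 4, 4, 4, 20, 20, 20, 20], [16, 16, 20, 20]⟩))
    (.nd (.lf ⟨[.ofNat 0, .ofNat 13056, .ofNat 4528, .ofNat 16], (.tr (.lf 6) (.tr (.lf 9) (.tw (.dx 0 (.tr (.lf 5) (.lf 13) (.lf 14))) (.lf 17)) (.lf 10)) (.lf 18)), 0, [8, 8, 20, 20, 8, 8, 20, 20], []⟩)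
    (.lf ⟨[.ofNat 0, .negSucc 9263, .negSucc 26023, .ofNat 8984], (.tr (.lf 6) (.lf 9) (.tr (.lf 17) (.tw (.dx 0 (.tr (.lf 5) (.lf 13) (.lf 14))) (.lf 10)) (.lf 18))), 0, [20, 20, 20, 20, 20, 20, 20, 20], []⟩))))

/-- data -/
def dE8x7 : RT := (.nd (.nd (.nd (.lf ⟨[.ofNat 0, .ofNat 3136, .ofNat 1200, .negSucc 79], (.tw (.lf 6) (.tr (.lf 9) (.dx 0 (.tr (.lf 5) (.lf 13) (.lf 14))) (.tr (.lf 17) (.lf 10) (.lf 18)))), 0, [8, 8, 8, 8, 7, 7, 7, 7], []⟩)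
    (.lf ⟨[.ofNat 0, .ofNat 6720, .ofNat 3568, .negSucc 15], (.tw (.lf 9) (.tr (.dx 0 (.tr (.lf 5) (.lf 13) (.lf 14))) (.tr (.lf 17) (.lf 10) (.lf 18)) (.lf 6))), 0, [6, 6, 6, 6, 22, 22, 22, 22], []⟩))
    (.nd (.lf ⟨[.ofNat 0, .negSucc 17983, .negSucc 7887, .ofNat 112], (.tw (.dx 0 (.tr (.lf 5) (.lf 13) (.lf 14))) (.tr (.lf 9) (.lf 6) (.tr (.lf 17) (.lf 10) (.lf 18)))), 0, [0, 0, 23, 23, 0, 0, 23, 23], []⟩)
    (.lf ⟨[.ofNat 0, .ofNat 6400, .ofNat 2368, .ofNat 64], (.tw (.lf 17) (.tr (.dx 0 (.tr (.lf 5) (.lf 13) (.lf 14))) (.tr (.lf 9) (.lf 18) (.lf 10)) (.lf 6))), 0, [21, 21, 21, 21, 1, 1, 1, 1], []⟩)))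
    (.nd (.nd (.lf ⟨[.ofNat 0, .negSucc 9855, .negSucc 4767, .ofNat 96], (.tw (.dx 0 (.tr (.lf 5) (.lf 13) (.lf 14))) (.tr (.lf 17) (.lf 6) (.tr (.lf 9) (.lf 18) (.lf 10)))), 0, [0, 0, 0, 0, 23, 23, 0, 0], []⟩)
    (.lf ⟨[.ofNat 0, .ofNat 4928, .ofNat 2384, .negSucc 47], (.tr (.lf 6) (.dx 0 (.tr (.tw (.lf 13) (.lf 14)) (.lf 5) (.lf 17))) (.tr (.lf 9) (.lf 18) (.lf 10))), 0, [4, 4, 4, 4, 16, 16, 16, 16], []⟩))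
    (.nd (.lf ⟨[.ofNat 0, .ofNat 18032, .ofNat 2600, .negSucc 335], (.tr (.lf 6) (.lf 17) (.tr (.lf 10) (.dx 0 (.tr (.lf 5) (.lf 9) (.tw (.lf 13) (.lf 14)))) (.lf 18))), 0, [20, 20, 20, 20, 7, 7, 7, 7], []⟩)
    (.lf ⟨[.ofNat 0, .negSucc 36063, .negSucc 5199, .ofNat 672], (.tr (.dx 0 (.tr (.lf 5) (.lf 13) (.lf 14))) (.tr (.lf 9) (.lf 6) (.tw (.lf 17) (.lf 18))) (.lf 10)), 0, [0, 0, 23, 23, 1023, 1023, 23, 23], []⟩))))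

/-- data -/
def dE8x8 : RT := (.nd (.nd (.nd (.lf ⟨[.ofNat 0, .ofNat 18736, .ofNat 2600, .negSucc 335], (.tr (.lf 9) (.lf 10) (.tr (.dx 0 (.tr (.lf 5) (.lf 13) (.lf 14))) (.tw (.lf 17) (.lf 18)) (.lf 6))), 0, [6, 6, 6, 6, 22, 22, 22, 22], []⟩)
    (.lf ⟨[.ofNat 0, .ofNat 17328, .ofNat 2600, .negSucc 335], (.tr (.dx 0 (.tr (.lf 5) (.lf 13) (.lf 14))) (.lf 17) (.tr (.tw (.lf 9) (.lf 10)) (.lf 6) (.lf 18))), 0, [0, 0, 23, 23, 0, 0, 23, 23], []⟩))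
    (.nd (.lf ⟨[.ofNat 0, .negSucc 18031, .negSucc 2599, .ofNat 336], (.tr (.lf 9) (.lf 6) (.tr (.dx 0 (.tr (.lf 5) (.lf 13) (.lf 14))) (.lf 10) (.tw (.lf 17) (.lf 18)))), 0, [10, 10, 10, 10, 22, 1023, 22, 1023], []⟩)
    (.lf ⟨[.ofNat 0, .ofNat 18032, .ofNat 2600, .negSucc 335], (.tr (.lf 17) (.lf 18) (.tr (.lf 9) (.tw (.dx 0 (.tr (.lf 5) (.lf 13) (.lf 14))) (.lf 6)) (.lf 10))), 0, [11, 11, 7, 7, 11, 11, 7, 7], []⟩)))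
    (.nd (.nd (.lf ⟨[.ofNat 0, .negSucc 18031, .negSucc 2599, .ofNat 336], (.tr (.lf 9) (.dx 0 (.tr (.lf 5) (.lf 13) (.lf 14))) (.tr (.lf 6) (.lf 10) (.tw (.lf 17) (.lf 18)))), 0, [6, 6, 6, 6, 6, 6, 21, 21], []⟩)
    (.lf ⟨[.ofNat 0, .ofNat 15120, .ofNat 5440, .negSucc 4015], (.tr (.dx 0 (.tr (.lf 13) (.lf 14) (.tr (.lf 5) (.tw (.lf 17) (.lf 18)) (.lf 9)))) (.lf 6) (.lf 10)), 0, [23, 23, 23, 23, 11, 11, 11, 11], []⟩))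
    (.nd (.lf ⟨[.ofNat 0, .negSucc 18735, .negSucc 2599, .ofNat 336], (.tr (.lf 6) (.lf 17) (.tr (.tw (.lf 9) (.lf 10)) (.dx 0 (.tr (.lf 5) (.lf 13) (.lf 14))) (.lf 18))), 0, [20, 20, 20, 20, 7, 7, 7, 7], []⟩)
    (.lf ⟨[.ofNat 0, .ofNat 1600, .negSucc 119, .ofNat 56], (.tw (.dx 0 (.tr (.tw (.lf 5) (.lf 9)) (.lf 13) (.lf 14))) (.tr (.lf 17) (.tw (.lf 6) (.lf 10)) (.lf 18))), 0, [0, 0, 0, 0, 2, 2, 2, 2, 0, 0, 0, 0, 2, 2, 2, 2], []⟩))))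

/-- data -/
def dE8x9 : RT := (.nd (.nd (.nd (.lf ⟨[.ofNat 0, .negSucc 8151, .ofNat 2408, .ofNat 1088], (.tw (.lf 6) (.tr (.lf 17) (.tw (.dx 0 (.tr (.lf 13) (.tw (.lf 5) (.lf 9)) (.lf 14))) (.lf 10)) (.lf 18))), 0, [16, 16, 16, 16, 20, 20, 20, 20, 16, 16, 16, 16, 20, 20, 20, 20], []⟩)
    (.lf ⟨[.ofNat 0, .ofNat 11888, .negSucc 6383, .negSucc 2575], (.tr (.lf 6) (.tr (.lf 10) (.dx 0 (.tr (.lf 13) (.tw (.lf 5) (.lf 9)) (.lf 14))) (.lf 17)) (.lf 18)), 0, [8, 8, 8, 8, 16, 16, 16, 16], []⟩))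
    (.nd (.lf ⟨[.ofNat 0, .negSucc 11887, .ofNat 6384, .ofNat 2576], (.tr (.lf 6) (.dx 0 (.tr (.lf 5) (.lf 13) (.lf 9))) (.tr (.lf 14) (.lf 10) (.tw (.lf 17) (.lf 18)))), 0, [4, 4, 4, 4, 4, 4, 4, 4], [4, 4, 16, 16]⟩)
    (.lf ⟨[.ofNat 0, .negSucc 1919, .ofNat 6528, .ofNat 2496], (.tr (.lf 6) (.lf 10) (.tr (.lf 14) (.dx 0 (.tr (.lf 5) (.lf 13) (.lf 9))) (.tw (.lf 17) (.lf 18)))), 0, [8, 8, 8, 8, 20, 20, 20, 20], [8, 8, 20, 20]⟩)))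
    (.nd (.nd (.lf ⟨[.ofNat 0, .ofNat 512, .negSucc 6079, .negSucc 2495], (.tr (.lf 17) (.lf 18) (.tr (.dx 0 (.tr (.lf 5) (.lf 13) (.lf 9))) (.lf 14) (.tw (.lf 6) (.lf 10)))), 0, [11, 9, 11, 9, 3, 1, 3, 1], [11, 9, 3, 1]⟩)
    (.lf ⟨[.ofNat 0, .ofNat 704, .negSucc 223], (.tr (.dx 0 (.tr (.lf 13) (.lf 9) (.tr (.lf 5) (.lf 14) (.lf 6)))) (.lf 10) (.tw (.lf 17) (.lf 18))), 0, [2, 2, 2, 2, 0, 0, 0, 0], []⟩))
    (.nd (.lf ⟨[.ofNat 0, .ofNat 1856, .ofNat 592, .negSucc 79], (.tr (.dx 0 (.tr (.lf 5) (.lf 6) (.tr (.lf 13) (.lf 9) (.lf 14)))) (.tw (.lf 17) (.lf 18)) (.lf 10)), 0, [0, 0, 0, 0, 2, 2, 2, 2], []⟩)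
    (.lf ⟨[.ofNat 0, .negSucc 4927, .negSucc 2383, .ofNat 48], (.tr (.lf 10) (.dx 0 (.tr (.lf 5) (.lf 9) (.tr (.lf 13) (.lf 6) (.lf 14)))) (.tw (.lf 17) (.lf 18))), 0, [6, 6, 6, 6, 6, 6, 6, 6], []⟩))))

/-- data -/
def dE8x10 : RT := (.nd (.nd (.nd (.lf ⟨[.ofNat 0, .ofNat 9856, .ofNat 4768, .negSucc 95], (.tw (.dx 0 (.tr (.tw (.lf 5) (.lf 13)) (.lf 14) (.lf 9))) (.tr (.lf 6) (.lf 10) (.tw (.lf 17) (.lf 18)))), 0, [0, 0, 0, 0, 0, 0, 21, 21, 2, 2, 2, 2, 2, 2, 1017, 1017], []⟩)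
    (.lf ⟨[.ofNat 0, .negSucc 543, .negSucc 23983, .ofNat 2064], (.tr (.lf 14) (.tr (.lf 9) (.tw (.dx 0 (.tr (.lf 5) (.lf 13) (.lf 17))) (.lf 6)) (.lf 10)) (.lf 18)), 0, [1017, 23, 10, 1017, 1017, 23, 10, 1017], [1017, 1017, 1017, 1017]⟩))
    (.nd (.lf ⟨[.ofNat 0, .negSucc 2047, .ofNat 1784, .negSucc 79], (.tr (.dx 0 (.tr (.tw (.lf 5) (.lf 6)) (.lf 13) (.lf 17))) (.lf 14) (.tr (.lf 9) (.lf 18) (.lf 10))), 0, [0, 0, 0, 0, 19, 19, 19, 19], []⟩)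
    (.lf ⟨[.ofNat 0, .ofNat 1664, .negSucc 4159, .ofNat 160], (.tr (.dx 0 (.tr (.lf 5) (.tw (.lf 6) (.lf 13)) (.lf 17))) (.lf 14) (.tr (.lf 9) (.lf 18) (.lf 10))), 0, [0, 0, 0, 0, 19, 19, 19, 19], []⟩)))
    (.nd (.nd (.lf ⟨[.ofNat 0, .ofNat 1392, .ofNat 11920, .negSucc 1707], (.tr (.lf 14) (.dx 0 (.tr (.tw (.lf 5) (.lf 6)) (.lf 13) (.lf 17))) (.tr (.lf 9) (.lf 18) (.lf 10))), 0, [19, 19, 19, 19, 19, 19, 19, 19], []⟩)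
    (.lf ⟨[.ofNat 0, .negSucc 799, .negSucc 22671, .ofNat 3256], (.tr (.lf 14) (.dx 0 (.tr (.lf 5) (.tw (.lf 6) (.lf 13)) (.lf 17))) (.tr (.lf 9) (.lf 18) (.lf 10))), 0, [19, 19, 19, 19, 19, 19, 19, 19], []⟩))
    (.nd (.lf ⟨[.ofNat 0, .ofNat 2480, .negSucc 199, .negSucc 495], (.tr (.lf 14) (.dx 0 (.tr (.lf 5) (.tw (.lf 13) (.lf 17)) (.lf 6))) (.tr (.lf 9) (.lf 18) (.lf 10))), 0, [19, 19, 19, 19, 19, 19, 19, 19], []⟩)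
    (.lf ⟨[.ofNat 19968, .ofNat 37696, .negSucc 36703, .negSucc 12715], (.tr (.dx 0 (.tr (.lf 5) (.tw (.lf 13) (.lf 17)) (.lf 6))) (.tr (.lf 9) (.lf 18) (.lf 10)) (.lf 14)), 0, [0, 0, 12, 12, 0, 0, 12, 12], []⟩))))

/-- data -/
def dE8x11 : RT := (.nd (.nd (.nd (.lf ⟨[.negSucc 6655, .negSucc 44415, .ofNat 7856, .ofNat 10840], (.tr (.dx 0 (.tr (.lf 5) (.lf 13) (.tw (.lf 6) (.lf 17)))) (.tr (.lf 9) (.lf 18) (.lf 10)) (.lf 14)), 0, [0, 0, 0, 0, 12, 12, 12, 12], []⟩)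
    (.lf ⟨[.negSucc 3327, .ofNat 5920, .ofNat 10024, .ofNat 3272], (.tr (.dx 0 (.tr (.lf 13) (.tw (.lf 5) (.lf 6)) (.lf 17))) (.tr (.lf 9) (.lf 18) (.lf 10)) (.lf 14)), 0, [0, 0, 0, 0, 12, 12, 12, 12], []⟩))
    (.nd (.lf ⟨[.ofNat 0, .ofNat 496, .negSucc 3495, .ofNat 968], (.tr (.lf 14) (.lf 18) (.tr (.lf 9) (.dx 0 (.tr (.lf 13) (.tw (.lf 5) (.lf 6)) (.lf 17))) (.lf 10))), 0, [19, 19, 7, 7, 19, 19, 7, 7], []⟩)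
    (.lf ⟨[.ofNat 0, .ofNat 4128, .ofNat 1040, .negSucc 1071], (.tr (.lf 14) (.lf 18) (.tr (.lf 9) (.dx 0 (.tr (.tw (.lf 5) (.lf 17)) (.lf 6) (.lf 13))) (.lf 10))), 0, [7, 7, 19, 19, 7, 7, 19, 19], []⟩)))
    (.nd (.nd (.lf ⟨[.negSucc 831, .ofNat 8600, .negSucc 299, .ofNat 1064], (.tr (.lf 14) (.tr (.lf 9) (.dx 0 (.tr (.tw (.lf 5) (.lf 6)) (.lf 13) (.lf 17))) (.lf 10)) (.lf 18)), 0, [6, 6, 19, 19, 6, 6, 19, 19], []⟩)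
    (.lf ⟨[.ofNat 0, .ofNat 5248, .ofNat 5024, .negSucc 175], (.tr (.lf 14) (.tr (.lf 9) (.dx 0 (.tr (.tw (.lf 5) (.lf 13)) (.lf 6) (.lf 17))) (.lf 10)) (.lf 18)), 0, [6, 1013, 1013, 19, 6, 1013, 1013, 19], []⟩))
    (.nd (.lf ⟨[.ofNat 6656, .negSucc 20287, .negSucc 17071, .negSucc 7007], (.tr (.lf 14) (.dx 0 (.tr (.lf 13) (.lf 5) (.tr (.lf 6) (.tw (.lf 9) (.lf 10)) (.lf 17)))) (.lf 18)), 0, [1015, 1015, 13, 13, 0, 0, 1015, 1015], []⟩)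
    (.lf ⟨[.ofNat 3328, .negSucc 10143, .negSucc 8535, .negSucc 3503], (.tr (.dx 3 (.tr (.tw (.lf 1) (.lf 2)) (.lf 5) (.lf 9))) (.lf 6) (.tr (.lf 17) (.lf 10) (.lf 18))), 3, [0, 0, 0, 0, 10, 10, 10, 10], []⟩))))

/-- data -/
def dE8x12 : RT := (.nd (.nd (.nd (.lf ⟨[.ofNat 6656, .negSucc 23295, .negSucc 15055, .negSucc 7007], (.tr (.lf 14) (.dx 0 (.tr (.lf 5) (.lf 13) (.tr (.lf 6) (.lf 17) (.tw (.lf 9) (.lf 10))))) (.lf 18)), 0, [15, 15, 1013, 1013, 1013, 1013, 2, 2], []⟩)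
    (.lf ⟨[.ofNat 3328, .ofNat 3072, .negSucc 22239, .negSucc 11935], (.tr (.lf 14) (.dx 0 (.tw (.lf 5) (.tr (.lf 6) (.tr (.lf 9) (.lf 13) (.lf 17)) (.lf 10)))) (.lf 18)), 0, [0, 1015, 0, 1013, 1013, 13, 1015, 13], []⟩))
    (.nd (.lf ⟨[.negSucc 415, .negSucc 2267, .ofNat 10378, .negSucc 561], (.tw (.dx 3 (.tr (.lf 5) (.tw (.lf 1) (.lf 2)) (.lf 9))) (.tr (.lf 17) (.tw (.lf 6) (.lf 10)) (.lf 18))), 3, [4, 4, 4, 4, 4, 4, 4, 4, 6, 6, 6, 6, 6, 6, 6, 6], []⟩)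
    (.lf ⟨[.ofNat 0, .ofNat 1472, .ofNat 1480, .ofNat 856], (.tr (.dx 0 (.tr (.lf 13) (.lf 17) (.lf 14))) (.lf 5) (.tr (.lf 6) (.lf 18) (.tw (.lf 9) (.lf 10)))), 0, [23, 23, 21, 21, 23, 23, 21, 21], []⟩)))
    (.nd (.nd (.lf ⟨[.ofNat 6656, .negSucc 8247, .negSucc 3783, .negSucc 1991], (.tw (.dx 0 (.tr (.lf 13) (.lf 17) (.lf 14))) (.tr (.lf 5) (.tr (.lf 6) (.lf 18) (.lf 9)) (.lf 10))), 0, [23, 23, 21, 21, 23, 23, 21, 21], []⟩)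
    (.lf ⟨[.negSucc 3327, .ofNat 532, .negSucc 3099, .ofNat 1626], (.tr (.dx 0 (.tr (.lf 13) (.lf 17) (.lf 14))) (.lf 5) (.tr (.lf 9) (.tw (.lf 6) (.lf 18)) (.lf 10))), 0, [23, 23, 23, 23, 23, 23, 23, 23], []⟩))
    (.nd (.lf ⟨[.negSucc 3327, .ofNat 7768, .negSucc 459, .ofNat 1626], (.tr (.dx 0 (.tr (.lf 13) (.lf 17) (.lf 14))) (.tr (.lf 9) (.tw (.lf 5) (.lf 18)) (.lf 10)) (.lf 6)), 0, [21, 21, 21, 21, 21, 21, 21, 21], []⟩)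
    (.lf ⟨[.ofNat 3328, .negSucc 7143, .negSucc 1419, .negSucc 1565], (.tw (.dx 0 (.tr (.lf 13) (.lf 17) (.lf 14))) (.tr (.lf 5) (.lf 18) (.tr (.lf 9) (.lf 6) (.lf 10)))), 0, [23, 23, 21, 21, 23, 23, 21, 21], []⟩))))

/-- data -/
def dE8x13 : RT := (.nd (.nd (.nd (.lf ⟨[.negSucc 3327, .negSucc 7783, .ofNat 4156, .ofNat 1172], (.tr (.dx 0 (.tr (.lf 13) (.lf 14) (.lf 17))) (.lf 18) (.tr (.tw (.lf 5) (.lf 6)) (.lf 9) (.lf 10))), 0, [23, 23, 21, 21, 23, 23, 21, 21], []⟩)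
    (.lf ⟨[.ofNat 6656, .ofNat 15568, .negSucc 8311, .negSucc 2343], (.tr (.dx 0 (.tr (.lf 13) (.lf 14) (.lf 17))) (.tr (.lf 5) (.tw (.lf 9) (.lf 10)) (.lf 18)) (.lf 6)), 0, [21, 21, 21, 21, 21, 21, 21, 21], []⟩))
    (.nd (.lf ⟨[.ofNat 0, .negSucc 5447, .ofNat 13724, .negSucc 4891], (.tr (.lf 18) (.dx 0 (.tr (.lf 13) (.lf 14) (.lf 17))) (.tr (.tw (.lf 5) (.lf 6)) (.lf 9) (.lf 10))), 0, [23, 23, 21, 21, 11, 11, 9, 9], []⟩)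
    (.lf ⟨[.ofNat 3328, .ofNat 2336, .ofNat 9568, .negSucc 6063], (.tr (.dx 3 (.tr (.lf 1) (.lf 17) (.lf 18))) (.lf 2) (.tr (.tw (.lf 5) (.lf 6)) (.lf 9) (.lf 10))), 3, [11, 11, 9, 9, 11, 11, 9, 9], []⟩)))
    (.nd (.nd (.lf ⟨[.ofNat 0, .negSucc 383, .ofNat 352], (.tr (.lf 5) (.lf 6) (.tr (.tw (.lf 9) (.lf 10)) (.dx 0 (.tr (.lf 13) (.lf 14) (.lf 17))) (.lf 18))), 0, [8, 20, 8, 20, 19, 19, 7, 7], []⟩)
    (.lf ⟨[.ofNat 0, .negSucc 383, .ofNat 352], (.tr (.lf 5) (.lf 6) (.tr (.dx 3 (.tr (.lf 1) (.lf 17) (.lf 18))) (.lf 2) (.tw (.lf 9) (.lf 10)))), 3, [7, 7, 7, 7, 8, 8, 8, 8], []⟩))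
    (.nd (.lf ⟨[.ofNat 0, .ofNat 384, .negSucc 351], (.tr (.lf 5) (.tr (.lf 6) (.tw (.dx 0 (.tr (.lf 13) (.lf 14) (.lf 17))) (.lf 18)) (.lf 9)) (.lf 10)), 0, [4, 16, 19, 7, 8, 20, 23, 11], []⟩)
    (.lf ⟨[.ofNat 0, .ofNat 384, .negSucc 351], (.tr (.lf 5) (.tr (.lf 6) (.tw (.dx 3 (.tr (.lf 1) (.lf 17) (.lf 18))) (.lf 2)) (.lf 9)) (.lf 10)), 3, [7, 7, 4, 4, 11, 11, 8, 8], []⟩))))

/-- data -/
def dE8x14 : RT := (.nd (.nd (.nd (.lf ⟨[.ofNat 0, .ofNat 11280, .negSucc 27799, .ofNat 9784], (.tr (.lf 5) (.tr (.dx 0 (.tr (.lf 13) (.lf 14) (.lf 17))) (.tw (.lf 9) (.lf 10)) (.lf 6)) (.lf 18)), 0, [4, 4, 16, 16, 8, 20, 8, 20], []⟩)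
    (.lf ⟨[.ofNat 0, .ofNat 11280, .negSucc 27799, .ofNat 9784], (.tr (.dx 3 (.tr (.lf 5) (.tw (.lf 1) (.lf 2)) (.lf 9))) (.lf 17) (.tr (.lf 6) (.lf 10) (.lf 18))), 3, [4, 21, 4, 21, 6, 21, 6, 21], []⟩))
    (.nd (.lf ⟨[.ofNat 0, .ofNat 368, .negSucc 603, .negSucc 7], (.tr (.dx 0 (.tr (.lf 5) (.lf 17) (.tw (.lf 13) (.lf 14)))) (.lf 6) (.tr (.lf 9) (.lf 18) (.lf 10))), 0, [12, 12, 12, 12, 23, 23, 23, 23], []⟩)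
    (.lf ⟨[.ofNat 0, .negSucc 799, .negSucc 1127, .negSucc 15], (.tr (.lf 6) (.dx 0 (.tr (.lf 5) (.tw (.lf 13) (.lf 14)) (.lf 17))) (.tr (.lf 9) (.lf 18) (.lf 10))), 0, [4, 4, 4, 4, 16, 16, 16, 16], []⟩)))
    (.nd (.nd (.lf ⟨[.ofNat 0, .negSucc 7267, .ofNat 776, .ofNat 1480], (.tr (.dx 0 (.tr (.lf 13) (.tw (.lf 5) (.lf 17)) (.lf 14))) (.lf 6) (.tr (.lf 9) (.lf 18) (.lf 10))), 0, [23, 23, 23, 23, 23, 23, 23, 23], []⟩)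
    (.lf ⟨[.ofNat 0, .ofNat 104, .negSucc 14687, .ofNat 2520], (.tr (.dx 0 (.tr (.tw (.lf 5) (.lf 13)) (.lf 17) (.lf 14))) (.lf 6) (.tr (.lf 9) (.lf 18) (.lf 10))), 0, [0, 0, 23, 23, 23, 23, 23, 23], []⟩))
    (.nd (.lf ⟨[.ofNat 0, .ofNat 3456, .negSucc 1727], (.tr (.dx 0 (.tr (.lf 13) (.lf 5) (.tw (.lf 14) (.lf 17)))) (.lf 6) (.tr (.lf 9) (.lf 18) (.lf 10))), 0, [23, 23, 23, 23, 23, 23, 23, 23], []⟩)
    (.lf ⟨[.ofNat 0, .negSucc 4927, .negSucc 2383, .ofNat 48], (.tr (.dx 0 (.tr (.tw (.lf 13) (.lf 14)) (.lf 5) (.lf 17))) (.lf 6) (.tr (.lf 9) (.lf 18) (.lf 10))), 0, [23, 23, 23, 23, 23, 23, 23, 23], []⟩))))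

/-- data -/
def dE8x15 : RT := (.nd (.nd (.nd (.lf ⟨[.ofNat 0, .ofNat 3424, .ofNat 3480, .negSucc 2767], (.tr (.dx 0 (.tr (.lf 5) (.tw (.lf 13) (.lf 14)) (.lf 17))) (.tr (.lf 9) (.lf 18) (.lf 10)) (.lf 6)), 0, [21, 21, 21, 21, 21, 21, 21, 21], []⟩)
    (.lf ⟨[.ofNat 0, .negSucc 1871, .negSucc 1755, .ofNat 72], (.tr (.dx 0 (.tr (.lf 5) (.lf 17) (.tw (.lf 13) (.lf 14)))) (.tr (.lf 9) (.lf 18) (.lf 10)) (.lf 6)), 0, [21, 21, 21, 21, 21, 21, 21, 21], []⟩))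
    (.nd (.lf ⟨[.negSucc 9983, .negSucc 2287, .ofNat 7832, .ofNat 10504], (.tr (.dx 0 (.tr (.lf 13) (.tw (.lf 5) (.lf 17)) (.lf 14))) (.tr (.lf 9) (.lf 18) (.lf 10)) (.lf 6)), 0, [21, 21, 21, 21, 21, 21, 21, 21], []⟩)
    (.lf ⟨[.ofNat 6656, .ofNat 23696, .negSucc 25607, .negSucc 2439], (.tr (.tw (.dx 0 (.tr (.lf 17) (.lf 9) (.tr (.lf 5) (.lf 13) (.lf 6)))) (.lf 14)) (.lf 18) (.lf 10)), 0, [14, 14, 0, 0, 19, 19, 19, 19], []⟩)))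
    (.nd (.nd (.lf ⟨[.ofNat 6656, .ofNat 23696, .negSucc 25607, .negSucc 2439], (.tr (.dx 0 (.tr (.lf 13) (.lf 9) (.tr (.lf 5) (.lf 17) (.lf 6)))) (.tw (.lf 10) (.lf 14)) (.lf 18)), 0, [2, 2, 2, 2, 12, 12, 12, 12], []⟩)
    (.lf ⟨[.ofNat 16640, .ofNat 2704, .ofNat 1640, .negSucc 6775], (.tr (.tw (.dx 0 (.tr (.lf 13) (.lf 9) (.tr (.lf 5) (.lf 17) (.lf 6)))) (.lf 10)) (.lf 14) (.lf 18)), 0, [2, 2, 12, 12, 6, 6, 18, 18], []⟩))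
    (.nd (.lf ⟨[.ofNat 0, .negSucc 1663, .ofNat 656, .ofNat 1612], (.tr (.tw (.lf 6) (.lf 10)) (.dx 3 (.tr (.lf 5) (.tr (.lf 1) (.lf 17) (.lf 2)) (.lf 9))) (.lf 18)), 3, [8, 8, 8, 8, 10, 10, 10, 10], []⟩)
    (.lf ⟨[.negSucc 23295, .negSucc 29023, .ofNat 23616, .ofNat 9296], (.tr (.dx 0 (.tr (.lf 13) (.lf 9) (.tr (.lf 5) (.lf 17) (.lf 6)))) (.lf 10) (.tw (.lf 14) (.lf 18))), 0, [2, 2, 2, 2, 12, 12, 12, 12], []⟩))))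

/-- data -/
def dE8x16 : RT := (.nd (.nd (.nd (.lf ⟨[.ofNat 16640, .ofNat 26944, .negSucc 31199, .negSucc 12783], (.tr (.dx 0 (.tr (.lf 17) (.lf 9) (.tr (.lf 5) (.lf 13) (.lf 6)))) (.tw (.lf 10) (.lf 14)) (.lf 18)), 0, [14, 14, 14, 14, 0, 0, 0, 0], []⟩)
    (.lf ⟨[.negSucc 16639, .negSucc 26943, .ofNat 31072, .ofNat 12784], (.tr (.dx 0 (.tr (.lf 17) (.lf 9) (.tr (.lf 5) (.lf 13) (.lf 6)))) (.lf 14) (.tw (.lf 10) (.lf 18))), 0, [14, 14, 14, 14, 0, 0, 0, 0], []⟩))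
    (.nd (.lf ⟨[.negSucc 831, .negSucc 6215, .ofNat 19284, .negSucc 1907], (.tw (.dx 3 (.tr (.lf 1) (.tr (.lf 17) (.lf 9) (.tr (.lf 5) (.lf 18) (.lf 6))) (.lf 2))) (.lf 10)), 3, [7, 7, 7, 7, 7, 7, 7, 7], []⟩)
    (.lf ⟨[.negSucc 16639, .negSucc 7055, .negSucc 231, .ofNat 6664], (.tr (.lf 10) (.dx 0 (.tr (.lf 13) (.lf 9) (.tr (.lf 5) (.lf 17) (.lf 6)))) (.tw (.lf 14) (.lf 18))), 0, [6, 6, 6, 6, 18, 18, 18, 18], []⟩)))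
    (.nd (.nd (.lf ⟨[.negSucc 9983, .negSucc 11951, .ofNat 936, .ofNat 5448], (.tr (.lf 10) (.tw (.dx 0 (.tr (.lf 17) (.lf 9) (.tr (.lf 5) (.lf 13) (.lf 6)))) (.lf 14)) (.lf 18)), 0, [18, 18, 6, 6, 6, 6, 6, 6], []⟩)
    (.lf ⟨[.negSucc 9983, .negSucc 1327, .ofNat 10200, .ofNat 10664], (.tr (.tw (.dx 0 (.tr (.lf 13) (.lf 9) (.tr (.lf 5) (.lf 17) (.lf 6)))) (.lf 14)) (.lf 18) (.lf 10)), 0, [2, 2, 12, 12, 19, 19, 19, 19], []⟩))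
    (.nd (.lf ⟨[.ofNat 9984, .ofNat 3248, .negSucc 5463, .negSucc 10343], (.tr (.dx 0 (.tr (.lf 13) (.lf 5) (.tw (.lf 14) (.lf 17)))) (.tr (.lf 9) (.lf 18) (.lf 10)) (.lf 6)), 0, [21, 21, 21, 21, 21, 21, 21, 21], []⟩)
    (.lf ⟨[.negSucc 9983, .ofNat 1040, .ofNat 2296, .ofNat 10424], (.tr (.dx 0 (.tw (.lf 13) (.tr (.lf 17) (.lf 9) (.tr (.lf 5) (.lf 14) (.lf 6))))) (.lf 18) (.lf 10)), 0, [19, 19, 19, 19, 14, 14, 0, 0], []⟩))))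

/-- data -/
def dE8x17 : RT := (.nd (.nd (.nd (.lf ⟨[.ofNat 9984, .ofNat 5872, .negSucc 5751, .negSucc 10423], (.tr (.dx 0 (.tw (.lf 5) (.tr (.lf 17) (.lf 9) (.tr (.lf 13) (.lf 6) (.lf 14))))) (.lf 18) (.lf 10)), 0, [12, 12, 0, 0, 19, 19, 19, 19], []⟩)
    (.lf ⟨[.ofNat 9984, .ofNat 13488, .negSucc 19735, .negSucc 9095], (.tr (.dx 0 (.tr (.lf 17) (.lf 9) (.tr (.lf 13) (.lf 5) (.lf 14)))) (.tw (.lf 6) (.lf 18)) (.lf 10)), 0, [23, 23, 23, 23, 23, 23, 23, 23], []⟩))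
    (.nd (.lf ⟨[.negSucc 16639, .negSucc 21023, .ofNat 24552, .ofNat 12496], (.tr (.dx 0 (.tr (.lf 17) (.lf 5) (.tr (.lf 13) (.lf 9) (.lf 14)))) (.lf 18) (.tw (.lf 6) (.lf 10))), 0, [23, 21, 23, 21, 23, 21, 23, 21], []⟩)
    (.lf ⟨[.ofNat 0, .negSucc 1223, .ofNat 1088, .ofNat 1644], (.tr (.dx 0 (.tr (.lf 5) (.lf 17) (.tw (.lf 13) (.lf 14)))) (.lf 18) (.tr (.lf 9) (.lf 6) (.lf 10))), 0, [23, 23, 23, 23, 23, 23, 23, 23], []⟩)))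
    (.nd (.nd (.lf ⟨[.ofNat 0, .ofNat 13984, .ofNat 4120, .negSucc 79], (.tr (.lf 6) (.dx 0 (.tr (.lf 5) (.lf 13) (.tr (.lf 9) (.tw (.lf 17) (.lf 18)) (.lf 14)))) (.lf 10)), 0, [4, 4, 1015, 1015, 1015, 1015, 7, 7], []⟩)
    (.lf ⟨[.ofNat 0, .negSucc 11263, .negSucc 4319, .ofNat 96], (.tr (.lf 6) (.dx 0 (.tw (.lf 13) (.tr (.lf 17) (.lf 18) (.tr (.lf 5) (.lf 14) (.lf 9))))) (.lf 10)), 0, [7, 7, 4, 4, 7, 7, 4, 4], []⟩))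
    (.nd (.lf ⟨[.ofNat 0, .ofNat 13824, .ofNat 6152, .ofNat 656], (.tr (.dx 0 (.tr (.lf 5) (.lf 13) (.tr (.lf 14) (.lf 9) (.tw (.lf 17) (.lf 18))))) (.lf 6) (.lf 10)), 0, [23, 23, 11, 11, 11, 11, 11, 11], []⟩)
    (.lf ⟨[.ofNat 0, .negSucc 16415, .negSucc 1279, .negSucc 607], (.tr (.dx 0 (.tr (.lf 5) (.tr (.lf 9) (.tw (.lf 17) (.lf 18)) (.lf 13)) (.lf 14))) (.lf 6) (.lf 10)), 0, [1023, 1023, 11, 11, 11, 11, 23, 23], []⟩))))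

/-- data -/
def dE8x18 : RT := (.nd (.nd (.nd (.lf ⟨[.ofNat 0, .ofNat 2224, .ofNat 3364, .ofNat 56], (.tr (.lf 6) (.tr (.dx 0 (.tr (.lf 5) (.lf 13) (.lf 9))) (.lf 14) (.tw (.lf 17) (.lf 18))) (.lf 10)), 0, [4, 4, 4, 4, 7, 7, 7, 7], [4, 4, 7, 7]⟩)
    (.lf ⟨[.ofNat 0, .negSucc 127, .negSucc 4671, .negSucc 63], (.tr (.dx 0 (.tr (.lf 13) (.lf 9) (.tr (.lf 5) (.lf 14) (.tw (.lf 17) (.lf 18))))) (.lf 6) (.lf 10)), 0, [23, 23, 11, 11, 11, 11, 11, 11], []⟩))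
    (.nd (.lf ⟨[.ofNat 0, .ofNat 1036, .ofNat 2972, .ofNat 728], (.tr (.lf 6) (.lf 18) (.tr (.lf 9) (.dx 0 (.tr (.lf 5) (.tw (.lf 13) (.lf 14)) (.lf 17))) (.lf 10))), 0, [19, 19, 7, 7, 19, 19, 7, 7], []⟩)
    (.lf ⟨[.ofNat 0, .ofNat 304, .ofNat 7352, .negSucc 2151], (.tr (.dx 0 (.tr (.lf 5) (.tw (.lf 13) (.lf 17)) (.lf 14))) (.lf 18) (.tr (.lf 9) (.lf 6) (.lf 10))), 0, [23, 23, 23, 23, 23, 23, 23, 23], []⟩)))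
    (.nd (.nd (.lf ⟨[.ofNat 0, .ofNat 5536, .negSucc 727, .ofNat 2756], (.tr (.dx 0 (.tr (.lf 13) (.tw (.lf 5) (.lf 17)) (.lf 14))) (.lf 18) (.tr (.lf 9) (.lf 6) (.lf 10))), 0, [23, 23, 23, 23, 23, 23, 23, 23], []⟩)
    (.lf ⟨[.ofNat 0, .ofNat 832, .negSucc 2143, .ofNat 304], (.tr (.dx 0 (.tr (.lf 13) (.lf 5) (.tw (.lf 14) (.lf 17)))) (.lf 18) (.tr (.lf 9) (.lf 6) (.lf 10))), 0, [23, 23, 23, 23, 23, 23, 23, 23], []⟩))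
    (.nd (.lf ⟨[.ofNat 0, .ofNat 400, .ofNat 564, .ofNat 8], (.tr (.lf 18) (.dx 0 (.tr (.lf 5) (.tw (.lf 13) (.lf 14)) (.lf 17))) (.tr (.lf 9) (.lf 6) (.lf 10))), 0, [23, 23, 23, 23, 11, 11, 11, 11], []⟩)
    (.lf ⟨[.ofNat 0, .negSucc 959, .ofNat 664], (.tr (.dx 3 (.tr (.lf 1) (.lf 5) (.tw (.lf 17) (.lf 18)))) (.lf 2) (.tr (.lf 9) (.lf 6) (.lf 10))), 3, [11, 11, 11, 11, 11, 11, 11, 11], []⟩))))

/-- data -/
def dE8x19 : RT := (.nd (.nd (.nd (.lf ⟨[.ofNat 0, .ofNat 4768, .ofNat 80, .ofNat 120], (.tr (.lf 18) (.dx 0 (.tr (.lf 13) (.tw (.lf 5) (.lf 17)) (.lf 14))) (.tr (.lf 9) (.lf 6) (.lf 10))), 0, [11, 11, 11, 11, 11, 11, 11, 11], []⟩)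
    (.lf ⟨[.ofNat 0, .negSucc 991, .negSucc 503, .negSucc 15], (.tr (.dx 0 (.tr (.lf 5) (.tw (.lf 13) (.lf 14)) (.lf 17))) (.tr (.lf 9) (.lf 6) (.lf 10)) (.lf 18)), 0, [0, 0, 0, 0, 12, 12, 12, 12], []⟩))
    (.nd (.lf ⟨[.ofNat 0, .ofNat 4736, .ofNat 544, .negSucc 951], (.tr (.dx 0 (.tr (.lf 5) (.lf 17) (.tw (.lf 13) (.lf 14)))) (.tr (.lf 9) (.lf 6) (.lf 10)) (.lf 18)), 0, [12, 12, 12, 12, 0, 0, 0, 0], []⟩)
    (.lf ⟨[.ofNat 3328, .ofNat 5688, .ofNat 4620, .negSucc 3027], (.tr (.dx 3 (.tr (.lf 1) (.lf 9) (.tr (.lf 5) (.lf 2) (.lf 6)))) (.tw (.lf 17) (.lf 18)) (.lf 10)), 3, [23, 23, 23, 23, 19, 19, 19, 19], []⟩)))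
    (.nd (.nd (.lf ⟨[.ofNat 0, .ofNat 20704, .negSucc 4471, .negSucc 3247], (.tr (.dx 3 (.tr (.lf 1) (.lf 5) (.tr (.lf 2) (.lf 9) (.tw (.lf 17) (.lf 18))))) (.lf 6) (.lf 10)), 3, [11, 11, 11, 11, 11, 11, 11, 11], []⟩)
    (.lf ⟨[.ofNat 0, .negSucc 3039, .ofNat 5280, .negSucc 4023], (.tr (.lf 6) (.lf 18) (.tr (.lf 9) (.dx 0 (.tr (.tw (.lf 5) (.lf 13)) (.lf 14) (.lf 17))) (.lf 10))), 0, [19, 19, 7, 7, 19, 19, 7, 7], []⟩))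
    (.nd (.lf ⟨[.ofNat 0, .ofNat 104, .negSucc 14687, .ofNat 2520], (.tr (.lf 6) (.lf 18) (.tr (.lf 9) (.dx 0 (.tr (.lf 5) (.lf 13) (.tw (.lf 14) (.lf 17)))) (.lf 10))), 0, [19, 7, 7, 7, 19, 7, 7, 7], []⟩)
    (.lf ⟨[.ofNat 0, .negSucc 2143, .ofNat 1584, .negSucc 39], (.tr (.lf 6) (.lf 18) (.tr (.lf 9) (.dx 0 (.tr (.lf 13) (.tw (.lf 5) (.lf 17)) (.lf 14))) (.lf 10))), 0, [7, 7, 7, 7, 7, 7, 7, 7], []⟩))))

/-- data -/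
def dE8x20 : RT := (.nd (.nd (.nd (.lf ⟨[.ofNat 0, .negSucc 3343, .ofNat 6416, .ofNat 2424], (.tr (.lf 18) (.lf 6) (.tr (.lf 9) (.dx 0 (.tr (.lf 5) (.tw (.lf 13) (.lf 14)) (.lf 17))) (.lf 10))), 0, [19, 19, 7, 7, 19, 19, 7, 7], []⟩)
    (.lf ⟨[.ofNat 0, .negSucc 6687, .ofNat 12832, .ofNat 4848], (.tr (.dx 3 (.tr (.lf 1) (.lf 9) (.tr (.lf 5) (.lf 2) (.tw (.lf 17) (.lf 18))))) (.lf 6) (.lf 10)), 3, [11, 11, 11, 11, 11, 11, 11, 11], []⟩))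
    (.nd (.lf ⟨[.ofNat 0, .ofNat 7888, .negSucc 13279, .negSucc 3959], (.tr (.dx 0 (.tr (.lf 5) (.lf 13) (.lf 9))) (.tr (.tw (.lf 6) (.lf 10)) (.lf 17) (.lf 18)) (.lf 14)), 0, [0, 0, 0, 0, 2, 2, 2, 2], [12, 14, 12, 14]⟩)
    (.lf ⟨[.ofNat 0, .negSucc 3351, .ofNat 56, .ofNat 1736], (.tr (.lf 18) (.lf 6) (.tr (.lf 9) (.dx 0 (.tr (.lf 5) (.lf 17) (.tw (.lf 13) (.lf 14)))) (.lf 10))), 0, [7, 7, 19, 19, 7, 7, 19, 19], []⟩)))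
    (.nd (.nd (.lf ⟨[.ofNat 0, .ofNat 1264, .ofNat 288, .negSucc 3503], (.tr (.lf 18) (.lf 6) (.tr (.lf 9) (.dx 0 (.tr (.lf 5) (.tw (.lf 13) (.lf 17)) (.lf 14))) (.lf 10))), 0, [7, 7, 19, 7, 7, 7, 19, 7], []⟩)
    (.lf ⟨[.ofNat 0, .ofNat 4640, .ofNat 1024, .ofNat 232], (.tr (.lf 6) (.tr (.lf 9) (.dx 0 (.tr (.lf 5) (.tw (.lf 13) (.lf 14)) (.lf 17))) (.lf 10)) (.lf 18)), 0, [8, 8, 20, 20, 8, 8, 20, 20], []⟩))
    (.nd (.lf ⟨[.ofNat 0, .ofNat 3456, .ofNat 2400, .negSucc 159], (.tr (.lf 10) (.dx 0 (.tr (.lf 5) (.lf 17) (.tr (.lf 6) (.lf 9) (.tw (.lf 13) (.lf 14))))) (.lf 18)), 0, [18, 18, 18, 18, 6, 6, 6, 6], []⟩)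
    (.lf ⟨[.ofNat 0, .negSucc 2031, .ofNat 1832, .ofNat 168], (.tr (.lf 6) (.tr (.lf 9) (.dx 0 (.tr (.lf 13) (.tw (.lf 5) (.lf 17)) (.lf 14))) (.lf 10)) (.lf 18)), 0, [8, 8, 8, 8, 8, 8, 8, 8], []⟩))))

/-- data -/
def dE8x21 : RT := (.nd (.nd (.nd (.lf ⟨[.ofNat 0, .ofNat 3232, .negSucc 431, .negSucc 799], (.tr (.lf 6) (.tr (.lf 9) (.dx 0 (.tr (.lf 13) (.lf 5) (.tw (.lf 14) (.lf 17)))) (.lf 10)) (.lf 18)), 0, [8, 8, 8, 20, 8, 8, 8, 20], []⟩)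
    (.lf ⟨[.ofNat 832, .ofNat 9000, .negSucc 19987, .ofNat 1332], (.tw (.dx 0 (.tr (.tw (.lf 13) (.lf 14)) (.lf 5) (.lf 17))) (.tr (.lf 9) (.tw (.lf 6) (.lf 18)) (.lf 10))), 0, [23, 23, 23, 23, 23, 23, 23, 23, 23, 23, 23, 23, 23, 23, 23, 23], []⟩))
    (.nd (.lf ⟨[.negSucc 1663, .negSucc 11023, .ofNat 38568, .negSucc 3815], (.tr (.dx 0 (.tr (.tw (.lf 13) (.lf 14)) (.lf 5) (.lf 17))) (.lf 9) (.tr (.lf 10) (.lf 6) (.lf 18))), 0, [0, 23, 0, 23, 12, 23, 12, 23], []⟩)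
    (.lf ⟨[.negSucc 2079, .negSucc 6823, .ofNat 10202, .negSucc 697], (.tw (.dx 3 (.tr (.lf 5) (.tw (.lf 1) (.lf 2)) (.lf 9))) (.tr (.lf 6) (.tw (.lf 17) (.lf 18)) (.lf 10))), 3, [23, 23, 21, 21, 23, 23, 21, 21, 23, 23, 21, 21, 23, 23, 21, 21], []⟩)))
    (.nd (.nd (.lf ⟨[.negSucc 1663, .negSucc 19407, .ofNat 40424, .negSucc 2663], (.tr (.dx 0 (.tr (.tw (.lf 13) (.lf 14)) (.lf 5) (.lf 17))) (.tr (.lf 9) (.lf 6) (.lf 18)) (.lf 10)), 0, [23, 23, 23, 23, 23, 23, 23, 23], []⟩)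
    (.lf ⟨[.ofNat 0, .negSucc 1407], (.tr (.dx 0 (.tr (.tw (.lf 13) (.lf 14)) (.lf 5) (.lf 17))) (.tr (.lf 6) (.lf 9) (.lf 10)) (.lf 18)), 0, [0, 0, 0, 0, 12, 12, 12, 12], []⟩))
    (.nd (.lf ⟨[.ofNat 0, .ofNat 768, .negSucc 1151], (.tr (.lf 9) (.lf 6) (.tr (.dx 0 (.tr (.tw (.lf 13) (.lf 14)) (.lf 5) (.lf 17))) (.lf 10) (.lf 18))), 0, [10, 10, 22, 22, 22, 22, 22, 22], []⟩)
    (.lf ⟨[.ofNat 0, .negSucc 3391, .negSucc 1007, .negSucc 31], (.tr (.lf 9) (.dx 0 (.tr (.lf 5) (.lf 13) (.lf 14))) (.tr (.lf 17) (.tw (.lf 6) (.lf 10)) (.lf 18))), 0, [6, 6, 6, 6, 6, 6, 6, 6], []⟩))))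

/-- data -/
def dE8x22 : RT := (.nd (.nd (.nd (.lf ⟨[.ofNat 0, .ofNat 6784, .ofNat 2016, .ofNat 64], (.tw (.lf 17) (.tr (.lf 9) (.tr (.dx 0 (.tr (.lf 5) (.lf 13) (.lf 14))) (.lf 18) (.lf 6)) (.lf 10))), 0, [23, 23, 7, 7, 23, 23, 7, 7], []⟩)
    (.lf ⟨[.ofNat 0, .ofNat 4288, .ofNat 144, .negSucc 615], (.tw (.lf 18) (.tr (.lf 9) (.tw (.dx 0 (.tr (.tw (.lf 13) (.lf 14)) (.lf 5) (.lf 17))) (.lf 6)) (.lf 10))), 0, [23, 23, 11, 11, 19, 19, 7, 7, 23, 23, 11, 11, 19, 19, 7, 7], []⟩))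
    (.nd (.lf ⟨[.ofNat 0, .ofNat 4496, .negSucc 29815, .ofNat 9720], (.tr (.lf 9) (.lf 6) (.tr (.lf 17) (.tw (.dx 0 (.tr (.lf 5) (.lf 13) (.lf 14))) (.lf 10)) (.lf 18))), 0, [22, 22, 22, 22, 22, 22, 22, 22], []⟩)
    (.lf ⟨[.ofNat 0, .ofNat 11280, .negSucc 27799, .ofNat 9784], (.tr (.dx 3 (.tr (.lf 9) (.lf 1) (.tr (.lf 2) (.lf 5) (.tw (.lf 17) (.lf 18))))) (.lf 6) (.lf 10)), 3, [11, 11, 11, 11, 11, 11, 11, 11], []⟩)))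
    (.nd (.nd (.lf ⟨[.ofNat 0, .ofNat 3456, .negSucc 1727], (.tr (.dx 0 (.tr (.lf 17) (.lf 5) (.tr (.lf 13) (.lf 6) (.lf 14)))) (.tw (.lf 9) (.lf 10)) (.lf 18)), 0, [12, 12, 12, 12, 0, 0, 0, 0], []⟩)
    (.lf ⟨[.ofNat 0, .ofNat 1600, .negSucc 623], (.tr (.dx 0 (.tr (.lf 5) (.tr (.lf 13) (.lf 6) (.lf 14)) (.lf 17))) (.tw (.lf 9) (.lf 10)) (.lf 18)), 0, [0, 0, 0, 0, 12, 12, 12, 12], []⟩))
    (.nd (.lf ⟨[.ofNat 0, .negSucc 6303, .ofNat 280, .ofNat 800], (.tr (.dx 0 (.tr (.lf 13) (.tr (.lf 5) (.lf 6) (.lf 17)) (.lf 14))) (.tw (.lf 9) (.lf 10)) (.lf 18)), 0, [0, 0, 0, 0, 0, 0, 0, 0], []⟩)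
    (.lf ⟨[.ofNat 0, .negSucc 1535, .negSucc 1375, .ofNat 80], (.tr (.dx 0 (.tr (.lf 13) (.lf 14) (.tr (.lf 5) (.lf 17) (.lf 6)))) (.tw (.lf 9) (.lf 10)) (.lf 18)), 0, [0, 0, 0, 0, 12, 12, 12, 12], []⟩))))

/-- data -/
def dE8x23 : RT := (.nd (.nd (.nd (.lf ⟨[.ofNat 0, .ofNat 2000, .negSucc 21703, .ofNat 8888], (.tr (.dx 3 (.tr (.lf 1) (.tr (.lf 2) (.lf 9) (.tw (.lf 17) (.lf 18))) (.lf 5))) (.lf 6) (.lf 10)), 3, [11, 11, 11, 11, 11, 11, 11, 11], []⟩)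
    (.lf ⟨[.ofNat 0, .ofNat 3680, .negSucc 1159, .negSucc 631], (.tr (.dx 0 (.tw (.lf 13) (.tr (.lf 14) (.tw (.lf 5) (.lf 6)) (.lf 17)))) (.tw (.lf 9) (.lf 10)) (.lf 18)), 0, [0, 0, 0, 0, 0, 0, 0, 0, 0, 0, 0, 0, 12, 12, 12, 12], []⟩))
    (.nd (.lf ⟨[.ofNat 0, .ofNat 8768, .negSucc 2319, .negSucc 1263], (.tw (.dx 3 (.tr (.lf 1) (.tr (.lf 2) (.tr (.lf 9) (.lf 17) (.lf 18)) (.lf 5)) (.lf 6))) (.lf 10)), 3, [11, 11, 11, 11, 7, 7, 7, 7], []⟩)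
    (.lf ⟨[.ofNat 0, .negSucc 1407], (.tw (.dx 3 (.tr (.lf 1) (.tw (.lf 2) (.tr (.lf 5) (.lf 9) (.tw (.lf 17) (.lf 18)))) (.lf 6))) (.lf 10)), 3, [11, 11, 11, 11, 11, 11, 11, 11, 7, 7, 7, 7, 7, 7, 7, 7], []⟩)))
    (.nd (.nd (.lf ⟨[.ofNat 0, .negSucc 6911, .ofNat 3456], (.tr (.dx 0 (.tr (.lf 17) (.lf 5) (.tr (.lf 13) (.lf 6) (.lf 14)))) (.lf 9) (.tw (.lf 10) (.lf 18))), 0, [12, 19, 12, 19, 0, 19, 0, 19], []⟩)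
    (.lf ⟨[.ofNat 0, .negSucc 1407, .ofNat 448], (.tr (.dx 0 (.tr (.lf 13) (.lf 14) (.tr (.lf 5) (.lf 17) (.lf 6)))) (.lf 9) (.tw (.lf 10) (.lf 18))), 0, [0, 19, 0, 19, 12, 12, 12, 12], []⟩))
    (.nd (.lf ⟨[.negSucc 8319, .negSucc 12831, .ofNat 11776, .ofNat 4616], (.tr (.dx 0 (.tr (.lf 5) (.lf 17) (.tr (.lf 13) (.lf 6) (.lf 14)))) (.lf 18) (.tw (.lf 9) (.lf 10))), 0, [19, 19, 19, 19, 19, 19, 19, 19], []⟩)
    (.lf ⟨[.negSucc 3327, .ofNat 7008, .negSucc 719, .negSucc 119], (.tr (.dx 0 (.tr (.lf 13) (.tr (.lf 5) (.lf 6) (.lf 17)) (.lf 14))) (.lf 18) (.tw (.lf 9) (.lf 10))), 0, [19, 19, 19, 19, 19, 19, 19, 19], []⟩))))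

/-- data -/
def dE8x24 : RT := (.nd (.nd (.nd (.lf ⟨[.ofNat 6656, .ofNat 13856, .negSucc 5951, .negSucc 5879], (.tr (.dx 0 (.tr (.lf 13) (.lf 17) (.tr (.lf 5) (.lf 14) (.lf 6)))) (.lf 18) (.tw (.lf 9) (.lf 10))), 0, [19, 19, 19, 19, 19, 19, 19, 19], []⟩)
    (.lf ⟨[.ofNat 0, .ofNat 3264, .negSucc 10239, .ofNat 2528], (.tr (.dx 0 (.tr (.lf 13) (.lf 17) (.tr (.lf 5) (.lf 14) (.lf 6)))) (.tw (.lf 9) (.lf 18)) (.lf 10)), 0, [19, 19, 19, 19, 0, 19, 0, 19], []⟩))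
    (.nd (.lf ⟨[.ofNat 0, .ofNat 2496, .negSucc 3023, .negSucc 391], (.tr (.dx 0 (.tw (.lf 13) (.tr (.lf 5) (.tw (.lf 14) (.lf 17)) (.lf 6)))) (.lf 18) (.tw (.lf 9) (.lf 10))), 0, [19, 19, 19, 19, 19, 19, 19, 19, 19, 19, 19, 19, 19, 19, 19, 19], []⟩)
    (.lf ⟨[.ofNat 0, .negSucc 1439, .negSucc 799, .ofNat 80], (.tr (.dx 0 (.tw (.lf 17) (.tr (.lf 13) (.tw (.lf 5) (.lf 6)) (.lf 14)))) (.lf 18) (.tw (.lf 9) (.lf 10))), 0, [19, 19, 19, 19, 19, 19, 19, 19, 19, 19, 19, 19, 19, 19, 19, 19], []⟩)))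
    (.nd (.nd (.lf ⟨[.ofNat 0, .ofNat 832, .ofNat 96], (.tr (.lf 5) (.dx 3 (.tw (.lf 1) (.lf 2))) (.tr (.lf 9) (.lf 10) (.tr (.lf 17) (.lf 6) (.lf 18)))), 3, [4, 4, 23, 23, 4, 4, 23, 23], []⟩)
    (.lf ⟨[.ofNat 0, .negSucc 1439, .negSucc 799, .ofNat 80], (.tr (.lf 6) (.dx 3 (.tw (.lf 5) (.tr (.lf 17) (.tw (.lf 1) (.lf 2)) (.lf 18)))) (.tw (.lf 9) (.lf 10))), 3, [7, 7, 7, 7, 7, 7, 7, 7, 11, 11, 11, 11, 11, 11, 11, 11], []⟩))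
    (.nd (.lf ⟨[.negSucc 1663, .ofNat 5312, .negSucc 127, .negSucc 79], (.tr (.tw (.lf 9) (.lf 10)) (.dx 0 (.tr (.lf 5) (.lf 17) (.tr (.lf 13) (.lf 6) (.lf 14)))) (.lf 18)), 0, [18, 18, 6, 6, 18, 18, 6, 6], []⟩)
    (.lf ⟨[.ofNat 0, .ofNat 4800, .ofNat 1960, .ofNat 584], (.tr (.dx 0 (.tr (.lf 5) (.tr (.lf 13) (.lf 17) (.lf 14)) (.lf 9))) (.tw (.lf 6) (.lf 10)) (.lf 18)), 0, [0, 0, 0, 0, 2, 2, 2, 2], []⟩))))

/-- data -/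
def dE8 : RT := (.nd (.nd (.nd (.nd dE8x0 (.nd dE8x1 dE8x2)) (.nd dE8x3 (.nd dE8x4 dE8x5))) (.nd (.nd dE8x6 (.nd dE8x7 dE8x8)) (.nd dE8x9 (.nd dE8x10 dE8x11)))) (.nd (.nd (.nd dE8x12 (.nd dE8x13 dE8x14)) (.nd dE8x15 (.nd dE8x16 dE8x17))) (.nd (.nd dE8x18 (.nd dE8x19 dE8x20)) (.nd (.nd dE8x21 dE8x22) (.nd dE8x23 dE8x24)))))

/-- data -/
def lE8x0 : List (ℕ × List ℤ) := [(42789, [.ofNat 0, .ofNat 0, .ofNat 31552, .negSucc 53119, .negSucc 15839]),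
  (43245, [.ofNat 0, .ofNat 0, .ofNat 53184, .negSucc 27327, .negSucc 10303]),
  (43293, [.ofNat 0, .ofNat 0, .negSucc 43775, .negSucc 5567, .ofNat 4800]),
  (43371, [.ofNat 0, .ofNat 0, .negSucc 17791, .negSucc 26911, .negSucc 447]),
  (50413, [.ofNat 0, .ofNat 0, .negSucc 2047, .ofNat 24320, .ofNat 9984]),
  (51357, [.ofNat 0, .ofNat 0, .negSucc 70271, .negSucc 28735, .negSucc 5407]),
  (155830124, [.ofNat 13312, .ofNat 8576, .ofNat 38976, .negSucc 24255]),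
  (155831132, [.ofNat 13312, .ofNat 8576, .ofNat 38976, .negSucc 24255]),
  (156129108, [.ofNat 6656, .negSucc 21247, .ofNat 512, .ofNat 320]),
  (156353899, [.ofNat 3328, .ofNat 38816, .negSucc 80847, .ofNat 5328]),
  (156355285, [.negSucc 6655, .ofNat 21248, .negSucc 511, .negSucc 319]),
  (156359331, [.ofNat 3328, .ofNat 38816, .negSucc 80847, .ofNat 5328]),
  (159988523, [.negSucc 26623, .ofNat 27104, .ofNat 9216, .ofNat 4544]),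
  (160025322, [.ofNat 33280, .ofNat 41344, .negSucc 35007, .negSucc 16895]),
  (160028458, [.negSucc 26623, .negSucc 61951, .ofNat 44288, .ofNat 18464]),
  (160028906, [.ofNat 0, .negSucc 9983, .ofNat 12096, .ofNat 1568]),
  (160061162, [.ofNat 0, .ofNat 8192, .ofNat 6016, .negSucc 639]),
  (160085802, [.ofNat 13312, .negSucc 28031, .ofNat 2880, .ofNat 480]),
  (160086362, [.ofNat 0, .negSucc 9983, .ofNat 12096, .ofNat 1568]),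
  (160086810, [.ofNat 33280, .ofNat 41344, .negSucc 35007, .negSucc 16895]),
  (160089834, [.ofNat 13312, .negSucc 28031, .ofNat 2880, .ofNat 480]),
  (160089946, [.negSucc 26623, .negSucc 61951, .ofNat 44288, .ofNat 18464]),
  (160770787, [.ofNat 0, .negSucc 11519, .negSucc 6399, .ofNat 640]),
  (170740061, [.ofNat 0, .ofNat 1600, .ofNat 2256, .ofNat 32]),
  (170797853, [.ofNat 0, .ofNat 19072, .ofNat 320, .ofNat 480]),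
  (170800492, [.ofNat 0, .negSucc 3839, .ofNat 2656]),
  (170804461, [.ofNat 0, .negSucc 3327, .ofNat 256, .ofNat 1216]),
  (170808605, [.ofNat 0, .ofNat 19072, .ofNat 320, .ofNat 480]),
  (170810012, [.ofNat 0, .negSucc 5439, .ofNat 400, .negSucc 31]),
  (170998571, [.ofNat 0, .negSucc 2495, .ofNat 7520, .negSucc 239]),
  (171026669, [.ofNat 0, .negSucc 23775, .ofNat 12768, .ofNat 5152]),
  (171026795, [.ofNat 0, .ofNat 13184, .negSucc 5599, .negSucc 2047]),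
  (171027243, [.ofNat 0, .negSucc 607, .negSucc 14703, .ofNat 4304]),
  (171027292, [.ofNat 0, .ofNat 3328, .negSucc 255, .negSucc 1215]),
  (171035307, [.ofNat 0, .negSucc 1663, .ofNat 4288, .negSucc 607]),
  (171037995, [.ofNat 0, .negSucc 23807, .ofNat 7200, .negSucc 11631]),
  (171038051, [.ofNat 0, .negSucc 1663, .ofNat 4288, .negSucc 607]),
  (171038891, [.ofNat 0, .negSucc 23807, .ofNat 7200, .negSucc 11631]),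
  (171039059, [.ofNat 0, .negSucc 607, .negSucc 14703, .ofNat 4304]),
  (171039388, [.ofNat 0, .ofNat 6528, .ofNat 4256, .negSucc 1151]),
  (171039507, [.ofNat 0, .ofNat 9728, .negSucc 19455, .negSucc 2239]),
  (171070699, [.ofNat 0, .negSucc 3199, .negSucc 4511, .negSucc 63]),
  (173130603, [.ofNat 0, .ofNat 7424, .ofNat 2368, .negSucc 319]),
  (173161067, [.negSucc 39935, .ofNat 17984, .ofNat 3808, .ofNat 41056]),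
  (173185259, [.ofNat 0, .negSucc 4863, .negSucc 1183]),
  (174471341, [.ofNat 0, .negSucc 19711, .negSucc 9535, .ofNat 192]),
  (174474589, [.ofNat 0, .ofNat 35968, .ofNat 15776, .negSucc 223]),
  (174474603, [.ofNat 0, .ofNat 5824, .negSucc 5679, .ofNat 7360]),
  (174475093, [.ofNat 0, .ofNat 32384, .ofNat 11456, .negSucc 127]),
  (174475989, [.ofNat 0, .ofNat 25472, .ofNat 8896, .ofNat 608]),
  (174639467, [.ofNat 0, .ofNat 32832, .ofNat 2560, .ofNat 1216]),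
  (174736221, [.ofNat 0, .negSucc 13311, .negSucc 4319, .ofNat 96]),
  (174742115, [.ofNat 0, .negSucc 5439, .ofNat 400, .negSucc 31]),
  (175155563, [.ofNat 0, .ofNat 8640, .ofNat 4112, .ofNat 96]),
  (175156060, [.ofNat 0, .negSucc 3199, .negSucc 4511, .negSucc 63]),
  (175162717, [.ofNat 0, .negSucc 83167, .ofNat 19552, .ofNat 19952]),
  (175163221, [.ofNat 0, .negSucc 11647, .ofNat 10944, .ofNat 4096]),
  (175163242, [.ofNat 39936, .negSucc 17983, .negSucc 3807, .negSucc 41055]),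
  (175164117, [.ofNat 0, .ofNat 6464, .negSucc 863, .negSucc 1599]),
  (175167701, [.ofNat 0, .negSucc 1663, .ofNat 6464, .negSucc 927]),
  (175168212, [.ofNat 0, .negSucc 15487, .ofNat 6240, .ofNat 2528]),
  (175184109, [.ofNat 0, .ofNat 23776, .negSucc 12767, .negSucc 5151]),
  (175200972, [.ofNat 0, .negSucc 18687, .ofNat 1728, .ofNat 2464]),
  (175217317, [.ofNat 13312, .negSucc 9791, .ofNat 2336, .negSucc 2431]),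
  (175217324, [.ofNat 0, .ofNat 8704, .negSucc 2815, .ofNat 224]),
  (175217492, [.ofNat 0, .negSucc 6911, .negSucc 4799, .ofNat 320]),
  (175232101, [.ofNat 0, .negSucc 8255, .negSucc 2079, .ofNat 2144]),
  (175233802, [.ofNat 0, .ofNat 768, .negSucc 703]),
  (175248747, [.ofNat 0, .ofNat 2848, .negSucc 1423, .negSucc 7679]),
  (175249258, [.ofNat 0, .ofNat 8320, .ofNat 16512, .negSucc 3903]),
  (175250077, [.ofNat 0, .ofNat 6400, .negSucc 479, .ofNat 224]),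
  (175250259, [.ofNat 0, .ofNat 2592, .negSucc 1423, .negSucc 9343]),
  (175254109, [.ofNat 0, .negSucc 6783, .negSucc 2015, .negSucc 63]),
  (175254123, [.ofNat 0, .ofNat 19712, .ofNat 9536, .negSucc 191]),
  (175254221, [.ofNat 0, .ofNat 25472, .ofNat 288, .negSucc 2399]),
  (175254347, [.ofNat 0, .negSucc 5823, .ofNat 5680, .negSucc 7359]),
  (175264861, [.ofNat 0, .negSucc 13375, .ofNat 25664, .ofNat 9696]),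
  (175264875, [.ofNat 0, .negSucc 1471, .ofNat 2416, .ofNat 32]),
  (175265610, [.ofNat 0, .ofNat 768, .negSucc 703]),
  (175282389, [.ofNat 0, .negSucc 1663, .ofNat 6464, .negSucc 927]),
  (175282900, [.ofNat 0, .negSucc 6463, .ofNat 864, .ofNat 1600]),
  (175293533, [.ofNat 0, .ofNat 2528, .ofNat 576, .negSucc 7007]),
  (175293547, [.ofNat 0, .ofNat 208, .negSucc 29375, .ofNat 5040]),
  (175297236, [.ofNat 0, .negSucc 25471, .negSucc 8895, .negSucc 607]),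
  (175297628, [.ofNat 0, .ofNat 10880, .negSucc 799, .ofNat 64]),
  (176503595, [.ofNat 0, .negSucc 207, .ofNat 29376, .negSucc 5039]),
  (176532316, [.ofNat 0, .negSucc 8991, .ofNat 59632, .negSucc 19439]),
  (176534892, [.ofNat 0, .ofNat 22560, .negSucc 55599, .ofNat 19568]),
  (176543397, [.ofNat 0, .negSucc 15359, .ofNat 5440, .ofNat 6224]),
  (176543404, [.negSucc 13311, .ofNat 9792, .negSucc 2335, .ofNat 2432]),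
  (176544412, [.ofNat 0, .ofNat 13568, .ofNat 4032, .ofNat 128]),
  (176544419, [.ofNat 0, .negSucc 15487, .ofNat 5120, .ofNat 2304]),
  (176567645, [.ofNat 0, .negSucc 83167, .ofNat 19552, .ofNat 19952]),
  (176567659, [.ofNat 0, .ofNat 22528, .ofNat 8640, .negSucc 191]),
  (176608483, [.ofNat 0, .negSucc 19711, .negSucc 9535, .ofNat 192]),
  (176789867, [.ofNat 0, .ofNat 7488, .ofNat 7024, .negSucc 287]),
  (176790364, [.ofNat 0, .ofNat 9728, .ofNat 3904, .negSucc 319]),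
  (176790371, [.ofNat 0, .negSucc 13695, .negSucc 13919, .ofNat 11072]),
  (176800493, [.ofNat 0, .ofNat 2816, .negSucc 895]),
  (176802411, [.negSucc 19967, .negSucc 6495, .ofNat 10928, .ofNat 20688])]

/-- data -/
def lE8x1 : List (ℕ × List ℤ) := [(176802635, [.ofNat 0, .negSucc 13695, .negSucc 13919, .ofNat 11072]),
  (176804581, [.ofNat 79872, .ofNat 111936, .negSucc 109631, .negSucc 44159]),
  (176804588, [.ofNat 0, .ofNat 5248, .ofNat 704, .negSucc 159]),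
  (176804637, [.ofNat 0, .ofNat 0, .negSucc 255]),
  (176804651, [.ofNat 0, .negSucc 3839, .negSucc 9471, .negSucc 639]),
  (176804700, [.ofNat 0, .negSucc 50591, .negSucc 21759, .negSucc 18047]),
  (176804707, [.ofNat 0, .negSucc 3839, .negSucc 9471, .negSucc 639]),
  (176805477, [.ofNat 0, .negSucc 6655, .ofNat 2624, .ofNat 6448]),
  (176805995, [.ofNat 0, .ofNat 4736, .negSucc 15807, .negSucc 479]),
  (176806492, [.ofNat 0, .negSucc 7647, .ofNat 72976, .negSucc 8399]),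
  (176806667, [.ofNat 0, .ofNat 7488, .ofNat 7024, .negSucc 287]),
  (176837341, [.ofNat 0, .ofNat 6400, .negSucc 2495]),
  (176854876, [.negSucc 13311, .negSucc 88831, .ofNat 15712, .ofNat 21680]),
  (176855275, [.ofNat 0, .ofNat 3328, .negSucc 8319, .ofNat 320]),
  (176866027, [.ofNat 0, .ofNat 6528, .negSucc 20479, .ofNat 5056]),
  (176870108, [.ofNat 0, .ofNat 12960, .negSucc 38799, .ofNat 17456]),
  (176870115, [.ofNat 0, .ofNat 2816, .negSucc 895]),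
  (176990060, [.ofNat 0, .ofNat 2400, .negSucc 895, .ofNat 1776]),
  (176993644, [.ofNat 0, .ofNat 15776, .negSucc 26559, .negSucc 7919]),
  (176997613, [.ofNat 0, .negSucc 1791, .negSucc 11263, .negSucc 4991]),
  (176997739, [.ofNat 0, .ofNat 15488, .negSucc 5119, .negSucc 2303]),
  (176998061, [.ofNat 0, .ofNat 1024, .negSucc 12159, .negSucc 4991]),
  (177001820, [.negSucc 13311, .negSucc 100287, .ofNat 18880, .ofNat 25136]),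
  (177003164, [.ofNat 0, .negSucc 19647, .negSucc 20607, .negSucc 5231]),
  (177003220, [.ofNat 0, .negSucc 27295, .ofNat 52368, .negSucc 13631]),
  (177025900, [.ofNat 0, .ofNat 41408, .negSucc 8943, .negSucc 6495]),
  (177029869, [.ofNat 0, .negSucc 2815, .ofNat 896]),
  (177034076, [.ofNat 13312, .negSucc 8063, .negSucc 50047, .negSucc 17183]),
  (177035868, [.ofNat 0, .negSucc 13311, .negSucc 4319, .ofNat 96]),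
  (177052500, [.ofNat 0, .ofNat 4000, .negSucc 43407, .ofNat 17776]),
  (177067109, [.ofNat 0, .negSucc 10239, .ofNat 11904, .negSucc 1727]),
  (177067116, [.ofNat 0, .ofNat 10240, .negSucc 11903, .ofNat 1728]),
  (177084245, [.negSucc 13311, .negSucc 100287, .ofNat 18880, .ofNat 25136]),
  (177085099, [.negSucc 6655, .negSucc 11903, .ofNat 29840, .ofNat 11392]),
  (177085267, [.ofNat 0, .negSucc 2815, .ofNat 896]),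
  (177088333, [.ofNat 0, .ofNat 3328, .negSucc 6783, .negSucc 319]),
  (177089131, [.negSucc 33279, .negSucc 26239, .ofNat 50368, .ofNat 25248]),
  (177099883, [.ofNat 0, .negSucc 6079, .ofNat 10560, .negSucc 8047]),
  (177117852, [.ofNat 13312, .negSucc 8063, .negSucc 50047, .negSucc 17183]),
  (177117859, [.ofNat 33280, .ofNat 42048, .negSucc 49103, .negSucc 24991]),
  (177117908, [.ofNat 0, .negSucc 38943, .negSucc 32703, .negSucc 22143]),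
  (177121884, [.negSucc 13311, .negSucc 100287, .ofNat 18880, .ofNat 25136]),
  (177121891, [.negSucc 6655, .ofNat 3328, .ofNat 1872, .ofNat 14048]),
  (177124460, [.ofNat 0, .ofNat 8256, .ofNat 2080, .negSucc 2143]),
  (177128555, [.ofNat 0, .negSucc 8575, .ofNat 6336, .negSucc 159]),
  (177132244, [.ofNat 0, .negSucc 3583, .negSucc 415, .negSucc 223]),
  (177132748, [.ofNat 0, .negSucc 39711, .ofNat 55024, .negSucc 17103]),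
  (177264285, [.ofNat 0, .negSucc 3583, .ofNat 1376, .negSucc 223]),
  (177264341, [.ofNat 0, .ofNat 34656, .ofNat 5200, .negSucc 671]),
  (177313453, [.ofNat 0, .ofNat 3328, .negSucc 255, .negSucc 1215]),
  (177314461, [.ofNat 26624, .negSucc 186047, .negSucc 118783, .negSucc 51007]),
  (177314517, [.ofNat 26624, .negSucc 204735, .negSucc 117055, .negSucc 48543]),
  (177314650, [.ofNat 0, .negSucc 8319, .negSucc 16511, .ofNat 3904]),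
  (177318493, [.ofNat 0, .ofNat 11904, .negSucc 3743, .negSucc 2527]),
  (177318605, [.ofNat 0, .ofNat 6784, .ofNat 2016, .ofNat 64]),
  (177329357, [.ofNat 0, .ofNat 17152, .ofNat 576, .negSucc 2463]),
  (177378973, [.ofNat 0, .negSucc 3967, .negSucc 2015, .negSucc 63]),
  (177379029, [.ofNat 0, .negSucc 22559, .ofNat 55600, .negSucc 19567]),
  (177386218, [.ofNat 0, .negSucc 1471, .ofNat 2416, .ofNat 32]),
  (177386589, [.ofNat 0, .negSucc 10879, .ofNat 800, .negSucc 63]),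
  (177542941, [.negSucc 66559, .negSucc 61951, .ofNat 131104, .ofNat 29184]),
  (177543004, [.ofNat 66560, .ofNat 61952, .negSucc 131103, .negSucc 29183]),
  (177587307, [.ofNat 0, .negSucc 8575, .ofNat 6336, .negSucc 159]),
  (177591395, [.ofNat 0, .ofNat 6080, .negSucc 10559, .ofNat 8048]),
  (177607915, [.ofNat 0, .ofNat 208, .negSucc 29375, .ofNat 5040]),
  (177615517, [.ofNat 0, .ofNat 19200, .ofNat 7840, .ofNat 2336]),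
  (177615573, [.ofNat 0, .ofNat 19200, .ofNat 7840, .ofNat 2336]),
  (177615965, [.ofNat 0, .ofNat 2528, .ofNat 576, .negSucc 7007]),
  (177615979, [.ofNat 0, .ofNat 208, .negSucc 29375, .ofNat 5040]),
  (177640675, [.ofNat 0, .ofNat 1728, .ofNat 6928, .ofNat 96]),
  (177641116, [.ofNat 0, .ofNat 22464, .negSucc 11119, .negSucc 2687]),
  (177648739, [.ofNat 0, .ofNat 1728, .ofNat 6928, .ofNat 96]),
  (204056939, [.ofNat 0, .negSucc 1471, .ofNat 2416, .ofNat 32]),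
  (204057387, [.ofNat 0, .negSucc 207, .ofNat 29376, .negSucc 5039]),
  (204061461, [.ofNat 0, .negSucc 3967, .negSucc 2335, .ofNat 320]),
  (204064107, [.ofNat 0, .ofNat 19712, .ofNat 9536, .negSucc 191]),
  (204064618, [.ofNat 0, .ofNat 2816, .negSucc 895]),
  (204065451, [.ofNat 0, .negSucc 6911, .ofNat 3456]),
  (204065493, [.ofNat 0, .negSucc 9919, .ofNat 800, .ofNat 1984]),
  (204068139, [.ofNat 0, .ofNat 21952, .ofNat 29728, .negSucc 10959]),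
  (204068195, [.ofNat 0, .negSucc 6911, .ofNat 3456]),
  (204068629, [.ofNat 0, .ofNat 1600, .ofNat 45344, .negSucc 6511]),
  (204068650, [.ofNat 0, .negSucc 6527, .ofNat 20480, .negSucc 5055]),
  (204069035, [.ofNat 0, .ofNat 21952, .ofNat 29728, .negSucc 10959]),
  (204069077, [.ofNat 0, .negSucc 9919, .ofNat 800, .ofNat 1984]),
  (204069539, [.ofNat 0, .ofNat 19712, .ofNat 9536, .negSucc 191]),
  (204092779, [.ofNat 0, .ofNat 19712, .ofNat 9536, .negSucc 191]),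
  (204094165, [.ofNat 0, .ofNat 1600, .ofNat 45344, .negSucc 6511]),
  (204094186, [.ofNat 0, .ofNat 13824, .negSucc 6911]),
  (204101333, [.ofNat 0, .negSucc 3967, .negSucc 2335, .ofNat 320]),
  (204126946, [.ofNat 0, .ofNat 13824, .negSucc 6911]),
  (204814178, [.ofNat 0, .ofNat 4864, .ofNat 1184]),
  (204815074, [.ofNat 0, .negSucc 3327, .ofNat 8320, .negSucc 319]),
  (205863723, [.ofNat 0, .ofNat 26448, .ofNat 18080, .negSucc 239]),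
  (205899115, [.ofNat 0, .ofNat 2816, .negSucc 895]),
  (205969052, [.ofNat 0, .ofNat 19120, .negSucc 3807, .ofNat 1808]),
  (206092651, [.negSucc 13311, .negSucc 31135, .ofNat 16624, .ofNat 4688]),
  (206093099, [.ofNat 0, .negSucc 5887, .negSucc 5919, .negSucc 3423]),
  (206093155, [.negSucc 13311, .negSucc 31135, .ofNat 16624, .ofNat 4688]),
  (206101212, [.ofNat 0, .ofNat 14720, .negSucc 4639, .negSucc 2527])]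

/-- data -/
def lE8x2 : List (ℕ × List ℤ) := [(206150492, [.ofNat 0, .ofNat 34656, .ofNat 5200, .negSucc 671]),
  (206166620, [.ofNat 0, .ofNat 37472, .ofNat 5200, .negSucc 671]),
  (206190413, [.ofNat 0, .ofNat 3328, .ofNat 384]),
  (206214941, [.ofNat 13312, .negSucc 23679, .negSucc 40095, .negSucc 13087]),
  (206215004, [.negSucc 13311, .ofNat 23680, .ofNat 40096, .ofNat 13088]),
  (206222060, [.ofNat 0, .negSucc 4095, .negSucc 8639, .ofNat 1024]),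
  (206226141, [.ofNat 0, .negSucc 10495, .negSucc 3519, .ofNat 672]),
  (206351196, [.ofNat 0, .negSucc 5119, .ofNat 5760, .ofNat 2592]),
  (206363292, [.ofNat 0, .negSucc 6911, .negSucc 1535, .ofNat 128]),
  (206363299, [.ofNat 0, .negSucc 2815, .ofNat 896]),
  (206379868, [.ofNat 0, .negSucc 21167, .ofNat 3328, .negSucc 1583]),
  (206395996, [.ofNat 0, .negSucc 3023, .negSucc 223, .ofNat 5904]),
  (206443869, [.ofNat 0, .ofNat 101088, .ofNat 5760, .negSucc 9199]),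
  (206444373, [.ofNat 0, .ofNat 101088, .ofNat 5760, .negSucc 9199]),
  (206445227, [.ofNat 0, .ofNat 5248, .ofNat 704, .negSucc 159]),
  (206445290, [.ofNat 0, .ofNat 20480, .negSucc 27263, .ofNat 2496]),
  (206451373, [.ofNat 0, .ofNat 2816, .negSucc 895]),
  (206451541, [.ofNat 0, .negSucc 21247, .negSucc 18527, .negSucc 10431]),
  (206476636, [.ofNat 0, .ofNat 22656, .ofNat 6208, .ofNat 544]),
  (206478050, [.ofNat 0, .negSucc 8511, .ofNat 6768, .ofNat 576]),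
  (206480220, [.ofNat 0, .ofNat 22656, .ofNat 6208, .ofNat 544]),
  (206482019, [.negSucc 19967, .negSucc 26975, .ofNat 39472, .ofNat 18192]),
  (206484133, [.ofNat 0, .negSucc 5247, .negSucc 703, .ofNat 160]),
  (206484140, [.negSucc 79871, .negSucc 111935, .ofNat 109632, .ofNat 44160]),
  (206484266, [.ofNat 0, .negSucc 4735, .ofNat 15808, .ofNat 480]),
  (206484308, [.negSucc 3327, .negSucc 24863, .ofNat 77392, .negSucc 7631]),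
  (206484322, [.ofNat 19968, .ofNat 6496, .negSucc 10927, .negSucc 20687]),
  (206486114, [.ofNat 0, .negSucc 13823, .ofNat 6912]),
  (206492316, [.ofNat 0, .ofNat 15488, .negSucc 5119, .negSucc 2303]),
  (206492764, [.ofNat 0, .negSucc 5119, .ofNat 5760, .ofNat 2592]),
  (206612317, [.ofNat 0, .ofNat 10496, .ofNat 1408, .negSucc 319]),
  (206613213, [.ofNat 39936, .negSucc 38463, .ofNat 18208, .negSucc 41055]),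
  (206617322, [.ofNat 0, .ofNat 13824, .negSucc 6911]),
  (206623965, [.ofNat 0, .negSucc 4863, .negSucc 1183]),
  (206624469, [.ofNat 0, .negSucc 4863, .negSucc 1183]),
  (206673133, [.ofNat 0, .ofNat 19712, .ofNat 9536, .negSucc 191]),
  (206673245, [.negSucc 13311, .negSucc 100287, .ofNat 18880, .ofNat 25136]),
  (206674666, [.negSucc 19967, .negSucc 26975, .ofNat 39472, .ofNat 18192]),
  (206680938, [.ofNat 0, .ofNat 7424, .ofNat 2368, .negSucc 319]),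
  (206878933, [.ofNat 0, .negSucc 21247, .negSucc 18527, .negSucc 10431]),
  (206879388, [.ofNat 0, .ofNat 8832, .ofNat 3136, .ofNat 800]),
  (206879444, [.negSucc 3327, .negSucc 24863, .ofNat 77136, .negSucc 7631]),
  (206903069, [.ofNat 13312, .ofNat 88832, .negSucc 15711, .negSucc 21679]),
  (206936732, [.ofNat 0, .ofNat 8832, .ofNat 3136, .ofNat 800]),
  (207001244, [.ofNat 0, .negSucc 21423, .ofNat 3328, .negSucc 3247]),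
  (207001300, [.ofNat 3328, .ofNat 24864, .negSucc 77135, .ofNat 7632]),
  (210285917, [.ofNat 0, .negSucc 35967, .negSucc 15775, .ofNat 224]),
  (210287317, [.ofNat 0, .negSucc 6911, .negSucc 4799, .ofNat 320]),
  (210294485, [.ofNat 0, .ofNat 34656, .ofNat 5200, .negSucc 671]),
  (210326237, [.ofNat 0, .ofNat 14720, .negSucc 4639, .negSucc 2527]),
  (210327133, [.ofNat 0, .negSucc 10719, .ofNat 28672, .ofNat 7104]),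
  (210343261, [.ofNat 0, .negSucc 19071, .negSucc 7135, .ofNat 32]),
  (210343786, [.ofNat 0, .ofNat 256, .ofNat 0, .ofNat 1664]),
  (210344661, [.ofNat 0, .ofNat 6400, .negSucc 479, .ofNat 224]),
  (210348637, [.ofNat 0, .ofNat 15488, .negSucc 6239, .negSucc 2527]),
  (210359389, [.ofNat 0, .ofNat 13312, .ofNat 4320, .negSucc 95]),
  (210408669, [.ofNat 0, .negSucc 2815]),
  (210409173, [.ofNat 13312, .ofNat 29728, .negSucc 4479, .negSucc 2047]),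
  (210412253, [.ofNat 0, .negSucc 8959, .negSucc 4607, .ofNat 320]),
  (210413261, [.ofNat 16640, .ofNat 54592, .negSucc 81615, .ofNat 5584]),
  (211097245, [.negSucc 13311, .negSucc 3807, .negSucc 16303, .ofNat 8304]),
  (211104861, [.negSucc 13311, .negSucc 22751, .negSucc 18479, .ofNat 12112]),
  (212380380, [.ofNat 0, .negSucc 6399, .ofNat 7232, .negSucc 703]),
  (212419293, [.ofNat 0, .negSucc 10495, .negSucc 3519, .ofNat 672]),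
  (212509404, [.ofNat 0, .negSucc 6399, .ofNat 2496]),
  (213194396, [.ofNat 0, .ofNat 3968, .ofNat 2016, .ofNat 64]),
  (556385629, [.ofNat 13312, .negSucc 40575, .negSucc 34143, .negSucc 14015]),
  (556422813, [.ofNat 0, .ofNat 42688, .ofNat 3968, .negSucc 4879]),
  (558257877, [.ofNat 0, .negSucc 18847, .negSucc 11407, .negSucc 3791]),
  (558484061, [.negSucc 3327, .ofNat 4416, .ofNat 27424, .ofNat 15072]),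
  (558484173, [.ofNat 0, .ofNat 7488, .ofNat 5184, .ofNat 3136]),
  (558487757, [.negSucc 3327, .negSucc 3071, .ofNat 22240, .ofNat 11936]),
  (558512845, [.negSucc 13311, .ofNat 46592, .ofNat 30112, .ofNat 14016]),
  (558545101, [.ofNat 13312, .negSucc 46591, .negSucc 30111, .negSucc 14015]),
  (558713549, [.ofNat 0, .negSucc 1087, .negSucc 47967, .ofNat 4128]),
  (558717133, [.ofNat 0, .ofNat 1088, .ofNat 47968, .negSucc 4127]),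
  (558746253, [.ofNat 0, .ofNat 37472, .negSucc 23439, .negSucc 7679]),
  (558748941, [.ofNat 13312, .negSucc 40575, .negSucc 34143, .negSucc 14015]),
  (558749837, [.ofNat 0, .negSucc 37471, .ofNat 23440, .ofNat 7680]),
  (558774925, [.ofNat 0, .ofNat 10496, .ofNat 10048, .negSucc 351]),
  (558807181, [.ofNat 0, .negSucc 10495, .negSucc 10047, .ofNat 352])]

/-- the sum of the part -/
def lE8 : List (ℕ × List ℤ) := lE8x0 ++ (lE8x1 ++ (lE8x2))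

theorem okE8 : dE8.all (rok tbE 12) = true := by decide +kernel

theorem sumE8 : aeq (fz (sumT tbE dE8)) lE8 = true := by decide +kernel

end Pool.Agent.H.MP_e16c79_al.IS
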