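import Pool.Agent.H.MP_e16c79_al.IS.BTabE

/-!
# MP_e16c79_al: certificate E, part 9
-/

set_option autoImplicit false

namespace Pool.Agent.H.MP_e16c79_al.IS

/-- data -/
def dE9x0 : RT := (.nd (.nd (.nd (.lf ⟨[.ofNat 0, .negSucc 2203, .negSucc 1231, .negSucc 1143], (.tr (.dx 0 (.tr (.lf 5) (.tr (.lf 13) (.lf 17) (.lf 14)) (.lf 9))) (.lf 18) (.tw (.lf 6) (.lf 10))), 0, [23, 21, 23, 21, 23, 21, 23, 21], []⟩)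
    (.lf ⟨[.ofNat 0, .negSucc 831, .ofNat 2152, .ofNat 1152], (.tr (.lf 6) (.dx 0 (.tw (.lf 13) (.tr (.lf 17) (.tr (.lf 5) (.lf 9) (.lf 14)) (.lf 18)))) (.lf 10)), 0, [1015, 19, 1015, 19, 16, 1015, 16, 1015], []⟩))
    (.nd (.lf ⟨[.ofNat 0, .negSucc 1919, .negSucc 5479, .negSucc 3503], (.tr (.tw (.lf 6) (.lf 10)) (.dx 0 (.tr (.lf 13) (.tr (.lf 5) (.lf 17) (.lf 9)) (.lf 14))) (.lf 18)), 0, [8, 8, 8, 8, 10, 10, 10, 10], []⟩)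
    (.lf ⟨[.ofNat 0, .ofNat 7440, .ofNat 15552, .ofNat 980], (.tr (.dx 0 (.tr (.lf 13) (.tr (.tw (.lf 5) (.lf 6)) (.lf 17) (.lf 9)) (.lf 14))) (.lf 10) (.lf 18)), 0, [0, 0, 2, 2, 0, 0, 2, 2], []⟩)))
    (.nd (.nd (.lf ⟨[.ofNat 0, .negSucc 14879, .negSucc 31103, .negSucc 1959], (.tr (.dx 0 (.tr (.lf 13) (.tr (.lf 5) (.tw (.lf 6) (.lf 17)) (.lf 9)) (.lf 14))) (.lf 10) (.lf 18)), 0, [0, 0, 2, 2, 0, 0, 2, 2], []⟩)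
    (.lf ⟨[.ofNat 0, .ofNat 1168, .negSucc 951, .negSucc 263], (.tr (.dx 0 (.tw (.lf 17) (.tr (.lf 13) (.tr (.lf 5) (.lf 9) (.lf 6)) (.lf 14)))) (.lf 10) (.lf 18)), 0, [12, 12, 12, 12, 0, 0, 0, 0], []⟩))
    (.nd (.lf ⟨[.ofNat 0, .negSucc 303, .ofNat 968, .ofNat 168], (.tr (.lf 9) (.dx 3 (.tr (.lf 1) (.lf 5) (.lf 2))) (.tr (.lf 17) (.tw (.lf 6) (.lf 10)) (.lf 18))), 3, [6, 6, 6, 6, 6, 6, 6, 6], []⟩)
    (.lf ⟨[.ofNat 0, .ofNat 2928, .negSucc 2311, .ofNat 296], (.tw (.dx 0 (.tr (.lf 5) (.lf 17) (.tr (.lf 13) (.tr (.lf 9) (.lf 6) (.lf 10)) (.lf 14)))) (.lf 18)), 0, [12, 12, 12, 12, 2, 2, 2, 2], []⟩))))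

/-- data -/
def dE9x1 : RT := (.nd (.nd (.nd (.lf ⟨[.ofNat 0, .negSucc 415, .ofNat 1616, .negSucc 231], (.tw (.lf 9) (.tr (.lf 17) (.tr (.dx 3 (.tr (.lf 1) (.lf 5) (.lf 2))) (.lf 10) (.lf 6)) (.lf 18))), 3, [18, 18, 22, 22, 18, 18, 22, 22], []⟩)
    (.lf ⟨[.ofNat 0, .ofNat 6080, .negSucc 4447, .ofNat 784], (.tr (.dx 0 (.tr (.lf 13) (.lf 9) (.tr (.lf 5) (.tw (.lf 14) (.lf 17)) (.lf 6)))) (.lf 18) (.lf 10)), 0, [1023, 1023, 1023, 1023, 0, 12, 0, 12], []⟩))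
    (.nd (.lf ⟨[.ofNat 0, .negSucc 4991, .ofNat 10624, .negSucc 223], (.tr (.dx 0 (.tr (.lf 5) (.lf 17) (.tr (.lf 13) (.tw (.lf 6) (.lf 9)) (.lf 14)))) (.lf 18) (.lf 10)), 0, [12, 12, 12, 12, 19, 1023, 19, 1023], []⟩)
    (.lf ⟨[.ofNat 0, .ofNat 1504, .ofNat 488], (.tr (.dx 0 (.tr (.lf 13) (.tr (.tw (.lf 5) (.lf 6)) (.lf 9) (.lf 17)) (.lf 14))) (.lf 18) (.lf 10)), 0, [0, 0, 19, 19, 0, 0, 19, 19], []⟩)))
    (.nd (.nd (.lf ⟨[.ofNat 0, .negSucc 14759, .ofNat 2384, .negSucc 5547], (.tr (.dx 0 (.tr (.lf 13) (.tr (.lf 9) (.tw (.lf 5) (.lf 6)) (.lf 17)) (.lf 14))) (.lf 18) (.lf 10)), 0, [2, 2, 19, 19, 2, 2, 19, 19], []⟩)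
    (.lf ⟨[.ofNat 0, .ofNat 30096, .negSucc 4383, .ofNat 11096], (.tr (.dx 0 (.tr (.lf 13) (.tr (.tw (.lf 5) (.lf 9)) (.lf 6) (.lf 17)) (.lf 14))) (.lf 18) (.lf 10)), 0, [0, 2, 19, 19, 0, 2, 19, 19], []⟩))
    (.nd (.lf ⟨[.ofNat 0, .negSucc 4159, .ofNat 9184, .negSucc 463], (.tr (.dx 0 (.tw (.lf 5) (.tr (.lf 13) (.tr (.lf 9) (.lf 6) (.lf 17)) (.lf 14)))) (.lf 18) (.lf 10)), 0, [0, 0, 0, 0, 1023, 19, 1023, 19], []⟩)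
    (.lf ⟨[.ofNat 13312, .negSucc 3511, .negSucc 21939, .negSucc 4883], (.tr (.dx 0 (.tw (.lf 17) (.tr (.lf 13) (.tr (.lf 5) (.lf 9) (.lf 6)) (.lf 14)))) (.lf 18) (.lf 10)), 0, [19, 19, 19, 19, 0, 0, 0, 0], []⟩))))

/-- data -/
def dE9x2 : RT := (.nd (.nd (.nd (.lf ⟨[.negSucc 13311, .ofNat 4144, .ofNat 24832, .ofNat 4280], (.tr (.lf 6) (.tr (.lf 17) (.tw (.dx 3 (.tr (.lf 1) (.lf 5) (.lf 2))) (.lf 9)) (.lf 18)) (.lf 10)), 3, [19, 19, 20, 20, 19, 19, 20, 20], []⟩)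
    (.lf ⟨[.ofNat 0, .negSucc 2927, .ofNat 2312, .negSucc 295], (.tw (.lf 6) (.tr (.lf 9) (.dx 3 (.tr (.lf 1) (.lf 5) (.lf 2))) (.tr (.lf 17) (.lf 10) (.lf 18)))), 3, [8, 8, 8, 8, 7, 7, 7, 7], []⟩))
    (.nd (.lf ⟨[.ofNat 16640, .ofNat 9056, .negSucc 34663, .negSucc 6095], (.tr (.lf 10) (.dx 0 (.tw (.lf 17) (.tr (.lf 13) (.tr (.lf 5) (.lf 9) (.lf 6)) (.lf 14)))) (.lf 18)), 0, [18, 18, 18, 18, 6, 6, 6, 6], []⟩)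
    (.lf ⟨[.ofNat 0, .negSucc 5855, .ofNat 4624, .negSucc 591], (.tr (.lf 17) (.lf 9) (.tr (.dx 3 (.tr (.lf 1) (.lf 5) (.lf 2))) (.lf 18) (.tw (.lf 6) (.lf 10)))), 3, [23, 21, 23, 21, 1023, 1023, 22, 22], []⟩)))
    (.nd (.nd (.lf ⟨[.ofNat 13312, .negSucc 5327, .negSucc 20527, .negSucc 4271], (.tw (.lf 6) (.tr (.lf 17) (.dx 3 (.tr (.lf 1) (.lf 5) (.lf 2))) (.tr (.lf 9) (.lf 18) (.lf 10)))), 3, [19, 19, 19, 19, 20, 20, 20, 20], []⟩)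
    (.lf ⟨[.negSucc 33279, .negSucc 11423, .ofNat 62272, .ofNat 12944], (.tr (.lf 6) (.lf 9) (.tr (.tw (.dx 3 (.tr (.lf 1) (.lf 5) (.lf 2))) (.lf 17)) (.lf 10) (.lf 18))), 3, [8, 8, 20, 20, 20, 20, 20, 20], []⟩))
    (.nd (.lf ⟨[.ofNat 0, .negSucc 5007, .ofNat 1720, .ofNat 944], (.tw (.lf 6) (.tr (.dx 3 (.tr (.lf 1) (.lf 5) (.lf 2))) (.tr (.lf 17) (.lf 9) (.lf 18)) (.lf 10))), 3, [19, 19, 19, 19, 20, 20, 20, 20], []⟩)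
    (.lf ⟨[.ofNat 0, .ofNat 832, .negSucc 607, .negSucc 79], (.tw (.lf 9) (.tr (.lf 6) (.dx 3 (.tr (.lf 1) (.lf 5) (.lf 2))) (.tr (.lf 17) (.lf 10) (.lf 18)))), 3, [10, 10, 10, 10, 18, 18, 18, 18], []⟩))))

/-- data -/
def dE9x3 : RT := (.nd (.nd (.nd (.lf ⟨[.ofNat 3328, .ofNat 11040, .negSucc 10607, .negSucc 2199], (.tw (.lf 17) (.tr (.dx 3 (.tr (.lf 1) (.lf 5) (.lf 2))) (.tr (.lf 9) (.lf 18) (.lf 10)) (.lf 6))), 3, [21, 21, 21, 21, 1, 1, 1, 1], []⟩)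
    (.lf ⟨[.ofNat 0, .ofNat 2768, .negSucc 3391, .ofNat 600], (.tr (.dx 3 (.tr (.lf 1) (.lf 5) (.lf 2))) (.lf 9) (.tr (.lf 17) (.tw (.lf 6) (.lf 10)) (.lf 18))), 3, [0, 0, 0, 0, 0, 0, 0, 0], []⟩))
    (.nd (.lf ⟨[.ofNat 0, .ofNat 5008, .ofNat 936, .negSucc 12099], (.tr (.tw (.lf 10) (.lf 14)) (.dx 0 (.tr (.lf 9) (.lf 13) (.tr (.lf 5) (.lf 17) (.lf 6)))) (.lf 18)), 0, [6, 6, 6, 6, 6, 6, 6, 6], []⟩)
    (.lf ⟨[.ofNat 6656, .ofNat 38160, .negSucc 33847, .negSucc 14099], (.tr (.tw (.dx 0 (.tr (.lf 9) (.lf 17) (.tr (.lf 5) (.lf 13) (.lf 6)))) (.lf 14)) (.lf 10) (.lf 18)), 0, [14, 14, 0, 0, 19, 19, 19, 19], []⟩)))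
    (.nd (.nd (.lf ⟨[.ofNat 3328, .ofNat 28168, .negSucc 9371, .negSucc 6609], (.tr (.dx 3 (.tr (.lf 1) (.tw (.lf 5) (.lf 17)) (.lf 2))) (.tr (.lf 9) (.lf 18) (.lf 10)) (.lf 6)), 3, [21, 21, 21, 21, 21, 21, 21, 21], []⟩)
    (.lf ⟨[.ofNat 0, .ofNat 3632, .ofNat 26632, .ofNat 3260], (.tr (.dx 0 (.tr (.lf 9) (.lf 17) (.tr (.lf 5) (.lf 13) (.lf 6)))) (.tw (.lf 10) (.lf 14)) (.lf 18)), 0, [14, 14, 14, 14, 0, 0, 0, 0], []⟩))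
    (.nd (.lf ⟨[.ofNat 0, .negSucc 14543, .ofNat 11528, .ofNat 2380], (.tr (.dx 3 (.tr (.lf 1) (.lf 5) (.tw (.lf 2) (.lf 17)))) (.tr (.lf 9) (.lf 18) (.lf 10)) (.lf 6)), 3, [21, 21, 21, 21, 21, 21, 21, 21], []⟩)
    (.lf ⟨[.ofNat 0, .negSucc 1615, .negSucc 15623, .negSucc 6955], (.tr (.tw (.dx 0 (.tr (.lf 9) (.lf 17) (.tr (.lf 5) (.lf 13) (.lf 6)))) (.lf 14)) (.lf 18) (.lf 10)), 0, [14, 14, 0, 0, 19, 19, 19, 19], []⟩))))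

/-- data -/
def dE9x4 : RT := (.nd (.nd (.nd (.lf ⟨[.ofNat 0, .negSucc 2815, .negSucc 4623, .ofNat 792], (.tw (.dx 0 (.tr (.lf 13) (.tr (.lf 17) (.lf 9) (.tr (.lf 5) (.lf 18) (.lf 6))) (.lf 14))) (.lf 10)), 0, [7, 7, 7, 7, 7, 7, 7, 7], []⟩)
    (.lf ⟨[.ofNat 0, .negSucc 2799, .ofNat 680, .ofNat 1528], (.tr (.dx 0 (.tw (.lf 13) (.tr (.lf 17) (.lf 14) (.tr (.lf 5) (.lf 9) (.lf 6))))) (.lf 18) (.lf 10)), 0, [19, 19, 0, 0, 19, 19, 0, 0], []⟩))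
    (.nd (.lf ⟨[.ofNat 0, .negSucc 895, .ofNat 0, .negSucc 151], (.tr (.lf 10) (.dx 0 (.tr (.lf 13) (.tr (.tw (.lf 5) (.lf 6)) (.lf 9) (.lf 17)) (.lf 14))) (.lf 18)), 0, [6, 6, 6, 6, 6, 6, 6, 6], []⟩)
    (.lf ⟨[.ofNat 0, .negSucc 25327, .negSucc 1199, .ofNat 2512], (.tr (.lf 10) (.dx 0 (.tr (.lf 13) (.tr (.lf 5) (.tw (.lf 9) (.lf 17)) (.lf 6)) (.lf 14))) (.lf 18)), 0, [6, 6, 6, 6, 6, 6, 6, 6], []⟩)))
    (.nd (.nd (.lf ⟨[.ofNat 0, .negSucc 831, .ofNat 64, .ofNat 304], (.tr (.lf 10) (.dx 0 (.tr (.lf 13) (.lf 17) (.tr (.lf 9) (.tw (.lf 5) (.lf 6)) (.lf 14)))) (.lf 18)), 0, [6, 6, 6, 6, 6, 6, 6, 6], []⟩)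
    (.lf ⟨[.ofNat 0, .negSucc 831, .ofNat 2432, .negSucc 159], (.tr (.lf 10) (.dx 0 (.tw (.lf 13) (.tr (.lf 17) (.lf 14) (.tr (.lf 5) (.lf 9) (.lf 6))))) (.lf 18)), 0, [6, 6, 6, 6, 18, 18, 6, 6], []⟩))
    (.nd (.lf ⟨[.ofNat 0, .negSucc 415, .ofNat 1216, .negSucc 79], (.tr (.dx 0 (.tw (.lf 5) (.lf 9))) (.tr (.lf 6) (.tr (.lf 17) (.lf 13) (.lf 18)) (.lf 10)) (.lf 14)), 0, [12, 12, 12, 12, 14, 14, 14, 14], [12, 12, 14, 14]⟩)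
    (.lf ⟨[.ofNat 0, .negSucc 831, .ofNat 2432, .negSucc 159], (.tw (.dx 0 (.tr (.lf 5) (.tr (.lf 9) (.lf 10) (.tr (.lf 13) (.lf 17) (.lf 14))) (.lf 6))) (.lf 18)), 0, [0, 0, 0, 0, 0, 0, 0, 0], []⟩))))

/-- data -/
def dE9x5 : RT := (.nd (.nd (.nd (.lf ⟨[.ofNat 0, .ofNat 816, .negSucc 2527, .negSucc 843], (.tw (.dx 0 (.tr (.lf 5) (.tr (.lf 9) (.lf 17) (.tr (.lf 13) (.lf 10) (.lf 14))) (.lf 6))) (.lf 18)), 0, [12, 12, 0, 0, 12, 12, 0, 0], []⟩)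
    (.lf ⟨[.ofNat 0, .ofNat 4928, .ofNat 8656, .ofNat 3568], (.tw (.dx 0 (.tr (.lf 5) (.tr (.lf 13) (.lf 14) (.tr (.lf 9) (.lf 17) (.lf 10))) (.lf 6))) (.lf 18)), 0, [0, 0, 12, 12, 0, 0, 12, 12], []⟩))
    (.nd (.lf ⟨[.ofNat 0, .negSucc 239, .negSucc 1383, .negSucc 59], (.tw (.dx 0 (.tr (.lf 5) (.tw (.lf 13) (.tr (.lf 9) (.tw (.lf 14) (.lf 17)) (.lf 10))) (.lf 6))) (.lf 18)), 0, [0, 0, 0, 0, 0, 12, 0, 12, 0, 0, 0, 0, 0, 12, 0, 12], []⟩)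
    (.lf ⟨[.ofNat 0, .ofNat 480, .ofNat 2768, .ofNat 120], (.tw (.dx 0 (.tr (.lf 5) (.tr (.lf 9) (.tr (.lf 10) (.lf 17) (.lf 13)) (.lf 14)) (.lf 6))) (.lf 18)), 0, [12, 0, 0, 0, 12, 0, 0, 0], []⟩)))
    (.nd (.nd (.lf ⟨[.ofNat 0, .ofNat 392, .negSucc 247, .negSucc 1827], (.tw (.dx 0 (.tr (.lf 5) (.tr (.lf 6) (.tr (.lf 13) (.lf 17) (.lf 14)) (.lf 9)) (.lf 10))) (.lf 18)), 0, [0, 0, 0, 0, 2, 2, 2, 2], []⟩)
    (.lf ⟨[.ofNat 0, .negSucc 8255, .negSucc 15055, .negSucc 7103], (.tw (.dx 0 (.tr (.lf 5) (.lf 13) (.tr (.lf 6) (.tr (.lf 9) (.lf 17) (.lf 10)) (.lf 14)))) (.lf 18)), 0, [0, 0, 0, 0, 12, 12, 2, 2], []⟩))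
    (.nd (.lf ⟨[.ofNat 0, .negSucc 3439, .negSucc 1367, .negSucc 391], (.tr (.dx 0 (.tr (.lf 5) (.lf 13) (.tr (.lf 17) (.lf 14) (.lf 18)))) (.tw (.lf 9) (.lf 10)) (.lf 6)), 0, [21, 21, 21, 21, 9, 9, 9, 9], []⟩)
    (.lf ⟨[.ofNat 0, .ofNat 368, .negSucc 603, .negSucc 7], (.tr (.dx 0 (.tr (.lf 13) (.lf 14) (.tr (.lf 17) (.lf 5) (.lf 18)))) (.tw (.lf 9) (.lf 10)) (.lf 6)), 0, [21, 21, 21, 21, 9, 9, 9, 9], []⟩))))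

/-- data -/
def dE9x6 : RT := (.nd (.nd (.nd (.lf ⟨[.ofNat 0, .negSucc 735, .ofNat 1208, .ofNat 16], (.tr (.dx 0 (.tr (.lf 13) (.lf 14) (.tr (.lf 17) (.lf 5) (.lf 18)))) (.lf 9) (.tw (.lf 6) (.lf 10))), 0, [23, 21, 23, 21, 11, 9, 11, 9], []⟩)
    (.lf ⟨[.negSucc 6655, .negSucc 21695, .negSucc 9087, .ofNat 9884], (.tr (.dx 0 (.tr (.lf 13) (.tr (.lf 5) (.lf 9) (.tw (.lf 17) (.lf 18))) (.lf 14))) (.lf 6) (.lf 10)), 0, [11, 11, 11, 11, 11, 11, 11, 11], []⟩))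
    (.nd (.lf ⟨[.ofNat 13312, .negSucc 2575, .ofNat 21928, .negSucc 9583], (.tr (.dx 0 (.tr (.lf 13) (.lf 5) (.tr (.lf 9) (.tw (.lf 17) (.lf 18)) (.lf 14)))) (.lf 6) (.lf 10)), 0, [11, 11, 23, 23, 11, 11, 11, 11], []⟩)
    (.lf ⟨[.ofNat 0, .ofNat 45104, .negSucc 7215, .negSucc 10231], (.tr (.dx 0 (.tr (.lf 13) (.tr (.lf 5) (.tw (.lf 9) (.lf 17)) (.lf 18)) (.lf 14))) (.lf 6) (.lf 10)), 0, [11, 11, 11, 11, 11, 11, 11, 11], []⟩)))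
    (.nd (.nd (.lf ⟨[.ofNat 6656, .ofNat 2568, .ofNat 13728, .negSucc 4831], (.tr (.dx 0 (.tw (.lf 9) (.tr (.lf 13) (.lf 14) (.tr (.lf 17) (.lf 5) (.lf 18))))) (.lf 6) (.lf 10)), 0, [23, 23, 11, 11, 23, 23, 11, 11], []⟩)
    (.lf ⟨[.ofNat 0, .ofNat 1792, .ofNat 1792, .ofNat 160], (.tr (.lf 6) (.dx 0 (.tr (.lf 13) (.lf 5) (.tr (.lf 17) (.tw (.lf 9) (.lf 14)) (.lf 18)))) (.lf 10)), 0, [4, 1015, 4, 1015, 1015, 7, 1015, 7], []⟩))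
    (.nd (.lf ⟨[.ofNat 0, .ofNat 3840, .ofNat 9472, .ofNat 640], (.tr (.lf 6) (.dx 0 (.tr (.lf 13) (.lf 5) (.tr (.tw (.lf 14) (.lf 17)) (.lf 9) (.lf 18)))) (.lf 10)), 0, [1015, 1015, 4, 4, 7, 7, 1015, 1015], []⟩)
    (.lf ⟨[.ofNat 0, .negSucc 3055, .negSucc 4083, .ofNat 2760], (.tr (.lf 6) (.dx 0 (.tr (.lf 13) (.lf 14) (.tr (.lf 17) (.tw (.lf 5) (.lf 9)) (.lf 18)))) (.lf 10)), 0, [19, 19, 19, 19, 16, 16, 16, 16], []⟩))))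

/-- data -/
def dE9x7 : RT := (.nd (.nd (.nd (.lf ⟨[.ofNat 0, .ofNat 288, .ofNat 7696, .negSucc 2087], (.tw (.dx 0 (.tr (.lf 5) (.tr (.lf 13) (.lf 9) (.tr (.lf 17) (.lf 14) (.lf 18))) (.lf 6))) (.lf 10)), 0, [19, 19, 7, 7, 19, 19, 7, 7], []⟩)
    (.lf ⟨[.ofNat 0, .ofNat 464, .negSucc 799, .ofNat 3536], (.tr (.tw (.dx 0 (.tr (.lf 9) (.lf 5) (.tr (.lf 13) (.lf 17) (.lf 14)))) (.lf 18)) (.lf 6) (.lf 10)), 0, [2, 2, 23, 23, 11, 11, 11, 11], []⟩))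
    (.nd (.lf ⟨[.ofNat 0, .ofNat 0, .ofNat 320], (.tw (.dx 0 (.tr (.lf 5) (.lf 13) (.lf 9))) (.tr (.lf 6) (.tr (.lf 17) (.lf 14) (.lf 18)) (.lf 10))), 0, [0, 0, 0, 0, 2, 2, 2, 2], [12, 12, 14, 14]⟩)
    (.lf ⟨[.ofNat 0, .ofNat 7384, .negSucc 767, .negSucc 247], (.tr (.dx 0 (.tr (.lf 9) (.lf 5) (.tr (.lf 13) (.lf 17) (.lf 14)))) (.tw (.lf 6) (.lf 18)) (.lf 10)), 0, [2, 2, 2, 2, 23, 23, 23, 23], []⟩)))
    (.nd (.nd (.lf ⟨[.ofNat 3328, .ofNat 5020, .ofNat 24796, .ofNat 608], (.tr (.lf 1) (.tr (.dx 3 (.lf 17)) (.tr (.lf 9) (.tw (.lf 2) (.lf 5)) (.lf 10)) (.lf 18)) (.lf 6)), 3, [21, 21, 21, 21, 14, 14, 14, 14], [1017, 1017, 1017, 1017, 1017, 1017, 1017, 1017]⟩)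
    (.lf ⟨[.ofNat 0, .ofNat 424, .ofNat 4616, .negSucc 287], (.tw (.dx 0 (.tr (.lf 5) (.lf 9) (.lf 13))) (.tr (.lf 6) (.tr (.lf 17) (.lf 14) (.lf 18)) (.lf 10))), 0, [0, 0, 0, 0, 2, 2, 2, 2], [12, 12, 14, 14]⟩))
    (.nd (.lf ⟨[.ofNat 0, .negSucc 423, .negSucc 4615, .ofNat 288], (.tw (.dx 0 (.tr (.lf 5) (.lf 13) (.tr (.lf 9) (.lf 6) (.tr (.lf 17) (.lf 14) (.lf 18))))) (.lf 10)), 0, [0, 0, 19, 19, 1023, 1023, 7, 7], []⟩)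
    (.lf ⟨[.ofNat 0, .negSucc 5239, .negSucc 311, .negSucc 1135], (.tw (.lf 6) (.tr (.dx 0 (.tr (.lf 5) (.lf 13) (.lf 9))) (.tr (.lf 17) (.lf 14) (.lf 18)) (.lf 10))), 0, [4, 4, 4, 4, 3, 1, 3, 1], [16, 16, 20, 20]⟩))))

/-- data -/
def dE9x8 : RT := (.nd (.nd (.nd (.lf ⟨[.ofNat 0, .ofNat 6880, .ofNat 2736, .ofNat 784], (.tw (.dx 0 (.tr (.lf 5) (.tr (.lf 6) (.lf 9) (.tr (.lf 17) (.lf 13) (.lf 18))) (.lf 14))) (.lf 10)), 0, [12, 12, 7, 7, 19, 19, 19, 19], []⟩)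
    (.lf ⟨[.ofNat 0, .ofNat 6880, .ofNat 2736, .ofNat 784], (.tw (.lf 10) (.tr (.dx 0 (.tr (.lf 5) (.lf 6) (.lf 9))) (.lf 13) (.tr (.lf 17) (.lf 14) (.lf 18)))), 0, [6, 6, 6, 6, 3, 1, 3, 1], []⟩))
    (.nd (.lf ⟨[.ofNat 0, .negSucc 2047, .negSucc 4319, .ofNat 512], (.tr (.lf 10) (.dx 0 (.tr (.lf 5) (.lf 6) (.lf 9))) (.tr (.tw (.lf 13) (.lf 17)) (.lf 14) (.lf 18))), 0, [6, 18, 18, 18, 6, 18, 18, 18], []⟩)
    (.lf ⟨[.ofNat 0, .negSucc 1023, .negSucc 2159, .ofNat 256], (.tr (.dx 3 (.tw (.lf 17) (.lf 18))) (.lf 1) (.tr (.lf 5) (.lf 6) (.tr (.lf 9) (.lf 2) (.lf 10)))), 3, [7, 7, 9, 9, 7, 7, 9, 9], []⟩)))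
    (.nd (.nd (.lf ⟨[.ofNat 0, .ofNat 1024, .ofNat 2160, .negSucc 255], (.tr (.dx 3 (.tw (.lf 17) (.lf 18))) (.tr (.lf 1) (.lf 5) (.tr (.lf 9) (.lf 6) (.lf 10))) (.lf 2)), 3, [3, 3, 1, 1, 3, 3, 1, 1], []⟩)
    (.lf ⟨[.ofNat 0, .ofNat 2048, .ofNat 4320, .negSucc 511], (.tr (.dx 0 (.tr (.lf 5) (.lf 6) (.lf 9))) (.lf 10) (.tr (.tw (.lf 13) (.lf 17)) (.lf 14) (.lf 18))), 0, [0, 12, 12, 12, 2, 14, 14, 14], []⟩))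
    (.nd (.lf ⟨[.ofNat 0, .ofNat 1024, .ofNat 2160, .negSucc 255], (.tr (.lf 5) (.lf 1) (.tr (.dx 3 (.tw (.lf 17) (.lf 18))) (.tr (.lf 9) (.lf 6) (.lf 10)) (.lf 2))), 3, [3, 3, 3, 3, 4, 4, 4, 4], []⟩)
    (.lf ⟨[.ofNat 0, .ofNat 6880, .ofNat 2736, .ofNat 784], (.tw (.lf 13) (.tr (.lf 10) (.dx 0 (.tr (.lf 5) (.lf 6) (.lf 9))) (.tr (.lf 17) (.lf 14) (.lf 18)))), 0, [6, 6, 6, 6, 19, 19, 19, 19], []⟩))))

/-- data -/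
def dE9x9 : RT := (.nd (.nd (.nd (.lf ⟨[.ofNat 0, .ofNat 6880, .ofNat 2736, .ofNat 784], (.tw (.lf 13) (.tr (.lf 17) (.tr (.lf 10) (.dx 0 (.tr (.lf 5) (.lf 6) (.lf 9))) (.lf 14)) (.lf 18))), 0, [1023, 6, 19, 19, 1023, 6, 19, 19], []⟩)
    (.lf ⟨[.ofNat 0, .negSucc 2495, .ofNat 3680, .negSucc 4583], (.tw (.lf 13) (.tr (.lf 17) (.tr (.dx 0 (.tr (.lf 5) (.lf 6) (.lf 9))) (.lf 10) (.lf 14)) (.lf 18))), 0, [19, 1023, 15, 13, 19, 1023, 15, 13], []⟩))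
    (.nd (.lf ⟨[.ofNat 0, .negSucc 479, .negSucc 3151, .ofNat 312], (.tr (.dx 0 (.tr (.lf 9) (.lf 5) (.tr (.lf 13) (.lf 17) (.lf 14)))) (.lf 6) (.tw (.lf 10) (.lf 18))), 0, [2, 2, 2, 2, 0, 23, 0, 23], []⟩)
    (.lf ⟨[.ofNat 0, .ofNat 1160, .ofNat 1040, .ofNat 1824], (.tr (.tw (.dx 0 (.tr (.lf 9) (.lf 5) (.tr (.lf 13) (.lf 17) (.lf 14)))) (.lf 6)) (.lf 18) (.lf 10)), 0, [2, 2, 23, 23, 4, 4, 4, 4], []⟩)))
    (.nd (.nd (.lf ⟨[.ofNat 0, .negSucc 7847, .ofNat 1568, .negSucc 3287], (.tr (.dx 0 (.tr (.lf 5) (.lf 9) (.tr (.lf 13) (.lf 17) (.lf 14)))) (.lf 18) (.tw (.lf 6) (.lf 10))), 0, [0, 0, 0, 0, 23, 21, 23, 21], []⟩)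
    (.lf ⟨[.ofNat 0, .negSucc 1295, .ofNat 3232, .negSucc 3695], (.tr (.lf 6) (.tw (.dx 0 (.tr (.lf 5) (.lf 9) (.tr (.lf 13) (.lf 17) (.lf 14)))) (.lf 10)) (.lf 18)), 0, [4, 4, 4, 4, 8, 8, 8, 8], []⟩))
    (.nd (.lf ⟨[.ofNat 0, .ofNat 832, .negSucc 63, .negSucc 303], (.tr (.dx 0 (.tw (.lf 5) (.tr (.lf 6) (.tr (.lf 13) (.lf 17) (.lf 14)) (.lf 9)))) (.lf 10) (.lf 18)), 0, [0, 0, 0, 0, 0, 0, 2, 2], []⟩)
    (.lf ⟨[.ofNat 0, .ofNat 2016, .negSucc 423, .ofNat 16], (.tw (.lf 5) (.tr (.lf 9) (.tw (.dx 0 (.tr (.tw (.lf 13) (.lf 17)) (.lf 14) (.lf 18))) (.lf 6)) (.lf 10))), 0, [1015, 20, 20, 1015, 8, 20, 20, 20, 1015, 20, 20, 1015, 8, 20, 20, 20], []⟩))))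

/-- data -/
def dE9x10 : RT := (.nd (.nd (.nd (.lf ⟨[.ofNat 0, .negSucc 6367, .ofNat 1792, .negSucc 1007], (.tr (.dx 0 (.tw (.lf 5) (.tr (.lf 13) (.lf 9) (.tr (.lf 17) (.lf 14) (.lf 18))))) (.lf 6) (.lf 10)), 0, [23, 23, 11, 11, 23, 23, 11, 11], []⟩)
    (.lf ⟨[.ofNat 0, .ofNat 3984, .negSucc 2151, .ofNat 2576], (.tr (.dx 0 (.tw (.lf 13) (.tr (.lf 5) (.tr (.lf 17) (.lf 14) (.lf 18)) (.lf 9)))) (.lf 6) (.lf 10)), 0, [23, 23, 23, 23, 11, 11, 11, 11], []⟩))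
    (.nd (.lf ⟨[.ofNat 0, .negSucc 415, .ofNat 2192, .negSucc 423], (.tr (.dx 0 (.tr (.lf 5) (.lf 13) (.tr (.lf 17) (.tw (.lf 9) (.lf 14)) (.lf 18)))) (.lf 6) (.lf 10)), 0, [23, 23, 23, 23, 11, 11, 11, 11], []⟩)
    (.lf ⟨[.ofNat 0, .negSucc 415, .ofNat 32, .ofNat 152], (.tr (.dx 0 (.tw (.lf 9) (.tr (.lf 13) (.lf 5) (.tr (.lf 17) (.lf 14) (.lf 18))))) (.lf 6) (.lf 10)), 0, [23, 23, 11, 11, 23, 23, 11, 11], []⟩)))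
    (.nd (.nd (.lf ⟨[.ofNat 0, .ofNat 1412, .negSucc 1595, .ofNat 376], (.tr (.dx 0 (.tw (.lf 5) (.lf 9))) (.lf 13) (.tr (.lf 6) (.tr (.lf 17) (.lf 14) (.lf 18)) (.lf 10))), 0, [0, 0, 0, 0, 2, 2, 2, 2], [0, 0, 2, 2]⟩)
    (.lf ⟨[.ofNat 0, .negSucc 2407, .ofNat 3160, .negSucc 903], (.tr (.dx 0 (.tw (.lf 5) (.lf 9))) (.tr (.lf 13) (.lf 10) (.tr (.lf 17) (.lf 14) (.lf 18))) (.lf 6)), 0, [0, 0, 12, 12, 2, 2, 14, 14], [2, 2, 9, 9]⟩))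
    (.nd (.lf ⟨[.ofNat 0, .negSucc 415, .ofNat 32, .ofNat 152], (.tw (.dx 0 (.tr (.lf 5) (.lf 9) (.tr (.lf 13) (.lf 6) (.tr (.lf 17) (.lf 14) (.lf 18))))) (.lf 10)), 0, [0, 0, 12, 12, 19, 19, 7, 7], []⟩)
    (.lf ⟨[.ofNat 0, .ofNat 0, .ofNat 576, .ofNat 1408, .ofNat 32], (.tr (.dx 0 (.lf 5)) (.tr (.lf 13) (.lf 11) (.tr (.lf 17) (.lf 14) (.lf 18))) (.lf 6)), 0, [0, 0, 12, 12], [2, 2, 9, 9]⟩))))

/-- data -/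
def dE9x11 : RT := (.nd (.nd (.nd (.lf ⟨[.ofNat 0, .ofNat 0, .ofNat 4864, .ofNat 2896, .ofNat 64], (.tr (.dx 0 (.lf 5)) (.lf 13) (.tr (.lf 6) (.tr (.lf 17) (.lf 14) (.lf 18)) (.lf 11))), 0, [0, 0, 0, 0], [0, 0, 2, 2]⟩)
    (.lf ⟨[.ofNat 0, .ofNat 0, .negSucc 2367, .negSucc 2815, .negSucc 63], (.tr (.lf 6) (.lf 13) (.tr (.dx 0 (.lf 5)) (.tr (.lf 17) (.lf 14) (.lf 18)) (.lf 11))), 0, [4, 4, 13, 13], [4, 4, 8, 8]⟩))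
    (.nd (.lf ⟨[.ofNat 0, .ofNat 0, .negSucc 575, .ofNat 1488, .ofNat 32], (.tw (.dx 0 (.tw (.lf 5) (.tr (.lf 13) (.lf 11) (.tr (.lf 17) (.lf 14) (.lf 18))))) (.lf 6)), 0, [0, 0, 5, 5, 17, 17, 5, 5], []⟩)
    (.lf ⟨[.ofNat 0, .ofNat 0, .ofNat 4864, .ofNat 5792, .ofNat 128], (.tw (.dx 0 (.tr (.lf 5) (.lf 13) (.tr (.lf 17) (.tw (.lf 11) (.lf 14)) (.lf 18)))) (.lf 6)), 0, [1017, 17, 1017, 17, 5, 5, 5, 5], []⟩)))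
    (.nd (.nd (.lf ⟨[.ofNat 0, .ofNat 0, .negSucc 7295, .negSucc 5791, .negSucc 127], (.tw (.dx 0 (.tr (.lf 5) (.lf 13) (.tr (.tw (.lf 11) (.lf 17)) (.lf 14) (.lf 18)))) (.lf 6)), 0, [0, 1017, 17, 17, 5, 5, 5, 5], []⟩)
    (.lf ⟨[.ofNat 0, .ofNat 0, .ofNat 3584, .ofNat 2816, .ofNat 64], (.tw (.dx 0 (.tw (.lf 13) (.tr (.lf 5) (.tr (.lf 17) (.lf 14) (.lf 18)) (.lf 11)))) (.lf 6)), 0, [17, 17, 17, 17, 5, 5, 5, 5], []⟩))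
    (.nd (.lf ⟨[.ofNat 0, .ofNat 0, .negSucc 1215, .negSucc 2895, .negSucc 63], (.tr (.lf 1) (.tr (.tw (.lf 2) (.lf 5)) (.dx 3 (.tw (.lf 11) (.lf 17))) (.lf 18)) (.lf 6)), 3, [0, 0, 0, 0, 5, 5, 5, 5], []⟩)
    (.lf ⟨[.ofNat 0, .ofNat 0, .ofNat 1216, .ofNat 2896, .ofNat 64], (.tr (.lf 1) (.lf 18) (.tr (.dx 3 (.tw (.lf 11) (.lf 17))) (.lf 2) (.tw (.lf 5) (.lf 6)))), 3, [5, 5, 5, 5, 12, 12, 12, 12], []⟩))))

/-- data -/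
def dE9x12 : RT := (.nd (.nd (.nd (.lf ⟨[.ofNat 0, .ofNat 0, .negSucc 1407, .negSucc 2143, .negSucc 63], (.tr (.dx 3 (.tw (.lf 11) (.lf 17))) (.lf 1) (.tr (.lf 2) (.lf 18) (.tw (.lf 5) (.lf 6)))), 3, [17, 17, 13, 13, 17, 17, 13, 13], []⟩)
    (.lf ⟨[.ofNat 0, .ofNat 0, .ofNat 2240, .ofNat 752], (.tw (.dx 3 (.tw (.lf 11) (.lf 17))) (.tr (.lf 1) (.tr (.lf 2) (.lf 18) (.lf 5)) (.lf 6))), 3, [17, 17, 13, 13, 17, 17, 13, 13], []⟩))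
    (.nd (.lf ⟨[.ofNat 0, .negSucc 415, .ofNat 2192, .negSucc 423], (.tr (.lf 6) (.dx 0 (.tr (.lf 5) (.lf 13) (.tr (.lf 17) (.tw (.lf 9) (.lf 14)) (.lf 18)))) (.lf 10)), 0, [4, 4, 4, 4, 7, 7, 7, 7], []⟩)
    (.lf ⟨[.ofNat 0, .ofNat 1968, .ofNat 2552, .negSucc 1991], (.tr (.lf 6) (.dx 0 (.tw (.lf 5) (.tr (.lf 13) (.lf 9) (.tr (.lf 17) (.lf 14) (.lf 18))))) (.lf 10)), 0, [4, 4, 16, 16, 19, 19, 7, 7], []⟩)))
    (.nd (.nd (.lf ⟨[.ofNat 0, .negSucc 1439, .ofNat 2504, .negSucc 615], (.tw (.dx 0 (.tr (.lf 5) (.tr (.lf 13) (.lf 14) (.tr (.lf 17) (.lf 9) (.lf 18))) (.lf 6))) (.lf 10)), 0, [19, 19, 7, 7, 19, 19, 7, 7], []⟩)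
    (.lf ⟨[.ofNat 0, .ofNat 424, .ofNat 4616, .negSucc 287], (.tw (.dx 0 (.tr (.lf 9) (.lf 5) (.tr (.lf 6) (.lf 13) (.tr (.lf 17) (.lf 14) (.lf 18))))) (.lf 10)), 0, [2, 2, 1023, 1023, 19, 19, 7, 7], []⟩))
    (.nd (.lf ⟨[.ofNat 6656, .negSucc 11223, .ofNat 200, .negSucc 13167], (.tw (.dx 0 (.tr (.lf 5) (.lf 9) (.tr (.lf 13) (.lf 14) (.tr (.lf 17) (.lf 6) (.lf 18))))) (.lf 10)), 0, [0, 0, 12, 12, 19, 19, 7, 7], []⟩)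
    (.lf ⟨[.ofNat 6656, .negSucc 5975, .ofNat 1400, .ofNat 848], (.tr (.dx 0 (.tw (.lf 5) (.lf 9))) (.tr (.lf 13) (.lf 14) (.tr (.lf 17) (.lf 10) (.lf 18))) (.lf 6)), 0, [0, 0, 12, 12, 2, 2, 14, 14], [21, 21, 14, 14]⟩))))

/-- data -/
def dE9x13 : RT := (.nd (.nd (.nd (.lf ⟨[.ofNat 0, .ofNat 0, .ofNat 6400, .ofNat 9024, .ofNat 128], (.tw (.lf 7) (.tr (.dx 3 (.lf 3)) (.lf 17) (.tw (.lf 11) (.lf 18)))), 3, [4, 4, 20, 20], []⟩)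
    (.lf ⟨[.negSucc 6655, .ofNat 6376, .ofNat 2588, .ofNat 4680], (.tw (.lf 6) (.tr (.lf 9) (.tw (.dx 0 (.tr (.lf 5) (.tw (.lf 13) (.lf 14)) (.lf 17))) (.lf 18)) (.lf 10))), 0, [8, 8, 20, 20, 20, 20, 7, 7, 8, 8, 20, 20, 20, 20, 7, 7], []⟩))
    (.nd (.lf ⟨[.ofNat 0, .negSucc 4095, .negSucc 19103, .ofNat 8640], (.tr (.lf 9) (.dx 0 (.tr (.lf 5) (.tw (.lf 13) (.lf 14)) (.lf 17))) (.tr (.lf 6) (.lf 10) (.lf 18))), 0, [6, 6, 6, 6, 18, 21, 18, 21], []⟩)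
    (.lf ⟨[.ofNat 0, .ofNat 4448, .negSucc 6775, .ofNat 2960], (.tr (.lf 9) (.lf 18) (.tr (.dx 0 (.tr (.lf 5) (.tw (.lf 13) (.lf 14)) (.lf 17))) (.lf 10) (.lf 6))), 0, [21, 21, 9, 9, 22, 22, 1, 1], []⟩)))
    (.nd (.nd (.lf ⟨[.ofNat 0, .ofNat 3056, .ofNat 4084, .negSucc 2759], (.tw (.dx 0 (.tr (.lf 5) (.tw (.lf 13) (.lf 14)) (.lf 17))) (.tr (.lf 9) (.tw (.lf 6) (.lf 18)) (.lf 10))), 0, [0, 23, 0, 23, 0, 23, 0, 23, 23, 23, 23, 23, 23, 23, 23, 23], []⟩)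
    (.lf ⟨[.ofNat 0, .ofNat 5280, .ofNat 696, .negSucc 1279], (.tr (.lf 6) (.dx 3 (.tr (.lf 17) (.lf 18) (.tr (.lf 1) (.tw (.lf 5) (.lf 9)) (.lf 2)))) (.lf 10)), 3, [7, 7, 7, 7, 4, 4, 4, 4], []⟩))
    (.nd (.lf ⟨[.ofNat 0, .negSucc 10863, .ofNat 24672, .negSucc 7519], (.tr (.lf 18) (.lf 9) (.tr (.lf 6) (.dx 0 (.tr (.lf 5) (.tw (.lf 13) (.lf 14)) (.lf 17))) (.lf 10))), 0, [19, 19, 7, 7, 17, 17, 5, 5], []⟩)
    (.lf ⟨[.ofNat 0, .ofNat 8176, .ofNat 744, .ofNat 424], (.tr (.lf 18) (.lf 9) (.tr (.dx 0 (.tr (.lf 5) (.lf 17) (.tw (.lf 13) (.lf 14)))) (.lf 6) (.lf 10))), 0, [11, 11, 23, 23, 1, 1, 13, 13], []⟩))))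

/-- data -/
def dE9x14 : RT := (.nd (.nd (.nd (.lf ⟨[.ofNat 0, .ofNat 4088, .ofNat 372, .ofNat 212], (.tr (.dx 3 (.tr (.lf 1) (.lf 2) (.tr (.lf 5) (.lf 9) (.lf 6)))) (.tw (.lf 17) (.lf 18)) (.lf 10)), 3, [23, 23, 23, 23, 19, 19, 19, 19], []⟩)
    (.lf ⟨[.ofNat 0, .ofNat 2928, .negSucc 2807, .negSucc 1357], (.tw (.lf 18) (.tr (.lf 9) (.tw (.dx 0 (.tr (.lf 5) (.tw (.lf 13) (.lf 14)) (.lf 17))) (.lf 6)) (.lf 10))), 0, [23, 23, 11, 11, 19, 19, 7, 7, 23, 23, 11, 11, 19, 19, 7, 7], []⟩))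
    (.nd (.lf ⟨[.ofNat 0, .ofNat 464, .negSucc 347, .ofNat 586], (.tw (.lf 18) (.tr (.lf 9) (.tw (.dx 0 (.tr (.lf 5) (.lf 17) (.tw (.lf 13) (.lf 14)))) (.lf 6)) (.lf 10))), 0, [11, 11, 23, 23, 7, 7, 19, 19, 11, 11, 23, 23, 7, 7, 19, 19], []⟩)
    (.lf ⟨[.ofNat 0, .ofNat 8176, .ofNat 744, .ofNat 424], (.tr (.lf 9) (.dx 0 (.tr (.lf 5) (.lf 17) (.tw (.lf 13) (.lf 14)))) (.tr (.lf 6) (.lf 10) (.lf 18))), 0, [18, 18, 18, 18, 6, 21, 6, 21], []⟩)))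
    (.nd (.nd (.lf ⟨[.ofNat 0, .negSucc 1423, .negSucc 1791, .negSucc 375], (.tr (.lf 6) (.lf 9) (.tr (.lf 10) (.dx 0 (.tr (.lf 5) (.lf 17) (.tw (.lf 13) (.lf 14)))) (.lf 18))), 0, [20, 20, 8, 8, 20, 20, 19, 19], []⟩)
    (.lf ⟨[.ofNat 0, .negSucc 1663, .ofNat 128, .ofNat 608], (.tr (.lf 6) (.tr (.dx 0 (.tr (.lf 5) (.lf 17) (.tw (.lf 13) (.lf 14)))) (.lf 9) (.lf 10)) (.lf 18)), 0, [16, 16, 4, 4, 20, 20, 8, 8], []⟩))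
    (.nd (.lf ⟨[.ofNat 0, .negSucc 943, .ofNat 976, .negSucc 255], (.tr (.lf 18) (.lf 9) (.tr (.dx 0 (.tr (.lf 5) (.tw (.lf 13) (.lf 14)) (.lf 17))) (.lf 6) (.lf 10))), 0, [23, 23, 11, 11, 13, 13, 1, 1], []⟩)
    (.lf ⟨[.ofNat 0, .ofNat 3088, .ofNat 1664, .negSucc 231], (.tr (.dx 0 (.tr (.lf 5) (.tw (.lf 13) (.lf 14)) (.lf 17))) (.tr (.lf 6) (.lf 9) (.lf 10)) (.lf 18)), 0, [0, 0, 0, 0, 12, 12, 12, 12], []⟩))))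

/-- data -/
def dE9x15 : RT := (.nd (.nd (.nd (.lf ⟨[.ofNat 0, .negSucc 1919, .negSucc 895, .ofNat 1816], (.tw (.lf 6) (.tr (.lf 9) (.tw (.dx 0 (.tr (.lf 5) (.lf 17) (.tw (.lf 13) (.lf 14)))) (.lf 18)) (.lf 10))), 0, [20, 20, 8, 8, 20, 20, 19, 19, 20, 20, 8, 8, 20, 20, 19, 19], []⟩)
    (.lf ⟨[.ofNat 0, .ofNat 6016, .ofNat 160, .ofNat 64], (.tr (.lf 9) (.lf 18) (.tr (.dx 0 (.tr (.lf 5) (.lf 17) (.tw (.lf 13) (.lf 14)))) (.lf 10) (.lf 6))), 0, [9, 9, 21, 21, 22, 22, 13, 13], []⟩))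
    (.nd (.lf ⟨[.ofNat 0, .ofNat 2272, .ofNat 1288, .ofNat 48], (.tr (.lf 6) (.tr (.dx 3 (.tr (.lf 1) (.tw (.lf 5) (.lf 9)) (.lf 2))) (.lf 17) (.lf 18)) (.lf 10)), 3, [4, 4, 4, 4, 7, 7, 7, 7], []⟩)
    (.lf ⟨[.ofNat 0, .negSucc 9103, .negSucc 47, .negSucc 1595], (.tw (.dx 0 (.tr (.lf 5) (.lf 13) (.tr (.lf 14) (.lf 17) (.tr (.lf 9) (.lf 6) (.lf 10))))) (.lf 18)), 0, [0, 0, 0, 0, 2, 2, 14, 14], []⟩)))
    (.nd (.nd (.lf ⟨[.ofNat 0, .negSucc 7311, .negSucc 735, .negSucc 1483], (.tw (.dx 0 (.tr (.lf 5) (.tr (.lf 13) (.tr (.lf 9) (.lf 6) (.lf 10)) (.lf 17)) (.lf 14))) (.lf 18)), 0, [0, 0, 12, 12, 2, 2, 2, 2], []⟩)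
    (.lf ⟨[.ofNat 0, .ofNat 9104, .ofNat 48, .ofNat 1596], (.tw (.dx 0 (.tr (.lf 5) (.lf 17) (.tr (.lf 13) (.lf 14) (.tr (.lf 9) (.lf 6) (.lf 10))))) (.lf 18)), 0, [12, 12, 12, 12, 2, 2, 2, 2], []⟩))
    (.nd (.lf ⟨[.ofNat 0, .negSucc 1639, .negSucc 2423, .ofNat 352], (.tw (.dx 0 (.tr (.lf 13) (.lf 5) (.tr (.lf 6) (.tr (.lf 17) (.lf 14) (.lf 18)) (.lf 9)))) (.lf 10)), 0, [19, 19, 19, 19, 7, 7, 7, 7], []⟩)
    (.lf ⟨[.ofNat 0, .ofNat 424, .ofNat 4616, .negSucc 287], (.tw (.dx 0 (.tr (.lf 9) (.tr (.lf 5) (.lf 6) (.tr (.lf 17) (.lf 13) (.lf 18))) (.lf 14))) (.lf 10)), 0, [14, 14, 7, 7, 19, 19, 19, 19], []⟩))))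

/-- data -/
def dE9x16 : RT := (.nd (.nd (.nd (.lf ⟨[.ofNat 0, .negSucc 1215, .ofNat 2192, .ofNat 64], (.tw (.dx 0 (.tr (.lf 9) (.lf 13) (.tr (.lf 17) (.tr (.lf 5) (.lf 6) (.lf 14)) (.lf 18)))) (.lf 10)), 0, [1023, 19, 1023, 19, 7, 7, 7, 7], []⟩)
    (.lf ⟨[.ofNat 0, .ofNat 6080, .ofNat 8000, .ofNat 8416], (.tw (.dx 0 (.tr (.lf 5) (.tr (.lf 9) (.tr (.lf 17) (.lf 6) (.lf 18)) (.lf 13)) (.lf 14))) (.lf 10)), 0, [12, 12, 7, 7, 7, 7, 19, 19], []⟩))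
    (.nd (.lf ⟨[.ofNat 6656, .ofNat 6672, .negSucc 25927, .negSucc 9235], (.tw (.dx 0 (.tr (.lf 13) (.lf 9) (.tr (.lf 5) (.lf 14) (.tr (.lf 17) (.lf 6) (.lf 18))))) (.lf 10)), 0, [19, 19, 7, 7, 7, 7, 7, 7], []⟩)
    (.lf ⟨[.negSucc 6655, .negSucc 17359, .ofNat 1352, .ofNat 9036], (.tr (.dx 0 (.tw (.lf 9) (.tr (.lf 5) (.lf 17) (.tr (.lf 13) (.lf 6) (.lf 14))))) (.lf 18) (.lf 10)), 0, [14, 14, 2, 2, 12, 12, 19, 19], []⟩)))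
    (.nd (.nd (.lf ⟨[.ofNat 6656, .ofNat 18480, .negSucc 567, .negSucc 6843], (.tr (.dx 0 (.tw (.lf 5) (.lf 13))) (.tr (.lf 9) (.lf 14) (.tr (.lf 17) (.lf 10) (.lf 18))) (.lf 6)), 0, [0, 0, 0, 0, 0, 0, 9, 9], [2, 2, 9, 9]⟩)
    (.lf ⟨[.ofNat 0, .ofNat 0, .negSucc 1663, .ofNat 4160, .negSucc 159], (.tr (.dx 0 .on) (.tr (.lf 5) (.lf 19) (.tr (.lf 13) (.lf 6) (.lf 14))) (.lf 11)), 0, [12, 12, 0, 0], [12, 12, 23, 23]⟩))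
    (.nd (.lf ⟨[.ofNat 0, .ofNat 0, .negSucc 191, .ofNat 176], (.tr (.dx 0 (.lf 5)) (.tr (.lf 9) (.lf 19) (.tr (.lf 13) (.lf 10) (.lf 14))) (.lf 6)), 0, [12, 12, 0, 0], [14, 14, 21, 21]⟩)
    (.lf ⟨[.ofNat 0, .ofNat 0, .ofNat 192, .negSucc 175], (.tw (.dx 0 (.tw (.lf 9) (.tr (.lf 5) (.lf 19) (.tr (.lf 13) (.lf 6) (.lf 14))))) (.lf 10)), 0, [14, 14, 19, 19, 7, 7, 19, 19], []⟩))))

/-- data -/
def dE9x17 : RT := (.nd (.nd (.nd (.lf ⟨[.ofNat 0, .ofNat 0, .ofNat 4864, .negSucc 2719, .ofNat 160], (.tr (.dx 0 (.lf 13)) (.tr (.lf 5) (.lf 14) (.tr (.lf 17) (.lf 6) (.lf 18))) (.lf 11)), 0, [0, 0, 11, 11], [0, 0, 11, 11]⟩)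
    (.lf ⟨[.ofNat 0, .ofNat 0, .ofNat 5824, .negSucc 607], (.tr (.lf 11) (.lf 5) (.tr (.dx 0 (.lf 13)) (.tr (.lf 17) (.lf 6) (.lf 18)) (.lf 14))), 0, [10, 10, 10, 10], [22, 22, 10, 10]⟩))
    (.nd (.lf ⟨[.ofNat 0, .negSucc 4415, .ofNat 800, .negSucc 783], (.tr (.lf 6) (.lf 9) (.tr (.dx 0 (.tw (.lf 5) (.lf 13))) (.tr (.lf 17) (.lf 10) (.lf 18)) (.lf 14))), 0, [8, 8, 8, 8, 8, 1, 8, 1], [20, 20, 8, 8]⟩)
    (.lf ⟨[.ofNat 1664, .negSucc 4351, .ofNat 3456, .ofNat 896], (.tr (.dx 0 (.tr (.lf 9) (.lf 13) (.tr (.lf 5) (.tw (.lf 14) (.lf 17)) (.lf 6)))) (.lf 18) (.lf 10)), 0, [2, 2, 2, 2, 0, 12, 0, 12], []⟩)))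
    (.nd (.nd (.lf ⟨[.ofNat 13312, .ofNat 27904, .negSucc 17391, .negSucc 14343], (.tr (.dx 0 (.tr (.lf 9) (.tr (.lf 5) (.tw (.lf 13) (.lf 17)) (.lf 6)) (.lf 14))) (.lf 18) (.lf 10)), 0, [2, 14, 2, 14, 19, 19, 19, 19], []⟩)
    (.lf ⟨[.negSucc 13311, .negSucc 27967, .ofNat 23120, .ofNat 9232], (.tr (.dx 0 (.tr (.lf 9) (.lf 5) (.tr (.lf 13) (.tw (.lf 6) (.lf 17)) (.lf 14)))) (.lf 18) (.lf 10)), 0, [2, 2, 2, 2, 19, 19, 19, 19], []⟩))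
    (.nd (.lf ⟨[.ofNat 19968, .ofNat 26976, .negSucc 32687, .negSucc 19919], (.tr (.dx 0 (.tw (.lf 5) (.tr (.lf 9) (.tr (.lf 13) (.lf 6) (.lf 14)) (.lf 17)))) (.lf 18) (.lf 10)), 0, [0, 0, 12, 12, 2, 2, 19, 19], []⟩)
    (.lf ⟨[.negSucc 9983, .negSucc 10031, .ofNat 11224, .ofNat 10824], (.tr (.dx 0 (.tr (.lf 17) (.lf 13) (.tr (.lf 5) (.tw (.lf 9) (.lf 14)) (.lf 6)))) (.lf 18) (.lf 10)), 0, [19, 19, 19, 19, 0, 0, 0, 0], []⟩))))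

/-- data -/
def dE9x18 : RT := (.nd (.nd (.nd (.lf ⟨[.ofNat 0, .negSucc 5823, .ofNat 9632, .ofNat 240], (.tr (.lf 6) (.dx 3 (.tr (.lf 17) (.lf 1) (.tr (.lf 5) (.tw (.lf 2) (.lf 18)) (.lf 9)))) (.lf 10)), 3, [7, 7, 11, 11, 4, 4, 8, 8], []⟩)
    (.lf ⟨[.ofNat 0, .ofNat 3456, .negSucc 1727], (.tr (.lf 6) (.dx 3 (.tr (.lf 5) (.tr (.lf 1) (.tw (.lf 9) (.lf 17)) (.lf 2)) (.lf 18))) (.lf 10)), 3, [4, 4, 4, 4, 11, 11, 11, 11], []⟩))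
    (.nd (.lf ⟨[.ofNat 0, .ofNat 1920, .ofNat 4736, .ofNat 320], (.tr (.dx 0 (.tr (.lf 5) (.lf 17) (.tr (.lf 13) (.lf 9) (.lf 14)))) (.lf 18) (.tw (.lf 6) (.lf 10))), 0, [23, 21, 23, 21, 23, 21, 23, 21], []⟩)
    (.lf ⟨[.ofNat 0, .ofNat 1968, .negSucc 8551, .ofNat 1556], (.tr (.lf 2) (.tr (.lf 9) (.dx 3 (.tw (.lf 1) (.lf 5))) (.tr (.lf 17) (.lf 10) (.lf 18))) (.lf 6)), 3, [2, 2, 2, 2, 9, 9, 9, 9], [2, 2, 9, 9]⟩)))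
    (.nd (.nd (.lf ⟨[.ofNat 0, .negSucc 6911, .ofNat 17792, .negSucc 9791], (.tr (.tw (.dx 0 (.tr (.lf 17) (.lf 13) (.tr (.lf 9) (.lf 5) (.lf 14)))) (.lf 6)) (.lf 18) (.lf 10)), 0, [23, 23, 2, 1023, 16, 16, 4, 4], []⟩)
    (.lf ⟨[.ofNat 0, .negSucc 1311, .ofNat 3576, .ofNat 1904], (.tr (.lf 6) (.tw (.dx 0 (.tw (.lf 17) (.tr (.lf 13) (.tw (.lf 5) (.lf 9)) (.lf 14)))) (.lf 18)) (.lf 10)), 0, [16, 16, 16, 16, 4, 4, 4, 4, 7, 7, 7, 7, 19, 19, 19, 19], []⟩))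
    (.nd (.lf ⟨[.ofNat 33280, .ofNat 27744, .negSucc 71615, .negSucc 15751], (.tr (.dx 0 (.tr (.lf 9) (.lf 17) (.tr (.lf 13) (.lf 5) (.lf 14)))) (.tw (.lf 6) (.lf 18)) (.lf 10)), 0, [14, 23, 14, 23, 23, 23, 23, 23], []⟩)
    (.lf ⟨[.ofNat 0, .ofNat 4288, .negSucc 671, .negSucc 671], (.tw (.dx 0 (.tr (.lf 13) (.tr (.lf 5) (.lf 9) (.tr (.lf 17) (.lf 6) (.lf 18))) (.lf 14))) (.lf 10)), 0, [7, 7, 7, 7, 7, 7, 7, 7], []⟩))))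

/-- data -/
def dE9x19 : RT := (.nd (.nd (.nd (.lf ⟨[.ofNat 0, .negSucc 8575, .ofNat 1472, .ofNat 1504], (.tw (.dx 0 (.tr (.lf 13) (.lf 5) (.tr (.lf 9) (.tr (.lf 17) (.lf 6) (.lf 18)) (.lf 14)))) (.lf 10)), 0, [7, 7, 19, 19, 1023, 1023, 7, 7], []⟩)
    (.lf ⟨[.negSucc 33279, .negSucc 27743, .ofNat 71744, .ofNat 15912], (.tr (.dx 0 (.tr (.lf 9) (.lf 17) (.tr (.lf 13) (.lf 5) (.lf 14)))) (.lf 6) (.tw (.lf 10) (.lf 18))), 0, [14, 14, 14, 14, 0, 23, 0, 23], []⟩))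
    (.nd (.lf ⟨[.negSucc 16639, .negSucc 13423, .ofNat 36928, .ofNat 7820], (.tr (.dx 3 (.tr (.lf 1) (.tw (.lf 5) (.lf 9)) (.lf 2))) (.tr (.lf 17) (.lf 10) (.lf 18)) (.lf 6)), 3, [21, 21, 21, 21, 21, 21, 21, 21], []⟩)
    (.lf ⟨[.negSucc 33279, .negSucc 27199, .ofNat 50704, .ofNat 22656], (.tr (.tw (.dx 0 (.tr (.lf 9) (.lf 17) (.tr (.lf 13) (.lf 5) (.lf 14)))) (.lf 18)) (.lf 6) (.lf 10)), 0, [23, 23, 23, 23, 11, 11, 23, 23], []⟩)))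
    (.nd (.nd (.lf ⟨[.ofNat 26624, .ofNat 9168, .negSucc 63519, .negSucc 20151], (.tr (.lf 6) (.tw (.dx 0 (.tr (.lf 5) (.lf 17) (.tr (.lf 13) (.lf 9) (.lf 14)))) (.lf 10)) (.lf 18)), 0, [16, 16, 4, 4, 20, 20, 8, 8], []⟩)
    (.lf ⟨[.negSucc 26623, .negSucc 8015, .ofNat 55696, .ofNat 18344], (.tr (.lf 6) (.dx 0 (.tr (.lf 5) (.lf 17) (.tr (.lf 13) (.lf 9) (.lf 14)))) (.tw (.lf 10) (.lf 18))), 0, [16, 16, 16, 16, 4, 4, 4, 4], []⟩))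
    (.nd (.lf ⟨[.ofNat 26624, .negSucc 15679, .negSucc 38575, .negSucc 8831], (.tr (.tw (.dx 0 (.tr (.lf 5) (.lf 17) (.tr (.lf 13) (.lf 9) (.lf 14)))) (.lf 6)) (.lf 18) (.lf 10)), 0, [12, 12, 23, 23, 16, 16, 4, 4], []⟩)
    (.lf ⟨[.ofNat 0, .ofNat 34960, .negSucc 23519, .negSucc 4991], (.tr (.lf 6) (.tw (.dx 0 (.tr (.lf 5) (.lf 17) (.tr (.lf 13) (.lf 9) (.lf 14)))) (.lf 18)) (.lf 10)), 0, [16, 16, 4, 4, 7, 7, 19, 19], []⟩))))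

/-- data -/
def dE9x20 : RT := (.nd (.nd (.nd (.lf ⟨[.ofNat 0, .negSucc 16351, .negSucc 5407, .negSucc 4607], (.tr (.dx 0 (.tr (.lf 5) (.tr (.lf 13) (.lf 9) (.lf 14)) (.lf 17))) (.tw (.lf 6) (.lf 18)) (.lf 10)), 0, [0, 1023, 0, 1023, 23, 23, 23, 23], []⟩)
    (.lf ⟨[.ofNat 0, .ofNat 2560, .negSucc 14527, .ofNat 2400], (.tr (.dx 0 (.tr (.lf 17) (.lf 13) (.tr (.lf 9) (.lf 5) (.lf 14)))) (.tw (.lf 6) (.lf 18)) (.lf 10)), 0, [23, 23, 23, 23, 2, 2, 1023, 23], []⟩))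
    (.nd (.lf ⟨[.ofNat 0, .ofNat 2016, .negSucc 8471, .ofNat 1184], (.tr (.dx 0 (.tr (.lf 5) (.lf 13) (.lf 9))) (.tr (.lf 10) (.tw (.lf 17) (.lf 18)) (.lf 14)) (.lf 6)), 0, [0, 0, 0, 0, 2, 2, 2, 2], [14, 14, 21, 21]⟩)
    (.lf ⟨[.ofNat 0, .negSucc 1007, .ofNat 4236, .negSucc 591], (.tw (.dx 0 (.tr (.lf 13) (.tr (.lf 17) (.lf 18) (.tr (.lf 5) (.lf 9) (.lf 6))) (.lf 14))) (.lf 10)), 0, [7, 7, 7, 7, 7, 7, 7, 7], []⟩)))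
    (.nd (.nd (.lf ⟨[.ofNat 0, .negSucc 2879, .ofNat 5008, .negSucc 1231], (.tr (.dx 0 (.tr (.lf 5) (.lf 9) (.lf 13))) (.tr (.lf 10) (.tw (.lf 17) (.lf 18)) (.lf 14)) (.lf 6)), 0, [0, 0, 0, 0, 2, 2, 21, 21], [14, 14, 21, 21]⟩)
    (.lf ⟨[.ofNat 0, .negSucc 735, .ofNat 1208, .ofNat 16], (.tr (.lf 6) (.tr (.dx 0 (.tr (.lf 5) (.lf 9) (.lf 13))) (.tw (.lf 17) (.lf 18)) (.lf 14)) (.lf 10)), 0, [4, 4, 4, 4, 7, 7, 7, 7], [16, 16, 19, 19]⟩))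
    (.nd (.lf ⟨[.ofNat 0, .negSucc 29007, .ofNat 11232, .ofNat 10152], (.tr (.tw (.dx 0 (.tr (.lf 5) (.tr (.lf 13) (.lf 9) (.lf 14)) (.lf 17))) (.lf 18)) (.lf 6) (.lf 10)), 0, [1023, 1023, 23, 23, 23, 23, 11, 11], []⟩)
    (.lf ⟨[.ofNat 0, .ofNat 0, .negSucc 2175], (.tr (.dx 0 (.tr (.lf 5) (.tr (.lf 13) (.lf 9) (.lf 14)) (.lf 17))) (.lf 18) (.tw (.lf 6) (.lf 10))), 0, [1023, 0, 1023, 0, 23, 21, 23, 21], []⟩))))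

/-- data -/
def dE9x21 : RT := (.nd (.nd (.nd (.lf ⟨[.ofNat 0, .negSucc 1519, .ofNat 2640, .negSucc 2011], (.tr (.dx 0 (.tw (.lf 17) (.tr (.lf 13) (.tw (.lf 5) (.lf 9)) (.lf 14)))) (.lf 18) (.tw (.lf 6) (.lf 10))), 0, [23, 21, 23, 21, 23, 21, 23, 21, 23, 21, 23, 21, 23, 21, 23, 21], []⟩)
    (.lf ⟨[.ofNat 0, .ofNat 15184, .negSucc 7615, .negSucc 7567], (.tr (.lf 6) (.tw (.dx 0 (.tr (.lf 9) (.tr (.lf 13) (.lf 5) (.lf 14)) (.lf 17))) (.lf 10)) (.lf 18)), 0, [4, 4, 16, 16, 8, 8, 20, 20], []⟩))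
    (.nd (.lf ⟨[.ofNat 0, .negSucc 11119, .ofNat 5040, .ofNat 7072], (.tr (.tw (.dx 0 (.tr (.lf 9) (.tr (.lf 13) (.lf 5) (.lf 14)) (.lf 17))) (.lf 6)) (.lf 10) (.lf 18)), 0, [2, 2, 12, 12, 4, 4, 16, 16], []⟩)
    (.lf ⟨[.ofNat 6656, .negSucc 6655, .negSucc 5455, .negSucc 9439], (.tr (.dx 0 (.tr (.lf 9) (.tr (.lf 13) (.lf 5) (.lf 14)) (.lf 17))) (.lf 6) (.tw (.lf 10) (.lf 18))), 0, [2, 2, 2, 2, 12, 23, 12, 23], []⟩)))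
    (.nd (.nd (.lf ⟨[.ofNat 0, .negSucc 7743, .ofNat 5600, .negSucc 303], (.tr (.lf 6) (.dx 0 (.tr (.lf 9) (.tr (.lf 13) (.lf 5) (.lf 14)) (.lf 17))) (.tw (.lf 10) (.lf 18))), 0, [4, 4, 4, 4, 16, 16, 16, 16], []⟩)
    (.lf ⟨[.ofNat 0, .ofNat 7744, .negSucc 5599, .ofNat 304], (.tr (.lf 6) (.tw (.dx 0 (.tr (.lf 5) (.tr (.lf 13) (.lf 9) (.lf 14)) (.lf 17))) (.lf 18)) (.lf 10)), 0, [4, 4, 16, 16, 19, 19, 7, 7], []⟩))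
    (.nd (.lf ⟨[.negSucc 33279, .negSucc 21439, .ofNat 65712, .ofNat 14832], (.tr (.dx 0 (.tw (.lf 5) (.tr (.lf 9) (.lf 17) (.tr (.lf 13) (.lf 6) (.lf 14))))) (.lf 10) (.lf 18)), 0, [12, 12, 0, 0, 14, 14, 0, 0], []⟩)
    (.lf ⟨[.ofNat 0, .negSucc 5407, .ofNat 8144, .ofNat 808], (.tr (.dx 0 (.tw (.lf 13) (.tr (.lf 5) (.tr (.lf 9) (.lf 17) (.lf 14)) (.lf 6)))) (.lf 10) (.lf 18)), 0, [0, 0, 0, 0, 12, 0, 12, 0], []⟩))))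

/-- data -/
def dE9x22 : RT := (.nd (.nd (.nd (.lf ⟨[.ofNat 0, .negSucc 3839, .ofNat 1360, .ofNat 1556], (.tr (.dx 3 (.tr (.lf 1) (.tr (.lf 5) (.lf 17) (.lf 9)) (.lf 2))) (.lf 18) (.tw (.lf 6) (.lf 10))), 3, [23, 21, 23, 21, 23, 21, 23, 21], []⟩)
    (.lf ⟨[.ofNat 0, .negSucc 4895, .negSucc 5455, .ofNat 2512], (.tr (.dx 0 (.tw (.lf 5) (.tr (.lf 13) (.tr (.lf 6) (.lf 9) (.lf 17)) (.lf 14)))) (.lf 10) (.lf 18)), 0, [0, 0, 0, 0, 0, 2, 0, 2], []⟩))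
    (.nd (.lf ⟨[.ofNat 9984, .ofNat 8496, .negSucc 4759, .negSucc 10503], (.tr (.dx 0 (.tr (.lf 5) (.tr (.lf 13) (.tw (.lf 6) (.lf 9)) (.lf 14)) (.lf 17))) (.lf 18) (.lf 10)), 0, [0, 0, 0, 0, 19, 19, 19, 19], []⟩)
    (.lf ⟨[.negSucc 9983, .negSucc 13487, .ofNat 19736, .ofNat 9096], (.tr (.dx 0 (.tw (.lf 17) (.tr (.lf 5) (.lf 9) (.tr (.lf 13) (.lf 6) (.lf 14))))) (.lf 18) (.lf 10)), 0, [12, 12, 19, 19, 0, 0, 19, 19], []⟩)))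
    (.nd (.nd (.lf ⟨[.ofNat 0, .negSucc 5247, .negSucc 703, .ofNat 160], (.tr (.dx 0 (.tw (.lf 17) (.tr (.lf 13) (.lf 9) (.tr (.lf 5) (.lf 14) (.lf 6))))) (.lf 18) (.lf 10)), 0, [19, 19, 19, 19, 2, 2, 0, 0], []⟩)
    (.lf ⟨[.ofNat 0, .ofNat 2912, .negSucc 2839, .ofNat 3680], (.tr (.dx 0 (.tr (.lf 9) (.tr (.lf 13) (.lf 5) (.tw (.lf 17) (.lf 18))) (.lf 14))) (.lf 6) (.lf 10)), 0, [11, 11, 11, 11, 23, 23, 11, 11], []⟩))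
    (.nd (.lf ⟨[.ofNat 0, .negSucc 6911, .ofNat 3456], (.tr (.dx 0 (.tw (.lf 13) (.tr (.lf 5) (.lf 14) (.tr (.lf 17) (.lf 9) (.lf 18))))) (.lf 6) (.lf 10)), 0, [23, 23, 11, 11, 11, 11, 11, 11], []⟩)
    (.lf ⟨[.ofNat 0, .negSucc 5503, .negSucc 5567, .negSucc 391], (.tr (.dx 0 (.tr (.lf 13) (.lf 17) (.tr (.lf 5) (.lf 9) (.lf 6)))) (.tw (.lf 14) (.lf 18)) (.lf 10)), 0, [19, 7, 19, 7, 12, 12, 12, 12], []⟩))))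

/-- data -/
def dE9x23 : RT := (.nd (.nd (.nd (.lf ⟨[.ofNat 0, .negSucc 5919, .negSucc 4527, .negSucc 431], (.tr (.dx 0 (.tr (.lf 17) (.lf 13) (.tr (.lf 5) (.lf 9) (.lf 6)))) (.lf 14) (.tw (.lf 10) (.lf 18))), 0, [12, 19, 12, 19, 0, 0, 0, 0], []⟩)
    (.lf ⟨[.ofNat 0, .negSucc 8239, .ofNat 12256, .negSucc 2047], (.tr (.tw (.dx 0 (.tr (.lf 13) (.lf 17) (.tr (.lf 5) (.lf 9) (.lf 6)))) (.lf 14)) (.lf 18) (.lf 10)), 0, [19, 19, 12, 12, 19, 19, 19, 19], []⟩))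
    (.nd (.lf ⟨[.ofNat 0, .negSucc 1775, .ofNat 10112, .negSucc 575], (.tr (.tw (.lf 10) (.lf 14)) (.dx 0 (.tr (.lf 17) (.lf 13) (.tr (.lf 5) (.lf 9) (.lf 6)))) (.lf 18)), 0, [6, 6, 6, 6, 13, 13, 6, 6], []⟩)
    (.lf ⟨[.ofNat 0, .negSucc 527, .ofNat 6256, .ofNat 424], (.tr (.lf 14) (.tw (.dx 0 (.tr (.lf 13) (.lf 17) (.tr (.lf 5) (.lf 9) (.lf 6)))) (.lf 10)) (.lf 18)), 0, [19, 19, 0, 0, 13, 13, 6, 6], []⟩)))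
    (.nd (.nd (.lf ⟨[.ofNat 0, .ofNat 2144, .negSucc 1583, .ofNat 40], (.tw (.dx 0 (.tr (.lf 13) (.tw (.lf 5) (.tr (.lf 17) (.tw (.lf 6) (.lf 9)) (.lf 18))) (.lf 14))) (.lf 10)), 0, [7, 7, 7, 7, 7, 7, 7, 7, 7, 7, 7, 7, 7, 7, 7, 7], []⟩)
    (.lf ⟨[.ofNat 0, .ofNat 5248, .negSucc 13471, .ofNat 2032], (.tr (.dx 0 (.tr (.lf 5) (.tw (.lf 13) (.lf 17)) (.lf 9))) (.lf 14) (.tr (.lf 6) (.lf 18) (.lf 10))), 0, [0, 0, 12, 12, 2, 2, 14, 14], [1023, 1017]⟩))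
    (.nd (.lf ⟨[.ofNat 0, .ofNat 8288, .ofNat 1376, .ofNat 4256], (.tr (.tw (.dx 0 (.tr (.lf 13) (.tr (.lf 5) (.lf 9) (.lf 17)) (.lf 14))) (.lf 6)) (.lf 18) (.lf 10)), 0, [1023, 23, 1023, 23, 4, 4, 4, 4], []⟩)
    (.lf ⟨[.ofNat 0, .negSucc 3391, .ofNat 10688, .negSucc 1519], (.tr (.dx 0 (.tr (.lf 13) (.tr (.lf 5) (.lf 9) (.lf 17)) (.lf 14))) (.lf 6) (.tw (.lf 10) (.lf 18))), 0, [0, 1023, 2, 23, 0, 1023, 2, 23], []⟩))))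

/-- data -/
def dE9x24 : RT := (.nd (.nd (.nd (.lf ⟨[.ofNat 0, .negSucc 6015, .negSucc 4735, .ofNat 4184], (.tr (.tw (.dx 0 (.tr (.lf 13) (.tr (.lf 5) (.lf 9) (.lf 17)) (.lf 14))) (.lf 6)) (.lf 10) (.lf 18)), 0, [0, 2, 0, 2, 4, 4, 4, 4], []⟩)
    (.lf ⟨[.ofNat 0, .ofNat 2496, .ofNat 4448, .negSucc 4495], (.tr (.dx 0 (.tr (.lf 13) (.tr (.lf 5) (.lf 9) (.lf 17)) (.lf 14))) (.tw (.lf 6) (.lf 18)) (.lf 10)), 0, [1023, 23, 23, 23, 1023, 23, 23, 23], []⟩))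
    (.nd (.lf ⟨[.ofNat 0, .ofNat 5248, .ofNat 7744, .negSucc 4415], (.tr (.tw (.dx 0 (.tr (.lf 5) (.tr (.lf 13) (.lf 9) (.lf 17)) (.lf 6))) (.lf 14)) (.lf 18) (.lf 10)), 0, [0, 12, 0, 12, 19, 19, 19, 19], []⟩)
    (.lf ⟨[.ofNat 0, .ofNat 544, .ofNat 6416, .ofNat 17240], (.tr (.dx 0 (.tr (.lf 5) (.lf 13) (.tr (.lf 6) (.lf 17) (.lf 9)))) (.tw (.lf 14) (.lf 18)) (.lf 10)), 0, [0, 0, 0, 0, 12, 12, 14, 14], []⟩)))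
    (.nd (.nd (.lf ⟨[.ofNat 0, .ofNat 2624, .ofNat 2080, .negSucc 4239], (.tr (.lf 10) (.tw (.dx 0 (.tr (.lf 5) (.tr (.lf 13) (.lf 9) (.lf 17)) (.lf 6))) (.lf 14)) (.lf 18)), 0, [6, 18, 6, 18, 6, 6, 6, 6], []⟩)
    (.lf ⟨[.ofNat 0, .negSucc 8703, .ofNat 3056, .ofNat 3328], (.tr (.tw (.dx 0 (.tr (.lf 5) (.tr (.lf 13) (.lf 9) (.lf 17)) (.lf 6))) (.lf 10)) (.lf 14) (.lf 18)), 0, [0, 12, 0, 12, 6, 18, 6, 18], []⟩))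
    (.nd (.lf ⟨[.ofNat 0, .negSucc 41343, .negSucc 11615, .ofNat 5504], (.tr (.dx 0 (.tr (.lf 5) (.lf 13) (.tr (.lf 6) (.lf 17) (.lf 9)))) (.lf 10) (.tw (.lf 14) (.lf 18))), 0, [0, 0, 0, 0, 12, 12, 14, 14], []⟩)
    (.lf ⟨[.ofNat 0, .negSucc 20671, .negSucc 5807, .ofNat 2752], (.tr (.tw (.dx 0 (.tr (.lf 9) (.lf 13) (.tr (.lf 5) (.lf 17) (.lf 6)))) (.lf 10)) (.lf 14) (.lf 18)), 0, [2, 2, 12, 12, 6, 6, 18, 18], []⟩))))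

/-- data -/
def dE9 : RT := (.nd (.nd (.nd (.nd dE9x0 (.nd dE9x1 dE9x2)) (.nd dE9x3 (.nd dE9x4 dE9x5))) (.nd (.nd dE9x6 (.nd dE9x7 dE9x8)) (.nd dE9x9 (.nd dE9x10 dE9x11)))) (.nd (.nd (.nd dE9x12 (.nd dE9x13 dE9x14)) (.nd dE9x15 (.nd dE9x16 dE9x17))) (.nd (.nd dE9x18 (.nd dE9x19 dE9x20)) (.nd (.nd dE9x21 dE9x22) (.nd dE9x23 dE9x24)))))

/-- data -/
def lE9x0 : List (ℕ × List ℤ) := [(43307, [.ofNat 0, .ofNat 0, .negSucc 12799, .negSucc 18047, .negSucc 255]),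
  (43363, [.ofNat 0, .ofNat 0, .negSucc 38527, .ofNat 36992, .negSucc 11391]),
  (342181, [.ofNat 0, .ofNat 0, .negSucc 17663, .ofNat 14848, .negSucc 4351]),
  (346461, [.ofNat 0, .ofNat 0, .negSucc 6399, .negSucc 9023, .negSucc 127]),
  (346795, [.ofNat 0, .negSucc 53247, .negSucc 145919, .ofNat 31232, .ofNat 74880, .negSucc 1279]),
  (346909, [.ofNat 0, .ofNat 0, .negSucc 3327, .ofNat 9728, .negSucc 639]),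
  (403819, [.ofNat 0, .ofNat 53248, .negSucc 41407, .ofNat 20224, .ofNat 6912]),
  (404267, [.ofNat 0, .ofNat 0, .ofNat 7968, .negSucc 24799, .negSucc 1727, .negSucc 127]),
  (2443947, [.ofNat 0, .ofNat 0, .ofNat 3328, .negSucc 8319, .ofNat 320]),
  (2500947, [.ofNat 0, .ofNat 0, .negSucc 3327, .ofNat 8320, .negSucc 319]),
  (19999461, [.ofNat 0, .ofNat 0, .negSucc 1663, .ofNat 2784, .ofNat 128]),
  (19999517, [.ofNat 0, .ofNat 0, .negSucc 1663, .ofNat 2784, .ofNat 128]),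
  (21375787, [.ofNat 0, .ofNat 0, .ofNat 9728, .ofNat 5792, .ofNat 128]),
  (21387610, [.ofNat 0, .ofNat 0, .negSucc 7295, .negSucc 5791, .negSucc 127]),
  (21904044, [.ofNat 0, .ofNat 0, .ofNat 11648, .negSucc 1215]),
  (21911370, [.ofNat 0, .ofNat 0, .negSucc 767, .ofNat 704]),
  (21911658, [.ofNat 0, .ofNat 0, .negSucc 7167, .negSucc 5631, .negSucc 127]),
  (21911882, [.ofNat 0, .ofNat 0, .ofNat 7296, .ofNat 5792, .ofNat 128]),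
  (22063845, [.ofNat 0, .ofNat 0, .negSucc 4479, .negSucc 1503]),
  (22063901, [.ofNat 0, .ofNat 0, .negSucc 4479, .negSucc 1503]),
  (22075738, [.ofNat 0, .ofNat 0, .ofNat 7168, .ofNat 5632, .ofNat 128]),
  (22141258, [.ofNat 0, .ofNat 0, .negSucc 4863]),
  (22194915, [.ofNat 0, .ofNat 0, .ofNat 21376, .negSucc 6655, .ofNat 320]),
  (25512619, [.ofNat 0, .ofNat 0, .ofNat 9728, .negSucc 5439, .ofNat 320]),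
  (25733931, [.ofNat 0, .ofNat 0, .negSucc 4735, .negSucc 5631, .negSucc 127]),
  (25762533, [.ofNat 0, .ofNat 0, .ofNat 384, .negSucc 1503]),
  (25762589, [.ofNat 0, .ofNat 0, .ofNat 384, .negSucc 1503]),
  (170773269, [.ofNat 0, .negSucc 1663, .ofNat 128, .ofNat 608]),
  (170797419, [.ofNat 0, .ofNat 1472, .negSucc 2415, .negSucc 31]),
  (170797923, [.ofNat 0, .negSucc 1471, .ofNat 2416, .ofNat 32]),
  (170805931, [.ofNat 0, .negSucc 1471, .ofNat 2416, .ofNat 32]),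
  (170809501, [.ofNat 0, .negSucc 2591, .ofNat 6464, .negSucc 7391]),
  (170810138, [.ofNat 0, .negSucc 8063, .ofNat 1696, .negSucc 63]),
  (171027243, [.ofNat 0, .negSucc 10479, .negSucc 623, .negSucc 2271]),
  (171035307, [.ofNat 0, .ofNat 15488, .negSucc 11199, .ofNat 608]),
  (171035370, [.ofNat 0, .ofNat 17152, .negSucc 2943, .negSucc 3007]),
  (171038373, [.ofNat 0, .negSucc 41343, .negSucc 11615, .ofNat 5504]),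
  (171039059, [.ofNat 0, .ofNat 3936, .ofNat 5104, .negSucc 3983]),
  (171070685, [.ofNat 0, .negSucc 21727, .ofNat 49344, .negSucc 15039]),
  (171095850, [.ofNat 0, .negSucc 2431, .ofNat 4384, .ofNat 128]),
  (171096403, [.ofNat 0, .negSucc 831, .ofNat 4384, .negSucc 847]),
  (171096732, [.ofNat 0, .negSucc 2303, .ofNat 15648, .ofNat 3616]),
  (171096739, [.ofNat 0, .negSucc 22527, .ofNat 12800, .negSucc 9039]),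
  (171099987, [.ofNat 0, .negSucc 4767, .negSucc 719, .ofNat 3136]),
  (171103452, [.ofNat 0, .ofNat 3328, .negSucc 255, .negSucc 1215]),
  (172804956, [.ofNat 0, .ofNat 6176, .ofNat 3328, .negSucc 463]),
  (172903005, [.ofNat 0, .negSucc 6175, .negSucc 3327, .ofNat 464]),
  (173196893, [.ofNat 0, .ofNat 1664, .negSucc 127, .negSucc 607]),
  (173197005, [.ofNat 0, .ofNat 1568, .negSucc 991, .negSucc 7311]),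
  (174467435, [.negSucc 26623, .ofNat 6816, .negSucc 30255, .ofNat 7968]),
  (174467939, [.ofNat 0, .ofNat 4352, .negSucc 3263, .ofNat 7392]),
  (174471530, [.negSucc 26623, .ofNat 22240, .negSucc 19199, .ofNat 7808]),
  (174471852, [.ofNat 0, .negSucc 8831, .ofNat 1600, .negSucc 1567]),
  (174474603, [.ofNat 0, .negSucc 5823, .ofNat 5680, .negSucc 7359]),
  (174475947, [.ofNat 0, .negSucc 8575, .ofNat 4192, .ofNat 1408]),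
  (174478684, [.ofNat 13312, .ofNat 36064, .ofNat 25632, .negSucc 5007]),
  (174479594, [.ofNat 0, .ofNat 5648, .negSucc 6383, .ofNat 1504]),
  (174480098, [.ofNat 0, .negSucc 4351, .ofNat 3264, .negSucc 7391]),
  (174692716, [.ofNat 0, .ofNat 4096, .ofNat 8640, .negSucc 1023]),
  (174725469, [.ofNat 0, .negSucc 27647, .ofNat 7232, .ofNat 5168]),
  (174725931, [.ofNat 0, .negSucc 12735, .ofNat 3584, .negSucc 2015]),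
  (174738125, [.ofNat 0, .ofNat 28032, .negSucc 9183, .negSucc 2751]),
  (174740253, [.ofNat 0, .negSucc 11839, .negSucc 9055, .negSucc 863]),
  (174740267, [.ofNat 0, .negSucc 1663, .ofNat 6464, .negSucc 927]),
  (174740323, [.ofNat 0, .ofNat 13664, .negSucc 6463, .ofNat 4880]),
  (174741611, [.ofNat 0, .negSucc 1663, .ofNat 6464, .negSucc 927]),
  (174742283, [.ofNat 0, .ofNat 4096, .ofNat 8640, .negSucc 1023]),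
  (175003789, [.ofNat 0, .negSucc 3327, .ofNat 9728, .negSucc 639]),
  (175004300, [.ofNat 0, .negSucc 959, .negSucc 5535, .negSucc 239]),
  (175156011, [.ofNat 0, .negSucc 9631, .ofNat 8608, .negSucc 2847]),
  (175159980, [.ofNat 0, .negSucc 8831, .ofNat 1600, .negSucc 1567]),
  (175160162, [.ofNat 0, .negSucc 5759, .ofNat 10016, .negSucc 2463]),
  (175164061, [.ofNat 0, .negSucc 7359, .ofNat 6048, .negSucc 1599]),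
  (175164075, [.ofNat 0, .ofNat 13824, .negSucc 6911]),
  (175166749, [.ofNat 0, .negSucc 7679, .negSucc 21919, .negSucc 14015]),
  (175167141, [.ofNat 0, .negSucc 12159, .ofNat 10272, .negSucc 1823]),
  (175167148, [.ofNat 0, .ofNat 12160, .negSucc 10271, .ofNat 1824]),
  (175167834, [.ofNat 0, .ofNat 1152, .ofNat 30784, .negSucc 8351]),
  (175184739, [.ofNat 0, .negSucc 1727, .negSucc 6927, .negSucc 95]),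
  (175196765, [.negSucc 13311, .negSucc 36063, .negSucc 25631, .ofNat 5008]),
  (175196779, [.ofNat 0, .negSucc 6911, .ofNat 3456]),
  (175199005, [.ofNat 0, .negSucc 7679, .negSucc 21919, .negSucc 14015]),
  (175199075, [.ofNat 0, .ofNat 90208, .negSucc 14431, .negSucc 20463]),
  (175200587, [.ofNat 0, .ofNat 6304, .negSucc 4175, .ofNat 5760]),
  (175231660, [.ofNat 0, .ofNat 41344, .ofNat 11616, .negSucc 5503]),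
  (175233130, [.negSucc 26623, .negSucc 55935, .ofNat 46240, .ofNat 18464]),
  (175233676, [.ofNat 0, .negSucc 3199, .negSucc 4511, .negSucc 63]),
  (175254347, [.ofNat 0, .ofNat 5824, .negSucc 5679, .ofNat 7360]),
  (175264602, [.ofNat 0, .negSucc 3199, .negSucc 4511, .negSucc 63]),
  (175282844, [.ofNat 0, .ofNat 27648, .negSucc 7231, .negSucc 5167]),
  (175282851, [.ofNat 0, .ofNat 20288, .ofNat 32608, .negSucc 10479]),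
  (175282963, [.ofNat 0, .negSucc 13823, .ofNat 6912]),
  (175286876, [.ofNat 66560, .ofNat 53696, .negSucc 147711, .negSucc 31279]),
  (175290474, [.ofNat 0, .negSucc 127, .ofNat 11456, .negSucc 10223]),
  (175290978, [.ofNat 0, .ofNat 4416, .negSucc 3775, .ofNat 8976]),
  (175291020, [.ofNat 0, .negSucc 2303, .ofNat 15648, .ofNat 3616]),
  (175293141, [.ofNat 0, .negSucc 959, .negSucc 6303, .ofNat 624]),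
  (175293162, [.ofNat 0, .ofNat 5648, .negSucc 6383, .ofNat 1504]),
  (175293267, [.ofNat 0, .negSucc 7727, .negSucc 1167, .negSucc 1423]),
  (175293274, [.ofNat 0, .negSucc 1151, .negSucc 30783, .ofNat 8352])]

/-- data -/
def lE9x1 : List (ℕ × List ℤ) := [(175293533, [.ofNat 0, .ofNat 0, .ofNat 4736, .negSucc 927]),
  (175293645, [.ofNat 0, .ofNat 1568, .negSucc 991, .negSucc 7311]),
  (175293771, [.ofNat 0, .ofNat 1664, .negSucc 127, .negSucc 607]),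
  (175297187, [.ofNat 0, .negSucc 1727, .negSucc 6927, .negSucc 95]),
  (175297250, [.ofNat 26624, .negSucc 34399, .ofNat 3200, .negSucc 24639]),
  (175297740, [.ofNat 0, .negSucc 28031, .ofNat 9184, .ofNat 2752]),
  (175298762, [.ofNat 0, .negSucc 8063, .ofNat 1696, .negSucc 63]),
  (176532323, [.ofNat 0, .negSucc 13695, .negSucc 13919, .ofNat 11072]),
  (176540331, [.ofNat 0, .negSucc 4287, .negSucc 2111, .ofNat 4048]),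
  (176540394, [.ofNat 26624, .ofNat 50304, .negSucc 52991, .negSucc 32159]),
  (176543901, [.ofNat 0, .negSucc 12031, .negSucc 9471, .ofNat 8368]),
  (176543915, [.ofNat 0, .ofNat 16576, .ofNat 2752, .ofNat 8512]),
  (176544083, [.ofNat 0, .ofNat 1664, .negSucc 4303, .negSucc 2303]),
  (176576171, [.ofNat 0, .ofNat 69920, .negSucc 47039, .negSucc 9983]),
  (176601427, [.ofNat 0, .ofNat 7424, .ofNat 13056, .ofNat 960]),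
  (176601875, [.ofNat 0, .ofNat 3840, .ofNat 9472, .ofNat 640]),
  (176601882, [.ofNat 26624, .ofNat 53632, .negSucc 35391, .negSucc 16895]),
  (176802411, [.ofNat 19968, .ofNat 6496, .negSucc 10927, .negSucc 20687]),
  (176805645, [.ofNat 0, .negSucc 16511, .negSucc 30111, .negSucc 14207]),
  (176805981, [.ofNat 0, .negSucc 9791, .negSucc 10911, .ofNat 5024]),
  (176861925, [.ofNat 0, .negSucc 4991, .ofNat 18592, .ofNat 7264]),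
  (176861995, [.ofNat 0, .negSucc 2687, .negSucc 24831, .ofNat 3328]),
  (176862051, [.ofNat 0, .ofNat 544, .ofNat 6416, .ofNat 17240]),
  (176863325, [.negSucc 13311, .negSucc 83583, .ofNat 14432, .ofNat 21680]),
  (176866909, [.ofNat 0, .ofNat 29088, .negSucc 23055, .negSucc 4759]),
  (176991019, [.ofNat 0, .ofNat 0, .ofNat 1280]),
  (176995114, [.ofNat 0, .ofNat 0, .ofNat 1280]),
  (176999083, [.ofNat 0, .negSucc 2303, .ofNat 12448, .negSucc 607]),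
  (176999251, [.ofNat 0, .ofNat 16256, .negSucc 607, .negSucc 8671]),
  (176999258, [.ofNat 0, .negSucc 1791, .negSucc 11263, .negSucc 4991]),
  (177001827, [.ofNat 0, .ofNat 0, .ofNat 4352]),
  (177002261, [.ofNat 0, .negSucc 101311, .negSucc 4799, .ofNat 10048]),
  (177002338, [.ofNat 0, .ofNat 0, .ofNat 256, .ofNat 320]),
  (177003290, [.ofNat 26624, .negSucc 17311, .ofNat 27856, .negSucc 35999]),
  (177019691, [.ofNat 0, .ofNat 15696, .negSucc 3135, .ofNat 6576]),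
  (177027405, [.ofNat 0, .ofNat 3328, .negSucc 2431, .negSucc 319]),
  (177027853, [.ofNat 0, .negSucc 32831, .negSucc 1567, .negSucc 6159]),
  (177027916, [.ofNat 0, .negSucc 3583, .ofNat 1376, .negSucc 223]),
  (177031787, [.ofNat 0, .negSucc 6911, .ofNat 3456]),
  (177034083, [.ofNat 0, .ofNat 90720, .negSucc 7295, .negSucc 11087]),
  (177035371, [.ofNat 0, .negSucc 8319, .ofNat 18368, .negSucc 927]),
  (177035595, [.ofNat 0, .ofNat 7968, .negSucc 4303, .ofNat 5152]),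
  (177052437, [.ofNat 0, .negSucc 5247, .ofNat 128]),
  (177099421, [.ofNat 0, .ofNat 2304, .negSucc 15647, .negSucc 3615]),
  (177099435, [.ofNat 0, .negSucc 6655, .negSucc 19647, .ofNat 5472]),
  (177099477, [.ofNat 13312, .negSucc 35551, .negSucc 831, .negSucc 4735]),
  (177099498, [.ofNat 13312, .negSucc 13311, .negSucc 10911, .negSucc 18879]),
  (177099610, [.ofNat 0, .ofNat 0, .negSucc 4351]),
  (177099883, [.ofNat 0, .ofNat 6080, .negSucc 10559, .ofNat 8048]),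
  (177100394, [.ofNat 16640, .negSucc 2815, .negSucc 3903, .negSucc 1503]),
  (177100429, [.ofNat 0, .ofNat 2304, .negSucc 15647, .negSucc 3615]),
  (177116515, [.ofNat 0, .ofNat 6080, .negSucc 10559, .ofNat 8048]),
  (177116949, [.ofNat 0, .negSucc 101311, .negSucc 4799, .ofNat 10048]),
  (177117026, [.ofNat 0, .ofNat 8576, .negSucc 6335, .ofNat 160]),
  (177117523, [.ofNat 0, .ofNat 7424, .ofNat 13056, .ofNat 960]),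
  (177119973, [.ofNat 0, .negSucc 17407, .ofNat 6112, .ofNat 6656]),
  (177119980, [.ofNat 0, .ofNat 17408, .negSucc 6111, .negSucc 6655]),
  (177120043, [.ofNat 0, .ofNat 5504, .ofNat 6592, .ofNat 160]),
  (177120099, [.ofNat 0, .negSucc 6975, .negSucc 11519, .ofNat 14480]),
  (177122059, [.ofNat 0, .negSucc 4927, .ofNat 32352, .negSucc 14447]),
  (177124012, [.ofNat 0, .ofNat 34080, .negSucc 41647, .negSucc 12023]),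
  (177124138, [.ofNat 0, .negSucc 543, .negSucc 6415, .negSucc 17239]),
  (177124180, [.negSucc 13311, .negSucc 83583, .ofNat 14432, .ofNat 21680]),
  (177128107, [.ofNat 0, .negSucc 4991, .negSucc 8895, .ofNat 8992]),
  (177129066, [.ofNat 3328, .negSucc 8703, .ofNat 6912, .ofNat 1792]),
  (177329805, [.ofNat 0, .ofNat 3200, .ofNat 4512, .ofNat 64]),
  (177378525, [.ofNat 0, .ofNat 960, .ofNat 5536, .ofNat 240]),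
  (177378987, [.ofNat 0, .ofNat 21120, .ofNat 2784, .negSucc 5119]),
  (177379029, [.ofNat 0, .ofNat 6176, .ofNat 3328, .negSucc 463]),
  (177386155, [.ofNat 0, .ofNat 5760, .negSucc 10015, .ofNat 2464]),
  (177387149, [.ofNat 0, .ofNat 960, .ofNat 5536, .ofNat 240]),
  (177518357, [.ofNat 0, .negSucc 5247, .ofNat 128]),
  (177519267, [.ofNat 0, .ofNat 5248, .negSucc 14303, .negSucc 7615]),
  (177519330, [.ofNat 0, .negSucc 2687, .negSucc 24831, .ofNat 3328]),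
  (177526428, [.ofNat 0, .ofNat 7360, .negSucc 6047, .ofNat 1600]),
  (177551467, [.ofNat 0, .ofNat 3840, .ofNat 9472, .ofNat 640]),
  (177551971, [.ofNat 0, .negSucc 2175, .negSucc 12351, .negSucc 1119]),
  (177555051, [.ofNat 3328, .negSucc 8703, .ofNat 6912, .ofNat 1792]),
  (177559139, [.negSucc 16639, .ofNat 17600, .ofNat 56224, .ofNat 4720]),
  (177576093, [.ofNat 0, .ofNat 3328, .negSucc 14911, .ofNat 2144]),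
  (177576107, [.ofNat 0, .ofNat 27072, .negSucc 24191, .ofNat 12576]),
  (177576170, [.ofNat 0, .ofNat 10496, .negSucc 26943, .ofNat 4064]),
  (177576611, [.ofNat 0, .ofNat 1664, .negSucc 5151, .negSucc 1887]),
  (177576674, [.ofNat 0, .negSucc 1919, .ofNat 20608, .negSucc 3903]),
  (177580125, [.ofNat 0, .negSucc 5247, .negSucc 63, .ofNat 416]),
  (177580643, [.ofNat 0, .ofNat 9984, .negSucc 21247, .ofNat 448]),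
  (177590947, [.negSucc 53247, .ofNat 15872, .ofNat 88352, .ofNat 17056]),
  (177590996, [.ofNat 66560, .ofNat 55488, .negSucc 143487, .negSucc 31823]),
  (177591892, [.ofNat 66560, .ofNat 42880, .negSucc 131423, .negSucc 29663]),
  (177608363, [.ofNat 0, .ofNat 2320, .ofNat 2080, .ofNat 3648]),
  (177615517, [.ofNat 0, .negSucc 2591, .ofNat 6464, .negSucc 7391]),
  (177615573, [.ofNat 0, .negSucc 1663, .ofNat 4864, .negSucc 319]),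
  (177615965, [.ofNat 0, .ofNat 1664, .negSucc 127, .negSucc 607]),
  (177616525, [.ofNat 0, .negSucc 3327, .ofNat 9728, .negSucc 639]),
  (177640668, [.ofNat 0, .ofNat 5376, .negSucc 50831, .ofNat 14192]),
  (177641123, [.ofNat 0, .negSucc 5119, .negSucc 18111, .ofNat 9664]),
  (177648354, [.ofNat 0, .negSucc 4031, .ofNat 16944, .negSucc 2367]),
  (204068195, [.ofNat 0, .ofNat 6912, .negSucc 3455]),
  (204125539, [.ofNat 0, .negSucc 4735, .ofNat 15808, .ofNat 480]),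
  (204646059, [.ofNat 0, .ofNat 16704, .negSucc 4447, .negSucc 3455])]

/-- data -/
def lE9x2 : List (ℕ × List ℤ) := [(204813667, [.ofNat 0, .negSucc 6911, .ofNat 2048, .ofNat 448]),
  (205891947, [.ofNat 0, .negSucc 2943, .ofNat 4832, .ofNat 64]),
  (205892395, [.negSucc 13311, .negSucc 20079, .negSucc 99183, .negSucc 2431]),
  (205900522, [.ofNat 0, .ofNat 15872, .ofNat 30944, .negSucc 3071]),
  (205903658, [.ofNat 26624, .ofNat 55936, .negSucc 46239, .negSucc 18463]),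
  (205904106, [.ofNat 0, .ofNat 128, .negSucc 11455, .ofNat 10224]),
  (205929173, [.ofNat 0, .ofNat 13248, .ofNat 33120, .negSucc 10287]),
  (205960428, [.ofNat 0, .ofNat 1664, .negSucc 6463, .ofNat 928]),
  (206166123, [.ofNat 0, .ofNat 6016, .ofNat 1952]),
  (206350699, [.ofNat 0, .ofNat 9088, .ofNat 5152, .ofNat 192]),
  (206351147, [.negSucc 13311, .negSucc 35359, .negSucc 84191, .negSucc 6783]),
  (206351203, [.ofNat 0, .ofNat 19712, .ofNat 9536, .negSucc 191]),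
  (206354773, [.ofNat 0, .ofNat 12928, .negSucc 4287, .ofNat 2944]),
  (206355242, [.ofNat 0, .ofNat 6448, .ofNat 7872, .negSucc 3631]),
  (206359211, [.ofNat 0, .ofNat 0, .negSucc 255, .negSucc 319]),
  (206361955, [.negSucc 13311, .ofNat 13312, .ofNat 10912, .ofNat 18880]),
  (206391901, [.ofNat 0, .ofNat 3456, .ofNat 64, .negSucc 383]),
  (206392013, [.ofNat 0, .ofNat 10496, .negSucc 5375, .ofNat 1856]),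
  (206394211, [.ofNat 0, .ofNat 32704, .ofNat 10816, .ofNat 9216]),
  (206395499, [.ofNat 0, .ofNat 60192, .negSucc 8767, .ofNat 22192]),
  (206428266, [.ofNat 0, .ofNat 1152, .ofNat 768]),
  (206445269, [.ofNat 0, .negSucc 5247, .negSucc 11327, .ofNat 352]),
  (206453354, [.ofNat 0, .negSucc 10495, .negSucc 1407, .ofNat 320]),
  (206459626, [.ofNat 0, .ofNat 9984, .negSucc 21247, .ofNat 448]),
  (206477098, [.ofNat 0, .ofNat 8320, .negSucc 18367, .ofNat 928]),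
  (206477154, [.ofNat 0, .negSucc 1663, .ofNat 2880, .negSucc 159]),
  (206477525, [.ofNat 0, .negSucc 5247, .negSucc 11327, .ofNat 352]),
  (206480171, [.ofNat 0, .negSucc 14783, .negSucc 33023, .ofNat 3520]),
  (206480227, [.ofNat 0, .ofNat 4352, .negSucc 3263, .ofNat 7392]),
  (206482019, [.ofNat 19968, .ofNat 26976, .negSucc 39471, .negSucc 18191]),
  (206484322, [.negSucc 19967, .negSucc 6495, .ofNat 10928, .ofNat 20688]),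
  (206485589, [.ofNat 0, .negSucc 16511, .negSucc 29087, .negSucc 14207]),
  (206488221, [.ofNat 0, .negSucc 18815, .ofNat 11904, .ofNat 5328]),
  (206488669, [.ofNat 0, .negSucc 20607, .ofNat 5376, .ofNat 6640]),
  (206674666, [.ofNat 19968, .ofNat 26976, .negSucc 39471, .negSucc 18191]),
  (206746269, [.ofNat 0, .negSucc 1791, .negSucc 4223, .ofNat 544]),
  (206878506, [.ofNat 0, .negSucc 1151, .negSucc 767]),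
  (206879458, [.ofNat 0, .ofNat 10496, .ofNat 1408, .negSucc 319]),
  (206911581, [.ofNat 0, .negSucc 29759, .negSucc 62207, .negSucc 3919]),
  (206911693, [.ofNat 0, .negSucc 16511, .negSucc 30111, .negSucc 14207]),
  (206935850, [.ofNat 0, .negSucc 60191, .ofNat 8768, .negSucc 22191]),
  (206935906, [.ofNat 0, .negSucc 8575, .ofNat 6336, .negSucc 159]),
  (206943018, [.ofNat 0, .negSucc 6015, .negSucc 1951]),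
  (206975701, [.ofNat 0, .ofNat 12928, .negSucc 4287, .ofNat 2944]),
  (210348749, [.ofNat 0, .ofNat 3584, .negSucc 1375, .ofNat 224]),
  (211101277, [.ofNat 0, .negSucc 16351, .negSucc 1487, .negSucc 847]),
  (212440874, [.ofNat 0, .ofNat 27488, .negSucc 13375, .ofNat 4880]),
  (212440930, [.ofNat 0, .ofNat 832, .negSucc 2079, .ofNat 80]),
  (212443996, [.ofNat 0, .ofNat 11840, .ofNat 9056, .ofNat 864]),
  (212445389, [.ofNat 0, .negSucc 32831, .negSucc 1567, .negSucc 6159]),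
  (212445788, [.ofNat 0, .negSucc 3007, .negSucc 2655, .ofNat 1984]),
  (212452053, [.ofNat 0, .negSucc 18815, .ofNat 11904, .ofNat 5328]),
  (212452949, [.ofNat 0, .negSucc 9791, .negSucc 10911, .ofNat 5024]),
  (212513436, [.negSucc 13311, .ofNat 35552, .ofNat 832, .ofNat 4736]),
  (212939421, [.ofNat 0, .negSucc 959, .negSucc 6303, .ofNat 624]),
  (213193948, [.ofNat 0, .negSucc 4287, .negSucc 5279, .ofNat 976]),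
  (213194452, [.ofNat 0, .negSucc 6175, .negSucc 3327, .ofNat 464]),
  (556422813, [.ofNat 0, .ofNat 11712, .negSucc 9247, .ofNat 1184]),
  (558250653, [.ofNat 0, .ofNat 11072, .negSucc 13567, .ofNat 2400]),
  (558250709, [.ofNat 0, .negSucc 11071, .ofNat 13568, .negSucc 2399]),
  (558471013, [.ofNat 0, .ofNat 4992, .negSucc 7359, .ofNat 9168]),
  (558676309, [.ofNat 0, .negSucc 2495, .ofNat 7712, .negSucc 1999]),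
  (558676757, [.ofNat 0, .negSucc 1055, .ofNat 12512, .ofNat 848]),
  (558713437, [.ofNat 0, .ofNat 1056, .negSucc 12511, .negSucc 847]),
  (558717021, [.ofNat 0, .ofNat 2496, .negSucc 7711, .ofNat 2000]),
  (558732645, [.ofNat 0, .ofNat 4992, .negSucc 7359, .ofNat 9168]),
  (558807125, [.negSucc 13311, .negSucc 66303, .ofNat 69568, .ofNat 4000]),
  (623425189, [.ofNat 0, .ofNat 18752, .negSucc 1887, .ofNat 10736])]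

/-- the sum of the part -/
def lE9 : List (ℕ × List ℤ) := lE9x0 ++ (lE9x1 ++ (lE9x2))

theorem okE9 : dE9.all (rok tbE 12) = true := by decide +kernel

theorem sumE9 : aeq (fz (sumT tbE dE9)) lE9 = true := by decide +kernel

end Pool.Agent.H.MP_e16c79_al.IS
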