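import Pool.Agent.H.MP_e16c79_al.IS.BJoin
import Pool.Agent.H.MP_e16c79_al.IS.E0
import Pool.Agent.H.MP_e16c79_al.IS.E1
import Pool.Agent.H.MP_e16c79_al.IS.E2
import Pool.Agent.H.MP_e16c79_al.IS.E3
import Pool.Agent.H.MP_e16c79_al.IS.E4
import Pool.Agent.H.MP_e16c79_al.IS.E5
import Pool.Agent.H.MP_e16c79_al.IS.E6
import Pool.Agent.H.MP_e16c79_al.IS.E7
import Pool.Agent.H.MP_e16c79_al.IS.E8
import Pool.Agent.H.MP_e16c79_al.IS.E9
import Pool.Agent.H.MP_e16c79_al.IS.E10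
import Pool.Agent.H.MP_e16c79_al.IS.E11
import Pool.Agent.H.MP_e16c79_al.IS.E12
import Pool.Agent.H.MP_e16c79_al.IS.E13
import Pool.Agent.H.MP_e16c79_al.IS.E14
import Pool.Agent.H.MP_e16c79_al.IS.E15
import Pool.Agent.H.MP_e16c79_al.IS.E16
import Pool.Agent.H.MP_e16c79_al.IS.E17
import Pool.Agent.H.MP_e16c79_al.IS.E18
import Pool.Agent.H.MP_e16c79_al.IS.E19

/-!
# MP_e16c79_al: certificate E
-/

set_option autoImplicit false

namespace Pool.Agent.H.MP_e16c79_al.IS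

open Finset SP

/-- the target -/
def tgE : List (ℕ × List ℤ) := [(5419, [0, 0, 0, 3072, -4608, 1536])]

theorem joinE : aeq (fz (mall [lE0, lE1, lE2, lE3, lE4, lE5, lE6, lE7, lE8, lE9, lE10, lE11, lE12, lE13, lE14, lE15, lE16, lE17, lE18, lE19])) tgE = true := by decide +kernel

/-- the certificate E -/
theorem certE {R : Type*} [Ring R] {n : ℕ} {J N : AddSubgroup R} {M : Type*} [AddCommGroup M]
    {φ : R →+ M} {X : Fin 5 → R} (h : BData n J N) (hn : 2 ≤ n) (hφ : ∀ x ∈ N, φ x = 0)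
    (hX : ∀ k, X k ∈ J) (htf : ∀ x : M, (2 : ℤ) • x = 0 → x = 0) :
    (tgE.map (fun p => pev (n : ℤ) p.2 • F n φ X gS cS (dec8 p.1))).sum = 0 := by
  refine join_sound (F := fun N => F n φ X gS cS (dec8 N)) _ ?_ joinE
  intro l hl
  simp only [List.mem_cons, List.not_mem_nil, or_false] at hl
  rcases hl with rfl | rfl | rfl | rfl | rfl | rfl | rfl | rfl | rfl | rfl | rfl | rfl | rfl | rfl | rfl | rfl | rfl | rfl | rfl | rfl
  · exact cert_sound h hn hφ hX htf tabE dE0 okE0 _ sumE0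
  · exact cert_sound h hn hφ hX htf tabE dE1 okE1 _ sumE1
  · exact cert_sound h hn hφ hX htf tabE dE2 okE2 _ sumE2
  · exact cert_sound h hn hφ hX htf tabE dE3 okE3 _ sumE3
  · exact cert_sound h hn hφ hX htf tabE dE4 okE4 _ sumE4
  · exact cert_sound h hn hφ hX htf tabE dE5 okE5 _ sumE5
  · exact cert_sound h hn hφ hX htf tabE dE6 okE6 _ sumE6
  · exact cert_sound h hn hφ hX htf tabE dE7 okE7 _ sumE7
  · exact cert_sound h hn hφ hX htf tabE dE8 okE8 _ sumE8
  · exact cert_sound h hn hφ hX htf tabE dE9 okE9 _ sumE9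
  · exact cert_sound h hn hφ hX htf tabE dE10 okE10 _ sumE10
  · exact cert_sound h hn hφ hX htf tabE dE11 okE11 _ sumE11
  · exact cert_sound h hn hφ hX htf tabE dE12 okE12 _ sumE12
  · exact cert_sound h hn hφ hX htf tabE dE13 okE13 _ sumE13
  · exact cert_sound h hn hφ hX htf tabE dE14 okE14 _ sumE14
  · exact cert_sound h hn hφ hX htf tabE dE15 okE15 _ sumE15
  · exact cert_sound h hn hφ hX htf tabE dE16 okE16 _ sumE16
  · exact cert_sound h hn hφ hX htf tabE dE17 okE17 _ sumE17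
  · exact cert_sound h hn hφ hX htf tabE dE18 okE18 _ sumE18
  · exact cert_sound h hn hφ hX htf tabE dE19 okE19 _ sumE19

end Pool.Agent.H.MP_e16c79_al.IS
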