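import Pool.Agent.H.MP_e16c79_al.IS.BTabE

/-!
# MP_e16c79_al: certificate V, part 0
-/

set_option autoImplicit false

namespace Pool.Agent.H.MP_e16c79_al.IS

/-- data -/
def dV0x0 : RT := (.nd (.nd (.nd (.lf ⟨[.ofNat 0, .ofNat 0, .ofNat 0, .ofNat 2678400, .negSucc 3342719, .ofNat 1441920, .negSucc 243839], (.tr (.dx 0 (.lf 15)) (.lf 19) (.tr (.lf 5) (.lf 11) (.lf 6))), 0, [10, 10], []⟩)
    (.lf ⟨[.ofNat 0, .ofNat 0, .negSucc 2338559, .ofNat 2418240, .negSucc 938879, .ofNat 121920], (.tr (.dx 0 (.tw (.lf 5) (.lf 6))) (.lf 15) (.tr (.lf 9) (.lf 19) (.lf 10))), 0, [29, 29, 29, 29], []⟩))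
    (.nd (.lf ⟨[.ofNat 0, .ofNat 0, .negSucc 2338559, .ofNat 2418240, .negSucc 938879, .ofNat 121920], (.tr (.dx 0 (.tw (.lf 5) (.lf 6))) (.lf 19) (.tr (.lf 9) (.lf 15) (.lf 10))), 0, [7, 7, 7, 7], []⟩)
    (.lf ⟨[.ofNat 0, .ofNat 6563520, .negSucc 22998479, .ofNat 21948480, .negSucc 8919119, .ofNat 1280160], (.tr (.lf 15) (.tr (.lf 5) (.dx 0 (.tw (.lf 9) (.lf 10))) (.lf 6)) (.lf 19)), 0, [27, 27, 27, 27], []⟩)))
    (.nd (.nd (.lf ⟨[.ofNat 0, .negSucc 18619199, .ofNat 53509680, .negSucc 56560319, .ofNat 20564400, .negSucc 3596639], (.tr (.lf 15) (.dx 0 (.tr (.lf 5) (.tw (.lf 9) (.lf 10)) (.lf 6))) (.lf 19)), 0, [3, 3, 3, 3], []⟩)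
    (.lf ⟨[.ofNat 0, .ofNat 0, .negSucc 783359, .ofNat 978240, .negSucc 1272959, .ofNat 121920], (.tr (.lf 15) (.dx 0 (.lf 19)) (.tr (.lf 5) (.tw (.lf 9) (.lf 10)) (.lf 6))), 0, [9, 9, 9, 9], []⟩))
    (.nd (.lf ⟨[.ofNat 0, .negSucc 1497599, .ofNat 5159040, .negSucc 5595839, .ofNat 2196480, .negSucc 365759], (.tr (.dx 0 (.tw (.lf 5) (.lf 6))) (.lf 19) (.tr (.lf 9) (.tw (.lf 13) (.lf 14)) (.lf 10))), 0, [7, 7, 7, 7, 7, 7, 7, 7], []⟩)
    (.lf ⟨[.ofNat 0, .negSucc 6785279, .ofNat 2888160, .ofNat 3004320, .negSucc 2095199, .ofNat 426720], (.tr (.dx 0 (.tw (.lf 5) (.lf 6))) (.lf 19) (.tr (.lf 13) (.tw (.lf 9) (.lf 10)) (.lf 14))), 0, [0, 0, 0, 0, 0, 0, 0, 0], []⟩))))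

/-- data -/
def dV0x1 : RT := (.nd (.nd (.nd (.lf ⟨[.ofNat 0, .ofNat 29288880, .negSucc 57856739, .ofNat 48706320, .negSucc 16782179, .ofNat 2575560], (.tr (.lf 10) (.lf 19) (.tr (.lf 13) (.dx 0 (.tr (.lf 5) (.lf 9) (.lf 6))) (.lf 14))), 0, [28, 28, 28, 28], []⟩)
    (.lf ⟨[.ofNat 0, .negSucc 1301759, .ofNat 4997760, .negSucc 5595839, .ofNat 2196480, .negSucc 365759], (.tr (.dx 0 (.tr (.lf 9) (.lf 5) (.lf 10))) (.lf 6) (.tr (.lf 13) (.lf 19) (.lf 14))), 0, [5, 5, 5, 5], []⟩))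
    (.nd (.lf ⟨[.ofNat 0, .ofNat 8421120, .negSucc 14993639, .ofNat 12744000, .negSucc 4374599, .ofNat 701040], (.tr (.lf 6) (.lf 19) (.tr (.lf 13) (.dx 0 (.tr (.lf 9) (.lf 5) (.lf 10))) (.lf 14))), 0, [23, 23, 23, 23], []⟩)
    (.lf ⟨[.ofNat 0, .negSucc 1155599, .negSucc 1793699, .ofNat 3839280, .negSucc 1746659, .ofNat 320040], (.tr (.dx 0 (.tr (.lf 5) (.lf 13) (.lf 6))) (.lf 19) (.tr (.lf 9) (.lf 14) (.lf 10))), 0, [7, 7, 7, 7], []⟩)))
    (.nd (.nd (.lf ⟨[.ofNat 0, .negSucc 592559, .ofNat 43380, .negSucc 866159, .ofNat 985140, .negSucc 137159], (.tr (.lf 14) (.lf 19) (.tr (.lf 5) (.dx 0 (.tr (.lf 9) (.lf 13) (.lf 10))) (.lf 6))), 0, [4, 4, 4, 4], []⟩)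
    (.lf ⟨[.ofNat 0, .ofNat 0, .negSucc 5644799, .ofNat 6711360, .negSucc 2017919, .ofNat 365760], (.tr (.dx 0 (.tr (.lf 5) (.tr (.lf 9) (.lf 13) (.lf 10)) (.lf 6))) (.lf 19) (.lf 14)), 0, [0, 0, 0, 0], []⟩))
    (.nd (.lf ⟨[.ofNat 0, .negSucc 7243199, .ofNat 18331920, .negSucc 16633919, .ofNat 7048080, .negSucc 1036319], (.tr (.dx 0 (.tr (.lf 9) (.tr (.lf 5) (.lf 13) (.lf 6)) (.lf 10))) (.lf 19) (.lf 14)), 0, [5, 5, 5, 5], []⟩)
    (.lf ⟨[.ofNat 0, .negSucc 1169279, .ofNat 30503040, .negSucc 39550559, .ofNat 16229760, .negSucc 2743199], (.tr (.dx 0 (.tw (.lf 13) (.lf 14))) (.lf 19) (.tr (.lf 5) (.tw (.lf 9) (.lf 10)) (.lf 6))), 0, [10, 10, 10, 10, 10, 10, 10, 10], []⟩))))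

/-- data -/
def dV0x2 : RT := (.nd (.nd (.nd (.lf ⟨[.ofNat 0, .negSucc 1494719, .ofNat 7942800, .negSucc 9149279, .ofNat 3650640, .negSucc 609599], (.tr (.dx 0 (.tw (.lf 13) (.lf 14))) (.tr (.tw (.lf 9) (.lf 10)) (.lf 5) (.lf 19)) (.lf 6)), 0, [17, 17, 10, 10, 17, 17, 10, 10], []⟩)
    (.lf ⟨[.ofNat 0, .ofNat 437760, .negSucc 57628319, .ofNat 76505280, .negSucc 31625759, .ofNat 5364480], (.tr (.dx 0 (.tw (.lf 13) (.lf 14))) (.tr (.tw (.lf 5) (.lf 6)) (.lf 9) (.lf 19)) (.lf 10)), 0, [29, 29, 35, 35, 29, 29, 35, 35], []⟩))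
    (.nd (.lf ⟨[.ofNat 0, .negSucc 11893679, .ofNat 23446380, .negSucc 20621999, .ofNat 7198860, .negSucc 1142999], (.tr (.dx 0 (.tr (.lf 13) (.lf 5) (.lf 14))) (.lf 19) (.tr (.lf 9) (.lf 6) (.lf 10))), 0, [35, 35, 35, 35], []⟩)
    (.lf ⟨[.ofNat 0, .ofNat 1105920, .ofNat 82560, .negSucc 1333439, .ofNat 650880, .negSucc 121919], (.tr (.dx 0 (.tr (.lf 13) (.tw (.lf 5) (.lf 6)) (.lf 14))) (.lf 19) (.tw (.lf 9) (.lf 10))), 0, [29, 29, 29, 29, 29, 29, 29, 29], []⟩)))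
    (.nd (.nd (.lf ⟨[.ofNat 0, .negSucc 25390079, .ofNat 47406240, .negSucc 38605919, .ofNat 13185120, .negSucc 2011679], (.tr (.dx 0 (.tr (.lf 13) (.lf 9) (.lf 14))) (.lf 19) (.tr (.lf 5) (.lf 10) (.lf 6))), 0, [9, 9, 9, 9], []⟩)
    (.lf ⟨[.ofNat 0, .negSucc 5841359, .negSucc 4212179, .ofNat 12026640, .negSucc 6150419, .ofNat 1173480], (.tw (.dx 0 (.lf 19)) (.tr (.lf 9) (.tr (.lf 5) (.tw (.lf 13) (.lf 14)) (.lf 6)) (.lf 10))), 0, [30, 30, 30, 30, 30, 30, 30, 30], []⟩))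
    (.nd (.lf ⟨[.ofNat 0, .ofNat 5071680, .negSucc 37841519, .ofNat 45386880, .negSucc 17988719, .ofNat 2987040], (.tr (.dx 0 (.lf 19)) (.lf 9) (.tw (.lf 10) (.tr (.lf 5) (.tw (.lf 13) (.lf 14)) (.lf 6)))), 0, [30, 30, 30, 30, 30, 30, 30, 30], []⟩)
    (.lf ⟨[.ofNat 0, .negSucc 2119679, .ofNat 4686240, .negSucc 4142879, .ofNat 1281120, .negSucc 182879], (.tw (.dx 0 (.lf 19)) (.tr (.lf 9) (.lf 10) (.tr (.lf 5) (.tw (.lf 13) (.lf 14)) (.lf 6)))), 0, [30, 30, 30, 30, 35, 35, 35, 35], []⟩))))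

/-- data -/
def dV0x3 : RT := (.nd (.nd (.nd (.lf ⟨[.ofNat 0, .ofNat 417600, .ofNat 28012080, .negSucc 37857119, .ofNat 15751920, .negSucc 2682239], (.tw (.dx 0 (.lf 19)) (.tr (.lf 13) (.lf 14) (.tr (.lf 5) (.tw (.lf 9) (.lf 10)) (.lf 6)))), 0, [30, 30, 30, 30, 19, 19, 19, 19], []⟩)
    (.lf ⟨[.ofNat 0, .negSucc 4386239, .ofNat 12767760, .negSucc 12845759, .ofNat 4870800, .negSucc 792479], (.tr (.lf 13) (.lf 14) (.tw (.dx 0 (.lf 19)) (.tr (.lf 5) (.tw (.lf 9) (.lf 10)) (.lf 6)))), 0, [22, 22, 22, 22, 18, 18, 18, 18], []⟩))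
    (.nd (.lf ⟨[.ofNat 38895840, .negSucc 135413479, .ofNat 139541840, .negSucc 51823879, .ofNat 8382000], (.tr (.dx 0 (.tw (.lf 5) (.lf 6))) (.lf 9) (.tr (.lf 13) (.tr (.lf 17) (.lf 10) (.lf 18)) (.lf 14))), 0, [0, 0, 0, 0, 0, 0, 0, 0], []⟩)
    (.lf ⟨[.negSucc 6410879, .ofNat 16852800, .negSucc 16599839, .ofNat 6332160, .negSucc 1036319], (.tr (.dx 0 (.tw (.lf 5) (.lf 6))) (.lf 13) (.tr (.lf 9) (.tr (.lf 17) (.lf 14) (.lf 18)) (.lf 10))), 0, [0, 0, 0, 0, 0, 0, 0, 0], []⟩)))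
    (.nd (.nd (.lf ⟨[.ofNat 0, .ofNat 195840, .negSucc 161279], (.tr (.dx 0 (.tw (.lf 5) (.lf 6))) (.tr (.lf 9) (.lf 13) (.tr (.lf 17) (.lf 10) (.lf 18))) (.lf 14)), 0, [0, 0, 37, 37, 0, 0, 37, 37], []⟩)
    (.lf ⟨[.negSucc 1203839, .ofNat 3127200, .negSucc 2966879, .ofNat 1133280, .negSucc 182879], (.tr (.dx 0 (.tw (.lf 5) (.lf 6))) (.tr (.lf 13) (.tr (.lf 9) (.lf 17) (.lf 10)) (.lf 14)) (.lf 18)), 0, [0, 0, 0, 0, 0, 0, 0, 0], []⟩))
    (.nd (.lf ⟨[.ofNat 2407680, .negSucc 6254399, .ofNat 5933760, .negSucc 2266559, .ofNat 365760], (.tr (.dx 0 (.tw (.lf 5) (.lf 6))) (.lf 13) (.tr (.lf 17) (.lf 14) (.tr (.lf 9) (.lf 18) (.lf 10)))), 0, [29, 29, 0, 0, 29, 29, 0, 0], []⟩)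
    (.lf ⟨[.ofNat 5447520, .negSucc 15020519, .ofNat 14906160, .negSucc 5628359, .ofNat 914400], (.tr (.lf 9) (.lf 10) (.tw (.dx 0 (.tw (.lf 5) (.lf 6))) (.tr (.lf 17) (.tw (.lf 13) (.lf 14)) (.lf 18)))), 0, [12, 12, 12, 12, 12, 12, 12, 12, 28, 28, 28, 28, 28, 28, 28, 28], []⟩))))

/-- data -/
def dV0x4 : RT := (.nd (.nd (.nd (.lf ⟨[.ofNat 4386960, .negSucc 11035259, .ofNat 10413240, .negSucc 3825899, .ofNat 609600], (.tw (.dx 0 (.tw (.lf 5) (.lf 6))) (.tr (.lf 9) (.tr (.lf 13) (.tw (.lf 17) (.lf 18)) (.lf 14)) (.lf 10))), 0, [0, 0, 0, 0, 0, 0, 0, 0, 0, 0, 0, 0, 0, 0, 0, 0], []⟩)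
    (.lf ⟨[.negSucc 2996639, .ofNat 6853080, .negSucc 6326639, .ofNat 2303160, .negSucc 365759], (.tr (.dx 0 (.tw (.lf 5) (.lf 6))) (.lf 9) (.tw (.lf 10) (.tr (.lf 13) (.tw (.lf 17) (.lf 18)) (.lf 14)))), 0, [0, 0, 0, 0, 0, 0, 0, 0, 0, 0, 0, 0, 0, 0, 0, 0], []⟩))
    (.nd (.lf ⟨[.ofNat 2026080, .negSucc 2228279, .ofNat 2578320, .negSucc 1513079, .ofNat 243840], (.tw (.dx 0 (.tw (.lf 5) (.lf 6))) (.tr (.lf 9) (.tr (.lf 17) (.tw (.lf 13) (.lf 14)) (.lf 18)) (.lf 10))), 0, [0, 0, 0, 0, 0, 0, 0, 0, 0, 0, 0, 0, 0, 0, 0, 0], []⟩)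
    (.lf ⟨[.negSucc 909359, .ofNat 2549940, .negSucc 2522039, .ofNat 943140, .negSucc 152399], (.tw (.dx 0 (.tw (.lf 5) (.lf 6))) (.tr (.lf 13) (.tr (.lf 17) (.tw (.lf 9) (.lf 10)) (.lf 18)) (.lf 14))), 0, [0, 0, 0, 0, 0, 0, 0, 0, 0, 0, 0, 0, 0, 0, 0, 0], []⟩)))
    (.nd (.nd (.lf ⟨[.ofNat 588960, .negSucc 1960919, .ofNat 2023920, .negSucc 757559, .ofNat 121920], (.tr (.dx 0 (.tw (.lf 5) (.lf 6))) (.lf 13) (.tw (.lf 14) (.tr (.lf 17) (.tw (.lf 9) (.lf 10)) (.lf 18)))), 0, [15, 15, 15, 15, 0, 0, 0, 0, 15, 15, 15, 15, 0, 0, 0, 0], []⟩)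
    (.lf ⟨[.negSucc 63011699, .ofNat 183347315, .negSucc 187224679, .ofNat 68350235, .negSucc 11129009], (.tw (.dx 0 (.tw (.lf 5) (.lf 6))) (.tr (.lf 17) (.tr (.lf 9) (.tw (.lf 13) (.lf 14)) (.lf 10)) (.lf 18))), 0, [0, 0, 0, 0, 0, 0, 0, 0, 0, 0, 0, 0, 0, 0, 0, 0], []⟩))
    (.nd (.lf ⟨[.ofNat 252242640, .negSucc 733550539, .ofNat 748898720, .negSucc 273400939, .ofNat 44516040], (.tr (.lf 13) (.lf 17) (.tr (.lf 18) (.lf 14) (.tr (.lf 9) (.dx 0 (.tw (.lf 5) (.lf 6))) (.lf 10)))), 0, [4, 4, 4, 4, 39, 39, 39, 39], []⟩)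
    (.lf ⟨[.negSucc 4913279, .ofNat 12033600, .negSucc 11370719, .ofNat 4189440, .negSucc 670559], (.tw (.dx 0 (.tw (.lf 5) (.lf 6))) (.tr (.lf 17) (.tr (.lf 13) (.tw (.lf 9) (.lf 10)) (.lf 14)) (.lf 18))), 0, [0, 0, 0, 0, 0, 0, 0, 0, 0, 0, 0, 0, 0, 0, 0, 0], []⟩))))

/-- data -/
def dV0x5 : RT := (.nd (.nd (.nd (.lf ⟨[.ofNat 12729600, .negSucc 40791359, .ofNat 42201600, .negSucc 16311359, .ofNat 2682240], (.tr (.dx 0 (.tr (.lf 9) (.tw (.lf 5) (.lf 6)) (.lf 10))) (.lf 13) (.tr (.lf 14) (.lf 17) (.lf 18))), 0, [39, 5, 39, 5, 39, 5, 39, 5], []⟩)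
    (.lf ⟨[.ofNat 9309600, .negSucc 26167319, .ofNat 27573600, .negSucc 10764119, .ofNat 1798320], (.tr (.lf 13) (.dx 0 (.tr (.lf 5) (.tw (.lf 9) (.lf 10)) (.lf 6))) (.tr (.lf 17) (.lf 14) (.lf 18))), 0, [39, 39, 39, 39, 39, 39, 39, 39], []⟩))
    (.nd (.lf ⟨[.negSucc 53676359, .ofNat 176714830, .negSucc 177244479, .ofNat 63695230, .negSucc 10066019], (.tr (.lf 13) (.dx 0 (.tr (.lf 9) (.tw (.lf 5) (.lf 6)) (.lf 10))) (.tr (.lf 17) (.lf 14) (.lf 18))), 0, [39, 39, 39, 39, 39, 39, 39, 39], []⟩)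
    (.lf ⟨[.ofNat 179797680, .negSucc 544077619, .ofNat 552400400, .negSucc 199913779, .ofNat 32324040], (.tr (.lf 17) (.dx 0 (.tr (.lf 9) (.tw (.lf 5) (.lf 6)) (.lf 10))) (.tr (.lf 13) (.lf 18) (.lf 14))), 0, [5, 5, 5, 5, 5, 5, 5, 5], []⟩)))
    (.nd (.nd (.lf ⟨[.ofNat 0, .ofNat 2822400, .negSucc 3355679, .ofNat 1008960, .negSucc 182879], (.tr (.dx 0 (.tr (.lf 5) (.tr (.lf 9) (.lf 13) (.lf 10)) (.lf 6))) (.tw (.lf 17) (.lf 18)) (.lf 14)), 0, [5, 5, 5, 5, 5, 5, 5, 5], []⟩)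
    (.lf ⟨[.ofNat 3621600, .negSucc 9165959, .ofNat 8316960, .negSucc 3524039, .ofNat 518160], (.tr (.dx 0 (.tr (.lf 9) (.tr (.lf 5) (.lf 13) (.lf 6)) (.lf 10))) (.tw (.lf 17) (.lf 18)) (.lf 14)), 0, [5, 5, 5, 5, 5, 5, 5, 5], []⟩))
    (.nd (.lf ⟨[.ofNat 0, .ofNat 783360, .negSucc 857759, .ofNat 403200, .negSucc 60959], (.tr (.dx 0 (.tr (.lf 5) (.tr (.lf 9) (.lf 17) (.lf 10)) (.lf 6))) (.tw (.lf 13) (.lf 14)) (.lf 18)), 0, [39, 39, 39, 39, 39, 39, 39, 39], []⟩)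
    (.lf ⟨[.negSucc 3281759, .ofNat 11499240, .negSucc 10974239, .ofNat 4459560, .negSucc 640079], (.tr (.lf 9) (.dx 0 (.tr (.lf 5) (.tw (.lf 17) (.lf 18)) (.lf 6))) (.tr (.lf 13) (.lf 10) (.lf 14))), 0, [37, 37, 37, 37, 37, 37, 37, 37], []⟩))))

/-- data -/
def dV0x6 : RT := (.nd (.nd (.nd (.lf ⟨[.negSucc 766079, .ofNat 1643040, .negSucc 1286879, .ofNat 456480, .negSucc 60959], (.tr (.dx 0 (.tr (.lf 5) (.tr (.lf 17) (.lf 9) (.lf 18)) (.lf 6))) (.tw (.lf 13) (.lf 14)) (.lf 10)), 0, [7, 7, 7, 7, 7, 7, 7, 7], []⟩)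
    (.lf ⟨[.ofNat 874080, .ofNat 875160, .negSucc 1486559, .ofNat 380760, .negSucc 91439], (.tr (.dx 0 (.tr (.lf 17) (.tr (.lf 5) (.lf 9) (.lf 6)) (.lf 18))) (.tw (.lf 13) (.lf 14)) (.lf 10)), 0, [7, 7, 7, 7, 7, 7, 7, 7], []⟩))
    (.nd (.lf ⟨[.ofNat 0, .ofNat 182229120, .negSucc 531071519, .ofNat 440772720, .ofNat 121280160, .negSucc 156252239, .negSucc 79036319, .ofNat 66810240, .negSucc 15118079], (.tr (.tw (.dx 0 (.lf 7)) (.lf 11)) (.lf 15) (.lf 19)), 0, [0, 12], []⟩)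
    (.lf ⟨[.ofNat 0, .negSucc 265956479, .ofNat 376744480, .ofNat 722749520, .negSucc 2011544479, .ofNat 1111999440, .ofNat 58980000, .negSucc 166061759, .ofNat 39989760], (.tr (.dx 0 (.lf 7)) (.tw (.lf 11) (.lf 15)) (.lf 19)), 0, [0, 0], []⟩)))
    (.nd (.nd (.lf ⟨[.ofNat 0, .ofNat 83727360, .ofNat 106821440, .negSucc 875342959, .ofNat 1273268960, .negSucc 609686639, .ofNat 61196160, .ofNat 33412800, .negSucc 9022079], (.tr (.dx 0 (.lf 7)) (.lf 11) (.tw (.lf 15) (.lf 19))), 0, [0, 0], []⟩)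
    (.lf ⟨[.ofNat 0, .negSucc 51102719, .negSucc 187778559, .ofNat 672564160, .negSucc 698083839, .ofNat 266543040, .negSucc 43647359], (.tr (.tw (.dx 0 (.lf 7)) (.lf 11)) (.lf 19) (.lf 15)), 0, [0, 5], []⟩))
    (.nd (.lf ⟨[.ofNat 0, .ofNat 362436480, .negSucc 744097119, .negSucc 280774159, .ofNat 1702858400, .negSucc 1017971279, .negSucc 14068319, .ofNat 133635840, .negSucc 33162239], (.tr (.dx 0 (.lf 7)) (.lf 15) (.tw (.lf 11) (.lf 19))), 0, [0, 0], []⟩)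
    (.lf ⟨[.ofNat 0, .negSucc 110217599, .ofNat 334793120, .negSucc 169866559, .negSucc 389408319, .ofNat 272844480, .ofNat 107337120, .negSucc 95130239, .ofNat 21701760], (.tr (.tw (.dx 0 (.lf 7)) (.lf 15)) (.lf 19) (.lf 11)), 0, [0, 22], []⟩))))

/-- data -/
def dV0x7 : RT := (.nd (.nd (.nd (.lf ⟨[.ofNat 0, .negSucc 66084479, .negSucc 104763039, .ofNat 813404800, .negSucc 1289805759, .ofNat 686021760, .negSucc 77602079, .negSucc 38505599, .ofNat 11460480], (.tr (.dx 0 (.lf 7)) (.tw (.lf 15) (.lf 19)) (.lf 11)), 0, [0, 0], []⟩)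
    (.lf ⟨[.ofNat 0, .ofNat 14981760, .ofNat 202980000, .negSucc 881008319, .ofNat 1305768000, .negSucc 684415679, .ofNat 76626720, .ofNat 38505600, .negSucc 11460479], (.tr (.dx 0 (.lf 7)) (.lf 19) (.tw (.lf 11) (.lf 15))), 0, [0, 0], []⟩))
    (.nd (.lf ⟨[.ofNat 0, .ofNat 0, .negSucc 216440639, .ofNat 648122160, .negSucc 654546239, .ofNat 247268400, .negSucc 40416479], (.tr (.tw (.dx 0 (.lf 7)) (.lf 19)) (.lf 11) (.lf 15)), 0, [0, 2], []⟩)
    (.lf ⟨[.ofNat 0, .ofNat 0, .ofNat 46805760, .negSucc 248055359, .ofNat 391264800, .negSucc 185471999, .negSucc 13365599, .ofNat 28320000, .negSucc 6583679], (.tr (.lf 11) (.tw (.dx 0 (.lf 7)) (.lf 15)) (.lf 19)), 0, [12, 3], []⟩)))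
    (.nd (.nd (.lf ⟨[.ofNat 0, .ofNat 28719360, .negSucc 82415359, .negSucc 230934159, .ofNat 695588320, .negSucc 379803599, .negSucc 90207359, .ofNat 95130240, .negSucc 21701759], (.tr (.tw (.lf 11) (.lf 19)) (.dx 0 (.lf 7)) (.lf 15)), 0, [23, 14], []⟩)
    (.lf ⟨[.ofNat 0, .ofNat 0, .ofNat 66182400, .negSucc 94609919, .ofNat 113976000, .ofNat 14870400, .negSucc 19350719, .ofNat 6744960, .ofNat 243840], (.tr (.dx 0 (.tw (.lf 7) (.lf 11))) (.lf 15) (.lf 19)), 0, [0, 20], []⟩))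
    (.nd (.lf ⟨[.ofNat 0, .ofNat 103593600, .negSucc 287881439, .ofNat 428153760, .negSucc 500848799, .ofNat 287077920, .ofNat 45484800, .negSucc 59290559, .ofNat 14874240], (.tr (.dx 0 (.tw (.lf 7) (.lf 11))) (.lf 19) (.lf 15)), 0, [0, 5], []⟩)
    (.lf ⟨[.ofNat 0, .negSucc 15108479, .ofNat 98240160, .negSucc 282024959, .ofNat 482603520, .negSucc 345760319, .ofNat 127292640, .negSucc 22157759, .ofNat 1706880], (.tr (.lf 15) (.dx 0 (.tw (.lf 7) (.lf 11))) (.lf 19)), 0, [3, 3], []⟩))))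

/-- data -/
def dV0x8 : RT := (.nd (.nd (.nd (.lf ⟨[.ofNat 0, .ofNat 0, .ofNat 104999040, .negSucc 169344479, .ofNat 268980960, .negSucc 339330719, .ofNat 233692320, .negSucc 75565439, .ofNat 10728960], (.tw (.dx 0 (.tr (.lf 7) (.lf 11) (.lf 15))) (.lf 19)), 0, [0, 3], []⟩)
    (.lf ⟨[.ofNat 0, .ofNat 285822720, .negSucc 849794879, .ofNat 830941440, .negSucc 240488159, .negSucc 152657279, .ofNat 209178720, .negSucc 80658239, .ofNat 13167360], (.tw (.dx 0 (.tr (.lf 7) (.lf 15) (.lf 11))) (.lf 19)), 0, [0, 3], []⟩))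
    (.nd (.lf ⟨[.ofNat 0, .ofNat 0, .ofNat 63838080, .negSucc 191567519, .ofNat 332506080, .negSucc 226360799, .ofNat 53865120, .ofNat 986880, .negSucc 2194559], (.tw (.dx 0 (.tr (.lf 11) (.lf 7) (.lf 15))) (.lf 19)), 0, [20, 10], []⟩)
    (.lf ⟨[.ofNat 0, .negSucc 77431679, .ofNat 426491040, .negSucc 754107359, .ofNat 632625120, .negSucc 432119519, .ofNat 294950400, .negSucc 105674879, .ofNat 17556480], (.tr (.dx 0 (.tw (.lf 7) (.lf 19))) (.lf 11) (.lf 15)), 0, [37, 37], []⟩)))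
    (.nd (.nd (.lf ⟨[.ofNat 0, .ofNat 0, .ofNat 108581760, .negSucc 101413919, .negSucc 7056959, .negSucc 175647839, .ofNat 254008320, .negSucc 108565439, .ofNat 18531840], (.tr (.lf 11) (.dx 0 (.tw (.lf 7) (.lf 19))) (.lf 15)), 0, [12, 12], []⟩)
    (.lf ⟨[.ofNat 0, .ofNat 0, .ofNat 17216640, .negSucc 39819359, .ofNat 39410880, .negSucc 14563679, .ofNat 2438400], (.tr (.dx 0 (.tw (.lf 5) (.lf 6))) (.tw (.lf 11) (.lf 15)) (.lf 19)), 0, [0, 0, 0, 0], []⟩))
    (.nd (.lf ⟨[.ofNat 0, .negSucc 51287039, .ofNat 124441440, .negSucc 120860519, .ofNat 18481920, .ofNat 20137560, .negSucc 10157519, .ofNat 1463040], (.tr (.tw (.dx 0 (.tw (.lf 5) (.lf 6))) (.lf 15)) (.lf 11) (.lf 19)), 0, [0, 0, 15, 15], []⟩)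
    (.lf ⟨[.ofNat 0, .ofNat 51287040, .negSucc 138497279, .ofNat 162959040, .negSucc 66496799, .negSucc 562559, .ofNat 6774240, .negSucc 1463039], (.tr (.dx 0 (.tw (.lf 5) (.lf 6))) (.lf 15) (.tw (.lf 11) (.lf 19))), 0, [0, 0, 0, 0], []⟩))))

/-- data -/
def dV0x9 : RT := (.nd (.nd (.nd (.lf ⟨[.ofNat 0, .ofNat 15773760, .ofNat 28247280, .negSucc 108212039, .ofNat 56248080, .ofNat 36449880, .negSucc 27046799, .ofNat 5974080], (.tr (.lf 15) (.tw (.dx 0 (.tw (.lf 5) (.lf 6))) (.lf 11)) (.lf 19)), 0, [15, 15, 3, 3], []⟩)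
    (.lf ⟨[.ofNat 0, .negSucc 15773759, .negSucc 16606319, .ofNat 55390440, .negSucc 4189199, .negSucc 53340599, .ofNat 27978960, .negSucc 5486399], (.tr (.tw (.dx 0 (.tw (.lf 5) (.lf 6))) (.lf 19)) (.lf 11) (.lf 15)), 0, [0, 0, 2, 2], []⟩))
    (.nd (.lf ⟨[.ofNat 0, .ofNat 0, .ofNat 12729600, .negSucc 40791359, .ofNat 42201600, .negSucc 16311359, .ofNat 2682240], (.tr (.dx 0 (.tw (.lf 5) (.lf 6))) (.tw (.lf 11) (.lf 19)) (.lf 15)), 0, [0, 0, 0, 0], []⟩)
    (.lf ⟨[.ofNat 0, .ofNat 0, .negSucc 16479359, .ofNat 20158560, .negSucc 9404159, .ofNat 2052960, .negSucc 121919], (.tr (.dx 0 (.lf 11)) (.lf 5) (.tr (.lf 6) (.lf 15) (.lf 19))), 0, [20, 20], []⟩)))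
    (.nd (.nd (.lf ⟨[.ofNat 0, .ofNat 24842880, .negSucc 53107199, .ofNat 78295320, .negSucc 57384959, .ofNat 19344600, .negSucc 2895599], (.tw (.lf 19) (.tr (.dx 0 (.lf 11)) (.tw (.lf 5) (.lf 6)) (.lf 15))), 0, [19, 19, 21, 21], []⟩)
    (.lf ⟨[.ofNat 0, .negSucc 39490559, .negSucc 48020159, .ofNat 203351760, .negSucc 143934719, .negSucc 12734639, .ofNat 26512800, .negSucc 6827519], (.tr (.lf 15) (.lf 5) (.tr (.lf 6) (.dx 0 (.lf 11)) (.lf 19))), 0, [18, 18], []⟩))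
    (.nd (.lf ⟨[.ofNat 0, .negSucc 505215359, .ofNat 1571427040, .negSucc 1451593839, .ofNat 441794080, .negSucc 102051119, .ofNat 24235680, .negSucc 6583679], (.tr (.lf 5) (.dx 0 (.lf 11)) (.tr (.lf 15) (.lf 6) (.lf 19))), 0, [27, 19], []⟩)
    (.lf ⟨[.ofNat 0, .ofNat 135388800, .negSucc 488390239, .ofNat 521416640, .negSucc 163140319, .ofNat 26090880], (.tr (.lf 5) (.tr (.dx 0 (.lf 11)) (.lf 19) (.lf 6)) (.lf 15)), 0, [19, 16], []⟩))))

/-- data -/
def dV0x10 : RT := (.nd (.nd (.nd (.lf ⟨[.ofNat 0, .negSucc 246309119, .ofNat 745522240, .negSucc 764637279, .ofNat 272400640, .negSucc 44195999], (.tr (.lf 5) (.lf 6) (.tr (.lf 15) (.dx 0 (.lf 11)) (.lf 19))), 0, [24, 16], []⟩)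
    (.lf ⟨[.ofNat 0, .ofNat 312952320, .negSucc 978174399, .ofNat 854772400, .negSucc 217590399, .ofNat 65718960, .negSucc 24235679, .ofNat 6583680], (.tr (.lf 19) (.lf 5) (.tr (.lf 6) (.dx 0 (.lf 11)) (.lf 15))), 0, [26, 26], []⟩))
    (.nd (.lf ⟨[.ofNat 0, .ofNat 0, .ofNat 9802080, .ofNat 8710680, .negSucc 22283999, .ofNat 10765080, .negSucc 2042159], (.tw (.lf 15) (.tr (.dx 0 (.lf 11)) (.tw (.lf 5) (.lf 6)) (.lf 19))), 0, [27, 27, 21, 21], []⟩)
    (.lf ⟨[.ofNat 0, .negSucc 7807679, .ofNat 109756560, .negSucc 260294159, .ofNat 168388560, .ofNat 5881680, .negSucc 25374239, .ofNat 6705600], (.tw (.lf 15) (.tr (.lf 5) (.tw (.dx 0 (.lf 11)) (.lf 19)) (.lf 6))), 0, [17, 18, 17, 18], []⟩)))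
    (.nd (.nd (.lf ⟨[.ofNat 0, .ofNat 650171520, .negSucc 2147709279, .ofNat 2503552480, .negSucc 1047418719, .ofNat 103451040, .ofNat 50748480, .negSucc 13411199], (.tr (.lf 15) (.lf 5) (.tr (.dx 0 (.lf 11)) (.lf 19) (.lf 6))), 0, [17, 21], []⟩)
    (.lf ⟨[.ofNat 0, .negSucc 1008385919, .ofNat 3089289760, .negSucc 3152854719, .ofNat 1154219680, .negSucc 187756799], (.tr (.lf 5) (.lf 19) (.tr (.dx 0 (.lf 11)) (.lf 6) (.lf 15))), 0, [16, 21], []⟩))
    (.nd (.lf ⟨[.ofNat 0, .ofNat 1008385920, .negSucc 3089289759, .ofNat 3152854720, .negSucc 1154219679, .ofNat 187756800], (.tr (.dx 0 (.lf 11)) (.tr (.lf 5) (.lf 15) (.lf 19)) (.lf 6)), 0, [20, 25], []⟩)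
    (.lf ⟨[.ofNat 0, .negSucc 5097599, .ofNat 77117280, .negSucc 179971199, .ofNat 129352320, .negSucc 12977279, .negSucc 10360799, .ofNat 3413760], (.tw (.lf 15) (.tr (.tw (.lf 5) (.lf 6)) (.dx 0 (.lf 11)) (.lf 19))), 0, [18, 18, 33, 33], []⟩))))

/-- data -/
def dV0x11 : RT := (.nd (.nd (.nd (.lf ⟨[.ofNat 0, .negSucc 496995839, .ofNat 1488178880, .negSucc 1512748399, .ofNat 552547520, .negSucc 89621039, .negSucc 60959], (.tw (.lf 19) (.tr (.lf 5) (.tw (.dx 0 (.lf 11)) (.lf 15)) (.lf 6))), 0, [25, 26, 25, 26], []⟩)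
    (.lf ⟨[.ofNat 0, .negSucc 480830399, .ofNat 1465322000, .negSucc 1494957919, .ofNat 546604880, .negSucc 89001599], (.tw (.lf 19) (.tr (.tw (.lf 5) (.lf 6)) (.dx 0 (.lf 11)) (.lf 15))), 0, [26, 26, 33, 33], []⟩))
    (.nd (.lf ⟨[.ofNat 0, .ofNat 16128000, .negSucc 21119, .negSucc 63323999, .ofNat 105800640, .negSucc 62473439, .ofNat 17729280, .negSucc 1950719], (.tr (.dx 0 (.tr (.lf 5) (.lf 6) (.lf 11))) (.lf 15) (.lf 19)), 0, [0, 20], []⟩)
    (.lf ⟨[.ofNat 0, .ofNat 23448960, .negSucc 327190559, .ofNat 646586400, .negSucc 421823519, .ofNat 24344160, .ofNat 40255680, .negSucc 11948159], (.tr (.dx 0 (.tr (.lf 5) (.lf 6) (.lf 11))) (.lf 19) (.lf 15)), 0, [0, 5], []⟩)))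
    (.nd (.nd (.lf ⟨[.ofNat 0, .negSucc 114445439, .ofNat 166005600, .negSucc 71652959, .ofNat 44102880, .negSucc 90721439, .ofNat 44546880, .negSucc 8778239], (.tr (.lf 15) (.dx 0 (.tr (.lf 5) (.lf 6) (.lf 11))) (.lf 19)), 0, [3, 3], []⟩)
    (.lf ⟨[.ofNat 0, .ofNat 71026560, .negSucc 305377439, .ofNat 458145120, .negSucc 149459999, .negSucc 113174879, .ofNat 74408640, .negSucc 14874239], (.tr (.lf 15) (.lf 5) (.tr (.dx 0 .on) (.tw (.lf 6) (.lf 19)) (.lf 11))), 0, [29, 35, 31, 1], [29, 35, 18, 18]⟩))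
    (.nd (.lf ⟨[.ofNat 0, .ofNat 429252480, .negSucc 1546367519, .ofNat 1644130560, .negSucc 620574239, .ofNat 107837760, .negSucc 1950719], (.tr (.lf 15) (.dx 0 (.lf 19)) (.tr (.lf 5) (.lf 6) (.lf 11))), 0, [35, 9], []⟩)
    (.lf ⟨[.ofNat 0, .negSucc 5512319, .negSucc 12740639, .ofNat 20714880, .negSucc 9000479, .ofNat 1584960], (.tr (.lf 5) (.lf 6) (.tr (.lf 11) (.dx 0 (.lf 19)) (.lf 15))), 0, [8, 24], []⟩))))

/-- data -/
def dV0x12 : RT := (.nd (.nd (.nd (.lf ⟨[.ofNat 0, .negSucc 647470079, .ofNat 2228630400, .negSucc 2464804319, .ofNat 905817600, .negSucc 16608479, .negSucc 72457919, .ofNat 14874240], (.tr (.lf 5) (.tr (.dx 0 (.lf 19)) (.lf 11) (.lf 6)) (.lf 15)), 0, [32, 8], []⟩)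
    (.lf ⟨[.ofNat 0, .ofNat 113287680, .negSucc 281489279, .ofNat 280742400, .negSucc 103950719, .ofNat 17068800], (.tr (.lf 11) (.tr (.dx 0 (.lf 19)) (.lf 5) (.lf 6)) (.lf 15)), 0, [19, 34], []⟩))
    (.nd (.lf ⟨[.ofNat 0, .ofNat 354885120, .negSucc 1180831679, .ofNat 1297010160, .negSucc 474785279, .ofNat 11839920, .ofNat 36228960, .negSucc 7437119], (.tw (.lf 15) (.tr (.lf 5) (.tw (.dx 0 (.lf 19)) (.lf 11)) (.lf 6))), 0, [18, 33, 18, 33], []⟩)
    (.lf ⟨[.ofNat 0, .negSucc 650119679, .ofNat 2246999040, .negSucc 2487990239, .ofNat 910469760, .negSucc 17339999, .negSucc 72457919, .ofNat 14874240], (.tr (.lf 5) (.lf 11) (.tr (.dx 0 (.lf 19)) (.lf 6) (.lf 15))), 0, [19, 31], []⟩)))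
    (.nd (.nd (.lf ⟨[.ofNat 0, .ofNat 650119680, .negSucc 2246999039, .ofNat 2487990240, .negSucc 910469759, .ofNat 17340000, .ofNat 72457920, .negSucc 14874239], (.tr (.dx 0 (.lf 19)) (.lf 5) (.tr (.lf 6) (.lf 11) (.lf 15))), 0, [30, 30], []⟩)
    (.lf ⟨[.ofNat 0, .ofNat 59650560, .negSucc 114664319, .ofNat 78255360, .negSucc 36517439, .ofNat 30061440, .negSucc 12895679, .ofNat 2438400], (.tr (.dx 0 (.lf 19)) (.tr (.lf 5) (.lf 6) (.lf 11)) (.lf 15)), 0, [30, 30], []⟩))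
    (.nd (.lf ⟨[.ofNat 0, .ofNat 38810880, .negSucc 72150719, .ofNat 60153600, .negSucc 17837759, .ofNat 2682240], (.tr (.lf 5) (.tr (.lf 6) (.dx 0 (.lf 19)) (.lf 11)) (.lf 15)), 0, [32, 19], []⟩)
    (.lf ⟨[.ofNat 0, .negSucc 354885119, .ofNat 1141715520, .negSucc 1222242959, .ofNat 457239840, .negSucc 48338639, .negSucc 15542399, .ofNat 3413760], (.tw (.dx 0 (.lf 19)) (.tr (.tw (.lf 5) (.lf 6)) (.lf 11) (.lf 15))), 0, [30, 30, 9, 9], []⟩))))

/-- data -/
def dV0x13 : RT := (.nd (.nd (.nd (.lf ⟨[.ofNat 0, .ofNat 392523840, .negSucc 1294786799, .ofNat 1443329760, .negSucc 552696239, .ofNat 38582400, .ofNat 31084800, .negSucc 6827519], (.tr (.lf 5) (.lf 6) (.tr (.dx 0 (.lf 19)) (.lf 15) (.lf 11))), 0, [32, 8], []⟩)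
    (.lf ⟨[.ofNat 0, .negSucc 89527679, .ofNat 352500000, .negSucc 463374239, .ofNat 189431520, .ofNat 20731680, .negSucc 31084799, .ofNat 6827520], (.tr (.lf 5) (.tr (.lf 6) (.dx 0 (.lf 19)) (.lf 15)) (.lf 11)), 0, [32, 35], []⟩))
    (.nd (.lf ⟨[.ofNat 0, .ofNat 8156160, .negSucc 69033599, .ofNat 164348640, .negSucc 76374719, .negSucc 40657439, .ofNat 31572480, .negSucc 6827519], (.tr (.lf 5) (.lf 15) (.tr (.dx 0 (.lf 19)) (.lf 6) (.lf 11))), 0, [35, 31], []⟩)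
    (.lf ⟨[.ofNat 0, .negSucc 12061439, .ofNat 64954560, .negSucc 158627039, .ofNat 71973120, .ofNat 41632800, .negSucc 31572479, .ofNat 6827520], (.tr (.dx 0 (.lf 19)) (.lf 5) (.tr (.lf 6) (.lf 15) (.lf 11))), 0, [30, 30], []⟩)))
    (.nd (.nd (.lf ⟨[.ofNat 0, .negSucc 46552319, .ofNat 225656640, .negSucc 462193439, .ofNat 284201280, .negSucc 5905439, .negSucc 33412799, .ofNat 9022080], (.tr (.dx 0 (.lf 19)) (.tr (.lf 5) (.lf 6) (.lf 15)) (.lf 11)), 0, [30, 30], []⟩)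
    (.lf ⟨[.ofNat 0, .ofNat 316906560, .negSucc 1030178159, .ofNat 1069599840, .negSucc 393553199, .ofNat 64826880, .negSucc 243839], (.tw (.lf 11) (.tr (.lf 5) (.tw (.dx 0 (.lf 19)) (.lf 15)) (.lf 6))), 0, [34, 33, 34, 33], []⟩))
    (.nd (.lf ⟨[.ofNat 0, .negSucc 44444159, .ofNat 117143040, .negSucc 148975679, .ofNat 74243520, .negSucc 24073919, .ofNat 4514880, .negSucc 731519], (.tr (.tw (.lf 5) (.lf 6)) (.dx 0 (.tw (.lf 11) (.lf 19))) (.lf 15)), 0, [32, 32, 32, 32], []⟩)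
    (.lf ⟨[.ofNat 0, .ofNat 41575680, .negSucc 234448319, .ofNat 451330560, .negSucc 295887359, .ofNat 32294400, .ofNat 20721600, .negSucc 6827519], (.tr (.dx 0 .on) (.lf 5) (.tr (.lf 15) (.tw (.lf 6) (.lf 11)) (.lf 19))), 0, [0, 0, 0, 0], [0, 0, 37, 19]⟩))))

/-- data -/
def dV0x14 : RT := (.nd (.nd (.nd (.lf ⟨[.ofNat 0, .ofNat 682698240, .negSucc 2261423999, .ofNat 2355772800, .negSucc 854520959, .ofNat 138988800], (.tr (.lf 5) (.tr (.lf 6) (.dx 0 (.lf 15)) (.lf 19)) (.lf 11)), 0, [32, 35], []⟩)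
    (.lf ⟨[.ofNat 0, .negSucc 13465439, .ofNat 122470440, .negSucc 237311519, .ofNat 148585800, .negSucc 16360559, .negSucc 10360799, .ofNat 3413760], (.tw (.lf 11) (.tr (.tw (.lf 5) (.lf 6)) (.dx 0 (.lf 15)) (.lf 19))), 0, [34, 34, 33, 33], []⟩))
    (.nd (.lf ⟨[.ofNat 0, .ofNat 74361600, .negSucc 395004479, .ofNat 533365440, .negSucc 200106239, .negSucc 24429119, .ofNat 32425920, .negSucc 6827519], (.tr (.lf 11) (.lf 5) (.tr (.lf 6) (.dx 0 (.lf 15)) (.lf 19))), 0, [34, 33], []⟩)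
    (.lf ⟨[.ofNat 0, .ofNat 608336640, .negSucc 1872513599, .ofNat 1830532800, .negSucc 657559679, .ofNat 163661760, .negSucc 32425919, .ofNat 6827520], (.tr (.lf 5) (.tr (.dx 0 (.lf 15)) (.lf 19) (.lf 6)) (.lf 11)), 0, [32, 16], []⟩)))
    (.nd (.nd (.lf ⟨[.ofNat 0, .negSucc 5512319, .negSucc 12740639, .ofNat 20714880, .negSucc 9000479, .ofNat 1584960], (.tr (.lf 5) (.lf 6) (.tr (.lf 11) (.dx 0 (.lf 15)) (.lf 19))), 0, [8, 16], []⟩)
    (.lf ⟨[.ofNat 0, .ofNat 600131520, .negSucc 1915487759, .ofNat 2001055200, .negSucc 782125199, .ofNat 144827520, .negSucc 4998719], (.tr (.lf 11) (.tr (.dx 0 (.lf 15)) (.lf 5) (.lf 6)) (.lf 19)), 0, [27, 34], []⟩))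
    (.nd (.lf ⟨[.ofNat 0, .ofNat 95385600, .negSucc 193068799, .ofNat 167945600, .negSucc 53791999, .ofNat 6652800, .ofNat 487680], (.tr (.lf 19) (.lf 5) (.tr (.lf 6) (.dx 0 (.lf 15)) (.lf 11))), 0, [26, 33], []⟩)
    (.lf ⟨[.ofNat 0, .negSucc 296392319, .ofNat 946431840, .negSucc 934366559, .ofNat 339050880, .negSucc 83537759, .ofNat 16212960, .negSucc 3413759], (.tw (.lf 11) (.tr (.dx 0 (.lf 15)) (.lf 19) (.tw (.lf 5) (.lf 6)))), 0, [17, 17, 11, 11], []⟩))))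

/-- data -/
def dV0x15 : RT := (.nd (.nd (.nd (.lf ⟨[.ofNat 0, .negSucc 341045279, .ofNat 1124669880, .negSucc 1190967839, .ofNat 466299000, .negSucc 86853839, .ofNat 3169920], (.tw (.lf 19) (.tr (.tw (.lf 5) (.lf 6)) (.dx 0 (.lf 15)) (.lf 11))), 0, [26, 26, 33, 33], []⟩)
    (.lf ⟨[.ofNat 0, .ofNat 0, .negSucc 783359, .ofNat 645120], (.tr (.lf 5) (.lf 6) (.tr (.dx 0 (.lf 15)) (.lf 11) (.lf 19))), 0, [32, 16], []⟩))
    (.nd (.lf ⟨[.ofNat 0, .ofNat 44282880, .negSucc 102305279, .ofNat 100815360, .negSucc 35735039, .ofNat 5852160], (.tr (.lf 5) (.tr (.lf 6) (.dx 0 (.lf 15)) (.lf 11)) (.lf 19)), 0, [32, 27], []⟩)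
    (.lf ⟨[.ofNat 0, .ofNat 682090560, .negSucc 2248556399, .ofNat 2381290560, .negSucc 932597999, .ofNat 173707680, .negSucc 6339839], (.tr (.lf 19) (.lf 11) (.tr (.dx 0 (.lf 15)) (.lf 5) (.lf 6))), 0, [33, 11], []⟩)))
    (.nd (.nd (.lf ⟨[.ofNat 0, .negSucc 332981279, .ofNat 1085358840, .negSucc 1115189279, .ofNat 401341560, .negSucc 63227279, .negSucc 487679], (.tw (.dx 0 (.lf 15)) (.tr (.tw (.lf 5) (.lf 6)) (.lf 11) (.lf 19))), 0, [10, 10, 9, 9], []⟩)
    (.lf ⟨[.ofNat 0, .ofNat 14722560, .ofNat 53575200, .negSucc 203597399, .ofNat 173955840, .negSucc 31958039, .negSucc 7099439, .ofNat 3413760], (.tr (.tw (.lf 5) (.lf 6)) (.dx 0 (.tw (.lf 15) (.lf 19))) (.lf 11)), 0, [32, 32, 32, 32], []⟩))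
    (.nd (.lf ⟨[.ofNat 0, .ofNat 94400640, .negSucc 228111839, .ofNat 303262080, .negSucc 167791199, .ofNat 58595520, .negSucc 10980479, .ofNat 1463040], (.tw (.dx 0 .on) (.tr (.lf 5) (.lf 11) (.tr (.lf 15) (.lf 6) (.lf 19)))), 0, [0, 0, 10, 30], [0, 19, 10, 9]⟩)
    (.lf ⟨[.ofNat 0, .negSucc 31547519, .ofNat 76742880, .negSucc 130845119, .ofNat 145663200, .negSucc 96307199, .ofNat 30503040, .negSucc 4389119], (.tw (.lf 5) (.tr (.dx 0 .on) (.tr (.lf 15) (.lf 6) (.lf 19)) (.lf 11))), 0, [32, 32, 31, 11], [29, 32, 8, 11]⟩))))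

/-- data -/
def dV0x16 : RT := (.nd (.nd (.nd (.lf ⟨[.ofNat 0, .ofNat 0, .negSucc 13040639, .ofNat 29495040, .negSucc 25731839, .ofNat 9273600, .negSucc 1463039], (.tr (.dx 0 (.tr (.lf 5) (.lf 6) (.lf 15))) (.lf 11) (.lf 19)), 0, [0, 10], []⟩)
    (.lf ⟨[.ofNat 0, .negSucc 7842239, .ofNat 67806480, .negSucc 156901919, .ofNat 97782480, .negSucc 7638719, .negSucc 9035519, .ofNat 2560320], (.tr (.dx 0 (.tw (.lf 11) (.lf 19))) (.lf 15) (.tw (.lf 5) (.lf 6))), 0, [25, 25, 25, 25], []⟩))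
    (.nd (.lf ⟨[.ofNat 0, .negSucc 7873919, .ofNat 60807840, .negSucc 145065119, .ofNat 95541120, .negSucc 10120799, .negSucc 7428959, .ofNat 2316480], (.tr (.dx 0 (.tw (.lf 15) (.lf 19))) (.lf 11) (.tw (.lf 5) (.lf 6))), 0, [9, 9, 9, 9], []⟩)
    (.lf ⟨[.ofNat 0, .ofNat 8830080, .negSucc 114069599, .ofNat 355203360, .negSucc 242828639, .negSucc 556319, .ofNat 33412800, .negSucc 9022079], (.tw (.lf 5) (.tr (.lf 19) (.dx 0 .on) (.tr (.lf 11) (.lf 6) (.lf 15)))), 0, [16, 16, 8, 24], [16, 16, 8, 24]⟩)))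
    (.nd (.nd (.lf ⟨[.ofNat 0, .negSucc 53124479, .ofNat 283783200, .negSucc 611848799, .ofNat 345274080, .ofNat 41322720, .negSucc 65838719, .ofNat 15849600], (.tw (.lf 5) (.tr (.lf 15) (.tr (.dx 0 .on) (.lf 11) (.lf 6)) (.lf 19))), 0, [24, 24, 16, 16], [24, 24, 16, 16]⟩)
    (.lf ⟨[.ofNat 0, .negSucc 4910399, .ofNat 31965360, .negSucc 71868959, .ofNat 33618480, .ofNat 10975680, .negSucc 10130879, .ofNat 2194560], (.tw (.dx 0 (.tr (.lf 11) (.tw (.lf 5) (.lf 6)) (.lf 15))) (.lf 19)), 0, [20, 20, 10, 10], []⟩))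
    (.nd (.lf ⟨[.ofNat 0, .negSucc 140057279, .ofNat 466393680, .negSucc 489558719, .ofNat 165652560, .negSucc 3058079, .negSucc 11552639, .ofNat 2072640], (.tw (.dx 0 (.tr (.lf 11) (.tw (.lf 5) (.lf 6)) (.lf 19))) (.lf 15)), 0, [20, 20, 23, 23], []⟩)
    (.lf ⟨[.ofNat 0, .ofNat 299105280, .negSucc 980036159, .ofNat 1007427600, .negSucc 362710079, .ofNat 55866960, .ofNat 670560], (.tw (.dx 0 (.tr (.lf 15) (.tw (.lf 5) (.lf 6)) (.lf 19))) (.lf 11)), 0, [10, 10, 13, 13], []⟩))))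

/-- data -/
def dV0x17 : RT := (.nd (.nd (.nd (.lf ⟨[.ofNat 0, .ofNat 21260160, .negSucc 80656799, .ofNat 165010080, .negSucc 65660639, .negSucc 45002399, .ofNat 31489920, .negSucc 6583679], (.tr (.lf 5) (.lf 15) (.tr (.tw (.dx 0 .on) (.lf 19)) (.lf 6) (.lf 11))), 0, [24, 35, 3, 31], [24, 35, 3, 24]⟩)
    (.lf ⟨[.ofNat 0, .negSucc 7709759, .ofNat 18445680, .negSucc 5774879, .ofNat 19238160, .negSucc 36445439, .ofNat 16861920, .negSucc 3169919], (.tw (.dx 0 (.tr (.tw (.lf 5) (.lf 6)) (.lf 11) (.lf 15))) (.lf 19)), 0, [0, 0, 3, 3], []⟩))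
    (.nd (.lf ⟨[.ofNat 0, .ofNat 5783040, .negSucc 34118399, .ofNat 112980960, .negSucc 48993119, .negSucc 39985439, .ofNat 27360480, .negSucc 5730239], (.tr (.dx 0 (.tw (.lf 15) (.lf 19))) (.tw (.lf 5) (.lf 6)) (.lf 11)), 0, [35, 35, 35, 35], []⟩)
    (.lf ⟨[.ofNat 0, .ofNat 15419520, .negSucc 77505119, .ofNat 194814240, .negSucc 251463839, .ofNat 158780640, .negSucc 48232319, .ofNat 6339840], (.tr (.lf 5) (.dx 0 .on) (.tr (.lf 11) (.tw (.lf 6) (.lf 15)) (.lf 19))), 0, [32, 32, 32, 32], [39, 27, 32, 32]⟩)))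
    (.nd (.nd (.lf ⟨[.ofNat 0, .ofNat 23852160, .negSucc 65844959, .ofNat 68814720, .negSucc 18720479, .negSucc 13423679, .ofNat 7810560, .negSucc 1463039], (.tr (.dx 0 (.tr (.lf 5) (.lf 6) (.lf 19))) (.lf 15) (.lf 11)), 0, [0, 7], []⟩)
    (.lf ⟨[.ofNat 0, .ofNat 2920320, .negSucc 31527839, .ofNat 54298560, .ofNat 41877600, .negSucc 103761599, .ofNat 47675520, .negSucc 8656319], (.tw (.dx 0 (.tr (.tw (.lf 5) (.lf 6)) (.lf 19) (.lf 15))) (.lf 11)), 0, [0, 0, 10, 10], []⟩))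
    (.nd (.lf ⟨[.ofNat 0, .negSucc 5840639, .ofNat 18841920, .negSucc 10302719, .negSucc 140109119, .ofNat 185191680, .negSucc 76552319, .ofNat 12923520], (.tr (.lf 5) (.lf 15) (.tr (.lf 11) (.tw (.dx 0 .on) (.lf 6)) (.lf 19))), 0, [24, 3, 35, 13], [24, 3, 35, 13]⟩)
    (.lf ⟨[.ofNat 0, .ofNat 2920320, .negSucc 28312319, .ofNat 59712360, .ofNat 20785920, .negSucc 75196439, .ofNat 35685360, .negSucc 6461759], (.tr (.dx 0 (.tw (.lf 11) (.lf 15))) (.tw (.lf 5) (.lf 6)) (.lf 19)), 0, [27, 27, 27, 27], []⟩))))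

/-- data -/
def dV0x18 : RT := (.nd (.nd (.nd (.lf ⟨[.ofNat 0, .ofNat 47496960, .negSucc 133151039, .ofNat 181378560, .ofNat 53162880, .negSucc 170340479, .ofNat 79442880, .negSucc 13898879], (.tw (.lf 5) (.tr (.dx 0 .on) (.tr (.lf 11) (.lf 6) (.lf 15)) (.lf 19))), 0, [32, 32, 11, 21], [39, 32, 16, 21]⟩)
    (.lf ⟨[.ofNat 0, .negSucc 35516159, .ofNat 98283840, .negSucc 202637759, .ofNat 51857280, .ofNat 80495040, .negSucc 48939839, .ofNat 9509760], (.tr (.dx 0 (.tr (.lf 5) (.lf 6) (.lf 15))) (.lf 19) (.lf 11)), 0, [0, 10], []⟩))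
    (.nd (.lf ⟨[.ofNat 0, .negSucc 23448959, .ofNat 221673120, .negSucc 445739519, .ofNat 308610720, .negSucc 42813119, .negSucc 16776959, .ofNat 6339840], (.tw (.lf 5) (.tr (.lf 15) (.tr (.dx 0 .on) (.lf 6) (.lf 11)) (.lf 19))), 0, [24, 3, 37, 23], [24, 3, 37, 16]⟩)
    (.lf ⟨[.ofNat 0, .ofNat 351360, .negSucc 22836959, .ofNat 29464320, .negSucc 12349919, .ofNat 2072640], (.tw (.lf 19) (.tr (.lf 5) (.lf 15) (.tr (.dx 0 .on) (.lf 6) (.lf 11)))), 0, [35, 1, 2, 25], [26, 1, 2, 25]⟩)))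
    (.nd (.nd (.lf ⟨[.ofNat 0, .ofNat 2756160, .ofNat 25237200, .negSucc 70021199, .ofNat 68054160, .negSucc 34307759, .ofNat 8559840, .negSucc 975359], (.tr (.dx 0 (.tw (.lf 11) (.lf 15))) (.lf 19) (.tw (.lf 5) (.lf 6))), 0, [17, 17, 17, 17], []⟩)
    (.lf ⟨[.ofNat 0, .negSucc 4049279, .negSucc 103186079, .ofNat 180012720, .negSucc 60566879, .negSucc 64387919, .ofNat 39890400, .negSucc 8168639], (.tr (.dx 0 (.tw (.lf 11) (.lf 19))) (.tw (.lf 5) (.lf 6)) (.lf 15)), 0, [19, 19, 19, 19], []⟩))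
    (.nd (.lf ⟨[.ofNat 0, .ofNat 31547520, .negSucc 62780639, .ofNat 113680320, .negSucc 139242719, .ofNat 95331840, .negSucc 30503039, .ofNat 4389120], (.tr (.lf 5) (.dx 0 .on) (.tr (.tw (.lf 11) (.lf 19)) (.lf 6) (.lf 15))), 0, [32, 32, 32, 32], [19, 32, 32, 29]⟩)
    (.lf ⟨[.ofNat 0, .negSucc 6575039, .ofNat 24932880, .negSucc 30484319, .ofNat 47074320, .negSucc 47280959, .ofNat 18751680, .negSucc 3169919], (.tw (.dx 0 (.tr (.tw (.lf 5) (.lf 6)) (.lf 11) (.lf 19))) (.lf 15)), 0, [0, 0, 30, 30], []⟩))))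

/-- data -/
def dV0x19 : RT := (.nd (.nd (.nd (.lf ⟨[.ofNat 0, .negSucc 15773759, .ofNat 32792880, .ofNat 85540560, .negSucc 270164399, .ofNat 252717360, .negSucc 91758719, .ofNat 14264640], (.tw (.dx 0 (.tr (.tw (.lf 5) (.lf 6)) (.lf 19) (.lf 11))) (.lf 15)), 0, [0, 0, 20, 20], []⟩)
    (.lf ⟨[.ofNat 0, .ofNat 31547520, .negSucc 41451359, .ofNat 58644000, .negSucc 79605599, .ofNat 70535520, .negSucc 26479679, .ofNat 4389120], (.tr (.lf 5) (.tr (.tw (.dx 0 .on) (.lf 6)) (.lf 11) (.lf 19)) (.lf 15)), 0, [32, 32, 16, 23], [32, 32, 16, 16]⟩))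
    (.nd (.lf ⟨[.ofNat 0, .ofNat 58613760, .negSucc 290611199, .ofNat 620820480, .negSucc 356174399, .negSucc 35727359, .ofNat 64985280, .negSucc 15849599], (.tr (.lf 5) (.tr (.tw (.lf 6) (.lf 11)) (.dx 0 .on) (.lf 15)) (.lf 19)), 0, [8, 8, 24, 24], [8, 8, 24, 24]⟩)
    (.lf ⟨[.ofNat 0, .ofNat 26504640, .negSucc 59251919, .ofNat 65736240, .ofNat 30973680, .negSucc 73719599, .ofNat 33212640, .negSucc 5730239], (.tr (.tw (.lf 5) (.lf 6)) (.dx 0 (.tw (.lf 11) (.lf 15))) (.lf 19)), 0, [32, 32, 32, 32], []⟩)))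
    (.nd (.nd (.lf ⟨[.ofNat 0, .ofNat 16128000, .negSucc 104395199, .ofNat 236348880, .negSucc 225289919, .ofNat 85550160, .negSucc 13715999], (.tr (.dx 0 (.tr (.lf 11) (.lf 5) (.lf 15))) (.lf 6) (.lf 19)), 0, [27, 10], []⟩)
    (.lf ⟨[.ofNat 0, .ofNat 0, .ofNat 138240, .ofNat 437760, .negSucc 161279], (.tr (.lf 6) (.dx 0 (.tr (.lf 5) (.lf 11) (.lf 15))) (.lf 19)), 0, [32, 3], []⟩))
    (.nd (.lf ⟨[.ofNat 0, .ofNat 0, .negSucc 138239, .negSucc 437759, .ofNat 161280], (.tr (.dx 0 (.tr (.lf 5) (.lf 15) (.lf 19))) (.lf 6) (.lf 11)), 0, [35, 35], []⟩)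
    (.lf ⟨[.ofNat 0, .ofNat 150958080, .negSucc 449448959, .ofNat 510412800, .negSucc 268245119, .ofNat 70909440, .negSucc 7559039], (.tr (.lf 6) (.dx 0 (.tr (.lf 11) (.lf 5) (.lf 15))) (.lf 19)), 0, [32, 32], []⟩))))

/-- data -/
def dV0x20 : RT := (.nd (.nd (.nd (.lf ⟨[.ofNat 0, .negSucc 68270399, .ofNat 192997360, .negSucc 197880879, .ofNat 78021040, .negSucc 14089679, .ofNat 304800], (.tw (.dx 0 (.tr (.tw (.lf 5) (.lf 6)) (.lf 15) (.lf 11))) (.lf 19)), 0, [0, 0, 3, 3], []⟩)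
    (.lf ⟨[.ofNat 0, .ofNat 59351040, .negSucc 192107519, .ofNat 262478400, .negSucc 172997759, .ofNat 53616960, .negSucc 7315199], (.tw (.dx 0 (.tr (.lf 5) (.tw (.lf 11) (.lf 15)) (.lf 6))) (.lf 19)), 0, [0, 3, 0, 3], []⟩))
    (.nd (.lf ⟨[.ofNat 0, .ofNat 0, .ofNat 10823040, .negSucc 106279199, .ofNat 132773760, .negSucc 54811679, .ofNat 9387840], (.tr (.dx 0 (.tr (.lf 5) (.lf 6) (.lf 19))) (.lf 11) (.lf 15)), 0, [0, 37], []⟩)
    (.lf ⟨[.ofNat 0, .ofNat 57686400, .negSucc 175212959, .ofNat 149568960, .ofNat 14439840, .negSucc 49785599, .ofNat 19723200, .negSucc 2438399], (.tr (.lf 11) (.dx 0 (.tr (.lf 5) (.lf 6) (.lf 19))) (.lf 15)), 0, [12, 12], []⟩)))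
    (.nd (.nd (.lf ⟨[.ofNat 0, .ofNat 53205120, .negSucc 204874079, .ofNat 315390240, .negSucc 152727839, .negSucc 19827359, .ofNat 28320000, .negSucc 6583679], (.tr (.lf 15) (.lf 5) (.tr (.tw (.lf 6) (.lf 19)) (.dx 0 .on) (.lf 11))), 0, [18, 13, 27, 17], [18, 18, 18, 17]⟩)
    (.lf ⟨[.ofNat 0, .negSucc 43240319, .ofNat 178853280, .negSucc 333278879, .ofNat 115042080, .ofNat 103677600, .negSucc 67168319, .ofNat 13655040], (.tw (.lf 19) (.tr (.lf 5) (.tr (.dx 0 .on) (.lf 11) (.lf 6)) (.lf 15))), 0, [26, 23, 9, 33], [19, 26, 9, 38]⟩))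
    (.nd (.lf ⟨[.ofNat 0, .ofNat 10414080, .negSucc 28888319, .ofNat 28272000, .negSucc 10575359, .ofNat 1706880], (.tr (.lf 11) (.dx 0 .on) (.tr (.lf 15) (.tw (.lf 5) (.lf 6)) (.lf 19))), 0, [12, 12, 19, 19], [27, 27, 19, 19]⟩)
    (.lf ⟨[.ofNat 0, .ofNat 25289280, .negSucc 309425039, .ofNat 548699160, .negSucc 42079439, .negSucc 412141319, .ofNat 212345040, .negSucc 40843199], (.tr (.dx 0 .on) (.lf 11) (.tr (.lf 15) (.tw (.lf 5) (.lf 6)) (.lf 19))), 0, [20, 20, 20, 20], [27, 27, 19, 19]⟩))))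

/-- data -/
def dV0x21 : RT := (.nd (.nd (.nd (.lf ⟨[.ofNat 0, .negSucc 15773759, .ofNat 27194160, .negSucc 54952559, .ofNat 148448640, .negSucc 157989839, .ofNat 62447280, .negSucc 10424159], (.tr (.dx 0 .on) (.tr (.tw (.lf 5) (.lf 6)) (.lf 19) (.lf 11)) (.lf 15)), 0, [0, 0, 20, 20], [0, 0, 19, 19]⟩)
    (.lf ⟨[.ofNat 0, .ofNat 8098560, .ofNat 190128960, .negSucc 399463199, .ofNat 193621440, .ofNat 95539680, .negSucc 73684799, .ofNat 16337280], (.tw (.lf 15) (.tr (.dx 0 .on) (.tr (.lf 5) (.lf 19) (.lf 11)) (.lf 6))), 0, [22, 17, 21, 1], [9, 17, 18, 18]⟩))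
    (.nd (.lf ⟨[.ofNat 0, .negSucc 9100799, .ofNat 54328320, .ofNat 236924640, .negSucc 533831519, .negSucc 45703199, .ofNat 528275040, .negSucc 260800319, .ofNat 49011840], (.tr (.dx 0 .on) (.tr (.lf 11) (.lf 15) (.lf 19)) (.lf 7)), 0, [20, 30], [17, 9]⟩)
    (.lf ⟨[.ofNat 0, .negSucc 12458879, .ofNat 25222560, .negSucc 149994719, .ofNat 465233040, .ofNat 129068640, .negSucc 646047119, .ofNat 318994080, .negSucc 60106559], (.tr (.lf 7) (.dx 0 .on) (.tr (.lf 11) (.lf 19) (.lf 15))), 0, [32, 32], [5, 32]⟩)))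
    (.nd (.nd (.lf ⟨[.ofNat 0, .ofNat 203978880, .negSucc 556416159, .ofNat 797764240, .negSucc 843213279, .ofNat 368749200, .ofNat 103428000, .negSucc 99157439, .ofNat 22433280], (.tr (.dx 0 .on) (.lf 7) (.tr (.lf 15) (.lf 11) (.lf 19))), 0, [0, 0], [0, 0]⟩)
    (.lf ⟨[.ofNat 0, .negSucc 16246079, .ofNat 40113840, .negSucc 111851519, .ofNat 157956240, .ofNat 75407040, .negSucc 221291999, .ofNat 102408480, .negSucc 18531839], (.tw (.dx 0 .on) (.tr (.lf 7) (.tw (.lf 11) (.lf 15)) (.lf 19))), 0, [0, 0, 30, 30], [0, 0, 30, 9]⟩))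
    (.nd (.lf ⟨[.ofNat 0, .negSucc 44236799, .ofNat 199305600, .negSucc 572109599, .ofNat 737474160, .negSucc 119848799, .negSucc 381949199, .ofNat 204403680, .negSucc 39623999], (.tr (.lf 7) (.tr (.dx 0 .on) (.lf 15) (.lf 19)) (.lf 11)), 0, [32, 13], [32, 13]⟩)
    (.lf ⟨[.ofNat 0, .negSucc 11980799, .ofNat 6176640, .ofNat 131285280, .negSucc 330288959, .ofNat 92436000, .ofNat 158933760, .negSucc 94465919, .ofNat 19019520], (.tr (.lf 7) (.lf 11) (.tr (.lf 15) (.dx 0 .on) (.lf 19))), 0, [3, 23], [8, 23]⟩))))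

/-- data -/
def dV0x22 : RT := (.nd (.nd (.nd (.lf ⟨[.ofNat 0, .negSucc 39623039, .ofNat 50912160, .ofNat 137460480, .negSucc 313871039, .ofNat 28589760, .ofNat 194522400, .negSucc 102229439, .ofNat 19263360], (.tr (.lf 7) (.dx 0 .on) (.tr (.lf 15) (.lf 11) (.lf 19))), 0, [32, 32], [15, 32]⟩)
    (.lf ⟨[.ofNat 0, .negSucc 16076159, .ofNat 62331360, .negSucc 75711599, .ofNat 88993440, .negSucc 62876399, .ofNat 21209760, .negSucc 3047999], (.tr (.lf 15) (.tr (.dx 0 .on) (.lf 11) (.tw (.lf 5) (.lf 6))) (.lf 19)), 0, [22, 22, 3, 3], [27, 27, 18, 18]⟩))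
    (.nd (.lf ⟨[.ofNat 0, .ofNat 0, .ofNat 2476800, .ofNat 16571520, .negSucc 24166079, .ofNat 10494720, .negSucc 1828799], (.tr (.lf 19) (.dx 0 .on) (.tr (.lf 11) (.tw (.lf 5) (.lf 6)) (.lf 15))), 0, [2, 2, 2, 2], [19, 19, 35, 35]⟩)
    (.lf ⟨[.ofNat 0, .ofNat 23483520, .ofNat 17463840, .negSucc 244776959, .ofNat 263197920, .negSucc 80504639, .ofNat 4416960, .ofNat 2438400], (.tr (.lf 11) (.lf 5) (.tr (.tw (.dx 0 .on) (.lf 15)) (.lf 19) (.lf 6))), 0, [34, 17, 34, 11], [34, 17, 34, 34]⟩)))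
    (.nd (.nd (.lf ⟨[.ofNat 0, .negSucc 99239039, .ofNat 284734560, .negSucc 542223839, .ofNat 689582880, .negSucc 203765759, .negSucc 271133759, .ofNat 161899680, .negSucc 32918399], (.tr (.dx 0 .on) (.lf 7) (.tr (.lf 11) (.lf 19) (.lf 15))), 0, [0, 0], [0, 29]⟩)
    (.lf ⟨[.ofNat 0, .ofNat 109854720, .negSucc 383285759, .ofNat 526426080, .negSucc 458410319, .ofNat 271814880, .negSucc 90586319, .ofNat 15019680, .negSucc 609599], (.tr (.lf 11) (.lf 7) (.tr (.dx 0 .on) (.lf 19) (.lf 15))), 0, [5, 31], [5, 31]⟩))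
    (.nd (.lf ⟨[.ofNat 0, .negSucc 25891199, .ofNat 130348320, .negSucc 314754719, .ofNat 428891280, .negSucc 215982239, .negSucc 45983759, .ofNat 48278880, .negSucc 11338559], (.tr (.lf 7) (.tr (.lf 11) (.dx 0 .on) (.lf 15)) (.lf 19)), 0, [8, 15], [8, 15]⟩)
    (.lf ⟨[.ofNat 0, .ofNat 52070400, .negSucc 195336959, .ofNat 360637440, .negSucc 372179519, .negSucc 140471999, .ofNat 442340160, .negSucc 204816959, .ofNat 37063680], (.tw (.lf 7) (.tr (.tw (.dx 0 .on) (.lf 15)) (.lf 19) (.lf 11))), 0, [32, 24, 23, 11], [32, 24, 23, 8]⟩))))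

/-- data -/
def dV0x23 : RT := (.nd (.nd (.nd (.lf ⟨[.ofNat 0, .ofNat 121622400, .negSucc 262584159, .negSucc 6911119, .ofNat 379664960, .ofNat 111836400, .negSucc 540219839, .ofNat 261897600, .negSucc 49011839], (.tr (.lf 7) (.tr (.lf 15) (.dx 0 .on) (.lf 19)) (.lf 11)), 0, [24, 7], [24, 7]⟩)
    (.lf ⟨[.ofNat 0, .ofNat 114336000, .negSucc 251977919, .ofNat 851466240, .negSucc 1026173279, .ofNat 290860320, .ofNat 400880160, .negSucc 230247839, .ofNat 46817280], (.tr (.lf 19) (.lf 7) (.tr (.dx 0 .on) (.lf 11) (.lf 15))), 0, [37, 21], [37, 26]⟩))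
    (.nd (.lf ⟨[.ofNat 0, .negSucc 1932479, .ofNat 148464720, .negSucc 264179999, .negSucc 72680879, .ofNat 329351040, .negSucc 157308479, .ofNat 29260800], (.tr (.lf 11) (.dx 0 .on) (.tr (.tw (.lf 5) (.lf 6)) (.lf 19) (.lf 15))), 0, [12, 12, 17, 17], [5, 5, 17, 17]⟩)
    (.lf ⟨[.ofNat 0, .negSucc 40550399, .ofNat 41026560, .negSucc 53403839, .negSucc 171727679, .ofNat 254861760, .negSucc 108565439, .ofNat 18531840], (.tw (.lf 15) (.tr (.lf 19) (.lf 5) (.tr (.lf 6) (.dx 0 .on) (.lf 11)))), 0, [13, 33, 27, 27], [4, 4, 18, 27]⟩)))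
    (.nd (.nd (.lf ⟨[.ofNat 0, .ofNat 15670080, .negSucc 84912719, .ofNat 180833400, .negSucc 118231679, .ofNat 4906200, .ofNat 12556320, .negSucc 3596639], (.tr (.dx 0 .on) (.tr (.lf 15) (.tw (.lf 5) (.lf 6)) (.lf 19)) (.lf 11)), 0, [10, 10, 30, 30], [10, 10, 7, 7]⟩)
    (.lf ⟨[.ofNat 0, .negSucc 1943999, .negSucc 15173999, .ofNat 71978400, .negSucc 160813679, .ofNat 149821920, .negSucc 54543359, .ofNat 8595360], (.tr (.lf 15) (.dx 0 .on) (.tr (.tw (.lf 5) (.lf 6)) (.lf 19) (.lf 11))), 0, [22, 22, 17, 17], [29, 29, 17, 17]⟩))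
    (.nd (.lf ⟨[.ofNat 0, .ofNat 0, .negSucc 8023679, .negSucc 34441439, .ofNat 91707120, .negSucc 86713439, .ofNat 30799920, .negSucc 4815839], (.tr (.dx 0 .on) (.lf 19) (.tr (.tw (.lf 5) (.lf 6)) (.lf 15) (.lf 11))), 0, [30, 30, 30, 30], [7, 7, 25, 25]⟩)
    (.lf ⟨[.ofNat 0, .ofNat 17591040, .negSucc 83895839, .ofNat 189583560, .ofNat 59632560, .negSucc 242703959, .ofNat 116749440, .negSucc 21457919], (.tr (.lf 19) (.dx 0 .on) (.tr (.tw (.lf 5) (.lf 6)) (.lf 15) (.lf 11))), 0, [2, 2, 25, 25], [2, 2, 25, 25]⟩))))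

/-- data -/
def dV0x24 : RT := (.nd (.nd (.nd (.lf ⟨[.ofNat 0, .ofNat 0, .negSucc 7505279, .negSucc 6412319, .ofNat 120642720, .negSucc 154746239, .ofNat 63394080, .negSucc 10789919], (.tr (.lf 19) (.lf 11) (.tr (.dx 0 .on) (.lf 15) (.tw (.lf 5) (.lf 6)))), 0, [25, 25, 11, 11], [25, 25, 11, 11]⟩)
    (.lf ⟨[.ofNat 0, .ofNat 1944000, .ofNat 25084080, .negSucc 67568399, .ofNat 117551520, .negSucc 94430159, .ofNat 32771280, .negSucc 4876799], (.tr (.lf 11) (.lf 19) (.tr (.tw (.lf 5) (.lf 6)) (.dx 0 .on) (.lf 15))), 0, [23, 23, 33, 33], [28, 28, 33, 33]⟩))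
    (.nd (.lf ⟨[.ofNat 0, .negSucc 3887999, .negSucc 74440799, .ofNat 120453600, .negSucc 97799519, .ofNat 23878560, .negSucc 196799, .negSucc 1219199], (.tw (.lf 19) (.tr (.dx 0 .on) (.lf 5) (.tr (.lf 6) (.lf 15) (.lf 11)))), 0, [2, 2, 1, 1], [2, 2, 1, 1]⟩)
    (.lf ⟨[.ofNat 0, .negSucc 1097279, .ofNat 110093520, .negSucc 359585159, .ofNat 157155360, .ofNat 137863800, .negSucc 92782559, .ofNat 19629120], (.tr (.lf 19) (.lf 15) (.tr (.dx 0 .on) (.tw (.lf 5) (.lf 6)) (.lf 11))), 0, [35, 35, 1, 1], [35, 35, 1, 1]⟩)))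
    (.nd (.nd (.lf ⟨[.ofNat 0, .ofNat 1097280, .negSucc 98849999, .ofNat 339390600, .negSucc 141018719, .negSucc 143395319, .ofNat 93636000, .negSucc 19629119], (.tr (.dx 0 .on) (.tr (.tw (.lf 5) (.lf 6)) (.lf 11) (.lf 15)) (.lf 19)), 0, [0, 0, 10, 10], [0, 0, 27, 27]⟩)
    (.lf ⟨[.ofNat 0, .ofNat 25179840, .negSucc 42140879, .negSucc 86184479, .ofNat 166770000, .negSucc 95619839, .ofNat 24660960, .negSucc 2438399], (.tr (.lf 11) (.dx 0 .on) (.tr (.tw (.lf 5) (.lf 6)) (.lf 15) (.lf 19))), 0, [12, 12, 25, 25], [12, 12, 25, 25]⟩))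
    (.nd (.lf ⟨[.ofNat 0, .negSucc 46713599, .ofNat 277194240, .negSucc 527675279, .ofNat 123876960, .ofNat 279078000, .negSucc 158010239, .ofNat 31333440], (.tr (.lf 5) (.lf 6) (.tr (.lf 11) (.dx 0 .on) (.tw (.lf 15) (.lf 19)))), 0, [8, 8, 24, 16], [8, 8, 24, 16]⟩)
    (.lf ⟨[.ofNat 0, .negSucc 21260159, .ofNat 26299680, .ofNat 111787200, .negSucc 206461919, .ofNat 128586240, .negSucc 36842879, .ofNat 4389120], (.tr (.lf 19) (.lf 5) (.tr (.lf 6) (.dx 0 .on) (.tw (.lf 11) (.lf 15)))), 0, [26, 26, 33, 33], [26, 26, 33, 26]⟩))))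

/-- data -/
def dV0 : RT := (.nd (.nd (.nd (.nd dV0x0 (.nd dV0x1 dV0x2)) (.nd dV0x3 (.nd dV0x4 dV0x5))) (.nd (.nd dV0x6 (.nd dV0x7 dV0x8)) (.nd dV0x9 (.nd dV0x10 dV0x11)))) (.nd (.nd (.nd dV0x12 (.nd dV0x13 dV0x14)) (.nd dV0x15 (.nd dV0x16 dV0x17))) (.nd (.nd dV0x18 (.nd dV0x19 dV0x20)) (.nd (.nd dV0x21 dV0x22) (.nd dV0x23 dV0x24)))))

/-- data -/
def lV0x0 : List (ℕ × List ℤ) := [(5349, [.ofNat 0, .ofNat 0, .negSucc 42370559, .ofNat 118381440, .negSucc 224892959, .ofNat 247438080, .negSucc 160943519, .ofNat 50879040, .negSucc 7315199]),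
  (5356, [.ofNat 0, .ofNat 0, .negSucc 202803839, .ofNat 552055840, .negSucc 886030959, .ofNat 694201120, .negSucc 331450799, .ofNat 87212640, .negSucc 11460479]),
  (5405, [.ofNat 0, .ofNat 0, .negSucc 356117759, .ofNat 1010409920, .negSucc 1504946239, .ofNat 1042217600, .negSucc 427323839, .ofNat 97149120, .negSucc 11460479]),
  (5468, [.ofNat 0, .ofNat 0, .negSucc 156527999, .ofNat 346516960, .negSucc 569939439, .ofNat 482920480, .negSucc 236132399, .ofNat 60327840, .negSucc 7315199]),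
  (38117, [.ofNat 0, .negSucc 41592959, .ofNat 130345440, .negSucc 131548799, .ofNat 50412000, .negSucc 8168639]),
  (38124, [.ofNat 0, .ofNat 10615680, .negSucc 98551199, .negSucc 15797759, .ofNat 231172560, .ofNat 68049120, .negSucc 361720079, .ofNat 176919360, .negSucc 33527999]),
  (38173, [.ofNat 0, .ofNat 171486720, .negSucc 515258559, .ofNat 691684720, .negSucc 771331119, .ofNat 165195120, .ofNat 335112240, .negSucc 193381919, .ofNat 38039040]),
  (38187, [.ofNat 0, .negSucc 47168639, .ofNat 89397600, .negSucc 165539039, .ofNat 386286240, .negSucc 527651999, .ofNat 344633280, .negSucc 104517119, .ofNat 13776960]),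
  (38236, [.ofNat 0, .ofNat 194878080, .negSucc 505941279, .ofNat 717791440, .negSucc 495510879, .ofNat 62490000, .ofNat 126300960, .negSucc 64596479, .ofNat 11460480]),
  (38243, [.ofNat 0, .ofNat 114336000, .negSucc 154685759, .ofNat 148320, .ofNat 557537280, .ofNat 188468160, .negSucc 815977919, .ofNat 400389600, .negSucc 74371199]),
  (41701, [.ofNat 0, .ofNat 0, .ofNat 5618880, .ofNat 4396080, .negSucc 5146559, .ofNat 786480, .negSucc 182879]),
  (41708, [.ofNat 0, .ofNat 32624640, .negSucc 89787199, .negSucc 88709199, .ofNat 219981760, .negSucc 100314959, .ofNat 18105120]),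
  (41757, [.ofNat 0, .ofNat 96480000, .negSucc 323058239, .ofNat 272261760, .negSucc 52040639, .negSucc 8417279, .ofNat 4145280]),
  (41771, [.ofNat 0, .ofNat 186134400, .negSucc 514067039, .ofNat 362764080, .ofNat 23644320, .negSucc 59105039, .ofNat 15666720]),
  (41820, [.ofNat 0, .ofNat 14981760, .negSucc 103621919, .ofNat 99176400, .negSucc 28242719, .negSucc 1367279, .ofNat 1402080]),
  (41827, [.ofNat 0, .negSucc 51102719, .ofNat 98216960, .negSucc 67603519, .ofNat 15962240, .ofNat 1606080, .negSucc 975359]),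
  (42213, [.ofNat 0, .ofNat 0, .negSucc 47957759, .ofNat 409622400, .negSucc 604184879, .negSucc 417482399, .ofNat 1052371920, .negSucc 477606719, .ofNat 86197440]),
  (42220, [.ofNat 0, .negSucc 83859839, .ofNat 127800480, .ofNat 226664640, .negSucc 326559119, .negSucc 147532319, .ofNat 377541840, .negSucc 165270719, .ofNat 28651200]),
  (42269, [.ofNat 0, .ofNat 35464320, .negSucc 158304479, .ofNat 161133120, .ofNat 140595360, .negSucc 138224639, .negSucc 56342399, .ofNat 51920640, .negSucc 12191999]),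
  (42283, [.ofNat 0, .negSucc 39623039, .ofNat 121391520, .negSucc 76945919, .negSucc 9197279, .ofNat 13926720, .negSucc 3657599]),
  (42332, [.ofNat 0, .negSucc 12458879, .ofNat 54575520, .negSucc 11636639, .negSucc 136786079, .ofNat 162540960, .negSucc 64266239, .ofNat 10485120]),
  (42339, [.ofNat 0, .negSucc 11980799, .ofNat 81569280, .negSucc 172230719, .ofNat 154413120, .negSucc 200592959, .ofNat 181008960, .negSucc 69717119, .ofNat 11460480]),
  (42597, [.ofNat 0, .ofNat 0, .negSucc 24157439, .negSucc 30925439, .ofNat 60140160, .negSucc 26292479, .ofNat 4632960]),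
  (42604, [.ofNat 0, .ofNat 103593600, .negSucc 335378399, .ofNat 561304800, .negSucc 682227359, .ofNat 233915040, .ofNat 215825280, .negSucc 138733439, .ofNat 28773120]),
  (42661, [.ofNat 0, .ofNat 0, .negSucc 216440639, .ofNat 648122160, .negSucc 654546239, .ofNat 247268400, .negSucc 40416479]),
  (42668, [.ofNat 0, .ofNat 0, .negSucc 6399359, .negSucc 43181279, .ofNat 75874560, .negSucc 32744159, .ofNat 6461760]),
  (42725, [.ofNat 0, .ofNat 83963520, .negSucc 284277599, .ofNat 381496800, .negSucc 391185839, .ofNat 292296000, .negSucc 146382479, .ofNat 38185920, .negSucc 4754879]),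
  (42732, [.ofNat 0, .ofNat 173692800, .negSucc 489215199, .ofNat 591149200, .negSucc 488130639, .negSucc 204862319, .ofNat 562358640, .negSucc 259465439, .ofNat 46329600]),
  (42765, [.ofNat 0, .ofNat 0, .ofNat 52542720, .negSucc 43559999, .ofNat 6551040, .ofNat 2639040, .negSucc 1219199]),
  (42773, [.ofNat 0, .negSucc 15108479, .negSucc 87375839, .ofNat 294313440, .negSucc 303302879, .ofNat 112321440, .negSucc 17922239]),
  (42781, [.ofNat 0, .negSucc 51102719, .negSucc 187778559, .ofNat 672564160, .negSucc 698083839, .ofNat 266543040, .negSucc 43647359]),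
  (42794, [.ofNat 0, .ofNat 0, .ofNat 58032000, .negSucc 44748959, .ofNat 593280, .ofNat 5681760, .negSucc 1828799]),
  (42795, [.ofNat 0, .ofNat 103593600, .negSucc 315719519, .ofNat 281306880, .negSucc 69247199, .ofNat 1483200, .ofNat 3657600]),
  (42828, [.ofNat 0, .ofNat 0, .ofNat 11030400, .negSucc 48130079, .ofNat 53815680, .negSucc 21457439, .ofNat 3535680]),
  (42844, [.ofNat 0, .ofNat 28719360, .negSucc 195017599, .ofNat 308891600, .negSucc 213887359, .ofNat 65543760, .negSucc 9326879]),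
  (42850, [.ofNat 0, .ofNat 285822720, .negSucc 867437759, .ofNat 864683040, .negSucc 302312639, .ofNat 42070560, .ofNat 2316480]),
  (43115, [.ofNat 0, .ofNat 0, .negSucc 42220799, .negSucc 8150399, .ofNat 53370240, .negSucc 27010559, .ofNat 5120640]),
  (43165, [.ofNat 0, .ofNat 182229120, .negSucc 596867999, .ofNat 732543120, .negSucc 396930719, .ofNat 103623120, .negSucc 11521439]),
  (43213, [.ofNat 0, .ofNat 285822720, .negSucc 852864959, .ofNat 847260000, .negSucc 288930239, .ofNat 37734240, .ofNat 3048000]),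
  (43221, [.ofNat 0, .negSucc 15108479, .negSucc 135062879, .ofNat 607497600, .negSucc 936884639, .ofNat 351312960, .ofNat 193513920, .negSucc 138733439, .ofNat 28773120]),
  (43244, [.ofNat 0, .negSucc 77431679, .ofNat 406814880, .negSucc 722304479, .ofNat 589711200, .negSucc 348860639, .ofNat 202832640, .negSucc 69717119, .ofNat 11460480]),
  (43293, [.ofNat 0, .ofNat 235958400, .negSucc 520506399, .ofNat 590880880, .ofNat 107624480, .ofNat 386246160, .negSucc 861663839, .ofNat 405510240, .negSucc 74371199]),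
  (43339, [.ofNat 0, .ofNat 0, .ofNat 52784640, .negSucc 121261439, .ofNat 110292480, .negSucc 40268159, .ofNat 6339840]),
  (43347, [.ofNat 0, .ofNat 0, .ofNat 98616960, .negSucc 75393119, .ofNat 10831680, .negSucc 137962079, .ofNat 170158080, .negSucc 69717119, .ofNat 11460480]),
  (43356, [.ofNat 0, .negSucc 77431679, .ofNat 425385120, .negSucc 680824799, .ofNat 514953120, .negSucc 173445599, .ofNat 25237440]),
  (43683, [.ofNat 0, .negSucc 81498239, .ofNat 252377760, .negSucc 400800719, .ofNat 306180000, .negSucc 106959119, .ofNat 17129760]),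
  (43795, [.ofNat 0, .ofNat 0, .ofNat 149132160, .negSucc 142440479, .ofNat 46346880, .negSucc 3920159, .negSucc 853439]),
  (43868, [.ofNat 0, .negSucc 25891199, .ofNat 99008160, .negSucc 128881919, .ofNat 136107360, .negSucc 162933119, .ofNat 117630720, .negSucc 38433599, .ofNat 5486400]),
  (304357, [.ofNat 0, .ofNat 0, .ofNat 22487040, .negSucc 40389119, .ofNat 32273280, .negSucc 11063039, .ofNat 1706880]),
  (304413, [.ofNat 0, .ofNat 0, .negSucc 24272639, .negSucc 14683199, .ofNat 137303520, .negSucc 164981759, .ofNat 65345760, .negSucc 10972799]),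
  (304476, [.ofNat 0, .ofNat 0, .ofNat 12936960, .negSucc 51261119, .ofNat 217291680, .negSucc 245444159, .ofNat 98414880, .negSucc 16459199]),
  (304805, [.ofNat 0, .ofNat 302996160, .negSucc 942286799, .ofNat 979955520, .negSucc 363264719, .ofNat 59314080]),
  (304812, [.ofNat 0, .ofNat 38810880, .negSucc 72150719, .ofNat 60153600, .negSucc 17837759, .ofNat 2682240]),
  (304869, [.ofNat 0, .ofNat 31340160, .negSucc 184835999, .ofNat 348842160, .ofNat 4822080, .negSucc 299680079, .ofNat 151900800, .negSucc 28773119]),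
  (304876, [.ofNat 0, .ofNat 0, .negSucc 15010559, .negSucc 12824639, .ofNat 241285440, .negSucc 309492479, .ofNat 126788160, .negSucc 21579839]),
  (304917, [.ofNat 0, .ofNat 120309120, .negSucc 218239199, .ofNat 45985200, .ofNat 69971040, .ofNat 20630640, .negSucc 25376159, .ofNat 7071360]),
  (304925, [.ofNat 0, .negSucc 246309119, .ofNat 745522240, .negSucc 764637279, .ofNat 272400640, .negSucc 44195999]),
  (304933, [.ofNat 0, .ofNat 31340160, .negSucc 214551839, .ofNat 332523600, .ofNat 278353920, .negSucc 649539119, .ofNat 293128320, .negSucc 52669439]),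
  (304939, [.ofNat 0, .ofNat 47168640, .negSucc 15755999, .negSucc 141386879, .ofNat 173436960, .negSucc 52989119, .ofNat 1451520, .ofNat 2194560]),
  (304940, [.ofNat 0, .ofNat 0, .negSucc 783359, .ofNat 645120]),
  (304980, [.ofNat 0, .ofNat 5512320, .ofNat 6174240, .ofNat 5310720, .negSucc 19304159, .ofNat 10447680, .negSucc 1950719]),
  (304988, [.ofNat 0, .negSucc 5512319, .negSucc 12740639, .ofNat 20714880, .negSucc 9000479, .ofNat 1584960]),
  (304995, [.ofNat 0, .ofNat 31812480, .ofNat 2461920, .negSucc 132425279, .ofNat 248727840, .negSucc 185617919, .ofNat 61371840, .negSucc 8778239]),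
  (304997, [.ofNat 0, .negSucc 317246399, .ofNat 988644240, .negSucc 1001156159, .ofNat 361783440, .negSucc 58094879]),
  (305309, [.ofNat 0, .ofNat 697343040, .negSucc 2250931439, .ofNat 2332480320, .negSucc 853236719, .ofNat 138562080]),
  (305323, [.ofNat 0, .ofNat 44282880, .negSucc 102305279, .ofNat 100815360, .negSucc 35735039, .ofNat 5852160]),
  (305365, [.ofNat 0, .ofNat 71020800, .negSucc 127297919, .ofNat 44135760, .ofNat 52024320, .negSucc 31621679, .ofNat 6522720]),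
  (305373, [.ofNat 0, .ofNat 58665600, .negSucc 150327839, .ofNat 134390160, .ofNat 382463040, .negSucc 565912559, .ofNat 237915840, .negSucc 40477439]),
  (305381, [.ofNat 0, .negSucc 110920319, .ofNat 257132000, .negSucc 243220639, .ofNat 109260320, .negSucc 18105119]),
  (305388, [.ofNat 0, .ofNat 5512320, .ofNat 50474400, .negSucc 140042399, .ofNat 136108320, .negSucc 68615519, .ofNat 17119680, .negSucc 1950719]),
  (305389, [.ofNat 0, .ofNat 0, .negSucc 16047359, .negSucc 68882879, .ofNat 183414240, .negSucc 173426879, .ofNat 61599840, .negSucc 9631679]),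
  (305491, [.ofNat 0, .ofNat 53009280, .negSucc 118503839, .ofNat 131472480, .ofNat 61947360, .negSucc 147439199, .ofNat 66425280, .negSucc 11460479]),
  (305500, [.ofNat 0, .ofNat 53009280, .negSucc 82676639, .ofNat 41336160, .ofNat 189271200, .negSucc 238955999, .ofNat 96562560, .negSucc 15849599]),
  (305501, [.ofNat 0, .negSucc 665962559, .ofNat 2170717680, .negSucc 2230378559, .ofNat 802683120, .negSucc 126454559, .negSucc 975359]),
  (305507, [.ofNat 0, .ofNat 10039680, .ofNat 7609440, .negSucc 17485439, .ofNat 11541600, .negSucc 1828799]),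
  (305820, [.ofNat 0, .ofNat 31380480, .negSucc 80213759, .ofNat 91388160, .negSucc 37182719, .ofNat 6339840]),
  (305827, [.ofNat 0, .negSucc 961660799, .ofNat 2930644000, .negSucc 2989915839, .ofNat 1093209760, .negSucc 178003199]),
  (305876, [.ofNat 0, .ofNat 31812480, .negSucc 115410719, .ofNat 212061120, .negSucc 103238879, .negSucc 33488639, .ofNat 30475200, .negSucc 6827519]),
  (305884, [.ofNat 0, .ofNat 5840640, .negSucc 4787519, .negSucc 21263039, .ofNat 175379520, .negSucc 198952319, .ofNat 78583680, .negSucc 12801599]),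
  (305891, [.ofNat 0, .ofNat 1008385920, .negSucc 3089289759, .ofNat 3152854720, .negSucc 1154219679, .ofNat 187756800]),
  (305893, [.ofNat 0, .ofNat 47105280, .negSucc 29753279, .negSucc 117713279, .ofNat 168954240, .negSucc 57953279, .ofNat 4664640, .ofNat 1706880]),
  (305900, [.ofNat 0, .negSucc 5512319, .negSucc 12740639, .ofNat 20714880, .negSucc 9000479, .ofNat 1584960]),
  (305939, [.ofNat 0, .ofNat 53009280, .negSucc 118503839, .ofNat 131472480, .ofNat 61947360, .negSucc 147439199, .ofNat 66425280, .negSucc 11460479]),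
  (305949, [.ofNat 0, .ofNat 5512320, .ofNat 40958880, .negSucc 125120159, .ofNat 125421600, .negSucc 65243999, .ofNat 16632000, .negSucc 1950719]),
  (305955, [.ofNat 0, .ofNat 0, .negSucc 44726399, .ofNat 41363040, .negSucc 105643679, .ofNat 113497440, .negSucc 47937119, .ofNat 8168640]),
  (305963, [.ofNat 0, .negSucc 152703359, .ofNat 364144800, .negSucc 341813759, .ofNat 126782880, .negSucc 20360639]),
  (306012, [.ofNat 0, .ofNat 0, .negSucc 20436479, .ofNat 52650240, .negSucc 170304479, .ofNat 183413760, .negSucc 73480799, .ofNat 12313920]),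
  (306019, [.ofNat 0, .negSucc 46713599, .ofNat 277194240, .negSucc 527675279, .ofNat 123876960, .ofNat 279078000, .negSucc 158010239, .ofNat 31333440]),
  (333548, [.ofNat 0, .ofNat 16128000, .negSucc 77838719, .ofNat 150912000, .negSucc 129914879, .ofNat 47253120, .negSucc 7315199]),
  (333605, [.ofNat 0, .ofNat 597047040, .negSucc 1863926079, .ofNat 1891703680, .negSucc 702144639, .ofNat 144773760, .negSucc 15090239, .ofNat 2438400]),
  (333676, [.ofNat 0, .negSucc 37722239, .ofNat 111587040, .negSucc 106990079, .ofNat 41372640, .negSucc 6461759]),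
  (334045, [.ofNat 0, .negSucc 637079039, .ofNat 2062577280, .negSucc 2125378559, .ofNat 780547200, .negSucc 126309119]),
  (334059, [.ofNat 0, .ofNat 0, .ofNat 0, .ofNat 5356800, .negSucc 6685439, .ofNat 2883840, .negSucc 487679]),
  (334060, [.ofNat 0, .ofNat 0, .negSucc 16479359, .ofNat 20158560, .negSucc 9404159, .ofNat 2052960, .negSucc 121919]),
  (334109, [.ofNat 0, .ofNat 0, .ofNat 19604160, .ofNat 17421360, .negSucc 44567999, .ofNat 21530160, .negSucc 4084319]),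
  (334123, [.ofNat 0, .ofNat 49685760, .negSucc 122693759, .ofNat 176749200, .negSucc 124174079, .ofNat 40742160, .negSucc 5913119]),
  (334187, [.ofNat 0, .ofNat 59650560, .negSucc 114664319, .ofNat 78255360, .negSucc 36517439, .ofNat 30061440, .negSucc 12895679, .ofNat 2438400]),
  (334611, [.ofNat 0, .ofNat 0, .ofNat 138240, .ofNat 437760, .negSucc 161279]),
  (334621, [.ofNat 0, .negSucc 3905279, .negSucc 4079039, .ofNat 5721600, .negSucc 4401599, .ofNat 975360]),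
  (334691, [.ofNat 0, .ofNat 0, .negSucc 78232319, .ofNat 121759680, .negSucc 32507519, .negSucc 49275839, .ofNat 28477440, .negSucc 5608319])]

/-- data -/
def lV0x1 : List (ℕ × List ℤ) := [(336613, [.ofNat 0, .ofNat 0, .ofNat 34433280, .negSucc 79638719, .ofNat 78821760, .negSucc 29127359, .ofNat 4876800]),
  (336620, [.ofNat 0, .ofNat 0, .ofNat 25459200, .negSucc 81582719, .ofNat 84403200, .negSucc 32622719, .ofNat 5364480]),
  (336669, [.ofNat 0, .ofNat 0, .ofNat 6321600, .ofNat 4558320, .negSucc 17207999, .ofNat 10022640, .negSucc 1889759]),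
  (336683, [.ofNat 0, .ofNat 102574080, .negSucc 276994559, .ofNat 325918080, .negSucc 132993599, .negSucc 1125119, .ofNat 13548480, .negSucc 2926079]),
  (336732, [.ofNat 0, .ofNat 0, .negSucc 49204799, .ofNat 87842160, .negSucc 3580799, .negSucc 68768399, .ofNat 34842720, .negSucc 6583679]),
  (337509, [.ofNat 0, .ofNat 0, .negSucc 783359, .ofNat 645120]),
  (337516, [.ofNat 0, .ofNat 23448960, .negSucc 327190559, .ofNat 646586400, .negSucc 421823519, .ofNat 24344160, .ofNat 40255680, .negSucc 11948159]),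
  (337644, [.ofNat 0, .ofNat 29099520, .negSucc 22045439, .negSucc 219549599, .ofNat 335776320, .negSucc 185801759, .ofNat 47736960, .negSucc 4876799]),
  (337677, [.ofNat 0, .ofNat 0, .negSucc 40613759, .ofNat 183264480, .negSucc 212987519, .ofNat 85889760, .negSucc 14508479]),
  (337693, [.ofNat 0, .ofNat 542540160, .negSucc 1827856799, .ofNat 1924872960, .negSucc 724524959, .ofNat 124906560, .negSucc 1950719]),
  (337701, [.ofNat 0, .ofNat 20828160, .negSucc 57776639, .ofNat 56544000, .negSucc 21150719, .ofNat 3413760]),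
  (337707, [.ofNat 0, .ofNat 0, .negSucc 5656319, .ofNat 84847680, .negSucc 105294719, .ofNat 43356480, .negSucc 7315199]),
  (337740, [.ofNat 0, .ofNat 18397440, .negSucc 12914879, .ofNat 52711680, .negSucc 45094079, .ofNat 769920, .ofNat 7000320, .negSucc 1950719]),
  (337756, [.ofNat 0, .ofNat 647562240, .negSucc 2065551359, .ofNat 2059797600, .negSucc 685059839, .ofNat 87677280, .ofNat 6705600]),
  (337763, [.ofNat 0, .ofNat 11566080, .negSucc 68236799, .ofNat 225961920, .negSucc 97986239, .negSucc 79970879, .ofNat 54720960, .negSucc 11460479]),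
  (337772, [.ofNat 0, .negSucc 1359359, .ofNat 40865280, .negSucc 112767839, .ofNat 119150400, .negSucc 38488799, .ofNat 3571200, .ofNat 975360]),
  (338013, [.ofNat 0, .ofNat 0, .ofNat 921600, .ofNat 12330240, .negSucc 19311359, .ofNat 8298240, .negSucc 1463039]),
  (338027, [.ofNat 0, .ofNat 43528320, .negSucc 97647839, .ofNat 92421120, .negSucc 34222559, .ofNat 5486400]),
  (338125, [.ofNat 0, .negSucc 136540799, .ofNat 385994720, .negSucc 395761759, .ofNat 156042080, .negSucc 28179359, .ofNat 609600]),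
  (338141, [.ofNat 0, .negSucc 8668799, .ofNat 147080160, .negSucc 363057119, .ofNat 392852640, .negSucc 185267999, .ofNat 43178880, .negSucc 3657599]),
  (338149, [.ofNat 0, .ofNat 13426560, .ofNat 140783200, .negSucc 212934879, .ofNat 96680800, .negSucc 22227359, .ofNat 1828800]),
  (338156, [.ofNat 0, .ofNat 5840640, .negSucc 56624639, .ofNat 119424720, .ofNat 41571840, .negSucc 150392879, .ofNat 71370720, .negSucc 12923519]),
  (338205, [.ofNat 0, .ofNat 29099520, .negSucc 57982079, .negSucc 60581759, .ofNat 127078080, .negSucc 62653439, .ofNat 12479040, .negSucc 487679]),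
  (338219, [.ofNat 0, .negSucc 106225919, .ofNat 405282240, .negSucc 523380479, .negSucc 695279039, .ofNat 1297011840, .negSucc 568590719, .ofNat 99974400]),
  (338251, [.ofNat 0, .negSucc 21260159, .ofNat 26299680, .ofNat 111787200, .negSucc 206461919, .ofNat 128586240, .negSucc 36842879, .ofNat 4389120]),
  (338268, [.ofNat 0, .ofNat 0, .negSucc 37782719, .ofNat 109122000, .negSucc 98537279, .ofNat 34798800, .negSucc 5181599]),
  (338275, [.ofNat 0, .negSucc 595503359, .ofNat 1767199680, .negSucc 1802331839, .ofNat 678323520, .negSucc 110581439]),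
  (338524, [.ofNat 0, .negSucc 40550399, .ofNat 51849600, .negSucc 159683039, .negSucc 38953919, .ofNat 200050080, .negSucc 99177599, .ofNat 18531840]),
  (338531, [.ofNat 0, .ofNat 43528320, .negSucc 97647839, .ofNat 111728640, .negSucc 101979359, .ofNat 78694080, .negSucc 28147199, .ofNat 4632960]),
  (338636, [.ofNat 0, .ofNat 0, .ofNat 2805120, .ofNat 284761440, .negSucc 679571519, .ofNat 600766560, .negSucc 214020479, .ofNat 32918400]),
  (338652, [.ofNat 0, .ofNat 0, .ofNat 4953600, .ofNat 33143040, .negSucc 48332159, .ofNat 20989440, .negSucc 3657599]),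
  (338661, [.ofNat 0, .ofNat 0, .negSucc 26150399, .negSucc 27070079, .ofNat 107871360, .negSucc 101053439, .ofNat 36524160, .negSucc 5608319]),
  (338668, [.ofNat 0, .ofNat 113287680, .negSucc 281489279, .ofNat 280742400, .negSucc 103950719, .ofNat 17068800]),
  (338699, [.ofNat 0, .ofNat 0, .negSucc 114261119, .ofNat 415198560, .negSucc 374170559, .ofNat 79843680, .ofNat 10275840, .negSucc 6583679]),
  (338717, [.ofNat 0, .ofNat 0, .negSucc 16243199, .negSucc 39437759, .ofNat 72487680, .negSucc 33236159, .ofNat 6096000]),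
  (338787, [.ofNat 0, .ofNat 0, .ofNat 19820160, .ofNat 8820000, .negSucc 86524319, .ofNat 110783520, .negSucc 43544159, .ofNat 7437120]),
  (341261, [.ofNat 0, .ofNat 633813120, .negSucc 2060356319, .ofNat 2139199680, .negSucc 787106399, .ofNat 129653760, .negSucc 487679]),
  (341324, [.ofNat 0, .ofNat 62300160, .negSucc 133032959, .ofNat 129216000, .negSucc 43752959, .ofNat 7071360]),
  (341347, [.ofNat 0, .ofNat 0, .negSucc 138239, .negSucc 437759, .ofNat 161280]),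
  (341605, [.ofNat 0, .ofNat 0, .ofNat 6508800, .ofNat 1907520, .negSucc 8056319, .ofNat 4027200, .negSucc 731519]),
  (341612, [.ofNat 0, .ofNat 0, .negSucc 13040639, .ofNat 29495040, .negSucc 25731839, .ofNat 9273600, .negSucc 1463039]),
  (341669, [.ofNat 0, .ofNat 0, .ofNat 23281920, .negSucc 105643199, .ofNat 104117760, .negSucc 33781439, .ofNat 1864320, .ofNat 975360]),
  (341773, [.ofNat 0, .ofNat 603699840, .negSucc 1966900319, .ofNat 2023826880, .negSucc 736320479, .ofNat 117329280, .ofNat 487680]),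
  (341781, [.ofNat 0, .negSucc 114445439, .ofNat 166005600, .negSucc 71652959, .ofNat 44102880, .negSucc 90721439, .ofNat 44546880, .negSucc 8778239]),
  (341802, [.ofNat 0, .ofNat 0, .negSucc 24923519, .ofNat 143157600, .negSucc 167293439, .ofNat 67298400, .negSucc 11338559]),
  (341836, [.ofNat 0, .ofNat 11439360, .negSucc 16726079, .ofNat 21272160, .ofNat 1576320, .negSucc 23051039, .ofNat 11228160, .negSucc 2194559]),
  (341844, [.ofNat 0, .ofNat 351360, .negSucc 22836959, .ofNat 29464320, .negSucc 12349919, .ofNat 2072640]),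
  (341858, [.ofNat 0, .negSucc 113057279, .ofNat 403458560, .negSucc 640538719, .ofNat 419240000, .negSucc 108683999, .ofNat 5026560, .ofNat 2438400]),
  (342157, [.ofNat 0, .ofNat 118702080, .negSucc 384215039, .ofNat 524956800, .negSucc 345995519, .ofNat 107233920, .negSucc 14630399]),
  (342221, [.ofNat 0, .negSucc 993991679, .ofNat 2976357760, .negSucc 3025496799, .ofNat 1105095040, .negSucc 179242079, .negSucc 121919]),
  (342250, [.ofNat 0, .ofNat 552441600, .negSucc 1776889919, .ofNat 1840174080, .negSucc 674049599, .ofNat 109728000]),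
  (342285, [.ofNat 0, .ofNat 0, .ofNat 24134400, .ofNat 229725120, .negSucc 619934399, .ofNat 575970240, .negSucc 209997119, .ofNat 32918400]),
  (342314, [.ofNat 0, .ofNat 598210560, .negSucc 1960072319, .ofNat 2014855200, .negSucc 725420159, .ofNat 111733920, .ofNat 1341120]),
  (342315, [.ofNat 0, .ofNat 0, .negSucc 105517439, .ofNat 200846880, .negSucc 113212799, .negSucc 18468959, .ofNat 23478720, .negSucc 5608319]),
  (342362, [.ofNat 0, .ofNat 118702080, .negSucc 384215039, .ofNat 524956800, .negSucc 345995519, .ofNat 107233920, .negSucc 14630399]),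
  (342370, [.ofNat 0, .negSucc 1186254719, .ofNat 3569610400, .negSucc 3622318239, .ofNat 1329298720, .negSucc 215574239, .negSucc 121919]),
  (342620, [.ofNat 0, .ofNat 16128000, .negSucc 104395199, .ofNat 236348880, .negSucc 225289919, .ofNat 85550160, .negSucc 13715999]),
  (342754, [.ofNat 0, .ofNat 682698240, .negSucc 2261423999, .ofNat 2355772800, .negSucc 854520959, .ofNat 138988800]),
  (342826, [.ofNat 0, .negSucc 424932479, .ofNat 1254529760, .negSucc 1247413759, .ofNat 471496160, .negSucc 76931519]),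
  (342882, [.ofNat 0, .negSucc 280114559, .ofNat 932787360, .negSucc 979117439, .ofNat 331305120, .negSucc 6116159, .negSucc 23105279, .ofNat 4145280]),
  (344915, [.ofNat 0, .ofNat 150958080, .negSucc 449448959, .ofNat 510412800, .negSucc 268245119, .ofNat 70909440, .negSucc 7559039]),
  (345293, [.ofNat 0, .ofNat 682698240, .negSucc 2267518079, .ofNat 2363898240, .negSucc 857665919, .ofNat 139232640]),
  (345419, [.ofNat 0, .ofNat 95385600, .negSucc 193068799, .ofNat 167945600, .negSucc 53791999, .ofNat 6652800, .ofNat 487680]),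
  (345772, [.ofNat 0, .ofNat 16128000, .negSucc 104395199, .ofNat 236348880, .negSucc 225289919, .ofNat 85550160, .negSucc 13715999]),
  (345805, [.ofNat 0, .ofNat 0, .negSucc 44213759, .ofNat 98294400, .negSucc 56353919, .negSucc 22331519, .ofNat 18798720, .negSucc 4389119]),
  (345813, [.ofNat 0, .negSucc 43418879, .negSucc 139371839, .ofNat 386492160, .negSucc 105357119, .negSucc 203896319, .ofNat 118955520, .negSucc 23652479]),
  (345836, [.ofNat 0, .ofNat 0, .ofNat 10823040, .negSucc 106279199, .ofNat 132773760, .negSucc 54811679, .ofNat 9387840]),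
  (345869, [.ofNat 0, .negSucc 373829759, .ofNat 1161093600, .negSucc 1169890559, .ofNat 443578080, .negSucc 72542399]),
  (345898, [.ofNat 0, .ofNat 44282880, .negSucc 102305279, .ofNat 100815360, .negSucc 35735039, .ofNat 5852160]),
  (346219, [.ofNat 0, .ofNat 16128000, .negSucc 21119, .negSucc 63323999, .ofNat 105800640, .negSucc 62473439, .ofNat 17729280, .negSucc 1950719]),
  (346317, [.ofNat 0, .negSucc 271203839, .ofNat 897626880, .negSucc 920372639, .ofNat 281022720, .ofNat 14822880, .negSucc 27211199, .ofNat 4389120]),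
  (346443, [.ofNat 0, .ofNat 22492800, .negSucc 32675039, .negSucc 33311519, .ofNat 87606240, .negSucc 59109599, .ofNat 17568000, .negSucc 2194559]),
  (346451, [.ofNat 0, .ofNat 67651200, .negSucc 201233759, .ofNat 131680320, .negSucc 23245919, .ofNat 34064640, .negSucc 19125119, .ofNat 4632960]),
  (346955, [.ofNat 0, .negSucc 13150079, .ofNat 49865760, .negSucc 60968639, .ofNat 94148640, .negSucc 94561919, .ofNat 37503360, .negSucc 6339839]),
  (346972, [.ofNat 0, .ofNat 23852160, .negSucc 65844959, .ofNat 68814720, .negSucc 18720479, .negSucc 13423679, .ofNat 7810560, .negSucc 1463039]),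
  (348947, [.ofNat 0, .ofNat 150958080, .negSucc 449448959, .ofNat 510412800, .negSucc 268245119, .ofNat 70909440, .negSucc 7559039]),
  (350050, [.ofNat 0, .ofNat 98461440, .negSucc 186815039, .ofNat 166183680, .negSucc 56938559, .ofNat 9022080]),
  (350483, [.ofNat 0, .ofNat 17136000, .negSucc 134186399, .ofNat 96165120, .negSucc 157287839, .ofNat 205076160, .negSucc 88842239, .ofNat 16093440]),
  (2668908, [.ofNat 0, .ofNat 0, .negSucc 9354239, .ofNat 9672960, .negSucc 3755519, .ofNat 487680]),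
  (2673373, [.ofNat 0, .ofNat 0, .negSucc 9354239, .ofNat 9672960, .negSucc 3755519, .ofNat 487680]),
  (2693931, [.ofNat 0, .ofNat 0, .negSucc 3133439, .ofNat 3912960, .negSucc 5091839, .ofNat 487680]),
  (2738389, [.ofNat 0, .negSucc 74476799, .ofNat 214038720, .negSucc 226241279, .ofNat 82257600, .negSucc 14386559]),
  (2775827, [.ofNat 0, .ofNat 26254080, .negSucc 91993919, .ofNat 87793920, .negSucc 35676479, .ofNat 5120640]),
  (19540701, [.ofNat 0, .negSucc 17544959, .ofNat 51071040, .negSucc 51383039, .ofNat 19483200, .negSucc 3169919]),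
  (19547485, [.ofNat 0, .negSucc 15874559, .ofNat 163119360, .negSucc 202811519, .ofNat 82490880, .negSucc 13898879]),
  (19580645, [.ofNat 0, .ofNat 8847360, .ofNat 660480, .negSucc 10667519, .ofNat 5207040, .negSucc 975359]),
  (19584227, [.ofNat 0, .negSucc 8478719, .ofNat 18744960, .negSucc 16571519, .ofNat 5124480, .negSucc 731519]),
  (21346668, [.ofNat 0, .negSucc 5978879, .ofNat 31771200, .negSucc 36597119, .ofNat 14602560, .negSucc 2438399]),
  (21347109, [.ofNat 0, .ofNat 3421440, .negSucc 118464959, .ofNat 154592640, .negSucc 63495359, .ofNat 10728960]),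
  (21351084, [.ofNat 0, .negSucc 4622399, .negSucc 7174799, .ofNat 15357120, .negSucc 6986639, .ofNat 1280160]),
  (21379755, [.ofNat 0, .negSucc 47574719, .ofNat 93785520, .negSucc 82487999, .ofNat 28795440, .negSucc 4571999]),
  (21379883, [.ofNat 0, .negSucc 5207039, .ofNat 19991040, .negSucc 22383359, .ofNat 8785920, .negSucc 1463039]),
  (21383901, [.ofNat 0, .ofNat 11808000, .negSucc 132621119, .ofNat 164976000, .negSucc 66830399, .ofNat 11216640]),
  (21386909, [.ofNat 0, .negSucc 101560319, .ofNat 189624960, .negSucc 154423679, .ofNat 52740480, .negSucc 8046719]),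
  (21386988, [.ofNat 0, .negSucc 26444159, .negSucc 185063519, .ofNat 277760640, .negSucc 121158239, .ofNat 21336000]),
  (21543276, [.ofNat 0, .negSucc 11980799, .ofNat 41272320, .negSucc 44766719, .ofNat 17571840, .negSucc 2926079]),
  (21546859, [.ofNat 0, .negSucc 13582079, .ofNat 45282240, .negSucc 46980479, .ofNat 17937600, .negSucc 2926079]),
  (21551324, [.ofNat 0, .negSucc 54282239, .ofNat 23105280, .ofNat 24034560, .negSucc 16761599, .ofNat 3413760]),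
  (21902444, [.ofNat 0, .ofNat 0, .negSucc 22579199, .ofNat 26845440, .negSucc 8071679, .ofNat 1463040]),
  (21935205, [.ofNat 0, .ofNat 33684480, .negSucc 59974559, .ofNat 50976000, .negSucc 17498399, .ofNat 2804160])]

/-- data -/
def lV0x2 : List (ℕ × List ℤ) := [(21938987, [.ofNat 0, .negSucc 28972799, .ofNat 73327680, .negSucc 66535679, .ofNat 28192320, .negSucc 4145279]),
  (22139740, [.ofNat 0, .negSucc 2370239, .ofNat 173520, .negSucc 3464639, .ofNat 3940560, .negSucc 548639]),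
  (22196972, [.ofNat 0, .ofNat 117155520, .negSucc 231426959, .ofNat 194825280, .negSucc 67128719, .ofNat 10302240]),
  (155891997, [.ofNat 50918400, .negSucc 163165439, .ofNat 168806400, .negSucc 65245439, .ofNat 10728960]),
  (156379869, [.ofNat 87160320, .negSucc 240328319, .ofNat 238498560, .negSucc 90053759, .ofNat 14630400]),
  (170838362, [.ofNat 1438381440, .negSucc 4352620959, .ofNat 4419203200, .negSucc 1599310239, .ofNat 258592320]),
  (171002589, [.ofNat 9630720, .negSucc 25017599, .ofNat 23735040, .negSucc 9066239, .ofNat 1463040]),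
  (171039458, [.negSucc 26254079, .ofNat 91993920, .negSucc 87793919, .ofNat 35676480, .negSucc 5120639]),
  (171268316, [.ofNat 0, .ofNat 783360, .negSucc 645119]),
  (171297002, [.negSucc 429410879, .ofNat 1413718640, .negSucc 1417955839, .ofNat 509561840, .negSucc 80528159]),
  (171325226, [.ofNat 74476800, .negSucc 209338559, .ofNat 220588800, .negSucc 86112959, .ofNat 14386560]),
  (172341612, [.negSucc 23973119, .ofNat 54824640, .negSucc 50613119, .ofNat 18425280, .negSucc 2926079]),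
  (172346092, [.ofNat 311166720, .negSucc 1082524479, .ofNat 1115689600, .negSucc 414591039, .ofNat 67056000]),
  (172346211, [.ofNat 46218240, .negSucc 121739519, .ofNat 115998720, .negSucc 42789119, .ofNat 6827520]),
  (172349739, [.ofNat 83335680, .negSucc 198817919, .ofNat 210059520, .negSucc 89454719, .ofNat 14630400]),
  (172374827, [.negSucc 51287039, .ofNat 134822400, .negSucc 132798719, .ofNat 50657280, .negSucc 8290559]),
  (172377963, [.ofNat 4711680, .negSucc 15687359, .ofNat 16191360, .negSucc 6060479, .ofNat 975360]),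
  (172381932, [.negSucc 9838079, .ofNat 25111680, .negSucc 24161279, .ofNat 9029760, .negSucc 1463039]),
  (172407069, [.ofNat 783360, .negSucc 645119]),
  (172410597, [.negSucc 78612479, .ofNat 192537600, .negSucc 181931519, .ofNat 67031040, .negSucc 10728959]),
  (172905315, [.ofNat 0, .ofNat 22579200, .negSucc 26845439, .ofNat 8071680, .negSucc 1463039]),
  (172933931, [.ofNat 28972800, .negSucc 73327679, .ofNat 66535680, .negSucc 28192319, .ofNat 4145280]),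
  (173134684, [.ofNat 6992640, .ofNat 7001280, .negSucc 11892479, .ofNat 3046080, .negSucc 731519]),
  (173191916, [.negSucc 6128639, .ofNat 13144320, .negSucc 10295039, .ofNat 3651840, .negSucc 487679]),
  (173421285, [.ofNat 0, .ofNat 6266880, .negSucc 6862079, .ofNat 3225600, .negSucc 487679]),
  (175524554, [.ofNat 1008970560, .negSucc 2934202159, .ofNat 2995594880, .negSucc 1093603759, .ofNat 178064160])]

/-- the sum of the part -/
def lV0 : List (ℕ × List ℤ) := lV0x0 ++ (lV0x1 ++ (lV0x2))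

theorem okV0 : dV0.all (rok tbF 20) = true := by decide +kernel

theorem sumV0 : aeq (fz (sumT tbF dV0)) lV0 = true := by decide +kernel

end Pool.Agent.H.MP_e16c79_al.IS
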