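import Pool.Agent.H.MP_e16c79_al.IS.BTabE

/-!
# MP_e16c79_al: certificate V, part 1
-/

set_option autoImplicit false

namespace Pool.Agent.H.MP_e16c79_al.IS

/-- data -/
def dV1x0 : RT := (.nd (.nd (.nd (.lf ⟨[.ofNat 0, .ofNat 0, .ofNat 0, .ofNat 5356800, .negSucc 6685439, .ofNat 2883840, .negSucc 487679], (.tr (.dx 0 (.tr (.lf 5) (.lf 11) (.lf 19))) (.lf 6) (.lf 15)), 0, [0, 30], []⟩)
    (.lf ⟨[.ofNat 0, .ofNat 0, .ofNat 0, .negSucc 5356799, .ofNat 6685440, .negSucc 2883839, .ofNat 487680], (.tr (.lf 6) (.dx 0 (.tr (.lf 5) (.lf 11) (.lf 19))) (.lf 15)), 0, [32, 32], []⟩))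
    (.nd (.lf ⟨[.ofNat 0, .ofNat 108668160, .negSucc 329760959, .ofNat 339341760, .negSucc 154265279, .ofNat 33837120, .negSucc 2682239], (.tr (.dx 0 (.tr (.lf 11) (.lf 5) (.lf 19))) (.lf 6) (.lf 15)), 0, [20, 30], []⟩)
    (.lf ⟨[.ofNat 0, .ofNat 186134400, .negSucc 691394399, .ofNat 907544880, .negSucc 542175359, .ofNat 169598640, .negSucc 24714239, .ofNat 975360], (.tr (.dx 0 (.tr (.lf 5) (.lf 11) (.lf 19))) (.lf 15) (.lf 6)), 0, [0, 25], []⟩)))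
    (.nd (.nd (.lf ⟨[.ofNat 0, .ofNat 0, .ofNat 18584640, .negSucc 87866159, .ofNat 103417440, .negSucc 37328879, .ofNat 4711680, .ofNat 487680], (.tr (.dx 0 (.tr (.lf 5) (.lf 19) (.lf 11))) (.lf 15) (.lf 6)), 0, [25, 25], []⟩)
    (.lf ⟨[.ofNat 0, .negSucc 118702079, .ofNat 364438080, .negSucc 475380719, .ofNat 303777120, .negSucc 102590639, .ofNat 17155200, .negSucc 975359], (.tr (.dx 0 (.tw (.lf 5) (.lf 15))) (.tw (.lf 11) (.lf 19)) (.lf 6)), 0, [17, 0, 10, 10], []⟩))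
    (.nd (.lf ⟨[.ofNat 0, .ofNat 0, .negSucc 20174399, .ofNat 90292080, .negSucc 104014559, .ofNat 37450800, .negSucc 4711679, .negSucc 487679], (.tw (.dx 0 (.tr (.tw (.lf 11) (.lf 19)) (.lf 5) (.lf 15))) (.lf 6)), 0, [20, 33, 33, 10], []⟩)
    (.lf ⟨[.ofNat 0, .ofNat 118702080, .negSucc 383829119, .ofNat 565027680, .negSucc 407791679, .ofNat 140041440, .negSucc 21866879, .ofNat 487680], (.tr (.tw (.dx 0 (.tw (.lf 5) (.lf 15))) (.lf 11)) (.lf 19) (.lf 6)), 0, [17, 10, 12, 12], []⟩))))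

/-- data -/
def dV1x1 : RT := (.nd (.nd (.nd (.lf ⟨[.ofNat 0, .ofNat 0, .ofNat 53660160, .negSucc 135198719, .ofNat 127224960, .negSucc 48476159, .ofNat 7559040], (.tr (.dx 0 (.tw (.lf 5) (.lf 15))) (.lf 19) (.tw (.lf 6) (.lf 11))), 0, [0, 0, 10, 10], []⟩)
    (.lf ⟨[.ofNat 0, .negSucc 102574079, .ofNat 422472000, .negSucc 751045679, .ofNat 614860800, .negSucc 222421679, .ofNat 35582880, .negSucc 487679], (.tr (.lf 6) (.tw (.dx 0 (.tw (.lf 5) (.lf 15))) (.lf 19)) (.lf 11)), 0, [32, 32, 13, 13], []⟩))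
    (.nd (.lf ⟨[.ofNat 0, .ofNat 102574080, .negSucc 345287999, .ofNat 508027920, .negSucc 317765759, .ofNat 38430480, .ofNat 19197600, .negSucc 6827519], (.tr (.tw (.dx 0 (.tw (.lf 5) (.lf 15))) (.lf 6)) (.lf 19) (.lf 11)), 0, [29, 10, 32, 32], []⟩)
    (.lf ⟨[.ofNat 0, .ofNat 0, .negSucc 37439, .ofNat 5903760, .negSucc 60104639, .ofNat 94567440, .negSucc 40332959, .ofNat 7315200], (.tr (.tw (.dx 0 (.tw (.lf 5) (.lf 15))) (.lf 6)) (.lf 11) (.lf 19)), 0, [0, 10, 32, 15], []⟩)))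
    (.nd (.nd (.lf ⟨[.ofNat 0, .ofNat 82356480, .negSucc 299560319, .ofNat 426850320, .negSucc 320076479, .ofNat 150666960, .negSucc 37839839, .ofNat 4632960], (.tr (.lf 6) (.dx 0 (.tr (.lf 11) (.lf 5) (.lf 19))) (.lf 15)), 0, [23, 32], []⟩)
    (.lf ⟨[.ofNat 0, .ofNat 0, .negSucc 49034879, .ofNat 141492960, .negSucc 144063359, .ofNat 54749280, .negSucc 8900159], (.tw (.dx 0 (.tr (.lf 5) (.tw (.lf 11) (.lf 19)) (.lf 6))) (.lf 15)), 0, [0, 0, 0, 0], []⟩))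
    (.nd (.lf ⟨[.ofNat 0, .ofNat 118702080, .negSucc 446918399, .ofNat 662518080, .negSucc 469489919, .ofNat 171259200, .negSucc 30652799, .ofNat 1950720], (.tr (.dx 0 (.tr (.lf 5) (.lf 15) (.lf 19))) (.lf 11) (.lf 6)), 0, [0, 30], []⟩)
    (.lf ⟨[.ofNat 0, .negSucc 118702079, .ofNat 357275520, .negSucc 510779039, .ofNat 357461760, .negSucc 115800479, .ofNat 16459200], (.tw (.dx 0 (.tr (.lf 15) (.tw (.lf 5) (.lf 11)) (.lf 19))) (.lf 6)), 0, [33, 33, 33, 33], []⟩))))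

/-- data -/
def dV1x2 : RT := (.nd (.nd (.nd (.lf ⟨[.ofNat 0, .ofNat 42289920, .negSucc 40487999, .ofNat 6797760, .ofNat 23920320, .negSucc 12866879, .ofNat 2682240], (.tr (.tw (.dx 0 (.tw (.lf 5) (.lf 19))) (.lf 15)) (.lf 11) (.lf 6)), 0, [9, 9, 9, 22], []⟩)
    (.lf ⟨[.ofNat 0, .ofNat 0, .negSucc 164986559, .ofNat 344142480, .negSucc 270900479, .ofNat 68545680, .negSucc 737759, .negSucc 2682239], (.tr (.dx 0 (.tw (.lf 5) (.lf 19))) (.tw (.lf 6) (.lf 11)) (.lf 15)), 0, [37, 19, 37, 19], []⟩))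
    (.nd (.lf ⟨[.ofNat 0, .ofNat 0, .ofNat 67890240, .negSucc 91629359, .ofNat 55216320, .negSucc 34939439, .ofNat 11084640, .negSucc 1950719], (.tr (.dx 0 (.tw (.lf 5) (.lf 19))) (.lf 6) (.tw (.lf 11) (.lf 15))), 0, [37, 0, 37, 30], []⟩)
    (.lf ⟨[.ofNat 0, .ofNat 118702080, .negSucc 396647999, .ofNat 484072080, .negSucc 277794239, .ofNat 97098000, .negSucc 18521759, .ofNat 1950720], (.tr (.tw (.dx 0 (.tw (.lf 5) (.lf 19))) (.lf 6)) (.lf 15) (.lf 11)), 0, [0, 30, 32, 32], []⟩)))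
    (.nd (.nd (.lf ⟨[.ofNat 0, .negSucc 16127999, .ofNat 184053120, .negSucc 383936159, .ofNat 337196160, .negSucc 120892319, .ofNat 18653760], (.tr (.dx 0 (.tw (.lf 5) (.lf 11))) (.tw (.lf 6) (.lf 15)) (.lf 19)), 0, [0, 0, 20, 27], []⟩)
    (.lf ⟨[.ofNat 0, .ofNat 4924800, .negSucc 84780959, .ofNat 135087360, .negSucc 89308319, .ofNat 27157440, .negSucc 3413759], (.tr (.lf 6) (.dx 0 (.tr (.lf 15) (.lf 5) (.lf 19))) (.lf 11)), 0, [32, 32], []⟩))
    (.nd (.lf ⟨[.ofNat 0, .ofNat 0, .negSucc 55756799, .ofNat 149472000, .negSucc 89114879, .negSucc 37797119, .ofNat 31249920, .negSucc 7315199], (.tr (.lf 6) (.tr (.lf 15) (.dx 0 (.lf 5)) (.lf 19)) (.lf 11)), 0, [24, 16], [24, 7]⟩)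
    (.lf ⟨[.ofNat 0, .ofNat 0, .ofNat 61194240, .negSucc 243957599, .ofNat 286746240, .negSucc 141901919, .ofNat 34357440, .negSucc 3169919], (.tr (.dx 0 (.lf 5)) (.lf 11) (.tr (.lf 6) (.lf 15) (.lf 19))), 0, [0, 0], [39, 20]⟩))))

/-- data -/
def dV1x3 : RT := (.nd (.nd (.nd (.lf ⟨[.ofNat 0, .ofNat 0, .negSucc 129072959, .ofNat 493286160, .negSucc 590329919, .ofNat 301472400, .negSucc 74714399, .ofNat 7315200], (.tr (.dx 0 (.lf 5)) (.lf 15) (.tr (.lf 6) (.lf 11) (.lf 19))), 0, [0, 0], [10, 9]⟩)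
    (.lf ⟨[.ofNat 0, .ofNat 0, .negSucc 18639359, .negSucc 12779519, .ofNat 79481280, .negSucc 93317759, .ofNat 38765760, .negSucc 6827519], (.tr (.lf 6) (.lf 11) (.tr (.dx 0 (.lf 5)) (.lf 15) (.lf 19))), 0, [8, 1], [8, 8]⟩))
    (.nd (.lf ⟨[.ofNat 0, .ofNat 0, .negSucc 809279, .negSucc 10332239, .ofNat 13679040, .negSucc 5843279, .ofNat 1036320], (.tr (.lf 6) (.tr (.dx 0 (.lf 5)) (.lf 19) (.lf 11)) (.lf 15)), 0, [32, 8], [32, 23]⟩)
    (.lf ⟨[.ofNat 0, .negSucc 123310079, .ofNat 417725760, .negSucc 621414959, .ofNat 498940800, .negSucc 266266799, .ofNat 75870240, .negSucc 10728959], (.tr (.lf 6) (.tr (.lf 11) (.dx 0 (.lf 5)) (.lf 19)) (.lf 15)), 0, [5, 16], [5, 16]⟩)))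
    (.nd (.nd (.lf ⟨[.ofNat 0, .ofNat 0, .ofNat 83741760, .negSucc 265373999, .ofNat 239705280, .negSucc 46000559, .negSucc 8457119, .ofNat 4632960], (.tr (.lf 6) (.lf 19) (.tr (.dx 0 (.lf 5)) (.lf 11) (.lf 15))), 0, [16, 1], [16, 16]⟩)
    (.lf ⟨[.ofNat 0, .ofNat 0, .ofNat 3899520, .ofNat 65925120, .negSucc 129232319, .ofNat 121328640, .negSucc 44539199, .ofNat 7315200], (.tr (.lf 6) (.lf 19) (.tr (.dx 0 (.lf 5)) (.lf 15) (.lf 11))), 0, [16, 1], [7, 16]⟩))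
    (.nd (.lf ⟨[.ofNat 0, .ofNat 0, .negSucc 18385919, .negSucc 17533919, .ofNat 85337280, .negSucc 105615839, .ofNat 42222720, .negSucc 7315199], (.tr (.dx 0 (.lf 5)) (.lf 15) (.tr (.lf 6) (.lf 19) (.lf 11))), 0, [0, 0], [10, 17]⟩)
    (.lf ⟨[.ofNat 0, .ofNat 0, .ofNat 138240, .negSucc 5495039, .ofNat 6576000, .negSucc 1151999, .ofNat 243840], (.tr (.lf 15) (.lf 11) (.tr (.lf 6) (.dx 0 (.lf 5)) (.lf 19))), 0, [3, 33], [3, 33]⟩))))

/-- data -/
def dV1x4 : RT := (.nd (.nd (.nd (.lf ⟨[.ofNat 0, .ofNat 138291840, .negSucc 543967199, .ofNat 961027680, .negSucc 862804319, .ofNat 448507680, .negSucc 120659519, .ofNat 15361920], (.tr (.lf 15) (.lf 19) (.tr (.dx 0 (.lf 5)) (.lf 11) (.lf 6))), 0, [4, 1], [4, 21]⟩)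
    (.lf ⟨[.ofNat 0, .negSucc 14981759, .ofNat 41471520, .negSucc 10936079, .negSucc 32316959, .ofNat 11930160, .ofNat 25440, .negSucc 975359], (.tr (.dx 0 (.lf 5)) (.tr (.lf 11) (.lf 6) (.lf 19)) (.lf 15)), 0, [0, 0], [20, 37]⟩))
    (.nd (.lf ⟨[.ofNat 0, .ofNat 0, .negSucc 69119, .negSucc 2897279, .ofNat 3423360, .negSucc 1441919, .ofNat 243840], (.tw (.lf 15) (.tr (.lf 11) (.tw (.dx 0 (.lf 5)) (.lf 6)) (.lf 19))), 0, [27, 3, 35, 13], [36, 3, 4, 4]⟩)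
    (.lf ⟨[.ofNat 0, .ofNat 0, .negSucc 6863039, .negSucc 85478639, .ofNat 123641280, .negSucc 52158959, .ofNat 9204960], (.tr (.lf 19) (.lf 6) (.tr (.dx 0 (.lf 5)) (.lf 11) (.lf 15))), 0, [26, 1], [37, 26]⟩)))
    (.nd (.nd (.lf ⟨[.ofNat 0, .ofNat 0, .ofNat 0, .ofNat 2678400, .negSucc 3342719, .ofNat 1441920, .negSucc 243839], (.tw (.lf 15) (.tr (.tw (.lf 6) (.lf 19)) (.dx 0 (.lf 5)) (.lf 11))), 0, [18, 13, 27, 17], [18, 4, 36, 17]⟩)
    (.lf ⟨[.ofNat 0, .ofNat 16128000, .negSucc 184053119, .ofNat 383936160, .negSucc 337196159, .ofNat 120892320, .negSucc 18653759], (.tr (.dx 0 (.tw (.lf 5) (.lf 11))) (.lf 6) (.tw (.lf 15) (.lf 19))), 0, [0, 0, 20, 20], []⟩))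
    (.nd (.lf ⟨[.ofNat 0, .negSucc 123310079, .ofNat 398112960, .negSucc 464293199, .ofNat 280714560, .negSucc 128302799, .ofNat 34469280, .negSucc 5120639], (.tr (.lf 6) (.dx 0 (.tw (.lf 5) (.lf 19))) (.tw (.lf 11) (.lf 15))), 0, [32, 32, 32, 32], []⟩)
    (.lf ⟨[.ofNat 0, .ofNat 113310720, .negSucc 295212479, .ofNat 296932560, .negSucc 117905279, .ofNat 24513360, .negSucc 2542559, .ofNat 487680], (.tr (.dx 0 (.tw (.lf 5) (.lf 11))) (.tw (.lf 6) (.lf 19)) (.lf 15)), 0, [0, 0, 20, 19], []⟩))))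

/-- data -/
def dV1x5 : RT := (.nd (.nd (.nd (.lf ⟨[.ofNat 0, .ofNat 0, .ofNat 80997120, .negSucc 184735679, .ofNat 170869440, .negSucc 69833279, .ofNat 12479040, .negSucc 487679], (.tw (.dx 0 (.tr (.tw (.lf 5) (.lf 15)) (.lf 11) (.lf 19))) (.lf 6)), 0, [33, 33, 33, 33], []⟩)
    (.lf ⟨[.ofNat 0, .ofNat 0, .negSucc 21311999, .ofNat 113141760, .negSucc 135868799, .ofNat 55975680, .negSucc 9509759], (.tw (.dx 0 (.tr (.tw (.lf 5) (.lf 19)) (.lf 11) (.lf 15))) (.lf 6)), 0, [33, 33, 33, 33], []⟩))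
    (.nd (.lf ⟨[.ofNat 0, .ofNat 0, .ofNat 3732480, .negSucc 4264319, .ofNat 986880, .negSucc 243839], (.tr (.lf 11) (.dx 0 (.lf 5)) (.tr (.lf 6) (.lf 15) (.lf 19))), 0, [12, 12], [12, 12]⟩)
    (.lf ⟨[.ofNat 0, .ofNat 92568960, .negSucc 51324319, .negSucc 308196639, .ofNat 506069920, .negSucc 271603679, .ofNat 69123840, .negSucc 6827519], (.tr (.lf 11) (.lf 15) (.tr (.dx 0 (.lf 5)) (.lf 6) (.lf 19))), 0, [27, 1], [27, 6]⟩)))
    (.nd (.nd (.lf ⟨[.ofNat 0, .ofNat 0, .ofNat 3732480, .negSucc 4264319, .ofNat 986880, .negSucc 243839], (.tr (.lf 6) (.tr (.dx 0 (.lf 5)) (.lf 11) (.lf 15)) (.lf 19)), 0, [32, 3], [39, 24]⟩)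
    (.lf ⟨[.ofNat 0, .ofNat 0, .ofNat 5253120, .negSucc 6222719, .ofNat 1470720, .negSucc 243839], (.tr (.lf 6) (.lf 19) (.tr (.lf 11) (.dx 0 (.lf 5)) (.lf 15))), 0, [16, 13], [16, 13]⟩))
    (.nd (.lf ⟨[.ofNat 0, .ofNat 189365760, .negSucc 406537599, .ofNat 367974400, .negSucc 119483199, .ofNat 62469120, .negSucc 22094399, .ofNat 5120640], (.tr (.lf 19) (.lf 6) (.tr (.lf 11) (.dx 0 (.lf 5)) (.lf 15))), 0, [23, 26], [23, 13]⟩)
    (.lf ⟨[.ofNat 0, .negSucc 189365759, .ofNat 439450240, .negSucc 474339519, .ofNat 237093760, .negSucc 109127999, .ofNat 30019200, .negSucc 5120639], (.tr (.lf 11) (.tr (.dx 0 (.lf 5)) (.lf 15) (.lf 6)) (.lf 19)), 0, [27, 3], [12, 3]⟩))))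

/-- data -/
def dV1x6 : RT := (.nd (.nd (.nd (.lf ⟨[.ofNat 0, .negSucc 471300479, .ofNat 1206773920, .negSucc 1588929279, .ofNat 987116320, .negSucc 393944639, .ofNat 86129280, .negSucc 10241279], (.tr (.lf 15) (.tr (.dx 0 (.lf 5)) (.lf 11) (.lf 6)) (.lf 19)), 0, [22, 3], [22, 3]⟩)
    (.lf ⟨[.ofNat 0, .negSucc 30769919, .ofNat 41689920, .negSucc 146753279, .ofNat 200606400, .negSucc 131057279, .ofNat 38797440, .negSucc 5120639], (.tr (.tw (.dx 0 (.tw (.lf 5) (.lf 11))) (.lf 19)) (.lf 6) (.lf 15)), 0, [0, 19, 2, 2], []⟩))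
    (.nd (.lf ⟨[.ofNat 0, .ofNat 0, .negSucc 2465279, .ofNat 16544640, .negSucc 22112639, .ofNat 9356160, .negSucc 1706879], (.tr (.tw (.dx 0 (.tw (.lf 5) (.lf 15))) (.lf 11)) (.lf 6) (.lf 19)), 0, [0, 10, 12, 12], []⟩)
    (.lf ⟨[.ofNat 0, .ofNat 4608000, .ofNat 43736640, .negSucc 130232879, .ofNat 101849280, .negSucc 6195119, .negSucc 9912479, .ofNat 3169920], (.tr (.lf 6) (.tw (.dx 0 (.tw (.lf 5) (.lf 19))) (.lf 15)) (.lf 11)), 0, [32, 32, 24, 24], []⟩)))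
    (.nd (.nd (.lf ⟨[.ofNat 0, .negSucc 4607999, .ofNat 48702720, .negSucc 105513599, .ofNat 124444800, .negSucc 79130879, .ofNat 23506560, .negSucc 3169919], (.tr (.tw (.lf 6) (.lf 15)) (.dx 0 (.tw (.lf 5) (.lf 19))) (.lf 11)), 0, [24, 24, 18, 13], []⟩)
    (.lf ⟨[.ofNat 0, .ofNat 0, .ofNat 111738240, .negSucc 265525919, .ofNat 247896960, .negSucc 111434399, .ofNat 23703360, .negSucc 1950719], (.tr (.dx 0 (.tw (.lf 5) (.lf 19))) (.lf 11) (.tw (.lf 6) (.lf 15))), 0, [19, 25, 19, 25], []⟩))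
    (.nd (.lf ⟨[.ofNat 0, .ofNat 0, .negSucc 110954879, .ofNat 264880800, .negSucc 247896959, .ofNat 111434400, .negSucc 23703359, .ofNat 1950720], (.tr (.dx 0 (.tr (.lf 5) (.lf 19) (.lf 15))) (.lf 11) (.lf 6)), 0, [9, 10], []⟩)
    (.lf ⟨[.ofNat 0, .ofNat 0, .ofNat 110954880, .negSucc 264880799, .ofNat 247896960, .negSucc 111434399, .ofNat 23703360, .negSucc 1950719], (.tw (.dx 0 (.tr (.tw (.lf 11) (.lf 15)) (.lf 5) (.lf 19))) (.lf 6)), 0, [33, 33, 33, 30], []⟩))))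

/-- data -/
def dV1x7 : RT := (.nd (.nd (.nd (.lf ⟨[.ofNat 0, .ofNat 149788800, .negSucc 445889759, .ofNat 569867520, .negSucc 339458399, .ofNat 115577280, .negSucc 20899199, .ofNat 1950720], (.tr (.tw (.dx 0 (.tw (.lf 5) (.lf 19))) (.lf 15)) (.lf 6) (.lf 11)), 0, [0, 30, 35, 35], []⟩)
    (.lf ⟨[.ofNat 0, .negSucc 160991999, .ofNat 487406400, .negSucc 669315839, .ofNat 445569600, .negSucc 158392319, .ofNat 27970560, .negSucc 1950719], (.tr (.dx 0 (.tw (.lf 5) (.lf 19))) (.lf 15) (.tw (.lf 6) (.lf 11))), 0, [0, 9, 30, 9], []⟩))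
    (.nd (.lf ⟨[.ofNat 0, .negSucc 57398399, .ofNat 151977360, .negSucc 129789779, .ofNat 33477840, .negSucc 160019, .negSucc 1325879], (.tw (.dx 0 (.tr (.tw (.lf 5) (.lf 6)) (.lf 15) (.lf 19))) (.lf 11)), 0, [0, 0, 30, 30], []⟩)
    (.lf ⟨[.ofNat 0, .ofNat 0, .negSucc 19607039, .ofNat 82974720, .negSucc 91991999, .ofNat 35998080, .negSucc 5974079], (.tw (.dx 0 (.tr (.lf 5) (.tw (.lf 15) (.lf 19)) (.lf 6))) (.lf 11)), 0, [0, 13, 0, 13], []⟩)))
    (.nd (.nd (.lf ⟨[.negSucc 94682879, .ofNat 245349920, .negSucc 338437639, .ofNat 227930720, .negSucc 95947079, .ofNat 21745680, .negSucc 2560319], (.tr (.dx 0 .on) (.lf 5) (.tr (.lf 15) (.tr (.lf 9) (.lf 6) (.lf 10)) (.lf 19))), 0, [0, 0, 0, 0], [0, 0, 37, 37]⟩)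
    (.lf ⟨[.ofNat 0, .ofNat 3585600, .negSucc 6978479, .ofNat 10032480, .negSucc 4020719, .ofNat 853440], (.tr (.dx 0 .on) (.tr (.lf 15) (.tr (.lf 9) (.lf 5) (.lf 10)) (.lf 19)) (.lf 6)), 0, [10, 10, 30, 30], [17, 17, 25, 25]⟩))
    (.nd (.lf ⟨[.ofNat 0, .negSucc 3922559, .negSucc 2046239, .ofNat 77280, .ofNat 646560, .negSucc 304799], (.tr (.dx 0 .on) (.lf 15) (.tr (.lf 5) (.lf 19) (.tr (.lf 9) (.lf 6) (.lf 10)))), 0, [10, 10, 10, 10], [35, 35, 17, 17]⟩)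
    (.lf ⟨[.ofNat 0, .ofNat 0, .ofNat 5863680, .negSucc 5313599, .ofNat 808320, .negSucc 121919], (.tr (.lf 5) (.lf 15) (.tr (.dx 0 .on) (.lf 19) (.tr (.lf 9) (.lf 6) (.lf 10)))), 0, [35, 35, 31, 31], [35, 35, 24, 24]⟩))))

/-- data -/
def dV1x8 : RT := (.nd (.nd (.nd (.lf ⟨[.ofNat 0, .ofNat 2888640, .negSucc 6725519, .ofNat 4107840, .negSucc 844559, .ofNat 60960], (.tr (.lf 15) (.dx 0 .on) (.tr (.lf 5) (.lf 19) (.tr (.lf 9) (.lf 6) (.lf 10)))), 0, [35, 35, 22, 22], [35, 35, 17, 17]⟩)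
    (.lf ⟨[.ofNat 0, .negSucc 25862399, .ofNat 54129600, .negSucc 35399519, .negSucc 5096639, .ofNat 7141920, .negSucc 1828799], (.tr (.lf 5) (.tr (.dx 0 .on) (.tr (.lf 9) (.lf 6) (.lf 10)) (.lf 19)) (.lf 15)), 0, [32, 32, 23, 23], [32, 32, 16, 16]⟩))
    (.nd (.lf ⟨[.ofNat 0, .ofNat 19941120, .negSucc 65407919, .ofNat 75438720, .negSucc 42963119, .ofNat 12423840, .negSucc 1584959], (.tr (.lf 5) (.lf 19) (.tr (.lf 15) (.dx 0 .on) (.tr (.lf 9) (.lf 6) (.lf 10)))), 0, [35, 35, 23, 23], [35, 35, 16, 16]⟩)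
    (.lf ⟨[.ofNat 0, .ofNat 7243200, .negSucc 30531599, .ofNat 45400320, .negSucc 33329999, .ofNat 10838880, .negSucc 1584959], (.tr (.lf 15) (.lf 19) (.tr (.lf 5) (.dx 0 .on) (.tr (.lf 9) (.lf 6) (.lf 10)))), 0, [35, 35, 33, 33], [35, 35, 33, 33]⟩)))
    (.nd (.nd (.lf ⟨[.ofNat 0, .ofNat 18619200, .negSucc 29098799, .ofNat 7504320, .ofNat 20451600, .negSucc 11208479, .ofNat 2316480], (.tr (.lf 5) (.lf 15) (.tr (.lf 19) (.dx 0 .on) (.tr (.lf 9) (.lf 6) (.lf 10)))), 0, [35, 35, 3, 3], [35, 35, 24, 24]⟩)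
    (.lf ⟨[.ofNat 0, .negSucc 24822719, .ofNat 20785680, .ofNat 28617120, .negSucc 59102639, .ofNat 25586880, .negSucc 4632959], (.tr (.lf 5) (.tr (.dx 0 .on) (.tr (.lf 9) (.lf 6) (.lf 10)) (.lf 15)) (.lf 19)), 0, [32, 32, 3, 3], [39, 39, 24, 24]⟩))
    (.nd (.lf ⟨[.ofNat 0, .ofNat 24822720, .negSucc 20785679, .negSucc 28617119, .ofNat 59102640, .negSucc 25586879, .ofNat 4632960], (.tr (.lf 19) (.lf 15) (.tr (.lf 5) (.dx 0 .on) (.tr (.lf 9) (.lf 6) (.lf 10)))), 0, [35, 35, 33, 33], [35, 35, 38, 38]⟩)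
    (.lf ⟨[.ofNat 0, .negSucc 3922559, .ofNat 10026720, .negSucc 11423519, .ofNat 4647840, .negSucc 792479], (.tr (.lf 15) (.lf 5) (.tr (.dx 0 .on) (.tr (.lf 9) (.lf 6) (.lf 10)) (.lf 19))), 0, [15, 15, 21, 21], [15, 15, 18, 18]⟩))))

/-- data -/
def dV1x9 : RT := (.nd (.nd (.nd (.lf ⟨[.negSucc 94682879, .ofNat 261846560, .negSucc 405070279, .ofNat 313570400, .negSucc 144699719, .ofNat 35083920, .negSucc 4145279], (.tr (.lf 15) (.tr (.lf 5) (.dx 0 .on) (.tr (.lf 9) (.lf 6) (.lf 10))) (.lf 19)), 0, [15, 15, 36, 36], [15, 15, 36, 36]⟩)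
    (.lf ⟨[.ofNat 0, .negSucc 29352959, .ofNat 46840320, .negSucc 13667039, .negSucc 30728639, .ofNat 16578720, .negSucc 3413759], (.tr (.lf 5) (.lf 19) (.tr (.dx 0 .on) (.lf 15) (.tr (.lf 9) (.lf 6) (.lf 10)))), 0, [35, 35, 11, 11], [35, 35, 16, 16]⟩))
    (.nd (.lf ⟨[.ofNat 0, .ofNat 0, .negSucc 18863999, .ofNat 23958240, .negSucc 13713599, .ofNat 3761760, .negSucc 487679], (.tr (.lf 19) (.lf 15) (.tr (.lf 9) (.dx 0 .on) (.tr (.lf 5) (.lf 10) (.lf 6)))), 0, [9, 9, 13, 13], [9, 9, 13, 13]⟩)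
    (.lf ⟨[.ofNat 94682880, .negSucc 252498079, .ofNat 359321000, .negSucc 246156799, .ofNat 101517480, .negSucc 22538159, .ofNat 2560320], (.tr (.lf 15) (.dx 0 (.lf 5)) (.tr (.tw (.lf 9) (.lf 10)) (.lf 6) (.lf 19))), 0, [22, 22, 35, 35], [22, 22, 35, 35]⟩)))
    (.nd (.nd (.lf ⟨[.negSucc 33583679, .ofNat 70645680, .negSucc 88081199, .negSucc 111044519, .negSucc 23411279, .ofNat 190094280, .negSucc 99251279, .ofNat 19019520], (.tr (.lf 15) (.lf 11) (.tr (.dx 0 .on) (.lf 19) (.tw (.lf 5) (.lf 6)))), 0, [17, 17, 31, 31], [17, 17, 36, 36]⟩)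
    (.lf ⟨[.ofNat 33583680, .negSucc 41312879, .negSucc 29122079, .ofNat 291725280, .ofNat 57334320, .negSucc 371131919, .ofNat 186223440, .negSucc 34991039], (.tr (.lf 15) (.lf 19) (.tr (.dx 0 .on) (.lf 11) (.tw (.lf 5) (.lf 6)))), 0, [9, 9, 21, 21], [9, 9, 21, 21]⟩))
    (.nd (.lf ⟨[.ofNat 94682880, .negSucc 256420639, .ofNat 369347720, .negSucc 257580319, .ofNat 106165320, .negSucc 23330639, .ofNat 2560320], (.tr (.lf 19) (.dx 0 (.lf 5)) (.tr (.tw (.lf 9) (.lf 10)) (.lf 6) (.lf 15))), 0, [2, 2, 35, 35], [2, 2, 35, 35]⟩)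
    (.lf ⟨[.ofNat 0, .ofNat 0, .negSucc 9426239, .ofNat 27500400, .negSucc 8932799, .negSucc 18266639, .ofNat 10557600, .negSucc 2194559], (.tr (.lf 19) (.lf 15) (.tr (.tw (.lf 5) (.lf 6)) (.dx 0 .on) (.lf 11))), 0, [13, 13, 33, 33], [13, 13, 33, 33]⟩))))

/-- data -/
def dV1x10 : RT := (.nd (.nd (.nd (.lf ⟨[.ofNat 0, .negSucc 20580479, .ofNat 55987920, .negSucc 38271839, .negSucc 810479, .ofNat 5657280, .negSucc 1584959], (.tr (.lf 6) (.lf 15) (.tr (.dx 0 (.lf 5)) (.tw (.lf 9) (.lf 10)) (.lf 19))), 0, [15, 15, 1, 1], [15, 15, 21, 21]⟩)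
    (.lf ⟨[.negSucc 8063999, .ofNat 27261120, .negSucc 10342079, .ofNat 94545480, .negSucc 393759119, .ofNat 443712840, .negSucc 173094239, .ofNat 28712160], (.tr (.lf 15) (.lf 19) (.tr (.dx 0 .on) (.tw (.lf 5) (.lf 6)) (.lf 11))), 0, [35, 35, 1, 1], [35, 35, 1, 1]⟩))
    (.nd (.lf ⟨[.ofNat 0, .ofNat 9809280, .ofNat 91417440, .negSucc 310780799, .ofNat 461097120, .negSucc 320090879, .ofNat 102650880, .negSucc 14386559], (.tr (.dx 0 .on) (.tr (.tw (.lf 5) (.lf 6)) (.lf 11) (.lf 19)) (.lf 15)), 0, [0, 0, 30, 30], [0, 0, 19, 19]⟩)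
    (.lf ⟨[.ofNat 0, .negSucc 12839039, .ofNat 7238880, .ofNat 85198560, .negSucc 117955679, .ofNat 48709920, .negSucc 8290559], (.tr (.dx 0 (.lf 5)) (.tr (.tw (.lf 9) (.lf 10)) (.lf 19) (.lf 15)) (.lf 6)), 0, [0, 0, 0, 0], [20, 20, 9, 9]⟩)))
    (.nd (.nd (.lf ⟨[.ofNat 0, .negSucc 24822719, .ofNat 46221840, .negSucc 20926559, .negSucc 17111279, .ofNat 10781760, .negSucc 2316479], (.tr (.lf 2) (.tr (.tw (.lf 9) (.lf 10)) (.dx 1 (.lf 1)) (.lf 19)) (.lf 15)), 1, [20, 20, 37, 37], [20, 20, 37, 37]⟩)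
    (.lf ⟨[.ofNat 8064000, .negSucc 37070399, .negSucc 49228319, .ofNat 133326360, .negSucc 267599, .negSucc 135661799, .ofNat 68364960, .negSucc 13228319], (.tr (.lf 15) (.lf 11) (.tr (.tw (.lf 5) (.lf 6)) (.dx 0 .on) (.lf 19))), 0, [3, 3, 33, 33], [3, 3, 33, 33]⟩))
    (.nd (.lf ⟨[.ofNat 0, .ofNat 2920320, .ofNat 11879520, .ofNat 7805280, .ofNat 25259040, .negSucc 43735199, .ofNat 20094720, .negSucc 3535679], (.tr (.lf 19) (.dx 0 .on) (.tr (.tw (.lf 5) (.lf 6)) (.lf 11) (.lf 15))), 0, [2, 2, 9, 9], [2, 2, 9, 9]⟩)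
    (.lf ⟨[.ofNat 0, .negSucc 11951999, .negSucc 47551199, .ofNat 260700480, .negSucc 373821599, .ofNat 231029760, .negSucc 66815039, .ofNat 8290560], (.tw (.lf 15) (.tr (.dx 0 .on) (.lf 19) (.tr (.lf 5) (.lf 6) (.lf 11)))), 0, [35, 9, 31, 31], [35, 9, 18, 36]⟩))))

/-- data -/
def dV1x11 : RT := (.nd (.nd (.nd (.lf ⟨[.ofNat 0, .ofNat 0, .negSucc 23264639, .ofNat 58932960, .negSucc 82548959, .ofNat 59303040, .negSucc 19216799, .ofNat 2743200], (.tr (.lf 15) (.dx 0 .on) (.tr (.tw (.lf 5) (.lf 6)) (.lf 11) (.lf 19))), 0, [22, 22, 9, 9], [15, 15, 9, 9]⟩)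
    (.lf ⟨[.ofNat 0, .ofNat 18619200, .negSucc 49293359, .ofNat 51144000, .negSucc 20234159, .ofNat 3352800], (.tr (.lf 19) (.dx 0 (.lf 5)) (.tr (.lf 6) (.tw (.lf 9) (.lf 10)) (.lf 15))), 0, [37, 37, 9, 9], [37, 37, 9, 9]⟩))
    (.nd (.lf ⟨[.ofNat 0, .ofNat 0, .negSucc 1532159, .ofNat 1915200, .negSucc 647039, .ofNat 121920], (.tr (.dx 1 (.tr (.tw (.lf 1) (.lf 2)) (.lf 19) (.lf 9))) (.lf 10) (.lf 15)), 1, [32, 32, 37, 37], []⟩)
    (.lf ⟨[.ofNat 0, .ofNat 18619200, .negSucc 51631919, .ofNat 85634880, .negSucc 64139759, .ofNat 21331680, .negSucc 3047999], (.tr (.lf 6) (.dx 0 (.tr (.lf 5) (.tw (.lf 9) (.lf 10)) (.lf 15))) (.lf 19)), 0, [32, 32, 3, 3], []⟩)))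
    (.nd (.nd (.lf ⟨[.ofNat 0, .negSucc 18619199, .ofNat 54938160, .negSucc 57855359, .ofNat 22252080, .negSucc 3718559], (.tr (.lf 15) (.tr (.dx 0 (.lf 5)) (.lf 6) (.tw (.lf 9) (.lf 10))) (.lf 19)), 0, [15, 15, 36, 36], [15, 15, 36, 36]⟩)
    (.lf ⟨[.ofNat 0, .ofNat 6563520, .negSucc 22318799, .ofNat 21215040, .negSucc 8811599, .ofNat 1280160], (.tr (.lf 15) (.tr (.lf 6) (.dx 0 (.lf 5)) (.tw (.lf 9) (.lf 10))) (.lf 19)), 0, [15, 15, 36, 36], [15, 15, 36, 36]⟩))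
    (.nd (.lf ⟨[.ofNat 0, .ofNat 0, .ofNat 1071360, .negSucc 8080319, .ofNat 10302720, .negSucc 4271039, .ofNat 731520], (.tw (.lf 15) (.tr (.lf 19) (.lf 6) (.tr (.dx 0 (.lf 5)) (.lf 9) (.lf 10)))), 0, [13, 1, 22, 36], [13, 21, 22, 36]⟩)
    (.lf ⟨[.ofNat 0, .negSucc 38479679, .ofNat 119363760, .negSucc 122421119, .ofNat 46797360, .negSucc 7619999], (.tr (.dx 0 (.tw (.lf 5) (.lf 6))) (.lf 9) (.tr (.lf 10) (.lf 15) (.lf 19))), 0, [0, 0, 0, 0], []⟩))))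

/-- data -/
def dV1x12 : RT := (.nd (.nd (.nd (.lf ⟨[.ofNat 0, .ofNat 38479680, .negSucc 119363759, .ofNat 122421120, .negSucc 46797359, .ofNat 7620000], (.tr (.dx 0 (.tw (.lf 5) (.lf 6))) (.tr (.lf 9) (.lf 19) (.lf 15)) (.lf 10)), 0, [0, 29, 0, 29], []⟩)
    (.lf ⟨[.ofNat 0, .ofNat 9930240, .negSucc 30648959, .ofNat 31595280, .negSucc 12891839, .ofNat 2306640, .negSucc 60959], (.tw (.dx 0 (.tw (.lf 5) (.lf 6))) (.tr (.tw (.lf 9) (.lf 10)) (.lf 15) (.lf 19))), 0, [0, 0, 7, 7, 0, 0, 7, 7], []⟩))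
    (.nd (.lf ⟨[.ofNat 0, .ofNat 18619200, .negSucc 52029359, .ofNat 53480160, .negSucc 19013039, .ofNat 2762880, .ofNat 121920], (.tr (.dx 0 (.tw (.lf 5) (.lf 6))) (.lf 19) (.tr (.lf 9) (.lf 10) (.lf 15))), 0, [0, 7, 0, 7], []⟩)
    (.lf ⟨[.ofNat 0, .negSucc 3101759, .ofNat 10663920, .negSucc 10309199, .ofNat 4704720, .negSucc 1108079, .ofNat 121920], (.tw (.dx 0 (.tw (.lf 5) (.lf 6))) (.tr (.lf 9) (.tw (.lf 15) (.lf 19)) (.lf 10))), 0, [0, 0, 0, 0, 0, 0, 0, 0], []⟩)))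
    (.nd (.nd (.lf ⟨[.ofNat 0, .ofNat 0, .negSucc 2865599, .ofNat 2041680, .ofNat 257280, .negSucc 294959, .ofNat 60960], (.tw (.lf 19) (.tr (.dx 0 (.tw (.lf 5) (.lf 6))) (.tw (.lf 9) (.lf 10)) (.lf 15))), 0, [37, 37, 37, 37, 1, 1, 1, 1], []⟩)
    (.lf ⟨[.ofNat 0, .negSucc 910079, .negSucc 960959, .ofNat 1801920, .negSucc 1055039, .ofNat 121920], (.tr (.lf 19) (.dx 0 (.lf 9)) (.tr (.tw (.lf 5) (.lf 6)) (.lf 10) (.lf 15))), 0, [37, 37, 9, 9], [2, 2, 9, 9]⟩))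
    (.nd (.lf ⟨[.ofNat 0, .negSucc 6935039, .ofNat 18710400, .negSucc 22514879, .ofNat 9507840, .negSucc 1584959], (.tr (.lf 15) (.lf 10) (.tr (.tw (.lf 5) (.lf 6)) (.dx 0 (.lf 9)) (.lf 19))), 0, [36, 36, 33, 33], [3, 3, 33, 33]⟩)
    (.lf ⟨[.ofNat 0, .ofNat 910080, .ofNat 960960, .negSucc 1801919, .ofNat 1055040, .negSucc 121919], (.tr (.dx 1 .on) (.tr (.lf 1) (.lf 19) (.tr (.lf 9) (.lf 2) (.lf 10))) (.lf 15)), 1, [32, 32, 8, 8], [32, 32, 23, 23]⟩))))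

/-- data -/
def dV1x13 : RT := (.nd (.nd (.nd (.lf ⟨[.ofNat 0, .ofNat 1820160, .ofNat 8568960, .negSucc 9895679, .ofNat 4191360, .negSucc 487679], (.tr (.dx 0 (.lf 9)) (.lf 19) (.tr (.tw (.lf 5) (.lf 6)) (.lf 15) (.lf 10))), 0, [20, 20, 25, 25], [7, 7, 25, 25]⟩)
    (.lf ⟨[.ofNat 0, .negSucc 1820159, .negSucc 1921919, .ofNat 3603840, .negSucc 2110079, .ofNat 243840], (.tr (.lf 5) (.lf 6) (.tr (.tw (.dx 0 (.lf 9)) (.lf 19)) (.lf 10) (.lf 15))), 0, [32, 16, 24, 24], [32, 16, 24, 24]⟩))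
    (.nd (.lf ⟨[.ofNat 0, .ofNat 1820160, .ofNat 1921920, .negSucc 3603839, .ofNat 2110080, .negSucc 243839], (.tr (.lf 19) (.dx 0 (.lf 9)) (.tr (.tw (.lf 5) (.lf 6)) (.lf 15) (.lf 10))), 0, [2, 2, 25, 25], [2, 2, 25, 25]⟩)
    (.lf ⟨[.ofNat 0, .negSucc 11681279, .ofNat 27991680, .negSucc 28713599, .ofNat 11258880, .negSucc 1950719], (.tr (.lf 1) (.lf 19) (.tr (.dx 1 .on) (.lf 15) (.tr (.lf 9) (.lf 2) (.lf 10)))), 1, [13, 13, 25, 25], [13, 13, 30, 30]⟩)))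
    (.nd (.nd (.lf ⟨[.ofNat 0, .negSucc 3640319, .ofNat 4657920, .negSucc 1823999, .negSucc 65279], (.tw (.lf 19) (.tr (.lf 10) (.lf 15) (.tr (.dx 0 (.lf 9)) (.lf 5) (.lf 6)))), 0, [33, 21, 2, 26], [33, 1, 2, 26]⟩)
    (.lf ⟨[.ofNat 0, .negSucc 910079, .ofNat 8808000, .negSucc 8180159, .ofNat 2915520, .negSucc 365759], (.tr (.lf 10) (.dx 0 (.tr (.lf 9) (.tw (.lf 5) (.lf 6)) (.lf 19))) (.lf 15)), 0, [12, 12, 23, 23], []⟩))
    (.nd (.lf ⟨[.ofNat 0, .negSucc 910079, .negSucc 960959, .ofNat 1801920, .negSucc 1055039, .ofNat 121920], (.tr (.dx 0 (.tr (.tw (.lf 5) (.lf 6)) (.lf 15) (.lf 9))) (.lf 10) (.lf 19)), 0, [0, 0, 15, 15], []⟩)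
    (.lf ⟨[.ofNat 0, .ofNat 0, .negSucc 1175039, .ofNat 1413120, .ofNat 963840], (.tr (.lf 6) (.tw (.dx 0 (.tr (.lf 9) (.lf 5) (.lf 10))) (.lf 19)) (.lf 15)), 0, [5, 5, 23, 23], []⟩))))

/-- data -/
def dV1x14 : RT := (.nd (.nd (.nd (.lf ⟨[.ofNat 0, .ofNat 0, .negSucc 6036479, .ofNat 5750400, .negSucc 2000639, .ofNat 243840], (.tr (.dx 0 (.lf 15)) (.tr (.lf 5) (.lf 19) (.tw (.lf 9) (.lf 10))) (.lf 6)), 0, [10, 10, 17, 17], []⟩)
    (.lf ⟨[.ofNat 0, .ofNat 0, .ofNat 6036480, .negSucc 5750399, .ofNat 2000640, .negSucc 243839], (.tw (.dx 0 (.lf 15)) (.tr (.lf 5) (.tr (.lf 9) (.lf 10) (.lf 19)) (.lf 6))), 0, [10, 10, 10, 10], []⟩))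
    (.nd (.lf ⟨[.ofNat 0, .ofNat 0, .negSucc 3317759, .ofNat 3922560, .negSucc 1754879, .ofNat 243840], (.tr (.dx 0 (.lf 15)) (.lf 5) (.tr (.lf 9) (.tw (.lf 6) (.lf 19)) (.lf 10))), 0, [10, 10, 10, 10], []⟩)
    (.lf ⟨[.ofNat 0, .ofNat 0, .negSucc 5253119, .ofNat 4772160, .negSucc 727679, .ofNat 121920], (.tw (.dx 0 (.lf 15)) (.tr (.lf 9) (.lf 19) (.tr (.lf 5) (.lf 10) (.lf 6)))), 0, [9, 9, 10, 10], []⟩)))
    (.nd (.nd (.lf ⟨[.ofNat 0, .ofNat 0, .ofNat 4619520, .negSucc 4590719, .ofNat 1893120, .negSucc 243839], (.tr (.dx 0 (.lf 15)) (.tr (.lf 9) (.tw (.lf 5) (.lf 19)) (.lf 10)) (.lf 6)), 0, [10, 9, 10, 9], []⟩)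
    (.lf ⟨[.ofNat 0, .ofNat 0, .negSucc 5253119, .ofNat 4772160, .negSucc 727679, .ofNat 121920], (.tr (.dx 0 (.lf 15)) (.lf 9) (.tr (.lf 5) (.tw (.lf 10) (.lf 19)) (.lf 6))), 0, [10, 10, 10, 10], []⟩))
    (.nd (.lf ⟨[.ofNat 0, .ofNat 0, .negSucc 92159, .ofNat 1104000, .negSucc 2545919, .ofNat 243840], (.tr (.dx 0 (.lf 15)) (.tr (.lf 9) (.lf 5) (.tw (.lf 10) (.lf 19))) (.lf 6)), 0, [10, 10, 9, 9], []⟩)
    (.lf ⟨[.ofNat 0, .ofNat 0, .ofNat 1359360, .negSucc 1466879, .ofNat 215040], (.tr (.dx 0 (.lf 15)) (.lf 9) (.tr (.lf 5) (.lf 10) (.tw (.lf 6) (.lf 19)))), 0, [10, 10, 10, 9], []⟩))))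

/-- data -/
def dV1x15 : RT := (.nd (.nd (.nd (.lf ⟨[.ofNat 0, .ofNat 0, .ofNat 1958400, .negSucc 2391359, .ofNat 309120, .negSucc 121919], (.tw (.dx 0 (.lf 15)) (.tr (.lf 5) (.tr (.lf 9) (.lf 6) (.lf 10)) (.lf 19))), 0, [10, 10, 9, 9], []⟩)
    (.lf ⟨[.ofNat 0, .ofNat 0, .negSucc 1912319, .ofNat 1839360, .ofNat 963840], (.tw (.lf 5) (.tr (.dx 0 (.lf 15)) (.lf 19) (.tr (.lf 9) (.lf 6) (.lf 10)))), 0, [35, 35, 8, 8], []⟩))
    (.nd (.lf ⟨[.ofNat 0, .ofNat 0, .negSucc 1958399, .ofNat 2391360, .negSucc 309119, .ofNat 121920], (.tw (.lf 19) (.tr (.dx 0 (.lf 15)) (.lf 5) (.tr (.lf 9) (.lf 6) (.lf 10)))), 0, [35, 35, 11, 11], []⟩)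
    (.lf ⟨[.ofNat 0, .ofNat 0, .negSucc 5437439, .ofNat 6048960, .negSucc 2605439, .ofNat 365760], (.tr (.dx 0 (.tw (.lf 5) (.lf 15))) (.lf 19) (.tr (.lf 9) (.lf 6) (.lf 10))), 0, [35, 35, 35, 35], []⟩)))
    (.nd (.nd (.lf ⟨[.ofNat 0, .ofNat 0, .ofNat 1221120, .negSucc 1082879, .ofNat 161280], (.tr (.lf 6) (.tr (.lf 9) (.dx 0 (.tw (.lf 5) (.lf 15))) (.lf 10)) (.lf 19)), 0, [15, 15, 15, 15], []⟩)
    (.lf ⟨[.ofNat 0, .ofNat 0, .negSucc 6036479, .ofNat 5750400, .negSucc 2000639, .ofNat 243840], (.tr (.lf 19) (.dx 0 (.tw (.lf 9) (.lf 15))) (.tr (.lf 5) (.lf 10) (.lf 6))), 0, [9, 9, 9, 9], []⟩))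
    (.nd (.lf ⟨[.ofNat 0, .ofNat 0, .negSucc 6036479, .ofNat 5750400, .negSucc 2000639, .ofNat 243840], (.tr (.dx 0 (.tr (.tw (.lf 5) (.lf 6)) (.lf 15) (.lf 9))) (.lf 19) (.lf 10)), 0, [0, 0, 29, 29], []⟩)
    (.lf ⟨[.ofNat 0, .ofNat 0, .negSucc 3916799, .ofNat 3624000, .negSucc 1150079, .ofNat 121920], (.tr (.dx 0 (.tr (.lf 5) (.tw (.lf 9) (.lf 15)) (.lf 6))) (.lf 19) (.lf 10)), 0, [0, 0, 0, 0], []⟩))))

/-- data -/
def dV1x16 : RT := (.nd (.nd (.nd (.lf ⟨[.ofNat 0, .negSucc 25070399, .ofNat 71743920, .negSucc 100236719, .ofNat 71481360, .negSucc 23782799, .ofNat 3535680], (.tr (.dx 0 (.tr (.lf 9) (.lf 10) (.lf 15))) (.lf 19) (.tw (.lf 5) (.lf 6))), 0, [17, 17, 17, 17], []⟩)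
    (.lf ⟨[.ofNat 0, .ofNat 10733760, .negSucc 33042959, .ofNat 4526640, .ofNat 24851280, .negSucc 13679279, .ofNat 2682240], (.tr (.tw (.lf 5) (.lf 6)) (.dx 0 (.tr (.lf 9) (.lf 10) (.lf 15))) (.lf 19)), 0, [32, 32, 32, 32], []⟩))
    (.nd (.lf ⟨[.ofNat 0, .ofNat 7243200, .negSucc 30531599, .ofNat 45400320, .negSucc 33329999, .ofNat 10838880, .negSucc 1584959], (.tr (.dx 0 (.tr (.tw (.lf 9) (.lf 10)) (.lf 5) (.lf 15))) (.lf 6) (.lf 19)), 0, [20, 20, 10, 10], []⟩)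
    (.lf ⟨[.ofNat 0, .ofNat 165654720, .negSucc 452923199, .ofNat 437619300, .negSucc 138815519, .ofNat 16506180, .ofNat 1569720], (.tr (.dx 0 (.tr (.lf 5) (.tw (.lf 9) (.lf 10)) (.lf 15))) (.lf 19) (.lf 6)), 0, [0, 0, 17, 17], []⟩)))
    (.nd (.nd (.lf ⟨[.ofNat 0, .ofNat 0, .negSucc 3064319, .ofNat 3830400, .negSucc 1294079, .ofNat 243840], (.tr (.lf 6) (.dx 0 (.tr (.lf 9) (.tw (.lf 5) (.lf 15)) (.lf 10))) (.lf 19)), 0, [3, 3, 3, 3], []⟩)
    (.lf ⟨[.ofNat 0, .ofNat 0, .negSucc 9354239, .ofNat 9672960, .negSucc 3755519, .ofNat 487680], (.tr (.dx 0 (.lf 19)) (.lf 5) (.tr (.lf 9) (.tw (.lf 6) (.lf 15)) (.lf 10))), 0, [30, 30, 30, 30], []⟩))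
    (.nd (.lf ⟨[.ofNat 0, .ofNat 0, .ofNat 783360, .negSucc 978239, .ofNat 1272960, .negSucc 121919], (.tw (.lf 9) (.tr (.dx 0 (.lf 19)) (.tr (.lf 5) (.lf 10) (.lf 6)) (.lf 15))), 0, [19, 19, 31, 31], []⟩)
    (.lf ⟨[.ofNat 0, .ofNat 0, .ofNat 783360, .negSucc 978239, .ofNat 1272960, .negSucc 121919], (.tr (.lf 9) (.tr (.dx 0 (.lf 19)) (.tw (.lf 5) (.lf 6)) (.lf 10)) (.lf 15)), 0, [37, 37, 34, 34], []⟩))))

/-- data -/
def dV1x17 : RT := (.nd (.nd (.nd (.lf ⟨[.ofNat 0, .ofNat 0, .negSucc 1566719, .ofNat 1956480, .negSucc 2545919, .ofNat 243840], (.tr (.lf 9) (.tr (.dx 0 (.lf 19)) (.lf 5) (.tw (.lf 6) (.lf 10))) (.lf 15)), 0, [37, 19, 34, 34], []⟩)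
    (.lf ⟨[.ofNat 0, .ofNat 0, .ofNat 1566720, .negSucc 1956479, .ofNat 2545920, .negSucc 243839], (.tr (.lf 15) (.dx 0 (.lf 19)) (.tr (.lf 5) (.lf 9) (.tw (.lf 6) (.lf 10)))), 0, [35, 9, 9, 9], []⟩))
    (.nd (.lf ⟨[.ofNat 0, .ofNat 0, .ofNat 599040, .ofNat 298560, .negSucc 604799, .ofNat 121920], (.tr (.dx 0 (.tw (.lf 5) (.lf 19))) (.lf 15) (.tr (.lf 9) (.lf 6) (.lf 10))), 0, [35, 35, 35, 35], []⟩)
    (.lf ⟨[.ofNat 0, .ofNat 1820160, .ofNat 1921920, .negSucc 3603839, .ofNat 2110080, .negSucc 243839], (.tr (.dx 0 (.tw (.lf 9) (.lf 19))) (.lf 10) (.tr (.lf 5) (.lf 6) (.lf 15))), 0, [19, 25, 19, 25], []⟩)))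
    (.nd (.nd (.lf ⟨[.ofNat 0, .negSucc 1820159, .negSucc 1921919, .ofNat 3603840, .negSucc 2110079, .ofNat 243840], (.tr (.lf 10) (.dx 0 (.tw (.lf 9) (.lf 15))) (.tr (.lf 5) (.lf 6) (.lf 19))), 0, [12, 17, 27, 17], []⟩)
    (.lf ⟨[.ofNat 0, .negSucc 8781119, .ofNat 23864880, .negSucc 25460159, .ofNat 10436400, .negSucc 1645919], (.tr (.lf 15) (.dx 1 .on) (.tr (.lf 9) (.lf 19) (.tr (.lf 1) (.lf 10) (.lf 2)))), 1, [21, 21, 18, 18], [21, 21, 29, 29]⟩))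
    (.nd (.lf ⟨[.ofNat 0, .ofNat 0, .negSucc 1221119, .ofNat 1082880, .negSucc 161279], (.tr (.lf 5) (.tr (.dx 0 (.tw (.lf 9) (.lf 15))) (.lf 19) (.lf 6)) (.lf 10)), 0, [35, 35, 16, 16], []⟩)
    (.lf ⟨[.ofNat 0, .ofNat 0, .ofNat 6036480, .negSucc 5750399, .ofNat 2000640, .negSucc 243839], (.tw (.dx 0 (.tw (.lf 9) (.lf 15))) (.tr (.lf 10) (.tw (.lf 5) (.lf 6)) (.lf 19))), 0, [27, 27, 35, 35, 27, 27, 35, 35], []⟩))))

/-- data -/
def dV1x18 : RT := (.nd (.nd (.nd (.lf ⟨[.ofNat 0, .ofNat 0, .negSucc 12072959, .ofNat 11500800, .negSucc 4001279, .ofNat 487680], (.tr (.dx 0 (.tw (.lf 9) (.lf 15))) (.tr (.lf 5) (.lf 6) (.lf 10)) (.lf 19)), 0, [20, 27, 10, 27], []⟩)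
    (.lf ⟨[.ofNat 0, .ofNat 0, .ofNat 12072960, .negSucc 11500799, .ofNat 4001280, .negSucc 487679], (.tr (.dx 0 (.tw (.lf 9) (.lf 15))) (.lf 5) (.tr (.lf 6) (.lf 10) (.lf 19))), 0, [20, 9, 10, 9], []⟩))
    (.nd (.lf ⟨[.ofNat 0, .ofNat 0, .ofNat 1221120, .negSucc 1082879, .ofNat 161280], (.tr (.dx 0 (.tw (.lf 9) (.lf 19))) (.tr (.lf 5) (.lf 15) (.lf 10)) (.lf 6)), 0, [20, 25, 9, 25], []⟩)
    (.lf ⟨[.ofNat 0, .ofNat 0, .negSucc 1900799, .ofNat 1127040, .negSucc 629759], (.tr (.dx 0 (.tw (.lf 9) (.lf 19))) (.lf 15) (.tr (.lf 5) (.lf 10) (.lf 6))), 0, [9, 9, 9, 9], []⟩)))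
    (.nd (.nd (.lf ⟨[.ofNat 0, .ofNat 0, .negSucc 4043519, .ofNat 3583680, .negSucc 1357439, .ofNat 121920], (.tr (.lf 15) (.dx 0 (.tw (.lf 9) (.lf 19))) (.tr (.lf 5) (.lf 10) (.lf 6))), 0, [9, 9, 9, 9], []⟩)
    (.lf ⟨[.ofNat 0, .negSucc 33530399, .ofNat 88143480, .negSucc 85394879, .ofNat 32155320, .negSucc 5151119], (.tr (.dx 0 (.tr (.lf 5) (.tw (.lf 9) (.lf 19)) (.lf 6))) (.lf 15) (.lf 10)), 0, [0, 7, 0, 7], []⟩))
    (.nd (.lf ⟨[.ofNat 0, .negSucc 6796799, .ofNat 17295360, .negSucc 35647199, .ofNat 33436800, .negSucc 12710879, .ofNat 2072640], (.tr (.dx 0 (.tr (.lf 9) (.lf 10) (.lf 19))) (.lf 15) (.tw (.lf 5) (.lf 6))), 0, [25, 25, 25, 25], []⟩)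
    (.lf ⟨[.ofNat 0, .ofNat 5797440, .negSucc 15678959, .ofNat 14773440, .negSucc 5825519, .ofNat 914400], (.tr (.tw (.lf 5) (.lf 6)) (.dx 0 (.tr (.lf 9) (.lf 10) (.lf 19))) (.lf 15)), 0, [32, 32, 32, 32], []⟩))))

/-- data -/
def dV1x19 : RT := (.nd (.nd (.nd (.lf ⟨[.ofNat 0, .ofNat 7907040, .negSucc 3251719, .negSucc 7469919, .ofNat 12166840, .negSucc 5705519, .ofNat 1097280], (.tr (.dx 0 (.tr (.lf 5) (.tw (.lf 9) (.lf 10)) (.lf 19))) (.lf 15) (.lf 6)), 0, [0, 0, 25, 25], []⟩)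
    (.lf ⟨[.ofNat 0, .ofNat 29158560, .negSucc 73571479, .ofNat 110479520, .negSucc 87075799, .ofNat 29965200, .negSucc 4511039], (.tr (.dx 0 (.tr (.lf 5) (.lf 19) (.tw (.lf 9) (.lf 10)))) (.lf 15) (.lf 6)), 0, [25, 25, 20, 20], []⟩))
    (.nd (.lf ⟨[.ofNat 0, .ofNat 0, .negSucc 5780159, .ofNat 14321520, .negSucc 12869279, .ofNat 4705200, .negSucc 731519], (.tr (.lf 6) (.dx 0 (.tr (.lf 5) (.tw (.lf 9) (.lf 10)) (.lf 19))) (.lf 15)), 0, [32, 32, 32, 32], []⟩)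
    (.lf ⟨[.ofNat 0, .ofNat 0, .negSucc 2603519, .ofNat 2708160, .negSucc 723839, .ofNat 121920], (.tr (.lf 15) (.lf 2) (.tr (.dx 1 (.lf 1)) (.tw (.lf 9) (.lf 10)) (.lf 19))), 1, [15, 15, 33, 33], [15, 15, 9, 9]⟩)))
    (.nd (.nd (.lf ⟨[.ofNat 0, .ofNat 0, .ofNat 5253120, .negSucc 4772159, .ofNat 727680, .negSucc 121919], (.tr (.dx 0 (.lf 5)) (.lf 6) (.tr (.lf 15) (.tw (.lf 9) (.lf 10)) (.lf 19))), 0, [0, 0, 0, 0], [15, 15, 37, 37]⟩)
    (.lf ⟨[.ofNat 0, .negSucc 18372959, .ofNat 44298480, .negSucc 13163549, .negSucc 24847919, .ofNat 14369010, .negSucc 2964179], (.tr (.lf 6) (.dx 0 (.tr (.tw (.lf 9) (.lf 10)) (.lf 5) (.lf 19))) (.lf 15)), 0, [23, 23, 32, 32], []⟩))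
    (.nd (.lf ⟨[.ofNat 0, .ofNat 7845120, .negSucc 20053439, .ofNat 22847040, .negSucc 9295679, .ofNat 1584960], (.tw (.dx 0 (.tr (.lf 5) (.tr (.lf 9) (.lf 10) (.lf 19)) (.lf 6))) (.lf 15)), 0, [0, 0, 0, 0], []⟩)
    (.lf ⟨[.ofNat 0, .ofNat 0, .ofNat 6036480, .negSucc 5750399, .ofNat 2000640, .negSucc 243839], (.tw (.dx 0 (.tr (.lf 9) (.lf 10) (.tr (.lf 5) (.lf 19) (.lf 6)))) (.lf 15)), 0, [20, 20, 23, 23], []⟩))))

/-- data -/
def dV1x20 : RT := (.nd (.nd (.nd (.lf ⟨[.ofNat 0, .ofNat 0, .negSucc 6036479, .ofNat 5750400, .negSucc 2000639, .ofNat 243840], (.tr (.lf 19) (.lf 9) (.tr (.dx 1 (.lf 15)) (.tw (.lf 1) (.lf 2)) (.lf 10))), 1, [13, 13, 25, 25], []⟩)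
    (.lf ⟨[.ofNat 0, .ofNat 0, .negSucc 6036479, .ofNat 5750400, .negSucc 2000639, .ofNat 243840], (.tr (.lf 19) (.lf 9) (.tr (.tw (.lf 1) (.lf 2)) (.dx 1 (.lf 15)) (.lf 10))), 1, [14, 14, 1, 1], []⟩))
    (.nd (.lf ⟨[.ofNat 0, .ofNat 0, .ofNat 6036480, .negSucc 5750399, .ofNat 2000640, .negSucc 243839], (.tr (.lf 1) (.lf 2) (.tr (.dx 1 (.lf 15)) (.tw (.lf 9) (.lf 10)) (.lf 19))), 1, [0, 0, 30, 30], []⟩)
    (.lf ⟨[.ofNat 0, .ofNat 0, .negSucc 6036479, .ofNat 5750400, .negSucc 2000639, .ofNat 243840], (.tr (.dx 1 (.lf 15)) (.lf 9) (.tr (.tw (.lf 1) (.lf 2)) (.lf 19) (.lf 10))), 1, [24, 24, 31, 31], []⟩)))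
    (.nd (.nd (.lf ⟨[.ofNat 0, .ofNat 0, .negSucc 1175039, .ofNat 1413120, .ofNat 963840], (.tr (.lf 5) (.dx 0 (.tw (.lf 15) (.lf 19))) (.tr (.lf 9) (.lf 6) (.lf 10))), 0, [35, 35, 35, 35], []⟩)
    (.lf ⟨[.ofNat 0, .ofNat 12407040, .negSucc 17622719, .negSucc 2010239, .ofNat 15645120, .negSucc 6996479, .ofNat 1219200], (.tr (.dx 0 (.tw (.lf 15) (.lf 19))) (.lf 9) (.tr (.lf 5) (.lf 6) (.lf 10))), 0, [35, 9, 35, 9], []⟩))
    (.nd (.lf ⟨[.ofNat 0, .ofNat 0, .negSucc 25032959, .ofNat 43247040, .negSucc 34463999, .ofNat 11428800, .negSucc 1706879], (.tr (.dx 0 (.tw (.lf 15) (.lf 19))) (.tr (.lf 5) (.lf 6) (.lf 9)) (.lf 10)), 0, [35, 35, 35, 35], []⟩)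
    (.lf ⟨[.ofNat 0, .ofNat 19239840, .negSucc 50405399, .ofNat 47523600, .negSucc 13782359, .ofNat 830880, .ofNat 426720], (.tr (.dx 0 (.tr (.lf 9) (.lf 15) (.lf 19))) (.tw (.lf 5) (.lf 6)) (.lf 10)), 0, [35, 35, 35, 35], []⟩))))

/-- data -/
def dV1x21 : RT := (.nd (.nd (.nd (.lf ⟨[.ofNat 0, .ofNat 19239840, .negSucc 56441879, .ofNat 53274000, .negSucc 15782999, .ofNat 1074720, .ofNat 426720], (.tr (.dx 0 (.tr (.lf 9) (.lf 19) (.lf 15))) (.tw (.lf 5) (.lf 6)) (.lf 10)), 0, [35, 35, 35, 35], []⟩)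
    (.lf ⟨[.ofNat 0, .ofNat 39977280, .negSucc 93846959, .ofNat 91832640, .negSucc 34430639, .ofNat 5791200], (.tr (.tw (.dx 0 (.tr (.lf 5) (.lf 6) (.lf 9))) (.lf 15)) (.lf 19) (.lf 10)), 0, [0, 20, 29, 22], []⟩))
    (.nd (.lf ⟨[.ofNat 0, .negSucc 38479679, .ofNat 100810800, .negSucc 95047199, .ofNat 27564720, .negSucc 1661759, .negSucc 853439], (.tr (.dx 0 (.tr (.lf 5) (.lf 6) (.lf 9))) (.tw (.lf 15) (.lf 19)) (.lf 10)), 0, [0, 0, 20, 7], []⟩)
    (.lf ⟨[.ofNat 0, .ofNat 19239840, .negSucc 62921879, .ofNat 69147120, .negSucc 31014359, .ofNat 6545280, .negSucc 426719], (.tw (.dx 0 (.tw (.lf 19) (.tr (.tw (.lf 5) (.lf 6)) (.lf 9) (.lf 15)))) (.lf 10)), 0, [13, 13, 30, 30, 0, 0, 10, 10], []⟩)))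
    (.nd (.nd (.lf ⟨[.ofNat 0, .ofNat 0, .negSucc 12072959, .ofNat 11500800, .negSucc 4001279, .ofNat 487680], (.tr (.lf 10) (.tw (.dx 0 (.tr (.lf 5) (.lf 6) (.lf 9))) (.lf 19)) (.lf 15)), 0, [5, 12, 23, 28], []⟩)
    (.lf ⟨[.ofNat 0, .ofNat 0, .ofNat 6036480, .negSucc 5750399, .ofNat 2000640, .negSucc 243839], (.tr (.lf 15) (.lf 19) (.tr (.lf 1) (.dx 1 .on) (.tr (.lf 9) (.lf 2) (.lf 10)))), 1, [13, 13, 1, 1], [13, 13, 1, 1]⟩))
    (.nd (.lf ⟨[.ofNat 0, .ofNat 0, .negSucc 6036479, .ofNat 5750400, .negSucc 2000639, .ofNat 243840], (.tr (.lf 1) (.dx 1 .on) (.tr (.lf 15) (.lf 19) (.tr (.lf 9) (.lf 2) (.lf 10)))), 1, [13, 13, 0, 0], [13, 13, 0, 0]⟩)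
    (.lf ⟨[.ofNat 0, .ofNat 38479680, .negSucc 125843759, .ofNat 138294240, .negSucc 62028719, .ofNat 13090560, .negSucc 853439], (.tw (.dx 0 (.tr (.lf 5) (.lf 6) (.tr (.lf 9) (.lf 19) (.lf 15)))) (.lf 10)), 0, [0, 13, 20, 13], []⟩))))

/-- data -/
def dV1x22 : RT := (.nd (.nd (.nd (.lf ⟨[.ofNat 0, .ofNat 0, .negSucc 3156479, .ofNat 3822720, .negSucc 1474559, .ofNat 243840], (.tr (.dx 0 (.tr (.lf 15) (.lf 9) (.lf 19))) (.tw (.lf 5) (.lf 6)) (.lf 10)), 0, [35, 35, 35, 35], []⟩)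
    (.lf ⟨[.ofNat 0, .ofNat 0, .negSucc 3041279, .ofNat 2027520, .negSucc 806399], (.tr (.dx 0 (.tr (.lf 15) (.lf 9) (.lf 19))) (.lf 5) (.tw (.lf 6) (.lf 10))), 0, [35, 9, 35, 9], []⟩))
    (.nd (.lf ⟨[.ofNat 0, .ofNat 0, .ofNat 5736960, .negSucc 4341119, .ofNat 4642560, .negSucc 243839], (.tr (.lf 6) (.dx 0 (.tr (.lf 5) (.lf 9) (.lf 15))) (.tw (.lf 10) (.lf 19))), 0, [32, 32, 15, 32], []⟩)
    (.lf ⟨[.ofNat 0, .ofNat 0, .ofNat 4239360, .negSucc 4252799, .ofNat 1701120, .negSucc 243839], (.tr (.tw (.dx 0 (.tr (.lf 5) (.lf 9) (.lf 15))) (.lf 6)) (.lf 19) (.lf 10)), 0, [0, 29, 32, 32], []⟩)))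
    (.nd (.nd (.lf ⟨[.ofNat 0, .ofNat 0, .negSucc 10874879, .ofNat 12097920, .negSucc 5210879, .ofNat 731520], (.tr (.dx 0 (.tr (.lf 5) (.lf 9) (.lf 15))) (.tw (.lf 6) (.lf 19)) (.lf 10)), 0, [0, 0, 29, 35], []⟩)
    (.lf ⟨[.ofNat 0, .ofNat 0, .ofNat 7833600, .negSucc 7247999, .ofNat 2300160, .negSucc 243839], (.tr (.dx 0 (.tr (.lf 15) (.tw (.lf 5) (.lf 9)) (.lf 19))) (.lf 6) (.lf 10)), 0, [35, 35, 35, 35], []⟩))
    (.nd (.lf ⟨[.ofNat 0, .ofNat 0, .ofNat 10874880, .negSucc 12097919, .ofNat 5210880, .negSucc 731519], (.tr (.tw (.dx 1 (.tr (.lf 1) (.lf 15) (.lf 9))) (.lf 2)) (.lf 19) (.lf 10)), 1, [32, 8, 0, 0], []⟩)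
    (.lf ⟨[.ofNat 0, .ofNat 0, .negSucc 4515839, .ofNat 4736640, .negSucc 1597439, .ofNat 243840], (.tw (.dx 0 (.tr (.lf 15) (.tr (.lf 9) (.lf 5) (.lf 10)) (.lf 19))) (.lf 6)), 0, [33, 33, 33, 33], []⟩))))

/-- data -/
def dV1x23 : RT := (.nd (.nd (.nd (.lf ⟨[.ofNat 0, .ofNat 0, .negSucc 5736959, .ofNat 4341120, .negSucc 4642559, .ofNat 243840], (.tr (.dx 1 (.tr (.lf 1) (.lf 15) (.lf 9))) (.lf 2) (.tw (.lf 10) (.lf 19))), 1, [15, 32, 8, 8], []⟩)
    (.lf ⟨[.ofNat 0, .ofNat 0, .ofNat 0, .negSucc 2822399, .ofNat 2104320, .negSucc 487679], (.tr (.tw (.dx 1 (.tr (.lf 1) (.lf 15) (.lf 9))) (.lf 10)) (.lf 19) (.lf 2)), 1, [32, 8, 34, 34], []⟩))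
    (.nd (.lf ⟨[.ofNat 0, .ofNat 0, .ofNat 3041280, .negSucc 2027519, .ofNat 806400], (.tr (.tw (.dx 0 (.tr (.lf 5) (.lf 9) (.lf 19))) (.lf 6)) (.lf 15) (.lf 10)), 0, [0, 30, 32, 32], []⟩)
    (.lf ⟨[.ofNat 0, .ofNat 0, .negSucc 10874879, .ofNat 12097920, .negSucc 5210879, .ofNat 731520], (.tr (.dx 0 (.tr (.lf 5) (.lf 9) (.lf 19))) (.tw (.lf 6) (.lf 15)) (.lf 10)), 0, [0, 0, 30, 30], []⟩)))
    (.nd (.nd (.lf ⟨[.ofNat 0, .ofNat 79401600, .negSucc 298646879, .ofNat 314278560, .negSucc 118342559, .ofNat 18836640], (.tr (.lf 6) (.tw (.dx 0 (.tr (.lf 5) (.lf 9) (.lf 15))) (.lf 19)) (.lf 10)), 0, [32, 32, 13, 13], []⟩)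
    (.lf ⟨[.ofNat 0, .ofNat 0, .negSucc 16358399, .ofNat 16414080, .negSucc 5456639, .ofNat 731520], (.tr (.dx 1 (.tw (.lf 1) (.lf 19))) (.tr (.lf 2) (.lf 15) (.lf 9)) (.lf 10)), 1, [7, 13, 7, 13], []⟩))
    (.nd (.lf ⟨[.ofNat 0, .ofNat 0, .ofNat 11001600, .negSucc 35010239, .ofNat 35950080, .negSucc 13544639, .ofNat 2194560], (.tr (.dx 1 (.tw (.lf 1) (.lf 19))) (.lf 2) (.tr (.lf 9) (.lf 10) (.lf 15))), 1, [37, 7, 37, 7], []⟩)
    (.lf ⟨[.ofNat 0, .ofNat 12407040, .ofNat 5624640, .negSucc 37232639, .ofNat 41352000, .negSucc 15212159, .ofNat 2438400], (.tr (.dx 1 (.tw (.lf 1) (.lf 19))) (.tr (.lf 2) (.lf 9) (.lf 10)) (.lf 15)), 1, [37, 32, 37, 23], []⟩))))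

/-- data -/
def dV1x24 : RT := (.nd (.nd (.nd (.lf ⟨[.ofNat 0, .negSucc 10733759, .ofNat 21278160, .negSucc 9449759, .negSucc 7834799, .ofNat 5126400, .negSucc 1097279], (.tw (.dx 1 (.tw (.lf 1) (.lf 19))) (.tr (.lf 2) (.lf 15) (.tw (.lf 9) (.lf 10)))), 1, [7, 7, 32, 32, 7, 7, 16, 16], []⟩)
    (.lf ⟨[.ofNat 0, .ofNat 9239040, .ofNat 44346240, .negSucc 60130559, .ofNat 24915840, .negSucc 3657599], (.tr (.tw (.dx 0 (.tr (.lf 5) (.lf 9) (.lf 15))) (.lf 10)) (.lf 19) (.lf 6)), 0, [0, 17, 12, 12], []⟩))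
    (.nd (.lf ⟨[.ofNat 0, .ofNat 0, .negSucc 12072959, .ofNat 11500800, .negSucc 4001279, .ofNat 487680], (.tr (.dx 0 (.tr (.lf 5) (.lf 9) (.lf 19))) (.lf 6) (.tw (.lf 10) (.lf 15))), 0, [37, 0, 37, 30], []⟩)
    (.lf ⟨[.ofNat 0, .ofNat 0, .ofNat 12072960, .negSucc 11500799, .ofNat 4001280, .negSucc 487679], (.tr (.tw (.lf 2) (.lf 19)) (.dx 1 (.tr (.lf 1) (.lf 15) (.lf 9))) (.lf 10)), 1, [35, 35, 35, 2], []⟩)))
    (.nd (.nd (.lf ⟨[.ofNat 0, .ofNat 0, .negSucc 12072959, .ofNat 11500800, .negSucc 4001279, .ofNat 487680], (.tr (.dx 0 (.tr (.tw (.lf 9) (.lf 19)) (.lf 5) (.lf 15))) (.lf 6) (.lf 10)), 0, [20, 35, 35, 35], []⟩)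
    (.lf ⟨[.ofNat 0, .ofNat 0, .negSucc 15137279, .ofNat 15331200, .negSucc 5295359, .ofNat 731520], (.tr (.lf 6) (.dx 0 (.tr (.lf 15) (.tw (.lf 5) (.lf 9)) (.lf 19))) (.lf 10)), 0, [32, 32, 13, 13], []⟩))
    (.nd (.lf ⟨[.ofNat 0, .ofNat 0, .ofNat 3893760, .negSucc 1716479, .ofNat 2626560], (.tr (.dx 1 (.tr (.lf 1) (.lf 15) (.lf 9))) (.tw (.lf 2) (.lf 19)) (.lf 10)), 1, [32, 32, 8, 8], []⟩)
    (.lf ⟨[.ofNat 0, .ofNat 0, .negSucc 3041279, .ofNat 4849920, .negSucc 2910719, .ofNat 487680], (.tr (.dx 1 (.tr (.lf 1) (.lf 15) (.lf 9))) (.tw (.lf 10) (.lf 19)) (.lf 2)), 1, [32, 21, 8, 21], []⟩))))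

/-- data -/
def dV1 : RT := (.nd (.nd (.nd (.nd dV1x0 (.nd dV1x1 dV1x2)) (.nd dV1x3 (.nd dV1x4 dV1x5))) (.nd (.nd dV1x6 (.nd dV1x7 dV1x8)) (.nd dV1x9 (.nd dV1x10 dV1x11)))) (.nd (.nd (.nd dV1x12 (.nd dV1x13 dV1x14)) (.nd dV1x15 (.nd dV1x16 dV1x17))) (.nd (.nd dV1x18 (.nd dV1x19 dV1x20)) (.nd (.nd dV1x21 dV1x22) (.nd dV1x23 dV1x24)))))

/-- data -/
def lV1x0 : List (ℕ × List ℤ) := [(5349, [.ofNat 0, .ofNat 0, .ofNat 0, .negSucc 19779839, .ofNat 141411360, .negSucc 217841279, .ofNat 156554400, .negSucc 50879039, .ofNat 7315200]),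
  (5356, [.ofNat 0, .ofNat 0, .ofNat 189365760, .negSucc 527471679, .ofNat 862397680, .negSucc 683940159, .ofNat 329622000, .negSucc 87212639, .ofNat 11460480]),
  (5405, [.ofNat 0, .ofNat 0, .ofNat 378731520, .negSucc 1015700479, .ofNat 1483976000, .negSucc 1030374079, .ofNat 424641600, .negSucc 97149119, .ofNat 11460480]),
  (5468, [.ofNat 0, .ofNat 0, .ofNat 189365760, .negSucc 508285119, .ofNat 756757360, .negSucc 557267199, .ofNat 248690160, .negSucc 60327839, .ofNat 7315200]),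
  (38124, [.ofNat 0, .negSucc 16127999, .ofNat 85810560, .ofNat 41120640, .negSucc 244441199, .negSucc 64778399, .ofNat 361476240, .negSucc 176919359, .ofNat 33528000]),
  (38173, [.ofNat 0, .negSucc 122198399, .ofNat 363704800, .negSucc 542479599, .ofNat 714402640, .negSucc 156212399, .negSucc 335112239, .ofNat 193381920, .negSucc 38039039]),
  (38187, [.ofNat 0, .ofNat 0, .ofNat 13772160, .ofNat 73135200, .negSucc 352474559, .ofNat 522409440, .negSucc 344633279, .ofNat 104517120, .negSucc 13776959]),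
  (38236, [.ofNat 0, .negSucc 189365759, .ofNat 512841280, .negSucc 738695439, .ofNat 515160640, .negSucc 212330639, .ofNat 46661280, .negSucc 5120639]),
  (38243, [.ofNat 0, .negSucc 67167359, .ofNat 82625760, .ofNat 77096640, .negSucc 638451359, .negSucc 96803039, .ofNat 778797120, .negSucc 393562079, .ofNat 74371200]),
  (42213, [.ofNat 0, .ofNat 16128000, .negSucc 13361279, .negSucc 102581279, .negSucc 99124559, .ofNat 785103360, .negSucc 898008719, .ofNat 349358400, .negSucc 57424319]),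
  (42220, [.ofNat 0, .ofNat 16128000, .negSucc 8021759, .negSucc 237823679, .ofNat 235752240, .ofNat 195170400, .negSucc 386807759, .ofNat 165270720, .negSucc 28651199]),
  (42269, [.ofNat 0, .ofNat 0, .ofNat 73762560, .negSucc 161474879, .negSucc 51004799, .ofNat 92731200, .ofNat 65120640, .negSucc 51920639, .ofNat 12192000]),
  (42283, [.ofNat 0, .ofNat 0, .ofNat 0, .negSucc 5299199, .ofNat 4128000, .negSucc 7679]),
  (42332, [.ofNat 0, .ofNat 0, .ofNat 37238400, .negSucc 115175519, .ofNat 119838720, .negSucc 44511839, .ofNat 7437120]),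
  (42725, [.ofNat 0, .negSucc 16127999, .ofNat 83990400, .ofNat 39198720, .negSucc 240837359, .negSucc 66888479, .ofNat 361720080, .negSucc 176919359, .ofNat 33528000]),
  (42732, [.ofNat 0, .negSucc 122198399, .ofNat 375656800, .negSucc 504501519, .ofNat 470814160, .ofNat 203151600, .negSucc 561383279, .ofNat 259465440, .negSucc 46329599]),
  (43293, [.ofNat 0, .negSucc 256533119, .ofNat 595467040, .negSucc 661598799, .negSucc 123290719, .negSucc 309133679, .ofNat 825458400, .negSucc 398682719, .ofNat 74371200]),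
  (43868, [.ofNat 0, .ofNat 0, .negSucc 3640319, .ofNat 29391360, .negSucc 98074559, .ofNat 156715200, .negSucc 117630719, .ofNat 38433600, .negSucc 5486399]),
  (304364, [.ofNat 0, .ofNat 0, .ofNat 63694080, .negSucc 165817919, .ofNat 134140800, .negSucc 24079679, .negSucc 4156799, .ofNat 2194560]),
  (304483, [.ofNat 0, .ofNat 0, .negSucc 18852479, .ofNat 55000800, .negSucc 17865599, .negSucc 36533279, .ofNat 21115200, .negSucc 4389119]),
  (305004, [.ofNat 0, .ofNat 5840640, .ofNat 23759040, .ofNat 15610560, .ofNat 50518080, .negSucc 87470399, .ofNat 40189440, .negSucc 7071359]),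
  (305437, [.ofNat 0, .ofNat 58665600, .negSucc 234406559, .ofNat 361361520, .ofNat 67846080, .negSucc 362075279, .ofNat 173944320, .negSucc 31943039]),
  (305515, [.ofNat 0, .negSucc 4285439, .ofNat 41203200, .ofNat 17705280, .ofNat 9453120, .negSucc 59516159, .ofNat 33238080, .negSucc 6705599]),
  (306019, [.ofNat 0, .ofNat 46713600, .negSucc 281957759, .ofNat 622062000, .negSucc 305975519, .negSucc 131045519, .ofNat 107129280, .negSucc 23652479]),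
  (333036, [.ofNat 0, .ofNat 0, .negSucc 671039, .negSucc 15827279, .ofNat 20255040, .negSucc 6995279, .ofNat 1280160]),
  (333155, [.ofNat 0, .ofNat 92568960, .negSucc 47591839, .negSucc 312460959, .ofNat 507056800, .negSucc 271847519, .ofNat 69123840, .negSucc 6827519]),
  (333477, [.ofNat 0, .ofNat 0, .ofNat 109471680, .negSucc 341078159, .ofNat 351635520, .negSucc 133514639, .ofNat 22006560]),
  (333484, [.ofNat 0, .ofNat 0, .negSucc 154028159, .ofNat 527369760, .negSucc 557172479, .ofNat 213929760, .negSucc 34991039]),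
  (333589, [.ofNat 0, .ofNat 0, .negSucc 6863039, .negSucc 85478639, .ofNat 123641280, .negSucc 52158959, .ofNat 9204960]),
  (333610, [.ofNat 0, .ofNat 0, .ofNat 69865920, .negSucc 263159759, .ofNat 282123840, .negSucc 109421519, .ofNat 17861280]),
  (333981, [.ofNat 0, .ofNat 0, .negSucc 57666239, .ofNat 263719440, .negSucc 301450559, .ofNat 119170320, .negSucc 20055839]),
  (333995, [.ofNat 0, .ofNat 0, .negSucc 10578239, .negSucc 19610639, .ofNat 36578880, .negSucc 16342799, .ofNat 2987040]),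
  (334058, [.ofNat 0, .ofNat 0, .negSucc 14486399, .ofNat 36663840, .negSucc 33267839, .ofNat 14096160, .negSucc 2072639]),
  (334170, [.ofNat 0, .ofNat 0, .negSucc 66715199, .ofNat 295770960, .negSucc 339979199, .ofNat 138321360, .negSucc 23469599]),
  (334492, [.ofNat 0, .negSucc 14981759, .ofNat 41471520, .ofNat 26791920, .negSucc 80233439, .ofNat 39357360, .negSucc 7498079]),
  (334548, [.ofNat 0, .ofNat 0, .ofNat 0, .negSucc 5356799, .ofNat 6685440, .negSucc 2883839, .ofNat 487680]),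
  (334562, [.ofNat 0, .ofNat 0, .ofNat 58705920, .negSucc 81607679, .ofNat 15833280, .ofNat 65458560, .negSucc 33645119, .ofNat 6827520]),
  (337637, [.ofNat 0, .negSucc 13777919, .negSucc 95381759, .ofNat 471354240, .negSucc 737535359, .ofNat 528631680, .negSucc 169269119, .ofNat 23896320]),
  (338141, [.ofNat 0, .negSucc 11951999, .negSucc 47551199, .ofNat 260700480, .negSucc 373821599, .ofNat 231029760, .negSucc 66815039, .ofNat 8290560]),
  (338205, [.ofNat 0, .ofNat 0, .negSucc 18852479, .ofNat 55000800, .negSucc 17865599, .negSucc 36533279, .ofNat 21115200, .negSucc 4389119]),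
  (338251, [.ofNat 0, .negSucc 114796799, .ofNat 303954720, .negSucc 259579559, .ofNat 66955680, .negSucc 320039, .negSucc 2651759]),
  (338780, [.ofNat 0, .ofNat 0, .negSucc 46529279, .ofNat 117865920, .negSucc 165097919, .ofNat 118606080, .negSucc 38433599, .ofNat 5486400]),
  (340645, [.ofNat 0, .ofNat 0, .ofNat 45201600, .negSucc 110453999, .ofNat 104769600, .negSucc 37399919, .ofNat 6035040]),
  (340652, [.ofNat 0, .ofNat 6128640, .negSucc 81152639, .ofNat 216575520, .negSucc 174386879, .ofNat 17102880, .ofNat 13272960, .negSucc 4632959]),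
  (340709, [.ofNat 0, .ofNat 102574080, .negSucc 339222719, .ofNat 544035600, .negSucc 406059839, .ofNat 136239120, .negSucc 20055839]),
  (340716, [.ofNat 0, .ofNat 0, .ofNat 3585600, .ofNat 79744560, .negSucc 142104959, .ofNat 124975920, .negSucc 43337759, .ofNat 6827520]),
  (340757, [.ofNat 0, .negSucc 11203199, .ofNat 99272160, .negSucc 248848799, .ofNat 247887840, .negSucc 93734879, .ofNat 15240000]),
  (340765, [.ofNat 0, .ofNat 0, .ofNat 53660160, .negSucc 135198719, .ofNat 127224960, .negSucc 48476159, .ofNat 7559040]),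
  (340778, [.ofNat 0, .ofNat 0, .ofNat 110954880, .negSucc 264880799, .ofNat 247896960, .negSucc 111434399, .ofNat 23703360, .negSucc 1950719]),
  (340779, [.ofNat 0, .ofNat 67432320, .negSucc 273296159, .ofNat 296965440, .negSucc 111173279, .ofNat 18531840]),
  (340820, [.ofNat 0, .ofNat 164897280, .negSucc 553082879, .ofNat 577029600, .negSucc 237375359, .ofNat 44123040, .negSucc 1584959]),
  (340828, [.ofNat 0, .ofNat 0, .ofNat 89974080, .negSucc 219201839, .ofNat 204181440, .negSucc 75969839, .ofNat 11887200]),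
  (340834, [.ofNat 0, .negSucc 118702079, .ofNat 446918400, .negSucc 662518079, .ofNat 469489920, .negSucc 171259199, .ofNat 30652800, .negSucc 1950719]),
  (340835, [.ofNat 0, .ofNat 0, .negSucc 806399, .ofNat 1780800, .negSucc 597119, .ofNat 121920]),
  (341221, [.ofNat 0, .ofNat 0, .ofNat 0, .negSucc 11289599, .ofNat 13422720, .negSucc 4035839, .ofNat 731520]),
  (341277, [.ofNat 0, .negSucc 132145919, .ofNat 237191040, .negSucc 208921199, .ofNat 20517120, .ofNat 11032080, .negSucc 4937759]),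
  (341291, [.ofNat 0, .ofNat 0, .ofNat 3732480, .negSucc 4264319, .ofNat 986880, .negSucc 243839]),
  (341340, [.ofNat 0, .ofNat 0, .negSucc 51249599, .ofNat 202535760, .negSucc 218767679, .ofNat 82766160, .negSucc 13472159]),
  (342117, [.ofNat 0, .ofNat 0, .ofNat 5253120, .negSucc 6222719, .ofNat 1470720, .negSucc 243839]),
  (342173, [.ofNat 0, .ofNat 119018880, .negSucc 404199839, .ofNat 423114240, .negSucc 138851999, .negSucc 15479999, .ofNat 17898240, .negSucc 3169919]),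
  (342181, [.ofNat 0, .ofNat 0, .ofNat 38292480, .negSucc 109873919, .ofNat 118344960, .negSucc 46598399, .ofNat 7802880]),
  (342188, [.ofNat 0, .ofNat 0, .ofNat 222696000, .negSucc 569954159, .ofNat 544265280, .negSucc 203272559, .ofNat 32369760]),
  (342252, [.ofNat 0, .ofNat 14981760, .negSucc 223337759, .ofNat 592125840, .negSucc 579547679, .ofNat 215847120, .negSucc 34442399]),
  (342347, [.ofNat 0, .ofNat 0, .negSucc 1589759, .ofNat 2425920, .negSucc 597119, .ofNat 121920]),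
  (342348, [.ofNat 0, .ofNat 0, .negSucc 39565439, .ofNat 179939040, .negSucc 208029119, .ofNat 74901600, .negSucc 9423359, .negSucc 975359]),
  (342364, [.ofNat 0, .ofNat 0, .negSucc 97096319, .ofNat 252513120, .negSucc 215684159, .ofNat 33606240, .ofNat 10346880, .negSucc 4632959]),
  (342620, [.ofNat 0, .ofNat 0, .ofNat 92439360, .negSucc 235746479, .ofNat 226294080, .negSucc 85325999, .ofNat 13594080]),
  (342626, [.ofNat 0, .ofNat 67432320, .negSucc 273296159, .ofNat 302322240, .negSucc 117858719, .ofNat 21415680, .negSucc 487679]),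
  (342668, [.ofNat 0, .ofNat 0, .negSucc 98069759, .ofNat 282985920, .negSucc 288126719, .ofNat 109498560, .negSucc 17800319]),
  (342693, [.ofNat 0, .ofNat 82540800, .negSucc 253522559, .ofNat 150179280, .ofNat 82701120, .negSucc 106543919, .ofNat 36254880, .negSucc 4632959]),
  (342700, [.ofNat 0, .ofNat 0, .negSucc 1820159, .ofNat 756480, .ofNat 261120, .negSucc 668159]),
  (342794, [.ofNat 0, .ofNat 0, .ofNat 80997120, .negSucc 184735679, .ofNat 170869440, .negSucc 69833279, .ofNat 12479040, .negSucc 487679]),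
  (342797, [.ofNat 0, .negSucc 118702079, .ofNat 446918400, .negSucc 662518079, .ofNat 469489920, .negSucc 171259199, .ofNat 30652800, .negSucc 1950719]),
  (342813, [.ofNat 0, .ofNat 102574080, .negSucc 345325439, .ofNat 513931680, .negSucc 377870399, .ofNat 132997920, .negSucc 21135359, .ofNat 487680]),
  (342860, [.ofNat 0, .negSucc 114796799, .ofNat 303954720, .negSucc 259579559, .ofNat 66955680, .negSucc 320039, .negSucc 2651759]),
  (344733, [.ofNat 0, .ofNat 0, .ofNat 77146560, .negSucc 237113999, .ofNat 236990400, .negSucc 89423759, .ofNat 14447520]),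
  (344789, [.ofNat 0, .ofNat 4924800, .negSucc 87246239, .ofNat 151632000, .negSucc 111420959, .ofNat 36513600, .negSucc 5120639]),
  (344861, [.ofNat 0, .ofNat 6128640, .ofNat 57971520, .negSucc 204870959, .ofNat 217469760, .negSucc 83208239, .ofNat 13594080]),
  (344875, [.ofNat 0, .ofNat 0, .negSucc 59028479, .ofNat 217626720, .negSucc 227784959, .ofNat 89956320, .negSucc 14752319]),
  (344915, [.ofNat 0, .ofNat 0, .ofNat 53660160, .negSucc 135198719, .ofNat 127224960, .negSucc 48476159, .ofNat 7559040]),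
  (344922, [.ofNat 0, .negSucc 237404159, .ofNat 836196480, .negSucc 1215802079, .ofNat 855318720, .negSucc 299249759, .ofNat 48940800, .negSucc 1950719]),
  (345324, [.ofNat 0, .ofNat 0, .ofNat 5253120, .negSucc 6222719, .ofNat 1470720, .negSucc 243839]),
  (345373, [.ofNat 0, .ofNat 92568960, .negSucc 47591839, .negSucc 312460959, .ofNat 507056800, .negSucc 271847519, .ofNat 69123840, .negSucc 6827519]),
  (345387, [.ofNat 0, .ofNat 0, .negSucc 7001279, .negSucc 85916399, .ofNat 123802560, .negSucc 52158959, .ofNat 9204960]),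
  (345436, [.ofNat 0, .ofNat 0, .ofNat 3732480, .negSucc 4264319, .ofNat 986880, .negSucc 243839]),
  (345701, [.ofNat 0, .ofNat 108668160, .negSucc 329760959, .ofNat 339341760, .negSucc 154265279, .ofNat 33837120, .negSucc 2682239]),
  (345707, [.ofNat 0, .ofNat 0, .ofNat 783360, .negSucc 645119]),
  (345757, [.ofNat 0, .ofNat 158595840, .negSucc 450830079, .ofNat 528200080, .negSucc 251651199, .ofNat 58726800, .negSucc 4450079]),
  (345765, [.ofNat 0, .ofNat 0, .negSucc 2465279, .ofNat 16544640, .negSucc 22112639, .ofNat 9356160, .negSucc 1706879]),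
  (345772, [.ofNat 0, .ofNat 16128000, .ofNat 38642880, .negSucc 186017999, .ofNat 207069120, .negSucc 82380239, .ofNat 13716000]),
  (345931, [.ofNat 0, .ofNat 0, .ofNat 111738240, .negSucc 265525919, .ofNat 247896960, .negSucc 111434399, .ofNat 23703360, .negSucc 1950719]),
  (345954, [.ofNat 0, .ofNat 0, .negSucc 39214079, .ofNat 165949440, .negSucc 183983999, .ofNat 71996160, .negSucc 11948159]),
  (346731, [.ofNat 0, .ofNat 0, .negSucc 809279, .negSucc 4975439, .ofNat 6993600, .negSucc 2959439, .ofNat 548640]),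
  (346763, [.ofNat 0, .ofNat 0, .negSucc 39214079, .ofNat 165949440, .negSucc 183983999, .ofNat 71996160, .negSucc 11948159]),
  (346781, [.ofNat 0, .ofNat 42289920, .negSucc 93736319, .ofNat 85414320, .ofNat 916800, .negSucc 55755599, .ofNat 25647840, .negSucc 4632959]),
  (346787, [.ofNat 0, .negSucc 4607999, .ofNat 48702720, .negSucc 105513599, .ofNat 124444800, .negSucc 79130879, .ofNat 23506560, .negSucc 3169919]),
  (346826, [.ofNat 0, .ofNat 0, .negSucc 21311999, .ofNat 113141760, .negSucc 135868799, .ofNat 55975680, .negSucc 9509759]),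
  (346837, [.ofNat 0, .ofNat 82356480, .negSucc 352808639, .ofNat 505466880, .negSucc 343079999, .ofNat 107778240, .negSucc 14874239]),
  (348835, [.ofNat 0, .ofNat 118702080, .negSucc 328757759, .ofNat 392442720, .negSucc 222577919, .ofNat 62158560, .negSucc 7437119]),
  (348908, [.ofNat 0, .negSucc 11203199, .ofNat 41516640, .negSucc 99448319, .ofNat 106111200, .negSucc 42815039, .ofNat 7071360])]

/-- data -/
def lV1x1 : List (ℕ × List ℤ) := [(348947, [.ofNat 0, .negSucc 11203199, .ofNat 41516640, .negSucc 99448319, .ofNat 106111200, .negSucc 42815039, .ofNat 7071360]),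
  (349020, [.ofNat 0, .ofNat 118702080, .negSucc 292596479, .ofNat 284737440, .negSucc 112177919, .ofNat 24821280, .negSucc 1341119]),
  (349420, [.ofNat 0, .negSucc 97176959, .ofNat 333091040, .negSucc 536381359, .ofNat 387784160, .negSucc 130502639, .ofNat 18958560]),
  (349836, [.ofNat 0, .ofNat 0, .negSucc 98069759, .ofNat 282985920, .negSucc 288126719, .ofNat 109498560, .negSucc 17800319]),
  (350315, [.ofNat 0, .ofNat 150958080, .negSucc 370248959, .ofNat 346139520, .negSucc 130344959, .ofNat 20970240]),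
  (2434859, [.ofNat 0, .ofNat 0, .negSucc 25032959, .ofNat 43247040, .negSucc 34463999, .ofNat 11428800, .negSucc 1706879]),
  (2434915, [.ofNat 0, .ofNat 0, .negSucc 25032959, .ofNat 43247040, .negSucc 34463999, .ofNat 11428800, .negSucc 1706879]),
  (2435813, [.ofNat 0, .ofNat 12407040, .negSucc 17622719, .negSucc 2010239, .ofNat 15645120, .negSucc 6996479, .ofNat 1219200]),
  (2435869, [.ofNat 0, .ofNat 12407040, .negSucc 17622719, .negSucc 2010239, .ofNat 15645120, .negSucc 6996479, .ofNat 1219200]),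
  (2438956, [.ofNat 0, .ofNat 0, .negSucc 12072959, .ofNat 11500800, .negSucc 4001279, .ofNat 487680]),
  (2439467, [.ofNat 0, .negSucc 13593599, .ofNat 34590720, .negSucc 71294399, .ofNat 66873600, .negSucc 25421759, .ofNat 4145280]),
  (2439517, [.ofNat 0, .negSucc 7845119, .negSucc 4092479, .ofNat 154560, .ofNat 1293120, .negSucc 609599]),
  (2439532, [.ofNat 0, .ofNat 76959360, .negSucc 226654559, .ofNat 233341440, .negSucc 89593439, .ofNat 14752320]),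
  (2439971, [.ofNat 0, .negSucc 13593599, .ofNat 34590720, .negSucc 71294399, .ofNat 66873600, .negSucc 25421759, .ofNat 4145280]),
  (2440020, [.ofNat 0, .ofNat 11594880, .negSucc 31357919, .ofNat 29546880, .negSucc 11651039, .ofNat 1828800]),
  (2442469, [.ofNat 0, .negSucc 7845119, .ofNat 20053440, .negSucc 22847039, .ofNat 9295680, .negSucc 1584959]),
  (2442539, [.ofNat 0, .ofNat 0, .ofNat 1071360, .negSucc 8080319, .ofNat 10302720, .negSucc 4271039, .ofNat 731520]),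
  (2442909, [.ofNat 0, .negSucc 14296319, .ofNat 41766720, .negSucc 36452159, .ofNat 11140800, .negSucc 1584959]),
  (2442988, [.ofNat 0, .negSucc 50140799, .ofNat 143487840, .negSucc 200473439, .ofNat 142962720, .negSucc 47565599, .ofNat 7071360]),
  (2443051, [.ofNat 0, .negSucc 21542399, .ofNat 59126400, .negSucc 62113919, .ofNat 24789120, .negSucc 4145279]),
  (2443996, [.ofNat 0, .negSucc 50140799, .ofNat 143487840, .negSucc 200473439, .ofNat 142962720, .negSucc 47565599, .ofNat 7071360]),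
  (2443997, [.ofNat 0, .ofNat 76959360, .negSucc 238727519, .ofNat 244842240, .negSucc 93594719, .ofNat 15240000]),
  (2444003, [.ofNat 0, .ofNat 0, .ofNat 12072960, .negSucc 11500799, .ofNat 4001280, .negSucc 487679]),
  (2444005, [.ofNat 0, .negSucc 21467519, .ofNat 37199520, .negSucc 37495679, .ofNat 14823840, .negSucc 2560319]),
  (2444061, [.ofNat 0, .negSucc 14296319, .ofNat 34969920, .negSucc 28057919, .ofNat 8399040, .negSucc 1097279]),
  (2444115, [.ofNat 0, .ofNat 21467520, .negSucc 66085919, .ofNat 9053280, .ofNat 49702560, .negSucc 27358559, .ofNat 5364480]),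
  (2446572, [.ofNat 0, .negSucc 15690239, .ofNat 35498880, .negSucc 41425919, .ofNat 16905600, .negSucc 2926079]),
  (2446635, [.ofNat 0, .negSucc 1820159, .ofNat 6579840, .negSucc 5427839, .ofNat 2044800, .negSucc 243839]),
  (2447004, [.ofNat 0, .negSucc 22141439, .ofNat 61820160, .negSucc 59299199, .ofNat 20436480, .negSucc 3169919]),
  (2447203, [.ofNat 0, .negSucc 59379839, .ofNat 75631200, .negSucc 7114559, .negSucc 68205599, .ofNat 34254720, .negSucc 6827519]),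
  (2448084, [.ofNat 0, .ofNat 11594880, .negSucc 31357919, .ofNat 29546880, .negSucc 11651039, .ofNat 1828800]),
  (2448147, [.ofNat 0, .ofNat 21467520, .negSucc 66085919, .ofNat 9053280, .ofNat 49702560, .negSucc 27358559, .ofNat 5364480]),
  (2664284, [.ofNat 0, .ofNat 0, .negSucc 3916799, .ofNat 4782720, .negSucc 618239, .ofNat 243840]),
  (2664669, [.ofNat 0, .ofNat 0, .ofNat 10506240, .negSucc 9544319, .ofNat 1455360, .negSucc 243839]),
  (2665180, [.ofNat 0, .ofNat 0, .ofNat 10506240, .negSucc 9544319, .ofNat 1455360, .negSucc 243839]),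
  (2665259, [.ofNat 0, .ofNat 0, .ofNat 1566720, .negSucc 1956479, .ofNat 2545920, .negSucc 243839]),
  (2667813, [.ofNat 0, .negSucc 19382399, .ofNat 45807840, .negSucc 47316479, .ofNat 18762720, .negSucc 3047999]),
  (2668197, [.ofNat 0, .ofNat 14486400, .negSucc 61063199, .ofNat 90800640, .negSucc 66659999, .ofNat 21677760, .negSucc 3169919]),
  (2668204, [.ofNat 0, .ofNat 49645440, .negSucc 40499999, .negSucc 65314559, .ofNat 128508000, .negSucc 55444799, .ofNat 9997440]),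
  (2668325, [.ofNat 0, .ofNat 0, .negSucc 12072959, .ofNat 11500800, .negSucc 4001279, .ofNat 487680]),
  (2668330, [.ofNat 0, .ofNat 37238400, .negSucc 58197599, .ofNat 15008640, .ofNat 40903200, .negSucc 22416959, .ofNat 4632960]),
  (2668386, [.ofNat 0, .negSucc 26956799, .negSucc 4362239, .ofNat 244730880, .negSucc 323458559, .ofNat 133582080, .negSucc 22920959]),
  (2668842, [.ofNat 0, .negSucc 19722239, .ofNat 73121280, .negSucc 77218559, .ofNat 30900480, .negSucc 4876799]),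
  (2668890, [.ofNat 0, .ofNat 0, .negSucc 2350079, .ofNat 2826240, .ofNat 1927680]),
  (2669221, [.ofNat 0, .ofNat 0, .negSucc 3801599, .ofNat 2254080, .negSucc 1259519]),
  (2669285, [.ofNat 0, .ofNat 0, .negSucc 17141759, .ofNat 17389440, .negSucc 4965119, .ofNat 731520]),
  (2669333, [.ofNat 0, .ofNat 0, .negSucc 3801599, .ofNat 2254080, .negSucc 1259519]),
  (2669338, [.ofNat 0, .ofNat 0, .negSucc 2350079, .ofNat 2826240, .ofNat 1927680]),
  (2669341, [.ofNat 0, .ofNat 0, .negSucc 6635519, .ofNat 7845120, .negSucc 3509759, .ofNat 487680]),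
  (2669411, [.ofNat 0, .ofNat 0, .ofNat 12072960, .negSucc 11500799, .ofNat 4001280, .negSucc 487679]),
  (2671837, [.ofNat 0, .ofNat 5777280, .negSucc 13451039, .ofNat 8215680, .negSucc 1689119, .ofNat 121920]),
  (2672362, [.ofNat 0, .ofNat 0, .ofNat 11727360, .negSucc 10627199, .ofNat 1616640, .negSucc 243839]),
  (2672364, [.ofNat 0, .ofNat 0, .negSucc 12072959, .ofNat 11500800, .negSucc 4001279, .ofNat 487680]),
  (2672467, [.ofNat 0, .ofNat 0, .negSucc 10874879, .ofNat 12097920, .negSucc 5210879, .ofNat 731520]),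
  (2672474, [.ofNat 0, .ofNat 0, .negSucc 3824639, .ofNat 3678720, .ofNat 1927680]),
  (2672979, [.ofNat 0, .negSucc 5460479, .ofNat 22273920, .negSucc 18184319, .ofNat 5765760, .negSucc 731519]),
  (2673370, [.ofNat 0, .negSucc 25678079, .ofNat 14477760, .ofNat 170397120, .negSucc 235911359, .ofNat 97419840, .negSucc 16581119]),
  (2675948, [.ofNat 0, .ofNat 0, .negSucc 12072959, .ofNat 11500800, .negSucc 4001279, .ofNat 487680]),
  (2676011, [.ofNat 0, .ofNat 0, .negSucc 8087039, .ofNat 7167360, .negSucc 2714879, .ofNat 243840]),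
  (2676380, [.ofNat 0, .ofNat 0, .ofNat 12072960, .negSucc 11500799, .ofNat 4001280, .negSucc 487679]),
  (2676387, [.ofNat 0, .ofNat 0, .ofNat 13271040, .negSucc 13726079, .ofNat 4896000, .negSucc 731519]),
  (2676396, [.ofNat 0, .ofNat 0, .negSucc 12072959, .ofNat 11500800, .negSucc 4001279, .ofNat 487680]),
  (2676450, [.ofNat 0, .negSucc 58705919, .ofNat 93680640, .negSucc 27334079, .negSucc 61457279, .ofNat 33157440, .negSucc 6827519]),
  (2676499, [.ofNat 0, .ofNat 0, .ofNat 1198080, .ofNat 597120, .negSucc 1209599, .ofNat 243840]),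
  (2676514, [.ofNat 0, .ofNat 38479680, .negSucc 137916719, .ofNat 149795040, .negSucc 66029999, .ofNat 13578240, .negSucc 853439]),
  (2676572, [.ofNat 0, .ofNat 0, .ofNat 1359360, .negSucc 1466879, .ofNat 215040]),
  (2676579, [.ofNat 0, .ofNat 0, .negSucc 9239039, .ofNat 9181440, .negSucc 3786239, .ofNat 487680]),
  (2676893, [.ofNat 0, .ofNat 79401600, .negSucc 291711839, .ofNat 307712160, .negSucc 112805279, .ofNat 18348960]),
  (2676907, [.ofNat 0, .ofNat 0, .negSucc 2350079, .ofNat 2826240, .ofNat 1927680]),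
  (2676972, [.ofNat 0, .ofNat 0, .negSucc 18708479, .ofNat 19345920, .negSucc 7511039, .ofNat 975360]),
  (2677084, [.ofNat 0, .ofNat 0, .negSucc 17141759, .ofNat 17389440, .negSucc 4965119, .ofNat 731520]),
  (2677404, [.ofNat 0, .ofNat 0, .negSucc 37727999, .ofNat 47916480, .negSucc 27427199, .ofNat 7523520, .negSucc 975359]),
  (2677460, [.ofNat 0, .ofNat 0, .negSucc 16767359, .ofNat 34059360, .negSucc 27186239, .ofNat 9654240, .negSucc 1463039]),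
  (2677523, [.ofNat 0, .ofNat 37238400, .negSucc 103263839, .ofNat 171269760, .negSucc 128279519, .ofNat 42663360, .negSucc 6095999]),
  (2692837, [.ofNat 0, .negSucc 37238399, .ofNat 104669280, .negSucc 110294399, .ofNat 43056480, .negSucc 7193279]),
  (2693852, [.ofNat 0, .ofNat 37238400, .negSucc 104058719, .ofNat 106960320, .negSucc 38026079, .ofNat 5525760, .ofNat 243840]),
  (2693931, [.ofNat 0, .ofNat 0, .ofNat 3133440, .negSucc 3912959, .ofNat 5091840, .negSucc 487679]),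
  (2700075, [.ofNat 0, .ofNat 39977280, .negSucc 105919919, .ofNat 103333440, .negSucc 38431919, .ofNat 6278880]),
  (2701419, [.ofNat 0, .ofNat 0, .negSucc 9354239, .ofNat 9672960, .negSucc 3755519, .ofNat 487680]),
  (2701420, [.ofNat 0, .ofNat 58317120, .negSucc 147142959, .ofNat 220959040, .negSucc 174151599, .ofNat 59930400, .negSucc 9022079]),
  (2701541, [.ofNat 0, .ofNat 0, .ofNat 11289600, .negSucc 13422719, .ofNat 4035840, .negSucc 731519]),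
  (2701548, [.ofNat 0, .negSucc 49645439, .ofNat 92443680, .negSucc 41853119, .negSucc 34222559, .ofNat 21563520, .negSucc 4632959]),
  (2701643, [.ofNat 0, .ofNat 76959360, .negSucc 226654559, .ofNat 233341440, .negSucc 89593439, .ofNat 14752320]),
  (2701923, [.ofNat 0, .ofNat 0, .negSucc 9354239, .ofNat 9672960, .negSucc 3755519, .ofNat 487680]),
  (2701932, [.ofNat 0, .ofNat 37238400, .negSucc 101651039, .ofNat 106118400, .negSucc 41762399, .ofNat 6949440]),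
  (2702053, [.ofNat 0, .negSucc 47226239, .ofNat 75968160, .ofNat 11750400, .negSucc 99429599, .ofNat 50568000, .negSucc 9997439]),
  (2702060, [.ofNat 0, .ofNat 13127040, .negSucc 44637599, .ofNat 42430080, .negSucc 17623199, .ofNat 2560320]),
  (2702091, [.ofNat 0, .ofNat 76959360, .negSucc 238727519, .ofNat 244842240, .negSucc 93594719, .ofNat 15240000]),
  (2704157, [.ofNat 0, .negSucc 49645439, .ofNat 54715680, .ofNat 6063360, .negSucc 61649759, .ofNat 29087040, .negSucc 5608319]),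
  (2704989, [.ofNat 0, .negSucc 1820159, .negSucc 1921919, .ofNat 3603840, .negSucc 2110079, .ofNat 243840]),
  (2705125, [.ofNat 0, .ofNat 0, .negSucc 11462399, .ofNat 8166720, .ofNat 1029120, .negSucc 1179839, .ofNat 243840]),
  (2705181, [.ofNat 0, .ofNat 13127040, .negSucc 43566239, .ofNat 34349760, .negSucc 7320479, .negSucc 1710719, .ofNat 731520]),
  (2705227, [.ofNat 0, .ofNat 0, .ofNat 12072960, .negSucc 11500799, .ofNat 4001280, .negSucc 487679]),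
  (2705251, [.ofNat 0, .ofNat 12407040, .ofNat 16626240, .negSucc 72242879, .ofNat 77302080, .negSucc 28756799, .ofNat 4632960]),
  (2706019, [.ofNat 0, .ofNat 14486400, .negSucc 61063199, .ofNat 90800640, .negSucc 66659999, .ofNat 21677760, .negSucc 3169919]),
  (2706205, [.ofNat 0, .negSucc 1820159, .ofNat 6579840, .negSucc 5427839, .ofNat 2044800, .negSucc 243839]),
  (2708316, [.ofNat 0, .negSucc 37238399, .ofNat 47196000, .ofNat 20001600, .negSucc 76853279, .ofNat 35961600, .negSucc 6827519]),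
  (2709340, [.ofNat 0, .negSucc 37238399, .ofNat 104669280, .negSucc 110294399, .ofNat 43056480, .negSucc 7193279]),
  (2709852, [.ofNat 0, .negSucc 17562239, .ofNat 47729760, .negSucc 50920319, .ofNat 20872800, .negSucc 3291839]),
  (2726059, [.ofNat 0, .ofNat 0, .negSucc 12072959, .ofNat 11500800, .negSucc 4001279, .ofNat 487680])]

/-- data -/
def lV1x2 : List (ℕ × List ℤ) := [(2726060, [.ofNat 0, .ofNat 88640640, .negSucc 270659039, .ofNat 270562080, .negSucc 98883359, .ofNat 15910560]),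
  (2726186, [.ofNat 0, .ofNat 38479680, .negSucc 125843759, .ofNat 138294240, .negSucc 62028719, .ofNat 13090560, .negSucc 853439]),
  (2726187, [.ofNat 0, .ofNat 15814080, .negSucc 6503439, .negSucc 14939839, .ofNat 24333680, .negSucc 11411039, .ofNat 2194560]),
  (2726228, [.ofNat 0, .ofNat 0, .negSucc 30274559, .ofNat 30662400, .negSucc 10590719, .ofNat 1463040]),
  (2726565, [.ofNat 0, .ofNat 0, .ofNat 1221120, .negSucc 1082879, .ofNat 161280]),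
  (2726740, [.ofNat 0, .negSucc 24338879, .ofNat 94221600, .negSucc 63559739, .negSucc 8343839, .ofNat 13525860, .negSucc 3489959]),
  (2726754, [.ofNat 0, .negSucc 21467519, .ofNat 42556320, .negSucc 18899519, .negSucc 15669599, .ofNat 10252800, .negSucc 2194559]),
  (2730269, [.ofNat 0, .ofNat 10851840, .negSucc 71445119, .ofNat 111980160, .negSucc 77068799, .ofNat 23506560, .negSucc 3169919]),
  (2734186, [.ofNat 0, .ofNat 331309440, .negSucc 905846399, .ofNat 875238600, .negSucc 277631039, .ofNat 33012360, .ofNat 3139440]),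
  (2734245, [.ofNat 0, .negSucc 15690239, .ofNat 35498880, .negSucc 41425919, .ofNat 16905600, .negSucc 2926079]),
  (2734690, [.ofNat 0, .ofNat 15814080, .negSucc 6503439, .negSucc 14939839, .ofNat 24333680, .negSucc 11411039, .ofNat 2194560]),
  (2734732, [.ofNat 0, .ofNat 15690240, .negSucc 40106879, .ofNat 45694080, .negSucc 18591359, .ofNat 3169920]),
  (2734757, [.ofNat 0, .ofNat 12407040, .ofNat 5624640, .negSucc 37232639, .ofNat 41352000, .negSucc 15212159, .ofNat 2438400]),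
  (2736874, [.ofNat 0, .ofNat 9239040, .ofNat 44346240, .negSucc 60130559, .ofNat 24915840, .negSucc 3657599]),
  (2736876, [.ofNat 0, .ofNat 9239040, .ofNat 44346240, .negSucc 60130559, .ofNat 24915840, .negSucc 3657599]),
  (2736979, [.ofNat 0, .ofNat 0, .negSucc 10874879, .ofNat 12097920, .negSucc 5210879, .ofNat 731520]),
  (2736980, [.ofNat 0, .ofNat 0, .negSucc 18178559, .ofNat 20181120, .negSucc 8206079, .ofNat 1219200]),
  (2737484, [.ofNat 0, .ofNat 0, .negSucc 3041279, .ofNat 4849920, .negSucc 2910719, .ofNat 487680]),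
  (2737836, [.ofNat 0, .ofNat 0, .negSucc 12072959, .ofNat 11500800, .negSucc 4001279, .ofNat 487680]),
  (2738507, [.ofNat 0, .ofNat 58317120, .negSucc 147142959, .ofNat 220959040, .negSucc 174151599, .ofNat 59930400, .negSucc 9022079]),
  (2738515, [.ofNat 0, .ofNat 37238400, .negSucc 106328159, .ofNat 175100160, .negSucc 129573599, .ofNat 42907200, .negSucc 6095999]),
  (2738786, [.ofNat 0, .ofNat 0, .negSucc 12072959, .ofNat 11500800, .negSucc 4001279, .ofNat 487680]),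
  (2738901, [.ofNat 0, .ofNat 0, .ofNat 2442240, .negSucc 2165759, .ofNat 322560]),
  (2739020, [.ofNat 0, .ofNat 0, .negSucc 25032959, .ofNat 43247040, .negSucc 34463999, .ofNat 11428800, .negSucc 1706879]),
  (2741011, [.ofNat 0, .ofNat 0, .negSucc 10874879, .ofNat 12097920, .negSucc 5210879, .ofNat 731520]),
  (2741034, [.ofNat 0, .ofNat 0, .ofNat 3893760, .negSucc 1716479, .ofNat 2626560]),
  (2741076, [.ofNat 0, .ofNat 0, .negSucc 5736959, .ofNat 4341120, .negSucc 4642559, .ofNat 243840]),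
  (2741347, [.ofNat 0, .negSucc 67060799, .ofNat 172047600, .negSucc 166536959, .ofNat 62609520, .negSucc 10058399]),
  (2741861, [.ofNat 0, .ofNat 0, .negSucc 6635519, .ofNat 7845120, .negSucc 3509759, .ofNat 487680]),
  (2741925, [.ofNat 0, .ofNat 0, .negSucc 2350079, .ofNat 2826240, .ofNat 1927680]),
  (2742485, [.ofNat 0, .ofNat 0, .ofNat 2442240, .negSucc 2165759, .ofNat 322560]),
  (2742538, [.ofNat 0, .ofNat 38479680, .negSucc 125843759, .ofNat 138294240, .negSucc 62028719, .ofNat 13090560, .negSucc 853439]),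
  (2742557, [.ofNat 0, .ofNat 0, .negSucc 12072959, .ofNat 11500800, .negSucc 4001279, .ofNat 487680]),
  (2742620, [.ofNat 0, .ofNat 0, .negSucc 2350079, .ofNat 2826240, .ofNat 1927680]),
  (2742868, [.ofNat 0, .ofNat 0, .negSucc 11560319, .ofNat 28643040, .negSucc 25738559, .ofNat 9410400, .negSucc 1463039]),
  (2742876, [.ofNat 0, .ofNat 14486400, .negSucc 61063199, .ofNat 90800640, .negSucc 66659999, .ofNat 21677760, .negSucc 3169919]),
  (2742947, [.ofNat 0, .ofNat 39977280, .negSucc 105919919, .ofNat 103333440, .negSucc 38431919, .ofNat 6278880]),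
  (2743059, [.ofNat 0, .negSucc 3640319, .ofNat 15694080, .negSucc 12756479, .ofNat 3720960, .negSucc 487679]),
  (2758316, [.ofNat 0, .ofNat 88640640, .negSucc 254300639, .ofNat 254148000, .negSucc 93426719, .ofNat 15179040]),
  (2758380, [.ofNat 0, .ofNat 309841920, .negSucc 863290079, .ofNat 856339080, .negSucc 293300639, .ofNat 43265160, .ofNat 944880]),
  (2759325, [.ofNat 0, .ofNat 0, .ofNat 12072960, .negSucc 11500799, .ofNat 4001280, .negSucc 487679]),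
  (2759381, [.ofNat 0, .ofNat 0, .negSucc 3064319, .ofNat 3830400, .negSucc 1294079, .ofNat 243840]),
  (2762476, [.ofNat 0, .ofNat 0, .ofNat 8501760, .negSucc 9031679, .ofNat 4154880, .negSucc 487679]),
  (2765658, [.ofNat 0, .ofNat 0, .negSucc 1221119, .ofNat 1082880, .negSucc 161279]),
  (2765931, [.ofNat 0, .ofNat 0, .negSucc 18708479, .ofNat 19345920, .negSucc 7511039, .ofNat 975360]),
  (2767450, [.ofNat 0, .ofNat 0, .negSucc 1221119, .ofNat 1082880, .negSucc 161279]),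
  (2767635, [.ofNat 0, .ofNat 0, .negSucc 6128639, .ofNat 7660800, .negSucc 2588159, .ofNat 487680]),
  (2769754, [.ofNat 0, .ofNat 39977280, .negSucc 118879919, .ofNat 135079680, .negSucc 68894639, .ofNat 17220000, .negSucc 1706879]),
  (2773661, [.ofNat 0, .ofNat 79401600, .negSucc 279638879, .ofNat 296211360, .negSucc 108803999, .ofNat 17861280]),
  (2773717, [.ofNat 0, .ofNat 0, .negSucc 11243519, .ofNat 13614720, .negSucc 2668799, .ofNat 731520]),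
  (2773740, [.ofNat 0, .negSucc 67060799, .ofNat 165412080, .negSucc 158691839, .ofNat 59099760, .negSucc 9570719]),
  (2773850, [.ofNat 0, .ofNat 0, .negSucc 12072959, .ofNat 11500800, .negSucc 4001279, .ofNat 487680]),
  (2773852, [.ofNat 0, .ofNat 0, .negSucc 19906559, .ofNat 21571200, .negSucc 8405759, .ofNat 1219200]),
  (2774741, [.ofNat 0, .negSucc 36745919, .ofNat 88596960, .negSucc 26327099, .negSucc 49695839, .ofNat 28738020, .negSucc 5928359]),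
  (2774803, [.ofNat 0, .ofNat 0, .negSucc 6128639, .ofNat 7660800, .negSucc 2588159, .ofNat 487680]),
  (2791148, [.ofNat 0, .ofNat 39977280, .negSucc 105919919, .ofNat 103333440, .negSucc 38431919, .ofNat 6278880]),
  (2795244, [.ofNat 0, .ofNat 10851840, .negSucc 70373759, .ofNat 103899840, .negSucc 66766079, .ofNat 19235520, .negSucc 2438399]),
  (2799244, [.ofNat 0, .ofNat 15690240, .negSucc 40106879, .ofNat 45694080, .negSucc 18591359, .ofNat 3169920]),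
  (2799373, [.ofNat 0, .ofNat 38479680, .negSucc 137916719, .ofNat 149795040, .negSucc 66029999, .ofNat 13578240, .negSucc 853439])]

/-- the sum of the part -/
def lV1 : List (ℕ × List ℤ) := lV1x0 ++ (lV1x1 ++ (lV1x2))

theorem okV1 : dV1.all (rok tbF 20) = true := by decide +kernel

theorem sumV1 : aeq (fz (sumT tbF dV1)) lV1 = true := by decide +kernel

end Pool.Agent.H.MP_e16c79_al.IS
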