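import Pool.Agent.H.MP_e16c79_al.IS.BTabE

/-!
# MP_e16c79_al: certificate V, part 10
-/

set_option autoImplicit false

namespace Pool.Agent.H.MP_e16c79_al.IS

/-- data -/
def dV10x0 : RT := (.nd (.nd (.nd (.lf ⟨[.ofNat 0, .negSucc 2045159, .ofNat 10879590, .negSucc 11894759, .ofNat 4522470, .negSucc 662939], (.tw (.dx 0 (.lf 9)) (.tr (.lf 5) (.tr (.tw (.lf 13) (.lf 14)) (.lf 10) (.lf 19)) (.lf 6))), 0, [20, 20, 20, 20, 20, 20, 20, 20], [17, 17, 25, 25, 17, 17, 25, 25]⟩)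
    (.lf ⟨[.ofNat 0, .negSucc 20321279, .ofNat 22881120, .negSucc 9986879, .ofNat 1645920], (.tr (.lf 6) (.dx 0 (.tr (.lf 5) (.lf 13) (.tw (.lf 9) (.lf 10)))) (.tw (.lf 14) (.lf 19))), 0, [32, 32, 32, 32, 39, 5, 39, 5], []⟩))
    (.nd (.lf ⟨[.ofNat 0, .ofNat 24411600, .negSucc 44640299, .ofNat 33776400, .negSucc 10690859, .ofNat 1325880], (.tr (.lf 6) (.tw (.dx 0 (.tr (.lf 5) (.lf 13) (.tw (.lf 9) (.lf 10)))) (.lf 19)) (.lf 14)), 0, [32, 32, 5, 5, 23, 23, 16, 16], []⟩)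
    (.lf ⟨[.ofNat 0, .ofNat 20321280, .negSucc 22881119, .ofNat 9986880, .negSucc 1645919], (.tr (.dx 0 (.tr (.lf 5) (.tw (.lf 13) (.lf 14)) (.lf 9))) (.tw (.lf 6) (.lf 10)) (.lf 19)), 0, [0, 0, 0, 0, 15, 27, 15, 27], []⟩)))
    (.nd (.nd (.lf ⟨[.ofNat 0, .negSucc 391679, .ofNat 322560], (.tr (.lf 5) (.lf 10) (.tr (.dx 0 (.tw (.lf 9) (.lf 19))) (.lf 6) (.tw (.lf 13) (.lf 14)))), 0, [19, 19, 19, 19, 8, 21, 8, 21], []⟩)
    (.lf ⟨[.ofNat 0, .ofNat 10262880, .negSucc 25661279, .ofNat 24635520, .negSucc 9136319, .ofNat 1463040], (.tw (.lf 14) (.tr (.lf 5) (.tr (.lf 9) (.tw (.dx 0 (.lf 13)) (.lf 19)) (.lf 10)) (.lf 6))), 0, [18, 18, 18, 18, 18, 18, 18, 18], [9, 18, 9, 18, 9, 18, 9, 18]⟩))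
    (.nd (.lf ⟨[.ofNat 0, .negSucc 391679, .ofNat 322560], (.tr (.dx 0 (.tr (.tw (.lf 5) (.lf 6)) (.lf 9) (.lf 13))) (.lf 10) (.tw (.lf 14) (.lf 19))), 0, [0, 0, 0, 0, 39, 10, 39, 10], []⟩)
    (.lf ⟨[.ofNat 0, .ofNat 8219520, .ofNat 13578720, .negSucc 25939199, .ofNat 11735520, .negSucc 2072639], (.tw (.lf 19) (.tr (.lf 5) (.tw (.dx 0 (.tr (.lf 9) (.lf 13) (.lf 14))) (.lf 10)) (.lf 6))), 0, [26, 26, 33, 26, 26, 26, 33, 26], []⟩))))

/-- data -/
def dV10x1 : RT := (.nd (.nd (.nd (.lf ⟨[.ofNat 0, .negSucc 8219519, .negSucc 13578719, .ofNat 25939200, .negSucc 11735519, .ofNat 2072640], (.tw (.dx 0 (.tr (.lf 9) (.tr (.lf 10) (.tw (.lf 5) (.lf 6)) (.lf 13)) (.lf 14))) (.lf 19)), 0, [20, 20, 3, 3, 3, 3, 10, 10], []⟩)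
    (.lf ⟨[.ofNat 0, .ofNat 5500800, .negSucc 17505119, .ofNat 17975040, .negSucc 6772319, .ofNat 1097280], (.tw (.dx 0 (.tr (.lf 9) (.lf 10) (.tr (.tw (.lf 5) (.lf 6)) (.lf 13) (.lf 14)))) (.lf 19)), 0, [20, 20, 20, 20, 0, 0, 10, 10], []⟩))
    (.nd (.lf ⟨[.ofNat 0, .ofNat 2373120, .negSucc 2126399, .ofNat 1029120, .negSucc 121919], (.tr (.dx 0 (.tr (.lf 5) (.tw (.lf 13) (.lf 14)) (.lf 9))) (.tw (.lf 6) (.lf 19)) (.lf 10)), 0, [29, 35, 29, 35, 29, 35, 29, 35], []⟩)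
    (.lf ⟨[.ofNat 0, .negSucc 1497599, .negSucc 46124159, .ofNat 63388800, .negSucc 26927999, .ofNat 4632960], (.tr (.dx 0 (.lf 19)) (.lf 9) (.tw (.lf 13) (.tr (.lf 10) (.tw (.lf 5) (.lf 6)) (.lf 14)))), 0, [30, 30, 30, 30, 19, 19, 30, 30], []⟩)))
    (.nd (.nd (.lf ⟨[.ofNat 0, .ofNat 19307520, .negSucc 67756799, .ofNat 73207680, .negSucc 28147199, .ofNat 4632960], (.tr (.dx 0 (.tr (.lf 5) (.lf 6) (.lf 19))) (.lf 9) (.tr (.lf 10) (.lf 13) (.lf 14))), 0, [37, 7, 37, 7], []⟩)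
    (.lf ⟨[.ofNat 0, .negSucc 6779519, .ofNat 112613280, .negSucc 143190719, .ofNat 58797600, .negSucc 9997439], (.tr (.lf 13) (.lf 14) (.tr (.dx 0 (.tr (.lf 5) (.lf 6) (.lf 19))) (.lf 9) (.lf 10))), 0, [13, 13, 36, 36], []⟩))
    (.nd (.lf ⟨[.ofNat 0, .ofNat 24099840, .negSucc 57884159, .ofNat 54710400, .negSucc 19848959, .ofNat 3169920], (.tr (.dx 0 (.tr (.lf 9) (.lf 10) (.lf 19))) (.tr (.lf 5) (.lf 13) (.lf 14)) (.lf 6)), 0, [25, 25, 25, 25], []⟩)
    (.lf ⟨[.ofNat 0, .ofNat 34560, .ofNat 8162880, .negSucc 11636159, .ofNat 4921920, .negSucc 853439], (.tr (.dx 0 (.tr (.lf 9) (.tw (.lf 5) (.lf 10)) (.lf 19))) (.lf 6) (.tw (.lf 13) (.lf 14))), 0, [19, 19, 19, 19, 19, 19, 19, 19], []⟩))))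

/-- data -/
def dV10x2 : RT := (.nd (.nd (.nd (.lf ⟨[.ofNat 0, .negSucc 7257599, .ofNat 24024960, .negSucc 25189439, .ofNat 9680640, .negSucc 1584959], (.tr (.lf 9) (.lf 14) (.tr (.dx 0 (.tw (.lf 13) (.lf 19))) (.lf 10) (.tw (.lf 5) (.lf 6)))), 0, [9, 9, 9, 9, 31, 11, 31, 11], []⟩)
    (.lf ⟨[.ofNat 0, .negSucc 128450879, .ofNat 340399920, .negSucc 324949439, .ofNat 119667120, .negSucc 18958559], (.tr (.dx 0 (.tr (.lf 13) (.lf 5) (.lf 19))) (.tr (.lf 9) (.lf 10) (.lf 14)) (.lf 6)), 0, [10, 9, 25, 9], []⟩))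
    (.nd (.lf ⟨[.ofNat 0, .ofNat 63695520, .negSucc 160592279, .ofNat 150216480, .negSucc 54789719, .ofNat 8625840], (.tw (.lf 6) (.tr (.dx 0 (.tr (.lf 13) (.lf 5) (.lf 19))) (.tw (.lf 9) (.lf 10)) (.lf 14))), 0, [37, 37, 37, 37, 24, 11, 24, 11], []⟩)
    (.lf ⟨[.ofNat 0, .negSucc 13786559, .ofNat 14980080, .negSucc 5922239, .ofNat 741360, .ofNat 60960], (.tw (.lf 14) (.tr (.lf 6) (.dx 0 (.tr (.lf 13) (.lf 5) (.lf 19))) (.tw (.lf 9) (.lf 10)))), 0, [13, 13, 13, 13, 36, 36, 36, 36], []⟩)))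
    (.nd (.nd (.lf ⟨[.ofNat 0, .ofNat 783360, .negSucc 645119], (.tr (.dx 0 (.tr (.lf 5) (.tr (.lf 9) (.lf 19) (.lf 13)) (.lf 14))) (.lf 10) (.lf 6)), 0, [0, 0, 9, 10], []⟩)
    (.lf ⟨[.ofNat 0, .ofNat 21905280, .negSucc 17489759, .ofNat 3394560, .ofNat 1038240, .negSucc 365759], (.tw (.dx 0 (.tr (.lf 5) (.tr (.lf 9) (.tw (.lf 13) (.lf 14)) (.lf 19)) (.lf 10))) (.lf 6)), 0, [0, 0, 0, 0, 33, 33, 33, 33], []⟩))
    (.nd (.lf ⟨[.ofNat 0, .ofNat 7367040, .negSucc 35903519, .ofNat 40585920, .negSucc 16087199, .ofNat 2682240], (.tw (.dx 0 (.tr (.lf 9) (.lf 10) (.tr (.lf 5) (.lf 19) (.tw (.lf 13) (.lf 14))))) (.lf 6)), 0, [20, 20, 33, 33, 0, 0, 10, 10], []⟩)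
    (.lf ⟨[.ofNat 0, .negSucc 115199, .ofNat 463680, .negSucc 756479, .ofNat 121920], (.tw (.dx 0 (.tr (.lf 13) (.lf 5) (.tr (.tw (.lf 9) (.lf 10)) (.lf 14) (.lf 19)))) (.lf 6)), 0, [33, 33, 10, 10, 20, 20, 30, 30], []⟩))))

/-- data -/
def dV10x3 : RT := (.nd (.nd (.nd (.lf ⟨[.ofNat 0, .ofNat 46985040, .negSucc 63914219, .ofNat 35450640, .negSucc 8370539, .ofNat 594360], (.tw (.dx 0 (.tr (.lf 13) (.tr (.lf 5) (.tw (.lf 9) (.lf 10)) (.lf 14)) (.lf 19))) (.lf 6)), 0, [33, 33, 10, 10, 33, 33, 30, 30], []⟩)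
    (.lf ⟨[.ofNat 0, .negSucc 27861119, .ofNat 56155200, .negSucc 44762879, .ofNat 14280000, .negSucc 1706879], (.tw (.dx 0 (.tr (.lf 19) (.lf 13) (.tr (.tw (.lf 9) (.lf 10)) (.lf 5) (.lf 14)))) (.lf 6)), 0, [30, 30, 30, 30, 20, 20, 33, 33], []⟩))
    (.nd (.lf ⟨[.ofNat 0, .ofNat 30325680, .negSucc 84838259, .ofNat 81036720, .negSucc 29803379, .ofNat 4526280], (.tw (.dx 0 (.tr (.lf 9) (.tr (.lf 10) (.lf 5) (.tw (.lf 13) (.lf 14))) (.lf 19))) (.lf 6)), 0, [20, 20, 33, 33, 30, 30, 30, 30], []⟩)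
    (.lf ⟨[.ofNat 0, .ofNat 4642560, .ofNat 8783040, .negSucc 16368959, .ofNat 7525440, .negSucc 1341119], (.tw (.dx 0 (.tr (.lf 19) (.lf 9) (.tr (.lf 5) (.tw (.lf 13) (.lf 14)) (.lf 10)))) (.lf 6)), 0, [30, 30, 33, 33, 33, 33, 33, 33], []⟩)))
    (.nd (.nd (.lf ⟨[.ofNat 0, .negSucc 514079, .negSucc 9973319, .ofNat 13628640, .negSucc 5526599, .ofNat 883920], (.tr (.dx 0 (.tw (.lf 5) (.lf 9))) (.tr (.tw (.lf 13) (.lf 14)) (.lf 6) (.lf 19)) (.lf 10)), 0, [0, 0, 7, 7, 29, 29, 7, 7], [10, 10, 7, 7]⟩)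
    (.lf ⟨[.ofNat 0, .negSucc 341279, .ofNat 15844920, .negSucc 20552159, .ofNat 8547000, .negSucc 1432559], (.tr (.dx 0 (.tw (.lf 5) (.lf 9))) (.lf 19) (.tr (.lf 6) (.tw (.lf 13) (.lf 14)) (.lf 10))), 0, [7, 7, 25, 25, 7, 7, 25, 25], [7, 7, 25, 25]⟩))
    (.nd (.lf ⟨[.ofNat 0, .negSucc 9668159, .ofNat 27367920, .negSucc 27564479, .ofNat 10341360, .negSucc 1645919], (.tr (.lf 10) (.lf 19) (.tr (.dx 0 (.tw (.lf 5) (.lf 9))) (.tw (.lf 13) (.lf 14)) (.lf 6))), 0, [25, 25, 25, 25, 28, 1, 28, 1], [25, 25, 11, 11]⟩)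
    (.lf ⟨[.ofNat 0, .ofNat 1666080, .negSucc 2335799, .ofNat 1861920, .negSucc 655799, .ofNat 91440], (.tr (.lf 6) (.tr (.lf 10) (.dx 0 (.tw (.lf 5) (.lf 9))) (.tw (.lf 13) (.lf 14))) (.lf 19)), 0, [39, 39, 39, 39, 24, 24, 24, 24], [39, 39, 24, 24]⟩))))

/-- data -/
def dV10x4 : RT := (.nd (.nd (.nd (.lf ⟨[.ofNat 0, .negSucc 1274399, .ofNat 2013240, .negSucc 1861919, .ofNat 655800, .negSucc 91439], (.tr (.lf 19) (.lf 10) (.tr (.dx 0 (.tw (.lf 5) (.lf 9))) (.tw (.lf 13) (.lf 14)) (.lf 6))), 0, [25, 25, 25, 25, 21, 1, 21, 1], [25, 25, 11, 11]⟩)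
    (.lf ⟨[.ofNat 0, .ofNat 8170560, .negSucc 7171439, .ofNat 1524480, .ofNat 397200, .negSucc 182879], (.tr (.dx 0 (.tw (.lf 9) (.lf 13))) (.lf 14) (.tr (.lf 10) (.tw (.lf 5) (.lf 6)) (.lf 19))), 0, [27, 27, 35, 35, 27, 27, 35, 35], [27, 27, 35, 35]⟩))
    (.nd (.lf ⟨[.ofNat 0, .ofNat 35821440, .negSucc 103719839, .ofNat 105287040, .negSucc 39860639, .ofNat 6461760], (.tr (.lf 5) (.lf 9) (.tr (.lf 14) (.lf 6) (.tr (.dx 0 (.lf 13)) (.lf 19) (.lf 10)))), 0, [8, 11, 19, 8], [8, 8, 19, 8]⟩)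
    (.lf ⟨[.ofNat 0, .negSucc 37555199, .ofNat 101912160, .negSucc 103372799, .ofNat 39798240, .negSucc 6461759], (.tr (.lf 5) (.lf 9) (.tr (.dx 0 (.lf 13)) (.tr (.lf 6) (.lf 10) (.lf 19)) (.lf 14))), 0, [8, 19, 11, 11], [8, 19, 8, 8]⟩)))
    (.nd (.nd (.lf ⟨[.ofNat 0, .ofNat 53677440, .negSucc 118050719, .ofNat 108192000, .negSucc 38892959, .ofNat 6217920], (.tr (.lf 5) (.lf 9) (.tr (.dx 0 (.lf 13)) (.lf 6) (.tr (.lf 10) (.lf 19) (.lf 14)))), 0, [8, 29, 11, 11], [8, 29, 8, 8]⟩)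
    (.lf ⟨[.ofNat 0, .negSucc 23817599, .ofNat 97485600, .negSucc 110626559, .ofNat 42477600, .negSucc 7193279], (.tr (.lf 9) (.lf 13) (.tr (.lf 6) (.lf 10) (.tr (.lf 14) (.dx 0 (.lf 5)) (.lf 19)))), 0, [3, 6, 6, 6], [6, 23, 6, 6]⟩))
    (.nd (.lf ⟨[.ofNat 0, .ofNat 26136000, .negSucc 18474959, .negSucc 2623679, .ofNat 4446000, .negSucc 1158239], (.tr (.lf 5) (.tr (.lf 19) (.dx 0 (.lf 13)) (.tr (.lf 6) (.lf 14) (.lf 9))) (.lf 10)), 0, [7, 16, 24, 8], [7, 16, 24, 8]⟩)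
    (.lf ⟨[.ofNat 0, .negSucc 26135999, .ofNat 19995600, .ofNat 198720, .negSucc 2990639, .ofNat 914400], (.tr (.lf 5) (.tr (.lf 6) (.tr (.dx 0 (.lf 13)) (.lf 9) (.lf 14)) (.lf 19)) (.lf 10)), 0, [32, 24, 16, 35], [32, 24, 16, 35]⟩))))

/-- data -/
def dV10x5 : RT := (.nd (.nd (.nd (.lf ⟨[.ofNat 0, .ofNat 50140800, .negSucc 140429279, .ofNat 135605760, .negSucc 61223519, .ofNat 13458240, .negSucc 1219199], (.tr (.lf 5) (.tr (.lf 19) (.dx 0 .on) (.tr (.lf 6) (.lf 15) (.lf 9))) (.lf 10)), 0, [7, 16, 24, 8], [7, 16, 24, 8]⟩)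
    (.lf ⟨[.ofNat 0, .negSucc 12407039, .ofNat 33174720, .negSucc 19998719, .negSucc 1805759, .ofNat 3173760, .negSucc 731519], (.tr (.lf 5) (.tr (.lf 19) (.lf 15) (.tr (.lf 6) (.dx 0 .on) (.lf 9))) (.lf 10)), 0, [13, 35, 32, 29], [13, 35, 32, 29]⟩))
    (.nd (.lf ⟨[.ofNat 0, .ofNat 11139840, .negSucc 6487679, .negSucc 1705919, .ofNat 1708800, .negSucc 365759], (.tr (.lf 9) (.tr (.dx 0 .on) (.tr (.tw (.lf 5) (.lf 6)) (.lf 10) (.lf 19)) (.lf 13)) (.lf 14)), 0, [5, 5, 19, 19, 23, 23, 23, 23], [5, 5, 19, 19, 23, 23, 6, 6]⟩)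
    (.lf ⟨[.ofNat 0, .negSucc 23253119, .ofNat 46644000, .negSucc 40938239, .ofNat 14622240, .negSucc 2316479], (.tr (.lf 9) (.tr (.dx 0 .on) (.lf 19) (.tr (.lf 10) (.tw (.lf 5) (.lf 6)) (.lf 13))) (.lf 14)), 0, [19, 19, 12, 12, 34, 34, 23, 23], [19, 19, 37, 37, 34, 34, 23, 23]⟩)))
    (.nd (.nd (.lf ⟨[.ofNat 0, .ofNat 31029120, .negSucc 57648479, .ofNat 47857920, .negSucc 16533599, .ofNat 2560320], (.tr (.lf 9) (.tr (.dx 0 .on) (.tr (.tw (.lf 5) (.lf 6)) (.lf 13) (.lf 19)) (.lf 10)) (.lf 14)), 0, [12, 12, 12, 12, 34, 34, 28, 28], [12, 12, 37, 37, 34, 34, 28, 28]⟩)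
    (.lf ⟨[.ofNat 0, .negSucc 23235839, .ofNat 47642880, .negSucc 41979839, .ofNat 14805120, .negSucc 2316479], (.tr (.lf 9) (.tr (.lf 10) (.lf 19) (.tr (.dx 0 .on) (.tw (.lf 5) (.lf 6)) (.lf 13))) (.lf 14)), 0, [19, 19, 28, 28, 12, 12, 37, 37], [19, 19, 28, 28, 12, 12, 37, 37]⟩))
    (.nd (.lf ⟨[.ofNat 0, .ofNat 18564480, .negSucc 58453919, .ofNat 58775040, .negSucc 23970719, .ofNat 3779520], (.tr (.lf 9) (.lf 19) (.tr (.lf 5) (.lf 10) (.tr (.dx 0 .on) (.lf 6) (.lf 15)))), 0, [28, 1, 9, 28], [28, 28, 9, 28]⟩)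
    (.lf ⟨[.ofNat 0, .ofNat 35095680, .negSucc 76744799, .ofNat 68449920, .negSucc 24505439, .ofNat 3779520], (.tr (.lf 13) (.dx 0 (.lf 5)) (.tr (.lf 9) (.lf 14) (.tr (.lf 6) (.lf 10) (.lf 19)))), 0, [22, 9, 7, 7], [22, 22, 7, 22]⟩))))

/-- data -/
def dV10x6 : RT := (.nd (.nd (.nd (.lf ⟨[.ofNat 0, .ofNat 0, .negSucc 13593599, .ofNat 13925760, .negSucc 5456639, .ofNat 731520], (.tr (.lf 1) (.tr (.dx 1 .on) (.tr (.lf 15) (.lf 9) (.lf 19)) (.lf 2)) (.lf 10)), 1, [0, 0, 10, 30], [0, 13, 10, 30]⟩)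
    (.lf ⟨[.ofNat 0, .negSucc 6036479, .ofNat 5750400, .negSucc 2000639, .ofNat 243840], (.tr (.lf 5) (.tr (.lf 13) (.lf 19) (.tr (.lf 6) (.dx 0 .on) (.tw (.lf 9) (.lf 10)))) (.lf 14)), 0, [37, 37, 24, 24, 32, 32, 5, 5], [37, 37, 19, 19, 5, 5, 5, 5]⟩))
    (.nd (.lf ⟨[.ofNat 0, .ofNat 9653760, .negSucc 33878399, .ofNat 36603840, .negSucc 14073599, .ofNat 2316480], (.tr (.lf 5) (.lf 6) (.tr (.dx 0 .on) (.tr (.tw (.lf 9) (.lf 10)) (.lf 19) (.lf 13)) (.lf 14))), 0, [32, 32, 32, 32, 24, 24, 21, 21], [5, 5, 32, 32, 24, 24, 24, 24]⟩)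
    (.lf ⟨[.ofNat 0, .ofNat 0, .ofNat 9653760, .negSucc 33878399, .ofNat 36603840, .negSucc 14073599, .ofNat 2316480], (.tw (.dx 0 .on) (.tr (.lf 9) (.tr (.tw (.lf 5) (.lf 6)) (.lf 15) (.lf 10)) (.lf 19))), 0, [20, 20, 20, 20, 7, 7, 30, 30], [20, 20, 27, 27, 7, 7, 35, 35]⟩)))
    (.nd (.nd (.lf ⟨[.ofNat 0, .negSucc 6263999, .negSucc 22428239, .ofNat 34991520, .negSucc 15325199, .ofNat 2682240], (.tr (.lf 9) (.lf 10) (.tr (.dx 0 .on) (.lf 5) (.tr (.lf 6) (.lf 19) (.tw (.lf 13) (.lf 14))))), 0, [12, 12, 12, 12, 1, 1, 6, 6], [5, 5, 12, 12, 34, 34, 6, 6]⟩)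
    (.lf ⟨[.ofNat 0, .negSucc 14158079, .ofNat 74176320, .negSucc 125164799, .ofNat 93015360, .negSucc 30503039, .ofNat 4389120], (.tr (.lf 5) (.tr (.lf 6) (.tr (.dx 0 .on) (.lf 19) (.lf 9)) (.lf 10)) (.lf 15)), 0, [32, 8, 19, 8], [32, 8, 19, 8]⟩))
    (.nd (.lf ⟨[.ofNat 0, .negSucc 7309439, .negSucc 20618399, .ofNat 71255040, .negSucc 72734879, .ofNat 27211200, .negSucc 4389119], (.tr (.lf 5) (.tr (.lf 6) (.lf 9) (.tr (.lf 10) (.dx 0 .on) (.lf 19))) (.lf 15)), 0, [8, 8, 19, 16], [8, 8, 19, 16]⟩)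
    (.lf ⟨[.ofNat 0, .ofNat 3389760, .negSucc 56306639, .ofNat 71595360, .negSucc 29398799, .ofNat 4998720], (.tr (.lf 9) (.lf 10) (.tr (.dx 0 .on) (.lf 5) (.tr (.lf 6) (.tw (.lf 13) (.lf 14)) (.lf 19)))), 0, [12, 12, 12, 12, 1, 1, 1, 1], [12, 12, 12, 12, 34, 34, 28, 28]⟩))))

/-- data -/
def dV10x7 : RT := (.nd (.nd (.nd (.lf ⟨[.ofNat 0, .ofNat 16179840, .negSucc 10204319, .negSucc 1923839, .ofNat 2705760, .negSucc 609599], (.tr (.lf 9) (.lf 10) (.tr (.lf 19) (.lf 13) (.tr (.dx 0 .on) (.tw (.lf 5) (.lf 6)) (.lf 14)))), 0, [28, 28, 1, 1, 12, 12, 6, 6], [28, 28, 28, 28, 12, 12, 6, 6]⟩)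
    (.lf ⟨[.negSucc 26504639, .ofNat 60205200, .negSucc 56790719, .negSucc 66251759, .ofNat 110705760, .negSucc 47347199, .ofNat 8046720], (.tw (.dx 1 .on) (.tr (.lf 19) (.lf 1) (.tr (.lf 2) (.tw (.lf 9) (.lf 10)) (.lf 15)))), 1, [16, 16, 16, 16, 32, 32, 24, 24], [37, 37, 21, 21, 3, 3, 3, 3]⟩))
    (.nd (.lf ⟨[.ofNat 0, .negSucc 16214399, .negSucc 2234399, .ofNat 20150400, .negSucc 10638239, .ofNat 2072640], (.tw (.lf 10) (.tr (.lf 19) (.lf 13) (.tr (.dx 0 (.lf 9)) (.tw (.lf 5) (.lf 6)) (.lf 14)))), 0, [19, 19, 21, 21, 12, 12, 39, 39], [19, 19, 1, 1, 39, 39, 39, 39]⟩)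
    (.lf ⟨[.ofNat 0, .negSucc 18656639, .negSucc 6367199, .ofNat 26089920, .negSucc 13200479, .ofNat 2438400], (.tr (.lf 19) (.lf 13) (.tr (.lf 9) (.lf 10) (.tr (.dx 0 .on) (.tw (.lf 5) (.lf 6)) (.lf 14)))), 0, [19, 19, 1, 1, 7, 7, 13, 13], [19, 19, 1, 1, 7, 7, 13, 13]⟩)))
    (.nd (.nd (.lf ⟨[.ofNat 0, .ofNat 11571840, .negSucc 6548639, .negSucc 3781439, .ofNat 3112800, .negSucc 731519], (.tw (.lf 10) (.tr (.dx 0 (.lf 9)) (.tr (.tw (.lf 5) (.lf 6)) (.lf 13) (.lf 14)) (.lf 19))), 0, [12, 12, 12, 12, 21, 21, 21, 21], [39, 39, 27, 27, 11, 11, 1, 1]⟩)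
    (.lf ⟨[.ofNat 53009280, .negSucc 141877919, .ofNat 207344160, .negSucc 1404959, .negSucc 130741919, .ofNat 67487040, .negSucc 12435839], (.tr (.lf 5) (.lf 6) (.tr (.lf 15) (.lf 9) (.tr (.lf 10) (.dx 0 .on) (.lf 19)))), 0, [24, 24, 8, 16], [24, 24, 8, 16]⟩))
    (.nd (.lf ⟨[.ofNat 0, .ofNat 11301120, .negSucc 64370879, .ofNat 59351040, .negSucc 16209599, .negSucc 1061759, .ofNat 975360], (.tr (.lf 15) (.lf 9) (.tr (.lf 5) (.lf 6) (.tr (.lf 10) (.dx 0 .on) (.lf 19)))), 0, [3, 13, 17, 9], [36, 36, 17, 9]⟩)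
    (.lf ⟨[.ofNat 0, .negSucc 12435839, .ofNat 1222560, .ofNat 10490880, .negSucc 5796959, .ofNat 1097280], (.tr (.lf 9) (.tr (.lf 10) (.dx 0 .on) (.tr (.tw (.lf 5) (.lf 6)) (.lf 19) (.lf 13))) (.lf 14)), 0, [12, 12, 12, 12, 34, 34, 6, 6], [5, 5, 12, 12, 34, 34, 6, 6]⟩))))

/-- data -/
def dV10x8 : RT := (.nd (.nd (.nd (.lf ⟨[.ofNat 0, .ofNat 71608320, .negSucc 198111359, .ofNat 201360000, .negSucc 94289279, .ofNat 21386880, .negSucc 1950719], (.tr (.lf 5) (.tr (.dx 0 .on) (.tr (.lf 15) (.lf 9) (.lf 19)) (.lf 6)) (.lf 10)), 0, [32, 32, 24, 16], [35, 32, 24, 16]⟩)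
    (.lf ⟨[.ofNat 0, .ofNat 3041280, .ofNat 5184960, .negSucc 10099199, .ofNat 4271040, .negSucc 731519], (.tr (.lf 9) (.lf 13) (.tr (.dx 0 .on) (.tr (.tw (.lf 5) (.lf 6)) (.lf 10) (.lf 19)) (.lf 14))), 0, [6, 6, 19, 19, 31, 31, 1, 1], [6, 6, 19, 19, 6, 6, 6, 6]⟩))
    (.nd (.lf ⟨[.ofNat 0, .ofNat 0, .negSucc 2995199, .ofNat 10935360, .negSucc 12099839, .ofNat 4514880, .negSucc 731519], (.tw (.lf 5) (.tr (.dx 0 .on) (.tr (.tw (.lf 9) (.lf 10)) (.lf 6) (.lf 19)) (.lf 15))), 0, [32, 32, 32, 32, 31, 31, 21, 21], [5, 5, 37, 37, 24, 24, 21, 21]⟩)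
    (.lf ⟨[.ofNat 0, .negSucc 1059839, .negSucc 16916159, .ofNat 23573760, .negSucc 9965759, .ofNat 1706880], (.tr (.dx 0 .on) (.tr (.lf 13) (.lf 14) (.tr (.tw (.lf 5) (.lf 6)) (.lf 9) (.lf 19))) (.lf 10)), 0, [10, 10, 10, 10, 0, 0, 30, 30], [29, 29, 35, 35, 7, 7, 7, 7]⟩)))
    (.nd (.nd (.lf ⟨[.ofNat 0, .ofNat 0, .negSucc 27774719, .ofNat 2583360, .ofNat 23721600, .negSucc 12895679, .ofNat 2438400], (.tr (.lf 5) (.tr (.lf 9) (.lf 10) (.tr (.dx 0 .on) (.lf 6) (.lf 15))) (.lf 19)), 0, [8, 8, 32, 24], [8, 8, 32, 24]⟩)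
    (.lf ⟨[.ofNat 0, .negSucc 23276159, .ofNat 25044000, .negSucc 11103359, .ofNat 1931040, .negSucc 121919], (.tr (.lf 9) (.tr (.lf 13) (.lf 14) (.tr (.tw (.lf 5) (.lf 6)) (.dx 0 .on) (.lf 10))) (.lf 19)), 0, [6, 6, 6, 6, 34, 34, 12, 12], [6, 6, 6, 6, 34, 34, 12, 12]⟩))
    (.nd (.lf ⟨[.ofNat 0, .ofNat 927360, .negSucc 4362719, .ofNat 5393280, .negSucc 2135519, .ofNat 365760], (.tr (.lf 9) (.lf 13) (.tr (.lf 14) (.tr (.tw (.lf 5) (.lf 6)) (.dx 0 .on) (.lf 10)) (.lf 19))), 0, [6, 6, 6, 6, 6, 6, 19, 19], [6, 6, 6, 6, 6, 6, 19, 19]⟩)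
    (.lf ⟨[.ofNat 0, .ofNat 6865920, .negSucc 5642879, .ofNat 484800, .ofNat 407040, .negSucc 121919], (.tr (.lf 9) (.tr (.lf 13) (.lf 19) (.tr (.tw (.lf 5) (.lf 6)) (.dx 0 .on) (.lf 10))) (.lf 14)), 0, [6, 6, 19, 19, 5, 5, 12, 12], [6, 6, 19, 19, 5, 5, 5, 5]⟩))))

/-- data -/
def dV10x9 : RT := (.nd (.nd (.nd (.lf ⟨[.ofNat 0, .ofNat 9521280, .negSucc 2473439, .negSucc 6002879, .ofNat 3722400, .negSucc 731519], (.tr (.lf 9) (.lf 5) (.tr (.dx 0 .on) (.tr (.lf 10) (.lf 19) (.tw (.lf 13) (.lf 14))) (.lf 6))), 0, [25, 25, 34, 34, 11, 11, 21, 21], [25, 25, 34, 34, 34, 34, 34, 34]⟩)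
    (.lf ⟨[.ofNat 14549760, .negSucc 20863679, .negSucc 102367199, .ofNat 156253440, .negSucc 67056479, .ofNat 11704320], (.tr (.lf 5) (.tr (.lf 6) (.dx 0 .on) (.tr (.lf 9) (.lf 19) (.tw (.lf 13) (.lf 14)))) (.lf 10)), 0, [32, 32, 32, 32, 35, 35, 24, 24], [32, 32, 32, 32, 35, 35, 24, 24]⟩))
    (.nd (.lf ⟨[.ofNat 0, .ofNat 27285120, .negSucc 10387679, .negSucc 12415679, .ofNat 8441760, .negSucc 1706879], (.tr (.lf 13) (.tr (.lf 5) (.lf 6) (.tr (.dx 0 .on) (.tw (.lf 9) (.lf 10)) (.lf 14))) (.lf 19)), 0, [18, 18, 18, 18, 22, 22, 36, 36], [18, 18, 18, 18, 27, 27, 36, 36]⟩)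
    (.lf ⟨[.ofNat 0, .negSucc 11963519, .ofNat 6871200, .ofNat 3781440, .negSucc 3112799, .ofNat 731520], (.tw (.lf 10) (.tr (.lf 19) (.lf 5) (.tr (.dx 0 (.lf 9)) (.tw (.lf 13) (.lf 14)) (.lf 6)))), 0, [25, 25, 21, 21, 12, 12, 27, 27], [25, 25, 11, 11, 27, 27, 27, 27]⟩)))
    (.nd (.nd (.lf ⟨[.ofNat 0, .negSucc 29272319, .ofNat 53393280, .negSucc 43980479, .ofNat 15048960, .negSucc 2316479], (.tr (.dx 0 (.lf 9)) (.tw (.lf 13) (.tr (.lf 14) (.tw (.lf 5) (.lf 6)) (.lf 19))) (.lf 10)), 0, [20, 20, 20, 20, 20, 20, 20, 20], [10, 10, 10, 10, 10, 10, 7, 7]⟩)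
    (.lf ⟨[.ofNat 0, .ofNat 4642560, .ofNat 8783040, .negSucc 16368959, .ofNat 7525440, .negSucc 1341119], (.tr (.dx 0 (.lf 5)) (.tw (.lf 6) (.tr (.tw (.lf 9) (.lf 10)) (.lf 13) (.lf 14))) (.lf 19)), 0, [0, 0, 0, 0, 0, 0, 0, 0], [39, 39, 15, 15, 20, 20, 10, 10]⟩))
    (.nd (.lf ⟨[.ofNat 0, .negSucc 4250879, .negSucc 9105599, .ofNat 16368960, .negSucc 7525439, .ofNat 1341120], (.tr (.dx 0 (.lf 5)) (.tw (.lf 13) (.tr (.lf 6) (.tw (.lf 9) (.lf 10)) (.lf 14))) (.lf 19)), 0, [0, 0, 0, 0, 0, 0, 0, 0], [39, 39, 10, 10, 39, 39, 39, 39]⟩)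
    (.lf ⟨[.ofNat 0, .negSucc 391679, .ofNat 322560], (.tw (.lf 19) (.tr (.dx 0 (.lf 5)) (.lf 13) (.tr (.lf 6) (.tw (.lf 9) (.lf 10)) (.lf 14)))), 0, [37, 37, 9, 9, 1, 1, 1, 1], [37, 37, 9, 9, 11, 11, 38, 38]⟩))))

/-- data -/
def dV10x10 : RT := (.nd (.nd (.nd (.lf ⟨[.ofNat 0, .negSucc 1595519, .ofNat 39450720, .negSucc 51320639, .ofNat 21416160, .negSucc 3657599], (.tr (.lf 5) (.dx 0 .on) (.tr (.lf 19) (.lf 6) (.tr (.tw (.lf 9) (.lf 10)) (.lf 13) (.lf 14)))), 0, [37, 37, 7, 7, 32, 32, 32, 32], [37, 37, 7, 7, 27, 27, 32, 32]⟩)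
    (.lf ⟨[.ofNat 0, .ofNat 8694720, .ofNat 13591440, .negSucc 25801439, .ofNat 11705040, .negSucc 2072639], (.tr (.lf 19) (.lf 5) (.tr (.lf 6) (.dx 0 .on) (.tr (.tw (.lf 9) (.lf 10)) (.lf 13) (.lf 14)))), 0, [37, 37, 7, 7, 33, 33, 33, 33], [37, 37, 7, 7, 33, 33, 26, 26]⟩))
    (.nd (.lf ⟨[.ofNat 0, .negSucc 4380479, .negSucc 21958319, .ofNat 33207840, .negSucc 14613359, .ofNat 2560320], (.tr (.lf 5) (.tr (.dx 0 .on) (.tr (.tw (.lf 9) (.lf 10)) (.lf 13) (.lf 14)) (.lf 6)) (.lf 19)), 0, [32, 32, 32, 32, 8, 8, 24, 24], [27, 27, 32, 32, 8, 8, 24, 24]⟩)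
    (.lf ⟨[.negSucc 7274879, .ofNat 8945760, .ofNat 41354160, .negSucc 63471359, .ofNat 27182640, .negSucc 4754879], (.tr (.dx 0 .on) (.tr (.lf 13) (.tr (.tw (.lf 5) (.lf 6)) (.lf 9) (.lf 10)) (.lf 19)) (.lf 14)), 0, [10, 10, 10, 10, 37, 37, 19, 19], [10, 10, 5, 5, 37, 37, 19, 19]⟩)))
    (.nd (.nd (.lf ⟨[.ofNat 0, .ofNat 12072960, .negSucc 43090559, .ofNat 46252800, .negSucc 17815679, .ofNat 2926080], (.tr (.lf 5) (.dx 0 .on) (.tr (.lf 9) (.tr (.lf 6) (.tw (.lf 13) (.lf 14)) (.lf 10)) (.lf 19))), 0, [32, 32, 32, 32, 7, 7, 32, 32], [15, 15, 27, 27, 7, 7, 32, 32]⟩)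
    (.lf ⟨[.ofNat 0, .negSucc 9653759, .ofNat 33878400, .negSucc 36603839, .ofNat 14073600, .negSucc 2316479], (.tr (.lf 5) (.tr (.dx 0 .on) (.lf 19) (.tr (.lf 6) (.tw (.lf 13) (.lf 14)) (.lf 9))) (.lf 10)), 0, [7, 7, 32, 32, 24, 24, 13, 13], [7, 7, 32, 32, 24, 24, 8, 8]⟩))
    (.nd (.lf ⟨[.ofNat 0, .negSucc 6572159, .ofNat 25585440, .negSucc 28277759, .ofNat 11043360, .negSucc 1828799], (.tr (.lf 5) (.tr (.dx 0 .on) (.lf 9) (.tr (.lf 6) (.tw (.lf 13) (.lf 14)) (.lf 10))) (.lf 19)), 0, [32, 32, 32, 32, 24, 24, 3, 3], [15, 15, 27, 27, 24, 24, 8, 8]⟩)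
    (.lf ⟨[.ofNat 0, .negSucc 12407039, .ofNat 32103360, .negSucc 10683839, .negSucc 13924799, .ofNat 7688640, .negSucc 1463039], (.tr (.lf 5) (.lf 15) (.tr (.lf 9) (.tr (.lf 6) (.dx 0 .on) (.lf 10)) (.lf 19))), 0, [15, 24, 13, 35], [15, 24, 13, 35]⟩))))

/-- data -/
def dV10x11 : RT := (.nd (.nd (.nd (.lf ⟨[.ofNat 0, .negSucc 18863999, .ofNat 23958240, .negSucc 13713599, .ofNat 3761760, .negSucc 487679], (.tr (.dx 0 .on) (.tr (.lf 13) (.tr (.lf 9) (.tw (.lf 5) (.lf 6)) (.lf 14)) (.lf 19)) (.lf 10)), 0, [10, 10, 10, 10, 30, 30, 30, 30], [29, 29, 29, 29, 7, 7, 7, 7]⟩)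
    (.lf ⟨[.negSucc 14549759, .ofNat 16249920, .ofNat 75215040, .negSucc 115704959, .ofNat 49504320, .negSucc 8656319], (.tr (.lf 5) (.tr (.dx 0 .on) (.tr (.tw (.lf 13) (.lf 14)) (.lf 6) (.lf 19)) (.lf 9)) (.lf 10)), 0, [29, 29, 7, 7, 13, 13, 13, 13], [29, 29, 7, 7, 8, 8, 13, 13]⟩))
    (.nd (.lf ⟨[.ofNat 14549760, .negSucc 17079359, .negSucc 74604479, .ofNat 115774080, .negSucc 49504319, .ofNat 8656320], (.tr (.lf 5) (.tr (.lf 9) (.lf 19) (.tr (.dx 0 .on) (.tw (.lf 13) (.lf 14)) (.lf 6))) (.lf 10)), 0, [8, 8, 13, 13, 29, 29, 24, 24], [8, 8, 13, 13, 29, 29, 24, 24]⟩)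
    (.lf ⟨[.ofNat 0, .ofNat 2718720, .ofNat 31083840, .negSucc 43914239, .ofNat 18507840, .negSucc 3169919], (.tr (.lf 5) (.lf 9) (.tr (.lf 10) (.tr (.lf 6) (.dx 0 .on) (.tw (.lf 13) (.lf 14))) (.lf 19))), 0, [8, 8, 8, 8, 7, 7, 35, 35], [8, 8, 8, 8, 7, 7, 35, 35]⟩)))
    (.nd (.nd (.lf ⟨[.ofNat 0, .negSucc 2476799, .negSucc 16571519, .ofNat 24166080, .negSucc 10494719, .ofNat 1828800], (.tr (.lf 13) (.tr (.dx 0 .on) (.tr (.lf 5) (.lf 14) (.tw (.lf 9) (.lf 10))) (.lf 6)) (.lf 19)), 0, [22, 22, 22, 22, 18, 18, 3, 3], [22, 22, 27, 27, 18, 18, 3, 3]⟩)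
    (.lf ⟨[.ofNat 0, .ofNat 2476800, .ofNat 16571520, .negSucc 24166079, .ofNat 10494720, .negSucc 1828799], (.tr (.lf 19) (.lf 13) (.tr (.dx 0 .on) (.tr (.tw (.lf 5) (.lf 6)) (.lf 14) (.lf 9)) (.lf 10))), 0, [7, 7, 35, 35, 21, 21, 1, 1], [7, 7, 35, 35, 38, 38, 1, 1]⟩))
    (.nd (.lf ⟨[.ofNat 0, .negSucc 9521279, .ofNat 2473440, .ofNat 6002880, .negSucc 3722399, .ofNat 731520], (.tr (.dx 0 .on) (.lf 9) (.tr (.lf 19) (.lf 13) (.tr (.lf 10) (.tw (.lf 5) (.lf 6)) (.lf 14)))), 0, [20, 20, 20, 20, 20, 20, 20, 20], [19, 19, 35, 35, 39, 39, 39, 39]⟩)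
    (.lf ⟨[.ofNat 0, .ofNat 7044480, .negSucc 19044959, .ofNat 18163200, .negSucc 6772319, .ofNat 1097280], (.tr (.dx 0 .on) (.tr (.lf 9) (.tr (.lf 10) (.tw (.lf 5) (.lf 6)) (.lf 13)) (.lf 14)) (.lf 19)), 0, [20, 20, 20, 20, 10, 10, 10, 10], [39, 39, 39, 39, 15, 15, 10, 10]⟩))))

/-- data -/
def dV10x12 : RT := (.nd (.nd (.nd (.lf ⟨[.ofNat 0, .negSucc 5500799, .ofNat 17505120, .negSucc 17975039, .ofNat 6772320, .negSucc 1097279], (.tr (.lf 19) (.lf 5) (.tr (.dx 0 .on) (.lf 9) (.tr (.lf 6) (.tw (.lf 13) (.lf 14)) (.lf 10)))), 0, [7, 7, 25, 25, 21, 21, 21, 21], [7, 7, 25, 25, 26, 26, 21, 21]⟩)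
    (.lf ⟨[.ofNat 0, .negSucc 19820159, .ofNat 37473120, .ofNat 10493760, .negSucc 52678559, .ofNat 24733440, .negSucc 4632959], (.tr (.lf 5) (.tr (.dx 0 .on) (.lf 9) (.tr (.lf 6) (.lf 15) (.lf 10))) (.lf 19)), 0, [32, 32, 24, 3], [15, 27, 24, 8]⟩))
    (.nd (.lf ⟨[.ofNat 0, .negSucc 23022719, .ofNat 65244000, .negSucc 64448639, .ofNat 24017760, .negSucc 3779519], (.tr (.lf 6) (.lf 9) (.tr (.lf 13) (.lf 14) (.tr (.dx 0 (.lf 5)) (.lf 19) (.lf 10)))), 0, [8, 1, 37, 23], [8, 8, 37, 23]⟩)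
    (.lf ⟨[.ofNat 0, .ofNat 31256640, .negSucc 84564719, .ofNat 83807040, .negSucc 31492079, .ofNat 5059680], (.tr (.lf 6) (.lf 9) (.tr (.dx 0 (.lf 5)) (.tr (.lf 13) (.lf 10) (.lf 19)) (.lf 14))), 0, [5, 37, 1, 1], [5, 37, 8, 8]⟩)))
    (.nd (.nd (.lf ⟨[.ofNat 0, .ofNat 936000, .ofNat 850320, .negSucc 8072639, .ofNat 3411600, .negSucc 792479], (.tr (.lf 13) (.lf 19) (.tr (.lf 9) (.lf 14) (.tr (.dx 0 (.lf 5)) (.lf 10) (.lf 6)))), 0, [4, 1, 4, 4], [4, 21, 4, 7]⟩)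
    (.lf ⟨[.ofNat 0, .negSucc 3839039, .negSucc 7819919, .ofNat 15357120, .negSucc 6986639, .ofNat 1280160], (.tr (.lf 9) (.tr (.lf 13) (.tr (.dx 0 (.lf 5)) (.lf 10) (.lf 6)) (.lf 19)) (.lf 14)), 0, [5, 5, 19, 23], [6, 5, 19, 23]⟩))
    (.nd (.lf ⟨[.ofNat 0, .ofNat 3839040, .ofNat 7819920, .negSucc 15357119, .ofNat 6986640, .negSucc 1280159], (.tr (.lf 13) (.lf 14) (.tr (.lf 9) (.lf 19) (.tr (.dx 0 (.lf 5)) (.lf 10) (.lf 6)))), 0, [36, 36, 22, 18], [36, 36, 22, 18]⟩)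
    (.lf ⟨[.ofNat 0, .negSucc 19820159, .ofNat 92106720, .negSucc 113485439, .ofNat 47028960, .negSucc 8168639], (.tr (.lf 9) (.lf 19) (.tr (.dx 0 (.lf 5)) (.tr (.lf 10) (.lf 6) (.lf 13)) (.lf 14))), 0, [19, 37, 1, 1], [19, 37, 11, 28]⟩))))

/-- data -/
def dV10x13 : RT := (.nd (.nd (.nd (.lf ⟨[.ofNat 0, .ofNat 19820160, .negSucc 92106719, .ofNat 113485440, .negSucc 47028959, .ofNat 8168640], (.tr (.lf 9) (.lf 19) (.tr (.lf 13) (.lf 14) (.tr (.dx 0 (.lf 5)) (.lf 10) (.lf 6)))), 0, [28, 1, 19, 23], [28, 28, 19, 23]⟩)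
    (.lf ⟨[.ofNat 0, .negSucc 17579519, .ofNat 17393760, .negSucc 5750399, .ofNat 507360, .ofNat 121920], (.tw (.dx 0 (.tr (.lf 13) (.tr (.lf 9) (.tw (.lf 5) (.lf 14)) (.lf 10)) (.lf 19))) (.lf 6)), 0, [33, 33, 33, 33, 30, 30, 30, 30], []⟩))
    (.nd (.lf ⟨[.ofNat 0, .ofNat 25724160, .negSucc 60214559, .ofNat 55352640, .negSucc 20153759, .ofNat 3169920], (.tw (.dx 0 (.tr (.lf 19) (.lf 9) (.tr (.lf 13) (.tw (.lf 5) (.lf 10)) (.lf 14)))) (.lf 6)), 0, [30, 33, 30, 33, 10, 33, 10, 33], []⟩)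
    (.lf ⟨[.ofNat 0, .negSucc 33603839, .ofNat 32686560, .negSucc 9987839, .ofNat 424800, .ofNat 365760], (.tw (.dx 0 (.tw (.lf 13) (.tr (.lf 5) (.tr (.lf 9) (.lf 14) (.lf 10)) (.lf 19)))) (.lf 6)), 0, [10, 10, 33, 33, 0, 0, 33, 33], []⟩)))
    (.nd (.nd (.lf ⟨[.ofNat 0, .ofNat 12072960, .negSucc 11500799, .ofNat 4001280, .negSucc 487679], (.tr (.lf 6) (.tr (.lf 9) (.tr (.lf 10) (.dx 0 (.lf 5)) (.lf 19)) (.lf 13)) (.lf 14)), 0, [5, 37, 24, 37], [5, 37, 24, 37]⟩)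
    (.lf ⟨[.ofNat 0, .ofNat 7240320, .negSucc 23620319, .ofNat 24802560, .negSucc 9619679, .ofNat 1584960], (.tr (.lf 13) (.lf 14) (.tr (.dx 0 (.lf 5)) (.lf 9) (.tr (.lf 6) (.lf 19) (.lf 10)))), 0, [22, 22, 18, 36], [22, 22, 18, 36]⟩))
    (.nd (.lf ⟨[.ofNat 0, .negSucc 35861759, .ofNat 124580160, .negSucc 133923839, .ofNat 51316800, .negSucc 8534399], (.tr (.lf 5) (.lf 9) (.tr (.lf 14) (.lf 6) (.tr (.lf 10) (.dx 0 (.lf 13)) (.lf 19)))), 0, [8, 8, 8, 19], [8, 8, 8, 8]⟩)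
    (.lf ⟨[.ofNat 0, .negSucc 44403839, .ofNat 144014400, .negSucc 148602239, .ofNat 57224640, .negSucc 9265919], (.tr (.lf 14) (.lf 5) (.tr (.lf 6) (.lf 9) (.tr (.lf 10) (.dx 0 (.lf 13)) (.lf 19)))), 0, [18, 18, 18, 9], [18, 18, 9, 9]⟩))))

/-- data -/
def dV10x14 : RT := (.nd (.nd (.nd (.lf ⟨[.ofNat 0, .ofNat 2410560, .negSucc 9821279, .ofNat 11069760, .negSucc 4530719, .ofNat 731520], (.tr (.lf 14) (.lf 5) (.tw (.lf 19) (.tr (.dx 0 (.lf 13)) (.tw (.lf 9) (.lf 10)) (.lf 6)))), 0, [9, 9, 11, 11, 18, 18, 18, 18], [9, 9, 21, 21, 18, 18, 18, 18]⟩)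
    (.lf ⟨[.ofNat 0, .ofNat 27671040, .negSucc 87819839, .ofNat 90562560, .negSucc 34451519, .ofNat 5608320], (.tw (.lf 19) (.tr (.dx 0 (.lf 13)) (.lf 9) (.tr (.lf 10) (.tw (.lf 5) (.lf 6)) (.lf 14)))), 0, [19, 19, 35, 35, 11, 11, 11, 11], [19, 19, 35, 35, 21, 21, 21, 21]⟩))
    (.nd (.lf ⟨[.ofNat 0, .negSucc 23588639, .ofNat 67767720, .negSucc 66757919, .ofNat 25269480, .negSucc 4053839], (.tw (.dx 0 (.lf 13)) (.tr (.lf 9) (.tr (.lf 10) (.tw (.lf 5) (.lf 6)) (.lf 14)) (.lf 19))), 0, [10, 10, 10, 10, 10, 10, 35, 35], [20, 20, 20, 20, 30, 30, 35, 35]⟩)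
    (.lf ⟨[.ofNat 0, .ofNat 167040, .ofNat 7121760, .negSucc 8657279, .ofNat 3673440, .negSucc 609599], (.tr (.dx 0 (.lf 13)) (.tw (.lf 9) (.tr (.tw (.lf 5) (.lf 6)) (.lf 14) (.lf 19))) (.lf 10)), 0, [10, 10, 10, 10, 29, 29, 35, 35], [29, 29, 35, 35, 29, 29, 35, 35]⟩)))
    (.nd (.nd (.lf ⟨[.ofNat 0, .ofNat 17650080, .negSucc 37079879, .ofNat 30854880, .negSucc 10842119, .ofNat 1615440], (.tw (.dx 0 (.lf 13)) (.tr (.lf 19) (.lf 14) (.tr (.tw (.lf 5) (.lf 6)) (.lf 9) (.lf 10)))), 0, [35, 35, 9, 9, 10, 10, 10, 10], [35, 35, 9, 9, 0, 0, 20, 20]⟩)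
    (.lf ⟨[.ofNat 0, .negSucc 11301119, .ofNat 43473600, .negSucc 47109119, .ofNat 19028160, .negSucc 3169919], (.tr (.lf 19) (.lf 1) (.tr (.lf 15) (.lf 9) (.tr (.dx 1 .on) (.lf 2) (.lf 10)))), 1, [13, 33, 37, 37], [13, 2, 37, 37]⟩))
    (.nd (.lf ⟨[.ofNat 0, .negSucc 45803519, .ofNat 121785600, .negSucc 117262079, .ofNat 43276800, .negSucc 6827519], (.tr (.lf 14) (.lf 5) (.tr (.dx 0 (.lf 13)) (.lf 9) (.tr (.lf 10) (.lf 6) (.lf 19)))), 0, [18, 35, 11, 11], [18, 35, 21, 21]⟩)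
    (.lf ⟨[.ofNat 0, .ofNat 28085760, .negSucc 81114239, .ofNat 80083200, .negSucc 30180479, .ofNat 4876800], (.tr (.lf 19) (.lf 9) (.tr (.lf 6) (.lf 13) (.tr (.dx 0 (.lf 5)) (.lf 10) (.lf 14)))), 0, [37, 1, 25, 25], [37, 14, 25, 25]⟩))))

/-- data -/
def dV10x15 : RT := (.nd (.nd (.nd (.lf ⟨[.ofNat 0, .negSucc 65312639, .ofNat 210333600, .negSucc 212204159, .ofNat 79454880, .negSucc 12801599], (.tr (.lf 14) (.lf 5) (.tr (.lf 6) (.lf 9) (.tr (.dx 0 (.lf 13)) (.lf 19) (.lf 10)))), 0, [18, 11, 9, 18], [18, 18, 9, 18]⟩)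
    (.lf ⟨[.ofNat 0, .negSucc 2465279, .ofNat 16544640, .negSucc 22112639, .ofNat 9356160, .negSucc 1706879], (.tr (.lf 6) (.lf 13) (.tr (.lf 9) (.dx 0 (.lf 5)) (.tr (.lf 14) (.lf 10) (.lf 19)))), 0, [24, 24, 24, 13], [15, 24, 24, 13]⟩))
    (.nd (.lf ⟨[.ofNat 0, .ofNat 48294720, .negSucc 110113199, .ofNat 103070400, .negSucc 37337519, .ofNat 6035040], (.tr (.lf 9) (.tr (.lf 5) (.tr (.dx 0 (.lf 13)) (.lf 10) (.lf 6)) (.lf 19)) (.lf 14)), 0, [34, 34, 19, 28], [34, 34, 19, 28]⟩)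
    (.lf ⟨[.ofNat 0, .negSucc 13861439, .ofNat 30474480, .negSucc 24248639, .ofNat 8210160, .negSucc 1158239], (.tr (.dx 0 (.lf 13)) (.tr (.lf 19) (.lf 14) (.tr (.lf 5) (.lf 9) (.lf 10))) (.lf 6)), 0, [10, 9, 10, 10], [9, 9, 0, 20]⟩)))
    (.nd (.nd (.lf ⟨[.ofNat 0, .ofNat 3012480, .negSucc 941999, .negSucc 808319, .ofNat 961680, .negSucc 182879], (.tr (.dx 0 (.lf 13)) (.tw (.lf 19) (.tr (.lf 5) (.tw (.lf 9) (.lf 10)) (.lf 14))) (.lf 6)), 0, [10, 10, 9, 9, 10, 10, 10, 10], [25, 25, 9, 9, 0, 0, 17, 17]⟩)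
    (.lf ⟨[.ofNat 0, .negSucc 3012479, .ofNat 942000, .ofNat 808320, .negSucc 961679, .ofNat 182880], (.tw (.lf 5) (.tr (.dx 0 (.lf 13)) (.tr (.tw (.lf 9) (.lf 10)) (.lf 6) (.lf 19)) (.lf 14))), 0, [32, 32, 37, 37, 11, 11, 11, 11], [5, 5, 37, 37, 24, 24, 21, 21]⟩))
    (.nd (.lf ⟨[.ofNat 0, .ofNat 20391840, .negSucc 56411159, .ofNat 55177440, .negSucc 20443799, .ofNat 3261360], (.tw (.lf 14) (.tr (.lf 5) (.dx 0 (.lf 13)) (.tr (.tw (.lf 9) (.lf 10)) (.lf 6) (.lf 19)))), 0, [18, 18, 35, 35, 36, 36, 33, 33], [18, 18, 35, 35, 36, 36, 4, 4]⟩)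
    (.lf ⟨[.ofNat 0, .negSucc 2488319, .ofNat 2590080, .negSucc 1785599, .ofNat 243840], (.tr (.dx 0 (.lf 13)) (.tw (.lf 5) (.tr (.tw (.lf 9) (.lf 10)) (.lf 14) (.lf 19))) (.lf 6)), 0, [10, 10, 10, 10, 17, 17, 9, 9], [0, 0, 9, 9, 17, 17, 9, 9]⟩))))

/-- data -/
def dV10x16 : RT := (.nd (.nd (.nd (.lf ⟨[.ofNat 0, .negSucc 5840639, .negSucc 189119, .ofNat 10649280, .negSucc 148255679, .ofNat 172962240, .negSucc 69717119, .ofNat 11460480], (.tw (.lf 11) (.tr (.dx 0 .on) (.tr (.lf 5) (.lf 15) (.lf 19)) (.lf 6))), 0, [12, 25, 31, 1], [12, 25, 34, 1]⟩)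
    (.lf ⟨[.ofNat 0, .negSucc 13786559, .ofNat 14980080, .negSucc 5922239, .ofNat 741360, .ofNat 60960], (.tr (.lf 14) (.lf 19) (.tr (.tw (.lf 5) (.lf 6)) (.dx 0 (.tw (.lf 9) (.lf 13))) (.lf 10))), 0, [13, 13, 13, 13, 33, 33, 33, 33], [4, 4, 33, 33]⟩))
    (.nd (.lf ⟨[.ofNat 0, .negSucc 13786559, .ofNat 14980080, .negSucc 5922239, .ofNat 741360, .ofNat 60960], (.tr (.lf 10) (.dx 0 (.tw (.lf 9) (.lf 13))) (.tr (.tw (.lf 5) (.lf 6)) (.lf 14) (.lf 19))), 0, [12, 12, 25, 25, 12, 12, 25, 25], [12, 12, 25, 25]⟩)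
    (.lf ⟨[.ofNat 0, .ofNat 27573120, .negSucc 29960159, .ofNat 11844480, .negSucc 1482719, .negSucc 121919], (.tr (.lf 5) (.lf 6) (.tr (.tw (.dx 0 (.tw (.lf 9) (.lf 13))) (.lf 10)) (.lf 19) (.lf 14))), 0, [32, 32, 8, 8, 24, 24, 24, 24], [32, 8, 24, 24]⟩)))
    (.nd (.nd (.lf ⟨[.ofNat 0, .negSucc 8562239, .ofNat 7494000, .negSucc 1524479, .negSucc 397199, .ofNat 182880], (.tr (.lf 14) (.lf 19) (.tr (.dx 0 (.tw (.lf 9) (.lf 13))) (.lf 10) (.tw (.lf 5) (.lf 6)))), 0, [9, 9, 9, 9, 4, 4, 4, 4], [9, 9, 21, 21]⟩)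
    (.lf ⟨[.ofNat 0, .ofNat 13786560, .negSucc 14980079, .ofNat 5922240, .negSucc 741359, .negSucc 60959], (.tr (.lf 10) (.tr (.dx 0 (.tw (.lf 9) (.lf 13))) (.tw (.lf 5) (.lf 6)) (.lf 19)) (.lf 14)), 0, [12, 12, 12, 12, 23, 23, 23, 23], [5, 5, 28, 28]⟩))
    (.nd (.lf ⟨[.ofNat 0, .negSucc 13786559, .ofNat 14980080, .negSucc 5922239, .ofNat 741360, .ofNat 60960], (.tr (.lf 10) (.lf 19) (.tr (.tw (.lf 5) (.lf 6)) (.dx 0 (.tw (.lf 9) (.lf 13))) (.lf 14))), 0, [23, 23, 23, 23, 33, 33, 33, 33], [28, 28, 33, 33]⟩)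
    (.lf ⟨[.ofNat 0, .ofNat 4190400, .negSucc 4003439, .ofNat 1087680, .negSucc 9839, .negSucc 60959], (.tr (.dx 0 (.tw (.lf 9) (.lf 13))) (.lf 14) (.tr (.tw (.lf 5) (.lf 6)) (.lf 10) (.lf 19))), 0, [20, 20, 9, 9, 10, 10, 9, 9], [10, 10, 9, 9]⟩))))

/-- data -/
def dV10x17 : RT := (.nd (.nd (.nd (.lf ⟨[.ofNat 0, .ofNat 13786560, .negSucc 14980079, .ofNat 5922240, .negSucc 741359, .negSucc 60959], (.tr (.dx 0 (.tw (.lf 5) (.lf 9))) (.tr (.lf 6) (.tw (.lf 13) (.lf 14)) (.lf 10)) (.lf 19)), 0, [0, 0, 0, 0, 20, 20, 27, 27], [0, 0, 27, 27]⟩)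
    (.lf ⟨[.ofNat 0, .ofNat 6995520, .negSucc 1735919, .negSucc 5591039, .ofNat 3244560, .negSucc 670559], (.tr (.dx 0 (.tw (.lf 5) (.lf 9))) (.lf 10) (.tr (.tw (.lf 13) (.lf 14)) (.lf 6) (.lf 19))), 0, [0, 0, 19, 19, 27, 27, 19, 19], [27, 27, 19, 19]⟩))
    (.nd (.lf ⟨[.ofNat 0, .negSucc 14173919, .ofNat 9154920, .ofNat 2645280, .negSucc 2873879, .ofNat 701040], (.tr (.lf 6) (.dx 0 (.tw (.lf 5) (.lf 13))) (.tr (.tw (.lf 9) (.lf 10)) (.lf 14) (.lf 19))), 0, [32, 32, 7, 7, 39, 39, 7, 7], [39, 39, 7, 7]⟩)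
    (.lf ⟨[.ofNat 0, .ofNat 0, .ofNat 11289600, .negSucc 13422719, .ofNat 4035840, .negSucc 731519], (.tw (.lf 15) (.tr (.lf 6) (.lf 9) (.tr (.lf 10) (.dx 0 (.lf 5)) (.lf 19)))), 0, [3, 13, 36, 9], [3, 18, 9, 9]⟩)))
    (.nd (.nd (.lf ⟨[.ofNat 0, .negSucc 5539679, .ofNat 7900200, .negSucc 4722719, .ofNat 1316520, .negSucc 152399], (.tw (.dx 0 (.lf 5)) (.tr (.lf 9) (.lf 6) (.tr (.tw (.lf 13) (.lf 14)) (.lf 10) (.lf 19)))), 0, [0, 0, 37, 37, 0, 0, 0, 0], [15, 15, 37, 37, 10, 10, 30, 30]⟩)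
    (.lf ⟨[.ofNat 0, .ofNat 3368160, .negSucc 50691719, .ofNat 64914720, .negSucc 27044999, .ofNat 4663440], (.tw (.dx 0 (.lf 5)) (.tr (.lf 9) (.tr (.lf 6) (.tw (.lf 13) (.lf 14)) (.lf 10)) (.lf 19))), 0, [0, 0, 0, 0, 7, 7, 0, 0], [15, 15, 20, 20, 7, 7, 30, 30]⟩))
    (.nd (.lf ⟨[.ofNat 0, .negSucc 2219039, .negSucc 19058759, .ofNat 28478880, .negSucc 12442439, .ofNat 2225040], (.tw (.lf 9) (.tr (.dx 0 (.lf 5)) (.tr (.tw (.lf 13) (.lf 14)) (.lf 10) (.lf 19)) (.lf 6))), 0, [17, 17, 25, 25, 1, 1, 1, 1], [12, 12, 25, 25, 31, 31, 11, 11]⟩)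
    (.lf ⟨[.ofNat 0, .negSucc 12353759, .ofNat 69223560, .negSucc 80778719, .ofNat 32576520, .negSucc 5516879], (.tr (.dx 0 (.lf 5)) (.tw (.lf 19) (.tr (.lf 6) (.tw (.lf 13) (.lf 14)) (.lf 9))) (.lf 10)), 0, [7, 7, 0, 0, 0, 0, 0, 0], [7, 7, 30, 30, 29, 29, 29, 29]⟩))))

/-- data -/
def dV10x18 : RT := (.nd (.nd (.nd (.lf ⟨[.ofNat 0, .negSucc 11423519, .ofNat 42785400, .negSucc 45302879, .ofNat 17698680, .negSucc 2895599], (.tr (.lf 6) (.tw (.lf 19) (.tr (.dx 0 (.lf 5)) (.tw (.lf 13) (.lf 14)) (.lf 9))) (.lf 10)), 0, [7, 7, 16, 16, 32, 32, 8, 8], [7, 7, 13, 13, 29, 29, 8, 8]⟩)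
    (.lf ⟨[.ofNat 0, .ofNat 27633600, .negSucc 108583439, .ofNat 118660800, .negSucc 45953039, .ofNat 7620000], (.tr (.lf 6) (.tr (.lf 19) (.dx 0 (.lf 5)) (.tr (.lf 9) (.lf 13) (.lf 14))) (.lf 10)), 0, [7, 7, 8, 24], [7, 7, 8, 24]⟩))
    (.nd (.lf ⟨[.ofNat 0, .ofNat 14244480, .negSucc 17958239, .ofNat 7916160, .negSucc 1238879, .negSucc 121919], (.tr (.lf 6) (.tr (.dx 0 (.lf 5)) (.lf 13) (.tr (.lf 14) (.lf 9) (.lf 19))) (.lf 10)), 0, [32, 32, 13, 16], [29, 7, 13, 13]⟩)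
    (.lf ⟨[.ofNat 0, .negSucc 39375359, .ofNat 105434880, .negSucc 103113599, .ofNat 37908480, .negSucc 6095999], (.tr (.lf 9) (.lf 19) (.tr (.lf 6) (.lf 13) (.tr (.dx 0 (.lf 5)) (.lf 10) (.lf 14)))), 0, [28, 1, 25, 25], [28, 28, 25, 25]⟩)))
    (.nd (.nd (.lf ⟨[.ofNat 0, .ofNat 8562240, .negSucc 7493999, .ofNat 1524480, .ofNat 397200, .negSucc 182879], (.tr (.dx 0 (.tw (.lf 5) (.lf 13))) (.tr (.lf 6) (.tw (.lf 9) (.lf 10)) (.lf 19)) (.lf 14)), 0, [0, 0, 0, 0, 10, 10, 10, 10], [0, 0, 19, 19]⟩)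
    (.lf ⟨[.ofNat 0, .negSucc 13216319, .ofNat 15122160, .negSucc 5952959, .ofNat 741360, .ofNat 60960], (.tw (.lf 19) (.tr (.lf 6) (.tr (.dx 0 (.tw (.lf 5) (.lf 13))) (.lf 9) (.lf 10)) (.lf 14))), 0, [37, 37, 23, 23, 9, 9, 38, 33], [37, 23, 9, 38]⟩))
    (.nd (.lf ⟨[.ofNat 0, .ofNat 6608160, .negSucc 7561079, .ofNat 2976480, .negSucc 370679, .negSucc 30479], (.tr (.lf 14) (.dx 0 (.tw (.lf 9) (.lf 13))) (.tr (.lf 10) (.tw (.lf 5) (.lf 6)) (.lf 19))), 0, [27, 27, 35, 35, 22, 22, 22, 22], [27, 27, 35, 35]⟩)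
    (.lf ⟨[.ofNat 0, .negSucc 6608159, .ofNat 7561080, .negSucc 2976479, .ofNat 370680, .ofNat 30480], (.tr (.lf 14) (.tr (.dx 0 (.tw (.lf 9) (.lf 13))) (.lf 10) (.tw (.lf 5) (.lf 6))) (.lf 19)), 0, [27, 27, 22, 22, 18, 18, 18, 18], [27, 27, 18, 18]⟩))))

/-- data -/
def dV10x19 : RT := (.nd (.nd (.nd (.lf ⟨[.ofNat 0, .ofNat 6608160, .negSucc 7561079, .ofNat 2976480, .negSucc 370679, .negSucc 30479], (.tr (.lf 19) (.dx 0 (.tw (.lf 9) (.lf 13))) (.tr (.lf 10) (.tw (.lf 5) (.lf 6)) (.lf 14))), 0, [19, 19, 35, 35, 19, 19, 35, 35], [19, 19, 35, 35]⟩)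
    (.lf ⟨[.ofNat 0, .negSucc 5515199, .ofNat 27306960, .negSucc 32067839, .ofNat 12640080, .negSucc 2133599], (.tw (.lf 19) (.tr (.lf 5) (.tr (.lf 6) (.dx 0 (.lf 13)) (.tw (.lf 9) (.lf 10))) (.lf 14))), 0, [37, 37, 19, 19, 9, 9, 33, 33], [37, 37, 19, 19, 9, 9, 33, 33]⟩))
    (.nd (.lf ⟨[.ofNat 0, .negSucc 521279, .negSucc 5761679, .ofNat 8941440, .negSucc 3732239, .ofNat 670560], (.tw (.lf 19) (.tr (.lf 14) (.lf 9) (.tr (.tw (.lf 5) (.lf 6)) (.dx 0 (.lf 13)) (.lf 10)))), 0, [13, 13, 33, 33, 37, 37, 37, 37], [38, 38, 33, 33, 37, 37, 37, 37]⟩)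
    (.lf ⟨[.ofNat 0, .negSucc 38992319, .ofNat 96020880, .negSucc 90762239, .ofNat 33342480, .negSucc 5303519], (.tr (.lf 10) (.lf 19) (.tw (.lf 5) (.tr (.lf 6) (.dx 0 (.lf 9)) (.tw (.lf 13) (.lf 14))))), 0, [23, 23, 28, 28, 25, 25, 33, 33], [23, 23, 28, 28, 25, 25, 33, 33]⟩)))
    (.nd (.nd (.lf ⟨[.ofNat 0, .ofNat 77984640, .negSucc 192041759, .ofNat 181524480, .negSucc 66684959, .ofNat 10607040], (.tr (.lf 10) (.lf 19) (.tr (.lf 5) (.lf 6) (.tr (.dx 0 (.lf 9)) (.lf 13) (.lf 14)))), 0, [23, 21, 25, 33], [23, 11, 25, 33]⟩)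
    (.lf ⟨[.ofNat 0, .ofNat 1042560, .ofNat 11523360, .negSucc 17882879, .ofNat 7464480, .negSucc 1341119], (.tr (.lf 9) (.tr (.dx 0 (.lf 13)) (.tr (.lf 5) (.lf 6) (.lf 10)) (.lf 14)) (.lf 19)), 0, [12, 12, 3, 6], [39, 12, 3, 6]⟩))
    (.nd (.lf ⟨[.ofNat 0, .ofNat 21634560, .negSucc 66274559, .ofNat 67436160, .negSucc 25543679, .ofNat 4145280], (.tr (.lf 9) (.tw (.lf 14) (.tr (.dx 0 (.lf 13)) (.lf 10) (.tw (.lf 5) (.lf 6)))) (.lf 19)), 0, [27, 27, 3, 3, 12, 12, 34, 34], [27, 27, 3, 3, 12, 12, 34, 34]⟩)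
    (.lf ⟨[.ofNat 0, .negSucc 17809919, .ofNat 50966400, .negSucc 50469119, .ofNat 18464640, .negSucc 2926079], (.tr (.lf 9) (.tr (.lf 5) (.tr (.dx 0 (.lf 13)) (.lf 10) (.lf 6)) (.lf 14)) (.lf 19)), 0, [34, 34, 27, 27], [34, 34, 27, 27]⟩))))

/-- data -/
def dV10x20 : RT := (.nd (.nd (.nd (.lf ⟨[.ofNat 0, .negSucc 15765119, .ofNat 19148640, .negSucc 9676799, .ofNat 2052960, .negSucc 121919], (.tr (.lf 10) (.lf 5) (.tr (.tw (.dx 0 (.tw (.lf 9) (.lf 13))) (.lf 14)) (.lf 19) (.lf 6))), 0, [34, 34, 17, 17, 23, 34, 34, 34], [34, 17, 34, 34]⟩)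
    (.lf ⟨[.ofNat 0, .ofNat 28347840, .negSucc 18309839, .negSucc 5290559, .ofNat 5747760, .negSucc 1402079], (.tr (.lf 6) (.tr (.tw (.dx 0 (.tw (.lf 5) (.lf 13))) (.lf 19)) (.lf 14) (.lf 9)) (.lf 10)), 0, [7, 7, 7, 7, 8, 8, 13, 8], [7, 7, 8, 8]⟩))
    (.nd (.lf ⟨[.ofNat 0, .negSucc 3839039, .negSucc 7819919, .ofNat 15357120, .negSucc 6986639, .ofNat 1280160], (.tr (.lf 5) (.tr (.tw (.dx 0 (.tw (.lf 9) (.lf 13))) (.lf 6)) (.lf 14) (.lf 19)) (.lf 10)), 0, [29, 29, 32, 32, 35, 35, 13, 13], [32, 32, 35, 13]⟩)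
    (.lf ⟨[.ofNat 0, .negSucc 15341759, .ofNat 7667280, .ofNat 6049920, .negSucc 4526639, .ofNat 1036320], (.tw (.dx 0 (.tw (.lf 9) (.lf 13))) (.tr (.lf 10) (.tr (.lf 5) (.lf 14) (.lf 6)) (.lf 19))), 0, [27, 27, 20, 20, 27, 27, 10, 10], [27, 27, 35, 35]⟩)))
    (.nd (.nd (.lf ⟨[.ofNat 0, .ofNat 3964320, .ofNat 1257480, .negSucc 5575199, .ofNat 2720520, .negSucc 518159], (.tw (.lf 19) (.tr (.dx 0 (.tw (.lf 5) (.lf 9))) (.tr (.lf 13) (.lf 6) (.lf 14)) (.lf 10))), 0, [2, 2, 2, 2, 21, 1, 21, 1], [7, 7, 11, 11]⟩)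
    (.lf ⟨[.ofNat 0, .negSucc 5840639, .ofNat 70669440, .negSucc 90408959, .ofNat 37015680, .negSucc 6339839], (.tr (.dx 0 (.tr (.lf 9) (.lf 5) (.lf 13))) (.lf 6) (.tr (.lf 10) (.lf 19) (.lf 14))), 0, [20, 29, 10, 10], [0, 29]⟩))
    (.nd (.lf ⟨[.ofNat 0, .negSucc 10727999, .ofNat 26162160, .negSucc 24780479, .ofNat 9039600, .negSucc 1402079], (.tr (.lf 6) (.tr (.lf 14) (.dx 0 (.tr (.lf 5) (.lf 13) (.lf 9))) (.lf 19)) (.lf 10)), 0, [24, 24, 7, 16], [24, 7]⟩)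
    (.lf ⟨[.ofNat 0, .ofNat 10719360, .negSucc 13866719, .ofNat 7645440, .negSucc 1809119, .ofNat 121920], (.tr (.lf 6) (.lf 14) (.tr (.dx 0 (.tr (.lf 5) (.lf 13) (.lf 9))) (.lf 19) (.lf 10))), 0, [24, 24, 24, 1], [24, 31]⟩))))

/-- data -/
def dV10x21 : RT := (.nd (.nd (.nd (.lf ⟨[.ofNat 0, .ofNat 9368640, .negSucc 10646639, .ofNat 4175040, .negSucc 497519, .negSucc 60959], (.tr (.lf 6) (.lf 19) (.tr (.dx 0 (.tr (.lf 5) (.lf 13) (.lf 9))) (.lf 14) (.lf 10))), 0, [7, 16, 16, 16], [7, 16]⟩)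
    (.lf ⟨[.ofNat 0, .ofNat 0, .negSucc 4285439, .ofNat 4913280, .negSucc 1455359, .ofNat 243840], (.tr (.dx 1 (.tw (.lf 1) (.lf 9))) (.lf 2) (.tr (.lf 15) (.lf 10) (.lf 19))), 1, [15, 32, 15, 8], [15, 32]⟩))
    (.nd (.lf ⟨[.ofNat 0, .ofNat 0, .ofNat 4285440, .negSucc 4913279, .ofNat 1455360, .negSucc 243839], (.tw (.dx 1 (.tw (.lf 1) (.lf 9))) (.tr (.tw (.lf 2) (.lf 19)) (.lf 10) (.lf 15))), 1, [32, 37, 3, 31, 8, 37, 3, 31], [32, 16, 24, 31]⟩)
    (.lf ⟨[.ofNat 0, .ofNat 0, .negSucc 1221119, .ofNat 1082880, .negSucc 161279], (.tw (.dx 1 (.tw (.lf 1) (.lf 9))) (.tr (.lf 15) (.tw (.lf 2) (.lf 10)) (.lf 19))), 1, [15, 3, 37, 23, 15, 3, 37, 23], [15, 24, 16, 16]⟩)))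
    (.nd (.nd (.lf ⟨[.ofNat 0, .negSucc 13991039, .ofNat 3471840, .ofNat 11182080, .negSucc 6489119, .ofNat 1341120], (.tw (.dx 0 (.tw (.lf 5) (.lf 9))) (.tr (.lf 10) (.tr (.lf 13) (.lf 6) (.lf 19)) (.lf 14))), 0, [0, 19, 0, 0, 20, 19, 29, 20], [5, 19, 10, 10]⟩)
    (.lf ⟨[.ofNat 0, .negSucc 7928639, .negSucc 2514959, .ofNat 11150400, .negSucc 5441039, .ofNat 1036320], (.tr (.lf 10) (.dx 0 (.tr (.lf 5) (.lf 9) (.lf 13))) (.tr (.lf 6) (.lf 14) (.lf 19))), 0, [12, 12, 12, 12], [12, 12]⟩))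
    (.nd (.lf ⟨[.ofNat 0, .ofNat 24747840, .negSucc 53929199, .ofNat 47760960, .negSucc 17011439, .ofNat 2621280], (.tr (.lf 6) (.lf 14) (.tr (.lf 10) (.dx 0 (.tr (.lf 5) (.lf 9) (.lf 13))) (.lf 19))), 0, [24, 3, 13, 13], [24, 13]⟩)
    (.lf ⟨[.ofNat 0, .negSucc 15664319, .ofNat 47258640, .negSucc 48313919, .ofNat 18293520, .negSucc 2987039], (.tr (.dx 0 (.tr (.lf 5) (.lf 9) (.lf 13))) (.tr (.lf 14) (.lf 6) (.lf 19)) (.lf 10)), 0, [0, 0, 29, 10], [10, 7]⟩))))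

/-- data -/
def dV10x22 : RT := (.nd (.nd (.nd (.lf ⟨[.ofNat 0, .ofNat 15664320, .negSucc 47258639, .ofNat 48313920, .negSucc 18293519, .ofNat 2987040], (.tr (.dx 0 (.tr (.lf 5) (.lf 9) (.lf 13))) (.lf 19) (.tr (.lf 6) (.lf 14) (.lf 10))), 0, [0, 0, 10, 25], [7, 30]⟩)
    (.lf ⟨[.ofNat 0, .ofNat 16709760, .negSucc 34502879, .ofNat 30028800, .negSucc 10595039, .ofNat 1584960], (.tr (.lf 14) (.lf 6) (.tr (.dx 0 (.tr (.lf 5) (.lf 13) (.lf 9))) (.lf 19) (.lf 10))), 0, [29, 29, 18, 1], [18, 18]⟩))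
    (.nd (.lf ⟨[.ofNat 0, .negSucc 16709759, .ofNat 34502880, .negSucc 30028799, .ofNat 10595040, .negSucc 1584959], (.tr (.lf 10) (.lf 19) (.tr (.dx 0 (.tr (.lf 5) (.lf 13) (.lf 9))) (.lf 6) (.lf 14))), 0, [28, 28, 28, 1], [19, 28]⟩)
    (.lf ⟨[.ofNat 0, .negSucc 691199, .negSucc 63523199, .ofNat 87352320, .negSucc 36527999, .ofNat 6339840], (.tr (.lf 14) (.lf 10) (.tr (.dx 0 (.tr (.lf 9) (.lf 5) (.lf 13))) (.lf 19) (.lf 6))), 0, [36, 36, 11, 36], [17, 36]⟩)))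
    (.nd (.nd (.lf ⟨[.ofNat 0, .negSucc 36907199, .ofNat 71438160, .negSucc 58342079, .ofNat 19878480, .negSucc 2987039], (.tw (.dx 0 (.tw (.lf 13) (.tr (.lf 5) (.tr (.lf 6) (.lf 14) (.lf 19)) (.lf 9)))) (.lf 10)), 0, [13, 13, 13, 13, 0, 13, 13, 13], []⟩)
    (.lf ⟨[.negSucc 1451519, .negSucc 3484799, .ofNat 3642240, .negSucc 1787519, .ofNat 243840], (.tr (.lf 5) (.dx 0 .on) (.tr (.lf 9) (.lf 6) (.tr (.lf 13) (.lf 10) (.tr (.lf 17) (.lf 14) (.lf 18))))), 0, [39, 39, 32, 32, 32, 32, 32, 32], [39, 39, 32, 32, 32, 32, 32, 32]⟩))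
    (.nd (.lf ⟨[.negSucc 6526079, .ofNat 31628640, .negSucc 35583359, .ofNat 14170080, .negSucc 2316479], (.tr (.lf 6) (.lf 9) (.tr (.dx 0 (.lf 5)) (.tr (.lf 13) (.lf 10) (.tw (.lf 17) (.lf 18))) (.lf 14))), 0, [5, 5, 37, 37, 1, 1, 1, 1], [5, 5, 37, 37, 31, 31, 8, 8]⟩)
    (.lf ⟨[.negSucc 5650559, .ofNat 21736800, .negSucc 23554559, .ofNat 9514080, .negSucc 1584959], (.tr (.lf 6) (.lf 9) (.tr (.dx 0 (.lf 5)) (.lf 17) (.tr (.tw (.lf 13) (.lf 14)) (.lf 10) (.lf 18)))), 0, [15, 15, 37, 37, 1, 1, 1, 1], [15, 15, 37, 37, 31, 31, 31, 31]⟩))))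

/-- data -/
def dV10x23 : RT := (.nd (.nd (.nd (.lf ⟨[.ofNat 12176640, .negSucc 53365439, .ofNat 59137920, .negSucc 23684159, .ofNat 3901440], (.tr (.lf 6) (.lf 9) (.tr (.lf 13) (.lf 14) (.tr (.dx 0 (.lf 5)) (.tw (.lf 17) (.lf 18)) (.lf 10)))), 0, [29, 29, 1, 1, 37, 37, 23, 23], [29, 29, 31, 31, 37, 37, 23, 23]⟩)
    (.lf ⟨[.ofNat 14745600, .negSucc 53306879, .ofNat 53458560, .negSucc 19797119, .ofNat 3169920], (.tr (.lf 17) (.lf 5) (.tr (.lf 6) (.dx 0 .on) (.tr (.lf 13) (.lf 14) (.tr (.lf 9) (.lf 18) (.lf 10))))), 0, [29, 29, 37, 37, 33, 33, 33, 33], [29, 29, 37, 37, 26, 26, 33, 33]⟩))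
    (.nd (.lf ⟨[.negSucc 14457599, .ofNat 55709760, .negSucc 56772479, .ofNat 21220800, .negSucc 3413759], (.tr (.lf 9) (.lf 5) (.tr (.lf 6) (.lf 17) (.tr (.lf 18) (.dx 0 .on) (.tr (.lf 13) (.lf 10) (.lf 14))))), 0, [37, 37, 34, 34, 34, 34, 17, 17], [37, 37, 34, 34, 34, 34, 17, 17]⟩)
    (.lf ⟨[.negSucc 12421439, .ofNat 28522800, .negSucc 27284159, .ofNat 10371120, .negSucc 1645919], (.tr (.lf 5) (.lf 17) (.tr (.lf 9) (.lf 6) (.tr (.lf 18) (.dx 0 .on) (.tr (.lf 13) (.lf 10) (.lf 14))))), 0, [37, 37, 3, 3, 16, 16, 35, 35], [37, 37, 16, 16, 16, 16, 35, 35]⟩)))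
    (.nd (.nd (.lf ⟨[.negSucc 679679, .negSucc 2080319, .ofNat 3313920, .negSucc 1423679, .ofNat 243840], (.tr (.dx 0 (.lf 5)) (.lf 13) (.tr (.lf 6) (.lf 9) (.tr (.lf 10) (.tw (.lf 17) (.lf 18)) (.lf 14)))), 0, [0, 0, 0, 0, 0, 0, 0, 0], [5, 5, 29, 29, 9, 9, 9, 9]⟩)
    (.lf ⟨[.negSucc 28321919, .ofNat 69082080, .negSucc 68687999, .ofNat 26045280, .negSucc 4267199], (.tr (.lf 5) (.dx 0 .on) (.tr (.lf 13) (.lf 6) (.tr (.lf 17) (.lf 14) (.tr (.lf 9) (.lf 18) (.lf 10))))), 0, [29, 29, 32, 32, 32, 32, 32, 32], [29, 29, 39, 39, 32, 32, 19, 19]⟩))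
    (.nd (.lf ⟨[.ofNat 10414080, .negSucc 28888319, .ofNat 28272000, .negSucc 10575359, .ofNat 1706880], (.tr (.lf 5) (.dx 0 .on) (.tr (.lf 13) (.tr (.lf 6) (.tr (.lf 9) (.lf 17) (.lf 10)) (.lf 14)) (.lf 18))), 0, [32, 32, 32, 32, 37, 37, 32, 32], [39, 39, 32, 32, 37, 37, 32, 32]⟩)
    (.lf ⟨[.negSucc 10414079, .ofNat 28888320, .negSucc 28271999, .ofNat 10575360, .negSucc 1706879], (.tr (.lf 5) (.dx 0 .on) (.tr (.lf 17) (.lf 6) (.tr (.lf 13) (.lf 14) (.tr (.lf 9) (.lf 18) (.lf 10))))), 0, [29, 29, 37, 37, 32, 32, 32, 32], [29, 29, 37, 37, 32, 32, 27, 27]⟩))))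

/-- data -/
def dV10x24 : RT := (.nd (.nd (.nd (.lf ⟨[.ofNat 18956160, .negSucc 49451039, .ofNat 49257600, .negSucc 18419999, .ofNat 3048000], (.tr (.lf 5) (.dx 0 .on) (.tr (.lf 13) (.lf 17) (.tr (.lf 18) (.lf 6) (.tr (.lf 9) (.lf 14) (.lf 10))))), 0, [7, 7, 32, 32, 32, 32, 5, 5], [7, 7, 32, 32, 32, 32, 5, 5]⟩)
    (.lf ⟨[.ofNat 10143360, .negSucc 71984159, .ofNat 82042080, .negSucc 26404319, .ofNat 4206240], (.tw (.dx 0 (.tr (.lf 9) (.lf 10) (.tr (.lf 5) (.lf 17) (.tr (.lf 13) (.lf 6) (.lf 14))))) (.lf 18)), 0, [20, 20, 20, 20, 3, 3, 10, 10], []⟩))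
    (.nd (.lf ⟨[.negSucc 2169359, .ofNat 6288540, .negSucc 6371399, .ofNat 2449740, .negSucc 396239], (.tw (.lf 6) (.tr (.lf 13) (.tr (.tw (.lf 9) (.lf 10)) (.dx 0 (.tw (.lf 5) (.lf 17))) (.lf 18)) (.lf 14))), 0, [5, 5, 5, 5, 37, 37, 37, 37, 5, 5, 5, 5, 37, 37, 37, 37], [5, 5, 37, 37, 5, 5, 37, 37]⟩)
    (.lf ⟨[.negSucc 39826079, .ofNat 137929560, .negSucc 146717279, .ofNat 56824920, .negSucc 9296399], (.tw (.dx 0 (.tr (.lf 5) (.tr (.lf 9) (.tr (.lf 13) (.lf 6) (.lf 14)) (.lf 17)) (.lf 10))) (.lf 18)), 0, [0, 0, 3, 3, 20, 20, 3, 3], []⟩)))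
    (.nd (.nd (.lf ⟨[.ofNat 29682720, .negSucc 65945399, .ofNat 64675200, .negSucc 30420599, .ofNat 5090160], (.tw (.dx 0 (.tr (.lf 5) (.lf 17) (.tr (.lf 9) (.lf 10) (.tr (.lf 13) (.lf 6) (.lf 14))))) (.lf 18)), 0, [0, 0, 3, 3, 20, 20, 3, 3], []⟩)
    (.lf ⟨[.negSucc 24410879, .ofNat 80452800, .negSucc 82936319, .ofNat 31563840, .negSucc 5120639], (.tr (.lf 5) (.lf 17) (.tr (.lf 9) (.lf 6) (.tr (.dx 0 .on) (.tr (.lf 13) (.lf 10) (.lf 14)) (.lf 18)))), 0, [16, 16, 11, 11, 16, 16, 16, 16], [16, 16, 16, 16, 35, 35, 16, 16]⟩))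
    (.nd (.lf ⟨[.ofNat 264826080, .negSucc 813113799, .ofNat 830415280, .negSucc 304866279, .ofNat 49621440], (.tr (.lf 10) (.lf 6) (.tr (.dx 0 (.tr (.lf 9) (.lf 5) (.lf 13))) (.lf 14) (.tw (.lf 17) (.lf 18)))), 0, [39, 39, 39, 39, 11, 34, 11, 34], [39, 39, 11, 11]⟩)
    (.lf ⟨[.negSucc 185254559, .ofNat 584473560, .negSucc 600698639, .ofNat 221284920, .negSucc 35966399], (.tr (.dx 0 (.tr (.lf 9) (.lf 5) (.lf 13))) (.tr (.lf 6) (.tw (.lf 17) (.lf 18)) (.lf 14)) (.lf 10)), 0, [7, 7, 35, 35, 7, 7, 10, 10], [7, 7, 10, 10]⟩))))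

/-- data -/
def dV10 : RT := (.nd (.nd (.nd (.nd dV10x0 (.nd dV10x1 dV10x2)) (.nd dV10x3 (.nd dV10x4 dV10x5))) (.nd (.nd dV10x6 (.nd dV10x7 dV10x8)) (.nd dV10x9 (.nd dV10x10 dV10x11)))) (.nd (.nd (.nd dV10x12 (.nd dV10x13 dV10x14)) (.nd dV10x15 (.nd dV10x16 dV10x17))) (.nd (.nd dV10x18 (.nd dV10x19 dV10x20)) (.nd (.nd dV10x21 dV10x22) (.nd dV10x23 dV10x24)))))

/-- data -/
def lV10x0 : List (ℕ × List ℤ) := [(5349, [.ofNat 0, .ofNat 0, .ofNat 31328640, .negSucc 89632799, .ofNat 92296320, .negSucc 35941919, .ofNat 5974080]),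
  (5356, [.ofNat 0, .ofNat 0, .negSucc 5656319, .negSucc 17590079, .ofNat 32033280, .negSucc 14441279, .ofNat 2682240]),
  (5405, [.ofNat 0, .ofNat 0, .negSucc 70623359, .ofNat 177558240, .negSucc 167095679, .ofNat 61874400, .negSucc 9631679]),
  (5468, [.ofNat 0, .ofNat 0, .negSucc 33638399, .ofNat 112888320, .negSucc 117822719, .ofNat 44904960, .negSucc 7315199]),
  (38173, [.ofNat 0, .ofNat 0, .negSucc 10632959, .ofNat 8352960, .negSucc 794879, .negSucc 448319, .ofNat 243840]),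
  (38236, [.ofNat 0, .ofNat 0, .ofNat 5840640, .ofNat 189120, .negSucc 10649279, .ofNat 148255680, .negSucc 172962239, .ofNat 69717120, .negSucc 11460479]),
  (38243, [.ofNat 0, .negSucc 1059304319, .ofNat 3176411680, .negSucc 3231796479, .ofNat 1178185120, .negSucc 190966079, .negSucc 243839]),
  (41757, [.ofNat 0, .ofNat 0, .ofNat 7678080, .ofNat 15639840, .negSucc 30714239, .ofNat 13973280, .negSucc 2560319]),
  (42213, [.ofNat 0, .ofNat 0, .ofNat 67144320, .negSucc 75231839, .ofNat 33379200, .negSucc 6280799, .ofNat 365760]),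
  (42220, [.ofNat 0, .ofNat 0, .ofNat 43770240, .negSucc 117524639, .ofNat 117705600, .negSucc 43988639, .ofNat 6949440]),
  (42269, [.ofNat 0, .ofNat 0, .ofNat 31530240, .negSucc 38297279, .ofNat 19353600, .negSucc 4105919, .ofNat 243840]),
  (42283, [.ofNat 0, .ofNat 0, .ofNat 213120, .negSucc 72991199, .ofNat 95464320, .negSucc 39882719, .ofNat 6705600]),
  (42332, [.ofNat 0, .ofNat 0, .negSucc 35925119, .ofNat 14542560, .ofNat 14148480, .negSucc 11047199, .ofNat 2560320]),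
  (42339, [.ofNat 0, .ofNat 0, .ofNat 5840640, .negSucc 11100479, .ofNat 2773440, .ofNat 144219840, .negSucc 172230719, .ofNat 69717120, .negSucc 11460479]),
  (42668, [.ofNat 0, .ofNat 0, .ofNat 45509760, .negSucc 35699039, .negSucc 1898879, .ofNat 7224480, .negSucc 2072639]),
  (42732, [.ofNat 0, .ofNat 741018240, .negSucc 2362472159, .ofNat 2418540000, .negSucc 883682399, .ofNat 140833440, .ofNat 853440]),
  (42794, [.ofNat 0, .ofNat 0, .negSucc 56695679, .ofNat 36619680, .ofNat 10581120, .negSucc 11495519, .ofNat 2804160]),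
  (42850, [.ofNat 0, .ofNat 0, .negSucc 17487359, .ofNat 13962240, .negSucc 779519, .negSucc 1628159, .ofNat 487680]),
  (43115, [.ofNat 0, .ofNat 0, .ofNat 27982080, .negSucc 6943679, .negSucc 22364159, .ofNat 12978240, .negSucc 2682239]),
  (43221, [.ofNat 0, .ofNat 0, .ofNat 27982080, .negSucc 6943679, .negSucc 22364159, .ofNat 12978240, .negSucc 2682239]),
  (43244, [.ofNat 0, .ofNat 0, .ofNat 13518720, .ofNat 4539360, .negSucc 27940799, .ofNat 158193120, .negSucc 174791039, .ofNat 69717120, .negSucc 11460479]),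
  (43293, [.ofNat 0, .negSucc 318286079, .ofNat 914560960, .negSucc 930156159, .ofNat 347748160, .negSucc 58655999, .ofNat 731520]),
  (43339, [.ofNat 0, .ofNat 0, .ofNat 31530240, .negSucc 38297279, .ofNat 19353600, .negSucc 4105919, .ofNat 243840]),
  (43347, [.ofNat 0, .ofNat 0, .ofNat 5840640, .negSucc 11100479, .ofNat 2773440, .ofNat 144219840, .negSucc 172230719, .ofNat 69717120, .negSucc 11460479]),
  (43683, [.ofNat 0, .ofNat 0, .ofNat 45509760, .negSucc 35699039, .negSucc 1898879, .ofNat 7224480, .negSucc 2072639]),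
  (304357, [.ofNat 0, .ofNat 0, .negSucc 22487039, .ofNat 40389120, .negSucc 32273279, .ofNat 11063040, .negSucc 1706879]),
  (304364, [.ofNat 0, .ofNat 0, .negSucc 77984639, .ofNat 192041760, .negSucc 181524479, .ofNat 66684960, .negSucc 10607039]),
  (304413, [.ofNat 0, .ofNat 0, .negSucc 4786559, .ofNat 23012640, .negSucc 28055039, .ofNat 10555680, .negSucc 1828799]),
  (304476, [.ofNat 0, .ofNat 0, .ofNat 17971200, .negSucc 37063679, .ofNat 31728000, .negSucc 11063039, .ofNat 1706880]),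
  (304483, [.ofNat 0, .ofNat 0, .ofNat 18852480, .negSucc 55000799, .ofNat 17865600, .ofNat 36533280, .negSucc 21115199, .ofNat 4389120]),
  (304869, [.ofNat 0, .ofNat 0, .negSucc 7240319, .ofNat 23620320, .negSucc 24802559, .ofNat 9619680, .negSucc 1584959]),
  (304933, [.ofNat 0, .ofNat 0, .negSucc 7240319, .ofNat 23620320, .negSucc 24802559, .ofNat 9619680, .negSucc 1584959]),
  (304995, [.ofNat 0, .ofNat 0, .negSucc 98668799, .ofNat 313838400, .negSucc 339647999, .ofNat 150937920, .negSucc 31140479, .ofNat 1950720]),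
  (305004, [.ofNat 0, .negSucc 5840639, .ofNat 1896000, .negSucc 52026239, .negSucc 27092159, .ofNat 80434560, .negSucc 39214079, .ofNat 7071360]),
  (305365, [.ofNat 0, .ofNat 0, .negSucc 40783679, .ofNat 112822320, .negSucc 110354879, .ofNat 40887600, .negSucc 6522719]),
  (305373, [.ofNat 0, .negSucc 53009279, .ofNat 153265440, .negSucc 222460799, .ofNat 23817120, .ofNat 115586880, .negSucc 61426559, .ofNat 11460480]),
  (305388, [.ofNat 0, .ofNat 0, .negSucc 37733759, .ofNat 119327520, .negSucc 127107839, .ofNat 67030560, .negSucc 17119679, .ofNat 1950720]),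
  (305437, [.ofNat 0, .negSucc 53009279, .ofNat 161698080, .negSucc 244817279, .negSucc 9088799, .ofNat 183420480, .negSucc 92220479, .ofNat 17068800]),
  (305491, [.ofNat 0, .negSucc 5840639, .ofNat 9205440, .negSucc 31407839, .negSucc 98347199, .ofNat 153169440, .negSucc 66425279, .ofNat 11460480]),
  (305500, [.ofNat 0, .negSucc 53009279, .ofNat 82676640, .negSucc 41336159, .negSucc 189271199, .ofNat 238956000, .negSucc 96562559, .ofNat 15849600]),
  (305884, [.ofNat 0, .negSucc 5840639, .ofNat 4787520, .ofNat 5469120, .negSucc 144684479, .ofNat 172474560, .negSucc 69717119, .ofNat 11460480]),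
  (305939, [.ofNat 0, .negSucc 53009279, .ofNat 118503840, .negSucc 131472479, .negSucc 61947359, .ofNat 147439200, .negSucc 66425279, .ofNat 11460480]),
  (305949, [.ofNat 0, .ofNat 0, .negSucc 37733759, .ofNat 119327520, .negSucc 127107839, .ofNat 67030560, .negSucc 17119679, .ofNat 1950720]),
  (306012, [.ofNat 0, .ofNat 0, .ofNat 0, .negSucc 19307519, .ofNat 67756800, .negSucc 73207679, .ofNat 28147200, .negSucc 4632959]),
  (306019, [.ofNat 0, .ofNat 0, .ofNat 12072960, .negSucc 43090559, .ofNat 46252800, .negSucc 17815679, .ofNat 2926080]),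
  (333477, [.ofNat 0, .ofNat 0, .negSucc 14244479, .ofNat 17958240, .negSucc 7916159, .ofNat 1238880, .ofNat 121920]),
  (333548, [.ofNat 0, .ofNat 0, .negSucc 6024959, .ofNat 1884000, .ofNat 1616640, .negSucc 1923359, .ofNat 365760]),
  (333605, [.ofNat 0, .ofNat 0, .ofNat 0, .ofNat 27774720, .negSucc 2583359, .negSucc 23721599, .ofNat 12895680, .negSucc 2438399]),
  (334109, [.ofNat 0, .ofNat 0, .negSucc 19604159, .negSucc 17421359, .ofNat 44568000, .negSucc 21530159, .ofNat 4084320]),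
  (334123, [.ofNat 0, .ofNat 0, .ofNat 8602560, .negSucc 67612559, .ofNat 82689600, .negSucc 34158479, .ofNat 5913120]),
  (334187, [.ofNat 0, .ofNat 0, .ofNat 0, .ofNat 27774720, .negSucc 2583359, .negSucc 23721599, .ofNat 12895680, .negSucc 2438399]),
  (334691, [.ofNat 0, .ofNat 0, .negSucc 1042559, .negSucc 11523359, .ofNat 17882880, .negSucc 7464479, .ofNat 1341120]),
  (336613, [.ofNat 0, .ofNat 0, .negSucc 34433279, .ofNat 79638720, .negSucc 78821759, .ofNat 29127360, .negSucc 4876799]),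
  (336620, [.ofNat 0, .ofNat 0, .negSucc 25459199, .ofNat 81582720, .negSucc 84403199, .ofNat 32622720, .negSucc 5364479]),
  (336669, [.ofNat 0, .ofNat 0, .negSucc 27633599, .ofNat 108583440, .negSucc 118660799, .ofNat 45953040, .negSucc 7619999]),
  (337509, [.ofNat 0, .ofNat 0, .ofNat 783360, .negSucc 645119]),
  (337516, [.ofNat 0, .ofNat 0, .ofNat 101911680, .negSucc 178009439, .ofNat 171378240, .negSucc 84180959, .ofNat 22039680, .negSucc 2438399]),
  (337637, [.ofNat 0, .ofNat 0, .negSucc 53956799, .ofNat 158769840, .negSucc 155273279, .ofNat 58271280, .negSucc 9204959]),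
  (337644, [.ofNat 0, .ofNat 0, .ofNat 783360, .negSucc 645119]),
  (337677, [.ofNat 0, .ofNat 0, .ofNat 4976640, .negSucc 5180159, .ofNat 3571200, .negSucc 487679]),
  (337763, [.ofNat 0, .ofNat 0, .negSucc 34758719, .ofNat 116928720, .negSucc 133842239, .ofNat 67010640, .negSucc 15918239, .ofNat 1463040]),
  (337772, [.ofNat 0, .ofNat 0, .ofNat 0, .negSucc 19307519, .ofNat 67756800, .negSucc 73207679, .ofNat 28147200, .negSucc 4632959]),
  (338125, [.ofNat 0, .ofNat 0, .negSucc 29859839, .ofNat 20565120, .ofNat 2434560, .negSucc 3584639, .ofNat 975360]),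
  (338141, [.ofNat 0, .ofNat 0, .ofNat 12072960, .negSucc 43090559, .ofNat 46252800, .negSucc 17815679, .ofNat 2926080]),
  (338149, [.ofNat 0, .ofNat 0, .ofNat 24197760, .negSucc 64502399, .ofNat 62148480, .negSucc 23063039, .ofNat 3657600]),
  (338156, [.ofNat 0, .negSucc 5840639, .ofNat 61981440, .negSucc 126110159, .negSucc 38687999, .ofNat 149905200, .negSucc 71370719, .ofNat 12923520]),
  (338205, [.ofNat 0, .ofNat 0, .ofNat 65312640, .negSucc 210333599, .ofNat 212204160, .negSucc 79454879, .ofNat 12801600]),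
  (338219, [.ofNat 0, .ofNat 106018560, .negSucc 290759999, .ofNat 410260800, .ofNat 68287680, .negSucc 366983999, .ofNat 176952960, .negSucc 32186879]),
  (338251, [.ofNat 0, .ofNat 17354880, .negSucc 10551359, .negSucc 161836439, .ofNat 256061760, .negSucc 147041879, .ofNat 39494640, .negSucc 4389119]),
  (338268, [.ofNat 0, .ofNat 0, .ofNat 37782720, .negSucc 109121999, .ofNat 98537280, .negSucc 34798799, .ofNat 5181600]),
  (338524, [.ofNat 0, .ofNat 53009280, .negSucc 132293279, .ofNat 266850720, .negSucc 27370079, .negSucc 180233759, .ofNat 96495360, .negSucc 18531839]),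
  (338531, [.ofNat 0, .ofNat 0, .ofNat 0, .negSucc 19307519, .ofNat 67756800, .negSucc 73207679, .ofNat 28147200, .negSucc 4632959]),
  (338699, [.ofNat 0, .ofNat 0, .ofNat 75110400, .negSucc 263195519, .ofNat 277701120, .negSucc 106826879, .ofNat 17556480]),
  (338717, [.ofNat 0, .ofNat 0, .negSucc 9941759, .ofNat 103899840, .negSucc 131915519, .ofNat 54874560, .negSucc 9509759]),
  (338780, [.ofNat 0, .ofNat 0, .ofNat 58544640, .negSucc 106786559, .ofNat 87960960, .negSucc 30097919, .ofNat 4632960]),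
  (338787, [.ofNat 0, .ofNat 0, .negSucc 16021439, .ofNat 83817360, .negSucc 97091519, .ofNat 39039120, .negSucc 6644639]),
  (340645, [.ofNat 0, .ofNat 0, .negSucc 46560959, .ofNat 111920880, .negSucc 104984639, .ofNat 37399920, .negSucc 6035039]),
  (340652, [.ofNat 0, .ofNat 0, .ofNat 73491840, .negSucc 213019679, .ofNat 173899200, .negSucc 17102879, .negSucc 13272959, .ofNat 4632960]),
  (340765, [.ofNat 0, .ofNat 0, .negSucc 53660159, .ofNat 135198720, .negSucc 127224959, .ofNat 48476160, .negSucc 7559039]),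
  (340778, [.ofNat 0, .ofNat 0, .ofNat 68088960, .negSucc 248790239, .ofNat 258093120, .negSucc 84420959, .ofNat 9014400, .ofNat 1463040]),
  (340828, [.ofNat 0, .ofNat 0, .negSucc 99489599, .ofNat 228767280, .negSucc 208182719, .ofNat 76457520, .negSucc 11887199]),
  (340834, [.ofNat 0, .ofNat 0, .negSucc 127215359, .ofNat 358246080, .negSucc 359619839, .ofNat 155367360, .negSucc 31140479, .ofNat 1950720]),
  (341612, [.ofNat 0, .ofNat 0, .ofNat 13040640, .negSucc 29495039, .ofNat 25731840, .negSucc 9273599, .ofNat 1463040]),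
  (341669, [.ofNat 0, .ofNat 0, .negSucc 19535039, .ofNat 83691600, .negSucc 78709439, .ofNat 23683920, .negSucc 218399, .negSucc 975359]),
  (341781, [.ofNat 0, .ofNat 0, .ofNat 68872320, .negSucc 77697119, .ofNat 37340160, .negSucc 7582559, .ofNat 609600]),
  (341802, [.ofNat 0, .ofNat 0, .ofNat 12813120, .negSucc 33770639, .ofNat 29436480, .negSucc 10621199, .ofNat 1524000]),
  (341858, [.ofNat 0, .ofNat 0, .ofNat 6935040, .ofNat 22139520, .negSucc 22957439, .ofNat 2747520, .ofNat 3012480, .negSucc 975359]),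
  (342157, [.ofNat 0, .ofNat 0, .ofNat 7695360, .negSucc 81347039, .ofNat 105807360, .negSucc 43382879, .ofNat 7437120]),
  (342173, [.ofNat 0, .ofNat 0, .negSucc 31256639, .ofNat 84564720, .negSucc 83807039, .ofNat 31492080, .negSucc 5059679]),
  (342181, [.ofNat 0, .ofNat 0, .ofNat 29018880, .negSucc 84144959, .ofNat 84288000, .negSucc 32124479, .ofNat 5120640]),
  (342188, [.ofNat 0, .ofNat 0, .ofNat 39375360, .negSucc 105434879, .ofNat 103113600, .negSucc 37908479, .ofNat 6096000]),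
  (342285, [.ofNat 0, .ofNat 0, .ofNat 64082880, .negSucc 243881999, .ofNat 264671040, .negSucc 103061519, .ofNat 17129760]),
  (342315, [.ofNat 0, .ofNat 0, .ofNat 77984640, .negSucc 192041759, .ofNat 181524480, .negSucc 66684959, .ofNat 10607040]),
  (342348, [.ofNat 0, .ofNat 0, .ofNat 39375360, .negSucc 105434879, .ofNat 103113600, .negSucc 37908479, .ofNat 6096000]),
  (342620, [.ofNat 0, .ofNat 0, .negSucc 14244479, .ofNat 17958240, .negSucc 7916159, .ofNat 1238880, .ofNat 121920]),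
  (342693, [.ofNat 0, .ofNat 0, .ofNat 32227200, .negSucc 124210079, .ofNat 124169280, .negSucc 33104159, .ofNat 480000, .ofNat 1463040]),
  (342797, [.ofNat 0, .ofNat 0, .negSucc 68705279, .ofNat 205080960, .negSucc 208644479, .ofNat 97864320, .negSucc 21874559, .ofNat 1950720]),
  (342860, [.ofNat 0, .ofNat 17354880, .negSucc 42127679, .ofNat 7452840, .ofNat 27981120, .negSucc 14919959, .ofNat 2651760]),
  (342882, [.ofNat 0, .ofNat 0, .ofNat 19820160, .negSucc 37473119, .negSucc 10493759, .ofNat 52678560, .negSucc 24733439, .ofNat 4632960]),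
  (344789, [.ofNat 0, .ofNat 0, .ofNat 29018880, .negSucc 84144959, .ofNat 84288000, .negSucc 32124479, .ofNat 5120640])]

/-- data -/
def lV10x1 : List (ℕ × List ℤ) := [(344922, [.ofNat 0, .ofNat 0, .negSucc 68705279, .ofNat 205080960, .negSucc 208644479, .ofNat 97864320, .negSucc 21874559, .ofNat 1950720]),
  (345765, [.ofNat 0, .ofNat 0, .ofNat 2465280, .negSucc 16544639, .ofNat 22112640, .negSucc 9356159, .ofNat 1706880]),
  (345805, [.ofNat 0, .ofNat 0, .ofNat 6975360, .ofNat 6374880, .negSucc 53940479, .ofNat 65388000, .negSucc 25991999, .ofNat 4389120]),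
  (345813, [.ofNat 0, .ofNat 0, .ofNat 90973440, .negSucc 102317759, .ofNat 47660160, .negSucc 8821439, .ofNat 487680]),
  (345836, [.ofNat 0, .ofNat 0, .negSucc 10823039, .ofNat 106279200, .negSucc 132773759, .ofNat 54811680, .negSucc 9387839]),
  (345931, [.ofNat 0, .ofNat 0, .negSucc 121253759, .ofNat 275091360, .negSucc 251898239, .ofNat 111922080, .negSucc 23703359, .ofNat 1950720]),
  (345954, [.ofNat 0, .ofNat 0, .ofNat 37854720, .negSucc 164482559, .ofNat 183768960, .negSucc 71996159, .ofNat 11948160]),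
  (346219, [.ofNat 0, .ofNat 0, .ofNat 0, .ofNat 5990400, .negSucc 21870719, .ofNat 24199680, .negSucc 9029759, .ofNat 1463040]),
  (346317, [.ofNat 0, .ofNat 0, .ofNat 12407040, .negSucc 32103359, .ofNat 10683840, .ofNat 13924800, .negSucc 7688639, .ofNat 1463040]),
  (346443, [.ofNat 0, .ofNat 0, .negSucc 19820159, .ofNat 92106720, .negSucc 113485439, .ofNat 47028960, .negSucc 8168639]),
  (346451, [.ofNat 0, .ofNat 0, .ofNat 4343040, .ofNat 66275520, .negSucc 52627199, .negSucc 21750719, .ofNat 19125120, .negSucc 4632959]),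
  (346763, [.ofNat 0, .ofNat 0, .ofNat 39214080, .negSucc 165949439, .ofNat 183984000, .negSucc 71996159, .ofNat 11948160]),
  (346781, [.ofNat 0, .ofNat 0, .ofNat 36694080, .negSucc 89289839, .ofNat 48048000, .ofNat 30802320, .negSucc 21014879, .ofNat 4632960]),
  (346972, [.ofNat 0, .ofNat 0, .ofNat 12418560, .negSucc 18606719, .negSucc 326399, .ofNat 16471680, .negSucc 7810559, .ofNat 1463040]),
  (348835, [.ofNat 0, .ofNat 0, .ofNat 7695360, .negSucc 81347039, .ofNat 105807360, .negSucc 43382879, .ofNat 7437120]),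
  (348908, [.ofNat 0, .ofNat 0, .negSucc 32192639, .ofNat 83714400, .negSucc 75734399, .ofNat 28080480, .negSucc 4267199]),
  (350483, [.ofNat 0, .ofNat 53009280, .negSucc 101701919, .ofNat 151860480, .ofNat 60522720, .negSucc 189226559, .ofNat 88842240, .negSucc 16093439]),
  (2434796, [.ofNat 0, .ofNat 14549760, .negSucc 9130559, .negSucc 38791679, .ofNat 60527040, .negSucc 25138559, .ofNat 4389120]),
  (2434915, [.ofNat 0, .ofNat 0, .ofNat 3191040, .negSucc 78901439, .ofNat 102641280, .negSucc 42832319, .ofNat 7315200]),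
  (2434916, [.ofNat 0, .negSucc 29099519, .ofNat 34158720, .ofNat 149208960, .negSucc 231548159, .ofNat 99008640, .negSucc 17312639]),
  (2434924, [.ofNat 0, .negSucc 14158079, .ofNat 86704320, .negSucc 80308319, .ofNat 23032320, .ofNat 147360, .negSucc 975359]),
  (2435293, [.ofNat 0, .ofNat 0, .negSucc 71959679, .negSucc 6407519, .ofNat 76434240, .negSucc 40293599, .ofNat 7559040]),
  (2435308, [.ofNat 0, .negSucc 12407039, .ofNat 51410880, .negSucc 78440639, .ofNat 59282880, .negSucc 20458559, .ofNat 3169920]),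
  (2435357, [.ofNat 0, .ofNat 14549760, .ofNat 4013760, .negSucc 89962559, .ofNat 117082560, .negSucc 47225279, .ofNat 8046720]),
  (2435420, [.ofNat 0, .negSucc 12407039, .ofNat 51410880, .negSucc 78440639, .ofNat 59282880, .negSucc 20458559, .ofNat 3169920]),
  (2435435, [.ofNat 0, .ofNat 0, .negSucc 17389439, .negSucc 27182879, .ofNat 51602880, .negSucc 23410079, .ofNat 4145280]),
  (2435812, [.ofNat 0, .ofNat 0, .ofNat 46471680, .negSucc 95285759, .ofNat 83959680, .negSucc 29610239, .ofNat 4632960]),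
  (2435813, [.ofNat 0, .ofNat 29099520, .negSucc 34147199, .negSucc 210907199, .ofNat 314753280, .negSucc 134356799, .ofNat 23408640]),
  (2435869, [.ofNat 0, .negSucc 12407039, .ofNat 17622720, .ofNat 2010240, .negSucc 15645119, .ofNat 6996480, .negSucc 1219199]),
  (2435939, [.ofNat 0, .negSucc 7309439, .negSucc 20618399, .ofNat 71255040, .negSucc 72734879, .ofNat 27211200, .negSucc 4389119]),
  (2439467, [.ofNat 0, .ofNat 0, .ofNat 1658880, .negSucc 1221119, .negSucc 138239]),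
  (2439971, [.ofNat 0, .ofNat 71608320, .negSucc 173239679, .ofNat 198914880, .negSucc 115271039, .ofNat 32980800, .negSucc 4145279]),
  (2442923, [.ofNat 0, .ofNat 18564480, .negSucc 58453919, .ofNat 58775040, .negSucc 23970719, .ofNat 3779520]),
  (2442988, [.ofNat 0, .ofNat 50140800, .negSucc 143487839, .ofNat 200473440, .negSucc 142962719, .ofNat 47565600, .negSucc 7071359]),
  (2443116, [.ofNat 0, .ofNat 0, .negSucc 1520639, .ofNat 2424960, .negSucc 1455359, .ofNat 243840]),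
  (2443485, [.ofNat 0, .negSucc 75807359, .ofNat 272945760, .negSucc 87557759, .negSucc 148839839, .ofNat 90765120, .negSucc 18531839]),
  (2443501, [.ofNat 0, .negSucc 29099519, .ofNat 65395200, .ofNat 258431520, .negSucc 404441279, .ofNat 175543200, .negSucc 30723839]),
  (2443996, [.ofNat 0, .ofNat 50140800, .negSucc 143487839, .ofNat 200473440, .negSucc 142962719, .ofNat 47565600, .negSucc 7071359]),
  (2444115, [.ofNat 0, .negSucc 21467519, .ofNat 66085920, .negSucc 9053279, .negSucc 49702559, .ofNat 27358560, .negSucc 5364479]),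
  (2447141, [.ofNat 0, .negSucc 29099519, .ofNat 27995520, .ofNat 216020160, .negSucc 313476479, .ofNat 133298880, .negSucc 23164799]),
  (2447581, [.ofNat 0, .ofNat 0, .negSucc 13593599, .ofNat 13925760, .negSucc 5456639, .ofNat 731520]),
  (2447645, [.ofNat 0, .ofNat 50140800, .negSucc 168699359, .ofNat 170451840, .negSucc 82011359, .ofNat 19070400, .negSucc 1950719]),
  (2448100, [.ofNat 0, .ofNat 0, .ofNat 12072960, .negSucc 11500799, .ofNat 4001280, .negSucc 487679]),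
  (2448147, [.ofNat 0, .negSucc 21467519, .ofNat 66085920, .negSucc 9053279, .negSucc 49702559, .ofNat 27358560, .negSucc 5364479]),
  (2668325, [.ofNat 0, .ofNat 0, .ofNat 12072960, .negSucc 11500799, .ofNat 4001280, .negSucc 487679]),
  (2677404, [.ofNat 0, .ofNat 0, .ofNat 37728000, .negSucc 47916479, .ofNat 27427200, .negSucc 7523519, .ofNat 975360]),
  (2693419, [.ofNat 0, .ofNat 0, .negSucc 49616639, .ofNat 53918400, .negSucc 23500799, .ofNat 4105920, .negSucc 243839]),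
  (2693852, [.ofNat 0, .ofNat 0, .negSucc 5437439, .negSucc 62167679, .ofNat 87828480, .negSucc 37015679, .ofNat 6339840]),
  (2700140, [.ofNat 0, .ofNat 0, .ofNat 8824320, .negSucc 2171519, .negSucc 5220479, .ofNat 3661440, .negSucc 731519]),
  (2701132, [.ofNat 0, .ofNat 0, .negSucc 5437439, .negSucc 62167679, .ofNat 87828480, .negSucc 37015679, .ofNat 6339840]),
  (2701164, [.ofNat 0, .ofNat 0, .negSucc 3087359, .ofNat 3079680, .negSucc 376319]),
  (2702093, [.ofNat 0, .ofNat 71608320, .negSucc 198111359, .ofNat 201360000, .negSucc 94289279, .ofNat 21386880, .negSucc 1950719]),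
  (2702179, [.ofNat 0, .ofNat 0, .negSucc 49616639, .ofNat 53918400, .negSucc 23500799, .ofNat 4105920, .negSucc 243839]),
  (2704101, [.ofNat 0, .ofNat 1359360, .ofNat 23203200, .negSucc 11574719, .negSucc 9158399, .ofNat 6957120, .negSucc 1463039]),
  (2705125, [.ofNat 0, .ofNat 0, .ofNat 11462400, .negSucc 8166719, .negSucc 1029119, .ofNat 1179840, .negSucc 243839]),
  (2705227, [.ofNat 0, .ofNat 0, .negSucc 1520639, .ofNat 2424960, .negSucc 1455359, .ofNat 243840]),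
  (2705228, [.ofNat 0, .ofNat 0, .negSucc 6082559, .negSucc 10369919, .ofNat 20198400, .negSucc 8542079, .ofNat 1463040]),
  (2705251, [.ofNat 0, .negSucc 19820159, .ofNat 37473120, .ofNat 10493760, .negSucc 52678559, .ofNat 24733440, .negSucc 4632959]),
  (2705613, [.ofNat 0, .ofNat 0, .ofNat 11001600, .negSucc 35010239, .ofNat 35950080, .negSucc 13544639, .ofNat 2194560]),
  (2705629, [.ofNat 0, .ofNat 1359360, .ofNat 9114240, .ofNat 26515200, .negSucc 45484799, .ofNat 20501760, .negSucc 3657599]),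
  (2706125, [.ofNat 0, .ofNat 71608320, .negSucc 178677119, .ofNat 136747200, .negSucc 27442559, .negSucc 4034879, .ofNat 2194560]),
  (2706251, [.ofNat 0, .negSucc 14158079, .ofNat 74176320, .negSucc 125164799, .ofNat 93015360, .negSucc 30503039, .ofNat 4389120]),
  (2708204, [.ofNat 0, .ofNat 13052160, .negSucc 68210879, .ofNat 38023680, .ofNat 19992000, .negSucc 16356479, .ofNat 3657600]),
  (2708267, [.ofNat 0, .negSucc 19820159, .ofNat 48474720, .negSucc 24516479, .negSucc 16728479, .ofNat 11188800, .negSucc 2438399]),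
  (2708323, [.ofNat 0, .ofNat 0, .ofNat 11289600, .negSucc 13422719, .ofNat 4035840, .negSucc 731519]),
  (2709259, [.ofNat 0, .ofNat 0, .negSucc 13593599, .ofNat 13925760, .negSucc 5456639, .ofNat 731520]),
  (2709708, [.ofNat 0, .negSucc 29099519, .ofNat 7098240, .ofNat 229692480, .negSucc 312257279, .ofNat 130125120, .negSucc 22433279]),
  (2709771, [.ofNat 0, .negSucc 13052159, .ofNat 25103040, .negSucc 25415039, .ofNat 3810240, .ofNat 652800, .negSucc 487679]),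
  (2710283, [.ofNat 0, .negSucc 18460799, .ofNat 86331360, .negSucc 37496639, .negSucc 38411039, .ofNat 24654720, .negSucc 5120639]),
  (2726748, [.ofNat 0, .ofNat 18564480, .negSucc 58453919, .ofNat 58775040, .negSucc 23970719, .ofNat 3779520]),
  (2726754, [.ofNat 0, .ofNat 68705280, .negSucc 221162879, .ofNat 207356160, .negSucc 81782399, .ofNat 13820160, .negSucc 487679]),
  (2730269, [.ofNat 0, .ofNat 0, .ofNat 11289600, .negSucc 13422719, .ofNat 4035840, .negSucc 731519]),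
  (2732716, [.ofNat 0, .ofNat 0, .ofNat 13144320, .negSucc 51170879, .ofNat 56555520, .negSucc 22086719, .ofNat 3657600]),
  (2732842, [.ofNat 0, .ofNat 16692480, .ofNat 18911040, .negSucc 228870719, .ofNat 290692800, .negSucc 119467199, .ofNat 20482560]),
  (2732898, [.ofNat 0, .negSucc 12407039, .ofNat 17622720, .ofNat 2010240, .negSucc 15645119, .ofNat 6996480, .negSucc 1219199]),
  (2734412, [.ofNat 0, .ofNat 0, .ofNat 1658880, .negSucc 1221119, .negSucc 138239]),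
  (2734757, [.ofNat 0, .negSucc 12407039, .ofNat 32103360, .negSucc 10683839, .negSucc 13924799, .ofNat 7688640, .negSucc 1463039]),
  (2734946, [.ofNat 0, .ofNat 14549760, .negSucc 34330559, .negSucc 109865759, .ofNat 178821120, .negSucc 77836319, .ofNat 13655040]),
  (2738333, [.ofNat 0, .ofNat 14411520, .negSucc 59096639, .ofNat 64538880, .negSucc 25492799, .ofNat 4145280]),
  (2738845, [.ofNat 0, .ofNat 0, .negSucc 2442239, .ofNat 2165760, .negSucc 322559]),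
  (2738901, [.ofNat 0, .ofNat 0, .negSucc 2442239, .ofNat 2165760, .negSucc 322559]),
  (2742541, [.ofNat 0, .ofNat 0, .negSucc 4838399, .ofNat 18424320, .negSucc 19297919, .ofNat 7484160, .negSucc 1219199]),
  (2742557, [.ofNat 0, .ofNat 0, .ofNat 4953600, .ofNat 33143040, .negSucc 48332159, .ofNat 20989440, .negSucc 3657599]),
  (2743050, [.ofNat 0, .negSucc 29099519, .ofNat 26532480, .ofNat 165079680, .negSucc 245410559, .ofNat 104703360, .negSucc 18287999]),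
  (2763363, [.ofNat 0, .ofNat 0, .ofNat 11289600, .negSucc 13422719, .ofNat 4035840, .negSucc 731519]),
  (2766437, [.ofNat 0, .ofNat 0, .ofNat 37728000, .negSucc 47916479, .ofNat 27427200, .negSucc 7523519, .ofNat 975360]),
  (2767187, [.ofNat 0, .ofNat 0, .ofNat 11289600, .negSucc 13422719, .ofNat 4035840, .negSucc 731519]),
  (2767461, [.ofNat 0, .ofNat 0, .ofNat 4285440, .negSucc 4913279, .ofNat 1455360, .negSucc 243839]),
  (2767517, [.ofNat 0, .ofNat 0, .negSucc 4285439, .ofNat 4913280, .negSucc 1455359, .ofNat 243840]),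
  (2767573, [.ofNat 0, .ofNat 0, .negSucc 4285439, .ofNat 4913280, .negSucc 1455359, .ofNat 243840]),
  (2767629, [.ofNat 0, .ofNat 0, .ofNat 4285440, .negSucc 4913279, .ofNat 1455360, .negSucc 243839]),
  (2767691, [.ofNat 0, .ofNat 6157440, .negSucc 1052639, .negSucc 41536319, .ofNat 59511840, .negSucc 25708799, .ofNat 4632960]),
  (2767714, [.ofNat 0, .negSucc 21467519, .ofNat 53557920, .negSucc 53909759, .ofNat 20280480, .negSucc 3291839]),
  (2770637, [.ofNat 0, .negSucc 19716479, .ofNat 11484960, .ofNat 60571200, .negSucc 86659679, .ofNat 34899840, .negSucc 5852159]),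
  (2770763, [.ofNat 0, .ofNat 50140800, .negSucc 156015839, .ofNat 155616960, .negSucc 72979679, .ofNat 16915200, .negSucc 1706879]),
  (2771613, [.ofNat 0, .ofNat 0, .negSucc 11001599, .ofNat 35010240, .negSucc 35950079, .ofNat 13544640, .negSucc 2194559]),
  (2771787, [.ofNat 0, .ofNat 14549760, .negSucc 23328959, .negSucc 144875999, .ofNat 214771200, .negSucc 91380959, .ofNat 15849600]),
  (2774691, [.ofNat 0, .ofNat 0, .ofNat 6128640, .negSucc 7660799, .ofNat 2588160, .negSucc 487679]),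
  (2774730, [.ofNat 0, .negSucc 29099519, .ofNat 34158720, .ofNat 149208960, .negSucc 231548159, .ofNat 99008640, .negSucc 17312639]),
  (2774803, [.ofNat 0, .ofNat 0, .ofNat 6128640, .negSucc 7660799, .ofNat 2588160, .negSucc 487679])]

/-- data -/
def lV10x2 : List (ℕ × List ℤ) := [(2775642, [.ofNat 0, .ofNat 0, .negSucc 6082559, .negSucc 10369919, .ofNat 20198400, .negSucc 8542079, .ofNat 1463040]),
  (2775715, [.ofNat 0, .ofNat 0, .negSucc 3087359, .ofNat 3079680, .negSucc 376319]),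
  (2791148, [.ofNat 0, .ofNat 0, .ofNat 4953600, .ofNat 33143040, .negSucc 48332159, .ofNat 20989440, .negSucc 3657599]),
  (2803402, [.ofNat 0, .ofNat 0, .ofNat 46471680, .negSucc 95285759, .ofNat 83959680, .negSucc 29610239, .ofNat 4632960]),
  (2803914, [.ofNat 0, .ofNat 0, .ofNat 12072960, .negSucc 11500799, .ofNat 4001280, .negSucc 487679]),
  (19478372, [.ofNat 14549760, .negSucc 16267199, .negSucc 66500639, .ofNat 104605440, .negSucc 44643359, .ofNat 7802880]),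
  (19478373, [.ofNat 0, .negSucc 39847679, .ofNat 14084160, .ofNat 19720320, .negSucc 12407999, .ofNat 2438400]),
  (19478380, [.ofNat 0, .ofNat 5328000, .negSucc 82006559, .ofNat 102742080, .negSucc 42771359, .ofNat 7315200]),
  (19478764, [.ofNat 0, .ofNat 77984640, .negSucc 192041759, .ofNat 181524480, .negSucc 66684959, .ofNat 10607040]),
  (19478827, [.ofNat 0, .ofNat 24099840, .negSucc 57884159, .ofNat 54710400, .negSucc 19848959, .ofNat 3169920]),
  (19478877, [.ofNat 0, .ofNat 22487040, .negSucc 40389119, .ofNat 32273280, .negSucc 11063039, .ofNat 1706880]),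
  (19479396, [.ofNat 0, .ofNat 6779520, .negSucc 112613279, .ofNat 143190720, .negSucc 58797599, .ofNat 9997440]),
  (19482341, [.ofNat 0, .negSucc 32359679, .ofNat 20408640, .ofNat 3847680, .negSucc 5411519, .ofNat 1219200]),
  (19482476, [.ofNat 0, .negSucc 4919039, .ofNat 12555840, .negSucc 12080639, .ofNat 4514880, .negSucc 731519]),
  (19482845, [.ofNat 0, .ofNat 5328000, .negSucc 82006559, .ofNat 102742080, .negSucc 42771359, .ofNat 7315200]),
  (19482861, [.ofNat 14549760, .negSucc 23835839, .negSucc 122026079, .ofNat 185564160, .negSucc 79747679, .ofNat 13898880]),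
  (19482971, [.ofNat 0, .ofNat 15471360, .negSucc 186719039, .ofNat 231277440, .negSucc 94816319, .ofNat 16093440]),
  (19482973, [.ofNat 0, .negSucc 2995199, .negSucc 92248319, .ofNat 126777600, .negSucc 53855999, .ofNat 9265920]),
  (19482987, [.ofNat 0, .ofNat 12435840, .negSucc 5960159, .negSucc 3270719, .ofNat 2420640, .negSucc 487679]),
  (19483357, [.ofNat 0, .ofNat 16922880, .negSucc 38779199, .ofNat 35141760, .negSucc 12486719, .ofNat 1950720]),
  (19483421, [.ofNat 0, .ofNat 4786560, .negSucc 23012639, .ofNat 28055040, .negSucc 10555679, .ofNat 1828800]),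
  (19486501, [.ofNat 0, .negSucc 7580159, .ofNat 6172800, .negSucc 2246399, .ofNat 243840]),
  (19486508, [.ofNat 0, .negSucc 17971199, .ofNat 37063680, .negSucc 31727999, .ofNat 11063040, .negSucc 1706879]),
  (19486941, [.ofNat 0, .ofNat 15552000, .negSucc 22008959, .ofNat 13839360, .negSucc 3822719, .ofNat 487680]),
  (19486955, [.ofNat 0, .negSucc 11543039, .ofNat 75619200, .negSucc 89120639, .ofNat 36201600, .negSucc 6095999]),
  (19487460, [.ofNat 0, .negSucc 39237119, .ofNat 39029760, .negSucc 14753279, .ofNat 1950720]),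
  (19487523, [.ofNat 0, .negSucc 11001599, .ofNat 35010240, .negSucc 35950079, .ofNat 13544640, .negSucc 2194559]),
  (19512162, [.negSucc 14549759, .ofNat 17891520, .ofNat 82708320, .negSucc 126942719, .ofNat 54365280, .negSucc 9509759]),
  (19515244, [.ofNat 0, .ofNat 12072960, .negSucc 11500799, .ofNat 4001280, .negSucc 487679]),
  (19515733, [.ofNat 0, .ofNat 7240320, .negSucc 23620319, .ofNat 24802560, .negSucc 9619679, .ofNat 1584960]),
  (19515755, [.ofNat 0, .negSucc 1658879, .ofNat 1221120, .ofNat 138240]),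
  (19516067, [.ofNat 0, .negSucc 27573119, .ofNat 29960160, .negSucc 11844479, .ofNat 1482720, .ofNat 121920]),
  (19518757, [.ofNat 0, .negSucc 19042559, .ofNat 4946880, .ofNat 12005760, .negSucc 7444799, .ofNat 1463040]),
  (19520284, [.ofNat 0, .negSucc 37727999, .ofNat 47916480, .negSucc 27427199, .ofNat 7523520, .negSucc 975359]),
  (19540765, [.ofNat 0, .ofNat 2211840, .ofNat 1685760, .negSucc 5091839, .ofNat 2757120, .negSucc 487679]),
  (19540835, [.ofNat 0, .negSucc 12072959, .ofNat 43090560, .negSucc 46252799, .ofNat 17815680, .negSucc 2926079]),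
  (19543276, [.ofNat 0, .ofNat 0, .ofNat 1520640, .negSucc 2424959, .ofNat 1455360, .negSucc 243839]),
  (19543909, [.ofNat 0, .ofNat 334080, .ofNat 14243520, .negSucc 17314559, .ofNat 7346880, .negSucc 1219199]),
  (19543916, [.ofNat 0, .ofNat 3513600, .negSucc 8510399, .ofNat 7754880, .negSucc 2969279, .ofNat 487680]),
  (19544403, [.ofNat 0, .ofNat 12072960, .negSucc 11500799, .ofNat 4001280, .negSucc 487679]),
  (19544733, [.ofNat 0, .ofNat 8380800, .negSucc 8006879, .ofNat 2175360, .negSucc 19679, .negSucc 121919]),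
  (19544789, [.ofNat 0, .ofNat 49164480, .negSucc 120829199, .ofNat 112530240, .negSucc 40907279, .ofNat 6400800]),
  (19551517, [.ofNat 0, .negSucc 3064319, .ofNat 3830400, .negSucc 1777919, .ofNat 243840]),
  (19552931, [.ofNat 0, .negSucc 11001599, .ofNat 35010240, .negSucc 35950079, .ofNat 13544640, .negSucc 2194559]),
  (19552988, [.ofNat 0, .negSucc 1405439, .ofNat 4045440, .negSucc 4325759, .ofNat 1545600, .negSucc 243839]),
  (19572453, [.ofNat 0, .ofNat 7240320, .negSucc 23620319, .ofNat 24802560, .negSucc 9619679, .ofNat 1584960]),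
  (19572579, [.ofNat 0, .ofNat 37509120, .negSucc 130699199, .ofNat 147083520, .negSucc 58925759, .ofNat 9997440]),
  (19572957, [.ofNat 0, .negSucc 52513919, .ofNat 171857760, .negSucc 171365759, .ofNat 63612000, .negSucc 10119359]),
  (19576101, [.ofNat 0, .ofNat 69120, .ofNat 16325760, .negSucc 23272319, .ofNat 9843840, .negSucc 1706879]),
  (19576163, [.ofNat 0, .ofNat 10448640, .negSucc 14972159, .ofNat 8795520, .negSucc 2277119, .ofNat 243840]),
  (19576485, [.ofNat 0, .negSucc 37727999, .ofNat 47916480, .negSucc 27427199, .ofNat 7523520, .negSucc 975359]),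
  (19576492, [.ofNat 0, .ofNat 14088960, .negSucc 38089919, .ofNat 36326400, .negSucc 13544639, .ofNat 2194560]),
  (19576613, [.ofNat 0, .ofNat 13731840, .negSucc 11285759, .ofNat 969600, .ofNat 814080, .negSucc 243839]),
  (19576620, [.ofNat 0, .negSucc 4976639, .ofNat 5180160, .negSucc 3571199, .ofNat 487680]),
  (19576997, [.ofNat 0, .ofNat 69120, .ofNat 16325760, .negSucc 23272319, .ofNat 9843840, .negSucc 1706879]),
  (19577178, [.ofNat 0, .negSucc 14515199, .ofNat 48049920, .negSucc 50378879, .ofNat 19361280, .negSucc 3169919]),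
  (19577186, [.ofNat 0, .negSucc 783359, .ofNat 645120]),
  (19580189, [.ofNat 0, .negSucc 5207039, .ofNat 19991040, .negSucc 22383359, .ofNat 8785920, .negSucc 1463039]),
  (19580691, [.ofNat 0, .ofNat 39646080, .negSucc 41460959, .ofNat 15845760, .negSucc 1970399, .negSucc 121919]),
  (19580762, [.ofNat 0, .negSucc 14515199, .ofNat 48049920, .negSucc 50378879, .ofNat 19361280, .negSucc 3169919]),
  (19580770, [.ofNat 0, .negSucc 783359, .ofNat 645120]),
  (19581085, [.ofNat 0, .ofNat 69120, .ofNat 16325760, .negSucc 23272319, .ofNat 9843840, .negSucc 1706879]),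
  (19581149, [.ofNat 0, .ofNat 22279680, .negSucc 12975359, .negSucc 3411839, .ofNat 3417600, .negSucc 731519]),
  (19584738, [.negSucc 14549759, .ofNat 17891520, .ofNat 82708320, .negSucc 126942719, .ofNat 54365280, .negSucc 9509759]),
  (21317477, [.ofNat 0, .ofNat 14244480, .negSucc 17958239, .ofNat 7916160, .negSucc 1238879, .negSucc 121919]),
  (21317867, [.ofNat 0, .negSucc 24707519, .ofNat 138447120, .negSucc 161557439, .ofNat 65153040, .negSucc 11033759]),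
  (21317981, [.ofNat 0, .negSucc 8602559, .ofNat 67612560, .negSucc 82689599, .ofNat 34158480, .negSucc 5913119]),
  (21322467, [.ofNat 0, .ofNat 6024960, .negSucc 1883999, .negSucc 1616639, .ofNat 1923360, .negSucc 365759]),
  (21342493, [.ofNat 0, .negSucc 31916159, .negSucc 55622879, .ofNat 108539520, .negSucc 49974239, .ofNat 9144000]),
  (21342571, [.ofNat 0, .ofNat 51128640, .negSucc 114024239, .ofNat 104468160, .negSucc 37581359, .ofNat 6035040]),
  (21346581, [.ofNat 0, .ofNat 16021440, .negSucc 83817359, .ofNat 97091520, .negSucc 39039119, .ofNat 6644640]),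
  (21347156, [.ofNat 0, .ofNat 35300160, .negSucc 74159759, .ofNat 61709760, .negSucc 21684239, .ofNat 3230880]),
  (21349739, [.ofNat 0, .negSucc 4976639, .ofNat 5180160, .negSucc 3571199, .ofNat 487680]),
  (21350557, [.ofNat 0, .ofNat 28085760, .negSucc 81114239, .ofNat 80083200, .negSucc 30180479, .ofNat 4876800]),
  (21350571, [.ofNat 0, .negSucc 64082879, .ofNat 243882000, .negSucc 264671039, .ofNat 103061520, .negSucc 17129759]),
  (21354667, [.ofNat 0, .ofNat 16122240, .negSucc 16138559, .ofNat 4819200, .ofNat 905280, .negSucc 243839]),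
  (21355171, [.ofNat 0, .negSucc 12813119, .ofNat 33770640, .negSucc 29436479, .ofNat 10621200, .negSucc 1523999]),
  (21374693, [.ofNat 0, .negSucc 9285119, .negSucc 17566079, .ofNat 32737920, .negSucc 15050879, .ofNat 2682240]),
  (21374763, [.ofNat 0, .ofNat 36823680, .negSucc 46057439, .ofNat 23890560, .negSucc 5061599, .ofNat 365760]),
  (21374827, [.ofNat 0, .negSucc 13861439, .ofNat 30474480, .negSucc 24248639, .ofNat 8210160, .negSucc 1158239]),
  (21375843, [.ofNat 0, .negSucc 41564159, .ofNat 33432000, .negSucc 662399, .negSucc 5006399, .ofNat 1463040]),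
  (21378412, [.ofNat 0, .negSucc 8180639, .ofNat 43518360, .negSucc 47579039, .ofNat 18089880, .negSucc 2651759]),
  (21378725, [.ofNat 0, .negSucc 8501759, .negSucc 18211199, .ofNat 32737920, .negSucc 15050879, .ofNat 2682240]),
  (21378924, [.ofNat 0, .negSucc 2995199, .negSucc 92248319, .ofNat 126777600, .negSucc 53855999, .ofNat 9265920]),
  (21379435, [.ofNat 0, .negSucc 2995199, .negSucc 92248319, .ofNat 126777600, .negSucc 53855999, .ofNat 9265920]),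
  (21379866, [.ofNat 0, .negSucc 5650559, .negSucc 13126559, .ofNat 25464960, .negSucc 11613599, .ofNat 2072640]),
  (21379939, [.ofNat 0, .negSucc 2995199, .negSucc 92248319, .ofNat 126777600, .negSucc 53855999, .ofNat 9265920]),
  (21382827, [.ofNat 0, .ofNat 20828160, .negSucc 57776639, .ofNat 56544000, .negSucc 21150719, .ofNat 3413760]),
  (21382995, [.ofNat 0, .negSucc 15517439, .negSucc 22317119, .ofNat 47512320, .negSucc 22251839, .ofNat 4145280]),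
  (21383898, [.ofNat 0, .negSucc 29491199, .ofNat 106613760, .negSucc 106917119, .ofNat 39594240, .negSucc 6339839]),
  (21386923, [.ofNat 0, .ofNat 23109120, .negSucc 58853279, .ofNat 56482560, .negSucc 20804639, .ofNat 3291840]),
  (21386965, [.ofNat 0, .negSucc 47177279, .ofNat 135535440, .negSucc 133515839, .ofNat 50538960, .negSucc 8107679]),
  (21387939, [.ofNat 0, .negSucc 40642559, .ofNat 45762240, .negSucc 19973759, .ofNat 3291840]),
  (21387994, [.ofNat 0, .negSucc 36397439, .ofNat 98914080, .negSucc 98659199, .ofNat 37013280, .negSucc 5974079]),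
  (21407468, [.ofNat 0, .negSucc 5051519, .negSucc 24982079, .ofNat 41656320, .negSucc 17622719, .ofNat 3169920]),
  (21411493, [.ofNat 0, .negSucc 37578239, .ofNat 113145600, .negSucc 115829759, .ofNat 44186880, .negSucc 7315199]),
  (21412115, [.ofNat 0, .negSucc 33488639, .ofNat 14746560, .ofNat 15784320, .negSucc 11188799, .ofNat 2438400]),
  (21412122, [.ofNat 0, .negSucc 28673279, .ofNat 52117440, .negSucc 38983679, .ofNat 12404160, .negSucc 1706879]),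
  (21412138, [.ofNat 0, .negSucc 58544639, .ofNat 106786560, .negSucc 87960959, .ofNat 30097920, .negSucc 4632959]),
  (21415133, [.ofNat 0, .ofNat 334080, .ofNat 14243520, .negSucc 17314559, .ofNat 7346880, .negSucc 1219199])]

/-- data -/
def lV10x3 : List (ℕ × List ℤ) := [(21415770, [.ofNat 0, .negSucc 45803519, .ofNat 121785600, .negSucc 117262079, .ofNat 43276800, .negSucc 6827519]),
  (21416170, [.ofNat 0, .negSucc 14734079, .ofNat 71807040, .negSucc 81171839, .ofNat 32174400, .negSucc 5364479]),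
  (21416674, [.ofNat 0, .negSucc 67207679, .ofNat 65373120, .negSucc 19975679, .ofNat 849600, .ofNat 731520]),
  (21419683, [.ofNat 0, .negSucc 13861439, .ofNat 30474480, .negSucc 24248639, .ofNat 8210160, .negSucc 1158239]),
  (21419732, [.ofNat 0, .ofNat 43464960, .negSucc 114263999, .ofNat 109319040, .negSucc 40048319, .ofNat 6339840]),
  (21419795, [.ofNat 0, .negSucc 6024959, .ofNat 1884000, .ofNat 1616640, .negSucc 1923359, .ofNat 365760]),
  (21419802, [.ofNat 0, .negSucc 40982399, .ofNat 102143040, .negSucc 95122559, .ofNat 34215360, .negSucc 5364479]),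
  (21420195, [.ofNat 0, .ofNat 1042560, .ofNat 11523360, .negSucc 17882879, .ofNat 7464480, .negSucc 1341119]),
  (21420314, [.ofNat 0, .ofNat 18656640, .negSucc 84610079, .ofNat 93563520, .negSucc 36587039, .ofNat 5974080]),
  (21543211, [.ofNat 0, .ofNat 24099840, .negSucc 57884159, .ofNat 54710400, .negSucc 19848959, .ofNat 3169920]),
  (21543653, [.ofNat 0, .ofNat 48294720, .negSucc 110113199, .ofNat 103070400, .negSucc 37337519, .ofNat 6035040]),
  (21543660, [.ofNat 0, .ofNat 25459200, .negSucc 81582719, .ofNat 84403200, .negSucc 32622719, .ofNat 5364480]),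
  (21543715, [.ofNat 0, .ofNat 24099840, .negSucc 57884159, .ofNat 54710400, .negSucc 19848959, .ofNat 3169920]),
  (21546860, [.ofNat 0, .ofNat 19307520, .negSucc 67756799, .ofNat 73207680, .negSucc 28147199, .ofNat 4632960]),
  (21547371, [.ofNat 0, .ofNat 4919040, .negSucc 12555839, .ofNat 12080640, .negSucc 4514879, .ofNat 731520]),
  (21547805, [.ofNat 0, .ofNat 27633600, .negSucc 108583439, .ofNat 118660800, .negSucc 45953039, .ofNat 7620000]),
  (21547868, [.ofNat 0, .ofNat 19307520, .negSucc 67756799, .ofNat 73207680, .negSucc 28147199, .ofNat 4632960]),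
  (21551836, [.ofNat 0, .ofNat 5437440, .ofNat 62167680, .negSucc 87828479, .ofNat 37015680, .negSucc 6339839]),
  (21600492, [.ofNat 0, .negSucc 19336319, .ofNat 54735840, .negSucc 55128959, .ofNat 20682720, .negSucc 3291839]),
  (21607276, [.ofNat 0, .ofNat 3064320, .negSucc 3830399, .ofNat 1294080, .negSucc 243839]),
  (21608780, [.ofNat 0, .negSucc 1658879, .ofNat 1221120, .ofNat 138240]),
  (21609068, [.ofNat 0, .negSucc 783359, .ofNat 645120]),
  (21611244, [.ofNat 0, .negSucc 20119679, .ofNat 55380960, .negSucc 55128959, .ofNat 20682720, .negSucc 3291839]),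
  (21612140, [.ofNat 0, .negSucc 101911679, .ofNat 205784160, .negSucc 173961599, .ofNat 60459360, .negSucc 9143999]),
  (21616229, [.ofNat 0, .negSucc 128450879, .ofNat 340399920, .negSucc 324949439, .ofNat 119667120, .negSucc 18958559]),
  (21616733, [.ofNat 0, .negSucc 128450879, .ofNat 340399920, .negSucc 324949439, .ofNat 119667120, .negSucc 18958559]),
  (21616739, [.ofNat 0, .ofNat 34758720, .negSucc 110938319, .ofNat 111971520, .negSucc 42810959, .ofNat 6888480]),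
  (21616909, [.ofNat 0, .ofNat 4838400, .negSucc 18424319, .ofNat 19297920, .negSucc 7484159, .ofNat 1219200]),
  (21616925, [.ofNat 0, .negSucc 4953599, .negSucc 33143039, .ofNat 48332160, .negSucc 20989439, .ofNat 3657600]),
  (21632797, [.ofNat 0, .negSucc 13216319, .ofNat 15122160, .negSucc 5952959, .ofNat 741360, .ofNat 60960]),
  (21632867, [.ofNat 0, .ofNat 99817920, .negSucc 291224399, .ofNat 288588480, .negSucc 108096719, .ofNat 17373600]),
  (21633245, [.ofNat 0, .negSucc 12072959, .ofNat 43090560, .negSucc 46252799, .ofNat 17815680, .negSucc 2926079]),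
  (21639909, [.ofNat 0, .ofNat 28085760, .negSucc 81114239, .ofNat 80083200, .negSucc 30180479, .ofNat 4876800]),
  (21639916, [.ofNat 0, .negSucc 11741759, .negSucc 3148559, .ofNat 15547200, .negSucc 8044559, .ofNat 1524000]),
  (21639965, [.ofNat 0, .negSucc 13216319, .ofNat 15122160, .negSucc 5952959, .ofNat 741360, .ofNat 60960]),
  (21641547, [.ofNat 0, .ofNat 12072960, .negSucc 11500799, .ofNat 4001280, .negSucc 487679]),
  (21641821, [.ofNat 0, .negSucc 2548799, .ofNat 4026480, .negSucc 3723839, .ofNat 1311600, .negSucc 182879]),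
  (21641836, [.ofNat 0, .negSucc 44403839, .ofNat 144014400, .negSucc 148602239, .ofNat 57224640, .negSucc 9265919]),
  (21642059, [.ofNat 0, .negSucc 9492479, .ofNat 8505600, .negSucc 4116479, .ofNat 487680]),
  (21642060, [.ofNat 0, .ofNat 20816640, .negSucc 61437119, .ofNat 60973440, .negSucc 23632319, .ofNat 3901440]),
  (21642083, [.ofNat 0, .negSucc 13144319, .ofNat 51170880, .negSucc 56555519, .ofNat 22086720, .negSucc 3657599]),
  (21645131, [.ofNat 0, .ofNat 3513600, .negSucc 8510399, .ofNat 7754880, .negSucc 2969279, .ofNat 487680]),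
  (21645931, [.ofNat 0, .ofNat 15759360, .negSucc 51267839, .ofNat 54662400, .negSucc 20739839, .ofNat 3413760]),
  (21646029, [.ofNat 0, .ofNat 5437440, .ofNat 62167680, .negSucc 87828479, .ofNat 37015680, .negSucc 6339839]),
  (21648220, [.ofNat 0, .negSucc 26015039, .ofNat 87702960, .negSucc 94103999, .ofNat 36515760, .negSucc 6035039]),
  (21648988, [.ofNat 0, .negSucc 6903359, .negSucc 21572879, .ofNat 34845120, .negSucc 15528719, .ofNat 2743200]),
  (21648995, [.ofNat 0, .ofNat 99135360, .negSucc 259534559, .ofNat 247484160, .negSucc 91002719, .ofNat 14508480]),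
  (21649003, [.ofNat 0, .ofNat 1359360, .ofNat 4160640, .negSucc 6627839, .ofNat 2847360, .negSucc 487679]),
  (21649101, [.ofNat 0, .negSucc 24871679, .ofNat 2445120, .ofNat 20981760, .negSucc 11593919, .ofNat 2194560]),
  (21649163, [.ofNat 0, .negSucc 37589759, .ofNat 103128000, .negSucc 99446399, .ofNat 36972480, .negSucc 5852159]),
  (21649227, [.ofNat 0, .ofNat 24842880, .negSucc 57045599, .ofNat 54568320, .negSucc 20742239, .ofNat 3291840]),
  (21649613, [.ofNat 0, .negSucc 23817599, .ofNat 97485600, .negSucc 110626559, .ofNat 42477600, .negSucc 7193279]),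
  (21650124, [.ofNat 0, .ofNat 4929120, .negSucc 57366119, .ofNat 72547680, .negSucc 31046759, .ofNat 5638800]),
  (21665628, [.ofNat 0, .ofNat 42125760, .negSucc 160517519, .ofNat 175172160, .negSucc 68161679, .ofNat 11277600]),
  (21674092, [.ofNat 0, .negSucc 1710719, .ofNat 11743200, .negSucc 13847039, .ofNat 6040800, .negSucc 1097279]),
  (21674220, [.ofNat 0, .ofNat 16341120, .negSucc 14342879, .ofNat 3048960, .ofNat 794400, .negSucc 365759]),
  (21674251, [.ofNat 0, .ofNat 15552000, .negSucc 22008959, .ofNat 13839360, .negSucc 3822719, .ofNat 487680]),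
  (21674316, [.ofNat 0, .negSucc 1941119, .ofNat 12670560, .negSucc 15359999, .ofNat 6284640, .negSucc 1097279]),
  (21674332, [.ofNat 0, .ofNat 19673280, .negSucc 19014479, .ofNat 6772800, .negSucc 517199, .negSucc 182879]),
  (21674588, [.ofNat 0, .ofNat 2185920, .ofNat 39491760, .negSucc 58182719, .ofNat 24538800, .negSucc 4328159]),
  (21674763, [.ofNat 0, .negSucc 26622719, .ofNat 88046400, .negSucc 94513919, .ofNat 36352320, .negSucc 6095999]),
  (21677772, [.ofNat 0, .negSucc 9492479, .ofNat 8505600, .negSucc 4116479, .ofNat 487680]),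
  (21677853, [.ofNat 0, .ofNat 25459200, .negSucc 81582719, .ofNat 84403200, .negSucc 32622719, .ofNat 5364480]),
  (21677916, [.ofNat 0, .ofNat 3332160, .negSucc 4671599, .ofNat 3723840, .negSucc 1311599, .ofNat 182880]),
  (21678684, [.ofNat 0, .negSucc 32428799, .negSucc 4468799, .ofNat 40300800, .negSucc 21276479, .ofNat 4145280]),
  (21681931, [.ofNat 0, .ofNat 116249760, .negSucc 140803799, .ofNat 67489440, .negSucc 13323479, .ofNat 457200]),
  (21682380, [.ofNat 0, .ofNat 15586560, .negSucc 20011199, .ofNat 11756160, .negSucc 3456959, .ofNat 487680]),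
  (21801196, [.ofNat 0, .negSucc 3847679, .ofNat 4475520, .negSucc 1777919, .ofNat 243840]),
  (21801708, [.ofNat 0, .ofNat 12960000, .negSucc 36325439, .ofNat 31948800, .negSucc 11810879, .ofNat 1706880]),
  (21805221, [.ofNat 0, .ofNat 28085760, .negSucc 81114239, .ofNat 80083200, .negSucc 30180479, .ofNat 4876800]),
  (21805228, [.ofNat 0, .negSucc 17550719, .ofNat 28519200, .negSucc 11099519, .ofNat 479520, .ofNat 365760]),
  (21805333, [.ofNat 0, .ofNat 41564160, .negSucc 33431999, .ofNat 662400, .ofNat 5006400, .negSucc 1463039]),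
  (21805922, [.ofNat 0, .ofNat 17124480, .negSucc 14987999, .ofNat 3048960, .ofNat 794400, .negSucc 365759]),
  (21808476, [.ofNat 0, .ofNat 16819200, .negSucc 56444159, .ofNat 58911360, .negSucc 22452479, .ofNat 3657600]),
  (21808938, [.ofNat 0, .ofNat 36823680, .negSucc 46057439, .ofNat 23890560, .negSucc 5061599, .ofNat 365760]),
  (21808994, [.ofNat 0, .negSucc 36907199, .ofNat 71438160, .negSucc 58342079, .ofNat 19878480, .negSucc 2987039]),
  (21809309, [.ofNat 0, .negSucc 2548799, .ofNat 4026480, .negSucc 3723839, .ofNat 1311600, .negSucc 182879]),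
  (21809323, [.ofNat 0, .negSucc 34355519, .ofNat 38261040, .negSucc 16689599, .ofNat 3140400, .negSucc 182879]),
  (21809827, [.ofNat 0, .negSucc 13991039, .ofNat 3471840, .ofNat 11182080, .negSucc 6489119, .ofNat 1341120]),
  (21809898, [.ofNat 0, .ofNat 12960000, .negSucc 36325439, .ofNat 31948800, .negSucc 11810879, .ofNat 1706880]),
  (21810004, [.ofNat 0, .negSucc 783359, .ofNat 645120]),
  (21810010, [.ofNat 0, .ofNat 17124480, .negSucc 14987999, .ofNat 3048960, .ofNat 794400, .negSucc 365759]),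
  (21810012, [.ofNat 0, .negSucc 14515199, .ofNat 48049920, .negSucc 50378879, .ofNat 19361280, .negSucc 3169919]),
  (21813090, [.ofNat 0, .ofNat 67196160, .negSucc 167911679, .ofNat 162912000, .negSucc 61090559, .ofNat 9753600]),
  (21813596, [.ofNat 0, .ofNat 10382400, .negSucc 11211119, .ofNat 4555200, .negSucc 497519, .negSucc 60959]),
  (21813602, [.ofNat 0, .ofNat 35095680, .negSucc 76744799, .ofNat 68449920, .negSucc 24505439, .ofNat 3779520]),
  (21829917, [.ofNat 0, .ofNat 44311680, .negSucc 121025759, .ofNat 116989440, .negSucc 43622879, .ofNat 6949440]),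
  (21846252, [.ofNat 0, .negSucc 54501119, .ofNat 112820160, .negSucc 98526719, .ofNat 33424320, .negSucc 5120639]),
  (21846364, [.ofNat 0, .negSucc 30683519, .ofNat 15334560, .ofNat 12099840, .negSucc 9053279, .ofNat 2072640]),
  (21863077, [.ofNat 0, .ofNat 48039840, .negSucc 88635479, .ofNat 67552800, .negSucc 21381719, .ofNat 2651760]),
  (21873429, [.ofNat 0, .negSucc 1042559, .negSucc 11523359, .ofNat 17882880, .negSucc 7464479, .ofNat 1341120]),
  (21877602, [.ofNat 0, .negSucc 26899199, .ofNat 91068480, .negSucc 86766719, .ofNat 31905600, .negSucc 4876799]),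
  (21879053, [.ofNat 0, .ofNat 4929120, .negSucc 57366119, .ofNat 72547680, .negSucc 31046759, .ofNat 5638800]),
  (21879562, [.ofNat 29099520, .negSucc 17247359, .negSucc 147513599, .ofNat 212672640, .negSucc 89652479, .ofNat 15605760]),
  (21895339, [.ofNat 0, .negSucc 15664319, .ofNat 47258640, .negSucc 48313919, .ofNat 18293520, .negSucc 2987039]),
  (21895906, [.ofNat 0, .ofNat 15664320, .negSucc 47258639, .ofNat 48313920, .negSucc 18293519, .ofNat 2987040]),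
  (21896019, [.ofNat 0, .negSucc 1059839, .ofNat 19215360, .negSucc 24516479, .ofNat 10087680, .negSucc 1706879]),
  (21896028, [.ofNat 0, .ofNat 8180640, .negSucc 43518359, .ofNat 47579040, .negSucc 18089879, .ofNat 2651760]),
  (21897964, [.ofNat 0, .negSucc 8639, .ofNat 12295440, .negSucc 17135039, .ofNat 7230480, .negSucc 1280159]),
  (21899980, [.ofNat 0, .ofNat 28347840, .negSucc 18309839, .negSucc 5290559, .ofNat 5747760, .negSucc 1402079])]

/-- data -/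
def lV10x4 : List (ℕ × List ℤ) := [(21900012, [.ofNat 0, .ofNat 7928640, .ofNat 2514960, .negSucc 11150399, .ofNat 5441040, .negSucc 1036319]),
  (21900107, [.ofNat 0, .negSucc 230399, .ofNat 927360, .negSucc 1512959, .ofNat 243840]),
  (21904138, [.ofNat 0, .negSucc 67207679, .ofNat 65373120, .negSucc 19975679, .ofNat 849600, .ofNat 731520]),
  (21907274, [.ofNat 0, .negSucc 36907199, .ofNat 71438160, .negSucc 58342079, .ofNat 19878480, .negSucc 2987039]),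
  (21908075, [.ofNat 0, .negSucc 77984639, .ofNat 192041760, .negSucc 181524479, .ofNat 66684960, .negSucc 10607039]),
  (21908170, [.ofNat 0, .ofNat 43810560, .negSucc 34979519, .ofNat 6789120, .ofNat 2076480, .negSucc 731519]),
  (21908173, [.ofNat 0, .ofNat 3661920, .ofNat 23670360, .negSucc 36827039, .ofNat 15203160, .negSucc 2407919]),
  (21910827, [.ofNat 0, .ofNat 24747840, .negSucc 53929199, .ofNat 47760960, .negSucc 17011439, .ofNat 2621280]),
  (21911141, [.ofNat 0, .negSucc 15664319, .ofNat 47258640, .negSucc 48313919, .ofNat 18293520, .negSucc 2987039]),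
  (21911146, [.ofNat 0, .ofNat 28347840, .negSucc 18309839, .negSucc 5290559, .ofNat 5747760, .negSucc 1402079]),
  (21911306, [.ofNat 0, .negSucc 36907199, .ofNat 71438160, .negSucc 58342079, .ofNat 19878480, .negSucc 2987039]),
  (21911372, [.ofNat 0, .negSucc 3559679, .ofNat 25047360, .negSucc 22281599, .ofNat 6968640, .negSucc 975359]),
  (21911693, [.ofNat 0, .negSucc 23817599, .ofNat 97485600, .negSucc 110626559, .ofNat 42477600, .negSucc 7193279]),
  (21912162, [.ofNat 0, .ofNat 38017440, .negSucc 14590679, .negSucc 20137439, .ofNat 12062760, .negSucc 2225039]),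
  (21927589, [.ofNat 0, .negSucc 5840639, .ofNat 70669440, .negSucc 90408959, .ofNat 37015680, .negSucc 6339839]),
  (21927778, [.ofNat 0, .ofNat 2903040, .ofNat 63688320, .negSucc 90019199, .ofNat 37829760, .negSucc 6583679]),
  (21928170, [.ofNat 0, .negSucc 691199, .negSucc 63523199, .ofNat 87352320, .negSucc 36527999, .ofNat 6339840]),
  (21928221, [.ofNat 0, .ofNat 4746240, .negSucc 4252799, .ofNat 2058240, .negSucc 243839]),
  (21928234, [.ofNat 0, .ofNat 69936480, .negSucc 152110439, .ofNat 129335520, .negSucc 44555879, .ofNat 6370320]),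
  (21928290, [.ofNat 0, .negSucc 35159039, .ofNat 34787520, .negSucc 11500799, .ofNat 1014720, .ofNat 243840]),
  (21932811, [.ofNat 0, .negSucc 15759359, .negSucc 55055999, .ofNat 90729600, .negSucc 39457919, .ofNat 7071360]),
  (21934757, [.ofNat 0, .ofNat 48294720, .negSucc 110113199, .ofNat 103070400, .negSucc 37337519, .ofNat 6035040]),
  (21934764, [.ofNat 0, .negSucc 17809919, .ofNat 50966400, .negSucc 50469119, .ofNat 18464640, .negSucc 2926079]),
  (21934946, [.ofNat 0, .ofNat 2211840, .ofNat 1685760, .negSucc 5091839, .ofNat 2757120, .negSucc 487679]),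
  (21936397, [.ofNat 0, .ofNat 4746240, .negSucc 4252799, .ofNat 2058240, .negSucc 243839]),
  (21938900, [.ofNat 0, .negSucc 691199, .negSucc 63523199, .ofNat 87352320, .negSucc 36527999, .ofNat 6339840]),
  (21939036, [.ofNat 0, .ofNat 9368640, .negSucc 10646639, .ofNat 4175040, .negSucc 497519, .negSucc 60959]),
  (21939042, [.ofNat 0, .ofNat 16289280, .negSucc 85641599, .ofNat 99204480, .negSucc 39292799, .ofNat 6583680]),
  (21940044, [.ofNat 0, .ofNat 9368640, .negSucc 10646639, .ofNat 4175040, .negSucc 497519, .negSucc 60959]),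
  (21940314, [.ofNat 0, .ofNat 783360, .negSucc 645119]),
  (21940437, [.ofNat 0, .negSucc 783359, .ofNat 645120]),
  (21944419, [.ofNat 0, .negSucc 13040639, .ofNat 29495040, .negSucc 25731839, .ofNat 9273600, .negSucc 1463039]),
  (22062828, [.ofNat 0, .ofNat 17124480, .negSucc 14987999, .ofNat 3048960, .ofNat 794400, .negSucc 365759]),
  (22063901, [.ofNat 0, .negSucc 15350399, .ofNat 18987360, .negSucc 9423359, .ofNat 2052960, .negSucc 121919]),
  (22066461, [.ofNat 0, .negSucc 7928639, .negSucc 2514959, .ofNat 11150400, .negSucc 5441039, .ofNat 1036320]),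
  (22066475, [.ofNat 0, .negSucc 691199, .negSucc 63523199, .ofNat 87352320, .negSucc 36527999, .ofNat 6339840]),
  (22066524, [.ofNat 0, .ofNat 16819200, .negSucc 56444159, .ofNat 58911360, .negSucc 22452479, .ofNat 3657600]),
  (22067925, [.ofNat 0, .negSucc 45803519, .ofNat 121785600, .negSucc 117262079, .ofNat 43276800, .negSucc 6827519]),
  (22072147, [.ofNat 0, .ofNat 27573120, .negSucc 29960159, .ofNat 11844480, .negSucc 1482719, .negSucc 121919]),
  (22075092, [.ofNat 0, .ofNat 17124480, .negSucc 14987999, .ofNat 3048960, .ofNat 794400, .negSucc 365759]),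
  (22075093, [.ofNat 0, .negSucc 14515199, .ofNat 48049920, .negSucc 50378879, .ofNat 19361280, .negSucc 3169919]),
  (22075178, [.ofNat 0, .negSucc 13991039, .ofNat 3471840, .ofNat 11182080, .negSucc 6489119, .ofNat 1341120]),
  (22075731, [.ofNat 0, .ofNat 7928640, .ofNat 2514960, .negSucc 11150399, .ofNat 5441040, .negSucc 1036319]),
  (22075738, [.ofNat 0, .negSucc 15759359, .negSucc 55055999, .ofNat 90729600, .negSucc 39457919, .ofNat 7071360]),
  (22076179, [.ofNat 0, .negSucc 2548799, .ofNat 4026480, .negSucc 3723839, .ofNat 1311600, .negSucc 182879]),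
  (22098731, [.ofNat 0, .negSucc 691199, .negSucc 63523199, .ofNat 87352320, .negSucc 36527999, .ofNat 6339840]),
  (22098780, [.ofNat 0, .negSucc 2465279, .ofNat 16544640, .negSucc 22112639, .ofNat 9356160, .negSucc 1706879]),
  (22100572, [.ofNat 0, .ofNat 14244480, .negSucc 17958239, .ofNat 7916160, .negSucc 1238879, .negSucc 121919]),
  (22108764, [.ofNat 0, .ofNat 34758720, .negSucc 110938319, .ofNat 111971520, .negSucc 42810959, .ofNat 6888480]),
  (22123819, [.ofNat 0, .negSucc 16709759, .ofNat 34502880, .negSucc 30028799, .ofNat 10595040, .negSucc 1584959]),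
  (22124197, [.ofNat 0, .negSucc 2465279, .ofNat 16544640, .negSucc 22112639, .ofNat 9356160, .negSucc 1706879]),
  (22124386, [.ofNat 0, .ofNat 9607680, .ofNat 5043840, .negSucc 18111359, .ofNat 8868480, .negSucc 1706879]),
  (22124701, [.ofNat 0, .ofNat 24747840, .negSucc 53929199, .ofNat 47760960, .negSucc 17011439, .ofNat 2621280]),
  (22125268, [.ofNat 0, .ofNat 16709760, .negSucc 34502879, .ofNat 30028800, .negSucc 10595039, .ofNat 1584960]),
  (22125282, [.ofNat 0, .ofNat 10719360, .negSucc 13866719, .ofNat 7645440, .negSucc 1809119, .ofNat 121920]),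
  (22125395, [.ofNat 0, .ofNat 4746240, .negSucc 4252799, .ofNat 2058240, .negSucc 243839]),
  (22129259, [.ofNat 0, .ofNat 35095680, .negSucc 76744799, .ofNat 68449920, .negSucc 24505439, .ofNat 3779520]),
  (22129388, [.ofNat 0, .ofNat 7928640, .ofNat 2514960, .negSucc 11150399, .ofNat 5441040, .negSucc 1036319]),
  (22129483, [.ofNat 0, .ofNat 4746240, .negSucc 4252799, .ofNat 2058240, .negSucc 243839]),
  (22133349, [.ofNat 0, .ofNat 48823200, .negSucc 89280599, .ofNat 67552800, .negSucc 21381719, .ofNat 2651760]),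
  (22133546, [.ofNat 0, .ofNat 16439040, .ofNat 27157440, .negSucc 51878399, .ofNat 23471040, .negSucc 4145279]),
  (22135509, [.ofNat 0, .ofNat 28085760, .negSucc 81114239, .ofNat 80083200, .negSucc 30180479, .ofNat 4876800]),
  (22137501, [.ofNat 0, .negSucc 17809919, .ofNat 50966400, .negSucc 50469119, .ofNat 18464640, .negSucc 2926079]),
  (22139691, [.ofNat 0, .negSucc 5198399, .ofNat 7695600, .negSucc 5248319, .ofNat 1555440, .negSucc 182879]),
  (22139746, [.ofNat 0, .ofNat 27763200, .negSucc 62584319, .ofNat 56365440, .negSucc 20336639, .ofNat 3169920]),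
  (22140005, [.ofNat 0, .ofNat 16709760, .negSucc 34502879, .ofNat 30028800, .negSucc 10595039, .ofNat 1584960]),
  (22140685, [.ofNat 0, .negSucc 16709759, .ofNat 34502880, .negSucc 30028799, .ofNat 10595040, .negSucc 1584959]),
  (22141035, [.ofNat 0, .negSucc 3839039, .negSucc 7819919, .ofNat 15357120, .negSucc 6986639, .ofNat 1280160]),
  (22141133, [.ofNat 0, .ofNat 10448640, .negSucc 14972159, .ofNat 8795520, .negSucc 2277119, .ofNat 243840]),
  (22164125, [.ofNat 0, .ofNat 40642560, .negSucc 45762239, .ofNat 19973760, .negSucc 3291839]),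
  (22164181, [.ofNat 0, .ofNat 40642560, .negSucc 45762239, .ofNat 19973760, .negSucc 3291839]),
  (22164587, [.ofNat 0, .negSucc 1059839, .ofNat 19215360, .negSucc 24516479, .ofNat 10087680, .negSucc 1706879]),
  (22166106, [.ofNat 0, .negSucc 36907199, .ofNat 71438160, .negSucc 58342079, .ofNat 19878480, .negSucc 2987039]),
  (22173003, [.ofNat 0, .ofNat 16439040, .ofNat 27157440, .negSucc 51878399, .ofNat 23471040, .negSucc 4145279]),
  (22173291, [.ofNat 0, .negSucc 17124479, .ofNat 14988000, .negSucc 3048959, .negSucc 794399, .ofNat 365760]),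
  (22173515, [.ofNat 0, .negSucc 26795519, .ofNat 29495040, .ofNat 3519360, .negSucc 8229119, .ofNat 2194560]),
  (22174298, [.ofNat 0, .ofNat 100052640, .negSucc 117458519, .ofNat 50702880, .negSucc 8198999, .negSucc 274319]),
  (22190237, [.ofNat 0, .negSucc 5840639, .ofNat 70669440, .negSucc 90408959, .ofNat 37015680, .negSucc 6339839]),
  (22190818, [.ofNat 0, .ofNat 9607680, .ofNat 5043840, .negSucc 18111359, .ofNat 8868480, .negSucc 1706879]),
  (22196899, [.ofNat 0, .ofNat 10719360, .negSucc 13866719, .ofNat 7645440, .negSucc 1809119, .ofNat 121920]),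
  (22197011, [.ofNat 0, .ofNat 15664320, .negSucc 47258639, .ofNat 48313920, .negSucc 18293519, .ofNat 2987040]),
  (22198029, [.ofNat 0, .ofNat 69936480, .negSucc 152110439, .ofNat 129335520, .negSucc 44555879, .ofNat 6370320]),
  (22198362, [.ofNat 0, .negSucc 36123839, .ofNat 70793040, .negSucc 58342079, .ofNat 19878480, .negSucc 2987039]),
  (22198477, [.ofNat 0, .negSucc 35159039, .ofNat 34787520, .negSucc 11500799, .ofNat 1014720, .ofNat 243840]),
  (22198603, [.ofNat 0, .negSucc 15765119, .ofNat 19148640, .negSucc 9676799, .ofNat 2052960, .negSucc 121919]),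
  (22202069, [.ofNat 0, .negSucc 23927039, .ofNat 13742400, .ofNat 7562880, .negSucc 6225599, .ofNat 1463040]),
  (22202187, [.ofNat 0, .ofNat 0, .ofNat 1520640, .negSucc 2424959, .ofNat 1455360, .negSucc 243839]),
  (22206154, [.ofNat 29099520, .negSucc 34158719, .negSucc 149208959, .ofNat 231548160, .negSucc 99008639, .ofNat 17312640]),
  (22324972, [.ofNat 0, .negSucc 4835519, .ofNat 7115280, .negSucc 3777599, .ofNat 721680, .negSucc 60959]),
  (22329501, [.ofNat 0, .ofNat 783360, .negSucc 645119]),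
  (22329580, [.ofNat 0, .ofNat 35095680, .negSucc 76744799, .ofNat 68449920, .negSucc 24505439, .ofNat 3779520]),
  (22329698, [.ofNat 0, .negSucc 19405439, .ofNat 36075360, .negSucc 30076799, .ofNat 8918880, .negSucc 1341119]),
  (22333085, [.ofNat 0, .negSucc 30683519, .ofNat 15334560, .ofNat 12099840, .negSucc 9053279, .ofNat 2072640]),
  (22337811, [.ofNat 0, .negSucc 2848319, .ofNat 35927760, .negSucc 46727999, .ofNat 18588240, .negSucc 3230879]),
  (22360924, [.ofNat 0, .ofNat 35095680, .negSucc 76744799, .ofNat 68449920, .negSucc 24505439, .ofNat 3779520]),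
  (22365932, [.ofNat 0, .ofNat 44311680, .negSucc 121025759, .ofNat 116989440, .negSucc 43622879, .ofNat 6949440]),
  (22393698, [.ofNat 0, .negSucc 783359, .ofNat 645120]),
  (22401699, [.ofNat 0, .ofNat 16122240, .negSucc 16138559, .ofNat 4819200, .ofNat 905280, .negSucc 243839]),
  (22403347, [.ofNat 0, .ofNat 8213760, .negSucc 50231039, .ofNat 60274560, .negSucc 24568319, .ofNat 4145280]),
  (156583779, [.ofNat 480830400, .negSucc 1465321999, .ofNat 1494957920, .negSucc 546604879, .ofNat 89001600])]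

/-- data -/
def lV10x5 : List (ℕ × List ℤ) := [(156584157, [.ofNat 53844480, .negSucc 213344639, .ofNat 225192960, .negSucc 86962559, .ofNat 14142720]),
  (156616035, [.ofNat 529652160, .negSucc 1626227599, .ofNat 1660830560, .negSucc 609732559, .ofNat 99242880]),
  (170739564, [.negSucc 2903039, .negSucc 6969599, .ofNat 7284480, .negSucc 3575039, .ofNat 487680]),
  (170997612, [.negSucc 1359359, .negSucc 4160639, .ofNat 6627840, .negSucc 2847359, .ofNat 487680]),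
  (170998123, [.negSucc 58003199, .ofNat 134003520, .negSucc 130748159, .ofNat 49243200, .negSucc 8046719]),
  (171039514, [.negSucc 14411519, .ofNat 59096640, .negSucc 64538879, .ofNat 25492800, .negSucc 4145279]),
  (171062635, [.negSucc 20828159, .ofNat 57776640, .negSucc 56543999, .ofNat 21150720, .negSucc 3413759]),
  (171071147, [.negSucc 24842879, .ofNat 57045600, .negSucc 54568319, .ofNat 20742240, .negSucc 3291839]),
  (171072218, [.negSucc 783359, .ofNat 645120]),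
  (171291941, [.ofNat 37912320, .negSucc 98902079, .ofNat 98515200, .negSucc 36839999, .ofNat 6096000]),
  (171329370, [.negSucc 11301119, .ofNat 43473600, .negSucc 47109119, .ofNat 19028160, .negSucc 3169919]),
  (172808540, [.ofNat 37912320, .negSucc 98902079, .ofNat 98515200, .negSucc 36839999, .ofNat 6096000]),
  (172899085, [.negSucc 2903039, .negSucc 6969599, .ofNat 7284480, .negSucc 3575039, .ofNat 487680]),
  (172906316, [.negSucc 35815679, .ofNat 80387520, .negSucc 80831999, .ofNat 30939840, .negSucc 5120639]),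
  (173070179, [.negSucc 35815679, .ofNat 80387520, .negSucc 80831999, .ofNat 30939840, .negSucc 5120639]),
  (173136203, [.ofNat 49521600, .negSucc 217716239, .ofNat 237113760, .negSucc 79849679, .ofNat 12923520]),
  (173168459, [.negSucc 24266879, .ofNat 61851360, .negSucc 61196159, .ofNat 23589600, .negSucc 3779519]),
  (173185756, [.ofNat 8997120, .ofNat 12517440, .negSucc 15029759, .ofNat 5601600, .negSucc 731519]),
  (173193421, [.negSucc 2903039, .negSucc 6969599, .ofNat 7284480, .negSucc 3575039, .ofNat 487680]),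
  (173193547, [.negSucc 8677439, .ofNat 25154160, .negSucc 25485599, .ofNat 9798960, .negSucc 1584959]),
  (173324524, [.negSucc 15955199, .ofNat 56287680, .negSucc 63882239, .ofNat 24765120, .negSucc 4145279]),
  (173398220, [.negSucc 56643839, .ofNat 138164160, .negSucc 137375999, .ofNat 52090560, .negSucc 8534399]),
  (173398283, [.negSucc 15805439, .ofNat 5337600, .ofNat 2776320, .negSucc 2684159, .ofNat 487680]),
  (173430539, [.negSucc 24842879, .ofNat 57045600, .negSucc 54568319, .ofNat 20742240, .negSucc 3291839]),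
  (174476010, [.ofNat 10543680, .ofNat 29014800, .negSucc 36522239, .ofNat 2286480, .negSucc 60959]),
  (174734156, [.ofNat 11609280, .negSucc 118814159, .ofNat 138598560, .negSucc 43009679, .ofNat 6827520]),
  (175031124, [.negSucc 370509119, .ofNat 1168947120, .negSucc 1201397279, .ofNat 442569840, .negSucc 71932799]),
  (175031628, [.negSucc 370509119, .ofNat 1168947120, .negSucc 1201397279, .ofNat 442569840, .negSucc 71932799]),
  (175192908, [.negSucc 8677439, .ofNat 25154160, .negSucc 25485599, .ofNat 9798960, .negSucc 1584959]),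
  (175196877, [.negSucc 79652159, .ofNat 275859120, .negSucc 293434559, .ofNat 113649840, .negSucc 18592799]),
  (175290978, [.negSucc 79652159, .ofNat 275859120, .negSucc 293434559, .ofNat 113649840, .negSucc 18592799]),
  (175417629, [.ofNat 159143040, .negSucc 457280479, .ofNat 459433280, .negSucc 167162719, .ofNat 27310080]),
  (177066850, [.negSucc 53758079, .ofNat 168465120, .negSucc 168113279, .ofNat 63183840, .negSucc 10119359]),
  (177257173, [.negSucc 11301119, .ofNat 43473600, .negSucc 47109119, .ofNat 19028160, .negSucc 3169919]),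
  (177388171, [.ofNat 110321280, .negSucc 296374879, .ofNat 293560640, .negSucc 104035039, .ofNat 17068800]),
  (179160333, [.ofNat 59365440, .negSucc 131890799, .ofNat 129350400, .negSucc 60841199, .ofNat 10180320])]

/-- the sum of the part -/
def lV10 : List (ℕ × List ℤ) := lV10x0 ++ (lV10x1 ++ (lV10x2 ++ (lV10x3 ++ (lV10x4 ++ (lV10x5)))))

theorem okV10 : dV10.all (rok tbF 20) = true := by decide +kernel

theorem sumV10 : aeq (fz (sumT tbF dV10)) lV10 = true := by decide +kernel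

end Pool.Agent.H.MP_e16c79_al.IS
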