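import Pool.Agent.H.MP_e16c79_al.IS.BTabE

/-!
# MP_e16c79_al: certificate V, part 12
-/

set_option autoImplicit false

namespace Pool.Agent.H.MP_e16c79_al.IS

/-- data -/
def dV12x0 : RT := (.nd (.nd (.nd (.lf ⟨[.ofNat 0, .ofNat 391680, .negSucc 322559], (.tr (.dx 0 (.tr (.lf 5) (.tw (.lf 6) (.lf 13)) (.lf 17))) (.lf 18) (.tr (.lf 9) (.lf 14) (.lf 10))), 0, [7, 7, 7, 7, 7, 7, 7, 7], []⟩)
    (.lf ⟨[.ofNat 4032000, .negSucc 5130239, .ofNat 2932800, .negSucc 729599, .ofNat 182880], (.tr (.dx 0 (.tr (.lf 9) (.lf 17) (.tr (.tw (.lf 5) (.lf 6)) (.lf 13) (.lf 10)))) (.lf 18) (.lf 14)), 0, [20, 20, 20, 20, 0, 0, 5, 5], []⟩))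
    (.nd (.lf ⟨[.ofNat 0, .negSucc 702719, .ofNat 1304640, .negSucc 716159, .ofNat 121920], (.tr (.dx 0 (.tw (.lf 9) (.tr (.lf 17) (.lf 10) (.tr (.lf 5) (.lf 13) (.lf 6))))) (.lf 18) (.lf 14)), 0, [20, 20, 5, 5, 5, 5, 5, 5], []⟩)
    (.lf ⟨[.ofNat 0, .ofNat 60795360, .negSucc 134308679, .ofNat 119790240, .negSucc 42945479, .ofNat 6614160], (.tr (.lf 19) (.dx 0 (.tw (.lf 5) (.lf 13))) (.tr (.lf 9) (.tw (.lf 6) (.lf 14)) (.lf 10))), 0, [2, 2, 2, 2, 7, 35, 7, 35], [2, 2, 2, 2]⟩)))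
    (.nd (.nd (.lf ⟨[.ofNat 1532160, .negSucc 1915199, .ofNat 888960, .negSucc 121919], (.tr (.lf 5) (.dx 0 .on) (.tr (.lf 13) (.lf 9) (.tr (.lf 14) (.lf 10) (.tr (.lf 17) (.lf 6) (.lf 18))))), 0, [27, 27, 32, 32, 32, 32, 37, 37], [27, 27, 32, 32, 32, 32, 37, 37]⟩)
    (.lf ⟨[.negSucc 34721279, .ofNat 103639680, .negSucc 106756319, .ofNat 38406720, .negSucc 6278879], (.tw (.dx 0 (.tw (.lf 17) (.tr (.lf 13) (.lf 5) (.tr (.tw (.lf 9) (.lf 10)) (.lf 6) (.lf 14))))) (.lf 18)), 0, [30, 30, 30, 30, 30, 30, 30, 30, 3, 3, 3, 3, 3, 3, 3, 3], []⟩))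
    (.nd (.lf ⟨[.ofNat 0, .negSucc 33684479, .ofNat 59974560, .negSucc 50975999, .ofNat 17498400, .negSucc 2804159], (.tr (.dx 0 (.tr (.lf 13) (.tw (.lf 5) (.lf 9)) (.lf 19))) (.lf 14) (.tw (.lf 6) (.lf 10))), 0, [10, 10, 10, 9, 35, 9, 30, 9], []⟩)
    (.lf ⟨[.ofNat 0, .negSucc 63483839, .ofNat 140886480, .negSucc 124021439, .ofNat 44364240, .negSucc 6888479], (.tr (.dx 0 (.tr (.tw (.lf 5) (.lf 13)) (.lf 9) (.lf 19))) (.lf 14) (.tw (.lf 6) (.lf 10))), 0, [0, 9, 10, 10, 30, 9, 30, 9], []⟩))))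

/-- data -/
def dV12x1 : RT := (.nd (.nd (.nd (.lf ⟨[.ofNat 0, .ofNat 16709760, .negSucc 34502879, .ofNat 30028800, .negSucc 10595039, .ofNat 1584960], (.tr (.dx 0 (.tr (.tw (.lf 5) (.lf 13)) (.lf 9) (.lf 19))) (.tw (.lf 10) (.lf 14)) (.lf 6)), 0, [0, 9, 10, 10, 25, 9, 25, 9], []⟩)
    (.lf ⟨[.ofNat 0, .ofNat 46022400, .negSucc 79150079, .ofNat 58170240, .negSucc 18708479, .ofNat 2682240], (.tr (.dx 0 (.tr (.tw (.lf 9) (.lf 19)) (.lf 5) (.lf 13))) (.tw (.lf 10) (.lf 14)) (.lf 6)), 0, [20, 20, 25, 9, 10, 10, 10, 10], []⟩))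
    (.nd (.lf ⟨[.ofNat 0, .negSucc 13858559, .ofNat 22905120, .negSucc 16271999, .ofNat 4778400, .negSucc 609599], (.tr (.dx 0 (.tr (.tw (.lf 9) (.lf 19)) (.lf 5) (.lf 13))) (.lf 14) (.tw (.lf 6) (.lf 10))), 0, [20, 20, 30, 9, 10, 10, 10, 10], []⟩)
    (.lf ⟨[.ofNat 0, .negSucc 54368639, .ofNat 83314080, .negSucc 54360959, .ofNat 16002720, .negSucc 2072639], (.tr (.dx 0 (.tr (.lf 9) (.tw (.lf 5) (.lf 19)) (.lf 13))) (.tw (.lf 10) (.lf 14)) (.lf 6)), 0, [25, 9, 20, 20, 10, 10, 25, 9], []⟩)))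
    (.nd (.nd (.lf ⟨[.ofNat 0, .negSucc 24747839, .ofNat 93925200, .negSucc 102734399, .ofNat 40136400, .negSucc 6644639], (.tr (.dx 0 (.tr (.lf 9) (.tw (.lf 5) (.lf 19)) (.lf 13))) (.lf 14) (.tw (.lf 6) (.lf 10))), 0, [20, 9, 20, 20, 10, 10, 10, 9], []⟩)
    (.lf ⟨[.ofNat 0, .ofNat 8346240, .negSucc 4163999, .negSucc 3809279, .ofNat 2705760, .negSucc 609599], (.tr (.dx 0 (.tr (.lf 9) (.tw (.lf 5) (.lf 19)) (.lf 13))) (.lf 10) (.tw (.lf 6) (.lf 14))), 0, [20, 25, 20, 20, 10, 10, 10, 25], []⟩))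
    (.nd (.lf ⟨[.ofNat 0, .negSucc 8346239, .ofNat 4164000, .ofNat 3809280, .negSucc 2705759, .ofNat 609600], (.tr (.dx 0 (.tr (.tw (.lf 5) (.lf 9)) (.lf 19) (.lf 13))) (.lf 10) (.tw (.lf 6) (.lf 14))), 0, [0, 0, 20, 25, 10, 25, 19, 25], []⟩)
    (.lf ⟨[.ofNat 0, .ofNat 54368640, .negSucc 83314079, .ofNat 54360960, .negSucc 16002719, .ofNat 2072640], (.tr (.tw (.dx 0 (.tr (.tw (.lf 5) (.lf 9)) (.lf 19) (.lf 13))) (.lf 10)) (.lf 14) (.lf 6)), 0, [0, 25, 25, 25, 25, 12, 25, 25], []⟩))))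

/-- data -/
def dV12x2 : RT := (.nd (.nd (.nd (.lf ⟨[.ofNat 0, .ofNat 1607040, .negSucc 24166079, .ofNat 31011840, .negSucc 12813119, .ofNat 2194560], (.tr (.tw (.dx 0 (.tr (.tw (.lf 5) (.lf 9)) (.lf 19) (.lf 13))) (.lf 14)) (.lf 6) (.lf 10)), 0, [0, 20, 10, 10, 35, 22, 22, 22], []⟩)
    (.lf ⟨[.ofNat 0, .ofNat 97136640, .negSucc 189955199, .ofNat 159757440, .negSucc 55343999, .ofNat 8534400], (.tr (.tw (.lf 6) (.lf 10)) (.dx 0 (.tr (.tw (.lf 5) (.lf 9)) (.lf 19) (.lf 13))) (.lf 14)), 0, [23, 23, 23, 23, 23, 23, 23, 34], []⟩))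
    (.nd (.lf ⟨[.ofNat 0, .negSucc 46676159, .ofNat 110361360, .negSucc 99291839, .ofNat 36026640, .negSucc 5669279], (.tr (.tw (.dx 0 (.tr (.lf 5) (.lf 9) (.tw (.lf 13) (.lf 19)))) (.lf 14)) (.lf 6) (.lf 10)), 0, [0, 0, 10, 30, 35, 35, 22, 35], []⟩)
    (.lf ⟨[.ofNat 0, .ofNat 84395520, .negSucc 219353279, .ofNat 207868800, .negSucc 76670399, .ofNat 12192000], (.tr (.tw (.dx 0 (.tr (.lf 5) (.tw (.lf 9) (.lf 13)) (.lf 19))) (.lf 14)) (.lf 6) (.lf 10)), 0, [0, 0, 30, 30, 35, 35, 35, 35], []⟩)))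
    (.nd (.nd (.lf ⟨[.ofNat 0, .negSucc 4622399, .negSucc 7174799, .ofNat 15357120, .negSucc 6986639, .ofNat 1280160], (.tr (.dx 0 (.tr (.lf 5) (.tw (.lf 9) (.lf 13)) (.lf 19))) (.tw (.lf 6) (.lf 14)) (.lf 10)), 0, [0, 0, 0, 0, 30, 30, 30, 30], []⟩)
    (.lf ⟨[.ofNat 0, .ofNat 4622400, .ofNat 7174800, .negSucc 15357119, .ofNat 6986640, .negSucc 1280159], (.tr (.dx 0 (.tr (.tw (.lf 5) (.lf 9)) (.lf 13) (.lf 19))) (.tw (.lf 6) (.lf 14)) (.lf 10)), 0, [0, 0, 20, 20, 30, 30, 30, 30], []⟩))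
    (.nd (.lf ⟨[.ofNat 0, .negSucc 20286719, .ofNat 40083840, .negSucc 32956799, .ofNat 11306880, .negSucc 1706879], (.tr (.dx 0 (.tr (.lf 9) (.lf 5) (.tw (.lf 13) (.lf 19)))) (.tw (.lf 6) (.lf 14)) (.lf 10)), 0, [20, 20, 20, 20, 10, 10, 30, 30], []⟩)
    (.lf ⟨[.ofNat 0, .ofNat 15664320, .negSucc 47258639, .ofNat 48313920, .negSucc 18293519, .ofNat 2987040], (.tr (.dx 0 (.tr (.lf 9) (.lf 5) (.tw (.lf 13) (.lf 19)))) (.lf 14) (.tw (.lf 6) (.lf 10))), 0, [20, 9, 20, 9, 10, 9, 30, 9], []⟩))))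

/-- data -/
def dV12x3 : RT := (.nd (.nd (.nd (.lf ⟨[.ofNat 0, .negSucc 16289279, .ofNat 85641600, .negSucc 99204479, .ofNat 39292800, .negSucc 6583679], (.tr (.tw (.dx 0 (.tr (.lf 5) (.lf 13) (.tw (.lf 9) (.lf 19)))) (.lf 14)) (.lf 6) (.lf 10)), 0, [0, 0, 20, 30, 35, 35, 35, 35], []⟩)
    (.lf ⟨[.ofNat 0, .negSucc 69465599, .ofNat 129551040, .negSucc 102036479, .ofNat 34530240, .negSucc 5120639], (.tr (.tw (.lf 6) (.lf 10)) (.dx 0 (.tr (.lf 5) (.lf 13) (.tw (.lf 9) (.lf 19)))) (.lf 14)), 0, [23, 23, 23, 23, 34, 34, 34, 34], []⟩))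
    (.nd (.lf ⟨[.ofNat 0, .ofNat 29021760, .negSucc 38690159, .ofNat 21929280, .negSucc 5865839, .ofNat 670560], (.tr (.tw (.dx 0 (.tr (.lf 5) (.lf 13) (.tw (.lf 9) (.lf 19)))) (.lf 14)) (.lf 10) (.lf 6)), 0, [9, 9, 9, 9, 22, 22, 22, 22], []⟩)
    (.lf ⟨[.ofNat 0, .ofNat 41803200, .negSucc 86700239, .ofNat 73479360, .negSucc 25817039, .ofNat 3962400], (.tr (.tw (.lf 6) (.lf 10)) (.dx 0 (.tr (.lf 5) (.tw (.lf 13) (.lf 19)) (.lf 9))) (.lf 14)), 0, [23, 23, 8, 23, 34, 23, 34, 34], []⟩)))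
    (.nd (.nd (.lf ⟨[.ofNat 0, .negSucc 933119, .negSucc 53339519, .ofNat 73804800, .negSucc 30833279, .ofNat 5364480], (.tr (.tw (.lf 6) (.lf 10)) (.dx 0 (.tr (.tw (.lf 5) (.lf 19)) (.lf 13) (.lf 9))) (.lf 14)), 0, [23, 23, 23, 8, 23, 23, 34, 34], []⟩)
    (.lf ⟨[.ofNat 0, .ofNat 5293440, .ofNat 11712480, .negSucc 22189439, .ofNat 9946080, .negSucc 1828799], (.tr (.lf 6) (.tw (.dx 0 (.tr (.tw (.lf 5) (.lf 19)) (.lf 13) (.lf 9))) (.lf 10)) (.lf 14)), 0, [32, 32, 37, 37, 23, 23, 23, 8], []⟩))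
    (.nd (.lf ⟨[.ofNat 0, .negSucc 671039, .negSucc 4537679, .ofNat 6832320, .negSucc 2959439, .ofNat 548640], (.tr (.tw (.dx 0 (.tr (.tw (.lf 5) (.lf 19)) (.lf 13) (.lf 9))) (.lf 6)) (.lf 10) (.lf 14)), 0, [37, 37, 37, 37, 32, 32, 37, 37], []⟩)
    (.lf ⟨[.ofNat 0, .ofNat 679680, .negSucc 7757759, .ofNat 10302720, .negSucc 4271039, .ofNat 731520], (.tr (.tw (.dx 0 (.tr (.lf 9) (.tw (.lf 5) (.lf 13)) (.lf 19))) (.lf 6)) (.lf 10) (.lf 14)), 0, [37, 37, 37, 37, 37, 37, 32, 32], []⟩))))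

/-- data -/
def dV12x4 : RT := (.nd (.nd (.nd (.lf ⟨[.ofNat 0, .negSucc 16021439, .ofNat 14449680, .negSucc 2591039, .negSucc 906479, .ofNat 426720], (.tr (.lf 6) (.dx 0 (.tr (.lf 9) (.tw (.lf 5) (.lf 13)) (.lf 19))) (.tw (.lf 10) (.lf 14))), 0, [37, 7, 37, 7, 32, 32, 32, 32], []⟩)
    (.lf ⟨[.ofNat 0, .ofNat 671040, .ofNat 4537680, .negSucc 6832319, .ofNat 2959440, .negSucc 548639], (.tr (.lf 6) (.tw (.dx 0 (.tr (.lf 9) (.tw (.lf 5) (.lf 13)) (.lf 19))) (.lf 14)) (.lf 10)), 0, [7, 7, 32, 32, 24, 24, 13, 13], []⟩))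
    (.nd (.lf ⟨[.ofNat 0, .negSucc 2231999, .ofNat 19760400, .negSucc 25099199, .ofNat 10321680, .negSucc 1767839], (.tr (.lf 6) (.tw (.dx 0 (.tr (.lf 9) (.lf 5) (.tw (.lf 13) (.lf 19)))) (.lf 14)) (.lf 10)), 0, [7, 7, 7, 32, 24, 24, 13, 13], []⟩)
    (.lf ⟨[.ofNat 0, .ofNat 41739840, .negSucc 128657519, .ofNat 130428480, .negSucc 49307759, .ofNat 7985760], (.tr (.lf 6) (.dx 0 (.tr (.lf 9) (.lf 5) (.tw (.lf 13) (.lf 19)))) (.tw (.lf 10) (.lf 14))), 0, [37, 7, 37, 7, 37, 7, 32, 32], []⟩)))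
    (.nd (.nd (.lf ⟨[.ofNat 0, .negSucc 52136639, .ofNat 63553680, .negSucc 29261759, .ofNat 5681040, .negSucc 304799], (.tr (.tw (.lf 6) (.lf 14)) (.dx 0 (.tr (.tw (.lf 5) (.lf 9)) (.lf 19) (.lf 13))) (.lf 10)), 0, [24, 24, 13, 24, 13, 13, 13, 13], []⟩)
    (.lf ⟨[.ofNat 0, .negSucc 5379839, .ofNat 17812800, .negSucc 19418879, .ofNat 7606080, .negSucc 1219199], (.tr (.lf 10) (.tw (.dx 0 (.tr (.tw (.lf 5) (.lf 9)) (.lf 19) (.lf 13))) (.lf 6)) (.lf 14)), 0, [12, 12, 12, 12, 23, 23, 23, 34], []⟩))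
    (.nd (.lf ⟨[.ofNat 0, .ofNat 887040, .negSucc 7838399, .ofNat 10429440, .negSucc 4271039, .ofNat 731520], (.tr (.lf 10) (.tw (.dx 0 (.tr (.lf 5) (.lf 9) (.tw (.lf 13) (.lf 19)))) (.lf 6)) (.lf 14)), 0, [12, 12, 12, 19, 34, 23, 34, 34], []⟩)
    (.lf ⟨[.ofNat 0, .negSucc 679679, .ofNat 7757760, .negSucc 10302719, .ofNat 4271040, .negSucc 731519], (.tr (.tw (.dx 0 (.tr (.lf 5) (.lf 9) (.tw (.lf 13) (.lf 19)))) (.lf 10)) (.lf 6) (.lf 14)), 0, [0, 0, 19, 30, 12, 12, 12, 19], []⟩))))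

/-- data -/
def dV12x5 : RT := (.nd (.nd (.nd (.lf ⟨[.ofNat 0, .negSucc 207359, .ofNat 80640, .negSucc 126719], (.tr (.tw (.lf 6) (.lf 14)) (.dx 0 (.tr (.lf 5) (.lf 9) (.tw (.lf 13) (.lf 19)))) (.lf 10)), 0, [24, 24, 24, 24, 18, 13, 13, 13], []⟩)
    (.lf ⟨[.ofNat 0, .ofNat 9717120, .ofNat 51601440, .negSucc 80858879, .ofNat 34962720, .negSucc 6217919], (.tr (.tw (.dx 0 (.tr (.lf 5) (.tw (.lf 9) (.lf 19)) (.lf 13))) (.lf 10)) (.lf 6) (.lf 14)), 0, [0, 19, 19, 19, 12, 12, 12, 12], []⟩))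
    (.nd (.lf ⟨[.ofNat 0, .ofNat 3847680, .negSucc 4475519, .ofNat 1777920, .negSucc 243839], (.tr (.tw (.lf 6) (.lf 14)) (.dx 0 (.tr (.lf 5) (.tw (.lf 9) (.lf 19)) (.lf 13))) (.lf 10)), 0, [24, 13, 24, 24, 13, 13, 13, 13], []⟩)
    (.lf ⟨[.ofNat 0, .ofNat 2211840, .ofNat 165120, .negSucc 2666879, .ofNat 1301760, .negSucc 243839], (.tr (.lf 9) (.lf 14) (.tr (.tw (.dx 0 (.tw (.lf 5) (.lf 13))) (.lf 19)) (.lf 10) (.lf 6))), 0, [6, 6, 6, 6, 6, 3, 11, 1], [6, 6, 3, 31]⟩)))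
    (.nd (.nd (.lf ⟨[.ofNat 0, .negSucc 3571199, .ofNat 15350400, .negSucc 17938559, .ofNat 7240320, .negSucc 1219199], (.tw (.dx 0 (.tw (.lf 9) (.lf 13))) (.tr (.lf 5) (.lf 10) (.tr (.lf 14) (.lf 6) (.lf 19)))), 0, [27, 19, 9, 9, 27, 19, 9, 9], [0, 19, 10, 9]⟩)
    (.lf ⟨[.ofNat 0, .ofNat 1359360, .negSucc 15515519, .ofNat 20605440, .negSucc 8542079, .ofNat 1463040], (.tw (.lf 5) (.tr (.dx 0 (.tw (.lf 9) (.lf 13))) (.tr (.lf 14) (.lf 6) (.lf 19)) (.lf 10))), 0, [29, 7, 29, 32, 8, 8, 8, 8], [29, 32, 8, 11]⟩))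
    (.nd (.lf ⟨[.ofNat 0, .ofNat 14515200, .negSucc 48049919, .ofNat 50378880, .negSucc 19361279, .ofNat 3169920], (.tw (.lf 9) (.tr (.lf 5) (.tr (.dx 0 (.tw (.lf 13) (.lf 19))) (.lf 10) (.lf 6)) (.lf 14))), 0, [34, 34, 34, 23, 9, 9, 33, 33], []⟩)
    (.lf ⟨[.negSucc 7243199, .ofNat 18331920, .negSucc 16633919, .ofNat 7048080, .negSucc 1036319], (.tr (.lf 5) (.dx 0 .on) (.tr (.lf 17) (.lf 9) (.tr (.lf 18) (.lf 10) (.tr (.lf 13) (.lf 6) (.lf 14))))), 0, [19, 19, 32, 32, 32, 32, 15, 15], [19, 19, 32, 32, 32, 32, 15, 15]⟩))))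

/-- data -/
def dV12x6 : RT := (.nd (.nd (.nd (.lf ⟨[.ofNat 6563520, .negSucc 22998479, .ofNat 21948480, .negSucc 8919119, .ofNat 1280160], (.tr (.dx 0 (.lf 5)) (.tr (.lf 13) (.lf 9) (.tr (.lf 14) (.lf 10) (.tw (.lf 17) (.lf 18)))) (.lf 6)), 0, [0, 0, 0, 0, 0, 0, 0, 0], [17, 17, 25, 25, 25, 25, 30, 30]⟩)
    (.lf ⟨[.ofNat 22060800, .negSucc 52050239, .ofNat 49248000, .negSucc 19924799, .ofNat 3169920], (.tr (.dx 0 (.tr (.lf 5) (.lf 6) (.lf 13))) (.lf 14) (.tr (.tw (.lf 9) (.lf 17)) (.lf 10) (.lf 18))), 0, [15, 15, 15, 29, 15, 15, 15, 29], []⟩))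
    (.nd (.lf ⟨[.ofNat 0, .negSucc 5644799, .ofNat 6711360, .negSucc 2017919, .ofNat 365760], (.tr (.lf 5) (.dx 0 .on) (.tr (.lf 17) (.lf 13) (.tr (.lf 18) (.lf 14) (.tr (.lf 9) (.lf 6) (.lf 10))))), 0, [35, 35, 32, 32, 32, 32, 39, 39], [35, 35, 39, 39, 39, 39, 39, 39]⟩)
    (.lf ⟨[.negSucc 18619199, .ofNat 52334640, .negSucc 55147199, .ofNat 21528240, .negSucc 3596639], (.tr (.dx 0 (.lf 5)) (.tr (.lf 17) (.lf 13) (.tr (.tw (.lf 9) (.lf 10)) (.lf 14) (.lf 18))) (.lf 6)), 0, [0, 0, 0, 0, 0, 0, 0, 0], [30, 30, 9, 9, 20, 20, 30, 30]⟩)))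
    (.nd (.nd (.lf ⟨[.ofNat 14088960, .negSucc 38335679, .ofNat 38866560, .negSucc 14846399, .ofNat 2438400], (.tr (.lf 9) (.lf 5) (.tr (.lf 13) (.lf 10) (.tr (.dx 0 .on) (.lf 6) (.tr (.lf 17) (.lf 14) (.lf 18))))), 0, [39, 39, 1, 1, 34, 34, 37, 37], [39, 39, 34, 34, 34, 34, 37, 37]⟩)
    (.lf ⟨[.ofNat 0, .ofNat 6220800, .ofNat 3060480, .negSucc 7530239, .ofNat 3344640, .negSucc 487679], (.tr (.lf 9) (.lf 13) (.tr (.lf 6) (.tr (.lf 10) (.dx 0 (.lf 5)) (.lf 14)) (.lf 19))), 0, [6, 15, 25, 6], [6, 15, 6, 6]⟩))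
    (.nd (.lf ⟨[.ofNat 0, .negSucc 21663359, .ofNat 16529760, .negSucc 1658879, .negSucc 1291679, .ofNat 365760], (.tr (.lf 9) (.lf 13) (.tr (.lf 19) (.lf 10) (.tr (.dx 0 (.lf 5)) (.lf 14) (.lf 6)))), 0, [25, 1, 6, 15], [6, 6, 6, 15]⟩)
    (.lf ⟨[.ofNat 37739520, .negSucc 98947199, .ofNat 93803520, .negSucc 35255039, .ofNat 5608320], (.tr (.dx 0 (.tw (.lf 5) (.lf 9))) (.tr (.lf 17) (.tr (.lf 6) (.lf 13) (.lf 10)) (.lf 18)) (.lf 14)), 0, [0, 0, 0, 0, 20, 20, 20, 20], [5, 5, 5, 5]⟩))))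

/-- data -/
def dV12x7 : RT := (.nd (.nd (.nd (.lf ⟨[.ofNat 0, .ofNat 699840, .negSucc 732239, .ofNat 173280, .negSucc 30479], (.tr (.dx 0 (.tw (.lf 5) (.lf 9))) (.tr (.lf 13) (.tr (.lf 6) (.lf 17) (.lf 10)) (.lf 14)) (.lf 18)), 0, [0, 0, 0, 0, 39, 39, 39, 39], [39, 39, 39, 39]⟩)
    (.lf ⟨[.negSucc 76675679, .ofNat 202010280, .negSucc 195426239, .ofNat 73294440, .negSucc 11795759], (.tr (.lf 6) (.tr (.lf 13) (.dx 0 (.tw (.lf 5) (.lf 17))) (.tr (.lf 9) (.lf 18) (.lf 10))) (.lf 14)), 0, [24, 24, 24, 24, 23, 23, 23, 23], [24, 24, 23, 23]⟩))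
    (.nd (.lf ⟨[.ofNat 15010560, .negSucc 9920479, .negSucc 3099159, .negSucc 2106799, .ofNat 228600], (.tr (.lf 9) (.lf 10) (.tr (.dx 0 (.tw (.lf 5) (.lf 17))) (.tr (.lf 13) (.lf 6) (.lf 14)) (.lf 18))), 0, [12, 12, 12, 12, 28, 28, 28, 28], [12, 12, 28, 28]⟩)
    (.lf ⟨[.ofNat 61665120, .negSucc 192089799, .ofNat 198525400, .negSucc 71187639, .ofNat 11567160], (.tr (.lf 10) (.lf 14) (.tr (.dx 0 (.tr (.lf 9) (.lf 5) (.lf 13))) (.lf 6) (.tw (.lf 17) (.lf 18)))), 0, [27, 27, 27, 27, 6, 6, 6, 6], [27, 27, 6, 6]⟩)))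
    (.nd (.nd (.lf ⟨[.ofNat 1429920, .negSucc 1223159, .ofNat 820320, .negSucc 156599, .ofNat 30480], (.tw (.lf 10) (.tr (.lf 13) (.tr (.dx 0 (.tw (.lf 5) (.lf 9))) (.tw (.lf 17) (.lf 18)) (.lf 6)) (.lf 14))), 0, [19, 19, 19, 19, 23, 23, 23, 23, 19, 19, 19, 19, 23, 23, 23, 23], [19, 19, 23, 23, 19, 19, 23, 23]⟩)
    (.lf ⟨[.ofNat 49756320, .negSucc 121102679, .ofNat 113144160, .negSucc 42012119, .ofNat 6675120], (.tr (.lf 14) (.lf 10) (.tr (.lf 6) (.dx 0 (.tr (.lf 9) (.lf 5) (.lf 13))) (.tw (.lf 17) (.lf 18)))), 0, [3, 3, 3, 3, 33, 33, 33, 33], [3, 3, 33, 33]⟩))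
    (.nd (.lf ⟨[.ofNat 87696000, .negSucc 285187679, .ofNat 296258400, .negSucc 108721439, .ofNat 17739360], (.tr (.lf 10) (.dx 0 (.tr (.lf 5) (.lf 9) (.tr (.lf 13) (.lf 6) (.lf 17)))) (.tw (.lf 14) (.lf 18))), 0, [12, 5, 12, 5, 12, 12, 12, 5], []⟩)
    (.lf ⟨[.negSucc 34018559, .ofNat 74024000, .negSucc 71779039, .ofNat 24416000, .negSucc 3962399], (.tr (.lf 10) (.dx 0 (.tr (.lf 13) (.lf 5) (.tr (.lf 6) (.lf 9) (.lf 17)))) (.tw (.lf 14) (.lf 18))), 0, [12, 5, 12, 12, 12, 5, 12, 5], []⟩))))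

/-- data -/
def dV12x8 : RT := (.nd (.nd (.nd (.lf ⟨[.negSucc 232914239, .ofNat 736796080, .negSucc 754626879, .ofNat 270662320, .negSucc 43586399], (.tr (.lf 10) (.dx 0 (.tr (.lf 13) (.tr (.lf 5) (.lf 6) (.lf 9)) (.lf 17))) (.tw (.lf 14) (.lf 18))), 0, [12, 5, 12, 12, 39, 5, 12, 5], []⟩)
    (.lf ⟨[.ofNat 232914240, .negSucc 734117679, .ofNat 751284160, .negSucc 269220399, .ofNat 43342560], (.tr (.lf 10) (.dx 0 (.tr (.lf 13) (.lf 9) (.tr (.lf 5) (.lf 6) (.lf 17)))) (.tw (.lf 14) (.lf 18))), 0, [12, 12, 12, 12, 12, 5, 39, 5], []⟩))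
    (.nd (.lf ⟨[.ofNat 133466400, .negSucc 406749239, .ofNat 414874320, .negSucc 148260119, .ofNat 23896320], (.tr (.lf 10) (.dx 0 (.tw (.lf 13) (.tr (.tw (.lf 5) (.lf 6)) (.lf 9) (.lf 17)))) (.tw (.lf 14) (.lf 18))), 0, [12, 5, 12, 5, 12, 5, 12, 5, 12, 5, 12, 5, 12, 5, 12, 5], []⟩)
    (.lf ⟨[.negSucc 58355999, .ofNat 140266680, .negSucc 134298239, .ofNat 47355000, .negSucc 7589519], (.tr (.tw (.dx 0 (.tw (.lf 13) (.tr (.tw (.lf 5) (.lf 6)) (.lf 9) (.lf 17)))) (.lf 10)) (.lf 14) (.lf 18)), 0, [10, 10, 39, 39, 0, 0, 39, 39, 12, 12, 12, 12, 12, 12, 12, 12], []⟩)))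
    (.nd (.nd (.lf ⟨[.negSucc 106657919, .ofNat 335954400, .negSucc 342322559, .ofNat 129919200, .negSucc 21335999], (.tr (.tw (.dx 0 (.tr (.lf 5) (.tr (.lf 6) (.lf 9) (.lf 17)) (.lf 13))) (.lf 10)) (.lf 14) (.lf 18)), 0, [0, 39, 39, 39, 12, 12, 12, 12], []⟩)
    (.lf ⟨[.ofNat 44320320, .negSucc 158313519, .ofNat 167240560, .negSucc 59675919, .ofNat 9479280], (.tr (.lf 10) (.dx 0 (.tw (.lf 13) (.tr (.lf 5) (.tw (.lf 9) (.lf 17)) (.lf 6)))) (.tw (.lf 14) (.lf 18))), 0, [12, 12, 12, 12, 12, 12, 12, 12, 12, 5, 12, 5, 12, 5, 12, 5], []⟩))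
    (.nd (.lf ⟨[.negSucc 48239999, .ofNat 126560160, .negSucc 121837439, .ofNat 42272160, .negSucc 6583679], (.tr (.tw (.dx 0 (.tr (.lf 5) (.lf 17) (.tr (.lf 9) (.lf 6) (.lf 13)))) (.lf 10)) (.lf 14) (.lf 18)), 0, [39, 39, 39, 39, 12, 12, 12, 12], []⟩)
    (.lf ⟨[.ofNat 98084160, .negSucc 287795759, .ofNat 287313600, .negSucc 105587759, .ofNat 17129760], (.tr (.dx 0 (.tr (.lf 5) (.lf 17) (.tr (.lf 9) (.lf 6) (.lf 13)))) (.lf 10) (.tw (.lf 14) (.lf 18))), 0, [39, 5, 39, 5, 39, 20, 39, 10], []⟩))))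

/-- data -/
def dV12x9 : RT := (.nd (.nd (.nd (.lf ⟨[.negSucc 4031999, .ofNat 12480000, .negSucc 11346239, .ofNat 4053120, .negSucc 609599], (.tr (.lf 18) (.lf 6) (.tr (.lf 9) (.dx 0 (.tw (.lf 5) (.lf 17))) (.tr (.lf 13) (.lf 10) (.lf 14)))), 0, [37, 37, 37, 37, 26, 26, 26, 26], [37, 37, 13, 13]⟩)
    (.lf ⟨[.negSucc 50565599, .ofNat 148414920, .negSucc 149413439, .ofNat 56584200, .negSucc 9357359], (.tr (.tw (.dx 0 (.tw (.lf 9) (.tr (.lf 5) (.tw (.lf 13) (.lf 17)) (.lf 6)))) (.lf 10)) (.lf 14) (.lf 18)), 0, [39, 39, 39, 39, 39, 39, 39, 39, 12, 12, 12, 12, 12, 12, 12, 12], []⟩))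
    (.nd (.lf ⟨[.ofNat 29675520, .negSucc 80277119, .ofNat 78021600, .negSucc 28979519, .ofNat 4693920], (.tr (.lf 6) (.tr (.dx 0 (.tw (.lf 5) (.lf 17))) (.tr (.lf 9) (.lf 13) (.lf 10)) (.lf 18)) (.lf 14)), 0, [32, 32, 32, 32, 16, 16, 16, 16], [5, 5, 23, 23]⟩)
    (.lf ⟨[.ofNat 50565600, .negSucc 148754759, .ofNat 150006240, .negSucc 56898119, .ofNat 9418320], (.tr (.lf 10) (.tw (.dx 0 (.tw (.lf 9) (.tr (.lf 5) (.tw (.lf 13) (.lf 17)) (.lf 6)))) (.lf 14)) (.lf 18)), 0, [12, 12, 12, 12, 12, 12, 12, 12, 3, 3, 3, 3, 3, 3, 3, 3], []⟩)))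
    (.nd (.nd (.lf ⟨[.ofNat 116712000, .negSucc 277854959, .ofNat 265253760, .negSucc 93268079, .ofNat 14935200], (.tr (.tw (.dx 0 (.tr (.lf 17) (.lf 9) (.tr (.lf 5) (.lf 6) (.lf 13)))) (.lf 10)) (.lf 14) (.lf 18)), 0, [39, 39, 0, 10, 12, 12, 12, 12], []⟩)
    (.lf ⟨[.negSucc 128197439, .ofNat 387498800, .negSucc 390491839, .ofNat 144015920, .negSucc 23225759], (.tr (.tw (.dx 0 (.tr (.lf 5) (.tr (.lf 6) (.lf 13) (.lf 9)) (.lf 17))) (.lf 10)) (.lf 14) (.lf 18)), 0, [0, 0, 39, 39, 12, 12, 12, 12], []⟩))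
    (.nd (.lf ⟨[.negSucc 145229759, .ofNat 448637200, .negSucc 461951439, .ofNat 164647600, .negSucc 26669999], (.tr (.tw (.dx 0 (.tw (.lf 17) (.tr (.tw (.lf 5) (.lf 6)) (.lf 13) (.lf 9)))) (.lf 10)) (.lf 14) (.lf 18)), 0, [39, 39, 39, 39, 0, 0, 39, 39, 39, 39, 12, 12, 12, 12, 12, 12], []⟩)
    (.lf ⟨[.negSucc 5601599, .negSucc 9182159, .ofNat 16344960, .negSucc 6791759, .ofNat 1158240], (.tr (.lf 13) (.lf 17) (.tr (.dx 0 (.tw (.lf 5) (.lf 9))) (.tr (.lf 14) (.lf 6) (.lf 18)) (.lf 10))), 0, [29, 4, 29, 4, 21, 1, 21, 1], [4, 4, 4, 11]⟩))))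

/-- data -/
def dV12x10 : RT := (.nd (.nd (.nd (.lf ⟨[.ofNat 0, .negSucc 2678399, .ofNat 3342720, .negSucc 1441919, .ofNat 243840], (.tr (.dx 0 (.tr (.lf 17) (.lf 9) (.tr (.lf 5) (.lf 6) (.lf 13)))) (.lf 10) (.tw (.lf 14) (.lf 18))), 0, [39, 30, 39, 30, 0, 0, 10, 10], []⟩)
    (.lf ⟨[.ofNat 46493280, .negSucc 163975079, .ofNat 175703760, .negSucc 65583239, .ofNat 10789920], (.tr (.dx 0 (.tw (.lf 13) (.tr (.tw (.lf 5) (.lf 6)) (.lf 9) (.lf 17)))) (.lf 10) (.tw (.lf 14) (.lf 18))), 0, [10, 10, 10, 10, 39, 10, 39, 10, 0, 0, 0, 0, 39, 30, 39, 30], []⟩))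
    (.nd (.lf ⟨[.ofNat 242550720, .negSucc 681245199, .ofNat 680146240, .negSucc 243646479, .ofNat 39319200], (.tr (.dx 0 (.tr (.lf 13) (.lf 17) (.tr (.lf 5) (.lf 6) (.lf 9)))) (.lf 10) (.tw (.lf 14) (.lf 18))), 0, [39, 10, 39, 10, 0, 0, 39, 20], []⟩)
    (.lf ⟨[.negSucc 39235679, .ofNat 108202600, .negSucc 109236159, .ofNat 38213800, .negSucc 6065519], (.tr (.dx 0 (.tw (.lf 9) (.tr (.tw (.lf 5) (.lf 6)) (.lf 17) (.lf 13)))) (.lf 10) (.tw (.lf 14) (.lf 18))), 0, [39, 20, 39, 20, 39, 20, 39, 20, 0, 0, 0, 0, 39, 10, 39, 10], []⟩)))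
    (.nd (.nd (.lf ⟨[.ofNat 98003520, .negSucc 285696239, .ofNat 284888640, .negSucc 104782319, .ofNat 17007840], (.tr (.dx 0 (.tr (.lf 5) (.tr (.lf 6) (.lf 17) (.lf 13)) (.lf 9))) (.lf 10) (.tw (.lf 14) (.lf 18))), 0, [0, 0, 39, 0, 39, 20, 39, 20], []⟩)
    (.lf ⟨[.negSucc 47450879, .ofNat 140613120, .negSucc 138900959, .ofNat 52265280, .negSucc 8534399], (.tr (.dx 0 (.tw (.lf 9) (.tr (.tw (.lf 5) (.lf 6)) (.lf 17) (.lf 13)))) (.tw (.lf 10) (.lf 14)) (.lf 18)), 0, [39, 15, 39, 15, 39, 15, 39, 15, 0, 0, 0, 0, 39, 15, 39, 15], []⟩))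
    (.nd (.lf ⟨[.negSucc 164079359, .ofNat 464840000, .negSucc 461673919, .ofNat 167218880, .negSucc 27188159], (.tr (.tw (.dx 0 (.tr (.lf 5) (.tr (.lf 6) (.lf 17) (.lf 13)) (.lf 9))) (.lf 10)) (.lf 18) (.lf 14)), 0, [0, 0, 20, 20, 5, 5, 12, 12], []⟩)
    (.lf ⟨[.ofNat 66075840, .negSucc 178464079, .ofNat 175599680, .negSucc 61808719, .ofNat 10058400], (.tr (.tw (.dx 0 (.tr (.lf 5) (.lf 13) (.tr (.lf 9) (.lf 6) (.lf 17)))) (.lf 10)) (.lf 18) (.lf 14)), 0, [0, 0, 20, 5, 5, 5, 12, 5], []⟩))))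

/-- data -/
def dV12x11 : RT := (.nd (.nd (.nd (.lf ⟨[.ofNat 46533600, .negSucc 148566599, .ofNat 152107200, .negSucc 57332999, .ofNat 9357360], (.tr (.dx 0 (.tw (.lf 9) (.tr (.tw (.lf 5) (.lf 6)) (.lf 17) (.lf 13)))) (.lf 14) (.tw (.lf 10) (.lf 18))), 0, [15, 20, 15, 20, 15, 29, 15, 29, 0, 0, 0, 0, 15, 10, 15, 10], []⟩)
    (.lf ⟨[.ofNat 4936320, .negSucc 7559519, .ofNat 2240640, .negSucc 56159, .negSucc 121919], (.tr (.lf 10) (.tw (.dx 0 (.tr (.lf 5) (.tr (.lf 6) (.lf 17) (.lf 13)) (.lf 9))) (.lf 18)) (.lf 14)), 0, [5, 5, 12, 12, 23, 23, 28, 28], []⟩))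
    (.nd (.lf ⟨[.negSucc 100267199, .ofNat 261482960, .negSucc 254236159, .ofNat 90896720, .negSucc 14691359], (.tr (.tw (.dx 0 (.tr (.lf 5) (.tr (.lf 6) (.lf 17) (.lf 13)) (.lf 9))) (.lf 14)) (.lf 18) (.lf 10)), 0, [0, 29, 20, 29, 29, 29, 22, 22], []⟩)
    (.lf ⟨[.ofNat 63766080, .negSucc 118208239, .ofNat 100990400, .negSucc 32664559, .ofNat 4815840], (.tr (.dx 0 (.tr (.lf 5) (.tr (.lf 6) (.lf 17) (.lf 13)) (.lf 9))) (.lf 14) (.tw (.lf 10) (.lf 18))), 0, [0, 0, 15, 29, 15, 20, 15, 29], []⟩)))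
    (.nd (.nd (.lf ⟨[.ofNat 75369600, .negSucc 211935199, .ofNat 211385600, .negSucc 76175839, .ofNat 12192000], (.tr (.dx 0 (.tr (.lf 5) (.lf 6) (.tr (.lf 9) (.lf 13) (.lf 17)))) (.lf 10) (.tw (.lf 14) (.lf 18))), 0, [0, 0, 0, 0, 39, 20, 30, 30], []⟩)
    (.lf ⟨[.negSucc 976319, .ofNat 60240, .ofNat 1437600, .negSucc 557039, .ofNat 121920], (.tr (.tw (.dx 0 (.tw (.lf 17) (.tr (.tw (.lf 5) (.lf 6)) (.lf 9) (.lf 13)))) (.lf 10)) (.lf 18) (.lf 14)), 0, [5, 5, 30, 30, 0, 0, 5, 5, 5, 5, 5, 5, 5, 5, 12, 12], []⟩))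
    (.nd (.lf ⟨[.negSucc 61931519, .ofNat 136793600, .negSucc 130745599, .ofNat 44241920, .negSucc 6705599], (.tr (.tw (.dx 0 (.tr (.lf 5) (.tr (.lf 6) (.lf 17) (.lf 13)) (.lf 9))) (.lf 14)) (.lf 10) (.lf 18)), 0, [0, 15, 15, 15, 15, 15, 15, 22], []⟩)
    (.lf ⟨[.negSucc 95852159, .ofNat 300925920, .negSucc 304569599, .ofNat 115642080, .negSucc 19019519], (.tr (.lf 14) (.tw (.dx 0 (.tr (.lf 5) (.tr (.lf 6) (.lf 17) (.lf 13)) (.lf 9))) (.lf 10)) (.lf 18)), 0, [15, 15, 15, 22, 36, 3, 3, 3], []⟩))))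

/-- data -/
def dV12x12 : RT := (.nd (.nd (.nd (.lf ⟨[.ofNat 272494080, .negSucc 902745599, .ofNat 937963680, .negSucc 343056959, .ofNat 55900320], (.tr (.tw (.dx 0 (.tr (.lf 5) (.lf 6) (.tr (.lf 9) (.lf 13) (.lf 17)))) (.lf 14)) (.lf 18) (.lf 10)), 0, [0, 0, 29, 30, 29, 29, 22, 22], []⟩)
    (.lf ⟨[.ofNat 178070400, .negSucc 580247839, .ofNat 597069440, .negSucc 212103199, .ofNat 34015680], (.tr (.tw (.lf 10) (.lf 18)) (.dx 0 (.tr (.lf 5) (.lf 6) (.tr (.lf 9) (.lf 13) (.lf 17)))) (.lf 14)), 0, [23, 23, 28, 28, 14, 23, 14, 14], []⟩))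
    (.nd (.lf ⟨[.negSucc 4031999, .ofNat 6809280, .negSucc 5021759, .ofNat 2345280, .negSucc 426719], (.tr (.tw (.dx 0 (.tw (.lf 9) (.tr (.lf 5) (.tw (.lf 13) (.lf 17)) (.lf 6)))) (.lf 14)) (.lf 18) (.lf 10)), 0, [29, 20, 29, 20, 29, 29, 29, 29, 22, 22, 22, 22, 29, 29, 29, 29], []⟩)
    (.lf ⟨[.ofNat 16858080, .negSucc 68324039, .ofNat 74241360, .negSucc 27793319, .ofNat 4632960], (.tr (.lf 9) (.dx 0 (.tw (.lf 5) (.lf 17))) (.tr (.lf 13) (.tr (.lf 10) (.lf 6) (.lf 18)) (.lf 14))), 0, [5, 37, 5, 37, 5, 37, 5, 37], [12, 37, 12, 37]⟩)))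
    (.nd (.nd (.lf ⟨[.negSucc 134801279, .ofNat 446237280, .negSucc 463492559, .ofNat 169322880, .negSucc 27584399], (.tr (.tw (.dx 0 (.tw (.lf 17) (.tr (.tw (.lf 5) (.lf 6)) (.lf 9) (.lf 13)))) (.lf 14)) (.lf 18) (.lf 10)), 0, [29, 29, 30, 30, 0, 0, 29, 29, 22, 22, 22, 22, 29, 29, 22, 22], []⟩)
    (.lf ⟨[.ofNat 30075840, .negSucc 155636239, .ofNat 177952160, .negSucc 63930319, .ofNat 10363200], (.tr (.lf 10) (.tw (.dx 0 (.tr (.lf 17) (.lf 5) (.tr (.lf 6) (.lf 9) (.lf 13)))) (.lf 18)) (.lf 14)), 0, [5, 5, 5, 12, 23, 28, 23, 23], []⟩))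
    (.nd (.lf ⟨[.negSucc 142318079, .ofNat 522808320, .negSucc 552960959, .ofNat 201816960, .negSucc 32430719], (.tr (.lf 10) (.tw (.dx 0 (.tr (.lf 5) (.lf 9) (.tr (.lf 13) (.lf 6) (.lf 17)))) (.lf 18)) (.lf 14)), 0, [5, 5, 12, 5, 23, 23, 23, 28], []⟩)
    (.lf ⟨[.negSucc 21467519, .ofNat 53557920, .negSucc 53909759, .ofNat 20280480, .negSucc 3291839], (.tr (.lf 10) (.tw (.dx 0 (.tr (.lf 13) (.lf 9) (.tr (.lf 5) (.lf 6) (.lf 17)))) (.lf 18)) (.lf 14)), 0, [12, 12, 5, 5, 23, 28, 23, 23], []⟩))))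

/-- data -/
def dV12x13 : RT := (.nd (.nd (.nd (.lf ⟨[.negSucc 16312319, .ofNat 72459520, .negSucc 81498879, .ofNat 30895360, .negSucc 5120639], (.tr (.lf 10) (.tw (.dx 0 (.tr (.lf 5) (.lf 9) (.tr (.lf 13) (.lf 6) (.lf 17)))) (.lf 14)) (.lf 18)), 0, [12, 12, 12, 12, 3, 6, 3, 3], []⟩)
    (.lf ⟨[.negSucc 54586079, .ofNat 186133640, .negSucc 197770159, .ofNat 70944680, .negSucc 11582399], (.tr (.lf 10) (.tw (.dx 0 (.tw (.lf 13) (.tr (.lf 5) (.tw (.lf 9) (.lf 17)) (.lf 6)))) (.lf 14)) (.lf 18)), 0, [12, 12, 12, 12, 12, 12, 12, 12, 3, 3, 3, 3, 6, 6, 6, 6], []⟩))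
    (.nd (.lf ⟨[.ofNat 0, .negSucc 2741759, .ofNat 3369600, .negSucc 1582079, .ofNat 243840], (.tr (.lf 13) (.tr (.dx 0 (.lf 5)) (.tr (.tw (.lf 9) (.lf 10)) (.lf 14) (.lf 17)) (.lf 6)) (.lf 18)), 0, [27, 27, 22, 22, 3, 3, 18, 18], [27, 27, 22, 22, 3, 3, 18, 18]⟩)
    (.lf ⟨[.ofNat 0, .ofNat 8778240, .negSucc 9119999, .ofNat 3582720, .negSucc 487679], (.tr (.lf 9) (.tr (.dx 0 .on) (.tr (.tw (.lf 5) (.lf 6)) (.lf 10) (.lf 13)) (.lf 19)) (.lf 14)), 0, [5, 5, 12, 12, 23, 23, 23, 23], [5, 5, 12, 12, 23, 23, 28, 28]⟩)))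
    (.nd (.nd (.lf ⟨[.ofNat 51958080, .negSucc 155475119, .ofNat 155767920, .negSucc 59095439, .ofNat 9784080], (.tr (.dx 0 (.tw (.lf 9) (.tr (.lf 5) (.tw (.lf 13) (.lf 17)) (.lf 6)))) (.tw (.lf 14) (.lf 18)) (.lf 10)), 0, [29, 7, 20, 7, 29, 7, 20, 7, 29, 7, 29, 7, 29, 7, 29, 7], []⟩)
    (.lf ⟨[.negSucc 54597599, .ofNat 158642760, .negSucc 157948799, .ofNat 59725320, .negSucc 9845039], (.tr (.tw (.dx 0 (.tw (.lf 9) (.tr (.lf 5) (.tw (.lf 13) (.lf 17)) (.lf 6)))) (.lf 18)) (.lf 14) (.lf 10)), 0, [7, 7, 7, 7, 7, 7, 7, 7, 2, 2, 2, 2, 2, 2, 2, 2], []⟩))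
    (.nd (.lf ⟨[.ofNat 0, .negSucc 201599, .ofNat 445200, .negSucc 149279, .ofNat 30480], (.tr (.lf 9) (.dx 0 (.tw (.lf 5) (.lf 17))) (.tr (.lf 13) (.tr (.lf 6) (.lf 18) (.lf 10)) (.lf 14))), 0, [12, 19, 12, 19, 37, 19, 37, 19], [12, 12, 12, 12]⟩)
    (.lf ⟨[.ofNat 2784960, .negSucc 3792719, .ofNat 355200, .negSucc 976079, .ofNat 304800], (.tr (.tw (.dx 0 (.tr (.lf 5) (.tr (.lf 6) (.lf 17) (.lf 13)) (.lf 9))) (.lf 18)) (.lf 10) (.lf 14)), 0, [0, 0, 20, 20, 2, 2, 2, 37], []⟩))))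

/-- data -/
def dV12x14 : RT := (.nd (.nd (.nd (.lf ⟨[.ofNat 5279040, .negSucc 5609519, .ofNat 4186560, .negSucc 1293359, .ofNat 182880], (.tr (.dx 0 (.tr (.lf 5) (.tr (.lf 6) (.lf 17) (.lf 13)) (.lf 9))) (.lf 18) (.tw (.lf 10) (.lf 14))), 0, [0, 0, 0, 7, 20, 7, 20, 7], []⟩)
    (.lf ⟨[.negSucc 5279039, .ofNat 5609520, .negSucc 4186559, .ofNat 1293360, .negSucc 182879], (.tr (.dx 0 (.tr (.lf 9) (.lf 13) (.tr (.lf 5) (.lf 6) (.lf 17)))) (.tw (.lf 14) (.lf 18)) (.lf 10)), 0, [29, 7, 29, 7, 0, 0, 29, 7], []⟩))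
    (.nd (.lf ⟨[.ofNat 5895360, .negSucc 24582479, .ofNat 29412480, .negSucc 11386319, .ofNat 1889760], (.tw (.dx 0 (.tr (.lf 5) (.tr (.lf 6) (.lf 13) (.tr (.lf 9) (.lf 17) (.lf 14))) (.lf 10))) (.lf 18)), 0, [0, 0, 0, 3, 3, 3, 20, 3], []⟩)
    (.lf ⟨[.negSucc 17067599, .ofNat 48856300, .negSucc 50087919, .ofNat 19361260, .negSucc 3215639], (.tw (.lf 10) (.tr (.lf 13) (.tr (.dx 0 (.tw (.lf 5) (.lf 9))) (.lf 6) (.tw (.lf 17) (.lf 18))) (.lf 14))), 0, [5, 5, 5, 5, 6, 6, 6, 6, 5, 5, 5, 5, 6, 6, 6, 6], [5, 5, 6, 6, 5, 5, 6, 6]⟩)))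
    (.nd (.nd (.lf ⟨[.negSucc 13309919, .ofNat 40398600, .negSucc 42599039, .ofNat 16207560, .negSucc 2651759], (.tw (.dx 0 (.tr (.lf 5) (.tw (.lf 9) (.tr (.lf 6) (.tw (.lf 13) (.lf 14)) (.lf 17))) (.lf 10))) (.lf 18)), 0, [0, 0, 0, 0, 0, 0, 3, 3, 20, 20, 20, 20, 3, 3, 3, 3], []⟩)
    (.lf ⟨[.ofNat 26727840, .negSucc 66050519, .ofNat 61295280, .negSucc 22840439, .ofNat 3657600], (.tw (.dx 0 (.tw (.lf 5) (.tr (.lf 13) (.lf 17) (.tr (.lf 9) (.tw (.lf 6) (.lf 14)) (.lf 10))))) (.lf 18)), 0, [0, 3, 0, 3, 0, 0, 0, 0, 3, 3, 3, 3, 3, 3, 3, 3], []⟩))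
    (.nd (.lf ⟨[.negSucc 8781119, .ofNat 21918000, .negSucc 23078399, .ofNat 9201840, .negSucc 1523999], (.tr (.lf 5) (.lf 17) (.tr (.lf 9) (.dx 0 .on) (.tr (.lf 18) (.lf 6) (.tr (.lf 13) (.lf 10) (.lf 14))))), 0, [37, 37, 16, 16, 16, 16, 13, 13], [37, 37, 16, 16, 16, 16, 16, 16]⟩)
    (.lf ⟨[.negSucc 17135999, .ofNat 46091040, .negSucc 48473279, .ofNat 19136160, .negSucc 3169919], (.tr (.lf 5) (.lf 17) (.tr (.lf 18) (.lf 6) (.tr (.lf 9) (.dx 0 .on) (.tr (.lf 13) (.lf 10) (.lf 14))))), 0, [37, 37, 16, 16, 16, 16, 16, 16], [37, 37, 16, 16, 16, 16, 16, 16]⟩))))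

/-- data -/
def dV12x15 : RT := (.nd (.nd (.nd (.lf ⟨[.ofNat 12421440, .negSucc 28522799, .ofNat 27284160, .negSucc 10371119, .ofNat 1645920], (.tr (.lf 17) (.lf 5) (.tr (.lf 6) (.tr (.dx 0 .on) (.tr (.lf 9) (.lf 13) (.lf 10)) (.lf 18)) (.lf 14))), 0, [26, 26, 26, 26, 26, 26, 33, 33], [26, 26, 26, 26, 26, 26, 26, 26]⟩)
    (.lf ⟨[.negSucc 23246639, .ofNat 81987540, .negSucc 87851879, .ofNat 32791620, .negSucc 5394959], (.tw (.lf 6) (.tr (.lf 13) (.tr (.dx 0 (.tw (.lf 5) (.lf 9))) (.tw (.lf 17) (.lf 18)) (.lf 10)) (.lf 14))), 0, [24, 24, 24, 24, 23, 24, 23, 24, 24, 24, 24, 24, 23, 24, 23, 24], [24, 24, 23, 23, 24, 24, 23, 23]⟩))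
    (.nd (.lf ⟨[.negSucc 34394399, .ofNat 94724280, .negSucc 93264959, .ofNat 35026680, .negSucc 5638799], (.tr (.lf 6) (.lf 13) (.tw (.dx 0 (.tw (.lf 5) (.lf 9))) (.tr (.lf 14) (.lf 10) (.tw (.lf 17) (.lf 18))))), 0, [15, 15, 24, 24, 15, 15, 24, 24, 24, 24, 24, 24, 21, 1, 21, 1], [15, 15, 24, 24, 31, 31, 11, 11]⟩)
    (.lf ⟨[.ofNat 292320, .negSucc 2154119, .ofNat 4161600, .negSucc 1836359, .ofNat 335280], (.tw (.dx 0 (.tw (.lf 9) (.tr (.lf 5) (.lf 17) (.tr (.lf 10) (.lf 6) (.tw (.lf 13) (.lf 14)))))) (.lf 18)), 0, [20, 20, 3, 3, 20, 20, 3, 3, 3, 3, 3, 3, 3, 3, 10, 10], []⟩)))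
    (.nd (.nd (.lf ⟨[.ofNat 13737600, .negSucc 34135199, .ofNat 32313480, .negSucc 11860079, .ofNat 1905000], (.tw (.lf 6) (.tr (.lf 17) (.tr (.dx 0 (.tw (.lf 5) (.lf 9))) (.lf 10) (.tw (.lf 13) (.lf 14))) (.lf 18))), 0, [39, 39, 39, 39, 3, 3, 3, 3, 39, 39, 39, 39, 3, 3, 3, 3], [39, 39, 3, 3, 39, 39, 3, 3]⟩)
    (.lf ⟨[.ofNat 82434240, .negSucc 248971599, .ofNat 251800000, .negSucc 89895759, .ofNat 14447520], (.tr (.lf 9) (.lf 13) (.tr (.tw (.dx 0 (.tr (.lf 5) (.lf 6) (.lf 17))) (.lf 14)) (.lf 10) (.lf 18))), 0, [15, 15, 6, 6, 6, 6, 6, 1], []⟩))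
    (.nd (.lf ⟨[.ofNat 0, .ofNat 403200, .negSucc 890399, .ofNat 298560, .negSucc 60959], (.tw (.dx 0 (.tr (.lf 9) (.tr (.lf 5) (.lf 17) (.tr (.lf 10) (.lf 6) (.lf 13))) (.lf 14))) (.lf 18)), 0, [20, 20, 20, 3, 10, 10, 3, 10], []⟩)
    (.lf ⟨[.ofNat 4338720, .negSucc 12778679, .ofNat 13188000, .negSucc 5048759, .ofNat 822960], (.tr (.lf 5) (.dx 0 .on) (.tr (.lf 13) (.lf 9) (.tr (.lf 17) (.tr (.lf 6) (.lf 10) (.lf 14)) (.lf 18)))), 0, [32, 32, 32, 32, 32, 32, 32, 32], [39, 32, 39, 32, 32, 32, 32, 32]⟩))))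

/-- data -/
def dV12x16 : RT := (.nd (.nd (.nd (.lf ⟨[.ofNat 5526720, .negSucc 27477839, .ofNat 30797760, .negSucc 12444239, .ofNat 2011680], (.tr (.lf 10) (.lf 13) (.tr (.lf 14) (.dx 0 (.tw (.lf 5) (.lf 9))) (.tr (.lf 6) (.lf 17) (.lf 18)))), 0, [27, 17, 27, 17, 23, 23, 6, 6], [27, 6, 23, 6]⟩)
    (.lf ⟨[.negSucc 2303999, .ofNat 8044800, .negSucc 4847999, .ofNat 2115840, .negSucc 243839], (.tr (.lf 6) (.tr (.lf 13) (.tr (.lf 14) (.dx 0 (.tw (.lf 5) (.lf 9))) (.lf 17)) (.lf 18)) (.lf 10)), 0, [24, 24, 29, 29, 7, 7, 16, 16], [24, 29, 7, 7]⟩))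
    (.nd (.lf ⟨[.ofNat 55255680, .negSucc 143898719, .ofNat 135783360, .negSucc 50573279, .ofNat 8046720], (.tr (.lf 6) (.lf 17) (.tr (.lf 18) (.dx 0 (.tw (.lf 5) (.lf 9))) (.tr (.lf 10) (.lf 13) (.lf 14)))), 0, [37, 16, 37, 16, 16, 3, 3, 3], [37, 7, 16, 3]⟩)
    (.lf ⟨[.negSucc 116781119, .ofNat 304980720, .negSucc 294853439, .ofNat 110173680, .negSucc 17739359], (.tr (.lf 17) (.dx 0 (.tw (.lf 5) (.lf 9))) (.tr (.lf 6) (.lf 18) (.tr (.lf 10) (.lf 13) (.lf 14)))), 0, [37, 7, 2, 2, 37, 7, 2, 17], [37, 7, 2, 17]⟩)))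
    (.nd (.nd (.lf ⟨[.negSucc 2462399, .ofNat 23647440, .negSucc 29019839, .ofNat 12200400, .negSucc 2011679], (.tr (.lf 10) (.lf 13) (.tr (.lf 14) (.tr (.dx 0 (.tw (.lf 5) (.lf 9))) (.lf 6) (.lf 17)) (.lf 18))), 0, [27, 27, 6, 6, 6, 6, 6, 6], [27, 6, 6, 6]⟩)
    (.lf ⟨[.ofNat 61813440, .negSucc 184915919, .ofNat 184993920, .negSucc 70585679, .ofNat 11399520], (.tr (.lf 10) (.lf 13) (.tr (.lf 17) (.dx 0 (.tw (.lf 5) (.lf 9))) (.tr (.lf 6) (.lf 18) (.lf 14)))), 0, [6, 6, 6, 6, 3, 3, 6, 6], [6, 6, 3, 6]⟩))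
    (.nd (.lf ⟨[.negSucc 118702079, .ofNat 310740480, .negSucc 300249599, .ofNat 112335360, .negSucc 18044159], (.tr (.lf 9) (.lf 6) (.tr (.lf 13) (.lf 10) (.tr (.dx 0 (.tw (.lf 5) (.lf 17))) (.lf 14) (.lf 18)))), 0, [34, 34, 31, 1, 34, 34, 34, 37], [34, 11, 34, 37]⟩)
    (.lf ⟨[.ofNat 116749440, .negSucc 313891679, .ofNat 305020800, .negSucc 114680159, .ofNat 18409920], (.tr (.lf 9) (.lf 6) (.tr (.dx 0 (.tw (.lf 5) (.lf 17))) (.tr (.lf 10) (.lf 18) (.lf 13)) (.lf 14))), 0, [5, 34, 5, 34, 31, 1, 31, 1], [5, 34, 11, 21]⟩))))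

/-- data -/
def dV12x17 : RT := (.nd (.nd (.nd (.lf ⟨[.ofNat 19357920, .negSucc 45815879, .ofNat 42416880, .negSucc 15821159, .ofNat 2529840], (.tw (.dx 0 (.tw (.lf 5) (.lf 17))) (.tr (.lf 9) (.lf 6) (.tr (.lf 13) (.tw (.lf 10) (.lf 18)) (.lf 14)))), 0, [0, 0, 0, 0, 0, 0, 0, 0, 5, 37, 5, 37, 30, 30, 30, 30], [20, 20, 20, 20, 35, 10, 35, 10]⟩)
    (.lf ⟨[.ofNat 18381600, .negSucc 46746359, .ofNat 44118000, .negSucc 16765079, .ofNat 2712720], (.tr (.dx 0 (.tw (.lf 5) (.lf 17))) (.lf 9) (.tr (.lf 13) (.tr (.lf 6) (.lf 10) (.lf 18)) (.lf 14))), 0, [0, 19, 0, 19, 30, 19, 30, 19], [5, 19, 5, 19]⟩))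
    (.nd (.lf ⟨[.ofNat 10317600, .negSucc 31707959, .ofNat 32402640, .negSucc 12312599, .ofNat 1981200], (.tw (.dx 0 (.tw (.lf 5) (.lf 17))) (.tr (.lf 13) (.lf 6) (.tr (.lf 9) (.tw (.lf 14) (.lf 18)) (.lf 10)))), 0, [29, 7, 29, 7, 19, 19, 19, 19, 29, 7, 29, 7, 19, 19, 19, 19], [10, 7, 10, 7, 19, 20, 19, 20]⟩)
    (.lf ⟨[.ofNat 3064320, .negSucc 3830399, .ofNat 1777920, .negSucc 243839], (.tr (.lf 6) (.tr (.lf 10) (.lf 17) (.tr (.lf 13) (.dx 0 (.tw (.lf 5) (.lf 9))) (.lf 18))) (.lf 14)), 0, [5, 5, 23, 23, 24, 24, 16, 16], [5, 23, 24, 16]⟩)))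
    (.nd (.nd (.lf ⟨[.negSucc 57398399, .ofNat 156470880, .negSucc 152439359, .ofNat 57565920, .negSucc 9265919], (.tr (.lf 13) (.lf 10) (.tr (.lf 6) (.lf 17) (.tr (.dx 0 (.tw (.lf 5) (.lf 9))) (.lf 14) (.lf 18)))), 0, [36, 36, 36, 1, 17, 17, 17, 17], [36, 36, 17, 17]⟩)
    (.lf ⟨[.ofNat 16377120, .negSucc 45205559, .ofNat 44418240, .negSucc 16832759, .ofNat 2712720], (.tw (.dx 0 (.tw (.lf 5) (.lf 9))) (.tr (.lf 13) (.lf 10) (.tr (.lf 6) (.lf 14) (.tw (.lf 17) (.lf 18))))), 0, [39, 39, 0, 0, 0, 0, 0, 0, 39, 39, 20, 20, 20, 20, 37, 37], [39, 39, 10, 10, 0, 0, 30, 30]⟩))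
    (.nd (.lf ⟨[.negSucc 10414079, .ofNat 31848960, .negSucc 31866239, .ofNat 12071040, .negSucc 1950719], (.tw (.lf 13) (.tr (.dx 0 (.tw (.lf 5) (.lf 9))) (.tr (.lf 6) (.lf 14) (.tw (.lf 17) (.lf 18))) (.lf 10))), 0, [29, 29, 22, 22, 29, 29, 22, 22, 36, 1, 36, 1, 21, 1, 21, 1], [29, 29, 22, 22, 31, 31, 1, 1]⟩)
    (.lf ⟨[.ofNat 3847680, .negSucc 4475519, .ofNat 1777920, .negSucc 243839], (.tr (.lf 5) (.lf 9) (.tr (.lf 13) (.lf 6) (.tr (.lf 17) (.lf 14) (.tr (.dx 0 .on) (.lf 18) (.lf 10))))), 0, [8, 31, 8, 8, 19, 8, 19, 8], [8, 8, 8, 8, 19, 8, 19, 8]⟩))))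

/-- data -/
def dV12x18 : RT := (.nd (.nd (.nd (.lf ⟨[.ofNat 2142720, .negSucc 16160639, .ofNat 20605440, .negSucc 8542079, .ofNat 1463040], (.tr (.lf 5) (.lf 9) (.tr (.lf 10) (.lf 17) (.tr (.lf 13) (.lf 6) (.tr (.dx 0 .on) (.lf 14) (.lf 18))))), 0, [8, 11, 8, 8, 29, 8, 29, 8], [8, 8, 8, 8, 29, 8, 29, 8]⟩)
    (.lf ⟨[.ofNat 10414080, .negSucc 30509759, .ofNat 30194880, .negSucc 11350079, .ofNat 1828800], (.tw (.lf 10) (.tr (.lf 13) (.dx 0 (.tw (.lf 5) (.lf 9))) (.tr (.lf 6) (.lf 14) (.tw (.lf 17) (.lf 18))))), 0, [39, 39, 6, 6, 39, 39, 6, 6, 23, 23, 23, 23, 28, 28, 28, 28], [39, 39, 6, 6, 23, 23, 28, 28]⟩))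
    (.nd (.lf ⟨[.ofNat 2756160, .ofNat 6370320, .negSucc 10357439, .ofNat 4500240, .negSucc 792479], (.tr (.lf 17) (.lf 18) (.tr (.lf 13) (.lf 6) (.tr (.dx 0 (.tw (.lf 5) (.lf 9))) (.lf 14) (.lf 10)))), 0, [38, 38, 38, 38, 2, 2, 14, 14], [38, 38, 2, 14]⟩)
    (.lf ⟨[.ofNat 0, .negSucc 4757759, .ofNat 4782720, .negSucc 2000639, .ofNat 243840], (.tr (.lf 13) (.lf 6) (.tr (.lf 10) (.tr (.lf 14) (.dx 0 (.tw (.lf 5) (.lf 9))) (.lf 17)) (.lf 18))), 0, [3, 3, 18, 18, 18, 18, 18, 18], [3, 18, 18, 18]⟩)))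
    (.nd (.nd (.lf ⟨[.ofNat 5990400, .negSucc 17635199, .ofNat 19328640, .negSucc 7343999, .ofNat 1219200], (.tr (.tw (.dx 0 (.tr (.lf 5) (.tr (.lf 6) (.lf 13) (.lf 9)) (.lf 17))) (.lf 14)) (.lf 10) (.lf 18)), 0, [0, 0, 15, 30, 15, 15, 15, 15], []⟩)
    (.lf ⟨[.ofNat 7886880, .negSucc 18284279, .ofNat 16244160, .negSucc 6381239, .ofNat 1005840], (.tr (.lf 14) (.lf 10) (.tr (.dx 0 (.tr (.lf 5) (.lf 13) (.lf 9))) (.tw (.lf 17) (.lf 18)) (.lf 6))), 0, [17, 17, 17, 17, 36, 36, 36, 36], [17, 17, 31, 31]⟩))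
    (.nd (.lf ⟨[.negSucc 10882079, .ofNat 27101880, .negSucc 25908479, .ofNat 10053240, .negSucc 1615439], (.tr (.dx 0 (.tr (.lf 5) (.lf 13) (.lf 9))) (.tr (.lf 10) (.lf 6) (.tw (.lf 17) (.lf 18))) (.lf 14)), 0, [5, 5, 37, 37, 5, 5, 37, 37], [5, 5, 30, 30]⟩)
    (.lf ⟨[.ofNat 976320, .negSucc 1690319, .ofNat 1187520, .negSucc 355919, .ofNat 60960], (.tr (.lf 6) (.tr (.lf 14) (.dx 0 (.tr (.lf 9) (.lf 5) (.lf 13))) (.tw (.lf 17) (.lf 18))) (.lf 10)), 0, [29, 29, 29, 29, 16, 16, 16, 16], [29, 29, 16, 16]⟩))))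

/-- data -/
def dV12x19 : RT := (.nd (.nd (.nd (.lf ⟨[.negSucc 976319, .ofNat 1690320, .negSucc 1187519, .ofNat 355920, .negSucc 60959], (.tr (.lf 6) (.lf 14) (.tr (.dx 0 (.tr (.lf 9) (.lf 5) (.lf 13))) (.tw (.lf 17) (.lf 18)) (.lf 10))), 0, [29, 29, 29, 29, 11, 21, 11, 21], [29, 29, 31, 31]⟩)
    (.lf ⟨[.ofNat 144083520, .negSucc 434761519, .ofNat 440045360, .negSucc 161676559, .ofNat 26182320], (.tr (.lf 6) (.tr (.lf 10) (.dx 0 (.tr (.lf 5) (.lf 13) (.lf 9))) (.tw (.lf 17) (.lf 18))) (.lf 14)), 0, [5, 5, 5, 5, 16, 16, 16, 16], [5, 5, 16, 16]⟩))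
    (.nd (.lf ⟨[.negSucc 144083519, .ofNat 434761520, .negSucc 440045359, .ofNat 161676560, .negSucc 26182319], (.tr (.lf 10) (.tr (.dx 0 (.tr (.lf 5) (.lf 13) (.lf 9))) (.lf 6) (.tw (.lf 17) (.lf 18))) (.lf 14)), 0, [5, 5, 12, 12, 28, 28, 28, 28], [5, 5, 28, 28]⟩)
    (.lf ⟨[.negSucc 21764159, .ofNat 47072880, .negSucc 44224319, .ofNat 16276080, .negSucc 2621279], (.tr (.dx 0 (.tr (.lf 5) (.tr (.lf 6) (.lf 13) (.lf 9)) (.lf 17))) (.lf 14) (.tw (.lf 10) (.lf 18))), 0, [0, 0, 0, 0, 15, 29, 30, 30], []⟩)))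
    (.nd (.nd (.lf ⟨[.ofNat 43369920, .negSucc 113724879, .ofNat 115014400, .negSucc 40545999, .ofNat 6583680], (.tw (.dx 0 (.tr (.lf 5) (.lf 13) (.tw (.lf 6) (.lf 17)))) (.tr (.lf 14) (.tw (.lf 9) (.lf 10)) (.lf 18))), 0, [15, 15, 37, 37, 15, 15, 37, 37, 15, 15, 37, 37, 15, 15, 37, 37], []⟩)
    (.lf ⟨[.negSucc 136261439, .ofNat 443322800, .negSucc 463922239, .ofNat 160053680, .negSucc 25907999], (.tr (.lf 18) (.lf 9) (.tr (.dx 0 (.tr (.lf 5) (.lf 13) (.tw (.lf 6) (.lf 17)))) (.lf 14) (.lf 10))), 0, [14, 14, 14, 14, 14, 14, 14, 14], []⟩))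
    (.nd (.lf ⟨[.negSucc 21404159, .ofNat 54134400, .negSucc 52471679, .ofNat 19605120, .negSucc 3169919], (.tr (.lf 13) (.lf 17) (.tr (.dx 0 (.tr (.lf 5) (.lf 6) (.lf 9))) (.lf 14) (.tw (.lf 10) (.lf 18)))), 0, [4, 4, 4, 4, 21, 1, 4, 1], []⟩)
    (.lf ⟨[.negSucc 36570239, .ofNat 99039840, .negSucc 95999039, .ofNat 36415200, .negSucc 5852159], (.tr (.lf 17) (.dx 0 (.tw (.lf 5) (.lf 9))) (.tr (.lf 13) (.lf 14) (.tr (.lf 6) (.lf 18) (.lf 10)))), 0, [2, 2, 37, 19, 29, 17, 37, 19], [29, 17, 37, 19]⟩))))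

/-- data -/
def dV12x20 : RT := (.nd (.nd (.nd (.lf ⟨[.negSucc 12729599, .ofNat 36022080, .negSucc 37102559, .ofNat 14135040, .negSucc 2377439], (.tr (.lf 6) (.lf 10) (.tr (.lf 14) (.dx 0 (.tr (.lf 9) (.lf 5) (.lf 13))) (.tw (.lf 17) (.lf 18)))), 0, [3, 3, 3, 3, 23, 23, 23, 23], [3, 3, 23, 23]⟩)
    (.lf ⟨[.ofNat 0, .ofNat 9538560, .negSucc 10198079, .ofNat 4352640, .negSucc 609599], (.tr (.lf 6) (.tr (.tw (.dx 0 (.tr (.lf 9) (.lf 5) (.lf 13))) (.lf 17)) (.lf 14) (.lf 10)) (.lf 18)), 0, [15, 15, 16, 15, 3, 3, 8, 8], [32, 15, 3, 3]⟩))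
    (.nd (.lf ⟨[.ofNat 46533600, .negSucc 139408199, .ofNat 141916800, .negSucc 52676999, .ofNat 8625840], (.tw (.dx 0 (.tr (.lf 5) (.lf 9) (.lf 13))) (.tr (.lf 6) (.lf 14) (.tr (.lf 17) (.lf 10) (.lf 18)))), 0, [15, 15, 0, 0, 15, 15, 10, 10], [15, 15, 30, 30]⟩)
    (.lf ⟨[.ofNat 128882880, .negSucc 379623119, .ofNat 388363200, .negSucc 146531279, .ofNat 23835360], (.tr (.lf 10) (.lf 13) (.tr (.lf 14) (.dx 0 (.tr (.tw (.lf 5) (.lf 17)) (.lf 6) (.lf 9))) (.lf 18))), 0, [6, 6, 3, 6, 6, 6, 6, 6], []⟩)))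
    (.nd (.nd (.lf ⟨[.ofNat 5780160, .negSucc 7535759, .ofNat 3257760, .negSucc 1112399, .ofNat 182880], (.tw (.lf 18) (.tr (.dx 0 (.tr (.lf 5) (.tw (.lf 6) (.lf 17)) (.lf 9))) (.tw (.lf 13) (.lf 14)) (.lf 10))), 0, [7, 7, 7, 7, 7, 7, 7, 7, 21, 21, 14, 1, 21, 21, 14, 1], []⟩)
    (.lf ⟨[.ofNat 174960000, .negSucc 597044639, .ofNat 623467200, .negSucc 223299359, .ofNat 36088320], (.tr (.lf 10) (.tr (.dx 0 (.tr (.lf 5) (.tw (.lf 6) (.lf 17)) (.lf 9))) (.lf 13) (.lf 14)) (.lf 18)), 0, [39, 39, 12, 12, 6, 6, 6, 6], []⟩))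
    (.nd (.lf ⟨[.negSucc 97891199, .ofNat 331307040, .negSucc 343159199, .ofNat 123074400, .negSucc 19811999], (.tw (.lf 10) (.tr (.dx 0 (.tr (.lf 5) (.tw (.lf 6) (.lf 17)) (.lf 9))) (.tw (.lf 13) (.lf 14)) (.lf 18))), 0, [39, 39, 39, 39, 12, 12, 12, 12, 21, 21, 28, 1, 21, 21, 28, 1], []⟩)
    (.lf ⟨[.negSucc 25551359, .ofNat 52915840, .negSucc 45874239, .ofNat 16549120, .negSucc 2560319], (.tr (.dx 0 (.tr (.tw (.lf 5) (.lf 17)) (.lf 6) (.lf 9))) (.lf 13) (.tr (.lf 10) (.lf 18) (.lf 14))), 0, [5, 29, 5, 29, 20, 20, 20, 20], []⟩))))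

/-- data -/
def dV12x21 : RT := (.nd (.nd (.nd (.lf ⟨[.ofNat 0, .negSucc 3041279, .ofNat 3029280, .negSucc 1312319, .ofNat 182880], (.tw (.lf 17) (.tr (.lf 6) (.tr (.dx 0 (.tr (.lf 9) (.lf 5) (.lf 13))) (.lf 18) (.lf 14)) (.lf 10))), 0, [7, 7, 26, 13, 14, 14, 14, 14], [7, 26, 14, 33]⟩)
    (.lf ⟨[.ofNat 8064000, .negSucc 19775999, .ofNat 15885120, .negSucc 5654399, .ofNat 853440], (.tr (.lf 6) (.tr (.lf 18) (.lf 13) (.tr (.dx 0 (.tw (.lf 5) (.lf 17))) (.lf 9) (.lf 14))) (.lf 10)), 0, [7, 7, 13, 13, 32, 32, 24, 24], [7, 13, 29, 24]⟩))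
    (.nd (.lf ⟨[.negSucc 180961919, .ofNat 596002400, .negSucc 614787199, .ofNat 219678560, .negSucc 35234879], (.tr (.dx 0 (.tr (.tw (.lf 5) (.lf 13)) (.lf 17) (.lf 6))) (.lf 9) (.tr (.lf 10) (.lf 18) (.lf 14))), 0, [0, 29, 10, 10, 0, 29, 0, 29], []⟩)
    (.lf ⟨[.ofNat 14227200, .negSucc 124645439, .ofNat 153445920, .negSucc 59057279, .ofNat 10058400], (.tr (.lf 9) (.lf 18) (.tr (.dx 0 (.tr (.tw (.lf 5) (.lf 13)) (.lf 17) (.lf 6))) (.lf 10) (.lf 14))), 0, [37, 37, 37, 37, 28, 28, 11, 28], []⟩)))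
    (.nd (.nd (.lf ⟨[.ofNat 51287040, .negSucc 137541119, .ofNat 135732480, .negSucc 51087359, .ofNat 8290560], (.tr (.lf 6) (.tr (.lf 9) (.tr (.dx 0 (.tw (.lf 5) (.lf 17))) (.lf 13) (.lf 10)) (.lf 18)) (.lf 14)), 0, [5, 5, 8, 8, 37, 37, 16, 16], [5, 8, 37, 16]⟩)
    (.lf ⟨[.ofNat 35815680, .negSucc 80387519, .ofNat 80832000, .negSucc 30939839, .ofNat 5120640], (.tr (.lf 10) (.lf 13) (.tr (.dx 0 (.tr (.tw (.lf 5) (.lf 17)) (.lf 6) (.lf 9))) (.lf 18) (.lf 14))), 0, [5, 5, 5, 5, 6, 6, 6, 6], []⟩))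
    (.nd (.lf ⟨[.ofNat 65174400, .negSucc 149884319, .ofNat 137288640, .negSucc 48844319, .ofNat 7802880], (.tr (.lf 9) (.tr (.lf 10) (.dx 0 (.tr (.tw (.lf 5) (.lf 17)) (.lf 6) (.lf 13))) (.lf 18)) (.lf 14)), 0, [12, 12, 12, 12, 37, 37, 37, 37], []⟩)
    (.lf ⟨[.ofNat 93067200, .negSucc 297933839, .ofNat 306491520, .negSucc 114598799, .ofNat 18592800], (.tr (.dx 0 (.tr (.lf 9) (.lf 5) (.tw (.lf 13) (.lf 17)))) (.lf 6) (.tr (.lf 14) (.lf 10) (.lf 18))), 0, [15, 20, 20, 20, 10, 10, 30, 30], [0, 0]⟩))))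

/-- data -/
def dV12x22 : RT := (.nd (.nd (.nd (.lf ⟨[.negSucc 93067199, .ofNat 296493840, .negSucc 304161599, .ofNat 114009360, .negSucc 18470879], (.tr (.lf 6) (.lf 18) (.tr (.dx 0 (.tr (.tw (.lf 5) (.lf 13)) (.lf 9) (.lf 17))) (.lf 10) (.lf 14))), 0, [16, 16, 37, 16, 31, 31, 11, 1], [16, 16]⟩)
    (.lf ⟨[.ofNat 0, .ofNat 7436160, .negSucc 9728639, .ofNat 2851200, .negSucc 365759], (.tr (.dx 0 (.tr (.tw (.lf 5) (.lf 9)) (.lf 13) (.lf 17))) (.lf 6) (.tr (.lf 14) (.lf 10) (.lf 18))), 0, [0, 0, 15, 20, 30, 30, 30, 30], [0, 0]⟩))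
    (.nd (.lf ⟨[.ofNat 0, .negSucc 6289919, .ofNat 7474560, .negSucc 2687999, .ofNat 487680], (.tr (.dx 0 (.tr (.tw (.lf 9) (.lf 17)) (.lf 5) (.lf 13))) (.tr (.lf 10) (.lf 14) (.lf 18)) (.lf 6)), 0, [20, 20, 30, 9, 10, 9, 10, 10], [17, 9]⟩)
    (.lf ⟨[.negSucc 51796799, .ofNat 178860720, .negSucc 183923519, .ofNat 70284720, .negSucc 11277599], (.tr (.lf 6) (.lf 10) (.tr (.dx 0 (.tr (.lf 5) (.tw (.lf 9) (.lf 17)) (.lf 13))) (.lf 18) (.lf 14))), 0, [5, 5, 5, 5, 8, 8, 8, 8], [5, 8]⟩)))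
    (.nd (.nd (.lf ⟨[.ofNat 0, .negSucc 6399359, .ofNat 8416320, .negSucc 2626559, .ofNat 243840], (.tr (.lf 6) (.dx 0 (.tr (.lf 9) (.lf 5) (.tw (.lf 13) (.lf 17)))) (.tr (.lf 14) (.lf 10) (.lf 18))), 0, [15, 32, 15, 32, 32, 32, 32, 32], [15, 32]⟩)
    (.lf ⟨[.negSucc 1952639, .ofNat 2464800, .negSucc 2760959, .negSucc 376799, .ofNat 243840], (.tr (.lf 6) (.tr (.dx 0 (.tr (.tw (.lf 5) (.lf 13)) (.lf 9) (.lf 17))) (.lf 14) (.lf 18)) (.lf 10)), 0, [32, 32, 32, 32, 13, 13, 13, 13], [32, 13]⟩))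
    (.nd (.lf ⟨[.negSucc 77448959, .ofNat 284402880, .negSucc 303802079, .ofNat 113458560, .negSucc 18592799], (.tr (.dx 0 (.tr (.lf 9) (.lf 5) (.tw (.lf 13) (.lf 17)))) (.tr (.lf 14) (.lf 10) (.lf 18)) (.lf 6)), 0, [17, 20, 17, 20, 17, 10, 30, 30], [17, 30]⟩)
    (.lf ⟨[.ofNat 77448960, .negSucc 278251199, .ofNat 296518560, .negSucc 109946879, .ofNat 17983200], (.tr (.dx 0 (.tr (.tw (.lf 5) (.lf 9)) (.lf 13) (.lf 17))) (.tr (.lf 14) (.lf 10) (.lf 18)) (.lf 6)), 0, [0, 0, 17, 20, 30, 30, 30, 30], [17, 30]⟩))))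

/-- data -/
def dV12x23 : RT := (.nd (.nd (.nd (.lf ⟨[.ofNat 51796800, .negSucc 173878319, .ofNat 178257600, .negSucc 68236079, .ofNat 11155680], (.tr (.dx 0 (.tr (.tw (.lf 9) (.lf 17)) (.lf 5) (.lf 13))) (.lf 6) (.tr (.lf 10) (.lf 14) (.lf 18))), 0, [20, 20, 39, 7, 39, 10, 10, 10], [0, 7]⟩)
    (.lf ⟨[.ofNat 1952640, .ofNat 2241120, .negSucc 4164479, .ofNat 2237280, .negSucc 365759], (.tr (.lf 6) (.tr (.dx 0 (.tr (.lf 5) (.tw (.lf 9) (.lf 13)) (.lf 17))) (.lf 14) (.lf 18)) (.lf 10)), 0, [32, 32, 32, 32, 13, 13, 13, 13], [32, 13]⟩))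
    (.nd (.lf ⟨[.ofNat 0, .negSucc 201599, .ofNat 1303680, .negSucc 36479, .negSucc 121919], (.tr (.lf 6) (.dx 0 (.tr (.lf 5) (.tw (.lf 9) (.lf 13)) (.lf 17))) (.tr (.lf 10) (.lf 18) (.lf 14))), 0, [32, 32, 32, 32, 32, 32, 32, 32], [5, 32]⟩)
    (.lf ⟨[.ofNat 0, .negSucc 2540159, .ofNat 2065920, .negSucc 1545599, .ofNat 365760], (.tr (.lf 10) (.lf 6) (.tr (.lf 14) (.dx 0 (.tr (.lf 5) (.lf 13) (.tw (.lf 9) (.lf 17)))) (.lf 18))), 0, [3, 3, 3, 3, 23, 23, 34, 34], [3, 34]⟩)))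
    (.nd (.nd (.lf ⟨[.ofNat 0, .negSucc 6468479, .ofNat 8165760, .negSucc 3262079, .ofNat 365760], (.tr (.lf 6) (.dx 0 (.tr (.lf 13) (.tw (.lf 5) (.lf 9)) (.lf 17))) (.tr (.lf 10) (.lf 18) (.lf 14))), 0, [32, 32, 32, 32, 32, 32, 32, 32], [5, 32]⟩)
    (.lf ⟨[.ofNat 0, .ofNat 679680, .negSucc 733439, .ofNat 107520], (.tr (.lf 6) (.tr (.dx 0 (.tr (.lf 13) (.tw (.lf 5) (.lf 9)) (.lf 17))) (.lf 14) (.lf 18)) (.lf 10)), 0, [32, 32, 32, 32, 13, 13, 13, 13], [32, 13]⟩))
    (.nd (.lf ⟨[.ofNat 0, .ofNat 6266880, .negSucc 6862079, .ofNat 3225600, .negSucc 487679], (.tr (.lf 10) (.lf 6) (.tr (.lf 14) (.dx 0 (.tr (.lf 5) (.tw (.lf 13) (.lf 17)) (.lf 9))) (.lf 18))), 0, [3, 3, 3, 3, 23, 23, 34, 34], [3, 34]⟩)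
    (.lf ⟨[.negSucc 51796799, .ofNat 181590960, .negSucc 187031999, .ofNat 72139440, .negSucc 11521439], (.tr (.dx 0 (.tr (.lf 9) (.tw (.lf 5) (.lf 17)) (.lf 13))) (.lf 6) (.tr (.lf 10) (.lf 14) (.lf 18))), 0, [39, 7, 20, 20, 10, 10, 39, 7], [0, 7]⟩))))

/-- data -/
def dV12x24 : RT := (.nd (.nd (.nd (.lf ⟨[.ofNat 51796800, .negSucc 183019439, .ofNat 188625600, .negSucc 71674799, .ofNat 11521440], (.tr (.dx 0 (.tr (.lf 9) (.lf 5) (.tw (.lf 13) (.lf 17)))) (.lf 6) (.tr (.lf 10) (.lf 14) (.lf 18))), 0, [39, 7, 39, 7, 39, 7, 39, 7], [0, 7]⟩)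
    (.lf ⟨[.ofNat 79401600, .negSucc 276205919, .ofNat 292892640, .negSucc 108149279, .ofNat 17739360], (.tr (.lf 18) (.lf 6) (.tr (.dx 0 (.tr (.tw (.lf 5) (.lf 13)) (.lf 9) (.lf 17))) (.lf 10) (.lf 14))), 0, [26, 26, 37, 26, 26, 26, 11, 26], [37, 26]⟩))
    (.nd (.lf ⟨[.negSucc 79401599, .ofNat 278901600, .negSucc 295785119, .ofNat 108804000, .negSucc 17861279], (.tr (.lf 18) (.lf 6) (.tr (.dx 0 (.tr (.lf 5) (.tw (.lf 9) (.lf 13)) (.lf 17))) (.lf 10) (.lf 14))), 0, [26, 26, 26, 26, 31, 26, 26, 1], [37, 26]⟩)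
    (.lf ⟨[.ofNat 0, .negSucc 1272959, .ofNat 1439040, .negSucc 564479, .ofNat 121920], (.tw (.dx 0 (.tr (.tw (.lf 5) (.lf 9)) (.lf 17) (.lf 13))) (.tr (.lf 6) (.tw (.lf 10) (.lf 14)) (.lf 18))), 0, [39, 0, 0, 9, 39, 20, 20, 9, 39, 10, 10, 9, 39, 10, 10, 9], [0, 0, 30, 9]⟩)))
    (.nd (.nd (.lf ⟨[.ofNat 0, .ofNat 1866240, .negSucc 2132159, .ofNat 493440, .negSucc 121919], (.tr (.dx 0 (.tr (.tw (.lf 5) (.lf 9)) (.lf 17) (.lf 13))) (.lf 6) (.tr (.lf 10) (.lf 14) (.lf 18))), 0, [39, 0, 39, 7, 39, 7, 39, 7], [0, 7]⟩)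
    (.lf ⟨[.ofNat 0, .negSucc 4694399, .ofNat 5714880, .negSucc 1954559, .ofNat 365760], (.tw (.dx 0 (.tr (.tw (.lf 5) (.lf 9)) (.lf 13) (.lf 17))) (.tr (.lf 6) (.tw (.lf 10) (.lf 14)) (.lf 18))), 0, [0, 0, 0, 0, 39, 15, 20, 9, 39, 30, 30, 9, 30, 30, 30, 9], [0, 0, 30, 9]⟩))
    (.nd (.lf ⟨[.ofNat 7554240, .ofNat 27718320, .negSucc 39805439, .ofNat 15808560, .negSucc 2621279], (.tr (.dx 0 (.tr (.tw (.lf 5) (.lf 9)) (.lf 13) (.lf 17))) (.lf 6) (.tr (.lf 10) (.lf 14) (.lf 18))), 0, [0, 0, 39, 7, 39, 7, 30, 30], [0, 7]⟩)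
    (.lf ⟨[.negSucc 7554239, .negSucc 18329519, .ofNat 28375680, .negSucc 11899439, .ofNat 1889760], (.tr (.lf 6) (.lf 10) (.tr (.dx 0 (.tr (.lf 5) (.lf 9) (.tw (.lf 13) (.lf 17)))) (.lf 18) (.lf 14))), 0, [5, 5, 5, 5, 8, 8, 8, 1], [5, 8]⟩))))

/-- data -/
def dV12 : RT := (.nd (.nd (.nd (.nd dV12x0 (.nd dV12x1 dV12x2)) (.nd dV12x3 (.nd dV12x4 dV12x5))) (.nd (.nd dV12x6 (.nd dV12x7 dV12x8)) (.nd dV12x9 (.nd dV12x10 dV12x11)))) (.nd (.nd (.nd dV12x12 (.nd dV12x13 dV12x14)) (.nd dV12x15 (.nd dV12x16 dV12x17))) (.nd (.nd dV12x18 (.nd dV12x19 dV12x20)) (.nd (.nd dV12x21 dV12x22) (.nd dV12x23 dV12x24)))))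

/-- data -/
def lV12x0 : List (ℕ × List ℤ) := [(5349, [.ofNat 0, .ofNat 0, .ofNat 13662720, .negSucc 16592639, .ofNat 3240960, .negSucc 1950719]),
  (5356, [.ofNat 0, .ofNat 0, .negSucc 90570239, .ofNat 108211200, .negSucc 41694719, .ofNat 6339840]),
  (5405, [.ofNat 0, .ofNat 0, .ofNat 4193280, .negSucc 8655359, .ofNat 3548160, .negSucc 975359]),
  (5468, [.ofNat 0, .ofNat 0, .ofNat 12948480, .negSucc 18996479, .ofNat 8179200, .negSucc 1463039]),
  (38117, [.ofNat 0, .negSucc 199025279, .ofNat 484410720, .negSucc 452576639, .ofNat 168048480, .negSucc 26700479]),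
  (38173, [.ofNat 0, .negSucc 246660479, .ofNat 768359200, .negSucc 794101599, .ofNat 284750560, .negSucc 46268639]),
  (38243, [.ofNat 0, .ofNat 50918400, .negSucc 163165439, .ofNat 168806400, .negSucc 65245439, .ofNat 10728960]),
  (41771, [.ofNat 0, .negSucc 186134399, .ofNat 557632800, .negSucc 567667199, .ofNat 210708000, .negSucc 34503359]),
  (41827, [.ofNat 0, .ofNat 0, .negSucc 19077119, .ofNat 20396160, .negSucc 8705279, .ofNat 1219200]),
  (42269, [.ofNat 0, .negSucc 27642239, .ofNat 66375840, .negSucc 60226559, .ofNat 24101280, .negSucc 3779519]),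
  (42283, [.ofNat 0, .ofNat 39623040, .negSucc 101646239, .ofNat 98883840, .negSucc 38789279, .ofNat 6217920]),
  (42339, [.ofNat 0, .ofNat 11980800, .negSucc 35270399, .ofNat 38657280, .negSucc 14687999, .ofNat 2438400]),
  (42597, [.ofNat 0, .ofNat 0, .ofNat 13870080, .ofNat 19244160, .negSucc 41295359, .ofNat 18956160, .negSucc 3413759]),
  (42732, [.ofNat 0, .negSucc 445685759, .ofNat 1252769920, .negSucc 1246678239, .ofNat 452799040, .negSucc 72969119]),
  (42765, [.ofNat 0, .ofNat 0, .negSucc 4423679, .negSucc 330239, .ofNat 5333760, .negSucc 2603519, .ofNat 487680]),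
  (42773, [.ofNat 0, .ofNat 0, .ofNat 14284800, .negSucc 61401599, .ofNat 71754240, .negSucc 28961279, .ofNat 4876800]),
  (42795, [.ofNat 0, .ofNat 0, .negSucc 5207039, .ofNat 39640320, .negSucc 50000639, .ofNat 20175360, .negSucc 3413759]),
  (43165, [.ofNat 0, .negSucc 186134399, .ofNat 557632800, .negSucc 567667199, .ofNat 210708000, .negSucc 34503359]),
  (43213, [.ofNat 0, .ofNat 0, .negSucc 23500799, .ofNat 20065920, .negSucc 3371519, .negSucc 1384319, .ofNat 487680]),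
  (43244, [.ofNat 0, .ofNat 0, .negSucc 247605119, .ofNat 536904480, .negSucc 473827199, .ofNat 169178400, .negSucc 25968959]),
  (43293, [.ofNat 0, .ofNat 50918400, .negSucc 144088319, .ofNat 148410240, .negSucc 56540159, .ofNat 9509760]),
  (43356, [.ofNat 0, .ofNat 0, .negSucc 247605119, .ofNat 536904480, .negSucc 473827199, .ofNat 169178400, .negSucc 25968959]),
  (304925, [.ofNat 0, .ofNat 246660480, .negSucc 768359199, .ofNat 794101600, .negSucc 284750559, .ofNat 46268640]),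
  (304939, [.ofNat 0, .ofNat 73140480, .negSucc 198079679, .ofNat 191998080, .negSucc 72830399, .ofNat 11704320]),
  (305365, [.ofNat 0, .negSucc 71020799, .ofNat 168081600, .negSucc 156958079, .ofNat 58330560, .negSucc 9265919]),
  (305373, [.ofNat 0, .negSucc 6128639, .ofNat 7660800, .negSucc 3555839, .ofNat 487680]),
  (305381, [.ofNat 0, .ofNat 77535360, .negSucc 339215199, .ofNat 385456480, .negSucc 131679519, .ofNat 21640800]),
  (305388, [.ofNat 0, .negSucc 5512319, .negSucc 12740639, .ofNat 20714880, .negSucc 9000479, .ofNat 1584960]),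
  (305437, [.ofNat 0, .negSucc 6128639, .ofNat 7660800, .negSucc 3555839, .ofNat 487680]),
  (305491, [.ofNat 0, .negSucc 47168639, .ofNat 109298400, .negSucc 100064639, .ofNat 36399840, .negSucc 5730239]),
  (305515, [.ofNat 0, .negSucc 110511359, .ofNat 287797440, .negSucc 271566719, .ofNat 101146560, .negSucc 16093439]),
  (305893, [.ofNat 0, .ofNat 73203840, .negSucc 180257759, .ofNat 171663360, .negSucc 63817439, .ofNat 10363200]),
  (305949, [.ofNat 0, .negSucc 5512319, .negSucc 3225119, .ofNat 11149440, .negSucc 4999199, .ofNat 1097280]),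
  (333548, [.ofNat 0, .negSucc 16127999, .ofNat 39552000, .negSucc 31770239, .ofNat 11308800, .negSucc 1706879]),
  (333981, [.ofNat 0, .ofNat 0, .negSucc 10367999, .ofNat 13614720, .negSucc 4903679, .ofNat 731520]),
  (336683, [.ofNat 0, .negSucc 102574079, .ofNat 275082240, .negSucc 271464959, .ofNat 102174720, .negSucc 16581119]),
  (337740, [.ofNat 0, .negSucc 109900799, .ofNat 273081600, .negSucc 258507839, .ofNat 94880640, .negSucc 15239999]),
  (337763, [.ofNat 0, .negSucc 11566079, .ofNat 41084160, .negSucc 43914239, .ofNat 17644800, .negSucc 2926079]),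
  (337772, [.ofNat 0, .ofNat 4608000, .negSucc 16089599, .ofNat 9696000, .negSucc 4231679, .ofNat 487680]),
  (338125, [.ofNat 0, .ofNat 136540800, .negSucc 390850399, .ofNat 400703360, .negSucc 154890079, .ofNat 25725120]),
  (338141, [.ofNat 0, .ofNat 20620800, .negSucc 52233599, .ofNat 49593600, .negSucc 18303359, .ofNat 2926080]),
  (338156, [.ofNat 0, .ofNat 0, .negSucc 5356799, .ofNat 6685440, .negSucc 2883839, .ofNat 487680]),
  (338717, [.ofNat 0, .ofNat 114796800, .negSucc 312941759, .ofNat 304878720, .negSucc 115131839, .ofNat 18531840]),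
  (340652, [.ofNat 0, .negSucc 6128639, .ofNat 7660800, .negSucc 3555839, .ofNat 487680]),
  (340709, [.ofNat 0, .negSucc 102574079, .ofNat 271188480, .negSucc 266701439, .ofNat 99705600, .negSucc 16337279]),
  (340757, [.ofNat 0, .ofNat 11203200, .ofNat 31007520, .negSucc 49351199, .ofNat 22079520, .negSucc 4247519, .ofNat 121920]),
  (340779, [.ofNat 0, .negSucc 67432319, .ofNat 273296160, .negSucc 296965439, .ofNat 111173280, .negSucc 18531839]),
  (340820, [.ofNat 0, .negSucc 41270399, .ofNat 148495200, .negSucc 146140319, .ofNat 50909280, .negSucc 6633119, .negSucc 365759]),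
  (340828, [.ofNat 0, .ofNat 0, .ofNat 9515520, .negSucc 9565439, .ofNat 4001280, .negSucc 487679]),
  (340835, [.ofNat 0, .ofNat 0, .ofNat 806400, .negSucc 1780799, .ofNat 597120, .negSucc 121919]),
  (341261, [.ofNat 0, .ofNat 11203200, .ofNat 12143520, .negSucc 35750399, .ofNat 21113760, .negSucc 5661119, .ofNat 487680]),
  (341836, [.ofNat 0, .negSucc 11439359, .ofNat 19300800, .negSucc 16127999, .ofNat 5254080, .negSucc 731519]),
  (341858, [.ofNat 0, .ofNat 130412160, .negSucc 383189599, .ofNat 397147520, .negSucc 154402399, .ofNat 25725120]),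
  (342173, [.ofNat 0, .negSucc 119018879, .ofNat 353742240, .negSucc 360291839, .ofNat 136939680, .negSucc 22311359]),
  (342314, [.ofNat 0, .ofNat 73140480, .negSucc 198079679, .ofNat 191998080, .negSucc 72830399, .ofNat 11704320]),
  (342347, [.ofNat 0, .ofNat 0, .ofNat 806400, .negSucc 1780799, .ofNat 597120, .negSucc 121919]),
  (342362, [.ofNat 0, .negSucc 118702079, .ofNat 322536960, .negSucc 311948159, .ofNat 116770560, .negSucc 18775679]),
  (342370, [.ofNat 0, .ofNat 317905920, .negSucc 774234239, .ofNat 729424800, .negSucc 270405119, .ofNat 42813600, .ofNat 121920]),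
  (342626, [.ofNat 0, .negSucc 67432319, .ofNat 273296160, .negSucc 296965439, .ofNat 111173280, .negSucc 18531839]),
  (342693, [.ofNat 0, .negSucc 82540799, .ofNat 253663680, .negSucc 259221119, .ofNat 98500800, .negSucc 15849599]),
  (342797, [.ofNat 0, .ofNat 118702080, .negSucc 306639359, .ofNat 295336320, .negSucc 110442239, .ofNat 17800320]),
  (342813, [.ofNat 0, .negSucc 102574079, .ofNat 275082240, .negSucc 271464959, .ofNat 102174720, .negSucc 16581119]),
  (342860, [.ofNat 0, .ofNat 114796800, .negSucc 312941759, .ofNat 304878720, .negSucc 115131839, .ofNat 18531840]),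
  (342882, [.ofNat 0, .ofNat 280114560, .negSucc 919596959, .ofNat 972415680, .negSucc 364622879, .ofNat 59984640]),
  (344789, [.ofNat 0, .ofNat 0, .negSucc 2799359, .ofNat 2928960, .negSucc 693119, .ofNat 121920]),
  (344915, [.ofNat 0, .negSucc 150958079, .ofNat 395788800, .negSucc 375214079, .ofNat 141020160, .negSucc 22433279]),
  (344922, [.ofNat 0, .ofNat 237404160, .negSucc 621480959, .ofNat 600499200, .negSucc 224670719, .ofNat 36088320]),
  (345419, [.ofNat 0, .ofNat 0, .ofNat 21663360, .negSucc 16529759, .ofNat 1658880, .ofNat 1291680, .negSucc 365759]),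
  (345701, [.ofNat 0, .negSucc 114796799, .ofNat 313817280, .negSucc 306082559, .ofNat 116310720, .negSucc 18775679]),
  (345772, [.ofNat 0, .negSucc 16127999, .ofNat 39552000, .negSucc 31770239, .ofNat 11308800, .negSucc 1706879]),
  (345813, [.ofNat 0, .negSucc 41656319, .ofNat 122039040, .negSucc 120779519, .ofNat 45400320, .negSucc 7315199]),
  (345931, [.ofNat 0, .ofNat 0, .ofNat 9515520, .negSucc 9565439, .ofNat 4001280, .negSucc 487679]),
  (346219, [.ofNat 0, .negSucc 16127999, .ofNat 34195200, .negSucc 25084799, .ofNat 8424960, .negSucc 1219199]),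
  (346317, [.ofNat 0, .ofNat 185973120, .negSucc 655900319, .ofNat 702815040, .negSucc 262332959, .ofNat 43159680]),
  (346443, [.ofNat 0, .negSucc 22492799, .ofNat 64740960, .negSucc 68158079, .ofNat 26141280, .negSucc 4267199]),
  (346781, [.ofNat 0, .negSucc 42289919, .ofNat 67548480, .negSucc 47554559, .ofNat 16614720, .negSucc 2438399]),
  (346787, [.ofNat 0, .ofNat 4608000, .negSucc 16089599, .ofNat 9696000, .negSucc 4231679, .ofNat 487680]),
  (346837, [.ofNat 0, .negSucc 77431679, .ofNat 183263520, .negSucc 169667519, .ofNat 63284640, .negSucc 10119359]),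
  (346955, [.ofNat 0, .ofNat 13150080, .negSucc 49082399, .ofNat 59632320, .negSucc 24320159, .ofNat 4145280]),
  (346972, [.ofNat 0, .negSucc 23852159, .ofNat 53426400, .negSucc 50207999, .ofNat 19046880, .negSucc 3047999]),
  (348908, [.ofNat 0, .ofNat 11203200, .ofNat 23433120, .negSucc 40953599, .ofNat 18675360, .negSucc 3291839]),
  (348947, [.ofNat 0, .negSucc 139754879, .ofNat 407932320, .negSucc 410964479, .ofNat 162133920, .negSucc 28094399, .ofNat 487680]),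
  (349020, [.ofNat 0, .negSucc 118702079, .ofNat 321108480, .negSucc 312086399, .ofNat 115918080, .negSucc 18775679]),
  (350315, [.ofNat 0, .negSucc 150958079, .ofNat 370248960, .negSucc 346139519, .ofNat 130344960, .negSucc 20970239]),
  (350483, [.ofNat 0, .ofNat 72069120, .negSucc 198074879, .ofNat 195386880, .negSucc 72775679, .ofNat 11704320]),
  (2669411, [.ofNat 0, .ofNat 0, .negSucc 12072959, .ofNat 11500800, .negSucc 4001279, .ofNat 487680]),
  (2677021, [.ofNat 0, .ofNat 0, .negSucc 12072959, .ofNat 11500800, .negSucc 4001279, .ofNat 487680]),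
  (2701541, [.ofNat 0, .ofNat 37238400, .negSucc 104669279, .ofNat 110294400, .negSucc 43056479, .ofNat 7193280]),
  (2702060, [.ofNat 0, .negSucc 13127039, .ofNat 45996960, .negSucc 43896959, .ofNat 17838240, .negSucc 2560319]),
  (2705181, [.ofNat 0, .negSucc 13127039, .ofNat 45996960, .negSucc 43896959, .ofNat 17838240, .negSucc 2560319]),
  (2709340, [.ofNat 0, .ofNat 37238400, .negSucc 104669279, .ofNat 110294400, .negSucc 43056479, .ofNat 7193280]),
  (2726187, [.ofNat 0, .ofNat 0, .negSucc 12072959, .ofNat 11500800, .negSucc 4001279, .ofNat 487680]),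
  (2738389, [.ofNat 0, .ofNat 74476800, .negSucc 209338559, .ofNat 220588800, .negSucc 86112959, .ofNat 14386560]),
  (2758380, [.ofNat 0, .ofNat 0, .negSucc 12072959, .ofNat 11500800, .negSucc 4001279, .ofNat 487680]),
  (2775827, [.ofNat 0, .negSucc 26254079, .ofNat 91993920, .negSucc 87793919, .ofNat 35676480, .negSucc 5120639]),
  (19577178, [.ofNat 0, .ofNat 14515200, .negSucc 48049919, .ofNat 50378880, .negSucc 19361279, .ofNat 3169920]),
  (19580762, [.ofNat 0, .ofNat 14515200, .negSucc 48049919, .ofNat 50378880, .negSucc 19361279, .ofNat 3169920]),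
  (21313772, [.ofNat 0, .ofNat 0, .ofNat 11289600, .negSucc 13422719, .ofNat 4035840, .negSucc 731519]),
  (21318429, [.ofNat 0, .ofNat 14486400, .negSucc 36663839, .ofNat 33267840, .negSucc 14096159, .ofNat 2072640]),
  (21321571, [.ofNat 0, .negSucc 3064319, .ofNat 3830400, .negSucc 1777919, .ofNat 243840])]

/-- data -/
def lV12x1 : List (ℕ × List ℤ) := [(21351068, [.ofNat 0, .ofNat 671040, .ofNat 4537680, .negSucc 6832319, .ofNat 2959440, .negSucc 548639]),
  (21351084, [.ofNat 0, .ofNat 4622400, .ofNat 7174800, .negSucc 15357119, .ofNat 6986640, .negSucc 1280159]),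
  (21354667, [.ofNat 0, .ofNat 17562240, .negSucc 43835999, .ofNat 46156800, .negSucc 18403679, .ofNat 3048000]),
  (21374819, [.ofNat 0, .negSucc 21663359, .ofNat 16529760, .negSucc 1658879, .negSucc 1291679, .ofNat 365760]),
  (21374827, [.ofNat 0, .ofNat 48787200, .negSucc 140231999, .ofNat 147325440, .negSucc 57633599, .ofNat 9509760]),
  (21379306, [.ofNat 0, .ofNat 14486400, .negSucc 36663839, .ofNat 33267840, .negSucc 14096159, .ofNat 2072640]),
  (21379740, [.ofNat 0, .negSucc 1560959, .ofNat 24298080, .negSucc 31931519, .ofNat 13281120, .negSucc 2316479]),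
  (21379741, [.ofNat 0, .ofNat 97136640, .negSucc 189955199, .ofNat 159757440, .negSucc 55343999, .ofNat 8534400]),
  (21379755, [.ofNat 0, .ofNat 47574720, .negSucc 93785519, .ofNat 82488000, .negSucc 28795439, .ofNat 4572000]),
  (21386909, [.ofNat 0, .ofNat 97136640, .negSucc 189955199, .ofNat 159757440, .negSucc 55343999, .ofNat 8534400]),
  (21386915, [.ofNat 0, .negSucc 85694399, .ofNat 158037840, .negSucc 126413759, .ofNat 42979920, .negSucc 6400799]),
  (21386923, [.ofNat 0, .ofNat 93363840, .negSucc 196308479, .ofNat 171350400, .negSucc 60551039, .ofNat 9509760]),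
  (21412578, [.ofNat 0, .negSucc 3064319, .ofNat 3830400, .negSucc 1777919, .ofNat 243840]),
  (21416157, [.ofNat 0, .ofNat 17556480, .negSucc 18239999, .ofNat 7165440, .negSucc 975359]),
  (21416730, [.ofNat 0, .ofNat 0, .ofNat 11289600, .negSucc 13422719, .ofNat 4035840, .negSucc 731519]),
  (21543709, [.ofNat 0, .ofNat 14515200, .negSucc 48049919, .ofNat 50378880, .negSucc 19361279, .ofNat 3169920]),
  (21543779, [.ofNat 0, .ofNat 17556480, .negSucc 18239999, .ofNat 7165440, .negSucc 975359]),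
  (21550947, [.ofNat 0, .ofNat 26991360, .negSucc 78972479, .ofNat 88535040, .negSucc 35933759, .ofNat 6096000]),
  (21600555, [.ofNat 0, .ofNat 17556480, .negSucc 18239999, .ofNat 7165440, .negSucc 975359]),
  (21639965, [.ofNat 0, .negSucc 2142719, .ofNat 16160640, .negSucc 20605439, .ofNat 8542080, .negSucc 1463039]),
  (21640028, [.ofNat 0, .negSucc 2142719, .ofNat 16160640, .negSucc 20605439, .ofNat 8542080, .negSucc 1463039]),
  (21645131, [.ofNat 0, .negSucc 2142719, .ofNat 16160640, .negSucc 20605439, .ofNat 8542080, .negSucc 1463039]),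
  (21649163, [.ofNat 0, .negSucc 8133119, .ofNat 36796800, .negSucc 42988799, .ofNat 17328000, .negSucc 2926079]),
  (21649227, [.ofNat 0, .negSucc 24842879, .ofNat 57045600, .negSucc 54568319, .ofNat 20742240, .negSucc 3291839]),
  (21681763, [.ofNat 0, .ofNat 17556480, .negSucc 18239999, .ofNat 7165440, .negSucc 975359]),
  (21801308, [.ofNat 0, .negSucc 3847679, .ofNat 4475520, .negSucc 1777919, .ofNat 243840]),
  (21805396, [.ofNat 0, .negSucc 15442559, .ofNat 19590240, .negSucc 9189119, .ofNat 2052960, .negSucc 121919]),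
  (21808476, [.ofNat 0, .negSucc 207359, .ofNat 80640, .negSucc 126719]),
  (21808805, [.ofNat 0, .negSucc 3847679, .ofNat 4475520, .negSucc 1777919, .ofNat 243840]),
  (21808994, [.ofNat 0, .negSucc 9838079, .ofNat 25111680, .negSucc 24161279, .ofNat 9029760, .negSucc 1463039]),
  (21809820, [.ofNat 0, .ofNat 5872320, .negSucc 24155279, .ofNat 26750400, .negSucc 10565519, .ofNat 1767840]),
  (21809829, [.ofNat 0, .negSucc 15350399, .ofNat 18987360, .negSucc 9423359, .ofNat 2052960, .negSucc 121919]),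
  (21809835, [.ofNat 0, .ofNat 40870080, .negSucc 140039759, .ofNat 147284160, .negSucc 56650319, .ofNat 9326880]),
  (21809836, [.ofNat 0, .negSucc 10719359, .ofNat 13866720, .negSucc 7645439, .ofNat 1809120, .negSucc 121919]),
  (21812509, [.ofNat 0, .negSucc 933119, .negSucc 53339519, .ofNat 73804800, .negSucc 30833279, .ofNat 5364480]),
  (21813090, [.ofNat 0, .negSucc 24842879, .ofNat 57045600, .negSucc 54568319, .ofNat 20742240, .negSucc 3291839]),
  (21813405, [.ofNat 0, .ofNat 45230400, .negSucc 181666799, .ofNat 198899520, .negSucc 77537519, .ofNat 12862560]),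
  (21813411, [.ofNat 0, .ofNat 13564800, .ofNat 47125920, .negSucc 79080959, .ofNat 34718880, .negSucc 6217919]),
  (21813419, [.ofNat 0, .negSucc 933119, .negSucc 53339519, .ofNat 73804800, .negSucc 30833279, .ofNat 5364480]),
  (21813484, [.ofNat 0, .negSucc 8677439, .ofNat 25557360, .negSucc 26375999, .ofNat 10097520, .negSucc 1645919]),
  (21830429, [.ofNat 0, .ofNat 38606400, .negSucc 116830319, .ofNat 119006400, .negSucc 44914799, .ofNat 7254240]),
  (21842524, [.ofNat 0, .ofNat 3847680, .negSucc 4475519, .ofNat 1777920, .negSucc 243839]),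
  (21842701, [.ofNat 0, .negSucc 21957119, .ofNat 79731840, .negSucc 85263359, .ofNat 33037440, .negSucc 5364479]),
  (21844765, [.ofNat 0, .negSucc 1359359, .negSucc 4160639, .ofNat 6627840, .negSucc 2847359, .ofNat 487680]),
  (21846108, [.ofNat 0, .ofNat 5872320, .negSucc 24155279, .ofNat 26750400, .negSucc 10565519, .ofNat 1767840]),
  (21846109, [.ofNat 0, .negSucc 43951679, .ofNat 128492400, .negSucc 127761599, .ofNat 48006000, .negSucc 7741919]),
  (21894492, [.ofNat 0, .negSucc 1560959, .ofNat 24298080, .negSucc 31931519, .ofNat 13281120, .negSucc 2316479]),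
  (21894828, [.ofNat 0, .negSucc 8677439, .ofNat 25557360, .negSucc 26375999, .ofNat 10097520, .negSucc 1645919]),
  (21895845, [.ofNat 0, .ofNat 24157440, .negSucc 89909759, .ofNat 95905920, .negSucc 36933119, .ofNat 6096000]),
  (21895852, [.ofNat 0, .ofNat 26398080, .negSucc 121965599, .ofNat 138140160, .negSucc 54485279, .ofNat 9144000]),
  (21897964, [.ofNat 0, .ofNat 8640, .negSucc 12295439, .ofNat 17135040, .negSucc 7230479, .ofNat 1280160]),
  (21898860, [.ofNat 0, .ofNat 679680, .negSucc 7757759, .ofNat 10302720, .negSucc 4271039, .ofNat 731520]),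
  (21899877, [.ofNat 0, .ofNat 10944000, .negSucc 32699519, .ofNat 32440320, .negSucc 12120959, .ofNat 1950720]),
  (21900045, [.ofNat 0, .negSucc 1359359, .ofNat 15515520, .negSucc 20605439, .ofNat 8542080, .negSucc 1463039]),
  (21902444, [.ofNat 0, .ofNat 0, .ofNat 22579200, .negSucc 26845439, .ofNat 8071680, .negSucc 1463039]),
  (21903956, [.ofNat 0, .negSucc 671039, .negSucc 4537679, .ofNat 6832320, .negSucc 2959439, .ofNat 548640]),
  (21910181, [.ofNat 0, .ofNat 8346240, .negSucc 4163999, .negSucc 3809279, .ofNat 2705760, .negSucc 609599]),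
  (21910187, [.ofNat 0, .negSucc 46952639, .ofNat 120994320, .negSucc 115197119, .ofNat 42209040, .negSucc 6644639]),
  (21910252, [.ofNat 0, .ofNat 29041920, .negSucc 83434559, .ofNat 82200960, .negSucc 30546239, .ofNat 4876800]),
  (21910291, [.ofNat 0, .ofNat 37719360, .negSucc 108991919, .ofNat 108576960, .negSucc 40643759, .ofNat 6522720]),
  (21910315, [.ofNat 0, .ofNat 679680, .negSucc 7757759, .ofNat 10302720, .negSucc 4271039, .ofNat 731520]),
  (21910356, [.ofNat 0, .negSucc 46952639, .ofNat 120994320, .negSucc 115197119, .ofNat 42209040, .negSucc 6644639]),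
  (21910362, [.ofNat 0, .ofNat 8346240, .negSucc 4163999, .negSucc 3809279, .ofNat 2705760, .negSucc 609599]),
  (21910370, [.ofNat 0, .negSucc 38606399, .ofNat 116830320, .negSucc 119006399, .ofNat 44914800, .negSucc 7254239]),
  (21910797, [.ofNat 0, .ofNat 2211840, .ofNat 165120, .negSucc 2666879, .ofNat 1301760, .negSucc 243839]),
  (21911124, [.ofNat 0, .ofNat 8640, .negSucc 12295439, .ofNat 17135040, .negSucc 7230479, .ofNat 1280160]),
  (21911125, [.ofNat 0, .ofNat 14515200, .negSucc 48049919, .ofNat 50378880, .negSucc 19361279, .ofNat 3169920]),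
  (21911370, [.ofNat 0, .ofNat 26991360, .negSucc 78972479, .ofNat 88535040, .negSucc 35933759, .ofNat 6096000]),
  (21911659, [.ofNat 0, .ofNat 1359360, .negSucc 15515519, .ofNat 20605440, .negSucc 8542079, .ofNat 1463040]),
  (21927589, [.ofNat 0, .negSucc 17752319, .ofNat 67693440, .negSucc 72063359, .ofNat 27903360, .negSucc 4632959]),
  (21927701, [.ofNat 0, .ofNat 29021760, .negSucc 38690159, .ofNat 21929280, .negSucc 5865839, .ofNat 670560]),
  (21928099, [.ofNat 0, .negSucc 43951679, .ofNat 128492400, .negSucc 127761599, .ofNat 48006000, .negSucc 7741919]),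
  (21930725, [.ofNat 0, .ofNat 15664320, .negSucc 47258639, .ofNat 48313920, .negSucc 18293519, .ofNat 2987040]),
  (21930781, [.ofNat 0, .negSucc 63452159, .ofNat 129980640, .negSucc 108781439, .ofNat 37845600, .negSucc 5730239]),
  (21932124, [.ofNat 0, .negSucc 207359, .ofNat 80640, .negSucc 126719]),
  (21932237, [.ofNat 0, .ofNat 29021760, .negSucc 38690159, .ofNat 21929280, .negSucc 5865839, .ofNat 670560]),
  (21932268, [.ofNat 0, .ofNat 120231360, .negSucc 253101839, .ofNat 218975040, .negSucc 77348879, .ofNat 11765280]),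
  (21932380, [.ofNat 0, .ofNat 118019520, .negSucc 253266959, .ofNat 221641920, .negSucc 78650639, .ofNat 12009120]),
  (21934757, [.ofNat 0, .negSucc 48294719, .ofNat 110113200, .negSucc 103070399, .ofNat 37337520, .negSucc 6035039]),
  (21935205, [.ofNat 0, .negSucc 33684479, .ofNat 59974560, .negSucc 50975999, .ofNat 17498400, .negSucc 2804159]),
  (21936213, [.ofNat 0, .negSucc 63452159, .ofNat 129980640, .negSucc 108781439, .ofNat 37845600, .negSucc 5730239]),
  (21936482, [.ofNat 0, .negSucc 15442559, .ofNat 19590240, .negSucc 9189119, .ofNat 2052960, .negSucc 121919]),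
  (21938851, [.ofNat 0, .negSucc 57516479, .ofNat 81366480, .negSucc 48680639, .ofNat 13287120, .negSucc 1523999]),
  (21938859, [.ofNat 0, .ofNat 45069120, .negSucc 86195279, .ofNat 68280000, .negSucc 23213519, .ofNat 3474720]),
  (21938900, [.ofNat 0, .ofNat 691200, .ofNat 63523200, .negSucc 87352319, .ofNat 36528000, .negSucc 6339839]),
  (21938914, [.ofNat 0, .ofNat 46022400, .negSucc 79150079, .ofNat 58170240, .negSucc 18708479, .ofNat 2682240]),
  (21938963, [.ofNat 0, .negSucc 45069119, .ofNat 86195280, .negSucc 68279999, .ofNat 23213520, .negSucc 3474719]),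
  (21938987, [.ofNat 0, .ofNat 28972800, .negSucc 73327679, .ofNat 66535680, .negSucc 28192319, .ofNat 4145280]),
  (21939027, [.ofNat 0, .ofNat 62732160, .negSucc 113652959, .ofNat 88199040, .negSucc 29303519, .ofNat 4267200]),
  (21939036, [.ofNat 0, .negSucc 15664319, .ofNat 47258640, .negSucc 48313919, .ofNat 18293520, .negSucc 2987039]),
  (21939042, [.ofNat 0, .negSucc 16289279, .ofNat 85641600, .negSucc 99204479, .ofNat 39292800, .negSucc 6583679]),
  (21939405, [.ofNat 0, .negSucc 17752319, .ofNat 67693440, .negSucc 72063359, .ofNat 27903360, .negSucc 4632959]),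
  (21939797, [.ofNat 0, .ofNat 30179520, .negSucc 95308559, .ofNat 98692800, .negSucc 37654799, .ofNat 6156960]),
  (22067869, [.ofNat 0, .negSucc 2211839, .negSucc 165119, .ofNat 2666880, .negSucc 1301759, .ofNat 243840]),
  (22067925, [.ofNat 0, .negSucc 2211839, .negSucc 165119, .ofNat 2666880, .negSucc 1301759, .ofNat 243840]),
  (22075045, [.ofNat 0, .ofNat 39507840, .negSucc 108897119, .ofNat 105329280, .negSucc 38986079, .ofNat 6217920]),
  (22100579, [.ofNat 0, .ofNat 41739840, .negSucc 128657519, .ofNat 130428480, .negSucc 49307759, .ofNat 7985760]),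
  (22100581, [.ofNat 0, .ofNat 39507840, .negSucc 108897119, .ofNat 105329280, .negSucc 38986079, .ofNat 6217920]),
  (22108365, [.ofNat 0, .ofNat 2211840, .ofNat 165120, .negSucc 2666879, .ofNat 1301760, .negSucc 243839]),
  (22123819, [.ofNat 0, .ofNat 16709760, .negSucc 34502879, .ofNat 30028800, .negSucc 10595039, .ofNat 1584960])]

/-- data -/
def lV12x2 : List (ℕ × List ℤ) := [(22124883, [.ofNat 0, .ofNat 46022400, .negSucc 79150079, .ofNat 58170240, .negSucc 18708479, .ofNat 2682240]),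
  (22125213, [.ofNat 0, .negSucc 40443839, .ofNat 90860880, .negSucc 80107199, .ofNat 28664400, .negSucc 4450079]),
  (22127403, [.ofNat 0, .ofNat 62732160, .negSucc 113652959, .ofNat 88199040, .negSucc 29303519, .ofNat 4267200]),
  (22128971, [.ofNat 0, .negSucc 5990399, .ofNat 20636160, .negSucc 22383359, .ofNat 8785920, .negSucc 1463039]),
  (22129253, [.ofNat 0, .ofNat 38672640, .negSucc 137959679, .ofNat 146284800, .negSucc 56294399, .ofNat 9265920]),
  (22139549, [.ofNat 0, .negSucc 27763199, .ofNat 62584320, .negSucc 56365439, .ofNat 20336640, .negSucc 3169919]),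
  (22139605, [.ofNat 0, .negSucc 20286719, .ofNat 40083840, .negSucc 32956799, .ofNat 11306880, .negSucc 1706879]),
  (22139618, [.ofNat 0, .ofNat 10719360, .negSucc 13866719, .ofNat 7645440, .negSucc 1809119, .ofNat 121920]),
  (22139690, [.ofNat 0, .negSucc 20286719, .ofNat 40083840, .negSucc 32956799, .ofNat 11306880, .negSucc 1706879]),
  (22139738, [.ofNat 0, .negSucc 28177919, .ofNat 76671360, .negSucc 77733119, .ofNat 29692800, .negSucc 4876799]),
  (22139740, [.ofNat 0, .negSucc 4622399, .negSucc 7174799, .ofNat 15357120, .negSucc 6986639, .ofNat 1280160]),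
  (22139746, [.ofNat 0, .negSucc 27763199, .ofNat 62584320, .negSucc 56365439, .ofNat 20336640, .negSucc 3169919]),
  (22140005, [.ofNat 0, .negSucc 15350399, .ofNat 18987360, .negSucc 9423359, .ofNat 2052960, .negSucc 121919]),
  (22189725, [.ofNat 0, .ofNat 4360320, .negSucc 41627039, .ofNat 51615360, .negSucc 20887199, .ofNat 3535680]),
  (22189731, [.ofNat 0, .ofNat 39962880, .negSucc 74839679, .ofNat 59059200, .negSucc 19766399, .ofNat 2926080]),
  (22190293, [.ofNat 0, .ofNat 9717120, .ofNat 51601440, .negSucc 80858879, .ofNat 34962720, .negSucc 6217919]),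
  (22193765, [.ofNat 0, .ofNat 1359360, .negSucc 15515519, .ofNat 20605440, .negSucc 8542079, .ofNat 1463040]),
  (22193933, [.ofNat 0, .ofNat 9717120, .ofNat 51601440, .negSucc 80858879, .ofNat 34962720, .negSucc 6217919]),
  (22194381, [.ofNat 0, .ofNat 2903040, .ofNat 63688320, .negSucc 90019199, .ofNat 37829760, .negSucc 6583679]),
  (22196893, [.ofNat 0, .negSucc 45069119, .ofNat 86195280, .negSucc 68279999, .ofNat 23213520, .negSucc 3474719]),
  (22196899, [.ofNat 0, .negSucc 10719359, .ofNat 13866720, .negSucc 7645439, .ofNat 1809120, .negSucc 121919]),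
  (22196972, [.ofNat 0, .negSucc 117155519, .ofNat 231426960, .negSucc 194825279, .ofNat 67128720, .negSucc 10302239]),
  (22197011, [.ofNat 0, .negSucc 16289279, .ofNat 85641600, .negSucc 99204479, .ofNat 39292800, .negSucc 6583679]),
  (22197034, [.ofNat 0, .negSucc 15664319, .ofNat 47258640, .negSucc 48313919, .ofNat 18293520, .negSucc 2987039]),
  (22198603, [.ofNat 0, .negSucc 8677439, .ofNat 25557360, .negSucc 26375999, .ofNat 10097520, .negSucc 1645919]),
  (22201675, [.ofNat 0, .negSucc 21663359, .ofNat 16529760, .negSucc 1658879, .negSucc 1291679, .ofNat 365760]),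
  (22328668, [.ofNat 0, .ofNat 121590720, .negSucc 268617359, .ofNat 239580480, .negSucc 85890959, .ofNat 13228320]),
  (22329501, [.ofNat 0, .negSucc 40443839, .ofNat 90860880, .negSucc 80107199, .ofNat 28664400, .negSucc 4450079]),
  (22333085, [.ofNat 0, .ofNat 1359360, .ofNat 4160640, .negSucc 6627839, .ofNat 2847360, .negSucc 487679]),
  (22334115, [.ofNat 0, .ofNat 123802560, .negSucc 268452239, .ofNat 236913600, .negSucc 84589199, .ofNat 12984480]),
  (22334227, [.ofNat 0, .negSucc 21957119, .ofNat 79731840, .negSucc 85263359, .ofNat 33037440, .negSucc 5364479]),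
  (22362219, [.ofNat 0, .ofNat 46163520, .negSucc 128327279, .ofNat 125094720, .negSucc 46704239, .ofNat 7498080]),
  (22397597, [.ofNat 0, .ofNat 63452160, .negSucc 129980639, .ofNat 108781440, .negSucc 37845599, .ofNat 5730240]),
  (22398053, [.ofNat 0, .ofNat 1359360, .negSucc 15515519, .ofNat 20605440, .negSucc 8542079, .ofNat 1463040]),
  (22401699, [.ofNat 0, .negSucc 16122239, .ofNat 16138560, .negSucc 4819199, .negSucc 905279, .ofNat 243840]),
  (22403274, [.ofNat 0, .ofNat 34272000, .negSucc 92182079, .ofNat 96946560, .negSucc 38272319, .ofNat 6339840]),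
  (156117789, [.ofNat 2756160, .ofNat 1612560, .negSucc 5574719, .ofNat 2499600, .negSucc 548639]),
  (156125867, [.ofNat 65174400, .negSucc 149884319, .ofNat 137288640, .negSucc 48844319, .ofNat 7802880]),
  (156128555, [.negSucc 36570239, .ofNat 99039840, .negSucc 95999039, .ofNat 36415200, .negSucc 5852159]),
  (156129451, [.ofNat 28604160, .negSucc 50844479, .ofNat 41289600, .negSucc 12429119, .ofNat 1950720]),
  (156150045, [.ofNat 3064320, .negSucc 3830399, .ofNat 1777920, .negSucc 243839]),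
  (156318059, [.ofNat 55255680, .negSucc 143898719, .ofNat 135783360, .negSucc 50573279, .ofNat 8046720]),
  (156326109, [.ofNat 3064320, .negSucc 3830399, .ofNat 1777920, .negSucc 243839]),
  (156346731, [.ofNat 57398400, .negSucc 160059359, .ofNat 156388800, .negSucc 59115359, .ofNat 9509760]),
  (156347109, [.negSucc 29430719, .ofNat 100932240, .negSucc 106272959, .ofNat 40644240, .negSucc 6644639]),
  (156347116, [.ofNat 2756160, .ofNat 6370320, .negSucc 10357439, .ofNat 4500240, .negSucc 792479]),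
  (156347165, [.ofNat 161596800, .negSucc 466607839, .ofNat 469955120, .negSucc 169040959, .ofNat 27218640]),
  (156355229, [.ofNat 30021120, .negSucc 19840959, .negSucc 6198319, .negSucc 4213599, .ofNat 457200]),
  (156355285, [.ofNat 30021120, .negSucc 19840959, .negSucc 6198319, .negSucc 4213599, .ofNat 457200]),
  (156357861, [.ofNat 30723840, .negSucc 52756799, .ofNat 39758400, .negSucc 13970879, .ofNat 2072640]),
  (156357868, [.ofNat 2756160, .ofNat 6370320, .negSucc 10357439, .ofNat 4500240, .negSucc 792479]),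
  (156357987, [.negSucc 25459199, .ofNat 81582720, .negSucc 84403199, .ofNat 32622720, .negSucc 5364479]),
  (156412125, [.ofNat 3064320, .negSucc 3830399, .ofNat 1777920, .negSucc 243839]),
  (156416339, [.ofNat 23584320, .negSucc 54649199, .ofNat 50032320, .negSucc 18199919, .ofNat 2865120]),
  (156419755, [.ofNat 65174400, .negSucc 149884319, .ofNat 137288640, .negSucc 48844319, .ofNat 7802880]),
  (156419923, [.ofNat 23584320, .negSucc 54649199, .ofNat 50032320, .negSucc 18199919, .ofNat 2865120]),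
  (156608741, [.ofNat 116749440, .negSucc 313891679, .ofNat 305020800, .negSucc 114680159, .ofNat 18409920]),
  (156608797, [.ofNat 3064320, .negSucc 3830399, .ofNat 1777920, .negSucc 243839]),
  (156615909, [.ofNat 62910720, .negSucc 152076479, .ofNat 140456640, .negSucc 52115519, .ofNat 8168640]),
  (156616035, [.negSucc 25459199, .ofNat 81582720, .negSucc 84403199, .ofNat 32622720, .negSucc 5364479]),
  (156616357, [.negSucc 153351359, .ofNat 404020560, .negSucc 390852479, .ofNat 146588880, .negSucc 23591519]),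
  (156641053, [.negSucc 123330239, .ofNat 384179600, .negSucc 397050799, .ofNat 142375280, .negSucc 23134319]),
  (156649131, [.ofNat 65174400, .negSucc 149884319, .ofNat 137288640, .negSucc 48844319, .ofNat 7802880]),
  (156653331, [.ofNat 28177920, .negSucc 76671359, .ofNat 77733120, .negSucc 29692799, .ofNat 4876800]),
  (170510188, [.ofNat 0, .negSucc 11289599, .ofNat 13422720, .negSucc 4035839, .ofNat 731520]),
  (170539371, [.ofNat 22060800, .negSucc 52050239, .ofNat 49248000, .negSucc 19924799, .ofNat 3169920]),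
  (170539875, [.ofNat 22060800, .negSucc 52050239, .ofNat 49248000, .negSucc 19924799, .ofNat 3169920]),
  (170546917, [.ofNat 22060800, .negSucc 52050239, .ofNat 49248000, .negSucc 19924799, .ofNat 3169920]),
  (170547421, [.ofNat 7574400, .negSucc 15386399, .ofNat 15980160, .negSucc 5828639, .ofNat 1097280]),
  (170572579, [.ofNat 3064320, .negSucc 3830399, .ofNat 1777920, .negSucc 243839]),
  (170744093, [.ofNat 8064000, .negSucc 19775999, .ofNat 15885120, .negSucc 5654399, .ofNat 853440]),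
  (170744156, [.ofNat 59351040, .negSucc 160554239, .ofNat 156043200, .negSucc 57959039, .ofNat 9387840]),
  (170771820, [.ofNat 128882880, .negSucc 379623119, .ofNat 388363200, .negSucc 146531279, .ofNat 23835360]),
  (170773290, [.negSucc 37238399, .ofNat 104669280, .negSucc 110294399, .ofNat 43056480, .negSucc 7193279]),
  (170797419, [.negSucc 288167039, .ofNat 869523040, .negSucc 880090719, .ofNat 323353120, .negSucc 52364639]),
  (170800492, [.ofNat 0, .ofNat 783360, .negSucc 645119]),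
  (170801836, [.ofNat 0, .ofNat 783360, .negSucc 645119]),
  (170805917, [.negSucc 290459519, .ofNat 897274400, .negSucc 923902879, .ofNat 329295200, .negSucc 53339999]),
  (170808668, [.ofNat 0, .ofNat 783360, .negSucc 645119]),
  (170810012, [.ofNat 0, .ofNat 783360, .negSucc 645119]),
  (170810019, [.negSucc 21467519, .ofNat 53557920, .negSucc 53909759, .ofNat 20280480, .negSucc 3291839]),
  (170837676, [.negSucc 16312319, .ofNat 72459520, .negSucc 81498879, .ofNat 30895360, .negSucc 5120639]),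
  (170838187, [.negSucc 176705279, .ofNat 501116480, .negSucc 505590079, .ofNat 185566400, .negSucc 30358079]),
  (170842275, [.negSucc 260994239, .ofNat 784912720, .negSucc 796203519, .ofNat 291831760, .negSucc 47609759]),
  (171027173, [.ofNat 0, .negSucc 3041279, .ofNat 3029280, .negSucc 1312319, .ofNat 182880]),
  (171034474, [.negSucc 1359359, .negSucc 9333119, .ofNat 10629120, .negSucc 3742079, .ofNat 487680]),
  (171038877, [.negSucc 48239999, .ofNat 131064480, .negSucc 127459199, .ofNat 44096160, .negSucc 6827519]),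
  (171039458, [.ofNat 26254080, .negSucc 91993919, .ofNat 87793920, .negSucc 35676479, .ofNat 5120640]),
  (171059051, [.negSucc 34271999, .ofNat 92182080, .negSucc 96946559, .ofNat 38272320, .negSucc 6339839]),
  (171064042, [.negSucc 69442559, .ofNat 207279360, .negSucc 213512639, .ofNat 76813440, .negSucc 12557759]),
  (171095325, [.ofNat 0, .ofNat 4504320, .negSucc 5621759, .ofNat 1824000, .negSucc 243839]),
  (171095388, [.ofNat 0, .negSucc 2741759, .ofNat 3369600, .negSucc 1582079, .ofNat 243840]),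
  (171096221, [.ofNat 0, .ofNat 4504320, .negSucc 5621759, .ofNat 1824000, .negSucc 243839]),
  (171096739, [.ofNat 93067200, .negSucc 278816399, .ofNat 283833600, .negSucc 105353999, .ofNat 17251680]),
  (171099357, [.negSucc 20822399, .ofNat 65569440, .negSucc 62851199, .ofNat 22849440, .negSucc 3535679]),
  (171103907, [.ofNat 28177920, .negSucc 76671359, .ofNat 77733120, .negSucc 29692799, .ofNat 4876800]),
  (171288861, [.negSucc 25459199, .ofNat 72044160, .negSucc 74205119, .ofNat 28270080, .negSucc 4754879]),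
  (171297002, [.negSucc 138885119, .ofNat 414558720, .negSucc 427025279, .ofNat 153626880, .negSucc 25115519]),
  (171300642, [.negSucc 66378239, .ofNat 203448960, .negSucc 211734719, .ofNat 76569600, .negSucc 12557759]),
  (171324701, [.ofNat 1952640, .ofNat 2039520, .negSucc 2860799, .ofNat 2200800, .negSucc 487679])]

/-- data -/
def lV12x3 : List (ℕ × List ℤ) := [(171324764, [.ofNat 0, .negSucc 201599, .ofNat 1303680, .negSucc 36479, .negSucc 121919]),
  (171325226, [.negSucc 74476799, .ofNat 209338560, .negSucc 220588799, .ofNat 86112960, .negSucc 14386559]),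
  (171326115, [.negSucc 142318079, .ofNat 522808320, .negSucc 552960959, .ofNat 201816960, .negSucc 32430719]),
  (171328733, [.negSucc 20822399, .ofNat 65569440, .negSucc 62851199, .ofNat 22849440, .negSucc 3535679]),
  (171333850, [.negSucc 37238399, .ofNat 93379680, .negSucc 96871679, .ofNat 39020640, .negSucc 6461759]),
  (171358434, [.ofNat 13127040, .negSucc 45996959, .ofNat 43896960, .negSucc 17838239, .ofNat 2560320]),
  (172374379, [.ofNat 44121600, .negSucc 104100479, .ofNat 98496000, .negSucc 39849599, .ofNat 6339840]),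
  (172374827, [.ofNat 51287040, .negSucc 137541119, .ofNat 135732480, .negSucc 51087359, .ofNat 8290560]),
  (172374883, [.ofNat 44121600, .negSucc 104100479, .ofNat 98496000, .negSucc 39849599, .ofNat 6339840]),
  (172381995, [.ofNat 51287040, .negSucc 137541119, .ofNat 135732480, .negSucc 51087359, .ofNat 8290560]),
  (172407587, [.negSucc 26991359, .ofNat 78972480, .negSucc 88535039, .ofNat 35933760, .negSucc 6095999]),
  (172803948, [.negSucc 23708159, .ofNat 62179200, .negSucc 57319679, .ofNat 21720960, .negSucc 3413759]),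
  (172804844, [.negSucc 21404159, .ofNat 54134400, .negSucc 52471679, .ofNat 19605120, .negSucc 3169919]),
  (172808428, [.ofNat 8677440, .negSucc 25557359, .ofNat 26376000, .negSucc 10097519, .ofNat 1645920]),
  (172889964, [.negSucc 2303999, .ofNat 8044800, .negSucc 4847999, .ofNat 2115840, .negSucc 243839]),
  (172890860, [.ofNat 323982720, .negSucc 949910559, .ofNat 960922720, .negSucc 354292959, .ofNat 57485280]),
  (172890972, [.ofNat 35815680, .negSucc 80387519, .ofNat 80832000, .negSucc 30939839, .ofNat 5120640]),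
  (172899148, [.ofNat 35815680, .negSucc 80387519, .ofNat 80832000, .negSucc 30939839, .ofNat 5120640]),
  (172905189, [.ofNat 75369600, .negSucc 211935199, .ofNat 211385600, .negSucc 76175839, .ofNat 12192000]),
  (172905196, [.ofNat 82094400, .negSucc 237372079, .ofNat 240636800, .negSucc 87387439, .ofNat 14081760]),
  (172905259, [.ofNat 2891520, .negSucc 10271039, .ofNat 10978560, .negSucc 4411199, .ofNat 731520]),
  (172905315, [.ofNat 0, .negSucc 22579199, .ofNat 26845440, .negSucc 8071679, .ofNat 1463040]),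
  (172906316, [.ofNat 35815680, .negSucc 80387519, .ofNat 80832000, .negSucc 30939839, .ofNat 5120640]),
  (172923235, [.ofNat 51287040, .negSucc 137541119, .ofNat 135732480, .negSucc 51087359, .ofNat 8290560]),
  (172931180, [.negSucc 288167039, .ofNat 869523040, .negSucc 880090719, .ofNat 323353120, .negSucc 52364639]),
  (172931404, [.ofNat 54950400, .negSucc 136540799, .ofNat 129253920, .negSucc 47440319, .ofNat 7620000]),
  (172933861, [.ofNat 112167360, .negSucc 392707599, .ofNat 420634720, .negSucc 150183759, .ofNat 24384000]),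
  (172933868, [.ofNat 335537280, .negSucc 1009195359, .ofNat 1031553760, .negSucc 374812959, .ofNat 60899040]),
  (172933931, [.negSucc 28972799, .ofNat 73327680, .negSucc 66535679, .ofNat 28192320, .negSucc 4145279]),
  (172933987, [.negSucc 6143039, .ofNat 6171120, .negSucc 3146879, .ofNat 701040, .negSucc 60959]),
  (172934988, [.ofNat 55535040, .negSucc 140445839, .ofNat 136686720, .negSucc 50814479, .ofNat 8229600]),
  (172935779, [.negSucc 57430079, .ofNat 143712240, .negSucc 138879359, .ofNat 51788400, .negSucc 8351519]),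
  (172939531, [.negSucc 20724479, .ofNat 56214720, .negSucc 55785599, .ofNat 21028800, .negSucc 3413759]),
  (173062507, [.ofNat 58478400, .negSucc 163331759, .ofNat 161733120, .negSucc 60901679, .ofNat 9814560]),
  (173063011, [.ofNat 186520320, .negSucc 612116159, .ofNat 629982720, .negSucc 225524159, .ofNat 36454080]),
  (173070109, [.ofNat 303940800, .negSucc 906091599, .ofNat 912579040, .negSucc 336115599, .ofNat 54376320]),
  (173070179, [.ofNat 315403200, .negSucc 991739279, .ofNat 1018345920, .negSucc 372055439, .ofNat 60289440]),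
  (173119851, [.ofNat 58478400, .negSucc 163331759, .ofNat 161733120, .negSucc 60901679, .ofNat 9814560]),
  (173120299, [.negSucc 47568959, .ofNat 212492400, .negSucc 231518399, .ofNat 78249840, .negSucc 12618719]),
  (173120348, [.ofNat 2142720, .negSucc 16160639, .ofNat 20605440, .negSucc 8542079, .ofNat 1463040]),
  (173132493, [.negSucc 68270399, .ofNat 195425200, .negSucc 200351679, .ofNat 77445040, .negSucc 12862559]),
  (173134565, [.negSucc 301944959, .ofNat 1004239840, .negSucc 1045798239, .ofNat 378601120, .negSucc 61386719]),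
  (173134621, [.ofNat 0, .negSucc 7130879, .ofNat 7592640, .negSucc 3830399, .ofNat 609600]),
  (173134635, [.negSucc 71285759, .ofNat 262945920, .negSucc 278117759, .ofNat 95237760, .negSucc 15361919]),
  (173135468, [.ofNat 8064000, .negSucc 7582079, .ofNat 2522880, .negSucc 17279, .ofNat 121920]),
  (173135979, [.negSucc 49521599, .ofNat 215873040, .negSucc 233893439, .ofNat 78961680, .negSucc 12740639]),
  (173136077, [.negSucc 62375039, .ofNat 170842720, .negSucc 170939199, .ofNat 66058720, .negSucc 10972799]),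
  (173136203, [.negSucc 49521599, .ofNat 215873040, .negSucc 233893439, .ofNat 78961680, .negSucc 12740639]),
  (173136483, [.ofNat 128882880, .negSucc 379623119, .ofNat 388363200, .negSucc 146531279, .ofNat 23835360]),
  (173136651, [.ofNat 82434240, .negSucc 248971599, .ofNat 251800000, .negSucc 89895759, .ofNat 14447520]),
  (173161291, [.ofNat 2142720, .negSucc 16160639, .ofNat 20605440, .negSucc 8542079, .ofNat 1463040]),
  (173168333, [.negSucc 20724479, .ofNat 56214720, .negSucc 55785599, .ofNat 21028800, .negSucc 3413759]),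
  (173168459, [.ofNat 24842880, .negSucc 57045599, .ofNat 54568320, .negSucc 20742239, .ofNat 3291840]),
  (173184811, [.ofNat 1952640, .negSucc 3380639, .ofNat 2375040, .negSucc 711839, .ofNat 121920]),
  (173191916, [.ofNat 6128640, .negSucc 7660799, .ofNat 3555840, .negSucc 487679]),
  (173192035, [.ofNat 8677440, .negSucc 25557359, .ofNat 26376000, .negSucc 10097519, .ofNat 1645920]),
  (173193323, [.negSucc 21764159, .ofNat 54203760, .negSucc 51816959, .ofNat 20106480, .negSucc 3230879]),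
  (173193547, [.ofNat 8677440, .negSucc 25154159, .ofNat 25485600, .negSucc 9798959, .ofNat 1584960]),
  (173193827, [.ofNat 293639040, .negSucc 937535519, .ofNat 966528960, .negSucc 351948959, .ofNat 57058560]),
  (173200995, [.ofNat 117731520, .negSucc 422667599, .ofNat 443452800, .negSucc 155470799, .ofNat 25176480]),
  (173201163, [.negSucc 4256639, .negSucc 19830879, .ofNat 31384000, .negSucc 8427999, .ofNat 1463040]),
  (173324587, [.negSucc 21404159, .ofNat 54134400, .negSucc 52471679, .ofNat 19605120, .negSucc 3169919]),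
  (173328227, [.ofNat 82434240, .negSucc 248971599, .ofNat 251800000, .negSucc 89895759, .ofNat 14447520]),
  (173381917, [.ofNat 11560320, .negSucc 15071519, .ofNat 6515520, .negSucc 2224799, .ofNat 365760]),
  (173381931, [.negSucc 216604799, .ofNat 728183520, .negSucc 749169599, .ofNat 268998240, .negSucc 43159679]),
  (173392683, [.negSucc 20822399, .ofNat 65569440, .negSucc 62851199, .ofNat 22849440, .negSucc 3535679]),
  (173414173, [.negSucc 57398399, .ofNat 156470880, .negSucc 152439359, .ofNat 57565920, .negSucc 9265919]),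
  (173421341, [.negSucc 57398399, .ofNat 159149280, .negSucc 155782079, .ofNat 59007840, .negSucc 9509759]),
  (173421355, [.ofNat 323781120, .negSucc 1050994559, .ofNat 1084745760, .negSucc 398197439, .ofNat 64556640]),
  (173421404, [.ofNat 94803840, .negSucc 236851999, .ofNat 234570560, .negSucc 83361439, .ofNat 13655040]),
  (173423196, [.ofNat 86739840, .negSucc 227449759, .ofNat 230028800, .negSucc 81091999, .ofNat 13167360]),
  (173430364, [.ofNat 86739840, .negSucc 227449759, .ofNat 230028800, .negSucc 81091999, .ofNat 13167360]),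
  (173430539, [.ofNat 24842880, .negSucc 57045599, .ofNat 54568320, .negSucc 20742239, .ofNat 3291840]),
  (174410588, [.ofNat 104198400, .negSucc 297795519, .ofNat 298010560, .negSucc 107007039, .ofNat 17190720]),
  (174414060, [.negSucc 59351039, .ofNat 160531200, .negSucc 155547839, .ofNat 58385280, .negSucc 9387839]),
  (174414109, [.ofNat 274996800, .negSucc 833274479, .ofNat 845633760, .negSucc 302174639, .ofNat 48646080]),
  (174414172, [.ofNat 59351040, .negSucc 160554239, .ofNat 156043200, .negSucc 57959039, .ofNat 9387840]),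
  (174467813, [.ofNat 0, .ofNat 1399680, .negSucc 1464479, .ofNat 346560, .negSucc 60959]),
  (174467820, [.negSucc 5601599, .negSucc 9182159, .ofNat 16344960, .negSucc 6791759, .ofNat 1158240]),
  (174467869, [.ofNat 0, .negSucc 3582719, .ofNat 4535040, .negSucc 1493759, .ofNat 243840]),
  (174467932, [.ofNat 178070400, .negSucc 580247839, .ofNat 597069440, .negSucc 212103199, .ofNat 34015680]),
  (174471845, [.ofNat 0, .ofNat 1399680, .negSucc 1464479, .ofNat 346560, .negSucc 60959]),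
  (174471852, [.negSucc 109172159, .ofNat 372267280, .negSucc 395540319, .ofNat 141889360, .negSucc 23164799]),
  (174472034, [.negSucc 101888639, .ofNat 334214240, .negSucc 349568479, .ofNat 134765600, .negSucc 22128479]),
  (174475947, [.ofNat 6655680, .negSucc 104762959, .ofNat 130314080, .negSucc 46486159, .ofNat 7559040]),
  (174478565, [.ofNat 0, .negSucc 3041279, .ofNat 3029280, .negSucc 1312319, .ofNat 182880]),
  (174478572, [.ofNat 0, .ofNat 679680, .negSucc 733439, .ofNat 107520]),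
  (174478621, [.ofNat 88640640, .negSucc 316627039, .ofNat 334481120, .negSucc 119351839, .ofNat 18958560]),
  (174478635, [.ofNat 0, .ofNat 6266880, .negSucc 6862079, .ofNat 3225600, .negSucc 487679]),
  (174480028, [.negSucc 37111679, .ofNat 13942560, .ofNat 9314880, .ofNat 5346720, .negSucc 975359]),
  (174480035, [.ofNat 355233600, .negSucc 1229069999, .ofNat 1283037600, .negSucc 464319599, .ofNat 75102720]),
  (174480098, [.ofNat 82434240, .negSucc 248971599, .ofNat 251800000, .negSucc 89895759, .ofNat 14447520]),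
  (174500076, [.ofNat 38715840, .negSucc 91631759, .ofNat 84833760, .negSucc 31642319, .ofNat 5059680]),
  (174500125, [.ofNat 211446720, .negSucc 680559759, .ofNat 697374400, .negSucc 248939919, .ofNat 40050720]),
  (174500188, [.ofNat 20635200, .negSucc 68173679, .ofNat 69588000, .negSucc 26625839, .ofNat 4206240]),
  (174504108, [.ofNat 67415040, .negSucc 178118399, .ofNat 171721920, .negSucc 64855679, .ofNat 10363200]),
  (174504290, [.negSucc 153351359, .ofNat 404020560, .negSucc 390852479, .ofNat 146588880, .negSucc 23591519]),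
  (174507293, [.ofNat 0, .negSucc 5788799, .ofNat 7432320, .negSucc 3154559, .ofNat 365760]),
  (174507356, [.ofNat 5990400, .negSucc 22594559, .ofNat 25415040, .negSucc 9381119, .ofNat 1341120]),
  (174508189, [.ofNat 239569920, .negSucc 833397119, .ofNat 874859040, .negSucc 312542399, .ofNat 50413920])]

/-- data -/
def lV12x4 : List (ℕ × List ℤ) := [(174508203, [.ofNat 211446720, .negSucc 680559759, .ofNat 697374400, .negSucc 248939919, .ofNat 40050720]),
  (174508770, [.negSucc 136261439, .ofNat 443322800, .negSucc 463922239, .ofNat 160053680, .negSucc 25907999]),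
  (174512284, [.ofNat 15773760, .negSucc 31188719, .ofNat 26881920, .negSucc 9767279, .ofNat 1524000]),
  (174512340, [.ofNat 11926080, .negSucc 26713199, .ofNat 25104000, .negSucc 9523439, .ofNat 1524000]),
  (174643436, [.negSucc 7554239, .negSucc 18329519, .ofNat 28375680, .negSucc 11899439, .ofNat 1889760]),
  (174643485, [.negSucc 1952639, .negSucc 5363039, .ofNat 9614400, .negSucc 4278239, .ofNat 731520]),
  (174725917, [.negSucc 24546239, .ofNat 81984400, .negSucc 78750399, .ofNat 29165200, .negSucc 4328159]),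
  (174725980, [.ofNat 20286720, .negSucc 142528319, .ofNat 161754240, .negSucc 52219199, .ofNat 8290560]),
  (174734093, [.ofNat 51503040, .negSucc 135252239, .ofNat 127361760, .negSucc 48025679, .ofNat 7680960]),
  (174738125, [.ofNat 9195840, .ofNat 409680, .negSucc 4366079, .ofNat 1475280, .negSucc 182879]),
  (174740253, [.ofNat 66075840, .negSucc 178464079, .ofNat 175599680, .negSucc 61808719, .ofNat 10058400]),
  (174741597, [.ofNat 0, .negSucc 1405439, .ofNat 2609280, .negSucc 1432319, .ofNat 243840]),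
  (174758236, [.negSucc 157783679, .ofNat 437719520, .negSucc 435315199, .ofNat 159884000, .negSucc 25725119]),
  (174768939, [.ofNat 0, .negSucc 1405439, .ofNat 2609280, .negSucc 1432319, .ofNat 243840]),
  (174769765, [.ofNat 0, .negSucc 3041279, .ofNat 3029280, .negSucc 1312319, .ofNat 182880]),
  (174770269, [.ofNat 8064000, .negSucc 12938879, .ofNat 9208320, .negSucc 2901119, .ofNat 609600]),
  (174905509, [.negSucc 93067199, .ofNat 297133200, .negSucc 304214399, .ofNat 114666000, .negSucc 18714719]),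
  (174934797, [.ofNat 28177920, .negSucc 76671359, .ofNat 77733120, .negSucc 29692799, .ofNat 4876800]),
  (175024460, [.ofNat 5719680, .negSucc 9650399, .ofNat 8064000, .negSucc 2627039, .ofNat 365760]),
  (175031124, [.ofNat 216316800, .negSucc 712129759, .ofNat 748458320, .negSucc 273541759, .ofNat 44714160]),
  (175031138, [.ofNat 33675840, .negSucc 163616239, .ofNat 185588960, .negSucc 66793519, .ofNat 10850880]),
  (175031628, [.ofNat 129049920, .negSucc 393829999, .ofNat 405114800, .negSucc 145002319, .ofNat 23500080]),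
  (175032930, [.negSucc 65206079, .ofNat 191594800, .negSucc 198573759, .ofNat 77201200, .negSucc 12862559]),
  (175156060, [.negSucc 5279039, .ofNat 5609520, .negSucc 4186559, .ofNat 1293360, .negSucc 182879]),
  (175159980, [.negSucc 125484479, .ofNat 444726800, .negSucc 477039199, .ofNat 172784720, .negSucc 28285439]),
  (175160162, [.negSucc 158711039, .ofNat 513568320, .negSucc 536159519, .ofNat 200976000, .negSucc 32857439]),
  (175166700, [.negSucc 7231679, .ofNat 2677200, .ofNat 1450560, .negSucc 1934639, .ofNat 426720]),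
  (175166763, [.ofNat 0, .negSucc 5713919, .ofNat 6649440, .negSucc 2258879, .ofNat 304800]),
  (175167148, [.ofNat 0, .ofNat 322560, .ofNat 715200, .negSucc 332159, .ofNat 121920]),
  (175167330, [.ofNat 221950080, .negSucc 658439519, .ofNat 672196800, .negSucc 251885279, .ofNat 41087040]),
  (175167645, [.negSucc 49844159, .ofNat 162819600, .negSucc 169473599, .ofNat 64450320, .negSucc 10911839]),
  (175167659, [.ofNat 88640640, .negSucc 316627039, .ofNat 334481120, .negSucc 119351839, .ofNat 18958560]),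
  (175167834, [.ofNat 59351040, .negSucc 161268479, .ofNat 155974080, .negSucc 58385279, .ofNat 9387840]),
  (175168226, [.ofNat 108158400, .negSucc 323408399, .ofNat 332577600, .negSucc 125502479, .ofNat 20421600]),
  (175192845, [.ofNat 51503040, .negSucc 135252239, .ofNat 127361760, .negSucc 48025679, .ofNat 7680960]),
  (175192908, [.ofNat 0, .ofNat 403200, .negSucc 890399, .ofNat 298560, .negSucc 60959]),
  (175196877, [.ofNat 35815680, .negSucc 80387519, .ofNat 80832000, .negSucc 30939839, .ofNat 5120640]),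
  (175197003, [.negSucc 6575039, .ofNat 24541200, .negSucc 29816159, .ofNat 12160080, .negSucc 2072639]),
  (175198949, [.negSucc 128197439, .ofNat 387498800, .negSucc 390491839, .ofNat 144015920, .negSucc 23225759]),
  (175198956, [.ofNat 10016640, .negSucc 6055199, .ofNat 1070400, .negSucc 300959, .ofNat 121920]),
  (175199005, [.negSucc 15773759, .ofNat 29437680, .negSucc 24895679, .ofNat 8932080, .negSucc 1402079]),
  (175199019, [.negSucc 21764159, .ofNat 44031600, .negSucc 41195039, .ofNat 14963760, .negSucc 2438399]),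
  (175200972, [.negSucc 36570239, .ofNat 99039840, .negSucc 95999039, .ofNat 36415200, .negSucc 5852159]),
  (175201035, [.negSucc 98095679, .ofNat 260121840, .negSucc 255069119, .ofNat 96015600, .negSucc 15544799]),
  (175217317, [.negSucc 166734719, .ofNat 471356960, .negSucc 461341279, .ofNat 160621280, .negSucc 25176479]),
  (175217506, [.negSucc 180961919, .ofNat 596002400, .negSucc 614787199, .ofNat 219678560, .negSucc 35234879]),
  (175233130, [.ofNat 53455680, .negSucc 132101039, .ofNat 122590560, .negSucc 45680879, .ofNat 7315200]),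
  (175233634, [.ofNat 102263040, .negSucc 298825919, .ofNat 303165120, .negSucc 114116159, .ofNat 18531840]),
  (175233676, [.negSucc 5279039, .ofNat 5609520, .negSucc 4186559, .ofNat 1293360, .negSucc 182879]),
  (175250259, [.ofNat 11560320, .negSucc 15071519, .ofNat 6515520, .negSucc 2224799, .ofNat 365760]),
  (175250266, [.negSucc 195782399, .ofNat 662614080, .negSucc 686318399, .ofNat 246148800, .negSucc 39623999]),
  (175264413, [.negSucc 1952639, .ofNat 120480, .ofNat 2875200, .negSucc 1114079, .ofNat 243840]),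
  (175264861, [.ofNat 274996800, .negSucc 823758959, .ofNat 835614240, .negSucc 297979439, .ofNat 48158400]),
  (175265365, [.negSucc 21404159, .ofNat 54134400, .negSucc 52471679, .ofNat 19605120, .negSucc 3169919]),
  (175265386, [.negSucc 57974399, .ofNat 153174240, .negSucc 148470719, .ofNat 56020320, .negSucc 9022079]),
  (175265610, [.negSucc 26991359, .ofNat 78972480, .negSucc 88535039, .ofNat 35933760, .negSucc 6095999]),
  (175281388, [.negSucc 7554239, .negSucc 18329519, .ofNat 28375680, .negSucc 11899439, .ofNat 1889760]),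
  (175281437, [.ofNat 79401600, .negSucc 278901599, .ofNat 295785120, .negSucc 108803999, .ofNat 17861280]),
  (175281500, [.ofNat 0, .ofNat 944640, .negSucc 950399, .ofNat 126720]),
  (175281507, [.ofNat 7554240, .ofNat 27718320, .negSucc 39805439, .ofNat 15808560, .negSucc 2621279]),
  (175281941, [.ofNat 49844160, .negSucc 165515279, .ofNat 170216640, .negSucc 65475599, .ofNat 10911840]),
  (175282004, [.negSucc 5601599, .negSucc 7759439, .ofNat 15045120, .negSucc 5576399, .ofNat 1280160]),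
  (175282333, [.ofNat 0, .ofNat 910080, .negSucc 606719, .ofNat 107520]),
  (175282347, [.ofNat 0, .negSucc 3559679, .ofNat 4699680, .negSucc 624959, .ofNat 426720]),
  (175282410, [.negSucc 1952639, .ofNat 8363040, .negSucc 8040959, .ofNat 2760480, .negSucc 243839]),
  (175282522, [.ofNat 59351040, .negSucc 161268479, .ofNat 155974080, .negSucc 58385279, .ofNat 9387840]),
  (175282844, [.ofNat 7554240, .ofNat 27718320, .negSucc 39805439, .ofNat 15808560, .negSucc 2621279]),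
  (175282851, [.ofNat 0, .ofNat 1146240, .negSucc 2254079, .ofNat 163200, .ofNat 121920]),
  (175282914, [.ofNat 77448960, .negSucc 280203839, .ofNat 298219680, .negSucc 111004799, .ofNat 18348960]),
  (175284965, [.ofNat 0, .negSucc 4101119, .ofNat 5021760, .negSucc 2025599, .ofNat 365760]),
  (175284972, [.negSucc 59351039, .ofNat 170069760, .negSucc 165745919, .ofNat 62737920, .negSucc 9997439]),
  (175285021, [.ofNat 0, .negSucc 2108159, .ofNat 2339520, .negSucc 170879, .ofNat 121920]),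
  (175285861, [.ofNat 0, .negSucc 3041279, .ofNat 3029280, .negSucc 1312319, .ofNat 182880]),
  (175286092, [.ofNat 0, .ofNat 725760, .negSucc 175199, .negSucc 33599, .ofNat 60960]),
  (175286477, [.ofNat 51796800, .negSucc 173878319, .ofNat 178257600, .negSucc 68236079, .ofNat 11155680]),
  (175288997, [.ofNat 0, .negSucc 6289919, .ofNat 7474560, .negSucc 2687999, .ofNat 487680]),
  (175289004, [.negSucc 13247999, .ofNat 78167680, .negSucc 89919039, .ofNat 35004160, .negSucc 5730239]),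
  (175289172, [.negSucc 5601599, .negSucc 9182159, .ofNat 16344960, .negSucc 6791759, .ofNat 1158240]),
  (175289613, [.negSucc 57398399, .ofNat 169678560, .negSucc 167578559, .ofNat 63492960, .negSucc 10119359]),
  (175289676, [.negSucc 5279039, .ofNat 6738480, .negSucc 5252159, .ofNat 1558320, .negSucc 182879]),
  (175290453, [.ofNat 0, .negSucc 2108159, .ofNat 2339520, .negSucc 170879, .ofNat 121920]),
  (175290474, [.ofNat 53455680, .negSucc 132101039, .ofNat 122590560, .negSucc 45680879, .ofNat 7315200]),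
  (175290509, [.ofNat 0, .negSucc 737279, .ofNat 426240]),
  (175290978, [.ofNat 128882880, .negSucc 379623119, .ofNat 388363200, .negSucc 146531279, .ofNat 23835360]),
  (175293533, [.ofNat 0, .negSucc 6289919, .ofNat 7474560, .negSucc 2687999, .ofNat 487680]),
  (175294037, [.ofNat 0, .negSucc 4101119, .ofNat 5021760, .negSucc 2025599, .ofNat 365760]),
  (175297236, [.ofNat 2891520, .negSucc 10271039, .ofNat 10978560, .negSucc 4411199, .ofNat 731520]),
  (175297299, [.ofNat 73416960, .negSucc 211814719, .ofNat 214260800, .negSucc 77289919, .ofNat 12435840]),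
  (175297306, [.ofNat 75369600, .negSucc 211935199, .ofNat 211385600, .negSucc 76175839, .ofNat 12192000]),
  (175417629, [.negSucc 184602239, .ofNat 529324640, .negSucc 533638399, .ofNat 195432800, .negSucc 32064959]),
  (175421605, [.negSucc 93067199, .ofNat 297133200, .negSucc 304214399, .ofNat 114666000, .negSucc 18714719]),
  (175421612, [.negSucc 8063999, .ofNat 19776000, .negSucc 15885119, .ofNat 5654400, .negSucc 853439]),
  (175421794, [.negSucc 153351359, .ofNat 404020560, .negSucc 390852479, .ofNat 146588880, .negSucc 23591519]),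
  (175424797, [.negSucc 1952639, .negSucc 3323999, .ofNat 4671360, .negSucc 3531359, .ofNat 609600]),
  (175424860, [.ofNat 0, .negSucc 2741759, .ofNat 3369600, .negSucc 1582079, .ofNat 243840]),
  (175425378, [.ofNat 87171840, .negSucc 268749119, .ofNat 271073280, .negSucc 101267519, .ofNat 16581120]),
  (175425693, [.negSucc 246896639, .ofNat 700263680, .negSucc 705073279, .ofNat 257404160, .negSucc 42062399]),
  (175425875, [.negSucc 1952639, .ofNat 3380640, .negSucc 2375039, .ofNat 711840, .negSucc 121919]),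
  (175426211, [.negSucc 8063999, .ofNat 13618560, .negSucc 10043519, .ofNat 4690560, .negSucc 853439]),
  (175426274, [.negSucc 43194239, .ofNat 149991200, .negSucc 163436479, .ofNat 47399840, .negSucc 7437119])]

/-- data -/
def lV12x5 : List (ℕ × List ℤ) := [(175446301, [.ofNat 69177600, .negSucc 183613759, .ofNat 183872000, .negSucc 62688319, .ofNat 10119360]),
  (175457893, [.negSucc 56813759, .ofNat 174718800, .negSucc 176846399, .ofNat 66603600, .negSucc 10789919]),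
  (175458411, [.ofNat 8064000, .negSucc 7582079, .ofNat 2522880, .negSucc 17279, .ofNat 121920]),
  (175458635, [.ofNat 11246400, .negSucc 32370479, .ofNat 34079040, .negSucc 13070639, .ofNat 2133600]),
  (175458908, [.ofNat 5990400, .negSucc 17635199, .ofNat 19328640, .negSucc 7343999, .ofNat 1219200]),
  (175462499, [.ofNat 0, .negSucc 1405439, .ofNat 2609280, .negSucc 1432319, .ofNat 243840]),
  (175483149, [.negSucc 290459519, .ofNat 897274400, .negSucc 923902879, .ofNat 329295200, .negSucc 53339999]),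
  (175489701, [.ofNat 48159360, .negSucc 124460639, .ofNat 119412480, .negSucc 41466719, .ofNat 6461760]),
  (175491157, [.ofNat 69177600, .negSucc 183613759, .ofNat 183872000, .negSucc 62688319, .ofNat 10119360]),
  (175495434, [.negSucc 69442559, .ofNat 207279360, .negSucc 213512639, .ofNat 76813440, .negSucc 12557759]),
  (175510813, [.ofNat 0, .ofNat 2741760, .negSucc 3369599, .ofNat 1582080, .negSucc 243839]),
  (175510876, [.ofNat 0, .negSucc 2741759, .ofNat 3369600, .negSucc 1582079, .ofNat 243840]),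
  (175510883, [.ofNat 0, .ofNat 1866240, .negSucc 2132159, .ofNat 493440, .negSucc 121919]),
  (175511317, [.negSucc 5016959, .ofNat 6992160, .negSucc 5872319, .ofNat 1879200, .negSucc 243839]),
  (175511891, [.ofNat 0, .negSucc 1405439, .ofNat 2609280, .negSucc 1432319, .ofNat 243840]),
  (175512220, [.negSucc 19031039, .ofNat 6212480, .ofNat 6397600, .negSucc 4131519, .ofNat 914400]),
  (175512227, [.negSucc 103394879, .ofNat 267248240, .negSucc 261963199, .ofNat 95104880, .negSucc 15422879]),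
  (175512276, [.ofNat 0, .ofNat 3133440, .negSucc 3431039, .ofNat 1612800, .negSucc 243839]),
  (175512290, [.negSucc 43194239, .ofNat 146857760, .negSucc 160005439, .ofNat 45787040, .negSucc 7193279]),
  (175514397, [.negSucc 44907839, .ofNat 152408880, .negSucc 162039359, .ofNat 62652720, .negSucc 10667999]),
  (175515405, [.negSucc 57398399, .ofNat 156470880, .negSucc 152439359, .ofNat 57565920, .negSucc 9265919]),
  (175515468, [.ofNat 0, .ofNat 3133440, .negSucc 3431039, .ofNat 1612800, .negSucc 243839]),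
  (175515853, [.ofNat 35815680, .negSucc 80387519, .ofNat 80832000, .negSucc 30939839, .ofNat 5120640]),
  (175516252, [.ofNat 51796800, .negSucc 167726639, .ofNat 170974080, .negSucc 64724399, .ofNat 10546080]),
  (175518380, [.negSucc 74384639, .ofNat 280572480, .negSucc 302024159, .ofNat 113214720, .negSucc 18592799]),
  (175518562, [.ofNat 98084160, .negSucc 287795759, .ofNat 287313600, .negSucc 105587759, .ofNat 17129760]),
  (175518989, [.negSucc 191197439, .ofNat 534787520, .negSucc 526586239, .ofNat 194790080, .negSucc 31333439]),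
  (175519052, [.ofNat 138752640, .negSucc 431507039, .ofNat 441712800, .negSucc 164015519, .ofNat 26639520]),
  (175523021, [.negSucc 286853759, .ofNat 980067040, .negSucc 1020751839, .ofNat 368690080, .negSucc 59679839]),
  (175523413, [.ofNat 90763200, .negSucc 338573199, .ofNat 368163040, .negSucc 130578639, .ofNat 21214080]),
  (175523434, [.negSucc 21404159, .ofNat 54134400, .negSucc 52471679, .ofNat 19605120, .negSucc 3169919]),
  (175524554, [.negSucc 138885119, .ofNat 414558720, .negSucc 427025279, .ofNat 153626880, .negSucc 25115519]),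
  (175526612, [.ofNat 0, .ofNat 1866240, .negSucc 2132159, .ofNat 493440, .negSucc 121919]),
  (175526626, [.negSucc 136261439, .ofNat 443322800, .negSucc 463922239, .ofNat 160053680, .negSucc 25907999]),
  (175527004, [.negSucc 77448959, .ofNat 284402880, .negSucc 303802079, .ofNat 113458560, .negSucc 18592799]),
  (175544532, [.negSucc 57398399, .ofNat 156470880, .negSucc 152439359, .ofNat 57565920, .negSucc 9265919]),
  (175548508, [.ofNat 178070400, .negSucc 580247839, .ofNat 597069440, .negSucc 212103199, .ofNat 34015680]),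
  (175555298, [.negSucc 98095679, .ofNat 260121840, .negSucc 255069119, .ofNat 96015600, .negSucc 15544799]),
  (175556180, [.negSucc 5990399, .ofNat 17635200, .negSucc 19328639, .ofNat 7344000, .negSucc 1219199]),
  (176532253, [.ofNat 154880640, .negSucc 466203359, .ofNat 471866400, .negSucc 175272479, .ofNat 28468320]),
  (176532267, [.negSucc 93067199, .ofNat 296493840, .negSucc 304161599, .ofNat 114009360, .negSucc 18470879]),
  (176536362, [.ofNat 65174400, .negSucc 149884319, .ofNat 137288640, .negSucc 48844319, .ofNat 7802880]),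
  (176540373, [.ofNat 41270400, .negSucc 126831839, .ofNat 129610560, .negSucc 49250399, .ofNat 7924800]),
  (176542956, [.ofNat 1952640, .ofNat 2241120, .negSucc 4164479, .ofNat 2237280, .negSucc 365759]),
  (176543019, [.negSucc 79401599, .ofNat 278901600, .negSucc 295785119, .ofNat 108804000, .negSucc 17861279]),
  (176543530, [.ofNat 79401600, .negSucc 274529759, .ofNat 290734560, .negSucc 107901599, .ofNat 17861280]),
  (176544419, [.ofNat 180961920, .negSucc 590518879, .ofNat 608048000, .negSucc 216514399, .ofNat 34747200]),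
  (176576213, [.ofNat 11926080, .negSucc 26713199, .ofNat 25104000, .negSucc 9523439, .ofNat 1524000]),
  (176596716, [.ofNat 63478080, .negSucc 143167919, .ofNat 128594880, .negSucc 47636399, .ofNat 7498080]),
  (176600349, [.negSucc 261754559, .ofNat 764526800, .negSucc 760831519, .ofNat 271099280, .negSucc 43037759]),
  (176600363, [.ofNat 0, .ofNat 2695680, .negSucc 2892479, .ofNat 654720, .negSucc 121919]),
  (176600412, [.ofNat 0, .negSucc 2741759, .ofNat 3369600, .negSucc 1582079, .ofNat 243840]),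
  (176601245, [.negSucc 166734719, .ofNat 471356960, .negSucc 461341279, .ofNat 160621280, .negSucc 25176479]),
  (176604829, [.negSucc 155502719, .ofNat 379110880, .negSucc 363075039, .ofNat 122956960, .negSucc 19568159]),
  (176604885, [.ofNat 20828160, .negSucc 61019519, .ofNat 60389760, .negSucc 22700159, .ofNat 3657600]),
  (176804637, [.negSucc 93067199, .ofNat 296493840, .negSucc 304161599, .ofNat 114009360, .negSucc 18470879]),
  (176804651, [.ofNat 0, .ofNat 2695680, .negSucc 2892479, .ofNat 654720, .negSucc 121919]),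
  (176861995, [.negSucc 79401599, .ofNat 278901600, .negSucc 295785119, .ofNat 108804000, .negSucc 17861279]),
  (176999069, [.ofNat 3064320, .negSucc 6940799, .ofNat 6000000, .negSucc 1779839, .ofNat 243840]),
  (176999125, [.ofNat 57398400, .negSucc 156908639, .ofNat 153041280, .negSucc 58155359, .ofNat 9387840]),
  (177001708, [.ofNat 0, .negSucc 1693439, .ofNat 1490880, .negSucc 766079, .ofNat 121920]),
  (177001771, [.ofNat 0, .negSucc 8939519, .ofNat 10482240, .negSucc 4172159, .ofNat 609600]),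
  (177002149, [.negSucc 93067199, .ofNat 297133200, .negSucc 304214399, .ofNat 114666000, .negSucc 18714719]),
  (177002282, [.ofNat 14227200, .negSucc 124242239, .ofNat 152555520, .negSucc 58758719, .ofNat 9997440]),
  (177002653, [.ofNat 0, .ofNat 6266880, .negSucc 6862079, .ofNat 3225600, .negSucc 487679]),
  (177002842, [.ofNat 0, .ofNat 9538560, .negSucc 10198079, .ofNat 4352640, .negSucc 609599]),
  (177003234, [.ofNat 83018880, .negSucc 253279839, .ofNat 260123200, .negSucc 93568479, .ofNat 15118080]),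
  (177033964, [.ofNat 127889280, .negSucc 363379999, .ofNat 360593600, .negSucc 132394399, .ofNat 21457920]),
  (177034027, [.ofNat 81236160, .negSucc 257620559, .ofNat 263137440, .negSucc 96571919, .ofNat 15849600]),
  (177035469, [.ofNat 0, .ofNat 9538560, .negSucc 10198079, .ofNat 4352640, .negSucc 609599]),
  (177035875, [.negSucc 1834559, .negSucc 15906959, .ofNat 26412480, .negSucc 10135439, .ofNat 1645920]),
  (177066850, [.ofNat 164079360, .negSucc 464839999, .ofNat 461673920, .negSucc 167218879, .ofNat 27188160]),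
  (177085085, [.negSucc 25551359, .ofNat 43976320, .negSucc 35391999, .ofNat 12376960, .negSucc 1950719]),
  (177085267, [.ofNat 9725760, .negSucc 30978479, .ofNat 32928000, .negSucc 12360239, .ofNat 2011680]),
  (177085274, [.negSucc 221333759, .ofNat 715529920, .negSucc 732192639, .ofNat 262697920, .negSucc 42184319]),
  (177116844, [.ofNat 15618240, .negSucc 16076879, .ofNat 5567520, .negSucc 2269199, .ofNat 243840]),
  (177116970, [.ofNat 14227200, .negSucc 126085439, .ofNat 155775840, .negSucc 59646719, .ofNat 10180320]),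
  (177117397, [.ofNat 0, .negSucc 1439999, .ofNat 2329920, .negSucc 589439, .ofNat 121920]),
  (177117523, [.ofNat 15618240, .negSucc 16076879, .ofNat 5567520, .negSucc 2269199, .ofNat 243840]),
  (177121611, [.negSucc 15773759, .ofNat 24679920, .negSucc 20112959, .ofNat 6931440, .negSucc 1158239]),
  (177124138, [.ofNat 79401600, .negSucc 274529759, .ofNat 290734560, .negSucc 107901599, .ofNat 17861280]),
  (177128149, [.ofNat 8064000, .negSucc 9402239, .ofNat 4541760, .negSucc 2269439, .ofNat 487680]),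
  (177128275, [.ofNat 1834560, .ofNat 18585360, .negSucc 29755199, .ofNat 11577360, .negSucc 1889759]),
  (177128779, [.ofNat 0, .negSucc 4354559, .ofNat 3892320, .negSucc 1702079, .ofNat 182880]),
  (177132244, [.negSucc 21764159, .ofNat 47072880, .negSucc 44224319, .ofNat 16276080, .negSucc 2621279]),
  (177132258, [.ofNat 73235520, .negSucc 244478319, .ofNat 257610880, .negSucc 93422319, .ofNat 15179040]),
  (177264285, [.ofNat 22158720, .negSucc 142876319, .ofNat 166357920, .negSucc 52285919, .ofNat 8107680]),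
  (177314461, [.negSucc 327496319, .ofNat 1059834080, .negSucc 1095015199, .ofNat 396592160, .negSucc 64190879]),
  (177314650, [.negSucc 25551359, .ofNat 52915840, .negSucc 45874239, .ofNat 16549120, .negSucc 2560319]),
  (177318507, [.ofNat 11560320, .negSucc 15071519, .ofNat 6515520, .negSucc 2224799, .ofNat 365760]),
  (177328797, [.ofNat 164079360, .negSucc 464839999, .ofNat 461673920, .negSucc 167218879, .ofNat 27188160]),
  (177328986, [.ofNat 121245120, .negSucc 373804559, .ofNat 381947520, .negSucc 144358799, .ofNat 23591520]),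
  (177330778, [.negSucc 26035199, .ofNat 76488960, .negSucc 76874879, .ofNat 28742400, .negSucc 4632959]),
  (177378973, [.ofNat 11580480, .negSucc 18587759, .ofNat 19091520, .negSucc 6522479, .ofNat 1158240]),
  (177379029, [.negSucc 25551359, .ofNat 52915840, .negSucc 45874239, .ofNat 16549120, .negSucc 2560319]),
  (177388234, [.negSucc 69442559, .ofNat 207279360, .negSucc 213512639, .ofNat 76813440, .negSucc 12557759]),
  (177517916, [.ofNat 0, .negSucc 201599, .ofNat 1303680, .negSucc 36479, .negSucc 121919]),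
  (177518252, [.negSucc 1952639, .ofNat 3380640, .negSucc 2375039, .ofNat 711840, .negSucc 121919]),
  (177518749, [.ofNat 129568320, .negSucc 433979759, .ofNat 449975040, .negSucc 169086959, .ofNat 27980640]),
  (177519267, [.negSucc 240030719, .ofNat 819943680, .negSucc 856895999, .ofNat 312787200, .negSucc 50596799])]

/-- data -/
def lV12x6 : List (ℕ × List ℤ) := [(177522333, [.negSucc 175429439, .ofNat 518154800, .negSucc 525219199, .ofNat 194728880, .negSucc 32125919]),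
  (177522389, [.ofNat 15549120, .negSucc 55409999, .ofNat 56203200, .negSucc 21406799, .ofNat 3474720]),
  (177542892, [.negSucc 172897919, .ofNat 576226400, .negSucc 598902079, .ofNat 214024160, .negSucc 34381439]),
  (177550060, [.ofNat 0, .ofNat 679680, .negSucc 1185599, .ofNat 627840, .negSucc 121919]),
  (177550172, [.ofNat 8064000, .negSucc 9402239, .ofNat 4541760, .negSucc 2269439, .ofNat 487680]),
  (177550949, [.negSucc 269602559, .ofNat 892474560, .negSucc 926985119, .ofNat 338645760, .negSucc 55168799]),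
  (177551117, [.negSucc 5279039, .ofNat 5609520, .negSucc 4186559, .ofNat 1293360, .negSucc 182879]),
  (177551691, [.ofNat 0, .negSucc 403199, .ofNat 890400, .negSucc 298559, .ofNat 60960]),
  (177575596, [.ofNat 0, .ofNat 184320, .negSucc 129599, .ofNat 992640, .negSucc 121919]),
  (177576149, [.negSucc 21764159, .ofNat 46779120, .negSucc 44148479, .ofNat 15849840, .negSucc 2377439]),
  (177576275, [.ofNat 93067200, .negSucc 296465039, .ofNat 303916800, .negSucc 114266639, .ofNat 18714720]),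
  (177576611, [.negSucc 111476159, .ofNat 380312080, .negSucc 400388319, .ofNat 144005200, .negSucc 23408639]),
  (177580237, [.ofNat 30605760, .negSucc 118692239, .ofNat 123833280, .negSucc 46845839, .ofNat 7985760]),
  (177582890, [.ofNat 65174400, .negSucc 149884319, .ofNat 137288640, .negSucc 48844319, .ofNat 7802880]),
  (177582946, [.ofNat 335537280, .negSucc 1009195359, .ofNat 1031553760, .negSucc 374812959, .ofNat 60899040]),
  (177583373, [.ofNat 323781120, .negSucc 1050994559, .ofNat 1084745760, .negSucc 398197439, .ofNat 64556640]),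
  (177586845, [.ofNat 49844160, .negSucc 161915279, .ofNat 166661760, .negSucc 63943439, .ofNat 10668000]),
  (177608405, [.negSucc 269602559, .ofNat 892474560, .negSucc 926985119, .ofNat 338645760, .negSucc 55168799]),
  (177648291, [.negSucc 260994239, .ofNat 790396240, .negSucc 802942719, .ofNat 294995920, .negSucc 48097439]),
  (177648403, [.ofNat 92986560, .negSucc 330628559, .ofNat 354750240, .negSucc 132608399, .ofNat 21823680]),
  (177649754, [.negSucc 92401919, .ofNat 323641920, .negSucc 343084319, .ofNat 127493760, .negSucc 20909279]),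
  (178628844, [.negSucc 56615039, .ofNat 162694880, .negSucc 167283679, .ofNat 59507360, .negSucc 9875519]),
  (178628956, [.ofNat 38715840, .negSucc 91631759, .ofNat 84833760, .negSucc 31642319, .ofNat 5059680]),
  (178636957, [.negSucc 301944959, .ofNat 1006918240, .negSucc 1049140959, .ofNat 380043040, .negSucc 61630559]),
  (178641059, [.negSucc 25551359, .ofNat 52915840, .negSucc 45874239, .ofNat 16549120, .negSucc 2560319]),
  (178641171, [.ofNat 91198080, .negSucc 260975839, .ofNat 259146560, .negSucc 98131039, .ofNat 15849600]),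
  (178661100, [.ofNat 571495680, .negSucc 1785167039, .ofNat 1814346720, .negSucc 663023999, .ofNat 106862880]),
  (178664684, [.negSucc 1952639, .negSucc 3254879, .ofNat 4921920, .negSucc 2895839, .ofNat 487680]),
  (178666259, [.ofNat 75479040, .negSucc 185124479, .ofNat 173069760, .negSucc 65172479, .ofNat 10485120]),
  (178673427, [.ofNat 75479040, .negSucc 186414719, .ofNat 174438720, .negSucc 65629439, .ofNat 10485120]),
  (178897644, [.negSucc 112242239, .ofNat 367172080, .negSucc 375008799, .ofNat 137886640, .negSucc 22067519]),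
  (178899051, [.ofNat 0, .ofNat 2678400, .negSucc 3342719, .ofNat 1441920, .negSucc 243839]),
  (179094764, [.ofNat 1952640, .ofNat 2241120, .negSucc 4164479, .ofNat 2237280, .negSucc 365759]),
  (179096227, [.ofNat 98084160, .negSucc 287795759, .ofNat 287313600, .negSucc 105587759, .ofNat 17129760]),
  (179096339, [.ofNat 93067200, .negSucc 278816399, .ofNat 283833600, .negSucc 105353999, .ofNat 17251680]),
  (179099923, [.negSucc 1952639, .ofNat 120480, .ofNat 2875200, .negSucc 1114079, .ofNat 243840]),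
  (179128427, [.negSucc 290459519, .ofNat 899952800, .negSucc 927245599, .ofNat 330737120, .negSucc 53583839]),
  (179128651, [.ofNat 9293760, .negSucc 32249999, .ofNat 36954240, .negSucc 14184719, .ofNat 2377440]),
  (179182355, [.ofNat 66075840, .negSucc 178464079, .ofNat 175599680, .negSucc 61808719, .ofNat 10058400]),
  (179192477, [.negSucc 69177599, .ofNat 183613760, .negSucc 183871999, .ofNat 62688320, .negSucc 10119359]),
  (179192533, [.ofNat 8064000, .negSucc 9402239, .ofNat 4541760, .negSucc 2269439, .ofNat 487680]),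
  (179196579, [.negSucc 142318079, .ofNat 522808320, .negSucc 552960959, .ofNat 201816960, .negSucc 32430719]),
  (179225251, [.ofNat 98084160, .negSucc 287795759, .ofNat 287313600, .negSucc 105587759, .ofNat 17129760]),
  (179226826, [.negSucc 34271999, .ofNat 92182080, .negSucc 96946559, .ofNat 38272320, .negSucc 6339839]),
  (179349228, [.negSucc 21467519, .ofNat 53557920, .negSucc 53909759, .ofNat 20280480, .negSucc 3291839]),
  (179352812, [.ofNat 0, .ofNat 679680, .negSucc 733439, .ofNat 107520]),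
  (179377900, [.negSucc 172897919, .ofNat 576226400, .negSucc 598902079, .ofNat 214024160, .negSucc 34381439]),
  (179411101, [.negSucc 56813759, .ofNat 174770640, .negSucc 175732319, .ofNat 66189840, .negSucc 10607039])]

/-- the sum of the part -/
def lV12 : List (ℕ × List ℤ) := lV12x0 ++ (lV12x1 ++ (lV12x2 ++ (lV12x3 ++ (lV12x4 ++ (lV12x5 ++ (lV12x6))))))

theorem okV12 : dV12.all (rok tbF 20) = true := by decide +kernel

theorem sumV12 : aeq (fz (sumT tbF dV12)) lV12 = true := by decide +kernel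

end Pool.Agent.H.MP_e16c79_al.IS
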