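import Pool.Agent.H.MP_e16c79_al.IS.BTabE

/-!
# MP_e16c79_al: certificate V, part 13
-/

set_option autoImplicit false

namespace Pool.Agent.H.MP_e16c79_al.IS

/-- data -/
def dV13x0 : RT := (.nd (.nd (.nd (.lf ⟨[.ofNat 0, .ofNat 679680, .negSucc 733439, .ofNat 107520], (.tr (.lf 10) (.tr (.lf 6) (.dx 0 (.tw (.lf 5) (.lf 9))) (.tr (.lf 13) (.lf 17) (.lf 14))) (.lf 18)), 0, [39, 39, 39, 39, 6, 6, 6, 6], [39, 39, 6, 6]⟩)
    (.lf ⟨[.ofNat 0, .negSucc 679679, .ofNat 733440, .negSucc 107519], (.tr (.lf 6) (.tr (.dx 0 (.tw (.lf 5) (.lf 17))) (.lf 18) (.tr (.lf 9) (.lf 13) (.lf 10))) (.lf 14)), 0, [37, 37, 37, 37, 8, 8, 8, 8], [37, 37, 8, 8]⟩))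
    (.nd (.lf ⟨[.ofNat 0, .ofNat 933120, .negSucc 1066079, .ofNat 246720, .negSucc 60959], (.tr (.lf 9) (.dx 0 (.tw (.lf 5) (.lf 17))) (.tr (.lf 6) (.tr (.lf 13) (.lf 10) (.lf 14)) (.lf 18))), 0, [39, 39, 25, 25, 39, 39, 25, 25], [39, 39, 25, 25]⟩)
    (.lf ⟨[.ofNat 0, .ofNat 1313280, .negSucc 1555679, .ofNat 367680, .negSucc 60959], (.tr (.lf 17) (.lf 10) (.tr (.dx 0 (.tw (.lf 5) (.lf 9))) (.tr (.lf 13) (.lf 18) (.lf 14)) (.lf 6))), 0, [14, 14, 14, 14, 21, 1, 21, 1], [14, 14, 11, 11]⟩)))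
    (.nd (.nd (.lf ⟨[.negSucc 25459199, .ofNat 81582720, .negSucc 84403199, .ofNat 32622720, .negSucc 5364479], (.tr (.dx 0 (.tr (.tw (.lf 5) (.lf 9)) (.lf 6) (.lf 10))) (.lf 13) (.tr (.lf 14) (.lf 17) (.lf 18))), 0, [39, 5, 39, 5, 39, 5, 39, 5], []⟩)
    (.lf ⟨[.negSucc 2213279, .ofNat 17375640, .negSucc 18643439, .ofNat 8120760, .negSucc 1341119], (.tr (.dx 0 (.tw (.lf 5) (.lf 17))) (.lf 6) (.tr (.lf 9) (.lf 18) (.tr (.lf 13) (.lf 10) (.lf 14)))), 0, [37, 37, 29, 29, 37, 37, 29, 29], [37, 37, 29, 29]⟩))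
    (.nd (.lf ⟨[.ofNat 0, .ofNat 34560, .ofNat 109440, .negSucc 40319], (.tr (.lf 6) (.lf 9) (.tr (.dx 0 (.tw (.lf 5) (.lf 17))) (.lf 18) (.tr (.lf 13) (.lf 10) (.lf 14)))), 0, [37, 37, 37, 37, 8, 8, 8, 8], [37, 37, 8, 8]⟩)
    (.lf ⟨[.ofNat 0, .negSucc 29825279, .ofNat 45259200, .negSucc 41514239, .ofNat 15549120, .negSucc 2682239], (.tr (.lf 10) (.tr (.lf 5) (.tr (.lf 6) (.dx 0 (.lf 9)) (.lf 13)) (.lf 19)) (.lf 14)), 0, [5, 5, 19, 19], [5, 5, 19, 19]⟩))))

/-- data -/
def dV13x1 : RT := (.nd (.nd (.nd (.lf ⟨[.negSucc 14912639, .ofNat 22629600, .negSucc 20757119, .ofNat 7774560, .negSucc 1341119], (.tr (.lf 5) (.tr (.dx 0 .on) (.tr (.lf 6) (.tr (.lf 17) (.lf 9) (.lf 18)) (.lf 13)) (.lf 14)) (.lf 10)), 0, [32, 32, 32, 32, 24, 24, 13, 13], [32, 32, 32, 32, 24, 24, 24, 24]⟩)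
    (.lf ⟨[.negSucc 3706559, .ofNat 28195920, .negSucc 32302079, .ofNat 13106640, .negSucc 2133599], (.tr (.lf 5) (.dx 0 .on) (.tr (.lf 13) (.lf 17) (.tr (.lf 14) (.tr (.lf 9) (.lf 6) (.lf 10)) (.lf 18)))), 0, [32, 32, 32, 32, 32, 32, 5, 5], [32, 32, 37, 37, 5, 5, 5, 5]⟩))
    (.nd (.lf ⟨[.negSucc 3064319, .ofNat 6940800, .negSucc 5999999, .ofNat 1779840, .negSucc 243839], (.tr (.dx 0 (.tw (.lf 5) (.lf 17))) (.tr (.lf 13) (.tr (.lf 9) (.lf 6) (.lf 14)) (.lf 18)) (.lf 10)), 0, [29, 29, 7, 7, 29, 29, 7, 7], [29, 29, 7, 7]⟩)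
    (.lf ⟨[.ofNat 4646880, .negSucc 16124999, .ofNat 18477120, .negSucc 7092359, .ofNat 1188720], (.tw (.dx 0 (.tw (.lf 5) (.lf 17))) (.tr (.lf 6) (.lf 13) (.tr (.lf 14) (.tw (.lf 9) (.lf 10)) (.lf 18)))), 0, [15, 15, 37, 37, 0, 0, 25, 25, 15, 15, 37, 37, 30, 30, 25, 25], [15, 15, 37, 37, 25, 25, 25, 25]⟩)))
    (.nd (.nd (.lf ⟨[.ofNat 0, .negSucc 34559, .negSucc 109439, .ofNat 40320], (.tw (.dx 0 (.tw (.lf 5) (.lf 17))) (.tr (.lf 6) (.tr (.lf 9) (.tw (.lf 10) (.lf 13)) (.lf 14)) (.lf 18))), 0, [39, 39, 15, 15, 25, 25, 9, 9, 39, 39, 15, 15, 25, 25, 9, 9], [39, 39, 15, 15, 25, 25, 9, 9]⟩)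
    (.lf ⟨[.ofNat 0, .negSucc 521279, .negSucc 5761679, .ofNat 8941440, .negSucc 3732239, .ofNat 670560], (.tr (.lf 14) (.lf 9) (.tw (.lf 19) (.tr (.dx 0 (.lf 13)) (.tw (.lf 5) (.lf 6)) (.lf 10)))), 0, [35, 35, 11, 11, 36, 36, 36, 36], [35, 35, 1, 1, 36, 36, 36, 36]⟩))
    (.nd (.lf ⟨[.ofNat 12729600, .negSucc 40791359, .ofNat 42201600, .negSucc 16311359, .ofNat 2682240], (.tr (.dx 0 .on) (.tr (.lf 13) (.tr (.lf 17) (.lf 5) (.tr (.lf 9) (.lf 14) (.lf 10))) (.lf 18)) (.lf 6)), 0, [10, 10, 10, 10, 30, 30, 30, 30], [17, 17, 17, 17, 30, 30, 30, 30]⟩)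
    (.lf ⟨[.ofNat 3029760, .negSucc 5125439, .ofNat 7805760, .negSucc 3157439, .ofNat 609600], (.tr (.lf 9) (.lf 5) (.tr (.dx 0 .on) (.tr (.lf 10) (.tr (.lf 17) (.lf 6) (.lf 18)) (.lf 13)) (.lf 14))), 0, [5, 5, 34, 34, 11, 11, 21, 21], [5, 5, 34, 34, 11, 11, 21, 21]⟩))))

/-- data -/
def dV13x2 : RT := (.nd (.nd (.nd (.lf ⟨[.negSucc 6312959, .ofNat 18138240, .negSucc 21958079, .ofNat 9173760, .negSucc 1584959], (.tr (.lf 9) (.lf 5) (.tr (.dx 0 .on) (.lf 10) (.tr (.lf 13) (.lf 14) (.tr (.lf 17) (.lf 6) (.lf 18))))), 0, [27, 27, 5, 5, 21, 21, 21, 21], [27, 27, 5, 5, 21, 21, 34, 34]⟩)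
    (.lf ⟨[.ofNat 3283200, .negSucc 13012799, .ofNat 14152320, .negSucc 6016319, .ofNat 975360], (.tr (.dx 0 .on) (.lf 5) (.tr (.lf 6) (.lf 13) (.tr (.lf 17) (.lf 18) (.tr (.lf 9) (.lf 14) (.lf 10))))), 0, [0, 0, 0, 0, 0, 0, 0, 0], [7, 7, 15, 15, 25, 25, 0, 0]⟩))
    (.nd (.lf ⟨[.negSucc 8063999, .ofNat 17097600, .negSucc 12542399, .ofNat 4212480, .negSucc 609599], (.tr (.lf 17) (.lf 6) (.tr (.dx 0 (.lf 5)) (.lf 9) (.tr (.lf 10) (.lf 18) (.tw (.lf 13) (.lf 14))))), 0, [5, 5, 26, 26, 1, 1, 1, 1], [5, 5, 29, 29, 26, 26, 21, 21]⟩)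
    (.lf ⟨[.ofNat 19988640, .negSucc 52959959, .ofNat 51666720, .negSucc 19215959, .ofNat 3139440], (.tr (.lf 9) (.dx 0 (.lf 5)) (.tw (.lf 6) (.tr (.lf 17) (.tr (.lf 10) (.lf 13) (.lf 14)) (.lf 18)))), 0, [39, 12, 39, 12, 12, 17, 12, 17], [39, 15, 39, 15, 12, 17, 12, 17]⟩)))
    (.nd (.nd (.lf ⟨[.negSucc 3167999, .ofNat 15835200, .negSucc 16882559, .ofNat 6096960, .negSucc 975359], (.tr (.dx 0 (.lf 5)) (.tr (.lf 6) (.lf 13) (.tr (.tw (.lf 9) (.lf 10)) (.lf 17) (.lf 14))) (.lf 18)), 0, [0, 0, 0, 0, 0, 0, 0, 0], [39, 39, 15, 15, 20, 20, 27, 27]⟩)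
    (.lf ⟨[.ofNat 10411200, .negSucc 32784719, .ofNat 31425600, .negSucc 11424719, .ofNat 1767840], (.tr (.lf 6) (.tr (.lf 13) (.lf 9) (.tr (.dx 0 (.lf 5)) (.lf 14) (.tw (.lf 17) (.lf 18)))) (.lf 10)), 0, [29, 29, 13, 13, 32, 32, 7, 7], [29, 29, 13, 13, 7, 7, 7, 7]⟩))
    (.nd (.lf ⟨[.ofNat 11093760, .negSucc 22223039, .ofNat 20348160, .negSucc 7369919, .ofNat 1219200], (.tr (.lf 9) (.tr (.dx 0 (.lf 5)) (.tr (.lf 6) (.tw (.lf 17) (.lf 18)) (.lf 10)) (.lf 13)) (.lf 14)), 0, [37, 37, 19, 19, 23, 23, 6, 6], [37, 37, 19, 19, 23, 23, 6, 6]⟩)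
    (.lf ⟨[.ofNat 0, .negSucc 783359, .ofNat 645120], (.tr (.lf 5) (.tr (.lf 6) (.tr (.lf 9) (.dx 0 .on) (.lf 15)) (.lf 19)) (.lf 10)), 0, [8, 24, 16, 35], [8, 24, 16, 35]⟩))))

/-- data -/
def dV13x3 : RT := (.nd (.nd (.nd (.lf ⟨[.ofNat 0, .negSucc 22924799, .ofNat 52342080, .negSucc 47718719, .ofNat 17530560, .negSucc 2804159], (.tr (.lf 5) (.tr (.lf 9) (.tr (.dx 0 .on) (.tw (.lf 13) (.lf 14)) (.lf 6)) (.lf 19)) (.lf 10)), 0, [29, 29, 8, 8, 35, 35, 13, 13], [29, 29, 8, 8, 35, 35, 13, 13]⟩)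
    (.lf ⟨[.ofNat 0, .ofNat 783360, .negSucc 645119], (.tr (.lf 9) (.tr (.dx 0 (.lf 5)) (.lf 19) (.tr (.lf 6) (.lf 13) (.lf 10))) (.lf 14)), 0, [37, 19, 34, 6], [37, 19, 23, 6]⟩))
    (.nd (.lf ⟨[.ofNat 0, .ofNat 679680, .negSucc 733439, .ofNat 107520], (.tr (.dx 0 (.lf 5)) (.lf 9) (.tw (.lf 6) (.tr (.lf 10) (.tr (.lf 17) (.lf 13) (.lf 18)) (.lf 14)))), 0, [5, 5, 0, 0, 0, 0, 0, 0], [5, 5, 29, 29, 20, 20, 9, 9]⟩)
    (.lf ⟨[.ofNat 0, .negSucc 1958399, .ofNat 2391360, .negSucc 309119, .ofNat 121920], (.tr (.lf 6) (.lf 9) (.tw (.lf 17) (.tr (.dx 0 (.lf 5)) (.lf 10) (.tr (.lf 13) (.lf 18) (.lf 14))))), 0, [5, 5, 1, 1, 39, 39, 3, 3], [5, 5, 8, 8, 39, 39, 8, 8]⟩)))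
    (.nd (.nd (.lf ⟨[.ofNat 0, .ofNat 103680, .negSucc 244799, .ofNat 1165440, .negSucc 121919], (.tr (.lf 6) (.lf 17) (.tw (.lf 13) (.tr (.dx 0 (.lf 5)) (.lf 18) (.tr (.lf 9) (.lf 14) (.lf 10))))), 0, [7, 7, 1, 1, 37, 37, 16, 16], [7, 7, 31, 31, 37, 37, 16, 16]⟩)
    (.lf ⟨[.ofNat 1532160, .negSucc 1915199, .ofNat 888960, .negSucc 121919], (.tr (.lf 9) (.lf 17) (.tr (.lf 6) (.tr (.dx 0 (.lf 5)) (.tw (.lf 13) (.lf 14)) (.lf 10)) (.lf 18))), 0, [28, 28, 28, 28, 28, 28, 33, 33], [28, 28, 28, 28, 28, 28, 28, 28]⟩))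
    (.nd (.lf ⟨[.ofNat 38479680, .negSucc 113327279, .ofNat 116670720, .negSucc 44796719, .ofNat 7376160], (.tr (.lf 17) (.dx 0 (.lf 5)) (.tr (.lf 9) (.lf 18) (.tr (.lf 6) (.lf 10) (.tw (.lf 13) (.lf 14))))), 0, [37, 37, 2, 2, 2, 2, 29, 29], [37, 37, 9, 9, 2, 2, 29, 29]⟩)
    (.lf ⟨[.ofNat 0, .negSucc 1382399, .ofNat 2090880, .negSucc 1720319, .ofNat 243840], (.tw (.lf 17) (.tr (.dx 0 (.lf 5)) (.lf 9) (.tr (.lf 10) (.lf 6) (.tr (.lf 13) (.lf 18) (.lf 14))))), 0, [5, 5, 2, 2, 1, 1, 38, 38], [5, 5, 2, 2, 21, 21, 38, 38]⟩))))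

/-- data -/
def dV13x4 : RT := (.nd (.nd (.nd (.lf ⟨[.ofNat 0, .ofNat 5644800, .negSucc 6711359, .ofNat 2017920, .negSucc 365759], (.tw (.dx 0 (.lf 5)) (.tr (.lf 13) (.lf 17) (.tr (.lf 6) (.tr (.lf 9) (.lf 14) (.lf 10)) (.lf 18)))), 0, [0, 0, 0, 0, 0, 0, 0, 0], [15, 15, 9, 9, 5, 5, 30, 30]⟩)
    (.lf ⟨[.negSucc 53749439, .ofNat 172990800, .negSucc 178391519, .ofNat 66018960, .negSucc 10607039], (.tr (.dx 0 (.tr (.lf 5) (.tr (.tw (.lf 6) (.lf 13)) (.lf 9) (.lf 17)) (.lf 18))) (.lf 10) (.lf 14)), 0, [0, 0, 37, 37, 37, 30, 30, 30], []⟩))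
    (.nd (.lf ⟨[.ofNat 1532160, .negSucc 1915199, .ofNat 888960, .negSucc 121919], (.tr (.lf 5) (.tr (.lf 13) (.dx 0 .on) (.tr (.lf 9) (.lf 14) (.tr (.lf 17) (.lf 6) (.lf 18)))) (.lf 10)), 0, [29, 29, 7, 7, 8, 8, 16, 16], [29, 29, 7, 7, 8, 8, 16, 16]⟩)
    (.lf ⟨[.negSucc 7845119, .ofNat 20053440, .negSucc 22847039, .ofNat 9295680, .negSucc 1584959], (.tr (.lf 5) (.lf 17) (.tr (.lf 13) (.lf 6) (.tr (.dx 0 .on) (.tr (.lf 9) (.lf 14) (.lf 10)) (.lf 18)))), 0, [15, 15, 21, 21, 19, 19, 16, 16], [15, 15, 16, 16, 19, 19, 16, 16]⟩)))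
    (.nd (.nd (.lf ⟨[.ofNat 7274880, .negSucc 15566879, .ofNat 15614400, .negSucc 5686559, .ofNat 975360], (.tr (.lf 17) (.lf 5) (.tr (.lf 6) (.tr (.dx 0 .on) (.tr (.lf 13) (.lf 9) (.lf 14)) (.lf 18)) (.lf 10))), 0, [26, 26, 26, 26, 17, 17, 33, 33], [26, 26, 26, 26, 17, 17, 33, 33]⟩)
    (.lf ⟨[.ofNat 0, .ofNat 760320, .negSucc 1212479, .ofNat 727680, .negSucc 121919], (.tr (.lf 5) (.tr (.dx 0 .on) (.tr (.lf 9) (.lf 17) (.tr (.lf 13) (.lf 10) (.lf 14))) (.lf 6)) (.lf 18)), 0, [32, 32, 32, 32, 8, 8, 24, 24], [27, 27, 32, 32, 8, 8, 24, 24]⟩))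
    (.nd (.lf ⟨[.negSucc 2603519, .ofNat 19845120, .negSucc 23205119, .ofNat 9031680, .negSucc 1463039], (.tr (.lf 5) (.tr (.lf 6) (.lf 13) (.tr (.dx 0 .on) (.tr (.lf 9) (.lf 17) (.lf 10)) (.lf 14))) (.lf 18)), 0, [24, 24, 24, 24, 32, 32, 27, 27], [24, 24, 24, 24, 27, 27, 27, 27]⟩)
    (.lf ⟨[.ofNat 8593920, .negSucc 36431999, .ofNat 40475520, .negSucc 16440959, .ofNat 2682240], (.tr (.lf 6) (.tr (.lf 13) (.dx 0 (.lf 5)) (.tr (.lf 9) (.lf 14) (.tw (.lf 17) (.lf 18)))) (.lf 10)), 0, [29, 29, 7, 7, 8, 8, 16, 16], [29, 29, 7, 7, 8, 8, 16, 16]⟩))))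

/-- data -/
def dV13x5 : RT := (.nd (.nd (.nd (.lf ⟨[.ofNat 1532160, .negSucc 9472319, .ofNat 10047360, .negSucc 3170879, .ofNat 487680], (.tr (.lf 9) (.lf 10) (.tr (.lf 6) (.tr (.lf 13) (.dx 0 (.lf 5)) (.tw (.lf 17) (.lf 18))) (.lf 14))), 0, [34, 34, 34, 34, 6, 6, 6, 6], [34, 34, 34, 34, 6, 6, 6, 6]⟩)
    (.lf ⟨[.ofNat 1071360, .negSucc 10372799, .ofNat 13157760, .negSucc 5860799, .ofNat 975360], (.tr (.lf 6) (.lf 17) (.tr (.lf 18) (.dx 0 (.lf 5)) (.tr (.tw (.lf 9) (.lf 10)) (.lf 13) (.lf 14)))), 0, [37, 37, 7, 7, 3, 3, 3, 3], [37, 37, 7, 7, 16, 16, 3, 3]⟩))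
    (.nd (.lf ⟨[.negSucc 1071359, .ofNat 10372800, .negSucc 13157759, .ofNat 5860800, .negSucc 975359], (.tr (.lf 6) (.lf 17) (.tr (.lf 13) (.tr (.dx 0 (.lf 5)) (.tw (.lf 9) (.lf 10)) (.lf 14)) (.lf 18))), 0, [39, 39, 3, 3, 37, 37, 16, 16], [39, 39, 3, 3, 37, 37, 16, 16]⟩)
    (.lf ⟨[.ofNat 6203520, .negSucc 5194079, .ofNat 2456640, .ofNat 174240], (.tr (.lf 17) (.dx 0 (.lf 5)) (.tr (.lf 6) (.tr (.lf 13) (.tw (.lf 9) (.lf 10)) (.lf 18)) (.lf 14))), 0, [2, 2, 37, 37, 2, 2, 2, 2], [2, 2, 37, 37, 17, 17, 25, 25]⟩)))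
    (.nd (.nd (.lf ⟨[.ofNat 6526080, .negSucc 35597279, .ofNat 39744960, .negSucc 16485599, .ofNat 2682240], (.tr (.lf 13) (.tr (.dx 0 (.lf 5)) (.tr (.lf 6) (.lf 17) (.tw (.lf 9) (.lf 10))) (.lf 14)) (.lf 18)), 0, [39, 39, 39, 39, 18, 18, 36, 36], [39, 39, 22, 22, 18, 18, 36, 36]⟩)
    (.lf ⟨[.ofNat 4527360, .ofNat 8024640, .negSucc 12904319, .ofNat 6250560, .negSucc 975359], (.tr (.lf 13) (.tr (.lf 14) (.lf 6) (.tr (.dx 0 (.lf 5)) (.tw (.lf 9) (.lf 10)) (.lf 17))) (.lf 18)), 0, [15, 15, 18, 18, 39, 39, 39, 39], [15, 15, 18, 18, 22, 22, 39, 39]⟩))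
    (.nd (.lf ⟨[.ofNat 5886720, .negSucc 34234559, .ofNat 37833600, .negSucc 15383999, .ofNat 2438400], (.tr (.lf 9) (.tr (.lf 10) (.tr (.dx 0 (.lf 5)) (.lf 6) (.tw (.lf 17) (.lf 18))) (.lf 13)) (.lf 14)), 0, [5, 5, 28, 28, 6, 6, 6, 6], [5, 5, 28, 28, 6, 6, 6, 6]⟩)
    (.lf ⟨[.negSucc 1071359, .ofNat 9485760, .negSucc 12911999, .ofNat 5703360, .negSucc 975359], (.tr (.lf 9) (.tr (.lf 10) (.dx 0 (.lf 5)) (.tr (.lf 6) (.tw (.lf 17) (.lf 18)) (.lf 13))) (.lf 14)), 0, [5, 5, 12, 12, 37, 37, 6, 6], [5, 5, 12, 12, 37, 37, 6, 6]⟩))))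

/-- data -/
def dV13x6 : RT := (.nd (.nd (.nd (.lf ⟨[.negSucc 6364799, .ofNat 7329120, .negSucc 5392319, .ofNat 1284960, .negSucc 243839], (.tr (.lf 13) (.lf 14) (.tr (.lf 6) (.tr (.dx 0 (.lf 5)) (.tw (.lf 9) (.lf 10)) (.lf 17)) (.lf 18))), 0, [15, 15, 18, 18, 4, 4, 4, 4], [15, 15, 18, 18, 4, 4, 4, 4]⟩)
    (.lf ⟨[.ofNat 12162240, .negSucc 23008079, .ofNat 20165760, .negSucc 7110479, .ofNat 1158240], (.tr (.dx 0 (.lf 5)) (.tr (.lf 13) (.lf 9) (.tr (.lf 6) (.tw (.lf 17) (.lf 18)) (.lf 10))) (.lf 14)), 0, [0, 0, 0, 0, 37, 37, 37, 37], [10, 10, 19, 19, 37, 37, 37, 37]⟩))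
    (.nd (.lf ⟨[.negSucc 1748159, .negSucc 3201839, .ofNat 4763520, .negSucc 2022959, .ofNat 304800], (.tr (.dx 0 (.lf 5)) (.tr (.lf 6) (.lf 17) (.tr (.lf 13) (.tw (.lf 9) (.lf 10)) (.lf 18))) (.lf 14)), 0, [0, 0, 37, 37, 0, 0, 0, 0], [0, 0, 37, 37, 19, 19, 19, 19]⟩)
    (.lf ⟨[.negSucc 10414079, .ofNat 28888320, .negSucc 28271999, .ofNat 10575360, .negSucc 1706879], (.tr (.dx 0 (.lf 5)) (.lf 13) (.tr (.lf 9) (.tr (.lf 6) (.tw (.lf 17) (.lf 18)) (.lf 10)) (.lf 14))), 0, [0, 0, 0, 0, 29, 29, 0, 0], [10, 10, 19, 19, 29, 29, 10, 10]⟩)))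
    (.nd (.nd (.lf ⟨[.ofNat 0, .negSucc 20828159, .ofNat 57776640, .negSucc 56543999, .ofNat 21150720, .negSucc 3413759], (.tr (.lf 19) (.lf 5) (.tr (.lf 6) (.tr (.lf 9) (.dx 0 .on) (.lf 15)) (.lf 10))), 0, [26, 13, 25, 26], [26, 13, 25, 9]⟩)
    (.lf ⟨[.negSucc 7845119, .ofNat 20053440, .negSucc 22847039, .ofNat 9295680, .negSucc 1584959], (.tr (.lf 9) (.lf 5) (.tr (.lf 17) (.lf 10) (.tr (.dx 0 .on) (.tr (.lf 13) (.lf 18) (.lf 14)) (.lf 6)))), 0, [34, 34, 11, 11, 34, 34, 34, 34], [34, 34, 34, 34, 34, 34, 34, 34]⟩))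
    (.nd (.lf ⟨[.negSucc 3283199, .ofNat 13012800, .negSucc 14152319, .ofNat 6016320, .negSucc 975359], (.tr (.lf 5) (.tr (.lf 6) (.tr (.dx 0 .on) (.tr (.lf 13) (.lf 17) (.lf 14)) (.lf 9)) (.lf 10)) (.lf 18)), 0, [32, 32, 8, 8, 27, 27, 8, 8], [32, 32, 8, 8, 27, 27, 8, 8]⟩)
    (.lf ⟨[.negSucc 11070719, .ofNat 25576320, .negSucc 25203839, .ofNat 8933760, .negSucc 1463039], (.tr (.lf 5) (.lf 9) (.tr (.lf 17) (.lf 6) (.tr (.dx 0 .on) (.tr (.lf 13) (.lf 18) (.lf 14)) (.lf 10)))), 0, [7, 7, 11, 11, 27, 27, 8, 8], [7, 7, 8, 8, 27, 27, 8, 8]⟩))))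

/-- data -/
def dV13x7 : RT := (.nd (.nd (.nd (.lf ⟨[.ofNat 0, .negSucc 5518079, .ofNat 5466240, .negSucc 1893119, .ofNat 243840], (.tr (.lf 5) (.tw (.dx 0 .on) (.tr (.lf 9) (.lf 19) (.tr (.lf 13) (.lf 6) (.lf 14)))) (.lf 10)), 0, [32, 32, 29, 29, 13, 13, 24, 24], [7, 7, 29, 29, 13, 13, 24, 24]⟩)
    (.lf ⟨[.negSucc 6203519, .ofNat 11230560, .negSucc 8207039, .ofNat 1826400, .negSucc 243839], (.tr (.lf 5) (.lf 17) (.tr (.lf 13) (.lf 6) (.tr (.dx 0 .on) (.lf 14) (.tr (.lf 9) (.lf 18) (.lf 10))))), 0, [29, 29, 11, 11, 19, 19, 16, 16], [29, 29, 16, 16, 19, 19, 16, 16]⟩))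
    (.nd (.lf ⟨[.ofNat 0, .ofNat 6036480, .negSucc 5750399, .ofNat 2000640, .negSucc 243839], (.tr (.lf 13) (.lf 6) (.tr (.lf 17) (.lf 14) (.tr (.dx 0 (.lf 5)) (.lf 18) (.tw (.lf 9) (.lf 10))))), 0, [29, 29, 1, 1, 39, 39, 18, 18], [29, 29, 18, 18, 39, 39, 18, 18]⟩)
    (.lf ⟨[.ofNat 1532160, .negSucc 1915199, .ofNat 888960, .negSucc 121919], (.tr (.lf 17) (.lf 18) (.tw (.dx 0 (.lf 5)) (.tr (.lf 13) (.tr (.lf 6) (.lf 9) (.lf 10)) (.lf 14)))), 0, [2, 2, 2, 2, 38, 38, 38, 38], [2, 2, 2, 2, 38, 38, 38, 38]⟩)))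
    (.nd (.nd (.lf ⟨[.negSucc 8063999, .ofNat 12938880, .negSucc 9208319, .ofNat 2901120, .negSucc 609599], (.tr (.dx 0 (.tw (.lf 9) (.tr (.lf 5) (.tr (.lf 6) (.lf 13) (.lf 10)) (.lf 17)))) (.lf 18) (.lf 14)), 0, [5, 5, 5, 20, 0, 0, 5, 5], []⟩)
    (.lf ⟨[.ofNat 0, .negSucc 21311999, .ofNat 113141760, .negSucc 135868799, .ofNat 55975680, .negSucc 9509759], (.tr (.lf 9) (.lf 13) (.tr (.lf 6) (.lf 19) (.tr (.dx 0 (.lf 5)) (.lf 10) (.lf 14)))), 0, [37, 1, 6, 6], [37, 6, 6, 6]⟩))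
    (.nd (.lf ⟨[.ofNat 1817280, .ofNat 3647280, .negSucc 9049919, .ofNat 5016240, .negSucc 914399], (.tr (.lf 9) (.lf 5) (.tr (.lf 13) (.dx 0 .on) (.tr (.lf 6) (.lf 10) (.tr (.lf 17) (.lf 14) (.lf 18))))), 0, [39, 39, 9, 9, 34, 34, 23, 23], [39, 39, 9, 9, 34, 34, 34, 34]⟩)
    (.lf ⟨[.negSucc 1817279, .negSucc 5098799, .ofNat 10840320, .negSucc 6277679, .ofNat 1036320], (.tr (.lf 9) (.lf 5) (.tr (.lf 6) (.lf 10) (.tr (.lf 13) (.dx 0 .on) (.tr (.lf 17) (.lf 14) (.lf 18))))), 0, [39, 39, 34, 34, 9, 9, 9, 9], [39, 39, 34, 34, 9, 9, 9, 9]⟩))))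

/-- data -/
def dV13x8 : RT := (.nd (.nd (.nd (.lf ⟨[.ofNat 0, .negSucc 23716799, .ofNat 50922000, .negSucc 43235519, .ofNat 14875920, .negSucc 2255519], (.tw (.dx 0 (.tr (.lf 9) (.lf 13) (.tr (.tw (.lf 10) (.lf 19)) (.lf 5) (.lf 14)))) (.lf 6)), 0, [33, 33, 33, 33, 20, 30, 10, 10], []⟩)
    (.lf ⟨[.ofNat 5990400, .negSucc 24143999, .ofNat 26428800, .negSucc 10458239, .ofNat 1706880], (.tr (.dx 0 .on) (.lf 5) (.tr (.lf 13) (.lf 9) (.tr (.lf 10) (.lf 6) (.tr (.lf 17) (.lf 14) (.lf 18))))), 0, [0, 0, 0, 0, 0, 0, 0, 0], [39, 39, 0, 0, 0, 0, 37, 37]⟩))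
    (.nd (.lf ⟨[.ofNat 3562560, .negSucc 15367919, .ofNat 9879360, .negSucc 1154159, .negSucc 60959], (.tr (.dx 0 .on) (.lf 5) (.tr (.lf 9) (.lf 6) (.tr (.lf 13) (.lf 10) (.tr (.lf 17) (.lf 14) (.lf 18))))), 0, [0, 0, 0, 0, 0, 0, 0, 0], [39, 39, 0, 0, 0, 0, 35, 35]⟩)
    (.lf ⟨[.negSucc 8184959, .ofNat 26869920, .negSucc 22624319, .ofNat 7366560, .negSucc 975359], (.tr (.lf 5) (.lf 17) (.tr (.dx 0 .on) (.lf 9) (.tr (.lf 18) (.lf 10) (.tr (.lf 13) (.lf 6) (.lf 14))))), 0, [19, 19, 16, 16, 21, 21, 21, 21], [19, 19, 16, 16, 16, 16, 21, 21]⟩)))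
    (.nd (.nd (.lf ⟨[.ofNat 0, .negSucc 35124479, .ofNat 61385280, .negSucc 45294719, .ofNat 14690880, .negSucc 1950719], (.tr (.dx 0 (.lf 5)) (.lf 13) (.tr (.lf 6) (.lf 9) (.tr (.lf 10) (.lf 14) (.lf 19)))), 0, [0, 0, 0, 0], [39, 7, 9, 9]⟩)
    (.lf ⟨[.ofNat 0, .ofNat 35159040, .negSucc 34787519, .ofNat 11500800, .negSucc 1014719, .negSucc 243839], (.tr (.dx 0 (.tr (.tw (.lf 5) (.lf 9)) (.lf 13) (.lf 6))) (.lf 14) (.tw (.lf 10) (.lf 19))), 0, [0, 0, 15, 29, 0, 0, 0, 0], []⟩))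
    (.nd (.lf ⟨[.ofNat 18619200, .negSucc 46689839, .ofNat 48435840, .negSucc 19510319, .ofNat 3230880], (.tr (.dx 0 (.lf 5)) (.lf 17) (.tr (.lf 13) (.lf 18) (.tr (.lf 6) (.tw (.lf 9) (.lf 10)) (.lf 14)))), 0, [0, 0, 0, 0, 0, 0, 0, 0], [37, 37, 9, 9, 5, 5, 30, 30]⟩)
    (.lf ⟨[.ofNat 0, .negSucc 737279, .ofNat 426240], (.tr (.lf 13) (.lf 9) (.tw (.dx 0 (.lf 5)) (.tr (.lf 10) (.lf 6) (.tr (.lf 17) (.lf 14) (.lf 18))))), 0, [39, 39, 36, 36, 1, 1, 1, 1], [39, 39, 36, 36, 36, 36, 21, 21]⟩))))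

/-- data -/
def dV13x9 : RT := (.nd (.nd (.nd (.lf ⟨[.ofNat 0, .negSucc 3398399, .ofNat 4197120, .negSucc 1370879, .ofNat 243840], (.tw (.lf 13) (.tr (.dx 0 (.lf 5)) (.tr (.lf 9) (.lf 6) (.tr (.lf 17) (.lf 14) (.lf 18))) (.lf 10))), 0, [29, 29, 35, 35, 1, 1, 1, 1], [22, 22, 35, 35, 36, 36, 21, 21]⟩)
    (.lf ⟨[.negSucc 18619199, .ofNat 52334640, .negSucc 55147199, .ofNat 21528240, .negSucc 3596639], (.tr (.lf 9) (.lf 13) (.tr (.lf 6) (.tr (.dx 0 (.lf 5)) (.tw (.lf 17) (.lf 18)) (.lf 10)) (.lf 14))), 0, [6, 6, 6, 6, 6, 6, 33, 33], [6, 6, 23, 23, 6, 6, 6, 6]⟩))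
    (.nd (.lf ⟨[.negSucc 9702719, .ofNat 18037680, .negSucc 15038399, .ofNat 4459440, .negSucc 670559], (.tr (.lf 9) (.lf 5) (.tr (.lf 13) (.lf 10) (.tr (.dx 0 .on) (.tr (.lf 17) (.lf 14) (.lf 18)) (.lf 6)))), 0, [34, 34, 31, 31, 34, 34, 34, 34], [34, 34, 31, 31, 34, 34, 34, 34]⟩)
    (.lf ⟨[.ofNat 9840960, .negSucc 41525999, .ofNat 43896960, .negSucc 16930799, .ofNat 2743200], (.tr (.lf 13) (.lf 14) (.tr (.lf 6) (.lf 17) (.tr (.dx 0 (.lf 5)) (.tw (.lf 9) (.lf 10)) (.lf 18)))), 0, [18, 18, 18, 18, 22, 22, 4, 4], [18, 18, 18, 18, 22, 22, 4, 4]⟩)))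
    (.nd (.nd (.lf ⟨[.ofNat 35372160, .negSucc 76653599, .ofNat 69202560, .negSucc 25483679, .ofNat 4023360], (.tr (.lf 13) (.tr (.lf 14) (.lf 6) (.tr (.tw (.lf 9) (.lf 10)) (.dx 0 (.lf 5)) (.lf 17))) (.lf 18)), 0, [3, 3, 18, 18, 36, 36, 4, 4], [3, 3, 18, 18, 36, 36, 4, 4]⟩)
    (.lf ⟨[.negSucc 40524479, .ofNat 97936080, .negSucc 91651199, .ofNat 33464400, .negSucc 5303519], (.tr (.lf 5) (.tr (.lf 6) (.lf 17) (.tr (.dx 0 .on) (.tr (.lf 13) (.lf 18) (.lf 14)) (.lf 9))) (.lf 10)), 0, [7, 7, 16, 16, 32, 32, 8, 8], [7, 7, 16, 16, 35, 35, 8, 8]⟩))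
    (.nd (.lf ⟨[.ofNat 3620160, .negSucc 11810159, .ofNat 12401280, .negSucc 4809839, .ofNat 792480], (.tr (.lf 5) (.lf 6) (.tr (.lf 17) (.dx 0 .on) (.tr (.lf 9) (.lf 10) (.tr (.lf 13) (.lf 18) (.lf 14))))), 0, [16, 16, 7, 7, 8, 8, 24, 24], [16, 16, 7, 7, 8, 8, 24, 24]⟩)
    (.lf ⟨[.negSucc 3620159, .ofNat 11810160, .negSucc 12401279, .ofNat 4809840, .negSucc 792479], (.tr (.lf 6) (.tr (.lf 13) (.lf 17) (.tr (.tw (.lf 9) (.lf 10)) (.dx 0 (.lf 5)) (.lf 18))) (.lf 14)), 0, [5, 5, 37, 37, 5, 5, 5, 5], [5, 5, 37, 37, 5, 5, 5, 5]⟩))))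

/-- data -/
def dV13x10 : RT := (.nd (.nd (.nd (.lf ⟨[.negSucc 3706559, .ofNat 27049680, .negSucc 30874559, .ofNat 12311760, .negSucc 2011679], (.tr (.lf 6) (.tr (.lf 17) (.dx 0 (.lf 5)) (.tr (.tw (.lf 9) (.lf 10)) (.lf 18) (.lf 13))) (.lf 14)), 0, [5, 5, 37, 37, 8, 8, 5, 5], [5, 5, 37, 37, 8, 8, 5, 5]⟩)
    (.lf ⟨[.ofNat 19339200, .negSucc 86169359, .ofNat 93538560, .negSucc 37030799, .ofNat 6035040], (.tr (.dx 0 (.tr (.tw (.lf 5) (.lf 17)) (.lf 6) (.lf 13))) (.tr (.lf 9) (.lf 10) (.lf 14)) (.lf 18)), 0, [39, 15, 39, 15, 10, 15, 39, 15], []⟩))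
    (.nd (.lf ⟨[.negSucc 10733759, .ofNat 26778960, .negSucc 26954879, .ofNat 10140240, .negSucc 1645919], (.tr (.lf 13) (.lf 9) (.tr (.lf 6) (.lf 14) (.tr (.lf 10) (.dx 0 (.lf 5)) (.tw (.lf 17) (.lf 18))))), 0, [3, 3, 36, 36, 36, 36, 25, 25], [3, 3, 36, 36, 36, 36, 25, 25]⟩)
    (.lf ⟨[.negSucc 64618559, .ofNat 186430320, .negSucc 190371839, .ofNat 72852720, .negSucc 12009119], (.tr (.dx 0 (.tr (.tw (.lf 5) (.lf 9)) (.lf 6) (.lf 13))) (.lf 17) (.tr (.lf 10) (.lf 14) (.lf 18))), 0, [39, 0, 39, 7, 39, 7, 39, 7], []⟩)))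
    (.nd (.nd (.lf ⟨[.ofNat 5215680, .negSucc 24992399, .ofNat 29330400, .negSucc 11113679, .ofNat 1828800], (.tw (.dx 0 (.tr (.lf 13) (.lf 5) (.tr (.lf 6) (.lf 17) (.tr (.lf 9) (.lf 10) (.lf 14))))) (.lf 18)), 0, [10, 10, 3, 3, 0, 3, 20, 3], []⟩)
    (.lf ⟨[.negSucc 5895359, .ofNat 22912080, .negSucc 26016479, .ofNat 9690000, .negSucc 1584959], (.tw (.dx 0 (.tr (.lf 13) (.lf 5) (.tr (.lf 6) (.tr (.lf 9) (.lf 14) (.lf 17)) (.lf 10)))) (.lf 18)), 0, [10, 10, 3, 3, 0, 3, 20, 20], []⟩))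
    (.nd (.lf ⟨[.ofNat 48749760, .negSucc 158657999, .ofNat 162582240, .negSucc 60007439, .ofNat 9631680], (.tr (.dx 0 (.tr (.lf 5) (.lf 9) (.tr (.tw (.lf 10) (.lf 13)) (.lf 6) (.lf 17)))) (.lf 14) (.lf 18)), 0, [0, 0, 0, 0, 39, 10, 39, 30], []⟩)
    (.lf ⟨[.negSucc 153581759, .ofNat 498050640, .negSucc 520029119, .ofNat 190476240, .negSucc 30906719], (.tw (.dx 0 (.tw (.lf 5) (.tr (.lf 13) (.lf 6) (.tr (.lf 9) (.tw (.lf 14) (.lf 17)) (.lf 10))))) (.lf 18)), 0, [3, 0, 3, 0, 0, 0, 0, 0, 3, 3, 3, 3, 3, 20, 3, 20], []⟩))))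

/-- data -/
def dV13x11 : RT := (.nd (.nd (.nd (.lf ⟨[.ofNat 7862400, .negSucc 25186079, .ofNat 26039040, .negSucc 9795359, .ofNat 1584960], (.tw (.dx 0 (.tw (.lf 5) (.tr (.lf 17) (.lf 13) (.tr (.tw (.lf 9) (.lf 10)) (.lf 6) (.lf 14))))) (.lf 18)), 0, [3, 3, 3, 3, 3, 3, 3, 3, 30, 30, 30, 30, 20, 20, 3, 3], []⟩)
    (.lf ⟨[.ofNat 0, .ofNat 1359360, .ofNat 4160640, .negSucc 6627839, .ofNat 2847360, .negSucc 487679], (.tr (.lf 5) (.lf 13) (.tr (.dx 0 (.lf 9)) (.tr (.lf 6) (.lf 10) (.lf 19)) (.lf 14))), 0, [24, 24, 21, 21], [24, 24, 24, 24]⟩))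
    (.nd (.lf ⟨[.ofNat 9282240, .negSucc 29226959, .ofNat 29387520, .negSucc 11985359, .ofNat 1889760], (.tr (.lf 17) (.lf 6) (.tr (.lf 13) (.lf 18) (.tr (.dx 0 (.lf 5)) (.lf 14) (.tw (.lf 9) (.lf 10))))), 0, [7, 7, 1, 1, 26, 26, 5, 5], [7, 7, 26, 26, 26, 26, 5, 5]⟩)
    (.lf ⟨[.ofNat 0, .ofNat 725760, .negSucc 1761119, .ofNat 1085760, .negSucc 182879], (.tw (.lf 13) (.tr (.dx 0 (.lf 5)) (.tr (.lf 9) (.lf 14) (.tr (.lf 17) (.lf 10) (.lf 18))) (.lf 6))), 0, [17, 17, 9, 9, 1, 1, 1, 1], [22, 22, 9, 9, 18, 18, 18, 18]⟩)))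
    (.nd (.nd (.lf ⟨[.ofNat 9630720, .negSucc 29855999, .ofNat 30082560, .negSucc 12276479, .ofNat 1950720], (.tr (.dx 0 (.tr (.lf 5) (.tw (.lf 6) (.lf 13)) (.lf 17))) (.lf 9) (.tr (.lf 10) (.lf 14) (.lf 18))), 0, [0, 0, 39, 7, 39, 7, 39, 7], []⟩)
    (.lf ⟨[.ofNat 77448960, .negSucc 280203839, .ofNat 298219680, .negSucc 111004799, .ofNat 18348960], (.tr (.lf 9) (.dx 0 (.tr (.tw (.lf 5) (.lf 17)) (.lf 6) (.lf 13))) (.tr (.lf 14) (.lf 10) (.lf 18))), 0, [15, 12, 15, 37, 12, 12, 12, 12], []⟩))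
    (.nd (.lf ⟨[.negSucc 15693119, .ofNat 34624560, .negSucc 32308799, .ofNat 11868720, .negSucc 1889759], (.tr (.dx 0 (.tr (.lf 13) (.lf 5) (.tr (.lf 6) (.lf 17) (.lf 9)))) (.tw (.lf 14) (.lf 18)) (.lf 10)), 0, [10, 10, 10, 7, 29, 7, 20, 7], []⟩)
    (.lf ⟨[.negSucc 314118719, .ofNat 1026512880, .negSucc 1063437599, .ofNat 390702000, .negSucc 63398399], (.tr (.tw (.dx 0 (.tr (.lf 9) (.lf 17) (.tr (.lf 5) (.lf 6) (.lf 13)))) (.lf 18)) (.lf 14) (.lf 10)), 0, [7, 7, 0, 10, 2, 2, 2, 7], []⟩))))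

/-- data -/
def dV13x12 : RT := (.nd (.nd (.nd (.lf ⟨[.ofNat 0, .ofNat 1843200, .negSucc 3220319, .ofNat 888000, .negSucc 182879], (.tw (.dx 0 (.tr (.lf 9) (.tr (.lf 10) (.lf 5) (.tr (.lf 6) (.lf 13) (.lf 17))) (.lf 14))) (.lf 18)), 0, [20, 20, 20, 20, 3, 3, 10, 10], []⟩)
    (.lf ⟨[.ofNat 0, .negSucc 2476799, .negSucc 16571519, .ofNat 24166080, .negSucc 10494719, .ofNat 1828800], (.tr (.lf 9) (.tr (.lf 13) (.lf 10) (.tr (.dx 0 .on) (.lf 14) (.tw (.lf 5) (.lf 6)))) (.lf 19)), 0, [6, 6, 6, 6, 12, 12, 34, 34], [6, 6, 6, 6, 12, 12, 34, 34]⟩))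
    (.nd (.lf ⟨[.ofNat 0, .ofNat 460800, .ofNat 6165120, .negSucc 9655679, .ofNat 4149120, .negSucc 731519], (.tw (.lf 19) (.tr (.dx 0 (.lf 9)) (.tr (.lf 5) (.lf 10) (.tw (.lf 13) (.lf 14))) (.lf 6))), 0, [25, 25, 9, 9, 21, 21, 21, 21], [25, 25, 9, 9, 11, 11, 26, 26]⟩)
    (.lf ⟨[.ofNat 0, .negSucc 16819199, .ofNat 56444160, .negSucc 58911359, .ofNat 22452480, .negSucc 3657599], (.tr (.lf 19) (.lf 5) (.tr (.dx 0 (.tw (.lf 9) (.lf 13))) (.tw (.lf 6) (.lf 10)) (.lf 14))), 0, [37, 19, 37, 26, 26, 26, 26, 26], [37, 19, 26, 1]⟩)))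
    (.nd (.nd (.lf ⟨[.ofNat 0, .negSucc 14929919, .ofNat 48211200, .negSucc 50632319, .ofNat 19361280, .negSucc 3169919], (.tw (.dx 0 (.tw (.lf 9) (.tr (.lf 13) (.lf 5) (.tr (.lf 6) (.lf 10) (.lf 19))))) (.lf 14)), 0, [23, 23, 23, 23, 10, 10, 23, 23], []⟩)
    (.lf ⟨[.ofNat 38479680, .negSucc 113327279, .ofNat 116670720, .negSucc 44796719, .ofNat 7376160], (.tr (.lf 9) (.tr (.lf 13) (.lf 14) (.tr (.lf 10) (.tw (.dx 0 (.lf 5)) (.lf 6)) (.lf 17))) (.lf 18)), 0, [27, 3, 6, 6, 12, 34, 39, 39], [27, 3, 6, 6, 12, 34, 39, 39]⟩))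
    (.nd (.lf ⟨[.negSucc 9630719, .ofNat 28335360, .negSucc 27657599, .ofNat 10821120, .negSucc 1706879], (.tr (.lf 9) (.tr (.lf 13) (.lf 14) (.tr (.tw (.lf 6) (.lf 17)) (.dx 0 (.lf 5)) (.lf 10))) (.lf 18)), 0, [6, 6, 27, 27, 39, 39, 12, 12], [6, 6, 27, 27, 39, 39, 12, 12]⟩)
    (.lf ⟨[.ofNat 0, .negSucc 9630719, .ofNat 25017600, .negSucc 23735039, .ofNat 9066240, .negSucc 1463039], (.tr (.lf 1) (.tw (.dx 1 .on) (.tr (.lf 2) (.lf 15) (.tw (.lf 9) (.lf 19)))) (.lf 10)), 1, [29, 29, 0, 0, 10, 10, 35, 35], [0, 29, 13, 13, 10, 10, 20, 35]⟩))))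

/-- data -/
def dV13x13 : RT := (.nd (.nd (.nd (.lf ⟨[.ofNat 0, .ofNat 5207040, .negSucc 19991039, .ofNat 22383360, .negSucc 8785919, .ofNat 1463040], (.tr (.lf 5) (.tw (.lf 19) (.tr (.tw (.dx 0 (.lf 13)) (.lf 6)) (.lf 14) (.lf 9))) (.lf 10)), 0, [7, 7, 35, 13, 29, 32, 8, 8], [7, 7, 35, 16, 29, 32, 8, 8]⟩)
    (.lf ⟨[.ofNat 0, .negSucc 9354239, .ofNat 9672960, .negSucc 3755519, .ofNat 487680], (.tr (.lf 5) (.tr (.lf 9) (.lf 10) (.tr (.tw (.lf 6) (.lf 19)) (.dx 0 .on) (.lf 13))) (.lf 14)), 0, [23, 23, 8, 8, 16, 16, 37, 37], [23, 23, 8, 8, 16, 16, 37, 37]⟩))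
    (.nd (.lf ⟨[.ofNat 0, .ofNat 4423680, .ofNat 330240, .negSucc 5333759, .ofNat 2603520, .negSucc 487679], (.tr (.lf 9) (.tw (.dx 0 (.lf 5)) (.tr (.tw (.lf 6) (.lf 10)) (.lf 19) (.lf 13))) (.lf 14)), 0, [5, 5, 37, 12, 34, 34, 6, 6], [5, 5, 37, 12, 23, 34, 6, 6]⟩)
    (.lf ⟨[.ofNat 0, .ofNat 679680, .negSucc 733439, .ofNat 107520], (.tw (.lf 9) (.tr (.lf 6) (.lf 13) (.tr (.dx 0 (.lf 5)) (.lf 10) (.tr (.lf 17) (.lf 14) (.lf 18))))), 0, [39, 39, 1, 1, 12, 12, 25, 25], [39, 39, 21, 21, 12, 12, 25, 25]⟩)))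
    (.nd (.nd (.lf ⟨[.negSucc 5823359, .ofNat 14207520, .negSucc 11107199, .ofNat 4223520, .negSucc 609599], (.tr (.dx 0 (.tw (.lf 5) (.lf 9))) (.tw (.lf 17) (.tr (.lf 10) (.tw (.lf 13) (.lf 14)) (.lf 18))) (.lf 6)), 0, [0, 0, 0, 0, 17, 17, 0, 0, 20, 20, 9, 9, 17, 17, 17, 17], [30, 30, 30, 30, 17, 17, 30, 30]⟩)
    (.lf ⟨[.negSucc 22875839, .ofNat 65367120, .negSucc 66783839, .ofNat 25280400, .negSucc 4145279], (.tr (.lf 6) (.lf 17) (.tw (.dx 0 (.tw (.lf 5) (.lf 9))) (.tr (.lf 10) (.tw (.lf 13) (.lf 14)) (.lf 18)))), 0, [39, 39, 7, 7, 39, 39, 7, 7, 16, 1, 16, 1, 16, 16, 16, 16], [39, 39, 7, 7, 31, 31, 16, 16]⟩))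
    (.nd (.lf ⟨[.ofNat 57398400, .negSucc 159149279, .ofNat 155782080, .negSucc 59007839, .ofNat 9509760], (.tr (.lf 6) (.lf 17) (.tr (.lf 18) (.lf 13) (.tr (.dx 0 (.tw (.lf 5) (.lf 9))) (.lf 10) (.lf 14)))), 0, [16, 16, 16, 16, 39, 39, 16, 16], [16, 16, 39, 39]⟩)
    (.lf ⟨[.negSucc 57398399, .ofNat 160059360, .negSucc 156388799, .ofNat 59115360, .negSucc 9509759], (.tr (.lf 6) (.tr (.lf 13) (.tr (.dx 0 (.tw (.lf 5) (.lf 9))) (.lf 10) (.lf 14)) (.lf 17)) (.lf 18)), 0, [39, 39, 3, 3, 39, 39, 16, 16], [39, 3, 39, 39]⟩))))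

/-- data -/
def dV13x14 : RT := (.nd (.nd (.nd (.lf ⟨[.ofNat 0, .negSucc 910079, .ofNat 606720, .negSucc 107519], (.tr (.dx 0 (.tr (.tw (.lf 5) (.lf 17)) (.lf 9) (.lf 13))) (.tr (.lf 10) (.lf 14) (.lf 18)) (.lf 6)), 0, [0, 9, 17, 9, 10, 9, 17, 9], [17, 9]⟩)
    (.lf ⟨[.ofNat 0, .ofNat 5011200, .negSucc 5628479, .ofNat 2133120, .negSucc 365759], (.tr (.dx 0 (.tr (.lf 13) (.tw (.lf 5) (.lf 9)) (.lf 17))) (.tr (.lf 10) (.lf 14) (.lf 18)) (.lf 6)), 0, [10, 9, 10, 9, 17, 9, 30, 9], [17, 9]⟩))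
    (.nd (.lf ⟨[.ofNat 0, .negSucc 2741759, .ofNat 3369600, .negSucc 1582079, .ofNat 243840], (.tr (.lf 6) (.tr (.dx 0 (.tr (.lf 9) (.lf 5) (.tw (.lf 13) (.lf 17)))) (.lf 18) (.lf 14)) (.lf 10)), 0, [7, 7, 7, 7, 13, 13, 13, 13], [7, 13]⟩)
    (.lf ⟨[.ofNat 0, .ofNat 2741760, .negSucc 3369599, .ofNat 1582080, .negSucc 243839], (.tr (.lf 6) (.tr (.dx 0 (.tr (.lf 9) (.tw (.lf 5) (.lf 17)) (.lf 13))) (.lf 18) (.lf 14)) (.lf 10)), 0, [7, 7, 7, 7, 13, 13, 13, 13], [7, 13]⟩)))
    (.nd (.nd (.lf ⟨[.ofNat 0, .ofNat 2741760, .negSucc 3369599, .ofNat 1582080, .negSucc 243839], (.tr (.lf 10) (.lf 6) (.tr (.lf 14) (.dx 0 (.tr (.tw (.lf 5) (.lf 13)) (.lf 9) (.lf 17))) (.lf 18))), 0, [3, 3, 3, 3, 23, 23, 23, 34], [3, 34]⟩)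
    (.lf ⟨[.ofNat 0, .negSucc 3133439, .ofNat 3431040, .negSucc 1612799, .ofNat 243840], (.tr (.lf 10) (.lf 6) (.tr (.lf 14) (.dx 0 (.tr (.tw (.lf 5) (.lf 17)) (.lf 13) (.lf 9))) (.lf 18))), 0, [3, 3, 3, 3, 23, 23, 34, 34], [3, 34]⟩))
    (.nd (.lf ⟨[.ofNat 0, .ofNat 910080, .negSucc 606719, .ofNat 107520], (.tr (.lf 6) (.lf 18) (.tr (.lf 10) (.dx 0 (.tr (.tw (.lf 5) (.lf 9)) (.lf 13) (.lf 17))) (.lf 14))), 0, [16, 16, 16, 16, 13, 13, 13, 13], [16, 13]⟩)
    (.lf ⟨[.ofNat 0, .negSucc 6675839, .ofNat 6604800, .negSucc 2198399, .ofNat 121920], (.tr (.lf 6) (.dx 0 (.tr (.tw (.lf 9) (.lf 17)) (.lf 5) (.lf 13))) (.tr (.lf 10) (.lf 14) (.lf 18))), 0, [39, 7, 32, 7, 39, 7, 39, 7], [39, 7]⟩))))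

/-- data -/
def dV13x15 : RT := (.nd (.nd (.nd (.lf ⟨[.ofNat 0, .ofNat 1987200, .negSucc 2235839, .ofNat 332160, .negSucc 121919], (.tw (.dx 0 (.tr (.lf 9) (.tw (.lf 5) (.lf 17)) (.lf 13))) (.tr (.lf 6) (.tw (.lf 10) (.lf 14)) (.lf 18))), 0, [39, 20, 20, 9, 20, 20, 20, 20, 10, 10, 10, 10, 39, 10, 10, 9], [0, 0, 30, 9]⟩)
    (.lf ⟨[.ofNat 59860800, .negSucc 175418159, .ofNat 175167840, .negSucc 65520239, .ofNat 10850880], (.tr (.lf 10) (.lf 6) (.tr (.dx 0 (.tr (.lf 5) (.tw (.lf 9) (.lf 13)) (.lf 17))) (.lf 14) (.lf 18))), 0, [34, 34, 34, 34, 31, 31, 1, 1], [34, 11]⟩))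
    (.nd (.lf ⟨[.negSucc 41780159, .ofNat 148365840, .negSucc 156251999, .ofNat 59250000, .negSucc 9875519], (.tr (.lf 6) (.tr (.lf 14) (.dx 0 (.tr (.lf 9) (.tw (.lf 5) (.lf 17)) (.lf 13))) (.lf 18)) (.lf 10)), 0, [24, 24, 24, 24, 7, 7, 7, 7], [24, 7]⟩)
    (.lf ⟨[.ofNat 136800000, .negSucc 444957119, .ofNat 459845280, .negSucc 171417599, .ofNat 27980640], (.tr (.lf 18) (.lf 6) (.tr (.dx 0 (.tr (.lf 9) (.tw (.lf 5) (.lf 17)) (.lf 13))) (.lf 10) (.lf 14))), 0, [37, 37, 37, 37, 26, 11, 21, 26], [37, 26]⟩)))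
    (.nd (.nd (.lf ⟨[.negSucc 154880639, .ofNat 462620640, .negSucc 467331359, .ofNat 173778720, .negSucc 28224479], (.tr (.lf 18) (.lf 6) (.tr (.dx 0 (.tr (.tw (.lf 9) (.lf 17)) (.lf 5) (.lf 13))) (.lf 10) (.lf 14))), 0, [37, 37, 26, 37, 11, 11, 26, 21], [37, 26]⟩)
    (.lf ⟨[.ofNat 0, .ofNat 2741760, .negSucc 3369599, .ofNat 1582080, .negSucc 243839], (.tr (.lf 6) (.dx 0 (.tr (.tw (.lf 9) (.lf 17)) (.lf 5) (.lf 13))) (.tr (.lf 10) (.lf 18) (.lf 14))), 0, [5, 29, 32, 32, 32, 32, 32, 32], [5, 32]⟩))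
    (.nd (.lf ⟨[.ofNat 175680, .negSucc 11418479, .ofNat 14732160, .negSucc 6174959, .ofNat 1036320], (.tr (.lf 10) (.lf 13) (.tr (.lf 17) (.lf 18) (.tr (.dx 0 (.tw (.lf 5) (.lf 9))) (.lf 14) (.lf 6)))), 0, [6, 25, 6, 1, 27, 27, 3, 3], [6, 6, 27, 3]⟩)
    (.lf ⟨[.ofNat 60154560, .negSucc 153689039, .ofNat 146031360, .negSucc 54615119, .ofNat 8717280], (.tr (.lf 17) (.lf 18) (.tr (.lf 13) (.lf 10) (.tr (.dx 0 (.tw (.lf 5) (.lf 9))) (.lf 14) (.lf 6)))), 0, [38, 38, 38, 38, 2, 2, 26, 26], [38, 38, 2, 26]⟩))))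

/-- data -/
def dV13x16 : RT := (.nd (.nd (.nd (.lf ⟨[.negSucc 59351039, .ofNat 159851520, .negSucc 154814399, .ofNat 58277760, .negSucc 9387839], (.tr (.lf 13) (.lf 17) (.tr (.dx 0 (.tw (.lf 5) (.lf 9))) (.lf 14) (.tr (.lf 10) (.lf 6) (.lf 18)))), 0, [4, 4, 4, 4, 21, 1, 4, 4], [4, 4, 11, 4]⟩)
    (.lf ⟨[.ofNat 59351040, .negSucc 160531199, .ofNat 155547840, .negSucc 58385279, .ofNat 9387840], (.tr (.lf 13) (.lf 17) (.tr (.dx 0 (.tw (.lf 5) (.lf 9))) (.tr (.lf 6) (.lf 18) (.lf 14)) (.lf 10))), 0, [4, 4, 4, 4, 21, 1, 21, 1], [4, 4, 11, 4]⟩))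
    (.nd (.lf ⟨[.ofNat 2462400, .negSucc 30513359, .ofNat 35208000, .negSucc 13913039, .ofNat 2255520], (.tr (.lf 13) (.lf 17) (.tr (.lf 6) (.tr (.lf 14) (.dx 0 (.tw (.lf 5) (.lf 9))) (.lf 18)) (.lf 10))), 0, [4, 4, 7, 4, 17, 17, 25, 25], [4, 4, 17, 25]⟩)
    (.lf ⟨[.ofNat 0, .negSucc 322559, .negSucc 715199, .ofNat 332160, .negSucc 121919], (.tr (.dx 0 (.tr (.lf 5) (.lf 9) (.lf 13))) (.lf 17) (.tr (.lf 10) (.lf 6) (.tw (.lf 14) (.lf 18)))), 0, [0, 0, 0, 0, 39, 5, 35, 10], [39, 5, 30, 30]⟩)))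
    (.nd (.nd (.lf ⟨[.ofNat 0, .ofNat 3582720, .negSucc 4535039, .ofNat 1493760, .negSucc 243839], (.tw (.lf 10) (.tr (.dx 0 (.tr (.lf 5) (.lf 9) (.lf 13))) (.lf 17) (.tr (.lf 6) (.lf 14) (.lf 18)))), 0, [12, 12, 12, 12, 11, 1, 28, 1], [39, 12, 31, 28]⟩)
    (.lf ⟨[.ofNat 0, .ofNat 2062080, .negSucc 3402239, .ofNat 990720, .negSucc 243839], (.tw (.lf 6) (.tr (.lf 14) (.lf 17) (.tr (.lf 10) (.dx 0 (.tr (.lf 9) (.lf 5) (.lf 13))) (.lf 18)))), 0, [3, 3, 13, 13, 5, 5, 16, 16], [3, 13, 5, 16]⟩))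
    (.nd (.lf ⟨[.ofNat 0, .ofNat 2548800, .negSucc 4026479, .ofNat 3723840, .negSucc 1311599, .ofNat 182880], (.tw (.lf 19) (.tr (.dx 0 (.tw (.lf 5) (.lf 9))) (.lf 13) (.tr (.lf 10) (.lf 6) (.lf 14)))), 0, [2, 2, 19, 2, 21, 1, 21, 1], [19, 2, 11, 38]⟩)
    (.lf ⟨[.ofNat 0, .negSucc 7928639, .negSucc 2514959, .ofNat 11150400, .negSucc 5441039, .ofNat 1036320], (.tw (.lf 19) (.tr (.lf 13) (.lf 6) (.tr (.dx 0 (.tw (.lf 5) (.lf 9))) (.lf 14) (.lf 10)))), 0, [7, 7, 21, 1, 2, 19, 14, 14], [7, 38, 19, 14]⟩))))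

/-- data -/
def dV13x17 : RT := (.nd (.nd (.nd (.lf ⟨[.ofNat 0, .negSucc 40412159, .ofNat 101187840, .negSucc 96074879, .ofNat 35304960, .negSucc 5608319], (.tw (.lf 19) (.tr (.lf 13) (.lf 10) (.tr (.dx 0 (.tw (.lf 5) (.lf 9))) (.lf 14) (.lf 6)))), 0, [25, 25, 38, 1, 37, 37, 26, 26], [25, 38, 37, 26]⟩)
    (.lf ⟨[.ofNat 0, .ofNat 15664320, .negSucc 47258639, .ofNat 48313920, .negSucc 18293519, .ofNat 2987040], (.tw (.lf 13) (.tr (.lf 10) (.tr (.dx 0 (.tw (.lf 5) (.lf 9))) (.lf 14) (.lf 6)) (.lf 19))), 0, [27, 27, 36, 36, 4, 4, 13, 13], [27, 36, 4, 13]⟩))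
    (.nd (.lf ⟨[.ofNat 0, .negSucc 10448639, .ofNat 14972160, .negSucc 8795519, .ofNat 2277120, .negSucc 243839], (.tr (.lf 10) (.tr (.tw (.dx 0 (.tw (.lf 5) (.lf 9))) (.lf 13)) (.lf 6) (.lf 19)) (.lf 14)), 0, [12, 12, 5, 6, 23, 23, 28, 28], [12, 5, 23, 23]⟩)
    (.lf ⟨[.ofNat 0, .negSucc 1451519, .ofNat 350400, .ofNat 67200, .negSucc 121919], (.tr (.lf 17) (.dx 0 (.tr (.lf 5) (.lf 9) (.lf 13))) (.tr (.tw (.lf 6) (.lf 14)) (.lf 18) (.lf 10))), 0, [2, 2, 19, 2, 29, 29, 19, 25], [2, 29, 19, 2]⟩)))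
    (.nd (.nd (.lf ⟨[.ofNat 0, .negSucc 2131199, .ofNat 2029440, .negSucc 1724159, .ofNat 243840], (.tw (.lf 14) (.tr (.lf 17) (.dx 0 (.tr (.lf 5) (.lf 13) (.lf 9))) (.tr (.lf 6) (.lf 18) (.lf 10)))), 0, [4, 4, 4, 17, 18, 18, 3, 3], [4, 17, 18, 3]⟩)
    (.lf ⟨[.ofNat 0, .ofNat 7130880, .negSucc 7592639, .ofNat 3830400, .negSucc 609599], (.tw (.lf 10) (.tr (.lf 14) (.lf 17) (.tr (.dx 0 (.tr (.lf 5) (.lf 13) (.lf 9))) (.lf 6) (.lf 18)))), 0, [6, 6, 6, 6, 5, 12, 5, 5], [6, 6, 5, 5]⟩))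
    (.nd (.lf ⟨[.ofNat 26035200, .negSucc 75215999, .ofNat 74987520, .negSucc 29132159, .ofNat 4632960], (.tw (.lf 14) (.tr (.lf 10) (.dx 0 (.tr (.lf 5) (.lf 9) (.lf 13))) (.tr (.lf 6) (.lf 17) (.lf 18)))), 0, [27, 17, 27, 17, 13, 18, 4, 4], [27, 17, 18, 4]⟩)
    (.lf ⟨[.ofNat 0, .ofNat 2548800, .negSucc 4026479, .ofNat 3723840, .negSucc 1311599, .ofNat 182880], (.tw (.dx 0 (.tw (.lf 5) (.lf 13))) (.tr (.lf 14) (.lf 19) (.tr (.lf 6) (.lf 9) (.lf 10)))), 0, [35, 9, 0, 0, 35, 9, 10, 10], [35, 9, 0, 20]⟩))))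

/-- data -/
def dV13x18 : RT := (.nd (.nd (.nd (.lf ⟨[.ofNat 0, .negSucc 3064319, .ofNat 3830400, .negSucc 1294079, .ofNat 243840], (.tw (.lf 14) (.tr (.lf 19) (.lf 6) (.tr (.dx 0 (.tw (.lf 5) (.lf 13))) (.lf 9) (.lf 10)))), 0, [13, 13, 11, 1, 22, 22, 36, 36], [13, 21, 22, 36]⟩)
    (.lf ⟨[.ofNat 0, .negSucc 5379839, .ofNat 5606400, .negSucc 2995199, .ofNat 487680], (.tr (.lf 14) (.lf 17) (.tr (.dx 0 (.tr (.lf 5) (.lf 13) (.lf 9))) (.lf 10) (.tw (.lf 6) (.lf 18)))), 0, [4, 4, 4, 17, 4, 4, 4, 4], [4, 17, 21, 4]⟩))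
    (.nd (.lf ⟨[.ofNat 0, .ofNat 15359040, .negSucc 31282799, .ofNat 26558400, .negSucc 9283439, .ofNat 1402080], (.tr (.lf 14) (.lf 9) (.tr (.tw (.lf 6) (.lf 19)) (.dx 0 (.tw (.lf 5) (.lf 13))) (.lf 10))), 0, [13, 36, 13, 13, 36, 36, 36, 36], [36, 13, 36, 36]⟩)
    (.lf ⟨[.ofNat 0, .ofNat 21637440, .negSucc 43303919, .ofNat 36427200, .negSucc 12618479, .ofNat 1889760], (.tw (.lf 9) (.tr (.lf 19) (.lf 14) (.tr (.dx 0 (.tw (.lf 5) (.lf 13))) (.lf 10) (.lf 6)))), 0, [28, 28, 11, 1, 12, 12, 34, 34], [28, 28, 12, 34]⟩)))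
    (.nd (.nd (.lf ⟨[.ofNat 0, .ofNat 3133440, .negSucc 3431039, .ofNat 1612800, .negSucc 243839], (.tr (.lf 17) (.dx 0 (.tr (.lf 5) (.lf 13) (.lf 9))) (.tr (.lf 6) (.lf 18) (.tw (.lf 10) (.lf 14)))), 0, [2, 7, 2, 2, 2, 7, 2, 17], [2, 2, 2, 17]⟩)
    (.lf ⟨[.ofNat 0, .negSucc 6278399, .ofNat 7328640, .negSucc 3121919, .ofNat 487680], (.tr (.dx 0 (.tr (.lf 5) (.lf 9) (.lf 13))) (.tr (.tw (.lf 6) (.lf 17)) (.lf 14) (.lf 10)) (.lf 18)), 0, [0, 0, 27, 27, 15, 15, 27, 27], [15, 15, 27, 27]⟩))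
    (.nd (.lf ⟨[.ofNat 0, .negSucc 19673279, .ofNat 19014480, .negSucc 6772799, .ofNat 517200, .ofNat 182880], (.tw (.lf 6) (.tr (.lf 10) (.tr (.dx 0 (.tw (.lf 5) (.lf 9))) (.lf 13) (.lf 14)) (.lf 19))), 0, [39, 39, 8, 8, 7, 7, 13, 13], [39, 8, 7, 13]⟩)
    (.lf ⟨[.ofNat 0, .ofNat 1941120, .negSucc 12670559, .ofNat 15360000, .negSucc 6284639, .ofNat 1097280], (.tr (.lf 10) (.lf 13) (.tr (.dx 0 (.tw (.lf 5) (.lf 9))) (.lf 19) (.tw (.lf 6) (.lf 14)))), 0, [19, 6, 19, 6, 21, 1, 6, 6], [19, 6, 31, 6]⟩))))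

/-- data -/
def dV13x19 : RT := (.nd (.nd (.nd (.lf ⟨[.ofNat 0, .ofNat 5025600, .negSucc 12355439, .ofNat 12022080, .negSucc 4402799, .ofNat 670560], (.tw (.lf 13) (.tr (.lf 6) (.lf 19) (.tr (.dx 0 (.tw (.lf 5) (.lf 9))) (.lf 14) (.lf 10)))), 0, [18, 18, 18, 1, 17, 22, 36, 36], [18, 18, 22, 36]⟩)
    (.lf ⟨[.ofNat 0, .negSucc 43269119, .ofNat 132549120, .negSucc 134872319, .ofNat 51087360, .negSucc 8290559], (.tr (.dx 0 (.tw (.lf 9) (.lf 13))) (.lf 5) (.tr (.lf 14) (.tw (.lf 6) (.lf 10)) (.lf 19))), 0, [20, 20, 37, 19, 10, 10, 37, 19], [0, 0, 37, 19]⟩))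
    (.nd (.lf ⟨[.ofNat 0, .ofNat 10514880, .negSucc 11856719, .ofNat 3577920, .negSucc 29519, .negSucc 182879], (.tr (.lf 14) (.lf 5) (.tr (.dx 0 (.tw (.lf 9) (.lf 13))) (.tw (.lf 6) (.lf 19)) (.lf 10))), 0, [29, 35, 29, 35, 18, 18, 18, 18], [29, 35, 18, 18]⟩)
    (.lf ⟨[.ofNat 0, .negSucc 11445119, .ofNat 11837280, .negSucc 3953279, .ofNat 263520, .ofNat 121920], (.tw (.dx 0 (.tw (.lf 9) (.lf 13))) (.tr (.lf 5) (.tr (.lf 6) (.lf 10) (.lf 19)) (.lf 14))), 0, [20, 19, 17, 9, 10, 19, 17, 9], [0, 19, 17, 9]⟩)))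
    (.nd (.nd (.lf ⟨[.ofNat 0, .ofNat 11868480, .ofNat 2128080, .negSucc 15583679, .ofNat 7922640, .negSucc 1523999], (.tr (.dx 0 (.tw (.lf 5) (.lf 9))) (.lf 13) (.tr (.tw (.lf 6) (.lf 14)) (.lf 19) (.lf 10))), 0, [0, 0, 0, 0, 20, 29, 19, 20], [10, 10, 19, 10]⟩)
    (.lf ⟨[.ofNat 0, .ofNat 9463680, .negSucc 14337119, .ofNat 9479040, .negSucc 2867039, .ofNat 365760], (.tr (.lf 14) (.lf 9) (.tr (.dx 0 (.tw (.lf 5) (.lf 13))) (.lf 19) (.tw (.lf 6) (.lf 10)))), 0, [36, 36, 36, 36, 11, 36, 36, 36], [35, 9, 36, 36]⟩))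
    (.nd (.lf ⟨[.ofNat 0, .negSucc 2142719, .ofNat 2456640, .negSucc 727679, .ofNat 121920], (.tw (.lf 13) (.tr (.lf 6) (.lf 17) (.tw (.dx 0 (.lf 5)) (.tr (.lf 9) (.tw (.lf 14) (.lf 18)) (.lf 10))))), 0, [18, 7, 18, 7, 1, 1, 1, 1, 17, 17, 17, 17, 36, 17, 36, 17], [18, 7, 18, 7, 18, 18, 18, 18, 22, 22, 22, 22, 36, 17, 36, 17]⟩)
    (.lf ⟨[.ofNat 0, .ofNat 3064320, .negSucc 3830399, .ofNat 1294080, .negSucc 243839], (.tw (.lf 13) (.tr (.lf 6) (.lf 17) (.tr (.dx 0 (.lf 5)) (.lf 9) (.tr (.lf 10) (.lf 14) (.lf 18))))), 0, [39, 7, 1, 1, 17, 17, 36, 4], [39, 7, 18, 21, 17, 22, 36, 4]⟩))))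

/-- data -/
def dV13x20 : RT := (.nd (.nd (.nd (.lf ⟨[.ofNat 0, .negSucc 5356799, .ofNat 6685440, .negSucc 2883839, .ofNat 487680], (.tw (.lf 13) (.tr (.lf 6) (.lf 17) (.tr (.dx 0 (.lf 5)) (.tr (.lf 9) (.lf 10) (.lf 14)) (.lf 18)))), 0, [39, 15, 1, 1, 17, 17, 17, 4], [39, 15, 18, 21, 17, 22, 17, 4]⟩)
    (.lf ⟨[.ofNat 0, .ofNat 0, .negSucc 5356799, .ofNat 6685440, .negSucc 2883839, .ofNat 487680], (.tw (.lf 5) (.tr (.lf 19) (.lf 9) (.tr (.lf 10) (.tw (.dx 0 .on) (.lf 6)) (.lf 15)))), 0, [16, 23, 35, 13, 15, 8, 15, 24], [16, 16, 35, 16, 15, 8, 15, 24]⟩))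
    (.nd (.lf ⟨[.ofNat 0, .negSucc 2741759, .ofNat 3369600, .negSucc 1582079, .ofNat 243840], (.tw (.lf 10) (.tr (.lf 17) (.dx 0 (.tr (.lf 5) (.lf 9) (.lf 13))) (.tr (.lf 6) (.lf 18) (.lf 14)))), 0, [5, 28, 5, 17, 34, 3, 6, 3], [5, 17, 34, 3]⟩)
    (.lf ⟨[.ofNat 0, .ofNat 3409920, .negSucc 3667199, .ofNat 1981440, .negSucc 243839], (.tw (.lf 17) (.tr (.lf 10) (.lf 6) (.tr (.dx 0 (.tr (.lf 5) (.lf 13) (.lf 9))) (.lf 18) (.lf 14)))), 0, [5, 5, 14, 1, 2, 2, 38, 38], [5, 31, 2, 38]⟩)))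
    (.nd (.nd (.lf ⟨[.ofNat 0, .negSucc 2741759, .ofNat 3369600, .negSucc 1582079, .ofNat 243840], (.tr (.dx 0 (.tr (.lf 9) (.tw (.lf 5) (.lf 13)) (.lf 17))) (.tr (.lf 14) (.lf 10) (.lf 18)) (.lf 6)), 0, [17, 20, 17, 25, 17, 25, 30, 30], [17, 30]⟩)
    (.lf ⟨[.ofNat 391680, .negSucc 322559], (.tw (.dx 0 (.tw (.lf 5) (.tr (.lf 17) (.lf 9) (.tr (.lf 6) (.tw (.lf 13) (.lf 14)) (.lf 10))))) (.lf 18)), 0, [3, 3, 3, 3, 3, 3, 3, 3, 3, 3, 3, 3, 3, 3, 3, 3], []⟩))
    (.nd (.lf ⟨[.ofNat 0, .ofNat 3064320, .negSucc 3830399, .ofNat 1294080, .negSucc 243839], (.tw (.lf 9) (.tr (.lf 19) (.lf 13) (.tr (.dx 0 .on) (.lf 5) (.tr (.lf 6) (.lf 10) (.lf 14))))), 0, [37, 9, 1, 1, 39, 12, 34, 6], [37, 9, 28, 1, 39, 12, 34, 6]⟩)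
    (.lf ⟨[.negSucc 11980799, .ofNat 41272320, .negSucc 44766719, .ofNat 17571840, .negSucc 2926079], (.tr (.lf 5) (.lf 9) (.tr (.lf 10) (.tr (.lf 6) (.tr (.dx 0 .on) (.lf 13) (.lf 17)) (.lf 18)) (.lf 14))), 0, [5, 8, 8, 8, 29, 8, 8, 35], [5, 8, 8, 8, 29, 8, 8, 8]⟩))))

/-- data -/
def dV13x21 : RT := (.nd (.nd (.nd (.lf ⟨[.ofNat 36587520, .negSucc 56017919, .ofNat 39377280, .negSucc 12038399, .ofNat 1706880], (.tr (.lf 5) (.tr (.lf 17) (.lf 18) (.tr (.lf 9) (.lf 13) (.tr (.lf 6) (.dx 0 .on) (.lf 14)))) (.lf 10)), 0, [16, 16, 7, 7, 29, 29, 32, 29], [16, 16, 7, 7, 29, 29, 32, 29]⟩)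
    (.lf ⟨[.negSucc 748799, .negSucc 23062079, .ofNat 31694400, .negSucc 13463999, .ofNat 2316480], (.tr (.lf 5) (.tw (.dx 0 .on) (.tr (.lf 6) (.lf 13) (.tr (.lf 14) (.tw (.lf 9) (.lf 10)) (.lf 17)))) (.lf 18)), 0, [15, 15, 32, 32, 32, 32, 32, 32, 24, 24, 24, 24, 3, 3, 3, 3], [15, 15, 32, 32, 27, 27, 27, 27, 24, 24, 24, 24, 3, 3, 16, 16]⟩))
    (.nd (.lf ⟨[.negSucc 783359, .ofNat 645120], (.tr (.lf 5) (.lf 9) (.tr (.lf 10) (.tr (.lf 13) (.dx 0 .on) (.tr (.lf 6) (.lf 17) (.lf 18))) (.lf 14))), 0, [8, 8, 23, 23, 29, 8, 8, 8], [8, 8, 23, 23, 29, 8, 8, 8]⟩)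
    (.lf ⟨[.negSucc 13582079, .ofNat 45282240, .negSucc 46980479, .ofNat 17937600, .negSucc 2926079], (.tr (.lf 5) (.tr (.lf 17) (.lf 18) (.tr (.lf 6) (.dx 0 .on) (.tr (.lf 9) (.lf 13) (.lf 14)))) (.lf 10)), 0, [16, 7, 16, 16, 32, 32, 29, 29], [16, 7, 16, 16, 32, 32, 29, 29]⟩)))
    (.nd (.nd (.lf ⟨[.negSucc 967679, .negSucc 4483199, .ofNat 6627840, .negSucc 2847359, .ofNat 487680], (.tr (.lf 5) (.tr (.lf 17) (.lf 18) (.tr (.dx 0 .on) (.lf 6) (.tr (.lf 9) (.lf 13) (.lf 14)))) (.lf 10)), 0, [7, 7, 16, 13, 32, 29, 29, 24], [7, 7, 16, 16, 32, 32, 29, 24]⟩)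
    (.lf ⟨[.ofNat 1359360, .ofNat 4160640, .negSucc 6627839, .ofNat 2847360, .negSucc 487679], (.tr (.lf 5) (.tr (.lf 17) (.lf 18) (.tr (.dx 0 .on) (.tr (.lf 6) (.lf 9) (.lf 13)) (.lf 14))) (.lf 10)), 0, [7, 16, 13, 13, 32, 29, 24, 24], [7, 16, 16, 16, 32, 29, 24, 24]⟩))
    (.nd (.lf ⟨[.ofNat 7666560, .negSucc 20722079, .ofNat 20176320, .negSucc 7545119, .ofNat 1219200], (.tr (.lf 5) (.tw (.lf 17) (.tr (.lf 6) (.dx 0 .on) (.tr (.lf 9) (.tw (.lf 13) (.lf 14)) (.lf 18)))) (.lf 10)), 0, [16, 16, 7, 7, 35, 35, 16, 16, 32, 32, 32, 32, 8, 8, 29, 29], [16, 16, 7, 7, 35, 35, 16, 16, 32, 32, 32, 32, 8, 8, 29, 29]⟩)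
    (.lf ⟨[.ofNat 0, .negSucc 7557119, .ofNat 8175360, .negSucc 3455999, .ofNat 487680], (.tr (.lf 5) (.tw (.lf 9) (.tr (.lf 13) (.dx 0 .on) (.tr (.lf 6) (.lf 19) (.lf 10)))) (.lf 14)), 0, [8, 19, 23, 23, 37, 24, 16, 37], [8, 19, 23, 23, 37, 24, 16, 37]⟩))))

/-- data -/
def dV13x22 : RT := (.nd (.nd (.nd (.lf ⟨[.ofNat 0, .negSucc 4515839, .ofNat 3325440, .negSucc 545279], (.tr (.lf 5) (.tw (.lf 9) (.tr (.lf 6) (.tr (.dx 0 .on) (.lf 10) (.lf 19)) (.lf 13))) (.lf 14)), 0, [5, 23, 19, 8, 32, 16, 24, 37], [5, 23, 19, 8, 32, 16, 24, 37]⟩)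
    (.lf ⟨[.negSucc 2459519, .ofNat 6277920, .negSucc 6040319, .ofNat 2257440, .negSucc 365759], (.tr (.lf 5) (.tw (.lf 17) (.tr (.lf 6) (.tr (.dx 0 .on) (.lf 18) (.tw (.lf 13) (.lf 14))) (.lf 9))) (.lf 10)), 0, [7, 7, 13, 13, 16, 16, 35, 35, 32, 32, 24, 24, 29, 29, 8, 8], [7, 7, 13, 13, 16, 16, 35, 35, 32, 32, 24, 24, 29, 29, 8, 8]⟩))
    (.nd (.lf ⟨[.ofNat 2459520, .negSucc 6277919, .ofNat 6040320, .negSucc 2257439, .ofNat 365760], (.tr (.lf 5) (.tw (.lf 17) (.tr (.lf 9) (.dx 0 .on) (.tr (.lf 6) (.tw (.lf 13) (.lf 14)) (.lf 18)))) (.lf 10)), 0, [16, 16, 16, 16, 13, 13, 13, 13, 29, 29, 29, 29, 24, 24, 29, 29], [16, 16, 16, 16, 13, 13, 13, 13, 29, 29, 29, 29, 24, 24, 29, 29]⟩)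
    (.lf ⟨[.ofNat 0, .negSucc 3317759, .ofNat 3922560, .negSucc 1754879, .ofNat 243840], (.tr (.lf 9) (.tw (.lf 13) (.tr (.lf 6) (.lf 17) (.tr (.dx 0 (.lf 5)) (.lf 10) (.lf 14)))) (.lf 18)), 0, [39, 3, 27, 27, 39, 34, 39, 6], [39, 3, 27, 27, 39, 34, 12, 6]⟩)))
    (.nd (.nd (.lf ⟨[.ofNat 0, .negSucc 1520639, .ofNat 2424960, .negSucc 1455359, .ofNat 243840], (.tr (.lf 9) (.tw (.lf 13) (.tr (.lf 10) (.lf 6) (.tr (.lf 14) (.dx 0 (.lf 5)) (.lf 17)))) (.lf 18)), 0, [3, 6, 6, 6, 34, 34, 39, 39], [3, 6, 6, 6, 34, 34, 39, 39]⟩)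
    (.lf ⟨[.ofNat 0, .ofNat 2580480, .negSucc 2995199, .negSucc 115199], (.tw (.lf 9) (.tr (.lf 13) (.tr (.lf 10) (.lf 6) (.tr (.lf 14) (.dx 0 (.lf 5)) (.lf 17))) (.lf 18))), 0, [3, 6, 6, 6, 28, 23, 37, 28], [3, 6, 6, 6, 28, 23, 37, 28]⟩))
    (.nd (.lf ⟨[.ofNat 0, .ofNat 9492480, .negSucc 8505599, .ofNat 4116480, .negSucc 487679], (.tw (.lf 5) (.tr (.lf 9) (.tr (.lf 6) (.dx 0 .on) (.tr (.lf 10) (.lf 19) (.lf 13))) (.lf 14))), 0, [5, 8, 8, 8, 24, 29, 35, 24], [5, 8, 8, 8, 24, 29, 35, 24]⟩)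
    (.lf ⟨[.negSucc 13582079, .ofNat 30857280, .negSucc 28002239, .ofNat 10046400, .negSucc 1584959], (.tr (.lf 5) (.tw (.dx 0 .on) (.tr (.lf 6) (.lf 9) (.tr (.lf 10) (.tw (.lf 13) (.lf 14)) (.lf 17)))) (.lf 18)), 0, [39, 39, 32, 32, 32, 32, 32, 32, 8, 8, 8, 8, 3, 3, 3, 3], [39, 39, 32, 32, 27, 27, 32, 32, 8, 8, 8, 8, 8, 8, 3, 3]⟩))))

/-- data -/
def dV13x23 : RT := (.nd (.nd (.nd (.lf ⟨[.ofNat 27164160, .negSucc 61714559, .ofNat 56004480, .negSucc 20092799, .ofNat 3169920], (.tr (.lf 5) (.tr (.lf 17) (.lf 18) (.tr (.lf 6) (.lf 13) (.tr (.lf 9) (.dx 0 .on) (.lf 14)))) (.lf 10)), 0, [16, 13, 16, 16, 24, 24, 29, 29], [16, 13, 16, 16, 24, 24, 29, 29]⟩)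
    (.lf ⟨[.negSucc 21307679, .ofNat 58604280, .negSucc 59543999, .ofNat 22486200, .negSucc 3688079], (.tr (.dx 0 (.tw (.lf 5) (.lf 17))) (.lf 9) (.tw (.lf 6) (.tr (.lf 10) (.lf 18) (.tw (.lf 13) (.lf 14))))), 0, [5, 5, 29, 29, 25, 25, 9, 9, 5, 5, 29, 29, 25, 25, 9, 9], [5, 5, 29, 29, 20, 20, 9, 9]⟩))
    (.nd (.lf ⟨[.ofNat 5207040, .negSucc 14444159, .ofNat 14136000, .negSucc 5287679, .ofNat 853440], (.tr (.lf 10) (.lf 17) (.tw (.lf 18) (.tr (.dx 0 (.tw (.lf 5) (.lf 9))) (.tw (.lf 13) (.lf 14)) (.lf 6)))), 0, [25, 25, 25, 25, 28, 28, 28, 28, 27, 27, 27, 27, 28, 3, 28, 3], [25, 25, 11, 11, 27, 27, 28, 28]⟩)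
    (.lf ⟨[.ofNat 16912800, .negSucc 49222679, .ofNat 49488960, .negSucc 18968279, .ofNat 3078480], (.tr (.lf 10) (.lf 17) (.tw (.lf 6) (.tr (.tw (.lf 13) (.lf 14)) (.dx 0 (.tw (.lf 5) (.lf 9))) (.lf 18)))), 0, [28, 3, 28, 3, 23, 23, 23, 23, 17, 17, 17, 17, 25, 25, 25, 25], [28, 28, 23, 23, 28, 28, 25, 25]⟩)))
    (.nd (.nd (.lf ⟨[.ofNat 0, .negSucc 12072959, .ofNat 11500800, .negSucc 4001279, .ofNat 487680], (.tr (.lf 13) (.lf 6) (.tr (.lf 9) (.tr (.lf 10) (.tw (.dx 0 (.lf 5)) (.lf 17)) (.lf 14)) (.lf 18))), 0, [39, 18, 15, 15, 18, 18, 29, 13], [39, 18, 15, 15, 7, 18, 29, 13]⟩)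
    (.lf ⟨[.ofNat 21764160, .negSucc 48823919, .ofNat 46210560, .negSucc 17111279, .ofNat 2743200], (.tr (.lf 6) (.tr (.lf 9) (.lf 10) (.tr (.dx 0 (.tw (.lf 5) (.lf 17))) (.lf 13) (.lf 18))) (.lf 14)), 0, [5, 5, 8, 8, 32, 37, 37, 37], [5, 23, 37, 37]⟩))
    (.nd (.lf ⟨[.negSucc 7240319, .ofNat 23620320, .negSucc 24802559, .ofNat 9619680, .negSucc 1584959], (.tr (.lf 5) (.lf 6) (.tr (.lf 13) (.tw (.dx 0 .on) (.tr (.tw (.lf 9) (.lf 10)) (.lf 14) (.lf 17))) (.lf 18))), 0, [24, 24, 24, 24, 24, 24, 24, 24, 16, 16, 16, 16, 16, 16, 16, 16], [39, 39, 24, 24, 24, 24, 24, 24, 16, 16, 16, 16, 16, 16, 16, 16]⟩)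
    (.lf ⟨[.negSucc 3064319, .ofNat 3830400, .negSucc 1777919, .ofNat 243840], (.tr (.lf 5) (.lf 6) (.tr (.lf 13) (.tr (.dx 0 .on) (.tr (.lf 9) (.lf 14) (.lf 17)) (.lf 10)) (.lf 18))), 0, [24, 24, 24, 24, 16, 16, 16, 16], [24, 24, 24, 24, 16, 16, 16, 16]⟩))))

/-- data -/
def dV13x24 : RT := (.nd (.nd (.nd (.lf ⟨[.ofNat 7240320, .negSucc 23620319, .ofNat 24802560, .negSucc 9619679, .ofNat 1584960], (.tr (.lf 5) (.lf 6) (.tr (.lf 13) (.tw (.lf 17) (.tr (.dx 0 .on) (.tw (.lf 9) (.lf 10)) (.lf 14))) (.lf 18))), 0, [24, 24, 24, 24, 24, 24, 24, 24, 16, 16, 16, 16, 16, 16, 16, 16], [24, 24, 24, 24, 39, 39, 24, 24, 16, 16, 16, 16, 16, 16, 16, 16]⟩)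
    (.lf ⟨[.negSucc 7240319, .ofNat 23620320, .negSucc 24802559, .ofNat 9619680, .negSucc 1584959], (.tr (.lf 5) (.lf 6) (.tr (.lf 13) (.tr (.lf 14) (.tr (.dx 0 .on) (.lf 9) (.lf 10)) (.lf 17)) (.lf 18))), 0, [15, 24, 24, 24, 16, 16, 16, 16], [15, 24, 24, 24, 16, 16, 16, 16]⟩))
    (.nd (.lf ⟨[.negSucc 4919039, .ofNat 12555840, .negSucc 12080639, .ofNat 4514880, .negSucc 731519], (.tr (.lf 5) (.tr (.lf 17) (.lf 18) (.tr (.dx 0 .on) (.lf 9) (.tr (.lf 6) (.lf 13) (.lf 14)))) (.lf 10)), 0, [16, 16, 13, 13, 29, 29, 24, 24], [16, 16, 13, 13, 29, 29, 24, 24]⟩)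
    (.lf ⟨[.negSucc 5207039, .ofNat 14444160, .negSucc 14135999, .ofNat 5287680, .negSucc 853439], (.tr (.lf 5) (.tw (.lf 17) (.tr (.dx 0 .on) (.lf 9) (.tr (.tw (.lf 13) (.lf 14)) (.lf 6) (.lf 18)))) (.lf 10)), 0, [29, 29, 7, 7, 13, 13, 13, 13, 29, 29, 32, 32, 24, 24, 16, 16], [29, 29, 7, 7, 13, 13, 13, 13, 29, 29, 29, 29, 24, 24, 16, 16]⟩)))
    (.nd (.nd (.lf ⟨[.ofNat 0, .negSucc 9354239, .ofNat 9672960, .negSucc 3755519, .ofNat 487680], (.tr (.lf 5) (.tw (.lf 9) (.tr (.lf 19) (.lf 13) (.tr (.dx 0 .on) (.lf 6) (.lf 10)))) (.lf 14)), 0, [37, 23, 5, 5, 37, 37, 32, 8], [37, 8, 5, 5, 37, 37, 32, 8]⟩)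
    (.lf ⟨[.ofNat 0, .ofNat 7557120, .negSucc 9158399, .ofNat 3048960, .negSucc 487679], (.tw (.lf 13) (.tr (.lf 9) (.tr (.lf 17) (.dx 0 (.lf 5)) (.tr (.lf 10) (.lf 6) (.lf 14))) (.lf 18))), 0, [39, 36, 3, 3, 4, 35, 29, 4], [39, 36, 3, 3, 4, 35, 4, 4]⟩))
    (.nd (.lf ⟨[.ofNat 0, .ofNat 12418560, .negSucc 24597119, .ofNat 21544320, .negSucc 7727999, .ofNat 1219200], (.tw (.lf 9) (.tr (.lf 5) (.tr (.lf 6) (.dx 0 .on) (.tr (.lf 10) (.lf 19) (.lf 13))) (.lf 14))), 0, [5, 34, 34, 34, 25, 9, 33, 33], [5, 34, 34, 34, 6, 9, 33, 33]⟩)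
    (.lf ⟨[.ofNat 0, .negSucc 4838399, .ofNat 18424320, .negSucc 19297919, .ofNat 7484160, .negSucc 1219199], (.tw (.lf 9) (.tr (.lf 5) (.tr (.lf 13) (.lf 19) (.tr (.lf 6) (.dx 0 .on) (.lf 10))) (.lf 14))), 0, [37, 34, 5, 5, 6, 33, 25, 6], [37, 34, 5, 5, 6, 33, 6, 6]⟩))))

/-- data -/
def dV13 : RT := (.nd (.nd (.nd (.nd dV13x0 (.nd dV13x1 dV13x2)) (.nd dV13x3 (.nd dV13x4 dV13x5))) (.nd (.nd dV13x6 (.nd dV13x7 dV13x8)) (.nd dV13x9 (.nd dV13x10 dV13x11)))) (.nd (.nd (.nd dV13x12 (.nd dV13x13 dV13x14)) (.nd dV13x15 (.nd dV13x16 dV13x17))) (.nd (.nd dV13x18 (.nd dV13x19 dV13x20)) (.nd (.nd dV13x21 dV13x22) (.nd dV13x23 dV13x24)))))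

/-- data -/
def lV13x0 : List (ℕ × List ℤ) := [(5349, [.ofNat 0, .ofNat 0, .negSucc 9239039, .ofNat 13981440, .negSucc 2396159, .ofNat 1950720]),
  (5356, [.ofNat 0, .ofNat 0, .ofNat 71585280, .negSucc 83189759, .ofNat 30328320, .negSucc 4389119]),
  (5405, [.ofNat 0, .ofNat 0, .ofNat 23224320, .negSucc 28078079, .ofNat 13102080, .negSucc 1950719]),
  (5468, [.ofNat 0, .ofNat 0, .negSucc 25804799, .ofNat 33319680, .negSucc 14307839, .ofNat 2438400]),
  (38124, [.ofNat 0, .ofNat 0, .ofNat 12556800, .negSucc 14657279, .ofNat 6243840, .negSucc 975359]),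
  (38173, [.ofNat 0, .ofNat 0, .ofNat 22890240, .negSucc 23674559, .ofNat 7906560, .negSucc 527039, .negSucc 243839]),
  (38187, [.ofNat 0, .negSucc 52070399, .ofNat 151463040, .negSucc 149582879, .ofNat 53404800, .negSucc 7130399, .negSucc 365759]),
  (38243, [.ofNat 0, .ofNat 0, .ofNat 20897280, .negSucc 29944319, .ofNat 17591040, .negSucc 4554239, .ofNat 487680]),
  (41701, [.ofNat 0, .ofNat 0, .negSucc 10051199, .ofNat 24710880, .negSucc 24044159, .ofNat 8805600, .negSucc 1341119]),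
  (41708, [.ofNat 0, .ofNat 0, .negSucc 30718079, .ofNat 71950560, .negSucc 66610559, .ofNat 24261600, .negSucc 3779519]),
  (41757, [.ofNat 0, .ofNat 0, .negSucc 43274879, .ofNat 86607840, .negSucc 72854399, .ofNat 25236960, .negSucc 3779519]),
  (41771, [.ofNat 0, .ofNat 0, .negSucc 10051199, .ofNat 24710880, .negSucc 24044159, .ofNat 8805600, .negSucc 1341119]),
  (41820, [.ofNat 0, .ofNat 0, .negSucc 6819839, .ofNat 7334400, .negSucc 3962879, .ofNat 487680]),
  (41827, [.ofNat 0, .ofNat 0, .ofNat 14077440, .negSucc 22609919, .ofNat 13628160, .negSucc 4066559, .ofNat 487680]),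
  (42213, [.ofNat 0, .ofNat 0, .negSucc 23736959, .negSucc 4256159, .ofNat 31167360, .negSucc 15845279, .ofNat 3048000]),
  (42220, [.ofNat 0, .ofNat 0, .negSucc 11779199, .ofNat 30357600, .negSucc 24132479, .ofNat 9049440, .negSucc 1341119]),
  (42269, [.ofNat 0, .negSucc 104140799, .ofNat 297292800, .negSucc 259443839, .ofNat 59577600, .ofNat 4490880, .negSucc 3901439]),
  (42283, [.ofNat 0, .ofNat 0, .negSucc 19958399, .ofNat 51352800, .negSucc 47126399, .ofNat 17591520, .negSucc 2804159]),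
  (42332, [.ofNat 0, .ofNat 0, .ofNat 35464320, .negSucc 12687839, .negSucc 17174399, .ofNat 11534880, .negSucc 2560319]),
  (42597, [.ofNat 0, .ofNat 0, .ofNat 16162560, .negSucc 10537919, .negSucc 883199, .ofNat 2564160, .negSucc 731519]),
  (42604, [.ofNat 0, .ofNat 0, .ofNat 22106880, .negSucc 23551679, .ofNat 7845120, .negSucc 527039, .negSucc 243839]),
  (42661, [.ofNat 0, .ofNat 0, .negSucc 23736959, .negSucc 4256159, .ofNat 31167360, .negSucc 15845279, .ofNat 3048000]),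
  (42668, [.ofNat 0, .ofNat 0, .ofNat 15356160, .negSucc 82783679, .ofNat 98200320, .negSucc 38927039, .ofNat 6583680]),
  (42732, [.ofNat 0, .negSucc 52070399, .ofNat 215894400, .negSucc 210455519, .ofNat 72835200, .negSucc 7979999, .negSucc 1097279]),
  (42765, [.ofNat 0, .ofNat 0, .negSucc 33788159, .ofNat 20454720, .ofNat 7123200, .negSucc 7039679, .ofNat 1706880]),
  (42773, [.ofNat 0, .ofNat 0, .ofNat 200309760, .negSucc 521784959, .ofNat 507348480, .negSucc 186856319, .ofNat 29748480]),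
  (42781, [.ofNat 0, .ofNat 0, .ofNat 44398080, .negSucc 124101119, .ofNat 123813120, .negSucc 45880319, .ofNat 7315200]),
  (42794, [.ofNat 0, .ofNat 0, .negSucc 3916799, .ofNat 6633600, .negSucc 4097279, .ofNat 731520]),
  (42795, [.ofNat 0, .ofNat 0, .ofNat 31968000, .negSucc 32859839, .ofNat 12138240, .negSucc 1014719, .negSucc 243839]),
  (42828, [.ofNat 0, .ofNat 0, .negSucc 11030399, .ofNat 49351200, .negSucc 54898559, .ofNat 21618720, .negSucc 3535679]),
  (42844, [.ofNat 0, .ofNat 0, .ofNat 61626240, .negSucc 216043679, .ofNat 231868800, .negSucc 89546399, .ofNat 14752320]),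
  (42850, [.ofNat 0, .ofNat 0, .negSucc 33045119, .ofNat 65549280, .negSucc 54314879, .ofNat 18566880, .negSucc 2804159]),
  (43115, [.ofNat 0, .ofNat 0, .ofNat 14929920, .ofNat 13599360, .negSucc 28607999, .ofNat 13749120, .negSucc 2438399]),
  (43165, [.ofNat 0, .ofNat 0, .ofNat 65508480, .negSucc 241384799, .ofNat 262588800, .negSucc 102115679, .ofNat 16946880]),
  (43213, [.ofNat 0, .ofNat 0, .negSucc 40659839, .ofNat 86768160, .negSucc 74885759, .ofNat 26660640, .negSucc 4023359]),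
  (43221, [.ofNat 0, .ofNat 0, .ofNat 154978560, .negSucc 458884799, .ofNat 470810880, .negSucc 178196159, .ofNat 29016960]),
  (43244, [.ofNat 0, .ofNat 0, .ofNat 15857280, .ofNat 5029920, .negSucc 22300799, .ofNat 10882080, .negSucc 2072639]),
  (43339, [.ofNat 0, .ofNat 0, .negSucc 67703039, .ofNat 141378240, .negSucc 122952959, .ofNat 43316160, .negSucc 6583679]),
  (43347, [.ofNat 0, .ofNat 0, .ofNat 31213440, .negSucc 77753759, .ofNat 75899520, .negSucc 28044959, .ofNat 4511040]),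
  (43356, [.ofNat 0, .ofNat 0, .ofNat 5483520, .negSucc 6739199, .ofNat 3164160, .negSucc 487679]),
  (43795, [.ofNat 0, .ofNat 0, .negSucc 18253439, .negSucc 10995359, .ofNat 34331520, .negSucc 16332959, .ofNat 3048000]),
  (43868, [.ofNat 0, .ofNat 0, .negSucc 16387199, .ofNat 23927520, .negSucc 12416639, .ofNat 3598560, .negSucc 365759]),
  (304876, [.ofNat 0, .ofNat 0, .negSucc 921599, .negSucc 12330239, .ofNat 19311360, .negSucc 8298239, .ofNat 1463040]),
  (304917, [.ofNat 0, .negSucc 120309119, .ofNat 307378080, .negSucc 292062719, .ofNat 109230240, .negSucc 17434559]),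
  (304925, [.ofNat 0, .negSucc 351359, .ofNat 22836960, .negSucc 29464319, .ofNat 12349920, .negSucc 2072639]),
  (304933, [.ofNat 0, .ofNat 0, .ofNat 20828160, .negSucc 57776639, .ofNat 56544000, .negSucc 21150719, .ofNat 3413760]),
  (304939, [.ofNat 0, .negSucc 120309119, .ofNat 307378080, .negSucc 292062719, .ofNat 109230240, .negSucc 17434559]),
  (304940, [.ofNat 0, .ofNat 0, .ofNat 783360, .negSucc 645119]),
  (304980, [.ofNat 0, .negSucc 5512319, .negSucc 12740639, .ofNat 20714880, .negSucc 9000479, .ofNat 1584960]),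
  (305501, [.ofNat 0, .ofNat 0, .ofNat 0, .negSucc 10713599, .ofNat 13370880, .negSucc 5767679, .ofNat 975360]),
  (305507, [.ofNat 0, .negSucc 67651199, .ofNat 196890720, .negSucc 197955839, .ofNat 75873120, .negSucc 12313919]),
  (305515, [.ofNat 0, .ofNat 114796800, .negSucc 320118719, .ofNat 312777600, .negSucc 118230719, .ofNat 19019520]),
  (305893, [.ofNat 0, .negSucc 120309119, .ofNat 307378080, .negSucc 292062719, .ofNat 109230240, .negSucc 17434559]),
  (305900, [.ofNat 0, .negSucc 351359, .ofNat 22836960, .negSucc 29464319, .ofNat 12349920, .negSucc 2072639]),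
  (305949, [.ofNat 0, .ofNat 0, .ofNat 0, .negSucc 5356799, .ofNat 6685440, .negSucc 2883839, .ofNat 487680]),
  (305963, [.ofNat 0, .ofNat 85230720, .negSucc 234417119, .ofNat 238176000, .negSucc 89944799, .ofNat 14752320]),
  (333605, [.ofNat 0, .ofNat 6128640, .ofNat 15943680, .negSucc 27902399, .ofNat 31269120, .negSucc 12177599, .ofNat 2194560]),
  (333676, [.ofNat 0, .negSucc 43528319, .ofNat 97647840, .negSucc 92421119, .ofNat 34222560, .negSucc 5486399]),
  (334045, [.ofNat 0, .negSucc 43528319, .ofNat 97647840, .negSucc 92421119, .ofNat 34222560, .negSucc 5486399]),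
  (334059, [.ofNat 0, .ofNat 0, .ofNat 0, .negSucc 5356799, .ofNat 6685440, .negSucc 2883839, .ofNat 487680]),
  (334060, [.ofNat 0, .ofNat 0, .negSucc 783359, .ofNat 645120]),
  (334492, [.ofNat 0, .ofNat 14981760, .negSucc 53558879, .ofNat 41314560, .ofNat 5471520, .negSucc 9696959, .ofNat 2682240]),
  (334548, [.ofNat 0, .ofNat 0, .ofNat 0, .ofNat 5356800, .negSucc 6685439, .ofNat 2883840, .negSucc 487679]),
  (334611, [.ofNat 0, .ofNat 0, .negSucc 138239, .negSucc 437759, .ofNat 161280]),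
  (336669, [.ofNat 0, .ofNat 0, .ofNat 21312000, .negSucc 113141759, .ofNat 135868800, .negSucc 55975679, .ofNat 9509760]),
  (336683, [.ofNat 0, .ofNat 0, .negSucc 1359359, .negSucc 4160639, .ofNat 6627840, .negSucc 2847359, .ofNat 487680]),
  (337637, [.ofNat 0, .ofNat 23293440, .negSucc 55649279, .ofNat 56389920, .negSucc 34938239, .ofNat 9902880, .negSucc 1341119]),
  (337677, [.ofNat 0, .ofNat 0, .ofNat 1042560, .ofNat 11523360, .negSucc 17882879, .ofNat 7464480, .negSucc 1341119]),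
  (337693, [.ofNat 0, .ofNat 91503360, .negSucc 226343999, .ofNat 205750080, .negSucc 55826879, .ofNat 1890240, .ofNat 1950720]),
  (337701, [.ofNat 0, .negSucc 20828159, .ofNat 57776640, .negSucc 56543999, .ofNat 21150720, .negSucc 3413759]),
  (337740, [.ofNat 0, .ofNat 91503360, .negSucc 263288639, .ofNat 268348800, .negSucc 101336639, .ofNat 16581120]),
  (337756, [.ofNat 0, .ofNat 0, .ofNat 1042560, .ofNat 11523360, .negSucc 17882879, .ofNat 7464480, .negSucc 1341119]),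
  (337772, [.ofNat 0, .negSucc 3248639, .ofNat 20250240, .negSucc 16323839, .ofNat 7079040, .negSucc 975359]),
  (338013, [.ofNat 0, .ofNat 0, .negSucc 921599, .negSucc 12330239, .ofNat 19311360, .negSucc 8298239, .ofNat 1463040]),
  (338027, [.ofNat 0, .negSucc 43528319, .ofNat 97647840, .negSucc 92421119, .ofNat 34222560, .negSucc 5486399]),
  (338219, [.ofNat 0, .negSucc 37175039, .ofNat 129138240, .negSucc 147379199, .ofNat 56577600, .negSucc 9509759]),
  (338251, [.ofNat 0, .ofNat 118702080, .negSucc 319703039, .ofNat 309628800, .negSucc 116555519, .ofNat 18775680]),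
  (338524, [.ofNat 0, .negSucc 12458879, .ofNat 80443680, .negSucc 107167679, .ofNat 66324000, .negSucc 19816319, .ofNat 2682240]),
  (338531, [.ofNat 0, .negSucc 43528319, .ofNat 97647840, .negSucc 92421119, .ofNat 34222560, .negSucc 5486399]),
  (338652, [.ofNat 0, .ofNat 0, .negSucc 921599, .negSucc 12330239, .ofNat 19311360, .negSucc 8298239, .ofNat 1463040]),
  (338661, [.ofNat 0, .ofNat 0, .ofNat 0, .ofNat 5356800, .negSucc 6685439, .ofNat 2883840, .negSucc 487679]),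
  (338699, [.ofNat 0, .ofNat 0, .negSucc 1359359, .negSucc 4160639, .ofNat 6627840, .negSucc 2847359, .ofNat 487680]),
  (338717, [.ofNat 0, .negSucc 114796799, .ofNat 339126720, .negSucc 369340799, .ofNat 174559680, .negSucc 40170239, .ofNat 3413760]),
  (340645, [.ofNat 0, .ofNat 0, .ofNat 1359360, .negSucc 1466879, .ofNat 215040]),
  (340778, [.ofNat 0, .ofNat 0, .negSucc 1359359, .negSucc 4160639, .ofNat 6627840, .negSucc 2847359, .ofNat 487680]),
  (340820, [.ofNat 0, .ofNat 0, .ofNat 35124480, .negSucc 61385279, .ofNat 45294720, .negSucc 14690879, .ofNat 1950720]),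
  (340834, [.ofNat 0, .ofNat 118702080, .negSucc 319703039, .ofNat 304272000, .negSucc 109870079, .ofNat 15891840, .ofNat 487680]),
  (341291, [.ofNat 0, .ofNat 0, .negSucc 3732479, .ofNat 4264320, .negSucc 986879, .ofNat 243840]),
  (341605, [.ofNat 0, .ofNat 0, .ofNat 0, .ofNat 5356800, .negSucc 6685439, .ofNat 2883840, .negSucc 487679]),
  (341773, [.ofNat 0, .negSucc 20828159, .ofNat 57776640, .negSucc 51187199, .ofNat 14465280, .negSucc 529919, .negSucc 487679]),
  (341781, [.ofNat 0, .ofNat 114445440, .negSucc 260337119, .ofNat 220714560, .negSucc 60371039, .ofNat 2256000, .ofNat 1950720]),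
  (341844, [.ofNat 0, .negSucc 351359, .ofNat 21915360, .negSucc 41794559, .ofNat 31661280, .negSucc 10370879, .ofNat 1463040]),
  (342117, [.ofNat 0, .ofNat 0, .negSucc 5253119, .ofNat 6222720, .negSucc 1470719, .ofNat 243840]),
  (342157, [.ofNat 0, .negSucc 118702079, .ofNat 321062400, .negSucc 311095679, .ofNat 116770560, .negSucc 18775679]),
  (342285, [.ofNat 0, .ofNat 0, .ofNat 20828160, .negSucc 57776639, .ofNat 56544000, .negSucc 21150719, .ofNat 3413760]),
  (342314, [.ofNat 0, .negSucc 88479359, .ofNat 254667360, .negSucc 254499839, .ofNat 97023840, .negSucc 15727679]),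
  (342347, [.ofNat 0, .ofNat 0, .ofNat 783360, .negSucc 645119]),
  (342626, [.ofNat 0, .ofNat 0, .ofNat 0, .negSucc 5356799, .ofNat 6685440, .negSucc 2883839, .ofNat 487680]),
  (342794, [.ofNat 0, .ofNat 0, .negSucc 1359359, .negSucc 4160639, .ofNat 6627840, .negSucc 2847359, .ofNat 487680]),
  (342826, [.ofNat 0, .negSucc 4924799, .ofNat 61026720, .negSucc 70415999, .ofNat 27826080, .negSucc 4511039])]

/-- data -/
def lV13x1 : List (ℕ × List ℤ) := [(344733, [.ofNat 0, .ofNat 0, .ofNat 21312000, .negSucc 113141759, .ofNat 135868800, .negSucc 55975679, .ofNat 9509760]),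
  (344789, [.ofNat 0, .negSucc 4924799, .ofNat 61026720, .negSucc 70415999, .ofNat 27826080, .negSucc 4511039]),
  (344861, [.ofNat 0, .ofNat 8853120, .negSucc 69502559, .ofNat 74573760, .negSucc 32483039, .ofNat 5364480]),
  (345293, [.ofNat 0, .negSucc 4924799, .ofNat 61026720, .negSucc 70415999, .ofNat 27826080, .negSucc 4511039]),
  (345324, [.ofNat 0, .ofNat 0, .negSucc 5253119, .ofNat 6222720, .negSucc 1470719, .ofNat 243840]),
  (345387, [.ofNat 0, .ofNat 0, .ofNat 138240, .ofNat 437760, .negSucc 161279]),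
  (345436, [.ofNat 0, .ofNat 0, .negSucc 3732479, .ofNat 4264320, .negSucc 986879, .ofNat 243840]),
  (345701, [.ofNat 0, .ofNat 6128640, .ofNat 15943680, .negSucc 33259199, .ofNat 37954560, .negSucc 15061439, .ofNat 2682240]),
  (345707, [.ofNat 0, .ofNat 0, .negSucc 783359, .ofNat 645120]),
  (345757, [.ofNat 0, .ofNat 0, .ofNat 35124480, .negSucc 61385279, .ofNat 45294720, .negSucc 14690879, .ofNat 1950720]),
  (345813, [.ofNat 0, .ofNat 108524160, .negSucc 290204639, .ofNat 294128160, .negSucc 124721759, .ofNat 24655200, .negSucc 1341119]),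
  (345954, [.ofNat 0, .ofNat 0, .ofNat 1359360, .negSucc 1466879, .ofNat 215040]),
  (346317, [.ofNat 0, .ofNat 85230720, .negSucc 234417119, .ofNat 238176000, .negSucc 89944799, .ofNat 14752320]),
  (346451, [.ofNat 0, .negSucc 67651199, .ofNat 196890720, .negSucc 197955839, .ofNat 75873120, .negSucc 12313919]),
  (346826, [.ofNat 0, .ofNat 0, .ofNat 21312000, .negSucc 113141759, .ofNat 135868800, .negSucc 55975679, .ofNat 9509760]),
  (346837, [.ofNat 0, .negSucc 4924799, .ofNat 61026720, .negSucc 65059199, .ofNat 21140640, .negSucc 1627199, .negSucc 487679]),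
  (348835, [.ofNat 0, .negSucc 118702079, .ofNat 321062400, .negSucc 311095679, .ofNat 116770560, .negSucc 18775679]),
  (349836, [.ofNat 0, .ofNat 0, .ofNat 40320000, .negSucc 169704959, .ofNat 192197760, .negSucc 77126399, .ofNat 12923520]),
  (350483, [.ofNat 0, .negSucc 18587519, .ofNat 64500000, .negSucc 73908479, .ofNat 28369440, .negSucc 4754879]),
  (2434916, [.ofNat 0, .negSucc 8098559, .ofNat 37761600, .negSucc 39073919, .ofNat 15696960, .negSucc 2438399]),
  (2434924, [.ofNat 0, .ofNat 7240320, .negSucc 23620319, .ofNat 24802560, .negSucc 9619679, .ofNat 1584960]),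
  (2435293, [.ofNat 0, .negSucc 5207039, .ofNat 39690240, .negSucc 46410239, .ofNat 18063360, .negSucc 2926079]),
  (2435309, [.ofNat 0, .negSucc 9630719, .ofNat 49497600, .negSucc 49843199, .ofNat 19361280, .negSucc 2926079]),
  (2435813, [.ofNat 0, .negSucc 25459199, .ofNat 81582720, .negSucc 84403199, .ofNat 32622720, .negSucc 5364479]),
  (2435932, [.ofNat 0, .negSucc 8098559, .ofNat 37761600, .negSucc 39073919, .ofNat 15696960, .negSucc 2438399]),
  (2438933, [.ofNat 0, .negSucc 23316479, .ofNat 95639040, .negSucc 102823679, .ofNat 39467520, .negSucc 6339839]),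
  (2438949, [.ofNat 0, .negSucc 39363839, .ofNat 166104000, .negSucc 175587839, .ofNat 67723200, .negSucc 10972799]),
  (2438956, [.ofNat 0, .negSucc 22970879, .ofNat 90940800, .negSucc 145380479, .ofNat 110177280, .negSucc 37499519, .ofNat 5608320]),
  (2439467, [.ofNat 0, .negSucc 9377279, .ofNat 40487040, .negSucc 42896639, .ofNat 17900160, .negSucc 2926079]),
  (2439517, [.ofNat 0, .ofNat 0, .ofNat 24145920, .negSucc 23001599, .ofNat 8002560, .negSucc 975359]),
  (2439532, [.ofNat 0, .negSucc 76959359, .ofNat 226654560, .negSucc 233341439, .ofNat 89593440, .negSucc 14752319]),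
  (2439845, [.ofNat 0, .negSucc 76959359, .ofNat 226654560, .negSucc 233341439, .ofNat 89593440, .negSucc 14752319]),
  (2439971, [.ofNat 0, .negSucc 90426239, .ofNat 236359200, .negSucc 226199039, .ofNat 84828960, .negSucc 13533119]),
  (2440020, [.ofNat 0, .negSucc 11594879, .ofNat 31357920, .negSucc 29546879, .ofNat 11651040, .negSucc 1828799]),
  (2440035, [.ofNat 0, .ofNat 2142720, .negSucc 18971519, .ofNat 25824000, .negSucc 11406719, .ofNat 1950720]),
  (2442923, [.ofNat 0, .negSucc 18564479, .ofNat 58453920, .negSucc 58775039, .ofNat 23970720, .negSucc 3779519]),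
  (2442965, [.ofNat 0, .negSucc 3064319, .ofNat 3830400, .negSucc 1777919, .ofNat 243840]),
  (2443051, [.ofNat 0, .ofNat 0, .ofNat 11036160, .negSucc 10932479, .ofNat 3786240, .negSucc 487679]),
  (2443109, [.ofNat 0, .ofNat 0, .negSucc 15137279, .ofNat 15331200, .negSucc 5295359, .ofNat 731520]),
  (2443116, [.ofNat 0, .ofNat 0, .ofNat 1520640, .negSucc 2424959, .ofNat 1455360, .negSucc 243839]),
  (2443501, [.ofNat 0, .negSucc 73808639, .ofNat 172251840, .negSucc 158499839, .ofNat 57309120, .negSucc 9022079]),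
  (2443997, [.ofNat 0, .negSucc 76959359, .ofNat 238727520, .negSucc 244842239, .ofNat 93594720, .negSucc 15239999]),
  (2444003, [.ofNat 0, .ofNat 0, .negSucc 12072959, .ofNat 11500800, .negSucc 4001279, .ofNat 487680]),
  (2444005, [.ofNat 0, .ofNat 21467520, .negSucc 53557919, .ofNat 53909760, .negSucc 20280479, .ofNat 3291840]),
  (2444061, [.ofNat 0, .ofNat 0, .ofNat 6796800, .negSucc 8394239, .ofNat 2741760, .negSucc 487679]),
  (2447141, [.ofNat 0, .negSucc 6128639, .negSucc 7499519, .ofNat 8789760, .negSucc 4005119, .ofNat 487680]),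
  (2447203, [.ofNat 0, .ofNat 0, .ofNat 12072960, .negSucc 11500799, .ofNat 4001280, .negSucc 487679]),
  (2447581, [.ofNat 0, .ofNat 0, .ofNat 13593600, .negSucc 13925759, .ofNat 5456640, .negSucc 731519]),
  (2447645, [.ofNat 0, .negSucc 3064319, .ofNat 3830400, .negSucc 1777919, .ofNat 243840]),
  (2448084, [.ofNat 0, .negSucc 5028479, .ofNat 5332320, .negSucc 1242239, .negSucc 381599, .ofNat 121920]),
  (2448098, [.ofNat 0, .negSucc 6842879, .ofNat 56745600, .negSucc 120295679, .ofNat 101752320, .negSucc 36280319, .ofNat 5608320]),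
  (2664284, [.ofNat 0, .ofNat 0, .ofNat 3916800, .negSucc 4782719, .ofNat 618240, .negSucc 243839]),
  (2664669, [.ofNat 0, .ofNat 0, .ofNat 2764800, .negSucc 4181759, .ofNat 3440640, .negSucc 487679]),
  (2665244, [.ofNat 0, .ofNat 0, .ofNat 11036160, .negSucc 10932479, .ofNat 3786240, .negSucc 487679]),
  (2665259, [.ofNat 0, .ofNat 0, .negSucc 1566719, .ofNat 1956480, .negSucc 2545919, .ofNat 243840]),
  (2668197, [.ofNat 0, .negSucc 14486399, .ofNat 33899040, .negSucc 29086079, .ofNat 10655520, .negSucc 1584959]),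
  (2668386, [.ofNat 0, .negSucc 22970879, .ofNat 90940800, .negSucc 145380479, .ofNat 110177280, .negSucc 37499519, .ofNat 5608320]),
  (2668701, [.ofNat 0, .ofNat 0, .negSucc 207359, .ofNat 489600, .negSucc 2330879, .ofNat 243840]),
  (2668716, [.ofNat 0, .ofNat 0, .ofNat 12072960, .negSucc 11500799, .ofNat 4001280, .negSucc 487679]),
  (2668884, [.ofNat 0, .ofNat 0, .negSucc 12072959, .ofNat 11500800, .negSucc 4001279, .ofNat 487680]),
  (2668908, [.ofNat 0, .ofNat 0, .ofNat 9354240, .negSucc 9672959, .ofNat 3755520, .negSucc 487679]),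
  (2669219, [.ofNat 0, .ofNat 0, .negSucc 1359359, .ofNat 1466880, .negSucc 215039]),
  (2669341, [.ofNat 0, .ofNat 0, .ofNat 6635520, .negSucc 7845119, .ofNat 3509760, .negSucc 487679]),
  (2671837, [.ofNat 0, .negSucc 20822399, .ofNat 65569440, .negSucc 62851199, .ofNat 22849440, .negSucc 3535679]),
  (2671979, [.ofNat 0, .ofNat 0, .ofNat 4953600, .ofNat 33143040, .negSucc 48332159, .ofNat 20989440, .negSucc 3657599]),
  (2672467, [.ofNat 0, .ofNat 0, .ofNat 10874880, .negSucc 12097919, .ofNat 5210880, .negSucc 731519]),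
  (2672474, [.ofNat 0, .ofNat 0, .ofNat 1474560, .negSucc 852479]),
  (2673365, [.ofNat 0, .ofNat 0, .negSucc 15137279, .ofNat 15331200, .negSucc 5295359, .ofNat 731520]),
  (2673373, [.ofNat 0, .ofNat 0, .ofNat 9354240, .negSucc 9672959, .ofNat 3755520, .negSucc 487679]),
  (2673498, [.ofNat 0, .ofNat 0, .ofNat 2764800, .negSucc 4181759, .ofNat 3440640, .negSucc 487679]),
  (2675948, [.ofNat 0, .ofNat 0, .negSucc 3064319, .ofNat 3830400, .negSucc 1294079, .ofNat 243840]),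
  (2676011, [.ofNat 0, .ofNat 0, .ofNat 1221120, .negSucc 1082879, .ofNat 161280]),
  (2676396, [.ofNat 0, .ofNat 0, .ofNat 3916800, .negSucc 4782719, .ofNat 618240, .negSucc 243839]),
  (2676450, [.ofNat 0, .ofNat 0, .ofNat 12072960, .negSucc 11500799, .ofNat 4001280, .negSucc 487679]),
  (2676499, [.ofNat 0, .ofNat 0, .negSucc 1198079, .negSucc 597119, .ofNat 1209600, .negSucc 243839]),
  (2676572, [.ofNat 0, .ofNat 0, .negSucc 1359359, .ofNat 1466880, .negSucc 215039]),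
  (2676972, [.ofNat 0, .ofNat 0, .ofNat 18708480, .negSucc 19345919, .ofNat 7511040, .negSucc 975359]),
  (2677411, [.ofNat 0, .ofNat 0, .ofNat 4953600, .ofNat 33143040, .negSucc 48332159, .ofNat 20989440, .negSucc 3657599]),
  (2677460, [.ofNat 0, .ofNat 0, .negSucc 3064319, .ofNat 3830400, .negSucc 1294079, .ofNat 243840]),
  (2677523, [.ofNat 0, .negSucc 37238399, .ofNat 90315360, .negSucc 93041279, .ofNat 37726560, .negSucc 6217919]),
  (2692837, [.ofNat 0, .ofNat 37238400, .negSucc 104669279, .ofNat 110294400, .negSucc 43056479, .ofNat 7193280]),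
  (2693419, [.ofNat 0, .ofNat 3271680, .negSucc 27839999, .ofNat 31987200, .negSucc 11950079, .ofNat 1950720]),
  (2700075, [.ofNat 0, .negSucc 39977279, .ofNat 105919920, .negSucc 103333439, .ofNat 38431920, .negSucc 6278879]),
  (2701419, [.ofNat 0, .ofNat 0, .ofNat 9354240, .negSucc 9672959, .ofNat 3755520, .negSucc 487679]),
  (2701541, [.ofNat 0, .negSucc 37238399, .ofNat 93379680, .negSucc 96871679, .ofNat 39020640, .negSucc 6461759]),
  (2701611, [.ofNat 0, .ofNat 0, .negSucc 6128639, .ofNat 7660800, .negSucc 2588159, .ofNat 487680]),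
  (2701643, [.ofNat 0, .negSucc 76959359, .ofNat 226654560, .negSucc 233341439, .ofNat 89593440, .negSucc 14752319]),
  (2701923, [.ofNat 0, .ofNat 0, .ofNat 9354240, .negSucc 9672959, .ofNat 3755520, .negSucc 487679]),
  (2701932, [.ofNat 0, .negSucc 37238399, .ofNat 101651040, .negSucc 106118399, .ofNat 41762400, .negSucc 6949439]),
  (2702060, [.ofNat 0, .ofNat 0, .negSucc 1359359, .ofNat 1466880, .negSucc 215039]),
  (2702091, [.ofNat 0, .negSucc 76959359, .ofNat 238727520, .negSucc 244842239, .ofNat 93594720, .negSucc 15239999]),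
  (2702093, [.ofNat 0, .ofNat 0, .negSucc 15137279, .ofNat 15331200, .negSucc 5295359, .ofNat 731520]),
  (2702179, [.ofNat 0, .ofNat 22464000, .negSucc 65865599, .ofNat 58849920, .negSucc 20618879, .ofNat 3169920]),
  (2704227, [.ofNat 0, .negSucc 17187839, .ofNat 72864000, .negSucc 80951039, .ofNat 32881920, .negSucc 5364479]),
  (2705101, [.ofNat 0, .ofNat 37238400, .negSucc 104669279, .ofNat 110294400, .negSucc 43056479, .ofNat 7193280]),
  (2705227, [.ofNat 0, .ofNat 0, .negSucc 10552319, .ofNat 9075840, .negSucc 2545919, .ofNat 243840]),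
  (2705251, [.ofNat 0, .ofNat 7413120, .negSucc 54099359, .ofNat 61749120, .negSucc 24623519, .ofNat 4023360]),
  (2706019, [.ofNat 0, .negSucc 20822399, .ofNat 65569440, .negSucc 62851199, .ofNat 22849440, .negSucc 3535679]),
  (2706125, [.ofNat 0, .negSucc 70744319, .ofNat 153307200, .negSucc 138405119, .ofNat 50967360, .negSucc 8046719]),
  (2706251, [.ofNat 0, .ofNat 28707840, .negSucc 77178239, .ofNat 78712320, .negSucc 29900159, .ofNat 4876800])]

/-- data -/
def lV13x2 : List (ℕ × List ℤ) := [(2708267, [.ofNat 0, .ofNat 7413120, .negSucc 54099359, .ofNat 61749120, .negSucc 24623519, .ofNat 4023360]),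
  (2708323, [.ofNat 0, .ofNat 0, .negSucc 11289599, .ofNat 13422720, .negSucc 4035839, .ofNat 731520]),
  (2709100, [.ofNat 0, .ofNat 0, .ofNat 4953600, .ofNat 33143040, .negSucc 48332159, .ofNat 20989440, .negSucc 3657599]),
  (2709221, [.ofNat 0, .ofNat 2142720, .negSucc 26874239, .ofNat 33976320, .negSucc 14309759, .ofNat 2438400]),
  (2709259, [.ofNat 0, .ofNat 0, .ofNat 13593600, .negSucc 13925759, .ofNat 5456640, .negSucc 731519]),
  (2709291, [.ofNat 0, .negSucc 17187839, .ofNat 72864000, .negSucc 80951039, .ofNat 32881920, .negSucc 5364479]),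
  (2709708, [.ofNat 0, .ofNat 0, .negSucc 12072959, .ofNat 11500800, .negSucc 4001279, .ofNat 487680]),
  (2709771, [.ofNat 0, .negSucc 3064319, .ofNat 3830400, .negSucc 1777919, .ofNat 243840]),
  (2726060, [.ofNat 0, .ofNat 0, .ofNat 12072960, .negSucc 11500799, .ofNat 4001280, .negSucc 487679]),
  (2726117, [.ofNat 0, .ofNat 0, .ofNat 2833920, .negSucc 1391039, .negSucc 716159, .ofNat 121920]),
  (2726122, [.ofNat 0, .ofNat 0, .ofNat 1221120, .negSucc 1082879, .ofNat 161280]),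
  (2726173, [.ofNat 0, .ofNat 3496320, .negSucc 5669279, .ofNat 1973760, .ofNat 44640, .negSucc 121919]),
  (2726186, [.ofNat 0, .negSucc 80023679, .ofNat 230484960, .negSucc 235119359, .ofNat 89837280, .negSucc 14752319]),
  (2726626, [.ofNat 0, .ofNat 0, .negSucc 3064319, .ofNat 3830400, .negSucc 1294079, .ofNat 243840]),
  (2726748, [.ofNat 0, .negSucc 18564479, .ofNat 58453920, .negSucc 58775039, .ofNat 23970720, .negSucc 3779519]),
  (2726754, [.ofNat 0, .ofNat 2903040, .ofNat 4896000, .negSucc 4865279, .ofNat 3690240, .negSucc 487679]),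
  (2730269, [.ofNat 0, .ofNat 0, .negSucc 11289599, .ofNat 13422720, .negSucc 4035839, .ofNat 731520]),
  (2732842, [.ofNat 0, .negSucc 13052159, .ofNat 71194560, .negSucc 79489919, .ofNat 32971200, .negSucc 5364479]),
  (2732898, [.ofNat 0, .ofNat 0, .negSucc 12072959, .ofNat 11500800, .negSucc 4001279, .ofNat 487680]),
  (2734186, [.ofNat 0, .ofNat 0, .negSucc 3064319, .ofNat 3830400, .negSucc 1294079, .ofNat 243840]),
  (2734252, [.ofNat 0, .negSucc 76959359, .ofNat 226654560, .negSucc 233341439, .ofNat 89593440, .negSucc 14752319]),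
  (2734349, [.ofNat 0, .negSucc 20828159, .ofNat 52419840, .negSucc 49858559, .ofNat 18266880, .negSucc 2926079]),
  (2734412, [.ofNat 0, .negSucc 22106879, .ofNat 55145280, .negSucc 53681279, .ofNat 20470080, .negSucc 3413759]),
  (2734690, [.ofNat 0, .ofNat 0, .negSucc 3064319, .ofNat 3830400, .negSucc 1294079, .ofNat 243840]),
  (2734732, [.ofNat 0, .ofNat 2142720, .negSucc 20745599, .ofNat 26315520, .negSucc 11721599, .ofNat 1950720]),
  (2734858, [.ofNat 0, .negSucc 9630719, .ofNat 49497600, .negSucc 49843199, .ofNat 19361280, .negSucc 2926079]),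
  (2734946, [.ofNat 0, .negSucc 14549759, .ofNat 31133760, .negSucc 31228799, .ofNat 11373120, .negSucc 1950719]),
  (2736869, [.ofNat 0, .ofNat 0, .ofNat 2442240, .negSucc 2165759, .ofNat 322560]),
  (2736874, [.ofNat 0, .ofNat 0, .ofNat 12072960, .negSucc 11500799, .ofNat 4001280, .negSucc 487679]),
  (2736979, [.ofNat 0, .ofNat 0, .ofNat 10874880, .negSucc 12097919, .ofNat 5210880, .negSucc 731519]),
  (2737451, [.ofNat 0, .ofNat 0, .negSucc 1451519, .ofNat 3522240, .negSucc 2171519, .ofNat 365760]),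
  (2737765, [.ofNat 0, .ofNat 0, .ofNat 2833920, .negSucc 1391039, .negSucc 716159, .ofNat 121920]),
  (2737836, [.ofNat 0, .ofNat 0, .ofNat 3916800, .negSucc 4782719, .ofNat 618240, .negSucc 243839]),
  (2737996, [.ofNat 0, .ofNat 0, .ofNat 23109120, .negSucc 22433279, .ofNat 7787520, .negSucc 975359]),
  (2738269, [.ofNat 0, .ofNat 0, .ofNat 4953600, .ofNat 33143040, .negSucc 48332159, .ofNat 20989440, .negSucc 3657599]),
  (2738507, [.ofNat 0, .negSucc 22970879, .ofNat 90940800, .negSucc 145380479, .ofNat 110177280, .negSucc 37499519, .ofNat 5608320]),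
  (2738515, [.ofNat 0, .negSucc 37238399, .ofNat 93379680, .negSucc 96871679, .ofNat 39020640, .negSucc 6461759]),
  (2738522, [.ofNat 0, .negSucc 17187839, .ofNat 72864000, .negSucc 80951039, .ofNat 32881920, .negSucc 5364479]),
  (2738786, [.ofNat 0, .ofNat 0, .ofNat 24145920, .negSucc 23001599, .ofNat 8002560, .negSucc 975359]),
  (2738860, [.ofNat 0, .ofNat 0, .negSucc 1359359, .ofNat 1466880, .negSucc 215039]),
  (2739020, [.ofNat 0, .negSucc 76959359, .ofNat 226654560, .negSucc 233341439, .ofNat 89593440, .negSucc 14752319]),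
  (2741011, [.ofNat 0, .ofNat 0, .ofNat 10874880, .negSucc 12097919, .ofNat 5210880, .negSucc 731519]),
  (2741925, [.ofNat 0, .ofNat 0, .negSucc 207359, .ofNat 489600, .negSucc 2330879, .ofNat 243840]),
  (2742114, [.ofNat 0, .ofNat 0, .negSucc 1359359, .ofNat 1466880, .negSucc 215039]),
  (2742364, [.ofNat 0, .ofNat 0, .ofNat 4285440, .negSucc 4913279, .ofNat 1455360, .negSucc 243839]),
  (2742371, [.ofNat 0, .ofNat 0, .ofNat 6796800, .negSucc 8394239, .ofNat 2741760, .negSucc 487679]),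
  (2742378, [.ofNat 0, .ofNat 0, .negSucc 12072959, .ofNat 11500800, .negSucc 4001279, .ofNat 487680]),
  (2742538, [.ofNat 0, .negSucc 3064319, .ofNat 3830400, .negSucc 1777919, .ofNat 243840]),
  (2742541, [.ofNat 0, .negSucc 12407039, .ofNat 10388160, .negSucc 4913279, .negSucc 348479]),
  (2742876, [.ofNat 0, .negSucc 14486399, .ofNat 33899040, .negSucc 29086079, .ofNat 10655520, .negSucc 1584959]),
  (2742924, [.ofNat 0, .ofNat 14653440, .negSucc 77719679, .ofNat 86551680, .negSucc 34243199, .ofNat 5608320]),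
  (2742947, [.ofNat 0, .negSucc 39977279, .ofNat 105919920, .negSucc 103333439, .ofNat 38431920, .negSucc 6278879]),
  (2743050, [.ofNat 0, .negSucc 70744319, .ofNat 153307200, .negSucc 138405119, .ofNat 50967360, .negSucc 8046719]),
  (2758429, [.ofNat 0, .ofNat 0, .negSucc 1451519, .ofNat 3522240, .negSucc 2171519, .ofNat 365760]),
  (2759514, [.ofNat 0, .ofNat 2142720, .negSucc 18971519, .ofNat 25824000, .negSucc 11406719, .ofNat 1950720]),
  (2762957, [.ofNat 0, .ofNat 0, .negSucc 1359359, .ofNat 1466880, .negSucc 215039]),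
  (2763363, [.ofNat 0, .ofNat 0, .negSucc 11289599, .ofNat 13422720, .negSucc 4035839, .ofNat 731520]),
  (2765597, [.ofNat 0, .ofNat 0, .negSucc 6128639, .ofNat 7660800, .negSucc 2588159, .ofNat 487680]),
  (2765931, [.ofNat 0, .ofNat 0, .ofNat 18708480, .negSucc 19345919, .ofNat 7511040, .negSucc 975359]),
  (2767061, [.ofNat 0, .ofNat 0, .ofNat 2350080, .negSucc 2826239, .negSucc 1927679]),
  (2767187, [.ofNat 0, .ofNat 0, .negSucc 11289599, .ofNat 13422720, .negSucc 4035839, .ofNat 731520]),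
  (2767450, [.ofNat 0, .ofNat 0, .negSucc 15137279, .ofNat 15331200, .negSucc 5295359, .ofNat 731520]),
  (2767517, [.ofNat 0, .ofNat 0, .ofNat 4285440, .negSucc 4913279, .ofNat 1455360, .negSucc 243839]),
  (2767573, [.ofNat 0, .ofNat 0, .ofNat 8271360, .negSucc 9246719, .ofNat 2741760, .negSucc 487679]),
  (2767691, [.ofNat 0, .negSucc 18564479, .ofNat 58453920, .negSucc 58775039, .ofNat 23970720, .negSucc 3779519]),
  (2767714, [.ofNat 0, .ofNat 21467520, .negSucc 53557919, .ofNat 53909760, .negSucc 20280479, .ofNat 3291840]),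
  (2769754, [.ofNat 0, .negSucc 23849279, .ofNat 71724720, .negSucc 78248639, .ofNat 30006960, .negSucc 5059679]),
  (2770763, [.ofNat 0, .ofNat 37238400, .negSucc 104669279, .ofNat 110294400, .negSucc 43056479, .ofNat 7193280]),
  (2771613, [.ofNat 0, .negSucc 12407039, .ofNat 10388160, .negSucc 4913279, .negSucc 348479]),
  (2773740, [.ofNat 0, .ofNat 0, .ofNat 6635520, .negSucc 7845119, .ofNat 3509760, .negSucc 487679]),
  (2773850, [.ofNat 0, .ofNat 0, .ofNat 1474560, .negSucc 852479]),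
  (2773852, [.ofNat 0, .ofNat 0, .ofNat 2764800, .negSucc 4181759, .ofNat 3440640, .negSucc 487679]),
  (2774730, [.ofNat 0, .negSucc 20828159, .ofNat 52419840, .negSucc 49858559, .ofNat 18266880, .negSucc 2926079]),
  (2791148, [.ofNat 0, .negSucc 23849279, .ofNat 71724720, .negSucc 78248639, .ofNat 30006960, .negSucc 5059679]),
  (2795109, [.ofNat 0, .ofNat 0, .ofNat 11036160, .negSucc 10932479, .ofNat 3786240, .negSucc 487679]),
  (2799914, [.ofNat 0, .negSucc 24324479, .ofNat 46016160, .negSucc 40331519, .ofNat 14220960, .negSucc 2316479]),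
  (2800403, [.ofNat 0, .ofNat 0, .ofNat 2764800, .negSucc 4181759, .ofNat 3440640, .negSucc 487679]),
  (2802389, [.ofNat 0, .ofNat 0, .negSucc 30274559, .ofNat 30662400, .negSucc 10590719, .ofNat 1463040]),
  (2803402, [.ofNat 0, .ofNat 37238400, .negSucc 104669279, .ofNat 110294400, .negSucc 43056479, .ofNat 7193280]),
  (2803436, [.ofNat 0, .ofNat 3496320, .ofNat 6403680, .negSucc 9527039, .ofNat 4045920, .negSucc 609599]),
  (19478316, [.ofNat 0, .ofNat 8478720, .negSucc 18744959, .ofNat 16571520, .negSucc 5124479, .ofNat 731520]),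
  (19478317, [.ofNat 0, .ofNat 7240320, .negSucc 23620319, .ofNat 24802560, .negSucc 9619679, .ofNat 1584960]),
  (19478764, [.ofNat 0, .negSucc 7240319, .ofNat 23620320, .negSucc 24802559, .ofNat 9619680, .negSucc 1584959]),
  (19478827, [.ofNat 0, .ofNat 3064320, .negSucc 3830399, .ofNat 1294080, .negSucc 243839]),
  (19478829, [.ofNat 0, .ofNat 7240320, .negSucc 23620319, .ofNat 24802560, .negSucc 9619679, .ofNat 1584960]),
  (19478877, [.ofNat 0, .negSucc 22487039, .ofNat 40389120, .negSucc 32273279, .ofNat 11063040, .negSucc 1706879]),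
  (19478892, [.ofNat 0, .negSucc 27164159, .ofNat 61714560, .negSucc 56004479, .ofNat 20092800, .negSucc 3169919]),
  (19482349, [.ofNat 0, .negSucc 7240319, .ofNat 23620320, .negSucc 24802559, .ofNat 9619680, .negSucc 1584959]),
  (19482469, [.ofNat 0, .ofNat 12418560, .negSucc 24597119, .ofNat 21544320, .negSucc 7727999, .ofNat 1219200]),
  (19482476, [.ofNat 0, .ofNat 4919040, .negSucc 12555839, .ofNat 12080640, .negSucc 4514879, .ofNat 731520]),
  (19482861, [.ofNat 0, .negSucc 7240319, .ofNat 23620320, .negSucc 24802559, .ofNat 9619680, .negSucc 1584959]),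
  (19482973, [.ofNat 0, .ofNat 2995200, .ofNat 92248320, .negSucc 126777599, .ofNat 53856000, .negSucc 9265919]),
  (19483357, [.ofNat 0, .negSucc 32359679, .ofNat 20408640, .ofNat 3847680, .negSucc 5411519, .ofNat 1219200]),
  (19483421, [.ofNat 0, .ofNat 5207040, .negSucc 39690239, .ofNat 46410240, .negSucc 18063359, .ofNat 2926080]),
  (19486501, [.ofNat 0, .ofNat 7580160, .negSucc 6172799, .ofNat 2246400, .negSucc 243839]),
  (19486508, [.ofNat 0, .negSucc 4515839, .ofNat 3325440, .negSucc 545279]),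
  (19486941, [.ofNat 0, .negSucc 15943679, .ofNat 22331520, .negSucc 13839359, .ofNat 3822720, .negSucc 487679]),
  (19507437, [.ofNat 0, .ofNat 73808640, .negSucc 172251839, .ofNat 158499840, .negSucc 57309119, .ofNat 9022080]),
  (19507941, [.ofNat 0, .ofNat 3064320, .negSucc 3830399, .ofNat 1777920, .negSucc 243839]),
  (19511660, [.ofNat 0, .negSucc 27164159, .ofNat 61714560, .negSucc 56004479, .ofNat 20092800, .negSucc 3169919])]

/-- data -/
def lV13x3 : List (ℕ × List ℤ) := [(19511973, [.ofNat 0, .ofNat 17544960, .negSucc 51071039, .ofNat 51383040, .negSucc 19483199, .ofNat 3169920]),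
  (19511980, [.ofNat 0, .ofNat 921600, .ofNat 12330240, .negSucc 19311359, .ofNat 8298240, .negSucc 1463039]),
  (19514667, [.ofNat 0, .negSucc 3064319, .ofNat 3830400, .negSucc 1294079, .ofNat 243840]),
  (19514725, [.ofNat 0, .ofNat 3064320, .negSucc 3830399, .ofNat 1777920, .negSucc 243839]),
  (19515220, [.ofNat 0, .ofNat 6566400, .negSucc 26025599, .ofNat 28304640, .negSucc 12032639, .ofNat 1950720]),
  (19515741, [.ofNat 0, .negSucc 22487039, .ofNat 40389120, .negSucc 32273279, .ofNat 11063040, .negSucc 1706879]),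
  (19516181, [.ofNat 0, .ofNat 5207040, .negSucc 39690239, .ofNat 46410240, .negSucc 18063359, .ofNat 2926080]),
  (19518757, [.ofNat 0, .ofNat 17544960, .negSucc 51071039, .ofNat 51383040, .negSucc 19483199, .ofNat 3169920]),
  (19518819, [.ofNat 0, .ofNat 70600320, .negSucc 180899999, .ofNat 174506880, .negSucc 64651679, .ofNat 10363200]),
  (19519253, [.ofNat 0, .negSucc 3064319, .ofNat 3830400, .negSucc 1777919, .ofNat 243840]),
  (19540317, [.ofNat 0, .ofNat 10414080, .negSucc 39982079, .ofNat 44766720, .negSucc 17571839, .ofNat 2926080]),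
  (19540331, [.ofNat 0, .negSucc 6566399, .ofNat 26025600, .negSucc 28304639, .ofNat 12032640, .negSucc 1950719]),
  (19540701, [.ofNat 0, .ofNat 17544960, .negSucc 51071039, .ofNat 51383040, .negSucc 19483199, .ofNat 3169920]),
  (19540709, [.ofNat 0, .ofNat 6566400, .negSucc 26025599, .ofNat 28304640, .negSucc 12032639, .ofNat 1950720]),
  (19540765, [.ofNat 0, .ofNat 0, .negSucc 1520639, .ofNat 2424960, .negSucc 1455359, .ofNat 243840]),
  (19543276, [.ofNat 0, .ofNat 0, .negSucc 1520639, .ofNat 2424960, .negSucc 1455359, .ofNat 243840]),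
  (19543404, [.ofNat 0, .negSucc 27164159, .ofNat 61714560, .negSucc 56004479, .ofNat 20092800, .negSucc 3169919]),
  (19543724, [.ofNat 0, .ofNat 27164160, .negSucc 61714559, .ofNat 56004480, .negSucc 20092799, .ofNat 3169920]),
  (19543893, [.ofNat 0, .negSucc 7240319, .ofNat 23620320, .negSucc 24802559, .ofNat 9619680, .negSucc 1584959]),
  (19543909, [.ofNat 0, .negSucc 4838399, .ofNat 18424320, .negSucc 19297919, .ofNat 7484160, .negSucc 1219199]),
  (19543916, [.ofNat 0, .negSucc 4919039, .ofNat 12555840, .negSucc 12080639, .ofNat 4514880, .negSucc 731519]),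
  (19544427, [.ofNat 0, .negSucc 4469759, .negSucc 15093119, .ofNat 24518400, .negSucc 11544959, .ofNat 1950720]),
  (19544733, [.ofNat 0, .negSucc 8380799, .ofNat 8006880, .negSucc 2175359, .ofNat 19680, .ofNat 121920]),
  (19544789, [.ofNat 0, .negSucc 11445119, .ofNat 11837280, .negSucc 3953279, .ofNat 263520, .ofNat 121920]),
  (19547485, [.ofNat 0, .ofNat 17544960, .negSucc 51071039, .ofNat 51383040, .negSucc 19483199, .ofNat 3169920]),
  (19548893, [.ofNat 0, .negSucc 31576319, .ofNat 19763520, .ofNat 3847680, .negSucc 5411519, .ofNat 1219200]),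
  (19551517, [.ofNat 0, .ofNat 3064320, .negSucc 3830399, .ofNat 1777920, .negSucc 243839]),
  (19551901, [.ofNat 0, .ofNat 4423680, .ofNat 330240, .negSucc 5333759, .ofNat 2603520, .negSucc 487679]),
  (19551915, [.ofNat 0, .ofNat 2548800, .negSucc 4026479, .ofNat 3723840, .negSucc 1311599, .ofNat 182880]),
  (19552029, [.ofNat 0, .ofNat 4423680, .ofNat 330240, .negSucc 5333759, .ofNat 2603520, .negSucc 487679]),
  (19552083, [.ofNat 0, .ofNat 2548800, .negSucc 4026479, .ofNat 3723840, .negSucc 1311599, .ofNat 182880]),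
  (19552995, [.ofNat 0, .ofNat 9492480, .negSucc 8505599, .ofNat 4116480, .negSucc 487679]),
  (19573021, [.ofNat 0, .negSucc 7240319, .ofNat 23620320, .negSucc 24802559, .ofNat 9619680, .negSucc 1584959]),
  (19576163, [.ofNat 0, .negSucc 10448639, .ofNat 14972160, .negSucc 8795519, .ofNat 2277120, .negSucc 243839]),
  (19576597, [.ofNat 0, .negSucc 7240319, .ofNat 23620320, .negSucc 24802559, .ofNat 9619680, .negSucc 1584959]),
  (19576613, [.ofNat 0, .ofNat 7580160, .negSucc 6172799, .ofNat 2246400, .negSucc 243839]),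
  (19576620, [.ofNat 0, .ofNat 4976640, .negSucc 5180159, .ofNat 3571200, .negSucc 487679]),
  (19577109, [.ofNat 0, .negSucc 7240319, .ofNat 23620320, .negSucc 24802559, .ofNat 9619680, .negSucc 1584959]),
  (19577186, [.ofNat 0, .ofNat 783360, .negSucc 645119]),
  (19580125, [.ofNat 0, .negSucc 36587519, .ofNat 56017920, .negSucc 39377279, .ofNat 12038400, .negSucc 1706879]),
  (19580189, [.ofNat 0, .ofNat 5207040, .negSucc 19991039, .ofNat 22383360, .negSucc 8785919, .ofNat 1463040]),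
  (19580629, [.ofNat 0, .ofNat 7240320, .negSucc 23620319, .ofNat 24802560, .negSucc 9619679, .ofNat 1584960]),
  (19580701, [.ofNat 0, .ofNat 4423680, .ofNat 330240, .negSucc 5333759, .ofNat 2603520, .negSucc 487679]),
  (19581085, [.ofNat 0, .ofNat 1497600, .ofNat 46124160, .negSucc 63388799, .ofNat 26928000, .negSucc 4632959]),
  (19581141, [.ofNat 0, .ofNat 7240320, .negSucc 23620319, .ofNat 24802560, .negSucc 9619679, .ofNat 1584960]),
  (19581149, [.ofNat 0, .negSucc 967679, .negSucc 4483199, .ofNat 6627840, .negSucc 2847359, .ofNat 487680]),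
  (19584738, [.ofNat 0, .negSucc 45849599, .ofNat 104684160, .negSucc 95437439, .ofNat 35061120, .negSucc 5608319]),
  (21321515, [.ofNat 0, .negSucc 3064319, .ofNat 3830400, .negSucc 1777919, .ofNat 243840]),
  (21321948, [.ofNat 0, .negSucc 11036159, .ofNat 10932480, .negSucc 3786239, .ofNat 487680]),
  (21342437, [.ofNat 0, .negSucc 7125119, .ofNat 30735840, .negSucc 19758719, .ofNat 2308320, .ofNat 121920]),
  (21342572, [.ofNat 0, .ofNat 1359360, .ofNat 4160640, .negSucc 6627839, .ofNat 2847360, .negSucc 487679]),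
  (21342956, [.ofNat 0, .ofNat 21637440, .negSucc 43303919, .ofNat 36427200, .negSucc 12618479, .ofNat 1889760]),
  (21345644, [.ofNat 0, .negSucc 6566399, .ofNat 26025600, .negSucc 28304639, .ofNat 12032640, .negSucc 1950719]),
  (21346644, [.ofNat 0, .ofNat 9492480, .negSucc 8505599, .ofNat 4116480, .negSucc 487679]),
  (21346668, [.ofNat 0, .ofNat 5978880, .negSucc 31771199, .ofNat 36597120, .negSucc 14602559, .ofNat 2438400]),
  (21347093, [.ofNat 0, .ofNat 12625920, .negSucc 36276479, .ofNat 43916160, .negSucc 18347519, .ofNat 3169920]),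
  (21347114, [.ofNat 0, .negSucc 1042559, .negSucc 11523359, .ofNat 17882880, .negSucc 7464479, .ofNat 1341120]),
  (21347170, [.ofNat 0, .negSucc 45849599, .ofNat 104684160, .negSucc 95437439, .ofNat 35061120, .negSucc 5608319]),
  (21351075, [.ofNat 0, .negSucc 24946559, .ofNat 105847200, .negSucc 117768959, .ofNat 45943200, .negSucc 7680959]),
  (21353708, [.ofNat 0, .ofNat 21637440, .negSucc 43303919, .ofNat 36427200, .negSucc 12618479, .ofNat 1889760]),
  (21354722, [.ofNat 0, .ofNat 783360, .negSucc 645119]),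
  (21374693, [.ofNat 0, .negSucc 35124479, .ofNat 61385280, .negSucc 45294719, .ofNat 14690880, .negSucc 1950719]),
  (21374700, [.ofNat 0, .negSucc 19673279, .ofNat 19014480, .negSucc 6772799, .ofNat 517200, .ofNat 182880]),
  (21374763, [.ofNat 0, .ofNat 10241280, .negSucc 44641919, .ofNat 51540480, .negSucc 20419199, .ofNat 3413760]),
  (21374819, [.ofNat 0, .negSucc 35124479, .ofNat 61385280, .negSucc 45294719, .ofNat 14690880, .negSucc 1950719]),
  (21375843, [.ofNat 0, .ofNat 921600, .ofNat 12330240, .negSucc 19311359, .ofNat 8298240, .negSucc 1463039]),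
  (21378347, [.ofNat 0, .ofNat 5025600, .negSucc 12355439, .ofNat 12022080, .negSucc 4402799, .ofNat 670560]),
  (21378725, [.ofNat 0, .negSucc 11980799, .ofNat 48288000, .negSucc 52857599, .ofNat 20916480, .negSucc 3413759]),
  (21378924, [.ofNat 0, .ofNat 4919040, .negSucc 12555839, .ofNat 12080640, .negSucc 4514879, .ofNat 731520]),
  (21379418, [.ofNat 0, .negSucc 18754559, .ofNat 7645440, .negSucc 46079, .negSucc 42239]),
  (21379756, [.ofNat 0, .ofNat 783360, .negSucc 645119]),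
  (21379883, [.ofNat 0, .ofNat 5207040, .negSucc 19991039, .ofNat 22383360, .negSucc 8785919, .ofNat 1463040]),
  (21379923, [.ofNat 0, .negSucc 15333119, .ofNat 41444160, .negSucc 40352639, .ofNat 15090240, .negSucc 2438399]),
  (21379939, [.ofNat 0, .ofNat 1497600, .ofNat 46124160, .negSucc 63388799, .ofNat 26928000, .negSucc 4632959]),
  (21382507, [.ofNat 0, .negSucc 4953599, .negSucc 33143039, .ofNat 48332160, .negSucc 20989439, .ofNat 3657600]),
  (21382995, [.ofNat 0, .negSucc 7557119, .ofNat 8175360, .negSucc 3455999, .ofNat 487680]),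
  (21383893, [.ofNat 0, .negSucc 4838399, .ofNat 18424320, .negSucc 19297919, .ofNat 7484160, .negSucc 1219199]),
  (21383901, [.ofNat 0, .negSucc 8386559, .ofNat 14156160, .negSucc 10383359, .ofNat 3335040, .negSucc 487679]),
  (21386909, [.ofNat 0, .ofNat 4423680, .ofNat 330240, .negSucc 5333759, .ofNat 2603520, .negSucc 487679]),
  (21386965, [.ofNat 0, .ofNat 12418560, .negSucc 24597119, .ofNat 21544320, .negSucc 7727999, .ofNat 1219200]),
  (21387027, [.ofNat 0, .ofNat 12407040, .negSucc 22461119, .ofNat 16414080, .negSucc 3652799, .ofNat 487680]),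
  (21387482, [.ofNat 0, .negSucc 35124479, .ofNat 61385280, .negSucc 45294719, .ofNat 14690880, .negSucc 1950719]),
  (21407523, [.ofNat 0, .ofNat 3634560, .ofNat 10197600, .negSucc 21680639, .ofNat 12555360, .negSucc 2072639]),
  (21412115, [.ofNat 0, .negSucc 4919039, .ofNat 12555840, .negSucc 12080639, .ofNat 4514880, .negSucc 731519]),
  (21412139, [.ofNat 0, .ofNat 27164160, .negSucc 61714559, .ofNat 56004480, .negSucc 20092799, .ofNat 3169920]),
  (21415660, [.ofNat 0, .ofNat 1059840, .negSucc 19215359, .ofNat 24516480, .negSucc 10087679, .ofNat 1706880]),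
  (21415770, [.ofNat 0, .negSucc 14929919, .ofNat 48211200, .negSucc 50632319, .ofNat 19361280, .negSucc 3169919]),
  (21416157, [.ofNat 0, .negSucc 391679, .ofNat 322560]),
  (21416604, [.ofNat 0, .ofNat 7413120, .negSucc 56391839, .ofNat 64604160, .negSucc 26213279, .ofNat 4267200]),
  (21419299, [.ofNat 0, .negSucc 4031999, .negSucc 20812799, .ofNat 29020800, .negSucc 12691199, .ofNat 2194560]),
  (21419795, [.ofNat 0, .ofNat 10552320, .negSucc 27720959, .ofNat 28632960, .negSucc 10575359, .ofNat 1706880]),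
  (21419802, [.ofNat 0, .negSucc 14929919, .ofNat 48211200, .negSucc 50632319, .ofNat 19361280, .negSucc 3169919]),
  (21420307, [.ofNat 0, .ofNat 3064320, .negSucc 3830399, .ofNat 1294080, .negSucc 243839]),
  (21543276, [.ofNat 0, .ofNat 11980800, .negSucc 41272319, .ofNat 44766720, .negSucc 17571839, .ofNat 2926080]),
  (21543653, [.ofNat 0, .negSucc 14549759, .ofNat 31133760, .negSucc 31228799, .ofNat 11373120, .negSucc 1950719]),
  (21543660, [.ofNat 0, .negSucc 25459199, .ofNat 81582720, .negSucc 84403199, .ofNat 32622720, .negSucc 5364479]),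
  (21546851, [.ofNat 0, .negSucc 24606719, .ofNat 14745600, .ofNat 5389440, .negSucc 5533439, .ofNat 1219200]),
  (21546859, [.ofNat 0, .ofNat 13582080, .negSucc 45282239, .ofNat 46980480, .negSucc 17937599, .ofNat 2926080]),
  (21546860, [.ofNat 0, .ofNat 4919040, .negSucc 12555839, .ofNat 12080640, .negSucc 4514879, .ofNat 731520]),
  (21547805, [.ofNat 0, .negSucc 21311999, .ofNat 116044800, .negSucc 139449599, .ofNat 58498560, .negSucc 9753599])]

/-- data -/
def lV13x4 : List (ℕ × List ℤ) := [(21550891, [.ofNat 0, .negSucc 27164159, .ofNat 61714560, .negSucc 56004479, .ofNat 20092800, .negSucc 3169919]),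
  (21551325, [.ofNat 0, .negSucc 391679, .ofNat 322560]),
  (21551340, [.ofNat 0, .ofNat 1059840, .negSucc 19215359, .ofNat 24516480, .negSucc 10087679, .ofNat 1706880]),
  (21608549, [.ofNat 0, .negSucc 1042559, .negSucc 11523359, .ofNat 17882880, .negSucc 7464479, .ofNat 1341120]),
  (21609229, [.ofNat 0, .ofNat 12418560, .negSucc 24597119, .ofNat 21544320, .negSucc 7727999, .ofNat 1219200]),
  (21611363, [.ofNat 0, .negSucc 27164159, .ofNat 61714560, .negSucc 56004479, .ofNat 20092800, .negSucc 3169919]),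
  (21612364, [.ofNat 0, .ofNat 17671680, .negSucc 66245759, .ofNat 74926080, .negSucc 29412479, .ofNat 4876800]),
  (21612637, [.ofNat 0, .negSucc 4953599, .negSucc 33143039, .ofNat 48332160, .negSucc 20989439, .ofNat 3657600]),
  (21612651, [.ofNat 0, .ofNat 5978880, .negSucc 31771199, .ofNat 36597120, .negSucc 14602559, .ofNat 2438400]),
  (21612875, [.ofNat 0, .negSucc 27164159, .ofNat 61714560, .negSucc 56004479, .ofNat 20092800, .negSucc 3169919]),
  (21612907, [.ofNat 0, .ofNat 3064320, .negSucc 3830399, .ofNat 1294080, .negSucc 243839]),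
  (21613387, [.ofNat 0, .negSucc 27164159, .ofNat 61714560, .negSucc 56004479, .ofNat 20092800, .negSucc 3169919]),
  (21615395, [.ofNat 0, .ofNat 14365440, .negSucc 45927359, .ofNat 46980480, .negSucc 17937599, .ofNat 2926080]),
  (21615403, [.ofNat 0, .negSucc 36587519, .ofNat 56017920, .negSucc 39377279, .ofNat 12038400, .negSucc 1706879]),
  (21615452, [.ofNat 0, .ofNat 4389120, .negSucc 5451839, .negSucc 7608959, .ofNat 6183360, .negSucc 1463039]),
  (21616397, [.ofNat 0, .ofNat 14647680, .negSucc 51630239, .ofNat 63576960, .negSucc 26055839, .ofNat 4511040]),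
  (21616732, [.ofNat 0, .ofNat 9463680, .negSucc 14337119, .ofNat 9479040, .negSucc 2867039, .ofNat 365760]),
  (21616844, [.ofNat 0, .ofNat 9463680, .negSucc 14337119, .ofNat 9479040, .negSucc 2867039, .ofNat 365760]),
  (21616907, [.ofNat 0, .negSucc 30792959, .ofNat 19118400, .ofNat 3847680, .negSucc 5411519, .ofNat 1219200]),
  (21616909, [.ofNat 0, .negSucc 4838399, .ofNat 18424320, .negSucc 19297919, .ofNat 7484160, .negSucc 1219199]),
  (21617251, [.ofNat 0, .negSucc 8386559, .ofNat 14156160, .negSucc 10383359, .ofNat 3335040, .negSucc 487679]),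
  (21617419, [.ofNat 0, .negSucc 32359679, .ofNat 20408640, .ofNat 3847680, .negSucc 5411519, .ofNat 1219200]),
  (21632797, [.ofNat 0, .ofNat 13216320, .negSucc 15122159, .ofNat 5952960, .negSucc 741359, .negSucc 60959]),
  (21632811, [.ofNat 0, .ofNat 15359040, .negSucc 31282799, .ofNat 26558400, .negSucc 9283439, .ofNat 1402080]),
  (21632876, [.ofNat 0, .negSucc 391679, .ofNat 322560]),
  (21633821, [.ofNat 0, .negSucc 19673279, .ofNat 19014480, .negSucc 6772799, .ofNat 517200, .ofNat 182880]),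
  (21639965, [.ofNat 0, .ofNat 15359040, .negSucc 31282799, .ofNat 26558400, .negSucc 9283439, .ofNat 1402080]),
  (21639979, [.ofNat 0, .ofNat 13999680, .negSucc 35443439, .ofNat 33186240, .negSucc 12130799, .ofNat 1889760]),
  (21640043, [.ofNat 0, .ofNat 4919040, .negSucc 12555839, .ofNat 12080640, .negSucc 4514879, .ofNat 731520]),
  (21641821, [.ofNat 0, .ofNat 2548800, .negSucc 4026479, .ofNat 3723840, .negSucc 1311599, .ofNat 182880]),
  (21641933, [.ofNat 0, .negSucc 12000959, .ofNat 27107280, .negSucc 27504959, .ofNat 10061520, .negSucc 1767839]),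
  (21642059, [.ofNat 0, .ofNat 14411520, .negSucc 21061439, .ofNat 16197120, .negSucc 5002559, .ofNat 731520]),
  (21644907, [.ofNat 0, .ofNat 4919040, .negSucc 12555839, .ofNat 12080640, .negSucc 4514879, .ofNat 731520]),
  (21645131, [.ofNat 0, .ofNat 7061760, .negSucc 28716479, .ofNat 32686080, .negSucc 13056959, .ofNat 2194560]),
  (21648157, [.ofNat 0, .negSucc 19673279, .ofNat 19014480, .negSucc 6772799, .ofNat 517200, .ofNat 182880]),
  (21649003, [.ofNat 0, .negSucc 1359359, .negSucc 4160639, .ofNat 6627840, .negSucc 2847359, .ofNat 487680]),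
  (21649163, [.ofNat 0, .negSucc 12625919, .negSucc 26526719, .ofNat 50156160, .negSucc 23105279, .ofNat 4145280]),
  (21649613, [.ofNat 0, .ofNat 19405440, .negSucc 36075359, .ofNat 30076800, .negSucc 8918879, .ofNat 1341120]),
  (21665635, [.ofNat 0, .negSucc 1359359, .negSucc 4160639, .ofNat 6627840, .negSucc 2847359, .ofNat 487680]),
  (21672733, [.ofNat 0, .ofNat 1059840, .negSucc 19215359, .ofNat 24516480, .negSucc 10087679, .ofNat 1706880]),
  (21673580, [.ofNat 0, .negSucc 4953599, .negSucc 33143039, .ofNat 48332160, .negSucc 20989439, .ofNat 3657600]),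
  (21674085, [.ofNat 0, .negSucc 11036159, .ofNat 10932480, .negSucc 3786239, .ofNat 487680]),
  (21674092, [.ofNat 0, .ofNat 1941120, .negSucc 12670559, .ofNat 15360000, .negSucc 6284639, .ofNat 1097280]),
  (21674251, [.ofNat 0, .negSucc 15943679, .ofNat 22331520, .negSucc 13839359, .ofNat 3822720, .negSucc 487679]),
  (21674316, [.ofNat 0, .ofNat 1941120, .negSucc 12670559, .ofNat 15360000, .negSucc 6284639, .ofNat 1097280]),
  (21674332, [.ofNat 0, .negSucc 19673279, .ofNat 19014480, .negSucc 6772799, .ofNat 517200, .ofNat 182880]),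
  (21677772, [.ofNat 0, .ofNat 9492480, .negSucc 8505599, .ofNat 4116480, .negSucc 487679]),
  (21677853, [.ofNat 0, .negSucc 25459199, .ofNat 81582720, .negSucc 84403199, .ofNat 32622720, .negSucc 5364479]),
  (21677899, [.ofNat 0, .negSucc 27164159, .ofNat 61714560, .negSucc 56004479, .ofNat 20092800, .negSucc 3169919]),
  (21677916, [.ofNat 0, .negSucc 19673279, .ofNat 19014480, .negSucc 6772799, .ofNat 517200, .ofNat 182880]),
  (21678684, [.ofNat 0, .ofNat 7413120, .negSucc 56391839, .ofNat 64604160, .negSucc 26213279, .ofNat 4267200]),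
  (21678796, [.ofNat 0, .ofNat 15690240, .negSucc 40106879, .ofNat 45694080, .negSucc 18591359, .ofNat 3169920]),
  (21681763, [.ofNat 0, .negSucc 391679, .ofNat 322560]),
  (21681931, [.ofNat 0, .negSucc 1751039, .negSucc 3838079, .ofNat 6627840, .negSucc 2847359, .ofNat 487680]),
  (21805922, [.ofNat 0, .ofNat 2548800, .negSucc 4026479, .ofNat 3723840, .negSucc 1311599, .ofNat 182880]),
  (21808357, [.ofNat 0, .negSucc 65159999, .ofNat 155117040, .negSucc 143835839, .ofNat 52316400, .negSucc 8229599]),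
  (21808427, [.ofNat 0, .ofNat 11868480, .ofNat 2128080, .negSucc 15583679, .ofNat 7922640, .negSucc 1523999]),
  (21808805, [.ofNat 0, .negSucc 30127679, .ofNat 47387760, .negSucc 32886719, .ofNat 10258800, .negSucc 1402079]),
  (21808917, [.ofNat 0, .negSucc 40412159, .ofNat 101187840, .negSucc 96074879, .ofNat 35304960, .negSucc 5608319]),
  (21808980, [.ofNat 0, .ofNat 16894080, .negSucc 10227359, .negSucc 3561599, .ofNat 3519840, .negSucc 853439]),
  (21808994, [.ofNat 0, .ofNat 23849280, .negSucc 39144239, .ofNat 29183040, .negSucc 9649199, .ofNat 1402080]),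
  (21809309, [.ofNat 0, .ofNat 2548800, .negSucc 4026479, .ofNat 3723840, .negSucc 1311599, .ofNat 182880]),
  (21809323, [.ofNat 0, .ofNat 11868480, .ofNat 2128080, .negSucc 15583679, .ofNat 7922640, .negSucc 1523999]),
  (21809498, [.ofNat 0, .ofNat 783360, .negSucc 645119]),
  (21809898, [.ofNat 0, .ofNat 9463680, .negSucc 14337119, .ofNat 9479040, .negSucc 2867039, .ofNat 365760]),
  (21812901, [.ofNat 0, .ofNat 21637440, .negSucc 43303919, .ofNat 36427200, .negSucc 12618479, .ofNat 1889760]),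
  (21813090, [.ofNat 0, .ofNat 5207040, .negSucc 19991039, .ofNat 22383360, .negSucc 8785919, .ofNat 1463040]),
  (21813411, [.ofNat 0, .ofNat 1941120, .negSucc 12670559, .ofNat 15360000, .negSucc 6284639, .ofNat 1097280]),
  (21813482, [.ofNat 0, .negSucc 14929919, .ofNat 48211200, .negSucc 50632319, .ofNat 19361280, .negSucc 3169919]),
  (21813484, [.ofNat 0, .negSucc 11445119, .ofNat 11837280, .negSucc 3953279, .ofNat 263520, .ofNat 121920]),
  (21813596, [.ofNat 0, .negSucc 11445119, .ofNat 11837280, .negSucc 3953279, .ofNat 263520, .ofNat 121920]),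
  (21813602, [.ofNat 0, .ofNat 4423680, .ofNat 330240, .negSucc 5333759, .ofNat 2603520, .negSucc 487679]),
  (21813986, [.ofNat 0, .negSucc 10883519, .ofNat 90308880, .negSucc 110297279, .ofNat 44977680, .negSucc 7619999]),
  (21838605, [.ofNat 0, .ofNat 12407040, .negSucc 22461119, .ofNat 16414080, .negSucc 3652799, .ofNat 487680]),
  (21840739, [.ofNat 0, .negSucc 3064319, .ofNat 3830400, .negSucc 1777919, .ofNat 243840]),
  (21841516, [.ofNat 0, .ofNat 5207040, .negSucc 19991039, .ofNat 22383360, .negSucc 8785919, .ofNat 1463040]),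
  (21842637, [.ofNat 0, .ofNat 22141440, .negSucc 51152639, .ofNat 50407680, .negSucc 17867519, .ofNat 2926080]),
  (21846108, [.ofNat 0, .ofNat 9463680, .negSucc 14337119, .ofNat 9479040, .negSucc 2867039, .ofNat 365760]),
  (21846252, [.ofNat 0, .ofNat 2586240, .ofNat 20368800, .negSucc 28834559, .ofNat 13533600, .negSucc 2316479]),
  (21846364, [.ofNat 0, .negSucc 19555199, .ofNat 81728160, .negSucc 86279039, .ofNat 30944160, .negSucc 4998719]),
  (21846627, [.ofNat 0, .ofNat 7413120, .negSucc 56391839, .ofNat 64604160, .negSucc 26213279, .ofNat 4267200]),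
  (21873772, [.ofNat 0, .ofNat 27164160, .negSucc 61714559, .ofNat 56004480, .negSucc 20092799, .ofNat 3169920]),
  (21874794, [.ofNat 0, .ofNat 3064320, .negSucc 3830399, .ofNat 1294080, .negSucc 243839]),
  (21875298, [.ofNat 0, .negSucc 22487039, .ofNat 40389120, .negSucc 32273279, .ofNat 11063040, .negSucc 1706879]),
  (21877420, [.ofNat 0, .negSucc 19673279, .ofNat 19014480, .negSucc 6772799, .ofNat 517200, .ofNat 182880]),
  (21877602, [.ofNat 0, .ofNat 5207040, .negSucc 39690239, .ofNat 46410240, .negSucc 18063359, .ofNat 2926080]),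
  (21877868, [.ofNat 0, .negSucc 19673279, .ofNat 19014480, .negSucc 6772799, .ofNat 517200, .ofNat 182880]),
  (21878890, [.ofNat 0, .ofNat 9492480, .negSucc 8505599, .ofNat 4116480, .negSucc 487679]),
  (21879050, [.ofNat 0, .ofNat 783360, .negSucc 645119]),
  (21879114, [.ofNat 0, .negSucc 14929919, .ofNat 48211200, .negSucc 50632319, .ofNat 19361280, .negSucc 3169919]),
  (21879394, [.ofNat 0, .ofNat 2995200, .ofNat 92248320, .negSucc 126777599, .ofNat 53856000, .negSucc 9265919]),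
  (21894429, [.ofNat 0, .negSucc 16819199, .ofNat 56444160, .negSucc 58911359, .ofNat 22452480, .negSucc 3657599]),
  (21894933, [.ofNat 0, .negSucc 40412159, .ofNat 101187840, .negSucc 96074879, .ofNat 35304960, .negSucc 5608319]),
  (21895514, [.ofNat 0, .ofNat 12625920, .negSucc 36276479, .ofNat 43916160, .negSucc 18347519, .ofNat 3169920]),
  (21895845, [.ofNat 0, .ofNat 16894080, .negSucc 10227359, .negSucc 3561599, .ofNat 3519840, .negSucc 853439]),
  (21896019, [.ofNat 0, .negSucc 4919039, .ofNat 12555840, .negSucc 12080639, .ofNat 4514880, .negSucc 731519]),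
  (21898013, [.ofNat 0, .ofNat 39977280, .negSucc 21647279, .negSucc 10983359, .ofNat 8819280, .negSucc 2011679]),
  (21898027, [.ofNat 0, .ofNat 35159040, .negSucc 34787519, .ofNat 11500800, .negSucc 1014719, .negSucc 243839]),
  (21899595, [.ofNat 0, .ofNat 15359040, .negSucc 31282799, .ofNat 26558400, .negSucc 9283439, .ofNat 1402080]),
  (21900043, [.ofNat 0, .ofNat 15359040, .negSucc 31282799, .ofNat 26558400, .negSucc 9283439, .ofNat 1402080])]

/-- data -/
def lV13x5 : List (ℕ × List ℤ) := [(21900061, [.ofNat 0, .negSucc 45791999, .ofNat 94646400, .negSucc 81200639, .ofNat 28552320, .negSucc 4389119]),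
  (21900075, [.ofNat 0, .negSucc 24747839, .ofNat 53929200, .negSucc 47760959, .ofNat 17011440, .negSucc 2621279]),
  (21900107, [.ofNat 0, .ofNat 4976640, .negSucc 5180159, .ofNat 3571200, .negSucc 487679]),
  (21900124, [.ofNat 0, .ofNat 2548800, .negSucc 4026479, .ofNat 3723840, .negSucc 1311599, .ofNat 182880]),
  (21902122, [.ofNat 0, .ofNat 1359360, .ofNat 4160640, .negSucc 6627839, .ofNat 2847360, .negSucc 487679]),
  (21904138, [.ofNat 0, .ofNat 82408320, .negSucc 191711519, .ofNat 176674560, .negSucc 64081439, .ofNat 10119360]),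
  (21906259, [.ofNat 0, .ofNat 1059840, .negSucc 19215359, .ofNat 24516480, .negSucc 10087679, .ofNat 1706880]),
  (21906266, [.ofNat 0, .ofNat 783360, .negSucc 645119]),
  (21906763, [.ofNat 0, .negSucc 4515839, .ofNat 3325440, .negSucc 545279]),
  (21907274, [.ofNat 0, .ofNat 11980800, .negSucc 41272319, .ofNat 44766720, .negSucc 17571839, .ofNat 2926080]),
  (21908173, [.ofNat 0, .ofNat 11868480, .ofNat 2128080, .negSucc 15583679, .ofNat 7922640, .negSucc 1523999]),
  (21908299, [.ofNat 0, .ofNat 8478720, .negSucc 18744959, .ofNat 16571520, .negSucc 5124479, .ofNat 731520]),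
  (21910252, [.ofNat 0, .negSucc 10448639, .ofNat 14972160, .negSucc 8795519, .ofNat 2277120, .negSucc 243839]),
  (21910362, [.ofNat 0, .ofNat 5207040, .negSucc 39690239, .ofNat 46410240, .negSucc 18063359, .ofNat 2926080]),
  (21910827, [.ofNat 0, .negSucc 24747839, .ofNat 53929200, .negSucc 47760959, .ofNat 17011440, .negSucc 2621279]),
  (21910859, [.ofNat 0, .negSucc 23716799, .ofNat 50922000, .negSucc 43235519, .ofNat 14875920, .negSucc 2255519]),
  (21911141, [.ofNat 0, .ofNat 15664320, .negSucc 47258639, .ofNat 48313920, .negSucc 18293519, .ofNat 2987040]),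
  (21911148, [.ofNat 0, .negSucc 10448639, .ofNat 14972160, .negSucc 8795519, .ofNat 2277120, .negSucc 243839]),
  (21911306, [.ofNat 0, .ofNat 11980800, .negSucc 41272319, .ofNat 44766720, .negSucc 17571839, .ofNat 2926080]),
  (21911370, [.ofNat 0, .negSucc 14929919, .ofNat 48211200, .negSucc 50632319, .ofNat 19361280, .negSucc 3169919]),
  (21911693, [.ofNat 0, .ofNat 19405440, .negSucc 36075359, .ofNat 30076800, .negSucc 8918879, .ofNat 1341120]),
  (21912162, [.ofNat 0, .negSucc 22487039, .ofNat 40389120, .negSucc 32273279, .ofNat 11063040, .negSucc 1706879]),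
  (21912204, [.ofNat 0, .negSucc 23716799, .ofNat 50922000, .negSucc 43235519, .ofNat 14875920, .negSucc 2255519]),
  (21928162, [.ofNat 0, .ofNat 4423680, .ofNat 330240, .negSucc 5333759, .ofNat 2603520, .negSucc 487679]),
  (21928211, [.ofNat 0, .negSucc 15333119, .ofNat 41444160, .negSucc 40352639, .ofNat 15090240, .negSucc 2438399]),
  (21928234, [.ofNat 0, .negSucc 23716799, .ofNat 50922000, .negSucc 43235519, .ofNat 14875920, .negSucc 2255519]),
  (21928235, [.ofNat 0, .ofNat 1497600, .ofNat 46124160, .negSucc 63388799, .ofNat 26928000, .negSucc 4632959]),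
  (21928284, [.ofNat 0, .ofNat 10514880, .negSucc 11856719, .ofNat 3577920, .negSucc 29519, .negSucc 182879]),
  (21928290, [.ofNat 0, .ofNat 4423680, .ofNat 330240, .negSucc 5333759, .ofNat 2603520, .negSucc 487679]),
  (21930725, [.ofNat 0, .ofNat 5025600, .negSucc 12355439, .ofNat 12022080, .negSucc 4402799, .ofNat 670560]),
  (21932268, [.ofNat 0, .negSucc 16819199, .ofNat 56444160, .negSucc 58911359, .ofNat 22452480, .negSucc 3657599]),
  (21932364, [.ofNat 0, .ofNat 6966720, .negSucc 25025999, .ofNat 27382080, .negSucc 10687439, .ofNat 1767840]),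
  (21932380, [.ofNat 0, .negSucc 16819199, .ofNat 56444160, .negSucc 58911359, .ofNat 22452480, .negSucc 3657599]),
  (21934764, [.ofNat 0, .negSucc 25459199, .ofNat 81582720, .negSucc 84403199, .ofNat 32622720, .negSucc 5364479]),
  (21934946, [.ofNat 0, .ofNat 0, .negSucc 1520639, .ofNat 2424960, .negSucc 1455359, .ofNat 243840]),
  (21936212, [.ofNat 0, .negSucc 43269119, .ofNat 132549120, .negSucc 134872319, .ofNat 51087360, .negSucc 8290559]),
  (21936268, [.ofNat 0, .negSucc 43269119, .ofNat 132549120, .negSucc 134872319, .ofNat 51087360, .negSucc 8290559]),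
  (21936738, [.ofNat 0, .ofNat 10414080, .negSucc 39982079, .ofNat 44766720, .negSucc 17571839, .ofNat 2926080]),
  (21938914, [.ofNat 0, .ofNat 15359040, .negSucc 31282799, .ofNat 26558400, .negSucc 9283439, .ofNat 1402080]),
  (21939036, [.ofNat 0, .ofNat 10514880, .negSucc 11856719, .ofNat 3577920, .negSucc 29519, .negSucc 182879]),
  (21939469, [.ofNat 0, .negSucc 6059519, .ofNat 10250880, .negSucc 15611519, .ofNat 6314880, .negSucc 1219199]),
  (21939531, [.ofNat 0, .negSucc 23716799, .ofNat 50922000, .negSucc 43235519, .ofNat 14875920, .negSucc 2255519]),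
  (21939532, [.ofNat 0, .ofNat 6966720, .negSucc 25025999, .ofNat 27382080, .negSucc 10687439, .ofNat 1767840]),
  (21939813, [.ofNat 0, .ofNat 20689920, .negSucc 59614079, .ofNat 60336000, .negSucc 22696319, .ofNat 3657600]),
  (21939978, [.ofNat 0, .ofNat 3634560, .ofNat 10197600, .negSucc 21680639, .ofNat 12555360, .negSucc 2072639]),
  (21940876, [.ofNat 0, .ofNat 15690240, .negSucc 40106879, .ofNat 45694080, .negSucc 18591359, .ofNat 3169920]),
  (21943059, [.ofNat 0, .negSucc 7557119, .ofNat 8175360, .negSucc 3455999, .ofNat 487680]),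
  (22062828, [.ofNat 0, .negSucc 17124479, .ofNat 14988000, .negSucc 3048959, .negSucc 794399, .ofNat 365760]),
  (22062877, [.ofNat 0, .ofNat 22141440, .negSucc 51152639, .ofNat 50407680, .negSucc 17867519, .ofNat 2926080]),
  (22062891, [.ofNat 0, .ofNat 5215680, .negSucc 32286479, .ofNat 39518400, .negSucc 16016399, .ofNat 2743200]),
  (22063915, [.ofNat 0, .ofNat 15690240, .negSucc 40106879, .ofNat 45694080, .negSucc 18591359, .ofNat 3169920]),
  (22066475, [.ofNat 0, .ofNat 21637440, .negSucc 43303919, .ofNat 36427200, .negSucc 12618479, .ofNat 1889760]),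
  (22066860, [.ofNat 0, .negSucc 515519, .negSucc 196079, .ofNat 2429760, .negSucc 1067759, .ofNat 182880]),
  (22067539, [.ofNat 0, .ofNat 9463680, .negSucc 14337119, .ofNat 9479040, .negSucc 2867039, .ofNat 365760]),
  (22067546, [.ofNat 0, .ofNat 9463680, .negSucc 14337119, .ofNat 9479040, .negSucc 2867039, .ofNat 365760]),
  (22068010, [.ofNat 0, .negSucc 6085439, .negSucc 1855439, .ofNat 17818560, .negSucc 10000079, .ofNat 2011680]),
  (22070997, [.ofNat 0, .negSucc 1042559, .negSucc 11523359, .ofNat 17882880, .negSucc 7464479, .ofNat 1341120]),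
  (22074604, [.ofNat 0, .ofNat 11868480, .ofNat 2128080, .negSucc 15583679, .ofNat 7922640, .negSucc 1523999]),
  (22074667, [.ofNat 0, .negSucc 10759679, .negSucc 13082879, .ofNat 29748480, .negSucc 13505279, .ofNat 2438400]),
  (22075178, [.ofNat 0, .negSucc 23716799, .ofNat 50922000, .negSucc 43235519, .ofNat 14875920, .negSucc 2255519]),
  (22075605, [.ofNat 0, .ofNat 1941120, .negSucc 12670559, .ofNat 15360000, .negSucc 6284639, .ofNat 1097280]),
  (22075731, [.ofNat 0, .negSucc 7928639, .negSucc 2514959, .ofNat 11150400, .negSucc 5441039, .ofNat 1036320]),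
  (22075738, [.ofNat 0, .ofNat 82468800, .negSucc 178771919, .ofNat 158923200, .negSucc 56729039, .ofNat 8839200]),
  (22076179, [.ofNat 0, .ofNat 2548800, .negSucc 4026479, .ofNat 3723840, .negSucc 1311599, .ofNat 182880]),
  (22098717, [.ofNat 0, .ofNat 35159040, .negSucc 34787519, .ofNat 11500800, .negSucc 1014719, .negSucc 243839]),
  (22098731, [.ofNat 0, .ofNat 35159040, .negSucc 34787519, .ofNat 11500800, .negSucc 1014719, .negSucc 243839]),
  (22100579, [.ofNat 0, .ofNat 4423680, .ofNat 330240, .negSucc 5333759, .ofNat 2603520, .negSucc 487679]),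
  (22100581, [.ofNat 0, .ofNat 10514880, .negSucc 11856719, .ofNat 3577920, .negSucc 29519, .negSucc 182879]),
  (22100749, [.ofNat 0, .ofNat 26205120, .negSucc 51963599, .ofNat 49272000, .negSucc 18620879, .ofNat 2987040]),
  (22104907, [.ofNat 0, .ofNat 6059520, .negSucc 10250879, .ofNat 15611520, .negSucc 6314879, .ofNat 1219200]),
  (22124883, [.ofNat 0, .ofNat 9463680, .negSucc 14337119, .ofNat 9479040, .negSucc 2867039, .ofNat 365760]),
  (22124890, [.ofNat 0, .ofNat 9463680, .negSucc 14337119, .ofNat 9479040, .negSucc 2867039, .ofNat 365760]),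
  (22125269, [.ofNat 0, .ofNat 10514880, .negSucc 11856719, .ofNat 3577920, .negSucc 29519, .negSucc 182879]),
  (22127389, [.ofNat 0, .ofNat 56796480, .negSucc 78091439, .ofNat 47928000, .negSucc 13633199, .ofNat 1645920]),
  (22127403, [.ofNat 0, .ofNat 35159040, .negSucc 34787519, .ofNat 11500800, .negSucc 1014719, .negSucc 243839]),
  (22128971, [.ofNat 0, .ofNat 15359040, .negSucc 31282799, .ofNat 26558400, .negSucc 9283439, .ofNat 1402080]),
  (22129253, [.ofNat 0, .negSucc 44199359, .ofNat 132529680, .negSucc 135247679, .ofNat 51321360, .negSucc 8351519]),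
  (22129388, [.ofNat 0, .negSucc 7928639, .negSucc 2514959, .ofNat 11150400, .negSucc 5441039, .ofNat 1036320]),
  (22129421, [.ofNat 0, .negSucc 44199359, .ofNat 132529680, .negSucc 135247679, .ofNat 51321360, .negSucc 8351519]),
  (22129500, [.ofNat 0, .ofNat 2548800, .negSucc 4026479, .ofNat 3723840, .negSucc 1311599, .ofNat 182880]),
  (22135642, [.ofNat 0, .ofNat 12407040, .negSucc 22461119, .ofNat 16414080, .negSucc 3652799, .ofNat 487680]),
  (22137451, [.ofNat 0, .ofNat 7413120, .negSucc 56391839, .ofNat 64604160, .negSucc 26213279, .ofNat 4267200]),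
  (22137501, [.ofNat 0, .negSucc 31518719, .ofNat 91833600, .negSucc 100014719, .ofNat 38937600, .negSucc 6583679]),
  (22137546, [.ofNat 0, .negSucc 21311999, .ofNat 116044800, .negSucc 139449599, .ofNat 58498560, .negSucc 9753599]),
  (22139605, [.ofNat 0, .ofNat 10514880, .negSucc 11856719, .ofNat 3577920, .negSucc 29519, .negSucc 182879]),
  (22139738, [.ofNat 0, .ofNat 16369920, .negSucc 53739839, .ofNat 45248640, .negSucc 14733119, .ofNat 1950720]),
  (22140140, [.ofNat 0, .negSucc 7928639, .negSucc 2514959, .ofNat 11150400, .negSucc 5441039, .ofNat 1036320]),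
  (22141133, [.ofNat 0, .negSucc 10448639, .ofNat 14972160, .negSucc 8795519, .ofNat 2277120, .negSucc 243839]),
  (22141267, [.ofNat 0, .negSucc 766079, .ofNat 100680480, .negSucc 120026879, .ofNat 44662560, .negSucc 7193279]),
  (22141530, [.ofNat 0, .negSucc 2511359, .ofNat 23614080, .negSucc 29087999, .ofNat 11633280, .negSucc 1950719]),
  (22164587, [.ofNat 0, .ofNat 1059840, .negSucc 19215359, .ofNat 24516480, .negSucc 10087679, .ofNat 1706880]),
  (22166106, [.ofNat 0, .negSucc 4838399, .ofNat 18424320, .negSucc 19297919, .ofNat 7484160, .negSucc 1219199]),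
  (22190293, [.ofNat 0, .ofNat 1941120, .negSucc 12670559, .ofNat 15360000, .negSucc 6284639, .ofNat 1097280]),
  (22190419, [.ofNat 0, .negSucc 24747839, .ofNat 53929200, .negSucc 47760959, .ofNat 17011440, .negSucc 2621279]),
  (22198029, [.ofNat 0, .negSucc 23716799, .ofNat 50922000, .negSucc 43235519, .ofNat 14875920, .negSucc 2255519]),
  (22198477, [.ofNat 0, .ofNat 35159040, .negSucc 34787519, .ofNat 11500800, .negSucc 1014719, .negSucc 243839]),
  (22198603, [.ofNat 0, .ofNat 21637440, .negSucc 43303919, .ofNat 36427200, .negSucc 12618479, .ofNat 1889760]),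
  (22200989, [.ofNat 0, .negSucc 24946559, .ofNat 105847200, .negSucc 117768959, .ofNat 45943200, .negSucc 7680959]),
  (22202187, [.ofNat 0, .ofNat 7087680, .negSucc 13690799, .ofNat 7623360, .negSucc 2700719, .ofNat 182880]),
  (22324972, [.ofNat 0, .negSucc 3064319, .ofNat 3830400, .negSucc 1294079, .ofNat 243840])]

/-- data -/
def lV13x6 : List (ℕ × List ℤ) := [(22325084, [.ofNat 0, .ofNat 15690240, .negSucc 40106879, .ofNat 45694080, .negSucc 18591359, .ofNat 3169920]),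
  (22328556, [.ofNat 0, .negSucc 30862079, .ofNat 110088000, .negSucc 118458239, .ofNat 47434560, .negSucc 7802879]),
  (22328668, [.ofNat 0, .negSucc 43269119, .ofNat 132549120, .negSucc 134872319, .ofNat 51087360, .negSucc 8290559]),
  (22329186, [.ofNat 0, .ofNat 15719040, .negSucc 49877279, .ofNat 52051200, .negSucc 19829279, .ofNat 3291840]),
  (22329698, [.ofNat 0, .ofNat 19405440, .negSucc 36075359, .ofNat 30076800, .negSucc 8918879, .ofNat 1341120]),
  (22333085, [.ofNat 0, .ofNat 783360, .negSucc 645119]),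
  (22333597, [.ofNat 0, .negSucc 11445119, .ofNat 11837280, .negSucc 3953279, .ofNat 263520, .ofNat 121920]),
  (22334115, [.ofNat 0, .negSucc 43269119, .ofNat 132549120, .negSucc 134872319, .ofNat 51087360, .negSucc 8290559]),
  (22334227, [.ofNat 0, .negSucc 50394239, .ofNat 163284960, .negSucc 154631039, .ofNat 53395680, .negSucc 8168639]),
  (22386474, [.ofNat 0, .ofNat 28707840, .negSucc 77178239, .ofNat 78712320, .negSucc 29900159, .ofNat 4876800]),
  (22386986, [.ofNat 0, .negSucc 23716799, .ofNat 50922000, .negSucc 43235519, .ofNat 14875920, .negSucc 2255519]),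
  (22399578, [.ofNat 0, .negSucc 14929919, .ofNat 48211200, .negSucc 50632319, .ofNat 19361280, .negSucc 3169919]),
  (22403274, [.ofNat 0, .negSucc 14549759, .ofNat 31133760, .negSucc 31228799, .ofNat 11373120, .negSucc 1950719]),
  (22419157, [.ofNat 0, .ofNat 7580160, .negSucc 6172799, .ofNat 2246400, .negSucc 243839]),
  (22427220, [.ofNat 0, .ofNat 7580160, .negSucc 6172799, .ofNat 2246400, .negSucc 243839]),
  (155826477, [.negSucc 14480639, .ofNat 47240640, .negSucc 49605119, .ofNat 19239360, .negSucc 3169919]),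
  (155834212, [.ofNat 8098560, .negSucc 37761599, .ofNat 39073920, .negSucc 15696959, .ofNat 2438400]),
  (155859181, [.ofNat 16197120, .negSucc 75523199, .ofNat 78147840, .negSucc 31393919, .ofNat 4876800]),
  (155859307, [.negSucc 6566399, .ofNat 26025600, .negSucc 28304639, .ofNat 12032640, .negSucc 1950719]),
  (155862765, [.ofNat 14480640, .negSucc 47240639, .ofNat 49605120, .negSucc 19239359, .ofNat 3169920]),
  (155863773, [.ofNat 42232320, .negSucc 113074559, .ofNat 111571200, .negSucc 42057599, .ofNat 6827520]),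
  (155867875, [.ofNat 6566400, .negSucc 26025599, .ofNat 28304640, .negSucc 12032639, .ofNat 1950720]),
  (155891997, [.negSucc 50918399, .ofNat 163165440, .negSucc 168806399, .ofNat 65245440, .negSucc 10728959]),
  (155899676, [.ofNat 8098560, .negSucc 37761599, .ofNat 39073920, .negSucc 15696959, .ofNat 2438400]),
  (156055916, [.ofNat 76959360, .negSucc 226654559, .ofNat 233341440, .negSucc 89593439, .ofNat 14752320]),
  (156059493, [.ofNat 7125120, .negSucc 23178719, .ofNat 10600320, .ofNat 740640, .negSucc 609599]),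
  (156059885, [.negSucc 3064319, .ofNat 18944640, .negSucc 20094719, .ofNat 6341760, .negSucc 975359]),
  (156060389, [.negSucc 21467519, .ofNat 53557920, .negSucc 53909759, .ofNat 20280480, .negSucc 3291839]),
  (156063525, [.ofNat 0, .ofNat 7557120, .negSucc 9158399, .ofNat 3048960, .negSucc 487679]),
  (156063532, [.ofNat 0, .ofNat 1059840, .negSucc 570239, .negSucc 1570559, .ofNat 243840]),
  (156063980, [.negSucc 19405439, .ofNat 36075360, .negSucc 30076799, .ofNat 8918880, .negSucc 1341119]),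
  (156064029, [.ofNat 3064320, .negSucc 3830399, .ofNat 1777920, .negSucc 243839]),
  (156064092, [.ofNat 2736000, .negSucc 25283999, .ofNat 27367680, .negSucc 8491679, .ofNat 1341120]),
  (156092757, [.ofNat 19681920, .negSucc 83051999, .ofNat 87793920, .negSucc 33861599, .ofNat 5486400]),
  (156093100, [.ofNat 22187520, .negSucc 44446079, .ofNat 40696320, .negSucc 14739839, .ofNat 2438400]),
  (156093205, [.ofNat 15045120, .negSucc 52118399, .ofNat 54635520, .negSucc 21160319, .ofNat 3413760]),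
  (156095781, [.negSucc 35089919, .ofNat 102142080, .negSucc 102766079, .ofNat 38966400, .negSucc 6339839]),
  (156117355, [.negSucc 57398399, .ofNat 160059360, .negSucc 156388799, .ofNat 59115360, .negSucc 9509759]),
  (156117733, [.ofNat 120309120, .negSucc 307378079, .ofNat 292062720, .negSucc 109230239, .ofNat 17434560]),
  (156117740, [.ofNat 175680, .negSucc 11418479, .ofNat 14732160, .negSucc 6174959, .ofNat 1036320]),
  (156117789, [.ofNat 60330240, .negSucc 165107519, .ofNat 160763520, .negSucc 60790079, .ofNat 9753600]),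
  (156117803, [.ofNat 60154560, .negSucc 153689039, .ofNat 146031360, .negSucc 54615119, .ofNat 8717280]),
  (156121940, [.negSucc 19295999, .ofNat 40683840, .negSucc 39089279, .ofNat 14602560, .negSucc 2438399]),
  (156125867, [.ofNat 9377280, .negSucc 40487039, .ofNat 42896640, .negSucc 17900159, .ofNat 2926080]),
  (156128541, [.ofNat 175680, .negSucc 11418479, .ofNat 14732160, .negSucc 6174959, .ofNat 1036320]),
  (156128555, [.ofNat 60154560, .negSucc 153689039, .ofNat 146031360, .negSucc 54615119, .ofNat 8717280]),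
  (156149989, [.ofNat 76959360, .negSucc 226654559, .ofNat 233341440, .negSucc 89593439, .ofNat 14752320]),
  (156150115, [.ofNat 33825600, .negSucc 98445359, .ofNat 98977920, .negSucc 37936559, .ofNat 6156960]),
  (156150563, [.ofNat 9377280, .negSucc 40487039, .ofNat 42896640, .negSucc 17900159, .ofNat 2926080]),
  (156154133, [.ofNat 3064320, .negSucc 3830399, .ofNat 1777920, .negSucc 243839]),
  (156154196, [.ofNat 2756160, .ofNat 6370320, .negSucc 10357439, .ofNat 4500240, .negSucc 792479]),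
  (156157276, [.ofNat 0, .negSucc 6278399, .ofNat 7328640, .negSucc 3121919, .ofNat 487680]),
  (156157780, [.ofNat 2756160, .ofNat 91920, .negSucc 3028799, .ofNat 1378320, .negSucc 304799]),
  (156161308, [.ofNat 24324480, .negSucc 46016159, .ofNat 40331520, .negSucc 14220959, .ofNat 2316480]),
  (156318493, [.negSucc 15690239, .ofNat 40106880, .negSucc 45694079, .ofNat 18591360, .negSucc 3169919]),
  (156318563, [.negSucc 2142719, .ofNat 18971520, .negSucc 25823999, .ofNat 11406720, .negSucc 1950719]),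
  (156322525, [.ofNat 57697920, .negSucc 169983839, .ofNat 178026240, .negSucc 67951199, .ofNat 11338560]),
  (156325605, [.negSucc 6566399, .ofNat 26025600, .negSucc 28304639, .ofNat 12032640, .negSucc 1950719]),
  (156325675, [.ofNat 3893760, .negSucc 24063359, .ofNat 24579840, .negSucc 11264639, .ofNat 1706880]),
  (156325731, [.ofNat 0, .negSucc 12072959, .ofNat 11500800, .negSucc 4001279, .ofNat 487680]),
  (156326109, [.negSucc 9630719, .ofNat 29856000, .negSucc 30082559, .ofNat 12276480, .negSucc 1950719]),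
  (156346731, [.negSucc 57398399, .ofNat 160059360, .negSucc 156388799, .ofNat 59115360, .negSucc 9509759]),
  (156347109, [.ofNat 60154560, .negSucc 153689039, .ofNat 146031360, .negSucc 54615119, .ofNat 8717280]),
  (156347116, [.ofNat 175680, .negSucc 11418479, .ofNat 14732160, .negSucc 6174959, .ofNat 1036320]),
  (156349797, [.ofNat 15045120, .negSucc 52118399, .ofNat 54635520, .negSucc 21160319, .ofNat 3413760]),
  (156355229, [.ofNat 31518720, .negSucc 91833599, .ofNat 100014720, .negSucc 38937599, .ofNat 6583680]),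
  (156357931, [.ofNat 26035200, .negSucc 75215999, .ofNat 74987520, .negSucc 29132159, .ofNat 4632960]),
  (156357987, [.ofNat 25459200, .negSucc 81582719, .ofNat 84403200, .negSucc 32622719, .ofNat 5364480]),
  (156358995, [.ofNat 19105920, .negSucc 79023839, .ofNat 72616320, .negSucc 23224799, .ofNat 3291840]),
  (156379869, [.negSucc 35089919, .ofNat 102142080, .negSucc 102766079, .ofNat 38966400, .negSucc 6339839]),
  (156382445, [.ofNat 3064320, .negSucc 18944639, .ofNat 20094720, .negSucc 6341759, .ofNat 975360]),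
  (156383061, [.ofNat 7240320, .negSucc 23620319, .ofNat 24802560, .negSucc 9619679, .ofNat 1584960]),
  (156383901, [.negSucc 3064319, .ofNat 3830400, .negSucc 1777919, .ofNat 243840]),
  (156412125, [.negSucc 3064319, .ofNat 3830400, .negSucc 1777919, .ofNat 243840]),
  (156419741, [.ofNat 0, .negSucc 6796799, .ofNat 8394240, .negSucc 2741759, .ofNat 487680]),
  (156419755, [.ofNat 18564480, .negSucc 58453919, .ofNat 58775040, .negSucc 23970719, .ofNat 3779520]),
  (156579621, [.ofNat 19681920, .negSucc 83051999, .ofNat 87793920, .negSucc 33861599, .ofNat 5486400]),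
  (156580188, [.negSucc 15690239, .ofNat 40106880, .negSucc 45694079, .ofNat 18591360, .negSucc 3169919]),
  (156584157, [.ofNat 7240320, .negSucc 23620319, .ofNat 24802560, .negSucc 9619679, .ofNat 1584960]),
  (156584675, [.ofNat 0, .ofNat 2580480, .negSucc 2995199, .negSucc 115199]),
  (156587811, [.ofNat 25459200, .negSucc 81582719, .ofNat 84403200, .negSucc 32622719, .ofNat 5364480]),
  (156608293, [.ofNat 3064320, .negSucc 11387519, .ofNat 10936320, .negSucc 3292799, .ofNat 487680]),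
  (156608300, [.ofNat 0, .negSucc 1520639, .ofNat 2424960, .negSucc 1455359, .ofNat 243840]),
  (156608867, [.ofNat 33825600, .negSucc 98445359, .ofNat 98977920, .negSucc 37936559, .ofNat 6156960]),
  (156612885, [.ofNat 14480640, .negSucc 47240639, .ofNat 49605120, .negSucc 19239359, .ofNat 3169920]),
  (156648669, [.ofNat 35089920, .negSucc 102142079, .ofNat 102766080, .negSucc 38966399, .ofNat 6339840]),
  (156649173, [.negSucc 14480639, .ofNat 47240640, .negSucc 49605119, .ofNat 19239360, .negSucc 3169919]),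
  (156652764, [.negSucc 4389119, .ofNat 5451840, .ofNat 7608960, .negSucc 6183359, .ofNat 1463040]),
  (156653219, [.negSucc 55022399, .ofNat 139669680, .negSucc 135502079, .ofNat 48625200, .negSucc 7863839]),
  (156653331, [.negSucc 35490239, .ofNat 86472720, .negSucc 99329279, .ofNat 42664080, .negSucc 7498079]),
  (156678356, [.ofNat 5028480, .negSucc 5332319, .ofNat 1242240, .ofNat 381600, .negSucc 121919]),
  (170507045, [.negSucc 37238399, .ofNat 104669280, .negSucc 110294399, .ofNat 43056480, .negSucc 7193279]),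
  (170510188, [.ofNat 0, .ofNat 11289600, .negSucc 13422719, .ofNat 4035840, .negSucc 731519]),
  (170514780, [.ofNat 0, .negSucc 3916799, .ofNat 4782720, .negSucc 618239, .ofNat 243840]),
  (170538853, [.ofNat 14486400, .negSucc 36663839, .ofNat 33267840, .negSucc 14096159, .ofNat 2072640]),
  (170543837, [.negSucc 3271679, .ofNat 27840000, .negSucc 31987199, .ofNat 11950080, .negSucc 1950719]),
  (170572075, [.ofNat 3064320, .negSucc 3830399, .ofNat 1777920, .negSucc 243839]),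
  (170572131, [.ofNat 0, .ofNat 1359360, .negSucc 1466879, .ofNat 215040]),
  (170575596, [.negSucc 3496319, .negSucc 6403679, .ofNat 9527040, .negSucc 4045919, .ofNat 609600]),
  (170575659, [.ofNat 0, .ofNat 207360, .negSucc 489599, .ofNat 2330880, .negSucc 243839])]

/-- data -/
def lV13x7 : List (ℕ × List ℤ) := [(170739564, [.ofNat 43528320, .negSucc 97647839, .ofNat 92421120, .negSucc 34222559, .ofNat 5486400]),
  (170740523, [.ofNat 0, .ofNat 1359360, .negSucc 1466879, .ofNat 215040]),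
  (170744156, [.ofNat 0, .negSucc 8271359, .ofNat 9246720, .negSucc 2741759, .ofNat 487680]),
  (170773332, [.ofNat 0, .negSucc 2292479, .ofNat 2855040, .negSucc 1589759, .ofNat 243840]),
  (170776853, [.negSucc 35089919, .ofNat 102142080, .negSucc 102766079, .ofNat 38966400, .negSucc 6339839]),
  (170776930, [.ofNat 22187520, .negSucc 43086719, .ofNat 39229440, .negSucc 14524799, .ofNat 2438400]),
  (170796908, [.ofNat 21764160, .negSucc 48823919, .ofNat 46210560, .negSucc 17111279, .ofNat 2743200]),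
  (170797419, [.ofNat 0, .ofNat 7130880, .negSucc 7592639, .ofNat 3830400, .negSucc 609599]),
  (170805917, [.negSucc 3064319, .ofNat 6940800, .negSucc 5999999, .ofNat 1779840, .negSucc 243839]),
  (170805973, [.negSucc 19192319, .ofNat 41136000, .negSucc 31084799, .ofNat 10204800, .negSucc 1463039]),
  (170809172, [.ofNat 0, .negSucc 253439, .negSucc 1604159, .ofNat 600960, .negSucc 121919]),
  (170809501, [.ofNat 0, .negSucc 2557439, .ofNat 3692160, .negSucc 1109759, .ofNat 243840]),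
  (170809690, [.ofNat 0, .negSucc 2557439, .ofNat 3315840, .negSucc 403199, .ofNat 243840]),
  (170810019, [.ofNat 3634560, .ofNat 7294560, .negSucc 18099839, .ofNat 10032480, .negSucc 1828799]),
  (170834092, [.ofNat 0, .negSucc 12072959, .ofNat 11500800, .negSucc 4001279, .ofNat 487680]),
  (170837277, [.ofNat 0, .negSucc 3317759, .ofNat 3922560, .negSucc 1754879, .ofNat 243840]),
  (170837340, [.ofNat 0, .negSucc 9411839, .ofNat 10759680, .negSucc 4734719, .ofNat 731520]),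
  (170837844, [.ofNat 0, .negSucc 7499519, .ofNat 8411520, .negSucc 3283199, .ofNat 487680]),
  (170838691, [.ofNat 0, .ofNat 1359360, .negSucc 1466879, .ofNat 215040]),
  (170838803, [.ofNat 0, .ofNat 1359360, .negSucc 1466879, .ofNat 215040]),
  (170997612, [.ofNat 1359360, .ofNat 4160640, .negSucc 6627839, .ofNat 2847360, .negSucc 487679]),
  (171002589, [.negSucc 9630719, .ofNat 25017600, .negSucc 23735039, .ofNat 9066240, .negSucc 1463039]),
  (171027292, [.ofNat 3496320, .ofNat 13822560, .negSucc 19614719, .ofNat 7920480, .negSucc 1341119]),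
  (171031317, [.ofNat 18564480, .negSucc 58453919, .ofNat 58775040, .negSucc 23970719, .ofNat 3779520]),
  (171035482, [.negSucc 16369919, .ofNat 53739840, .negSucc 45248639, .ofNat 14733120, .negSucc 1950719]),
  (171037932, [.ofNat 0, .ofNat 910080, .negSucc 606719, .ofNat 107520]),
  (171039066, [.ofNat 0, .negSucc 1474559, .ofNat 852480]),
  (171039514, [.ofNat 783360, .negSucc 645119]),
  (171064147, [.negSucc 5495039, .ofNat 16332480, .negSucc 16191359, .ofNat 6060480, .negSucc 975359]),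
  (171072218, [.ofNat 783360, .negSucc 645119]),
  (171091741, [.ofNat 0, .ofNat 11289600, .negSucc 13422719, .ofNat 4035840, .negSucc 731519]),
  (171095388, [.ofNat 0, .ofNat 2741760, .negSucc 3369599, .ofNat 1582080, .negSucc 243839]),
  (171095829, [.negSucc 6335999, .ofNat 31670400, .negSucc 33765119, .ofNat 12193920, .negSucc 1950719]),
  (171096277, [.ofNat 0, .ofNat 7557120, .negSucc 9158399, .ofNat 3048960, .negSucc 487679]),
  (171099357, [.ofNat 20822400, .negSucc 65569439, .ofNat 62851200, .negSucc 22849439, .ofNat 3535680]),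
  (171099987, [.ofNat 0, .negSucc 3317759, .ofNat 3922560, .negSucc 1754879, .ofNat 243840]),
  (171104019, [.negSucc 12407039, .ofNat 22461120, .negSucc 16414079, .ofNat 3652800, .negSucc 487679]),
  (171104026, [.ofNat 0, .ofNat 8524800, .negSucc 9240959, .ofNat 595200, .negSucc 243839]),
  (171259692, [.ofNat 37238400, .negSucc 93379679, .ofNat 96871680, .negSucc 39020639, .ofNat 6461760]),
  (171260140, [.negSucc 7490879, .ofNat 41692080, .negSucc 43286879, .ofNat 18021360, .negSucc 2926079]),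
  (171260252, [.negSucc 7490879, .ofNat 41692080, .negSucc 43286879, .ofNat 18021360, .negSucc 2926079]),
  (171263787, [.ofNat 0, .negSucc 1221119, .ofNat 1082880, .negSucc 161279]),
  (171288931, [.ofNat 0, .ofNat 3409920, .negSucc 3667199, .ofNat 1981440, .negSucc 243839]),
  (171293012, [.negSucc 3496319, .ofNat 5669280, .negSucc 1973759, .negSucc 44639, .ofNat 121920]),
  (171296043, [.ofNat 0, .ofNat 2741760, .negSucc 3369599, .ofNat 1582080, .negSucc 243839]),
  (171296428, [.ofNat 0, .ofNat 7372800, .negSucc 8639999, .ofNat 3417600, .negSucc 487679]),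
  (171296554, [.ofNat 0, .ofNat 207360, .negSucc 489599, .ofNat 2330880, .negSucc 243839]),
  (171297555, [.ofNat 0, .ofNat 1059840, .negSucc 570239, .negSucc 1570559, .ofNat 243840]),
  (171301076, [.ofNat 0, .ofNat 1451520, .negSucc 3522239, .ofNat 2171520, .negSucc 365759]),
  (171321187, [.ofNat 0, .ofNat 3409920, .negSucc 3667199, .ofNat 1981440, .negSucc 243839]),
  (171324764, [.ofNat 0, .ofNat 2741760, .negSucc 3369599, .ofNat 1582080, .negSucc 243839]),
  (171325100, [.ofNat 37238400, .negSucc 93379679, .ofNat 96871680, .negSucc 39020639, .ofNat 6461760]),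
  (171326227, [.ofNat 0, .ofNat 69120, .ofNat 218880, .negSucc 80639]),
  (171329370, [.ofNat 15724800, .negSucc 50372159, .ofNat 52078080, .negSucc 19590719, .ofNat 3169920]),
  (171333346, [.ofNat 0, .negSucc 12072959, .ofNat 11500800, .negSucc 4001279, .ofNat 487680]),
  (171333395, [.ofNat 0, .ofNat 69120, .ofNat 218880, .negSucc 80639]),
  (171333850, [.ofNat 37238400, .negSucc 93379679, .ofNat 96871680, .negSucc 39020639, .ofNat 6461760]),
  (171353891, [.negSucc 3634559, .negSucc 10197599, .ofNat 21680640, .negSucc 12555359, .ofNat 2072640]),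
  (171358420, [.ofNat 0, .negSucc 2292479, .ofNat 2855040, .negSucc 1589759, .ofNat 243840]),
  (171358483, [.negSucc 5495039, .ofNat 16332480, .negSucc 16191359, .ofNat 6060480, .negSucc 975359]),
  (171358490, [.ofNat 15724800, .negSucc 50372159, .ofNat 52078080, .negSucc 19590719, .ofNat 3169920]),
  (172341612, [.negSucc 27313919, .ofNat 82716480, .negSucc 85119359, .ofNat 32662080, .negSucc 5364479]),
  (172346155, [.negSucc 25459199, .ofNat 81582720, .negSucc 84403199, .ofNat 32622720, .negSucc 5364479]),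
  (172349221, [.negSucc 15275519, .ofNat 14125440, .negSucc 10285439, .ofNat 4176000, .negSucc 731519]),
  (172349739, [.negSucc 50918399, .ofNat 163165440, .negSucc 168806399, .ofNat 65245440, .negSucc 10728959]),
  (172349795, [.negSucc 25459199, .ofNat 81582720, .negSucc 84403199, .ofNat 32622720, .negSucc 5364479]),
  (172373868, [.negSucc 9838079, .ofNat 25111680, .negSucc 24161279, .ofNat 9029760, .negSucc 1463039]),
  (172374883, [.ofNat 23109120, .negSucc 60869759, .ofNat 57999360, .negSucc 21394559, .ofNat 3413760]),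
  (172377963, [.negSucc 14549759, .ofNat 40799040, .negSucc 40352639, .ofNat 15090240, .negSucc 2438399]),
  (172382429, [.ofNat 0, .negSucc 2903039, .ofNat 3580800, .negSucc 2522879, .ofNat 243840]),
  (172410604, [.negSucc 20828159, .ofNat 57776640, .negSucc 56543999, .ofNat 21150720, .negSucc 3413759]),
  (172411101, [.ofNat 783360, .negSucc 645119]),
  (172803948, [.ofNat 45599040, .negSucc 123173039, .ofNat 120622080, .negSucc 45664559, .ofNat 7376160]),
  (172804844, [.ofNat 0, .ofNat 2062080, .negSucc 3402239, .ofNat 990720, .negSucc 243839]),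
  (172804907, [.ofNat 39977280, .negSucc 105919919, .ofNat 103333440, .negSucc 38431919, .ofNat 6278880]),
  (172870245, [.ofNat 0, .negSucc 69119, .negSucc 218879, .ofNat 80640]),
  (172870413, [.ofNat 0, .negSucc 69119, .negSucc 218879, .ofNat 80640]),
  (172873829, [.ofNat 0, .negSucc 5356799, .ofNat 6685440, .negSucc 2883839, .ofNat 487680]),
  (172889964, [.ofNat 44239680, .negSucc 127333679, .ofNat 127249920, .negSucc 48511919, .ofNat 7863840]),
  (172890909, [.negSucc 45751679, .ofNat 130734240, .negSucc 133567679, .ofNat 50560800, .negSucc 8290559]),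
  (172899085, [.ofNat 0, .ofNat 7557120, .negSucc 9158399, .ofNat 3048960, .negSucc 487679]),
  (172899148, [.negSucc 28707839, .ofNat 77178240, .negSucc 78712319, .ofNat 29900160, .negSucc 4876799]),
  (172901227, [.negSucc 15333119, .ofNat 41444160, .negSucc 40352639, .ofNat 15090240, .negSucc 2438399]),
  (172903005, [.ofNat 10414080, .negSucc 28888319, .ofNat 28272000, .negSucc 10575359, .ofNat 1706880]),
  (172903117, [.ofNat 10414080, .negSucc 28888319, .ofNat 28272000, .negSucc 10575359, .ofNat 1706880]),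
  (172905245, [.negSucc 45751679, .ofNat 130734240, .negSucc 133567679, .ofNat 50560800, .negSucc 8290559]),
  (172906827, [.ofNat 76959360, .negSucc 226654559, .ofNat 233341440, .negSucc 89593439, .ofNat 14752320]),
  (172923179, [.ofNat 35089920, .negSucc 102142079, .ofNat 102766080, .negSucc 38966399, .ofNat 6339840]),
  (172931341, [.negSucc 15690239, .ofNat 40106880, .negSucc 45694079, .ofNat 18591360, .negSucc 3169919]),
  (172931404, [.negSucc 45751679, .ofNat 131644320, .negSucc 134174399, .ofNat 50668320, .negSucc 8290559]),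
  (172933868, [.ofNat 0, .ofNat 2062080, .negSucc 3402239, .ofNat 990720, .negSucc 243839]),
  (172934988, [.negSucc 45751679, .ofNat 131644320, .negSucc 134174399, .ofNat 50668320, .negSucc 8290559]),
  (172935779, [.negSucc 9630719, .ofNat 25017600, .negSucc 23735039, .ofNat 9066240, .negSucc 1463039]),
  (172935947, [.ofNat 57697920, .negSucc 169983839, .ofNat 178026240, .negSucc 67951199, .ofNat 11338560]),
  (172938019, [.negSucc 15333119, .ofNat 41444160, .negSucc 40352639, .ofNat 15090240, .negSucc 2438399]),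
  (172939531, [.ofNat 41448960, .negSucc 112429439, .ofNat 111571200, .negSucc 42057599, .ofNat 6827520]),
  (173061996, [.ofNat 783360, .negSucc 645119]),
  (173062941, [.ofNat 26035200, .negSucc 75215999, .ofNat 74987520, .negSucc 29132159, .ofNat 4632960]),
  (173070179, [.ofNat 17187840, .negSucc 72863999, .ofNat 80951040, .negSucc 32881919, .ofNat 5364480]),
  (173119851, [.ofNat 1359360, .ofNat 4160640, .negSucc 6627839, .ofNat 2847360, .negSucc 487679])]

/-- data -/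
def lV13x8 : List (ℕ × List ℤ) := [(173120285, [.ofNat 26035200, .negSucc 75215999, .ofNat 74987520, .negSucc 29132159, .ofNat 4632960]),
  (173120355, [.ofNat 19339200, .negSucc 86169359, .ofNat 93538560, .negSucc 37030799, .ofNat 6035040]),
  (173128300, [.negSucc 7413119, .ofNat 56391840, .negSucc 64604159, .ofNat 26213280, .negSucc 4267199]),
  (173132381, [.ofNat 26035200, .negSucc 75215999, .ofNat 74987520, .negSucc 29132159, .ofNat 4632960]),
  (173132395, [.ofNat 11926080, .negSucc 29777519, .ofNat 28934400, .negSucc 10817519, .ofNat 1767840]),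
  (173132493, [.negSucc 10304639, .ofNat 42564960, .negSucc 44897279, .ofNat 15961440, .negSucc 2560319]),
  (173132619, [.negSucc 9368639, .negSucc 8991119, .ofNat 14826240, .negSucc 7130639, .ofNat 1158240]),
  (173134621, [.ofNat 0, .ofNat 7130880, .negSucc 7592639, .ofNat 3830400, .negSucc 609599]),
  (173134635, [.ofNat 21764160, .negSucc 48823919, .ofNat 46210560, .negSucc 17111279, .ofNat 2743200]),
  (173134691, [.ofNat 11926080, .negSucc 32069999, .ofNat 31789440, .negSucc 12407279, .ofNat 2011680]),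
  (173135461, [.negSucc 29825279, .ofNat 45259200, .negSucc 41514239, .ofNat 15549120, .negSucc 2682239]),
  (173135468, [.negSucc 8063999, .ofNat 7582080, .negSucc 2522879, .ofNat 17280, .negSucc 121919]),
  (173135979, [.ofNat 43528320, .negSucc 97647839, .ofNat 92421120, .negSucc 34222559, .ofNat 5486400]),
  (173136203, [.ofNat 0, .ofNat 1843200, .negSucc 3220319, .ofNat 888000, .negSucc 182879]),
  (173136476, [.negSucc 53749439, .ofNat 172990800, .negSucc 178391519, .ofNat 66018960, .negSucc 10607039]),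
  (173136483, [.negSucc 53749439, .ofNat 172990800, .negSucc 178391519, .ofNat 66018960, .negSucc 10607039]),
  (173159275, [.negSucc 9838079, .ofNat 25111680, .negSucc 24161279, .ofNat 9029760, .negSucc 1463039]),
  (173161165, [.ofNat 14549760, .negSucc 31133759, .ofNat 31228800, .negSucc 11373119, .ofNat 1950720]),
  (173161291, [.negSucc 11980799, .ofNat 41272320, .negSucc 44766719, .ofNat 17571840, .negSucc 2926079]),
  (173168235, [.ofNat 19946880, .negSucc 60408479, .ofNat 67061760, .negSucc 25441439, .ofNat 4267200]),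
  (173168459, [.ofNat 18587520, .negSucc 62725919, .ofNat 70469280, .negSucc 27400799, .ofNat 4572000]),
  (173184741, [.ofNat 9630720, .negSucc 29855999, .ofNat 30082560, .negSucc 12276479, .ofNat 1950720]),
  (173184811, [.negSucc 59351039, .ofNat 159851520, .negSucc 154814399, .ofNat 58277760, .negSucc 9387839]),
  (173184867, [.negSucc 49720319, .ofNat 129995520, .negSucc 124731839, .ofNat 46001280, .negSucc 7437119]),
  (173185756, [.negSucc 37238399, .ofNat 101651040, .negSucc 106118399, .ofNat 41762400, .negSucc 6949439]),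
  (173191965, [.ofNat 26035200, .negSucc 75215999, .ofNat 74987520, .negSucc 29132159, .ofNat 4632960]),
  (173192035, [.negSucc 314118719, .ofNat 1026512880, .negSucc 1063437599, .ofNat 390702000, .negSucc 63398399]),
  (173193323, [.ofNat 21764160, .negSucc 54203759, .ofNat 51816960, .negSucc 20106479, .ofNat 3230880]),
  (173193827, [.negSucc 32927039, .ofNat 102041520, .negSucc 109933919, .ofNat 40174320, .negSucc 6583679]),
  (173197005, [.negSucc 56643839, .ofNat 140744640, .negSucc 140371199, .ofNat 51975360, .negSucc 8534399]),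
  (173197131, [.ofNat 14549760, .negSucc 28553279, .ofNat 28233600, .negSucc 11488319, .ofNat 1950720]),
  (173201163, [.ofNat 26853120, .negSucc 69969599, .ofNat 65310720, .negSucc 23413439, .ofNat 3657600]),
  (173324524, [.ofNat 6229440, .negSucc 25309199, .ofNat 30954240, .negSucc 12404879, .ofNat 2133600]),
  (173324636, [.ofNat 6229440, .negSucc 25309199, .ofNat 30954240, .negSucc 12404879, .ofNat 2133600]),
  (173328171, [.negSucc 7413119, .ofNat 54099360, .negSucc 61749119, .ofNat 24623520, .negSucc 4023359]),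
  (173328227, [.ofNat 21764160, .negSucc 48823919, .ofNat 46210560, .negSucc 17111279, .ofNat 2743200]),
  (173381917, [.negSucc 20828159, .ofNat 57776640, .negSucc 56543999, .ofNat 21150720, .negSucc 3413759]),
  (173389925, [.negSucc 2142719, .ofNat 18453120, .negSucc 23460479, .ofNat 10131840, .negSucc 1706879]),
  (173392683, [.ofNat 20822400, .negSucc 65569439, .ofNat 62851200, .negSucc 22849439, .ofNat 3535680]),
  (173394251, [.negSucc 679679, .negSucc 2080319, .ofNat 3313920, .negSucc 1423679, .ofNat 243840]),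
  (173394699, [.negSucc 9630719, .ofNat 29856000, .negSucc 30082559, .ofNat 12276480, .negSucc 1950719]),
  (173398220, [.ofNat 0, .ofNat 2580480, .negSucc 2995199, .negSucc 115199]),
  (173398283, [.negSucc 2142719, .ofNat 35859840, .negSucc 44632319, .ofNat 17819520, .negSucc 2926079]),
  (173414173, [.ofNat 57398400, .negSucc 159149279, .ofNat 155782080, .negSucc 59007839, .ofNat 9509760]),
  (173421341, [.ofNat 57398400, .negSucc 159149279, .ofNat 155782080, .negSucc 59007839, .ofNat 9509760]),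
  (173426283, [.negSucc 42615359, .ofNat 117208560, .negSucc 119087999, .ofNat 44972400, .negSucc 7376159]),
  (173426507, [.negSucc 42615359, .ofNat 117208560, .negSucc 119087999, .ofNat 44972400, .negSucc 7376159]),
  (173430476, [.negSucc 15690239, .ofNat 40106880, .negSucc 45694079, .ofNat 18591360, .negSucc 3169919]),
  (173455627, [.ofNat 783360, .negSucc 645119]),
  (174414060, [.ofNat 59351040, .negSucc 160531199, .ofNat 155547840, .negSucc 58385279, .ofNat 9387840]),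
  (174443180, [.ofNat 0, .ofNat 1359360, .negSucc 1466879, .ofNat 215040]),
  (174467869, [.ofNat 0, .ofNat 3582720, .negSucc 4535039, .ofNat 1493760, .negSucc 243839]),
  (174467932, [.ofNat 0, .ofNat 3582720, .negSucc 4535039, .ofNat 1493760, .negSucc 243839]),
  (174467939, [.ofNat 26210880, .negSucc 86634479, .ofNat 89719680, .negSucc 35307119, .ofNat 5669280]),
  (174471852, [.ofNat 9630720, .negSucc 29855999, .ofNat 30082560, .negSucc 12276479, .ofNat 1950720]),
  (174471978, [.ofNat 2462400, .negSucc 30513359, .ofNat 35208000, .negSucc 13913039, .ofNat 2255520]),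
  (174472020, [.ofNat 175680, .negSucc 11418479, .ofNat 14732160, .negSucc 6174959, .ofNat 1036320]),
  (174472034, [.negSucc 11197439, .ofNat 40627200, .negSucc 44766719, .ofNat 17571840, .negSucc 2926079]),
  (174476010, [.ofNat 85239360, .negSucc 255477359, .ofNat 264449760, .negSucc 100950959, .ofNat 16581120]),
  (174478572, [.ofNat 0, .negSucc 679679, .ofNat 733440, .negSucc 107519]),
  (174478635, [.ofNat 0, .negSucc 3133439, .ofNat 3431040, .negSucc 1612799, .ofNat 243840]),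
  (174478684, [.ofNat 9630720, .negSucc 29855999, .ofNat 30082560, .negSucc 12276479, .ofNat 1950720]),
  (174479517, [.ofNat 0, .ofNat 2626560, .negSucc 3111359, .ofNat 735360, .negSucc 121919]),
  (174479594, [.ofNat 0, .negSucc 1221119, .ofNat 1082880, .negSucc 161279]),
  (174480028, [.ofNat 9630720, .negSucc 29855999, .ofNat 30082560, .negSucc 12276479, .ofNat 1950720]),
  (174500069, [.negSucc 64618559, .ofNat 186430320, .negSucc 190371839, .ofNat 72852720, .negSucc 12009119]),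
  (174500125, [.negSucc 64618559, .ofNat 186430320, .negSucc 190371839, .ofNat 72852720, .negSucc 12009119]),
  (174504213, [.negSucc 64618559, .ofNat 186430320, .negSucc 190371839, .ofNat 72852720, .negSucc 12009119]),
  (174504234, [.negSucc 11646719, .ofNat 28415040, .negSucc 22214399, .ofNat 8447040, .negSucc 1219199]),
  (174507307, [.ofNat 0, .negSucc 3133439, .ofNat 3431040, .negSucc 1612799, .ofNat 243840]),
  (174507356, [.ofNat 0, .negSucc 3133439, .ofNat 3431040, .negSucc 1612799, .ofNat 243840]),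
  (174507797, [.negSucc 64618559, .ofNat 186430320, .negSucc 190371839, .ofNat 72852720, .negSucc 12009119]),
  (174508266, [.negSucc 42353279, .ofNat 106696800, .negSucc 100390079, .ofNat 37993440, .negSucc 6095999]),
  (174512354, [.negSucc 21467519, .ofNat 53557920, .negSucc 53909759, .ofNat 20280480, .negSucc 3291839]),
  (174512410, [.negSucc 11646719, .ofNat 28415040, .negSucc 22214399, .ofNat 8447040, .negSucc 1219199]),
  (174643436, [.ofNat 18080640, .negSucc 27052319, .ofNat 18915840, .negSucc 6270239, .ofNat 975360]),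
  (174705484, [.ofNat 76959360, .negSucc 226654559, .ofNat 233341440, .negSucc 89593439, .ofNat 14752320]),
  (174709005, [.ofNat 0, .ofNat 12072960, .negSucc 11500799, .ofNat 4001280, .negSucc 487679]),
  (174725931, [.negSucc 8063999, .ofNat 14298240, .negSucc 10675199, .ofNat 3116160, .negSucc 609599]),
  (174725987, [.ofNat 15405120, .negSucc 44054639, .ofNat 44747520, .negSucc 16984559, .ofNat 2743200]),
  (174734156, [.ofNat 0, .ofNat 1843200, .negSucc 3220319, .ofNat 888000, .negSucc 182879]),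
  (174738125, [.negSucc 22141439, .ofNat 51152640, .negSucc 50407679, .ofNat 17867520, .negSucc 2926079]),
  (174740204, [.ofNat 0, .negSucc 3317759, .ofNat 3922560, .negSucc 1754879, .ofNat 243840]),
  (174740267, [.ofNat 0, .ofNat 1866240, .negSucc 2132159, .ofNat 493440, .negSucc 121919]),
  (174740316, [.ofNat 0, .negSucc 2764799, .ofNat 4181760, .negSucc 3440639, .ofNat 487680]),
  (174740323, [.ofNat 0, .negSucc 3916799, .ofNat 4782720, .negSucc 618239, .ofNat 243840]),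
  (174741611, [.ofNat 0, .ofNat 506880, .negSucc 665279, .ofNat 278400, .negSucc 121919]),
  (174758124, [.ofNat 18080640, .negSucc 27052319, .ofNat 18915840, .negSucc 6270239, .ofNat 975360]),
  (174758187, [.ofNat 4343040, .ofNat 2550720, .negSucc 4295039, .ofNat 3249600, .negSucc 609599]),
  (174766181, [.ofNat 0, .negSucc 207359, .negSucc 1720319, .ofNat 1451520, .negSucc 243839]),
  (174770269, [.negSucc 8063999, .ofNat 12938880, .negSucc 9208319, .ofNat 2901120, .negSucc 609599]),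
  (174774539, [.ofNat 14549760, .negSucc 31133759, .ofNat 31228800, .negSucc 11373119, .ofNat 1950720]),
  (174902058, [.ofNat 13052160, .negSucc 71194559, .ofNat 79489920, .negSucc 32971199, .ofNat 5364480]),
  (174905698, [.ofNat 0, .ofNat 12072960, .negSucc 11500799, .ofNat 4001280, .negSucc 487679]),
  (174988116, [.negSucc 45279359, .ofNat 100260960, .negSucc 96833279, .ofNat 35821920, .negSucc 5974079]),
  (174991973, [.ofNat 48749760, .negSucc 158657999, .ofNat 162582240, .negSucc 60007439, .ofNat 9631680]),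
  (174992141, [.ofNat 10414080, .negSucc 28888319, .ofNat 28272000, .negSucc 10575359, .ofNat 1706880]),
  (174992204, [.negSucc 65298239, .ofNat 184350000, .negSucc 187057919, .ofNat 71429040, .negSucc 11765279]),
  (175000149, [.negSucc 11646719, .ofNat 28415040, .negSucc 22214399, .ofNat 8447040, .negSucc 1219199]),
  (175002277, [.negSucc 15693119, .ofNat 34624560, .negSucc 32308799, .ofNat 11868720, .negSucc 1889759])]

/-- data -/
def lV13x9 : List (ℕ × List ℤ) := [(175002389, [.negSucc 329636159, .ofNat 1049718960, .negSucc 1081014239, .ofNat 396395760, .negSucc 64251839]),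
  (175002452, [.negSucc 64618559, .ofNat 186430320, .negSucc 190371839, .ofNat 72852720, .negSucc 12009119]),
  (175002893, [.ofNat 10414080, .negSucc 28888319, .ofNat 28272000, .negSucc 10575359, .ofNat 1706880]),
  (175003789, [.negSucc 19405439, .ofNat 36075360, .negSucc 30076799, .ofNat 8918880, .negSucc 1341119]),
  (175004258, [.ofNat 20828160, .negSucc 57776639, .ofNat 56544000, .negSucc 21150719, .ofNat 3413760]),
  (175004300, [.ofNat 5215680, .negSucc 24992399, .ofNat 29330400, .negSucc 11113679, .ofNat 1828800]),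
  (175020197, [.ofNat 9630720, .negSucc 29855999, .ofNat 30082560, .negSucc 12276479, .ofNat 1950720]),
  (175020204, [.negSucc 288083519, .ofNat 951296880, .negSucc 988450079, .ofNat 361569840, .negSucc 58765439]),
  (175024229, [.ofNat 19339200, .negSucc 86169359, .ofNat 93538560, .negSucc 37030799, .ofNat 6035040]),
  (175024397, [.ofNat 19339200, .negSucc 86169359, .ofNat 93538560, .negSucc 37030799, .ofNat 6035040]),
  (175024460, [.negSucc 5719679, .ofNat 11493600, .negSucc 11284319, .ofNat 3515040, .negSucc 548639]),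
  (175030956, [.ofNat 0, .ofNat 7130880, .negSucc 7592639, .ofNat 3830400, .negSucc 609599]),
  (175031061, [.ofNat 19339200, .negSucc 86169359, .ofNat 93538560, .negSucc 37030799, .ofNat 6035040]),
  (175031565, [.ofNat 15690240, .negSucc 40106879, .ofNat 45694080, .negSucc 18591359, .ofNat 3169920]),
  (175032461, [.ofNat 9630720, .negSucc 29855999, .ofNat 30082560, .negSucc 12276479, .ofNat 1950720]),
  (175032650, [.ofNat 3744000, .negSucc 9099839, .ofNat 7311360, .negSucc 2018879, .ofNat 243840]),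
  (175032930, [.ofNat 0, .negSucc 2292479, .ofNat 2855040, .negSucc 1589759, .ofNat 243840]),
  (175032972, [.negSucc 17832959, .ofNat 67983360, .negSucc 79602239, .ofNat 34143360, .negSucc 5730239]),
  (175033098, [.ofNat 9630720, .negSucc 49497599, .ofNat 49843200, .negSucc 19361279, .ofNat 2926080]),
  (175155997, [.ofNat 0, .negSucc 6278399, .ofNat 7328640, .negSucc 3121919, .ofNat 487680]),
  (175156011, [.ofNat 0, .ofNat 7130880, .negSucc 7592639, .ofNat 3830400, .negSucc 609599]),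
  (175156060, [.ofNat 0, .ofNat 2062080, .negSucc 3402239, .ofNat 990720, .negSucc 243839]),
  (175159973, [.ofNat 0, .negSucc 3023999, .ofNat 2628480, .negSucc 508799, .negSucc 121919]),
  (175160106, [.ofNat 2462400, .negSucc 30513359, .ofNat 35208000, .negSucc 13913039, .ofNat 2255520]),
  (175164250, [.negSucc 12625919, .ofNat 36276480, .negSucc 43916159, .ofNat 18347520, .negSucc 3169919]),
  (175166693, [.ofNat 0, .negSucc 2741759, .ofNat 3369600, .negSucc 1582079, .ofNat 243840]),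
  (175166700, [.ofNat 18080640, .negSucc 27052319, .ofNat 18915840, .negSucc 6270239, .ofNat 975360]),
  (175166749, [.ofNat 0, .negSucc 6278399, .ofNat 7328640, .negSucc 3121919, .ofNat 487680]),
  (175166763, [.ofNat 0, .ofNat 3582720, .negSucc 4535039, .ofNat 1493760, .negSucc 243839]),
  (175167141, [.ofNat 0, .negSucc 322559, .negSucc 715199, .ofNat 332160, .negSucc 121919]),
  (175167148, [.ofNat 0, .negSucc 322559, .negSucc 715199, .ofNat 332160, .negSucc 121919]),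
  (175167253, [.ofNat 0, .negSucc 2511359, .ofNat 2072640, .negSucc 2613119, .ofNat 365760]),
  (175167274, [.ofNat 0, .ofNat 3409920, .negSucc 3667199, .ofNat 1981440, .negSucc 243839]),
  (175167316, [.ofNat 0, .negSucc 7511039, .ofNat 7635840, .negSucc 4719359, .ofNat 731520]),
  (175167330, [.ofNat 0, .negSucc 5379839, .ofNat 5606400, .negSucc 2995199, .ofNat 487680]),
  (175167722, [.negSucc 307163519, .ofNat 996101280, .negSucc 1040058239, .ofNat 380952480, .negSucc 61813439]),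
  (175167827, [.ofNat 0, .negSucc 1843199, .ofNat 1709760, .negSucc 1123199, .ofNat 121920]),
  (175168275, [.ofNat 0, .ofNat 3260160, .negSucc 5250239, .ofNat 1825920, .negSucc 365759]),
  (175196779, [.ofNat 0, .ofNat 1451520, .negSucc 3522239, .ofNat 2171520, .negSucc 365759]),
  (175198949, [.ofNat 0, .negSucc 5765759, .ofNat 5998080, .negSucc 2090879, .ofNat 121920]),
  (175198956, [.negSucc 15693119, .ofNat 34624560, .negSucc 32308799, .ofNat 11868720, .negSucc 1889759]),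
  (175199845, [.ofNat 0, .negSucc 3023999, .ofNat 2628480, .negSucc 508799, .negSucc 121919]),
  (175199852, [.negSucc 8063999, .ofNat 12938880, .negSucc 9208319, .ofNat 2901120, .negSucc 609599]),
  (175200587, [.ofNat 0, .negSucc 1520639, .ofNat 2424960, .negSucc 1455359, .ofNat 243840]),
  (175200972, [.negSucc 285572159, .ofNat 933803760, .negSucc 968496479, .ofNat 354058800, .negSucc 57424319]),
  (175217317, [.ofNat 0, .negSucc 5765759, .ofNat 5998080, .negSucc 2090879, .ofNat 121920]),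
  (175217506, [.ofNat 18564480, .negSucc 58453919, .ofNat 58775040, .negSucc 23970719, .ofNat 3779520]),
  (175221349, [.ofNat 48749760, .negSucc 161399759, .ofNat 165951840, .negSucc 61589519, .ofNat 9875520]),
  (175232332, [.ofNat 0, .negSucc 12072959, .ofNat 11500800, .negSucc 4001279, .ofNat 487680]),
  (175233676, [.negSucc 14653439, .ofNat 77719680, .negSucc 86551679, .ofNat 34243200, .negSucc 5608319]),
  (175233802, [.negSucc 10304639, .ofNat 42564960, .negSucc 44897279, .ofNat 15961440, .negSucc 2560319]),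
  (175250259, [.negSucc 5495039, .ofNat 16332480, .negSucc 16191359, .ofNat 6060480, .negSucc 975359]),
  (175250266, [.negSucc 783359, .ofNat 645120]),
  (175264602, [.negSucc 3712319, .ofNat 1450800, .ofNat 2232000, .negSucc 2949839, .ofNat 548640]),
  (175264973, [.ofNat 77448960, .negSucc 280203839, .ofNat 298219680, .negSucc 111004799, .ofNat 18348960]),
  (175265099, [.ofNat 77448960, .negSucc 280203839, .ofNat 298219680, .negSucc 111004799, .ofNat 18348960]),
  (175265386, [.ofNat 44239680, .negSucc 127333679, .ofNat 127249920, .negSucc 48511919, .ofNat 7863840]),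
  (175265610, [.ofNat 15724800, .negSucc 50372159, .ofNat 52078080, .negSucc 19590719, .ofNat 3169920]),
  (175281388, [.ofNat 18080640, .negSucc 27052319, .ofNat 18915840, .negSucc 6270239, .ofNat 975360]),
  (175281500, [.ofNat 0, .ofNat 2741760, .negSucc 3369599, .ofNat 1582080, .negSucc 243839]),
  (175281507, [.negSucc 18080639, .ofNat 17663520, .negSucc 7486079, .ofNat 2361120, .negSucc 243839]),
  (175281836, [.ofNat 59860800, .negSucc 171443759, .ofNat 170696160, .negSucc 64855919, .ofNat 10607040]),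
  (175282004, [.ofNat 0, .ofNat 3974400, .negSucc 4471679, .ofNat 664320, .negSucc 243839]),
  (175282333, [.ofNat 0, .negSucc 910079, .ofNat 606720, .negSucc 107519]),
  (175282347, [.negSucc 8063999, .ofNat 15461760, .negSucc 13329599, .ofNat 3632640, .negSucc 975359]),
  (175282410, [.negSucc 313058879, .ofNat 1019013360, .negSucc 1066074719, .ofNat 390642480, .negSucc 63398399]),
  (175282515, [.ofNat 59860800, .negSucc 171443759, .ofNat 170696160, .negSucc 64855919, .ofNat 10607040]),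
  (175282844, [.negSucc 18080639, .ofNat 17663520, .negSucc 7486079, .ofNat 2361120, .negSucc 243839]),
  (175285021, [.ofNat 0, .ofNat 3974400, .negSucc 4471679, .ofNat 664320, .negSucc 243839]),
  (175285035, [.ofNat 0, .ofNat 4999680, .negSucc 5563199, .ofNat 2106240, .negSucc 365759]),
  (175285868, [.ofNat 0, .negSucc 2741759, .ofNat 3369600, .negSucc 1582079, .ofNat 243840]),
  (175286092, [.ofNat 0, .negSucc 1451519, .ofNat 350400, .ofNat 67200, .negSucc 121919]),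
  (175286379, [.ofNat 0, .negSucc 2903039, .ofNat 700800, .ofNat 134400, .negSucc 243839]),
  (175286876, [.ofNat 0, .negSucc 2741759, .ofNat 3369600, .negSucc 1582079, .ofNat 243840]),
  (175286988, [.ofNat 0, .negSucc 13524479, .ofNat 11851200, .negSucc 3934079, .ofNat 365760]),
  (175288997, [.ofNat 0, .ofNat 4331520, .negSucc 4895039, .ofNat 2025600, .negSucc 365759]),
  (175289130, [.ofNat 0, .negSucc 1451519, .ofNat 350400, .ofNat 67200, .negSucc 121919]),
  (175289172, [.negSucc 15693119, .ofNat 34624560, .negSucc 32308799, .ofNat 11868720, .negSucc 1889759]),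
  (175289186, [.negSucc 59351039, .ofNat 159851520, .negSucc 154814399, .ofNat 58277760, .negSucc 9387839]),
  (175289445, [.ofNat 0, .ofNat 4101120, .negSucc 5021759, .ofNat 2025600, .negSucc 365759]),
  (175289613, [.negSucc 313058879, .ofNat 1018103280, .negSucc 1065467999, .ofNat 390534960, .negSucc 63398399]),
  (175290453, [.ofNat 0, .ofNat 3974400, .negSucc 4471679, .ofNat 664320, .negSucc 243839]),
  (175290509, [.ofNat 59351040, .negSucc 160531199, .ofNat 155547840, .negSucc 58385279, .ofNat 9387840]),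
  (175293085, [.ofNat 0, .ofNat 4101120, .negSucc 5021759, .ofNat 2025600, .negSucc 365759]),
  (175293099, [.ofNat 0, .negSucc 2131199, .ofNat 2029440, .negSucc 1724159, .ofNat 243840]),
  (175293533, [.ofNat 0, .ofNat 5011200, .negSucc 5628479, .ofNat 2133120, .negSucc 365759]),
  (175293645, [.ofNat 77448960, .negSucc 280203839, .ofNat 298219680, .negSucc 111004799, .ofNat 18348960]),
  (175293771, [.ofNat 77448960, .negSucc 279143999, .ofNat 297649440, .negSucc 112575359, .ofNat 18592800]),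
  (175297740, [.negSucc 314118719, .ofNat 1026512880, .negSucc 1063437599, .ofNat 390702000, .negSucc 63398399]),
  (175298314, [.negSucc 11197439, .ofNat 40627200, .negSucc 44766719, .ofNat 17571840, .negSucc 2926079]),
  (175421612, [.ofNat 0, .negSucc 6675839, .ofNat 6604800, .negSucc 2198399, .ofNat 121920]),
  (175424797, [.ofNat 0, .ofNat 2741760, .negSucc 3369599, .ofNat 1582080, .negSucc 243839]),
  (175424860, [.ofNat 0, .ofNat 2741760, .negSucc 3369599, .ofNat 1582080, .negSucc 243839]),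
  (175424867, [.ofNat 0, .negSucc 6675839, .ofNat 6604800, .negSucc 2198399, .ofNat 121920]),
  (175425301, [.ofNat 0, .ofNat 4999680, .negSucc 5563199, .ofNat 2106240, .negSucc 365759]),
  (175425322, [.ofNat 0, .ofNat 3409920, .negSucc 3667199, .ofNat 1981440, .negSucc 243839]),
  (175425378, [.ofNat 0, .negSucc 5379839, .ofNat 5606400, .negSucc 2995199, .ofNat 487680]),
  (175454309, [.ofNat 48749760, .negSucc 157252559, .ofNat 160553760, .negSucc 59433359, .ofNat 9509760]),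
  (175457004, [.ofNat 0, .negSucc 6675839, .ofNat 6604800, .negSucc 2198399, .ofNat 121920]),
  (175457893, [.ofNat 48749760, .negSucc 158657999, .ofNat 162582240, .negSucc 60007439, .ofNat 9631680])]

/-- data -/
def lV13x10 : List (ℕ × List ℤ) := [(175458635, [.negSucc 5895359, .ofNat 22912080, .negSucc 26016479, .ofNat 9690000, .negSucc 1584959]),
  (175459083, [.negSucc 307163519, .ofNat 996101280, .negSucc 1040058239, .ofNat 380952480, .negSucc 61813439]),
  (175462492, [.ofNat 0, .negSucc 4285439, .ofNat 4913280, .negSucc 1455359, .ofNat 243840]),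
  (175478956, [.ofNat 0, .negSucc 18748799, .ofNat 18105600, .negSucc 6199679, .ofNat 609600]),
  (175482981, [.ofNat 0, .ofNat 207360, .negSucc 489599, .ofNat 2330880, .negSucc 243839]),
  (175489890, [.negSucc 307163519, .ofNat 996101280, .negSucc 1040058239, .ofNat 380952480, .negSucc 61813439]),
  (175495434, [.ofNat 3064320, .negSucc 3830399, .ofNat 1777920, .negSucc 243839]),
  (175510813, [.ofNat 0, .negSucc 2741759, .ofNat 3369600, .negSucc 1582079, .ofNat 243840]),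
  (175510876, [.ofNat 0, .ofNat 2741760, .negSucc 3369599, .ofNat 1582080, .negSucc 243839]),
  (175510883, [.ofNat 0, .ofNat 3133440, .negSucc 3431039, .ofNat 1612800, .negSucc 243839]),
  (175511317, [.ofNat 0, .negSucc 2741759, .ofNat 3369600, .negSucc 1582079, .ofNat 243840]),
  (175512220, [.negSucc 154880639, .ofNat 462620640, .negSucc 467331359, .ofNat 173778720, .negSucc 28224479]),
  (175512227, [.ofNat 0, .ofNat 5011200, .negSucc 5628479, .ofNat 2133120, .negSucc 365759]),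
  (175512290, [.ofNat 0, .ofNat 3133440, .negSucc 3431039, .ofNat 1612800, .negSucc 243839]),
  (175514460, [.ofNat 0, .ofNat 668160, .negSucc 297599, .ofNat 399360]),
  (175515237, [.ofNat 0, .ofNat 1002240, .negSucc 1401599, .negSucc 111359]),
  (175515979, [.ofNat 0, .ofNat 3133440, .negSucc 3431039, .ofNat 1612800, .negSucc 243839]),
  (175516252, [.ofNat 0, .negSucc 2741759, .ofNat 3369600, .negSucc 1582079, .ofNat 243840]),
  (175516259, [.negSucc 53749439, .ofNat 172990800, .negSucc 178391519, .ofNat 66018960, .negSucc 10607039]),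
  (175516427, [.ofNat 0, .ofNat 3133440, .negSucc 3431039, .ofNat 1612800, .negSucc 243839]),
  (175518373, [.negSucc 15693119, .ofNat 33944880, .negSucc 31575359, .ofNat 11761200, .negSucc 1889759]),
  (175518380, [.ofNat 136800000, .negSucc 444957119, .ofNat 459845280, .negSucc 171417599, .ofNat 27980640]),
  (175518562, [.negSucc 59351039, .ofNat 159851520, .negSucc 154814399, .ofNat 58277760, .negSucc 9387839]),
  (175518989, [.negSucc 307163519, .ofNat 996101280, .negSucc 1040058239, .ofNat 380952480, .negSucc 61813439]),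
  (175519052, [.negSucc 154880639, .ofNat 462620640, .negSucc 467331359, .ofNat 173778720, .negSucc 28224479]),
  (175519850, [.ofNat 0, .ofNat 2580480, .negSucc 2995199, .negSucc 115199]),
  (175519885, [.ofNat 59351040, .negSucc 160531199, .ofNat 155547840, .negSucc 58385279, .ofNat 9387840]),
  (175520340, [.ofNat 0, .negSucc 2741759, .ofNat 3369600, .negSucc 1582079, .ofNat 243840]),
  (175522643, [.negSucc 8063999, .ofNat 12938880, .negSucc 9208319, .ofNat 2901120, .negSucc 609599]),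
  (175523147, [.ofNat 0, .ofNat 1843200, .negSucc 3220319, .ofNat 888000, .negSucc 182879]),
  (175526563, [.ofNat 0, .negSucc 2741759, .ofNat 3369600, .negSucc 1582079, .ofNat 243840]),
  (175526675, [.negSucc 8063999, .ofNat 9621120, .negSucc 5285759, .ofNat 1146240, .negSucc 365759]),
  (175527004, [.ofNat 136800000, .negSucc 444957119, .ofNat 459845280, .negSucc 171417599, .ofNat 27980640]),
  (175527011, [.ofNat 0, .ofNat 3133440, .negSucc 3431039, .ofNat 1612800, .negSucc 243839]),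
  (175544595, [.ofNat 15333120, .negSucc 41444159, .ofNat 40352640, .negSucc 15090239, .ofNat 2438400]),
  (175548508, [.negSucc 57398399, .ofNat 159149280, .negSucc 155782079, .ofNat 59007840, .negSucc 9509759]),
  (175548515, [.ofNat 39977280, .negSucc 105919919, .ofNat 103333440, .negSucc 38431919, .ofNat 6278880]),
  (175556362, [.negSucc 3634559, .negSucc 10197599, .ofNat 21680640, .negSucc 12555359, .ofNat 2072640]),
  (175556698, [.ofNat 783360, .negSucc 645119]),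
  (176503595, [.ofNat 0, .negSucc 3317759, .ofNat 3922560, .negSucc 1754879, .ofNat 243840]),
  (176532253, [.negSucc 154880639, .ofNat 466203360, .negSucc 471866399, .ofNat 175272480, .negSucc 28468319]),
  (176532316, [.negSucc 11646719, .ofNat 31997760, .negSucc 26749439, .ofNat 9940800, .negSucc 1463039]),
  (176536236, [.negSucc 314118719, .ofNat 1026512880, .negSucc 1063437599, .ofNat 390702000, .negSucc 63398399]),
  (176536362, [.ofNat 6416640, .negSucc 15038399, .ofNat 7987200, .negSucc 1878719, .ofNat 243840]),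
  (176540373, [.ofNat 4924800, .negSucc 61026719, .ofNat 70416000, .negSucc 27826079, .ofNat 4511040]),
  (176540499, [.ofNat 33825600, .negSucc 98445359, .ofNat 98977920, .negSucc 37936559, .ofNat 6156960]),
  (176542956, [.ofNat 0, .ofNat 910080, .negSucc 606719, .ofNat 107520]),
  (176543005, [.negSucc 59860799, .ofNat 168771120, .negSucc 167107679, .ofNat 63193200, .negSucc 10363199]),
  (176543068, [.ofNat 0, .ofNat 2741760, .negSucc 3369599, .ofNat 1582080, .negSucc 243839]),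
  (176543957, [.ofNat 2462400, .negSucc 30513359, .ofNat 35208000, .negSucc 13913039, .ofNat 2255520]),
  (176544419, [.negSucc 314118719, .ofNat 1026512880, .negSucc 1063437599, .ofNat 390702000, .negSucc 63398399]),
  (176568989, [.ofNat 54924480, .negSucc 130065359, .ofNat 123174240, .negSucc 43599119, .ofNat 6949440]),
  (176569045, [.negSucc 4426559, .ofNat 34751280, .negSucc 37286879, .ofNat 16241520, .negSucc 2682239]),
  (176576213, [.ofNat 0, .negSucc 5356799, .ofNat 6685440, .negSucc 2883839, .ofNat 487680]),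
  (176600349, [.ofNat 95019840, .negSucc 293849519, .ofNat 300223680, .negSucc 110585519, .ofNat 17861280]),
  (176600412, [.ofNat 0, .ofNat 2741760, .negSucc 3369599, .ofNat 1582080, .negSucc 243839]),
  (176600748, [.negSucc 314118719, .ofNat 1026512880, .negSucc 1063437599, .ofNat 390702000, .negSucc 63398399]),
  (176600874, [.ofNat 0, .ofNat 1843200, .negSucc 3220319, .ofNat 888000, .negSucc 182879]),
  (176601245, [.ofNat 0, .negSucc 679679, .ofNat 733440, .negSucc 107519]),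
  (176601763, [.ofNat 0, .negSucc 6278399, .ofNat 7328640, .negSucc 3121919, .ofNat 487680]),
  (176601875, [.ofNat 0, .ofNat 2626560, .negSucc 3111359, .ofNat 735360, .negSucc 121919]),
  (176605018, [.negSucc 304701119, .ofNat 965587920, .negSucc 1004850239, .ofNat 367039440, .negSucc 59557919]),
  (176740188, [.ofNat 0, .ofNat 1359360, .negSucc 1466879, .ofNat 215040]),
  (176790252, [.ofNat 0, .negSucc 6796799, .ofNat 8394240, .negSucc 2741759, .ofNat 487680]),
  (176798477, [.negSucc 15690239, .ofNat 40106880, .negSucc 45694079, .ofNat 18591360, .negSucc 3169919]),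
  (176798540, [.ofNat 0, .ofNat 1843200, .negSucc 3220319, .ofNat 888000, .negSucc 182879]),
  (176804637, [.ofNat 95019840, .negSucc 296591279, .ofNat 303593280, .negSucc 112167599, .ofNat 18105120]),
  (176806093, [.negSucc 304701119, .ofNat 965587920, .negSucc 1004850239, .ofNat 367039440, .negSucc 59557919]),
  (176806492, [.negSucc 32927039, .ofNat 107421360, .negSucc 115540319, .ofNat 43169520, .negSucc 7071359]),
  (176831307, [.ofNat 18564480, .negSucc 58453919, .ofNat 58775040, .negSucc 23970719, .ofNat 3779520]),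
  (176838251, [.ofNat 0, .negSucc 69119, .negSucc 218879, .ofNat 80640]),
  (176838349, [.ofNat 23849280, .negSucc 71724719, .ofNat 78248640, .negSucc 30006959, .ofNat 5059680]),
  (176838475, [.ofNat 0, .negSucc 69119, .negSucc 218879, .ofNat 80640]),
  (176854764, [.ofNat 39977280, .negSucc 105919919, .ofNat 103333440, .negSucc 38431919, .ofNat 6278880]),
  (176861981, [.negSucc 59860799, .ofNat 166029360, .negSucc 163738079, .ofNat 61611120, .negSucc 10119359]),
  (176862044, [.ofNat 0, .ofNat 1866240, .negSucc 2132159, .ofNat 493440, .negSucc 121919]),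
  (176863339, [.ofNat 0, .negSucc 5379839, .ofNat 5606400, .negSucc 2995199, .ofNat 487680]),
  (176863836, [.ofNat 0, .ofNat 1866240, .negSucc 2132159, .ofNat 493440, .negSucc 121919]),
  (176863843, [.ofNat 0, .negSucc 5379839, .ofNat 5606400, .negSucc 2995199, .ofNat 487680]),
  (176995170, [.negSucc 21467519, .ofNat 53557920, .negSucc 53909759, .ofNat 20280480, .negSucc 3291839]),
  (176999069, [.negSucc 3064319, .ofNat 6940800, .negSucc 5999999, .ofNat 1779840, .negSucc 243839]),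
  (176999125, [.negSucc 601919, .negSucc 23572559, .ofNat 29208000, .negSucc 12133199, .ofNat 2011680]),
  (176999251, [.ofNat 33825600, .negSucc 98445359, .ofNat 98977920, .negSucc 37936559, .ofNat 6156960]),
  (177001757, [.ofNat 0, .negSucc 3133439, .ofNat 3431040, .negSucc 1612799, .ofNat 243840]),
  (177001771, [.ofNat 0, .ofNat 2741760, .negSucc 3369599, .ofNat 1582080, .negSucc 243839]),
  (177002653, [.ofNat 0, .ofNat 276480, .negSucc 236159, .ofNat 368640]),
  (177002709, [.ofNat 0, .negSucc 1002239, .negSucc 747839, .negSucc 259199, .negSucc 121919]),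
  (177034027, [.negSucc 154880639, .ofNat 462620640, .negSucc 467331359, .ofNat 173778720, .negSucc 28224479]),
  (177034853, [.ofNat 0, .ofNat 3582720, .negSucc 4535039, .ofNat 1493760, .negSucc 243839]),
  (177056357, [.negSucc 42615359, .ofNat 117208560, .negSucc 119087999, .ofNat 44972400, .negSucc 7376159]),
  (177056525, [.negSucc 42615359, .ofNat 117208560, .negSucc 119087999, .ofNat 44972400, .negSucc 7376159]),
  (177085085, [.ofNat 0, .ofNat 2741760, .negSucc 3369599, .ofNat 1582080, .negSucc 243839]),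
  (177085274, [.negSucc 14549759, .ofNat 41432640, .negSucc 42238079, .ofNat 15059520, .negSucc 2438399]),
  (177099477, [.ofNat 0, .negSucc 2741759, .ofNat 3369600, .negSucc 1582079, .ofNat 243840]),
  (177099610, [.ofNat 77448960, .negSucc 281678399, .ofNat 299072160, .negSucc 111004799, .ofNat 18348960]),
  (177101402, [.ofNat 77448960, .negSucc 280203839, .ofNat 298219680, .negSucc 111004799, .ofNat 18348960]),
  (177101514, [.ofNat 0, .negSucc 2903039, .ofNat 3580800, .negSucc 2522879, .ofNat 243840]),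
  (177116459, [.ofNat 0, .ofNat 2741760, .negSucc 3369599, .ofNat 1582080, .negSucc 243839]),
  (177116844, [.ofNat 59860800, .negSucc 171443759, .ofNat 170696160, .negSucc 64855919, .ofNat 10607040]),
  (177116970, [.ofNat 0, .ofNat 1843200, .negSucc 3220319, .ofNat 888000, .negSucc 182879])]

/-- data -/
def lV13x11 : List (ℕ × List ℤ) := [(177117523, [.ofNat 59860800, .negSucc 171443759, .ofNat 170696160, .negSucc 64855919, .ofNat 10607040]),
  (177119980, [.negSucc 53749439, .ofNat 172990800, .negSucc 178391519, .ofNat 66018960, .negSucc 10607039]),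
  (177121387, [.ofNat 0, .ofNat 2062080, .negSucc 3402239, .ofNat 990720, .negSucc 243839]),
  (177124138, [.ofNat 0, .negSucc 1451519, .ofNat 350400, .ofNat 67200, .negSucc 121919]),
  (177130074, [.ofNat 0, .ofNat 7557120, .negSucc 9158399, .ofNat 3048960, .negSucc 487679]),
  (177314461, [.negSucc 42615359, .ofNat 117208560, .negSucc 119087999, .ofNat 44972400, .negSucc 7376159]),
  (177314517, [.negSucc 42615359, .ofNat 117208560, .negSucc 119087999, .ofNat 44972400, .negSucc 7376159]),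
  (177328986, [.negSucc 16369919, .ofNat 53739840, .negSucc 45248639, .ofNat 14733120, .negSucc 1950719]),
  (177330778, [.ofNat 15724800, .negSucc 50372159, .ofNat 52078080, .negSucc 19590719, .ofNat 3169920]),
  (177517804, [.ofNat 0, .negSucc 3317759, .ofNat 3922560, .negSucc 1754879, .ofNat 243840]),
  (177517916, [.negSucc 53749439, .ofNat 169857360, .negSucc 174960479, .ofNat 64406160, .negSucc 10363199]),
  (177518805, [.ofNat 0, .ofNat 2062080, .negSucc 3402239, .ofNat 990720, .negSucc 243839]),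
  (177519267, [.ofNat 0, .negSucc 6278399, .ofNat 7328640, .negSucc 3121919, .ofNat 487680]),
  (177551691, [.ofNat 0, .negSucc 322559, .negSucc 715199, .ofNat 332160, .negSucc 121919]),
  (177575260, [.negSucc 53749439, .ofNat 169857360, .negSucc 174960479, .ofNat 64406160, .negSucc 10363199]),
  (177575596, [.ofNat 0, .negSucc 2741759, .ofNat 3369600, .negSucc 1582079, .ofNat 243840]),
  (177576149, [.ofNat 0, .ofNat 5011200, .negSucc 5628479, .ofNat 2133120, .negSucc 365759]),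
  (177578844, [.ofNat 0, .ofNat 668160, .negSucc 297599, .ofNat 399360]),
  (177579621, [.ofNat 0, .ofNat 1002240, .negSucc 1401599, .negSucc 111359]),
  (177580363, [.ofNat 0, .ofNat 3133440, .negSucc 3431039, .ofNat 1612800, .negSucc 243839]),
  (177587307, [.ofNat 0, .negSucc 2741759, .ofNat 3369600, .negSucc 1582079, .ofNat 243840]),
  (177587531, [.ofNat 0, .ofNat 1843200, .negSucc 3220319, .ofNat 888000, .negSucc 182879]),
  (177590947, [.ofNat 0, .negSucc 2741759, .ofNat 3369600, .negSucc 1582079, .ofNat 243840]),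
  (177615517, [.negSucc 15693119, .ofNat 34624560, .negSucc 32308799, .ofNat 11868720, .negSucc 1889759]),
  (177615979, [.ofNat 0, .ofNat 2419200, .negSucc 4084799, .ofNat 1914240, .negSucc 365759]),
  (177616203, [.ofNat 77448960, .negSucc 280203839, .ofNat 298219680, .negSucc 111004799, .ofNat 18348960]),
  (177624778, [.ofNat 20828160, .negSucc 52419839, .ofNat 49858560, .negSucc 18266879, .ofNat 2926080]),
  (177649754, [.ofNat 783360, .negSucc 645119]),
  (178633058, [.negSucc 56643839, .ofNat 140744640, .negSucc 140371199, .ofNat 51975360, .negSucc 8534399]),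
  (178636957, [.ofNat 9293760, .negSucc 32249999, .ofNat 36954240, .negSucc 14184719, .ofNat 2377440]),
  (178665314, [.ofNat 9293760, .negSucc 32249999, .ofNat 36954240, .negSucc 14184719, .ofNat 2377440]),
  (178899275, [.ofNat 22187520, .negSucc 44446079, .ofNat 40696320, .negSucc 14739839, .ofNat 2438400]),
  (179091754, [.negSucc 28707839, .ofNat 77178240, .negSucc 78712319, .ofNat 29900160, .negSucc 4876799]),
  (179094764, [.ofNat 0, .ofNat 910080, .negSucc 606719, .ofNat 107520]),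
  (179094876, [.ofNat 0, .ofNat 2741760, .negSucc 3369599, .ofNat 1582080, .negSucc 243839]),
  (179095709, [.ofNat 0, .ofNat 3260160, .negSucc 5250239, .ofNat 1825920, .negSucc 365759]),
  (179096339, [.ofNat 0, .negSucc 2741759, .ofNat 3369600, .negSucc 1582079, .ofNat 243840]),
  (179149098, [.ofNat 5215680, .negSucc 24992399, .ofNat 29330400, .negSucc 11113679, .ofNat 1828800]),
  (179160333, [.ofNat 5215680, .negSucc 24992399, .ofNat 29330400, .negSucc 11113679, .ofNat 1828800]),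
  (179182243, [.ofNat 0, .ofNat 4101120, .negSucc 5021759, .ofNat 2025600, .negSucc 365759]),
  (179185771, [.ofNat 0, .ofNat 2062080, .negSucc 3402239, .ofNat 990720, .negSucc 243839]),
  (179188522, [.ofNat 0, .ofNat 910080, .negSucc 606719, .ofNat 107520]),
  (179194458, [.ofNat 63794880, .negSucc 211110479, .ofNat 217974240, .negSucc 81021839, .ofNat 13045440]),
  (179197524, [.ofNat 48749760, .negSucc 154556879, .ofNat 157560480, .negSucc 57981839, .ofNat 9265920]),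
  (179226196, [.ofNat 0, .ofNat 7557120, .negSucc 9158399, .ofNat 3048960, .negSucc 487679]),
  (179226826, [.ofNat 14549760, .negSucc 31133759, .ofNat 31228800, .negSucc 11373119, .ofNat 1950720]),
  (179353442, [.ofNat 77448960, .negSucc 280203839, .ofNat 298219680, .negSucc 111004799, .ofNat 18348960]),
  (179354387, [.ofNat 0, .ofNat 668160, .negSucc 297599, .ofNat 399360]),
  (179411101, [.ofNat 48749760, .negSucc 160109519, .ofNat 162932640, .negSucc 59940239, .ofNat 9509760]),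
  (179414797, [.ofNat 48749760, .negSucc 158657999, .ofNat 162582240, .negSucc 60007439, .ofNat 9631680]),
  (179421909, [.ofNat 0, .ofNat 7557120, .negSucc 9158399, .ofNat 3048960, .negSucc 487679]),
  (179488458, [.negSucc 37238399, .ofNat 104669280, .negSucc 110294399, .ofNat 43056480, .negSucc 7193279])]

/-- the sum of the part -/
def lV13 : List (ℕ × List ℤ) := lV13x0 ++ (lV13x1 ++ (lV13x2 ++ (lV13x3 ++ (lV13x4 ++ (lV13x5 ++ (lV13x6 ++ (lV13x7 ++ (lV13x8 ++ (lV13x9 ++ (lV13x10 ++ (lV13x11)))))))))))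

theorem okV13 : dV13.all (rok tbF 20) = true := by decide +kernel

theorem sumV13 : aeq (fz (sumT tbF dV13)) lV13 = true := by decide +kernel

end Pool.Agent.H.MP_e16c79_al.IS
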