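import Pool.Agent.H.MP_e16c79_al.IS.BTabE

/-!
# MP_e16c79_al: certificate V, part 14
-/

set_option autoImplicit false

namespace Pool.Agent.H.MP_e16c79_al.IS

/-- data -/
def dV14x0 : RT := (.nd (.nd (.lf ⟨[.ofNat 4338720, .negSucc 12778679, .ofNat 13188000, .negSucc 5048759, .ofNat 822960], (.tw (.lf 9) (.tr (.lf 6) (.tr (.dx 0 (.tw (.lf 5) (.lf 17))) (.tw (.lf 13) (.lf 14)) (.lf 10)) (.lf 18))), 0, [34, 34, 34, 34, 3, 34, 3, 34, 9, 9, 9, 9, 28, 33, 28, 33], [34, 34, 34, 34, 9, 9, 28, 28]⟩)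
    (.nd (.lf ⟨[.ofNat 0, .ofNat 11543040, .negSucc 75619199, .ofNat 89120640, .negSucc 36201599, .ofNat 6096000], (.tw (.lf 9) (.tr (.lf 5) (.tr (.lf 13) (.dx 0 .on) (.tr (.lf 6) (.lf 19) (.lf 10))) (.lf 14))), 0, [34, 19, 23, 23, 6, 17, 25, 6], [34, 19, 23, 23, 6, 17, 25, 6]⟩)
    (.lf ⟨[.ofNat 0, .negSucc 9884159, .ofNat 74398080, .negSucc 89258879, .ofNat 36201600, .negSucc 6095999], (.tw (.lf 9) (.tr (.lf 5) (.tr (.lf 6) (.lf 19) (.tr (.lf 10) (.dx 0 .on) (.lf 13))) (.lf 14))), 0, [23, 34, 34, 19, 25, 6, 17, 17], [23, 34, 34, 19, 25, 6, 17, 17]⟩)))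
    (.nd (.nd (.lf ⟨[.ofNat 0, .ofNat 1405440, .negSucc 2609279, .ofNat 1432320, .negSucc 243839], (.tw (.lf 13) (.tr (.lf 9) (.tr (.lf 10) (.dx 0 (.lf 5)) (.tr (.lf 14) (.lf 6) (.lf 17))) (.lf 18))), 0, [27, 36, 36, 15, 29, 4, 13, 13], [27, 36, 36, 15, 29, 4, 13, 13]⟩)
    (.lf ⟨[.ofNat 0, .ofNat 783360, .negSucc 645119], (.tw (.lf 9) (.tr (.lf 5) (.lf 13) (.tr (.dx 0 .on) (.lf 10) (.tr (.lf 14) (.lf 6) (.lf 19))))), 0, [27, 19, 21, 21, 12, 12, 25, 25], [27, 19, 21, 34, 12, 12, 25, 28]⟩))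
    (.nd (.lf ⟨[.ofNat 0, .negSucc 783359, .ofNat 645120], (.tw (.lf 13) (.tr (.lf 9) (.lf 17) (.tr (.lf 6) (.lf 14) (.tr (.dx 0 (.lf 5)) (.lf 10) (.lf 18))))), 0, [15, 1, 25, 25, 18, 18, 29, 29], [15, 21, 36, 25, 18, 18, 22, 29]⟩)
    (.lf ⟨[.ofNat 0, .negSucc 12072959, .ofNat 11500800, .negSucc 4001279, .ofNat 487680], (.tr (.lf 9) (.tr (.dx 0 .on) (.lf 5) (.tr (.lf 6) (.tw (.lf 10) (.lf 13)) (.lf 19))) (.lf 14)), 0, [5, 12, 19, 12, 34, 23, 28, 23], [5, 12, 19, 19, 34, 34, 28, 28]⟩))))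

/-- data -/
def dV14 : RT := dV14x0

/-- data -/
def lV14x0 : List (ℕ × List ℤ) := [(334123, [.ofNat 0, .negSucc 17354879, .ofNat 51114720, .negSucc 52751999, .ofNat 20195040, .negSucc 3291839]),
  (334684, [.ofNat 0, .negSucc 17354879, .ofNat 51114720, .negSucc 52751999, .ofNat 20195040, .negSucc 3291839]),
  (341858, [.ofNat 0, .negSucc 17354879, .ofNat 51114720, .negSucc 52751999, .ofNat 20195040, .negSucc 3291839]),
  (342860, [.ofNat 0, .negSucc 17354879, .ofNat 51114720, .negSucc 52751999, .ofNat 20195040, .negSucc 3291839]),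
  (2439531, [.ofNat 0, .ofNat 0, .negSucc 6128639, .ofNat 7660800, .negSucc 2588159, .ofNat 487680]),
  (2447595, [.ofNat 0, .ofNat 0, .negSucc 3064319, .ofNat 3830400, .negSucc 1294079, .ofNat 243840]),
  (2669333, [.ofNat 0, .ofNat 0, .negSucc 3064319, .ofNat 3830400, .negSucc 1294079, .ofNat 243840]),
  (2672300, [.ofNat 0, .ofNat 0, .ofNat 12072960, .negSucc 11500799, .ofNat 4001280, .negSucc 487679]),
  (2672364, [.ofNat 0, .ofNat 0, .ofNat 12072960, .negSucc 11500799, .ofNat 4001280, .negSucc 487679]),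
  (2676893, [.ofNat 0, .ofNat 0, .ofNat 12072960, .negSucc 11500799, .ofNat 4001280, .negSucc 487679]),
  (2677021, [.ofNat 0, .ofNat 0, .ofNat 12072960, .negSucc 11500799, .ofNat 4001280, .negSucc 487679]),
  (2706125, [.ofNat 0, .ofNat 0, .negSucc 3064319, .ofNat 3830400, .negSucc 1294079, .ofNat 243840]),
  (2738772, [.ofNat 0, .ofNat 0, .negSucc 6128639, .ofNat 7660800, .negSucc 2588159, .ofNat 487680]),
  (2758316, [.ofNat 0, .ofNat 0, .ofNat 12072960, .negSucc 11500799, .ofNat 4001280, .negSucc 487679]),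
  (2758380, [.ofNat 0, .ofNat 0, .ofNat 12072960, .negSucc 11500799, .ofNat 4001280, .negSucc 487679]),
  (2770539, [.ofNat 0, .ofNat 0, .ofNat 12072960, .negSucc 11500799, .ofNat 4001280, .negSucc 487679]),
  (2791581, [.ofNat 0, .ofNat 0, .ofNat 12072960, .negSucc 11500799, .ofNat 4001280, .negSucc 487679]),
  (2798861, [.ofNat 0, .ofNat 0, .negSucc 3064319, .ofNat 3830400, .negSucc 1294079, .ofNat 243840]),
  (19478891, [.ofNat 0, .ofNat 1658880, .negSucc 1221119, .negSucc 138239]),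
  (19486955, [.ofNat 0, .ofNat 11543040, .negSucc 75619199, .ofNat 89120640, .negSucc 36201599, .ofNat 6096000]),
  (19515755, [.ofNat 0, .ofNat 1658880, .negSucc 1221119, .negSucc 138239]),
  (19516258, [.ofNat 0, .ofNat 783360, .negSucc 645119]),
  (19580770, [.ofNat 0, .ofNat 783360, .negSucc 645119]),
  (19581163, [.ofNat 0, .negSucc 9884159, .ofNat 74398080, .negSucc 89258879, .ofNat 36201600, .negSucc 6095999]),
  (21347093, [.ofNat 0, .negSucc 9884159, .ofNat 74398080, .negSucc 89258879, .ofNat 36201600, .negSucc 6095999]),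
  (21354773, [.ofNat 0, .ofNat 11543040, .negSucc 75619199, .ofNat 89120640, .negSucc 36201599, .ofNat 6096000]),
  (21378412, [.ofNat 0, .negSucc 12072959, .ofNat 11500800, .negSucc 4001279, .ofNat 487680]),
  (21378924, [.ofNat 0, .negSucc 12072959, .ofNat 11500800, .negSucc 4001279, .ofNat 487680]),
  (21415133, [.ofNat 0, .negSucc 12072959, .ofNat 11500800, .negSucc 4001279, .ofNat 487680]),
  (21416157, [.ofNat 0, .negSucc 12072959, .ofNat 11500800, .negSucc 4001279, .ofNat 487680]),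
  (21543260, [.ofNat 0, .ofNat 783360, .negSucc 645119]),
  (21551324, [.ofNat 0, .ofNat 783360, .negSucc 645119]),
  (21644907, [.ofNat 0, .negSucc 12072959, .ofNat 11500800, .negSucc 4001279, .ofNat 487680]),
  (21646029, [.ofNat 0, .ofNat 11543040, .negSucc 75619199, .ofNat 89120640, .negSucc 36201599, .ofNat 6096000]),
  (21648995, [.ofNat 0, .negSucc 12072959, .ofNat 11500800, .negSucc 4001279, .ofNat 487680]),
  (21649101, [.ofNat 0, .negSucc 9884159, .ofNat 74398080, .negSucc 89258879, .ofNat 36201600, .negSucc 6095999]),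
  (21677675, [.ofNat 0, .negSucc 12072959, .ofNat 11500800, .negSucc 4001279, .ofNat 487680]),
  (21681763, [.ofNat 0, .negSucc 12072959, .ofNat 11500800, .negSucc 4001279, .ofNat 487680]),
  (21873772, [.ofNat 0, .ofNat 783360, .negSucc 645119]),
  (21875284, [.ofNat 0, .ofNat 2442240, .negSucc 1866239, .negSucc 138239]),
  (21912148, [.ofNat 0, .ofNat 2442240, .negSucc 1866239, .negSucc 138239]),
  (21940437, [.ofNat 0, .ofNat 783360, .negSucc 645119]),
  (22391053, [.ofNat 0, .negSucc 9884159, .ofNat 74398080, .negSucc 89258879, .ofNat 36201600, .negSucc 6095999]),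
  (22394125, [.ofNat 0, .ofNat 11543040, .negSucc 75619199, .ofNat 89120640, .negSucc 36201599, .ofNat 6096000]),
  (156117355, [.ofNat 0, .ofNat 1405440, .negSucc 2609279, .ofNat 1432320, .negSucc 243839]),
  (156318059, [.ofNat 0, .ofNat 1405440, .negSucc 2609279, .ofNat 1432320, .negSucc 243839]),
  (156326123, [.ofNat 0, .ofNat 1405440, .negSucc 2609279, .ofNat 1432320, .negSucc 243839]),
  (170740061, [.ofNat 8677440, .negSucc 25557359, .ofNat 26376000, .negSucc 10097519, .ofNat 1645920]),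
  (170744604, [.ofNat 8677440, .negSucc 25557359, .ofNat 26376000, .negSucc 10097519, .ofNat 1645920]),
  (170808668, [.ofNat 0, .negSucc 783359, .ofNat 645120]),
  (170837340, [.ofNat 0, .negSucc 783359, .ofNat 645120]),
  (170837781, [.ofNat 0, .ofNat 1405440, .negSucc 2609279, .ofNat 1432320, .negSucc 243839]),
  (171071147, [.ofNat 8677440, .negSucc 25557359, .ofNat 26376000, .negSucc 10097519, .ofNat 1645920]),
  (171268316, [.ofNat 0, .negSucc 783359, .ofNat 645120]),
  (171358364, [.ofNat 8677440, .negSucc 25557359, .ofNat 26376000, .negSucc 10097519, .ofNat 1645920]),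
  (173132493, [.ofNat 0, .ofNat 1405440, .negSucc 2609279, .ofNat 1432320, .negSucc 243839]),
  (174443362, [.ofNat 0, .negSucc 783359, .ofNat 645120]),
  (174734156, [.ofNat 8677440, .negSucc 25557359, .ofNat 26376000, .negSucc 10097519, .ofNat 1645920]),
  (175020386, [.ofNat 8677440, .negSucc 25557359, .ofNat 26376000, .negSucc 10097519, .ofNat 1645920]),
  (175031138, [.ofNat 8677440, .negSucc 25557359, .ofNat 26376000, .negSucc 10097519, .ofNat 1645920]),
  (175184620, [.ofNat 0, .negSucc 783359, .ofNat 645120]),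
  (175192908, [.ofNat 8677440, .negSucc 25557359, .ofNat 26376000, .negSucc 10097519, .ofNat 1645920]),
  (175290964, [.ofNat 0, .ofNat 622080, .negSucc 1964159, .ofNat 1432320, .negSucc 243839]),
  (175491668, [.ofNat 0, .ofNat 622080, .negSucc 1964159, .ofNat 1432320, .negSucc 243839]),
  (179189005, [.ofNat 0, .ofNat 1405440, .negSucc 2609279, .ofNat 1432320, .negSucc 243839]),
  (179410786, [.ofNat 0, .negSucc 783359, .ofNat 645120])]

/-- the sum of the part -/
def lV14 : List (ℕ × List ℤ) := lV14x0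

theorem okV14 : dV14.all (rok tbF 20) = true := by decide +kernel

theorem sumV14 : aeq (fz (sumT tbF dV14)) lV14 = true := by decide +kernel

end Pool.Agent.H.MP_e16c79_al.IS
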