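import Pool.Agent.H.MP_e16c79_al.IS.BTabE

/-!
# MP_e16c79_al: certificate V, part 2
-/

set_option autoImplicit false

namespace Pool.Agent.H.MP_e16c79_al.IS

/-- data -/
def dV2x0 : RT := (.nd (.nd (.nd (.lf ⟨[.ofNat 0, .ofNat 976320, .negSucc 15168719, .negSucc 4610399, .ofNat 21841200, .negSucc 10943039, .ofNat 2072640], (.tw (.dx 0 (.tr (.lf 15) (.tr (.lf 5) (.lf 9) (.lf 6)) (.lf 19))) (.lf 10)), 0, [10, 10, 13, 13], []⟩)
    (.lf ⟨[.ofNat 0, .ofNat 0, .negSucc 5518079, .ofNat 5466240, .negSucc 1893119, .ofNat 243840], (.tw (.lf 9) (.tr (.dx 1 (.lf 15)) (.lf 19) (.tr (.lf 1) (.lf 10) (.lf 2)))), 1, [21, 21, 12, 12], []⟩))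
    (.nd (.lf ⟨[.ofNat 0, .ofNat 0, .negSucc 610559, .ofNat 541440, .negSucc 80639], (.tr (.dx 1 (.tw (.lf 1) (.lf 15))) (.tr (.lf 9) (.lf 2) (.lf 10)) (.lf 19)), 1, [15, 15, 24, 24], []⟩)
    (.lf ⟨[.ofNat 0, .negSucc 1071359, .ofNat 12619200, .negSucc 4588799, .negSucc 7620479, .ofNat 5126400, .negSucc 1097279], (.tr (.dx 1 (.tr (.lf 1) (.lf 2) (.lf 15))) (.lf 19) (.tw (.lf 9) (.lf 10))), 1, [29, 29, 29, 29], []⟩)))
    (.nd (.nd (.lf ⟨[.ofNat 0, .negSucc 6203519, .negSucc 306719, .ofNat 15048480, .negSucc 18149279, .ofNat 6772320, .negSucc 1097279], (.tr (.lf 10) (.dx 1 (.tr (.tw (.lf 1) (.lf 2)) (.lf 9) (.lf 15))) (.lf 19)), 1, [34, 34, 27, 27], []⟩)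
    (.lf ⟨[.ofNat 0, .ofNat 65217600, .negSucc 204221039, .ofNat 180922560, .negSucc 39015599, .negSucc 1494239, .ofNat 2072640], (.tw (.dx 1 (.tr (.lf 1) (.lf 15) (.tr (.lf 9) (.lf 2) (.lf 10)))) (.lf 19)), 1, [32, 32, 27, 27], []⟩))
    (.nd (.lf ⟨[.ofNat 0, .ofNat 4847040, .ofNat 90639600, .negSucc 267867359, .ofNat 269038320, .negSucc 101523839, .ofNat 16459200], (.tw (.dx 1 (.tr (.lf 9) (.tr (.lf 1) (.lf 2) (.lf 15)) (.lf 10))) (.lf 19)), 1, [27, 8, 27, 8], []⟩)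
    (.lf ⟨[.ofNat 0, .ofNat 7315200, .negSucc 113647679, .ofNat 288033120, .negSucc 276148799, .ofNat 102682080, .negSucc 16459199], (.tw (.dx 1 (.tw (.lf 9) (.tr (.lf 10) (.tw (.lf 1) (.lf 2)) (.lf 15)))) (.lf 19)), 1, [8, 8, 8, 8, 27, 27, 24, 24], []⟩))))

/-- data -/
def dV2x1 : RT := (.nd (.nd (.nd (.lf ⟨[.ofNat 0, .ofNat 0, .negSucc 7568639, .ofNat 7665600, .negSucc 2647679, .ofNat 365760], (.tr (.dx 1 (.tw (.lf 1) (.lf 19))) (.lf 15) (.tr (.lf 9) (.lf 2) (.lf 10))), 1, [13, 13, 13, 13], []⟩)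
    (.lf ⟨[.ofNat 0, .ofNat 0, .ofNat 1532160, .negSucc 1915199, .ofNat 647040, .negSucc 121919], (.tr (.dx 1 (.tw (.lf 1) (.lf 19))) (.tr (.lf 9) (.lf 2) (.lf 10)) (.lf 15)), 1, [32, 32, 16, 16], []⟩))
    (.nd (.lf ⟨[.ofNat 0, .ofNat 1071360, .negSucc 10372799, .ofNat 13157760, .negSucc 5860799, .ofNat 975360], (.tr (.dx 1 (.tr (.lf 1) (.lf 2) (.lf 19))) (.tw (.lf 9) (.lf 10)) (.lf 15)), 1, [32, 32, 37, 37], []⟩)
    (.lf ⟨[.ofNat 0, .negSucc 40625279, .ofNat 123643680, .negSucc 130514399, .ofNat 60630240, .negSucc 13884959, .ofNat 1219200], (.tr (.dx 1 (.tr (.lf 1) (.lf 2) (.lf 19))) (.lf 15) (.tw (.lf 9) (.lf 10))), 1, [7, 7, 7, 7], []⟩)))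
    (.nd (.nd (.lf ⟨[.ofNat 0, .negSucc 3925439, .ofNat 4886160, .negSucc 17641439, .ofNat 15402000, .negSucc 5897279, .ofNat 853440], (.tr (.tw (.lf 9) (.lf 10)) (.dx 1 (.tr (.lf 1) (.lf 2) (.lf 19))) (.lf 15)), 1, [34, 34, 34, 34], []⟩)
    (.lf ⟨[.ofNat 0, .ofNat 9593280, .negSucc 28590479, .ofNat 62729280, .negSucc 54353999, .ofNat 19746720, .negSucc 3047999], (.tr (.dx 1 (.tr (.tw (.lf 1) (.lf 2)) (.lf 9) (.lf 19))) (.lf 10) (.lf 15)), 1, [32, 32, 16, 16], []⟩))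
    (.nd (.lf ⟨[.ofNat 0, .negSucc 15690239, .ofNat 38563200, .negSucc 45256319, .ofNat 18199680, .negSucc 3169919], (.tr (.dx 1 (.tr (.lf 1) (.tw (.lf 2) (.lf 9)) (.lf 19))) (.lf 10) (.lf 15)), 1, [32, 37, 37, 16], []⟩)
    (.lf ⟨[.ofNat 0, .negSucc 131302079, .ofNat 349201920, .negSucc 339581699, .ofNat 98845920, .negSucc 9250019, .negSucc 1935479], (.tr (.dx 1 (.tr (.tw (.lf 1) (.lf 2)) (.lf 19) (.lf 9))) (.lf 15) (.lf 10)), 1, [32, 32, 8, 8], []⟩))))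

/-- data -/
def dV2x2 : RT := (.nd (.nd (.nd (.lf ⟨[.ofNat 0, .ofNat 53550720, .negSucc 168435359, .ofNat 173480160, .negSucc 74115359, .ofNat 14614560, .negSucc 853439], (.tr (.dx 1 (.tr (.lf 9) (.tw (.lf 1) (.lf 2)) (.lf 19))) (.lf 15) (.lf 10)), 1, [7, 7, 16, 16], []⟩)
    (.lf ⟨[.ofNat 0, .negSucc 87379199, .ofNat 260685120, .negSucc 265911359, .ofNat 116036160, .negSucc 24108479, .ofNat 1706880], (.tr (.dx 0 (.tw (.lf 5) (.lf 19))) (.tr (.lf 9) (.lf 10) (.lf 15)) (.lf 6)), 0, [25, 9, 25, 9], []⟩))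
    (.nd (.lf ⟨[.ofNat 0, .ofNat 18619200, .negSucc 46528559, .ofNat 35975040, .negSucc 1037999, .negSucc 4009439, .ofNat 1219200], (.tw (.dx 0 (.tw (.lf 5) (.lf 19))) (.tr (.lf 6) (.tw (.lf 9) (.lf 10)) (.lf 15))), 0, [37, 37, 9, 9, 37, 37, 9, 9], []⟩)
    (.lf ⟨[.ofNat 0, .ofNat 12407040, .ofNat 613440, .negSucc 30096959, .ofNat 36298560, .negSucc 13544639, .ofNat 2194560], (.tr (.dx 0 (.tw (.lf 5) (.lf 19))) (.tr (.lf 6) (.lf 9) (.lf 10)) (.lf 15)), 0, [37, 19, 37, 19], []⟩)))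
    (.nd (.nd (.lf ⟨[.ofNat 0, .negSucc 62547839, .ofNat 231111840, .negSucc 283902719, .ofNat 177244320, .negSucc 53073599, .ofNat 7315200], (.tw (.dx 0 (.tr (.lf 19) (.lf 5) (.tr (.lf 9) (.lf 10) (.lf 15)))) (.lf 6)), 0, [33, 30, 20, 33], []⟩)
    (.lf ⟨[.ofNat 0, .ofNat 12407040, .negSucc 9835199, .negSucc 8597759, .ofNat 18191040, .negSucc 7240319, .ofNat 1219200], (.tw (.dx 0 (.tr (.lf 9) (.tr (.lf 5) (.lf 15) (.lf 10)) (.lf 19))) (.lf 6)), 0, [33, 20, 30, 30], []⟩))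
    (.nd (.lf ⟨[.ofNat 0, .negSucc 6203519, .ofNat 2774880, .ofNat 6755520, .negSucc 9823199, .ofNat 3742080, .negSucc 609599], (.tw (.lf 6) (.tr (.lf 9) (.tw (.dx 0 (.tw (.lf 5) (.lf 19))) (.lf 15)) (.lf 10))), 0, [7, 7, 8, 8, 7, 7, 8, 8], []⟩)
    (.lf ⟨[.ofNat 0, .ofNat 0, .ofNat 16358400, .negSucc 16414079, .ofNat 5456640, .negSucc 731519], (.tr (.lf 6) (.tr (.dx 0 (.tw (.lf 5) (.lf 19))) (.lf 15) (.lf 9)) (.lf 10)), 0, [7, 7, 8, 8], []⟩))))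

/-- data -/
def dV2x3 : RT := (.nd (.nd (.nd (.lf ⟨[.ofNat 0, .ofNat 12407040, .negSucc 5549759, .negSucc 13511039, .ofNat 19646400, .negSucc 7484159, .ofNat 1219200], (.tw (.dx 0 (.tr (.lf 9) (.tr (.lf 10) (.lf 5) (.lf 15)) (.lf 19))) (.lf 6)), 0, [20, 33, 30, 30], []⟩)
    (.lf ⟨[.ofNat 0, .negSucc 6203519, .ofNat 2774880, .ofNat 6755520, .negSucc 9823199, .ofNat 3742080, .negSucc 609599], (.tr (.dx 1 (.tr (.lf 1) (.lf 19) (.lf 15))) (.tw (.lf 9) (.lf 10)) (.lf 2)), 1, [21, 21, 21, 21], []⟩))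
    (.nd (.lf ⟨[.ofNat 0, .negSucc 37238399, .ofNat 55329120, .negSucc 24033599, .negSucc 25351199, .ofNat 15542400, .negSucc 3413759], (.tr (.dx 0 (.tr (.lf 5) (.lf 9) (.lf 10))) (.lf 19) (.tw (.lf 6) (.lf 15))), 0, [0, 0, 20, 20], []⟩)
    (.lf ⟨[.ofNat 0, .ofNat 37238400, .negSucc 35123039, .negSucc 31502399, .ofNat 80854560, .negSucc 36449279, .ofNat 6827520], (.tr (.tw (.dx 0 (.tr (.lf 5) (.lf 9) (.lf 10))) (.lf 19)) (.lf 15) (.lf 6)), 0, [0, 20, 25, 25], []⟩)))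
    (.nd (.nd (.lf ⟨[.ofNat 0, .ofNat 49645440, .negSucc 54715679, .negSucc 6063359, .ofNat 61649760, .negSucc 29087039, .ofNat 5608320], (.tr (.dx 0 (.tr (.lf 5) (.lf 9) (.lf 10))) (.tw (.lf 6) (.lf 19)) (.lf 15)), 0, [0, 0, 20, 20], []⟩)
    (.lf ⟨[.ofNat 0, .ofNat 12407040, .negSucc 25755839, .ofNat 42024960, .negSucc 35856959, .ofNat 13422720, .negSucc 2194559], (.tr (.dx 0 (.tr (.lf 5) (.lf 9) (.lf 10))) (.tw (.lf 15) (.lf 19)) (.lf 6)), 0, [0, 0, 20, 20], []⟩))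
    (.nd (.lf ⟨[.ofNat 0, .negSucc 6203519, .ofNat 31741920, .negSucc 44970719, .ofNat 31642080, .negSucc 10473119, .ofNat 1584960], (.tr (.dx 1 (.tr (.lf 1) (.lf 15) (.lf 19))) (.tw (.lf 9) (.lf 10)) (.lf 2)), 1, [21, 21, 21, 21], []⟩)
    (.lf ⟨[.ofNat 0, .negSucc 126862559, .ofNat 410096200, .negSucc 400864239, .ofNat 121478440, .negSucc 11468639, .negSucc 2316479], (.tw (.dx 0 (.tw (.lf 15) (.tr (.tw (.lf 9) (.lf 10)) (.lf 5) (.lf 19)))) (.lf 6)), 0, [33, 33, 10, 10, 20, 20, 33, 33], []⟩))))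

/-- data -/
def dV2x4 : RT := (.nd (.nd (.nd (.lf ⟨[.ofNat 0, .ofNat 0, .negSucc 37727999, .ofNat 47916480, .negSucc 27427199, .ofNat 7523520, .negSucc 975359], (.tr (.tw (.dx 0 (.tr (.lf 5) (.lf 9) (.lf 10))) (.lf 15)) (.lf 19) (.lf 6)), 0, [0, 20, 17, 22], []⟩)
    (.lf ⟨[.ofNat 0, .negSucc 40734719, .ofNat 40792320, .ofNat 29528640, .negSucc 80899199, .ofNat 36571200, .negSucc 6827519], (.tr (.lf 6) (.tw (.dx 0 (.tr (.lf 5) (.lf 9) (.lf 10))) (.lf 15)) (.lf 19)), 0, [32, 39, 24, 24], []⟩))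
    (.nd (.lf ⟨[.ofNat 0, .negSucc 18619199, .ofNat 25740720, .ofNat 7544160, .negSucc 37698959, .ofNat 17858880, .negSucc 3413759], (.tw (.dx 0 (.tw (.lf 19) (.tr (.lf 5) (.lf 15) (.tw (.lf 9) (.lf 10))))) (.lf 6)), 0, [30, 30, 33, 33, 33, 33, 20, 20], []⟩)
    (.lf ⟨[.ofNat 0, .ofNat 0, .negSucc 6958079, .ofNat 7589760, .negSucc 3724799, .ofNat 487680], (.tw (.dx 0 (.tw (.lf 5) (.tr (.lf 15) (.tw (.lf 9) (.lf 10)) (.lf 19)))) (.lf 6)), 0, [33, 33, 33, 33, 33, 33, 33, 33], []⟩)))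
    (.nd (.nd (.lf ⟨[.ofNat 0, .ofNat 0, .ofNat 25643520, .negSucc 25806719, .ofNat 9066240, .negSucc 1219199], (.tw (.dx 0 (.tr (.lf 15) (.lf 9) (.tr (.lf 5) (.lf 19) (.lf 10)))) (.lf 6)), 0, [33, 33, 33, 20], []⟩)
    (.lf ⟨[.ofNat 0, .ofNat 0, .negSucc 2350079, .ofNat 2826240, .ofNat 1927680], (.tw (.dx 0 (.tr (.lf 9) (.lf 19) (.tr (.lf 5) (.lf 10) (.lf 15)))) (.lf 6)), 0, [20, 33, 0, 33], []⟩))
    (.nd (.lf ⟨[.ofNat 0, .ofNat 0, .negSucc 610559, .ofNat 541440, .negSucc 80639], (.tr (.dx 1 (.lf 1)) (.lf 19) (.tr (.lf 2) (.lf 15) (.tw (.lf 9) (.lf 10)))), 1, [7, 7, 32, 32], [7, 7, 16, 16]⟩)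
    (.lf ⟨[.ofNat 0, .ofNat 0, .negSucc 20252159, .ofNat 18130560, .negSucc 8083199, .ofNat 731520], (.tr (.dx 1 (.tr (.lf 1) (.lf 15) (.lf 9))) (.lf 19) (.tw (.lf 2) (.lf 10))), 1, [32, 21, 8, 21], []⟩))))

/-- data -/
def dV2x5 : RT := (.nd (.nd (.nd (.lf ⟨[.ofNat 0, .ofNat 0, .negSucc 3064319, .ofNat 3830400, .negSucc 1294079, .ofNat 243840], (.tr (.tw (.dx 0 (.tr (.lf 5) (.lf 15) (.lf 9))) (.lf 19)) (.lf 10) (.lf 6)), 0, [0, 9, 2, 2], []⟩)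
    (.lf ⟨[.ofNat 0, .ofNat 0, .negSucc 1843199, .ofNat 2747520, .negSucc 1132799, .ofNat 243840], (.tr (.dx 0 (.tr (.lf 5) (.lf 15) (.lf 9))) (.tw (.lf 10) (.lf 19)) (.lf 6)), 0, [17, 0, 17, 9], []⟩))
    (.nd (.lf ⟨[.ofNat 0, .ofNat 0, .ofNat 3064320, .negSucc 3830399, .ofNat 1294080, .negSucc 243839], (.tr (.tw (.dx 0 (.tr (.lf 5) (.lf 15) (.lf 9))) (.lf 10)) (.lf 19) (.lf 6)), 0, [17, 17, 12, 12], []⟩)
    (.lf ⟨[.ofNat 0, .ofNat 10667520, .negSucc 35302079, .ofNat 35263680, .negSucc 13120319, .ofNat 1950720], (.tw (.dx 1 (.tr (.lf 15) (.tr (.lf 1) (.lf 9) (.lf 2)) (.lf 19))) (.lf 10)), 1, [24, 24, 16, 16], []⟩)))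
    (.nd (.nd (.lf ⟨[.ofNat 0, .ofNat 0, .ofNat 6128640, .negSucc 7660799, .ofNat 2588160, .negSucc 487679], (.tr (.dx 0 (.tr (.lf 5) (.lf 15) (.lf 9))) (.lf 19) (.tw (.lf 6) (.lf 10))), 0, [0, 0, 35, 9], []⟩)
    (.lf ⟨[.ofNat 0, .ofNat 0, .negSucc 6128639, .ofNat 7660800, .negSucc 2588159, .ofNat 487680], (.tr (.dx 0 (.tr (.lf 5) (.lf 15) (.lf 9))) (.tw (.lf 6) (.lf 19)) (.lf 10)), 0, [29, 0, 29, 35], []⟩))
    (.nd (.lf ⟨[.ofNat 0, .ofNat 0, .negSucc 2764799, .ofNat 4181760, .negSucc 3440639, .ofNat 487680], (.tr (.dx 0 (.tr (.lf 5) (.lf 15) (.lf 9))) (.lf 6) (.tw (.lf 10) (.lf 19))), 0, [0, 29, 15, 29], []⟩)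
    (.lf ⟨[.ofNat 0, .ofNat 48240000, .negSucc 132861599, .ofNat 130118400, .negSucc 43527839, .ofNat 6827520], (.tr (.tw (.dx 0 (.tr (.lf 9) (.lf 5) (.lf 19))) (.lf 10)) (.lf 15) (.lf 6)), 0, [20, 25, 12, 25], []⟩))))

/-- data -/
def dV2x6 : RT := (.nd (.nd (.nd (.lf ⟨[.ofNat 0, .negSucc 19722239, .ofNat 64112640, .negSucc 69548159, .ofNat 28193280, .negSucc 4632959], (.tr (.dx 1 (.tr (.tw (.lf 1) (.lf 9)) (.lf 2) (.lf 19))) (.lf 15) (.lf 10)), 1, [32, 7, 16, 16], []⟩)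
    (.lf ⟨[.ofNat 0, .ofNat 0, .ofNat 13294080, .negSucc 12583679, .ofNat 4162560, .negSucc 487679], (.tr (.dx 0 (.tr (.lf 5) (.lf 19) (.lf 9))) (.tw (.lf 10) (.lf 15)) (.lf 6)), 0, [25, 9, 20, 20], []⟩))
    (.nd (.lf ⟨[.ofNat 0, .ofNat 0, .ofNat 22072320, .negSucc 21897599, .ofNat 10832640, .negSucc 1219199], (.tr (.tw (.dx 0 (.tr (.lf 5) (.lf 19) (.lf 9))) (.lf 15)) (.lf 10) (.lf 6)), 0, [9, 20, 9, 22], []⟩)
    (.lf ⟨[.ofNat 0, .ofNat 0, .ofNat 1221120, .negSucc 1082879, .ofNat 161280], (.tr (.lf 6) (.dx 0 (.tr (.lf 9) (.lf 5) (.lf 15))) (.tw (.lf 10) (.lf 19))), 0, [15, 32, 15, 32], []⟩)))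
    (.nd (.nd (.lf ⟨[.ofNat 0, .ofNat 0, .negSucc 13294079, .ofNat 12583680, .negSucc 4162559, .ofNat 487680], (.tr (.lf 6) (.tw (.dx 0 (.tr (.lf 9) (.lf 5) (.lf 15))) (.lf 19)) (.lf 10)), 0, [32, 32, 13, 13], []⟩)
    (.lf ⟨[.ofNat 0, .ofNat 0, .ofNat 610560, .negSucc 541439, .ofNat 80640], (.tw (.dx 0 (.lf 9)) (.tr (.lf 5) (.tr (.lf 15) (.lf 10) (.lf 19)) (.lf 6))), 0, [20, 20, 20, 20], [17, 25, 17, 25]⟩))
    (.nd (.lf ⟨[.ofNat 0, .ofNat 0, .negSucc 20851199, .ofNat 20814720, .negSucc 10671359, .ofNat 1219200], (.tr (.lf 6) (.tw (.dx 0 (.tr (.lf 5) (.lf 19) (.lf 9))) (.lf 10)) (.lf 15)), 0, [32, 37, 23, 8], []⟩)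
    (.lf ⟨[.ofNat 0, .ofNat 0, .ofNat 12695040, .negSucc 14096639, .ofNat 7288320, .negSucc 975359], (.tr (.lf 6) (.dx 0 (.tr (.lf 5) (.lf 19) (.lf 9))) (.tw (.lf 10) (.lf 15))), 0, [32, 32, 37, 7], []⟩))))

/-- data -/
def dV2x7 : RT := (.nd (.nd (.nd (.lf ⟨[.ofNat 0, .ofNat 0, .negSucc 8893439, .ofNat 11842560, .negSucc 6028799, .ofNat 975360], (.tr (.tw (.dx 0 (.tr (.lf 5) (.lf 19) (.lf 9))) (.lf 6)) (.lf 15) (.lf 10)), 0, [0, 20, 32, 7], []⟩)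
    (.lf ⟨[.ofNat 0, .ofNat 0, .negSucc 3064319, .ofNat 3830400, .negSucc 1294079, .ofNat 243840], (.tr (.lf 6) (.dx 0 (.tr (.lf 9) (.lf 5) (.lf 19))) (.tw (.lf 10) (.lf 15))), 0, [37, 7, 32, 32], []⟩))
    (.nd (.lf ⟨[.ofNat 0, .negSucc 46287359, .ofNat 132453120, .negSucc 130210559, .ofNat 45315840, .negSucc 7193279], (.tr (.lf 6) (.tw (.dx 0 (.tr (.lf 9) (.lf 5) (.lf 19))) (.lf 15)) (.lf 10)), 0, [7, 32, 24, 13], []⟩)
    (.lf ⟨[.ofNat 0, .ofNat 0, .ofNat 30274560, .negSucc 30662399, .ofNat 10590720, .negSucc 1463039], (.tr (.lf 6) (.dx 0 (.tr (.tw (.lf 9) (.lf 15)) (.lf 5) (.lf 19))) (.lf 10)), 0, [32, 32, 13, 13], []⟩)))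
    (.nd (.nd (.lf ⟨[.ofNat 0, .ofNat 0, .negSucc 12695039, .ofNat 14096640, .negSucc 7288319, .ofNat 975360], (.tr (.dx 1 (.tr (.lf 9) (.lf 1) (.lf 15))) (.lf 10) (.tw (.lf 2) (.lf 19))), 1, [3, 31, 24, 24], []⟩)
    (.lf ⟨[.ofNat 0, .ofNat 0, .ofNat 8893440, .negSucc 11842559, .ofNat 6028800, .negSucc 975359], (.tr (.tw (.dx 1 (.tr (.lf 9) (.lf 1) (.lf 15))) (.lf 10)) (.lf 19) (.lf 2)), 1, [31, 24, 34, 34], []⟩))
    (.nd (.lf ⟨[.ofNat 0, .ofNat 0, .ofNat 20851200, .negSucc 20814719, .ofNat 10671360, .negSucc 1219199], (.tr (.dx 1 (.tr (.lf 9) (.lf 1) (.lf 15))) (.tw (.lf 2) (.lf 10)) (.lf 19)), 1, [15, 3, 24, 24], []⟩)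
    (.lf ⟨[.ofNat 0, .ofNat 0, .negSucc 23293439, .ofNat 22980480, .negSucc 10993919, .ofNat 1219200], (.tr (.dx 1 (.tr (.lf 9) (.lf 1) (.lf 15))) (.lf 2) (.tw (.lf 10) (.lf 19))), 1, [15, 8, 24, 24], []⟩))))

/-- data -/
def dV2x8 : RT := (.nd (.nd (.nd (.lf ⟨[.ofNat 0, .ofNat 0, .ofNat 8893440, .negSucc 11842559, .ofNat 6028800, .negSucc 975359], (.tr (.lf 2) (.dx 1 (.tr (.lf 1) (.lf 9) (.lf 15))) (.tw (.lf 10) (.lf 19))), 1, [0, 0, 0, 29], []⟩)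
    (.lf ⟨[.ofNat 0, .ofNat 0, .negSucc 4446719, .ofNat 5921280, .negSucc 3014399, .ofNat 487680], (.tw (.dx 0 (.lf 5)) (.tr (.lf 9) (.tr (.lf 15) (.lf 6) (.lf 19)) (.lf 10))), 0, [0, 0, 0, 0], [29, 20, 29, 20]⟩))
    (.nd (.lf ⟨[.ofNat 0, .ofNat 0, .negSucc 6128639, .ofNat 7660800, .negSucc 2588159, .ofNat 487680], (.tr (.lf 2) (.tw (.dx 1 (.tr (.lf 1) (.lf 9) (.lf 15))) (.lf 10)) (.lf 19)), 1, [0, 0, 27, 20], []⟩)
    (.lf ⟨[.ofNat 0, .ofNat 0, .ofNat 6128640, .negSucc 7660799, .ofNat 2588160, .negSucc 487679], (.tr (.tw (.lf 2) (.lf 10)) (.dx 1 (.tr (.lf 1) (.lf 9) (.lf 15))) (.lf 19)), 1, [27, 20, 27, 12], []⟩)))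
    (.nd (.nd (.lf ⟨[.ofNat 0, .ofNat 0, .negSucc 6128639, .ofNat 7660800, .negSucc 2588159, .ofNat 487680], (.tr (.lf 10) (.tw (.dx 1 (.tr (.lf 1) (.lf 9) (.lf 15))) (.lf 2)) (.lf 19)), 1, [34, 3, 27, 12], []⟩)
    (.lf ⟨[.ofNat 0, .ofNat 0, .ofNat 6128640, .negSucc 7660799, .ofNat 2588160, .negSucc 487679], (.tr (.tw (.dx 1 (.tr (.lf 1) (.lf 9) (.lf 15))) (.lf 10)) (.lf 2) (.lf 19)), 1, [3, 24, 34, 3], []⟩))
    (.nd (.lf ⟨[.ofNat 0, .ofNat 3101760, .negSucc 12852719, .ofNat 19610160, .negSucc 14820719, .ofNat 5114640, .negSucc 792479], (.tw (.dx 1 (.tw (.lf 15) (.lf 19))) (.tr (.tw (.lf 1) (.lf 2)) (.lf 9) (.lf 10))), 1, [13, 13, 21, 21, 13, 13, 21, 21], []⟩)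
    (.lf ⟨[.ofNat 0, .ofNat 22106880, .negSucc 80293439, .ofNat 94263360, .negSucc 49483199, .ofNat 13053120, .negSucc 1463039], (.tw (.dx 1 (.tr (.lf 15) (.lf 1) (.tr (.lf 2) (.lf 19) (.lf 9)))) (.lf 10)), 1, [35, 35, 32, 8], []⟩))))

/-- data -/
def dV2x9 : RT := (.nd (.nd (.nd (.lf ⟨[.ofNat 0, .ofNat 0, .ofNat 2350080, .negSucc 2826239, .negSucc 1927679], (.tw (.dx 1 (.tr (.lf 1) (.lf 19) (.tr (.lf 9) (.lf 2) (.lf 15)))) (.lf 10)), 1, [32, 35, 35, 35], []⟩)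
    (.lf ⟨[.ofNat 0, .ofNat 7565760, .ofNat 5184240, .negSucc 34313759, .ofNat 44384880, .negSucc 17613119, .ofNat 3048000], (.tw (.dx 1 (.tw (.lf 9) (.tr (.lf 15) (.tw (.lf 1) (.lf 2)) (.lf 19)))) (.lf 10)), 1, [8, 8, 8, 8, 35, 35, 35, 35], []⟩))
    (.nd (.lf ⟨[.ofNat 0, .negSucc 11053439, .ofNat 21288480, .negSucc 28477919, .ofNat 18207840, .negSucc 5673119, .ofNat 731520], (.tw (.lf 10) (.tr (.lf 5) (.tw (.dx 0 (.tw (.lf 9) (.lf 19))) (.lf 15)) (.lf 6))), 0, [34, 34, 33, 33, 34, 34, 33, 33], []⟩)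
    (.lf ⟨[.ofNat 0, .ofNat 0, .ofNat 19422720, .negSucc 20244479, .ofNat 6750720, .negSucc 975359], (.tw (.dx 1 (.tr (.lf 1) (.lf 9) (.tr (.lf 15) (.lf 2) (.lf 19)))) (.lf 10)), 1, [35, 32, 35, 35], []⟩)))
    (.nd (.nd (.lf ⟨[.ofNat 0, .ofNat 0, .negSucc 3064319, .ofNat 3830400, .negSucc 1294079, .ofNat 243840], (.tr (.dx 0 (.tr (.lf 5) (.lf 15) (.tw (.lf 9) (.lf 19)))) (.lf 10) (.lf 6)), 0, [0, 0, 20, 30], []⟩)
    (.lf ⟨[.ofNat 0, .ofNat 0, .ofNat 3064320, .negSucc 3830399, .ofNat 1294080, .negSucc 243839], (.tr (.dx 0 (.tr (.tw (.lf 5) (.lf 15)) (.lf 19) (.lf 9))) (.lf 10) (.lf 6)), 0, [0, 10, 20, 20], []⟩))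
    (.nd (.lf ⟨[.ofNat 0, .ofNat 0, .ofNat 3064320, .negSucc 3830399, .ofNat 1294080, .negSucc 243839], (.tr (.lf 6) (.dx 0 (.tr (.tw (.lf 9) (.lf 19)) (.lf 5) (.lf 15))) (.lf 10)), 0, [13, 13, 32, 13], []⟩)
    (.lf ⟨[.ofNat 0, .ofNat 0, .negSucc 3064319, .ofNat 3830400, .negSucc 1294079, .ofNat 243840], (.tw (.lf 5) (.tr (.dx 0 (.lf 9)) (.tr (.lf 15) (.lf 6) (.lf 19)) (.lf 10))), 0, [29, 32, 21, 21], [29, 32, 8, 11]⟩))))

/-- data -/
def dV2x10 : RT := (.nd (.nd (.nd (.lf ⟨[.ofNat 0, .ofNat 0, .negSucc 1612799, .ofNat 308160, .ofNat 877440, .negSucc 121919], (.tw (.lf 5) (.tr (.lf 15) (.tr (.dx 0 (.lf 9)) (.lf 6) (.lf 10)) (.lf 19))), 0, [24, 24, 37, 16], [24, 3, 37, 16]⟩)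
    (.lf ⟨[.ofNat 0, .ofNat 0, .negSucc 610559, .ofNat 541440, .negSucc 80639], (.tr (.lf 19) (.lf 10) (.tr (.lf 5) (.tw (.dx 0 (.lf 9)) (.lf 15)) (.lf 6))), 0, [25, 33, 25, 33], [25, 33, 25, 33]⟩))
    (.nd (.lf ⟨[.ofNat 0, .ofNat 0, .negSucc 3398399, .ofNat 4197120, .negSucc 1370879, .ofNat 243840], (.tr (.lf 6) (.lf 19) (.tr (.lf 9) (.tw (.dx 0 (.lf 5)) (.lf 15)) (.lf 10))), 0, [16, 16, 16, 16], [16, 13, 16, 13]⟩)
    (.lf ⟨[.ofNat 0, .ofNat 22106880, .negSucc 58935359, .ofNat 73369920, .negSucc 41872319, .ofNat 12077760, .negSucc 1463039], (.tw (.dx 1 (.tr (.lf 15) (.lf 1) (.tr (.lf 2) (.lf 9) (.lf 19)))) (.lf 10)), 1, [24, 35, 32, 16], []⟩)))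
    (.nd (.nd (.lf ⟨[.ofNat 0, .negSucc 37238399, .ofNat 58197600, .negSucc 15008639, .negSucc 40903199, .ofNat 22416960, .negSucc 4632959], (.tw (.dx 1 (.tr (.lf 9) (.tr (.lf 1) (.lf 2) (.lf 19)) (.lf 15))) (.lf 10)), 1, [35, 8, 35, 35], []⟩)
    (.lf ⟨[.ofNat 0, .ofNat 24249600, .negSucc 72100799, .ofNat 71046720, .negSucc 22630079, .ofNat 1337280, .ofNat 731520], (.tw (.dx 1 (.tr (.lf 9) (.tr (.lf 1) (.lf 2) (.lf 15)) (.lf 19))) (.lf 10)), 1, [35, 8, 35, 35], []⟩))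
    (.nd (.lf ⟨[.ofNat 0, .ofNat 12839040, .negSucc 7238879, .negSucc 85198559, .ofNat 117955680, .negSucc 48709919, .ofNat 8290560], (.tw (.dx 1 (.tw (.lf 9) (.tr (.tw (.lf 1) (.lf 2)) (.lf 15) (.lf 19)))) (.lf 10)), 1, [35, 35, 35, 35, 35, 35, 35, 35], []⟩)
    (.lf ⟨[.ofNat 0, .ofNat 9662400, .negSucc 14695439, .ofNat 10611360, .negSucc 1786319, .ofNat 243840], (.tw (.dx 1 (.tw (.lf 19) (.tr (.tw (.lf 1) (.lf 2)) (.lf 15) (.lf 9)))) (.lf 10)), 1, [35, 35, 35, 35, 32, 32, 8, 8], []⟩))))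

/-- data -/
def dV2x11 : RT := (.nd (.nd (.nd (.lf ⟨[.ofNat 0, .negSucc 21467519, .ofNat 45620640, .negSucc 22729919, .negSucc 14375519, .ofNat 10008960, .negSucc 2194559], (.tw (.dx 1 (.tr (.lf 1) (.lf 2) (.tr (.lf 15) (.lf 9) (.lf 19)))) (.lf 10)), 1, [32, 32, 35, 35], []⟩)
    (.lf ⟨[.ofNat 0, .negSucc 1998719, .ofNat 27842880, .negSucc 34721279, .ofNat 14358720, .negSucc 2438399], (.tr (.lf 19) (.lf 13) (.tr (.lf 9) (.tr (.dx 0 .on) (.lf 14) (.tw (.lf 5) (.lf 6))) (.lf 10))), 0, [35, 35, 13, 13, 35, 35, 13, 13], [35, 35, 13, 13, 35, 35, 13, 13]⟩))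
    (.nd (.lf ⟨[.ofNat 0, .negSucc 25013159, .ofNat 29364630, .negSucc 12675719, .ofNat 2049750, .ofNat 68580], (.tr (.lf 13) (.lf 19) (.tr (.lf 9) (.tr (.tw (.lf 5) (.lf 6)) (.dx 0 .on) (.lf 14)) (.lf 10))), 0, [7, 7, 35, 35, 7, 7, 35, 35], [7, 7, 35, 35, 7, 7, 35, 35]⟩)
    (.lf ⟨[.ofNat 0, .negSucc 9691199, .ofNat 731760, .ofNat 9295680, .negSucc 5197199, .ofNat 1036320], (.tw (.lf 13) (.tr (.lf 5) (.tr (.dx 0 .on) (.tr (.lf 9) (.lf 14) (.lf 10)) (.lf 19)) (.lf 6))), 0, [17, 17, 33, 33, 17, 17, 33, 33], [17, 17, 18, 18, 17, 17, 18, 18]⟩)))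
    (.nd (.nd (.lf ⟨[.ofNat 0, .negSucc 4109759, .negSucc 6789359, .ofNat 12969600, .negSucc 5867759, .ofNat 1036320], (.tw (.lf 19) (.tr (.lf 9) (.tr (.lf 13) (.dx 0 .on) (.tr (.lf 5) (.lf 14) (.lf 6))) (.lf 10))), 0, [14, 14, 7, 7, 14, 14, 7, 7], [14, 14, 7, 7, 14, 14, 7, 7]⟩)
    (.lf ⟨[.ofNat 0, .ofNat 6791040, .negSucc 15428639, .ofNat 14001120, .negSucc 5023199, .ofNat 792480], (.tr (.dx 0 (.tw (.lf 5) (.lf 6))) (.tr (.lf 9) (.tw (.lf 13) (.lf 14)) (.lf 19)) (.lf 10)), 0, [0, 0, 7, 7, 0, 0, 7, 7], []⟩))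
    (.nd (.lf ⟨[.ofNat 0, .negSucc 12815999, .ofNat 29899680, .negSucc 27678719, .ofNat 9985440, .negSucc 1584959], (.tw (.dx 0 (.tw (.lf 5) (.lf 6))) (.tr (.lf 9) (.tr (.lf 13) (.lf 14) (.lf 19)) (.lf 10))), 0, [0, 0, 0, 0, 0, 0, 0, 0], []⟩)
    (.lf ⟨[.ofNat 0, .ofNat 6791040, .negSucc 15428639, .ofNat 14001120, .negSucc 5023199, .ofNat 792480], (.tr (.dx 0 (.tw (.lf 5) (.lf 6))) (.tr (.lf 9) (.lf 19) (.tw (.lf 13) (.lf 14))) (.lf 10)), 0, [0, 0, 29, 29, 0, 0, 29, 29], []⟩))))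

/-- data -/
def dV2x12 : RT := (.nd (.nd (.nd (.lf ⟨[.ofNat 0, .ofNat 7894080, .negSucc 4940879, .negSucc 961919, .ofNat 1352880, .negSucc 304799], (.tr (.lf 9) (.lf 10) (.tr (.dx 0 (.tw (.lf 5) (.lf 6))) (.tw (.lf 13) (.lf 14)) (.lf 19))), 0, [12, 12, 12, 12, 28, 28, 28, 28], []⟩)
    (.lf ⟨[.ofNat 0, .negSucc 7894079, .ofNat 4940880, .ofNat 961920, .negSucc 1352879, .ofNat 304800], (.tr (.lf 19) (.lf 13) (.tr (.tw (.lf 9) (.lf 10)) (.dx 0 (.tw (.lf 5) (.lf 6))) (.lf 14))), 0, [38, 38, 38, 38, 13, 13, 13, 13], []⟩))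
    (.nd (.lf ⟨[.ofNat 0, .negSucc 195839, .ofNat 161280], (.tr (.lf 13) (.dx 0 (.tw (.lf 5) (.lf 6))) (.tr (.tw (.lf 9) (.lf 10)) (.lf 14) (.lf 19))), 0, [39, 39, 7, 7, 39, 39, 7, 7], []⟩)
    (.lf ⟨[.ofNat 0, .ofNat 8089920, .negSucc 5102159, .negSucc 961919, .ofNat 1352880, .negSucc 304799], (.tr (.lf 13) (.tr (.dx 0 (.tw (.lf 5) (.lf 6))) (.tw (.lf 9) (.lf 10)) (.lf 14)) (.lf 19)), 0, [39, 39, 39, 39, 36, 36, 36, 36], []⟩)))
    (.nd (.nd (.lf ⟨[.ofNat 0, .negSucc 195839, .ofNat 161280], (.tr (.dx 0 (.tw (.lf 5) (.lf 6))) (.lf 9) (.tr (.lf 13) (.tw (.lf 10) (.lf 19)) (.lf 14))), 0, [0, 0, 0, 0, 0, 0, 0, 0], []⟩)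
    (.lf ⟨[.ofNat 0, .ofNat 195840, .negSucc 161279], (.tw (.dx 0 (.tw (.lf 5) (.lf 6))) (.tr (.lf 13) (.lf 19) (.tr (.lf 9) (.lf 14) (.lf 10)))), 0, [7, 7, 0, 0, 7, 7, 0, 0], []⟩))
    (.nd (.lf ⟨[.ofNat 0, .ofNat 6151680, .negSucc 3686399, .negSucc 1347359, .ofNat 1383360, .negSucc 304799], (.tr (.dx 0 (.tw (.lf 5) (.lf 6))) (.tr (.lf 13) (.tw (.lf 9) (.lf 19)) (.lf 14)) (.lf 10)), 0, [0, 7, 0, 7, 0, 7, 0, 7], []⟩)
    (.lf ⟨[.ofNat 0, .negSucc 2665439, .ofNat 21569880, .negSucc 26219039, .ofNat 10682520, .negSucc 1798319], (.tr (.dx 0 (.tw (.lf 5) (.lf 6))) (.lf 13) (.tr (.lf 9) (.tw (.lf 14) (.lf 19)) (.lf 10))), 0, [0, 0, 0, 0, 0, 0, 0, 0], []⟩))))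

/-- data -/
def dV2x13 : RT := (.nd (.nd (.nd (.lf ⟨[.ofNat 0, .negSucc 13374719, .ofNat 5615040, .ofNat 6008640, .negSucc 4190399, .ofNat 853440], (.tr (.dx 0 (.tw (.lf 5) (.lf 6))) (.tr (.lf 13) (.lf 9) (.tw (.lf 14) (.lf 19))) (.lf 10)), 0, [0, 0, 7, 7, 0, 0, 7, 7], []⟩)
    (.lf ⟨[.ofNat 0, .ofNat 13374720, .negSucc 5615039, .negSucc 6008639, .ofNat 4190400, .negSucc 853439], (.tr (.dx 0 (.tw (.lf 5) (.lf 6))) (.lf 19) (.tr (.tw (.lf 9) (.lf 13)) (.lf 10) (.lf 14))), 0, [37, 0, 0, 7, 37, 0, 0, 7], []⟩))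
    (.nd (.lf ⟨[.ofNat 0, .negSucc 13582079, .ofNat 30857280, .negSucc 28002239, .ofNat 10046400, .negSucc 1584959], (.tr (.dx 0 (.tr (.lf 5) (.lf 6) (.lf 9))) (.lf 10) (.tr (.lf 13) (.lf 19) (.lf 14))), 0, [5, 5, 5, 5], []⟩)
    (.lf ⟨[.ofNat 0, .ofNat 13582080, .negSucc 30857279, .ofNat 28002240, .negSucc 10046399, .ofNat 1584960], (.tr (.dx 0 (.lf 19)) (.tr (.lf 9) (.lf 10) (.tr (.lf 5) (.lf 13) (.lf 6))) (.lf 14)), 0, [19, 19, 30, 30], []⟩)))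
    (.nd (.nd (.lf ⟨[.ofNat 0, .negSucc 9280799, .negSucc 2948999, .ofNat 13342560, .negSucc 7032839, .ofNat 1371600], (.tr (.dx 0 (.lf 19)) (.lf 9) (.tr (.lf 10) (.lf 5) (.tr (.lf 13) (.lf 6) (.lf 14)))), 0, [19, 19, 30, 30], []⟩)
    (.lf ⟨[.ofNat 0, .ofNat 22204800, .negSucc 21909599, .ofNat 6278400, .ofNat 180000, .negSucc 365759], (.tr (.lf 19) (.dx 0 (.tr (.lf 5) (.lf 6) (.lf 9))) (.tr (.lf 13) (.lf 10) (.lf 14))), 0, [37, 37, 37, 37], []⟩))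
    (.nd (.lf ⟨[.ofNat 0, .ofNat 19303200, .negSucc 58415159, .ofNat 59503200, .negSucc 22457399, .ofNat 3627120], (.tr (.lf 10) (.lf 13) (.tr (.lf 14) (.dx 0 (.tr (.lf 5) (.lf 9) (.lf 6))) (.lf 19))), 0, [6, 6, 6, 6], []⟩)
    (.lf ⟨[.ofNat 0, .negSucc 38893319, .ofNat 84955470, .negSucc 75227879, .ofNat 26605230, .negSucc 4107179], (.tw (.lf 19) (.tr (.dx 0 (.tr (.lf 5) (.lf 9) (.lf 6))) (.tw (.lf 13) (.lf 14)) (.lf 10))), 0, [7, 7, 7, 7, 1, 1, 1, 1], []⟩))))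

/-- data -/
def dV2x14 : RT := (.nd (.nd (.nd (.lf ⟨[.ofNat 0, .negSucc 1274399, .ofNat 2013240, .negSucc 1861919, .ofNat 655800, .negSucc 91439], (.tr (.lf 19) (.lf 10) (.tr (.lf 13) (.dx 0 (.tr (.lf 5) (.lf 6) (.lf 9))) (.lf 14))), 0, [23, 14, 23, 14], []⟩)
    (.lf ⟨[.ofNat 0, .negSucc 1229759, .ofNat 3138960, .negSucc 3020159, .ofNat 1128720, .negSucc 182879], (.tr (.dx 0 (.tw (.lf 9) (.lf 10))) (.lf 5) (.tr (.lf 6) (.tw (.lf 13) (.lf 14)) (.lf 19))), 0, [20, 20, 20, 20, 20, 20, 20, 20], []⟩))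
    (.nd (.lf ⟨[.ofNat 0, .negSucc 4826879, .ofNat 16939200, .negSucc 18301919, .ofNat 7036800, .negSucc 1158239], (.tw (.dx 0 (.tw (.lf 9) (.lf 10))) (.tr (.lf 5) (.tr (.lf 13) (.lf 14) (.lf 19)) (.lf 6))), 0, [20, 20, 20, 20, 20, 20, 20, 20], []⟩)
    (.lf ⟨[.ofNat 0, .negSucc 264959, .ofNat 4803840, .negSucc 6129119, .ofNat 2521920, .negSucc 426719], (.tr (.dx 0 (.tw (.lf 9) (.lf 10))) (.tr (.lf 13) (.tw (.lf 5) (.lf 19)) (.lf 14)) (.lf 6)), 0, [20, 25, 20, 25, 20, 25, 20, 25], []⟩)))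
    (.nd (.nd (.lf ⟨[.ofNat 0, .negSucc 1580399, .negSucc 1865339, .ofNat 5197200, .negSucc 3136379, .ofNat 533400], (.tw (.dx 0 (.tw (.lf 9) (.lf 10))) (.tr (.lf 13) (.lf 19) (.tr (.lf 5) (.lf 14) (.lf 6)))), 0, [25, 25, 20, 20, 25, 25, 20, 20], []⟩)
    (.lf ⟨[.ofNat 0, .ofNat 6231600, .negSucc 7541459, .ofNat 3393840, .negSucc 576659, .ofNat 15240], (.tw (.lf 5) (.tr (.lf 13) (.tr (.dx 0 (.tw (.lf 9) (.lf 10))) (.lf 19) (.lf 6)) (.lf 14))), 0, [24, 24, 24, 24, 24, 24, 24, 24], []⟩))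
    (.nd (.lf ⟨[.ofNat 0, .ofNat 936720, .negSucc 5487899, .ofNat 6352080, .negSucc 2524379, .ofNat 411480], (.tr (.dx 0 (.lf 5)) (.lf 19) (.tw (.lf 6) (.tr (.lf 9) (.tw (.lf 13) (.lf 14)) (.lf 10)))), 0, [0, 0, 0, 0, 0, 0, 0, 0], [7, 7, 7, 7, 9, 9, 9, 9]⟩)
    (.lf ⟨[.ofNat 0, .ofNat 748800, .ofNat 23062080, .negSucc 31694399, .ofNat 13464000, .negSucc 2316479], (.tr (.dx 0 (.tr (.lf 5) (.lf 9) (.lf 10))) (.lf 6) (.tr (.lf 13) (.lf 19) (.lf 14))), 0, [5, 5, 5, 5], []⟩))))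

/-- data -/
def dV2x15 : RT := (.nd (.nd (.nd (.lf ⟨[.ofNat 0, .ofNat 748800, .ofNat 23062080, .negSucc 31694399, .ofNat 13464000, .negSucc 2316479], (.tr (.dx 0 (.lf 19)) (.tr (.lf 5) (.lf 6) (.tr (.lf 9) (.lf 13) (.lf 10))) (.lf 14)), 0, [37, 37, 30, 30], []⟩)
    (.lf ⟨[.ofNat 0, .negSucc 11260799, .ofNat 27471120, .negSucc 26750399, .ofNat 9552720, .negSucc 1523999], (.tr (.lf 19) (.dx 0 (.tr (.lf 5) (.lf 9) (.lf 10))) (.tr (.lf 13) (.lf 6) (.lf 14))), 0, [19, 19, 19, 19], []⟩))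
    (.nd (.lf ⟨[.ofNat 0, .negSucc 1424159, .ofNat 17963880, .negSucc 23363999, .ofNat 9294120, .negSucc 1615439], (.tr (.lf 19) (.lf 6) (.tr (.lf 13) (.dx 0 (.tr (.lf 5) (.lf 9) (.lf 10))) (.lf 14))), 0, [23, 26, 23, 26], []⟩)
    (.lf ⟨[.ofNat 0, .negSucc 4085279, .ofNat 3585720, .negSucc 762239, .negSucc 198599, .ofNat 91440], (.tw (.lf 6) (.tr (.dx 0 (.tr (.lf 9) (.lf 5) (.lf 10))) (.tw (.lf 13) (.lf 14)) (.lf 19))), 0, [39, 39, 39, 39, 21, 21, 21, 21], []⟩)))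
    (.nd (.nd (.lf ⟨[.ofNat 0, .ofNat 5359680, .negSucc 6933359, .ofNat 3822720, .negSucc 904559, .ofNat 60960], (.tr (.dx 0 (.tr (.lf 5) (.lf 13) (.lf 6))) (.tr (.lf 9) (.lf 19) (.lf 14)) (.lf 10)), 0, [7, 29, 7, 29], []⟩)
    (.lf ⟨[.ofNat 0, .negSucc 3785759, .ofNat 3384120, .negSucc 577919, .negSucc 198599, .ofNat 91440], (.tw (.dx 0 (.tr (.lf 5) (.lf 13) (.lf 6))) (.tr (.tw (.lf 9) (.lf 10)) (.lf 19) (.lf 14))), 0, [0, 0, 29, 29, 0, 0, 29, 29], []⟩))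
    (.nd (.lf ⟨[.ofNat 0, .ofNat 29727360, .negSucc 67281119, .ofNat 59650560, .negSucc 21414239, .ofNat 3291840], (.tr (.lf 14) (.lf 19) (.tr (.dx 0 (.tr (.lf 5) (.lf 13) (.lf 6))) (.lf 9) (.lf 10))), 0, [13, 13, 1, 1], []⟩)
    (.lf ⟨[.ofNat 0, .negSucc 8354879, .ofNat 17251440, .negSucc 15014399, .ofNat 5297520, .negSucc 792479], (.tr (.lf 9) (.lf 10) (.tr (.dx 0 (.tr (.lf 5) (.lf 13) (.lf 6))) (.lf 19) (.lf 14))), 0, [12, 12, 6, 6], []⟩))))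

/-- data -/
def dV2x16 : RT := (.nd (.nd (.nd (.lf ⟨[.ofNat 0, .negSucc 10686239, .ofNat 25014840, .negSucc 22318079, .ofNat 8058360, .negSucc 1249679], (.tw (.lf 14) (.tr (.tw (.lf 9) (.lf 10)) (.dx 0 (.tr (.lf 5) (.lf 13) (.lf 6))) (.lf 19))), 0, [36, 36, 36, 36, 13, 13, 13, 13], []⟩)
    (.lf ⟨[.ofNat 0, .negSucc 33103439, .ofNat 90350220, .negSucc 88002959, .ofNat 32714700, .negSucc 5227319], (.tr (.dx 0 (.tr (.lf 5) (.lf 6) (.lf 13))) (.lf 19) (.tr (.lf 9) (.lf 14) (.lf 10))), 0, [7, 7, 7, 7], []⟩))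
    (.nd (.lf ⟨[.ofNat 0, .ofNat 20321280, .negSucc 22881119, .ofNat 9986880, .negSucc 1645919], (.tr (.lf 19) (.dx 0 (.tr (.lf 5) (.lf 6) (.lf 13))) (.tr (.lf 9) (.lf 14) (.lf 10))), 0, [7, 7, 7, 7], []⟩)
    (.lf ⟨[.ofNat 0, .negSucc 529919, .ofNat 9607680, .negSucc 12258239, .ofNat 5043840, .negSucc 853439], (.tr (.dx 0 (.tr (.lf 9) (.lf 10) (.lf 13))) (.lf 14) (.tr (.lf 5) (.lf 19) (.lf 6))), 0, [17, 17, 17, 17], []⟩)))
    (.nd (.nd (.lf ⟨[.ofNat 0, .ofNat 529920, .negSucc 9607679, .ofNat 12258240, .negSucc 5043839, .ofNat 853440], (.tr (.dx 0 (.lf 19)) (.tr (.lf 13) (.lf 14) (.tr (.lf 5) (.lf 9) (.lf 6))) (.lf 10)), 0, [35, 35, 30, 30], []⟩)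
    (.lf ⟨[.ofNat 0, .ofNat 15958080, .ofNat 27811440, .negSucc 54269759, .ofNat 24987120, .negSucc 4571999], (.tr (.lf 19) (.dx 0 (.tr (.lf 9) (.lf 10) (.lf 13))) (.tr (.lf 5) (.lf 14) (.lf 6))), 0, [25, 25, 25, 25], []⟩))
    (.nd (.lf ⟨[.ofNat 0, .negSucc 30000959, .ofNat 12745680, .ofNat 14228160, .negSucc 9896879, .ofNat 2133600], (.tr (.tw (.dx 0 (.tr (.tw (.lf 5) (.lf 6)) (.lf 13) (.lf 9))) (.lf 10)) (.lf 14) (.lf 19)), 0, [0, 0, 39, 39, 12, 12, 12, 12], []⟩)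
    (.lf ⟨[.ofNat 0, .ofNat 37330560, .negSucc 22218239, .negSucc 9633599, .ofNat 8870400, .negSucc 2072639], (.tr (.dx 0 (.tr (.tw (.lf 5) (.lf 6)) (.lf 13) (.lf 9))) (.lf 10) (.tw (.lf 14) (.lf 19))), 0, [0, 0, 0, 0, 39, 5, 39, 5], []⟩))))

/-- data -/
def dV2x17 : RT := (.nd (.nd (.nd (.lf ⟨[.ofNat 0, .negSucc 19382399, .ofNat 1463520, .ofNat 18591360, .negSucc 10394399, .ofNat 2072640], (.tr (.tw (.dx 0 (.tr (.tw (.lf 5) (.lf 6)) (.lf 13) (.lf 9))) (.lf 10)) (.lf 19) (.lf 14)), 0, [0, 0, 5, 5, 5, 5, 12, 12], []⟩)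
    (.lf ⟨[.ofNat 0, .ofNat 17009280, .ofNat 662880, .negSucc 19620479, .ofNat 10516320, .negSucc 2072639], (.tr (.dx 0 (.tr (.lf 5) (.tw (.lf 13) (.lf 14)) (.lf 9))) (.lf 6) (.tw (.lf 10) (.lf 19))), 0, [0, 29, 0, 29, 15, 29, 15, 29], []⟩))
    (.nd (.lf ⟨[.ofNat 0, .negSucc 7329599, .ofNat 9472560, .negSucc 4594559, .ofNat 1026480, .negSucc 60959], (.tr (.tw (.dx 0 (.tr (.lf 5) (.tw (.lf 13) (.lf 14)) (.lf 9))) (.lf 6)) (.lf 10) (.lf 19)), 0, [0, 0, 15, 15, 32, 32, 15, 15], []⟩)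
    (.lf ⟨[.ofNat 0, .negSucc 13786559, .ofNat 14980080, .negSucc 5922239, .ofNat 741360, .ofNat 60960], (.tr (.lf 6) (.dx 0 (.tr (.lf 9) (.lf 10) (.tr (.lf 13) (.lf 5) (.lf 14)))) (.lf 19)), 0, [3, 3, 32, 32], []⟩)))
    (.nd (.nd (.lf ⟨[.ofNat 0, .negSucc 17948159, .ofNat 20754720, .negSucc 8957759, .ofNat 1524000], (.tr (.dx 0 (.tr (.tw (.lf 5) (.lf 6)) (.lf 13) (.lf 9))) (.tw (.lf 10) (.lf 19)) (.lf 14)), 0, [0, 0, 0, 0, 5, 37, 5, 37], []⟩)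
    (.lf ⟨[.ofNat 0, .ofNat 19019520, .negSucc 28835039, .ofNat 19260480, .negSucc 5795039, .ofNat 731520], (.tr (.dx 0 (.tr (.tw (.lf 5) (.lf 6)) (.lf 13) (.lf 9))) (.lf 19) (.tw (.lf 10) (.lf 14))), 0, [0, 0, 0, 0, 37, 7, 37, 7], []⟩))
    (.nd (.lf ⟨[.ofNat 0, .ofNat 7974360, .negSucc 23610089, .ofNat 22703640, .negSucc 8241449, .ofNat 1226820], (.tw (.dx 0 (.tr (.lf 9) (.tr (.tw (.lf 13) (.lf 14)) (.lf 5) (.lf 19)) (.lf 10))) (.lf 6)), 0, [33, 33, 20, 20, 33, 33, 20, 20], []⟩)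
    (.lf ⟨[.ofNat 0, .negSucc 23109839, .ofNat 50594220, .negSucc 43049999, .ofNat 14839980, .negSucc 2057399], (.tr (.dx 0 (.tr (.tw (.lf 5) (.lf 6)) (.lf 13) (.lf 9))) (.tw (.lf 14) (.lf 19)) (.lf 10)), 0, [0, 0, 0, 0, 29, 7, 29, 7], []⟩))))

/-- data -/
def dV2x18 : RT := (.nd (.nd (.nd (.lf ⟨[.ofNat 0, .ofNat 8354880, .negSucc 17251439, .ofNat 15014400, .negSucc 5297519, .ofNat 792480], (.tr (.lf 5) (.tr (.lf 6) (.dx 0 (.tr (.lf 9) (.lf 13) (.lf 10))) (.lf 19)) (.lf 14)), 0, [32, 32, 16, 16], []⟩)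
    (.lf ⟨[.ofNat 0, .ofNat 14710680, .negSucc 26194649, .ofNat 23372760, .negSucc 7910489, .ofNat 1287780], (.tr (.dx 0 (.tr (.lf 9) (.tr (.lf 5) (.lf 6) (.lf 13)) (.lf 10))) (.lf 14) (.lf 19)), 0, [20, 39, 20, 39], []⟩))
    (.nd (.lf ⟨[.ofNat 0, .negSucc 11260799, .ofNat 27471120, .negSucc 26750399, .ofNat 9552720, .negSucc 1523999], (.tr (.tw (.lf 6) (.lf 14)) (.dx 0 (.tr (.tw (.lf 9) (.lf 10)) (.lf 5) (.lf 13))) (.lf 19)), 0, [24, 24, 24, 24, 3, 3, 3, 3], []⟩)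
    (.lf ⟨[.ofNat 0, .ofNat 11260800, .negSucc 27471119, .ofNat 26750400, .negSucc 9552719, .ofNat 1524000], (.tr (.lf 6) (.tr (.dx 0 (.tw (.lf 5) (.lf 9))) (.tw (.lf 13) (.lf 14)) (.lf 10)) (.lf 19)), 0, [32, 32, 15, 15, 8, 8, 8, 8], [15, 15, 8, 8]⟩)))
    (.nd (.nd (.lf ⟨[.ofNat 0, .ofNat 18619200, .negSucc 20165039, .negSucc 13043039, .ofNat 39703440, .negSucc 18102719, .ofNat 3413760], (.tr (.dx 1 (.lf 1)) (.lf 15) (.tr (.lf 2) (.lf 19) (.tw (.lf 9) (.lf 10)))), 1, [29, 29, 32, 32], [29, 29, 31, 31]⟩)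
    (.lf ⟨[.ofNat 0, .ofNat 66891600, .negSucc 136869179, .ofNat 118711440, .negSucc 40951739, .ofNat 6263640], (.tr (.tw (.dx 0 (.tr (.tw (.lf 9) (.lf 10)) (.lf 5) (.lf 13))) (.lf 19)) (.lf 14) (.lf 6)), 0, [20, 20, 10, 10, 25, 25, 25, 25], []⟩))
    (.nd (.lf ⟨[.ofNat 0, .negSucc 40851719, .ofNat 76572150, .negSucc 62255879, .ofNat 20703990, .negSucc 3040379], (.tr (.dx 0 (.tr (.lf 5) (.tw (.lf 9) (.lf 19)) (.lf 6))) (.tw (.lf 13) (.lf 14)) (.lf 10)), 0, [7, 7, 7, 7, 7, 7, 7, 7], []⟩)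
    (.lf ⟨[.ofNat 0, .negSucc 3449879, .negSucc 1276469, .ofNat 3377640, .negSucc 1642229, .ofNat 236220], (.tr (.dx 0 (.tw (.lf 9) (.tr (.lf 10) (.tw (.lf 5) (.lf 6)) (.lf 13)))) (.lf 14) (.lf 19)), 0, [20, 20, 39, 39, 20, 20, 10, 10], []⟩))))

/-- data -/
def dV2x19 : RT := (.nd (.nd (.nd (.lf ⟨[.ofNat 0, .ofNat 22901040, .negSucc 66141779, .ofNat 66719280, .negSucc 25213139, .ofNat 4160520], (.tr (.dx 0 (.tr (.lf 9) (.lf 10) (.tr (.lf 5) (.lf 6) (.lf 13)))) (.lf 14) (.lf 19)), 0, [20, 20, 0, 10], []⟩)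
    (.lf ⟨[.ofNat 0, .ofNat 10148760, .negSucc 39024809, .ofNat 42633240, .negSucc 16755689, .ofNat 2811780], (.tw (.lf 19) (.tr (.dx 0 (.tr (.lf 5) (.lf 6) (.lf 13))) (.tw (.lf 9) (.lf 10)) (.lf 14))), 0, [37, 37, 37, 37, 11, 1, 11, 1], []⟩))
    (.nd (.lf ⟨[.ofNat 0, .ofNat 2603520, .ofNat 11907840, .negSucc 18547199, .ofNat 8298240, .negSucc 1463039], (.tr (.dx 0 (.tr (.lf 5) (.lf 6) (.lf 13))) (.lf 9) (.tr (.lf 10) (.lf 14) (.lf 19))), 0, [0, 0, 10, 7], []⟩)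
    (.lf ⟨[.ofNat 0, .negSucc 43198559, .ofNat 144191400, .negSucc 151985759, .ofNat 58724520, .negSucc 9784079], (.tr (.lf 14) (.lf 9) (.tr (.lf 10) (.dx 0 (.tr (.lf 5) (.lf 6) (.lf 13))) (.lf 19))), 0, [36, 36, 13, 13], []⟩)))
    (.nd (.nd (.lf ⟨[.ofNat 0, .negSucc 24019919, .ofNat 44317740, .negSucc 33776399, .ofNat 10690860, .negSucc 1325879], (.tw (.dx 0 (.tr (.lf 5) (.lf 6) (.lf 13))) (.tr (.lf 9) (.tw (.lf 14) (.lf 19)) (.lf 10))), 0, [0, 0, 0, 0, 10, 7, 10, 7], []⟩)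
    (.lf ⟨[.ofNat 0, .negSucc 11986199, .ofNat 37111050, .negSucc 38510999, .ofNat 14742090, .negSucc 2446019], (.tw (.lf 19) (.tr (.dx 0 (.tr (.lf 9) (.lf 10) (.lf 13))) (.tw (.lf 5) (.lf 6)) (.lf 14))), 0, [19, 19, 19, 19, 38, 21, 38, 21], []⟩))
    (.nd (.lf ⟨[.ofNat 0, .negSucc 1420379, .ofNat 10716945, .negSucc 12557579, .ofNat 5073105, .negSucc 872489], (.tr (.lf 9) (.tr (.lf 5) (.tr (.dx 0 .on) (.lf 10) (.tw (.lf 13) (.lf 14))) (.lf 6)) (.lf 19)), 0, [34, 34, 27, 27, 34, 34, 27, 27], [34, 34, 27, 27, 34, 34, 27, 27]⟩)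
    (.lf ⟨[.ofNat 0, .ofNat 47944800, .negSucc 148444199, .ofNat 154044000, .negSucc 58968359, .ofNat 9784080], (.tr (.dx 0 (.tr (.lf 9) (.lf 10) (.lf 13))) (.lf 5) (.tr (.lf 6) (.lf 14) (.lf 19))), 0, [20, 20, 39, 25], []⟩))))

/-- data -/
def dV2x20 : RT := (.nd (.nd (.nd (.lf ⟨[.ofNat 0, .negSucc 1071359, .ofNat 8080320, .negSucc 10302719, .ofNat 4271040, .negSucc 731519], (.tr (.lf 19) (.lf 14) (.tr (.dx 0 (.tr (.lf 9) (.lf 10) (.lf 13))) (.lf 5) (.lf 6))), 0, [33, 33, 38, 21], []⟩)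
    (.lf ⟨[.ofNat 0, .ofNat 1071360, .negSucc 8080319, .ofNat 10302720, .negSucc 4271039, .ofNat 731520], (.tr (.lf 14) (.tr (.dx 0 (.tr (.lf 9) (.lf 10) (.lf 13))) (.lf 5) (.lf 6)) (.lf 19)), 0, [27, 22, 18, 18], []⟩))
    (.nd (.lf ⟨[.ofNat 0, .ofNat 6036480, .negSucc 21545279, .ofNat 23126400, .negSucc 8907839, .ofNat 1463040], (.tw (.lf 19) (.tr (.dx 0 (.tr (.lf 5) (.lf 6) (.lf 13))) (.lf 14) (.tw (.lf 9) (.lf 10)))), 0, [7, 7, 7, 7, 14, 1, 14, 1], []⟩)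
    (.lf ⟨[.ofNat 0, .negSucc 1074239, .ofNat 18598320, .negSucc 23073119, .ofNat 9421680, .negSucc 1584959], (.tr (.dx 0 (.tw (.lf 13) (.tr (.tw (.lf 5) (.lf 6)) (.lf 9) (.lf 10)))) (.lf 14) (.lf 19)), 0, [10, 10, 39, 39, 0, 0, 20, 20], []⟩)))
    (.nd (.nd (.lf ⟨[.ofNat 0, .ofNat 2148480, .negSucc 37196639, .ofNat 46146240, .negSucc 18843359, .ofNat 3169920], (.tr (.lf 14) (.dx 0 (.tr (.lf 5) (.lf 6) (.tr (.lf 9) (.lf 10) (.lf 13)))) (.lf 19)), 0, [3, 3, 22, 22], []⟩)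
    (.lf ⟨[.ofNat 0, .negSucc 29063519, .ofNat 54281640, .negSucc 43256159, .ofNat 14576040, .negSucc 2225039], (.tr (.dx 0 (.tr (.lf 5) (.tr (.lf 9) (.lf 10) (.lf 13)) (.lf 6))) (.lf 19) (.lf 14)), 0, [0, 5, 0, 5], []⟩))
    (.nd (.lf ⟨[.ofNat 0, .ofNat 80019360, .negSucc 157173719, .ofNat 130236960, .negSucc 44805719, .ofNat 6797040], (.tr (.dx 0 (.tr (.lf 5) (.lf 6) (.tr (.lf 9) (.lf 13) (.lf 10)))) (.lf 19) (.lf 14)), 0, [0, 0, 5, 5], []⟩)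
    (.lf ⟨[.ofNat 0, .ofNat 18859680, .negSucc 54495959, .ofNat 54288480, .negSucc 20321879, .ofNat 3261360], (.tr (.dx 0 (.tr (.lf 13) (.lf 5) (.tr (.lf 9) (.lf 6) (.lf 10)))) (.lf 19) (.lf 14)), 0, [10, 10, 5, 5], []⟩))))

/-- data -/
def dV2x21 : RT := (.nd (.nd (.nd (.lf ⟨[.ofNat 0, .negSucc 339839, .ofNat 3878880, .negSucc 5151359, .ofNat 2135520, .negSucc 365759], (.tr (.dx 0 (.tr (.lf 9) (.lf 13) (.tr (.lf 5) (.lf 10) (.lf 6)))) (.lf 19) (.lf 14)), 0, [5, 5, 0, 0], []⟩)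
    (.lf ⟨[.ofNat 0, .negSucc 1923839, .ofNat 2237760, .negSucc 888959, .ofNat 121920], (.tr (.dx 0 (.tr (.lf 5) (.lf 13) (.lf 19))) (.tr (.lf 9) (.lf 6) (.lf 10)) (.lf 14)), 0, [37, 37, 37, 37], []⟩))
    (.nd (.lf ⟨[.ofNat 0, .negSucc 339839, .ofNat 3878880, .negSucc 5151359, .ofNat 2135520, .negSucc 365759], (.tr (.dx 0 (.tw (.lf 5) (.tr (.lf 9) (.tw (.lf 6) (.lf 13)) (.lf 10)))) (.lf 19) (.lf 14)), 0, [0, 0, 0, 0, 5, 5, 5, 5], []⟩)
    (.lf ⟨[.ofNat 0, .negSucc 19367999, .ofNat 60470640, .negSucc 62635199, .ofNat 23764080, .negSucc 3840479], (.tr (.lf 14) (.dx 0 (.tr (.lf 5) (.tr (.lf 6) (.lf 13) (.lf 9)) (.lf 10))) (.lf 19)), 0, [3, 3, 3, 22], []⟩)))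
    (.nd (.nd (.lf ⟨[.ofNat 0, .ofNat 1457280, .ofNat 15461280, .negSucc 21957119, .ofNat 9253920, .negSucc 1584959], (.tr (.dx 0 (.tw (.lf 13) (.lf 14))) (.lf 5) (.tr (.lf 6) (.tw (.lf 9) (.lf 10)) (.lf 19))), 0, [10, 10, 10, 10, 10, 10, 10, 10], []⟩)
    (.lf ⟨[.ofNat 0, .ofNat 6791040, .negSucc 15428639, .ofNat 14001120, .negSucc 5023199, .ofNat 792480], (.tr (.dx 0 (.tw (.lf 13) (.lf 14))) (.tr (.lf 5) (.lf 19) (.tw (.lf 9) (.lf 10))) (.lf 6)), 0, [10, 10, 17, 17, 10, 10, 17, 17], []⟩))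
    (.nd (.lf ⟨[.ofNat 0, .negSucc 1457279, .negSucc 15461279, .ofNat 21957120, .negSucc 9253919, .ofNat 1584960], (.tr (.dx 0 (.tw (.lf 13) (.lf 14))) (.tr (.tw (.lf 5) (.lf 6)) (.lf 9) (.lf 10)) (.lf 19)), 0, [10, 10, 10, 10, 10, 10, 10, 10], []⟩)
    (.lf ⟨[.ofNat 0, .ofNat 97920, .negSucc 80639], (.tr (.dx 0 (.tw (.lf 13) (.lf 14))) (.lf 9) (.tr (.lf 10) (.tw (.lf 5) (.lf 6)) (.lf 19))), 0, [10, 10, 10, 10, 10, 10, 10, 10], []⟩))))

/-- data -/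
def dV2x22 : RT := (.nd (.nd (.nd (.lf ⟨[.ofNat 0, .negSucc 7735679, .negSucc 418559, .ofNat 7921440, .negSucc 4230719, .ofNat 792480], (.tw (.dx 0 (.tw (.lf 13) (.lf 14))) (.tr (.lf 5) (.tr (.lf 9) (.lf 10) (.lf 19)) (.lf 6))), 0, [10, 10, 10, 10, 10, 10, 10, 10], []⟩)
    (.lf ⟨[.ofNat 0, .ofNat 3859200, .ofNat 4592640, .negSucc 9747359, .ofNat 4474560, .negSucc 792479], (.tr (.dx 0 (.tw (.lf 13) (.lf 14))) (.tr (.lf 5) (.tw (.lf 9) (.lf 10)) (.lf 19)) (.lf 6)), 0, [10, 10, 9, 9, 10, 10, 9, 9], []⟩))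
    (.nd (.lf ⟨[.ofNat 0, .negSucc 13229999, .ofNat 23974140, .negSucc 19508399, .ofNat 6374940, .negSucc 960119], (.tr (.dx 0 (.tw (.lf 13) (.lf 14))) (.lf 5) (.tr (.lf 9) (.tw (.lf 6) (.lf 19)) (.lf 10))), 0, [10, 10, 10, 10, 10, 10, 10, 10], []⟩)
    (.lf ⟨[.ofNat 0, .ofNat 4807440, .negSucc 7732379, .ofNat 5365680, .negSucc 1650779, .ofNat 228600], (.tr (.dx 0 (.tw (.lf 13) (.lf 14))) (.tr (.lf 5) (.tw (.lf 9) (.lf 19)) (.lf 6)) (.lf 10)), 0, [10, 35, 10, 35, 10, 35, 10, 35], []⟩)))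
    (.nd (.nd (.lf ⟨[.ofNat 0, .negSucc 13538879, .ofNat 35171760, .negSucc 36134879, .ofNat 14006640, .negSucc 2316479], (.tw (.dx 0 (.tw (.lf 13) (.lf 14))) (.tr (.lf 5) (.lf 19) (.tr (.lf 9) (.lf 6) (.lf 10)))), 0, [35, 35, 10, 10, 35, 35, 10, 10], []⟩)
    (.lf ⟨[.ofNat 0, .ofNat 6791040, .negSucc 15428639, .ofNat 14001120, .negSucc 5023199, .ofNat 792480], (.tr (.dx 0 (.tw (.lf 13) (.lf 14))) (.lf 9) (.tr (.lf 5) (.tw (.lf 10) (.lf 19)) (.lf 6))), 0, [10, 10, 10, 10, 10, 10, 10, 10], []⟩))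
    (.nd (.lf ⟨[.ofNat 0, .negSucc 19303199, .ofNat 58415160, .negSucc 59503199, .ofNat 22457400, .negSucc 3627119], (.tr (.dx 0 (.tr (.lf 13) (.lf 5) (.lf 14))) (.lf 9) (.tr (.lf 10) (.lf 6) (.lf 19))), 0, [10, 10, 10, 10], []⟩)
    (.lf ⟨[.ofNat 0, .ofNat 38893320, .negSucc 84955469, .ofNat 75227880, .negSucc 26605229, .ofNat 4107180], (.tw (.lf 19) (.tr (.dx 0 (.tr (.lf 13) (.lf 5) (.lf 14))) (.tw (.lf 9) (.lf 10)) (.lf 6))), 0, [9, 9, 9, 9, 11, 11, 11, 11], []⟩))))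

/-- data -/
def dV2x23 : RT := (.nd (.nd (.nd (.lf ⟨[.ofNat 0, .negSucc 11077919, .ofNat 30256440, .negSucc 29247359, .ofNat 10905720, .negSucc 1737359], (.tw (.lf 6) (.tr (.tw (.lf 9) (.lf 10)) (.dx 0 (.tr (.lf 13) (.lf 5) (.lf 14))) (.lf 19))), 0, [8, 8, 8, 8, 13, 13, 13, 13], []⟩)
    (.lf ⟨[.ofNat 0, .ofNat 22155840, .negSucc 60512879, .ofNat 58494720, .negSucc 21811439, .ofNat 3474720], (.tr (.lf 6) (.lf 19) (.tr (.dx 0 (.tr (.lf 13) (.lf 5) (.lf 14))) (.lf 9) (.lf 10))), 0, [13, 13, 11, 11], []⟩))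
    (.nd (.lf ⟨[.ofNat 0, .negSucc 55630799, .ofNat 109398060, .negSucc 91961039, .ofNat 31399020, .negSucc 4739639], (.tr (.tw (.dx 0 (.tr (.lf 5) (.lf 9) (.tw (.lf 13) (.lf 14)))) (.lf 6)) (.lf 10) (.lf 19)), 0, [0, 0, 10, 10, 32, 32, 15, 15], []⟩)
    (.lf ⟨[.ofNat 0, .ofNat 66891600, .negSucc 136869179, .ofNat 118711440, .negSucc 40951739, .ofNat 6263640], (.tr (.lf 6) (.tw (.dx 0 (.tr (.lf 5) (.lf 9) (.tw (.lf 13) (.lf 14)))) (.lf 10)) (.lf 19)), 0, [32, 32, 15, 15, 8, 8, 3, 3], []⟩)))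
    (.nd (.nd (.lf ⟨[.ofNat 0, .ofNat 2525760, .ofNat 12491040, .negSucc 20828159, .ofNat 8811360, .negSucc 1584959], (.tr (.lf 14) (.tr (.dx 0 (.tw (.lf 5) (.lf 13))) (.tw (.lf 9) (.lf 10)) (.lf 6)) (.lf 19)), 0, [22, 22, 22, 22, 18, 3, 18, 3], [22, 22, 3, 3]⟩)
    (.lf ⟨[.ofNat 0, .negSucc 13786559, .ofNat 14980080, .negSucc 5922239, .ofNat 741360, .ofNat 60960], (.tr (.lf 14) (.lf 6) (.tr (.tw (.lf 9) (.lf 10)) (.dx 0 (.tw (.lf 5) (.lf 13))) (.lf 19))), 0, [18, 3, 18, 3, 13, 13, 13, 13], [3, 3, 13, 13]⟩))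
    (.nd (.lf ⟨[.ofNat 0, .ofNat 3058560, .ofNat 20232720, .negSucc 31008959, .ofNat 13332240, .negSucc 2377439], (.tr (.dx 0 (.tr (.lf 9) (.tw (.lf 13) (.lf 19)) (.lf 10))) (.lf 14) (.tw (.lf 5) (.lf 6))), 0, [25, 25, 25, 25, 25, 25, 25, 25], []⟩)
    (.lf ⟨[.ofNat 0, .negSucc 38118959, .ofNat 97454100, .negSucc 93095279, .ofNat 33893460, .negSucc 5379719], (.tr (.dx 0 (.tr (.lf 5) (.lf 13) (.lf 14))) (.lf 19) (.tr (.lf 9) (.lf 6) (.lf 10))), 0, [35, 35, 35, 35], []⟩))))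

/-- data -/
def dV2x24 : RT := (.nd (.nd (.nd (.lf ⟨[.ofNat 0, .negSucc 766079, .ofNat 957600, .negSucc 323519, .ofNat 60960], (.tr (.dx 0 (.tr (.tw (.lf 5) (.lf 6)) (.lf 13) (.lf 14))) (.tw (.lf 9) (.lf 10)) (.lf 19)), 0, [15, 15, 15, 15, 10, 10, 10, 10], []⟩)
    (.lf ⟨[.ofNat 0, .negSucc 5327999, .ofNat 4364640, .negSucc 803999, .negSucc 142559, .ofNat 60960], (.tr (.dx 0 (.tr (.tw (.lf 5) (.lf 6)) (.lf 13) (.lf 14))) (.lf 19) (.tw (.lf 9) (.lf 10))), 0, [29, 29, 29, 29, 29, 29, 29, 29], []⟩))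
    (.nd (.lf ⟨[.ofNat 0, .ofNat 8619840, .negSucc 8429999, .ofNat 3496320, .negSucc 655919, .ofNat 60960], (.tr (.lf 5) (.dx 0 (.tr (.lf 13) (.lf 9) (.lf 14))) (.tr (.lf 10) (.lf 6) (.lf 19))), 0, [32, 35, 32, 35], []⟩)
    (.lf ⟨[.ofNat 0, .negSucc 2715839, .negSucc 3035759, .ofNat 12745920, .negSucc 6823919, .ofNat 1402080], (.tr (.lf 10) (.lf 5) (.tr (.lf 6) (.dx 0 (.tr (.lf 13) (.lf 9) (.lf 14))) (.lf 19))), 0, [34, 34, 34, 34], []⟩)))
    (.nd (.nd (.lf ⟨[.ofNat 0, .negSucc 2754719, .ofNat 4980120, .negSucc 3630719, .ofNat 1164120, .negSucc 152399], (.tw (.lf 19) (.tr (.lf 5) (.tw (.dx 0 (.tr (.lf 13) (.lf 9) (.lf 14))) (.lf 10)) (.lf 6))), 0, [26, 26, 33, 33, 26, 26, 33, 33], []⟩)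
    (.lf ⟨[.ofNat 0, .negSucc 2211839, .negSucc 165119, .ofNat 2666880, .negSucc 1301759, .ofNat 243840], (.tr (.lf 19) (.lf 5) (.tr (.dx 0 (.tr (.lf 13) (.lf 9) (.lf 14))) (.lf 10) (.lf 6))), 0, [26, 26, 26, 26], []⟩))
    (.nd (.lf ⟨[.ofNat 0, .ofNat 5191200, .negSucc 3503159, .negSucc 571199, .ofNat 849480, .negSucc 213359], (.tw (.dx 0 (.tr (.lf 13) (.lf 9) (.lf 14))) (.tr (.lf 10) (.tw (.lf 5) (.lf 6)) (.lf 19))), 0, [27, 27, 35, 35, 27, 27, 35, 35], []⟩)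
    (.lf ⟨[.ofNat 0, .negSucc 2211839, .negSucc 165119, .ofNat 2666880, .negSucc 1301759, .ofNat 243840], (.tr (.dx 0 (.tr (.lf 13) (.lf 9) (.lf 14))) (.lf 19) (.tr (.lf 5) (.lf 6) (.lf 10))), 0, [35, 9, 35, 9], []⟩))))

/-- data -/
def dV2 : RT := (.nd (.nd (.nd (.nd dV2x0 (.nd dV2x1 dV2x2)) (.nd dV2x3 (.nd dV2x4 dV2x5))) (.nd (.nd dV2x6 (.nd dV2x7 dV2x8)) (.nd dV2x9 (.nd dV2x10 dV2x11)))) (.nd (.nd (.nd dV2x12 (.nd dV2x13 dV2x14)) (.nd dV2x15 (.nd dV2x16 dV2x17))) (.nd (.nd dV2x18 (.nd dV2x19 dV2x20)) (.nd (.nd dV2x21 dV2x22) (.nd dV2x23 dV2x24)))))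

/-- data -/
def lV2x0 : List (ℕ × List ℤ) := [(38173, [.ofNat 0, .ofNat 0, .ofNat 0, .ofNat 1221120, .negSucc 1082879, .ofNat 161280]),
  (38243, [.ofNat 0, .ofNat 0, .ofNat 17907840, .negSucc 19590239, .ofNat 49775040, .negSucc 82372319, .ofNat 35961600, .negSucc 6827519]),
  (42597, [.ofNat 0, .ofNat 0, .ofNat 0, .ofNat 10575360, .negSucc 9359999, .ofNat 994560, .negSucc 243839]),
  (42604, [.ofNat 0, .ofNat 0, .ofNat 0, .ofNat 6796800, .negSucc 8394239, .ofNat 2741760, .negSucc 487679]),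
  (42732, [.ofNat 0, .ofNat 0, .negSucc 55146239, .ofNat 61141440, .negSucc 24771839, .ofNat 3126720, .ofNat 243840]),
  (42765, [.ofNat 0, .ofNat 0, .ofNat 0, .ofNat 8893440, .negSucc 11842559, .ofNat 6028800, .negSucc 975359]),
  (42794, [.ofNat 0, .ofNat 0, .ofNat 0, .ofNat 8893440, .negSucc 11842559, .ofNat 6028800, .negSucc 975359]),
  (42795, [.ofNat 0, .ofNat 0, .ofNat 0, .ofNat 16151040, .negSucc 16671359, .ofNat 3575040, .negSucc 731519]),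
  (42828, [.ofNat 0, .ofNat 0, .ofNat 0, .negSucc 1221119, .ofNat 1082880, .negSucc 161279]),
  (43115, [.ofNat 0, .ofNat 0, .ofNat 0, .ofNat 1221120, .negSucc 1082879, .ofNat 161280]),
  (43293, [.ofNat 0, .ofNat 0, .negSucc 37238399, .ofNat 40330080, .ofNat 26086080, .negSucc 79406879, .ofNat 36205440, .negSucc 6827519]),
  (43339, [.ofNat 0, .ofNat 0, .ofNat 0, .negSucc 1221119, .ofNat 1082880, .negSucc 161279]),
  (336732, [.ofNat 0, .ofNat 0, .negSucc 3746879, .ofNat 21951600, .negSucc 25408319, .ofNat 10097520, .negSucc 1645919]),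
  (341669, [.ofNat 0, .ofNat 0, .negSucc 3746879, .ofNat 21951600, .negSucc 25408319, .ofNat 10097520, .negSucc 1645919]),
  (2435308, [.ofNat 0, .ofNat 12407040, .negSucc 51410879, .ofNat 78440640, .negSucc 59282879, .ofNat 20458560, .negSucc 3169919]),
  (2435420, [.ofNat 0, .ofNat 12407040, .negSucc 51410879, .ofNat 78440640, .negSucc 59282879, .ofNat 20458560, .negSucc 3169919]),
  (2438933, [.ofNat 0, .negSucc 7850879, .ofNat 9772320, .negSucc 35282879, .ofNat 30804000, .negSucc 11794559, .ofNat 1706880]),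
  (2439531, [.ofNat 0, .negSucc 2142719, .ofNat 25238400, .negSucc 9177599, .negSucc 15240959, .ofNat 10252800, .negSucc 2194559]),
  (2440035, [.ofNat 0, .negSucc 2142719, .ofNat 25238400, .negSucc 9177599, .negSucc 15240959, .ofNat 10252800, .negSucc 2194559]),
  (2442965, [.ofNat 0, .negSucc 7850879, .ofNat 9772320, .negSucc 35282879, .ofNat 30804000, .negSucc 11794559, .ofNat 1706880]),
  (2443109, [.ofNat 0, .ofNat 0, .ofNat 15137280, .negSucc 15331199, .ofNat 5295360, .negSucc 731519]),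
  (2444005, [.ofNat 0, .ofNat 0, .ofNat 16358400, .negSucc 16414079, .ofNat 5456640, .negSucc 731519]),
  (2447141, [.ofNat 0, .negSucc 81250559, .ofNat 247287360, .negSucc 261028799, .ofNat 121260480, .negSucc 27769919, .ofNat 2438400]),
  (2447595, [.ofNat 0, .ofNat 37238400, .negSucc 40330079, .negSucc 26086079, .ofNat 79406880, .negSucc 36205439, .ofNat 6827520]),
  (2447645, [.ofNat 0, .negSucc 81250559, .ofNat 247287360, .negSucc 261028799, .ofNat 121260480, .negSucc 27769919, .ofNat 2438400]),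
  (2665244, [.ofNat 0, .ofNat 0, .negSucc 11036159, .ofNat 10932480, .negSucc 3786239, .ofNat 487680]),
  (2668330, [.ofNat 0, .negSucc 37238399, .ofNat 58197600, .negSucc 15008639, .negSucc 40903199, .ofNat 22416960, .negSucc 4632959]),
  (2668386, [.ofNat 0, .ofNat 49927680, .negSucc 86578559, .negSucc 99350399, .ofNat 213281280, .negSucc 96082559, .ofNat 17312640]),
  (2668701, [.ofNat 0, .ofNat 0, .ofNat 2764800, .negSucc 4181759, .ofNat 3440640, .negSucc 487679]),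
  (2668716, [.ofNat 0, .ofNat 0, .negSucc 12072959, .ofNat 11500800, .negSucc 4001279, .ofNat 487680]),
  (2668884, [.ofNat 0, .ofNat 0, .ofNat 12072960, .negSucc 11500799, .ofNat 4001280, .negSucc 487679]),
  (2668898, [.ofNat 0, .ofNat 0, .negSucc 11036159, .ofNat 10932480, .negSucc 3786239, .ofNat 487680]),
  (2669221, [.ofNat 0, .ofNat 0, .ofNat 3801600, .negSucc 2254079, .ofNat 1259520]),
  (2669228, [.ofNat 0, .ofNat 0, .negSucc 8156159, .ofNat 6718080, .negSucc 3383039, .ofNat 243840]),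
  (2669338, [.ofNat 0, .ofNat 0, .ofNat 2350080, .negSucc 2826239, .negSucc 1927679]),
  (2669410, [.ofNat 0, .ofNat 0, .ofNat 10506240, .negSucc 9544319, .ofNat 1455360, .negSucc 243839]),
  (2672300, [.ofNat 0, .ofNat 0, .negSucc 12072959, .ofNat 11500800, .negSucc 4001279, .ofNat 487680]),
  (2672362, [.ofNat 0, .ofNat 0, .negSucc 11727359, .ofNat 10627200, .negSucc 1616639, .ofNat 243840]),
  (2673308, [.ofNat 0, .ofNat 1952640, .ofNat 812640, .negSucc 1175039, .ofNat 1949280, .negSucc 365759]),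
  (2673370, [.ofNat 0, .ofNat 25678080, .negSucc 14477759, .negSucc 170397119, .ofNat 235911360, .negSucc 97419839, .ofNat 16581120]),
  (2673498, [.ofNat 0, .ofNat 0, .negSucc 2764799, .ofNat 4181760, .negSucc 3440639, .ofNat 487680]),
  (2676450, [.ofNat 0, .ofNat 58705920, .negSucc 91123199, .ofNat 23641920, .ofNat 62567040, .negSucc 33401279, .ofNat 6827520]),
  (2676970, [.ofNat 0, .ofNat 0, .negSucc 2350079, .ofNat 2826240, .ofNat 1927680]),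
  (2677411, [.ofNat 0, .negSucc 40734719, .ofNat 40792320, .ofNat 29528640, .negSucc 80899199, .ofNat 36571200, .negSucc 6827519]),
  (2700140, [.ofNat 0, .ofNat 2142720, .negSucc 20745599, .ofNat 26315520, .negSucc 11721599, .ofNat 1950720]),
  (2701548, [.ofNat 0, .ofNat 49645440, .negSucc 92443679, .ofNat 41853120, .ofNat 34222560, .negSucc 21563519, .ofNat 4632960]),
  (2701611, [.ofNat 0, .ofNat 2142720, .negSucc 20745599, .ofNat 26315520, .negSucc 11721599, .ofNat 1950720]),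
  (2701660, [.ofNat 0, .ofNat 49645440, .negSucc 92443679, .ofNat 41853120, .ofNat 34222560, .negSucc 21563519, .ofNat 4632960]),
  (2701925, [.ofNat 0, .negSucc 312744959, .ofNat 966084480, .negSucc 990583199, .ofNat 362354880, .negSucc 58826399]),
  (2702093, [.ofNat 0, .negSucc 71608319, .ofNat 213248640, .negSucc 216691199, .ofNat 99584640, .negSucc 22118399, .ofNat 1950720]),
  (2704101, [.ofNat 0, .ofNat 12407040, .ofNat 613440, .negSucc 30096959, .ofNat 36298560, .negSucc 13544639, .ofNat 2194560]),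
  (2704157, [.ofNat 0, .ofNat 49645440, .negSucc 54715679, .negSucc 6063359, .ofNat 61649760, .negSucc 29087039, .ofNat 5608320]),
  (2705228, [.ofNat 0, .negSucc 266132159, .ofNat 883676240, .negSucc 891669919, .ofNat 306241040, .negSucc 43883519, .negSucc 1463039]),
  (2706125, [.ofNat 0, .negSucc 2142719, .ofNat 16229760, .negSucc 1507199, .negSucc 17948159, .ofNat 10496640, .negSucc 2194559]),
  (2709100, [.ofNat 0, .ofNat 3496320, .negSucc 10622879, .negSucc 31169279, .ofNat 48376800, .negSucc 21111359, .ofNat 3657600]),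
  (2709708, [.ofNat 0, .negSucc 87379199, .ofNat 272758080, .negSucc 277412159, .ofNat 120037440, .negSucc 24596159, .ofNat 1706880]),
  (2710220, [.ofNat 0, .ofNat 14630400, .negSucc 227295359, .ofNat 576066240, .negSucc 552297599, .ofNat 205364160, .negSucc 32918399]),
  (2726117, [.ofNat 0, .ofNat 0, .negSucc 2833919, .ofNat 1391040, .ofNat 716160, .negSucc 121919]),
  (2726122, [.ofNat 0, .ofNat 0, .ofNat 3064320, .negSucc 3830399, .ofNat 1294080, .negSucc 243839]),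
  (2726173, [.ofNat 0, .negSucc 3496319, .ofNat 5669280, .negSucc 1973759, .negSucc 44639, .ofNat 121920]),
  (2726228, [.ofNat 0, .ofNat 0, .ofNat 30274560, .negSucc 30662399, .ofNat 10590720, .negSucc 1463039]),
  (2726565, [.ofNat 0, .negSucc 46287359, .ofNat 129388800, .negSucc 126380159, .ofNat 44021760, .negSucc 6949439]),
  (2726626, [.ofNat 0, .ofNat 0, .ofNat 19422720, .negSucc 20244479, .ofNat 6750720, .negSucc 975359]),
  (2726740, [.ofNat 0, .ofNat 0, .ofNat 5681520, .negSucc 42867779, .ofNat 50230320, .negSucc 20292419, .ofNat 3489960]),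
  (2726754, [.ofNat 0, .negSucc 316272959, .ofNat 1051304240, .negSucc 1085631199, .ofNat 420201200, .negSucc 76010879, .ofNat 2682240]),
  (2732716, [.ofNat 0, .ofNat 49645440, .negSucc 54715679, .negSucc 6063359, .ofNat 61649760, .negSucc 29087039, .ofNat 5608320]),
  (2732842, [.ofNat 0, .ofNat 12407040, .negSucc 63483839, .ofNat 89941440, .negSucc 63284159, .ofNat 20946240, .negSucc 3169919]),
  (2732898, [.ofNat 0, .ofNat 12407040, .negSucc 5549759, .negSucc 13511039, .ofNat 19646400, .negSucc 7484159, .ofNat 1219200]),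
  (2734186, [.ofNat 0, .negSucc 21467519, .ofNat 45620640, .negSucc 22729919, .negSucc 14375519, .ofNat 10008960, .negSucc 2194559]),
  (2734349, [.ofNat 0, .ofNat 14630400, .negSucc 227295359, .ofNat 576066240, .negSucc 552297599, .ofNat 205364160, .negSucc 32918399]),
  (2734412, [.ofNat 0, .ofNat 22106880, .negSucc 58935359, .ofNat 73369920, .negSucc 41872319, .ofNat 12077760, .negSucc 1463039]),
  (2734690, [.ofNat 0, .negSucc 2142719, .ofNat 16229760, .negSucc 1507199, .negSucc 17948159, .ofNat 10496640, .negSucc 2194559]),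
  (2734757, [.ofNat 0, .ofNat 0, .negSucc 37727999, .ofNat 47916480, .negSucc 27427199, .ofNat 7523520, .negSucc 975359]),
  (2734858, [.ofNat 0, .ofNat 25678080, .negSucc 14477759, .negSucc 170397119, .ofNat 235911360, .negSucc 97419839, .ofNat 16581120]),
  (2736869, [.ofNat 0, .ofNat 0, .negSucc 2442239, .ofNat 2165760, .negSucc 322559]),
  (2736874, [.ofNat 0, .ofNat 0, .negSucc 35366399, .ofNat 34481280, .negSucc 14995199, .ofNat 1706880]),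
  (2736876, [.ofNat 0, .ofNat 0, .negSucc 23293439, .ofNat 22980480, .negSucc 10993919, .ofNat 1219200]),
  (2736925, [.ofNat 0, .ofNat 0, .ofNat 8156160, .negSucc 6718079, .ofNat 3383040, .negSucc 243839]),
  (2736938, [.ofNat 0, .ofNat 1952640, .negSucc 466079, .negSucc 305279, .ofNat 470880, .negSucc 121919]),
  (2736939, [.ofNat 0, .ofNat 0, .negSucc 10598399, .ofNat 10648320, .negSucc 4001279, .ofNat 487680]),
  (2736980, [.ofNat 0, .ofNat 0, .ofNat 18178560, .negSucc 20181119, .ofNat 8206080, .negSucc 1219199]),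
  (2736988, [.ofNat 0, .ofNat 1952640, .ofNat 812640, .negSucc 1175039, .ofNat 1949280, .negSucc 365759]),
  (2737451, [.ofNat 0, .negSucc 15690239, .ofNat 36950400, .negSucc 44948159, .ofNat 19077120, .negSucc 3291839]),
  (2737484, [.ofNat 0, .ofNat 0, .ofNat 3041280, .negSucc 4849919, .ofNat 2910720, .negSucc 487679]),
  (2737765, [.ofNat 0, .ofNat 0, .negSucc 2833919, .ofNat 1391040, .ofNat 716160, .negSucc 121919]),
  (2737996, [.ofNat 0, .ofNat 21335040, .negSucc 69383039, .ofNat 69444480, .negSucc 26079359, .ofNat 3901440]),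
  (2738269, [.ofNat 0, .ofNat 0, .negSucc 4953599, .negSucc 33143039, .ofNat 48332160, .negSucc 20989439, .ofNat 3657600]),
  (2738507, [.ofNat 0, .ofNat 22106880, .negSucc 58935359, .ofNat 73369920, .negSucc 41872319, .ofNat 12077760, .negSucc 1463039]),
  (2738772, [.ofNat 0, .ofNat 0, .ofNat 6128640, .negSucc 7660799, .ofNat 2588160, .negSucc 487679]),
  (2738845, [.ofNat 0, .ofNat 0, .ofNat 2442240, .negSucc 2165759, .ofNat 322560]),
  (2741034, [.ofNat 0, .ofNat 0, .negSucc 3893759, .ofNat 1716480, .negSucc 2626559]),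
  (2742029, [.ofNat 0, .ofNat 1952640, .negSucc 466079, .negSucc 305279, .ofNat 470880, .negSucc 121919]),
  (2742371, [.ofNat 0, .ofNat 0, .negSucc 6796799, .ofNat 8394240, .negSucc 2741759, .ofNat 487680]),
  (2742378, [.ofNat 0, .ofNat 0, .ofNat 12072960, .negSucc 11500799, .ofNat 4001280, .negSucc 487679]),
  (2742435, [.ofNat 0, .negSucc 15690239, .ofNat 35498880, .negSucc 41425919, .ofNat 16905600, .negSucc 2926079]),
  (2742485, [.ofNat 0, .ofNat 0, .negSucc 2442239, .ofNat 2165760, .negSucc 322559]),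
  (2742541, [.ofNat 0, .ofNat 12407040, .negSucc 5549759, .negSucc 13511039, .ofNat 19646400, .negSucc 7484159, .ofNat 1219200]),
  (2742924, [.ofNat 0, .ofNat 24324480, .negSucc 46016159, .ofNat 40331520, .negSucc 14220959, .ofNat 2316480]),
  (2743050, [.ofNat 0, .ofNat 21467520, .negSucc 53557919, .ofNat 53909760, .negSucc 20280479, .ofNat 3291840]),
  (2758429, [.ofNat 0, .ofNat 0, .ofNat 1451520, .negSucc 3522239, .ofNat 2171520, .negSucc 365759])]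

/-- data -/
def lV2x1 : List (ℕ × List ℤ) := [(2759325, [.ofNat 0, .ofNat 0, .negSucc 12072959, .ofNat 11500800, .negSucc 4001279, .ofNat 487680]),
  (2759381, [.ofNat 0, .ofNat 0, .ofNat 3064320, .negSucc 3830399, .ofNat 1294080, .negSucc 243839]),
  (2765484, [.ofNat 0, .ofNat 48240000, .negSucc 129797279, .ofNat 126288000, .negSucc 42233759, .ofNat 6583680]),
  (2765597, [.ofNat 0, .ofNat 0, .ofNat 6128640, .negSucc 7660799, .ofNat 2588160, .negSucc 487679]),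
  (2765658, [.ofNat 0, .ofNat 0, .ofNat 1221120, .negSucc 1082879, .ofNat 161280]),
  (2766437, [.ofNat 0, .ofNat 0, .negSucc 37727999, .ofNat 47916480, .negSucc 27427199, .ofNat 7523520, .negSucc 975359]),
  (2766955, [.ofNat 0, .ofNat 28517760, .negSucc 68748959, .ofNat 60570240, .negSucc 15334559, .ofNat 2194560]),
  (2767179, [.ofNat 0, .ofNat 21335040, .negSucc 57310079, .ofNat 57943680, .negSucc 22078079, .ofNat 3413760]),
  (2767450, [.ofNat 0, .ofNat 0, .ofNat 16358400, .negSucc 16414079, .ofNat 5456640, .negSucc 731519]),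
  (2767461, [.ofNat 0, .negSucc 46287359, .ofNat 126324480, .negSucc 122549759, .ofNat 42727680, .negSucc 6705599]),
  (2767629, [.ofNat 0, .ofNat 0, .negSucc 4285439, .ofNat 4913280, .negSucc 1455359, .ofNat 243840]),
  (2767635, [.ofNat 0, .ofNat 0, .ofNat 6128640, .negSucc 7660799, .ofNat 2588160, .negSucc 487679]),
  (2767658, [.ofNat 0, .ofNat 130435200, .negSucc 392003039, .ofNat 389002560, .negSucc 129909599, .ofNat 20482560]),
  (2767691, [.ofNat 0, .negSucc 253725119, .ofNat 820192400, .negSucc 801728479, .ofNat 242956880, .negSucc 22937279, .negSucc 4632959]),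
  (2770539, [.ofNat 0, .ofNat 0, .negSucc 12072959, .ofNat 11500800, .negSucc 4001279, .ofNat 487680]),
  (2770763, [.ofNat 0, .negSucc 87379199, .ofNat 260685120, .negSucc 265911359, .ofNat 116036160, .negSucc 24108479, .ofNat 1706880]),
  (2771613, [.ofNat 0, .ofNat 12407040, .ofNat 613440, .negSucc 30096959, .ofNat 36298560, .negSucc 13544639, .ofNat 2194560]),
  (2773717, [.ofNat 0, .ofNat 0, .ofNat 11243520, .negSucc 13614719, .ofNat 2668800, .negSucc 731519]),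
  (2774347, [.ofNat 0, .ofNat 130435200, .negSucc 392003039, .ofNat 389002560, .negSucc 129909599, .ofNat 20482560]),
  (2774691, [.ofNat 0, .ofNat 0, .negSucc 6128639, .ofNat 7660800, .negSucc 2588159, .ofNat 487680]),
  (2774730, [.ofNat 0, .ofNat 49927680, .negSucc 86578559, .negSucc 99350399, .ofNat 213281280, .negSucc 96082559, .ofNat 17312640]),
  (2774741, [.ofNat 0, .ofNat 0, .ofNat 5681520, .negSucc 42867779, .ofNat 50230320, .negSucc 20292419, .ofNat 3489960]),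
  (2775642, [.ofNat 0, .negSucc 578877119, .ofNat 1849760720, .negSucc 1882253119, .ofNat 668595920, .negSucc 102709919, .negSucc 1463039]),
  (2791581, [.ofNat 0, .ofNat 0, .negSucc 12072959, .ofNat 11500800, .negSucc 4001279, .ofNat 487680]),
  (2795109, [.ofNat 0, .negSucc 19722239, .ofNat 61048320, .negSucc 65717759, .ofNat 26899200, .negSucc 4389119]),
  (2798861, [.ofNat 0, .ofNat 0, .ofNat 3064320, .negSucc 3830399, .ofNat 1294080, .negSucc 243839]),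
  (2799914, [.ofNat 0, .ofNat 24324480, .negSucc 46016159, .ofNat 40331520, .negSucc 14220959, .ofNat 2316480]),
  (2800403, [.ofNat 0, .ofNat 0, .negSucc 2764799, .ofNat 4181760, .negSucc 3440639, .ofNat 487680]),
  (2802389, [.ofNat 0, .ofNat 0, .ofNat 30274560, .negSucc 30662399, .ofNat 10590720, .negSucc 1463039]),
  (2803402, [.ofNat 0, .negSucc 37238399, .ofNat 58197600, .negSucc 15008639, .negSucc 40903199, .ofNat 22416960, .negSucc 4632959]),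
  (2803436, [.ofNat 0, .negSucc 40734719, .ofNat 40792320, .ofNat 29528640, .negSucc 80899199, .ofNat 36571200, .negSucc 6827519]),
  (19478892, [.ofNat 0, .ofNat 27164160, .negSucc 61714559, .ofNat 56004480, .negSucc 20092799, .ofNat 3169920]),
  (19482341, [.ofNat 0, .ofNat 32359680, .negSucc 20408639, .negSucc 3847679, .ofNat 5411520, .negSucc 1219199]),
  (19483357, [.ofNat 0, .ofNat 15436800, .ofNat 18370560, .negSucc 38989439, .ofNat 17898240, .negSucc 3169919]),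
  (19511660, [.ofNat 0, .ofNat 27164160, .negSucc 61714559, .ofNat 56004480, .negSucc 20092799, .ofNat 3169920]),
  (19514723, [.ofNat 0, .negSucc 15338879, .ofNat 110891040, .negSucc 135880319, .ofNat 54811680, .negSucc 9387839]),
  (19516067, [.ofNat 0, .ofNat 12234240, .ofNat 80930880, .negSucc 124035839, .ofNat 53328960, .negSucc 9509759]),
  (19516076, [.ofNat 0, .negSucc 16709759, .ofNat 34502880, .negSucc 30028799, .ofNat 10595040, .negSucc 1584959]),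
  (19516258, [.ofNat 0, .negSucc 783359, .ofNat 645120]),
  (19540835, [.ofNat 0, .ofNat 12072960, .negSucc 43090559, .ofNat 46252800, .negSucc 17815679, .ofNat 2926080]),
  (19543395, [.ofNat 0, .negSucc 27573119, .ofNat 29960160, .negSucc 11844479, .ofNat 1482720, .ofNat 121920]),
  (19548893, [.ofNat 0, .ofNat 58740480, .negSucc 81478079, .ofNat 52156800, .negSucc 14681279, .ofNat 1950720]),
  (19551901, [.ofNat 0, .negSucc 4423679, .negSucc 330239, .ofNat 5333760, .negSucc 2603519, .ofNat 487680]),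
  (19552029, [.ofNat 0, .negSucc 4423679, .negSucc 330239, .ofNat 5333760, .negSucc 2603519, .ofNat 487680]),
  (19552931, [.ofNat 0, .ofNat 11001600, .negSucc 35010239, .ofNat 35950080, .negSucc 13544639, .ofNat 2194560]),
  (19576613, [.ofNat 0, .negSucc 21311999, .ofNat 17458560, .negSucc 3215999, .negSucc 570239, .ofNat 243840]),
  (19581149, [.ofNat 0, .negSucc 21311999, .ofNat 17458560, .negSucc 3215999, .negSucc 570239, .ofNat 243840]),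
  (19581596, [.ofNat 0, .ofNat 16709760, .negSucc 34502879, .ofNat 30028800, .negSucc 10595039, .ofNat 1584960]),
  (19585187, [.ofNat 0, .negSucc 1071359, .ofNat 8080320, .negSucc 10302719, .ofNat 4271040, .negSucc 731519]),
  (21313324, [.ofNat 0, .ofNat 1497600, .ofNat 46124160, .negSucc 63388799, .ofNat 26928000, .negSucc 4632959]),
  (21317981, [.ofNat 0, .ofNat 8602560, .negSucc 67612559, .ofNat 82689600, .negSucc 34158479, .ofNat 5913120]),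
  (21321948, [.ofNat 0, .ofNat 26749440, .negSucc 11230079, .negSucc 12017279, .ofNat 8380800, .negSucc 1706879]),
  (21322467, [.ofNat 0, .ofNat 1059840, .negSucc 19215359, .ofNat 24516480, .negSucc 10087679, .ofNat 1706880]),
  (21342493, [.ofNat 0, .ofNat 31916160, .ofNat 55622880, .negSucc 108539519, .ofNat 49974240, .negSucc 9143999]),
  (21342572, [.ofNat 0, .negSucc 1359359, .negSucc 4160639, .ofNat 6627840, .negSucc 2847359, .ofNat 487680]),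
  (21345644, [.ofNat 0, .ofNat 1071360, .negSucc 8080319, .ofNat 10302720, .negSucc 4271039, .ofNat 731520]),
  (21347156, [.ofNat 0, .ofNat 2148480, .negSucc 37196639, .ofNat 46146240, .negSucc 18843359, .ofNat 3169920]),
  (21349740, [.ofNat 0, .negSucc 66206879, .ofNat 180700440, .negSucc 176005919, .ofNat 65429400, .negSucc 10454639]),
  (21350557, [.ofNat 0, .negSucc 28085759, .ofNat 81114240, .negSucc 80083199, .ofNat 30180480, .negSucc 4876799]),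
  (21350571, [.ofNat 0, .negSucc 38764799, .ofNat 2927040, .ofNat 37182720, .negSucc 20788799, .ofNat 4145280]),
  (21351252, [.ofNat 0, .negSucc 66206879, .ofNat 180700440, .negSucc 176005919, .ofNat 65429400, .negSucc 10454639]),
  (21374693, [.ofNat 0, .ofNat 44409600, .negSucc 43819199, .ofNat 12556800, .ofNat 360000, .negSucc 731519]),
  (21374827, [.ofNat 0, .negSucc 34925759, .ofNat 109757520, .negSucc 123076799, .ofNat 49423440, .negSucc 8351519]),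
  (21375843, [.ofNat 0, .ofNat 40642560, .negSucc 45762239, .ofNat 19973760, .negSucc 3291839]),
  (21378411, [.ofNat 0, .negSucc 76237919, .ofNat 194908200, .negSucc 186190559, .ofNat 67786920, .negSucc 10759439]),
  (21378725, [.ofNat 0, .ofNat 44409600, .negSucc 43819199, .ofNat 12556800, .ofNat 360000, .negSucc 731519]),
  (21379435, [.ofNat 0, .ofNat 2995200, .ofNat 92248320, .negSucc 126777599, .ofNat 53856000, .negSucc 9265919]),
  (21379820, [.ofNat 0, .negSucc 18561599, .negSucc 5897999, .ofNat 26685120, .negSucc 14065679, .ofNat 2743200]),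
  (21379923, [.ofNat 0, .negSucc 76237919, .ofNat 194908200, .negSucc 186190559, .ofNat 67786920, .negSucc 10759439]),
  (21379939, [.ofNat 0, .ofNat 1497600, .ofNat 46124160, .negSucc 63388799, .ofNat 26928000, .negSucc 4632959]),
  (21383851, [.ofNat 0, .negSucc 14659199, .ofNat 18945120, .negSucc 9189119, .ofNat 2052960, .negSucc 121919]),
  (21387939, [.ofNat 0, .ofNat 40642560, .negSucc 45762239, .ofNat 19973760, .negSucc 3291839]),
  (21407468, [.ofNat 0, .ofNat 5051520, .ofNat 24982080, .negSucc 41656319, .ofNat 17622720, .negSucc 3169919]),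
  (21407523, [.ofNat 0, .negSucc 3634559, .negSucc 10197599, .ofNat 21680640, .negSucc 12555359, .ofNat 2072640]),
  (21412122, [.ofNat 0, .ofNat 28673280, .negSucc 52117439, .ofNat 38983680, .negSucc 12404159, .ofNat 1706880]),
  (21412139, [.ofNat 0, .negSucc 27164159, .ofNat 61714560, .negSucc 56004479, .ofNat 20092800, .negSucc 3169919]),
  (21415660, [.ofNat 0, .negSucc 1059839, .ofNat 19215360, .negSucc 24516479, .ofNat 10087680, .negSucc 1706879]),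
  (21543211, [.ofNat 0, .negSucc 24099839, .ofNat 57884160, .negSucc 54710399, .ofNat 19848960, .negSucc 3169919]),
  (21543260, [.ofNat 0, .negSucc 783359, .ofNat 645120]),
  (21543275, [.ofNat 0, .ofNat 2050560, .negSucc 1543679, .negSucc 138239]),
  (21543653, [.ofNat 0, .negSucc 52919999, .ofNat 95896560, .negSucc 78033599, .ofNat 25499760, .negSucc 3840479]),
  (21543709, [.ofNat 0, .negSucc 33690239, .ofNat 64967040, .negSucc 56570879, .ofNat 18896640, .negSucc 2926079]),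
  (21543715, [.ofNat 0, .negSucc 24099839, .ofNat 57884160, .negSucc 54710399, .ofNat 19848960, .negSucc 3169919]),
  (21543779, [.ofNat 0, .negSucc 15505919, .ofNat 16696320, .negSucc 7303679, .ofNat 975360]),
  (21546795, [.ofNat 0, .negSucc 37411199, .ofNat 97509600, .negSucc 92858879, .ofNat 34349280, .negSucc 5486399]),
  (21546851, [.ofNat 0, .negSucc 12804479, .ofNat 82764000, .negSucc 98248319, .ofNat 39882720, .negSucc 6705599]),
  (21546860, [.ofNat 0, .negSucc 24226559, .ofNat 80312640, .negSucc 85288319, .ofNat 32662080, .negSucc 5364479]),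
  (21547371, [.ofNat 0, .negSucc 4919039, .ofNat 12555840, .negSucc 12080639, .ofNat 4514880, .negSucc 731519]),
  (21547805, [.ofNat 0, .negSucc 6321599, .negSucc 7461359, .ofNat 20788800, .negSucc 12545519, .ofNat 2133600]),
  (21547868, [.ofNat 0, .negSucc 19307519, .ofNat 67756800, .negSucc 73207679, .ofNat 28147200, .negSucc 4632959]),
  (21550891, [.ofNat 0, .ofNat 27164160, .negSucc 61714559, .ofNat 56004480, .negSucc 20092799, .ofNat 3169920]),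
  (21550947, [.ofNat 0, .negSucc 26991359, .ofNat 78972480, .negSucc 88535039, .ofNat 35933760, .negSucc 6095999]),
  (21551324, [.ofNat 0, .ofNat 53498880, .negSucc 22460159, .negSucc 24034559, .ofNat 16761600, .negSucc 3413759]),
  (21551325, [.ofNat 0, .ofNat 391680, .negSucc 322559]),
  (21551340, [.ofNat 0, .negSucc 1059839, .ofNat 19215360, .negSucc 24516479, .ofNat 10087680, .negSucc 1706879]),
  (21551836, [.ofNat 0, .negSucc 5437439, .negSucc 62167679, .ofNat 87828480, .negSucc 37015679, .ofNat 6339840]),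
  (21607276, [.ofNat 0, .negSucc 3064319, .ofNat 3830400, .negSucc 1294079, .ofNat 243840]),
  (21608549, [.ofNat 0, .negSucc 2148479, .ofNat 37196640, .negSucc 46146239, .ofNat 18843360, .negSucc 3169919]),
  (21609061, [.ofNat 0, .negSucc 100052639, .ofNat 117458520, .negSucc 50702879, .ofNat 8199000, .ofNat 274320]),
  (21612140, [.ofNat 0, .ofNat 160038720, .negSucc 314347439, .ofNat 260473920, .negSucc 89611439, .ofNat 13594080])]

/-- data -/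
def lV2x2 : List (ℕ × List ℤ) := [(21612637, [.ofNat 0, .negSucc 7994879, .ofNat 111371520, .negSucc 138885119, .ofNat 57434880, .negSucc 9753599]),
  (21612907, [.ofNat 0, .negSucc 3064319, .ofNat 3830400, .negSucc 1294079, .ofNat 243840]),
  (21615452, [.ofNat 0, .negSucc 5431679, .negSucc 6071519, .ofNat 25491840, .negSucc 13647839, .ofNat 2804160]),
  (21632811, [.ofNat 0, .negSucc 48039839, .ofNat 88635480, .negSucc 67552799, .ofNat 21381720, .negSucc 2651759]),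
  (21632867, [.ofNat 0, .negSucc 45436319, .ofNat 100543320, .negSucc 86099999, .ofNat 29679960, .negSucc 4114799]),
  (21633245, [.ofNat 0, .ofNat 12072960, .negSucc 43090559, .ofNat 46252800, .negSucc 17815679, .ofNat 2926080]),
  (21639909, [.ofNat 0, .negSucc 28085759, .ofNat 81114240, .negSucc 80083199, .ofNat 30180480, .negSucc 4876799]),
  (21639979, [.ofNat 0, .negSucc 46219679, .ofNat 101188440, .negSucc 86099999, .ofNat 29679960, .negSucc 4114799]),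
  (21640028, [.ofNat 0, .ofNat 2142720, .negSucc 16160639, .ofNat 20605440, .negSucc 8542079, .ofNat 1463040]),
  (21640035, [.ofNat 0, .negSucc 8180639, .ofNat 43518360, .negSucc 47579039, .ofNat 18089880, .negSucc 2651759]),
  (21641835, [.ofNat 0, .ofNat 16341120, .negSucc 14342879, .ofNat 3048960, .ofNat 794400, .negSucc 365759]),
  (21642083, [.ofNat 0, .ofNat 13144320, .negSucc 51170879, .ofNat 56555520, .negSucc 22086719, .ofNat 3657600]),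
  (21645931, [.ofNat 0, .ofNat 13852800, .negSucc 31498079, .ofNat 27328320, .negSucc 9654239, .ofNat 1463040]),
  (21648108, [.ofNat 0, .negSucc 29623679, .ofNat 32550240, .negSucc 11600639, .ofNat 912480, .ofNat 365760]),
  (21648227, [.ofNat 0, .negSucc 116966879, .ofNat 222991560, .negSucc 181905119, .ofNat 61506120, .negSucc 9174479]),
  (21649004, [.ofNat 0, .negSucc 163406879, .ofNat 306288600, .negSucc 249023519, .ofNat 82815960, .negSucc 12161519]),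
  (21666028, [.ofNat 0, .ofNat 47944800, .negSucc 148444199, .ofNat 154044000, .negSucc 58968359, .ofNat 9784080]),
  (21673580, [.ofNat 0, .negSucc 7994879, .ofNat 111371520, .negSucc 138885119, .ofNat 57434880, .negSucc 9753599]),
  (21674220, [.ofNat 0, .negSucc 16341119, .ofNat 14342880, .negSucc 3048959, .negSucc 794399, .ofNat 365760]),
  (21677916, [.ofNat 0, .ofNat 16341120, .negSucc 14342879, .ofNat 3048960, .ofNat 794400, .negSucc 365759]),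
  (21678796, [.ofNat 0, .negSucc 38764799, .ofNat 2927040, .ofNat 37182720, .negSucc 20788799, .ofNat 4145280]),
  (21809836, [.ofNat 0, .ofNat 10719360, .negSucc 13866719, .ofNat 7645440, .negSucc 1809119, .ofNat 121920]),
  (21809963, [.ofNat 0, .ofNat 37719360, .negSucc 108991919, .ofNat 108576960, .negSucc 40643759, .ofNat 6522720]),
  (21810004, [.ofNat 0, .negSucc 45436319, .ofNat 100543320, .negSucc 86099999, .ofNat 29679960, .negSucc 4114799]),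
  (21829917, [.ofNat 0, .negSucc 44311679, .ofNat 121025760, .negSucc 116989439, .ofNat 43622880, .negSucc 6949439]),
  (21830429, [.ofNat 0, .negSucc 38606399, .ofNat 116830320, .negSucc 119006399, .ofNat 44914800, .negSucc 7254239]),
  (21830492, [.ofNat 0, .ofNat 116966880, .negSucc 222991559, .ofNat 181905120, .negSucc 61506119, .ofNat 9174480]),
  (21830499, [.ofNat 0, .ofNat 44311680, .negSucc 121025759, .ofNat 116989440, .negSucc 43622879, .ofNat 6949440]),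
  (21841516, [.ofNat 0, .negSucc 5207039, .ofNat 19991040, .negSucc 22383359, .ofNat 8785920, .negSucc 1463039]),
  (21842524, [.ofNat 0, .negSucc 3847679, .ofNat 4475520, .negSucc 1777919, .ofNat 243840]),
  (21863077, [.ofNat 0, .negSucc 48039839, .ofNat 88635480, .negSucc 67552799, .ofNat 21381720, .negSucc 2651759]),
  (21873772, [.ofNat 0, .negSucc 58127039, .ofNat 108563280, .negSucc 86512319, .ofNat 29152080, .negSucc 4450079]),
  (21877420, [.ofNat 0, .ofNat 22521600, .negSucc 54942239, .ofNat 53500800, .negSucc 19105439, .ofNat 3048000]),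
  (21877868, [.ofNat 0, .ofNat 19673280, .negSucc 19014479, .ofNat 6772800, .negSucc 517199, .negSucc 182879]),
  (21879380, [.ofNat 0, .ofNat 13852800, .negSucc 31498079, .ofNat 27328320, .negSucc 9654239, .ofNat 1463040]),
  (21898860, [.ofNat 0, .negSucc 679679, .ofNat 7757760, .negSucc 10302719, .ofNat 4271040, .negSucc 731519]),
  (21906763, [.ofNat 0, .negSucc 43198559, .ofNat 144191400, .negSucc 151985759, .ofNat 58724520, .negSucc 9784079]),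
  (21907274, [.ofNat 0, .ofNat 24926400, .negSucc 30165839, .ofNat 13575360, .negSucc 2306639, .ofNat 60960]),
  (21908075, [.ofNat 0, .ofNat 160038720, .negSucc 314347439, .ofNat 260473920, .negSucc 89611439, .ofNat 13594080]),
  (21910315, [.ofNat 0, .negSucc 679679, .ofNat 7757760, .negSucc 10302719, .ofNat 4271040, .negSucc 731519]),
  (21910370, [.ofNat 0, .ofNat 38606400, .negSucc 116830319, .ofNat 119006400, .negSucc 44914799, .ofNat 7254240]),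
  (21911317, [.ofNat 0, .negSucc 19367999, .ofNat 60470640, .negSucc 62635199, .ofNat 23764080, .negSucc 3840479]),
  (21911659, [.ofNat 0, .negSucc 1359359, .ofNat 15515520, .negSucc 20605439, .ofNat 8542080, .negSucc 1463039]),
  (21912163, [.ofNat 0, .negSucc 58127039, .ofNat 108563280, .negSucc 86512319, .ofNat 29152080, .negSucc 4450079]),
  (21912204, [.ofNat 0, .ofNat 23716800, .negSucc 50921999, .ofNat 43235520, .negSucc 14875919, .ofNat 2255520]),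
  (21912227, [.ofNat 0, .ofNat 130934880, .negSucc 237810599, .ofNat 190694880, .negSucc 63315239, .ofNat 9296400]),
  (21928221, [.ofNat 0, .negSucc 4746239, .ofNat 4252800, .negSucc 2058239, .ofNat 243840]),
  (21936397, [.ofNat 0, .negSucc 4746239, .ofNat 4252800, .negSucc 2058239, .ofNat 243840]),
  (21936738, [.ofNat 0, .ofNat 37719360, .negSucc 108991919, .ofNat 108576960, .negSucc 40643759, .ofNat 6522720]),
  (21943059, [.ofNat 0, .ofNat 133783200, .negSucc 273738359, .ofNat 237422880, .negSucc 81903479, .ofNat 12527280]),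
  (21943388, [.ofNat 0, .negSucc 2548799, .ofNat 4026480, .negSucc 3723839, .ofNat 1311600, .negSucc 182879]),
  (22072147, [.ofNat 0, .negSucc 27573119, .ofNat 29960160, .negSucc 11844479, .ofNat 1482720, .ofNat 121920]),
  (22091500, [.ofNat 0, .ofNat 44311680, .negSucc 121025759, .ofNat 116989440, .negSucc 43622879, .ofNat 6949440]),
  (22092636, [.ofNat 0, .negSucc 16341119, .ofNat 14342880, .negSucc 3048959, .negSucc 794399, .ofNat 365760]),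
  (22129500, [.ofNat 0, .negSucc 2548799, .ofNat 4026480, .negSucc 3723839, .ofNat 1311600, .negSucc 182879]),
  (22133546, [.ofNat 0, .negSucc 16439039, .negSucc 27157439, .ofNat 51878400, .negSucc 23471039, .ofNat 4145280]),
  (22139738, [.ofNat 0, .ofNat 11808000, .negSucc 22931519, .ofNat 32484480, .negSucc 14959679, .ofNat 2926080]),
  (22140685, [.ofNat 0, .ofNat 16709760, .negSucc 34502879, .ofNat 30028800, .negSucc 10595039, .ofNat 1584960]),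
  (22140714, [.ofNat 0, .negSucc 15442559, .ofNat 19590240, .negSucc 9189119, .ofNat 2052960, .negSucc 121919]),
  (22141141, [.ofNat 0, .negSucc 19367999, .ofNat 60470640, .negSucc 62635199, .ofNat 23764080, .negSucc 3840479]),
  (22164125, [.ofNat 0, .negSucc 40642559, .ofNat 45762240, .negSucc 19973759, .ofNat 3291840]),
  (22164811, [.ofNat 0, .negSucc 43198559, .ofNat 144191400, .negSucc 151985759, .ofNat 58724520, .negSucc 9784079]),
  (22173003, [.ofNat 0, .negSucc 16439039, .negSucc 27157439, .ofNat 51878400, .negSucc 23471039, .ofNat 4145280]),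
  (22174298, [.ofNat 0, .negSucc 100052639, .ofNat 117458520, .negSucc 50702879, .ofNat 8199000, .ofNat 274320]),
  (22198029, [.ofNat 0, .negSucc 46219679, .ofNat 101188440, .negSucc 86099999, .ofNat 29679960, .negSucc 4114799]),
  (22201675, [.ofNat 0, .ofNat 6220800, .ofNat 3060480, .negSucc 7530239, .ofNat 3344640, .negSucc 487679]),
  (22324972, [.ofNat 0, .ofNat 138834720, .negSucc 248756279, .ofNat 195766560, .negSucc 64280759, .ofNat 9357360]),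
  (22329619, [.ofNat 0, .ofNat 47944800, .negSucc 148444199, .ofNat 154044000, .negSucc 58968359, .ofNat 9784080]),
  (22386986, [.ofNat 0, .ofNat 31897440, .negSucc 94440359, .ofNat 90814560, .negSucc 32965799, .ofNat 4907280]),
  (22403347, [.ofNat 0, .negSucc 8213759, .ofNat 50231040, .negSucc 60274559, .ofNat 24568320, .negSucc 4145279]),
  (22427220, [.ofNat 0, .ofNat 2142720, .negSucc 16160639, .ofNat 20605440, .negSucc 8542079, .ofNat 1463040])]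

/-- the sum of the part -/
def lV2 : List (ℕ × List ℤ) := lV2x0 ++ (lV2x1 ++ (lV2x2))

theorem okV2 : dV2.all (rok tbF 20) = true := by decide +kernel

theorem sumV2 : aeq (fz (sumT tbF dV2)) lV2 = true := by decide +kernel

end Pool.Agent.H.MP_e16c79_al.IS
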