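import Pool.Agent.H.MP_e16c79_al.IS.BTabE

/-!
# MP_e16c79_al: certificate V, part 3
-/

set_option autoImplicit false

namespace Pool.Agent.H.MP_e16c79_al.IS

/-- data -/
def dV3x0 : RT := (.nd (.nd (.nd (.lf ⟨[.ofNat 0, .negSucc 21062879, .ofNat 80258760, .negSucc 87586079, .ofNat 34080840, .negSucc 5638799], (.tr (.dx 0 (.tr (.lf 9) (.lf 13) (.lf 14))) (.tr (.lf 5) (.lf 10) (.lf 6)) (.lf 19)), 0, [27, 27, 10, 10], []⟩)
    (.lf ⟨[.ofNat 0, .ofNat 33103440, .negSucc 90350219, .ofNat 88002960, .negSucc 32714699, .ofNat 5227320], (.tr (.dx 0 (.tr (.lf 5) (.lf 6) (.tr (.lf 13) (.lf 9) (.lf 14)))) (.lf 19) (.lf 10)), 0, [0, 0, 10, 10], []⟩))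
    (.nd (.lf ⟨[.ofNat 0, .negSucc 21975839, .ofNat 64246200, .negSucc 63880799, .ofNat 24003000, .negSucc 3870959], (.tr (.dx 0 (.tr (.lf 5) (.lf 9) (.tr (.lf 13) (.lf 6) (.lf 14)))) (.lf 19) (.lf 10)), 0, [0, 0, 10, 10], []⟩)
    (.lf ⟨[.ofNat 0, .ofNat 21975840, .negSucc 64246199, .ofNat 63880800, .negSucc 24002999, .ofNat 3870960], (.tr (.dx 0 (.tr (.lf 13) (.lf 5) (.lf 19))) (.tr (.lf 9) (.lf 14) (.lf 10)) (.lf 6)), 0, [9, 9, 9, 9], []⟩)))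
    (.nd (.nd (.lf ⟨[.ofNat 0, .ofNat 21975840, .negSucc 64246199, .ofNat 63880800, .negSucc 24002999, .ofNat 3870960], (.tr (.dx 0 (.tr (.lf 19) (.lf 5) (.tr (.lf 9) (.lf 13) (.lf 10)))) (.lf 14) (.lf 6)), 0, [25, 25, 25, 25], []⟩)
    (.lf ⟨[.ofNat 0, .ofNat 23081760, .negSucc 64163639, .ofNat 62547360, .negSucc 23352119, .ofNat 3749040], (.tr (.dx 0 (.tr (.lf 13) (.lf 9) (.tr (.lf 5) (.lf 14) (.lf 6)))) (.lf 19) (.lf 10)), 0, [10, 10, 0, 0], []⟩))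
    (.nd (.lf ⟨[.ofNat 0, .negSucc 23081759, .ofNat 64163640, .negSucc 62547359, .ofNat 23352120, .negSucc 3749039], (.tr (.dx 0 (.tr (.lf 9) (.lf 5) (.lf 19))) (.tr (.lf 13) (.lf 10) (.lf 14)) (.lf 6)), 0, [25, 25, 25, 25], []⟩)
    (.lf ⟨[.ofNat 0, .negSucc 23081759, .ofNat 62824440, .negSucc 60875999, .ofNat 22631160, .negSucc 3627119], (.tr (.dx 0 (.tr (.lf 19) (.lf 5) (.tr (.lf 13) (.lf 9) (.lf 14)))) (.lf 10) (.lf 6)), 0, [9, 9, 10, 10], []⟩))))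

/-- data -/
def dV3x1 : RT := (.nd (.nd (.nd (.lf ⟨[.ofNat 0, .ofNat 38118960, .negSucc 97454099, .ofNat 93095280, .negSucc 33893459, .ofNat 5379720], (.tr (.dx 0 (.tr (.lf 13) (.lf 14) (.tr (.lf 5) (.lf 9) (.lf 6)))) (.lf 19) (.lf 10)), 0, [10, 10, 0, 0], []⟩)
    (.lf ⟨[.ofNat 0, .negSucc 20321279, .ofNat 22881120, .negSucc 9986879, .ofNat 1645920], (.tr (.lf 10) (.dx 0 (.tr (.lf 5) (.lf 6) (.tr (.lf 13) (.lf 9) (.lf 14)))) (.lf 19)), 0, [12, 12, 12, 12], []⟩))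
    (.nd (.lf ⟨[.ofNat 0, .ofNat 646560, .ofNat 1009800, .negSucc 1574879, .ofNat 767880, .negSucc 152399], (.tr (.lf 10) (.dx 0 (.tr (.lf 13) (.lf 9) (.tr (.lf 5) (.lf 14) (.lf 6)))) (.lf 19)), 0, [12, 12, 12, 12], []⟩)
    (.lf ⟨[.ofNat 0, .ofNat 1795680, .ofNat 3748440, .negSucc 7079519, .ofNat 3076440, .negSucc 579119], (.tr (.lf 10) (.dx 0 (.tr (.lf 13) (.lf 14) (.tr (.lf 5) (.lf 9) (.lf 6)))) (.lf 19)), 0, [12, 12, 12, 12], []⟩)))
    (.nd (.nd (.lf ⟨[.ofNat 0, .negSucc 30394079, .ofNat 47817480, .negSucc 33327839, .ofNat 10446600, .negSucc 1371599], (.tr (.lf 10) (.dx 0 (.tw (.lf 5) (.tr (.lf 13) (.tw (.lf 6) (.lf 9)) (.lf 14)))) (.lf 19)), 0, [12, 12, 12, 12, 12, 12, 12, 12], []⟩)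
    (.lf ⟨[.ofNat 0, .ofNat 351360, .negSucc 1011359, .ofNat 1081440, .negSucc 386399, .ofNat 60960], (.tr (.dx 0 (.tr (.tw (.lf 9) (.lf 10)) (.lf 13) (.lf 14))) (.lf 19) (.tw (.lf 5) (.lf 6))), 0, [17, 17, 17, 17, 17, 17, 17, 17], []⟩))
    (.nd (.lf ⟨[.ofNat 0, .negSucc 1092959, .negSucc 19745879, .ofNat 29091360, .negSucc 12269399, .ofNat 2164080], (.tr (.dx 0 (.tr (.lf 13) (.lf 14) (.tr (.lf 9) (.lf 5) (.lf 10)))) (.lf 6) (.lf 19)), 0, [10, 10, 20, 20], []⟩)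
    (.lf ⟨[.ofNat 0, .ofNat 19759680, .negSucc 38207279, .ofNat 31558080, .negSucc 10950959, .ofNat 1645920], (.tr (.dx 0 (.tr (.lf 5) (.lf 9) (.tr (.lf 13) (.lf 10) (.lf 14)))) (.lf 19) (.lf 6)), 0, [0, 0, 17, 17], []⟩))))

/-- data -/
def dV3x2 : RT := (.nd (.nd (.nd (.lf ⟨[.ofNat 0, .ofNat 12507840, .ofNat 30430320, .negSucc 52452479, .ofNat 23744880, .negSucc 4206239], (.tr (.dx 0 (.tr (.lf 9) (.lf 10) (.tr (.lf 13) (.lf 5) (.lf 14)))) (.lf 19) (.lf 6)), 0, [20, 20, 10, 10], []⟩)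
    (.lf ⟨[.ofNat 0, .ofNat 21926880, .negSucc 66476519, .ofNat 60188640, .negSucc 20118119, .ofNat 2956560], (.tr (.lf 6) (.dx 0 (.tr (.lf 9) (.lf 5) (.tr (.lf 13) (.lf 10) (.lf 14)))) (.lf 19)), 0, [32, 32, 3, 3], []⟩))
    (.nd (.lf ⟨[.ofNat 0, .ofNat 1424160, .negSucc 17963879, .ofNat 23364000, .negSucc 9294119, .ofNat 1615440], (.tr (.lf 6) (.dx 0 (.tr (.lf 13) (.lf 14) (.tr (.lf 9) (.lf 5) (.lf 10)))) (.lf 19)), 0, [3, 3, 32, 32], []⟩)
    (.lf ⟨[.ofNat 0, .negSucc 21543839, .ofNat 16136280, .negSucc 175199, .negSucc 2213159, .ofNat 640080], (.tr (.lf 6) (.dx 0 (.tw (.lf 13) (.tr (.lf 9) (.tw (.lf 5) (.lf 14)) (.lf 10)))) (.lf 19)), 0, [32, 3, 32, 3, 32, 32, 32, 32], []⟩)))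
    (.nd (.nd (.lf ⟨[.ofNat 0, .ofNat 21634560, .negSucc 66274559, .ofNat 67436160, .negSucc 25543679, .ofNat 4145280], (.tr (.dx 0 (.lf 19)) (.tr (.lf 9) (.lf 10) (.tr (.lf 13) (.lf 5) (.lf 14))) (.lf 6)), 0, [25, 25, 30, 30], []⟩)
    (.lf ⟨[.ofNat 0, .negSucc 9280799, .negSucc 2948999, .ofNat 13342560, .negSucc 7032839, .ofNat 1371600], (.tr (.dx 0 (.lf 19)) (.lf 9) (.tr (.lf 5) (.tr (.lf 13) (.lf 6) (.lf 14)) (.lf 10))), 0, [30, 30, 25, 25], []⟩))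
    (.nd (.lf ⟨[.ofNat 0, .negSucc 21634559, .ofNat 66274560, .negSucc 67436159, .ofNat 25543680, .negSucc 4145279], (.tr (.lf 5) (.lf 9) (.tr (.dx 0 (.lf 19)) (.tr (.lf 13) (.lf 6) (.lf 14)) (.lf 10))), 0, [7, 7, 31, 31], []⟩)
    (.lf ⟨[.ofNat 0, .ofNat 21634560, .negSucc 66274559, .ofNat 67436160, .negSucc 25543679, .ofNat 4145280], (.tr (.lf 9) (.lf 13) (.tr (.lf 5) (.tr (.lf 10) (.dx 0 (.lf 19)) (.lf 14)) (.lf 6))), 0, [25, 6, 25, 6], []⟩))))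

/-- data -/
def dV3x3 : RT := (.nd (.nd (.nd (.lf ⟨[.ofNat 0, .negSucc 21634559, .ofNat 66274560, .negSucc 67436159, .ofNat 25543680, .negSucc 4145279], (.tr (.lf 13) (.dx 0 (.lf 19)) (.tr (.lf 5) (.lf 6) (.tr (.lf 9) (.lf 14) (.lf 10)))), 0, [7, 7, 9, 9], []⟩)
    (.lf ⟨[.ofNat 0, .ofNat 21634560, .negSucc 66274559, .ofNat 67436160, .negSucc 25543679, .ofNat 4145280], (.tr (.lf 5) (.lf 6) (.tr (.lf 13) (.dx 0 (.lf 19)) (.tr (.lf 9) (.lf 14) (.lf 10)))), 0, [24, 24, 8, 8], []⟩))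
    (.nd (.lf ⟨[.ofNat 0, .negSucc 3291839, .negSucc 4586639, .ofNat 9992160, .negSucc 4586639, .ofNat 853440], (.tw (.lf 9) (.tr (.lf 13) (.tr (.dx 0 (.lf 19)) (.tw (.lf 5) (.lf 6)) (.lf 10)) (.lf 14))), 0, [37, 37, 6, 6, 37, 37, 6, 6], []⟩)
    (.lf ⟨[.ofNat 0, .negSucc 10817279, .ofNat 33137280, .negSucc 33718079, .ofNat 12771840, .negSucc 2072639], (.tw (.lf 13) (.tr (.lf 9) (.tr (.tw (.lf 5) (.lf 6)) (.dx 0 (.lf 19)) (.lf 14)) (.lf 10))), 0, [36, 36, 36, 36, 36, 36, 36, 36], []⟩)))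
    (.nd (.nd (.lf ⟨[.ofNat 0, .ofNat 10978560, .negSucc 39865919, .ofNat 42631680, .negSucc 16518719, .ofNat 2682240], (.tr (.lf 9) (.lf 5) (.tr (.lf 6) (.dx 0 (.lf 19)) (.tr (.lf 13) (.lf 10) (.lf 14)))), 0, [37, 37, 33, 33], []⟩)
    (.lf ⟨[.ofNat 0, .ofNat 28218240, .negSucc 57101279, .ofNat 47451840, .negSucc 16370399, .ofNat 2438400], (.tw (.lf 13) (.tr (.lf 9) (.lf 14) (.tr (.dx 0 (.lf 19)) (.tw (.lf 5) (.lf 6)) (.lf 10)))), 0, [36, 36, 36, 36, 7, 7, 36, 36], []⟩))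
    (.nd (.lf ⟨[.ofNat 0, .ofNat 2119680, .negSucc 4686239, .ofNat 4142880, .negSucc 1281119, .ofNat 182880], (.tw (.dx 0 (.lf 19)) (.tr (.lf 5) (.tr (.tw (.lf 9) (.lf 10)) (.lf 13) (.lf 14)) (.lf 6))), 0, [30, 30, 30, 30, 30, 30, 30, 30], []⟩)
    (.lf ⟨[.ofNat 0, .negSucc 4239359, .ofNat 9372480, .negSucc 8285759, .ofNat 2562240, .negSucc 365759], (.tr (.dx 0 (.lf 19)) (.lf 5) (.tw (.lf 6) (.tr (.tw (.lf 9) (.lf 10)) (.lf 13) (.lf 14)))), 0, [37, 37, 7, 7, 30, 30, 30, 30], []⟩))))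

/-- data -/
def dV3x4 : RT := (.nd (.nd (.nd (.lf ⟨[.ofNat 0, .negSucc 1670399, .negSucc 112048319, .ofNat 151428480, .negSucc 63007679, .ofNat 10728960], (.tr (.dx 0 (.lf 19)) (.lf 5) (.tr (.lf 9) (.lf 10) (.tr (.lf 6) (.lf 13) (.lf 14)))), 0, [19, 30, 7, 35], []⟩)
    (.lf ⟨[.ofNat 0, .ofNat 10149120, .ofNat 93303360, .negSucc 134856959, .ofNat 57883200, .negSucc 9997439], (.tr (.dx 0 (.lf 19)) (.tr (.lf 5) (.tr (.lf 6) (.lf 13) (.lf 14)) (.lf 9)) (.lf 10)), 0, [7, 35, 30, 30], []⟩))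
    (.nd (.lf ⟨[.ofNat 0, .ofNat 9280800, .ofNat 2949000, .negSucc 13342559, .ofNat 7032840, .negSucc 1371599], (.tw (.dx 0 (.lf 19)) (.tr (.lf 9) (.tr (.lf 5) (.lf 13) (.tw (.lf 6) (.lf 14))) (.lf 10))), 0, [30, 30, 30, 30, 30, 30, 30, 30], []⟩)
    (.lf ⟨[.ofNat 0, .negSucc 5207039, .ofNat 19991040, .negSucc 22383359, .ofNat 8785920, .negSucc 1463039], (.tw (.dx 0 (.lf 19)) (.tr (.lf 9) (.lf 5) (.tr (.lf 10) (.lf 6) (.tw (.lf 13) (.lf 14))))), 0, [19, 19, 30, 30, 30, 30, 35, 35], []⟩)))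
    (.nd (.nd (.lf ⟨[.ofNat 0, .negSucc 571679, .ofNat 7601520, .negSucc 9937439, .ofNat 4218000, .negSucc 731519], (.tw (.lf 5) (.tr (.lf 9) (.tr (.dx 0 (.lf 19)) (.tw (.lf 13) (.lf 14)) (.lf 6)) (.lf 10))), 0, [8, 8, 8, 8, 8, 8, 8, 8], []⟩)
    (.lf ⟨[.ofNat 0, .negSucc 260639, .negSucc 2880839, .ofNat 4470720, .negSucc 1866119, .ofNat 335280], (.tw (.lf 9) (.tr (.lf 5) (.tr (.lf 10) (.dx 0 (.lf 19)) (.tw (.lf 13) (.lf 14))) (.lf 6))), 0, [34, 34, 9, 9, 34, 34, 9, 9], []⟩))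
    (.nd (.lf ⟨[.ofNat 0, .ofNat 1664640, .negSucc 9441359, .ofNat 10933440, .negSucc 4703759, .ofNat 792480], (.tw (.lf 9) (.tr (.lf 5) (.lf 10) (.tr (.dx 0 (.lf 19)) (.tw (.lf 13) (.lf 14)) (.lf 6)))), 0, [34, 34, 34, 34, 9, 9, 9, 9], []⟩)
    (.lf ⟨[.ofNat 0, .negSucc 43269119, .ofNat 132549120, .negSucc 134872319, .ofNat 51087360, .negSucc 8290559], (.tr (.lf 5) (.tr (.lf 6) (.tr (.lf 9) (.dx 0 (.lf 19)) (.lf 13)) (.lf 14)) (.lf 10)), 0, [8, 24, 24, 35], []⟩))))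

/-- data -/
def dV3x5 : RT := (.nd (.nd (.nd (.lf ⟨[.ofNat 0, .ofNat 10817280, .negSucc 33137279, .ofNat 33718080, .negSucc 12771839, .ofNat 2072640], (.tw (.lf 9) (.tr (.lf 5) (.tr (.lf 13) (.tw (.dx 0 (.lf 19)) (.lf 10)) (.lf 14)) (.lf 6))), 0, [25, 25, 25, 25, 25, 25, 25, 25], []⟩)
    (.lf ⟨[.ofNat 0, .ofNat 14549760, .negSucc 45190079, .ofNat 46376160, .negSucc 17612159, .ofNat 2865120], (.tw (.lf 9) (.tr (.lf 5) (.tr (.dx 0 (.lf 19)) (.tw (.lf 13) (.lf 14)) (.lf 10)) (.lf 6))), 0, [9, 9, 34, 34, 9, 9, 34, 34], []⟩))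
    (.nd (.lf ⟨[.ofNat 0, .ofNat 20491200, .negSucc 51071519, .ofNat 47561280, .negSucc 17107679, .ofNat 2682240], (.tr (.dx 0 (.lf 13)) (.tr (.lf 9) (.lf 10) (.tr (.lf 5) (.lf 19) (.lf 6))) (.lf 14)), 0, [10, 10, 10, 10], [20, 20, 37, 37]⟩)
    (.lf ⟨[.ofNat 0, .negSucc 21634559, .ofNat 66274560, .negSucc 67436159, .ofNat 25543680, .negSucc 4145279], (.tr (.lf 5) (.tw (.lf 6) (.tr (.dx 0 (.lf 19)) (.tw (.lf 13) (.lf 14)) (.lf 9))) (.lf 10)), 0, [7, 7, 8, 8, 35, 35, 8, 8], []⟩)))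
    (.nd (.nd (.lf ⟨[.ofNat 0, .ofNat 21634560, .negSucc 66274559, .ofNat 67436160, .negSucc 25543679, .ofNat 4145280], (.tr (.lf 5) (.lf 6) (.tw (.lf 9) (.tr (.dx 0 (.lf 19)) (.tw (.lf 13) (.lf 14)) (.lf 10)))), 0, [8, 8, 8, 8, 7, 7, 8, 8], []⟩)
    (.lf ⟨[.ofNat 0, .negSucc 3421439, .ofNat 118464960, .negSucc 154592639, .ofNat 63495360, .negSucc 10728959], (.tr (.dx 0 (.lf 19)) (.tr (.lf 13) (.lf 14) (.tr (.lf 5) (.lf 9) (.lf 10))) (.lf 6)), 0, [30, 9, 30, 30], []⟩))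
    (.nd (.lf ⟨[.ofNat 0, .negSucc 9287999, .ofNat 22673760, .negSucc 20682719, .ofNat 7463520, .negSucc 1158239], (.tw (.lf 6) (.tr (.lf 13) (.tr (.lf 9) (.dx 0 (.tw (.lf 5) (.lf 19))) (.lf 10)) (.lf 14))), 0, [24, 24, 24, 24, 24, 24, 24, 24], []⟩)
    (.lf ⟨[.ofNat 0, .ofNat 61313760, .negSucc 143220839, .ofNat 132600480, .negSucc 48620519, .ofNat 7711440], (.tr (.lf 6) (.dx 0 (.tr (.lf 9) (.lf 5) (.lf 19))) (.tr (.lf 13) (.lf 10) (.lf 14))), 0, [37, 37, 37, 37], []⟩))))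

/-- data -/
def dV3x6 : RT := (.nd (.nd (.nd (.lf ⟨[.ofNat 0, .negSucc 17233919, .ofNat 49155360, .negSucc 49426559, .ofNat 18771360, .negSucc 3047999], (.tr (.dx 0 (.tr (.lf 5) (.lf 9) (.lf 19))) (.tr (.lf 13) (.lf 10) (.lf 14)) (.lf 6)), 0, [0, 0, 25, 25], []⟩)
    (.lf ⟨[.ofNat 0, .negSucc 13199039, .ofNat 60982800, .negSucc 69070079, .ofNat 27242640, .negSucc 4571999], (.tr (.dx 0 (.tr (.lf 5) (.lf 19) (.lf 9))) (.tr (.lf 13) (.lf 10) (.lf 14)) (.lf 6)), 0, [25, 25, 20, 20], []⟩))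
    (.nd (.lf ⟨[.ofNat 0, .negSucc 22534559, .ofNat 43097640, .negSucc 34139999, .ofNat 11606760, .negSucc 1737359], (.tr (.lf 6) (.lf 10) (.tr (.lf 13) (.dx 0 (.tr (.lf 9) (.lf 5) (.lf 19))) (.lf 14))), 0, [8, 8, 8, 8], []⟩)
    (.lf ⟨[.ofNat 0, .negSucc 31726079, .ofNat 64990320, .negSucc 54390719, .ofNat 18922800, .negSucc 2865119], (.tr (.lf 10) (.lf 6) (.tr (.lf 13) (.dx 0 (.tr (.lf 5) (.lf 9) (.lf 19))) (.lf 14))), 0, [23, 34, 23, 34], []⟩)))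
    (.nd (.nd (.lf ⟨[.ofNat 0, .negSucc 66206879, .ofNat 180700440, .negSucc 176005919, .ofNat 65429400, .negSucc 10454639], (.tr (.lf 6) (.lf 13) (.tr (.dx 0 (.tr (.lf 9) (.lf 5) (.lf 19))) (.lf 10) (.lf 14))), 0, [24, 24, 24, 24], []⟩)
    (.lf ⟨[.ofNat 0, .ofNat 67885200, .negSucc 177877979, .ofNat 171654480, .negSucc 63738779, .ofNat 10165080], (.tw (.lf 6) (.tr (.lf 13) (.tw (.dx 0 (.tr (.lf 9) (.lf 5) (.lf 19))) (.lf 10)) (.lf 14))), 0, [24, 24, 24, 23, 24, 24, 24, 23], []⟩))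
    (.nd (.lf ⟨[.ofNat 0, .negSucc 19759679, .ofNat 38207280, .negSucc 31558079, .ofNat 10950960, .negSucc 1645919], (.tw (.dx 0 (.tw (.lf 13) (.tr (.lf 19) (.lf 9) (.tr (.lf 5) (.lf 14) (.lf 6))))) (.lf 10)), 0, [13, 13, 10, 10, 13, 13, 13, 13], []⟩)
    (.lf ⟨[.ofNat 0, .negSucc 100674719, .ofNat 279011160, .negSucc 274859039, .ofNat 102972120, .negSucc 16550639], (.tr (.lf 13) (.dx 0 (.tr (.lf 9) (.lf 5) (.lf 19))) (.tr (.lf 6) (.lf 14) (.lf 10))), 0, [22, 22, 22, 25], []⟩))))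

/-- data -/
def dV3x7 : RT := (.nd (.nd (.nd (.lf ⟨[.ofNat 0, .negSucc 817919, .negSucc 29192639, .ofNat 39761280, .negSucc 16962239, .ofNat 2926080], (.tr (.lf 10) (.lf 13) (.tr (.lf 6) (.dx 0 (.tr (.lf 9) (.lf 5) (.lf 19))) (.lf 14))), 0, [23, 23, 6, 6], []⟩)
    (.lf ⟨[.ofNat 0, .ofNat 29897280, .negSucc 74490479, .ofNat 69143040, .negSucc 25146479, .ofNat 3962400], (.tw (.lf 10) (.tr (.lf 13) (.tw (.dx 0 (.tr (.lf 9) (.lf 5) (.lf 19))) (.lf 6)) (.lf 14))), 0, [6, 6, 23, 23, 6, 6, 23, 23], []⟩))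
    (.nd (.lf ⟨[.ofNat 0, .ofNat 12823920, .negSucc 20837219, .ofNat 15704880, .negSucc 4877219, .ofNat 563880], (.tw (.lf 13) (.tr (.lf 5) (.tr (.dx 0 (.tw (.lf 9) (.lf 19))) (.lf 14) (.lf 10)) (.lf 6))), 0, [9, 9, 33, 18, 9, 9, 33, 18], []⟩)
    (.lf ⟨[.ofNat 0, .ofNat 1292400, .negSucc 15487139, .ofNat 18366960, .negSucc 7604579, .ofNat 1417320], (.tr (.lf 5) (.dx 0 (.tw (.lf 9) (.lf 19))) (.tr (.lf 13) (.tw (.lf 6) (.lf 10)) (.lf 14))), 0, [37, 19, 37, 19, 37, 32, 37, 32], []⟩)))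
    (.nd (.nd (.lf ⟨[.ofNat 0, .negSucc 36300239, .ofNat 81334380, .negSucc 73303439, .ofNat 25981740, .negSucc 3886199], (.tr (.lf 5) (.lf 10) (.tr (.lf 13) (.tw (.dx 0 (.tw (.lf 9) (.lf 19))) (.lf 6)) (.lf 14))), 0, [8, 8, 8, 8, 8, 8, 8, 8], []⟩)
    (.lf ⟨[.ofNat 0, .ofNat 8486640, .ofNat 3310620, .negSucc 12141839, .ofNat 6105180, .negSucc 1264919], (.tr (.lf 13) (.dx 0 (.tw (.lf 9) (.lf 19))) (.tr (.lf 5) (.tw (.lf 10) (.lf 14)) (.lf 6))), 0, [22, 9, 22, 9, 25, 9, 25, 9], []⟩))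
    (.nd (.lf ⟨[.ofNat 0, .ofNat 43672320, .negSucc 84402479, .ofNat 73689600, .negSucc 24994799, .ofNat 3718560], (.tr (.lf 13) (.lf 10) (.tr (.lf 5) (.tw (.dx 0 (.tw (.lf 9) (.lf 19))) (.lf 14)) (.lf 6))), 0, [36, 36, 36, 36, 36, 36, 36, 36], []⟩)
    (.lf ⟨[.ofNat 0, .negSucc 15119999, .ofNat 69561120, .negSucc 78850559, .ofNat 31218720, .negSucc 5242559], (.tr (.lf 13) (.lf 6) (.tr (.dx 0 (.tr (.lf 9) (.lf 5) (.lf 19))) (.lf 14) (.lf 10))), 0, [7, 7, 18, 18], []⟩))))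

/-- data -/
def dV3x8 : RT := (.nd (.nd (.nd (.lf ⟨[.ofNat 0, .negSucc 2096639, .ofNat 3539040, .negSucc 2595839, .ofNat 833760, .negSucc 121919], (.tr (.dx 0 (.tr (.tw (.lf 5) (.lf 6)) (.lf 9) (.lf 19))) (.tw (.lf 13) (.lf 14)) (.lf 10)), 0, [0, 0, 0, 0, 7, 7, 7, 7], []⟩)
    (.lf ⟨[.ofNat 0, .negSucc 1494719, .ofNat 7942800, .negSucc 9149279, .ofNat 3650640, .negSucc 609599], (.tr (.dx 0 (.tr (.tw (.lf 9) (.lf 10)) (.lf 5) (.lf 19))) (.tw (.lf 13) (.lf 14)) (.lf 6)), 0, [25, 25, 25, 25, 25, 25, 25, 25], []⟩))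
    (.nd (.lf ⟨[.ofNat 0, .negSucc 1232279, .ofNat 14341530, .negSucc 18136919, .ofNat 7761690, .negSucc 1409699], (.tr (.dx 0 (.tr (.tw (.lf 5) (.lf 6)) (.lf 19) (.lf 9))) (.tw (.lf 13) (.lf 14)) (.lf 10)), 0, [7, 7, 7, 7, 7, 7, 7, 7], []⟩)
    (.lf ⟨[.ofNat 0, .negSucc 15173279, .ofNat 44903640, .negSucc 44831519, .ofNat 17089560, .negSucc 2773679], (.tr (.dx 0 (.tr (.lf 9) (.tw (.lf 5) (.lf 6)) (.lf 19))) (.tw (.lf 13) (.lf 14)) (.lf 10)), 0, [7, 7, 7, 7, 7, 7, 7, 7], []⟩)))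
    (.nd (.nd (.lf ⟨[.ofNat 0, .ofNat 5320800, .negSucc 57688679, .ofNat 72547680, .negSucc 31046759, .ofNat 5638800], (.tr (.dx 0 (.tr (.lf 5) (.lf 9) (.lf 10))) (.tr (.lf 13) (.lf 14) (.lf 19)) (.lf 6)), 0, [0, 25, 20, 20], []⟩)
    (.lf ⟨[.ofNat 0, .ofNat 1140480, .ofNat 8101440, .negSucc 11950079, .ofNat 4514880, .negSucc 731519], (.tr (.lf 6) (.lf 19) (.tr (.dx 0 (.tr (.lf 5) (.lf 9) (.lf 10))) (.lf 13) (.lf 14))), 0, [23, 23, 21, 1], []⟩))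
    (.nd (.lf ⟨[.ofNat 0, .negSucc 15570719, .ofNat 50358600, .negSucc 50537279, .ofNat 19116840, .negSucc 3078479], (.tr (.dx 0 (.tr (.tw (.lf 13) (.lf 14)) (.lf 9) (.lf 19))) (.lf 10) (.tw (.lf 5) (.lf 6))), 0, [9, 9, 9, 9, 9, 9, 9, 9], []⟩)
    (.lf ⟨[.ofNat 0, .ofNat 7177680, .negSucc 5924939, .ofNat 187920, .ofNat 1449780, .negSucc 502919], (.tw (.dx 0 (.tr (.lf 5) (.lf 9) (.lf 10))) (.tr (.lf 6) (.lf 19) (.tw (.lf 13) (.lf 14)))), 0, [5, 5, 0, 0, 5, 5, 20, 20], []⟩))))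

/-- data -/
def dV3x9 : RT := (.nd (.nd (.nd (.lf ⟨[.ofNat 0, .ofNat 9226080, .negSucc 34745639, .ofNat 40067040, .negSucc 16931879, .ofNat 3200400], (.tr (.dx 0 (.tr (.lf 5) (.lf 9) (.lf 10))) (.tr (.lf 6) (.lf 19) (.lf 13)) (.lf 14)), 0, [5, 19, 5, 20], []⟩)
    (.lf ⟨[.ofNat 0, .negSucc 14088959, .ofNat 38089920, .negSucc 36326399, .ofNat 13544640, .negSucc 2194559], (.tr (.lf 13) (.lf 14) (.tr (.dx 0 (.tr (.lf 5) (.lf 9) (.lf 10))) (.lf 6) (.lf 19))), 0, [22, 22, 4, 4], []⟩))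
    (.nd (.lf ⟨[.ofNat 0, .negSucc 14232239, .ofNat 64955220, .negSucc 74546159, .ofNat 30308820, .negSucc 5257799], (.tw (.dx 0 (.tr (.lf 5) (.lf 9) (.lf 10))) (.tr (.lf 13) (.tw (.lf 6) (.lf 19)) (.lf 14))), 0, [0, 19, 0, 19, 20, 20, 20, 20], []⟩)
    (.lf ⟨[.ofNat 0, .ofNat 25287840, .negSucc 98773079, .ofNat 109629600, .negSucc 44479319, .ofNat 7772400], (.tr (.lf 13) (.lf 19) (.tr (.dx 0 (.tr (.lf 5) (.lf 9) (.lf 10))) (.lf 14) (.lf 6))), 0, [25, 25, 21, 1], []⟩)))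
    (.nd (.nd (.lf ⟨[.ofNat 0, .ofNat 30016800, .negSucc 27921719, .ofNat 7936800, .ofNat 811080, .negSucc 640079], (.tw (.lf 6) (.tr (.lf 13) (.tw (.dx 0 (.tr (.lf 5) (.lf 9) (.lf 10))) (.lf 19)) (.lf 14))), 0, [24, 24, 23, 23, 24, 24, 23, 23], []⟩)
    (.lf ⟨[.ofNat 0, .ofNat 33696000, .negSucc 68729279, .ofNat 56448000, .negSucc 20214719, .ofNat 3169920], (.tr (.lf 6) (.tr (.dx 0 (.tr (.lf 5) (.lf 9) (.lf 10))) (.lf 19) (.lf 13)) (.lf 14)), 0, [5, 5, 23, 23], []⟩))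
    (.nd (.lf ⟨[.ofNat 0, .ofNat 4032000, .ofNat 20812800, .negSucc 29020799, .ofNat 12691200, .negSucc 2194559], (.tr (.lf 6) (.dx 0 (.tr (.lf 5) (.lf 9) (.lf 10))) (.tr (.lf 13) (.lf 14) (.lf 19))), 0, [32, 5, 39, 5], []⟩)
    (.lf ⟨[.ofNat 0, .negSucc 8605439, .negSucc 24863039, .ofNat 36984960, .negSucc 16718399, .ofNat 2926080], (.tr (.dx 0 (.tr (.lf 9) (.lf 13) (.lf 14))) (.lf 10) (.tr (.lf 5) (.lf 6) (.lf 19))), 0, [27, 17, 10, 17], []⟩))))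

/-- data -/
def dV3x10 : RT := (.nd (.nd (.nd (.lf ⟨[.ofNat 0, .negSucc 24193439, .ofNat 15413400, .ofNat 8135520, .negSucc 6804839, .ofNat 1737360], (.tr (.dx 0 (.tr (.lf 9) (.lf 13) (.lf 14))) (.tr (.lf 5) (.lf 19) (.lf 10)) (.lf 6)), 0, [9, 17, 10, 17], []⟩)
    (.lf ⟨[.ofNat 0, .negSucc 2464559, .ofNat 28683060, .negSucc 36273839, .ofNat 15523380, .negSucc 2819399], (.tw (.dx 0 (.tr (.lf 9) (.lf 13) (.lf 14))) (.tr (.tw (.lf 5) (.lf 6)) (.lf 19) (.lf 10))), 0, [29, 29, 17, 17, 10, 10, 17, 17], []⟩))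
    (.nd (.lf ⟨[.ofNat 0, .negSucc 34966799, .ofNat 52729740, .negSucc 35598959, .ofNat 10119660, .negSucc 1203959], (.tr (.dx 0 (.tr (.lf 5) (.tw (.lf 13) (.lf 14)) (.lf 19))) (.tw (.lf 9) (.lf 10)) (.lf 6)), 0, [9, 9, 9, 9, 9, 9, 9, 9], []⟩)
    (.lf ⟨[.ofNat 0, .negSucc 26417519, .ofNat 50300580, .negSucc 44130479, .ofNat 15287460, .negSucc 2392679], (.tw (.dx 0 (.tr (.lf 9) (.lf 13) (.lf 14))) (.tr (.lf 5) (.tw (.lf 10) (.lf 19)) (.lf 6))), 0, [17, 9, 17, 9, 10, 10, 10, 10], []⟩)))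
    (.nd (.nd (.lf ⟨[.ofNat 0, .negSucc 1092959, .negSucc 19745879, .ofNat 29091360, .negSucc 12269399, .ofNat 2164080], (.tr (.lf 6) (.dx 0 (.tr (.tw (.lf 9) (.lf 10)) (.lf 5) (.lf 13))) (.tw (.lf 14) (.lf 19))), 0, [39, 5, 39, 5, 32, 5, 32, 5], []⟩)
    (.lf ⟨[.ofNat 0, .ofNat 1092960, .ofNat 19745880, .negSucc 29091359, .ofNat 12269400, .negSucc 2164079], (.tr (.tw (.dx 0 (.tr (.lf 9) (.tw (.lf 5) (.lf 6)) (.lf 13))) (.lf 19)) (.lf 14) (.lf 10)), 0, [7, 7, 10, 10, 7, 7, 7, 7], []⟩))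
    (.nd (.lf ⟨[.ofNat 0, .ofNat 8439840, .negSucc 17417399, .ofNat 14900640, .negSucc 5292599, .ofNat 822960], (.tr (.tw (.dx 0 (.tr (.tw (.lf 9) (.lf 10)) (.lf 5) (.lf 13))) (.lf 6)) (.lf 19) (.lf 14)), 0, [20, 20, 10, 10, 5, 5, 5, 5], []⟩)
    (.lf ⟨[.ofNat 0, .negSucc 16879679, .ofNat 34834800, .negSucc 29801279, .ofNat 10585200, .negSucc 1645919], (.tr (.lf 5) (.lf 19) (.tr (.dx 0 (.tr (.lf 9) (.lf 13) (.lf 14))) (.lf 6) (.lf 10))), 0, [35, 35, 11, 16], []⟩))))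

/-- data -/
def dV3x11 : RT := (.nd (.nd (.nd (.lf ⟨[.ofNat 0, .ofNat 34768080, .negSucc 54579659, .ofNat 40228560, .negSucc 12698699, .ofNat 1813560], (.tr (.lf 6) (.tw (.dx 0 (.tr (.tw (.lf 9) (.lf 10)) (.lf 5) (.lf 13))) (.lf 19)) (.lf 14)), 0, [5, 5, 5, 5, 23, 23, 23, 23], []⟩)
    (.lf ⟨[.ofNat 0, .ofNat 49435200, .negSucc 128726159, .ofNat 120763200, .negSucc 44252879, .ofNat 7010400], (.tr (.dx 0 (.tr (.tw (.lf 13) (.lf 14)) (.lf 9) (.lf 19))) (.tw (.lf 5) (.lf 10)) (.lf 6)), 0, [9, 9, 9, 9, 9, 9, 9, 9], []⟩))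
    (.nd (.lf ⟨[.ofNat 0, .negSucc 65414159, .ofNat 126733020, .negSucc 103076879, .ofNat 34858140, .negSucc 5166359], (.tr (.tw (.dx 0 (.tr (.tw (.lf 9) (.lf 10)) (.lf 5) (.lf 13))) (.lf 14)) (.lf 19) (.lf 6)), 0, [20, 20, 10, 10, 22, 22, 22, 22], []⟩)
    (.lf ⟨[.ofNat 0, .ofNat 19938240, .negSucc 59088719, .ofNat 59176320, .negSucc 22362959, .ofNat 3596640], (.tr (.dx 0 (.tr (.tw (.lf 5) (.lf 9)) (.lf 6) (.lf 19))) (.tw (.lf 13) (.lf 14)) (.lf 10)), 0, [7, 7, 7, 7, 7, 7, 7, 7], []⟩)))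
    (.nd (.nd (.lf ⟨[.ofNat 0, .ofNat 58483440, .negSucc 111495779, .ofNat 90952560, .negSucc 30753059, .ofNat 4587240], (.tr (.dx 0 (.tr (.tw (.lf 9) (.lf 10)) (.lf 5) (.lf 13))) (.lf 14) (.tw (.lf 6) (.lf 19))), 0, [20, 20, 20, 20, 27, 10, 27, 10], []⟩)
    (.lf ⟨[.ofNat 0, .negSucc 1424159, .ofNat 17963880, .negSucc 23363999, .ofNat 9294120, .negSucc 1615439], (.tr (.tw (.dx 0 (.tr (.lf 9) (.tw (.lf 5) (.lf 6)) (.lf 13))) (.lf 14)) (.lf 10) (.lf 19)), 0, [15, 15, 10, 10, 15, 15, 22, 22], []⟩))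
    (.nd (.lf ⟨[.ofNat 0, .ofNat 1424160, .negSucc 17963879, .ofNat 23364000, .negSucc 9294119, .ofNat 1615440], (.tr (.tw (.lf 10) (.lf 19)) (.dx 0 (.tr (.lf 9) (.tw (.lf 5) (.lf 6)) (.lf 13))) (.lf 14)), 0, [23, 23, 23, 23, 23, 23, 14, 14], []⟩)
    (.lf ⟨[.ofNat 0, .ofNat 5506560, .ofNat 2726640, .negSucc 11239679, .ofNat 5189040, .negSucc 1036319], (.tr (.lf 10) (.tw (.dx 0 (.tr (.lf 9) (.tw (.lf 5) (.lf 6)) (.lf 13))) (.lf 19)) (.lf 14)), 0, [12, 12, 12, 12, 23, 23, 23, 23], []⟩))))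

/-- data -/
def dV3x12 : RT := (.nd (.nd (.nd (.lf ⟨[.ofNat 0, .ofNat 2286720, .ofNat 2025120, .negSucc 3982079, .ofNat 2013600, .negSucc 365759], (.tw (.dx 0 (.tr (.lf 9) (.lf 13) (.lf 14))) (.tr (.lf 10) (.tw (.lf 5) (.lf 6)) (.lf 19))), 0, [27, 27, 35, 35, 10, 10, 35, 35], []⟩)
    (.lf ⟨[.ofNat 0, .negSucc 4746239, .ofNat 4252800, .negSucc 2058239, .ofNat 243840], (.tw (.lf 10) (.tr (.dx 0 (.tr (.lf 9) (.lf 13) (.lf 14))) (.lf 19) (.tw (.lf 5) (.lf 6)))), 0, [17, 17, 17, 17, 34, 34, 34, 34], []⟩))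
    (.nd (.lf ⟨[.ofNat 0, .negSucc 8030879, .ofNat 32013720, .negSucc 34781279, .ofNat 13773720, .negSucc 2285999], (.tr (.tw (.dx 0 (.tr (.lf 5) (.lf 9) (.tw (.lf 13) (.lf 14)))) (.lf 10)) (.lf 19) (.lf 6)), 0, [0, 0, 10, 10, 12, 12, 12, 12], []⟩)
    (.lf ⟨[.ofNat 0, .ofNat 13034880, .negSucc 36168479, .ofNat 35624640, .negSucc 13483679, .ofNat 2194560], (.tr (.lf 14) (.lf 19) (.tr (.dx 0 (.tw (.lf 5) (.lf 13))) (.tw (.lf 9) (.lf 10)) (.lf 6))), 0, [9, 9, 9, 9, 11, 1, 11, 1], [9, 9, 21, 21]⟩)))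
    (.nd (.nd (.lf ⟨[.ofNat 0, .ofNat 0, .negSucc 679679, .ofNat 733440, .negSucc 107519], (.tr (.lf 19) (.dx 1 (.lf 1)) (.tr (.lf 2) (.tw (.lf 9) (.lf 10)) (.lf 15))), 1, [37, 37, 21, 21], [37, 37, 21, 21]⟩)
    (.lf ⟨[.ofNat 0, .ofNat 0, .ofNat 679680, .negSucc 733439, .ofNat 107520], (.tr (.lf 2) (.tr (.dx 1 (.lf 1)) (.lf 15) (.tw (.lf 9) (.lf 10))) (.lf 19)), 1, [0, 0, 20, 20], [15, 15, 20, 20]⟩))
    (.nd (.lf ⟨[.ofNat 0, .negSucc 34629839, .ofNat 45294540, .negSucc 27970319, .ofNat 7654860, .negSucc 960119], (.tr (.dx 0 (.tr (.lf 5) (.lf 9) (.tw (.lf 13) (.lf 14)))) (.tw (.lf 10) (.lf 19)) (.lf 6)), 0, [0, 0, 0, 0, 10, 10, 10, 10], []⟩)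
    (.lf ⟨[.ofNat 0, .negSucc 15323039, .ofNat 36076680, .negSucc 31424159, .ofNat 11079720, .negSucc 1676399], (.tw (.dx 0 (.tr (.lf 13) (.tr (.tw (.lf 5) (.lf 6)) (.lf 9) (.lf 19)) (.lf 14))) (.lf 10)), 0, [10, 10, 13, 13, 10, 10, 13, 13], []⟩))))

/-- data -/
def dV3x13 : RT := (.nd (.nd (.nd (.lf ⟨[.ofNat 0, .ofNat 147899520, .negSucc 274403039, .ofNat 220391040, .negSucc 73724639, .ofNat 10850880], (.tr (.dx 0 (.tr (.lf 5) (.lf 9) (.tw (.lf 13) (.lf 14)))) (.lf 19) (.tw (.lf 6) (.lf 10))), 0, [0, 0, 0, 0, 10, 10, 10, 10], []⟩)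
    (.lf ⟨[.ofNat 0, .negSucc 72398159, .ofNat 134142540, .negSucc 107471759, .ofNat 35762700, .negSucc 5227319], (.tr (.dx 0 (.tr (.lf 5) (.lf 9) (.tw (.lf 13) (.lf 14)))) (.tw (.lf 6) (.lf 19)) (.lf 10)), 0, [0, 0, 0, 0, 10, 10, 10, 10], []⟩))
    (.nd (.lf ⟨[.ofNat 0, .negSucc 58483439, .ofNat 111495780, .negSucc 90952559, .ofNat 30753060, .negSucc 4587239], (.tr (.tw (.dx 0 (.tr (.lf 5) (.lf 9) (.tw (.lf 13) (.lf 14)))) (.lf 19)) (.lf 6) (.lf 10)), 0, [0, 0, 10, 10, 2, 2, 35, 35], []⟩)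
    (.lf ⟨[.ofNat 0, .negSucc 49362479, .ofNat 117648660, .negSucc 109231919, .ofNat 39424980, .negSucc 6233159], (.tr (.dx 0 (.tw (.lf 13) (.tr (.tw (.lf 9) (.lf 10)) (.lf 5) (.lf 19)))) (.lf 14) (.lf 6)), 0, [25, 25, 25, 25, 20, 20, 25, 25], []⟩)))
    (.nd (.nd (.lf ⟨[.ofNat 0, .ofNat 72398160, .negSucc 134142539, .ofNat 107471760, .negSucc 35762699, .ofNat 5227320], (.tr (.dx 0 (.tr (.tw (.lf 5) (.lf 13)) (.lf 14) (.lf 19))) (.tw (.lf 9) (.lf 10)) (.lf 6)), 0, [9, 9, 9, 9, 9, 9, 9, 9], []⟩)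
    (.lf ⟨[.ofNat 0, .negSucc 65467439, .ofNat 118905300, .negSucc 95347439, .ofNat 31657620, .negSucc 4648199], (.tr (.tw (.dx 0 (.tr (.lf 5) (.lf 9) (.tw (.lf 13) (.lf 14)))) (.lf 19)) (.lf 10) (.lf 6)), 0, [0, 0, 10, 10, 2, 2, 9, 9], []⟩))
    (.nd (.lf ⟨[.ofNat 0, .ofNat 25394400, .negSucc 88713479, .ofNat 95875680, .negSucc 37457159, .ofNat 6248400], (.tr (.dx 0 (.tw (.lf 9) (.lf 19))) (.lf 13) (.tr (.lf 10) (.tw (.lf 5) (.lf 6)) (.lf 14))), 0, [19, 19, 35, 35, 19, 19, 35, 35], []⟩)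
    (.lf ⟨[.ofNat 0, .negSucc 24133679, .ofNat 38681940, .negSucc 26375279, .ofNat 7777620, .negSucc 868679], (.tr (.dx 0 (.tw (.lf 9) (.lf 19))) (.tr (.tw (.lf 5) (.lf 6)) (.lf 13) (.lf 14)) (.lf 10)), 0, [7, 7, 35, 35, 7, 7, 35, 35], []⟩))))

/-- data -/
def dV3x14 : RT := (.nd (.nd (.nd (.lf ⟨[.ofNat 0, .ofNat 8386560, .negSucc 14156159, .ofNat 10383360, .negSucc 3335039, .ofNat 487680], (.tr (.dx 0 (.tr (.lf 9) (.lf 10) (.tr (.lf 5) (.lf 13) (.lf 14)))) (.lf 19) (.lf 6)), 0, [20, 20, 17, 10], []⟩)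
    (.lf ⟨[.ofNat 0, .ofNat 3600000, .negSucc 2927519, .ofNat 686400, .negSucc 60959], (.tr (.dx 0 (.tw (.lf 5) (.tr (.tw (.lf 9) (.lf 10)) (.lf 13) (.lf 14)))) (.lf 19) (.lf 6)), 0, [0, 0, 17, 17, 20, 20, 10, 10], []⟩))
    (.nd (.lf ⟨[.ofNat 0, .negSucc 15317999, .ofNat 62987460, .negSucc 69731759, .ofNat 27715140, .negSucc 4709159], (.tw (.dx 0 (.tr (.lf 5) (.lf 6) (.tr (.tw (.lf 13) (.lf 14)) (.lf 9) (.lf 19)))) (.lf 10)), 0, [0, 0, 0, 0, 10, 10, 30, 30], []⟩)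
    (.lf ⟨[.ofNat 0, .ofNat 7524720, .negSucc 52981859, .ofNat 63853680, .negSucc 25986659, .ofNat 4465320], (.tw (.dx 0 (.tr (.lf 19) (.lf 9) (.tr (.tw (.lf 5) (.lf 6)) (.lf 13) (.lf 14)))) (.lf 10)), 0, [13, 13, 30, 30, 0, 0, 10, 10], []⟩)))
    (.nd (.nd (.lf ⟨[.ofNat 0, .negSucc 101527199, .ofNat 197737080, .negSucc 163350239, .ofNat 55847160, .negSucc 8260079], (.tw (.dx 0 (.tr (.lf 13) (.tr (.lf 9) (.tw (.lf 5) (.lf 6)) (.lf 14)) (.lf 19))) (.lf 10)), 0, [10, 10, 10, 10, 13, 13, 13, 13], []⟩)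
    (.lf ⟨[.ofNat 0, .ofNat 25551720, .negSucc 33092549, .ofNat 17395080, .negSucc 3890309, .ofNat 236220], (.tr (.lf 9) (.lf 19) (.tr (.lf 13) (.tr (.dx 0 .on) (.tw (.lf 5) (.lf 6)) (.lf 10)) (.lf 14))), 0, [37, 37, 23, 23, 37, 37, 23, 23], [37, 37, 28, 28, 37, 37, 28, 28]⟩))
    (.nd (.lf ⟨[.ofNat 0, .ofNat 32903280, .negSucc 70759139, .ofNat 59959920, .negSucc 20783459, .ofNat 3002280], (.tr (.dx 0 (.tw (.lf 5) (.lf 19))) (.tr (.tw (.lf 9) (.lf 10)) (.lf 13) (.lf 14)) (.lf 6)), 0, [25, 25, 9, 9, 25, 25, 9, 9], []⟩)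
    (.lf ⟨[.ofNat 0, .ofNat 17123040, .ofNat 12029880, .negSucc 34608479, .ofNat 16683960, .negSucc 3139439], (.tr (.dx 0 (.tw (.lf 5) (.lf 19))) (.lf 13) (.tr (.lf 6) (.tw (.lf 9) (.lf 10)) (.lf 14))), 0, [37, 37, 9, 9, 37, 37, 9, 9], []⟩))))

/-- data -/
def dV3x15 : RT := (.nd (.nd (.nd (.lf ⟨[.ofNat 0, .ofNat 1396800, .ofNat 7910160, .negSucc 11514239, .ofNat 5034000, .negSucc 914399], (.tr (.lf 6) (.tr (.tw (.lf 13) (.lf 14)) (.dx 0 (.tw (.lf 5) (.lf 9))) (.lf 19)) (.lf 10)), 0, [24, 24, 24, 24, 7, 7, 7, 7], [24, 24, 7, 7]⟩)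
    (.lf ⟨[.ofNat 0, .negSucc 22443839, .ofNat 7740240, .ofNat 11973120, .negSucc 7944239, .ofNat 1767840], (.tw (.dx 0 (.tr (.lf 5) (.lf 6) (.lf 9))) (.tr (.lf 13) (.tw (.lf 10) (.lf 19)) (.lf 14))), 0, [0, 0, 0, 0, 20, 20, 20, 20], []⟩))
    (.nd (.lf ⟨[.ofNat 0, .ofNat 27184320, .negSucc 110096399, .ofNat 123428160, .negSucc 48230159, .ofNat 7863840], (.tr (.dx 0 (.tr (.lf 5) (.lf 6) (.lf 9))) (.lf 13) (.tr (.lf 10) (.lf 19) (.lf 14))), 0, [0, 0, 20, 20], []⟩)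
    (.lf ⟨[.ofNat 0, .negSucc 11185199, .ofNat 32084100, .negSucc 32648399, .ofNat 12301380, .negSucc 1965959], (.tr (.dx 0 (.tr (.lf 5) (.tw (.lf 9) (.lf 10)) (.lf 19))) (.tw (.lf 13) (.lf 14)) (.lf 6)), 0, [25, 25, 25, 25, 25, 25, 25, 25], []⟩)))
    (.nd (.nd (.lf ⟨[.ofNat 0, .ofNat 37766880, .negSucc 73727399, .ofNat 63372960, .negSucc 21896999, .ofNat 3322320], (.tw (.dx 0 (.tr (.lf 13) (.lf 14) (.tr (.tw (.lf 5) (.lf 6)) (.lf 9) (.lf 19)))) (.lf 10)), 0, [10, 10, 10, 10, 0, 0, 13, 13], []⟩)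
    (.lf ⟨[.ofNat 0, .negSucc 9619199, .ofNat 47582400, .negSucc 54512639, .ofNat 21842880, .negSucc 3657599], (.tr (.dx 0 (.tw (.lf 5) (.lf 19))) (.tr (.lf 6) (.tw (.lf 9) (.lf 10)) (.lf 13)) (.lf 14)), 0, [37, 37, 19, 19, 37, 37, 19, 19], []⟩))
    (.nd (.lf ⟨[.ofNat 0, .negSucc 29326319, .ofNat 71286660, .negSucc 63999599, .ofNat 22797060, .negSucc 3368039], (.tr (.lf 6) (.lf 13) (.tr (.dx 0 (.tw (.lf 5) (.lf 19))) (.tw (.lf 9) (.lf 10)) (.lf 14))), 0, [37, 37, 37, 37, 24, 24, 24, 24], []⟩)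
    (.lf ⟨[.ofNat 0, .ofNat 61292160, .negSucc 144306719, .ofNat 125696640, .negSucc 44318879, .ofNat 6705600], (.tr (.dx 0 (.tr (.lf 5) (.lf 9) (.lf 19))) (.tr (.lf 10) (.lf 13) (.lf 14)) (.lf 6)), 0, [25, 9, 25, 9], []⟩))))

/-- data -/
def dV3x16 : RT := (.nd (.nd (.nd (.lf ⟨[.ofNat 0, .ofNat 45284400, .negSucc 89571539, .ofNat 72596400, .negSucc 24372179, .ofNat 3429000], (.tw (.dx 0 (.tr (.lf 13) (.lf 9) (.tr (.tw (.lf 5) (.lf 6)) (.lf 14) (.lf 19)))) (.lf 10)), 0, [10, 10, 13, 13, 0, 0, 13, 13], []⟩)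
    (.lf ⟨[.ofNat 0, .ofNat 9619200, .negSucc 47582399, .ofNat 54512640, .negSucc 21842879, .ofNat 3657600], (.tr (.lf 13) (.lf 14) (.tr (.dx 0 (.tw (.lf 5) (.lf 19))) (.lf 6) (.tw (.lf 9) (.lf 10)))), 0, [35, 35, 35, 35, 36, 36, 36, 36], []⟩))
    (.nd (.lf ⟨[.ofNat 0, .negSucc 9619199, .ofNat 47582400, .negSucc 54512639, .ofNat 21842880, .negSucc 3657599], (.tr (.lf 9) (.lf 10) (.tr (.lf 6) (.dx 0 (.tw (.lf 5) (.lf 19))) (.tw (.lf 13) (.lf 14)))), 0, [34, 34, 34, 34, 6, 6, 6, 6], []⟩)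
    (.lf ⟨[.ofNat 0, .ofNat 9619200, .negSucc 47582399, .ofNat 54512640, .negSucc 21842879, .ofNat 3657600], (.tr (.dx 0 (.tw (.lf 9) (.lf 19))) (.tr (.lf 10) (.tw (.lf 5) (.lf 6)) (.lf 13)) (.lf 14)), 0, [19, 19, 20, 20, 19, 19, 37, 37], []⟩)))
    (.nd (.nd (.lf ⟨[.ofNat 0, .ofNat 16340400, .negSucc 28676339, .ofNat 20497200, .negSucc 6049139, .ofNat 624840], (.tr (.dx 0 (.tw (.lf 9) (.lf 19))) (.lf 5) (.tr (.lf 6) (.tw (.lf 13) (.lf 14)) (.lf 10))), 0, [7, 7, 25, 25, 7, 7, 25, 25], []⟩)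
    (.lf ⟨[.ofNat 0, .negSucc 87131519, .ofNat 231708000, .negSucc 220210559, .ofNat 80671200, .negSucc 12801599], (.tr (.lf 6) (.tr (.dx 0 (.tr (.lf 13) (.lf 5) (.lf 19))) (.lf 9) (.lf 10)) (.lf 14)), 0, [37, 37, 8, 23], []⟩))
    (.nd (.lf ⟨[.ofNat 0, .negSucc 30732479, .ofNat 111454800, .negSucc 122487359, .ofNat 48190800, .negSucc 8107679], (.tr (.dx 0 (.tw (.lf 9) (.lf 19))) (.lf 13) (.tr (.tw (.lf 5) (.lf 14)) (.lf 6) (.lf 10))), 0, [20, 35, 19, 25, 30, 35, 19, 25], []⟩)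
    (.lf ⟨[.ofNat 0, .negSucc 43143839, .ofNat 66625080, .negSucc 45315359, .ofNat 13669560, .negSucc 1798319], (.tr (.lf 10) (.lf 5) (.tr (.dx 0 (.tw (.lf 9) (.lf 19))) (.tw (.lf 13) (.lf 14)) (.lf 6))), 0, [25, 25, 25, 25, 34, 34, 34, 34], []⟩))))

/-- data -/
def dV3x17 : RT := (.nd (.nd (.nd (.lf ⟨[.ofNat 0, .negSucc 34886879, .ofNat 74290440, .negSucc 60601439, .ofNat 21129480, .negSucc 3078479], (.tr (.lf 14) (.lf 9) (.tr (.dx 0 (.tr (.lf 13) (.lf 5) (.lf 19))) (.lf 6) (.lf 10))), 0, [35, 35, 36, 36], []⟩)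
    (.lf ⟨[.ofNat 0, .ofNat 26106480, .negSucc 72745859, .ofNat 69379440, .negSucc 25940099, .ofNat 4099560], (.tw (.dx 0 (.tr (.lf 13) (.lf 5) (.lf 19))) (.tr (.lf 6) (.tw (.lf 9) (.lf 10)) (.lf 14))), 0, [37, 37, 9, 9, 37, 37, 9, 9], []⟩))
    (.nd (.lf ⟨[.ofNat 0, .ofNat 8956800, .negSucc 40455839, .ofNat 42442560, .negSucc 16669919, .ofNat 2804160], (.tw (.lf 14) (.tr (.lf 9) (.tw (.dx 0 (.tr (.lf 13) (.lf 5) (.lf 19))) (.lf 6)) (.lf 10))), 0, [35, 35, 36, 13, 35, 35, 36, 13], []⟩)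
    (.lf ⟨[.ofNat 0, .ofNat 3121920, .ofNat 20935680, .negSucc 30665279, .ofNat 13342080, .negSucc 2316479], (.tr (.lf 5) (.tr (.lf 6) (.dx 0 (.tw (.lf 9) (.lf 19))) (.tw (.lf 13) (.lf 14))) (.lf 10)), 0, [32, 32, 32, 32, 24, 24, 24, 24], []⟩)))
    (.nd (.nd (.lf ⟨[.ofNat 0, .negSucc 391679, .negSucc 15612479, .ofNat 21665280, .negSucc 9192959, .ofNat 1584960], (.tr (.dx 0 (.tr (.tw (.lf 9) (.lf 10)) (.lf 5) (.lf 19))) (.lf 6) (.tw (.lf 13) (.lf 14))), 0, [19, 19, 19, 19, 19, 19, 19, 19], []⟩)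
    (.lf ⟨[.ofNat 0, .negSucc 2373119, .ofNat 2126400, .negSucc 1029119, .ofNat 121920], (.tr (.lf 10) (.lf 13) (.tr (.tw (.lf 5) (.lf 6)) (.dx 0 (.tw (.lf 9) (.lf 19))) (.lf 14))), 0, [23, 23, 23, 23, 33, 33, 33, 33], []⟩))
    (.nd (.lf ⟨[.ofNat 0, .negSucc 4057919, .negSucc 15251279, .ofNat 26269440, .negSucc 11664719, .ofNat 2133600], (.tw (.dx 0 (.tw (.lf 9) (.lf 19))) (.tr (.lf 10) (.lf 5) (.tr (.lf 13) (.lf 6) (.lf 14)))), 0, [19, 19, 20, 20, 19, 19, 30, 30], []⟩)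
    (.lf ⟨[.ofNat 0, .ofNat 46080, .negSucc 301439, .negSucc 117119], (.tw (.dx 0 (.tw (.lf 9) (.lf 19))) (.tr (.lf 13) (.lf 10) (.tr (.lf 5) (.lf 14) (.lf 6)))), 0, [25, 25, 37, 37, 25, 25, 37, 37], []⟩))))

/-- data -/
def dV3x18 : RT := (.nd (.nd (.nd (.lf ⟨[.ofNat 0, .ofNat 7675200, .negSucc 9493679, .ofNat 4711680, .negSucc 1026479, .ofNat 60960], (.tr (.dx 0 (.tw (.lf 9) (.lf 19))) (.lf 5) (.tr (.lf 13) (.tw (.lf 6) (.lf 10)) (.lf 14))), 0, [37, 20, 37, 20, 37, 19, 37, 19], []⟩)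
    (.lf ⟨[.ofNat 0, .negSucc 335519, .negSucc 2268839, .ofNat 3416160, .negSucc 1479719, .ofNat 274320], (.tw (.lf 10) (.tr (.dx 0 (.tw (.lf 9) (.lf 19))) (.tr (.lf 13) (.lf 5) (.lf 14)) (.lf 6))), 0, [25, 25, 25, 25, 31, 21, 31, 21], []⟩))
    (.nd (.lf ⟨[.ofNat 0, .ofNat 31358880, .negSucc 51960119, .ofNat 36901920, .negSucc 11636279, .ofNat 1554480], (.tw (.lf 10) (.tr (.lf 5) (.tr (.dx 0 (.tw (.lf 9) (.lf 19))) (.lf 13) (.lf 14)) (.lf 6))), 0, [25, 25, 33, 33, 25, 25, 33, 33], []⟩)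
    (.lf ⟨[.ofNat 0, .ofNat 3931200, .negSucc 28432079, .ofNat 34339200, .negSucc 13941839, .ofNat 2377440], (.tw (.dx 0 (.tr (.lf 9) (.lf 13) (.tr (.tw (.lf 5) (.lf 6)) (.lf 10) (.lf 19)))) (.lf 14)), 0, [23, 23, 20, 20, 0, 0, 23, 23], []⟩)))
    (.nd (.nd (.lf ⟨[.ofNat 0, .negSucc 12748319, .negSucc 5644199, .ofNat 21151200, .negSucc 10348199, .ofNat 1981200], (.tr (.dx 0 (.tw (.lf 13) (.tr (.tw (.lf 9) (.lf 10)) (.lf 5) (.lf 19)))) (.lf 6) (.lf 14)), 0, [19, 19, 10, 10, 20, 20, 19, 19], []⟩)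
    (.lf ⟨[.ofNat 0, .ofNat 18470880, .negSucc 274439, .negSucc 19174559, .ofNat 10216440, .negSucc 2042159], (.tr (.tw (.dx 0 (.tr (.lf 9) (.lf 5) (.tw (.lf 13) (.lf 14)))) (.lf 6)) (.lf 19) (.lf 10)), 0, [29, 29, 10, 10, 32, 32, 32, 32], []⟩))
    (.nd (.lf ⟨[.ofNat 0, .negSucc 18470879, .ofNat 274440, .ofNat 19174560, .negSucc 10216439, .ofNat 2042160], (.tr (.dx 0 (.tr (.lf 9) (.lf 5) (.tw (.lf 13) (.lf 14)))) (.lf 6) (.tw (.lf 10) (.lf 19))), 0, [20, 29, 20, 29, 10, 10, 10, 10], []⟩)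
    (.lf ⟨[.ofNat 0, .ofNat 18470880, .negSucc 274439, .negSucc 19174559, .ofNat 10216440, .negSucc 2042159], (.tr (.dx 0 (.tr (.lf 9) (.lf 5) (.tw (.lf 13) (.lf 14)))) (.tw (.lf 6) (.lf 10)) (.lf 19)), 0, [20, 20, 20, 20, 10, 10, 10, 10], []⟩))))

/-- data -/
def dV3x19 : RT := (.nd (.nd (.nd (.lf ⟨[.ofNat 0, .negSucc 13237919, .ofNat 8884440, .ofNat 1919520, .negSucc 2456999, .ofNat 640080], (.tr (.tw (.dx 0 (.tr (.lf 9) (.lf 5) (.tw (.lf 13) (.lf 14)))) (.lf 10)) (.lf 6) (.lf 19)), 0, [20, 20, 10, 10, 12, 12, 12, 12], []⟩)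
    (.lf ⟨[.ofNat 0, .ofNat 13237920, .negSucc 8884439, .negSucc 1919519, .ofNat 2457000, .negSucc 640079], (.tr (.tw (.dx 0 (.tr (.lf 5) (.tw (.lf 9) (.lf 10)) (.lf 13))) (.lf 6)) (.lf 14) (.lf 19)), 0, [0, 0, 39, 39, 32, 32, 32, 32], []⟩))
    (.nd (.lf ⟨[.ofNat 0, .negSucc 1274399, .ofNat 2013240, .negSucc 1861919, .ofNat 655800, .negSucc 91439], (.tr (.dx 0 (.tr (.lf 5) (.tw (.lf 9) (.lf 10)) (.lf 13))) (.tw (.lf 6) (.lf 14)) (.lf 19)), 0, [0, 0, 0, 0, 39, 27, 39, 27], []⟩)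
    (.lf ⟨[.ofNat 0, .negSucc 13759199, .ofNat 3122760, .ofNat 10860960, .negSucc 6189239, .ofNat 1310640], (.tr (.lf 6) (.tw (.dx 0 (.tr (.lf 5) (.tw (.lf 9) (.lf 10)) (.lf 13))) (.lf 14)) (.lf 19)), 0, [32, 32, 32, 32, 24, 24, 24, 24], []⟩)))
    (.nd (.nd (.lf ⟨[.ofNat 0, .ofNat 13759200, .negSucc 3122759, .negSucc 10860959, .ofNat 6189240, .negSucc 1310639], (.tr (.tw (.dx 0 (.tr (.lf 5) (.tw (.lf 9) (.lf 10)) (.lf 13))) (.lf 19)) (.lf 14) (.lf 6)), 0, [0, 0, 25, 25, 25, 25, 25, 25], []⟩)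
    (.lf ⟨[.ofNat 0, .negSucc 13759199, .ofNat 3122760, .ofNat 10860960, .negSucc 6189239, .ofNat 1310640], (.tr (.dx 0 (.tr (.lf 5) (.tw (.lf 9) (.lf 10)) (.lf 13))) (.lf 19) (.tw (.lf 6) (.lf 14))), 0, [0, 0, 0, 0, 19, 25, 19, 25], []⟩))
    (.nd (.lf ⟨[.ofNat 0, .negSucc 4711679, .negSucc 2848319, .ofNat 8313600, .negSucc 4027199, .ofNat 731520], (.tr (.dx 0 (.tr (.lf 9) (.lf 5) (.tw (.lf 13) (.lf 14)))) (.lf 10) (.tw (.lf 6) (.lf 19))), 0, [20, 17, 20, 17, 10, 10, 10, 10], []⟩)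
    (.lf ⟨[.ofNat 0, .ofNat 18293760, .negSucc 28008959, .ofNat 19688640, .negSucc 6019199, .ofNat 853440], (.tr (.dx 0 (.tr (.lf 9) (.lf 5) (.tw (.lf 13) (.lf 14)))) (.tw (.lf 10) (.lf 19)) (.lf 6)), 0, [17, 9, 17, 9, 10, 10, 10, 10], []⟩))))

/-- data -/
def dV3x20 : RT := (.nd (.nd (.nd (.lf ⟨[.ofNat 0, .ofNat 1274400, .negSucc 2013239, .ofNat 1861920, .negSucc 655799, .ofNat 91440], (.tr (.lf 10) (.tw (.dx 0 (.tr (.lf 9) (.lf 5) (.tw (.lf 13) (.lf 14)))) (.lf 6)) (.lf 19)), 0, [12, 12, 12, 12, 34, 34, 34, 34], []⟩)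
    (.lf ⟨[.ofNat 0, .negSucc 35199359, .ofNat 97674720, .negSucc 95525759, .ofNat 35651040, .negSucc 5730239], (.tw (.lf 5) (.tr (.dx 0 (.tw (.lf 9) (.lf 19))) (.lf 13) (.tr (.lf 10) (.lf 6) (.lf 14)))), 0, [19, 32, 32, 32, 8, 8, 24, 24], []⟩))
    (.nd (.lf ⟨[.ofNat 0, .ofNat 18705600, .negSucc 48754799, .ofNat 46429440, .negSucc 17174639, .ofNat 2743200], (.tr (.dx 0 (.tw (.lf 9) (.lf 19))) (.tr (.lf 10) (.lf 5) (.tw (.lf 13) (.lf 14))) (.lf 6)), 0, [25, 25, 9, 9, 25, 25, 9, 9], []⟩)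
    (.lf ⟨[.ofNat 0, .negSucc 1105919, .negSucc 82559, .ofNat 1333440, .negSucc 650879, .ofNat 121920], (.tw (.dx 0 (.tw (.lf 9) (.lf 19))) (.tr (.lf 13) (.lf 14) (.tr (.lf 5) (.lf 10) (.lf 6)))), 0, [9, 9, 19, 19, 9, 9, 19, 19], []⟩)))
    (.nd (.nd (.lf ⟨[.ofNat 0, .ofNat 69120, .ofNat 16325760, .negSucc 23272319, .ofNat 9843840, .negSucc 1706879], (.tr (.lf 6) (.dx 0 (.tr (.lf 13) (.lf 5) (.lf 19))) (.tr (.lf 9) (.lf 10) (.lf 14))), 0, [37, 7, 37, 7], []⟩)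
    (.lf ⟨[.ofNat 0, .ofNat 557280, .negSucc 27706919, .ofNat 35631840, .negSucc 14414759, .ofNat 2468880], (.tw (.lf 13) (.tr (.dx 0 (.tw (.lf 9) (.lf 19))) (.lf 10) (.tr (.lf 5) (.lf 14) (.lf 6)))), 0, [25, 25, 25, 25, 18, 18, 18, 18], []⟩))
    (.nd (.lf ⟨[.ofNat 0, .ofNat 3500640, .ofNat 42958200, .negSucc 61901279, .ofNat 26079480, .negSucc 4602479], (.tw (.lf 9) (.tr (.lf 6) (.dx 0 (.tw (.lf 5) (.lf 19))) (.tr (.lf 13) (.lf 10) (.lf 14)))), 0, [37, 37, 37, 37, 6, 6, 6, 6], []⟩)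
    (.lf ⟨[.ofNat 0, .negSucc 7264799, .ofNat 65438040, .negSucc 81765599, .ofNat 33095640, .negSucc 5699759], (.tw (.lf 13) (.tr (.lf 9) (.tr (.lf 6) (.dx 0 (.tw (.lf 5) (.lf 19))) (.lf 14)) (.lf 10))), 0, [36, 36, 36, 36, 36, 36, 36, 36], []⟩))))

/-- data -/
def dV3x21 : RT := (.nd (.nd (.nd (.lf ⟨[.ofNat 0, .ofNat 20063520, .negSucc 78252119, .ofNat 85137120, .negSucc 32769239, .ofNat 5455920], (.tw (.lf 5) (.tr (.lf 13) (.tr (.dx 0 (.tw (.lf 9) (.lf 19))) (.lf 10) (.lf 6)) (.lf 14))), 0, [24, 24, 24, 24, 24, 24, 24, 24], []⟩)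
    (.lf ⟨[.ofNat 0, .negSucc 335519, .negSucc 2268839, .ofNat 3416160, .negSucc 1479719, .ofNat 274320], (.tw (.lf 9) (.tr (.lf 13) (.tr (.dx 0 (.tw (.lf 5) (.lf 19))) (.lf 6) (.lf 10)) (.lf 14))), 0, [37, 37, 6, 6, 37, 37, 6, 6], []⟩))
    (.nd (.lf ⟨[.ofNat 0, .ofNat 335520, .ofNat 2268840, .negSucc 3416159, .ofNat 1479720, .negSucc 274319], (.tw (.lf 13) (.tr (.dx 0 (.tw (.lf 5) (.lf 19))) (.lf 6) (.tr (.lf 9) (.lf 14) (.lf 10)))), 0, [7, 7, 7, 7, 36, 36, 36, 36], []⟩)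
    (.lf ⟨[.ofNat 0, .negSucc 93729599, .ofNat 124572720, .negSucc 72321599, .ofNat 18592560, .negSucc 1889759], (.tr (.dx 0 (.tr (.lf 5) (.lf 19) (.lf 9))) (.tr (.lf 10) (.lf 13) (.lf 14)) (.lf 6)), 0, [25, 9, 25, 9], []⟩)))
    (.nd (.nd (.lf ⟨[.ofNat 0, .negSucc 29072159, .ofNat 78561720, .negSucc 72782879, .ofNat 26769720, .negSucc 4480559], (.tr (.lf 6) (.lf 13) (.tr (.dx 0 (.tr (.lf 5) (.lf 9) (.lf 19))) (.lf 10) (.lf 14))), 0, [24, 24, 24, 24], []⟩)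
    (.lf ⟨[.ofNat 0, .negSucc 13218479, .ofNat 3857940, .ofNat 7402320, .negSucc 4671659, .ofNat 1082040], (.tw (.dx 0 (.tr (.lf 13) (.lf 19) (.tr (.lf 5) (.tw (.lf 9) (.lf 14)) (.lf 6)))) (.lf 10)), 0, [13, 13, 13, 13, 0, 13, 0, 13], []⟩))
    (.nd (.lf ⟨[.ofNat 0, .ofNat 10641600, .negSucc 39540239, .ofNat 45270720, .negSucc 17479439, .ofNat 2743200], (.tr (.lf 6) (.lf 13) (.tr (.lf 10) (.dx 0 (.tr (.lf 5) (.lf 9) (.lf 19))) (.lf 14))), 0, [24, 24, 24, 24], []⟩)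
    (.lf ⟨[.ofNat 0, .ofNat 4255920, .negSucc 12944339, .ofNat 12223920, .negSucc 4645139, .ofNat 868680], (.tw (.lf 13) (.tr (.lf 9) (.tr (.dx 0 (.tw (.lf 5) (.lf 19))) (.lf 14) (.lf 6)) (.lf 10))), 0, [36, 36, 36, 36, 36, 36, 36, 36], []⟩))))

/-- data -/
def dV3x22 : RT := (.nd (.nd (.nd (.lf ⟨[.ofNat 0, .negSucc 6024239, .ofNat 22655700, .negSucc 23106479, .ofNat 9038100, .negSucc 1600199], (.tw (.dx 0 (.tr (.lf 5) (.lf 19) (.tr (.lf 13) (.tw (.lf 6) (.lf 9)) (.lf 14)))) (.lf 10)), 0, [13, 13, 13, 13, 10, 13, 10, 13], []⟩)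
    (.lf ⟨[.ofNat 0, .ofNat 19830240, .negSucc 45107879, .ofNat 40053600, .negSucc 14332199, .ofNat 2225040], (.tr (.lf 9) (.lf 6) (.tr (.lf 13) (.tw (.dx 0 (.tw (.lf 5) (.lf 19))) (.lf 10)) (.lf 14))), 0, [37, 37, 23, 34, 37, 37, 23, 34], []⟩))
    (.nd (.lf ⟨[.ofNat 0, .negSucc 58813919, .ofNat 155644680, .negSucc 149825759, .ofNat 55434120, .negSucc 8930639], (.tr (.dx 0 (.tr (.lf 5) (.tr (.lf 13) (.lf 9) (.lf 19)) (.lf 14))) (.lf 10) (.lf 6)), 0, [0, 9, 10, 10], []⟩)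
    (.lf ⟨[.ofNat 0, .ofNat 20253600, .negSucc 55019159, .ofNat 51580320, .negSucc 18577559, .ofNat 2651760], (.tr (.lf 6) (.tr (.dx 0 (.tr (.lf 5) (.lf 13) (.lf 19))) (.lf 9) (.lf 10)) (.lf 14)), 0, [32, 37, 8, 8], []⟩)))
    (.nd (.nd (.lf ⟨[.ofNat 0, .negSucc 24411599, .ofNat 44640300, .negSucc 33776399, .ofNat 10690860, .negSucc 1325879], (.tr (.dx 0 (.tw (.lf 5) (.tr (.tw (.lf 13) (.lf 14)) (.lf 9) (.lf 19)))) (.lf 10) (.lf 6)), 0, [0, 0, 9, 9, 10, 10, 30, 30], []⟩)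
    (.lf ⟨[.ofNat 0, .ofNat 26432640, .negSucc 76828319, .ofNat 75085440, .negSucc 28044959, .ofNat 4511040], (.tr (.lf 13) (.lf 9) (.tr (.tw (.dx 0 (.tw (.lf 5) (.lf 19))) (.lf 10)) (.lf 14) (.lf 6))), 0, [25, 25, 36, 36, 36, 36, 36, 36], []⟩))
    (.nd (.lf ⟨[.ofNat 0, .negSucc 11292479, .ofNat 36176400, .negSucc 36653759, .ofNat 13900560, .negSucc 2255519], (.tr (.dx 0 (.tw (.lf 5) (.lf 19))) (.tr (.lf 9) (.tw (.lf 6) (.lf 13)) (.lf 10)) (.lf 14)), 0, [37, 37, 37, 37, 37, 37, 37, 37], []⟩)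
    (.lf ⟨[.ofNat 0, .ofNat 11292480, .negSucc 36176399, .ofNat 36653760, .negSucc 13900559, .ofNat 2255520], (.tw (.dx 0 (.tw (.lf 5) (.lf 19))) (.tr (.lf 9) (.lf 6) (.tr (.lf 13) (.lf 10) (.lf 14)))), 0, [37, 37, 0, 0, 37, 37, 30, 30], []⟩))))

/-- data -/
def dV3x23 : RT := (.nd (.nd (.nd (.lf ⟨[.ofNat 0, .ofNat 16716960, .negSucc 28880279, .ofNat 21488640, .negSucc 7052759, .ofNat 1066800], (.tr (.lf 10) (.dx 0 (.tr (.lf 19) (.lf 9) (.tr (.lf 5) (.lf 13) (.lf 6)))) (.lf 14)), 0, [12, 12, 12, 12], []⟩)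
    (.lf ⟨[.ofNat 0, .negSucc 35095679, .ofNat 76744800, .negSucc 68449919, .ofNat 24505440, .negSucc 3779519], (.tr (.dx 0 (.tr (.lf 5) (.tw (.lf 9) (.lf 13)) (.lf 14))) (.lf 19) (.tw (.lf 6) (.lf 10))), 0, [0, 0, 0, 0, 35, 9, 10, 10], []⟩))
    (.nd (.lf ⟨[.ofNat 0, .ofNat 15367680, .negSucc 17558879, .ofNat 8417280, .negSucc 1809119, .ofNat 121920], (.tr (.dx 0 (.tr (.lf 9) (.lf 19) (.lf 13))) (.tr (.lf 5) (.lf 14) (.lf 6)) (.lf 10)), 0, [20, 20, 10, 10], []⟩)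
    (.lf ⟨[.ofNat 0, .negSucc 28840319, .ofNat 74548800, .negSucc 70878719, .ofNat 26153280, .negSucc 4145279], (.tw (.lf 9) (.tr (.dx 0 (.tw (.lf 5) (.lf 19))) (.tr (.lf 13) (.lf 10) (.lf 14)) (.lf 6))), 0, [25, 25, 25, 25, 31, 1, 31, 1], []⟩)))
    (.nd (.nd (.lf ⟨[.ofNat 0, .ofNat 30072960, .negSucc 82821119, .ofNat 81935040, .negSucc 30831359, .ofNat 4998720], (.tw (.lf 6) (.tr (.lf 9) (.dx 0 (.tw (.lf 5) (.lf 19))) (.tr (.lf 13) (.lf 10) (.lf 14)))), 0, [37, 37, 37, 37, 24, 24, 24, 24], []⟩)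
    (.lf ⟨[.ofNat 0, .negSucc 30072959, .ofNat 82821120, .negSucc 81935039, .ofNat 30831360, .negSucc 4998719], (.tr (.dx 0 (.tr (.lf 13) (.lf 9) (.lf 19))) (.lf 10) (.tr (.lf 5) (.lf 14) (.lf 6))), 0, [25, 25, 25, 25], []⟩))
    (.nd (.lf ⟨[.ofNat 0, .negSucc 5872319, .ofNat 24155280, .negSucc 26750399, .ofNat 10565520, .negSucc 1767839], (.tr (.lf 13) (.lf 10) (.tr (.dx 0 (.tr (.lf 5) (.lf 9) (.lf 19))) (.lf 14) (.lf 6))), 0, [25, 25, 36, 36], []⟩)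
    (.lf ⟨[.ofNat 0, .ofNat 17904960, .negSucc 64587599, .ofNat 69593280, .negSucc 26957519, .ofNat 4450080], (.tr (.lf 6) (.tw (.dx 0 (.tr (.lf 13) (.tw (.lf 5) (.lf 9)) (.lf 14))) (.lf 19)) (.lf 10)), 0, [32, 32, 32, 32, 13, 13, 13, 13], []⟩))))

/-- data -/
def dV3x24 : RT := (.nd (.nd (.nd (.lf ⟨[.ofNat 0, .negSucc 10344959, .ofNat 29807040, .negSucc 30167999, .ofNat 11348160, .negSucc 1828799], (.tr (.tw (.dx 0 (.tr (.lf 13) (.tw (.lf 5) (.lf 9)) (.lf 14))) (.lf 6)) (.lf 19) (.lf 10)), 0, [10, 29, 10, 29, 32, 32, 32, 32], []⟩)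
    (.lf ⟨[.ofNat 0, .negSucc 14968799, .ofNat 52509960, .negSucc 56218079, .ofNat 21674760, .negSucc 3566159], (.tr (.tw (.dx 0 (.tr (.lf 13) (.tw (.lf 5) (.lf 9)) (.lf 14))) (.lf 10)) (.lf 19) (.lf 6)), 0, [17, 17, 17, 17, 12, 12, 12, 12], []⟩))
    (.nd (.lf ⟨[.ofNat 0, .ofNat 46952640, .negSucc 120994319, .ofNat 115197120, .negSucc 42209039, .ofNat 6644640], (.tr (.dx 0 (.tr (.lf 13) (.lf 5) (.tr (.lf 9) (.lf 14) (.lf 19)))) (.lf 6) (.lf 10)), 0, [35, 35, 35, 30], []⟩)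
    (.lf ⟨[.ofNat 0, .negSucc 3283199, .ofNat 501120, .ofNat 3017280, .negSucc 1708799, .ofNat 365760], (.tr (.dx 0 (.tr (.lf 13) (.tw (.lf 5) (.lf 9)) (.lf 14))) (.lf 10) (.tw (.lf 6) (.lf 19))), 0, [10, 17, 10, 17, 10, 17, 10, 17], []⟩)))
    (.nd (.nd (.lf ⟨[.ofNat 0, .negSucc 12850559, .ofNat 12862320, .negSucc 2822399, .negSucc 275279, .ofNat 182880], (.tr (.dx 0 (.tr (.lf 13) (.tw (.lf 5) (.lf 9)) (.lf 14))) (.tw (.lf 6) (.lf 10)) (.lf 19)), 0, [10, 10, 10, 10, 10, 10, 10, 10], []⟩)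
    (.lf ⟨[.ofNat 0, .ofNat 28288080, .negSucc 33697979, .ofNat 15832080, .negSucc 3343739, .ofNat 289560], (.tr (.tw (.dx 0 (.tr (.lf 13) (.tw (.lf 5) (.lf 9)) (.lf 14))) (.lf 6)) (.lf 10) (.lf 19)), 0, [10, 10, 10, 10, 15, 15, 15, 15], []⟩))
    (.nd (.lf ⟨[.ofNat 0, .negSucc 37972079, .ofNat 63933300, .negSucc 47149679, .ofNat 15225780, .negSucc 2209799], (.tr (.lf 6) (.tw (.dx 0 (.tr (.lf 13) (.tw (.lf 5) (.lf 9)) (.lf 14))) (.lf 10)) (.lf 19)), 0, [15, 15, 15, 15, 8, 8, 8, 8], []⟩)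
    (.lf ⟨[.ofNat 0, .ofNat 22534560, .negSucc 43097639, .ofNat 34140000, .negSucc 11606759, .ofNat 1737360], (.tr (.tw (.dx 0 (.tr (.lf 13) (.tw (.lf 5) (.lf 9)) (.lf 14))) (.lf 19)) (.lf 10) (.lf 6)), 0, [10, 9, 10, 9, 9, 9, 9, 9], []⟩))))

/-- data -/
def dV3 : RT := (.nd (.nd (.nd (.nd dV3x0 (.nd dV3x1 dV3x2)) (.nd dV3x3 (.nd dV3x4 dV3x5))) (.nd (.nd dV3x6 (.nd dV3x7 dV3x8)) (.nd dV3x9 (.nd dV3x10 dV3x11)))) (.nd (.nd (.nd dV3x12 (.nd dV3x13 dV3x14)) (.nd dV3x15 (.nd dV3x16 dV3x17))) (.nd (.nd dV3x18 (.nd dV3x19 dV3x20)) (.nd (.nd dV3x21 dV3x22) (.nd dV3x23 dV3x24)))))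

/-- data -/
def lV3x0 : List (ℕ × List ℤ) := [(42220, [.ofNat 0, .ofNat 0, .negSucc 5587199, .negSucc 31640639, .ofNat 46056960, .negSucc 20135999, .ofNat 3657600]),
  (42269, [.ofNat 0, .ofNat 0, .negSucc 57726719, .ofNat 114392640, .negSucc 97908479, .ofNat 34013760, .negSucc 5120639]),
  (42283, [.ofNat 0, .ofNat 0, .ofNat 0, .negSucc 1359359, .ofNat 1466880, .negSucc 215039]),
  (42339, [.ofNat 0, .ofNat 0, .negSucc 52139519, .ofNat 144673920, .negSucc 142498559, .ofNat 53934720, .negSucc 8778239]),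
  (337756, [.ofNat 0, .ofNat 0, .negSucc 40982399, .ofNat 102143040, .negSucc 95122559, .ofNat 34215360, .negSucc 5364479]),
  (338149, [.ofNat 0, .ofNat 0, .negSucc 40982399, .ofNat 102143040, .negSucc 95122559, .ofNat 34215360, .negSucc 5364479]),
  (2664669, [.ofNat 0, .ofNat 0, .ofNat 1359360, .negSucc 1466879, .ofNat 215040]),
  (2705181, [.ofNat 0, .ofNat 0, .negSucc 1359359, .ofNat 1466880, .negSucc 215039]),
  (2734186, [.ofNat 0, .ofNat 0, .negSucc 102206879, .ofNat 132370200, .negSucc 69580319, .ofNat 15561240, .negSucc 944879]),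
  (2758380, [.ofNat 0, .ofNat 0, .negSucc 102206879, .ofNat 132370200, .negSucc 69580319, .ofNat 15561240, .negSucc 944879]),
  (19478316, [.ofNat 0, .negSucc 8478719, .ofNat 18744960, .negSucc 16571519, .ofNat 5124480, .negSucc 731519]),
  (19478373, [.ofNat 0, .ofNat 39847680, .negSucc 14084159, .negSucc 19720319, .ofNat 12408000, .negSucc 2438399]),
  (19482469, [.ofNat 0, .negSucc 19238399, .ofNat 95164800, .negSucc 109025279, .ofNat 43685760, .negSucc 7315199]),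
  (19483421, [.ofNat 0, .ofNat 19238400, .negSucc 95164799, .ofNat 109025280, .negSucc 43685759, .ofNat 7315200]),
  (19511973, [.ofNat 0, .ofNat 1140480, .ofNat 8101440, .negSucc 11950079, .ofNat 4514880, .negSucc 731519]),
  (19511980, [.ofNat 0, .negSucc 14088959, .ofNat 38089920, .negSucc 36326399, .ofNat 13544640, .negSucc 2194559]),
  (19515244, [.ofNat 0, .negSucc 37727999, .ofNat 47916480, .negSucc 27427199, .ofNat 7523520, .negSucc 975359]),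
  (19518757, [.ofNat 0, .ofNat 1497600, .ofNat 46124160, .negSucc 63388799, .ofNat 26928000, .negSucc 4632959]),
  (19520284, [.ofNat 0, .ofNat 37728000, .negSucc 47916479, .ofNat 27427200, .negSucc 7523519, .ofNat 975360]),
  (19540317, [.ofNat 0, .negSucc 10414079, .ofNat 39982080, .negSucc 44766719, .ofNat 17571840, .negSucc 2926079]),
  (19540709, [.ofNat 0, .negSucc 2142719, .ofNat 16160640, .negSucc 20605439, .ofNat 8542080, .negSucc 1463039]),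
  (19540765, [.ofNat 0, .negSucc 2211839, .negSucc 165119, .ofNat 2666880, .negSucc 1301759, .ofNat 243840]),
  (19543916, [.ofNat 0, .ofNat 1405440, .negSucc 4045439, .ofNat 4325760, .negSucc 1545599, .ofNat 243840]),
  (19544427, [.ofNat 0, .ofNat 9492480, .negSucc 8505599, .ofNat 4116480, .negSucc 487679]),
  (19544741, [.ofNat 0, .ofNat 69120, .ofNat 16325760, .negSucc 23272319, .ofNat 9843840, .negSucc 1706879]),
  (19547485, [.ofNat 0, .negSucc 1670399, .negSucc 112048319, .ofNat 151428480, .negSucc 63007679, .ofNat 10728960]),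
  (19552988, [.ofNat 0, .ofNat 1405440, .negSucc 4045439, .ofNat 4325760, .negSucc 1545599, .ofNat 243840]),
  (19552995, [.ofNat 0, .negSucc 9492479, .ofNat 8505600, .negSucc 4116479, .ofNat 487680]),
  (19576101, [.ofNat 0, .negSucc 69119, .negSucc 16325759, .ofNat 23272320, .negSucc 9843839, .ofNat 1706880]),
  (19576485, [.ofNat 0, .ofNat 37728000, .negSucc 47916479, .ofNat 27427200, .negSucc 7523519, .ofNat 975360]),
  (19576492, [.ofNat 0, .negSucc 14088959, .ofNat 38089920, .negSucc 36326399, .ofNat 13544640, .negSucc 2194559]),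
  (19580125, [.ofNat 0, .ofNat 36587520, .negSucc 56017919, .ofNat 39377280, .negSucc 12038399, .ofNat 1706880]),
  (19581085, [.ofNat 0, .negSucc 1566719, .negSucc 62449919, .ofNat 86661120, .negSucc 36771839, .ofNat 6339840]),
  (19584227, [.ofNat 0, .ofNat 8478720, .negSucc 18744959, .ofNat 16571520, .negSucc 5124479, .ofNat 731520]),
  (21313324, [.ofNat 0, .ofNat 56436480, .negSucc 114202559, .ofNat 94903680, .negSucc 32740799, .ofNat 4876800]),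
  (21313772, [.ofNat 0, .ofNat 671040, .ofNat 4537680, .negSucc 6832319, .ofNat 2959440, .negSucc 548639]),
  (21314332, [.ofNat 0, .negSucc 671039, .negSucc 4537679, .ofNat 6832320, .negSucc 2959439, .ofNat 548640]),
  (21317477, [.ofNat 0, .ofNat 7001280, .ofNat 85916400, .negSucc 123802559, .ofNat 52158960, .negSucc 9204959]),
  (21317867, [.ofNat 0, .ofNat 24707520, .negSucc 138447119, .ofNat 161557440, .negSucc 65153039, .ofNat 11033760]),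
  (21318429, [.ofNat 0, .negSucc 7001279, .negSucc 85916399, .ofNat 123802560, .negSucc 52158959, .ofNat 9204960]),
  (21322467, [.ofNat 0, .negSucc 7084799, .ofNat 21099360, .negSucc 22899839, .ofNat 8164320, .negSucc 1341119]),
  (21347109, [.ofNat 0, .negSucc 3421439, .ofNat 118464960, .negSucc 154592639, .ofNat 63495360, .negSucc 10728959]),
  (21347114, [.ofNat 0, .ofNat 1042560, .ofNat 11523360, .negSucc 17882879, .ofNat 7464480, .negSucc 1341119]),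
  (21374763, [.ofNat 0, .negSucc 65839679, .ofNat 208526640, .negSucc 218247359, .ofNat 83841840, .negSucc 13837919]),
  (21374819, [.ofNat 0, .ofNat 56787840, .negSucc 77915039, .ofNat 46953600, .negSucc 13399199, .ofNat 1584960]),
  (21378347, [.ofNat 0, .negSucc 60145919, .ofNat 165642240, .negSucc 163870079, .ofNat 61662720, .negSucc 9997439]),
  (21378412, [.ofNat 0, .ofNat 20253600, .negSucc 55019159, .ofNat 51580320, .negSucc 18577559, .ofNat 2651760]),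
  (21378725, [.ofNat 0, .negSucc 23927039, .ofNat 13742400, .ofNat 7562880, .negSucc 6225599, .ofNat 1463040]),
  (21378924, [.ofNat 0, .ofNat 10149120, .ofNat 93303360, .negSucc 134856959, .ofNat 57883200, .negSucc 9997439]),
  (21379418, [.ofNat 0, .ofNat 41241600, .negSucc 211918079, .ofNat 241537920, .negSucc 94367999, .ofNat 15849600]),
  (21379820, [.ofNat 0, .ofNat 18561600, .ofNat 5898000, .negSucc 26685119, .ofNat 14065680, .negSucc 2743199]),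
  (21379866, [.ofNat 0, .ofNat 33713280, .ofNat 4874400, .negSucc 45795839, .ofNat 23982240, .negSucc 4754879]),
  (21382827, [.ofNat 0, .ofNat 11013120, .ofNat 5453280, .negSucc 22479359, .ofNat 10378080, .negSucc 2072639]),
  (21383901, [.ofNat 0, .negSucc 3421439, .ofNat 118464960, .negSucc 154592639, .ofNat 63495360, .negSucc 10728959]),
  (21386915, [.ofNat 0, .ofNat 122627520, .negSucc 286441679, .ofNat 265200960, .negSucc 97241039, .ofNat 15422880]),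
  (21386988, [.ofNat 0, .ofNat 26444160, .ofNat 185063520, .negSucc 277760639, .ofNat 121158240, .negSucc 21335999]),
  (21387027, [.ofNat 0, .ofNat 60145920, .negSucc 165642239, .ofNat 163870080, .negSucc 61662719, .ofNat 9997440]),
  (21387034, [.ofNat 0, .negSucc 7528319, .ofNat 216792480, .negSucc 287333759, .ofNat 118350240, .negSucc 20604479]),
  (21387482, [.ofNat 0, .ofNat 35124480, .negSucc 61385279, .ofNat 45294720, .negSucc 14690879, .ofNat 1950720]),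
  (21411493, [.ofNat 0, .ofNat 37578240, .negSucc 113145599, .ofNat 115829760, .negSucc 44186879, .ofNat 7315200]),
  (21415133, [.ofNat 0, .ofNat 11738880, .negSucc 25744319, .ofNat 21315840, .negSucc 7834559, .ofNat 1219200]),
  (21416157, [.ofNat 0, .negSucc 5091839, .ofNat 6416640, .negSucc 3164159, .ofNat 487680]),
  (21419299, [.ofNat 0, .ofNat 4032000, .ofNat 20812800, .negSucc 29020799, .ofNat 12691200, .negSucc 2194559]),
  (21419683, [.ofNat 0, .ofNat 13861440, .negSucc 30474479, .ofNat 24248640, .negSucc 8210159, .ofNat 1158240]),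
  (21419802, [.ofNat 0, .ofNat 55912320, .negSucc 150354239, .ofNat 145754880, .negSucc 53576639, .ofNat 8534400]),
  (21420195, [.ofNat 0, .negSucc 1042559, .negSucc 11523359, .ofNat 17882880, .negSucc 7464479, .ofNat 1341120]),
  (21546795, [.ofNat 0, .ofNat 37411200, .negSucc 97509599, .ofNat 92858880, .negSucc 34349279, .ofNat 5486400]),
  (21546851, [.ofNat 0, .ofNat 37411200, .negSucc 97509599, .ofNat 92858880, .negSucc 34349279, .ofNat 5486400]),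
  (21600492, [.ofNat 0, .ofNat 19336320, .negSucc 54735839, .ofNat 55128960, .negSucc 20682719, .ofNat 3291840]),
  (21600555, [.ofNat 0, .negSucc 17556479, .ofNat 18240000, .negSucc 7165439, .ofNat 975360]),
  (21609061, [.ofNat 0, .ofNat 100052640, .negSucc 117458519, .ofNat 50702880, .negSucc 8198999, .negSucc 274319]),
  (21609229, [.ofNat 0, .negSucc 12418559, .ofNat 24597120, .negSucc 21544319, .ofNat 7728000, .negSucc 1219199]),
  (21611244, [.ofNat 0, .ofNat 20119680, .negSucc 55380959, .ofNat 55128960, .negSucc 20682719, .ofNat 3291840]),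
  (21612651, [.ofNat 0, .negSucc 5978879, .ofNat 31771200, .negSucc 36597119, .ofNat 14602560, .negSucc 2438399]),
  (21615395, [.ofNat 0, .negSucc 14365439, .ofNat 45927360, .negSucc 46980479, .ofNat 17937600, .negSucc 2926079]),
  (21615403, [.ofNat 0, .ofNat 36587520, .negSucc 56017919, .ofNat 39377280, .negSucc 12038399, .ofNat 1706880]),
  (21615452, [.ofNat 0, .ofNat 1042560, .ofNat 11523360, .negSucc 17882879, .ofNat 7464480, .negSucc 1341119]),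
  (21615459, [.ofNat 0, .ofNat 27164160, .negSucc 61714559, .ofNat 56004480, .negSucc 20092799, .ofNat 3169920]),
  (21616229, [.ofNat 0, .ofNat 128450880, .negSucc 340399919, .ofNat 324949440, .negSucc 119667119, .ofNat 18958560]),
  (21616732, [.ofNat 0, .ofNat 10641600, .negSucc 39540239, .ofNat 45270720, .negSucc 17479439, .ofNat 2743200]),
  (21616733, [.ofNat 0, .ofNat 52212960, .negSucc 145491719, .ofNat 138758880, .negSucc 51880199, .ofNat 8199120]),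
  (21616844, [.ofNat 0, .negSucc 9463679, .ofNat 14337120, .negSucc 9479039, .ofNat 2867040, .negSucc 365759]),
  (21616907, [.ofNat 0, .ofNat 30792960, .negSucc 19118399, .negSucc 3847679, .ofNat 5411520, .negSucc 1219199]),
  (21617251, [.ofNat 0, .ofNat 8386560, .negSucc 14156159, .ofNat 10383360, .negSucc 3335039, .ofNat 487680]),
  (21632811, [.ofNat 0, .ofNat 32680800, .negSucc 57352679, .ofNat 40994400, .negSucc 12098279, .ofNat 1249680]),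
  (21632867, [.ofNat 0, .negSucc 54381599, .ofNat 190681080, .negSucc 202488479, .ofNat 78416760, .negSucc 13258799]),
  (21632876, [.ofNat 0, .ofNat 391680, .negSucc 322559]),
  (21633821, [.ofNat 0, .ofNat 19673280, .negSucc 19014479, .ofNat 6772800, .negSucc 517199, .negSucc 182879]),
  (21639979, [.ofNat 0, .ofNat 32220000, .negSucc 65744999, .ofNat 52913760, .negSucc 17549159, .ofNat 2225040]),
  (21640035, [.ofNat 0, .negSucc 73475999, .ofNat 69553560, .negSucc 20741279, .ofNat 15000, .ofNat 762000]),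
  (21640043, [.ofNat 0, .negSucc 4919039, .ofNat 12555840, .negSucc 12080639, .ofNat 4514880, .negSucc 731519]),
  (21641547, [.ofNat 0, .negSucc 93729599, .ofNat 124572720, .negSucc 72321599, .ofNat 18592560, .negSucc 1889759]),
  (21641827, [.ofNat 0, .negSucc 66206879, .ofNat 180700440, .negSucc 176005919, .ofNat 65429400, .negSucc 10454639]),
  (21641829, [.ofNat 0, .negSucc 26314559, .negSucc 40481039, .ofNat 82063680, .negSucc 37658639, .ofNat 6888480]),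
  (21641836, [.ofNat 0, .negSucc 58848479, .ofNat 117119880, .negSucc 100111199, .ofNat 34124040, .negSucc 5273039]),
  (21642059, [.ofNat 0, .negSucc 4919039, .ofNat 12555840, .negSucc 12080639, .ofNat 4514880, .negSucc 731519]),
  (21642060, [.ofNat 0, .negSucc 20816639, .ofNat 61437120, .negSucc 60973439, .ofNat 23632320, .negSucc 3901439]),
  (21644907, [.ofNat 0, .ofNat 7153920, .ofNat 1055040, .negSucc 8079359, .ofNat 4027200, .negSucc 731519]),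
  (21645131, [.ofNat 0, .negSucc 8432639, .ofNat 21066240, .negSucc 19835519, .ofNat 7484160, .negSucc 1219199]),
  (21648157, [.ofNat 0, .ofNat 19673280, .negSucc 19014479, .ofNat 6772800, .negSucc 517199, .negSucc 182879])]

/-- data -/
def lV3x1 : List (ℕ × List ℤ) := [(21648220, [.ofNat 0, .ofNat 26015040, .negSucc 87702959, .ofNat 94104000, .negSucc 36515759, .ofNat 6035040]),
  (21648227, [.ofNat 0, .ofNat 116966880, .negSucc 222991559, .ofNat 181905120, .negSucc 61506119, .ofNat 9174480]),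
  (21648995, [.ofNat 0, .negSucc 87062399, .ofNat 248033760, .negSucc 243482879, .ofNat 90515040, .negSucc 14508479]),
  (21649101, [.ofNat 0, .ofNat 75533760, .negSucc 147454799, .ofNat 126745920, .negSucc 43793999, .ofNat 6644640]),
  (21649163, [.ofNat 0, .ofNat 58348800, .negSucc 113398079, .ofNat 92279040, .negSucc 31195199, .ofNat 4632960]),
  (21650124, [.ofNat 0, .negSucc 4929119, .ofNat 57366120, .negSucc 72547679, .ofNat 31046760, .negSucc 5638799]),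
  (21665579, [.ofNat 0, .negSucc 56774879, .ofNat 60995400, .negSucc 28545119, .ofNat 5192520, .negSucc 396239]),
  (21665628, [.ofNat 0, .negSucc 42125759, .ofNat 160517520, .negSucc 175172159, .ofNat 68161680, .negSucc 11277599]),
  (21665635, [.ofNat 0, .negSucc 43644959, .ofNat 63099000, .negSucc 46812959, .ofNat 14192760, .negSucc 2042159]),
  (21666524, [.ofNat 0, .negSucc 4031999, .negSucc 20812799, .ofNat 29020800, .negSucc 12691199, .ofNat 2194560]),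
  (21672733, [.ofNat 0, .negSucc 1059839, .ofNat 19215360, .negSucc 24516479, .ofNat 10087680, .negSucc 1706879]),
  (21672747, [.ofNat 0, .negSucc 26622719, .ofNat 88046400, .negSucc 94513919, .ofNat 36352320, .negSucc 6095999]),
  (21672803, [.ofNat 0, .negSucc 59251679, .ofNat 82279560, .negSucc 54253919, .ofNat 15889800, .negSucc 2103119]),
  (21674251, [.ofNat 0, .negSucc 25315199, .ofNat 68286240, .negSucc 66915839, .ofNat 24383520, .negSucc 3779519]),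
  (21674588, [.ofNat 0, .negSucc 2185919, .negSucc 39491759, .ofNat 58182720, .negSucc 24538799, .ofNat 4328160]),
  (21677661, [.ofNat 0, .ofNat 144796320, .negSucc 268285079, .ofNat 214943520, .negSucc 71525399, .ofNat 10454640]),
  (21677675, [.ofNat 0, .negSucc 87383519, .ofNat 189906120, .negSucc 165798239, .ofNat 58238280, .negSucc 8930639]),
  (21677773, [.ofNat 0, .negSucc 25706879, .ofNat 68608800, .negSucc 66915839, .ofNat 24383520, .negSucc 3779519]),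
  (21678684, [.ofNat 0, .ofNat 25015680, .ofNat 60860640, .negSucc 104904959, .ofNat 47489760, .negSucc 8412479]),
  (21681763, [.ofNat 0, .negSucc 5091839, .ofNat 6416640, .negSucc 3164159, .ofNat 487680]),
  (21681931, [.ofNat 0, .negSucc 114498719, .ofNat 144641880, .negSucc 74117279, .ofNat 16170840, .negSucc 944879]),
  (21682380, [.ofNat 0, .negSucc 15586559, .ofNat 20011200, .negSucc 11756159, .ofNat 3456960, .negSucc 487679]),
  (21801196, [.ofNat 0, .ofNat 3847680, .negSucc 4475519, .ofNat 1777920, .negSucc 243839]),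
  (21801308, [.ofNat 0, .ofNat 3847680, .negSucc 4475519, .ofNat 1777920, .negSucc 243839]),
  (21801820, [.ofNat 0, .ofNat 2548800, .negSucc 4026479, .ofNat 3723840, .negSucc 1311599, .ofNat 182880]),
  (21805228, [.ofNat 0, .ofNat 15442560, .negSucc 19590239, .ofNat 9189120, .negSucc 2052959, .ofNat 121920]),
  (21805333, [.ofNat 0, .negSucc 40642559, .ofNat 45762240, .negSucc 19973759, .ofNat 3291840]),
  (21805396, [.ofNat 0, .ofNat 15442560, .negSucc 19590239, .ofNat 9189120, .negSucc 2052959, .ofNat 121920]),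
  (21808483, [.ofNat 0, .ofNat 89929440, .negSucc 199779239, .ofNat 184113120, .negSucc 65198759, .ofNat 10271760]),
  (21808917, [.ofNat 0, .negSucc 59495039, .ofNat 97654560, .negSucc 69805439, .ofNat 22428960, .negSucc 3047999]),
  (21808994, [.ofNat 0, .ofNat 22896000, .negSucc 57405599, .ofNat 53320320, .negSucc 19259039, .ofNat 3048000]),
  (21809386, [.ofNat 0, .negSucc 27164159, .ofNat 61714560, .negSucc 56004479, .ofNat 20092800, .negSucc 3169919]),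
  (21809820, [.ofNat 0, .negSucc 5872319, .ofNat 24155280, .negSucc 26750399, .ofNat 10565520, .negSucc 1767839]),
  (21809827, [.ofNat 0, .ofNat 89929440, .negSucc 199779239, .ofNat 184113120, .negSucc 65198759, .ofNat 10271760]),
  (21809829, [.ofNat 0, .ofNat 15350400, .negSucc 18987359, .ofNat 9423360, .negSucc 2052959, .ofNat 121920]),
  (21810012, [.ofNat 0, .ofNat 14515200, .negSucc 48049919, .ofNat 50378880, .negSucc 19361279, .ofNat 3169920]),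
  (21812523, [.ofNat 0, .negSucc 55627199, .ofNat 169290000, .negSucc 170890559, .ofNat 64173840, .negSucc 10302239]),
  (21813419, [.ofNat 0, .negSucc 8674559, .ofNat 48295680, .negSucc 55693439, .ofNat 21964800, .negSucc 3657599]),
  (21813602, [.ofNat 0, .negSucc 39519359, .ofNat 76414560, .negSucc 63116159, .ofNat 21901920, .negSucc 3291839]),
  (21813986, [.ofNat 0, .ofNat 17052480, .negSucc 94366319, .ofNat 110126400, .negSucc 44265839, .ofNat 7498080]),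
  (21830492, [.ofNat 0, .negSucc 116966879, .ofNat 222991560, .negSucc 181905119, .ofNat 61506120, .negSucc 9174479]),
  (21838605, [.ofNat 0, .negSucc 39519359, .ofNat 76414560, .negSucc 63116159, .ofNat 21901920, .negSucc 3291839]),
  (21842027, [.ofNat 0, .negSucc 22487039, .ofNat 40389120, .negSucc 32273279, .ofNat 11063040, .negSucc 1706879]),
  (21842701, [.ofNat 0, .ofNat 21957120, .negSucc 79731839, .ofNat 85263360, .negSucc 33037439, .ofNat 5364480]),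
  (21846109, [.ofNat 0, .ofNat 43951680, .negSucc 128492399, .ofNat 127761600, .negSucc 48005999, .ofNat 7741920]),
  (21846627, [.ofNat 0, .ofNat 25015680, .ofNat 60860640, .negSucc 104904959, .ofNat 47489760, .negSucc 8412479]),
  (21862698, [.ofNat 0, .ofNat 20816640, .negSucc 61437119, .ofNat 60973440, .negSucc 23632319, .ofNat 3901440]),
  (21873429, [.ofNat 0, .ofNat 1042560, .ofNat 11523360, .negSucc 17882879, .ofNat 7464480, .negSucc 1341119]),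
  (21873492, [.ofNat 0, .negSucc 27518399, .ofNat 6245520, .ofNat 21721920, .negSucc 12378479, .ofNat 2621280]),
  (21874794, [.ofNat 0, .negSucc 3064319, .ofNat 3830400, .negSucc 1294079, .ofNat 243840]),
  (21877420, [.ofNat 0, .negSucc 2848319, .ofNat 35927760, .negSucc 46727999, .ofNat 18588240, .negSucc 3230879]),
  (21877525, [.ofNat 0, .negSucc 91543679, .ofNat 164064480, .negSucc 130504319, .ofNat 43131360, .negSucc 6217919]),
  (21879053, [.ofNat 0, .negSucc 4929119, .ofNat 57366120, .negSucc 72547679, .ofNat 31046760, .negSucc 5638799]),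
  (21879114, [.ofNat 0, .ofNat 14929920, .negSucc 48211199, .ofNat 50632320, .negSucc 19361279, .ofNat 3169920]),
  (21894828, [.ofNat 0, .ofNat 5872320, .negSucc 24155279, .ofNat 26750400, .negSucc 10565519, .ofNat 1767840]),
  (21894933, [.ofNat 0, .negSucc 60788159, .ofNat 95634960, .negSucc 66655679, .ofNat 20893200, .negSucc 2743199]),
  (21895010, [.ofNat 0, .ofNat 5865120, .negSucc 35600279, .ofNat 38672160, .negSucc 15263639, .ofNat 2407920]),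
  (21895852, [.ofNat 0, .negSucc 26398079, .ofNat 121965600, .negSucc 138140159, .ofNat 54485280, .negSucc 9143999]),
  (21895906, [.ofNat 0, .ofNat 69563520, .negSucc 175055519, .ofNat 167303040, .negSucc 62048159, .ofNat 9875520]),
  (21900043, [.ofNat 0, .ofNat 60907680, .negSucc 161089079, .ofNat 162183840, .negSucc 59332919, .ofNat 9601200]),
  (21900061, [.ofNat 0, .negSucc 19367999, .ofNat 60470640, .negSucc 62635199, .ofNat 23764080, .negSucc 3840479]),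
  (21900107, [.ofNat 0, .negSucc 4746239, .ofNat 4252800, .negSucc 2058239, .ofNat 243840]),
  (21900108, [.ofNat 0, .ofNat 2185920, .ofNat 39491760, .negSucc 58182719, .ofNat 24538800, .negSucc 4328159]),
  (21900124, [.ofNat 0, .negSucc 2548799, .ofNat 4026480, .negSucc 3723839, .ofNat 1311600, .negSucc 182879]),
  (21904138, [.ofNat 0, .negSucc 15200639, .ofNat 126338400, .negSucc 156698879, .ofNat 63231840, .negSucc 10850879]),
  (21906091, [.ofNat 0, .negSucc 133783199, .ofNat 273738360, .negSucc 237422879, .ofNat 81903480, .negSucc 12527279]),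
  (21906259, [.ofNat 0, .negSucc 99784799, .ofNat 254512680, .negSucc 242980319, .ofNat 88937640, .negSucc 14173199]),
  (21906266, [.ofNat 0, .negSucc 783359, .ofNat 645120]),
  (21910187, [.ofNat 0, .ofNat 46952640, .negSucc 120994319, .ofNat 115197120, .negSucc 42209039, .ofNat 6644640]),
  (21910252, [.ofNat 0, .negSucc 36503999, .ofNat 106022160, .negSucc 106401599, .ofNat 39931920, .negSucc 6400799]),
  (21910795, [.ofNat 0, .ofNat 105258240, .negSucc 249716639, .ofNat 232264320, .negSucc 83329439, .ofNat 13045440]),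
  (21910813, [.ofNat 0, .negSucc 19367999, .ofNat 60470640, .negSucc 62635199, .ofNat 23764080, .negSucc 3840479]),
  (21911148, [.ofNat 0, .ofNat 10448640, .negSucc 14972159, .ofNat 8795520, .negSucc 2277119, .ofNat 243840]),
  (21911306, [.ofNat 0, .ofNat 24926400, .negSucc 30165839, .ofNat 13575360, .negSucc 2306639, .ofNat 60960]),
  (21912156, [.ofNat 0, .ofNat 27164160, .negSucc 61714559, .ofNat 56004480, .negSucc 20092799, .ofNat 3169920]),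
  (21912227, [.ofNat 0, .negSucc 130934879, .ofNat 237810600, .negSucc 190694879, .ofNat 63315240, .negSucc 9296399]),
  (21928099, [.ofNat 0, .ofNat 43951680, .negSucc 128492399, .ofNat 127761600, .negSucc 48005999, .ofNat 7741920]),
  (21928162, [.ofNat 0, .negSucc 4423679, .negSucc 330239, .ofNat 5333760, .negSucc 2603519, .ofNat 487680]),
  (21928211, [.ofNat 0, .negSucc 98724959, .ofNat 235297320, .negSucc 218463839, .ofNat 78849960, .negSucc 12466319]),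
  (21928290, [.ofNat 0, .ofNat 30735360, .negSucc 35117759, .ofNat 16834560, .negSucc 3618239, .ofNat 243840]),
  (21930725, [.ofNat 0, .negSucc 20689919, .ofNat 59614080, .negSucc 60335999, .ofNat 22696320, .negSucc 3657599]),
  (21930732, [.ofNat 0, .ofNat 30875040, .negSucc 41671319, .ofNat 26019360, .negSucc 7238039, .ofNat 944880]),
  (21930844, [.ofNat 0, .negSucc 32267519, .ofNat 26726880, .ofNat 389760, .negSucc 3968159, .ofNat 1097280]),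
  (21932237, [.ofNat 0, .negSucc 29021759, .ofNat 38690160, .negSucc 21929279, .ofNat 5865840, .negSucc 670559]),
  (21932364, [.ofNat 0, .negSucc 6966719, .ofNat 25026000, .negSucc 27382079, .ofNat 10687440, .negSucc 1767839]),
  (21936212, [.ofNat 0, .ofNat 43269120, .negSucc 132549119, .ofNat 134872320, .negSucc 51087359, .ofNat 8290560]),
  (21936268, [.ofNat 0, .ofNat 43269120, .negSucc 132549119, .ofNat 134872320, .negSucc 51087359, .ofNat 8290560]),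
  (21938859, [.ofNat 0, .negSucc 45069119, .ofNat 86195280, .negSucc 68279999, .ofNat 23213520, .negSucc 3474719]),
  (21938914, [.ofNat 0, .negSucc 61381439, .ofNat 110432880, .negSucc 84728639, .ofNat 27991920, .negSucc 4084319]),
  (21939405, [.ofNat 0, .ofNat 35095680, .negSucc 76744799, .ofNat 68449920, .negSucc 24505439, .ofNat 3779520]),
  (21939531, [.ofNat 0, .negSucc 88650719, .ofNat 221831880, .negSucc 212008799, .ofNat 77925960, .negSucc 12344399]),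
  (21939813, [.ofNat 0, .negSucc 20689919, .ofNat 59614080, .negSucc 60335999, .ofNat 22696320, .negSucc 3657599]),
  (21939978, [.ofNat 0, .ofNat 40127040, .negSucc 156504239, .ofNat 170274240, .negSucc 65538479, .ofNat 10911840]),
  (21943388, [.ofNat 0, .ofNat 2548800, .negSucc 4026479, .ofNat 3723840, .negSucc 1311599, .ofNat 182880]),
  (21944412, [.ofNat 0, .ofNat 84229920, .negSucc 183485879, .ofNat 168441120, .negSucc 60521399, .ofNat 9601200]),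
  (22063901, [.ofNat 0, .ofNat 15350400, .negSucc 18987359, .ofNat 9423360, .negSucc 2052959, .ofNat 121920]),
  (22066860, [.ofNat 0, .ofNat 10008000, .negSucc 8309519, .ofNat 1686720, .ofNat 580080, .negSucc 182879]),
  (22067546, [.ofNat 0, .negSucc 9463679, .ofNat 14337120, .negSucc 9479039, .ofNat 2867040, .negSucc 365759]),
  (22070997, [.ofNat 0, .ofNat 3591360, .ofNat 7496880, .negSucc 14159039, .ofNat 6152880, .negSucc 1158239]),
  (22075045, [.ofNat 0, .negSucc 15119999, .ofNat 69561120, .negSucc 78850559, .ofNat 31218720, .negSucc 5242559])]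

/-- data -/
def lV3x2 : List (ℕ × List ℤ) := [(22075093, [.ofNat 0, .negSucc 77028479, .ofNat 116014560, .negSucc 80125439, .ofNat 23770080, .negSucc 3047999]),
  (22075178, [.ofNat 0, .ofNat 37707840, .negSucc 54393839, .ofNat 32053440, .negSucc 8386799, .ofNat 914400]),
  (22098731, [.ofNat 0, .negSucc 34467839, .ofNat 98310720, .negSucc 98853119, .ofNat 37542720, .negSucc 6095999]),
  (22098780, [.ofNat 0, .ofNat 2465280, .negSucc 16544639, .ofNat 22112640, .negSucc 9356159, .ofNat 1706880]),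
  (22100299, [.ofNat 0, .negSucc 26398079, .ofNat 121965600, .negSucc 138140159, .ofNat 54485280, .negSucc 9143999]),
  (22100572, [.ofNat 0, .ofNat 2465280, .negSucc 16544639, .ofNat 22112640, .negSucc 9356159, .ofNat 1706880]),
  (22100579, [.ofNat 0, .negSucc 46163519, .ofNat 128327280, .negSucc 125094719, .ofNat 46704240, .negSucc 7498079]),
  (22124757, [.ofNat 0, .negSucc 60788159, .ofNat 95634960, .negSucc 66655679, .ofNat 20893200, .negSucc 2743199]),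
  (22124890, [.ofNat 0, .negSucc 15795359, .negSucc 31824359, .ofNat 60075360, .negSucc 26822759, .ofNat 4907280]),
  (22125282, [.ofNat 0, .negSucc 10719359, .ofNat 13866720, .negSucc 7645439, .ofNat 1809120, .negSucc 121919]),
  (22129259, [.ofNat 0, .negSucc 35095679, .ofNat 76744800, .negSucc 68449919, .ofNat 24505440, .negSucc 3779519]),
  (22129483, [.ofNat 0, .negSucc 4746239, .ofNat 4252800, .negSucc 2058239, .ofNat 243840]),
  (22133349, [.ofNat 0, .negSucc 48823199, .ofNat 89280600, .negSucc 67552799, .ofNat 21381720, .negSucc 2651759]),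
  (22135509, [.ofNat 0, .negSucc 59495039, .ofNat 97654560, .negSucc 69805439, .ofNat 22428960, .negSucc 3047999]),
  (22135635, [.ofNat 0, .negSucc 1661759, .ofNat 18984240, .negSucc 25472639, .ofNat 10399920, .negSucc 1645919]),
  (22135642, [.ofNat 0, .negSucc 39519359, .ofNat 76414560, .negSucc 63116159, .ofNat 21901920, .negSucc 3291839]),
  (22139618, [.ofNat 0, .negSucc 10719359, .ofNat 13866720, .negSucc 7645439, .ofNat 1809120, .negSucc 121919]),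
  (22139690, [.ofNat 0, .ofNat 44674560, .negSucc 79419839, .ofNat 59435520, .negSucc 19074239, .ofNat 2682240]),
  (22140011, [.ofNat 0, .negSucc 63452159, .ofNat 129980640, .negSucc 108781439, .ofNat 37845600, .negSucc 5730239]),
  (22141267, [.ofNat 0, .ofNat 766080, .negSucc 100680479, .ofNat 120026880, .negSucc 44662559, .ofNat 7193280]),
  (22141530, [.ofNat 0, .negSucc 17634239, .negSucc 68152559, .ofNat 110980800, .negSucc 48580079, .ofNat 8717280]),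
  (22158037, [.ofNat 0, .negSucc 64126079, .ofNat 110645280, .negSucc 85079039, .ofNat 27797280, .negSucc 3779519]),
  (22158170, [.ofNat 0, .ofNat 27184320, .negSucc 110096399, .ofNat 123428160, .negSucc 48230159, .ofNat 7863840]),
  (22164181, [.ofNat 0, .negSucc 40642559, .ofNat 45762240, .negSucc 19973759, .ofNat 3291840]),
  (22166106, [.ofNat 0, .ofNat 41745600, .negSucc 89862479, .ofNat 77640000, .negSucc 27362639, .ofNat 4206240]),
  (22189725, [.ofNat 0, .negSucc 4360319, .ofNat 41627040, .negSucc 51615359, .ofNat 20887200, .negSucc 3535679]),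
  (22190237, [.ofNat 0, .ofNat 15120000, .negSucc 69561119, .ofNat 78850560, .negSucc 31218719, .ofNat 5242560]),
  (22190419, [.ofNat 0, .negSucc 43087679, .ofNat 32272560, .negSucc 350399, .negSucc 4426319, .ofNat 1280160]),
  (22193771, [.ofNat 0, .negSucc 19153439, .ofNat 65428920, .negSucc 69718559, .ofNat 26769720, .negSucc 4480559]),
  (22196893, [.ofNat 0, .ofNat 45069120, .negSucc 86195279, .ofNat 68280000, .negSucc 23213519, .ofNat 3474720]),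
  (22197579, [.ofNat 0, .negSucc 41698079, .ofNat 100837560, .negSucc 96811679, .ofNat 35716920, .negSucc 5699759]),
  (22197845, [.ofNat 0, .ofNat 36587520, .negSucc 56017919, .ofNat 39377280, .negSucc 12038399, .ofNat 1706880]),
  (22198362, [.ofNat 0, .ofNat 36123840, .negSucc 70793039, .ofNat 58342080, .negSucc 19878479, .ofNat 2987040]),
  (22202069, [.ofNat 0, .ofNat 23927040, .negSucc 13742399, .negSucc 7562879, .ofNat 6225600, .negSucc 1463039]),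
  (22324972, [.ofNat 0, .negSucc 130934879, .ofNat 237810600, .negSucc 190694879, .ofNat 63315240, .negSucc 9296399]),
  (22329501, [.ofNat 0, .ofNat 39660480, .negSucc 90215759, .ofNat 80107200, .negSucc 28664399, .ofNat 4450080]),
  (22329580, [.ofNat 0, .negSucc 35095679, .ofNat 76744800, .negSucc 68449919, .ofNat 24505440, .negSucc 3779519]),
  (22333203, [.ofNat 0, .negSucc 1661759, .ofNat 18984240, .negSucc 25472639, .ofNat 10399920, .negSucc 1645919]),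
  (22333597, [.ofNat 0, .ofNat 11445120, .negSucc 11837279, .ofNat 3953280, .negSucc 263519, .negSucc 121919]),
  (22334227, [.ofNat 0, .ofNat 766080, .negSucc 100680479, .ofNat 120026880, .negSucc 44662559, .ofNat 7193280]),
  (22337811, [.ofNat 0, .ofNat 2848320, .negSucc 35927759, .ofNat 46728000, .negSucc 18588239, .ofNat 3230880]),
  (22361701, [.ofNat 0, .ofNat 66206880, .negSucc 180700439, .ofNat 176005920, .negSucc 65429399, .ofNat 10454640]),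
  (22362219, [.ofNat 0, .negSucc 46163519, .ofNat 125648880, .negSucc 121751999, .ofNat 45262320, .negSucc 7254239]),
  (22365932, [.ofNat 0, .negSucc 44311679, .ofNat 121025760, .negSucc 116989439, .ofNat 43622880, .negSucc 6949439]),
  (22385900, [.ofNat 0, .negSucc 30875039, .ofNat 41671320, .negSucc 26019359, .ofNat 7238040, .negSucc 944879]),
  (22389596, [.ofNat 0, .negSucc 32267519, .ofNat 26726880, .ofNat 389760, .negSucc 3968159, .ofNat 1097280]),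
  (22390373, [.ofNat 0, .ofNat 0, .negSucc 2678399, .ofNat 3342720, .negSucc 1441919, .ofNat 243840]),
  (22391053, [.ofNat 0, .ofNat 9884160, .negSucc 74398079, .ofNat 89258880, .negSucc 36201599, .ofNat 6096000]),
  (22394125, [.ofNat 0, .negSucc 126393119, .ofNat 336683640, .negSucc 326564639, .ofNat 121173240, .negSucc 19354799]),
  (22397597, [.ofNat 0, .negSucc 63452159, .ofNat 129980640, .negSucc 108781439, .ofNat 37845600, .negSucc 5730239]),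
  (22420243, [.ofNat 0, .negSucc 43087679, .ofNat 32272560, .negSucc 350399, .negSucc 4426319, .ofNat 1280160])]

/-- the sum of the part -/
def lV3 : List (ℕ × List ℤ) := lV3x0 ++ (lV3x1 ++ (lV3x2))

theorem okV3 : dV3.all (rok tbF 20) = true := by decide +kernel

theorem sumV3 : aeq (fz (sumT tbF dV3)) lV3 = true := by decide +kernel

end Pool.Agent.H.MP_e16c79_al.IS
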