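import Pool.Agent.H.MP_e16c79_al.IS.BTabE

/-!
# MP_e16c79_al: certificate V, part 4
-/

set_option autoImplicit false

namespace Pool.Agent.H.MP_e16c79_al.IS

/-- data -/
def dV4x0 : RT := (.nd (.nd (.nd (.lf ⟨[.ofNat 0, .ofNat 25747200, .negSucc 61393919, .ofNat 57304320, .negSucc 21150719, .ofNat 3413760], (.tr (.lf 5) (.dx 0 (.tr (.lf 9) (.lf 10) (.lf 19))) (.tr (.lf 13) (.lf 6) (.lf 14))), 0, [19, 19, 19, 19], []⟩)
    (.lf ⟨[.ofNat 0, .ofNat 3525120, .ofNat 8000640, .negSucc 13323839, .ofNat 6101760, .negSucc 1097279], (.tr (.lf 13) (.dx 0 (.tr (.lf 9) (.lf 10) (.lf 19))) (.tr (.lf 5) (.lf 14) (.lf 6))), 0, [25, 25, 25, 25], []⟩))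
    (.nd (.lf ⟨[.ofNat 0, .ofNat 24827760, .negSucc 46506659, .ofNat 38410800, .negSucc 12927779, .ofNat 1905000], (.tw (.lf 13) (.tr (.lf 5) (.tw (.dx 0 (.tr (.lf 9) (.lf 10) (.lf 19))) (.lf 14)) (.lf 6))), 0, [25, 25, 18, 18, 25, 25, 18, 18], []⟩)
    (.lf ⟨[.ofNat 0, .ofNat 1810080, .negSucc 5905079, .ofNat 6200640, .negSucc 2404919, .ofNat 396240], (.tr (.dx 0 (.tr (.lf 5) (.tw (.lf 9) (.lf 10)) (.lf 19))) (.lf 6) (.tw (.lf 13) (.lf 14))), 0, [19, 19, 19, 19, 19, 19, 19, 19], []⟩)))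
    (.nd (.nd (.lf ⟨[.ofNat 0, .ofNat 6791040, .negSucc 15428639, .ofNat 14001120, .negSucc 5023199, .ofNat 792480], (.tr (.dx 0 (.tr (.lf 9) (.tw (.lf 5) (.lf 19)) (.lf 10))) (.tw (.lf 13) (.lf 14)) (.lf 6)), 0, [25, 25, 25, 25, 25, 25, 25, 25], []⟩)
    (.lf ⟨[.ofNat 0, .ofNat 8768880, .negSucc 14553539, .ofNat 11030160, .negSucc 3515459, .ofNat 502920], (.tr (.lf 6) (.dx 0 (.tr (.lf 5) (.tw (.lf 9) (.lf 10)) (.lf 19))) (.tw (.lf 13) (.lf 14))), 0, [23, 23, 23, 23, 23, 23, 23, 23], []⟩))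
    (.nd (.lf ⟨[.ofNat 0, .ofNat 2471040, .negSucc 18599519, .ofNat 22314720, .negSucc 9050399, .ofNat 1524000], (.tr (.dx 0 (.tr (.lf 9) (.lf 19) (.tw (.lf 13) (.lf 14)))) (.lf 10) (.tw (.lf 5) (.lf 6))), 0, [9, 9, 9, 9, 9, 9, 9, 9], []⟩)
    (.lf ⟨[.ofNat 0, .negSucc 18859679, .ofNat 54495960, .negSucc 54288479, .ofNat 20321880, .negSucc 3261359], (.tr (.lf 6) (.dx 0 (.tr (.tw (.lf 5) (.lf 9)) (.lf 10) (.lf 19))) (.tw (.lf 13) (.lf 14))), 0, [23, 23, 23, 23, 23, 23, 23, 23], []⟩))))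

/-- data -/
def dV4x1 : RT := (.nd (.nd (.nd (.lf ⟨[.ofNat 0, .ofNat 679680, .ofNat 2080320, .negSucc 3313919, .ofNat 1423680, .negSucc 243839], (.tr (.dx 0 (.tr (.lf 5) (.lf 19) (.lf 13))) (.tr (.lf 9) (.lf 14) (.lf 10)) (.lf 6)), 0, [9, 9, 9, 9], []⟩)
    (.lf ⟨[.ofNat 0, .ofNat 312480, .negSucc 19191479, .ofNat 25445280, .negSucc 10499639, .ofNat 1798320], (.tr (.lf 6) (.tr (.lf 9) (.dx 0 (.tr (.lf 13) (.lf 5) (.lf 19))) (.lf 10)) (.lf 14)), 0, [37, 37, 37, 37], []⟩))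
    (.nd (.lf ⟨[.ofNat 0, .negSucc 2935439, .negSucc 787139, .ofNat 3886800, .negSucc 2011139, .ofNat 381000], (.tr (.dx 0 (.tr (.lf 13) (.tw (.lf 5) (.lf 6)) (.lf 19))) (.tw (.lf 9) (.lf 10)) (.lf 14)), 0, [37, 37, 37, 37, 37, 37, 37, 37], []⟩)
    (.lf ⟨[.ofNat 0, .ofNat 5870880, .ofNat 1574280, .negSucc 7773599, .ofNat 4022280, .negSucc 761999], (.tr (.dx 0 (.tr (.tw (.lf 5) (.lf 13)) (.lf 6) (.lf 19))) (.tw (.lf 9) (.lf 10)) (.lf 14)), 0, [37, 37, 37, 37, 37, 37, 37, 37], []⟩)))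
    (.nd (.nd (.lf ⟨[.ofNat 0, .ofNat 6791040, .negSucc 15428639, .ofNat 14001120, .negSucc 5023199, .ofNat 792480], (.tr (.dx 0 (.tr (.tw (.lf 5) (.lf 6)) (.lf 13) (.lf 19))) (.lf 14) (.tw (.lf 9) (.lf 10))), 0, [7, 7, 7, 7, 7, 7, 7, 7], []⟩)
    (.lf ⟨[.ofNat 0, .ofNat 9911520, .negSucc 10365239, .ofNat 3961440, .negSucc 492599, .negSucc 30479], (.tr (.tw (.lf 9) (.lf 10)) (.dx 0 (.tr (.tw (.lf 5) (.lf 6)) (.lf 13) (.lf 19))) (.lf 14)), 0, [12, 12, 12, 12, 12, 12, 12, 12], []⟩))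
    (.nd (.lf ⟨[.ofNat 0, .negSucc 19823039, .ofNat 20730480, .negSucc 7922879, .ofNat 985200, .ofNat 60960], (.tr (.tw (.lf 9) (.lf 10)) (.dx 0 (.tr (.lf 5) (.tw (.lf 6) (.lf 13)) (.lf 19))) (.lf 14)), 0, [12, 12, 12, 12, 12, 12, 12, 12], []⟩)
    (.lf ⟨[.ofNat 0, .negSucc 335519, .negSucc 2268839, .ofNat 3416160, .negSucc 1479719, .ofNat 274320], (.tr (.lf 10) (.dx 0 (.tr (.lf 9) (.lf 19) (.lf 13))) (.tr (.lf 5) (.lf 14) (.lf 6))), 0, [25, 25, 25, 25], []⟩))))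

/-- data -/
def dV4x2 : RT := (.nd (.nd (.nd (.lf ⟨[.ofNat 0, .negSucc 679679, .ofNat 7757760, .negSucc 10302719, .ofNat 4271040, .negSucc 731519], (.tr (.lf 10) (.lf 14) (.tr (.lf 5) (.dx 0 (.tr (.lf 9) (.lf 19) (.lf 13))) (.lf 6))), 0, [33, 33, 33, 33], []⟩)
    (.lf ⟨[.ofNat 0, .ofNat 34539840, .negSucc 126610319, .ofNat 137064000, .negSucc 53738639, .ofNat 8839200], (.tr (.dx 0 (.tr (.lf 13) (.lf 19) (.tr (.lf 5) (.lf 9) (.lf 6)))) (.lf 10) (.lf 14)), 0, [37, 37, 0, 0], []⟩))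
    (.nd (.lf ⟨[.ofNat 0, .negSucc 33678719, .ofNat 88516960, .negSucc 89222079, .ofNat 30321760, .negSucc 4937759], (.tr (.dx 0 (.tr (.lf 13) (.tr (.lf 5) (.lf 9) (.lf 6)) (.lf 19))) (.lf 14) (.lf 10)), 0, [10, 10, 7, 7], []⟩)
    (.lf ⟨[.ofNat 0, .ofNat 30816000, .negSucc 61700399, .ofNat 51676800, .negSucc 17900399, .ofNat 2743200], (.tr (.lf 6) (.dx 0 (.tr (.lf 13) (.lf 19) (.tr (.lf 9) (.lf 5) (.lf 10)))) (.lf 14)), 0, [23, 23, 23, 23], []⟩)))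
    (.nd (.nd (.lf ⟨[.ofNat 0, .ofNat 22534560, .negSucc 43097639, .ofNat 34140000, .negSucc 11606759, .ofNat 1737360], (.tr (.lf 10) (.dx 0 (.tr (.lf 13) (.lf 19) (.tr (.lf 5) (.lf 9) (.lf 6)))) (.lf 14)), 0, [12, 12, 23, 23], []⟩)
    (.lf ⟨[.ofNat 0, .ofNat 335520, .ofNat 1122600, .negSucc 1988639, .ofNat 684840, .negSucc 152399], (.tr (.dx 0 (.tr (.lf 5) (.tr (.lf 9) (.lf 13) (.lf 10)) (.lf 19))) (.lf 6) (.lf 14)), 0, [0, 0, 30, 30], []⟩))
    (.nd (.lf ⟨[.ofNat 0, .ofNat 23780160, .negSucc 65428559, .ofNat 65363520, .negSucc 24567119, .ofNat 3962400], (.tr (.dx 0 (.tr (.lf 13) (.lf 19) (.tr (.lf 9) (.lf 5) (.lf 10)))) (.lf 6) (.lf 14)), 0, [10, 10, 20, 20], []⟩)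
    (.lf ⟨[.ofNat 0, .negSucc 23721119, .ofNat 106248600, .negSucc 120347999, .ofNat 47371800, .negSucc 7894319], (.tr (.dx 0 (.tr (.lf 13) (.tr (.lf 9) (.lf 5) (.lf 10)) (.lf 19))) (.lf 6) (.lf 14)), 0, [19, 19, 30, 30], []⟩))))

/-- data -/
def dV4x3 : RT := (.nd (.nd (.nd (.lf ⟨[.ofNat 0, .ofNat 115860960, .negSucc 324776039, .ofNat 317242320, .negSucc 111927239, .ofNat 17678400], (.tr (.dx 0 (.tr (.lf 5) (.lf 19) (.tr (.lf 9) (.lf 13) (.lf 10)))) (.lf 14) (.lf 6)), 0, [25, 25, 25, 25], []⟩)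
    (.lf ⟨[.ofNat 0, .ofNat 12575520, .negSucc 94791639, .ofNat 112454560, .negSucc 44616279, .ofNat 7528560], (.tr (.dx 0 (.tr (.lf 5) (.tr (.lf 9) (.lf 13) (.lf 10)) (.lf 19))) (.lf 14) (.lf 6)), 0, [0, 0, 25, 25], []⟩))
    (.nd (.lf ⟨[.ofNat 0, .ofNat 7832160, .negSucc 23629319, .ofNat 24156960, .negSucc 9146759, .ofNat 1493520], (.tr (.dx 0 (.tr (.lf 19) (.lf 13) (.tr (.lf 9) (.lf 5) (.lf 10)))) (.lf 14) (.lf 6)), 0, [25, 25, 25, 25], []⟩)
    (.lf ⟨[.ofNat 0, .ofNat 55785600, .negSucc 153712319, .ofNat 152784480, .negSucc 57530879, .ofNat 9326880], (.tr (.lf 6) (.dx 0 (.tr (.lf 19) (.lf 13) (.tr (.lf 9) (.lf 5) (.lf 10)))) (.lf 14)), 0, [32, 32, 23, 23], []⟩)))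
    (.nd (.nd (.lf ⟨[.ofNat 0, .negSucc 574559, .negSucc 395639, .ofNat 1032480, .negSucc 533879, .ofNat 91440], (.tw (.lf 9) (.tr (.dx 0 (.tw (.lf 13) (.lf 19))) (.tr (.lf 5) (.lf 10) (.lf 6)) (.lf 14))), 0, [12, 12, 19, 19, 31, 11, 31, 11], []⟩)
    (.lf ⟨[.ofNat 0, .ofNat 1105920, .ofNat 82560, .negSucc 1333439, .ofNat 650880, .negSucc 121919], (.tr (.dx 0 (.tw (.lf 13) (.lf 19))) (.lf 5) (.tr (.lf 9) (.tw (.lf 6) (.lf 14)) (.lf 10))), 0, [10, 10, 10, 10, 30, 30, 30, 30], []⟩))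
    (.nd (.lf ⟨[.ofNat 0, .negSucc 38779919, .ofNat 121900860, .negSucc 123354959, .ofNat 46275900, .negSucc 7482839], (.tr (.lf 14) (.lf 5) (.tr (.lf 9) (.tw (.dx 0 (.tw (.lf 13) (.lf 19))) (.lf 6)) (.lf 10))), 0, [35, 35, 18, 13, 35, 35, 18, 13], []⟩)
    (.lf ⟨[.ofNat 0, .ofNat 63044640, .negSucc 195751799, .ofNat 196331040, .negSucc 73190519, .ofNat 11795760], (.tr (.dx 0 (.tr (.lf 13) (.lf 5) (.tr (.lf 6) (.lf 9) (.lf 19)))) (.lf 14) (.lf 10)), 0, [10, 10, 0, 7], []⟩))))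

/-- data -/
def dV4x4 : RT := (.nd (.nd (.nd (.lf ⟨[.ofNat 0, .negSucc 7143839, .ofNat 14955480, .negSucc 17275679, .ofNat 7375320, .negSucc 1188719], (.tr (.dx 0 (.tr (.lf 5) (.lf 19) (.tr (.lf 9) (.lf 6) (.lf 13)))) (.lf 14) (.lf 10)), 0, [7, 7, 7, 10], []⟩)
    (.lf ⟨[.ofNat 0, .ofNat 16341120, .negSucc 14342879, .ofNat 3048960, .ofNat 794400, .negSucc 365759], (.tr (.dx 0 (.tr (.lf 13) (.tr (.lf 5) (.lf 6) (.lf 9)) (.lf 19))) (.lf 14) (.lf 10)), 0, [10, 7, 7, 7], []⟩))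
    (.nd (.lf ⟨[.ofNat 0, .negSucc 28539359, .ofNat 99630840, .negSucc 99457439, .ofNat 37389240, .negSucc 5943599], (.tr (.dx 0 (.tw (.lf 13) (.tr (.tw (.lf 5) (.lf 6)) (.lf 9) (.lf 19)))) (.lf 14) (.lf 10)), 0, [10, 10, 10, 10, 0, 0, 7, 7], []⟩)
    (.lf ⟨[.ofNat 0, .negSucc 28532879, .ofNat 60885660, .negSucc 56218319, .ofNat 20214300, .negSucc 3215639], (.tr (.dx 0 (.tw (.lf 19) (.tr (.lf 9) (.tw (.lf 5) (.lf 6)) (.lf 13)))) (.lf 14) (.lf 10)), 0, [7, 7, 30, 30, 7, 7, 10, 10], []⟩)))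
    (.nd (.nd (.lf ⟨[.ofNat 0, .negSucc 27164159, .ofNat 61714560, .negSucc 56004479, .ofNat 20092800, .negSucc 3169919], (.tr (.dx 0 (.tr (.lf 19) (.lf 13) (.tr (.lf 5) (.lf 6) (.lf 9)))) (.lf 14) (.lf 10)), 0, [30, 30, 0, 7], []⟩)
    (.lf ⟨[.ofNat 0, .ofNat 54524160, .negSucc 163448639, .ofNat 165292800, .negSucc 62272319, .ofNat 9997440], (.tr (.lf 6) (.dx 0 (.tr (.lf 13) (.lf 9) (.tr (.lf 10) (.lf 5) (.lf 19)))) (.lf 14)), 0, [23, 23, 23, 23], []⟩))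
    (.nd (.lf ⟨[.ofNat 0, .negSucc 15724079, .ofNat 34881060, .negSucc 32017199, .ofNat 11309220, .negSucc 1783079], (.tr (.lf 6) (.dx 0 (.tw (.lf 13) (.tr (.tw (.lf 9) (.lf 10)) (.lf 5) (.lf 19)))) (.lf 14)), 0, [23, 23, 23, 23, 23, 23, 23, 23], []⟩)
    (.lf ⟨[.ofNat 0, .negSucc 2584799, .negSucc 49557239, .ofNat 58279200, .negSucc 23086199, .ofNat 3749040], (.tr (.lf 6) (.dx 0 (.tr (.lf 19) (.lf 5) (.tr (.lf 9) (.lf 10) (.lf 13)))) (.lf 14)), 0, [23, 32, 23, 23], []⟩))))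

/-- data -/
def dV4x5 : RT := (.nd (.nd (.nd (.lf ⟨[.ofNat 0, .ofNat 66206880, .negSucc 180700439, .ofNat 176005920, .negSucc 65429399, .ofNat 10454640], (.tr (.lf 6) (.dx 0 (.tr (.lf 9) (.lf 10) (.tr (.lf 5) (.lf 19) (.lf 13)))) (.lf 14)), 0, [23, 23, 32, 23], []⟩)
    (.lf ⟨[.ofNat 0, .ofNat 48804480, .negSucc 51631199, .ofNat 27820800, .negSucc 6593759, .ofNat 365760], (.tr (.lf 6) (.dx 0 (.tr (.lf 9) (.tr (.lf 5) (.lf 13) (.lf 10)) (.lf 19))) (.lf 14)), 0, [23, 23, 32, 23], []⟩))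
    (.nd (.lf ⟨[.ofNat 0, .negSucc 31857839, .ofNat 25169940, .negSucc 2546159, .negSucc 2801579, .ofNat 960120], (.tr (.lf 6) (.dx 0 (.tw (.lf 19) (.tr (.lf 9) (.tw (.lf 5) (.lf 13)) (.lf 10)))) (.lf 14)), 0, [23, 23, 23, 23, 23, 23, 23, 23], []⟩)
    (.lf ⟨[.ofNat 0, .ofNat 27573120, .negSucc 29960159, .ofNat 11844480, .negSucc 1482719, .negSucc 121919], (.tr (.dx 0 (.tr (.lf 9) (.lf 19) (.lf 13))) (.tr (.lf 5) (.lf 14) (.lf 10)) (.lf 6)), 0, [9, 25, 9, 25], []⟩)))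
    (.nd (.nd (.lf ⟨[.ofNat 0, .negSucc 27700559, .ofNat 71842380, .negSucc 68628239, .ofNat 25108620, .negSucc 4008119], (.tw (.dx 0 (.tr (.lf 9) (.lf 19) (.lf 13))) (.tr (.lf 5) (.tw (.lf 10) (.lf 14)) (.lf 6))), 0, [20, 9, 20, 9, 25, 9, 25, 9], []⟩)
    (.lf ⟨[.ofNat 0, .ofNat 40072320, .negSucc 93747359, .ofNat 89105280, .negSucc 32086559, .ofNat 5242560], (.tr (.dx 0 (.tr (.lf 9) (.lf 19) (.lf 13))) (.lf 5) (.tr (.lf 6) (.lf 14) (.lf 10))), 0, [20, 20, 10, 25], []⟩))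
    (.nd (.lf ⟨[.ofNat 0, .ofNat 26622720, .negSucc 88046399, .ofNat 94513920, .negSucc 36352319, .ofNat 6096000], (.tr (.dx 0 (.tr (.lf 9) (.lf 19) (.lf 13))) (.tr (.lf 5) (.lf 6) (.lf 14)) (.lf 10)), 0, [20, 35, 10, 35], []⟩)
    (.lf ⟨[.ofNat 0, .negSucc 112914719, .ofNat 282982200, .negSucc 269719199, .ofNat 98118840, .negSucc 15453359], (.tr (.lf 10) (.lf 14) (.tr (.dx 0 (.tr (.lf 9) (.lf 19) (.lf 13))) (.lf 5) (.lf 6))), 0, [33, 33, 11, 21], []⟩))))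

/-- data -/
def dV4x6 : RT := (.nd (.nd (.nd (.lf ⟨[.ofNat 0, .ofNat 56422800, .negSucc 149653979, .ofNat 146495760, .negSucc 53981339, .ofNat 8580120], (.tw (.lf 10) (.tr (.tw (.lf 5) (.lf 6)) (.dx 0 (.tr (.lf 9) (.lf 19) (.lf 13))) (.lf 14))), 0, [23, 34, 23, 34, 33, 33, 33, 33], []⟩)
    (.lf ⟨[.ofNat 0, .negSucc 18303839, .ofNat 52199880, .negSucc 53400479, .ofNat 20087880, .negSucc 3200399], (.tw (.lf 14) (.tr (.dx 0 (.tr (.lf 9) (.lf 19) (.lf 13))) (.tw (.lf 5) (.lf 6)) (.lf 10))), 0, [35, 35, 22, 22, 36, 36, 36, 36], []⟩))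
    (.nd (.lf ⟨[.ofNat 0, .ofNat 91543680, .negSucc 164064479, .ofNat 130504320, .negSucc 43131359, .ofNat 6217920], (.tr (.lf 6) (.dx 0 (.tr (.lf 9) (.tr (.lf 10) (.lf 5) (.lf 13)) (.lf 19))) (.lf 14)), 0, [23, 23, 23, 23], []⟩)
    (.lf ⟨[.ofNat 0, .negSucc 4281119, .ofNat 3747000, .negSucc 762239, .negSucc 198599, .ofNat 91440], (.tw (.dx 0 (.tr (.lf 9) (.tr (.tw (.lf 5) (.lf 6)) (.lf 19) (.lf 13)) (.lf 10))) (.lf 14)), 0, [23, 23, 23, 23, 23, 23, 23, 23], []⟩)))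
    (.nd (.nd (.lf ⟨[.ofNat 0, .ofNat 18416160, .negSucc 46182599, .ofNat 43950240, .negSucc 16223879, .ofNat 2590800], (.tr (.dx 0 (.tr (.lf 5) (.tw (.lf 13) (.lf 14)) (.lf 19))) (.lf 6) (.tw (.lf 9) (.lf 10))), 0, [35, 35, 35, 35, 35, 35, 35, 35], []⟩)
    (.lf ⟨[.ofNat 0, .negSucc 36832319, .ofNat 92365200, .negSucc 87900479, .ofNat 32447760, .negSucc 5181599], (.tr (.dx 0 (.tr (.tw (.lf 5) (.lf 13)) (.lf 14) (.lf 19))) (.lf 6) (.tw (.lf 9) (.lf 10))), 0, [35, 35, 35, 35, 35, 35, 35, 35], []⟩))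
    (.nd (.lf ⟨[.ofNat 0, .ofNat 5034240, .ofNat 2890560, .negSucc 8040959, .ofNat 4027200, .negSucc 731519], (.tr (.dx 0 (.tr (.lf 9) (.tw (.lf 13) (.lf 14)) (.lf 19))) (.tw (.lf 5) (.lf 6)) (.lf 10)), 0, [35, 35, 35, 35, 35, 35, 35, 35], []⟩)
    (.lf ⟨[.ofNat 0, .ofNat 3513600, .negSucc 36638399, .ofNat 44084160, .negSucc 18100799, .ofNat 3048000], (.tr (.dx 0 (.tr (.tw (.lf 9) (.lf 13)) (.lf 14) (.lf 19))) (.tw (.lf 5) (.lf 6)) (.lf 10)), 0, [35, 35, 35, 35, 35, 35, 35, 35], []⟩))))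

/-- data -/
def dV4x7 : RT := (.nd (.nd (.nd (.lf ⟨[.ofNat 0, .ofNat 10194480, .negSucc 17652899, .ofNat 14617200, .negSucc 4796579, .ofNat 685800], (.tr (.dx 0 (.tr (.lf 9) (.lf 19) (.tw (.lf 13) (.lf 14)))) (.tw (.lf 5) (.lf 6)) (.lf 10)), 0, [35, 35, 35, 35, 35, 35, 35, 35], []⟩)
    (.lf ⟨[.ofNat 0, .negSucc 32117759, .ofNat 28571520, .negSucc 7672319, .negSucc 896639, .ofNat 487680], (.tr (.dx 0 (.tr (.lf 5) (.lf 13) (.lf 14))) (.tr (.lf 9) (.lf 10) (.lf 19)) (.lf 6)), 0, [17, 9, 10, 10], []⟩))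
    (.nd (.lf ⟨[.ofNat 0, .negSucc 8660159, .ofNat 42040080, .negSucc 50796479, .ofNat 20082960, .negSucc 3230879], (.tr (.lf 6) (.lf 9) (.tr (.dx 0 (.tr (.lf 5) (.lf 13) (.lf 14))) (.lf 19) (.lf 10))), 0, [8, 8, 11, 8], []⟩)
    (.lf ⟨[.ofNat 0, .negSucc 21932639, .ofNat 27266760, .negSucc 14493599, .ofNat 3787080, .negSucc 518159], (.tw (.lf 6) (.tr (.lf 9) (.tw (.dx 0 (.tr (.lf 5) (.lf 13) (.lf 14))) (.lf 19)) (.lf 10))), 0, [8, 8, 13, 13, 8, 8, 13, 13], []⟩)))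
    (.nd (.nd (.lf ⟨[.ofNat 0, .ofNat 27164160, .negSucc 61714559, .ofNat 56004480, .negSucc 20092799, .ofNat 3169920], (.tr (.lf 6) (.lf 9) (.tr (.lf 10) (.dx 0 (.tr (.lf 5) (.lf 13) (.lf 14))) (.lf 19))), 0, [8, 8, 13, 13], []⟩)
    (.lf ⟨[.ofNat 0, .ofNat 2476800, .ofNat 16571520, .negSucc 24166079, .ofNat 10494720, .negSucc 1828799], (.tw (.lf 6) (.tr (.dx 0 (.tr (.lf 5) (.lf 13) (.lf 14))) (.tw (.lf 9) (.lf 10)) (.lf 19))), 0, [32, 32, 15, 15, 11, 16, 11, 16], []⟩))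
    (.nd (.lf ⟨[.ofNat 0, .negSucc 13582079, .ofNat 30857280, .negSucc 28002239, .ofNat 10046400, .negSucc 1584959], (.tw (.lf 6) (.tr (.tw (.lf 9) (.lf 10)) (.dx 0 (.tr (.lf 5) (.lf 13) (.lf 14))) (.lf 19))), 0, [8, 8, 8, 8, 13, 13, 13, 13], []⟩)
    (.lf ⟨[.ofNat 0, .ofNat 13838400, .negSucc 17554799, .ofNat 7210560, .negSucc 1311599, .ofNat 182880], (.tr (.dx 0 (.tr (.lf 5) (.lf 6) (.tr (.lf 9) (.lf 19) (.lf 13)))) (.lf 10) (.lf 14)), 0, [0, 0, 20, 37], []⟩))))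

/-- data -/
def dV4x8 : RT := (.nd (.nd (.nd (.lf ⟨[.ofNat 0, .negSucc 16819199, .ofNat 56444160, .negSucc 58911359, .ofNat 22452480, .negSucc 3657599], (.tr (.dx 0 (.tr (.lf 5) (.tr (.lf 6) (.lf 9) (.lf 19)) (.lf 13))) (.lf 10) (.lf 14)), 0, [0, 37, 10, 37], []⟩)
    (.lf ⟨[.ofNat 0, .negSucc 17124479, .ofNat 14988000, .negSucc 3048959, .negSucc 794399, .ofNat 365760], (.tr (.dx 0 (.tr (.lf 13) (.lf 19) (.tr (.lf 5) (.lf 6) (.lf 9)))) (.lf 10) (.lf 14)), 0, [37, 37, 0, 37], []⟩))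
    (.nd (.lf ⟨[.ofNat 0, .negSucc 9338399, .ofNat 17989560, .negSucc 13254239, .ofNat 4397880, .negSucc 701039], (.tr (.dx 0 (.tw (.lf 9) (.tr (.tw (.lf 5) (.lf 6)) (.lf 13) (.lf 19)))) (.lf 10) (.lf 14)), 0, [20, 20, 20, 20, 0, 0, 30, 30], []⟩)
    (.lf ⟨[.ofNat 0, .negSucc 16709759, .ofNat 34502880, .negSucc 30028799, .ofNat 10595040, .negSucc 1584959], (.tr (.dx 0 (.tr (.lf 9) (.lf 5) (.tr (.lf 6) (.lf 13) (.lf 19)))) (.lf 10) (.lf 14)), 0, [20, 37, 37, 30], []⟩)))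
    (.nd (.nd (.lf ⟨[.ofNat 0, .ofNat 58127040, .negSucc 108563279, .ofNat 86512320, .negSucc 29152079, .ofNat 4450080], (.tr (.dx 0 (.tr (.lf 19) (.lf 13) (.tr (.lf 5) (.lf 6) (.lf 9)))) (.lf 10) (.lf 14)), 0, [30, 30, 0, 20], []⟩)
    (.lf ⟨[.ofNat 0, .negSucc 41417279, .ofNat 74060400, .negSucc 56483519, .ofNat 18557040, .negSucc 2865119], (.tr (.dx 0 (.tr (.lf 5) (.lf 13) (.lf 19))) (.tr (.lf 6) (.lf 9) (.lf 10)) (.lf 14)), 0, [37, 19, 37, 30], []⟩))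
    (.nd (.lf ⟨[.ofNat 0, .negSucc 16709759, .ofNat 34502880, .negSucc 30028799, .ofNat 10595040, .negSucc 1584959], (.tr (.dx 0 (.tr (.lf 5) (.lf 13) (.lf 19))) (.lf 6) (.tr (.lf 9) (.lf 10) (.lf 14))), 0, [37, 7, 37, 7], []⟩)
    (.lf ⟨[.ofNat 0, .ofNat 19959840, .negSucc 60092279, .ofNat 59936160, .negSucc 22742519, .ofNat 3749040], (.tw (.lf 14) (.tr (.dx 0 (.tr (.lf 5) (.lf 13) (.lf 19))) (.tw (.lf 9) (.lf 10)) (.lf 6))), 0, [9, 9, 9, 9, 31, 18, 31, 18], []⟩))))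

/-- data -/
def dV4x9 : RT := (.nd (.nd (.nd (.lf ⟨[.ofNat 0, .negSucc 28149119, .ofNat 118127520, .negSucc 131512319, .ofNat 51637920, .negSucc 8656319], (.tr (.lf 6) (.lf 9) (.tr (.lf 10) (.dx 0 (.tr (.lf 5) (.lf 13) (.lf 19))) (.lf 14))), 0, [8, 8, 8, 8], []⟩)
    (.lf ⟨[.ofNat 0, .ofNat 15122880, .negSucc 63220559, .ofNat 69959040, .negSucc 27364559, .ofNat 4572000], (.tw (.lf 6) (.tr (.lf 9) (.tw (.dx 0 (.tr (.lf 5) (.lf 13) (.lf 19))) (.lf 14)) (.lf 10))), 0, [7, 7, 8, 8, 7, 7, 8, 8], []⟩))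
    (.nd (.lf ⟨[.ofNat 0, .ofNat 7361280, .negSucc 24065279, .ofNat 25252800, .negSucc 9680639, .ofNat 1584960], (.tw (.lf 9) (.tr (.lf 5) (.tr (.dx 0 (.tw (.lf 13) (.lf 19))) (.lf 10) (.lf 14)) (.lf 6))), 0, [34, 34, 33, 33, 34, 34, 33, 33], []⟩)
    (.lf ⟨[.ofNat 0, .ofNat 14957280, .negSucc 16952999, .ofNat 7720800, .negSucc 1397159, .ofNat 30480], (.tr (.lf 5) (.dx 0 (.tw (.lf 13) (.lf 19))) (.tr (.lf 9) (.tw (.lf 6) (.lf 14)) (.lf 10))), 0, [32, 32, 32, 32, 32, 32, 32, 32], []⟩)))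
    (.nd (.nd (.lf ⟨[.ofNat 0, .negSucc 30683519, .ofNat 75948000, .negSucc 70617599, .ofNat 25563360, .negSucc 4023359], (.tr (.lf 9) (.lf 14) (.tr (.dx 0 (.tr (.lf 5) (.lf 13) (.lf 19))) (.lf 10) (.lf 6))), 0, [6, 6, 31, 1], []⟩)
    (.lf ⟨[.ofNat 0, .negSucc 4849919, .ofNat 4293120, .negSucc 2121599, .ofNat 243840], (.tr (.dx 0 (.tw (.lf 19) (.tr (.lf 9) (.tw (.lf 5) (.lf 6)) (.lf 13)))) (.lf 10) (.lf 14)), 0, [37, 37, 30, 30, 20, 20, 10, 10], []⟩))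
    (.nd (.lf ⟨[.ofNat 0, .ofNat 207360, .negSucc 80639, .ofNat 126720], (.tr (.dx 0 (.tr (.lf 13) (.lf 5) (.tr (.lf 6) (.lf 9) (.lf 19)))) (.lf 10) (.lf 14)), 0, [10, 10, 0, 37], []⟩)
    (.lf ⟨[.ofNat 0, .ofNat 26654400, .negSucc 48609359, .ofNat 39891840, .negSucc 13828559, .ofNat 2133600], (.tw (.dx 0 (.tr (.lf 19) (.lf 5) (.tr (.lf 6) (.tw (.lf 9) (.lf 10)) (.lf 13)))) (.lf 14)), 0, [23, 23, 23, 23, 0, 0, 23, 23], []⟩))))

/-- data -/
def dV4x10 : RT := (.nd (.nd (.nd (.lf ⟨[.ofNat 0, .negSucc 18198719, .ofNat 49457040, .negSucc 49329599, .ofNat 18506640, .negSucc 2987039], (.tw (.dx 0 (.tr (.lf 5) (.lf 6) (.tr (.tw (.lf 9) (.lf 10)) (.lf 19) (.lf 13)))) (.lf 14)), 0, [23, 23, 0, 0, 20, 20, 10, 10], []⟩)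
    (.lf ⟨[.ofNat 0, .ofNat 18403200, .negSucc 23348159, .ofNat 13866240, .negSucc 3913919, .ofNat 487680], (.tw (.dx 0 (.tr (.lf 5) (.tr (.lf 6) (.tw (.lf 9) (.lf 10)) (.lf 13)) (.lf 19))) (.lf 14)), 0, [0, 0, 0, 0, 23, 23, 30, 30], []⟩))
    (.nd (.lf ⟨[.ofNat 0, .ofNat 18198720, .negSucc 49457039, .ofNat 49329600, .negSucc 18506639, .ofNat 2987040], (.tw (.dx 0 (.tr (.lf 9) (.lf 10) (.tr (.tw (.lf 5) (.lf 6)) (.lf 13) (.lf 19)))) (.lf 14)), 0, [20, 20, 20, 20, 0, 0, 23, 23], []⟩)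
    (.lf ⟨[.ofNat 0, .negSucc 20108159, .ofNat 27729120, .negSucc 18043679, .ofNat 5195040, .negSucc 670559], (.tw (.dx 0 (.tr (.lf 19) (.lf 13) (.tr (.tw (.lf 5) (.lf 6)) (.lf 9) (.lf 10)))) (.lf 14)), 0, [23, 23, 30, 30, 0, 0, 20, 20], []⟩)))
    (.nd (.nd (.lf ⟨[.ofNat 0, .ofNat 3496320, .negSucc 26424959, .ofNat 32017440, .negSucc 13260479, .ofNat 2255520], (.tr (.dx 0 (.tw (.lf 13) (.tr (.tw (.lf 5) (.lf 6)) (.lf 9) (.lf 10)))) (.lf 19) (.lf 14)), 0, [10, 10, 5, 5, 0, 0, 20, 20], []⟩)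
    (.lf ⟨[.ofNat 0, .ofNat 2534400, .negSucc 4991519, .ofNat 4108320, .negSucc 1281119, .ofNat 182880], (.tr (.dx 0 (.tw (.lf 13) (.lf 19))) (.tr (.tw (.lf 5) (.lf 6)) (.lf 9) (.lf 10)) (.lf 14)), 0, [37, 37, 19, 19, 37, 37, 19, 19], []⟩))
    (.nd (.lf ⟨[.ofNat 0, .ofNat 22502160, .negSucc 29469179, .ofNat 20092560, .negSucc 5672699, .ofNat 777240], (.tr (.dx 0 (.tw (.lf 13) (.lf 19))) (.lf 9) (.tr (.lf 10) (.tw (.lf 5) (.lf 6)) (.lf 14))), 0, [19, 19, 35, 35, 19, 19, 35, 35], []⟩)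
    (.lf ⟨[.ofNat 0, .negSucc 3015359, .ofNat 15708240, .negSucc 18062879, .ofNat 7270800, .negSucc 1219199], (.tr (.lf 9) (.lf 19) (.tr (.lf 5) (.tr (.lf 10) (.dx 0 .on) (.tw (.lf 13) (.lf 14))) (.lf 6))), 0, [25, 25, 28, 28, 25, 25, 28, 28], [25, 25, 28, 28, 25, 25, 28, 28]⟩))))

/-- data -/
def dV4x11 : RT := (.nd (.nd (.nd (.lf ⟨[.ofNat 0, .negSucc 28532879, .ofNat 60885660, .negSucc 56218319, .ofNat 20214300, .negSucc 3215639], (.tr (.lf 14) (.lf 5) (.tr (.dx 0 (.tw (.lf 13) (.lf 19))) (.tw (.lf 9) (.lf 10)) (.lf 6))), 0, [9, 9, 9, 9, 18, 18, 18, 18], []⟩)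
    (.lf ⟨[.ofNat 0, .ofNat 42114960, .negSucc 91742939, .ofNat 84220560, .negSucc 30260699, .ofNat 4800600], (.tw (.lf 14) (.tr (.lf 5) (.tr (.dx 0 (.tw (.lf 13) (.lf 19))) (.lf 9) (.lf 10)) (.lf 6))), 0, [9, 9, 33, 33, 9, 9, 33, 33], []⟩))
    (.nd (.lf ⟨[.ofNat 0, .negSucc 43207919, .ofNat 71997060, .negSucc 55129199, .ofNat 17991300, .negSucc 2636519], (.tw (.dx 0 (.tr (.lf 9) (.lf 19) (.tr (.lf 5) (.lf 10) (.tw (.lf 13) (.lf 14))))) (.lf 6)), 0, [20, 20, 33, 33, 0, 0, 10, 10], []⟩)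
    (.lf ⟨[.ofNat 0, .negSucc 21638879, .ofNat 33260520, .negSucc 22670879, .ofNat 6806760, .negSucc 883919], (.tw (.dx 0 (.tr (.lf 9) (.lf 19) (.tr (.lf 5) (.tw (.lf 10) (.lf 13)) (.lf 6)))) (.lf 14)), 0, [20, 20, 20, 20, 0, 23, 0, 23], []⟩)))
    (.nd (.nd (.lf ⟨[.ofNat 0, .ofNat 4322880, .negSucc 8618159, .ofNat 8473920, .negSucc 3222959, .ofNat 426720], (.tr (.lf 10) (.lf 5) (.tr (.dx 0 (.tr (.lf 9) (.lf 13) (.lf 19))) (.lf 14) (.lf 6))), 0, [34, 25, 34, 34], []⟩)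
    (.lf ⟨[.ofNat 0, .ofNat 5303520, .negSucc 19796519, .ofNat 21079200, .negSucc 8069159, .ofNat 1371600], (.tw (.lf 10) (.tr (.lf 5) (.tw (.dx 0 (.tr (.lf 9) (.lf 13) (.lf 19))) (.lf 14)) (.lf 6))), 0, [34, 25, 33, 34, 34, 25, 33, 34], []⟩))
    (.nd (.lf ⟨[.ofNat 0, .ofNat 54928800, .negSucc 73661399, .ofNat 45780000, .negSucc 12666839, .ofNat 1676400], (.tr (.dx 0 (.tr (.lf 9) (.lf 13) (.lf 19))) (.tr (.lf 5) (.lf 6) (.lf 14)) (.lf 10)), 0, [20, 35, 30, 35], []⟩)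
    (.lf ⟨[.ofNat 0, .negSucc 31554719, .ofNat 58589880, .negSucc 46679519, .ofNat 15378360, .negSucc 2164079], (.tw (.lf 10) (.tr (.dx 0 (.tr (.lf 9) (.lf 13) (.lf 19))) (.tw (.lf 5) (.lf 6)) (.lf 14))), 0, [12, 12, 19, 19, 31, 21, 31, 21], []⟩))))

/-- data -/
def dV4x12 : RT := (.nd (.nd (.nd (.lf ⟨[.ofNat 0, .negSucc 23716799, .ofNat 45811920, .negSucc 37037759, .ofNat 12476880, .negSucc 2011679], (.tr (.lf 14) (.lf 5) (.tr (.lf 6) (.dx 0 (.tr (.lf 9) (.lf 13) (.lf 19))) (.lf 10))), 0, [18, 13, 33, 18], []⟩)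
    (.lf ⟨[.ofNat 0, .ofNat 50299200, .negSucc 120705839, .ofNat 111351360, .negSucc 40073519, .ofNat 6278880], (.tr (.lf 10) (.lf 13) (.tr (.dx 0 (.tr (.lf 5) (.lf 19) (.lf 9))) (.lf 6) (.lf 14))), 0, [6, 6, 6, 6], []⟩))
    (.nd (.lf ⟨[.ofNat 0, .negSucc 14670719, .ofNat 33780960, .negSucc 31224959, .ofNat 11409120, .negSucc 1828799], (.tr (.lf 10) (.tr (.lf 6) (.dx 0 (.tr (.lf 5) (.lf 19) (.lf 9))) (.lf 13)) (.lf 14)), 0, [23, 23, 6, 6], []⟩)
    (.lf ⟨[.ofNat 0, .ofNat 14670720, .negSucc 33780959, .ofNat 31224960, .negSucc 11409119, .ofNat 1828800], (.tr (.lf 5) (.tr (.dx 0 (.tr (.lf 9) (.lf 13) (.lf 19))) (.lf 10) (.lf 6)) (.lf 14)), 0, [19, 32, 8, 8], []⟩)))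
    (.nd (.nd (.lf ⟨[.ofNat 0, .negSucc 45129599, .ofNat 70786080, .negSucc 49274879, .ofNat 14944800, .negSucc 1828799], (.tr (.dx 0 (.tr (.lf 5) (.lf 19) (.lf 9))) (.tr (.lf 6) (.lf 13) (.lf 14)) (.lf 10)), 0, [7, 0, 7, 20], []⟩)
    (.lf ⟨[.ofNat 0, .ofNat 45129600, .negSucc 70786079, .ofNat 49274880, .negSucc 14944799, .ofNat 1828800], (.tr (.dx 0 (.tr (.lf 5) (.lf 19) (.lf 9))) (.lf 13) (.tr (.lf 10) (.lf 6) (.lf 14))), 0, [19, 0, 20, 20], []⟩))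
    (.nd (.lf ⟨[.ofNat 0, .ofNat 40828320, .negSucc 56535959, .ofNat 34160160, .negSucc 9052439, .ofNat 944880], (.tw (.dx 0 (.tr (.lf 5) (.lf 19) (.lf 9))) (.tr (.lf 6) (.tw (.lf 13) (.lf 14)) (.lf 10))), 0, [7, 7, 25, 25, 7, 7, 25, 25], []⟩)
    (.lf ⟨[.ofNat 0, .negSucc 8305919, .ofNat 28181760, .negSucc 29392319, .ofNat 11226240, .negSucc 1828799], (.tw (.dx 0 (.tr (.lf 5) (.lf 19) (.lf 9))) (.tr (.lf 13) (.tw (.lf 6) (.lf 10)) (.lf 14))), 0, [37, 19, 37, 19, 37, 20, 37, 20], []⟩))))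

/-- data -/
def dV4x13 : RT := (.nd (.nd (.nd (.lf ⟨[.ofNat 0, .ofNat 10622880, .ofNat 33979080, .negSucc 57943199, .ofNat 25460040, .negSucc 4663439], (.tw (.lf 10) (.tr (.lf 13) (.tw (.dx 0 (.tr (.lf 5) (.lf 19) (.lf 9))) (.lf 6)) (.lf 14))), 0, [6, 6, 23, 6, 6, 6, 23, 6], []⟩)
    (.lf ⟨[.ofNat 0, .negSucc 3887999, .negSucc 39829439, .ofNat 58182720, .negSucc 24692159, .ofNat 4511040], (.tw (.lf 14) (.tr (.lf 5) (.tw (.dx 0 (.tr (.lf 9) (.lf 13) (.lf 19))) (.lf 10)) (.lf 6))), 0, [18, 9, 33, 18, 18, 9, 33, 18], []⟩))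
    (.nd (.lf ⟨[.ofNat 0, .negSucc 13469759, .ofNat 11700720, .negSucc 479039, .negSucc 1535759, .ofNat 304800], (.tr (.lf 5) (.tr (.lf 6) (.dx 0 (.tr (.lf 9) (.lf 13) (.lf 19))) (.lf 10)) (.lf 14)), 0, [32, 32, 8, 19], []⟩)
    (.lf ⟨[.ofNat 0, .ofNat 1235520, .negSucc 59440079, .ofNat 79560960, .negSucc 32897999, .ofNat 5791200], (.tr (.dx 0 (.tr (.lf 9) (.tr (.lf 13) (.lf 5) (.lf 14)) (.lf 19))) (.lf 6) (.lf 10)), 0, [35, 35, 35, 35], []⟩)))
    (.nd (.nd (.lf ⟨[.ofNat 0, .ofNat 30179520, .negSucc 46203599, .ofNat 30507840, .negSucc 9059279, .ofNat 1280160], (.tr (.lf 14) (.lf 10) (.tr (.dx 0 (.tr (.lf 9) (.lf 13) (.lf 19))) (.lf 5) (.lf 6))), 0, [33, 33, 36, 36], []⟩)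
    (.lf ⟨[.ofNat 0, .ofNat 4322880, .negSucc 8618159, .ofNat 8473920, .negSucc 3222959, .ofNat 426720], (.tr (.dx 0 (.tr (.lf 9) (.tr (.lf 10) (.lf 5) (.lf 19)) (.lf 13))) (.lf 6) (.lf 14)), 0, [20, 20, 10, 10], []⟩))
    (.nd (.lf ⟨[.ofNat 0, .negSucc 3084479, .ofNat 2028720, .ofNat 85440, .negSucc 355919, .ofNat 60960], (.tw (.dx 0 (.tr (.lf 9) (.tr (.lf 10) (.tw (.lf 5) (.lf 6)) (.lf 13)) (.lf 19))) (.lf 14)), 0, [20, 20, 23, 23, 23, 23, 23, 23], []⟩)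
    (.lf ⟨[.ofNat 0, .ofNat 20802240, .ofNat 37610160, .negSucc 73655999, .ofNat 33651120, .negSucc 6035039], (.tr (.dx 0 (.tr (.lf 9) (.lf 10) (.tr (.lf 5) (.lf 19) (.lf 13)))) (.lf 6) (.lf 14)), 0, [20, 20, 0, 10], []⟩))))

/-- data -/
def dV4x14 : RT := (.nd (.nd (.nd (.lf ⟨[.ofNat 0, .negSucc 12059999, .ofNat 27113640, .negSucc 23717279, .ofNat 8556840, .negSucc 1371599], (.tr (.dx 0 (.tw (.lf 5) (.tr (.tw (.lf 9) (.lf 10)) (.lf 13) (.lf 19)))) (.lf 6) (.lf 14)), 0, [0, 0, 0, 0, 20, 20, 30, 30], []⟩)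
    (.lf ⟨[.ofNat 0, .ofNat 1189440, .ofNat 11489040, .negSucc 16881599, .ofNat 7230480, .negSucc 1280159], (.tr (.dx 0 (.tr (.lf 13) (.lf 19) (.tr (.lf 5) (.lf 9) (.lf 10)))) (.lf 6) (.lf 14)), 0, [10, 10, 0, 20], []⟩))
    (.nd (.lf ⟨[.ofNat 0, .ofNat 9241920, .negSucc 15251759, .ofNat 11827200, .negSucc 3873839, .ofNat 548640], (.tr (.dx 0 (.tw (.lf 13) (.tr (.lf 5) (.tw (.lf 9) (.lf 10)) (.lf 19)))) (.lf 6) (.lf 14)), 0, [10, 10, 10, 10, 0, 0, 30, 30], []⟩)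
    (.lf ⟨[.ofNat 0, .negSucc 1359359, .ofNat 15515520, .negSucc 20605439, .ofNat 8542080, .negSucc 1463039], (.tr (.dx 0 (.tr (.lf 19) (.lf 9) (.tr (.lf 10) (.lf 5) (.lf 13)))) (.lf 6) (.lf 14)), 0, [30, 30, 20, 10], []⟩)))
    (.nd (.nd (.lf ⟨[.negSucc 7274879, .ofNat 13411200, .ofNat 12149880, .negSucc 28503359, .ofNat 13159800, .negSucc 2407919], (.tw (.dx 0 (.tr (.lf 13) (.lf 19) (.tr (.tw (.lf 5) (.lf 6)) (.lf 9) (.lf 10)))) (.lf 14)), 0, [23, 23, 10, 10, 23, 23, 23, 23], []⟩)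
    (.lf ⟨[.negSucc 7274879, .negSucc 4787519, .ofNat 61606920, .negSucc 77832959, .ofNat 31666440, .negSucc 5394959], (.tw (.dx 0 (.tr (.lf 13) (.tr (.tw (.lf 5) (.lf 6)) (.lf 9) (.lf 10)) (.lf 19))) (.lf 14)), 0, [10, 10, 23, 23, 23, 23, 23, 23], []⟩))
    (.nd (.lf ⟨[.ofNat 7274880, .ofNat 4787520, .negSucc 61606919, .ofNat 77832960, .negSucc 31666439, .ofNat 5394960], (.tr (.dx 0 (.lf 13)) (.tw (.lf 19) (.tr (.tw (.lf 5) (.lf 6)) (.lf 9) (.lf 10))) (.lf 14)), 0, [10, 10, 10, 10, 10, 10, 10, 10], [37, 37, 19, 19, 0, 0, 20, 20]⟩)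
    (.lf ⟨[.ofNat 0, .negSucc 7667999, .ofNat 7628280, .ofNat 2521200, .negSucc 12993959, .ofNat 6204000, .negSucc 1219199], (.tr (.lf 15) (.tw (.dx 1 .on) (.tr (.tw (.lf 1) (.lf 2)) (.lf 9) (.lf 10))) (.lf 19)), 1, [15, 15, 3, 3, 22, 22, 36, 36], [15, 15, 3, 3, 22, 22, 36, 36]⟩))))

/-- data -/
def dV4x15 : RT := (.nd (.nd (.nd (.lf ⟨[.ofNat 0, .negSucc 1810079, .ofNat 5905080, .negSucc 6200639, .ofNat 2404920, .negSucc 396239], (.tr (.dx 0 (.tr (.lf 9) (.tw (.lf 13) (.lf 14)) (.lf 19))) (.lf 10) (.tw (.lf 5) (.lf 6))), 0, [9, 9, 9, 9, 9, 9, 9, 9], []⟩)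
    (.lf ⟨[.ofNat 0, .negSucc 1810079, .ofNat 5905080, .negSucc 6200639, .ofNat 2404920, .negSucc 396239], (.tr (.tw (.lf 5) (.lf 6)) (.dx 0 (.tr (.lf 9) (.tw (.lf 13) (.lf 14)) (.lf 19))) (.lf 10)), 0, [32, 32, 32, 32, 32, 32, 32, 32], []⟩))
    (.nd (.lf ⟨[.ofNat 0, .ofNat 7879680, .ofNat 27528000, .negSucc 45364799, .ofNat 19728960, .negSucc 3535679], (.tr (.dx 0 (.tr (.lf 9) (.lf 19) (.tr (.lf 13) (.lf 5) (.lf 14)))) (.lf 6) (.lf 10)), 0, [35, 35, 35, 35], []⟩)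
    (.lf ⟨[.ofNat 0, .ofNat 14270400, .negSucc 9425039, .negSucc 2735999, .ofNat 3102960, .negSucc 792479], (.tr (.dx 0 (.tr (.lf 5) (.lf 19) (.tr (.lf 13) (.lf 9) (.lf 14)))) (.lf 10) (.lf 6)), 0, [9, 9, 9, 9], []⟩)))
    (.nd (.nd (.lf ⟨[.ofNat 0, .ofNat 87685920, .negSucc 199349879, .ofNat 181439520, .negSucc 64878839, .ofNat 10088880], (.tr (.dx 0 (.tr (.lf 13) (.lf 14) (.tr (.lf 5) (.lf 19) (.lf 9)))) (.lf 10) (.lf 6)), 0, [10, 10, 9, 20], []⟩)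
    (.lf ⟨[.ofNat 0, .negSucc 45064079, .ofNat 100608060, .negSucc 90650639, .ofNat 32439420, .negSucc 5044439], (.tr (.dx 0 (.tw (.lf 9) (.tr (.tw (.lf 13) (.lf 14)) (.lf 5) (.lf 19)))) (.lf 10) (.lf 6)), 0, [9, 9, 20, 20, 10, 10, 9, 9], []⟩))
    (.nd (.lf ⟨[.ofNat 0, .ofNat 16341120, .negSucc 14342879, .ofNat 3048960, .ofNat 794400, .negSucc 365759], (.tr (.dx 0 (.tr (.lf 9) (.lf 13) (.tr (.lf 14) (.lf 5) (.lf 19)))) (.lf 10) (.lf 6)), 0, [9, 9, 10, 9], []⟩)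
    (.lf ⟨[.ofNat 0, .negSucc 16341119, .ofNat 14342880, .negSucc 3048959, .negSucc 794399, .ofNat 365760], (.tr (.dx 0 (.tr (.lf 9) (.tr (.lf 5) (.lf 19) (.lf 13)) (.lf 14))) (.lf 10) (.lf 6)), 0, [20, 9, 10, 10], []⟩))))

/-- data -/
def dV4x16 : RT := (.nd (.nd (.nd (.lf ⟨[.ofNat 0, .ofNat 16381440, .negSucc 94043519, .ofNat 108418560, .negSucc 43685759, .ofNat 7315200], (.tr (.lf 6) (.dx 0 (.tr (.lf 19) (.lf 9) (.tr (.lf 5) (.lf 13) (.lf 14)))) (.lf 10)), 0, [13, 32, 32, 32], []⟩)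
    (.lf ⟨[.ofNat 0, .ofNat 47744640, .negSucc 16601759, .negSucc 23339519, .ofNat 15888480, .negSucc 3535679], (.tr (.lf 6) (.dx 0 (.tr (.lf 13) (.tr (.lf 9) (.lf 5) (.lf 14)) (.lf 19))) (.lf 10)), 0, [32, 32, 13, 13], []⟩))
    (.nd (.lf ⟨[.ofNat 0, .negSucc 5771519, .ofNat 37809600, .negSucc 44560319, .ofNat 18100800, .negSucc 3047999], (.tr (.lf 6) (.dx 0 (.tw (.lf 5) (.tr (.tw (.lf 13) (.lf 14)) (.lf 9) (.lf 19)))) (.lf 10)), 0, [32, 32, 32, 32, 32, 32, 32, 32], []⟩)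
    (.lf ⟨[.ofNat 0, .negSucc 24013439, .negSucc 14767199, .ofNat 42842880, .negSucc 20930399, .ofNat 4023360], (.tr (.lf 6) (.dx 0 (.tw (.lf 19) (.tr (.lf 13) (.tw (.lf 5) (.lf 9)) (.lf 14)))) (.lf 10)), 0, [13, 13, 13, 13, 32, 32, 32, 32], []⟩)))
    (.nd (.nd (.lf ⟨[.ofNat 0, .ofNat 17568000, .ofNat 56627520, .negSucc 91535999, .ofNat 40637760, .negSucc 7315199], (.tr (.lf 6) (.dx 0 (.tr (.lf 13) (.lf 5) (.tr (.lf 9) (.lf 14) (.lf 19)))) (.lf 10)), 0, [32, 13, 13, 13], []⟩)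
    (.lf ⟨[.ofNat 0, .negSucc 19673279, .ofNat 19014480, .negSucc 6772799, .ofNat 517200, .ofNat 182880], (.tr (.lf 6) (.dx 0 (.tr (.lf 9) (.tr (.lf 5) (.lf 19) (.lf 13)) (.lf 14))) (.lf 10)), 0, [13, 13, 13, 13], []⟩))
    (.nd (.lf ⟨[.ofNat 0, .ofNat 2096640, .negSucc 63346559, .ofNat 81173760, .negSucc 33924479, .ofNat 5852160], (.tr (.lf 6) (.dx 0 (.tr (.lf 9) (.lf 13) (.tr (.lf 14) (.lf 5) (.lf 19)))) (.lf 10)), 0, [13, 13, 13, 13], []⟩)
    (.lf ⟨[.ofNat 0, .negSucc 4250879, .negSucc 3078719, .ofNat 8532480, .negSucc 4027199, .ofNat 731520], (.tr (.lf 6) (.dx 0 (.tw (.lf 9) (.tr (.tw (.lf 13) (.lf 14)) (.lf 5) (.lf 19)))) (.lf 10)), 0, [13, 13, 13, 13, 13, 13, 13, 13], []⟩))))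

/-- data -/
def dV4x17 : RT := (.nd (.nd (.nd (.lf ⟨[.ofNat 0, .negSucc 3525119, .negSucc 8000639, .ofNat 13323840, .negSucc 6101759, .ofNat 1097280], (.tw (.dx 0 (.tr (.lf 9) (.tr (.tw (.lf 5) (.lf 6)) (.lf 19) (.lf 13)) (.lf 14))) (.lf 10)), 0, [13, 13, 13, 13, 13, 13, 13, 13], []⟩)
    (.lf ⟨[.ofNat 0, .negSucc 3525119, .negSucc 8000639, .ofNat 13323840, .negSucc 6101759, .ofNat 1097280], (.tw (.dx 0 (.tr (.lf 9) (.tr (.lf 13) (.tw (.lf 5) (.lf 6)) (.lf 19)) (.lf 14))) (.lf 10)), 0, [13, 13, 13, 13, 13, 13, 13, 13], []⟩))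
    (.nd (.lf ⟨[.ofNat 0, .negSucc 21302639, .ofNat 54507300, .negSucc 51734639, .ofNat 19029540, .negSucc 3002279], (.tw (.dx 0 (.tr (.lf 5) (.lf 9) (.tr (.lf 10) (.tw (.lf 13) (.lf 14)) (.lf 19)))) (.lf 6)), 0, [0, 0, 0, 0, 33, 33, 33, 33], []⟩)
    (.lf ⟨[.ofNat 0, .ofNat 11974320, .negSucc 12202259, .ofNat 4952880, .negSucc 736019, .ofNat 15240], (.tw (.dx 0 (.tr (.lf 19) (.lf 13) (.tr (.lf 5) (.tw (.lf 9) (.lf 10)) (.lf 14)))) (.lf 6)), 0, [30, 30, 33, 33, 0, 0, 33, 33], []⟩)))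
    (.nd (.nd (.lf ⟨[.ofNat 0, .negSucc 4209119, .ofNat 25101480, .negSucc 31158239, .ofNat 12298920, .negSucc 1981199], (.tw (.dx 0 (.tr (.lf 13) (.tr (.tw (.lf 9) (.lf 10)) (.lf 5) (.lf 14)) (.lf 19))) (.lf 6)), 0, [33, 33, 10, 10, 33, 33, 30, 30], []⟩)
    (.lf ⟨[.ofNat 0, .negSucc 7765199, .negSucc 12899219, .ofNat 26205360, .negSucc 11562899, .ofNat 1965960], (.tw (.lf 10) (.tr (.lf 13) (.tw (.dx 0 (.tr (.lf 5) (.lf 6) (.lf 9))) (.lf 19)) (.lf 14))), 0, [5, 5, 6, 6, 5, 5, 6, 6], []⟩))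
    (.nd (.lf ⟨[.ofNat 0, .ofNat 12853440, .negSucc 34304399, .ofNat 33457920, .negSucc 12191759, .ofNat 1889760], (.tw (.dx 0 (.tr (.lf 13) (.lf 14) (.tr (.tw (.lf 5) (.lf 6)) (.lf 19) (.lf 9)))) (.lf 10)), 0, [13, 13, 10, 10, 0, 0, 13, 13], []⟩)
    (.lf ⟨[.ofNat 0, .negSucc 195839, .ofNat 161280], (.tw (.dx 0 (.tr (.lf 13) (.tr (.lf 9) (.tw (.lf 5) (.lf 6)) (.lf 19)) (.lf 14))) (.lf 10)), 0, [13, 13, 13, 13, 13, 13, 13, 13], []⟩))))

/-- data -/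
def dV4x18 : RT := (.nd (.nd (.nd (.lf ⟨[.ofNat 0, .ofNat 13582080, .negSucc 30857279, .ofNat 28002240, .negSucc 10046399, .ofNat 1584960], (.tw (.dx 0 (.tr (.lf 19) (.lf 13) (.tr (.tw (.lf 5) (.lf 6)) (.lf 9) (.lf 14)))) (.lf 10)), 0, [13, 13, 30, 30, 0, 0, 10, 10], []⟩)
    (.lf ⟨[.ofNat 0, .negSucc 679679, .negSucc 2080319, .ofNat 3313920, .negSucc 1423679, .ofNat 243840], (.tw (.dx 0 (.tw (.lf 19) (.tr (.lf 5) (.lf 9) (.tr (.lf 13) (.lf 6) (.lf 14))))) (.lf 10)), 0, [13, 13, 30, 30, 0, 0, 10, 10], []⟩))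
    (.nd (.lf ⟨[.ofNat 0, .ofNat 383040, .negSucc 55444559, .ofNat 75600000, .negSucc 31352399, .ofNat 5547360], (.tw (.dx 0 (.tr (.lf 19) (.lf 13) (.tr (.lf 5) (.tw (.lf 9) (.lf 14)) (.lf 6)))) (.lf 10)), 0, [30, 30, 30, 30, 0, 0, 0, 0], []⟩)
    (.lf ⟨[.ofNat 0, .negSucc 5067359, .ofNat 60767880, .negSucc 77687519, .ofNat 31601160, .negSucc 5516879], (.tw (.dx 0 (.tr (.lf 5) (.tr (.lf 13) (.tw (.lf 6) (.lf 9)) (.lf 14)) (.lf 19))) (.lf 10)), 0, [0, 0, 0, 0, 30, 30, 30, 30], []⟩)))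
    (.nd (.nd (.lf ⟨[.ofNat 0, .ofNat 18266400, .negSucc 121750679, .ofNat 146757600, .negSucc 58843799, .ofNat 10088880], (.tw (.dx 0 (.tw (.lf 19) (.tr (.lf 13) (.lf 9) (.tr (.lf 5) (.lf 14) (.lf 6))))) (.lf 10)), 0, [30, 30, 13, 13, 10, 10, 0, 0], []⟩)
    (.lf ⟨[.ofNat 0, .negSucc 32536799, .ofNat 131175720, .negSucc 144021599, .ofNat 55740840, .negSucc 9296399], (.tw (.dx 0 (.tw (.lf 13) (.tr (.lf 9) (.tr (.lf 5) (.lf 14) (.lf 6)) (.lf 19)))) (.lf 10)), 0, [10, 10, 13, 13, 13, 13, 13, 13], []⟩))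
    (.nd (.lf ⟨[.ofNat 0, .ofNat 10656000, .negSucc 58022399, .ofNat 69724800, .negSucc 29249279, .ofNat 4876800], (.tw (.dx 0 (.tw (.lf 9) (.tr (.lf 13) (.lf 19) (.tr (.lf 5) (.lf 14) (.lf 6))))) (.lf 10)), 0, [13, 13, 13, 13, 13, 13, 13, 13], []⟩)
    (.lf ⟨[.ofNat 0, .ofNat 11475360, .ofNat 10919880, .negSucc 19858079, .ofNat 8180040, .negSucc 1249679], (.tr (.dx 0 (.lf 5)) (.tr (.lf 9) (.lf 19) (.tr (.lf 13) (.lf 10) (.lf 14))) (.lf 6)), 0, [0, 0, 0, 0], [20, 20, 9, 9]⟩))))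

/-- data -/
def dV4x19 : RT := (.nd (.nd (.nd (.lf ⟨[.ofNat 0, .negSucc 22523039, .ofNat 47425080, .negSucc 49866719, .ofNat 21069240, .negSucc 3627119], (.tr (.dx 0 (.lf 5)) (.lf 9) (.tr (.lf 6) (.tr (.lf 13) (.lf 10) (.lf 14)) (.lf 19))), 0, [0, 0, 0, 0], [39, 39, 20, 20]⟩)
    (.lf ⟨[.ofNat 0, .ofNat 3764160, .negSucc 108396239, .ofNat 143666880, .negSucc 59175119, .ofNat 10302240], (.tr (.dx 0 (.lf 5)) (.lf 13) (.tr (.lf 6) (.tr (.lf 9) (.lf 14) (.lf 10)) (.lf 19))), 0, [0, 0, 0, 0], [10, 10, 9, 9]⟩))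
    (.nd (.lf ⟨[.ofNat 0, .ofNat 28301760, .negSucc 68775599, .ofNat 65646720, .negSucc 24536879, .ofNat 3962400], (.tr (.dx 0 (.lf 5)) (.tr (.lf 9) (.lf 6) (.tr (.lf 13) (.lf 10) (.lf 14))) (.lf 19)), 0, [0, 0, 0, 0], [39, 39, 10, 10]⟩)
    (.lf ⟨[.negSucc 46284479, .ofNat 70973200, .ofNat 64838960, .negSucc 162139759, .ofNat 70719120, .negSucc 13106399], (.tr (.lf 10) (.lf 5) (.tr (.dx 0 (.lf 9)) (.tr (.lf 13) (.lf 6) (.lf 14)) (.lf 19))), 0, [34, 34, 21, 21], [34, 34, 11, 11]⟩)))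
    (.nd (.nd (.lf ⟨[.ofNat 46284480, .negSucc 37369359, .negSucc 97525519, .ofNat 172127600, .negSucc 71143919, .ofNat 12740640], (.tr (.lf 5) (.lf 10) (.tr (.lf 19) (.dx 0 (.lf 9)) (.tr (.lf 13) (.lf 6) (.lf 14)))), 0, [19, 19, 8, 8], [19, 19, 8, 8]⟩)
    (.lf ⟨[.ofNat 0, .negSucc 5289119, .negSucc 9805319, .ofNat 18289440, .negSucc 8171399, .ofNat 1493520], (.tr (.lf 19) (.dx 0 (.lf 9)) (.tr (.lf 5) (.lf 10) (.tr (.lf 13) (.lf 6) (.lf 14)))), 0, [19, 19, 9, 9], [19, 19, 9, 9]⟩))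
    (.nd (.lf ⟨[.ofNat 0, .negSucc 22534559, .ofNat 43097640, .negSucc 34139999, .ofNat 11606760, .negSucc 1737359], (.tr (.dx 0 (.lf 13)) (.tr (.lf 14) (.tr (.lf 9) (.lf 5) (.lf 10)) (.lf 19)) (.lf 6)), 0, [10, 10, 10, 10], [17, 17, 25, 25]⟩)
    (.lf ⟨[.negSucc 46284479, .ofNat 66722320, .ofNat 56721680, .negSucc 164210959, .ofNat 103873200, .negSucc 29563199, .ofNat 3413760], (.tr (.lf 5) (.lf 19) (.tr (.dx 0 (.lf 13)) (.lf 14) (.tr (.lf 9) (.lf 6) (.lf 10)))), 0, [35, 35, 11, 11], [35, 35, 16, 16]⟩))))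

/-- data -/
def dV4x20 : RT := (.nd (.nd (.nd (.lf ⟨[.ofNat 0, .ofNat 3500640, .ofNat 42958200, .negSucc 61901279, .ofNat 26079480, .negSucc 4602479], (.tr (.dx 0 (.lf 9)) (.tr (.lf 10) (.tr (.lf 5) (.lf 13) (.lf 6)) (.lf 19)) (.lf 14)), 0, [20, 20, 20, 20], [5, 5, 37, 37]⟩)
    (.lf ⟨[.ofNat 0, .negSucc 7243199, .ofNat 18331920, .negSucc 16633919, .ofNat 7048080, .negSucc 1036319], (.tr (.lf 9) (.lf 19) (.tr (.lf 6) (.dx 0 (.lf 5)) (.tr (.lf 13) (.lf 10) (.lf 14)))), 0, [37, 37, 33, 33], [37, 37, 28, 28]⟩))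
    (.nd (.lf ⟨[.ofNat 46284480, .negSucc 41469039, .negSucc 164885479, .ofNat 285447920, .negSucc 151366919, .ofNat 37457520, .negSucc 3413759], (.tr (.lf 14) (.lf 19) (.tr (.dx 0 (.lf 13)) (.tr (.lf 9) (.lf 5) (.lf 10)) (.lf 6))), 0, [9, 9, 11, 11], [9, 9, 21, 21]⟩)
    (.lf ⟨[.ofNat 0, .ofNat 17673120, .ofNat 8655000, .negSucc 31919519, .ofNat 15443160, .negSucc 2895599], (.tr (.dx 0 (.lf 13)) (.lf 19) (.tr (.lf 14) (.lf 5) (.tr (.lf 9) (.lf 6) (.lf 10)))), 0, [35, 35, 10, 10], [35, 35, 19, 19]⟩)))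
    (.nd (.nd (.lf ⟨[.ofNat 0, .negSucc 41394239, .ofNat 97593600, .negSucc 88428479, .ofNat 31928640, .negSucc 4998719], (.tr (.lf 9) (.lf 14) (.tr (.dx 0 (.lf 13)) (.lf 19) (.tr (.lf 5) (.lf 10) (.lf 6)))), 0, [9, 9, 11, 11], [9, 9, 6, 6]⟩)
    (.lf ⟨[.ofNat 0, .negSucc 838079, .ofNat 18063120, .negSucc 26591039, .ofNat 12533520, .negSucc 2255519], (.tr (.lf 9) (.lf 6) (.tr (.lf 19) (.dx 0 (.lf 5)) (.tr (.lf 13) (.lf 10) (.lf 14)))), 0, [37, 37, 3, 3], [37, 37, 34, 34]⟩))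
    (.nd (.lf ⟨[.ofNat 0, .ofNat 8874720, .ofNat 32228760, .negSucc 54970079, .ofNat 24698520, .negSucc 4480559], (.tr (.lf 13) (.lf 19) (.tr (.lf 6) (.dx 0 (.lf 5)) (.tr (.lf 9) (.lf 14) (.lf 10)))), 0, [7, 7, 33, 33], [7, 7, 4, 4]⟩)
    (.lf ⟨[.ofNat 0, .negSucc 10622879, .negSucc 33979079, .ofNat 57943200, .negSucc 25460039, .ofNat 4663440], (.tr (.lf 6) (.dx 0 (.lf 5)) (.tr (.lf 13) (.lf 19) (.tr (.lf 9) (.lf 14) (.lf 10)))), 0, [32, 32, 32, 32], [7, 7, 5, 5]⟩))))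

/-- data -/
def dV4x21 : RT := (.nd (.nd (.nd (.lf ⟨[.ofNat 0, .ofNat 58236480, .negSucc 127580879, .ofNat 113916480, .negSucc 40677839, .ofNat 6400800], (.tr (.dx 0 (.lf 13)) (.lf 19) (.tr (.lf 9) (.lf 14) (.tr (.lf 5) (.lf 10) (.lf 6)))), 0, [9, 9, 10, 10], [9, 9, 7, 7]⟩)
    (.lf ⟨[.ofNat 0, .ofNat 23721120, .negSucc 106248599, .ofNat 120348000, .negSucc 47371799, .ofNat 7894320], (.tw (.dx 0 (.tw (.lf 9) (.tr (.lf 13) (.lf 19) (.tr (.lf 5) (.lf 10) (.lf 6))))) (.lf 14)), 0, [20, 20, 23, 23, 23, 23, 23, 23], []⟩))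
    (.nd (.lf ⟨[.ofNat 0, .negSucc 23721119, .ofNat 106248600, .negSucc 120347999, .ofNat 47371800, .negSucc 7894319], (.tw (.dx 0 (.tw (.lf 19) (.tr (.lf 13) (.lf 5) (.tr (.lf 9) (.lf 6) (.lf 10))))) (.lf 14)), 0, [23, 23, 23, 23, 10, 10, 23, 23], []⟩)
    (.lf ⟨[.ofNat 0, .negSucc 1186559, .ofNat 63150960, .negSucc 86207999, .ofNat 35765040, .negSucc 6156959], (.tw (.dx 0 (.tw (.lf 13) (.lf 19))) (.tr (.lf 14) (.lf 5) (.tr (.lf 9) (.lf 6) (.lf 10)))), 0, [35, 35, 10, 10, 35, 35, 30, 30], []⟩)))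
    (.nd (.nd (.lf ⟨[.ofNat 0, .negSucc 17673119, .negSucc 8654999, .ofNat 31919520, .negSucc 15443159, .ofNat 2895600], (.tw (.lf 14) (.tr (.dx 0 (.tw (.lf 13) (.lf 19))) (.tr (.lf 9) (.lf 5) (.lf 10)) (.lf 6))), 0, [9, 9, 9, 9, 31, 11, 31, 11], []⟩)
    (.lf ⟨[.ofNat 0, .negSucc 345599, .negSucc 31761599, .ofNat 43676160, .negSucc 18263999, .ofNat 3169920], (.tw (.dx 0 (.tw (.lf 9) (.tr (.lf 19) (.lf 13) (.tr (.lf 5) (.lf 10) (.lf 6))))) (.lf 14)), 0, [20, 20, 23, 23, 23, 23, 0, 0], []⟩))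
    (.nd (.lf ⟨[.ofNat 0, .ofNat 55088640, .negSucc 163399679, .ofNat 171319680, .negSucc 66343679, .ofNat 10972800], (.tr (.lf 5) (.dx 0 (.tr (.lf 13) (.lf 9) (.lf 19))) (.tr (.lf 10) (.lf 6) (.lf 14))), 0, [32, 32, 32, 32], []⟩)
    (.lf ⟨[.ofNat 0, .negSucc 21957119, .ofNat 103403520, .negSucc 117680639, .ofNat 46533120, .negSucc 7802879], (.tw (.lf 10) (.tr (.lf 5) (.tw (.dx 0 (.tr (.lf 13) (.lf 9) (.lf 19))) (.lf 14)) (.lf 6))), 0, [34, 25, 33, 33, 34, 25, 33, 33], []⟩))))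

/-- data -/
def dV4x22 : RT := (.nd (.nd (.nd (.lf ⟨[.ofNat 0, .ofNat 44605440, .negSucc 143283839, .ofNat 148008960, .negSucc 56538239, .ofNat 9265920], (.tr (.lf 5) (.lf 14) (.tr (.dx 0 (.tr (.lf 13) (.lf 9) (.lf 19))) (.lf 6) (.lf 10))), 0, [24, 35, 24, 24], []⟩)
    (.lf ⟨[.ofNat 0, .negSucc 1895039, .negSucc 42299039, .ofNat 52483200, .negSucc 20925599, .ofNat 3535680], (.tr (.lf 9) (.lf 14) (.tr (.dx 0 (.tr (.lf 5) (.lf 19) (.lf 13))) (.lf 10) (.lf 6))), 0, [6, 6, 11, 6], []⟩))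
    (.nd (.lf ⟨[.ofNat 0, .ofNat 43198560, .negSucc 144191399, .ofNat 151985760, .negSucc 58724519, .ofNat 9784080], (.tr (.dx 0 (.tr (.lf 5) (.lf 19) (.lf 13))) (.lf 9) (.tr (.lf 6) (.lf 14) (.lf 10))), 0, [7, 25, 10, 10], []⟩)
    (.lf ⟨[.ofNat 0, .negSucc 18453599, .ofNat 99819240, .negSucc 115387679, .ofNat 45938280, .negSucc 7711439], (.tw (.dx 0 (.tr (.lf 5) (.lf 19) (.lf 13))) (.tr (.lf 9) (.tw (.lf 6) (.lf 14)) (.lf 10))), 0, [7, 35, 7, 35, 10, 10, 10, 10], []⟩)))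
    (.nd (.nd (.lf ⟨[.ofNat 0, .ofNat 134091360, .negSucc 393963239, .ofNat 395236320, .negSucc 149168999, .ofNat 24170640], (.tr (.lf 9) (.lf 6) (.tr (.dx 0 (.tr (.lf 5) (.lf 19) (.lf 13))) (.lf 10) (.lf 14))), 0, [34, 34, 11, 34], []⟩)
    (.lf ⟨[.ofNat 0, .negSucc 75717359, .ofNat 201507300, .negSucc 195811439, .ofNat 72885540, .negSucc 11658599], (.tw (.lf 14) (.tr (.lf 9) (.tw (.dx 0 (.tr (.lf 5) (.lf 19) (.lf 13))) (.lf 6)) (.lf 10))), 0, [35, 35, 36, 36, 35, 35, 36, 36], []⟩))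
    (.nd (.lf ⟨[.ofNat 0, .ofNat 66206880, .negSucc 180700439, .ofNat 176005920, .negSucc 65429399, .ofNat 10454640], (.tr (.lf 14) (.lf 9) (.tr (.lf 6) (.dx 0 (.tr (.lf 5) (.lf 19) (.lf 13))) (.lf 10))), 0, [36, 36, 36, 33], []⟩)
    (.lf ⟨[.ofNat 0, .negSucc 47944799, .ofNat 148444200, .negSucc 154043999, .ofNat 58968360, .negSucc 9784079], (.tr (.lf 14) (.lf 5) (.tr (.lf 6) (.dx 0 (.tr (.lf 13) (.lf 9) (.lf 19))) (.lf 10))), 0, [18, 18, 33, 33], []⟩))))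

/-- data -/
def dV4x23 : RT := (.nd (.nd (.nd (.lf ⟨[.ofNat 0, .negSucc 22615199, .ofNat 90833400, .negSucc 99449759, .ofNat 38768760, .negSucc 6431279], (.tw (.dx 0 (.tr (.lf 13) (.lf 9) (.lf 19))) (.tr (.lf 5) (.tw (.lf 10) (.lf 14)) (.lf 6))), 0, [25, 9, 25, 9, 25, 9, 25, 9], []⟩)
    (.lf ⟨[.ofNat 0, .ofNat 69356880, .negSucc 158489099, .ofNat 143000400, .negSucc 51586379, .ofNat 8031480], (.tr (.lf 6) (.tw (.dx 0 (.tr (.lf 9) (.tw (.lf 5) (.lf 13)) (.lf 10))) (.lf 19)) (.lf 14)), 0, [5, 5, 5, 5, 23, 23, 23, 23], []⟩))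
    (.nd (.lf ⟨[.ofNat 0, .negSucc 59272559, .ofNat 126443460, .negSucc 109480559, .ofNat 38819460, .negSucc 5928359], (.tr (.lf 6) (.dx 0 (.tr (.lf 9) (.tw (.lf 5) (.lf 13)) (.lf 10))) (.tw (.lf 14) (.lf 19))), 0, [32, 5, 39, 5, 32, 5, 39, 5], []⟩)
    (.lf ⟨[.ofNat 0, .negSucc 26241839, .ofNat 50054580, .negSucc 40332719, .ofNat 13612020, .negSucc 1965959], (.tr (.tw (.dx 0 (.tr (.lf 9) (.tw (.lf 5) (.lf 13)) (.lf 10))) (.lf 6)) (.lf 14) (.lf 19)), 0, [20, 39, 20, 39, 32, 39, 32, 39], []⟩)))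
    (.nd (.nd (.lf ⟨[.ofNat 0, .ofNat 2599200, .negSucc 3847799, .ofNat 2624160, .negSucc 777719, .ofNat 91440], (.tr (.dx 0 (.tr (.lf 9) (.tw (.lf 5) (.lf 13)) (.lf 10))) (.lf 6) (.tw (.lf 14) (.lf 19))), 0, [20, 5, 39, 5, 20, 5, 39, 5], []⟩)
    (.lf ⟨[.ofNat 0, .ofNat 45247680, .negSucc 108546479, .ofNat 98792640, .negSucc 35680559, .ofNat 5547360], (.tr (.lf 6) (.tw (.dx 0 (.tr (.lf 9) (.tw (.lf 5) (.lf 13)) (.lf 10))) (.lf 14)) (.lf 19)), 0, [32, 39, 32, 39, 24, 24, 24, 24], []⟩))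
    (.nd (.lf ⟨[.ofNat 0, .negSucc 57560399, .ofNat 89307660, .negSucc 61764239, .ofNat 19126860, .negSucc 2545079], (.tr (.tw (.lf 6) (.lf 19)) (.dx 0 (.tr (.lf 9) (.tw (.lf 5) (.lf 13)) (.lf 10))) (.lf 14)), 0, [23, 23, 23, 23, 23, 23, 23, 23], []⟩)
    (.lf ⟨[.ofNat 0, .ofNat 23642640, .negSucc 46206779, .ofNat 37708560, .negSucc 12834299, .ofNat 1874520], (.tr (.lf 14) (.tw (.dx 0 (.tr (.lf 9) (.tw (.lf 5) (.lf 13)) (.lf 10))) (.lf 6)) (.lf 19)), 0, [22, 22, 22, 22, 3, 3, 3, 3], []⟩))))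

/-- data -/
def dV4x24 : RT := (.nd (.nd (.nd (.lf ⟨[.ofNat 0, .negSucc 24387839, .ofNat 39336000, .negSucc 26478719, .ofNat 7767360, .negSucc 975359], (.tr (.tw (.dx 0 (.tr (.lf 9) (.lf 5) (.tw (.lf 13) (.lf 19)))) (.lf 6)) (.lf 14) (.lf 10)), 0, [20, 20, 10, 30, 7, 7, 7, 32], []⟩)
    (.lf ⟨[.ofNat 0, .negSucc 9279359, .negSucc 1108319, .ofNat 11558400, .negSucc 5796959, .ofNat 1097280], (.tr (.tw (.dx 0 (.tr (.tw (.lf 5) (.lf 19)) (.lf 9) (.lf 13))) (.lf 10)) (.lf 6) (.lf 14)), 0, [19, 19, 19, 19, 12, 19, 12, 12], []⟩))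
    (.nd (.lf ⟨[.ofNat 0, .negSucc 3067919, .negSucc 4246499, .ofNat 5583600, .negSucc 2601059, .ofNat 320040], (.tr (.lf 10) (.dx 0 (.tw (.lf 19) (.tr (.lf 5) (.tw (.lf 9) (.lf 13)) (.lf 6)))) (.lf 14)), 0, [23, 23, 23, 23, 12, 12, 12, 12], []⟩)
    (.lf ⟨[.ofNat 0, .negSucc 62732159, .ofNat 113652960, .negSucc 88199039, .ofNat 29303520, .negSucc 4267199], (.tr (.lf 10) (.dx 0 (.tr (.lf 5) (.lf 13) (.tr (.lf 9) (.lf 6) (.lf 19)))) (.lf 14)), 0, [12, 23, 12, 23], []⟩)))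
    (.nd (.nd (.lf ⟨[.ofNat 0, .ofNat 12000960, .negSucc 27107279, .ofNat 27504960, .negSucc 10061519, .ofNat 1767840], (.tr (.lf 10) (.dx 0 (.tr (.lf 19) (.lf 5) (.tr (.lf 6) (.lf 9) (.lf 13)))) (.lf 14)), 0, [23, 23, 12, 12], []⟩)
    (.lf ⟨[.ofNat 0, .negSucc 28316159, .ofNat 89164800, .negSucc 87429119, .ofNat 33191040, .negSucc 5120639], (.tr (.lf 10) (.dx 0 (.tr (.lf 19) (.lf 5) (.tr (.lf 6) (.lf 13) (.lf 9)))) (.lf 14)), 0, [23, 23, 12, 12], []⟩))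
    (.nd (.lf ⟨[.ofNat 0, .negSucc 23972399, .ofNat 74222100, .negSucc 77021999, .ofNat 29484180, .negSucc 4892039], (.tr (.lf 10) (.dx 0 (.tw (.lf 19) (.tr (.tw (.lf 5) (.lf 6)) (.lf 13) (.lf 9)))) (.lf 14)), 0, [23, 23, 12, 12, 23, 23, 12, 12], []⟩)
    (.lf ⟨[.ofNat 0, .ofNat 114668640, .negSucc 264911399, .ofNat 237769440, .negSucc 85485479, .ofNat 13197840], (.tr (.lf 10) (.dx 0 (.tr (.lf 9) (.tr (.lf 5) (.lf 6) (.lf 13)) (.lf 19))) (.lf 14)), 0, [12, 12, 23, 23], []⟩))))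

/-- data -/
def dV4 : RT := (.nd (.nd (.nd (.nd dV4x0 (.nd dV4x1 dV4x2)) (.nd dV4x3 (.nd dV4x4 dV4x5))) (.nd (.nd dV4x6 (.nd dV4x7 dV4x8)) (.nd dV4x9 (.nd dV4x10 dV4x11)))) (.nd (.nd (.nd dV4x12 (.nd dV4x13 dV4x14)) (.nd dV4x15 (.nd dV4x16 dV4x17))) (.nd (.nd dV4x18 (.nd dV4x19 dV4x20)) (.nd (.nd dV4x21 dV4x22) (.nd dV4x23 dV4x24)))))

/-- data -/
def lV4x0 : List (ℕ × List ℤ) := [(333155, [.ofNat 0, .negSucc 92568959, .ofNat 47591840, .ofNat 312460960, .negSucc 507056799, .ofNat 271847520, .negSucc 69123839, .ofNat 6827520]),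
  (333477, [.ofNat 0, .ofNat 0, .negSucc 95227199, .ofNat 323119920, .negSucc 343719359, .ofNat 132275760, .negSucc 22128479]),
  (333995, [.ofNat 0, .ofNat 0, .ofNat 10578240, .ofNat 19610640, .negSucc 36578879, .ofNat 16342800, .negSucc 2987039]),
  (334058, [.ofNat 0, .ofNat 0, .ofNat 14486400, .negSucc 36663839, .ofNat 33267840, .negSucc 14096159, .ofNat 2072640]),
  (334170, [.ofNat 0, .ofNat 0, .ofNat 66715200, .negSucc 295770959, .ofNat 339979200, .negSucc 138321359, .ofNat 23469600]),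
  (334562, [.ofNat 0, .ofNat 0, .negSucc 58705919, .ofNat 81607680, .negSucc 15833279, .negSucc 65458559, .ofNat 33645120, .negSucc 6827519]),
  (337644, [.ofNat 0, .negSucc 29099519, .ofNat 11521920, .ofNat 215914560, .negSucc 321416639, .ofNat 178641600, .negSucc 46395839, .ofNat 4876800]),
  (338205, [.ofNat 0, .negSucc 29099519, .ofNat 11521920, .ofNat 215914560, .negSucc 321416639, .ofNat 178641600, .negSucc 46395839, .ofNat 4876800]),
  (340716, [.ofNat 0, .ofNat 0, .negSucc 10059839, .negSucc 70893359, .ofNat 139670400, .negSucc 124488239, .ofNat 43337760, .negSucc 6827519]),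
  (341277, [.ofNat 0, .ofNat 92568960, .negSucc 161032159, .ofNat 129815600, .ofNat 5385760, .negSucc 16152719, .ofNat 4937760]),
  (342700, [.ofNat 0, .ofNat 92568960, .negSucc 127379359, .negSucc 29575359, .ofNat 176395360, .negSucc 81586559, .ofNat 15361920]),
  (344875, [.ofNat 0, .ofNat 0, .ofNat 52554240, .negSucc 208775519, .ofNat 225350400, .negSucc 89468639, .ofNat 14752320]),
  (345373, [.ofNat 0, .negSucc 92568959, .ofNat 47591840, .ofNat 312460960, .negSucc 507056799, .ofNat 271847520, .negSucc 69123839, .ofNat 6827520]),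
  (345757, [.ofNat 0, .ofNat 0, .negSucc 22950719, .negSucc 21839759, .ofNat 39716160, .negSucc 16360079, .ofNat 2499360]),
  (349020, [.ofNat 0, .ofNat 0, .negSucc 28511999, .ofNat 27348960, .negSucc 3740159, .negSucc 6045599, .ofNat 1341120]),
  (349420, [.ofNat 0, .ofNat 0, .negSucc 56603519, .ofNat 137551200, .negSucc 131293439, .ofNat 49073760, .negSucc 7924799]),
  (2701164, [.ofNat 0, .negSucc 30671999, .ofNat 30513120, .ofNat 10084800, .negSucc 51975839, .ofNat 24816000, .negSucc 4876799]),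
  (2701420, [.ofNat 0, .ofNat 0, .ofNat 12061440, .negSucc 62832959, .ofNat 72251520, .negSucc 29083199, .ofNat 4876800]),
  (2705629, [.ofNat 0, .negSucc 30671999, .ofNat 30513120, .ofNat 10084800, .negSucc 51975839, .ofNat 24816000, .negSucc 4876799]),
  (2738507, [.ofNat 0, .ofNat 0, .ofNat 12061440, .negSucc 62832959, .ofNat 72251520, .negSucc 29083199, .ofNat 4876800]),
  (19511468, [.ofNat 0, .negSucc 27164159, .ofNat 61714560, .negSucc 56004479, .ofNat 20092800, .negSucc 3169919]),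
  (19515733, [.ofNat 0, .negSucc 7240319, .ofNat 23620320, .negSucc 24802559, .ofNat 9619680, .negSucc 1584959]),
  (19516075, [.ofNat 0, .negSucc 88335359, .ofNat 218511360, .negSucc 207025919, .ofNat 76304640, .negSucc 12191999]),
  (19516076, [.ofNat 0, .ofNat 16709760, .negSucc 34502879, .ofNat 30028800, .negSucc 10595039, .ofNat 1584960]),
  (19518819, [.ofNat 0, .negSucc 73664639, .ofNat 184730400, .negSucc 175800959, .ofNat 64895520, .negSucc 10363199]),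
  (19519253, [.ofNat 0, .negSucc 37719359, .ofNat 108991920, .negSucc 108576959, .ofNat 40643760, .negSucc 6522719]),
  (19543395, [.ofNat 0, .ofNat 27573120, .negSucc 29960159, .ofNat 11844480, .negSucc 1482719, .negSucc 121919]),
  (19543404, [.ofNat 0, .ofNat 27164160, .negSucc 61714559, .ofNat 56004480, .negSucc 20092799, .ofNat 3169920]),
  (19543724, [.ofNat 0, .negSucc 27164159, .ofNat 61714560, .negSucc 56004479, .ofNat 20092800, .negSucc 3169919]),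
  (19543893, [.ofNat 0, .negSucc 2643839, .ofNat 50777760, .negSucc 64456319, .ofNat 26581920, .negSucc 4511039]),
  (19544403, [.ofNat 0, .negSucc 12072959, .ofNat 11500800, .negSucc 4001279, .ofNat 487680]),
  (19544741, [.ofNat 0, .negSucc 69119, .negSucc 16325759, .ofNat 23272320, .negSucc 9843839, .ofNat 1706880]),
  (19544789, [.ofNat 0, .negSucc 37719359, .ofNat 108991920, .negSucc 108576959, .ofNat 40643760, .negSucc 6522719]),
  (19552924, [.ofNat 0, .ofNat 27164160, .negSucc 61714559, .ofNat 56004480, .negSucc 20092799, .ofNat 3169920]),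
  (19572453, [.ofNat 0, .negSucc 7240319, .ofNat 23620320, .negSucc 24802559, .ofNat 9619680, .negSucc 1584959]),
  (19572523, [.ofNat 0, .ofNat 14670720, .negSucc 33780959, .ofNat 31224960, .negSucc 11409119, .ofNat 1828800]),
  (19572957, [.ofNat 0, .ofNat 9884160, .negSucc 74398079, .ofNat 89258880, .negSucc 36201599, .ofNat 6096000]),
  (19573021, [.ofNat 0, .ofNat 7240320, .negSucc 23620319, .ofNat 24802560, .negSucc 9619679, .ofNat 1584960]),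
  (19576597, [.ofNat 0, .ofNat 7240320, .negSucc 23620319, .ofNat 24802560, .negSucc 9619679, .ofNat 1584960]),
  (19576997, [.ofNat 0, .negSucc 69119, .negSucc 16325759, .ofNat 23272320, .negSucc 9843839, .ofNat 1706880]),
  (19577109, [.ofNat 0, .ofNat 7240320, .negSucc 23620319, .ofNat 24802560, .negSucc 9619679, .ofNat 1584960]),
  (19580629, [.ofNat 0, .negSucc 7240319, .ofNat 23620320, .negSucc 24802559, .ofNat 9619680, .negSucc 1584959]),
  (19580691, [.ofNat 0, .negSucc 39646079, .ofNat 41460960, .negSucc 15845759, .ofNat 1970400, .ofNat 121920]),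
  (19581141, [.ofNat 0, .negSucc 7240319, .ofNat 23620320, .negSucc 24802559, .ofNat 9619680, .negSucc 1584959]),
  (19581596, [.ofNat 0, .negSucc 16709759, .ofNat 34502880, .negSucc 30028799, .ofNat 10595040, .negSucc 1584959]),
  (21317477, [.ofNat 0, .negSucc 21245759, .negSucc 67958159, .ofNat 115886400, .negSucc 50920079, .ofNat 9326880]),
  (21318429, [.ofNat 0, .negSucc 7485119, .ofNat 122580240, .negSucc 157070399, .ofNat 66255120, .negSucc 11277599]),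
  (21321515, [.ofNat 0, .negSucc 37719359, .ofNat 108991920, .negSucc 108576959, .ofNat 40643760, .negSucc 6522719]),
  (21321571, [.ofNat 0, .ofNat 3064320, .negSucc 3830399, .ofNat 1777920, .negSucc 243839]),
  (21322076, [.ofNat 0, .negSucc 3496319, .negSucc 3500639, .ofNat 5946240, .negSucc 1523039, .ofNat 365760]),
  (21342437, [.ofNat 0, .ofNat 11557440, .negSucc 42701039, .ofNat 31560000, .negSucc 6935279, .ofNat 670560]),
  (21342557, [.ofNat 0, .ofNat 116472960, .negSucc 255161759, .ofNat 227832960, .negSucc 81355679, .ofNat 12801600]),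
  (21343004, [.ofNat 0, .negSucc 671039, .negSucc 4537679, .ofNat 6832320, .negSucc 2959439, .ofNat 548640]),
  (21346644, [.ofNat 0, .negSucc 6405119, .negSucc 69503999, .ofNat 98238720, .negSucc 41978879, .ofNat 7315200]),
  (21347093, [.ofNat 0, .ofNat 20491200, .negSucc 143243759, .ofNat 159537600, .negSucc 62740079, .ofNat 10180320]),
  (21347170, [.ofNat 0, .ofNat 53308800, .negSucc 97218719, .ofNat 79783680, .negSucc 27657119, .ofNat 4267200]),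
  (21349740, [.ofNat 0, .ofNat 66206880, .negSucc 180700439, .ofNat 176005920, .negSucc 65429399, .ofNat 10454640]),
  (21350739, [.ofNat 0, .ofNat 38407680, .negSucc 27302399, .negSucc 3703679, .ofNat 6673920, .negSucc 1706879]),
  (21351068, [.ofNat 0, .negSucc 671039, .negSucc 4537679, .ofNat 6832320, .negSucc 2959439, .ofNat 548640]),
  (21351125, [.ofNat 0, .ofNat 54524160, .negSucc 163448639, .ofNat 165292800, .negSucc 62272319, .ofNat 9997440]),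
  (21351189, [.ofNat 0, .ofNat 7001280, .ofNat 85916400, .negSucc 123802559, .ofNat 52158960, .negSucc 9204959]),
  (21351252, [.ofNat 0, .ofNat 66206880, .negSucc 180700439, .ofNat 176005920, .negSucc 65429399, .ofNat 10454640]),
  (21353763, [.ofNat 0, .negSucc 86826239, .ofNat 162991680, .negSucc 130396799, .ofNat 43233600, .negSucc 6339839]),
  (21354708, [.ofNat 0, .negSucc 8639, .ofNat 12295440, .negSucc 17135039, .ofNat 7230480, .negSucc 1280159]),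
  (21354722, [.ofNat 0, .negSucc 783359, .ofNat 645120]),
  (21354773, [.ofNat 0, .negSucc 11543039, .ofNat 75619200, .negSucc 89120639, .ofNat 36201600, .negSucc 6095999]),
  (21355283, [.ofNat 0, .ofNat 12000960, .negSucc 27107279, .ofNat 27504960, .negSucc 10061519, .ofNat 1767840]),
  (21374749, [.ofNat 0, .ofNat 7528320, .negSucc 216792479, .ofNat 287333760, .negSucc 118350239, .ofNat 20604480]),
  (21375787, [.ofNat 0, .negSucc 10578239, .negSucc 19610639, .ofNat 36578880, .negSucc 16342799, .ofNat 2987040]),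
  (21378411, [.ofNat 0, .ofNat 76237920, .negSucc 194908199, .ofNat 186190560, .negSucc 67786919, .ofNat 10759440]),
  (21379229, [.ofNat 0, .ofNat 56603520, .negSucc 137551199, .ofNat 131293440, .negSucc 49073759, .ofNat 7924800]),
  (21379306, [.ofNat 0, .negSucc 14486399, .ofNat 36663840, .negSucc 33267839, .ofNat 14096160, .negSucc 2072639]),
  (21379418, [.ofNat 0, .negSucc 22487039, .ofNat 204272640, .negSucc 241491839, .ofNat 94410240, .negSucc 15849599]),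
  (21379797, [.ofNat 0, .ofNat 95316480, .negSucc 183375359, .ofNat 154329600, .negSucc 53299199, .ofNat 8290560]),
  (21382507, [.ofNat 0, .ofNat 4953600, .ofNat 33143040, .negSucc 48332159, .ofNat 20989440, .negSucc 3657599]),
  (21382995, [.ofNat 0, .ofNat 114668640, .negSucc 264911399, .ofNat 237769440, .negSucc 85485479, .ofNat 13197840]),
  (21383893, [.ofNat 0, .ofNat 4838400, .negSucc 18424319, .ofNat 19297920, .negSucc 7484159, .ofNat 1219200]),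
  (21383898, [.ofNat 0, .negSucc 7050239, .negSucc 16001279, .ofNat 26647680, .negSucc 12203519, .ofNat 2194560]),
  (21386964, [.ofNat 0, .negSucc 19673279, .ofNat 19014480, .negSucc 6772799, .ofNat 517200, .ofNat 182880]),
  (21386965, [.ofNat 0, .ofNat 34758720, .negSucc 110938319, .ofNat 111971520, .negSucc 42810959, .ofNat 6888480]),
  (21387027, [.ofNat 0, .negSucc 62732159, .ofNat 113652960, .negSucc 88199039, .ofNat 29303520, .negSucc 4267199]),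
  (21387034, [.ofNat 0, .ofNat 7528320, .negSucc 216792479, .ofNat 287333760, .negSucc 118350239, .ofNat 20604480]),
  (21387610, [.ofNat 0, .ofNat 17749440, .ofNat 64457520, .negSucc 109940159, .ofNat 49397040, .negSucc 8961119]),
  (21387994, [.ofNat 0, .ofNat 36397440, .negSucc 98914079, .ofNat 98659200, .negSucc 37013279, .ofNat 5974080]),
  (21412138, [.ofNat 0, .ofNat 58544640, .negSucc 106786559, .ofNat 87960960, .negSucc 30097919, .ofNat 4632960]),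
  (21412578, [.ofNat 0, .ofNat 3064320, .negSucc 3830399, .ofNat 1777920, .negSucc 243839]),
  (21415636, [.ofNat 0, .negSucc 8501759, .negSucc 6157439, .ofNat 17064960, .negSucc 8054399, .ofNat 1463040]),
  (21416154, [.ofNat 0, .ofNat 18656640, .negSucc 84610079, .ofNat 93563520, .negSucc 36587039, .ofNat 5974080]),
  (21416170, [.ofNat 0, .ofNat 14734080, .negSucc 71807039, .ofNat 81171840, .negSucc 32174399, .ofNat 5364480]),
  (21416674, [.ofNat 0, .ofNat 67207680, .negSucc 65373119, .ofNat 19975680, .negSucc 849599, .negSucc 731519]),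
  (21420314, [.ofNat 0, .negSucc 18656639, .ofNat 84610080, .negSucc 93563519, .ofNat 36587040, .negSucc 5974079]),
  (21608780, [.ofNat 0, .ofNat 1658880, .negSucc 1221119, .negSucc 138239]),
  (21611363, [.ofNat 0, .ofNat 27164160, .negSucc 61714559, .ofNat 56004480, .negSucc 20092799, .ofNat 3169920]),
  (21612140, [.ofNat 0, .negSucc 58127039, .ofNat 108563280, .negSucc 86512319, .ofNat 29152080, .negSucc 4450079]),
  (21612875, [.ofNat 0, .ofNat 27164160, .negSucc 61714559, .ofNat 56004480, .negSucc 20092799, .ofNat 3169920]),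
  (21613163, [.ofNat 0, .ofNat 4584960, .negSucc 71410559, .ofNat 88306560, .negSucc 36201599, .ofNat 6096000]),
  (21613387, [.ofNat 0, .ofNat 27164160, .negSucc 61714559, .ofNat 56004480, .negSucc 20092799, .ofNat 3169920]),
  (21615459, [.ofNat 0, .ofNat 7027200, .negSucc 73276799, .ofNat 88168320, .negSucc 36201599, .ofNat 6096000]),
  (21616732, [.ofNat 0, .negSucc 20105279, .ofNat 53877360, .negSucc 54749759, .ofNat 20346480, .negSucc 3108959]),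
  (21616733, [.ofNat 0, .ofNat 76237920, .negSucc 194908199, .ofNat 186190560, .negSucc 67786919, .ofNat 10759440])]

/-- data -/
def lV4x1 : List (ℕ × List ℤ) := [(21616739, [.ofNat 0, .negSucc 57078719, .ofNat 199261680, .negSucc 198914879, .ofNat 74778480, .negSucc 11887199]),
  (21616925, [.ofNat 0, .ofNat 4953600, .ofNat 33143040, .negSucc 48332159, .ofNat 20989440, .negSucc 3657599]),
  (21617419, [.ofNat 0, .ofNat 32359680, .negSucc 20408639, .negSucc 3847679, .ofNat 5411520, .negSucc 1219199]),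
  (21639916, [.ofNat 0, .ofNat 11741760, .ofNat 3148560, .negSucc 15547199, .ofNat 8044560, .negSucc 1523999]),
  (21640035, [.ofNat 0, .ofNat 81656640, .negSucc 113071919, .ofNat 68320320, .negSucc 18104879, .ofNat 1889760]),
  (21641547, [.ofNat 0, .ofNat 81656640, .negSucc 113071919, .ofNat 68320320, .negSucc 18104879, .ofNat 1889760]),
  (21641827, [.ofNat 0, .ofNat 66206880, .negSucc 180700439, .ofNat 176005920, .negSucc 65429399, .ofNat 10454640]),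
  (21641829, [.ofNat 0, .ofNat 26314560, .ofNat 40481040, .negSucc 82063679, .ofNat 37658640, .negSucc 6888479]),
  (21641835, [.ofNat 0, .negSucc 16341119, .ofNat 14342880, .negSucc 3048959, .negSucc 794399, .ofNat 365760]),
  (21646029, [.ofNat 0, .negSucc 16980479, .ofNat 13451520, .negSucc 1292159, .negSucc 814079, .ofNat 243840]),
  (21648988, [.ofNat 0, .ofNat 6903360, .ofNat 21572880, .negSucc 34845119, .ofNat 15528720, .negSucc 2743199]),
  (21649101, [.ofNat 0, .negSucc 40777919, .ofNat 70611600, .negSucc 58468799, .ofNat 19186320, .negSucc 2743199]),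
  (21665579, [.ofNat 0, .ofNat 56774880, .negSucc 60995399, .ofNat 28545120, .negSucc 5192519, .ofNat 396240]),
  (21665635, [.ofNat 0, .ofNat 45004320, .negSucc 58938359, .ofNat 40185120, .negSucc 11345399, .ofNat 1554480]),
  (21666028, [.ofNat 0, .negSucc 47944799, .ofNat 148444200, .negSucc 154043999, .ofNat 58968360, .negSucc 9784079]),
  (21672747, [.ofNat 0, .ofNat 26622720, .negSucc 88046399, .ofNat 94513920, .negSucc 36352319, .ofNat 6096000]),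
  (21672803, [.ofNat 0, .ofNat 59251680, .negSucc 82279559, .ofNat 54253920, .negSucc 15889799, .ofNat 2103120]),
  (21674085, [.ofNat 0, .negSucc 3317759, .ofNat 91837440, .negSucc 121090559, .ofNat 50764800, .negSucc 8778239]),
  (21674092, [.ofNat 0, .negSucc 47944799, .ofNat 148444200, .negSucc 154043999, .ofNat 58968360, .negSucc 9784079]),
  (21674251, [.ofNat 0, .ofNat 25706880, .negSucc 68608799, .ofNat 66915840, .negSucc 24383519, .ofNat 3779520]),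
  (21674763, [.ofNat 0, .ofNat 26622720, .negSucc 88046399, .ofNat 94513920, .negSucc 36352319, .ofNat 6096000]),
  (21677675, [.ofNat 0, .ofNat 99456480, .negSucc 201406919, .ofNat 169799520, .negSucc 58725959, .ofNat 8930640]),
  (21677773, [.ofNat 0, .ofNat 25706880, .negSucc 68608799, .ofNat 66915840, .negSucc 24383519, .ofNat 3779520]),
  (21677899, [.ofNat 0, .ofNat 27164160, .negSucc 61714559, .ofNat 56004480, .negSucc 20092799, .ofNat 3169920]),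
  (21678796, [.ofNat 0, .ofNat 86826240, .negSucc 162991679, .ofNat 130396800, .negSucc 43233599, .ofNat 6339840]),
  (21805740, [.ofNat 0, .ofNat 56629440, .negSucc 84983759, .ofNat 56554560, .negSucc 17192399, .ofNat 2255520]),
  (21808427, [.ofNat 0, .ofNat 25151040, .negSucc 189583279, .ofNat 224909120, .negSucc 89232559, .ofNat 15057120]),
  (21808476, [.ofNat 0, .negSucc 16611839, .ofNat 56363520, .negSucc 58784639, .ofNat 22452480, .negSucc 3657599]),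
  (21808938, [.ofNat 0, .negSucc 28540799, .ofNat 18850080, .ofNat 5472000, .negSucc 6205919, .ofNat 1584960]),
  (21808980, [.ofNat 0, .negSucc 16894079, .ofNat 10227360, .ofNat 3561600, .negSucc 3519839, .ofNat 853440]),
  (21809386, [.ofNat 0, .ofNat 27164160, .negSucc 61714559, .ofNat 56004480, .negSucc 20092799, .ofNat 3169920]),
  (21809491, [.ofNat 0, .ofNat 12000960, .negSucc 27107279, .ofNat 27504960, .negSucc 10061519, .ofNat 1767840]),
  (21809498, [.ofNat 0, .negSucc 783359, .ofNat 645120]),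
  (21809827, [.ofNat 0, .negSucc 9279359, .negSucc 1108319, .ofNat 11558400, .negSucc 5796959, .ofNat 1097280]),
  (21809835, [.ofNat 0, .ofNat 15759360, .ofNat 55056000, .negSucc 90729599, .ofNat 39457920, .negSucc 7071359]),
  (21809898, [.ofNat 0, .ofNat 47442240, .negSucc 212497199, .ofNat 240696000, .negSucc 94743599, .ofNat 15788640]),
  (21809963, [.ofNat 0, .negSucc 37719359, .ofNat 108991920, .negSucc 108576959, .ofNat 40643760, .negSucc 6522719]),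
  (21810004, [.ofNat 0, .ofNat 46219680, .negSucc 101188439, .ofNat 86100000, .negSucc 29679959, .ofNat 4114800]),
  (21810010, [.ofNat 0, .negSucc 17124479, .ofNat 14988000, .negSucc 3048959, .negSucc 794399, .ofNat 365760]),
  (21812509, [.ofNat 0, .negSucc 27827999, .ofNat 113724600, .negSucc 125411999, .ofNat 48734520, .negSucc 8138159]),
  (21812579, [.ofNat 0, .ofNat 2471040, .negSucc 118880159, .ofNat 159121920, .negSucc 65795999, .ofNat 11582400]),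
  (21812901, [.ofNat 0, .negSucc 21637439, .ofNat 43303920, .negSucc 36427199, .ofNat 12618480, .negSucc 1889759]),
  (21812908, [.ofNat 0, .negSucc 67835519, .ofNat 86201760, .negSucc 48111359, .ofNat 12585120, .negSucc 1341119]),
  (21813405, [.ofNat 0, .negSucc 45230399, .ofNat 181666800, .negSucc 198899519, .ofNat 77537520, .negSucc 12862559]),
  (21813411, [.ofNat 0, .ofNat 222442560, .negSucc 650660399, .ofNat 646043040, .negSucc 229651439, .ofNat 36454080]),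
  (21813482, [.ofNat 0, .ofNat 14929920, .negSucc 48211199, .ofNat 50632320, .negSucc 19361279, .ofNat 3169920]),
  (21813484, [.ofNat 0, .ofNat 2211840, .ofNat 165120, .negSucc 2666879, .ofNat 1301760, .negSucc 243839]),
  (21813596, [.ofNat 0, .ofNat 1062720, .negSucc 626159, .negSucc 601919, .ofNat 234000, .negSucc 60959]),
  (21813986, [.ofNat 0, .negSucc 6168959, .ofNat 4057440, .ofNat 170880, .negSucc 711839, .ofNat 121920]),
  (21814035, [.ofNat 0, .ofNat 38407680, .negSucc 27302399, .negSucc 3703679, .ofNat 6673920, .negSucc 1706879]),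
  (21842637, [.ofNat 0, .negSucc 17343359, .ofNat 9051360, .ofNat 3613440, .negSucc 3397919, .ofNat 853440]),
  (21844765, [.ofNat 0, .ofNat 1359360, .ofNat 4160640, .negSucc 6627839, .ofNat 2847360, .negSucc 487679]),
  (21846108, [.ofNat 0, .ofNat 69079680, .negSucc 253220639, .ofNat 274128000, .negSucc 107477279, .ofNat 17678400]),
  (21846364, [.ofNat 0, .negSucc 1676159, .ofNat 36126240, .negSucc 53182079, .ofNat 25067040, .negSucc 4511039]),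
  (21873492, [.ofNat 0, .ofNat 27518400, .negSucc 6245519, .negSucc 21721919, .ofNat 12378480, .negSucc 2621279]),
  (21873772, [.ofNat 0, .ofNat 30179520, .negSucc 46203599, .ofNat 30507840, .negSucc 9059279, .ofNat 1280160]),
  (21875284, [.ofNat 0, .negSucc 2442239, .ofNat 1866240, .ofNat 138240]),
  (21877525, [.ofNat 0, .ofNat 91543680, .negSucc 164064479, .ofNat 130504320, .negSucc 43131359, .ofNat 6217920]),
  (21878890, [.ofNat 0, .negSucc 9492479, .ofNat 8505600, .negSucc 4116479, .ofNat 487680]),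
  (21879050, [.ofNat 0, .negSucc 7050239, .negSucc 16001279, .ofNat 26647680, .negSucc 12203519, .ofNat 2194560]),
  (21879394, [.ofNat 0, .negSucc 2995199, .negSucc 92248319, .ofNat 126777600, .negSucc 53855999, .ofNat 9265920]),
  (21879562, [.negSucc 29099519, .ofNat 17247360, .ofNat 147513600, .negSucc 212672639, .ofNat 89652480, .negSucc 15605759]),
  (21894429, [.ofNat 0, .ofNat 90495360, .negSucc 217092959, .ofNat 197585280, .negSucc 71361119, .ofNat 11094720]),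
  (21894996, [.ofNat 0, .negSucc 30458879, .ofNat 27093120, .negSucc 5850239, .negSucc 1223039, .ofNat 731520]),
  (21895339, [.ofNat 0, .ofNat 15664320, .negSucc 47258639, .ofNat 48313920, .negSucc 18293519, .ofNat 2987040]),
  (21895845, [.ofNat 0, .ofNat 4129920, .ofNat 24913440, .negSucc 35988479, .ofNat 15275040, .negSucc 2804159]),
  (21895906, [.ofNat 0, .negSucc 85227839, .ofNat 222314160, .negSucc 215616959, .ofNat 80341680, .negSucc 12862559]),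
  (21896028, [.ofNat 0, .negSucc 8180639, .ofNat 43518360, .negSucc 47579039, .ofNat 18089880, .negSucc 2651759]),
  (21898013, [.ofNat 0, .ofNat 90495360, .negSucc 217092959, .ofNat 197585280, .negSucc 71361119, .ofNat 11094720]),
  (21899595, [.ofNat 0, .ofNat 231128640, .negSucc 764601839, .ofNat 792312480, .negSucc 289406639, .ofNat 46939200]),
  (21899877, [.ofNat 0, .ofNat 34237440, .negSucc 42524159, .ofNat 23915520, .negSucc 6017279, .ofNat 487680]),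
  (21899980, [.ofNat 0, .negSucc 28347839, .ofNat 18309840, .ofNat 5290560, .negSucc 5747759, .ofNat 1402080]),
  (21900045, [.ofNat 0, .ofNat 1359360, .negSucc 15515519, .ofNat 20605440, .negSucc 8542079, .ofNat 1463040]),
  (21900108, [.ofNat 0, .negSucc 2185919, .negSucc 39491759, .ofNat 58182720, .negSucc 24538799, .ofNat 4328160]),
  (21902122, [.ofNat 0, .negSucc 1359359, .negSucc 4160639, .ofNat 6627840, .negSucc 2847359, .ofNat 487680]),
  (21903956, [.ofNat 0, .ofNat 671040, .ofNat 2245200, .negSucc 3977279, .ofNat 1369680, .negSucc 304799]),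
  (21903970, [.ofNat 0, .negSucc 60076799, .ofNat 32730880, .ofNat 9292160, .negSucc 8890879, .ofNat 2194560]),
  (21908075, [.ofNat 0, .negSucc 24119999, .ofNat 54227280, .negSucc 47434559, .ofNat 17113680, .negSucc 2743199]),
  (21908170, [.ofNat 0, .negSucc 43810559, .ofNat 34979520, .negSucc 6789119, .negSucc 2076479, .ofNat 731520]),
  (21908173, [.ofNat 0, .negSucc 15530399, .negSucc 25798439, .ofNat 52410720, .negSucc 23125799, .ofNat 3931920]),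
  (21908299, [.ofNat 0, .negSucc 8478719, .ofNat 18744960, .negSucc 16571519, .ofNat 5124480, .negSucc 731519]),
  (21910356, [.ofNat 0, .ofNat 111571200, .negSucc 307424639, .ofNat 305568960, .negSucc 115061759, .ofNat 18653760]),
  (21910797, [.ofNat 0, .negSucc 32670719, .ofNat 26928000, .negSucc 3183359, .negSucc 2524799, .ofNat 975360]),
  (21910859, [.ofNat 0, .ofNat 23716800, .negSucc 50921999, .ofNat 43235520, .negSucc 14875919, .ofNat 2255520]),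
  (21910860, [.ofNat 0, .negSucc 16822079, .negSucc 67627919, .ofNat 110552640, .negSucc 48316559, .ofNat 8839200]),
  (21911124, [.ofNat 0, .negSucc 8639, .ofNat 12295440, .negSucc 17135039, .ofNat 7230480, .negSucc 1280159]),
  (21911125, [.ofNat 0, .negSucc 14515199, .ofNat 48049920, .negSucc 50378879, .ofNat 19361280, .negSucc 3169919]),
  (21911146, [.ofNat 0, .negSucc 28347839, .ofNat 18309840, .ofNat 5290560, .negSucc 5747759, .ofNat 1402080]),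
  (21911372, [.ofNat 0, .ofNat 26398080, .negSucc 121965599, .ofNat 138140160, .negSucc 54485279, .ofNat 9144000]),
  (21912148, [.ofNat 0, .negSucc 2442239, .ofNat 1866240, .ofNat 138240]),
  (21912156, [.ofNat 0, .negSucc 27164159, .ofNat 61714560, .negSucc 56004479, .ofNat 20092800, .negSucc 3169919]),
  (21912162, [.ofNat 0, .negSucc 15530399, .negSucc 25798439, .ofNat 52410720, .negSucc 23125799, .ofNat 3931920]),
  (21912163, [.ofNat 0, .ofNat 58127040, .negSucc 108563279, .ofNat 86512320, .negSucc 29152079, .ofNat 4450080]),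
  (21927589, [.ofNat 0, .ofNat 23592960, .negSucc 138362879, .ofNat 162472320, .negSucc 64919039, .ofNat 10972800]),
  (21927596, [.ofNat 0, .negSucc 67835519, .ofNat 86201760, .negSucc 48111359, .ofNat 12585120, .negSucc 1341119]),
  (21927701, [.ofNat 0, .negSucc 14911199, .negSucc 1291319, .ofNat 22728480, .negSucc 12196919, .ofNat 2286000]),
  (21927722, [.ofNat 0, .ofNat 2096640, .negSucc 8313599, .ofNat 8405760, .negSucc 3091199, .ofNat 487680]),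
  (21928108, [.ofNat 0, .negSucc 15328799, .ofNat 49937400, .negSucc 48151199, .ofNat 18130680, .negSucc 2773679]),
  (21928170, [.ofNat 0, .ofNat 691200, .ofNat 63523200, .negSucc 87352319, .ofNat 36528000, .negSucc 6339839]),
  (21928234, [.ofNat 0, .negSucc 46219679, .ofNat 101188440, .negSucc 86099999, .ofNat 29679960, .negSucc 4114799])]

/-- data -/
def lV4x2 : List (ℕ × List ℤ) := [(21928235, [.ofNat 0, .negSucc 1497599, .negSucc 46124159, .ofNat 63388800, .negSucc 26927999, .ofNat 4632960]),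
  (21928284, [.ofNat 0, .negSucc 10514879, .ofNat 11856720, .negSucc 3577919, .ofNat 29520, .ofNat 182880]),
  (21932124, [.ofNat 0, .ofNat 207360, .negSucc 80639, .ofNat 126720]),
  (21932811, [.ofNat 0, .ofNat 15759360, .ofNat 55056000, .negSucc 90729599, .ofNat 39457920, .negSucc 7071359]),
  (21936213, [.ofNat 0, .negSucc 5725439, .ofNat 53633120, .negSucc 75090559, .ofNat 24842720, .negSucc 4389119]),
  (21936460, [.ofNat 0, .negSucc 593279, .negSucc 115049759, .ofNat 157827840, .negSucc 65552159, .ofNat 11582400]),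
  (21936738, [.ofNat 0, .negSucc 48133439, .ofNat 148974000, .negSucc 153343679, .ofNat 58215600, .negSucc 9448799]),
  (21938963, [.ofNat 0, .ofNat 45069120, .negSucc 86195279, .ofNat 68280000, .negSucc 23213519, .ofNat 3474720]),
  (21939027, [.ofNat 0, .negSucc 62732159, .ofNat 113652960, .negSucc 88199039, .ofNat 29303520, .negSucc 4267199]),
  (21939036, [.ofNat 0, .negSucc 4219199, .negSucc 24755279, .ofNat 40560960, .negSucc 17766479, .ofNat 3230880]),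
  (21939405, [.ofNat 0, .negSucc 17343359, .ofNat 9051360, .ofNat 3613440, .negSucc 3397919, .ofNat 853440]),
  (21939469, [.ofNat 0, .ofNat 10483200, .negSucc 20115839, .ofNat 23310720, .negSucc 9805439, .ofNat 1706880]),
  (21939532, [.ofNat 0, .ofNat 7143840, .negSucc 14955479, .ofNat 17275680, .negSucc 7375319, .ofNat 1188720]),
  (21939797, [.ofNat 0, .negSucc 30179519, .ofNat 95308560, .negSucc 98692799, .ofNat 37654800, .negSucc 6156959]),
  (21939978, [.ofNat 0, .negSucc 43761599, .ofNat 146306640, .negSucc 148593599, .ofNat 52983120, .negSucc 8839199]),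
  (21940044, [.ofNat 0, .negSucc 9368639, .ofNat 10646640, .negSucc 4175039, .ofNat 497520, .ofNat 60960]),
  (21940314, [.ofNat 0, .negSucc 783359, .ofNat 645120]),
  (21943059, [.ofNat 0, .ofNat 114668640, .negSucc 264911399, .ofNat 237769440, .negSucc 85485479, .ofNat 13197840]),
  (21944412, [.ofNat 0, .negSucc 84229919, .ofNat 183485880, .negSucc 168441119, .ofNat 60521400, .negSucc 9601199]),
  (21944419, [.ofNat 0, .ofNat 13040640, .negSucc 29495039, .ofNat 25731840, .negSucc 9273599, .ofNat 1463040]),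
  (22066475, [.ofNat 0, .negSucc 624959, .ofNat 38382960, .negSucc 50890559, .ofNat 20999280, .negSucc 3596639]),
  (22066524, [.ofNat 0, .negSucc 16819199, .ofNat 56444160, .negSucc 58911359, .ofNat 22452480, .negSucc 3657599]),
  (22066860, [.ofNat 0, .negSucc 9492479, .ofNat 8505600, .negSucc 4116479, .ofNat 487680]),
  (22067539, [.ofNat 0, .negSucc 9463679, .ofNat 14337120, .negSucc 9479039, .ofNat 2867040, .negSucc 365759]),
  (22067869, [.ofNat 0, .ofNat 2211840, .ofNat 165120, .negSucc 2666879, .ofNat 1301760, .negSucc 243839]),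
  (22067925, [.ofNat 0, .ofNat 112633920, .negSucc 308050799, .ofNat 304967040, .negSucc 114827759, .ofNat 18592800]),
  (22068010, [.ofNat 0, .ofNat 56874240, .negSucc 18966719, .negSucc 35759999, .ofNat 22255680, .negSucc 4876799]),
  (22074604, [.ofNat 0, .negSucc 7143839, .ofNat 14955480, .negSucc 17275679, .ofNat 7375320, .negSucc 1188719]),
  (22075045, [.ofNat 0, .negSucc 24387839, .ofNat 39336000, .negSucc 26478719, .ofNat 7767360, .negSucc 975359]),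
  (22075092, [.ofNat 0, .negSucc 17124479, .ofNat 14988000, .negSucc 3048959, .negSucc 794399, .ofNat 365760]),
  (22075093, [.ofNat 0, .ofNat 91543680, .negSucc 164064479, .ofNat 130504320, .negSucc 43131359, .ofNat 6217920]),
  (22075226, [.ofNat 0, .negSucc 85852799, .ofNat 257965920, .negSucc 261920639, .ofNat 98859360, .negSucc 15971519]),
  (22075605, [.ofNat 0, .negSucc 1941119, .ofNat 12670560, .negSucc 15359999, .ofNat 6284640, .negSucc 1097279]),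
  (22092636, [.ofNat 0, .ofNat 16341120, .negSucc 14342879, .ofNat 3048960, .ofNat 794400, .negSucc 365759]),
  (22099788, [.ofNat 0, .negSucc 17124479, .ofNat 14988000, .negSucc 3048959, .negSucc 794399, .ofNat 365760]),
  (22100299, [.ofNat 0, .ofNat 26398080, .negSucc 121965599, .ofNat 138140160, .negSucc 54485279, .ofNat 9144000]),
  (22100572, [.ofNat 0, .negSucc 16709759, .ofNat 34502880, .negSucc 30028799, .ofNat 10595040, .negSucc 1584959]),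
  (22100581, [.ofNat 0, .ofNat 23172480, .negSucc 91521119, .ofNat 104248320, .negSucc 41366879, .ofNat 6949440]),
  (22100749, [.ofNat 0, .negSucc 1895039, .negSucc 42299039, .ofNat 52483200, .negSucc 20925599, .ofNat 3535680]),
  (22106860, [.ofNat 0, .negSucc 85852799, .ofNat 257965920, .negSucc 261920639, .ofNat 98859360, .negSucc 15971519]),
  (22106972, [.ofNat 0, .negSucc 67357439, .ofNat 177033920, .negSucc 178444159, .ofNat 60643520, .negSucc 9875519]),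
  (22108764, [.ofNat 0, .negSucc 34758719, .ofNat 110938320, .negSucc 111971519, .ofNat 42810960, .negSucc 6888479]),
  (22124883, [.ofNat 0, .negSucc 97184159, .ofNat 194324760, .negSucc 164460959, .ofNat 57292440, .negSucc 8747759]),
  (22125213, [.ofNat 0, .ofNat 97184160, .negSucc 194324759, .ofNat 164460960, .negSucc 57292439, .ofNat 8747760]),
  (22125268, [.ofNat 0, .negSucc 16709759, .ofNat 34502880, .negSucc 30028799, .ofNat 10595040, .negSucc 1584959]),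
  (22125269, [.ofNat 0, .negSucc 10514879, .ofNat 11856720, .negSucc 3577919, .ofNat 29520, .ofNat 182880]),
  (22125395, [.ofNat 0, .negSucc 4746239, .ofNat 4252800, .negSucc 2058239, .ofNat 243840]),
  (22128460, [.ofNat 0, .ofNat 69079680, .negSucc 253220639, .ofNat 274128000, .negSucc 107477279, .ofNat 17678400]),
  (22128971, [.ofNat 0, .negSucc 9368639, .ofNat 10646640, .negSucc 4175039, .ofNat 497520, .ofNat 60960]),
  (22129253, [.ofNat 0, .ofNat 5526720, .ofNat 5430000, .negSucc 11037119, .ofNat 4973040, .negSucc 914399]),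
  (22129421, [.ofNat 0, .ofNat 44199360, .negSucc 132529679, .ofNat 135247680, .negSucc 51321359, .ofNat 8351520]),
  (22137451, [.ofNat 0, .ofNat 671040, .ofNat 2245200, .negSucc 3977279, .ofNat 1369680, .negSucc 304799]),
  (22137546, [.ofNat 0, .ofNat 21312000, .negSucc 116044799, .ofNat 139449600, .negSucc 58498559, .ofNat 9753600]),
  (22139605, [.ofNat 0, .ofNat 3440160, .negSucc 74388599, .ofNat 98933280, .negSucc 40967159, .ofNat 7162800]),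
  (22139690, [.ofNat 0, .negSucc 24387839, .ofNat 39336000, .negSucc 26478719, .ofNat 7767360, .negSucc 975359]),
  (22139691, [.ofNat 0, .ofNat 5198400, .negSucc 7695599, .ofNat 5248320, .negSucc 1555439, .ofNat 182880]),
  (22140005, [.ofNat 0, .negSucc 1359359, .ofNat 15515520, .negSucc 20605439, .ofNat 8542080, .negSucc 1463039]),
  (22141035, [.ofNat 0, .ofNat 3839040, .ofNat 7819920, .negSucc 15357119, .ofNat 6986640, .negSucc 1280159]),
  (22141085, [.ofNat 0, .ofNat 47285280, .negSucc 92413559, .ofNat 75417120, .negSucc 25668599, .ofNat 3749040]),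
  (22141530, [.ofNat 0, .ofNat 20145600, .ofNat 44538480, .negSucc 81892799, .ofNat 36946800, .negSucc 6766559]),
  (22158037, [.ofNat 0, .ofNat 64126080, .negSucc 110645279, .ofNat 85079040, .negSucc 27797279, .ofNat 3779520]),
  (22158170, [.ofNat 0, .negSucc 8418239, .ofNat 50202960, .negSucc 62316479, .ofNat 24597840, .negSucc 3962399]),
  (22164811, [.ofNat 0, .ofNat 43198560, .negSucc 144191399, .ofNat 151985760, .negSucc 58724519, .ofNat 9784080]),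
  (22173291, [.ofNat 0, .ofNat 17124480, .negSucc 14987999, .ofNat 3048960, .ofNat 794400, .negSucc 365759]),
  (22189731, [.ofNat 0, .negSucc 39962879, .ofNat 74839680, .negSucc 59059199, .ofNat 19766400, .negSucc 2926079]),
  (22190237, [.ofNat 0, .negSucc 9279359, .negSucc 1108319, .ofNat 11558400, .negSucc 5796959, .ofNat 1097280]),
  (22190293, [.ofNat 0, .negSucc 9561599, .negSucc 47244479, .ofNat 73904640, .negSucc 31769279, .ofNat 5608320]),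
  (22192939, [.ofNat 0, .negSucc 47285279, .ofNat 92413560, .negSucc 75417119, .ofNat 25668600, .negSucc 3749039]),
  (22193765, [.ofNat 0, .negSucc 1359359, .ofNat 15515520, .negSucc 20605439, .ofNat 8542080, .negSucc 1463039]),
  (22193933, [.ofNat 0, .negSucc 9717119, .negSucc 51601439, .ofNat 80858880, .negSucc 34962719, .ofNat 6217920]),
  (22197011, [.ofNat 0, .ofNat 624960, .negSucc 38382959, .ofNat 50890560, .negSucc 20999279, .ofNat 3596640]),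
  (22197034, [.ofNat 0, .ofNat 15664320, .negSucc 47258639, .ofNat 48313920, .negSucc 18293519, .ofNat 2987040]),
  (22197845, [.ofNat 0, .negSucc 36587519, .ofNat 56017920, .negSucc 39377279, .ofNat 12038400, .negSucc 1706879]),
  (22198874, [.ofNat 0, .ofNat 47560320, .negSucc 130857119, .ofNat 130727040, .negSucc 49134239, .ofNat 7924800]),
  (22201963, [.ofNat 0, .negSucc 47442239, .ofNat 212497200, .negSucc 240695999, .ofNat 94743600, .negSucc 15788639]),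
  (22206042, [.ofNat 0, .ofNat 19673280, .negSucc 19014479, .ofNat 6772800, .negSucc 517199, .negSucc 182879]),
  (22206154, [.negSucc 29099519, .ofNat 34158720, .ofNat 149208960, .negSucc 231548159, .ofNat 99008640, .negSucc 17312639]),
  (22329186, [.ofNat 0, .negSucc 15719039, .ofNat 49877280, .negSucc 52051199, .ofNat 19829280, .negSucc 3291839]),
  (22329619, [.ofNat 0, .negSucc 47944799, .ofNat 148444200, .negSucc 154043999, .ofNat 58968360, .negSucc 9784079]),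
  (22332652, [.ofNat 0, .negSucc 4883039, .ofNat 12039720, .negSucc 14747999, .ofNat 6429480, .negSucc 1005839]),
  (22333085, [.ofNat 0, .ofNat 28540800, .negSucc 18850079, .negSucc 5471999, .ofNat 6205920, .negSucc 1584959]),
  (22334115, [.ofNat 0, .negSucc 80533439, .ofNat 135903120, .negSucc 102041279, .ofNat 33501840, .negSucc 4693919]),
  (22361701, [.ofNat 0, .negSucc 73787039, .ofNat 186873240, .negSucc 178252319, .ofNat 65673240, .negSucc 10454639]),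
  (22362443, [.ofNat 0, .negSucc 21245759, .negSucc 67958159, .ofNat 115886400, .negSucc 50920079, .ofNat 9326880]),
  (22386986, [.ofNat 0, .negSucc 8180639, .ofNat 43518360, .negSucc 47579039, .ofNat 18089880, .negSucc 2651759]),
  (22387475, [.ofNat 0, .ofNat 5865120, .negSucc 35600279, .ofNat 38672160, .negSucc 15263639, .ofNat 2407920]),
  (22393698, [.ofNat 0, .ofNat 783360, .negSucc 645119]),
  (22394125, [.ofNat 0, .ofNat 114850080, .negSucc 261064439, .ofNat 237444000, .negSucc 84971639, .ofNat 13258800]),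
  (22398053, [.ofNat 0, .negSucc 1359359, .ofNat 15515520, .negSucc 20605439, .ofNat 8542080, .negSucc 1463039]),
  (22398188, [.ofNat 0, .negSucc 80533439, .ofNat 135903120, .negSucc 102041279, .ofNat 33501840, .negSucc 4693919]),
  (22399578, [.ofNat 0, .ofNat 14929920, .negSucc 48211199, .ofNat 50632320, .negSucc 19361279, .ofNat 3169920]),
  (22419157, [.ofNat 0, .negSucc 7580159, .ofNat 6172800, .negSucc 2246399, .ofNat 243840]),
  (22427220, [.ofNat 0, .negSucc 9722879, .ofNat 22333440, .negSucc 22851839, .ofNat 8785920, .negSucc 1463039])]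

/-- the sum of the part -/
def lV4 : List (ℕ × List ℤ) := lV4x0 ++ (lV4x1 ++ (lV4x2))

theorem okV4 : dV4.all (rok tbF 20) = true := by decide +kernel

theorem sumV4 : aeq (fz (sumT tbF dV4)) lV4 = true := by decide +kernel

end Pool.Agent.H.MP_e16c79_al.IS
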