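import Pool.Agent.H.MP_e16c79_al.IS.BTabE

/-!
# MP_e16c79_al: certificate V, part 5
-/

set_option autoImplicit false

namespace Pool.Agent.H.MP_e16c79_al.IS

/-- data -/
def dV5x0 : RT := (.nd (.nd (.nd (.lf ⟨[.negSucc 516959, .negSucc 2825879, .ofNat 5727360, .negSucc 3015959, .ofNat 518160], (.tr (.dx 0 (.tw (.lf 5) (.lf 6))) (.lf 9) (.tr (.lf 10) (.lf 13) (.tr (.lf 17) (.lf 14) (.lf 18)))), 0, [39, 39, 0, 0, 39, 39, 0, 0], []⟩)
    (.lf ⟨[.negSucc 14424479, .ofNat 42495960, .negSucc 44506559, .ofNat 16987800, .negSucc 2834639], (.tr (.dx 0 (.tw (.lf 5) (.lf 6))) (.tr (.lf 9) (.tr (.lf 17) (.lf 13) (.lf 18)) (.lf 14)) (.lf 10)), 0, [0, 0, 29, 29, 0, 0, 29, 29], []⟩))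
    (.nd (.lf ⟨[.ofNat 0, .ofNat 725760, .negSucc 895199, .ofNat 630720, .negSucc 60959], (.tr (.dx 0 (.tw (.lf 5) (.lf 6))) (.tr (.lf 9) (.lf 10) (.tr (.lf 13) (.lf 17) (.lf 14))) (.lf 18)), 0, [39, 39, 0, 0, 39, 39, 0, 0], []⟩)
    (.lf ⟨[.ofNat 83041920, .negSucc 256723119, .ofNat 264143980, .negSucc 95792199, .ofNat 15460980], (.tr (.dx 0 (.tw (.lf 5) (.lf 6))) (.lf 13) (.tr (.lf 17) (.tr (.lf 9) (.lf 10) (.lf 14)) (.lf 18))), 0, [0, 0, 0, 0, 0, 0, 0, 0], []⟩)))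
    (.nd (.nd (.lf ⟨[.negSucc 14941439, .ofNat 39670080, .negSucc 38779199, .ofNat 13971840, .negSucc 2316479], (.tr (.dx 0 (.tw (.lf 5) (.lf 6))) (.tr (.lf 9) (.lf 13) (.tr (.lf 17) (.lf 14) (.lf 18))) (.lf 10)), 0, [0, 0, 7, 7, 0, 0, 7, 7], []⟩)
    (.lf ⟨[.negSucc 4298399, .ofNat 16993560, .negSucc 19556159, .ofNat 8426520, .negSucc 1371599], (.tr (.dx 0 (.tw (.lf 5) (.lf 6))) (.lf 17) (.tr (.lf 9) (.lf 10) (.tr (.lf 13) (.lf 18) (.lf 14)))), 0, [5, 5, 7, 7, 5, 5, 7, 7], []⟩))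
    (.nd (.lf ⟨[.ofNat 5207040, .negSucc 14444159, .ofNat 14136000, .negSucc 5287679, .ofNat 853440], (.tr (.dx 0 (.tw (.lf 5) (.lf 6))) (.tr (.lf 17) (.tr (.lf 9) (.lf 10) (.lf 13)) (.lf 18)) (.lf 14)), 0, [5, 0, 5, 0, 5, 0, 5, 0], []⟩)
    (.lf ⟨[.ofNat 21306240, .negSucc 60065759, .ofNat 59880000, .negSucc 22127519, .ofNat 3657600], (.tw (.dx 0 (.tw (.lf 5) (.lf 6))) (.tr (.lf 9) (.tr (.tw (.lf 13) (.lf 17)) (.lf 14) (.lf 18)) (.lf 10))), 0, [0, 0, 0, 0, 0, 0, 0, 0, 0, 0, 0, 0, 0, 0, 0, 0], []⟩))))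

/-- data -/
def dV5x1 : RT := (.nd (.nd (.nd (.lf ⟨[.ofNat 5777280, .negSucc 15217439, .ofNat 14499840, .negSucc 5348639, .ofNat 853440], (.tr (.dx 0 (.tw (.lf 5) (.lf 6))) (.lf 9) (.tr (.lf 13) (.tr (.lf 10) (.lf 17) (.lf 18)) (.lf 14))), 0, [0, 0, 0, 0, 0, 0, 0, 0], []⟩)
    (.lf ⟨[.negSucc 5777279, .ofNat 15217440, .negSucc 14499839, .ofNat 5348640, .negSucc 853439], (.tr (.dx 0 (.tw (.lf 5) (.lf 6))) (.tr (.lf 9) (.tr (.lf 13) (.lf 17) (.lf 18)) (.lf 10)) (.lf 14)), 0, [0, 37, 0, 37, 0, 37, 0, 37], []⟩))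
    (.nd (.lf ⟨[.ofNat 5777280, .negSucc 15217439, .ofNat 14499840, .negSucc 5348639, .ofNat 853440], (.tr (.dx 0 (.tw (.lf 5) (.lf 6))) (.lf 9) (.tr (.lf 17) (.lf 18) (.tr (.lf 13) (.lf 10) (.lf 14)))), 0, [37, 37, 39, 39, 37, 37, 39, 39], []⟩)
    (.lf ⟨[.negSucc 5777279, .ofNat 15217440, .negSucc 14499839, .ofNat 5348640, .negSucc 853439], (.tr (.lf 13) (.lf 17) (.tr (.dx 0 (.tw (.lf 5) (.lf 6))) (.tr (.lf 9) (.lf 14) (.lf 10)) (.lf 18))), 0, [4, 4, 4, 4, 1, 1, 1, 1], []⟩)))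
    (.nd (.nd (.lf ⟨[.ofNat 12386880, .negSucc 26576879, .ofNat 26808000, .negSucc 10612079, .ofNat 1767840], (.tr (.dx 0 (.tw (.lf 5) (.lf 6))) (.lf 9) (.tr (.lf 13) (.lf 14) (.tr (.lf 17) (.lf 10) (.lf 18)))), 0, [15, 15, 5, 5, 15, 15, 5, 5], []⟩)
    (.lf ⟨[.negSucc 3818879, .ofNat 3531360, .negSucc 2571359, .ofNat 1044000, .negSucc 182879], (.tr (.dx 0 (.tw (.lf 5) (.lf 6))) (.tr (.lf 9) (.tr (.lf 13) (.lf 14) (.lf 17)) (.lf 10)) (.lf 18)), 0, [15, 0, 15, 0, 15, 0, 15, 0], []⟩))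
    (.nd (.lf ⟨[.ofNat 174859200, .negSucc 556778399, .ofNat 573098100, .negSucc 209462279, .ofNat 33855660], (.tr (.dx 0 (.tw (.lf 5) (.lf 6))) (.lf 9) (.tr (.lf 17) (.tr (.lf 10) (.lf 13) (.lf 14)) (.lf 18))), 0, [0, 0, 0, 0, 0, 0, 0, 0], []⟩)
    (.lf ⟨[.negSucc 18751679, .ofNat 46972560, .negSucc 47908799, .ofNat 18767760, .negSucc 3108959], (.tw (.dx 0 (.tw (.lf 5) (.lf 6))) (.tr (.lf 9) (.lf 17) (.tr (.lf 10) (.lf 18) (.tw (.lf 13) (.lf 14))))), 0, [5, 5, 0, 0, 0, 0, 29, 29, 5, 5, 0, 0, 0, 0, 29, 29], []⟩))))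

/-- data -/
def dV5x2 : RT := (.nd (.nd (.nd (.lf ⟨[.ofNat 6747840, .negSucc 19743119, .ofNat 22133760, .negSucc 8983439, .ofNat 1524000], (.tr (.dx 0 (.tw (.lf 5) (.lf 6))) (.tr (.lf 13) (.lf 14) (.tr (.lf 17) (.lf 9) (.lf 18))) (.lf 10)), 0, [29, 29, 0, 0, 29, 29, 0, 0], []⟩)
    (.lf ⟨[.ofNat 12821760, .negSucc 34189439, .ofNat 33771840, .negSucc 12771839, .ofNat 2072640], (.tw (.lf 9) (.tr (.dx 0 (.tw (.lf 5) (.lf 6))) (.tr (.lf 10) (.lf 17) (.tw (.lf 13) (.lf 14))) (.lf 18))), 0, [39, 39, 15, 15, 39, 39, 15, 15, 28, 28, 28, 28, 1, 1, 1, 1], []⟩))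
    (.nd (.lf ⟨[.negSucc 12821759, .ofNat 34189440, .negSucc 33771839, .ofNat 12771840, .negSucc 2072639], (.tr (.lf 9) (.dx 0 (.tw (.lf 5) (.lf 6))) (.tr (.lf 13) (.lf 14) (.tr (.lf 17) (.lf 10) (.lf 18)))), 0, [15, 15, 5, 5, 15, 15, 5, 5], []⟩)
    (.lf ⟨[.ofNat 0, .ofNat 195840, .negSucc 161279], (.tr (.lf 9) (.tr (.dx 0 (.tw (.lf 5) (.lf 6))) (.tr (.lf 17) (.lf 10) (.lf 18)) (.lf 13)) (.lf 14)), 0, [5, 5, 5, 5, 6, 6, 6, 6], []⟩)))
    (.nd (.nd (.lf ⟨[.negSucc 195839, .ofNat 161280], (.tr (.lf 13) (.lf 14) (.tr (.lf 9) (.dx 0 (.tw (.lf 5) (.lf 6))) (.tr (.lf 17) (.lf 10) (.lf 18)))), 0, [36, 36, 36, 36, 4, 4, 4, 4], []⟩)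
    (.lf ⟨[.ofNat 13467600, .negSucc 33330299, .ofNat 31423320, .negSucc 11697899, .ofNat 1859280], (.tr (.dx 0 (.tw (.lf 13) (.tr (.lf 9) (.tw (.lf 5) (.lf 6)) (.lf 10)))) (.lf 14) (.tw (.lf 17) (.lf 18))), 0, [39, 39, 39, 39, 39, 39, 39, 39, 39, 39, 39, 39, 39, 39, 39, 39], []⟩))
    (.nd (.lf ⟨[.negSucc 87240959, .ofNat 282065880, .negSucc 290746139, .ofNat 107531040, .negSucc 17426939], (.tr (.lf 14) (.dx 0 (.tw (.lf 13) (.tr (.lf 9) (.tw (.lf 5) (.lf 6)) (.lf 10)))) (.tw (.lf 17) (.lf 18))), 0, [3, 3, 3, 3, 3, 3, 3, 3, 3, 3, 3, 3, 3, 3, 3, 3], []⟩)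
    (.lf ⟨[.ofNat 5777280, .negSucc 15217439, .ofNat 14499840, .negSucc 5348639, .ofNat 853440], (.tr (.dx 0 (.tw (.lf 5) (.lf 6))) (.tr (.lf 17) (.lf 18) (.tr (.lf 13) (.lf 9) (.lf 14))) (.lf 10)), 0, [7, 7, 0, 0, 7, 7, 0, 0], []⟩))))

/-- data -/
def dV5x3 : RT := (.nd (.nd (.nd (.lf ⟨[.negSucc 121386959, .ofNat 351640460, .negSucc 350911639, .ofNat 128097500, .negSucc 20634959], (.tr (.dx 0 (.tw (.lf 5) (.lf 6))) (.lf 13) (.tr (.lf 9) (.tr (.lf 14) (.lf 17) (.lf 18)) (.lf 10))), 0, [0, 0, 0, 0, 0, 0, 0, 0], []⟩)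
    (.lf ⟨[.negSucc 5777279, .ofNat 15217440, .negSucc 14499839, .ofNat 5348640, .negSucc 853439], (.tw (.dx 0 (.tw (.lf 5) (.lf 6))) (.tr (.lf 9) (.lf 13) (.tr (.lf 10) (.lf 14) (.tw (.lf 17) (.lf 18))))), 0, [39, 39, 0, 0, 0, 0, 7, 7, 39, 39, 0, 0, 0, 0, 7, 7], []⟩))
    (.nd (.lf ⟨[.ofNat 12821760, .negSucc 34385279, .ofNat 33933120, .negSucc 12771839, .ofNat 2072640], (.tr (.lf 13) (.dx 0 (.tw (.lf 5) (.lf 6))) (.tr (.lf 17) (.lf 18) (.tr (.lf 9) (.lf 14) (.lf 10)))), 0, [7, 7, 15, 15, 7, 7, 15, 15], []⟩)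
    (.lf ⟨[.negSucc 12821759, .ofNat 34385280, .negSucc 33933119, .ofNat 12771840, .negSucc 2072639], (.tr (.lf 13) (.tr (.dx 0 (.tw (.lf 5) (.lf 6))) (.tr (.lf 9) (.lf 14) (.lf 10)) (.lf 17)) (.lf 18)), 0, [15, 15, 15, 15, 3, 3, 3, 3], []⟩)))
    (.nd (.nd (.lf ⟨[.negSucc 6410879, .ofNat 17192640, .negSucc 16966559, .ofNat 6385920, .negSucc 1036319], (.tw (.lf 9) (.tr (.lf 13) (.tr (.dx 0 (.tw (.lf 5) (.lf 6))) (.tw (.lf 17) (.lf 18)) (.lf 10)) (.lf 14))), 0, [6, 6, 6, 6, 6, 6, 6, 6, 6, 6, 6, 6, 6, 6, 6, 6], []⟩)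
    (.lf ⟨[.negSucc 13017599, .ofNat 36435840, .negSucc 36222719, .ofNat 13534080, .negSucc 2194559], (.tr (.lf 17) (.dx 0 (.tw (.lf 5) (.lf 6))) (.tr (.lf 9) (.tr (.lf 13) (.lf 14) (.lf 18)) (.lf 10))), 0, [2, 7, 2, 7, 2, 7, 2, 7], []⟩))
    (.nd (.lf ⟨[.ofNat 6508800, .negSucc 17273279, .ofNat 16966560, .negSucc 6385919, .ofNat 1036320], (.tw (.lf 9) (.tr (.lf 17) (.tr (.dx 0 (.tw (.lf 5) (.lf 6))) (.lf 10) (.tw (.lf 13) (.lf 14))) (.lf 18))), 0, [39, 39, 39, 39, 3, 3, 3, 3, 39, 39, 39, 39, 3, 3, 3, 3], []⟩)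
    (.lf ⟨[.negSucc 26035199, .ofNat 69093120, .negSucc 67866239, .ofNat 25543680, .negSucc 4145279], (.tr (.lf 9) (.lf 17) (.tr (.dx 0 (.tw (.lf 5) (.lf 6))) (.lf 10) (.tr (.lf 13) (.lf 14) (.lf 18)))), 0, [39, 5, 39, 5, 1, 1, 1, 1], []⟩))))

/-- data -/
def dV5x4 : RT := (.nd (.nd (.nd (.lf ⟨[.ofNat 6508800, .negSucc 17273279, .ofNat 16966560, .negSucc 6385919, .ofNat 1036320], (.tw (.dx 0 (.tw (.lf 5) (.lf 6))) (.tr (.lf 9) (.tr (.tw (.lf 13) (.lf 14)) (.lf 17) (.lf 18)) (.lf 10))), 0, [0, 0, 0, 0, 0, 0, 0, 0, 0, 0, 0, 0, 0, 0, 0, 0], []⟩)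
    (.lf ⟨[.ofNat 9460800, .negSucc 25583999, .ofNat 25312080, .negSucc 9565919, .ofNat 1554480], (.tr (.dx 0 (.tw (.lf 13) (.tr (.lf 5) (.tw (.lf 9) (.lf 10)) (.lf 6)))) (.tw (.lf 17) (.lf 18)) (.lf 14)), 0, [5, 5, 5, 5, 5, 5, 5, 5, 5, 5, 5, 5, 5, 5, 5, 5], []⟩))
    (.nd (.lf ⟨[.negSucc 26035199, .ofNat 69093120, .negSucc 67866239, .ofNat 25543680, .negSucc 4145279], (.tr (.dx 0 (.tw (.lf 5) (.lf 6))) (.tr (.lf 9) (.lf 17) (.tr (.lf 13) (.lf 14) (.lf 18))) (.lf 10)), 0, [0, 0, 29, 29, 0, 0, 29, 29], []⟩)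
    (.lf ⟨[.negSucc 12821759, .ofNat 34385280, .negSucc 33933119, .ofNat 12771840, .negSucc 2072639], (.tr (.lf 17) (.dx 0 (.tw (.lf 5) (.lf 6))) (.tr (.lf 9) (.lf 10) (.tr (.lf 13) (.lf 18) (.lf 14)))), 0, [5, 5, 7, 7, 5, 5, 7, 7], []⟩)))
    (.nd (.nd (.lf ⟨[.ofNat 12821760, .negSucc 34385279, .ofNat 33933120, .negSucc 12771839, .ofNat 2072640], (.tr (.lf 9) (.lf 10) (.tr (.lf 17) (.dx 0 (.tw (.lf 5) (.lf 6))) (.tr (.lf 13) (.lf 18) (.lf 14)))), 0, [28, 28, 28, 28, 6, 6, 6, 6], []⟩)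
    (.lf ⟨[.negSucc 467999, .ofNat 1137480, .negSucc 913919, .ofNat 252360, .negSucc 30479], (.tw (.lf 13) (.tr (.lf 17) (.tr (.dx 0 (.tw (.lf 5) (.lf 6))) (.tw (.lf 9) (.lf 10)) (.lf 14)) (.lf 18))), 0, [39, 39, 39, 39, 4, 4, 4, 4, 39, 39, 39, 39, 4, 4, 4, 4], []⟩))
    (.nd (.lf ⟨[.ofNat 9826560, .negSucc 24067199, .ofNat 22741440, .negSucc 8378879, .ofNat 1341120], (.tw (.lf 17) (.tr (.dx 0 (.tw (.lf 5) (.lf 6))) (.tr (.tw (.lf 9) (.lf 10)) (.lf 13) (.lf 18)) (.lf 14))), 0, [5, 5, 37, 37, 5, 5, 37, 37, 1, 1, 1, 1, 38, 38, 38, 38], []⟩)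
    (.lf ⟨[.negSucc 6410879, .ofNat 17192640, .negSucc 16966559, .ofNat 6385920, .negSucc 1036319], (.tr (.tw (.lf 13) (.lf 14)) (.dx 0 (.tw (.lf 17) (.tr (.lf 5) (.tw (.lf 9) (.lf 10)) (.lf 6)))) (.lf 18)), 0, [22, 22, 22, 22, 22, 22, 22, 22, 22, 22, 22, 22, 22, 22, 22, 22], []⟩))))

/-- data -/
def dV5x5 : RT := (.nd (.nd (.nd (.lf ⟨[.ofNat 344520, .ofNat 796290, .negSucc 1294679, .ofNat 562530, .negSucc 99059], (.tr (.dx 0 (.tw (.lf 9) (.tr (.lf 17) (.tw (.lf 5) (.lf 6)) (.lf 18)))) (.lf 10) (.tw (.lf 13) (.lf 14))), 0, [37, 37, 37, 37, 37, 37, 37, 37, 37, 37, 37, 37, 37, 37, 37, 37], []⟩)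
    (.lf ⟨[.ofNat 25643520, .negSucc 68770559, .ofNat 67866240, .negSucc 25543679, .ofNat 4145280], (.tr (.lf 9) (.lf 13) (.tr (.dx 0 (.tw (.lf 5) (.lf 6))) (.tr (.lf 10) (.lf 17) (.lf 18)) (.lf 14))), 0, [5, 6, 5, 6, 6, 6, 1, 1], []⟩))
    (.nd (.lf ⟨[.negSucc 25643519, .ofNat 68770560, .negSucc 67866239, .ofNat 25543680, .negSucc 4145279], (.tr (.lf 9) (.lf 13) (.tr (.lf 14) (.lf 17) (.tr (.dx 0 (.tw (.lf 5) (.lf 6))) (.lf 10) (.lf 18)))), 0, [6, 6, 1, 1, 5, 5, 6, 6], []⟩)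
    (.lf ⟨[.ofNat 25643520, .negSucc 68770559, .ofNat 67866240, .negSucc 25543679, .ofNat 4145280], (.tr (.lf 9) (.tr (.lf 17) (.dx 0 (.tw (.lf 5) (.lf 6))) (.tr (.lf 10) (.lf 18) (.lf 13))) (.lf 14)), 0, [5, 37, 5, 37, 28, 28, 6, 6], []⟩)))
    (.nd (.nd (.lf ⟨[.negSucc 25643519, .ofNat 68770560, .negSucc 67866239, .ofNat 25543680, .negSucc 4145279], (.tr (.lf 9) (.lf 17) (.tr (.dx 0 (.tw (.lf 5) (.lf 6))) (.tr (.lf 10) (.lf 18) (.lf 13)) (.lf 14))), 0, [5, 37, 5, 37, 1, 1, 1, 1], []⟩)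
    (.lf ⟨[.negSucc 391679, .ofNat 322560], (.tr (.lf 17) (.lf 9) (.tr (.dx 0 (.tw (.lf 5) (.lf 6))) (.lf 18) (.tr (.lf 10) (.lf 13) (.lf 14)))), 0, [37, 7, 37, 7, 1, 1, 1, 1], []⟩))
    (.nd (.lf ⟨[.ofNat 0, .negSucc 3778559, .ofNat 4579200, .negSucc 1524479, .ofNat 243840], (.tr (.dx 0 (.tr (.lf 5) (.lf 6) (.lf 9))) (.lf 13) (.tr (.lf 10) (.lf 14) (.tw (.lf 17) (.lf 18)))), 0, [39, 39, 0, 0, 39, 39, 7, 7], []⟩)
    (.lf ⟨[.ofNat 0, .negSucc 1370879, .ofNat 1684800, .negSucc 791039, .ofNat 121920], (.tr (.dx 0 (.tr (.lf 5) (.lf 9) (.lf 6))) (.tr (.lf 13) (.lf 10) (.tw (.lf 17) (.lf 18))) (.lf 14)), 0, [5, 5, 37, 37, 5, 5, 37, 37], []⟩))))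

/-- data -/
def dV5x6 : RT := (.nd (.nd (.nd (.lf ⟨[.ofNat 0, .ofNat 1370880, .negSucc 1684799, .ofNat 791040, .negSucc 121919], (.tr (.dx 0 (.tr (.lf 5) (.lf 9) (.lf 6))) (.lf 17) (.tr (.tw (.lf 13) (.lf 14)) (.lf 10) (.lf 18))), 0, [0, 0, 37, 37, 0, 0, 37, 37], []⟩)
    (.lf ⟨[.ofNat 0, .ofNat 1370880, .negSucc 1684799, .ofNat 791040, .negSucc 121919], (.tw (.dx 0 (.tr (.lf 5) (.lf 9) (.lf 6))) (.tr (.lf 13) (.tr (.lf 10) (.lf 17) (.lf 18)) (.lf 14))), 0, [5, 0, 5, 0, 5, 0, 5, 0], []⟩))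
    (.nd (.lf ⟨[.ofNat 488160, .negSucc 30119, .negSucc 718799, .ofNat 278520, .negSucc 60959], (.tw (.dx 0 (.tr (.lf 5) (.lf 9) (.lf 6))) (.tr (.lf 17) (.tr (.lf 10) (.lf 13) (.lf 14)) (.lf 18))), 0, [39, 0, 39, 0, 39, 0, 39, 0], []⟩)
    (.lf ⟨[.ofNat 0, .negSucc 685439, .ofNat 842400, .negSucc 395519, .ofNat 60960], (.tr (.lf 13) (.dx 0 (.tr (.lf 5) (.lf 9) (.lf 6))) (.tr (.lf 17) (.tw (.lf 10) (.lf 14)) (.lf 18))), 0, [39, 15, 39, 15, 39, 15, 39, 15], []⟩)))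
    (.nd (.nd (.lf ⟨[.ofNat 0, .ofNat 685440, .negSucc 842399, .ofNat 395520, .negSucc 60959], (.tw (.lf 17) (.tr (.lf 13) (.tr (.dx 0 (.tr (.lf 5) (.lf 9) (.lf 6))) (.lf 18) (.lf 10)) (.lf 14))), 0, [37, 37, 38, 38, 37, 37, 38, 38], []⟩)
    (.lf ⟨[.ofNat 18000000, .negSucc 59125599, .ofNat 61159840, .negSucc 21267999, .ofNat 3413760], (.tr (.lf 13) (.lf 10) (.tr (.lf 17) (.tw (.dx 0 (.tr (.lf 5) (.lf 9) (.lf 6))) (.lf 14)) (.lf 18))), 0, [36, 36, 3, 3, 36, 36, 3, 3], []⟩))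
    (.nd (.lf ⟨[.negSucc 2631599, .ofNat 11345460, .negSucc 11822879, .ofNat 4542420, .negSucc 716279], (.tr (.dx 0 (.tr (.lf 5) (.lf 9) (.lf 6))) (.tr (.lf 17) (.tw (.lf 10) (.lf 13)) (.lf 18)) (.lf 14)), 0, [5, 0, 5, 0, 5, 0, 5, 0], []⟩)
    (.lf ⟨[.ofNat 2631600, .negSucc 11345459, .ofNat 11822880, .negSucc 4542419, .ofNat 716280], (.tw (.dx 0 (.tr (.lf 5) (.lf 9) (.lf 6))) (.tr (.lf 17) (.lf 10) (.tr (.lf 13) (.lf 18) (.lf 14)))), 0, [5, 5, 0, 0, 5, 5, 0, 0], []⟩))))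

/-- data -/
def dV5x7 : RT := (.nd (.nd (.nd (.lf ⟨[.ofNat 116293680, .negSucc 347697939, .ofNat 351283360, .negSucc 123663219, .ofNat 19705320], (.tw (.lf 17) (.tr (.dx 0 (.tr (.lf 5) (.lf 9) (.lf 6))) (.tr (.lf 13) (.lf 18) (.lf 14)) (.lf 10))), 0, [7, 7, 7, 7, 1, 1, 1, 1], []⟩)
    (.lf ⟨[.negSucc 118925279, .ofNat 360022600, .negSucc 364301919, .ofNat 128360200, .negSucc 20482559], (.tw (.lf 10) (.tr (.lf 17) (.dx 0 (.tr (.lf 5) (.lf 9) (.lf 6))) (.tr (.lf 13) (.lf 18) (.lf 14)))), 0, [5, 5, 5, 5, 6, 6, 6, 6], []⟩))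
    (.nd (.lf ⟨[.ofNat 118925280, .negSucc 359043399, .ofNat 363106240, .negSucc 128205639, .ofNat 20421600], (.tr (.lf 10) (.tr (.lf 17) (.tw (.dx 0 (.tr (.lf 5) (.lf 9) (.lf 6))) (.lf 13)) (.lf 18)) (.lf 14)), 0, [5, 5, 5, 5, 5, 5, 5, 5], []⟩)
    (.lf ⟨[.negSucc 83352239, .ofNat 244331220, .negSucc 244809239, .ofNat 84604260, .negSucc 13472159], (.tr (.lf 10) (.lf 17) (.tr (.lf 13) (.tw (.dx 0 (.tr (.lf 5) (.lf 9) (.lf 6))) (.lf 18)) (.lf 14))), 0, [5, 5, 28, 28, 5, 5, 28, 28], []⟩)))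
    (.nd (.nd (.lf ⟨[.ofNat 0, .ofNat 783360, .negSucc 978239, .ofNat 1272960, .negSucc 121919], (.tr (.lf 10) (.lf 17) (.tr (.tw (.dx 0 (.tr (.lf 5) (.lf 9) (.lf 6))) (.lf 13)) (.lf 18) (.lf 14))), 0, [5, 5, 5, 5, 28, 28, 1, 1], []⟩)
    (.lf ⟨[.ofNat 0, .negSucc 339839, .ofNat 366720, .negSucc 53759], (.tw (.dx 0 (.tr (.lf 5) (.lf 9) (.lf 6))) (.tr (.lf 10) (.tr (.lf 17) (.lf 13) (.lf 18)) (.lf 14))), 0, [5, 5, 0, 0, 5, 5, 0, 0], []⟩))
    (.nd (.lf ⟨[.ofNat 0, .negSucc 51839, .ofNat 122400, .negSucc 582719, .ofNat 60960], (.tw (.lf 10) (.tr (.dx 0 (.tr (.lf 5) (.lf 9) (.lf 6))) (.lf 13) (.tr (.lf 17) (.lf 14) (.lf 18)))), 0, [39, 39, 39, 39, 1, 1, 1, 1], []⟩)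
    (.lf ⟨[.ofNat 0, .negSucc 2741759, .ofNat 3369600, .negSucc 1582079, .ofNat 243840], (.tw (.lf 13) (.tr (.lf 10) (.lf 17) (.tr (.dx 0 (.tr (.lf 5) (.lf 9) (.lf 6))) (.lf 14) (.lf 18)))), 0, [36, 36, 1, 1, 29, 29, 4, 4], []⟩))))

/-- data -/
def dV5x8 : RT := (.nd (.nd (.nd (.lf ⟨[.negSucc 342080639, .ofNat 1106494080, .negSucc 1141053479, .ofNat 416836560, .negSucc 67345559], (.tr (.dx 0 (.tr (.lf 5) (.lf 6) (.lf 9))) (.tr (.lf 10) (.lf 17) (.tw (.lf 13) (.lf 14))) (.lf 18)), 0, [39, 39, 15, 15, 39, 39, 15, 15], []⟩)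
    (.lf ⟨[.ofNat 99257040, .negSucc 307675499, .ofNat 316790880, .negSucc 116262539, .ofNat 18912840], (.tw (.lf 10) (.tr (.lf 13) (.tr (.lf 17) (.dx 0 (.tr (.lf 5) (.lf 6) (.lf 9))) (.lf 18)) (.lf 14))), 0, [6, 6, 6, 6, 6, 6, 6, 6], []⟩))
    (.nd (.lf ⟨[.negSucc 66680639, .ofNat 185654000, .negSucc 188431039, .ofNat 69198320, .negSucc 11369039], (.tw (.lf 10) (.tr (.lf 17) (.tr (.lf 13) (.dx 0 (.tr (.lf 5) (.lf 6) (.lf 9))) (.lf 14)) (.lf 18))), 0, [28, 28, 28, 28, 28, 28, 28, 28], []⟩)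
    (.lf ⟨[.negSucc 75985199, .ofNat 226522900, .negSucc 228144759, .ofNat 84028900, .negSucc 13594079], (.tr (.dx 0 (.tr (.lf 5) (.lf 13) (.lf 6))) (.tr (.lf 9) (.lf 14) (.tw (.lf 17) (.lf 18))) (.lf 10)), 0, [29, 29, 7, 7, 29, 29, 7, 7], []⟩)))
    (.nd (.nd (.lf ⟨[.ofNat 23266800, .negSucc 72716579, .ofNat 74338080, .negSucc 27860099, .ofNat 4556760], (.tr (.dx 0 (.tr (.lf 5) (.lf 13) (.lf 6))) (.lf 17) (.tr (.tw (.lf 9) (.lf 10)) (.lf 14) (.lf 18))), 0, [39, 39, 7, 7, 39, 39, 7, 7], []⟩)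
    (.lf ⟨[.ofNat 47171520, .negSucc 142694799, .ofNat 143632600, .negSucc 52483839, .ofNat 8427720], (.tr (.lf 9) (.lf 10) (.tr (.dx 0 (.tr (.lf 5) (.lf 13) (.lf 6))) (.tw (.lf 17) (.lf 18)) (.lf 14))), 0, [12, 12, 12, 12, 6, 6, 6, 6], []⟩))
    (.nd (.lf ⟨[.negSucc 23539679, .ofNat 83247080, .negSucc 84928639, .ofNat 29102120, .negSucc 4541519], (.tr (.lf 14) (.lf 17) (.tr (.tw (.lf 9) (.lf 10)) (.dx 0 (.tr (.lf 5) (.lf 13) (.lf 6))) (.lf 18))), 0, [3, 3, 3, 3, 13, 13, 13, 13], []⟩)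
    (.lf ⟨[.ofNat 96154560, .negSucc 307565679, .ofNat 315904360, .negSucc 111425919, .ofNat 17876520], (.tw (.lf 14) (.tr (.lf 17) (.tr (.dx 0 (.tr (.lf 5) (.lf 13) (.lf 6))) (.lf 9) (.lf 10)) (.lf 18))), 0, [15, 15, 3, 3, 15, 15, 3, 3], []⟩))))

/-- data -/
def dV5x9 : RT := (.nd (.nd (.nd (.lf ⟨[.negSucc 76987439, .ofNat 254768820, .negSucc 263145959, .ofNat 91004580, .negSucc 14508479], (.tr (.lf 14) (.tr (.tw (.lf 9) (.lf 10)) (.dx 0 (.tr (.lf 5) (.lf 13) (.lf 6))) (.lf 17)) (.lf 18)), 0, [3, 3, 3, 3, 15, 15, 15, 15], []⟩)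
    (.lf ⟨[.negSucc 166083839, .ofNat 513446240, .negSucc 528287959, .ofNat 191584400, .negSucc 30921959], (.tr (.dx 0 (.tr (.lf 5) (.lf 6) (.lf 13))) (.tr (.lf 14) (.lf 9) (.tw (.lf 17) (.lf 18))) (.lf 10)), 0, [29, 29, 7, 7, 29, 29, 7, 7], []⟩))
    (.nd (.lf ⟨[.ofNat 0, .ofNat 829440, .negSucc 980639, .ofNat 438720, .negSucc 60959], (.tr (.dx 0 (.tr (.lf 5) (.lf 13) (.lf 6))) (.lf 9) (.tr (.lf 17) (.tw (.lf 10) (.lf 14)) (.lf 18))), 0, [39, 15, 39, 15, 39, 15, 39, 15], []⟩)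
    (.lf ⟨[.negSucc 37367999, .ofNat 131235440, .negSucc 136722079, .ofNat 50230640, .negSucc 8107679], (.tw (.lf 17) (.tr (.dx 0 (.tr (.lf 5) (.lf 13) (.lf 6))) (.tr (.lf 9) (.lf 18) (.lf 10)) (.lf 14))), 0, [2, 2, 2, 2, 38, 38, 38, 38], []⟩)))
    (.nd (.nd (.lf ⟨[.negSucc 1527839, .ofNat 3884280, .negSucc 2167199, .ofNat 979320, .negSucc 182879], (.tr (.lf 14) (.lf 9) (.tr (.lf 17) (.tw (.dx 0 (.tr (.lf 5) (.lf 13) (.lf 6))) (.lf 10)) (.lf 18))), 0, [15, 15, 3, 3, 15, 15, 3, 3], []⟩)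
    (.lf ⟨[.negSucc 37823039, .ofNat 134717840, .negSucc 139743679, .ofNat 51653840, .negSucc 8290559], (.tr (.lf 14) (.tr (.lf 9) (.tw (.dx 0 (.tr (.lf 5) (.lf 13) (.lf 6))) (.lf 17)) (.lf 10)) (.lf 18)), 0, [15, 15, 15, 15, 15, 15, 15, 15], []⟩))
    (.nd (.lf ⟨[.ofNat 77791680, .negSucc 270089679, .ofNat 277690720, .negSucc 103446159, .ofNat 16642080], (.tr (.lf 14) (.tr (.tw (.dx 0 (.tr (.lf 5) (.lf 13) (.lf 6))) (.lf 9)) (.lf 17) (.lf 10)) (.lf 18)), 0, [15, 15, 15, 15, 15, 15, 3, 3], []⟩)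
    (.lf ⟨[.negSucc 38895839, .ofNat 136024040, .negSucc 140041039, .ofNat 51877640, .negSucc 8381999], (.tw (.lf 14) (.tr (.dx 0 (.tr (.lf 5) (.lf 13) (.lf 6))) (.lf 9) (.tr (.lf 17) (.lf 10) (.lf 18)))), 0, [15, 15, 15, 15, 1, 1, 1, 1], []⟩))))

/-- data -/
def dV5x10 : RT := (.nd (.nd (.nd (.lf ⟨[.ofNat 0, .negSucc 708479, .ofNat 579840, .negSucc 53759], (.tw (.dx 0 (.tr (.lf 5) (.lf 13) (.lf 6))) (.tr (.lf 9) (.tr (.lf 17) (.lf 10) (.lf 18)) (.lf 14))), 0, [0, 0, 29, 29, 0, 0, 29, 29], []⟩)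
    (.lf ⟨[.ofNat 0, .ofNat 368640, .negSucc 213119], (.tw (.lf 9) (.tr (.dx 0 (.tr (.lf 5) (.lf 13) (.lf 6))) (.lf 14) (.tr (.lf 17) (.lf 10) (.lf 18)))), 0, [15, 15, 15, 15, 28, 28, 28, 28], []⟩))
    (.nd (.lf ⟨[.negSucc 1527839, .ofNat 5324280, .negSucc 3716399, .ofNat 1716120, .negSucc 274319], (.tw (.lf 14) (.tr (.lf 9) (.dx 0 (.tr (.lf 5) (.lf 13) (.lf 6))) (.tr (.lf 17) (.lf 10) (.lf 18)))), 0, [15, 15, 15, 15, 13, 13, 13, 13], []⟩)
    (.lf ⟨[.ofNat 1527840, .negSucc 5520119, .ofNat 3877680, .negSucc 1716119, .ofNat 274320], (.tw (.lf 9) (.tr (.dx 0 (.tr (.lf 5) (.lf 13) (.lf 6))) (.tr (.lf 17) (.lf 10) (.lf 18)) (.lf 14))), 0, [12, 12, 12, 12, 6, 6, 6, 6], []⟩)))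
    (.nd (.nd (.lf ⟨[.ofNat 0, .ofNat 679680, .negSucc 733439, .ofNat 107520], (.tr (.dx 0 (.tr (.lf 5) (.lf 13) (.lf 6))) (.lf 14) (.tr (.tw (.lf 9) (.lf 17)) (.lf 10) (.lf 18))), 0, [15, 15, 15, 29, 15, 15, 15, 29], []⟩)
    (.lf ⟨[.ofNat 0, .negSucc 339839, .ofNat 366720, .negSucc 53759], (.tw (.dx 0 (.tr (.lf 5) (.lf 13) (.lf 6))) (.tr (.lf 14) (.lf 9) (.tr (.lf 17) (.lf 10) (.lf 18)))), 0, [15, 15, 0, 0, 15, 15, 0, 0], []⟩))
    (.nd (.lf ⟨[.ofNat 209158560, .negSucc 620795799, .ofNat 623575600, .negSucc 225572919, .ofNat 36393120], (.tr (.dx 0 (.tr (.lf 5) (.lf 6) (.lf 13))) (.tr (.tw (.lf 9) (.lf 10)) (.lf 17) (.lf 14)) (.lf 18)), 0, [39, 39, 15, 15, 39, 39, 15, 15], []⟩)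
    (.lf ⟨[.negSucc 3922559, .ofNat 10332000, .negSucc 11828399, .ofNat 4840320, .negSucc 822959], (.tr (.lf 17) (.lf 14) (.tr (.lf 9) (.tw (.dx 0 (.tr (.lf 5) (.lf 13) (.lf 6))) (.lf 18)) (.lf 10))), 0, [38, 38, 38, 38, 38, 38, 38, 38], []⟩))))

/-- data -/
def dV5x11 : RT := (.nd (.nd (.nd (.lf ⟨[.ofNat 0, .ofNat 783360, .negSucc 857759, .ofNat 403200, .negSucc 60959], (.tw (.lf 9) (.tr (.lf 17) (.tr (.dx 0 (.tr (.lf 5) (.lf 13) (.lf 6))) (.lf 10) (.lf 14)) (.lf 18))), 0, [39, 39, 3, 3, 39, 39, 3, 3], []⟩)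
    (.lf ⟨[.ofNat 0, .negSucc 3133439, .ofNat 3431040, .negSucc 1612799, .ofNat 243840], (.tw (.lf 17) (.tr (.lf 14) (.lf 9) (.tr (.dx 0 (.tr (.lf 5) (.lf 13) (.lf 6))) (.lf 18) (.lf 10)))), 0, [38, 38, 38, 38, 37, 37, 14, 14], []⟩))
    (.nd (.lf ⟨[.ofNat 3283200, .negSucc 13012799, .ofNat 14152320, .negSucc 6016319, .ofNat 975360], (.tw (.dx 0 (.tr (.lf 5) (.lf 6) (.lf 13))) (.tr (.lf 9) (.lf 10) (.tr (.lf 17) (.lf 14) (.lf 18)))), 0, [39, 39, 29, 29, 39, 39, 29, 29], []⟩)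
    (.lf ⟨[.negSucc 27627839, .ofNat 71246640, .negSucc 66587039, .ofNat 24570480, .negSucc 3901439], (.tw (.dx 0 (.tr (.lf 5) (.lf 6) (.lf 13))) (.tr (.lf 17) (.lf 18) (.tr (.lf 9) (.lf 14) (.lf 10)))), 0, [7, 7, 15, 15, 7, 7, 15, 15], []⟩)))
    (.nd (.nd (.lf ⟨[.negSucc 50049359, .ofNat 138325580, .negSucc 138742999, .ofNat 51088220, .negSucc 8351519], (.tw (.lf 14) (.tr (.lf 17) (.tr (.lf 9) (.dx 0 (.tr (.lf 5) (.lf 6) (.lf 13))) (.lf 10)) (.lf 18))), 0, [15, 15, 15, 15, 15, 15, 15, 15], []⟩)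
    (.lf ⟨[.ofNat 88352640, .negSucc 250558239, .ofNat 252795040, .negSucc 92783199, .ofNat 15179040], (.tw (.lf 17) (.tr (.lf 14) (.lf 18) (.tr (.lf 9) (.dx 0 (.tr (.lf 5) (.lf 6) (.lf 13))) (.lf 10)))), 0, [38, 38, 38, 38, 14, 14, 14, 14], []⟩))
    (.nd (.lf ⟨[.negSucc 41865119, .ofNat 128539160, .negSucc 135841879, .ofNat 50535560, .negSucc 8366759], (.tr (.dx 0 (.tr (.tw (.lf 5) (.lf 6)) (.lf 9) (.lf 13))) (.lf 10) (.tr (.lf 17) (.lf 14) (.lf 18))), 0, [39, 39, 39, 39, 39, 39, 39, 39], []⟩)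
    (.lf ⟨[.ofNat 4845600, .negSucc 9522359, .ofNat 10076640, .negSucc 4182839, .ofNat 701040], (.tr (.dx 0 (.tr (.tw (.lf 5) (.lf 6)) (.lf 13) (.lf 9))) (.lf 10) (.tr (.lf 17) (.lf 14) (.lf 18))), 0, [39, 39, 39, 39, 39, 39, 39, 39], []⟩))))

/-- data -/
def dV5x12 : RT := (.nd (.nd (.nd (.lf ⟨[.negSucc 4845599, .ofNat 8692920, .negSucc 9095999, .ofNat 3744120, .negSucc 640079], (.tr (.lf 10) (.dx 0 (.tr (.lf 9) (.tw (.lf 5) (.lf 6)) (.lf 17))) (.tr (.lf 13) (.lf 18) (.lf 14))), 0, [5, 5, 5, 5, 5, 5, 5, 5], []⟩)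
    (.lf ⟨[.ofNat 0, .ofNat 1658880, .negSucc 1961279, .ofNat 877440, .negSucc 121919], (.tr (.dx 0 (.tr (.lf 5) (.tw (.lf 6) (.lf 13)) (.lf 9))) (.lf 10) (.tr (.lf 17) (.lf 14) (.lf 18))), 0, [39, 39, 39, 39, 39, 39, 39, 39], []⟩))
    (.nd (.lf ⟨[.ofNat 1872720, .negSucc 8885099, .ofNat 8932440, .negSucc 3691259, .ofNat 609600], (.tr (.lf 10) (.dx 0 (.tr (.lf 9) (.tw (.lf 5) (.lf 6)) (.lf 13))) (.tr (.lf 17) (.lf 14) (.lf 18))), 0, [12, 12, 12, 12, 39, 39, 39, 39], []⟩)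
    (.lf ⟨[.negSucc 3745439, .ofNat 17770200, .negSucc 17864879, .ofNat 7382520, .negSucc 1219199], (.tr (.lf 10) (.dx 0 (.tr (.tw (.lf 5) (.lf 9)) (.lf 6) (.lf 13))) (.tr (.lf 17) (.lf 14) (.lf 18))), 0, [39, 39, 12, 12, 39, 39, 39, 39], []⟩)))
    (.nd (.nd (.lf ⟨[.ofNat 11892240, .negSucc 53123099, .ofNat 57879600, .negSucc 19562459, .ofNat 3154680], (.tr (.dx 0 (.tr (.tw (.lf 5) (.lf 6)) (.lf 13) (.lf 9))) (.tr (.lf 17) (.lf 14) (.lf 18)) (.lf 10)), 0, [0, 0, 0, 0, 29, 29, 29, 29], []⟩)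
    (.lf ⟨[.ofNat 103561920, .negSucc 313900719, .ofNat 320463040, .negSucc 114295599, .ofNat 18440400], (.tr (.dx 0 (.tr (.lf 5) (.tw (.lf 9) (.lf 13)) (.lf 6))) (.tr (.lf 17) (.lf 14) (.lf 18)) (.lf 10)), 0, [0, 0, 29, 29, 0, 0, 29, 29], []⟩))
    (.nd (.lf ⟨[.ofNat 0, .ofNat 1704960, .negSucc 2123039, .ofNat 1400640, .negSucc 182879], (.tr (.dx 0 (.tr (.lf 5) (.lf 9) (.tw (.lf 6) (.lf 13)))) (.tr (.lf 17) (.lf 14) (.lf 18)) (.lf 10)), 0, [0, 0, 0, 0, 29, 29, 10, 10], []⟩)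
    (.lf ⟨[.negSucc 2407679, .ofNat 7464000, .negSucc 7520639, .ofNat 3069120, .negSucc 487679], (.tr (.dx 0 (.tr (.lf 9) (.tw (.lf 5) (.lf 6)) (.lf 13))) (.tr (.lf 17) (.lf 14) (.lf 18)) (.lf 10)), 0, [29, 29, 29, 29, 10, 10, 10, 10], []⟩))))

/-- data -/
def dV5x13 : RT := (.nd (.nd (.nd (.lf ⟨[.negSucc 3685679, .ofNat 8534260, .negSucc 8623839, .ofNat 2548180, .negSucc 320039], (.tr (.dx 0 (.tr (.tw (.lf 5) (.lf 6)) (.lf 13) (.lf 9))) (.lf 14) (.tr (.lf 17) (.lf 10) (.lf 18))), 0, [15, 15, 15, 15, 15, 15, 15, 15], []⟩)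
    (.lf ⟨[.ofNat 14837760, .negSucc 42206399, .ofNat 41322480, .negSucc 15175199, .ofNat 2468880], (.tr (.lf 14) (.dx 0 (.tr (.lf 9) (.tw (.lf 5) (.lf 6)) (.lf 13))) (.tr (.lf 17) (.lf 10) (.lf 18))), 0, [15, 15, 15, 15, 15, 15, 15, 15], []⟩))
    (.nd (.lf ⟨[.ofNat 0, .negSucc 195839, .ofNat 161280], (.tr (.dx 0 (.tr (.tw (.lf 5) (.lf 6)) (.lf 13) (.lf 17))) (.lf 18) (.tr (.lf 9) (.lf 14) (.lf 10))), 0, [7, 7, 7, 7, 7, 7, 7, 7], []⟩)
    (.lf ⟨[.negSucc 29675519, .ofNat 84412800, .negSucc 82644959, .ofNat 30350400, .negSucc 4937759], (.tr (.lf 14) (.dx 0 (.tr (.tw (.lf 5) (.lf 13)) (.lf 6) (.lf 9))) (.tr (.lf 17) (.lf 10) (.lf 18))), 0, [15, 15, 15, 15, 15, 15, 15, 15], []⟩)))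
    (.nd (.nd (.lf ⟨[.negSucc 80995679, .ofNat 237477640, .negSucc 240230679, .ofNat 88573240, .negSucc 14371319], (.tr (.dx 0 (.tr (.tw (.lf 5) (.lf 6)) (.lf 9) (.lf 13))) (.tr (.lf 17) (.lf 10) (.lf 18)) (.lf 14)), 0, [0, 0, 0, 0, 5, 5, 5, 5], []⟩)
    (.lf ⟨[.ofNat 36000720, .negSucc 131676619, .ofNat 136118480, .negSucc 50735179, .ofNat 8183880], (.tr (.dx 0 (.tr (.lf 9) (.tw (.lf 5) (.lf 6)) (.lf 13))) (.tr (.lf 17) (.lf 10) (.lf 18)) (.lf 14)), 0, [20, 20, 20, 20, 10, 10, 10, 10], []⟩))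
    (.nd (.lf ⟨[.negSucc 77791679, .ofNat 272647120, .negSucc 281782719, .ofNat 104731600, .negSucc 16946879], (.tr (.dx 0 (.tr (.tw (.lf 5) (.lf 13)) (.lf 6) (.lf 9))) (.tr (.lf 17) (.lf 10) (.lf 18)) (.lf 14)), 0, [0, 0, 10, 10, 20, 20, 20, 20], []⟩)
    (.lf ⟨[.ofNat 2631600, .negSucc 11058899, .ofNat 11259360, .negSucc 4501619, .ofNat 746760], (.tr (.lf 10) (.lf 14) (.tr (.lf 17) (.dx 0 (.tr (.lf 5) (.tw (.lf 9) (.lf 13)) (.lf 6))) (.lf 18))), 0, [6, 6, 6, 6, 6, 6, 6, 6], []⟩))))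

/-- data -/
def dV5x14 : RT := (.nd (.nd (.nd (.lf ⟨[.ofNat 0, .negSucc 573119, .ofNat 1127040, .negSucc 81599, .negSucc 60959], (.tr (.lf 10) (.lf 14) (.tr (.lf 17) (.dx 0 (.tr (.lf 5) (.lf 9) (.tw (.lf 6) (.lf 13)))) (.lf 18))), 0, [6, 6, 6, 6, 6, 6, 6, 6], []⟩)
    (.lf ⟨[.ofNat 0, .negSucc 1025279, .ofNat 1255440, .negSucc 506399, .ofNat 91440], (.tr (.lf 14) (.lf 10) (.tr (.lf 17) (.dx 0 (.tr (.lf 5) (.tw (.lf 9) (.lf 13)) (.lf 6))) (.lf 18))), 0, [3, 3, 3, 3, 3, 3, 3, 3], []⟩))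
    (.nd (.lf ⟨[.negSucc 766079, .ofNat 2846880, .negSucc 2734079, .ofNat 823200, .negSucc 121919], (.tr (.dx 0 (.tr (.lf 5) (.lf 6) (.tr (.lf 9) (.lf 13) (.lf 10)))) (.lf 14) (.tw (.lf 17) (.lf 18))), 0, [39, 39, 39, 39, 39, 39, 39, 39], []⟩)
    (.lf ⟨[.negSucc 31455359, .ofNat 76038240, .negSucc 70228319, .ofNat 26057760, .negSucc 4084319], (.tr (.dx 0 (.tr (.lf 9) (.lf 5) (.tr (.lf 6) (.lf 10) (.lf 13)))) (.lf 14) (.tw (.lf 17) (.lf 18))), 0, [39, 39, 39, 39, 39, 39, 39, 39], []⟩)))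
    (.nd (.nd (.lf ⟨[.ofNat 53281440, .negSucc 165942279, .ofNat 171818740, .negSucc 63561519, .ofNat 10507980], (.tr (.dx 0 (.tr (.lf 5) (.lf 13) (.tr (.lf 9) (.lf 6) (.lf 10)))) (.lf 14) (.tw (.lf 17) (.lf 18))), 0, [39, 39, 39, 39, 39, 39, 39, 39], []⟩)
    (.lf ⟨[.negSucc 44897759, .ofNat 139794760, .negSucc 145112079, .ofNat 55935400, .negSucc 9448799], (.tr (.dx 0 (.tr (.lf 5) (.lf 13) (.tr (.lf 9) (.lf 6) (.lf 10)))) (.tw (.lf 14) (.lf 17)) (.lf 18)), 0, [39, 39, 39, 39, 39, 39, 39, 39], []⟩))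
    (.nd (.lf ⟨[.ofNat 171033120, .negSucc 541439879, .ofNat 556641720, .negSucc 205406999, .ofNat 33299400], (.tr (.dx 0 (.tr (.lf 9) (.tr (.lf 5) (.lf 6) (.lf 13)) (.lf 10))) (.lf 14) (.tw (.lf 17) (.lf 18))), 0, [39, 39, 39, 39, 39, 39, 39, 39], []⟩)
    (.lf ⟨[.ofNat 3620160, .negSucc 11810159, .ofNat 12401280, .negSucc 4809839, .ofNat 792480], (.tr (.dx 0 (.tr (.lf 13) (.lf 9) (.tr (.lf 5) (.lf 6) (.lf 10)))) (.lf 14) (.tw (.lf 17) (.lf 18))), 0, [39, 39, 39, 39, 39, 39, 39, 39], []⟩))))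

/-- data -/
def dV5x15 : RT := (.nd (.nd (.nd (.lf ⟨[.negSucc 28100879, .ofNat 88211100, .negSucc 91822679, .ofNat 31688940, .negSucc 5181599], (.tr (.dx 0 (.tr (.lf 9) (.lf 13) (.tr (.lf 5) (.lf 10) (.lf 6)))) (.lf 14) (.tw (.lf 17) (.lf 18))), 0, [39, 39, 39, 39, 39, 39, 39, 39], []⟩)
    (.lf ⟨[.ofNat 6173280, .ofNat 1044440, .negSucc 4423999, .negSucc 432999, .ofNat 274320], (.tr (.dx 0 (.tr (.lf 9) (.lf 13) (.tr (.lf 5) (.lf 10) (.lf 6)))) (.tw (.lf 14) (.lf 17)) (.lf 18)), 0, [39, 39, 39, 39, 39, 39, 39, 39], []⟩))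
    (.nd (.lf ⟨[.negSucc 171799199, .ofNat 542397480, .negSucc 557086199, .ofNat 205467960, .negSucc 33299399], (.tr (.dx 0 (.tw (.lf 9) (.tr (.tw (.lf 5) (.lf 6)) (.lf 13) (.lf 10)))) (.lf 14) (.tw (.lf 17) (.lf 18))), 0, [39, 39, 39, 39, 39, 39, 39, 39, 39, 39, 39, 39, 39, 39, 39, 39], []⟩)
    (.lf ⟨[.ofNat 360679680, .negSucc 1149941279, .ofNat 1182871920, .negSucc 437486399, .ofNat 70926960], (.tr (.lf 17) (.lf 18) (.tr (.dx 0 (.tr (.lf 5) (.lf 6) (.lf 13))) (.tw (.lf 9) (.lf 10)) (.lf 14))), 0, [2, 2, 2, 2, 38, 38, 38, 38], []⟩)))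
    (.nd (.nd (.lf ⟨[.negSucc 703814399, .ofNat 2248811520, .negSucc 2314360799, .ofNat 855489600, .negSucc 138683999], (.tr (.dx 0 (.tr (.lf 5) (.lf 6) (.lf 13))) (.tr (.tw (.lf 9) (.lf 10)) (.lf 14) (.lf 17)) (.lf 18)), 0, [39, 39, 15, 15, 39, 39, 15, 15], []⟩)
    (.lf ⟨[.ofNat 674966880, .negSucc 2167468199, .ofNat 2233494240, .negSucc 825038759, .ofNat 133776720], (.tw (.dx 0 (.tr (.lf 5) (.lf 6) (.lf 13))) (.tr (.lf 9) (.tr (.lf 14) (.lf 17) (.lf 18)) (.lf 10))), 0, [0, 0, 0, 0, 29, 7, 29, 7], []⟩))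
    (.nd (.lf ⟨[.negSucc 391679, .ofNat 322560], (.tr (.dx 0 (.tr (.lf 5) (.lf 6) (.lf 13))) (.lf 9) (.tr (.lf 10) (.tw (.lf 17) (.lf 18)) (.lf 14))), 0, [0, 0, 0, 0, 5, 5, 29, 29], []⟩)
    (.lf ⟨[.negSucc 608876639, .ofNat 1922600680, .negSucc 1977324879, .ofNat 725475400, .negSucc 117530879], (.tr (.dx 0 (.tr (.lf 5) (.lf 6) (.lf 13))) (.tr (.lf 9) (.tw (.lf 17) (.lf 18)) (.lf 14)) (.lf 10)), 0, [0, 0, 29, 29, 7, 7, 29, 29], []⟩))))

/-- data -/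
def dV5x16 : RT := (.nd (.nd (.nd (.lf ⟨[.ofNat 570263040, .negSucc 1808110399, .ofNat 1862616560, .negSucc 684920479, .ofNat 111038640], (.tr (.dx 0 (.tr (.lf 5) (.lf 6) (.lf 13))) (.lf 14) (.tr (.tw (.lf 9) (.lf 10)) (.lf 17) (.lf 18))), 0, [15, 15, 29, 29, 15, 15, 29, 29], []⟩)
    (.lf ⟨[.negSucc 566979839, .ofNat 1795097600, .negSucc 1848464239, .ofNat 678904160, .negSucc 110063279], (.tr (.dx 0 (.tr (.lf 5) (.lf 6) (.lf 13))) (.tr (.lf 14) (.tw (.lf 9) (.lf 10)) (.lf 17)) (.lf 18)), 0, [15, 15, 0, 0, 15, 15, 10, 10], []⟩))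
    (.nd (.lf ⟨[.ofNat 38613600, .negSucc 114490279, .ofNat 114708320, .negSucc 40554919, .ofNat 6492240], (.tr (.lf 9) (.lf 10) (.tr (.dx 0 (.tr (.lf 5) (.lf 6) (.lf 13))) (.lf 14) (.tw (.lf 17) (.lf 18)))), 0, [12, 12, 12, 12, 28, 28, 28, 28], []⟩)
    (.lf ⟨[.negSucc 40145759, .ofNat 123962600, .negSucc 124755679, .ofNat 43725800, .negSucc 6979919], (.tr (.lf 17) (.lf 18) (.tr (.tw (.lf 9) (.lf 10)) (.dx 0 (.tr (.lf 5) (.lf 6) (.lf 13))) (.lf 14))), 0, [14, 14, 14, 14, 13, 13, 13, 13], []⟩)))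
    (.nd (.nd (.lf ⟨[.ofNat 40145760, .negSucc 123962599, .ofNat 124755680, .negSucc 43725799, .ofNat 6979920], (.tr (.lf 14) (.tr (.dx 0 (.tr (.lf 5) (.lf 6) (.lf 13))) (.tw (.lf 9) (.lf 10)) (.lf 17)) (.lf 18)), 0, [15, 15, 15, 15, 3, 3, 3, 3], []⟩)
    (.lf ⟨[.negSucc 17081279, .ofNat 65146320, .negSucc 68699519, .ofNat 26550480, .negSucc 4328159], (.tr (.dx 0 (.tr (.lf 9) (.lf 10) (.tr (.lf 5) (.lf 6) (.lf 13)))) (.lf 14) (.tw (.lf 17) (.lf 18))), 0, [39, 39, 39, 39, 39, 39, 39, 39], []⟩))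
    (.nd (.lf ⟨[.ofNat 349355520, .negSucc 1128586079, .ofNat 1162984560, .negSucc 430124159, .ofNat 69707760], (.tr (.lf 14) (.dx 0 (.tr (.lf 9) (.tr (.lf 5) (.lf 6) (.lf 10)) (.lf 13))) (.tw (.lf 17) (.lf 18))), 0, [3, 3, 3, 3, 3, 3, 3, 3], []⟩)
    (.lf ⟨[.negSucc 169757279, .ofNat 543530040, .negSucc 559543799, .ofNat 206596680, .negSucc 33482279], (.tr (.lf 14) (.dx 0 (.tw (.lf 13) (.tr (.tw (.lf 5) (.lf 6)) (.lf 9) (.lf 10)))) (.tw (.lf 17) (.lf 18))), 0, [3, 3, 3, 3, 3, 3, 3, 3, 3, 3, 3, 3, 3, 3, 3, 3], []⟩))))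

/-- data -/
def dV5x17 : RT := (.nd (.nd (.nd (.lf ⟨[.ofNat 343134720, .negSucc 1098870239, .ofNat 1131488880, .negSucc 418003199, .ofNat 67757040], (.tr (.lf 14) (.dx 0 (.tr (.lf 5) (.lf 6) (.tr (.lf 9) (.lf 10) (.lf 13)))) (.tw (.lf 17) (.lf 18))), 0, [3, 3, 3, 3, 3, 3, 3, 3], []⟩)
    (.lf ⟨[.negSucc 343134719, .ofNat 1098870240, .negSucc 1131488879, .ofNat 418003200, .negSucc 67757039], (.tr (.lf 9) (.lf 10) (.tr (.dx 0 (.tr (.lf 5) (.lf 6) (.lf 17))) (.tw (.lf 13) (.lf 14)) (.lf 18))), 0, [12, 12, 12, 12, 28, 28, 28, 28], []⟩))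
    (.nd (.lf ⟨[.negSucc 13461119, .ofNat 53336160, .negSucc 56298239, .ofNat 21740640, .negSucc 3535679], (.tr (.lf 13) (.lf 14) (.tr (.dx 0 (.lf 5)) (.tr (.tw (.lf 9) (.lf 10)) (.lf 17) (.lf 18)) (.lf 6))), 0, [22, 22, 22, 22, 18, 18, 18, 18], [22, 22, 22, 22, 18, 18, 18, 18]⟩)
    (.lf ⟨[.ofNat 236160, .ofNat 45839520, .negSucc 72976799, .negSucc 114328799, .ofNat 217066080, .negSucc 95471039, .ofNat 16946880], (.tw (.dx 1 .on) (.tr (.lf 15) (.tr (.tw (.lf 1) (.lf 2)) (.lf 9) (.lf 10)) (.lf 19))), 1, [24, 24, 24, 24, 16, 16, 16, 16], [15, 15, 3, 3, 37, 37, 23, 23]⟩)))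
    (.nd (.nd (.lf ⟨[.negSucc 1445759, .ofNat 5135520, .negSucc 5489279, .ofNat 2205600, .negSucc 365759], (.tr (.dx 0 (.tr (.lf 5) (.lf 9) (.tr (.lf 10) (.lf 6) (.lf 13)))) (.tw (.lf 17) (.lf 18)) (.lf 14)), 0, [5, 5, 5, 5, 5, 5, 5, 5], []⟩)
    (.lf ⟨[.negSucc 10362239, .ofNat 28107360, .negSucc 27892799, .ofNat 10514400, .negSucc 1706879], (.tr (.dx 0 (.tr (.lf 13) (.lf 5) (.tr (.lf 6) (.lf 9) (.lf 10)))) (.tw (.lf 17) (.lf 18)) (.lf 14)), 0, [5, 5, 5, 5, 5, 5, 5, 5], []⟩))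
    (.nd (.lf ⟨[.negSucc 9228239, .ofNat 25522380, .negSucc 25388879, .ofNat 9547020, .negSucc 1569719], (.tr (.dx 0 (.tr (.lf 13) (.lf 5) (.tr (.lf 9) (.lf 6) (.lf 10)))) (.tw (.lf 17) (.lf 18)) (.lf 14)), 0, [5, 5, 5, 5, 5, 5, 5, 5], []⟩)
    (.lf ⟨[.negSucc 90917279, .ofNat 269500120, .negSucc 270769479, .ofNat 98933800, .negSucc 15986759], (.tr (.dx 0 (.tr (.lf 9) (.tr (.lf 5) (.lf 6) (.lf 13)) (.lf 10))) (.tw (.lf 17) (.lf 18)) (.lf 14)), 0, [5, 5, 5, 5, 5, 5, 5, 5], []⟩))))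

/-- data -/
def dV5x18 : RT := (.nd (.nd (.nd (.lf ⟨[.ofNat 3833280, .negSucc 10361039, .ofNat 10088160, .negSucc 3772559, .ofNat 609600], (.tr (.dx 0 (.tw (.lf 9) (.tr (.tw (.lf 5) (.lf 6)) (.lf 13) (.lf 10)))) (.tw (.lf 17) (.lf 18)) (.lf 14)), 0, [5, 5, 5, 5, 5, 5, 5, 5, 5, 5, 5, 5, 5, 5, 5, 5], []⟩)
    (.lf ⟨[.negSucc 3761279, .ofNat 13029600, .negSucc 13658879, .ofNat 5290080, .negSucc 853439], (.tr (.lf 14) (.dx 0 (.tr (.lf 5) (.lf 6) (.tr (.lf 9) (.lf 13) (.lf 10)))) (.tw (.lf 17) (.lf 18))), 0, [3, 3, 3, 3, 3, 3, 3, 3], []⟩))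
    (.nd (.lf ⟨[.negSucc 7505279, .ofNat 4960240, .ofNat 1549580, .ofNat 1053400, .negSucc 114299], (.tr (.lf 14) (.dx 0 (.tr (.lf 5) (.lf 13) (.tr (.lf 9) (.lf 6) (.lf 10)))) (.tw (.lf 17) (.lf 18))), 0, [3, 3, 3, 3, 3, 3, 3, 3], []⟩)
    (.lf ⟨[.negSucc 29079359, .ofNat 118966160, .negSucc 126518119, .ofNat 42173600, .negSucc 6568439], (.tr (.dx 0 (.tr (.lf 5) (.lf 17) (.lf 6))) (.lf 9) (.tr (.lf 10) (.tw (.lf 13) (.lf 14)) (.lf 18))), 0, [39, 39, 7, 7, 39, 39, 7, 7], []⟩)))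
    (.nd (.nd (.lf ⟨[.ofNat 76987440, .negSucc 254768819, .ofNat 263145960, .negSucc 91004579, .ofNat 14508480], (.tr (.dx 0 (.tr (.lf 5) (.lf 17) (.lf 6))) (.tr (.lf 9) (.lf 18) (.tw (.lf 13) (.lf 14))) (.lf 10)), 0, [7, 7, 29, 29, 7, 7, 29, 29], []⟩)
    (.lf ⟨[.ofNat 29079360, .negSucc 117626959, .ofNat 124846760, .negSucc 41452639, .ofNat 6446520], (.tr (.lf 18) (.lf 13) (.tr (.dx 0 (.tr (.lf 5) (.lf 17) (.lf 6))) (.tw (.lf 9) (.lf 10)) (.lf 14))), 0, [37, 37, 37, 37, 38, 38, 38, 38], []⟩))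
    (.nd (.lf ⟨[.ofNat 45408240, .negSucc 105107779, .ofNat 99386960, .negSucc 41170819, .ofNat 6903720], (.tr (.lf 13) (.tr (.tw (.lf 9) (.lf 10)) (.dx 0 (.tr (.lf 5) (.lf 17) (.lf 6))) (.lf 14)) (.lf 18)), 0, [36, 36, 36, 36, 22, 22, 22, 22], []⟩)
    (.lf ⟨[.negSucc 26218799, .ofNat 80016180, .negSucc 84174719, .ofNat 32406420, .negSucc 5410199], (.tr (.lf 18) (.lf 9) (.tr (.lf 10) (.dx 0 (.tr (.lf 5) (.lf 17) (.lf 6))) (.tw (.lf 13) (.lf 14)))), 0, [23, 23, 23, 23, 14, 14, 14, 14], []⟩))))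

/-- data -/
def dV5x19 : RT := (.nd (.nd (.nd (.lf ⟨[.negSucc 18092159, .ofNat 23728640, .negSucc 17114479, .ofNat 10310240, .negSucc 1859279], (.tr (.lf 13) (.lf 14) (.tr (.dx 0 (.tr (.lf 5) (.lf 17) (.lf 6))) (.tw (.lf 9) (.lf 10)) (.lf 18))), 0, [22, 22, 22, 22, 4, 4, 4, 4], []⟩)
    (.lf ⟨[.negSucc 5539679, .ofNat 35719080, .negSucc 41589479, .ofNat 13071480, .negSucc 2026919], (.tr (.dx 0 (.tr (.lf 5) (.lf 17) (.lf 6))) (.lf 9) (.tr (.lf 10) (.lf 18) (.tw (.lf 13) (.lf 14)))), 0, [5, 5, 29, 29, 5, 5, 29, 29], []⟩))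
    (.nd (.lf ⟨[.negSucc 74487599, .ofNat 222734740, .negSucc 224233719, .ofNat 82623460, .negSucc 13350239], (.tw (.lf 18) (.tr (.lf 13) (.tr (.dx 0 (.tr (.lf 5) (.lf 17) (.lf 6))) (.lf 9) (.lf 10)) (.lf 14))), 0, [37, 37, 38, 38, 37, 37, 38, 38], []⟩)
    (.lf ⟨[.ofNat 1532160, .negSucc 9472319, .ofNat 10047360, .negSucc 3170879, .ofNat 487680], (.tr (.lf 9) (.lf 10) (.tr (.dx 0 (.tr (.lf 5) (.lf 6) (.lf 17))) (.lf 18) (.tw (.lf 13) (.lf 14)))), 0, [5, 5, 5, 5, 6, 6, 6, 6], []⟩)))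
    (.nd (.nd (.lf ⟨[.negSucc 1532159, .ofNat 9472320, .negSucc 10047359, .ofNat 3170880, .negSucc 487679], (.tr (.dx 0 (.tr (.lf 5) (.lf 6) (.lf 17))) (.tr (.lf 9) (.tw (.lf 13) (.lf 14)) (.lf 18)) (.lf 10)), 0, [0, 0, 7, 7, 29, 29, 7, 7], []⟩)
    (.lf ⟨[.negSucc 10945439, .ofNat 30496920, .negSucc 31651199, .ofNat 11971800, .negSucc 1981199], (.tr (.dx 0 (.tr (.lf 5) (.lf 6) (.lf 9))) (.lf 13) (.tr (.lf 10) (.tw (.lf 17) (.lf 18)) (.lf 14))), 0, [0, 0, 0, 0, 5, 5, 29, 29], []⟩))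
    (.nd (.lf ⟨[.ofNat 21307680, .negSucc 58604279, .ofNat 59544000, .negSucc 22486199, .ofNat 3688080], (.tr (.lf 10) (.lf 17) (.tr (.dx 0 (.tr (.lf 5) (.lf 6) (.lf 9))) (.tw (.lf 13) (.lf 14)) (.lf 18))), 0, [39, 39, 39, 39, 28, 1, 28, 1], []⟩)
    (.lf ⟨[.ofNat 82939680, .negSucc 288520759, .ofNat 298051280, .negSucc 115106839, .ofNat 18714720], (.tr (.lf 9) (.tr (.lf 10) (.dx 0 (.tr (.lf 5) (.lf 6) (.lf 17))) (.tw (.lf 13) (.lf 14))) (.lf 18)), 0, [12, 12, 12, 12, 6, 6, 6, 6], []⟩))))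

/-- data -/
def dV5x20 : RT := (.nd (.nd (.nd (.lf ⟨[.ofNat 4919040, .negSucc 12555839, .ofNat 12080640, .negSucc 4514879, .ofNat 731520], (.tr (.lf 18) (.lf 9) (.tr (.dx 0 (.tr (.lf 5) (.lf 6) (.lf 17))) (.tw (.lf 13) (.lf 14)) (.lf 10))), 0, [7, 7, 7, 7, 14, 14, 14, 14], []⟩)
    (.lf ⟨[.negSucc 66193919, .ofNat 179704640, .negSucc 180343759, .ofNat 62412320, .negSucc 10119359], (.tr (.lf 18) (.lf 9) (.tr (.lf 13) (.tw (.dx 0 (.tr (.lf 5) (.lf 17) (.lf 6))) (.lf 10)) (.lf 14))), 0, [14, 14, 14, 14, 14, 14, 14, 14], []⟩))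
    (.nd (.lf ⟨[.ofNat 421200, .ofNat 3507540, .negSucc 5810759, .ofNat 2398020, .negSucc 396239], (.tr (.lf 13) (.tr (.lf 9) (.tw (.dx 0 (.tr (.lf 5) (.lf 17) (.lf 6))) (.lf 14)) (.lf 10)) (.lf 18)), 0, [15, 15, 36, 36, 15, 15, 36, 36], []⟩)
    (.lf ⟨[.negSucc 77791679, .ofNat 276149200, .negSucc 284388639, .ofNat 105540880, .negSucc 17007839], (.tr (.lf 18) (.lf 9) (.tr (.tw (.dx 0 (.tr (.lf 5) (.lf 17) (.lf 6))) (.lf 13)) (.lf 10) (.lf 14))), 0, [37, 37, 14, 14, 14, 14, 14, 14], []⟩)))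
    (.nd (.nd (.lf ⟨[.ofNat 38895840, .negSucc 138074599, .ofNat 142194320, .negSucc 52770439, .ofNat 8503920], (.tw (.dx 0 (.tr (.lf 5) (.lf 17) (.lf 6))) (.tr (.lf 18) (.lf 9) (.tr (.lf 13) (.lf 10) (.lf 14)))), 0, [37, 37, 15, 15, 37, 37, 15, 15], []⟩)
    (.lf ⟨[.ofNat 0, .ofNat 2759040, .negSucc 2733119, .ofNat 946560, .negSucc 121919], (.tw (.lf 13) (.tr (.dx 0 (.tr (.lf 5) (.lf 17) (.lf 6))) (.lf 18) (.tr (.lf 9) (.lf 14) (.lf 10)))), 0, [7, 7, 7, 7, 36, 36, 36, 36], []⟩))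
    (.nd (.lf ⟨[.ofNat 37368000, .negSucc 132894319, .ofNat 138683360, .negSucc 51108079, .ofNat 8229600], (.tw (.lf 18) (.tr (.lf 9) (.dx 0 (.tr (.lf 5) (.lf 17) (.lf 6))) (.tr (.lf 13) (.lf 10) (.lf 14)))), 0, [37, 37, 37, 37, 38, 38, 38, 38], []⟩)
    (.lf ⟨[.ofNat 0, .ofNat 351360, .negSucc 652319, .ofNat 358080, .negSucc 60959], (.tr (.lf 18) (.lf 13) (.tr (.lf 9) (.tw (.dx 0 (.tr (.lf 5) (.lf 17) (.lf 6))) (.lf 14)) (.lf 10))), 0, [38, 38, 38, 38, 38, 38, 38, 38], []⟩))))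

/-- data -/
def dV5x21 : RT := (.nd (.nd (.nd (.lf ⟨[.negSucc 77791679, .ofNat 270631120, .negSucc 278922399, .ofNat 103647760, .negSucc 16763999], (.tr (.dx 0 (.tr (.lf 5) (.lf 17) (.lf 6))) (.lf 18) (.tr (.lf 9) (.lf 13) (.tw (.lf 10) (.lf 14)))), 0, [37, 7, 7, 7, 37, 7, 7, 7], []⟩)
    (.lf ⟨[.ofNat 38895840, .negSucc 135315559, .ofNat 139461200, .negSucc 51823879, .ofNat 8382000], (.tw (.dx 0 (.tr (.lf 5) (.lf 17) (.lf 6))) (.tr (.lf 9) (.tr (.lf 13) (.lf 10) (.lf 14)) (.lf 18))), 0, [39, 39, 7, 7, 39, 39, 7, 7], []⟩))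
    (.nd (.lf ⟨[.ofNat 603329760, .negSucc 1909219719, .ofNat 1964926480, .negSucc 720899559, .ofNat 116799360], (.tr (.lf 18) (.lf 13) (.tr (.tw (.lf 9) (.lf 10)) (.dx 0 (.tr (.lf 5) (.lf 6) (.lf 17))) (.lf 14))), 0, [38, 38, 38, 38, 13, 13, 13, 13], []⟩)
    (.lf ⟨[.negSucc 99156959, .ofNat 345976840, .negSucc 358479279, .ofNat 135542440, .negSucc 22006559], (.tw (.lf 18) (.tr (.lf 9) (.tr (.dx 0 (.tr (.lf 5) (.lf 6) (.lf 17))) (.lf 13) (.lf 14)) (.lf 10))), 0, [7, 7, 14, 14, 7, 7, 14, 14], []⟩)))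
    (.nd (.nd (.lf ⟨[.negSucc 3283199, .ofNat 13012800, .negSucc 14152319, .ofNat 6016320, .negSucc 975359], (.tr (.lf 9) (.tr (.dx 0 (.tr (.lf 5) (.lf 6) (.lf 17))) (.tw (.lf 13) (.lf 14)) (.lf 10)) (.lf 18)), 0, [15, 15, 15, 15, 6, 6, 6, 6], []⟩)
    (.lf ⟨[.negSucc 18308879, .ofNat 61119580, .negSucc 64402719, .ofNat 23355580, .negSucc 3794759], (.tw (.lf 18) (.tr (.lf 9) (.tr (.lf 13) (.dx 0 (.tr (.lf 5) (.lf 6) (.lf 17))) (.lf 14)) (.lf 10))), 0, [14, 14, 14, 14, 14, 14, 14, 14], []⟩))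
    (.nd (.lf ⟨[.ofNat 431532000, .negSucc 1314866759, .ofNat 1343092800, .negSucc 487937159, .ofNat 79095600], (.tr (.lf 10) (.dx 0 (.tr (.tw (.lf 5) (.lf 6)) (.lf 9) (.lf 17))) (.tr (.lf 13) (.lf 14) (.lf 18))), 0, [39, 5, 39, 5, 39, 5, 39, 5], []⟩)
    (.lf ⟨[.negSucc 204176159, .ofNat 623915160, .negSucc 637579199, .ofNat 231495960, .negSucc 37520879], (.tw (.lf 10) (.tr (.dx 0 (.tr (.tw (.lf 5) (.lf 6)) (.lf 9) (.lf 17))) (.tw (.lf 13) (.lf 14)) (.lf 18))), 0, [39, 39, 39, 39, 39, 39, 39, 39, 28, 28, 1, 1, 28, 28, 1, 1], []⟩))))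

/-- data -/
def dV5x22 : RT := (.nd (.nd (.nd (.lf ⟨[.ofNat 564975360, .negSucc 1715037439, .ofNat 1745138000, .negSucc 633831199, .ofNat 102626160], (.tr (.lf 10) (.lf 18) (.tr (.dx 0 (.tr (.tw (.lf 5) (.lf 6)) (.lf 9) (.lf 17))) (.lf 13) (.lf 14))), 0, [23, 23, 23, 23, 28, 28, 1, 1], []⟩)
    (.lf ⟨[.negSucc 23631839, .ofNat 59447720, .negSucc 58703959, .ofNat 23381720, .negSucc 3886199], (.tw (.dx 0 (.tr (.tw (.lf 5) (.lf 6)) (.lf 9) (.lf 13))) (.tr (.lf 14) (.lf 10) (.tw (.lf 17) (.lf 18)))), 0, [15, 15, 0, 0, 15, 15, 0, 0, 15, 15, 10, 10, 15, 15, 10, 10], []⟩))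
    (.nd (.lf ⟨[.negSucc 33668639, .ofNat 137690680, .negSucc 149643039, .ofNat 55280440, .negSucc 8991599], (.tr (.dx 0 (.tr (.tw (.lf 5) (.lf 6)) (.lf 9) (.lf 13))) (.tr (.lf 10) (.lf 17) (.lf 18)) (.lf 14)), 0, [0, 0, 0, 0, 5, 10, 5, 10], []⟩)
    (.lf ⟨[.ofNat 5873040, .negSucc 13046459, .ofNat 12345480, .negSucc 4696619, .ofNat 762000], (.tw (.dx 0 (.tr (.lf 13) (.tw (.lf 5) (.tr (.lf 6) (.lf 17) (.tw (.lf 9) (.lf 10)))) (.lf 14))) (.lf 18)), 0, [10, 10, 10, 10, 10, 10, 3, 3, 10, 10, 10, 10, 10, 10, 3, 3], []⟩)))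
    (.nd (.nd (.lf ⟨[.ofNat 66578400, .negSucc 217996999, .ofNat 227694800, .negSucc 87093799, .ofNat 14325600], (.tr (.dx 0 (.tr (.tw (.lf 5) (.lf 6)) (.lf 9) (.lf 13))) (.lf 17) (.tr (.lf 14) (.lf 10) (.lf 18))), 0, [0, 0, 0, 0, 15, 10, 15, 10], []⟩)
    (.lf ⟨[.ofNat 24863040, .negSucc 101054319, .ofNat 108607840, .negSucc 39192879, .ofNat 6339840], (.tr (.lf 14) (.lf 17) (.tr (.dx 0 (.tr (.tw (.lf 5) (.lf 6)) (.lf 9) (.lf 13))) (.lf 10) (.lf 18))), 0, [15, 15, 4, 4, 4, 4, 1, 1], []⟩))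
    (.nd (.lf ⟨[.ofNat 76987440, .negSucc 254768819, .ofNat 263145960, .negSucc 91004579, .ofNat 14508480], (.tw (.dx 0 (.tr (.tw (.lf 5) (.lf 6)) (.lf 13) (.lf 9))) (.tr (.lf 10) (.lf 14) (.tw (.lf 17) (.lf 18)))), 0, [39, 39, 0, 0, 39, 39, 0, 0, 39, 39, 7, 7, 39, 39, 7, 7], []⟩)
    (.lf ⟨[.negSucc 76987439, .ofNat 254768820, .negSucc 263145959, .ofNat 91004580, .negSucc 14508479], (.tw (.lf 18) (.tr (.tw (.lf 9) (.lf 10)) (.dx 0 (.tr (.tw (.lf 5) (.lf 6)) (.lf 17) (.lf 13))) (.lf 14))), 0, [23, 23, 14, 14, 23, 23, 14, 14, 13, 13, 13, 13, 13, 13, 13, 13], []⟩))))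

/-- data -/
def dV5x23 : RT := (.nd (.nd (.nd (.lf ⟨[.ofNat 163887840, .negSucc 530713799, .ofNat 550617360, .negSucc 191703719, .ofNat 30723840], (.tr (.lf 14) (.tr (.dx 0 (.tr (.tw (.lf 5) (.lf 6)) (.lf 17) (.lf 13))) (.lf 9) (.lf 10)) (.lf 18)), 0, [15, 15, 22, 22, 36, 36, 36, 36], []⟩)
    (.lf ⟨[.negSucc 168328799, .ofNat 548126760, .negSucc 565648079, .ofNat 196959240, .negSucc 31455359], (.tr (.dx 0 (.tr (.tw (.lf 5) (.lf 6)) (.lf 13) (.lf 9))) (.lf 17) (.tr (.lf 10) (.lf 14) (.lf 18))), 0, [0, 0, 0, 0, 39, 7, 39, 7], []⟩))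
    (.nd (.lf ⟨[.negSucc 133221599, .ofNat 423737000, .negSucc 439465399, .ofNat 165171800, .negSucc 26990039], (.tr (.lf 17) (.lf 14) (.tr (.dx 0 (.tr (.tw (.lf 5) (.lf 6)) (.lf 13) (.lf 9))) (.lf 18) (.lf 10))), 0, [29, 29, 38, 38, 38, 38, 1, 1], []⟩)
    (.lf ⟨[.ofNat 90882720, .negSucc 277582599, .ofNat 283841980, .negSucc 102929919, .ofNat 16619220], (.tw (.dx 0 (.tr (.tw (.lf 5) (.lf 6)) (.lf 13) (.lf 9))) (.tr (.lf 17) (.tw (.lf 10) (.lf 14)) (.lf 18))), 0, [0, 0, 0, 0, 0, 0, 0, 0, 39, 15, 39, 15, 39, 15, 39, 15], []⟩)))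
    (.nd (.nd (.lf ⟨[.ofNat 6508800, .negSucc 18821279, .ofNat 18692160, .negSucc 7262879, .ofNat 1158240], (.tr (.lf 10) (.tr (.lf 13) (.dx 0 (.tr (.tw (.lf 5) (.lf 6)) (.lf 17) (.lf 9))) (.lf 14)) (.lf 18)), 0, [6, 6, 6, 6, 6, 6, 6, 6], []⟩)
    (.lf ⟨[.negSucc 194783039, .ofNat 592773200, .negSucc 605177719, .ofNat 220425920, .negSucc 35554919], (.tr (.dx 0 (.tr (.tw (.lf 5) (.lf 6)) (.lf 13) (.lf 9))) (.lf 17) (.tr (.lf 14) (.lf 10) (.lf 18))), 0, [0, 0, 0, 0, 15, 20, 15, 20], []⟩))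
    (.nd (.lf ⟨[.ofNat 4960800, .negSucc 44775479, .ofNat 55241760, .negSucc 22468919, .ofNat 3688080], (.tr (.dx 0 (.tr (.lf 5) (.lf 6) (.tr (.lf 13) (.tw (.lf 9) (.lf 10)) (.lf 17)))) (.lf 14) (.lf 18)), 0, [0, 0, 0, 0, 39, 39, 30, 30], []⟩)
    (.lf ⟨[.ofNat 96855840, .negSucc 292346439, .ofNat 297437500, .negSucc 108077439, .ofNat 17411700], (.tr (.dx 0 (.tr (.lf 17) (.tr (.lf 5) (.lf 6) (.lf 9)) (.lf 18))) (.tw (.lf 13) (.lf 14)) (.lf 10)), 0, [7, 7, 7, 7, 7, 7, 7, 7], []⟩))))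

/-- data -/
def dV5x24 : RT := (.nd (.nd (.nd (.lf ⟨[.ofNat 64287360, .negSucc 203805999, .ofNat 210494140, .negSucc 79039719, .ofNat 12900660], (.tw (.lf 10) (.tr (.lf 17) (.tw (.dx 0 (.tr (.tw (.lf 5) (.lf 6)) (.lf 13) (.lf 9))) (.lf 14)) (.lf 18))), 0, [39, 39, 28, 28, 3, 3, 3, 3, 39, 39, 28, 28, 3, 3, 3, 3], []⟩)
    (.lf ⟨[.negSucc 7845119, .ofNat 20053440, .negSucc 22847039, .ofNat 9295680, .negSucc 1584959], (.tr (.lf 17) (.dx 0 (.tr (.tw (.lf 5) (.lf 6)) (.lf 13) (.lf 9))) (.tr (.lf 10) (.lf 18) (.lf 14))), 0, [2, 2, 2, 2, 2, 2, 2, 2], []⟩))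
    (.nd (.lf ⟨[.negSucc 6081119, .ofNat 11504040, .negSucc 10082879, .ofNat 3555240, .negSucc 579119], (.tw (.lf 14) (.tr (.dx 0 (.tr (.tw (.lf 5) (.lf 6)) (.lf 9) (.lf 13))) (.lf 10) (.tw (.lf 17) (.lf 18)))), 0, [15, 15, 15, 15, 15, 15, 15, 15, 4, 4, 1, 1, 4, 4, 1, 1], []⟩)
    (.lf ⟨[.ofNat 90259920, .negSucc 254813739, .ofNat 257117440, .negSucc 90550539, .ofNat 14554200], (.tw (.lf 14) (.tr (.lf 17) (.tw (.dx 0 (.tr (.tw (.lf 5) (.lf 6)) (.lf 9) (.lf 13))) (.lf 10)) (.lf 18))), 0, [15, 15, 4, 4, 4, 4, 3, 3, 15, 15, 4, 4, 4, 4, 3, 3], []⟩)))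
    (.nd (.nd (.lf ⟨[.ofNat 125442720, .negSucc 388512599, .ofNat 399181440, .negSucc 144961559, .ofNat 23500080], (.tr (.dx 0 (.tr (.lf 5) (.tr (.lf 6) (.lf 13) (.tw (.lf 9) (.lf 10))) (.lf 17))) (.lf 14) (.lf 18)), 0, [0, 0, 0, 0, 30, 30, 30, 30], []⟩)
    (.lf ⟨[.ofNat 5823360, .negSucc 14207519, .ofNat 11107200, .negSucc 4223519, .ofNat 609600], (.tw (.lf 17) (.tr (.lf 13) (.tr (.dx 0 (.tr (.lf 5) (.lf 6) (.lf 9))) (.lf 18) (.lf 10)) (.lf 14))), 0, [37, 38, 38, 38, 37, 38, 38, 38], []⟩))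
    (.nd (.lf ⟨[.negSucc 152795519, .ofNat 470652320, .negSucc 476145199, .ofNat 173628800, .negSucc 28072079], (.tr (.dx 0 (.tr (.lf 17) (.lf 5) (.tr (.lf 6) (.lf 13) (.tw (.lf 9) (.lf 10))))) (.lf 14) (.lf 18)), 0, [39, 39, 39, 39, 0, 0, 20, 20], []⟩)
    (.lf ⟨[.negSucc 146691359, .ofNat 477938040, .negSucc 495458639, .ofNat 181175640, .negSucc 29382719], (.tr (.lf 17) (.dx 0 (.tr (.lf 5) (.lf 6) (.lf 9))) (.tr (.lf 13) (.tw (.lf 10) (.lf 18)) (.lf 14))), 0, [2, 2, 2, 2, 2, 2, 2, 2], []⟩))))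

/-- data -/
def dV5 : RT := (.nd (.nd (.nd (.nd dV5x0 (.nd dV5x1 dV5x2)) (.nd dV5x3 (.nd dV5x4 dV5x5))) (.nd (.nd dV5x6 (.nd dV5x7 dV5x8)) (.nd dV5x9 (.nd dV5x10 dV5x11)))) (.nd (.nd (.nd dV5x12 (.nd dV5x13 dV5x14)) (.nd dV5x15 (.nd dV5x16 dV5x17))) (.nd (.nd dV5x18 (.nd dV5x19 dV5x20)) (.nd (.nd dV5x21 dV5x22) (.nd dV5x23 dV5x24)))))

/-- data -/
def lV5x0 : List (ℕ × List ℤ) := [(337637, [.ofNat 0, .negSucc 944639, .negSucc 183358079, .ofNat 291907200, .ofNat 457315200, .negSucc 868264319, .ofNat 381884160, .negSucc 67787519]),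
  (338219, [.ofNat 0, .negSucc 944639, .negSucc 183358079, .ofNat 291907200, .ofNat 457315200, .negSucc 868264319, .ofNat 381884160, .negSucc 67787519]),
  (2438949, [.ofNat 944640, .ofNat 237202560, .negSucc 505251839, .negSucc 232122239, .ofNat 781301760, .negSucc 367741439, .ofNat 67787520]),
  (2443485, [.ofNat 944640, .ofNat 237202560, .negSucc 505251839, .negSucc 232122239, .ofNat 781301760, .negSucc 367741439, .ofNat 67787520]),
  (155859307, [.ofNat 6566400, .negSucc 26025599, .ofNat 28304640, .negSucc 12032639, .ofNat 1950720]),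
  (155863773, [.negSucc 52070399, .ofNat 138186240, .negSucc 135732479, .ofNat 51087360, .negSucc 8290559]),
  (155867875, [.negSucc 6566399, .ofNat 26025600, .negSucc 28304639, .ofNat 12032640, .negSucc 1950719]),
  (156055916, [.negSucc 76959359, .ofNat 226654560, .negSucc 233341439, .ofNat 89593440, .negSucc 14752319]),
  (156059885, [.ofNat 3064320, .negSucc 18944639, .ofNat 20094720, .negSucc 6341759, .ofNat 975360]),
  (156063525, [.ofNat 0, .negSucc 7557119, .ofNat 9158400, .negSucc 3048959, .ofNat 487680]),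
  (156064029, [.ofNat 863064000, .negSucc 2637290639, .ofNat 2695344000, .negSucc 978923279, .ofNat 158678880]),
  (156092757, [.negSucc 19681919, .ofNat 83052000, .negSucc 87793919, .ofNat 33861600, .negSucc 5486399]),
  (156093100, [.negSucc 22187519, .ofNat 44446080, .negSucc 40696319, .ofNat 14739840, .negSucc 2438399]),
  (156093205, [.negSucc 15045119, .ofNat 52118400, .negSucc 54635519, .ofNat 21160320, .negSucc 3413759]),
  (156095781, [.ofNat 35089920, .negSucc 102142079, .ofNat 102766080, .negSucc 38966399, .ofNat 6339840]),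
  (156117852, [.negSucc 24324479, .ofNat 46016160, .negSucc 40331519, .ofNat 14220960, .negSucc 2316479]),
  (156125853, [.ofNat 863064000, .negSucc 2629733519, .ofNat 2686185600, .negSucc 975874319, .ofNat 158191200]),
  (156157717, [.negSucc 30021119, .ofNat 19840960, .ofNat 6198320, .ofNat 4213600, .negSucc 457199]),
  (156161308, [.negSucc 24324479, .ofNat 46016160, .negSucc 40331519, .ofNat 14220960, .negSucc 2316479]),
  (156318059, [.negSucc 55255679, .ofNat 142493280, .negSucc 133174079, .ofNat 49140960, .negSucc 7802879]),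
  (156318563, [.negSucc 55255679, .ofNat 142493280, .negSucc 133174079, .ofNat 49140960, .negSucc 7802879]),
  (156322525, [.negSucc 57697919, .ofNat 169983840, .negSucc 178026239, .ofNat 67951200, .negSucc 11338559]),
  (156325605, [.ofNat 6566400, .negSucc 26025599, .ofNat 28304640, .negSucc 12032639, .ofNat 1950720]),
  (156325612, [.ofNat 2756160, .ofNat 6370320, .negSucc 10357439, .ofNat 4500240, .negSucc 792479]),
  (156326109, [.ofNat 6566400, .negSucc 26025599, .ofNat 28304640, .negSucc 12032639, .ofNat 1950720]),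
  (156355285, [.negSucc 30021119, .ofNat 19840960, .ofNat 6198320, .ofNat 4213600, .negSucc 457199]),
  (156359331, [.ofNat 1035423360, .negSucc 3192283999, .ofNat 3255460160, .negSucc 1174135519, .ofNat 189707520]),
  (156379869, [.negSucc 52070399, .ofNat 138186240, .negSucc 135732479, .ofNat 51087360, .negSucc 8290559]),
  (156382445, [.negSucc 3064319, .ofNat 18944640, .negSucc 20094719, .ofNat 6341760, .negSucc 975359]),
  (156383061, [.negSucc 7240319, .ofNat 23620320, .negSucc 24802559, .ofNat 9619680, .negSucc 1584959]),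
  (156415828, [.ofNat 2756160, .ofNat 6370320, .negSucc 10357439, .ofNat 4500240, .negSucc 792479]),
  (156419797, [.negSucc 15045119, .ofNat 52118400, .negSucc 54635519, .ofNat 21160320, .negSucc 3413759]),
  (156579621, [.negSucc 19681919, .ofNat 83052000, .negSucc 87793919, .ofNat 33861600, .negSucc 5486399]),
  (156584157, [.negSucc 61084799, .ofNat 236964960, .negSucc 249995519, .ofNat 96582240, .negSucc 15727679]),
  (156587811, [.negSucc 25459199, .ofNat 81582720, .negSucc 84403199, .ofNat 32622720, .negSucc 5364479]),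
  (156608293, [.negSucc 3064319, .ofNat 11387520, .negSucc 10936319, .ofNat 3292800, .negSucc 487679]),
  (156608741, [.negSucc 100056959, .ofNat 354933280, .negSucc 376138719, .ofNat 125889760, .negSucc 20177759]),
  (156608797, [.negSucc 3064319, .ofNat 3830400, .negSucc 1777919, .ofNat 243840]),
  (156612885, [.negSucc 14480639, .ofNat 47240640, .negSucc 49605119, .ofNat 19239360, .negSucc 3169919]),
  (156615909, [.negSucc 62910719, .ofNat 152076480, .negSucc 140456639, .ofNat 52115520, .negSucc 8168639]),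
  (156616357, [.ofNat 123330240, .negSucc 384179599, .ofNat 397050800, .negSucc 142375279, .ofNat 23134320]),
  (156616861, [.negSucc 3064319, .ofNat 3830400, .negSucc 1777919, .ofNat 243840]),
  (156641053, [.ofNat 123330240, .negSucc 384179599, .ofNat 397050800, .negSucc 142375279, .ofNat 23134320]),
  (156644637, [.negSucc 62910719, .ofNat 152076480, .negSucc 140456639, .ofNat 52115520, .negSucc 8168639]),
  (156645533, [.negSucc 100056959, .ofNat 354933280, .negSucc 376138719, .ofNat 125889760, .negSucc 20177759]),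
  (156648669, [.negSucc 35089919, .ofNat 102142080, .negSucc 102766079, .ofNat 38966400, .negSucc 6339839]),
  (156649117, [.negSucc 3064319, .ofNat 11387520, .negSucc 10936319, .ofNat 3292800, .negSucc 487679]),
  (156649173, [.ofNat 14480640, .negSucc 47240639, .ofNat 49605120, .negSucc 19239359, .ofNat 3169920]),
  (156652764, [.ofNat 4389120, .negSucc 5451839, .negSucc 7608959, .ofNat 6183360, .negSucc 1463039]),
  (156678307, [.ofNat 1035423360, .negSucc 3192283999, .ofNat 3255460160, .negSucc 1174135519, .ofNat 189707520]),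
  (170507045, [.ofNat 37238400, .negSucc 104669279, .ofNat 110294400, .negSucc 43056479, .ofNat 7193280]),
  (170514780, [.ofNat 0, .ofNat 3916800, .negSucc 4782719, .ofNat 618240, .negSucc 243839]),
  (170543837, [.ofNat 3271680, .negSucc 27839999, .ofNat 31987200, .negSucc 11950079, .ofNat 1950720]),
  (170572131, [.ofNat 0, .negSucc 1359359, .ofNat 1466880, .negSucc 215039]),
  (170575659, [.ofNat 0, .negSucc 207359, .ofNat 489600, .negSucc 2330879, .ofNat 243840]),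
  (170740061, [.negSucc 19382399, .ofNat 34771680, .negSucc 36383999, .ofNat 14976480, .negSucc 2560319]),
  (170744156, [.negSucc 59351039, .ofNat 168825600, .negSucc 165289919, .ofNat 60700800, .negSucc 9875519]),
  (170771820, [.negSucc 387423359, .ofNat 1169385760, .negSucc 1189749999, .ofNat 432309760, .negSucc 69646799]),
  (170773332, [.negSucc 387423359, .ofNat 1169385760, .negSucc 1189749999, .ofNat 432309760, .negSucc 69646799]),
  (170775845, [.ofNat 424883520, .negSucc 1267617199, .ofNat 1275455840, .negSucc 463178479, .ofNat 74736960]),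
  (170776853, [.ofNat 424883520, .negSucc 1267617199, .ofNat 1275455840, .negSucc 463178479, .ofNat 74736960]),
  (170800492, [.ofNat 0, .negSucc 783359, .ofNat 645120]),
  (170809186, [.ofNat 0, .ofNat 11036160, .negSucc 10932479, .ofNat 3786240, .negSucc 487679]),
  (170810012, [.ofNat 0, .negSucc 783359, .ofNat 645120]),
  (170829605, [.negSucc 167460479, .ofNat 514156640, .negSucc 543367519, .ofNat 202142240, .negSucc 33467039]),
  (170830123, [.ofNat 176705280, .negSucc 501116479, .ofNat 505590080, .negSucc 185566399, .ofNat 30358080]),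
  (170833189, [.ofNat 19382400, .negSucc 34771679, .ofNat 36384000, .negSucc 14976479, .ofNat 2560320]),
  (170834085, [.ofNat 0, .ofNat 3317760, .negSucc 3922559, .ofNat 1754880, .negSucc 243839]),
  (170837277, [.ofNat 0, .ofNat 3317760, .negSucc 3922559, .ofNat 1754880, .negSucc 243839]),
  (170838187, [.ofNat 176705280, .negSucc 501116479, .ofNat 505590080, .negSucc 185566399, .ofNat 30358080]),
  (170838229, [.negSucc 167460479, .ofNat 514156640, .negSucc 543367519, .ofNat 202142240, .negSucc 33467039]),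
  (170838684, [.negSucc 59351039, .ofNat 168825600, .negSucc 165289919, .ofNat 60700800, .negSucc 9875519]),
  (170838740, [.negSucc 1820159, .ofNat 13722240, .negSucc 11596799, .ofNat 3361920, .negSucc 487679]),
  (171026795, [.negSucc 14742719, .ofNat 34137040, .negSucc 34495359, .ofNat 10192720, .negSucc 1280159]),
  (171038485, [.negSucc 4426559, .ofNat 34751280, .negSucc 37286879, .ofNat 16241520, .negSucc 2682239]),
  (171039066, [.ofNat 0, .ofNat 1474560, .negSucc 852479]),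
  (171039507, [.negSucc 14742719, .ofNat 34137040, .negSucc 34495359, .ofNat 10192720, .negSucc 1280159]),
  (171059051, [.ofNat 34272000, .negSucc 92182079, .ofNat 96946560, .negSucc 38272319, .ofNat 6339840]),
  (171062635, [.negSucc 684161279, .ofNat 2212988160, .negSucc 2282106959, .ofNat 833673120, .negSucc 134691119]),
  (171064147, [.negSucc 684161279, .ofNat 2212988160, .negSucc 2282106959, .ofNat 833673120, .negSucc 134691119]),
  (171103452, [.ofNat 19825920, .negSucc 42352319, .ofNat 48650880, .negSucc 19389119, .ofNat 3413760]),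
  (171263787, [.negSucc 7490879, .ofNat 35540400, .negSucc 35729759, .ofNat 14765040, .negSucc 2438399]),
  (171288805, [.ofNat 12346560, .ofNat 2088880, .negSucc 8847999, .negSucc 865999, .ofNat 548640]),
  (171296421, [.negSucc 89795519, .ofNat 279589520, .negSucc 290224159, .ofNat 111870800, .negSucc 18897599]),
  (171321117, [.negSucc 89795519, .ofNat 279589520, .negSucc 290224159, .ofNat 111870800, .negSucc 18897599]),
  (171325597, [.ofNat 12346560, .ofNat 2088880, .negSucc 8847999, .negSucc 865999, .ofNat 548640]),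
  (171325611, [.negSucc 7490879, .ofNat 35540400, .negSucc 35729759, .ofNat 14765040, .negSucc 2438399]),
  (171353891, [.ofNat 3634560, .ofNat 10197600, .negSucc 21680639, .ofNat 12555360, .negSucc 2072639]),
  (171358490, [.negSucc 15724799, .ofNat 50372160, .negSucc 52078079, .ofNat 19590720, .negSucc 3169919]),
  (172341612, [.ofNat 51287040, .negSucc 137541119, .ofNat 135732480, .negSucc 51087359, .ofNat 8290560]),
  (172346092, [.negSucc 311166719, .ofNat 1082524480, .negSucc 1115689599, .ofNat 414591040, .negSucc 67055999]),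
  (172346155, [.ofNat 25459200, .negSucc 81582719, .ofNat 84403200, .negSucc 32622719, .ofNat 5364480]),
  (172346211, [.negSucc 46218239, .ofNat 121739520, .negSucc 115998719, .ofNat 42789120, .negSucc 6827519]),
  (172349221, [.ofNat 15275520, .negSucc 14125439, .ofNat 10285440, .negSucc 4175999, .ofNat 731520]),
  (172349739, [.negSucc 32417279, .ofNat 35652480, .negSucc 41253119, .ofNat 24209280, .negSucc 3901439]),
  (172349795, [.ofNat 25459200, .negSucc 81582719, .ofNat 84403200, .negSucc 32622719, .ofNat 5364480]),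
  (172374379, [.negSucc 44121599, .ofNat 104100480, .negSucc 98495999, .ofNat 39849600, .negSucc 6339839]),
  (172374827, [.ofNat 0, .ofNat 2718720, .negSucc 2933759, .ofNat 430080]),
  (172374883, [.negSucc 67230719, .ofNat 164970240, .negSucc 156495359, .ofNat 61244160, .negSucc 9753599]),
  (172381995, [.negSucc 51287039, .ofNat 137541120, .negSucc 135732479, .ofNat 51087360, .negSucc 8290559])]

/-- data -/
def lV5x1 : List (ℕ × List ℤ) := [(172382429, [.ofNat 0, .ofNat 2903040, .negSucc 3580799, .ofNat 2522880, .negSucc 243839]),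
  (172407069, [.negSucc 783359, .ofNat 645120]),
  (172407587, [.ofNat 26991360, .negSucc 78972479, .ofNat 88535040, .negSucc 35933759, .ofNat 6096000]),
  (172410597, [.ofNat 78612480, .negSucc 192537599, .ofNat 181931520, .negSucc 67031039, .ofNat 10728960]),
  (172410604, [.ofNat 20828160, .negSucc 57776639, .ofNat 56544000, .negSucc 21150719, .ofNat 3413760]),
  (172411101, [.negSucc 783359, .ofNat 645120]),
  (172803948, [.negSucc 21890879, .ofNat 60993840, .negSucc 63302399, .ofNat 23943600, .negSucc 3962399]),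
  (172804844, [.ofNat 191632320, .negSucc 543210639, .ofNat 546511360, .negSucc 195323919, .ofNat 31760160]),
  (172804907, [.negSucc 36912959, .ofNat 102089520, .negSucc 101555519, .ofNat 38188080, .negSucc 6278879]),
  (172808421, [.ofNat 1952640, .negSucc 120479, .negSucc 2875199, .ofNat 1114080, .negSucc 243839]),
  (172873829, [.ofNat 0, .ofNat 5356800, .negSucc 6685439, .ofNat 2883840, .negSucc 487679]),
  (172889964, [.negSucc 41935679, .ofNat 119288880, .negSucc 122401919, .ofNat 46396080, .negSucc 7619999]),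
  (172890860, [.negSucc 323982719, .ofNat 949910560, .negSucc 960922719, .ofNat 354292960, .negSucc 57485279]),
  (172890909, [.ofNat 133156800, .negSucc 435993999, .ofNat 455389600, .negSucc 174187599, .ofNat 28651200]),
  (172890972, [.negSucc 8881919, .ofNat 34825920, .negSucc 30061439, .ofNat 10511040, .negSucc 1463039]),
  (172901227, [.ofNat 15333120, .negSucc 41444159, .ofNat 40352640, .negSucc 15090239, .ofNat 2438400]),
  (172905259, [.negSucc 2891519, .ofNat 10271040, .negSucc 10978559, .ofNat 4411200, .negSucc 731519]),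
  (172923179, [.negSucc 35089919, .ofNat 102142080, .negSucc 102766079, .ofNat 38966400, .negSucc 6339839]),
  (172933987, [.negSucc 2891519, .ofNat 10271040, .negSucc 10978559, .ofNat 4411200, .negSucc 731519]),
  (172935275, [.negSucc 348335999, .ofNat 1036556320, .negSucc 1042725279, .ofNat 380644960, .negSucc 61508639]),
  (172935884, [.ofNat 76668480, .negSucc 211187439, .ofNat 211033600, .negSucc 81685359, .ofNat 13472160]),
  (172935947, [.negSucc 36912959, .ofNat 102089520, .negSucc 101555519, .ofNat 38188080, .negSucc 6278879]),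
  (172938019, [.ofNat 15333120, .negSucc 41444159, .ofNat 40352640, .negSucc 15090239, .ofNat 2438400]),
  (172939531, [.negSucc 20724479, .ofNat 56214720, .negSucc 55785599, .ofNat 21028800, .negSucc 3413759]),
  (173061996, [.negSucc 783359, .ofNat 645120]),
  (173062507, [.negSucc 58478399, .ofNat 163331760, .negSucc 161733119, .ofNat 60901680, .negSucc 9814559]),
  (173063011, [.negSucc 1275448319, .ofNat 4007888000, .negSucc 4116382879, .ofNat 1511852480, .negSucc 244876319]),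
  (173070053, [.ofNat 542966400, .negSucc 1805523679, .ofNat 1871294720, .negSucc 675676639, .ofNat 108874560]),
  (173070109, [.negSucc 303940799, .ofNat 906091600, .negSucc 912579039, .ofNat 336115600, .negSucc 54376319]),
  (173120229, [.negSucc 239569919, .ofNat 833397120, .negSucc 874859039, .ofNat 312542400, .negSucc 50413919]),
  (173120285, [.negSucc 26035199, .ofNat 75216000, .negSucc 74987519, .ofNat 29132160, .negSucc 4632959]),
  (173120299, [.ofNat 47568960, .negSucc 212492399, .ofNat 231518400, .negSucc 78249839, .ofNat 12618720]),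
  (173120348, [.negSucc 2142719, .ofNat 16160640, .negSucc 20605439, .ofNat 8542080, .negSucc 1463039]),
  (173120355, [.negSucc 28707839, .ofNat 77178240, .negSucc 78712319, .ofNat 29900160, .negSucc 4876799]),
  (173128293, [.ofNat 588582720, .negSucc 1928003759, .ofNat 2010081120, .negSucc 718268399, .ofNat 115824000]),
  (173136476, [.ofNat 387423360, .negSucc 1169385759, .ofNat 1189750000, .negSucc 432309759, .ofNat 69646800]),
  (173136651, [.negSucc 22596479, .ofNat 89800480, .negSucc 96694719, .ofNat 31841440, .negSucc 5120639]),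
  (173159275, [.ofNat 9838080, .negSucc 25111679, .ofNat 24161280, .negSucc 9029759, .ofNat 1463040]),
  (173161291, [.ofNat 9838080, .negSucc 25111679, .ofNat 24161280, .negSucc 9029759, .ofNat 1463040]),
  (173168333, [.ofNat 20724480, .negSucc 56214719, .ofNat 55785600, .negSucc 21028799, .ofNat 3413760]),
  (173191916, [.ofNat 0, .negSucc 5483519, .ofNat 6739200, .negSucc 3164159, .ofNat 487680]),
  (173201163, [.negSucc 22596479, .ofNat 89800480, .negSucc 96694719, .ofNat 31841440, .negSucc 5120639]),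
  (173324587, [.ofNat 21404160, .negSucc 54134399, .ofNat 52471680, .negSucc 19605119, .ofNat 3169920]),
  (173389925, [.ofNat 9921600, .negSucc 89550959, .ofNat 110483520, .negSucc 44937839, .ofNat 7376160]),
  (173394251, [.ofNat 679680, .ofNat 2080320, .negSucc 3313919, .ofNat 1423680, .negSucc 243839]),
  (173421285, [.ofNat 0, .negSucc 6266879, .ofNat 6862080, .negSucc 3225599, .ofNat 487680]),
  (173426283, [.negSucc 259231679, .ofNat 807231760, .negSucc 816421599, .ofNat 297367120, .negSucc 48036479]),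
  (173426507, [.ofNat 42615360, .negSucc 117208559, .ofNat 119088000, .negSucc 44972399, .ofNat 7376160]),
  (173455627, [.negSucc 783359, .ofNat 645120]),
  (174443180, [.ofNat 6111360, .negSucc 22080479, .ofNat 15510720, .negSucc 6864479, .ofNat 1097280]),
  (174443362, [.ofNat 0, .ofNat 783360, .negSucc 645119]),
  (174446757, [.negSucc 149471999, .ofNat 528259520, .negSucc 550810879, .ofNat 202677440, .negSucc 32674559]),
  (174504234, [.ofNat 11646720, .negSucc 28415039, .ofNat 22214400, .negSucc 8447039, .ofNat 1219200]),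
  (174507307, [.negSucc 15690239, .ofNat 41328000, .negSucc 47313599, .ofNat 19361280, .negSucc 3291839]),
  (174508189, [.negSucc 239569919, .ofNat 833397120, .negSucc 874859039, .ofNat 312542400, .negSucc 50413919]),
  (174508266, [.ofNat 422412480, .negSucc 1249778639, .ofNat 1267899840, .negSucc 449034959, .ofNat 72115680]),
  (174639901, [.ofNat 475701120, .negSucc 1436173599, .ofNat 1452424960, .negSucc 512822559, .ofNat 81686400]),
  (174643436, [.negSucc 10526399, .ofNat 45381840, .negSucc 47291519, .ofNat 18169680, .negSucc 2865119]),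
  (174643485, [.ofNat 1952640, .ofNat 5363040, .negSucc 9614399, .ofNat 4278240, .negSucc 731519]),
  (174708837, [.ofNat 155583360, .negSucc 541262239, .ofNat 557844800, .negSucc 207295519, .ofNat 33528000]),
  (174725931, [.ofNat 0, .ofNat 3409920, .negSucc 4246079, .ofNat 2801280, .negSucc 365759]),
  (174740323, [.negSucc 10526399, .ofNat 49298640, .negSucc 52074239, .ofNat 18787920, .negSucc 3108959]),
  (174768939, [.ofNat 149472000, .negSucc 530171839, .ofNat 552124160, .negSucc 202999999, .ofNat 32674560]),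
  (174902100, [.negSucc 1001779199, .ofNat 3100460160, .negSucc 3184589759, .ofNat 1158681600, .negSucc 187634879]),
  (174905509, [.ofNat 93067200, .negSucc 297133199, .ofNat 304214400, .negSucc 114665999, .ofNat 18714720]),
  (174934797, [.negSucc 51287039, .ofNat 137541120, .negSucc 135732479, .ofNat 51087360, .negSucc 8290559]),
  (174991973, [.negSucc 42497279, .ofNat 178850880, .negSucc 192554399, .ofNat 72428160, .negSucc 11765279]),
  (174992141, [.negSucc 293382719, .ofNat 955876080, .negSucc 990917279, .ofNat 362351280, .negSucc 58765439]),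
  (175002893, [.ofNat 361039680, .negSucc 1019254959, .ofNat 1028469760, .negSucc 362202159, .ofNat 58216800]),
  (175004300, [.negSucc 5215679, .ofNat 24992400, .negSucc 29330399, .ofNat 11113680, .negSucc 1828799]),
  (175020197, [.negSucc 9630719, .ofNat 29856000, .negSucc 30082559, .ofNat 12276480, .negSucc 1950719]),
  (175020330, [.ofNat 1206659520, .negSucc 3818439439, .ofNat 3929852960, .negSucc 1441799119, .ofNat 233598720]),
  (175020386, [.negSucc 11580479, .ofNat 18587760, .negSucc 19091519, .ofNat 6522480, .negSucc 1158239]),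
  (175024397, [.ofNat 80291520, .negSucc 247925199, .ofNat 249511360, .negSucc 87451599, .ofNat 13959840]),
  (175031082, [.negSucc 297950399, .ofNat 890938960, .negSucc 896934879, .ofNat 330493840, .negSucc 53400959]),
  (175031565, [.negSucc 15690239, .ofNat 40106880, .negSucc 45694079, .ofNat 18591360, .negSucc 3169919]),
  (175031628, [.ofNat 241459200, .negSucc 775117119, .ofNat 796282480, .negSucc 297567519, .ofNat 48432720]),
  (175032426, [.ofNat 1206659520, .negSucc 3818439439, .ofNat 3929852960, .negSucc 1441799119, .ofNat 233598720]),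
  (175032650, [.negSucc 3743999, .ofNat 9099840, .negSucc 7311359, .ofNat 2018880, .negSucc 243839]),
  (175168282, [.ofNat 397028160, .negSucc 1230701999, .ofNat 1267163520, .negSucc 465050159, .ofNat 75651360]),
  (175184683, [.ofNat 414247680, .negSucc 1252192959, .ofNat 1277606080, .negSucc 454381119, .ofNat 73395840]),
  (175199075, [.ofNat 0, .negSucc 1146239, .ofNat 2254080, .negSucc 163199, .negSucc 121919]),
  (175200972, [.ofNat 410765760, .negSucc 1221363599, .ofNat 1245685440, .negSucc 440587919, .ofNat 70896480]),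
  (175221349, [.ofNat 72000000, .negSucc 236502399, .ofNat 244639360, .negSucc 85071999, .ofNat 13655040]),
  (175258218, [.negSucc 23109119, .ofNat 60869760, .negSucc 57999359, .ofNat 21394560, .negSucc 3413759]),
  (175281507, [.ofNat 10526400, .negSucc 45381839, .ofNat 47291520, .negSucc 18169679, .ofNat 2865120]),
  (175282851, [.ofNat 0, .negSucc 1146239, .ofNat 2254080, .negSucc 163199, .negSucc 121919]),
  (175285091, [.ofNat 10526400, .negSucc 45381839, .ofNat 47291520, .negSucc 18169679, .ofNat 2865120]),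
  (175289445, [.ofNat 0, .negSucc 4101119, .ofNat 5021760, .negSucc 2025599, .ofNat 365760]),
  (175294037, [.ofNat 142292160, .negSucc 457281999, .ofNat 471231520, .negSucc 171859599, .ofNat 27553920]),
  (175297306, [.ofNat 397028160, .negSucc 1230701999, .ofNat 1267163520, .negSucc 465050159, .ofNat 75651360]),
  (175478949, [.ofNat 0, .ofNat 3409920, .negSucc 4246079, .ofNat 2801280, .negSucc 365759]),
  (175482981, [.ofNat 0, .ofNat 299520, .negSucc 175679, .negSucc 2052479, .ofNat 121920]),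
  (175483149, [.ofNat 290459520, .negSucc 897274399, .ofNat 923902880, .negSucc 329295199, .ofNat 53340000]),
  (175483212, [.ofNat 0, .ofNat 3133440, .negSucc 3431039, .ofNat 1612800, .negSucc 243839]),
  (175511891, [.ofNat 0, .ofNat 1405440, .negSucc 2609279, .ofNat 1432320, .negSucc 243839]),
  (175515979, [.negSucc 15690239, .ofNat 38194560, .negSucc 43882559, .ofNat 17748480, .negSucc 3047999]),
  (175518821, [.ofNat 0, .negSucc 4101119, .ofNat 5021760, .negSucc 2025599, .ofNat 365760]),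
  (175527508, [.negSucc 1820159, .ofNat 14229120, .negSucc 12262079, .ofNat 3640320, .negSucc 609599]),
  (176503595, [.ofNat 0, .ofNat 3317760, .negSucc 3922559, .ofNat 1754880, .negSucc 243839])]

/-- data -/
def lV5x2 : List (ℕ × List ℤ) := [(176543068, [.ofNat 0, .negSucc 2741759, .ofNat 3369600, .negSucc 1582079, .ofNat 243840]),
  (176544419, [.ofNat 133156800, .negSucc 435993999, .ofNat 455389600, .negSucc 174187599, .ofNat 28651200]),
  (176544531, [.ofNat 0, .negSucc 69119, .negSucc 218879, .ofNat 80640]),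
  (176732908, [.negSucc 155583359, .ofNat 541262240, .negSucc 557844799, .ofNat 207295520, .negSucc 33527999]),
  (176740188, [.ofNat 0, .negSucc 1359359, .ofNat 1466880, .negSucc 215039]),
  (176790252, [.negSucc 155583359, .ofNat 545294240, .negSucc 563565439, .ofNat 209463200, .negSucc 33893759]),
  (176804700, [.negSucc 420359039, .ofNat 1271116960, .negSucc 1290152319, .ofNat 460731040, .negSucc 74493119]),
  (176861932, [.negSucc 333408959, .ofNat 978891600, .negSucc 981193439, .ofNat 340962960, .negSucc 54132479]),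
  (176861981, [.ofNat 414247680, .negSucc 1252192959, .ofNat 1277606080, .negSucc 454381119, .ofNat 73395840]),
  (176862989, [.ofNat 47568960, .negSucc 212492399, .ofNat 231518400, .negSucc 78249839, .ofNat 12618720]),
  (176867021, [.negSucc 9630719, .ofNat 29856000, .negSucc 30082559, .ofNat 12276480, .negSucc 1950719]),
  (177003234, [.negSucc 73235519, .ofNat 244478320, .negSucc 257610879, .ofNat 93422320, .negSucc 15179039]),
  (177056357, [.negSucc 598973759, .ofNat 1897180720, .negSucc 1943207679, .ofNat 709608880, .negSucc 114909599]),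
  (177056525, [.negSucc 293382719, .ofNat 955876080, .negSucc 990917279, .ofNat 362351280, .negSucc 58765439]),
  (177089131, [.ofNat 0, .negSucc 783359, .ofNat 645120]),
  (177117908, [.negSucc 418674239, .ofNat 1285147120, .negSucc 1313395359, .ofNat 470323120, .negSucc 76078079]),
  (177132258, [.negSucc 73235519, .ofNat 244478320, .negSucc 257610879, .ofNat 93422320, .negSucc 15179039]),
  (177264285, [.negSucc 22158719, .ofNat 142876320, .negSucc 166357919, .ofNat 52285920, .negSucc 8107679]),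
  (177264341, [.negSucc 3064319, .ofNat 18944640, .negSucc 20094719, .ofNat 6341760, .negSucc 975359]),
  (177314650, [.negSucc 204880319, .ofNat 717979280, .negSucc 745263199, .ofNat 283117520, .negSucc 45963839]),
  (177328986, [.negSucc 104875199, .ofNat 320064720, .negSucc 336698879, .ofNat 129625680, .negSucc 21640799]),
  (177330778, [.ofNat 55926720, .negSucc 148596879, .ofNat 163583200, .negSucc 51743439, .ofNat 8412480]),
  (177378973, [.negSucc 11580479, .ofNat 18587760, .negSucc 19091519, .ofNat 6522480, .negSucc 1158239]),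
  (177387093, [.ofNat 313246080, .negSucc 934414239, .ofNat 939959200, .negSucc 341678559, .ofNat 55168800]),
  (177518434, [.negSucc 266722559, .ofNat 742616000, .negSucc 753724159, .ofNat 276793280, .negSucc 45476159]),
  (177582946, [.negSucc 266722559, .ofNat 742616000, .negSucc 753724159, .ofNat 276793280, .negSucc 45476159]),
  (177583373, [.negSucc 15690239, .ofNat 40106880, .negSucc 45694079, .ofNat 18591360, .negSucc 3169919]),
  (177583436, [.ofNat 241459200, .negSucc 775117119, .ofNat 796282480, .negSucc 297567519, .ofNat 48432720]),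
  (177608349, [.negSucc 155583359, .ofNat 545294240, .negSucc 563565439, .ofNat 209463200, .negSucc 33893759]),
  (177648403, [.ofNat 26035200, .negSucc 75285119, .ofNat 74768640, .negSucc 29051519, .ofNat 4632960]),
  (178665314, [.negSucc 9293759, .ofNat 32250000, .negSucc 36954239, .ofNat 14184720, .negSucc 2377439]),
  (178899275, [.negSucc 323982719, .ofNat 949910560, .negSucc 960922719, .ofNat 354292960, .negSucc 57485279]),
  (179128651, [.negSucc 9293759, .ofNat 32250000, .negSucc 36954239, .ofNat 14184720, .negSucc 2377439]),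
  (179149098, [.negSucc 5215679, .ofNat 24992400, .negSucc 29330399, .ofNat 11113680, .negSucc 1828799]),
  (179153165, [.negSucc 225299519, .ofNat 693379440, .negSucc 702779039, .ofNat 259806000, .negSucc 42184319]),
  (179194458, [.ofNat 623571840, .negSucc 1824695199, .ofNat 1849047040, .negSucc 660572319, .ofNat 106436160]),
  (179386125, [.negSucc 293944319, .ofNat 912889600, .negSucc 930075999, .ofNat 338810560, .negSucc 54924959]),
  (179414797, [.ofNat 72000000, .negSucc 239244159, .ofNat 248008960, .negSucc 86654079, .ofNat 13898880]),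
  (179443413, [.negSucc 379644479, .ofNat 1095995440, .negSucc 1099871919, .ofNat 395914000, .negSucc 63733679])]

/-- the sum of the part -/
def lV5 : List (ℕ × List ℤ) := lV5x0 ++ (lV5x1 ++ (lV5x2))

theorem okV5 : dV5.all (rok tbF 20) = true := by decide +kernel

theorem sumV5 : aeq (fz (sumT tbF dV5)) lV5 = true := by decide +kernel

end Pool.Agent.H.MP_e16c79_al.IS
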