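import Pool.Agent.H.MP_e16c79_al.IS.BTabE

/-!
# MP_e16c79_al: certificate V, part 6
-/

set_option autoImplicit false

namespace Pool.Agent.H.MP_e16c79_al.IS

/-- data -/
def dV6x0 : RT := (.nd (.nd (.nd (.lf ⟨[.ofNat 0, .ofNat 1779840, .negSucc 1965599, .ofNat 441600, .negSucc 60959], (.tr (.dx 0 (.tr (.lf 5) (.tw (.lf 9) (.lf 17)) (.lf 6))) (.lf 10) (.tr (.lf 13) (.lf 18) (.lf 14))), 0, [5, 5, 5, 5, 5, 5, 5, 5], []⟩)
    (.lf ⟨[.ofNat 0, .negSucc 2188799, .ofNat 2246400, .negSucc 92159], (.tr (.dx 0 (.tr (.lf 5) (.lf 9) (.tw (.lf 6) (.lf 17)))) (.lf 10) (.tr (.lf 13) (.lf 18) (.lf 14))), 0, [5, 5, 5, 5, 5, 5, 5, 5], []⟩))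
    (.nd (.lf ⟨[.ofNat 0, .negSucc 1370879, .ofNat 1684800, .negSucc 791039, .ofNat 121920], (.tr (.dx 0 (.tr (.tw (.lf 5) (.lf 9)) (.lf 17) (.lf 6))) (.lf 10) (.tr (.lf 13) (.lf 18) (.lf 14))), 0, [5, 5, 5, 5, 5, 5, 5, 5], []⟩)
    (.lf ⟨[.ofNat 39849120, .negSucc 124404439, .ofNat 132977000, .negSucc 49426279, .ofNat 8214360], (.tr (.lf 10) (.dx 0 (.tr (.tw (.lf 5) (.lf 6)) (.lf 9) (.lf 17))) (.tr (.lf 13) (.lf 18) (.lf 14))), 0, [5, 5, 5, 5, 5, 5, 5, 5], []⟩)))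
    (.nd (.nd (.lf ⟨[.ofNat 0, .ofNat 1618560, .negSucc 2212799, .ofNat 608640, .negSucc 121919], (.tr (.lf 10) (.dx 0 (.tr (.lf 5) (.tw (.lf 6) (.lf 9)) (.lf 17))) (.tr (.lf 13) (.lf 18) (.lf 14))), 0, [5, 5, 5, 5, 5, 5, 5, 5], []⟩)
    (.lf ⟨[.negSucc 12821759, .ofNat 34385280, .negSucc 33933119, .ofNat 12771840, .negSucc 2072639], (.tr (.dx 0 (.tr (.tw (.lf 5) (.lf 6)) (.lf 9) (.lf 17))) (.tr (.lf 13) (.lf 18) (.lf 14)) (.lf 10)), 0, [0, 0, 0, 0, 7, 7, 7, 7], []⟩))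
    (.nd (.lf ⟨[.ofNat 88596720, .negSucc 271886499, .ofNat 278969320, .negSucc 98528019, .ofNat 15849600], (.tr (.dx 0 (.tr (.lf 5) (.tw (.lf 9) (.lf 17)) (.lf 6))) (.tr (.lf 13) (.lf 18) (.lf 14)) (.lf 10)), 0, [7, 7, 7, 7, 7, 7, 7, 7], []⟩)
    (.lf ⟨[.negSucc 177193439, .ofNat 543047240, .negSucc 557043439, .ofNat 196425320, .negSucc 31638239], (.tr (.dx 0 (.tr (.lf 5) (.lf 9) (.tw (.lf 6) (.lf 17)))) (.tr (.lf 13) (.lf 18) (.lf 14)) (.lf 10)), 0, [7, 7, 7, 7, 7, 7, 7, 7], []⟩))))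

/-- data -/
def dV6x1 : RT := (.nd (.nd (.nd (.lf ⟨[.negSucc 5071679, .ofNat 35632080, .negSucc 40438559, .ofNat 13054800, .negSucc 2072639], (.tr (.dx 0 (.tr (.lf 9) (.tw (.lf 5) (.lf 6)) (.lf 17))) (.tr (.lf 13) (.lf 18) (.lf 14)) (.lf 10)), 0, [7, 7, 7, 7, 7, 7, 7, 7], []⟩)
    (.lf ⟨[.negSucc 1872719, .ofNat 9787980, .negSucc 10305239, .ofNat 4118940, .negSucc 640079], (.tr (.dx 0 (.tr (.lf 5) (.tw (.lf 9) (.lf 17)) (.lf 6))) (.lf 18) (.tr (.lf 13) (.lf 10) (.lf 14))), 0, [37, 37, 37, 37, 37, 37, 37, 37], []⟩))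
    (.nd (.lf ⟨[.negSucc 109903679, .ofNat 342738960, .negSucc 350977919, .ofNat 129445200, .negSucc 21061679], (.tr (.lf 18) (.dx 0 (.tr (.tw (.lf 5) (.lf 6)) (.lf 17) (.lf 9))) (.tr (.lf 13) (.lf 10) (.lf 14))), 0, [37, 37, 37, 37, 37, 37, 37, 37], []⟩)
    (.lf ⟨[.negSucc 910079, .ofNat 8808000, .negSucc 8180159, .ofNat 2915520, .negSucc 365759], (.tr (.lf 18) (.dx 0 (.tr (.lf 5) (.tw (.lf 6) (.lf 17)) (.lf 9))) (.tr (.lf 13) (.lf 10) (.lf 14))), 0, [37, 37, 37, 37, 37, 37, 37, 37], []⟩)))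
    (.nd (.nd (.lf ⟨[.negSucc 51878159, .ofNat 174193820, .negSucc 179984839, .ofNat 67014860, .negSucc 10850879], (.tr (.dx 0 (.tr (.lf 5) (.tw (.lf 9) (.lf 17)) (.lf 6))) (.tr (.lf 13) (.lf 10) (.lf 14)) (.lf 18)), 0, [39, 39, 39, 39, 39, 39, 39, 39], []⟩)
    (.lf ⟨[.ofNat 103756320, .negSucc 348387639, .ofNat 359969680, .negSucc 134029719, .ofNat 21701760], (.tr (.dx 0 (.tr (.tw (.lf 5) (.lf 9)) (.lf 17) (.lf 6))) (.tr (.lf 13) (.lf 10) (.lf 14)) (.lf 18)), 0, [39, 39, 39, 39, 39, 39, 39, 39], []⟩))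
    (.nd (.lf ⟨[.negSucc 64689839, .ofNat 207388980, .negSucc 212744999, .ofNat 77618340, .negSucc 12557759], (.tr (.lf 10) (.lf 18) (.tr (.lf 13) (.dx 0 (.tr (.lf 9) (.tw (.lf 5) (.lf 6)) (.lf 17))) (.lf 14))), 0, [28, 28, 23, 23, 28, 28, 23, 23], []⟩)
    (.lf ⟨[.ofNat 130356000, .negSucc 416468279, .ofNat 426677520, .negSucc 155592599, .ofNat 25176480], (.tr (.lf 10) (.lf 18) (.tr (.lf 13) (.dx 0 (.tr (.tw (.lf 5) (.lf 9)) (.lf 6) (.lf 17))) (.lf 14))), 0, [28, 28, 23, 28, 28, 28, 23, 28], []⟩))))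

/-- data -/
def dV6x2 : RT := (.nd (.nd (.nd (.lf ⟨[.ofNat 176247360, .negSucc 567691199, .ofNat 584662740, .negSucc 213705959, .ofNat 34526220], (.tr (.dx 0 (.tr (.lf 5) (.lf 6) (.tr (.lf 9) (.lf 17) (.lf 10)))) (.tw (.lf 13) (.lf 14)) (.lf 18)), 0, [0, 0, 0, 0, 39, 39, 39, 39], []⟩)
    (.lf ⟨[.ofNat 488160, .ofNat 723000, .negSucc 1095359, .ofNat 505080, .negSucc 91439], (.tr (.dx 0 (.tr (.lf 5) (.lf 17) (.tr (.lf 9) (.lf 6) (.lf 10)))) (.tw (.lf 13) (.lf 14)) (.lf 18)), 0, [39, 39, 39, 39, 39, 39, 39, 39], []⟩))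
    (.nd (.lf ⟨[.negSucc 874079, .negSucc 875159, .ofNat 1486560, .negSucc 380759, .ofNat 91440], (.tr (.dx 0 (.tr (.lf 17) (.lf 5) (.tr (.lf 9) (.lf 6) (.lf 10)))) (.tw (.lf 13) (.lf 14)) (.lf 18)), 0, [39, 39, 39, 39, 39, 39, 39, 39], []⟩)
    (.lf ⟨[.negSucc 5077439, .ofNat 22849200, .negSucc 23602559, .ofNat 9279600, .negSucc 1402079], (.tr (.dx 0 (.tr (.lf 5) (.tr (.lf 9) (.lf 6) (.lf 10)) (.lf 17))) (.tw (.lf 13) (.lf 14)) (.lf 18)), 0, [39, 39, 39, 39, 39, 39, 39, 39], []⟩)))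
    (.nd (.nd (.lf ⟨[.negSucc 976319, .negSucc 106799, .ofNat 519360, .negSucc 289199, .ofNat 60960], (.tr (.dx 0 (.tr (.lf 5) (.lf 17) (.tr (.lf 9) (.lf 6) (.lf 10)))) (.lf 13) (.tw (.lf 14) (.lf 18))), 0, [39, 5, 39, 5, 39, 5, 39, 5], []⟩)
    (.lf ⟨[.negSucc 2344319, .ofNat 10121760, .negSucc 10724159, .ofNat 4475040, .negSucc 731519], (.tr (.dx 0 (.tr (.lf 5) (.lf 6) (.tr (.lf 9) (.lf 17) (.lf 10)))) (.lf 18) (.tw (.lf 13) (.lf 14))), 0, [5, 5, 5, 5, 5, 5, 5, 5], []⟩))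
    (.nd (.lf ⟨[.negSucc 57692159, .ofNat 178797280, .negSucc 182171319, .ofNat 66658960, .negSucc 10805159], (.tr (.dx 0 (.tr (.lf 9) (.lf 10) (.tr (.lf 5) (.lf 17) (.lf 6)))) (.lf 18) (.tw (.lf 13) (.lf 14))), 0, [5, 5, 5, 5, 5, 5, 5, 5], []⟩)
    (.lf ⟨[.ofNat 144083520, .negSucc 438326959, .ofNat 443841680, .negSucc 163591759, .ofNat 26487120], (.tr (.dx 0 (.tr (.lf 9) (.lf 10) (.tr (.lf 5) (.lf 17) (.lf 6)))) (.tw (.lf 13) (.lf 18)) (.lf 14)), 0, [5, 5, 5, 5, 5, 5, 5, 5], []⟩))))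

/-- data -/
def dV6x3 : RT := (.nd (.nd (.nd (.lf ⟨[.negSucc 1254959, .negSucc 951179, .ofNat 2185680, .negSucc 1442699, .ofNat 228600], (.tr (.dx 0 (.tr (.lf 9) (.lf 17) (.tr (.lf 5) (.lf 10) (.lf 6)))) (.lf 18) (.tw (.lf 13) (.lf 14))), 0, [5, 5, 5, 5, 5, 5, 5, 5], []⟩)
    (.lf ⟨[.negSucc 5896079, .ofNat 13662300, .negSucc 12508079, .ofNat 4549980, .negSucc 716279], (.tr (.dx 0 (.tw (.lf 5) (.tr (.lf 9) (.tw (.lf 6) (.lf 17)) (.lf 10)))) (.lf 18) (.tw (.lf 13) (.lf 14))), 0, [5, 5, 5, 5, 5, 5, 5, 5, 5, 5, 5, 5, 5, 5, 5, 5], []⟩))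
    (.nd (.lf ⟨[.negSucc 1257119, .ofNat 1333080, .negSucc 310559, .negSucc 95399, .ofNat 30480], (.tr (.tw (.lf 13) (.lf 14)) (.dx 0 (.tr (.lf 5) (.lf 6) (.tr (.lf 9) (.lf 17) (.lf 10)))) (.lf 18)), 0, [22, 22, 22, 22, 22, 22, 22, 22], []⟩)
    (.lf ⟨[.ofNat 110358720, .negSucc 347142959, .ofNat 355068000, .negSucc 130902959, .ofNat 21244560], (.tr (.dx 0 (.tr (.tw (.lf 5) (.lf 6)) (.lf 13) (.lf 17))) (.lf 14) (.tr (.lf 9) (.lf 18) (.lf 10))), 0, [29, 29, 29, 29, 29, 29, 29, 29], []⟩)))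
    (.nd (.nd (.lf ⟨[.negSucc 35573039, .ofNat 116575540, .negSucc 120480519, .ofNat 43900900, .negSucc 7071359], (.tr (.dx 0 (.tr (.lf 5) (.tw (.lf 13) (.lf 17)) (.lf 6))) (.lf 14) (.tr (.lf 9) (.lf 18) (.lf 10))), 0, [29, 29, 29, 29, 29, 29, 29, 29], []⟩)
    (.lf ⟨[.ofNat 71146080, .negSucc 235403239, .ofNat 243771920, .negSucc 88713799, .ofNat 14264640], (.tr (.dx 0 (.tr (.lf 5) (.lf 13) (.tw (.lf 6) (.lf 17)))) (.lf 14) (.tr (.lf 9) (.lf 18) (.lf 10))), 0, [29, 29, 29, 29, 29, 29, 29, 29], []⟩))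
    (.nd (.lf ⟨[.negSucc 11182319, .ofNat 33767940, .negSucc 35039639, .ofNat 14260500, .negSucc 2346959], (.tr (.lf 14) (.dx 0 (.tr (.lf 13) (.tw (.lf 5) (.lf 6)) (.lf 17))) (.tr (.lf 9) (.lf 18) (.lf 10))), 0, [29, 29, 29, 29, 29, 29, 29, 29], []⟩)
    (.lf ⟨[.ofNat 3745440, .negSucc 20846039, .ofNat 21643440, .negSucc 9010679, .ofNat 1463040], (.tr (.lf 14) (.dx 0 (.tr (.tw (.lf 5) (.lf 13)) (.lf 6) (.lf 17))) (.tr (.lf 9) (.lf 18) (.lf 10))), 0, [29, 29, 29, 29, 29, 29, 29, 29], []⟩))))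

/-- data -/
def dV6x4 : RT := (.nd (.nd (.nd (.lf ⟨[.negSucc 52333199, .ofNat 177779900, .negSucc 183201319, .ofNat 67925420, .negSucc 10972799], (.tr (.dx 0 (.tr (.lf 5) (.tw (.lf 13) (.lf 17)) (.lf 6))) (.tr (.lf 9) (.lf 18) (.lf 10)) (.lf 14)), 0, [0, 0, 37, 37, 0, 0, 37, 37], []⟩)
    (.lf ⟨[.negSucc 30857759, .ofNat 101115160, .negSucc 105647079, .ofNat 38025640, .negSucc 6141719], (.tr (.dx 0 (.tr (.tw (.lf 5) (.lf 6)) (.lf 17) (.lf 13))) (.lf 18) (.tr (.lf 9) (.lf 14) (.lf 10))), 0, [7, 7, 7, 7, 7, 7, 7, 7], []⟩))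
    (.nd (.lf ⟨[.ofNat 71146080, .negSucc 230127079, .ofNat 238041680, .negSucc 86394439, .ofNat 13898880], (.tr (.dx 0 (.tr (.lf 5) (.tw (.lf 6) (.lf 17)) (.lf 13))) (.lf 18) (.tr (.lf 9) (.lf 14) (.lf 10))), 0, [7, 7, 7, 7, 7, 7, 7, 7], []⟩)
    (.lf ⟨[.negSucc 10815119, .ofNat 24966620, .negSucc 24063199, .ofNat 9762620, .negSucc 1691639], (.tr (.lf 18) (.dx 0 (.tr (.tw (.lf 5) (.lf 6)) (.lf 17) (.lf 13))) (.tr (.lf 9) (.lf 14) (.lf 10))), 0, [7, 7, 7, 7, 7, 7, 7, 7], []⟩)))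
    (.nd (.nd (.lf ⟨[.ofNat 38895840, .negSucc 135304039, .ofNat 139232960, .negSucc 51639079, .ofNat 8351520], (.tr (.dx 0 (.tr (.lf 5) (.tw (.lf 13) (.lf 17)) (.lf 6))) (.tr (.lf 9) (.lf 14) (.lf 10)) (.lf 18)), 0, [15, 15, 15, 15, 15, 15, 15, 15], []⟩)
    (.lf ⟨[.ofNat 0, .negSucc 23039, .ofNat 456480, .negSucc 369599, .ofNat 60960], (.tr (.dx 0 (.tr (.tw (.lf 5) (.lf 13)) (.lf 17) (.lf 6))) (.tr (.lf 9) (.lf 14) (.lf 10)) (.lf 18)), 0, [15, 15, 10, 10, 15, 15, 15, 15], []⟩))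
    (.nd (.lf ⟨[.ofNat 31455360, .negSucc 81089599, .ofNat 81060800, .negSucc 28665919, .ofNat 4663440], (.tr (.lf 14) (.lf 18) (.tr (.lf 9) (.dx 0 (.tr (.tw (.lf 5) (.lf 6)) (.lf 13) (.lf 17))) (.lf 10))), 0, [4, 4, 13, 13, 4, 4, 13, 13], []⟩)
    (.lf ⟨[.ofNat 103561920, .negSucc 312362799, .ofNat 318559120, .negSucc 113199759, .ofNat 18288000], (.tr (.lf 14) (.lf 18) (.tr (.lf 9) (.dx 0 (.tr (.lf 5) (.tw (.lf 13) (.lf 17)) (.lf 6))) (.lf 10))), 0, [13, 13, 13, 13, 13, 13, 13, 13], []⟩))))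

/-- data -/
def dV6x5 : RT := (.nd (.nd (.nd (.lf ⟨[.negSucc 207123839, .ofNat 626096480, .negSucc 638803039, .ofNat 227190560, .negSucc 36697919], (.tr (.lf 14) (.lf 18) (.tr (.lf 9) (.dx 0 (.tr (.tw (.lf 5) (.lf 13)) (.lf 17) (.lf 6))) (.lf 10))), 0, [13, 13, 13, 13, 13, 13, 13, 13], []⟩)
    (.lf ⟨[.negSucc 22571999, .ofNat 51565800, .negSucc 49240079, .ofNat 18260040, .negSucc 2987039], (.tr (.lf 14) (.lf 18) (.tr (.lf 9) (.dx 0 (.tr (.lf 13) (.tw (.lf 5) (.lf 6)) (.lf 17))) (.lf 10))), 0, [4, 4, 13, 13, 4, 4, 13, 13], []⟩))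
    (.nd (.lf ⟨[.ofNat 31207680, .negSucc 82192319, .ofNat 78910560, .negSucc 29101439, .ofNat 4693920], (.tr (.lf 14) (.lf 18) (.tr (.lf 9) (.dx 0 (.tr (.tw (.lf 5) (.lf 13)) (.lf 6) (.lf 17))) (.lf 10))), 0, [4, 4, 13, 13, 4, 4, 13, 13], []⟩)
    (.lf ⟨[.negSucc 1105919, .negSucc 1538399, .ofNat 1913520, .negSucc 760319, .ofNat 60960], (.tr (.lf 18) (.lf 14) (.tr (.lf 9) (.dx 0 (.tr (.lf 13) (.tw (.lf 5) (.lf 6)) (.lf 17))) (.lf 10))), 0, [38, 38, 13, 13, 38, 38, 13, 13], []⟩)))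
    (.nd (.nd (.lf ⟨[.negSucc 1820159, .ofNat 6867840, .negSucc 5088479, .ofNat 1529280, .negSucc 182879], (.tr (.lf 18) (.lf 14) (.tr (.lf 9) (.dx 0 (.tr (.tw (.lf 5) (.lf 17)) (.lf 6) (.lf 13))) (.lf 10))), 0, [13, 13, 38, 38, 13, 13, 38, 38], []⟩)
    (.lf ⟨[.ofNat 0, .negSucc 783359, .ofNat 857760, .negSucc 403199, .ofNat 60960], (.tr (.lf 14) (.tr (.lf 9) (.dx 0 (.tr (.lf 5) (.tw (.lf 13) (.lf 17)) (.lf 6))) (.lf 10)) (.lf 18)), 0, [15, 15, 15, 15, 15, 15, 15, 15], []⟩))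
    (.nd (.lf ⟨[.negSucc 62210159, .ofNat 210539460, .negSucc 219115319, .ofNat 80081940, .negSucc 12923519], (.tr (.lf 14) (.tr (.lf 9) (.dx 0 (.tr (.lf 13) (.tw (.lf 5) (.lf 6)) (.lf 17))) (.lf 10)) (.lf 18)), 0, [15, 15, 15, 15, 15, 15, 15, 15], []⟩)
    (.lf ⟨[.negSucc 29930399, .ofNat 84385560, .negSucc 83553839, .ofNat 31596600, .negSucc 5181599], (.tr (.lf 14) (.tr (.lf 9) (.dx 0 (.tr (.tw (.lf 5) (.lf 17)) (.lf 6) (.lf 13))) (.lf 10)) (.lf 18)), 0, [15, 15, 15, 15, 15, 15, 15, 15], []⟩))))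

/-- data -/
def dV6x6 : RT := (.nd (.nd (.nd (.lf ⟨[.ofNat 0, .ofNat 2384640, .negSucc 2856479, .ofNat 1508160, .negSucc 182879], (.tr (.dx 0 (.tr (.lf 17) (.lf 13) (.tr (.lf 5) (.lf 9) (.lf 6)))) (.tw (.lf 10) (.lf 18)) (.lf 14)), 0, [30, 30, 30, 30, 0, 0, 0, 0], []⟩)
    (.lf ⟨[.negSucc 77791679, .ofNat 269283280, .negSucc 277476159, .ofNat 103320400, .negSucc 16703039], (.tr (.dx 0 (.tr (.lf 17) (.lf 9) (.tr (.lf 5) (.lf 13) (.lf 6)))) (.tw (.lf 14) (.lf 18)) (.lf 10)), 0, [29, 7, 29, 7, 0, 7, 0, 7], []⟩))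
    (.nd (.lf ⟨[.ofNat 207123840, .negSucc 627810079, .ofNat 640706960, .negSucc 228080959, .ofNat 36789360], (.tr (.tw (.dx 0 (.tr (.lf 17) (.lf 13) (.tr (.lf 5) (.lf 9) (.lf 6)))) (.lf 18)) (.lf 10) (.lf 14)), 0, [30, 30, 0, 0, 2, 2, 2, 2], []⟩)
    (.lf ⟨[.ofNat 22199040, .negSucc 43274879, .ofNat 39007440, .negSucc 12961439, .ofNat 2103120], (.tr (.tw (.lf 10) (.lf 14)) (.dx 0 (.tr (.lf 17) (.lf 13) (.tr (.lf 5) (.lf 9) (.lf 6)))) (.lf 18)), 0, [3, 3, 3, 3, 3, 3, 3, 3], []⟩)))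
    (.nd (.nd (.lf ⟨[.negSucc 31207679, .ofNat 82192320, .negSucc 78910559, .ofNat 29101440, .negSucc 4693919], (.tr (.lf 10) (.tw (.dx 0 (.tr (.lf 17) (.lf 13) (.tr (.lf 5) (.lf 9) (.lf 6)))) (.lf 14)) (.lf 18)), 0, [12, 12, 12, 12, 3, 3, 3, 3], []⟩)
    (.lf ⟨[.negSucc 26721359, .ofNat 72964940, .negSucc 75287119, .ofNat 27386060, .negSucc 4373879], (.tr (.dx 0 (.tr (.lf 9) (.tr (.lf 5) (.lf 17) (.lf 6)) (.lf 13))) (.lf 14) (.tw (.lf 10) (.lf 18))), 0, [15, 20, 15, 20, 10, 10, 10, 10], []⟩))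
    (.nd (.lf ⟨[.ofNat 26721360, .negSucc 72964939, .ofNat 75287120, .negSucc 27386059, .ofNat 4373880], (.tr (.dx 0 (.tr (.lf 9) (.tr (.lf 5) (.lf 17) (.lf 6)) (.lf 13))) (.tw (.lf 10) (.lf 14)) (.lf 18)), 0, [39, 15, 39, 15, 10, 10, 10, 10], []⟩)
    (.lf ⟨[.negSucc 12003119, .ofNat 67874260, .negSucc 74248959, .ofNat 28116340, .negSucc 4800599], (.tr (.dx 0 (.tr (.lf 9) (.tr (.lf 5) (.lf 17) (.lf 6)) (.lf 13))) (.tw (.lf 14) (.lf 18)) (.lf 10)), 0, [20, 7, 20, 7, 10, 7, 10, 7], []⟩))))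

/-- data -/
def dV6x7 : RT := (.nd (.nd (.nd (.lf ⟨[.ofNat 44033760, .negSucc 139441799, .ofNat 141489840, .negSucc 52832039, .ofNat 8534400], (.tr (.dx 0 (.tr (.lf 9) (.tr (.lf 5) (.lf 17) (.lf 6)) (.lf 13))) (.lf 18) (.tw (.lf 10) (.lf 14))), 0, [20, 7, 20, 7, 10, 7, 10, 7], []⟩)
    (.lf ⟨[.ofNat 77791680, .negSucc 267912399, .ofNat 275791360, .negSucc 102529359, .ofNat 16581120], (.tr (.dx 0 (.tr (.lf 17) (.lf 9) (.tr (.lf 5) (.lf 13) (.lf 6)))) (.lf 18) (.tw (.lf 10) (.lf 14))), 0, [30, 7, 30, 7, 0, 7, 0, 7], []⟩))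
    (.nd (.lf ⟨[.negSucc 74735999, .ofNat 257551840, .negSucc 268769439, .ofNat 99204640, .negSucc 16032479], (.tr (.dx 0 (.tr (.lf 17) (.lf 9) (.tr (.lf 5) (.lf 13) (.lf 6)))) (.tw (.lf 10) (.lf 18)) (.lf 14)), 0, [30, 30, 30, 30, 0, 0, 0, 0], []⟩)
    (.lf ⟨[.ofNat 74736000, .negSucc 257586399, .ofNat 268660000, .negSucc 99164319, .ofNat 16032480], (.tr (.dx 0 (.tr (.lf 17) (.lf 9) (.tr (.lf 5) (.lf 13) (.lf 6)))) (.lf 10) (.tw (.lf 14) (.lf 18))), 0, [39, 30, 39, 30, 39, 0, 39, 0], []⟩)))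
    (.nd (.nd (.lf ⟨[.ofNat 18331200, .negSucc 34129519, .ofNat 29825600, .negSucc 12805999, .ofNat 2194560], (.tr (.tw (.dx 0 (.tr (.lf 17) (.lf 9) (.tr (.lf 5) (.lf 13) (.lf 6)))) (.lf 10)) (.lf 14) (.lf 18)), 0, [39, 39, 39, 39, 12, 12, 12, 12], []⟩)
    (.lf ⟨[.ofNat 910080, .negSucc 1135679, .ofNat 682560, .ofNat 179520], (.tr (.lf 10) (.dx 0 (.tr (.lf 17) (.lf 9) (.tr (.lf 5) (.lf 13) (.lf 6)))) (.tw (.lf 14) (.lf 18))), 0, [12, 5, 12, 5, 12, 5, 12, 5], []⟩))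
    (.nd (.lf ⟨[.ofNat 1598400, .ofNat 752880, .negSucc 1845599, .ofNat 955440, .negSucc 182879], (.tr (.tw (.dx 0 (.tr (.lf 13) (.tr (.lf 5) (.lf 9) (.lf 6)) (.lf 17))) (.lf 14)) (.lf 18) (.lf 10)), 0, [10, 10, 29, 29, 22, 22, 22, 22], []⟩)
    (.lf ⟨[.ofNat 0, .negSucc 1180799, .ofNat 1416720, .ofNat 1002720, .ofNat 91440], (.tr (.tw (.dx 0 (.tr (.lf 9) (.tr (.lf 5) (.lf 17) (.lf 6)) (.lf 13))) (.lf 18)) (.lf 14) (.lf 10)), 0, [7, 7, 7, 7, 7, 7, 7, 7], []⟩))))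

/-- data -/
def dV6x8 : RT := (.nd (.nd (.nd (.lf ⟨[.ofNat 48002400, .negSucc 164332519, .ofNat 172610000, .negSucc 63700039, .ofNat 10302240], (.tr (.tw (.dx 0 (.tr (.lf 13) (.lf 17) (.tr (.lf 5) (.lf 9) (.lf 6)))) (.lf 18)) (.lf 14) (.lf 10)), 0, [7, 7, 0, 0, 7, 7, 2, 2], []⟩)
    (.lf ⟨[.ofNat 29930400, .negSucc 83734679, .ofNat 83285520, .negSucc 31634039, .ofNat 5242560], (.tr (.dx 0 (.tr (.lf 13) (.lf 17) (.tr (.lf 5) (.lf 9) (.lf 6)))) (.tw (.lf 14) (.lf 18)) (.lf 10)), 0, [10, 7, 10, 7, 0, 0, 0, 0], []⟩))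
    (.nd (.lf ⟨[.negSucc 104666399, .ofNat 349523320, .negSucc 360652239, .ofNat 133850200, .negSucc 21701759], (.tr (.dx 0 (.tr (.lf 13) (.lf 17) (.tr (.lf 5) (.lf 9) (.lf 6)))) (.lf 14) (.tw (.lf 10) (.lf 18))), 0, [15, 10, 15, 10, 0, 0, 0, 0], []⟩)
    (.lf ⟨[.negSucc 2508479, .ofNat 6108240, .negSucc 3952799, .ofNat 725520, .negSucc 60959], (.tr (.tw (.dx 0 (.tr (.lf 9) (.tr (.lf 5) (.lf 13) (.lf 6)) (.lf 17))) (.lf 18)) (.lf 10) (.lf 14)), 0, [20, 20, 30, 30, 2, 2, 2, 2], []⟩)))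
    (.nd (.nd (.lf ⟨[.negSucc 48002399, .ofNat 163681640, .negSucc 172341679, .ofNat 63737480, .negSucc 10363199], (.tr (.dx 0 (.tr (.lf 13) (.lf 17) (.tr (.lf 5) (.lf 9) (.lf 6)))) (.lf 18) (.tw (.lf 10) (.lf 14))), 0, [10, 7, 10, 7, 0, 0, 0, 0], []⟩)
    (.lf ⟨[.ofNat 5263200, .negSucc 21757799, .ofNat 22579680, .negSucc 8838119, .ofNat 1371600], (.tr (.tw (.dx 0 (.tr (.lf 17) (.lf 13) (.tr (.lf 5) (.lf 9) (.lf 6)))) (.lf 18)) (.lf 14) (.lf 10)), 0, [7, 7, 0, 0, 2, 2, 2, 2], []⟩))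
    (.nd (.lf ⟨[.ofNat 0, .negSucc 933119, .ofNat 1066080, .negSucc 246719, .ofNat 60960], (.tr (.dx 0 (.tr (.lf 17) (.lf 13) (.tr (.lf 5) (.lf 9) (.lf 6)))) (.tw (.lf 14) (.lf 18)) (.lf 10)), 0, [30, 7, 30, 7, 0, 0, 0, 0], []⟩)
    (.lf ⟨[.negSucc 5489279, .ofNat 18193440, .negSucc 17481119, .ofNat 8189280, .negSucc 1463039], (.tr (.lf 10) (.tw (.dx 0 (.tr (.lf 17) (.lf 9) (.tr (.lf 5) (.lf 13) (.lf 6)))) (.lf 14)) (.lf 18)), 0, [12, 12, 12, 12, 3, 3, 3, 3], []⟩))))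

/-- data -/
def dV6x9 : RT := (.nd (.nd (.nd (.lf ⟨[.ofNat 6465600, .negSucc 23552879, .ofNat 22472160, .negSucc 9846959, .ofNat 1645920], (.tr (.tw (.lf 10) (.lf 14)) (.dx 0 (.tr (.lf 17) (.lf 9) (.tr (.lf 5) (.lf 13) (.lf 6)))) (.lf 18)), 0, [3, 3, 3, 3, 3, 3, 3, 3], []⟩)
    (.lf ⟨[.ofNat 0, .ofNat 1618560, .negSucc 2212799, .ofNat 608640, .negSucc 121919], (.tr (.lf 10) (.tw (.dx 0 (.tr (.lf 13) (.lf 17) (.tr (.lf 5) (.lf 9) (.lf 6)))) (.lf 18)) (.lf 14)), 0, [5, 5, 5, 5, 23, 23, 23, 23], []⟩))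
    (.nd (.lf ⟨[.ofNat 0, .negSucc 1618559, .ofNat 2212800, .negSucc 608639, .ofNat 121920], (.tr (.lf 6) (.tr (.dx 0 (.tw (.lf 5) (.lf 17))) (.tr (.lf 13) (.lf 9) (.lf 14)) (.lf 18)) (.lf 10)), 0, [32, 32, 32, 32, 16, 13, 16, 13], [29, 29, 13, 13]⟩)
    (.lf ⟨[.negSucc 1598399, .ofNat 618000, .ofNat 160800, .negSucc 164399, .ofNat 60960], (.tr (.lf 10) (.tw (.dx 0 (.tr (.lf 13) (.tr (.lf 5) (.lf 9) (.lf 6)) (.lf 17))) (.lf 18)) (.lf 14)), 0, [5, 5, 5, 5, 23, 23, 23, 23], []⟩)))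
    (.nd (.nd (.lf ⟨[.ofNat 1598400, .ofNat 84720, .negSucc 1465439, .ofNat 880560, .negSucc 182879], (.tr (.tw (.dx 0 (.tr (.lf 13) (.tr (.lf 5) (.lf 9) (.lf 6)) (.lf 17))) (.lf 10)) (.lf 18) (.lf 14)), 0, [10, 10, 5, 5, 5, 5, 5, 5], []⟩)
    (.lf ⟨[.ofNat 2433600, .negSucc 13535279, .ofNat 13549920, .negSucc 5525999, .ofNat 975360], (.tr (.dx 0 (.tr (.lf 13) (.tr (.lf 5) (.lf 9) (.lf 6)) (.lf 17))) (.tw (.lf 10) (.lf 18)) (.lf 14)), 0, [10, 10, 10, 10, 5, 37, 5, 37], []⟩))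
    (.nd (.lf ⟨[.negSucc 3409919, .ofNat 13768320, .negSucc 13397279, .ofNat 5290560, .negSucc 914399], (.tr (.dx 0 (.tr (.lf 13) (.tr (.lf 5) (.lf 9) (.lf 6)) (.lf 17))) (.lf 18) (.tw (.lf 10) (.lf 14))), 0, [10, 7, 10, 7, 37, 7, 37, 7], []⟩)
    (.lf ⟨[.ofNat 976320, .negSucc 572879, .ofNat 214080, .ofNat 181680, .negSucc 60959], (.tr (.tw (.lf 10) (.lf 18)) (.dx 0 (.tr (.lf 13) (.lf 9) (.tr (.lf 5) (.lf 17) (.lf 6)))) (.lf 14)), 0, [28, 28, 23, 23, 14, 14, 23, 23], []⟩))))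

/-- data -/
def dV6x10 : RT := (.nd (.nd (.nd (.lf ⟨[.ofNat 2264400, .ofNat 9765620, .negSucc 14778559, .ofNat 4479380, .negSucc 655319], (.tr (.tw (.dx 0 (.tr (.lf 13) (.lf 9) (.tr (.lf 5) (.lf 17) (.lf 6)))) (.lf 14)) (.lf 10) (.lf 18)), 0, [15, 15, 15, 15, 22, 22, 15, 15], []⟩)
    (.lf ⟨[.negSucc 25524719, .ofNat 77747300, .negSucc 81946399, .ofNat 29252420, .negSucc 4800599], (.tr (.tw (.dx 0 (.tr (.lf 13) (.tr (.lf 5) (.lf 9) (.lf 6)) (.lf 17))) (.lf 18)) (.lf 14) (.lf 10)), 0, [7, 7, 7, 7, 7, 7, 2, 2], []⟩))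
    (.nd (.lf ⟨[.ofNat 25524720, .negSucc 78138979, .ofNat 82268960, .negSucc 29252419, .ofNat 4800600], (.tr (.lf 10) (.tw (.dx 0 (.tr (.lf 13) (.tr (.lf 5) (.lf 9) (.lf 6)) (.lf 17))) (.lf 14)) (.lf 18)), 0, [12, 12, 39, 39, 3, 3, 6, 6], []⟩)
    (.lf ⟨[.negSucc 26434799, .ofNat 79274660, .negSucc 82951519, .ofNat 29072900, .negSucc 4800599], (.tr (.tw (.dx 0 (.tr (.lf 13) (.tr (.lf 5) (.lf 9) (.lf 6)) (.lf 17))) (.lf 10)) (.lf 14) (.lf 18)), 0, [39, 39, 39, 39, 12, 12, 39, 39], []⟩)))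
    (.nd (.nd (.lf ⟨[.negSucc 976319, .ofNat 5359440, .negSucc 4991039, .ofNat 1657680, .negSucc 182879], (.tr (.dx 0 (.tr (.lf 13) (.tr (.lf 5) (.lf 9) (.lf 6)) (.lf 17))) (.tw (.lf 10) (.lf 14)) (.lf 18)), 0, [39, 10, 39, 10, 39, 15, 39, 15], []⟩)
    (.lf ⟨[.negSucc 2264399, .negSucc 9373939, .ofNat 14456000, .negSucc 4479379, .ofNat 655320], (.tr (.dx 0 (.tr (.lf 13) (.lf 9) (.tr (.lf 5) (.lf 17) (.lf 6)))) (.lf 14) (.tw (.lf 10) (.lf 18))), 0, [15, 29, 15, 29, 15, 29, 15, 29], []⟩))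
    (.nd (.lf ⟨[.ofNat 0, .negSucc 1514879, .ofNat 2159520, .negSucc 1139519, .ofNat 182880], (.tr (.lf 10) (.tw (.dx 0 (.tr (.lf 13) (.lf 9) (.tr (.lf 5) (.lf 17) (.lf 6)))) (.lf 14)) (.lf 18)), 0, [12, 12, 12, 12, 3, 3, 6, 6], []⟩)
    (.lf ⟨[.ofNat 80056080, .negSucc 261758299, .ofNat 265167200, .negSucc 99112699, .ofNat 16108680], (.tr (.dx 0 (.tr (.lf 13) (.lf 9) (.tr (.lf 5) (.lf 17) (.lf 6)))) (.tw (.lf 14) (.lf 18)) (.lf 10)), 0, [29, 7, 29, 7, 29, 7, 29, 7], []⟩))))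

/-- data -/
def dV6x11 : RT := (.nd (.nd (.nd (.lf ⟨[.negSucc 3055679, .ofNat 11875440, .negSucc 9181439, .ofNat 4464240, .negSucc 731519], (.tr (.tw (.dx 0 (.tr (.lf 13) (.lf 9) (.tr (.lf 5) (.lf 17) (.lf 6)))) (.lf 18)) (.lf 14) (.lf 10)), 0, [7, 7, 7, 7, 7, 7, 2, 2], []⟩)
    (.lf ⟨[.negSucc 77000399, .ofNat 250274540, .negSucc 256308319, .ofNat 94648460, .negSucc 15377159], (.tr (.dx 0 (.tr (.lf 13) (.lf 9) (.tr (.lf 5) (.lf 17) (.lf 6)))) (.lf 18) (.tw (.lf 10) (.lf 14))), 0, [10, 7, 10, 7, 0, 7, 0, 7], []⟩))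
    (.nd (.lf ⟨[.ofNat 77000400, .negSucc 250729579, .ofNat 256611680, .negSucc 94702219, .ofNat 15377160], (.tr (.dx 0 (.tr (.lf 13) (.lf 9) (.tr (.lf 5) (.lf 17) (.lf 6)))) (.tw (.lf 10) (.lf 18)) (.lf 14)), 0, [5, 10, 5, 10, 0, 0, 0, 0], []⟩)
    (.lf ⟨[.negSucc 50565599, .ofNat 157124040, .negSucc 159402239, .ofNat 59690760, .negSucc 9723119], (.tr (.tw (.dx 0 (.tr (.lf 13) (.lf 9) (.tr (.lf 5) (.lf 17) (.lf 6)))) (.lf 10)) (.lf 18) (.lf 14)), 0, [5, 5, 0, 0, 12, 12, 5, 5], []⟩)))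
    (.nd (.nd (.lf ⟨[.ofNat 0, .ofNat 1768320, .negSucc 1865279, .negSucc 593279, .negSucc 121919], (.tr (.tw (.lf 10) (.lf 14)) (.dx 0 (.tr (.lf 9) (.tr (.lf 5) (.lf 17) (.lf 6)) (.lf 13))) (.lf 18)), 0, [6, 6, 6, 6, 36, 36, 36, 36], []⟩)
    (.lf ⟨[.negSucc 48002399, .ofNat 162984680, .negSucc 171381679, .ofNat 63278600, .negSucc 10241279], (.tr (.tw (.lf 10) (.lf 14)) (.dx 0 (.tr (.lf 13) (.lf 17) (.tr (.lf 5) (.lf 9) (.lf 6)))) (.lf 18)), 0, [3, 3, 6, 6, 3, 3, 36, 36], []⟩))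
    (.nd (.lf ⟨[.negSucc 46533599, .ofNat 137789640, .negSucc 139703999, .ofNat 52068360, .negSucc 8503919], (.tr (.tw (.lf 10) (.lf 18)) (.dx 0 (.tr (.lf 13) (.lf 17) (.tr (.lf 5) (.lf 9) (.lf 6)))) (.lf 14)), 0, [23, 23, 23, 23, 14, 14, 23, 23], []⟩)
    (.lf ⟨[.ofNat 46533600, .negSucc 143826119, .ofNat 145454400, .negSucc 54068999, .ofNat 8747760], (.tr (.lf 14) (.tw (.dx 0 (.tr (.lf 13) (.lf 17) (.tr (.lf 5) (.lf 9) (.lf 6)))) (.lf 10)) (.lf 18)), 0, [22, 22, 15, 15, 3, 3, 36, 36], []⟩))))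

/-- data -/
def dV6x12 : RT := (.nd (.nd (.nd (.lf ⟨[.ofNat 0, .ofNat 6036480, .negSucc 5750399, .ofNat 2000640, .negSucc 243839], (.tr (.tw (.dx 0 (.tr (.lf 9) (.tr (.lf 5) (.lf 13) (.lf 6)) (.lf 17))) (.lf 18)) (.lf 14) (.lf 10)), 0, [7, 7, 7, 7, 7, 7, 2, 2], []⟩)
    (.lf ⟨[.ofNat 74736000, .negSucc 264129759, .ofNat 275405440, .negSucc 101338719, .ofNat 16337280], (.tr (.lf 14) (.tw (.dx 0 (.tr (.lf 9) (.lf 13) (.tr (.lf 5) (.lf 17) (.lf 6)))) (.lf 10)) (.lf 18)), 0, [22, 22, 15, 15, 3, 3, 36, 36], []⟩))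
    (.nd (.lf ⟨[.ofNat 2508480, .negSucc 7767119, .ofNat 5914080, .negSucc 1602959, .ofNat 182880], (.tr (.lf 14) (.tw (.dx 0 (.tr (.lf 9) (.tr (.lf 5) (.lf 13) (.lf 6)) (.lf 17))) (.lf 10)) (.lf 18)), 0, [15, 15, 15, 15, 3, 3, 3, 3], []⟩)
    (.lf ⟨[.ofNat 0, .ofNat 1347840, .negSucc 1228319, .ofNat 421440, .negSucc 60959], (.tr (.tw (.lf 10) (.lf 18)) (.dx 0 (.tr (.lf 9) (.tr (.lf 5) (.lf 13) (.lf 6)) (.lf 17))) (.lf 14)), 0, [23, 23, 23, 23, 14, 14, 14, 14], []⟩)))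
    (.nd (.nd (.lf ⟨[.negSucc 2508479, .ofNat 8409360, .negSucc 6915599, .ofNat 1297200, .negSucc 152399], (.tr (.tw (.dx 0 (.tr (.lf 9) (.tr (.lf 5) (.lf 13) (.lf 6)) (.lf 17))) (.lf 14)) (.lf 10) (.lf 18)), 0, [15, 15, 15, 15, 15, 15, 15, 15], []⟩)
    (.lf ⟨[.ofNat 49534560, .negSucc 174202279, .ofNat 182824640, .negSucc 66619879, .ofNat 10820400], (.tr (.dx 0 (.tr (.lf 9) (.tr (.lf 5) (.lf 13) (.lf 6)) (.lf 17))) (.lf 14) (.tw (.lf 10) (.lf 18))), 0, [15, 29, 15, 29, 15, 29, 15, 29], []⟩))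
    (.nd (.lf ⟨[.negSucc 104666399, .ofNat 347890360, .negSucc 358303359, .ofNat 133206520, .negSucc 21549359], (.tr (.tw (.lf 10) (.lf 18)) (.dx 0 (.tr (.lf 9) (.lf 13) (.tr (.lf 5) (.lf 17) (.lf 6)))) (.lf 14)), 0, [28, 28, 23, 23, 14, 14, 23, 23], []⟩)
    (.lf ⟨[.ofNat 0, .ofNat 6114240, .negSucc 6326879, .ofNat 1912320, .negSucc 243839], (.tr (.tw (.dx 0 (.tr (.lf 9) (.lf 13) (.tr (.lf 5) (.lf 17) (.lf 6)))) (.lf 14)) (.lf 18) (.lf 10)), 0, [29, 29, 29, 29, 22, 22, 29, 29], []⟩))))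

/-- data -/
def dV6x13 : RT := (.nd (.nd (.nd (.lf ⟨[.ofNat 105642720, .negSucc 352377159, .ofNat 362169280, .negSucc 133670919, .ofNat 21549360], (.tr (.lf 10) (.tw (.dx 0 (.tr (.lf 9) (.lf 13) (.tr (.lf 5) (.lf 17) (.lf 6)))) (.lf 18)) (.lf 14)), 0, [12, 12, 5, 5, 28, 28, 23, 23], []⟩)
    (.lf ⟨[.ofNat 0, .negSucc 339839, .ofNat 366720, .negSucc 53759], (.tr (.lf 10) (.dx 0 (.tr (.lf 9) (.lf 13) (.tr (.lf 5) (.lf 17) (.lf 6)))) (.tw (.lf 14) (.lf 18))), 0, [12, 12, 12, 12, 12, 5, 12, 5], []⟩))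
    (.nd (.lf ⟨[.negSucc 104666399, .ofNat 353008120, .negSucc 363186879, .ofNat 134699320, .negSucc 21732239], (.tr (.tw (.dx 0 (.tr (.lf 9) (.lf 13) (.tr (.lf 5) (.lf 17) (.lf 6)))) (.lf 10)) (.lf 18) (.lf 14)), 0, [5, 5, 0, 0, 12, 12, 5, 5], []⟩)
    (.lf ⟨[.ofNat 104666400, .negSucc 355559799, .ofNat 366402640, .negSucc 135850839, .ofNat 21945600], (.tr (.dx 0 (.tr (.lf 9) (.lf 13) (.tr (.lf 5) (.lf 17) (.lf 6)))) (.tw (.lf 10) (.lf 18)) (.lf 14)), 0, [5, 20, 5, 20, 0, 0, 0, 0], []⟩)))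
    (.nd (.nd (.lf ⟨[.negSucc 237850559, .ofNat 718086800, .negSucc 726212479, .ofNat 256411280, .negSucc 40843199], (.tr (.lf 10) (.tw (.dx 0 (.tr (.lf 17) (.lf 13) (.tr (.lf 5) (.lf 9) (.lf 6)))) (.lf 18)) (.lf 14)), 0, [5, 5, 5, 5, 28, 28, 23, 23], []⟩)
    (.lf ⟨[.ofNat 34799760, .negSucc 99403579, .ofNat 95204240, .negSucc 34732219, .ofNat 5654040], (.tr (.tw (.dx 0 (.tr (.lf 9) (.lf 17) (.tr (.lf 5) (.lf 13) (.lf 6)))) (.lf 10)) (.lf 18) (.lf 14)), 0, [20, 20, 0, 0, 12, 12, 5, 5], []⟩))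
    (.nd (.lf ⟨[.ofNat 203050800, .negSucc 620733779, .ofNat 633519120, .negSucc 222691859, .ofNat 35372040], (.tr (.dx 0 (.tr (.lf 9) (.lf 17) (.tr (.lf 5) (.lf 13) (.lf 6)))) (.lf 10) (.tw (.lf 14) (.lf 18))), 0, [20, 20, 20, 20, 39, 0, 39, 0], []⟩)
    (.lf ⟨[.negSucc 25857359, .ofNat 77991820, .negSucc 76704639, .ofNat 26538220, .negSucc 3794759], (.tr (.tw (.dx 0 (.tr (.lf 9) (.lf 17) (.tr (.lf 5) (.lf 13) (.lf 6)))) (.lf 10)) (.lf 14) (.lf 18)), 0, [20, 20, 39, 39, 12, 12, 12, 12], []⟩))))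

/-- data -/
def dV6x14 : RT := (.nd (.nd (.nd (.lf ⟨[.negSucc 177193439, .ofNat 543081800, .negSucc 556933999, .ofNat 196385000, .negSucc 31638239], (.tr (.dx 0 (.tr (.lf 9) (.lf 17) (.tr (.lf 5) (.lf 13) (.lf 6)))) (.tw (.lf 10) (.lf 14)) (.lf 18)), 0, [20, 20, 20, 20, 39, 0, 39, 0], []⟩)
    (.lf ⟨[.ofNat 177193440, .negSucc 543047239, .ofNat 557043440, .negSucc 196425319, .ofNat 31638240], (.tr (.dx 0 (.tr (.lf 5) (.tr (.lf 9) (.tw (.lf 6) (.lf 13)) (.lf 10)) (.lf 17))) (.lf 18) (.lf 14)), 0, [0, 5, 0, 5, 5, 5, 5, 5], []⟩))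
    (.nd (.lf ⟨[.ofNat 25857360, .negSucc 78360459, .ofNat 76917760, .negSucc 26538219, .ofNat 3794760], (.tr (.lf 10) (.tw (.dx 0 (.tr (.lf 9) (.lf 17) (.tr (.lf 5) (.lf 13) (.lf 6)))) (.lf 14)) (.lf 18)), 0, [12, 12, 12, 12, 3, 3, 3, 3], []⟩)
    (.lf ⟨[.ofNat 0, .negSucc 1768319, .ofNat 1865280, .ofNat 593280, .ofNat 121920], (.tr (.tw (.lf 10) (.lf 14)) (.dx 0 (.tr (.lf 9) (.lf 17) (.tr (.lf 5) (.lf 13) (.lf 6)))) (.lf 18)), 0, [3, 3, 3, 3, 3, 3, 3, 3], []⟩)))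
    (.nd (.nd (.lf ⟨[.negSucc 39014639, .ofNat 96688420, .negSucc 88011039, .ofNat 30767620, .negSucc 4800599], (.tr (.tw (.dx 0 (.tr (.lf 9) (.lf 17) (.tr (.lf 5) (.lf 13) (.lf 6)))) (.lf 18)) (.lf 14) (.lf 10)), 0, [7, 7, 7, 7, 2, 2, 2, 2], []⟩)
    (.lf ⟨[.ofNat 237850560, .negSucc 715535119, .ofNat 722996720, .negSucc 255259759, .ofNat 40629840], (.tr (.tw (.lf 10) (.lf 18)) (.dx 0 (.tr (.lf 17) (.lf 13) (.tr (.lf 5) (.lf 9) (.lf 6)))) (.lf 14)), 0, [28, 28, 23, 23, 14, 14, 14, 14], []⟩))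
    (.nd (.lf ⟨[.negSucc 190598399, .ofNat 530245760, .negSucc 530178319, .ofNat 185540000, .negSucc 29717999], (.tr (.lf 14) (.tw (.dx 0 (.tr (.lf 17) (.lf 13) (.tr (.lf 5) (.lf 9) (.lf 6)))) (.lf 10)) (.lf 18)), 0, [15, 15, 15, 15, 3, 3, 3, 3], []⟩)
    (.lf ⟨[.negSucc 53043839, .ofNat 194650080, .negSucc 202670879, .ofNat 73610400, .negSucc 11582399], (.tr (.tw (.dx 0 (.tr (.lf 17) (.lf 13) (.tr (.lf 5) (.lf 9) (.lf 6)))) (.lf 14)) (.lf 10) (.lf 18)), 0, [30, 30, 0, 0, 15, 15, 15, 15], []⟩))))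

/-- data -/
def dV6x15 : RT := (.nd (.nd (.nd (.lf ⟨[.negSucc 29675519, .ofNat 80277120, .negSucc 78021599, .ofNat 28979520, .negSucc 4693919], (.tr (.lf 14) (.tw (.dx 0 (.tr (.lf 17) (.lf 9) (.tr (.lf 5) (.lf 13) (.lf 6)))) (.lf 10)) (.lf 18)), 0, [15, 15, 15, 15, 3, 3, 3, 3], []⟩)
    (.lf ⟨[.ofNat 133489440, .negSucc 390191799, .ofNat 398253040, .negSucc 139544919, .ofNat 22738080], (.tr (.dx 0 (.tr (.lf 9) (.tr (.lf 5) (.tw (.lf 10) (.lf 17)) (.lf 6)) (.lf 13))) (.lf 14) (.lf 18)), 0, [20, 20, 20, 20, 10, 10, 10, 10], []⟩))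
    (.nd (.lf ⟨[.negSucc 133489439, .ofNat 391562680, .negSucc 399937839, .ofNat 140335960, .negSucc 22859999], (.tr (.dx 0 (.tr (.lf 13) (.lf 5) (.tr (.lf 9) (.tw (.lf 6) (.lf 17)) (.lf 10)))) (.lf 14) (.lf 18)), 0, [10, 10, 10, 10, 20, 20, 20, 20], []⟩)
    (.lf ⟨[.negSucc 104666399, .ofNat 351781240, .negSucc 361823439, .ofNat 134326360, .negSucc 21701759], (.tr (.dx 0 (.tw (.lf 13) (.tr (.lf 9) (.lf 17) (.tr (.lf 5) (.lf 10) (.lf 6))))) (.lf 14) (.lf 18)), 0, [39, 39, 10, 10, 20, 20, 0, 0], []⟩)))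
    (.nd (.nd (.lf ⟨[.ofNat 238155840, .negSucc 743654959, .ofNat 762743360, .negSucc 275378479, .ofNat 44683680], (.tr (.dx 0 (.tw (.lf 9) (.tr (.lf 13) (.tr (.lf 5) (.lf 10) (.lf 6)) (.lf 17)))) (.lf 14) (.lf 18)), 0, [39, 39, 20, 20, 10, 10, 39, 39], []⟩)
    (.lf ⟨[.negSucc 28321919, .ofNat 70372320, .negSucc 70185599, .ofNat 25987680, .negSucc 4267199], (.tr (.dx 0 (.tr (.lf 9) (.lf 13) (.tr (.lf 10) (.tw (.lf 5) (.lf 6)) (.lf 17)))) (.lf 14) (.lf 18)), 0, [39, 39, 39, 39, 20, 20, 39, 39], []⟩))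
    (.nd (.lf ⟨[.ofNat 13936320, .negSucc 20939279, .ofNat 19569600, .negSucc 7418639, .ofNat 1280160], (.tr (.dx 0 (.tr (.lf 9) (.lf 17) (.tr (.tw (.lf 5) (.lf 6)) (.lf 13) (.lf 10)))) (.lf 14) (.lf 18)), 0, [20, 20, 20, 20, 0, 0, 39, 39], []⟩)
    (.lf ⟨[.negSucc 217549439, .ofNat 678450720, .negSucc 693253439, .ofNat 255708960, .negSucc 41513759], (.tw (.lf 18) (.tr (.lf 9) (.dx 0 (.tr (.lf 5) (.lf 6) (.lf 17))) (.tr (.lf 13) (.lf 10) (.lf 14)))), 0, [37, 37, 37, 37, 38, 38, 38, 38], []⟩))))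

/-- data -/
def dV6x16 : RT := (.nd (.nd (.nd (.lf ⟨[.ofNat 135561600, .negSucc 440590239, .ofNat 453543520, .negSucc 166551519, .ofNat 27188160], (.tr (.lf 18) (.lf 13) (.tr (.lf 9) (.tw (.dx 0 (.tr (.lf 5) (.lf 6) (.lf 17))) (.lf 14)) (.lf 10))), 0, [38, 38, 38, 38, 38, 38, 38, 38], []⟩)
    (.lf ⟨[.ofNat 11764800, .negSucc 22214639, .ofNat 21717120, .negSucc 9043439, .ofNat 1584960], (.tr (.dx 0 (.tr (.lf 9) (.tr (.tw (.lf 5) (.lf 6)) (.lf 13) (.lf 10)) (.lf 17))) (.lf 18) (.lf 14)), 0, [5, 5, 20, 20, 5, 5, 5, 5], []⟩))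
    (.nd (.lf ⟨[.negSucc 149578559, .ofNat 488039920, .negSucc 500712159, .ofNat 185149360, .negSucc 30053279], (.tr (.lf 9) (.tr (.lf 13) (.tw (.dx 0 (.tr (.lf 5) (.lf 6) (.lf 17))) (.lf 10)) (.lf 14)) (.lf 18)), 0, [39, 39, 6, 6, 39, 39, 6, 6], []⟩)
    (.lf ⟨[.ofNat 24491520, .negSucc 81947519, .ofNat 80520960, .negSucc 31847039, .ofNat 4876800], (.tr (.lf 18) (.lf 13) (.tr (.tw (.dx 0 (.tr (.lf 5) (.lf 6) (.lf 17))) (.lf 9)) (.lf 14) (.lf 10))), 0, [7, 7, 38, 38, 38, 38, 38, 1], []⟩)))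
    (.nd (.nd (.lf ⟨[.ofNat 344828160, .negSucc 1114660319, .ofNat 1149149160, .negSucc 419866799, .ofNat 67833240], (.tr (.lf 10) (.dx 0 (.tr (.lf 9) (.lf 5) (.tr (.lf 6) (.lf 13) (.tw (.lf 17) (.lf 18))))) (.lf 14)), 0, [12, 12, 12, 12, 23, 23, 23, 23], []⟩)
    (.lf ⟨[.ofNat 55805760, .negSucc 175947439, .ofNat 179879840, .negSucc 65815279, .ofNat 10607040], (.tw (.lf 9) (.tr (.dx 0 (.tr (.lf 5) (.lf 6) (.lf 17))) (.tr (.lf 13) (.lf 10) (.lf 14)) (.lf 18))), 0, [39, 39, 39, 39, 28, 1, 28, 1], []⟩))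
    (.nd (.lf ⟨[.negSucc 52099199, .ofNat 148897760, .negSucc 149005279, .ofNat 53503520, .negSucc 8595359], (.tr (.dx 0 (.tr (.lf 5) (.lf 6) (.lf 17))) (.lf 13) (.tr (.lf 9) (.tw (.lf 14) (.lf 18)) (.lf 10))), 0, [0, 0, 0, 0, 29, 7, 29, 7], []⟩)
    (.lf ⟨[.negSucc 2090879, .negSucc 4724639, .ofNat 6944640, .negSucc 2635679, .ofNat 365760], (.tw (.lf 18) (.tr (.dx 0 (.tr (.lf 5) (.lf 6) (.lf 17))) (.lf 9) (.tr (.lf 13) (.lf 10) (.lf 14)))), 0, [37, 37, 37, 37, 38, 1, 38, 1], []⟩))))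

/-- data -/
def dV6x17 : RT := (.nd (.nd (.nd (.lf ⟨[.negSucc 5152319, .ofNat 23056560, .negSucc 23578559, .ofNat 9683760, .negSucc 1402079], (.tw (.lf 13) (.tr (.lf 18) (.dx 0 (.tr (.lf 5) (.lf 6) (.lf 17))) (.tr (.lf 9) (.lf 14) (.lf 10)))), 0, [7, 7, 7, 7, 36, 36, 36, 36], []⟩)
    (.lf ⟨[.ofNat 6367680, .negSucc 31968719, .ofNat 33464640, .negSucc 13644239, .ofNat 2011680], (.tw (.lf 9) (.tr (.dx 0 (.tr (.lf 5) (.lf 6) (.lf 13))) (.lf 14) (.tr (.lf 17) (.lf 10) (.lf 18)))), 0, [15, 15, 15, 15, 28, 28, 28, 28], []⟩))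
    (.nd (.lf ⟨[.negSucc 10154879, .ofNat 39661920, .negSucc 41454719, .ofNat 16558560, .negSucc 2560319], (.tw (.dx 0 (.tr (.lf 5) (.lf 6) (.lf 13))) (.tr (.lf 9) (.tr (.lf 17) (.lf 10) (.lf 18)) (.lf 14))), 0, [0, 0, 29, 29, 10, 10, 29, 29], []⟩)
    (.lf ⟨[.ofNat 10154880, .negSucc 45698399, .ofNat 47205120, .negSucc 18559199, .ofNat 2804160], (.tw (.dx 0 (.tr (.lf 5) (.tr (.lf 6) (.lf 17) (.tr (.lf 13) (.lf 9) (.lf 14))) (.lf 10))) (.lf 18)), 0, [0, 0, 3, 3, 3, 3, 3, 3], []⟩)))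
    (.nd (.nd (.lf ⟨[.ofNat 5077440, .negSucc 19830959, .ofNat 20727360, .negSucc 8279279, .ofNat 1280160], (.tr (.dx 0 (.tr (.lf 5) (.tr (.lf 17) (.lf 6) (.lf 18)) (.lf 9))) (.tw (.lf 13) (.lf 14)) (.lf 10)), 0, [7, 7, 7, 7, 7, 7, 7, 7], []⟩)
    (.lf ⟨[.negSucc 10154879, .ofNat 39661920, .negSucc 41454719, .ofNat 16558560, .negSucc 2560319], (.tw (.dx 0 (.tr (.lf 5) (.tr (.lf 13) (.lf 17) (.tr (.lf 9) (.lf 6) (.lf 10))) (.lf 14))) (.lf 18)), 0, [0, 0, 0, 0, 10, 10, 3, 3], []⟩))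
    (.nd (.lf ⟨[.negSucc 196467839, .ofNat 622512800, .negSucc 639075439, .ofNat 232568960, .negSucc 37520879], (.tw (.dx 0 (.tr (.lf 5) (.lf 13) (.tr (.lf 14) (.tr (.lf 9) (.lf 6) (.lf 10)) (.lf 17)))) (.lf 18)), 0, [3, 3, 0, 0, 3, 3, 3, 3], []⟩)
    (.lf ⟨[.ofNat 198285120, .negSucc 617413999, .ofNat 628235120, .negSucc 226291279, .ofNat 36484560], (.tw (.lf 17) (.tr (.lf 9) (.tr (.dx 0 (.tr (.lf 5) (.lf 6) (.lf 13))) (.lf 14) (.lf 18)) (.lf 10))), 0, [14, 14, 14, 14, 14, 14, 14, 14], []⟩))))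

/-- data -/
def dV6x18 : RT := (.nd (.nd (.nd (.lf ⟨[.negSucc 192686399, .ofNat 597100400, .negSucc 605851759, .ofNat 217505360, .negSucc 35021519], (.tw (.lf 9) (.tr (.lf 13) (.tr (.lf 10) (.dx 0 (.tr (.lf 5) (.lf 6) (.lf 17))) (.lf 18)) (.lf 14))), 0, [6, 6, 6, 6, 6, 6, 6, 6], []⟩)
    (.lf ⟨[.ofNat 11093760, .negSucc 15506879, .ofNat 13864320, .negSucc 5261759, .ofNat 975360], (.tw (.dx 0 (.tr (.lf 9) (.lf 5) (.tr (.lf 6) (.tr (.lf 13) (.lf 10) (.lf 14)) (.lf 17)))) (.lf 18)), 0, [3, 3, 3, 3, 3, 3, 30, 30], []⟩))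
    (.nd (.lf ⟨[.ofNat 141956640, .negSucc 455968439, .ofNat 469603680, .negSucc 171291959, .ofNat 27767280], (.tw (.lf 18) (.tr (.lf 13) (.dx 0 (.tr (.lf 5) (.lf 6) (.lf 17))) (.tr (.lf 9) (.lf 14) (.lf 10)))), 0, [7, 7, 7, 7, 14, 14, 14, 14], []⟩)
    (.lf ⟨[.negSucc 130355999, .ofNat 417747000, .negSucc 428297519, .ofNat 155887320, .negSucc 25237439], (.tr (.dx 0 (.tw (.lf 17) (.tr (.lf 18) (.lf 9) (.tr (.lf 5) (.lf 13) (.lf 6))))) (.lf 10) (.lf 14)), 0, [30, 30, 37, 37, 37, 37, 0, 0], []⟩)))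
    (.nd (.nd (.lf ⟨[.ofNat 4862880, .negSucc 15489239, .ofNat 16464000, .negSucc 6180119, .ofNat 1005840], (.tw (.lf 13) (.tr (.dx 0 (.tr (.lf 5) (.lf 6) (.lf 17))) (.tr (.lf 9) (.lf 14) (.lf 10)) (.lf 18))), 0, [15, 15, 15, 15, 4, 1, 4, 1], []⟩)
    (.lf ⟨[.ofNat 0, .ofNat 1520640, .negSucc 1514639, .ofNat 656160, .negSucc 91439], (.tr (.dx 0 (.tw (.lf 5) (.tr (.lf 9) (.tr (.lf 6) (.lf 17) (.lf 13)) (.lf 10)))) (.lf 14) (.lf 18)), 0, [0, 0, 0, 0, 20, 20, 20, 20], []⟩))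
    (.nd (.lf ⟨[.negSucc 77791679, .ofNat 270631120, .negSucc 278922399, .ofNat 103647760, .negSucc 16763999], (.tr (.dx 0 (.tw (.lf 5) (.tr (.lf 13) (.lf 17) (.tr (.lf 9) (.lf 6) (.lf 10))))) (.lf 14) (.lf 18)), 0, [0, 0, 0, 0, 10, 10, 20, 20], []⟩)
    (.lf ⟨[.ofNat 77791680, .negSucc 270631119, .ofNat 278922400, .negSucc 103647759, .ofNat 16764000], (.tr (.dx 0 (.tw (.lf 17) (.tr (.lf 9) (.lf 13) (.tr (.lf 5) (.lf 18) (.lf 6))))) (.lf 10) (.lf 14)), 0, [30, 30, 37, 37, 37, 37, 37, 37], []⟩))))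

/-- data -/
def dV6x19 : RT := (.nd (.nd (.nd (.lf ⟨[.negSucc 133489439, .ofNat 390214840, .negSucc 398709519, .ofNat 139914520, .negSucc 22799039], (.tr (.dx 0 (.tw (.lf 13) (.tr (.lf 5) (.lf 17) (.tr (.lf 9) (.lf 6) (.lf 10))))) (.lf 14) (.lf 18)), 0, [10, 10, 10, 10, 39, 39, 20, 20], []⟩)
    (.lf ⟨[.ofNat 229010400, .negSucc 702873479, .ofNat 720805200, .negSucc 257249639, .ofNat 41635680], (.tr (.dx 0 (.tw (.lf 5) (.tr (.lf 13) (.tr (.lf 9) (.lf 6) (.lf 10)) (.lf 17)))) (.lf 14) (.lf 18)), 0, [0, 0, 39, 39, 10, 10, 30, 30], []⟩))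
    (.nd (.lf ⟨[.negSucc 71146079, .ofNat 231601640, .negSucc 238736239, .ofNat 86819720, .negSucc 13959839], (.tr (.lf 14) (.dx 0 (.tw (.lf 13) (.tr (.lf 9) (.lf 17) (.tr (.lf 5) (.lf 10) (.lf 6))))) (.lf 18)), 0, [22, 22, 22, 22, 22, 22, 22, 22], []⟩)
    (.lf ⟨[.ofNat 71146080, .negSucc 232327399, .ofNat 240497360, .negSucc 87905479, .ofNat 14142720], (.tr (.lf 14) (.dx 0 (.tw (.lf 9) (.tr (.lf 13) (.tr (.lf 5) (.lf 10) (.lf 6)) (.lf 17)))) (.lf 18)), 0, [3, 3, 22, 22, 22, 22, 3, 3], []⟩)))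
    (.nd (.nd (.lf ⟨[.negSucc 71146079, .ofNat 231624680, .negSucc 239192719, .ofNat 87189320, .negSucc 14020799], (.tr (.lf 14) (.dx 0 (.tw (.lf 17) (.tr (.lf 9) (.lf 13) (.tr (.lf 5) (.lf 10) (.lf 6))))) (.lf 18)), 0, [3, 3, 3, 3, 3, 3, 3, 3], []⟩)
    (.lf ⟨[.negSucc 24374879, .ofNat 78626280, .negSucc 80276879, .ofNat 29716680, .negSucc 4754879], (.tr (.dx 0 (.tr (.lf 13) (.lf 9) (.tr (.lf 5) (.tw (.lf 10) (.lf 17)) (.lf 6)))) (.lf 14) (.lf 18)), 0, [10, 10, 10, 10, 0, 39, 0, 39], []⟩))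
    (.nd (.lf ⟨[.ofNat 0, .negSucc 1347839, .ofNat 1496640, .negSucc 725759, .ofNat 121920], (.tr (.lf 14) (.dx 0 (.tr (.lf 5) (.tr (.lf 9) (.tw (.lf 6) (.lf 17)) (.lf 10)) (.lf 13))) (.lf 18)), 0, [22, 22, 22, 22, 22, 22, 22, 22], []⟩)
    (.lf ⟨[.negSucc 60374879, .ofNat 198951080, .negSucc 205295599, .ofNat 73330760, .negSucc 11765279], (.tr (.dx 0 (.tw (.lf 5) (.tr (.lf 17) (.lf 6) (.tr (.lf 9) (.lf 13) (.lf 10))))) (.lf 14) (.lf 18)), 0, [0, 0, 0, 0, 39, 39, 20, 20], []⟩))))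

/-- data -/
def dV6x20 : RT := (.nd (.nd (.nd (.lf ⟨[.negSucc 251907839, .ofNat 760726720, .negSucc 775770399, .ofNat 279815680, .negSucc 45415199], (.tr (.dx 0 (.tw (.lf 17) (.tr (.lf 9) (.lf 13) (.tr (.lf 5) (.lf 10) (.lf 6))))) (.lf 14) (.lf 18)), 0, [30, 30, 39, 39, 39, 39, 0, 0], []⟩)
    (.lf ⟨[.negSucc 1735199, .ofNat 5170680, .negSucc 4710719, .ofNat 1727160, .negSucc 274319], (.tr (.dx 0 (.tr (.lf 17) (.lf 5) (.tr (.lf 6) (.lf 13) (.tw (.lf 9) (.lf 10))))) (.lf 18) (.lf 14)), 0, [5, 5, 5, 5, 5, 5, 20, 20], []⟩))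
    (.nd (.lf ⟨[.negSucc 976319, .ofNat 1690320, .negSucc 1187519, .ofNat 355920, .negSucc 60959], (.tr (.dx 0 (.tr (.lf 5) (.lf 13) (.tr (.tw (.lf 9) (.lf 10)) (.lf 6) (.lf 17)))) (.lf 18) (.lf 14)), 0, [5, 5, 5, 5, 20, 20, 5, 5], []⟩)
    (.lf ⟨[.ofNat 2711520, .negSucc 6860999, .ofNat 5898240, .negSucc 2083079, .ofNat 335280], (.tr (.lf 10) (.lf 13) (.tr (.lf 17) (.tw (.dx 0 (.tr (.lf 5) (.lf 6) (.lf 9))) (.lf 14)) (.lf 18))), 0, [6, 6, 6, 6, 6, 6, 6, 6], []⟩)))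
    (.nd (.nd (.lf ⟨[.ofNat 976320, .negSucc 1690319, .ofNat 1187520, .negSucc 355919, .ofNat 60960], (.tr (.dx 0 (.tr (.lf 5) (.lf 9) (.lf 13))) (.tr (.lf 6) (.lf 14) (.tw (.lf 17) (.lf 18))) (.lf 10)), 0, [29, 29, 0, 0, 29, 29, 10, 10], [29, 29, 30, 30]⟩)
    (.lf ⟨[.negSucc 10414079, .ofNat 28888320, .negSucc 28271999, .ofNat 10575360, .negSucc 1706879], (.tr (.dx 0 (.tr (.lf 5) (.tr (.lf 6) (.lf 13) (.tw (.lf 9) (.lf 10))) (.lf 17))) (.lf 18) (.lf 14)), 0, [0, 0, 5, 5, 5, 5, 5, 5], []⟩))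
    (.nd (.lf ⟨[.ofNat 7060320, .negSucc 28542119, .ofNat 30287040, .negSucc 11840999, .ofNat 1920240], (.tr (.dx 0 (.tr (.lf 17) (.lf 18) (.tr (.lf 5) (.lf 9) (.lf 6)))) (.tw (.lf 13) (.lf 14)) (.lf 10)), 0, [7, 7, 7, 7, 7, 7, 7, 7], []⟩)
    (.lf ⟨[.ofNat 2747520, .negSucc 8166239, .ofNat 8095680, .negSucc 3030239, .ofNat 487680], (.tr (.lf 10) (.dx 0 (.tr (.lf 5) (.tr (.lf 6) (.lf 13) (.tw (.lf 17) (.lf 18))) (.lf 9))) (.lf 14)), 0, [23, 23, 23, 23, 12, 12, 12, 12], []⟩))))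

/-- data -/
def dV6x21 : RT := (.nd (.nd (.nd (.lf ⟨[.negSucc 352494719, .ofNat 1135382400, .negSucc 1169325479, .ofNat 427411920, .negSucc 69052439], (.tr (.dx 0 (.tr (.tw (.lf 5) (.lf 6)) (.lf 17) (.lf 9))) (.tr (.lf 10) (.lf 13) (.lf 14)) (.lf 18)), 0, [39, 0, 39, 0, 39, 20, 39, 20], []⟩)
    (.lf ⟨[.ofNat 178564320, .negSucc 578367479, .ofNat 597169860, .negSucc 218437439, .ofNat 35288220], (.tw (.lf 18) (.tr (.dx 0 (.tr (.tw (.lf 5) (.lf 6)) (.lf 17) (.lf 9))) (.tw (.lf 13) (.lf 14)) (.lf 10))), 0, [7, 7, 7, 7, 7, 7, 7, 7, 21, 21, 1, 1, 21, 21, 1, 1], []⟩))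
    (.nd (.lf ⟨[.ofNat 187335360, .negSucc 541150959, .ofNat 548860360, .negSucc 206289279, .ofNat 33634680], (.tr (.lf 10) (.tr (.dx 0 (.tr (.tw (.lf 5) (.lf 6)) (.lf 17) (.lf 9))) (.lf 13) (.lf 14)) (.lf 18)), 0, [39, 39, 12, 12, 6, 6, 6, 6], []⟩)
    (.lf ⟨[.negSucc 38677679, .ofNat 108677460, .negSucc 111052559, .ofNat 41962260, .negSucc 6903719], (.tw (.lf 10) (.tr (.dx 0 (.tr (.tw (.lf 5) (.lf 6)) (.lf 17) (.lf 9))) (.tw (.lf 13) (.lf 14)) (.lf 18))), 0, [39, 39, 39, 39, 12, 12, 12, 12, 21, 21, 1, 1, 21, 21, 1, 1], []⟩)))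
    (.nd (.nd (.lf ⟨[.negSucc 99568799, .ofNat 291011320, .negSucc 295329639, .ofNat 110940040, .negSucc 18059399], (.tr (.lf 18) (.lf 13) (.tr (.lf 10) (.dx 0 (.tr (.tw (.lf 5) (.lf 6)) (.lf 17) (.lf 9))) (.lf 14))), 0, [23, 23, 38, 38, 13, 13, 38, 38], []⟩)
    (.lf ⟨[.ofNat 123353280, .negSucc 397257519, .ofNat 411088840, .negSucc 150064959, .ofNat 24368760], (.tr (.lf 13) (.dx 0 (.tr (.tw (.lf 5) (.lf 6)) (.lf 17) (.lf 9))) (.tr (.lf 10) (.lf 14) (.lf 18))), 0, [39, 7, 39, 7, 22, 22, 22, 22], []⟩))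
    (.nd (.lf ⟨[.ofNat 16145280, .negSucc 39220799, .ofNat 39670200, .negSucc 17988719, .ofNat 3002280], (.tw (.lf 18) (.tr (.lf 13) (.tw (.dx 0 (.tr (.tw (.lf 5) (.lf 6)) (.lf 17) (.lf 9))) (.lf 10)) (.lf 14))), 0, [37, 37, 37, 37, 23, 23, 38, 38, 37, 37, 37, 37, 23, 23, 38, 38], []⟩)
    (.lf ⟨[.ofNat 352494720, .negSucc 1135382399, .ofNat 1169325480, .negSucc 427411919, .ofNat 69052440], (.tr (.lf 14) (.lf 17) (.tr (.lf 10) (.dx 0 (.tr (.lf 9) (.tw (.lf 5) (.lf 6)) (.lf 13))) (.lf 18))), 0, [3, 3, 3, 3, 4, 4, 13, 13], []⟩))))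

/-- data -/
def dV6x22 : RT := (.nd (.nd (.nd (.lf ⟨[.negSucc 192392639, .ofNat 606912000, .negSucc 624332939, .ofNat 231694680, .negSucc 37528499], (.tw (.lf 14) (.tr (.lf 17) (.tw (.dx 0 (.tr (.lf 9) (.tw (.lf 5) (.lf 6)) (.lf 13))) (.lf 10)) (.lf 18))), 0, [15, 15, 4, 4, 3, 3, 3, 3, 15, 15, 4, 4, 3, 3, 3, 3], []⟩)
    (.lf ⟨[.ofNat 477809280, .negSucc 1535551359, .ofNat 1582329400, .negSucc 583448559, .ofNat 94381320], (.tr (.lf 17) (.lf 10) (.tr (.dx 0 (.tr (.lf 9) (.tw (.lf 5) (.lf 6)) (.lf 13))) (.lf 18) (.lf 14))), 0, [5, 5, 14, 14, 11, 11, 14, 14], []⟩))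
    (.nd (.lf ⟨[.negSucc 583981919, .ofNat 1859446120, .negSucc 1915668879, .ofNat 702479560, .negSucc 113751359], (.tr (.dx 0 (.tr (.lf 9) (.tw (.lf 5) (.lf 6)) (.lf 13))) (.lf 17) (.tr (.lf 14) (.lf 10) (.lf 18))), 0, [15, 20, 15, 20, 10, 10, 10, 10], []⟩)
    (.lf ⟨[.negSucc 19347839, .ofNat 49773600, .negSucc 49257599, .ofNat 18420000, .negSucc 3047999], (.tr (.dx 0 (.tr (.lf 9) (.tw (.lf 5) (.lf 6)) (.lf 13))) (.tr (.lf 10) (.lf 17) (.lf 18)) (.lf 14)), 0, [5, 20, 5, 20, 5, 10, 5, 10], []⟩)))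
    (.nd (.nd (.lf ⟨[.ofNat 15920640, .negSucc 13682559, .ofNat 5911360, .negSucc 378879, .ofNat 121920], (.tr (.lf 17) (.lf 10) (.tr (.dx 0 (.tr (.tw (.lf 5) (.lf 9)) (.lf 6) (.lf 13))) (.lf 18) (.lf 14))), 0, [5, 5, 14, 14, 11, 11, 14, 1], []⟩)
    (.lf ⟨[.ofNat 19687680, .negSucc 86865919, .ofNat 93837440, .negSucc 35515519, .ofNat 5730240], (.tr (.lf 6) (.lf 17) (.tr (.dx 0 (.tw (.lf 5) (.lf 9))) (.tr (.lf 13) (.lf 18) (.lf 14)) (.lf 10))), 0, [7, 7, 7, 7, 16, 1, 16, 1], [7, 7, 16, 16]⟩))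
    (.nd (.lf ⟨[.negSucc 70827839, .ofNat 210037040, .negSucc 214738399, .ofNat 78663920, .negSucc 12923519], (.tr (.lf 6) (.tr (.lf 17) (.dx 0 (.tw (.lf 5) (.lf 9))) (.tr (.lf 13) (.lf 18) (.lf 14))) (.lf 10)), 0, [7, 7, 7, 7, 29, 24, 29, 24], [7, 7, 24, 24]⟩)
    (.lf ⟨[.negSucc 233805599, .ofNat 720702200, .negSucc 736780399, .ofNat 264258200, .negSucc 42793919], (.tr (.lf 6) (.lf 13) (.tr (.dx 0 (.tw (.lf 5) (.lf 9))) (.tr (.lf 17) (.lf 14) (.lf 18)) (.lf 10))), 0, [24, 24, 24, 24, 21, 1, 21, 1], [24, 24, 31, 31]⟩))))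

/-- data -/
def dV6x23 : RT := (.nd (.nd (.nd (.lf ⟨[.ofNat 106233120, .negSucc 313632439, .ofNat 311853440, .negSucc 117874039, .ofNat 19232880], (.tw (.dx 0 (.tr (.lf 5) (.lf 17) (.tr (.lf 9) (.lf 6) (.tr (.lf 13) (.lf 10) (.lf 14))))) (.lf 18)), 0, [0, 0, 3, 3, 3, 3, 3, 3], []⟩)
    (.lf ⟨[.ofNat 264908160, .negSucc 793726559, .ofNat 808927440, .negSucc 288572159, .ofNat 46908720], (.tr (.lf 6) (.tr (.lf 13) (.dx 0 (.tw (.lf 5) (.lf 9))) (.tr (.lf 17) (.lf 14) (.lf 18))) (.lf 10)), 0, [24, 24, 24, 24, 7, 7, 7, 7], [24, 24, 7, 7]⟩))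
    (.nd (.lf ⟨[.negSucc 27647999, .ofNat 95020480, .negSucc 98639199, .ofNat 36501760, .negSucc 5913119], (.tr (.dx 0 (.tw (.lf 5) (.lf 9))) (.tr (.lf 17) (.lf 10) (.tr (.lf 13) (.lf 18) (.lf 14))) (.lf 6)), 0, [0, 0, 0, 0, 20, 20, 17, 17], [30, 30, 17, 17]⟩)
    (.lf ⟨[.ofNat 104323680, .negSucc 297030759, .ofNat 294065440, .negSucc 109796199, .ofNat 17708880], (.tw (.dx 0 (.tr (.lf 5) (.lf 17) (.tr (.lf 13) (.lf 6) (.tr (.lf 9) (.lf 14) (.lf 10))))) (.lf 18)), 0, [3, 3, 0, 0, 3, 3, 3, 3], []⟩)))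
    (.nd (.nd (.lf ⟨[.negSucc 976319, .negSucc 2307119, .ofNat 3457440, .negSucc 2336879, .ofNat 365760], (.tr (.lf 10) (.lf 13) (.tr (.dx 0 (.tw (.lf 5) (.lf 9))) (.tr (.lf 17) (.lf 14) (.lf 18)) (.lf 6))), 0, [6, 6, 6, 6, 21, 1, 21, 1], [6, 6, 31, 31]⟩)
    (.lf ⟨[.negSucc 56075039, .ofNat 184687800, .negSucc 195099599, .ofNat 75102360, .negSucc 12313919], (.tw (.dx 0 (.tr (.lf 13) (.lf 9) (.tr (.lf 10) (.lf 17) (.tr (.lf 5) (.lf 14) (.lf 6))))) (.lf 18)), 0, [3, 3, 3, 3, 20, 20, 0, 0], []⟩))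
    (.nd (.lf ⟨[.ofNat 46533600, .negSucc 144520199, .ofNat 148063200, .negSucc 55428359, .ofNat 8991600], (.tr (.lf 10) (.lf 17) (.tr (.dx 0 (.tw (.lf 5) (.lf 9))) (.tr (.lf 13) (.lf 18) (.lf 14)) (.lf 6))), 0, [25, 25, 28, 28, 28, 1, 28, 1], [25, 25, 28, 28]⟩)
    (.lf ⟨[.ofNat 0, .ofNat 5758560, .ofNat 38537880, .negSucc 56729759, .ofNat 24132120, .negSucc 4114799], (.tr (.dx 0 (.lf 13)) (.lf 9) (.tr (.lf 14) (.tr (.lf 5) (.lf 10) (.lf 6)) (.lf 19))), 0, [10, 10, 10, 10], [27, 27, 20, 20]⟩))))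

/-- data -/
def dV6x24 : RT := (.nd (.nd (.nd (.lf ⟨[.ofNat 0, .negSucc 25071839, .ofNat 101055720, .negSucc 108203039, .ofNat 41261160, .negSucc 6736079], (.tr (.dx 0 (.lf 13)) (.tr (.lf 9) (.lf 19) (.tr (.lf 5) (.lf 10) (.lf 6))) (.lf 14)), 0, [10, 10, 10, 10], [20, 20, 0, 0]⟩)
    (.lf ⟨[.ofNat 0, .ofNat 55710720, .negSucc 239972639, .ofNat 267831360, .negSucc 104998559, .ofNat 17312640], (.tr (.lf 14) (.lf 5) (.tr (.dx 0 (.lf 13)) (.tr (.lf 9) (.lf 6) (.lf 10)) (.lf 19))), 0, [18, 18, 11, 11], [15, 15, 18, 18]⟩))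
    (.nd (.lf ⟨[.ofNat 0, .ofNat 49680000, .negSucc 224591999, .ofNat 248880000, .negSucc 96712319, .ofNat 15849600], (.tw (.dx 0 (.tw (.lf 13) (.tr (.lf 5) (.lf 19) (.tr (.lf 9) (.lf 6) (.lf 10))))) (.lf 14)), 0, [10, 10, 10, 10, 23, 23, 23, 23], []⟩)
    (.lf ⟨[.ofNat 0, .negSucc 59541119, .ofNat 255116160, .negSucc 281738879, .ofNat 110161920, .negSucc 18044159], (.tw (.dx 0 (.tw (.lf 5) (.tr (.lf 13) (.tr (.lf 9) (.lf 6) (.lf 10)) (.lf 19)))) (.lf 14)), 0, [0, 0, 23, 23, 10, 10, 30, 30], []⟩)))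
    (.nd (.nd (.lf ⟨[.ofNat 0, .negSucc 55710719, .ofNat 239972640, .negSucc 267831359, .ofNat 104998560, .negSucc 17312639], (.tw (.dx 0 (.tw (.lf 9) (.tr (.lf 13) (.tr (.lf 5) (.lf 10) (.lf 6)) (.lf 19)))) (.lf 14)), 0, [23, 23, 23, 23, 23, 23, 23, 23], []⟩)
    (.lf ⟨[.ofNat 0, .ofNat 31930560, .negSucc 174544079, .ofNat 202467840, .negSucc 80431439, .ofNat 13350240], (.tw (.dx 0 (.tr (.lf 19) (.lf 5) (.tr (.lf 9) (.tw (.lf 6) (.lf 13)) (.lf 10)))) (.lf 14)), 0, [23, 23, 23, 23, 20, 23, 20, 23], []⟩))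
    (.nd (.lf ⟨[.ofNat 0, .negSucc 33382079, .ofNat 142699920, .negSucc 157458239, .ofNat 61516560, .negSucc 10058399], (.tw (.dx 0 (.tr (.lf 9) (.tr (.lf 5) (.tw (.lf 10) (.lf 13)) (.lf 6)) (.lf 19))) (.lf 14)), 0, [20, 20, 20, 20, 23, 23, 23, 23], []⟩)
    (.lf ⟨[.ofNat 0, .ofNat 32276160, .negSucc 142782479, .ofNat 158791680, .negSucc 62167439, .ofNat 10180320], (.tw (.dx 0 (.tw (.lf 19) (.tr (.lf 5) (.lf 13) (.tr (.lf 9) (.lf 6) (.lf 10))))) (.lf 14)), 0, [23, 23, 30, 30, 0, 0, 20, 20], []⟩))))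

/-- data -/
def dV6 : RT := (.nd (.nd (.nd (.nd dV6x0 (.nd dV6x1 dV6x2)) (.nd dV6x3 (.nd dV6x4 dV6x5))) (.nd (.nd dV6x6 (.nd dV6x7 dV6x8)) (.nd dV6x9 (.nd dV6x10 dV6x11)))) (.nd (.nd (.nd dV6x12 (.nd dV6x13 dV6x14)) (.nd dV6x15 (.nd dV6x16 dV6x17))) (.nd (.nd dV6x18 (.nd dV6x19 dV6x20)) (.nd (.nd dV6x21 dV6x22) (.nd dV6x23 dV6x24)))))

/-- data -/
def lV6x0 : List (ℕ × List ℤ) := [(42220, [.ofNat 0, .negSucc 3905279, .ofNat 6761280, .negSucc 4750079, .ofNat 1423680, .negSucc 243839]),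
  (42269, [.ofNat 0, .negSucc 3905279, .ofNat 6761280, .negSucc 4750079, .ofNat 1423680, .negSucc 243839]),
  (340716, [.ofNat 0, .ofNat 0, .ofNat 6474240, .negSucc 8851199, .ofNat 2434560, .negSucc 487679]),
  (341277, [.ofNat 0, .ofNat 1139783040, .negSucc 3375493279, .ofNat 3430725440, .negSucc 1229626399, .ofNat 199948800]),
  (341340, [.ofNat 0, .ofNat 3905280, .ofNat 59372160, .negSucc 215941199, .ofNat 225753600, .negSucc 83985359, .ofNat 13472160]),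
  (342181, [.ofNat 0, .negSucc 186134399, .ofNat 505285920, .negSucc 391494719, .ofNat 15916320, .ofNat 43244160, .negSucc 12923519]),
  (342700, [.ofNat 0, .negSucc 92568959, .ofNat 259479200, .negSucc 269381119, .ofNat 93310880, .negSucc 15727679]),
  (344875, [.ofNat 0, .ofNat 0, .ofNat 6474240, .negSucc 8851199, .ofNat 2434560, .negSucc 487679]),
  (345757, [.ofNat 0, .negSucc 945135359, .ofNat 2804052800, .negSucc 2854982719, .ofNat 1017629120, .negSucc 165445439]),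
  (349420, [.ofNat 0, .ofNat 97176960, .negSucc 385005919, .ofNat 669570320, .negSucc 515145439, .ofNat 177460560, .negSucc 26395679]),
  (21354282, [.ofNat 0, .negSucc 69865919, .ofNat 263159760, .negSucc 282123839, .ofNat 109421520, .negSucc 17861279]),
  (21407580, [.ofNat 0, .ofNat 11517120, .ofNat 77075760, .negSucc 113459519, .ofNat 48264240, .negSucc 8229599]),
  (21415770, [.ofNat 0, .ofNat 60733440, .negSucc 169996799, .ofNat 167894400, .negSucc 62638079, .ofNat 9997440]),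
  (21813090, [.ofNat 0, .negSucc 47560319, .ofNat 130857120, .negSucc 130727039, .ofNat 49134240, .negSucc 7924799]),
  (21911370, [.ofNat 0, .negSucc 12061439, .ofNat 30761280, .negSucc 37902719, .ofNat 16572480, .negSucc 2926079]),
  (21927778, [.ofNat 0, .negSucc 2903039, .negSucc 63688319, .ofNat 90019200, .negSucc 37829759, .ofNat 6583680]),
  (21934946, [.ofNat 0, .negSucc 2211839, .negSucc 165119, .ofNat 2666880, .negSucc 1301759, .ofNat 243840]),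
  (22108365, [.ofNat 0, .negSucc 2211839, .negSucc 165119, .ofNat 2666880, .negSucc 1301759, .ofNat 243840]),
  (22128460, [.ofNat 0, .negSucc 54529919, .ofNat 224667360, .negSucc 245894399, .ofNat 95988960, .negSucc 15727679]),
  (22194381, [.ofNat 0, .negSucc 2903039, .negSucc 63688319, .ofNat 90019200, .negSucc 37829759, .ofNat 6583680]),
  (22198874, [.ofNat 0, .negSucc 47560319, .ofNat 130857120, .negSucc 130727039, .ofNat 49134240, .negSucc 7924799]),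
  (22202187, [.ofNat 0, .negSucc 54529919, .ofNat 224667360, .negSucc 245894399, .ofNat 95988960, .negSucc 15727679]),
  (22337699, [.ofNat 0, .ofNat 111421440, .negSucc 479945279, .ofNat 535662720, .negSucc 209997119, .ofNat 34625280]),
  (22403274, [.ofNat 0, .negSucc 19722239, .ofNat 61048320, .negSucc 65717759, .ofNat 26899200, .negSucc 4389119]),
  (156117355, [.ofNat 57398400, .negSucc 161464799, .ofNat 158998080, .negSucc 60547679, .ofNat 9753600]),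
  (156121940, [.negSucc 5028479, .ofNat 5332320, .negSucc 1242239, .negSucc 381599, .ofNat 121920]),
  (156125867, [.negSucc 9377279, .ofNat 40487040, .negSucc 42896639, .ofNat 17900160, .negSucc 2926079]),
  (156128555, [.negSucc 23584319, .ofNat 54649200, .negSucc 50032319, .ofNat 18199920, .negSucc 2865119]),
  (156129451, [.negSucc 28604159, .ofNat 50844480, .negSucc 41289599, .ofNat 12429120, .negSucc 1950719]),
  (156150115, [.negSucc 28604159, .ofNat 50844480, .negSucc 41289599, .ofNat 12429120, .negSucc 1950719]),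
  (156150563, [.negSucc 9377279, .ofNat 40487040, .negSucc 42896639, .ofNat 17900160, .negSucc 2926079]),
  (156157283, [.negSucc 23584319, .ofNat 54649200, .negSucc 50032319, .ofNat 18199920, .negSucc 2865119]),
  (156162211, [.ofNat 57398400, .negSucc 161464799, .ofNat 158998080, .negSucc 60547679, .ofNat 9753600]),
  (156678356, [.negSucc 5028479, .ofNat 5332320, .negSucc 1242239, .negSucc 381599, .ofNat 121920]),
  (170538853, [.negSucc 14486399, .ofNat 36663840, .negSucc 33267839, .ofNat 14096160, .negSucc 2072639]),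
  (170546917, [.negSucc 22060799, .ofNat 52050240, .negSucc 49247999, .ofNat 19924800, .negSucc 3169919]),
  (170547421, [.negSucc 7574399, .ofNat 15386400, .negSucc 15980159, .ofNat 5828640, .negSucc 1097279]),
  (170744093, [.ofNat 159396480, .negSucc 494380639, .ofNat 527482400, .negSucc 196487839, .ofNat 32613600]),
  (170796908, [.ofNat 18861120, .negSucc 55793519, .ofNat 53495040, .negSucc 20686319, .ofNat 3230880]),
  (170797419, [.ofNat 288167040, .negSucc 876653919, .ofNat 887683360, .negSucc 327183519, .ofNat 52974240]),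
  (170797804, [.ofNat 142292160, .negSucc 460254159, .ofNat 476083360, .negSucc 172788879, .ofNat 27797760]),
  (170797867, [.negSucc 1952639, .negSucc 213599, .ofNat 1038720, .negSucc 578399, .ofNat 121920]),
  (170801836, [.ofNat 0, .negSucc 783359, .ofNat 645120]),
  (170801941, [.ofNat 0, .negSucc 1405439, .ofNat 2609280, .negSucc 1432319, .ofNat 243840]),
  (170805917, [.ofNat 159396480, .negSucc 494380639, .ofNat 527482400, .negSucc 196487839, .ofNat 32613600]),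
  (170809172, [.ofNat 0, .ofNat 253440, .ofNat 1604160, .negSucc 600959, .ofNat 121920]),
  (170809501, [.ofNat 0, .ofNat 2557440, .negSucc 3692159, .ofNat 1109760, .negSucc 243839]),
  (170809515, [.ofNat 1952640, .ofNat 582240, .negSucc 1301759, .ofNat 1949280, .negSucc 365759]),
  (170810068, [.ofNat 18861120, .negSucc 55793519, .ofNat 53495040, .negSucc 20686319, .ofNat 3230880]),
  (170834085, [.ofNat 0, .negSucc 3317759, .ofNat 3922560, .negSucc 1754879, .ofNat 243840]),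
  (170834092, [.ofNat 0, .ofNat 12072960, .negSucc 11500799, .ofNat 4001280, .negSucc 487679]),
  (170837844, [.ofNat 0, .negSucc 2695679, .ofNat 2993280, .negSucc 1451519, .ofNat 243840]),
  (170838684, [.ofNat 6481440, .ofNat 18385480, .negSucc 29128959, .ofNat 9322120, .negSucc 1432559]),
  (170838691, [.ofNat 0, .negSucc 1359359, .ofNat 1466880, .negSucc 215039]),
  (170842275, [.ofNat 288167040, .negSucc 876653919, .ofNat 887683360, .negSucc 327183519, .ofNat 52974240]),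
  (170998501, [.negSucc 1820159, .ofNat 17616000, .negSucc 16360319, .ofNat 5831040, .negSucc 731519]),
  (170998627, [.negSucc 43260479, .ofNat 99866480, .negSucc 96252799, .ofNat 39050480, .negSucc 6766559]),
  (171005669, [.negSucc 441434879, .ofNat 1388571840, .negSucc 1420271999, .ofNat 523611840, .negSucc 84978239]),
  (171031205, [.negSucc 441434879, .ofNat 1388571840, .negSucc 1420271999, .ofNat 523611840, .negSucc 84978239]),
  (171031317, [.negSucc 435098879, .ofNat 1356901440, .negSucc 1386506879, .ofNat 511417920, .negSucc 83027519]),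
  (171035482, [.ofNat 16369920, .negSucc 53739839, .ofNat 45248640, .negSucc 14733119, .ofNat 1950720]),
  (171038373, [.negSucc 48239999, .ofNat 131064480, .negSucc 127459199, .ofNat 44096160, .negSucc 6827519]),
  (171038380, [.ofNat 1952640, .negSucc 10718879, .ofNat 9982080, .negSucc 3315359, .ofNat 365760]),
  (171039507, [.ofNat 14742720, .negSucc 34137039, .ofNat 34495360, .negSucc 10192719, .ofNat 1280160]),
  (171039514, [.ofNat 13628160, .negSucc 58451519, .ofNat 64538880, .negSucc 25492799, .ofNat 4145280]),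
  (171062635, [.ofNat 704989440, .negSucc 2270764799, .ofNat 2338650960, .negSucc 854823839, .ofNat 138104880]),
  (171064147, [.ofNat 689656320, .negSucc 2229320639, .ofNat 2298298320, .negSucc 839733599, .ofNat 135666480]),
  (171091741, [.ofNat 142292160, .negSucc 470806479, .ofNat 487543840, .negSucc 177427599, .ofNat 28529280]),
  (171092189, [.ofNat 441434880, .negSucc 1388571839, .ofNat 1420272000, .negSucc 523611839, .ofNat 84978240]),
  (171095325, [.ofNat 0, .negSucc 4504319, .ofNat 5621760, .negSucc 1823999, .ofNat 243840]),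
  (171095829, [.ofNat 6336000, .negSucc 31670399, .ofNat 33765120, .negSucc 12193919, .ofNat 1950720]),
  (171096221, [.ofNat 0, .negSucc 4504319, .ofNat 5621760, .negSucc 1823999, .ofNat 243840]),
  (171096277, [.ofNat 0, .negSucc 7557119, .ofNat 9158400, .negSucc 3048959, .ofNat 487680]),
  (171096732, [.ofNat 0, .negSucc 12072959, .ofNat 11500800, .negSucc 4001279, .ofNat 487680]),
  (171096739, [.negSucc 93067199, .ofNat 278816400, .negSucc 283833599, .ofNat 105354000, .negSucc 17251679]),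
  (171103907, [.negSucc 43260479, .ofNat 99866480, .negSucc 96252799, .ofNat 39050480, .negSucc 6766559]),
  (171104019, [.ofNat 698904000, .negSucc 2247125199, .ofNat 2316602320, .negSucc 843865839, .ofNat 135971280]),
  (171104026, [.negSucc 395677439, .ofNat 1240313920, .negSucc 1258860639, .ofNat 454378240, .negSucc 72847199]),
  (171259692, [.negSucc 37238399, .ofNat 93379680, .negSucc 96871679, .ofNat 39020640, .negSucc 6461759]),
  (171260140, [.ofNat 7490880, .negSucc 41692079, .ofNat 43286880, .negSucc 18021359, .ofNat 2926080]),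
  (171288931, [.ofNat 0, .negSucc 4377599, .ofNat 4492800, .negSucc 184319]),
  (171296043, [.ofNat 0, .negSucc 2741759, .ofNat 3369600, .negSucc 1582079, .ofNat 243840]),
  (171296421, [.ofNat 77448960, .negSucc 281678399, .ofNat 299072160, .negSucc 111004799, .ofNat 18348960]),
  (171296428, [.ofNat 0, .negSucc 7372799, .ofNat 8640000, .negSucc 3417599, .ofNat 487680]),
  (171297555, [.ofNat 0, .negSucc 4377599, .ofNat 4492800, .negSucc 184319]),
  (171301076, [.ofNat 0, .negSucc 1451519, .ofNat 3522240, .negSucc 2171519, .ofNat 365760]),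
  (171324764, [.negSucc 7490879, .ofNat 39151920, .negSucc 41220959, .ofNat 16475760, .negSucc 2560319]),
  (171325100, [.negSucc 37238399, .ofNat 93379680, .negSucc 96871679, .ofNat 39020640, .negSucc 6461759]),
  (171325597, [.ofNat 0, .negSucc 737279, .ofNat 426240]),
  (171325611, [.ofNat 69599520, .negSucc 198807159, .ofNat 190408480, .negSucc 69464439, .ofNat 11308080]),
  (171326108, [.negSucc 7490879, .ofNat 39151920, .negSucc 41220959, .ofNat 16475760, .negSucc 2560319]),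
  (171328733, [.ofNat 20822400, .negSucc 65569439, .ofNat 62851200, .negSucc 22849439, .ofNat 3535680]),
  (171333346, [.ofNat 22187520, .negSucc 31013759, .ofNat 27728640, .negSucc 10523519, .ofNat 1950720]),
  (171358483, [.ofNat 5495040, .negSucc 16332479, .ofNat 16191360, .negSucc 6060479, .ofNat 975360]),
  (172923235, [.negSucc 51287039, .ofNat 137541120, .negSucc 135732479, .ofNat 51087360, .negSucc 8290559]),
  (173063011, [.ofNat 1088928000, .negSucc 3395771839, .ofNat 3486400160, .negSucc 1286328319, .ofNat 208422240]),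
  (173128300, [.ofNat 7413120, .negSucc 56391839, .ofNat 64604160, .negSucc 26213279, .ofNat 4267200]),
  (173135461, [.ofNat 29825280, .negSucc 45259199, .ofNat 41514240, .negSucc 15549119, .ofNat 2682240]),
  (173185756, [.ofNat 28241280, .negSucc 114168479, .ofNat 121148160, .negSucc 47363999, .ofNat 7680960]),
  (173193827, [.negSucc 260711999, .ofNat 835494000, .negSucc 856595039, .ofNat 311774640, .negSucc 50474879])]

/-- data -/
def lV6x1 : List (ℕ × List ℤ) := [(173200995, [.ofNat 1088928000, .negSucc 3395771839, .ofNat 3486400160, .negSucc 1286328319, .ofNat 208422240]),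
  (173324524, [.ofNat 9725760, .negSucc 30978479, .ofNat 32928000, .negSucc 12360239, .ofNat 2011680]),
  (173328157, [.negSucc 3496319, .negSucc 3500639, .ofNat 5946240, .negSucc 1523039, .ofNat 365760]),
  (173328171, [.ofNat 7413120, .negSucc 54099359, .ofNat 61749120, .negSucc 24623519, .ofNat 4023360]),
  (173328227, [.negSucc 104198399, .ofNat 297795520, .negSucc 298010559, .ofNat 107007040, .negSucc 17190719]),
  (173381917, [.ofNat 9267840, .negSucc 42705119, .ofNat 50028480, .negSucc 18925919, .ofNat 3048000]),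
  (173381931, [.negSucc 172583999, .ofNat 468687600, .negSucc 479874239, .ofNat 181839600, .negSucc 30175199]),
  (173393509, [.ofNat 0, .ofNat 2678400, .negSucc 3342719, .ofNat 1441920, .negSucc 243839]),
  (173393677, [.negSucc 3496319, .negSucc 3500639, .ofNat 5946240, .negSucc 1523039, .ofNat 365760]),
  (173398283, [.negSucc 38695679, .ofNat 99547200, .negSucc 98515199, .ofNat 36840000, .negSucc 6095999]),
  (173414173, [.ofNat 0, .ofNat 2678400, .negSucc 3342719, .ofNat 1441920, .negSucc 243839]),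
  (173426269, [.ofNat 725048640, .negSucc 2304852719, .ofNat 2372663760, .negSucc 869456399, .ofNat 140726160]),
  (174410588, [.negSucc 104198399, .ofNat 297795520, .negSucc 298010559, .ofNat 107007040, .negSucc 17190719]),
  (174414172, [.negSucc 59351039, .ofNat 160554240, .negSucc 156043199, .ofNat 57959040, .negSucc 9387839]),
  (174443180, [.negSucc 6111359, .ofNat 20721120, .negSucc 14043839, .ofNat 6649440, .negSucc 1097279]),
  (174446757, [.ofNat 149472000, .negSucc 528259519, .ofNat 550810880, .negSucc 202677439, .ofNat 32674560]),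
  (174471852, [.ofNat 62205120, .negSucc 146048719, .ofNat 144294080, .negSucc 48627919, .ofNat 8229600]),
  (174471978, [.ofNat 212466240, .negSucc 627264879, .ofNat 623706880, .negSucc 235748079, .ofNat 38465760]),
  (174476010, [.ofNat 201968640, .negSucc 657137279, .ofNat 673238400, .negSucc 240497279, .ofNat 38770560]),
  (174478684, [.negSucc 11583359, .ofNat 18721440, .negSucc 19704959, .ofNat 7781280, .negSucc 1341119]),
  (174479517, [.ofNat 0, .negSucc 1624319, .ofNat 1709760, .negSucc 846719, .ofNat 121920]),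
  (174479531, [.negSucc 8063999, .ofNat 25207680, .negSucc 22678079, .ofNat 8524800, .negSucc 1463039]),
  (174479594, [.ofNat 208647360, .negSucc 591434959, .ofNat 584438720, .negSucc 217998799, .ofNat 35173920]),
  (174504290, [.ofNat 153351360, .negSucc 404020559, .ofNat 390852480, .negSucc 146588879, .ofNat 23591520]),
  (174507293, [.negSucc 101131199, .ofNat 314248080, .negSucc 318804479, .ofNat 119381520, .negSucc 19446239]),
  (174508700, [.negSucc 59860799, .ofNat 171501360, .negSucc 170255519, .ofNat 63966960, .negSucc 10485119]),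
  (174508707, [.ofNat 0, .negSucc 1359359, .ofNat 1992960, .negSucc 1777919, .ofNat 243840]),
  (174508770, [.negSucc 255144959, .ofNat 814139520, .negSucc 849853919, .ofNat 292768320, .negSucc 47122079]),
  (174512340, [.negSucc 308701439, .ofNat 1010928960, .negSucc 1043568959, .ofNat 383520960, .negSucc 62057279]),
  (174639901, [.negSucc 475701119, .ofNat 1436173600, .negSucc 1452424959, .ofNat 512822560, .negSucc 81686399]),
  (174708837, [.negSucc 155583359, .ofNat 541262240, .negSucc 557844799, .ofNat 207295520, .negSucc 33527999]),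
  (174709005, [.ofNat 0, .negSucc 12072959, .ofNat 11500800, .negSucc 4001279, .ofNat 487680]),
  (174725917, [.negSucc 86359679, .ofNat 232659680, .negSucc 235890559, .ofNat 85917920, .negSucc 14264639]),
  (174725980, [.negSucc 20286719, .ofNat 142528320, .negSucc 161754239, .ofNat 52219200, .negSucc 8290559]),
  (174725987, [.negSucc 15405119, .ofNat 44054640, .negSucc 44747519, .ofNat 16984560, .negSucc 2743199]),
  (174733925, [.negSucc 503815679, .ofNat 1521453440, .negSucc 1551540799, .ofNat 559631360, .negSucc 90830399]),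
  (174734156, [.negSucc 20286719, .ofNat 142528320, .negSucc 161754239, .ofNat 52219200, .negSucc 8290559]),
  (174740204, [.ofNat 0, .ofNat 3317760, .negSucc 3922559, .ofNat 1754880, .negSucc 243839]),
  (174740253, [.negSucc 208367999, .ofNat 635642400, .negSucc 647143679, .ofNat 233517600, .negSucc 37551359]),
  (174740267, [.ofNat 0, .negSucc 1866239, .ofNat 2132160, .negSucc 493439, .ofNat 121920]),
  (174740316, [.ofNat 0, .ofNat 2764800, .negSucc 4181759, .ofNat 3440640, .negSucc 487679]),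
  (174740323, [.ofNat 10526400, .negSucc 45381839, .ofNat 47291520, .negSucc 18169679, .ofNat 2865120]),
  (174741100, [.ofNat 0, .negSucc 1451519, .ofNat 1790400, .negSucc 1261439, .ofNat 121920]),
  (174741597, [.ofNat 0, .ofNat 1405440, .negSucc 2609279, .ofNat 1432320, .negSucc 243839]),
  (174742108, [.negSucc 51287039, .ofNat 137541120, .negSucc 135732479, .ofNat 51087360, .negSucc 8290559]),
  (174758187, [.negSucc 4343039, .negSucc 2550719, .ofNat 4295040, .negSucc 3249599, .ofNat 609600]),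
  (174766181, [.negSucc 1820159, .ofNat 6787200, .negSucc 3707519, .ofNat 593280]),
  (174768939, [.negSucc 149471999, .ofNat 531577280, .negSucc 554733439, .ofNat 204432320, .negSucc 32918399]),
  (174768988, [.negSucc 96004799, .ofNat 327363280, .negSucc 344683359, .ofNat 127474960, .negSucc 20726399]),
  (174768995, [.ofNat 414247680, .negSucc 1254865599, .ofNat 1281194560, .negSucc 456043839, .ofNat 73639680]),
  (174769765, [.ofNat 0, .ofNat 3041280, .negSucc 3029279, .ofNat 1312320, .negSucc 182879]),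
  (174770780, [.ofNat 0, .ofNat 3980160, .negSucc 4459679, .ofNat 231360, .negSucc 60959]),
  (174905698, [.ofNat 0, .negSucc 12072959, .ofNat 11500800, .negSucc 4001279, .ofNat 487680]),
  (175020204, [.negSucc 196424639, .ofNat 634106960, .negSucc 660767599, .ofNat 237683120, .negSucc 38618159]),
  (175020330, [.negSucc 1206659519, .ofNat 3818439440, .negSucc 3929852959, .ofNat 1441799120, .negSucc 233598719]),
  (175159980, [.negSucc 15824159, .ofNat 47328120, .negSucc 31727999, .ofNat 12907320, .negSucc 1371599]),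
  (175160162, [.ofNat 246706560, .negSucc 794515039, .ofNat 822177680, .negSucc 300129919, .ofNat 48737520]),
  (175167316, [.ofNat 64061280, .negSucc 145496679, .ofNat 137315200, .negSucc 47425959, .ofNat 7650480]),
  (175168275, [.ofNat 1952640, .negSucc 3380639, .ofNat 2375040, .negSucc 711839, .ofNat 121920]),
  (175184620, [.ofNat 0, .ofNat 783360, .negSucc 645119]),
  (175196779, [.ofNat 0, .negSucc 622079, .ofNat 1964160, .negSucc 1432319, .ofNat 243840]),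
  (175196877, [.ofNat 93067200, .negSucc 289040399, .ofNat 296126400, .negSucc 110856719, .ofNat 17983200]),
  (175199068, [.negSucc 51387839, .ofNat 201416720, .negSucc 219816319, .ofNat 78408080, .negSucc 12862559]),
  (175200076, [.ofNat 64061280, .negSucc 145496679, .ofNat 137315200, .negSucc 47425959, .ofNat 7650480]),
  (175217317, [.negSucc 2937599, .ofNat 38317120, .negSucc 51854559, .ofNat 18419200, .negSucc 2987039]),
  (175221349, [.negSucc 120749759, .ofNat 397902160, .negSucc 410591199, .ofNat 146661520, .negSucc 23530559]),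
  (175231660, [.negSucc 7490879, .ofNat 34319280, .negSucc 34646879, .ofNat 14603760, .negSucc 2438399]),
  (175231786, [.ofNat 88067520, .negSucc 278883599, .ofNat 282979680, .negSucc 105664079, .ofNat 17068800]),
  (175231828, [.negSucc 4426559, .ofNat 37101360, .negSucc 40113119, .ofNat 14313840, .negSucc 2682239]),
  (175232332, [.ofNat 0, .ofNat 12072960, .negSucc 11500799, .ofNat 4001280, .negSucc 487679]),
  (175233109, [.negSucc 142292159, .ofNat 463249360, .negSucc 478385439, .ofNat 174378640, .negSucc 28041599]),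
  (175233802, [.negSucc 363185279, .ofNat 1163187040, .negSucc 1183974879, .ofNat 424487200, .negSucc 68092319]),
  (175250259, [.negSucc 6065279, .negSucc 1260959, .ofNat 9675840, .negSucc 3835679, .ofNat 609600]),
  (175250266, [.negSucc 154710719, .ofNat 434709840, .negSucc 444210239, .ofNat 167849040, .negSucc 27614879]),
  (175264861, [.negSucc 8063999, .ofNat 7582080, .negSucc 2522879, .ofNat 17280, .negSucc 121919]),
  (175282515, [.ofNat 354386880, .negSucc 1086094479, .ofNat 1114086880, .negSucc 392850639, .ofNat 63276480]),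
  (175282844, [.ofNat 10526400, .negSucc 45381839, .ofNat 47291520, .negSucc 18169679, .ofNat 2865120]),
  (175285861, [.ofNat 0, .ofNat 3041280, .negSucc 3029279, .ofNat 1312320, .negSucc 182879]),
  (175286876, [.ofNat 0, .ofNat 2741760, .negSucc 3369599, .ofNat 1582080, .negSucc 243839]),
  (175286988, [.negSucc 62108639, .ofNat 179694280, .negSucc 170110719, .ofNat 61156360, .negSucc 9479279]),
  (175290964, [.ofNat 0, .negSucc 622079, .ofNat 1964160, .negSucc 1432319, .ofNat 243840]),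
  (175293085, [.ofNat 0, .negSucc 4101119, .ofNat 5021760, .negSucc 2025599, .ofNat 365760]),
  (175293099, [.ofNat 0, .ofNat 679680, .negSucc 239039, .ofNat 462720, .negSucc 121919]),
  (175293267, [.ofNat 0, .ofNat 69120, .ofNat 218880, .negSucc 80639]),
  (175293533, [.negSucc 3640319, .ofNat 16972800, .negSucc 14602559, .ofNat 4275840, .negSucc 609599]),
  (175293547, [.negSucc 414247679, .ofNat 1252192960, .negSucc 1277606079, .ofNat 454381120, .negSucc 73395839]),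
  (175293771, [.negSucc 112150079, .ofNat 369375600, .negSucc 390199199, .ofNat 150204720, .negSucc 24627839]),
  (175297236, [.negSucc 308701439, .ofNat 1010928960, .negSucc 1043568959, .ofNat 383520960, .negSucc 62057279]),
  (175297299, [.negSucc 15405119, .ofNat 44054640, .negSucc 44747519, .ofNat 16984560, .negSucc 2743199]),
  (175297740, [.ofNat 314118720, .negSucc 1026512879, .ofNat 1063437600, .negSucc 390701999, .ofNat 63398400]),
  (175297803, [.ofNat 246706560, .negSucc 794515039, .ofNat 822177680, .negSucc 300129919, .ofNat 48737520]),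
  (175298314, [.ofNat 11197440, .negSucc 40627199, .ofNat 44766720, .negSucc 17571839, .ofNat 2926080]),
  (175421605, [.ofNat 186134400, .negSucc 583431839, .ofNat 596971200, .negSucc 223940639, .ofNat 36454080]),
  (175424797, [.ofNat 1952640, .ofNat 582240, .negSucc 1301759, .ofNat 1949280, .negSucc 365759]),
  (175425301, [.negSucc 54822239, .ofNat 169268200, .negSucc 175885119, .ofNat 61461160, .negSucc 9966959]),
  (175425322, [.negSucc 413245439, .ofNat 1324349440, .negSucc 1361060319, .ofNat 498255040, .negSucc 80162399]),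
  (175425875, [.ofNat 1952640, .negSucc 3380639, .ofNat 2375040, .negSucc 711839, .ofNat 121920]),
  (175426260, [.ofNat 0, .negSucc 3133439, .ofNat 3431040, .negSucc 1612799, .ofNat 243840]),
  (175429795, [.ofNat 0, .ofNat 2695680, .negSucc 2456639, .ofNat 842880, .negSucc 121919]),
  (175429844, [.negSucc 59860799, .ofNat 168771120, .negSucc 167107679, .ofNat 63193200, .negSucc 10363199])]

/-- data -/
def lV6x2 : List (ℕ × List ℤ) := [(175454309, [.negSucc 48749759, .ofNat 157252560, .negSucc 160553759, .ofNat 59433360, .negSucc 9509759]),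
  (175457053, [.ofNat 123042240, .negSucc 344737039, .ofNat 340982720, .negSucc 124236559, .ofNat 20055840]),
  (175457067, [.negSucc 3640319, .ofNat 13735680, .negSucc 10176959, .ofNat 3058560, .negSucc 365759]),
  (175458061, [.negSucc 54822239, .ofNat 169268200, .negSucc 175885119, .ofNat 61461160, .negSucc 9966959]),
  (175458411, [.negSucc 8063999, .ofNat 7582080, .negSucc 2522879, .ofNat 17280, .negSucc 121919]),
  (175462492, [.negSucc 27503999, .ofNat 35030560, .negSucc 29308479, .ofNat 9753760, .negSucc 1706879]),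
  (175478949, [.ofNat 0, .negSucc 2856959, .ofNat 3491520, .ofNat 1649280, .ofNat 121920]),
  (175478956, [.negSucc 10393919, .ofNat 19436720, .negSucc 12544639, .ofNat 9266480, .negSucc 1645919]),
  (175489701, [.negSucc 43223039, .ofNat 114954240, .negSucc 114790079, .ofNat 40176000, .negSucc 6461759]),
  (175489834, [.negSucc 1952639, .ofNat 466080, .ofNat 305280, .negSucc 470879, .ofNat 121920]),
  (175489890, [.ofNat 8064000, .negSucc 26901119, .ofNat 24168960, .negSucc 9290879, .ofNat 1584960]),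
  (175491668, [.ofNat 0, .negSucc 622079, .ofNat 1964160, .negSucc 1432319, .ofNat 243840]),
  (175512276, [.ofNat 0, .negSucc 3133439, .ofNat 3431040, .negSucc 1612799, .ofNat 243840]),
  (175515853, [.ofNat 186134400, .negSucc 583431839, .ofNat 596971200, .negSucc 223940639, .ofNat 36454080]),
  (175520340, [.ofNat 0, .ofNat 2741760, .negSucc 3369599, .ofNat 1582080, .negSucc 243839]),
  (175522643, [.ofNat 709643520, .negSucc 2260798079, .ofNat 2327916240, .negSucc 852471839, .ofNat 137982960]),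
  (175526563, [.ofNat 414247680, .negSucc 1250850879, .ofNat 1275700960, .negSucc 453145599, .ofNat 73212960]),
  (175526612, [.ofNat 0, .negSucc 1866239, .ofNat 2132160, .negSucc 493439, .ofNat 121920]),
  (175526626, [.negSucc 63590399, .ofNat 266889600, .negSucc 283202879, .ofNat 99578880, .negSucc 15605759]),
  (175526675, [.ofNat 0, .ofNat 4769280, .negSucc 5712959, .ofNat 3016320, .negSucc 365759]),
  (175527004, [.negSucc 59351039, .ofNat 160554240, .negSucc 156043199, .ofNat 57959040, .negSucc 9387839]),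
  (175544595, [.ofNat 709715520, .negSucc 2263408559, .ofNat 2332311120, .negSucc 854366159, .ofNat 138287760]),
  (175556362, [.ofNat 3634560, .ofNat 10197600, .negSucc 21680639, .ofNat 12555360, .negSucc 2072639]),
  (176532204, [.negSucc 55295999, .ofNat 190040960, .negSucc 197278399, .ofNat 73003520, .negSucc 11826239]),
  (176540499, [.negSucc 196424639, .ofNat 634106960, .negSucc 660767599, .ofNat 237683120, .negSucc 38618159]),
  (176543404, [.negSucc 493925759, .ofNat 1474523680, .negSucc 1492016799, .ofNat 538161760, .negSucc 87355679]),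
  (176543530, [.negSucc 114102719, .ofNat 364761360, .negSucc 383284319, .ofNat 145530960, .negSucc 23896319]),
  (176568989, [.negSucc 62415359, .ofNat 164384640, .negSucc 157821119, .ofNat 58202880, .negSucc 9387839]),
  (176576213, [.ofNat 7413120, .negSucc 54099359, .ofNat 61749120, .negSucc 24623519, .ofNat 4023360]),
  (176601763, [.ofNat 0, .ofNat 6278400, .negSucc 7328639, .ofNat 3121920, .negSucc 487679]),
  (176604829, [.ofNat 527863680, .negSucc 1592067359, .ofNat 1624769760, .negSucc 581818079, .ofNat 94548960]),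
  (176732908, [.ofNat 155583360, .negSucc 541262239, .ofNat 557844800, .negSucc 207295519, .ofNat 33528000]),
  (176790364, [.ofNat 293639040, .negSucc 942915359, .ofNat 972135360, .negSucc 354944159, .ofNat 57546240]),
  (176804588, [.ofNat 0, .negSucc 69119, .negSucc 218879, .ofNat 80640]),
  (176804651, [.ofNat 0, .negSucc 2695679, .ofNat 2892480, .negSucc 654719, .ofNat 121920]),
  (176804700, [.ofNat 6111360, .negSucc 20721119, .ofNat 14043840, .negSucc 6649439, .ofNat 1097280]),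
  (176805477, [.ofNat 0, .ofNat 3536640, .negSucc 3730559, .negSucc 1186559, .negSucc 243839]),
  (176806492, [.ofNat 32927040, .negSucc 107421359, .ofNat 115540320, .negSucc 43169519, .ofNat 7071360]),
  (176861932, [.ofNat 475701120, .negSucc 1440274719, .ofNat 1457446720, .negSucc 514848159, .ofNat 82052160]),
  (176861981, [.negSucc 354386879, .ofNat 1086163600, .negSucc 1113867999, .ofNat 392770000, .negSucc 63276479]),
  (176862989, [.negSucc 47568959, .ofNat 212492400, .negSucc 231518399, .ofNat 78249840, .negSucc 12618719]),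
  (176863843, [.ofNat 0, .ofNat 1175040, .negSucc 897119, .ofNat 818880, .negSucc 60959]),
  (177002835, [.ofNat 94052160, .negSucc 331585839, .ofNat 351818080, .negSucc 130645359, .ofNat 21336000]),
  (177002842, [.ofNat 42497280, .negSucc 122410559, .ofNat 122138880, .negSucc 47641919, .ofNat 7559040]),
  (177027685, [.ofNat 455083200, .negSucc 1367429839, .ofNat 1389755840, .negSucc 496080079, .ofNat 80284320]),
  (177031787, [.ofNat 0, .ofNat 2741760, .negSucc 3369599, .ofNat 1582080, .negSucc 243839]),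
  (177035595, [.ofNat 94052160, .negSucc 331585839, .ofNat 351818080, .negSucc 130645359, .ofNat 21336000]),
  (177085085, [.ofNat 27504000, .negSucc 34143519, .ofNat 26054080, .negSucc 8874399, .ofNat 1463040]),
  (177089131, [.ofNat 0, .ofNat 783360, .negSucc 645119]),
  (177099421, [.ofNat 0, .negSucc 737279, .ofNat 426240]),
  (177099477, [.ofNat 88067520, .negSucc 278883599, .ofNat 282979680, .negSucc 105664079, .ofNat 17068800]),
  (177099610, [.negSucc 77448959, .ofNat 281678400, .negSucc 299072159, .ofNat 111004800, .negSucc 18348959]),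
  (177099883, [.ofNat 62415360, .negSucc 164384639, .ofNat 157821120, .negSucc 58202879, .ofNat 9387840]),
  (177100107, [.negSucc 1952639, .ofNat 10718880, .negSucc 9982079, .ofNat 3315360, .negSucc 365759]),
  (177121387, [.ofNat 0, .ofNat 3041280, .negSucc 3029279, .ofNat 1312320, .negSucc 182879]),
  (177121891, [.negSucc 53749439, .ofNat 169857360, .negSucc 174960479, .ofNat 64406160, .negSucc 10363199]),
  (177124138, [.negSucc 96004799, .ofNat 327363280, .negSucc 344683359, .ofNat 127474960, .negSucc 20726399]),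
  (177128555, [.ofNat 0, .ofNat 2741760, .negSucc 3369599, .ofNat 1582080, .negSucc 243839]),
  (177130074, [.negSucc 291349439, .ofNat 894188560, .negSucc 927833919, .ofNat 323883280, .negSucc 52364639]),
  (177329259, [.ofNat 69177600, .negSucc 183613759, .ofNat 183872000, .negSucc 62688319, .ofNat 10119360]),
  (177379029, [.negSucc 1206659519, .ofNat 3818439440, .negSucc 3929852959, .ofNat 1441799120, .negSucc 233598719]),
  (177518252, [.ofNat 1952640, .negSucc 3380639, .ofNat 2375040, .negSucc 711839, .ofNat 121920]),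
  (177518805, [.ofNat 99069120, .negSucc 348404559, .ofNat 365649280, .negSucc 133239759, .ofNat 21640800]),
  (177522333, [.ofNat 527863680, .negSucc 1579838879, .ofNat 1612116000, .negSucc 577993439, .ofNat 94061280]),
  (177543004, [.negSucc 53749439, .ofNat 169857360, .negSucc 174960479, .ofNat 64406160, .negSucc 10363199]),
  (177550060, [.ofNat 0, .negSucc 679679, .ofNat 1185600, .negSucc 627839, .ofNat 121920]),
  (177551565, [.ofNat 99069120, .negSucc 348404559, .ofNat 365649280, .negSucc 133239759, .ofNat 21640800]),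
  (177575596, [.ofNat 0, .ofNat 2557440, .negSucc 3239999, .ofNat 589440, .negSucc 121919]),
  (177579621, [.ofNat 0, .negSucc 1002239, .ofNat 1401600, .ofNat 111360]),
  (177579789, [.negSucc 413245439, .ofNat 1336577920, .negSucc 1373714079, .ofNat 502079680, .negSucc 80650079]),
  (177587307, [.ofNat 0, .ofNat 2741760, .negSucc 3369599, .ofNat 1582080, .negSucc 243839]),
  (177587797, [.negSucc 155583359, .ofNat 537161120, .negSucc 552343039, .ofNat 205208480, .negSucc 33162239]),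
  (177590947, [.ofNat 0, .ofNat 2741760, .negSucc 3369599, .ofNat 1582080, .negSucc 243839]),
  (177591059, [.ofNat 0, .negSucc 69119, .negSucc 218879, .ofNat 80640]),
  (177608349, [.ofNat 155583360, .negSucc 545294239, .ofNat 563565440, .negSucc 209463199, .ofNat 33893760]),
  (177615517, [.ofNat 0, .negSucc 679679, .ofNat 733440, .negSucc 107519]),
  (177615573, [.negSucc 1820159, .ofNat 13722240, .negSucc 11596799, .ofNat 3361920, .negSucc 487679]),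
  (177615979, [.negSucc 414247679, .ofNat 1252192960, .negSucc 1277606079, .ofNat 454381120, .negSucc 73395839]),
  (177617498, [.ofNat 666668160, .negSucc 1999808479, .ofNat 2029741280, .negSucc 734091679, .ofNat 118689120]),
  (178641059, [.negSucc 48588479, .ofNat 131033680, .negSucc 133350399, .ofNat 46471120, .negSucc 7863839]),
  (178664684, [.ofNat 1952640, .ofNat 3254880, .negSucc 4921919, .ofNat 2895840, .negSucc 487679]),
  (178669213, [.negSucc 56643839, .ofNat 140744640, .negSucc 140371199, .ofNat 51975360, .negSucc 8534399]),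
  (178698515, [.ofNat 9725760, .negSucc 30978479, .ofNat 32928000, .negSucc 12360239, .ofNat 2011680]),
  (178897644, [.ofNat 4281120, .negSucc 56177399, .ofNat 61068480, .negSucc 23551799, .ofNat 3444240]),
  (178897756, [.ofNat 0, .negSucc 910079, .ofNat 606720, .negSucc 107519]),
  (178898533, [.ofNat 21542400, .negSucc 70162559, .ofNat 73046400, .negSucc 28575359, .ofNat 4632960]),
  (178927723, [.negSucc 122569919, .ofNat 400173520, .negSucc 411956319, .ofNat 146302480, .negSucc 23530559]),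
  (179095709, [.ofNat 1952640, .negSucc 3380639, .ofNat 2375040, .negSucc 711839, .ofNat 121920]),
  (179096339, [.ofNat 8064000, .negSucc 26901119, .ofNat 24168960, .negSucc 9290879, .ofNat 1584960]),
  (179124493, [.negSucc 56643839, .ofNat 140744640, .negSucc 140371199, .ofNat 51975360, .negSucc 8534399]),
  (179128077, [.ofNat 184962240, .negSucc 593121359, .ofNat 597652800, .negSucc 226873679, .ofNat 37002720]),
  (179160333, [.negSucc 64581119, .ofNat 156883200, .negSucc 158680799, .ofNat 71954880, .negSucc 12009119]),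
  (179185771, [.ofNat 0, .negSucc 2062079, .ofNat 3402240, .negSucc 990719, .ofNat 243840]),
  (179185995, [.ofNat 52869600, .negSucc 187211079, .ofNat 194418880, .negSucc 70022919, .ofNat 11308080]),
  (179188522, [.ofNat 0, .negSucc 910079, .ofNat 606720, .negSucc 107519]),
  (179189005, [.ofNat 208647360, .negSucc 594061519, .ofNat 588130880, .negSucc 219592399, .ofNat 35417760]),
  (179192477, [.ofNat 69177600, .negSucc 183613759, .ofNat 183872000, .negSucc 62688319, .ofNat 10119360]),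
  (179197524, [.negSucc 48749759, .ofNat 154556880, .negSucc 157560479, .ofNat 57981840, .negSucc 9265919]),
  (179225251, [.negSucc 98084159, .ofNat 287795760, .negSucc 287313599, .ofNat 105587760, .negSucc 17129759]),
  (179226196, [.ofNat 0, .negSucc 7557119, .ofNat 9158400, .negSucc 3048959, .ofNat 487680])]

/-- data -/
def lV6x3 : List (ℕ × List ℤ) := [(179352812, [.ofNat 0, .negSucc 679679, .ofNat 733440, .negSucc 107519]),
  (179414797, [.negSucc 120749759, .ofNat 397902160, .negSucc 410591199, .ofNat 146661520, .negSucc 23530559]),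
  (179421909, [.ofNat 0, .negSucc 7557119, .ofNat 9158400, .negSucc 3048959, .ofNat 487680])]

/-- the sum of the part -/
def lV6 : List (ℕ × List ℤ) := lV6x0 ++ (lV6x1 ++ (lV6x2 ++ (lV6x3)))

theorem okV6 : dV6.all (rok tbF 20) = true := by decide +kernel

theorem sumV6 : aeq (fz (sumT tbF dV6)) lV6 = true := by decide +kernel

end Pool.Agent.H.MP_e16c79_al.IS
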