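import Pool.Agent.H.MP_e16c79_al.IS.BTabE

/-!
# MP_e16c79_al: certificate V, part 7
-/

set_option autoImplicit false

namespace Pool.Agent.H.MP_e16c79_al.IS

/-- data -/
def dV7x0 : RT := (.nd (.nd (.nd (.lf ⟨[.ofNat 928080, .negSucc 362699, .negSucc 557999, .ofNat 737460, .negSucc 137159], (.tw (.dx 0 (.tr (.lf 5) (.tr (.lf 9) (.lf 10) (.tr (.lf 13) (.lf 17) (.lf 14))) (.lf 6))) (.lf 18)), 0, [0, 0, 3, 3, 0, 0, 3, 3], []⟩)
    (.lf ⟨[.negSucc 14837759, .ofNat 40132800, .negSucc 38886959, .ofNat 14596320, .negSucc 2346959], (.tw (.dx 0 (.tr (.lf 5) (.tr (.lf 9) (.lf 17) (.tr (.lf 13) (.lf 10) (.lf 14))) (.lf 6))) (.lf 18)), 0, [0, 0, 3, 3, 0, 0, 3, 3], []⟩))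
    (.nd (.lf ⟨[.negSucc 27580319, .ofNat 74093720, .negSucc 73390159, .ofNat 26008760, .negSucc 4267199], (.tw (.dx 0 (.tr (.lf 9) (.tr (.lf 5) (.lf 6) (.tr (.lf 13) (.lf 17) (.lf 14))) (.lf 10))) (.lf 18)), 0, [20, 20, 3, 3, 20, 20, 3, 3], []⟩)
    (.lf ⟨[.ofNat 4983120, .negSucc 20832299, .ofNat 22684560, .negSucc 8884139, .ofNat 1447800], (.tw (.dx 0 (.tr (.lf 13) (.tr (.lf 9) (.lf 10) (.tr (.lf 5) (.lf 17) (.lf 6))) (.lf 14))) (.lf 18)), 0, [3, 3, 10, 10, 3, 3, 10, 10], []⟩)))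
    (.nd (.nd (.lf ⟨[.ofNat 37942560, .negSucc 112359959, .ofNat 111726960, .negSucc 38023799, .ofNat 5974080], (.tr (.dx 0 (.tr (.lf 5) (.lf 9) (.tr (.lf 17) (.lf 6) (.lf 18)))) (.tw (.lf 13) (.lf 14)) (.lf 10)), 0, [7, 7, 7, 7, 7, 7, 7, 7], []⟩)
    (.lf ⟨[.negSucc 75885119, .ofNat 224719920, .negSucc 223453919, .ofNat 76047600, .negSucc 11948159], (.tr (.dx 0 (.tr (.lf 5) (.lf 9) (.tr (.lf 17) (.lf 6) (.lf 18)))) (.lf 13) (.tw (.lf 10) (.lf 14))), 0, [37, 7, 37, 7, 37, 7, 37, 7], []⟩))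
    (.nd (.lf ⟨[.ofNat 5515200, .negSucc 13738319, .ofNat 13207200, .negSucc 5611919, .ofNat 853440], (.tr (.dx 0 (.tr (.lf 9) (.lf 5) (.tr (.lf 17) (.lf 6) (.lf 18)))) (.tw (.lf 13) (.lf 14)) (.lf 10)), 0, [7, 7, 7, 7, 7, 7, 7, 7], []⟩)
    (.lf ⟨[.negSucc 4776479, .ofNat 19755960, .negSucc 18154079, .ofNat 5806200, .negSucc 822959], (.tr (.lf 10) (.dx 0 (.tr (.lf 17) (.lf 9) (.tr (.lf 5) (.lf 18) (.lf 6)))) (.tw (.lf 13) (.lf 14))), 0, [23, 23, 23, 23, 23, 23, 23, 23], []⟩))))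

/-- data -/
def dV7x1 : RT := (.nd (.nd (.nd (.lf ⟨[.ofNat 0, .ofNat 0, .negSucc 2350079, .ofNat 2826240, .ofNat 1927680], (.tr (.lf 15) (.dx 0 (.tr (.lf 5) (.lf 9) (.tw (.lf 6) (.lf 10)))) (.lf 19)), 0, [3, 3, 3, 3], []⟩)
    (.lf ⟨[.ofNat 0, .negSucc 2211839, .negSucc 165119, .ofNat 2666880, .negSucc 1301759, .ofNat 243840], (.tr (.dx 0 (.tr (.tw (.lf 5) (.lf 13)) (.lf 6) (.lf 14))) (.lf 19) (.tw (.lf 9) (.lf 10))), 0, [29, 29, 29, 29, 29, 29, 29, 29], []⟩))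
    (.nd (.lf ⟨[.ofNat 359595360, .negSucc 1086980199, .ofNat 1103387680, .negSucc 400791399, .ofNat 64648080], (.tr (.lf 13) (.dx 0 (.tr (.tw (.lf 5) (.lf 9)) (.lf 6) (.lf 10))) (.tr (.lf 17) (.lf 14) (.lf 18))), 0, [39, 39, 39, 39, 39, 39, 39, 39], []⟩)
    (.lf ⟨[.negSucc 359595359, .ofNat 1088155240, .negSucc 1104800799, .ofNat 399827560, .negSucc 64648079], (.tr (.lf 17) (.dx 0 (.tr (.tw (.lf 5) (.lf 9)) (.lf 6) (.lf 10))) (.tr (.lf 13) (.lf 18) (.lf 14))), 0, [5, 5, 5, 5, 5, 5, 5, 5], []⟩)))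
    (.nd (.nd (.lf ⟨[.negSucc 162436319, .ofNat 457790600, .negSucc 463777519, .ofNat 170268200, .negSucc 27736799], (.tw (.lf 17) (.tr (.lf 13) (.tw (.dx 0 (.tr (.tw (.lf 5) (.lf 9)) (.lf 6) (.lf 10))) (.lf 18)) (.lf 14))), 0, [5, 5, 5, 5, 38, 38, 38, 38, 5, 5, 5, 5, 38, 38, 38, 38], []⟩)
    (.lf ⟨[.ofNat 119892240, .negSucc 381194779, .ofNat 386768960, .negSucc 144167419, .ofNat 23484840], (.tw (.dx 0 (.tr (.lf 5) (.lf 9) (.tr (.lf 17) (.lf 6) (.tr (.lf 13) (.lf 10) (.lf 14))))) (.lf 18)), 0, [0, 0, 3, 3, 3, 3, 3, 3], []⟩))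
    (.nd (.lf ⟨[.ofNat 359595360, .negSucc 1086876519, .ofNat 1103142880, .negSucc 399625959, .ofNat 64526160], (.tw (.dx 0 (.tr (.lf 5) (.lf 13) (.tr (.lf 17) (.lf 6) (.tr (.lf 9) (.lf 14) (.lf 10))))) (.lf 18)), 0, [0, 0, 3, 3, 3, 3, 3, 3], []⟩)
    (.lf ⟨[.negSucc 75795839, .ofNat 261174560, .negSucc 271096879, .ofNat 99200000, .negSucc 16001999], (.tw (.dx 0 (.tr (.lf 5) (.tr (.lf 13) (.tr (.lf 9) (.lf 6) (.lf 17)) (.lf 14)) (.lf 10))) (.lf 18)), 0, [0, 0, 0, 0, 3, 3, 3, 3], []⟩))))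

/-- data -/
def dV7x2 : RT := (.nd (.nd (.nd (.lf ⟨[.ofNat 49897440, .negSucc 177639559, .ofNat 185493200, .negSucc 66871399, .ofNat 10668000], (.tw (.dx 0 (.tr (.lf 5) (.lf 13) (.tr (.lf 9) (.tr (.lf 6) (.lf 17) (.lf 14)) (.lf 10)))) (.lf 18)), 0, [0, 3, 0, 3, 3, 3, 3, 3], []⟩)
    (.lf ⟨[.negSucc 42125039, .ofNat 103891940, .negSucc 99050239, .ofNat 34894340, .negSucc 5593079], (.tw (.dx 0 (.tr (.lf 13) (.lf 5) (.tr (.lf 17) (.lf 14) (.tr (.lf 9) (.lf 6) (.lf 10))))) (.lf 18)), 0, [10, 10, 3, 3, 30, 30, 20, 20], []⟩))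
    (.nd (.lf ⟨[.ofNat 18619200, .negSucc 52334639, .ofNat 55147200, .negSucc 21528239, .ofNat 3596640], (.tw (.dx 0 (.tr (.lf 17) (.lf 5) (.tr (.lf 6) (.lf 9) (.tr (.lf 13) (.lf 10) (.lf 14))))) (.lf 18)), 0, [3, 3, 3, 3, 3, 3, 3, 3], []⟩)
    (.lf ⟨[.ofNat 221083920, .negSucc 654625819, .ofNat 662884640, .negSucc 234131899, .ofNat 37566600], (.tw (.dx 0 (.tr (.lf 5) (.tr (.lf 6) (.tr (.lf 13) (.lf 9) (.lf 14)) (.lf 10)) (.lf 17))) (.lf 18)), 0, [3, 3, 3, 3, 3, 3, 3, 3], []⟩)))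
    (.nd (.nd (.lf ⟨[.negSucc 155033999, .ofNat 526472700, .negSucc 541973039, .ofNat 194665020, .negSucc 31318199], (.tw (.dx 0 (.tr (.lf 17) (.lf 13) (.tr (.lf 14) (.lf 5) (.tr (.lf 9) (.lf 6) (.lf 10))))) (.lf 18)), 0, [30, 30, 30, 30, 3, 3, 3, 3], []⟩)
    (.lf ⟨[.negSucc 219335759, .ofNat 656376140, .negSucc 665857759, .ofNat 234893420, .negSucc 37749479], (.tw (.dx 0 (.tr (.lf 5) (.lf 6) (.tr (.lf 17) (.lf 9) (.tr (.lf 13) (.lf 10) (.lf 14))))) (.lf 18)), 0, [0, 0, 3, 3, 3, 3, 3, 3], []⟩))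
    (.nd (.lf ⟨[.negSucc 11030399, .ofNat 26025120, .negSucc 24623999, .ofNat 9962400, .negSucc 1584959], (.tw (.dx 0 (.tr (.lf 5) (.lf 6) (.lf 13))) (.tr (.lf 14) (.lf 9) (.tr (.lf 17) (.lf 10) (.lf 18)))), 0, [15, 15, 0, 0, 15, 15, 10, 10], []⟩)
    (.lf ⟨[.ofNat 0, .ofNat 1451520, .negSucc 1790399, .ofNat 1261440, .negSucc 121919], (.tw (.lf 14) (.tr (.dx 0 (.tr (.lf 5) (.lf 6) (.lf 13))) (.tr (.lf 17) (.lf 9) (.lf 18)) (.lf 10))), 0, [29, 29, 29, 29, 11, 1, 11, 1], []⟩))))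

/-- data -/
def dV7x3 : RT := (.nd (.nd (.nd (.lf ⟨[.ofNat 221083920, .negSucc 654625819, .ofNat 662884640, .negSucc 234131899, .ofNat 37566600], (.tw (.dx 0 (.tr (.lf 5) (.tr (.lf 6) (.lf 17) (.tr (.lf 9) (.lf 13) (.lf 10))) (.lf 14))) (.lf 18)), 0, [0, 0, 0, 0, 10, 10, 3, 3], []⟩)
    (.lf ⟨[.ofNat 148470480, .negSucc 503474219, .ofNat 520024560, .negSucc 185745899, .ofNat 30038040], (.tw (.dx 0 (.tr (.lf 9) (.tr (.lf 13) (.lf 14) (.tr (.lf 5) (.lf 10) (.lf 6))) (.lf 17))) (.lf 18)), 0, [3, 3, 3, 3, 30, 30, 3, 3], []⟩))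
    (.nd (.lf ⟨[.ofNat 0, .negSucc 1451519, .ofNat 1790400, .negSucc 1261439, .ofNat 121920], (.tw (.lf 9) (.tr (.lf 13) (.tr (.dx 0 (.tr (.lf 5) (.lf 6) (.lf 17))) (.lf 18) (.lf 10)) (.lf 14))), 0, [6, 6, 6, 6, 6, 6, 6, 6], []⟩)
    (.lf ⟨[.ofNat 0, .ofNat 1451520, .negSucc 1790399, .ofNat 1261440, .negSucc 121919], (.tw (.lf 17) (.tr (.lf 9) (.tr (.lf 14) (.dx 0 (.tr (.lf 5) (.lf 6) (.lf 13))) (.lf 18)) (.lf 10))), 0, [14, 14, 14, 14, 14, 14, 14, 14], []⟩)))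
    (.nd (.nd (.lf ⟨[.negSucc 148470479, .ofNat 504925740, .negSucc 521814959, .ofNat 187007340, .negSucc 30159959], (.tw (.dx 0 (.tr (.lf 9) (.lf 13) (.tr (.lf 14) (.tr (.lf 5) (.lf 10) (.lf 6)) (.lf 17)))) (.lf 18)), 0, [3, 3, 20, 20, 10, 10, 3, 3], []⟩)
    (.lf ⟨[.ofNat 122035680, .negSucc 411320199, .ofNat 424605520, .negSucc 151995879, .ofNat 24505920], (.tw (.dx 0 (.tr (.lf 9) (.tr (.lf 13) (.lf 17) (.tr (.lf 5) (.lf 10) (.lf 6))) (.lf 14))) (.lf 18)), 0, [20, 20, 20, 20, 10, 10, 10, 10], []⟩))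
    (.nd (.lf ⟨[.ofNat 1748160, .ofNat 1750320, .negSucc 2973119, .ofNat 761520, .negSucc 182879], (.tw (.dx 0 (.tr (.lf 5) (.lf 6) (.lf 17))) (.tr (.lf 18) (.lf 9) (.tr (.lf 13) (.lf 10) (.lf 14)))), 0, [37, 37, 0, 0, 37, 37, 15, 15], []⟩)
    (.lf ⟨[.negSucc 197159039, .ofNat 629085920, .negSucc 639365359, .ofNat 229357760, .negSucc 36789359], (.tw (.dx 0 (.tr (.lf 13) (.tr (.lf 14) (.lf 5) (.tr (.lf 9) (.lf 6) (.lf 10))) (.lf 17))) (.lf 18)), 0, [3, 3, 3, 3, 30, 30, 30, 30], []⟩))))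

/-- data -/
def dV7x4 : RT := (.nd (.nd (.nd (.lf ⟨[.ofNat 197838720, .negSucc 624419359, .ofNat 634050800, .negSucc 227486719, .ofNat 36545520], (.tw (.dx 0 (.tr (.lf 17) (.lf 9) (.tr (.lf 13) (.lf 14) (.tr (.lf 5) (.lf 10) (.lf 6))))) (.lf 18)), 0, [3, 3, 30, 30, 3, 3, 3, 3], []⟩)
    (.lf ⟨[.negSucc 11093759, .ofNat 21543360, .negSucc 19614719, .ofNat 7262400, .negSucc 1219199], (.tw (.dx 0 (.tr (.lf 9) (.tr (.lf 5) (.lf 6) (.tr (.lf 13) (.lf 10) (.lf 14))) (.lf 17))) (.lf 18)), 0, [3, 3, 3, 3, 3, 3, 30, 30], []⟩))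
    (.nd (.lf ⟨[.negSucc 55085039, .ofNat 172120260, .negSucc 178364879, .ofNat 64726020, .negSucc 10500359], (.tw (.dx 0 (.tw (.lf 13) (.tr (.lf 17) (.lf 14) (.tr (.lf 5) (.tw (.lf 9) (.lf 10)) (.lf 6))))) (.lf 18)), 0, [3, 3, 3, 3, 3, 3, 3, 3, 30, 30, 30, 30, 0, 0, 0, 0], []⟩)
    (.lf ⟨[.ofNat 121724640, .negSucc 374675399, .ofNat 385729440, .negSucc 140149319, .ofNat 22707600], (.tw (.dx 0 (.tr (.lf 5) (.lf 9) (.tr (.lf 10) (.lf 6) (.tr (.lf 13) (.lf 17) (.lf 14))))) (.lf 18)), 0, [0, 0, 0, 0, 3, 3, 3, 3], []⟩)))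
    (.nd (.nd (.lf ⟨[.negSucc 160449119, .ofNat 514777320, .negSucc 534839279, .ofNat 195651720, .negSucc 31882079], (.tw (.dx 0 (.tr (.lf 5) (.tr (.lf 6) (.tr (.lf 13) (.lf 17) (.lf 14)) (.lf 9)) (.lf 10))) (.lf 18)), 0, [0, 0, 0, 0, 3, 3, 20, 20], []⟩)
    (.lf ⟨[.ofNat 97297200, .negSucc 299217779, .ofNat 307260960, .negSucc 112709459, .ofNat 18333720], (.tw (.dx 0 (.tr (.lf 9) (.tw (.lf 5) (.lf 6)) (.lf 13))) (.tr (.lf 10) (.tw (.lf 17) (.lf 18)) (.lf 14))), 0, [5, 5, 29, 29, 5, 5, 29, 29, 5, 5, 29, 29, 5, 5, 29, 29], []⟩))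
    (.nd (.lf ⟨[.negSucc 9478079, .ofNat 24725520, .negSucc 24628799, .ofNat 9210000, .negSucc 1523999], (.tw (.lf 18) (.tr (.dx 0 (.tr (.tw (.lf 5) (.lf 6)) (.lf 13) (.lf 17))) (.tw (.lf 9) (.lf 10)) (.lf 14))), 0, [37, 37, 37, 37, 2, 2, 2, 2, 38, 38, 1, 1, 38, 38, 1, 1], []⟩)
    (.lf ⟨[.negSucc 161497439, .ofNat 514461480, .negSucc 531047999, .ofNat 194717160, .negSucc 31546799], (.tr (.dx 0 (.tr (.tw (.lf 5) (.lf 6)) (.lf 13) (.lf 17))) (.lf 9) (.tr (.lf 10) (.lf 14) (.lf 18))), 0, [0, 0, 0, 0, 39, 7, 39, 7], []⟩))))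

/-- data -/
def dV7x5 : RT := (.nd (.nd (.nd (.lf ⟨[.ofNat 4937760, .negSucc 746039, .negSucc 1336559, .ofNat 1367400, .negSucc 243839], (.tr (.lf 9) (.lf 14) (.tr (.dx 0 (.tr (.tw (.lf 5) (.lf 6)) (.lf 13) (.lf 17))) (.lf 10) (.lf 18))), 0, [15, 15, 15, 15, 6, 6, 1, 1], []⟩)
    (.lf ⟨[.negSucc 29918879, .ofNat 79585560, .negSucc 77552639, .ofNat 29027160, .negSucc 4663439], (.tr (.lf 18) (.lf 9) (.tr (.dx 0 (.tr (.tw (.lf 5) (.lf 6)) (.lf 13) (.lf 17))) (.lf 14) (.lf 10))), 0, [14, 14, 14, 14, 14, 14, 14, 14], []⟩))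
    (.nd (.lf ⟨[.ofNat 1532160, .negSucc 1915199, .ofNat 888960, .negSucc 121919], (.tr (.lf 9) (.tr (.lf 10) (.dx 0 (.tr (.tw (.lf 5) (.lf 6)) (.lf 13) (.lf 17))) (.lf 14)) (.lf 18)), 0, [12, 12, 12, 12, 15, 15, 15, 15], []⟩)
    (.lf ⟨[.ofNat 14349600, .negSucc 39117719, .ofNat 38109840, .negSucc 14391479, .ofNat 2316480], (.tw (.dx 0 (.tr (.tw (.lf 5) (.lf 6)) (.lf 13) (.lf 17))) (.tr (.lf 9) (.tw (.lf 14) (.lf 18)) (.lf 10))), 0, [0, 0, 0, 0, 0, 0, 0, 0, 30, 7, 30, 7, 30, 7, 30, 7], []⟩)))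
    (.nd (.nd (.lf ⟨[.negSucc 34552079, .ofNat 110269020, .negSucc 115465679, .ofNat 42778140, .negSucc 6995159], (.tw (.lf 18) (.tr (.lf 9) (.tw (.dx 0 (.tr (.tw (.lf 5) (.lf 6)) (.lf 13) (.lf 17))) (.lf 14)) (.lf 10))), 0, [14, 14, 14, 14, 14, 14, 14, 14, 14, 14, 14, 14, 14, 14, 14, 14], []⟩)
    (.lf ⟨[.negSucc 100516319, .ofNat 325835720, .negSucc 334551199, .ofNat 119182280, .negSucc 19171919], (.tw (.lf 9) (.tr (.lf 13) (.tr (.dx 0 (.tr (.lf 5) (.lf 6) (.lf 17))) (.lf 10) (.lf 18)) (.lf 14))), 0, [6, 6, 6, 6, 6, 6, 6, 6], []⟩))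
    (.nd (.lf ⟨[.ofNat 157059360, .negSucc 513256439, .ofNat 531718800, .negSucc 195350999, .ofNat 31699200], (.tr (.lf 13) (.dx 0 (.tr (.lf 5) (.lf 6) (.lf 17))) (.tr (.lf 9) (.tw (.lf 14) (.lf 18)) (.lf 10))), 0, [29, 7, 29, 7, 29, 7, 29, 7], []⟩)
    (.lf ⟨[.negSucc 917279, .negSucc 7953479, .ofNat 13206240, .negSucc 5067719, .ofNat 822960], (.tr (.lf 9) (.lf 18) (.tr (.lf 13) (.tw (.dx 0 (.tr (.lf 5) (.lf 6) (.lf 17))) (.lf 10)) (.lf 14))), 0, [28, 37, 28, 28, 28, 37, 28, 28], []⟩))))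

/-- data -/
def dV7x6 : RT := (.nd (.nd (.nd (.lf ⟨[.ofNat 23904000, .negSucc 98597759, .ofNat 111863760, .negSucc 38856479, .ofNat 6309360], (.tr (.lf 13) (.lf 18) (.tr (.lf 9) (.tw (.dx 0 (.tr (.lf 5) (.lf 6) (.lf 17))) (.lf 14)) (.lf 10))), 0, [7, 7, 4, 13, 7, 7, 4, 13], []⟩)
    (.lf ⟨[.ofNat 145229760, .negSucc 449976399, .ofNat 463622800, .negSucc 165368559, .ofNat 26791920], (.tr (.dx 0 (.tr (.lf 9) (.lf 13) (.tr (.tw (.lf 5) (.lf 6)) (.lf 10) (.lf 17)))) (.lf 14) (.lf 18)), 0, [39, 39, 20, 20, 0, 0, 30, 30], []⟩))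
    (.nd (.lf ⟨[.negSucc 22808159, .ofNat 61240040, .negSucc 69393199, .ofNat 21295880, .negSucc 3474719], (.tr (.dx 0 (.tr (.lf 17) (.lf 9) (.tr (.tw (.lf 5) (.lf 6)) (.lf 13) (.lf 10)))) (.lf 14) (.lf 18)), 0, [30, 30, 30, 30, 0, 0, 39, 39], []⟩)
    (.lf ⟨[.ofNat 150923520, .negSucc 462220159, .ofNat 467754800, .negSucc 171169759, .ofNat 27706320], (.tr (.dx 0 (.tr (.lf 9) (.tr (.tw (.lf 5) (.lf 6)) (.lf 13) (.lf 10)) (.lf 17))) (.lf 14) (.lf 18)), 0, [20, 20, 20, 20, 39, 39, 30, 30], []⟩)))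
    (.nd (.nd (.lf ⟨[.negSucc 5823359, .ofNat 14207520, .negSucc 11107199, .ofNat 4223520, .negSucc 609599], (.tw (.dx 0 (.tr (.lf 5) (.lf 6) (.tr (.lf 9) (.lf 10) (.tr (.lf 13) (.lf 17) (.lf 14))))) (.lf 18)), 0, [0, 0, 0, 0, 20, 20, 3, 3], []⟩)
    (.lf ⟨[.ofNat 0, .negSucc 921599, .ofNat 1610160, .negSucc 443999, .ofNat 91440], (.tw (.dx 0 (.tr (.lf 9) (.lf 10) (.tr (.lf 5) (.lf 6) (.tr (.lf 13) (.lf 17) (.lf 14))))) (.lf 18)), 0, [20, 20, 20, 20, 0, 0, 10, 10], []⟩))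
    (.nd (.lf ⟨[.ofNat 182063520, .negSucc 564936599, .ofNat 577187520, .negSucc 211768919, .ofNat 34290000], (.tr (.dx 0 (.tr (.lf 13) (.lf 17) (.tr (.lf 9) (.tw (.lf 5) (.lf 6)) (.lf 18)))) (.lf 10) (.lf 14)), 0, [37, 37, 37, 37, 37, 37, 37, 37], []⟩)
    (.lf ⟨[.negSucc 35243999, .ofNat 93478920, .negSucc 91119839, .ofNat 34296840, .negSucc 5516879], (.tr (.dx 0 (.tr (.lf 9) (.tr (.tw (.lf 5) (.lf 6)) (.lf 17) (.lf 18)) (.lf 13))) (.lf 10) (.lf 14)), 0, [37, 37, 20, 20, 10, 10, 37, 37], []⟩))))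

/-- data -/
def dV7x7 : RT := (.nd (.nd (.nd (.lf ⟨[.negSucc 146819519, .ofNat 471457680, .negSucc 486067679, .ofNat 177472080, .negSucc 28773119], (.tr (.dx 0 (.tr (.lf 9) (.lf 5) (.tr (.lf 6) (.tw (.lf 17) (.lf 18)) (.lf 13)))) (.lf 10) (.lf 14)), 0, [37, 37, 37, 37, 37, 37, 37, 37], []⟩)
    (.lf ⟨[.ofNat 41067360, .negSucc 107686439, .ofNat 102227040, .negSucc 38520359, .ofNat 6126480], (.tr (.dx 0 (.tr (.lf 13) (.lf 5) (.tr (.lf 6) (.tw (.lf 17) (.lf 18)) (.lf 9)))) (.lf 10) (.lf 14)), 0, [10, 10, 10, 10, 37, 37, 20, 20], []⟩))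
    (.nd (.lf ⟨[.ofNat 917280, .ofNat 7953480, .negSucc 13206239, .ofNat 5067720, .negSucc 822959], (.tr (.dx 0 (.tr (.lf 17) (.lf 9) (.tr (.tw (.lf 5) (.lf 6)) (.lf 18) (.lf 13)))) (.lf 10) (.lf 14)), 0, [37, 37, 30, 30, 0, 0, 10, 10], []⟩)
    (.lf ⟨[.negSucc 301875839, .ofNat 960448640, .negSucc 988534999, .ofNat 365620400, .negSucc 59329319], (.tr (.dx 0 (.tr (.lf 13) (.tr (.tw (.lf 5) (.lf 6)) (.lf 9) (.lf 17)) (.lf 18))) (.lf 10) (.lf 14)), 0, [10, 10, 37, 37, 37, 37, 30, 30], []⟩)))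
    (.nd (.nd (.lf ⟨[.negSucc 301453919, .ofNat 948771080, .negSucc 976391479, .ofNat 355279160, .negSucc 57470039], (.tr (.dx 0 (.tr (.lf 13) (.lf 5) (.tr (.lf 6) (.lf 9) (.tw (.lf 17) (.lf 18))))) (.lf 10) (.lf 14)), 0, [10, 10, 10, 10, 0, 0, 30, 30], []⟩)
    (.lf ⟨[.negSucc 4233599, .ofNat 13787040, .negSucc 11837279, .ofNat 4575840, .negSucc 670559], (.tw (.lf 13) (.tr (.lf 17) (.tr (.dx 0 (.tr (.lf 5) (.lf 6) (.lf 9))) (.lf 14) (.lf 10)) (.lf 18))), 0, [4, 4, 3, 3, 4, 4, 3, 3], []⟩))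
    (.nd (.lf ⟨[.negSucc 7580159, .ofNat 16982880, .negSucc 17836559, .ofNat 6965760, .negSucc 1188719], (.tw (.lf 18) (.tr (.lf 13) (.tw (.dx 0 (.tr (.tw (.lf 5) (.lf 6)) (.lf 9) (.lf 17))) (.lf 10)) (.lf 14))), 0, [37, 37, 37, 37, 38, 38, 38, 38, 37, 37, 37, 37, 38, 38, 38, 38], []⟩)
    (.lf ⟨[.negSucc 10971359, .ofNat 32866440, .negSucc 28480799, .ofNat 10210440, .negSucc 1493519], (.tr (.lf 13) (.dx 0 (.tr (.tw (.lf 5) (.lf 6)) (.lf 9) (.lf 17))) (.tr (.lf 10) (.lf 14) (.lf 18))), 0, [39, 7, 39, 7, 39, 7, 39, 7], []⟩))))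

/-- data -/
def dV7x8 : RT := (.nd (.nd (.nd (.lf ⟨[.ofNat 179690400, .negSucc 562267799, .ofNat 580139280, .negSucc 213676919, .ofNat 34747200], (.tr (.lf 13) (.lf 10) (.tr (.dx 0 (.tr (.tw (.lf 5) (.lf 6)) (.lf 9) (.lf 17))) (.lf 14) (.lf 18))), 0, [36, 36, 36, 36, 31, 31, 1, 1], []⟩)
    (.lf ⟨[.negSucc 9912959, .ofNat 21176160, .negSucc 24325439, .ofNat 9694560, .negSucc 1706879], (.tr (.dx 0 (.tr (.tw (.lf 5) (.lf 6)) (.lf 9) (.lf 17))) (.lf 13) (.tr (.lf 14) (.lf 10) (.lf 18))), 0, [0, 0, 0, 0, 15, 30, 15, 30], []⟩))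
    (.nd (.lf ⟨[.negSucc 425541599, .ofNat 1294501320, .negSucc 1321243199, .ofNat 479003400, .negSucc 77632559], (.tr (.lf 10) (.tr (.dx 0 (.tr (.tw (.lf 5) (.lf 6)) (.lf 9) (.lf 17))) (.lf 18) (.lf 13)) (.lf 14)), 0, [5, 5, 5, 5, 6, 6, 6, 6], []⟩)
    (.lf ⟨[.negSucc 7522559, .ofNat 26059200, .negSucc 27317759, .ofNat 10580160, .negSucc 1706879], (.tr (.lf 13) (.lf 14) (.tr (.lf 10) (.dx 0 (.tr (.tw (.lf 5) (.lf 6)) (.lf 9) (.lf 17))) (.lf 18))), 0, [36, 36, 36, 36, 4, 4, 4, 4], []⟩)))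
    (.nd (.nd (.lf ⟨[.negSucc 48496319, .ofNat 171772880, .negSucc 182601199, .ofNat 61298480, .negSucc 9845039], (.tr (.lf 9) (.tr (.lf 10) (.dx 0 (.tr (.lf 13) (.tw (.lf 5) (.lf 6)) (.lf 17))) (.lf 14)) (.lf 18)), 0, [12, 12, 12, 12, 15, 15, 15, 15], []⟩)
    (.lf ⟨[.negSucc 38139839, .ofNat 113746960, .negSucc 111699519, .ofNat 37417360, .negSucc 5730239], (.tr (.lf 18) (.lf 9) (.tr (.dx 0 (.tr (.lf 13) (.tw (.lf 5) (.lf 6)) (.lf 17))) (.lf 14) (.lf 10))), 0, [14, 14, 14, 14, 14, 14, 14, 14], []⟩))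
    (.nd (.lf ⟨[.ofNat 42824160, .negSucc 109251399, .ofNat 104286400, .negSucc 33852039, .ofNat 5151120], (.tr (.dx 0 (.tr (.lf 13) (.tw (.lf 5) (.lf 6)) (.lf 17))) (.lf 14) (.tr (.lf 9) (.lf 10) (.lf 18))), 0, [15, 29, 15, 29, 15, 29, 15, 29], []⟩)
    (.lf ⟨[.ofNat 203271120, .negSucc 608711979, .ofNat 614130280, .negSucc 218945499, .ofNat 35143440], (.tw (.lf 18) (.tr (.lf 9) (.tw (.dx 0 (.tr (.lf 13) (.tw (.lf 5) (.lf 6)) (.lf 17))) (.lf 14)) (.lf 10))), 0, [14, 14, 14, 14, 14, 14, 13, 13, 14, 14, 14, 14, 14, 14, 13, 13], []⟩))))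

/-- data -/
def dV7x9 : RT := (.nd (.nd (.nd (.lf ⟨[.ofNat 72444960, .negSucc 239007799, .ofNat 250682240, .negSucc 93674359, .ofNat 15392400], (.tr (.lf 9) (.dx 0 (.tr (.lf 13) (.tw (.lf 5) (.lf 6)) (.lf 17))) (.tr (.lf 14) (.lf 10) (.lf 18))), 0, [12, 12, 12, 12, 15, 37, 15, 37], []⟩)
    (.lf ⟨[.negSucc 9994319, .ofNat 38486860, .negSucc 38938119, .ofNat 21429820, .negSucc 3749039], (.tw (.lf 14) (.tr (.lf 9) (.tw (.dx 0 (.tr (.lf 13) (.tw (.lf 5) (.lf 6)) (.lf 17))) (.lf 18)) (.lf 10))), 0, [36, 36, 36, 36, 36, 36, 13, 13, 36, 36, 36, 36, 36, 36, 13, 13], []⟩))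
    (.nd (.lf ⟨[.negSucc 45590399, .ofNat 150872160, .negSucc 160796639, .ofNat 53158560, .negSucc 8534399], (.tw (.lf 10) (.tr (.lf 17) (.tw (.dx 0 (.tr (.tw (.lf 5) (.lf 6)) (.lf 9) (.lf 13))) (.lf 14)) (.lf 18))), 0, [39, 39, 28, 28, 28, 28, 3, 3, 39, 39, 28, 28, 28, 28, 3, 3], []⟩)
    (.lf ⟨[.negSucc 153653759, .ofNat 446361920, .negSucc 449755759, .ofNat 165276320, .negSucc 26730959], (.tr (.lf 17) (.dx 0 (.tr (.tw (.lf 5) (.lf 6)) (.lf 9) (.lf 13))) (.tr (.lf 10) (.lf 18) (.lf 14))), 0, [2, 2, 2, 2, 5, 29, 5, 29], []⟩)))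
    (.nd (.nd (.lf ⟨[.ofNat 220560480, .negSucc 743464359, .ofNat 782233120, .negSucc 291578919, .ofNat 47762160], (.tr (.lf 9) (.tr (.lf 10) (.dx 0 (.tr (.lf 13) (.tw (.lf 5) (.lf 6)) (.lf 17))) (.lf 18)) (.lf 14)), 0, [12, 12, 12, 12, 37, 37, 37, 37], []⟩)
    (.lf ⟨[.negSucc 162993599, .ofNat 538818960, .negSucc 558722159, .ofNat 205603440, .negSucc 33375599], (.tr (.lf 9) (.lf 18) (.tr (.dx 0 (.tr (.lf 13) (.tw (.lf 5) (.lf 6)) (.lf 17))) (.lf 10) (.lf 14))), 0, [37, 37, 37, 37, 28, 28, 11, 11], []⟩))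
    (.nd (.lf ⟨[.negSucc 126573839, .ofNat 409203260, .negSucc 425438719, .ofNat 158000540, .negSucc 25831799], (.tw (.lf 14) (.tr (.tw (.lf 9) (.lf 10)) (.dx 0 (.tr (.lf 13) (.tw (.lf 5) (.lf 6)) (.lf 17))) (.lf 18))), 0, [3, 3, 36, 36, 3, 3, 36, 36, 13, 13, 13, 13, 13, 13, 13, 13], []⟩)
    (.lf ⟨[.ofNat 39489840, .negSucc 150064179, .ofNat 164757400, .negSucc 62839299, .ofNat 10454640], (.tw (.lf 18) (.tr (.dx 0 (.tr (.lf 13) (.tw (.lf 5) (.lf 6)) (.lf 17))) (.tw (.lf 9) (.lf 10)) (.lf 14))), 0, [37, 37, 37, 37, 2, 2, 2, 2, 38, 38, 11, 11, 38, 38, 11, 11], []⟩))))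

/-- data -/
def dV7x10 : RT := (.nd (.nd (.nd (.lf ⟨[.negSucc 92770559, .ofNat 353477120, .negSucc 380514799, .ofNat 144068960, .negSucc 23743919], (.tr (.dx 0 (.tr (.lf 13) (.tw (.lf 5) (.lf 6)) (.lf 17))) (.lf 9) (.tr (.lf 10) (.lf 14) (.lf 18))), 0, [10, 7, 10, 7, 39, 7, 39, 7], []⟩)
    (.lf ⟨[.ofNat 1124640, .negSucc 915959, .negSucc 2079839, .ofNat 1292040, .negSucc 274319], (.tw (.dx 0 (.tr (.lf 13) (.tw (.lf 5) (.lf 6)) (.lf 17))) (.tr (.tw (.lf 9) (.lf 10)) (.lf 14) (.lf 18))), 0, [10, 10, 7, 7, 10, 10, 7, 7, 39, 39, 7, 7, 39, 39, 7, 7], []⟩))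
    (.nd (.lf ⟨[.ofNat 9912960, .negSucc 21176159, .ofNat 24325440, .negSucc 9694559, .ofNat 1706880], (.tr (.dx 0 (.tr (.lf 13) (.tw (.lf 5) (.lf 6)) (.lf 17))) (.lf 18) (.tr (.lf 9) (.lf 10) (.lf 14))), 0, [37, 7, 37, 7, 37, 7, 37, 7], []⟩)
    (.lf ⟨[.negSucc 29717279, .ofNat 64034040, .negSucc 58062479, .ofNat 21356760, .negSucc 3413759], (.tr (.lf 14) (.dx 0 (.tr (.lf 5) (.lf 6) (.tr (.lf 9) (.tw (.lf 13) (.lf 17)) (.lf 10)))) (.lf 18)), 0, [3, 3, 3, 3, 22, 3, 22, 3], []⟩)))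
    (.nd (.nd (.lf ⟨[.ofNat 157701600, .negSucc 494994119, .ofNat 508179840, .negSucc 185610119, .ofNat 30083760], (.tr (.lf 14) (.dx 0 (.tr (.lf 9) (.lf 13) (.tr (.tw (.lf 5) (.lf 6)) (.lf 10) (.lf 17)))) (.lf 18)), 0, [3, 3, 22, 22, 3, 3, 22, 22], []⟩)
    (.lf ⟨[.ofNat 179796960, .negSucc 565476359, .ofNat 580145280, .negSucc 213182279, .ofNat 34594800], (.tr (.lf 14) (.dx 0 (.tr (.lf 9) (.lf 17) (.tr (.tw (.lf 5) (.lf 6)) (.lf 10) (.lf 13)))) (.lf 18)), 0, [22, 22, 3, 3, 3, 3, 22, 22], []⟩))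
    (.nd (.lf ⟨[.ofNat 2995200, .negSucc 8817599, .ofNat 9664320, .negSucc 3671999, .ofNat 609600], (.tr (.lf 14) (.tr (.lf 9) (.tw (.dx 0 (.tr (.lf 5) (.lf 6) (.lf 13))) (.lf 17)) (.lf 10)) (.lf 18)), 0, [15, 15, 15, 15, 15, 15, 15, 15], []⟩)
    (.lf ⟨[.negSucc 12425759, .ofNat 36714360, .negSucc 36411839, .ofNat 14015160, .negSucc 2225039], (.tw (.lf 14) (.tr (.lf 9) (.dx 0 (.tr (.lf 5) (.lf 6) (.lf 13))) (.tr (.lf 17) (.lf 10) (.lf 18)))), 0, [15, 15, 15, 15, 13, 13, 13, 13], []⟩))))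

/-- data -/
def dV7x11 : RT := (.nd (.nd (.nd (.lf ⟨[.negSucc 5780159, .ofNat 7535760, .negSucc 3257759, .ofNat 1112400, .negSucc 182879], (.tr (.lf 14) (.lf 17) (.tr (.lf 9) (.tw (.dx 0 (.tr (.lf 5) (.lf 6) (.lf 13))) (.lf 18)) (.lf 10))), 0, [4, 4, 13, 13, 4, 4, 13, 13], []⟩)
    (.lf ⟨[.negSucc 366834239, .ofNat 1114755920, .negSucc 1136487799, .ofNat 413698880, .negSucc 66888359], (.tr (.lf 9) (.tr (.lf 17) (.tw (.dx 0 (.tr (.lf 5) (.lf 6) (.lf 13))) (.lf 10)) (.lf 18)) (.lf 14)), 0, [5, 5, 28, 28, 5, 5, 28, 28], []⟩))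
    (.nd (.lf ⟨[.ofNat 12425760, .negSucc 36714359, .ofNat 36411840, .negSucc 14015159, .ofNat 2225040], (.tw (.lf 9) (.tr (.dx 0 (.tr (.lf 5) (.lf 6) (.lf 13))) (.tr (.lf 17) (.lf 10) (.lf 18)) (.lf 14))), 0, [12, 12, 12, 12, 6, 1, 6, 1], []⟩)
    (.lf ⟨[.negSucc 220717439, .ofNat 694285920, .negSucc 710135999, .ofNat 261805920, .negSucc 42489119], (.tr (.dx 0 (.tr (.lf 5) (.lf 6) (.lf 13))) (.lf 17) (.tr (.lf 9) (.tw (.lf 14) (.lf 18)) (.lf 10))), 0, [0, 0, 0, 0, 10, 7, 10, 7], []⟩)))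
    (.nd (.nd (.lf ⟨[.ofNat 220717440, .negSucc 694285919, .ofNat 710136000, .negSucc 261805919, .ofNat 42489120], (.tr (.dx 0 (.tr (.lf 5) (.lf 6) (.lf 13))) (.tr (.lf 17) (.tw (.lf 9) (.lf 14)) (.lf 18)) (.lf 10)), 0, [0, 29, 0, 29, 10, 29, 10, 29], []⟩)
    (.lf ⟨[.ofNat 59904000, .negSucc 165463679, .ofNat 164491680, .negSucc 60791999, .ofNat 9997440], (.tw (.dx 0 (.tr (.lf 5) (.lf 6) (.lf 13))) (.tr (.lf 9) (.lf 14) (.tr (.lf 17) (.lf 10) (.lf 18)))), 0, [15, 15, 0, 0, 15, 15, 7, 7], []⟩))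
    (.nd (.lf ⟨[.ofNat 5780160, .negSucc 7535759, .ofNat 3257760, .negSucc 1112399, .ofNat 182880], (.tr (.dx 0 (.tr (.lf 13) (.lf 9) (.tr (.tw (.lf 5) (.lf 6)) (.lf 17) (.lf 10)))) (.lf 14) (.lf 18)), 0, [39, 39, 39, 39, 0, 0, 20, 20], []⟩)
    (.lf ⟨[.negSucc 9669599, .ofNat 43084680, .negSucc 46769279, .ofNat 18515400, .negSucc 3017519], (.tr (.dx 0 (.tr (.lf 5) (.tr (.lf 6) (.lf 17) (.tw (.lf 9) (.lf 10))) (.lf 13))) (.lf 14) (.lf 18)), 0, [0, 0, 0, 0, 10, 10, 39, 39], []⟩))))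

/-- data -/
def dV7x12 : RT := (.nd (.nd (.nd (.lf ⟨[.ofNat 366834240, .negSucc 1114755919, .ofNat 1136487800, .negSucc 413698879, .ofNat 66888360], (.tr (.lf 14) (.dx 0 (.tr (.lf 5) (.tr (.lf 6) (.lf 17) (.tw (.lf 9) (.lf 10))) (.lf 13))) (.lf 18)), 0, [3, 3, 3, 3, 22, 22, 22, 22], []⟩)
    (.lf ⟨[.negSucc 173122559, .ofNat 531209280, .negSucc 543040319, .ofNat 198338880, .negSucc 32186879], (.tr (.lf 14) (.dx 0 (.tr (.lf 13) (.lf 9) (.tr (.tw (.lf 5) (.lf 6)) (.lf 17) (.lf 10)))) (.lf 18)), 0, [22, 22, 22, 22, 3, 3, 22, 22], []⟩))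
    (.nd (.lf ⟨[.negSucc 1532159, .ofNat 9472320, .negSucc 10047359, .ofNat 3170880, .negSucc 487679], (.tr (.lf 14) (.dx 0 (.tr (.lf 5) (.tr (.lf 6) (.tw (.lf 9) (.lf 10)) (.lf 17)) (.lf 13))) (.lf 18)), 0, [3, 3, 3, 3, 22, 22, 22, 22], []⟩)
    (.lf ⟨[.ofNat 1532160, .negSucc 9472319, .ofNat 10047360, .negSucc 3170879, .ofNat 487680], (.tr (.lf 14) (.dx 0 (.tr (.lf 5) (.lf 6) (.tr (.tw (.lf 9) (.lf 10)) (.lf 17) (.lf 13)))) (.lf 18)), 0, [3, 3, 3, 3, 22, 22, 22, 22], []⟩)))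
    (.nd (.nd (.lf ⟨[.ofNat 370114560, .negSucc 1127062879, .ofNat 1147522040, .negSucc 416847439, .ofNat 67315080], (.tr (.lf 14) (.dx 0 (.tr (.lf 5) (.lf 17) (.tr (.tw (.lf 9) (.lf 10)) (.lf 6) (.lf 13)))) (.lf 18)), 0, [3, 3, 3, 3, 3, 3, 22, 22], []⟩)
    (.lf ⟨[.ofNat 34181280, .negSucc 94090199, .ofNat 94417920, .negSucc 35836439, .ofNat 5882640], (.tr (.dx 0 (.tr (.lf 9) (.tw (.lf 5) (.lf 6)) (.lf 13))) (.lf 17) (.tr (.lf 10) (.lf 14) (.lf 18))), 0, [39, 7, 39, 7, 39, 7, 39, 7], []⟩))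
    (.nd (.lf ⟨[.negSucc 766079, .ofNat 957600, .negSucc 444479, .ofNat 60960], (.tw (.dx 0 (.tr (.lf 9) (.tw (.lf 5) (.lf 6)) (.lf 13))) (.tr (.lf 10) (.lf 14) (.tw (.lf 17) (.lf 18)))), 0, [39, 39, 7, 7, 39, 39, 7, 7, 39, 39, 7, 7, 39, 39, 7, 7], []⟩)
    (.lf ⟨[.ofNat 33616080, .negSucc 109831499, .ofNat 115849680, .negSucc 43073099, .ofNat 7056120], (.tw (.dx 0 (.tr (.lf 9) (.tw (.lf 5) (.lf 6)) (.lf 13))) (.tr (.lf 17) (.tw (.lf 10) (.lf 14)) (.lf 18))), 0, [39, 15, 39, 15, 39, 15, 39, 15, 39, 10, 39, 10, 39, 10, 39, 10], []⟩))))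

/-- data -/
def dV7x13 : RT := (.nd (.nd (.nd (.lf ⟨[.negSucc 439218719, .ofNat 1347600920, .negSucc 1378453399, .ofNat 502403720, .negSucc 81305399], (.tr (.lf 14) (.dx 0 (.tr (.lf 9) (.lf 10) (.tr (.lf 5) (.tw (.lf 13) (.lf 17)) (.lf 6)))) (.lf 18)), 0, [3, 22, 3, 22, 3, 3, 3, 3], []⟩)
    (.lf ⟨[.ofNat 516314880, .negSucc 1576009599, .ofNat 1604922880, .negSucc 586917759, .ofNat 94914720], (.tr (.lf 14) (.dx 0 (.tr (.lf 5) (.lf 13) (.tr (.tw (.lf 9) (.lf 10)) (.lf 6) (.lf 17)))) (.lf 18)), 0, [3, 3, 3, 3, 22, 22, 3, 3], []⟩))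
    (.nd (.lf ⟨[.negSucc 500889599, .ofNat 1550230080, .negSucc 1592294879, .ofNat 579340800, .negSucc 93817439], (.tr (.lf 14) (.dx 0 (.tr (.lf 5) (.tr (.lf 6) (.tw (.lf 9) (.lf 10)) (.lf 13)) (.lf 17))) (.lf 18)), 0, [3, 3, 3, 3, 3, 3, 3, 3], []⟩)
    (.lf ⟨[.ofNat 83730240, .negSucc 257078319, .ofNat 271683760, .negSucc 101071119, .ofNat 16733520], (.tr (.lf 10) (.tr (.lf 17) (.tw (.dx 0 (.tr (.lf 5) (.lf 6) (.lf 9))) (.lf 13)) (.lf 18)) (.lf 14)), 0, [5, 5, 5, 5, 5, 5, 5, 5], []⟩)))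
    (.nd (.nd (.lf ⟨[.ofNat 12085920, .negSucc 15062679, .ofNat 1586320, .ofNat 3098120, .negSucc 853439], (.tr (.lf 10) (.lf 17) (.tr (.lf 13) (.tw (.dx 0 (.tr (.lf 5) (.lf 6) (.lf 9))) (.lf 18)) (.lf 14))), 0, [5, 5, 23, 28, 5, 5, 23, 28], []⟩)
    (.lf ⟨[.negSucc 32074559, .ofNat 68022640, .negSucc 53253039, .ofNat 16117840, .negSucc 2285999], (.tw (.lf 13) (.tr (.dx 0 (.tr (.lf 5) (.lf 6) (.lf 9))) (.tr (.lf 17) (.lf 14) (.lf 18)) (.lf 10))), 0, [29, 29, 22, 22, 21, 1, 21, 1], []⟩))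
    (.nd (.lf ⟨[.ofNat 5415840, .ofNat 3455720, .negSucc 18378319, .ofNat 10794440, .negSucc 2133599], (.tw (.dx 0 (.tr (.lf 5) (.lf 6) (.lf 9))) (.tr (.lf 13) (.lf 10) (.tr (.lf 17) (.lf 14) (.lf 18)))), 0, [39, 39, 0, 0, 39, 39, 20, 20], []⟩)
    (.lf ⟨[.negSucc 89146079, .ofNat 253622600, .negSucc 253305439, .ofNat 90276680, .negSucc 14599919], (.tr (.dx 0 (.tr (.lf 5) (.lf 6) (.lf 9))) (.tr (.lf 13) (.tw (.lf 10) (.lf 17)) (.lf 14)) (.lf 18)), 0, [39, 0, 39, 0, 39, 39, 39, 39], []⟩))))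

/-- data -/
def dV7x14 : RT := (.nd (.nd (.nd (.lf ⟨[.ofNat 500889600, .negSucc 1550230079, .ofNat 1592294880, .negSucc 579340799, .ofNat 93817440], (.tr (.lf 14) (.dx 0 (.tr (.lf 5) (.lf 6) (.tr (.tw (.lf 9) (.lf 10)) (.lf 13) (.lf 17)))) (.lf 18)), 0, [3, 3, 3, 3, 22, 22, 3, 3], []⟩)
    (.lf ⟨[.negSucc 156623039, .ofNat 467207120, .negSucc 469979599, .ofNat 170839280, .negSucc 27584399], (.tr (.lf 14) (.dx 0 (.tr (.lf 17) (.lf 5) (.tr (.lf 6) (.lf 13) (.tw (.lf 9) (.lf 10))))) (.lf 18)), 0, [3, 3, 3, 3, 3, 3, 3, 3], []⟩))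
    (.nd (.lf ⟨[.negSucc 76547519, .ofNat 231060880, .negSucc 232730559, .ofNat 82533520, .negSucc 13228319], (.tw (.lf 17) (.tr (.dx 0 (.tr (.lf 5) (.lf 6) (.lf 13))) (.lf 9) (.tr (.lf 10) (.lf 18) (.lf 14)))), 0, [2, 2, 2, 29, 14, 14, 38, 38], []⟩)
    (.lf ⟨[.negSucc 64774079, .ofNat 219098640, .negSucc 226680479, .ofNat 81068880, .negSucc 13045439], (.tr (.lf 17) (.dx 0 (.tr (.lf 5) (.lf 6) (.lf 13))) (.tr (.lf 9) (.tw (.lf 14) (.lf 18)) (.lf 10))), 0, [2, 7, 2, 7, 29, 7, 29, 7], []⟩)))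
    (.nd (.nd (.lf ⟨[.negSucc 123353279, .ofNat 397257520, .negSucc 411088839, .ofNat 150064960, .negSucc 24368759], (.tr (.lf 9) (.lf 14) (.tr (.lf 17) (.tw (.dx 0 (.tr (.lf 5) (.lf 6) (.lf 13))) (.lf 10)) (.lf 18))), 0, [6, 6, 6, 6, 6, 6, 6, 6], []⟩)
    (.lf ⟨[.ofNat 103047840, .negSucc 335550679, .ofNat 344655920, .negSucc 122779639, .ofNat 19751040], (.tw (.lf 9) (.tr (.lf 17) (.tr (.dx 0 (.tr (.lf 5) (.lf 6) (.lf 13))) (.lf 10) (.lf 14)) (.lf 18))), 0, [39, 39, 28, 3, 39, 39, 28, 3], []⟩))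
    (.nd (.lf ⟨[.negSucc 105723359, .ofNat 340279880, .negSucc 348687199, .ofNat 124469960, .negSucc 20025359], (.tr (.lf 17) (.lf 14) (.tr (.lf 9) (.tw (.dx 0 (.tr (.lf 5) (.lf 6) (.lf 13))) (.lf 18)) (.lf 10))), 0, [38, 38, 38, 38, 38, 38, 38, 38], []⟩)
    (.lf ⟨[.negSucc 271483199, .ofNat 902761840, .negSucc 935647359, .ofNat 337838320, .negSucc 54437279], (.tr (.lf 14) (.lf 9) (.tr (.lf 10) (.dx 0 (.tr (.tw (.lf 5) (.lf 6)) (.lf 17) (.lf 13))) (.lf 18))), 0, [36, 36, 36, 36, 13, 13, 13, 13], []⟩))))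

/-- data -/
def dV7x15 : RT := (.nd (.nd (.nd (.lf ⟨[.ofNat 89242560, .negSucc 297748879, .ofNat 307716320, .negSucc 108604879, .ofNat 17434560], (.tr (.lf 9) (.dx 0 (.tr (.tw (.lf 5) (.lf 6)) (.lf 17) (.lf 13))) (.tr (.lf 14) (.lf 10) (.lf 18))), 0, [15, 12, 15, 12, 12, 12, 12, 12], []⟩)
    (.lf ⟨[.ofNat 28699200, .negSucc 80732399, .ofNat 79499040, .negSucc 30273839, .ofNat 4876800], (.tr (.lf 9) (.tr (.dx 0 (.tr (.tw (.lf 5) (.lf 6)) (.lf 17) (.lf 13))) (.lf 14) (.lf 10)) (.lf 18)), 0, [15, 15, 12, 12, 6, 6, 6, 6], []⟩))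
    (.nd (.lf ⟨[.negSucc 273185279, .ofNat 861061280, .negSucc 875761159, .ofNat 322996400, .negSucc 52044599], (.tr (.lf 10) (.tr (.lf 13) (.dx 0 (.tr (.lf 9) (.tw (.lf 5) (.lf 6)) (.lf 17))) (.lf 18)) (.lf 14)), 0, [5, 5, 5, 5, 23, 23, 23, 23], []⟩)
    (.lf ⟨[.ofNat 115215840, .negSucc 385447559, .ofNat 395568720, .negSucc 149833319, .ofNat 24262080], (.tr (.lf 10) (.lf 18) (.tr (.dx 0 (.tr (.lf 9) (.tw (.lf 5) (.lf 6)) (.lf 17))) (.lf 13) (.lf 14))), 0, [23, 23, 23, 23, 28, 28, 21, 21], []⟩)))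
    (.nd (.nd (.lf ⟨[.negSucc 13466879, .ofNat 22780800, .negSucc 25385279, .ofNat 10214400, .negSucc 1828799], (.tr (.lf 10) (.lf 13) (.tr (.dx 0 (.tr (.lf 9) (.tw (.lf 5) (.lf 6)) (.lf 17))) (.lf 18) (.lf 14))), 0, [5, 5, 5, 5, 6, 6, 6, 6], []⟩)
    (.lf ⟨[.ofNat 4956480, .negSucc 10588079, .ofNat 12162720, .negSucc 4847279, .ofNat 853440], (.tw (.dx 0 (.tr (.lf 9) (.tw (.lf 5) (.lf 6)) (.lf 17))) (.tr (.lf 10) (.tw (.lf 13) (.lf 14)) (.lf 18))), 0, [39, 39, 7, 7, 39, 39, 7, 7, 39, 39, 7, 7, 39, 39, 7, 7], []⟩))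
    (.nd (.lf ⟨[.ofNat 327882240, .negSucc 1048763039, .ofNat 1081709400, .negSucc 399003599, .ofNat 64632840], (.tr (.lf 13) (.lf 18) (.tr (.dx 0 (.tr (.lf 9) (.tw (.lf 5) (.lf 6)) (.lf 17))) (.lf 14) (.lf 10))), 0, [4, 4, 4, 4, 4, 4, 21, 21], []⟩)
    (.lf ⟨[.negSucc 31816799, .ofNat 94928920, .negSucc 94886259, .ofNat 35661760, .negSucc 5753099], (.tw (.dx 0 (.tr (.lf 9) (.tw (.lf 5) (.lf 6)) (.lf 17))) (.tr (.lf 13) (.tw (.lf 10) (.lf 18)) (.lf 14))), 0, [20, 20, 20, 20, 20, 20, 20, 20, 5, 37, 5, 37, 5, 37, 5, 37], []⟩))))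

/-- data -/
def dV7x16 : RT := (.nd (.nd (.nd (.lf ⟨[.ofNat 7845120, .negSucc 20053439, .ofNat 22847040, .negSucc 9295679, .ofNat 1584960], (.tr (.lf 13) (.lf 10) (.tr (.dx 0 (.tr (.lf 9) (.tw (.lf 5) (.lf 6)) (.lf 17))) (.lf 14) (.lf 18))), 0, [36, 36, 36, 36, 36, 36, 21, 21], []⟩)
    (.lf ⟨[.negSucc 7872479, .ofNat 26684360, .negSucc 28701199, .ofNat 10163240, .negSucc 1615439], (.tw (.lf 10) (.tr (.lf 13) (.tw (.dx 0 (.tr (.lf 9) (.tw (.lf 5) (.lf 6)) (.lf 17))) (.lf 18)) (.lf 14))), 0, [5, 5, 5, 5, 6, 6, 6, 6, 5, 5, 5, 5, 6, 6, 6, 6], []⟩))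
    (.nd (.lf ⟨[.ofNat 64635120, .negSucc 197440659, .ofNat 200346700, .negSucc 71444619, .ofNat 11452860], (.tw (.lf 10) (.tr (.tw (.lf 13) (.lf 14)) (.dx 0 (.tr (.lf 9) (.tw (.lf 5) (.lf 6)) (.lf 17))) (.lf 18))), 0, [3, 3, 6, 6, 3, 3, 6, 6, 23, 23, 23, 23, 23, 23, 23, 23], []⟩)
    (.lf ⟨[.negSucc 4956479, .ofNat 10588080, .negSucc 12162719, .ofNat 4847280, .negSucc 853439], (.tw (.lf 14) (.tr (.dx 0 (.tr (.tw (.lf 5) (.lf 6)) (.lf 17) (.lf 13))) (.tw (.lf 9) (.lf 10)) (.lf 18))), 0, [15, 15, 15, 15, 22, 22, 22, 22, 11, 11, 1, 1, 11, 11, 1, 1], []⟩)))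
    (.nd (.nd (.lf ⟨[.negSucc 323781119, .ofNat 1050994560, .negSucc 1084745759, .ofNat 398197440, .negSucc 64556639], (.tr (.tw (.dx 0 (.tr (.lf 9) (.lf 13) (.tr (.lf 5) (.lf 6) (.lf 17)))) (.lf 14)) (.lf 18) (.lf 10)), 0, [29, 29, 0, 29, 22, 22, 29, 22], []⟩)
    (.lf ⟨[.ofNat 172401120, .negSucc 527318439, .ofNat 538623400, .negSucc 198072759, .ofNat 32141160], (.tr (.dx 0 (.tr (.lf 13) (.lf 5) (.tr (.lf 6) (.lf 17) (.tw (.lf 9) (.lf 10))))) (.lf 18) (.lf 14)), 0, [10, 10, 5, 5, 5, 5, 20, 20], []⟩))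
    (.nd (.lf ⟨[.ofNat 184916160, .negSucc 610663759, .ofNat 633572480, .negSucc 231367759, .ofNat 37368480], (.tr (.dx 0 (.tr (.lf 9) (.tr (.tw (.lf 5) (.lf 6)) (.lf 17) (.lf 10)) (.lf 13))) (.lf 18) (.lf 14)), 0, [5, 5, 20, 20, 10, 10, 5, 5], []⟩)
    (.lf ⟨[.negSucc 362524319, .ofNat 1152426360, .negSucc 1186331879, .ofNat 434728200, .negSucc 70363079], (.tr (.dx 0 (.tr (.lf 9) (.lf 10) (.tr (.lf 13) (.tw (.lf 5) (.lf 6)) (.lf 17)))) (.lf 18) (.lf 14)), 0, [20, 20, 20, 20, 10, 10, 5, 5], []⟩))))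

/-- data -/
def dV7x17 : RT := (.nd (.nd (.nd (.lf ⟨[.negSucc 2067839, .ofNat 1122720, .negSucc 1478399, .ofNat 398880, .negSucc 121919], (.tw (.dx 0 (.tr (.lf 5) (.lf 6) (.tr (.lf 13) (.lf 14) (.tr (.lf 9) (.lf 17) (.lf 10))))) (.lf 18)), 0, [0, 0, 0, 0, 10, 10, 20, 20], []⟩)
    (.lf ⟨[.negSucc 10414079, .ofNat 28888320, .negSucc 28271999, .ofNat 10575360, .negSucc 1706879], (.tw (.dx 0 (.tr (.lf 5) (.tr (.lf 6) (.tr (.lf 9) (.lf 13) (.lf 14)) (.lf 17)) (.lf 10))) (.lf 18)), 0, [0, 0, 3, 3, 3, 3, 20, 3], []⟩))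
    (.nd (.lf ⟨[.ofNat 242078400, .negSucc 754476559, .ofNat 781706480, .negSucc 276093679, .ofNat 44592240], (.tw (.dx 0 (.tr (.lf 13) (.lf 5) (.tr (.lf 6) (.lf 17) (.tr (.lf 9) (.lf 14) (.lf 10))))) (.lf 18)), 0, [10, 10, 3, 3, 0, 0, 20, 20], []⟩)
    (.lf ⟨[.negSucc 190029599, .ofNat 571540920, .negSucc 583754879, .ofNat 205520760, .negSucc 33009839], (.tw (.lf 14) (.tr (.lf 17) (.tw (.dx 0 (.tr (.lf 5) (.tw (.lf 6) (.lf 9)) (.lf 13))) (.lf 10)) (.lf 18))), 0, [15, 15, 4, 4, 4, 3, 3, 3, 15, 15, 4, 4, 4, 3, 3, 3], []⟩)))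
    (.nd (.nd (.lf ⟨[.ofNat 72858960, .negSucc 238640459, .ofNat 246579960, .negSucc 90231899, .ofNat 14599920], (.tw (.lf 10) (.tr (.lf 17) (.tr (.dx 0 (.tw (.lf 5) (.lf 9))) (.tw (.lf 13) (.lf 14)) (.lf 6)) (.lf 18))), 0, [27, 27, 27, 27, 28, 3, 28, 3, 27, 27, 27, 27, 28, 3, 28, 3], [27, 27, 28, 28, 27, 27, 28, 28]⟩)
    (.lf ⟨[.negSucc 156372479, .ofNat 479263680, .negSucc 490712399, .ofNat 179652960, .negSucc 29169359], (.tw (.dx 0 (.tr (.lf 5) (.tr (.lf 6) (.tr (.lf 9) (.lf 13) (.lf 10)) (.lf 17)) (.lf 14))) (.lf 18)), 0, [0, 0, 0, 0, 3, 3, 3, 3], []⟩))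
    (.nd (.lf ⟨[.ofNat 1451520, .ofNat 3484800, .negSucc 3642239, .ofNat 1787520, .negSucc 243839], (.tw (.dx 0 (.tr (.lf 5) (.lf 6) (.tr (.lf 13) (.lf 17) (.tr (.lf 9) (.lf 14) (.lf 10))))) (.lf 18)), 0, [0, 0, 0, 0, 3, 3, 3, 3], []⟩)
    (.lf ⟨[.negSucc 223066079, .ofNat 659858760, .negSucc 667282559, .ofNat 237382920, .negSucc 38374319], (.tw (.dx 0 (.tr (.lf 5) (.lf 17) (.tr (.lf 13) (.lf 14) (.tr (.lf 9) (.lf 6) (.lf 10))))) (.lf 18)), 0, [3, 3, 0, 0, 10, 10, 3, 3], []⟩))))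

/-- data -/
def dV7x18 : RT := (.nd (.nd (.nd (.lf ⟨[.ofNat 251388000, .negSucc 730231079, .ofNat 737468160, .negSucc 263370599, .ofNat 42641520], (.tw (.dx 0 (.tr (.lf 5) (.tr (.lf 13) (.tr (.lf 9) (.lf 6) (.lf 10)) (.lf 17)) (.lf 14))) (.lf 18)), 0, [0, 0, 0, 0, 10, 10, 3, 3], []⟩)
    (.lf ⟨[.ofNat 4956480, .negSucc 10588079, .ofNat 12162720, .negSucc 4847279, .ofNat 853440], (.tw (.dx 0 (.tr (.lf 9) (.tw (.lf 13) (.tr (.tw (.lf 5) (.lf 6)) (.lf 17) (.lf 14))) (.lf 10))) (.lf 18)), 0, [3, 3, 3, 3, 20, 20, 3, 3, 3, 3, 3, 3, 20, 20, 3, 3], []⟩))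
    (.nd (.lf ⟨[.negSucc 119907359, .ofNat 353282360, .negSucc 364651039, .ofNat 123114680, .negSucc 19781519], (.tw (.dx 0 (.tr (.lf 9) (.lf 17) (.tr (.lf 5) (.lf 6) (.tr (.lf 13) (.lf 10) (.lf 14))))) (.lf 18)), 0, [20, 20, 3, 3, 0, 0, 3, 3], []⟩)
    (.lf ⟨[.ofNat 145674720, .negSucc 451264519, .ofNat 468818720, .negSucc 163466119, .ofNat 26426160], (.tw (.dx 0 (.tr (.lf 5) (.tr (.lf 6) (.tr (.lf 13) (.lf 9) (.lf 14)) (.lf 17)) (.lf 10))) (.lf 18)), 0, [0, 0, 3, 3, 3, 3, 3, 3], []⟩)))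
    (.nd (.nd (.lf ⟨[.ofNat 0, .ofNat 783360, .negSucc 645119], (.tr (.lf 9) (.dx 0 (.tr (.tw (.lf 5) (.lf 13)) (.lf 6) (.lf 17))) (.tr (.lf 14) (.lf 10) (.lf 18))), 0, [15, 12, 12, 12, 15, 37, 15, 37], []⟩)
    (.lf ⟨[.ofNat 100056960, .negSucc 354933279, .ofNat 376138720, .negSucc 125889759, .ofNat 20177760], (.tr (.lf 9) (.tr (.lf 10) (.dx 0 (.tr (.tw (.lf 5) (.lf 13)) (.lf 6) (.lf 17))) (.lf 14)) (.lf 18)), 0, [12, 12, 12, 12, 15, 15, 15, 15], []⟩))
    (.nd (.lf ⟨[.negSucc 8848799, .ofNat 36720600, .negSucc 36924959, .ofNat 15097560, .negSucc 2529839], (.tw (.dx 0 (.tr (.lf 9) (.lf 17) (.tr (.lf 13) (.lf 14) (.tr (.lf 5) (.lf 10) (.lf 6))))) (.lf 18)), 0, [3, 3, 20, 20, 10, 10, 0, 0], []⟩)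
    (.lf ⟨[.ofNat 61621920, .negSucc 198971159, .ofNat 204717720, .negSucc 74672519, .ofNat 12085320], (.tr (.lf 5) (.lf 9) (.tr (.lf 13) (.tr (.lf 6) (.dx 0 .on) (.tr (.lf 17) (.lf 10) (.lf 18))) (.lf 14))), 0, [8, 8, 8, 8, 8, 8, 8, 8], [8, 8, 8, 8, 8, 8, 8, 8]⟩))))

/-- data -/
def dV7x19 : RT := (.nd (.nd (.nd (.lf ⟨[.negSucc 111107519, .ofNat 348951120, .negSucc 357602399, .ofNat 128167440, .negSucc 20604479], (.tw (.dx 0 (.tr (.lf 9) (.tr (.lf 13) (.tr (.lf 5) (.lf 10) (.lf 6)) (.lf 17)) (.lf 14))) (.lf 18)), 0, [3, 3, 20, 20, 10, 10, 10, 10], []⟩)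
    (.lf ⟨[.ofNat 517711680, .negSucc 1596141999, .ofNat 1627730080, .negSucc 587067759, .ofNat 94853760], (.tw (.dx 0 (.tr (.lf 9) (.lf 13) (.tr (.lf 14) (.lf 17) (.tr (.lf 5) (.lf 10) (.lf 6))))) (.lf 18)), 0, [3, 3, 3, 3, 10, 10, 0, 0], []⟩))
    (.nd (.lf ⟨[.negSucc 517711679, .ofNat 1596142000, .negSucc 1627730079, .ofNat 587067760, .negSucc 94853759], (.tr (.lf 10) (.tr (.lf 13) (.dx 0 (.tr (.tw (.lf 5) (.lf 6)) (.lf 9) (.lf 17))) (.lf 18)) (.lf 14)), 0, [5, 5, 5, 5, 23, 23, 23, 23], []⟩)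
    (.lf ⟨[.negSucc 23846399, .ofNat 46516160, .negSucc 42590239, .ofNat 15330560, .negSucc 2499359], (.tw (.dx 0 (.tr (.lf 13) (.lf 17) (.tr (.lf 5) (.lf 14) (.tr (.lf 9) (.lf 6) (.lf 10))))) (.lf 18)), 0, [10, 10, 3, 3, 0, 0, 20, 20], []⟩)))
    (.nd (.nd (.lf ⟨[.negSucc 406604159, .ofNat 1247190880, .negSucc 1270127679, .ofNat 458900320, .negSucc 74249279], (.tw (.dx 0 (.tr (.lf 13) (.lf 17) (.tr (.lf 9) (.lf 14) (.tr (.lf 5) (.lf 10) (.lf 6))))) (.lf 18)), 0, [3, 3, 10, 10, 3, 3, 0, 0], []⟩)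
    (.lf ⟨[.ofNat 166836960, .negSucc 498197479, .ofNat 505679240, .negSucc 183145399, .ofNat 29519880], (.tr (.dx 0 (.tr (.lf 5) (.tr (.lf 6) (.tw (.lf 17) (.lf 18)) (.lf 9)) (.lf 13))) (.lf 10) (.lf 14)), 0, [0, 0, 0, 0, 10, 10, 37, 37], []⟩))
    (.nd (.lf ⟨[.negSucc 166836959, .ofNat 498197480, .negSucc 505679239, .ofNat 183145400, .negSucc 29519879], (.tr (.dx 0 (.tr (.lf 5) (.lf 6) (.tr (.lf 13) (.lf 9) (.tw (.lf 17) (.lf 18))))) (.lf 10) (.lf 14)), 0, [0, 0, 0, 0, 37, 37, 30, 30], []⟩)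
    (.lf ⟨[.ofNat 20397600, .negSucc 53964279, .ofNat 51547120, .negSucc 20526999, .ofNat 3474720], (.tr (.dx 0 (.tw (.lf 13) (.tr (.lf 5) (.lf 9) (.tr (.lf 17) (.lf 6) (.lf 18))))) (.lf 10) (.lf 14)), 0, [10, 10, 37, 37, 0, 0, 37, 37], []⟩))))

/-- data -/
def dV7x20 : RT := (.nd (.nd (.nd (.lf ⟨[.negSucc 247939199, .ofNat 736388960, .negSucc 744927439, .ofNat 268624640, .negSucc 43616879], (.tr (.dx 0 (.tr (.lf 13) (.tr (.lf 5) (.tw (.lf 9) (.lf 17)) (.lf 6)) (.lf 18))) (.lf 10) (.lf 14)), 0, [10, 10, 10, 10, 37, 37, 37, 37], []⟩)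
    (.lf ⟨[.ofNat 246962880, .negSucc 737964559, .ofNat 747313040, .negSucc 269797039, .ofNat 43799760], (.tr (.dx 0 (.tr (.lf 13) (.lf 5) (.tr (.lf 17) (.tw (.lf 6) (.lf 9)) (.lf 18)))) (.lf 10) (.lf 14)), 0, [10, 10, 10, 10, 37, 37, 37, 37], []⟩))
    (.nd (.lf ⟨[.negSucc 6645599, .ofNat 38591720, .negSucc 39349519, .ofNat 16377800, .negSucc 2743199], (.tr (.dx 0 (.tw (.lf 5) (.tr (.lf 9) (.tr (.lf 17) (.lf 6) (.lf 18)) (.lf 13)))) (.lf 10) (.lf 14)), 0, [0, 0, 37, 37, 20, 20, 37, 37], []⟩)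
    (.lf ⟨[.ofNat 0, .negSucc 933119, .ofNat 1066080, .negSucc 246719, .ofNat 60960], (.tr (.dx 0 (.tr (.lf 9) (.lf 17) (.tr (.lf 5) (.tw (.lf 13) (.lf 18)) (.lf 6)))) (.lf 10) (.lf 14)), 0, [20, 20, 20, 20, 37, 37, 37, 37], []⟩)))
    (.nd (.nd (.lf ⟨[.ofNat 77791680, .negSucc 269283279, .ofNat 277476160, .negSucc 103320399, .ofNat 16703040], (.tr (.dx 0 (.tw (.lf 9) (.tr (.lf 5) (.lf 13) (.tr (.lf 17) (.lf 6) (.lf 18))))) (.lf 10) (.lf 14)), 0, [20, 20, 20, 20, 37, 37, 37, 37], []⟩)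
    (.lf ⟨[.ofNat 0, .ofNat 34560, .ofNat 109440, .negSucc 40319], (.tr (.dx 0 (.tr (.lf 9) (.tr (.lf 5) (.tw (.lf 13) (.lf 17)) (.lf 6)) (.lf 18))) (.lf 10) (.lf 14)), 0, [20, 20, 20, 20, 37, 37, 37, 37], []⟩))
    (.nd (.lf ⟨[.ofNat 0, .ofNat 668160, .negSucc 1414079, .ofNat 756480, .negSucc 121919], (.tr (.lf 14) (.dx 0 (.tr (.lf 17) (.lf 5) (.tr (.lf 9) (.tw (.lf 6) (.lf 13)) (.lf 10)))) (.lf 18)), 0, [3, 3, 3, 3, 3, 3, 3, 3], []⟩)
    (.lf ⟨[.ofNat 0, .negSucc 702719, .ofNat 1304640, .negSucc 716159, .ofNat 121920], (.tr (.lf 14) (.dx 0 (.tr (.lf 9) (.tr (.lf 5) (.tw (.lf 10) (.lf 13)) (.lf 6)) (.lf 17))) (.lf 18)), 0, [3, 3, 3, 3, 3, 3, 3, 3], []⟩))))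

/-- data -/
def dV7x21 : RT := (.nd (.nd (.nd (.lf ⟨[.ofNat 0, .ofNat 702720, .negSucc 1304639, .ofNat 716160, .negSucc 121919], (.tr (.dx 0 (.tw (.lf 17) (.tr (.lf 9) (.tr (.lf 5) (.lf 18) (.lf 6)) (.lf 13)))) (.lf 10) (.lf 14)), 0, [37, 37, 30, 30, 20, 20, 10, 10], []⟩)
    (.lf ⟨[.ofNat 14067360, .negSucc 48167799, .ofNat 49195480, .negSucc 13727079, .ofNat 2118360], (.tr (.lf 10) (.dx 0 (.tr (.lf 5) (.lf 6) (.tr (.lf 17) (.tw (.lf 9) (.lf 13)) (.lf 18)))) (.lf 14)), 0, [23, 23, 23, 23, 12, 12, 12, 12], []⟩))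
    (.nd (.lf ⟨[.ofNat 283201920, .negSucc 855046559, .ofNat 872932320, .negSucc 327673439, .ofNat 53340000], (.tr (.tw (.dx 0 (.tr (.lf 17) (.lf 13) (.tr (.lf 5) (.lf 6) (.lf 9)))) (.lf 14)) (.lf 10) (.lf 18)), 0, [30, 30, 0, 15, 15, 15, 15, 15], []⟩)
    (.lf ⟨[.negSucc 350789759, .ofNat 1123929600, .negSucc 1159353959, .ofNat 424785360, .negSucc 68686679], (.tr (.lf 10) (.dx 0 (.tr (.lf 5) (.lf 13) (.tr (.lf 9) (.lf 6) (.tw (.lf 17) (.lf 18))))) (.lf 14)), 0, [12, 12, 23, 23, 12, 12, 23, 23], []⟩)))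
    (.nd (.nd (.lf ⟨[.negSucc 13268879, .ofNat 29661820, .negSucc 28627599, .ofNat 10817020, .negSucc 1752599], (.tr (.lf 5) (.lf 9) (.tr (.lf 13) (.tr (.dx 0 .on) (.tr (.lf 17) (.lf 10) (.lf 18)) (.lf 6)) (.lf 14))), 0, [19, 19, 23, 23, 19, 19, 23, 23], [19, 19, 8, 8, 19, 19, 8, 8]⟩)
    (.lf ⟨[.ofNat 13520160, .negSucc 21715639, .ofNat 19761440, .negSucc 7067959, .ofNat 1188720], (.tr (.lf 10) (.lf 17) (.tr (.dx 0 (.tw (.lf 5) (.lf 9))) (.tr (.lf 13) (.lf 6) (.lf 14)) (.lf 18))), 0, [39, 39, 39, 39, 28, 28, 28, 28], [39, 39, 28, 28]⟩))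
    (.nd (.lf ⟨[.ofNat 0, .ofNat 7329600, .negSucc 9472559, .ofNat 4594560, .negSucc 1026479, .ofNat 60960], (.tr (.dx 0 (.lf 9)) (.lf 5) (.tr (.lf 6) (.tr (.lf 13) (.lf 10) (.lf 14)) (.lf 19))), 0, [20, 20, 20, 20], [0, 0, 25, 25]⟩)
    (.lf ⟨[.ofNat 0, .negSucc 7721279, .ofNat 9795120, .negSucc 4594559, .ofNat 1026480, .negSucc 60959], (.tr (.lf 9) (.dx 0 (.lf 5)) (.tr (.lf 19) (.lf 10) (.tr (.lf 13) (.lf 6) (.lf 14)))), 0, [19, 19, 12, 12], [19, 19, 12, 12]⟩))))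

/-- data -/
def dV7x22 : RT := (.nd (.nd (.nd (.lf ⟨[.ofNat 0, .ofNat 7721280, .negSucc 9795119, .ofNat 4594560, .negSucc 1026479, .ofNat 60960], (.tw (.dx 0 (.tw (.lf 9) (.tr (.lf 13) (.lf 10) (.tr (.lf 5) (.lf 14) (.lf 6))))) (.lf 19)), 0, [3, 3, 20, 20, 3, 3, 0, 0], []⟩)
    (.lf ⟨[.ofNat 0, .ofNat 3500640, .ofNat 42958200, .negSucc 61901279, .ofNat 26079480, .negSucc 4602479], (.tw (.dx 0 (.tw (.lf 5) (.tr (.lf 9) (.lf 19) (.tr (.lf 13) (.lf 6) (.lf 14))))) (.lf 10)), 0, [13, 13, 13, 13, 20, 20, 10, 10], []⟩))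
    (.nd (.lf ⟨[.ofNat 0, .negSucc 3500639, .negSucc 42958199, .ofNat 61901280, .negSucc 26079479, .ofNat 4602480], (.tr (.lf 6) (.lf 13) (.tr (.dx 0 (.lf 5)) (.lf 19) (.tr (.lf 9) (.lf 14) (.lf 10)))), 0, [7, 7, 1, 1], [7, 7, 24, 24]⟩)
    (.lf ⟨[.ofNat 0, .ofNat 34560, .ofNat 109440, .negSucc 40319], (.tr (.lf 6) (.lf 13) (.tr (.dx 0 (.tw (.lf 5) (.lf 17))) (.lf 18) (.tr (.lf 9) (.lf 14) (.lf 10)))), 0, [7, 7, 7, 7, 24, 24, 24, 24], [7, 7, 24, 24]⟩)))
    (.nd (.nd (.lf ⟨[.ofNat 0, .negSucc 10622879, .negSucc 33979079, .ofNat 57943200, .negSucc 25460039, .ofNat 4663440], (.tw (.dx 0 (.tw (.lf 19) (.tr (.lf 5) (.tr (.lf 13) (.lf 9) (.lf 14)) (.lf 10)))) (.lf 6)), 0, [30, 30, 33, 33, 33, 33, 33, 33], []⟩)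
    (.lf ⟨[.ofNat 0, .ofNat 10622880, .ofNat 33979080, .negSucc 57943199, .ofNat 25460040, .negSucc 4663439], (.tw (.dx 0 (.tw (.lf 9) (.tr (.lf 19) (.lf 5) (.tr (.lf 13) (.lf 10) (.lf 14))))) (.lf 6)), 0, [20, 20, 33, 33, 30, 30, 10, 10], []⟩))
    (.nd (.lf ⟨[.negSucc 1748159, .negSucc 1750319, .ofNat 2973120, .negSucc 761519, .ofNat 182880], (.tr (.lf 5) (.dx 0 .on) (.tr (.lf 13) (.lf 17) (.tr (.lf 14) (.lf 18) (.tr (.lf 9) (.lf 6) (.lf 10))))), 0, [35, 35, 32, 32, 32, 32, 5, 5], [35, 35, 32, 32, 32, 32, 5, 5]⟩)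
    (.lf ⟨[.ofNat 2756160, .ofNat 6370320, .negSucc 10357439, .ofNat 4500240, .negSucc 792479], (.tr (.lf 9) (.lf 5) (.tr (.lf 17) (.lf 10) (.tr (.dx 0 .on) (.lf 18) (.tr (.lf 13) (.lf 6) (.lf 14))))), 0, [19, 19, 31, 31, 34, 34, 15, 15], [19, 19, 31, 31, 34, 34, 15, 15]⟩))))

/-- data -/
def dV7x23 : RT := (.nd (.nd (.nd (.lf ⟨[.ofNat 16154640, .negSucc 46607579, .ofNat 47592960, .negSucc 18213179, .ofNat 3002280], (.tr (.lf 5) (.tr (.lf 13) (.tr (.dx 0 .on) (.lf 9) (.tr (.lf 17) (.lf 6) (.lf 18))) (.lf 14)) (.lf 10)), 0, [24, 24, 7, 7, 24, 24, 7, 7], [24, 24, 7, 7, 24, 24, 7, 7]⟩)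
    (.lf ⟨[.ofNat 3637440, .negSucc 7138319, .ofNat 7058400, .negSucc 2872079, .ofNat 487680], (.tr (.lf 5) (.lf 9) (.tr (.lf 17) (.tr (.lf 6) (.dx 0 .on) (.tr (.lf 13) (.lf 10) (.lf 14))) (.lf 18))), 0, [39, 39, 8, 8, 39, 39, 8, 8], [39, 39, 8, 8, 39, 39, 8, 8]⟩))
    (.nd (.lf ⟨[.negSucc 78186239, .ofNat 241521120, .negSucc 247645799, .ofNat 90588720, .negSucc 14706599], (.tr (.lf 9) (.lf 6) (.tr (.lf 13) (.tr (.lf 10) (.dx 0 (.lf 5)) (.tw (.lf 17) (.lf 18))) (.lf 14))), 0, [5, 5, 37, 37, 5, 5, 37, 37], [5, 5, 37, 37, 5, 5, 37, 37]⟩)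
    (.lf ⟨[.ofNat 77460480, .negSucc 241374239, .ofNat 247177320, .negSucc 90720239, .ofNat 14706600], (.tr (.lf 13) (.lf 6) (.tr (.lf 9) (.tr (.dx 0 (.lf 5)) (.tw (.lf 17) (.lf 18)) (.lf 14)) (.lf 10))), 0, [7, 7, 18, 18, 7, 7, 18, 18], [7, 7, 18, 18, 7, 7, 18, 18]⟩)))
    (.nd (.nd (.lf ⟨[.ofNat 3417840, .ofNat 1665500, .negSucc 3154159, .ofNat 1272860, .negSucc 167639], (.tr (.lf 13) (.lf 6) (.tr (.lf 17) (.tr (.dx 0 (.lf 5)) (.tw (.lf 9) (.lf 10)) (.lf 14)) (.lf 18))), 0, [39, 39, 18, 18, 39, 39, 18, 18], [39, 39, 18, 18, 39, 39, 18, 18]⟩)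
    (.lf ⟨[.negSucc 10163519, .ofNat 49050480, .negSucc 58848719, .ofNat 20697360, .negSucc 3444239], (.tr (.dx 0 (.tw (.lf 5) (.lf 9))) (.tr (.lf 13) (.lf 14) (.tr (.lf 17) (.lf 6) (.lf 18))) (.lf 10)), 0, [0, 0, 7, 7, 29, 29, 7, 7], [10, 10, 7, 7]⟩))
    (.nd (.lf ⟨[.ofNat 14363280, .negSucc 25769019, .ofNat 21528880, .negSucc 8398779, .ofNat 1356360], (.tr (.lf 13) (.lf 6) (.tr (.lf 17) (.tr (.tw (.lf 9) (.lf 10)) (.dx 0 (.lf 5)) (.lf 14)) (.lf 18))), 0, [18, 18, 15, 15, 18, 18, 15, 15], [18, 18, 15, 15, 18, 18, 15, 15]⟩)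
    (.lf ⟨[.ofNat 0, .negSucc 10851839, .ofNat 72850560, .negSucc 91762559, .ofNat 49729920, .negSucc 11303039, .ofNat 975360], (.tr (.dx 1 (.tw (.lf 1) (.lf 15))) (.tr (.lf 9) (.lf 10) (.lf 19)) (.lf 2)), 1, [32, 21, 24, 21], []⟩))))

/-- data -/
def dV7x24 : RT := (.nd (.nd (.nd (.lf ⟨[.ofNat 0, .ofNat 4993920, .negSucc 20422559, .ofNat 9876000, .ofNat 9287520, .negSucc 7059359, .ofNat 1584960], (.tw (.dx 1 (.tw (.lf 1) (.lf 15))) (.tr (.lf 2) (.tw (.lf 9) (.lf 10)) (.lf 19))), 1, [15, 15, 21, 21, 15, 15, 21, 21], []⟩)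
    (.lf ⟨[.ofNat 0, .ofNat 37238400, .negSucc 35123039, .negSucc 31502399, .ofNat 80854560, .negSucc 36449279, .ofNat 6827520], (.tr (.dx 1 (.tw (.lf 1) (.lf 15))) (.lf 2) (.tr (.lf 9) (.lf 10) (.lf 19))), 1, [15, 29, 15, 29], []⟩))
    (.nd (.lf ⟨[.ofNat 0, .negSucc 37238399, .ofNat 35123040, .ofNat 31502400, .negSucc 80854559, .ofNat 36449280, .negSucc 6827519], (.tr (.lf 6) (.dx 0 (.tw (.lf 5) (.lf 15))) (.tr (.lf 9) (.lf 10) (.lf 19))), 0, [32, 29, 15, 29], []⟩)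
    (.lf ⟨[.ofNat 0, .negSucc 3496319, .ofNat 5669280, .negSucc 1973759, .negSucc 44639, .ofNat 121920], (.tr (.lf 6) (.tr (.dx 0 (.tw (.lf 5) (.lf 15))) (.lf 9) (.lf 10)) (.lf 19)), 0, [32, 15, 8, 8], []⟩)))
    (.nd (.nd (.lf ⟨[.ofNat 0, .ofNat 4354560, .negSucc 23806079, .ofNat 41292480, .negSucc 32485439, .ofNat 10777920, .negSucc 1584959], (.tw (.lf 2) (.tr (.dx 1 (.tw (.lf 1) (.lf 15))) (.tw (.lf 9) (.lf 10)) (.lf 19))), 1, [0, 0, 15, 15, 25, 33, 25, 33], []⟩)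
    (.lf ⟨[.ofNat 0, .ofNat 6336000, .negSucc 4506239, .negSucc 27949439, .ofNat 43810560, .negSucc 18142079, .ofNat 3169920], (.tr (.lf 2) (.tr (.dx 1 (.tw (.lf 1) (.lf 15))) (.lf 9) (.lf 10)) (.lf 19)), 1, [0, 15, 20, 20], []⟩))
    (.nd (.lf ⟨[.ofNat 0, .ofNat 20367360, .negSucc 22872959, .negSucc 31335839, .ofNat 64615680, .negSucc 28780319, .ofNat 5242560], (.tr (.dx 1 (.lf 1)) (.tr (.tw (.lf 9) (.lf 10)) (.lf 2) (.lf 15)) (.lf 19)), 1, [32, 32, 32, 32], [8, 8, 15, 15]⟩)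
    (.lf ⟨[.negSucc 66533039, .ofNat 219398420, .negSucc 225509959, .ofNat 81609860, .negSucc 13106399], (.tw (.lf 13) (.tr (.lf 9) (.tw (.dx 0 (.lf 5)) (.tr (.lf 6) (.lf 14) (.tw (.lf 17) (.lf 18)))) (.lf 10))), 0, [29, 29, 36, 36, 36, 36, 13, 13, 29, 29, 36, 36, 36, 36, 13, 13], [29, 29, 36, 36, 36, 36, 13, 13, 29, 29, 36, 36, 36, 36, 13, 13]⟩))))

/-- data -/
def dV7 : RT := (.nd (.nd (.nd (.nd dV7x0 (.nd dV7x1 dV7x2)) (.nd dV7x3 (.nd dV7x4 dV7x5))) (.nd (.nd dV7x6 (.nd dV7x7 dV7x8)) (.nd dV7x9 (.nd dV7x10 dV7x11)))) (.nd (.nd (.nd dV7x12 (.nd dV7x13 dV7x14)) (.nd dV7x15 (.nd dV7x16 dV7x17))) (.nd (.nd dV7x18 (.nd dV7x19 dV7x20)) (.nd (.nd dV7x21 dV7x22) (.nd dV7x23 dV7x24)))))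

/-- data -/
def lV7x0 : List (ℕ × List ℤ) := [(42213, [.ofNat 0, .ofNat 0, .negSucc 40734719, .ofNat 45745920, .ofNat 62671680, .negSucc 129231359, .ofNat 57560640, .negSucc 10485119]),
  (42332, [.ofNat 0, .ofNat 0, .negSucc 40734719, .ofNat 45745920, .ofNat 62671680, .negSucc 129231359, .ofNat 57560640, .negSucc 10485119]),
  (333589, [.ofNat 0, .ofNat 0, .ofNat 6863040, .ofNat 85478640, .negSucc 123641279, .ofNat 52158960, .negSucc 9204959]),
  (334060, [.ofNat 0, .ofNat 0, .ofNat 15442560, .negSucc 19590239, .ofNat 9189120, .negSucc 2052959, .ofNat 121920]),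
  (337756, [.ofNat 0, .ofNat 40654080, .negSucc 196201919, .ofNat 235394880, .negSucc 82789439, .ofNat 13776960]),
  (338149, [.ofNat 0, .negSucc 13426559, .negSucc 123998559, .ofNat 175294240, .negSucc 63706719, .ofNat 11075040, .negSucc 121919]),
  (341773, [.ofNat 0, .negSucc 582871679, .ofNat 1909123680, .negSucc 1972639679, .ofNat 721855200, .negSucc 116799359]),
  (342221, [.ofNat 0, .ofNat 0, .ofNat 15442560, .negSucc 19590239, .ofNat 9189120, .negSucc 2052959, .ofNat 121920]),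
  (342314, [.ofNat 0, .negSucc 582871679, .ofNat 1909123680, .negSucc 1972639679, .ofNat 721855200, .negSucc 116799359]),
  (345387, [.ofNat 0, .ofNat 0, .ofNat 6863040, .ofNat 85478640, .negSucc 123641279, .ofNat 52158960, .negSucc 9204959]),
  (345419, [.ofNat 0, .negSucc 54080639, .ofNat 72203360, .negSucc 60100639, .ofNat 19082720, .negSucc 2701919, .negSucc 121919]),
  (2447203, [.ofNat 0, .ofNat 37238400, .negSucc 35123039, .negSucc 31502399, .ofNat 80854560, .negSucc 36449279, .ofNat 6827520]),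
  (2447595, [.ofNat 0, .negSucc 37238399, .ofNat 35123040, .ofNat 31502400, .negSucc 80854559, .ofNat 36449280, .negSucc 6827519]),
  (2671837, [.ofNat 0, .ofNat 15045120, .negSucc 52118399, .ofNat 54635520, .negSucc 21160319, .ofNat 3413760]),
  (2671979, [.ofNat 0, .ofNat 0, .negSucc 4953599, .negSucc 33143039, .ofNat 48332160, .negSucc 20989439, .ofNat 3657600]),
  (2677411, [.ofNat 0, .ofNat 40734720, .negSucc 45745919, .negSucc 62671679, .ofNat 129231360, .negSucc 57560639, .ofNat 10485120]),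
  (2701420, [.ofNat 0, .negSucc 58317119, .ofNat 135081520, .negSucc 158126079, .ofNat 101900080, .negSucc 30847199, .ofNat 4145280]),
  (2701644, [.ofNat 0, .negSucc 863999, .ofNat 32005440, .negSucc 72010559, .ofNat 68304960, .negSucc 25421759, .ofNat 4145280]),
  (2701925, [.ofNat 0, .ofNat 312744960, .negSucc 966084479, .ofNat 990583200, .negSucc 362354879, .ofNat 58826400]),
  (2702053, [.ofNat 0, .ofNat 47226240, .negSucc 75968159, .negSucc 11750399, .ofNat 99429600, .negSucc 50567999, .ofNat 9997440]),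
  (2702109, [.ofNat 0, .ofNat 6491520, .negSucc 35175839, .ofNat 17778240, .ofNat 18530400, .negSucc 13996799, .ofNat 3169920]),
  (2704227, [.ofNat 0, .ofNat 6336000, .negSucc 4506239, .negSucc 27949439, .ofNat 43810560, .negSucc 18142079, .ofNat 3169920]),
  (2705228, [.ofNat 0, .ofNat 266132160, .negSucc 877593679, .ofNat 902039840, .negSucc 326439439, .ofNat 52425600]),
  (2706019, [.ofNat 0, .ofNat 6336000, .negSucc 4506239, .negSucc 27949439, .ofNat 43810560, .negSucc 18142079, .ofNat 3169920]),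
  (2708204, [.ofNat 0, .negSucc 3496319, .ofNat 5669280, .negSucc 1973759, .negSucc 44639, .ofNat 121920]),
  (2709100, [.ofNat 0, .negSucc 3496319, .ofNat 5669280, .negSucc 1973759, .negSucc 44639, .ofNat 121920]),
  (2709291, [.ofNat 0, .ofNat 15045120, .negSucc 52118399, .ofNat 54635520, .negSucc 21160319, .ofNat 3413760]),
  (2726187, [.ofNat 0, .negSucc 15814079, .ofNat 18576400, .ofNat 3439040, .negSucc 20332399, .ofNat 10923360, .negSucc 2194559]),
  (2726754, [.ofNat 0, .ofNat 266132160, .negSucc 877593679, .ofNat 902039840, .negSucc 326439439, .ofNat 52425600]),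
  (2734186, [.ofNat 0, .negSucc 309841919, .ofNat 965496960, .negSucc 988709279, .ofNat 362880960, .negSucc 58826399]),
  (2734690, [.ofNat 0, .negSucc 13671359, .negSucc 6661999, .ofNat 12616640, .negSucc 5091439, .ofNat 670560]),
  (2737941, [.ofNat 0, .ofNat 0, .negSucc 2350079, .ofNat 2826240, .ofNat 1927680]),
  (2738389, [.ofNat 0, .ofNat 0, .negSucc 4700159, .ofNat 5652480, .ofNat 3855360]),
  (2738507, [.ofNat 0, .negSucc 57453119, .ofNat 103076080, .negSucc 86115519, .ofNat 33595120, .negSucc 5425439]),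
  (2758380, [.ofNat 0, .negSucc 309841919, .ofNat 965496960, .negSucc 988709279, .ofNat 362880960, .negSucc 58826399]),
  (2759514, [.ofNat 0, .negSucc 2142719, .ofNat 25238400, .negSucc 9177599, .negSucc 15240959, .ofNat 10252800, .negSucc 2194559]),
  (2767061, [.ofNat 0, .ofNat 0, .negSucc 2350079, .ofNat 2826240, .ofNat 1927680]),
  (2767691, [.ofNat 0, .ofNat 266132160, .negSucc 877593679, .ofNat 902039840, .negSucc 326439439, .ofNat 52425600]),
  (2775642, [.ofNat 0, .ofNat 578877120, .negSucc 1843678159, .ofNat 1892623040, .negSucc 688794319, .ofNat 111252000]),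
  (19577061, [.ofNat 0, .negSucc 4423679, .negSucc 330239, .ofNat 5333760, .negSucc 2603519, .ofNat 487680]),
  (19580645, [.ofNat 0, .negSucc 8847359, .negSucc 660479, .ofNat 10667520, .negSucc 5207039, .ofNat 975360]),
  (19580701, [.ofNat 0, .negSucc 4423679, .negSucc 330239, .ofNat 5333760, .negSucc 2603519, .ofNat 487680]),
  (21322076, [.ofNat 0, .ofNat 3496320, .ofNat 3500640, .negSucc 5946239, .ofNat 1523040, .negSucc 365759]),
  (21351189, [.ofNat 0, .negSucc 7001279, .negSucc 85916399, .ofNat 123802560, .negSucc 52158959, .ofNat 9204960]),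
  (21354708, [.ofNat 0, .negSucc 5512319, .negSucc 12740639, .ofNat 20714880, .negSucc 9000479, .ofNat 1584960]),
  (21379756, [.ofNat 0, .negSucc 783359, .ofNat 645120]),
  (21383851, [.ofNat 0, .ofNat 14659200, .negSucc 18945119, .ofNat 9189120, .negSucc 2052959, .ofNat 121920]),
  (21387610, [.ofNat 0, .negSucc 17749439, .negSucc 64457519, .ofNat 109940160, .negSucc 49397039, .ofNat 8961120]),
  (21808427, [.ofNat 0, .ofNat 53075520, .negSucc 118647279, .ofNat 114510400, .negSucc 43268079, .ofNat 7010400]),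
  (21809962, [.ofNat 0, .negSucc 5512319, .negSucc 12740639, .ofNat 20714880, .negSucc 9000479, .ofNat 1584960]),
  (21813411, [.ofNat 0, .negSucc 246487679, .ofNat 795884640, .negSucc 818870879, .ofNat 298690080, .negSucc 48341279]),
  (21842637, [.ofNat 0, .ofNat 7001280, .ofNat 85916400, .negSucc 123802559, .ofNat 52158960, .negSucc 9204959]),
  (21846108, [.ofNat 0, .negSucc 14549759, .ofNat 28553280, .negSucc 28233599, .ofNat 11488320, .negSucc 1950719]),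
  (21899595, [.ofNat 0, .negSucc 246487679, .ofNat 795884640, .negSucc 818870879, .ofNat 298690080, .negSucc 48341279]),
  (21903970, [.ofNat 0, .ofNat 60076800, .negSucc 32730879, .negSucc 9292159, .ofNat 8890880, .negSucc 2194559]),
  (21910356, [.ofNat 0, .negSucc 64618559, .ofNat 186430320, .negSucc 190371839, .ofNat 72852720, .negSucc 12009119]),
  (21910860, [.ofNat 0, .ofNat 15733440, .ofNat 55217520, .negSucc 95171519, .ofNat 41919600, .negSucc 7741919]),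
  (21936300, [.ofNat 0, .negSucc 5512319, .negSucc 12740639, .ofNat 20714880, .negSucc 9000479, .ofNat 1584960]),
  (21936482, [.ofNat 0, .ofNat 15442560, .negSucc 19590239, .ofNat 9189120, .negSucc 2052959, .ofNat 121920]),
  (21941002, [.ofNat 0, .negSucc 14244479, .ofNat 17958240, .negSucc 7916159, .ofNat 1238880, .ofNat 121920]),
  (22067925, [.ofNat 0, .negSucc 64618559, .ofNat 186430320, .negSucc 190371839, .ofNat 72852720, .negSucc 12009119]),
  (22128460, [.ofNat 0, .negSucc 14549759, .ofNat 28553280, .negSucc 28233599, .ofNat 11488320, .negSucc 1950719]),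
  (22139740, [.ofNat 0, .ofNat 6992640, .ofNat 7001280, .negSucc 11892479, .ofNat 3046080, .negSucc 731519]),
  (22140714, [.ofNat 0, .ofNat 15442560, .negSucc 19590239, .ofNat 9189120, .negSucc 2052959, .ofNat 121920]),
  (22201675, [.ofNat 0, .ofNat 15442560, .negSucc 19590239, .ofNat 9189120, .negSucc 2052959, .ofNat 121920]),
  (22362443, [.ofNat 0, .ofNat 21245760, .ofNat 67958160, .negSucc 115886399, .ofNat 50920080, .negSucc 9326879]),
  (156064029, [.negSucc 866128319, .ofNat 2641121040, .negSucc 2697121919, .ofNat 979167120, .negSucc 158678879]),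
  (156117852, [.ofNat 24324480, .negSucc 46016159, .ofNat 40331520, .negSucc 14220959, .ofNat 2316480]),
  (156121940, [.ofNat 24324480, .negSucc 46016159, .ofNat 40331520, .negSucc 14220959, .ofNat 2316480]),
  (156125853, [.negSucc 863063999, .ofNat 2629733520, .negSucc 2686185599, .ofNat 975874320, .negSucc 158191199]),
  (156125867, [.negSucc 65174399, .ofNat 149884320, .negSucc 137288639, .ofNat 48844320, .negSucc 7802879]),
  (156150045, [.negSucc 3064319, .ofNat 3830400, .negSucc 1777919, .ofNat 243840]),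
  (156154028, [.ofNat 5512320, .ofNat 12740640, .negSucc 20714879, .ofNat 9000480, .negSucc 1584959]),
  (156154133, [.negSucc 3064319, .ofNat 3830400, .negSucc 1777919, .ofNat 243840]),
  (156162211, [.negSucc 57398399, .ofNat 161464800, .negSucc 158998079, .ofNat 60547680, .negSucc 9753599]),
  (156318563, [.ofNat 57398400, .negSucc 161464799, .ofNat 158998080, .negSucc 60547679, .ofNat 9753600]),
  (156349797, [.negSucc 15045119, .ofNat 52118400, .negSucc 54635519, .ofNat 21160320, .negSucc 3413759]),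
  (156355229, [.ofNat 100056960, .negSucc 354933279, .ofNat 376138720, .negSucc 125889759, .ofNat 20177760]),
  (156358995, [.negSucc 19105919, .ofNat 79023840, .negSucc 72616319, .ofNat 23224800, .negSucc 3291839]),
  (156359331, [.negSucc 1035423359, .ofNat 3192284000, .negSucc 3255460159, .ofNat 1174135520, .negSucc 189707519]),
  (156383901, [.ofNat 3064320, .negSucc 3830399, .ofNat 1777920, .negSucc 243839]),
  (156411621, [.ofNat 70603200, .negSucc 166384399, .ofNat 153937280, .negSucc 46543759, .ofNat 6888480]),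
  (156419797, [.ofNat 85648320, .negSucc 218502799, .ofNat 208572800, .negSucc 67704079, .ofNat 10302240]),
  (156616861, [.ofNat 3064320, .negSucc 3830399, .ofNat 1777920, .negSucc 243839]),
  (156645533, [.ofNat 100056960, .negSucc 354933279, .ofNat 376138720, .negSucc 125889759, .ofNat 20177760]),
  (156649117, [.ofNat 3064320, .negSucc 11387519, .ofNat 10936320, .negSucc 3292799, .ofNat 487680]),
  (156649131, [.negSucc 65174399, .ofNat 149884320, .negSucc 137288639, .ofNat 48844320, .negSucc 7802879]),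
  (156653331, [.negSucc 19105919, .ofNat 79023840, .negSucc 72616319, .ofNat 23224800, .negSucc 3291839]),
  (156678307, [.negSucc 1035423359, .ofNat 3192284000, .negSucc 3255460159, .ofNat 1174135520, .negSucc 189707519]),
  (170539371, [.negSucc 22060799, .ofNat 52050240, .negSucc 49247999, .ofNat 19924800, .negSucc 3169919]),
  (170539875, [.negSucc 22060799, .ofNat 52050240, .negSucc 49247999, .ofNat 19924800, .negSucc 3169919]),
  (170571564, [.ofNat 0, .ofNat 2903040, .negSucc 3580799, .ofNat 2522880, .negSucc 243839]),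
  (170575596, [.ofNat 3496320, .ofNat 6403680, .negSucc 9527039, .ofNat 4045920, .negSucc 609599]),
  (170743589, [.negSucc 167460479, .ofNat 514156640, .negSucc 543367519, .ofNat 202142240, .negSucc 33467039]),
  (170744093, [.negSucc 167460479, .ofNat 514156640, .negSucc 543367519, .ofNat 202142240, .negSucc 33467039]),
  (170771820, [.ofNat 258540480, .negSucc 789762639, .ofNat 801386800, .negSucc 285778479, .ofNat 45811440]),
  (170773290, [.ofNat 37238400, .negSucc 104669279, .ofNat 110294400, .negSucc 43056479, .ofNat 7193280]),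
  (170773332, [.ofNat 387423360, .negSucc 1167093279, .ofNat 1186894960, .negSucc 430719999, .ofNat 69402960]),
  (170775845, [.negSucc 424883519, .ofNat 1267617200, .negSucc 1275455839, .ofNat 463178480, .negSucc 74736959]),
  (170776853, [.negSucc 389793599, .ofNat 1165475120, .negSucc 1172689759, .ofNat 424212080, .negSucc 68397119])]

/-- data -/
def lV7x1 : List (ℕ × List ℤ) := [(170776930, [.negSucc 22187519, .ofNat 43086720, .negSucc 39229439, .ofNat 14524800, .negSucc 2438399]),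
  (170801941, [.ofNat 0, .ofNat 1405440, .negSucc 2609279, .ofNat 1432320, .negSucc 243839]),
  (170805973, [.negSucc 114935039, .ofNat 368698560, .negSucc 371335679, .ofNat 124382400, .negSucc 19507199]),
  (170809690, [.ofNat 0, .ofNat 2557440, .negSucc 3315839, .ofNat 403200, .negSucc 243839]),
  (170810068, [.negSucc 18861119, .ofNat 55793520, .negSucc 53495039, .ofNat 20686320, .negSucc 3230879]),
  (170837781, [.ofNat 0, .negSucc 1405439, .ofNat 2609280, .negSucc 1432319, .ofNat 243840]),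
  (170838229, [.ofNat 167460480, .negSucc 514156639, .ofNat 543367520, .negSucc 202142239, .ofNat 33467040]),
  (170838362, [.negSucc 1438381439, .ofNat 4352620960, .negSucc 4419203199, .ofNat 1599310240, .negSucc 258592319]),
  (170842338, [.ofNat 0, .ofNat 2903040, .negSucc 3580799, .ofNat 2522880, .negSucc 243839]),
  (170998123, [.ofNat 43260480, .negSucc 99866479, .ofNat 96252800, .negSucc 39050479, .ofNat 6766560]),
  (170998627, [.ofNat 43260480, .negSucc 99866479, .ofNat 96252800, .negSucc 39050479, .ofNat 6766560]),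
  (171005669, [.ofNat 441434880, .negSucc 1388571839, .ofNat 1420272000, .negSucc 523611839, .ofNat 84978240]),
  (171006173, [.ofNat 441434880, .negSucc 1388571839, .ofNat 1420272000, .negSucc 523611839, .ofNat 84978240]),
  (171027180, [.negSucc 151770239, .ofNat 449439840, .negSucc 446907839, .ofNat 152095200, .negSucc 23896319]),
  (171031317, [.ofNat 315403200, .negSucc 989988239, .ofNat 1016359680, .negSucc 371220239, .ofNat 60167520]),
  (171034474, [.ofNat 1359360, .ofNat 9333120, .negSucc 10629119, .ofNat 3742080, .negSucc 487679]),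
  (171096732, [.negSucc 151770239, .ofNat 449439840, .negSucc 446907839, .ofNat 152095200, .negSucc 23896319]),
  (171103452, [.negSucc 19825919, .ofNat 42352320, .negSucc 48650879, .ofNat 19389120, .negSucc 3413759]),
  (171104019, [.negSucc 701579519, .ofNat 2247859200, .negSucc 2318707919, .ofNat 849570720, .negSucc 137373359]),
  (171104026, [.ofNat 395677440, .negSucc 1248838719, .ofNat 1268101600, .negSucc 454973439, .ofNat 73091040]),
  (171291941, [.negSucc 37912319, .ofNat 98902080, .negSucc 98515199, .ofNat 36840000, .negSucc 6095999]),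
  (171293012, [.ofNat 3496320, .negSucc 5669279, .ofNat 1973760, .ofNat 44640, .negSucc 121919]),
  (171296554, [.ofNat 0, .negSucc 207359, .ofNat 489600, .negSucc 2330879, .ofNat 243840]),
  (171297002, [.ofNat 568296000, .negSucc 1828277359, .ofNat 1844981120, .negSucc 663188719, .ofNat 105643680]),
  (171325674, [.ofNat 0, .ofNat 2350080, .negSucc 2826239, .negSucc 1927679]),
  (171333346, [.negSucc 22187519, .ofNat 43086720, .negSucc 39229439, .ofNat 14524800, .negSucc 2438399]),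
  (171358434, [.negSucc 13127039, .ofNat 45996960, .negSucc 43896959, .ofNat 17838240, .negSucc 2560319]),
  (172804837, [.negSucc 178292159, .ofNat 507245200, .negSucc 506610879, .ofNat 180553360, .negSucc 29199839]),
  (172808540, [.negSucc 53317439, .ofNat 142956720, .negSucc 143262719, .ofNat 53824560, .negSucc 8839199]),
  (172870413, [.negSucc 11646719, .ofNat 28415040, .negSucc 22214399, .ofNat 8447040, .negSucc 1219199]),
  (172890972, [.negSucc 26933759, .ofNat 45561600, .negSucc 50770559, .ofNat 20428800, .negSucc 3657599]),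
  (172898917, [.negSucc 312744959, .ofNat 966084480, .negSucc 990583199, .ofNat 362354880, .negSucc 58826399]),
  (172899085, [.negSucc 309841919, .ofNat 965496960, .negSucc 988709279, .ofNat 362880960, .negSucc 58826399]),
  (172899148, [.negSucc 7107839, .ofNat 3209280, .negSucc 2119679, .ofNat 1039680, .negSucc 243839]),
  (172903005, [.negSucc 10414079, .ofNat 28888320, .negSucc 28271999, .ofNat 10575360, .negSucc 1706879]),
  (172903117, [.negSucc 10414079, .ofNat 28888320, .negSucc 28271999, .ofNat 10575360, .negSucc 1706879]),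
  (172905245, [.ofNat 283201920, .negSucc 855046559, .ofNat 872932320, .negSucc 327673439, .ofNat 53340000]),
  (172923228, [.ofNat 339554880, .negSucc 1082183279, .ofNat 1111627680, .negSucc 407964719, .ofNat 66080640]),
  (172931180, [.ofNat 37126080, .negSucc 4975119, .negSucc 31581919, .ofNat 7799600, .negSucc 1463039]),
  (172931341, [.ofNat 15690240, .negSucc 40106879, .ofNat 45694080, .negSucc 18591359, .ofNat 3169920]),
  (172931404, [.negSucc 260239679, .ofNat 869444400, .negSucc 906752159, .ofNat 327924720, .negSucc 53157119]),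
  (172934757, [.ofNat 290459520, .negSucc 899952799, .ofNat 927245600, .negSucc 330737119, .ofNat 53583840]),
  (173070053, [.negSucc 542966399, .ofNat 1805523680, .negSucc 1871294719, .ofNat 675676640, .negSucc 108874559]),
  (173070179, [.negSucc 296775359, .ofNat 984215760, .negSucc 1018464959, .ofNat 373997520, .negSucc 60533279]),
  (173119851, [.negSucc 59837759, .ofNat 159171120, .negSucc 155105279, .ofNat 58054320, .negSucc 9326879]),
  (173120355, [.ofNat 9368640, .ofNat 8991120, .negSucc 14826239, .ofNat 7130640, .negSucc 1158239]),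
  (173128293, [.negSucc 588582719, .ofNat 1928003760, .negSucc 2010081119, .ofNat 718268400, .negSucc 115823999]),
  (173132381, [.negSucc 26035199, .ofNat 75216000, .negSucc 74987519, .ofNat 29132160, .negSucc 4632959]),
  (173132493, [.ofNat 78575040, .negSucc 239395599, .ofNat 247858240, .negSucc 94838799, .ofNat 15666720]),
  (173132619, [.ofNat 9368640, .ofNat 8991120, .negSucc 14826239, .ofNat 7130640, .negSucc 1158239]),
  (173134684, [.negSucc 6992639, .negSucc 7001279, .ofNat 11892480, .negSucc 3046079, .ofNat 731520]),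
  (173136476, [.negSucc 333673919, .ofNat 996394960, .negSucc 1011358479, .ofNat 366290800, .negSucc 59039759]),
  (173136483, [.negSucc 75133439, .ofNat 206632320, .negSucc 209971679, .ofNat 80512320, .negSucc 13228319]),
  (173136651, [.negSucc 59837759, .ofNat 159171120, .negSucc 155105279, .ofNat 58054320, .negSucc 9326879]),
  (173161165, [.negSucc 14549759, .ofNat 31133760, .negSucc 31228799, .ofNat 11373120, .negSucc 1950719]),
  (173168459, [.ofNat 0, .negSucc 1843199, .ofNat 3220320, .negSucc 887999, .ofNat 182880]),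
  (173184741, [.negSucc 9630719, .ofNat 29856000, .negSucc 30082559, .ofNat 12276480, .negSucc 1950719]),
  (173184811, [.ofNat 57398400, .negSucc 156470879, .ofNat 152439360, .negSucc 57565919, .ofNat 9265920]),
  (173184867, [.negSucc 255720959, .ofNat 870960000, .negSucc 912329759, .ofNat 334603200, .negSucc 54315359]),
  (173192805, [.negSucc 348335999, .ofNat 1036556320, .negSucc 1042725279, .ofNat 380644960, .negSucc 61508639]),
  (173193421, [.ofNat 2903040, .ofNat 6969600, .negSucc 7284479, .ofNat 3575040, .negSucc 487679]),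
  (173197005, [.ofNat 56643840, .negSucc 140744639, .ofNat 140371200, .negSucc 51975359, .ofNat 8534400]),
  (173200995, [.negSucc 1206659519, .ofNat 3818439440, .negSucc 3929852959, .ofNat 1441799120, .negSucc 233598719]),
  (173328157, [.ofNat 3496320, .ofNat 3500640, .negSucc 5946239, .ofNat 1523040, .negSucc 365759]),
  (173381931, [.ofNat 389188800, .negSucc 1196871119, .ofNat 1229043840, .negSucc 450837839, .ofNat 73334880]),
  (173389925, [.negSucc 7778879, .ofNat 71097840, .negSucc 87023039, .ofNat 34806000, .negSucc 5669279]),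
  (173393677, [.ofNat 3496320, .ofNat 3500640, .negSucc 5946239, .ofNat 1523040, .negSucc 365759]),
  (173398220, [.ofNat 56643840, .negSucc 140744639, .ofNat 140371200, .negSucc 51975359, .ofNat 8534400]),
  (173398283, [.ofNat 56643840, .negSucc 140744639, .ofNat 140371200, .negSucc 51975359, .ofNat 8534400]),
  (173421355, [.negSucc 323781119, .ofNat 1050994560, .negSucc 1084745759, .ofNat 398197440, .negSucc 64556639]),
  (173423196, [.ofNat 1834560, .ofNat 15906960, .negSucc 26412479, .ofNat 10135440, .negSucc 1645919]),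
  (173426269, [.negSucc 725048639, .ofNat 2304852720, .negSucc 2372663759, .ofNat 869456400, .negSucc 140726159]),
  (173426283, [.ofNat 301847040, .negSucc 924440319, .ofNat 935509600, .negSucc 342339519, .ofNat 55412640]),
  (173430476, [.ofNat 15690240, .negSucc 40106879, .ofNat 45694080, .negSucc 18591359, .ofNat 3169920]),
  (174414109, [.negSucc 178292159, .ofNat 507245200, .negSucc 506610879, .ofNat 180553360, .negSucc 29199839]),
  (174443348, [.negSucc 296775359, .ofNat 984215760, .negSucc 1018464959, .ofNat 373997520, .negSucc 60533279]),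
  (174467932, [.ofNat 97660800, .negSucc 148092319, .ofNat 111902720, .negSucc 39535519, .ofNat 5852160]),
  (174467939, [.negSucc 376254719, .ofNat 1232712320, .negSucc 1275538639, .ofNat 462267680, .negSucc 74828399]),
  (174472020, [.ofNat 70427520, .negSucc 154965919, .ofNat 139205120, .negSucc 40368799, .ofNat 5852160]),
  (174472034, [.ofNat 113086080, .negSucc 374841439, .ofNat 394335200, .negSucc 152337439, .ofNat 25054560]),
  (174475947, [.negSucc 6655679, .ofNat 104762960, .negSucc 130314079, .ofNat 46486160, .negSucc 7559039]),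
  (174479594, [.negSucc 208647359, .ofNat 592656080, .negSucc 585521599, .ofNat 218160080, .negSucc 35173919]),
  (174480028, [.ofNat 27480960, .ofNat 15913440, .negSucc 39397439, .ofNat 6929760, .negSucc 975359]),
  (174480035, [.negSucc 355233599, .ofNat 1229070000, .negSucc 1283037599, .ofNat 464319600, .negSucc 75102719]),
  (174480098, [.negSucc 82434239, .ofNat 248971600, .negSucc 251799999, .ofNat 89895760, .negSucc 14447519]),
  (174500125, [.ofNat 202826880, .negSucc 627506399, .ofNat 652234560, .negSucc 243965279, .ofNat 39989760]),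
  (174500139, [.ofNat 158385600, .negSucc 540767759, .ofNat 569770560, .negSucc 213795599, .ofNat 34686240]),
  (174504213, [.ofNat 64618560, .negSucc 186430319, .ofNat 190371840, .negSucc 72852719, .ofNat 12009120]),
  (174508203, [.negSucc 211446719, .ofNat 680559760, .negSucc 697374399, .ofNat 248939920, .negSucc 40050719]),
  (174508266, [.negSucc 380059199, .ofNat 1143081840, .negSucc 1167509759, .ofNat 411041520, .negSucc 66019679]),
  (174508770, [.ofNat 391406400, .negSucc 1257462319, .ofNat 1313776160, .negSucc 452821999, .ofNat 73030080]),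
  (174512291, [.negSucc 77293439, .ofNat 255109920, .negSucc 265874879, .ofNat 99507360, .negSucc 16215359]),
  (174512354, [.ofNat 17190720, .ofNat 7458000, .negSucc 20818559, .ofNat 7540560, .negSucc 1280159]),
  (174734093, [.negSucc 813208319, .ofNat 2494381760, .negSucc 2540255359, .ofNat 917800640, .negSucc 148498559]),
  (174738125, [.ofNat 12945600, .negSucc 51562319, .ofNat 54773760, .negSucc 19342799, .ofNat 3108960]),
  (174774364, [.ofNat 297751680, .negSucc 883599839, .ofNat 901165920, .negSucc 339161759, .ofNat 55290720]),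
  (174774539, [.negSucc 14549759, .ofNat 31133760, .negSucc 31228799, .ofNat 11373120, .negSucc 1950719]),
  (174902058, [.negSucc 13052159, .ofNat 71194560, .negSucc 79489919, .ofNat 32971200, .negSucc 5364479]),
  (174902100, [.ofNat 1001779200, .negSucc 3100460159, .ofNat 3184589760, .negSucc 1158681599, .ofNat 187634880]),
  (174934797, [.ofNat 23109120, .negSucc 60869759, .ofNat 57999360, .negSucc 21394559, .ofNat 3413760])]

/-- data -/
def lV7x2 : List (ℕ × List ℤ) := [(174987941, [.negSucc 325987199, .ofNat 1077637920, .negSucc 1117444319, .ofNat 411206880, .negSucc 66751199]),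
  (174988116, [.ofNat 45279360, .negSucc 100260959, .ofNat 96833280, .negSucc 35821919, .ofNat 5974080]),
  (174992141, [.ofNat 282968640, .negSucc 926987759, .ofNat 962645280, .negSucc 351775919, .ofNat 57058560]),
  (174992204, [.ofNat 65298240, .negSucc 184349999, .ofNat 187057920, .negSucc 71429039, .ofNat 11765280]),
  (175000149, [.ofNat 11646720, .negSucc 28415039, .ofNat 22214400, .negSucc 8447039, .ofNat 1219200]),
  (175002389, [.ofNat 300159360, .negSucc 1002884639, .ofNat 1044165600, .negSucc 383651039, .ofNat 62362080]),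
  (175002452, [.ofNat 64618560, .negSucc 186430319, .ofNat 190371840, .negSucc 72852719, .ofNat 12009120]),
  (175002893, [.negSucc 395930879, .ofNat 1081243840, .negSucc 1080701439, .ofNat 380666560, .negSucc 61081919]),
  (175003789, [.ofNat 3712320, .negSucc 1450799, .negSucc 2231999, .ofNat 2949840, .negSucc 548639]),
  (175004258, [.negSucc 20828159, .ofNat 57776640, .negSucc 56543999, .ofNat 21150720, .negSucc 3413759]),
  (175020204, [.ofNat 134464320, .negSucc 439325999, .ofNat 463398720, .negSucc 172292399, .ofNat 28224480]),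
  (175020386, [.ofNat 2903040, .ofNat 6969600, .negSucc 7284479, .ofNat 3575040, .negSucc 487679]),
  (175024229, [.negSucc 19339199, .ofNat 86169360, .negSucc 93538559, .ofNat 37030800, .negSucc 6035039]),
  (175024397, [.negSucc 99630719, .ofNat 334094560, .negSucc 343049919, .ofNat 124482400, .negSucc 19994879]),
  (175024460, [.ofNat 0, .negSucc 1843199, .ofNat 3220320, .negSucc 887999, .ofNat 182880]),
  (175031124, [.ofNat 154192320, .negSucc 456817359, .ofNat 452938960, .negSucc 169028079, .ofNat 27218640]),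
  (175032426, [.negSucc 1206659519, .ofNat 3818439440, .negSucc 3929852959, .ofNat 1441799120, .negSucc 233598719]),
  (175032461, [.negSucc 360907199, .ofNat 1127825040, .negSucc 1160611199, .ofNat 426274320, .negSucc 69189599]),
  (175032930, [.ofNat 65206080, .negSucc 189302319, .ofNat 195718720, .negSucc 75611439, .ofNat 12618720]),
  (175033098, [.negSucc 9630719, .ofNat 49497600, .negSucc 49843199, .ofNat 19361280, .negSucc 2926079]),
  (175160106, [.ofNat 239784480, .negSucc 762389559, .ofNat 773537920, .negSucc 288334839, .ofNat 46969680]),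
  (175167834, [.negSucc 59351039, .ofNat 160531200, .negSucc 155547839, .ofNat 58385280, .negSucc 9387839]),
  (175168226, [.negSucc 31489919, .ofNat 106737440, .negSucc 114804799, .ofNat 40652960, .negSucc 6461759]),
  (175197003, [.ofNat 6575040, .negSucc 24541199, .ofNat 29816160, .negSucc 12160079, .ofNat 2072640]),
  (175200076, [.negSucc 84250079, .ofNat 207783880, .negSucc 198100479, .ofNat 69788680, .negSucc 11186159]),
  (175200972, [.negSucc 88623359, .ofNat 188520000, .negSucc 181189919, .ofNat 50113920, .negSucc 7619999]),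
  (175201035, [.ofNat 98095680, .negSucc 260121839, .ofNat 255069120, .negSucc 96015599, .ofNat 15544800]),
  (175217506, [.ofNat 162397440, .negSucc 537548479, .ofNat 556012160, .negSucc 195707839, .ofNat 31455360]),
  (175232269, [.ofNat 62108640, .negSucc 166169799, .ofNat 158259520, .negSucc 57222279, .ofNat 9113520]),
  (175233109, [.ofNat 142292160, .negSucc 463249359, .ofNat 478385440, .negSucc 174378639, .ofNat 28041600]),
  (175233130, [.negSucc 319282559, .ofNat 1019858080, .negSucc 1048238559, .ofNat 379638880, .negSucc 61142879]),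
  (175233634, [.negSucc 102263039, .ofNat 298825920, .negSucc 303165119, .ofNat 114116160, .negSucc 18531839]),
  (175233676, [.ofNat 19932480, .negSucc 83329199, .ofNat 90738240, .negSucc 35536559, .ofNat 5791200]),
  (175233802, [.ofNat 373489920, .negSucc 1205751999, .ofNat 1228872160, .negSucc 440448639, .ofNat 70652640]),
  (175258218, [.ofNat 23109120, .negSucc 60869759, .ofNat 57999360, .negSucc 21394559, .ofNat 3413760]),
  (175264602, [.ofNat 3712320, .negSucc 1450799, .negSucc 2231999, .ofNat 2949840, .negSucc 548639]),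
  (175264973, [.negSucc 77448959, .ofNat 280203840, .negSucc 298219679, .ofNat 111004800, .negSucc 18348959]),
  (175265099, [.negSucc 77448959, .ofNat 280203840, .negSucc 298219679, .ofNat 111004800, .negSucc 18348959]),
  (175265365, [.ofNat 191632320, .negSucc 544281999, .ofNat 546540160, .negSucc 195945999, .ofNat 31760160]),
  (175265386, [.ofNat 13734720, .negSucc 25840559, .ofNat 21220800, .negSucc 7508399, .ofNat 1158240]),
  (175282914, [.negSucc 77448959, .ofNat 280203840, .negSucc 298219679, .ofNat 111004800, .negSucc 18348959]),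
  (175286988, [.ofNat 62108640, .negSucc 166169799, .ofNat 158259520, .negSucc 57222279, .ofNat 9113520]),
  (175290453, [.ofNat 0, .negSucc 1866239, .ofNat 2132160, .negSucc 493439, .ofNat 121920]),
  (175290474, [.negSucc 1952639, .negSucc 3151199, .ofNat 4771200, .negSucc 2344799, .ofNat 365760]),
  (175293645, [.negSucc 77448959, .ofNat 280203840, .negSucc 298219679, .ofNat 111004800, .negSucc 18348959]),
  (175297250, [.ofNat 150045120, .negSucc 419052559, .ofNat 417542720, .negSucc 153485839, .ofNat 24688800]),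
  (175297803, [.negSucc 246706559, .ofNat 794515040, .negSucc 822177679, .ofNat 300129920, .negSucc 48737519]),
  (175421738, [.negSucc 52263359, .ofNat 133664400, .negSucc 128307839, .ofNat 48283920, .negSucc 7741919]),
  (175421794, [.ofNat 567599040, .negSucc 1651403919, .ofNat 1664092000, .negSucc 600851919, .ofNat 97048320]),
  (175458061, [.ofNat 239784480, .negSucc 762389559, .ofNat 773537920, .negSucc 288334839, .ofNat 46969680]),
  (175458635, [.negSucc 5351039, .ofNat 9458400, .negSucc 8062559, .ofNat 3380640, .negSucc 548639]),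
  (175462492, [.ofNat 27504000, .negSucc 30745119, .ofNat 24395200, .negSucc 8298399, .ofNat 1463040]),
  (175462499, [.ofNat 0, .ofNat 1405440, .negSucc 2609279, .ofNat 1432320, .negSucc 243839]),
  (175490380, [.negSucc 52869599, .ofNat 187211080, .negSucc 194418879, .ofNat 70022920, .negSucc 11308079]),
  (175518562, [.negSucc 51796799, .ofNat 167070000, .negSucc 171207359, .ofNat 64657200, .negSucc 10667999]),
  (175519850, [.ofNat 0, .negSucc 2580479, .ofNat 2995200, .ofNat 115200]),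
  (175519885, [.negSucc 59351039, .ofNat 160531200, .negSucc 155547839, .ofNat 58385280, .negSucc 9387839]),
  (175522643, [.negSucc 701579519, .ofNat 2247859200, .negSucc 2318707919, .ofNat 849570720, .negSucc 137373359]),
  (175523021, [.ofNat 286853760, .negSucc 980067039, .ofNat 1020751840, .negSucc 368690079, .ofNat 59679840]),
  (175523147, [.ofNat 0, .negSucc 1843199, .ofNat 3220320, .negSucc 887999, .ofNat 182880]),
  (175523413, [.negSucc 90763199, .ofNat 338573200, .negSucc 368163039, .ofNat 130578640, .negSucc 21214079]),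
  (175523434, [.ofNat 21404160, .negSucc 54134399, .ofNat 52471680, .negSucc 19605119, .ofNat 3169920]),
  (175524554, [.negSucc 870085439, .ofNat 2519643440, .negSucc 2568569599, .ofNat 939976880, .negSucc 152948639]),
  (175526626, [.ofNat 199851840, .negSucc 710212399, .ofNat 747125120, .negSucc 259632559, .ofNat 41513760]),
  (175544532, [.ofNat 57398400, .negSucc 156470879, .ofNat 152439360, .negSucc 57565919, .ofNat 9265920]),
  (175544595, [.negSucc 725048639, .ofNat 2304852720, .negSucc 2372663759, .ofNat 869456400, .negSucc 140726159]),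
  (175548508, [.ofNat 13968000, .ofNat 46100640, .negSucc 68492159, .ofNat 16594080, .negSucc 2560319]),
  (175548515, [.negSucc 39977279, .ofNat 105919920, .negSucc 103333439, .ofNat 38431920, .negSucc 6278879]),
  (175555298, [.ofNat 98095680, .negSucc 260121839, .ofNat 255069120, .negSucc 96015599, .ofNat 15544800]),
  (175556180, [.ofNat 5990400, .negSucc 17635199, .ofNat 19328640, .negSucc 7343999, .ofNat 1219200]),
  (176532204, [.negSucc 455083199, .ofNat 1364849360, .negSucc 1386760639, .ofNat 496195280, .negSucc 80284319]),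
  (176532316, [.ofNat 82134720, .negSucc 215372879, .ofNat 204454080, .negSucc 77040719, .ofNat 12252960]),
  (176536236, [.ofNat 309841920, .negSucc 965496959, .ofNat 988709280, .negSucc 362880959, .ofNat 58826400]),
  (176536362, [.negSucc 164658239, .ofNat 451221360, .negSucc 438032639, .ofNat 159997680, .negSucc 25786079]),
  (176540499, [.ofNat 162599040, .negSucc 535661599, .ofNat 561789680, .negSucc 199746559, .ofNat 32461200]),
  (176542956, [.negSucc 1952639, .negSucc 3151199, .ofNat 4771200, .negSucc 2344799, .ofNat 365760]),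
  (176543404, [.ofNat 493925760, .negSucc 1474523679, .ofNat 1492016800, .negSucc 538161759, .ofNat 87355680]),
  (176596716, [.ofNat 72659520, .negSucc 251395759, .ofNat 267155120, .negSucc 93134479, .ofNat 14965680]),
  (176600748, [.ofNat 314118720, .negSucc 1026512879, .ofNat 1063437600, .negSucc 390701999, .ofNat 63398400]),
  (176600874, [.ofNat 0, .negSucc 1843199, .ofNat 3220320, .negSucc 887999, .ofNat 182880]),
  (176604885, [.negSucc 25827839, .ofNat 74753280, .negSucc 73278719, .ofNat 27555840, .negSucc 4389119]),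
  (176790252, [.ofNat 155583360, .negSucc 538497439, .ofNat 555171200, .negSucc 206721439, .ofNat 33406080]),
  (176790364, [.negSucc 293639039, .ofNat 942915360, .negSucc 972135359, .ofNat 354944160, .negSucc 57546239]),
  (176798477, [.ofNat 15690240, .negSucc 40106879, .ofNat 45694080, .negSucc 18591359, .ofNat 3169920]),
  (176798540, [.ofNat 0, .negSucc 1843199, .ofNat 3220320, .negSucc 887999, .ofNat 182880]),
  (176804588, [.ofNat 0, .ofNat 69120, .ofNat 218880, .negSucc 80639]),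
  (176831307, [.negSucc 18564479, .ofNat 58453920, .negSucc 58775039, .ofNat 23970720, .negSucc 3779519]),
  (176838251, [.ofNat 0, .ofNat 69120, .ofNat 218880, .negSucc 80639]),
  (176838475, [.ofNat 0, .ofNat 69120, .ofNat 218880, .negSucc 80639]),
  (176854764, [.negSucc 39977279, .ofNat 105919920, .negSucc 103333439, .ofNat 38431920, .negSucc 6278879]),
  (176862044, [.ofNat 0, .negSucc 1866239, .ofNat 2132160, .negSucc 493439, .ofNat 121920]),
  (176863563, [.negSucc 57209759, .ofNat 164352600, .negSucc 158577599, .ofNat 55652760, .negSucc 8808719]),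
  (176863836, [.ofNat 142292160, .negSucc 463249359, .ofNat 478385440, .negSucc 174378639, .ofNat 28041600]),
  (176867147, [.negSucc 20652479, .ofNat 49601040, .negSucc 45657599, .ofNat 16525200, .negSucc 2621279]),
  (176999251, [.negSucc 390242879, .ofNat 1296477040, .negSucc 1347384639, .ofNat 494443120, .negSucc 79796639]),
  (176999258, [.negSucc 138208319, .ofNat 441076080, .negSucc 461862719, .ofNat 171112560, .negSucc 27980639]),
  (177002842, [.ofNat 99794880, .negSucc 354495759, .ofNat 370341280, .negSucc 133742799, .ofNat 21336000]),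
  (177027853, [.ofNat 455083200, .negSucc 1367429839, .ofNat 1389755840, .negSucc 496080079, .ofNat 80284320]),
  (177027916, [.ofNat 14549760, .negSucc 28553279, .ofNat 28233600, .negSucc 11488319, .ofNat 1950720]),
  (177035084, [.negSucc 20188799, .ofNat 62287200, .negSucc 60785279, .ofNat 22362720, .negSucc 3535679])]

/-- data -/
def lV7x3 : List (ℕ × List ℤ) := [(177035469, [.negSucc 51796799, .ofNat 167070000, .negSucc 171207359, .ofNat 64657200, .negSucc 10667999]),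
  (177035875, [.ofNat 1834560, .ofNat 15906960, .negSucc 26412479, .ofNat 10135440, .negSucc 1645919]),
  (177056525, [.ofNat 320592960, .negSucc 1029029999, .ofNat 1065257760, .negSucc 390339119, .ofNat 63398400]),
  (177066850, [.negSucc 110321279, .ofNat 296374880, .negSucc 293560639, .ofNat 104035040, .negSucc 17068799]),
  (177085274, [.ofNat 235883520, .negSucc 756962559, .ofNat 774430720, .negSucc 277757439, .ofNat 44622720]),
  (177100107, [.ofNat 0, .ofNat 783360, .negSucc 645119]),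
  (177101402, [.negSucc 77448959, .ofNat 280203840, .negSucc 298219679, .ofNat 111004800, .negSucc 18348959]),
  (177101514, [.ofNat 0, .ofNat 2903040, .negSucc 3580799, .ofNat 2522880, .negSucc 243839]),
  (177130074, [.ofNat 291349440, .negSucc 901745679, .ofNat 936992320, .negSucc 326932239, .ofNat 52852320]),
  (177132244, [.ofNat 21764160, .negSucc 47072879, .ofNat 44224320, .negSucc 16276079, .ofNat 2621280]),
  (177257173, [.ofNat 11301120, .negSucc 43473599, .ofNat 47109120, .negSucc 19028159, .ofNat 3169920]),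
  (177264341, [.ofNat 3064320, .negSucc 18944639, .ofNat 20094720, .negSucc 6341759, .ofNat 975360]),
  (177314461, [.ofNat 528497280, .negSucc 1717810399, .ofNat 1783873760, .negSucc 655360159, .ofNat 106253280]),
  (177314517, [.ofNat 42615360, .negSucc 117208559, .ofNat 119088000, .negSucc 44972399, .ofNat 7376160]),
  (177314650, [.ofNat 230431680, .negSucc 770895119, .ofNat 791137440, .negSucc 299666639, .ofNat 48524160]),
  (177318507, [.negSucc 11560319, .ofNat 15071520, .negSucc 6515519, .ofNat 2224800, .negSucc 365759]),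
  (177328853, [.negSucc 138208319, .ofNat 441076080, .negSucc 461862719, .ofNat 171112560, .negSucc 27980639]),
  (177330778, [.negSucc 45616319, .ofNat 122480080, .negSucc 138786399, .ofNat 42591760, .negSucc 6949439]),
  (177379029, [.ofNat 1232210880, .negSucc 3871355279, .ofNat 3975727200, .negSucc 1458348239, .ofNat 236159040]),
  (177383019, [.ofNat 349655040, .negSucc 1121635839, .ofNat 1159237120, .negSucc 420052479, .ofNat 68031360]),
  (177386827, [.negSucc 364481279, .ofNat 1210025920, .negSucc 1255862079, .ofNat 458466880, .negSucc 74005439]),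
  (177387093, [.negSucc 313246079, .ofNat 934414240, .negSucc 939959199, .ofNat 341678560, .negSucc 55168799]),
  (177388171, [.negSucc 110321279, .ofNat 296374880, .negSucc 293560639, .ofNat 104035040, .negSucc 17068799]),
  (177518434, [.ofNat 19825920, .negSucc 42352319, .ofNat 48650880, .negSucc 19389119, .ofNat 3413760]),
  (177522389, [.negSucc 67812479, .ofNat 189074400, .negSucc 184511039, .ofNat 69690720, .negSucc 11216639]),
  (177551117, [.ofNat 5279040, .negSucc 5609519, .ofNat 4186560, .negSucc 1293359, .ofNat 182880]),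
  (177551565, [.ofNat 567599040, .negSucc 1651403919, .ofNat 1664092000, .negSucc 600851919, .ofNat 97048320]),
  (177582890, [.negSucc 414512639, .ofNat 1240869120, .negSucc 1251428639, .ofNat 456955200, .negSucc 73822559]),
  (177582946, [.ofNat 19825920, .negSucc 42352319, .ofNat 48650880, .negSucc 19389119, .ofNat 3413760]),
  (177583373, [.negSucc 308090879, .ofNat 1010887680, .negSucc 1039051679, .ofNat 379606080, .negSucc 61386719]),
  (177583436, [.negSucc 241459199, .ofNat 775117120, .negSucc 796282479, .ofNat 297567520, .negSucc 48432719]),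
  (177587797, [.ofNat 155583360, .negSucc 537161119, .ofNat 552343040, .negSucc 205208479, .ofNat 33162240]),
  (177624778, [.negSucc 20828159, .ofNat 52419840, .negSucc 49858559, .ofNat 18266880, .negSucc 2926079]),
  (177641123, [.ofNat 15773760, .negSucc 31188719, .ofNat 26881920, .negSucc 9767279, .ofNat 1524000]),
  (177649754, [.ofNat 91618560, .negSucc 322996799, .ofNat 343084320, .negSucc 127493759, .ofNat 20909280]),
  (178636957, [.ofNat 292651200, .negSucc 974668239, .ofNat 1012186720, .negSucc 365858319, .ofNat 59253120]),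
  (178641171, [.negSucc 144947519, .ofNat 433713200, .negSucc 436443199, .ofNat 166756400, .negSucc 26883359]),
  (178661100, [.negSucc 435358079, .ofNat 1390603360, .negSucc 1418596719, .ofNat 522253120, .negSucc 84399119]),
  (178899275, [.ofNat 301795200, .negSucc 905464479, .ofNat 920226400, .negSucc 339553119, .ofNat 55046880]),
  (179091754, [.ofNat 19932480, .negSucc 83329199, .ofNat 90738240, .negSucc 35536559, .ofNat 5791200]),
  (179099923, [.ofNat 28134720, .negSucc 96335599, .ofNat 98390960, .negSucc 27454159, .ofNat 4236720]),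
  (179124493, [.ofNat 56643840, .negSucc 140744639, .ofNat 140371200, .negSucc 51975359, .ofNat 8534400]),
  (179128427, [.ofNat 290459520, .negSucc 899952799, .ofNat 927245600, .negSucc 330737119, .ofNat 53583840]),
  (179153165, [.ofNat 225299520, .negSucc 693379439, .ofNat 702779040, .negSucc 259805999, .ofNat 42184320]),
  (179185995, [.negSucc 52869599, .ofNat 187211080, .negSucc 194418879, .ofNat 70022920, .negSucc 11308079]),
  (179189005, [.negSucc 208647359, .ofNat 592656080, .negSucc 585521599, .ofNat 218160080, .negSucc 35173919]),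
  (179192533, [.negSucc 8063999, .ofNat 9402240, .negSucc 4541759, .ofNat 2269440, .negSucc 487679]),
  (179194458, [.negSucc 687366719, .ofNat 2035805680, .negSucc 2067021279, .ofNat 741594160, .negSucc 119481599]),
  (179353442, [.negSucc 77448959, .ofNat 280203840, .negSucc 298219679, .ofNat 111004800, .negSucc 18348959]),
  (179410786, [.ofNat 0, .ofNat 783360, .negSucc 645119]),
  (179443413, [.ofNat 379644480, .negSucc 1095995439, .ofNat 1099871920, .negSucc 395913999, .ofNat 63733680]),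
  (179488458, [.ofNat 37238400, .negSucc 104669279, .ofNat 110294400, .negSucc 43056479, .ofNat 7193280])]

/-- the sum of the part -/
def lV7 : List (ℕ × List ℤ) := lV7x0 ++ (lV7x1 ++ (lV7x2 ++ (lV7x3)))

theorem okV7 : dV7.all (rok tbF 20) = true := by decide +kernel

theorem sumV7 : aeq (fz (sumT tbF dV7)) lV7 = true := by decide +kernel

end Pool.Agent.H.MP_e16c79_al.IS
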