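import Pool.Agent.H.MP_e16c79_al.IS.BTabE

/-!
# MP_e16c79_al: certificate V, part 8
-/

set_option autoImplicit false

namespace Pool.Agent.H.MP_e16c79_al.IS

/-- data -/
def dV8x0 : RT := (.nd (.nd (.nd (.lf ⟨[.negSucc 3180239, .negSucc 28992019, .ofNat 42936440, .negSucc 14314339, .ofNat 2468880], (.tr (.lf 17) (.lf 18) (.tr (.dx 0 (.tr (.lf 5) (.tw (.lf 9) (.lf 13)) (.lf 6))) (.lf 10) (.lf 14))), 0, [2, 2, 2, 2, 38, 38, 38, 38], []⟩)
    (.lf ⟨[.ofNat 39700800, .negSucc 139450799, .ofNat 147892560, .negSucc 54401999, .ofNat 8930640], (.tr (.dx 0 (.tr (.lf 5) (.tw (.lf 9) (.lf 13)) (.lf 6))) (.tr (.lf 10) (.lf 14) (.lf 17)) (.lf 18)), 0, [39, 0, 39, 15, 39, 0, 39, 15], []⟩))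
    (.nd (.lf ⟨[.negSucc 19658879, .ofNat 64645920, .negSucc 66656159, .ofNat 25430880, .negSucc 4145279], (.tr (.lf 14) (.tr (.lf 10) (.dx 0 (.tr (.lf 5) (.tw (.lf 9) (.lf 13)) (.lf 6))) (.lf 17)) (.lf 18)), 0, [3, 3, 3, 3, 4, 4, 4, 4], []⟩)
    (.lf ⟨[.negSucc 21851279, .ofNat 76314940, .negSucc 80455479, .ofNat 30906700, .negSucc 5090159], (.tw (.lf 14) (.tr (.lf 10) (.dx 0 (.tr (.lf 5) (.tw (.lf 9) (.lf 13)) (.lf 6))) (.tw (.lf 17) (.lf 18)))), 0, [3, 3, 3, 3, 3, 3, 3, 3, 4, 4, 4, 4, 4, 4, 4, 4], []⟩)))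
    (.nd (.nd (.lf ⟨[.ofNat 101458080, .negSucc 322980119, .ofNat 333697440, .negSucc 123072599, .ofNat 19903440], (.tw (.lf 14) (.tr (.lf 17) (.tw (.dx 0 (.tr (.lf 5) (.tw (.lf 9) (.lf 13)) (.lf 6))) (.lf 10)) (.lf 18))), 0, [4, 4, 4, 4, 3, 3, 3, 3, 4, 4, 4, 4, 3, 3, 3, 3], []⟩)
    (.lf ⟨[.ofNat 8064000, .negSucc 15556799, .ofNat 12809280, .negSucc 4881599, .ofNat 792480], (.tr (.lf 17) (.dx 0 (.tr (.lf 5) (.tw (.lf 9) (.lf 13)) (.lf 6))) (.tr (.lf 10) (.lf 18) (.lf 14))), 0, [2, 2, 2, 2, 2, 2, 2, 2], []⟩))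
    (.nd (.lf ⟨[.negSucc 25751519, .ofNat 67626120, .negSucc 63680879, .ofNat 24012840, .negSucc 3840479], (.tw (.dx 0 (.tr (.lf 5) (.lf 9) (.tr (.lf 13) (.tr (.lf 6) (.lf 10) (.lf 17)) (.lf 14)))) (.lf 18)), 0, [0, 0, 0, 0, 3, 3, 3, 3], []⟩)
    (.lf ⟨[.ofNat 66580560, .negSucc 208274699, .ofNat 210804960, .negSucc 83094059, .ofNat 13487400], (.tr (.lf 9) (.lf 10) (.tr (.dx 0 (.tr (.lf 5) (.tw (.lf 13) (.lf 17)) (.lf 6))) (.lf 14) (.lf 18))), 0, [12, 12, 12, 12, 28, 28, 28, 28], []⟩))))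

/-- data -/
def dV8x1 : RT := (.nd (.nd (.nd (.lf ⟨[.negSucc 83367359, .ofNat 235338640, .negSucc 230303919, .ofNat 80256880, .negSucc 12588239], (.tr (.dx 0 (.tr (.lf 5) (.tw (.lf 13) (.lf 17)) (.lf 6))) (.tr (.lf 9) (.lf 18) (.lf 14)) (.lf 10)), 0, [7, 29, 7, 29, 7, 29, 7, 29], []⟩)
    (.lf ⟨[.ofNat 161460000, .negSucc 516980599, .ofNat 533107520, .negSucc 187757239, .ofNat 30266640], (.tr (.dx 0 (.tr (.lf 5) (.tw (.lf 13) (.lf 17)) (.lf 6))) (.lf 14) (.tr (.lf 9) (.lf 10) (.lf 18))), 0, [15, 29, 15, 29, 15, 29, 15, 29], []⟩))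
    (.nd (.lf ⟨[.ofNat 21597120, .negSucc 74995599, .ofNat 81718240, .negSucc 23699919, .ofNat 3718560], (.tr (.lf 9) (.tr (.lf 10) (.dx 0 (.tr (.lf 5) (.tw (.lf 13) (.lf 17)) (.lf 6))) (.lf 14)) (.lf 18)), 0, [12, 12, 12, 12, 15, 15, 15, 15], []⟩)
    (.lf ⟨[.ofNat 41683680, .negSucc 117669319, .ofNat 115151960, .negSucc 40128439, .ofNat 6294120], (.tw (.dx 0 (.tr (.lf 5) (.tw (.lf 13) (.lf 17)) (.lf 6))) (.tr (.lf 9) (.tw (.lf 14) (.lf 18)) (.lf 10))), 0, [29, 7, 29, 7, 29, 7, 29, 7, 29, 7, 29, 7, 29, 7, 29, 7], []⟩)))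
    (.nd (.nd (.lf ⟨[.negSucc 65368079, .ofNat 196942300, .negSucc 200629599, .ofNat 71245180, .negSucc 11475719], (.tw (.dx 0 (.tr (.lf 5) (.tw (.lf 13) (.lf 17)) (.lf 6))) (.tr (.lf 14) (.tw (.lf 9) (.lf 10)) (.lf 18))), 0, [15, 15, 37, 37, 15, 15, 37, 37, 15, 15, 37, 37, 15, 15, 37, 37], []⟩)
    (.lf ⟨[.ofNat 86448960, .negSucc 288113199, .ofNat 299451040, .negSucc 107012079, .ofNat 17190720], (.tr (.dx 0 (.tr (.lf 5) (.tw (.lf 13) (.lf 17)) (.lf 6))) (.tr (.lf 9) (.lf 10) (.lf 18)) (.lf 14)), 0, [0, 37, 0, 37, 0, 37, 0, 37], []⟩))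
    (.nd (.lf ⟨[.negSucc 141224399, .ofNat 447373740, .negSucc 457677719, .ofNat 165215100, .negSucc 26578559], (.tw (.lf 18) (.tr (.tw (.lf 9) (.lf 10)) (.dx 0 (.tr (.lf 5) (.tw (.lf 13) (.lf 17)) (.lf 6))) (.lf 14))), 0, [14, 14, 14, 14, 14, 14, 14, 14, 13, 13, 13, 13, 13, 13, 13, 13], []⟩)
    (.lf ⟨[.ofNat 112671360, .negSucc 353655839, .ofNat 359541600, .negSucc 126447839, .ofNat 20116800], (.tr (.lf 14) (.tr (.dx 0 (.tr (.lf 5) (.tw (.lf 13) (.lf 17)) (.lf 6))) (.lf 9) (.lf 10)) (.lf 18)), 0, [15, 15, 15, 15, 36, 36, 36, 36], []⟩))))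

/-- data -/
def dV8x2 : RT := (.nd (.nd (.nd (.lf ⟨[.ofNat 7113600, .negSucc 63042719, .ofNat 77887920, .negSucc 29823359, .ofNat 5090160], (.tr (.lf 14) (.lf 9) (.tr (.lf 10) (.dx 0 (.tr (.lf 5) (.tw (.lf 13) (.lf 17)) (.lf 6))) (.lf 18))), 0, [36, 36, 36, 36, 13, 13, 13, 13], []⟩)
    (.lf ⟨[.negSucc 3556799, .ofNat 31060560, .negSucc 38138879, .ofNat 14689680, .negSucc 2499359], (.tw (.lf 14) (.tr (.lf 9) (.tw (.dx 0 (.tr (.lf 5) (.tw (.lf 13) (.lf 17)) (.lf 6))) (.lf 18)) (.lf 10))), 0, [36, 36, 36, 36, 13, 13, 13, 13, 36, 36, 36, 36, 13, 13, 13, 13], []⟩))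
    (.nd (.lf ⟨[.ofNat 55560960, .negSucc 137595519, .ofNat 125118400, .negSucc 39245439, .ofNat 5791200], (.tr (.lf 9) (.lf 10) (.tr (.dx 0 (.tr (.tw (.lf 5) (.lf 13)) (.lf 17) (.lf 6))) (.lf 14) (.lf 18))), 0, [12, 12, 12, 12, 28, 28, 28, 28], []⟩)
    (.lf ⟨[.negSucc 11926079, .ofNat 32070000, .negSucc 31789439, .ofNat 12407280, .negSucc 2011679], (.tr (.dx 0 (.tr (.tw (.lf 5) (.lf 13)) (.lf 17) (.lf 6))) (.lf 14) (.tr (.lf 9) (.lf 10) (.lf 18))), 0, [15, 29, 15, 29, 15, 29, 15, 29], []⟩)))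
    (.nd (.nd (.lf ⟨[.ofNat 0, .negSucc 573119, .ofNat 713760, .negSucc 397439, .ofNat 60960], (.tr (.lf 9) (.lf 5) (.tr (.lf 13) (.tr (.dx 0 .on) (.tr (.lf 17) (.lf 10) (.lf 18)) (.lf 6)) (.lf 14))), 0, [19, 19, 23, 23, 19, 19, 23, 23], [19, 19, 23, 23, 19, 19, 23, 23]⟩)
    (.lf ⟨[.ofNat 0, .negSucc 335519, .negSucc 2268839, .ofNat 3416160, .negSucc 1479719, .ofNat 274320], (.tr (.lf 5) (.tr (.lf 19) (.dx 0 (.lf 9)) (.tr (.lf 13) (.lf 6) (.lf 14))) (.lf 10)), 0, [16, 16, 24, 24], [16, 16, 24, 24]⟩))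
    (.nd (.lf ⟨[.ofNat 0, .ofNat 2672640, .negSucc 3588479, .ofNat 1662720, .negSucc 243839], (.tr (.lf 5) (.lf 19) (.tr (.dx 0 (.lf 9)) (.tr (.lf 13) (.lf 6) (.lf 14)) (.lf 10))), 0, [16, 16, 21, 21], [16, 16, 11, 11]⟩)
    (.lf ⟨[.ofNat 0, .negSucc 6379199, .ofNat 31784400, .negSucc 33964799, .ofNat 13350480, .negSucc 2133599], (.tr (.lf 10) (.lf 19) (.tr (.lf 5) (.dx 0 (.lf 9)) (.tr (.lf 13) (.lf 6) (.lf 14)))), 0, [19, 19, 28, 28], [19, 19, 33, 33]⟩))))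

/-- data -/
def dV8x3 : RT := (.nd (.nd (.nd (.lf ⟨[.ofNat 0, .ofNat 335520, .ofNat 2268840, .negSucc 3416159, .ofNat 1479720, .negSucc 274319], (.tr (.dx 0 (.lf 5)) (.lf 6) (.tr (.lf 9) (.lf 19) (.tr (.lf 13) (.lf 10) (.lf 14)))), 0, [0, 0, 0, 0], [37, 37, 29, 29]⟩)
    (.lf ⟨[.ofNat 0, .negSucc 335519, .negSucc 2268839, .ofNat 3416160, .negSucc 1479719, .ofNat 274320], (.tr (.dx 0 (.lf 5)) (.tr (.lf 6) (.tr (.lf 13) (.lf 9) (.lf 14)) (.lf 19)) (.lf 10)), 0, [0, 0, 0, 0], [29, 29, 30, 30]⟩))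
    (.nd (.lf ⟨[.ofNat 0, .ofNat 335520, .ofNat 2268840, .negSucc 3416159, .ofNat 1479720, .negSucc 274319], (.tr (.dx 0 (.lf 5)) (.lf 19) (.tr (.lf 9) (.lf 6) (.tr (.lf 13) (.lf 10) (.lf 14)))), 0, [37, 37, 0, 0], [37, 37, 30, 30]⟩)
    (.lf ⟨[.ofNat 0, .ofNat 0, .negSucc 5644799, .ofNat 6711360, .negSucc 2017919, .ofNat 365760], (.tr (.lf 10) (.lf 19) (.tr (.dx 0 (.lf 9)) (.tr (.lf 13) (.lf 5) (.lf 14)) (.lf 6))), 0, [25, 25, 21, 21], [25, 25, 11, 11]⟩)))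
    (.nd (.nd (.lf ⟨[.ofNat 0, .negSucc 77349599, .ofNat 261416040, .negSucc 275170079, .ofNat 105485160, .negSucc 17221199], (.tr (.lf 19) (.dx 0 (.lf 13)) (.tr (.lf 9) (.lf 14) (.tr (.lf 5) (.lf 10) (.lf 6)))), 0, [9, 9, 7, 7], [9, 9, 2, 2]⟩)
    (.lf ⟨[.ofNat 0, .ofNat 34932960, .negSucc 131579879, .ofNat 141061920, .negSucc 54710759, .ofNat 8930640], (.tr (.lf 5) (.lf 14) (.tr (.lf 19) (.dx 0 (.lf 13)) (.tr (.lf 9) (.lf 6) (.lf 10)))), 0, [35, 35, 24, 24], [35, 35, 24, 24]⟩))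
    (.nd (.lf ⟨[.ofNat 0, .ofNat 573120, .negSucc 713759, .ofNat 397440, .negSucc 60959], (.tr (.lf 6) (.tr (.lf 17) (.tr (.dx 0 (.lf 5)) (.tw (.lf 9) (.lf 10)) (.lf 13)) (.lf 18)) (.lf 14)), 0, [5, 5, 5, 5, 5, 5, 5, 5], [5, 5, 5, 5, 5, 5, 5, 5]⟩)
    (.lf ⟨[.ofNat 0, .negSucc 3463199, .ofNat 7874520, .negSucc 6832079, .ofNat 2413560, .negSucc 365759], (.tr (.lf 9) (.tr (.lf 5) (.tr (.dx 0 .on) (.tw (.lf 13) (.lf 14)) (.lf 10)) (.lf 6)) (.lf 19)), 0, [34, 34, 34, 34, 34, 34, 34, 34], [34, 34, 34, 34, 34, 34, 34, 34]⟩))))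

/-- data -/
def dV8x4 : RT := (.nd (.nd (.nd (.lf ⟨[.negSucc 38469599, .ofNat 124366920, .negSucc 130067039, .ofNat 47238600, .negSucc 7711439], (.tr (.tw (.dx 0 (.tr (.lf 5) (.tr (.lf 9) (.lf 13) (.lf 17)) (.lf 6))) (.lf 10)) (.lf 18) (.lf 14)), 0, [0, 5, 0, 5, 5, 5, 5, 5], []⟩)
    (.lf ⟨[.ofNat 0, .ofNat 2050560, .negSucc 2510879, .ofNat 1012800, .negSucc 182879], (.tr (.dx 0 (.tr (.lf 5) (.tr (.lf 9) (.lf 13) (.lf 17)) (.lf 6))) (.lf 10) (.tw (.lf 14) (.lf 18))), 0, [0, 0, 39, 5, 0, 0, 39, 5], []⟩))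
    (.nd (.lf ⟨[.ofNat 93067200, .negSucc 293780879, .ofNat 300466560, .negSucc 112383119, .ofNat 18348960], (.tr (.tw (.dx 0 (.tr (.lf 5) (.tr (.lf 13) (.lf 9) (.lf 17)) (.lf 6))) (.lf 18)) (.lf 14) (.lf 10)), 0, [7, 7, 7, 7, 2, 2, 2, 2], []⟩)
    (.lf ⟨[.negSucc 24922079, .ofNat 82328520, .negSucc 85015679, .ofNat 32762760, .negSucc 5455919], (.tr (.dx 0 (.tr (.lf 5) (.tr (.lf 13) (.lf 9) (.lf 17)) (.lf 6))) (.tw (.lf 14) (.lf 18)) (.lf 10)), 0, [0, 7, 29, 7, 0, 7, 29, 7], []⟩)))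
    (.nd (.nd (.lf ⟨[.ofNat 0, .negSucc 1370879, .ofNat 1684800, .negSucc 791039, .ofNat 121920], (.tr (.dx 0 (.tr (.lf 5) (.tr (.lf 13) (.lf 9) (.lf 17)) (.lf 6))) (.lf 14) (.tw (.lf 10) (.lf 18))), 0, [15, 0, 15, 29, 15, 0, 15, 29], []⟩)
    (.lf ⟨[.negSucc 93067199, .ofNat 293279760, .negSucc 299765759, .ofNat 112438800, .negSucc 18348959], (.tr (.lf 10) (.tw (.dx 0 (.tr (.lf 5) (.tr (.lf 13) (.lf 9) (.lf 17)) (.lf 6))) (.lf 14)) (.lf 18)), 0, [12, 12, 12, 12, 3, 3, 3, 3], []⟩))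
    (.nd (.lf ⟨[.ofNat 0, .ofNat 1549440, .negSucc 1810079, .ofNat 1068480, .negSucc 182879], (.tr (.tw (.dx 0 (.tr (.lf 5) (.tr (.lf 13) (.lf 9) (.lf 17)) (.lf 6))) (.lf 10)) (.lf 14) (.lf 18)), 0, [39, 39, 39, 39, 12, 12, 12, 12], []⟩)
    (.lf ⟨[.ofNat 0, .ofNat 501120, .negSucc 700799, .negSucc 55679], (.tr (.tw (.lf 10) (.lf 14)) (.dx 0 (.tr (.lf 5) (.tr (.lf 13) (.lf 9) (.lf 17)) (.lf 6))) (.lf 18)), 0, [3, 3, 3, 3, 3, 3, 3, 3], []⟩))))

/-- data -/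
def dV8x5 : RT := (.nd (.nd (.nd (.lf ⟨[.ofNat 0, .negSucc 2050559, .ofNat 2510880, .negSucc 1012799, .ofNat 182880], (.tr (.dx 0 (.tr (.lf 5) (.tr (.lf 13) (.lf 9) (.lf 17)) (.lf 6))) (.lf 10) (.tw (.lf 14) (.lf 18))), 0, [39, 0, 39, 5, 39, 0, 39, 5], []⟩)
    (.lf ⟨[.ofNat 0, .negSucc 967679, .ofNat 910560, .negSucc 638399, .ofNat 60960], (.tr (.lf 10) (.dx 0 (.tr (.lf 5) (.tr (.lf 13) (.lf 9) (.lf 17)) (.lf 6))) (.tw (.lf 14) (.lf 18))), 0, [12, 5, 12, 5, 12, 5, 12, 5], []⟩))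
    (.nd (.lf ⟨[.negSucc 1231199, .ofNat 15083880, .negSucc 17825519, .ofNat 7163400, .negSucc 1219199], (.tr (.lf 10) (.tw (.dx 0 (.tr (.lf 5) (.tr (.lf 9) (.lf 13) (.lf 17)) (.lf 6))) (.lf 18)) (.lf 14)), 0, [5, 5, 5, 5, 28, 23, 28, 23], []⟩)
    (.lf ⟨[.negSucc 24667199, .ofNat 64911600, .negSucc 63965519, .ofNat 23876880, .negSucc 3992879], (.tr (.tw (.dx 0 (.tr (.lf 5) (.tr (.lf 9) (.lf 13) (.lf 17)) (.lf 6))) (.lf 14)) (.lf 18) (.lf 10)), 0, [0, 29, 0, 29, 22, 29, 22, 29], []⟩)))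
    (.nd (.nd (.lf ⟨[.ofNat 0, .negSucc 2551679, .ofNat 3215760, .negSucc 1151519, .ofNat 213360], (.tr (.dx 0 (.tr (.lf 5) (.tr (.lf 9) (.lf 13) (.lf 17)) (.lf 6))) (.lf 14) (.tw (.lf 10) (.lf 18))), 0, [0, 0, 15, 29, 0, 0, 15, 29], []⟩)
    (.lf ⟨[.ofNat 24667200, .negSucc 62359919, .ofNat 60749760, .negSucc 22725359, .ofNat 3779520], (.tr (.dx 0 (.tr (.lf 5) (.tr (.lf 9) (.lf 13) (.lf 17)) (.lf 6))) (.tw (.lf 14) (.lf 18)) (.lf 10)), 0, [0, 0, 29, 7, 0, 0, 29, 7], []⟩))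
    (.nd (.lf ⟨[.negSucc 29930399, .ofNat 85050840, .negSucc 84395519, .ofNat 31810200, .negSucc 5212079], (.tr (.tw (.dx 0 (.tr (.lf 5) (.tr (.lf 9) (.lf 13) (.lf 17)) (.lf 6))) (.lf 18)) (.lf 14) (.lf 10)), 0, [0, 7, 0, 7, 2, 2, 2, 2], []⟩)
    (.lf ⟨[.ofNat 0, .ofNat 1618560, .negSucc 2149679, .ofNat 904800, .negSucc 152399], (.tr (.lf 10) (.dx 0 (.tr (.lf 5) (.tr (.lf 9) (.lf 17) (.lf 13)) (.lf 6))) (.tw (.lf 14) (.lf 18))), 0, [12, 5, 12, 5, 12, 5, 12, 5], []⟩))))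

/-- data -/
def dV8x6 : RT := (.nd (.nd (.nd (.lf ⟨[.ofNat 0, .negSucc 1618559, .ofNat 2149680, .negSucc 904799, .ofNat 152400], (.tr (.lf 10) (.tw (.dx 0 (.tr (.lf 5) (.tr (.lf 9) (.lf 17) (.lf 13)) (.lf 6))) (.lf 14)) (.lf 18)), 0, [12, 12, 12, 12, 3, 3, 3, 3], []⟩)
    (.lf ⟨[.ofNat 0, .ofNat 1618560, .negSucc 2149679, .ofNat 904800, .negSucc 152399], (.tr (.tw (.dx 0 (.tr (.lf 5) (.tr (.lf 9) (.lf 17) (.lf 13)) (.lf 6))) (.lf 18)) (.lf 14) (.lf 10)), 0, [7, 7, 7, 7, 2, 2, 2, 2], []⟩))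
    (.nd (.lf ⟨[.ofNat 0, .negSucc 947519, .ofNat 1197120, .negSucc 287039, .ofNat 60960], (.tr (.dx 0 (.tr (.lf 5) (.tr (.lf 9) (.lf 17) (.lf 13)) (.lf 6))) (.lf 18) (.tw (.lf 10) (.lf 14))), 0, [0, 7, 0, 7, 0, 7, 0, 7], []⟩)
    (.lf ⟨[.ofNat 0, .ofNat 613440, .negSucc 1048319, .ofNat 87360, .negSucc 60959], (.tr (.tw (.dx 0 (.tr (.lf 5) (.tr (.lf 9) (.lf 17) (.lf 13)) (.lf 6))) (.lf 18)) (.lf 10) (.lf 14)), 0, [0, 0, 0, 0, 2, 2, 2, 2], []⟩)))
    (.nd (.nd (.lf ⟨[.ofNat 0, .ofNat 685440, .negSucc 1305599, .ofNat 395520, .negSucc 121919], (.tr (.tw (.lf 10) (.lf 18)) (.dx 0 (.tr (.lf 5) (.tr (.lf 9) (.lf 13) (.lf 17)) (.lf 6))) (.lf 14)), 0, [28, 23, 28, 23, 14, 14, 14, 14], []⟩)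
    (.lf ⟨[.negSucc 24922079, .ofNat 80957640, .negSucc 83330879, .ofNat 31971720, .negSucc 5333999], (.tr (.lf 14) (.tw (.dx 0 (.tr (.lf 5) (.tr (.lf 9) (.lf 17) (.lf 13)) (.lf 6))) (.lf 10)) (.lf 18)), 0, [15, 15, 15, 15, 3, 3, 3, 3], []⟩))
    (.nd (.lf ⟨[.ofNat 24922080, .negSucc 80957639, .ofNat 83330880, .negSucc 31971719, .ofNat 5334000], (.tr (.tw (.dx 0 (.tr (.lf 5) (.tr (.lf 9) (.lf 17) (.lf 13)) (.lf 6))) (.lf 14)) (.lf 10) (.lf 18)), 0, [0, 15, 0, 15, 15, 15, 15, 15], []⟩)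
    (.lf ⟨[.negSucc 21764159, .ofNat 47948400, .negSucc 45217439, .ofNat 16693680, .negSucc 2682239], (.tr (.dx 0 (.tr (.lf 5) (.lf 13) (.tr (.tw (.lf 9) (.lf 10)) (.lf 6) (.lf 17)))) (.lf 14) (.lf 18)), 0, [0, 0, 0, 0, 20, 20, 39, 39], []⟩))))

/-- data -/
def dV8x7 : RT := (.nd (.nd (.nd (.lf ⟨[.ofNat 168736320, .negSucc 504393199, .ofNat 510255440, .negSucc 186098959, .ofNat 30144720], (.tr (.dx 0 (.tr (.lf 5) (.tr (.lf 6) (.tw (.lf 9) (.lf 10)) (.lf 13)) (.lf 17))) (.lf 14) (.lf 18)), 0, [0, 0, 0, 0, 39, 39, 30, 30], []⟩)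
    (.lf ⟨[.negSucc 174559679, .ofNat 518600720, .negSucc 521362639, .ofNat 190322480, .negSucc 30754319], (.tr (.dx 0 (.tr (.lf 17) (.lf 13) (.tr (.tw (.lf 5) (.lf 6)) (.lf 9) (.lf 10)))) (.lf 14) (.lf 18)), 0, [30, 30, 30, 30, 0, 0, 20, 20], []⟩))
    (.nd (.lf ⟨[.ofNat 174168000, .negSucc 518278159, .ofNat 521362640, .negSucc 190322479, .ofNat 30754320], (.tr (.dx 0 (.tr (.lf 9) (.lf 10) (.tr (.tw (.lf 5) (.lf 6)) (.lf 13) (.lf 17)))) (.lf 14) (.lf 18)), 0, [20, 20, 20, 20, 0, 0, 30, 30], []⟩)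
    (.lf ⟨[.ofNat 0, .ofNat 725760, .negSucc 895199, .ofNat 630720, .negSucc 60959], (.tr (.dx 0 (.tw (.lf 5) (.tr (.lf 9) (.tr (.lf 6) (.lf 13) (.lf 17)) (.lf 10)))) (.lf 18) (.lf 14)), 0, [0, 5, 0, 5, 5, 5, 5, 5], []⟩)))
    (.nd (.nd (.lf ⟨[.ofNat 0, .negSucc 3225599, .ofNat 3676800, .negSucc 1683839, .ofNat 243840], (.tr (.dx 0 (.tw (.lf 9) (.tr (.lf 5) (.tr (.lf 10) (.lf 17) (.lf 13)) (.lf 6)))) (.lf 18) (.lf 14)), 0, [5, 5, 5, 5, 5, 5, 5, 5], []⟩)
    (.lf ⟨[.negSucc 16765199, .ofNat 43011900, .negSucc 41634239, .ofNat 15652380, .negSucc 2514599], (.tr (.lf 9) (.lf 6) (.tr (.lf 17) (.tr (.lf 13) (.tw (.dx 0 (.lf 5)) (.lf 10)) (.lf 14)) (.lf 18))), 0, [39, 34, 39, 34, 39, 34, 39, 34], [39, 34, 39, 34, 39, 34, 39, 34]⟩))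
    (.nd (.lf ⟨[.ofNat 33530400, .negSucc 84364919, .ofNat 81307200, .negSucc 30427319, .ofNat 4907280], (.tr (.dx 0 (.tw (.lf 17) (.tr (.lf 18) (.lf 13) (.tr (.lf 5) (.lf 9) (.lf 6))))) (.lf 10) (.lf 14)), 0, [30, 30, 37, 37, 30, 30, 0, 0], []⟩)
    (.lf ⟨[.ofNat 207123840, .negSucc 626096479, .ofNat 638803040, .negSucc 227190559, .ofNat 36697920], (.tr (.dx 0 (.tw (.lf 5) (.tr (.lf 9) (.tr (.lf 6) (.lf 17) (.lf 13)) (.lf 10)))) (.lf 18) (.lf 14)), 0, [0, 0, 0, 0, 5, 5, 5, 5], []⟩))))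

/-- data -/
def dV8x8 : RT := (.nd (.nd (.nd (.lf ⟨[.negSucc 207123839, .ofNat 626796320, .negSucc 639535279, .ofNat 227363840, .negSucc 36728399], (.tr (.dx 0 (.tw (.lf 9) (.tr (.lf 5) (.tr (.lf 10) (.lf 13) (.lf 17)) (.lf 6)))) (.lf 18) (.lf 14)), 0, [5, 5, 5, 5, 0, 5, 0, 5], []⟩)
    (.lf ⟨[.ofNat 205313760, .negSucc 629618759, .ofNat 643251360, .negSucc 236191559, .ofNat 38313360], (.tw (.dx 0 (.tr (.lf 5) (.tr (.lf 9) (.lf 10) (.tr (.lf 13) (.lf 14) (.lf 17))) (.lf 6))) (.lf 18)), 0, [3, 0, 3, 3, 3, 0, 3, 3], []⟩))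
    (.nd (.lf ⟨[.negSucc 29675519, .ofNat 80634240, .negSucc 77987039, .ofNat 29192640, .negSucc 4693919], (.tw (.dx 0 (.tr (.lf 5) (.tr (.lf 9) (.tr (.lf 10) (.lf 17) (.lf 13)) (.lf 14)) (.lf 6))) (.lf 18)), 0, [0, 0, 3, 3, 0, 0, 3, 3], []⟩)
    (.lf ⟨[.negSucc 99745199, .ofNat 307705620, .negSucc 316072079, .ofNat 115984020, .negSucc 18851879], (.tw (.dx 0 (.tr (.lf 5) (.tw (.lf 9) (.tr (.lf 10) (.tw (.lf 13) (.lf 14)) (.lf 17))) (.lf 6))) (.lf 18)), 0, [3, 3, 3, 3, 3, 3, 3, 3, 3, 3, 3, 3, 3, 3, 3, 3], []⟩)))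
    (.nd (.nd (.lf ⟨[.ofNat 26874720, .negSucc 84928679, .ofNat 87480240, .negSucc 32203079, .ofNat 5181600], (.tr (.dx 0 (.tw (.lf 5) (.tr (.lf 17) (.tr (.lf 6) (.lf 13) (.lf 9)) (.lf 18)))) (.lf 10) (.lf 14)), 0, [37, 37, 37, 37, 37, 30, 37, 30], []⟩)
    (.lf ⟨[.ofNat 0, .negSucc 2712959, .negSucc 5458079, .ofNat 15544080, .negSucc 16397759, .ofNat 6376080, .negSucc 1097279], (.tw (.lf 19) (.tr (.lf 5) (.tr (.dx 0 .on) (.tw (.lf 9) (.lf 10)) (.lf 15)) (.lf 6))), 0, [25, 25, 33, 33, 25, 25, 33, 33], [25, 25, 26, 26, 25, 25, 26, 26]⟩))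
    (.nd (.lf ⟨[.ofNat 0, .ofNat 4918320, .negSucc 4753619, .ofNat 1693200, .negSucc 129299, .negSucc 45719], (.tw (.dx 0 (.lf 5)) (.tr (.lf 13) (.tr (.lf 6) (.tw (.lf 9) (.lf 10)) (.lf 19)) (.lf 14))), 0, [0, 0, 0, 0, 0, 0, 0, 0], [10, 10, 19, 19, 10, 10, 19, 19]⟩)
    (.lf ⟨[.ofNat 0, .negSucc 4918319, .ofNat 4753620, .negSucc 1693199, .ofNat 129300, .ofNat 45720], (.tw (.lf 10) (.tr (.lf 5) (.tr (.dx 0 (.lf 9)) (.tw (.lf 13) (.lf 14)) (.lf 19)) (.lf 6))), 0, [34, 34, 34, 34, 34, 34, 34, 34], [34, 34, 33, 33, 34, 34, 33, 33]⟩))))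

/-- data -/
def dV8x9 : RT := (.nd (.nd (.nd (.lf ⟨[.ofNat 0, .ofNat 12185280, .negSucc 82264079, .ofNat 201730080, .negSucc 190889999, .ofNat 71016960, .negSucc 11338559], (.tr (.lf 19) (.lf 5) (.tw (.lf 6) (.tr (.dx 0 .on) (.tw (.lf 9) (.lf 10)) (.lf 15)))), 0, [37, 37, 21, 21, 25, 25, 33, 33], [37, 37, 26, 26, 25, 25, 26, 26]⟩)
    (.lf ⟨[.ofNat 0, .negSucc 1111679, .ofNat 107785440, .negSucc 359666879, .ofNat 377336160, .negSucc 145616639, .ofNat 23896320], (.tr (.lf 19) (.lf 5) (.tr (.lf 6) (.lf 15) (.tr (.dx 0 .on) (.lf 9) (.lf 10)))), 0, [13, 21, 25, 25], [13, 26, 25, 25]⟩))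
    (.nd (.lf ⟨[.ofNat 0, .ofNat 20090160, .negSucc 51604979, .ofNat 48803760, .negSucc 17802419, .ofNat 2819400], (.tw (.dx 0 (.lf 5)) (.tr (.lf 9) (.tr (.tw (.lf 13) (.lf 14)) (.lf 6) (.lf 19)) (.lf 10))), 0, [0, 0, 0, 0, 0, 0, 0, 0], [29, 29, 7, 7, 29, 29, 7, 7]⟩)
    (.lf ⟨[.ofNat 0, .ofNat 18708480, .ofNat 123845760, .negSucc 469811519, .ofNat 512922240, .negSucc 198780479, .ofNat 32918400], (.tr (.lf 19) (.lf 5) (.tr (.lf 6) (.tr (.dx 0 .on) (.lf 9) (.lf 10)) (.lf 15))), 0, [37, 23, 9, 33], [37, 26, 9, 26]⟩)))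
    (.nd (.nd (.lf ⟨[.ofNat 0, .ofNat 555840, .negSucc 53892719, .ofNat 179833440, .negSucc 188668079, .ofNat 72808320, .negSucc 11948159], (.tw (.lf 19) (.tr (.lf 5) (.lf 6) (.tr (.tw (.lf 9) (.lf 10)) (.dx 0 .on) (.lf 15)))), 0, [23, 23, 13, 13, 25, 25, 9, 9], [26, 26, 13, 13, 25, 25, 9, 9]⟩)
    (.lf ⟨[.ofNat 0, .ofNat 7309440, .ofNat 67090080, .negSucc 166540799, .ofNat 156694560, .negSucc 56821439, .ofNat 9022080], (.tr (.lf 5) (.tr (.lf 6) (.tr (.dx 0 .on) (.lf 9) (.lf 10)) (.lf 15)) (.lf 19)), 0, [32, 8, 24, 24], [32, 8, 24, 24]⟩))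
    (.nd (.lf ⟨[.ofNat 0, .ofNat 0, .negSucc 3620159, .ofNat 11810160, .negSucc 12401279, .ofNat 4809840, .negSucc 792479], (.tw (.dx 1 .on) (.tr (.lf 1) (.lf 2) (.tr (.tw (.lf 9) (.lf 10)) (.lf 15) (.lf 19)))), 1, [32, 32, 32, 32, 8, 8, 21, 21], [32, 32, 7, 7, 31, 31, 21, 21]⟩)
    (.lf ⟨[.ofNat 0, .ofNat 11243520, .negSucc 20194559, .ofNat 16136640, .negSucc 5531519, .ofNat 853440], (.tr (.dx 0 (.lf 5)) (.tw (.lf 9) (.tr (.tw (.lf 13) (.lf 14)) (.lf 6) (.lf 19))) (.lf 10)), 0, [0, 0, 0, 0, 29, 29, 7, 7], [29, 29, 7, 7, 29, 29, 7, 7]⟩))))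

/-- data -/
def dV8x10 : RT := (.nd (.nd (.nd (.lf ⟨[.negSucc 472319, .negSucc 88715519, .ofNat 203545680, .ofNat 88201920, .negSucc 303784559, .ofNat 143740320, .negSucc 26456639], (.tr (.lf 5) (.lf 6) (.tr (.lf 15) (.tr (.dx 0 .on) (.lf 9) (.lf 10)) (.lf 19))), 0, [24, 24, 16, 16], [24, 24, 16, 16]⟩)
    (.lf ⟨[.ofNat 0, .ofNat 0, .negSucc 7896959, .ofNat 15347520, .negSucc 13238879, .ofNat 4433280, .negSucc 670559], (.tr (.lf 5) (.lf 6) (.tw (.lf 19) (.tr (.dx 0 .on) (.tw (.lf 9) (.lf 10)) (.lf 15)))), 0, [16, 16, 21, 21, 32, 32, 24, 24], [16, 16, 16, 16, 32, 32, 24, 24]⟩))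
    (.nd (.lf ⟨[.ofNat 0, .negSucc 10218239, .ofNat 22707840, .negSucc 57024239, .ofNat 57103680, .negSucc 22910639, .ofNat 3840480], (.tr (.lf 5) (.lf 6) (.tw (.lf 15) (.tr (.dx 0 .on) (.tw (.lf 9) (.lf 10)) (.lf 19)))), 0, [24, 24, 21, 21, 32, 32, 16, 16], [24, 24, 24, 24, 32, 32, 16, 16]⟩)
    (.lf ⟨[.ofNat 0, .ofNat 6917760, .negSucc 63083999, .ofNat 55505760, .negSucc 13412639, .negSucc 1732319, .ofNat 975360], (.tr (.lf 5) (.lf 6) (.tr (.lf 19) (.dx 0 .on) (.tr (.lf 9) (.lf 10) (.lf 15)))), 0, [16, 7, 8, 24], [16, 7, 8, 24]⟩)))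
    (.nd (.nd (.lf ⟨[.ofNat 0, .ofNat 14549760, .negSucc 9130559, .negSucc 38791679, .ofNat 60527040, .negSucc 25138559, .ofNat 4389120], (.tr (.lf 1) (.lf 2) (.tr (.dx 1 .on) (.lf 15) (.tr (.lf 9) (.lf 10) (.lf 19)))), 1, [0, 0, 20, 30], [0, 29, 20, 30]⟩)
    (.lf ⟨[.ofNat 0, .negSucc 17087039, .ofNat 35172720, .negSucc 40427039, .ofNat 17745840, .negSucc 4105919, .ofNat 243840], (.tr (.lf 9) (.lf 10) (.tw (.lf 15) (.tr (.dx 0 .on) (.lf 19) (.tw (.lf 5) (.lf 6))))), 0, [6, 6, 6, 6, 12, 12, 34, 34], [6, 6, 6, 6, 12, 12, 34, 34]⟩))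
    (.nd (.lf ⟨[.ofNat 0, .ofNat 6007680, .ofNat 5539680, .negSucc 38568479, .ofNat 44254080, .negSucc 16900319, .ofNat 2743200], (.tw (.dx 1 .on) (.tr (.lf 1) (.lf 2) (.tr (.tw (.lf 9) (.lf 10)) (.lf 19) (.lf 15)))), 1, [32, 32, 32, 32, 8, 8, 21, 21], [32, 32, 29, 29, 11, 11, 21, 21]⟩)
    (.lf ⟨[.ofNat 0, .ofNat 0, .negSucc 1097279, .ofNat 17940720, .negSucc 21953279, .ofNat 8958960, .negSucc 1523999], (.tr (.lf 1) (.lf 2) (.tw (.dx 1 .on) (.tr (.tw (.lf 9) (.lf 10)) (.lf 19) (.lf 15)))), 1, [0, 0, 0, 0, 20, 20, 9, 9], [0, 0, 29, 29, 20, 20, 10, 10]⟩))))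

/-- data -/
def dV8x11 : RT := (.nd (.nd (.nd (.lf ⟨[.ofNat 0, .negSucc 29099519, .ofNat 27459840, .ofNat 169077600, .negSucc 252041279, .ofNat 106675680, .negSucc 18531839], (.tr (.lf 1) (.lf 2) (.tr (.lf 15) (.lf 19) (.tr (.dx 1 .on) (.lf 9) (.lf 10)))), 1, [35, 9, 0, 20], [10, 10, 0, 20]⟩)
    (.lf ⟨[.negSucc 7274879, .ofNat 15803040, .negSucc 10275839, .negSucc 2071679, .ofNat 2319360, .negSucc 548639], (.tr (.lf 13) (.lf 14) (.tr (.dx 0 .on) (.lf 19) (.tr (.tw (.lf 5) (.lf 6)) (.lf 9) (.lf 10)))), 0, [35, 35, 22, 22, 18, 18, 36, 36], [35, 35, 9, 9, 18, 18, 36, 36]⟩))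
    (.nd (.lf ⟨[.ofNat 0, .negSucc 18959039, .ofNat 44105520, .negSucc 41142239, .ofNat 15181680, .negSucc 2438399], (.tr (.lf 9) (.lf 10) (.tr (.lf 5) (.lf 6) (.tr (.tw (.lf 13) (.lf 14)) (.dx 0 .on) (.lf 19)))), 0, [34, 34, 34, 34, 6, 6, 25, 25], [34, 34, 34, 34, 6, 6, 25, 25]⟩)
    (.lf ⟨[.ofNat 0, .ofNat 15338880, .negSucc 32295359, .ofNat 28740960, .negSucc 10371839, .ofNat 1645920], (.tr (.lf 9) (.lf 10) (.tr (.lf 19) (.dx 0 .on) (.tr (.tw (.lf 5) (.lf 6)) (.lf 13) (.lf 14)))), 0, [19, 19, 25, 25, 34, 34, 6, 6], [19, 19, 25, 25, 34, 34, 6, 6]⟩)))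
    (.nd (.nd (.lf ⟨[.ofNat 0, .ofNat 11520000, .negSucc 10839839, .ofNat 3438240, .negSucc 223199, .negSucc 60959], (.tr (.lf 9) (.lf 10) (.tr (.lf 13) (.lf 14) (.tr (.dx 0 .on) (.lf 19) (.tw (.lf 5) (.lf 6))))), 0, [6, 6, 6, 6, 19, 19, 34, 34], [6, 6, 6, 6, 19, 19, 34, 34]⟩)
    (.lf ⟨[.ofNat 0, .negSucc 7669439, .ofNat 43526160, .negSucc 50231039, .ofNat 20002320, .negSucc 3352799], (.tr (.lf 13) (.lf 14) (.tr (.lf 9) (.lf 10) (.tr (.dx 0 .on) (.lf 19) (.tw (.lf 5) (.lf 6))))), 0, [36, 36, 36, 36, 35, 35, 18, 18], [36, 36, 36, 36, 35, 35, 18, 18]⟩))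
    (.nd (.lf ⟨[.ofNat 0, .negSucc 66239, .ofNat 49833360, .negSucc 65407679, .ofNat 27405840, .negSucc 4693919], (.tr (.lf 5) (.lf 6) (.tr (.lf 19) (.dx 0 .on) (.tr (.tw (.lf 9) (.lf 10)) (.lf 13) (.lf 14)))), 0, [37, 37, 7, 7, 8, 8, 24, 24], [37, 37, 7, 7, 8, 8, 24, 24]⟩)
    (.lf ⟨[.ofNat 0, .negSucc 6217919, .ofNat 2980080, .ofNat 1635360, .negSucc 1210319, .ofNat 243840], (.tr (.dx 0 .on) (.tr (.lf 9) (.lf 10) (.tr (.tw (.lf 5) (.lf 6)) (.lf 13) (.lf 14))) (.lf 19)), 0, [20, 20, 20, 20, 0, 0, 10, 10], [39, 39, 27, 27, 0, 0, 10, 10]⟩))))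

/-- data -/
def dV8x12 : RT := (.nd (.nd (.nd (.lf ⟨[.ofNat 0, .ofNat 3620160, .negSucc 11810159, .ofNat 12401280, .negSucc 4809839, .ofNat 792480], (.tr (.lf 9) (.lf 10) (.tr (.dx 0 .on) (.tr (.tw (.lf 5) (.lf 6)) (.lf 13) (.lf 14)) (.lf 19))), 0, [12, 12, 12, 12, 11, 11, 1, 1], [12, 12, 12, 12, 28, 28, 28, 28]⟩)
    (.lf ⟨[.ofNat 0, .negSucc 3620159, .ofNat 11810160, .negSucc 12401279, .ofNat 4809840, .negSucc 792479], (.tr (.lf 9) (.lf 10) (.tr (.lf 13) (.lf 14) (.tr (.tw (.lf 5) (.lf 6)) (.dx 0 .on) (.lf 19)))), 0, [6, 6, 6, 6, 34, 34, 19, 19], [6, 6, 6, 6, 34, 34, 19, 19]⟩))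
    (.nd (.lf ⟨[.negSucc 3620159, .ofNat 11810160, .negSucc 12401279, .ofNat 4809840, .negSucc 792479], (.tr (.lf 5) (.lf 6) (.tr (.lf 17) (.lf 18) (.tw (.dx 0 .on) (.tr (.tw (.lf 9) (.lf 10)) (.lf 13) (.lf 14))))), 0, [16, 16, 7, 7, 16, 16, 16, 16, 39, 39, 15, 15, 8, 8, 24, 24], [16, 16, 7, 7, 16, 16, 16, 16, 39, 39, 15, 15, 8, 8, 24, 24]⟩)
    (.lf ⟨[.ofNat 7240320, .negSucc 23620319, .ofNat 24802560, .negSucc 9619679, .ofNat 1584960], (.tr (.lf 5) (.lf 6) (.tr (.lf 9) (.lf 10) (.tr (.lf 13) (.lf 14) (.tr (.dx 0 .on) (.lf 17) (.lf 18))))), 0, [8, 8, 5, 23, 24, 13, 7, 7], [8, 8, 5, 8, 24, 24, 7, 7]⟩)))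
    (.nd (.nd (.lf ⟨[.negSucc 4049279, .ofNat 18880800, .negSucc 19536959, .ofNat 7848480, .negSucc 1219199], (.tr (.lf 13) (.lf 14) (.tr (.lf 9) (.lf 10) (.tr (.dx 0 (.lf 5)) (.lf 6) (.tw (.lf 17) (.lf 18))))), 0, [36, 36, 36, 36, 29, 29, 4, 4], [36, 36, 36, 36, 29, 29, 4, 4]⟩)
    (.lf ⟨[.ofNat 0, .negSucc 12729599, .ofNat 35682240, .ofNat 10536000, .negSucc 48023999, .ofNat 23553600, .negSucc 4389119], (.tr (.dx 0 .on) (.tw (.lf 5) (.tr (.lf 6) (.lf 15) (.tw (.lf 9) (.lf 10)))) (.lf 19)), 0, [0, 0, 0, 0, 0, 0, 20, 20], [0, 0, 0, 0, 0, 0, 27, 27]⟩))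
    (.nd (.lf ⟨[.ofNat 0, .ofNat 17087040, .negSucc 41209199, .ofNat 46177440, .negSucc 19746479, .ofNat 4349760, .negSucc 243839], (.tw (.dx 0 .on) (.tr (.lf 19) (.lf 5) (.tr (.lf 6) (.lf 15) (.tw (.lf 9) (.lf 10))))), 0, [7, 7, 30, 30, 0, 0, 20, 20], [7, 7, 25, 25, 0, 0, 27, 27]⟩)
    (.lf ⟨[.ofNat 0, .ofNat 1100160, .negSucc 1274399, .negSucc 38183039, .ofNat 52246560, .negSucc 22006079, .ofNat 3779520], (.tw (.lf 19) (.tr (.dx 0 .on) (.tr (.lf 5) (.lf 15) (.tw (.lf 9) (.lf 10))) (.lf 6))), 0, [9, 9, 25, 25, 21, 21, 1, 1], [9, 9, 25, 25, 26, 26, 1, 1]⟩))))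

/-- data -/
def dV8x13 : RT := (.nd (.nd (.nd (.lf ⟨[.negSucc 15906239, .ofNat 54422160, .negSucc 93017759, .ofNat 37467120, .ofNat 22760640, .negSucc 16212959, .ofNat 3413760], (.tw (.dx 1 .on) (.tr (.lf 15) (.lf 1) (.tr (.lf 2) (.tw (.lf 9) (.lf 10)) (.lf 19)))), 1, [24, 24, 24, 24, 32, 32, 16, 16], [15, 15, 21, 21, 23, 23, 23, 23]⟩)
    (.lf ⟨[.ofNat 31812480, .negSucc 76432799, .ofNat 88325280, .ofNat 23644320, .negSucc 81952799, .ofNat 38400000, .negSucc 6827519], (.tr (.lf 5) (.lf 6) (.tr (.lf 19) (.lf 9) (.tr (.lf 10) (.dx 0 .on) (.lf 15)))), 0, [16, 16, 8, 24], [16, 16, 8, 24]⟩))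
    (.nd (.lf ⟨[.ofNat 0, .negSucc 38977919, .ofNat 123735840, .negSucc 126883199, .ofNat 48464160, .negSucc 7924799], (.tr (.lf 5) (.tr (.lf 6) (.tr (.lf 9) (.dx 0 .on) (.lf 15)) (.lf 10)) (.lf 19)), 0, [8, 24, 8, 8], [8, 24, 8, 8]⟩)
    (.lf ⟨[.negSucc 4790879, .ofNat 14940840, .negSucc 16765439, .ofNat 6360360, .negSucc 1066799], (.tw (.dx 0 (.tw (.lf 5) (.lf 17))) (.tr (.lf 6) (.tr (.tw (.lf 9) (.lf 10)) (.lf 13) (.lf 14)) (.lf 18))), 0, [39, 39, 15, 15, 25, 25, 9, 9, 39, 39, 15, 15, 25, 25, 9, 9], [39, 39, 15, 15, 25, 25, 9, 9]⟩)))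
    (.nd (.nd (.lf ⟨[.ofNat 0, .negSucc 14806079, .ofNat 41382960, .negSucc 40995359, .ofNat 15197040, .negSucc 2438399], (.tw (.lf 19) (.tr (.dx 0 (.lf 13)) (.tr (.tw (.lf 5) (.lf 6)) (.lf 9) (.lf 10)) (.lf 14))), 0, [37, 37, 19, 19, 11, 11, 11, 11], [37, 37, 19, 19, 21, 21, 1, 1]⟩)
    (.lf ⟨[.ofNat 7702560, .negSucc 22027319, .ofNat 22373760, .negSucc 8492279, .ofNat 1371600], (.tw (.dx 0 (.tw (.lf 5) (.lf 17))) (.tr (.lf 6) (.lf 9) (.tr (.lf 10) (.tw (.lf 13) (.lf 14)) (.lf 18)))), 0, [39, 39, 7, 7, 9, 9, 9, 9, 39, 39, 7, 7, 9, 9, 9, 9], [39, 39, 7, 7, 9, 9, 9, 9]⟩))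
    (.nd (.lf ⟨[.ofNat 0, .negSucc 24451199, .ofNat 248214240, .negSucc 567666239, .ofNat 215044320, .ofNat 215337600, .negSucc 138733439, .ofNat 28773120], (.tw (.lf 15) (.tr (.lf 11) (.lf 5) (.tr (.lf 6) (.dx 0 .on) (.lf 19)))), 0, [3, 33, 35, 35], [3, 33, 35, 35]⟩)
    (.lf ⟨[.ofNat 0, .ofNat 0, .negSucc 3167999, .ofNat 3579840, .ofNat 320640, .ofNat 121920], (.tr (.lf 6) (.tr (.lf 9) (.tw (.dx 0 (.lf 5)) (.lf 15)) (.lf 10)) (.lf 19)), 0, [15, 8, 15, 8], [15, 15, 15, 15]⟩))))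

/-- data -/
def dV8x14 : RT := (.nd (.nd (.nd (.lf ⟨[.negSucc 29675519, .ofNat 83263680, .negSucc 80709599, .ofNat 30238080, .negSucc 4754879], (.tr (.dx 0 (.tr (.lf 5) (.lf 9) (.lf 13))) (.tr (.lf 17) (.tw (.lf 10) (.lf 14)) (.lf 18)) (.lf 6)), 0, [0, 0, 0, 0, 10, 17, 10, 17], [30, 30, 30, 30]⟩)
    (.lf ⟨[.ofNat 25898400, .negSucc 88304279, .ofNat 90702720, .negSucc 34504919, .ofNat 5638800], (.tr (.dx 0 (.tr (.lf 9) (.lf 5) (.lf 13))) (.tr (.lf 17) (.tw (.lf 6) (.lf 14)) (.lf 18)) (.lf 10)), 0, [29, 29, 29, 29, 10, 29, 10, 29], [29, 29, 29, 29]⟩))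
    (.nd (.lf ⟨[.ofNat 976320, .negSucc 2801999, .ofNat 1932000, .negSucc 1025039, .ofNat 121920], (.tr (.lf 6) (.lf 10) (.tr (.dx 0 (.tr (.lf 5) (.lf 9) (.lf 13))) (.tw (.lf 17) (.lf 18)) (.lf 14))), 0, [5, 5, 5, 5, 8, 1, 8, 1], [5, 5, 31, 31]⟩)
    (.lf ⟨[.negSucc 13017599, .ofNat 37608000, .negSucc 37493759, .ofNat 14566080, .negSucc 2316479], (.tr (.lf 6) (.tr (.lf 10) (.dx 0 (.tr (.lf 5) (.lf 9) (.lf 13))) (.tw (.lf 17) (.lf 18))) (.lf 14)), 0, [5, 5, 5, 5, 16, 16, 16, 16], [5, 5, 16, 16]⟩)))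
    (.nd (.nd (.lf ⟨[.negSucc 4891679, .ofNat 4400760, .negSucc 1256159, .ofNat 73080, .ofNat 30480], (.tr (.dx 0 (.tr (.lf 5) (.lf 13) (.lf 9))) (.tr (.lf 14) (.lf 10) (.tw (.lf 17) (.lf 18))) (.lf 6)), 0, [17, 17, 0, 0, 17, 17, 25, 25], [17, 17, 30, 30]⟩)
    (.lf ⟨[.ofNat 31187520, .negSucc 85421359, .ofNat 85469600, .negSucc 33029359, .ofNat 5486400], (.tr (.dx 0 (.tr (.lf 9) (.lf 5) (.lf 13))) (.tr (.lf 6) (.lf 14) (.tw (.lf 17) (.lf 18))) (.lf 10)), 0, [29, 29, 20, 20, 29, 29, 10, 10], [29, 29, 30, 30]⟩))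
    (.nd (.lf ⟨[.ofNat 92260800, .negSucc 266277199, .ofNat 268782560, .negSucc 96479119, .ofNat 15666720], (.tr (.lf 10) (.lf 6) (.tr (.dx 0 (.tr (.lf 9) (.lf 5) (.lf 13))) (.tw (.lf 17) (.lf 18)) (.lf 14))), 0, [5, 5, 5, 5, 11, 21, 11, 21], [5, 5, 31, 31]⟩)
    (.lf ⟨[.negSucc 3114719, .ofNat 12654600, .negSucc 15477119, .ofNat 6202440, .negSucc 1066799], (.tr (.lf 10) (.tr (.lf 6) (.dx 0 (.tr (.lf 9) (.lf 5) (.lf 13))) (.tw (.lf 17) (.lf 18))) (.lf 14)), 0, [5, 5, 5, 5, 28, 28, 28, 28], [5, 5, 28, 28]⟩))))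

/-- data -/
def dV8x15 : RT := (.nd (.nd (.nd (.lf ⟨[.negSucc 252096479, .ofNat 772322440, .negSucc 788213679, .ofNat 288554920, .negSucc 46939199], (.tr (.dx 0 (.tr (.lf 5) (.tw (.lf 9) (.lf 17)) (.lf 6))) (.lf 10) (.tr (.lf 13) (.lf 14) (.lf 18))), 0, [39, 5, 39, 5, 39, 5, 39, 5], []⟩)
    (.lf ⟨[.negSucc 25898399, .ofNat 86939160, .negSucc 89128799, .ofNat 34118040, .negSucc 5577839], (.tr (.lf 10) (.tr (.lf 13) (.dx 0 (.tr (.lf 5) (.tw (.lf 9) (.lf 17)) (.lf 6))) (.lf 18)) (.lf 14)), 0, [5, 5, 5, 5, 23, 23, 23, 23], []⟩))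
    (.nd (.lf ⟨[.ofNat 138997440, .negSucc 429630799, .ofNat 438671240, .negSucc 161336479, .ofNat 26258520], (.tw (.lf 10) (.tr (.tw (.lf 13) (.lf 14)) (.dx 0 (.tr (.lf 5) (.tw (.lf 9) (.lf 17)) (.lf 6))) (.lf 18))), 0, [6, 6, 6, 6, 6, 6, 6, 6, 23, 23, 23, 23, 23, 23, 23, 23], []⟩)
    (.lf ⟨[.negSucc 90685439, .ofNat 266976960, .negSucc 266875679, .ofNat 101026560, .negSucc 16581119], (.tr (.lf 18) (.dx 0 (.tr (.lf 5) (.tw (.lf 9) (.lf 17)) (.lf 6))) (.tr (.lf 10) (.lf 13) (.lf 14))), 0, [37, 7, 37, 7, 37, 7, 37, 7], []⟩)))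
    (.nd (.nd (.lf ⟨[.ofNat 53433360, .negSucc 161173019, .ofNat 162295440, .negSucc 61593179, .ofNat 10073640], (.tw (.lf 18) (.tr (.dx 0 (.tr (.lf 5) (.tw (.lf 9) (.lf 17)) (.lf 6))) (.lf 10) (.tw (.lf 13) (.lf 14)))), 0, [37, 37, 37, 37, 37, 37, 37, 37, 38, 38, 38, 38, 38, 38, 38, 38], []⟩)
    (.lf ⟨[.negSucc 31543199, .ofNat 81747480, .negSucc 77594399, .ofNat 29145240, .negSucc 4602479], (.tr (.lf 13) (.lf 14) (.tr (.lf 10) (.dx 0 (.tr (.lf 5) (.tw (.lf 9) (.lf 17)) (.lf 6))) (.lf 18))), 0, [36, 36, 36, 36, 4, 4, 4, 4], []⟩))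
    (.nd (.lf ⟨[.negSucc 17294399, .ofNat 45903440, .negSucc 45967999, .ofNat 15672080, .negSucc 2529839], (.tw (.lf 18) (.tr (.dx 0 (.tr (.lf 5) (.tw (.lf 9) (.lf 17)) (.lf 6))) (.tw (.lf 13) (.lf 14)) (.lf 10))), 0, [7, 7, 7, 7, 7, 7, 7, 7, 14, 1, 14, 1, 14, 1, 14, 1], []⟩)
    (.lf ⟨[.ofNat 38200320, .negSucc 103927359, .ofNat 103118080, .negSucc 36844479, .ofNat 5974080], (.tr (.dx 0 (.tw (.lf 17) (.tr (.lf 5) (.tw (.lf 9) (.lf 13)) (.lf 6)))) (.tw (.lf 10) (.lf 14)) (.lf 18)), 0, [39, 15, 39, 15, 39, 15, 39, 15, 0, 0, 39, 15, 0, 0, 39, 15], []⟩))))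

/-- data -/
def dV8x16 : RT := (.nd (.nd (.nd (.lf ⟨[.negSucc 15405119, .ofNat 44054640, .negSucc 44747519, .ofNat 16984560, .negSucc 2743199], (.tr (.dx 0 (.tr (.lf 5) (.tr (.lf 6) (.lf 9) (.lf 13)) (.lf 17))) (.tw (.lf 10) (.lf 14)) (.lf 18)), 0, [0, 0, 39, 15, 39, 15, 30, 30], []⟩)
    (.lf ⟨[.negSucc 176947199, .ofNat 583320320, .negSucc 604313839, .ofNat 219811040, .negSucc 35448239], (.tw (.dx 0 (.tr (.lf 5) (.tr (.lf 9) (.tr (.lf 6) (.lf 13) (.lf 17)) (.lf 10)) (.lf 14))) (.lf 18)), 0, [0, 0, 0, 0, 3, 3, 3, 3], []⟩))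
    (.nd (.lf ⟨[.ofNat 206622720, .negSucc 668288959, .ofNat 686857040, .negSucc 251039839, .ofNat 40325040], (.tw (.dx 0 (.tr (.lf 13) (.lf 9) (.tr (.lf 5) (.tr (.lf 10) (.lf 17) (.lf 14)) (.lf 6)))) (.lf 18)), 0, [3, 3, 3, 3, 0, 0, 0, 0], []⟩)
    (.lf ⟨[.negSucc 976319, .ofNat 60240, .ofNat 1437600, .negSucc 557039, .ofNat 121920], (.tr (.lf 10) (.lf 6) (.tr (.dx 0 (.tr (.lf 5) (.lf 9) (.lf 13))) (.tw (.lf 17) (.lf 18)) (.lf 14))), 0, [5, 5, 5, 5, 11, 1, 11, 1], [5, 5, 31, 31]⟩)))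
    (.nd (.nd (.lf ⟨[.negSucc 4936319, .ofNat 9506400, .negSucc 4622399, .ofNat 1290720], (.tr (.dx 0 (.tr (.lf 5) (.lf 13) (.tr (.lf 9) (.lf 6) (.lf 17)))) (.tw (.lf 10) (.lf 14)) (.lf 18)), 0, [39, 15, 39, 15, 39, 15, 39, 15], []⟩)
    (.lf ⟨[.negSucc 58011839, .ofNat 167760080, .negSucc 169513279, .ofNat 60305360, .negSucc 9692639], (.tr (.dx 0 (.tr (.lf 5) (.tr (.lf 6) (.lf 9) (.lf 13)) (.lf 17))) (.lf 10) (.tw (.lf 14) (.lf 18))), 0, [0, 0, 39, 0, 39, 5, 30, 30], []⟩))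
    (.nd (.lf ⟨[.negSucc 34938719, .ofNat 96963240, .negSucc 94794719, .ofNat 35661480, .negSucc 5821679], (.tr (.dx 0 (.tr (.lf 5) (.lf 9) (.tr (.lf 17) (.tw (.lf 6) (.lf 13)) (.lf 18)))) (.lf 10) (.lf 14)), 0, [0, 0, 0, 0, 37, 30, 37, 30], []⟩)
    (.lf ⟨[.ofNat 30906720, .negSucc 92262119, .ofNat 92523840, .negSucc 34526759, .ofNat 5577840], (.tr (.dx 0 (.tr (.lf 17) (.lf 13) (.tr (.lf 5) (.tw (.lf 9) (.lf 18)) (.lf 6)))) (.lf 10) (.lf 14)), 0, [30, 30, 30, 30, 0, 37, 0, 37], []⟩))))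

/-- data -/
def dV8x17 : RT := (.nd (.nd (.nd (.lf ⟨[.ofNat 0, .ofNat 2733120, .negSucc 3424559, .ofNat 1207200, .negSucc 91439], (.tr (.dx 0 (.tr (.lf 9) (.lf 5) (.lf 13))) (.tr (.lf 17) (.tw (.lf 10) (.lf 14)) (.lf 18)) (.lf 6)), 0, [20, 17, 20, 17, 10, 10, 10, 10], [30, 30, 30, 30]⟩)
    (.lf ⟨[.ofNat 4032000, .negSucc 4701119, .ofNat 2270880, .negSucc 1134719, .ofNat 243840], (.tr (.dx 0 (.tr (.lf 5) (.lf 13) (.tr (.lf 9) (.tw (.lf 6) (.lf 17)) (.lf 10)))) (.lf 18) (.lf 14)), 0, [5, 5, 5, 5, 5, 5, 5, 5], []⟩))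
    (.nd (.lf ⟨[.negSucc 4031999, .ofNat 5190720, .negSucc 2618879, .ofNat 1008960, .negSucc 182879], (.tr (.dx 0 (.tr (.lf 9) (.lf 13) (.tr (.lf 5) (.tw (.lf 10) (.lf 17)) (.lf 6)))) (.lf 18) (.lf 14)), 0, [5, 5, 5, 5, 5, 5, 5, 5], []⟩)
    (.lf ⟨[.negSucc 4031999, .ofNat 9542400, .negSucc 8446319, .ofNat 3552480, .negSucc 518159], (.tr (.dx 0 (.tr (.lf 9) (.lf 17) (.tr (.lf 5) (.tw (.lf 10) (.lf 13)) (.lf 6)))) (.lf 14) (.lf 18)), 0, [20, 20, 20, 20, 0, 0, 0, 0], []⟩)))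
    (.nd (.nd (.lf ⟨[.ofNat 4032000, .negSucc 7330559, .ofNat 6399840, .negSucc 3124799, .ofNat 548640], (.tr (.dx 0 (.tw (.lf 5) (.tr (.lf 9) (.tr (.lf 13) (.lf 6) (.lf 17)) (.lf 10)))) (.lf 14) (.lf 18)), 0, [0, 0, 0, 0, 39, 20, 39, 20], []⟩)
    (.lf ⟨[.ofNat 8064000, .negSucc 14733119, .ofNat 11065200, .negSucc 4561439, .ofNat 701040], (.tr (.dx 0 (.tr (.lf 5) (.lf 17) (.tr (.lf 9) (.tw (.lf 6) (.lf 13)) (.lf 10)))) (.lf 18) (.lf 14)), 0, [5, 5, 5, 5, 5, 5, 5, 5], []⟩))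
    (.nd (.lf ⟨[.negSucc 4031999, .ofNat 5766720, .negSucc 3328079, .ofNat 1517280, .negSucc 274319], (.tr (.dx 0 (.tw (.lf 9) (.tr (.lf 5) (.tr (.lf 13) (.lf 10) (.lf 17)) (.lf 6)))) (.lf 18) (.lf 14)), 0, [5, 5, 5, 5, 5, 5, 5, 5], []⟩)
    (.lf ⟨[.ofNat 4032000, .negSucc 5951039, .ofNat 4314960, .negSucc 1503839, .ofNat 274320], (.tr (.dx 0 (.tw (.lf 5) (.tr (.lf 9) (.tr (.lf 13) (.lf 6) (.lf 17)) (.lf 10)))) (.lf 18) (.lf 14)), 0, [0, 5, 0, 5, 5, 5, 5, 5], []⟩))))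

/-- data -/
def dV8x18 : RT := (.nd (.nd (.nd (.lf ⟨[.negSucc 4031999, .ofNat 4701120, .negSucc 2270879, .ofNat 1134720, .negSucc 243839], (.tr (.dx 0 (.tw (.lf 5) (.tr (.lf 17) (.tr (.lf 9) (.lf 6) (.lf 13)) (.lf 18)))) (.lf 10) (.lf 14)), 0, [37, 37, 37, 37, 37, 30, 37, 30], []⟩)
    (.lf ⟨[.ofNat 78580800, .negSucc 214506479, .ofNat 208816320, .negSucc 78497519, .ofNat 12374880], (.tr (.tw (.dx 0 (.tr (.lf 5) (.lf 13) (.tr (.lf 9) (.lf 6) (.lf 17)))) (.lf 14)) (.lf 10) (.lf 18)), 0, [15, 15, 15, 15, 15, 15, 15, 15], []⟩))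
    (.nd (.lf ⟨[.negSucc 134639999, .ofNat 374997920, .negSucc 372795199, .ofNat 136501280, .negSucc 21945599], (.tr (.tw (.dx 0 (.tr (.lf 5) (.tr (.lf 6) (.lf 9) (.lf 13)) (.lf 17))) (.lf 14)) (.lf 10) (.lf 18)), 0, [0, 15, 15, 30, 15, 15, 15, 15], []⟩)
    (.lf ⟨[.ofNat 95330880, .negSucc 254326639, .ofNat 252117440, .negSucc 91149679, .ofNat 14935200], (.tr (.tw (.lf 10) (.lf 18)) (.dx 0 (.tr (.lf 5) (.lf 13) (.tr (.lf 9) (.lf 6) (.lf 17)))) (.lf 14)), 0, [23, 23, 28, 23, 14, 14, 14, 14], []⟩)))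
    (.nd (.nd (.lf ⟨[.negSucc 15773759, .ofNat 31188720, .negSucc 26881919, .ofNat 9767280, .negSucc 1523999], (.tr (.tw (.lf 10) (.lf 18)) (.dx 0 (.tr (.lf 17) (.lf 5) (.tr (.lf 6) (.lf 13) (.lf 9)))) (.lf 14)), 0, [23, 23, 23, 23, 14, 14, 14, 14], []⟩)
    (.lf ⟨[.negSucc 2708639, .ofNat 19594200, .negSucc 23005439, .ofNat 9181080, .negSucc 1493519], (.tr (.tw (.lf 10) (.lf 18)) (.dx 0 (.tw (.lf 17) (.tr (.lf 5) (.tw (.lf 9) (.lf 13)) (.lf 6)))) (.lf 14)), 0, [23, 28, 23, 28, 23, 23, 23, 23, 14, 14, 14, 14, 14, 14, 14, 14], []⟩))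
    (.nd (.lf ⟨[.ofNat 0, .negSucc 685439, .ofNat 1305600, .negSucc 395519, .ofNat 121920], (.tw (.dx 0 (.tr (.lf 9) (.lf 5) (.lf 13))) (.tr (.lf 17) (.tr (.lf 6) (.lf 10) (.lf 14)) (.lf 18))), 0, [39, 20, 39, 20, 39, 10, 39, 10], [39, 30, 39, 30]⟩)
    (.lf ⟨[.ofNat 0, .negSucc 1370879, .ofNat 1684800, .negSucc 791039, .ofNat 121920], (.tw (.dx 0 (.tr (.lf 5) (.lf 9) (.lf 13))) (.tr (.lf 17) (.tr (.lf 6) (.lf 10) (.lf 14)) (.lf 18))), 0, [0, 0, 0, 0, 39, 10, 39, 10], [39, 30, 39, 30]⟩))))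

/-- data -/
def dV8x19 : RT := (.nd (.nd (.nd (.lf ⟨[.ofNat 0, .ofNat 5483520, .negSucc 6739199, .ofNat 3164160, .negSucc 487679], (.tr (.dx 0 (.tr (.lf 5) (.lf 9) (.lf 13))) (.lf 17) (.tr (.lf 6) (.tw (.lf 10) (.lf 14)) (.lf 18))), 0, [0, 0, 0, 0, 39, 15, 25, 9], [39, 15, 30, 30]⟩)
    (.lf ⟨[.negSucc 38334239, .ofNat 105593720, .negSucc 105516799, .ofNat 40842680, .negSucc 6736079], (.tr (.dx 0 (.tr (.lf 5) (.lf 9) (.lf 13))) (.tr (.lf 14) (.lf 10) (.tw (.lf 17) (.lf 18))) (.lf 6)), 0, [17, 17, 0, 0, 17, 17, 25, 25], [17, 17, 30, 30]⟩))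
    (.nd (.lf ⟨[.negSucc 85114079, .ofNat 243507080, .negSucc 245318719, .ofNat 87364040, .negSucc 14173199], (.tr (.lf 6) (.lf 10) (.tr (.dx 0 (.tr (.lf 9) (.lf 5) (.lf 13))) (.tw (.lf 17) (.lf 18)) (.lf 14))), 0, [5, 5, 5, 5, 8, 8, 8, 8], [5, 5, 31, 31]⟩)
    (.lf ⟨[.ofNat 0, .ofNat 3133440, .negSucc 3431039, .ofNat 1612800, .negSucc 243839], (.tr (.dx 0 (.tr (.lf 9) (.lf 5) (.lf 13))) (.lf 17) (.tr (.tw (.lf 6) (.lf 10)) (.lf 14) (.lf 18))), 0, [39, 39, 20, 9, 39, 10, 10, 9], [39, 39, 30, 30]⟩)))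
    (.nd (.nd (.lf ⟨[.ofNat 24922080, .negSucc 82256519, .ofNat 85482240, .negSucc 32608199, .ofNat 5516880], (.tw (.dx 0 (.tr (.lf 5) (.lf 9) (.lf 13))) (.tr (.lf 17) (.tr (.lf 10) (.lf 6) (.lf 14)) (.lf 18))), 0, [0, 0, 0, 0, 39, 10, 39, 10], [39, 30, 39, 30]⟩)
    (.lf ⟨[.ofNat 46533600, .negSucc 148566599, .ofNat 152107200, .negSucc 57332999, .ofNat 9357360], (.tw (.dx 0 (.tr (.lf 5) (.lf 13) (.lf 9))) (.tr (.lf 17) (.tr (.lf 10) (.lf 6) (.lf 14)) (.lf 18))), 0, [0, 0, 0, 0, 39, 15, 39, 15], [39, 30, 39, 30]⟩))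
    (.nd (.lf ⟨[.ofNat 0, .ofNat 34560, .ofNat 109440, .negSucc 40319], (.tr (.lf 10) (.tr (.lf 13) (.dx 0 (.tr (.lf 5) (.tw (.lf 6) (.lf 17)) (.lf 9))) (.lf 14)) (.lf 18)), 0, [6, 6, 6, 6, 6, 6, 6, 6], []⟩)
    (.lf ⟨[.ofNat 7490880, .negSucc 39151919, .ofNat 41220960, .negSucc 16475759, .ofNat 2560320], (.tr (.tw (.dx 0 (.tr (.lf 5) (.lf 9) (.tr (.lf 13) (.lf 6) (.lf 17)))) (.lf 14)) (.lf 10) (.lf 18)), 0, [0, 0, 10, 15, 15, 15, 22, 15], []⟩))))

/-- data -/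
def dV8x20 : RT := (.nd (.nd (.nd (.lf ⟨[.negSucc 68117759, .ofNat 219504320, .negSucc 224382559, .ofNat 82509440, .negSucc 13228319], (.tr (.dx 0 (.tr (.lf 5) (.lf 9) (.tr (.lf 13) (.lf 6) (.lf 17)))) (.lf 14) (.tw (.lf 10) (.lf 18))), 0, [0, 0, 0, 0, 10, 10, 15, 29], []⟩)
    (.lf ⟨[.ofNat 167869440, .negSucc 574226559, .ofNat 598300480, .negSucc 219911679, .ofNat 35356800], (.tr (.tw (.dx 0 (.tr (.lf 5) (.lf 9) (.tr (.lf 13) (.lf 6) (.lf 17)))) (.lf 14)) (.lf 18) (.lf 10)), 0, [0, 0, 10, 29, 29, 22, 22, 22], []⟩))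
    (.nd (.lf ⟨[.negSucc 27172799, .ofNat 91741200, .negSucc 91479839, .ofNat 35351760, .negSucc 5364479], (.tr (.tw (.dx 0 (.tr (.lf 17) (.lf 5) (.tr (.lf 6) (.lf 9) (.lf 13)))) (.lf 14)) (.lf 18) (.lf 10)), 0, [29, 29, 0, 29, 22, 22, 29, 22], []⟩)
    (.lf ⟨[.negSucc 58878719, .ofNat 236882240, .negSucc 256717279, .ofNat 93175040, .negSucc 15179039], (.tr (.dx 0 (.tr (.lf 5) (.lf 9) (.tr (.lf 13) (.lf 6) (.lf 17)))) (.tw (.lf 14) (.lf 18)) (.lf 10)), 0, [0, 0, 0, 7, 10, 7, 29, 7], []⟩)))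
    (.nd (.nd (.lf ⟨[.ofNat 51387840, .negSucc 201416719, .ofNat 219816320, .negSucc 78408079, .ofNat 12862560], (.tr (.dx 0 (.tr (.lf 5) (.lf 9) (.tr (.lf 13) (.lf 6) (.lf 17)))) (.lf 18) (.tw (.lf 10) (.lf 14))), 0, [0, 0, 0, 7, 10, 7, 30, 7], []⟩)
    (.lf ⟨[.ofNat 4032000, .negSucc 12845759, .ofNat 12028080, .negSucc 4553759, .ofNat 579120], (.tr (.lf 14) (.dx 0 (.tw (.lf 5) (.tr (.lf 9) (.tr (.lf 13) (.lf 6) (.lf 17)) (.lf 10)))) (.lf 18)), 0, [3, 3, 3, 3, 22, 22, 22, 22], []⟩))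
    (.nd (.lf ⟨[.negSucc 4031999, .ofNat 12845760, .negSucc 12028079, .ofNat 4553760, .negSucc 579119], (.tr (.dx 0 (.tr (.lf 5) (.lf 9) (.lf 13))) (.lf 10) (.tr (.lf 17) (.tw (.lf 6) (.lf 14)) (.lf 18))), 0, [0, 27, 0, 27, 39, 27, 39, 27], [20, 27, 20, 27]⟩)
    (.lf ⟨[.ofNat 8064000, .negSucc 22667519, .ofNat 21427680, .negSucc 8598719, .ofNat 1280160], (.tr (.tw (.dx 0 (.tr (.lf 13) (.lf 5) (.tr (.lf 6) (.lf 9) (.lf 17)))) (.lf 18)) (.lf 10) (.lf 14)), 0, [10, 10, 0, 30, 37, 37, 2, 2], []⟩))))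

/-- data -/
def dV8x21 : RT := (.nd (.nd (.nd (.lf ⟨[.negSucc 50417279, .ofNat 206271200, .negSucc 224507359, .ofNat 81103520, .negSucc 13106399], (.tr (.dx 0 (.tr (.lf 13) (.lf 5) (.tr (.lf 6) (.lf 9) (.lf 17)))) (.tw (.lf 10) (.lf 18)) (.lf 14)), 0, [10, 10, 10, 10, 0, 0, 30, 30], []⟩)
    (.lf ⟨[.ofNat 4032000, .negSucc 8548799, .ofNat 6271200, .negSucc 2106239, .ofNat 304800], (.tr (.dx 0 (.tw (.lf 13) (.tr (.tw (.lf 5) (.lf 6)) (.lf 9) (.lf 17)))) (.tw (.lf 10) (.lf 18)) (.lf 14)), 0, [10, 10, 10, 10, 10, 10, 10, 10, 0, 0, 0, 0, 30, 30, 30, 30], []⟩))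
    (.nd (.lf ⟨[.ofNat 166119840, .negSucc 528722519, .ofNat 543736080, .negSucc 199393079, .ofNat 32308800], (.tr (.tw (.dx 0 (.tw (.lf 13) (.tr (.tw (.lf 5) (.lf 6)) (.lf 9) (.lf 17)))) (.lf 18)) (.lf 10) (.lf 14)), 0, [10, 10, 10, 10, 0, 0, 30, 30, 37, 37, 37, 37, 2, 2, 2, 2], []⟩)
    (.lf ⟨[.negSucc 1231199, .ofNat 15256680, .negSucc 17603999, .ofNat 6956520, .negSucc 1127759], (.tr (.lf 14) (.dx 0 (.tr (.lf 9) (.lf 17) (.tr (.lf 5) (.tw (.lf 10) (.lf 13)) (.lf 6)))) (.lf 18)), 0, [22, 22, 22, 22, 3, 3, 3, 3], []⟩)))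
    (.nd (.nd (.lf ⟨[.negSucc 21866399, .ofNat 78672600, .negSucc 82409279, .ofNat 31581720, .negSucc 5090159], (.tr (.lf 14) (.dx 0 (.tr (.lf 5) (.lf 13) (.tr (.lf 9) (.tw (.lf 6) (.lf 17)) (.lf 10)))) (.lf 18)), 0, [3, 3, 3, 3, 3, 22, 3, 22], []⟩)
    (.lf ⟨[.negSucc 6531839, .ofNat 11568000, .negSucc 8715359, .ofNat 3562560, .negSucc 609599], (.tr (.lf 14) (.dx 0 (.tw (.lf 9) (.tr (.lf 5) (.tr (.lf 13) (.lf 10) (.lf 17)) (.lf 6)))) (.lf 18)), 0, [3, 3, 3, 3, 3, 3, 3, 3], []⟩))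
    (.nd (.lf ⟨[.ofNat 3745440, .negSucc 17159639, .ofNat 17323440, .negSucc 7301879, .ofNat 1219200], (.tr (.lf 6) (.tr (.dx 0 (.tw (.lf 5) (.lf 9))) (.tr (.lf 13) (.lf 17) (.lf 14)) (.lf 10)) (.lf 18)), 0, [32, 32, 15, 15, 8, 3, 8, 3], [15, 15, 8, 8]⟩)
    (.lf ⟨[.ofNat 0, .ofNat 699840, .negSucc 732239, .ofNat 173280, .negSucc 30479], (.tr (.lf 6) (.dx 0 (.tr (.lf 5) (.lf 9) (.lf 13))) (.tr (.lf 17) (.tw (.lf 10) (.lf 14)) (.lf 18))), 0, [32, 32, 32, 32, 39, 15, 39, 15], [39, 32, 39, 32]⟩))))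

/-- data -/
def dV8x22 : RT := (.nd (.nd (.nd (.lf ⟨[.ofNat 29930400, .negSucc 85750679, .ofNat 85127760, .negSucc 31983479, .ofNat 5242560], (.tr (.dx 0 (.tr (.lf 9) (.lf 5) (.lf 13))) (.lf 10) (.tr (.lf 17) (.tw (.lf 6) (.lf 14)) (.lf 18))), 0, [39, 27, 39, 27, 10, 27, 10, 27], [20, 27, 20, 27]⟩)
    (.lf ⟨[.ofNat 0, .ofNat 2730240, .negSucc 3147839, .ofNat 773760, .negSucc 121919], (.tw (.dx 0 (.tr (.lf 9) (.lf 5) (.lf 13))) (.tr (.lf 17) (.lf 14) (.tr (.lf 6) (.lf 18) (.lf 10)))), 0, [29, 17, 39, 39, 29, 10, 39, 10], [29, 30, 39, 20]⟩))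
    (.nd (.lf ⟨[.ofNat 0, .negSucc 1399679, .ofNat 1464480, .negSucc 346559, .ofNat 60960], (.tw (.lf 17) (.tr (.lf 6) (.tr (.dx 0 (.tr (.lf 5) (.lf 9) (.lf 13))) (.lf 18) (.lf 14)) (.lf 10))), 0, [7, 7, 13, 26, 14, 14, 14, 33], [7, 26, 14, 33]⟩)
    (.lf ⟨[.negSucc 96704639, .ofNat 326029280, .negSucc 339022879, .ofNat 121621280, .negSucc 19446239], (.tr (.tw (.dx 0 (.tr (.lf 5) (.tr (.lf 6) (.lf 9) (.lf 17)) (.lf 13))) (.lf 10)) (.lf 18) (.lf 14)), 0, [0, 5, 10, 10, 5, 5, 12, 5], []⟩)))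
    (.nd (.nd (.lf ⟨[.ofNat 54884160, .negSucc 183061359, .ofNat 189660880, .negSucc 69690639, .ofNat 11247120], (.tr (.dx 0 (.tw (.lf 13) (.tr (.lf 5) (.tw (.lf 9) (.lf 17)) (.lf 6)))) (.tw (.lf 10) (.lf 18)) (.lf 14)), 0, [10, 10, 10, 10, 10, 10, 10, 10, 0, 0, 5, 0, 0, 0, 5, 0], []⟩)
    (.lf ⟨[.negSucc 59401439, .ofNat 191282440, .negSucc 196723599, .ofNat 72246760, .negSucc 11643359], (.tr (.dx 0 (.tw (.lf 13) (.tr (.lf 5) (.tw (.lf 9) (.lf 17)) (.lf 6)))) (.lf 18) (.tw (.lf 10) (.lf 14))), 0, [10, 7, 10, 7, 10, 7, 10, 7, 0, 7, 0, 7, 0, 7, 0, 7], []⟩))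
    (.nd (.lf ⟨[.ofNat 10771200, .negSucc 22293119, .ofNat 19020480, .negSucc 6656639, .ofNat 1158240], (.tr (.dx 0 (.tw (.lf 13) (.tr (.lf 5) (.tw (.lf 9) (.lf 17)) (.lf 6)))) (.tw (.lf 14) (.lf 18)) (.lf 10)), 0, [10, 7, 10, 7, 10, 7, 10, 7, 0, 7, 29, 7, 0, 7, 29, 7], []⟩)
    (.lf ⟨[.negSucc 31207679, .ofNat 82192320, .negSucc 78910559, .ofNat 29101440, .negSucc 4693919], (.tr (.dx 0 (.tw (.lf 13) (.tr (.lf 5) (.tw (.lf 9) (.lf 17)) (.lf 6)))) (.lf 14) (.tw (.lf 10) (.lf 18))), 0, [10, 10, 10, 10, 10, 10, 10, 10, 0, 0, 15, 29, 0, 0, 15, 29], []⟩))))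

/-- data -/
def dV8x23 : RT := (.nd (.nd (.nd (.lf ⟨[.ofNat 56566080, .negSucc 153743279, .ofNat 151355520, .negSucc 56650799, .ofNat 8961120], (.tr (.dx 0 (.tr (.lf 5) (.lf 17) (.tr (.lf 9) (.lf 6) (.lf 13)))) (.tw (.lf 14) (.lf 18)) (.lf 10)), 0, [29, 7, 29, 7, 29, 7, 10, 7], []⟩)
    (.lf ⟨[.ofNat 9034560, .negSucc 16442159, .ofNat 14125440, .negSucc 5112239, .ofNat 792480], (.tr (.dx 0 (.tr (.lf 5) (.tr (.lf 6) (.lf 9) (.lf 17)) (.lf 13))) (.lf 18) (.tw (.lf 10) (.lf 14))), 0, [0, 0, 0, 7, 10, 7, 10, 7], []⟩))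
    (.nd (.lf ⟨[.negSucc 67415039, .ofNat 178118400, .negSucc 171721919, .ofNat 64855680, .negSucc 10363199], (.tr (.tw (.dx 0 (.tr (.lf 5) (.lf 17) (.tr (.lf 9) (.lf 6) (.lf 13)))) (.lf 18)) (.lf 14) (.lf 10)), 0, [7, 7, 7, 7, 2, 2, 2, 7], []⟩)
    (.lf ⟨[.ofNat 52375680, .negSucc 187240479, .ofNat 196442800, .negSucc 72920319, .ofNat 11673840], (.tr (.tw (.dx 0 (.tw (.lf 13) (.tr (.lf 5) (.tw (.lf 9) (.lf 17)) (.lf 6)))) (.lf 18)) (.lf 14) (.lf 10)), 0, [7, 7, 7, 7, 7, 7, 7, 7, 7, 7, 7, 7, 2, 2, 2, 2], []⟩)))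
    (.nd (.nd (.lf ⟨[.ofNat 148387680, .negSucc 492107879, .ofNat 509232480, .negSucc 186998759, .ofNat 30266640], (.tr (.lf 14) (.dx 0 (.tr (.lf 9) (.lf 13) (.tr (.tw (.lf 5) (.lf 6)) (.lf 17) (.lf 10)))) (.lf 18)), 0, [22, 22, 22, 22, 3, 3, 22, 22], []⟩)
    (.lf ⟨[.ofNat 0, .negSucc 1347839, .ofNat 1446240, .negSucc 327359, .ofNat 60960], (.tr (.dx 0 (.tr (.lf 5) (.lf 13) (.lf 9))) (.lf 6) (.tr (.lf 17) (.tw (.lf 10) (.lf 14)) (.lf 18))), 0, [39, 15, 39, 15, 39, 15, 39, 15], [39, 15, 39, 15]⟩))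
    (.nd (.lf ⟨[.ofNat 0, .ofNat 1520640, .negSucc 1514639, .ofNat 656160, .negSucc 91439], (.tr (.lf 10) (.dx 0 (.tr (.lf 9) (.lf 5) (.lf 13))) (.tr (.lf 17) (.tw (.lf 6) (.lf 14)) (.lf 18))), 0, [12, 12, 12, 12, 12, 27, 12, 27], [39, 27, 39, 27]⟩)
    (.lf ⟨[.ofNat 0, .ofNat 967680, .negSucc 1590719, .ofNat 412800, .negSucc 121919], (.tr (.lf 17) (.lf 14) (.tr (.dx 0 (.tr (.lf 9) (.lf 5) (.lf 13))) (.tw (.lf 6) (.lf 18)) (.lf 10))), 0, [29, 35, 29, 35, 38, 38, 38, 38], [29, 35, 38, 38]⟩))))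

/-- data -/
def dV8x24 : RT := (.nd (.nd (.nd (.lf ⟨[.negSucc 19357919, .ofNat 45815880, .negSucc 42416879, .ofNat 15821160, .negSucc 2529839], (.tr (.lf 14) (.dx 0 (.tr (.lf 5) (.lf 13) (.lf 9))) (.tr (.lf 17) (.tw (.lf 6) (.lf 10)) (.lf 18))), 0, [15, 22, 15, 22, 22, 22, 22, 22], [22, 22, 22, 22]⟩)
    (.lf ⟨[.ofNat 0, .ofNat 1693440, .negSucc 1490879, .ofNat 766080, .negSucc 121919], (.tr (.lf 17) (.lf 14) (.tr (.dx 0 (.tr (.lf 5) (.lf 13) (.lf 9))) (.tw (.lf 6) (.lf 18)) (.lf 10))), 0, [29, 35, 29, 35, 38, 38, 38, 38], [29, 35, 38, 38]⟩))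
    (.nd (.lf ⟨[.ofNat 29440800, .negSucc 74320439, .ofNat 75432960, .negSucc 30697079, .ofNat 4968240], (.tw (.dx 0 (.tr (.lf 5) (.tr (.lf 13) (.tr (.lf 6) (.lf 9) (.lf 17)) (.lf 14)) (.lf 10))) (.lf 18)), 0, [0, 0, 0, 0, 3, 3, 3, 3], []⟩)
    (.lf ⟨[.negSucc 73026719, .ofNat 210538200, .negSucc 213027359, .ofNat 82445400, .negSucc 13441679], (.tw (.dx 0 (.tr (.lf 9) (.lf 13) (.tr (.lf 5) (.tr (.lf 10) (.lf 17) (.lf 14)) (.lf 6)))) (.lf 18)), 0, [3, 3, 3, 3, 0, 0, 0, 0], []⟩)))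
    (.nd (.nd (.lf ⟨[.negSucc 45793439, .ofNat 139120920, .negSucc 146587199, .ofNat 53447640, .negSucc 8808719], (.tw (.dx 0 (.tr (.lf 5) (.tr (.lf 9) (.lf 17) (.tr (.lf 13) (.lf 6) (.lf 14))) (.lf 10))) (.lf 18)), 0, [0, 0, 0, 0, 20, 20, 3, 3], []⟩)
    (.lf ⟨[.ofNat 7845120, .negSucc 17749439, .ofNat 20712960, .negSucc 8452799, .ofNat 1463040], (.tw (.dx 0 (.tr (.lf 5) (.lf 9) (.tr (.lf 10) (.tr (.lf 13) (.lf 6) (.lf 14)) (.lf 17)))) (.lf 18)), 0, [3, 3, 0, 0, 3, 3, 3, 3], []⟩))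
    (.nd (.lf ⟨[.ofNat 35400960, .negSucc 105173759, .ofNat 108351840, .negSucc 38566079, .ofNat 6278880], (.tw (.dx 0 (.tr (.lf 9) (.lf 10) (.tr (.lf 5) (.tr (.lf 13) (.lf 6) (.lf 14)) (.lf 17)))) (.lf 18)), 0, [3, 3, 20, 20, 0, 0, 30, 30], []⟩)
    (.lf ⟨[.negSucc 2211839, .ofNat 3449280, .negSucc 2484479, .ofNat 281280], (.tw (.dx 0 (.tr (.lf 17) (.lf 13) (.tr (.lf 9) (.lf 10) (.tr (.lf 5) (.lf 14) (.lf 6))))) (.lf 18)), 0, [30, 30, 30, 30, 3, 3, 3, 3], []⟩))))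

/-- data -/
def dV8 : RT := (.nd (.nd (.nd (.nd dV8x0 (.nd dV8x1 dV8x2)) (.nd dV8x3 (.nd dV8x4 dV8x5))) (.nd (.nd dV8x6 (.nd dV8x7 dV8x8)) (.nd dV8x9 (.nd dV8x10 dV8x11)))) (.nd (.nd (.nd dV8x12 (.nd dV8x13 dV8x14)) (.nd dV8x15 (.nd dV8x16 dV8x17))) (.nd (.nd dV8x18 (.nd dV8x19 dV8x20)) (.nd (.nd dV8x21 dV8x22) (.nd dV8x23 dV8x24)))))

/-- data -/
def lV8x0 : List (ℕ × List ℤ) := [(42213, [.ofNat 0, .negSucc 16127999, .ofNat 58646400, .negSucc 273299039, .ofNat 576091200, .negSucc 216263519, .negSucc 215337599, .ofNat 138733440, .negSucc 28773119]),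
  (42220, [.ofNat 0, .ofNat 71637120, .negSucc 152943839, .ofNat 134716800, .negSucc 50246879, .ofNat 7680960]),
  (42269, [.ofNat 0, .ofNat 100224000, .negSucc 259691519, .ofNat 248666880, .negSucc 96138239, .ofNat 15118080]),
  (42332, [.ofNat 0, .ofNat 12458880, .negSucc 50618399, .ofNat 61908480, .negSucc 24809759, .ofNat 4267200]),
  (42597, [.ofNat 0, .ofNat 0, .negSucc 5875199, .ofNat 6874560, .negSucc 3834239, .ofNat 609600]),
  (42604, [.ofNat 0, .negSucc 103593599, .ofNat 313271520, .negSucc 537683999, .ofNat 676692000, .negSucc 233576159, .negSucc 215337599, .ofNat 138733440, .negSucc 28773119]),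
  (42725, [.ofNat 0, .ofNat 0, .ofNat 24451200, .negSucc 248214239, .ofNat 567666240, .negSucc 215044319, .negSucc 215337599, .ofNat 138733440, .negSucc 28773119]),
  (42765, [.ofNat 0, .ofNat 0, .negSucc 14330879, .ofNat 14542080, .negSucc 7165439, .ofNat 975360]),
  (42773, [.ofNat 0, .ofNat 15108480, .negSucc 1691039, .negSucc 7346879, .ofNat 1983840, .negSucc 3323519, .negSucc 243839]),
  (42794, [.ofNat 0, .ofNat 0, .ofNat 8225280, .negSucc 11961599, .ofNat 4746240, .negSucc 975359]),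
  (42795, [.ofNat 0, .negSucc 103593599, .ofNat 288958560, .negSucc 289031999, .ofNat 108864480, .negSucc 18531839]),
  (42850, [.ofNat 0, .negSucc 285822719, .ofNat 917970240, .negSucc 944194559, .ofNat 357407040, .negSucc 59009279]),
  (43115, [.ofNat 0, .ofNat 0, .negSucc 691199, .ofNat 273600, .negSucc 1315199, .ofNat 121920]),
  (43213, [.ofNat 0, .negSucc 285822719, .ofNat 917025600, .negSucc 943495679, .ofNat 356539200, .negSucc 59009279]),
  (43221, [.ofNat 0, .ofNat 15108480, .ofNat 33681120, .negSucc 268152479, .ofNat 572745120, .negSucc 218855519, .negSucc 215581439, .ofNat 138733440, .negSucc 28773119]),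
  (43244, [.ofNat 0, .ofNat 77431680, .negSucc 188585759, .ofNat 175830720, .negSucc 65642399, .ofNat 10607040]),
  (43339, [.ofNat 0, .ofNat 0, .negSucc 10967039, .ofNat 13478400, .negSucc 6328319, .ofNat 975360]),
  (43356, [.ofNat 0, .ofNat 77431680, .negSucc 183263519, .ofNat 169667520, .negSucc 63284639, .ofNat 10119360]),
  (304364, [.ofNat 0, .ofNat 0, .negSucc 33482879, .ofNat 63329760, .ofNat 24541440, .negSucc 91715999, .ofNat 42753600, .negSucc 7802879]),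
  (304413, [.ofNat 0, .ofNat 0, .ofNat 63273600, .negSucc 97805279, .negSucc 88223519, .ofNat 216549600, .negSucc 98463839, .ofNat 18044160]),
  (304476, [.ofNat 0, .ofNat 0, .negSucc 30908159, .ofNat 88324800, .negSucc 249019679, .ofNat 256507200, .negSucc 100121759, .ofNat 16459200]),
  (304869, [.ofNat 0, .negSucc 31340159, .ofNat 185584800, .negSucc 337286639, .ofNat 2202240, .ofNat 271530000, .negSucc 136319039, .ofNat 25603200]),
  (304876, [.ofNat 0, .ofNat 0, .ofNat 29099520, .negSucc 25265279, .negSucc 204959039, .ofNat 295947840, .negSucc 124593599, .ofNat 21579840]),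
  (304933, [.ofNat 0, .negSucc 31340159, .ofNat 200964000, .negSucc 298367279, .negSucc 310095359, .ofNat 661070160, .negSucc 294957119, .ofNat 52669440]),
  (304995, [.ofNat 0, .negSucc 31812479, .ofNat 76432800, .negSucc 88325279, .negSucc 23644319, .ofNat 81952800, .negSucc 38399999, .ofNat 6827520]),
  (305373, [.ofNat 0, .ofNat 472320, .ofNat 67248000, .negSucc 115537199, .negSucc 135611039, .ofNat 283147920, .negSucc 125735999, .ofNat 22433280]),
  (305389, [.ofNat 0, .ofNat 0, .ofNat 41806080, .negSucc 23396159, .negSucc 140819039, .ofNat 213341760, .negSucc 89510879, .ofNat 15727680]),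
  (305437, [.ofNat 0, .ofNat 472320, .ofNat 65047680, .negSucc 112988399, .negSucc 59244959, .ofNat 178654800, .negSucc 81723839, .ofNat 14874240]),
  (305515, [.ofNat 0, .ofNat 0, .ofNat 5068800, .negSucc 47423999, .negSucc 50685119, .ofNat 118931520, .negSucc 56992319, .ofNat 10607040]),
  (305876, [.ofNat 0, .negSucc 31812479, .ofNat 115410720, .negSucc 212061119, .ofNat 103238880, .ofNat 33488640, .negSucc 30475199, .ofNat 6827520]),
  (305884, [.ofNat 0, .ofNat 0, .ofNat 0, .ofNat 15793920, .negSucc 30695039, .ofNat 26477760, .negSucc 8866559, .ofNat 1341120]),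
  (305955, [.ofNat 0, .ofNat 0, .ofNat 54610560, .negSucc 115761119, .ofNat 194902560, .negSucc 149699039, .ofNat 54033120, .negSucc 8168639]),
  (306012, [.ofNat 0, .ofNat 0, .ofNat 20436480, .negSucc 33342719, .ofNat 102547680, .negSucc 110206079, .ofNat 45333600, .negSucc 7680959]),
  (306019, [.ofNat 0, .ofNat 0, .negSucc 7309439, .negSucc 51296159, .ofNat 135845760, .negSucc 130216799, .ofNat 47954880, .negSucc 7680959]),
  (333036, [.ofNat 0, .ofNat 0, .ofNat 671040, .ofNat 15827280, .negSucc 20255039, .ofNat 6995280, .negSucc 1280159]),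
  (333484, [.ofNat 0, .ofNat 0, .ofNat 154028160, .negSucc 527369759, .ofNat 557172480, .negSucc 213929759, .ofNat 34991040]),
  (333610, [.ofNat 0, .ofNat 0, .negSucc 69865919, .ofNat 263159760, .negSucc 282123839, .ofNat 109421520, .negSucc 17861279]),
  (334492, [.ofNat 0, .ofNat 0, .ofNat 12087360, .negSucc 68106479, .ofNat 74761920, .negSucc 29660399, .ofNat 4815840]),
  (337516, [.ofNat 0, .negSucc 23448959, .ofNat 225278880, .negSucc 468576959, .ofNat 250445280, .ofNat 59836800, .negSucc 62295359, .ofNat 14386560]),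
  (337637, [.ofNat 0, .negSucc 8570879, .ofNat 394656000, .negSucc 973659839, .ofNat 461256960, .ofNat 276406080, .negSucc 202861439, .ofNat 43891200]),
  (337772, [.ofNat 0, .ofNat 0, .negSucc 34174079, .ofNat 70345440, .negSucc 80854079, .ofNat 35491680, .negSucc 8211839, .ofNat 487680]),
  (338141, [.ofNat 0, .ofNat 0, .negSucc 17619839, .negSucc 30682079, .ofNat 45279360, .negSucc 35094239, .ofNat 9639360, .negSucc 1463039]),
  (338219, [.ofNat 0, .ofNat 38327040, .negSucc 60302399, .negSucc 31408319, .ofNat 113098560, .negSucc 52253759, .ofNat 9753600]),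
  (338636, [.ofNat 0, .ofNat 0, .negSucc 82578239, .negSucc 772559, .ofNat 369206400, .negSucc 479113679, .ofNat 193720800, .negSucc 32918399]),
  (338780, [.ofNat 0, .ofNat 0, .negSucc 12015359, .negSucc 11079359, .ofNat 77136960, .negSucc 88508159, .ofNat 33800640, .negSucc 5486399]),
  (338787, [.ofNat 0, .ofNat 0, .negSucc 19820159, .negSucc 8819999, .ofNat 86524320, .negSucc 110783519, .ofNat 43544160, .negSucc 7437119]),
  (341221, [.ofNat 0, .ofNat 0, .ofNat 0, .ofNat 11289600, .negSucc 13422719, .ofNat 4035840, .negSucc 731519]),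
  (341347, [.ofNat 0, .ofNat 0, .negSucc 5345279, .ofNat 7176960, .negSucc 3325439, .ofNat 487680]),
  (341781, [.ofNat 0, .ofNat 0, .ofNat 25459200, .negSucc 71364479, .negSucc 21071999, .ofNat 96048000, .negSucc 47107199, .ofNat 8778240]),
  (342252, [.ofNat 0, .negSucc 14981759, .ofNat 223337760, .negSucc 592125839, .ofNat 579547680, .negSucc 215847119, .ofNat 34442400]),
  (342285, [.ofNat 0, .ofNat 0, .negSucc 109045439, .ofNat 71933520, .ofNat 298719360, .negSucc 451757999, .ofNat 189453600, .negSucc 32918399]),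
  (342668, [.ofNat 0, .ofNat 0, .ofNat 38977920, .negSucc 123735839, .ofNat 126883200, .negSucc 48464159, .ofNat 7924800]),
  (342882, [.ofNat 0, .ofNat 0, .negSucc 32227199, .ofNat 62514720, .ofNat 4175040, .negSucc 65551199, .ofNat 31242240, .negSucc 5852159]),
  (344861, [.ofNat 0, .negSucc 14981759, .ofNat 11531040, .ofNat 130297200, .negSucc 184986719, .ofNat 77843760, .negSucc 13594079]),
  (345813, [.ofNat 0, .negSucc 23448959, .ofNat 216564000, .negSucc 457523039, .ofNat 137018400, .ofNat 195377760, .negSucc 118102079, .ofNat 23652480]),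
  (346219, [.ofNat 0, .ofNat 0, .negSucc 34174079, .ofNat 82418400, .negSucc 92354879, .ofNat 39492960, .negSucc 8699519, .ofNat 487680]),
  (346317, [.ofNat 0, .ofNat 0, .negSucc 19716479, .ofNat 11484960, .ofNat 60571200, .negSucc 86659679, .ofNat 34899840, .negSucc 5852159]),
  (346731, [.ofNat 0, .ofNat 0, .negSucc 4674239, .ofNat 11714640, .negSucc 10157759, .ofNat 3447120, .negSucc 548639]),
  (2434796, [.ofNat 0, .negSucc 14549759, .ofNat 9130560, .ofNat 38791680, .negSucc 60527039, .ofNat 25138560, .negSucc 4389119]),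
  (2434916, [.ofNat 0, .ofNat 14227200, .ofNat 6947520, .negSucc 244014719, .ofNat 322027200, .negSucc 133582079, .ofNat 22920960]),
  (2434924, [.ofNat 0, .ofNat 6917760, .negSucc 63083999, .ofNat 55505760, .negSucc 13412639, .negSucc 1732319, .ofNat 975360]),
  (2435293, [.ofNat 0, .negSucc 45083519, .ofNat 132579360, .negSucc 98573759, .negSucc 29279, .ofNat 13756800, .negSucc 3901439]),
  (2435309, [.ofNat 0, .ofNat 25678080, .negSucc 14477759, .negSucc 170397119, .ofNat 235911360, .negSucc 97419839, .ofNat 16581120]),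
  (2435357, [.ofNat 0, .negSucc 14549759, .negSucc 4013759, .ofNat 89962560, .negSucc 117082559, .ofNat 47225280, .negSucc 8046719]),
  (2435812, [.ofNat 0, .ofNat 0, .negSucc 46471679, .ofNat 95285760, .negSucc 83959679, .ofNat 29610240, .negSucc 4632959]),
  (2435932, [.ofNat 0, .ofNat 8098560, .negSucc 37761599, .ofNat 39073920, .negSucc 15696959, .ofNat 2438400]),
  (2435939, [.ofNat 0, .ofNat 7309440, .ofNat 20618400, .negSucc 71255039, .ofNat 72734880, .negSucc 27211199, .ofNat 4389120]),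
  (2438933, [.ofNat 0, .negSucc 25459199, .ofNat 71364480, .ofNat 21072000, .negSucc 96047999, .ofNat 47107200, .negSucc 8778239]),
  (2438949, [.negSucc 944639, .negSucc 191347199, .ofNat 303972000, .ofNat 425488320, .negSucc 830494559, .ofNat 364717440, .negSucc 64617599]),
  (2439971, [.ofNat 0, .ofNat 32411520, .negSucc 97710239, .ofNat 98578560, .negSucc 36431519, .ofNat 5974080]),
  (2442965, [.ofNat 0, .ofNat 10915200, .negSucc 13602719, .ofNat 37060800, .negSucc 31047839, .ofNat 11794560, .negSucc 1706879]),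
  (2443485, [.negSucc 944639, .negSucc 161395199, .ofNat 232306080, .ofNat 319680000, .negSucc 632461919, .ofNat 276976320, .negSucc 49255679]),
  (2443501, [.ofNat 0, .negSucc 12706559, .negSucc 1869119, .negSucc 64139999, .ofNat 82606080, .negSucc 35082719, .ofNat 5852160]),
  (2447645, [.ofNat 0, .ofNat 34174080, .negSucc 82418399, .ofNat 92354880, .negSucc 39492959, .ofNat 8699520, .negSucc 487679]),
  (2448084, [.ofNat 0, .negSucc 6566399, .ofNat 26025600, .negSucc 28304639, .ofNat 12032640, .negSucc 1950719]),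
  (2448100, [.ofNat 0, .ofNat 0, .negSucc 12072959, .ofNat 11500800, .negSucc 4001279, .ofNat 487680]),
  (2677460, [.ofNat 0, .ofNat 0, .ofNat 11560320, .negSucc 28643039, .ofNat 25738560, .negSucc 9410399, .ofNat 1463040]),
  (2700140, [.ofNat 0, .ofNat 2200320, .negSucc 2548799, .negSucc 76366079, .ofNat 104493120, .negSucc 44012159, .ofNat 7559040]),
  (2701164, [.ofNat 0, .ofNat 19820160, .ofNat 40932000, .negSucc 122064959, .ofNat 129044640, .negSucc 48322559, .ofNat 8046720]),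
  (2705629, [.ofNat 0, .ofNat 43079040, .negSucc 15810719, .negSucc 78271679, .ofNat 124600800, .negSucc 51905279, .ofNat 9265920]),
  (2710220, [.ofNat 0, .negSucc 20269439, .ofNat 247581600, .negSucc 596694719, .ofNat 561386400, .negSucc 206705279, .ofNat 32918400]),
  (2710283, [.ofNat 0, .ofNat 32227200, .negSucc 62514719, .negSucc 4175039, .ofNat 65551200, .negSucc 31242239, .ofNat 5852160]),
  (2734349, [.ofNat 0, .ofNat 6197760, .ofNat 174875520, .negSucc 526207679, .ofNat 534030720, .negSucc 202438079, .ofNat 32918400]),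
  (2741076, [.ofNat 0, .ofNat 0, .negSucc 6335999, .ofNat 7159680, .ofNat 641280, .ofNat 243840]),
  (2741347, [.ofNat 0, .ofNat 67060800, .negSucc 172047599, .ofNat 166536960, .negSucc 62609519, .ofNat 10058400]),
  (2742868, [.ofNat 0, .ofNat 0, .ofNat 11560320, .negSucc 28643039, .ofNat 25738560, .negSucc 9410399, .ofNat 1463040]),
  (2742924, [.ofNat 0, .negSucc 38977919, .ofNat 123735840, .negSucc 126883199, .ofNat 48464160, .negSucc 7924799]),
  (2767573, [.ofNat 0, .ofNat 0, .negSucc 6335999, .ofNat 7159680, .ofNat 641280, .ofNat 243840]),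
  (2770637, [.ofNat 0, .ofNat 19716480, .negSucc 11484959, .negSucc 60571199, .ofNat 86659680, .negSucc 34899839, .ofNat 5852160]),
  (2773740, [.ofNat 0, .ofNat 67060800, .negSucc 172047599, .ofNat 166536960, .negSucc 62609519, .ofNat 10058400]),
  (19478317, [.ofNat 0, .negSucc 7240319, .ofNat 23620320, .negSucc 24802559, .ofNat 9619680, .negSucc 1584959]),
  (19478372, [.negSucc 14549759, .ofNat 16267200, .ofNat 66500640, .negSucc 104605439, .ofNat 44643360, .negSucc 7802879]),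
  (19478380, [.ofNat 0, .negSucc 5327999, .ofNat 82006560, .negSucc 102742079, .ofNat 42771360, .negSucc 7315199]),
  (19478829, [.ofNat 0, .negSucc 7240319, .ofNat 23620320, .negSucc 24802559, .ofNat 9619680, .negSucc 1584959]),
  (19479396, [.ofNat 0, .negSucc 6779519, .ofNat 112613280, .negSucc 143190719, .ofNat 58797600, .negSucc 9997439]),
  (19482349, [.negSucc 29099519, .ofNat 40235520, .ofNat 88860000, .negSucc 159354239, .ofNat 69579360, .negSucc 12313919]),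
  (19482845, [.ofNat 0, .negSucc 5327999, .ofNat 82006560, .negSucc 102742079, .ofNat 42771360, .negSucc 7315199]),
  (19482861, [.negSucc 14549759, .ofNat 31076160, .ofNat 98405760, .negSucc 160761599, .ofNat 70128000, .negSucc 12313919]),
  (19482971, [.ofNat 0, .negSucc 15471359, .ofNat 186719040, .negSucc 231277439, .ofNat 94816320, .negSucc 16093439]),
  (19482987, [.ofNat 0, .negSucc 12435839, .ofNat 5960160, .ofNat 3270720, .negSucc 2420639, .ofNat 487680])]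

/-- data -/
def lV8x1 : List (ℕ × List ℤ) := [(19486508, [.ofNat 0, .ofNat 22487040, .negSucc 40389119, .ofNat 32273280, .negSucc 11063039, .ofNat 1706880]),
  (19487460, [.ofNat 0, .ofNat 39237120, .negSucc 39029759, .ofNat 14753280, .negSucc 1950719]),
  (19487523, [.ofNat 0, .ofNat 11001600, .negSucc 35010239, .ofNat 35950080, .negSucc 13544639, .ofNat 2194560]),
  (19515741, [.ofNat 0, .ofNat 22487040, .negSucc 40389119, .ofNat 32273280, .negSucc 11063039, .ofNat 1706880]),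
  (21313772, [.ofNat 0, .negSucc 671039, .negSucc 15827279, .ofNat 20255040, .negSucc 6995279, .ofNat 1280160]),
  (21314332, [.ofNat 0, .ofNat 671040, .ofNat 4537680, .negSucc 6832319, .ofNat 2959440, .negSucc 548639]),
  (21342956, [.ofNat 0, .negSucc 154699199, .ofNat 522832080, .negSucc 550340159, .ofNat 210970320, .negSucc 34442399]),
  (21343004, [.ofNat 0, .ofNat 671040, .ofNat 4537680, .negSucc 6832319, .ofNat 2959440, .negSucc 548639]),
  (21347156, [.ofNat 0, .negSucc 29612159, .ofNat 82765920, .negSucc 81990719, .ofNat 30394080, .negSucc 4876799]),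
  (21350571, [.ofNat 0, .ofNat 102847680, .negSucc 246809039, .ofNat 227488320, .negSucc 82272719, .ofNat 12984480]),
  (21353763, [.ofNat 0, .ofNat 102847680, .negSucc 246809039, .ofNat 227488320, .negSucc 82272719, .ofNat 12984480]),
  (21354282, [.ofNat 0, .ofNat 69865920, .negSucc 263159759, .ofNat 282123840, .negSucc 109421519, .ofNat 17861280]),
  (21374700, [.ofNat 0, .ofNat 19673280, .negSucc 19014479, .ofNat 6772800, .negSucc 517199, .negSucc 182879]),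
  (21386964, [.ofNat 0, .ofNat 19673280, .negSucc 19014479, .ofNat 6772800, .negSucc 517199, .negSucc 182879]),
  (21416604, [.ofNat 0, .negSucc 7413119, .ofNat 56391840, .negSucc 64604159, .ofNat 26213280, .negSucc 4267199]),
  (21416730, [.ofNat 0, .ofNat 0, .negSucc 11289599, .ofNat 13422720, .negSucc 4035839, .ofNat 731520]),
  (21419732, [.ofNat 0, .negSucc 43464959, .ofNat 114264000, .negSucc 109319039, .ofNat 40048320, .negSucc 6339839]),
  (21608549, [.ofNat 0, .negSucc 29612159, .ofNat 82765920, .negSucc 81990719, .ofNat 30394080, .negSucc 4876799]),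
  (21645931, [.ofNat 0, .negSucc 29612159, .ofNat 82765920, .negSucc 81990719, .ofNat 30394080, .negSucc 4876799]),
  (21805922, [.ofNat 0, .negSucc 19673279, .ofNat 19014480, .negSucc 6772799, .ofNat 517200, .ofNat 182880]),
  (21879380, [.ofNat 0, .negSucc 13852799, .ofNat 31498080, .negSucc 27328319, .ofNat 9654240, .negSucc 1463039]),
  (21903956, [.ofNat 0, .ofNat 0, .ofNat 2292480, .negSucc 2855039, .ofNat 1589760, .negSucc 243839]),
  (22070941, [.ofNat 0, .ofNat 69865920, .negSucc 263159759, .ofNat 282123840, .negSucc 109421519, .ofNat 17861280]),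
  (22137451, [.ofNat 0, .negSucc 8084159, .ofNat 54146640, .negSucc 60626879, .ofNat 24843600, .negSucc 3962399]),
  (22206042, [.ofNat 0, .negSucc 19673279, .ofNat 19014480, .negSucc 6772799, .ofNat 517200, .ofNat 182880]),
  (22337699, [.ofNat 0, .negSucc 154699199, .ofNat 522832080, .negSucc 550340159, .ofNat 210970320, .negSucc 34442399]),
  (155826477, [.ofNat 14480640, .negSucc 47240639, .ofNat 49605120, .negSucc 19239359, .ofNat 3169920]),
  (155834212, [.negSucc 8098559, .ofNat 37761600, .negSucc 39073919, .ofNat 15696960, .negSucc 2438399]),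
  (155859181, [.negSucc 16197119, .ofNat 75523200, .negSucc 78147839, .ofNat 31393920, .negSucc 4876799]),
  (155862765, [.negSucc 14480639, .ofNat 47240640, .negSucc 49605119, .ofNat 19239360, .negSucc 3169919]),
  (155899676, [.negSucc 8098559, .ofNat 37761600, .negSucc 39073919, .ofNat 15696960, .negSucc 2438399]),
  (156117789, [.negSucc 63086399, .ofNat 163494960, .negSucc 155188799, .ofNat 58290480, .negSucc 9204959]),
  (156128541, [.negSucc 63086399, .ofNat 163494960, .negSucc 155188799, .ofNat 58290480, .negSucc 9204959]),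
  (156128933, [.negSucc 133083359, .ofNat 376567560, .negSucc 369261359, .ofNat 145859880, .negSucc 23713439]),
  (156129437, [.ofNat 55560960, .negSucc 137595519, .ofNat 125118400, .negSucc 39245439, .ofNat 5791200]),
  (156157157, [.ofNat 73041120, .negSucc 336885639, .ofNat 381658000, .negSucc 137432679, .ofNat 22799040]),
  (156157605, [.negSucc 60042239, .ofNat 39681920, .ofNat 12396640, .ofNat 8427200, .negSucc 914399]),
  (156347109, [.negSucc 30723839, .ofNat 52756800, .negSucc 39758399, .ofNat 13970880, .negSucc 2072639]),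
  (156357861, [.negSucc 30723839, .ofNat 52756800, .negSucc 39758399, .ofNat 13970880, .negSucc 2072639]),
  (156358813, [.negSucc 332981279, .ofNat 1085358840, .negSucc 1120546079, .ofNat 408027000, .negSucc 66111119]),
  (156415205, [.ofNat 43634880, .negSucc 105525519, .ofNat 93328960, .negSucc 26838159, .ofNat 3779520]),
  (156415261, [.ofNat 332981280, .negSucc 1085358839, .ofNat 1120546080, .negSucc 408026999, .ofNat 66111120]),
  (156419741, [.ofNat 99195840, .negSucc 243121039, .ofNat 218447360, .negSucc 66083599, .ofNat 9570720]),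
  (156616035, [.negSucc 504192959, .ofNat 1544644880, .negSucc 1576427359, .ofNat 577109840, .negSucc 93878399]),
  (156646051, [.ofNat 504192960, .negSucc 1544644879, .ofNat 1576427360, .negSucc 577109839, .ofNat 93878400]),
  (170842275, [.negSucc 27172799, .ofNat 91741200, .negSucc 91479839, .ofNat 35351760, .negSucc 5364479]),
  (171027173, [.ofNat 0, .ofNat 3041280, .negSucc 3029279, .ofNat 1312320, .negSucc 182879]),
  (171027229, [.ofNat 0, .ofNat 3041280, .negSucc 3029279, .ofNat 1312320, .negSucc 182879]),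
  (171031205, [.ofNat 340303680, .negSucc 1080112559, .ofNat 1108899840, .negSucc 407384879, .ofNat 65897760]),
  (171263787, [.ofNat 7490880, .negSucc 34319279, .ofNat 34646880, .negSucc 14603759, .ofNat 2438400]),
  (171300642, [.ofNat 66378240, .negSucc 203448959, .ofNat 211734720, .negSucc 76569599, .ofNat 12557760]),
  (171301146, [.ofNat 15690240, .negSucc 35498879, .ofNat 41425920, .negSucc 16905599, .ofNat 2926080]),
  (171321187, [.ofNat 0, .ofNat 1399680, .negSucc 1464479, .ofNat 346560, .negSucc 60959]),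
  (171326108, [.ofNat 7490880, .negSucc 39151919, .ofNat 41220960, .negSucc 16475759, .ofNat 2560320]),
  (171326115, [.ofNat 167869440, .negSucc 574226559, .ofNat 598300480, .negSucc 219911679, .ofNat 35356800]),
  (171329370, [.negSucc 4423679, .ofNat 6898560, .negSucc 4968959, .ofNat 562560]),
  (171358420, [.ofNat 0, .ofNat 2292480, .negSucc 2855039, .ofNat 1589760, .negSucc 243839]),
  (172804837, [.ofNat 178292160, .negSucc 507245199, .ofNat 506610880, .negSucc 180553359, .ofNat 29199840]),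
  (172804844, [.negSucc 170228159, .ofNat 487014160, .negSucc 490637439, .ofNat 174728080, .negSucc 28346399]),
  (172808421, [.negSucc 1952639, .ofNat 120480, .ofNat 2875200, .negSucc 1114079, .ofNat 243840]),
  (172808428, [.negSucc 8677439, .ofNat 25557360, .negSucc 26375999, .ofNat 10097520, .negSucc 1645919]),
  (172808540, [.ofNat 15405120, .negSucc 44054639, .ofNat 44747520, .negSucc 16984559, .ofNat 2743200]),
  (172870245, [.ofNat 0, .ofNat 69120, .ofNat 218880, .negSucc 80639]),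
  (172870413, [.ofNat 11646720, .negSucc 28345919, .ofNat 22433280, .negSucc 8527679, .ofNat 1219200]),
  (172890909, [.negSucc 87405119, .ofNat 305259760, .negSucc 321821919, .ofNat 123626800, .negSucc 20360639]),
  (172905189, [.negSucc 75369599, .ofNat 211935200, .negSucc 211385599, .ofNat 76175840, .negSucc 12191999]),
  (172905196, [.negSucc 82094399, .ofNat 237372080, .negSucc 240636799, .ofNat 87387440, .negSucc 14081759]),
  (172905245, [.negSucc 237450239, .ofNat 724312320, .negSucc 739364639, .ofNat 277112640, .negSucc 45049439]),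
  (172923228, [.negSucc 339554879, .ofNat 1082183280, .negSucc 1111627679, .ofNat 407964720, .negSucc 66080639]),
  (172933861, [.negSucc 112167359, .ofNat 392707600, .negSucc 420634719, .ofNat 150183760, .negSucc 24383999]),
  (172933868, [.negSucc 335537279, .ofNat 1007133280, .negSucc 1028151519, .ofNat 373822240, .negSucc 60655199]),
  (172933987, [.ofNat 9034560, .negSucc 16442159, .ofNat 14125440, .negSucc 5112239, .ofNat 792480]),
  (172934757, [.negSucc 290459519, .ofNat 899952800, .negSucc 927245599, .ofNat 330737120, .negSucc 53583839]),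
  (172934988, [.negSucc 9783359, .ofNat 8801520, .negSucc 2512319, .ofNat 146160, .ofNat 60960]),
  (172935275, [.ofNat 348336000, .negSucc 1036556319, .ofNat 1042725280, .negSucc 380644959, .ofNat 61508640]),
  (172935779, [.ofNat 67060800, .negSucc 168729839, .ofNat 162614400, .negSucc 60854639, .ofNat 9814560]),
  (172935884, [.negSucc 76668479, .ofNat 211187440, .negSucc 211033599, .ofNat 81685360, .negSucc 13472159]),
  (172935947, [.negSucc 20784959, .ofNat 67894320, .negSucc 76470719, .ofNat 29763120, .negSucc 5059679]),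
  (173062941, [.negSucc 26035199, .ofNat 75216000, .negSucc 74987519, .ofNat 29132160, .negSucc 4632959]),
  (173120229, [.ofNat 239569920, .negSucc 833397119, .ofNat 874859040, .negSucc 312542399, .ofNat 50413920]),
  (173132395, [.negSucc 11926079, .ofNat 29777520, .negSucc 28934399, .ofNat 10817520, .negSucc 1767839]),
  (173134565, [.ofNat 301944960, .negSucc 1004239839, .ofNat 1045798240, .negSucc 378601119, .ofNat 61386720]),
  (173134635, [.ofNat 49521600, .negSucc 214121999, .ofNat 231907200, .negSucc 78126479, .ofNat 12618720]),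
  (173134691, [.negSucc 11926079, .ofNat 32070000, .negSucc 31789439, .ofNat 12407280, .negSucc 2011679]),
  (173135979, [.ofNat 5993280, .negSucc 118225199, .ofNat 141472320, .negSucc 44739119, .ofNat 7254240]),
  (173136077, [.ofNat 62375040, .negSucc 170842719, .ofNat 170939200, .negSucc 66058719, .ofNat 10972800]),
  (173168235, [.negSucc 19946879, .ofNat 60408480, .negSucc 67061759, .ofNat 25441440, .negSucc 4267199]),
  (173168459, [.negSucc 19163519, .ofNat 59763360, .negSucc 67061759, .ofNat 25441440, .negSucc 4267199]),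
  (173184867, [.ofNat 305441280, .negSucc 1000955519, .ofNat 1037061600, .negSucc 380604479, .ofNat 61752480]),
  (173191965, [.negSucc 26035199, .ofNat 75216000, .negSucc 74987519, .ofNat 29132160, .negSucc 4632959]),
  (173192035, [.ofNat 305441280, .negSucc 1000955519, .ofNat 1037061600, .negSucc 380604479, .ofNat 61752480]),
  (173192805, [.ofNat 348336000, .negSucc 1036556319, .ofNat 1042725280, .negSucc 380644959, .ofNat 61508640]),
  (173324636, [.negSucc 6229439, .ofNat 25309200, .negSucc 30954239, .ofNat 12404880, .negSucc 2133599]),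
  (173421404, [.negSucc 94803839, .ofNat 236852000, .negSucc 234570559, .ofNat 83361440, .negSucc 13655039]),
  (173423196, [.negSucc 88574399, .ofNat 211542800, .negSucc 203616319, .ofNat 70956560, .negSucc 11521439]),
  (174414109, [.negSucc 96704639, .ofNat 326029280, .negSucc 339022879, .ofNat 121621280, .negSucc 19446239]),
  (174443348, [.ofNat 296775360, .negSucc 984215759, .ofNat 1018464960, .negSucc 373997519, .ofNat 60533280]),
  (174467813, [.ofNat 0, .negSucc 1399679, .ofNat 1464480, .negSucc 346559, .ofNat 60960]),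
  (174467932, [.negSucc 134639999, .ofNat 374997920, .negSucc 372795199, .ofNat 136501280, .negSucc 21945599]),
  (174471845, [.ofNat 0, .negSucc 1399679, .ofNat 1464480, .negSucc 346559, .ofNat 60960])]

/-- data -/
def lV8x2 : List (ℕ × List ℤ) := [(174471852, [.ofNat 37336320, .negSucc 196362559, .ofNat 221163680, .negSucc 80984959, .ofNat 12984480]),
  (174478565, [.ofNat 0, .ofNat 3041280, .negSucc 3029279, .ofNat 1312320, .negSucc 182879]),
  (174478621, [.negSucc 96704639, .ofNat 329727200, .negSucc 343761439, .ofNat 122807840, .negSucc 19690079]),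
  (174479125, [.negSucc 13063679, .ofNat 26833920, .negSucc 22169279, .ofNat 8311680, .negSucc 1463039]),
  (174479517, [.ofNat 0, .negSucc 1002239, .ofNat 1401600, .ofNat 111360]),
  (174500076, [.negSucc 38715839, .ofNat 91631760, .negSucc 84833759, .ofNat 31642320, .negSucc 5059679]),
  (174500188, [.negSucc 20635199, .ofNat 68173680, .negSucc 69587999, .ofNat 26625840, .negSucc 4206239]),
  (174504108, [.negSucc 67415039, .ofNat 178118400, .negSucc 171721919, .ofNat 64855680, .negSucc 10363199]),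
  (174507356, [.negSucc 5990399, .ofNat 25728000, .negSucc 28846079, .ofNat 10993920, .negSucc 1584959]),
  (174508700, [.ofNat 59860800, .negSucc 171501359, .ofNat 170255520, .negSucc 63966959, .ofNat 10485120]),
  (174512284, [.negSucc 15773759, .ofNat 31188720, .negSucc 26881919, .ofNat 9767280, .negSucc 1523999]),
  (174512291, [.negSucc 15773759, .ofNat 31188720, .negSucc 26881919, .ofNat 9767280, .negSucc 1523999]),
  (174512340, [.ofNat 296775360, .negSucc 984215759, .ofNat 1018464960, .negSucc 373997519, .ofNat 60533280]),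
  (174512410, [.ofNat 11646720, .negSucc 28415039, .ofNat 22214400, .negSucc 8447039, .ofNat 1219200]),
  (174741100, [.ofNat 0, .ofNat 1451520, .negSucc 1790399, .ofNat 1261440, .negSucc 121919]),
  (174741261, [.negSucc 353894399, .ofNat 1166640640, .negSucc 1208627679, .ofNat 439622080, .negSucc 70896479]),
  (174742108, [.ofNat 51287040, .negSucc 137541119, .ofNat 135732480, .negSucc 51087359, .ofNat 8290560]),
  (174758236, [.ofNat 173911680, .negSucc 468833119, .ofNat 460933760, .negSucc 169647199, .ofNat 27310080]),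
  (174769772, [.ofNat 414247680, .negSucc 1252192959, .ofNat 1277606080, .negSucc 454381119, .ofNat 73395840]),
  (174987941, [.ofNat 332239680, .negSucc 1057445039, .ofNat 1087472160, .negSucc 398786159, .ofNat 64617600]),
  (175031082, [.ofNat 297950400, .negSucc 890938959, .ofNat 896934880, .negSucc 330493839, .ofNat 53400960]),
  (175031138, [.negSucc 42353279, .ofNat 189173600, .negSucc 211964959, .ofNat 76891040, .negSucc 12496799]),
  (175032461, [.ofNat 351276480, .negSucc 1097969039, .ofNat 1130528640, .negSucc 413997839, .ofNat 67238880]),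
  (175155997, [.ofNat 0, .ofNat 6278400, .negSucc 7328639, .ofNat 3121920, .negSucc 487679]),
  (175156011, [.ofNat 0, .negSucc 6451199, .ofNat 7353600, .negSucc 3367679, .ofNat 487680]),
  (175159973, [.ofNat 0, .ofNat 3024000, .negSucc 2628479, .ofNat 508800, .ofNat 121920]),
  (175159980, [.ofNat 104751360, .negSucc 374480959, .ofNat 392885600, .negSucc 145840639, .ofNat 23347680]),
  (175166693, [.ofNat 0, .ofNat 2741760, .negSucc 3369599, .ofNat 1582080, .negSucc 243839]),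
  (175166700, [.negSucc 10848959, .ofNat 24375120, .negSucc 20366399, .ofNat 8204880, .negSucc 1402079]),
  (175166749, [.ofNat 0, .ofNat 6278400, .negSucc 7328639, .ofNat 3121920, .negSucc 487679]),
  (175166763, [.ofNat 0, .ofNat 2131200, .negSucc 2114399, .ofNat 765120, .negSucc 60959]),
  (175167141, [.ofNat 0, .ofNat 322560, .ofNat 715200, .negSucc 332159, .ofNat 121920]),
  (175167253, [.ofNat 0, .ofNat 2730240, .negSucc 2410559, .ofNat 1234560, .negSucc 121919]),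
  (175167274, [.ofNat 0, .negSucc 3409919, .ofNat 3667200, .negSucc 1981439, .ofNat 243840]),
  (175167330, [.negSucc 221950079, .ofNat 663819360, .negSucc 677803199, .ofNat 254880480, .negSucc 41574719]),
  (175167645, [.ofNat 49844160, .negSucc 162819599, .ofNat 169473600, .negSucc 64450319, .ofNat 10911840]),
  (175167659, [.negSucc 88640639, .ofNat 316627040, .negSucc 334481119, .ofNat 119351840, .negSucc 18958559]),
  (175167722, [.ofNat 307163520, .negSucc 996101279, .ofNat 1040058240, .negSucc 380952479, .ofNat 61813440]),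
  (175168226, [.negSucc 76668479, .ofNat 216670960, .negSucc 217772799, .ofNat 84849520, .negSucc 13959839]),
  (175168275, [.negSucc 1952639, .ofNat 120480, .ofNat 2875200, .negSucc 1114079, .ofNat 243840]),
  (175168282, [.negSucc 397028159, .ofNat 1230702000, .negSucc 1267163519, .ofNat 465050160, .negSucc 75651359]),
  (175184683, [.negSucc 414247679, .ofNat 1252192960, .negSucc 1277606079, .ofNat 454381120, .negSucc 73395839]),
  (175192845, [.negSucc 51503039, .ofNat 135252240, .negSucc 127361759, .ofNat 48025680, .negSucc 7680959]),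
  (175198949, [.ofNat 128197440, .negSucc 381733039, .ofNat 384493760, .negSucc 141925039, .ofNat 23103840]),
  (175198956, [.ofNat 5676480, .negSucc 28569359, .ofNat 31238400, .negSucc 11567759, .ofNat 1767840]),
  (175199005, [.ofNat 15773760, .negSucc 29437679, .ofNat 24895680, .negSucc 8932079, .ofNat 1402080]),
  (175199019, [.ofNat 21764160, .negSucc 44031599, .ofNat 41195040, .negSucc 14963759, .ofNat 2438400]),
  (175199068, [.ofNat 51387840, .negSucc 201416719, .ofNat 219816320, .negSucc 78408079, .ofNat 12862560]),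
  (175199075, [.ofNat 0, .ofNat 1146240, .negSucc 2254079, .ofNat 163200, .ofNat 121920]),
  (175199845, [.ofNat 0, .ofNat 3024000, .negSucc 2628479, .ofNat 508800, .ofNat 121920]),
  (175199852, [.ofNat 8064000, .negSucc 12938879, .ofNat 9208320, .negSucc 2901119, .ofNat 609600]),
  (175231660, [.ofNat 7490880, .negSucc 34319279, .ofNat 34646880, .negSucc 14603759, .ofNat 2438400]),
  (175231786, [.negSucc 353894399, .ofNat 1166640640, .negSucc 1208627679, .ofNat 439622080, .negSucc 70896479]),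
  (175250266, [.ofNat 351276480, .negSucc 1097969039, .ofNat 1130528640, .negSucc 413997839, .ofNat 67238880]),
  (175264413, [.ofNat 1952640, .negSucc 120479, .negSucc 2875199, .ofNat 1114080, .negSucc 243839]),
  (175264861, [.negSucc 266932799, .ofNat 816176880, .negSucc 833091359, .ofNat 297962160, .negSucc 48036479]),
  (175265365, [.negSucc 170228159, .ofNat 490147600, .negSucc 494068479, .ofNat 176340880, .negSucc 28590239]),
  (175265610, [.ofNat 11266560, .negSucc 28600319, .ofNat 36456960, .negSucc 16343039, .ofNat 2926080]),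
  (175281388, [.negSucc 10526399, .ofNat 45381840, .negSucc 47291519, .ofNat 18169680, .negSucc 2865119]),
  (175281437, [.negSucc 79401599, .ofNat 278901600, .negSucc 295785119, .ofNat 108804000, .negSucc 17861279]),
  (175281500, [.ofNat 0, .negSucc 3686399, .ofNat 4320000, .negSucc 1708799, .ofNat 243840]),
  (175281836, [.negSucc 59860799, .ofNat 171443760, .negSucc 170696159, .ofNat 64855920, .negSucc 10607039]),
  (175282004, [.ofNat 5601600, .ofNat 3785040, .negSucc 10573439, .ofNat 4912080, .negSucc 1036319]),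
  (175282347, [.ofNat 8064000, .negSucc 11902079, .ofNat 8629920, .negSucc 3007679, .ofNat 548640]),
  (175282410, [.ofNat 315011520, .negSucc 1027376399, .ofNat 1074115680, .negSucc 393402959, .ofNat 63642240]),
  (175282522, [.negSucc 59351039, .ofNat 161268480, .negSucc 155974079, .ofNat 58385280, .negSucc 9387839]),
  (175284965, [.ofNat 0, .ofNat 4101120, .negSucc 5021759, .ofNat 2025600, .negSucc 365759]),
  (175284972, [.ofNat 59351040, .negSucc 170069759, .ofNat 165745920, .negSucc 62737919, .ofNat 9997440]),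
  (175285021, [.ofNat 0, .negSucc 1866239, .ofNat 2132160, .negSucc 493439, .ofNat 121920]),
  (175285035, [.ofNat 0, .negSucc 4999679, .ofNat 5563200, .negSucc 2106239, .ofNat 365760]),
  (175285091, [.negSucc 10526399, .ofNat 45381840, .negSucc 47291519, .ofNat 18169680, .negSucc 2865119]),
  (175285868, [.ofNat 0, .ofNat 2741760, .negSucc 3369599, .ofNat 1582080, .negSucc 243839]),
  (175286379, [.ofNat 0, .ofNat 2903040, .negSucc 700799, .negSucc 134399, .ofNat 243840]),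
  (175286477, [.negSucc 51796799, .ofNat 173878320, .negSucc 178257599, .ofNat 68236080, .negSucc 11155679]),
  (175288997, [.ofNat 0, .ofNat 1958400, .negSucc 2579519, .ofNat 662400, .negSucc 121919]),
  (175289004, [.ofNat 13248000, .negSucc 78167679, .ofNat 89919040, .negSucc 35004159, .ofNat 5730240]),
  (175289130, [.ofNat 0, .negSucc 1370879, .ofNat 2611200, .negSucc 791039, .ofNat 243840]),
  (175289172, [.negSucc 40518719, .ofNat 159289200, .negSucc 168788159, .ofNat 65508720, .negSucc 10667999]),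
  (175289186, [.ofNat 59351040, .negSucc 159851519, .ofNat 154814400, .negSucc 58277759, .ofNat 9387840]),
  (175289613, [.ofNat 370457280, .negSucc 1187781839, .ofNat 1233046560, .negSucc 454027919, .ofNat 73517760]),
  (175289676, [.ofNat 5279040, .negSucc 6738479, .ofNat 5252160, .negSucc 1558319, .ofNat 182880]),
  (175290474, [.negSucc 51503039, .ofNat 135252240, .negSucc 127361759, .ofNat 48025680, .negSucc 7680959]),
  (175290509, [.negSucc 59351039, .ofNat 161268480, .negSucc 155974079, .ofNat 58385280, .negSucc 9387839]),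
  (175293099, [.ofNat 0, .ofNat 1451520, .negSucc 1790399, .ofNat 1261440, .negSucc 121919]),
  (175293547, [.ofNat 414247680, .negSucc 1252192959, .ofNat 1277606080, .negSucc 454381119, .ofNat 73395840]),
  (175297236, [.ofNat 305809920, .negSucc 1000657919, .ofNat 1032590400, .negSucc 379109759, .ofNat 61325760]),
  (175297250, [.negSucc 150045119, .ofNat 419052560, .negSucc 417542719, .ofNat 153485840, .negSucc 24688799]),
  (175297299, [.negSucc 58011839, .ofNat 167760080, .negSucc 169513279, .ofNat 60305360, .negSucc 9692639]),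
  (175297306, [.negSucc 472397759, .ofNat 1442637200, .negSucc 1478549119, .ofNat 541226000, .negSucc 87843359]),
  (175421794, [.ofNat 0, .ofNat 967680, .negSucc 1590719, .ofNat 412800, .negSucc 121919]),
  (175424867, [.ofNat 0, .ofNat 6675840, .negSucc 6604799, .ofNat 2198400, .negSucc 121919]),
  (175425322, [.ofNat 413245440, .negSucc 1336577919, .ofNat 1373714080, .negSucc 502079679, .ofNat 80650080]),
  (175425378, [.negSucc 87171839, .ofNat 274128960, .negSucc 276679679, .ofNat 104262720, .negSucc 17068799]),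
  (175425693, [.ofNat 246896640, .negSucc 700263679, .ofNat 705073280, .negSucc 257404159, .ofNat 42062400]),
  (175426211, [.ofNat 8064000, .negSucc 13618559, .ofNat 10043520, .negSucc 4690559, .ofNat 853440]),
  (175426260, [.ofNat 0, .ofNat 3133440, .negSucc 3431039, .ofNat 1612800, .negSucc 243839]),
  (175426274, [.ofNat 43194240, .negSucc 149991199, .ofNat 163436480, .negSucc 47399839, .ofNat 7437120]),
  (175429844, [.ofNat 59860800, .negSucc 168771119, .ofNat 167107680, .negSucc 63193199, .ofNat 10363200]),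
  (175446301, [.negSucc 69177599, .ofNat 183613760, .negSucc 183871999, .ofNat 62688320, .negSucc 10119359]),
  (175457004, [.ofNat 0, .ofNat 6675840, .negSucc 6604799, .ofNat 2198400, .negSucc 121919])]

/-- data -/
def lV8x3 : List (ℕ × List ℤ) := [(175457053, [.negSucc 123042239, .ofNat 344737040, .negSucc 340982719, .ofNat 124236560, .negSucc 20055839]),
  (175457067, [.ofNat 0, .ofNat 1958400, .negSucc 2579519, .ofNat 662400, .negSucc 121919]),
  (175457893, [.ofNat 8064000, .negSucc 16060799, .ofNat 14264160, .negSucc 6596159, .ofNat 1158240]),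
  (175458908, [.negSucc 5990399, .ofNat 17635200, .negSucc 19328639, .ofNat 7344000, .negSucc 1219199]),
  (175489701, [.negSucc 4936319, .ofNat 9506400, .negSucc 4622399, .ofNat 1290720]),
  (175489890, [.ofNat 58881600, .negSucc 146947439, .ofNat 149375040, .negSucc 60628079, .ofNat 9814560]),
  (175495434, [.ofNat 66378240, .negSucc 203448959, .ofNat 211734720, .negSucc 76569599, .ofNat 12557760]),
  (175510883, [.ofNat 0, .negSucc 4999679, .ofNat 5563200, .negSucc 2106239, .ofNat 365760]),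
  (175511317, [.negSucc 56796479, .ofNat 180481200, .negSucc 182249279, .ofNat 70288560, .negSucc 11399519]),
  (175512220, [.ofNat 173911680, .negSucc 468833119, .ofNat 460933760, .negSucc 169647199, .ofNat 27310080]),
  (175512227, [.ofNat 103394880, .negSucc 272259439, .ofNat 267591680, .negSucc 97237999, .ofNat 15788640]),
  (175512290, [.ofNat 43194240, .negSucc 149991199, .ofNat 163436480, .negSucc 47399839, .ofNat 7437120]),
  (175514397, [.ofNat 44907840, .negSucc 152408879, .ofNat 162039360, .negSucc 62652719, .ofNat 10668000]),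
  (175514460, [.ofNat 0, .negSucc 668159, .ofNat 297600, .negSucc 399359]),
  (175515237, [.ofNat 0, .negSucc 1002239, .ofNat 1401600, .ofNat 111360]),
  (175515405, [.ofNat 57398400, .negSucc 156470879, .ofNat 152439360, .negSucc 57565919, .ofNat 9265920]),
  (175515853, [.negSucc 221950079, .ofNat 663819360, .negSucc 677803199, .ofNat 254880480, .negSucc 41574719]),
  (175516252, [.negSucc 51796799, .ofNat 170468400, .negSucc 174343679, .ofNat 66306480, .negSucc 10789919]),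
  (175516259, [.ofNat 53749440, .negSucc 172990799, .ofNat 178391520, .negSucc 66018959, .ofNat 10607040]),
  (175518373, [.ofNat 15693120, .negSucc 33944879, .ofNat 31575360, .negSucc 11761199, .ofNat 1889760]),
  (175518380, [.negSucc 62415359, .ofNat 164384640, .negSucc 157821119, .ofNat 58202880, .negSucc 9387839]),
  (175518562, [.ofNat 13063680, .negSucc 39125759, .ofNat 38708160, .negSucc 17347199, .ofNat 2926080]),
  (175518821, [.ofNat 0, .ofNat 4101120, .negSucc 5021759, .ofNat 2025600, .negSucc 365759]),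
  (175518989, [.ofNat 498360960, .negSucc 1530888799, .ofNat 1566644480, .negSucc 575742559, .ofNat 93146880]),
  (175519052, [.ofNat 16128000, .negSucc 31113599, .ofNat 25618560, .negSucc 9763199, .ofNat 1584960]),
  (175526563, [.negSucc 414247679, .ofNat 1253592640, .negSucc 1279070559, .ofNat 454727680, .negSucc 73456799]),
  (175527011, [.ofNat 0, .negSucc 3133439, .ofNat 3431040, .negSucc 1612799, .ofNat 243840]),
  (175548508, [.negSucc 134639999, .ofNat 374997920, .negSucc 372795199, .ofNat 136501280, .negSucc 21945599]),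
  (175556698, [.negSucc 783359, .ofNat 645120]),
  (176540373, [.negSucc 46195199, .ofNat 187858560, .negSucc 200026559, .ofNat 77076480, .negSucc 12435839]),
  (176543005, [.ofNat 59860800, .negSucc 168771119, .ofNat 167107680, .negSucc 63193199, .ofNat 10363200]),
  (176543019, [.ofNat 79401600, .negSucc 278901599, .ofNat 295785120, .negSucc 108803999, .ofNat 17861280]),
  (176543957, [.negSucc 2462399, .ofNat 30513360, .negSucc 35207999, .ofNat 13913040, .negSucc 2255519]),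
  (176544531, [.ofNat 0, .ofNat 69120, .ofNat 218880, .negSucc 80639]),
  (176568989, [.ofNat 7490880, .negSucc 34319279, .ofNat 34646880, .negSucc 14603759, .ofNat 2438400]),
  (176600349, [.ofNat 166734720, .negSucc 470677279, .ofNat 460607840, .negSucc 160513759, .ofNat 25176480]),
  (176600363, [.ofNat 0, .negSucc 2695679, .ofNat 2892480, .negSucc 654719, .ofNat 121920]),
  (176601245, [.ofNat 166734720, .negSucc 470677279, .ofNat 460607840, .negSucc 160513759, .ofNat 25176480]),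
  (176601875, [.ofNat 0, .negSucc 2626559, .ofNat 3111360, .negSucc 735359, .ofNat 121920]),
  (176806093, [.ofNat 58881600, .negSucc 148640879, .ofNat 150865920, .negSucc 61394159, .ofNat 9936480]),
  (176838349, [.negSucc 20784959, .ofNat 67894320, .negSucc 76470719, .ofNat 29763120, .negSucc 5059679]),
  (176990956, [.ofNat 0, .ofNat 967680, .negSucc 1590719, .ofNat 412800, .negSucc 121919]),
  (176999125, [.negSucc 56796479, .ofNat 180481200, .negSucc 182249279, .ofNat 70288560, .negSucc 11399519]),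
  (177001708, [.ofNat 0, .ofNat 1693440, .negSucc 1490879, .ofNat 766080, .negSucc 121919]),
  (177001757, [.ofNat 0, .ofNat 3133440, .negSucc 3431039, .ofNat 1612800, .negSucc 243839]),
  (177001771, [.ofNat 0, .ofNat 6197760, .negSucc 7112639, .ofNat 2590080, .negSucc 365759]),
  (177002149, [.ofNat 93067200, .negSucc 297133199, .ofNat 304214400, .negSucc 114665999, .ofNat 18714720]),
  (177002282, [.negSucc 14227199, .ofNat 124242240, .negSucc 152555519, .ofNat 58758720, .negSucc 9997439]),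
  (177002653, [.ofNat 0, .negSucc 6543359, .ofNat 7098240, .negSucc 3594239, .ofNat 487680]),
  (177002709, [.ofNat 49844160, .negSucc 164513039, .ofNat 170964480, .negSucc 65216399, .ofNat 11033760]),
  (177003234, [.negSucc 9783359, .ofNat 8801520, .negSucc 2512319, .ofNat 146160, .ofNat 60960]),
  (177033964, [.negSucc 127889279, .ofNat 363380000, .negSucc 360593599, .ofNat 132394400, .negSucc 21457919]),
  (177034027, [.ofNat 73644480, .negSucc 205000079, .ofNat 204193920, .negSucc 77206799, .ofNat 12374880]),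
  (177034853, [.ofNat 0, .negSucc 3582719, .ofNat 4535040, .negSucc 1493759, .ofNat 243840]),
  (177035469, [.ofNat 51796800, .negSucc 176608559, .ofNat 181405440, .negSucc 69009839, .ofNat 11277600]),
  (177056357, [.ofNat 641589120, .negSucc 2014389279, .ofNat 2062295680, .negSucc 754581279, .ofNat 122285760]),
  (177056525, [.ofNat 15405120, .negSucc 44054639, .ofNat 44747520, .negSucc 16984559, .ofNat 2743200]),
  (177099883, [.negSucc 62415359, .ofNat 164384640, .negSucc 157821119, .ofNat 58202880, .negSucc 9387839]),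
  (177116459, [.ofNat 0, .negSucc 2741759, .ofNat 3369600, .negSucc 1582079, .ofNat 243840]),
  (177116844, [.negSucc 75479039, .ofNat 187520640, .negSucc 176263679, .ofNat 67125120, .negSucc 10850879]),
  (177116970, [.negSucc 14227199, .ofNat 124242240, .negSucc 152555519, .ofNat 58758720, .negSucc 9997439]),
  (177119980, [.ofNat 53749440, .negSucc 172990799, .ofNat 178391520, .negSucc 66018959, .ofNat 10607040]),
  (177121387, [.ofNat 0, .negSucc 5103359, .ofNat 6431520, .negSucc 2303039, .ofNat 426720]),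
  (177121611, [.ofNat 15773760, .negSucc 27502319, .ofNat 23074560, .negSucc 7655279, .ofNat 1280160]),
  (177121891, [.ofNat 53749440, .negSucc 169857359, .ofNat 174960480, .negSucc 64406159, .ofNat 10363200]),
  (177128149, [.negSucc 13063679, .ofNat 23136000, .negSucc 17430719, .ofNat 7125120, .negSucc 1219199]),
  (177128275, [.ofNat 73644480, .negSucc 205000079, .ofNat 204193920, .negSucc 77206799, .ofNat 12374880]),
  (177128555, [.ofNat 0, .negSucc 2741759, .ofNat 3369600, .negSucc 1582079, .ofNat 243840]),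
  (177128779, [.ofNat 0, .ofNat 4354560, .negSucc 3892319, .ofNat 1702080, .negSucc 182879]),
  (177329259, [.negSucc 69177599, .ofNat 183613760, .negSucc 183871999, .ofNat 62688320, .negSucc 10119359]),
  (177517804, [.ofNat 0, .ofNat 3317760, .negSucc 3922559, .ofNat 1754880, .negSucc 243839]),
  (177517916, [.ofNat 53749440, .negSucc 169655759, .ofNat 173656800, .negSucc 64369679, .ofNat 10485120]),
  (177518434, [.ofNat 246896640, .negSucc 700263679, .ofNat 705073280, .negSucc 257404159, .ofNat 42062400]),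
  (177518749, [.negSucc 129568319, .ofNat 433979760, .negSucc 449975039, .ofNat 169086960, .negSucc 27980639]),
  (177519267, [.ofNat 240030720, .negSucc 813665279, .ofNat 849567360, .negSucc 309665279, .ofNat 50109120]),
  (177542892, [.ofNat 172897920, .negSucc 576226399, .ofNat 598902080, .negSucc 214024159, .ofNat 34381440]),
  (177543004, [.ofNat 53749440, .negSucc 169857359, .ofNat 174960480, .negSucc 64406159, .ofNat 10363200]),
  (177550172, [.negSucc 8063999, .ofNat 9402240, .negSucc 4541759, .ofNat 2269440, .negSucc 487679]),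
  (177550949, [.ofNat 269602560, .negSucc 892474559, .ofNat 926985120, .negSucc 338645759, .ofNat 55168800]),
  (177575260, [.ofNat 53749440, .negSucc 169857359, .ofNat 174960480, .negSucc 64406159, .ofNat 10363200]),
  (177576149, [.ofNat 21764160, .negSucc 51790319, .ofNat 49776960, .negSucc 17982959, .ofNat 2743200]),
  (177576611, [.ofNat 111476160, .negSucc 380312079, .ofNat 400388320, .negSucc 144005199, .ofNat 23408640]),
  (177578844, [.ofNat 0, .negSucc 668159, .ofNat 297600, .negSucc 399359]),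
  (177579789, [.ofNat 413245440, .negSucc 1336577919, .ofNat 1373714080, .negSucc 502079679, .ofNat 80650080]),
  (177580237, [.negSucc 30605759, .ofNat 118692240, .negSucc 123833279, .ofNat 46845840, .negSucc 7985759]),
  (177582890, [.ofNat 349338240, .negSucc 1090984799, .ofNat 1114140000, .negSucc 408110879, .ofNat 66019680]),
  (177582946, [.negSucc 88640639, .ofNat 308931680, .negSucc 326480479, .ofNat 117408800, .negSucc 18836639]),
  (177586845, [.negSucc 49844159, .ofNat 161915280, .negSucc 166661759, .ofNat 63943440, .negSucc 10667999]),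
  (177587531, [.ofNat 0, .negSucc 1843199, .ofNat 3220320, .negSucc 887999, .ofNat 182880]),
  (177591059, [.ofNat 0, .ofNat 69120, .ofNat 218880, .negSucc 80639]),
  (177608405, [.ofNat 269602560, .negSucc 892474559, .ofNat 926985120, .negSucc 338645759, .ofNat 55168800]),
  (177615517, [.ofNat 15693120, .negSucc 33944879, .ofNat 31575360, .negSucc 11761199, .ofNat 1889760]),
  (177641123, [.negSucc 15773759, .ofNat 31188720, .negSucc 26881919, .ofNat 9767280, .negSucc 1523999]),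
  (177648291, [.ofNat 260994240, .negSucc 790396239, .ofNat 802942720, .negSucc 294995919, .ofNat 48097440]),
  (177648403, [.negSucc 119021759, .ofNat 405913680, .negSucc 429518879, .ofNat 161659920, .negSucc 26456639]),
  (178628844, [.ofNat 56615040, .negSucc 162694879, .ofNat 167283680, .negSucc 59507359, .ofNat 9875520]),
  (178628956, [.negSucc 38715839, .ofNat 91631760, .negSucc 84833759, .ofNat 31642320, .negSucc 5059679]),
  (178641059, [.ofNat 74139840, .negSucc 183949519, .ofNat 179224640, .negSucc 63020239, .ofNat 10424160]),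
  (178897644, [.ofNat 135279360, .negSucc 443296959, .ofNat 460809760, .negSucc 166197759, .ofNat 27005280]),
  (179094764, [.negSucc 1952639, .negSucc 3151199, .ofNat 4771200, .negSucc 2344799, .ofNat 365760])]

/-- data -/
def lV8x4 : List (ℕ × List ℤ) := [(179094876, [.ofNat 0, .negSucc 2741759, .ofNat 3369600, .negSucc 1582079, .ofNat 243840]),
  (179095709, [.negSucc 1952639, .ofNat 120480, .ofNat 2875200, .negSucc 1114079, .ofNat 243840]),
  (179096227, [.negSucc 98084159, .ofNat 287795760, .negSucc 287313599, .ofNat 105587760, .negSucc 17129759]),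
  (179182243, [.ofNat 0, .negSucc 4101119, .ofNat 5021760, .negSucc 2025599, .ofNat 365760]),
  (179182355, [.negSucc 58011839, .ofNat 167760080, .negSucc 169513279, .ofNat 60305360, .negSucc 9692639]),
  (179196579, [.ofNat 142318080, .negSucc 522808319, .ofNat 552960960, .negSucc 201816959, .ofNat 32430720]),
  (179354387, [.ofNat 93067200, .negSucc 297133199, .ofNat 304214400, .negSucc 114665999, .ofNat 18714720]),
  (179377900, [.ofNat 172897920, .negSucc 576226399, .ofNat 598902080, .negSucc 214024159, .ofNat 34381440]),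
  (179386125, [.ofNat 293944320, .negSucc 912889599, .ofNat 930076000, .negSucc 338810559, .ofNat 54924960]),
  (179411101, [.ofNat 8064000, .negSucc 14661119, .ofNat 12799680, .negSucc 6249599, .ofNat 1097280])]

/-- the sum of the part -/
def lV8 : List (ℕ × List ℤ) := lV8x0 ++ (lV8x1 ++ (lV8x2 ++ (lV8x3 ++ (lV8x4))))

theorem okV8 : dV8.all (rok tbF 20) = true := by decide +kernel

theorem sumV8 : aeq (fz (sumT tbF dV8)) lV8 = true := by decide +kernel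

end Pool.Agent.H.MP_e16c79_al.IS
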