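import Pool.Agent.H.MP_e16c79_al.IS.BTabE

/-!
# MP_e16c79_al: certificate V, part 9
-/

set_option autoImplicit false

namespace Pool.Agent.H.MP_e16c79_al.IS

/-- data -/
def dV9x0 : RT := (.nd (.nd (.nd (.lf ⟨[.ofNat 0, .ofNat 0, .negSucc 6036479, .ofNat 5750400, .negSucc 2000639, .ofNat 243840], (.tw (.dx 0 (.lf 5)) (.tr (.lf 15) (.tr (.lf 9) (.lf 6) (.lf 10)) (.lf 19))), 0, [0, 0, 0, 0], [15, 15, 37, 37]⟩)
    (.lf ⟨[.ofNat 0, .ofNat 0, .negSucc 4757759, .ofNat 4092480, .negSucc 1799039, .ofNat 121920], (.tw (.lf 6) (.tr (.lf 15) (.tr (.lf 9) (.dx 0 (.lf 5)) (.lf 10)) (.lf 19))), 0, [15, 15, 16, 16], [15, 15, 16, 16]⟩))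
    (.nd (.lf ⟨[.ofNat 0, .ofNat 0, .ofNat 679680, .negSucc 733439, .ofNat 107520], (.tw (.lf 15) (.tr (.lf 6) (.lf 19) (.tr (.lf 9) (.dx 0 (.lf 5)) (.lf 10)))), 0, [18, 18, 17, 17], [13, 13, 17, 17]⟩)
    (.lf ⟨[.ofNat 0, .ofNat 0, .ofNat 12072960, .negSucc 11500799, .ofNat 4001280, .negSucc 487679], (.tr (.lf 19) (.lf 9) (.tr (.dx 0 (.lf 5)) (.tw (.lf 10) (.lf 15)) (.lf 6))), 0, [14, 9, 1, 1], [14, 14, 14, 14]⟩)))
    (.nd (.nd (.lf ⟨[.ofNat 0, .ofNat 0, .negSucc 5500799, .ofNat 17505120, .negSucc 17975039, .ofNat 6772320, .negSucc 1097279], (.tw (.dx 0 (.tw (.lf 19) (.tr (.tw (.lf 5) (.lf 6)) (.lf 9) (.lf 10)))) (.lf 15)), 0, [23, 23, 30, 30, 0, 0, 20, 20], []⟩)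
    (.lf ⟨[.ofNat 0, .negSucc 3637439, .ofNat 5033040, .ofNat 945360, .negSucc 6144239, .ofNat 2898480, .negSucc 548639], (.tw (.lf 15) (.tr (.lf 1) (.tr (.dx 1 .on) (.tw (.lf 9) (.lf 10)) (.lf 19)) (.lf 2))), 1, [31, 31, 1, 1, 31, 31, 1, 1], [31, 31, 1, 1, 31, 31, 1, 1]⟩))
    (.nd (.lf ⟨[.ofNat 0, .ofNat 3273120, .negSucc 8950199, .ofNat 8017440, .negSucc 2974199, .ofNat 457200], (.tw (.lf 6) (.tr (.lf 9) (.tr (.dx 0 (.lf 5)) (.tw (.lf 13) (.lf 14)) (.lf 19)) (.lf 10))), 0, [29, 29, 13, 13, 29, 29, 13, 13], [29, 29, 13, 13, 29, 29, 13, 13]⟩)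
    (.lf ⟨[.ofNat 0, .ofNat 0, .negSucc 12072959, .ofNat 11500800, .negSucc 4001279, .ofNat 487680], (.tw (.dx 0 (.tr (.lf 5) (.tr (.lf 6) (.lf 19) (.lf 9)) (.lf 15))) (.lf 10)), 0, [0, 13, 10, 13], []⟩))))

/-- data -/
def dV9x1 : RT := (.nd (.nd (.nd (.lf ⟨[.ofNat 0, .negSucc 38479679, .ofNat 137916720, .negSucc 149795039, .ofNat 66030000, .negSucc 13578239, .ofNat 853440], (.tw (.dx 0 (.tr (.lf 15) (.lf 9) (.tr (.lf 5) (.lf 6) (.lf 19)))) (.lf 10)), 0, [10, 13, 0, 13], []⟩)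
    (.lf ⟨[.ofNat 0, .ofNat 19239840, .negSucc 62921879, .ofNat 69147120, .negSucc 31014359, .ofNat 6545280, .negSucc 426719], (.tw (.dx 0 (.tw (.lf 15) (.tr (.tw (.lf 5) (.lf 6)) (.lf 19) (.lf 9)))) (.lf 10)), 0, [13, 13, 13, 13, 0, 0, 13, 13], []⟩))
    (.nd (.lf ⟨[.ofNat 0, .negSucc 38479679, .ofNat 137916720, .negSucc 149795039, .ofNat 66030000, .negSucc 13578239, .ofNat 853440], (.tw (.dx 0 (.tr (.lf 9) (.lf 19) (.tr (.lf 5) (.lf 6) (.lf 15)))) (.lf 10)), 0, [13, 20, 13, 13], []⟩)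
    (.lf ⟨[.ofNat 0, .ofNat 0, .negSucc 6036479, .ofNat 5750400, .negSucc 2000639, .ofNat 243840], (.tw (.dx 0 (.tw (.lf 9) (.tr (.lf 15) (.tw (.lf 5) (.lf 6)) (.lf 19)))) (.lf 10)), 0, [13, 13, 13, 13, 13, 13, 13, 13], []⟩)))
    (.nd (.nd (.lf ⟨[.ofNat 0, .negSucc 9309599, .ofNat 26167320, .negSucc 27573599, .ofNat 10764120, .negSucc 1798319], (.tw (.lf 15) (.tr (.lf 9) (.tr (.dx 1 .on) (.lf 19) (.tw (.lf 1) (.lf 2))) (.lf 10))), 1, [13, 13, 35, 35, 13, 13, 35, 35], [13, 13, 35, 35, 13, 13, 35, 35]⟩)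
    (.lf ⟨[.ofNat 0, .ofNat 3064320, .negSucc 15903359, .ofNat 13278720, .negSucc 4245119, .ofNat 487680], (.tr (.lf 9) (.lf 1) (.tr (.lf 2) (.tr (.lf 10) (.dx 1 .on) (.lf 19)) (.lf 15))), 1, [12, 12, 12, 12], [12, 12, 12, 12]⟩))
    (.nd (.lf ⟨[.ofNat 0, .negSucc 6335999, .ofNat 59076480, .ofNat 7174080, .negSucc 68641919, .ofNat 35025600, .negSucc 6583679], (.tr (.lf 1) (.tr (.lf 9) (.lf 10) (.tr (.lf 2) (.dx 1 .on) (.lf 15))) (.lf 19)), 1, [20, 20, 0, 15], [20, 20, 0, 15]⟩)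
    (.lf ⟨[.ofNat 0, .ofNat 0, .ofNat 7119360, .negSucc 44643839, .ofNat 52333440, .negSucc 21477119, .ofNat 3657600], (.tr (.lf 1) (.tr (.lf 9) (.tr (.dx 1 .on) (.lf 2) (.lf 10)) (.lf 15)) (.lf 19)), 1, [39, 20, 15, 10], [39, 20, 15, 10]⟩))))

/-- data -/
def dV9x2 : RT := (.nd (.nd (.nd (.lf ⟨[.ofNat 0, .negSucc 16127999, .ofNat 22122240, .negSucc 13583999, .ofNat 4423680, .negSucc 731519], (.tr (.lf 1) (.lf 15) (.tr (.lf 19) (.lf 9) (.tr (.dx 1 .on) (.lf 2) (.lf 10)))), 1, [13, 33, 15, 10], [13, 10, 15, 10]⟩)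
    (.lf ⟨[.ofNat 0, .negSucc 14549759, .ofNat 3001920, .ofNat 46452480, .negSucc 63115199, .ofNat 25626240, .negSucc 4389119], (.tr (.lf 5) (.dx 0 .on) (.tr (.lf 15) (.lf 9) (.tr (.lf 10) (.lf 6) (.lf 19)))), 0, [32, 32, 32, 32], [32, 35, 32, 37]⟩))
    (.nd (.lf ⟨[.ofNat 0, .ofNat 1278720, .ofNat 12895680, .negSucc 70493759, .ofNat 86134080, .negSucc 36162239, .ofNat 6339840], (.tr (.lf 5) (.dx 0 .on) (.tr (.lf 9) (.tr (.lf 6) (.lf 19) (.lf 10)) (.lf 15))), 0, [32, 32, 29, 32], [32, 19, 29, 35]⟩)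
    (.lf ⟨[.ofNat 0, .negSucc 6491519, .ofNat 35175840, .negSucc 17778239, .negSucc 18530399, .ofNat 13996800, .negSucc 3169919], (.tr (.lf 5) (.tr (.dx 0 .on) (.lf 9) (.tr (.lf 6) (.lf 19) (.lf 10))) (.lf 15)), 0, [32, 32, 16, 23], [32, 19, 16, 23]⟩)))
    (.nd (.nd (.lf ⟨[.ofNat 0, .ofNat 12407040, .ofNat 17052480, .negSucc 2939519, .negSucc 15579839, .ofNat 9926400, .negSucc 1950719], (.tr (.lf 9) (.lf 5) (.tr (.lf 6) (.tr (.dx 0 .on) (.lf 15) (.lf 10)) (.lf 19))), 0, [34, 34, 9, 33], [34, 34, 9, 34]⟩)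
    (.lf ⟨[.ofNat 0, .negSucc 49645439, .ofNat 92443680, .negSucc 41853119, .negSucc 34222559, .ofNat 21563520, .negSucc 4632959], (.tr (.lf 9) (.lf 5) (.tr (.lf 19) (.dx 0 .on) (.tr (.lf 6) (.lf 10) (.lf 15)))), 0, [37, 9, 34, 3], [37, 9, 34, 3]⟩))
    (.nd (.lf ⟨[.ofNat 0, .ofNat 10206720, .ofNat 11468160, .ofNat 5769600, .negSucc 24435839, .ofNat 12773760, .negSucc 2438399], (.tr (.lf 15) (.lf 9) (.tr (.lf 5) (.dx 0 .on) (.tr (.lf 10) (.lf 6) (.lf 19)))), 0, [36, 36, 33, 33], [36, 36, 36, 33]⟩)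
    (.lf ⟨[.ofNat 0, .negSucc 10851839, .ofNat 71445120, .negSucc 111980159, .ofNat 77068800, .negSucc 23506559, .ofNat 3169920], (.tr (.lf 15) (.tw (.dx 1 (.tr (.lf 1) (.lf 2) (.lf 9))) (.lf 10)) (.lf 19)), 1, [15, 18, 36, 36], []⟩))))

/-- data -/
def dV9x3 : RT := (.nd (.nd (.nd (.lf ⟨[.ofNat 0, .ofNat 12407040, .ofNat 5624640, .negSucc 37232639, .ofNat 41352000, .negSucc 15212159, .ofNat 2438400], (.tr (.tw (.dx 1 (.tr (.lf 1) (.lf 2) (.lf 9))) (.lf 15)) (.lf 10) (.lf 19)), 1, [32, 15, 15, 18], []⟩)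
    (.lf ⟨[.ofNat 0, .negSucc 12407039, .negSucc 5624639, .ofNat 37232640, .negSucc 41351999, .ofNat 15212160, .negSucc 2438399], (.tr (.tw (.lf 10) (.lf 19)) (.dx 1 (.tr (.lf 1) (.lf 2) (.lf 9))) (.lf 15)), 1, [28, 28, 19, 14], []⟩))
    (.nd (.lf ⟨[.ofNat 0, .ofNat 12407040, .ofNat 5624640, .negSucc 37232639, .ofNat 41352000, .negSucc 15212159, .ofNat 2438400], (.tr (.lf 10) (.tw (.dx 1 (.tr (.lf 1) (.lf 2) (.lf 9))) (.lf 19)) (.lf 15)), 1, [34, 34, 28, 28], []⟩)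
    (.lf ⟨[.ofNat 0, .ofNat 37238400, .negSucc 47195999, .negSucc 20001599, .ofNat 76853280, .negSucc 35961599, .ofNat 6827520], (.tr (.tw (.dx 1 (.tr (.lf 1) (.lf 2) (.lf 9))) (.lf 10)) (.lf 19) (.lf 15)), 1, [32, 5, 34, 34], []⟩)))
    (.nd (.nd (.lf ⟨[.ofNat 0, .negSucc 49645439, .ofNat 41571360, .ofNat 57234240, .negSucc 118205279, .ofNat 51173760, .negSucc 9265919], (.tr (.lf 10) (.dx 1 (.tr (.lf 1) (.lf 2) (.lf 9))) (.tw (.lf 15) (.lf 19))), 1, [34, 34, 34, 34], []⟩)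
    (.lf ⟨[.ofNat 0, .negSucc 10823039, .ofNat 13732680, .negSucc 8216159, .ofNat 2157480, .negSucc 274319], (.tw (.dx 0 (.lf 13)) (.tr (.lf 5) (.tr (.lf 9) (.tw (.lf 14) (.lf 19)) (.lf 10)) (.lf 6))), 0, [10, 10, 10, 10, 10, 10, 10, 10], [0, 9, 0, 9, 0, 9, 0, 9]⟩))
    (.nd (.lf ⟨[.ofNat 0, .negSucc 54524159, .ofNat 163448640, .negSucc 165292799, .ofNat 62272320, .negSucc 9997439], (.tr (.dx 0 (.lf 13)) (.lf 5) (.tr (.lf 9) (.lf 14) (.tr (.lf 6) (.lf 10) (.lf 19)))), 0, [10, 10, 10, 10], [0, 0, 0, 7]⟩)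
    (.lf ⟨[.ofNat 0, .ofNat 39127680, .negSucc 86916959, .ofNat 76963200, .negSucc 27519839, .ofNat 4267200], (.tr (.dx 0 (.lf 13)) (.lf 5) (.tr (.lf 6) (.tr (.lf 9) (.lf 19) (.lf 14)) (.lf 10))), 0, [10, 29, 10, 10], [0, 29, 0, 0]⟩))))

/-- data -/
def dV9x4 : RT := (.nd (.nd (.nd (.lf ⟨[.ofNat 0, .negSucc 10917359, .ofNat 30372420, .negSucc 30030479, .ofNat 11246340, .negSucc 1844039], (.tw (.dx 0 (.lf 13)) (.tr (.lf 5) (.tr (.tw (.lf 9) (.lf 10)) (.lf 19) (.lf 14)) (.lf 6))), 0, [10, 10, 10, 10, 10, 10, 10, 10], [0, 0, 9, 9, 0, 0, 9, 9]⟩)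
    (.lf ⟨[.ofNat 0, .ofNat 4144320, .negSucc 34748399, .ofNat 42775680, .negSucc 17501039, .ofNat 2987040], (.tw (.lf 6) (.tr (.lf 9) (.tr (.tw (.lf 13) (.lf 14)) (.dx 0 (.lf 5)) (.lf 19)) (.lf 10))), 0, [8, 8, 7, 7, 8, 8, 7, 7], [8, 8, 7, 7, 8, 8, 7, 7]⟩))
    (.nd (.lf ⟨[.ofNat 0, .negSucc 3729599, .negSucc 3732719, .ofNat 7826880, .negSucc 3701999, .ofNat 670560], (.tr (.dx 0 (.lf 13)) (.lf 5) (.tw (.lf 6) (.tr (.tw (.lf 9) (.lf 10)) (.lf 19) (.lf 14)))), 0, [10, 10, 29, 29, 10, 10, 10, 10], [0, 0, 29, 29, 0, 0, 9, 9]⟩)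
    (.lf ⟨[.ofNat 0, .ofNat 3000240, .negSucc 6776819, .ofNat 6876240, .negSucc 2515379, .ofNat 441960], (.tw (.lf 14) (.tr (.lf 9) (.tr (.dx 0 (.lf 13)) (.lf 19) (.tw (.lf 5) (.lf 6))) (.lf 10))), 0, [35, 35, 13, 13, 35, 35, 13, 13], [35, 35, 36, 36, 35, 35, 36, 36]⟩)))
    (.nd (.nd (.lf ⟨[.ofNat 0, .ofNat 56626560, .negSucc 176775839, .ofNat 117034560, .ofNat 25776480, .negSucc 28972799, .ofNat 7071360], (.tr (.lf 9) (.tr (.lf 10) (.lf 5) (.tr (.dx 0 .on) (.lf 19) (.lf 6))) (.lf 15)), 0, [34, 34, 12, 37], [34, 34, 37, 37]⟩)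
    (.lf ⟨[.ofNat 0, .negSucc 13582079, .ofNat 30857280, .negSucc 28002239, .ofNat 10046400, .negSucc 1584959], (.tr (.dx 0 .on) (.tr (.lf 19) (.lf 9) (.tr (.lf 10) (.lf 5) (.tw (.lf 13) (.lf 14)))) (.lf 6)), 0, [30, 30, 30, 30, 20, 20, 10, 10], [25, 25, 9, 9, 17, 17, 10, 10]⟩))
    (.nd (.lf ⟨[.ofNat 0, .negSucc 29231999, .ofNat 157867680, .negSucc 183490559, .ofNat 72304800, .negSucc 12070079], (.tr (.lf 6) (.tr (.lf 9) (.lf 13) (.tr (.lf 14) (.dx 0 (.lf 5)) (.lf 19))) (.lf 10)), 0, [8, 8, 7, 7], [8, 8, 7, 7]⟩)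
    (.lf ⟨[.ofNat 0, .ofNat 42629760, .negSucc 97459679, .ofNat 82106880, .negSucc 27410399, .ofNat 4023360], (.tr (.lf 6) (.lf 9) (.tr (.lf 10) (.tr (.lf 13) (.dx 0 (.lf 5)) (.lf 19)) (.lf 14))), 0, [8, 23, 8, 8], [8, 23, 8, 8]⟩))))

/-- data -/
def dV9x5 : RT := (.nd (.nd (.nd (.lf ⟨[.ofNat 0, .negSucc 115253279, .ofNat 288241560, .negSucc 276218399, .ofNat 101410200, .negSucc 16306799], (.tr (.dx 0 (.tr (.lf 5) (.lf 9) (.tr (.lf 10) (.lf 19) (.lf 13)))) (.lf 14) (.lf 6)), 0, [25, 25, 25, 25], []⟩)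
    (.lf ⟨[.ofNat 0, .ofNat 47714400, .negSucc 147516839, .ofNat 152531040, .negSucc 58724519, .ofNat 9784080], (.tr (.dx 0 (.tr (.lf 5) (.tr (.lf 9) (.lf 13) (.lf 19)) (.lf 10))) (.lf 14) (.lf 6)), 0, [25, 25, 20, 25], []⟩))
    (.nd (.lf ⟨[.ofNat 0, .negSucc 37719359, .ofNat 108991920, .negSucc 108576959, .ofNat 40643760, .negSucc 6522719], (.tr (.dx 0 (.tr (.lf 9) (.lf 19) (.tr (.lf 5) (.lf 10) (.lf 13)))) (.lf 14) (.lf 6)), 0, [25, 25, 25, 25], []⟩)
    (.lf ⟨[.ofNat 0, .ofNat 103252320, .negSucc 261134279, .ofNat 248713440, .negSucc 91348679, .ofNat 14538960], (.tr (.dx 0 (.tr (.lf 13) (.lf 19) (.tr (.lf 5) (.lf 9) (.lf 10)))) (.lf 14) (.lf 6)), 0, [25, 25, 25, 20], []⟩)))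
    (.nd (.nd (.lf ⟨[.ofNat 0, .ofNat 45785520, .negSucc 118176179, .ofNat 113271600, .negSucc 41438579, .ofNat 6598920], (.tr (.lf 10) (.dx 0 (.tw (.lf 13) (.tr (.tw (.lf 5) (.lf 6)) (.lf 9) (.lf 19)))) (.lf 14)), 0, [12, 12, 12, 12, 23, 23, 23, 23], []⟩)
    (.lf ⟨[.ofNat 0, .negSucc 48049199, .ofNat 131094660, .negSucc 128396399, .ofNat 47687940, .negSucc 7635239], (.tr (.lf 10) (.dx 0 (.tw (.lf 19) (.tr (.lf 9) (.tw (.lf 5) (.lf 6)) (.lf 13)))) (.lf 14)), 0, [23, 23, 23, 23, 12, 12, 12, 12], []⟩))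
    (.nd (.lf ⟨[.ofNat 0, .ofNat 9587520, .negSucc 8458559, .ofNat 3096000, .ofNat 232320, .negSucc 121919], (.tr (.dx 0 (.tw (.lf 13) (.lf 19))) (.tr (.tw (.lf 9) (.lf 10)) (.lf 5) (.lf 14)) (.lf 6)), 0, [25, 25, 9, 9, 25, 25, 9, 9], []⟩)
    (.lf ⟨[.ofNat 0, .negSucc 7335359, .ofNat 16890480, .negSucc 15612479, .ofNat 5704560, .negSucc 914399], (.tw (.dx 0 (.tw (.lf 13) (.lf 19))) (.tr (.lf 9) (.lf 10) (.tr (.lf 5) (.lf 14) (.lf 6)))), 0, [25, 25, 35, 35, 25, 25, 35, 35], []⟩))))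

/-- data -/
def dV9x6 : RT := (.nd (.nd (.nd (.lf ⟨[.ofNat 0, .ofNat 11243520, .negSucc 20194559, .ofNat 16136640, .negSucc 5531519, .ofNat 853440], (.tr (.dx 0 (.tw (.lf 19) (.tr (.lf 5) (.tw (.lf 9) (.lf 10)) (.lf 13)))) (.lf 14) (.lf 6)), 0, [25, 25, 25, 25, 0, 0, 25, 25], []⟩)
    (.lf ⟨[.ofNat 0, .ofNat 12461760, .negSucc 71578799, .ofNat 83646720, .negSucc 33649199, .ofNat 5669280], (.tw (.dx 0 (.tw (.lf 9) (.tr (.lf 10) (.lf 19) (.tr (.lf 5) (.lf 13) (.lf 6))))) (.lf 14)), 0, [20, 20, 23, 23, 20, 20, 23, 23], []⟩))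
    (.nd (.lf ⟨[.ofNat 0, .negSucc 1566719, .ofNat 14636880, .negSucc 18432479, .ofNat 7677840, .negSucc 1341119], (.tw (.lf 6) (.tr (.lf 9) (.tr (.dx 0 (.lf 5)) (.lf 19) (.tw (.lf 13) (.lf 14))) (.lf 10))), 0, [7, 7, 8, 8, 7, 7, 8, 8], [7, 7, 8, 8, 7, 7, 8, 8]⟩)
    (.lf ⟨[.ofNat 0, .negSucc 76821119, .ofNat 232451040, .negSucc 226279679, .ofNat 83704800, .negSucc 13289279], (.tr (.lf 6) (.lf 9) (.tr (.lf 10) (.lf 13) (.tr (.dx 0 (.lf 5)) (.lf 19) (.lf 14)))), 0, [8, 1, 7, 8], [8, 8, 7, 8]⟩)))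
    (.nd (.nd (.lf ⟨[.ofNat 0, .ofNat 36541440, .negSucc 90612479, .ofNat 80269440, .negSucc 27390719, .ofNat 4145280], (.tr (.lf 6) (.lf 9) (.tr (.dx 0 (.lf 5)) (.tr (.lf 13) (.lf 14) (.lf 19)) (.lf 10))), 0, [29, 7, 1, 1], [29, 7, 8, 8]⟩)
    (.lf ⟨[.ofNat 0, .ofNat 10811520, .negSucc 28614239, .ofNat 26223360, .negSucc 9863519, .ofNat 1584960], (.tr (.lf 6) (.lf 9) (.tw (.lf 10) (.tr (.dx 0 (.lf 5)) (.lf 19) (.tw (.lf 13) (.lf 14))))), 0, [5, 5, 1, 1, 7, 7, 8, 8], [5, 5, 8, 8, 7, 7, 8, 8]⟩))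
    (.nd (.lf ⟨[.ofNat 0, .ofNat 4032000, .ofNat 20812800, .negSucc 29020799, .ofNat 12691200, .negSucc 2194559], (.tr (.lf 6) (.lf 9) (.tr (.lf 10) (.dx 0 (.lf 5)) (.tr (.lf 13) (.lf 14) (.lf 19)))), 0, [8, 5, 8, 13], [8, 5, 8, 13]⟩)
    (.lf ⟨[.ofNat 0, .negSucc 7836479, .ofNat 28590480, .negSucc 25865279, .ofNat 10133520, .negSucc 1523999], (.tr (.dx 0 (.lf 13)) (.lf 5) (.tr (.lf 6) (.lf 9) (.tr (.lf 10) (.lf 14) (.lf 19)))), 0, [10, 10, 10, 10], [0, 0, 0, 9]⟩))))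

/-- data -/
def dV9x7 : RT := (.nd (.nd (.nd (.lf ⟨[.ofNat 0, .ofNat 3203280, .negSucc 8442659, .ofNat 7359120, .negSucc 2655299, .ofNat 381000], (.tw (.dx 0 (.lf 13)) (.tr (.lf 5) (.tr (.tw (.lf 9) (.lf 10)) (.lf 14) (.lf 19)) (.lf 6))), 0, [10, 10, 10, 10, 10, 10, 10, 10], [0, 0, 9, 9, 0, 0, 9, 9]⟩)
    (.lf ⟨[.ofNat 0, .ofNat 14549760, .negSucc 2241599, .negSucc 37380479, .ofNat 53799360, .negSucc 22291199, .ofNat 3901440], (.tr (.lf 19) (.lf 9) (.tr (.lf 10) (.lf 15) (.tr (.dx 0 .on) (.lf 5) (.lf 6)))), 0, [33, 1, 14, 7], [33, 1, 14, 7]⟩))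
    (.nd (.lf ⟨[.ofNat 0, .ofNat 0, .ofNat 44398080, .negSucc 43927679, .ofNat 14336640, .negSucc 892799, .negSucc 243839], (.tr (.lf 9) (.lf 15) (.tr (.lf 19) (.lf 10) (.tr (.dx 0 .on) (.lf 5) (.lf 6)))), 0, [33, 1, 6, 15], [33, 1, 6, 15]⟩)
    (.lf ⟨[.ofNat 0, .ofNat 0, .negSucc 45849599, .ofNat 104684160, .negSucc 95437439, .ofNat 35061120, .negSucc 5608319], (.tr (.lf 1) (.lf 19) (.tr (.dx 1 .on) (.lf 9) (.tr (.lf 10) (.lf 2) (.lf 15)))), 1, [23, 13, 9, 9], [23, 13, 9, 9]⟩)))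
    (.nd (.nd (.lf ⟨[.ofNat 0, .negSucc 8282879, .ofNat 27207360, .negSucc 29362559, .ofNat 11267520, .negSucc 1950719], (.tr (.lf 9) (.lf 19) (.tr (.dx 0 (.lf 5)) (.lf 13) (.tr (.lf 6) (.lf 10) (.lf 14)))), 0, [37, 9, 1, 1], [37, 9, 11, 11]⟩)
    (.lf ⟨[.ofNat 0, .negSucc 13766399, .negSucc 23816639, .ofNat 41671680, .negSucc 27140159, .ofNat 6587520, .negSucc 731519], (.tr (.lf 19) (.lf 5) (.tr (.lf 15) (.lf 9) (.tr (.lf 6) (.dx 0 .on) (.lf 10)))), 0, [13, 33, 37, 37], [26, 26, 37, 37]⟩))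
    (.nd (.lf ⟨[.ofNat 7274880, .negSucc 9815519, .negSucc 32281679, .ofNat 52701120, .negSucc 22850639, .ofNat 4023360], (.tr (.dx 0 .on) (.lf 13) (.tr (.lf 14) (.lf 19) (.tr (.tw (.lf 5) (.lf 6)) (.lf 9) (.lf 10)))), 0, [10, 10, 9, 9, 10, 10, 10, 10], [35, 35, 9, 9, 10, 10, 5, 5]⟩)
    (.lf ⟨[.ofNat 0, .ofNat 869760, .negSucc 9072479, .ofNat 10770240, .negSucc 4331999, .ofNat 731520], (.tr (.lf 13) (.lf 19) (.tr (.dx 0 .on) (.lf 14) (.tr (.tw (.lf 5) (.lf 6)) (.lf 9) (.lf 10)))), 0, [35, 35, 9, 9, 11, 11, 11, 11], [35, 35, 9, 9, 4, 4, 11, 11]⟩))))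

/-- data -/
def dV9x8 : RT := (.nd (.nd (.nd (.lf ⟨[.ofNat 0, .ofNat 195840, .negSucc 161279], (.tw (.dx 0 (.tr (.lf 13) (.lf 14) (.lf 19))) (.tr (.tw (.lf 5) (.lf 6)) (.lf 9) (.lf 10))), 0, [35, 35, 9, 9, 35, 35, 9, 9], []⟩)
    (.lf ⟨[.ofNat 0, .negSucc 2050559, .ofNat 1543680, .ofNat 138240], (.tr (.dx 0 (.tr (.lf 13) (.lf 14) (.lf 19))) (.tr (.lf 5) (.lf 6) (.lf 9)) (.lf 10)), 0, [35, 35, 35, 35], []⟩))
    (.nd (.lf ⟨[.ofNat 0, .negSucc 28062719, .ofNat 8252160, .ofNat 20330880, .negSucc 12368639, .ofNat 2682240], (.tr (.dx 0 (.lf 5)) (.lf 13) (.tr (.lf 9) (.lf 19) (.tr (.lf 6) (.lf 10) (.lf 14)))), 0, [0, 0, 0, 0], [37, 9, 10, 10]⟩)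
    (.lf ⟨[.ofNat 0, .negSucc 12165119, .ofNat 77583360, .negSucc 90552959, .ofNat 36445440, .negSucc 6095999], (.tr (.lf 6) (.lf 9) (.tr (.lf 10) (.lf 13) (.tr (.lf 14) (.dx 0 (.lf 5)) (.lf 19)))), 0, [8, 8, 7, 7], [8, 8, 7, 7]⟩)))
    (.nd (.nd (.lf ⟨[.ofNat 0, .ofNat 12948480, .negSucc 78228479, .ofNat 90552960, .negSucc 36445439, .ofNat 6096000], (.tr (.dx 0 (.tr (.lf 13) (.lf 14) (.tr (.lf 5) (.lf 6) (.lf 9)))) (.lf 10) (.lf 19)), 0, [10, 10, 0, 15], []⟩)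
    (.lf ⟨[.ofNat 0, .negSucc 3237119, .ofNat 19557120, .negSucc 22638239, .ofNat 9111360, .negSucc 1523999], (.tr (.lf 9) (.tr (.lf 13) (.tr (.dx 0 .on) (.tw (.lf 5) (.lf 6)) (.lf 10)) (.lf 14)) (.lf 19)), 0, [39, 39, 6, 6, 39, 39, 6, 6], [39, 39, 6, 6, 39, 39, 6, 6]⟩))
    (.nd (.lf ⟨[.ofNat 0, .ofNat 14811840, .negSucc 16275119, .ofNat 5800320, .negSucc 456239, .negSucc 182879], (.tr (.dx 0 (.tr (.lf 5) (.tw (.lf 9) (.lf 19)) (.lf 6))) (.lf 13) (.tw (.lf 10) (.lf 14))), 0, [37, 7, 37, 7, 37, 7, 37, 7], []⟩)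
    (.lf ⟨[.ofNat 0, .ofNat 133783200, .negSucc 273738359, .ofNat 237422880, .negSucc 81903479, .ofNat 12527280], (.tr (.dx 0 (.tr (.lf 9) (.tr (.lf 10) (.lf 5) (.lf 13)) (.lf 19))) (.lf 14) (.lf 6)), 0, [20, 25, 25, 25], []⟩))))

/-- data -/
def dV9x9 : RT := (.nd (.nd (.nd (.lf ⟨[.ofNat 0, .negSucc 76266719, .ofNat 192371880, .negSucc 188742239, .ofNat 68616360, .negSucc 11003279], (.tr (.dx 0 (.tr (.lf 9) (.lf 13) (.tr (.lf 5) (.lf 10) (.lf 19)))) (.lf 14) (.lf 6)), 0, [25, 25, 25, 25], []⟩)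
    (.lf ⟨[.ofNat 0, .negSucc 46337759, .ofNat 58077000, .negSucc 30090719, .ofNat 7150920, .negSucc 640079], (.tr (.dx 0 (.tr (.lf 5) (.tw (.lf 9) (.lf 13)) (.lf 6))) (.lf 14) (.tw (.lf 10) (.lf 19))), 0, [0, 0, 0, 0, 0, 0, 0, 0], []⟩))
    (.nd (.lf ⟨[.ofNat 0, .ofNat 32809680, .negSucc 40109579, .ofNat 21105360, .negSucc 5135819, .ofNat 472440], (.tr (.dx 0 (.tr (.lf 5) (.tw (.lf 9) (.lf 13)) (.lf 6))) (.tw (.lf 10) (.lf 14)) (.lf 19)), 0, [0, 0, 39, 0, 0, 0, 39, 0], []⟩)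
    (.lf ⟨[.ofNat 0, .negSucc 33917759, .ofNat 43100880, .negSucc 24055679, .ofNat 6292560, .negSucc 670559], (.tr (.tw (.dx 0 (.tr (.lf 5) (.tw (.lf 9) (.lf 13)) (.lf 6))) (.lf 10)) (.lf 14) (.lf 19)), 0, [0, 39, 0, 39, 12, 12, 12, 12], []⟩)))
    (.nd (.nd (.lf ⟨[.ofNat 0, .negSucc 51708239, .ofNat 101402700, .negSucc 84315599, .ofNat 29255820, .negSucc 4373879], (.tr (.tw (.dx 0 (.tr (.lf 5) (.tw (.lf 9) (.lf 13)) (.lf 6))) (.lf 14)) (.lf 10) (.lf 19)), 0, [0, 0, 0, 0, 15, 15, 15, 15], []⟩)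
    (.lf ⟨[.ofNat 0, .ofNat 1108080, .negSucc 2991299, .ofNat 2950320, .negSucc 1156739, .ofNat 198120], (.tr (.lf 14) (.tw (.dx 0 (.tr (.lf 5) (.tw (.lf 9) (.lf 13)) (.lf 6))) (.lf 10)) (.lf 19)), 0, [15, 15, 15, 15, 3, 3, 3, 3], []⟩))
    (.nd (.lf ⟨[.ofNat 0, .negSucc 156679199, .ofNat 393779640, .negSucc 372233759, .ofNat 136424760, .negSucc 21549359], (.tr (.dx 0 (.tr (.lf 5) (.lf 19) (.tr (.lf 9) (.lf 13) (.lf 14)))) (.lf 6) (.lf 10)), 0, [35, 35, 35, 10], []⟩)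
    (.lf ⟨[.ofNat 0, .ofNat 112367520, .negSucc 272753879, .ofNat 255244320, .negSucc 92801879, .ofNat 14599920], (.tr (.dx 0 (.tr (.lf 9) (.lf 13) (.tr (.lf 5) (.lf 19) (.lf 14)))) (.lf 6) (.lf 10)), 0, [35, 35, 35, 35], []⟩))))

/-- data -/
def dV9x10 : RT := (.nd (.nd (.nd (.lf ⟨[.ofNat 0, .ofNat 5941440, .negSucc 62747279, .ofNat 78645120, .negSucc 32449679, .ofNat 5547360], (.tr (.dx 0 (.tw (.lf 5) (.tr (.tw (.lf 13) (.lf 14)) (.lf 9) (.lf 19)))) (.lf 6) (.lf 10)), 0, [35, 35, 35, 35, 10, 10, 35, 35], []⟩)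
    (.lf ⟨[.ofNat 0, .negSucc 44311679, .ofNat 121025760, .negSucc 116989439, .ofNat 43622880, .negSucc 6949439], (.tr (.dx 0 (.tr (.lf 5) (.tr (.lf 9) (.lf 13) (.lf 14)) (.lf 19))) (.lf 6) (.lf 10)), 0, [0, 35, 35, 35], []⟩))
    (.nd (.lf ⟨[.ofNat 0, .ofNat 38407680, .negSucc 27302399, .negSucc 3703679, .ofNat 6673920, .negSucc 1706879], (.tr (.lf 10) (.dx 0 (.tr (.lf 9) (.lf 19) (.tr (.lf 5) (.lf 6) (.lf 13)))) (.lf 14)), 0, [12, 12, 23, 12], []⟩)
    (.lf ⟨[.ofNat 0, .ofNat 2952000, .negSucc 46861679, .ofNat 60346560, .negSucc 25148399, .ofNat 4328160], (.tr (.lf 10) (.dx 0 (.tw (.lf 9) (.tr (.lf 13) (.tw (.lf 5) (.lf 6)) (.lf 19)))) (.lf 14)), 0, [12, 12, 12, 12, 12, 12, 23, 23], []⟩)))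
    (.nd (.nd (.lf ⟨[.ofNat 0, .negSucc 22155839, .ofNat 60512880, .negSucc 58494719, .ofNat 21811440, .negSucc 3474719], (.tw (.lf 9) (.tr (.dx 0 (.lf 5)) (.tr (.lf 10) (.tw (.lf 13) (.lf 14)) (.lf 19)) (.lf 6))), 0, [12, 12, 9, 9, 1, 1, 1, 1], [12, 12, 9, 9, 34, 34, 34, 34]⟩)
    (.lf ⟨[.ofNat 0, .ofNat 44311680, .negSucc 121025759, .ofNat 116989440, .negSucc 43622879, .ofNat 6949440], (.tr (.lf 10) (.lf 13) (.tr (.lf 5) (.tr (.dx 0 (.lf 9)) (.lf 19) (.lf 6)) (.lf 14))), 0, [19, 23, 17, 6], [19, 23, 17, 6]⟩))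
    (.nd (.lf ⟨[.ofNat 0, .ofNat 27976320, .negSucc 49822559, .ofNat 39402240, .negSucc 13442399, .ofNat 2072640], (.tr (.lf 5) (.tr (.lf 13) (.lf 14) (.tr (.dx 0 (.lf 9)) (.lf 19) (.lf 6))) (.lf 10)), 0, [24, 13, 7, 16], [24, 24, 7, 16]⟩)
    (.lf ⟨[.ofNat 0, .ofNat 14244480, .negSucc 17958239, .ofNat 7916160, .negSucc 1238879, .negSucc 121919], (.tr (.lf 5) (.lf 13) (.tr (.lf 10) (.tr (.dx 0 (.lf 9)) (.lf 19) (.lf 6)) (.lf 14))), 0, [19, 23, 24, 13], [19, 24, 24, 24]⟩))))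

/-- data -/
def dV9x11 : RT := (.nd (.nd (.nd (.lf ⟨[.ofNat 0, .negSucc 28967039, .ofNat 34039200, .negSucc 15757439, .ofNat 2906400, .negSucc 121919], (.tr (.lf 5) (.tw (.dx 0 (.lf 9)) (.tr (.tw (.lf 13) (.lf 14)) (.lf 6) (.lf 19))) (.lf 10)), 0, [29, 29, 7, 7, 13, 13, 13, 13], [29, 29, 7, 7, 24, 24, 16, 16]⟩)
    (.lf ⟨[.ofNat 0, .negSucc 535679, .ofNat 6718560, .negSucc 8494079, .ofNat 3577440, .negSucc 609599], (.tw (.lf 5) (.tr (.lf 15) (.tr (.dx 0 .on) (.lf 6) (.tw (.lf 9) (.lf 10))) (.lf 19))), 0, [15, 15, 3, 3, 37, 37, 23, 23], [15, 15, 3, 3, 37, 37, 16, 16]⟩))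
    (.nd (.lf ⟨[.ofNat 0, .negSucc 460799, .negSucc 6165119, .ofNat 9655680, .negSucc 4149119, .ofNat 731520], (.tw (.lf 6) (.tr (.lf 13) (.dx 0 (.lf 5)) (.tr (.tw (.lf 9) (.lf 10)) (.lf 14) (.lf 19)))), 0, [24, 24, 7, 7, 8, 8, 23, 23], [39, 39, 7, 7, 8, 8, 23, 23]⟩)
    (.lf ⟨[.ofNat 0, .ofNat 4250880, .ofNat 3078720, .negSucc 8532479, .ofNat 4027200, .negSucc 731519], (.tw (.lf 13) (.tr (.dx 0 (.lf 5)) (.tr (.tw (.lf 9) (.lf 10)) (.lf 14) (.lf 19)) (.lf 6))), 0, [22, 22, 9, 9, 1, 1, 1, 1], [22, 22, 9, 9, 31, 31, 21, 21]⟩)))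
    (.nd (.nd (.lf ⟨[.ofNat 0, .ofNat 4432320, .negSucc 11965199, .ofNat 11801280, .negSucc 4626959, .ofNat 792480], (.tr (.dx 0 (.lf 5)) (.lf 9) (.tr (.lf 13) (.lf 6) (.tr (.lf 10) (.lf 14) (.lf 19)))), 0, [0, 0, 0, 0], [39, 7, 20, 20]⟩)
    (.lf ⟨[.ofNat 0, .negSucc 28314719, .ofNat 42491880, .negSucc 28277279, .ofNat 8596200, .negSucc 1127759], (.tw (.dx 0 (.tw (.lf 5) (.lf 13))) (.tr (.lf 6) (.tr (.lf 9) (.lf 14) (.lf 10)) (.lf 19))), 0, [0, 0, 9, 9, 10, 10, 10, 10], [0, 0, 9, 9]⟩))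
    (.nd (.lf ⟨[.ofNat 0, .ofNat 30585600, .negSucc 110840639, .ofNat 118419840, .negSucc 46847039, .ofNat 7802880], (.tr (.lf 5) (.lf 13) (.tr (.lf 10) (.lf 6) (.tr (.lf 14) (.dx 0 (.lf 9)) (.lf 19)))), 0, [24, 23, 24, 35], [24, 24, 24, 24]⟩)
    (.lf ⟨[.ofNat 0, .ofNat 2142720, .negSucc 20745599, .ofNat 26315520, .negSucc 11721599, .ofNat 1950720], (.tr (.lf 9) (.lf 5) (.tr (.lf 19) (.lf 10) (.tr (.lf 6) (.dx 0 .on) (.lf 15)))), 0, [23, 33, 34, 34], [34, 34, 34, 34]⟩))))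

/-- data -/
def dV9x12 : RT := (.nd (.nd (.nd (.lf ⟨[.ofNat 0, .negSucc 90478079, .ofNat 244867200, .negSucc 240664319, .ofNat 90940800, .negSucc 14630399], (.tr (.lf 5) (.tr (.lf 6) (.tr (.lf 13) (.dx 0 (.lf 9)) (.lf 19)) (.lf 14)) (.lf 10)), 0, [24, 16, 24, 35], [24, 16, 24, 24]⟩)
    (.lf ⟨[.ofNat 0, .ofNat 24946560, .negSucc 105847199, .ofNat 117768960, .negSucc 45943199, .ofNat 7680960], (.tr (.lf 6) (.tr (.lf 13) (.dx 0 (.lf 5)) (.tr (.lf 9) (.lf 14) (.lf 19))) (.lf 10)), 0, [24, 7, 8, 7], [24, 7, 8, 7]⟩))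
    (.nd (.lf ⟨[.ofNat 0, .ofNat 76959360, .negSucc 199490399, .ofNat 171626880, .negSucc 33588959, .negSucc 5340479, .ofNat 3169920], (.tr (.lf 1) (.lf 19) (.tr (.lf 9) (.lf 2) (.tr (.dx 1 .on) (.lf 10) (.lf 15)))), 1, [37, 9, 13, 30], [37, 9, 13, 30]⟩)
    (.lf ⟨[.ofNat 0, .ofNat 22924800, .negSucc 52342079, .ofNat 47718720, .negSucc 17530559, .ofNat 2804160], (.tr (.lf 13) (.lf 19) (.tr (.dx 0 .on) (.tr (.lf 5) (.tw (.lf 9) (.lf 10)) (.lf 14)) (.lf 6))), 0, [4, 4, 9, 9, 11, 11, 1, 1], [4, 4, 9, 9, 4, 4, 1, 1]⟩)))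
    (.nd (.nd (.lf ⟨[.ofNat 0, .negSucc 9342719, .ofNat 21484800, .negSucc 19716479, .ofNat 7484160, .negSucc 1219199], (.tr (.lf 13) (.lf 19) (.tr (.lf 5) (.lf 14) (.tr (.dx 0 .on) (.lf 6) (.tw (.lf 9) (.lf 10))))), 0, [35, 35, 1, 1, 4, 4, 25, 25], [35, 35, 1, 1, 4, 4, 25, 25]⟩)
    (.lf ⟨[.ofNat 0, .negSucc 22838399, .ofNat 96918240, .negSucc 115858559, .ofNat 47516640, .negSucc 8168639], (.tr (.lf 9) (.lf 19) (.tr (.lf 6) (.tr (.lf 10) (.dx 0 (.lf 5)) (.lf 13)) (.lf 14))), 0, [23, 28, 25, 28], [23, 28, 25, 28]⟩))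
    (.nd (.lf ⟨[.ofNat 0, .ofNat 864000, .negSucc 32005439, .ofNat 72010560, .negSucc 68304959, .ofNat 25421760, .negSucc 4145279], (.tr (.lf 5) (.tr (.dx 0 .on) (.tr (.lf 15) (.lf 6) (.lf 19)) (.lf 9)) (.lf 10)), 0, [29, 7, 13, 13], [29, 7, 8, 13]⟩)
    (.lf ⟨[.ofNat 0, .ofNat 115614720, .negSucc 235777919, .negSucc 35791679, .ofNat 264526080, .negSucc 131438399, .ofNat 24871680], (.tr (.lf 5) (.tr (.lf 9) (.lf 15) (.tr (.dx 0 .on) (.lf 19) (.lf 6))) (.lf 10)), 0, [8, 13, 7, 7], [8, 8, 7, 7]⟩))))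

/-- data -/
def dV9x13 : RT := (.nd (.nd (.nd (.lf ⟨[.ofNat 0, .negSucc 16047359, .negSucc 28752959, .ofNat 236886720, .negSucc 281920319, .ofNat 112549440, .negSucc 18775679], (.tr (.lf 5) (.tr (.lf 6) (.dx 0 .on) (.tr (.lf 9) (.lf 19) (.lf 15))) (.lf 10)), 0, [32, 32, 35, 35], [32, 32, 35, 35]⟩)
    (.lf ⟨[.ofNat 0, .negSucc 12516479, .ofNat 21623520, .negSucc 17231999, .ofNat 5714400, .negSucc 853439], (.tr (.lf 5) (.tr (.lf 19) (.dx 0 .on) (.tr (.lf 6) (.tw (.lf 9) (.lf 10)) (.lf 13))) (.lf 14)), 0, [37, 37, 19, 19, 8, 8, 5, 5], [37, 37, 19, 19, 8, 8, 5, 5]⟩))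
    (.nd (.lf ⟨[.ofNat 0, .negSucc 1065599, .ofNat 9233760, .negSucc 10770239, .ofNat 4332000, .negSucc 731519], (.tr (.lf 9) (.tr (.lf 10) (.tr (.dx 0 .on) (.lf 13) (.tw (.lf 5) (.lf 6))) (.lf 19)) (.lf 14)), 0, [12, 12, 34, 34, 37, 37, 28, 28], [12, 12, 34, 34, 37, 37, 28, 28]⟩)
    (.lf ⟨[.ofNat 0, .ofNat 11485440, .negSucc 39433919, .ofNat 66939840, .negSucc 53087999, .ofNat 18505920, .negSucc 2804159], (.tr (.dx 1 .on) (.tw (.lf 15) (.tr (.lf 1) (.tw (.lf 9) (.lf 10)) (.lf 19))) (.lf 2)), 1, [24, 24, 21, 21, 32, 32, 16, 16], [24, 24, 21, 21, 11, 11, 11, 11]⟩)))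
    (.nd (.nd (.lf ⟨[.ofNat 0, .ofNat 3133440, .ofNat 8323200, .negSucc 13323839, .ofNat 6101760, .negSucc 1097279], (.tr (.lf 9) (.tr (.lf 13) (.dx 0 .on) (.tr (.lf 10) (.tw (.lf 5) (.lf 6)) (.lf 19))) (.lf 14)), 0, [6, 6, 37, 37, 34, 34, 23, 23], [6, 6, 37, 37, 34, 34, 23, 23]⟩)
    (.lf ⟨[.ofNat 0, .ofNat 1088640, .ofNat 12410400, .negSucc 15381119, .ofNat 6396960, .negSucc 1097279], (.tr (.lf 13) (.lf 6) (.tr (.lf 9) (.lf 14) (.tr (.dx 0 (.lf 5)) (.lf 10) (.lf 19)))), 0, [15, 1, 7, 18], [15, 21, 7, 18]⟩))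
    (.nd (.lf ⟨[.ofNat 0, .ofNat 83911680, .negSucc 218841599, .ofNat 212359680, .negSucc 78908159, .ofNat 12679680], (.tr (.lf 5) (.lf 6) (.tr (.lf 10) (.lf 13) (.tr (.lf 14) (.dx 0 (.lf 9)) (.lf 19)))), 0, [8, 8, 24, 16], [8, 8, 24, 16]⟩)
    (.lf ⟨[.ofNat 0, .negSucc 35372159, .ofNat 84210720, .negSucc 78360959, .ofNat 28532640, .negSucc 4511039], (.tr (.lf 5) (.lf 6) (.tw (.lf 10) (.tr (.tw (.lf 13) (.lf 14)) (.dx 0 (.lf 9)) (.lf 19)))), 0, [8, 8, 23, 23, 24, 24, 16, 16], [8, 8, 23, 23, 24, 24, 16, 16]⟩))))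

/-- data -/
def dV9x14 : RT := (.nd (.nd (.nd (.lf ⟨[.ofNat 0, .ofNat 4423680, .ofNat 330240, .negSucc 5333759, .ofNat 2603520, .negSucc 487679], (.tr (.lf 5) (.tr (.dx 0 (.lf 9)) (.tr (.lf 10) (.lf 13) (.lf 19)) (.lf 6)) (.lf 14)), 0, [19, 19, 8, 16], [19, 32, 8, 16]⟩)
    (.lf ⟨[.ofNat 0, .negSucc 63751679, .ofNat 200171520, .negSucc 213273599, .ofNat 82613760, .negSucc 13655039], (.tr (.lf 13) (.lf 5) (.tr (.lf 10) (.lf 14) (.tr (.lf 6) (.dx 0 (.lf 9)) (.lf 19)))), 0, [18, 18, 18, 18], [3, 33, 18, 18]⟩))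
    (.nd (.lf ⟨[.ofNat 0, .negSucc 16021439, .ofNat 83817360, .negSucc 97091519, .ofNat 39039120, .negSucc 6644639], (.tr (.dx 0 (.lf 5)) (.lf 9) (.tr (.lf 10) (.lf 13) (.tr (.lf 14) (.lf 6) (.lf 19)))), 0, [0, 0, 0, 0], [20, 20, 7, 7]⟩)
    (.lf ⟨[.ofNat 0, .negSucc 3064319, .ofNat 3830400, .negSucc 1777919, .ofNat 243840], (.tr (.lf 13) (.lf 14) (.tr (.dx 0 (.lf 9)) (.tr (.lf 5) (.lf 10) (.lf 19)) (.lf 6))), 0, [22, 22, 18, 18], [22, 22, 18, 18]⟩)))
    (.nd (.nd (.lf ⟨[.ofNat 0, .ofNat 4942080, .negSucc 37199039, .ofNat 44629440, .negSucc 18100799, .ofNat 3048000], (.tw (.dx 0 (.lf 9)) (.tr (.lf 13) (.lf 14) (.tr (.tw (.lf 5) (.lf 6)) (.lf 10) (.lf 19)))), 0, [20, 20, 9, 9, 5, 5, 19, 19], [10, 10, 9, 9, 5, 5, 19, 19]⟩)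
    (.lf ⟨[.ofNat 0, .negSucc 34886879, .ofNat 118829160, .negSucc 125473439, .ofNat 48215400, .negSucc 7955279], (.tw (.lf 10) (.tr (.dx 0 (.tw (.lf 5) (.lf 9))) (.tr (.lf 13) (.lf 6) (.lf 14)) (.lf 19))), 0, [12, 12, 12, 12, 21, 1, 21, 1], [12, 12, 11, 11]⟩))
    (.nd (.lf ⟨[.ofNat 0, .negSucc 34017119, .ofNat 138667080, .negSucc 153177119, .ofNat 59950920, .negSucc 10027919], (.tr (.lf 19) (.dx 0 (.lf 9)) (.tr (.lf 13) (.lf 10) (.tr (.lf 5) (.lf 14) (.lf 6)))), 0, [25, 25, 37, 37], [25, 25, 37, 37]⟩)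
    (.lf ⟨[.ofNat 0, .ofNat 3064320, .negSucc 3830399, .ofNat 1294080, .negSucc 243839], (.tr (.lf 5) (.tr (.lf 19) (.dx 0 (.lf 9)) (.tr (.lf 6) (.lf 10) (.lf 13))) (.lf 14)), 0, [37, 19, 8, 5], [37, 19, 8, 5]⟩))))

/-- data -/
def dV9x15 : RT := (.nd (.nd (.nd (.lf ⟨[.ofNat 0, .ofNat 4269600, .negSucc 89839799, .ofNat 118274400, .negSucc 48736439, .ofNat 8503920], (.tw (.dx 0 (.tw (.lf 5) (.lf 9))) (.tr (.lf 10) (.tr (.lf 13) (.lf 6) (.lf 14)) (.lf 19))), 0, [0, 0, 0, 0, 20, 20, 20, 20], [39, 39, 30, 30]⟩)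
    (.lf ⟨[.ofNat 0, .negSucc 1235519, .ofNat 59440080, .negSucc 79560959, .ofNat 32898000, .negSucc 5791199], (.tw (.lf 6) (.tr (.dx 0 (.tw (.lf 5) (.lf 13))) (.tr (.lf 9) (.lf 14) (.lf 10)) (.lf 19))), 0, [32, 32, 32, 32, 11, 16, 11, 16], [15, 15, 16, 16]⟩))
    (.nd (.lf ⟨[.ofNat 0, .ofNat 3262320, .negSucc 24817379, .ofNat 30635760, .negSucc 12363299, .ofNat 2148840], (.tw (.lf 19) (.tr (.lf 6) (.dx 0 (.tw (.lf 5) (.lf 13))) (.tr (.lf 9) (.lf 14) (.lf 10)))), 0, [7, 7, 7, 7, 33, 33, 33, 33], [7, 7, 14, 14]⟩)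
    (.lf ⟨[.ofNat 0, .ofNat 27560160, .negSucc 76643399, .ofNat 75924000, .negSucc 28629959, .ofNat 4663440], (.tw (.lf 6) (.tr (.lf 19) (.dx 0 (.tw (.lf 5) (.lf 9))) (.tr (.lf 13) (.lf 10) (.lf 14)))), 0, [37, 37, 37, 37, 24, 3, 24, 3], [37, 37, 24, 24]⟩)))
    (.nd (.nd (.lf ⟨[.ofNat 0, .negSucc 15186239, .ofNat 49678800, .negSucc 52043519, .ofNat 20124240, .negSucc 3352799], (.tw (.lf 19) (.tr (.dx 0 (.tw (.lf 5) (.lf 9))) (.tr (.lf 13) (.lf 10) (.lf 14)) (.lf 6))), 0, [2, 2, 25, 25, 26, 1, 26, 1], [25, 25, 26, 26]⟩)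
    (.lf ⟨[.ofNat 0, .ofNat 40783680, .negSucc 112822319, .ofNat 110354880, .negSucc 40887599, .ofNat 6522720], (.tr (.lf 9) (.tr (.lf 5) (.lf 19) (.tr (.dx 0 (.lf 13)) (.lf 6) (.lf 10))) (.lf 14)), 0, [37, 23, 12, 34], [37, 34, 19, 34]⟩))
    (.nd (.lf ⟨[.ofNat 0, .ofNat 32803200, .negSucc 108439199, .ofNat 110254080, .negSucc 41772959, .ofNat 6705600], (.tr (.lf 14) (.lf 9) (.tr (.lf 10) (.lf 5) (.tr (.lf 6) (.dx 0 (.lf 13)) (.lf 19)))), 0, [36, 36, 36, 35], [36, 36, 36, 35]⟩)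
    (.lf ⟨[.ofNat 0, .negSucc 10483199, .ofNat 20115840, .negSucc 23310719, .ofNat 9805440, .negSucc 1706879], (.tr (.lf 5) (.dx 0 (.lf 13)) (.tr (.lf 14) (.lf 9) (.tr (.lf 10) (.lf 6) (.lf 19)))), 0, [32, 35, 32, 37], [32, 35, 32, 37]⟩))))

/-- data -/
def dV9x16 : RT := (.nd (.nd (.nd (.lf ⟨[.ofNat 0, .negSucc 47450879, .ofNat 160069440, .negSucc 173831039, .ofNat 67828800, .negSucc 11216639], (.tr (.lf 9) (.lf 5) (.tr (.lf 14) (.lf 10) (.tr (.lf 6) (.dx 0 (.lf 13)) (.lf 19)))), 0, [34, 33, 34, 37], [3, 33, 34, 37]⟩)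
    (.lf ⟨[.ofNat 0, .ofNat 96336000, .negSucc 278081759, .ofNat 285231360, .negSucc 108664799, .ofNat 17678400], (.tr (.lf 5) (.dx 0 (.lf 13)) (.tr (.lf 9) (.lf 6) (.tr (.lf 14) (.lf 10) (.lf 19)))), 0, [32, 32, 35, 32], [15, 32, 35, 32]⟩))
    (.nd (.lf ⟨[.ofNat 0, .ofNat 21638880, .negSucc 21443399, .ofNat 7338720, .negSucc 486599, .negSucc 91439], (.tw (.dx 0 (.tw (.lf 9) (.lf 13))) (.tr (.lf 14) (.tr (.lf 5) (.lf 10) (.lf 6)) (.lf 19))), 0, [20, 20, 19, 19, 10, 10, 19, 19], [10, 10, 19, 19]⟩)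
    (.lf ⟨[.ofNat 0, .negSucc 58236479, .ofNat 127580880, .negSucc 113916479, .ofNat 40677840, .negSucc 6400799], (.tw (.lf 14) (.tr (.dx 0 (.tw (.lf 9) (.lf 13))) (.lf 19) (.tr (.lf 5) (.lf 10) (.lf 6)))), 0, [9, 9, 22, 22, 18, 18, 18, 18], [9, 9, 18, 18]⟩)))
    (.nd (.nd (.lf ⟨[.ofNat 0, .ofNat 4423680, .negSucc 9864959, .ofNat 7699200, .negSucc 3490559, .ofNat 487680], (.tr (.lf 19) (.lf 9) (.tr (.lf 10) (.lf 14) (.tr (.dx 0 (.lf 13)) (.lf 5) (.lf 6)))), 0, [33, 11, 14, 7], [33, 1, 14, 7]⟩)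
    (.lf ⟨[.ofNat 0, .ofNat 535680, .negSucc 4040159, .ofNat 5151360, .negSucc 2135519, .ofNat 365760], (.tw (.lf 19) (.tr (.dx 0 .on) (.lf 9) (.tr (.lf 13) (.lf 14) (.tr (.lf 5) (.lf 10) (.lf 6))))), 0, [9, 9, 19, 19, 21, 21, 21, 21], [9, 9, 19, 19, 38, 38, 26, 26]⟩))
    (.nd (.lf ⟨[.ofNat 0, .negSucc 4423679, .ofNat 9864960, .negSucc 7699199, .ofNat 3490560, .negSucc 487679], (.tr (.lf 9) (.lf 14) (.tr (.lf 5) (.tr (.lf 6) (.dx 0 (.lf 13)) (.lf 10)) (.lf 19))), 0, [15, 27, 6, 33], [15, 27, 6, 33]⟩)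
    (.lf ⟨[.ofNat 0, .ofNat 1005840, .negSucc 39236699, .ofNat 51423120, .negSucc 21207899, .ofNat 3581400], (.tw (.lf 19) (.tr (.lf 14) (.dx 0 (.tw (.lf 5) (.lf 13))) (.tr (.lf 9) (.lf 6) (.lf 10)))), 0, [35, 35, 35, 35, 23, 23, 23, 23], [35, 35, 23, 23]⟩))))

/-- data -/
def dV9x17 : RT := (.nd (.nd (.nd (.lf ⟨[.ofNat 0, .ofNat 72289440, .negSucc 201226199, .ofNat 200226720, .negSucc 75043799, .ofNat 12161520], (.tw (.lf 14) (.tr (.dx 0 (.tw (.lf 9) (.lf 13))) (.tr (.lf 5) (.lf 10) (.lf 6)) (.lf 19))), 0, [22, 22, 22, 22, 4, 4, 4, 4], [27, 27, 1, 1]⟩)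
    (.lf ⟨[.ofNat 0, .negSucc 6764399, .ofNat 698820, .ofNat 5306640, .negSucc 2924219, .ofNat 533400], (.tw (.lf 19) (.tr (.lf 14) (.dx 0 (.tw (.lf 9) (.lf 13))) (.tr (.lf 5) (.lf 10) (.lf 6)))), 0, [9, 9, 9, 9, 23, 23, 23, 23], [9, 9, 26, 26]⟩))
    (.nd (.lf ⟨[.ofNat 0, .negSucc 34932959, .ofNat 131579880, .negSucc 141061919, .ofNat 54710760, .negSucc 8930639], (.tw (.dx 0 (.tw (.lf 5) (.lf 13))) (.tr (.lf 14) (.tr (.lf 9) (.lf 6) (.lf 10)) (.lf 19))), 0, [0, 0, 37, 37, 10, 10, 10, 10], [15, 15, 37, 37]⟩)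
    (.lf ⟨[.ofNat 0, .negSucc 48568319, .ofNat 94977600, .negSucc 79878719, .ofNat 27672000, .negSucc 4267199], (.tw (.dx 0 (.tw (.lf 9) (.lf 13))) (.tr (.lf 14) (.lf 19) (.tr (.lf 5) (.lf 10) (.lf 6)))), 0, [9, 9, 5, 5, 9, 9, 5, 5], [9, 9, 0, 0]⟩)))
    (.nd (.nd (.lf ⟨[.ofNat 0, .negSucc 1108079, .ofNat 2991300, .negSucc 2950319, .ofNat 1156740, .negSucc 198119], (.tw (.lf 19) (.tr (.lf 10) (.dx 0 (.tw (.lf 9) (.lf 13))) (.tr (.lf 5) (.lf 14) (.lf 6)))), 0, [25, 25, 25, 25, 13, 13, 13, 13], [25, 25, 26, 26]⟩)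
    (.lf ⟨[.ofNat 0, .ofNat 31184640, .negSucc 56848319, .ofNat 43532160, .negSucc 14193599, .ofNat 1950720], (.tr (.lf 14) (.lf 10) (.tr (.dx 0 (.tr (.lf 5) (.lf 9) (.lf 13))) (.lf 6) (.lf 19))), 0, [36, 36, 11, 1], [36, 1]⟩))
    (.nd (.lf ⟨[.ofNat 0, .negSucc 73676159, .ofNat 160648800, .negSucc 138673919, .ofNat 48908640, .negSucc 7437119], (.tr (.lf 10) (.dx 0 (.tr (.lf 9) (.lf 5) (.lf 13))) (.tr (.lf 6) (.lf 14) (.lf 19))), 0, [12, 12, 12, 12], [12, 12]⟩)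
    (.lf ⟨[.ofNat 0, .negSucc 32896799, .ofNat 61868280, .negSucc 52021919, .ofNat 17915640, .negSucc 2773679], (.tr (.lf 6) (.lf 10) (.tr (.dx 0 (.tr (.lf 5) (.lf 9) (.lf 13))) (.lf 14) (.lf 19))), 0, [8, 8, 8, 1], [8, 8]⟩))))

/-- data -/
def dV9x18 : RT := (.nd (.nd (.nd (.lf ⟨[.ofNat 0, .ofNat 30875040, .negSucc 41671319, .ofNat 26019360, .negSucc 7238039, .ofNat 944880], (.tr (.lf 14) (.dx 0 (.tr (.lf 5) (.lf 9) (.lf 13))) (.tr (.lf 10) (.lf 6) (.lf 19))), 0, [22, 35, 22, 22], [22, 35]⟩)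
    (.lf ⟨[.ofNat 0, .ofNat 35650080, .negSucc 118381559, .ofNat 121040160, .negSucc 46277879, .ofNat 7406640], (.tr (.lf 10) (.tr (.dx 0 (.tr (.lf 5) (.lf 9) (.lf 13))) (.lf 19) (.lf 6)) (.lf 14)), 0, [19, 12, 23, 34], [19, 34]⟩))
    (.nd (.lf ⟨[.ofNat 0, .negSucc 5865119, .ofNat 35600280, .negSucc 38672159, .ofNat 15263640, .negSucc 2407919], (.tr (.dx 0 (.tr (.lf 5) (.lf 9) (.lf 13))) (.tr (.lf 10) (.lf 19) (.lf 14)) (.lf 6)), 0, [0, 0, 10, 9], [20, 9]⟩)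
    (.lf ⟨[.ofNat 0, .ofNat 34656480, .negSucc 76619399, .ofNat 66970080, .negSucc 23625479, .ofNat 3566160], (.tr (.lf 10) (.lf 14) (.tr (.dx 0 (.tr (.lf 5) (.lf 13) (.lf 9))) (.lf 6) (.lf 19))), 0, [6, 6, 6, 6], [27, 6]⟩)))
    (.nd (.nd (.lf ⟨[.ofNat 0, .negSucc 3749759, .ofNat 39038880, .negSucc 50590079, .ofNat 20399520, .negSucc 3535679], (.tr (.lf 10) (.tr (.dx 0 (.tr (.lf 5) (.lf 13) (.lf 9))) (.lf 19) (.lf 6)) (.lf 14)), 0, [19, 12, 23, 34], [19, 34]⟩)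
    (.lf ⟨[.ofNat 0, .negSucc 30906719, .ofNat 37580520, .negSucc 16379999, .ofNat 3225960, .negSucc 30479], (.tr (.dx 0 (.tr (.lf 5) (.lf 13) (.lf 9))) (.tr (.lf 6) (.lf 19) (.lf 14)) (.lf 10)), 0, [7, 0, 7, 35], [7, 10]⟩))
    (.nd (.lf ⟨[.ofNat 0, .ofNat 72604800, .negSucc 138418079, .ofNat 113191680, .negSucc 38942879, .ofNat 5730240], (.tr (.dx 0 (.tr (.lf 5) (.lf 13) (.lf 9))) (.lf 14) (.tr (.lf 10) (.lf 6) (.lf 19))), 0, [0, 0, 27, 35], [10, 10]⟩)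
    (.lf ⟨[.ofNat 0, .negSucc 52990559, .ofNat 64425000, .negSucc 33763679, .ofNat 8228520, .negSucc 761999], (.tr (.lf 14) (.dx 0 (.tr (.lf 5) (.lf 13) (.lf 9))) (.tr (.lf 10) (.lf 6) (.lf 19))), 0, [22, 35, 22, 22], [22, 35]⟩))))

/-- data -/
def dV9x19 : RT := (.nd (.nd (.nd (.lf ⟨[.ofNat 0, .negSucc 2216159, .ofNat 5982600, .negSucc 5900639, .ofNat 2313480, .negSucc 396239], (.tr (.lf 19) (.lf 6) (.tr (.lf 10) (.dx 0 (.tr (.lf 5) (.lf 13) (.lf 9))) (.lf 14))), 0, [23, 23, 13, 26], [23, 13]⟩)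
    (.lf ⟨[.ofNat 0, .ofNat 12628800, .negSucc 15794159, .ofNat 8447040, .negSucc 2043119, .ofNat 182880], (.tr (.lf 10) (.tr (.lf 6) (.dx 0 (.tr (.lf 5) (.lf 13) (.lf 9))) (.lf 14)) (.lf 19)), 0, [34, 34, 6, 6], [34, 27]⟩))
    (.nd (.lf ⟨[.ofNat 0, .ofNat 44052480, .negSucc 128098559, .ofNat 127073280, .negSucc 47996159, .ofNat 7802880], (.tr (.lf 6) (.tr (.dx 0 (.tr (.lf 9) (.lf 5) (.lf 13))) (.lf 19) (.lf 14)) (.lf 10)), 0, [7, 7, 13, 13], [7, 13]⟩)
    (.lf ⟨[.ofNat 0, .negSucc 95483519, .ofNat 199172640, .negSucc 171214079, .ofNat 60337440, .negSucc 9143999], (.tr (.lf 6) (.dx 0 (.tr (.lf 9) (.lf 5) (.lf 13))) (.tr (.lf 10) (.lf 14) (.lf 19))), 0, [39, 7, 39, 7], [39, 7]⟩)))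
    (.nd (.nd (.lf ⟨[.ofNat 0, .ofNat 6249600, .ofNat 4149600, .negSucc 12215039, .ofNat 5796960, .negSucc 1097279], (.tr (.lf 10) (.lf 14) (.tr (.lf 6) (.dx 0 (.tr (.lf 9) (.lf 5) (.lf 13))) (.lf 19))), 0, [3, 3, 6, 6], [3, 6]⟩)
    (.lf ⟨[.ofNat 0, .ofNat 62812800, .negSucc 172244639, .ofNat 168030720, .negSucc 62862239, .ofNat 10119360], (.tr (.lf 14) (.tr (.lf 6) (.dx 0 (.tr (.lf 5) (.lf 9) (.lf 13))) (.lf 10)) (.lf 19)), 0, [15, 15, 36, 36], [15, 36]⟩))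
    (.nd (.lf ⟨[.ofNat 0, .negSucc 70741439, .ofNat 169729680, .negSucc 156880319, .ofNat 57421200, .negSucc 9083039], (.tr (.lf 14) (.lf 6) (.tr (.dx 0 (.tr (.lf 5) (.lf 9) (.lf 13))) (.lf 10) (.lf 19))), 0, [15, 15, 18, 1], [15, 18]⟩)
    (.lf ⟨[.ofNat 0, .ofNat 101200320, .negSucc 196822799, .ofNat 162730560, .negSucc 56198159, .ofNat 8351520], (.tr (.dx 0 (.tr (.lf 5) (.lf 9) (.lf 13))) (.lf 10) (.tr (.lf 14) (.lf 6) (.lf 19))), 0, [0, 0, 27, 19], [27, 19]⟩))))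

/-- data -/
def dV9x20 : RT := (.nd (.nd (.nd (.lf ⟨[.ofNat 0, .ofNat 2216160, .negSucc 5982599, .ofNat 5900640, .negSucc 2313479, .ofNat 396240], (.tr (.lf 6) (.tr (.lf 10) (.dx 0 (.tr (.lf 5) (.lf 13) (.lf 9))) (.lf 14)) (.lf 19)), 0, [8, 8, 24, 24], [8, 15]⟩)
    (.lf ⟨[.ofNat 0, .negSucc 12628799, .ofNat 15794160, .negSucc 8447039, .ofNat 2043120, .negSucc 182879], (.tw (.lf 19) (.tr (.tw (.lf 6) (.lf 10)) (.dx 0 (.tr (.lf 5) (.lf 13) (.lf 9))) (.lf 14))), 0, [23, 23, 23, 23, 35, 9, 35, 9], [23, 14, 35, 9]⟩))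
    (.nd (.lf ⟨[.ofNat 0, .negSucc 6524639, .ofNat 49634760, .negSucc 61271519, .ofNat 24726600, .negSucc 4297679], (.tr (.lf 19) (.lf 10) (.tr (.lf 6) (.dx 0 (.tr (.lf 5) (.lf 13) (.lf 9))) (.lf 14))), 0, [23, 23, 14, 33], [14, 14]⟩)
    (.lf ⟨[.ofNat 0, .ofNat 19153440, .negSucc 65428919, .ofNat 69718560, .negSucc 26769719, .ofNat 4480560], (.tr (.lf 14) (.dx 0 (.tr (.lf 5) (.lf 13) (.lf 9))) (.tr (.lf 6) (.lf 10) (.lf 19))), 0, [22, 9, 22, 22], [15, 22]⟩)))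
    (.nd (.nd (.lf ⟨[.ofNat 0, .negSucc 67908959, .ofNat 126256680, .negSucc 102161759, .ofNat 35073960, .negSucc 5151119], (.tr (.lf 6) (.lf 10) (.tr (.dx 0 (.tr (.lf 5) (.lf 13) (.lf 9))) (.lf 14) (.lf 19))), 0, [8, 8, 8, 1], [8, 8]⟩)
    (.lf ⟨[.ofNat 0, .ofNat 43087680, .negSucc 32272559, .ofNat 350400, .ofNat 4426320, .negSucc 1280159], (.tr (.dx 0 (.tr (.lf 5) (.lf 13) (.lf 9))) (.lf 14) (.tr (.lf 6) (.lf 10) (.lf 19))), 0, [0, 0, 20, 9], [10, 9]⟩))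
    (.nd (.lf ⟨[.ofNat 0, .ofNat 31152960, .negSucc 47822639, .ofNat 32256960, .negSucc 9810479, .ofNat 1158240], (.tr (.dx 0 (.tr (.lf 5) (.lf 13) (.lf 9))) (.tr (.lf 10) (.lf 19) (.lf 14)) (.lf 6)), 0, [0, 0, 20, 9], [20, 9]⟩)
    (.lf ⟨[.ofNat 0, .negSucc 40760639, .ofNat 42778800, .negSucc 14145599, .ofNat 942000, .ofNat 548640], (.tr (.dx 0 (.tr (.lf 5) (.lf 13) (.lf 9))) (.lf 10) (.tr (.lf 6) (.lf 14) (.lf 19))), 0, [0, 0, 39, 20], [39, 20]⟩))))

/-- data -/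
def dV9x21 : RT := (.nd (.nd (.nd (.lf ⟨[.ofNat 0, .ofNat 13528800, .negSucc 1397639, .negSucc 10613279, .ofNat 5848440, .negSucc 1066799], (.tr (.lf 19) (.lf 10) (.tr (.lf 6) (.dx 0 (.tr (.lf 9) (.lf 5) (.lf 13))) (.lf 14))), 0, [23, 23, 33, 14], [14, 14]⟩)
    (.lf ⟨[.ofNat 0, .negSucc 4724639, .negSucc 17083559, .ofNat 32859360, .negSucc 15297959, .ofNat 2712720], (.tr (.lf 6) (.dx 0 (.tr (.lf 9) (.lf 5) (.lf 13))) (.tr (.lf 14) (.lf 10) (.lf 19))), 0, [15, 32, 32, 32], [15, 32]⟩))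
    (.nd (.lf ⟨[.ofNat 0, .ofNat 43269120, .negSucc 132549119, .ofNat 134872320, .negSucc 51087359, .ofNat 8290560], (.tr (.lf 6) (.tr (.dx 0 (.tr (.lf 9) (.lf 5) (.lf 13))) (.lf 14) (.lf 10)) (.lf 19)), 0, [15, 32, 8, 8], [15, 8]⟩)
    (.lf ⟨[.ofNat 0, .negSucc 74144159, .ofNat 174220440, .negSucc 160891679, .ofNat 58325400, .negSucc 9235439], (.tr (.lf 10) (.lf 6) (.tr (.dx 0 (.tr (.lf 9) (.lf 5) (.lf 13))) (.lf 14) (.lf 19))), 0, [34, 34, 11, 21], [34, 11]⟩)))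
    (.nd (.nd (.lf ⟨[.ofNat 0, .ofNat 64536480, .negSucc 179264279, .ofNat 179003040, .negSucc 67193879, .ofNat 10942320], (.tr (.dx 0 (.tr (.lf 9) (.lf 5) (.lf 13))) (.tr (.lf 6) (.lf 19) (.lf 14)) (.lf 10)), 0, [7, 20, 10, 10], [7, 10]⟩)
    (.lf ⟨[.ofNat 0, .negSucc 98015039, .ofNat 279716400, .negSucc 286295999, .ofNat 109020720, .negSucc 17739359], (.tr (.lf 10) (.lf 14) (.tr (.dx 0 (.tr (.lf 9) (.lf 5) (.lf 13))) (.lf 6) (.lf 19))), 0, [6, 6, 11, 6], [27, 6]⟩))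
    (.nd (.lf ⟨[.ofNat 0, .ofNat 19368000, .negSucc 60470639, .ofNat 62635200, .negSucc 23764079, .ofNat 3840480], (.tr (.dx 0 (.tr (.lf 9) (.lf 5) (.lf 13))) (.lf 6) (.tr (.lf 10) (.lf 14) (.lf 19))), 0, [39, 7, 39, 10], [0, 7]⟩)
    (.lf ⟨[.ofNat 0, .ofNat 19368000, .negSucc 60470639, .ofNat 62635200, .negSucc 23764079, .ofNat 3840480], (.tr (.lf 19) (.lf 14) (.tr (.dx 0 (.tr (.lf 5) (.lf 9) (.lf 13))) (.lf 10) (.lf 6))), 0, [9, 9, 38, 1], [9, 38]⟩))))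

/-- data -/
def dV9x22 : RT := (.nd (.nd (.nd (.lf ⟨[.ofNat 0, .negSucc 20321279, .ofNat 68444160, .negSucc 72888959, .ofNat 28147200, .negSucc 4632959], (.tw (.lf 14) (.tr (.tw (.lf 6) (.lf 19)) (.dx 0 (.tr (.lf 5) (.lf 9) (.lf 13))) (.lf 10))), 0, [13, 18, 13, 13, 36, 36, 36, 36], [18, 4, 36, 17]⟩)
    (.lf ⟨[.ofNat 0, .ofNat 15105600, .negSucc 36157679, .ofNat 33370560, .negSucc 12130799, .ofNat 1889760], (.tr (.lf 6) (.tr (.lf 10) (.dx 0 (.tr (.lf 5) (.lf 9) (.lf 13))) (.lf 19)) (.lf 14)), 0, [5, 5, 37, 37], [5, 16]⟩))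
    (.nd (.lf ⟨[.ofNat 0, .ofNat 2805120, .negSucc 1402079, .negSucc 374399, .ofNat 468000, .negSucc 121919], (.tr (.lf 14) (.lf 19) (.tr (.dx 0 (.tr (.lf 5) (.lf 9) (.lf 13))) (.lf 10) (.lf 6))), 0, [4, 4, 4, 1], [4, 21]⟩)
    (.lf ⟨[.ofNat 0, .ofNat 1679040, .negSucc 1634639, .ofNat 1064640, .negSucc 355919, .ofNat 60960], (.tw (.lf 19) (.tr (.tw (.dx 0 (.tr (.lf 9) (.lf 5) (.lf 13))) (.lf 6)) (.lf 14) (.lf 10))), 0, [2, 2, 7, 7, 33, 14, 11, 21], [2, 26, 14, 1]⟩)))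
    (.nd (.nd (.lf ⟨[.ofNat 0, .ofNat 66156480, .negSucc 84567119, .ofNat 47046720, .negSucc 12229199, .ofNat 1280160], (.tr (.dx 0 (.tr (.lf 9) (.lf 5) (.lf 13))) (.lf 6) (.tr (.lf 14) (.lf 10) (.lf 19))), 0, [20, 20, 10, 10], [0, 0]⟩)
    (.lf ⟨[.ofNat 0, .negSucc 8346239, .ofNat 4164000, .ofNat 3809280, .negSucc 2705759, .ofNat 609600], (.tr (.dx 0 (.tr (.lf 9) (.lf 5) (.lf 13))) (.tr (.lf 6) (.lf 19) (.lf 10)) (.lf 14)), 0, [20, 19, 10, 19], [0, 19]⟩))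
    (.nd (.lf ⟨[.ofNat 0, .negSucc 59906879, .ofNat 88716720, .negSucc 59261759, .ofNat 18026160, .negSucc 2377439], (.tr (.lf 14) (.lf 10) (.tr (.dx 0 (.tr (.lf 9) (.lf 5) (.lf 13))) (.lf 6) (.lf 19))), 0, [36, 36, 11, 21], [36, 1]⟩)
    (.lf ⟨[.ofNat 0, .ofNat 33917760, .negSucc 43100879, .ofNat 24055680, .negSucc 6292559, .ofNat 670560], (.tr (.dx 0 (.tw (.lf 5) (.lf 13))) (.tr (.lf 9) (.tw (.lf 6) (.lf 14)) (.lf 10)) (.lf 19)), 0, [0, 0, 0, 0, 10, 10, 10, 10], [15, 15, 15, 15]⟩))))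

/-- data -/
def dV9x23 : RT := (.nd (.nd (.nd (.lf ⟨[.ofNat 0, .ofNat 1285200, .ofNat 15599460, .negSucc 23630639, .ofNat 10057380, .negSucc 1661159], (.tr (.tw (.dx 0 (.tr (.lf 13) (.tw (.lf 5) (.lf 9)) (.lf 14))) (.lf 10)) (.lf 6) (.lf 19)), 0, [10, 10, 10, 10, 12, 12, 12, 12], []⟩)
    (.lf ⟨[.ofNat 0, .negSucc 32582159, .ofNat 44297580, .negSucc 25816079, .ofNat 6973740, .negSucc 838199], (.tr (.lf 10) (.tw (.dx 0 (.tr (.lf 13) (.tw (.lf 5) (.lf 9)) (.lf 14))) (.lf 6)) (.lf 19)), 0, [12, 12, 12, 12, 34, 34, 34, 34], []⟩))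
    (.nd (.lf ⟨[.ofNat 0, .ofNat 43225920, .negSucc 59323439, .ofNat 36258240, .negSucc 10298159, .ofNat 1158240], (.tr (.tw (.dx 0 (.tr (.tw (.lf 5) (.lf 13)) (.lf 9) (.lf 14))) (.lf 10)) (.lf 6) (.lf 19)), 0, [0, 10, 10, 10, 12, 12, 12, 12], []⟩)
    (.lf ⟨[.ofNat 0, .negSucc 11816639, .ofNat 42783120, .negSucc 46535999, .ofNat 18049680, .negSucc 2987039], (.tr (.lf 19) (.lf 13) (.tr (.dx 0 (.tw (.lf 5) (.lf 9))) (.tw (.lf 10) (.lf 14)) (.lf 6))), 0, [25, 9, 25, 9, 21, 1, 21, 1], [25, 9, 38, 38]⟩)))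
    (.nd (.nd (.lf ⟨[.ofNat 0, .ofNat 32580000, .negSucc 77558519, .ofNat 71917920, .negSucc 26158199, .ofNat 4114800], (.tr (.dx 0 (.tw (.lf 5) (.lf 9))) (.tr (.lf 13) (.tw (.lf 6) (.lf 10)) (.lf 14)) (.lf 19)), 0, [0, 0, 0, 0, 39, 20, 39, 20], [39, 39, 39, 39]⟩)
    (.lf ⟨[.ofNat 0, .ofNat 31726080, .negSucc 64990319, .ofNat 54390720, .negSucc 18922799, .ofNat 2865120], (.tr (.tw (.dx 0 (.tr (.lf 13) (.tw (.lf 5) (.lf 9)) (.lf 14))) (.lf 19)) (.lf 6) (.lf 10)), 0, [10, 35, 10, 35, 35, 35, 35, 35], []⟩))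
    (.nd (.lf ⟨[.ofNat 0, .ofNat 9607680, .ofNat 5043840, .negSucc 18111359, .ofNat 8868480, .negSucc 1706879], (.tr (.lf 10) (.tw (.dx 0 (.tr (.tw (.lf 9) (.lf 13)) (.lf 5) (.lf 19))) (.lf 6)) (.lf 14)), 0, [12, 12, 19, 19, 34, 34, 23, 23], []⟩)
    (.lf ⟨[.ofNat 0, .ofNat 7669440, .negSucc 55445519, .ofNat 67940160, .negSucc 27405839, .ofNat 4693920], (.tr (.dx 0 (.tr (.lf 9) (.tw (.lf 13) (.lf 19)) (.lf 10))) (.tw (.lf 5) (.lf 14)) (.lf 6)), 0, [25, 25, 25, 25, 25, 25, 25, 25], []⟩))))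

/-- data -/
def dV9x24 : RT := (.nd (.nd (.nd (.lf ⟨[.ofNat 0, .ofNat 0, .ofNat 12072960, .negSucc 11500799, .ofNat 4001280, .negSucc 487679], (.tr (.dx 0 (.tw (.lf 5) (.lf 9))) (.lf 15) (.tr (.lf 6) (.lf 19) (.lf 10))), 0, [0, 0, 29, 17], [10, 17]⟩)
    (.lf ⟨[.ofNat 0, .ofNat 0, .negSucc 16358399, .ofNat 16414080, .negSucc 5456639, .ofNat 731520], (.tr (.dx 0 (.tw (.lf 5) (.lf 9))) (.tr (.lf 15) (.lf 10) (.lf 19)) (.lf 6)), 0, [0, 0, 17, 20], [17, 30]⟩))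
    (.nd (.lf ⟨[.ofNat 0, .ofNat 27112320, .negSucc 53953439, .ofNat 46702080, .negSucc 18249119, .ofNat 2804160], (.tr (.lf 9) (.lf 6) (.tr (.lf 13) (.lf 10) (.tr (.dx 0 (.lf 5)) (.lf 14) (.lf 19)))), 0, [34, 1, 34, 37], [34, 11, 34, 37]⟩)
    (.lf ⟨[.ofNat 0, .ofNat 35792640, .negSucc 71168159, .ofNat 59933760, .negSucc 20885279, .ofNat 3169920], (.tw (.dx 0 (.tw (.lf 9) (.lf 13))) (.tr (.lf 19) (.lf 10) (.tr (.lf 5) (.lf 14) (.lf 6)))), 0, [25, 25, 20, 20, 25, 25, 10, 10], [25, 25, 0, 0]⟩)))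
    (.nd (.nd (.lf ⟨[.ofNat 0, .ofNat 65139840, .negSucc 149099999, .ofNat 134983680, .negSucc 48991199, .ofNat 7680960], (.tr (.lf 19) (.lf 9) (.tw (.dx 0 (.lf 5)) (.tr (.lf 13) (.tw (.lf 6) (.lf 10)) (.lf 14)))), 0, [37, 14, 37, 14, 1, 1, 1, 1], [37, 14, 37, 14, 14, 11, 14, 11]⟩)
    (.lf ⟨[.ofNat 0, .ofNat 10851840, .negSucc 68357759, .ofNat 108900480, .negSucc 76692479, .ofNat 23506560, .negSucc 3169919], (.tr (.lf 15) (.lf 5) (.tr (.lf 19) (.lf 9) (.tr (.lf 6) (.dx 0 .on) (.lf 10)))), 0, [13, 33, 15, 18], [18, 18, 15, 18]⟩))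
    (.nd (.lf ⟨[.ofNat 0, .negSucc 54259199, .ofNat 135370080, .negSucc 129327359, .ofNat 48015840, .negSucc 7680959], (.tr (.dx 0 (.lf 5)) (.lf 13) (.tw (.lf 19) (.tr (.lf 9) (.tw (.lf 6) (.lf 14)) (.lf 10)))), 0, [0, 0, 0, 0, 0, 0, 0, 0], [10, 10, 10, 10, 15, 10, 15, 10]⟩)
    (.lf ⟨[.ofNat 0, .ofNat 25957440, .negSucc 66594479, .ofNat 63680640, .negSucc 23478959, .ofNat 3718560], (.tw (.lf 19) (.tr (.dx 0 (.tw (.lf 9) (.lf 13))) (.lf 10) (.tr (.lf 5) (.lf 14) (.lf 6)))), 0, [25, 25, 25, 25, 26, 26, 26, 26], [25, 25, 26, 26]⟩))))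

/-- data -/
def dV9 : RT := (.nd (.nd (.nd (.nd dV9x0 (.nd dV9x1 dV9x2)) (.nd dV9x3 (.nd dV9x4 dV9x5))) (.nd (.nd dV9x6 (.nd dV9x7 dV9x8)) (.nd dV9x9 (.nd dV9x10 dV9x11)))) (.nd (.nd (.nd dV9x12 (.nd dV9x13 dV9x14)) (.nd dV9x15 (.nd dV9x16 dV9x17))) (.nd (.nd dV9x18 (.nd dV9x19 dV9x20)) (.nd (.nd dV9x21 dV9x22) (.nd dV9x23 dV9x24)))))

/-- data -/
def lV9x0 : List (ℕ × List ℤ) := [(5349, [.ofNat 0, .ofNat 0, .ofNat 7401600, .negSucc 7793759, .negSucc 8876159, .ofNat 6214560, .negSucc 1584959]),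
  (5356, [.ofNat 0, .ofNat 0, .ofNat 40199040, .negSucc 35901599, .ofNat 5086080, .ofNat 1876320, .negSucc 853439]),
  (5405, [.ofNat 0, .ofNat 0, .ofNat 18840960, .negSucc 132323999, .ofNat 169664640, .negSucc 70499999, .ofNat 12313920]),
  (5468, [.ofNat 0, .ofNat 0, .ofNat 12504960, .ofNat 36668640, .negSucc 64018559, .ofNat 28658400, .negSucc 5242559]),
  (41701, [.ofNat 0, .ofNat 0, .ofNat 4432320, .negSucc 11965199, .ofNat 11801280, .negSucc 4626959, .ofNat 792480]),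
  (41708, [.ofNat 0, .ofNat 0, .negSucc 4023359, .ofNat 156946800, .negSucc 205692479, .ofNat 84831600, .negSucc 14325599]),
  (41757, [.ofNat 0, .ofNat 0, .ofNat 90443520, .negSucc 113532479, .ofNat 64792320, .negSucc 16772159, .ofNat 2194560]),
  (41771, [.ofNat 0, .ofNat 0, .negSucc 33514559, .ofNat 180192240, .negSucc 210308159, .ofNat 84802800, .negSucc 14325599]),
  (41820, [.ofNat 0, .ofNat 0, .ofNat 27057600, .negSucc 2795279, .negSucc 21226559, .ofNat 11696880, .negSucc 2133599]),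
  (41827, [.ofNat 0, .ofNat 0, .ofNat 0, .negSucc 1359359, .ofNat 1466880, .negSucc 215039]),
  (42661, [.ofNat 0, .ofNat 0, .ofNat 257238720, .negSucc 659806799, .ofNat 630120000, .negSucc 232276559, .ofNat 37368480]),
  (42668, [.ofNat 0, .ofNat 0, .negSucc 58982399, .ofNat 177125760, .negSucc 183367679, .ofNat 68561280, .negSucc 11216639]),
  (42773, [.ofNat 0, .ofNat 0, .negSucc 130319999, .ofNat 298161120, .negSucc 276170879, .ofNat 100631520, .negSucc 15971519]),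
  (42781, [.ofNat 0, .ofNat 0, .ofNat 252806400, .negSucc 637127999, .ofNat 608284800, .negSucc 223863359, .ofNat 36088320]),
  (42844, [.ofNat 0, .ofNat 0, .negSucc 18336959, .ofNat 80037840, .negSucc 88655039, .ofNat 33535440, .negSucc 5425439]),
  (43165, [.ofNat 0, .ofNat 0, .negSucc 47828159, .ofNat 103283280, .negSucc 93270719, .ofNat 33506640, .negSucc 5425439]),
  (43221, [.ofNat 0, .ofNat 0, .negSucc 83053439, .ofNat 139101600, .negSucc 101527679, .ofNat 32434080, .negSucc 4511039]),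
  (43347, [.ofNat 0, .ofNat 0, .negSucc 135671039, .ofNat 172403520, .negSucc 96222719, .ofNat 25170240, .negSucc 2682239]),
  (43683, [.ofNat 0, .ofNat 0, .negSucc 122368319, .ofNat 275790000, .negSucc 257885759, .ofNat 93029040, .negSucc 15057119]),
  (43795, [.ofNat 0, .ofNat 0, .negSucc 135671039, .ofNat 160330560, .negSucc 84721919, .ofNat 21168960, .negSucc 2194559]),
  (304364, [.ofNat 0, .ofNat 0, .ofNat 47773440, .negSucc 89553599, .ofNat 22842240, .ofNat 49110720, .negSucc 27989759, .ofNat 5608320]),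
  (304413, [.ofNat 0, .ofNat 0, .negSucc 34214399, .ofNat 89475840, .negSucc 21024959, .negSucc 62123519, .ofNat 34946880, .negSucc 7071359]),
  (304869, [.ofNat 0, .ofNat 0, .ofNat 6491520, .negSucc 35175839, .ofNat 17778240, .ofNat 18530400, .negSucc 13996799, .ofNat 3169920]),
  (304876, [.ofNat 0, .ofNat 0, .negSucc 13167359, .ofNat 50420160, .negSucc 55637759, .ofNat 21842880, .negSucc 3657599]),
  (304917, [.ofNat 0, .ofNat 0, .negSucc 89138879, .ofNat 246077520, .negSucc 179201279, .negSucc 3196079, .ofNat 25376160, .negSucc 7071359]),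
  (304939, [.ofNat 0, .ofNat 0, .negSucc 93542399, .ofNat 241451520, .negSucc 209836799, .ofNat 58719360, .negSucc 1451519, .negSucc 2194559]),
  (304980, [.ofNat 0, .ofNat 0, .ofNat 6566400, .negSucc 26025599, .ofNat 28304640, .negSucc 12032639, .ofNat 1950720]),
  (304995, [.ofNat 0, .ofNat 0, .ofNat 19774080, .negSucc 93087839, .ofNat 114564480, .negSucc 47272799, .ofNat 8168640]),
  (305004, [.ofNat 0, .ofNat 0, .negSucc 25655039, .ofNat 36415680, .negSucc 23425919, .ofNat 7035840, .negSucc 975359]),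
  (305373, [.ofNat 0, .ofNat 0, .negSucc 77846399, .ofNat 207163680, .negSucc 271156799, .ofNat 167177760, .negSucc 50753279, .ofNat 6583680]),
  (305389, [.ofNat 0, .ofNat 0, .negSucc 25758719, .ofNat 92279040, .negSucc 42595199, .negSucc 39914879, .ofNat 27911040, .negSucc 6095999]),
  (305515, [.ofNat 0, .ofNat 0, .negSucc 13950719, .negSucc 11492159, .ofNat 58316160, .negSucc 62341439, .ofNat 23754240, .negSucc 3901439]),
  (305893, [.ofNat 0, .ofNat 0, .negSucc 97367039, .ofNat 238112640, .negSucc 214367039, .ofNat 65024640, .negSucc 4664639, .negSucc 1706879]),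
  (305955, [.ofNat 0, .ofNat 0, .negSucc 9884159, .ofNat 74398080, .negSucc 89258879, .ofNat 36201600, .negSucc 6095999]),
  (333548, [.ofNat 0, .ofNat 0, .ofNat 44311680, .negSucc 121025759, .ofNat 116989440, .negSucc 43622879, .ofNat 6949440]),
  (333981, [.ofNat 0, .ofNat 0, .ofNat 68034240, .negSucc 277334159, .ofNat 306354240, .negSucc 119901839, .ofNat 20055840]),
  (334691, [.ofNat 0, .ofNat 0, .ofNat 79274880, .negSucc 110236319, .ofNat 14624640, .ofNat 56740320, .negSucc 29818559, .ofNat 5608320]),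
  (336683, [.ofNat 0, .ofNat 0, .ofNat 3271680, .negSucc 50292479, .ofNat 24191040, .ofNat 20553600, .negSucc 14036159, .ofNat 2926080]),
  (336732, [.ofNat 0, .ofNat 0, .ofNat 52951680, .negSucc 109793759, .ofNat 28989120, .ofNat 58670880, .negSucc 33196799, .ofNat 6583680]),
  (337637, [.ofNat 0, .ofNat 0, .negSucc 6310079, .negSucc 4761359, .ofNat 9174720, .negSucc 4947599, .ofNat 792480]),
  (337644, [.ofNat 0, .ofNat 0, .ofNat 9740160, .ofNat 4280160, .negSucc 14359679, .ofNat 7160160, .negSucc 1341119]),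
  (337677, [.ofNat 0, .ofNat 0, .ofNat 34594560, .negSucc 189607679, .ofNat 227299200, .negSucc 92866559, .ofNat 15849600]),
  (337707, [.ofNat 0, .ofNat 0, .ofNat 5656320, .negSucc 84847679, .ofNat 105294720, .negSucc 43356479, .ofNat 7315200]),
  (337740, [.ofNat 0, .ofNat 0, .ofNat 3121920, .negSucc 62552639, .ofNat 51550080, .negSucc 2111039, .negSucc 7000319, .ofNat 1950720]),
  (337763, [.ofNat 0, .ofNat 0, .ofNat 61911360, .negSucc 298976399, .ofNat 214183680, .ofNat 15886320, .negSucc 38802719, .ofNat 9997440]),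
  (337772, [.ofNat 0, .ofNat 0, .negSucc 10851839, .ofNat 68357760, .negSucc 108900479, .ofNat 76692480, .negSucc 23506559, .ofNat 3169920]),
  (338125, [.ofNat 0, .ofNat 0, .ofNat 34715520, .negSucc 25506719, .negSucc 3586559, .ofNat 6038880, .negSucc 1584959]),
  (338141, [.ofNat 0, .ofNat 0, .negSucc 41748479, .ofNat 126535680, .negSucc 92259839, .ofNat 4222080, .ofNat 11070720, .negSucc 3169919]),
  (338636, [.ofNat 0, .ofNat 0, .ofNat 79773120, .negSucc 283988879, .ofNat 310365120, .negSucc 121652879, .ofNat 20299680]),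
  (338652, [.ofNat 0, .ofNat 0, .negSucc 4031999, .negSucc 20812799, .ofNat 29020800, .negSucc 12691199, .ofNat 2194560]),
  (338661, [.ofNat 0, .ofNat 0, .ofNat 26150400, .ofNat 21713280, .negSucc 101185919, .ofNat 98169600, .negSucc 36036479, .ofNat 5608320]),
  (338699, [.ofNat 0, .ofNat 0, .ofNat 40510080, .negSucc 147842399, .ofNat 89841600, .ofNat 29830560, .negSucc 28319999, .ofNat 6583680]),
  (338787, [.ofNat 0, .ofNat 0, .ofNat 16021440, .negSucc 83817359, .ofNat 97091520, .negSucc 39039119, .ofNat 6644640]),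
  (340709, [.ofNat 0, .ofNat 0, .ofNat 68034240, .negSucc 277334159, .ofNat 306354240, .negSucc 119901839, .ofNat 20055840]),
  (340757, [.ofNat 0, .ofNat 0, .negSucc 130279679, .ofNat 298200000, .negSucc 269967359, .ofNat 97982400, .negSucc 15361919]),
  (340778, [.ofNat 0, .ofNat 0, .negSucc 177684479, .ofNat 517831680, .negSucc 512617919, .ofNat 198702720, .negSucc 33205439, .ofNat 487680]),
  (341605, [.ofNat 0, .ofNat 0, .negSucc 6508799, .negSucc 7264319, .ofNat 14741760, .negSucc 6911039, .ofNat 1219200]),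
  (341802, [.ofNat 0, .ofNat 0, .ofNat 12110400, .negSucc 109386959, .ofNat 137856960, .negSucc 56677199, .ofNat 9814560]),
  (341836, [.ofNat 0, .ofNat 0, .negSucc 2574719, .negSucc 5144159, .negSucc 6830399, .ofNat 23782560, .negSucc 11228159, .ofNat 2194560]),
  (341844, [.ofNat 0, .ofNat 0, .ofNat 921600, .ofNat 12330240, .negSucc 19311359, .ofNat 8298240, .negSucc 1463039]),
  (341858, [.ofNat 0, .ofNat 0, .negSucc 78318719, .ofNat 274003680, .negSucc 262075199, .ofNat 83503200, .negSucc 8039039, .negSucc 1463039]),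
  (342157, [.ofNat 0, .ofNat 0, .ofNat 55457280, .negSucc 132514079, .ofNat 123417600, .negSucc 45075359, .ofNat 7193280]),
  (342173, [.ofNat 0, .ofNat 0, .ofNat 81714240, .negSucc 147387119, .ofNat 85719360, .ofNat 6299280, .negSucc 12838559, .ofNat 3169920]),
  (342188, [.ofNat 0, .ofNat 0, .negSucc 262071359, .ofNat 675389040, .negSucc 647378879, .ofNat 241181040, .negSucc 38465759]),
  (342314, [.ofNat 0, .ofNat 0, .negSucc 5639039, .ofNat 20286240, .negSucc 20628479, .ofNat 9088800, .negSucc 1341119]),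
  (342315, [.ofNat 0, .ofNat 0, .ofNat 27532800, .negSucc 8805119, .negSucc 68311679, .ofNat 85153920, .negSucc 34085759, .ofNat 5608320]),
  (342348, [.ofNat 0, .ofNat 0, .ofNat 190080, .negSucc 74504159, .ofNat 104915520, .negSucc 36993119, .ofNat 3327360, .ofNat 975360]),
  (342362, [.ofNat 0, .ofNat 0, .ofNat 61678080, .negSucc 213008639, .ofNat 229224960, .negSucc 88458239, .ofNat 14630400]),
  (342364, [.ofNat 0, .ofNat 0, .ofNat 97096320, .negSucc 252513119, .ofNat 215684160, .negSucc 33606239, .negSucc 10346879, .ofNat 4632960]),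
  (342668, [.ofNat 0, .ofNat 0, .ofNat 59091840, .negSucc 159250079, .ofNat 161243520, .negSucc 61034399, .ofNat 9875520]),
  (342693, [.ofNat 0, .ofNat 0, .negSucc 32368319, .ofNat 233251920, .negSucc 305371199, .ofNat 155497680, .negSucc 36734879, .ofNat 3169920]),
  (342700, [.ofNat 0, .ofNat 0, .negSucc 130279679, .ofNat 298200000, .negSucc 269967359, .ofNat 97982400, .negSucc 15361919]),
  (342794, [.ofNat 0, .ofNat 0, .negSucc 79637759, .ofNat 188896320, .negSucc 177497279, .ofNat 72680640, .negSucc 12966719, .ofNat 487680]),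
  (342797, [.ofNat 0, .ofNat 0, .negSucc 71573759, .ofNat 162100800, .negSucc 150403199, .ofNat 55594560, .negSucc 8778239]),
  (342813, [.ofNat 0, .ofNat 0, .ofNat 70243200, .negSucc 242466719, .ofNat 275695680, .negSucc 116416799, .ofNat 21135360, .negSucc 487679]),
  (342882, [.ofNat 0, .ofNat 0, .negSucc 783359, .negSucc 18339839, .ofNat 39636480, .negSucc 40995839, .ofNat 16596480, .negSucc 2926079]),
  (344733, [.ofNat 0, .ofNat 0, .negSucc 98458559, .ofNat 350255760, .negSucc 372859199, .ofNat 145399440, .negSucc 23957279]),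
  (344922, [.ofNat 0, .ofNat 0, .negSucc 146010239, .ofNat 410221920, .negSucc 422003519, .ofNat 165297120, .negSucc 27066239]),
  (345805, [.ofNat 0, .ofNat 0, .ofNat 37238400, .negSucc 104669279, .ofNat 110294400, .negSucc 43056479, .ofNat 7193280]),
  (346443, [.ofNat 0, .ofNat 0, .negSucc 12245759, .ofNat 9362880, .negSucc 262079, .ofNat 16347840, .negSucc 9399359, .ofNat 2194560]),
  (346781, [.ofNat 0, .ofNat 0, .negSucc 10506239, .ofNat 51430080, .negSucc 65579519, .ofNat 27391680, .negSucc 4632959]),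
  (346787, [.ofNat 0, .ofNat 0, .negSucc 32613119, .ofNat 95817600, .negSucc 120213119, .ofNat 78643200, .negSucc 23506559, .ofNat 3169920]),
  (346837, [.ofNat 0, .ofNat 0, .ofNat 108518400, .negSucc 270740159, .ofNat 258654720, .negSucc 96031679, .ofNat 15361920]),
  (346955, [.ofNat 0, .ofNat 0, .negSucc 783359, .ofNat 1336320, .negSucc 69828479, .ofNat 90416640, .negSucc 37503359, .ofNat 6339840]),
  (348908, [.ofNat 0, .ofNat 0, .negSucc 32757119, .ofNat 56687520, .negSucc 49052159, .ofNat 18026400, .negSucc 2804159]),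
  (349420, [.ofNat 0, .ofNat 0, .ofNat 108518400, .negSucc 270740159, .ofNat 258654720, .negSucc 96031679, .ofNat 15361920]),
  (349836, [.ofNat 0, .ofNat 0, .ofNat 57749760, .negSucc 113280959, .ofNat 95928960, .negSucc 32372159, .ofNat 4876800]),
  (2434859, [.ofNat 0, .ofNat 0, .ofNat 25032960, .negSucc 43247039, .ofNat 34464000, .negSucc 11428799, .ofNat 1706880]),
  (2434915, [.ofNat 0, .ofNat 0, .ofNat 21841920, .ofNat 35654400, .negSucc 68177279, .ofNat 31403520, .negSucc 5608319]),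
  (2434916, [.ofNat 0, .ofNat 22970880, .negSucc 78867839, .ofNat 133879680, .negSucc 106175999, .ofNat 37011840, .negSucc 5608319]),
  (2435293, [.ofNat 0, .ofNat 50290560, .negSucc 100309919, .ofNat 151391520, .negSucc 94468319, .ofNat 29462880, .negSucc 3657599]),
  (2435309, [.ofNat 0, .negSucc 16047359, .negSucc 35019839, .ofNat 220240320, .negSucc 255272639, .ofNat 100345920, .negSucc 16581119]),
  (2435435, [.ofNat 0, .ofNat 0, .ofNat 17389440, .ofNat 27182880, .negSucc 51602879, .ofNat 23410080, .negSucc 4145279]),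
  (2435813, [.ofNat 0, .negSucc 16047359, .negSucc 29812799, .ofNat 297320640, .negSucc 363021119, .ofNat 146717760, .negSucc 24627839]),
  (2438933, [.ofNat 0, .ofNat 56626560, .negSucc 176775839, .ofNat 117034560, .ofNat 25776480, .negSucc 28972799, .ofNat 7071360]),
  (2438949, [.ofNat 0, .negSucc 6491519, .ofNat 35175840, .negSucc 17778239, .negSucc 18530399, .ofNat 13996800, .negSucc 3169919]),
  (2438956, [.ofNat 0, .ofNat 22970880, .negSucc 78867839, .ofNat 133879680, .negSucc 106175999, .ofNat 37011840, .negSucc 5608319]),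
  (2439467, [.ofNat 0, .ofNat 22970880, .negSucc 76736639, .ofNat 115412160, .negSucc 84635519, .ofNat 28347840, .negSucc 4145279]),
  (2439531, [.ofNat 0, .ofNat 2142720, .negSucc 19109759, .ofNat 1516800, .ofNat 17829120, .negSucc 10740479, .ofNat 2194560]),
  (2439845, [.ofNat 0, .ofNat 76959360, .negSucc 226654559, .ofNat 233341440, .negSucc 89593439, .ofNat 14752320])]

/-- data -/
def lV9x1 : List (ℕ × List ℤ) := [(2440035, [.ofNat 0, .ofNat 0, .negSucc 6266879, .negSucc 16646399, .ofNat 26647680, .negSucc 12203519, .ofNat 2194560]),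
  (2442539, [.ofNat 0, .ofNat 0, .negSucc 1071359, .ofNat 8080320, .negSucc 10302719, .ofNat 4271040, .negSucc 731519]),
  (2443501, [.ofNat 0, .ofNat 115614720, .negSucc 235777919, .negSucc 35791679, .ofNat 264526080, .negSucc 131438399, .ofNat 24871680]),
  (2447141, [.ofNat 0, .ofNat 116478720, .negSucc 267783359, .ofNat 36218880, .ofNat 196221120, .negSucc 106016639, .ofNat 20726400]),
  (2448098, [.ofNat 0, .ofNat 6842880, .negSucc 56745599, .ofNat 120295680, .negSucc 101752319, .ofNat 36280320, .negSucc 5608319]),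
  (2668197, [.ofNat 0, .ofNat 0, .ofNat 27164160, .negSucc 61714559, .ofNat 56004480, .negSucc 20092799, .ofNat 3169920]),
  (2668204, [.ofNat 0, .negSucc 49645439, .ofNat 40500000, .ofNat 65314560, .negSucc 128507999, .ofNat 55444800, .negSucc 9997439]),
  (2668701, [.ofNat 0, .ofNat 0, .ofNat 12072960, .negSucc 11500799, .ofNat 4001280, .negSucc 487679]),
  (2668842, [.ofNat 0, .ofNat 0, .negSucc 12072959, .ofNat 11500800, .negSucc 4001279, .ofNat 487680]),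
  (2676380, [.ofNat 0, .ofNat 0, .negSucc 12072959, .ofNat 11500800, .negSucc 4001279, .ofNat 487680]),
  (2676514, [.ofNat 0, .negSucc 38479679, .ofNat 137916720, .negSucc 149795039, .ofNat 66030000, .negSucc 13578239, .ofNat 853440]),
  (2677523, [.ofNat 0, .ofNat 0, .ofNat 12948480, .negSucc 78228479, .ofNat 90552960, .negSucc 36445439, .ofNat 6096000]),
  (2693419, [.ofNat 0, .negSucc 3271679, .ofNat 77456640, .negSucc 85905599, .ofNat 35450880, .negSucc 6056639, .ofNat 243840]),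
  (2693852, [.ofNat 0, .negSucc 37238399, .ofNat 109496160, .negSucc 44792639, .negSucc 49802399, .ofNat 31489920, .negSucc 6583679]),
  (2700140, [.ofNat 0, .negSucc 4343039, .ofNat 14470080, .ofNat 52222080, .negSucc 87551039, .ofNat 38400000, .negSucc 6827519]),
  (2701132, [.ofNat 0, .ofNat 0, .ofNat 5437440, .ofNat 62167680, .negSucc 87828479, .ofNat 37015680, .negSucc 6339839]),
  (2701164, [.ofNat 0, .ofNat 10851840, .negSucc 68357759, .ofNat 108900480, .negSucc 76692479, .ofNat 23506560, .negSucc 3169919]),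
  (2701611, [.ofNat 0, .negSucc 2142719, .ofNat 26874240, .negSucc 33976319, .ofNat 14309760, .negSucc 2438399]),
  (2701644, [.ofNat 0, .ofNat 864000, .negSucc 32005439, .ofNat 72010560, .negSucc 68304959, .ofNat 25421760, .negSucc 4145279]),
  (2701660, [.ofNat 0, .negSucc 49645439, .ofNat 92443680, .negSucc 41853119, .negSucc 34222559, .ofNat 21563520, .negSucc 4632959]),
  (2702109, [.ofNat 0, .negSucc 6491519, .ofNat 35175840, .negSucc 17778239, .negSucc 18530399, .ofNat 13996800, .negSucc 3169919]),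
  (2702179, [.ofNat 0, .negSucc 22463999, .ofNat 115482240, .negSucc 112768319, .ofNat 44119680, .negSucc 7275839, .ofNat 243840]),
  (2704101, [.ofNat 0, .negSucc 13766399, .negSucc 23816639, .ofNat 41671680, .negSucc 27140159, .ofNat 6587520, .negSucc 731519]),
  (2704227, [.ofNat 0, .ofNat 10851840, .negSucc 68357759, .ofNat 108900480, .negSucc 76692479, .ofNat 23506560, .negSucc 3169919]),
  (2705101, [.ofNat 0, .negSucc 37238399, .ofNat 104669280, .negSucc 110294399, .ofNat 43056480, .negSucc 7193279]),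
  (2705181, [.ofNat 0, .ofNat 0, .negSucc 1071359, .ofNat 8080320, .negSucc 10302719, .ofNat 4271040, .negSucc 731519]),
  (2705613, [.ofNat 0, .ofNat 0, .negSucc 11001599, .ofNat 35010240, .negSucc 35950079, .ofNat 13544640, .negSucc 2194559]),
  (2705629, [.ofNat 0, .negSucc 13766399, .negSucc 23816639, .ofNat 41671680, .negSucc 27140159, .ofNat 6587520, .negSucc 731519]),
  (2706125, [.ofNat 0, .ofNat 1278720, .ofNat 12204480, .negSucc 665279, .negSucc 4282559, .ofNat 1341120]),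
  (2706251, [.ofNat 0, .negSucc 14549759, .ofNat 3001920, .ofNat 46452480, .negSucc 63115199, .ofNat 25626240, .negSucc 4389119]),
  (2708204, [.ofNat 0, .negSucc 9555839, .ofNat 62541600, .negSucc 36049919, .negSucc 19947359, .ofNat 16234560, .negSucc 3657599]),
  (2708267, [.ofNat 0, .ofNat 12407040, .ofNat 5624640, .negSucc 37232639, .ofNat 41352000, .negSucc 15212159, .ofNat 2438400]),
  (2708316, [.ofNat 0, .ofNat 37238400, .negSucc 47195999, .negSucc 20001599, .ofNat 76853280, .negSucc 35961599, .ofNat 6827520]),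
  (2709221, [.ofNat 0, .negSucc 2142719, .ofNat 26874240, .negSucc 33976319, .ofNat 14309760, .negSucc 2438399]),
  (2709291, [.ofNat 0, .ofNat 2142720, .negSucc 20745599, .ofNat 26315520, .negSucc 11721599, .ofNat 1950720]),
  (2709708, [.ofNat 0, .ofNat 116478720, .negSucc 267783359, .ofNat 36218880, .ofNat 196221120, .negSucc 106016639, .ofNat 20726400]),
  (2709771, [.ofNat 0, .ofNat 16116480, .negSucc 28933439, .ofNat 27192960, .negSucc 4054079, .negSucc 652799, .ofNat 487680]),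
  (2710220, [.ofNat 0, .ofNat 5639040, .negSucc 20286239, .ofNat 20628480, .negSucc 9088799, .ofNat 1341120]),
  (2710283, [.ofNat 0, .negSucc 13766399, .negSucc 23816639, .ofNat 41671680, .negSucc 27140159, .ofNat 6587520, .negSucc 731519]),
  (2726059, [.ofNat 0, .ofNat 0, .ofNat 12072960, .negSucc 11500799, .ofNat 4001280, .negSucc 487679]),
  (2726122, [.ofNat 0, .ofNat 0, .negSucc 4285439, .ofNat 4913280, .negSucc 1455359, .ofNat 243840]),
  (2726186, [.ofNat 0, .ofNat 41544000, .negSucc 104641199, .ofNat 96825120, .negSucc 27808559, .ofNat 1661760, .ofNat 853440]),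
  (2726626, [.ofNat 0, .ofNat 0, .negSucc 16358399, .ofNat 16414080, .negSucc 5456639, .ofNat 731520]),
  (2730269, [.ofNat 0, .negSucc 10851839, .ofNat 71445120, .negSucc 111980159, .ofNat 77068800, .negSucc 23506559, .ofNat 3169920]),
  (2732716, [.ofNat 0, .negSucc 49645439, .ofNat 41571360, .ofNat 57234240, .negSucc 118205279, .ofNat 51173760, .negSucc 9265919]),
  (2732842, [.ofNat 0, .negSucc 16047359, .negSucc 26621759, .ofNat 218419200, .negSucc 260379839, .ofNat 103885440, .negSucc 17312639]),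
  (2734252, [.ofNat 0, .ofNat 76959360, .negSucc 226654559, .ofNat 233341440, .negSucc 89593439, .ofNat 14752320]),
  (2734412, [.ofNat 0, .ofNat 0, .ofNat 2131200, .negSucc 18467519, .ofNat 21540480, .negSucc 8663999, .ofNat 1463040]),
  (2734858, [.ofNat 0, .negSucc 16047359, .negSucc 35019839, .ofNat 220240320, .negSucc 255272639, .ofNat 100345920, .negSucc 16581119]),
  (2734946, [.ofNat 0, .ofNat 0, .ofNat 3196800, .ofNat 141094560, .negSucc 190194239, .ofNat 79787040, .negSucc 13655039]),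
  (2736925, [.ofNat 0, .ofNat 0, .negSucc 8156159, .ofNat 6718080, .negSucc 3383039, .ofNat 243840]),
  (2738333, [.ofNat 0, .negSucc 14411519, .ofNat 59096640, .negSucc 64538879, .ofNat 25492800, .negSucc 4145279]),
  (2738515, [.ofNat 0, .ofNat 0, .ofNat 12948480, .negSucc 78228479, .ofNat 90552960, .negSucc 36445439, .ofNat 6096000]),
  (2738522, [.ofNat 0, .ofNat 17187840, .negSucc 72863999, .ofNat 80951040, .negSucc 32881919, .ofNat 5364480]),
  (2738786, [.ofNat 0, .ofNat 0, .negSucc 12072959, .ofNat 11500800, .negSucc 4001279, .ofNat 487680]),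
  (2738860, [.ofNat 0, .ofNat 0, .ofNat 1359360, .negSucc 1466879, .ofNat 215040]),
  (2739020, [.ofNat 0, .ofNat 76959360, .negSucc 201621599, .ofNat 190094400, .negSucc 55129439, .ofNat 3323520, .ofNat 1706880]),
  (2741076, [.ofNat 0, .ofNat 0, .ofNat 12072960, .negSucc 11500799, .ofNat 4001280, .negSucc 487679]),
  (2741925, [.ofNat 0, .ofNat 0, .ofNat 2557440, .negSucc 3315839, .ofNat 403200, .negSucc 243839]),
  (2742364, [.ofNat 0, .ofNat 0, .negSucc 4285439, .ofNat 4913280, .negSucc 1455359, .ofNat 243840]),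
  (2742538, [.ofNat 0, .negSucc 35415359, .ofNat 122013360, .negSucc 136516319, .ofNat 61784880, .negSucc 13090559, .ofNat 853440]),
  (2742557, [.ofNat 0, .ofNat 0, .ofNat 7119360, .negSucc 44643839, .ofNat 52333440, .negSucc 21477119, .ofNat 3657600]),
  (2742876, [.ofNat 0, .ofNat 0, .ofNat 27164160, .negSucc 61714559, .ofNat 56004480, .negSucc 20092799, .ofNat 3169920]),
  (2743050, [.ofNat 0, .ofNat 78376320, .negSucc 126281759, .negSucc 80584319, .ofNat 214723680, .negSucc 99948479, .ofNat 18288000]),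
  (2758316, [.ofNat 0, .ofNat 0, .negSucc 16358399, .ofNat 16414080, .negSucc 5456639, .ofNat 731520]),
  (2759514, [.ofNat 0, .ofNat 0, .negSucc 6266879, .negSucc 16646399, .ofNat 26647680, .negSucc 12203519, .ofNat 2194560]),
  (2769754, [.ofNat 0, .negSucc 16127999, .ofNat 47155200, .negSucc 56831039, .ofNat 38887680, .negSucc 12160319, .ofNat 1706880]),
  (2771787, [.ofNat 0, .negSucc 14549759, .ofNat 23328960, .ofNat 144876000, .negSucc 214771199, .ofNat 91380960, .negSucc 15849599]),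
  (2774741, [.ofNat 0, .ofNat 12407040, .ofNat 5624640, .negSucc 37232639, .ofNat 41352000, .negSucc 15212159, .ofNat 2438400]),
  (2775715, [.ofNat 0, .ofNat 0, .ofNat 3087360, .negSucc 3079679, .ofNat 376320]),
  (2791148, [.ofNat 0, .negSucc 16127999, .ofNat 29241600, .negSucc 58227839, .ofNat 56757120, .negSucc 22208639, .ofNat 3657600]),
  (2795244, [.ofNat 0, .negSucc 10851839, .ofNat 70373760, .negSucc 103899839, .ofNat 66766080, .negSucc 19235519, .ofNat 2438400]),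
  (2799244, [.ofNat 0, .ofNat 2142720, .negSucc 20745599, .ofNat 26315520, .negSucc 11721599, .ofNat 1950720]),
  (2799373, [.ofNat 0, .negSucc 38479679, .ofNat 137916720, .negSucc 149795039, .ofNat 66030000, .negSucc 13578239, .ofNat 853440]),
  (2803436, [.ofNat 0, .ofNat 37238400, .negSucc 47195999, .negSucc 20001599, .ofNat 76853280, .negSucc 35961599, .ofNat 6827520]),
  (2803914, [.ofNat 0, .ofNat 0, .negSucc 12072959, .ofNat 11500800, .negSucc 4001279, .ofNat 487680]),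
  (19478764, [.ofNat 0, .negSucc 70744319, .ofNat 168421440, .negSucc 156721919, .ofNat 57065280, .negSucc 9022079]),
  (19478827, [.ofNat 0, .negSucc 27164159, .ofNat 61714560, .negSucc 56004479, .ofNat 20092800, .negSucc 3169919]),
  (19478891, [.ofNat 0, .negSucc 1658879, .ofNat 1221120, .ofNat 138240]),
  (19482349, [.ofNat 29099520, .negSucc 32995199, .negSucc 112480319, .ofNat 184156800, .negSucc 79199039, .ofNat 13898880]),
  (19482469, [.ofNat 0, .ofNat 6819840, .negSucc 70567679, .ofNat 87480960, .negSucc 35957759, .ofNat 6096000]),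
  (19483421, [.ofNat 0, .negSucc 29231999, .ofNat 157867680, .negSucc 183490559, .ofNat 72304800, .negSucc 12070079]),
  (19486941, [.ofNat 0, .ofNat 391680, .negSucc 322559]),
  (19507437, [.ofNat 0, .negSucc 73808639, .ofNat 172251840, .negSucc 158499839, .ofNat 57309120, .negSucc 9022079]),
  (19507941, [.ofNat 0, .negSucc 3064319, .ofNat 3830400, .negSucc 1777919, .ofNat 243840]),
  (19511468, [.ofNat 0, .ofNat 27164160, .negSucc 61714559, .ofNat 56004480, .negSucc 20092799, .ofNat 3169920]),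
  (19511973, [.ofNat 0, .negSucc 18685439, .ofNat 42969600, .negSucc 39432959, .ofNat 14968320, .negSucc 2438399]),
  (19511980, [.ofNat 0, .ofNat 13167360, .negSucc 50420159, .ofNat 55637760, .negSucc 21842879, .ofNat 3657600]),
  (19512162, [.ofNat 14549760, .negSucc 17891519, .negSucc 82708319, .ofNat 126942720, .negSucc 54365279, .ofNat 9509760]),
  (19514667, [.ofNat 0, .ofNat 3064320, .negSucc 3830399, .ofNat 1294080, .negSucc 243839]),
  (19514723, [.ofNat 0, .ofNat 15338880, .negSucc 110891039, .ofNat 135880320, .negSucc 54811679, .ofNat 9387840]),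
  (19514725, [.ofNat 0, .negSucc 3064319, .ofNat 3830400, .negSucc 1777919, .ofNat 243840]),
  (19515220, [.ofNat 0, .negSucc 6566399, .ofNat 26025600, .negSucc 28304639, .ofNat 12032640, .negSucc 1950719]),
  (19515244, [.ofNat 0, .ofNat 25655040, .negSucc 36415679, .ofNat 23425920, .negSucc 7035839, .ofNat 975360]),
  (19516067, [.ofNat 0, .ofNat 15338880, .negSucc 110891039, .ofNat 135880320, .negSucc 54811679, .ofNat 9387840]),
  (19516075, [.ofNat 0, .ofNat 88335360, .negSucc 218511359, .ofNat 207025920, .negSucc 76304639, .ofNat 12192000]),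
  (19516181, [.ofNat 0, .negSucc 5207039, .ofNat 39690240, .negSucc 46410239, .ofNat 18063360, .negSucc 2926079]),
  (19518819, [.ofNat 0, .ofNat 3064320, .negSucc 3830399, .ofNat 1294080, .negSucc 243839]),
  (19519253, [.ofNat 0, .ofNat 40783680, .negSucc 112822319, .ofNat 110354880, .negSucc 40887599, .ofNat 6522720]),
  (19540331, [.ofNat 0, .ofNat 6566400, .negSucc 26025599, .ofNat 28304640, .negSucc 12032639, .ofNat 1950720])]

/-- data -/
def lV9x2 : List (ℕ × List ℤ) := [(19540709, [.ofNat 0, .negSucc 4423679, .ofNat 9864960, .negSucc 7699199, .ofNat 3490560, .negSucc 487679]),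
  (19543893, [.ofNat 0, .ofNat 9884160, .negSucc 74398079, .ofNat 89258880, .negSucc 36201599, .ofNat 6096000]),
  (19543909, [.ofNat 0, .ofNat 4504320, .negSucc 32667839, .ofNat 36612480, .negSucc 14831039, .ofNat 2438400]),
  (19544427, [.ofNat 0, .negSucc 5022719, .ofNat 23598720, .negSucc 28634879, .ofNat 12032640, .negSucc 1950719]),
  (19548893, [.ofNat 0, .negSucc 27164159, .ofNat 61714560, .negSucc 56004479, .ofNat 20092800, .negSucc 3169919]),
  (19552924, [.ofNat 0, .negSucc 27164159, .ofNat 61714560, .negSucc 56004479, .ofNat 20092800, .negSucc 3169919]),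
  (19572523, [.ofNat 0, .negSucc 14670719, .ofNat 33780960, .negSucc 31224959, .ofNat 11409120, .negSucc 1828799]),
  (19572579, [.ofNat 0, .negSucc 37509119, .ofNat 130699200, .negSucc 147083519, .ofNat 58925760, .negSucc 9997439]),
  (19572957, [.ofNat 0, .ofNat 42629760, .negSucc 97459679, .ofNat 82106880, .negSucc 27410399, .ofNat 4023360]),
  (19577061, [.ofNat 0, .ofNat 4423680, .ofNat 330240, .negSucc 5333759, .ofNat 2603520, .negSucc 487679]),
  (19581163, [.ofNat 0, .ofNat 9884160, .negSucc 74398079, .ofNat 89258880, .negSucc 36201599, .ofNat 6096000]),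
  (19584738, [.ofNat 14549760, .ofNat 27958080, .negSucc 187392479, .ofNat 222380160, .negSucc 89426399, .ofNat 15118080]),
  (19585187, [.ofNat 0, .ofNat 1071360, .negSucc 8080319, .ofNat 10302720, .negSucc 4271039, .ofNat 731520]),
  (21313324, [.ofNat 0, .negSucc 57934079, .ofNat 68078400, .negSucc 31514879, .ofNat 5812800, .negSucc 243839]),
  (21321515, [.ofNat 0, .ofNat 40783680, .negSucc 112822319, .ofNat 110354880, .negSucc 40887599, .ofNat 6522720]),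
  (21321948, [.ofNat 0, .negSucc 15713279, .ofNat 297600, .ofNat 15803520, .negSucc 8868479, .ofNat 1706880]),
  (21342437, [.ofNat 0, .negSucc 4432319, .ofNat 11965200, .negSucc 11801279, .ofNat 4626960, .negSucc 792479]),
  (21342557, [.ofNat 0, .negSucc 116472959, .ofNat 255161760, .negSucc 227832959, .ofNat 81355680, .negSucc 12801599]),
  (21342571, [.ofNat 0, .negSucc 51128639, .ofNat 114024240, .negSucc 104468159, .ofNat 37581360, .negSucc 6035039]),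
  (21342956, [.ofNat 0, .ofNat 133061760, .negSucc 479528159, .ofNat 513912960, .negSucc 198351839, .ofNat 32552640]),
  (21345644, [.ofNat 0, .ofNat 5495040, .negSucc 17945279, .ofNat 18001920, .negSucc 7761599, .ofNat 1219200]),
  (21346581, [.ofNat 0, .negSucc 16021439, .ofNat 83817360, .negSucc 97091519, .ofNat 39039120, .negSucc 6644639]),
  (21346644, [.ofNat 0, .negSucc 3087359, .ofNat 78009600, .negSucc 102355199, .ofNat 42466560, .negSucc 7315199]),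
  (21347093, [.ofNat 0, .negSucc 23232959, .ofNat 105122160, .negSucc 114194879, .ofNat 44886000, .negSucc 7254239]),
  (21347156, [.ofNat 0, .negSucc 7836479, .ofNat 28590480, .negSucc 25865279, .ofNat 10133520, .negSucc 1523999]),
  (21347170, [.ofNat 0, .negSucc 7459199, .negSucc 7465439, .ofNat 15653760, .negSucc 7403999, .ofNat 1341120]),
  (21349739, [.ofNat 0, .ofNat 4976640, .negSucc 5180159, .ofNat 3571200, .negSucc 487679]),
  (21350739, [.ofNat 0, .negSucc 38407679, .ofNat 27302400, .ofNat 3703680, .negSucc 6673919, .ofNat 1706880]),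
  (21351075, [.ofNat 0, .ofNat 24946560, .negSucc 105847199, .ofNat 117768960, .negSucc 45943199, .ofNat 7680960]),
  (21351125, [.ofNat 0, .negSucc 54524159, .ofNat 163448640, .negSucc 165292799, .ofNat 62272320, .negSucc 9997439]),
  (21353708, [.ofNat 0, .negSucc 21637439, .ofNat 43303920, .negSucc 36427199, .ofNat 12618480, .negSucc 1889759]),
  (21353763, [.ofNat 0, .negSucc 16021439, .ofNat 83817360, .negSucc 97091519, .ofNat 39039120, .negSucc 6644639]),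
  (21354667, [.ofNat 0, .negSucc 33684479, .ofNat 59974560, .negSucc 50975999, .ofNat 17498400, .negSucc 2804159]),
  (21354708, [.ofNat 0, .ofNat 5520960, .ofNat 445200, .negSucc 3579839, .ofNat 1770000, .negSucc 304799]),
  (21355171, [.ofNat 0, .ofNat 12813120, .negSucc 33770639, .ofNat 29436480, .negSucc 10621199, .ofNat 1524000]),
  (21355283, [.ofNat 0, .negSucc 12000959, .ofNat 27107280, .negSucc 27504959, .ofNat 10061520, .negSucc 1767839]),
  (21374749, [.ofNat 0, .negSucc 7528319, .ofNat 216792480, .negSucc 287333759, .ofNat 118350240, .negSucc 20604479]),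
  (21374763, [.ofNat 0, .ofNat 18774720, .negSucc 117827279, .ofNat 142816320, .negSucc 58361039, .ofNat 10058400]),
  (21375787, [.ofNat 0, .ofNat 10578240, .ofNat 19610640, .negSucc 36578879, .ofNat 16342800, .negSucc 2987039]),
  (21378347, [.ofNat 0, .ofNat 55120320, .negSucc 153286799, .ofNat 151848000, .negSucc 57259919, .ofNat 9326880]),
  (21379229, [.ofNat 0, .negSucc 56603519, .ofNat 137551200, .negSucc 131293439, .ofNat 49073760, .negSucc 7924799]),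
  (21379740, [.ofNat 0, .ofNat 1560960, .negSucc 24298079, .ofNat 31931520, .negSucc 13281119, .ofNat 2316480]),
  (21379741, [.ofNat 0, .negSucc 97136639, .ofNat 189955200, .negSucc 159757439, .ofNat 55344000, .negSucc 8534399]),
  (21379797, [.ofNat 0, .negSucc 97136639, .ofNat 189955200, .negSucc 159757439, .ofNat 55344000, .negSucc 8534399]),
  (21379866, [.ofNat 0, .negSucc 28062719, .ofNat 8252160, .ofNat 20330880, .negSucc 12368639, .ofNat 2682240]),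
  (21379923, [.ofNat 0, .ofNat 91571040, .negSucc 236352359, .ofNat 226543200, .negSucc 82877159, .ofNat 13197840]),
  (21382827, [.ofNat 0, .negSucc 31841279, .ofNat 52323360, .negSucc 34064639, .ofNat 10772640, .negSucc 1341119]),
  (21382995, [.ofNat 0, .negSucc 91594079, .ofNat 279053160, .negSucc 281825759, .ofNat 107249640, .negSucc 17343119]),
  (21383898, [.ofNat 0, .ofNat 36541440, .negSucc 90612479, .ofNat 80269440, .negSucc 27390719, .ofNat 4145280]),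
  (21386915, [.ofNat 0, .negSucc 36933119, .ofNat 128403840, .negSucc 138787199, .ofNat 54261120, .negSucc 9022079]),
  (21386923, [.ofNat 0, .negSucc 116472959, .ofNat 255161760, .negSucc 227832959, .ofNat 81355680, .negSucc 12801599]),
  (21387027, [.ofNat 0, .negSucc 9820799, .ofNat 74450400, .negSucc 92085119, .ofNat 36012000, .negSucc 6217919]),
  (21407580, [.ofNat 0, .negSucc 11517119, .negSucc 77075759, .ofNat 113459520, .negSucc 48264239, .ofNat 8229600]),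
  (21412115, [.ofNat 0, .ofNat 38407680, .negSucc 27302399, .negSucc 3703679, .ofNat 6673920, .negSucc 1706879]),
  (21415636, [.ofNat 0, .ofNat 8501760, .ofNat 6157440, .negSucc 17064959, .ofNat 8054400, .negSucc 1463039]),
  (21416154, [.ofNat 0, .negSucc 18656639, .ofNat 84610080, .negSucc 93563519, .ofNat 36587040, .negSucc 5974079]),
  (21419795, [.ofNat 0, .negSucc 4527359, .ofNat 25836960, .negSucc 30249599, .ofNat 12498720, .negSucc 2072639]),
  (21420307, [.ofNat 0, .negSucc 3064319, .ofNat 3830400, .negSucc 1294079, .ofNat 243840]),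
  (21543275, [.ofNat 0, .negSucc 2050559, .ofNat 1543680, .ofNat 138240]),
  (21543653, [.ofNat 0, .ofNat 19175040, .negSucc 16917119, .ofNat 6192000, .ofNat 464640, .negSucc 243839]),
  (21543709, [.ofNat 0, .ofNat 19175040, .negSucc 16917119, .ofNat 6192000, .ofNat 464640, .negSucc 243839]),
  (21543779, [.ofNat 0, .negSucc 2050559, .ofNat 1543680, .ofNat 138240]),
  (21608549, [.ofNat 0, .ofNat 32803200, .negSucc 108439199, .ofNat 110254080, .negSucc 41772959, .ofNat 6705600]),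
  (21609068, [.ofNat 0, .ofNat 783360, .negSucc 645119]),
  (21612364, [.ofNat 0, .negSucc 17671679, .ofNat 66245760, .negSucc 74926079, .ofNat 29412480, .negSucc 4876799]),
  (21612637, [.ofNat 0, .ofNat 12948480, .negSucc 78228479, .ofNat 90552960, .negSucc 36445439, .ofNat 6096000]),
  (21613163, [.ofNat 0, .negSucc 4584959, .ofNat 71410560, .negSucc 88306559, .ofNat 36201600, .negSucc 6095999]),
  (21615459, [.ofNat 0, .negSucc 34191359, .ofNat 134991360, .negSucc 144172799, .ofNat 56294400, .negSucc 9265919]),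
  (21616397, [.ofNat 0, .negSucc 14647679, .ofNat 51630240, .negSucc 63576959, .ofNat 26055840, .negSucc 4511039]),
  (21616739, [.ofNat 0, .ofNat 22320000, .negSucc 88323359, .ofNat 86943360, .negSucc 31967519, .ofNat 4998720]),
  (21641836, [.ofNat 0, .ofNat 103252320, .negSucc 261134279, .ofNat 248713440, .negSucc 91348679, .ofNat 14538960]),
  (21641933, [.ofNat 0, .ofNat 12000960, .negSucc 27107279, .ofNat 27504960, .negSucc 10061519, .ofNat 1767840]),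
  (21648108, [.ofNat 0, .ofNat 29623680, .negSucc 32550239, .ofNat 11600640, .negSucc 912479, .negSucc 365759]),
  (21649004, [.ofNat 0, .ofNat 163406880, .negSucc 306288599, .ofNat 249023520, .negSucc 82815959, .ofNat 12161520]),
  (21649613, [.ofNat 0, .ofNat 4412160, .negSucc 61410239, .ofNat 80549760, .negSucc 33558719, .ofNat 5852160]),
  (21666524, [.ofNat 0, .ofNat 4032000, .ofNat 20812800, .negSucc 29020799, .ofNat 12691200, .negSucc 2194559]),
  (21673580, [.ofNat 0, .ofNat 12948480, .negSucc 78228479, .ofNat 90552960, .negSucc 36445439, .ofNat 6096000]),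
  (21674085, [.ofNat 0, .ofNat 14353920, .negSucc 102769919, .ofNat 124876800, .negSucc 51252479, .ofNat 8778240]),
  (21674092, [.ofNat 0, .ofNat 47714400, .negSucc 147516839, .ofNat 152531040, .negSucc 58724519, .ofNat 9784080]),
  (21677661, [.ofNat 0, .negSucc 144796319, .ofNat 268285080, .negSucc 214943519, .ofNat 71525400, .negSucc 10454639]),
  (21678796, [.ofNat 0, .negSucc 63751679, .ofNat 200171520, .negSucc 213273599, .ofNat 82613760, .negSucc 13655039]),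
  (21801708, [.ofNat 0, .negSucc 12959999, .ofNat 36325440, .negSucc 31948799, .ofNat 11810880, .negSucc 1706879]),
  (21805221, [.ofNat 0, .negSucc 28085759, .ofNat 81114240, .negSucc 80083199, .ofNat 30180480, .negSucc 4876799]),
  (21805228, [.ofNat 0, .ofNat 2108160, .negSucc 8928959, .ofNat 1910400, .ofNat 1573440, .negSucc 487679]),
  (21805333, [.ofNat 0, .negSucc 921599, .negSucc 12330239, .ofNat 19311360, .negSucc 8298239, .ofNat 1463040]),
  (21805740, [.ofNat 0, .negSucc 56629439, .ofNat 84983760, .negSucc 56554559, .ofNat 17192400, .negSucc 2255519]),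
  (21808357, [.ofNat 0, .ofNat 65160000, .negSucc 155117039, .ofNat 143835840, .negSucc 52316399, .ofNat 8229600]),
  (21808427, [.ofNat 0, .negSucc 90095039, .ofNat 306102480, .negSucc 323835839, .ofNat 124578000, .negSucc 20543519]),
  (21808483, [.ofNat 0, .negSucc 89929439, .ofNat 199779240, .negSucc 184113119, .ofNat 65198760, .negSucc 10271759]),
  (21808805, [.ofNat 0, .ofNat 33975360, .negSucc 51863279, .ofNat 34664640, .negSucc 10502639, .ofNat 1402080]),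
  (21808917, [.ofNat 0, .ofNat 99907200, .negSucc 198842399, .ofNat 165880320, .negSucc 57733919, .ofNat 8656320]),
  (21808938, [.ofNat 0, .negSucc 8282879, .ofNat 27207360, .negSucc 29362559, .ofNat 11267520, .negSucc 1950719]),
  (21809323, [.ofNat 0, .ofNat 22487040, .negSucc 40389119, .ofNat 32273280, .negSucc 11063039, .ofNat 1706880]),
  (21809491, [.ofNat 0, .negSucc 12000959, .ofNat 27107280, .negSucc 27504959, .ofNat 10061520, .negSucc 1767839]),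
  (21809827, [.ofNat 0, .negSucc 66659039, .ofNat 197415720, .negSucc 206853599, .ofNat 77484840, .negSucc 12710159]),
  (21809835, [.ofNat 0, .negSucc 56629439, .ofNat 84983760, .negSucc 56554559, .ofNat 17192400, .negSucc 2255519]),
  (21809898, [.ofNat 0, .negSucc 69865919, .ofNat 263159760, .negSucc 282123839, .ofNat 109421520, .negSucc 17861279]),
  (21809962, [.ofNat 0, .ofNat 5512320, .ofNat 12740640, .negSucc 20714879, .ofNat 9000480, .negSucc 1584959]),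
  (21812509, [.ofNat 0, .ofNat 28761120, .negSucc 60385079, .ofNat 51607200, .negSucc 17901239, .ofNat 2773680]),
  (21812523, [.ofNat 0, .ofNat 55627200, .negSucc 169289999, .ofNat 170890560, .negSucc 64173839, .ofNat 10302240])]

/-- data -/
def lV9x3 : List (ℕ × List ℤ) := [(21812579, [.ofNat 0, .negSucc 2471039, .ofNat 118880160, .negSucc 159121919, .ofNat 65796000, .negSucc 11582399]),
  (21812908, [.ofNat 0, .ofNat 67835520, .negSucc 86201759, .ofNat 48111360, .negSucc 12585119, .ofNat 1341120]),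
  (21813411, [.ofNat 0, .ofNat 8539200, .negSucc 179679599, .ofNat 236548800, .negSucc 97472879, .ofNat 17007840]),
  (21813419, [.ofNat 0, .ofNat 9607680, .ofNat 5043840, .negSucc 18111359, .ofNat 8868480, .negSucc 1706879]),
  (21813484, [.ofNat 0, .ofNat 17910720, .negSucc 37559759, .ofNat 32996160, .negSucc 11662799, .ofNat 1767840]),
  (21814035, [.ofNat 0, .negSucc 38407679, .ofNat 27302400, .ofNat 3703680, .negSucc 6673919, .ofNat 1706880]),
  (21830499, [.ofNat 0, .negSucc 44311679, .ofNat 121025760, .negSucc 116989439, .ofNat 43622880, .negSucc 6949439]),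
  (21838605, [.ofNat 0, .ofNat 27112320, .negSucc 53953439, .ofNat 46702080, .negSucc 18249119, .ofNat 2804160]),
  (21840739, [.ofNat 0, .ofNat 3064320, .negSucc 3830399, .ofNat 1777920, .negSucc 243839]),
  (21842027, [.ofNat 0, .ofNat 22487040, .negSucc 40389119, .ofNat 32273280, .negSucc 11063039, .ofNat 1706880]),
  (21842637, [.ofNat 0, .negSucc 11799359, .negSucc 43815119, .ofNat 69781440, .negSucc 30893519, .ofNat 5425440]),
  (21846108, [.ofNat 0, .negSucc 69865919, .ofNat 263159760, .negSucc 282123839, .ofNat 109421520, .negSucc 17861279]),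
  (21846252, [.ofNat 0, .ofNat 51914880, .negSucc 133188959, .ofNat 127361280, .negSucc 46957919, .ofNat 7437120]),
  (21846364, [.ofNat 0, .ofNat 51914880, .negSucc 133188959, .ofNat 127361280, .negSucc 46957919, .ofNat 7437120]),
  (21846627, [.ofNat 0, .negSucc 32428799, .negSucc 4468799, .ofNat 40300800, .negSucc 21276479, .ofNat 4145280]),
  (21862698, [.ofNat 0, .negSucc 20816639, .ofNat 61437120, .negSucc 60973439, .ofNat 23632320, .negSucc 3901439]),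
  (21875298, [.ofNat 0, .ofNat 22487040, .negSucc 40389119, .ofNat 32273280, .negSucc 11063039, .ofNat 1706880]),
  (21877602, [.ofNat 0, .ofNat 21692160, .negSucc 51378239, .ofNat 40356480, .negSucc 13842239, .ofNat 1950720]),
  (21879050, [.ofNat 0, .ofNat 6266880, .ofNat 16646400, .negSucc 26647679, .ofNat 12203520, .negSucc 2194559]),
  (21894429, [.ofNat 0, .negSucc 73676159, .ofNat 160648800, .negSucc 138673919, .ofNat 48908640, .negSucc 7437119]),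
  (21894492, [.ofNat 0, .ofNat 1560960, .negSucc 24298079, .ofNat 31931520, .negSucc 13281119, .ofNat 2316480]),
  (21894828, [.ofNat 0, .ofNat 2805120, .negSucc 1402079, .negSucc 374399, .ofNat 468000, .negSucc 121919]),
  (21894933, [.ofNat 0, .ofNat 101200320, .negSucc 196822799, .ofNat 162730560, .negSucc 56198159, .ofNat 8351520]),
  (21894996, [.ofNat 0, .ofNat 30458880, .negSucc 27093119, .ofNat 5850240, .ofNat 1223040, .negSucc 731519]),
  (21895010, [.ofNat 0, .negSucc 5865119, .ofNat 35600280, .negSucc 38672159, .ofNat 15263640, .negSucc 2407919]),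
  (21895514, [.ofNat 0, .negSucc 12625919, .ofNat 36276480, .negSucc 43916159, .ofNat 18347520, .negSucc 3169919]),
  (21895845, [.ofNat 0, .negSucc 45181439, .ofNat 75223680, .negSucc 56355839, .ofNat 18138240, .negSucc 2438399]),
  (21896019, [.ofNat 0, .ofNat 5978880, .negSucc 31771199, .ofNat 36597120, .negSucc 14602559, .ofNat 2438400]),
  (21898013, [.ofNat 0, .negSucc 130472639, .ofNat 238740240, .negSucc 186601919, .ofNat 62541840, .negSucc 9083039]),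
  (21898027, [.ofNat 0, .negSucc 35159039, .ofNat 34787520, .negSucc 11500799, .ofNat 1014720, .ofNat 243840]),
  (21899877, [.ofNat 0, .negSucc 45181439, .ofNat 75223680, .negSucc 56355839, .ofNat 18138240, .negSucc 2438399]),
  (21900012, [.ofNat 0, .negSucc 7928639, .negSucc 2514959, .ofNat 11150400, .negSucc 5441039, .ofNat 1036320]),
  (21900043, [.ofNat 0, .negSucc 76266719, .ofNat 192371880, .negSucc 188742239, .ofNat 68616360, .negSucc 11003279]),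
  (21900061, [.ofNat 0, .ofNat 65160000, .negSucc 155117039, .ofNat 143835840, .negSucc 52316399, .ofNat 8229600]),
  (21900075, [.ofNat 0, .ofNat 24747840, .negSucc 53929199, .ofNat 47760960, .negSucc 17011439, .ofNat 2621280]),
  (21906091, [.ofNat 0, .ofNat 133783200, .negSucc 273738359, .ofNat 237422880, .negSucc 81903479, .ofNat 12527280]),
  (21906259, [.ofNat 0, .ofNat 98724960, .negSucc 235297319, .ofNat 218463840, .negSucc 78849959, .ofNat 12466320]),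
  (21906763, [.ofNat 0, .ofNat 47714400, .negSucc 147516839, .ofNat 152531040, .negSucc 58724519, .ofNat 9784080]),
  (21908075, [.ofNat 0, .negSucc 57934079, .ofNat 68078400, .negSucc 31514879, .ofNat 5812800, .negSucc 243839]),
  (21910181, [.ofNat 0, .negSucc 8346239, .ofNat 4164000, .ofNat 3809280, .negSucc 2705759, .ofNat 609600]),
  (21910252, [.ofNat 0, .ofNat 17910720, .negSucc 37559759, .ofNat 32996160, .negSucc 11662799, .ofNat 1767840]),
  (21910291, [.ofNat 0, .negSucc 37719359, .ofNat 108991920, .negSucc 108576959, .ofNat 40643760, .negSucc 6522719]),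
  (21910362, [.ofNat 0, .negSucc 13553279, .ofNat 43854240, .negSucc 42600959, .ofNat 15357600, .negSucc 2316479]),
  (21910795, [.ofNat 0, .negSucc 105258239, .ofNat 249716640, .negSucc 232264319, .ofNat 83329440, .negSucc 13045439]),
  (21910797, [.ofNat 0, .ofNat 30458880, .negSucc 27093119, .ofNat 5850240, .ofNat 1223040, .negSucc 731519]),
  (21910813, [.ofNat 0, .ofNat 19368000, .negSucc 60470639, .ofNat 62635200, .negSucc 23764079, .ofNat 3840480]),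
  (21910860, [.ofNat 0, .ofNat 1088640, .ofNat 12410400, .negSucc 15381119, .ofNat 6396960, .negSucc 1097279]),
  (21911317, [.ofNat 0, .ofNat 19368000, .negSucc 60470639, .ofNat 62635200, .negSucc 23764079, .ofNat 3840480]),
  (21911372, [.ofNat 0, .negSucc 22838399, .ofNat 96918240, .negSucc 115858559, .ofNat 47516640, .negSucc 8168639]),
  (21911693, [.ofNat 0, .ofNat 4412160, .negSucc 61410239, .ofNat 80549760, .negSucc 33558719, .ofNat 5852160]),
  (21927596, [.ofNat 0, .ofNat 67835520, .negSucc 86201759, .ofNat 48111360, .negSucc 12585119, .ofNat 1341120]),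
  (21927701, [.ofNat 0, .negSucc 14110559, .ofNat 39981480, .negSucc 44657759, .ofNat 18062760, .negSucc 2956559]),
  (21927722, [.ofNat 0, .negSucc 2096639, .ofNat 8313600, .negSucc 8405759, .ofNat 3091200, .negSucc 487679]),
  (21928108, [.ofNat 0, .ofNat 15328800, .negSucc 49937399, .ofNat 48151200, .negSucc 18130679, .ofNat 2773680]),
  (21928211, [.ofNat 0, .ofNat 114058080, .negSucc 276741479, .ofNat 258816480, .negSucc 93940199, .ofNat 14904720]),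
  (21930732, [.ofNat 0, .negSucc 30875039, .ofNat 41671320, .negSucc 26019359, .ofNat 7238040, .negSucc 944879]),
  (21930781, [.ofNat 0, .ofNat 63452160, .negSucc 129980639, .ofNat 108781440, .negSucc 37845599, .ofNat 5730240]),
  (21930844, [.ofNat 0, .ofNat 32267520, .negSucc 26726879, .negSucc 389759, .ofNat 3968160, .negSucc 1097279]),
  (21932268, [.ofNat 0, .negSucc 103412159, .ofNat 196657680, .negSucc 160063679, .ofNat 54896400, .negSucc 8107679]),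
  (21932380, [.ofNat 0, .negSucc 101200319, .ofNat 196822800, .negSucc 162730559, .ofNat 56198160, .negSucc 8351519]),
  (21934764, [.ofNat 0, .ofNat 43269120, .negSucc 132549119, .ofNat 134872320, .negSucc 51087359, .ofNat 8290560]),
  (21936300, [.ofNat 0, .ofNat 5512320, .ofNat 12740640, .negSucc 20714879, .ofNat 9000480, .negSucc 1584959]),
  (21936460, [.ofNat 0, .ofNat 593280, .ofNat 115049760, .negSucc 157827839, .ofNat 65552160, .negSucc 11582399]),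
  (21938851, [.ofNat 0, .ofNat 57516480, .negSucc 81366479, .ofNat 48680640, .negSucc 13287119, .ofNat 1524000]),
  (21939469, [.ofNat 0, .negSucc 4423679, .ofNat 9864960, .negSucc 7699199, .ofNat 3490560, .negSucc 487679]),
  (21939531, [.ofNat 0, .ofNat 112367520, .negSucc 272753879, .ofNat 255244320, .negSucc 92801879, .ofNat 14599920]),
  (21939532, [.ofNat 0, .negSucc 14110559, .ofNat 39981480, .negSucc 44657759, .ofNat 18062760, .negSucc 2956559]),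
  (21940876, [.ofNat 0, .negSucc 15690239, .ofNat 40106880, .negSucc 45694079, .ofNat 18591360, .negSucc 3169919]),
  (21941002, [.ofNat 0, .ofNat 14244480, .negSucc 17958239, .ofNat 7916160, .negSucc 1238879, .negSucc 121919]),
  (21943059, [.ofNat 0, .negSucc 240894719, .ofNat 530474400, .negSucc 471736319, .ofNat 166901280, .negSucc 25725119]),
  (22062877, [.ofNat 0, .negSucc 22141439, .ofNat 51152640, .negSucc 50407679, .ofNat 17867520, .negSucc 2926079]),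
  (22062891, [.ofNat 0, .negSucc 5215679, .ofNat 32286480, .negSucc 39518399, .ofNat 16016400, .negSucc 2743199]),
  (22063915, [.ofNat 0, .negSucc 15690239, .ofNat 40106880, .negSucc 45694079, .ofNat 18591360, .negSucc 3169919]),
  (22066461, [.ofNat 0, .ofNat 7928640, .ofNat 2514960, .negSucc 11150399, .ofNat 5441040, .negSucc 1036319]),
  (22066475, [.ofNat 0, .negSucc 20321279, .ofNat 68444160, .negSucc 72888959, .ofNat 28147200, .negSucc 4632959]),
  (22068010, [.ofNat 0, .negSucc 50788799, .ofNat 20822160, .ofNat 17941440, .negSucc 12255599, .ofNat 2865120]),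
  (22070941, [.ofNat 0, .negSucc 69865919, .ofNat 263159760, .negSucc 282123839, .ofNat 109421520, .negSucc 17861279]),
  (22074604, [.ofNat 0, .negSucc 4724639, .negSucc 17083559, .ofNat 32859360, .negSucc 15297959, .ofNat 2712720]),
  (22074667, [.ofNat 0, .ofNat 10759680, .ofNat 13082880, .negSucc 29748479, .ofNat 13505280, .negSucc 2438399]),
  (22075226, [.ofNat 0, .ofNat 85852800, .negSucc 257965919, .ofNat 261920640, .negSucc 98859359, .ofNat 15971520]),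
  (22075738, [.ofNat 0, .negSucc 66709439, .ofNat 233827920, .negSucc 249652799, .ofNat 96186960, .negSucc 15910559]),
  (22091500, [.ofNat 0, .negSucc 44311679, .ofNat 121025760, .negSucc 116989439, .ofNat 43622880, .negSucc 6949439]),
  (22098717, [.ofNat 0, .negSucc 35159039, .ofNat 34787520, .negSucc 11500799, .ofNat 1014720, .ofNat 243840]),
  (22099788, [.ofNat 0, .ofNat 17124480, .negSucc 14987999, .ofNat 3048960, .ofNat 794400, .negSucc 365759]),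
  (22100581, [.ofNat 0, .negSucc 73195199, .ofNat 212274960, .negSucc 213155519, .ofNat 80382480, .negSucc 12984479]),
  (22100749, [.ofNat 0, .negSucc 24310079, .ofNat 94262640, .negSucc 101755199, .ofNat 39546480, .negSucc 6522719]),
  (22104907, [.ofNat 0, .negSucc 6059519, .ofNat 10250880, .negSucc 15611519, .ofNat 6314880, .negSucc 1219199]),
  (22106860, [.ofNat 0, .ofNat 85852800, .negSucc 257965919, .ofNat 261920640, .negSucc 98859359, .ofNat 15971520]),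
  (22124197, [.ofNat 0, .ofNat 2465280, .negSucc 16544639, .ofNat 22112640, .negSucc 9356159, .ofNat 1706880]),
  (22124386, [.ofNat 0, .negSucc 9607679, .negSucc 5043839, .ofNat 18111360, .negSucc 8868479, .ofNat 1706880]),
  (22124701, [.ofNat 0, .negSucc 24747839, .ofNat 53929200, .negSucc 47760959, .ofNat 17011440, .negSucc 2621279]),
  (22124757, [.ofNat 0, .ofNat 60788160, .negSucc 95634959, .ofNat 66655680, .negSucc 20893199, .ofNat 2743200]),
  (22124883, [.ofNat 0, .ofNat 41698080, .negSucc 100837559, .ofNat 96811680, .negSucc 35716919, .ofNat 5699760]),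
  (22124890, [.ofNat 0, .ofNat 6331680, .ofNat 46161480, .negSucc 69554399, .ofNat 29689800, .negSucc 5273039]),
  (22125213, [.ofNat 0, .negSucc 56740319, .ofNat 103463880, .negSucc 84353759, .ofNat 28628040, .negSucc 4297679]),
  (22127389, [.ofNat 0, .negSucc 56796479, .ofNat 78091440, .negSucc 47927999, .ofNat 13633200, .negSucc 1645919]),
  (22127403, [.ofNat 0, .negSucc 97891199, .ofNat 148440480, .negSucc 99699839, .ofNat 30318240, .negSucc 4023359]),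
  (22135509, [.ofNat 0, .ofNat 31409280, .negSucc 16540319, .negSucc 10277759, .ofNat 7751520, .negSucc 1828799]),
  (22135642, [.ofNat 0, .ofNat 27112320, .negSucc 53953439, .ofNat 46702080, .negSucc 18249119, .ofNat 2804160]),
  (22137501, [.ofNat 0, .ofNat 49328640, .negSucc 142799999, .ofNat 150483840, .negSucc 57402239, .ofNat 9509760])]

/-- data -/
def lV9x4 : List (ℕ × List ℤ) := [(22139549, [.ofNat 0, .ofNat 27763200, .negSucc 62584319, .ofNat 56365440, .negSucc 20336639, .ofNat 3169920]),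
  (22139605, [.ofNat 0, .ofNat 6331680, .ofNat 46161480, .negSucc 69554399, .ofNat 29689800, .negSucc 5273039]),
  (22140011, [.ofNat 0, .ofNat 63452160, .negSucc 129980639, .ofNat 108781440, .negSucc 37845599, .ofNat 5730240]),
  (22140140, [.ofNat 0, .ofNat 7928640, .ofNat 2514960, .negSucc 11150399, .ofNat 5441040, .negSucc 1036319]),
  (22141085, [.ofNat 0, .negSucc 47285279, .ofNat 92413560, .negSucc 75417119, .ofNat 25668600, .negSucc 3749039]),
  (22141141, [.ofNat 0, .ofNat 19368000, .negSucc 60470639, .ofNat 62635200, .negSucc 23764079, .ofNat 3840480]),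
  (22158170, [.ofNat 0, .negSucc 18766079, .ofNat 59893440, .negSucc 61111679, .ofNat 23632320, .negSucc 3901439]),
  (22173515, [.ofNat 0, .ofNat 26795520, .negSucc 29495039, .negSucc 3519359, .ofNat 8229120, .negSucc 2194559]),
  (22190293, [.ofNat 0, .negSucc 2096639, .ofNat 8313600, .negSucc 8405759, .ofNat 3091200, .negSucc 487679]),
  (22190419, [.ofNat 0, .ofNat 67835520, .negSucc 86201759, .ofNat 48111360, .negSucc 12585119, .ofNat 1341120]),
  (22190818, [.ofNat 0, .negSucc 9607679, .negSucc 5043839, .ofNat 18111360, .negSucc 8868479, .ofNat 1706880]),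
  (22192939, [.ofNat 0, .ofNat 47285280, .negSucc 92413559, .ofNat 75417120, .negSucc 25668599, .ofNat 3749040]),
  (22193771, [.ofNat 0, .ofNat 19153440, .negSucc 65428919, .ofNat 69718560, .negSucc 26769719, .ofNat 4480560]),
  (22197579, [.ofNat 0, .ofNat 41698080, .negSucc 100837559, .ofNat 96811680, .negSucc 35716919, .ofNat 5699760]),
  (22198603, [.ofNat 0, .ofNat 2805120, .negSucc 1402079, .negSucc 374399, .ofNat 468000, .negSucc 121919]),
  (22200989, [.ofNat 0, .ofNat 24946560, .negSucc 105847199, .ofNat 117768960, .negSucc 45943199, .ofNat 7680960]),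
  (22201963, [.ofNat 0, .ofNat 47442240, .negSucc 212497199, .ofNat 240696000, .negSucc 94743599, .ofNat 15788640]),
  (22202187, [.ofNat 0, .ofNat 47442240, .negSucc 212497199, .ofNat 240696000, .negSucc 94743599, .ofNat 15788640]),
  (22325084, [.ofNat 0, .negSucc 15690239, .ofNat 40106880, .negSucc 45694079, .ofNat 18591360, .negSucc 3169919]),
  (22328556, [.ofNat 0, .ofNat 30862080, .negSucc 110087999, .ofNat 118458240, .negSucc 47434559, .ofNat 7802880]),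
  (22328668, [.ofNat 0, .negSucc 78321599, .ofNat 136068240, .negSucc 104708159, .ofNat 34803600, .negSucc 4937759]),
  (22332652, [.ofNat 0, .ofNat 4883040, .negSucc 12039719, .ofNat 14748000, .negSucc 6429479, .ofNat 1005840]),
  (22334227, [.ofNat 0, .ofNat 71585280, .negSucc 142336319, .ofNat 119867520, .negSucc 41770559, .ofNat 6339840]),
  (22337699, [.ofNat 0, .ofNat 43277760, .negSucc 42886799, .ofNat 14677440, .negSucc 973199, .negSucc 182879]),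
  (22360924, [.ofNat 0, .negSucc 35095679, .ofNat 76744800, .negSucc 68449919, .ofNat 24505440, .negSucc 3779519]),
  (22361701, [.ofNat 0, .ofNat 7580160, .negSucc 6172799, .ofNat 2246400, .negSucc 243839]),
  (22385900, [.ofNat 0, .ofNat 30875040, .negSucc 41671319, .ofNat 26019360, .negSucc 7238039, .ofNat 944880]),
  (22386474, [.ofNat 0, .negSucc 28707839, .ofNat 77178240, .negSucc 78712319, .ofNat 29900160, .negSucc 4876799]),
  (22387475, [.ofNat 0, .negSucc 5865119, .ofNat 35600280, .negSucc 38672159, .ofNat 15263640, .negSucc 2407919]),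
  (22389596, [.ofNat 0, .ofNat 32267520, .negSucc 26726879, .negSucc 389759, .ofNat 3968160, .negSucc 1097279]),
  (22398188, [.ofNat 0, .ofNat 80533440, .negSucc 135903119, .ofNat 102041280, .negSucc 33501839, .ofNat 4693920]),
  (22420243, [.ofNat 0, .ofNat 43087680, .negSucc 32272559, .ofNat 350400, .ofNat 4426320, .negSucc 1280159])]

/-- the sum of the part -/
def lV9 : List (ℕ × List ℤ) := lV9x0 ++ (lV9x1 ++ (lV9x2 ++ (lV9x3 ++ (lV9x4))))

theorem okV9 : dV9.all (rok tbF 20) = true := by decide +kernel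

theorem sumV9 : aeq (fz (sumT tbF dV9)) lV9 = true := by decide +kernel

end Pool.Agent.H.MP_e16c79_al.IS
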