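import Pool.Agent.H.MP_e16c79_al.IS.BJoin
import Pool.Agent.H.MP_e16c79_al.IS.V0
import Pool.Agent.H.MP_e16c79_al.IS.V1
import Pool.Agent.H.MP_e16c79_al.IS.V2
import Pool.Agent.H.MP_e16c79_al.IS.V3
import Pool.Agent.H.MP_e16c79_al.IS.V4
import Pool.Agent.H.MP_e16c79_al.IS.V5
import Pool.Agent.H.MP_e16c79_al.IS.V6
import Pool.Agent.H.MP_e16c79_al.IS.V7
import Pool.Agent.H.MP_e16c79_al.IS.V8
import Pool.Agent.H.MP_e16c79_al.IS.V9
import Pool.Agent.H.MP_e16c79_al.IS.V10
import Pool.Agent.H.MP_e16c79_al.IS.V11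
import Pool.Agent.H.MP_e16c79_al.IS.V12
import Pool.Agent.H.MP_e16c79_al.IS.V13
import Pool.Agent.H.MP_e16c79_al.IS.V14

/-!
# MP_e16c79_al: certificate V
-/

set_option autoImplicit false

namespace Pool.Agent.H.MP_e16c79_al.IS

open Finset SP

/-- the target -/
def tgV : List (ℕ × List ℤ) := [(5349, [0, 0, 783360, -1436160, 783360, -130560]), (5356, [0, 0, 2119680, -3886080, 2119680, -353280]), (5405, [0, 0, -1751040, 3210240, -1751040, 291840]), (5468, [0, 0, -1152000, 2112000, -1152000, 192000])]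

theorem joinV : aeq (fz (mall [lV0, lV1, lV2, lV3, lV4, lV5, lV6, lV7, lV8, lV9, lV10, lV11, lV12, lV13, lV14])) tgV = true := by decide +kernel

/-- the certificate V -/
theorem certV {R : Type*} [Ring R] {n : ℕ} {J N : AddSubgroup R} {M : Type*} [AddCommGroup M]
    {φ : R →+ M} {X : Fin 5 → R} (h : BData n J N) (hn : 2 ≤ n) (hφ : ∀ x ∈ N, φ x = 0)
    (hX : ∀ k, X k ∈ J) (htf : ∀ x : M, (2 : ℤ) • x = 0 → x = 0) :
    (tgV.map (fun p => pev (n : ℤ) p.2 • F n φ X gF (fun _ => 1) (dec8 p.1))).sum = 0 := by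
  refine join_sound (F := fun N => F n φ X gF (fun _ => 1) (dec8 N)) _ ?_ joinV
  intro l hl
  simp only [List.mem_cons, List.not_mem_nil, or_false] at hl
  rcases hl with rfl | rfl | rfl | rfl | rfl | rfl | rfl | rfl | rfl | rfl | rfl | rfl | rfl | rfl | rfl
  · exact cert_sound h hn hφ hX htf tabF dV0 okV0 _ sumV0
  · exact cert_sound h hn hφ hX htf tabF dV1 okV1 _ sumV1
  · exact cert_sound h hn hφ hX htf tabF dV2 okV2 _ sumV2
  · exact cert_sound h hn hφ hX htf tabF dV3 okV3 _ sumV3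
  · exact cert_sound h hn hφ hX htf tabF dV4 okV4 _ sumV4
  · exact cert_sound h hn hφ hX htf tabF dV5 okV5 _ sumV5
  · exact cert_sound h hn hφ hX htf tabF dV6 okV6 _ sumV6
  · exact cert_sound h hn hφ hX htf tabF dV7 okV7 _ sumV7
  · exact cert_sound h hn hφ hX htf tabF dV8 okV8 _ sumV8
  · exact cert_sound h hn hφ hX htf tabF dV9 okV9 _ sumV9
  · exact cert_sound h hn hφ hX htf tabF dV10 okV10 _ sumV10
  · exact cert_sound h hn hφ hX htf tabF dV11 okV11 _ sumV11
  · exact cert_sound h hn hφ hX htf tabF dV12 okV12 _ sumV12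
  · exact cert_sound h hn hφ hX htf tabF dV13 okV13 _ sumV13
  · exact cert_sound h hn hφ hX htf tabF dV14 okV14 _ sumV14

end Pool.Agent.H.MP_e16c79_al.IS
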