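import Pool.Agent.H.MP_e16c79_al.IS.BlkT
import Pool.Agent.H.MP_e16c79_al.IS.VD
import Pool.Agent.H.MP_e16c79_al.IS.ED
import Pool.Agent.H.MP_e16c79_al.IS.Fin

/-!
# MP_e16c79_al: the two identities between the powers
-/

set_option autoImplicit false

namespace Pool.Agent.H.MP_e16c79_al.IS

universe u v

theorem blkStmt : BlkStmt.{u, v} := by
  intro S _ R _ M m K ψ J N h hm a b c d e
  have hφ : ∀ x ∈ N, QuotientAddGroup.mk' N x = 0 := fun x hx => (QuotientAddGroup.eq_zero_iff x).2 hx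
  have hX : ∀ k, (fun k => ψ ((![a, b, c, d, e] : Fin 5 → S) k)) k ∈ J := fun k => h.mem _
  refine ⟨?_, ?_⟩
  · exact h.e1t hm ![a, b, c, d, e] (certE h.data (by omega) hφ hX h.data.qtwo)
  · exact h.v5t hm ![a, b, c, d, e] (certV h.data (by omega) hφ hX h.data.qtwo)

end Pool.Agent.H.MP_e16c79_al.IS
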