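import Pool.Agent.H.MP_e16c79_al.IS.Blk

/-!
# MP_e16c79_al: the targets of the two certificates
-/

set_option autoImplicit false

namespace Pool.Agent.H.MP_e16c79_al.IS

open Finset SP

universe u v

/-- the group codes of the words of `gV` -/
def gsV : List ℕ :=
  [0, 8, 17, 6, 29, 21, 9, 1, 0, 8, 20, 28, 7, 16, 9, 1, 0, 31, 17, 1, 0, 8, 20, 28, 29, 21, 9,
    1, 0, 16, 30, 1, 0, 16, 30, 1, 0, 8, 17, 6, 7, 16, 9, 1, 0, 31, 17, 1, 0, 8, 10, 21, 0, 8,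
    30, 38, 39, 31, 9, 1, 20, 11, 9, 1, 0, 33, 0, 33, 29, 4, 0, 14, 15, 1, 5, 28, 32, 1, 32, 1]

/-- the group codes of the words of `gE` -/
def gsE : List ℕ :=
  [12, 1023, 1023, 15, 14, 1, 21, 13, 12, 20, 0, 15, 14, 1023, 1023, 13, 12, 1023, 1023, 15, 14,
    22, 2, 13, 12, 3, 23, 15, 14, 1023, 1023, 13, 4, 1023, 1023, 7, 6, 21, 1, 5, 4, 0, 20, 7, 6,
    1023, 1023, 5, 4, 1023, 1023, 7, 6, 2, 22, 5, 4, 23, 3, 7, 6, 1023, 1023, 5, 12, 7, 14, 5,
    12, 7, 14, 5, 12, 7, 14, 5, 12, 7, 14, 5, 4, 15, 6, 13, 4, 15, 6, 13, 4, 15, 6, 13, 4, 15, 6,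
    13]

/-- the factor `-1920 n^2 (n-1) (n-2) (n-3)` -/
def dV : List ℤ := [0, 0, 11520, -21120, 11520, -1920]

/-- the factor `96 n^3 (n-1) (n-2)` -/
def dE : List ℤ := [0, 0, 0, 192, -288, 96]

theorem okV : gok tbF 20 Wp.gV.l gsV = true := by decide +kernel

theorem okE : gok tbS 12 Wp.gE.l gsE = true := by decide +kernel

theorem hcV : aeq (fz (gad tbF dV Wp.gV.l gsV AL.nil))
    [(5349, [0, 0, 783360, -1436160, 783360, -130560]),
      (5356, [0, 0, 2119680, -3886080, 2119680, -353280]),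
      (5405, [0, 0, -1751040, 3210240, -1751040, 291840]),
      (5468, [0, 0, -1152000, 2112000, -1152000, 192000])] = true := by decide +kernel

theorem hcE : aeq (fz (gad tbS dE Wp.gE.l gsE AL.nil))
    [(5419, [0, 0, 0, 3072, -4608, 1536])] = true := by decide +kernel

theorem pev_dV (m : ℤ) : pev m dV = -1920 * m ^ 2 * (m - 1) * (m - 2) * (m - 3) := by
  simp only [dV, pev]
  ring

theorem pev_dE (m : ℤ) : pev m dE = 96 * m ^ 3 * (m - 1) * (m - 2) := by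
  simp only [dE, pev]
  ring

theorem fdvd {m : ℕ} {j : ℕ} (h : j < m) : ((m : ℤ) - j) ∣ (m.factorial : ℤ) := by
  have h1 : (m - j) ∣ m.factorial := Nat.dvd_factorial (by omega) (by omega)
  have h2 : ((m : ℤ) - j) = ((m - j : ℕ) : ℤ) := by
    push_cast [h.le]
    ring
  rw [h2]
  exact Int.natCast_dvd_natCast.2 h1

theorem dvd_dV {m : ℕ} (hm : 5 ≤ m) :
    ∃ k : ℕ, pev (m : ℤ) dV ∣ ((2 * m.factorial : ℕ) : ℤ) ^ k := by
  refine ⟨6, ?_⟩
  rw [pev_dV]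
  have a0 : (m : ℤ) ∣ (m.factorial : ℤ) := by simpa using fdvd (m := m) (j := 0) (by omega)
  have a1 : (m : ℤ) - 1 ∣ (m.factorial : ℤ) := by simpa using fdvd (m := m) (j := 1) (by omega)
  have a2 : (m : ℤ) - 2 ∣ (m.factorial : ℤ) := by simpa using fdvd (m := m) (j := 2) (by omega)
  have a3 : (m : ℤ) - 3 ∣ (m.factorial : ℤ) := by simpa using fdvd (m := m) (j := 3) (by omega)
  have a4 : (120 : ℤ) ∣ (m.factorial : ℤ) := by
    have h1 : (5 : ℕ).factorial ∣ m.factorial := Nat.factorial_dvd_factorial hm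
    exact Int.natCast_dvd_natCast.2 h1
  obtain ⟨b0, e0⟩ := a0
  obtain ⟨b1, e1⟩ := a1
  obtain ⟨b2, e2⟩ := a2
  obtain ⟨b3, e3⟩ := a3
  obtain ⟨b4, e4⟩ := a4
  refine ⟨-4 * b0 ^ 2 * b1 * b2 * b3 * b4, ?_⟩
  push_cast
  calc (2 * (m.factorial : ℤ)) ^ 6 = 64 * ((m.factorial : ℤ) ^ 2 * m.factorial * m.factorial *
        m.factorial * m.factorial) := by ring
    _ = 64 * (((m : ℤ) * b0) ^ 2 * (((m : ℤ) - 1) * b1) * (((m : ℤ) - 2) * b2) *
        (((m : ℤ) - 3) * b3) * (120 * b4)) := by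
      rw [← e0, ← e1, ← e2, ← e3, ← e4]
    _ = _ := by ring

theorem dvd_dE {m : ℕ} (hm : 5 ≤ m) :
    ∃ k : ℕ, pev (m : ℤ) dE ∣ ((2 * m.factorial : ℕ) : ℤ) ^ k := by
  refine ⟨6, ?_⟩
  rw [pev_dE]
  have a0 : (m : ℤ) ∣ (m.factorial : ℤ) := by simpa using fdvd (m := m) (j := 0) (by omega)
  have a1 : (m : ℤ) - 1 ∣ (m.factorial : ℤ) := by simpa using fdvd (m := m) (j := 1) (by omega)
  have a2 : (m : ℤ) - 2 ∣ (m.factorial : ℤ) := by simpa using fdvd (m := m) (j := 2) (by omega)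
  have a4 : (120 : ℤ) ∣ (m.factorial : ℤ) := by
    have h1 : (5 : ℕ).factorial ∣ m.factorial := Nat.factorial_dvd_factorial hm
    exact Int.natCast_dvd_natCast.2 h1
  obtain ⟨b0, e0⟩ := a0
  obtain ⟨b1, e1⟩ := a1
  obtain ⟨b2, e2⟩ := a2
  obtain ⟨b4, e4⟩ := a4
  refine ⟨80 * b0 ^ 3 * b1 * b2 * b4, ?_⟩
  push_cast
  calc (2 * (m.factorial : ℤ)) ^ 6 = 64 * ((m.factorial : ℤ) ^ 3 * m.factorial * m.factorial *
        m.factorial) := by ring
    _ = 64 * (((m : ℤ) * b0) ^ 3 * (((m : ℤ) - 1) * b1) * (((m : ℤ) - 2) * b2) * (120 * b4)) := by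
      rw [← e0, ← e1, ← e2, ← e4]
    _ = _ := by ring

section fin

variable {S : Type v} [NonUnitalNonAssocCommRing S] {R : Type u} [Ring R] {M : ℤ} {m : ℕ}
  {K : AddSubgroup S} {ψ : S →+ R} {J N : AddSubgroup R}

/-- The second identity, from the sum over the target. -/
theorem PD.v5t (h : PD M m K ψ J N) (hm : 5 ≤ m) (x : Fin 5 → S)
    (ht : ([(5349, [0, 0, 783360, -1436160, 783360, -130560]),
      (5356, [0, 0, 2119680, -3886080, 2119680, -353280]),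
      (5405, [0, 0, -1751040, 3210240, -1751040, 291840]),
      (5468, [0, 0, -1152000, 2112000, -1152000, 192000])].map (fun p : ℕ × List ℤ =>
        pev (m : ℤ) p.2 • F m (QuotientAddGroup.mk' N) (fun k => ψ (x k)) gF (fun _ => 1)
          (dec8 p.1))).sum = 0) :
    V5 (pwr m (x 0)) (pwr m (x 1)) (pwr m (x 2)) (pwr m (x 3)) (pwr m (x 4)) ∈ K := by
  have h1 := tgt_sound (φ := QuotientAddGroup.mk' N) (X := fun k => ψ (x k)) h.data.qtwo tabF
    Wp.five_V okV hcV ht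
  have h2 := h.blk (by omega) x Wp.five_V (Wp.rv_V _) _ (val_V h) gF (fun _ => 1) _ (dvd_dV hm) h1
  rw [sum_gF (fun k => pwr m (x k))] at h2
  exact h2

/-- The first identity, from the sum over the target. -/
theorem PD.e1t (h : PD M m K ψ J N) (hm : 5 ≤ m) (x : Fin 5 → S)
    (ht : ([(5419, [0, 0, 0, 3072, -4608, 1536])].map (fun p : ℕ × List ℤ =>
        pev (m : ℤ) p.2 • F m (QuotientAddGroup.mk' N) (fun k => ψ (x k)) gS cS
          (dec8 p.1))).sum = 0) :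
    E1 (pwr m (x 0)) (pwr m (x 1)) (pwr m (x 2)) (pwr m (x 3)) (pwr m (x 4)) ∈ K := by
  have h1 := tgt_sound (φ := QuotientAddGroup.mk' N) (X := fun k => ψ (x k)) h.data.qtwo tabS
    Wp.five_E okE hcE ht
  have h2 := h.blkN (by omega) x Wp.five_E (Wp.rv_E _) _ (val_E h) gS cS _ (dvd_dE hm) h1
  rw [sum_gS (fun k => pwr m (x k)), map_zsmul] at h2
  have e4 : (4 : ℤ) = 2 * 2 := by norm_num
  rw [e4, mul_smul] at h2
  exact h.ker _ (h.data.twoN (h.data.twoN h2))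

end fin

end Pool.Agent.H.MP_e16c79_al.IS
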