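import Pool.Agent.H.MP_e16c79_al.IS.Ops

/-!
# MP_e16c79_al: certificate for the multiples of the form
-/

set_option autoImplicit false
set_option maxRecDepth 100000

namespace Pool.Agent.H.MP_e16c79_al.IS.C1

open Tm In

def a : Tm := v 0
def b : Tm := v 1
def c : Tm := v 2
def d : Tm := v 3

def l0 : List (ℤ × In) := [
  (36, E (m a a) b b c a),
  (132, M (E a a b a b) c),
  (-156, E (m b b) a a c a),
  (-328, E a a a c (m b b)),
  (-1956, E a b b a (m a c)),
  (-2724, M (E a b b c a) a),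
  (-2508, M (E a a b c a) b),
  (-630, E c a a a (m b b)),
  (-2592, E c a b a (m a b)),
  (132, M (E c a a a b) b),
  (-168, E (m a a) a b c b),
  (-3156, E a a b a (m b c)),
  (1080, M (E a a b c b) a),
  (2484, E (m a a) c b a b),
  (2268, E (m b c) a a a b),
  (54, M (V c a a b b) a),
  (-6, V (m a c) a a b b),
  (6, V (m a b) c b a a),
  (288, M (E a a a c b) b),
  (6, V (m a a) c a b b),
  (792, M (M (J a a a b) c) b),
  (696, M (J a a a c) (m b b)),
  (-385, M (M (J a a a c) b) b),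
  (-5820, M (J a a (m b c) a) b),
  (2442, M (M (J a a b a) c) b),
  (-2534, M (J a a a b) (m b c)),
  (-4403, J a a a (m c (m b b))),
  (482, M (J a a a (m b b)) c),
  (3626, M (J a a a (m b c)) b),
  (4497, J a a (m c (m b b)) a)]

def l1 : List (ℤ × In) := [
  (737, J a a a (m b (m b c))),
  (2568, J a a (m c (m a b)) b),
  (-144, M (J a a (m a b) b) c),
  (-1014, M (M (J c a a b) b) a),
  (-1974, J a a (m b b) (m a c)),
  (-732, M (M (J a b b c) a) a),
  (-3666, M (M (J c a a b) a) b),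
  (348, M (M (J a a a b) b) c),
  (-2340, M (J a b (m a b) a) c),
  (-3054, M (M (J c b b a) a) a),
  (2874, M (M (J a b b a) c) a),
  (-210, J b b (m c (m a a)) a),
  (3210, M (J a a b a) (m b c)),
  (258, M (J c a a b) (m a b)),
  (-6870, J c a a (m a (m b b))),
  (-3102, M (J a a (m b b) a) c),
  (366, M (J a b b (m a a)) c),
  (-4092, M (M (J a a b c) b) a),
  (456, J a (m b c) (m a b) a),
  (987, M (J c a a a) (m b b)),
  (3606, J c b b (m a (m a a))),
  (11670, M (J c a a (m a b)) b),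
  (3912, M (J a a b c) (m a b)),
  (-3942, J a a (m b (m a c)) b),
  (993, M (J c b (m a a) b) a),
  (-1968, J b b (m a c) (m a a)),
  (5112, J c a (m a (m b b)) a),
  (3189, M (J a a b b) (m a c)),
  (2430, M (J a a b (m b c)) a),
  (-2184, M (M (J c a a a) b) b)]

def l2 : List (ℤ × In) := [
  (-942, J a a (m b (m b c)) a),
  (2928, J a a b (m b (m a c))),
  (5589, J a a (m b (m a b)) c),
  (-2604, J a b (m a b) (m a c)),
  (-4104, J c a a (m b (m a b))),
  (-1314, J b b (m a (m a c)) a),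
  (10608, M (M (J c a b a) a) b),
  (138, M (J a b (m a a) b) c),
  (-900, J c (m a b) (m a b) a),
  (3903, J a a (m a c) (m b b)),
  (5223, J a b b (m c (m a a))),
  (-1704, M (J a b b a) (m a c)),
  (-7248, M (J a b (m a b) c) a),
  (-270, M (M (J a a b a) b) c),
  (1470, M (J a a b (m a b)) c),
  (441, M (J c a a (m b b)) a),
  (-3492, M (J a a (m a c) b) b),
  (-1137, J a b (m c (m a a)) b),
  (1341, M (J a a (m b b) c) a),
  (-5286, M (J a a (m a b) c) b),
  (-5340, J a a b (m a (m b c))),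
  (-6432, M (J c a (m a b) a) b),
  (2136, M (J a b (m a a) c) b),
  (2052, J a a (m a (m b c)) b),
  (-5181, M (M (J a a b b) c) a),
  (1962, J c a (m b b) (m a a)),
  (-2619, J b b (m a (m a a)) c),
  (-3843, J b (m a c) (m a a) b),
  (2907, M (J b b (m a a) c) a),
  (-9102, M (J c a (m b b) a) a)]

def l3 : List (ℤ × In) := [
  (1026, J a (m a b) (m a b) c),
  (2682, J b b (m a a) (m a c)),
  (2472, J c b (m a a) (m a b)),
  (4302, J a a (m b c) (m a b)),
  (213, M (J c a b b) (m a a)),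
  (684, J c a (m b (m a b)) a),
  (1056, M (J a b b (m a c)) a),
  (816, M (J a b b c) (m a a)),
  (-612, J a a b (m c (m a b))),
  (-954, J c b (m b (m a a)) a),
  (3276, M (J a b (m a c) a) b),
  (2604, J a (m a c) (m a b) b),
  (-2364, J a a (m a b) (m b c)),
  (2580, M (J a b (m a c) b) a),
  (-2022, J a b (m b c) (m a a)),
  (1086, M (J c b b a) (m a a)),
  (1248, J a b (m a a) (m b c)),
  (-1272, M (J c a b a) (m a b)),
  (-432, J a b (m a (m a c)) b)]

/-- all instances -/
def l : List (ℤ × In) := ((l0 ++ l1) ++ (l2 ++ l3))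

/-- the target -/
def t : Po :=
  (2 : ℤ) • (P5 (Po.mo a) (Po.mo a) (Po.mo a) (Po.mo b) (Po.mo b) * (Po.mo c)) + (50 : ℤ) • Q5 (Po.mo a) (Po.mo b) (Po.mo b) ((Po.mo c) * (Po.mo a)) (Po.mo a) -
    (38 : ℤ) • Q5 (Po.mo a) (Po.mo b) (Po.mo b) ((Po.mo a) * (Po.mo a)) (Po.mo c) - (13 : ℤ) • Q5 (Po.mo c) (Po.mo b) (Po.mo b) ((Po.mo a) * (Po.mo a)) (Po.mo a)

theorem ok : chk false 8 24 t l = true := by
  decide +kernel

end Pool.Agent.H.MP_e16c79_al.IS.C1
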