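import Pool.Agent.H.MP_e16c79_al.IS.Ops

/-!
# MP_e16c79_al: certificate for the associativity
-/

set_option autoImplicit false
set_option maxRecDepth 100000

namespace Pool.Agent.H.MP_e16c79_al.IS.C2

open Tm In

def a : Tm := v 0
def b : Tm := v 1
def c : Tm := v 2
def d : Tm := v 3

def l0 : List (ℤ × In) := [
  (-1634976024240, E (m a (m a a)) b b c d),
  (-21255128640, M (M (E a a a c d) b) b),
  (52857085680, E (m d (m b b)) a a c a),
  (-4740772093680, M (E (m b b) a a c d) a),
  (315444715760, M (E a a a c (m b b)) d),
  (-683479104480, E (m a d) a a c (m b b)),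
  (150447807120, M (E c a a a (m b b)) d),
  (225546996480, E a a a c (m d (m b b))),
  (96501226080, M (E a a a d (m b b)) c),
  (434643360480, E (m c d) a a b (m a b)),
  (-1357748913440, E a a a b (m b (m c d))),
  (90840569040, M (E (m b b) a a c a) d),
  (2075139736560, E (m a (m b b)) a a c d),
  (1159686277440, E (m a d) b b a (m a c)),
  (5200706811120, M (E (m a a) b b c d) a),
  (-2906036653920, E a a a (m b c) (m b d)),
  (670791133280, E a a a c (m b (m b d))),
  (-1730803544160, E a a a d (m b (m b c))),
  (156609276480, M (E d b b c (m a a)) a),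
  (384675034320, E a b b c (m d (m a a))),
  (-268944429120, E (m b b) d a c (m a a)),
  (-306176697120, M (E a b b c (m a a)) d),
  (857401830960, E d b b c (m a (m a a))),
  (982674209520, E c a a a (m d (m b b))),
  (-537834607200, E d b b (m a c) (m a a)),
  (314666784960, M (E c a a b (m b d)) a),
  (-674002961520, E (m a a) (m b b) c d a),
  (-12029181120, E (m a c) a a b (m b d)),
  (-2005681437600, M (E d a a b (m b c)) a),
  (208641120960, E c d a a (m a (m b b)))]

def l1 : List (ℤ × In) := [
  (66740472240, M (E d a a a (m b b)) c),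
  (-621461169600, E (m b b) c a a (m a d)),
  (-869240827680, M (E a a a c d) (m b b)),
  (891868355040, E (m a a) c d b (m a b)),
  (49869562560, E c a a b (m b (m a d))),
  (249425252640, E d a a (m a c) (m b b)),
  (377821183440, E (m b b) a a a (m c d)),
  (-486964615440, E (m c (m b b)) a a d a),
  (2346294044880, M (E c a a d a) (m b b)),
  (385635784560, M (E (m b b) a a d a) c),
  (2089917310560, M (E c b b a (m a d)) a),
  (-5137757434560, E (m a c) b b a (m a d)),
  (-1255015682160, M (E a b b d (m a a)) c),
  (1958331252000, E c b b a (m d (m a a))),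
  (-414581837040, M (E d a a c a) (m b b)),
  (398888052000, M (E a b b c d) (m a a)),
  (-1244328006720, E (m c (m a a)) b b d a),
  (1991196725520, M (E c b b d a) (m a a)),
  (2130921991920, M (E (m a a) b b d a) c),
  (608201446800, E (m d (m a a)) b b c a),
  (-458067620640, M (E (m a a) b b c a) d),
  (-366186367200, M (E d b b c a) (m a a)),
  (-587373214800, E (m a a) b b c (m a d)),
  (-194336858240, M (E a a a b (m c d)) b),
  (801402019200, E a b b d (m c (m a a))),
  (861943117920, E (m a a) b b d (m a c)),
  (5491634269440, M (E (m a a) a b c d) b),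
  (-313006220160, E (m a (m a a)) d b c b),
  (823658748960, E (m a (m a a)) c b d b),
  (-452645992800, E c d b b (m a (m a a)))]

def l2 : List (ℤ × In) := [
  (20127740640, E c b b d (m a (m a a))),
  (-442225014480, E d a a a (m c (m b b))),
  (-2967679435200, M (M (E a b b c d) a) a),
  (-6313199860320, M (M (E a a b c d) b) a),
  (-562783969920, E (m a a) a b b (m c d)),
  (-2053727292480, M (M (E c a a d a) b) b),
  (962100184320, M (E a b b a (m c d)) a),
  (-962418027840, M (E a a b a (m c d)) b),
  (3397116046080, E (m b (m a b)) a a c d),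
  (-2887925003520, E a b b a (m d (m a c))),
  (-3676724559360, E a b b c (m a (m a d))),
  (74462065920, M (M (E d a a c a) b) b),
  (407048648160, E (m b b) a a d (m a c)),
  (-4060615129440, M (E (m a b) a a c d) b),
  (-401386815360, E a a b a (m b (m c d))),
  (832806666720, M (E a a b b (m c d)) a),
  (-278224904160, M (E a a a d (m b c)) b),
  (781073238560, M (M (E a a a d b) c) b),
  (425883416160, M (M (E a a a d b) b) c),
  (884724221280, E a a b a (m c (m b d))),
  (1093050509280, M (E a a b c (m b d)) a),
  (-45767989440, E (m a a) a b c (m b d)),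
  (-846273329280, E d a b b (m c (m a a))),
  (-665858377920, M (E d a a a (m b c)) b),
  (-354685478400, M (M (E d a a c b) a) b),
  (-881352292800, M (M (E a a b c b) a) d),
  (-670651376480, M (E a a a d b) (m b c)),
  (-133540513600, M (E a a a c b) (m b d)),
  (-75505824960, M (E a a b a (m b c)) d),
  (-494674675200, M (E d a b c (m a a)) b)]

def l3 : List (ℤ × In) := [
  (-1428796177920, M (E c a a a b) (m b d)),
  (1522175487360, M (M (E a a b d b) a) c),
  (-512692346880, M (E (m a b) a a d b) c),
  (1051863973440, M (M (E c a a d b) a) b),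
  (-945469653120, E c a a a (m b (m b d))),
  (-1195160070720, E (m a (m a c)) b b d a),
  (1309857937920, M (M (E c a a a b) b) d),
  (54861051840, M (M (E a a a c b) b) d),
  (11671783680, M (E (m b d) a a c a) b),
  (6813996480, E (m b (m b d)) a a c a),
  (615684720960, E (m a a) d b b (m a c)),
  (-1567709726400, M (E a a b d (m a c)) b),
  (786617456640, M (E c a a a (m b d)) b),
  (136569060480, M (E (m b c) a a a b) d),
  (-643701678080, M (M (E a a a c b) d) b),
  (-50563125120, M (M (E a a b c a) d) b),
  (303037991040, M (M (E a a b a b) c) d),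
  (285652942080, M (M (E a a b c a) b) d),
  (-818692936800, E (m b (m a a)) d b c a),
  (4149055912320, E a b b (m a c) (m a d)),
  (-1025578407840, M (E c a b d (m a a)) b),
  (1796896851840, E (m b c) a b a (m a d)),
  (437082556320, E d a a a (m b (m b c))),
  (381220283520, M (E (m a b) a a c b) d),
  (748295186880, M (E (m c d) a a a b) b),
  (-490409062080, M (E a a b a b) (m c d)),
  (-99273787200, M (E c d b b (m a a)) a),
  (59340607680, E (m b (m b c)) a a d a),
  (2352384379680, M (E (m a a) c b d a) b),
  (196252692480, E (m a d) c b a (m a b))]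

def l4 : List (ℤ × In) := [
  (-647130581760, M (E (m a a) d b c b) a),
  (-189744421440, E (m c d) (m a a) b a b),
  (-2322147829440, M (E (m a a) c b d b) a),
  (-1293514702080, E (m c (m a a)) a b d b),
  (274221926400, M (E (m a d) a a c b) b),
  (-4274909825280, E c a b a (m a (m b d))),
  (-1899662095200, E c a b b (m d (m a a))),
  (632971906560, M (E (m a a) c d a b) b),
  (2992099294080, E (m a a) c b a (m b d)),
  (89835399840, E (m b d) (m a a) b c a),
  (-1460119964160, E c d b a (m a (m a b))),
  (1629427027200, E (m a a) d b c (m a b)),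
  (-644336342400, E (m d (m b c)) a a a b),
  (-82075375200, E (m a (m b c)) a a d b),
  (-866917502880, M (E (m b c) a a d b) a),
  (-683278787040, E (m b c) a a a (m b d)),
  (-48099465600, M (M (E c b b d a) a) a),
  (2333538401280, M (E c a b d b) (m a a)),
  (-1081229379840, M (E c d a a (m a b)) b),
  (-965732202240, M (M (E c a a a b) d) b),
  (145313221440, E (m c (m b d)) a a a b),
  (94759758720, M (E d a a b (m a c)) b),
  (-1079924259840, E a a b (m a c) (m b d)),
  (-195478755840, M (E (m b d) a a c b) a),
  (-700601245440, E (m b (m a a)) d a c b),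
  (126203220480, M (M (E a a b c b) d) a),
  (-73342638720, M (M (E a b b c a) a) d),
  (244205909760, M (M (E a b b c a) d) a),
  (-159672590400, E d a a c (m b (m a b))),
  (-654133783680, E a a b b (m c (m a d)))]

def l5 : List (ℤ × In) := [
  (1279220664960, M (E a b b c (m a d)) a),
  (564337511040, M (M (E a a b d a) b) c),
  (204946965120, M (E a b b d a) (m a c)),
  (866407422720, M (E a a b a (m b d)) c),
  (478564316160, M (M (E a a b d b) c) a),
  (-404211022080, E c d a b (m a (m a b))),
  (195228071040, M (M (E a a b a b) d) c),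
  (796876987200, M (E a a b b (m a d)) c),
  (-619153222080, M (E c a a d (m a b)) b),
  (-383934623040, E (m d (m a a)) c b a b),
  (-1014594978240, E (m b c) a a b (m a d)),
  (569004167040, E (m b c) d a b (m a a)),
  (2454719570400, E (m a a) c b b (m a d)),
  (218251809600, E (m a (m b d)) a a c b),
  (-11854247040, E c a a b (m a (m b d))),
  (317375665920, M (M (E d a a a b) c) b),
  (103680000, V (m a (m a a)) c d b b),
  (841140000, V (m c d) (m a a) b b a),
  (1632960000, M (V (m a d) a a b b) c),
  (829440000, V (m a d) (m b b) a c a),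
  (413460000, V (m c d) (m a b) a a b),
  (-207360000, V (m b (m a b)) c a a d),
  (-1134810000, M (V (m c d) a b b a) a),
  (2178180000, V (m d (m a c)) a b b a),
  (414720000, V (m a c) (m a a) d b b),
  (1451520000, M (M (V c a a b b) a) d),
  (-596160000, V (m a c) (m a d) b a b),
  (2678940000, V (m a (m c d)) a a b b),
  (-155520000, M (V (m a d) c b b a) a),
  (335819520000, M (E d a a a b) (m b c))]

def l6 : List (ℤ × In) := [
  (-1831680000, M (M (V c a b b a) d) a),
  (-829440000, V (m b (m a d)) c a a b),
  (4104000000, M (V (m b d) c a a b) a),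
  (-1182780000, V (m c (m a d)) a b b a),
  (1555200000, M (V c a b b a) (m a d)),
  (-207360000, V (m a c) (m b b) a a d),
  (-276480000, V (m a a) (m b b) c d a),
  (-25920000, M (V (m a c) d a a b) b),
  (-414720000, M (V (m a a) c b d b) a),
  (-4008960000, M (M (V c d b a a) a) b),
  (414720000, V (m a a) (m b b) a c d),
  (-622080000, V (m c d) (m a a) b a b),
  (-552960000, V (m a c) (m a b) a d b),
  (-691200000, M (M (V d a b b a) a) c),
  (1369313050080, M (M (J a a a (m b b)) d) c),
  (-287746183594138, J a a a (m c (m d (m b b)))),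
  (-130152047360, M (M (M (J a a a b) b) d) c),
  (1301206078820012, M (J a a a (m b d)) (m b c)),
  (1382394278400, M (J a a a (m b (m b d))) c),
  (-443271024817068, J a a a (m d (m b (m b c)))),
  (-144501069948448, M (J a a a c) (m b (m b d))),
  (1461858324126248, M (M (J a a a b) (m b c)) d),
  (109346189793256, M (J a a a b) (m c (m b d))),
  (796329117849808, M (M (J a a a (m b d)) c) b),
  (-669721301302322, J a a a (m d (m c (m b b)))),
  (579812271792826, M (M (J a a a c) (m b b)) d),
  (-1896026696800, M (M (M (J a a a d) b) c) b),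
  (832104884488844, M (M (J a a a b) c) (m b d)),
  (-1508214047415914, M (M (J a a a d) c) (m b b)),
  (494584997760, M (M (M (J d a a a) b) b) c)]

def l7 : List (ℤ × In) := [
  (-1271696229120, M (M (J a a (m b c) a) d) b),
  (3492311516800, M (J a a a (m c (m b d))) b),
  (-1260844149844472, M (M (M (J a a a b) c) d) b),
  (-1299406706396652, M (J c a a a) (m b (m b d))),
  (4752134890773688, M (M (J a a a d) (m b c)) b),
  (6490696776225216, M (M (J c a a a) (m b d)) b),
  (1702877931435780, M (M (J a a b a) c) (m b d)),
  (2181991204235376, M (M (M (J c a a a) b) b) d),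
  (-607249221280, M (M (M (J a a a b) d) c) b),
  (-3578873495066630, M (J a a a (m b (m c d))) b),
  (-3313856177913186, M (J a a b a) (m b (m c d))),
  (4874864518560, M (J a a (m d (m b c)) a) b),
  (2654714146419528, J a a a (m c (m b (m b d)))),
  (122636355582150, M (M (J a a b a) (m c d)) b),
  (386642228930064, M (J a a a b) (m b (m c d))),
  (2702698463633806, M (M (J a a a (m c d)) b) b),
  (-220462734720, M (M (M (J d a a a) c) b) b),
  (-1479474423166620, J a a a (m b (m d (m b c)))),
  (1111796606439198, M (J a a a (m d (m b b))) c),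
  (-1765595991918514, M (M (J a a a c) d) (m b b)),
  (-5531595450952692, M (M (J a a b a) (m b c)) d),
  (145477130540928, M (M (J a a a c) (m b d)) b),
  (-387048170178064, M (M (J a a a b) d) (m b c)),
  (764885695200, M (M (M (J a a b a) c) d) b),
  (-1316237318389124, J a a a (m b (m c (m b d)))),
  (-13975190943565662, J a a (m (m b c) (m b d)) a),
  (-299264623200, M (M (J a a b a) d) (m b c)),
  (-3809588424115476, M (M (J d a a a) c) (m b b)),
  (-1760137887333595, M (J a a a (m c d)) (m b b)),
  (135569747593642, J a a a (m b (m b (m c d))))]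

def l8 : List (ℤ × In) := [
  (3436914578113396, M (M (J a a b a) (m b d)) c),
  (-1127019966292786, M (M (M (J a a a c) b) b) d),
  (3982076434697772, M (J a a (m b (m b d)) a) c),
  (-2142302383200, M (M (M (J a a a d) b) b) c),
  (685266630541880, M (M (M (J a a a c) d) b) b),
  (-7618247170112712, M (M (J d a a a) b) (m b c)),
  (-1783654604550180, J d a a (m c (m a (m b b)))),
  (3098215887053856, J a a b (m d (m b (m a c)))),
  (-1057593803689200, J a a (m a (m d (m b b))) c),
  (-1162143565321392, M (M (J a a b d) b) (m a c)),
  (-8885087576978028, M (M (J d a a (m a b)) c) b),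
  (1137727260838200, M (J a b b a) (m c (m a d))),
  (6112807300320, M (M (M (J c a a d) b) b) a),
  (-5942354956995288, J a a (m d (m a c)) (m b b)),
  (6353874552960, M (M (J a a (m b d) a) b) c),
  (-3761045902215639, M (J c b b d) (m a (m a a))),
  (-2205628807071528, M (M (J c a a (m b b)) a) d),
  (-2865926332900212, J a a (m b (m b (m a c))) d),
  (12566003386374, M (J b b (m c (m a a)) d) a),
  (8575050336000, J c a a (m b (m b (m a d)))),
  (-13830466569764556, M (M (J d a a c) (m b b)) a),
  (-568450665985416, M (M (J d a a (m a c)) b) b),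
  (5131540293532608, M (M (J a a b c) b) (m a d)),
  (-353671682609544, M (M (M (J d a a b) a) b) c),
  (6734170705888848, M (J b b (m a (m a d)) c) a),
  (-2142750091957864, M (M (M (J a a b a) d) b) c),
  (-237126820532118, M (J c b b (m d (m a a))) a),
  (6691143616458588, M (J c a a (m a b)) (m b d)),
  (7565221547339292, M (J d a a (m a b)) (m b c)),
  (-5094578074800, M (J d b b c) (m a (m a a)))]

def l9 : List (ℤ × In) := [
  (7890667031422626, J c b b (m (m a a) (m a d))),
  (14057761954560, M (J a a (m d (m b c)) b) a),
  (-40453701600, M (M (J a a b (m a d)) b) c),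
  (-1325299980831204, J a a (m b (m b (m c d))) a),
  (3769716776078700, M (J a a b (m b (m a d))) c),
  (-2099358095844972, J a a (m (m a c) (m b b)) d),
  (3107964138720, M (J a a b b) (m c (m a d))),
  (-1729009118678820, J a a (m d (m b (m a c))) b),
  (1444234739568918, M (J d b b (m a c)) (m a a)),
  (1348635086024316, M (J a a (m b b) c) (m a d)),
  (-10680585863880120, J a a (m b (m c d)) (m a b)),
  (-82868405371580, M (J a a a (m b b)) (m c d)),
  (-5616554808960072, M (J c b b (m a d)) (m a a)),
  (-8255309657456838, M (J c a a (m a (m b b))) d),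
  (945082213773996, M (M (J d b b a) a) (m a c)),
  (1940671862604756, M (M (J d a a a) (m b c)) b),
  (10558091400480, M (J b b (m a (m a d)) a) c),
  (4284824948718, M (J a b b c) (m d (m a a))),
  (4539200628363192, J c a a (m b (m d (m a b)))),
  (-722379753600, M (J a b b (m d (m a a))) c),
  (10464053018514762, J a a (m (m a d) (m b c)) b),
  (6602958766666272, M (J a a (m b (m c d)) a) b),
  (-202025327360, M (M (M (J a a a b) b) c) d),
  (431568343280448, M (J a a b (m d (m b c))) a),
  (5270032219415232, M (J a a b d) (m b (m a c))),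
  (-1448058085012092, M (M (J a a a (m b d)) b) c),
  (5842176315317136, M (J b b (m d (m a c)) a) a),
  (1204822733582352, M (J c b b a) (m a (m a d))),
  (5531644839971412, M (J d a a a) (m b (m b c))),
  (-4011410046520248, J d a a (m b (m c (m a b))))]

def l10 : List (ℤ × In) := [
  (-3761812257572460, M (J a b b c) (m a (m a d))),
  (252145976480, M (M (J a a a c) b) (m b d)),
  (-2512216429751824, M (M (J a a a d) b) (m b c)),
  (-1780533558798288, M (M (J c a a a) b) (m b d)),
  (5514078197189316, M (J c a a (m b d)) (m a b)),
  (-2618678362196976, J c a a (m (m a b) (m b d))),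
  (-8262101946504744, M (M (M (J d b b a) a) c) a),
  (851285125275476, M (M (J a a a (m b c)) b) d),
  (3618915162960, J c a a (m (m a d) (m b b))),
  (-2642248225571376, M (M (M (J d b b a) c) a) a),
  (13364842045440, M (J a a b (m c (m b d))) a),
  (4317635438235132, J a a (m a c) (m d (m b b))),
  (-5674047369600, J a b (m a b) (m d (m a c))),
  (-6316084730880, M (J c a a d) (m b (m a b))),
  (-4986918728640, J a a (m b (m b d)) (m a c)),
  (1513536067395774, M (M (J a a (m b d) c) b) a),
  (-2882782508644332, M (M (J a a a (m b b)) c) d),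
  (729756470761070, J a a a (m (m b b) (m c d))),
  (-9420777486396, M (J d a a (m c (m a b))) b),
  (-108087657132156, M (J a a (m b c) (m b d)) a),
  (2488656013440, J a a (m b (m a (m b d))) c),
  (-4471560947760, M (J d b b (m a (m a a))) c),
  (-2031313200289746, J c b b (m d (m a (m a a)))),
  (422802948626964, J a a (m b c) (m b (m a d))),
  (-8717525832515622, M (M (J d a a (m b c)) b) a),
  (-719987021155572, M (M (J a a (m b b) d) a) c),
  (-4362040846111392, M (M (J a b (m a b) a) c) d),
  (850036974240, M (M (J a a b a) b) (m c d)),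
  (-3411076984344996, M (M (M (J a a b a) d) c) b),
  (-747552055156272, M (J a a (m b b) a) (m c d))]

def l11 : List (ℤ × In) := [
  (930503465468628, M (J b b (m a d) (m a c)) a),
  (-321248565120, J a a (m b (m b (m a d))) c),
  (775554889261876, M (J a a a d) (m c (m b b))),
  (-244918931166356, M (J a a a c) (m d (m b b))),
  (4738517429520, M (J d a a (m a (m b b))) c),
  (-386578514543824, M (M (J a a a b) b) (m c d)),
  (-2009747833129242, M (M (J a b b c) d) (m a a)),
  (-2184649075894896, M (J c a a (m b (m a b))) d),
  (682708304526078, M (J b b (m a c) d) (m a a)),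
  (-2884027375691076, M (M (J a b b a) a) (m c d)),
  (-7916055482880, M (M (J a a (m a b) b) d) c),
  (-3355819537984278, M (M (J d a a (m b b)) c) a),
  (4422754053247020, J a a (m c (m a (m b b))) d),
  (1262269427763696, M (M (J c b b a) d) (m a a)),
  (5777220455189958, M (M (J c a a d) (m b b)) a),
  (4016444983896390, M (J d a a (m c (m b b))) a),
  (7055938771557636, M (M (J d a a b) b) (m a c)),
  (-746262144000, M (M (J a a (m b d) a) c) b),
  (-4377747108358500, M (M (J a b b a) c) (m a d)),
  (-6674929936336668, M (J a a (m a b) c) (m b d)),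
  (-2915921183079738, J a a (m a (m c d)) (m b b)),
  (1257523396285432, M (M (J a a a d) (m b b)) c),
  (2866736866640532, M (M (J a a (m a b) c) d) b),
  (-33151598495370888, M (M (J a b (m a b) c) a) d),
  (-5728714661687784, J c (m a b) (m a b) (m a d)),
  (-1269129656640, M (M (M (J c a a a) d) b) b),
  (3271824929490024, M (M (J a b b (m a a)) c) d),
  (-1514679782048574, M (M (J c a a (m b d)) b) a),
  (617009588640, M (M (M (J a a b d) c) a) b),
  (-23513144318400, J a a (m a (m c (m b d))) b)]

def l12 : List (ℤ × In) := [
  (1139718124076280, M (M (J c a a (m a b)) b) d),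
  (-1105629224587800, M (J a a (m c (m b d)) a) b),
  (23345056465548, M (M (M (J c b b a) d) a) a),
  (560276616089820, M (J a b b (m a a)) (m c d)),
  (-636848870845872, M (M (J c a a b) b) (m a d)),
  (-1476610210812324, M (M (J c b b a) (m a d)) a),
  (-4167323454720, M (M (J a b b (m a a)) d) c),
  (-6982290848192292, M (J d a a b) (m b (m a c))),
  (948699170880, M (M (J a a (m b c) a) b) d),
  (-71728410720, M (M (M (J a a b a) b) d) c),
  (564479644391604, J a (m a b) (m a b) (m c d)),
  (7256705017612128, M (J a a (m b b) (m a d)) c),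
  (-1364533168746228, J d a a (m c (m b (m a b)))),
  (3774339251124936, M (J d a a b) (m a (m b c))),
  (1306071183360, M (J a a (m b (m a c)) d) b),
  (2474731424154996, M (M (J a a b d) a) (m b c)),
  (25223016073951152, J a a (m b d) (m a (m b c))),
  (-2182040188890960, J a a b (m a (m c (m b d)))),
  (-212260189440, M (J b b (m c d) (m a a)) a),
  (-3333376585618800, M (M (J a b b (m a d)) c) a),
  (-6632357938597308, M (J d b b a) (m a (m a c))),
  (1558926579840, M (M (J d a a (m b c)) a) b),
  (5669973130251804, M (J d a a (m a (m b c))) b),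
  (5463603906841356, M (J a a (m d (m a b)) b) c),
  (2707143375393636, J d b b (m a (m a (m a c)))),
  (523048954315530, J a a (m (m b b) (m c d)) a),
  (14766373788230880, M (J a a b (m a (m b c))) d),
  (-6901702703444688, M (J a a (m a b) (m b c)) d),
  (9527478693172848, M (M (J a a (m b d) c) a) b),
  (-4901550103725696, M (M (J d a a b) (m a b)) c)]

def l13 : List (ℤ × In) := [
  (4131155293812852, J a a (m d (m a (m b b))) c),
  (-15759360000, M (M (J a a b b) d) (m a c)),
  (8407424697185744, J a a a (m (m b c) (m b d))),
  (8335890885124848, M (J a b b d) (m a (m a c))),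
  (-315799859840, M (M (M (J a a a c) b) d) b),
  (-1070951618265092, M (J a a (m d (m b b)) a) c),
  (4243744507956168, M (J c b b a) (m d (m a a))),
  (-305663863065468, M (M (J a a a b) (m c d)) b),
  (-896001496061424, M (M (J a a b c) (m b d)) a),
  (4697423132902620, M (M (M (J d a a b) a) c) b),
  (-353468039714664, M (M (M (J d a a b) c) b) a),
  (-13318917654860184, M (J a a b d) (m a (m b c))),
  (9072226447378446, J a a b (m a (m b (m c d)))),
  (10789555806775026, J a a (m (m a c) (m b d)) b),
  (-7527795363617712, M (J d b b (m a (m a c))) a),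
  (3441076765200, J c a a (m d (m a (m b b)))),
  (9527119472201328, M (M (J a a (m c d) b) a) b),
  (-6576388575360, M (J a a (m a (m b c)) d) b),
  (-1031837538240, M (M (J a a (m a b) d) c) b),
  (-307471881483920, M (J a a a (m d (m b c))) b),
  (12010049959099080, J b b (m a (m a c)) (m a d)),
  (366289103760, M (M (J a a (m b b) a) d) c),
  (-8298830924359008, M (J a a (m a c) b) (m b d)),
  (2555505387115548, M (M (M (J a a b c) a) b) d),
  (-14392930256682708, M (J a a (m b (m b c)) a) d),
  (-3407430914351556, M (M (M (J a a b d) a) c) b),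
  (-2859919768972020, M (J a a (m b d) c) (m a b)),
  (-8390675750096424, J d a a (m a (m b (m b c)))),
  (1071802233814052, M (J b b (m a (m a a)) d) c),
  (-2964431909063565, J b b (m a (m a a)) (m c d))]

def l14 : List (ℤ × In) := [
  (-5462055465753996, M (M (M (J a a b d) b) a) c),
  (-22266025049145372, M (J a a (m b c) d) (m a b)),
  (-363717269289384, M (M (J d a a (m a b)) b) c),
  (-11048428785547722, J b b (m (m a c) (m a d)) a),
  (-1320590936103048, M (J a a (m d (m b b)) c) a),
  (-364594920837786, M (J a b b (m c (m a a))) d),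
  (3121542357027708, M (J a b b (m a c)) (m a d)),
  (-4580450152931880, M (M (J a b b d) a) (m a c)),
  (3828935920423152, M (J a a (m b c) a) (m b d)),
  (-2180852421285456, M (J b b (m a a) (m a c)) d),
  (3273414488062824, M (M (J a a (m b b) a) c) d),
  (378053041078440, M (M (M (J a a a b) c) b) d),
  (-4601507928768480, J a a (m a c) (m b (m b d))),
  (-7605535603758480, J a a (m b (m a (m b c))) d),
  (3026286880345280, M (M (J a a a (m b c)) d) b),
  (10065956957178600, J a a (m b c) (m d (m a b))),
  (-982550761495026, J b b (m a c) (m d (m a a))),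
  (-10941521090749104, M (M (J a b b d) (m a c)) a),
  (-2180818317544656, M (M (M (J a b b a) a) c) d),
  (-25851200206080, J a a (m a (m b (m c d))) b),
  (123448513036158, J c a a (m a (m d (m b b)))),
  (8258057262363624, M (M (J a a (m b d) b) c) a),
  (6349163246883720, M (J a a (m b c) (m a d)) b),
  (7956109596438162, J a a (m b (m a (m c d))) b),
  (-4283018085765852, M (M (J a a b (m b d)) c) a),
  (8375581997760, M (J a a (m a (m b d)) b) c),
  (1309857937920, M (M (M (J a a b a) c) b) d),
  (8884703630720700, J d a a (m (m a c) (m b b))),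
  (-2062232295006120, J b b (m a (m a d)) (m a c)),
  (-3183582599543536, M (J a a a d) (m b (m b c)))]

def l15 : List (ℤ × In) := [
  (13993043003541554, M (J a a a (m b (m b c))) d),
  (25061718826236, M (M (M (J a b b c) a) d) a),
  (469480544873478, M (M (J d b b a) c) (m a a)),
  (7527487566313518, J a a (m b (m d (m b c))) a),
  (1307332479653292, J b b (m c d) (m a (m a a))),
  (-1277467040615694, M (J b b (m c (m a a)) a) d),
  (-8197807885731684, M (J b b (m a (m c d)) a) a),
  (-4758608117421418, M (J a a a (m c (m b b))) d),
  (3183110560547352, J a a (m a b) (m d (m b c))),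
  (-4322751416836116, M (M (M (J d b b a) a) a) c),
  (-1321700096858088, M (J b b (m d (m a a)) c) a),
  (-3214640088910716, M (J a a (m b (m a b)) d) c),
  (3556920618705060, M (M (M (J d a a a) b) c) b),
  (4785511694640, J a a (m d (m c (m b b))) a),
  (5633261332320, M (J a a (m a d) b) (m b c)),
  (-4733069877120, M (J d a a (m b (m a c))) b),
  (363285823508904, M (M (J a a b (m a b)) d) c),
  (-726571647017808, M (J d (m a b) (m a b) a) c),
  (9864540615550305, M (J a b b (m c d)) (m a a)),
  (5602313088960, M (J a a b c) (m b (m a d))),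
  (-4248633679190748, J a a (m b (m a d)) (m b c)),
  (1940381747276752, M (M (M (J a a a d) c) b) b),
  (-904096557389922, M (J a a (m b (m a b)) c) d),
  (2378224761120, M (M (J a a b b) c) (m a d)),
  (1110921345113880, J a a (m c (m d (m a b))) b),
  (-511031126400, M (J a a (m b (m b c)) d) a),
  (-912616826787600, J a a b (m a (m d (m b c)))),
  (242209439560242, M (M (J a a (m c d) b) b) a),
  (-1391466715680, M (J c b (m a a) b) (m a d)),
  (-2290385329133040, M (J d b (m a c) b) (m a a))]

def l16 : List (ℤ × In) := [
  (-697459282432848, M (J d a (m c (m a b)) a) b),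
  (6725821176636, J a a (m d (m c (m a b))) b),
  (7617647350730952, M (J c a (m a d) a) (m b b)),
  (-18054837421413816, M (J a a b (m a d)) (m b c)),
  (-2273018823281832, M (M (J d a a b) (m a c)) b),
  (-6022620516441816, M (J a a (m b b) (m a c)) d),
  (-668858121279918, M (M (J c a a d) a) (m b b)),
  (-8005599183073944, J a (m b d) (m b (m a c)) a),
  (-11082504398590980, M (J c a a (m a d)) (m b b)),
  (2878468010920836, M (J b b (m a d) (m a a)) c),
  (-1347667491447360, M (J a a (m c (m a b)) d) b),
  (7722963553925256, M (M (J a a b d) (m b c)) a),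
  (-10452701260250958, J a b (m a (m c (m a d))) b),
  (-3774007192420932, M (M (M (J a a b c) b) d) a),
  (-4872480336577908, M (J a b (m d (m b c)) a) a),
  (3802064850416280, J a a (m a (m b (m b c))) d),
  (1779431191759170, M (J d a a a) (m c (m b b))),
  (-620836047840, M (M (M (J c a a a) b) d) b),
  (-543102159840, M (J c a a a) (m d (m b b))),
  (-2909274378662148, M (J a a b (m b d)) (m a c)),
  (-16574624150374884, M (J a a (m a (m b c)) b) d),
  (5719705801920, M (M (J a b (m a b) d) a) c),
  (2648112970566408, M (J c a (m b (m b d)) a) a),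
  (3416995182259716, M (M (J c a a b) a) (m b d)),
  (4283771867411040, M (J a a a (m b c)) (m b d)),
  (-9537790774778928, M (M (M (J d a a b) c) a) b),
  (681121946956956, M (M (J b b (m a a) c) d) a),
  (544121575528611, M (J a a (m c d) a) (m b b)),
  (-9309245444316, M (J a a (m a b) (m c d)) b),
  (-957128632320, M (J c d (m a b) (m a b)) a)]

def l17 : List (ℤ × In) := [
  (2547377302451082, M (M (J a a (m b b) c) a) d),
  (-5110110302035896, M (J a b (m c (m a b)) a) d),
  (-1324189173179364, J a a (m c (m b (m b d))) a),
  (-5463340587094476, M (M (J a a (m c d) a) b) b),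
  (-8289679388470848, M (J d a (m a b) a) (m b c)),
  (4654252645440, J a a b (m b (m d (m a c)))),
  (-571250929440, J a a (m d (m b (m b c))) a),
  (7276452157118109, J a b (m (m a a) (m c d)) b),
  (-971759127459756, M (M (J c d b b) a) (m a a)),
  (7866308674572375, M (M (M (J d a a c) a) b) b),
  (2387166720565104, M (J c a a (m a (m b d))) b),
  (2025350100220554, M (J b b (m a a) c) (m a d)),
  (2639038770515544, J a a b (m c (m b (m a d)))),
  (-1127272670307156, M (J d a a b) (m c (m a b))),
  (-12481581202592598, M (J a a (m c (m a d)) b) b),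
  (1055520571854240, M (J a b b d) (m c (m a a))),
  (-2995370014948608, J a b (m c (m b (m a d))) a),
  (-15580835277120, M (M (J a b (m a d) a) b) c),
  (-246852391823520, M (J b b (m a c) (m a a)) d),
  (-1014833593920, M (M (J d a b b) c) (m a a)),
  (-1298661564992172, M (J a a b a) (m c (m b d))),
  (-9946050435220656, J a (m b d) (m a (m b c)) a),
  (12462644067827958, J a a (m b (m c (m a d))) b),
  (9305785267541628, J a a (m b (m b c)) (m a d)),
  (1328697547033764, M (J c a a (m b (m b d))) a),
  (3979476503523852, M (M (M (J a b b d) a) c) a),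
  (-2379621568907184, M (J a a (m b d) (m a c)) b),
  (-4277902165675278, J a a b (m (m a d) (m b c))),
  (842815453643490, M (M (J a b b d) c) (m a a)),
  (-5383590707658732, J b b (m a d) (m a (m a c)))]

def l18 : List (ℤ × In) := [
  (6502897636729800, J d a a (m (m a b) (m b c))),
  (7603047598011120, M (M (J a a (m b c) b) d) a),
  (-1180507227066264, M (J c b b (m a a)) (m a d)),
  (644059750417872, M (J b b (m a c) a) (m a d)),
  (3770860519079496, M (J a b (m d (m a a)) b) c),
  (9844738424412672, M (J b (m a c) (m a d) b) a),
  (-5253032289433560, M (M (J c d a a) a) (m b b)),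
  (28786250029356456, M (M (J a b (m a c) a) b) d),
  (7519832491138512, M (M (M (J c d a a) a) b) b),
  (4497930973633764, J b (m a a) (m a (m c d)) b),
  (-5749237459319430, M (J b b (m c (m a d)) a) a),
  (-6255235276291302, J a a b (m (m a c) (m b d))),
  (-709105118933004, J a a b (m d (m c (m a b)))),
  (3761867694724599, J a a (m c (m d (m b b))) a),
  (-1154896548627798, J a a (m b b) (m d (m a c))),
  (5527290876667092, M (J a a b a) (m d (m b c))),
  (7967648606540664, J c a a (m a (m b (m b d)))),
  (6961092482377098, J b b (m a a) (m a (m c d))),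
  (6058170862361808, M (J a b (m a b) a) (m c d)),
  (-3422891370145788, M (J a a b c) (m d (m a b))),
  (-10318752314722560, J a a (m d (m a b)) (m b c)),
  (4940221815401196, M (M (J a b b a) (m a c)) d),
  (2994259863654528, M (J c a (m b (m a d)) a) b),
  (-606075982080, M (M (M (J a a b b) a) c) d),
  (9538560000, M (M (M (J a a b b) d) c) a),
  (-2609774460542148, M (J c (m a b) (m a b) d) a),
  (-1143696882281592, M (M (J d b b (m a a)) c) a),
  (-11007113821919283, J b b (m d (m c (m a a))) a),
  (6016690389005496, M (J a a (m b d) (m a b)) c),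
  (-434801814549504, M (J a a b c) (m a (m b d)))]

def l19 : List (ℤ × In) := [
  (-3190926154491516, M (J a a b (m a b)) (m c d)),
  (-2064402759210276, M (J c a a (m d (m a b))) b),
  (-9003682719495666, M (J c b b (m a (m a d))) a),
  (-59534983680, M (M (M (J a a b c) d) a) b),
  (-27495335938668, J d a (m c (m a (m b b))) a),
  (-2242434770400, M (M (J a a (m a d) b) b) c),
  (12006325143172644, M (M (J a a (m b c) d) a) b),
  (-4581065504003664, M (M (J c b (m a d) b) a) a),
  (4070072451844452, M (J a a (m b (m a d)) b) c),
  (-2794438310072376, M (J a a (m a c) (m b d)) b),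
  (1413348450545988, M (M (J a a b (m a c)) b) d),
  (-1137076801362360, M (M (J a a (m a b) c) b) d),
  (-7603836014233200, M (J d a (m a (m b c)) a) b),
  (-1350531277739196, J a b b (m a (m d (m a c)))),
  (712343112837648, M (J d a (m a b) (m a b)) c),
  (5731937288479464, M (M (J a b (m a c) b) d) a),
  (3097014614124758, M (M (J d a a a) (m b b)) c),
  (-6188685527926636, M (J a (m a d) (m b b) a) c),
  (7600986354739440, J a (m b c) (m b (m a d)) a),
  (895177888251456, J a a (m c (m a b)) (m b d)),
  (-28782055095040296, M (J a b (m a b) (m a c)) d),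
  (9426424572884394, M (J a a (m b b) d) (m a c)),
  (-1299669169038252, M (J a a (m b d) a) (m b c)),
  (-7175652250844808, M (J a a b (m b c)) (m a d)),
  (-5276999735189472, M (J a b (m c (m a d)) a) b),
  (-3769082508363816, J c b (m a (m d (m a a))) b),
  (313612937936268, J a a (m a b) (m b (m c d))),
  (12150755808960, M (M (J d a (m b c) a) a) b),
  (-2865351731752692, M (M (J c a a (m a b)) d) b),
  (-1494855184494144, M (M (J a a b d) (m a c)) b)]

def l20 : List (ℤ × In) := [
  (6839788812960, M (J a a b (m d (m a c))) b),
  (-752144387406096, M (J a a (m c (m b d)) b) a),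
  (472435279876872, J (m a c) (m a b) (m a b) d),
  (1472478509520, J b b (m c (m d (m a a))) a),
  (-9810357988898592, J c a (m (m a d) (m b b)) a),
  (-769350068640, M (M (J a a b d) c) (m a b)),
  (-1778448537137490, J b b (m d (m a (m a a))) c),
  (11764299375733680, J b b (m a (m a (m c d))) a),
  (3296245056056304, J a a (m (m a b) (m c d)) b),
  (9536424414805488, M (J a a (m b (m a d)) c) b),
  (3529812396960, M (M (M (J a b b d) a) a) c),
  (-16378519107840, M (M (M (J d a b a) a) b) c),
  (1773265357402050, M (J a a (m a c) d) (m b b)),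
  (43999831920, M (J b b (m a (m a a)) c) d),
  (2624802070687536, J a a (m a b) (m c (m b d))),
  (-2142686501557864, M (M (M (J a b b a) d) a) c),
  (16464939221760, M (M (J d a b b) a) (m a c)),
  (-888270991630344, J d b b (m c (m a (m a a)))),
  (7603643807520, M (J a a b (m c (m a d))) b),
  (342793207019784, M (J d b (m c (m a a)) b) a),
  (8322526538826048, M (M (J d b b a) (m a c)) a),
  (71880482462832, J b b (m (m a a) (m a d)) c),
  (-14276920486778574, J d a a (m a (m c (m b b)))),
  (11367938258190858, M (J a (m c d) (m b b) a) a),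
  (5277037747176672, J a b (m b (m c (m a d))) a),
  (-3541876330520988, M (M (J d a a c) a) (m b b)),
  (-2651338606504968, M (M (J a b (m b d) a) c) a),
  (-2036435006531586, J b b (m a d) (m c (m a a))),
  (-4006328622052332, M (M (M (J c a a b) b) d) a),
  (-5671581001920, M (J a b (m a b) d) (m a c))]

def l21 : List (ℤ × In) := [
  (10280463393600, M (M (J c a a d) b) (m a b)),
  (357648840000, M (J a a (m d (m a c)) b) b),
  (4401526912769196, M (J d b b (m a a)) (m a c)),
  (6600936612721632, M (M (J b b (m c d) a) a) a),
  (5034889082501260, M (M (J a b b a) (m a d)) c),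
  (-2868244031713812, J a a (m c (m b (m a b))) d),
  (-4766565489902184, M (M (J d b b (m a a)) a) c),
  (-2868076594093812, J a a (m b (m d (m a b))) c),
  (30695551961555244, M (J a a b (m b (m a c))) d),
  (-2750137687853736, M (J a b (m a b) c) (m a d)),
  (-8143358720640, M (M (J d a b a) a) (m b c)),
  (-4959465430080, M (M (M (J c a a d) a) b) b),
  (837134027016126, M (M (J c b b a) (m a a)) d),
  (-3758929265430696, M (M (J a a (m a d) c) b) b),
  (-1843774377396648, M (M (J c a b b) (m a d)) a),
  (-1063126624089812, M (J a a (m a d) (m b b)) c),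
  (-3331768187504400, M (M (M (J d a a b) b) c) a),
  (-5838467877060336, J a a (m b (m d (m a c))) b),
  (2142692801702344, M (M (J d a (m b b) a) a) c),
  (7772882940784500, M (M (J a b b c) (m a d)) a),
  (2646338504227056, M (M (M (J a a b d) c) b) a),
  (6936034846778358, J a a (m c d) (m a (m b b))),
  (7517409409115151, M (M (M (J d a a c) b) b) a),
  (3109167200307690, M (M (J c b b (m a a)) a) d),
  (-14619403730143968, M (M (J c a (m b b) a) a) d),
  (-259889760000, M (J a b (m a b) (m c d)) a),
  (28844034454539576, M (M (J a a b (m b c)) a) d),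
  (-6273794046720, M (J d a a (m b (m b c))) a),
  (7309752157999104, M (J a a (m a (m b b)) c) d),
  (-6757235914936362, J a a b (m (m a b) (m c d)))]

def l22 : List (ℤ × In) := [
  (-13598647580640, J a a (m b (m c (m b d))) a),
  (9886910281268352, M (M (J c a b a) a) (m b d)),
  (6980467023758052, M (M (J a a b d) (m a b)) c),
  (-20265081654246978, M (M (J a a b (m c d)) a) b),
  (7520729884181712, M (J d b (m a (m a c)) b) a),
  (15392262870816810, J a b b (m a (m c (m a d)))),
  (-5732166245960424, M (M (J c a b b) a) (m a d)),
  (-10350623726615376, M (J d a a (m b b)) (m a c)),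
  (7299072810240, J c a (m b (m d (m a b))) a),
  (33151005586748808, M (M (M (J c a b a) b) a) d),
  (1325368701072324, M (J c d b b) (m a (m a a))),
  (2201707979989680, J a b (m a (m c (m b d))) a),
  (-7870188307104375, J a b (m d (m c (m a a))) b),
  (5820334685604336, M (M (J c a a (m a d)) b) b),
  (7512973224251151, M (J d a a c) (m b (m a b))),
  (-1216402893600, M (J a a b d) (m c (m a b))),
  (-1259673307080984, J a a (m c (m a d)) (m b b)),
  (4283008441449522, M (M (J a a (m b c) d) b) a),
  (15337508966983470, J a b b (m d (m c (m a a)))),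
  (7341708702094644, M (M (J a b b a) (m c d)) a),
  (-347260132080, M (J a a (m c (m b b)) a) d),
  (-8323265908655076, M (J a b (m c d) a) (m a b)),
  (-8634052106899752, M (J a (m b d) (m a b) a) c),
  (3406801488006276, M (M (J c a a d) (m a b)) b),
  (-117198129120, M (M (J d b (m a a) b) c) a),
  (2150131315529704, M (J a (m a b) (m a b) d) c),
  (10161418672417062, J d b b (m (m a a) (m a c))),
  (-5239940575387074, M (J b b (m a a) d) (m a c)),
  (5813807165452572, J b b (m d (m a (m a c))) a),
  (-1293908986277592, M (M (J c a a a) (m b b)) d)]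

def l23 : List (ℤ × In) := [
  (10026669605927640, M (J b b (m a d) a) (m a c)),
  (-3102604979738328, J a b (m a b) (m a (m c d))),
  (20253730315262334, J a b (m (m a c) (m a d)) b),
  (2634413363894088, M (J a b (m b d) a) (m a c)),
  (-1028362958142180, J b b (m c (m a a)) (m a d)),
  (2056725916284360, M (M (J a a b c) (m a d)) b),
  (11438529273915636, M (J a a b (m a c)) (m b d)),
  (-4283008441449522, J a a (m d (m a (m b c))) b),
  (-2048372620933320, M (J a b b a) (m d (m a c))),
  (-2049592453653960, J a a b (m c (m d (m a b)))),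
  (-33150803743711368, M (J a b (m a (m a c)) b) d),
  (-5064787580809896, M (M (M (J c b b a) a) a) d),
  (1664730899517480, M (M (J b b (m a a) d) c) a),
  (2553746814682908, M (M (M (J a b b c) a) a) d),
  (10270940381306775, M (J d a a c) (m a (m b b))),
  (-2859898921725144, J a a (m d (m b b)) (m a c)),
  (-17742856071728310, J a a b (m b (m c (m a d)))),
  (1146413360001636, M (J d b b (m c (m a a))) a),
  (-1994870079624006, M (M (J d b b c) a) (m a a)),
  (-12528551106346416, J a b (m (m a d) (m b c)) a),
  (-312678557760, M (J d a a (m b (m a b))) c),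
  (644710324628388, M (J c a a (m d (m b b))) a),
  (3985937354211852, M (J a a (m b (m b d)) c) a),
  (2880773596638432, J a a (m (m a d) (m b b)) c),
  (-1571696506281780, J a a (m a (m c (m b b))) d),
  (3922212702361914, J a a b (m d (m a (m b c)))),
  (5838463356310556, M (M (J d a a (m b b)) a) c),
  (-10727762298153174, M (J a a b (m a (m c d))) b),
  (2181121355535696, M (M (M (J a a b a) b) c) d),
  (2180391295553616, M (M (J a a (m a b) b) c) d)]

def l24 : List (ℤ × In) := [
  (-15928125124989858, J a b b (m a (m a (m c d)))),
  (2915841108399258, J a a (m b b) (m a (m c d))),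
  (-768658344960, M (M (M (J c a a b) d) a) b),
  (3117560042469324, M (M (J c a (m b b) a) d) a),
  (4362972771053472, M (J c a b (m b (m a a))) d),
  (-1898934816410754, J b (m a a) (m a b) (m c d)),
  (-4089891131529360, M (J d (m a c) (m a b) a) b),
  (-7603368734480880, M (M (J a b (m b c) a) d) a),
  (351161651245224, J c a (m d (m b (m a a))) b),
  (5520949456092516, M (M (J d a a b) c) (m a b)),
  (-7113841237410120, M (M (J a b (m a d) a) c) b),
  (2256908408640, J a b (m a (m a (m c d))) b),
  (-2056536819468840, M (M (J c d (m a a) a) b) b),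
  (-12960771861626604, M (M (J c d b a) (m a b)) a),
  (8357914234560, M (J d a (m b (m a b)) c) a),
  (242193658240242, M (J a b b (m a (m c d))) a),
  (-3424667931856512, M (M (J d a a b) a) (m b c)),
  (3541184109805224, M (M (J a a b (m a c)) d) b),
  (-3775157944061736, J c b (m d (m b (m a a))) a),
  (721752447253008, J c a (m a (m b (m a d))) b),
  (-3219814457254716, M (M (J a a b b) (m a d)) c),
  (-4365019461544992, M (J a (m b c) (m a a) b) d),
  (5320976339520, M (M (J c b (m a a) b) d) a),
  (-912175404288084, J c b (m (m a a) (m a b)) d),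
  (608759580435624, J (m a c) (m b d) (m a b) a),
  (-10180125637732968, M (M (J d a (m b c) b) a) a),
  (-11765327682941520, M (J c d a a) (m a (m b b))),
  (11765327682941520, J b b (m c (m a (m a d))) a),
  (-10220456911023480, J a a (m a (m b d)) (m b c)),
  (-6181977624000, M (M (J d a b (m a b)) a) c)]

def l25 : List (ℤ × In) := [
  (12063768337826820, J d a (m a (m c (m b b))) a),
  (-1011523462039032, M (J d a (m a b) (m b c)) a),
  (903990176319522, M (M (M (J a a b b) c) a) d),
  (-2867418894088212, J b (m a b) (m c (m a a)) d),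
  (478564316160, M (M (M (J a a b d) b) c) a),
  (26990469703836, J a a (m (m a b) (m b c)) d),
  (3624126994869768, J d (m a b) (m a b) (m a c)),
  (1097068350743328, M (J a a (m c (m a b)) b) d),
  (3855420006031152, J d b (m a (m a c)) (m a b)),
  (-4897813224006012, J b b (m a (m c d)) (m a a)),
  (1274951375040, M (J a a b (m c (m a b))) d),
  (3546590077642020, M (J d a (m a c) (m b b)) a),
  (12109174383406176, J (m c d) (m a b) (m a b) a),
  (33270302948007900, M (J a b b (m a (m a c))) d),
  (-12209780384646372, M (J a b (m b c) (m a a)) d),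
  (-3563634383992884, M (J b (m c d) (m a a) b) a),
  (2258737890797040, J a b (m a (m a c)) (m b d)),
  (2717922139680, J a b (m c (m d (m a a))) b),
  (1819968238560, M (M (J d b (m a a) a) c) b),
  (4961907024439128, M (J a b (m b d) c) (m a a)),
  (-14914876844160, J c b (m a (m a (m b d))) a),
  (3584290033168884, J (m b c) (m a d) (m a a) b),
  (-5030577732480, M (J d a (m b (m a b)) a) c),
  (4398924542587116, J a (m b b) (m c (m a d)) a),
  (2649714426174408, J a b (m a (m a (m b d))) c),
  (6001986947614722, M (M (J c a a (m b b)) d) a),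
  (1112550772141080, J c b (m a a) (m d (m a b))),
  (-12415032383348478, M (M (J a b b (m c d)) a) a),
  (-5292677008454112, M (J a b (m d (m a b)) c) a),
  (702926014838928, J d a (m c (m a b)) (m a b))]

def l26 : List (ℤ × In) := [
  (-4499005329570564, M (J a a b b) (m a (m c d))),
  (14563727945199738, M (J a a b (m c d)) (m a b)),
  (-8944945748909028, M (J c b (m a a) d) (m a b)),
  (-3464536069306104, J a (m a d) (m b (m b c)) a),
  (7129320693719283, J a a (m b b) (m c (m a d))),
  (-13046980894788, J c d a (m a (m a (m b b)))),
  (-4111099341659280, J d b (m a (m a b)) (m a c)),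
  (5002978458293976, J d a (m a (m a b)) (m b c)),
  (13140522429120, M (J d a b a) (m a (m b c))),
  (-1704279728877540, M (J c a (m a a) b) (m b d)),
  (5130147217063968, M (M (J a a b c) a) (m b d)),
  (12543068851285296, J a b (m b c) (m a (m a d))),
  (-4071794669769252, M (M (M (J d a a b) b) a) c),
  (5116346456902776, M (J a (m b c) (m a b) d) a),
  (-9143807306428176, M (M (J a b b a) d) (m a c)),
  (-4474714989285960, M (M (J b b (m a d) c) a) a),
  (8011928600863704, M (J d a (m b (m a c)) b) a),
  (-5475891318720, J a b (m d (m b (m a c))) a),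
  (5167380884056818, M (J c d b a) (m b (m a a))),
  (-7531357299388878, M (J c a (m d (m b b)) a) a),
  (9791515130107392, M (J d a (m a b) c) (m a b)),
  (-13253067249120696, M (M (J c a b a) d) (m a b)),
  (-4351755340271640, M (J d a a (m b c)) (m a b)),
  (-10446629727128148, J a b (m (m a a) (m b c)) d),
  (883553749670496, J d b (m a (m b c)) (m a a)),
  (11947469475095568, M (J c a (m b (m a d)) b) a),
  (12121131354990504, M (J d a b (m a (m a c))) b),
  (356389953058344, J c (m a a) (m b (m a b)) d),
  (3479278210442076, J d b (m c (m a a)) (m a b)),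
  (-10699595202803520, J a (m a c) (m b b) (m a d))]

def l27 : List (ℤ × In) := [
  (27950523161843964, M (J a (m b c) (m b d) a) a),
  (-933158555447760, M (M (J c a b d) b) (m a a)),
  (-191904157440, M (M (J d a (m a b) c) a) b),
  (3406620563080356, M (J d a (m b c) (m a a)) b),
  (-2080166185412649, M (J b b (m c d) a) (m a a)),
  (-49243411711992, M (J d b (m c (m a b)) a) a),
  (3195150848160, J d (m a a) (m b (m a b)) c),
  (2710156068966756, J a (m a c) (m d (m b b)) a),
  (-10842253840340868, J a b (m d (m a a)) (m b c)),
  (-1149400112160, M (J b b (m d (m a a)) a) c),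
  (-32798895037390776, M (M (J d a a c) (m a b)) b),
  (1324488383762724, J d a (m b (m b c)) (m a a)),
  (4628883549469656, M (J c d a (m a (m b b))) a),
  (6479928956222262, J a a b (m c (m a (m b d)))),
  (5735984869827624, M (M (J a b (m a b) c) d) a),
  (-9244077796800, J d a (m a (m b (m b c))) a),
  (188627111040, J a a (m d (m b (m a b))) c),
  (-1727776657693860, J a a (m c (m b (m a d))) b),
  (4581204227843664, M (J b (m a d) (m a b) c) a),
  (-4863892648769232, J (m b c) (m b d) (m a a) a),
  (6022534030432776, M (J a a (m a c) (m b b)) d),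
  (-3102180796058328, M (J b (m c d) (m a b) a) a),
  (2436321063129594, M (M (J c d a a) (m b b)) a),
  (231727667520, M (J d a b b) (m c (m a a))),
  (4518299328960, J c a (m a (m b (m a b))) d),
  (-677898890574318, J a a (m a d) (m c (m b b))),
  (-710605868137488, J c (m a d) (m a (m a b)) b),
  (-23530503025403040, M (M (M (J c d a a) b) a) b),
  (-13803678545010336, J d a (m a b) (m a (m b c))),
  (14351435138489616, J a (m b c) (m a (m a b)) d)]

def l28 : List (ℤ × In) := [
  (-2455049526190044, M (M (M (J a a b c) b) a) d),
  (-1875147643200, J c a (m d (m b (m a b))) a),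
  (6960203127360, M (M (M (J a a b d) a) b) c),
  (2651872126504968, J a (m b d) (m a (m a b)) c),
  (-5249485882932192, M (J c a b a) (m a (m b d))),
  (3922311147233334, M (M (J b b (m a a) d) a) c),
  (14731660592640, J d b (m a c) (m a (m a b))),
  (3231131538189828, J (m a c) (m a d) (m b b) a),
  (3411321405068676, M (J c b (m a (m a a)) d) b),
  (-795463899581664, M (J b b (m a c) (m a d)) a),
  (3406727268759240, M (J a b (m a (m c d)) a) b),
  (50872320000, M (M (J c d a (m a b)) b) a),
  (3807641906598726, M (M (J c d b (m a a)) b) a),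
  (-7780376802633264, M (M (J a b b (m a c)) d) a),
  (-1302244523260812, J c b (m a (m a a)) (m b d)),
  (1686902812877220, J c b (m a d) (m b (m a a))),
  (2651872126504968, J a (m a b) (m a (m b d)) c),
  (6821707490641992, M (M (J d a (m a b) a) c) b),
  (3984853572259212, M (J b (m b d) (m a a) a) c),
  (-2962971235783076, M (M (J a a a b) (m b d)) c),
  (-4320421490010996, J c a a (m b (m a (m b d)))),
  (-2221842690227760, M (J c b (m d (m a b)) a) a),
  (9426821097400314, J d (m a a) (m a (m b b)) c),
  (-6054462235068048, J a b (m b (m a (m c d))) a),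
  (-6419726252160, M (M (M (J a a b b) c) d) a),
  (-2805069064320, M (M (J c a (m a d) a) b) b),
  (-1684395910155300, J c b (m b (m a a)) (m a d)),
  (1464745468800, M (M (J d a b c) a) (m a b)),
  (-4362848787053472, M (J c (m a b) (m a b) a) d),
  (-6959222292000, M (J c a a b) (m b (m a d)))]

def l29 : List (ℤ × In) := [
  (-10236430735680, M (J a b (m d (m a b)) a) c),
  (-4904060135090016, M (J a b (m b (m a a)) d) c),
  (2021511002194736, M (M (M (J a a a b) d) b) c),
  (30696022070158764, M (M (J a b b (m a c)) a) d),
  (1943940252480, J c a (m a a) (m b (m b d))),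
  (-1349181312418548, J d b (m a c) (m b (m a a))),
  (-3653111239668084, J a (m b d) (m b (m a a)) c),
  (327723435227448, M (J c a a b) (m a (m b d))),
  (12480512725008918, M (M (M (J d a a c) b) a) b),
  (-361297413065064, M (J a a b (m d (m a b))) c),
  (7104281242080, J c a a (m d (m b (m a b)))),
  (3465846120752268, M (J a a (m a d) c) (m b b)),
  (2062219775646120, J b b (m a c) (m a (m a d))),
  (-3557301829597860, J a (m a d) (m c (m b b)) a),
  (-7532614151174352, M (J a b b (m d (m a c))) a),
  (4326753828546660, J b (m a c) (m b d) (m a a)),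
  (-306699176713992, J b b (m a a) (m d (m a c))),
  (9218076371701656, M (J a (m c d) (m a a) b) b),
  (12312778497600, M (M (J c a (m b d) a) a) b),
  (-19347576703178472, J d (m b c) (m a (m a b)) a),
  (13525042739520, M (J a b (m a (m a d)) b) c),
  (9072465427697787, M (M (J c b b d) a) (m a a)),
  (430856782080, M (J c b (m a (m a d)) b) a),
  (-7967302813631064, J c a (m a (m b (m b d))) a),
  (-2057961928045320, M (J c a a (m b (m a d))) b),
  (-4096523633066640, J a (m a b) (m b (m a c)) d),
  (-3561386702710644, M (M (J d a a b) (m b c)) a),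
  (5290070353769952, J a b (m d (m a b)) (m a c)),
  (-324568267163304, J a b (m c d) (m a (m a b))),
  (2644965808395060, J a b (m c (m b (m a a))) d)]

def l30 : List (ℤ × In) := [
  (-3765512657525580, M (J c a a b) (m d (m a b))),
  (-9543201805821012, J c (m a a) (m b (m a d)) b),
  (25481197034763936, J c a b (m a (m b (m a d)))),
  (-696910838580048, M (J c (m a d) (m a b) a) b),
  (560728477440, M (M (M (J c a b a) d) a) b),
  (-3563663322722004, M (J c d b (m b (m a a))) a),
  (-2413376333280, M (M (M (J c a a b) a) b) d),
  (-1201796213760, M (J a b (m b (m a d)) a) c),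
  (-13208390569155264, J a b (m a (m b (m c d))) a),
  (-6542264809351032, J b (m b d) (m a (m a c)) a),
  (-12656284504320, M (J d (m a b) (m a b) c) a),
  (1351330474971036, M (J d a (m b b) c) (m a a)),
  (1794944594880, M (M (J d b (m a b) c) a) a),
  (-13253079725280696, J b (m a d) (m a (m a c)) b),
  (-7341660915016884, M (J d (m a a) (m b b) c) a),
  (-19063108055716896, J c b (m (m a b) (m a d)) a),
  (5764464091193820, J c a (m d (m a (m b b))) a),
  (4106502559571280, M (J d a (m a b) (m a c)) b),
  (-6956075335889538, J d (m a c) (m a a) (m b b)),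
  (-2612226919455696, J b (m a a) (m d (m a c)) b),
  (3616375148798088, M (M (J c a a b) (m a b)) d),
  (2453352580527330, J b b (m d (m a a)) (m a c)),
  (-1092365967290520, J a b (m b d) (m c (m a a))),
  (4285500183915728, M (J a b (m a (m a b)) d) c),
  (1011516619808952, J a (m b c) (m d (m a b)) a),
  (5261094569005152, J c a (m b (m a (m b d))) a),
  (-1096550692209720, M (J c (m b d) (m a a) a) b),
  (20175893592968400, M (J a b (m a d) a) (m b c)),
  (-3425968614436668, M (M (M (J a a b c) a) d) b),
  (-4039050823268796, J c (m a a) (m a b) (m b d))]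

def l31 : List (ℤ × In) := [
  (4112289160423440, M (M (J d a b a) (m a c)) b),
  (1689242753379300, M (M (J d b (m a a) b) a) c),
  (-1514313711799134, J a a (m c (m a (m b d))) b),
  (-3404985605167560, M (J a b (m b (m c d)) a) a),
  (-6303628824000, J c b (m d (m a (m a b))) a),
  (-10924900350720, M (J c a (m b d) a) (m a b)),
  (-7523810170796760, J a b (m c (m a b)) (m a d)),
  (-5615140376979084, M (J a a (m b b) (m c d)) a),
  (2275313198636400, J d a (m c (m a (m a b))) b),
  (-4885106736298548, M (M (M (J c a b a) d) b) a),
  (185893050720, M (M (J b b (m a a) c) a) d),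
  (-15279591997753056, J a a (m a (m b c)) (m b d)),
  (4587902604068304, J a b (m a b) (m c (m a d))),
  (11675380509120, J d a (m a (m b (m a c))) b),
  (-6818617685836116, J d a (m a (m b b)) (m a c)),
  (-5113979047980216, J d a (m (m a b) (m b c)) a),
  (3458018237357640, M (M (M (J c d a b) a) b) a),
  (-45527818080, M (J c b (m b (m a a)) d) a),
  (2743835642070696, M (J c a b (m a b)) (m a d)),
  (-5833790169600, J a b (m b (m d (m a c))) a),
  (35791769358720, M (M (M (J d a b c) a) b) a),
  (6062993275772688, J c (m b d) (m a a) (m a b)),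
  (-285652942080, M (M (J a a (m a c) b) b) d),
  (-11049033532413864, J a (m a b) (m d (m b c)) a),
  (1175960439434724, J c a (m a (m b b)) (m a d)),
  (-17201808278400, M (J a b b (m a (m a d))) c),
  (-8592995410555191, J a a (m a (m b b)) (m c d)),
  (129701941440, M (M (J a b (m a b) a) d) c),
  (3446947312561464, J c (m a d) (m a b) (m a b)),
  (-3894205416941388, J b b (m a (m a (m a c))) d)]

def l32 : List (ℤ × In) := [
  (-13475559126496416, M (M (J c a (m a d) b) b) a),
  (-342297810720, M (M (M (J c a a b) d) b) a),
  (24949252421436, J a a (m b d) (m c (m a b))),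
  (3414956282840676, M (M (J c a a b) d) (m a b)),
  (4507654848960, J a (m a c) (m b (m a b)) d),
  (-8006035686693144, J a b (m a (m b d)) (m a c)),
  (-16409441291937048, M (M (M (J c d b a) a) a) b),
  (2444348967360, M (J a (m a c) (m b d) b) a),
  (4362853867373472, M (J c a (m b (m a b)) a) d),
  (-4592721907452144, M (M (J c a b b) d) (m a a)),
  (-1263446392157148, J d b (m b (m a a)) (m a c)),
  (-13253139600480696, J a (m a c) (m b (m a d)) b),
  (-1628072531520, J d b (m a (m a (m b c))) a),
  (7964613979166640, J a (m a c) (m a d) (m b b)),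
  (5238376036810272, J d a (m a c) (m b (m a b))),
  (3194717957541996, J d a (m (m a a) (m b b)) c),
  (-4333065267367140, M (M (J c a a b) (m b d)) a),
  (3365924312273496, M (J a (m a c) (m b d) a) b),
  (6292977092938320, M (M (J a a b c) d) (m a b)),
  (2523926583417792, M (M (J c b b a) a) (m a d)),
  (-3390022222365312, M (M (J c a b d) (m a b)) a),
  (-2721734564585592, M (J d b (m a c) a) (m a b)),
  (10524793109077356, M (M (J a a b (m a d)) c) b),
  (12100313428800, J c a b (m b (m a (m a d)))),
  (2957246092339848, M (J a (m b c) (m a d) b) a),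
  (4885106736298548, M (M (J d a (m b c) a) b) a),
  (10129260011176272, J d a (m b (m a (m b c))) a),
  (-1160472871494192, J c d (m a (m b (m a a))) b),
  (-8035043197317144, M (J c d a (m a b)) (m a b)),
  (-6020287616807916, M (J a a (m c (m b b)) d) a)]

def l33 : List (ℤ × In) := [
  (2642640868356336, M (M (M (J a b b d) c) a) a),
  (2714108118790392, J d b (m a (m c (m a b))) a),
  (3239323539327996, M (J c (m b d) (m a a) b) a),
  (-6054439859557008, J a (m c d) (m b (m a b)) a),
  (-4324535228024916, M (J a a b (m a (m b d))) c),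
  (3727767874650324, M (J b b (m a d) c) (m a a)),
  (-1120546849130520, J c d (m a b) (m b (m a a))),
  (28797918745091496, M (M (M (J c a b b) a) a) d),
  (1689976821420900, M (M (J a a (m b d) b) a) c),
  (-2951727374529720, J a b (m a (m c d)) (m a b)),
  (-4011469144120248, M (M (J a b b c) a) (m a d)),
  (-707380468577808, J a b (m (m a c) (m b d)) a),
  (5461520087933676, M (J c b (m a d) (m a a)) b),
  (6232958740167579, J b b (m a a) (m c (m a d))),
  (787003492800, M (M (J b b (m a c) a) a) d),
  (-13253016376800696, J a b (m b (m a (m a c))) d),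
  (-4591648849366224, M (M (J c b (m a d) a) b) a),
  (-6744738077970126, M (M (J c d b a) (m a a)) b),
  (-2324676012093024, J c a b (m a (m d (m a b)))),
  (-4109479877696400, M (M (J a b (m a c) a) d) b),
  (242827398720, J b (m a c) (m a b) (m a d)),
  (-11745266218560, J c b (m b (m a (m a d))) a),
  (8386683143154798, J a a (m c (m b b)) (m a d)),
  (-4422411614286540, M (M (J a a (m b b) c) d) a),
  (-2600039341528770, M (J a b (m c d) b) (m a a)),
  (28155113683499952, J d (m a b) (m a (m b c)) a),
  (-4797306690240, J b (m b c) (m a (m a d)) a),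
  (4581102932483664, M (J a b (m b (m a d)) c) a),
  (372995397634008, M (J d a b (m b c)) (m a a)),
  (4017783472885932, J b (m a a) (m b (m a c)) d)]

def l34 : List (ℤ × In) := [
  (-2619419430760656, M (J a a (m b d) (m b c)) a),
  (2609415969662148, M (M (J c a b a) (m b d)) a),
  (8333540870110992, J a a (m b (m a c)) (m b d)),
  (3564980737065204, M (J b b (m a a) (m c d)) a),
  (-9533391408425328, M (M (J c a a (m b d)) a) b),
  (246423353901042, M (J a a b (m b (m c d))) a),
  (1333266632588082, M (M (J c b b (m a a)) d) a),
  (2098333257379728, J a (m a c) (m b d) (m a b)),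
  (-20200905621600, J a b (m c (m b d)) (m a a)),
  (11899234494885096, M (J d a (m a (m a c)) b) b),
  (2727533638912632, M (J a b (m a c) d) (m a b)),
  (-4699083462642300, M (J c d (m b (m a a)) a) b),
  (6626651826484188, M (M (J a a (m a c) b) d) b),
  (155952000000, J c a (m d (m a (m a b))) b),
  (-155952000000, M (M (M (J d a b a) c) b) a),
  (-5249485882932192, J c a (m b d) (m a (m a b))),
  (7831566803156592, J c b (m b (m a d)) (m a a)),
  (164150750400, M (M (J a b (m b c) d) a) a),
  (-3314167590033666, M (J a b b a) (m a (m c d))),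
  (-3405132334322436, M (M (J d a (m a a) c) b) b),
  (541662261120, M (M (M (J c a b d) b) a) a),
  (1555311298746444, J a a (m b (m a b)) (m c d)),
  (-2648295777990408, J a (m a c) (m b (m b d)) a),
  (-8581297007040, J d a (m c (m b (m a b))) a),
  (4765685291189676, J a (m a c) (m a (m b b)) d),
  (-9673835071630836, J d (m b c) (m a a) (m a b)),
  (9675852072039636, M (J a a (m a b) d) (m b c)),
  (-2477577552484596, J d b (m a b) (m c (m a a))),
  (2442553368149274, M (J b b (m a (m a c)) d) a),
  (-390456142080, M (M (J a b (m a a) b) d) c)]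

def l35 : List (ℤ × In) := [
  (-963568644236760, J a b (m b d) (m a (m a c))),
  (7603217351781360, J a b (m a (m a (m b c))) d),
  (5866464543674718, M (M (J c a b b) (m a a)) d),
  (-6147676824000, M (M (J d a b a) c) (m a b)),
  (4544157579840, M (M (M (J d a b a) c) a) b),
  (-6666703892734560, M (J c a b (m b (m a d))) a),
  (-5719045670341392, J d b (m b (m a c)) (m a a)),
  (4432076642125260, M (M (J c b b (m a d)) a) a),
  (30654720000, M (J d a b (m c (m a b))) a),
  (2622644985232176, M (J b (m a c) (m a a) d) b),
  (-2300072839680, M (J c d a a) (m b (m a b))),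
  (3092666155306668, M (J c d a (m a a)) (m b b)),
  (-7520729884181712, J a b (m d (m a (m a c))) b),
  (2042834667655560, M (J d b (m a c) (m a a)) b),
  (-10084077118368624, J a b b (m c (m a (m a d)))),
  (20168154236737248, M (M (J c d a a) (m a b)) b),
  (4126444720502160, M (J a b (m a d) (m a c)) b),
  (-7535134741187160, J c (m a b) (m b (m a d)) a),
  (1808174856319044, M (J a (m a b) (m a b) c) d),
  (-3616349712638088, M (M (J c a b a) (m a b)) d),
  (3784278192907656, M (J d a (m b (m a a)) c) b),
  (3410963642232516, M (J c b (m d (m a a)) a) b),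
  (-9026594974567320, M (J a b b (m c (m a d))) a),
  (-1771415364746052, J b b (m (m a a) (m a c)) d),
  (24124844765566188, J a b (m (m a b) (m c d)) a),
  (1444519836480, M (J c a (m a (m b d)) b) a),
  (1752755147156982, M (J b (m a c) (m a a) b) d),
  (1288672684800, J b (m a a) (m d (m b c)) a),
  (13856173152960, M (J c a (m a d) b) (m a b)),
  (759938601574086, J a (m b b) (m d (m a a)) c)]

def l36 : List (ℤ × In) := [
  (557510454669420, M (J d (m a a) (m a b) b) c),
  (-2108348075040, J d b (m c (m a (m a a))) b),
  (-6303126723343068, J a b (m a (m a b)) (m c d)),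
  (-1819226293372644, J a a (m d (m b c)) (m a b)),
  (822562844160, M (M (J a a b b) a) (m c d)),
  (9389816533920, J b (m a a) (m b (m a d)) c),
  (2609793537662148, M (J c b (m a (m a b)) d) a),
  (5669990880294786, M (M (J d a (m b b) a) c) a),
  (-1304896768831074, M (M (M (J a b b a) d) c) a),
  (-28796047539385896, M (J a b (m b (m a c)) a) d),
  (-1700915923680, M (J d b (m a a) (m a b)) c),
  (11494639025157936, J c d a (m (m a b) (m a b))),
  (-9215571486868212, J a b b (m (m a c) (m a d))),
  (-416548942080, M (M (J a b (m a d) b) c) a),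
  (20854656528370536, M (J d a (m b c) a) (m a b)),
  (6060485581732368, J c d b (m a (m a (m a b)))),
  (24186350257920, M (M (J c a (m b d) b) a) a),
  (-24167033441868, M (M (M (J a b b c) d) a) a),
  (48334066883736, M (J a b (m c (m a b)) d) a),
  (-24167033441868, M (M (M (J a a b c) d) b) a),
  (-1703316870101220, J b (m a d) (m c (m a a)) b),
  (5531957846191572, J d b (m a (m a a)) (m b c)),
  (7548894410782344, J a b (m a (m c (m a b))) d),
  (7601303122449840, J a (m a d) (m a (m b c)) b),
  (-2650288825466568, M (J c a (m a (m b d)) a) b),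
  (-21433154615040, J a b (m a (m d (m b c))) a),
  (1186943034501072, M (J a b (m a c) a) (m b d)),
  (-2181560523128496, M (J c b (m a (m a a)) b) d),
  (-5926054489777674, M (J a a (m c d) b) (m a b)),
  (-4003226354772492, M (M (J b b (m a c) d) a) a)]

def l37 : List (ℤ × In) := [
  (2529662982720, M (J d a (m b (m a c)) a) b),
  (-1523802767471256, J a a (m c (m b d)) (m a b)),
  (-1348883894340960, M (J c (m a a) (m a b) d) b),
  (66769920000, M (M (M (J a b b a) c) a) d),
  (-1774608604368852, M (J c d (m b b) a) (m a a)),
  (-8590006127040, J c a (m a d) (m b (m a b))),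
  (-927699656851194, M (M (J c b (m a a) b) a) d),
  (10965746167680, M (M (J d b (m a c) b) a) a),
  (-10990784887680, M (J a b (m b (m a c)) d) a),
  (5249970860740512, J a b (m a c) (m d (m a b))),
  (-7099322290799646, M (J c a a d) (m a (m b b))),
  (3896523596139870, M (M (J a a b b) (m a c)) d),
  (-1098689220000, M (J c b b (m a (m a a))) d),
  (3214690200910716, M (M (M (J a a b b) d) a) c),
  (5377364159029332, M (J a (m a d) (m b b) c) a),
  (-5244767548422432, J d a (m b (m a b)) (m a c)),
  (-1185029838122952, J a (m b b) (m a (m a c)) d),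
  (-3226583643216156, J c d (m b (m a b)) (m a a)),
  (-2477695147868916, J b (m b c) (m d (m a a)) a),
  (-404211022080, M (M (J a b (m a b) d) c) a),
  (1568379804483942, J c (m b b) (m d (m a a)) a),
  (3980739834245292, J c a (m b d) (m b (m a a))),
  (2056373136913320, M (M (M (J c a a b) a) d) b),
  (-7509531377534604, M (M (J d a b a) (m b c)) a),
  (16740973440, M (M (J a b (m a d) b) a) c),
  (-5769365301623112, J c d a (m b (m a (m a b)))),
  (-3240451887360, M (J c a (m d (m a b)) a) b),
  (6056534652092688, M (M (J a b (m c d) b) a) a),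
  (168514560000, M (M (M (J a b b a) c) d) a),
  (8245115358876, J b (m a a) (m c (m a b)) d)]

def l38 : List (ℤ × In) := [
  (10008330907356, M (J a a (m d (m a b)) c) b),
  (185655651840, J a (m a b) (m c (m a b)) d),
  (-185655651840, M (J d a b a) (m c (m a b))),
  (-185655651840, J c (m a b) (m a (m a d)) b),
  (-94840650240, J d b (m c (m b (m a a))) a),
  (-2323137311955744, M (J c d (m a b) a) (m a b)),
  (-20075841944952, M (M (J c d (m a b) a) a) b),
  (-5232531436632672, J d b (m a b) (m a (m a c))),
  (-3879546828357672, M (J a (m b c) (m a d) a) b),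
  (5245861237418592, J a (m b c) (m a (m b d)) a),
  (-4542465174720, M (M (J c a (m a b) a) d) b),
  (3425867488186428, J a b (m b (m c (m a a))) d),
  (15655344936615576, M (M (J c d b a) a) (m a b)),
  (5238980075852832, M (J b (m a c) (m a b) d) a),
  (834805368000, M (J c a b (m d (m a a))) b),
  (-21570078549120, J b (m a b) (m c (m a d)) a),
  (1906852363200, J a (m b d) (m c (m a b)) a),
  (-2432805787200, J c a (m a b) (m d (m a b))),
  (-2432805787200, J a b (m c (m d (m a b))) a),
  (2133494307840, J a b (m c (m a (m a d))) b),
  (770085315095856, J d a b (m c (m b (m a a)))),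
  (2985842758293888, J b (m a d) (m a (m a b)) c),
  (25038720000, J d a (m b (m b (m a c))) a),
  (-892275739899384, M (J d a (m a a) c) (m b b)),
  (1164414967106832, J b (m a c) (m d (m a a)) b),
  (-7525572648052440, M (J c d a b) (m a (m a b))),
  (-3434524906304520, J d a (m b (m a c)) (m a b)),
  (-5280554564092848, J a b (m a (m b (m a d))) c),
  (794226843724092, J c (m a d) (m a a) (m b b)),
  (9528166112325168, M (M (J c b (m a a) d) a) b)]

def l39 : List (ℤ × In) := [
  (-9640008260198208, J (m b c) (m a a) (m a b) d),
  (-6141429948690912, J d (m a b) (m a (m a c)) b),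
  (9880530842219064, M (J c b (m a d) a) (m a b)),
  (3366953773413312, M (J a b (m a d) c) (m a b)),
  (-7265370501495288, M (J d a b (m a b)) (m a c)),
  (22875339446232, M (J a b (m b (m a a)) c) d),
  (14762447143680, M (J d b (m a (m a b)) a) c),
  (-11673722958761952, M (M (J c a b d) a) (m a b)),
  (-360145441728408, M (J a b (m b c) d) (m a a)),
  (-2110292697070560, M (J a b (m b c) (m a d)) a),
  (-5848329231086724, J a a (m a d) (m b (m b c))),
  (5296322388308982, J a (m b b) (m c (m a a)) d),
  (5736865317649704, M (J c a b a) (m d (m a b))),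
  (-5736865317649704, J a b (m c (m a (m a b))) d),
  (-4937602355891136, J a (m b c) (m a (m a d)) b),
  (660052808754456, J a b (m c (m a a)) (m b d)),
  (26706217992960, M (J c d a b) (m b (m a a))),
  (-15058284095755104, M (M (J d a b (m a c)) b) a),
  (-703111670490768, M (M (M (J d a b c) b) a) a),
  (703111670490768, J a b (m d (m c (m a b))) a),
  (1864912183455852, J d (m a b) (m c (m a a)) b),
  (5933954454003120, M (M (J d a b c) (m a b)) a),
  (3061424802946050, J d (m a a) (m b b) (m a c)),
  (-4365094111463712, J d a (m a (m a (m b b))) c),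
  (-3118065586149324, M (J d a (m a (m b b)) c) a),
  (-6630309429464028, M (J d b (m a a) (m a c)) b),
  (-6032478410681490, J d a (m b b) (m c (m a a))),
  (12518228298753240, M (J d a (m a b) b) (m a c)),
  (3381701066674518, M (J a b (m c (m a a)) b) d)]

/-- all instances -/
def l : List (ℤ × In) := (((((l0 ++ l1) ++ (l2 ++ (l3 ++ l4))) ++ ((l5 ++ l6) ++ (l7 ++ (l8 ++ l9)))) ++ (((l10 ++ l11) ++ (l12 ++ (l13 ++ l14))) ++ ((l15 ++ l16) ++ (l17 ++ (l18 ++ l19))))) ++ ((((l20 ++ l21) ++ (l22 ++ (l23 ++ l24))) ++ ((l25 ++ l26) ++ (l27 ++ (l28 ++ l29)))) ++ (((l30 ++ l31) ++ (l32 ++ (l33 ++ l34))) ++ ((l35 ++ l36) ++ (l37 ++ (l38 ++ l39))))))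

/-- the target -/
def t : Po :=
  P5 (Po.mo a) (Po.mo a) (Po.mo a) (Po.mo b) (Po.mo b) * (Po.mo c) * (Po.mo d) - P5 (Po.mo a) (Po.mo a) (Po.mo a) (Po.mo b) (Po.mo b) * ((Po.mo c) * (Po.mo d))

theorem ok : chk false 11 99532800000 t l = true := by
  decide +kernel

end Pool.Agent.H.MP_e16c79_al.IS.C2
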