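import Pool.Agent.H.MP_e16c79_al.IS.Ops

/-!
# MP_e16c79_al: certificate for the alternating form
-/

set_option autoImplicit false
set_option maxRecDepth 100000

namespace Pool.Agent.H.MP_e16c79_al.IS.C3

open Tm In

def a : Tm := v 0
def b : Tm := v 1
def c : Tm := v 2
def d : Tm := v 3

def l0 : List (ℤ × In) := [
  (-8, M (E a b b d c) a),
  (4, E (m a a) b b d c),
  (2, M (E a a b d b) c),
  (-8, E (m b b) c a d a),
  (4, E (m b b) a a d c),
  (8, E (m b b) d a c a),
  (-2, M (E a a b c b) d),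
  (-4, Q d b b (m a a) c),
  (4, Q c b b (m a a) d),
  (-1, M (Q d a a b b) c),
  (-3, M (Q c b b a a) d),
  (2, M (E a b b c a) d),
  (4, M (Q a a b c b) d),
  (3, M (Q d b b a a) c),
  (1, M (Q c a a b b) d),
  (-2, M (E a b b d a) c),
  (-8, E (m a c) b b d a),
  (8, M (E c b b d a) a),
  (-4, M (Q a a b d b) c),
  (8, Q (m b d) c b a a),
  (-8, M (E d b b c a) a),
  (-8, Q (m b c) d b a a),
  (-8, Q c b b (m a d) a),
  (8, Q d b b (m a c) a),
  (8, E (m a d) b b c a),
  (-8, M (M (J c b b d) a) a),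
  (8, M (M (J c a a b) d) b),
  (-8, M (M (J d a a b) c) b),
  (24, J a a b (m d (m b c))),
  (8, J a a (m c (m b b)) d)]

def l1 : List (ℤ × In) := [
  (32, M (J a a b c) (m b d)),
  (8, M (J d c a a) (m b b)),
  (-8, J a (m c d) (m b b) a),
  (-8, M (M (J d b b a) a) c),
  (32, J a b (m c (m a b)) d),
  (8, M (J d a a (m b c)) b),
  (16, J a (m b d) (m a b) c),
  (-8, M (M (J a a b b) c) d),
  (8, M (J c b b (m a a)) d),
  (16, J d (m a b) (m a b) c),
  (-16, J d b (m a (m b c)) a),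
  (-8, J b (m b c) (m a a) d),
  (8, M (J d a a c) (m b b)),
  (-16, M (M (J a a b c) d) b),
  (-32, M (J d b (m a c) a) b),
  (16, M (J d c a (m b b)) a),
  (-8, M (J a b b a) (m c d)),
  (16, J c b (m a a) (m b d)),
  (-32, J c (m b d) (m a b) a),
  (16, J d a (m b (m a b)) c),
  (-16, M (J c b (m a b) d) a),
  (-8, J a a (m d (m b c)) b),
  (-4, M (J a a (m b b) c) d),
  (-24, M (J c b b a) (m a d)),
  (-32, M (J c a b d) (m a b)),
  (8, J b b (m a a) (m c d)),
  (-8, M (M (J a a b c) b) d),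
  (-8, M (J c b (m a a) b) d),
  (-16, J a b (m b d) (m a c)),
  (8, M (J a a (m b c) d) b)]

def l2 : List (ℤ × In) := [
  (8, J a a (m b b) (m c d)),
  (8, J b b (m d (m a a)) c),
  (-8, J c b b (m d (m a a))),
  (16, J c a a (m b (m b d))),
  (-32, M (J a a b d) (m b c)),
  (-16, M (J c a a d) (m b b)),
  (8, J b b (m a (m a c)) d),
  (8, M (J a b b d) (m a c)),
  (8, M (M (J c b b a) d) a),
  (-4, M (J d b b c) (m a a)),
  (48, J a (m b d) (m a c) b),
  (8, J c a a (m d (m b b))),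
  (16, M (M (J a b b a) c) d),
  (64, J c a b (m a (m b d))),
  (-16, J a b (m a (m b d)) c),
  (32, M (J d a b c) (m a b)),
  (-8, J a a b (m c (m b d))),
  (8, J d a a (m b (m b c))),
  (-16, J d a b (m a (m b c))),
  (16, M (M (J c a a d) b) b),
  (-32, M (J d b b (m a c)) a),
  (8, M (M (J a a b d) b) c),
  (-16, J c a (m b (m a b)) d),
  (8, M (M (J a a b b) d) c),
  (-4, M (J d a a (m b b)) c),
  (8, M (J d a (m b b) a) c),
  (16, M (J d b (m a b) c) a),
  (-16, M (J c a (m a b) b) d),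
  (-32, J d a (m a b) (m b c)),
  (32, M (M (J c a b a) b) d)]

def l3 : List (ℤ × In) := [
  (8, M (M (J a b b d) c) a),
  (-4, M (J b b (m a a) d) c),
  (-32, J c a (m a (m b d)) b),
  (8, J d a a (m c (m b b))),
  (-32, J d (m a c) (m a b) b),
  (8, J c (m a a) (m b b) d),
  (-12, M (J b b (m a a) c) d),
  (-48, M (J c a b a) (m b d)),
  (-16, J a a (m b d) (m b c)),
  (12, M (J c b b d) (m a a)),
  (-4, M (J d b b (m a a)) c),
  (-8, J d b (m a a) (m b c)),
  (8, M (J d b (m a a) b) c),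
  (64, J d (m b c) (m a b) a),
  (16, M (J a b (m b d) c) a),
  (-16, J c a (m b (m b d)) a),
  (16, M (J a b (m b d) a) c),
  (-16, J d a (m a (m b b)) c),
  (16, J b b (m c (m a d)) a),
  (16, M (M (J d b b c) a) a),
  (-24, M (M (J a b b c) d) a),
  (-32, M (J c a (m a d) b) b),
  (16, M (J d a (m a b) b) c),
  (8, M (J b b (m a d) a) c),
  (32, J d b (m a c) (m a b)),
  (-8, M (J b b (m a c) a) d),
  (8, M (J c a a b) (m b d)),
  (16, M (M (J c b b a) a) d),
  (-8, M (J d b b a) (m a c)),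
  (32, M (J a b b (m a c)) d)]

def l4 : List (ℤ × In) := [
  (-16, M (J c a (m b d) b) a),
  (-16, J c b (m a (m a b)) d),
  (16, M (M (J c a b a) d) b),
  (16, J c b (m a b) (m a d)),
  (-32, J a (m b c) (m a b) d),
  (8, J c b b (m a (m a d))),
  (-8, M (M (J a b b a) d) c),
  (16, J d c (m b (m a a)) b),
  (32, M (J c b (m a d) a) b),
  (-16, M (M (J d a a c) b) b),
  (32, M (J d a b a) (m b c)),
  (-32, J a b b (m d (m a c))),
  (16, M (M (J c a b b) a) d),
  (-16, M (J a b (m a b) c) d),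
  (-16, J d a (m b (m b c)) a),
  (16, M (J a b (m b c) d) a),
  (-16, J d c b (m b (m a a))),
  (-16, M (J a b (m a c) b) d),
  (16, J d b (m a (m a c)) b),
  (-16, M (M (J d a b a) b) c),
  (24, M (J a b b c) (m a d)),
  (8, M (M (J d b b a) c) a),
  (-16, J d b (m a b) (m a c)),
  (8, M (J a a b (m b d)) c),
  (16, M (J c a b (m b d)) a),
  (-48, J a b (m a c) (m b d)),
  (8, J a a (m b c) (m b d)),
  (-16, J b (m a d) (m b c) a),
  (8, J a a (m c (m b d)) b),
  (-16, J c b (m a (m a d)) b)]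

def l5 : List (ℤ × In) := [
  (-8, J d a (m c (m b b)) a)]

/-- all instances -/
def l : List (ℤ × In) := ((l0 ++ (l1 ++ l2)) ++ (l3 ++ (l4 ++ l5)))

/-- the target -/
def t : Po :=
  T2 (Po.mo a) (Po.mo b) (Po.mo c) (Po.mo a) (Po.mo b) * (Po.mo d) - T2 (Po.mo a) (Po.mo b) (Po.mo d) (Po.mo a) (Po.mo b) * (Po.mo c)

theorem ok : chk true 9 4 t l = true := by
  decide +kernel

end Pool.Agent.H.MP_e16c79_al.IS.C3
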