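import Pool.Agent.H.MP_e16c79_al.IS.Polar

/-!
# MP_e16c79_al: derived series, saturation, and the chain step
-/

set_option autoImplicit false

namespace Pool.Agent.H.MP_e16c79_al.IS

section sat

variable {G : Type*} [AddCommGroup G]

/-- saturation -/
def sa (M : ℤ) (I : AddSubgroup G) : AddSubgroup G where
  carrier := {w | ∃ k : ℕ, (M ^ k) • w ∈ I}
  zero_mem' := ⟨0, by simp [I.zero_mem]⟩
  add_mem' := by
    rintro a b ⟨k, hk⟩ ⟨l, hl⟩
    refine ⟨k + l, ?_⟩
    rw [smul_add]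
    refine I.add_mem ?_ ?_
    · rw [pow_add, mul_comm, mul_smul]
      exact I.zsmul_mem hk _
    · rw [pow_add, mul_smul]
      exact I.zsmul_mem hl _
  neg_mem' := by
    rintro a ⟨k, hk⟩
    refine ⟨k, ?_⟩
    rw [smul_neg]
    exact I.neg_mem hk

theorem mem_sa {M : ℤ} {I : AddSubgroup G} {w : G} : w ∈ sa M I ↔ ∃ k : ℕ, (M ^ k) • w ∈ I :=
  Iff.rfl

theorem le_sa (M : ℤ) (I : AddSubgroup G) : I ≤ sa M I := fun w hw => ⟨0, by simpa using hw⟩

theorem sa_of {M : ℤ} {I : AddSubgroup G} {w : G} (h : M • w ∈ sa M I) : w ∈ sa M I := by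
  obtain ⟨k, hk⟩ := h
  refine ⟨k + 1, ?_⟩
  rw [pow_succ, mul_smul]
  exact hk

theorem pow_of {M : ℤ} {I : AddSubgroup G} (hI : ∀ r, M • r ∈ I → r ∈ I) (k : ℕ) :
    ∀ r, (M ^ k) • r ∈ I → r ∈ I := by
  induction k with
  | zero =>
    intro r hr
    simpa using hr
  | succ k ih =>
    intro r hr
    refine hI r (ih _ ?_)
    rw [← mul_smul, ← pow_succ]
    exact hr

theorem sa_le {M : ℤ} {I T : AddSubgroup G} (h : I ≤ T) (hT : ∀ r, M • r ∈ T → r ∈ T) :
    sa M I ≤ T := by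
  rintro w ⟨k, hk⟩
  exact pow_of hT k w (h hk)

end sat

variable {R : Type*} [NonUnitalNonAssocCommRing R]

/-- the derived series of a subring -/
def Dr (C : AddSubgroup R) : ℕ → AddSubgroup R
  | 0 => C
  | i + 1 => AddSubgroup.closure {x | ∃ a ∈ Dr C i, ∃ b ∈ Dr C i, x = a * b}

theorem Dr_mono {C D : AddSubgroup R} (h : C ≤ D) (i : ℕ) : Dr C i ≤ Dr D i := by
  induction i with
  | zero => exact h
  | succ i ih =>
    refine AddSubgroup.closure_mono ?_
    rintro x ⟨a, ha, b, hb, rfl⟩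
    exact ⟨a, ih ha, b, ih hb, rfl⟩

theorem Dr_add (C : AddSubgroup R) (i k : ℕ) : Dr C (i + k) = Dr (Dr C i) k := by
  induction k with
  | zero => rfl
  | succ k ih =>
    show AddSubgroup.closure {x | ∃ a ∈ Dr C (i + k), ∃ b ∈ Dr C (i + k), x = a * b} = _
    rw [ih]
    rfl

theorem Dr_trans {C V W : AddSubgroup R} {i k : ℕ} (h1 : Dr C i ≤ V) (h2 : Dr V k ≤ W) :
    Dr C (i + k) ≤ W := by
  rw [Dr_add]
  exact (Dr_mono h1 k).trans h2

section chain

variable {C V W : AddSubgroup R}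

/-- the multiplication by `c` on `V` -/
def rho0 (hV : ∀ v ∈ V, ∀ c ∈ C, v * c ∈ V) (c : C) : V →+ V where
  toFun v := ⟨v.1 * c.1, hV _ v.2 _ c.2⟩
  map_zero' := by
    ext
    exact zero_mul _
  map_add' := by
    intro a b
    ext
    exact add_mul _ _ _

/-- the multiplication by `c` on `V / W` -/
def rho (hV : ∀ v ∈ V, ∀ c ∈ C, v * c ∈ V) (hW : ∀ v ∈ W, ∀ c ∈ C, v * c ∈ W) :
    C →+ AddMonoid.End (V ⧸ W.addSubgroupOf V) where
  toFun c := QuotientAddGroup.map (W.addSubgroupOf V) (W.addSubgroupOf V) (rho0 hV c) (by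
    intro v hv
    exact hW _ hv _ c.2)
  map_zero' := by
    ext q
    obtain ⟨v, rfl⟩ := QuotientAddGroup.mk_surjective q
    show QuotientAddGroup.mk (rho0 hV 0 v) = 0
    have e : rho0 hV 0 v = 0 := by
      ext
      exact mul_zero _
    rw [e]
    rfl
  map_add' := by
    intro a b
    ext q
    obtain ⟨v, rfl⟩ := QuotientAddGroup.mk_surjective q
    show QuotientAddGroup.mk (rho0 hV (a + b) v) =
      QuotientAddGroup.mk (rho0 hV a v) + QuotientAddGroup.mk (rho0 hV b v)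
    have e : rho0 hV (a + b) v = rho0 hV a v + rho0 hV b v := by
      ext
      exact mul_add _ _ _
    rw [e]
    rfl

theorem rho_mk (hV : ∀ v ∈ V, ∀ c ∈ C, v * c ∈ V) (hW : ∀ v ∈ W, ∀ c ∈ C, v * c ∈ W) (c : C)
    (v : V) : rho hV hW c (QuotientAddGroup.mk v) = QuotientAddGroup.mk (rho0 hV c v) := rfl

theorem mk_eq' {a b : V} (h : a.1 - b.1 ∈ W) :
    (QuotientAddGroup.mk a : V ⧸ W.addSubgroupOf V) = QuotientAddGroup.mk b := by
  rw [QuotientAddGroup.eq]
  have e : ((-a + b : V) : R) = -(a.1 - b.1) := by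
    show -a.1 + b.1 = _
    abel
  show ((-a + b : V) : R) ∈ W
  rw [e]
  exact W.neg_mem h

theorem mk_zero' {a : V} (h : (QuotientAddGroup.mk a : V ⧸ W.addSubgroupOf V) = 0) : a.1 ∈ W := by
  rw [QuotientAddGroup.eq_zero_iff] at h
  exact h

/-- products of `k` elements of `C` applied to `V` -/
def Tk (C V : AddSubgroup R) (k : ℕ) : AddSubgroup R :=
  AddSubgroup.closure {x | ∃ (l : List C) (v : V), l.length = k ∧
    x = l.foldr (fun c y => y * c.1) v.1}

theorem Dr_le_Tk (hVC : V ≤ C) (hC : ∀ a ∈ C, ∀ b ∈ C, a * b ∈ C) (k : ℕ) :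
    Dr V k ≤ Tk C V k := by
  have hD : ∀ k, Dr V k ≤ C := by
    intro k
    induction k with
    | zero => exact hVC
    | succ k ih =>
      refine (AddSubgroup.closure_le _).2 ?_
      rintro x ⟨a, ha, b, hb, rfl⟩
      exact hC _ (ih ha) _ (ih hb)
  induction k with
  | zero =>
    intro v hv
    exact AddSubgroup.subset_closure ⟨[], ⟨v, hv⟩, rfl, rfl⟩
  | succ k ih =>
    refine (AddSubgroup.closure_le _).2 ?_
    rintro x ⟨a, ha, b, hb, rfl⟩
    have hb' := hD k hb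
    refine AddSubgroup.closure_induction (p := fun y _ => y * b ∈ Tk C V (k + 1)) ?_ ?_ ?_ ?_
      (ih ha)
    · rintro y ⟨l, v, hl, rfl⟩
      exact AddSubgroup.subset_closure ⟨⟨b, hb'⟩ :: l, v, by simp [hl], rfl⟩
    · rw [zero_mul]
      exact AddSubgroup.zero_mem _
    · intro y z _ _ h1 h2
      rw [add_mul]
      exact AddSubgroup.add_mem _ h1 h2
    · intro y _ h1
      rw [neg_mul]
      exact AddSubgroup.neg_mem _ h1

/-- The chain step: if `(v f) g - v (f g) ∈ W` and `c ^ n ∈ W`, then `V` is solvable modulo `W`. -/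
theorem chain {n : ℕ} (hn : 1 ≤ n) (hC : ∀ a ∈ C, ∀ b ∈ C, a * b ∈ C) (hVC : V ≤ C)
    (hV : ∀ v ∈ V, ∀ c ∈ C, v * c ∈ V) (hW : ∀ v ∈ W, ∀ c ∈ C, v * c ∈ W)
    (tf : ∀ d : ℕ, 1 ≤ d → d ≤ n → ∀ r ∈ C, (d : ℤ) • r ∈ W → r ∈ W)
    (as : ∀ v ∈ V, ∀ f ∈ C, ∀ g ∈ C, v * f * g - v * (f * g) ∈ W)
    (nil : ∀ c ∈ C, (fun y => c * y)^[n - 1] c ∈ W) : Dr V n ≤ W := by
  refine (Dr_le_Tk hVC hC n).trans ((AddSubgroup.closure_le _).2 ?_)
  rintro x ⟨l, v, hl, rfl⟩
  have hcm : ∀ a b : C, Commute (rho hV hW a) (rho hV hW b) := by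
    intro a b
    show rho hV hW a * rho hV hW b = rho hV hW b * rho hV hW a
    ext q
    obtain ⟨v, rfl⟩ := QuotientAddGroup.mk_surjective q
    show (QuotientAddGroup.mk (rho0 hV a (rho0 hV b v)) : V ⧸ W.addSubgroupOf V) =
      QuotientAddGroup.mk (rho0 hV b (rho0 hV a v))
    refine mk_eq' ?_
    show v.1 * b.1 * a.1 - v.1 * a.1 * b.1 ∈ W
    have h1 := as v.1 v.2 b.1 b.2 a.1 a.2
    have h2 := as v.1 v.2 a.1 a.2 b.1 b.2
    rw [mul_comm b.1 a.1] at h1
    have e : v.1 * b.1 * a.1 - v.1 * a.1 * b.1 = (v.1 * b.1 * a.1 - v.1 * (a.1 * b.1)) -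
        (v.1 * a.1 * b.1 - v.1 * (a.1 * b.1)) := by
      abel
    rw [e]
    exact W.sub_mem h1 h2
  have hpc : ∀ (c : C) (k : ℕ), (fun y => c.1 * y)^[k] c.1 ∈ C := by
    intro c k
    induction k with
    | zero => exact c.2
    | succ k ih =>
      rw [Function.iterate_succ_apply']
      exact hC _ c.2 _ ih
  have hpow : ∀ (c : C) (k : ℕ) (v : V), ((rho hV hW c) ^ (k + 1)) (QuotientAddGroup.mk v) =
      QuotientAddGroup.mk (rho0 hV ⟨(fun y => c.1 * y)^[k] c.1, hpc c k⟩ v) := by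
    intro c k
    induction k with
    | zero =>
      intro v
      rw [zero_add, pow_one]
      rfl
    | succ k ih =>
      intro v
      rw [pow_succ' _ (k + 1)]
      show rho hV hW c (((rho hV hW c) ^ (k + 1)) (QuotientAddGroup.mk v)) = _
      rw [ih, rho_mk]
      refine mk_eq' ?_
      show v.1 * (fun y => c.1 * y)^[k] c.1 * c.1 - v.1 * (fun y => c.1 * y)^[k + 1] c.1 ∈ W
      rw [Function.iterate_succ_apply', mul_comm c.1]
      exact as v.1 v.2 _ (hpc c k) _ c.2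
  have hnil : ∀ c : C, (rho hV hW c) ^ n = 0 := by
    intro c
    obtain ⟨k, rfl⟩ : ∃ k, n = k + 1 := ⟨n - 1, by omega⟩
    ext q
    obtain ⟨v, rfl⟩ := QuotientAddGroup.mk_surjective q
    rw [hpow]
    show QuotientAddGroup.mk _ = (0 : V ⧸ W.addSubgroupOf V)
    rw [QuotientAddGroup.eq_zero_iff]
    show v.1 * (fun y => c.1 * y)^[k] c.1 ∈ W
    rw [mul_comm]
    exact hW _ (nil c.1 c.2) _ (hVC v.2)
  have htf : ∀ d : ℕ, 1 ≤ d → d ≤ n → ∀ r : AddMonoid.End (V ⧸ W.addSubgroupOf V),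
      (d : ℤ) • r = 0 → r = 0 := by
    intro d h1 h2 r hr
    ext q
    have h3 : (d : ℤ) • (r q) = 0 := by
      have := congrArg (fun (f : AddMonoid.End (V ⧸ W.addSubgroupOf V)) => f q) hr
      exact this
    obtain ⟨w, hw⟩ := QuotientAddGroup.mk_surjective (r q)
    rw [← hw] at h3 ⊢
    have h4 : (QuotientAddGroup.mk ((d : ℤ) • w) : V ⧸ W.addSubgroupOf V) = 0 := h3
    have h5 := mk_zero' h4
    have h6 : (d : ℤ) • w.1 ∈ W := h5
    have h7 := tf d h1 h2 _ (hVC w.2) h6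
    show QuotientAddGroup.mk w = (0 : V ⧸ W.addSubgroupOf V)
    rw [QuotientAddGroup.eq_zero_iff]
    exact h7
  have hp := polar (rho hV hW) hcm n htf hnil l 0 (by omega) 0
  rw [pow_zero, one_mul] at hp
  have hfold : ∀ (l : List C) (v : V), (l.map (rho hV hW)).prod (QuotientAddGroup.mk v) =
      QuotientAddGroup.mk (l.foldr (fun c y => rho0 hV c y) v) := by
    intro l
    induction l with
    | nil =>
      intro v
      rfl
    | cons c l ih =>
      intro v
      rw [List.map_cons, List.prod_cons]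
      show rho hV hW c ((l.map (rho hV hW)).prod (QuotientAddGroup.mk v)) = _
      rw [ih]
      rfl
  have hfv : ∀ (l : List C) (v : V), (l.foldr (fun c y => rho0 hV c y) v).1 =
      l.foldr (fun c y => y * c.1) v.1 := by
    intro l v
    induction l with
    | nil => rfl
    | cons c l ih =>
      show (l.foldr (fun c y => rho0 hV c y) v).1 * c.1 = _
      rw [ih]
      rfl
  have h8 := hfold l v
  rw [hp] at h8
  have h9 := mk_zero' (W := W) h8.symm
  rw [hfv] at h9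
  exact h9

end chain

end Pool.Agent.H.MP_e16c79_al.IS
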