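import Pool.Agent.H.MP_e16c79_al.IS.Ops

/-!
# MP_e16c79_al: formal identities between the forms
-/

set_option autoImplicit false

namespace Pool.Agent.H.MP_e16c79_al.IS

section ev

variable {R : Type*} [NonUnitalNonAssocCommRing R] (x : ℕ → R)

theorem ev_asc (a b c : Po) : Po.ev x (asc a b c) = asc (Po.ev x a) (Po.ev x b) (Po.ev x c) := by
  simp only [asc, Po.ev_sub, Po.ev_mul]

theorem ev_U (a b c : Po) : Po.ev x (U a b c) = U (Po.ev x a) (Po.ev x b) (Po.ev x c) := by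
  simp only [U, Po.ev_sub, Po.ev_mul, Po.ev_add]

theorem ev_E1 (a b c d e : Po) : Po.ev x (E1 a b c d e) =
    E1 (Po.ev x a) (Po.ev x b) (Po.ev x c) (Po.ev x d) (Po.ev x e) := by
  simp only [E1, ev_U, ev_asc, Po.ev_add]

theorem ev_T2 (a b c d e : Po) : Po.ev x (T2 a b c d e) =
    T2 (Po.ev x a) (Po.ev x b) (Po.ev x c) (Po.ev x d) (Po.ev x e) := by
  simp only [T2, ev_U, ev_asc, Po.ev_add, Po.ev_sub]

theorem ev_P5 (a b c d e : Po) : Po.ev x (P5 a b c d e) =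
    P5 (Po.ev x a) (Po.ev x b) (Po.ev x c) (Po.ev x d) (Po.ev x e) := by
  simp only [P5, ev_U, ev_asc]

theorem ev_Q5 (a b c d e : Po) : Po.ev x (Q5 a b c d e) =
    Q5 (Po.ev x a) (Po.ev x b) (Po.ev x c) (Po.ev x d) (Po.ev x e) := by
  simp only [Q5, ev_P5, Po.ev_add]

theorem ev_zero {t : Po} (h : t.l.isEmpty = true) : Po.ev x t = 0 := by
  show Po.evL x t.l = 0
  rw [List.isEmpty_iff.1 h]
  rfl

end ev

/-- an assignment -/
def vec {R : Type*} (a b c d e : R) : ℕ → R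
  | 0 => a
  | 1 => b
  | 2 => c
  | 3 => d
  | _ => e

section
variable {A : Type*} [Add A] [Sub A] [Mul A] [SMul ℤ A]

/-- the difference of the two sides of `star` -/
def fStar (a b c d e : A) : A :=
  (8 : ℤ) • U a (asc c d e) b - (Q5 b d e a c - Q5 b c d a e + Q5 a d e b c - Q5 a c d b e +
    ((2 : ℤ) • E1 a b e c d + (4 : ℤ) • E1 a b d c e + (2 : ℤ) • E1 a b c d e) +
    (T2 b d e a c + T2 b c d a e + T2 a d e b c + T2 a c d b e))

/-- the symmetric form of `T2 x y w x y` -/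
def Z5 (x1 x2 y1 y2 w : A) : A :=
  T2 x1 y1 w x2 y2 + T2 x2 y1 w x1 y2 + T2 x1 y2 w x2 y1 + T2 x2 y2 w x1 y1

/-- the difference of the two sides -/
def fT (a c e b d : A) : A :=
  (6 : ℤ) • T2 a c e b d - (Z5 a b c d e + Z5 e b a d c + Z5 c b e d a)

/-- part of the polarisation of `P5 x x x y y` -/
def dP3 (x1 x2 x3 y : A) : A :=
  P5 (x1 + x2 + x3) (x1 + x2 + x3) (x1 + x2 + x3) y y - P5 (x1 + x2) (x1 + x2) (x1 + x2) y y -
    P5 (x1 + x3) (x1 + x3) (x1 + x3) y y - P5 (x2 + x3) (x2 + x3) (x2 + x3) y y +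
    P5 x1 x1 x1 y y + P5 x2 x2 x2 y y + P5 x3 x3 x3 y y

/-- the difference of the two sides -/
def fQ (x1 x2 x3 y1 y2 : A) : A :=
  (2 : ℤ) • Q5 x1 x2 x3 y1 y2 - (dP3 x1 x2 x3 (y1 + y2) - dP3 x1 x2 x3 y1 - dP3 x1 x2 x3 y2)

/-- part of the polarisation of `T2 x y w x y` -/
def dZ2 (x1 x2 y w : A) : A :=
  T2 (x1 + x2) y w (x1 + x2) y - T2 x1 y w x1 y - T2 x2 y w x2 y

/-- the difference of the two sides -/
def fZ (x1 x2 y1 y2 w : A) : A :=
  Z5 x1 x2 y1 y2 w - (dZ2 x1 x2 (y1 + y2) w - dZ2 x1 x2 y1 w - dZ2 x1 x2 y2 w)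

end

variable {R : Type*} [NonUnitalNonAssocCommRing R]

open Po Tm in
theorem fStar_zero (a b c d e : R) : fStar a b c d e = 0 := by
  have h := ev_zero (vec a b c d e) (t := fStar (mo (v 0)) (mo (v 1)) (mo (v 2)) (mo (v 3))
    (mo (v 4))) (by decide +kernel)
  simp only [fStar, Po.ev_add, Po.ev_sub, Po.ev_smul, ev_T2, ev_U, ev_asc, ev_E1, ev_Q5,
    Po.ev_mo] at h
  exact h

open Po Tm in
theorem fT_zero (a b c d e : R) : fT a b c d e = 0 := by
  have h := ev_zero (vec a b c d e) (t := fT (mo (v 0)) (mo (v 1)) (mo (v 2)) (mo (v 3))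
    (mo (v 4))) (by decide +kernel)
  simp only [fT, Z5, Po.ev_add, Po.ev_sub, Po.ev_smul, ev_T2, Po.ev_mo] at h
  exact h

open Po Tm in
theorem fQ_zero (a b c d e : R) : fQ a b c d e = 0 := by
  have h := ev_zero (vec a b c d e) (t := fQ (mo (v 0)) (mo (v 1)) (mo (v 2)) (mo (v 3))
    (mo (v 4))) (by decide +kernel)
  simp only [fQ, dP3, Po.ev_add, Po.ev_sub, Po.ev_smul, ev_P5, ev_Q5, Po.ev_mo] at h
  exact h

open Po Tm in
theorem fZ_zero (a b c d e : R) : fZ a b c d e = 0 := by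
  have h := ev_zero (vec a b c d e) (t := fZ (mo (v 0)) (mo (v 1)) (mo (v 2)) (mo (v 3))
    (mo (v 4))) (by decide +kernel)
  simp only [fZ, Z5, dZ2, Po.ev_add, Po.ev_sub, ev_T2, Po.ev_mo] at h
  exact h

open Po Tm in
/-- the identity for `U` -/
theorem fU_zero (a b c z : R) : U a (z * c) b - U (a * c) z b - U a z (b * c) + U a z b * c -
    (J4 a c z b + J4 b c z a - J4 a b c z) = 0 := by
  have h := ev_zero (vec a b c z z) (t := U (mo (v 0)) (mo (v 3) * mo (v 2)) (mo (v 1)) -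
    U (mo (v 0) * mo (v 2)) (mo (v 3)) (mo (v 1)) - U (mo (v 0)) (mo (v 3)) (mo (v 1) * mo (v 2)) +
    U (mo (v 0)) (mo (v 3)) (mo (v 1)) * mo (v 2) -
    (J4 (mo (v 0)) (mo (v 2)) (mo (v 3)) (mo (v 1)) + J4 (mo (v 1)) (mo (v 2)) (mo (v 3)) (mo (v 0))
      - J4 (mo (v 0)) (mo (v 1)) (mo (v 2)) (mo (v 3)))) (by decide +kernel)
  simp only [J4, Po.ev_add, Po.ev_sub, Po.ev_mul, ev_U, Po.ev_mo] at h
  exact h

end Pool.Agent.H.MP_e16c79_al.IS
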