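import Pool.Agent.H.MP_e16c79_al.IS.Chain
import Pool.Agent.H.MP_e16c79_al.IS.Form
import Pool.Agent.H.MP_e16c79_al.IS.C1
import Pool.Agent.H.MP_e16c79_al.IS.C2
import Pool.Agent.H.MP_e16c79_al.IS.C3
import Pool.Agent.H.MP_e16c79_al.IS.C4

/-!
# MP_e16c79_al: the two identities and nil index `n` imply solvability
-/

set_option autoImplicit false

namespace Pool.Agent.H.MP_e16c79_al.IS

variable {R : Type*} [NonUnitalNonAssocCommRing R]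

/-- `W` is saturated in `C` -/
def Sv (M : ℤ) (C W : AddSubgroup R) : Prop := ∀ r ∈ C, M • r ∈ W → r ∈ W

theorem Sv.pow {M : ℤ} {C W : AddSubgroup R} (h : Sv M C W) (k : ℕ) :
    ∀ r ∈ C, (M ^ k) • r ∈ W → r ∈ W := by
  induction k with
  | zero =>
    intro r _ hr
    simpa using hr
  | succ k ih =>
    intro r hrC hr
    refine h r hrC (ih _ (C.zsmul_mem hrC _) ?_)
    rw [← mul_smul, ← pow_succ]
    exact hr

theorem Sv.dvd {M : ℤ} {C W : AddSubgroup R} (h : Sv M C W) {d : ℤ} {k : ℕ} (hd : d ∣ M ^ k)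
    {r : R} (hrC : r ∈ C) (hr : d • r ∈ W) : r ∈ W := by
  obtain ⟨e, he⟩ := hd
  refine h.pow k r hrC ?_
  rw [he, mul_comm, mul_smul]
  exact W.zsmul_mem hr _

theorem Sv.sub {M : ℤ} {C V W : AddSubgroup R} (_h : Sv M C W) (hVC : V ≤ C) : V ≤ C := hVC

/-- the number -/
def MM (n : ℕ) : ℤ := ((2 * n.factorial : ℕ) : ℤ)

theorem dvd_MM {n : ℕ} (hn : 5 ≤ n) : (30 : ℤ) ∣ MM n := by
  have h1 : (5 : ℕ).factorial ∣ n.factorial := Nat.factorial_dvd_factorial hn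
  have h2 : 30 ∣ 2 * n.factorial := by
    refine dvd_trans ?_ (Nat.mul_dvd_mul_left 2 h1)
    decide
  exact Int.natCast_dvd_natCast.2 h2

theorem dvd_MM' {n : ℕ} (hn : 5 ≤ n) {d : ℤ} {k : ℕ} (hd : d ∣ 30 ^ k) : d ∣ (MM n) ^ k :=
  hd.trans (pow_dvd_pow_of_dvd (dvd_MM hn) k)

theorem small_MM {n d : ℕ} (h1 : 1 ≤ d) (h2 : d ≤ n) : (d : ℤ) ∣ MM n := by
  have h3 : d ∣ 2 * n.factorial := (Nat.dvd_factorial h1 h2).trans (Nat.dvd_mul_left _ _)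
  exact Int.natCast_dvd_natCast.2 h3

section mem

variable {C : AddSubgroup R} (hC : ∀ a ∈ C, ∀ b ∈ C, a * b ∈ C)
include hC

theorem asc_mem {a b c : R} (ha : a ∈ C) (hb : b ∈ C) (hc : c ∈ C) : asc a b c ∈ C :=
  C.sub_mem (hC _ (hC _ ha _ hb) _ hc) (hC _ ha _ (hC _ hb _ hc))

theorem U_mem {a b c : R} (ha : a ∈ C) (hb : b ∈ C) (hc : c ∈ C) : U a b c ∈ C :=
  C.sub_mem (C.add_mem (hC _ ha _ (hC _ hc _ hb)) (hC _ hc _ (hC _ ha _ hb)))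
    (hC _ (hC _ ha _ hc) _ hb)

theorem P5_mem {a b c d e : R} (ha : a ∈ C) (hb : b ∈ C) (hc : c ∈ C) (hd : d ∈ C) (he : e ∈ C) :
    P5 a b c d e ∈ C := U_mem hC ha (asc_mem hC hb hd he) hc

theorem Q5_mem {a b c d e : R} (ha : a ∈ C) (hb : b ∈ C) (hc : c ∈ C) (hd : d ∈ C) (he : e ∈ C) :
    Q5 a b c d e ∈ C :=
  C.add_mem (C.add_mem (C.add_mem (P5_mem hC ha hb hc hd he) (P5_mem hC hb hc ha hd he))
    (P5_mem hC hc ha hb hd he)) (C.add_mem (C.add_mem (P5_mem hC ha hb hc he hd)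
    (P5_mem hC hb hc ha he hd)) (P5_mem hC hc ha hb he hd))

theorem T2_mem {a c e b d : R} (ha : a ∈ C) (hc : c ∈ C) (he : e ∈ C) (hb : b ∈ C) (hd : d ∈ C) :
    T2 a c e b d ∈ C :=
  C.add_mem (C.add_mem
    (C.sub_mem (U_mem hC ha (asc_mem hC hc hd he) hb) (U_mem hC ha (asc_mem hC hc hb he) hd))
    (C.sub_mem (U_mem hC hc (asc_mem hC he hd ha) hb) (U_mem hC hc (asc_mem hC he hb ha) hd)))
    (C.sub_mem (U_mem hC he (asc_mem hC ha hd hc) hb) (U_mem hC he (asc_mem hC ha hb hc) hd))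

end mem

variable {n : ℕ} {C N : AddSubgroup R}

/-- the span of the values of the form of degree five -/
def G0 (C N : AddSubgroup R) : AddSubgroup R :=
  N ⊔ AddSubgroup.closure {r | ∃ x ∈ C, ∃ y ∈ C, r = P5 x x x y y}

/-- its saturation in `C` -/
def V0 (n : ℕ) (C N : AddSubgroup R) : AddSubgroup R := C ⊓ sa (MM n) (G0 C N)

theorem G0_ind {p : R → Prop} (hN : ∀ r ∈ N, p r) (hP : ∀ x ∈ C, ∀ y ∈ C, p (P5 x x x y y))
    (hadd : ∀ a b, p a → p b → p (a + b)) (hneg : ∀ a, p a → p (-a)) (h0 : p 0) :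
    ∀ r ∈ G0 C N, p r := by
  intro r hr
  obtain ⟨a, ha, b, hb, rfl⟩ := AddSubgroup.mem_sup.1 hr
  refine hadd _ _ (hN a ha) ?_
  refine AddSubgroup.closure_induction (p := fun y _ => p y) ?_ h0 (fun a b _ _ h1 h2 =>
    hadd a b h1 h2) (fun a _ h1 => hneg a h1) hb
  rintro y ⟨x, hx, y', hy', rfl⟩
  exact hP x hx y' hy'

namespace Co

variable (h : Co n C N)
include h

theorem st : Sv (MM n) C N := h.tf

theorem N_le_V0 : N ≤ V0 n C N := fun r hr => ⟨h.le hr, le_sa _ _ (AddSubgroup.mem_sup_left hr)⟩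

theorem V0_le : V0 n C N ≤ C := fun _ hr => hr.1

theorem G0_le : G0 C N ≤ C := by
  intro r hr
  exact G0_ind (p := fun r => r ∈ C) (fun r hr => h.le hr)
    (fun x hx y hy => P5_mem h.sub hx hx hx hy hy) (fun a b h1 h2 => C.add_mem h1 h2)
    (fun a h1 => C.neg_mem h1) C.zero_mem r hr

theorem G0_le_V0 : G0 C N ≤ V0 n C N := fun r hr => ⟨h.G0_le hr, le_sa _ _ hr⟩

theorem V0_st : Sv (MM n) C (V0 n C N) := fun r hrC hr => ⟨hrC, sa_of hr.2⟩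

theorem P_mem {x y : R} (hx : x ∈ C) (hy : y ∈ C) : P5 x x x y y ∈ V0 n C N :=
  h.G0_le_V0 (AddSubgroup.mem_sup_right (AddSubgroup.subset_closure ⟨x, hx, y, hy, rfl⟩))

theorem Q_mem (hn : 5 ≤ n) {a b c d e : R} (ha : a ∈ C) (hb : b ∈ C) (hc : c ∈ C) (hd : d ∈ C)
    (he : e ∈ C) : Q5 a b c d e ∈ V0 n C N := by
  have h2 : (2 : ℤ) ∣ (MM n) ^ 1 := dvd_MM' hn (by norm_num)
  refine h.V0_st.dvd h2 (Q5_mem h.sub ha hb hc hd he) ?_
  have e1 := fQ_zero a b c d e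
  rw [fQ, sub_eq_zero] at e1
  rw [e1]
  have hab := C.add_mem ha hb
  have hac := C.add_mem ha hc
  have hbc := C.add_mem hb hc
  have habc := C.add_mem hab hc
  have hdP : ∀ y ∈ C, dP3 a b c y ∈ V0 n C N := by
    intro y hy
    exact AddSubgroup.add_mem _ (AddSubgroup.add_mem _ (AddSubgroup.add_mem _
      (AddSubgroup.sub_mem _ (AddSubgroup.sub_mem _ (AddSubgroup.sub_mem _
        (h.P_mem habc hy) (h.P_mem hab hy)) (h.P_mem hac hy)) (h.P_mem hbc hy))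
      (h.P_mem ha hy)) (h.P_mem hb hy)) (h.P_mem hc hy)
  exact AddSubgroup.sub_mem _ (AddSubgroup.sub_mem _ (hdP _ (C.add_mem hd he)) (hdP _ hd))
    (hdP _ he)

theorem vec_mem {a b c d e : R} (ha : a ∈ C) (hb : b ∈ C) (hc : c ∈ C) (hd : d ∈ C)
    (he : e ∈ C) (i : ℕ) : vec a b c d e i ∈ C := by
  match i with
  | 0 => exact ha
  | 1 => exact hb
  | 2 => exact hc
  | 3 => exact hd
  | (_ + 4) => exact he

theorem c1 {x y f : R} (hx : x ∈ C) (hy : y ∈ C) (hf : f ∈ C) :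
    (24 : ℤ) • ((2 : ℤ) • (P5 x x x y y * f) + (50 : ℤ) • Q5 x y y (f * x) x -
      (38 : ℤ) • Q5 x y y (x * x) f - (13 : ℤ) • Q5 f y y (x * x) x) ∈ N := by
  have h1 := h.chk_mem (h.vec_mem hx hy hf hf hf) (fun hb => absurd hb (by decide)) C1.ok
  simp only [C1.t, C1.a, C1.b, C1.c, Po.ev_add, Po.ev_sub, Po.ev_smul, Po.ev_mul, ev_P5, ev_Q5,
    Po.ev_mo] at h1
  exact h1

theorem c2 {x y f g : R} (hx : x ∈ C) (hy : y ∈ C) (hf : f ∈ C) (hg : g ∈ C) :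
    (99532800000 : ℤ) • (P5 x x x y y * f * g - P5 x x x y y * (f * g)) ∈ N := by
  have h1 := h.chk_mem (h.vec_mem hx hy hf hg hf) (fun hb => absurd hb (by decide)) C2.ok
  simp only [C2.t, C2.a, C2.b, C2.c, C2.d, Po.ev_sub, Po.ev_mul, ev_P5, Po.ev_mo] at h1
  exact h1

theorem mul_V0 (hn : 5 ≤ n) : ∀ v ∈ V0 n C N, ∀ c ∈ C, v * c ∈ V0 n C N := by
  have h1 : ∀ c ∈ C, ∀ v ∈ G0 C N, v * c ∈ V0 n C N := by
    intro c hc
    refine G0_ind (p := fun v => v * c ∈ V0 n C N) (fun r hr => h.N_le_V0 (h.idl r hr c hc)) ?_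
      (fun a b h1 h2 => ?_) (fun a h1 => ?_) ?_
    · intro x hx y hy
      have hxc := h.sub _ hc _ hx
      have hxx := h.sub _ hx _ hx
      have h24 : (24 : ℤ) ∣ (MM n) ^ 3 := dvd_MM' hn (by norm_num)
      have h2 : (2 : ℤ) ∣ (MM n) ^ 1 := dvd_MM' hn (by norm_num)
      have hP := h.sub _ (P5_mem h.sub hx hx hx hy hy) _ hc
      have q1 := h.Q_mem hn hx hy hy hxc hx
      have q2 := h.Q_mem hn hx hy hy hxx hc
      have q3 := h.Q_mem hn hc hy hy hxx hx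
      have e1 := h.V0_st.dvd h24 (C.sub_mem (C.sub_mem (C.add_mem (C.zsmul_mem hP 2)
        (C.zsmul_mem (h.V0_le q1) 50)) (C.zsmul_mem (h.V0_le q2) 38))
        (C.zsmul_mem (h.V0_le q3) 13)) (h.N_le_V0 (h.c1 hx hy hc))
      refine h.V0_st.dvd h2 hP ?_
      have e2 : (2 : ℤ) • (P5 x x x y y * c) = ((2 : ℤ) • (P5 x x x y y * c) +
          (50 : ℤ) • Q5 x y y (c * x) x - (38 : ℤ) • Q5 x y y (x * x) c -
          (13 : ℤ) • Q5 c y y (x * x) x) - (50 : ℤ) • Q5 x y y (c * x) x +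
          (38 : ℤ) • Q5 x y y (x * x) c + (13 : ℤ) • Q5 c y y (x * x) x := by
        abel
      rw [e2]
      exact AddSubgroup.add_mem _ (AddSubgroup.add_mem _ (AddSubgroup.sub_mem _ e1
        (AddSubgroup.zsmul_mem _ q1 50)) (AddSubgroup.zsmul_mem _ q2 38))
        (AddSubgroup.zsmul_mem _ q3 13)
    · rw [add_mul]
      exact AddSubgroup.add_mem _ h1 h2
    · rw [neg_mul]
      exact AddSubgroup.neg_mem _ h1
    · rw [zero_mul]
      exact AddSubgroup.zero_mem _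
  rintro v ⟨hvC, k, hk⟩ c hc
  refine h.V0_st.pow k _ (h.sub v hvC c hc) ?_
  rw [← smul_mul_assoc]
  exact h1 c hc _ hk

theorem as_V0 (hn : 5 ≤ n) : ∀ v ∈ V0 n C N, ∀ f ∈ C, ∀ g ∈ C, v * f * g - v * (f * g) ∈ N := by
  intro v hv f hf g hg
  have h1 : ∀ v ∈ G0 C N, v * f * g - v * (f * g) ∈ N := by
    refine G0_ind (p := fun v => v * f * g - v * (f * g) ∈ N) (fun r hr => ?_) ?_
      (fun a b h1 h2 => ?_) (fun a h1 => ?_) ?_
    · exact N.sub_mem (h.idl _ (h.idl r hr f hf) g hg) (h.idl r hr _ (h.sub f hf g hg))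
    · intro x hx y hy
      have hd : (99532800000 : ℤ) ∣ (MM n) ^ 17 := dvd_MM' hn (by norm_num)
      have hP := P5_mem h.sub hx hx hx hy hy
      exact h.st.dvd hd (C.sub_mem (h.sub _ (h.sub _ hP _ hf) _ hg)
        (h.sub _ hP _ (h.sub _ hf _ hg))) (h.c2 hx hy hf hg)
    · have e : (a + b) * f * g - (a + b) * (f * g) =
          (a * f * g - a * (f * g)) + (b * f * g - b * (f * g)) := by
        rw [add_mul, add_mul, add_mul]
        abel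
      rw [e]
      exact N.add_mem h1 h2
    · have e : -a * f * g - -a * (f * g) = -(a * f * g - a * (f * g)) := by
        rw [neg_mul, neg_mul, neg_mul]
        abel
      rw [e]
      exact N.neg_mem h1
    · rw [zero_mul, zero_mul, zero_mul, sub_zero]
      exact N.zero_mem
  obtain ⟨hvC, k, hk⟩ := hv
  refine h.st.pow k _ (C.sub_mem (h.sub _ (h.sub _ hvC _ hf) _ hg)
    (h.sub _ hvC _ (h.sub _ hf _ hg))) ?_
  have e := h1 _ hk
  rw [smul_mul_assoc, smul_mul_assoc, smul_mul_assoc, ← smul_sub] at e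
  exact e

/-- the data modulo the values of the form -/
theorem co0 (hn : 5 ≤ n) : Co n C (V0 n C N) where
  le := h.V0_le
  sub := h.sub
  idl := h.mul_V0 hn
  tf := h.V0_st
  jor a ha b hb c hc y hy := h.N_le_V0 (h.jor a ha b hb c hc y hy)
  nil c hc := h.N_le_V0 (h.nil c hc)
  e1 a ha b hb c hc y hy z hz := h.N_le_V0 (h.e1 a ha b hb c hc y hy z hz)
  v5 a ha b hb c hc y hy z hz := h.N_le_V0 (h.v5 a ha b hb c hc y hy z hz)

theorem c3 (hn : 5 ≤ n) {x y w f : R} (hx : x ∈ C) (hy : y ∈ C) (hw : w ∈ C) (hf : f ∈ C) :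
    (4 : ℤ) • (T2 x y w x y * f - T2 x y f x y * w) ∈ V0 n C N := by
  have h1 := (h.co0 hn).chk_mem (h.vec_mem hx hy hw hf hf)
    (fun _ a ha b hb c hc d hd e he => h.Q_mem hn ha hb hc hd he) C3.ok
  simp only [C3.t, C3.a, C3.b, C3.c, C3.d, Po.ev_sub, Po.ev_mul, ev_T2, Po.ev_mo] at h1
  exact h1

theorem c4 (hn : 5 ≤ n) {x y w g : R} (hx : x ∈ C) (hy : y ∈ C) (hw : w ∈ C) (hg : g ∈ C) :
    (384000000 : ℤ) • (T2 x y w x y * w * g) ∈ V0 n C N := by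
  have h1 := (h.co0 hn).chk_mem (h.vec_mem hx hy hw hg hg)
    (fun _ a ha b hb c hc d hd e he => h.Q_mem hn ha hb hc hd he) C4.ok
  simp only [C4.t, C4.a, C4.b, C4.c, C4.d, Po.ev_mul, ev_T2, Po.ev_mo] at h1
  exact h1

end Co

open Po Tm in
theorem fL_zero (x y w f : R) : T2 x y (w + f) x y - (T2 x y w x y + T2 x y f x y) = 0 := by
  have h := ev_zero (vec x y w f f) (t := T2 (mo (v 0)) (mo (v 1)) (mo (v 2) + mo (v 3)) (mo (v 0))
    (mo (v 1)) - (T2 (mo (v 0)) (mo (v 1)) (mo (v 2)) (mo (v 0)) (mo (v 1)) +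
    T2 (mo (v 0)) (mo (v 1)) (mo (v 3)) (mo (v 0)) (mo (v 1)))) (by decide +kernel)
  simp only [Po.ev_add, Po.ev_sub, ev_T2, Po.ev_mo] at h
  exact h

/-- elements whose products with two factors are in `V0` -/
def S2 (C V : AddSubgroup R) : AddSubgroup R where
  carrier := {z | z ∈ C ∧ ∀ f ∈ C, ∀ g ∈ C, z * f * g ∈ V}
  zero_mem' := ⟨C.zero_mem, fun f _ g _ => by
    rw [zero_mul, zero_mul]
    exact V.zero_mem⟩
  add_mem' := by
    rintro a b ⟨ha, ha'⟩ ⟨hb, hb'⟩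
    refine ⟨C.add_mem ha hb, fun f hf g hg => ?_⟩
    rw [add_mul, add_mul]
    exact V.add_mem (ha' f hf g hg) (hb' f hf g hg)
  neg_mem' := by
    rintro a ⟨ha, ha'⟩
    refine ⟨C.neg_mem ha, fun f hf g hg => ?_⟩
    rw [neg_mul, neg_mul]
    exact V.neg_mem (ha' f hf g hg)

/-- elements `z` with `U a z b ∈ S` -/
def M0 (C S : AddSubgroup R) : AddSubgroup R where
  carrier := {z | z ∈ C ∧ ∀ a ∈ C, ∀ b ∈ C, U a z b ∈ S}
  zero_mem' := ⟨C.zero_mem, fun f _ g _ => by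
    have e : U f 0 g = 0 := by simp [U]
    rw [e]
    exact S.zero_mem⟩
  add_mem' := by
    rintro a b ⟨ha, ha'⟩ ⟨hb, hb'⟩
    refine ⟨C.add_mem ha hb, fun f hf g hg => ?_⟩
    have e : U f (a + b) g = U f a g + U f b g := by
      simp only [U, mul_add]
      abel
    rw [e]
    exact S.add_mem (ha' f hf g hg) (hb' f hf g hg)
  neg_mem' := by
    rintro a ⟨ha, ha'⟩
    refine ⟨C.neg_mem ha, fun f hf g hg => ?_⟩
    have e : U f (-a) g = -U f a g := by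
      simp only [U, mul_neg]
      abel
    rw [e]
    exact S.neg_mem (ha' f hf g hg)

namespace Co

variable (h : Co n C N)
include h

theorem zz_mem (hn : 5 ≤ n) {x y w : R} (hx : x ∈ C) (hy : y ∈ C) (hw : w ∈ C) :
    T2 x y w x y ∈ S2 C (V0 n C N) := by
  refine ⟨T2_mem h.sub hx hy hw hx hy, fun f hf g hg => ?_⟩
  have hd : (384000000 : ℤ) ∣ (MM n) ^ 14 := dvd_MM' hn (by norm_num)
  have h2 : (2 : ℤ) ∣ (MM n) ^ 1 := dvd_MM' hn (by norm_num)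
  have h4 : (4 : ℤ) ∣ (MM n) ^ 2 := dvd_MM' hn (by norm_num)
  have hT : ∀ w ∈ C, T2 x y w x y ∈ C := fun w hw => T2_mem h.sub hx hy hw hx hy
  have k1 : ∀ w ∈ C, T2 x y w x y * w * g ∈ V0 n C N := fun w hw =>
    h.V0_st.dvd hd (h.sub _ (h.sub _ (hT w hw) _ hw) _ hg) (h.c4 hn hx hy hw hg)
  have k2 : (T2 x y w x y * f - T2 x y f x y * w) * g ∈ V0 n C N := by
    refine h.mul_V0 hn _ (h.V0_st.dvd h4 ?_ (h.c3 hn hx hy hw hf)) _ hg
    exact C.sub_mem (h.sub _ (hT w hw) _ hf) (h.sub _ (hT f hf) _ hw)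
  have hwf := C.add_mem hw hf
  have k3 := k1 _ hwf
  have k4 := k1 _ hw
  have k5 := k1 _ hf
  have e1 : T2 x y (w + f) x y = T2 x y w x y + T2 x y f x y := sub_eq_zero.1 (fL_zero x y w f)
  rw [e1] at k3
  refine h.V0_st.dvd h2 (h.sub _ (h.sub _ (hT w hw) _ hf) _ hg) ?_
  have e2 : (2 : ℤ) • (T2 x y w x y * f * g) =
      (T2 x y w x y + T2 x y f x y) * (w + f) * g - T2 x y w x y * w * g -
      T2 x y f x y * f * g + (T2 x y w x y * f - T2 x y f x y * w) * g := by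
    generalize T2 x y w x y = p
    generalize T2 x y f x y = q
    rw [add_mul, mul_add, mul_add, sub_mul, add_mul, add_mul, add_mul]
    abel
  rw [e2]
  exact AddSubgroup.add_mem _ (AddSubgroup.sub_mem _ (AddSubgroup.sub_mem _ k3 k4) k5) k2

theorem S2_st (hn : 5 ≤ n) : Sv (MM n) C (S2 C (V0 n C N)) := by
  rintro r hrC ⟨-, hr⟩
  refine ⟨hrC, fun f hf g hg => ?_⟩
  have e := hr f hf g hg
  rw [smul_mul_assoc, smul_mul_assoc] at e
  exact h.V0_st _ (h.sub _ (h.sub _ hrC _ hf) _ hg) e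

theorem V0_le_S2 (hn : 5 ≤ n) : V0 n C N ≤ S2 C (V0 n C N) := fun v hv =>
  ⟨h.V0_le hv, fun f hf g hg => h.mul_V0 hn _ (h.mul_V0 hn v hv f hf) g hg⟩

theorem mul_S2 (hn : 5 ≤ n) : ∀ v ∈ S2 C (V0 n C N), ∀ c ∈ C, v * c ∈ S2 C (V0 n C N) := by
  rintro v ⟨hvC, hv⟩ c hc
  exact ⟨h.sub _ hvC _ hc, fun f hf g hg => h.mul_V0 hn _ (hv c hc f hf) g hg⟩

theorem T_mem (hn : 5 ≤ n) {a c e b d : R} (ha : a ∈ C) (hc : c ∈ C) (he : e ∈ C) (hb : b ∈ C)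
    (hd : d ∈ C) : T2 a c e b d ∈ S2 C (V0 n C N) := by
  have hZ2 : ∀ x1 ∈ C, ∀ x2 ∈ C, ∀ y ∈ C, ∀ w ∈ C, dZ2 x1 x2 y w ∈ S2 C (V0 n C N) := by
    intro x1 hx1 x2 hx2 y hy w hw
    exact AddSubgroup.sub_mem _ (AddSubgroup.sub_mem _ (h.zz_mem hn (C.add_mem hx1 hx2) hy hw)
      (h.zz_mem hn hx1 hy hw)) (h.zz_mem hn hx2 hy hw)
  have hZ5 : ∀ x1 ∈ C, ∀ x2 ∈ C, ∀ y1 ∈ C, ∀ y2 ∈ C, ∀ w ∈ C,
      Z5 x1 x2 y1 y2 w ∈ S2 C (V0 n C N) := by
    intro x1 hx1 x2 hx2 y1 hy1 y2 hy2 w hw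
    have e1 := fZ_zero x1 x2 y1 y2 w
    rw [fZ, sub_eq_zero] at e1
    rw [e1]
    exact AddSubgroup.sub_mem _ (AddSubgroup.sub_mem _ (hZ2 _ hx1 _ hx2 _ (C.add_mem hy1 hy2) _ hw)
      (hZ2 _ hx1 _ hx2 _ hy1 _ hw)) (hZ2 _ hx1 _ hx2 _ hy2 _ hw)
  have h6 : (6 : ℤ) ∣ (MM n) ^ 1 := dvd_MM' hn (by norm_num)
  refine (h.S2_st hn).dvd h6 (T2_mem h.sub ha hc he hb hd) ?_
  have e1 := fT_zero a c e b d
  rw [fT, sub_eq_zero] at e1
  rw [e1]
  exact AddSubgroup.add_mem _ (AddSubgroup.add_mem _ (hZ5 _ ha _ hb _ hc _ hd _ he)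
    (hZ5 _ he _ hb _ ha _ hd _ hc)) (hZ5 _ hc _ hb _ he _ hd _ ha)

theorem star_mem (hn : 5 ≤ n) {a b c d e : R} (ha : a ∈ C) (hb : b ∈ C) (hc : c ∈ C) (hd : d ∈ C)
    (he : e ∈ C) : U a (asc c d e) b ∈ S2 C (V0 n C N) := by
  have h8 : (8 : ℤ) ∣ (MM n) ^ 3 := dvd_MM' hn (by norm_num)
  refine (h.S2_st hn).dvd h8 (U_mem h.sub ha (asc_mem h.sub hc hd he) hb) ?_
  have e1 := fStar_zero a b c d e
  rw [fStar, sub_eq_zero] at e1
  rw [e1]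
  have hQ : ∀ x1 ∈ C, ∀ x2 ∈ C, ∀ x3 ∈ C, ∀ y1 ∈ C, ∀ y2 ∈ C,
      Q5 x1 x2 x3 y1 y2 ∈ S2 C (V0 n C N) := fun x1 h1 x2 h2 x3 h3 y1 h4 y2 h5 =>
    h.V0_le_S2 hn (h.Q_mem hn h1 h2 h3 h4 h5)
  have hE : ∀ x1 ∈ C, ∀ x2 ∈ C, ∀ x3 ∈ C, ∀ y1 ∈ C, ∀ y2 ∈ C,
      E1 x1 x2 x3 y1 y2 ∈ S2 C (V0 n C N) := fun x1 h1 x2 h2 x3 h3 y1 h4 y2 h5 =>
    h.V0_le_S2 hn (h.N_le_V0 (h.e1 x1 h1 x2 h2 x3 h3 y1 h4 y2 h5))
  refine AddSubgroup.add_mem _ (AddSubgroup.add_mem _ (AddSubgroup.sub_mem _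
    (AddSubgroup.add_mem _ (AddSubgroup.sub_mem _ (hQ _ hb _ hd _ he _ ha _ hc)
    (hQ _ hb _ hc _ hd _ ha _ he)) (hQ _ ha _ hd _ he _ hb _ hc)) (hQ _ ha _ hc _ hd _ hb _ he))
    ?_) ?_
  · exact AddSubgroup.add_mem _ (AddSubgroup.add_mem _
      (AddSubgroup.zsmul_mem _ (hE _ ha _ hb _ he _ hc _ hd) 2)
      (AddSubgroup.zsmul_mem _ (hE _ ha _ hb _ hd _ hc _ he) 4))
      (AddSubgroup.zsmul_mem _ (hE _ ha _ hb _ hc _ hd _ he) 2)
  · exact AddSubgroup.add_mem _ (AddSubgroup.add_mem _ (AddSubgroup.add_mem _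
      (h.T_mem hn hb hd he ha hc) (h.T_mem hn hb hc hd ha he)) (h.T_mem hn ha hd he hb hc))
      (h.T_mem hn ha hc hd hb he)

theorem mul_M0 (hn : 5 ≤ n) : ∀ v ∈ M0 C (S2 C (V0 n C N)), ∀ c ∈ C,
    v * c ∈ M0 C (S2 C (V0 n C N)) := by
  rintro z ⟨hzC, hz⟩ c hc
  refine ⟨h.sub _ hzC _ hc, fun a ha b hb => ?_⟩
  have e1 := fU_zero a b c z
  have e2 : U a (z * c) b = U (a * c) z b + U a z (b * c) - U a z b * c +
      (J4 a c z b + J4 b c z a - J4 a b c z) := by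
    have e3 : U a (z * c) b - (U (a * c) z b + U a z (b * c) - U a z b * c +
      (J4 a c z b + J4 b c z a - J4 a b c z)) = 0 := by
      rw [← e1]
      abel
    exact sub_eq_zero.1 e3
  rw [e2]
  have hJ : ∀ a ∈ C, ∀ b ∈ C, ∀ c ∈ C, ∀ y ∈ C, J4 a b c y ∈ S2 C (V0 n C N) :=
    fun a ha b hb c hc y hy => h.V0_le_S2 hn (h.N_le_V0 (h.jor a ha b hb c hc y hy))
  exact AddSubgroup.add_mem _ (AddSubgroup.sub_mem _ (AddSubgroup.add_mem _
    (hz _ (h.sub _ ha _ hc) _ hb) (hz _ ha _ (h.sub _ hb _ hc)))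
    (h.mul_S2 hn _ (hz _ ha _ hb) _ hc)) (AddSubgroup.sub_mem _ (AddSubgroup.add_mem _
    (hJ _ ha _ hc _ hzC _ hb) (hJ _ hb _ hc _ hzC _ ha)) (hJ _ ha _ hb _ hc _ hzC))

theorem S2_le_M0 (hn : 5 ≤ n) : S2 C (V0 n C N) ≤ M0 C (S2 C (V0 n C N)) := by
  intro z hz
  have h1 : ∀ a ∈ C, ∀ v ∈ S2 C (V0 n C N), a * v ∈ S2 C (V0 n C N) := by
    intro a ha v hv
    rw [mul_comm]
    exact h.mul_S2 hn v hv a ha
  exact ⟨hz.1, fun a ha b hb => AddSubgroup.sub_mem _ (AddSubgroup.add_mem _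
    (h1 _ ha _ (h1 _ hb _ hz)) (h1 _ hb _ (h1 _ ha _ hz))) (h1 _ (h.sub _ ha _ hb) _ hz)⟩

theorem M0_st (hn : 5 ≤ n) : Sv (MM n) C (M0 C (S2 C (V0 n C N))) := by
  rintro r hrC ⟨-, hr⟩
  refine ⟨hrC, fun a ha b hb => ?_⟩
  have e := hr a ha b hb
  have e1 : U a (MM n • r) b = MM n • U a r b := by
    simp only [U, mul_smul_comm, smul_add, smul_sub]
  rw [e1] at e
  exact h.S2_st hn _ (U_mem h.sub ha hrC hb) e

/-- The ring is solvable modulo `N`. -/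
theorem solv (hn : 5 ≤ n) : Dr C (2 * n + 4) ≤ N := by
  have d1 : Dr (V0 n C N) n ≤ N := by
    refine chain (C := C) (by omega) h.sub h.V0_le (h.mul_V0 hn) h.idl ?_ (h.as_V0 hn) h.nil
    intro d h1 h2 r hr hd
    exact h.st.dvd (k := 1) (by rw [pow_one]; exact small_MM h1 h2) hr hd
  have d2 : Dr (S2 C (V0 n C N)) 2 ≤ V0 n C N := by
    refine (AddSubgroup.closure_le _).2 ?_
    rintro x ⟨a, ha, b, hb, rfl⟩
    have hD1 : ∀ v ∈ Dr (S2 C (V0 n C N)) 1, v ∈ C ∧ ∀ g ∈ C, v * g ∈ V0 n C N := by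
      intro v hv
      refine AddSubgroup.closure_induction (p := fun v _ => v ∈ C ∧ ∀ g ∈ C, v * g ∈ V0 n C N)
        ?_ ?_ ?_ ?_ hv
      · rintro y ⟨z, hz, w, hw, rfl⟩
        exact ⟨h.sub _ hz.1 _ hw.1, fun g hg => hz.2 w hw.1 g hg⟩
      · exact ⟨C.zero_mem, fun g _ => by
          rw [zero_mul]
          exact AddSubgroup.zero_mem _⟩
      · rintro y z _ _ ⟨h1, h2⟩ ⟨h3, h4⟩
        refine ⟨C.add_mem h1 h3, fun g hg => ?_⟩
        rw [add_mul]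
        exact AddSubgroup.add_mem _ (h2 g hg) (h4 g hg)
      · rintro y _ ⟨h1, h2⟩
        refine ⟨C.neg_mem h1, fun g hg => ?_⟩
        rw [neg_mul]
        exact AddSubgroup.neg_mem _ (h2 g hg)
    exact (hD1 a ha).2 b (hD1 b hb).1
  have d3 : Dr (M0 C (S2 C (V0 n C N))) 2 ≤ S2 C (V0 n C N) := by
    refine (AddSubgroup.closure_le _).2 ?_
    rintro x ⟨a, ha, b, hb, rfl⟩
    have hD1 : ∀ v ∈ Dr (M0 C (S2 C (V0 n C N))) 1, v ∈ C ∧ ∀ g ∈ C, g * v ∈ S2 C (V0 n C N) := by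
      intro v hv
      refine AddSubgroup.closure_induction
        (p := fun v _ => v ∈ C ∧ ∀ g ∈ C, g * v ∈ S2 C (V0 n C N)) ?_ ?_ ?_ ?_ hv
      · rintro y ⟨z, hz, w, hw, rfl⟩
        refine ⟨h.sub _ hz.1 _ hw.1, fun g hg => ?_⟩
        have h2 : (2 : ℤ) ∣ (MM n) ^ 1 := dvd_MM' hn (by norm_num)
        refine (h.S2_st hn).dvd h2 (h.sub _ hg _ (h.sub _ hz.1 _ hw.1)) ?_
        have e : (2 : ℤ) • (g * (z * w)) = U g w z + U g z w := by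
          rw [U, U, mul_comm w z, mul_comm w (g * z), mul_comm z (g * w)]
          rw [two_smul]
          abel
        rw [e]
        exact AddSubgroup.add_mem _ (hw.2 g hg z hz.1) (hz.2 g hg w hw.1)
      · exact ⟨C.zero_mem, fun g _ => by
          rw [mul_zero]
          exact AddSubgroup.zero_mem _⟩
      · rintro y z _ _ ⟨h1, h2⟩ ⟨h3, h4⟩
        refine ⟨C.add_mem h1 h3, fun g hg => ?_⟩
        rw [mul_add]
        exact AddSubgroup.add_mem _ (h2 g hg) (h4 g hg)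
      · rintro y _ ⟨h1, h2⟩
        refine ⟨C.neg_mem h1, fun g hg => ?_⟩
        rw [mul_neg]
        exact AddSubgroup.neg_mem _ (h2 g hg)
    exact (hD1 b hb).2 a (hD1 a ha).1
  have d4 : Dr C n ≤ M0 C (S2 C (V0 n C N)) := by
    refine chain (C := C) (V := C) (by omega) h.sub le_rfl h.sub (h.mul_M0 hn) ?_ ?_ ?_
    · intro d h1 h2 r hr hd
      exact (h.M0_st hn).dvd (k := 1) (by rw [pow_one]; exact small_MM h1 h2) hr hd
    · intro v hv f hf g hg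
      exact ⟨asc_mem h.sub hv hf hg, fun a ha b hb => h.star_mem hn ha hb hv hf hg⟩
    · intro c hc
      exact h.S2_le_M0 hn (h.V0_le_S2 hn (h.N_le_V0 (h.nil c hc)))
  have d5 := Dr_trans (Dr_trans (Dr_trans d4 d3) d2) d1
  have e : 2 * n + 4 = n + 2 + 2 + n := by omega
  rw [e]
  exact d5

end Co

end Pool.Agent.H.MP_e16c79_al.IS
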