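import Pool.Agent.H.MP_e16c79_al.IS.BTabE

/-!
# MP_e16c79_al: certificate E, part 10
-/

set_option autoImplicit false

namespace Pool.Agent.H.MP_e16c79_al.IS

/-- data -/
def dE10x0 : RT := (.nd (.nd (.nd (.lf ⟨[.ofNat 0, .negSucc 1663, .ofNat 4160, .negSucc 159], (.dx 0 (.tr (.lf 13) (.lf 5) (.tr (.lf 17) (.tr (.lf 6) (.tw (.lf 9) (.lf 14)) (.lf 10)) (.lf 18)))), 0, [1015, 15, 1013, 13, 1015, 15, 1013, 13], []⟩)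
    (.lf ⟨[.ofNat 0, .ofNat 832, .negSucc 2079, .ofNat 80], (.tr (.lf 5) (.tr (.dx 3 (.tr (.lf 1) (.lf 17) (.lf 2))) (.lf 9) (.tw (.lf 10) (.lf 18))) (.lf 6)), 3, [21, 21, 21, 21, 20, 20, 20, 20], []⟩))
    (.nd (.lf ⟨[.ofNat 0, .negSucc 1663, .ofNat 4160, .negSucc 159], (.dx 0 (.tr (.lf 13) (.lf 5) (.tw (.lf 17) (.tr (.lf 6) (.lf 14) (.tr (.lf 9) (.lf 18) (.lf 10)))))), 0, [15, 15, 1, 1, 0, 0, 0, 0], []⟩)
    (.lf ⟨[.ofNat 0, .ofNat 832, .negSucc 2079, .ofNat 80], (.tr (.lf 9) (.tw (.dx 3 (.tr (.lf 1) (.tr (.lf 17) (.lf 2) (.lf 18)) (.lf 5))) (.lf 6)) (.lf 10)), 3, [11, 11, 11, 11, 10, 10, 10, 10], []⟩)))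
    (.nd (.nd (.lf ⟨[.ofNat 0, .ofNat 64, .ofNat 2880, .ofNat 352], (.tr (.lf 17) (.tr (.dx 3 (.tr (.lf 1) (.lf 2) (.lf 5))) (.tw (.lf 9) (.lf 10)) (.lf 6)) (.lf 18)), 3, [21, 21, 21, 21, 20, 20, 20, 20], []⟩)
    (.lf ⟨[.ofNat 0, .negSucc 127, .negSucc 5759, .negSucc 703], (.tr (.lf 17) (.lf 6) (.tr (.tw (.lf 9) (.lf 10)) (.dx 3 (.tr (.lf 1) (.lf 2) (.lf 5))) (.lf 18))), 3, [20, 20, 20, 20, 11, 11, 7, 7], []⟩))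
    (.nd (.lf ⟨[.ofNat 0, .negSucc 4175, .ofNat 1112, .ofNat 864], (.tw (.lf 6) (.tr (.dx 3 (.tr (.lf 1) (.lf 5) (.lf 2))) (.lf 9) (.tr (.lf 17) (.lf 10) (.lf 18)))), 3, [4, 4, 4, 4, 20, 20, 20, 20], []⟩)
    (.lf ⟨[.ofNat 0, .ofNat 8352, .negSucc 2223, .negSucc 1727], (.tr (.lf 6) (.dx 3 (.tr (.lf 1) (.lf 5) (.lf 2))) (.tr (.lf 9) (.lf 17) (.tw (.lf 10) (.lf 18)))), 3, [4, 4, 4, 19, 4, 4, 4, 19], []⟩))))

/-- data -/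
def dE10x1 : RT := (.nd (.nd (.nd (.lf ⟨[.ofNat 3328, .negSucc 12815, .negSucc 8847, .negSucc 4015], (.tr (.dx 3 (.tr (.tw (.lf 1) (.lf 2)) (.lf 9) (.lf 5))) (.lf 6) (.tr (.lf 17) (.lf 10) (.lf 18))), 3, [2, 2, 2, 2, 8, 8, 8, 8], []⟩)
    (.lf ⟨[.ofNat 0, .ofNat 5536, .negSucc 479, .ofNat 1024], (.tr (.dx 3 (.tr (.lf 1) (.tw (.lf 2) (.lf 9)) (.lf 5))) (.lf 6) (.tr (.lf 17) (.lf 10) (.lf 18))), 3, [2, 2, 2, 2, 4, 4, 8, 8], []⟩))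
    (.nd (.lf ⟨[.ofNat 3328, .ofNat 5224, .negSucc 3535, .negSucc 631], (.tr (.lf 17) (.dx 3 (.tr (.lf 5) (.tw (.lf 1) (.lf 2)) (.lf 9))) (.tr (.lf 6) (.lf 18) (.lf 10))), 3, [23, 21, 23, 21, 23, 21, 23, 21], []⟩)
    (.lf ⟨[.ofNat 0, .ofNat 1128, .ofNat 480, .ofNat 38], (.tw (.dx 3 (.tr (.lf 1) (.tw (.lf 5) (.lf 9)) (.lf 2))) (.tr (.lf 6) (.tw (.lf 17) (.lf 18)) (.lf 10))), 3, [23, 23, 21, 21, 23, 23, 21, 21, 23, 23, 21, 21, 23, 23, 21, 21], []⟩)))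
    (.nd (.nd (.lf ⟨[.ofNat 0, .negSucc 5439, .ofNat 400, .negSucc 31], (.tr (.dx 3 (.tr (.lf 1) (.tw (.lf 5) (.lf 9)) (.lf 2))) (.tr (.lf 10) (.lf 17) (.lf 18)) (.lf 6)), 3, [21, 21, 21, 21, 21, 21, 21, 21], []⟩)
    (.lf ⟨[.ofNat 0, .negSucc 479, .negSucc 2767, .negSucc 119], (.tr (.lf 6) (.lf 17) (.tr (.dx 3 (.tr (.lf 1) (.tw (.lf 5) (.lf 9)) (.lf 2))) (.lf 10) (.lf 18))), 3, [16, 16, 16, 16, 20, 20, 20, 20], []⟩))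
    (.nd (.lf ⟨[.ofNat 0, .negSucc 1387, .negSucc 987, .negSucc 145], (.tw (.dx 3 (.tr (.lf 1) (.tw (.lf 5) (.lf 9)) (.lf 2))) (.tr (.lf 17) (.tw (.lf 6) (.lf 10)) (.lf 18))), 3, [0, 0, 0, 0, 2, 2, 2, 2, 0, 0, 0, 0, 2, 2, 2, 2], []⟩)
    (.lf ⟨[.ofNat 0, .negSucc 1711, .ofNat 3472, .ofNat 944], (.tr (.dx 3 (.tr (.lf 1) (.lf 2) (.tr (.lf 5) (.lf 9) (.lf 6)))) (.lf 10) (.tw (.lf 17) (.lf 18))), 3, [0, 0, 0, 0, 8, 8, 8, 8], []⟩))))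

/-- data -/
def dE10x2 : RT := (.nd (.nd (.nd (.lf ⟨[.ofNat 0, .ofNat 176, .negSucc 6087, .negSucc 2231], (.tr (.dx 3 (.tr (.lf 1) (.lf 2) (.tr (.lf 5) (.lf 9) (.lf 6)))) (.tw (.lf 10) (.lf 17)) (.lf 18)), 3, [0, 0, 0, 0, 8, 8, 8, 8], []⟩)
    (.lf ⟨[.ofNat 6656, .ofNat 376, .ofNat 848, .negSucc 2803], (.tr (.dx 3 (.tr (.lf 1) (.tr (.lf 2) (.lf 9) (.lf 5)) (.lf 6))) (.lf 10) (.tw (.lf 17) (.lf 18))), 3, [2, 2, 0, 0, 4, 4, 8, 8], []⟩))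
    (.nd (.lf ⟨[.negSucc 13311, .negSucc 751, .negSucc 1695, .ofNat 5608], (.tr (.dx 3 (.tr (.lf 1) (.tr (.lf 2) (.lf 9) (.lf 5)) (.lf 6))) (.tw (.lf 10) (.lf 17)) (.lf 18)), 3, [2, 2, 0, 0, 4, 4, 8, 8], []⟩)
    (.lf ⟨[.ofNat 0, .negSucc 127, .negSucc 5759, .negSucc 703], (.tr (.lf 14) (.dx 0 (.tr (.tw (.lf 5) (.lf 6)) (.lf 17) (.lf 13))) (.tr (.lf 9) (.lf 10) (.lf 18))), 0, [19, 19, 19, 19, 19, 19, 19, 19], []⟩)))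
    (.nd (.nd (.lf ⟨[.ofNat 0, .ofNat 14656, .ofNat 2432, .negSucc 1567], (.tr (.lf 14) (.lf 9) (.tr (.lf 10) (.dx 0 (.tr (.tw (.lf 5) (.lf 6)) (.lf 13) (.lf 17))) (.lf 18))), 0, [6, 6, 6, 6, 19, 19, 7, 7], []⟩)
    (.lf ⟨[.ofNat 0, .ofNat 384, .negSucc 799], (.tr (.lf 14) (.tr (.dx 0 (.tr (.tw (.lf 5) (.lf 6)) (.lf 13) (.lf 17))) (.lf 9) (.lf 10)) (.lf 18)), 0, [19, 19, 19, 19, 6, 6, 6, 6], []⟩))
    (.nd (.lf ⟨[.negSucc 6655, .ofNat 7016, .ofNat 3248, .ofNat 2372], (.tw (.lf 14) (.tr (.dx 0 (.tr (.tw (.lf 5) (.lf 6)) (.lf 17) (.lf 13))) (.tw (.lf 9) (.lf 10)) (.lf 18))), 0, [19, 19, 19, 19, 19, 19, 19, 19, 1, 1, 13, 13, 1, 1, 13, 13], []⟩)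
    (.lf ⟨[.ofNat 0, .negSucc 2799, .negSucc 1951, .negSucc 1235], (.tw (.dx 3 (.tr (.lf 17) (.tr (.lf 1) (.tr (.lf 2) (.lf 9) (.lf 5)) (.lf 6)) (.lf 18))) (.lf 10)), 3, [11, 11, 7, 7, 11, 11, 7, 7], []⟩))))

/-- data -/
def dE10x3 : RT := (.nd (.nd (.nd (.lf ⟨[.negSucc 6655, .ofNat 6776, .ofNat 2304, .ofNat 1136], (.tw (.dx 0 (.tr (.tw (.lf 5) (.lf 6)) (.lf 13) (.lf 17))) (.tr (.tw (.lf 9) (.lf 10)) (.lf 14) (.lf 18))), 0, [0, 0, 7, 7, 0, 0, 7, 7, 12, 12, 7, 7, 12, 12, 7, 7], []⟩)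
    (.lf ⟨[.ofNat 0, .negSucc 7039, .negSucc 1023, .ofNat 784], (.tw (.lf 14) (.tr (.lf 9) (.tw (.dx 0 (.tr (.tw (.lf 5) (.lf 6)) (.lf 13) (.lf 17))) (.lf 18)) (.lf 10))), 0, [19, 19, 19, 19, 19, 19, 7, 7, 19, 19, 19, 19, 19, 19, 7, 7], []⟩))
    (.nd (.lf ⟨[.ofNat 0, .ofNat 14656, .ofNat 2432, .negSucc 1567], (.tr (.lf 14) (.lf 9) (.tr (.dx 0 (.tr (.tw (.lf 5) (.lf 6)) (.lf 13) (.lf 17))) (.lf 18) (.lf 10))), 0, [19, 19, 19, 19, 13, 13, 1, 1], []⟩)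
    (.lf ⟨[.ofNat 0, .negSucc 1791, .negSucc 495, .ofNat 72], (.tr (.dx 3 (.tr (.lf 1) (.lf 2) (.tr (.lf 17) (.lf 5) (.lf 18)))) (.tw (.lf 9) (.lf 10)) (.lf 6)), 3, [9, 9, 9, 9, 9, 9, 9, 9], []⟩)))
    (.nd (.nd (.lf ⟨[.ofNat 0, .negSucc 4703, .negSucc 335, .ofNat 616], (.tw (.dx 0 (.tr (.tw (.lf 5) (.lf 6)) (.lf 13) (.lf 17))) (.tr (.lf 14) (.tw (.lf 9) (.lf 10)) (.lf 18))), 0, [0, 0, 0, 0, 0, 0, 0, 0, 12, 12, 12, 12, 12, 12, 12, 12], []⟩)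
    (.lf ⟨[.ofNat 0, .ofNat 832, .negSucc 383], (.tr (.lf 14) (.lf 9) (.tr (.dx 0 (.tr (.tw (.lf 5) (.lf 6)) (.lf 17) (.lf 13))) (.lf 18) (.lf 10))), 0, [19, 19, 19, 19, 1, 1, 13, 13], []⟩))
    (.nd (.lf ⟨[.ofNat 0, .ofNat 576, .ofNat 384], (.tw (.dx 0 (.tr (.lf 9) (.lf 5) (.tr (.lf 6) (.lf 17) (.tr (.lf 13) (.lf 10) (.lf 14))))) (.lf 18)), 0, [14, 14, 2, 2, 12, 12, 2, 2], []⟩)
    (.lf ⟨[.ofNat 13312, .ofNat 18144, .negSucc 7519, .negSucc 5023], (.tw (.dx 0 (.tr (.lf 5) (.tr (.lf 6) (.tr (.lf 13) (.lf 9) (.lf 14)) (.lf 17)) (.lf 10))) (.lf 18)), 0, [0, 0, 12, 12, 2, 2, 14, 14], []⟩))))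

/-- data -/
def dE10x4 : RT := (.nd (.nd (.nd (.lf ⟨[.negSucc 13311, .negSucc 18719, .ofNat 7136, .ofNat 5024], (.tw (.dx 0 (.tr (.lf 5) (.lf 17) (.tr (.lf 9) (.lf 6) (.tr (.lf 13) (.lf 10) (.lf 14))))) (.lf 18)), 0, [12, 12, 12, 12, 2, 2, 2, 2], []⟩)
    (.lf ⟨[.negSucc 13311, .negSucc 15519, .ofNat 7456, .ofNat 5024], (.tw (.dx 0 (.tr (.lf 5) (.lf 17) (.tr (.lf 9) (.lf 10) (.tr (.lf 13) (.lf 6) (.lf 14))))) (.lf 18)), 0, [12, 12, 12, 12, 2, 2, 0, 0], []⟩))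
    (.nd (.lf ⟨[.negSucc 6655, .negSucc 8703, .ofNat 5384, .ofNat 1972], (.tr (.dx 3 (.tw (.lf 1) (.lf 5))) (.lf 9) (.tr (.lf 2) (.tr (.lf 17) (.lf 10) (.lf 18)) (.lf 6))), 3, [21, 21, 15, 15, 21, 21, 15, 15], [21, 21, 15, 15]⟩)
    (.lf ⟨[.ofNat 0, .ofNat 6656, .negSucc 12287, .ofNat 240], (.tr (.lf 14) (.lf 5) (.tr (.dx 0 (.lf 13)) (.tr (.lf 17) (.lf 6) (.lf 18)) (.lf 11))), 0, [23, 23, 1, 1], [23, 23, 13, 13]⟩)))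
    (.nd (.nd (.lf ⟨[.ofNat 0, .negSucc 6655, .ofNat 2304, .ofNat 2512], (.tr (.dx 3 (.lf 1)) (.lf 5) (.tr (.lf 2) (.tr (.lf 17) (.lf 6) (.lf 18)) (.lf 11))), 3, [23, 23, 13, 13], [23, 23, 13, 13]⟩)
    (.lf ⟨[.ofNat 0, .negSucc 6655, .ofNat 14720, .negSucc 415], (.tr (.dx 3 (.lf 1)) (.tr (.lf 5) (.lf 11) (.tr (.lf 17) (.lf 6) (.lf 18))) (.lf 2)), 3, [13, 13, 13, 13], [13, 13, 13, 13]⟩))
    (.nd (.lf ⟨[.ofNat 0, .negSucc 1311, .negSucc 3631, .ofNat 1080], (.tr (.dx 3 (.tw (.lf 1) (.lf 5))) (.tr (.lf 9) (.lf 6) (.tr (.lf 17) (.lf 10) (.lf 18))) (.lf 2)), 3, [15, 15, 15, 15, 15, 15, 15, 15], [15, 15, 15, 15]⟩)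
    (.lf ⟨[.ofNat 0, .negSucc 6655, .ofNat 12288, .negSucc 415], (.tw (.dx 0 (.tw (.lf 17) (.tr (.lf 5) (.lf 11) (.tr (.lf 13) (.lf 6) (.lf 14))))) (.lf 18)), 0, [12, 12, 12, 12, 0, 0, 0, 0], []⟩))))

/-- data -/
def dE10x5 : RT := (.nd (.nd (.nd (.lf ⟨[.ofNat 0, .ofNat 0, .ofNat 0, .ofNat 176], (.tw (.lf 17) (.tr (.lf 5) (.tr (.lf 14) (.dx 0 (.tw (.lf 11) (.lf 13))) (.lf 18)) (.lf 6))), 0, [17, 17, 5, 5, 17, 17, 5, 5], []⟩)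
    (.lf ⟨[.ofNat 0, .negSucc 6655, .ofNat 4736, .ofNat 2336], (.tw (.lf 5) (.tr (.lf 14) (.dx 0 (.tw (.lf 11) (.lf 13))) (.tr (.lf 17) (.lf 6) (.lf 18)))), 0, [4, 4, 4, 4, 16, 16, 16, 16], []⟩))
    (.nd (.lf ⟨[.ofNat 0, .ofNat 6656, .negSucc 3519, .negSucc 2335], (.tw (.lf 14) (.tr (.dx 0 (.tw (.lf 11) (.lf 13))) (.tr (.lf 17) (.lf 5) (.lf 18)) (.lf 6))), 0, [17, 17, 17, 17, 3, 3, 3, 3], []⟩)
    (.lf ⟨[.ofNat 0, .negSucc 6655, .ofNat 4736, .ofNat 2160], (.tw (.dx 0 (.tw (.lf 11) (.lf 13))) (.tr (.lf 14) (.lf 5) (.tr (.lf 17) (.lf 6) (.lf 18)))), 0, [2, 2, 2, 2, 2, 2, 2, 2], []⟩)))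
    (.nd (.nd (.lf ⟨[.ofNat 0, .ofNat 0, .ofNat 384, .negSucc 1327], (.tw (.dx 0 (.tr (.lf 17) (.lf 5) (.tr (.lf 13) (.tw (.lf 6) (.lf 11)) (.lf 14)))) (.lf 18)), 0, [12, 12, 12, 12, 0, 2, 0, 2], []⟩)
    (.lf ⟨[.ofNat 0, .ofNat 13312, .negSucc 23935, .negSucc 4127, .ofNat 320], (.tw (.lf 5) (.tr (.dx 3 (.tw (.lf 1) (.lf 11))) (.lf 2) (.tr (.lf 17) (.lf 6) (.lf 18)))), 3, [4, 4, 8, 8, 16, 16, 16, 16], []⟩))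
    (.nd (.lf ⟨[.ofNat 0, .ofNat 0, .ofNat 2432], (.tw (.dx 0 (.tw (.lf 5) (.tr (.lf 11) (.tr (.lf 13) (.lf 6) (.lf 14)) (.lf 17)))) (.lf 18)), 0, [0, 0, 12, 12, 2, 2, 12, 12], []⟩)
    (.lf ⟨[.ofNat 0, .ofNat 0, .negSucc 2431], (.tw (.dx 0 (.tw (.lf 11) (.tr (.lf 5) (.lf 17) (.tr (.lf 13) (.lf 6) (.lf 14))))) (.lf 18)), 0, [14, 14, 2, 2, 12, 12, 0, 0], []⟩))))

/-- data -/
def dE10x6 : RT := (.nd (.nd (.nd (.lf ⟨[.ofNat 0, .ofNat 0, .ofNat 0, .ofNat 176], (.tw (.dx 0 (.tw (.lf 13) (.tr (.lf 11) (.tr (.lf 5) (.lf 14) (.lf 6)) (.lf 17)))) (.lf 18)), 0, [2, 2, 0, 0, 2, 2, 12, 12], []⟩)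
    (.lf ⟨[.ofNat 0, .negSucc 13311, .ofNat 22720, .ofNat 4128, .negSucc 319], (.tw (.dx 3 (.tw (.lf 1) (.lf 11))) (.tr (.lf 2) (.tr (.lf 17) (.lf 5) (.lf 18)) (.lf 6))), 3, [17, 17, 13, 13, 17, 17, 13, 13], []⟩))
    (.nd (.lf ⟨[.ofNat 0, .ofNat 6656, .negSucc 4735, .negSucc 2159], (.tw (.lf 2) (.tr (.dx 3 (.tw (.lf 1) (.lf 11))) (.lf 5) (.tr (.lf 17) (.lf 6) (.lf 18)))), 3, [2, 2, 2, 2, 12, 12, 12, 12], []⟩)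
    (.lf ⟨[.ofNat 0, .negSucc 6655, .ofNat 12288, .negSucc 239], (.tw (.dx 3 (.tw (.lf 1) (.tr (.lf 5) (.tr (.lf 17) (.lf 2) (.lf 18)) (.lf 11)))) (.lf 6)), 3, [9, 9, 5, 5, 5, 5, 5, 5], []⟩)))
    (.nd (.nd (.lf ⟨[.ofNat 0, .ofNat 0, .negSucc 4671, .ofNat 2416], (.tw (.dx 3 (.tr (.lf 11) (.lf 17) (.tr (.lf 1) (.tw (.lf 5) (.lf 18)) (.lf 2)))) (.lf 6)), 3, [5, 5, 5, 5, 9, 9, 9, 9], []⟩)
    (.lf ⟨[.ofNat 0, .ofNat 0, .ofNat 4864, .negSucc 2815], (.tw (.dx 3 (.tr (.lf 1) (.tr (.lf 17) (.tw (.lf 2) (.lf 5)) (.lf 18)) (.lf 11))) (.lf 6)), 3, [9, 9, 9, 9, 5, 5, 5, 5], []⟩))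
    (.nd (.lf ⟨[.negSucc 6655, .ofNat 3216, .ofNat 3696, .ofNat 3712], (.tr (.dx 0 (.tw (.lf 17) (.tr (.lf 5) (.lf 9) (.tr (.lf 13) (.lf 6) (.lf 14))))) (.lf 10) (.lf 18)), 0, [12, 12, 12, 12, 0, 0, 0, 0], []⟩)
    (.lf ⟨[.ofNat 13312, .ofNat 13504, .ofNat 5488, .negSucc 5135], (.tr (.dx 0 (.tr (.lf 17) (.lf 13) (.tr (.lf 5) (.tw (.lf 9) (.lf 14)) (.lf 6)))) (.lf 10) (.lf 18)), 0, [12, 12, 12, 12, 0, 0, 0, 0], []⟩))))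

/-- data -/
def dE10x7 : RT := (.nd (.nd (.nd (.lf ⟨[.negSucc 13311, .negSucc 16959, .negSucc 6255, .ofNat 5200], (.tr (.dx 0 (.tr (.lf 5) (.tr (.lf 13) (.tw (.lf 6) (.lf 9)) (.lf 14)) (.lf 17))) (.lf 10) (.lf 18)), 0, [0, 0, 0, 0, 12, 14, 12, 14], []⟩)
    (.lf ⟨[.ofNat 13312, .ofNat 13504, .ofNat 5488, .negSucc 5135], (.tr (.dx 0 (.tw (.lf 17) (.tr (.lf 13) (.lf 9) (.tr (.lf 5) (.lf 14) (.lf 6))))) (.lf 10) (.lf 18)), 0, [14, 14, 12, 12, 2, 2, 0, 0], []⟩))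
    (.nd (.lf ⟨[.ofNat 0, .ofNat 10496, .negSucc 27279, .negSucc 4591], (.tr (.dx 0 (.tw (.lf 13) (.tr (.lf 9) (.tr (.lf 5) (.lf 14) (.lf 6)) (.lf 17)))) (.lf 10) (.lf 18)), 0, [2, 2, 0, 0, 2, 2, 12, 12], []⟩)
    (.lf ⟨[.ofNat 0, .ofNat 832, .negSucc 3231, .ofNat 464], (.tr (.dx 0 (.tr (.lf 9) (.lf 5) (.tr (.lf 13) (.tw (.lf 6) (.lf 17)) (.lf 14)))) (.lf 10) (.lf 18)), 0, [2, 2, 2, 2, 0, 0, 0, 0], []⟩)))
    (.nd (.nd (.lf ⟨[.ofNat 0, .negSucc 11663, .ofNat 23848, .ofNat 2748], (.tr (.dx 0 (.tw (.lf 9) (.tr (.lf 13) (.lf 17) (.tr (.lf 5) (.lf 14) (.lf 6))))) (.lf 10) (.lf 18)), 0, [2, 2, 2, 2, 0, 0, 0, 0], []⟩)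
    (.lf ⟨[.ofNat 0, .negSucc 9535, .negSucc 159, .negSucc 239], (.tr (.dx 0 (.tr (.lf 5) (.tr (.lf 13) (.tw (.lf 6) (.lf 17)) (.lf 14)) (.lf 9))) (.lf 10) (.lf 18)), 0, [0, 0, 0, 0, 2, 2, 2, 2], []⟩))
    (.nd (.lf ⟨[.ofNat 0, .ofNat 9536, .ofNat 160, .ofNat 240], (.tr (.lf 10) (.dx 0 (.tr (.lf 9) (.lf 5) (.tr (.lf 13) (.tw (.lf 6) (.lf 17)) (.lf 14)))) (.lf 18)), 0, [6, 6, 6, 6, 6, 6, 6, 6], []⟩)
    (.lf ⟨[.ofNat 0, .negSucc 3791, .ofNat 5624, .ofNat 2452], (.tr (.lf 10) (.dx 0 (.tw (.lf 9) (.tr (.lf 13) (.lf 17) (.tr (.lf 5) (.lf 14) (.lf 6))))) (.lf 18)), 0, [6, 6, 6, 6, 6, 6, 6, 6], []⟩))))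

/-- data -/
def dE10x8 : RT := (.nd (.nd (.nd (.lf ⟨[.ofNat 0, .negSucc 831, .ofNat 3232, .negSucc 463], (.tr (.lf 10) (.dx 0 (.tr (.lf 5) (.tr (.lf 13) (.tw (.lf 6) (.lf 17)) (.lf 14)) (.lf 9))) (.lf 18)), 0, [6, 6, 6, 6, 6, 6, 6, 6], []⟩)
    (.lf ⟨[.negSucc 33279, .negSucc 9311, .ofNat 42320, .ofNat 9696], (.tr (.lf 10) (.dx 0 (.tw (.lf 13) (.tr (.lf 9) (.tr (.lf 5) (.lf 14) (.lf 6)) (.lf 17)))) (.lf 18)), 0, [6, 6, 6, 6, 6, 6, 18, 18], []⟩))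
    (.nd (.lf ⟨[.negSucc 6655, .negSucc 50143, .ofNat 9440, .ofNat 12568], (.tr (.lf 10) (.dx 0 (.tr (.lf 17) (.lf 5) (.tr (.lf 13) (.tw (.lf 6) (.lf 9)) (.lf 14)))) (.lf 18)), 0, [18, 18, 18, 18, 6, 6, 6, 6], []⟩)
    (.lf ⟨[.ofNat 6656, .ofNat 50144, .negSucc 9439, .negSucc 12567], (.tr (.lf 10) (.dx 0 (.tr (.lf 13) (.tr (.lf 5) (.tw (.lf 9) (.lf 14)) (.lf 6)) (.lf 17))) (.lf 18)), 0, [6, 6, 6, 6, 18, 18, 18, 18], []⟩)))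
    (.nd (.nd (.lf ⟨[.ofNat 39936, .ofNat 59456, .negSucc 51759, .negSucc 22263], (.tr (.lf 10) (.dx 0 (.tw (.lf 17) (.tr (.lf 13) (.lf 9) (.tr (.lf 5) (.lf 14) (.lf 6))))) (.lf 18)), 0, [18, 18, 18, 18, 6, 6, 6, 6], []⟩)
    (.lf ⟨[.ofNat 0, .negSucc 175, .ofNat 1880, .ofNat 4], (.tr (.dx 3 (.tw (.lf 1) (.lf 5))) (.lf 17) (.tr (.lf 2) (.tr (.lf 9) (.lf 18) (.lf 10)) (.lf 6))), 3, [21, 21, 15, 15, 21, 21, 15, 15], [21, 21, 15, 15]⟩))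
    (.nd (.lf ⟨[.ofNat 0, .negSucc 447, .ofNat 3600, .negSucc 159], (.tr (.dx 3 (.tr (.lf 1) (.lf 2) (.lf 5))) (.lf 17) (.tr (.lf 6) (.tw (.lf 9) (.lf 10)) (.lf 18))), 3, [1023, 1023, 21, 21, 23, 23, 21, 21], []⟩)
    (.lf ⟨[.ofNat 0, .negSucc 1215, .negSucc 1103], (.tr (.dx 3 (.tr (.lf 1) (.lf 2) (.lf 5))) (.tr (.tw (.lf 9) (.lf 10)) (.lf 17) (.lf 18)) (.lf 6)), 3, [21, 21, 21, 21, 21, 21, 21, 21], []⟩))))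

/-- data -/
def dE10x9 : RT := (.nd (.nd (.nd (.lf ⟨[.ofNat 0, .ofNat 8576, .negSucc 1215, .negSucc 1263], (.tr (.lf 6) (.lf 17) (.tr (.dx 3 (.tr (.lf 1) (.lf 2) (.lf 5))) (.tw (.lf 9) (.lf 10)) (.lf 18))), 3, [16, 16, 16, 16, 20, 20, 20, 20], []⟩)
    (.lf ⟨[.ofNat 8320, .negSucc 14527, .negSucc 22431, .negSucc 5679], (.tr (.lf 6) (.tr (.tw (.lf 9) (.lf 10)) (.dx 3 (.tr (.lf 1) (.lf 2) (.lf 5))) (.lf 17)) (.lf 18)), 3, [8, 8, 8, 8, 16, 16, 16, 16], []⟩))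
    (.nd (.lf ⟨[.negSucc 8319, .ofNat 18752, .ofNat 24944, .ofNat 5712], (.tw (.lf 6) (.tr (.lf 17) (.tr (.dx 3 (.tr (.lf 1) (.lf 2) (.lf 5))) (.lf 9) (.lf 10)) (.lf 18))), 3, [16, 16, 20, 20, 16, 16, 20, 20], []⟩)
    (.lf ⟨[.ofNat 0, .ofNat 17264, .ofNat 2768, .ofNat 10944], (.tr (.dx 0 (.tr (.lf 5) (.lf 6) (.tr (.lf 13) (.tw (.lf 9) (.lf 10)) (.lf 17)))) (.lf 14) (.lf 18)), 0, [0, 0, 12, 12, 2, 2, 14, 14], []⟩)))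
    (.nd (.nd (.lf ⟨[.ofNat 0, .negSucc 22895, .negSucc 8079, .negSucc 10287], (.tr (.dx 0 (.tw (.lf 13) (.tr (.lf 5) (.tr (.lf 6) (.lf 17) (.lf 9)) (.lf 10)))) (.lf 14) (.lf 18)), 0, [0, 0, 2, 2, 12, 12, 14, 14], []⟩)
    (.lf ⟨[.ofNat 0, .ofNat 28752, .ofNat 9152, .ofNat 9024], (.tr (.dx 0 (.tr (.lf 13) (.lf 5) (.tr (.lf 9) (.tw (.lf 6) (.lf 17)) (.lf 10)))) (.lf 14) (.lf 18)), 0, [0, 0, 0, 0, 14, 14, 14, 14], []⟩))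
    (.nd (.lf ⟨[.ofNat 8320, .negSucc 24943, .negSucc 28527, .negSucc 16687], (.tr (.dx 0 (.tw (.lf 17) (.tr (.lf 5) (.tr (.lf 6) (.lf 13) (.lf 9)) (.lf 10)))) (.lf 14) (.lf 18)), 0, [12, 12, 14, 14, 0, 0, 2, 2], []⟩)
    (.lf ⟨[.ofNat 0, .ofNat 5248, .negSucc 431, .negSucc 255], (.tw (.dx 3 (.tr (.lf 17) (.lf 9) (.tr (.lf 1) (.tr (.lf 2) (.lf 18) (.lf 5)) (.lf 6)))) (.lf 10)), 3, [11, 11, 7, 7, 11, 11, 7, 7], []⟩))))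

/-- data -/
def dE10x10 : RT := (.nd (.nd (.nd (.lf ⟨[.negSucc 4159, .ofNat 8360, .ofNat 9864, .ofNat 6460], (.tr (.dx 0 (.tr (.lf 17) (.lf 5) (.tr (.lf 9) (.tw (.lf 6) (.lf 13)) (.lf 10)))) (.lf 14) (.lf 18)), 0, [12, 12, 12, 12, 2, 2, 2, 2], []⟩)
    (.lf ⟨[.negSucc 4159, .ofNat 16584, .ofNat 18664, .ofNat 10228], (.tr (.dx 0 (.tr (.lf 5) (.tr (.lf 9) (.tw (.lf 6) (.lf 13)) (.lf 10)) (.lf 17))) (.lf 14) (.lf 18)), 0, [0, 0, 0, 0, 14, 14, 14, 14], []⟩))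
    (.nd (.lf ⟨[.ofNat 4160, .negSucc 28583, .negSucc 15895, .negSucc 11091], (.tr (.dx 0 (.tw (.lf 17) (.tr (.lf 5) (.lf 13) (.tr (.lf 9) (.lf 6) (.lf 10))))) (.lf 14) (.lf 18)), 0, [12, 12, 14, 14, 0, 0, 2, 2], []⟩)
    (.lf ⟨[.ofNat 0, .ofNat 1600, .negSucc 2463, .negSucc 639], (.tr (.dx 3 (.tr (.lf 9) (.lf 1) (.tr (.lf 5) (.lf 2) (.lf 6)))) (.tw (.lf 17) (.lf 18)) (.lf 10)), 3, [23, 23, 23, 23, 19, 19, 19, 19], []⟩)))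
    (.nd (.nd (.lf ⟨[.ofNat 16640, .ofNat 1784, .negSucc 24051, .negSucc 6193], (.tr (.lf 5) (.tr (.lf 2) (.dx 3 (.tw (.lf 1) (.lf 17))) (.tr (.lf 9) (.lf 18) (.lf 10))) (.lf 6)), 3, [1023, 1023, 21, 21, 20, 1023, 20, 1023], [21, 21, 20, 20]⟩)
    (.lf ⟨[.negSucc 33279, .negSucc 3567, .ofNat 48104, .ofNat 12388], (.tr (.lf 5) (.lf 2) (.tr (.dx 3 (.tw (.lf 1) (.lf 17))) (.tr (.lf 9) (.lf 18) (.lf 10)) (.lf 6))), 3, [1023, 1023, 21, 21, 16, 16, 16, 16], [21, 21, 16, 16]⟩))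
    (.nd (.lf ⟨[.ofNat 0, .ofNat 8096, .ofNat 3160, .ofNat 3488], (.tr (.dx 3 (.tr (.lf 1) (.lf 2) (.lf 17))) (.tr (.tw (.lf 5) (.lf 6)) (.lf 9) (.lf 10)) (.lf 18)), 3, [23, 23, 21, 21, 23, 23, 21, 21], []⟩)
    (.lf ⟨[.ofNat 0, .negSucc 16575, .negSucc 5519, .negSucc 6975], (.tr (.lf 18) (.lf 5) (.tr (.dx 3 (.tr (.lf 1) (.lf 2) (.lf 17))) (.tw (.lf 9) (.lf 10)) (.lf 6))), 3, [9, 9, 9, 9, 20, 20, 20, 20], []⟩))))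

/-- data -/
def dE10x11 : RT := (.nd (.nd (.nd (.lf ⟨[.ofNat 0, .ofNat 2496, .ofNat 3968, .ofNat 3520], (.tw (.dx 0 (.tr (.lf 5) (.lf 6) (.tr (.lf 13) (.tr (.lf 9) (.lf 10) (.lf 17)) (.lf 14)))) (.lf 18)), 0, [0, 0, 0, 0, 2, 2, 2, 2], []⟩)
    (.lf ⟨[.ofNat 0, .negSucc 5247, .ofNat 128], (.tw (.dx 0 (.tr (.lf 13) (.lf 5) (.tr (.lf 6) (.lf 17) (.tr (.lf 9) (.lf 10) (.lf 14))))) (.lf 18)), 0, [0, 0, 0, 0, 12, 12, 2, 2], []⟩))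
    (.nd (.lf ⟨[.ofNat 0, .ofNat 4224, .ofNat 240], (.tw (.dx 0 (.tr (.lf 5) (.lf 17) (.tr (.lf 13) (.tr (.lf 6) (.lf 9) (.lf 10)) (.lf 14)))) (.lf 18)), 0, [12, 12, 12, 12, 0, 2, 0, 2], []⟩)
    (.lf ⟨[.ofNat 0, .ofNat 6080, .negSucc 2863, .negSucc 31], (.tw (.dx 0 (.tr (.lf 13) (.lf 17) (.tr (.lf 5) (.tr (.lf 6) (.lf 14) (.lf 9)) (.lf 10)))) (.lf 18)), 0, [0, 0, 2, 2, 0, 0, 2, 2], []⟩)))
    (.nd (.nd (.lf ⟨[.ofNat 0, .negSucc 6079, .ofNat 2864, .ofNat 32], (.tw (.dx 0 (.tr (.lf 5) (.lf 9) (.tr (.lf 13) (.tr (.lf 6) (.lf 10) (.lf 17)) (.lf 14)))) (.lf 18)), 0, [0, 0, 0, 0, 0, 2, 0, 2], []⟩)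
    (.lf ⟨[.negSucc 3327, .ofNat 6080, .ofNat 4520, .ofNat 904], (.tw (.lf 14) (.tr (.lf 9) (.tw (.dx 0 (.tr (.lf 5) (.tw (.lf 13) (.lf 17)) (.lf 6))) (.lf 18)) (.lf 10))), 0, [19, 19, 19, 19, 19, 7, 19, 7, 19, 19, 19, 19, 19, 7, 19, 7], []⟩))
    (.nd (.lf ⟨[.ofNat 0, .ofNat 5248, .negSucc 447], (.tr (.lf 9) (.lf 14) (.tr (.dx 0 (.tr (.lf 5) (.tw (.lf 13) (.lf 17)) (.lf 6))) (.lf 10) (.lf 18))), 0, [6, 6, 6, 6, 13, 1, 13, 1], []⟩)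
    (.lf ⟨[.ofNat 0, .ofNat 5248, .negSucc 127], (.tr (.dx 0 (.tr (.lf 5) (.tw (.lf 13) (.lf 17)) (.lf 6))) (.tr (.lf 9) (.lf 14) (.lf 18)) (.lf 10)), 0, [0, 7, 12, 7, 0, 7, 12, 7], []⟩))))

/-- data -/
def dE10x12 : RT := (.nd (.nd (.nd (.lf ⟨[.ofNat 6656, .negSucc 16447, .negSucc 6687, .negSucc 1775], (.tr (.lf 14) (.lf 9) (.tr (.lf 10) (.dx 0 (.tr (.lf 5) (.tw (.lf 13) (.lf 17)) (.lf 6))) (.lf 18))), 0, [6, 6, 6, 6, 19, 7, 19, 7], []⟩)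
    (.lf ⟨[.negSucc 3327, .ofNat 5760, .ofNat 608], (.tw (.lf 14) (.tr (.tw (.lf 9) (.lf 10)) (.dx 0 (.tr (.lf 5) (.tw (.lf 13) (.lf 17)) (.lf 6))) (.lf 18))), 0, [6, 6, 6, 6, 6, 6, 6, 6, 19, 19, 7, 7, 19, 19, 7, 7], []⟩))
    (.nd (.lf ⟨[.ofNat 0, .negSucc 3455, .ofNat 448], (.tw (.dx 0 (.tr (.lf 13) (.lf 5) (.tw (.lf 6) (.tr (.lf 9) (.tw (.lf 14) (.lf 17)) (.lf 10))))) (.lf 18)), 0, [0, 0, 0, 0, 0, 0, 0, 0, 0, 12, 0, 12, 2, 14, 2, 14], []⟩)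
    (.lf ⟨[.ofNat 0, .negSucc 767, .negSucc 687], (.tr (.lf 9) (.dx 3 (.tr (.lf 1) (.lf 2) (.lf 5))) (.tr (.lf 17) (.tw (.lf 6) (.lf 10)) (.lf 18))), 3, [6, 6, 6, 6, 10, 10, 10, 10], []⟩)))
    (.nd (.nd (.lf ⟨[.ofNat 0, .ofNat 8384, .ofNat 2208, .ofNat 3488], (.tr (.lf 5) (.tr (.lf 6) (.dx 3 (.tr (.lf 1) (.lf 2) (.lf 17))) (.tw (.lf 9) (.lf 10))) (.lf 18)), 3, [4, 4, 4, 4, 8, 8, 8, 8], []⟩)
    (.lf ⟨[.ofNat 0, .negSucc 8383, .negSucc 2207, .negSucc 3487], (.tr (.lf 5) (.lf 6) (.tr (.dx 3 (.tr (.lf 1) (.lf 2) (.lf 17))) (.tw (.lf 9) (.lf 10)) (.lf 18))), 3, [4, 4, 4, 4, 20, 20, 20, 20], []⟩))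
    (.nd (.lf ⟨[.ofNat 0, .ofNat 8384, .ofNat 2208, .ofNat 3488], (.tr (.dx 3 (.tr (.lf 1) (.lf 2) (.lf 17))) (.lf 5) (.tr (.lf 6) (.lf 18) (.tw (.lf 9) (.lf 10)))), 3, [23, 23, 21, 21, 23, 23, 21, 21], []⟩)
    (.lf ⟨[.negSucc 8319, .ofNat 14528, .ofNat 22432, .ofNat 5680], (.tr (.dx 0 (.tr (.lf 5) (.lf 6) (.lf 13))) (.tr (.tw (.lf 9) (.lf 10)) (.lf 14) (.lf 17)) (.lf 18)), 0, [0, 0, 0, 0, 0, 0, 0, 0], []⟩))))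

/-- data -/
def dE10x13 : RT := (.nd (.nd (.nd (.lf ⟨[.ofNat 8320, .negSucc 7679, .negSucc 25759, .negSucc 5743], (.tw (.dx 0 (.tr (.lf 5) (.lf 6) (.lf 13))) (.tr (.lf 17) (.tr (.lf 9) (.lf 10) (.lf 14)) (.lf 18))), 0, [0, 0, 0, 0, 0, 0, 0, 0], []⟩)
    (.lf ⟨[.ofNat 0, .negSucc 8767, .ofNat 2320, .ofNat 1264], (.tr (.dx 0 (.tr (.lf 5) (.lf 6) (.lf 13))) (.lf 17) (.tr (.lf 14) (.tw (.lf 9) (.lf 10)) (.lf 18))), 0, [0, 0, 0, 0, 0, 0, 0, 0], []⟩))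
    (.nd (.lf ⟨[.ofNat 0, .ofNat 1408], (.tr (.lf 14) (.lf 9) (.tr (.dx 0 (.tr (.lf 5) (.lf 6) (.lf 13))) (.tw (.lf 17) (.lf 18)) (.lf 10))), 0, [19, 19, 19, 19, 1, 1, 1, 1], []⟩)
    (.lf ⟨[.ofNat 0, .ofNat 1216, .negSucc 2191, .negSucc 63], (.tw (.lf 18) (.tr (.lf 5) (.tr (.lf 6) (.dx 3 (.tr (.lf 1) (.lf 2) (.lf 17))) (.lf 9)) (.lf 10))), 3, [7, 7, 11, 11, 9, 9, 5, 5], []⟩)))
    (.nd (.nd (.lf ⟨[.ofNat 0, .negSucc 4287, .ofNat 9072, .negSucc 223], (.tr (.lf 10) (.dx 0 (.tw (.lf 9) (.tr (.lf 13) (.tr (.lf 5) (.lf 6) (.lf 17)) (.lf 14)))) (.lf 18)), 0, [6, 6, 6, 6, 6, 6, 6, 6], []⟩)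
    (.lf ⟨[.ofNat 0, .ofNat 168, .ofNat 108, .negSucc 1105], (.tr (.dx 3 (.tr (.tw (.lf 1) (.lf 2)) (.lf 17) (.lf 5))) (.lf 18) (.tr (.lf 9) (.lf 6) (.lf 10))), 3, [23, 23, 23, 23, 23, 23, 23, 23], []⟩))
    (.nd (.lf ⟨[.ofNat 0, .negSucc 4623, .ofNat 8856, .ofNat 1988], (.tr (.dx 3 (.tr (.lf 1) (.tw (.lf 2) (.lf 17)) (.lf 5))) (.lf 18) (.tr (.lf 9) (.lf 6) (.lf 10))), 3, [23, 23, 23, 23, 23, 23, 23, 23], []⟩)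
    (.lf ⟨[.ofNat 0, .ofNat 6080, .negSucc 9071, .ofNat 528], (.tr (.lf 10) (.dx 0 (.tr (.lf 9) (.lf 13) (.tr (.tw (.lf 5) (.lf 6)) (.lf 17) (.lf 14)))) (.lf 18)), 0, [6, 6, 6, 6, 18, 18, 6, 6], []⟩))))

/-- data -/
def dE10x14 : RT := (.nd (.nd (.nd (.lf ⟨[.ofNat 0, .negSucc 16943, .ofNat 33744, .negSucc 8047], (.tr (.lf 10) (.dx 0 (.tr (.lf 5) (.tr (.lf 6) (.lf 17) (.tw (.lf 13) (.lf 14))) (.lf 9))) (.lf 18)), 0, [18, 18, 6, 6, 18, 18, 6, 6], []⟩)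
    (.lf ⟨[.ofNat 0, .ofNat 17744, .negSucc 32615, .ofNat 8064], (.tr (.lf 5) (.tr (.lf 9) (.tw (.dx 0 (.tr (.lf 13) (.lf 14) (.lf 17))) (.lf 6)) (.lf 10)) (.lf 18)), 0, [8, 20, 8, 20, 8, 20, 8, 20], []⟩))
    (.nd (.lf ⟨[.ofNat 0, .ofNat 9152, .ofNat 11320, .ofNat 2424], (.tr (.lf 18) (.lf 5) (.tr (.lf 9) (.tw (.dx 0 (.tr (.lf 13) (.lf 14) (.lf 17))) (.lf 6)) (.lf 10))), 0, [23, 11, 19, 7, 23, 11, 19, 7], []⟩)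
    (.lf ⟨[.ofNat 0, .negSucc 799, .negSucc 1127, .negSucc 15], (.tw (.lf 18) (.tr (.lf 5) (.dx 0 (.tr (.lf 13) (.lf 14) (.lf 17))) (.tr (.lf 9) (.lf 6) (.lf 10)))), 0, [23, 23, 11, 11, 17, 5, 17, 5], []⟩)))
    (.nd (.nd (.lf ⟨[.ofNat 0, .negSucc 9983, .ofNat 2544, .ofNat 2360], (.tr (.dx 0 (.tr (.lf 9) (.lf 5) (.tr (.lf 6) (.lf 17) (.tw (.lf 13) (.lf 14))))) (.lf 10) (.lf 18)), 0, [14, 14, 2, 2, 12, 12, 0, 0], []⟩)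
    (.lf ⟨[.ofNat 0, .ofNat 1600, .ofNat 2256, .ofNat 32], (.tw (.lf 5) (.tr (.dx 0 (.tr (.lf 13) (.lf 14) (.lf 17))) (.tr (.lf 9) (.lf 6) (.lf 10)) (.lf 18))), 0, [4, 4, 16, 16, 20, 20, 20, 20], []⟩))
    (.nd (.lf ⟨[.ofNat 0, .negSucc 863, .negSucc 3463, .negSucc 47], (.tr (.dx 0 (.tr (.lf 13) (.lf 14) (.lf 17))) (.lf 5) (.tr (.lf 9) (.tw (.lf 6) (.lf 18)) (.lf 10))), 0, [23, 23, 23, 23, 23, 23, 23, 23], []⟩)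
    (.lf ⟨[.ofNat 0, .negSucc 9951, .negSucc 12447, .negSucc 2439], (.tr (.dx 0 (.tr (.lf 5) (.tr (.lf 6) (.lf 17) (.tw (.lf 13) (.lf 14))) (.lf 9))) (.lf 10) (.lf 18)), 0, [12, 12, 0, 0, 14, 14, 2, 2], []⟩))))

/-- data -/
def dE10x15 : RT := (.nd (.nd (.nd (.lf ⟨[.ofNat 0, .ofNat 4304, .ofNat 13664, .ofNat 3968], (.tr (.dx 0 (.tr (.lf 9) (.lf 13) (.tr (.tw (.lf 5) (.lf 6)) (.lf 17) (.lf 14)))) (.lf 10) (.lf 18)), 0, [2, 2, 2, 2, 12, 12, 0, 0], []⟩)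
    (.lf ⟨[.ofNat 0, .ofNat 1728, .negSucc 703], (.tr (.dx 3 (.tr (.lf 17) (.lf 18) (.tr (.lf 1) (.lf 5) (.lf 2)))) (.tw (.lf 9) (.lf 10)) (.lf 6)), 3, [9, 9, 9, 9, 9, 9, 9, 9], []⟩))
    (.nd (.lf ⟨[.ofNat 0, .ofNat 5648, .negSucc 1215, .negSucc 1527], (.tr (.dx 0 (.tr (.lf 5) (.lf 6) (.tr (.lf 9) (.tw (.lf 13) (.lf 14)) (.lf 17)))) (.lf 10) (.lf 18)), 0, [0, 0, 12, 12, 2, 2, 14, 14], []⟩)
    (.lf ⟨[.ofNat 0, .negSucc 2559, .ofNat 2880, .ofNat 1296], (.tr (.dx 0 (.tr (.lf 5) (.tr (.lf 6) (.lf 9) (.tw (.lf 13) (.lf 14))) (.lf 17))) (.lf 10) (.lf 18)), 0, [0, 0, 0, 0, 12, 12, 14, 14], []⟩)))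
    (.nd (.nd (.lf ⟨[.ofNat 0, .negSucc 6655, .negSucc 2159, .ofNat 48], (.tr (.dx 0 (.tr (.lf 5) (.lf 17) (.tr (.lf 9) (.lf 6) (.tw (.lf 13) (.lf 14))))) (.lf 10) (.lf 18)), 0, [12, 12, 12, 12, 2, 2, 0, 0], []⟩)
    (.lf ⟨[.ofNat 0, .ofNat 5360, .negSucc 14335, .negSucc 3551], (.tr (.dx 0 (.tr (.lf 9) (.tr (.lf 13) (.tw (.lf 5) (.lf 6)) (.lf 17)) (.lf 14))) (.lf 10) (.lf 18)), 0, [2, 2, 14, 14, 0, 0, 0, 0], []⟩))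
    (.nd (.lf ⟨[.ofNat 0, .ofNat 18160, .negSucc 1799, .negSucc 1935], (.tr (.dx 0 (.tr (.lf 13) (.lf 14) (.tr (.lf 9) (.tw (.lf 5) (.lf 6)) (.lf 17)))) (.lf 10) (.lf 18)), 0, [2, 2, 0, 0, 14, 14, 12, 12], []⟩)
    (.lf ⟨[.ofNat 0, .ofNat 1728, .ofNat 1072, .ofNat 304], (.tr (.dx 0 (.tr (.lf 13) (.tr (.tw (.lf 5) (.lf 6)) (.lf 9) (.lf 14)) (.lf 17))) (.lf 10) (.lf 18)), 0, [0, 0, 2, 2, 12, 12, 14, 14], []⟩))))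

/-- data -/
def dE10x16 : RT := (.nd (.nd (.nd (.lf ⟨[.ofNat 0, .ofNat 20144, .ofNat 2600, .negSucc 335], (.tr (.lf 10) (.lf 17) (.tr (.lf 14) (.dx 0 (.tr (.tw (.lf 5) (.lf 6)) (.lf 13) (.lf 9))) (.lf 18))), 0, [18, 18, 18, 18, 18, 18, 18, 18], []⟩)
    (.lf ⟨[.ofNat 0, .negSucc 21871, .negSucc 3671, .ofNat 32], (.tr (.lf 17) (.dx 0 (.tr (.tw (.lf 5) (.lf 6)) (.lf 13) (.lf 9))) (.tr (.lf 10) (.lf 18) (.lf 14))), 0, [12, 19, 12, 19, 14, 19, 14, 19], []⟩))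
    (.nd (.lf ⟨[.ofNat 0, .negSucc 3247, .ofNat 856, .negSucc 343], (.tr (.lf 14) (.tr (.dx 0 (.tr (.tw (.lf 5) (.lf 6)) (.lf 13) (.lf 9))) (.lf 10) (.lf 17)) (.lf 18)), 0, [0, 0, 2, 2, 15, 15, 13, 13], []⟩)
    (.lf ⟨[.ofNat 0, .ofNat 3248, .negSucc 855, .ofNat 344], (.tr (.lf 14) (.tr (.lf 10) (.dx 0 (.tr (.lf 9) (.tw (.lf 5) (.lf 6)) (.lf 13))) (.lf 17)) (.lf 18)), 0, [6, 6, 6, 6, 19, 19, 19, 19], []⟩)))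
    (.nd (.nd (.lf ⟨[.ofNat 0, .negSucc 25295, .ofNat 7096, .ofNat 2648], (.tr (.lf 17) (.lf 10) (.tr (.dx 0 (.tr (.lf 9) (.tw (.lf 5) (.lf 6)) (.lf 13))) (.lf 18) (.lf 14))), 0, [18, 18, 18, 18, 1, 1, 3, 3], []⟩)
    (.lf ⟨[.ofNat 0, .negSucc 1791, .ofNat 0, .negSucc 303], (.tr (.lf 10) (.dx 0 (.tr (.lf 13) (.lf 17) (.tr (.tw (.lf 5) (.lf 6)) (.lf 14) (.lf 9)))) (.lf 18)), 0, [6, 6, 6, 6, 6, 6, 6, 6], []⟩))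
    (.nd (.lf ⟨[.ofNat 0, .ofNat 21328, .ofNat 2136, .negSucc 615], (.tr (.lf 14) (.lf 17) (.tr (.dx 0 (.tr (.lf 9) (.tw (.lf 5) (.lf 6)) (.lf 13))) (.lf 10) (.lf 18))), 0, [19, 19, 19, 19, 1, 1, 3, 3], []⟩)
    (.lf ⟨[.ofNat 0, .negSucc 21807, .negSucc 4903, .ofNat 496], (.tr (.dx 0 (.tr (.lf 9) (.tw (.lf 5) (.lf 6)) (.lf 13))) (.tr (.lf 10) (.lf 17) (.lf 18)) (.lf 14)), 0, [2, 2, 2, 2, 0, 0, 0, 0], []⟩))))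

/-- data -/
def dE10x17 : RT := (.nd (.nd (.nd (.lf ⟨[.ofNat 0, .ofNat 13544, .negSucc 3547, .negSucc 1171], (.tw (.dx 0 (.tr (.lf 9) (.tw (.lf 5) (.lf 6)) (.lf 13))) (.tr (.lf 17) (.tw (.lf 10) (.lf 14)) (.lf 18))), 0, [2, 2, 2, 2, 2, 2, 2, 2, 0, 0, 0, 0, 0, 0, 0, 0], []⟩)
    (.lf ⟨[.negSucc 6655, .negSucc 15567, .ofNat 8312, .ofNat 2344], (.tr (.dx 0 (.tr (.lf 9) (.tw (.lf 5) (.lf 6)) (.lf 13))) (.lf 17) (.tr (.lf 10) (.lf 14) (.lf 18))), 0, [2, 2, 2, 2, 0, 0, 0, 0], []⟩))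
    (.nd (.lf ⟨[.ofNat 6656, .negSucc 11519, .negSucc 1215], (.tr (.lf 17) (.lf 14) (.tr (.dx 0 (.tr (.lf 9) (.tw (.lf 5) (.lf 6)) (.lf 13))) (.lf 18) (.lf 10))), 0, [19, 19, 19, 19, 1, 1, 3, 3], []⟩)
    (.lf ⟨[.ofNat 0, .ofNat 1280, .ofNat 504], (.tw (.lf 10) (.tr (.lf 17) (.tw (.dx 0 (.tr (.tw (.lf 5) (.lf 6)) (.lf 13) (.lf 9))) (.lf 14)) (.lf 18))), 0, [18, 18, 18, 18, 18, 18, 18, 18, 18, 18, 18, 18, 18, 18, 18, 18], []⟩)))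
    (.nd (.nd (.lf ⟨[.ofNat 0, .ofNat 5120, .ofNat 2016], (.tw (.dx 3 (.tr (.lf 17) (.lf 1) (.tr (.lf 2) (.lf 9) (.tr (.lf 5) (.lf 6) (.lf 18))))) (.lf 10)), 3, [11, 11, 7, 7, 7, 7, 7, 7], []⟩)
    (.lf ⟨[.ofNat 0, .ofNat 2240, .ofNat 1152, .negSucc 79], (.tw (.lf 14) (.tr (.dx 0 (.tr (.lf 9) (.tw (.lf 5) (.lf 6)) (.lf 13))) (.tw (.lf 17) (.lf 18)) (.lf 10))), 0, [19, 19, 19, 19, 19, 19, 19, 19, 1, 1, 3, 3, 1, 1, 3, 3], []⟩))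
    (.nd (.lf ⟨[.ofNat 3328, .ofNat 11920, .ofNat 2552, .negSucc 2345], (.tw (.lf 14) (.tr (.lf 17) (.tw (.dx 0 (.tr (.tw (.lf 5) (.lf 6)) (.lf 13) (.lf 9))) (.lf 10)) (.lf 18))), 0, [19, 19, 19, 19, 15, 15, 13, 13, 19, 19, 19, 19, 15, 15, 13, 13], []⟩)
    (.lf ⟨[.negSucc 3327, .ofNat 1416, .negSucc 5523, .ofNat 1314], (.tw (.lf 14) (.tr (.lf 17) (.tw (.dx 0 (.tr (.lf 9) (.tw (.lf 5) (.lf 6)) (.lf 13))) (.lf 10)) (.lf 18))), 0, [19, 19, 19, 19, 13, 13, 15, 15, 19, 19, 19, 19, 13, 13, 15, 15], []⟩))))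

/-- data -/
def dE10x18 : RT := (.nd (.nd (.nd (.lf ⟨[.ofNat 0, .negSucc 11967, .ofNat 1408, .ofNat 620], (.tr (.dx 3 (.tr (.tw (.lf 1) (.lf 2)) (.lf 5) (.lf 17))) (.tr (.lf 9) (.lf 6) (.lf 10)) (.lf 18)), 3, [0, 0, 0, 0, 23, 23, 23, 23], []⟩)
    (.lf ⟨[.ofNat 0, .ofNat 2624, .negSucc 63], (.tr (.lf 17) (.lf 10) (.tr (.dx 0 (.tr (.tw (.lf 5) (.lf 6)) (.lf 13) (.lf 9))) (.lf 18) (.lf 14))), 0, [18, 18, 18, 18, 3, 3, 1, 1], []⟩))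
    (.nd (.lf ⟨[.ofNat 0, .negSucc 1151, .ofNat 3328, .ofNat 1296], (.tr (.dx 0 (.tr (.lf 17) (.lf 5) (.tr (.lf 6) (.lf 9) (.tw (.lf 13) (.lf 14))))) (.lf 10) (.lf 18)), 0, [12, 12, 12, 12, 0, 0, 2, 2], []⟩)
    (.lf ⟨[.ofNat 0, .negSucc 1407, .negSucc 447], (.tr (.dx 0 (.tr (.lf 5) (.lf 9) (.tr (.tw (.lf 13) (.lf 14)) (.lf 6) (.lf 17)))) (.lf 10) (.lf 18)), 0, [0, 0, 12, 12, 0, 0, 12, 12], []⟩)))
    (.nd (.nd (.lf ⟨[.ofNat 0, .negSucc 22383, .ofNat 34144, .negSucc 8079], (.tr (.lf 10) (.dx 0 (.tr (.lf 5) (.lf 17) (.tr (.lf 9) (.lf 6) (.tw (.lf 13) (.lf 14))))) (.lf 18)), 0, [18, 18, 18, 18, 6, 6, 6, 6], []⟩)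
    (.lf ⟨[.ofNat 0, .ofNat 31728, .negSucc 35007, .ofNat 6848], (.tr (.lf 10) (.dx 0 (.tr (.lf 13) (.lf 14) (.tr (.lf 5) (.tw (.lf 9) (.lf 17)) (.lf 6)))) (.lf 18)), 0, [6, 6, 6, 6, 18, 18, 18, 18], []⟩))
    (.nd (.lf ⟨[.ofNat 0, .ofNat 320, .negSucc 119, .ofNat 1148], (.tw (.dx 3 (.tr (.lf 1) (.tw (.lf 17) (.lf 18)) (.lf 5))) (.tr (.lf 9) (.tw (.lf 2) (.lf 6)) (.lf 10))), 3, [11, 7, 11, 7, 11, 7, 11, 7, 11, 7, 11, 7, 11, 7, 11, 7], []⟩)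
    (.lf ⟨[.ofNat 0, .ofNat 5952, .negSucc 1871, .negSucc 1263], (.tr (.tw (.lf 6) (.lf 10)) (.dx 0 (.tr (.lf 13) (.lf 14) (.tr (.lf 5) (.lf 17) (.lf 9)))) (.lf 18)), 0, [8, 8, 20, 20, 10, 10, 22, 22], []⟩))))

/-- data -/
def dE10x19 : RT := (.nd (.nd (.nd (.lf ⟨[.ofNat 0, .negSucc 23151, .ofNat 35296, .negSucc 8079], (.tr (.lf 10) (.dx 0 (.tr (.lf 5) (.lf 9) (.tr (.tw (.lf 13) (.lf 14)) (.lf 6) (.lf 17)))) (.lf 18)), 0, [6, 6, 18, 18, 6, 6, 18, 18], []⟩)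
    (.lf ⟨[.ofNat 0, .ofNat 21360, .negSucc 35503, .ofNat 7968], (.tr (.lf 10) (.dx 0 (.tr (.lf 5) (.tr (.lf 6) (.tw (.lf 13) (.lf 14)) (.lf 9)) (.lf 17))) (.lf 18)), 0, [6, 6, 6, 6, 18, 18, 18, 18], []⟩))
    (.nd (.lf ⟨[.ofNat 0, .negSucc 17327, .negSucc 2599, .ofNat 336], (.tr (.lf 10) (.dx 0 (.tr (.lf 5) (.lf 6) (.tr (.tw (.lf 13) (.lf 14)) (.lf 9) (.lf 17)))) (.lf 18)), 0, [6, 6, 18, 18, 6, 6, 18, 18], []⟩)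
    (.lf ⟨[.ofNat 0, .negSucc 4031, .ofNat 38104, .negSucc 8303], (.tr (.lf 10) (.dx 0 (.tr (.lf 17) (.lf 9) (.tr (.tw (.lf 5) (.lf 6)) (.lf 13) (.lf 14)))) (.lf 18)), 0, [18, 18, 18, 18, 6, 6, 6, 6], []⟩)))
    (.nd (.nd (.lf ⟨[.ofNat 0, .ofNat 4032, .negSucc 38103, .ofNat 8304], (.tr (.lf 10) (.dx 0 (.tr (.lf 13) (.lf 14) (.tr (.tw (.lf 5) (.lf 6)) (.lf 9) (.lf 17)))) (.lf 18)), 0, [6, 6, 6, 6, 18, 18, 18, 18], []⟩)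
    (.lf ⟨[.ofNat 0, .ofNat 3248, .negSucc 855, .ofNat 344], (.tw (.dx 3 (.tr (.lf 1) (.lf 2) (.lf 5))) (.tr (.lf 17) (.lf 18) (.tr (.lf 9) (.lf 6) (.lf 10)))), 3, [23, 23, 0, 0, 23, 23, 4, 4], []⟩))
    (.nd (.lf ⟨[.ofNat 0, .negSucc 14111, .ofNat 25528, .negSucc 7863], (.tr (.dx 3 (.tr (.lf 1) (.lf 2) (.lf 5))) (.tr (.lf 6) (.lf 9) (.tw (.lf 17) (.lf 18))) (.lf 10)), 3, [23, 23, 23, 23, 23, 23, 23, 23], []⟩)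
    (.lf ⟨[.ofNat 0, .negSucc 431, .negSucc 1731, .negSucc 23], (.tr (.lf 2) (.tr (.lf 10) (.dx 3 (.tr (.lf 1) (.lf 9) (.lf 5))) (.tw (.lf 17) (.lf 18))) (.lf 6)), 3, [2, 2, 2, 2, 9, 9, 9, 9], [2, 2, 9, 9]⟩))))

/-- data -/
def dE10x20 : RT := (.nd (.nd (.nd (.lf ⟨[.ofNat 0, .negSucc 2239, .negSucc 1151, .ofNat 80], (.tw (.dx 3 (.tr (.tw (.lf 1) (.lf 2)) (.lf 5) (.lf 9))) (.tr (.lf 6) (.tw (.lf 17) (.lf 18)) (.lf 10))), 3, [23, 23, 21, 21, 23, 23, 21, 21, 23, 23, 21, 21, 23, 23, 21, 21], []⟩)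
    (.lf ⟨[.ofNat 0, .ofNat 3072, .ofNat 2304, .negSucc 159], (.tr (.lf 6) (.lf 17) (.tr (.dx 3 (.tr (.tw (.lf 1) (.lf 2)) (.lf 9) (.lf 5))) (.lf 10) (.lf 18))), 3, [16, 16, 20, 20, 20, 20, 20, 20], []⟩))
    (.nd (.lf ⟨[.ofNat 0, .ofNat 23184, .negSucc 9015, .negSucc 2183], (.tr (.lf 17) (.lf 6) (.tr (.dx 3 (.tr (.tw (.lf 1) (.lf 2)) (.lf 5) (.lf 9))) (.lf 18) (.lf 10))), 3, [23, 23, 19, 19, 11, 11, 1, 1], []⟩)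
    (.lf ⟨[.ofNat 0, .ofNat 480, .ofNat 2768, .ofNat 120], (.tr (.dx 3 (.tr (.tw (.lf 1) (.lf 2)) (.lf 9) (.lf 5))) (.lf 17) (.tr (.lf 6) (.lf 10) (.lf 18))), 3, [2, 21, 2, 21, 8, 21, 8, 21], []⟩)))
    (.nd (.nd (.lf ⟨[.ofNat 0, .negSucc 9367, .ofNat 5860, .ofNat 1920], (.tw (.dx 3 (.tr (.tw (.lf 1) (.lf 2)) (.lf 5) (.lf 9))) (.tr (.lf 17) (.tw (.lf 6) (.lf 10)) (.lf 18))), 3, [0, 0, 0, 0, 0, 0, 0, 0, 10, 10, 10, 10, 10, 10, 10, 10], []⟩)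
    (.lf ⟨[.ofNat 0, .negSucc 13127, .ofNat 3356, .ofNat 1172], (.tw (.lf 6) (.tr (.lf 17) (.tw (.dx 3 (.tr (.tw (.lf 1) (.lf 2)) (.lf 9) (.lf 5))) (.lf 10)) (.lf 18))), 3, [16, 16, 20, 20, 20, 20, 20, 20, 16, 16, 20, 20, 20, 20, 20, 20], []⟩))
    (.nd (.lf ⟨[.negSucc 6655, .ofNat 11520, .ofNat 1216], (.tr (.lf 17) (.dx 3 (.tr (.tw (.lf 1) (.lf 2)) (.lf 5) (.lf 9))) (.tr (.lf 6) (.lf 18) (.lf 10))), 3, [23, 21, 23, 21, 23, 21, 23, 21], []⟩)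
    (.lf ⟨[.ofNat 0, .ofNat 2080, .ofNat 192, .ofNat 112], (.tw (.lf 9) (.tr (.lf 17) (.tr (.dx 0 (.tr (.lf 5) (.lf 6) (.lf 13))) (.lf 10) (.lf 14)) (.lf 18))), 0, [18, 18, 18, 18, 18, 18, 18, 18], []⟩))))

/-- data -/
def dE10x21 : RT := (.nd (.nd (.nd (.lf ⟨[.ofNat 0, .ofNat 2912, .negSucc 191, .ofNat 112], (.tw (.dx 3 (.tr (.lf 17) (.lf 9) (.tw (.lf 1) (.tr (.lf 2) (.lf 18) (.tw (.lf 5) (.lf 6)))))) (.lf 10)), 3, [11, 11, 7, 7, 7, 7, 7, 7, 11, 11, 7, 7, 7, 7, 7, 7], []⟩)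
    (.lf ⟨[.ofNat 0, .ofNat 832, .negSucc 383], (.tr (.lf 17) (.dx 0 (.tr (.lf 5) (.lf 6) (.lf 13))) (.tr (.lf 9) (.tw (.lf 14) (.lf 18)) (.lf 10))), 0, [19, 7, 19, 7, 19, 7, 19, 7], []⟩))
    (.nd (.lf ⟨[.ofNat 6656, .ofNat 15568, .negSucc 8311, .negSucc 2343], (.tr (.lf 6) (.lf 17) (.tr (.lf 10) (.dx 3 (.tr (.tw (.lf 1) (.lf 2)) (.lf 9) (.lf 5))) (.lf 18))), 3, [20, 20, 20, 20, 11, 11, 7, 7], []⟩)
    (.lf ⟨[.ofNat 0, .ofNat 784, .negSucc 495, .negSucc 3655], (.tr (.dx 3 (.tr (.lf 5) (.tw (.lf 1) (.lf 2)) (.lf 17))) (.tr (.lf 9) (.lf 10) (.lf 18)) (.lf 6)), 3, [21, 21, 21, 21, 21, 21, 21, 21], []⟩)))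
    (.nd (.nd (.lf ⟨[.negSucc 2495, .negSucc 18191, .negSucc 7551, .negSucc 343], (.tw (.dx 0 (.tr (.lf 13) (.tw (.lf 5) (.lf 6)) (.lf 17))) (.tr (.tw (.lf 9) (.lf 10)) (.lf 14) (.lf 18))), 0, [0, 0, 7, 7, 0, 0, 7, 7, 12, 12, 7, 7, 12, 12, 7, 7], []⟩)
    (.lf ⟨[.ofNat 0, .negSucc 351, .negSucc 2495, .negSucc 39], (.tr (.lf 6) (.dx 3 (.tr (.lf 1) (.lf 2) (.tr (.lf 17) (.lf 5) (.lf 18)))) (.tw (.lf 9) (.lf 10))), 3, [11, 11, 11, 11, 7, 7, 7, 7], []⟩))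
    (.nd (.lf ⟨[.ofNat 11648, .ofNat 22368, .ofNat 16544, .ofNat 928], (.tr (.dx 0 (.tr (.lf 13) (.tw (.lf 5) (.lf 6)) (.lf 17))) (.tr (.lf 9) (.lf 14) (.lf 18)) (.lf 10)), 0, [0, 7, 0, 7, 12, 7, 12, 7], []⟩)
    (.lf ⟨[.ofNat 6656, .ofNat 32992, .ofNat 14208, .ofNat 1520], (.tr (.lf 9) (.lf 14) (.tr (.dx 0 (.tr (.lf 13) (.tw (.lf 5) (.lf 6)) (.lf 17))) (.lf 10) (.lf 18))), 0, [6, 6, 6, 6, 13, 13, 1, 1], []⟩))))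

/-- data -/
def dE10x22 : RT := (.nd (.nd (.nd (.lf ⟨[.negSucc 831, .negSucc 5567, .ofNat 12768, .ofNat 3056], (.tr (.lf 6) (.dx 3 (.tr (.lf 1) (.lf 2) (.tr (.lf 17) (.tw (.lf 5) (.lf 9)) (.lf 18)))) (.lf 10)), 3, [4, 4, 4, 4, 7, 7, 7, 7], []⟩)
    (.lf ⟨[.negSucc 6655, .negSucc 10095, .ofNat 4416, .ofNat 2512], (.tw (.lf 14) (.tr (.dx 0 (.tr (.lf 13) (.tw (.lf 5) (.lf 6)) (.lf 17))) (.tw (.lf 9) (.lf 10)) (.lf 18))), 0, [19, 19, 19, 19, 19, 19, 19, 19, 13, 13, 1, 1, 13, 13, 1, 1], []⟩))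
    (.nd (.lf ⟨[.negSucc 13311, .negSucc 18143, .ofNat 7520, .ofNat 5024], (.tr (.lf 14) (.lf 9) (.tr (.lf 10) (.dx 0 (.tr (.lf 13) (.tw (.lf 5) (.lf 6)) (.lf 17))) (.lf 18))), 0, [6, 6, 6, 6, 19, 19, 7, 7], []⟩)
    (.lf ⟨[.ofNat 0, .ofNat 1216, .negSucc 1407], (.tw (.dx 3 (.tr (.tw (.lf 1) (.lf 2)) (.lf 17) (.lf 5))) (.tr (.lf 6) (.tw (.lf 9) (.lf 10)) (.lf 18))), 3, [23, 23, 21, 21, 23, 23, 21, 21, 23, 23, 21, 21, 23, 23, 21, 21], []⟩)))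
    (.nd (.nd (.lf ⟨[.ofNat 0, .ofNat 12072, .ofNat 3640, .ofNat 4680], (.tr (.dx 3 (.tr (.tw (.lf 1) (.lf 2)) (.lf 5) (.lf 17))) (.lf 6) (.tr (.lf 9) (.lf 18) (.lf 10))), 3, [23, 23, 23, 23, 23, 23, 23, 23], []⟩)
    (.lf ⟨[.ofNat 0, .negSucc 26959, .negSucc 5663, .negSucc 9359], (.tr (.dx 3 (.tr (.lf 1) (.tw (.lf 2) (.lf 5)) (.lf 17))) (.lf 6) (.tr (.lf 9) (.lf 18) (.lf 10))), 3, [23, 23, 23, 23, 23, 23, 23, 23], []⟩))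
    (.nd (.lf ⟨[.ofNat 0, .negSucc 26959, .negSucc 5663, .negSucc 9359], (.tr (.lf 10) (.dx 3 (.tr (.lf 1) (.tr (.lf 5) (.tw (.lf 2) (.lf 17)) (.lf 6)) (.lf 9))) (.lf 18)), 3, [6, 6, 6, 6, 10, 10, 10, 10], []⟩)
    (.lf ⟨[.ofNat 0, .ofNat 21104, .ofNat 4592, .ofNat 10624], (.tr (.lf 10) (.dx 3 (.tw (.lf 9) (.tr (.lf 1) (.tr (.lf 2) (.lf 17) (.lf 5)) (.lf 6)))) (.lf 18)), 3, [6, 6, 10, 10, 6, 6, 10, 10], []⟩))))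

/-- data -/
def dE10x23 : RT := (.nd (.nd (.nd (.lf ⟨[.ofNat 0, .ofNat 1504, .ofNat 488], (.tr (.lf 6) (.dx 3 (.tr (.tw (.lf 1) (.lf 2)) (.lf 5) (.lf 17))) (.tr (.lf 9) (.lf 18) (.lf 10))), 3, [23, 23, 23, 23, 19, 19, 19, 19], []⟩)
    (.lf ⟨[.ofNat 3328, .negSucc 3199, .negSucc 9871, .negSucc 3351], (.tr (.dx 3 (.tr (.tw (.lf 1) (.lf 2)) (.lf 17) (.lf 5))) (.tr (.lf 9) (.lf 18) (.lf 10)) (.lf 6)), 3, [21, 21, 21, 21, 21, 21, 21, 21], []⟩))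
    (.nd (.lf ⟨[.negSucc 6655, .negSucc 9071, .ofNat 3760, .ofNat 2512], (.tw (.lf 18) (.tr (.lf 9) (.tw (.dx 3 (.tr (.tw (.lf 1) (.lf 2)) (.lf 17) (.lf 5))) (.lf 6)) (.lf 10))), 3, [11, 11, 11, 11, 11, 11, 7, 7, 11, 11, 11, 11, 11, 11, 7, 7], []⟩)
    (.lf ⟨[.ofNat 19968, .ofNat 11744, .negSucc 27263, .negSucc 11727], (.tw (.dx 0 (.tr (.lf 13) (.lf 5) (.tr (.lf 6) (.lf 17) (.tr (.lf 9) (.lf 14) (.lf 10))))) (.lf 18)), 0, [0, 0, 0, 0, 12, 12, 2, 2], []⟩)))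
    (.nd (.nd (.lf ⟨[.ofNat 0, .negSucc 3679, .ofNat 2688, .ofNat 1600], (.tw (.dx 0 (.tr (.lf 5) (.lf 17) (.tr (.lf 13) (.lf 6) (.tr (.lf 9) (.lf 14) (.lf 10))))) (.lf 18)), 0, [12, 12, 12, 12, 0, 0, 2, 2], []⟩)
    (.lf ⟨[.ofNat 0, .ofNat 416, .negSucc 1103, .ofNat 88], (.tw (.dx 0 (.tr (.lf 5) (.tw (.lf 17) (.tr (.lf 13) (.tw (.lf 6) (.lf 9)) (.lf 14))) (.lf 10))) (.lf 18)), 0, [12, 12, 12, 12, 0, 0, 0, 0, 14, 14, 14, 14, 2, 2, 2, 2], []⟩))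
    (.nd (.lf ⟨[.ofNat 0, .ofNat 2624, .ofNat 1760, .negSucc 175], (.tw (.dx 0 (.tr (.lf 5) (.lf 13) (.tr (.lf 9) (.tr (.lf 6) (.lf 14) (.lf 17)) (.lf 10)))) (.lf 18)), 0, [0, 0, 0, 0, 2, 14, 2, 14], []⟩)
    (.lf ⟨[.ofNat 0, .negSucc 1311, .negSucc 879, .ofNat 88], (.tw (.lf 18) (.tr (.lf 9) (.tw (.dx 0 (.tr (.lf 13) (.tw (.lf 5) (.lf 17)) (.lf 14))) (.lf 6)) (.lf 10))), 0, [11, 11, 11, 11, 7, 7, 7, 7, 11, 11, 11, 11, 7, 7, 7, 7], []⟩))))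

/-- data -/
def dE10x24 : RT := (.nd (.nd (.nd (.lf ⟨[.ofNat 0, .ofNat 800, .negSucc 6543, .negSucc 791], (.tr (.lf 9) (.lf 6) (.tr (.dx 0 (.tr (.lf 13) (.tw (.lf 5) (.lf 17)) (.lf 14))) (.lf 10) (.lf 18))), 0, [10, 10, 10, 10, 22, 22, 22, 22], []⟩)
    (.lf ⟨[.ofNat 8320, .negSucc 15135, .ofNat 12608, .negSucc 399], (.tr (.dx 0 (.tr (.lf 13) (.tw (.lf 5) (.lf 17)) (.lf 14))) (.lf 9) (.tr (.lf 10) (.lf 6) (.lf 18))), 0, [0, 23, 0, 23, 0, 23, 0, 23], []⟩))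
    (.nd (.lf ⟨[.negSucc 14975, .ofNat 24704, .ofNat 12816, .ofNat 5968], (.tr (.lf 18) (.lf 6) (.tr (.dx 0 (.tr (.lf 13) (.tw (.lf 5) (.lf 17)) (.lf 14))) (.lf 9) (.lf 10))), 0, [7, 7, 7, 7, 1, 1, 1, 1], []⟩)
    (.lf ⟨[.ofNat 6656, .negSucc 14719, .negSucc 479], (.tr (.lf 9) (.lf 10) (.tr (.dx 0 (.tr (.lf 13) (.tw (.lf 5) (.lf 17)) (.lf 14))) (.lf 6) (.lf 18))), 0, [6, 6, 6, 6, 22, 22, 22, 22], []⟩)))
    (.nd (.nd (.lf ⟨[.negSucc 3327, .ofNat 5712, .ofNat 1472, .ofNat 936], (.tw (.dx 0 (.tr (.lf 13) (.tw (.lf 5) (.lf 17)) (.lf 14))) (.tr (.lf 9) (.tw (.lf 6) (.lf 18)) (.lf 10))), 0, [23, 23, 23, 23, 23, 23, 23, 23, 23, 23, 23, 23, 23, 23, 23, 23], []⟩)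
    (.lf ⟨[.ofNat 6656, .negSucc 13503, .ofNat 1184, .negSucc 5495], (.tr (.lf 9) (.lf 18) (.tr (.dx 0 (.tr (.lf 13) (.tw (.lf 5) (.lf 17)) (.lf 14))) (.lf 10) (.lf 6))), 0, [9, 9, 9, 9, 22, 22, 22, 22], []⟩))
    (.nd (.lf ⟨[.negSucc 3327, .ofNat 6304, .ofNat 2992, .ofNat 312], (.tw (.lf 6) (.tr (.lf 9) (.tw (.dx 0 (.tr (.lf 13) (.tw (.lf 5) (.lf 17)) (.lf 14))) (.lf 18)) (.lf 10))), 0, [8, 8, 8, 8, 20, 20, 20, 20, 8, 8, 8, 8, 20, 20, 20, 20], []⟩)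
    (.lf ⟨[.ofNat 6656, .negSucc 16767, .negSucc 1535, .ofNat 160], (.tr (.lf 6) (.tr (.dx 0 (.tr (.lf 13) (.tw (.lf 5) (.lf 17)) (.lf 14))) (.lf 18) (.lf 9)) (.lf 10)), 0, [19, 19, 19, 19, 20, 20, 20, 20], []⟩))))

/-- data -/
def dE10 : RT := (.nd (.nd (.nd (.nd dE10x0 (.nd dE10x1 dE10x2)) (.nd dE10x3 (.nd dE10x4 dE10x5))) (.nd (.nd dE10x6 (.nd dE10x7 dE10x8)) (.nd dE10x9 (.nd dE10x10 dE10x11)))) (.nd (.nd (.nd dE10x12 (.nd dE10x13 dE10x14)) (.nd dE10x15 (.nd dE10x16 dE10x17))) (.nd (.nd dE10x18 (.nd dE10x19 dE10x20)) (.nd (.nd dE10x21 dE10x22) (.nd dE10x23 dE10x24)))))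

/-- data -/
def lE10x0 : List (ℕ × List ℤ) := [(43371, [.ofNat 0, .ofNat 0, .ofNat 3456, .ofNat 13856, .ofNat 192]),
  (333597, [.ofNat 0, .negSucc 133119, .negSucc 14271, .ofNat 192416, .ofNat 49552]),
  (342181, [.ofNat 0, .ofNat 0, .negSucc 18559, .ofNat 14912, .ofNat 3488]),
  (345317, [.ofNat 0, .ofNat 0, .negSucc 1407, .ofNat 15040, .ofNat 32]),
  (403669, [.ofNat 0, .negSucc 53247, .negSucc 88191, .ofNat 18048, .ofNat 30272]),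
  (21904141, [.ofNat 0, .ofNat 0, .ofNat 0, .ofNat 352]),
  (21911372, [.ofNat 0, .ofNat 0, .ofNat 4864]),
  (22071133, [.ofNat 0, .negSucc 13311, .ofNat 9472, .ofNat 4320]),
  (22075228, [.ofNat 0, .ofNat 0, .ofNat 2432, .negSucc 351]),
  (25511773, [.ofNat 0, .ofNat 13312, .negSucc 9471, .negSucc 4319]),
  (25569109, [.ofNat 0, .ofNat 0, .negSucc 2431]),
  (25569949, [.ofNat 0, .ofNat 0, .ofNat 2432]),
  (25744732, [.ofNat 0, .negSucc 13311, .ofNat 15232, .ofNat 4352]),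
  (25745244, [.ofNat 0, .ofNat 0, .ofNat 2432, .negSucc 351]),
  (25806157, [.ofNat 0, .ofNat 13312, .negSucc 37631, .negSucc 5887, .ofNat 640]),
  (25806669, [.ofNat 0, .ofNat 26624, .negSucc 47103, .negSucc 10559, .ofNat 640]),
  (25832029, [.ofNat 0, .ofNat 13312, .negSucc 35967, .negSucc 3935, .ofNat 640]),
  (25832141, [.ofNat 0, .ofNat 13312, .negSucc 35967, .negSucc 3935, .ofNat 640]),
  (25834845, [.ofNat 0, .ofNat 13312, .negSucc 4607, .negSucc 5023]),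
  (25836245, [.ofNat 0, .negSucc 13311, .ofNat 24576, .negSucc 479]),
  (25842893, [.ofNat 0, .ofNat 0, .negSucc 4863]),
  (25859420, [.ofNat 0, .ofNat 0, .ofNat 384, .negSucc 799]),
  (25859932, [.ofNat 0, .ofNat 0, .ofNat 9728, .negSucc 5631]),
  (25863004, [.ofNat 0, .ofNat 0, .ofNat 9728, .negSucc 5631]),
  (25864012, [.ofNat 0, .ofNat 0, .negSucc 767, .ofNat 2304]),
  (25867100, [.ofNat 0, .ofNat 0, .ofNat 384, .negSucc 799]),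
  (25867596, [.ofNat 0, .ofNat 0, .negSucc 767, .ofNat 2304]),
  (25868892, [.ofNat 0, .negSucc 13311, .ofNat 15232, .ofNat 4352]),
  (26559693, [.ofNat 0, .ofNat 0, .ofNat 0, .ofNat 352]),
  (26564236, [.ofNat 0, .ofNat 13312, .negSucc 29439, .ofNat 832]),
  (156128933, [.ofNat 13312, .negSucc 23039, .negSucc 2431]),
  (156128940, [.negSucc 13311, .ofNat 23040, .ofNat 2432]),
  (156358813, [.negSucc 16639, .ofNat 19968, .ofNat 24672, .ofNat 11936]),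
  (156416157, [.negSucc 16639, .ofNat 19968, .ofNat 24672, .ofNat 11936]),
  (159988061, [.ofNat 0, .negSucc 255, .negSucc 11519, .negSucc 1407]),
  (159995747, [.ofNat 0, .negSucc 1407, .negSucc 9983, .negSucc 159]),
  (159996125, [.ofNat 0, .ofNat 2432, .negSucc 4383, .negSucc 127]),
  (160027947, [.negSucc 13311, .ofNat 29440, .ofNat 960]),
  (160028843, [.negSucc 13311, .ofNat 29440, .ofNat 960]),
  (160086355, [.negSucc 13311, .ofNat 33536, .ofNat 3072, .negSucc 319]),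
  (160089813, [.ofNat 0, .ofNat 256, .ofNat 11520, .ofNat 1408]),
  (160089939, [.negSucc 13311, .ofNat 33536, .ofNat 3072, .negSucc 319]),
  (160770269, [.ofNat 0, .ofNat 2432, .negSucc 4383, .negSucc 127]),
  (160773930, [.negSucc 26623, .ofNat 27104, .ofNat 9216, .ofNat 4544]),
  (160774490, [.ofNat 0, .ofNat 10496, .negSucc 255]),
  (160774938, [.ofNat 0, .ofNat 10496, .negSucc 255]),
  (160777962, [.ofNat 13312, .negSucc 28031, .ofNat 2880, .ofNat 480]),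
  (160782050, [.ofNat 13312, .negSucc 29439, .negSucc 7103, .ofNat 320]),
  (160782554, [.negSucc 26623, .ofNat 27104, .ofNat 9216, .ofNat 4544]),
  (170801829, [.ofNat 66560, .ofNat 7136, .negSucc 96207, .negSucc 24775]),
  (170805973, [.ofNat 0, .negSucc 10879, .ofNat 800, .negSucc 63]),
  (170809109, [.ofNat 0, .ofNat 19072, .ofNat 320, .ofNat 480]),
  (171038933, [.ofNat 0, .negSucc 1663, .ofNat 6464, .negSucc 927]),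
  (171070685, [.ofNat 0, .ofNat 21728, .negSucc 49343, .ofNat 15040]),
  (171091741, [.ofNat 0, .ofNat 9248, .negSucc 17711, .negSucc 3975]),
  (171092189, [.ofNat 0, .ofNat 8576, .negSucc 18143, .ofNat 448]),
  (172903005, [.ofNat 0, .ofNat 6176, .ofNat 3328, .negSucc 463]),
  (173070053, [.ofNat 16640, .negSucc 15359, .negSucc 51519, .negSucc 11487]),
  (173070557, [.ofNat 0, .negSucc 3839, .negSucc 2015, .ofNat 2400]),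
  (173071068, [.ofNat 0, .negSucc 14719, .ofNat 4640, .ofNat 2528]),
  (173119340, [.ofNat 0, .ofNat 6912, .negSucc 2815]),
  (173120285, [.ofNat 0, .ofNat 5248, .negSucc 127]),
  (173126445, [.ofNat 16640, .negSucc 29055, .negSucc 44863, .negSucc 11359]),
  (173128293, [.ofNat 16640, .negSucc 15359, .negSucc 51519, .negSucc 11487]),
  (173128300, [.ofNat 0, .ofNat 4096, .ofNat 8640, .negSucc 1023]),
  (173128461, [.ofNat 0, .ofNat 768, .negSucc 4415]),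
  (173132493, [.ofNat 0, .ofNat 5248, .negSucc 127]),
  (173167325, [.ofNat 0, .ofNat 3328, .negSucc 4991, .ofNat 320]),
  (173168333, [.ofNat 0, .ofNat 3328, .negSucc 4991, .ofNat 320]),
  (173184741, [.ofNat 0, .negSucc 2527, .negSucc 2783, .ofNat 2368]),
  (173185245, [.ofNat 0, .negSucc 25343, .ofNat 5056, .ofNat 2464]),
  (173185756, [.ofNat 0, .ofNat 3328, .ofNat 1536, .negSucc 383]),
  (173192973, [.ofNat 0, .negSucc 21503, .ofNat 7072, .ofNat 64]),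
  (173197005, [.ofNat 0, .negSucc 1567, .ofNat 992, .ofNat 7312]),
  (173200988, [.ofNat 0, .ofNat 6912, .negSucc 2815]),
  (174467932, [.ofNat 0, .negSucc 9343, .ofNat 2784, .ofNat 11712]),
  (174472020, [.ofNat 0, .negSucc 14591, .negSucc 1535, .ofNat 11648]),
  (174475093, [.ofNat 0, .negSucc 3583, .negSucc 415, .negSucc 223]),
  (174725980, [.ofNat 0, .negSucc 11903, .ofNat 3744, .ofNat 2528]),
  (174733925, [.ofNat 0, .negSucc 23999, .ofNat 5536, .negSucc 1727]),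
  (174902100, [.ofNat 0, .negSucc 8063, .ofNat 76208, .negSucc 16607]),
  (174986604, [.ofNat 0, .negSucc 959, .negSucc 5535, .negSucc 239]),
  (174988130, [.negSucc 13311, .negSucc 31135, .ofNat 16624, .ofNat 4688]),
  (175004244, [.ofNat 0, .ofNat 5376, .negSucc 50831, .ofNat 14192]),
  (175160148, [.ofNat 0, .negSucc 18687, .ofNat 1728, .ofNat 2464]),
  (175167722, [.ofNat 0, .negSucc 1791, .ofNat 14336, .negSucc 9743]),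
  (175192684, [.ofNat 0, .negSucc 11711, .negSucc 2143, .ofNat 2528]),
  (175196765, [.ofNat 13312, .ofNat 36064, .ofNat 25632, .negSucc 5007]),
  (175196877, [.ofNat 0, .ofNat 2624, .ofNat 7264, .negSucc 2159]),
  (175200461, [.ofNat 0, .negSucc 3647, .negSucc 16607, .negSucc 1231]),
  (175200860, [.ofNat 0, .ofNat 2816, .ofNat 896]),
  (175216981, [.ofNat 79872, .ofNat 118912, .negSucc 103519, .negSucc 44527]),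
  (175233109, [.ofNat 0, .negSucc 9919, .ofNat 4384, .ofNat 1216]),
  (175250077, [.ofNat 0, .ofNat 11904, .negSucc 3743, .negSucc 2527]),
  (175254109, [.ofNat 0, .ofNat 6784, .ofNat 2016, .ofNat 64]),
  (175265365, [.ofNat 0, .negSucc 13375, .ofNat 25664, .ofNat 9696]),
  (175282410, [.ofNat 0, .negSucc 1791, .ofNat 14336, .negSucc 9743]),
  (175286477, [.ofNat 0, .ofNat 1600, .negSucc 13087, .negSucc 1583]),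
  (175289613, [.ofNat 0, .negSucc 10495, .ofNat 1920]),
  (175289676, [.ofNat 0, .negSucc 1663, .ofNat 3808, .ofNat 64])]

/-- data -/
def lE10x1 : List (ℕ × List ℤ) := [(175298132, [.ofNat 0, .ofNat 10880, .negSucc 799, .ofNat 64]),
  (176503651, [.ofNat 0, .ofNat 1728, .ofNat 6928, .ofNat 96]),
  (176543019, [.negSucc 3327, .ofNat 5824, .negSucc 18015, .negSucc 1359]),
  (176543915, [.negSucc 3327, .ofNat 5824, .negSucc 18015, .negSucc 1359]),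
  (176802397, [.ofNat 0, .negSucc 6207, .negSucc 9055, .ofNat 112]),
  (176802509, [.ofNat 0, .negSucc 4991, .negSucc 6559, .ofNat 3536]),
  (176855261, [.negSucc 13311, .ofNat 12800, .ofNat 39488, .ofNat 13408]),
  (176863969, [.ofNat 0, .ofNat 3328, .negSucc 8319, .ofNat 320]),
  (176866909, [.ofNat 0, .negSucc 42399, .ofNat 47376, .ofNat 5016]),
  (177002324, [.negSucc 13311, .negSucc 100287, .ofNat 18880, .ofNat 25136]),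
  (177019243, [.ofNat 0, .negSucc 1727, .negSucc 6927, .negSucc 95]),
  (177027685, [.ofNat 0, .negSucc 40447, .negSucc 12063, .negSucc 9263]),
  (177027692, [.ofNat 0, .negSucc 57503, .negSucc 18303, .negSucc 18047]),
  (177031773, [.ofNat 0, .negSucc 6911, .negSucc 1535, .ofNat 128]),
  (177031885, [.ofNat 0, .ofNat 6912, .negSucc 895]),
  (177035084, [.ofNat 26624, .ofNat 37440, .negSucc 14271, .negSucc 10047]),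
  (177035868, [.ofNat 0, .ofNat 13312, .ofNat 4320, .negSucc 95]),
  (177052437, [.ofNat 0, .ofNat 5248, .negSucc 127]),
  (177068117, [.ofNat 0, .ofNat 13184, .ofNat 12416, .ofNat 256]),
  (177068628, [.ofNat 0, .negSucc 10719, .ofNat 28672, .ofNat 7104]),
  (177084245, [.ofNat 13312, .ofNat 100288, .negSucc 18879, .negSucc 25135]),
  (177117530, [.ofNat 0, .ofNat 8320, .negSucc 8895, .negSucc 1567]),
  (177124684, [.negSucc 39935, .negSucc 16127, .ofNat 49152, .ofNat 20256]),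
  (177128282, [.ofNat 0, .ofNat 8320, .negSucc 8895, .negSucc 1567]),
  (177132244, [.ofNat 0, .ofNat 3584, .ofNat 416, .ofNat 224]),
  (177264341, [.ofNat 0, .negSucc 34655, .negSucc 5199, .ofNat 672]),
  (177314517, [.ofNat 0, .ofNat 18688, .negSucc 1727, .negSucc 2463]),
  (177318493, [.ofNat 0, .negSucc 5119, .ofNat 5760, .ofNat 2592]),
  (177328853, [.ofNat 0, .ofNat 17152, .ofNat 576, .negSucc 2463]),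
  (177378525, [.ofNat 0, .negSucc 959, .negSucc 5535, .negSucc 239]),
  (177379029, [.ofNat 0, .ofNat 8064, .negSucc 76207, .ofNat 16608]),
  (177386141, [.ofNat 0, .ofNat 10880, .negSucc 799, .ofNat 64]),
  (177386589, [.ofNat 0, .ofNat 10880, .negSucc 799, .ofNat 64]),
  (177387149, [.ofNat 0, .negSucc 959, .negSucc 5535, .negSucc 239]),
  (177519316, [.negSucc 79871, .negSucc 118911, .ofNat 103520, .ofNat 44528]),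
  (177522389, [.ofNat 0, .negSucc 3583, .ofNat 0, .negSucc 607]),
  (177542955, [.ofNat 0, .ofNat 0, .ofNat 640]),
  (177543011, [.ofNat 0, .ofNat 0, .negSucc 639]),
  (177551117, [.ofNat 0, .negSucc 6911, .ofNat 896]),
  (177551180, [.ofNat 0, .negSucc 1535, .negSucc 1375]),
  (177552076, [.ofNat 0, .ofNat 5696, .negSucc 959, .negSucc 3551]),
  (177555037, [.ofNat 0, .negSucc 19071, .negSucc 319, .negSucc 479]),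
  (177559244, [.ofNat 0, .negSucc 5247, .ofNat 128]),
  (177580748, [.ofNat 0, .negSucc 6911, .ofNat 896]),
  (177583373, [.ofNat 0, .negSucc 1151, .negSucc 767]),
  (177583436, [.ofNat 0, .negSucc 3199, .negSucc 607]),
  (177584213, [.ofNat 0, .ofNat 2432, .negSucc 4383, .negSucc 127]),
  (177587405, [.ofNat 0, .negSucc 5247, .negSucc 3519, .ofNat 352]),
  (177587797, [.negSucc 66559, .negSucc 49535, .ofNat 143584, .ofNat 29792]),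
  (177645148, [.ofNat 0, .ofNat 13376, .negSucc 25663, .negSucc 9695]),
  (204035813, [.ofNat 0, .ofNat 42208, .ofNat 9184, .ofNat 21248]),
  (204068069, [.ofNat 0, .negSucc 11711, .negSucc 2143, .ofNat 2528]),
  (204125861, [.ofNat 0, .ofNat 5632, .negSucc 3231]),
  (204129501, [.ofNat 0, .ofNat 5632, .negSucc 3231]),
  (204129949, [.ofNat 0, .ofNat 53920, .ofNat 11328, .ofNat 18720]),
  (204646059, [.ofNat 0, .negSucc 16703, .ofNat 4448, .ofNat 3456]),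
  (204810027, [.ofNat 0, .negSucc 6015, .negSucc 1951]),
  (204875498, [.ofNat 0, .negSucc 6015, .negSucc 1951]),
  (205863275, [.ofNat 0, .negSucc 1471, .ofNat 2416, .ofNat 32]),
  (205863779, [.ofNat 0, .negSucc 1471, .ofNat 2416, .ofNat 32]),
  (205866859, [.ofNat 0, .ofNat 33408, .negSucc 8895, .negSucc 6911]),
  (205896042, [.ofNat 13312, .ofNat 31136, .negSucc 16623, .negSucc 4687]),
  (205896364, [.negSucc 13311, .ofNat 28160, .ofNat 4448]),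
  (205903147, [.ofNat 0, .ofNat 4160, .negSucc 8255, .ofNat 7248]),
  (205904043, [.ofNat 0, .ofNat 4160, .negSucc 8255, .ofNat 7248]),
  (206092077, [.negSucc 16639, .ofNat 29056, .ofNat 44864, .ofNat 11360]),
  (206092651, [.ofNat 13312, .ofNat 31136, .negSucc 16623, .negSucc 4687]),
  (206100197, [.ofNat 16640, .negSucc 32127, .negSucc 55935, .negSucc 18463]),
  (206100701, [.ofNat 0, .negSucc 20607, .negSucc 6431, .negSucc 4575]),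
  (206101212, [.ofNat 0, .negSucc 14719, .ofNat 4640, .ofNat 2528]),
  (206149484, [.ofNat 0, .negSucc 959, .negSucc 5535, .negSucc 239]),
  (206150429, [.ofNat 0, .ofNat 3584, .ofNat 0, .ofNat 608]),
  (206150492, [.ofNat 0, .negSucc 34655, .negSucc 5199, .ofNat 672]),
  (206150499, [.negSucc 13311, .negSucc 31135, .ofNat 16624, .ofNat 4688]),
  (206162525, [.ofNat 0, .ofNat 1920, .ofNat 768, .ofNat 608]),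
  (206166221, [.ofNat 0, .negSucc 6911, .ofNat 896]),
  (206166620, [.ofNat 0, .negSucc 37471, .negSucc 5199, .ofNat 672]),
  (206191337, [.ofNat 0, .negSucc 3327, .ofNat 8320, .negSucc 319]),
  (206214885, [.ofNat 16640, .negSucc 33951, .negSucc 46879, .negSucc 4111]),
  (206214955, [.ofNat 9984, .negSucc 21247, .ofNat 4672, .negSucc 1183]),
  (206215011, [.negSucc 13311, .negSucc 1023, .ofNat 46400, .ofNat 13408]),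
  (206222179, [.negSucc 3327, .negSucc 22271, .ofNat 51072, .ofNat 12224]),
  (206222949, [.ofNat 0, .ofNat 30944, .negSucc 1439, .ofNat 22560]),
  (206223117, [.ofNat 0, .negSucc 10495, .ofNat 256]),
  (206223565, [.ofNat 13312, .negSucc 12799, .negSucc 39487, .negSucc 13407]),
  (206227149, [.ofNat 0, .negSucc 1823, .ofNat 9056, .ofNat 14352]),
  (206394981, [.ofNat 0, .ofNat 3584, .ofNat 6976, .negSucc 671]),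
  (206394988, [.ofNat 0, .ofNat 40448, .ofNat 12064, .ofNat 9264]),
  (206424661, [.ofNat 0, .negSucc 1535, .negSucc 1375]),
  (206426796, [.ofNat 0, .negSucc 5119, .negSucc 2015]),
  (206427244, [.ofNat 0, .ofNat 1664, .negSucc 767]),
  (206428301, [.ofNat 0, .negSucc 1151, .negSucc 767]),
  (206453333, [.ofNat 26624, .ofNat 48000, .negSucc 43583, .negSucc 19455]),
  (206453389, [.ofNat 39936, .ofNat 16128, .negSucc 49151, .negSucc 20255]),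
  (206460557, [.ofNat 13312, .negSucc 20735, .negSucc 18079, .negSucc 3615]),
  (206481004, [.ofNat 0, .ofNat 10496, .negSucc 863, .negSucc 511]),
  (206482012, [.ofNat 13312, .negSucc 6431, .negSucc 7391, .negSucc 7423]),
  (206489229, [.ofNat 13312, .negSucc 32895, .negSucc 12351, .negSucc 3551]),
  (206492764, [.ofNat 0, .ofNat 5120, .negSucc 5759, .negSucc 2591]),
  (206657117, [.ofNat 0, .ofNat 16704, .negSucc 4447, .negSucc 3455])]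

/-- data -/
def lE10x2 : List (ℕ × List ℤ) := [(206678621, [.ofNat 13312, .ofNat 43872, .negSucc 6879, .negSucc 2623]),
  (206682765, [.negSucc 13311, .ofNat 29696, .ofNat 43456, .ofNat 13088]),
  (206874348, [.ofNat 0, .negSucc 1663, .ofNat 768]),
  (206878380, [.negSucc 13311, .negSucc 20895, .ofNat 14144, .ofNat 2528]),
  (206903020, [.ofNat 13312, .negSucc 23039, .negSucc 2431]),
  (206911084, [.negSucc 13311, .negSucc 20895, .ofNat 14144, .ofNat 2528]),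
  (206912092, [.negSucc 26623, .negSucc 47999, .ofNat 43584, .ofNat 19456]),
  (206939756, [.ofNat 0, .ofNat 24000, .negSucc 5535, .ofNat 1728]),
  (206944397, [.negSucc 13311, .ofNat 29696, .ofNat 43456, .ofNat 13088]),
  (206968533, [.negSucc 13311, .ofNat 19136, .ofNat 50848, .ofNat 11136]),
  (206972509, [.ofNat 0, .ofNat 1664, .negSucc 6463, .ofNat 928]),
  (206976653, [.ofNat 0, .negSucc 1663, .ofNat 768]),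
  (207008860, [.ofNat 0, .ofNat 5120, .negSucc 5759, .negSucc 2591]),
  (210064605, [.ofNat 0, .ofNat 28224, .negSucc 51055, .ofNat 15728]),
  (210065109, [.ofNat 0, .ofNat 28224, .negSucc 51055, .ofNat 15728]),
  (210286421, [.ofNat 0, .negSucc 8959, .negSucc 4607, .ofNat 320]),
  (210294485, [.ofNat 0, .negSucc 40287, .negSucc 5199, .ofNat 672]),
  (210326237, [.ofNat 0, .negSucc 14719, .ofNat 4640, .ofNat 2528]),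
  (210327133, [.ofNat 0, .ofNat 10720, .negSucc 28671, .negSucc 7103]),
  (210327245, [.ofNat 0, .negSucc 14719, .ofNat 4640, .ofNat 2528]),
  (210352725, [.ofNat 0, .negSucc 2815]),
  (210352781, [.ofNat 0, .negSucc 2815]),
  (210359389, [.ofNat 0, .negSucc 13311, .negSucc 4319, .ofNat 96]),
  (210408669, [.ofNat 0, .ofNat 2816]),
  (210412253, [.ofNat 0, .ofNat 8960, .ofNat 4608, .negSucc 319]),
  (210416285, [.ofNat 0, .ofNat 2816, .ofNat 896]),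
  (211068573, [.ofNat 0, .negSucc 6399, .ofNat 9856, .ofNat 2560]),
  (211101277, [.ofNat 0, .ofNat 16352, .ofNat 1488, .ofNat 848]),
  (211104973, [.ofNat 0, .negSucc 6399, .ofNat 9856, .ofNat 2560]),
  (212151004, [.ofNat 0, .negSucc 3455, .negSucc 4223, .ofNat 2400]),
  (212154133, [.ofNat 0, .ofNat 1664, .negSucc 767]),
  (212155036, [.ofNat 0, .ofNat 10496, .negSucc 863, .negSucc 511]),
  (212158165, [.ofNat 0, .ofNat 1664, .negSucc 767]),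
  (212383068, [.ofNat 0, .ofNat 960, .ofNat 5536, .ofNat 240]),
  (212391636, [.ofNat 0, .negSucc 1663, .ofNat 128, .ofNat 608]),
  (212408541, [.ofNat 0, .negSucc 10495, .negSucc 3519, .ofNat 672]),
  (212420189, [.ofNat 0, .ofNat 19328, .negSucc 1343, .ofNat 832]),
  (212420301, [.ofNat 0, .ofNat 17152, .ofNat 2208, .ofNat 6976]),
  (212440300, [.ofNat 0, .negSucc 11199, .negSucc 7807, .negSucc 4943]),
  (212440412, [.ofNat 0, .ofNat 960, .ofNat 5536, .ofNat 240]),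
  (212456540, [.ofNat 0, .ofNat 6912, .ofNat 1536, .negSucc 127]),
  (212457044, [.ofNat 0, .ofNat 6912, .ofNat 1536, .negSucc 127]),
  (212473557, [.negSucc 13311, .ofNat 19136, .ofNat 50848, .ofNat 11136]),
  (212477533, [.ofNat 0, .negSucc 671, .negSucc 13327, .negSucc 2759]),
  (212513884, [.negSucc 13311, .negSucc 33439, .negSucc 18367, .ofNat 2848]),
  (212514388, [.ofNat 0, .ofNat 5120, .ofNat 2016]),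
  (213202516, [.ofNat 0, .negSucc 6175, .negSucc 3327, .ofNat 464]),
  (556357349, [.ofNat 0, .ofNat 768, .negSucc 1599]),
  (556357853, [.ofNat 0, .ofNat 768, .negSucc 1599]),
  (556378349, [.ofNat 0, .negSucc 6495, .ofNat 1712, .negSucc 687]),
  (556378461, [.ofNat 0, .ofNat 352, .negSucc 12175, .negSucc 4463]),
  (556382549, [.ofNat 0, .ofNat 768, .negSucc 1599]),
  (556382997, [.ofNat 0, .negSucc 767, .ofNat 1600]),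
  (556386133, [.ofNat 13312, .negSucc 40191, .negSucc 36351, .negSucc 14015]),
  (556386973, [.ofNat 0, .negSucc 37471, .ofNat 23440, .ofNat 7680]),
  (556390613, [.ofNat 0, .negSucc 9855, .negSucc 10943, .negSucc 3551]),
  (556414189, [.ofNat 0, .ofNat 6496, .negSucc 1711, .ofNat 688]),
  (556414805, [.ofNat 0, .ofNat 4096, .negSucc 2623]),
  (556422869, [.ofNat 0, .ofNat 128, .negSucc 5599, .ofNat 320]),
  (556443869, [.ofNat 0, .negSucc 4863, .ofNat 5632]),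
  (556447509, [.ofNat 0, .negSucc 767, .ofNat 3008]),
  (556451485, [.ofNat 0, .negSucc 47871, .ofNat 5632, .ofNat 2480]),
  (556451541, [.ofNat 26624, .ofNat 2272, .ofNat 1792, .negSucc 11215]),
  (558217557, [.ofNat 0, .ofNat 352, .negSucc 12175, .negSucc 4463]),
  (558217893, [.ofNat 13312, .negSucc 4223, .ofNat 5344, .negSucc 10007]),
  (558221141, [.ofNat 0, .ofNat 11072, .negSucc 959, .ofNat 2048]),
  (558282405, [.negSucc 13311, .negSucc 5055, .negSucc 15711, .ofNat 6904]),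
  (558543589, [.negSucc 13311, .ofNat 2560, .negSucc 4575, .ofNat 10008]),
  (558672221, [.negSucc 26623, .negSucc 1503, .negSucc 3391, .ofNat 11216]),
  (558680733, [.ofNat 0, .negSucc 11103, .negSucc 7903, .negSucc 1167]),
  (558680789, [.ofNat 0, .negSucc 11103, .negSucc 7903, .negSucc 1167]),
  (558711645, [.ofNat 0, .ofNat 11072, .negSucc 959, .ofNat 2048]),
  (558744405, [.ofNat 13312, .negSucc 40191, .negSucc 36351, .negSucc 14015]),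
  (558746197, [.ofNat 0, .ofNat 9856, .ofNat 10944, .ofNat 3552]),
  (558746253, [.ofNat 0, .negSucc 37471, .ofNat 23440, .ofNat 7680]),
  (558748325, [.ofNat 0, .negSucc 58591, .ofNat 12016, .ofNat 4128]),
  (559264421, [.ofNat 0, .negSucc 1663, .ofNat 768]),
  (564736741, [.ofNat 13312, .negSucc 5663, .ofNat 22096, .negSucc 5255])]

/-- the sum of the part -/
def lE10 : List (ℕ × List ℤ) := lE10x0 ++ (lE10x1 ++ (lE10x2))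

theorem okE10 : dE10.all (rok tbE 12) = true := by decide +kernel

theorem sumE10 : aeq (fz (sumT tbE dE10)) lE10 = true := by decide +kernel

end Pool.Agent.H.MP_e16c79_al.IS
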