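import Pool.Agent.H.MP_e16c79_al.IS.Form
import Pool.Agent.H.MP_e16c79_al.IS.Chain

/-!
# MP_e16c79_al: the two forms are linear in each argument
-/

set_option autoImplicit false

namespace Pool.Agent.H.MP_e16c79_al.IS

variable {R : Type*} [NonUnitalNonAssocCommRing R]

theorem ev_V5 (x : ℕ → R) (a b c d e : Po) : Po.ev x (V5 a b c d e) =
    V5 (Po.ev x a) (Po.ev x b) (Po.ev x c) (Po.ev x d) (Po.ev x e) := by
  simp only [V5, F5, F0, Po.ev_add, Po.ev_sub, Po.ev_mul, Po.ev_smul]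

/-- an assignment -/
def vec6 (a b c d e f : R) : ℕ → R
  | 0 => a
  | 1 => b
  | 2 => c
  | 3 => d
  | 4 => e
  | _ => f

open Po Tm in
theorem V5_add (a a' b c d e : R) : V5 (a + a') b c d e = V5 a b c d e + V5 a' b c d e := by
  have h := ev_zero (vec6 a b c d e a') (t := V5 (mo (v 0) + mo (v 5)) (mo (v 1)) (mo (v 2))
    (mo (v 3)) (mo (v 4)) - (V5 (mo (v 0)) (mo (v 1)) (mo (v 2)) (mo (v 3)) (mo (v 4)) +
    V5 (mo (v 5)) (mo (v 1)) (mo (v 2)) (mo (v 3)) (mo (v 4)))) (by decide +kernel)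
  simp only [Po.ev_add, Po.ev_sub, ev_V5, Po.ev_mo] at h
  exact sub_eq_zero.1 h

open Po Tm in
theorem E1_add (a a' b c d e : R) : E1 (a + a') b c d e = E1 a b c d e + E1 a' b c d e := by
  have h := ev_zero (vec6 a b c d e a') (t := E1 (mo (v 0) + mo (v 5)) (mo (v 1)) (mo (v 2))
    (mo (v 3)) (mo (v 4)) - (E1 (mo (v 0)) (mo (v 1)) (mo (v 2)) (mo (v 3)) (mo (v 4)) +
    E1 (mo (v 5)) (mo (v 1)) (mo (v 2)) (mo (v 3)) (mo (v 4)))) (by decide +kernel)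
  simp only [Po.ev_add, Po.ev_sub, ev_E1, Po.ev_mo] at h
  exact sub_eq_zero.1 h

open Po Tm in
theorem E1_add4 (a b c d d' e : R) : E1 a b c (d + d') e = E1 a b c d e + E1 a b c d' e := by
  have h := ev_zero (vec6 a b c d e d') (t := E1 (mo (v 0)) (mo (v 1)) (mo (v 2))
    (mo (v 3) + mo (v 5)) (mo (v 4)) - (E1 (mo (v 0)) (mo (v 1)) (mo (v 2)) (mo (v 3)) (mo (v 4)) +
    E1 (mo (v 0)) (mo (v 1)) (mo (v 2)) (mo (v 5)) (mo (v 4)))) (by decide +kernel)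
  simp only [Po.ev_add, Po.ev_sub, ev_E1, Po.ev_mo] at h
  exact sub_eq_zero.1 h

open Po Tm in
theorem E1_12 (a b c d e : R) : E1 a b c d e = E1 b a c d e := by
  have h := ev_zero (vec a b c d e) (t := E1 (mo (v 0)) (mo (v 1)) (mo (v 2)) (mo (v 3)) (mo (v 4))
    - E1 (mo (v 1)) (mo (v 0)) (mo (v 2)) (mo (v 3)) (mo (v 4))) (by decide +kernel)
  simp only [Po.ev_sub, ev_E1, Po.ev_mo] at h
  exact sub_eq_zero.1 h

open Po Tm in
theorem E1_13 (a b c d e : R) : E1 a b c d e = E1 c b a d e := by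
  have h := ev_zero (vec a b c d e) (t := E1 (mo (v 0)) (mo (v 1)) (mo (v 2)) (mo (v 3)) (mo (v 4))
    - E1 (mo (v 2)) (mo (v 1)) (mo (v 0)) (mo (v 3)) (mo (v 4))) (by decide +kernel)
  simp only [Po.ev_sub, ev_E1, Po.ev_mo] at h
  exact sub_eq_zero.1 h

open Po Tm in
theorem E1_45 (a b c d e : R) : E1 a b c d e = -E1 a b c e d := by
  have h := ev_zero (vec a b c d e) (t := E1 (mo (v 0)) (mo (v 1)) (mo (v 2)) (mo (v 3)) (mo (v 4))
    + E1 (mo (v 0)) (mo (v 1)) (mo (v 2)) (mo (v 4)) (mo (v 3))) (by decide +kernel)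
  simp only [Po.ev_add, ev_E1, Po.ev_mo] at h
  exact eq_neg_of_add_eq_zero_left h

theorem V5_cyc (a b c d e : R) : V5 a b c d e = V5 b c d e a := by
  simp only [V5, F5]
  abel

theorem V5_add2 (a b b' c d e : R) : V5 a (b + b') c d e = V5 a b c d e + V5 a b' c d e := by
  rw [V5_cyc a (b + b') c d e, V5_add, ← V5_cyc a b c d e, ← V5_cyc a b' c d e]

theorem V5_add3 (a b c c' d e : R) : V5 a b (c + c') d e = V5 a b c d e + V5 a b c' d e := by
  rw [V5_cyc a b (c + c') d e, V5_add2, ← V5_cyc a b c d e, ← V5_cyc a b c' d e]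

theorem V5_add4 (a b c d d' e : R) : V5 a b c (d + d') e = V5 a b c d e + V5 a b c d' e := by
  rw [V5_cyc a b c (d + d') e, V5_add3, ← V5_cyc a b c d e, ← V5_cyc a b c d' e]

theorem V5_add5 (a b c d e e' : R) : V5 a b c d (e + e') = V5 a b c d e + V5 a b c d e' := by
  rw [V5_cyc a b c d (e + e'), V5_add4, ← V5_cyc a b c d e, ← V5_cyc a b c d e']

theorem E1_add2 (a b b' c d e : R) : E1 a (b + b') c d e = E1 a b c d e + E1 a b' c d e := by
  rw [E1_12, E1_add, ← E1_12, ← E1_12 a b']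

theorem E1_add3 (a b c c' d e : R) : E1 a b (c + c') d e = E1 a b c d e + E1 a b c' d e := by
  rw [E1_13, E1_add, ← E1_13, ← E1_13 a b c']

theorem E1_add5 (a b c d e e' : R) : E1 a b c d (e + e') = E1 a b c d e + E1 a b c d e' := by
  rw [E1_45, E1_add4, neg_add, ← E1_45, ← E1_45]

/-- the monomial contains the letter 0 -/
def Tm.has : Tm → Bool
  | .v i => Nat.beq i 0
  | .m a b => a.has || b.has

theorem has_mem {K : AddSubgroup R} (hK : ∀ a ∈ K, ∀ b, a * b ∈ K) {x : ℕ → R} (hx : x 0 ∈ K) :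
    ∀ t : Tm, t.has = true → Tm.ev x t ∈ K
  | .v i, h => by
    have h1 : i = 0 := Nat.eq_of_beq_eq_true h
    rw [h1]
    exact hx
  | .m a b, h => by
    rcases Bool.or_eq_true_iff.1 h with h1 | h1
    · exact hK _ (has_mem hK hx a h1) _
    · show Tm.ev x a * Tm.ev x b ∈ K
      rw [mul_comm]
      exact hK _ (has_mem hK hx b h1) _

theorem po_mem {K : AddSubgroup R} (hK : ∀ a ∈ K, ∀ b, a * b ∈ K) {x : ℕ → R} (hx : x 0 ∈ K)
    {t : Po} (h : (t.l.all fun p => p.2.has) = true) : Po.ev x t ∈ K := by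
  show Po.evL x t.l ∈ K
  have h1 : ∀ l : List (ℤ × Tm), (l.all fun p => p.2.has) = true → Po.evL x l ∈ K := by
    intro l
    induction l with
    | nil => exact fun _ => K.zero_mem
    | cons p l ih =>
      intro h
      rw [List.all_cons, Bool.and_eq_true_iff] at h
      exact K.add_mem (K.zsmul_mem (has_mem hK hx _ h.1) _) (ih h.2)
  exact h1 _ h

section

variable {K : AddSubgroup R} (hK : ∀ a ∈ K, ∀ b, a * b ∈ K)
include hK

open Po Tm in
theorem V5_K {a : R} (ha : a ∈ K) (b c d e : R) : V5 a b c d e ∈ K := by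
  have h := po_mem hK (x := vec a b c d e) ha (t := V5 (mo (v 0)) (mo (v 1)) (mo (v 2)) (mo (v 3))
    (mo (v 4))) (by decide +kernel)
  simp only [ev_V5, Po.ev_mo] at h
  exact h

open Po Tm in
theorem E1_K {a : R} (ha : a ∈ K) (b c d e : R) : E1 a b c d e ∈ K := by
  have h := po_mem hK (x := vec a b c d e) ha (t := E1 (mo (v 0)) (mo (v 1)) (mo (v 2)) (mo (v 3))
    (mo (v 4))) (by decide +kernel)
  simp only [ev_E1, Po.ev_mo] at h
  exact h

open Po Tm in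
theorem E1_K4 (a b c : R) {d : R} (hd : d ∈ K) (e : R) : E1 a b c d e ∈ K := by
  have h := po_mem hK (x := vec d a b c e) hd (t := E1 (mo (v 1)) (mo (v 2)) (mo (v 3)) (mo (v 0))
    (mo (v 4))) (by decide +kernel)
  simp only [ev_E1, Po.ev_mo] at h
  exact h

end

/-- extension in one argument -/
theorem ext1 {M : ℤ} {K : AddSubgroup R} (hs : ∀ a, M • a ∈ K → a ∈ K) {p : R → R} (g : R → R)
    (hg : ∀ a b, g (a + b) = g a + g b) (hgK : ∀ k ∈ K, g k ∈ K) (hp : ∀ x, g (p x) ∈ K) :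
    ∀ c ∈ sa M (K ⊔ AddSubgroup.closure (Set.range p)), g c ∈ K := by
  intro c hc
  have h1 : sa M (K ⊔ AddSubgroup.closure (Set.range p)) ≤
      K.comap (AddMonoidHom.mk' g hg) := by
    refine sa_le (sup_le hgK ((AddSubgroup.closure_le _).2 ?_)) ?_
    · rintro _ ⟨x, rfl⟩
      exact hp x
    · intro r hr
      refine hs _ ?_
      have e : AddMonoidHom.mk' g hg (M • r) = M • AddMonoidHom.mk' g hg r := map_zsmul _ _ _
      have hr' : AddMonoidHom.mk' g hg (M • r) ∈ K := hr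
      rw [e] at hr'
      exact hr'
  exact h1 hc

theorem ext5 {M : ℤ} {K : AddSubgroup R} (hs : ∀ a, M • a ∈ K → a ∈ K) {p : R → R}
    (f : R → R → R → R → R → R)
    (a1 : ∀ a a' b c d e, f (a + a') b c d e = f a b c d e + f a' b c d e)
    (a2 : ∀ a b b' c d e, f a (b + b') c d e = f a b c d e + f a b' c d e)
    (a3 : ∀ a b c c' d e, f a b (c + c') d e = f a b c d e + f a b c' d e)
    (a4 : ∀ a b c d d' e, f a b c (d + d') e = f a b c d e + f a b c d' e)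
    (a5 : ∀ a b c d e e', f a b c d (e + e') = f a b c d e + f a b c d e')
    (k1 : ∀ a ∈ K, ∀ b c d e, f a b c d e ∈ K) (k2 : ∀ a, ∀ b ∈ K, ∀ c d e, f a b c d e ∈ K)
    (k3 : ∀ a b, ∀ c ∈ K, ∀ d e, f a b c d e ∈ K) (k4 : ∀ a b c, ∀ d ∈ K, ∀ e, f a b c d e ∈ K)
    (k5 : ∀ a b c d, ∀ e ∈ K, f a b c d e ∈ K)
    (hp : ∀ a b c d e, f (p a) (p b) (p c) (p d) (p e) ∈ K) {C : AddSubgroup R}
    (hC : C = sa M (K ⊔ AddSubgroup.closure (Set.range p))) :
    ∀ a ∈ C, ∀ b ∈ C, ∀ c ∈ C, ∀ d ∈ C, ∀ e ∈ C, f a b c d e ∈ K := by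
  subst hC
  intro a ha b hb c hc d hd e he
  have s1 : ∀ b c d e, f a (p b) (p c) (p d) (p e) ∈ K := fun b c d e =>
    ext1 hs (fun a => f a (p b) (p c) (p d) (p e)) (fun x y => a1 x y _ _ _ _)
      (fun k hk => k1 k hk _ _ _ _) (fun x => hp x b c d e) a ha
  have s2 : ∀ c d e, f a b (p c) (p d) (p e) ∈ K := fun c d e =>
    ext1 hs (fun b => f a b (p c) (p d) (p e)) (fun x y => a2 _ x y _ _ _)
      (fun k hk => k2 _ k hk _ _ _) (fun x => s1 x c d e) b hb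
  have s3 : ∀ d e, f a b c (p d) (p e) ∈ K := fun d e =>
    ext1 hs (fun c => f a b c (p d) (p e)) (fun x y => a3 _ _ x y _ _)
      (fun k hk => k3 _ _ k hk _ _) (fun x => s2 x d e) c hc
  have s4 : ∀ e, f a b c d (p e) ∈ K := fun e =>
    ext1 hs (fun d => f a b c d (p e)) (fun x y => a4 _ _ _ x y _)
      (fun k hk => k4 _ _ _ k hk _) (fun x => s3 x e) d hd
  exact ext1 hs (fun e => f a b c d e) (fun x y => a5 _ _ _ _ x y)
      (fun k hk => k5 _ _ _ _ k hk) (fun x => s4 x) e he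

section

variable {M : ℤ} {K : AddSubgroup R} (hK : ∀ a ∈ K, ∀ b, a * b ∈ K)
  (hs : ∀ a, M • a ∈ K → a ∈ K) {p : R → R} {C : AddSubgroup R}
  (hC : C = sa M (K ⊔ AddSubgroup.closure (Set.range p)))
include hK hs hC

theorem E1_ext (hp : ∀ a b c d e, E1 (p a) (p b) (p c) (p d) (p e) ∈ K) :
    ∀ a ∈ C, ∀ b ∈ C, ∀ c ∈ C, ∀ d ∈ C, ∀ e ∈ C, E1 a b c d e ∈ K :=
  ext5 hs E1 E1_add E1_add2 E1_add3 E1_add4 E1_add5 (fun _ ha _ _ _ _ => E1_K hK ha _ _ _ _)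
    (fun _ _ hb _ _ _ => by rw [E1_12]; exact E1_K hK hb _ _ _ _)
    (fun _ _ _ hc _ _ => by rw [E1_13]; exact E1_K hK hc _ _ _ _)
    (fun _ _ _ _ hd _ => E1_K4 hK _ _ _ hd _)
    (fun _ _ _ _ _ he => by rw [E1_45]; exact K.neg_mem (E1_K4 hK _ _ _ he _)) hp hC

theorem V5_ext (hp : ∀ a b c d e, V5 (p a) (p b) (p c) (p d) (p e) ∈ K) :
    ∀ a ∈ C, ∀ b ∈ C, ∀ c ∈ C, ∀ d ∈ C, ∀ e ∈ C, V5 a b c d e ∈ K :=
  ext5 hs V5 V5_add V5_add2 V5_add3 V5_add4 V5_add5 (fun _ ha _ _ _ _ => V5_K hK ha _ _ _ _)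
    (fun _ _ hb _ _ _ => by rw [V5_cyc]; exact V5_K hK hb _ _ _ _)
    (fun _ _ _ hc _ _ => by rw [V5_cyc, V5_cyc]; exact V5_K hK hc _ _ _ _)
    (fun _ _ _ _ hd _ => by rw [V5_cyc, V5_cyc, V5_cyc]; exact V5_K hK hd _ _ _ _)
    (fun _ _ _ _ _ he => by rw [V5_cyc, V5_cyc, V5_cyc, V5_cyc]; exact V5_K hK he _ _ _ _) hp hC

end

end Pool.Agent.H.MP_e16c79_al.IS
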