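import Pool.Agent.H.MP_e16c79_al.IS.Core
import Pool.Agent.H.MP_e16c79_al.IS.Lin
import Pool.Agent.H.MP_e16c79_al.N4.Final4

/-!
# MP_e16c79_al: the induction on the nil index for images of special Jordan rings
-/

set_option autoImplicit false

namespace Pool.Agent.H.MP_e16c79_al.IS

/-- the power of exponent `m - 1` -/
def pm {S : Type*} [Mul S] (m : ℕ) (x : S) : S := (fun y => x * y)^[m - 2] x

variable {S : Type*} [NonUnitalNonAssocCommRing S] {A : Type*} [NonUnitalRing A]

/-- an ideal `K` of `S` above the kernel of `φ`, saturated, modulo which all powers of exponent `m`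
vanish -/
structure Lv (M : ℤ) (φ : S →+ A) (m : ℕ) (K : AddSubgroup S) : Prop where
  idl : ∀ a ∈ K, ∀ b, a * b ∈ K
  st : ∀ a, M • a ∈ K → a ∈ K
  ker : ∀ s, φ s = 0 → s ∈ K
  nil : ∀ a : S, (fun x => a * x)^[m - 1] a ∈ K

/-- what the words give -/
structure Gl (M : ℤ) (φ : S →+ A) (n : ℕ) : Prop where
  blk : ∀ m, 5 ≤ m → m ≤ n → ∀ K : AddSubgroup S, Lv M φ m K →
    ∀ a b c d e : S, E1 (pm m a) (pm m b) (pm m c) (pm m d) (pm m e) ∈ K ∧
      V5 (pm m a) (pm m b) (pm m c) (pm m d) (pm m e) ∈ K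
  ide : ∀ m, 2 ≤ m → m ≤ n → ∀ K : AddSubgroup S, Lv M φ m K →
    ∀ x y : S, pm m x * y ∈ sa M (K ⊔ AddSubgroup.closure (Set.range (pm m)))
  jor : ∀ m, 1 ≤ m → m ≤ n → ∀ K : AddSubgroup S, Lv M φ m K → ∀ a b c y : S, J4 a b c y ∈ K

/-- the next ideal -/
def CC (M : ℤ) (m : ℕ) (K : AddSubgroup S) : AddSubgroup S :=
  sa M (K ⊔ AddSubgroup.closure (Set.range (pm m)))

theorem le_CC (M : ℤ) (m : ℕ) (K : AddSubgroup S) : K ≤ CC M m K :=
  (le_sup_left).trans (le_sa _ _)

theorem pm_CC (M : ℤ) (m : ℕ) (K : AddSubgroup S) (x : S) : pm m x ∈ CC M m K :=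
  le_sa _ _ (AddSubgroup.mem_sup_right (AddSubgroup.subset_closure ⟨x, rfl⟩))

theorem CC_idl {M : ℤ} {φ : S →+ A} {n m : ℕ} (g : Gl M φ n) (h2 : 2 ≤ m) (hm : m ≤ n)
    {K : AddSubgroup S} (h : Lv M φ m K) : ∀ a ∈ CC M m K, ∀ b, a * b ∈ CC M m K := by
  intro a ha b
  have h1 : CC M m K ≤ (CC M m K).comap (AddMonoidHom.mulRight b) := by
    refine sa_le (sup_le (fun k hk => ?_) ((AddSubgroup.closure_le _).2 ?_)) ?_
    · exact le_CC M m K (h.idl k hk b)
    · rintro _ ⟨x, rfl⟩
      exact g.ide m h2 hm K h x b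
    · intro r hr
      have hr' : (M • r) * b ∈ CC M m K := hr
      rw [smul_mul_assoc] at hr'
      exact sa_of hr'
  exact h1 ha

theorem CC_lv {M : ℤ} {φ : S →+ A} {n m : ℕ} (g : Gl M φ n) (h2 : 2 ≤ m) (hm : m ≤ n)
    {K : AddSubgroup S} (h : Lv M φ m K) : Lv M φ (m - 1) (CC M m K) where
  idl := CC_idl g h2 hm h
  st _ hr := sa_of hr
  ker s hs := le_CC M m K (h.ker s hs)
  nil a := by
    have h1 := pm_CC M m K a
    rw [pm] at h1
    rw [show m - 1 - 1 = m - 2 by omega]
    exact h1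

theorem CC_co {n : ℕ} {φ : S →+ A} {m : ℕ} (g : Gl (MM n) φ n) (h5 : 5 ≤ m) (hm : m ≤ n)
    {K : AddSubgroup S} (h : Lv (MM n) φ m K) : Co m (CC (MM n) m K) K where
  le := le_CC _ _ _
  sub a ha b _ := CC_idl g (by omega) hm h a ha b
  idl a ha b _ := h.idl a ha b
  tf r _ hr := by
    refine h.st r ?_
    have h1 : ((2 * m.factorial : ℕ) : ℤ) ∣ MM n := by
      have h2 : 2 * m.factorial ∣ 2 * n.factorial :=
        Nat.mul_dvd_mul_left 2 (Nat.factorial_dvd_factorial hm)
      exact Int.natCast_dvd_natCast.2 h2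
    obtain ⟨e, he⟩ := h1
    rw [he, mul_comm, mul_smul]
    exact K.zsmul_mem hr _
  jor a _ b _ c _ y _ := g.jor m (by omega) hm K h a b c y
  nil c _ := h.nil c
  e1 := E1_ext h.idl h.st rfl (fun a b c d e => (g.blk m h5 hm K h a b c d e).1)
  v5 := V5_ext h.idl h.st rfl (fun a b c d e => (g.blk m h5 hm K h a b c d e).2)

section base

/-- the congruence of an ideal -/
def con (K : AddSubgroup S) (hK : ∀ a ∈ K, ∀ b, a * b ∈ K) : RingCon S where
  r a b := a - b ∈ K
  iseqv := {
    refl := fun a => by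
      rw [sub_self]
      exact K.zero_mem
    symm := fun {a b} h => by
      rw [← neg_sub]
      exact K.neg_mem h
    trans := fun {a b c} h1 h2 => by
      rw [← sub_add_sub_cancel a b c]
      exact K.add_mem h1 h2 }
  add' := fun {a b c d} h1 h2 => by
    have e : a + c - (b + d) = (a - b) + (c - d) := by abel
    show a + c - (b + d) ∈ K
    rw [e]
    exact K.add_mem h1 h2
  mul' := fun {a b c d} h1 h2 => by
    have e : a * c - b * d = (a - b) * c + (c - d) * b := by
      rw [sub_mul, sub_mul, mul_comm c b, mul_comm d b]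
      abel
    show a * c - b * d ∈ K
    rw [e]
    exact K.add_mem (hK _ h1 _) (hK _ h2 _)

variable {K : AddSubgroup S} (hK : ∀ a ∈ K, ∀ b, a * b ∈ K)

theorem con_eq {a b : S} : ((a : (con K hK).Quotient) = (b : (con K hK).Quotient)) ↔ a - b ∈ K :=
  (con K hK).eq

theorem con_zero {a : S} : ((a : (con K hK).Quotient) = 0) ↔ a ∈ K := by
  have h := con_eq hK (a := a) (b := 0)
  rw [sub_zero] at h
  exact h

include hK in
/-- The case of index 4: solvable modulo `K`. -/
theorem base {M : ℤ} (h6 : (6 : ℤ) ∣ M) (hs : ∀ a, M • a ∈ K → a ∈ K)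
    (hj : ∀ a b c y : S, J4 a b c y ∈ K) (h4 : ∀ a : S, a * (a * (a * a)) ∈ K) :
    Dr (⊤ : AddSubgroup S) 27 ≤ K := by
  have hd : ∀ d : ℤ, d ∣ 6 → ∀ a, d • a ∈ K → a ∈ K := by
    rintro d ⟨e, he⟩ a ha
    obtain ⟨f, hf⟩ := h6
    refine hs a ?_
    have e1 : M = (e * f) * d := by
      rw [hf, he]
      ring
    rw [e1, mul_smul]
    exact K.zsmul_mem ha _
  let Q := (con K hK).Quotient
  let q : S → Q := fun a => (a : (con K hK).Quotient)
  have hsurj : ∀ x : Q, ∃ a, q a = x := by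
    intro x
    obtain ⟨a, ha⟩ := Quot.exists_rep x
    exact ⟨a, ha⟩
  have hjor : IsCommJordan Q := by
    constructor
    intro x y
    obtain ⟨a, rfl⟩ := hsurj x
    obtain ⟨b, rfl⟩ := hsurj y
    show q (a * b * (a * a)) = q (a * (b * (a * a)))
    refine (con_eq hK).2 (hd 3 ⟨2, by norm_num⟩ _ ?_)
    have h1 := hj a a a b
    have e : (3 : ℤ) • (a * b * (a * a) - a * (b * (a * a))) = -J4 a a a b := by
      rw [J4, mul_comm (a * b) (a * a), mul_comm b (a * a)]
      have e3 : (3 : ℤ) = 1 + 1 + 1 := by norm_num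
      rw [e3, add_smul, add_smul, one_smul]
      abel
    rw [e]
    exact K.neg_mem h1
  let D : ℕ → AddSubgroup Q := Dr (⊤ : AddSubgroup Q)
  have hD : D 27 = ⊥ := by
    refine N4.solv_four_seq (A := Q) ?_ ?_ ?_ D rfl (fun i => rfl)
    · intro x hx
      obtain ⟨a, rfl⟩ := hsurj x
      have h1 : q (2 • a) = 0 := hx
      have h2 := (con_zero hK).1 h1
      refine (con_zero hK).2 (hd 2 ⟨3, by norm_num⟩ _ ?_)
      rw [ofNat_zsmul]
      exact h2
    · intro x hx
      obtain ⟨a, rfl⟩ := hsurj x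
      have h1 : q (3 • a) = 0 := hx
      have h2 := (con_zero hK).1 h1
      refine (con_zero hK).2 (hd 3 ⟨2, by norm_num⟩ _ ?_)
      rw [ofNat_zsmul]
      exact h2
    · intro x
      obtain ⟨a, rfl⟩ := hsurj x
      show q (a * (a * (a * a))) = 0
      exact (con_zero hK).2 (h4 a)
  have hq : ∀ i, ∀ a ∈ Dr (⊤ : AddSubgroup S) i, q a ∈ D i := by
    intro i
    induction i with
    | zero => exact fun a _ => AddSubgroup.mem_top _
    | succ i ih =>
      intro a ha
      refine AddSubgroup.closure_induction (p := fun y _ => q y ∈ D (i + 1)) ?_ ?_ ?_ ?_ ha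
      · rintro y ⟨b, hb, c, hc, rfl⟩
        exact AddSubgroup.subset_closure ⟨q b, ih b hb, q c, ih c hc, rfl⟩
      · exact (D (i + 1)).zero_mem
      · intro x y _ _ h1 h2
        exact (D (i + 1)).add_mem h1 h2
      · intro x _ h1
        exact (D (i + 1)).neg_mem h1
  intro a ha
  have h1 := hq 27 a ha
  rw [hD, AddSubgroup.mem_bot] at h1
  exact (con_zero hK).1 h1

end base

theorem iter_mem {K : AddSubgroup S} (hK : ∀ a ∈ K, ∀ b, a * b ∈ K) {a x : S} (hx : x ∈ K) (k : ℕ) :
    (fun y => a * y)^[k] x ∈ K := by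
  induction k with
  | zero => exact hx
  | succ k ih =>
    rw [Function.iterate_succ_apply']
    show a * _ ∈ K
    rw [mul_comm]
    exact hK _ ih _

/-- the number of steps -/
def kk (n : ℕ) : ℕ := 27 + (n - 4) * (n + 9)

/-- The theorem for images of special rings, modulo the word part. -/
theorem main {n : ℕ} {φ : S →+ A} (hn : 3 ≤ n) (g : Gl (MM n) φ n) :
    ∀ m ≤ n, ∀ K : AddSubgroup S, Lv (MM n) φ m K → Dr (⊤ : AddSubgroup S) (kk m) ≤ K := by
  intro m
  induction m with
  | zero =>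
    intro _ K h
    have hall : ∀ a, a ∈ K := fun a => by simpa using h.nil a
    intro a _
    exact hall a
  | succ m ih =>
    intro hm K h
    by_cases h5 : 5 ≤ m + 1
    · have h1 := ih (by omega) (CC (MM n) (m + 1) K) (CC_lv g (by omega) hm h)
      have h2 := (CC_co g h5 hm h).solv h5
      have h3 := Dr_trans h1 h2
      have e : kk (m + 1) = kk m + (2 * (m + 1) + 4) := by
        obtain ⟨j, rfl⟩ : ∃ j, m = j + 4 := ⟨m - 4, by omega⟩
        unfold kk
        rw [show j + 4 + 1 - 4 = j + 1 by omega, show j + 4 - 4 = j by omega]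
        ring
      rw [e]
      exact h3
    · have e : kk (m + 1) = 27 := by
        unfold kk
        rw [show m + 1 - 4 = 0 by omega, zero_mul, add_zero]
      rw [e]
      have h6 : (6 : ℤ) ∣ MM n := by
        have h1 : (3 : ℕ).factorial ∣ n.factorial := Nat.factorial_dvd_factorial hn
        have h2 : 6 ∣ 2 * n.factorial := h1.trans (Nat.dvd_mul_left _ _)
        exact Int.natCast_dvd_natCast.2 h2
      refine base h.idl h6 h.st (g.jor (m + 1) (by omega) hm K h) ?_
      intro a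
      have h7 := iter_mem h.idl (a := a) (h.nil a) (3 - m)
      rw [← Function.iterate_add_apply, show 3 - m + (m + 1 - 1) = 3 by omega] at h7
      exact h7

end Pool.Agent.H.MP_e16c79_al.IS
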