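import Pool.Agent.H.MP_e16c79_al.IS.Fin
import Pool.Agent.H.MP_e16c79_al.AL.Fin

/-!
# MP_e16c79_al: homomorphic images of special Jordan rings and subrings of degree three algebras
-/

set_option autoImplicit false

namespace Pool.Agent.H.MP_e16c79_al.IS

universe u v w

theorem pow_large {n : ℕ} (hn : 2 ≤ n) : n + 2 ≤ 2 ^ n := by
  induction n, hn using Nat.le_induction with
  | base => norm_num
  | succ n hn ih =>
    rw [pow_succ]
    omega

theorem kk_large {n : ℕ} (hn : 3 ≤ n) : n * Nat.clog 2 (n + 2) + (2 * n - 1) ≤ kk n := by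
  have h2 : Nat.clog 2 (n + 2) ≤ n := Nat.clog_le_of_le_pow (pow_large (by omega))
  have h3 : n * Nat.clog 2 (n + 2) ≤ n * n := Nat.mul_le_mul_left n h2
  unfold kk
  rcases Nat.lt_or_ge n 5 with h | h
  · have h4 : n = 3 ∨ n = 4 := by omega
    rcases h4 with rfl | rfl
    · omega
    · omega
  · obtain ⟨j, rfl⟩ : ∃ j, n = j + 5 := ⟨n - 5, by omega⟩
    rw [show j + 5 - 4 = j + 1 by omega]
    have h4 : 2 * (j + 5) - 1 = 2 * j + 9 := by omega
    rw [h4]
    nlinarith

theorem mul_small {J : Type w} [NonUnitalNonAssocCommRing J] {n : ℕ} (hn : 1 ≤ n) (h : n < 3)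
    (hnil : ∀ a : J, (fun x => a * x)^[n - 1] a = 0) {D : ℕ → AddSubgroup J}
    (hDs : ∀ i, D (i + 1) = AddSubgroup.closure {x : J | ∃ a ∈ D i, ∃ b ∈ D i, x = a * b}) :
    ∀ x ∈ D (0 + 1), (2 : ℕ) • x = 0 := by
  have h2 : ∀ a : J, a * a = 0 := by
    intro a
    have h3 := hnil a
    have h5 : n = 1 ∨ n = 2 := by omega
    rcases h5 with rfl | rfl
    · have h6 : a = 0 := h3
      rw [h6, zero_mul]
    · exact h3
  have h3 : ∀ a b : J, (2 : ℕ) • (a * b) = 0 := by
    intro a b
    have h4 := h2 (a + b)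
    rw [add_mul, mul_add, mul_add, h2 a, h2 b, zero_add, add_zero, mul_comm b a] at h4
    rw [two_smul, h4]
  intro x hx
  rw [hDs] at hx
  refine AddSubgroup.closure_induction (p := fun y _ => (2 : ℕ) • y = 0) ?_ ?_ ?_ ?_ hx
  · rintro y ⟨a, _, b, _, rfl⟩
    exact h3 a b
  · exact smul_zero _
  · intro y y' _ _ e1 e2
    rw [smul_add, e1, e2, add_zero]
  · intro y _ e1
    rw [smul_neg, e1, neg_zero]

/-- THE JOINT THEOREM, in full generality -/
theorem joint0 (hB : BlkStmt.{u, v}) {J : Type w} [NonUnitalNonAssocCommRing J] [IsCommJordan J]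
    {n : ℕ} (hn : 1 ≤ n) (hnil : ∀ a : J, (fun x => a * x)^[n - 1] a = 0)
    {S : Type v} [NonUnitalNonAssocCommRing S] (π : S →ₙ+* J) (hπ : Function.Surjective π)
    {A : Type u} [NonUnitalRing A] (φ : S →+ A)
    (hφ : ∀ x y, 2 • φ (x * y) = φ x * φ y + φ y * φ x)
    {F B : Type*} [CommRing F] [NonUnitalNonAssocCommRing B] [Module F B] (H : AL.Hom3 J F B)
    (D : ℕ → AddSubgroup J) (hD0 : D 0 = ⊤)
    (hDs : ∀ i, D (i + 1) = AddSubgroup.closure {x : J | ∃ a ∈ D i, ∃ b ∈ D i, x = a * b}) :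
    ∀ x ∈ D (kk n), ∃ (m : ℕ) (s : S), φ s = 0 ∧ H.f (π s) = 0 ∧
      π s = ((2 * n.factorial) ^ m) • x := by
  intro x hx
  rcases Nat.lt_or_ge n 3 with h | h
  · have h5 : x ∈ D (0 + 1) := by
      have e : kk n = 0 + 1 + (kk n - 1) := by
        unfold kk
        omega
      rw [e] at hx
      exact AL.D_le hD0 hDs (0 + 1) _ hx
    have h6 := mul_small hn h hnil hDs x h5
    refine ⟨1, 0, map_zero _, by rw [map_zero, map_zero], ?_⟩
    rw [map_zero, pow_one, mul_comm, mul_smul, h6, smul_zero]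
  · let K : AddSubgroup S := sa (MM n) ((π : S →+ J).ker ⊔ φ.ker)
    have hMM : MM n = (n.factorial : ℤ) * 2 := by
      unfold MM
      push_cast
      ring
    have hK : Lv (MM n) φ n K := by
      refine ⟨?_, ?_, ?_, ?_⟩
      · intro a ha b
        have h1 : K ≤ K.comap (AddMonoidHom.mulRight b) := by
          refine sa_le (sup_le (fun k hk => ?_) (fun k hk => ?_)) ?_
          · have hk' : π k = 0 := hk
            refine le_sa _ _ (AddSubgroup.mem_sup_left ?_)
            show π (k * b) = 0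
            rw [map_mul, hk', zero_mul]
          · have hk' : φ k = 0 := hk
            refine sa_of (le_sa _ _ (AddSubgroup.mem_sup_right ?_))
            show φ (MM n • (k * b)) = 0
            have h2 := hφ k b
            rw [hk', zero_mul, mul_zero, add_zero] at h2
            have h3 : (2 : ℤ) • φ (k * b) = 0 := by
              rw [← h2]
              exact two_smul ℤ _ |>.trans (two_smul ℕ _).symm
            rw [map_zsmul, hMM, mul_smul, h3, smul_zero]
          · intro r hr
            have hr' : (MM n • r) * b ∈ K := hr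
            rw [smul_mul_assoc] at hr'
            exact sa_of hr'
        exact h1 ha
      · intro a ha
        exact sa_of ha
      · intro s hs
        exact le_sa _ _ (AddSubgroup.mem_sup_right hs)
      · intro a
        refine le_sa _ _ (AddSubgroup.mem_sup_left ?_)
        show π ((fun x => a * x)^[n - 1] a) = 0
        rw [iter_map, hnil]
    have h4 := main h (gl_of hB φ hφ n) n le_rfl K hK
    have h5 : ∀ i, ∀ x ∈ D i, ∃ s ∈ Dr (⊤ : AddSubgroup S) i, π s = x := by
      intro i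
      induction i with
      | zero =>
        intro x _
        obtain ⟨s, hs⟩ := hπ x
        exact ⟨s, AddSubgroup.mem_top _, hs⟩
      | succ i ih =>
        intro x hx
        rw [hDs] at hx
        refine AddSubgroup.closure_induction
          (p := fun y _ => ∃ s ∈ Dr (⊤ : AddSubgroup S) (i + 1), π s = y) ?_ ?_ ?_ ?_ hx
        · rintro y ⟨a, ha, b, hb, rfl⟩
          obtain ⟨s, hs, e1⟩ := ih a ha
          obtain ⟨t, ht, e2⟩ := ih b hb
          exact ⟨s * t, AddSubgroup.subset_closure ⟨s, hs, t, ht, rfl⟩, by rw [map_mul, e1, e2]⟩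
        · exact ⟨0, AddSubgroup.zero_mem _, by rw [map_zero]⟩
        · rintro y y' _ _ ⟨s, hs, e1⟩ ⟨t, ht, e2⟩
          exact ⟨s + t, AddSubgroup.add_mem _ hs ht, by rw [map_add, e1, e2]⟩
        · rintro y _ ⟨s, hs, e1⟩
          exact ⟨-s, AddSubgroup.neg_mem _ hs, by rw [map_neg, e1]⟩
    obtain ⟨s, hs, e⟩ := h5 _ x hx
    obtain ⟨k, hk⟩ := h4 hs
    obtain ⟨a, ha, b, hb, hab⟩ := AddSubgroup.mem_sup.1 hk
    have ha' : π a = 0 := ha
    have hb' : φ b = 0 := hb
    have e1 : π b = (MM n ^ k) • x := by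
      have h6 := congrArg π hab
      rw [map_add, ha', zero_add, map_zsmul, e] at h6
      exact h6
    have hx' : x ∈ D (n * Nat.clog 2 (n + 2) + (2 * n - 1)) := by
      have e2 : kk n = n * Nat.clog 2 (n + 2) + (2 * n - 1) +
          (kk n - (n * Nat.clog 2 (n + 2) + (2 * n - 1))) := by
        have := kk_large h
        omega
      rw [e2] at hx
      exact AL.D_le hD0 hDs _ _ hx
    obtain ⟨l, hl⟩ := H.D_tor h hnil hD0 hDs x hx'
    have hl' : (MM n ^ l) • H.f x = 0 := by
      unfold MM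
      rw [← Nat.cast_pow, natCast_zsmul]
      exact hl
    refine ⟨l + k, (MM n ^ l) • b, ?_, ?_, ?_⟩
    · rw [map_zsmul, hb', smul_zero]
    · rw [map_zsmul, e1, ← mul_smul, mul_comm, mul_smul, map_zsmul, map_zsmul, hl', smul_zero]
    · rw [map_zsmul, e1, ← mul_smul, ← pow_add]
      unfold MM
      rw [← Nat.cast_pow, natCast_zsmul]

theorem tf_pow {J : Type w} [AddCommGroup J] {n : ℕ}
    (htf : ∀ a : J, (2 * n.factorial) • a = 0 → a = 0) (k : ℕ) :
    ∀ a : J, ((2 * n.factorial) ^ k) • a = 0 → a = 0 := by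
  induction k with
  | zero =>
    intro a h
    rw [pow_zero, one_smul] at h
    exact h
  | succ k ih =>
    intro a h
    refine htf a (ih _ ?_)
    rw [← mul_smul, ← pow_succ]
    exact h

/-- THE JOINT THEOREM -/
theorem joint (hB : BlkStmt.{u, v}) {J : Type w} [NonUnitalNonAssocCommRing J] [IsCommJordan J]
    {n : ℕ} (hn : 1 ≤ n) (hnil : ∀ a : J, (fun x => a * x)^[n - 1] a = 0)
    {S : Type v} [NonUnitalNonAssocCommRing S] (π : S →ₙ+* J) (hπ : Function.Surjective π)
    {A : Type u} [NonUnitalRing A] (φ : S →+ A)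
    (hφ : ∀ x y, 2 • φ (x * y) = φ x * φ y + φ y * φ x)
    {F B : Type*} [CommRing F] [NonUnitalNonAssocCommRing B] [Module F B] (H : AL.Hom3 J F B)
    (D : ℕ → AddSubgroup J) (hD0 : D 0 = ⊤)
    (hDs : ∀ i, D (i + 1) = AddSubgroup.closure {x : J | ∃ a ∈ D i, ∃ b ∈ D i, x = a * b}) :
    (∀ x ∈ D (kk n), ∃ (m : ℕ) (s : S), φ s = 0 ∧ H.f (π s) = 0 ∧
      π s = ((2 * n.factorial) ^ m) • x) ∧
    ((∀ a : J, (2 * n.factorial) • a = 0 → a = 0) →
      (∀ s, φ s = 0 → H.f (π s) = 0 → π s = 0) →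
      D (kk n) = ⊥ ∧
      (Function.Injective π → D (n * Nat.clog 2 (n + 2) + (2 * n - 1)) = ⊥)) := by
  have h0 := joint0 hB hn hnil π hπ φ hφ H D hD0 hDs
  refine ⟨h0, fun htf hker => ⟨?_, fun hinj => ?_⟩⟩
  · rw [eq_bot_iff]
    intro x hx
    obtain ⟨m, s, h1, h2, h3⟩ := h0 x hx
    have h4 := hker s h1 h2
    rw [h3] at h4
    exact tf_pow htf m x h4
  · let e : J → S := fun x => (hπ x).choose
    have he : ∀ x, π (e x) = x := fun x => (hπ x).choose_spec
    let g : J →+ S :=
      { toFun := e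
        map_zero' := hinj (by rw [he, map_zero])
        map_add' := fun x y => hinj (by rw [map_add, he, he, he]) }
    have hg : ∀ x y, g (x * y) = g x * g y := fun x y => hinj (by
      show π (e (x * y)) = π (e x * e y)
      rw [map_mul, he, he, he])
    refine AL.joint hn hnil htf (φ.comp g) (fun x y => ?_) H (fun x hx1 hx2 => ?_) D hD0 hDs
    · show 2 • φ (g (x * y)) = φ (g x) * φ (g y) + φ (g y) * φ (g x)
      rw [hg]
      exact hφ _ _
    · have h1 := hker (g x) hx1 (by
        show H.f (π (e x)) = 0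
        rw [he]
        exact hx2)
      have h2 : π (g x) = x := he x
      rw [h2] at h1
      exact h1

end Pool.Agent.H.MP_e16c79_al.IS
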