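import Mathlib

/-!
# MP_e16c79_al: polynomials in a commutative nonassociative ring, for checks by computation
-/

set_option autoImplicit false

namespace Pool.Agent.H.MP_e16c79_al.IS

/-- monomials -/
inductive Tm : Type
  | v : ℕ → Tm
  | m : Tm → Tm → Tm

namespace Tm

/-- comparison: 0 less, 1 equal, 2 greater -/
def cmp : Tm → Tm → ℕ
  | v i, v j => if Nat.beq i j then 1 else if Nat.blt i j then 0 else 2
  | v _, m _ _ => 0
  | m _ _, v _ => 2
  | m a b, m c d => match cmp a c with
    | 1 => cmp b d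
    | k => k

theorem cmp_eq : ∀ a b : Tm, cmp a b = 1 → a = b
  | v i, v j, h => by
    unfold cmp at h
    by_cases hij : Nat.beq i j = true
    · rw [Nat.eq_of_beq_eq_true hij]
    · rw [if_neg hij] at h
      split_ifs at h
      omega
  | v _, m _ _, h => by
    unfold cmp at h
    omega
  | m _ _, v _, h => by
    unfold cmp at h
    omega
  | m a b, m c d, h => by
    unfold cmp at h
    split at h
    · next h1 => rw [cmp_eq a c h1, cmp_eq b d h]
    · next h1 => exact absurd h h1

/-- the product with ordered factors -/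
def mk (a b : Tm) : Tm := if Nat.beq (cmp a b) 2 then m b a else m a b

variable {J : Type*} [NonUnitalNonAssocCommRing J]

/-- the value -/
def ev (x : ℕ → J) : Tm → J
  | v i => x i
  | m a b => ev x a * ev x b

theorem ev_mk (x : ℕ → J) (a b : Tm) : ev x (mk a b) = ev x a * ev x b := by
  unfold mk
  split_ifs
  · exact mul_comm _ _
  · rfl

theorem ev_mem {C : AddSubgroup J} (hC : ∀ a ∈ C, ∀ b ∈ C, a * b ∈ C) {x : ℕ → J}
    (hx : ∀ i, x i ∈ C) (t : Tm) : ev x t ∈ C := by
  induction t with
  | v i => exact hx i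
  | m a b iha ihb => exact hC _ iha _ ihb

end Tm

/-- polynomials: lists of monomials with coefficients -/
structure Po : Type where
  l : List (ℤ × Tm)

namespace Po

/-- insertion of a term in front of the sum with `rest` -/
def ins (c : ℤ) (t : Tm) (rest : List (ℤ × Tm) → List (ℤ × Tm)) :
    List (ℤ × Tm) → List (ℤ × Tm)
  | [] => (c, t) :: rest []
  | (d, s) :: q => match Tm.cmp t s with
    | 0 => (c, t) :: rest ((d, s) :: q)
    | 1 => match c + d with
      | Int.ofNat 0 => rest q
      | e => (e, t) :: rest q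
    | _ => (d, s) :: ins c t rest q

/-- sum of sorted lists -/
def addL : List (ℤ × Tm) → List (ℤ × Tm) → List (ℤ × Tm)
  | [], q => q
  | (c, t) :: p, q => ins c t (addL p) q

/-- product of a term and a list -/
def mulT (c : ℤ) (t : Tm) : List (ℤ × Tm) → List (ℤ × Tm)
  | [] => []
  | (d, s) :: q => addL [(c * d, Tm.mk t s)] (mulT c t q)

/-- product of lists -/
def mulL : List (ℤ × Tm) → List (ℤ × Tm) → List (ℤ × Tm)
  | [], _ => []
  | (c, t) :: p, q => addL (mulT c t q) (mulL p q)

/-- multiple -/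
def smL (c : ℤ) : List (ℤ × Tm) → List (ℤ × Tm)
  | [] => []
  | (d, s) :: q => (c * d, s) :: smL c q

instance : Add Po := ⟨fun p q => ⟨addL p.l q.l⟩⟩
instance : Mul Po := ⟨fun p q => ⟨mulL p.l q.l⟩⟩
instance : Sub Po := ⟨fun p q => ⟨addL p.l (smL (-1) q.l)⟩⟩

/-- multiple -/
def sm (c : ℤ) (p : Po) : Po := ⟨smL c p.l⟩

/-- a monomial -/
def mo (t : Tm) : Po := ⟨[(1, t)]⟩

variable {J : Type*} [NonUnitalNonAssocCommRing J]

/-- the value of a list -/
def evL (x : ℕ → J) : List (ℤ × Tm) → J
  | [] => 0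
  | (c, t) :: p => c • Tm.ev x t + evL x p

/-- the value -/
def ev (x : ℕ → J) (p : Po) : J := evL x p.l

theorem evL_ins (x : ℕ → J) (c : ℤ) (t : Tm) (rest : List (ℤ × Tm) → List (ℤ × Tm)) (r : J)
    (hr : ∀ q, evL x (rest q) = r + evL x q) (q : List (ℤ × Tm)) :
    evL x (ins c t rest q) = c • Tm.ev x t + r + evL x q := by
  induction q with
  | nil =>
    show c • Tm.ev x t + evL x (rest []) = _
    rw [hr, add_assoc]
  | cons a q ih =>
    obtain ⟨d, s⟩ := a
    unfold ins
    split
    · show c • Tm.ev x t + evL x (rest ((d, s) :: q)) = _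
      rw [hr, add_assoc]
    · next h1 =>
      have h2 := Tm.cmp_eq _ _ h1
      subst h2
      have h3 : ∀ e : ℤ, c + d = e → e • Tm.ev x t + evL x (rest q) =
          c • Tm.ev x t + r + evL x ((d, t) :: q) := by
        intro e he
        rw [hr, ← he, add_smul]
        show _ = c • Tm.ev x t + r + (d • Tm.ev x t + evL x q)
        abel
      split
      · next h4 =>
        have h5 := h3 _ h4
        rw [← h5]
        simp
      · next e h4 => exact h3 _ rfl
    · show d • Tm.ev x s + evL x (ins c t rest q) = _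
      rw [ih]
      show _ = c • Tm.ev x t + r + (d • Tm.ev x s + evL x q)
      abel

theorem evL_add (x : ℕ → J) (p q : List (ℤ × Tm)) :
    evL x (addL p q) = evL x p + evL x q := by
  induction p generalizing q with
  | nil =>
    show evL x q = 0 + evL x q
    rw [zero_add]
  | cons a p ih =>
    obtain ⟨c, t⟩ := a
    show evL x (ins c t (addL p) q) = _
    rw [evL_ins x c t (addL p) (evL x p) ih q]
    rfl

theorem evL_mulT (x : ℕ → J) (c : ℤ) (t : Tm) (q : List (ℤ × Tm)) :
    evL x (mulT c t q) = (c • Tm.ev x t) * evL x q := by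
  induction q with
  | nil =>
    show (0 : J) = _ * 0
    rw [mul_zero]
  | cons a q ih =>
    obtain ⟨d, s⟩ := a
    show evL x (addL [(c * d, Tm.mk t s)] (mulT c t q)) = _ * (d • Tm.ev x s + evL x q)
    rw [evL_add, ih, mul_add, smul_mul_smul_comm]
    show (c * d) • Tm.ev x (Tm.mk t s) + 0 + _ = _
    rw [Tm.ev_mk, add_zero]

theorem evL_mul (x : ℕ → J) (p q : List (ℤ × Tm)) :
    evL x (mulL p q) = evL x p * evL x q := by
  induction p with
  | nil =>
    show (0 : J) = 0 * _
    rw [zero_mul]
  | cons a p ih =>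
    obtain ⟨c, t⟩ := a
    show evL x (addL (mulT c t q) (mulL p q)) = (c • Tm.ev x t + evL x p) * _
    rw [evL_add, evL_mulT, ih, add_mul]

theorem evL_sm (x : ℕ → J) (c : ℤ) (q : List (ℤ × Tm)) : evL x (smL c q) = c • evL x q := by
  induction q with
  | nil =>
    show (0 : J) = c • (0 : J)
    rw [smul_zero]
  | cons a q ih =>
    obtain ⟨d, s⟩ := a
    show (c * d) • Tm.ev x s + evL x (smL c q) = c • (d • Tm.ev x s + evL x q)
    rw [ih, smul_add, mul_smul]

theorem ev_add (x : ℕ → J) (p q : Po) : ev x (p + q) = ev x p + ev x q := evL_add x p.l q.l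

theorem ev_mul (x : ℕ → J) (p q : Po) : ev x (p * q) = ev x p * ev x q := evL_mul x p.l q.l

theorem ev_sub (x : ℕ → J) (p q : Po) : ev x (p - q) = ev x p - ev x q := by
  show evL x (addL p.l (smL (-1) q.l)) = _
  rw [evL_add, evL_sm, neg_one_smul, ← sub_eq_add_neg]
  rfl

theorem ev_sm (x : ℕ → J) (c : ℤ) (p : Po) : ev x (sm c p) = c • ev x p := evL_sm x c p.l

theorem ev_mo (x : ℕ → J) (t : Tm) : ev x (mo t) = Tm.ev x t := by
  show (1 : ℤ) • Tm.ev x t + 0 = _
  rw [one_smul, add_zero]

/-- sums of pairs -/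
def pair : List (List (ℤ × Tm)) → List (List (ℤ × Tm))
  | a :: b :: l => addL a b :: pair l
  | [a] => [a]
  | [] => []

/-- the sum of all -/
def sum0 : List (List (ℤ × Tm)) → List (ℤ × Tm)
  | [] => []
  | a :: l => addL a (sum0 l)

/-- the sum of all, in `k` rounds -/
def sumN : ℕ → List (List (ℤ × Tm)) → List (ℤ × Tm)
  | 0, l => sum0 l
  | k + 1, l => sumN k (pair l)

theorem evL_sum0 (x : ℕ → J) (l : List (List (ℤ × Tm))) :
    evL x (sum0 l) = (l.map (evL x)).sum := by
  induction l with
  | nil => rfl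
  | cons a l ih =>
    show evL x (addL a (sum0 l)) = evL x a + (l.map (evL x)).sum
    rw [evL_add, ih]

theorem pair_sum (x : ℕ → J) : ∀ l : List (List (ℤ × Tm)),
    ((pair l).map (evL x)).sum = (l.map (evL x)).sum
  | a :: b :: l => by
    show evL x (addL a b) + ((pair l).map (evL x)).sum = evL x a + (evL x b + (l.map (evL x)).sum)
    rw [evL_add, pair_sum x l, add_assoc]
  | [a] => rfl
  | [] => rfl

theorem evL_sumN (x : ℕ → J) (k : ℕ) (l : List (List (ℤ × Tm))) :
    evL x (sumN k l) = (l.map (evL x)).sum := by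
  induction k generalizing l with
  | zero => exact evL_sum0 x l
  | succ k ih =>
    show evL x (sumN k (pair l)) = _
    rw [ih, pair_sum]

end Po

end Pool.Agent.H.MP_e16c79_al.IS
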