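import Pool.Agent.H.MP_e16c79_al.IS.Mon

/-!
# MP_e16c79_al: the identities and their instances
-/

set_option autoImplicit false

namespace Pool.Agent.H.MP_e16c79_al.IS

section ops

variable {A : Type*} [Add A] [Sub A] [Mul A] [SMul ℤ A]

/-- associator -/
def asc (a b c : A) : A := a * b * c - a * (b * c)

/-- the triple product `(a w b + b w a) / 2` -/
def U (a w b : A) : A := a * (b * w) + b * (a * w) - a * b * w

/-- the linearised Jordan identity -/
def J4 (a b c y : A) : A :=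
  a * (b * c * y) + b * (c * a * y) + c * (a * b * y) -
    (b * c * (a * y) + c * a * (b * y) + a * b * (c * y))

/-- the first identity on the powers -/
def E1 (x1 x2 x3 y z : A) : A :=
  U x1 (asc y x2 z) x3 + U x2 (asc y x1 z) x3 + U x1 (asc y x3 z) x2

/-- one part of the second identity -/
def F0 (a b c d e : A) : A :=
  (130 : ℤ) • (a * (b * (c * (d * e)))) - (38 : ℤ) • (a * (b * (d * (c * e)))) -
    (92 : ℤ) • (a * (b * (e * (c * d)))) - (21 : ℤ) • (a * (b * c * (d * e))) +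
    (21 : ℤ) • (a * b * (d * (c * e)))

/-- the cyclic sum -/
def F5 (a b c d e : A) : A :=
  F0 a b c d e + F0 b c d e a + F0 c d e a b + F0 d e a b c + F0 e a b c d

/-- the second identity on the powers -/
def V5 (a b c d e : A) : A := F5 a b c d e + F5 a c e b d + F5 a d b e c + F5 a e d c b

/-- an alternating form -/
def T2 (a c e b d : A) : A :=
  (U a (asc c d e) b - U a (asc c b e) d) + (U c (asc e d a) b - U c (asc e b a) d) +
    (U e (asc a d c) b - U e (asc a b c) d)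

/-- the form of degree five -/
def P5 (x1 x2 x3 y1 y2 : A) : A := U x1 (asc x2 y1 y2) x3

/-- the symmetric form of `P5` -/
def Q5 (x1 x2 x3 y1 y2 : A) : A :=
  P5 x1 x2 x3 y1 y2 + P5 x2 x3 x1 y1 y2 + P5 x3 x1 x2 y1 y2 +
    (P5 x1 x2 x3 y2 y1 + P5 x2 x3 x1 y2 y1 + P5 x3 x1 x2 y2 y1)

end ops

instance : SMul ℤ Po := ⟨Po.sm⟩

theorem Po.ev_smul {R : Type*} [NonUnitalNonAssocCommRing R] (x : ℕ → R) (c : ℤ) (p : Po) :
    Po.ev x (c • p) = c • Po.ev x p := Po.ev_sm x c p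

/-- instances of the identities -/
inductive In : Type
  | J : Tm → Tm → Tm → Tm → In
  | E : Tm → Tm → Tm → Tm → Tm → In
  | V : Tm → Tm → Tm → Tm → Tm → In
  | Q : Tm → Tm → Tm → Tm → Tm → In
  | M : In → Tm → In

namespace In

open Po

/-- the polynomial -/
def po : In → Po
  | J a b c y => J4 (mo a) (mo b) (mo c) (mo y)
  | E a b c y z => E1 (mo a) (mo b) (mo c) (mo y) (mo z)
  | V a b c y z => V5 (mo a) (mo b) (mo c) (mo y) (mo z)
  | Q a b c y z => Q5 (mo a) (mo b) (mo c) (mo y) (mo z)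
  | M i u => po i * mo u

/-- no instance of the third form -/
def q : In → Bool
  | Q _ _ _ _ _ => false
  | M i _ => q i
  | _ => true

variable {R : Type*} [NonUnitalNonAssocCommRing R]

/-- the value -/
def va (x : ℕ → R) : In → R
  | J a b c y => J4 (Tm.ev x a) (Tm.ev x b) (Tm.ev x c) (Tm.ev x y)
  | E a b c y z => E1 (Tm.ev x a) (Tm.ev x b) (Tm.ev x c) (Tm.ev x y) (Tm.ev x z)
  | V a b c y z => V5 (Tm.ev x a) (Tm.ev x b) (Tm.ev x c) (Tm.ev x y) (Tm.ev x z)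
  | Q a b c y z => Q5 (Tm.ev x a) (Tm.ev x b) (Tm.ev x c) (Tm.ev x y) (Tm.ev x z)
  | M i u => va x i * Tm.ev x u

theorem ev_po (x : ℕ → R) (i : In) : Po.ev x (po i) = va x i := by
  induction i with
  | J a b c y =>
    simp only [po, va, J4, ev_add, ev_sub, ev_mul, ev_mo]
  | E a b c y z =>
    simp only [po, va, E1, U, asc, ev_add, ev_sub, ev_mul, ev_mo]
  | V a b c y z =>
    simp only [po, va, V5, F5, F0, ev_add, ev_sub, ev_mul, ev_mo, ev_smul]
  | Q a b c y z =>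
    simp only [po, va, Q5, P5, U, asc, ev_add, ev_sub, ev_mul, ev_mo]
  | M i u ih =>
    simp only [po, va, ev_mul, ev_mo, ih]

end In

/-- The data: `C` is a subring of the commutative ring `R`, `N` an ideal of `C`, the quotient is
a Jordan ring of nil index `n` without `2 n!`-torsion in which the two identities hold. -/
structure Co {R : Type*} [NonUnitalNonAssocCommRing R] (n : ℕ) (C N : AddSubgroup R) : Prop where
  le : N ≤ C
  sub : ∀ a ∈ C, ∀ b ∈ C, a * b ∈ C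
  idl : ∀ a ∈ N, ∀ b ∈ C, a * b ∈ N
  tf : ∀ r ∈ C, ((2 * n.factorial : ℕ) : ℤ) • r ∈ N → r ∈ N
  jor : ∀ a ∈ C, ∀ b ∈ C, ∀ c ∈ C, ∀ y ∈ C, J4 a b c y ∈ N
  nil : ∀ c ∈ C, (fun y => c * y)^[n - 1] c ∈ N
  e1 : ∀ x1 ∈ C, ∀ x2 ∈ C, ∀ x3 ∈ C, ∀ y ∈ C, ∀ z ∈ C, E1 x1 x2 x3 y z ∈ N
  v5 : ∀ a ∈ C, ∀ b ∈ C, ∀ c ∈ C, ∀ d ∈ C, ∀ e ∈ C, V5 a b c d e ∈ N

variable {R : Type*} [NonUnitalNonAssocCommRing R] {n : ℕ} {C N : AddSubgroup R}

theorem Co.va_mem (h : Co n C N) {x : ℕ → R} (hx : ∀ i, x i ∈ C) {b : Bool}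
    (hb : b = true → ∀ x1 ∈ C, ∀ x2 ∈ C, ∀ x3 ∈ C, ∀ y ∈ C, ∀ z ∈ C, Q5 x1 x2 x3 y z ∈ N)
    (i : In) (hi : (b || i.q) = true) : In.va x i ∈ N := by
  have hm : ∀ t, Tm.ev x t ∈ C := Tm.ev_mem h.sub hx
  induction i with
  | J a b c y => exact h.jor _ (hm a) _ (hm b) _ (hm c) _ (hm y)
  | E a b c y z => exact h.e1 _ (hm a) _ (hm b) _ (hm c) _ (hm y) _ (hm z)
  | V a b c y z => exact h.v5 _ (hm a) _ (hm b) _ (hm c) _ (hm y) _ (hm z)
  | Q a b' c y z =>
    cases b with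
    | true => exact hb rfl _ (hm a) _ (hm b') _ (hm c) _ (hm y) _ (hm z)
    | false => exact absurd (show false = true from hi) (by decide)
  | M i u ih => exact h.idl _ (ih hi) _ (hm u)

/-- the certificate: `d` times the target is the combination of the instances -/
def chk (b : Bool) (k : ℕ) (d : ℤ) (t : Po) (l : List (ℤ × In)) : Bool :=
  (l.all fun p => b || p.2.q) &&
    (Po.sumN k ((Po.smL (-d) t.l) :: l.map fun p => Po.smL p.1 (In.po p.2).l)).isEmpty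

theorem Co.chk_mem (h : Co n C N) {x : ℕ → R} (hx : ∀ i, x i ∈ C) {b : Bool}
    (hb : b = true → ∀ x1 ∈ C, ∀ x2 ∈ C, ∀ x3 ∈ C, ∀ y ∈ C, ∀ z ∈ C, Q5 x1 x2 x3 y z ∈ N)
    {k : ℕ} {d : ℤ} {t : Po} {l : List (ℤ × In)} (hc : chk b k d t l = true) :
    d • Po.ev x t ∈ N := by
  obtain ⟨hq, hc⟩ := Bool.and_eq_true_iff.1 hc
  have h1 := Po.evL_sumN x k ((Po.smL (-d) t.l) :: l.map fun p => Po.smL p.1 (In.po p.2).l)
  rw [List.isEmpty_iff.1 hc] at h1
  rw [List.map_cons, List.sum_cons, Po.evL_sm, List.map_map] at h1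
  have h2 : d • Po.ev x t = (l.map ((Po.evL x) ∘ fun p => Po.smL p.1 (In.po p.2).l)).sum := by
    have h3 : (0 : R) = (-d) • Po.ev x t +
      (l.map ((Po.evL x) ∘ fun p => Po.smL p.1 (In.po p.2).l)).sum := h1
    rw [neg_smul] at h3
    exact (neg_add_eq_zero.1 h3.symm)
  rw [h2]
  refine AddSubgroup.list_sum_mem _ fun y hy => ?_
  obtain ⟨p, hp, rfl⟩ := List.mem_map.1 hy
  show Po.evL x (Po.smL p.1 (In.po p.2).l) ∈ N
  rw [Po.evL_sm]
  refine N.zsmul_mem ?_ _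
  have h4 : Po.evL x (In.po p.2).l = In.va x p.2 := In.ev_po x p.2
  rw [h4]
  exact h.va_mem hx hb p.2 (List.all_eq_true.1 hq p hp)

end Pool.Agent.H.MP_e16c79_al.IS
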