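import Pool.Agent.H.MP_e16c79_al.IS.BDefs
import Pool.Agent.H.MP_e16c79_al.SP.Fin

/-!
# MP_e16c79_al: from a homomorphic image of a special Jordan ring to `BData`
-/

set_option autoImplicit false

namespace Pool.Agent.H.MP_e16c79_al.IS

open SP

universe u v w

section pass

variable {S : Type v} [NonUnitalNonAssocCommRing S] {J : Type w} [NonUnitalNonAssocCommRing J]
  {A : Type u} [NonUnitalRing A]

/-- the map to the torsion free ring -/
def psi (M : ℤ) (φ : S →+ A) : S →+ QU (Unitization ℤ A) M := (io (huU A) M).comp φ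

/-- the image, saturated -/
def PJ (M : ℤ) (φ : S →+ A) : AddSubgroup (QU (Unitization ℤ A) M) :=
  sat M ((psi M φ).range)

/-- the image of the kernel, saturated -/
def PN (M : ℤ) (φ : S →+ A) (π : S →+ J) : AddSubgroup (QU (Unitization ℤ A) M) :=
  sat M ((π.ker).map (psi M φ))

theorem psi_jor (M : ℤ) {φ : S →+ A} (hmul : ∀ x y, 2 • φ (x * y) = φ x * φ y + φ y * φ x)
    (x y : S) : (2 : ℤ) • psi M φ (x * y) = psi M φ x * psi M φ y + psi M φ y * psi M φ x := by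
  show (2 : ℤ) • io (huU A) M (φ (x * y)) = io (huU A) M (φ x) * io (huU A) M (φ y) +
    io (huU A) M (φ y) * io (huU A) M (φ x)
  have h1 := congrArg (io (huU A) M) (hmul x y)
  rw [map_nsmul, map_add, io_mul, io_mul] at h1
  rw [← h1, two_smul, two_nsmul]

theorem psi_two {M : ℤ} (h2 : (2 : ℤ) ∣ M) {q : QU (Unitization ℤ A) M} (hq : (2 : ℤ) • q = 0) :
    q = 0 := by
  refine QU_tf (M := M) ?_
  obtain ⟨e, he⟩ := h2
  have e1 : M • q = (e * 2) • q := by
    congr 1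
    rw [he, mul_comm]
  rw [e1, mul_smul, hq, smul_zero]

theorem psi_pow {M : ℤ} (h2 : (2 : ℤ) ∣ M) {φ : S →+ A}
    (hmul : ∀ x y, 2 • φ (x * y) = φ x * φ y + φ y * φ x) (k : ℕ) (a : S) :
    psi M φ ((fun x => a * x)^[k] a) = (psi M φ a) ^ (k + 1) := by
  induction k with
  | zero => simp
  | succ k ih =>
    rw [Function.iterate_succ_apply']
    rw [← sub_eq_zero]
    refine psi_two h2 ?_
    rw [smul_sub, psi_jor M hmul, ih, two_smul, ← pow_succ, ← pow_succ', sub_self]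

theorem sat_mul {R : Type*} [Ring R] {M : ℤ} {I K L : AddSubgroup R}
    (h : ∀ x ∈ I, ∀ y ∈ K, x * y + y * x ∈ L) :
    ∀ x ∈ sat M I, ∀ y ∈ sat M K, x * y + y * x ∈ sat M L := by
  rintro x ⟨k, hk⟩ y ⟨l, hl⟩
  refine ⟨k + l, ?_⟩
  have e : (M ^ (k + l)) • (x * y + y * x) =
      (M ^ k • x) * (M ^ l • y) + (M ^ l • y) * (M ^ k • x) := by
    rw [smul_mul_smul_comm, smul_mul_smul_comm, ← pow_add, ← pow_add, add_comm l k, smul_add]
  rw [e]
  exact h _ hk _ hl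

theorem pi_pow (π : S →ₙ+* J) (k : ℕ) (a : S) :
    π ((fun x => a * x)^[k] a) = (fun x => π a * x)^[k] (π a) := by
  induction k with
  | zero => rfl
  | succ k ih =>
    rw [Function.iterate_succ_apply', Function.iterate_succ_apply', map_mul, ih]

theorem pass_data (M : ℤ) (m : ℕ) (hm : 1 ≤ m) (hM : ((2 * m.factorial : ℕ) : ℤ) ∣ M)
    (hnil : ∀ a : J, (fun x => a * x)^[m - 1] a = 0) (φ : S →+ A)
    (hmul : ∀ x y, 2 • φ (x * y) = φ x * φ y + φ y * φ x) (π : S →ₙ+* J) :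
    BData m (PJ M φ) (PN M φ (π : S →+ J)) := by
  have h2 : (2 : ℤ) ∣ M := by
    refine dvd_trans ?_ hM
    push_cast
    exact dvd_mul_right _ _
  have hsat : ∀ (I : AddSubgroup (QU (Unitization ℤ A) M)) (r : QU (Unitization ℤ A) M),
      ((2 * m.factorial : ℕ) : ℤ) • r ∈ sat M I → r ∈ sat M I := by
    intro I r hr
    obtain ⟨e, he⟩ := hM
    refine sat_sat 1 ?_
    have e1 : M ^ 1 • r = (e * ((2 * m.factorial : ℕ) : ℤ)) • r := by
      congr 1
      rw [pow_one, he, mul_comm]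
    rw [e1, mul_smul]
    exact (sat M I).zsmul_mem hr _
  have hJ : ∀ x ∈ (psi M φ).range, ∀ y ∈ (psi M φ).range, x * y + y * x ∈ (psi M φ).range := by
    rintro _ ⟨x, rfl⟩ _ ⟨y, rfl⟩
    rw [← psi_jor M hmul]
    have h3 : psi M φ (x * y) ∈ (psi M φ).range := ⟨x * y, rfl⟩
    exact AddSubgroup.zsmul_mem _ h3 2
  have hN : ∀ x ∈ (psi M φ).range, ∀ y ∈ ((π : S →+ J).ker).map (psi M φ),
      x * y + y * x ∈ ((π : S →+ J).ker).map (psi M φ) := by
    rintro _ ⟨x, rfl⟩ _ ⟨y, hy, rfl⟩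
    rw [← psi_jor M hmul]
    have hy' : π y = 0 := hy
    have h3 : psi M φ (x * y) ∈ ((π : S →+ J).ker).map (psi M φ) := by
      refine ⟨x * y, ?_, rfl⟩
      show π (x * y) = 0
      rw [map_mul, hy', mul_zero]
    exact AddSubgroup.zsmul_mem _ h3 2
  refine ⟨?_, sat_mul hJ, sat_mul hN, ?_, hsat _, hsat _⟩
  · rintro x ⟨k, hk⟩
    refine ⟨k, ?_⟩
    obtain ⟨y, -, hy⟩ := hk
    exact ⟨y, hy⟩
  · rintro x ⟨k, ⟨s, hs⟩⟩
    have h3 : (psi M φ s) ^ m ∈ ((π : S →+ J).ker).map (psi M φ) := by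
      refine ⟨(fun x => s * x)^[m - 1] s, ?_, ?_⟩
      · show π ((fun x => s * x)^[m - 1] s) = 0
        rw [pi_pow, hnil]
      · rw [psi_pow h2 hmul, Nat.sub_add_cancel hm]
    refine ⟨k * m, ?_⟩
    have e : (M ^ (k * m)) • x ^ m = (psi M φ s) ^ m := by
      rw [hs, smul_pow, pow_mul]
    rw [e]
    exact h3

/-- From a homomorphic image `J` of a special Jordan ring `φ(S)` to the data. -/
theorem pass (M : ℤ) (m : ℕ) (hm : 1 ≤ m) (hM : ((2 * m.factorial : ℕ) : ℤ) ∣ M)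
    (hnil : ∀ a : J, (fun x => a * x)^[m - 1] a = 0) (tf : ∀ a : J, M • a = 0 → a = 0)
    (φ : S →+ A) (hmul : ∀ x y, 2 • φ (x * y) = φ x * φ y + φ y * φ x) (π : S →ₙ+* J)
    (hker : ∀ s, φ s = 0 → π s = 0) :
    ∃ (R' : Type u) (_ : Ring R') (ψ : S →+ R') (JJ N : AddSubgroup R'),
      (∀ x y, (2 : ℤ) • ψ (x * y) = ψ x * ψ y + ψ y * ψ x) ∧
      (∀ q : R', M • q = 0 → q = 0) ∧ BData m JJ N ∧ (∀ s, ψ s ∈ JJ) ∧
      (∀ s, ψ s ∈ N → π s = 0) ∧ (∀ k a, ψ ((fun x => a * x)^[k] a) = ψ a ^ (k + 1)) := by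
  have h2 : (2 : ℤ) ∣ M := by
    refine dvd_trans ?_ hM
    push_cast
    exact dvd_mul_right _ _
  have tf' : ∀ (k : ℕ) (a : J), (M ^ k) • a = 0 → a = 0 := by
    intro k
    induction k with
    | zero =>
      intro a h
      simpa using h
    | succ k ih =>
      intro a h
      refine ih a (tf _ ?_)
      rw [← mul_smul, ← pow_succ']
      exact h
  refine ⟨QU (Unitization ℤ A) M, inferInstance, psi M φ, PJ M φ, PN M φ (π : S →+ J),
    psi_jor M hmul, fun q hq => QU_tf hq, pass_data M m hm hM hnil φ hmul π,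
    fun s => le_sat M _ ⟨s, rfl⟩, ?_, psi_pow h2 hmul⟩
  rintro s ⟨k, y, hy, e⟩
  have hy' : π y = 0 := hy
  have e1 : io (huU A) M (φ (y - (M ^ k) • s)) = 0 := by
    have e2 : psi M φ y = (M ^ k) • psi M φ s := e
    have e3 : psi M φ (y - (M ^ k) • s) = 0 := by
      rw [map_sub, map_zsmul, e2, sub_self]
    exact e3
  obtain ⟨l, hl⟩ := io_zero (huU A) e1
  rw [← map_zsmul] at hl
  have h4 := hker _ hl
  rw [map_zsmul, map_sub, hy', zero_sub, map_zsmul] at h4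
  have h5 := tf' l _ h4
  rw [neg_eq_zero] at h5
  exact tf' k _ h5

end pass

end Pool.Agent.H.MP_e16c79_al.IS
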