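import Pool.Agent.H.MP_e16c79_al.IS.Pass
import Pool.Agent.H.MP_e16c79_al.IS.Ops
import Pool.Agent.H.MP_e16c79_al.IS.Chain

/-!
# MP_e16c79_al: from an ideal of a special Jordan ring to `BData`
-/

set_option autoImplicit false

namespace Pool.Agent.H.MP_e16c79_al.IS

open SP

universe u v

/-- The map `ψ` from the commutative ring `S` to the associative ring `R`, the ideal `K` of `S`
and the groups `J`, `N` of `R`. -/
structure PD {S : Type v} [NonUnitalNonAssocCommRing S] {R : Type u} [Ring R] (M : ℤ) (m : ℕ)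
    (K : AddSubgroup S) (ψ : S →+ R) (J N : AddSubgroup R) : Prop where
  jor : ∀ x y, (2 : ℤ) • ψ (x * y) = ψ x * ψ y + ψ y * ψ x
  tf : ∀ q : R, M • q = 0 → q = 0
  dvd : ((2 * m.factorial : ℕ) : ℤ) ∣ M
  data : BData m J N
  mem : ∀ s, ψ s ∈ J
  ker : ∀ s, ψ s ∈ N → s ∈ K
  pow : ∀ k a, ψ ((fun x => a * x)^[k] a) = ψ a ^ (k + 1)

section passK

variable {S : Type v} [NonUnitalNonAssocCommRing S] {A : Type u} [NonUnitalRing A]

/-- From an ideal `K` of `S` which contains the kernel of the special representation `φ` to the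
data. -/
theorem passK (M : ℤ) (m : ℕ) (hm : 1 ≤ m) (hM : ((2 * m.factorial : ℕ) : ℤ) ∣ M) (φ : S →+ A)
    (hmul : ∀ x y, 2 • φ (x * y) = φ x * φ y + φ y * φ x) (K : AddSubgroup S)
    (hK : ∀ a ∈ K, ∀ b, a * b ∈ K) (hs : ∀ a, M • a ∈ K → a ∈ K)
    (hker : ∀ s, φ s = 0 → s ∈ K) (hnil : ∀ a : S, (fun x => a * x)^[m - 1] a ∈ K) :
    ∃ (R' : Type u) (_ : Ring R') (ψ : S →+ R') (J N : AddSubgroup R'), PD M m K ψ J N := by
  have h2 : (2 : ℤ) ∣ M := by
    refine dvd_trans ?_ hM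
    push_cast
    exact dvd_mul_right _ _
  have hsat : ∀ (I : AddSubgroup (QU (Unitization ℤ A) M)) (r : QU (Unitization ℤ A) M),
      ((2 * m.factorial : ℕ) : ℤ) • r ∈ sat M I → r ∈ sat M I := by
    intro I r hr
    obtain ⟨e, he⟩ := hM
    refine sat_sat 1 ?_
    have e1 : M ^ 1 • r = (e * ((2 * m.factorial : ℕ) : ℤ)) • r := by
      congr 1
      rw [pow_one, he, mul_comm]
    rw [e1, mul_smul]
    exact (sat M I).zsmul_mem hr _
  have hJ : ∀ x ∈ (psi M φ).range, ∀ y ∈ (psi M φ).range, x * y + y * x ∈ (psi M φ).range := by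
    rintro _ ⟨x, rfl⟩ _ ⟨y, rfl⟩
    rw [← psi_jor M hmul]
    have h3 : psi M φ (x * y) ∈ (psi M φ).range := ⟨x * y, rfl⟩
    exact AddSubgroup.zsmul_mem _ h3 2
  have hN : ∀ x ∈ (psi M φ).range, ∀ y ∈ K.map (psi M φ), x * y + y * x ∈ K.map (psi M φ) := by
    rintro _ ⟨x, rfl⟩ _ ⟨y, hy, rfl⟩
    rw [← psi_jor M hmul]
    have h3 : psi M φ (x * y) ∈ K.map (psi M φ) := by
      refine ⟨x * y, ?_, rfl⟩
      rw [mul_comm]
      exact hK y hy x
    exact AddSubgroup.zsmul_mem _ h3 2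
  refine ⟨QU (Unitization ℤ A) M, inferInstance, psi M φ, PJ M φ, sat M (K.map (psi M φ)),
    psi_jor M hmul, fun q hq => QU_tf hq, hM, ⟨?_, sat_mul hJ, sat_mul hN, ?_, hsat _, hsat _⟩,
    fun s => le_sat M _ ⟨s, rfl⟩, ?_, psi_pow h2 hmul⟩
  · rintro x ⟨k, hk⟩
    refine ⟨k, ?_⟩
    obtain ⟨y, -, hy⟩ := hk
    exact ⟨y, hy⟩
  · rintro x ⟨k, ⟨s, hs⟩⟩
    have h3 : (psi M φ s) ^ m ∈ K.map (psi M φ) := by
      refine ⟨(fun x => s * x)^[m - 1] s, hnil s, ?_⟩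
      rw [psi_pow h2 hmul, Nat.sub_add_cancel hm]
    refine ⟨k * m, ?_⟩
    have e : (M ^ (k * m)) • x ^ m = (psi M φ s) ^ m := by
      rw [hs, smul_pow, pow_mul]
    rw [e]
    exact h3
  · rintro s ⟨k, y, hy, e⟩
    have e1 : io (huU A) M (φ (y - (M ^ k) • s)) = 0 := by
      have e2 : psi M φ y = (M ^ k) • psi M φ s := e
      have e3 : psi M φ (y - (M ^ k) • s) = 0 := by
        rw [map_sub, map_zsmul, e2, sub_self]
      exact e3
    obtain ⟨l, hl⟩ := io_zero (huU A) e1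
    rw [← map_zsmul] at hl
    have h4 := pow_of hs l _ (hker _ hl)
    have h5 : (M ^ k) • s ∈ K := by
      have h6 := K.sub_mem hy h4
      rwa [sub_sub_cancel] at h6
    exact pow_of hs k _ h5

end passK

namespace PD

variable {S : Type v} [NonUnitalNonAssocCommRing S] {R : Type u} [Ring R] {M : ℤ} {m : ℕ}
  {K : AddSubgroup S} {ψ : S →+ R} {J N : AddSubgroup R}

theorem two (h : PD M m K ψ J N) {q : R} (hq : (2 : ℤ) • q = 0) : q = 0 := by
  refine h.tf q ?_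
  obtain ⟨e, he⟩ := h.dvd
  have e1 : M • q = (e * (m.factorial : ℤ) * 2) • q := by
    congr 1
    rw [he]
    push_cast
    ring
  rw [e1, mul_smul, hq, smul_zero]

theorem two_pow (h : PD M m K ψ J N) (k : ℕ) {q : R} (hq : (2 ^ k : ℤ) • q = 0) : q = 0 := by
  induction k with
  | zero => simpa using hq
  | succ k ih =>
    refine ih (h.two ?_)
    rw [← mul_smul, ← pow_succ']
    exact hq

end PD

/-- The ring `R` with the product `x y + y x`. -/
structure St (R : Type u) : Type u where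
  v : R

section St

variable {R : Type u} [Ring R]

instance : Add (St R) := ⟨fun x y => ⟨x.v + y.v⟩⟩
instance : Sub (St R) := ⟨fun x y => ⟨x.v - y.v⟩⟩
instance : Mul (St R) := ⟨fun x y => ⟨x.v * y.v + y.v * x.v⟩⟩
instance : SMul ℤ (St R) := ⟨fun c x => ⟨c • x.v⟩⟩

/-- `2 ^ k` times `ψ s` is `r` -/
def Hm {S : Type v} [NonUnitalNonAssocCommRing S] (ψ : S →+ R) (k : ℕ) (s : S) (r : St R) : Prop :=
  (2 ^ k : ℤ) • ψ s = r.v

variable {S : Type v} [NonUnitalNonAssocCommRing S] {ψ : S →+ R}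

theorem Hm.var (s : S) : Hm ψ 0 s ⟨ψ s⟩ := by
  show (2 ^ 0 : ℤ) • ψ s = ψ s
  rw [pow_zero, one_smul]

theorem Hm.mul (hj : ∀ x y, (2 : ℤ) • ψ (x * y) = ψ x * ψ y + ψ y * ψ x) {k l : ℕ} {s t : S}
    {r q : St R} (h1 : Hm ψ k s r) (h2 : Hm ψ l t q) : Hm ψ (k + l + 1) (s * t) (r * q) := by
  have e1 : (2 ^ k : ℤ) • ψ s = r.v := h1
  have e2 : (2 ^ l : ℤ) • ψ t = q.v := h2
  show (2 ^ (k + l + 1) : ℤ) • ψ (s * t) = r.v * q.v + q.v * r.v
  rw [← e1, ← e2, smul_mul_smul_comm, smul_mul_smul_comm, pow_succ, mul_smul, hj, smul_add,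
    pow_add, mul_comm ((2 : ℤ) ^ l)]

theorem Hm.add {k : ℕ} {s t : S} {r q : St R} (h1 : Hm ψ k s r) (h2 : Hm ψ k t q) :
    Hm ψ k (s + t) (r + q) := by
  have e1 : (2 ^ k : ℤ) • ψ s = r.v := h1
  have e2 : (2 ^ k : ℤ) • ψ t = q.v := h2
  show (2 ^ k : ℤ) • ψ (s + t) = r.v + q.v
  rw [map_add, smul_add, e1, e2]

theorem Hm.sub {k : ℕ} {s t : S} {r q : St R} (h1 : Hm ψ k s r) (h2 : Hm ψ k t q) :
    Hm ψ k (s - t) (r - q) := by
  have e1 : (2 ^ k : ℤ) • ψ s = r.v := h1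
  have e2 : (2 ^ k : ℤ) • ψ t = q.v := h2
  show (2 ^ k : ℤ) • ψ (s - t) = r.v - q.v
  rw [map_sub, smul_sub, e1, e2]

theorem Hm.smul {k : ℕ} {s : S} {r : St R} (c : ℤ) (h1 : Hm ψ k s r) :
    Hm ψ k (c • s) (c • r) := by
  have e1 : (2 ^ k : ℤ) • ψ s = r.v := h1
  show (2 ^ k : ℤ) • ψ (c • s) = c • r.v
  rw [map_zsmul, smul_comm, e1]

section ops

variable (hj : ∀ x y, (2 : ℤ) • ψ (x * y) = ψ x * ψ y + ψ y * ψ x)
include hj

theorem hm_J4 {a b c y : S} {a' b' c' y' : St R} (va : Hm ψ 0 a a') (vb : Hm ψ 0 b b')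
    (vc : Hm ψ 0 c c') (vy : Hm ψ 0 y y') : Hm ψ 3 (J4 a b c y) (J4 a' b' c' y') := by
  have mul := @Hm.mul R _ S _ ψ hj
  unfold J4
  exact (((mul va (mul (mul vb vc) vy)).add (mul vb (mul (mul vc va) vy))).add
    (mul vc (mul (mul va vb) vy))).sub
    (((mul (mul vb vc) (mul va vy)).add (mul (mul vc va) (mul vb vy))).add
      (mul (mul va vb) (mul vc vy)))

theorem hm_asc {i j k : ℕ} {a b c : S} {a' b' c' : St R} (va : Hm ψ i a a') (vb : Hm ψ j b b')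
    (vc : Hm ψ k c c') : Hm ψ (i + j + k + 2) (asc a b c) (asc a' b' c') := by
  unfold asc
  have e1 : Hm ψ (i + j + k + 2) (a * b * c) (a' * b' * c') := by
    have h := ((va.mul hj vb).mul hj vc)
    rwa [show i + j + 1 + k + 1 = i + j + k + 2 by omega] at h
  have e2 : Hm ψ (i + j + k + 2) (a * (b * c)) (a' * (b' * c')) := by
    have h := (va.mul hj (vb.mul hj vc))
    rwa [show i + (j + k + 1) + 1 = i + j + k + 2 by omega] at h
  exact e1.sub e2

theorem hm_U {i j k : ℕ} {a b c : S} {a' b' c' : St R} (va : Hm ψ i a a') (vb : Hm ψ j b b')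
    (vc : Hm ψ k c c') : Hm ψ (i + j + k + 2) (U a b c) (U a' b' c') := by
  unfold U
  have e1 : Hm ψ (i + j + k + 2) (a * (c * b)) (a' * (c' * b')) := by
    have h := (va.mul hj (vc.mul hj vb))
    rwa [show i + (k + j + 1) + 1 = i + j + k + 2 by omega] at h
  have e2 : Hm ψ (i + j + k + 2) (c * (a * b)) (c' * (a' * b')) := by
    have h := (vc.mul hj (va.mul hj vb))
    rwa [show k + (i + j + 1) + 1 = i + j + k + 2 by omega] at h
  have e3 : Hm ψ (i + j + k + 2) (a * c * b) (a' * c' * b') := by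
    have h := ((va.mul hj vc).mul hj vb)
    rwa [show i + k + 1 + j + 1 = i + j + k + 2 by omega] at h
  exact (e1.add e2).sub e3

/-- one term of `E1` -/
theorem hm_P5 {a b c d e : S} {a' b' c' d' e' : St R} (va : Hm ψ 0 a a') (vb : Hm ψ 0 b b')
    (vc : Hm ψ 0 c c') (vd : Hm ψ 0 d d') (ve : Hm ψ 0 e e') :
    Hm ψ 4 (U a (asc d b e) c) (U a' (asc d' b' e') c') := by
  have h := hm_U hj va (hm_asc hj vd vb ve) vc
  exact h

theorem hm_F0 {a b c d e : S} {a' b' c' d' e' : St R} (va : Hm ψ 0 a a') (vb : Hm ψ 0 b b')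
    (vc : Hm ψ 0 c c') (vd : Hm ψ 0 d d') (ve : Hm ψ 0 e e') :
    Hm ψ 4 (F0 a b c d e) (F0 a' b' c' d' e') := by
  have mul := @Hm.mul R _ S _ ψ hj
  unfold F0
  exact (((((mul va (mul vb (mul vc (mul vd ve)))).smul 130).sub
    ((mul va (mul vb (mul vd (mul vc ve)))).smul 38)).sub
    ((mul va (mul vb (mul ve (mul vc vd)))).smul 92)).sub
    ((mul va (mul (mul vb vc) (mul vd ve))).smul 21)).add
    ((mul (mul va vb) (mul vd (mul vc ve))).smul 21)

end ops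

theorem st_J4 (a b c y : R) : (J4 (⟨a⟩ : St R) ⟨b⟩ ⟨c⟩ ⟨y⟩).v = 0 := by
  show ((a * ((b * c + c * b) * y + y * (b * c + c * b)) +
      ((b * c + c * b) * y + y * (b * c + c * b)) * a) +
    (b * ((c * a + a * c) * y + y * (c * a + a * c)) +
      ((c * a + a * c) * y + y * (c * a + a * c)) * b) +
    (c * ((a * b + b * a) * y + y * (a * b + b * a)) +
      ((a * b + b * a) * y + y * (a * b + b * a)) * c)) -
    (((b * c + c * b) * (a * y + y * a) + (a * y + y * a) * (b * c + c * b)) +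
      ((c * a + a * c) * (b * y + y * b) + (b * y + y * b) * (c * a + a * c)) +
      ((a * b + b * a) * (c * y + y * c) + (c * y + y * c) * (a * b + b * a))) = 0
  noncomm_ring

end St

namespace PD

variable {S : Type v} [NonUnitalNonAssocCommRing S] {R : Type u} [Ring R] {M : ℤ} {m : ℕ}
  {K : AddSubgroup S} {ψ : S →+ R} {J N : AddSubgroup R}

/-- the linearised Jordan identity -/
theorem j4 (h : PD M m K ψ J N) (a b c y : S) : J4 a b c y ∈ K := by
  refine h.ker _ ?_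
  have h1 : (2 ^ 3 : ℤ) • ψ (J4 a b c y) =
      (J4 (⟨ψ a⟩ : St R) ⟨ψ b⟩ ⟨ψ c⟩ ⟨ψ y⟩).v :=
    hm_J4 h.jor (Hm.var a) (Hm.var b) (Hm.var c) (Hm.var y)
  rw [h.two_pow 3 (h1.trans (st_J4 _ _ _ _))]
  exact N.zero_mem

end PD

end Pool.Agent.H.MP_e16c79_al.IS
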