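import Pool.Agent.H.MP_e16c79_al.HS.Pol

/-!
# MP_e16c79_al: products of commuting operators of bounded nil index
-/

set_option autoImplicit false

namespace Pool.Agent.H.MP_e16c79_al.IS

open Finset

theorem polar {E G : Type*} [Ring E] [AddCommGroup G] (ρ : G →+ E)
    (hc : ∀ a b, Commute (ρ a) (ρ b)) (n : ℕ)
    (tf : ∀ d : ℕ, 1 ≤ d → d ≤ n → ∀ r : E, (d : ℤ) • r = 0 → r = 0)
    (hn : ∀ a, ρ a ^ n = 0) :
    ∀ (l : List G) (k : ℕ), k + l.length = n → ∀ c, ρ c ^ k * (l.map ρ).prod = 0 := by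
  intro l
  induction l with
  | nil =>
    intro k hk c
    have hk' : k = n := by simpa using hk
    rw [hk', hn, zero_mul]
  | cons d l ih =>
    intro k hk c
    have hk' : (k + 1) + l.length = n := by
      rw [← hk, List.length_cons]
      omega
    set P := (l.map ρ).prod with hP
    have h1 : ∀ i : Fin (k + 1 + 1), ∑ j : Fin (k + 1 + 1), ((i : ℕ) : ℤ) ^ (j : ℕ) •
        (((k + 1).choose j : ℕ) • (ρ d ^ (j : ℕ) * ρ c ^ (k + 1 - j) * P)) = 0 := by
      intro i
      have e := ih (k + 1) hk' (((i : ℕ) : ℤ) • d + c)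
      rw [map_add, map_zsmul] at e
      have hcm : Commute (((i : ℕ) : ℤ) • ρ d) (ρ c) := (hc d c).smul_left _
      rw [hcm.add_pow, sum_mul] at e
      rw [← e, Fin.sum_univ_eq_sum_range (fun j => ((i : ℕ) : ℤ) ^ j •
        (((k + 1).choose j : ℕ) • (ρ d ^ j * ρ c ^ (k + 1 - j) * P))) (k + 1 + 1)]
      refine sum_congr rfl fun j _ => ?_
      rw [smul_pow, smul_mul_assoc, smul_mul_assoc, smul_mul_assoc, nsmul_eq_mul, ← mul_assoc,
        (Nat.cast_commute ((k + 1).choose j) (ρ d ^ j * ρ c ^ (k + 1 - j))).eq]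
    have h2 := HS.vand (k + 1) (fun e he1 he2 => tf e he1 (by omega)) _ h1 1
    have h3 : ((k + 1 : ℕ) : ℤ) • (ρ d * ρ c ^ k * P) = 0 := by
      have e1 : (((1 : Fin (k + 1 + 1)) : ℕ)) = 1 := by
        simp
      rw [e1] at h2
      rw [Nat.choose_one_right, pow_one, Nat.add_sub_cancel] at h2
      rw [natCast_zsmul]
      exact h2
    have h4 := tf (k + 1) (by omega) (by omega) _ h3
    rw [List.map_cons, List.prod_cons, ← mul_assoc, ← ((hc d c).pow_right k).eq]
    exact h4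

end Pool.Agent.H.MP_e16c79_al.IS
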