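import Pool.Agent.H.MP_e16c79_al.IS.Polar

/-!
# MP_e16c79_al: matrices of rank one with nilpotent entries

`tqe`: let `b : K × S → F` be biadditive, `F` a commutative ring without `d`-torsion for
`1 ≤ d ≤ n`, with vanishing `2 × 2` minors and `b (k, s) ^ n = 0` for all `k`, `s`. Then every
product of `n` entries is zero. `tqeM` is the same on a module.

Proof. For fixed `s` the map `k ↦ b (k, s)` can be polarised. Then the operators
`(ρ s g) (k :: l) = b (k, s) g l`, `(ρ s g) [] = 0` on the functions `g` of lists commute (minors)
and have `ρ s ^ n = 0`, so they can be polarised as well.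
-/

set_option autoImplicit false

namespace Pool.Agent.H.MP_e16c79_al.IS

open Finset

/-- The operators on functions of lists. -/
private def tqOp {F K S : Type*} [CommRing F] [AddCommGroup K] [AddCommGroup S]
    (b : K →+ S →+ F) : S →+ Module.End ℤ (List K → F) where
  toFun s :=
    { toFun := fun g l => match l with
        | [] => 0
        | k :: l => b k s * g l
      map_add' := by
        intro g h
        funext l
        cases l with
        | nil => simp
        | cons k l => simp [mul_add]
      map_smul' := by
        intro c g
        funext l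
        cases l with
        | nil => simp
        | cons k l =>
          simp
          ring }
  map_zero' := by
    refine LinearMap.ext fun g => ?_
    funext l
    cases l with
    | nil => rfl
    | cons k l => simp
  map_add' := by
    intro s t
    refine LinearMap.ext fun g => ?_
    funext l
    cases l with
    | nil => simp
    | cons k l => simp [add_mul]

private lemma tqOp_nil {F K S : Type*} [CommRing F] [AddCommGroup K] [AddCommGroup S]
    (b : K →+ S →+ F) (s : S) (g : List K → F) : tqOp b s g [] = 0 := rfl

private lemma tqOp_cons {F K S : Type*} [CommRing F] [AddCommGroup K] [AddCommGroup S]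
    (b : K →+ S →+ F) (s : S) (g : List K → F) (k : K) (l : List K) :
    tqOp b s g (k :: l) = b k s * g l := rfl

theorem tqe {F K S : Type*} [CommRing F] [AddCommGroup K] [AddCommGroup S] (b : K →+ S →+ F)
    (n : ℕ) (tf : ∀ d : ℕ, 1 ≤ d → d ≤ n → ∀ r : F, (d : ℤ) • r = 0 → r = 0)
    (hmin : ∀ k k' s t, b k s * b k' t = b k t * b k' s) (hpow : ∀ k s, b k s ^ n = 0) :
    ∀ l : List (K × S), l.length = n → (l.map fun p => b p.1 p.2).prod = 0 := by
  -- polarise in `k`
  have h1 : ∀ (s : S) (l : List K), l.length = n → (l.map fun k => b k s).prod = 0 := by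
    intro s l hl
    have h := polar (b.flip s) (fun _ _ => Commute.all _ _) n tf (fun k => hpow k s) l 0
      (by omega) 0
    rw [pow_zero, one_mul] at h
    exact h
  -- powers of the operators
  have h2 : ∀ (s : S) (m : ℕ) (g : List K → F) (l : List K), ((tqOp b s) ^ m) g l =
      if m ≤ l.length then ((l.take m).map fun k => b k s).prod * g (l.drop m) else 0 := by
    intro s m
    induction m with
    | zero =>
      intro g l
      simp
    | succ m ih =>
      intro g l
      rw [pow_succ']
      rw [Module.End.mul_apply]
      cases l with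
      | nil =>
        rw [tqOp_nil]
        simp
      | cons k l =>
        rw [tqOp_cons, ih]
        by_cases hm : m ≤ l.length
        · rw [if_pos hm, if_pos (by simpa using hm), List.take_succ_cons, List.map_cons,
            List.prod_cons, List.drop_succ_cons, mul_assoc]
        · rw [if_neg hm, if_neg (by simpa using hm), mul_zero]
  have h3 : ∀ s : S, (tqOp b s) ^ n = 0 := by
    intro s
    refine LinearMap.ext fun g => ?_
    funext l
    rw [h2]
    split_ifs with hl
    · rw [h1 s (l.take n) (by rw [List.length_take]; omega), zero_mul]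
      rfl
    · rfl
  have h4 : ∀ s t : S, Commute (tqOp b s) (tqOp b t) := by
    intro s t
    refine LinearMap.ext fun g => ?_
    funext l
    rw [Module.End.mul_apply, Module.End.mul_apply]
    cases l with
    | nil => rw [tqOp_nil, tqOp_nil]
    | cons k l =>
      rw [tqOp_cons, tqOp_cons]
      cases l with
      | nil => rw [tqOp_nil, tqOp_nil, mul_zero, mul_zero]
      | cons k' l => rw [tqOp_cons, tqOp_cons, ← mul_assoc, ← mul_assoc, hmin]
  have h5 : ∀ d : ℕ, 1 ≤ d → d ≤ n → ∀ r : Module.End ℤ (List K → F), (d : ℤ) • r = 0 → r = 0 := by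
    intro d hd1 hd2 r hr
    refine LinearMap.ext fun g => ?_
    funext l
    refine tf d hd1 hd2 _ ?_
    have := congrFun (LinearMap.congr_fun hr g) l
    simpa using this
  intro l hl
  have h6 := polar (tqOp b) h4 n h5 h3 (l.map Prod.snd) 0 (by rw [List.length_map]; omega) 0
  rw [pow_zero, one_mul] at h6
  have h7 : ∀ l : List (K × S), (((l.map Prod.snd).map (tqOp b)).prod) (fun _ => 1)
      (l.map Prod.fst) = (l.map fun p => b p.1 p.2).prod := by
    intro l
    induction l with
    | nil => simp
    | cons p l ih =>
      rw [List.map_cons, List.map_cons, List.prod_cons, Module.End.mul_apply, List.map_cons,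
        tqOp_cons, ih, List.map_cons, List.prod_cons]
  rw [← h7, h6]
  rfl

theorem tqeM {F K S M : Type*} [CommRing F] [AddCommGroup K] [AddCommGroup S] [AddCommGroup M]
    [Module F M] (b : K →+ S →+ F) (n : ℕ)
    (tf : ∀ d : ℕ, 1 ≤ d → d ≤ n → ∀ m : M, (d : ℤ) • m = 0 → m = 0)
    (hmin : ∀ k k' s t (m : M), (b k s * b k' t) • m = (b k t * b k' s) • m)
    (hpow : ∀ k s (m : M), (b k s ^ n) • m = 0) (l : List (K × S)) (hl : l.length = n) (m : M) :
    ((l.map fun p => b p.1 p.2).prod) • m = 0 := by
  set I : Ideal F := Module.annihilator F M with hI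
  have hmem : ∀ r : F, r ∈ I ↔ ∀ m : M, r • m = 0 := fun r => Module.mem_annihilator
  set q : F →+* F ⧸ I := Ideal.Quotient.mk I with hq
  have hq0 : ∀ r : F, q r = 0 ↔ ∀ m : M, r • m = 0 := by
    intro r
    rw [← hmem]
    exact Ideal.Quotient.eq_zero_iff_mem
  let b' : K →+ S →+ F ⧸ I :=
    { toFun := fun k => (q : F →+ F ⧸ I).comp (b k)
      map_zero' := by
        ext s
        simp
      map_add' := by
        intro k k'
        ext s
        simp }
  have hb' : ∀ k s, b' k s = q (b k s) := fun k s => rfl
  have h := tqe b' n (by
      intro d hd1 hd2 r hr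
      obtain ⟨r, rfl⟩ := Ideal.Quotient.mk_surjective r
      change (d : ℤ) • q r = 0 at hr
      rw [← map_zsmul, hq0] at hr
      change q r = 0
      rw [hq0]
      intro m
      refine tf d hd1 hd2 _ ?_
      rw [← hr m, smul_assoc]) (by
      intro k k' s t
      rw [hb', hb', hb', hb', ← map_mul, ← map_mul, ← sub_eq_zero, ← map_sub, hq0]
      intro m
      rw [sub_smul, hmin, sub_self]) (by
      intro k s
      rw [hb', ← map_pow, hq0]
      exact hpow k s) l hl
  have h2 : q ((l.map fun p => b p.1 p.2).prod) = 0 := by
    rw [map_list_prod, List.map_map]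
    exact h
  exact (hq0 _).1 h2 m

end Pool.Agent.H.MP_e16c79_al.IS
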