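import Pool.Agent.H.MP_e16c79_al.IS.BTabE

/-!
# MP_e16c79_al: certificate V, part 11
-/

set_option autoImplicit false

namespace Pool.Agent.H.MP_e16c79_al.IS

/-- data -/
def dV11x0 : RT := (.nd (.nd (.nd (.lf ⟨[.negSucc 455039, .ofNat 1644960, .negSucc 1356959, .ofNat 511200, .negSucc 60959], (.tr (.lf 5) (.tr (.lf 13) (.tr (.lf 9) (.dx 0 .on) (.tr (.lf 17) (.lf 6) (.lf 18))) (.lf 14)) (.lf 10)), 0, [7, 7, 7, 7, 7, 7, 7, 7], [7, 7, 7, 7, 7, 7, 7, 7]⟩)
    (.lf ⟨[.negSucc 16839359, .ofNat 44258480, .negSucc 44611039, .ofNat 15160880, .negSucc 2468879], (.tr (.lf 9) (.lf 5) (.tr (.lf 17) (.tr (.dx 0 .on) (.tr (.lf 13) (.lf 10) (.lf 14)) (.lf 6)) (.lf 18))), 0, [27, 27, 3, 3, 27, 27, 3, 3], [27, 27, 34, 34, 27, 27, 34, 34]⟩))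
    (.nd (.lf ⟨[.negSucc 415439, .ofNat 4746060, .negSucc 6368159, .ofNat 2599980, .negSucc 411479], (.tr (.lf 5) (.tr (.lf 17) (.tr (.dx 0 .on) (.lf 9) (.tr (.lf 13) (.lf 6) (.lf 14))) (.lf 18)) (.lf 10)), 0, [29, 29, 16, 16, 29, 29, 16, 16], [29, 29, 29, 29, 29, 29, 29, 29]⟩)
    (.lf ⟨[.ofNat 0, .negSucc 669599, .ofNat 835680, .negSucc 360479, .ofNat 60960], (.tr (.lf 17) (.lf 5) (.tr (.lf 9) (.tr (.dx 0 .on) (.lf 18) (.tr (.lf 13) (.lf 6) (.lf 14))) (.lf 10))), 0, [7, 7, 13, 13, 7, 7, 13, 13], [7, 7, 26, 26, 7, 7, 26, 26]⟩)))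
    (.nd (.nd (.lf ⟨[.negSucc 910079, .ofNat 3923520, .negSucc 3189119, .ofNat 930240, .negSucc 121919], (.tr (.lf 6) (.tr (.lf 17) (.tr (.dx 0 (.lf 5)) (.tw (.lf 13) (.lf 14)) (.lf 9)) (.lf 18)) (.lf 10)), 0, [29, 29, 16, 16, 29, 29, 16, 16], [29, 29, 16, 16, 29, 29, 16, 16]⟩)
    (.lf ⟨[.ofNat 1820160, .negSucc 7847039, .ofNat 6378240, .negSucc 1860479, .ofNat 243840], (.tr (.dx 0 (.tw (.lf 9) (.tr (.lf 10) (.tr (.lf 5) (.lf 13) (.lf 6)) (.lf 17)))) (.lf 18) (.lf 14)), 0, [20, 20, 20, 20, 5, 5, 5, 5], []⟩))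
    (.nd (.lf ⟨[.negSucc 6084719, .ofNat 24975780, .negSucc 26606879, .ofNat 10471620, .negSucc 1691639], (.tr (.lf 6) (.tr (.lf 17) (.tr (.dx 0 (.lf 5)) (.lf 13) (.tw (.lf 9) (.lf 10))) (.lf 18)) (.lf 14)), 0, [16, 16, 16, 16, 16, 16, 16, 16], [16, 16, 5, 5, 16, 16, 5, 5]⟩)
    (.lf ⟨[.ofNat 0, .negSucc 339839, .ofNat 366720, .negSucc 53759], (.tw (.dx 0 (.lf 5)) (.tr (.lf 9) (.tr (.lf 6) (.lf 13) (.tr (.lf 17) (.lf 14) (.lf 18))) (.lf 10))), 0, [0, 0, 0, 0, 0, 0, 0, 0], [29, 29, 20, 20, 29, 29, 20, 20]⟩))))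

/-- data -/
def dV11x1 : RT := (.nd (.nd (.nd (.lf ⟨[.ofNat 4458240, .negSucc 15213119, .ofNat 18002400, .negSucc 7578239, .ofNat 1280160], (.tw (.dx 0 (.lf 5)) (.tr (.lf 9) (.tr (.lf 13) (.tr (.lf 6) (.lf 17) (.lf 18)) (.lf 14)) (.lf 10))), 0, [0, 0, 0, 0, 0, 0, 0, 0], [7, 7, 7, 7, 7, 7, 7, 7]⟩)
    (.lf ⟨[.ofNat 37454400, .negSucc 109452719, .ofNat 109079760, .negSucc 37168079, .ofNat 5882640], (.tw (.dx 0 (.lf 5)) (.tr (.lf 13) (.tr (.lf 17) (.lf 6) (.tr (.lf 9) (.lf 18) (.lf 10))) (.lf 14))), 0, [0, 0, 0, 0, 0, 0, 0, 0], [10, 10, 5, 5, 10, 10, 5, 5]⟩))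
    (.nd (.lf ⟨[.ofNat 488160, .negSucc 116519, .negSucc 76319, .ofNat 117720, .negSucc 30479], (.tw (.lf 17) (.tr (.lf 9) (.tr (.dx 0 (.lf 5)) (.tr (.lf 13) (.lf 18) (.lf 14)) (.lf 6)) (.lf 10))), 0, [14, 14, 13, 13, 14, 14, 13, 13], [14, 14, 13, 13, 14, 14, 13, 13]⟩)
    (.lf ⟨[.ofNat 5333760, .negSucc 11568479, .ofNat 11752800, .negSucc 4572959, .ofNat 731520], (.tw (.lf 17) (.tr (.lf 13) (.tr (.dx 0 (.lf 5)) (.tr (.lf 9) (.lf 18) (.lf 10)) (.lf 6)) (.lf 14))), 0, [19, 19, 38, 38, 19, 19, 38, 38], [19, 19, 23, 23, 19, 19, 23, 23]⟩)))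
    (.nd (.nd (.lf ⟨[.negSucc 9691199, .ofNat 22903920, .negSucc 23658239, .ofNat 9381360, .negSucc 1523999], (.tr (.lf 6) (.lf 13) (.tw (.lf 14) (.tr (.lf 9) (.dx 0 (.lf 5)) (.tr (.lf 17) (.lf 10) (.lf 18))))), 0, [15, 15, 24, 24, 24, 24, 37, 37], [15, 15, 24, 24, 24, 24, 37, 37]⟩)
    (.lf ⟨[.ofNat 4919040, .negSucc 12555839, .ofNat 12080640, .negSucc 4514879, .ofNat 731520], (.tr (.dx 0 (.tw (.lf 5) (.lf 6))) (.lf 13) (.tr (.lf 14) (.lf 17) (.tr (.lf 9) (.lf 10) (.lf 18)))), 0, [15, 29, 0, 0, 15, 29, 0, 0], []⟩))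
    (.nd (.lf ⟨[.negSucc 1532159, .ofNat 1915200, .negSucc 888959, .ofNat 121920], (.tw (.dx 0 (.tr (.lf 5) (.lf 6) (.lf 9))) (.tr (.lf 10) (.tr (.lf 17) (.lf 13) (.lf 18)) (.lf 14))), 0, [5, 5, 0, 0, 5, 5, 29, 29], []⟩)
    (.lf ⟨[.negSucc 976319, .ofNat 233040, .ofNat 152640, .negSucc 235439, .ofNat 60960], (.tw (.dx 0 (.tr (.lf 5) (.lf 13) (.lf 9))) (.tr (.lf 6) (.tr (.lf 17) (.lf 14) (.lf 18)) (.lf 10))), 0, [29, 29, 0, 0, 29, 29, 17, 17], [29, 29, 20, 20]⟩))))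

/-- data -/
def dV11x2 : RT := (.nd (.nd (.nd (.lf ⟨[.ofNat 0, .negSucc 339839, .ofNat 119520, .negSucc 231359, .ofNat 60960], (.tw (.dx 0 (.tr (.lf 5) (.lf 9) (.lf 13))) (.tr (.lf 6) (.tr (.lf 17) (.lf 14) (.lf 18)) (.lf 10))), 0, [0, 0, 0, 0, 29, 29, 17, 17], [29, 29, 20, 20]⟩)
    (.lf ⟨[.negSucc 18278639, .ofNat 55964580, .negSucc 54979199, .ofNat 19201860, .negSucc 3032759], (.tw (.lf 6) (.tr (.dx 0 (.tr (.lf 5) (.lf 9) (.lf 13))) (.lf 10) (.tr (.lf 17) (.lf 14) (.lf 18)))), 0, [39, 39, 39, 39, 16, 1, 16, 1], [39, 39, 21, 21]⟩))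
    (.nd (.lf ⟨[.ofNat 26434800, .negSucc 93605539, .ofNat 97209440, .negSucc 35011459, .ofNat 5654040], (.tw (.dx 0 (.tr (.lf 9) (.lf 5) (.lf 13))) (.tr (.lf 10) (.lf 14) (.tr (.lf 17) (.lf 6) (.lf 18)))), 0, [27, 27, 7, 7, 27, 27, 10, 10], [27, 27, 7, 7]⟩)
    (.lf ⟨[.ofNat 0, .negSucc 253439, .ofNat 332640, .negSucc 139199, .ofNat 60960], (.tr (.dx 0 (.tw (.lf 5) (.tr (.lf 13) (.lf 6) (.tr (.lf 9) (.lf 17) (.lf 10))))) (.lf 14) (.lf 18)), 0, [0, 0, 0, 0, 10, 10, 20, 20], []⟩)))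
    (.nd (.nd (.lf ⟨[.ofNat 976320, .ofNat 6471600, .negSucc 6485279, .ofNat 3227760, .negSucc 487679], (.tr (.lf 14) (.dx 0 (.tw (.lf 9) (.tr (.lf 5) (.tr (.lf 10) (.lf 17) (.lf 13)) (.lf 6)))) (.lf 18)), 0, [3, 3, 3, 3, 3, 3, 3, 3], []⟩)
    (.lf ⟨[.negSucc 976319, .negSucc 5382959, .ofNat 5057280, .negSucc 1562159, .ofNat 182880], (.tr (.lf 14) (.dx 0 (.tw (.lf 5) (.tr (.lf 9) (.tr (.lf 6) (.lf 13) (.lf 17)) (.lf 10)))) (.lf 18)), 0, [3, 3, 3, 3, 3, 22, 3, 22], []⟩))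
    (.nd (.lf ⟨[.ofNat 0, .negSucc 368639, .ofNat 263040, .negSucc 1370879, .ofNat 243840], (.tr (.lf 14) (.lf 17) (.tr (.lf 6) (.tw (.dx 0 (.tr (.lf 5) (.lf 13) (.lf 9))) (.lf 18)) (.lf 10))), 0, [4, 4, 13, 4, 17, 17, 4, 33], [4, 4, 17, 33]⟩)
    (.lf ⟨[.ofNat 910080, .negSucc 6861119, .ofNat 5798400, .negSucc 1680959, .ofNat 243840], (.tr (.lf 14) (.dx 0 (.tw (.lf 9) (.tr (.lf 13) (.lf 10) (.tr (.lf 5) (.lf 17) (.lf 6))))) (.lf 18)), 0, [3, 3, 22, 22, 22, 22, 3, 3], []⟩))))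

/-- data -/
def dV11x3 : RT := (.nd (.nd (.nd (.lf ⟨[.ofNat 0, .ofNat 0, .ofNat 2350080, .negSucc 2826239, .negSucc 1927679], (.tr (.lf 6) (.lf 9) (.tr (.dx 0 (.lf 5)) (.tw (.lf 10) (.lf 15)) (.lf 19))), 0, [39, 15, 1, 1], [39, 15, 8, 8]⟩)
    (.lf ⟨[.ofNat 976320, .ofNat 291120, .negSucc 650879, .ofNat 974640, .negSucc 182879], (.tr (.lf 13) (.lf 10) (.tr (.dx 0 (.tw (.lf 5) (.lf 9))) (.lf 14) (.tr (.lf 17) (.lf 6) (.lf 18)))), 0, [27, 27, 27, 27, 21, 1, 21, 1], [27, 27, 11, 11]⟩))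
    (.nd (.lf ⟨[.ofNat 0, .ofNat 5276160, .negSucc 4537919, .ofNat 1272960, .negSucc 121919], (.tr (.dx 0 (.tw (.lf 5) (.lf 9))) (.tr (.lf 10) (.tr (.lf 17) (.lf 6) (.lf 18)) (.lf 13)) (.lf 14)), 0, [5, 5, 0, 0, 5, 5, 20, 20], [5, 5, 10, 10]⟩)
    (.lf ⟨[.negSucc 976319, .negSucc 291119, .ofNat 650880, .negSucc 974639, .ofNat 182880], (.tr (.lf 17) (.dx 0 (.tw (.lf 5) (.lf 9))) (.tr (.lf 10) (.lf 18) (.tr (.lf 13) (.lf 6) (.lf 14)))), 0, [19, 19, 2, 2, 19, 19, 2, 2], [19, 19, 29, 29]⟩)))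
    (.nd (.nd (.lf ⟨[.ofNat 11070720, .negSucc 30852479, .ofNat 29741760, .negSucc 10206719, .ofNat 1584960], (.tr (.lf 10) (.tr (.dx 0 (.tw (.lf 5) (.lf 9))) (.tr (.lf 13) (.lf 6) (.lf 14)) (.lf 17)) (.lf 18)), 0, [39, 39, 39, 39, 3, 3, 3, 3], [39, 39, 28, 28]⟩)
    (.lf ⟨[.ofNat 11070720, .negSucc 30149759, .ofNat 28437120, .negSucc 9490559, .ofNat 1463040], (.tr (.lf 13) (.lf 14) (.tr (.dx 0 (.tw (.lf 5) (.lf 9))) (.lf 10) (.tr (.lf 17) (.lf 6) (.lf 18)))), 0, [22, 22, 22, 22, 4, 4, 4, 4], [22, 22, 4, 4]⟩))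
    (.nd (.lf ⟨[.negSucc 11070719, .ofNat 30149760, .negSucc 28437119, .ofNat 9490560, .negSucc 1463039], (.tr (.lf 17) (.lf 18) (.tr (.lf 10) (.dx 0 (.tw (.lf 5) (.lf 9))) (.tr (.lf 13) (.lf 6) (.lf 14)))), 0, [14, 14, 14, 14, 38, 38, 38, 38], [14, 14, 38, 38]⟩)
    (.lf ⟨[.ofNat 0, .ofNat 5097600, .negSucc 5702399, .ofNat 2367360, .negSucc 365759], (.tw (.dx 0 (.tr (.lf 5) (.lf 9) (.lf 13))) (.tr (.lf 10) (.lf 14) (.tr (.lf 17) (.lf 6) (.lf 18)))), 0, [27, 27, 0, 0, 27, 27, 7, 7], [27, 27, 7, 7]⟩))))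

/-- data -/
def dV11x4 : RT := (.nd (.nd (.nd (.lf ⟨[.ofNat 0, .negSucc 5097599, .ofNat 5702400, .negSucc 2367359, .ofNat 365760], (.tw (.lf 10) (.tr (.dx 0 (.tr (.lf 5) (.lf 9) (.lf 13))) (.tr (.lf 17) (.lf 6) (.lf 18)) (.lf 14))), 0, [12, 12, 12, 12, 6, 1, 6, 1], [5, 5, 6, 6]⟩)
    (.lf ⟨[.negSucc 4031999, .ofNat 11037120, .negSucc 9623519, .ofNat 3456000, .negSucc 609599], (.tr (.dx 0 (.tr (.lf 9) (.tr (.lf 5) (.tw (.lf 10) (.lf 17)) (.lf 6)) (.lf 13))) (.lf 18) (.lf 14)), 0, [5, 5, 5, 5, 5, 10, 5, 10], []⟩))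
    (.nd (.lf ⟨[.ofNat 4032000, .negSucc 12603839, .ofNat 11339040, .negSucc 4262399, .ofNat 731520], (.tr (.dx 0 (.tr (.lf 13) (.lf 5) (.tr (.lf 9) (.tw (.lf 6) (.lf 17)) (.lf 10)))) (.lf 18) (.lf 14)), 0, [5, 5, 5, 5, 5, 5, 5, 5], []⟩)
    (.lf ⟨[.ofNat 4032000, .negSucc 5939519, .ofNat 3921120, .negSucc 1088639, .ofNat 243840], (.tr (.dx 0 (.tw (.lf 13) (.tr (.lf 5) (.lf 17) (.tr (.lf 9) (.lf 6) (.lf 10))))) (.lf 18) (.lf 14)), 0, [10, 10, 5, 5, 5, 5, 5, 5], []⟩)))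
    (.nd (.nd (.lf ⟨[.negSucc 4031999, .ofNat 6619200, .negSucc 4917599, .ofNat 1977600, .negSucc 365759], (.tr (.dx 0 (.tw (.lf 5) (.tr (.lf 13) (.tr (.lf 9) (.lf 6) (.lf 10)) (.lf 17)))) (.lf 18) (.lf 14)), 0, [5, 5, 5, 5, 5, 5, 5, 5], []⟩)
    (.lf ⟨[.negSucc 207123839, .ofNat 628803680, .negSucc 642282079, .ofNat 228812960, .negSucc 36941759], (.tr (.dx 0 (.tr (.lf 17) (.lf 9) (.tr (.lf 5) (.tw (.lf 10) (.lf 13)) (.lf 6)))) (.lf 18) (.lf 14)), 0, [5, 5, 5, 5, 5, 5, 5, 5], []⟩))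
    (.nd (.lf ⟨[.ofNat 4032000, .negSucc 8854079, .ofNat 7460640, .negSucc 2958719, .ofNat 487680], (.tr (.dx 0 (.tw (.lf 17) (.tr (.lf 5) (.lf 13) (.tr (.lf 9) (.lf 6) (.lf 10))))) (.lf 18) (.lf 14)), 0, [5, 5, 5, 5, 5, 5, 5, 5], []⟩)
    (.lf ⟨[.negSucc 24615359, .ofNat 46784400, .negSucc 41761919, .ofNat 14073360, .negSucc 2255519], (.tw (.dx 0 (.tr (.lf 9) (.lf 17) (.tr (.lf 5) (.lf 10) (.tr (.lf 13) (.lf 6) (.lf 14))))) (.lf 18)), 0, [20, 20, 3, 3, 0, 0, 10, 10], []⟩))))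

/-- data -/
def dV11x5 : RT := (.nd (.nd (.nd (.lf ⟨[.ofNat 0, .negSucc 34559, .negSucc 109439, .ofNat 40320], (.tr (.lf 10) (.dx 0 (.tr (.lf 5) (.tr (.lf 17) (.tw (.lf 6) (.lf 13)) (.lf 18)) (.lf 9))) (.lf 14)), 0, [23, 23, 23, 23, 12, 12, 12, 12], []⟩)
    (.lf ⟨[.ofNat 0, .ofNat 1693440, .negSucc 1851839, .ofNat 837120, .negSucc 121919], (.tr (.lf 10) (.dx 0 (.tw (.lf 9) (.tr (.lf 17) (.lf 13) (.tr (.lf 5) (.lf 18) (.lf 6))))) (.lf 14)), 0, [12, 12, 12, 12, 23, 23, 23, 23], []⟩))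
    (.nd (.lf ⟨[.ofNat 0, .negSucc 34559, .negSucc 109439, .ofNat 40320], (.tr (.lf 10) (.dx 0 (.tw (.lf 5) (.tr (.lf 9) (.tr (.lf 17) (.lf 6) (.lf 18)) (.lf 13)))) (.lf 14)), 0, [23, 23, 23, 23, 12, 12, 12, 12], []⟩)
    (.lf ⟨[.ofNat 29440800, .negSucc 74320439, .ofNat 75432960, .negSucc 30697079, .ofNat 4968240], (.tw (.dx 0 (.tr (.lf 9) (.lf 17) (.tr (.lf 13) (.lf 10) (.tr (.lf 5) (.lf 14) (.lf 6))))) (.lf 18)), 0, [20, 20, 20, 20, 3, 3, 3, 3], []⟩)))
    (.nd (.nd (.lf ⟨[.negSucc 12090239, .ofNat 29204640, .negSucc 29158079, .ofNat 11882400, .negSucc 1950719], (.tw (.dx 0 (.tr (.lf 9) (.tr (.lf 10) (.tr (.lf 5) (.lf 13) (.lf 6)) (.lf 17)) (.lf 14))) (.lf 18)), 0, [20, 20, 20, 20, 3, 3, 10, 10], []⟩)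
    (.lf ⟨[.ofNat 4815360, .negSucc 14927999, .ofNat 15041280, .negSucc 6138239, .ofNat 975360], (.tw (.dx 0 (.tr (.lf 9) (.lf 10) (.tr (.lf 13) (.lf 17) (.tr (.lf 5) (.lf 14) (.lf 6))))) (.lf 18)), 0, [20, 20, 20, 20, 10, 10, 0, 0], []⟩))
    (.nd (.lf ⟨[.ofNat 207123840, .negSucc 625197919, .ofNat 638054240, .negSucc 227040799, .ofNat 36697920], (.tr (.dx 0 (.tw (.lf 5) (.tr (.lf 9) (.lf 6) (.tr (.lf 17) (.lf 13) (.lf 18))))) (.lf 10) (.lf 14)), 0, [0, 0, 37, 37, 37, 37, 30, 30], []⟩)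
    (.lf ⟨[.ofNat 2213280, .negSucc 17375639, .ofNat 18643440, .negSucc 8120759, .ofNat 1341120], (.tr (.lf 14) (.dx 0 (.tw (.lf 9) (.tr (.lf 17) (.lf 10) (.tr (.lf 5) (.lf 13) (.lf 6))))) (.lf 18)), 0, [22, 22, 3, 3, 22, 22, 3, 3], []⟩))))

/-- data -/
def dV11x6 : RT := (.nd (.nd (.nd (.lf ⟨[.ofNat 0, .negSucc 1370879, .ofNat 1684800, .negSucc 791039, .ofNat 121920], (.tr (.lf 17) (.dx 0 (.tw (.lf 5) (.lf 9))) (.tr (.lf 6) (.tr (.lf 13) (.lf 18) (.lf 14)) (.lf 10))), 0, [7, 7, 2, 2, 7, 7, 2, 2], [7, 7, 2, 2]⟩)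
    (.lf ⟨[.ofNat 7845120, .negSucc 19097279, .ofNat 21941280, .negSucc 8874239, .ofNat 1524000], (.tr (.dx 0 (.tw (.lf 9) (.tr (.lf 13) (.lf 10) (.tr (.lf 5) (.lf 17) (.lf 6))))) (.lf 18) (.lf 14)), 0, [5, 5, 5, 5, 5, 5, 5, 5], []⟩))
    (.nd (.lf ⟨[.ofNat 0, .negSucc 1566719, .ofNat 1715520, .negSucc 806399, .ofNat 121920], (.tw (.dx 0 (.tr (.lf 13) (.lf 5) (.tr (.lf 9) (.tr (.lf 6) (.lf 14) (.lf 17)) (.lf 10)))) (.lf 18)), 0, [10, 10, 10, 10, 20, 20, 20, 20], []⟩)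
    (.lf ⟨[.ofNat 0, .ofNat 2304000, .negSucc 2134079, .ofNat 842880, .negSucc 121919], (.tw (.lf 6) (.tr (.lf 9) (.tr (.dx 0 (.lf 5)) (.tr (.lf 17) (.lf 10) (.lf 18)) (.lf 13)) (.lf 14))), 0, [5, 5, 8, 8, 7, 7, 24, 24], [5, 5, 8, 8, 7, 7, 24, 24]⟩)))
    (.nd (.nd (.lf ⟨[.negSucc 7845119, .ofNat 17749440, .negSucc 20712959, .ofNat 8452800, .negSucc 1463039], (.tr (.lf 6) (.lf 9) (.tw (.lf 13) (.tr (.dx 0 (.lf 5)) (.tr (.lf 17) (.lf 10) (.lf 18)) (.lf 14)))), 0, [8, 8, 1, 1, 5, 5, 8, 8], [8, 8, 8, 8, 5, 5, 8, 8]⟩)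
    (.lf ⟨[.ofNat 0, .ofNat 0, .ofNat 4608000, .negSucc 4268159, .ofNat 1685760, .negSucc 243839], (.tw (.lf 15) (.tr (.lf 5) (.tr (.lf 6) (.dx 0 (.lf 9)) (.lf 19)) (.lf 10))), 0, [18, 35, 36, 33], [18, 35, 36, 33]⟩))
    (.nd (.lf ⟨[.ofNat 0, .ofNat 0, .negSucc 8501759, .ofNat 9031680, .negSucc 4154879, .ofNat 487680], (.tw (.lf 10) (.tr (.lf 15) (.lf 5) (.tr (.lf 6) (.dx 0 (.lf 9)) (.lf 19)))), 0, [3, 33, 34, 19], [3, 33, 34, 19]⟩)
    (.lf ⟨[.ofNat 910080, .negSucc 3289919, .ofNat 2713920, .negSucc 1022399, .ofNat 121920], (.tw (.lf 17) (.tr (.dx 0 (.lf 5)) (.lf 13) (.tr (.lf 6) (.tr (.lf 9) (.lf 18) (.lf 10)) (.lf 14)))), 0, [2, 2, 2, 2, 1, 1, 1, 1], [37, 37, 9, 9, 11, 11, 38, 38]⟩))))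

/-- data -/
def dV11x7 : RT := (.nd (.nd (.nd (.lf ⟨[.ofNat 0, .negSucc 5518079, .ofNat 5466240, .negSucc 1893119, .ofNat 243840], (.tr (.lf 17) (.lf 13) (.tw (.dx 0 (.lf 5)) (.tr (.lf 14) (.lf 6) (.tr (.lf 9) (.lf 18) (.lf 10))))), 0, [29, 29, 19, 19, 1, 1, 1, 1], [29, 29, 19, 19, 38, 38, 38, 38]⟩)
    (.lf ⟨[.negSucc 910079, .ofNat 3289920, .negSucc 2713919, .ofNat 1022400, .negSucc 121919], (.tw (.lf 6) (.tr (.lf 17) (.dx 0 (.lf 5)) (.tr (.lf 13) (.lf 14) (.tr (.lf 9) (.lf 18) (.lf 10))))), 0, [29, 29, 37, 37, 24, 24, 3, 3], [29, 29, 37, 37, 24, 24, 8, 8]⟩))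
    (.nd (.lf ⟨[.negSucc 910079, .ofNat 4557120, .negSucc 3664319, .ofNat 838080, .negSucc 121919], (.tw (.lf 9) (.tr (.lf 6) (.tr (.lf 13) (.dx 0 (.lf 5)) (.tr (.lf 17) (.lf 10) (.lf 18))) (.lf 14))), 0, [5, 5, 23, 23, 6, 6, 6, 6], [5, 5, 23, 23, 6, 6, 6, 6]⟩)
    (.lf ⟨[.ofNat 0, .ofNat 0, .negSucc 13409279, .ofNat 13125120, .negSucc 3978239, .ofNat 487680], (.tw (.lf 2) (.tr (.lf 15) (.lf 9) (.tr (.dx 1 (.lf 1)) (.lf 19) (.lf 10)))), 1, [29, 33, 0, 20], [29, 17, 37, 20]⟩)))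
    (.nd (.nd (.lf ⟨[.ofNat 0, .ofNat 0, .negSucc 1175039, .ofNat 1413120, .ofNat 963840], (.tw (.lf 9) (.tr (.lf 2) (.tr (.dx 1 (.lf 1)) (.lf 10) (.lf 15)) (.lf 19))), 1, [39, 12, 28, 1], [39, 12, 28, 1]⟩)
    (.lf ⟨[.ofNat 0, .ofNat 0, .ofNat 2350080, .negSucc 2826239, .negSucc 1927679], (.tw (.lf 19) (.tr (.lf 9) (.lf 2) (.tr (.dx 1 (.lf 1)) (.lf 10) (.lf 15)))), 1, [37, 33, 13, 38], [37, 14, 13, 38]⟩))
    (.nd (.lf ⟨[.ofNat 0, .ofNat 587520, .negSucc 706559, .negSucc 481919], (.tw (.lf 17) (.tr (.lf 6) (.tr (.dx 0 (.lf 5)) (.lf 18) (.tr (.lf 13) (.lf 9) (.lf 14))) (.lf 10))), 0, [7, 7, 26, 26, 14, 14, 33, 33], [7, 7, 26, 26, 14, 14, 33, 33]⟩)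
    (.lf ⟨[.ofNat 0, .negSucc 1175039, .ofNat 1413120, .ofNat 963840], (.tw (.lf 17) (.tr (.lf 9) (.dx 0 (.lf 5)) (.tr (.lf 6) (.lf 10) (.tr (.lf 13) (.lf 18) (.lf 14))))), 0, [5, 5, 9, 9, 13, 13, 38, 38], [5, 5, 14, 14, 13, 13, 38, 38]⟩))))

/-- data -/
def dV11x8 : RT := (.nd (.nd (.nd (.lf ⟨[.ofNat 0, .negSucc 1451519, .ofNat 1790400, .negSucc 1261439, .ofNat 121920], (.tw (.lf 9) (.tr (.dx 0 (.lf 5)) (.lf 17) (.tr (.lf 18) (.lf 6) (.tr (.lf 13) (.lf 10) (.lf 14))))), 0, [37, 37, 27, 27, 1, 1, 6, 6], [37, 37, 27, 27, 28, 28, 6, 6]⟩)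
    (.lf ⟨[.negSucc 9861119, .ofNat 30524160, .negSucc 32858879, .ofNat 13449600, .negSucc 2194559], (.tr (.lf 9) (.lf 6) (.tw (.lf 13) (.tr (.lf 14) (.dx 0 (.lf 5)) (.tr (.lf 17) (.lf 10) (.lf 18))))), 0, [15, 15, 23, 23, 5, 5, 23, 23], [15, 15, 23, 23, 5, 5, 23, 23]⟩))
    (.nd (.lf ⟨[.negSucc 24860159, .ofNat 73115520, .negSucc 73897439, .ofNat 24957120, .negSucc 4084319], (.tw (.dx 0 (.tr (.lf 13) (.lf 9) (.tr (.lf 10) (.tr (.lf 5) (.lf 14) (.lf 6)) (.lf 17)))) (.lf 18)), 0, [3, 3, 3, 3, 20, 20, 30, 30], []⟩)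
    (.lf ⟨[.ofNat 71641440, .negSucc 212133799, .ofNat 217367360, .negSucc 79574119, .ofNat 12954000], (.tw (.dx 0 (.tr (.lf 9) (.lf 5) (.tr (.lf 13) (.tr (.lf 6) (.lf 17) (.lf 10)) (.lf 14)))) (.lf 18)), 0, [20, 20, 20, 20, 10, 3, 10, 3], []⟩)))
    (.nd (.nd (.lf ⟨[.negSucc 71641439, .ofNat 212496680, .negSucc 217454959, .ofNat 79557320, .negSucc 12923519], (.tw (.dx 0 (.tr (.lf 9) (.tr (.lf 5) (.tr (.lf 13) (.lf 10) (.lf 17)) (.lf 6)) (.lf 14))) (.lf 18)), 0, [20, 20, 20, 20, 10, 10, 10, 10], []⟩)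
    (.lf ⟨[.negSucc 38479679, .ofNat 113327280, .negSucc 116670719, .ofNat 44796720, .negSucc 7376159], (.tw (.dx 0 (.tr (.lf 9) (.tr (.lf 10) (.lf 17) (.tr (.lf 5) (.lf 13) (.lf 6))) (.lf 14))) (.lf 18)), 0, [20, 20, 20, 20, 3, 3, 10, 10], []⟩))
    (.nd (.lf ⟨[.ofNat 34721280, .negSucc 103639679, .ofNat 106756320, .negSucc 38406719, .ofNat 6278880], (.tw (.dx 0 (.tr (.lf 13) (.tr (.lf 9) (.lf 10) (.tr (.lf 5) (.lf 14) (.lf 6))) (.lf 17))) (.lf 18)), 0, [3, 3, 3, 3, 30, 30, 30, 30], []⟩)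
    (.lf ⟨[.ofNat 11070720, .negSucc 30679679, .ofNat 28722240, .negSucc 8705279, .ofNat 1341120], (.tr (.lf 6) (.tr (.dx 0 (.tw (.lf 5) (.lf 9))) (.tr (.lf 13) (.lf 10) (.lf 14)) (.lf 17)) (.lf 18)), 0, [39, 39, 39, 39, 3, 3, 3, 3], [39, 39, 16, 16]⟩))))

/-- data -/
def dV11x9 : RT := (.nd (.nd (.nd (.lf ⟨[.ofNat 6173280, .ofNat 1044440, .negSucc 4423999, .negSucc 432999, .ofNat 274320], (.tr (.lf 17) (.dx 0 (.tw (.lf 5) (.lf 9))) (.tr (.lf 6) (.lf 18) (.tr (.lf 13) (.lf 10) (.lf 14)))), 0, [37, 37, 2, 2, 37, 37, 2, 2], [37, 37, 17, 17]⟩)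
    (.lf ⟨[.ofNat 7371360, .negSucc 17068519, .ofNat 17247680, .negSucc 5096359, .ofNat 640080], (.tr (.lf 6) (.lf 17) (.tr (.lf 18) (.dx 0 (.tw (.lf 5) (.lf 9))) (.tr (.lf 13) (.lf 10) (.lf 14)))), 0, [37, 37, 37, 37, 3, 3, 3, 3], [37, 37, 16, 16]⟩))
    (.nd (.lf ⟨[.negSucc 1367999, .ofNat 12642000, .negSucc 13683839, .ofNat 4245840, .negSucc 670559], (.tr (.dx 0 (.tw (.lf 5) (.lf 17))) (.tr (.lf 6) (.tr (.lf 13) (.lf 18) (.lf 14)) (.lf 9)) (.lf 10)), 0, [7, 7, 0, 0, 7, 7, 30, 30], [7, 7, 20, 20]⟩)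
    (.lf ⟨[.negSucc 6173279, .negSucc 1044439, .ofNat 4424000, .ofNat 433000, .negSucc 274319], (.tr (.lf 9) (.lf 6) (.tr (.dx 0 (.tw (.lf 5) (.lf 17))) (.lf 10) (.tr (.lf 13) (.lf 18) (.lf 14)))), 0, [5, 5, 5, 5, 31, 1, 31, 1], [5, 5, 21, 21]⟩)))
    (.nd (.nd (.lf ⟨[.ofNat 7541280, .negSucc 11597559, .ofNat 9259840, .negSucc 4678839, .ofNat 944880], (.tr (.dx 0 (.tw (.lf 5) (.lf 17))) (.lf 9) (.tr (.lf 10) (.lf 6) (.tr (.lf 13) (.lf 18) (.lf 14)))), 0, [5, 5, 0, 0, 5, 5, 30, 30], [5, 5, 20, 20]⟩)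
    (.lf ⟨[.ofNat 24120000, .negSucc 64898639, .ofNat 63144000, .negSucc 21116879, .ofNat 3291840], (.tr (.lf 13) (.dx 0 (.lf 5)) (.tw (.lf 17) (.tr (.lf 9) (.tr (.lf 6) (.lf 14) (.lf 18)) (.lf 10)))), 0, [29, 22, 29, 22, 15, 22, 15, 22], [29, 22, 29, 22, 15, 22, 15, 22]⟩))
    (.nd (.lf ⟨[.ofNat 47026080, .negSucc 165712279, .ofNat 175693040, .negSucc 65483959, .ofNat 10668000], (.tw (.dx 0 (.tr (.lf 5) (.lf 13) (.lf 9))) (.tr (.lf 6) (.tr (.lf 17) (.lf 10) (.lf 18)) (.lf 14))), 0, [0, 0, 17, 17, 5, 5, 17, 17], [5, 5, 17, 17]⟩)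
    (.lf ⟨[.negSucc 71146079, .ofNat 231325160, .negSucc 239638639, .ofNat 87370760, .negSucc 14081759], (.tw (.lf 10) (.tr (.dx 0 (.tr (.lf 5) (.lf 13) (.lf 9))) (.tr (.lf 17) (.lf 14) (.lf 18)) (.lf 6))), 0, [12, 12, 12, 12, 34, 1, 34, 1], [17, 17, 31, 31]⟩))))

/-- data -/
def dV11x10 : RT := (.nd (.nd (.nd (.lf ⟨[.ofNat 24120000, .negSucc 65532239, .ofNat 63729600, .negSucc 22048079, .ofNat 3413760], (.tw (.dx 0 (.tr (.lf 5) (.lf 13) (.lf 9))) (.tr (.lf 10) (.lf 6) (.tr (.lf 17) (.lf 14) (.lf 18)))), 0, [39, 39, 0, 0, 39, 39, 35, 35], [39, 39, 30, 30]⟩)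
    (.lf ⟨[.negSucc 207123839, .ofNat 623207840, .negSucc 635824399, .ofNat 226925120, .negSucc 36667439], (.tw (.dx 0 (.tr (.lf 9) (.lf 5) (.lf 13))) (.tr (.lf 6) (.tr (.lf 17) (.lf 10) (.lf 18)) (.lf 14))), 0, [20, 20, 17, 17, 10, 10, 17, 17], [5, 5, 17, 17]⟩))
    (.nd (.lf ⟨[.ofNat 207123840, .negSucc 627306079, .ofNat 640845440, .negSucc 228147679, .ofNat 36880800], (.tw (.lf 10) (.tr (.dx 0 (.tr (.lf 5) (.lf 9) (.lf 13))) (.tr (.lf 17) (.lf 14) (.lf 18)) (.lf 6))), 0, [12, 12, 12, 12, 34, 1, 34, 1], [17, 17, 31, 31]⟩)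
    (.lf ⟨[.ofNat 3745440, .negSucc 20846039, .ofNat 21643440, .negSucc 9010679, .ofNat 1463040], (.tw (.lf 6) (.tr (.lf 10) (.dx 0 (.tr (.lf 5) (.lf 9) (.lf 13))) (.tr (.lf 17) (.lf 14) (.lf 18)))), 0, [39, 39, 39, 39, 13, 13, 13, 13], [39, 39, 16, 16]⟩)))
    (.nd (.nd (.lf ⟨[.ofNat 0, .negSucc 1520639, .ofNat 1514640, .negSucc 656159, .ofNat 91440], (.tw (.lf 10) (.tr (.lf 14) (.dx 0 (.tr (.lf 9) (.lf 5) (.lf 13))) (.tr (.lf 17) (.lf 6) (.lf 18)))), 0, [27, 27, 27, 27, 23, 28, 23, 28], [27, 27, 28, 28]⟩)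
    (.lf ⟨[.ofNat 0, .ofNat 4409280, .negSucc 4493279, .ofNat 921600, .negSucc 121919], (.tw (.lf 14) (.tr (.dx 0 (.tr (.lf 9) (.lf 5) (.lf 13))) (.tr (.lf 17) (.lf 6) (.lf 18)) (.lf 10))), 0, [29, 29, 22, 22, 11, 21, 11, 21], [29, 29, 31, 31]⟩))
    (.nd (.lf ⟨[.negSucc 49534559, .ofNat 168761960, .negSucc 176630239, .ofNat 65202920, .negSucc 10576559], (.tr (.lf 14) (.dx 0 (.tw (.lf 5) (.tr (.lf 9) (.tr (.lf 6) (.lf 17) (.lf 13)) (.lf 10)))) (.lf 18)), 0, [3, 3, 3, 3, 3, 22, 3, 22], []⟩)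
    (.lf ⟨[.ofNat 24612480, .negSucc 86004319, .ofNat 91521920, .negSucc 32465119, .ofNat 5120640], (.tr (.lf 14) (.dx 0 (.tw (.lf 9) (.tr (.lf 5) (.tr (.lf 10) (.lf 13) (.lf 17)) (.lf 6)))) (.lf 18)), 0, [3, 3, 3, 3, 3, 3, 3, 3], []⟩))))

/-- data -/
def dV11x11 : RT := (.nd (.nd (.nd (.lf ⟨[.ofNat 4619520, .ofNat 10526400, .negSucc 18575039, .ofNat 6960960, .negSucc 1219199], (.tr (.lf 13) (.dx 0 (.lf 5)) (.tw (.lf 9) (.tr (.lf 17) (.tr (.lf 6) (.lf 10) (.lf 14)) (.lf 18)))), 0, [39, 22, 39, 22, 29, 29, 29, 29], [39, 22, 39, 22, 29, 29, 29, 29]⟩)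
    (.lf ⟨[.ofNat 39700800, .negSucc 139819439, .ofNat 148105680, .negSucc 54401999, .ofNat 8930640], (.tr (.lf 9) (.tw (.dx 0 (.lf 5)) (.tr (.lf 17) (.tr (.lf 6) (.lf 10) (.lf 13)) (.lf 18))) (.lf 14)), 0, [5, 12, 5, 12, 28, 28, 28, 28], [5, 5, 5, 5, 28, 28, 28, 28]⟩))
    (.nd (.lf ⟨[.negSucc 23143679, .ofNat 65304960, .negSucc 63731519, .ofNat 22091520, .negSucc 3474719], (.tr (.lf 13) (.tw (.dx 0 (.lf 5)) (.tr (.lf 9) (.tr (.lf 6) (.lf 14) (.lf 17)) (.lf 10))) (.lf 18)), 0, [15, 22, 15, 22, 36, 3, 36, 3], [15, 22, 15, 22, 36, 3, 36, 3]⟩)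
    (.lf ⟨[.ofNat 2730240, .negSucc 11136959, .ofNat 9092160, .negSucc 2882879, .ofNat 365760], (.tr (.dx 0 (.tw (.lf 5) (.lf 9))) (.lf 6) (.tr (.lf 13) (.lf 14) (.tr (.lf 17) (.lf 10) (.lf 18)))), 0, [15, 15, 5, 5, 15, 15, 5, 5], [15, 15, 5, 5]⟩)))
    (.nd (.nd (.lf ⟨[.ofNat 8951040, .negSucc 27234239, .ofNat 30144960, .negSucc 12427199, .ofNat 2072640], (.tr (.dx 0 (.tw (.lf 5) (.lf 9))) (.tr (.lf 6) (.tr (.lf 17) (.lf 10) (.lf 18)) (.lf 13)) (.lf 14)), 0, [5, 5, 0, 0, 5, 5, 19, 19], [5, 5, 19, 19]⟩)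
    (.lf ⟨[.ofNat 5352480, .negSucc 4607159, .ofNat 5004000, .negSucc 2439479, .ofNat 457200], (.tr (.lf 6) (.dx 0 (.tw (.lf 5) (.lf 17))) (.tr (.lf 13) (.lf 14) (.tr (.lf 9) (.lf 18) (.lf 10)))), 0, [32, 32, 37, 37, 29, 29, 37, 37], [29, 29, 37, 37]⟩))
    (.nd (.lf ⟨[.negSucc 257448959, .ofNat 775639360, .negSucc 791720079, .ofNat 291052000, .negSucc 47396399], (.tr (.lf 6) (.tr (.dx 0 (.tw (.lf 5) (.lf 17))) (.tr (.lf 9) (.lf 18) (.lf 10)) (.lf 13)) (.lf 14)), 0, [37, 37, 37, 37, 23, 24, 23, 24], [37, 37, 23, 23]⟩)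
    (.lf ⟨[.negSucc 75885119, .ofNat 224264880, .negSucc 223150559, .ofNat 75993840, .negSucc 11948159], (.tr (.lf 9) (.dx 0 (.tw (.lf 5) (.lf 17))) (.tr (.lf 18) (.lf 10) (.tr (.lf 13) (.lf 6) (.lf 14)))), 0, [19, 19, 12, 12, 19, 19, 15, 15], [19, 19, 12, 12]⟩))))

/-- data -/
def dV11x12 : RT := (.nd (.nd (.nd (.lf ⟨[.ofNat 75885120, .negSucc 224719919, .ofNat 223453920, .negSucc 76047599, .ofNat 11948160], (.tr (.lf 13) (.lf 6) (.tr (.dx 0 (.tw (.lf 5) (.lf 9))) (.lf 14) (.tr (.lf 17) (.lf 10) (.lf 18)))), 0, [15, 15, 15, 15, 18, 1, 18, 1], [15, 15, 18, 18]⟩)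
    (.lf ⟨[.ofNat 5196960, .negSucc 343959, .negSucc 2780479, .negSucc 1533399, .ofNat 518160], (.tr (.lf 17) (.lf 6) (.tr (.dx 0 (.tw (.lf 5) (.lf 9))) (.lf 18) (.tr (.lf 13) (.lf 10) (.lf 14)))), 0, [37, 37, 37, 37, 26, 1, 26, 1], [37, 37, 31, 31]⟩))
    (.nd (.lf ⟨[.negSucc 6173279, .negSucc 675799, .ofNat 4210880, .ofNat 433000, .negSucc 274319], (.tr (.lf 9) (.dx 0 (.tw (.lf 5) (.lf 17))) (.tr (.lf 6) (.lf 10) (.tr (.lf 13) (.lf 18) (.lf 14)))), 0, [5, 5, 9, 9, 5, 5, 9, 9], [5, 5, 9, 9]⟩)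
    (.lf ⟨[.negSucc 20312639, .ofNat 52308720, .negSucc 49852799, .ofNat 18898800, .negSucc 2987039], (.tr (.lf 6) (.lf 9) (.tr (.lf 10) (.dx 0 (.tw (.lf 5) (.lf 17))) (.tr (.lf 13) (.lf 18) (.lf 14)))), 0, [5, 5, 5, 5, 8, 8, 8, 8], [5, 5, 8, 8]⟩)))
    (.nd (.nd (.lf ⟨[.ofNat 159399360, .negSucc 495511439, .ofNat 508465920, .negSucc 186310799, .ofNat 30175200], (.tr (.lf 6) (.tr (.dx 0 (.tw (.lf 5) (.lf 17))) (.tr (.lf 13) (.lf 18) (.lf 14)) (.lf 9)) (.lf 10)), 0, [7, 7, 7, 7, 8, 8, 8, 8], [7, 7, 8, 8]⟩)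
    (.lf ⟨[.negSucc 79311599, .ofNat 247161060, .negSucc 250289039, .ofNat 90445860, .negSucc 14523719], (.tr (.lf 9) (.lf 10) (.tr (.lf 6) (.dx 0 (.tw (.lf 5) (.lf 17))) (.tr (.lf 13) (.lf 18) (.lf 14)))), 0, [34, 34, 34, 34, 6, 6, 6, 6], [34, 34, 6, 6]⟩))
    (.nd (.lf ⟨[.ofNat 79311600, .negSucc 247161059, .ofNat 250289040, .negSucc 90445859, .ofNat 14523720], (.tr (.lf 10) (.dx 0 (.tr (.lf 5) (.lf 13) (.lf 9))) (.tr (.lf 14) (.lf 6) (.tw (.lf 17) (.lf 18)))), 0, [27, 27, 19, 19, 27, 27, 12, 12], [27, 27, 19, 19]⟩)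
    (.lf ⟨[.negSucc 27780479, .ofNat 68797760, .negSucc 62559199, .ofNat 19622720, .negSucc 2895599], (.tr (.dx 0 (.tr (.lf 5) (.lf 13) (.lf 9))) (.lf 6) (.tr (.lf 10) (.lf 14) (.tw (.lf 17) (.lf 18)))), 0, [39, 39, 7, 7, 39, 39, 7, 7], [39, 39, 7, 7]⟩))))

/-- data -/
def dV11x13 : RT := (.nd (.nd (.nd (.lf ⟨[.ofNat 203187600, .negSucc 645468859, .ofNat 662633360, .negSucc 240707899, .ofNat 38816280], (.tr (.dx 0 (.tr (.lf 5) (.lf 13) (.lf 9))) (.tr (.lf 6) (.tw (.lf 17) (.lf 18)) (.lf 14)) (.lf 10)), 0, [7, 7, 0, 0, 7, 7, 35, 35], [7, 7, 10, 10]⟩)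
    (.lf ⟨[.negSucc 88228079, .ofNat 277587300, .negSucc 286293839, .ofNat 105602340, .negSucc 17084039], (.tr (.lf 10) (.tr (.dx 0 (.tr (.lf 5) (.lf 13) (.lf 9))) (.tw (.lf 17) (.lf 18)) (.lf 6)) (.lf 14)), 0, [19, 19, 12, 12, 23, 34, 23, 34], [19, 19, 34, 34]⟩))
    (.nd (.lf ⟨[.ofNat 7657200, .negSucc 10388579, .ofNat 6587280, .negSucc 954659, .ofNat 137160], (.tr (.lf 14) (.dx 0 (.tr (.lf 5) (.lf 13) (.lf 9))) (.tr (.lf 10) (.lf 6) (.tw (.lf 17) (.lf 18)))), 0, [27, 27, 35, 35, 27, 27, 22, 22], [27, 27, 35, 35]⟩)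
    (.lf ⟨[.negSucc 20946959, .ofNat 40455900, .negSucc 34702319, .ofNat 11474460, .negSucc 1813559], (.tr (.lf 10) (.lf 6) (.tr (.dx 0 (.tr (.lf 5) (.lf 13) (.lf 9))) (.lf 14) (.tw (.lf 17) (.lf 18)))), 0, [39, 39, 39, 39, 34, 1, 34, 1], [39, 39, 11, 11]⟩)))
    (.nd (.nd (.lf ⟨[.ofNat 1378080, .ofNat 3185160, .negSucc 5178719, .ofNat 2250120, .negSucc 396239], (.tr (.lf 10) (.lf 6) (.tr (.lf 14) (.dx 0 (.tr (.lf 5) (.lf 13) (.lf 9))) (.tw (.lf 17) (.lf 18)))), 0, [3, 3, 3, 3, 23, 34, 23, 34], [3, 3, 34, 34]⟩)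
    (.lf ⟨[.negSucc 65015279, .ofNat 208792740, .negSucc 218033999, .ofNat 80675940, .negSucc 13182599], (.tr (.lf 6) (.lf 14) (.tr (.dx 0 (.tr (.lf 5) (.lf 13) (.lf 9))) (.lf 10) (.tw (.lf 17) (.lf 18)))), 0, [15, 15, 15, 15, 21, 1, 21, 1], [15, 15, 21, 21]⟩))
    (.nd (.lf ⟨[.ofNat 75749040, .negSucc 235571699, .ofNat 244988880, .negSucc 90816179, .ofNat 14828520], (.tr (.dx 0 (.tr (.lf 5) (.lf 13) (.lf 9))) (.tr (.lf 10) (.tw (.lf 17) (.lf 18)) (.lf 14)) (.lf 6)), 0, [0, 0, 0, 0, 20, 20, 9, 9], [20, 20, 9, 9]⟩)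
    (.lf ⟨[.negSucc 6644879, .ofNat 15033660, .negSucc 14057519, .ofNat 5259900, .negSucc 838199], (.tr (.lf 6) (.lf 10) (.tr (.dx 0 (.tr (.lf 5) (.lf 13) (.lf 9))) (.lf 14) (.tw (.lf 17) (.lf 18)))), 0, [39, 39, 39, 39, 8, 1, 8, 1], [39, 39, 8, 8]⟩))))

/-- data -/
def dV11x14 : RT := (.nd (.nd (.nd (.lf ⟨[.ofNat 13289760, .negSucc 30067319, .ofNat 28115040, .negSucc 10519799, .ofNat 1676400], (.tr (.lf 17) (.lf 18) (.tr (.tw (.lf 6) (.lf 10)) (.dx 0 (.tr (.lf 5) (.lf 13) (.lf 9))) (.lf 14))), 0, [26, 26, 14, 14, 38, 38, 38, 38], [26, 14, 38, 38]⟩)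
    (.lf ⟨[.negSucc 6644879, .ofNat 15033660, .negSucc 14057519, .ofNat 5259900, .negSucc 838199], (.tr (.lf 14) (.dx 0 (.tr (.lf 5) (.lf 13) (.lf 9))) (.tr (.lf 6) (.lf 10) (.tw (.lf 17) (.lf 18)))), 0, [15, 15, 9, 9, 15, 15, 22, 22], [15, 15, 22, 22]⟩))
    (.nd (.lf ⟨[.negSucc 179974799, .ofNat 573108860, .negSucc 590577199, .ofNat 213866300, .negSucc 34610039], (.tr (.lf 6) (.tr (.dx 0 (.tr (.lf 5) (.lf 13) (.lf 9))) (.tw (.lf 17) (.lf 18)) (.lf 10)) (.lf 14)), 0, [32, 32, 32, 32, 23, 8, 23, 8], [32, 32, 23, 23]⟩)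
    (.lf ⟨[.ofNat 13484160, .negSucc 30429439, .ofNat 30304160, .negSucc 9852799, .ofNat 1554480], (.tr (.lf 14) (.lf 10) (.tr (.lf 6) (.dx 0 (.tr (.lf 5) (.lf 13) (.lf 9))) (.tw (.lf 17) (.lf 18)))), 0, [3, 3, 3, 3, 33, 33, 33, 33], [3, 3, 33, 33]⟩)))
    (.nd (.nd (.lf ⟨[.ofNat 11792160, .negSucc 27324599, .ofNat 25016160, .negSucc 9099959, .ofNat 1432560], (.tr (.lf 6) (.lf 10) (.tr (.lf 14) (.dx 0 (.tr (.lf 5) (.lf 13) (.lf 9))) (.tw (.lf 17) (.lf 18)))), 0, [3, 3, 3, 3, 23, 8, 23, 8], [3, 3, 23, 23]⟩)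
    (.lf ⟨[.ofNat 166490640, .negSucc 542679419, .ofNat 560273040, .negSucc 204013499, .ofNat 33055560], (.tr (.lf 6) (.dx 0 (.tr (.lf 5) (.lf 13) (.lf 9))) (.tr (.lf 14) (.lf 10) (.tw (.lf 17) (.lf 18)))), 0, [15, 15, 32, 32, 15, 15, 32, 32], [15, 15, 32, 32]⟩))
    (.nd (.lf ⟨[.negSucc 166490639, .ofNat 542679420, .negSucc 560273039, .ofNat 204013500, .negSucc 33055559], (.tr (.lf 10) (.lf 14) (.tr (.dx 0 (.tr (.lf 5) (.lf 13) (.lf 9))) (.lf 6) (.tw (.lf 17) (.lf 18)))), 0, [27, 27, 27, 27, 6, 6, 6, 6], [27, 27, 6, 6]⟩)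
    (.lf ⟨[.negSucc 166490639, .ofNat 542679420, .negSucc 560273039, .ofNat 204013500, .negSucc 33055559], (.tr (.lf 13) (.lf 14) (.tr (.lf 10) (.dx 0 (.tw (.lf 5) (.lf 9))) (.tr (.lf 17) (.lf 6) (.lf 18)))), 0, [36, 36, 36, 36, 4, 4, 4, 4], [36, 36, 4, 4]⟩))))

/-- data -/
def dV11x15 : RT := (.nd (.nd (.nd (.lf ⟨[.ofNat 340826400, .negSucc 1105412279, .ofNat 1143393120, .negSucc 417322679, .ofNat 67696080], (.tr (.lf 10) (.tr (.dx 0 (.tw (.lf 5) (.lf 9))) (.tr (.lf 17) (.lf 6) (.lf 18)) (.lf 13)) (.lf 14)), 0, [5, 5, 5, 5, 23, 6, 23, 6], [5, 5, 6, 6]⟩)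
    (.lf ⟨[.negSucc 220717439, .ofNat 694285920, .negSucc 710135999, .ofNat 261805920, .negSucc 42489119], (.tr (.lf 10) (.lf 13) (.tr (.lf 14) (.dx 0 (.tw (.lf 5) (.lf 9))) (.tr (.lf 17) (.lf 6) (.lf 18)))), 0, [27, 27, 27, 27, 23, 6, 23, 6], [27, 27, 6, 6]⟩))
    (.nd (.lf ⟨[.negSucc 4338719, .ofNat 12778680, .negSucc 13187999, .ofNat 5048760, .negSucc 822959], (.tr (.lf 6) (.dx 0 (.tw (.lf 5) (.lf 17))) (.tr (.lf 9) (.lf 10) (.tr (.lf 13) (.lf 18) (.lf 14)))), 0, [32, 32, 7, 7, 5, 5, 7, 7], [5, 5, 7, 7]⟩)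
    (.lf ⟨[.negSucc 1378079, .negSucc 3185159, .ofNat 5178720, .negSucc 2250119, .ofNat 396240], (.tr (.dx 0 (.tr (.lf 17) (.lf 5) (.tr (.lf 6) (.lf 18) (.lf 9)))) (.lf 10) (.tw (.lf 13) (.lf 14))), 0, [37, 37, 37, 37, 37, 37, 37, 37], []⟩)))
    (.nd (.nd (.lf ⟨[.negSucc 3922559, .ofNat 10026720, .negSucc 11423519, .ofNat 4647840, .negSucc 792479], (.tr (.lf 9) (.lf 10) (.tw (.dx 0 (.lf 5)) (.tr (.lf 13) (.lf 6) (.tr (.lf 17) (.lf 14) (.lf 18))))), 0, [12, 12, 12, 12, 6, 6, 28, 28], [12, 12, 12, 12, 6, 6, 28, 28]⟩)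
    (.lf ⟨[.negSucc 7148159, .ofNat 20883360, .negSucc 18226079, .ofNat 5570400, .negSucc 792479], (.tr (.lf 9) (.lf 10) (.tw (.lf 13) (.tr (.dx 0 (.lf 5)) (.tr (.lf 17) (.lf 14) (.lf 18)) (.lf 6)))), 0, [6, 6, 6, 6, 12, 12, 34, 34], [6, 6, 6, 6, 12, 12, 34, 34]⟩))
    (.nd (.lf ⟨[.ofNat 50565600, .negSucc 154229639, .ofNat 155686080, .negSucc 58113479, .ofNat 9540240], (.tr (.dx 0 (.tw (.lf 5) (.lf 9))) (.lf 17) (.tr (.lf 18) (.lf 10) (.tr (.lf 13) (.lf 6) (.lf 14)))), 0, [19, 19, 0, 0, 19, 19, 20, 20], [19, 19, 30, 30]⟩)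
    (.lf ⟨[.negSucc 46533599, .ofNat 148232520, .negSucc 151958399, .ofNat 57133320, .negSucc 9357359], (.tr (.lf 10) (.dx 0 (.tw (.lf 5) (.tr (.lf 17) (.tr (.lf 6) (.lf 9) (.lf 13)) (.lf 18)))) (.lf 14)), 0, [23, 12, 23, 12, 12, 12, 12, 12], []⟩))))

/-- data -/
def dV11x16 : RT := (.nd (.nd (.nd (.lf ⟨[.negSucc 8063999, .ofNat 11994240, .negSucc 7455359, .ofNat 1960320, .negSucc 365759], (.tr (.lf 10) (.dx 0 (.tr (.lf 5) (.tr (.lf 6) (.tw (.lf 13) (.lf 17)) (.lf 9)) (.lf 18))) (.lf 14)), 0, [23, 23, 12, 12, 23, 23, 12, 12], []⟩)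
    (.lf ⟨[.ofNat 0, .ofNat 552960, .negSucc 912479, .ofNat 747840, .negSucc 182879], (.tr (.lf 10) (.dx 0 (.tw (.lf 5) (.tr (.lf 17) (.tr (.lf 9) (.lf 6) (.lf 13)) (.lf 18)))) (.lf 14)), 0, [23, 23, 23, 23, 12, 12, 12, 12], []⟩))
    (.nd (.lf ⟨[.ofNat 0, .negSucc 2396159, .ofNat 3193920, .negSucc 1952639, .ofNat 365760], (.tr (.lf 6) (.lf 17) (.tr (.lf 10) (.tw (.dx 0 (.tr (.lf 5) (.lf 13) (.lf 9))) (.lf 18)) (.lf 14))), 0, [16, 5, 23, 16, 29, 29, 13, 13], [16, 16, 16, 16]⟩)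
    (.lf ⟨[.negSucc 37739519, .ofNat 93207360, .negSucc 87219359, .ofNat 32814720, .negSucc 5242559], (.tr (.lf 10) (.dx 0 (.tr (.lf 5) (.lf 13) (.tr (.lf 17) (.tw (.lf 6) (.lf 9)) (.lf 18)))) (.lf 14)), 0, [12, 12, 12, 12, 23, 12, 23, 12], []⟩)))
    (.nd (.nd (.lf ⟨[.ofNat 0, .ofNat 368640, .negSucc 213119], (.tw (.lf 6) (.tr (.dx 0 (.tr (.lf 5) (.lf 9) (.lf 13))) (.tr (.lf 17) (.lf 14) (.lf 18)) (.lf 10))), 0, [32, 32, 29, 29, 8, 1, 8, 1], [32, 32, 31, 31]⟩)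
    (.lf ⟨[.negSucc 71146079, .ofNat 233683880, .negSucc 241141039, .ofNat 88516040, .negSucc 14142719], (.tw (.lf 6) (.tr (.dx 0 (.tr (.lf 5) (.lf 13) (.lf 9))) (.tr (.lf 17) (.lf 14) (.lf 18)) (.lf 10))), 0, [32, 32, 29, 29, 8, 1, 8, 1], [32, 32, 31, 31]⟩))
    (.nd (.lf ⟨[.ofNat 0, .negSucc 2404799, .ofNat 2565840, .negSucc 1163999, .ofNat 152400], (.tw (.lf 10) (.tr (.lf 6) (.dx 0 (.tr (.lf 5) (.lf 13) (.lf 9))) (.tr (.lf 17) (.lf 14) (.lf 18)))), 0, [39, 39, 39, 39, 28, 33, 28, 33], [39, 39, 33, 33]⟩)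
    (.lf ⟨[.negSucc 31054319, .ofNat 83084900, .negSucc 79129759, .ofNat 28611140, .negSucc 4556759], (.tw (.dx 0 (.tr (.lf 5) (.lf 9) (.lf 13))) (.tr (.lf 14) (.lf 6) (.tr (.lf 17) (.lf 10) (.lf 18)))), 0, [15, 15, 0, 0, 15, 15, 19, 19], [15, 15, 19, 19]⟩))))

/-- data -/
def dV11x17 : RT := (.nd (.nd (.nd (.lf ⟨[.ofNat 18278640, .negSucc 58786979, .ofNat 57940800, .negSucc 19925699, .ofNat 3154680], (.tw (.lf 14) (.tr (.dx 0 (.tr (.lf 5) (.lf 9) (.lf 13))) (.lf 10) (.tr (.lf 17) (.lf 6) (.lf 18)))), 0, [27, 27, 22, 22, 4, 1, 4, 1], [27, 27, 21, 21]⟩)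
    (.lf ⟨[.ofNat 71146080, .negSucc 228589159, .ofNat 235772000, .negSucc 85854439, .ofNat 13746480], (.tw (.dx 0 (.tr (.lf 5) (.lf 13) (.lf 9))) (.tr (.lf 10) (.tr (.lf 17) (.lf 6) (.lf 18)) (.lf 14))), 0, [5, 5, 29, 29, 5, 5, 29, 29], [20, 20, 29, 29]⟩))
    (.nd (.lf ⟨[.negSucc 71146079, .ofNat 230691560, .negSucc 238126639, .ofNat 86942600, .negSucc 13959839], (.tr (.dx 0 (.tw (.lf 17) (.tr (.lf 9) (.lf 18) (.tr (.lf 5) (.lf 13) (.lf 6))))) (.lf 10) (.lf 14)), 0, [30, 30, 37, 37, 20, 20, 0, 0], []⟩)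
    (.lf ⟨[.ofNat 0, .ofNat 0, .ofNat 9239040, .negSucc 9181439, .ofNat 3786240, .negSucc 487679], (.tr (.lf 6) (.tr (.tw (.lf 9) (.lf 19)) (.dx 0 (.lf 5)) (.lf 15)) (.lf 10)), 0, [8, 16, 29, 29], [7, 16, 29, 29]⟩)))
    (.nd (.nd (.lf ⟨[.ofNat 0, .ofNat 0, .ofNat 1359360, .negSucc 1466879, .ofNat 215040], (.tr (.lf 9) (.lf 15) (.tr (.dx 0 (.lf 5)) (.tw (.lf 10) (.lf 19)) (.lf 6))), 0, [17, 9, 1, 1], [17, 6, 31, 21]⟩)
    (.lf ⟨[.ofNat 0, .ofNat 2822400, .negSucc 2961599, .ofNat 723840, .negSucc 121919], (.tw (.lf 17) (.tr (.lf 6) (.tr (.dx 0 (.tr (.lf 5) (.lf 9) (.lf 13))) (.lf 10) (.lf 18)) (.lf 14))), 0, [26, 26, 23, 26, 17, 17, 38, 38], [26, 26, 17, 38]⟩))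
    (.nd (.lf ⟨[.ofNat 0, .ofNat 0, .negSucc 14630399, .ofNat 15192960, .negSucc 5111039, .ofNat 731520], (.tw (.dx 0 (.lf 5)) (.tr (.lf 19) (.lf 9) (.tr (.lf 6) (.lf 15) (.lf 10)))), 0, [0, 0, 0, 0], [30, 30, 15, 15]⟩)
    (.lf ⟨[.ofNat 0, .ofNat 0, .ofNat 17141760, .negSucc 17389439, .ofNat 4965120, .negSucc 731519], (.tr (.lf 2) (.tr (.lf 15) (.tw (.dx 1 (.lf 1)) (.lf 9)) (.lf 19)) (.lf 10)), 1, [29, 29, 7, 30], [29, 29, 7, 30]⟩))))

/-- data -/
def dV11x18 : RT := (.nd (.nd (.nd (.lf ⟨[.ofNat 0, .ofNat 0, .ofNat 8156160, .negSucc 6718079, .ofNat 3383040, .negSucc 243839], (.tr (.lf 15) (.lf 9) (.tr (.dx 1 (.lf 1)) (.tw (.lf 10) (.lf 19)) (.lf 2))), 1, [36, 21, 33, 33], [36, 21, 17, 9]⟩)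
    (.lf ⟨[.ofNat 0, .ofNat 0, .ofNat 8271360, .negSucc 9246719, .ofNat 2741760, .negSucc 487679], (.tw (.dx 1 (.lf 1)) (.tr (.lf 9) (.tr (.lf 2) (.lf 19) (.lf 10)) (.lf 15))), 1, [32, 32, 29, 32], [8, 8, 29, 24]⟩))
    (.nd (.lf ⟨[.ofNat 0, .ofNat 0, .ofNat 6865920, .negSucc 6084479, .ofNat 2553600, .negSucc 243839], (.tw (.dx 1 (.lf 1)) (.tr (.lf 9) (.lf 2) (.tr (.lf 15) (.lf 10) (.lf 19)))), 1, [32, 32, 32, 32], [15, 8, 24, 13]⟩)
    (.lf ⟨[.ofNat 24615360, .negSucc 46784399, .ofNat 41761920, .negSucc 14073359, .ofNat 2255520], (.tr (.lf 6) (.tr (.lf 17) (.dx 0 (.tw (.lf 5) (.lf 9))) (.tr (.lf 13) (.lf 10) (.lf 14))) (.lf 18)), 0, [39, 39, 39, 39, 3, 3, 3, 3], [39, 39, 3, 3]⟩)))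
    (.nd (.nd (.lf ⟨[.negSucc 54692639, .ofNat 123628920, .negSucc 114777599, .ofNat 41380920, .negSucc 6614159], (.tr (.lf 17) (.lf 18) (.tr (.dx 0 (.tw (.lf 5) (.lf 9))) (.tr (.lf 13) (.lf 10) (.lf 14)) (.lf 6))), 0, [2, 2, 2, 2, 26, 26, 26, 26], [2, 2, 26, 26]⟩)
    (.lf ⟨[.ofNat 53314560, .negSucc 126814079, .ofNat 119956320, .negSucc 43631039, .ofNat 7010400], (.tr (.dx 0 (.tw (.lf 5) (.lf 9))) (.tr (.lf 17) (.lf 6) (.tr (.lf 13) (.lf 10) (.lf 14))) (.lf 18)), 0, [0, 0, 27, 27, 39, 39, 27, 27], [39, 39, 27, 27]⟩))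
    (.nd (.lf ⟨[.ofNat 2138400, .negSucc 30507959, .ofNat 37364160, .negSucc 13910519, .ofNat 2286000], (.tr (.dx 0 (.tw (.lf 5) (.lf 9))) (.lf 17) (.tr (.lf 6) (.tr (.lf 13) (.lf 10) (.lf 14)) (.lf 18))), 0, [0, 0, 0, 0, 39, 39, 20, 20], [39, 39, 30, 30]⟩)
    (.lf ⟨[.ofNat 13209120, .negSucc 44412599, .ofNat 47106240, .negSucc 18098039, .ofNat 2956560], (.tr (.dx 0 (.tw (.lf 5) (.lf 17))) (.tr (.lf 9) (.lf 6) (.tr (.lf 13) (.lf 18) (.lf 14))) (.lf 10)), 0, [7, 7, 35, 35, 7, 7, 35, 35], [7, 7, 35, 35]⟩))))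

/-- data -/
def dV11x19 : RT := (.nd (.nd (.nd (.lf ⟨[.negSucc 22249439, .ofNat 57938760, .negSucc 56564159, .ofNat 21233160, .negSucc 3444239], (.tr (.dx 0 (.tw (.lf 5) (.lf 17))) (.lf 9) (.tr (.lf 6) (.tr (.lf 13) (.lf 18) (.lf 14)) (.lf 10))), 0, [7, 7, 0, 0, 7, 7, 30, 30], [7, 7, 20, 20]⟩)
    (.lf ⟨[.ofNat 50571360, .negSucc 128311079, .ofNat 126749760, .negSucc 47220839, .ofNat 7711440], (.tr (.dx 0 (.tw (.lf 5) (.lf 17))) (.tr (.lf 9) (.lf 10) (.tr (.lf 13) (.lf 18) (.lf 14))) (.lf 6)), 0, [0, 0, 9, 9, 30, 30, 9, 9], [20, 20, 9, 9]⟩))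
    (.nd (.lf ⟨[.ofNat 105801120, .negSucc 354731159, .ofNat 368541840, .negSucc 133956599, .ofNat 21701760], (.tr (.lf 6) (.lf 9) (.tr (.dx 0 (.tw (.lf 5) (.lf 17))) (.tr (.lf 13) (.lf 18) (.lf 14)) (.lf 10))), 0, [7, 7, 7, 7, 8, 8, 8, 8], [7, 7, 8, 8]⟩)
    (.lf ⟨[.negSucc 2610719, .ofNat 23800440, .negSucc 28844159, .ofNat 12753720, .negSucc 2103119], (.tr (.lf 10) (.tr (.lf 13) (.dx 0 (.tw (.lf 5) (.lf 9))) (.tr (.lf 17) (.lf 6) (.lf 18))) (.lf 14)), 0, [5, 5, 6, 6, 23, 23, 23, 23], [5, 5, 23, 23]⟩)))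
    (.nd (.nd (.lf ⟨[.ofNat 125520480, .negSucc 432273959, .ofNat 455836320, .negSucc 165576359, .ofNat 26913840], (.tr (.lf 10) (.lf 13) (.tr (.dx 0 (.tw (.lf 5) (.lf 9))) (.tr (.lf 17) (.lf 6) (.lf 18)) (.lf 14))), 0, [5, 5, 6, 6, 6, 6, 6, 6], [5, 5, 6, 6]⟩)
    (.lf ⟨[.ofNat 46533600, .negSucc 143149319, .ofNat 146378400, .negSucc 54637319, .ofNat 8869680], (.tr (.dx 0 (.tw (.lf 5) (.lf 9))) (.lf 17) (.tr (.lf 10) (.tr (.lf 13) (.lf 6) (.lf 14)) (.lf 18))), 0, [0, 0, 0, 0, 20, 20, 20, 20], [39, 39, 30, 30]⟩))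
    (.nd (.lf ⟨[.ofNat 228517920, .negSucc 681684279, .ofNat 691526560, .negSucc 246293559, .ofNat 39837360], (.tr (.lf 6) (.tr (.lf 9) (.dx 0 (.tw (.lf 5) (.lf 17))) (.tr (.lf 13) (.lf 10) (.lf 14))) (.lf 18)), 0, [39, 39, 39, 39, 15, 15, 15, 15], [39, 39, 15, 15]⟩)
    (.lf ⟨[.negSucc 227541599, .ofNat 683714920, .negSucc 694877919, .ofNat 248040040, .negSucc 40142159], (.tr (.lf 6) (.lf 9) (.tr (.dx 0 (.tw (.lf 5) (.lf 17))) (.tr (.lf 13) (.lf 10) (.lf 14)) (.lf 18))), 0, [39, 39, 39, 39, 8, 8, 8, 8], [39, 39, 8, 8]⟩))))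

/-- data -/
def dV11x20 : RT := (.nd (.nd (.nd (.lf ⟨[.negSucc 275051519, .ofNat 824833600, .negSucc 837904959, .ofNat 300930880, .negSucc 48707039], (.tr (.lf 6) (.lf 13) (.tr (.dx 0 (.tw (.lf 5) (.lf 17))) (.tr (.lf 9) (.lf 14) (.lf 10)) (.lf 18))), 0, [24, 24, 24, 24, 31, 1, 31, 1], [24, 24, 21, 21]⟩)
    (.lf ⟨[.ofNat 275051520, .negSucc 824833599, .ofNat 837904960, .negSucc 300930879, .ofNat 48707040], (.tr (.dx 0 (.tw (.lf 5) (.lf 17))) (.tr (.lf 13) (.lf 18) (.tr (.lf 9) (.lf 14) (.lf 10))) (.lf 6)), 0, [9, 9, 0, 0, 9, 9, 30, 30], [9, 9, 20, 20]⟩))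
    (.nd (.lf ⟨[.negSucc 1378079, .negSucc 3185159, .ofNat 5178720, .negSucc 2250119, .ofNat 396240], (.tr (.lf 6) (.dx 0 (.tr (.lf 9) (.lf 5) (.lf 13))) (.tr (.lf 10) (.lf 14) (.tw (.lf 17) (.lf 18)))), 0, [39, 39, 7, 7, 39, 39, 7, 7], [39, 39, 7, 7]⟩)
    (.lf ⟨[.negSucc 1378079, .negSucc 45959, .ofNat 1514400, .negSucc 689159, .ofNat 152400], (.tr (.dx 0 (.tr (.lf 5) (.lf 9) (.lf 13))) (.lf 10) (.tr (.lf 14) (.lf 6) (.tw (.lf 17) (.lf 18)))), 0, [27, 27, 19, 19, 27, 27, 19, 19], [27, 27, 19, 19]⟩)))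
    (.nd (.nd (.lf ⟨[.negSucc 3788639, .ofNat 18028200, .negSucc 21015359, .ofNat 8492520, .negSucc 1432559], (.tr (.lf 14) (.lf 6) (.tr (.dx 0 (.tr (.lf 5) (.lf 9) (.lf 13))) (.lf 10) (.tw (.lf 17) (.lf 18)))), 0, [15, 15, 15, 15, 18, 18, 18, 18], [15, 15, 18, 18]⟩)
    (.lf ⟨[.ofNat 17405280, .negSucc 34532519, .ofNat 31480800, .negSucc 11747879, .ofNat 1859280], (.tr (.dx 0 (.tr (.lf 5) (.lf 9) (.lf 13))) (.tr (.lf 6) (.tw (.lf 17) (.lf 18)) (.lf 10)) (.lf 14)), 0, [0, 0, 19, 19, 10, 10, 19, 19], [0, 0, 19, 19]⟩))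
    (.nd (.lf ⟨[.negSucc 1748159, .negSucc 6911279, .ofNat 9807360, .negSucc 3960239, .ofNat 670560], (.tr (.lf 6) (.tr (.dx 0 (.tr (.lf 9) (.lf 5) (.lf 13))) (.tw (.lf 17) (.lf 18)) (.lf 14)) (.lf 10)), 0, [7, 7, 7, 7, 13, 13, 13, 13], [7, 7, 13, 13]⟩)
    (.lf ⟨[.negSucc 13017599, .ofNat 37608000, .negSucc 37493759, .ofNat 14566080, .negSucc 2316479], (.tr (.lf 14) (.lf 10) (.tr (.dx 0 (.tr (.lf 5) (.lf 9) (.lf 13))) (.lf 6) (.tw (.lf 17) (.lf 18)))), 0, [27, 27, 27, 27, 11, 1, 11, 1], [27, 27, 1, 1]⟩))))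

/-- data -/
def dV11x21 : RT := (.nd (.nd (.nd (.lf ⟨[.negSucc 11792159, .ofNat 27324600, .negSucc 25016159, .ofNat 9099960, .negSucc 1432559], (.tr (.dx 0 (.tr (.lf 9) (.lf 5) (.lf 13))) (.lf 6) (.tr (.lf 14) (.lf 10) (.tw (.lf 17) (.lf 18)))), 0, [15, 15, 20, 20, 15, 15, 10, 10], [15, 15, 0, 0]⟩)
    (.lf ⟨[.ofNat 30077280, .negSucc 76844519, .ofNat 73015680, .negSucc 27307559, .ofNat 4358640], (.tr (.lf 14) (.lf 10) (.tr (.dx 0 (.tr (.lf 9) (.lf 5) (.lf 13))) (.lf 6) (.tw (.lf 17) (.lf 18)))), 0, [27, 27, 27, 27, 11, 21, 11, 21], [27, 27, 1, 1]⟩))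
    (.nd (.lf ⟨[.ofNat 7846560, .negSucc 17312279, .ofNat 16154400, .negSucc 5934359, .ofNat 944880], (.tr (.dx 0 (.tr (.lf 9) (.lf 5) (.lf 13))) (.tr (.lf 6) (.tw (.lf 17) (.lf 18)) (.lf 10)) (.lf 14)), 0, [20, 20, 19, 19, 10, 10, 19, 19], [0, 0, 19, 19]⟩)
    (.lf ⟨[.negSucc 35243999, .ofNat 91687560, .negSucc 88852319, .ofNat 33549960, .negSucc 5394959], (.tr (.lf 10) (.dx 0 (.tr (.lf 5) (.lf 9) (.lf 13))) (.tr (.lf 6) (.lf 14) (.tw (.lf 17) (.lf 18)))), 0, [39, 39, 12, 12, 39, 39, 12, 12], [39, 39, 12, 12]⟩)))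
    (.nd (.nd (.lf ⟨[.negSucc 11792159, .ofNat 27324600, .negSucc 25016159, .ofNat 9099960, .negSucc 1432559], (.tr (.lf 17) (.lf 18) (.tr (.dx 0 (.tw (.lf 5) (.lf 9))) (.tr (.lf 13) (.lf 6) (.lf 14)) (.lf 10))), 0, [2, 2, 2, 2, 14, 14, 14, 14], [2, 2, 14, 14]⟩)
    (.lf ⟨[.ofNat 10326240, .negSucc 24800519, .ofNat 22828800, .negSucc 8262599, .ofNat 1310640], (.tr (.lf 10) (.tr (.lf 17) (.dx 0 (.tw (.lf 5) (.lf 9))) (.tr (.lf 13) (.lf 6) (.lf 14))) (.lf 18)), 0, [39, 39, 39, 39, 3, 3, 3, 3], [39, 39, 3, 3]⟩))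
    (.nd (.lf ⟨[.ofNat 10333440, .negSucc 29686079, .ofNat 31673280, .negSucc 12484799, .ofNat 2072640], (.tr (.lf 17) (.lf 18) (.tr (.tw (.lf 6) (.lf 14)) (.dx 0 (.tr (.lf 5) (.lf 9) (.lf 13))) (.lf 10))), 0, [26, 26, 38, 38, 14, 14, 14, 14], [26, 38, 14, 14]⟩)
    (.lf ⟨[.negSucc 20177279, .ofNat 24763520, .negSucc 12737479, .ofNat 8349200, .negSucc 1264919], (.tr (.lf 10) (.dx 0 (.tr (.lf 5) (.lf 9) (.lf 13))) (.tr (.lf 14) (.lf 6) (.tw (.lf 17) (.lf 18)))), 0, [27, 27, 19, 19, 27, 27, 12, 12], [27, 27, 19, 19]⟩))))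

/-- data -/
def dV11x22 : RT := (.nd (.nd (.nd (.lf ⟨[.negSucc 50310719, .ofNat 158611600, .negSucc 164967159, .ofNat 58750720, .negSucc 9524999], (.tr (.lf 6) (.lf 14) (.tr (.dx 0 (.tr (.lf 5) (.lf 9) (.lf 13))) (.lf 10) (.tw (.lf 17) (.lf 18)))), 0, [15, 15, 15, 15, 11, 1, 11, 1], [15, 15, 21, 21]⟩)
    (.lf ⟨[.ofNat 6312960, .negSucc 18138239, .ofNat 21958080, .negSucc 9173759, .ofNat 1584960], (.tr (.dx 0 (.tr (.lf 5) (.lf 9) (.lf 13))) (.tr (.lf 10) (.tw (.lf 17) (.lf 18)) (.lf 14)) (.lf 6)), 0, [0, 0, 0, 0, 10, 10, 9, 9], [20, 20, 9, 9]⟩))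
    (.nd (.lf ⟨[.ofNat 163743840, .negSucc 521764199, .ofNat 535418640, .negSucc 195771719, .ofNat 31760160], (.tr (.lf 10) (.tr (.dx 0 (.tr (.lf 5) (.lf 9) (.lf 13))) (.tw (.lf 17) (.lf 18)) (.lf 6)) (.lf 14)), 0, [19, 19, 12, 12, 23, 34, 23, 34], [19, 19, 34, 34]⟩)
    (.lf ⟨[.negSucc 252096479, .ofNat 772322440, .negSucc 788213679, .ofNat 288554920, .negSucc 46939199], (.tr (.lf 14) (.dx 0 (.tr (.lf 5) (.lf 9) (.lf 13))) (.tr (.lf 10) (.lf 6) (.tw (.lf 17) (.lf 18)))), 0, [27, 27, 35, 35, 27, 27, 22, 22], [27, 27, 35, 35]⟩)))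
    (.nd (.nd (.lf ⟨[.ofNat 31455360, .negSucc 76038239, .ofNat 70228320, .negSucc 26057759, .ofNat 4084320], (.tr (.lf 14) (.lf 6) (.tr (.lf 10) (.dx 0 (.tr (.lf 5) (.lf 9) (.lf 13))) (.tw (.lf 17) (.lf 18)))), 0, [3, 3, 3, 3, 13, 18, 13, 18], [3, 3, 18, 18]⟩)
    (.lf ⟨[.ofNat 30021120, .negSucc 19840959, .negSucc 6198319, .negSucc 4213599, .ofNat 457200], (.tr (.lf 17) (.lf 18) (.tr (.dx 0 (.tr (.lf 5) (.lf 9) (.tw (.lf 6) (.lf 13)))) (.lf 10) (.lf 14))), 0, [2, 2, 2, 2, 38, 38, 38, 38], []⟩))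
    (.nd (.lf ⟨[.negSucc 70603199, .ofNat 166384400, .negSucc 153937279, .ofNat 46543760, .negSucc 6888479], (.tr (.dx 0 (.tr (.tw (.lf 5) (.lf 17)) (.lf 6) (.lf 13))) (.tr (.lf 9) (.lf 18) (.lf 14)) (.lf 10)), 0, [7, 29, 7, 29, 7, 29, 7, 29], []⟩)
    (.lf ⟨[.ofNat 4999680, .negSucc 13733759, .ofNat 12888960, .negSucc 4855679, .ofNat 731520], (.tr (.lf 14) (.dx 0 (.tr (.lf 5) (.tr (.lf 6) (.tw (.lf 9) (.lf 13)) (.lf 17)) (.lf 10))) (.lf 18)), 0, [3, 3, 3, 3, 3, 3, 3, 3], []⟩))))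

/-- data -/
def dV11x23 : RT := (.nd (.nd (.nd (.lf ⟨[.ofNat 0, .negSucc 1274399, .ofNat 2013240, .negSucc 1861919, .ofNat 655800, .negSucc 91439], (.tr (.dx 0 (.tw (.lf 5) (.lf 13))) (.lf 14) (.tr (.tw (.lf 9) (.lf 10)) (.lf 6) (.lf 19))), 0, [0, 0, 35, 35, 10, 10, 35, 35], [10, 10, 35, 35]⟩)
    (.lf ⟨[.ofNat 4032000, .negSucc 6550079, .ofNat 4640160, .negSucc 1727999, .ofNat 365760], (.tr (.dx 0 (.tw (.lf 5) (.lf 9))) (.lf 13) (.tr (.lf 17) (.tr (.lf 6) (.lf 14) (.lf 10)) (.lf 18))), 0, [0, 0, 0, 0, 20, 27, 20, 27], [10, 27, 10, 27]⟩))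
    (.nd (.lf ⟨[.negSucc 39252959, .ofNat 71845000, .negSucc 56817039, .ofNat 29688040, .negSucc 4815839], (.tr (.lf 6) (.tr (.lf 13) (.dx 0 (.tw (.lf 5) (.lf 9))) (.tr (.lf 17) (.lf 10) (.lf 18))) (.lf 14)), 0, [24, 24, 24, 24, 23, 23, 23, 23], [24, 24, 23, 23]⟩)
    (.lf ⟨[.negSucc 68211359, .ofNat 257044120, .negSucc 272640399, .ofNat 95142520, .negSucc 15544799], (.tr (.lf 6) (.lf 13) (.tr (.dx 0 (.tw (.lf 5) (.lf 9))) (.tr (.lf 17) (.lf 10) (.lf 18)) (.lf 14))), 0, [24, 24, 24, 24, 24, 24, 24, 24], [24, 24, 24, 24]⟩)))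
    (.nd (.nd (.lf ⟨[.ofNat 68211360, .negSucc 257044119, .ofNat 272640400, .negSucc 95142519, .ofNat 15544800], (.tr (.dx 0 (.tw (.lf 5) (.lf 9))) (.tr (.lf 13) (.lf 14) (.tr (.lf 17) (.lf 10) (.lf 18))) (.lf 6)), 0, [0, 0, 25, 25, 17, 17, 25, 25], [10, 10, 25, 25]⟩)
    (.lf ⟨[.negSucc 217087199, .ofNat 698844040, .negSucc 723223359, .ofNat 264723400, .negSucc 43190159], (.tr (.dx 0 (.tw (.lf 5) (.lf 9))) (.lf 13) (.tr (.lf 6) (.tr (.lf 17) (.lf 10) (.lf 18)) (.lf 14))), 0, [0, 0, 0, 0, 20, 20, 17, 17], [10, 10, 10, 10]⟩))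
    (.nd (.lf ⟨[.ofNat 61813440, .negSucc 184731599, .ofNat 184752000, .negSucc 70585679, .ofNat 11399520], (.tr (.lf 6) (.lf 17) (.tr (.lf 10) (.tr (.lf 13) (.dx 0 (.tw (.lf 5) (.lf 9))) (.lf 18)) (.lf 14))), 0, [16, 5, 23, 23, 29, 29, 7, 7], [5, 23, 29, 7]⟩)
    (.lf ⟨[.ofNat 252096480, .negSucc 772322439, .ofNat 788213680, .negSucc 288554919, .ofNat 46939200], (.tr (.lf 13) (.lf 14) (.tr (.lf 6) (.dx 0 (.tw (.lf 5) (.lf 9))) (.tr (.lf 17) (.lf 10) (.lf 18)))), 0, [18, 18, 18, 18, 4, 4, 4, 4], [18, 18, 4, 4]⟩))))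

/-- data -/
def dV11x24 : RT := (.nd (.nd (.nd (.lf ⟨[.ofNat 7845120, .negSucc 20053439, .ofNat 22847040, .negSucc 9295679, .ofNat 1584960], (.tr (.dx 0 (.tw (.lf 5) (.lf 17))) (.tr (.lf 9) (.tr (.lf 13) (.lf 6) (.lf 14)) (.lf 18)) (.lf 10)), 0, [29, 29, 7, 7, 29, 29, 7, 7], [29, 29, 7, 7]⟩)
    (.lf ⟨[.negSucc 252096479, .ofNat 772322440, .negSucc 788213679, .ofNat 288554920, .negSucc 46939199], (.tr (.lf 6) (.tr (.dx 0 (.tw (.lf 5) (.lf 9))) (.tr (.lf 17) (.lf 10) (.lf 18)) (.lf 13)) (.lf 14)), 0, [5, 5, 5, 5, 23, 23, 23, 23], [5, 5, 23, 23]⟩))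
    (.nd (.lf ⟨[.negSucc 75885119, .ofNat 218683440, .negSucc 217703519, .ofNat 74046960, .negSucc 11704319], (.tr (.lf 13) (.lf 6) (.tr (.dx 0 (.tw (.lf 5) (.lf 17))) (.lf 14) (.tr (.lf 9) (.lf 18) (.lf 10)))), 0, [29, 29, 29, 29, 18, 18, 18, 18], [29, 29, 18, 18]⟩)
    (.lf ⟨[.ofNat 75885120, .negSucc 218683439, .ofNat 217703520, .negSucc 74046959, .ofNat 11704320], (.tr (.lf 13) (.dx 0 (.tw (.lf 5) (.lf 9))) (.tr (.lf 6) (.lf 14) (.tr (.lf 17) (.lf 10) (.lf 18)))), 0, [15, 15, 22, 22, 15, 15, 22, 22], [15, 15, 22, 22]⟩)))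
    (.nd (.nd (.lf ⟨[.ofNat 83730240, .negSucc 257078319, .ofNat 271683760, .negSucc 101071119, .ofNat 16733520], (.tr (.lf 6) (.lf 13) (.tr (.lf 14) (.dx 0 (.tw (.lf 5) (.lf 9))) (.tr (.lf 17) (.lf 10) (.lf 18)))), 0, [15, 15, 15, 15, 23, 23, 23, 23], [15, 15, 23, 23]⟩)
    (.lf ⟨[.ofNat 67063680, .negSucc 204917279, .ofNat 201210240, .negSucc 67293599, .ofNat 10485120], (.tr (.dx 0 (.tw (.lf 5) (.lf 17))) (.lf 9) (.tr (.lf 10) (.lf 18) (.tr (.lf 13) (.lf 6) (.lf 14)))), 0, [19, 19, 29, 29, 19, 19, 29, 29], [19, 19, 29, 29]⟩))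
    (.nd (.lf ⟨[.negSucc 80798399, .ofNat 233303920, .negSucc 234977559, .ofNat 84520480, .negSucc 13609319], (.tr (.lf 6) (.dx 0 (.tr (.lf 9) (.lf 5) (.lf 13))) (.tr (.lf 14) (.lf 10) (.tw (.lf 17) (.lf 18)))), 0, [15, 15, 32, 32, 15, 15, 32, 32], [15, 15, 32, 32]⟩)
    (.lf ⟨[.ofNat 12729600, .negSucc 36022079, .ofNat 37102560, .negSucc 14135039, .ofNat 2377440], (.tr (.lf 6) (.tr (.dx 0 (.tr (.lf 9) (.lf 5) (.lf 13))) (.tw (.lf 17) (.lf 18)) (.lf 10)) (.lf 14)), 0, [32, 32, 32, 32, 23, 23, 23, 23], [32, 32, 23, 23]⟩))))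

/-- data -/
def dV11 : RT := (.nd (.nd (.nd (.nd dV11x0 (.nd dV11x1 dV11x2)) (.nd dV11x3 (.nd dV11x4 dV11x5))) (.nd (.nd dV11x6 (.nd dV11x7 dV11x8)) (.nd dV11x9 (.nd dV11x10 dV11x11)))) (.nd (.nd (.nd dV11x12 (.nd dV11x13 dV11x14)) (.nd dV11x15 (.nd dV11x16 dV11x17))) (.nd (.nd dV11x18 (.nd dV11x19 dV11x20)) (.nd (.nd dV11x21 dV11x22) (.nd dV11x23 dV11x24)))))

/-- data -/
def lV11x0 : List (ℕ × List ℤ) := [(38117, [.ofNat 0, .ofNat 240618240, .negSucc 614756159, .ofNat 584125440, .negSucc 218460479, .ofNat 34869120]),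
  (38124, [.ofNat 0, .ofNat 5512320, .ofNat 183840, .negSucc 10665599, .ofNat 7024800, .negSucc 2295359, .ofNat 243840]),
  (38173, [.ofNat 0, .ofNat 197372160, .negSucc 629062719, .ofNat 658996960, .negSucc 233850879, .ofNat 38100000]),
  (38187, [.ofNat 0, .ofNat 99239040, .negSucc 254632799, .ofNat 241986720, .negSucc 87216479, .ofNat 12372960, .ofNat 365760]),
  (38236, [.ofNat 0, .negSucc 5512319, .negSucc 12740639, .ofNat 20714880, .negSucc 9000479, .ofNat 1584960]),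
  (38243, [.ofNat 0, .ofNat 961217280, .negSucc 2979991359, .ofNat 3035279680, .negSucc 1099391679, .ofNat 175498560, .ofNat 975360]),
  (41701, [.ofNat 0, .ofNat 0, .ofNat 0, .negSucc 17141759, .ofNat 17389440, .negSucc 4965119, .ofNat 731520]),
  (41708, [.ofNat 0, .negSucc 32624639, .ofNat 124528640, .negSucc 140188159, .ofNat 52321280, .negSucc 8778239]),
  (41757, [.ofNat 0, .negSucc 96479999, .ofNat 268211520, .negSucc 260976959, .ofNat 90816960, .negSucc 14020799]),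
  (41820, [.ofNat 0, .negSucc 14981759, .ofNat 83384160, .negSucc 103715519, .ofNat 53432160, .negSucc 10817279, .ofNat 731520]),
  (41827, [.ofNat 0, .ofNat 51102720, .negSucc 93217279, .ofNat 71176640, .negSucc 22351999, .ofNat 1456320, .ofNat 487680]),
  (42283, [.ofNat 0, .ofNat 0, .ofNat 0, .ofNat 6359040, .negSucc 5946239, .ofNat 2369280, .negSucc 243839]),
  (42332, [.ofNat 0, .ofNat 0, .ofNat 0, .ofNat 17303040, .negSucc 17888639, .ofNat 6447360, .negSucc 731519]),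
  (42597, [.ofNat 0, .ofNat 0, .ofNat 0, .ofNat 4769280, .negSucc 4767359, .ofNat 3168000, .negSucc 243839]),
  (42604, [.ofNat 0, .ofNat 0, .ofNat 0, .negSucc 6865919, .ofNat 6084480, .negSucc 2553599, .ofNat 243840]),
  (42661, [.ofNat 0, .ofNat 0, .negSucc 17061119, .ofNat 15940800, .negSucc 6741119, .ofNat 853440]),
  (42668, [.ofNat 0, .ofNat 0, .ofNat 4515840, .negSucc 15461759, .ofNat 11191680, .negSucc 4114559, .ofNat 243840]),
  (42725, [.ofNat 0, .negSucc 67835519, .ofNat 175836000, .negSucc 172481279, .ofNat 64356960, .negSucc 10363199]),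
  (42732, [.ofNat 0, .negSucc 294756479, .ofNat 1062512480, .negSucc 1109195359, .ofNat 400136480, .negSucc 61300319, .negSucc 975359]),
  (42773, [.ofNat 0, .ofNat 0, .ofNat 4792320, .negSucc 1941119, .negSucc 1612799, .ofNat 6188160, .negSucc 487679]),
  (42781, [.ofNat 0, .ofNat 51102720, .negSucc 109425919, .ofNat 88664960, .negSucc 34014079, .ofNat 3200640, .ofNat 243840]),
  (42794, [.ofNat 0, .ofNat 0, .negSucc 5644799, .ofNat 4563840, .ofNat 19200, .ofNat 28800]),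
  (42795, [.ofNat 0, .ofNat 0, .ofNat 0, .negSucc 15206399, .ofNat 14916480, .negSucc 5687039, .ofNat 731520]),
  (42844, [.ofNat 0, .negSucc 28719359, .ofNat 151728320, .negSucc 172885759, .ofNat 70673600, .negSucc 9532799]),
  (43165, [.ofNat 0, .ofNat 3905280, .ofNat 21554880, .negSucc 26774399, .ofNat 16904640, .negSucc 510719]),
  (43213, [.ofNat 0, .ofNat 0, .ofNat 0, .negSucc 10598399, .ofNat 10648320, .negSucc 4001279, .ofNat 487680]),
  (43221, [.ofNat 0, .ofNat 0, .ofNat 1474560, .negSucc 12618239, .ofNat 17220480, .ofNat 326400, .ofNat 243840]),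
  (43293, [.ofNat 0, .ofNat 287942400, .negSucc 808194879, .ofNat 812133760, .negSucc 301627839, .ofNat 51440640, .negSucc 731519]),
  (43339, [.ofNat 0, .ofNat 0, .negSucc 5644799, .ofNat 5923200, .negSucc 1447679, .ofNat 243840]),
  (43347, [.ofNat 0, .ofNat 0, .ofNat 0, .negSucc 8156159, .ofNat 6718080, .negSucc 3383039, .ofNat 243840]),
  (43356, [.ofNat 0, .ofNat 0, .ofNat 0, .negSucc 19007999, .ofNat 18994560, .negSucc 5364479, .ofNat 731520]),
  (43683, [.ofNat 0, .ofNat 81498240, .negSucc 175519199, .ofNat 160709760, .negSucc 46395359, .ofNat 6705600]),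
  (43795, [.ofNat 0, .ofNat 0, .ofNat 4792320, .negSucc 6894719, .ofNat 4043520, .negSucc 915839]),
  (43868, [.ofNat 0, .ofNat 25891200, .negSucc 78980639, .ofNat 75563040, .negSucc 25616159, .ofNat 2619360, .ofNat 365760]),
  (304805, [.ofNat 0, .negSucc 302996159, .ofNat 942286800, .negSucc 979955519, .ofNat 363264720, .negSucc 59314079]),
  (304812, [.ofNat 0, .negSucc 38810879, .ofNat 72150720, .negSucc 60153599, .ofNat 17837760, .negSucc 2682239]),
  (304988, [.ofNat 0, .ofNat 5512320, .ofNat 12740640, .negSucc 20714879, .ofNat 9000480, .negSucc 1584959]),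
  (304997, [.ofNat 0, .ofNat 317246400, .negSucc 988644239, .ofNat 1001156160, .negSucc 361783439, .ofNat 58094880]),
  (305309, [.ofNat 0, .negSucc 697343039, .ofNat 2250931440, .negSucc 2332480319, .ofNat 853236720, .negSucc 138562079]),
  (305323, [.ofNat 0, .negSucc 44282879, .ofNat 102305280, .negSucc 100815359, .ofNat 35735040, .negSucc 5852159]),
  (305381, [.ofNat 0, .ofNat 33384960, .ofNat 82083200, .negSucc 142235839, .ofNat 22419200, .negSucc 3535679]),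
  (305501, [.ofNat 0, .ofNat 665962560, .negSucc 2170717679, .ofNat 2241092160, .negSucc 816053999, .ofNat 132222240]),
  (305507, [.ofNat 0, .ofNat 57611520, .negSucc 204500159, .ofNat 215441280, .negSucc 87414719, .ofNat 14142720]),
  (305820, [.ofNat 0, .negSucc 31380479, .ofNat 80213760, .negSucc 91388159, .ofNat 37182720, .negSucc 6339839]),
  (305827, [.ofNat 0, .ofNat 961660800, .negSucc 2930643999, .ofNat 2989915840, .negSucc 1093209759, .ofNat 178003200]),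
  (305891, [.ofNat 0, .negSucc 1008385919, .ofNat 3089289760, .negSucc 3152854719, .ofNat 1154219680, .negSucc 187756799]),
  (305900, [.ofNat 0, .ofNat 5863680, .negSucc 10096319, .ofNat 8749440, .negSucc 3349439, .ofNat 487680]),
  (305963, [.ofNat 0, .ofNat 67472640, .negSucc 129727679, .ofNat 103637760, .negSucc 36838079, .ofNat 5608320]),
  (333605, [.ofNat 0, .negSucc 603175679, .ofNat 1847982400, .negSucc 1891575999, .ofNat 673458880, .negSucc 108874559]),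
  (333676, [.ofNat 0, .ofNat 81250560, .negSucc 209234879, .ofNat 199411200, .negSucc 75595199, .ofNat 11948160]),
  (334045, [.ofNat 0, .ofNat 680607360, .negSucc 2160225119, .ofNat 2217799680, .negSucc 814769759, .ofNat 131795520]),
  (334060, [.ofNat 0, .ofNat 0, .ofNat 1820160, .negSucc 1213439, .ofNat 215040]),
  (334123, [.ofNat 0, .negSucc 32330879, .ofNat 62976480, .negSucc 56384639, .ofNat 21289440, .negSucc 3291839]),
  (334187, [.ofNat 0, .negSucc 59650559, .ofNat 114664320, .negSucc 106030079, .ofNat 39100800, .negSucc 6339839]),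
  (334621, [.ofNat 0, .ofNat 3905280, .ofNat 4079040, .negSucc 5721599, .ofNat 4401600, .negSucc 975359]),
  (334684, [.ofNat 0, .ofNat 17354880, .negSucc 51114719, .ofNat 52752000, .negSucc 20195039, .ofNat 3291840]),
  (337693, [.ofNat 0, .negSucc 634043519, .ofNat 2054200800, .negSucc 2130623039, .ofNat 780351840, .negSucc 126796799]),
  (337756, [.ofNat 0, .negSucc 688216319, .ofNat 2301693120, .negSucc 2408858879, .ofNat 880854720, .negSucc 143134079]),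
  (338275, [.ofNat 0, .ofNat 595503360, .negSucc 1767199679, .ofNat 1802331840, .negSucc 678323519, .ofNat 110581440]),
  (338668, [.ofNat 0, .negSucc 113287679, .ofNat 281489280, .negSucc 280742399, .ofNat 103950720, .negSucc 17068799]),
  (340820, [.ofNat 0, .negSucc 123626879, .ofNat 369463200, .negSucc 369503999, .ofNat 141171360, .negSucc 22799039]),
  (341261, [.ofNat 0, .negSucc 645016319, .ofNat 2048212800, .negSucc 2103449279, .ofNat 765992640, .negSucc 123992639]),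
  (341277, [.ofNat 0, .negSucc 1100206079, .ofNat 3299334400, .negSucc 3351619839, .ofNat 1203723520, .negSucc 194828159]),
  (341324, [.ofNat 0, .negSucc 62300159, .ofNat 133032960, .negSucc 129215999, .ofNat 43752960, .negSucc 7071359]),
  (341340, [.ofNat 0, .negSucc 3905279, .negSucc 8122559, .ofNat 13405440, .negSucc 6985919, .ofNat 1219200]),
  (341347, [.ofNat 0, .ofNat 0, .ofNat 5483520, .negSucc 6739199, .ofNat 3164160, .negSucc 487679]),
  (342181, [.ofNat 0, .ofNat 186134400, .negSucc 572597279, .ofNat 585513600, .negSucc 218549279, .ofNat 35478720]),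
  (342221, [.ofNat 0, .ofNat 993991680, .negSucc 2991800319, .ofNat 3045087040, .negSucc 1114284159, .ofNat 181295040]),
  (342250, [.ofNat 0, .negSucc 552441599, .ofNat 1776889920, .negSucc 1840174079, .ofNat 674049600, .negSucc 109727999]),
  (342370, [.ofNat 0, .ofNat 868348800, .negSucc 2795376159, .ofNat 2892893440, .negSucc 1058893599, .ofNat 172760640]),
  (342620, [.ofNat 0, .negSucc 16127999, .ofNat 26200320, .negSucc 18560639, .ofNat 6912000, .negSucc 1463039]),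
  (342754, [.ofNat 0, .negSucc 682698239, .ofNat 2261424000, .negSucc 2355772799, .ofNat 854520960, .negSucc 138988799]),
  (342826, [.ofNat 0, .ofNat 429857280, .negSucc 1315556479, .ofNat 1317829760, .negSucc 499322239, .ofNat 81442560]),
  (345293, [.ofNat 0, .negSucc 677773439, .ofNat 2206491360, .negSucc 2293482239, .ofNat 829839840, .negSucc 134721599]),
  (345419, [.ofNat 0, .negSucc 41304959, .ofNat 99202080, .negSucc 91315199, .ofNat 33050400, .negSucc 5242559]),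
  (345757, [.ofNat 0, .ofNat 786539520, .negSucc 2365396479, .ofNat 2410007680, .negSucc 850988799, .ofNat 137769600]),
  (345772, [.ofNat 0, .negSucc 16127999, .ofNat 26200320, .negSucc 18560639, .ofNat 6912000, .negSucc 1463039]),
  (345869, [.ofNat 0, .ofNat 373829760, .negSucc 1161093599, .ofNat 1169890560, .negSucc 443578079, .ofNat 72542400]),
  (345898, [.ofNat 0, .negSucc 44282879, .ofNat 102305280, .negSucc 100815359, .ofNat 35735040, .negSucc 5852159]),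
  (346731, [.ofNat 0, .ofNat 0, .ofNat 5483520, .negSucc 6739199, .ofNat 3164160, .negSucc 487679]),
  (350050, [.ofNat 0, .negSucc 98461439, .ofNat 186815040, .negSucc 166183679, .ofNat 56938560, .negSucc 9022079]),
  (350483, [.ofNat 0, .negSucc 123626879, .ofNat 369463200, .negSucc 369503999, .ofNat 141171360, .negSucc 22799039]),
  (2439517, [.ofNat 0, .ofNat 7845120, .negSucc 20053439, .ofNat 22847040, .negSucc 9295679, .ofNat 1584960]),
  (2442469, [.ofNat 0, .ofNat 7845120, .negSucc 20053439, .ofNat 22847040, .negSucc 9295679, .ofNat 1584960]),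
  (2442909, [.ofNat 0, .ofNat 14296320, .negSucc 41766719, .ofNat 36452160, .negSucc 11140799, .ofNat 1584960]),
  (2443051, [.ofNat 0, .ofNat 21542400, .negSucc 70162559, .ofNat 73046400, .negSucc 28575359, .ofNat 4632960]),
  (2444061, [.ofNat 0, .ofNat 14296320, .negSucc 41766719, .ofNat 36452160, .negSucc 11140799, .ofNat 1584960]),
  (2446572, [.ofNat 0, .ofNat 15690240, .negSucc 35498879, .ofNat 41425920, .negSucc 16905599, .ofNat 2926080]),
  (2446635, [.ofNat 0, .ofNat 1820160, .negSucc 6579839, .ofNat 5427840, .negSucc 2044799, .ofNat 243840]),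
  (2447004, [.ofNat 0, .ofNat 22141440, .negSucc 61820159, .ofNat 59299200, .negSucc 20436479, .ofNat 3169920]),
  (2447203, [.ofNat 0, .ofNat 22141440, .negSucc 52581119, .ofNat 50117760, .negSucc 16650239, .ofNat 2682240]),
  (2447595, [.ofNat 0, .ofNat 0, .ofNat 8271360, .negSucc 9246719, .ofNat 2741760, .negSucc 487679]),
  (2664669, [.ofNat 0, .ofNat 0, .negSucc 14630399, .ofNat 15192960, .negSucc 5111039, .ofNat 731520]),
  (2665180, [.ofNat 0, .ofNat 0, .negSucc 10506239, .ofNat 9544320, .negSucc 1455359, .ofNat 243840]),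
  (2667813, [.ofNat 0, .ofNat 19382400, .negSucc 45807839, .ofNat 47316480, .negSucc 18762719, .ofNat 3048000]),
  (2668701, [.ofNat 0, .ofNat 0, .negSucc 14630399, .ofNat 15192960, .negSucc 5111039, .ofNat 731520]),
  (2668842, [.ofNat 0, .ofNat 19722240, .negSucc 61048319, .ofNat 65717760, .negSucc 26899199, .ofNat 4389120]),
  (2668890, [.ofNat 0, .ofNat 0, .ofNat 2350080, .negSucc 2826239, .negSucc 1927679]),
  (2668898, [.ofNat 0, .ofNat 0, .ofNat 11036160, .negSucc 10932479, .ofNat 3786240, .negSucc 487679]),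
  (2669219, [.ofNat 0, .ofNat 0, .ofNat 1359360, .negSucc 1466879, .ofNat 215040])]

/-- data -/
def lV11x1 : List (ℕ × List ℤ) := [(2669228, [.ofNat 0, .ofNat 0, .ofNat 8156160, .negSucc 6718079, .ofNat 3383040, .negSucc 243839]),
  (2669285, [.ofNat 0, .ofNat 0, .ofNat 17141760, .negSucc 17389439, .ofNat 4965120, .negSucc 731519]),
  (2669333, [.ofNat 0, .ofNat 0, .ofNat 6865920, .negSucc 6084479, .ofNat 2553600, .negSucc 243839]),
  (2669410, [.ofNat 0, .ofNat 0, .negSucc 10506239, .ofNat 9544320, .negSucc 1455359, .ofNat 243840]),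
  (2672474, [.ofNat 0, .ofNat 0, .ofNat 2350080, .negSucc 2826239, .negSucc 1927679]),
  (2672979, [.ofNat 0, .ofNat 5460480, .negSucc 22273919, .ofNat 18184320, .negSucc 5765759, .ofNat 731520]),
  (2673308, [.ofNat 0, .negSucc 1952639, .negSucc 812639, .ofNat 1175040, .negSucc 1949279, .ofNat 365760]),
  (2673365, [.ofNat 0, .ofNat 0, .ofNat 15137280, .negSucc 15331199, .ofNat 5295360, .negSucc 731519]),
  (2675948, [.ofNat 0, .ofNat 0, .ofNat 15137280, .negSucc 15331199, .ofNat 5295360, .negSucc 731519]),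
  (2676011, [.ofNat 0, .ofNat 0, .ofNat 6865920, .negSucc 6084479, .ofNat 2553600, .negSucc 243839]),
  (2676387, [.ofNat 0, .ofNat 0, .negSucc 13271039, .ofNat 13726080, .negSucc 4895999, .ofNat 731520]),
  (2676396, [.ofNat 0, .ofNat 0, .ofNat 8156160, .negSucc 6718079, .ofNat 3383040, .negSucc 243839]),
  (2676450, [.ofNat 0, .ofNat 0, .negSucc 14630399, .ofNat 15192960, .negSucc 5111039, .ofNat 731520]),
  (2676579, [.ofNat 0, .ofNat 0, .ofNat 9239040, .negSucc 9181439, .ofNat 3786240, .negSucc 487679]),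
  (2676893, [.ofNat 0, .negSucc 79401599, .ofNat 279638880, .negSucc 296211359, .ofNat 108804000, .negSucc 17861279]),
  (2676907, [.ofNat 0, .ofNat 0, .ofNat 2350080, .negSucc 2826239, .negSucc 1927679]),
  (2676970, [.ofNat 0, .ofNat 0, .ofNat 2350080, .negSucc 2826239, .negSucc 1927679]),
  (2677084, [.ofNat 0, .ofNat 0, .ofNat 17141760, .negSucc 17389439, .ofNat 4965120, .negSucc 731519]),
  (2677460, [.ofNat 0, .ofNat 0, .ofNat 8271360, .negSucc 9246719, .ofNat 2741760, .negSucc 487679]),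
  (2704989, [.ofNat 0, .ofNat 1820160, .ofNat 1921920, .negSucc 3603839, .ofNat 2110080, .negSucc 243839]),
  (2706205, [.ofNat 0, .ofNat 1820160, .negSucc 6579839, .ofNat 5427840, .negSucc 2044799, .ofNat 243840]),
  (2709852, [.ofNat 0, .ofNat 17562240, .negSucc 47729759, .ofNat 50920320, .negSucc 20872799, .ofNat 3291840]),
  (2726060, [.ofNat 0, .negSucc 88640639, .ofNat 258586080, .negSucc 259061279, .ofNat 94882080, .negSucc 15422879]),
  (2726565, [.ofNat 0, .ofNat 46287360, .negSucc 130609919, .ofNat 127463040, .negSucc 44183039, .ofNat 6949440]),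
  (2726740, [.ofNat 0, .ofNat 24338880, .negSucc 99903119, .ofNat 106427520, .negSucc 41886479, .ofNat 6766560]),
  (2734245, [.ofNat 0, .ofNat 15690240, .negSucc 35498879, .ofNat 41425920, .negSucc 16905599, .ofNat 2926080]),
  (2734732, [.ofNat 0, .negSucc 17832959, .ofNat 60852480, .negSucc 72009599, .ofNat 30312960, .negSucc 5120639]),
  (2736874, [.ofNat 0, .negSucc 9239039, .negSucc 21052799, .ofNat 37150080, .negSucc 13921919, .ofNat 2438400]),
  (2736876, [.ofNat 0, .negSucc 9239039, .negSucc 21052799, .ofNat 37150080, .negSucc 13921919, .ofNat 2438400]),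
  (2736938, [.ofNat 0, .negSucc 1952639, .ofNat 466080, .ofNat 305280, .negSucc 470879, .ofNat 121920]),
  (2736939, [.ofNat 0, .ofNat 0, .ofNat 10598400, .negSucc 10648319, .ofNat 4001280, .negSucc 487679]),
  (2736988, [.ofNat 0, .negSucc 1952639, .negSucc 812639, .ofNat 1175040, .negSucc 1949279, .ofNat 365760]),
  (2737451, [.ofNat 0, .ofNat 15690240, .negSucc 35498879, .ofNat 41425920, .negSucc 16905599, .ofNat 2926080]),
  (2737836, [.ofNat 0, .ofNat 0, .ofNat 8156160, .negSucc 6718079, .ofNat 3383040, .negSucc 243839]),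
  (2737941, [.ofNat 0, .ofNat 0, .ofNat 2350080, .negSucc 2826239, .negSucc 1927679]),
  (2737996, [.ofNat 0, .negSucc 21335039, .ofNat 46273920, .negSucc 47011199, .ofNat 18291840, .negSucc 2926079]),
  (2741861, [.ofNat 0, .ofNat 0, .ofNat 6635520, .negSucc 7845119, .ofNat 3509760, .negSucc 487679]),
  (2742029, [.ofNat 0, .negSucc 1952639, .ofNat 466080, .ofNat 305280, .negSucc 470879, .ofNat 121920]),
  (2742114, [.ofNat 0, .ofNat 0, .ofNat 1359360, .negSucc 1466879, .ofNat 215040]),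
  (2742435, [.ofNat 0, .ofNat 15690240, .negSucc 35498879, .ofNat 41425920, .negSucc 16905599, .ofNat 2926080]),
  (2742620, [.ofNat 0, .ofNat 0, .ofNat 2350080, .negSucc 2826239, .negSucc 1927679]),
  (2743059, [.ofNat 0, .ofNat 3640320, .negSucc 15694079, .ofNat 12756480, .negSucc 3720959, .ofNat 487680]),
  (2758316, [.ofNat 0, .negSucc 88640639, .ofNat 258586080, .negSucc 259061279, .ofNat 94882080, .negSucc 15422879]),
  (2762476, [.ofNat 0, .ofNat 0, .negSucc 8501759, .ofNat 9031680, .negSucc 4154879, .ofNat 487680]),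
  (2762957, [.ofNat 0, .ofNat 0, .ofNat 1359360, .negSucc 1466879, .ofNat 215040]),
  (2765484, [.ofNat 0, .negSucc 48239999, .ofNat 129797280, .negSucc 126287999, .ofNat 42233760, .negSucc 6583679]),
  (2766955, [.ofNat 0, .negSucc 28517759, .ofNat 68748960, .negSucc 60570239, .ofNat 15334560, .negSucc 2194559]),
  (2767179, [.ofNat 0, .negSucc 21335039, .ofNat 57310080, .negSucc 57943679, .ofNat 22078080, .negSucc 3413759]),
  (2767461, [.ofNat 0, .ofNat 46287360, .negSucc 130609919, .ofNat 127463040, .negSucc 44183039, .ofNat 6949440]),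
  (2767573, [.ofNat 0, .ofNat 0, .ofNat 2350080, .negSucc 2826239, .negSucc 1927679]),
  (2767658, [.ofNat 0, .negSucc 130435199, .ofNat 392003040, .negSucc 389002559, .ofNat 129909600, .negSucc 20482559]),
  (2773661, [.ofNat 0, .negSucc 79401599, .ofNat 279638880, .negSucc 296211359, .ofNat 108804000, .negSucc 17861279]),
  (2773850, [.ofNat 0, .ofNat 0, .ofNat 10598400, .negSucc 10648319, .ofNat 4001280, .negSucc 487679]),
  (2773852, [.ofNat 0, .ofNat 0, .ofNat 17141760, .negSucc 17389439, .ofNat 4965120, .negSucc 731519]),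
  (2774347, [.ofNat 0, .negSucc 130435199, .ofNat 392003040, .negSucc 389002559, .ofNat 129909600, .negSucc 20482559]),
  (2774741, [.ofNat 0, .ofNat 24338880, .negSucc 99903119, .ofNat 106427520, .negSucc 41886479, .ofNat 6766560]),
  (2795109, [.ofNat 0, .ofNat 19722240, .negSucc 72084479, .ofNat 76650240, .negSucc 30685439, .ofNat 4876800]),
  (2799244, [.ofNat 0, .negSucc 17832959, .ofNat 60852480, .negSucc 72009599, .ofNat 30312960, .negSucc 5120639]),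
  (19551915, [.ofNat 0, .negSucc 2548799, .ofNat 4026480, .negSucc 3723839, .ofNat 1311600, .negSucc 182879]),
  (19552083, [.ofNat 0, .negSucc 2548799, .ofNat 4026480, .negSucc 3723839, .ofNat 1311600, .negSucc 182879]),
  (21379797, [.ofNat 0, .ofNat 1820160, .negSucc 6579839, .ofNat 5427840, .negSucc 2044799, .ofNat 243840]),
  (21801820, [.ofNat 0, .negSucc 2548799, .ofNat 4026480, .negSucc 3723839, .ofNat 1311600, .negSucc 182879]),
  (21936213, [.ofNat 0, .ofNat 69177600, .negSucc 183613759, .ofNat 183872000, .negSucc 62688319, .ofNat 10119360]),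
  (22070997, [.ofNat 0, .negSucc 2548799, .ofNat 4026480, .negSucc 3723839, .ofNat 1311600, .negSucc 182879]),
  (22106972, [.ofNat 0, .ofNat 67357440, .negSucc 177033919, .ofNat 178444160, .negSucc 60643519, .ofNat 9875520]),
  (22135635, [.ofNat 0, .ofNat 1661760, .negSucc 18984239, .ofNat 25472640, .negSucc 10399919, .ofNat 1645920]),
  (22333203, [.ofNat 0, .ofNat 1661760, .negSucc 18984239, .ofNat 25472640, .negSucc 10399919, .ofNat 1645920]),
  (22362219, [.ofNat 0, .ofNat 0, .ofNat 2678400, .negSucc 3342719, .ofNat 1441920, .negSucc 243839]),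
  (22390373, [.ofNat 0, .ofNat 0, .ofNat 2678400, .negSucc 3342719, .ofNat 1441920, .negSucc 243839]),
  (155863773, [.ofNat 9838080, .negSucc 25111679, .ofNat 24161280, .negSucc 9029759, .ofNat 1463040]),
  (156059493, [.negSucc 7125119, .ofNat 23178720, .negSucc 10600319, .negSucc 740639, .ofNat 609600]),
  (156060389, [.ofNat 21467520, .negSucc 53557919, .ofNat 53909760, .negSucc 20280479, .ofNat 3291840]),
  (156063532, [.ofNat 0, .negSucc 1059839, .ofNat 570240, .ofNat 1570560, .negSucc 243839]),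
  (156063980, [.ofNat 19405440, .negSucc 36075359, .ofNat 30076800, .negSucc 8918879, .ofNat 1341120]),
  (156064092, [.negSucc 2735999, .ofNat 25284000, .negSucc 27367679, .ofNat 8491680, .negSucc 1341119]),
  (156117733, [.negSucc 120309119, .ofNat 307378080, .negSucc 292062719, .ofNat 109230240, .negSucc 17434559]),
  (156117740, [.negSucc 175679, .ofNat 11418480, .negSucc 14732159, .ofNat 6174960, .negSucc 1036319]),
  (156117803, [.negSucc 60154559, .ofNat 153689040, .negSucc 146031359, .ofNat 54615120, .negSucc 8717279]),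
  (156128541, [.ofNat 62910720, .negSucc 152076479, .ofNat 140456640, .negSucc 52115519, .ofNat 8168640]),
  (156128933, [.ofNat 133083360, .negSucc 376567559, .ofNat 369261360, .negSucc 145859879, .ofNat 23713440]),
  (156129437, [.negSucc 55560959, .ofNat 137595520, .negSucc 125118399, .ofNat 39245440, .negSucc 5791199]),
  (156149989, [.negSucc 76959359, .ofNat 226654560, .negSucc 233341439, .ofNat 89593440, .negSucc 14752319]),
  (156150115, [.negSucc 5221439, .ofNat 47600880, .negSucc 57688319, .ofNat 25507440, .negSucc 4206239]),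
  (156154028, [.negSucc 5512319, .negSucc 12740639, .ofNat 20714880, .negSucc 9000479, .ofNat 1584960]),
  (156154196, [.negSucc 2756159, .negSucc 6370319, .ofNat 10357440, .negSucc 4500239, .ofNat 792480]),
  (156157157, [.negSucc 73041119, .ofNat 336885640, .negSucc 381657999, .ofNat 137432680, .negSucc 22799039]),
  (156157276, [.ofNat 0, .ofNat 6278400, .negSucc 7328639, .ofNat 3121920, .negSucc 487679]),
  (156157283, [.ofNat 23584320, .negSucc 54649199, .ofNat 50032320, .negSucc 18199919, .ofNat 2865120]),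
  (156157605, [.ofNat 60042240, .negSucc 39681919, .negSucc 12396639, .negSucc 8427199, .ofNat 914400]),
  (156157717, [.ofNat 30021120, .negSucc 19840959, .negSucc 6198319, .negSucc 4213599, .ofNat 457200]),
  (156157780, [.negSucc 2756159, .negSucc 91919, .ofNat 3028800, .negSucc 1378319, .ofNat 304800]),
  (156318493, [.ofNat 15690240, .negSucc 40106879, .ofNat 45694080, .negSucc 18591359, .ofNat 3169920]),
  (156325612, [.negSucc 2756159, .negSucc 6370319, .ofNat 10357440, .negSucc 4500239, .ofNat 792480]),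
  (156325675, [.negSucc 3893759, .ofNat 24063360, .negSucc 24579839, .ofNat 11264640, .negSucc 1706879]),
  (156325731, [.ofNat 0, .ofNat 12072960, .negSucc 11500799, .ofNat 4001280, .negSucc 487679]),
  (156326123, [.ofNat 0, .negSucc 1405439, .ofNat 2609280, .negSucc 1432319, .ofNat 243840]),
  (156347116, [.negSucc 2931839, .ofNat 5048160, .negSucc 4374719, .ofNat 1674720, .negSucc 243839]),
  (156347165, [.negSucc 161596799, .ofNat 466607840, .negSucc 469955119, .ofNat 169040960, .negSucc 27218639]),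
  (156355229, [.negSucc 161596799, .ofNat 466607840, .negSucc 469955119, .ofNat 169040960, .negSucc 27218639]),
  (156357868, [.negSucc 2756159, .negSucc 6370319, .ofNat 10357440, .negSucc 4500239, .ofNat 792480])]

/-- data -/
def lV11x2 : List (ℕ × List ℤ) := [(156357931, [.negSucc 26035199, .ofNat 75216000, .negSucc 74987519, .ofNat 29132160, .negSucc 4632959]),
  (156358813, [.ofNat 332981280, .negSucc 1085358839, .ofNat 1120546080, .negSucc 408026999, .ofNat 66111120]),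
  (156411621, [.negSucc 70603199, .ofNat 166384400, .negSucc 153937279, .ofNat 46543760, .negSucc 6888479]),
  (156415205, [.negSucc 43634879, .ofNat 105525520, .negSucc 93328959, .ofNat 26838160, .negSucc 3779519]),
  (156415261, [.negSucc 332981279, .ofNat 1085358840, .negSucc 1120546079, .ofNat 408027000, .negSucc 66111119]),
  (156415828, [.negSucc 2756159, .negSucc 6370319, .ofNat 10357440, .negSucc 4500239, .ofNat 792480]),
  (156416339, [.negSucc 23584319, .ofNat 54649200, .negSucc 50032319, .ofNat 18199920, .negSucc 2865119]),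
  (156419741, [.negSucc 99195839, .ofNat 249917840, .negSucc 226841599, .ofNat 68825360, .negSucc 10058399]),
  (156419755, [.negSucc 83738879, .ofNat 208338240, .negSucc 196063679, .ofNat 72815040, .negSucc 11582399]),
  (156419797, [.negSucc 70603199, .ofNat 166384400, .negSucc 153937279, .ofNat 46543760, .negSucc 6888479]),
  (156419923, [.negSucc 23584319, .ofNat 54649200, .negSucc 50032319, .ofNat 18199920, .negSucc 2865119]),
  (156580188, [.ofNat 15690240, .negSucc 40106879, .ofNat 45694080, .negSucc 18591359, .ofNat 3169920]),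
  (156583779, [.negSucc 480830399, .ofNat 1465322000, .negSucc 1494957919, .ofNat 546604880, .negSucc 89001599]),
  (156584675, [.ofNat 0, .negSucc 2580479, .ofNat 2995200, .ofNat 115200]),
  (156608300, [.ofNat 0, .ofNat 1520640, .negSucc 2424959, .ofNat 1455360, .negSucc 243839]),
  (156608741, [.negSucc 16692479, .negSucc 41041599, .ofNat 71117920, .negSucc 11209599, .ofNat 1767840]),
  (156608867, [.negSucc 33825599, .ofNat 98445360, .negSucc 98977919, .ofNat 37936560, .negSucc 6156959]),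
  (156616357, [.ofNat 30021120, .negSucc 19840959, .negSucc 6198319, .negSucc 4213599, .ofNat 457200]),
  (156644637, [.ofNat 62910720, .negSucc 152076479, .ofNat 140456640, .negSucc 52115519, .ofNat 8168640]),
  (156646051, [.negSucc 504192959, .ofNat 1544644880, .negSucc 1576427359, .ofNat 577109840, .negSucc 93878399]),
  (156653219, [.ofNat 55022400, .negSucc 139669679, .ofNat 135502080, .negSucc 48625199, .ofNat 7863840]),
  (156653331, [.ofNat 26418240, .negSucc 88825199, .ofNat 94212480, .negSucc 36196079, .ofNat 5913120]),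
  (170571564, [.ofNat 0, .negSucc 2903039, .ofNat 3580800, .negSucc 2522879, .ofNat 243840]),
  (170572075, [.negSucc 3064319, .ofNat 3830400, .negSucc 1777919, .ofNat 243840]),
  (170572579, [.negSucc 3064319, .ofNat 3830400, .negSucc 1777919, .ofNat 243840]),
  (170739564, [.negSucc 40625279, .ofNat 104617440, .negSucc 99705599, .ofNat 37797600, .negSucc 5974079]),
  (170740061, [.ofNat 10704960, .negSucc 9214319, .ofNat 10008000, .negSucc 4878959, .ofNat 914400]),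
  (170740523, [.ofNat 0, .negSucc 1359359, .ofNat 1466880, .negSucc 215039]),
  (170743589, [.ofNat 167460480, .negSucc 514156639, .ofNat 543367520, .negSucc 202142239, .ofNat 33467040]),
  (170744604, [.negSucc 8677439, .ofNat 25557360, .negSucc 26375999, .ofNat 10097520, .negSucc 1645919]),
  (170796908, [.negSucc 40625279, .ofNat 104617440, .negSucc 99705599, .ofNat 37797600, .negSucc 5974079]),
  (170797804, [.negSucc 142292159, .ofNat 460254160, .negSucc 476083359, .ofNat 172788880, .negSucc 27797759]),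
  (170797867, [.ofNat 1952640, .ofNat 213600, .negSucc 1038719, .ofNat 578400, .negSucc 121919]),
  (170805917, [.ofNat 134127360, .negSucc 409834559, .ofNat 402420480, .negSucc 134587199, .ofNat 20970240]),
  (170805973, [.ofNat 134127360, .negSucc 409834559, .ofNat 402420480, .negSucc 134587199, .ofNat 20970240]),
  (170809186, [.ofNat 0, .negSucc 11036159, .ofNat 10932480, .negSucc 3786239, .ofNat 487680]),
  (170809515, [.negSucc 1952639, .negSucc 582239, .ofNat 1301760, .negSucc 1949279, .ofNat 365760]),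
  (170810019, [.ofNat 17832960, .negSucc 60852479, .ofNat 72009600, .negSucc 30312959, .ofNat 5120640]),
  (170829605, [.ofNat 167460480, .negSucc 514156639, .ofNat 543367520, .negSucc 202142239, .ofNat 33467040]),
  (170830123, [.negSucc 176705279, .ofNat 501116480, .negSucc 505590079, .ofNat 185566400, .negSucc 30358079]),
  (170833189, [.negSucc 19382399, .ofNat 34771680, .negSucc 36383999, .ofNat 14976480, .negSucc 2560319]),
  (170837340, [.ofNat 0, .ofNat 10195200, .negSucc 11404799, .ofNat 4734720, .negSucc 731519]),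
  (170837676, [.ofNat 16312320, .negSucc 72459519, .ofNat 81498880, .negSucc 30895359, .ofNat 5120640]),
  (170837844, [.ofNat 0, .ofNat 10195200, .negSucc 11404799, .ofNat 4734720, .negSucc 731519]),
  (170838684, [.ofNat 52869600, .negSucc 187211079, .ofNat 194418880, .negSucc 70022919, .ofNat 11308080]),
  (170838740, [.ofNat 1820160, .negSucc 13722239, .ofNat 11596800, .negSucc 3361919, .ofNat 487680]),
  (170838803, [.ofNat 0, .negSucc 1359359, .ofNat 1466880, .negSucc 215039]),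
  (170842338, [.ofNat 0, .negSucc 2903039, .ofNat 3580800, .negSucc 2522879, .ofNat 243840]),
  (170998123, [.ofNat 14742720, .negSucc 34137039, .ofNat 34495360, .negSucc 10192719, .ofNat 1280160]),
  (170998501, [.ofNat 1820160, .negSucc 17615999, .ofNat 16360320, .negSucc 5831039, .ofNat 731520]),
  (171006173, [.negSucc 441434879, .ofNat 1388571840, .negSucc 1420271999, .ofNat 523611840, .negSucc 84978239]),
  (171026795, [.ofNat 14742720, .negSucc 34137039, .ofNat 34495360, .negSucc 10192719, .ofNat 1280160]),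
  (171027180, [.ofNat 151770240, .negSucc 449439839, .ofNat 446907840, .negSucc 152095199, .ofNat 23896320]),
  (171027229, [.ofNat 0, .negSucc 3041279, .ofNat 3029280, .negSucc 1312319, .ofNat 182880]),
  (171027292, [.negSucc 3496319, .negSucc 13822559, .ofNat 19614720, .negSucc 7920479, .ofNat 1341120]),
  (171031205, [.ofNat 101131200, .negSucc 308459279, .ofNat 311372160, .negSucc 116226959, .ofNat 19080480]),
  (171031317, [.ofNat 101131200, .negSucc 308459279, .ofNat 311372160, .negSucc 116226959, .ofNat 19080480]),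
  (171037932, [.ofNat 0, .negSucc 910079, .ofNat 606720, .negSucc 107519]),
  (171038373, [.ofNat 48240000, .negSucc 131064479, .ofNat 127459200, .negSucc 44096159, .ofNat 6827520]),
  (171038380, [.negSucc 1952639, .ofNat 10718880, .negSucc 9982079, .ofNat 3315360, .negSucc 365759]),
  (171038485, [.ofNat 4426560, .negSucc 34751279, .ofNat 37286880, .negSucc 16241519, .ofNat 2682240]),
  (171038877, [.ofNat 48240000, .negSucc 131064479, .ofNat 127459200, .negSucc 44096159, .ofNat 6827520]),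
  (171064042, [.ofNat 69442560, .negSucc 207279359, .ofNat 213512640, .negSucc 76813439, .ofNat 12557760]),
  (171071147, [.ofNat 16165440, .negSucc 31488239, .ofNat 28192320, .negSucc 10644719, .ofNat 1645920]),
  (171091741, [.negSucc 142292159, .ofNat 459516880, .negSucc 474121119, .ofNat 173391760, .negSucc 27797759]),
  (171092189, [.negSucc 441434879, .ofNat 1388571840, .negSucc 1420271999, .ofNat 523611840, .negSucc 84978239]),
  (171096732, [.ofNat 151770240, .negSucc 437366879, .ofNat 435407040, .negSucc 148093919, .ofNat 23408640]),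
  (171099987, [.ofNat 0, .ofNat 3317760, .negSucc 3922559, .ofNat 1754880, .negSucc 243839]),
  (171103907, [.ofNat 15082560, .negSucc 23195119, .ofNat 18519680, .negSucc 9357679, .ofNat 1889760]),
  (171104019, [.ofNat 15082560, .negSucc 23195119, .ofNat 18519680, .negSucc 9357679, .ofNat 1889760]),
  (171260252, [.ofNat 7490880, .negSucc 41692079, .ofNat 43286880, .negSucc 18021359, .ofNat 2926080]),
  (171288805, [.negSucc 12346559, .negSucc 2088879, .ofNat 8848000, .ofNat 866000, .negSucc 548639]),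
  (171288861, [.ofNat 25459200, .negSucc 72044159, .ofNat 74205120, .negSucc 28270079, .ofNat 4754880]),
  (171288931, [.ofNat 0, .ofNat 967680, .negSucc 825599, .negSucc 1797119, .ofNat 243840]),
  (171296421, [.ofNat 12346560, .ofNat 2088880, .negSucc 8847999, .negSucc 865999, .ofNat 548640]),
  (171297555, [.ofNat 0, .ofNat 3317760, .negSucc 3922559, .ofNat 1754880, .negSucc 243839]),
  (171301146, [.negSucc 15690239, .ofNat 35498880, .negSucc 41425919, .ofNat 16905600, .negSucc 2926079]),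
  (171321117, [.ofNat 89795520, .negSucc 279589519, .ofNat 290224160, .negSucc 111870799, .ofNat 18897600]),
  (171321187, [.ofNat 0, .negSucc 4809599, .ofNat 5131680, .negSucc 2327999, .ofNat 304800]),
  (171324701, [.negSucc 1952639, .negSucc 2039519, .ofNat 2860800, .negSucc 2200799, .ofNat 487680]),
  (171324764, [.ofNat 7490880, .negSucc 41692079, .ofNat 43286880, .negSucc 18021359, .ofNat 2926080]),
  (171325597, [.negSucc 12346559, .negSucc 1351599, .ofNat 8421760, .ofNat 866000, .negSucc 548639]),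
  (171325611, [.negSucc 62108639, .ofNat 163266760, .negSucc 154678719, .ofNat 54699400, .negSucc 8869679]),
  (171325674, [.ofNat 0, .negSucc 2350079, .ofNat 2826240, .ofNat 1927680]),
  (171326115, [.negSucc 25551359, .ofNat 51418240, .negSucc 45339519, .ofNat 18094720, .negSucc 2926079]),
  (171326227, [.ofNat 0, .negSucc 69119, .negSucc 218879, .ofNat 80640]),
  (171333395, [.ofNat 0, .negSucc 69119, .negSucc 218879, .ofNat 80640]),
  (171358364, [.negSucc 8677439, .ofNat 25557360, .negSucc 26375999, .ofNat 10097520, .negSucc 1645919]),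
  (172373868, [.ofNat 9838080, .negSucc 25111679, .ofNat 24161280, .negSucc 9029759, .ofNat 1463040]),
  (172377963, [.ofNat 9838080, .negSucc 25111679, .ofNat 24161280, .negSucc 9029759, .ofNat 1463040]),
  (172381932, [.ofNat 9838080, .negSucc 25111679, .ofNat 24161280, .negSucc 9029759, .ofNat 1463040]),
  (172804907, [.negSucc 3064319, .ofNat 3830400, .negSucc 1777919, .ofNat 243840]),
  (172898917, [.ofNat 312744960, .negSucc 966084479, .ofNat 990583200, .negSucc 362354879, .ofNat 58826400]),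
  (172899085, [.ofNat 312744960, .negSucc 966084479, .ofNat 990583200, .negSucc 362354879, .ofNat 58826400]),
  (172906827, [.negSucc 76959359, .ofNat 226654560, .negSucc 233341439, .ofNat 89593440, .negSucc 14752319]),
  (172931180, [.ofNat 251040960, .negSucc 864547919, .ofNat 911672640, .negSucc 331152719, .ofNat 53827680]),
  (172931404, [.ofNat 251040960, .negSucc 864547919, .ofNat 911672640, .negSucc 331152719, .ofNat 53827680]),
  (173197131, [.negSucc 14549759, .ofNat 28553280, .negSucc 28233599, .ofNat 11488320, .negSucc 1950719]),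
  (173393509, [.ofNat 0, .negSucc 2678399, .ofNat 3342720, .negSucc 1441919, .ofNat 243840]),
  (173394699, [.ofNat 9630720, .negSucc 29855999, .ofNat 30082560, .negSucc 12276479, .ofNat 1950720])]

/-- data -/
def lV11x3 : List (ℕ × List ℤ) := [(173430364, [.negSucc 86739839, .ofNat 227449760, .negSucc 230028799, .ofNat 81092000, .negSucc 13167359]),
  (174467820, [.ofNat 5601600, .ofNat 9182160, .negSucc 16344959, .ofNat 6791760, .negSucc 1158239]),
  (174467932, [.negSucc 141091199, .ofNat 349759520, .negSucc 331641919, .ofNat 113643680, .negSucc 17678399]),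
  (174467939, [.ofNat 350043840, .negSucc 1146077839, .ofNat 1185818960, .negSucc 426960559, .ofNat 69159120]),
  (174471978, [.negSucc 214928639, .ofNat 657778240, .negSucc 658914879, .ofNat 249661120, .negSucc 40721279]),
  (174472020, [.negSucc 70603199, .ofNat 166384400, .negSucc 153937279, .ofNat 46543760, .negSucc 6888479]),
  (174476010, [.negSucc 297751679, .ofNat 883599840, .negSucc 901165919, .ofNat 339161760, .negSucc 55290719]),
  (174478621, [.ofNat 8064000, .negSucc 13100159, .ofNat 9280320, .negSucc 3455999, .ofNat 731520]),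
  (174478635, [.ofNat 0, .negSucc 3133439, .ofNat 3431040, .negSucc 1612799, .ofNat 243840]),
  (174478684, [.ofNat 1952640, .ofNat 11134560, .negSucc 10377599, .ofNat 4495200, .negSucc 609599]),
  (174479125, [.ofNat 13063680, .negSucc 26833919, .ofNat 22169280, .negSucc 8311679, .ofNat 1463040]),
  (174479531, [.ofNat 8064000, .negSucc 25207679, .ofNat 22678080, .negSucc 8524799, .ofNat 1463040]),
  (174500069, [.ofNat 64618560, .negSucc 186430319, .ofNat 190371840, .negSucc 72852719, .ofNat 12009120]),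
  (174500125, [.negSucc 349655039, .ofNat 1121635840, .negSucc 1159237119, .ofNat 420052480, .negSucc 68031359]),
  (174500139, [.negSucc 158385599, .ofNat 540767760, .negSucc 569770559, .ofNat 213795600, .negSucc 34686239]),
  (174507293, [.ofNat 101131200, .negSucc 308459279, .ofNat 311372160, .negSucc 116226959, .ofNat 19080480]),
  (174507307, [.ofNat 15690240, .negSucc 38194559, .ofNat 43882560, .negSucc 17748479, .ofNat 3048000]),
  (174507797, [.ofNat 64618560, .negSucc 186430319, .ofNat 190371840, .negSucc 72852719, .ofNat 12009120]),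
  (174508707, [.ofNat 0, .ofNat 1359360, .negSucc 1992959, .ofNat 1777920, .negSucc 243839]),
  (174512291, [.ofNat 93067200, .negSucc 286298639, .ofNat 292756800, .negSucc 109274639, .ofNat 17739360]),
  (174512354, [.ofNat 4276800, .negSucc 61015919, .ofNat 74728320, .negSucc 27821039, .ofNat 4572000]),
  (174705484, [.negSucc 76959359, .ofNat 226654560, .negSucc 233341439, .ofNat 89593440, .negSucc 14752319]),
  (174725917, [.ofNat 110905920, .negSucc 314644079, .ofNat 314640960, .negSucc 115083119, .ofNat 18592800]),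
  (174725931, [.ofNat 8064000, .negSucc 17708159, .ofNat 14921280, .negSucc 5917439, .ofNat 975360]),
  (174733925, [.ofNat 503815680, .negSucc 1521453439, .ofNat 1551540800, .negSucc 559631359, .ofNat 90830400]),
  (174734093, [.ofNat 761705280, .negSucc 2359129519, .ofNat 2412893600, .negSucc 869774959, .ofNat 140817600]),
  (174740253, [.ofNat 142292160, .negSucc 457178319, .ofNat 471544000, .negSucc 171708879, .ofNat 27492960]),
  (174741261, [.ofNat 353894400, .negSucc 1166640639, .ofNat 1208627680, .negSucc 439622079, .ofNat 70896480]),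
  (174741611, [.ofNat 0, .negSucc 506879, .ofNat 665280, .negSucc 278399, .ofNat 121920]),
  (174758124, [.negSucc 18080639, .ofNat 27052320, .negSucc 18915839, .ofNat 6270240, .negSucc 975359]),
  (174758236, [.negSucc 16127999, .ofNat 31113600, .negSucc 25618559, .ofNat 9763200, .negSucc 1584959]),
  (174766181, [.ofNat 1820160, .negSucc 6579839, .ofNat 5427840, .negSucc 2044799, .ofNat 243840]),
  (174768988, [.ofNat 96004800, .negSucc 327363279, .ofNat 344683360, .negSucc 127474959, .ofNat 20726400]),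
  (174768995, [.negSucc 414247679, .ofNat 1254865600, .negSucc 1281194559, .ofNat 456043840, .negSucc 73639679]),
  (174769772, [.negSucc 414247679, .ofNat 1252192960, .negSucc 1277606079, .ofNat 454381120, .negSucc 73395839]),
  (174770780, [.ofNat 0, .negSucc 3980159, .ofNat 4459680, .negSucc 231359, .ofNat 60960]),
  (174774364, [.negSucc 297751679, .ofNat 883599840, .negSucc 901165919, .ofNat 339161760, .negSucc 55290719]),
  (174987941, [.negSucc 6252479, .negSucc 20192879, .ofNat 29972160, .negSucc 12420719, .ofNat 2133600]),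
  (174991973, [.negSucc 6252479, .negSucc 20192879, .ofNat 29972160, .negSucc 12420719, .ofNat 2133600]),
  (175002277, [.ofNat 15693120, .negSucc 34624559, .ofNat 32308800, .negSucc 11868719, .ofNat 1889760]),
  (175002389, [.ofNat 29476800, .negSucc 46834319, .ofNat 36848640, .negSucc 12744719, .ofNat 1889760]),
  (175002893, [.ofNat 24477120, .negSucc 33100559, .ofNat 23959680, .negSucc 7889039, .ofNat 1158240]),
  (175003789, [.ofNat 15693120, .negSucc 34624559, .ofNat 32308800, .negSucc 11868719, .ofNat 1889760]),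
  (175020204, [.ofNat 350043840, .negSucc 1146077839, .ofNat 1185818960, .negSucc 426960559, .ofNat 69159120]),
  (175030956, [.ofNat 0, .negSucc 7130879, .ofNat 7592640, .negSucc 3830399, .ofNat 609600]),
  (175031061, [.negSucc 19339199, .ofNat 86169360, .negSucc 93538559, .ofNat 37030800, .negSucc 6035039]),
  (175032972, [.ofNat 17832960, .negSucc 67983359, .ofNat 79602240, .negSucc 34143359, .ofNat 5730240]),
  (175156011, [.ofNat 0, .negSucc 679679, .ofNat 239040, .negSucc 462719, .ofNat 121920]),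
  (175156060, [.ofNat 5279040, .negSucc 7671599, .ofNat 7588800, .negSucc 2284079, .ofNat 426720]),
  (175159980, [.ofNat 36557280, .negSucc 117573959, .ofNat 115881600, .negSucc 39851399, .ofNat 6309360]),
  (175160106, [.negSucc 242246879, .ofNat 792902920, .negSucc 808745919, .ofNat 302247880, .negSucc 49225199]),
  (175160162, [.negSucc 87995519, .ofNat 280946720, .negSucc 286018159, .ofNat 99153920, .negSucc 15880079]),
  (175164250, [.ofNat 12625920, .negSucc 36276479, .ofNat 43916160, .negSucc 18347519, .ofNat 3169920]),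
  (175167253, [.ofNat 0, .negSucc 218879, .ofNat 337920, .ofNat 1378560, .negSucc 243839]),
  (175167316, [.negSucc 64061279, .ofNat 153007720, .negSucc 144951039, .ofNat 52145320, .negSucc 8381999]),
  (175167827, [.ofNat 0, .ofNat 1843200, .negSucc 1709759, .ofNat 1123200, .negSucc 121919]),
  (175167834, [.ofNat 0, .ofNat 737280, .negSucc 426239]),
  (175196779, [.ofNat 0, .negSucc 829439, .ofNat 1558080, .negSucc 739199, .ofNat 121920]),
  (175196877, [.negSucc 49230719, .ofNat 93568800, .negSucc 83523839, .ofNat 28146720, .negSucc 4511039]),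
  (175200076, [.ofNat 20188800, .negSucc 62287199, .ofNat 60785280, .negSucc 22362719, .ofNat 3535680]),
  (175200587, [.ofNat 0, .ofNat 1520640, .negSucc 2424959, .ofNat 1455360, .negSucc 243839]),
  (175217317, [.ofNat 169672320, .negSucc 503908319, .ofNat 507197760, .negSucc 176949599, .ofNat 28041600]),
  (175231786, [.ofNat 265826880, .negSucc 887757039, .ofNat 925648000, .negSucc 333957999, .ofNat 53827680]),
  (175231828, [.ofNat 4426560, .negSucc 37101359, .ofNat 40113120, .negSucc 14313839, .ofNat 2682240]),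
  (175232269, [.negSucc 62108639, .ofNat 166169800, .negSucc 158259519, .ofNat 57222280, .negSucc 9113519]),
  (175233130, [.ofNat 265826880, .negSucc 887757039, .ofNat 925648000, .negSucc 333957999, .ofNat 53827680]),
  (175281941, [.negSucc 49844159, .ofNat 165515280, .negSucc 170216639, .ofNat 65475600, .negSucc 10911839]),
  (175282515, [.negSucc 414247679, .ofNat 1257538240, .negSucc 1284783039, .ofNat 457706560, .negSucc 73883519]),
  (175286092, [.ofNat 0, .ofNat 725760, .negSucc 175199, .negSucc 33599, .ofNat 60960]),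
  (175289130, [.ofNat 0, .ofNat 2822400, .negSucc 2961599, .ofNat 723840, .negSucc 121919]),
  (175289172, [.ofNat 61813440, .negSucc 184731599, .ofNat 184752000, .negSucc 70585679, .ofNat 11399520]),
  (175290978, [.negSucc 49230719, .ofNat 103764000, .negSucc 94928639, .ofNat 32881440, .negSucc 5242559]),
  (175293267, [.ofNat 0, .negSucc 69119, .negSucc 218879, .ofNat 80640]),
  (175293533, [.ofNat 3640320, .negSucc 15694079, .ofNat 12756480, .negSucc 3720959, .ofNat 487680]),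
  (175293771, [.ofNat 34701120, .negSucc 90231599, .ofNat 92549760, .negSucc 37629359, .ofNat 6035040]),
  (175294037, [.negSucc 142292159, .ofNat 461383120, .negSucc 476253279, .ofNat 173885200, .negSucc 27919679]),
  (175417629, [.ofNat 25459200, .negSucc 72044159, .ofNat 74205120, .negSucc 28270079, .ofNat 4754880]),
  (175421605, [.negSucc 93067199, .ofNat 286298640, .negSucc 292756799, .ofNat 109274640, .negSucc 17739359]),
  (175421612, [.ofNat 8064000, .negSucc 13100159, .ofNat 9280320, .negSucc 3455999, .ofNat 731520]),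
  (175421738, [.ofNat 52263360, .negSucc 133664399, .ofNat 128307840, .negSucc 48283919, .ofNat 7741920]),
  (175421794, [.negSucc 414247679, .ofNat 1246415680, .negSucc 1271648799, .ofNat 453850240, .negSucc 73334879]),
  (175425301, [.ofNat 54822240, .negSucc 174267879, .ofNat 181448320, .negSucc 63567399, .ofNat 10332720]),
  (175425322, [.ofNat 0, .ofNat 8818560, .negSucc 8986559, .ofNat 1843200, .negSucc 243839]),
  (175429795, [.ofNat 0, .negSucc 2695679, .ofNat 2456640, .negSucc 842879, .ofNat 121920]),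
  (175457067, [.ofNat 3640320, .negSucc 15694079, .ofNat 12756480, .negSucc 3720959, .ofNat 487680]),
  (175458061, [.negSucc 184962239, .ofNat 593121360, .negSucc 597652799, .ofNat 226873680, .negSucc 37002719]),
  (175459083, [.ofNat 307163520, .negSucc 996101279, .ofNat 1040058240, .negSucc 380952479, .ofNat 61813440]),
  (175478949, [.ofNat 0, .negSucc 552959, .ofNat 754560, .negSucc 4450559, .ofNat 243840]),
  (175478956, [.ofNat 10393920, .negSucc 687919, .negSucc 5560959, .negSucc 3066799, .ofNat 1036320]),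
  (175482981, [.ofNat 0, .negSucc 506879, .ofNat 665280, .negSucc 278399, .ofNat 121920]),
  (175483212, [.ofNat 0, .negSucc 3133439, .ofNat 3431040, .negSucc 1612799, .ofNat 243840]),
  (175489834, [.ofNat 1952640, .negSucc 466079, .negSucc 305279, .ofNat 470880, .negSucc 121919]),
  (175489890, [.ofNat 240217920, .negSucc 822252719, .ofNat 866514240, .negSucc 311033519, .ofNat 50413920]),
  (175490380, [.ofNat 52869600, .negSucc 187211079, .ofNat 194418880, .negSucc 70022919, .ofNat 11308080]),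
  (175491157, [.negSucc 69177599, .ofNat 183613760, .negSucc 183871999, .ofNat 62688320, .negSucc 10119359]),
  (175511317, [.ofNat 61813440, .negSucc 184731599, .ofNat 184752000, .negSucc 70585679, .ofNat 11399520]),
  (175515468, [.ofNat 0, .negSucc 3133439, .ofNat 3431040, .negSucc 1612799, .ofNat 243840]),
  (175515979, [.ofNat 15690240, .negSucc 41327999, .ofNat 47313600, .negSucc 19361279, .ofNat 3291840]),
  (175516427, [.ofNat 0, .negSucc 3133439, .ofNat 3431040, .negSucc 1612799, .ofNat 243840]),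
  (175526675, [.ofNat 8064000, .negSucc 14390399, .ofNat 10998720, .negSucc 4162559, .ofNat 731520])]

/-- data -/
def lV11x4 : List (ℕ × List ℤ) := [(175527508, [.ofNat 1820160, .negSucc 14229119, .ofNat 12262080, .negSucc 3640319, .ofNat 609600]),
  (176532204, [.ofNat 510379200, .negSucc 1554890319, .ofNat 1584039040, .negSucc 569198799, .ofNat 92110560]),
  (176532267, [.ofNat 93067200, .negSucc 296493839, .ofNat 304161600, .negSucc 114009359, .ofNat 18470880]),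
  (176532316, [.negSucc 70487999, .ofNat 183375120, .negSucc 177704639, .ofNat 67099920, .negSucc 10789919]),
  (176536236, [.ofNat 4276800, .negSucc 61015919, .ofNat 74728320, .negSucc 27821039, .ofNat 4572000]),
  (176536362, [.ofNat 93067200, .negSucc 286298639, .ofNat 292756800, .negSucc 109274639, .ofNat 17739360]),
  (176543530, [.ofNat 34701120, .negSucc 90231599, .ofNat 92549760, .negSucc 37629359, .ofNat 6035040]),
  (176569045, [.ofNat 4426560, .negSucc 34751279, .ofNat 37286880, .negSucc 16241519, .ofNat 2682240]),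
  (176576213, [.negSucc 19339199, .ofNat 86169360, .negSucc 93538559, .ofNat 37030800, .negSucc 6035039]),
  (176596716, [.negSucc 136137599, .ofNat 394563680, .negSucc 395749999, .ofNat 140770880, .negSucc 22463759]),
  (176604829, [.negSucc 372360959, .ofNat 1212956480, .negSucc 1261694719, .ofNat 458861120, .negSucc 74980799]),
  (176604885, [.ofNat 4999680, .negSucc 13733759, .ofNat 12888960, .negSucc 4855679, .ofNat 731520]),
  (176605018, [.ofNat 304701120, .negSucc 965587919, .ofNat 1004850240, .negSucc 367039439, .ofNat 59557920]),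
  (176804637, [.negSucc 1952639, .ofNat 97440, .ofNat 568320, .negSucc 1841759, .ofNat 365760]),
  (176804700, [.ofNat 414247680, .negSucc 1250395839, .ofNat 1276108480, .negSucc 454081599, .ofNat 73395840]),
  (176805477, [.ofNat 0, .negSucc 3536639, .ofNat 3730560, .ofNat 1186560, .ofNat 243840]),
  (176806093, [.ofNat 245819520, .negSucc 816947039, .ofNat 853984320, .negSucc 305645279, .ofNat 49621440]),
  (176838349, [.negSucc 3064319, .ofNat 3830400, .negSucc 1777919, .ofNat 243840]),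
  (176861932, [.negSucc 142292159, .ofNat 461383120, .negSucc 476253279, .ofNat 173885200, .negSucc 27919679]),
  (176861995, [.ofNat 79401600, .negSucc 278901599, .ofNat 295785120, .negSucc 108803999, .ofNat 17861280]),
  (176863339, [.ofNat 0, .ofNat 5379840, .negSucc 5606399, .ofNat 2995200, .negSucc 487679]),
  (176863563, [.ofNat 57209760, .negSucc 164352599, .ofNat 158577600, .negSucc 55652759, .ofNat 8808720]),
  (176863836, [.negSucc 142292159, .ofNat 461383120, .negSucc 476253279, .ofNat 173885200, .negSucc 27919679]),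
  (176863843, [.ofNat 0, .ofNat 4204800, .negSucc 4709279, .ofNat 2176320, .negSucc 426719]),
  (176867021, [.ofNat 9630720, .negSucc 29855999, .ofNat 30082560, .negSucc 12276479, .ofNat 1950720]),
  (176867147, [.ofNat 20652480, .negSucc 49601039, .ofNat 45657600, .negSucc 16525199, .ofNat 2621280]),
  (176990956, [.ofNat 0, .negSucc 967679, .ofNat 1590720, .negSucc 412799, .ofNat 121920]),
  (176995170, [.ofNat 21467520, .negSucc 53557919, .ofNat 53909760, .negSucc 20280479, .ofNat 3291840]),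
  (176999251, [.ofNat 356417280, .negSucc 1198031679, .ofNat 1248406720, .negSucc 456506559, .ofNat 73639680]),
  (176999258, [.ofNat 138208320, .negSucc 441076079, .ofNat 461862720, .negSucc 171112559, .ofNat 27980640]),
  (177002709, [.negSucc 49844159, .ofNat 165515280, .negSucc 170216639, .ofNat 65475600, .negSucc 10911839]),
  (177002835, [.negSucc 94052159, .ofNat 331585840, .negSucc 351818079, .ofNat 130645360, .negSucc 21335999]),
  (177002842, [.negSucc 142292159, .ofNat 467367760, .negSucc 482282079, .ofNat 177032080, .negSucc 28285439]),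
  (177027685, [.negSucc 455083199, .ofNat 1367429840, .negSucc 1389755839, .ofNat 496080080, .negSucc 80284319]),
  (177027853, [.negSucc 455083199, .ofNat 1367429840, .negSucc 1389755839, .ofNat 496080080, .negSucc 80284319]),
  (177027916, [.negSucc 14549759, .ofNat 28553280, .negSucc 28233599, .ofNat 11488320, .negSucc 1950719]),
  (177031787, [.ofNat 0, .negSucc 2741759, .ofNat 3369600, .negSucc 1582079, .ofNat 243840]),
  (177035084, [.ofNat 20188800, .negSucc 62287199, .ofNat 60785280, .negSucc 22362719, .ofNat 3535680]),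
  (177035595, [.negSucc 94052159, .ofNat 331585840, .negSucc 351818079, .ofNat 130645360, .negSucc 21335999]),
  (177085085, [.negSucc 1952639, .negSucc 12574559, .ofNat 12707520, .negSucc 5084639, .ofNat 731520]),
  (177085267, [.negSucc 9725759, .ofNat 30978480, .negSucc 32927999, .ofNat 12360240, .negSucc 2011679]),
  (177099421, [.ofNat 0, .ofNat 737280, .negSucc 426239]),
  (177099477, [.negSucc 88067519, .ofNat 281625360, .negSucc 286349279, .ofNat 107246160, .negSucc 17312639]),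
  (177100107, [.ofNat 1952640, .negSucc 11502239, .ofNat 10627200, .negSucc 3315359, .ofNat 365760]),
  (177117397, [.ofNat 0, .ofNat 1440000, .negSucc 2329919, .ofNat 589440, .negSucc 121919]),
  (177117523, [.negSucc 75479039, .ofNat 187520640, .negSucc 176263679, .ofNat 67125120, .negSucc 10850879]),
  (177117908, [.ofNat 418674240, .negSucc 1285147119, .ofNat 1313395360, .negSucc 470323119, .ofNat 76078080]),
  (177121611, [.ofNat 0, .ofNat 2822400, .negSucc 2961599, .ofNat 723840, .negSucc 121919]),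
  (177124138, [.ofNat 16603200, .negSucc 51381999, .ofNat 53598400, .negSucc 19640559, .ofNat 2987040]),
  (177128149, [.ofNat 4999680, .negSucc 13733759, .ofNat 12888960, .negSucc 4855679, .ofNat 731520]),
  (177128275, [.negSucc 75479039, .ofNat 186414720, .negSucc 174438719, .ofNat 65629440, .negSucc 10485119]),
  (177314461, [.negSucc 158385599, .ofNat 540767760, .negSucc 569770559, .ofNat 213795600, .negSucc 34686239]),
  (177328797, [.negSucc 164079359, .ofNat 464840000, .negSucc 461673919, .ofNat 167218880, .negSucc 27188159]),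
  (177328853, [.ofNat 138208320, .negSucc 441076079, .ofNat 461862720, .negSucc 171112559, .ofNat 27980640]),
  (177383019, [.negSucc 349655039, .ofNat 1121635840, .negSucc 1159237119, .ofNat 420052480, .negSucc 68031359]),
  (177386827, [.ofNat 364481280, .negSucc 1210025919, .ofNat 1255862080, .negSucc 458466879, .ofNat 74005440]),
  (177388234, [.ofNat 69442560, .negSucc 207279359, .ofNat 213512640, .negSucc 76813439, .ofNat 12557760]),
  (177518805, [.negSucc 99069119, .ofNat 346342480, .negSucc 362247039, .ofNat 132249040, .negSucc 21396959]),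
  (177522333, [.negSucc 352434239, .ofNat 1061684080, .negSucc 1086896799, .ofNat 383264560, .negSucc 61935359]),
  (177522389, [.ofNat 52263360, .negSucc 133664399, .ofNat 128307840, .negSucc 48283919, .ofNat 7741920]),
  (177551565, [.negSucc 666668159, .ofNat 1999808480, .negSucc 2029741279, .ofNat 734091680, .negSucc 118689119]),
  (177551691, [.ofNat 0, .ofNat 725760, .negSucc 175199, .negSucc 33599, .ofNat 60960]),
  (177576275, [.negSucc 93067199, .ofNat 296465040, .negSucc 303916799, .ofNat 114266640, .negSucc 18714719]),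
  (177580363, [.ofNat 0, .negSucc 3133439, .ofNat 3431040, .negSucc 1612799, .ofNat 243840]),
  (177615573, [.ofNat 1820160, .negSucc 13722239, .ofNat 11596800, .negSucc 3361919, .ofNat 487680]),
  (177615979, [.ofNat 414247680, .negSucc 1254612159, .ofNat 1281690880, .negSucc 456295359, .ofNat 73761600]),
  (177616203, [.negSucc 77448959, .ofNat 280203840, .negSucc 298219679, .ofNat 111004800, .negSucc 18348959]),
  (177617498, [.negSucc 666668159, .ofNat 1999808480, .negSucc 2029741279, .ofNat 734091680, .negSucc 118689119]),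
  (178633058, [.ofNat 56643840, .negSucc 140744639, .ofNat 140371200, .negSucc 51975359, .ofNat 8534400]),
  (178641171, [.ofNat 53749440, .negSucc 172737359, .ofNat 177296640, .negSucc 68625359, .ofNat 11033760]),
  (178661100, [.negSucc 136137599, .ofNat 394563680, .negSucc 395749999, .ofNat 140770880, .negSucc 22463759]),
  (178666259, [.negSucc 75479039, .ofNat 185124480, .negSucc 173069759, .ofNat 65172480, .negSucc 10485119]),
  (178669213, [.ofNat 56643840, .negSucc 140744639, .ofNat 140371200, .negSucc 51975359, .ofNat 8534400]),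
  (178673427, [.negSucc 75479039, .ofNat 186414720, .negSucc 174438719, .ofNat 65629440, .negSucc 10485119]),
  (178698515, [.negSucc 9725759, .ofNat 30978480, .negSucc 32927999, .ofNat 12360240, .negSucc 2011679]),
  (178897644, [.negSucc 27318239, .ofNat 132302280, .negSucc 146869439, .ofNat 51862920, .negSucc 8381999]),
  (178897756, [.ofNat 0, .ofNat 910080, .negSucc 606719, .ofNat 107520]),
  (178898533, [.negSucc 21542399, .ofNat 70162560, .negSucc 73046399, .ofNat 28575360, .negSucc 4632959]),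
  (178899051, [.ofNat 0, .negSucc 2678399, .ofNat 3342720, .negSucc 1441919, .ofNat 243840]),
  (178927723, [.ofNat 122569920, .negSucc 400173519, .ofNat 411956320, .negSucc 146302479, .ofNat 23530560]),
  (179091754, [.ofNat 8775360, .ofNat 6150960, .negSucc 12025919, .ofNat 5636400, .negSucc 914399]),
  (179096339, [.negSucc 101131199, .ofNat 308459280, .negSucc 311372159, .ofNat 116226960, .negSucc 19080479]),
  (179099923, [.negSucc 26182079, .ofNat 96215120, .negSucc 101266159, .ofNat 28568240, .negSucc 4480559]),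
  (179128077, [.negSucc 184962239, .ofNat 593121360, .negSucc 597652799, .ofNat 226873680, .negSucc 37002719]),
  (179182355, [.negSucc 8063999, .ofNat 10704000, .negSucc 6086399, .ofNat 1503360, .negSucc 365759]),
  (179226826, [.ofNat 19722240, .negSucc 61048319, .ofNat 65717760, .negSucc 26899199, .ofNat 4389120]),
  (179349228, [.ofNat 21467520, .negSucc 53557919, .ofNat 53909760, .negSucc 20280479, .ofNat 3291840]),
  (179354387, [.negSucc 93067199, .ofNat 296465040, .negSucc 303916799, .ofNat 114266640, .negSucc 18714719])]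

/-- the sum of the part -/
def lV11 : List (ℕ × List ℤ) := lV11x0 ++ (lV11x1 ++ (lV11x2 ++ (lV11x3 ++ (lV11x4))))

theorem okV11 : dV11.all (rok tbF 20) = true := by decide +kernel

theorem sumV11 : aeq (fz (sumT tbF dV11)) lV11 = true := by decide +kernel

end Pool.Agent.H.MP_e16c79_al.IS
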