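import Pool.Agent.H.MP_e16c79_al.IS.PassK
import Pool.Agent.H.MP_e16c79_al.IS.BLet

/-!
# MP_e16c79_al: Jordan polynomials as sums of words
-/

set_option autoImplicit false

namespace Pool.Agent.H.MP_e16c79_al.IS

open Finset SP

/-- sums of words with coefficients -/
structure Wp : Type where
  l : List (ℤ × List ℕ)

namespace Wp

/-- the product `p q + q p` -/
def mulL (p q : List (ℤ × List ℕ)) : List (ℤ × List ℕ) :=
  p.flatMap fun a => q.flatMap fun b => [(a.1 * b.1, a.2 ++ b.2), (a.1 * b.1, b.2 ++ a.2)]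

instance : Add Wp := ⟨fun p q => ⟨p.l ++ q.l⟩⟩
instance : Sub Wp := ⟨fun p q => ⟨p.l ++ q.l.map fun a => (-a.1, a.2)⟩⟩
instance : Mul Wp := ⟨fun p q => ⟨mulL p.l q.l⟩⟩
instance : SMul ℤ Wp := ⟨fun c p => ⟨p.l.map fun a => (c * a.1, a.2)⟩⟩

/-- a letter -/
def w (k : ℕ) : Wp := ⟨[(1, [k])]⟩

variable {M : Type*} [AddCommGroup M]

/-- the sum of the values of `f` -/
def ev (f : List ℕ → M) (p : Wp) : M := (p.l.map fun a => a.1 • f a.2).sum

theorem ev_add (f : List ℕ → M) (p q : Wp) : ev f (p + q) = ev f p + ev f q := by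
  show ((p.l ++ q.l).map fun a => a.1 • f a.2).sum = _
  rw [List.map_append, List.sum_append]
  rfl

theorem ev_smul (f : List ℕ → M) (c : ℤ) (p : Wp) : ev f (c • p) = c • ev f p := by
  show ((p.l.map fun a => (c * a.1, a.2)).map fun a => a.1 • f a.2).sum =
    c • (p.l.map fun a => a.1 • f a.2).sum
  generalize p.l = l
  induction l with
  | nil => simp
  | cons a l ih =>
    rw [List.map_cons, List.map_cons, List.sum_cons, ih, List.map_cons, List.sum_cons, smul_add,
      mul_smul]

theorem ev_sub (f : List ℕ → M) (p q : Wp) : ev f (p - q) = ev f p - ev f q := by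
  show ((p.l ++ q.l.map fun a => (-a.1, a.2)).map fun a => a.1 • f a.2).sum = _
  rw [List.map_append, List.sum_append, sub_eq_add_neg]
  congr 1
  show _ = -(q.l.map fun a => a.1 • f a.2).sum
  generalize q.l = l
  induction l with
  | nil => simp
  | cons a l ih =>
    rw [List.map_cons, List.map_cons, List.sum_cons, ih, List.map_cons, List.sum_cons, neg_add,
      neg_smul]

theorem ev_zero (p : Wp) : ev (fun _ => (0 : M)) p = 0 := by
  show (p.l.map fun a => a.1 • (0 : M)).sum = 0
  generalize p.l = l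
  induction l with
  | nil => rfl
  | cons a l ih => rw [List.map_cons, List.sum_cons, ih, smul_zero, add_zero]

theorem ev_fadd (f g : List ℕ → M) (p : Wp) : ev (fun u => f u + g u) p = ev f p + ev g p := by
  show (p.l.map fun a => a.1 • (f a.2 + g a.2)).sum = (p.l.map fun a => a.1 • f a.2).sum +
    (p.l.map fun a => a.1 • g a.2).sum
  generalize p.l = l
  induction l with
  | nil => simp
  | cons a l ih =>
    rw [List.map_cons, List.sum_cons, ih, List.map_cons, List.sum_cons, List.map_cons,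
      List.sum_cons, smul_add]
    abel

/-- additive maps -/
theorem ev_map {M' : Type*} [AddCommGroup M'] (g : M →+ M') (f : List ℕ → M) (p : Wp) :
    ev (fun u => g (f u)) p = g (ev f p) := by
  show (p.l.map fun a => a.1 • g (f a.2)).sum = g (p.l.map fun a => a.1 • f a.2).sum
  generalize p.l = l
  induction l with
  | nil => simp
  | cons a l ih =>
    rw [List.map_cons, List.sum_cons, ih, List.map_cons, List.sum_cons, map_add, map_zsmul]

theorem ev_congr {f g : List ℕ → M} {p : Wp} (h : ∀ a ∈ p.l, f a.2 = g a.2) :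
    ev f p = ev g p := by
  unfold ev
  congr 1
  refine List.map_congr_left fun a ha => ?_
  rw [h a ha]

theorem ev_sum {ι : Type*} (s : Finset ι) (f : ι → List ℕ → M) (p : Wp) :
    ev (fun u => ∑ i ∈ s, f i u) p = ∑ i ∈ s, ev (f i) p := by
  show (p.l.map fun a => a.1 • ∑ i ∈ s, f i a.2).sum =
    ∑ i ∈ s, (p.l.map fun a => a.1 • f i a.2).sum
  generalize p.l = l
  induction l with
  | nil => simp
  | cons a l ih =>
    rw [List.map_cons, List.sum_cons, ih, smul_sum, ← sum_add_distrib]
    refine sum_congr rfl fun i _ => ?_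
    rw [List.map_cons, List.sum_cons]

theorem ev_mul (f : List ℕ → M) (p q : Wp) :
    ev f (p * q) = ev (fun u => ev (fun v => f (u ++ v) + f (v ++ u)) q) p := by
  show ((mulL p.l q.l).map fun a => a.1 • f a.2).sum =
    (p.l.map fun a => a.1 • (q.l.map fun b => b.1 • (f (a.2 ++ b.2) + f (b.2 ++ a.2))).sum).sum
  unfold mulL
  generalize p.l = l
  induction l with
  | nil => rfl
  | cons a l ih =>
    rw [List.flatMap_cons, List.map_append, List.sum_append, ih, List.map_cons, List.sum_cons]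
    congr 1
    clear ih
    generalize q.l = k
    induction k with
    | nil => simp
    | cons b k ih =>
      rw [List.flatMap_cons, List.map_append, List.sum_append, ih]
      show ((a.1 * b.1) • f (a.2 ++ b.2) + ((a.1 * b.1) • f (b.2 ++ a.2) + 0)) +
          a.1 • (List.map (fun b => b.1 • (f (a.2 ++ b.2) + f (b.2 ++ a.2))) k).sum =
        a.1 • (b.1 • (f (a.2 ++ b.2) + f (b.2 ++ a.2)) +
          (List.map (fun b => b.1 • (f (a.2 ++ b.2) + f (b.2 ++ a.2))) k).sum)
      rw [add_zero, ← smul_add, mul_smul, ← smul_add]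

/-- the value in a ring is `r` -/
def Vl {R : Type*} [Ring R] (Y : ℕ → R) (p : Wp) (r : St R) : Prop :=
  ev (fun u => (u.map Y).prod) p = r.v

section Vl

variable {R : Type*} [Ring R] {Y : ℕ → R}

theorem Vl.var (k : ℕ) : Vl Y (w k) ⟨Y k⟩ := by
  show (1 : ℤ) • (Y k * 1) + 0 = Y k
  rw [add_zero, one_smul, mul_one]

theorem Vl.add {p q : Wp} {r s : St R} (h1 : Vl Y p r) (h2 : Vl Y q s) : Vl Y (p + q) (r + s) := by
  have e1 : ev (fun u => (u.map Y).prod) p = r.v := h1
  have e2 : ev (fun u => (u.map Y).prod) q = s.v := h2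
  show ev (fun u => (u.map Y).prod) (p + q) = r.v + s.v
  rw [ev_add, e1, e2]

theorem Vl.sub {p q : Wp} {r s : St R} (h1 : Vl Y p r) (h2 : Vl Y q s) : Vl Y (p - q) (r - s) := by
  have e1 : ev (fun u => (u.map Y).prod) p = r.v := h1
  have e2 : ev (fun u => (u.map Y).prod) q = s.v := h2
  show ev (fun u => (u.map Y).prod) (p - q) = r.v - s.v
  rw [ev_sub, e1, e2]

theorem Vl.smul (c : ℤ) {p : Wp} {r : St R} (h1 : Vl Y p r) : Vl Y (c • p) (c • r) := by
  have e1 : ev (fun u => (u.map Y).prod) p = r.v := h1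
  show ev (fun u => (u.map Y).prod) (c • p) = c • r.v
  rw [ev_smul, e1]

theorem Vl.mul {p q : Wp} {r s : St R} (h1 : Vl Y p r) (h2 : Vl Y q s) : Vl Y (p * q) (r * s) := by
  have e1 : ev (fun u => (u.map Y).prod) p = r.v := h1
  have e2 : ev (fun u => (u.map Y).prod) q = s.v := h2
  show ev (fun u => (u.map Y).prod) (p * q) = r.v * s.v + s.v * r.v
  rw [ev_mul]
  have e3 : ∀ u : List ℕ, ev (fun v => ((u ++ v).map Y).prod + ((v ++ u).map Y).prod) q =
      (u.map Y).prod * s.v + s.v * (u.map Y).prod := by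
    intro u
    rw [ev_fadd, ← e2]
    congr 1
    · refine Eq.trans ?_ (ev_map (AddMonoidHom.mulLeft (u.map Y).prod) _ q)
      congr 1
      funext v
      rw [List.map_append, List.prod_append]
      rfl
    · refine Eq.trans ?_ (ev_map (AddMonoidHom.mulRight (u.map Y).prod) _ q)
      congr 1
      funext v
      rw [List.map_append, List.prod_append]
      rfl
  rw [show (fun u : List ℕ => ev (fun v => ((u ++ v).map Y).prod + ((v ++ u).map Y).prod) q) =
    fun u => (u.map Y).prod * s.v + s.v * (u.map Y).prod from funext e3, ev_fadd, ← e1]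
  congr 1
  · exact ev_map (AddMonoidHom.mulRight s.v) _ p
  · exact ev_map (AddMonoidHom.mulLeft s.v) _ p

end Vl

/-- closed under reversal -/
def Rv (M : Type*) [AddCommGroup M] (p : Wp) : Prop :=
  ∀ f : List ℕ → M, ev (fun u => f u.reverse) p = ev f p

theorem Rv.var (k : ℕ) : Rv M (w k) := fun _ => rfl

theorem Rv.add {p q : Wp} (h1 : Rv M p) (h2 : Rv M q) : Rv M (p + q) := fun f => by
  rw [ev_add, ev_add, h1 f, h2 f]

theorem Rv.sub {p q : Wp} (h1 : Rv M p) (h2 : Rv M q) : Rv M (p - q) := fun f => by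
  rw [ev_sub, ev_sub, h1 f, h2 f]

theorem Rv.smul (c : ℤ) {p : Wp} (h1 : Rv M p) : Rv M (c • p) := fun f => by
  rw [ev_smul, ev_smul, h1 f]

theorem Rv.mul {p q : Wp} (h1 : Rv M p) (h2 : Rv M q) : Rv M (p * q) := fun f => by
  rw [ev_mul, ev_mul, ← h1 (fun u => ev (fun v => f (u ++ v) + f (v ++ u)) q)]
  congr 1
  funext u
  rw [← h2 (fun v => f (u.reverse ++ v) + f (v ++ u.reverse))]
  congr 1
  funext v
  rw [List.reverse_append, List.reverse_append, add_comm]

/-- the words are permutations of `0, .., 4` -/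
def five (p : Wp) : Bool :=
  p.l.all fun a => (a.2.length == 5) && ((a.2.contains 0 && a.2.contains 1) &&
    ((a.2.contains 2 && a.2.contains 3) && a.2.contains 4))

theorem five_iff {p : Wp} (h : p.five = true) : ∀ a ∈ p.l, a.2.Perm [0, 1, 2, 3, 4] := by
  intro a ha
  unfold five at h
  rw [List.all_eq_true] at h
  have h1 := h a ha
  simp only [Bool.and_eq_true, List.contains_iff_mem, beq_iff_eq] at h1
  obtain ⟨h2, ⟨h3, h4⟩, ⟨h5, h6⟩, h7⟩ := h1
  have hsub : [0, 1, 2, 3, 4] ⊆ a.2 := by
    intro x hx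
    simp only [List.mem_cons, List.not_mem_nil, or_false] at hx
    rcases hx with rfl | rfl | rfl | rfl | rfl <;> assumption
  have hsp : List.Subperm [0, 1, 2, 3, 4] a.2 := List.subperm_of_subset (by decide) hsub
  exact (hsp.perm_of_length_le (by rw [h2]; rfl)).symm

end Wp

/-! ### The value of a word with blocks only -/

section blocks

variable {R : Type*} [Ring R] {n : ℕ}

theorem mkw_nodup (f : ℕ → Bool) (u : List ℕ) : ∀ s : List ℕ, u.Nodup → (∀ k ∈ u, k ∉ s) →
    mkw f s u = u.map (fun k => 4 * k + 3) := by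
  induction u with
  | nil => exact fun _ _ _ => rfl
  | cons k u ih =>
    intro s hu hs
    unfold mkw
    rw [List.nodup_cons] at hu
    rw [ih (k :: s) hu.2 (by
      intro j hj hj2
      rcases List.mem_cons.1 hj2 with rfl | h3
      · exact hu.1 hj
      · exact hs j (by simp [hj]) h3), if_neg (hs k (by simp)), if_neg hu.1]
    rfl

theorem ev_blocks (hn : 1 ≤ n) (X : Fin 5 → R) {u : List ℕ} (hu : u.Perm [0, 1, 2, 3, 4]) :
    ev n X (std u) = (u.map (fun k => X ⟨k % 5, Nat.mod_lt _ (by norm_num)⟩ ^ (n - 1))).prod := by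
  have hnd : u.Nodup := hu.nodup_iff.2 (by decide)
  have e0 : std u = u.map (fun k => 4 * k + 3) := mkw_nodup _ u [] hnd (by simp)
  have hmem : ∀ k : Fin 5, (k : ℕ) ∈ u := by
    intro k
    rw [hu.mem_iff]
    fin_cases k <;> simp
  have hix : ∀ k : ℕ, ix (4 * k + 3) = ⟨k % 5, Nat.mod_lt _ (by norm_num)⟩ := by
    intro k
    unfold ix
    refine Fin.ext ?_
    show (4 * k + 3) / 4 % 5 = k % 5
    have : (4 * k + 3) / 4 = k := by omega
    rw [this]
  have hval : ∀ (e : Fin 5 → Fin n) (k : ℕ), SP.val n X e (4 * k + 3) =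
      if (e ⟨k % 5, Nat.mod_lt _ (by norm_num)⟩ : ℕ) = 0 then
        X ⟨k % 5, Nat.mod_lt _ (by norm_num)⟩ ^ (n - 1) else 0 := by
    intro e k
    unfold SP.val
    rw [if_neg (by omega), if_neg (by omega), hix]
  rw [e0]
  unfold ev
  rw [Finset.sum_eq_single (fun _ => (⟨0, hn⟩ : Fin n))]
  · unfold pw
    rw [List.map_map]
    congr 1
    refine List.map_congr_left fun k _ => ?_
    show SP.val n X _ (4 * k + 3) = _
    rw [hval, if_pos rfl]
  · intro e _ he
    obtain ⟨k, hk⟩ := Function.ne_iff.1 he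
    unfold pw
    refine List.prod_eq_zero ?_
    rw [List.mem_map]
    refine ⟨4 * (k : ℕ) + 3, List.mem_map.2 ⟨k, hmem k, rfl⟩, ?_⟩
    rw [hval]
    have e1 : (⟨(k : ℕ) % 5, Nat.mod_lt _ (by norm_num)⟩ : Fin 5) = k := by
      refine Fin.ext ?_
      exact Nat.mod_eq_of_lt k.isLt
    rw [e1, if_neg]
    intro h0
    exact hk (Fin.ext h0)
  · intro h0
    exact absurd (Finset.mem_univ _) h0

end blocks

end Pool.Agent.H.MP_e16c79_al.IS
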